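import Pool.Agent.H94.G4T.M01

/-! The parts of this file: H36.BP.WdA, H62.EF.Defs. -/

section

/-!
# BP WdA: the wedge norm

`wd x v = |x ∧ v|`, square root of the Gram determinant.  `gram_proj` : for orthonormal `a, b` the determinant of the projections is at most the
Gram determinant: with `x = Px + x'`, `v = Pv + v'` (orthogonal decomposition along the span of `a, b`), `A = |Px|²`, `B = |Pv|²`, `C = ⟨Px,Pv⟩`,
`(A + a')(B + b') - |C + c'|² ≥ AB - |C|²` because `a'b' ≥ |c'|²` and `A b' + a' B ≥ 2 (A B a' b')^(1/2) ≥ 2 |C||c'|`; and `AB - |C|² = |det|²`.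
`wd_norming` : for `x, v` with `wd x v > 0` take `a = x/|x|`, `b` = normalised component of `v` orthogonal to `x`.
-/

set_option autoImplicit false

namespace Pool.Agent.H36.BP

open Filter Topology Metric

variable {N : ℕ}

theorem le_of_sq_le_sq' {a b : ℝ} (h : a ^ 2 ≤ b ^ 2) (hb : 0 ≤ b) : a ≤ b :=
  abs_le_of_sq_le_sq' h hb |>.2

theorem WdA_rad (x v : EN N) : 0 ≤ ‖x‖ ^ 2 * ‖v‖ ^ 2 - ‖inner ℂ x v‖ ^ 2 := by
  have h := norm_inner_le_norm (𝕜 := ℂ) x v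
  have h2 : ‖inner ℂ x v‖ ^ 2 ≤ (‖x‖ * ‖v‖) ^ 2 := pow_le_pow_left₀ (norm_nonneg _) h 2
  rw [mul_pow] at h2
  linarith

theorem wd_nonneg (x v : EN N) : 0 ≤ wd x v := by
  exact Real.sqrt_nonneg _

/-- Cauchy-Schwarz -/
theorem wd_sq (x v : EN N) : wd x v ^ 2 = ‖x‖ ^ 2 * ‖v‖ ^ 2 - ‖inner ℂ x v‖ ^ 2 := by
  unfold wd
  rw [Real.sq_sqrt (WdA_rad x v)]

theorem wd_le (x v : EN N) : wd x v ≤ ‖x‖ * ‖v‖ := by
  have h := wd_sq x v
  have h2 : wd x v ^ 2 ≤ (‖x‖ * ‖v‖) ^ 2 := by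
    rw [mul_pow]
    nlinarith [sq_nonneg ‖inner ℂ x v‖]
  exact le_of_sq_le_sq' h2 (by positivity)

end Pool.Agent.H36.BP

end

section

/-!
# EF Defs: surfaces with a holomorphic map to an elliptic curve

`X` is the cone (without `0`) of a smooth projective surface, in `EN N = ℂ^(N+1)` with the Euclidean norm.  The map to `ℂ / Λ` is
given by a function `u : EN N → ℂ` which is holomorphic modulo `Λ`.  `pr x` is the orthogonal projection to the line of `x`, a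
matrix: in this way the projective space is a compact subset of a Euclidean space.
-/

set_option autoImplicit false

open Topology Filter Metric

namespace Pool.Agent.H62.EF

open Pool.Agent.H36.BP (EN wd)

variable {N : ℕ}

/-- matrices with the Frobenius norm -/
abbrev MN (N : ℕ) : Type := EuclideanSpace ℂ (Fin (N + 1) × Fin (N + 1))

/-- the orthogonal projection to the line of `x` -/
noncomputable def pr (x : EN N) : MN N :=
  WithLp.toLp 2 fun i => x i.1 * (starRingEnd ℂ) (x i.2) / ((‖x‖ ^ 2 : ℝ) : ℂ)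

/-- `Λ` is a lattice in `ℂ` -/
structure Lat (Λ : AddSubgroup ℂ) : Prop where
  discrete : ∃ δ : ℝ, 0 < δ ∧ ∀ l ∈ Λ, ‖l‖ < δ → l = 0
  cocompact : ∃ R : ℝ, 0 < R ∧ ∀ z : ℂ, ∃ l ∈ Λ, ‖z - l‖ ≤ R

/-- `u` is a holomorphic map from the surface to `ℂ / Λ` -/
structure TorusMap (X : Set (EN N)) (Λ : AddSubgroup ℂ) (u : EN N → ℂ) : Prop where
  smul : ∀ x ∈ X, ∀ c : ℂ, c ≠ 0 → u (c • x) - u x ∈ Λ
  loc : ∀ x ∈ X, ∃ v : EN N → ℂ, AnalyticAt ℂ v x ∧ ∀ᶠ y in 𝓝 x, y ∈ X → u y - v y ∈ Λ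

/-- the entire curves (lifts to the cone) with `u (F z) = z` modulo `Λ` -/
def Sec (X : Set (EN N)) (Λ : AddSubgroup ℂ) (u : EN N → ℂ) : Set (ℂ → EN N) :=
  {F | Differentiable ℂ F ∧ (∀ z, F z ∈ X) ∧ ∀ z, u (F z) - z ∈ Λ}

/-- the determinant -/
def det2 (a b : ℂ × ℂ) : ℂ := a.1 * b.2 - a.2 * b.1

/-- a vector in the kernel of the derivative of `υ` at `p` -/
noncomputable def grd (υ : ℂ × ℂ → ℂ) (p : ℂ × ℂ) : ℂ × ℂ := (-(fderiv ℂ υ p (0, 1)), fderiv ℂ υ p (1, 0))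

end Pool.Agent.H62.EF

end
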