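import Pool.Agent.H94.G4T.M01

/-! The parts of this file: H14.PP.CurveBasic, H14.PP.Defs_1, H14.PP.ChartBasic, H14.PP.Defs_2, H62.EL.Db. -/

section

/-!
# BPm CurveBasic: rules for `rho`, `fs`, `CurveAt`

* `rho_smul`: `‖Q (c x)‖ = ‖c‖^D ‖Q x‖`, `‖c x‖^D = ‖c‖^D ‖x‖^D`.
* `continuousAt_rho`: quotient of continuous functions, `x ≠ 0`.
* `continuousAt_fs`: `fs = wd / ‖x‖^2`, `wd_cont`.
* `fs_eq`: `wd x v = ‖x‖ ‖v - (⟪x,v⟫/‖x‖^2) x‖` for `x ≠ 0`, since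
  `‖v - a x‖^2 = ‖v‖^2 - ‖⟪x,v⟫‖^2/‖x‖^2`, `a = ⟪x,v⟫/‖x‖^2` (`wd_sq`).
* `fs_le`: `fs x v ≤ ‖v‖/‖x‖` (`wd_le`).
* `exists_rho_bound`: `rho` is invariant under scaling and continuous on the compact set
  `{x ∈ X | ‖x‖ = 1}` (`insert 0 X` is closed).
* `IsEq.curve_discrete`: `Q ∘ F` is analytic at `z₀`
  (`AnalyticAt.eventually_eq_zero_or_eventually_ne_zero`).
-/

open Topology Filter Metric

namespace Pool.Agent.H14.PP

open Pool.Agent.H36.BP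

variable {N : ℕ} {W : Type*} [NormedAddCommGroup W] [InnerProductSpace ℂ W]
  {X K T : Set (EN N)} {Q : EN N → W} {D : ℕ}

theorem IsCone.ne_zero (hX : IsCone X) {x : EN N} (hx : x ∈ X) : x ≠ 0 := by
  rintro rfl
  exact hX.zero_notMem hx

end Pool.Agent.H14.PP

end

section

/-!
# Project BP, metric half: definitions

`X` is the cone (without `0`) over a compact surface in `ℙ^N`, `K ⊆ X` the cone over the complement
of a curve (`K = X` in the compact case), `T` the cone over the total curve: it contains `X \ K`,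
and `K ∩ T` is the exceptional set.
-/

open Topology Filter Metric

namespace Pool.Agent.H14.PP

open Pool.Agent.H36.BP (EN wd)

variable {N : ℕ}

/-- `K` is the cone over a relatively open subset. -/
structure IsOpenPart (X K : Set (EN N)) : Prop where
  subset : K ⊆ X
  smul_mem : ∀ x ∈ K, ∀ c : ℂ, c ≠ 0 → c • x ∈ K
  rel_open : ∀ x ∈ K, ∀ᶠ y in 𝓝 x, y ∈ X → y ∈ K

section metric

variable {W : Type*} [NormedAddCommGroup W] [InnerProductSpace ℂ W]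

end metric

end Pool.Agent.H14.PP

end

section

/-!
# BPm ChartBasic: charts, basic facts

* `Chart.fderiv_q_smul`: `q (c • y) = q y` for `y` near `x ∈ U` (`U` open); differentiate:
  `Dq(c x) (c v) = Dq(x) v`; and `Dq(x) x = 0` (differentiate `q ((1 + h) • x) = q x` at `h = 0`).
* `Chart.fderiv_sigma`: derivative of `q ∘ σ = id` on the bidisc: `Dq(σ p) (Dσ(p) w) = w`.
* `Chart.tan`: the curve `z ↦ σ (p + z • w)`; if `σ p ∈ K` it stays in `K` (`rel_open`).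
* `Chart.curve`: `q ∘ F` is analytic at `z₀` (composition), its derivative is given by the chain
  rule. For `z` near `z₀`, `F z ∈ X ∩ U`, so `q (F z) ∈ ball 0 2` and `F z = c z • σ (q (F z))` with
  `c z ≠ 0` (`surj`). With `y = σ (q (F z₀)) ≠ 0`: `c z = ⟪y, F z⟫ / ⟪y, σ (q (F z))⟫` near `z₀`:
  analytic.
* `Chart.sigma_mem_iff`: for `x ∈ X ∩ U`, `x = c • σ (q x)`, so `x ∈ K ↔ σ (q x) ∈ K`.
-/

open Topology Filter Metric

namespace Pool.Agent.H14.PP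

open Pool.Agent.H36.BP

variable {N : ℕ} {X K T : Set (EN N)}

theorem Chart.sigma_ne_zero (hX : IsCone X) (χ : Chart X) {p : ℂ × ℂ}
    (hp : p ∈ ball (0 : ℂ × ℂ) 2) : χ.σ p ≠ 0 :=
  hX.ne_zero (χ.σ_mem p hp).1

theorem Chart.tan (hK : IsOpenPart X K) (χ : Chart X) {p : ℂ × ℂ}
    (hp : p ∈ ball (0 : ℂ × ℂ) 2) (hpK : χ.σ p ∈ K) (w : ℂ × ℂ) :
    Tan K (χ.σ p) (fderiv ℂ χ.σ p w) := by
  have hl : AnalyticAt ℂ (fun z : ℂ => p + z • w) 0 := by fun_prop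
  have h0 : p + (0 : ℂ) • w = p := by simp
  have hσ : AnalyticAt ℂ χ.σ (p + (0 : ℂ) • w) := by rw [h0]; exact χ.σ_an p hp
  have hF : AnalyticAt ℂ (fun z : ℂ => χ.σ (p + z • w)) 0 :=
    AnalyticAt.comp (g := χ.σ) (f := fun z : ℂ => p + z • w) hσ hl
  refine ⟨fun z => χ.σ (p + z • w), ⟨hF, ?_⟩, by simp, ?_⟩
  · have h1 : ∀ᶠ z : ℂ in 𝓝 0, χ.σ (p + z • w) ∈ X → χ.σ (p + z • w) ∈ K := by
      have h2 := hF.continuousAt
      have h3 := hK.rel_open _ hpK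
      have h4 : χ.σ (p + (0 : ℂ) • w) = χ.σ p := by rw [h0]
      have h5 : Tendsto (fun z : ℂ => χ.σ (p + z • w)) (𝓝 0) (𝓝 (χ.σ p)) := by
        have := h2.tendsto
        rwa [h4] at this
      exact h5.eventually h3
    have h6 : ∀ᶠ z : ℂ in 𝓝 0, p + z • w ∈ ball (0 : ℂ × ℂ) 2 := by
      have h7 := hl.continuousAt
      apply h7.eventually_mem
      rw [h0]
      exact isOpen_ball.mem_nhds hp
    filter_upwards [h1, h6] with z hz hz'
    exact hz (χ.σ_mem _ hz').1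
  · have h1 : HasFDerivAt χ.σ (fderiv ℂ χ.σ p) (p + (0 : ℂ) • w) := by
      rw [h0]
      exact (χ.σ_an p hp).differentiableAt.hasFDerivAt
    have h2 : HasDerivAt (fun z : ℂ => p + z • w) w 0 := by
      have h3 : HasDerivAt (fun z : ℂ => z • w) ((1 : ℂ) • w) 0 :=
        (hasDerivAt_id (0 : ℂ)).smul_const w
      rw [one_smul] at h3
      exact h3.const_add p
    exact (h1.comp_hasDerivAt (0 : ℂ) h2).deriv

end Pool.Agent.H14.PP

end

section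

/-!
# Project BP, metric half: definitions

`X` is the cone (without `0`) over a compact surface in `ℙ^N`, `K ⊆ X` the cone over the complement
of a curve (`K = X` in the compact case), `T` the cone over the total curve: it contains `X \ K`,
and `K ∩ T` is the exceptional set.
-/

open Topology Filter Metric

namespace Pool.Agent.H14.PP

open Pool.Agent.H36.BP (EN wd)

variable {N : ℕ}

/-- In the chart `χ` the curve `T` is the coordinate axis `s = 0` (`nd = false`) or the union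
`s t = 0` of the two coordinate axes (`nd = true`). -/
def HasType {X : Set (EN N)} (T : Set (EN N)) (χ : Chart X) (nd : Bool) : Prop :=
  ∀ p ∈ ball (0 : ℂ × ℂ) 2, (χ.σ p ∈ T ↔ p.1 = 0 ∨ (nd = true ∧ p.2 = 0))

/-- A section of `m K (-j)` over the surface whose cone is `K`. -/
structure Form (K : Set (EN N)) (m j : ℕ) where
  /-- the form -/
  toFun : EN N → EN N → EN N → ℂ
  add_smul : ∀ x ∈ K, ∀ v w, Tan K x v → Tan K x w → ∀ a b : ℂ,
    toFun x (v + a • x) (w + b • x) = toFun x v w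
  det : ∀ x ∈ K, ∀ v w, Tan K x v → Tan K x w → ∀ a b c d : ℂ,
    toFun x (a • v + b • w) (c • v + d • w) = (a * d - b * c) ^ m * toFun x v w
  scale : ∀ x ∈ K, ∀ v w, Tan K x v → Tan K x w → ∀ c : ℂ, c ≠ 0 →
    c ^ j * toFun (c • x) (c • v) (c • w) = toFun x v w
  analytic : ∀ (φ : ℂ × ℂ → EN N) (p : ℂ × ℂ), AnalyticAt ℂ φ p → (∀ᶠ y in 𝓝 p, φ y ∈ K) →
    AnalyticAt ℂ (fun y => toFun (φ y) (fderiv ℂ φ y (1, 0)) (fderiv ℂ φ y (0, 1))) p

/-- The coefficient of the form in a chart. -/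
noncomputable def aCoef {X K : Set (EN N)} {m j : ℕ} (Ω : Form K m j) (χ : Chart X) (p : ℂ × ℂ) :
    ℂ :=
  Ω.toFun (χ.σ p) (fderiv ℂ χ.σ p (1, 0)) (fderiv ℂ χ.σ p (0, 1))

/-- The parameters of the metric near `T`. -/
structure Par where
  ε : ℝ
  κ : ℝ
  K : ℝ
  M : ℝ
  e : ℝ

/-- The normal piece. -/
noncomputable def pN (nd : Bool) (P : Par) (s t s' : ℂ) : ℝ :=
  (if nd = true then ‖t‖ ^ (1 - P.κ) * Real.exp (-P.ε * ‖s‖ ^ 2) else 1) * ‖s'‖ *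
    (1 + P.M * ‖s‖ ^ (2 * P.κ)) ^ P.e * Real.exp (-P.K * ‖t‖ ^ 2)

/-- The tangential piece. -/
noncomputable def pT (nd : Bool) (P : Par) (s t t' : ℂ) : ℝ :=
  if nd = true then pN true P t s t' else ‖s‖ ^ (1 - P.κ) * ‖t'‖ * Real.exp (-P.ε * ‖t‖ ^ 2)

/-- The function measuring the distance to `T` in a chart. -/
noncomputable def small (nd : Bool) (p : ℂ × ℂ) : ℝ := if nd = true then ‖p.1‖ * ‖p.2‖ else ‖p.1‖

/-- The matrix `(l, b; c, m)` of the derivative of a change of charts, at a point with first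
coordinate `s`, where the first new coordinate is `u`, is `C`-controlled. -/
def TE (C : ℝ) (s u l b c m : ℂ) : Prop :=
  ‖b‖ ≤ C * ‖s‖ ∧ ‖c‖ ≤ C ∧ |‖u‖ - ‖l‖ * ‖s‖| ≤ C * ‖s‖ ^ 2 ∧ C⁻¹ ≤ ‖l‖ ∧ ‖l‖ ≤ C ∧ C⁻¹ ≤ ‖m‖ ∧
    ‖m‖ ≤ C

/-- The Jacobian determinant. -/
noncomputable def jac (τ : ℂ × ℂ → ℂ × ℂ) (p : ℂ × ℂ) : ℂ :=
  (fderiv ℂ τ p (1, 0)).1 * (fderiv ℂ τ p (0, 1)).2 -
    (fderiv ℂ τ p (0, 1)).1 * (fderiv ℂ τ p (1, 0)).2

section metric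

variable {W : Type*} [NormedAddCommGroup W] [InnerProductSpace ℂ W]

end metric

end Pool.Agent.H14.PP

end

section

/-!
# EL Db: the form `β = - A ds` in another chart

Let `τ = χ.q ∘ χ'.σ`, analytic near `p` if `χ'.σ p ∈ χ.U`, with values in `ball 0 2` (`Chart.surj`).  `bc χ A χ' e = - A(τ) ∂_e τ₁`.
`bc_an`: clear (`fderiv` of an analytic function is analytic).
`bc_closed`: `∂₁ b₂ - ∂₂ b₁ = -(A_s ∂₁τ₁ + A_t ∂₁τ₂) ∂₂τ₁ + (A_s ∂₂τ₁ + A_t ∂₂τ₂) ∂₁τ₁ - A (∂₁∂₂τ₁ - ∂₂∂₁τ₁) = A_t (τ) (∂₁τ₁ ∂₂τ₂ - ∂₂τ₁ ∂₁τ₂)`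
(mixed derivatives are symmetric), `A_t (τ p) = tc α χ υ (τ p)` and `tc α χ υ (τ p) * jac τ p = tc α χ' υ' p` (`tc_trans`).
`bt_eq`: near `ζ`, `χ.q (γ ξ) = τ (χ'.q (γ ξ))` (`γ ξ = c • χ'.σ (χ'.q (γ ξ))`, `q_smul`); chain rule; at `ζ`: `χ.q (γ ζ) = τ (χ'.q (γ ζ))`.
-/

set_option autoImplicit false

open Topology Filter Metric

namespace Pool.Agent.H62.EL

open Pool.Agent.H36.BP (EN wd)
open Pool.Agent.H14.PP (IsCone Chart Tan CurveAt)

variable {N : ℕ} {X : Set (EN N)} {Λ : AddSubgroup ℂ} {u : EN N → ℂ}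

theorem Db_tau_an (χ χ' : Chart X) {p : ℂ × ℂ} (hp : p ∈ ball (0 : ℂ × ℂ) 2) (hU : χ'.σ p ∈ χ.U) :
    AnalyticAt ℂ (fun y => χ.q (χ'.σ y)) p :=
  AnalyticAt.comp (g := χ.q) (f := χ'.σ) (χ.q_an _ hU) (χ'.σ_an p hp)

theorem Db_pair {E : Type*} [NormedAddCommGroup E] [NormedSpace ℂ E] (L : (ℂ × ℂ) →L[ℂ] E) (w : ℂ × ℂ) :
    L w = w.1 • L (1, 0) + w.2 • L (0, 1) := by
  rw [← map_smul, ← map_smul, ← map_add]
  congr 1
  ext
  · simp
  · simp

end Pool.Agent.H62.EL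

end
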