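import Pool.Agent.H94.G4T.M01

/-! The parts of this file: H36.BP.GermChart, H62.EF.Defs_1, H62.EL.Defs. -/

section

/-!
# BP GermChart: from germ-level charts to charts on the bidisc of radius 2

Let `ℓ` be a linear form with `ℓ (σ 0) = 1`, `σ₁ p = (ℓ (σ p))⁻¹ • σ p`, `σ' p = σ₁ (r p)` for a small `r`, `U = {x : ℓ x ≠ 0, x/ℓ x ∈ W₀, |τ (x/ℓ x)| < 2r}`, `q x = τ (x/ℓ x)/r`.
-/

set_option autoImplicit false

namespace Pool.Agent.H36.BP

open Filter Topology Metric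

variable {N : ℕ}

/-- germ-level charts -/
structure IsGermChart (X : Set (EN N)) (σ : ℂ × ℂ → EN N) (τ : EN N → ℂ × ℂ) : Prop where
  σ_an : AnalyticAt ℂ σ 0
  σ_mem : ∀ᶠ p in 𝓝 (0 : ℂ × ℂ), σ p ∈ X
  τ_an : AnalyticAt ℂ τ (σ 0)
  left : ∀ᶠ p in 𝓝 (0 : ℂ × ℂ), τ (σ p) = p
  right : ∀ᶠ y in 𝓝 (σ 0), y ∈ X → ∃ c : ℂ, c ≠ 0 ∧ y = c • σ (τ y)
  inv : ∀ᶠ z in 𝓝 (σ 0, (1 : ℂ)), τ (z.2 • z.1) = τ z.1

end Pool.Agent.H36.BP

end

section

/-!
# EF Defs: surfaces with a holomorphic map to an elliptic curve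

`X` is the cone (without `0`) of a smooth projective surface, in `EN N = ℂ^(N+1)` with the Euclidean norm.  The map to `ℂ / Λ` is
given by a function `u : EN N → ℂ` which is holomorphic modulo `Λ`.  `pr x` is the orthogonal projection to the line of `x`, a
matrix: in this way the projective space is a compact subset of a Euclidean space.
-/

set_option autoImplicit false

open Topology Filter Metric

namespace Pool.Agent.H62.EF

open Pool.Agent.H36.BP (EN wd)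
open Pool.Agent.H14.PP (IsCone Chart Tan)

variable {N : ℕ}

/-- `X` is smooth: there are charts -/
def Charts (X : Set (EN N)) : Prop := ∀ x ∈ X, ∃ χ : Chart X, x ∈ χ.U ∧ χ.q x = 0

/-- the function which is compared with holomorphic functions -/
noncomputable def rho {Y : Type} [MetricSpace Y] (M : ℕ) (T : Y → ℝ) (f g : ℂ → Y) (z : ℂ) : ℝ := dist (f z) (g z) ^ M * T (f z)

end Pool.Agent.H62.EF

end

section

/-!
# EL Defs: surfaces over an elliptic curve with a holomorphic `2`-form, normal crossing bad fibres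

`X` is the cone (without `0`) over a smooth projective surface, `u` a holomorphic map to `ℂ / Λ` (see EF Defs).  `TForm X Λ u` are the
holomorphic `2`-forms on the surface `{(x, z) : u x = z mod Λ}` (a covering of `X` with group `Λ`).
-/

set_option autoImplicit false

open Topology Filter Metric

namespace Pool.Agent.H62.EL

open Pool.Agent.H36.BP (EN wd IsGermChart)
open Pool.Agent.H14.PP (IsCone Chart Tan CurveAt)

variable {N : ℕ}

/-- in suitable local coordinates at `x` the map `u` is `b + s ^ i * t ^ j` -/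
def IsNC (X : Set (EN N)) (Λ : AddSubgroup ℂ) (u : EN N → ℂ) (x : EN N) (b : ℂ) : Prop :=
  ∃ (σ : ℂ × ℂ → EN N) (τ : EN N → ℂ × ℂ) (i j : ℕ), IsGermChart X σ τ ∧ σ 0 = x ∧ 0 < i + j ∧
    ∀ᶠ p in 𝓝 (0 : ℂ × ℂ), u (σ p) - (b + p.1 ^ i * p.2 ^ j) ∈ Λ

/-- a holomorphic `2`-form on `{(x, z) : u x = z mod Λ}` -/
structure TForm (X : Set (EN N)) (Λ : AddSubgroup ℂ) (u : EN N → ℂ) where
  /-- the form: `toFun z x v w` for `u x = z mod Λ` and tangent vectors `v`, `w` at `x` -/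
  toFun : ℂ → EN N → EN N → EN N → ℂ
  add_smul : ∀ z, ∀ x ∈ X, u x - z ∈ Λ → ∀ v w, Tan X x v → Tan X x w → ∀ a b : ℂ,
    toFun z x (v + a • x) (w + b • x) = toFun z x v w
  det : ∀ z, ∀ x ∈ X, u x - z ∈ Λ → ∀ v w, Tan X x v → Tan X x w → ∀ a b c d : ℂ,
    toFun z x (a • v + b • w) (c • v + d • w) = (a * d - b * c) * toFun z x v w
  scale : ∀ z, ∀ x ∈ X, u x - z ∈ Λ → ∀ v w, Tan X x v → Tan X x w → ∀ c : ℂ, c ≠ 0 →
    toFun z (c • x) (c • v) (c • w) = toFun z x v w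
  analytic : ∀ (φ : ℂ × ℂ → EN N) (υ : ℂ × ℂ → ℂ) (p : ℂ × ℂ), AnalyticAt ℂ φ p → AnalyticAt ℂ υ p →
    (∀ᶠ y in 𝓝 p, φ y ∈ X ∧ u (φ y) - υ y ∈ Λ) →
    AnalyticAt ℂ (fun y => toFun (υ y) (φ y) (fderiv ℂ φ y (1, 0)) (fderiv ℂ φ y (0, 1))) p

variable {X : Set (EN N)} {Λ : AddSubgroup ℂ} {u : EN N → ℂ}

/-- the coefficient of the form in the chart `χ` with the lift `υ` of `u` -/
noncomputable def tc (α : TForm X Λ u) (χ : Chart X) (υ : ℂ × ℂ → ℂ) (p : ℂ × ℂ) : ℂ :=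
  α.toFun (υ p) (χ.σ p) (fderiv ℂ χ.σ p (1, 0)) (fderiv ℂ χ.σ p (0, 1))

/-- the function `b + ρ s^i t^j` -/
noncomputable def mo (b : ℂ) (ρ : ℝ) (i j : ℕ) (p : ℂ × ℂ) : ℂ := b + ρ * (p.1 ^ i * p.2 ^ j)

/-- in the chart `χ` the map `u` is `b + ρ s^i t^j` -/
structure Mon (Λ : AddSubgroup ℂ) (u : EN N → ℂ) (χ : Chart X) (b : ℂ) (ρ : ℝ) (i j : ℕ) : Prop where
  pos : 0 < ρ
  ij : 0 < i + j
  lift : ∀ p ∈ ball (0 : ℂ × ℂ) 2, u (χ.σ p) - mo b ρ i j p ∈ Λ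

/-- the form `- A ds` of the chart on the derivative of the curve `γ` at `ζ` -/
noncomputable def bt (χ : Chart X) (A : ℂ × ℂ → ℂ) (γ : ℂ → EN N) (ζ : ℂ) : ℂ :=
  -(A (χ.q (γ ζ)) * (deriv (fun ξ => χ.q (γ ξ)) ζ).1)

end Pool.Agent.H62.EL

end
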