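import Pool.Agent.H94.G4T.H36.BP.Defs_1
import Pool.Agent.H94.G4T.M03
import Pool.Agent.H94.G4T.TG.Defs

/-! The parts of this file: AD.Germ, TG.Defs_1. -/

section

/-!
# AD Germ: charts from germ-level charts

The proof of `Pool.Agent.H62.EF.exists_chart_of_germ` with `ℂ × ℂ` replaced by `Vd d`.
-/

set_option autoImplicit false

open Topology Filter Metric

namespace Pool.Agent.AD

open Pool.Agent.H36.BP (EN)
open Pool.Agent.H14.PP (IsCone)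

variable {N d : ℕ}

/-- germ-level charts -/
structure IsGerm (X : Set (EN N)) (σ : Vd d → EN N) (τ : EN N → Vd d) : Prop where
  σ_an : AnalyticAt ℂ σ 0
  σ_mem : ∀ᶠ p in 𝓝 (0 : Vd d), σ p ∈ X
  τ_an : AnalyticAt ℂ τ (σ 0)
  left : ∀ᶠ p in 𝓝 (0 : Vd d), τ (σ p) = p
  right : ∀ᶠ y in 𝓝 (σ 0), y ∈ X → ∃ c : ℂ, c ≠ 0 ∧ y = c • σ (τ y)
  inv : ∀ᶠ z in 𝓝 (σ 0, (1 : ℂ)), τ (z.2 • z.1) = τ z.1

end Pool.Agent.AD

end

section

/-!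
# TG Defs: projective manifolds of dimension `k + 2` over complex tori of dimension `k + 1`, arbitrary singular fibres

`X` is the cone (without `0`) over a projective manifold of dimension `k + 2`, `u` a holomorphic map to `ℂ^(k+1) / Λ` (a function `u : EN N → Vd (k+1)`
which is holomorphic modulo `Λ`).  `D ⊆ ℂ^(k+1)` is the set of the bad values (closed, `Λ`-invariant, contained in hypersurfaces), `B ⊆ D` the set of the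
very bad values, which almost every line avoids.  Over `D \ B` the map `u` is `(x^a y^b, s)` in suitable coordinates.  Charts are `AD.Chart (k + 2) X`
(polydisc of radius `2` for the sup norm); the coordinate `0` is the coordinate along the fibres, the others (`tl p`) those of the base.
All norms and balls in `Vd (k+1)` are for the sup norm.
-/

set_option autoImplicit false

open Topology Filter Metric

namespace Pool.Agent.TG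

open Pool.Agent.H36.BP (EN fs wd)
open Pool.Agent.H14.PP (IsCone CurveAt Tan)
open Pool.Agent.H62.EF (MN pr)
open Pool.Agent.AD (Vd Chart Charts IsGerm)

variable {N k : ℕ}

/-- `Λ` is a lattice -/
structure Lat (Λ : AddSubgroup (Vd (k + 1))) : Prop where
  disc : ∃ δ : ℝ, 0 < δ ∧ ∀ l ∈ Λ, ‖l‖ < δ → l = 0
  cpt : ∃ R : ℝ, 0 < R ∧ ∀ y : Vd (k + 1), ∃ l ∈ Λ, ‖y - l‖ ≤ R

/-- the model of the bad fibres: `(x, y, s) ↦ (x ^ a * y ^ b, s)` -/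
def nm (a b : ℕ) (p : Vd (k + 2)) : Vd (k + 1) := Fin.cons (α := fun _ => ℂ) (p 0 ^ a * p 1 ^ b) fun i : Fin k => p i.succ.succ

/-- `u` is a submersion at `x`, with value `y`: in suitable coordinates `u` is `y + tl p` -/
def IsStr (X : Set (EN N)) (Λ : AddSubgroup (Vd (k + 1))) (u : EN N → Vd (k + 1)) (x : EN N) (y : Vd (k + 1)) : Prop :=
  ∃ (σ : Vd (k + 2) → EN N) (τ : EN N → Vd (k + 2)), IsGerm X σ τ ∧ σ 0 = x ∧ ∀ᶠ p in 𝓝 (0 : Vd (k + 2)), u (σ p) - (y + tl p) ∈ Λ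

/-- in suitable coordinates at `x` the map `u` is `κ (x ^ a * y ^ b, s)` -/
def IsNC (X : Set (EN N)) (Λ : AddSubgroup (Vd (k + 1))) (u : EN N → Vd (k + 1)) (κ : Vd (k + 1) → Vd (k + 1)) (x : EN N) : Prop :=
  ∃ (σ : Vd (k + 2) → EN N) (τ : EN N → Vd (k + 2)) (a b : ℕ), IsGerm X σ τ ∧ σ 0 = x ∧ 0 < a + b ∧
    ∀ᶠ p in 𝓝 (0 : Vd (k + 2)), u (σ p) - κ (nm a b p) ∈ Λ

/-- the geometric data -/
structure Geo (X : Set (EN N)) (Λ : AddSubgroup (Vd (k + 1))) (u : EN N → Vd (k + 1)) (D B : Set (Vd (k + 1))) : Prop where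
  cone : IsCone X
  charts : Charts (k + 2) X
  tor : TMap X Λ u
  lat : Lat Λ
  D_closed : IsClosed D
  D_inv : ∀ y ∈ D, ∀ l ∈ Λ, y + l ∈ D
  D_thin : ∀ y : Vd (k + 1), ∃ h : Vd (k + 1) → ℂ, AnalyticAt ℂ h y ∧ (∀ᶠ z in 𝓝 y, z ∈ D → h z = 0) ∧ ¬ ∀ᶠ z in 𝓝 y, h z = 0
  B_lines : ∀ e : Vd (k + 1), e ≠ 0 → ∀ᵐ y : Vd (k + 1), ∀ z : ℂ, y + z • e ∉ B
  sub : ∀ y ∉ D, ∀ x ∈ X, u x - y ∈ Λ → IsStr X Λ u x y
  fib : ∀ y ∉ D, ∀ F : ℂ → EN N, Differentiable ℂ F → (∀ z, F z ∈ X) → (∀ z, u (F z) - y ∈ Λ) → (∃ L : ℝ, ∀ z, fs (F z) (deriv F z) ≤ L) →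
    ∀ z w, ∃ c : ℂ, F z = c • F w
  nc : ∀ y ∈ D, y ∉ B → ∃ κ : Vd (k + 1) → Vd (k + 1), IsCoord D κ y ∧ ∀ x ∈ X, u x - y ∈ Λ → IsNC X Λ u κ x

variable {X : Set (EN N)} {Λ : AddSubgroup (Vd (k + 1))} {u : EN N → Vd (k + 1)}

/-- the zeros of the form -/
def Zr (α : VForm X Λ u) (y : Vd (k + 1)) (m : MN N) : Prop :=
  ∃ x ∈ X, pr x = m ∧ u x - y ∈ Λ ∧ ∀ v : Fin (k + 2) → EN N, (∀ i, Tan X x (v i)) → α.toFun y x v = 0

/-- the vector `e` is not tangent to `D` at `p` (no condition if `p ∉ D`) -/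
def TransAt (D : Set (Vd (k + 1))) (p e : Vd (k + 1)) : Prop :=
  e ≠ 0 ∧ ∀ κ : Vd (k + 1) → Vd (k + 1), IsCoord D κ p → ∀ q : Vd (k + 1), q 0 = 0 → fderiv ℂ κ 0 q ≠ e

/-- the map `f : ℂ → MN N` is at `z` a holomorphic curve in `X` over the line `y + z e` -/
def LiftAt (X : Set (EN N)) (Λ : AddSubgroup (Vd (k + 1))) (u : EN N → Vd (k + 1)) (y e : Vd (k + 1)) (f : ℂ → MN N) (z : ℂ) : Prop :=
  ∃ Φ : ℂ → EN N, AnalyticAt ℂ Φ z ∧ ∀ᶠ w in 𝓝 z, Φ w ∈ X ∧ f w = pr (Φ w) ∧ u (Φ w) - (y + w • e) ∈ Λ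

/-- the sections of `u` over the complement of `D` which extend to the points of `D` on every line (values on `D` do not matter) -/
def Sec (X : Set (EN N)) (Λ : AddSubgroup (Vd (k + 1))) (u : EN N → Vd (k + 1)) (D : Set (Vd (k + 1))) : Set (Vd (k + 1) → MN N) :=
  {f | (∀ y, y ∉ D → ∃ φ : Vd (k + 1) → EN N, AnalyticAt ℂ φ y ∧ ∀ᶠ z in 𝓝 y, φ z ∈ X ∧ f z = pr (φ z) ∧ u (φ z) - z ∈ Λ) ∧
    ∀ y e : Vd (k + 1), (∀ᶠ z in 𝓝[≠] (0 : ℂ), y + z • e ∉ D) →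
      ∃ g : ℂ → MN N, LiftAt X Λ u y e g 0 ∧ ∀ᶠ z in 𝓝[≠] (0 : ℂ), g z = f (y + z • e)}

/-- the limits of the sections, locally uniformly outside `D` -/
def Sb (X : Set (EN N)) (Λ : AddSubgroup (Vd (k + 1))) (u : EN N → Vd (k + 1)) (D : Set (Vd (k + 1))) : Set (Vd (k + 1) → MN N) :=
  {f | ∀ δ' : ℝ, 0 < δ' → ∀ R ε : ℝ, 0 < ε → ∃ F ∈ Sec X Λ u D, ∀ y ∈ Gd D δ', ‖y‖ ≤ R → dist (F y) (f y) < ε}

/-- the constants of the theory on `Gd D δ` -/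
structure Cst (X : Set (EN N)) (Λ : AddSubgroup (Vd (k + 1))) (u : EN N → Vd (k + 1)) (D : Set (Vd (k + 1))) (δ ε ε₀ : ℝ) : Prop where
  δ_pos : 0 < δ
  ε_pos : 0 < ε
  ε₀_pos : 0 < ε₀
  cap : ∀ y₀ ∈ Gd D δ, ∀ m ∈ Fb X Λ u y₀, ∃ (χ : Chart (k + 2) X) (c : Vd (k + 1)) (ρ : ℝ), Cap Λ u χ c ρ y₀ m (3 * ε)
  rel : ∀ y ∈ Gd D δ, ∀ m ∈ Fb X Λ u y, ∀ m' ∈ Fb X Λ u y, dist m m' ≤ ε₀ → ∀ α : VForm X Λ u, ∃ v, IRel α ε y m m' v

/-- `w` is a tangent vector of `X` at `x` on which the derivative of `u` is `E` -/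
def DV (X : Set (EN N)) (Λ : AddSubgroup (Vd (k + 1))) (u : EN N → Vd (k + 1)) (x w : EN N) (E : Vd (k + 1)) : Prop :=
  ∃ (γ : ℂ → EN N) (υ : ℂ → Vd (k + 1)), CurveAt X γ 0 ∧ γ 0 = x ∧ deriv γ 0 = w ∧ AnalyticAt ℂ υ 0 ∧
    (∀ᶠ z in 𝓝 (0 : ℂ), u (γ z) - υ z ∈ Λ) ∧ deriv υ 0 = E

end Pool.Agent.TG

end
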