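import Pool.Agent.H94.G4T.G3.Defs
import Pool.Agent.H94.G4T.H62.EF.PrA
import Pool.Agent.H94.G4T.M04
import Pool.Agent.H94.G4T.M09

/-! The parts of this file: G3.C.EDefs, G3.A.Defs. -/

section

/-!
# G3 C EDefs: extension of families of curves to complex values of the parameter, definitions

Coordinates `(σ, z) ↦ b + σ ν + z a` of `ℂ^(k+1)` (`k = 1`), `Bd ⊆ ℂ × ℂ` the set of the `(σ, z)` over the bad points, separated for the sup metric,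
`Φ : ℝ → ℂ → MN N` a family of curves, `Φ s` a curve over the line `b + s ν + ℂ a`.  `EAt Φ s₀ z₀ ε`: the family extends to the ball of radius `ε` in `ℂ × ℂ`.
-/

set_option autoImplicit false

open Topology Filter Metric

namespace Pool.Agent.G3.C

open Pool.Agent.H36.BP (EN wd)
open Pool.Agent.H62.EF (MN pr)
open Pool.Agent.AD (Vd)

variable {N k : ℕ}

/-- the bad points are separated -/
structure Sep (Bd : Set (ℂ × ℂ)) (ρ : ℝ) : Prop where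
  pos : 0 < ρ
  sep : ∀ β ∈ Bd, ∀ β' ∈ Bd, β ≠ β' → 8 * ρ ≤ dist β β'

/-- the entire curves in `X` over the line `y + ℂ a` -/
def Gc (X : Set (EN N)) (Λ : AddSubgroup (Vd (k + 1))) (u : EN N → Vd (k + 1)) (a y : Vd (k + 1)) : Set (ℂ → EN N) :=
  {F | Differentiable ℂ F ∧ (∀ z, F z ∈ X) ∧ ∀ z, u (F z) - (y + z • a) ∈ Λ}

/-- the family extends to the ball of radius `ε` in `ℂ × ℂ` with centre `(s₀, z₀)` -/
def EAt (Φ : ℝ → ℂ → MN N) (s₀ : ℝ) (z₀ : ℂ) (ε : ℝ) : Prop :=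
  ∃ F : ℂ × ℂ → EN N, DifferentiableOn ℂ F (ball ((s₀ : ℂ), z₀) ε) ∧ (∀ p ∈ ball ((s₀ : ℂ), z₀) ε, F p ≠ 0) ∧
    ∀ (s : ℝ) (z : ℂ), ((s : ℂ), z) ∈ ball ((s₀ : ℂ), z₀) ε → Φ s z = pr (F (s, z))

theorem EAt.shrink {Φ : ℝ → ℂ → MN N} {s₀ s₁ : ℝ} {z₀ z₁ : ℂ} {ε ε' : ℝ} (h : EAt Φ s₀ z₀ ε)
    (hb : ball ((s₁ : ℂ), z₁) ε' ⊆ ball ((s₀ : ℂ), z₀) ε) : EAt Φ s₁ z₁ ε' := by
  obtain ⟨F, h1, h2, h3⟩ := h
  exact ⟨F, h1.mono hb, fun p hp => h2 p (hb hp), fun s z hz => h3 s z (hb hz)⟩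

theorem EAt.mono {Φ : ℝ → ℂ → MN N} {s₀ : ℝ} {z₀ : ℂ} {ε ε' : ℝ} (h : EAt Φ s₀ z₀ ε) (hε : ε' ≤ ε) : EAt Φ s₀ z₀ ε' :=
  h.shrink (ball_subset_ball hε)

theorem EAt.move {Φ : ℝ → ℂ → MN N} {s₀ s₁ : ℝ} {z₀ z₁ : ℂ} {ε : ℝ} (h : EAt Φ s₀ z₀ ε) :
    EAt Φ s₁ z₁ (ε - dist ((s₁ : ℂ), z₁) ((s₀ : ℂ), z₀)) :=
  h.shrink (ball_subset_ball' (by linarith))

/-! ### the normalised vector of a line -/

/-- the vector `x / ⟨v, x⟩` for the line with the projection matrix `pr x` -/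
noncomputable def nv (v : EN N) (m : MN N) : EN N := (∑ i, ∑ j, (starRingEnd ℂ) (v i) * m (i, j) * v j)⁻¹ • WithLp.toLp 2 fun i => ∑ j, m (i, j) * v j

private theorem inner_eq_sum (x y : EN N) : (inner ℂ x y : ℂ) = ∑ j, (starRingEnd ℂ) (x j) * y j := by
  rw [PiLp.inner_apply]
  refine Finset.sum_congr rfl fun j _ => ?_
  rw [RCLike.inner_apply]
  ring

private theorem nv_row (v x : EN N) (i : Fin (N + 1)) : ∑ j, pr x (i, j) * v j = (inner ℂ x v / ((‖x‖ ^ 2 : ℝ) : ℂ)) * x i := by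
  rw [inner_eq_sum, Finset.sum_div, Finset.sum_mul]
  refine Finset.sum_congr rfl fun j _ => ?_
  simp only [pr]
  ring

private theorem nv_den (v x : EN N) : ∑ i, ∑ j, (starRingEnd ℂ) (v i) * pr x (i, j) * v j = (inner ℂ x v / ((‖x‖ ^ 2 : ℝ) : ℂ)) * inner ℂ v x := by
  rw [inner_eq_sum v x, Finset.mul_sum]
  refine Finset.sum_congr rfl fun i _ => ?_
  have h := nv_row v x i
  calc ∑ j, (starRingEnd ℂ) (v i) * pr x (i, j) * v j = (starRingEnd ℂ) (v i) * ∑ j, pr x (i, j) * v j := by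
        rw [Finset.mul_sum]
        exact Finset.sum_congr rfl fun j _ => by ring
    _ = _ := by rw [h]; ring

theorem nv_pr {v x : EN N} (h : inner ℂ v x ≠ (0 : ℂ)) : nv v (pr x) = (inner ℂ v x : ℂ)⁻¹ • x := by
  have hx : x ≠ 0 := by
    rintro rfl
    exact h (inner_zero_right _)
  have h1 : ((‖x‖ ^ 2 : ℝ) : ℂ) ≠ 0 := by
    have : ‖x‖ ≠ 0 := norm_ne_zero_iff.mpr hx
    exact_mod_cast pow_ne_zero 2 this
  have h2 : inner ℂ x v ≠ (0 : ℂ) := fun h' => h (by rw [← inner_conj_symm, h', map_zero])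
  unfold nv
  rw [nv_den]
  ext i
  simp only [PiLp.smul_apply, smul_eq_mul]
  rw [nv_row]
  field_simp

/-- the denominator of `nv`, a continuous function which is not zero at `pr x` if `⟨v, x⟩ ≠ 0` -/
noncomputable def nd (v : EN N) (m : MN N) : ℂ := ∑ i, ∑ j, (starRingEnd ℂ) (v i) * m (i, j) * v j

theorem nd_cont (v : EN N) : Continuous (nd v : MN N → ℂ) := by
  unfold nd
  refine continuous_finsetSum _ fun i _ => continuous_finsetSum _ fun j _ => ?_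
  exact (continuous_const.mul (PiLp.continuous_apply 2 _ (i, j))).mul continuous_const

theorem nd_pr_ne {v x : EN N} (hx : x ≠ 0) : nd v (pr x) ≠ 0 ↔ inner ℂ v x ≠ (0 : ℂ) := by
  have h1 : ((‖x‖ ^ 2 : ℝ) : ℂ) ≠ 0 := by
    have : ‖x‖ ≠ 0 := norm_ne_zero_iff.mpr hx
    exact_mod_cast pow_ne_zero 2 this
  unfold nd
  rw [nv_den]
  constructor
  · intro h h'
    rw [h', mul_zero] at h
    exact h rfl
  · intro h
    have h2 : inner ℂ x v ≠ (0 : ℂ) := fun h' => h (by rw [← inner_conj_symm, h', map_zero])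
    exact mul_ne_zero (div_ne_zero h2 h1) h

theorem nv_continuousAt {v : EN N} {m : MN N} (h : nd v m ≠ 0) : ContinuousAt (nv v) m := by
  have h1 : ContinuousAt (fun m : MN N => (nd v m)⁻¹) m := ((nd_cont v).continuousAt (x := m)).inv₀ h
  have h2 : ContinuousAt (fun m : MN N => (WithLp.toLp 2 fun i => ∑ j, m (i, j) * v j : EN N)) m := ?_
  · exact h1.smul h2
  · refine ((PiLp.continuous_toLp 2 _).comp (continuous_pi fun i => ?_)).continuousAt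
    refine continuous_finsetSum _ fun j _ => ?_
    exact (PiLp.continuous_apply 2 _ (i, j)).mul continuous_const

theorem pr_nv {v x : EN N} (h : inner ℂ v x ≠ (0 : ℂ)) : pr (nv v (pr x)) = pr x := by
  rw [nv_pr h]
  exact Pool.Agent.H62.EF.pr_smul x (inv_ne_zero h)

end Pool.Agent.G3.C

end

section

/-!
# G3 A Defs: curves over the lines of one direction

`a` is a direction (sup norm `1`), `Bad` the set of the bad points for this direction (`Ba D B a`: points of `B` and points where `a` is tangent to `D`).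

* `Hc X Λ u a y`: the entire curves over the line `y + ℂ a`, as maps to the projective space (`MN N`).
* `Frm`: finitely many forms `α j` with theta factors for `Γ ≤ Λ` (`Tht`), without common zeros outside `D` (`Sepa`); `Dec`: decay `|α j| ≤ C₀ exp (- c₀ |y|²)`.
* `NL`: normalised lifts of the curves in `Hc` (from block P).
* `LG`: the geometry of the lines of direction `a`; `LC`: the constants `ρ`, `δ`; `Co`: the core.
* `CRL`: crossing for the lines near a line through a good point (from block X); `DA`: all data for the direction `a`.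
* `Tb`, `ToE`, `Sht`: the real subspace `E`, the closure of `ℂ a`, and the sheets over `b + E`.
* `Lm`: convergence of curves `f n` over `y n + ℂ a` to a curve `g` over `y₀ + ℂ a`, locally uniformly outside `D`.
-/

set_option autoImplicit false

open Topology Filter Metric

namespace Pool.Agent.G3.A

open Pool.Agent.H36.BP (EN fs wd)
open Pool.Agent.H14.PP (IsCone CurveAt Tan)
open Pool.Agent.H62.EF (MN pr)
open Pool.Agent.AD (Vd Chart Charts IsGerm)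
open Pool.Agent.TG
open Pool.Agent.G3.C (Gc)

variable {N k : ℕ}

/-- the bad points for the direction `a`: the points of `B`, and the points at which `a` is tangent to `D` -/
def Ba (D B : Set (Vd (k + 1))) (a : Vd (k + 1)) : Set (Vd (k + 1)) := {q | q ∈ D ∧ (q ∈ B ∨ ¬ TransAt D q a)}

/-- the entire curves in `X` over the line `y + ℂ a`, as maps to the projective space -/
def Hc (X : Set (EN N)) (Λ : AddSubgroup (Vd (k + 1))) (u : EN N → Vd (k + 1)) (a y : Vd (k + 1)) : Set (ℂ → MN N) :=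
  {f | ∃ F ∈ Gc X Λ u a y, f = fun z => pr (F z)}

/-- the form `α` decays -/
def Dec {X : Set (EN N)} {Λ : AddSubgroup (Vd (k + 1))} {u : EN N → Vd (k + 1)} (α : VForm X Λ u) (c₀ C₀ : ℝ) : Prop :=
  ∀ y, ∀ x ∈ X, u x - y ∈ Λ → ∀ v : Fin (k + 2) → EN N, (∀ i, Tan X x (v i)) → (∀ i, ‖v i‖ ≤ ‖x‖) →
    ‖α.toFun y x v‖ ≤ C₀ * Real.exp (-(c₀ * ‖y‖ ^ 2))

/-- the forms `α j` have no common zero outside `D` -/
def Sepa {X : Set (EN N)} {Λ : AddSubgroup (Vd (k + 1))} {u : EN N → Vd (k + 1)} (D : Set (Vd (k + 1))) {J : ℕ} (α : Fin J → VForm X Λ u) : Prop :=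
  ∀ y ∉ D, ∀ x ∈ X, u x - y ∈ Λ → ∃ j, ∃ v : Fin (k + 2) → EN N, (∀ i, Tan X x (v i)) ∧ (α j).toFun y x v ≠ 0

/-- the form `α` is quasi-periodic for `Γ`, with theta factors of the weight `wt W` -/
def Tht {X : Set (EN N)} {Λ : AddSubgroup (Vd (k + 1))} {u : EN N → Vd (k + 1)} (Γ : AddSubgroup (Vd (k + 1))) {r : ℕ}
    (W : Fin r → Vd (k + 1) →L[ℂ] ℂ) (α : VForm X Λ u) : Prop :=
  ∀ l ∈ Γ, ∃ (L : Vd (k + 1) →L[ℂ] ℂ) (c : ℂ), (∀ y, ‖Complex.exp (L y + c)‖ = Real.exp (wt W y - wt W (y + l))) ∧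
    ∀ y, ∀ x ∈ X, u x - y ∈ Λ → ∀ v : Fin (k + 2) → EN N, (∀ i, Tan X x (v i)) → α.toFun (y + l) x v = Complex.exp (L y + c) * α.toFun y x v

/-- the forms: theta factors for a lattice `Γ ≤ Λ` and a positive definite weight, no common zero outside `D` -/
structure Frm (X : Set (EN N)) (Λ : AddSubgroup (Vd (k + 1))) (u : EN N → Vd (k + 1)) (D : Set (Vd (k + 1))) (Γ : AddSubgroup (Vd (k + 1))) {J r : ℕ}
    (W : Fin r → Vd (k + 1) →L[ℂ] ℂ) (α : Fin J → VForm X Λ u) : Prop where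
  lat : Lat Γ
  le : Γ ≤ Λ
  pos : ∀ y, (∀ i, W i y = 0) → y = 0
  per : ∀ j, Tht Γ W (α j)
  sep : Sepa D α

/-- normalised lifts of the curves over the lines of direction `a` -/
def NL (X : Set (EN N)) (Λ : AddSubgroup (Vd (k + 1))) (u : EN N → Vd (k + 1)) (D : Set (Vd (k + 1))) (a : Vd (k + 1)) : Prop :=
  ∀ δ : ℝ, 0 < δ → ∃ c : ℝ, 0 < c ∧ ∀ y, ∀ f ∈ Hc X Λ u a y, ∀ z₀ : ℂ, ∃ F : ℂ → EN N, DifferentiableOn ℂ F (ball z₀ 2) ∧
    (∀ z ∈ ball z₀ 2, F z ∈ X ∧ f z = pr (F z) ∧ ‖F z‖ ≤ 1) ∧ ∀ z ∈ closedBall z₀ 1, y + z • a ∈ Gd D δ → c ≤ ‖F z‖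

/-- the geometry of the lines of direction `a` -/
structure LG (Λ : AddSubgroup (Vd (k + 1))) (D Bad : Set (Vd (k + 1))) (a : Vd (k + 1)) : Prop where
  norm : ‖a‖ = 1
  lat : Lat Λ
  D_closed : IsClosed D
  D_inv : ∀ y ∈ D, ∀ l ∈ Λ, y + l ∈ D
  bad_sub : Bad ⊆ D
  bad_inv : ∀ β ∈ Bad, ∀ l ∈ Λ, β + l ∈ Bad
  bad_fin : ∃ S : Set (Vd (k + 1)), S.Finite ∧ ∀ β ∈ Bad, ∃ s ∈ S, β - s ∈ Λ
  iso : ∀ y : Vd (k + 1), ∀ᶠ z in 𝓝[≠] (0 : ℂ), y + z • a ∉ D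
  rank : ∃ ω : ℂ, ‖ω‖ = 1 ∧ ∀ z : ℂ, z • a ∈ Λ → ((starRingEnd ℂ) ω * z).im = 0

/-- the core: points of distance at least `2 δ` from `D` and at least `ρ / 2` from the bad points -/
def Co (D Bad : Set (Vd (k + 1))) (δ ρ : ℝ) : Set (Vd (k + 1)) := {y | y ∈ Gd D (2 * δ) ∧ ∀ β ∈ Bad, ρ / 2 ≤ ‖y - β‖}

/-- the constants of the geometry of the lines of direction `a` -/
structure LC (D Bad : Set (Vd (k + 1))) (a : Vd (k + 1)) (ρ δ : ℝ) : Prop where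
  norm : ‖a‖ = 1
  D_closed : IsClosed D
  bad_sub : Bad ⊆ D
  ρ_pos : 0 < ρ
  ρ_le : ρ ≤ 1 / 4
  δ_pos : 0 < δ
  δ_le : 8 * δ ≤ ρ
  sep : ∀ β ∈ Bad, ∀ β' ∈ Bad, β ≠ β' → 8 * ρ ≤ ‖β - β'‖
  iso : ∀ y : Vd (k + 1), ∀ᶠ z in 𝓝[≠] (0 : ℂ), y + z • a ∉ D
  /-- the discs around the bad points contain no other hits -/
  ann : ∀ β ∈ Bad, ∀ z : ℂ, ρ / 4 ≤ ‖z‖ → ‖z‖ ≤ ρ → β + z • a ∈ Gd D (2 * δ)
  /-- small circles -/
  circ : ∀ y : Vd (k + 1), ∃ r : ℝ, 0 < r ∧ r < ρ / 2 ∧ ∀ z : ℂ, ‖z‖ = r → y + z • a ∈ Gd D (2 * δ)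
  /-- circles in the core -/
  circC : ∀ y : Vd (k + 1), ∃ r : ℝ, 0 < r ∧ r ≤ 2 * ρ ∧ ∀ z : ℂ, ‖z‖ = r → y + z • a ∈ Gd D (4 * δ) ∧ ∀ β ∈ Bad, 3 / 4 * ρ ≤ ‖y + z • a - β‖
  /-- the exact bad hits of a line are in a strip -/
  strip : ∀ y : Vd (k + 1), ∃ (ω : ℂ) (M : ℝ), ‖ω‖ = 1 ∧ ∀ z : ℂ, y + z • a ∈ Bad → |((starRingEnd ℂ) ω * z).im| ≤ M

/-- the curves `f n` over `y n + ℂ a` converge to `g` locally uniformly at the points where `y₀ + z a` is not in `D` -/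
def Lm (D : Set (Vd (k + 1))) (a : Vd (k + 1)) {ι : Type*} (l : Filter ι) (y₀ : Vd (k + 1)) (f : ι → ℂ → MN N) (g : ℂ → MN N) : Prop :=
  ∀ z : ℂ, y₀ + z • a ∉ D → ∀ w : ι → ℂ, Tendsto w l (𝓝 z) → Tendsto (fun n => f n (w n)) l (𝓝 (g z))

/-- crossing for the lines near the line `p + ℂ a` -/
def CRL (X : Set (EN N)) (Λ : AddSubgroup (Vd (k + 1))) (u : EN N → Vd (k + 1)) (D : Set (Vd (k + 1))) (a p : Vd (k + 1)) : Prop :=
  ∀ η : ℝ, 0 < η → ∃ s₀ ρ₀ : ℝ, 0 < s₀ ∧ s₀ ≤ η ∧ 0 < ρ₀ ∧ ∀ δ ε ε₀ : ℝ, Cst X Λ u D δ ε ε₀ → ∃ ε₁ : ℝ, 0 < ε₁ ∧ ε₁ ≤ ε₀ ∧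
    ∀ p' ∈ ball p ρ₀, (∀ z : ℂ, s₀ / 4 ≤ ‖z‖ → ‖z‖ ≤ s₀ → p' + z • a ∈ Gd D δ) → ∀ (α : VForm X Λ u) (F H : ℂ → EN N),
      DifferentiableOn ℂ F (ball 0 (2 * s₀)) → (∀ z ∈ ball (0 : ℂ) (2 * s₀), F z ∈ X ∧ u (F z) - (p' + z • a) ∈ Λ) →
      DifferentiableOn ℂ H (ball 0 (2 * s₀)) → (∀ z ∈ ball (0 : ℂ) (2 * s₀), H z ∈ X ∧ u (H z) - (p' + z • a) ∈ Λ) →
      (∀ z : ℂ, s₀ / 4 ≤ ‖z‖ → ‖z‖ ≤ s₀ → dist (pr (F z)) (pr (H z)) ≤ ε₁) →
      ∃ J : ℂ → ℂ, DifferentiableOn ℂ J (ball 0 s₀) ∧ ∀ z : ℂ, s₀ / 4 < ‖z‖ → ‖z‖ < s₀ → J z = II α ε (p' + z • a) (pr (F z)) (pr (H z))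

/-- the data of block (A) for the direction `a` -/
structure DA (X : Set (EN N)) (Λ : AddSubgroup (Vd (k + 1))) (u : EN N → Vd (k + 1)) (D B Bad : Set (Vd (k + 1))) (a : Vd (k + 1)) {J : ℕ}
    (α : Fin J → VForm X Λ u) (c₀ C₀ ρ δ : ℝ) : Prop where
  geo : Geo X Λ u D B
  lg : LG Λ D Bad a
  lc : LC D Bad a ρ δ
  nl : NL X Λ u D a
  c_pos : 0 < c₀
  C_pos : 0 < C₀
  dec : ∀ j, Dec (α j) c₀ C₀
  sep : Sepa D α
  cr : ∀ p ∈ D, p ∉ Bad → CRL X Λ u D a p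
  good : ∀ p ∈ D, p ∉ Bad → p ∉ B ∧ TransAt D p a

/-- the real affine subspace `b + E` -/
def Tb (b : Vd (k + 1)) (E : Submodule ℝ (Vd (k + 1))) : Set (Vd (k + 1)) := {y | y - b ∈ E}

/-- `E` is the real closure of `ℂ a`: the lift of the closure of the image of `ℂ a` in the torus -/
structure ToE (Λ : AddSubgroup (Vd (k + 1))) (a : Vd (k + 1)) (E : Submodule ℝ (Vd (k + 1))) : Prop where
  mem : ∀ z : ℂ, z • a ∈ E
  cpt : ∃ R : ℝ, 0 < R ∧ ∀ v ∈ E, ∃ l ∈ Λ, l ∈ E ∧ ‖v - l‖ ≤ R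
  dns : ∀ v ∈ E, ∀ ε : ℝ, 0 < ε → ∃ l ∈ Λ, l ∈ E ∧ ∃ z : ℂ, ‖v - (l + z • a)‖ ≤ ε

/-- the hypothesis under which the curves over the lines in `b + E` are the leaves of sheets: their number is constant (`ToE.ce` in `A/Cns`; also used for `E = ⊤`) -/
structure CE (X : Set (EN N)) (Λ : AddSubgroup (Vd (k + 1))) (u : EN N → Vd (k + 1)) (a b : Vd (k + 1)) (E : Submodule ℝ (Vd (k + 1))) : Prop where
  mem : ∀ z : ℂ, z • a ∈ E
  cpt : ∃ R : ℝ, 0 < R ∧ ∀ v ∈ E, ∃ l ∈ Λ, l ∈ E ∧ ‖v - l‖ ≤ R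
  card : ∀ y ∈ Tb b E, (Hc X Λ u a y).ncard = (Hc X Λ u a b).ncard

/-- `φ` is a sheet over `T`: a continuous family of curves over the lines in `T` (the values outside `T` do not matter) -/
structure Sht (X : Set (EN N)) (Λ : AddSubgroup (Vd (k + 1))) (u : EN N → Vd (k + 1)) (D : Set (Vd (k + 1))) (a : Vd (k + 1)) (T : Set (Vd (k + 1)))
    (φ : Vd (k + 1) → MN N) : Prop where
  line : ∀ y ∈ T, (fun z : ℂ => φ (y + z • a)) ∈ Hc X Λ u a y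
  cont : ∀ y ∈ T, y ∉ D → ContinuousWithinAt φ T y

end Pool.Agent.G3.A

end
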