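import Pool.Agent.H94.G4T.TG.Defs

/-! The parts of this file: TG.Gd, TG.JJ, TG.Tc, TG.Un. -/

section

/-!
# TG Gd: basic facts on the points far from `D`, fibres, compactness
-/

set_option autoImplicit false

open Topology Filter Metric

namespace Pool.Agent.TG

open Pool.Agent.H36.BP (EN wd)
open Pool.Agent.H14.PP (IsCone CurveAt Tan)
open Pool.Agent.H62.EF (MN pr)
open Pool.Agent.AD (Vd Chart Charts)

variable {N k : ℕ}

variable {X : Set (EN N)} {Λ : AddSubgroup (Vd (k + 1))} {u : EN N → Vd (k + 1)} {D B : Set (Vd (k + 1))}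

theorem smul_mem_lat (hu : TMap X Λ u) {x : EN N} (hx : x ∈ X) {y : Vd (k + 1)} (h : u x - y ∈ Λ) {c : ℂ} (hc : c ≠ 0) :
    u (c • x) - y ∈ Λ := by
  have h3 : u (c • x) - y = u (c • x) - u x + (u x - y) := by abel
  rw [h3]
  exact Λ.add_mem (hu.smul x hx c hc) h

end Pool.Agent.TG

end

section

/-!
# TG JJ: the integral along short paths in the fibres, without the parameter `ε`

`JRel α y m m' v`: for some `ε` the points near `m` (radius `3 ε`) of the fibres near `y` are in one straight chart, and `v` is the integral of `α / dy` along a path from `m` to `m'` of the fibre over `y` which stays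
in the ball of radius `ε` around `m`.
-/

set_option autoImplicit false

open Topology Filter Metric

namespace Pool.Agent.TG

open Pool.Agent.H36.BP (EN wd)
open Pool.Agent.H14.PP (IsCone CurveAt Tan)
open Pool.Agent.H62.EF (MN pr)
open Pool.Agent.AD (Vd Chart Charts)

variable {N k : ℕ} {X : Set (EN N)} {Λ : AddSubgroup (Vd (k + 1))} {u : EN N → Vd (k + 1)}

/-- `v` is the integral of `α / dy` from `m` to `m'` along a short path in the fibre over `y` -/
def JRel (α : VForm X Λ u) (y : Vd (k + 1)) (m m' : MN N) (v : ℂ) : Prop :=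
  ∃ ε : ℝ, 0 < ε ∧ (∃ (χ : Chart (k + 2) X) (c : Vd (k + 1)) (ρ : ℝ), Cap Λ u χ c ρ y m (3 * ε)) ∧ IRel α ε y m m' v

open Classical in
/-- the integral of `α / dy` from `m` to `m'` along a short path in the fibre over `y` (`0` if there is none) -/
noncomputable def JJ (α : VForm X Λ u) (y : Vd (k + 1)) (m m' : MN N) : ℂ :=
  if h : ∃ v, JRel α y m m' v then h.choose else 0

theorem jj_spec {α : VForm X Λ u} {y : Vd (k + 1)} {m m' : MN N} (h : ∃ v, JRel α y m m' v) : JRel α y m m' (JJ α y m m') := by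
  unfold JJ
  rw [dif_pos h]
  exact h.choose_spec

end Pool.Agent.TG

end

section

/-!
# TG Tc: coefficients of forms in charts

Port of `Pool/Agent/H62/EL/Tc.lean` (copy it and change `ℂ × ℂ` to `Vd (k + 2)`).  `tc_an`: `VForm.analytic` with `φ = χ.σ`.

`tan_decomp`: a curve `γ` in `X` near `x ∈ X ∩ χ.U` is `c ξ • χ.σ (χ.q (γ ξ))` with `c` analytic (`AD.Chart.curve`); differentiate at `0`.

`toFun_eq`: by `tan_decomp` `x = c • χ.σ p`, `p = χ.q x`, `v i = c • (Σ_j (fderiv χ.q x (v i)) j • ∂_j χ.σ p) + a_i • x`.  `add_smul`, `scale`, `det`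
(the vectors `∂_j χ.σ p = fderiv ℂ χ.σ p (Pi.single j 1)` are tangent: `tan_sigma`), and
`α.toFun y (c • x') (fun i => c • v' i) = α.toFun y x' v'` with `u x' - y ∈ Λ` (`TMap.smul`).
`tc_trans`: `toFun_eq` for `x = χ'.σ p`, `v i = fderiv ℂ χ'.σ p (Pi.single i 1)`; `fderiv χ.q x (v i) = fderiv (χ.q ∘ χ'.σ) p (Pi.single i 1)` (chain rule);
`ContinuousLinearMap.det` of a map of `Fin n → ℂ` is the determinant of its matrix (`LinearMap.det_toLin'`, `LinearMap.toMatrix'_apply`; transpose: `Matrix.det_transpose`).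
`zr_iff`: `→`: if `x ∈ X`, `pr x = pr (χ.σ p)`, then `x = a • χ.σ p` (`pr_eq_iff`); use `scale`.  `←`: `x = χ.σ p` and `toFun_eq`.
-/

set_option autoImplicit false

open Topology Filter Metric

namespace Pool.Agent.TG

open Pool.Agent.H36.BP (EN wd)
open Pool.Agent.H14.PP (IsCone CurveAt Tan)
open Pool.Agent.H62.EF (MN pr)
open Pool.Agent.AD (Vd Chart Charts)

variable {N k : ℕ}

variable {X : Set (EN N)} {Λ : AddSubgroup (Vd (k + 1))} {u : EN N → Vd (k + 1)}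

theorem tc_an (α : VForm X Λ u) (χ : Chart (k + 2) X) {υ : Vd (k + 2) → Vd (k + 1)} {p : Vd (k + 2)} (hp : p ∈ ball (0 : Vd (k + 2)) 2)
    (hυ : AnalyticAt ℂ υ p) (hl : ∀ᶠ q in 𝓝 p, u (χ.σ q) - υ q ∈ Λ) : AnalyticAt ℂ (tc α χ υ) p := by
  refine α.analytic χ.σ υ p (χ.σ_an p hp) hυ ?_
  filter_upwards [hl, isOpen_ball.mem_nhds hp] with y hy hy2
  exact ⟨(χ.σ_mem y hy2).1, hy⟩

theorem tan_sigma {d : ℕ} (χ : Chart d X) {p : Vd d} (hp : p ∈ ball (0 : Vd d) 2) (w : Vd d) :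
    Tan X (χ.σ p) (fderiv ℂ χ.σ p w) := by
  have hl : AnalyticAt ℂ (fun z : ℂ => p + z • w) 0 := by fun_prop
  have h0 : p + (0 : ℂ) • w = p := by simp
  have hσ : AnalyticAt ℂ χ.σ (p + (0 : ℂ) • w) := by rw [h0]; exact χ.σ_an p hp
  have hF : AnalyticAt ℂ (fun z : ℂ => χ.σ (p + z • w)) 0 :=
    AnalyticAt.comp (g := χ.σ) (f := fun z : ℂ => p + z • w) hσ hl
  refine ⟨fun z => χ.σ (p + z • w), ⟨hF, ?_⟩, by simp, ?_⟩
  · have h6 : ∀ᶠ z : ℂ in 𝓝 0, p + z • w ∈ ball (0 : Vd d) 2 := by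
      have h7 := hl.continuousAt
      apply h7.eventually_mem
      rw [h0]
      exact isOpen_ball.mem_nhds hp
    filter_upwards [h6] with z hz'
    exact (χ.σ_mem _ hz').1
  · have h1 : HasFDerivAt χ.σ (fderiv ℂ χ.σ p) (p + (0 : ℂ) • w) := by
      rw [h0]
      exact (χ.σ_an p hp).differentiableAt.hasFDerivAt
    have h2 : HasDerivAt (fun z : ℂ => p + z • w) w 0 := by
      have h3 : HasDerivAt (fun z : ℂ => z • w) ((1 : ℂ) • w) 0 :=
        (hasDerivAt_id (0 : ℂ)).smul_const w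
      rw [one_smul] at h3
      exact h3.const_add p
    exact (h1.comp_hasDerivAt (0 : ℂ) h2).deriv

theorem Tc_tan_smul (hX : IsCone X) {x v : EN N} (h : Tan X x v) {c : ℂ} (hc : c ≠ 0) : Tan X (c • x) (c • v) := by
  obtain ⟨F, hF, hF0, hFd⟩ := h
  refine ⟨fun z => c • F z, ⟨AnalyticAt.fun_smul analyticAt_const hF.1, ?_⟩, ?_, ?_⟩
  · filter_upwards [hF.2] with z hz
    exact hX.smul_mem _ hz c hc
  · show c • F 0 = c • x
    rw [hF0]
  · have h1 : HasDerivAt (fun z => c • F z) (c • deriv F 0) 0 :=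
      hF.1.differentiableAt.hasDerivAt.const_smul c
    rw [h1.deriv, hFd]

/-- the expansion of a linear map in the standard basis -/
private theorem Tc_lin_sum {d : ℕ} {E : Type} [NormedAddCommGroup E] [NormedSpace ℂ E] (L : Vd d →L[ℂ] E) (w : Vd d) :
    L w = ∑ j, w j • L (Pi.single j 1) := by
  have h1 : w = ∑ j, w j • (Pi.single j 1 : Vd d) := by
    funext i
    rw [Finset.sum_apply]
    simp [Pi.single_apply]
  conv_lhs => rw [h1]
  rw [map_sum]
  exact Finset.sum_congr rfl fun j _ => by rw [map_smul]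

theorem Tc_val (α : VForm X Λ u) (χ : Chart (k + 2) X) {p : Vd (k + 2)} {y : Vd (k + 1)}
    (hp : p ∈ ball (0 : Vd (k + 2)) 2) (hl : u (χ.σ p) - y ∈ Λ) (A : Fin (k + 2) → Vd (k + 2)) :
    α.toFun y (χ.σ p) (fun i => fderiv ℂ χ.σ p (A i)) =
      (Matrix.of A).det * α.toFun y (χ.σ p) (fun i => fderiv ℂ χ.σ p (Pi.single i 1)) := by
  have hx := (χ.σ_mem p hp).1
  have h3 := α.det y (χ.σ p) hx hl (fun i => fderiv ℂ χ.σ p (Pi.single i 1)) (fun i => tan_sigma χ hp _) (Matrix.of A)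
  rw [← h3]
  congr 1
  funext i
  exact Tc_lin_sum _ _

theorem Tc_det (L : Vd (k + 2) →L[ℂ] Vd (k + 2)) : (Matrix.of fun i j : Fin (k + 2) => L (Pi.single i 1) j).det = L.det := by
  rw [ContinuousLinearMap.det, ← LinearMap.det_toMatrix', ← Matrix.det_transpose]
  congr 1

end Pool.Agent.TG

end

section

/-!
# TG Un: the integral along short paths in the fibres

Port of `Pool/Agent/H62/EL/Un.lean` (`EL.IRel.eq_cap`, `EL.II_eq`; the coordinate along the fibres is now the coordinate `0`, those of the base are `tl p`).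

`IRel.eq_cap`: let `χ', c', ρ', A', p, p'` be from `IRel`; `v = (A' p' - A' p) / ρ' ^ (k + 1)`.  On `p_θ = p + θ (p' - p)`, `θ ∈ [0, 1]`, `tl p_θ` is constant, `χ'.σ p_θ` is over `y` and within
`r` of `m₀`, so in `χ.U`, and with `τ = χ.q ∘ χ'.σ`: `ms c ρ (τ p_θ) = y`; near `p_θ` even `ms c ρ (τ q) = ms c' ρ' q` (both sides are analytic, equal at `p_θ`, and the difference is in the
discrete group `Λ`).  So `ρ ∂_(j+1) τ_(i+1) = ρ' δ_ij`, `∂_0 τ_(i+1) = 0` at `p_θ`: `det Dτ = ∂_0 τ_0 * (ρ' / ρ) ^ (k + 1)` (expand along the column / row `0`: `Matrix.det_succ_column_zero` or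
`Matrix.det_succ_row_zero`, and the minor is `(ρ' / ρ) • 1`), and by `tc_trans` (`υ = ms c ρ`, `υ' = ms c' ρ'`) `tc' (p_θ) / ρ' ^ (k + 1) = tc (τ p_θ) ∂_0 τ_0 / ρ ^ (k + 1)`.  Hence
`θ ↦ A' (p_θ) / ρ' ^ (k + 1)` and `θ ↦ A (τ p_θ) / ρ ^ (k + 1)` have the same derivative.  `τ p = χ.q x`: `χ'.σ p` and `x` are proportional (`pr_eq_iff`, `q_smul`).
-/

set_option autoImplicit false

open Topology Filter Metric

namespace Pool.Agent.TG

open Pool.Agent.H36.BP (EN wd)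
open Pool.Agent.H14.PP (IsCone CurveAt Tan)
open Pool.Agent.H62.EF (MN pr)
open Pool.Agent.AD (Vd Chart Charts)

variable {N k : ℕ}

variable {X : Set (EN N)} {Λ : AddSubgroup (Vd (k + 1))} {u : EN N → Vd (k + 1)}

theorem IRel.mem {α : VForm X Λ u} {ε : ℝ} {y : Vd (k + 1)} {m m' : MN N} {v : ℂ} (h : IRel α ε y m m' v) :
    m ∈ Fb X Λ u y ∧ m' ∈ Fb X Λ u y ∧ dist m' m ≤ ε := by
  obtain ⟨χ, c, ρ, A, p, p', hm, -, hp, hp', hpz, hpz', hpy, hpy', hseg, -⟩ := h
  refine ⟨⟨χ.σ p, (χ.σ_mem p hp).1, hpy, ?_⟩, ⟨χ.σ p', (χ.σ_mem p' hp').1, hpy', ?_⟩, ?_⟩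
  · have h1 := hm.lift p hp
    rwa [hpz] at h1
  · have h1 := hm.lift p' hp'
    rwa [hpz'] at h1
  · have h1 := hseg 1 ⟨zero_le_one, le_rfl⟩
    have h2 : p + ((1 : ℝ) : ℂ) • (p' - p) = p' := by
      rw [Complex.ofReal_one, one_smul]
      abel
    rwa [h2, hpy'] at h1

theorem IRel.mono {α : VForm X Λ u} {ε ε' : ℝ} (hε : ε ≤ ε') {y : Vd (k + 1)} {m m' : MN N} {v : ℂ} (h : IRel α ε y m m' v) :
    IRel α ε' y m m' v := by
  obtain ⟨χ, c, ρ, A, p, p', hm, hA, hp, hp', hpz, hpz', hpy, hpy', hseg, hv⟩ := h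
  exact ⟨χ, c, ρ, A, p, p', hm, hA, hp, hp', hpz, hpz', hpy, hpy', fun θ hθ => (hseg θ hθ).trans hε, hv⟩

theorem Cap.mono {χ : Chart (k + 2) X} {c : Vd (k + 1)} {ρ : ℝ} {y₀ : Vd (k + 1)} {m₀ : MN N} {r r' : ℝ} (h : Cap Λ u χ c ρ y₀ m₀ r)
    (hr : r' ≤ r) : Cap Λ u χ c ρ y₀ m₀ r' :=
  ⟨h.str, fun y hy x hx hxy hd => h.cap y (closedBall_subset_closedBall hr hy) x hx hxy (hd.trans hr)⟩

/-- The point of the segment. -/
noncomputable def un_P (p p' : Vd (k + 2)) (t : ℂ) : Vd (k + 2) := p + t • (p' - p)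

theorem un_P_mem {p p' : Vd (k + 2)} (hp : p ∈ ball (0 : Vd (k + 2)) 2) (hp' : p' ∈ ball (0 : Vd (k + 2)) 2) {θ : ℝ} (hθ : θ ∈ Set.Icc (0 : ℝ) 1) :
    un_P p p' (θ : ℂ) ∈ ball (0 : Vd (k + 2)) 2 := by
  have hc : Convex ℝ (ball (0 : Vd (k + 2)) 2) := convex_ball _ _
  have h1 := hc.add_smul_sub_mem hp hp' hθ
  have h2 : un_P p p' (θ : ℂ) = p + θ • (p' - p) := by
    unfold un_P
    congr 1
  rwa [h2]

/-- a vector with `tl d = 0` is a multiple of the first basis vector -/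
theorem vert_eq {d : Vd (k + 2)} (hd : tl d = 0) : d = d 0 • (Pi.single 0 1 : Vd (k + 2)) := by
  funext i
  refine Fin.cases ?_ ?_ i
  · simp
  · intro j
    have h1 : d j.succ = 0 := congrFun hd j
    simp [h1]

theorem lin_vert {E : Type} [NormedAddCommGroup E] [NormedSpace ℂ E] (L : Vd (k + 2) →L[ℂ] E) {d : Vd (k + 2)} (hd : tl d = 0) :
    L d = d 0 • L (Pi.single 0 1) := by
  conv_lhs => rw [vert_eq hd]
  rw [map_smul]

theorem tl_add (p q : Vd (k + 2)) : tl (p + q) = tl p + tl q := rfl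
theorem tl_sub (p q : Vd (k + 2)) : tl (p - q) = tl p - tl q := rfl
theorem tl_smul (c : ℂ) (q : Vd (k + 2)) : tl (c • q) = c • tl q := rfl

/-- `tl` as a linear map -/
noncomputable def tlL : Vd (k + 2) →L[ℂ] Vd (k + 1) := ContinuousLinearMap.pi fun i : Fin (k + 1) => ContinuousLinearMap.proj i.succ

end Pool.Agent.TG

end
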