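import Mathlib

/-! The parts of this file: H62.EL.Prm, TN.Osg. -/

section

/-!
# EL Prm: primitives of analytic functions of two variables on a bidisc

`exists_prim_snd`: for `a` analytic on `ball 0 R` (a bidisc: the norm of `ℂ × ℂ` is the maximum) put
`A (s, t) = ∫ θ in 0..1, t * a (s, θ t)`.  Analyticity and `∂A/∂t = a`: e.g. by differentiation under the integral sign (the integrand is
analytic in `(s, t)`, continuous in `(θ, s, t)`; a function which is complex differentiable on an open set is analytic: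
`DifferentiableOn.analyticAt` for one variable; for two variables one may use that `A` is differentiable with continuous partial
derivatives, or the theorem on analytic functions of several variables (Osgood / Hartogs) in Mathlib or on main).  Alternative without
integrals: power series.  On each smaller bidisc `a (s, t) = Σ a_{mn} s^m t^n` ...; or `A (s, ·)` is the primitive on the disc
`‖t‖ < R` of `a (s, ·)` with value `0` at `0` (`DifferentiableOn.isExactOn_ball`), and analytic dependence on `s` by the integral formula.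
Look for parametric integrals of analytic functions in Mathlib and in `Pool/Agent` (grep for `hasDerivAt_integral_of_dominated_loc_of_deriv_le`,
`hasFDerivAt_integral_of_dominated_of_fderiv_le`, `DifferentiableOn.analyticAt`).

`exists_potential`: `b₁, b₂` analytic on the bidisc, `∂b₂/∂s = ∂b₁/∂t`.  Let `B₂` be the primitive of `b₂` in the direction of `t` with
`B₂ (s, 0) = 0` (first theorem) and `B₁` the primitive of `s ↦ b₁ (s, 0)` with `B₁ 0 = 0`.  `ψ (s, t) = B₁ s + B₂ (s, t)`: `∂ψ/∂t = b₂`;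
`∂ψ/∂s = b₁ (s, 0) + ∂B₂/∂s =: g`, `∂g/∂t = ∂²B₂/∂t∂s = ∂b₂/∂s = ∂b₁/∂t` (mixed derivatives of analytic functions are symmetric) and
`g (s, 0) = b₁ (s, 0)` (`B₂ (·, 0) = 0`), so `g = b₁` (for fixed `s` both are functions of `t` on a disc with the same derivative).
Alternatively use the Poincaré lemma of Mathlib (`Mathlib/MeasureTheory/Integral/CurveIntegral/Poincare.lean`).
-/

set_option autoImplicit false

open Topology Filter Metric

namespace Pool.Agent.H62.EL

private theorem prm_pi : (0 : ℝ) ≤ 2 * Real.pi := by positivity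

/-- the parameter interval of the circle -/
private abbrev PrmT : Type := Set.Icc (0 : ℝ) (2 * Real.pi)

private noncomputable def prmP (θ : ℝ) : PrmT := Set.projIcc 0 (2 * Real.pi) prm_pi θ

private theorem prmP_cont : Continuous prmP := continuous_projIcc (h := prm_pi)

private theorem prmP_of_mem {θ : ℝ} (h : θ ∈ Set.uIcc 0 (2 * Real.pi)) : ((prmP θ : PrmT) : ℝ) = θ := by
  rw [Set.uIcc_of_le prm_pi] at h
  rw [prmP, Set.projIcc_of_mem prm_pi h]

private theorem prm_cont2 (f : C(PrmT × PrmT, ℂ)) : Continuous fun x : ℝ × ℝ => f (prmP x.1, prmP x.2) :=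
  f.continuous.comp ((prmP_cont.comp continuous_fst).prodMk (prmP_cont.comp continuous_snd))

private theorem prm_cont_in (f : C(PrmT × PrmT, ℂ)) (θ : ℝ) : Continuous fun φ : ℝ => f (prmP θ, prmP φ) :=
  (prm_cont2 f).comp (continuous_const.prodMk continuous_id)

private theorem prm_cont_out (f : C(PrmT × PrmT, ℂ)) :
    Continuous fun θ : ℝ => ∫ φ in (0 : ℝ)..(2 * Real.pi), f (prmP θ, prmP φ) :=
  intervalIntegral.continuous_parametric_intervalIntegral_of_continuous' (f := fun θ φ : ℝ => f (prmP θ, prmP φ))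
    (prm_cont2 f) _ _

/-- the double integral as a continuous functional -/
private noncomputable def prmJ : C(PrmT × PrmT, ℂ) →L[ℂ] ℂ :=
  LinearMap.mkContinuous
    { toFun := fun f => ∫ θ in (0 : ℝ)..(2 * Real.pi), ∫ φ in (0 : ℝ)..(2 * Real.pi), f (prmP θ, prmP φ)
      map_add' := by
        intro f g
        rw [← intervalIntegral.integral_add ((prm_cont_out f).intervalIntegrable _ _)
          ((prm_cont_out g).intervalIntegrable _ _)]
        congr 1
        funext θ
        rw [← intervalIntegral.integral_add ((prm_cont_in f θ).intervalIntegrable _ _)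
          ((prm_cont_in g θ).intervalIntegrable _ _)]
        rfl
      map_smul' := by
        intro c f
        simp only [ContinuousMap.coe_smul, Pi.smul_apply, intervalIntegral.integral_smul, RingHom.id_apply] }
    ((2 * Real.pi) * (2 * Real.pi)) (by
      intro f
      have h1 : ∀ θ : ℝ, ‖∫ φ in (0 : ℝ)..(2 * Real.pi), f (prmP θ, prmP φ)‖ ≤ ‖f‖ * (2 * Real.pi) := by
        intro θ
        have h2 := intervalIntegral.norm_integral_le_of_norm_le_const (a := 0) (b := 2 * Real.pi) (C := ‖f‖)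
          (f := fun φ => f (prmP θ, prmP φ)) (fun φ _ => f.norm_coe_le_norm _)
        rwa [sub_zero, abs_of_nonneg prm_pi] at h2
      have h2 := intervalIntegral.norm_integral_le_of_norm_le_const (a := 0) (b := 2 * Real.pi)
        (C := ‖f‖ * (2 * Real.pi))
        (f := fun θ => ∫ φ in (0 : ℝ)..(2 * Real.pi), f (prmP θ, prmP φ)) (fun θ _ => h1 θ)
      rw [sub_zero, abs_of_nonneg prm_pi] at h2
      refine h2.trans (le_of_eq ?_)
      ring)

private theorem prmJ_apply (f : C(PrmT × PrmT, ℂ)) :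
    prmJ f = ∫ θ in (0 : ℝ)..(2 * Real.pi), ∫ φ in (0 : ℝ)..(2 * Real.pi), f (prmP θ, prmP φ) := rfl

private theorem prm_unit {Q : Type} [TopologicalSpace Q] (G : C(Q, ℂ)) {s : ℂ} (h : ∀ q, G q ≠ s) :
    IsUnit (G - s • (1 : C(Q, ℂ))) := by
  rw [ContinuousMap.isUnit_iff_forall_ne_zero]
  intro q hq
  apply h q
  have h1 : (G - s • (1 : C(Q, ℂ))) q = G q - s := by simp
  rw [h1, sub_eq_zero] at hq
  exact hq

private theorem prm_inv_apply {Q : Type} [TopologicalSpace Q] (G : C(Q, ℂ)) {s : ℂ} (h : ∀ q, G q ≠ s) (q : Q) :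
    (Ring.inverse (G - s • (1 : C(Q, ℂ)))) q = (G q - s)⁻¹ := by
  have h1 := Ring.mul_inverse_cancel _ (prm_unit G h)
  have h2 := congrArg (fun f : C(Q, ℂ) => f q) h1
  have h3 : (G q - s) * (Ring.inverse (G - s • (1 : C(Q, ℂ)))) q = 1 := by
    simpa using h2
  exact (eq_inv_of_mul_eq_one_right h3)

private theorem prm_inv_an {Q : Type} [TopologicalSpace Q] [CompactSpace Q] (G : C(Q, ℂ)) {s : ℂ} (h : ∀ q, G q ≠ s) :
    AnalyticAt ℂ (fun s : ℂ => Ring.inverse (G - s • (1 : C(Q, ℂ)))) s := by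
  obtain ⟨u, hu⟩ := prm_unit G h
  have h1 : AnalyticAt ℂ (Ring.inverse : C(Q, ℂ) → C(Q, ℂ)) (G - s • (1 : C(Q, ℂ))) := by
    rw [← hu]
    exact analyticAt_inverse u
  have h2 : AnalyticAt ℂ (fun s : ℂ => G - s • (1 : C(Q, ℂ))) s :=
    analyticAt_const.sub (analyticAt_id.smul analyticAt_const)
  exact AnalyticAt.fun_comp (g := (Ring.inverse : C(Q, ℂ) → C(Q, ℂ))) (f := fun s : ℂ => G - s • (1 : C(Q, ℂ))) h1 h2

private theorem prm_loc {R r : ℝ} (hr : 0 < r) (hrR : r < R) {a : ℂ × ℂ → ℂ}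
    (ha : ∀ p ∈ ball (0 : ℂ × ℂ) R, AnalyticAt ℂ a p) :
    ∃ A : ℂ × ℂ → ℂ, (∀ p ∈ ball (0 : ℂ × ℂ) r, AnalyticAt ℂ A p ∧ HasDerivAt (fun t => A (p.1, t)) (a p) p.2) ∧
      ∀ s : ℂ, A (s, 0) = 0 := by
  have hmem : ∀ s t : ℂ, ‖s‖ ≤ r → ‖t‖ ≤ r → (s, t) ∈ ball (0 : ℂ × ℂ) R := by
    intro s t hs ht
    rw [mem_ball_zero_iff, Prod.norm_def]
    exact (max_le hs ht).trans_lt hrR
  have hγn : ∀ θ : ℝ, ‖circleMap 0 r θ‖ = r := by
    intro θ
    rw [norm_circleMap_zero, abs_of_pos hr]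
  have hac : ContinuousOn a (ball (0 : ℂ × ℂ) R) := fun p hp => (ha p hp).continuousAt.continuousWithinAt
  set γ : ℝ → ℂ := circleMap 0 r with hγ
  have hγc : Continuous γ := continuous_circleMap 0 r
  set γ' : ℝ → ℂ := fun θ => γ θ * Complex.I with hγ'
  have hγ'c : Continuous γ' := hγc.mul continuous_const
  have hTc1 : Continuous fun q : PrmT × PrmT => γ (q.1 : ℝ) := hγc.comp (continuous_subtype_val.comp continuous_fst)
  have hTc2 : Continuous fun q : PrmT × PrmT => γ (q.2 : ℝ) := hγc.comp (continuous_subtype_val.comp continuous_snd)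
  have hWc : Continuous fun q : PrmT × PrmT => (2 * Real.pi * Complex.I)⁻¹ * (2 * Real.pi * Complex.I)⁻¹ *
      (γ' (q.1 : ℝ) * γ' (q.2 : ℝ)) * a (γ (q.1 : ℝ), γ (q.2 : ℝ)) := by
    refine (continuous_const.mul ((hγ'c.comp (continuous_subtype_val.comp continuous_fst)).mul
      (hγ'c.comp (continuous_subtype_val.comp continuous_snd)))).mul ?_
    refine hac.comp_continuous (hTc1.prodMk hTc2) fun q => ?_
    exact hmem _ _ (hγn _).le (hγn _).le
  let W : C(PrmT × PrmT, ℂ) := ⟨_, hWc⟩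
  let G1 : C(PrmT × PrmT, ℂ) := ⟨_, hTc1⟩
  let G2 : C(PrmT × PrmT, ℂ) := ⟨_, hTc2⟩
  have hG1 : ∀ s : ℂ, ‖s‖ < r → ∀ q, G1 q ≠ s := by
    intro s hs q hq
    have h1 : ‖G1 q‖ = r := hγn _
    rw [hq] at h1
    linarith
  have hG2 : ∀ s : ℂ, ‖s‖ < r → ∀ q, G2 q ≠ s := by
    intro s hs q hq
    have h1 : ‖G2 q‖ = r := hγn _
    rw [hq] at h1
    linarith
  let K1 : ℂ → C(PrmT × PrmT, ℂ) := fun s => Ring.inverse (G1 - s • (1 : C(PrmT × PrmT, ℂ)))
  let K2 : ℂ → C(PrmT × PrmT, ℂ) := fun s => Ring.inverse (G2 - s • (1 : C(PrmT × PrmT, ℂ)))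
  have hK1 : ∀ s : ℂ, ‖s‖ < r → AnalyticAt ℂ K1 s := fun s hs => prm_inv_an G1 (hG1 s hs)
  have hK2 : ∀ s : ℂ, ‖s‖ < r → AnalyticAt ℂ K2 s := fun s hs => prm_inv_an G2 (hG2 s hs)
  have hK2d : DifferentiableOn ℂ K2 (ball 0 r) := fun s hs =>
    (hK2 s (by simpa using hs)).differentiableAt.differentiableWithinAt
  obtain ⟨L, hL0, hL⟩ := hK2d.isExactOn_ball.with_val_at 0 0
  have hLa : ∀ s : ℂ, ‖s‖ < r → AnalyticAt ℂ L s := by
    intro s hs
    have h1 : DifferentiableOn ℂ L (ball 0 r) := fun z hz => (hL z hz).differentiableAt.differentiableWithinAt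
    exact h1.analyticAt (isOpen_ball.mem_nhds (by simpa using hs))
  have key : ∀ s t : ℂ, ‖s‖ < r → ‖t‖ < r → prmJ (W * K1 s * K2 t) = a (s, t) := by
    intro s t hs ht
    have hin : ∀ u : ℂ, ‖u‖ ≤ r →
        ∫ φ in (0 : ℝ)..(2 * Real.pi), γ' φ * ((γ φ - t)⁻¹ * a (u, γ φ)) = (2 * Real.pi * Complex.I) * a (u, t) := by
      intro u hu
      have h1 : DifferentiableOn ℂ (fun z => a (u, z)) (closedBall 0 r) := by
        intro z hz
        have h2 := (ha (u, z) (hmem u z hu (by simpa using hz))).differentiableAt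
        exact (h2.comp z ((differentiableAt_const u).prodMk differentiableAt_id)).differentiableWithinAt
      have h3 := h1.circleIntegral_sub_inv_smul (w := t) (by simpa using ht)
      rw [circleIntegral] at h3
      simpa only [deriv_circleMap, smul_eq_mul] using h3
    have hout : ∫ θ in (0 : ℝ)..(2 * Real.pi), γ' θ * ((γ θ - s)⁻¹ * a (γ θ, t)) =
        (2 * Real.pi * Complex.I) * a (s, t) := by
      have h1 : DifferentiableOn ℂ (fun z => a (z, t)) (closedBall 0 r) := by
        intro z hz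
        have h2 := (ha (z, t) (hmem z t (by simpa using hz) ht.le)).differentiableAt
        exact (h2.comp z (differentiableAt_id.prodMk (differentiableAt_const t))).differentiableWithinAt
      have h3 := h1.circleIntegral_sub_inv_smul (w := s) (by simpa using hs)
      rw [circleIntegral] at h3
      simpa only [deriv_circleMap, smul_eq_mul] using h3
    have hpi : (2 * Real.pi * Complex.I : ℂ) ≠ 0 := Complex.two_pi_I_ne_zero
    rw [prmJ_apply]
    have e1 : ∀ θ ∈ Set.uIcc (0 : ℝ) (2 * Real.pi),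
        (∫ φ in (0 : ℝ)..(2 * Real.pi), (W * K1 s * K2 t) (prmP θ, prmP φ)) =
        (2 * Real.pi * Complex.I)⁻¹ * (γ' θ * ((γ θ - s)⁻¹ * a (γ θ, t))) := by
      intro θ hθ
      have e2 : (∫ φ in (0 : ℝ)..(2 * Real.pi), (W * K1 s * K2 t) (prmP θ, prmP φ)) =
          ∫ φ in (0 : ℝ)..(2 * Real.pi), ((2 * Real.pi * Complex.I)⁻¹ * (2 * Real.pi * Complex.I)⁻¹ *
            (γ' θ * (γ θ - s)⁻¹)) * (γ' φ * ((γ φ - t)⁻¹ * a (γ θ, γ φ))) := by
        apply intervalIntegral.integral_congr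
        intro φ hφ
        have e3 : (W * K1 s * K2 t) (prmP θ, prmP φ) =
            W (prmP θ, prmP φ) * (K1 s (prmP θ, prmP φ)) * (K2 t (prmP θ, prmP φ)) := rfl
        have e4 : K1 s (prmP θ, prmP φ) = (γ θ - s)⁻¹ := by
          have h1 := prm_inv_apply G1 (hG1 s hs) (prmP θ, prmP φ)
          have h2 : G1 (prmP θ, prmP φ) = γ θ := by
            change γ ((prmP θ : PrmT) : ℝ) = γ θ
            rw [prmP_of_mem hθ]
          rw [h2] at h1
          exact h1
        have e5 : K2 t (prmP θ, prmP φ) = (γ φ - t)⁻¹ := by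
          have h1 := prm_inv_apply G2 (hG2 t ht) (prmP θ, prmP φ)
          have h2 : G2 (prmP θ, prmP φ) = γ φ := by
            change γ ((prmP φ : PrmT) : ℝ) = γ φ
            rw [prmP_of_mem hφ]
          rw [h2] at h1
          exact h1
        have e6 : W (prmP θ, prmP φ) = (2 * Real.pi * Complex.I)⁻¹ * (2 * Real.pi * Complex.I)⁻¹ *
            (γ' θ * γ' φ) * a (γ θ, γ φ) := by
          change (2 * Real.pi * Complex.I)⁻¹ * (2 * Real.pi * Complex.I)⁻¹ *
            (γ' ((prmP θ : PrmT) : ℝ) * γ' ((prmP φ : PrmT) : ℝ)) *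
              a (γ ((prmP θ : PrmT) : ℝ), γ ((prmP φ : PrmT) : ℝ)) = _
          rw [prmP_of_mem hθ, prmP_of_mem hφ]
        simp only [e3, e4, e5, e6]
        ring
      rw [e2, intervalIntegral.integral_const_mul, hin _ (hγn θ).le]
      field_simp
    rw [intervalIntegral.integral_congr e1, intervalIntegral.integral_const_mul, hout]
    field_simp
  refine ⟨fun p => prmJ (W * K1 p.1 * L p.2), ?_, ?_⟩
  · intro p hp
    rw [mem_ball_zero_iff, Prod.norm_def, max_lt_iff] at hp
    constructor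
    · have h1 : AnalyticAt ℂ (fun p : ℂ × ℂ => K1 p.1) p := (hK1 p.1 hp.1).comp analyticAt_fst
      have h2 : AnalyticAt ℂ (fun p : ℂ × ℂ => L p.2) p := (hLa p.2 hp.2).comp analyticAt_snd
      exact (prmJ.analyticAt _).comp ((analyticAt_const.mul h1).mul h2)
    · have h1 := hL p.2 (by simpa using hp.2)
      have h2 := (h1.const_mul (W * K1 p.1))
      have h3 := (prmJ.hasFDerivAt (x := W * K1 p.1 * L p.2)).comp_hasDerivAt p.2 h2
      rw [key p.1 p.2 hp.1 hp.2] at h3
      exact h3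
  · intro s
    change prmJ (W * K1 s * L 0) = 0
    rw [hL0, mul_zero, map_zero]

private theorem prm_const {R : ℝ} {f g : ℂ → ℂ} {h : ℂ → ℂ} (hf : ∀ z ∈ ball (0 : ℂ) R, HasDerivAt f (h z) z)
    (hg : ∀ z ∈ ball (0 : ℂ) R, HasDerivAt g (h z) z) (h0 : f 0 = g 0) {z : ℂ} (hz : z ∈ ball (0 : ℂ) R) : f z = g z := by
  have hR : (0 : ℂ) ∈ ball (0 : ℂ) R := by
    rw [mem_ball_zero_iff] at hz ⊢
    rw [norm_zero]
    exact (norm_nonneg z).trans_lt hz
  have h1 : ∀ z ∈ ball (0 : ℂ) R, HasDerivAt (fun z => f z - g z) 0 z := by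
    intro z hz
    have h2 := (hf z hz).sub (hg z hz)
    rwa [sub_self] at h2
  have h2 : (fun z => f z - g z) z = (fun z => f z - g z) 0 := by
    refine (convex_ball (0 : ℂ) R).is_const_of_fderivWithin_eq_zero (𝕜 := ℂ)
      (fun w hw => (h1 w hw).differentiableAt.differentiableWithinAt) ?_ hz hR
    intro w hw
    rw [fderivWithin_of_isOpen isOpen_ball hw]
    have h3 := (h1 w hw).hasFDerivAt.fderiv
    rw [h3]
    ext
    simp
  simp only [h0, sub_self] at h2
  exact sub_eq_zero.1 h2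

theorem exists_prim_snd {R : ℝ} {a : ℂ × ℂ → ℂ} (ha : ∀ p ∈ ball (0 : ℂ × ℂ) R, AnalyticAt ℂ a p) :
    ∃ A : ℂ × ℂ → ℂ, (∀ p ∈ ball (0 : ℂ × ℂ) R, AnalyticAt ℂ A p ∧ fderiv ℂ A p (0, 1) = a p) ∧
      ∀ s : ℂ, ‖s‖ < R → A (s, 0) = 0 := by
  have hmem : ∀ s t : ℂ, ‖s‖ < R → ‖t‖ < R → (s, t) ∈ ball (0 : ℂ × ℂ) R := by
    intro s t hs ht
    rw [mem_ball_zero_iff, Prod.norm_def]
    exact max_lt hs ht
  have hex : ∀ s : ℂ, ∃ g : ℂ → ℂ, ‖s‖ < R → g 0 = 0 ∧ ∀ t ∈ ball (0 : ℂ) R, HasDerivAt g (a (s, t)) t := by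
    intro s
    by_cases hs : ‖s‖ < R
    · have h1 : DifferentiableOn ℂ (fun t => a (s, t)) (ball 0 R) := by
        intro t ht
        have h2 := (ha (s, t) (hmem s t hs (by simpa using ht))).differentiableAt
        exact (h2.comp t ((differentiableAt_const s).prodMk differentiableAt_id)).differentiableWithinAt
      obtain ⟨g, hg0, hg⟩ := h1.isExactOn_ball.with_val_at 0 0
      exact ⟨g, fun _ => ⟨hg0, hg⟩⟩
    · exact ⟨0, fun h => absurd h hs⟩
  choose g hg using hex
  have hloc : ∀ r : ℝ, 0 < r → r < R → ∃ A : ℂ × ℂ → ℂ, ∀ p ∈ ball (0 : ℂ × ℂ) r, AnalyticAt ℂ A p ∧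
      HasDerivAt (fun t => A (p.1, t)) (a p) p.2 ∧ A p = g p.1 p.2 := by
    intro r hr hrR
    obtain ⟨A, hA, hA0⟩ := prm_loc hr hrR ha
    refine ⟨A, fun p hp => ⟨(hA p hp).1, (hA p hp).2, ?_⟩⟩
    rw [mem_ball_zero_iff, Prod.norm_def, max_lt_iff] at hp
    have h1 := hg p.1 (hp.1.trans hrR)
    refine prm_const (R := r) (f := fun t => A (p.1, t)) (g := g p.1) (h := fun t => a (p.1, t)) ?_ ?_ ?_
      (z := p.2) (by simpa using hp.2)
    · intro t ht
      have h2 : (p.1, t) ∈ ball (0 : ℂ × ℂ) r := by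
        rw [mem_ball_zero_iff, Prod.norm_def]
        exact max_lt hp.1 (by simpa using ht)
      exact (hA (p.1, t) h2).2
    · intro t ht
      exact h1.2 t (ball_subset_ball hrR.le ht)
    · rw [hA0, h1.1]
  refine ⟨fun p => g p.1 p.2, ?_, ?_⟩
  · intro p hp
    have hpR : ‖p‖ < R := by simpa using hp
    have hR : 0 < R := (norm_nonneg p).trans_lt hpR
    obtain ⟨r, hr1, hr2⟩ := exists_between hpR
    have hr0 : 0 < r := (norm_nonneg p).trans_lt hr1
    obtain ⟨A, hA⟩ := hloc r hr0 hr2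
    have hpr : p ∈ ball (0 : ℂ × ℂ) r := by simpa using hr1
    have hev : A =ᶠ[𝓝 p] fun p => g p.1 p.2 := by
      filter_upwards [isOpen_ball.mem_nhds hpr] with q hq
      exact (hA q hq).2.2
    obtain ⟨h1, h2, -⟩ := hA p hpr
    refine ⟨h1.congr hev, ?_⟩
    rw [← hev.fderiv_eq]
    have h3 : HasDerivAt (fun t : ℂ => ((p.1, t) : ℂ × ℂ)) (0, 1) p.2 :=
      (hasDerivAt_const p.2 p.1).prodMk (hasDerivAt_id p.2)
    have h4 := h1.differentiableAt.hasFDerivAt.comp_hasDerivAt p.2 h3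
    exact h4.unique h2
  · intro s hs
    exact (hg s hs).1

theorem exists_potential {R : ℝ} {b₁ b₂ : ℂ × ℂ → ℂ} (h₁ : ∀ p ∈ ball (0 : ℂ × ℂ) R, AnalyticAt ℂ b₁ p)
    (h₂ : ∀ p ∈ ball (0 : ℂ × ℂ) R, AnalyticAt ℂ b₂ p)
    (hc : ∀ p ∈ ball (0 : ℂ × ℂ) R, fderiv ℂ b₂ p (1, 0) = fderiv ℂ b₁ p (0, 1)) :
    ∃ ψ : ℂ × ℂ → ℂ, ψ 0 = 0 ∧ ∀ p ∈ ball (0 : ℂ × ℂ) R, AnalyticAt ℂ ψ p ∧ fderiv ℂ ψ p (1, 0) = b₁ p ∧
      fderiv ℂ ψ p (0, 1) = b₂ p := by
  by_cases hR : 0 < R
  swap
  · refine ⟨0, rfl, fun p hp => ?_⟩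
    rw [ball_eq_empty.2 (not_lt.1 hR)] at hp
    exact absurd hp (Set.notMem_empty p)
  have hmem : ∀ s t : ℂ, ‖s‖ < R → ‖t‖ < R → (s, t) ∈ ball (0 : ℂ × ℂ) R := by
    intro s t hs ht
    rw [mem_ball_zero_iff, Prod.norm_def]
    exact max_lt hs ht
  obtain ⟨B₂, hB₂, hB₂0⟩ := exists_prim_snd h₂
  have hd1 : DifferentiableOn ℂ (fun s => b₁ (s, 0)) (ball 0 R) := by
    intro s hs
    have h2 := (h₁ (s, 0) (hmem s 0 (by simpa using hs) (by simpa using hR))).differentiableAt
    exact (h2.comp s (differentiableAt_id.prodMk (differentiableAt_const (0 : ℂ)))).differentiableWithinAt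
  obtain ⟨B₁, hB₁0, hB₁⟩ := hd1.isExactOn_ball.with_val_at 0 0
  have hB₁a : ∀ s : ℂ, ‖s‖ < R → AnalyticAt ℂ B₁ s := by
    intro s hs
    have h1 : DifferentiableOn ℂ B₁ (ball 0 R) := fun z hz => (hB₁ z hz).differentiableAt.differentiableWithinAt
    exact h1.analyticAt (isOpen_ball.mem_nhds (by simpa using hs))
  have hfst : ∀ p : ℂ × ℂ, p ∈ ball (0 : ℂ × ℂ) R → HasFDerivAt (fun p : ℂ × ℂ => B₁ p.1)
      (b₁ (p.1, 0) • ContinuousLinearMap.fst ℂ ℂ ℂ) p := by
    intro p hp
    rw [mem_ball_zero_iff, Prod.norm_def, max_lt_iff] at hp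
    have h1 := (hB₁ p.1 (by simpa using hp.1)).hasFDerivAt.comp p (hasFDerivAt_fst (𝕜 := ℂ) (p := p))
    convert! h1 using 1
    ext <;> simp
  refine ⟨fun p => B₁ p.1 + B₂ p, ?_, ?_⟩
  · change B₁ 0 + B₂ (0, 0) = 0
    rw [hB₁0, hB₂0 0 (by simpa using hR), add_zero]
  · intro p hp
    have hp' := hp
    rw [mem_ball_zero_iff, Prod.norm_def, max_lt_iff] at hp'
    have hfd : ∀ q ∈ ball (0 : ℂ × ℂ) R, HasFDerivAt (fun p : ℂ × ℂ => B₁ p.1 + B₂ p)
        (b₁ (q.1, 0) • ContinuousLinearMap.fst ℂ ℂ ℂ + fderiv ℂ B₂ q) q := fun q hq =>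
      (hfst q hq).add (hB₂ q hq).1.differentiableAt.hasFDerivAt
    refine ⟨((hB₁a p.1 hp'.1).comp analyticAt_fst).add (hB₂ p hp).1, ?_, ?_⟩
    · rw [(hfd p hp).fderiv]
      have h1 : (b₁ (p.1, 0) • ContinuousLinearMap.fst ℂ ℂ ℂ + fderiv ℂ B₂ p) (1, 0) =
          b₁ (p.1, 0) + fderiv ℂ B₂ p (1, 0) := by simp
      rw [h1]
      -- both sides have the same derivative in the direction of t
      have hline : ∀ t : ℂ, HasDerivAt (fun t : ℂ => ((p.1, t) : ℂ × ℂ)) (0, 1) t := fun t =>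
        (hasDerivAt_const t p.1).prodMk (hasDerivAt_id t)
      have hmt : ∀ t ∈ ball (0 : ℂ) R, (p.1, t) ∈ ball (0 : ℂ × ℂ) R := fun t ht =>
        hmem p.1 t hp'.1 (by simpa using ht)
      refine prm_const (R := R) (f := fun t => b₁ (p.1, 0) + fderiv ℂ B₂ (p.1, t) (1, 0)) (g := fun t => b₁ (p.1, t))
        (h := fun t => fderiv ℂ b₁ (p.1, t) (0, 1)) ?_ ?_ ?_ (z := p.2) (by simpa using hp'.2)
      · intro t ht
        have hq := hmt t ht
        have h2 : HasFDerivAt (fderiv ℂ B₂) (fderiv ℂ (fderiv ℂ B₂) (p.1, t)) (p.1, t) :=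
          (hB₂ _ hq).1.fderiv.differentiableAt.hasFDerivAt
        have h3 := h2.comp_hasDerivAt t (hline t)
        have h4 : HasDerivAt (fun t => fderiv ℂ B₂ (p.1, t) (1, 0))
            (fderiv ℂ (fderiv ℂ B₂) (p.1, t) (0, 1) (1, 0)) t :=
          (ContinuousLinearMap.apply ℂ ℂ ((1, 0) : ℂ × ℂ)).hasFDerivAt.comp_hasDerivAt t h3
        have h5 : fderiv ℂ (fderiv ℂ B₂) (p.1, t) (0, 1) (1, 0) = fderiv ℂ (fderiv ℂ B₂) (p.1, t) (1, 0) (0, 1) :=
          ((hB₂ _ hq).1.contDiffAt (n := ⊤)).isSymmSndFDerivAt_of_omega (0, 1) (1, 0)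
        have h6 : fderiv ℂ (fderiv ℂ B₂) (p.1, t) (1, 0) (0, 1) = fderiv ℂ b₂ (p.1, t) (1, 0) := by
          have h7 : (fun q => fderiv ℂ B₂ q (0, 1)) =ᶠ[𝓝 (p.1, t)] b₂ := by
            filter_upwards [isOpen_ball.mem_nhds hq] with q hq
            exact (hB₂ q hq).2
          rw [← h7.fderiv_eq]
          have h8 : HasFDerivAt (fun q => fderiv ℂ B₂ q (0, 1))
              ((ContinuousLinearMap.apply ℂ ℂ ((0, 1) : ℂ × ℂ)).comp (fderiv ℂ (fderiv ℂ B₂) (p.1, t))) (p.1, t) :=
            (ContinuousLinearMap.apply ℂ ℂ ((0, 1) : ℂ × ℂ)).hasFDerivAt.comp (p.1, t) h2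
          rw [h8.fderiv]
          rfl
        rw [h5, h6, hc _ hq] at h4
        exact h4.const_add _
      · intro t ht
        have hq := hmt t ht
        exact (h₁ _ hq).differentiableAt.hasFDerivAt.comp_hasDerivAt t (hline t)
      · have h2 : fderiv ℂ B₂ (p.1, 0) (1, 0) = 0 := by
          have hq : (p.1, (0 : ℂ)) ∈ ball (0 : ℂ × ℂ) R := hmem p.1 0 hp'.1 (by simpa using hR)
          have h3 : HasDerivAt (fun s : ℂ => ((s, 0) : ℂ × ℂ)) (1, 0) p.1 :=
            (hasDerivAt_id p.1).prodMk (hasDerivAt_const p.1 (0 : ℂ))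
          have h4 := (hB₂ _ hq).1.differentiableAt.hasFDerivAt.comp_hasDerivAt p.1 h3
          have h5 : HasDerivAt (fun _ : ℂ => (0 : ℂ)) 0 p.1 := hasDerivAt_const _ _
          have h6 : (B₂ ∘ fun s : ℂ => ((s, 0) : ℂ × ℂ)) =ᶠ[𝓝 p.1] fun _ => (0 : ℂ) := by
            have h7 : p.1 ∈ ball (0 : ℂ) R := by simpa using hp'.1
            filter_upwards [isOpen_ball.mem_nhds h7] with s hs
            exact hB₂0 s (by simpa using hs)
          exact h4.unique (h5.congr_of_eventuallyEq h6)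
        rw [h2, add_zero]
    · rw [(hfd p hp).fderiv]
      have h1 : (b₁ (p.1, 0) • ContinuousLinearMap.fst ℂ ℂ ℂ + fderiv ℂ B₂ p) (0, 1) = fderiv ℂ B₂ p (0, 1) := by
        simp
      rw [h1, (hB₂ p hp).2]

end Pool.Agent.H62.EL

end

section

/-!
# TN Osg: bounded separately holomorphic functions of several variables are analytic

Induction on the number of variables, for all complex Banach spaces `E` at once.  For `f : ℂ × (Fin k → ℂ) → E` put
`G y = (θ ↦ f (a + ρ e^(iθ), y))`, a function with values in the Banach space of the bounded continuous functions `ℝ → E`; it is bounded and separately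
holomorphic (`osg_unif`: the Schwarz lemma and the Cauchy formula are uniform in `θ`), so analytic by induction, and
`2 π i f (z, y) = ∫ (D (X - z)⁻¹) (θ) • G y (θ) dθ` with `X - z` in the Banach algebra of the bounded continuous functions `ℝ → ℂ`.
-/

set_option autoImplicit false

open Topology Filter Metric

namespace Pool.Agent.TN

/-- a bounded function of one variable with values in a space of bounded functions which is pointwise holomorphic is holomorphic -/
private theorem osg_unif {T : Type*} [TopologicalSpace T] {E : Type*} [NormedAddCommGroup E] [NormedSpace ℂ E] [CompleteSpace E]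
    {φ : ℂ → BoundedContinuousFunction T E} {s M : ℝ} (hs : 0 < s) (hM : ∀ t ∈ ball (0:ℂ) s, ‖φ t‖ ≤ M)
    (hd : ∀ θ, ∀ t ∈ ball (0:ℂ) s, DifferentiableAt ℂ (fun t => φ t θ) t) : DifferentiableAt ℂ φ 0 := by
  have hM0 : 0 ≤ M := (norm_nonneg _).trans (hM 0 (mem_ball_self hs))
  have hcont : ContinuousOn φ (ball (0:ℂ) s) := by
    intro t0 ht0
    have ht0' : dist t0 0 < s := ht0
    set s' : ℝ := s - dist t0 0 with hs'
    have hs0 : 0 < s' := by linarith
    have hsub : ball t0 s' ⊆ ball (0:ℂ) s := by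
      intro w hw
      have hw' : dist w t0 < s' := hw
      have := dist_triangle w t0 0
      rw [mem_ball]
      linarith
    have key : ∀ t ∈ ball t0 s', dist (φ t) (φ t0) ≤ (2 * M) / s' * dist t t0 := by
      intro t ht
      rw [BoundedContinuousFunction.dist_le (by positivity)]
      intro θ
      refine Complex.dist_le_div_mul_dist_of_mapsTo_ball (f := fun t => φ t θ)
        (fun x hx => (hd θ x (hsub hx)).differentiableWithinAt) ?_ ht
      intro w hw
      rw [mem_closedBall, dist_eq_norm]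
      calc ‖φ w θ - φ t0 θ‖ ≤ ‖φ w θ‖ + ‖φ t0 θ‖ := norm_sub_le _ _
        _ ≤ M + M := add_le_add (((φ w).norm_coe_le_norm θ).trans (hM w (hsub hw))) (((φ t0).norm_coe_le_norm θ).trans (hM t0 ht0))
        _ = 2 * M := by ring
    refine ContinuousAt.continuousWithinAt ?_
    show Tendsto φ (𝓝 t0) (𝓝 (φ t0))
    rw [tendsto_iff_dist_tendsto_zero]
    have ht : Tendsto (fun t : ℂ => (2 * M) / s' * dist t t0) (𝓝 t0) (𝓝 0) := by
      have e1 : Tendsto (fun t : ℂ => (2 * M) / s' * dist t t0) (𝓝 t0) (𝓝 ((2 * M) / s' * dist t0 t0)) :=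
        ((continuous_const.mul (continuous_id.dist continuous_const)).tendsto t0)
      simpa using e1
    refine squeeze_zero' (Eventually.of_forall fun _ => dist_nonneg) ?_ ht
    filter_upwards [ball_mem_nhds t0 hs0] with t ht
    exact key t ht
  set R : NNReal := ⟨s / 2, by positivity⟩ with hRd
  have hR : (0:ℝ) < R := by show 0 < s / 2; positivity
  have hRs : (R:ℝ) < s := by show s / 2 < s; linarith
  have hsph : closedBall (0:ℂ) R ⊆ ball 0 s := closedBall_subset_ball hRs
  have hci : CircleIntegrable φ 0 R := by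
    refine ContinuousOn.circleIntegrable hR.le ?_
    exact hcont.mono (sphere_subset_closedBall.trans hsph)
  have hps := hasFPowerSeriesOn_cauchy_integral hci (by exact_mod_cast hR)
  have hana : AnalyticAt ℂ (fun w => (2 * Real.pi * Complex.I : ℂ)⁻¹ • ∮ z in C(0, R), (z - w)⁻¹ • φ z) 0 := hps.analyticAt
  refine (hana.congr ?_).differentiableAt
  filter_upwards [ball_mem_nhds (0:ℂ) hR] with w hw
  show (2 * Real.pi * Complex.I : ℂ)⁻¹ • (∮ z in C(0, R), (z - w)⁻¹ • φ z) = φ w
  ext θ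
  have hint : CircleIntegrable (fun z => (z - w)⁻¹ • φ z) 0 R := by
    refine ContinuousOn.circleIntegrable hR.le ?_
    have hinv : ContinuousOn (fun z : ℂ => (z - w)⁻¹) (sphere (0:ℂ) (R:ℝ)) := by
      refine ContinuousOn.inv₀ (by fun_prop) ?_
      intro z hz h0
      have hz' : dist z 0 = (R:ℝ) := hz
      have hw' : dist w 0 < (R:ℝ) := hw
      rw [sub_eq_zero.1 h0] at hz'
      exact absurd hz' hw'.ne
    exact hinv.smul (hcont.mono (sphere_subset_closedBall.trans hsph))
  have hev : (∮ z in C(0, R), (z - w)⁻¹ • φ z) θ = ∮ z in C(0, R), (z - w)⁻¹ • φ z θ := by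
    have h := ContinuousLinearMap.intervalIntegral_comp_comm (BoundedContinuousFunction.evalCLM ℂ (β := E) θ) hint.out
    rw [circleIntegral, circleIntegral]
    exact h.symm
  have hcf : (∮ z in C(0, R), (z - w)⁻¹ • φ z θ) = (2 * Real.pi * Complex.I : ℂ) • φ w θ :=
    DifferentiableOn.circleIntegral_sub_inv_smul (f := fun z => φ z θ)
      (fun x hx => (hd θ x (hsph hx)).differentiableWithinAt) hw
  show (2 * Real.pi * Complex.I : ℂ)⁻¹ • ((∮ z in C(0, R), (z - w)⁻¹ • φ z) θ) = φ w θ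
  rw [hev, hcf, smul_smul, inv_mul_cancel₀ Complex.two_pi_I_ne_zero, one_smul]

/-- the bilinear map `(g, h) ↦ ∫ g h` -/
private theorem osg_bil (E : Type*) [NormedAddCommGroup E] [NormedSpace ℂ E] :
    ∃ B : (BoundedContinuousFunction ℝ ℂ) →L[ℂ] (BoundedContinuousFunction ℝ E) →L[ℂ] E,
      ∀ g h, B g h = ∫ θ in (0:ℝ)..2 * Real.pi, g θ • h θ := by
  have hcont : ∀ (g : BoundedContinuousFunction ℝ ℂ) (h : BoundedContinuousFunction ℝ E), Continuous (fun θ : ℝ => g θ • h θ) :=
    fun g h => g.continuous.smul h.continuous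
  let L0 : (BoundedContinuousFunction ℝ ℂ) →ₗ[ℂ] (BoundedContinuousFunction ℝ E) →ₗ[ℂ] E :=
    LinearMap.mk₂ ℂ (fun g h => ∫ θ in (0:ℝ)..2 * Real.pi, g θ • h θ)
      (by
        intro g g' h
        rw [← intervalIntegral.integral_add ((hcont g h).intervalIntegrable _ _) ((hcont g' h).intervalIntegrable _ _)]
        congr 1
        funext θ
        rw [BoundedContinuousFunction.add_apply, add_smul])
      (by
        intro c g h
        rw [← intervalIntegral.integral_smul]
        congr 1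
        funext θ
        rw [BoundedContinuousFunction.smul_apply, smul_assoc])
      (by
        intro g h h'
        rw [← intervalIntegral.integral_add ((hcont g h).intervalIntegrable _ _) ((hcont g h').intervalIntegrable _ _)]
        congr 1
        funext θ
        rw [BoundedContinuousFunction.add_apply, smul_add])
      (by
        intro c g h
        rw [← intervalIntegral.integral_smul]
        congr 1
        funext θ
        rw [BoundedContinuousFunction.smul_apply, smul_comm])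
  have hpi : (0:ℝ) ≤ 2 * Real.pi := by positivity
  refine ⟨L0.mkContinuous₂ (2 * Real.pi) ?_, fun g h => rfl⟩
  intro g h
  show ‖∫ θ in (0:ℝ)..2 * Real.pi, g θ • h θ‖ ≤ _
  refine (intervalIntegral.norm_integral_le_of_norm_le_const (C := ‖g‖ * ‖h‖) ?_).trans (le_of_eq ?_)
  · intro θ _
    rw [norm_smul]
    exact mul_le_mul (g.norm_coe_le_norm _) (h.norm_coe_le_norm _) (norm_nonneg _) (norm_nonneg _)
  · rw [sub_zero, abs_of_nonneg hpi]
    ring

/-- inversion in the algebra of bounded continuous functions -/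
private theorem osg_inv {u : BoundedContinuousFunction ℝ ℂ} (hu : IsUnit u) (p : ℝ) : (Ring.inverse u) p = (u p)⁻¹ := by
  have h := Ring.mul_inverse_cancel u hu
  have h2 : u p * (Ring.inverse u) p = 1 := by
    rw [← BoundedContinuousFunction.mul_apply, h]; rfl
  exact (inv_eq_of_mul_eq_one_right h2).symm

private theorem osg_unit {c : ℂ} {ρ : ℝ} (hρ : 0 < ρ) :
    ∃ u : BoundedContinuousFunction ℝ ℂ, IsUnit u ∧ ∀ p, u p = circleMap c ρ p - c := by
  have hn : ∀ θ : ℝ, ‖circleMap c ρ θ - c‖ = ρ := by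
    intro θ
    rw [← dist_eq_norm]
    have := circleMap_mem_sphere c hρ.le θ
    exact this
  have hne : ∀ θ : ℝ, circleMap c ρ θ - c ≠ 0 := by
    intro θ h0
    have := hn θ
    rw [h0, norm_zero] at this
    exact hρ.ne this
  have hct : Continuous (fun p : ℝ => circleMap c ρ p - c) := (continuous_circleMap c ρ).sub continuous_const
  let u : BoundedContinuousFunction ℝ ℂ := BoundedContinuousFunction.ofNormedAddCommGroup (fun p => circleMap c ρ p - c) hct ρ
    (fun p => (hn _).le)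
  let v : BoundedContinuousFunction ℝ ℂ := BoundedContinuousFunction.ofNormedAddCommGroup (fun p => (circleMap c ρ p - c)⁻¹)
    (hct.inv₀ fun p => hne _) ρ⁻¹ (fun p => by rw [norm_inv, hn])
  refine ⟨u, ?_, fun p => rfl⟩
  refine IsUnit.of_mul_eq_one v ?_
  ext p
  show (circleMap c ρ p - c) * (circleMap c ρ p - c)⁻¹ = 1
  exact mul_inv_cancel₀ (hne _)

/-- the step of the induction -/
private theorem osg_step {k : ℕ} {E : Type*} [NormedAddCommGroup E] [NormedSpace ℂ E] [CompleteSpace E]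
    (IH : ∀ {f : (Fin k → ℂ) → BoundedContinuousFunction ℝ E} {w : Fin k → ℂ} {r M : ℝ}, 0 < r →
      (∀ y ∈ ball w r, ‖f y‖ ≤ M) → (∀ y ∈ ball w r, ∀ l : Fin k, DifferentiableAt ℂ (fun t : ℂ => f (y + t • Pi.single l 1)) 0) →
      AnalyticAt ℂ f w)
    {f : ℂ × (Fin k → ℂ) → E} {w : ℂ × (Fin k → ℂ)} {r M : ℝ} (hr : 0 < r)
    (hM : ∀ y ∈ ball w r, ‖f y‖ ≤ M) (h1 : ∀ y ∈ ball w r, DifferentiableAt ℂ (fun t : ℂ => f (y.1 + t, y.2)) 0)
    (h2 : ∀ y ∈ ball w r, ∀ l : Fin k, DifferentiableAt ℂ (fun t : ℂ => f (y.1, y.2 + t • Pi.single l 1)) 0) : AnalyticAt ℂ f w := by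
  obtain ⟨a, b⟩ := w
  have hmem : ∀ z ∈ ball a r, ∀ y ∈ ball b r, (z, y) ∈ ball (a, b) r := by
    intro z hz y hy
    rw [mem_ball, Prod.dist_eq]
    exact max_lt hz hy
  have hM' : ∀ z ∈ ball a r, ∀ y ∈ ball b r, ‖f (z, y)‖ ≤ M := fun z hz y hy => hM _ (hmem z hz y hy)
  have h1' : ∀ y ∈ ball b r, DifferentiableOn ℂ (fun z => f (z, y)) (ball a r) := by
    intro y hy z hz
    refine DifferentiableAt.differentiableWithinAt ?_
    have h0 := h1 _ (hmem z hz y hy)
    have e : (fun z' : ℂ => f (z', y)) = (fun t : ℂ => f (z + t, y)) ∘ (fun z' => z' - z) := by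
      funext z'
      show f (z', y) = f (z + (z' - z), y)
      rw [add_sub_cancel]
    rw [e]
    refine DifferentiableAt.comp z ?_ (differentiableAt_id.sub_const z)
    simpa using h0
  set ρ : ℝ := r / 2 with hρd
  have hρ : 0 < ρ := by positivity
  have hρr : ρ < r := by rw [hρd]; linarith
  have ha : ∀ θ, circleMap a ρ θ ∈ ball a r := fun θ => by
    have h := circleMap_mem_sphere a hρ.le θ
    rw [mem_ball, mem_sphere.1 h]; exact hρr
  have hHc : ∀ y ∈ ball b r, Continuous (fun θ : ℝ => f (circleMap a ρ θ, y)) := by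
    intro y hy
    exact (h1' y hy).continuousOn.comp_continuous (continuous_circleMap a ρ) ha
  classical
  let G : (Fin k → ℂ) → BoundedContinuousFunction ℝ E := fun y =>
    if hy : y ∈ ball b r then
      BoundedContinuousFunction.ofNormedAddCommGroup (fun θ => f (circleMap a ρ θ, y)) (hHc y hy) M (fun θ => hM' _ (ha θ) y hy)
    else 0
  have hG : ∀ y ∈ ball b r, ∀ θ, G y θ = f (circleMap a ρ θ, y) := by
    intro y hy θ
    show (if hy : y ∈ ball b r then
      BoundedContinuousFunction.ofNormedAddCommGroup (fun θ => f (circleMap a ρ θ, y)) (hHc y hy) M (fun θ => hM' _ (ha θ) y hy)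
      else 0) θ = _
    rw [dif_pos hy]
    rfl
  have hM0 : 0 ≤ M := (norm_nonneg _).trans (hM (a, b) (mem_ball_self hr))
  have hGM : ∀ y ∈ ball b r, ‖G y‖ ≤ M := by
    intro y hy
    rw [BoundedContinuousFunction.norm_le hM0]
    intro θ
    rw [hG y hy]
    exact hM' _ (ha θ) y hy
  have hGa : AnalyticAt ℂ G b := by
    refine IH hr hGM ?_
    intro y hy l
    have hy' : dist y b < r := hy
    have hsub : ∀ t ∈ ball (0:ℂ) (r - dist y b), y + t • (Pi.single l 1 : Fin k → ℂ) ∈ ball b r := by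
      intro t ht
      have ht' : ‖t‖ < r - dist y b := by simpa using ht
      rw [mem_ball]
      have hd : dist (y + t • (Pi.single l 1 : Fin k → ℂ)) y ≤ ‖t‖ := by
        rw [dist_eq_norm, add_sub_cancel_left, norm_smul]
        have : ‖(Pi.single l 1 : Fin k → ℂ)‖ ≤ 1 := by
          rw [pi_norm_le_iff_of_nonneg zero_le_one]
          intro i
          by_cases hi : i = l
          · subst hi; simp
          · simp [Pi.single_eq_of_ne hi]
        calc ‖t‖ * ‖(Pi.single l 1 : Fin k → ℂ)‖ ≤ ‖t‖ * 1 := mul_le_mul_of_nonneg_left this (norm_nonneg _)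
          _ = ‖t‖ := mul_one _
      have := dist_triangle (y + t • (Pi.single l 1 : Fin k → ℂ)) y b
      linarith
    refine osg_unif (s := r - dist y b) (M := M) (by linarith) (fun t ht => hGM _ (hsub t ht)) ?_
    intro θ t ht
    have h0 := h2 (circleMap a ρ θ, y + t • (Pi.single l 1 : Fin k → ℂ)) (hmem _ (ha θ) _ (hsub t ht)) l
    have e : (fun t' : ℂ => G (y + t' • (Pi.single l 1 : Fin k → ℂ)) θ) =ᶠ[𝓝 t]
        (fun s : ℂ => f (circleMap a ρ θ, y + t • (Pi.single l 1 : Fin k → ℂ) + s • (Pi.single l 1 : Fin k → ℂ))) ∘ (fun t' => t' - t) := by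
      filter_upwards [isOpen_ball.mem_nhds ht] with t' ht'
      rw [hG _ (hsub t' ht')]
      show f _ = f _
      congr 2
      rw [add_assoc, ← add_smul, add_sub_cancel]
    refine DifferentiableAt.congr_of_eventuallyEq ?_ e
    refine DifferentiableAt.comp t ?_ (differentiableAt_id.sub_const t)
    simpa using h0
  obtain ⟨B, hB⟩ := osg_bil E
  obtain ⟨u, hu, hu'⟩ := osg_unit (c := a) hρ
  have hder : Continuous (deriv (circleMap a ρ)) := by
    have : deriv (circleMap a ρ) = fun θ => circleMap 0 ρ θ * Complex.I := by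
      funext θ; exact deriv_circleMap a ρ θ
    rw [this]
    exact (continuous_circleMap 0 ρ).mul continuous_const
  have hdn : ∀ θ : ℝ, ‖deriv (circleMap a ρ) θ‖ ≤ ρ := by
    intro θ
    rw [deriv_circleMap, norm_mul, Complex.norm_I, mul_one, norm_circleMap_zero, abs_of_pos hρ]
  let D : BoundedContinuousFunction ℝ ℂ := BoundedContinuousFunction.ofNormedAddCommGroup (deriv (circleMap a ρ)) hder ρ hdn
  let U : ℂ × (Fin k → ℂ) → BoundedContinuousFunction ℝ ℂ := fun p => u - (p.1 - a) • (1 : BoundedContinuousFunction ℝ ℂ)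
  have hU0 : U (a, b) = u := by show u - (a - a) • _ = u; rw [sub_self, zero_smul, sub_zero]
  have hUa : AnalyticAt ℂ U (a, b) := analyticAt_const.sub ((analyticAt_fst.sub analyticAt_const).smul analyticAt_const)
  have hUi : AnalyticAt ℂ (fun p => Ring.inverse (U p)) (a, b) := by
    have h := analyticAt_inverse (𝕜 := ℂ) hu.unit
    rw [IsUnit.unit_spec, ← hU0] at h
    exact h.comp hUa
  have hGb : AnalyticAt ℂ (fun p : ℂ × (Fin k → ℂ) => G p.2) (a, b) :=
    AnalyticAt.comp (show AnalyticAt ℂ G ((a, b) : ℂ × (Fin k → ℂ)).2 from hGa) analyticAt_snd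
  have hW : AnalyticAt ℂ (fun p : ℂ × (Fin k → ℂ) => B (D * Ring.inverse (U p)) (G p.2)) (a, b) := by
    have hD : AnalyticAt ℂ (fun p : ℂ × (Fin k → ℂ) => D * Ring.inverse (U p)) (a, b) := analyticAt_const.mul hUi
    have hBa : AnalyticAt ℂ (fun q : BoundedContinuousFunction ℝ ℂ × BoundedContinuousFunction ℝ E => B q.1 q.2)
        ((fun p : ℂ × (Fin k → ℂ) => (D * Ring.inverse (U p), G p.2)) (a, b)) := B.analyticAt_bilinear _
    exact AnalyticAt.comp (f := fun p : ℂ × (Fin k → ℂ) => (D * Ring.inverse (U p), G p.2)) hBa (hD.prod hGb)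
  have hWc : AnalyticAt ℂ (fun p : ℂ × (Fin k → ℂ) => (2 * Real.pi * Complex.I : ℂ)⁻¹ • B (D * Ring.inverse (U p)) (G p.2)) (a, b) :=
    analyticAt_const.smul hW
  refine hWc.congr ?_
  have evU : ∀ᶠ p in 𝓝 (a, b), IsUnit (U p) := by
    have h := hUa.continuousAt.eventually (Units.isOpen.mem_nhds (show U (a, b) ∈ {x | IsUnit x} by rw [hU0]; exact hu))
    exact h
  have evB : ∀ᶠ p : ℂ × (Fin k → ℂ) in 𝓝 (a, b), p.1 ∈ ball a ρ ∧ p.2 ∈ ball b r :=
    ((continuous_fst.tendsto (a, b)).eventually (ball_mem_nhds a hρ)).and ((continuous_snd.tendsto (a, b)).eventually (ball_mem_nhds b hr))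
  filter_upwards [evU, evB] with p hpU hpB
  obtain ⟨z, y⟩ := p
  obtain ⟨hz, hy⟩ := hpB
  simp only at hz hy
  have c1 : (∮ ζ in C(a, ρ), (ζ - z)⁻¹ • f (ζ, y)) = (2 * Real.pi * Complex.I : ℂ) • f (z, y) :=
    DifferentiableOn.circleIntegral_sub_inv_smul (f := fun ζ => f (ζ, y)) ((h1' y hy).mono (closedBall_subset_ball hρr)) hz
  have hBv : B (D * Ring.inverse (U (z, y))) (G y) = (2 * Real.pi * Complex.I : ℂ) • f (z, y) := by
    rw [hB, ← c1, circleIntegral]
    congr 1
    funext θ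
    rw [BoundedContinuousFunction.mul_apply, osg_inv hpU, hG y hy]
    have eU : (U (z, y)) θ = circleMap a ρ θ - z := by
      show u θ - (z - a) * 1 = _
      rw [hu' θ]; ring
    rw [eU]
    show (deriv (circleMap a ρ) θ * (circleMap a ρ θ - z)⁻¹) • f (circleMap a ρ θ, y) = _
    rw [mul_smul]
  show _ • B (D * Ring.inverse (U (z, y))) (G y) = f (z, y)
  rw [hBv, smul_smul, inv_mul_cancel₀ Complex.two_pi_I_ne_zero, one_smul]

theorem osgood_pi {n : ℕ} {E : Type*} [NormedAddCommGroup E] [NormedSpace ℂ E] [CompleteSpace E] {f : (Fin n → ℂ) → E} {w : Fin n → ℂ} {r M : ℝ} (hr : 0 < r)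
    (hM : ∀ y ∈ ball w r, ‖f y‖ ≤ M) (h : ∀ y ∈ ball w r, ∀ l : Fin n, DifferentiableAt ℂ (fun t : ℂ => f (y + t • Pi.single l 1)) 0) : AnalyticAt ℂ f w := by
  induction n generalizing E r M with
  | zero =>
    have e : f = fun _ => f w := by
      funext y
      congr 1
      funext i
      exact i.elim0
    rw [e]
    exact analyticAt_const
  | succ k ih =>
    have hmem : ∀ z ∈ ball (w 0) r, ∀ y ∈ ball (fun i : Fin k => w i.succ) r, (Fin.cons z y : Fin (k + 1) → ℂ) ∈ ball w r := by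
      intro z hz y hy
      rw [mem_ball, dist_pi_lt_iff hr]
      rw [mem_ball, dist_pi_lt_iff hr] at hy
      intro i
      refine Fin.cases ?_ ?_ i
      · exact hz
      · intro j
        exact hy j
    have hmem2 : ∀ p ∈ ball ((w 0, fun i : Fin k => w i.succ) : ℂ × (Fin k → ℂ)) r, (Fin.cons p.1 p.2 : Fin (k + 1) → ℂ) ∈ ball w r := by
      intro p hp
      rw [mem_ball, Prod.dist_eq, max_lt_iff] at hp
      exact hmem p.1 hp.1 p.2 hp.2
    have hg : AnalyticAt ℂ (fun p : ℂ × (Fin k → ℂ) => f (Fin.cons p.1 p.2 : Fin (k + 1) → ℂ)) (w 0, fun i : Fin k => w i.succ) := by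
      refine osg_step (fun {_ _ _ _} hr hM h => ih hr hM h) (M := M) hr (fun p hp => hM _ (hmem2 p hp)) ?_ ?_
      · intro p hp
        have h0 := h _ (hmem2 p hp) 0
        have e : (fun t : ℂ => f (Fin.cons (p.1 + t) p.2 : Fin (k + 1) → ℂ)) =
            (fun t : ℂ => f ((Fin.cons p.1 p.2 : Fin (k + 1) → ℂ) + t • Pi.single 0 1)) := by
          funext t
          congr 1
          funext i
          refine Fin.cases ?_ ?_ i
          · simp
          · intro j
            simp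
        show DifferentiableAt ℂ (fun t : ℂ => f (Fin.cons (p.1 + t) p.2 : Fin (k + 1) → ℂ)) 0
        rw [e]
        exact h0
      · intro p hp l
        have h0 := h _ (hmem2 p hp) l.succ
        have e : (fun t : ℂ => f (Fin.cons p.1 (p.2 + t • (Pi.single l 1 : Fin k → ℂ)) : Fin (k + 1) → ℂ)) =
            (fun t : ℂ => f ((Fin.cons p.1 p.2 : Fin (k + 1) → ℂ) + t • Pi.single l.succ 1)) := by
          funext t
          congr 1
          funext i
          refine Fin.cases ?_ ?_ i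
          · simp
          · intro j
            simp [Pi.single_apply]
        show DifferentiableAt ℂ (fun t : ℂ => f (Fin.cons p.1 (p.2 + t • (Pi.single l 1 : Fin k → ℂ)) : Fin (k + 1) → ℂ)) 0
        rw [e]
        exact h0
    let π : (Fin (k + 1) → ℂ) →L[ℂ] ℂ × (Fin k → ℂ) :=
      (ContinuousLinearMap.proj 0).prod (ContinuousLinearMap.pi fun i : Fin k => ContinuousLinearMap.proj i.succ)
    have e : f = (fun p : ℂ × (Fin k → ℂ) => f (Fin.cons p.1 p.2 : Fin (k + 1) → ℂ)) ∘ π := by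
      funext y
      show f y = f (Fin.cons (y 0) (fun i : Fin k => y i.succ) : Fin (k + 1) → ℂ)
      congr 1
      funext i
      refine Fin.cases ?_ ?_ i
      · rfl
      · intro j
        rfl
    rw [e]
    exact AnalyticAt.comp (show AnalyticAt ℂ (fun p : ℂ × (Fin k → ℂ) => f (Fin.cons p.1 p.2 : Fin (k + 1) → ℂ)) (π w) from hg) (π.analyticAt w)

end Pool.Agent.TN

end
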