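import Pool.Agent.H94.G4T.AD.ChartBasic
import Pool.Agent.H94.G4T.H62.EF.PrA
import Pool.Agent.H94.G4T.M04
import Pool.Agent.H94.G4T.M06
import Pool.Agent.H94.G4T.TG.Prm

/-! The parts of this file: TG.Tc_1, TG.Prm_1, TG.Un_1. -/

section

/-!
# TG Tc: coefficients of forms in charts

Port of `Pool/Agent/H62/EL/Tc.lean` (copy it and change `ℂ × ℂ` to `Vd (k + 2)`).  `tc_an`: `VForm.analytic` with `φ = χ.σ`.

`tan_decomp`: a curve `γ` in `X` near `x ∈ X ∩ χ.U` is `c ξ • χ.σ (χ.q (γ ξ))` with `c` analytic (`AD.Chart.curve`); differentiate at `0`.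

`toFun_eq`: by `tan_decomp` `x = c • χ.σ p`, `p = χ.q x`, `v i = c • (Σ_j (fderiv χ.q x (v i)) j • ∂_j χ.σ p) + a_i • x`.  `add_smul`, `scale`, `det`
(the vectors `∂_j χ.σ p = fderiv ℂ χ.σ p (Pi.single j 1)` are tangent: `tan_sigma`), and
`α.toFun y (c • x') (fun i => c • v' i) = α.toFun y x' v'` with `u x' - y ∈ Λ` (`TMap.smul`).
`tc_trans`: `toFun_eq` for `x = χ'.σ p`, `v i = fderiv ℂ χ'.σ p (Pi.single i 1)`; `fderiv χ.q x (v i) = fderiv (χ.q ∘ χ'.σ) p (Pi.single i 1)` (chain rule);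
`ContinuousLinearMap.det` of a map of `Fin n → ℂ` is the determinant of its matrix (`LinearMap.det_toLin'`, `LinearMap.toMatrix'_apply`; transpose: `Matrix.det_transpose`).
`zr_iff`: `→`: if `x ∈ X`, `pr x = pr (χ.σ p)`, then `x = a • χ.σ p` (`pr_eq_iff`); use `scale`.  `←`: `x = χ.σ p` and `toFun_eq`.
-/

set_option autoImplicit false

open Topology Filter Metric

namespace Pool.Agent.TG

open Pool.Agent.H36.BP (EN fs wd)
open Pool.Agent.H14.PP (IsCone CurveAt Tan)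
open Pool.Agent.H62.EF (MN pr)
open Pool.Agent.AD (Vd Chart Charts IsGerm)

variable {N k : ℕ}

variable {X : Set (EN N)} {Λ : AddSubgroup (Vd (k + 1))} {u : EN N → Vd (k + 1)}

theorem tan_decomp {d : ℕ} (hX : IsCone X) (χ : Chart d X) {x v : EN N} (hx : x ∈ X) (hU : x ∈ χ.U) (hv : Tan X x v) :
    ∃ c a : ℂ, c ≠ 0 ∧ x = c • χ.σ (χ.q x) ∧ v = c • fderiv ℂ χ.σ (χ.q x) (fderiv ℂ χ.q x v) + a • x := by
  obtain ⟨F, hF, hF0, hFd⟩ := hv
  have hU' : F 0 ∈ χ.U := by rw [hF0]; exact hU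
  obtain ⟨h1, h1d, c, hc, hc0, hev⟩ := χ.curve hX hF hU'
  have hx0 : x = c 0 • χ.σ (χ.q x) := by
    have h2 := hev.self_of_nhds.2
    rwa [hF0] at h2
  have hb : χ.q (F 0) ∈ ball (0 : Vd d) 2 := hev.self_of_nhds.1
  refine ⟨c 0, deriv c 0 * (c 0)⁻¹, hc0, hx0, ?_⟩
  have hσ : HasFDerivAt χ.σ (fderiv ℂ χ.σ (χ.q (F 0))) (χ.q (F 0)) := (χ.σ_an _ hb).differentiableAt.hasFDerivAt
  have hD1 : HasDerivAt (fun z => χ.σ (χ.q (F z))) (fderiv ℂ χ.σ (χ.q (F 0)) (deriv (fun z => χ.q (F z)) 0)) 0 :=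
    hσ.comp_hasDerivAt (0 : ℂ) h1.differentiableAt.hasDerivAt
  have hD2 : HasDerivAt (fun z => c z • χ.σ (χ.q (F z)))
      (c 0 • fderiv ℂ χ.σ (χ.q (F 0)) (deriv (fun z => χ.q (F z)) 0) + deriv c 0 • χ.σ (χ.q (F 0))) 0 :=
    hc.differentiableAt.hasDerivAt.smul hD1
  have hD3 : HasDerivAt F (c 0 • fderiv ℂ χ.σ (χ.q (F 0)) (deriv (fun z => χ.q (F z)) 0) + deriv c 0 • χ.σ (χ.q (F 0))) 0 :=
    hD2.congr_of_eventuallyEq (hev.mono fun z hz => hz.2)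
  have h5 : v = c 0 • fderiv ℂ χ.σ (χ.q x) (fderiv ℂ χ.q x v) + deriv c 0 • χ.σ (χ.q x) := by
    rw [h1d, hF0, hFd] at hD3
    rw [← hFd]
    exact hD3.deriv.trans (by rw [hFd])
  have h6 : deriv c 0 • χ.σ (χ.q x) = (deriv c 0 * (c 0)⁻¹) • x := by
    conv_rhs => rw [hx0]
    rw [smul_smul, mul_assoc, inv_mul_cancel₀ hc0, mul_one]
  rw [h6] at h5
  exact h5

theorem toFun_eq (hX : IsCone X) (hu : TMap X Λ u) (α : VForm X Λ u) (χ : Chart (k + 2) X) {x : EN N} (hx : x ∈ X) (hU : x ∈ χ.U)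
    {y : Vd (k + 1)} (hy : u x - y ∈ Λ) {υ : Vd (k + 2) → Vd (k + 1)} (he : υ (χ.q x) = y) (v : Fin (k + 2) → EN N)
    (hv : ∀ i, Tan X x (v i)) :
    α.toFun y x v = (Matrix.of fun i j => fderiv ℂ χ.q x (v i) j).det * tc α χ υ (χ.q x) := by
  obtain ⟨hb, c, hc, hcx⟩ := χ.surj x hx hU
  have hσ0 : χ.σ (χ.q x) ≠ 0 := χ.sigma_ne_zero hX hb
  have hσX : χ.σ (χ.q x) ∈ X := (χ.σ_mem _ hb).1
  have key : ∀ i, ∃ a : ℂ, v i = c • fderiv ℂ χ.σ (χ.q x) (fderiv ℂ χ.q x (v i)) + a • x := by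
    intro i
    obtain ⟨c', a, hc', hx', hvi⟩ := tan_decomp hX χ hx hU (hv i)
    have h1 : (c' - c) • χ.σ (χ.q x) = 0 := by
      rw [sub_smul, ← hx', ← hcx, sub_self]
    have h2 : c' = c := sub_eq_zero.1 ((smul_eq_zero.1 h1).resolve_right hσ0)
    rw [h2] at hvi
    exact ⟨a, hvi⟩
  choose a ha using key
  set A : Fin (k + 2) → Vd (k + 2) := fun i => fderiv ℂ χ.q x (v i) with hA
  have htA : ∀ i, Tan X (χ.σ (χ.q x)) (fderiv ℂ χ.σ (χ.q x) (A i)) := fun i => tan_sigma χ hb (A i)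
  have hl2 : u (χ.σ (χ.q x)) - y ∈ Λ := by
    have h1 : u (c • χ.σ (χ.q x)) - u (χ.σ (χ.q x)) ∈ Λ := hu.smul _ hσX c hc
    rw [← hcx] at h1
    have h2 := Λ.sub_mem hy h1
    have e : u x - y - (u x - u (χ.σ (χ.q x))) = u (χ.σ (χ.q x)) - y := by abel
    rwa [e] at h2
  have hcX : c • χ.σ (χ.q x) ∈ X := hX.smul_mem _ hσX c hc
  have hl1 : u (c • χ.σ (χ.q x)) - y ∈ Λ := smul_mem_lat hu hσX hl2 hc
  have h1 := α.add_smul y (c • χ.σ (χ.q x)) hcX hl1 (fun i => c • fderiv ℂ χ.σ (χ.q x) (A i)) (fun i => Tc_tan_smul hX (htA i) hc) a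
  have h2 := α.scale y (χ.σ (χ.q x)) hσX hl2 (fun i => fderiv ℂ χ.σ (χ.q x) (A i)) htA c hc
  have h3 := Tc_val α χ hb (y := y) hl2 A
  have h4 : α.toFun y x v = α.toFun y (c • χ.σ (χ.q x)) (fun i => c • fderiv ℂ χ.σ (χ.q x) (A i)) := by
    rw [← h1]
    rw [show v = fun i => c • fderiv ℂ χ.σ (χ.q x) (A i) + a i • x from funext ha]
    exact congrArg (fun z => α.toFun y z fun i => c • fderiv ℂ χ.σ (χ.q x) (A i) + a i • z) hcx
  rw [h4, h2, h3]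
  congr 1
  show α.toFun y _ _ = α.toFun (υ (χ.q x)) _ _
  rw [he]

theorem tc_trans (hX : IsCone X) (hu : TMap X Λ u) (α : VForm X Λ u) (χ χ' : Chart (k + 2) X) {υ υ' : Vd (k + 2) → Vd (k + 1)} {p : Vd (k + 2)}
    (hp : p ∈ ball (0 : Vd (k + 2)) 2) (hU : χ'.σ p ∈ χ.U) (hl : u (χ'.σ p) - υ' p ∈ Λ) (he : υ (χ.q (χ'.σ p)) = υ' p) :
    tc α χ' υ' p = tc α χ υ (χ.q (χ'.σ p)) * (fderiv ℂ (fun y => χ.q (χ'.σ y)) p).det := by
  have h1 := toFun_eq hX hu α χ (χ'.σ_mem p hp).1 hU hl he (fun i => fderiv ℂ χ'.σ p (Pi.single i 1)) (fun i => tan_sigma χ' hp _)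
  have h2 : ∀ w : Vd (k + 2), fderiv ℂ χ.q (χ'.σ p) (fderiv ℂ χ'.σ p w) = fderiv ℂ (fun y => χ.q (χ'.σ y)) p w := by
    intro w
    have h3 : HasFDerivAt (fun y => χ.q (χ'.σ y)) ((fderiv ℂ χ.q (χ'.σ p)).comp (fderiv ℂ χ'.σ p)) p :=
      (χ.q_an _ hU).differentiableAt.hasFDerivAt.comp p (χ'.σ_an p hp).differentiableAt.hasFDerivAt
    rw [h3.fderiv]
    rfl
  simp only [h2] at h1
  rw [Tc_det] at h1
  rw [mul_comm]
  exact h1

theorem zr_iff (hX : IsCone X) (hu : TMap X Λ u) (α : VForm X Λ u) (χ : Chart (k + 2) X) {υ : Vd (k + 2) → Vd (k + 1)} {p : Vd (k + 2)}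
    (hp : p ∈ ball (0 : Vd (k + 2)) 2) (hl : u (χ.σ p) - υ p ∈ Λ) : Zr α (υ p) (pr (χ.σ p)) ↔ tc α χ υ p = 0 := by
  have hm := χ.σ_mem p hp
  constructor
  · rintro ⟨x, hx, hpr, hz, h0⟩
    obtain ⟨c, hc, rfl⟩ := (Pool.Agent.H62.EF.pr_eq_iff
      (Pool.Agent.H14.PP.IsCone.ne_zero hX hx) (χ.sigma_ne_zero hX hp)).1 hpr
    have ht : ∀ i : Fin (k + 2), Tan X (χ.σ p) (fderiv ℂ χ.σ p (Pi.single i 1)) := fun i => tan_sigma χ hp _
    have h1 := h0 (fun i => c • fderiv ℂ χ.σ p (Pi.single i 1)) fun i => Tc_tan_smul hX (ht i) hc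
    rw [α.scale (υ p) (χ.σ p) hm.1 hl _ ht c hc] at h1
    exact h1
  · intro h0
    refine ⟨χ.σ p, hm.1, rfl, hl, ?_⟩
    intro v hv
    rw [toFun_eq hX hu α χ hm.1 hm.2.1 hl (υ := υ) (by rw [hm.2.2]) v hv, hm.2.2, h0, mul_zero]

end Pool.Agent.TG

end

section

/-!
# TG Prm: primitives in the direction of the coordinate `0`

Port of `Pool/Agent/H62/EL/Prm.lean` (`exists_prim_snd`; there the variable of integration is the second one): for `a` analytic on `ball 0 R` (a polydisc) put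
`A p = ∫ θ in 0..1, p 0 * a (Function.update p 0 (θ p 0))`.  For the analyticity in several variables one may use `Pool.Agent.TN.osgood_pi`
(`Pool/Agent/TN/Osg.lean`: bounded and separately holomorphic functions are analytic) or the method of `EL/Prm`.
`exists_prim`: `exists_prim_zero` with `R = 2`, `a = tc α χ (ms c ρ)` (`tc_an`, `Str.lift` holds on the open ball).
-/

set_option autoImplicit false

open Topology Filter Metric

namespace Pool.Agent.TG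

open Pool.Agent.H36.BP (EN wd)
open Pool.Agent.H14.PP (IsCone CurveAt Tan)
open Pool.Agent.H62.EF (MN pr)
open Pool.Agent.AD (Vd Chart Charts)

variable {N k : ℕ}

variable {X : Set (EN N)} {Λ : AddSubgroup (Vd (k + 1))} {u : EN N → Vd (k + 1)}

theorem ms_an (c : Vd (k + 1)) (ρ : ℝ) (p : Vd (k + 2)) : AnalyticAt ℂ (ms c ρ) p := by
  have h1 : AnalyticAt ℂ (fun p : Vd (k + 2) => tl p) p := by
    rw [analyticAt_pi_iff]
    intro i
    exact (ContinuousLinearMap.proj (R := ℂ) (φ := fun _ : Fin (k + 2) => ℂ) i.succ).analyticAt p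
  exact analyticAt_const.add (AnalyticAt.fun_smul analyticAt_const h1)

theorem exists_prim (α : VForm X Λ u) (χ : Chart (k + 2) X) {c : Vd (k + 1)} {ρ : ℝ} (h : Str Λ u χ c ρ) :
    ∃ A : Vd (k + 2) → ℂ, IsPrim α χ (ms c ρ) A := by
  obtain ⟨A, hA, hA0⟩ := exists_prim_zero (R := 2) (a := tc α χ (ms c ρ)) (fun p hp => tc_an α χ hp (ms_an c ρ p) (by
    filter_upwards [isOpen_ball.mem_nhds hp] with q hq
    exact h.lift q hq))
  exact ⟨A, fun p hp => (hA p hp).1, fun p hp => (hA p hp).2, hA0⟩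

end Pool.Agent.TG

end

section

/-!
# TG Un: the integral along short paths in the fibres

Port of `Pool/Agent/H62/EL/Un.lean` (`EL.IRel.eq_cap`, `EL.II_eq`; the coordinate along the fibres is now the coordinate `0`, those of the base are `tl p`).

`IRel.eq_cap`: let `χ', c', ρ', A', p, p'` be from `IRel`; `v = (A' p' - A' p) / ρ' ^ (k + 1)`.  On `p_θ = p + θ (p' - p)`, `θ ∈ [0, 1]`, `tl p_θ` is constant, `χ'.σ p_θ` is over `y` and within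
`r` of `m₀`, so in `χ.U`, and with `τ = χ.q ∘ χ'.σ`: `ms c ρ (τ p_θ) = y`; near `p_θ` even `ms c ρ (τ q) = ms c' ρ' q` (both sides are analytic, equal at `p_θ`, and the difference is in the
discrete group `Λ`).  So `ρ ∂_(j+1) τ_(i+1) = ρ' δ_ij`, `∂_0 τ_(i+1) = 0` at `p_θ`: `det Dτ = ∂_0 τ_0 * (ρ' / ρ) ^ (k + 1)` (expand along the column / row `0`: `Matrix.det_succ_column_zero` or
`Matrix.det_succ_row_zero`, and the minor is `(ρ' / ρ) • 1`), and by `tc_trans` (`υ = ms c ρ`, `υ' = ms c' ρ'`) `tc' (p_θ) / ρ' ^ (k + 1) = tc (τ p_θ) ∂_0 τ_0 / ρ ^ (k + 1)`.  Hence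
`θ ↦ A' (p_θ) / ρ' ^ (k + 1)` and `θ ↦ A (τ p_θ) / ρ ^ (k + 1)` have the same derivative.  `τ p = χ.q x`: `χ'.σ p` and `x` are proportional (`pr_eq_iff`, `q_smul`).
-/

set_option autoImplicit false

open Topology Filter Metric

namespace Pool.Agent.TG

open Pool.Agent.H36.BP (EN fs wd)
open Pool.Agent.H14.PP (IsCone CurveAt Tan)
open Pool.Agent.H62.EF (MN pr)
open Pool.Agent.AD (Vd Chart Charts IsGerm)

variable {N k : ℕ}

variable {X : Set (EN N)} {Λ : AddSubgroup (Vd (k + 1))} {u : EN N → Vd (k + 1)}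

/-- The change of charts along the segment. -/
theorem str_trans (hX : IsCone X) (hu : TMap X Λ u) (hΛ : Lat Λ) {χ χ' : Chart (k + 2) X} {c c' : Vd (k + 1)} {ρ ρ' : ℝ}
    (hm : Str Λ u χ c ρ) (hm' : Str Λ u χ' c' ρ') {q : Vd (k + 2)} (hq : q ∈ ball (0 : Vd (k + 2)) 2) (hU : χ'.σ q ∈ χ.U)
    (he : ms c ρ (χ.q (χ'.σ q)) = ms c' ρ' q) : ∀ᶠ y in 𝓝 q, ms c ρ (χ.q (χ'.σ y)) = ms c' ρ' y := by
  obtain ⟨δ, hδ, hdisc⟩ := hΛ.disc
  have hσ : ContinuousAt χ'.σ q := (χ'.σ_an q hq).continuousAt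
  have hτ : ContinuousAt (fun y => χ.q (χ'.σ y)) q := (χ.q_an _ hU).continuousAt.comp hσ
  have hτ1 : ContinuousAt (fun y => ms c ρ (χ.q (χ'.σ y))) q :=
    ContinuousAt.comp (g := ms c ρ) (f := fun y => χ.q (χ'.σ y)) (ms_an c ρ _).continuousAt hτ
  have hcont : ContinuousAt (fun y : Vd (k + 2) => ms c ρ (χ.q (χ'.σ y)) - ms c' ρ' y) q := hτ1.sub (ms_an c' ρ' q).continuousAt
  have hsmall : ∀ᶠ y in 𝓝 q, ‖ms c ρ (χ.q (χ'.σ y)) - ms c' ρ' y‖ < δ := by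
    have h1 := hcont.norm
    have h2 : ‖ms c ρ (χ.q (χ'.σ q)) - ms c' ρ' q‖ < δ := by
      rw [he, sub_self, norm_zero]
      exact hδ
    exact h1.eventually_lt_const h2
  filter_upwards [hsmall, isOpen_ball.mem_nhds hq, hσ (χ.isOpen_U.mem_nhds hU)] with y h1 h2 h3
  have hyX := (χ'.σ_mem y h2).1
  obtain ⟨hb, a, ha, hay⟩ := χ.surj _ hyX h3
  have h4 := hm'.lift y h2
  have h5 := hm.lift _ hb
  have h6 : u (χ'.σ y) - u (χ.σ (χ.q (χ'.σ y))) ∈ Λ := by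
    have := hu.smul _ (χ.σ_mem _ hb).1 a ha
    rwa [← hay] at this
  have h7 : ms c ρ (χ.q (χ'.σ y)) - ms c' ρ' y ∈ Λ := by
    have h8 := Λ.sub_mem (Λ.sub_mem h4 h6) h5
    convert h8 using 1
    abel
  exact sub_eq_zero.mp (hdisc _ h7 h1)

/-- the derivative of the change of straight charts -/
theorem str_deriv (hX : IsCone X) (hu : TMap X Λ u) (hΛ : Lat Λ) {χ χ' : Chart (k + 2) X} {c c' : Vd (k + 1)} {ρ ρ' : ℝ}
    (hm : Str Λ u χ c ρ) (hm' : Str Λ u χ' c' ρ') {q : Vd (k + 2)} (hq : q ∈ ball (0 : Vd (k + 2)) 2) (hU : χ'.σ q ∈ χ.U)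
    (he : ms c ρ (χ.q (χ'.σ q)) = ms c' ρ' q) (w : Vd (k + 2)) :
    (ρ : ℂ) • tl (fderiv ℂ (fun y => χ.q (χ'.σ y)) q w) = (ρ' : ℂ) • tl w := by
  have hτ : HasFDerivAt (fun y => χ.q (χ'.σ y)) (fderiv ℂ (fun y => χ.q (χ'.σ y)) q) q :=
    ((χ.q_an _ hU).differentiableAt.comp q (χ'.σ_an q hq).differentiableAt).hasFDerivAt
  have h1 := str_trans hX hu hΛ hm hm' hq hU he
  have h2 : HasFDerivAt (fun y : Vd (k + 2) => ms c ρ (χ.q (χ'.σ y)))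
      ((ρ : ℂ) • (tlL.comp (fderiv ℂ (fun y => χ.q (χ'.σ y)) q))) q := by
    have h3 : HasFDerivAt (fun y => tlL (χ.q (χ'.σ y))) (tlL.comp (fderiv ℂ (fun y => χ.q (χ'.σ y)) q)) q :=
      tlL.hasFDerivAt.comp q hτ
    exact (h3.const_smul (ρ : ℂ)).const_add c
  have h4 : HasFDerivAt (ms c' ρ') ((ρ' : ℂ) • (tlL : Vd (k + 2) →L[ℂ] Vd (k + 1))) q := by
    have h3 : HasFDerivAt (fun y : Vd (k + 2) => tlL y) tlL q := tlL.hasFDerivAt
    exact (h3.const_smul (ρ' : ℂ)).const_add c'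
  have h5 : HasFDerivAt (fun y : Vd (k + 2) => ms c ρ (χ.q (χ'.σ y))) ((ρ' : ℂ) • (tlL : Vd (k + 2) →L[ℂ] Vd (k + 1))) q :=
    h4.congr_of_eventuallyEq h1
  have h6 := h2.unique h5
  exact congrArg (fun L : Vd (k + 2) →L[ℂ] Vd (k + 1) => L w) h6

/-- the Jacobian determinant of the change of straight charts -/
theorem str_jc (hX : IsCone X) (hu : TMap X Λ u) (hΛ : Lat Λ) {χ χ' : Chart (k + 2) X} {c c' : Vd (k + 1)} {ρ ρ' : ℝ}
    (hm : Str Λ u χ c ρ) (hm' : Str Λ u χ' c' ρ') {q : Vd (k + 2)} (hq : q ∈ ball (0 : Vd (k + 2)) 2) (hU : χ'.σ q ∈ χ.U)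
    (he : ms c ρ (χ.q (χ'.σ q)) = ms c' ρ' q) :
    (fderiv ℂ (fun y => χ.q (χ'.σ y)) q).det = fderiv ℂ (fun y => χ.q (χ'.σ y)) q (Pi.single 0 1) 0 * ((ρ' : ℂ) / ρ) ^ (k + 1) := by
  have hρ : (ρ : ℂ) ≠ 0 := by exact_mod_cast hm.pos.ne'
  have hd := str_deriv hX hu hΛ hm hm' hq hU he
  set L := fderiv ℂ (fun y => χ.q (χ'.σ y)) q with hL
  have h0 : ∀ i j : Fin (k + 1), L (Pi.single i.succ 1) j.succ = if i = j then (ρ' : ℂ) / ρ else 0 := by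
    intro i j
    have h1 := congrFun (hd (Pi.single i.succ 1)) j
    have h2 : (ρ : ℂ) * L (Pi.single i.succ 1) j.succ = ρ' * (Pi.single i.succ (1 : ℂ) : Vd (k + 2)) j.succ := h1
    rw [Pi.single_apply] at h2
    simp only [Fin.succ_inj] at h2
    by_cases hij : i = j
    · rw [if_pos hij] at *
      rw [if_pos hij.symm, mul_one] at h2
      rw [eq_div_iff hρ, mul_comm]
      exact h2
    · rw [if_neg hij]
      rw [if_neg (Ne.symm hij), mul_zero] at h2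
      exact (mul_eq_zero.mp h2).resolve_left hρ
  have h00 : ∀ j : Fin (k + 1), L (Pi.single 0 1) j.succ = 0 := by
    intro j
    have h1 := congrFun (hd (Pi.single 0 1)) j
    have h2 : (ρ : ℂ) * L (Pi.single 0 1) j.succ = ρ' * (Pi.single 0 (1 : ℂ) : Vd (k + 2)) j.succ := h1
    rw [Pi.single_apply, if_neg (Fin.succ_ne_zero j), mul_zero] at h2
    exact (mul_eq_zero.mp h2).resolve_left hρ
  rw [ContinuousLinearMap.det, ← LinearMap.det_toMatrix', ← Matrix.det_transpose]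
  have hM : Matrix.transpose (LinearMap.toMatrix' (L : Vd (k + 2) →ₗ[ℂ] Vd (k + 2))) = Matrix.of fun i j : Fin (k + 2) => L (Pi.single i 1) j := rfl
  rw [hM, Matrix.det_succ_row_zero, Fin.sum_univ_succ]
  have h1 : ∀ j : Fin (k + 1), (Matrix.of fun i j : Fin (k + 2) => L (Pi.single i 1) j) 0 j.succ = 0 := fun j => h00 j
  have h2 : (Matrix.of fun i j : Fin (k + 2) => L (Pi.single i 1) j).submatrix Fin.succ (Fin.succAbove 0) = ((ρ' : ℂ) / ρ) • (1 : Matrix (Fin (k + 1)) (Fin (k + 1)) ℂ) := by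
    ext i j
    rw [Matrix.submatrix_apply, Matrix.smul_apply, Matrix.one_apply, Fin.succAbove_zero, Matrix.of_apply, h0, smul_eq_mul]
    split_ifs <;> simp
  rw [h2, Finset.sum_eq_zero fun j _ => by rw [h1 j, mul_zero, zero_mul], add_zero, Matrix.det_smul, Matrix.det_one, Fintype.card_fin, mul_one,
    Fin.val_zero, pow_zero, one_mul]
  rfl

/-- The derivatives of the two primitives agree. -/
theorem prim_deriv (hX : IsCone X) (hu : TMap X Λ u) (hΛ : Lat Λ) (α : VForm X Λ u) {χ χ' : Chart (k + 2) X} {c c' : Vd (k + 1)} {ρ ρ' : ℝ}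
    (hm : Str Λ u χ c ρ) (hm' : Str Λ u χ' c' ρ') {A A' : Vd (k + 2) → ℂ} (hA : IsPrim α χ (ms c ρ) A)
    (hA' : IsPrim α χ' (ms c' ρ') A') {q : Vd (k + 2)} (hq : q ∈ ball (0 : Vd (k + 2)) 2) (hU : χ'.σ q ∈ χ.U)
    (he : ms c ρ (χ.q (χ'.σ q)) = ms c' ρ' q) {d : Vd (k + 2)} (hd : tl d = 0) :
    HasFDerivAt (fun y => A (χ.q (χ'.σ y))) (fderiv ℂ (fun y => A (χ.q (χ'.σ y))) q) q ∧
      fderiv ℂ A' q d / (ρ' : ℂ) ^ (k + 1) = fderiv ℂ (fun y => A (χ.q (χ'.σ y))) q d / (ρ : ℂ) ^ (k + 1) := by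
  have hρ : (ρ : ℂ) ≠ 0 := by exact_mod_cast hm.pos.ne'
  have hρ' : (ρ' : ℂ) ≠ 0 := by exact_mod_cast hm'.pos.ne'
  have hb : χ.q (χ'.σ q) ∈ ball (0 : Vd (k + 2)) 2 := (χ.surj _ (χ'.σ_mem q hq).1 hU).1
  have hτ : HasFDerivAt (fun y => χ.q (χ'.σ y)) (fderiv ℂ (fun y => χ.q (χ'.σ y)) q) q :=
    ((χ.q_an _ hU).differentiableAt.comp q (χ'.σ_an q hq).differentiableAt).hasFDerivAt
  have hAd : HasFDerivAt A (fderiv ℂ A (χ.q (χ'.σ q))) (χ.q (χ'.σ q)) := (hA.an _ hb).differentiableAt.hasFDerivAt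
  have hcomp : HasFDerivAt (fun y => A (χ.q (χ'.σ y))) ((fderiv ℂ A (χ.q (χ'.σ q))).comp (fderiv ℂ (fun y => χ.q (χ'.σ y)) q)) q :=
    hAd.comp q hτ
  have hdd := str_deriv hX hu hΛ hm hm' hq hU he
  have hj := str_jc hX hu hΛ hm hm' hq hU he
  have htc := tc_trans hX hu α χ χ' (υ := ms c ρ) (υ' := ms c' ρ') hq hU (hm'.lift q hq) he
  rw [hj] at htc
  set L := fderiv ℂ (fun y => χ.q (χ'.σ y)) q with hL
  have hLv : ∀ w : Vd (k + 2), tl w = 0 → tl (L w) = 0 := by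
    intro w hw
    have h1 := hdd w
    rw [hw, smul_zero] at h1
    exact (smul_eq_zero.mp h1).resolve_left hρ
  refine ⟨by rw [hcomp.fderiv]; exact hcomp, ?_⟩
  have h1 : L d 0 = d 0 * L (Pi.single 0 1) 0 := by
    rw [lin_vert L hd]
    rfl
  rw [hcomp.fderiv, ContinuousLinearMap.comp_apply, lin_vert _ (hLv d hd), hA.der _ hb, h1, lin_vert _ hd, hA'.der _ hq, htc, smul_eq_mul, smul_eq_mul, div_pow]
  field_simp

theorem IRel.eq_cap (hX : IsCone X) (hu : TMap X Λ u) (hΛ : Lat Λ) {α : VForm X Λ u} {ε : ℝ} {y : Vd (k + 1)} {v : ℂ} {m m' : MN N}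
    (h : IRel α ε y m m' v) {χ : Chart (k + 2) X} {c : Vd (k + 1)} {ρ : ℝ} {y₀ : Vd (k + 1)} {m₀ : MN N} {r : ℝ} (hc : Cap Λ u χ c ρ y₀ m₀ r)
    {A : Vd (k + 2) → ℂ} (hA : IsPrim α χ (ms c ρ) A) (hy : y ∈ closedBall y₀ r) (hm : dist m m₀ + ε ≤ r) {x x' : EN N}
    (hx : x ∈ X) (hx' : x' ∈ X) (hxm : pr x = m) (hxm' : pr x' = m') : v = (A (χ.q x') - A (χ.q x)) / (ρ : ℂ) ^ (k + 1) := by
  obtain ⟨χ', c', ρ', A', p, p', hm', hA', hp, hp', hpz, hpz', hpy, hpy', hseg, hv⟩ := h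
  have hst := hc.str
  have hρ : (ρ : ℂ) ≠ 0 := by exact_mod_cast hst.pos.ne'
  have hρ' : (ρ' : ℂ) ≠ 0 := by exact_mod_cast hm'.pos.ne'
  have hd : tl (p' - p) = 0 := by
    have h1 : c' + (ρ' : ℂ) • tl p' = c' + (ρ' : ℂ) • tl p := hpz'.trans hpz.symm
    have h2 := smul_right_injective _ hρ' (add_left_cancel h1)
    rw [tl_sub]
    exact sub_eq_zero.2 h2
  have hP1 : ∀ t : ℂ, tl (un_P p p' t) = tl p := by
    intro t
    have h1 : tl (un_P p p' t) = tl p + t • tl (p' - p) := rfl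
    rw [h1, hd, smul_zero, add_zero]
  have hms : ∀ t : ℂ, ms c' ρ' (un_P p p' t) = y := by
    intro t
    show c' + (ρ' : ℂ) • tl (un_P p p' t) = y
    rw [hP1]
    exact hpz
  have hcap : ∀ θ ∈ Set.Icc (0 : ℝ) 1, χ'.σ (un_P p p' (θ : ℂ)) ∈ χ.U ∧
      ms c ρ (χ.q (χ'.σ (un_P p p' (θ : ℂ)))) = ms c' ρ' (un_P p p' (θ : ℂ)) := by
    intro θ hθ
    have hb := un_P_mem hp hp' hθ
    have h1 : u (χ'.σ (un_P p p' (θ : ℂ))) - y ∈ Λ := by
      have h2 := hm'.lift _ hb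
      rwa [hms] at h2
    have h2 : dist (pr (χ'.σ (un_P p p' (θ : ℂ)))) m₀ ≤ r := by
      have h3 : dist (pr (χ'.σ (un_P p p' (θ : ℂ)))) m ≤ ε := hseg θ hθ
      linarith [dist_triangle (pr (χ'.σ (un_P p p' (θ : ℂ)))) m m₀]
    obtain ⟨h3, _, h4⟩ := hc.cap y hy _ (χ'.σ_mem _ hb).1 h1 h2
    exact ⟨h3, by rw [h4, hms]⟩
  set f : ℝ → ℂ := fun θ => A' (un_P p p' (θ : ℂ)) / (ρ' : ℂ) ^ (k + 1) - A (χ.q (χ'.σ (un_P p p' (θ : ℂ)))) / (ρ : ℂ) ^ (k + 1) with hf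
  have hder : ∀ θ ∈ Set.Icc (0 : ℝ) 1, HasDerivAt f 0 θ := by
    intro θ hθ
    have hb := un_P_mem hp hp' hθ
    obtain ⟨h1, h2⟩ := prim_deriv hX hu hΛ α hst hm' hA hA' hb (hcap θ hθ).1 (hcap θ hθ).2 hd
    have hPd : HasDerivAt (fun t : ℂ => un_P p p' t) (p' - p) (θ : ℂ) := by
      have h3 := ((hasDerivAt_id (θ : ℂ)).smul_const (p' - p)).const_add p
      rw [one_smul] at h3
      exact h3
    have h4 : HasDerivAt (fun t : ℂ => A' (un_P p p' t)) (fderiv ℂ A' (un_P p p' (θ : ℂ)) (p' - p)) (θ : ℂ) :=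
      (hA'.an _ hb).differentiableAt.hasFDerivAt.comp_hasDerivAt (θ : ℂ) hPd
    have h5 : HasDerivAt (fun t : ℂ => A (χ.q (χ'.σ (un_P p p' t))))
        (fderiv ℂ (fun y => A (χ.q (χ'.σ y))) (un_P p p' (θ : ℂ)) (p' - p)) (θ : ℂ) :=
      h1.comp_hasDerivAt (θ : ℂ) hPd
    have h6 := ((h4.div_const ((ρ' : ℂ) ^ (k + 1))).sub (h5.div_const ((ρ : ℂ) ^ (k + 1)))).comp_ofReal
    rw [h2, sub_self] at h6
    exact h6
  have hconst := constant_of_has_deriv_right_zero (f := f) (a := 0) (b := 1)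
    (fun θ hθ => (hder θ hθ).continuousAt.continuousWithinAt)
    (fun θ hθ => (hder θ ⟨hθ.1, hθ.2.le⟩).hasDerivWithinAt) 1 ⟨zero_le_one, le_rfl⟩
  have hP0 : un_P p p' ((0 : ℝ) : ℂ) = p := by
    unfold un_P
    simp
  have hP1' : un_P p p' ((1 : ℝ) : ℂ) = p' := by
    unfold un_P
    simp
  have hX0 : ∀ w ∈ X, w ≠ 0 := fun w hw h => hX.zero_notMem (h ▸ hw)
  have hq : χ.q x = χ.q (χ'.σ p) := by
    have hU := (hcap 0 ⟨le_rfl, zero_le_one⟩).1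
    rw [hP0] at hU
    obtain ⟨a, ha, hax⟩ := (Pool.Agent.H62.EF.pr_eq_iff (hX0 x hx) (hX0 _ (χ'.σ_mem p hp).1)).mp (hxm.trans hpy.symm)
    rw [hax]
    exact χ.q_smul _ hU a ha
  have hq' : χ.q x' = χ.q (χ'.σ p') := by
    have hU := (hcap 1 ⟨zero_le_one, le_rfl⟩).1
    rw [hP1'] at hU
    obtain ⟨a, ha, hax⟩ := (Pool.Agent.H62.EF.pr_eq_iff (hX0 x' hx') (hX0 _ (χ'.σ_mem p' hp').1)).mp (hxm'.trans hpy'.symm)
    rw [hax]
    exact χ.q_smul _ hU a ha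
  simp only [hf] at hconst
  rw [hP0, hP1'] at hconst
  rw [hv, hq, hq']
  rw [sub_div, sub_div]
  linear_combination hconst

theorem II_eq (hX : IsCone X) (hu : TMap X Λ u) (hΛ : Lat Λ) {α : VForm X Λ u} {ε : ℝ} {y : Vd (k + 1)} {m m' : MN N}
    (h : ∃ v, IRel α ε y m m' v) {χ : Chart (k + 2) X} {c : Vd (k + 1)} {ρ : ℝ} {y₀ : Vd (k + 1)} {m₀ : MN N} {r : ℝ} (hc : Cap Λ u χ c ρ y₀ m₀ r)
    {A : Vd (k + 2) → ℂ} (hA : IsPrim α χ (ms c ρ) A) (hy : y ∈ closedBall y₀ r) (hm : dist m m₀ + ε ≤ r) {x x' : EN N}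
    (hx : x ∈ X) (hx' : x' ∈ X) (hxm : pr x = m) (hxm' : pr x' = m') : II α ε y m m' = (A (χ.q x') - A (χ.q x)) / (ρ : ℂ) ^ (k + 1) := by
  have h1 : II α ε y m m' = h.choose := by
    unfold II
    rw [dif_pos h]
  rw [h1]
  exact IRel.eq_cap hX hu hΛ h.choose_spec hc hA hy hm hx hx' hxm hxm'

/-- the value is unique, and does not depend on the size `ε` of the paths -/
theorem II_of_rel (hX : IsCone X) (hu : TMap X Λ u) (hΛ : Lat Λ) {α : VForm X Λ u} {ε ε' : ℝ} (hε : ε ≤ ε') {y : Vd (k + 1)} {m m' : MN N} {v : ℂ}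
    (h : IRel α ε y m m' v) {χ : Chart (k + 2) X} {c : Vd (k + 1)} {ρ : ℝ} {r : ℝ} (hc : Cap Λ u χ c ρ y m r) (hr : ε' ≤ r) :
    II α ε' y m m' = v := by
  obtain ⟨A, hA⟩ := exists_prim α χ hc.str
  obtain ⟨⟨x, hx, hxm, -⟩, ⟨x', hx', hxm', -⟩, hd⟩ := h.mem
  have hε0 : 0 ≤ ε := dist_nonneg.trans hd
  have hr0 : 0 ≤ r := hε0.trans (hε.trans hr)
  have h1 := IRel.eq_cap hX hu hΛ (h.mono hε) hc hA (mem_closedBall_self hr0) (by rw [dist_self, zero_add]; exact hr) hx hx' hxm hxm'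
  rw [h1]
  exact II_eq hX hu hΛ ⟨v, h.mono hε⟩ hc hA (mem_closedBall_self hr0) (by rw [dist_self, zero_add]; exact hr) hx hx' hxm hxm'

end Pool.Agent.TG

end
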