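import Mathlib

/-! The parts of this file: H62.BU.Inv, H62.EL.Gl, H62.FC.Place. -/

section

/-!
# BU Inv: local inverse of an analytic map
-/

set_option autoImplicit false

namespace Pool.Agent.H62.BU

open Filter Topology

/-- the analytic inverse function theorem -/
theorem local_inverse {E : Type*} [NormedAddCommGroup E] [NormedSpace ℂ E] [FiniteDimensional ℂ E] {f : E → E} {x₀ : E}
    (hf : AnalyticAt ℂ f x₀) (hi : ∀ v, fderiv ℂ f x₀ v = 0 → v = 0) :
    ∃ ψ : E → E, AnalyticAt ℂ ψ (f x₀) ∧ (∀ᶠ x in 𝓝 x₀, ψ (f x) = x) ∧ (∀ᶠ y in 𝓝 (f x₀), f (ψ y) = y) ∧ ψ (f x₀) = x₀ := by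
  have : CompleteSpace E := FiniteDimensional.complete ℂ E
  have hinj : Function.Injective (fderiv ℂ f x₀ : E →ₗ[ℂ] E) := by
    rw [injective_iff_map_eq_zero]
    exact hi
  let e : E ≃L[ℂ] E := (LinearEquiv.ofInjectiveEndo (fderiv ℂ f x₀ : E →ₗ[ℂ] E) hinj).toContinuousLinearEquiv
  have he : (e : E →L[ℂ] E) = fderiv ℂ f x₀ := by
    ext v
    rfl
  have hs : HasStrictFDerivAt f (e : E →L[ℂ] E) x₀ := by
    rw [he]
    exact hf.hasStrictFDerivAt
  let P := hs.toOpenPartialHomeomorph f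
  have hP : x₀ ∈ P.source := hs.mem_toOpenPartialHomeomorph_source
  have hcoe : (P : E → E) = f := hs.toOpenPartialHomeomorph_coe
  have h1 : AnalyticAt ℂ P.symm (P x₀) := by
    refine P.analyticAt_symm' hP ?_ (i := e) ?_
    · rw [hcoe]
      exact hf
    · rw [hcoe]
      exact he.symm
  rw [hcoe] at h1
  refine ⟨P.symm, h1, ?_, ?_, ?_⟩
  · filter_upwards [P.open_source.mem_nhds hP] with x hx
    have := P.left_inv hx
    rwa [hcoe] at this
  · have h2 : f x₀ ∈ P.target := by
      have := P.map_source hP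
      rwa [hcoe] at this
    filter_upwards [P.open_target.mem_nhds h2] with y hy
    have := P.right_inv hy
    rwa [hcoe] at this
  · have := P.left_inv hP
    rwa [hcoe] at this

end Pool.Agent.H62.BU

end

section

/-!
# EL Gl: local solutions on a disc which are unique up to constants give a global solution

`Sol H z` is a property of the function `H` near `z`.  By `hdiff` two solutions on a ball (inside `ball b s`) differ by a constant on it (derivative
`0` on a convex open set).  Let `K = closedBall b s'`, compact, `s' < s` (if `s' < 0` nothing to prove).  Lebesgue number: there is `ε > 0` such that for every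
`z ∈ K` there is `H_z` with `Sol H_z w` for all `w ∈ ball z (4 ε)`, `4 ε < s - s'` (so these balls are in `ball b s`).  For `z, z' ∈ K` with
`‖z - z'‖ < 2ε` put `c (z, z') = H_z z' - H_z z`.
(1) if `z, z', z''` have mutual distances `< 2 ε`: `c (z, z') + c (z', z'') = c (z, z'')`: `H_z - H_z'` is constant on the convex open set
`ball z (4ε) ∩ ball z' (4ε)`, which contains `z, z', z''`; so `c (z', z'') = H_z z'' - H_z z'`.
(2) Let `n ≥ 1` with `s' / n < ε`; for `z ∈ K` put `z_k = b + (k / n) (z - b)`, `k = 0, ..., n`, (in `K`, `‖z_{k+1} - z_k‖ < ε`) and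
`H z = Σ_{k<n} c (z_k, z_{k+1})`.
(3) Let `z, z' ∈ K`, `‖z - z'‖ < ε`.  Then `‖z_k - z'_k‖ ≤ ‖z - z'‖ < ε`, and `c (z_k, z_{k+1}) + c (z_{k+1}, z'_{k+1}) = c (z_k, z'_{k+1}) =
c (z_k, z'_k) + c (z'_k, z'_{k+1})` (mutual distances `< 2ε`).  Sum over `k`: `H z + c (z, z') = H z' + c (b, b) = H z'`.
So near a point `z ∈ ball b s'`: `H w = H z + H_z w - H_z z = H_z w + const`; `Sol H z` by `hcongr`.
-/

set_option autoImplicit false

open Topology Filter Metric

namespace Pool.Agent.H62.EL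

/-- Lebesgue number: solutions on balls of a uniform radius around the points of the closed disc. -/
private lemma gl_cover {b : ℂ} {s s' : ℝ} (hs : s' < s) (Sol : (ℂ → ℂ) → ℂ → Prop)
    (hloc : ∀ z ∈ ball b s, ∃ (r : ℝ) (H : ℂ → ℂ), 0 < r ∧ ∀ w ∈ ball z r, Sol H w) :
    ∃ (ε : ℝ) (HH : ℂ → ℂ → ℂ), 0 < ε ∧ (∀ z ∈ closedBall b s', ∀ w ∈ ball z (4 * ε), Sol (HH z) w) ∧
      ∀ z ∈ closedBall b s', ∀ w ∈ ball z (4 * ε), w ∈ ball b s := by
  choose! r H hr hsol using hloc
  have hcov : closedBall b s' ⊆ ⋃ i : ball b s, ball (i : ℂ) (r i) := by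
    intro z hz
    have hz' : z ∈ ball b s := closedBall_subset_ball hs hz
    exact Set.mem_iUnion.2 ⟨⟨z, hz'⟩, mem_ball_self (hr z hz')⟩
  obtain ⟨δ, hδ, hL⟩ := lebesgue_number_lemma_of_metric (isCompact_closedBall b s')
    (fun i : ball b s => (isOpen_ball : IsOpen (ball (i : ℂ) (r i)))) hcov
  have hL' : ∀ x ∈ closedBall b s', ∃ i : ℂ, i ∈ ball b s ∧ ball x δ ⊆ ball i (r i) :=
    fun x hx => let ⟨i, hi⟩ := hL x hx; ⟨i, i.2, hi⟩
  choose! j hjm hj using hL'
  have hm : 0 < min δ (s - s') := lt_min hδ (by linarith)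
  refine ⟨min δ (s - s') / 4, fun z => H (j z), by linarith, ?_, ?_⟩
  · intro z hz w hw
    have h4 : 4 * (min δ (s - s') / 4) ≤ δ := by
      have := min_le_left δ (s - s'); linarith
    exact hsol _ (hjm z hz) w (hj z hz (ball_subset_ball h4 hw))
  · intro z hz w hw
    rw [mem_closedBall] at hz
    rw [mem_ball] at hw ⊢
    have h4 : 4 * (min δ (s - s') / 4) ≤ s - s' := by
      have := min_le_right δ (s - s'); linarith
    have := dist_triangle w z b
    linarith

theorem glue {b : ℂ} {s s' : ℝ} (hs : s' < s) (Sol : (ℂ → ℂ) → ℂ → Prop)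
    (hloc : ∀ z ∈ ball b s, ∃ (r : ℝ) (H : ℂ → ℂ), 0 < r ∧ ∀ w ∈ ball z r, Sol H w)
    (hdiff : ∀ (H H' : ℂ → ℂ), ∀ z ∈ ball b s, Sol H z → Sol H' z → HasDerivAt (fun w => H w - H' w) 0 z)
    (hcongr : ∀ (H H' : ℂ → ℂ) (z c : ℂ), Sol H z → (∀ᶠ w in 𝓝 z, H' w = H w + c) → Sol H' z) :
    ∃ H : ℂ → ℂ, ∀ z ∈ ball b s', Sol H z := by
  rcases le_or_gt s' 0 with h0 | h0
  · refine ⟨fun _ => 0, fun z hz => ?_⟩
    rw [ball_eq_empty.2 h0] at hz
    exact absurd hz (Set.notMem_empty z)
  obtain ⟨ε, HH, hε, hHH, hsub⟩ := gl_cover hs Sol hloc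
  -- the constant difference
  have hconst : ∀ z ∈ closedBall b s', ∀ z' ∈ closedBall b s', ∀ u ∈ ball z (4 * ε) ∩ ball z' (4 * ε),
      ∀ v ∈ ball z (4 * ε) ∩ ball z' (4 * ε), HH z u - HH z' u = HH z v - HH z' v := by
    intro z hz z' hz' u hu v hv
    have hder : ∀ w ∈ ball z (4 * ε) ∩ ball z' (4 * ε), HasDerivAt (fun w => HH z w - HH z' w) 0 w :=
      fun w hw => hdiff _ _ w (hsub z hz w hw.1) (hHH z hz w hw.1) (hHH z' hz' w hw.2)
    exact (isOpen_ball.inter isOpen_ball).is_const_of_deriv_eq_zero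
      ((convex_ball z (4 * ε)).inter (convex_ball z' (4 * ε))).isPreconnected
      (fun w hw => (hder w hw).differentiableAt.differentiableWithinAt)
      (fun w hw => by simpa using (hder w hw).deriv) hu hv
  -- the cocycle
  have hcoc : ∀ z ∈ closedBall b s', ∀ z' ∈ closedBall b s', ∀ z'' ∈ closedBall b s', ‖z' - z‖ < 2 * ε →
      ‖z'' - z‖ < 2 * ε → ‖z'' - z'‖ < 2 * ε →
      (HH z z' - HH z z) + (HH z' z'' - HH z' z') = HH z z'' - HH z z := by
    intro z hz z' hz' z'' hz'' h1 h2 h3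
    have hu : z' ∈ ball z (4 * ε) ∩ ball z' (4 * ε) :=
      ⟨by rw [mem_ball, dist_eq_norm]; linarith, by rw [mem_ball, dist_self]; linarith⟩
    have hv : z'' ∈ ball z (4 * ε) ∩ ball z' (4 * ε) :=
      ⟨by rw [mem_ball, dist_eq_norm]; linarith, by rw [mem_ball, dist_eq_norm]; linarith⟩
    have := hconst z hz z' hz' z' hu z'' hv
    linear_combination this
  obtain ⟨n, hn⟩ := exists_nat_gt (s' / ε)
  have hn0 : (0 : ℝ) < n := lt_trans (div_pos h0 hε) hn
  have hnC : (n : ℂ) ≠ 0 := by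
    have : (n : ℝ) ≠ 0 := hn0.ne'
    exact_mod_cast this
  have hsn : s' / n < ε := by
    rw [div_lt_iff₀ hn0, mul_comm]
    exact (div_lt_iff₀ hε).1 hn
  set p : ℂ → ℕ → ℂ := fun z k => b + ((k : ℂ) / (n : ℂ)) * (z - b) with hp
  have hfrac : ∀ k : ℕ, k ≤ n → ‖((k : ℂ) / (n : ℂ))‖ ≤ 1 := by
    intro k hk
    rw [norm_div, Complex.norm_natCast, Complex.norm_natCast, div_le_one hn0]
    exact_mod_cast hk
  have hpK : ∀ z ∈ closedBall b s', ∀ k : ℕ, k ≤ n → p z k ∈ closedBall b s' := by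
    intro z hz k hk
    rw [mem_closedBall, dist_eq_norm] at hz ⊢
    have : p z k - b = ((k : ℂ) / (n : ℂ)) * (z - b) := by rw [hp]; ring
    rw [this, norm_mul]
    calc _ ≤ 1 * ‖z - b‖ := mul_le_mul_of_nonneg_right (hfrac k hk) (norm_nonneg _)
      _ ≤ s' := by rw [one_mul]; exact hz
  have hstep : ∀ z ∈ closedBall b s', ∀ k : ℕ, ‖p z (k + 1) - p z k‖ < ε := by
    intro z hz k
    rw [mem_closedBall, dist_eq_norm] at hz
    have : p z (k + 1) - p z k = (z - b) / (n : ℂ) := by
      rw [hp]; push_cast; field_simp; ring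
    rw [this, norm_div, Complex.norm_natCast]
    exact lt_of_le_of_lt (div_le_div_of_nonneg_right hz hn0.le) hsn
  have hside : ∀ z z' : ℂ, ∀ k : ℕ, k ≤ n → ‖p z' k - p z k‖ ≤ ‖z' - z‖ := by
    intro z z' k hk
    have : p z' k - p z k = ((k : ℂ) / (n : ℂ)) * (z' - z) := by rw [hp]; ring
    rw [this, norm_mul]
    calc _ ≤ 1 * ‖z' - z‖ := mul_le_mul_of_nonneg_right (hfrac k hk) (norm_nonneg _)
      _ = ‖z' - z‖ := one_mul _
  have hpn : ∀ z : ℂ, p z n = z := by
    intro z
    rw [hp]; simp only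
    rw [div_self hnC]; ring
  have hp0 : ∀ z : ℂ, p z 0 = b := by
    intro z
    rw [hp]; simp
  set H : ℂ → ℂ := fun z => ∑ k ∈ Finset.range n, (HH (p z k) (p z (k + 1)) - HH (p z k) (p z k)) with hH
  have hlad : ∀ z ∈ closedBall b s', ∀ z' ∈ closedBall b s', ‖z' - z‖ < ε → ∀ m : ℕ, m ≤ n →
      (∑ k ∈ Finset.range m, (HH (p z k) (p z (k + 1)) - HH (p z k) (p z k))) +
        (HH (p z m) (p z' m) - HH (p z m) (p z m)) =
      ∑ k ∈ Finset.range m, (HH (p z' k) (p z' (k + 1)) - HH (p z' k) (p z' k)) := by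
    intro z hz z' hz' hzz m
    induction m with
    | zero =>
      intro _
      simp [hp0]
    | succ m ih =>
      intro hm
      have hm' : m ≤ n := Nat.le_of_succ_le hm
      have e := ih hm'
      rw [Finset.sum_range_succ, Finset.sum_range_succ]
      have a1 := hstep z hz m
      have a2 := hstep z' hz' m
      have a3 := lt_of_le_of_lt (hside z z' m hm') hzz
      have a4 := lt_of_le_of_lt (hside z z' (m + 1) hm) hzz
      have a5 : ‖p z' (m + 1) - p z m‖ < 2 * ε := by
        have : p z' (m + 1) - p z m = (p z' (m + 1) - p z (m + 1)) + (p z (m + 1) - p z m) := by ring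
        rw [this]
        exact lt_of_le_of_lt (norm_add_le _ _) (by linarith)
      have c1 := hcoc (p z m) (hpK z hz m hm') (p z (m + 1)) (hpK z hz (m + 1) hm) (p z' (m + 1))
        (hpK z' hz' (m + 1) hm) (by linarith) a5 (by linarith)
      have c2 := hcoc (p z m) (hpK z hz m hm') (p z' m) (hpK z' hz' m hm') (p z' (m + 1))
        (hpK z' hz' (m + 1) hm) (by linarith) a5 (by linarith)
      linear_combination e + c1 - c2
  refine ⟨H, fun z hz => ?_⟩
  have hzK : z ∈ closedBall b s' := ball_subset_closedBall hz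
  refine hcongr (HH z) H z (H z - HH z z) (hHH z hzK z (mem_ball_self (by linarith))) ?_
  have h1 : ∀ᶠ w in 𝓝 z, w ∈ ball b s' := isOpen_ball.mem_nhds hz
  have h2 : ∀ᶠ w in 𝓝 z, w ∈ ball z ε := isOpen_ball.mem_nhds (mem_ball_self hε)
  filter_upwards [h1, h2] with w hw1 hw2
  rw [mem_ball, dist_eq_norm] at hw2
  have e := hlad z hzK w (ball_subset_closedBall hw1) hw2 n le_rfl
  rw [hpn, hpn] at e
  have e' : H z + (HH z w - HH z z) = H w := e
  rw [← e']; ring

end Pool.Agent.H62.EL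

end

section

/-! Prime divisors of `L(t)`. -/

noncomputable section

namespace Pool.Agent.H62.FC

open WithZero Cardinal

/-- The additive form of the value group. -/
def Place_phi (x : WithZero (Multiplicative ℤ)) : WithTop ℤ :=
  if x = 0 then ⊤ else ((-(WithZero.log x) : ℤ) : WithTop ℤ)

lemma Place_phi_zero : Place_phi 0 = ⊤ := by simp [Place_phi]

lemma Place_phi_one : Place_phi 1 = 0 := by simp [Place_phi]

lemma Place_phi_exp (n : ℤ) : Place_phi (WithZero.exp n) = ((-n : ℤ) : WithTop ℤ) := by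
  simp [Place_phi]

lemma Place_phi_mul (x y : WithZero (Multiplicative ℤ)) :
    Place_phi (x * y) = Place_phi x + Place_phi y := by
  by_cases hx : x = 0
  · simp [Place_phi, hx]
  by_cases hy : y = 0
  · simp [Place_phi, hy]
  rw [Place_phi, Place_phi, Place_phi, if_neg hx, if_neg hy, if_neg (mul_ne_zero hx hy),
    WithZero.log_mul hx hy, ← WithTop.coe_add]
  congr 1
  ring

lemma Place_phi_anti {x y : WithZero (Multiplicative ℤ)} (h : x ≤ y) :
    Place_phi y ≤ Place_phi x := by
  by_cases hx : x = 0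
  · simp [Place_phi, hx]
  have hy : y ≠ 0 := by
    rintro rfl
    exact hx (le_antisymm h (by simp))
  rw [Place_phi, Place_phi, if_neg hx, if_neg hy, WithTop.coe_le_coe, neg_le_neg_iff,
    WithZero.log_le_log hx hy]
  exact h

lemma Place_phi_nonneg_iff {x : WithZero (Multiplicative ℤ)} : 0 ≤ Place_phi x ↔ x ≤ 1 := by
  refine ⟨fun h => ?_, fun h => by simpa [Place_phi_one] using Place_phi_anti h⟩
  by_cases hx : x = 0
  · rw [hx]; simp
  rw [Place_phi, if_neg hx] at h
  have h1 : (0 : ℤ) ≤ -(WithZero.log x) := by exact_mod_cast h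
  have h2 : WithZero.log x ≤ WithZero.log (1 : WithZero (Multiplicative ℤ)) := by
    rw [WithZero.log_one]; linarith
  exact (WithZero.log_le_log hx one_ne_zero).mp h2

/-- The additive valuation of a `ℤᵐ⁰`-valuation. -/
def Place_add {R : Type*} [CommRing R] (v : Valuation R (WithZero (Multiplicative ℤ))) :
    AddValuation R (WithTop ℤ) :=
  AddValuation.of (fun x => Place_phi (v x)) (by simp [Place_phi_zero])
    (by simp [Place_phi_one])
    (fun x y => by
      rcases le_total (v x) (v y) with h | h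
      · exact (min_le_right _ _).trans (Place_phi_anti ((v.map_add x y).trans
          (max_le h le_rfl)))
      · exact (min_le_left _ _).trans (Place_phi_anti ((v.map_add x y).trans
          (max_le le_rfl h))))
    (fun x y => by rw [map_mul, Place_phi_mul])

lemma Place_add_apply {R : Type*} [CommRing R] (v : Valuation R (WithZero (Multiplicative ℤ)))
    (x : R) : Place_add v x = Place_phi (v x) := rfl

end Pool.Agent.H62.FC

end
end
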