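import Pool.Agent.H94.G4T.G3.Defs
import Pool.Agent.H94.G4T.M06
import Pool.Agent.H94.G4T.M17
import Pool.Agent.H94.G4T.M18

/-! The parts of this file: G3.CvA, TG.JanA, TG.Y.Hf. -/

section

/-!
# G3 CvA: basic facts on curves over arcs
-/

set_option autoImplicit false

open Topology Filter Metric

namespace Pool.Agent.G3

open Pool.Agent.H36.BP (EN fs wd Sub)
open Pool.Agent.H14.PP (IsCone CurveAt Tan)
open Pool.Agent.H62.EF (MN pr)
open Pool.Agent.AD (Vd)
open Pool.Agent.TG (TMap Gd)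

variable {N k : ℕ} {X : Set (EN N)} {Λ : AddSubgroup (Vd (k + 1))} {u : EN N → Vd (k + 1)} {D : Set (Vd (k + 1))} {p : EN N → EN N → ℝ} {m : ℕ} {C : ℝ}

theorem Cv.mono {U V : Set ℂ} {F : ℂ → EN N} {h : ℂ → Vd (k + 1)} (hF : Cv X Λ u U F h) (hV : V ⊆ U) : Cv X Λ u V F h :=
  ⟨hF.F_diff.mono hV, hF.h_diff.mono hV, fun z hz => hF.mem z (hV hz), fun z hz => hF.lift z (hV hz)⟩

/-- composition with a holomorphic map -/
theorem Cv.comp {U V : Set ℂ} {F : ℂ → EN N} {h : ℂ → Vd (k + 1)} (hF : Cv X Λ u U F h) {φ : ℂ → ℂ} (hφ : DifferentiableOn ℂ φ V) (hm : Set.MapsTo φ V U) :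
    Cv X Λ u V (fun z => F (φ z)) fun z => h (φ z) :=
  ⟨hF.F_diff.comp hφ hm, hF.h_diff.comp hφ hm, fun z hz => hF.mem _ (hm hz), fun z hz => hF.lift _ (hm hz)⟩

/-- translation of the lift by a constant in `Λ` -/
theorem Cv.add {U : Set ℂ} {F : ℂ → EN N} {h : ℂ → Vd (k + 1)} (hF : Cv X Λ u U F h) {l : Vd (k + 1)} (hl : l ∈ Λ) : Cv X Λ u U F fun z => h z + l :=
  ⟨hF.F_diff, hF.h_diff.add_const l, hF.mem, fun z hz => by
    rw [← sub_sub]
    exact Λ.sub_mem (hF.lift z hz) hl⟩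

/-- the derivative of a curve is a tangent vector -/
theorem Cv.tan {U : Set ℂ} (hU : IsOpen U) {F : ℂ → EN N} {h : ℂ → Vd (k + 1)} (hF : Cv X Λ u U F h) {z : ℂ} (hz : z ∈ U) :
    Tan X (F z) (deriv F z) := by
  have hUz : U ∈ 𝓝 z := hU.mem_nhds hz
  have han : AnalyticAt ℂ F z := hF.F_diff.analyticAt hUz
  have hmap : Tendsto (fun w : ℂ => w + z) (𝓝 0) (𝓝 z) := by
    have h1 : Tendsto (fun w : ℂ => w + z) (𝓝 0) (𝓝 (0 + z)) := (continuous_id.add continuous_const).tendsto 0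
    rwa [zero_add] at h1
  refine ⟨fun w => F (w + z), ⟨?_, ?_⟩, by simp, ?_⟩
  · have h2 : AnalyticAt ℂ (fun w : ℂ => w + z) 0 := analyticAt_id.add analyticAt_const
    exact han.comp_of_eq h2 (by simp)
  · filter_upwards [hmap.eventually hUz] with w hw
    exact hF.mem _ hw
  · rw [deriv_comp_add_const]
    simp

end Pool.Agent.G3

end

section

/-!
# TG JanA: periodicity, translation and zeros of the integral

Port of `Pool/Agent/H62/EL/JanA.lean`.
`irel_shift`: use the same chart and `A` with `c + l` instead of `c`: `ms (c + l) ρ p = ms c ρ p + l`, `tc (α.shift hl) χ (ms c ρ) p = tc α χ (ms (c + l) ρ) p` (by definition).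
`II_shift`: from `irel_shift` (`II` is defined by the predicate `fun v => IRel ..`).
`II_per`: `IRel α ε (y + l) m m' v ↔ IRel α ε y m m' v`: same chart, `c + l` instead of `c`, `Per` (the vectors `∂_i χ.σ` are tangent: `tan_sigma`).
`II_zero`: let `IRel α ε l m m' v`, `ms c ρ p = l = ms c ρ p'`, so `tl p = tl p'`.  For `q` with `tl q = tl p` in the ball: `∂_0 A q = tc α χ _ q = α.toFun l (χ.σ q) .. = α.toFun 0 .. = 0` (`Per`, `VanZero`;
`u (χ.σ q) ∈ Λ`).  So `A` is constant on the segment from `p` to `p'`, `v = 0`.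
-/

set_option autoImplicit false

open Topology Filter Metric

namespace Pool.Agent.TG

open Pool.Agent.H36.BP (EN wd)
open Pool.Agent.H14.PP (IsCone CurveAt Tan)
open Pool.Agent.H62.EF (MN pr)
open Pool.Agent.AD (Vd Chart Charts)

variable {N k : ℕ}

variable {X : Set (EN N)} {Λ : AddSubgroup (Vd (k + 1))} {u : EN N → Vd (k + 1)} {Γ : AddSubgroup (Vd (k + 1))}

/-- charts are invariant under translation -/
theorem Str.add {χ : Chart (k + 2) X} {c : Vd (k + 1)} {ρ : ℝ} (h : Str Λ u χ c ρ) {l : Vd (k + 1)} (hl : l ∈ Λ) : Str Λ u χ (c + l) ρ := by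
  refine ⟨h.pos, fun p hp => ?_⟩
  have h1 : u (χ.σ p) - ms (c + l) ρ p = u (χ.σ p) - ms c ρ p - l := by
    unfold ms
    abel
  rw [h1]
  exact Λ.sub_mem (h.lift p hp) hl

theorem ms_add (c l : Vd (k + 1)) (ρ : ℝ) (p : Vd (k + 2)) : ms (c + l) ρ p = ms c ρ p + l := by
  unfold ms
  abel

theorem IRel.add {α : VForm X Λ u} (hle : Γ ≤ Λ) (hper : Per α Γ) {ε : ℝ} {y : Vd (k + 1)} {m m' : MN N} {v : ℂ}
    (h : IRel α ε y m m' v) {l : Vd (k + 1)} (hl : l ∈ Γ) : IRel α ε (y + l) m m' v := by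
  obtain ⟨χ, c, ρ, A, p, p', hm, hA, hp, hp', hpz, hpz', hpy, hpy', hseg, hv⟩ := h
  refine ⟨χ, c + l, ρ, A, p, p', hm.add (hle hl), ⟨hA.an, fun q hq => ?_, hA.zero⟩, hp, hp', by rw [ms_add, hpz], by rw [ms_add, hpz'], hpy, hpy', hseg, hv⟩
  rw [hA.der q hq]
  show α.toFun (ms c ρ q) (χ.σ q) _ = α.toFun (ms (c + l) ρ q) (χ.σ q) _
  rw [ms_add]
  exact (hper _ l hl (χ.σ q) (χ.σ_mem q hq).1 (hm.lift q hq) _ fun i => tan_sigma χ hq _).symm

theorem irel_shift {α : VForm X Λ u} {l : Vd (k + 1)} (hl : l ∈ Λ) (ε : ℝ) (y : Vd (k + 1)) (m m' : MN N) (v : ℂ) :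
    IRel (α.shift hl) ε y m m' v ↔ IRel α ε (y + l) m m' v := by
  constructor
  · rintro ⟨χ, c, ρ, A, p, p', hm, hA, hp, hp', hpz, hpz', hpy, hpy', hseg, hv⟩
    refine ⟨χ, c + l, ρ, A, p, p', hm.add hl, ⟨hA.an, fun q hq => ?_, hA.zero⟩, hp, hp', by rw [ms_add, hpz], by rw [ms_add, hpz'], hpy, hpy', hseg, hv⟩
    rw [hA.der q hq]
    show α.toFun (ms c ρ q + l) (χ.σ q) _ = α.toFun (ms (c + l) ρ q) (χ.σ q) _
    rw [ms_add]
  · rintro ⟨χ, c, ρ, A, p, p', hm, hA, hp, hp', hpz, hpz', hpy, hpy', hseg, hv⟩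
    have e : ∀ q, ms (c + -l) ρ q + l = ms c ρ q := fun q => by rw [ms_add]; abel
    refine ⟨χ, c + -l, ρ, A, p, p', hm.add (Λ.neg_mem hl), ⟨hA.an, fun q hq => ?_, hA.zero⟩, hp, hp', by rw [ms_add, hpz]; abel,
      by rw [ms_add, hpz']; abel, hpy, hpy', hseg, hv⟩
    rw [hA.der q hq]
    show α.toFun (ms c ρ q) (χ.σ q) _ = α.toFun (ms (c + -l) ρ q + l) (χ.σ q) _
    rw [e]

theorem II_shift {α : VForm X Λ u} {l : Vd (k + 1)} (hl : l ∈ Λ) (ε : ℝ) (y : Vd (k + 1)) (m m' : MN N) :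
    II (α.shift hl) ε y m m' = II α ε (y + l) m m' := by
  have key : IRel (α.shift hl) ε y m m' = IRel α ε (y + l) m m' := funext fun v => propext (irel_shift hl ε y m m' v)
  unfold II
  rw [key]

theorem II_per (hu : TMap X Λ u) {α : VForm X Λ u} (hle : Γ ≤ Λ) (hper : Per α Γ) {l : Vd (k + 1)} (hl : l ∈ Γ) (ε : ℝ) (y : Vd (k + 1))
    (m m' : MN N) : II α ε (y + l) m m' = II α ε y m m' := by
  have key : IRel α ε (y + l) m m' = IRel α ε y m m' := by
    funext v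
    refine propext ⟨fun h => ?_, fun h => h.add hle hper hl⟩
    have h1 := h.add hle hper (Γ.neg_mem hl)
    rwa [add_neg_cancel_right] at h1
  unfold II
  rw [key]

private theorem JanA_zero {α : VForm X Λ u} (hvan : VanZero α) {ε : ℝ} {m m' : MN N} {v : ℂ} (h : IRel α ε 0 m m' v) : v = 0 := by
  obtain ⟨χ, c, ρ, A, p, p', hm, hA, hp, hp', h1, h2, -, -, -, h6⟩ := h
  have hρ : (ρ : ℂ) ≠ 0 := by
    have := hm.pos
    exact_mod_cast this.ne'
  have htl : tl p' = tl p := by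
    have h3 : (ρ : ℂ) • tl p' = (ρ : ℂ) • tl p := by
      have h4 := h2.trans h1.symm
      unfold ms at h4
      exact add_left_cancel h4
    exact smul_right_injective _ hρ h3
  set e0 : Vd (k + 2) := Pi.single 0 1 with he0
  have htle : tl e0 = (0 : Vd (k + 1)) := by
    funext i
    show (Pi.single 0 1 : Vd (k + 2)) i.succ = 0
    rw [Pi.single_eq_of_ne (Fin.succ_ne_zero i)]
  have hp'e : p' = p + (p' - p) 0 • e0 := by
    have h3 : tl (p' - p) = 0 := by rw [tl_sub, htl, sub_self]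
    have h4 := vert_eq h3
    rw [he0, ← h4]
    abel
  set S : Set ℂ := {t : ℂ | p + t • e0 ∈ ball (0 : Vd (k + 2)) 2} with hS
  have hSo : IsOpen S := isOpen_ball.preimage (by fun_prop : Continuous fun t : ℂ => p + t • e0)
  have hSc : Convex ℝ S := by
    intro t ht t' ht' a b ha hb hab
    show p + (a • t + b • t') • e0 ∈ ball (0 : Vd (k + 2)) 2
    have e : p + (a • t + b • t') • e0 = a • (p + t • e0) + b • (p + t' • e0) := by
      have e1 : p = a • p + b • p := by rw [← add_smul, hab, one_smul]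
      calc p + (a • t + b • t') • e0 = (a • p + b • p) + (a • t + b • t') • e0 := by rw [← e1]
        _ = a • (p + t • e0) + b • (p + t' • e0) := by
          rw [add_smul, smul_assoc, smul_assoc, smul_add, smul_add]
          abel
    rw [e]
    exact convex_ball (0 : Vd (k + 2)) 2 ht ht' ha hb hab
  have hms : ∀ t : ℂ, ms c ρ (p + t • e0) = 0 := by
    intro t
    rw [← h1]
    unfold ms
    rw [tl_add, tl_smul, htle, smul_zero, add_zero]
  have hder : ∀ t ∈ S, HasDerivAt (fun t : ℂ => A (p + t • e0)) 0 t := by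
    intro t ht
    have h7 : HasFDerivAt A (fderiv ℂ A (p + t • e0)) (p + t • e0) := (hA.an _ ht).differentiableAt.hasFDerivAt
    have h8 : HasDerivAt (fun t : ℂ => p + t • e0) e0 t := by
      have h9 : HasDerivAt (fun z : ℂ => z • e0) ((1 : ℂ) • e0) t := (hasDerivAt_id t).smul_const e0
      rw [one_smul] at h9
      exact h9.const_add p
    have h9 := h7.comp_hasDerivAt t h8
    have h10 : fderiv ℂ A (p + t • e0) e0 = 0 := by
      rw [he0, hA.der _ ht]
      have h12 := hm.lift _ ht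
      rw [hms, sub_zero] at h12
      show α.toFun (ms c ρ (p + t • e0)) (χ.σ (p + t • e0)) _ = 0
      rw [hms]
      exact hvan _ (χ.σ_mem _ ht).1 h12 _ fun i => tan_sigma χ ht _
    rw [h10] at h9
    exact h9
  have h0S : (0 : ℂ) ∈ S := by
    show p + (0 : ℂ) • e0 ∈ ball (0 : Vd (k + 2)) 2
    rwa [zero_smul, add_zero]
  have h1S : (p' - p) 0 ∈ S := by
    show p + (p' - p) 0 • e0 ∈ ball (0 : Vd (k + 2)) 2
    rwa [← hp'e]
  have hconst : A (p + (p' - p) 0 • e0) = A (p + (0 : ℂ) • e0) :=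
    hSo.is_const_of_deriv_eq_zero (f := fun t : ℂ => A (p + t • e0)) hSc.isPreconnected
      (fun t ht => (hder t ht).differentiableAt.differentiableWithinAt) (fun t ht => (hder t ht).deriv) h1S h0S
  rw [← hp'e, zero_smul, add_zero] at hconst
  rw [h6, hconst, sub_self, zero_div]

theorem II_zero (hu : TMap X Λ u) {α : VForm X Λ u} (hle : Γ ≤ Λ) (hper : Per α Γ) (hvan : VanZero α) {l : Vd (k + 1)} (hl : l ∈ Γ)
    (ε : ℝ) (m m' : MN N) : II α ε l m m' = 0 := by
  have h1 := II_per hu hle hper hl ε 0 m m'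
  rw [zero_add] at h1
  rw [h1]
  unfold II
  split_ifs with h
  · exact JanA_zero hvan h.choose_spec
  · rfl

end Pool.Agent.TG

end

section

/-!
# TG Y Hf: `EL/Hf` for sections over a disc
-/

set_option autoImplicit false

open Topology Filter Metric

namespace Pool.Agent.TGY

open Pool.Agent.H36.BP (EN wd IsGermChart)
open Pool.Agent.H14.PP (IsCone Chart Tan CurveAt)
open Pool.Agent.H62.EF (Lat MN pr TorusMap Charts)
open Pool.Agent.H62.EL

variable {N : ℕ} {X : Set (EN N)} {Λ : AddSubgroup ℂ} {u : EN N → ℂ}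

/-- a holomorphic section over the ball of radius `t` about `b` -/
def SecOn (X : Set (EN N)) (Λ : AddSubgroup ℂ) (u : EN N → ℂ) (b : ℂ) (t : ℝ) (F : ℂ → EN N) : Prop :=
  DifferentiableOn ℂ F (ball b t) ∧ (∀ z ∈ ball b t, F z ∈ X) ∧ ∀ z ∈ ball b t, u (F z) - z ∈ Λ

theorem exists_H {b : ℂ} {s η : ℝ} {T : TubeData X} (hT : TubeG Λ u b s η T) {A : Fin T.m → ℂ × ℂ → ℂ}
    (hA : ∀ k, ∀ p ∈ ball (0 : ℂ × ℂ) 2, AnalyticAt ℂ (A k) p) {lam : Fin T.m → EN N → ℂ} (hs : Split Λ u b s T A lam)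
    {F : ℂ → EN N} {t : ℝ} (hF : SecOn X Λ u b t F) (hts : t ≤ s) {s' : ℝ} (hs' : s' < t) : ∃ H : ℂ → ℂ, ∀ z ∈ ball b s', ∀ k, F z ∈ T.W k →
      HasDerivAt (fun w => H w + lam k (F w)) (bt (T.χ k) (A k) F z) z := by
  obtain ⟨hFd, hFX, hFu⟩ := hF
  have hFa : ∀ z ∈ ball b t, AnalyticAt ℂ F z := fun z hz => hFd.analyticAt (isOpen_ball.mem_nhds hz)
  have hcv : ∀ z ∈ ball b t, CurveAt X F z := fun z hz => ⟨hFa z hz, by
    filter_upwards [isOpen_ball.mem_nhds hz] with w hw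
    exact hFX w hw⟩
  have hbt : ∀ k, ∀ z ∈ ball b t, F z ∈ T.W k → AnalyticAt ℂ (fun w => bt (T.χ k) (A k) F w) z := by
    intro k z hzt hz
    have hU : F z ∈ (T.χ k).U := hT.W_sub k hz
    have hq : AnalyticAt ℂ (fun ξ => (T.χ k).q (F ξ)) z :=
      AnalyticAt.comp (g := (T.χ k).q) (f := F) ((T.χ k).q_an _ hU) (hFa z hzt)
    have hA' : AnalyticAt ℂ (fun ξ => A k ((T.χ k).q (F ξ))) z :=
      AnalyticAt.comp (g := A k) (f := fun ξ => (T.χ k).q (F ξ)) (hA k _ ((T.χ k).surj _ (hFX z hzt) hU).1) hq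
    have hd : AnalyticAt ℂ (fun ζ => (deriv (fun ξ => (T.χ k).q (F ξ)) ζ).1) z :=
      AnalyticAt.comp (g := Prod.fst) (f := deriv (fun ξ => (T.χ k).q (F ξ))) analyticAt_fst hq.deriv
    unfold bt
    exact (hA'.mul hd).neg
  apply glue hs' (fun H z => ∀ k, F z ∈ T.W k →
    HasDerivAt (fun w => H w + lam k (F w)) (bt (T.χ k) (A k) F z) z)
  · intro z hz
    obtain ⟨k, hk⟩ := hT.cover z (ball_subset_ball hts hz) (F z) (hFX z hz) (hFu z hz)
    have ho : IsOpen (ball b t ∩ F ⁻¹' T.W k) :=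
      hFd.continuousOn.isOpen_inter_preimage isOpen_ball (hT.W_open k)
    obtain ⟨r, hr, hsub⟩ := Metric.isOpen_iff.1 ho z ⟨hz, hk⟩
    have hex : DifferentiableOn ℂ (fun w => bt (T.χ k) (A k) F w) (ball z r) := fun w hw =>
      (hbt k w (hsub hw).1 (hsub hw).2).differentiableAt.differentiableWithinAt
    obtain ⟨P, hP⟩ := hex.isExactOn_ball
    refine ⟨r, fun w => P w - lam k (F w), hr, ?_⟩
    intro w hw l hl
    have h1 := hP w hw
    have h2 := hs.2 k l F w (hcv w (hsub hw).1) ⟨w, ball_subset_ball hts (hsub hw).1, hFu w (hsub hw).1⟩ (hsub hw).2 hl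
    have h3 := h1.sub h2
    have e1 : bt (T.χ k) (A k) F w - (bt (T.χ k) (A k) F w - bt (T.χ l) (A l) F w) = bt (T.χ l) (A l) F w := by
      ring
    rw [e1] at h3
    refine h3.congr_of_eventuallyEq (Eventually.of_forall fun ξ => ?_)
    simp only [Pi.sub_apply]
    ring
  · intro H H' z hz h h'
    obtain ⟨k, hk⟩ := hT.cover z (ball_subset_ball hts hz) (F z) (hFX z hz) (hFu z hz)
    have h1 := (h k hk).sub (h' k hk)
    rw [sub_self] at h1
    refine h1.congr_of_eventuallyEq (Eventually.of_forall fun ξ => ?_)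
    simp only [Pi.sub_apply]
    ring
  · intro H H' z c h hc k hk
    have h1 := (h k hk).add_const c
    refine h1.congr_of_eventuallyEq ?_
    filter_upwards [hc] with ξ hξ
    rw [hξ]
    ring

end Pool.Agent.TGY

end
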