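import Mathlib

/-! The parts of this file: G3.A.Amp, G3.A.Quad. -/

section

/-!
# G3 A Amp: the approximate maximum principle

* `amp`: holomorphic functions `g i` on finitely many discs which cover (with half the radii) the compact set `K` and which agree on the overlaps up to `ε`:
  `‖g i‖ ≤ M` on the boundary of `K` implies `‖g i‖ ≤ M + A ε` on `K`, `A` depends only on the discs and on `K`.
-/

set_option autoImplicit false

namespace Pool.Agent.G3.A

open Complex Filter Topology Metric Set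

/-- no strict local maxima: `‖g‖ + ε (κ |z|^2 - b |z - c|^2)`, `b < κ`, has no local maximum -/
theorem amp_noMax {g : ℂ → ℂ} {p c : ℂ} {ε κ b : ℝ} (hε : 0 < ε) (hb : b < κ) (hg : ∀ᶠ z in 𝓝 p, DifferentiableAt ℂ g z)
    (hmax : ∀ᶠ z in 𝓝 p, ‖g z‖ + ε * (κ * ‖z‖ ^ 2 - b * ‖z - c‖ ^ 2) ≤ ‖g p‖ + ε * (κ * ‖p‖ ^ 2 - b * ‖p - c‖ ^ 2)) : False := by
  -- a unimodular constant
  obtain ⟨u, hu, hup⟩ : ∃ u : ℂ, ‖u‖ = 1 ∧ u * g p = (‖g p‖ : ℂ) := by
    by_cases h : g p = 0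
    · exact ⟨1, by simp, by simp [h]⟩
    · have hn : (‖g p‖ : ℂ) ≠ 0 := by exact_mod_cast norm_ne_zero_iff.2 h
      refine ⟨(‖g p‖ : ℂ) / g p, ?_, ?_⟩
      · rw [norm_div, Complex.norm_real, norm_norm, div_self (norm_ne_zero_iff.2 h)]
      · rw [div_mul_cancel₀ _ h]
  set m : ℂ := 2 * (κ : ℂ) * (starRingEnd ℂ) p - 2 * (b : ℂ) * (starRingEnd ℂ) (p - c) with hm
  set P : ℂ → ℂ := fun z => u * g z + (ε : ℂ) * (m * (z - p)) with hP
  have hPp : (P p).re = ‖g p‖ := by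
    simp only [hP, sub_self, mul_zero, add_zero, hup, ofReal_re]
  have hexp : ∀ z : ℂ, κ * ‖z‖ ^ 2 - b * ‖z - c‖ ^ 2 = κ * ‖p‖ ^ 2 - b * ‖p - c‖ ^ 2 + (m * (z - p)).re + (κ - b) * ‖z - p‖ ^ 2 := by
    intro z
    rw [hm]
    simp only [← Complex.normSq_eq_norm_sq, Complex.normSq_apply, sub_re, sub_im, mul_re, mul_im, conj_re, conj_im, ofReal_re, ofReal_im, re_ofNat,
      im_ofNat, map_sub]
    ring
  have hle : ∀ᶠ z in 𝓝 p, (P z).re + ε * (κ - b) * ‖z - p‖ ^ 2 ≤ (P p).re := by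
    filter_upwards [hmax] with z hz
    rw [hPp]
    have h1 : (u * g z).re ≤ ‖g z‖ := by
      calc (u * g z).re ≤ ‖u * g z‖ := re_le_norm _
        _ = ‖g z‖ := by rw [norm_mul, hu, one_mul]
    have h2 : (P z).re = (u * g z).re + ε * (m * (z - p)).re := by
      simp only [hP, add_re, re_ofReal_mul]
    have h3 := hexp z
    rw [h3] at hz
    have h4 : ε * (κ * ‖p‖ ^ 2 - b * ‖p - c‖ ^ 2 + (m * (z - p)).re + (κ - b) * ‖z - p‖ ^ 2) =
        ε * (κ * ‖p‖ ^ 2 - b * ‖p - c‖ ^ 2) + ε * (m * (z - p)).re + ε * (κ - b) * ‖z - p‖ ^ 2 := by ring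
    rw [h4] at hz
    rw [h2]
    linarith
  have hpos : 0 < ε * (κ - b) := mul_pos hε (by linarith)
  have hd : ∀ᶠ z in 𝓝 p, DifferentiableAt ℂ (fun w => cexp (P w)) z := by
    filter_upwards [hg] with z hz
    have h1 : DifferentiableAt ℂ P z := by
      have h2 : DifferentiableAt ℂ (fun w => u * g w) z := hz.const_mul u
      have h3 : DifferentiableAt ℂ (fun w : ℂ => (ε : ℂ) * (m * (w - p))) z := by fun_prop
      exact h2.add h3
    exact h1.cexp
  have hloc : IsLocalMax (norm ∘ fun w => cexp (P w)) p := by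
    filter_upwards [hle] with z hz
    simp only [Function.comp_apply, Complex.norm_exp]
    apply Real.exp_le_exp.2
    have : 0 ≤ ε * (κ - b) * ‖z - p‖ ^ 2 := by positivity
    linarith
  have hconst := Complex.eventually_eq_of_isLocalMax_norm hd hloc
  have hall : ∀ᶠ z in 𝓝 p, z = p := by
    filter_upwards [hconst, hle] with z h1 h2
    have h3 : Real.exp (P z).re = Real.exp (P p).re := by
      rw [← Complex.norm_exp, ← Complex.norm_exp, h1]
    have h4 : (P z).re = (P p).re := Real.exp_injective h3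
    rw [h4] at h2
    have h5 : ε * (κ - b) * ‖z - p‖ ^ 2 ≤ 0 := by linarith
    have h6 : ‖z - p‖ ^ 2 ≤ 0 := by
      by_contra h
      rw [not_le] at h
      have := mul_pos hpos h
      linarith
    have h7 : ‖z - p‖ = 0 := by
      have := sq_nonneg ‖z - p‖
      have h8 : ‖z - p‖ ^ 2 = 0 := le_antisymm h6 this
      exact pow_eq_zero_iff (two_ne_zero) |>.1 h8
    exact sub_eq_zero.1 (norm_eq_zero.1 h7)
  have h1 : ∀ᶠ z in 𝓝[≠] p, z = p := hall.filter_mono nhdsWithin_le_nhds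
  have h2 : ∀ᶠ z in 𝓝[≠] p, z ≠ p := self_mem_nhdsWithin
  obtain ⟨z, hz1, hz2⟩ := (h1.and h2).exists
  exact hz2 hz1

/-- approximate maximum principle -/
theorem amp {ι : Type*} (s : Finset ι) (zc : ι → ℂ) (rr : ι → ℝ) (hr : ∀ i ∈ s, 0 < rr i) {K : Set ℂ} (hK : IsCompact K)
    (hcov : ∀ z ∈ K, ∃ i ∈ s, dist z (zc i) < rr i / 2) :
    ∃ A : ℝ, 0 ≤ A ∧ ∀ (g : ι → ℂ → ℂ) (ε M : ℝ), 0 ≤ ε → (∀ i ∈ s, DifferentiableOn ℂ (g i) (ball (zc i) (rr i))) →
      (∀ i ∈ s, ∀ j ∈ s, ∀ z ∈ K, z ∈ ball (zc i) (rr i) → z ∈ ball (zc j) (rr j) → ‖g i z - g j z‖ ≤ ε) →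
      (∀ i ∈ s, ∀ z ∈ frontier K, z ∈ ball (zc i) (rr i) → ‖g i z‖ ≤ M) →
      ∀ i ∈ s, ∀ z ∈ K, z ∈ ball (zc i) (rr i) → ‖g i z‖ ≤ M + A * ε := by
  classical
  set κ : ℝ := ∑ i ∈ s, 2 / rr i ^ 2 + 1 with hκ
  have hκi : ∀ i ∈ s, 2 / rr i ^ 2 < κ := by
    intro i hi
    have h1 : 2 / rr i ^ 2 ≤ ∑ i ∈ s, 2 / rr i ^ 2 := Finset.single_le_sum (f := fun i => 2 / rr i ^ 2) (fun j _ => by positivity) hi
    linarith
  have hκ0 : 0 < κ := by
    have : 0 ≤ ∑ i ∈ s, 2 / rr i ^ 2 := Finset.sum_nonneg fun j _ => by positivity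
    linarith
  obtain ⟨R, hR⟩ := hK.isBounded.exists_norm_le
  refine ⟨κ * R ^ 2 + 2, by positivity, ?_⟩
  -- the case `0 < ε`
  have key : ∀ (g : ι → ℂ → ℂ) (ε M : ℝ), 0 < ε → (∀ i ∈ s, DifferentiableOn ℂ (g i) (ball (zc i) (rr i))) →
      (∀ i ∈ s, ∀ j ∈ s, ∀ z ∈ K, z ∈ ball (zc i) (rr i) → z ∈ ball (zc j) (rr j) → ‖g i z - g j z‖ ≤ ε) →
      (∀ i ∈ s, ∀ z ∈ frontier K, z ∈ ball (zc i) (rr i) → ‖g i z‖ ≤ M) →
      ∀ i ∈ s, ∀ z ∈ K, z ∈ ball (zc i) (rr i) → ‖g i z‖ ≤ M + (κ * R ^ 2 + 2) * ε := by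
    intro g ε M hε hd hov hfr i hi z hz hzi
    set v : ι → ℂ → ℝ := fun j w => ‖g j w‖ + ε * (κ * ‖w‖ ^ 2 - 2 / rr j ^ 2 * ‖w - zc j‖ ^ 2) with hv
    set Kj : ι → Set ℂ := fun j => K ∩ closedBall (zc j) (9 / 10 * rr j) with hKj
    have hsub : ∀ j ∈ s, closedBall (zc j) (9 / 10 * rr j) ⊆ ball (zc j) (rr j) := fun j hj =>
      closedBall_subset_ball (by have := hr j hj; linarith)
    have hKjc : ∀ j ∈ s, IsCompact (v j '' Kj j) := by
      intro j hj
      refine (hK.inter_right isClosed_closedBall).image_of_continuousOn ?_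
      have h1 : ContinuousOn (g j) (Kj j) := (hd j hj).continuousOn.mono (inter_subset_right.trans (hsub j hj))
      have h2 : ContinuousOn (fun w : ℂ => ε * (κ * ‖w‖ ^ 2 - 2 / rr j ^ 2 * ‖w - zc j‖ ^ 2)) (Kj j) := by fun_prop
      exact h1.norm.add h2
    set T : Set ℝ := ⋃ j ∈ s, v j '' Kj j with hT
    have hTc : IsCompact T := s.isCompact_biUnion hKjc
    have hmem : ∀ w ∈ K, ∀ j ∈ s, dist w (zc j) < rr j / 2 → v j w ∈ T := by
      intro w hw j hj hwj
      have h1 := hr j hj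
      exact mem_iUnion₂.2 ⟨j, hj, w, ⟨hw, mem_closedBall.2 (by linarith)⟩, rfl⟩
    obtain ⟨j₀, hj₀, hzj₀⟩ := hcov z hz
    obtain ⟨t, htT, htmax⟩ := hTc.exists_isGreatest ⟨_, hmem z hz j₀ hj₀ hzj₀⟩
    obtain ⟨k, hk, p, ⟨hpK, hpk⟩, rfl⟩ := mem_iUnion₂.1 htT
    have hrk := hr k hk
    -- `p` is not at the boundary of the disc `k`
    have hdist : dist p (zc k) < 9 / 10 * rr k := by
      by_contra hcon
      rw [not_lt] at hcon
      obtain ⟨j, hj, hpj⟩ := hcov p hpK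
      have h1 := htmax (hmem p hpK j hj hpj)
      have hrj := hr j hj
      have h2 : ‖g k p - g j p‖ ≤ ε := hov k hk j hj p hpK (hsub k hk hpk) (mem_ball.2 (by linarith))
      have h3 : ‖g k p‖ ≤ ‖g j p‖ + ε := by
        have := norm_sub_norm_le (g k p) (g j p)
        linarith
      have h4 : 2 / rr j ^ 2 * ‖p - zc j‖ ^ 2 ≤ 1 / 2 := by
        rw [← dist_eq_norm]
        have h5 : dist p (zc j) ^ 2 ≤ (rr j / 2) ^ 2 := by gcongr
        calc 2 / rr j ^ 2 * dist p (zc j) ^ 2 ≤ 2 / rr j ^ 2 * (rr j / 2) ^ 2 := by gcongr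
          _ = 1 / 2 := by field_simp
      have h6 : 2 * (81 / 100) ≤ 2 / rr k ^ 2 * ‖p - zc k‖ ^ 2 := by
        rw [← dist_eq_norm]
        have h5 : (9 / 10 * rr k) ^ 2 ≤ dist p (zc k) ^ 2 := by gcongr
        calc 2 * (81 / 100) = 2 / rr k ^ 2 * (9 / 10 * rr k) ^ 2 := by field_simp; norm_num
          _ ≤ 2 / rr k ^ 2 * dist p (zc k) ^ 2 := by gcongr
      simp only [hv] at h1
      have h7 : ε * (κ * ‖p‖ ^ 2 - 2 / rr j ^ 2 * ‖p - zc j‖ ^ 2) ≥ ε * (κ * ‖p‖ ^ 2 - 1 / 2) := by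
        apply mul_le_mul_of_nonneg_left _ hε.le
        linarith
      have h8 : ε * (κ * ‖p‖ ^ 2 - 2 / rr k ^ 2 * ‖p - zc k‖ ^ 2) ≤ ε * (κ * ‖p‖ ^ 2 - 2 * (81 / 100)) := by
        apply mul_le_mul_of_nonneg_left _ hε.le
        linarith
      nlinarith
    have hpb : p ∈ ball (zc k) (rr k) := hsub k hk hpk
    -- `p` is on the boundary of `K`
    have hpf : p ∈ frontier K := by
      rw [hK.isClosed.frontier_eq]
      refine ⟨hpK, fun hint => ?_⟩
      refine amp_noMax (g := g k) (p := p) (c := zc k) (κ := κ) (b := 2 / rr k ^ 2) hε (hκi k hk) ?_ ?_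
      · filter_upwards [isOpen_ball.mem_nhds hpb] with w hw
        exact (hd k hk).differentiableAt (isOpen_ball.mem_nhds hw)
      · have h1 : ∀ᶠ w in 𝓝 p, w ∈ K := mem_interior_iff_mem_nhds.1 hint
        have h2 : ∀ᶠ w in 𝓝 p, w ∈ ball (zc k) (9 / 10 * rr k) := isOpen_ball.mem_nhds hdist
        filter_upwards [h1, h2] with w hw1 hw2
        exact htmax (mem_iUnion₂.2 ⟨k, hk, w, ⟨hw1, ball_subset_closedBall hw2⟩, rfl⟩)
    have hMp : ‖g k p‖ ≤ M := hfr k hk p hpf hpb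
    have hvp : v k p ≤ M + ε * (κ * R ^ 2) := by
      simp only [hv]
      have h1 : ε * (κ * ‖p‖ ^ 2 - 2 / rr k ^ 2 * ‖p - zc k‖ ^ 2) ≤ ε * (κ * R ^ 2) := by
        apply mul_le_mul_of_nonneg_left _ hε.le
        have h2 : κ * ‖p‖ ^ 2 ≤ κ * R ^ 2 := by
          have := hR p hpK
          gcongr
        have h3 : 0 ≤ 2 / rr k ^ 2 * ‖p - zc k‖ ^ 2 := by positivity
        linarith
      linarith
    have hvz : v j₀ z ≤ v k p := htmax (hmem z hz j₀ hj₀ hzj₀)
    have hrj₀ := hr j₀ hj₀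
    have h1 : ‖g i z - g j₀ z‖ ≤ ε := hov i hi j₀ hj₀ z hz hzi (mem_ball.2 (by linarith))
    have h2 : ‖g i z‖ ≤ ‖g j₀ z‖ + ε := by
      have := norm_sub_norm_le (g i z) (g j₀ z)
      linarith
    have h4 : 2 / rr j₀ ^ 2 * ‖z - zc j₀‖ ^ 2 ≤ 1 / 2 := by
      rw [← dist_eq_norm]
      have h5 : dist z (zc j₀) ^ 2 ≤ (rr j₀ / 2) ^ 2 := by gcongr
      calc 2 / rr j₀ ^ 2 * dist z (zc j₀) ^ 2 ≤ 2 / rr j₀ ^ 2 * (rr j₀ / 2) ^ 2 := by gcongr
        _ = 1 / 2 := by field_simp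
    have h5 : ‖g j₀ z‖ ≤ v j₀ z + ε * (1 / 2) := by
      simp only [hv]
      have h6 : 0 ≤ κ * ‖z‖ ^ 2 := by positivity
      have h7 : -(ε * (1 / 2)) ≤ ε * (κ * ‖z‖ ^ 2 - 2 / rr j₀ ^ 2 * ‖z - zc j₀‖ ^ 2) := by
        have : ε * (-(1 / 2)) ≤ ε * (κ * ‖z‖ ^ 2 - 2 / rr j₀ ^ 2 * ‖z - zc j₀‖ ^ 2) := by
          apply mul_le_mul_of_nonneg_left _ hε.le
          linarith
        linarith
      linarith
    nlinarith
  intro g ε M hε hd hov hfr i hi z hz hzi
  rcases hε.eq_or_lt with h0 | h0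
  · have hle : ∀ ε' : ℝ, 0 < ε' → ‖g i z‖ ≤ M + (κ * R ^ 2 + 2) * ε' := by
      intro ε' hε'
      exact key g ε' M hε' hd (fun a ha b hb w hw hwa hwb => (hov a ha b hb w hw hwa hwb).trans (by rw [← h0]; exact hε'.le)) hfr i hi z hz hzi
    rw [← h0, mul_zero, add_zero]
    have hA : 0 < κ * R ^ 2 + 2 := by positivity
    refine le_of_forall_pos_le_add fun η hη => ?_
    have := hle (η / (κ * R ^ 2 + 2)) (by positivity)
    rwa [mul_div_cancel₀ _ hA.ne'] at this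
  · exact key g ε M h0 hd hov hfr i hi z hz hzi

end Pool.Agent.G3.A

end

section

/-!
# The log-divergent case of Lemma U

A holomorphic function on the open first quadrant with `|P z| ≤ C exp (-c |z|^2)` vanishes.
Sector form: the same on a translated and rotated quadrant.
-/

set_option autoImplicit false

namespace Pool.Agent.G3

open Complex Filter Topology Asymptotics

/-- half-plane form: `|F w| ≤ C exp (-c |w|)` on `0 < re w`, `F` differentiable near the closed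
half plane, implies `F = 0`. -/
theorem half_zero {F : ℂ → ℂ} {C c : ℝ} (hc : 0 < c)
    (hF : DifferentiableOn ℂ F {w | 0 ≤ w.re})
    (hb : ∀ w : ℂ, 0 ≤ w.re → ‖F w‖ ≤ C * Real.exp (-c * ‖w‖)) :
    ∀ w : ℂ, 0 < w.re → F w = 0 := by
  have hC : 0 ≤ C := by
    have h := hb 0 (by simp)
    have h2 : 0 ≤ ‖F 0‖ := norm_nonneg _
    simp at h
    linarith
  set k : ℝ := 2 * c / Real.pi with hk
  have hkpos : 0 < k := by positivity
  -- the exponent
  set E : ℝ → ℂ → ℂ := fun A w => -(k : ℂ) * ((w + 1) * log (w + 1)) + (A : ℂ) * w with hE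
  have hslit : ∀ w : ℂ, 0 ≤ w.re → w + 1 ∈ slitPlane := by
    intro w hw
    left
    simp
    linarith
  have hEdiff : ∀ A, DifferentiableOn ℂ (E A) {w | 0 ≤ w.re} := by
    intro A w hw
    have h1 : DifferentiableAt ℂ (fun w : ℂ => w + 1) w := by fun_prop
    have h2 : DifferentiableAt ℂ (fun w : ℂ => log (w + 1)) w := h1.clog (hslit w hw)
    have h3 : DifferentiableAt ℂ (E A) w := by
      simp only [hE]
      exact (((h1.mul h2).const_mul _).add (differentiableAt_id.const_mul _))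
    exact h3.differentiableWithinAt
  -- real part of the exponent
  have hre : ∀ (A : ℝ) (w : ℂ), 0 ≤ w.re →
      (E A w).re ≤ c * ‖w‖ + A * w.re - k * ((w.re + 1) * Real.log ‖w + 1‖) := by
    intro A w hw
    have harg : |arg (w + 1)| ≤ Real.pi / 2 := by
      rw [abs_arg_le_pi_div_two_iff]
      simp
      linarith
    have h1 : (E A w).re = -k * ((w.re + 1) * Real.log ‖w + 1‖ - w.im * arg (w + 1))
        + A * w.re := by
      simp only [hE, add_re, mul_re, neg_re, ofReal_re, neg_im, ofReal_im, neg_zero, zero_mul,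
        sub_zero, one_re, log_re, log_im, add_im, one_im, add_zero]
    rw [h1]
    have h2 : w.im * arg (w + 1) ≤ ‖w‖ * (Real.pi / 2) := by
      calc w.im * arg (w + 1) ≤ |w.im * arg (w + 1)| := le_abs_self _
        _ = |w.im| * |arg (w + 1)| := abs_mul _ _
        _ ≤ ‖w‖ * (Real.pi / 2) := by
          apply mul_le_mul (abs_im_le_norm w) harg (abs_nonneg _) (norm_nonneg _)
    have h3 : k * (‖w‖ * (Real.pi / 2)) = c * ‖w‖ := by
      rw [hk]; field_simp
    nlinarith [mul_le_mul_of_nonneg_left h2 hkpos.le]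
  have hlog : ∀ w : ℂ, 0 ≤ w.re → Real.log (w.re + 1) ≤ Real.log ‖w + 1‖ := by
    intro w hw
    apply Real.log_le_log (by linarith)
    have := re_le_norm (w + 1)
    simpa using this
  have hlog0 : ∀ w : ℂ, 0 ≤ w.re → 0 ≤ Real.log ‖w + 1‖ := by
    intro w hw
    refine le_trans ?_ (hlog w hw)
    apply Real.log_nonneg
    linarith
  -- main bound
  have hmain : ∀ (A : ℝ) (w : ℂ), 0 ≤ w.re →
      ‖F w * cexp (E A w)‖ ≤ C * Real.exp (A * w.re - k * ((w.re + 1) * Real.log ‖w + 1‖)) := by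
    intro A w hw
    rw [norm_mul, norm_exp]
    calc ‖F w‖ * Real.exp (E A w).re
        ≤ (C * Real.exp (-c * ‖w‖)) *
          Real.exp (c * ‖w‖ + A * w.re - k * ((w.re + 1) * Real.log ‖w + 1‖)) := by
          apply mul_le_mul (hb w hw) (Real.exp_le_exp.2 (hre A w hw)) (Real.exp_pos _).le
          positivity
      _ = _ := by
          rw [mul_assoc, ← Real.exp_add]
          congr 2
          ring
  have hmain2 : ∀ (A : ℝ) (w : ℂ), 0 ≤ w.re →
      ‖F w * cexp (E A w)‖ ≤ C * Real.exp (A * w.re) := by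
    intro A w hw
    refine (hmain A w hw).trans ?_
    apply mul_le_mul_of_nonneg_left _ hC
    apply Real.exp_le_exp.2
    have : 0 ≤ k * ((w.re + 1) * Real.log ‖w + 1‖) :=
      mul_nonneg hkpos.le (mul_nonneg (by linarith) (hlog0 w hw))
    linarith
  -- Phragmen-Lindelof
  have hPL : ∀ A : ℝ, 0 ≤ A → ∀ w : ℂ, 0 ≤ w.re → ‖F w * cexp (E A w)‖ ≤ C := by
    intro A hA w hw
    have hd : DiffContOnCl ℂ (fun w => F w * cexp (E A w)) {z : ℂ | 0 < z.re} := by
      apply DifferentiableOn.diffContOnCl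
      have hcl : closure {z : ℂ | 0 < z.re} = {z : ℂ | 0 ≤ z.re} := by
        exact Complex.closure_setOfPred_lt_re 0
      rw [hcl]
      exact hF.mul (hEdiff A).cexp
    refine PhragmenLindelof.right_half_plane_of_tendsto_zero_on_real
      (f := fun w => F w * cexp (E A w)) hd ?_ ?_ ?_ hw
    · refine ⟨1, by norm_num, A, ?_⟩
      apply IsBigO.of_bound C
      rw [Filter.eventually_inf_principal]
      filter_upwards with z hz
      have hz' : 0 ≤ z.re := le_of_lt hz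
      refine (hmain2 A z hz').trans ?_
      rw [Real.norm_eq_abs, abs_of_pos (Real.exp_pos _)]
      apply mul_le_mul_of_nonneg_left _ hC
      apply Real.exp_le_exp.2
      rw [Real.rpow_one]
      exact mul_le_mul_of_nonneg_left (re_le_norm z) hA
    · -- tends to zero on the positive reals
      have h1 : Tendsto (fun x : ℝ => C * Real.exp (x * (A - k * Real.log (x + 1)))) atTop
          (𝓝 (C * 0)) := by
        apply Tendsto.const_mul
        apply Real.tendsto_exp_atBot.comp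
        apply Tendsto.atTop_mul_atBot₀ tendsto_id
        have h2 : Tendsto (fun x : ℝ => Real.log (x + 1)) atTop atTop :=
          Real.tendsto_log_atTop.comp (tendsto_atTop_add_const_right _ _ tendsto_id)
        have h3 : Tendsto (fun x : ℝ => k * Real.log (x + 1)) atTop atTop :=
          Tendsto.const_mul_atTop hkpos h2
        have h4 : Tendsto (fun x : ℝ => A + -(k * Real.log (x + 1))) atTop atBot :=
          tendsto_atBot_add_const_left _ _ (tendsto_neg_atTop_atBot.comp h3)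
        simpa [sub_eq_add_neg] using h4
      rw [mul_zero] at h1
      apply squeeze_zero_norm' _ h1
      filter_upwards [eventually_ge_atTop (0 : ℝ)] with x hx
      have hx' : 0 ≤ ((x : ℂ)).re := by simpa using hx
      refine (hmain A x hx').trans ?_
      apply mul_le_mul_of_nonneg_left _ hC
      apply Real.exp_le_exp.2
      have h5 := hlog x hx'
      simp only [ofReal_re] at h5 ⊢
      have h6 : 0 ≤ Real.log (x + 1) := Real.log_nonneg (by linarith)
      have h7 : x * Real.log (x + 1) ≤ (x + 1) * Real.log ‖(x : ℂ) + 1‖ := by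
        calc x * Real.log (x + 1) ≤ (x + 1) * Real.log (x + 1) := by
              apply mul_le_mul_of_nonneg_right _ h6; linarith
          _ ≤ _ := mul_le_mul_of_nonneg_left h5 (by linarith)
      nlinarith [mul_le_mul_of_nonneg_left h7 hkpos.le]
    · intro x
      have := hmain2 A (x * I) (by simp)
      simpa using this
  intro w hw
  by_contra hne
  have hpos : 0 < ‖F w‖ * Real.exp (E 0 w).re := by
    have : 0 < ‖F w‖ := norm_pos_iff.2 hne
    positivity
  have hA : ∀ A : ℝ, 0 ≤ A → (‖F w‖ * Real.exp (E 0 w).re) * Real.exp (A * w.re) ≤ C := by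
    intro A hA
    have h := hPL A hA w hw.le
    rw [norm_mul, norm_exp] at h
    have h2 : (E A w).re = (E 0 w).re + A * w.re := by
      simp [hE]
    rw [h2, Real.exp_add] at h
    linarith [h]
  -- choose A large
  set B := ‖F w‖ * Real.exp (E 0 w).re with hB
  have h := hA (C / B / w.re) (by positivity)
  have h2 : C / B / w.re * w.re = C / B := by field_simp
  rw [h2] at h
  have h3 : C / B + 1 ≤ Real.exp (C / B) := Real.add_one_le_exp _
  have h4 : B * (C / B + 1) ≤ B * Real.exp (C / B) := mul_le_mul_of_nonneg_left h3 hpos.le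
  have h5 : B * (C / B + 1) = C + B := by field_simp
  linarith

/-- square root of a point of the right half plane. -/
theorem sqrt_re_pos {v : ℂ} (hv : 0 < v.re) :
    |(v ^ (2⁻¹ : ℂ)).im| < (v ^ (2⁻¹ : ℂ)).re ∧ (v ^ (2⁻¹ : ℂ)) ^ 2 = v := by
  have hne : v ≠ 0 := by
    intro h; rw [h] at hv; simp at hv
  have hsq : (v ^ (2⁻¹ : ℂ)) ^ 2 = v := by
    have := cpow_nat_inv_pow v (n := 2) (by norm_num)
    simpa using this
  have hpos : 0 < (v ^ (2⁻¹ : ℂ)).re := by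
    rw [cpow_def_of_ne_zero hne, exp_re]
    apply mul_pos (Real.exp_pos _)
    have h1 : (log v * 2⁻¹).im = arg v / 2 := by
      have : (log v * 2⁻¹ : ℂ) = log v / ((2 : ℝ) : ℂ) := by
        push_cast; ring
      rw [this, div_ofReal_im, log_im]
    rw [h1]
    have h2 : |arg v| < Real.pi / 2 := abs_arg_lt_pi_div_two_iff.2 (Or.inl hv)
    rw [abs_lt] at h2
    apply Real.cos_pos_of_mem_Ioo
    constructor <;> [skip; skip] <;> · have := Real.pi_pos; linarith [h2.1, h2.2]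
  refine ⟨?_, hsq⟩
  have h3 : (v ^ (2⁻¹ : ℂ)).re ^ 2 - (v ^ (2⁻¹ : ℂ)).im ^ 2 = v.re := by
    have h4 := congrArg Complex.re hsq
    rw [sq, mul_re] at h4
    nlinarith [h4]
  apply abs_lt_of_sq_lt_sq (by nlinarith) hpos.le

/-- Log-divergent case of Lemma U on the open first quadrant. -/
theorem quad_zero {P : ℂ → ℂ} {C c : ℝ} (hc : 0 < c)
    (hP : DifferentiableOn ℂ P {z | 0 < z.re ∧ 0 < z.im})
    (hb : ∀ z : ℂ, 0 < z.re → 0 < z.im → ‖P z‖ ≤ C * Real.exp (-c * ‖z‖ ^ 2)) :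
    ∀ z : ℂ, 0 < z.re → 0 < z.im → P z = 0 := by
  have hC : 0 ≤ C := by
    have h := hb (1 + I) (by simp) (by simp)
    have h2 : 0 ≤ ‖P (1 + I)‖ := norm_nonneg _
    by_contra hneg
    rw [not_le] at hneg
    have h3 : C * Real.exp (-c * ‖(1 + I : ℂ)‖ ^ 2) < 0 :=
      mul_neg_of_neg_of_pos hneg (Real.exp_pos _)
    linarith
  intro z hzr hzi
  set a : ℝ := Real.sqrt 2 / 2 with ha
  have ha2 : a * a = 1 / 2 := by
    rw [ha, div_mul_div_comm, Real.mul_self_sqrt (by norm_num)]; norm_num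
  have hapos : 0 < a := by positivity
  set ω : ℂ := ⟨a, a⟩ with hω
  set W : ℂ := -I * z ^ 2 with hW
  have hWre : W.re = 2 * z.re * z.im := by
    simp only [hW, sq, mul_re, neg_re, I_re, neg_zero, zero_mul, neg_im, I_im, mul_im, zero_sub]
    ring
  have hWpos : 0 < W.re := by rw [hWre]; positivity
  set η : ℝ := W.re / 2 with hη
  have hηpos : 0 < η := by positivity
  set g : ℂ → ℂ := fun w => ω * (w + η) ^ (2⁻¹ : ℂ) with hg
  have hre : ∀ w : ℂ, 0 ≤ w.re → 0 < (w + (η : ℂ)).re := by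
    intro w hw
    simp only [add_re, ofReal_re]
    linarith
  have hgslit : ∀ w : ℂ, 0 ≤ w.re → w + η ∈ slitPlane := fun w hw => Or.inl (hre w hw)
  have hgq : ∀ w : ℂ, 0 ≤ w.re → 0 < (g w).re ∧ 0 < (g w).im := by
    intro w hw
    obtain ⟨h1, -⟩ := sqrt_re_pos (hre w hw)
    rw [abs_lt] at h1
    constructor
    · have : (g w).re = a * (((w + η) ^ (2⁻¹ : ℂ)).re - ((w + η) ^ (2⁻¹ : ℂ)).im) := by
        simp only [hg, hω, mul_re]; ring
      rw [this]
      apply mul_pos hapos; linarith [h1.2]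
    · have : (g w).im = a * (((w + η) ^ (2⁻¹ : ℂ)).re + ((w + η) ^ (2⁻¹ : ℂ)).im) := by
        simp only [hg, hω, mul_im]; ring
      rw [this]
      apply mul_pos hapos; linarith [h1.1]
  have hωn : ‖ω‖ = 1 := by
    have h1 : ‖ω‖ ^ 2 = 1 := by
      rw [← normSq_eq_norm_sq, normSq_apply]
      simp only [hω]
      linarith
    have h2 : 0 ≤ ‖ω‖ := norm_nonneg _
    nlinarith
  have hgn : ∀ w : ℂ, 0 ≤ w.re → ‖g w‖ ^ 2 = ‖w + η‖ := by
    intro w hw
    obtain ⟨-, h1⟩ := sqrt_re_pos (hre w hw)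
    have h2 : ‖(w + (η : ℂ)) ^ (2⁻¹ : ℂ)‖ ^ 2 = ‖w + η‖ := by
      rw [← norm_pow, h1]
    simp only [hg]
    rw [norm_mul, hωn, one_mul, h2]
  have hgd : DifferentiableOn ℂ g {w | 0 ≤ w.re} := by
    intro w hw
    have h1 : DifferentiableAt ℂ (fun w : ℂ => w + (η : ℂ)) w := by fun_prop
    have h2 : DifferentiableAt ℂ (fun w : ℂ => (w + (η : ℂ)) ^ (2⁻¹ : ℂ)) w :=
      h1.cpow_const (hgslit w hw)
    exact (h2.const_mul ω).differentiableWithinAt
  have hFd : DifferentiableOn ℂ (fun w => P (g w)) {w | 0 ≤ w.re} :=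
    hP.comp hgd (fun w hw => hgq w hw)
  have hFb : ∀ w : ℂ, 0 ≤ w.re → ‖P (g w)‖ ≤ C * Real.exp (-c * ‖w‖) := by
    intro w hw
    refine (hb _ (hgq w hw).1 (hgq w hw).2).trans ?_
    apply mul_le_mul_of_nonneg_left _ hC
    apply Real.exp_le_exp.2
    rw [hgn w hw]
    have h1 : ‖w‖ ≤ ‖w + η‖ := by
      apply le_of_sq_le_sq _ (norm_nonneg _)
      rw [← normSq_eq_norm_sq, ← normSq_eq_norm_sq, normSq_apply, normSq_apply]
      simp only [add_re, ofReal_re, add_im, ofReal_im, add_zero]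
      nlinarith
    nlinarith
  have hzero := half_zero hc hFd hFb (W - η) (by
    simp only [sub_re, ofReal_re]; linarith)
  -- `g (W - η) = z`
  set s : ℂ := ⟨a * (z.re + z.im), a * (z.im - z.re)⟩ with hs
  have hs2 : s ^ 2 = W := by
    apply Complex.ext
    · rw [hWre, sq, mul_re]
      simp only [hs]
      nlinarith [ha2]
    · simp only [hW, hs, sq, mul_im, mul_re, neg_re, I_re, neg_im, I_im]
      nlinarith [ha2]
  have hsr : 0 < s.re := by
    simp only [hs]; positivity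
  have hgz : g (W - η) = z := by
    have h1 : W ^ (2⁻¹ : ℂ) = s := by rw [← hs2]; exact sq_cpow_two_inv hsr
    simp only [hg, sub_add_cancel, h1]
    apply Complex.ext
    · simp only [hω, hs, mul_re]
      nlinarith [ha2]
    · simp only [hω, hs, mul_im]
      nlinarith [ha2]
  rw [hgz] at hzero
  exact hzero

/-- Sector form: a translated and rotated quadrant. -/
theorem sector_zero {P : ℂ → ℂ} {C c : ℝ} (hc : 0 < c) {z0 ω : ℂ} (hω : ‖ω‖ = 1)
    (hP : DifferentiableOn ℂ P {z | ∃ u : ℂ, 0 < u.re ∧ 0 < u.im ∧ z = z0 + ω * u})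
    (hb : ∀ u : ℂ, 0 < u.re → 0 < u.im →
      ‖P (z0 + ω * u)‖ ≤ C * Real.exp (-c * ‖z0 + ω * u‖ ^ 2)) :
    ∀ u : ℂ, 0 < u.re → 0 < u.im → P (z0 + ω * u) = 0 := by
  have hC : 0 ≤ C := by
    have h := hb (1 + I) (by simp) (by simp)
    have h2 : 0 ≤ ‖P (z0 + ω * (1 + I))‖ := norm_nonneg _
    by_contra hneg
    rw [not_le] at hneg
    have h3 : C * Real.exp (-c * ‖(z0 + ω * (1 + I) : ℂ)‖ ^ 2) < 0 :=
      mul_neg_of_neg_of_pos hneg (Real.exp_pos _)
    linarith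
  have hd : DifferentiableOn ℂ (fun u => P (z0 + ω * u)) {u | 0 < u.re ∧ 0 < u.im} := by
    apply hP.comp
    · intro u _
      apply DifferentiableAt.differentiableWithinAt
      fun_prop
    · intro u hu
      exact ⟨u, hu.1, hu.2, rfl⟩
  refine quad_zero (P := fun u => P (z0 + ω * u)) (C := C * Real.exp (c * ‖z0‖ ^ 2))
    (c := c / 2) (by positivity) hd ?_
  intro u h1 h2
  refine (hb u h1 h2).trans ?_
  rw [mul_assoc, ← Real.exp_add]
  apply mul_le_mul_of_nonneg_left _ hC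
  apply Real.exp_le_exp.2
  have h3 : ‖u‖ ≤ ‖z0 + ω * u‖ + ‖z0‖ := by
    have h4 : ‖ω * u‖ = ‖u‖ := by rw [norm_mul, hω, one_mul]
    rw [← h4]
    calc ‖ω * u‖ = ‖(z0 + ω * u) - z0‖ := by congr 1; ring
      _ ≤ _ := norm_sub_le _ _
  have h5 : ‖u‖ ^ 2 ≤ 2 * ‖z0 + ω * u‖ ^ 2 + 2 * ‖z0‖ ^ 2 := by
    have h6 : ‖u‖ ^ 2 ≤ (‖z0 + ω * u‖ + ‖z0‖) ^ 2 :=
      pow_le_pow_left₀ (norm_nonneg _) h3 2
    nlinarith [sq_nonneg (‖z0 + ω * u‖ - ‖z0‖)]
  nlinarith

end Pool.Agent.G3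

end
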