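import Mathlib

/-! The parts of this file: G3.R.DDefs, H17.AhlforsGlobal, H17.EntireRing, H62.EL.Dyn. -/

section

/-!
# G3 R DDefs: divided differences, definitions

`dd m σ f = f [σ 0, …, σ m]`, the divided difference of order `m` of the function `f` of a real variable, for the distinct nodes `σ 0, …, σ m`.
-/

set_option autoImplicit false

open Finset

namespace Pool.Agent.G3.R

/-- the weight of the node `σ i` in the divided difference with the nodes `σ 0, …, σ m` -/
noncomputable def dw (m : ℕ) (σ : ℕ → ℝ) (i : ℕ) : ℝ := ∏ j ∈ (range (m + 1)).erase i, (σ i - σ j)⁻¹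

/-- the divided difference `f [σ 0, …, σ m]` -/
noncomputable def dd {E : Type*} [AddCommGroup E] [Module ℂ E] (m : ℕ) (σ : ℕ → ℝ) (f : ℝ → E) : E :=
  ∑ i ∈ range (m + 1), ((dw m σ i : ℝ) : ℂ) • f (σ i)

/-- distinct nodes `σ 0, …, σ m` of absolute value at most `r` -/
structure Nod (m : ℕ) (σ : ℕ → ℝ) (r : ℝ) : Prop where
  inj : ∀ i ≤ m, ∀ j ≤ m, σ i = σ j → i = j
  le : ∀ i ≤ m, |σ i| ≤ r

theorem Nod.mono {m m' : ℕ} {σ : ℕ → ℝ} {r r' : ℝ} (h : Nod m σ r) (hm : m' ≤ m) (hr : r ≤ r') : Nod m' σ r' :=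
  ⟨fun i hi j hj => h.inj i (hi.trans hm) j (hj.trans hm), fun i hi => (h.le i (hi.trans hm)).trans hr⟩

/-- the Newton polynomial of degree `m` which interpolates `f` at `σ 0, …, σ m` -/
noncomputable def np {E : Type*} [AddCommGroup E] [Module ℂ E] (m : ℕ) (σ : ℕ → ℝ) (f : ℝ → E) (ζ : ℂ) : E :=
  ∑ j ∈ range (m + 1), (∏ i ∈ range j, (ζ - (σ i : ℂ))) • dd j σ f

end Pool.Agent.G3.R

end

section

/-!
# A vanishing theorem of Ahlfors–Schwarz type

`r i` are entire functions (without identically vanishing ones), `U = ∑ |r i|`, and `V` is the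
variance of the logarithmic derivatives `r i' / r i` with weights `|r i| / U`.  If an entire
function `g` satisfies `|g|^2 U^a ≤ C ∏ |r i| V^ρ` with `a > 0`, and `V` is locally bounded, then
`g = 0`.
-/

open Topology Filter Complex

namespace Pool.Agent.H17

section

variable {ι : Type} [Fintype ι]

/-- Zeros of a nonzero entire function are isolated. -/
lemma eventually_ne_zero_of_entire {f : ℂ → ℂ} (hf : Differentiable ℂ f) (h0 : ∃ z, f z ≠ 0)
    (s : ℂ) : ∀ᶠ z in 𝓝[≠] s, f z ≠ 0 := by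
  rcases (hf.analyticAt s).eventually_eq_zero_or_eventually_ne_zero with h | h
  · exfalso
    obtain ⟨z, hz⟩ := h0
    have hana : AnalyticOnNhd ℂ f Set.univ := fun z _ => hf.analyticAt z
    exact hz (hana.eqOn_zero_of_preconnected_of_eventuallyEq_zero isPreconnected_univ
      (Set.mem_univ s) h (Set.mem_univ z))
  · exact h

end

end Pool.Agent.H17

end

section

/-!
# The ring of entire functions
-/

open Polynomial Topology Filter

namespace Pool.Agent.H17

/-- The algebra of entire functions. -/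
def entire : Subalgebra ℂ (ℂ → ℂ) where
  carrier := {f | Differentiable ℂ f}
  mul_mem' hf hg := hf.mul hg
  add_mem' hf hg := hf.add hg
  algebraMap_mem' c := differentiable_const c

/-- Entire functions. -/
abbrev EntFun : Type := ↥entire

namespace EntFun

lemma diff (f : EntFun) : Differentiable ℂ (f : ℂ → ℂ) := f.2

lemma analyticAt (f : EntFun) (z : ℂ) : AnalyticAt ℂ (f : ℂ → ℂ) z := f.2.analyticAt z

@[ext] lemma ext' {f g : EntFun} (h : ∀ z, (f : ℂ → ℂ) z = (g : ℂ → ℂ) z) : f = g :=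
  Subtype.ext (funext h)

lemma ne_zero_iff (f : EntFun) : f ≠ 0 ↔ ∃ z, (f : ℂ → ℂ) z ≠ 0 := by
  constructor
  · intro h
    by_contra h1
    push Not at h1
    exact h (ext' fun z => by simpa using h1 z)
  · rintro ⟨z, hz⟩ rfl
    exact hz rfl

instance : Nontrivial EntFun := ⟨⟨0, 1, fun h => by
  have := congrArg (fun f : EntFun => (f : ℂ → ℂ) 0) h
  simp at this⟩⟩

instance : NoZeroDivisors EntFun := ⟨by
  intro f g hfg
  by_contra h
  push Not at h
  have h1 := eventually_ne_zero_of_entire f.2 ((ne_zero_iff f).mp h.1) 0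
  have h2 := eventually_ne_zero_of_entire g.2 ((ne_zero_iff g).mp h.2) 0
  obtain ⟨z, hz1, hz2⟩ := (h1.and h2).exists
  have h3 : (f * g : EntFun).1 z = 0 := by rw [hfg]; rfl
  have h4 : (f : ℂ → ℂ) z * (g : ℂ → ℂ) z = 0 := h3
  rcases mul_eq_zero.mp h4 with h | h
  · exact hz1 h
  · exact hz2 h⟩

instance : IsDomain EntFun := NoZeroDivisors.to_isDomain _

/-- Evaluation at a point. -/
def ev (z : ℂ) : EntFun →+* ℂ := (Pi.evalRingHom (fun _ : ℂ => ℂ) z).comp entire.subtype

@[simp] lemma ev_apply (z : ℂ) (f : EntFun) : ev z f = (f : ℂ → ℂ) z := rfl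

@[simp] lemma ev_algebraMap (z c : ℂ) : ev z (algebraMap ℂ EntFun c) = c := rfl

@[simp] lemma coe_algebraMap (c z : ℂ) : ((algebraMap ℂ EntFun c : EntFun) : ℂ → ℂ) z = c := rfl

open Differential

/-- The coordinate function centred at `s`. -/
def coord (s : ℂ) : EntFun := ⟨fun z => z - s, by
  change Differentiable ℂ fun z : ℂ => z - s
  fun_prop⟩

@[simp] lemma coord_apply (s z : ℂ) : ((coord s : EntFun) : ℂ → ℂ) z = z - s := rfl

lemma coord_ne_zero (s : ℂ) : coord s ≠ 0 := (ne_zero_iff _).mpr ⟨s + 1, by simp⟩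

/-- Division by the coordinate function. -/
lemma exists_coord_mul {f : EntFun} {s : ℂ} (h : (f : ℂ → ℂ) s = 0) : ∃ g, f = coord s * g := by
  refine ⟨⟨dslope (f : ℂ → ℂ) s, ?_⟩, ?_⟩
  · intro z
    have h1 : DifferentiableOn ℂ (dslope (f : ℂ → ℂ) s) Set.univ :=
      (Complex.differentiableOn_dslope Filter.univ_mem).mpr f.diff.differentiableOn
    exact (h1 z (Set.mem_univ z)).differentiableAt Filter.univ_mem
  · ext z
    have h2 := sub_smul_dslope (f : ℂ → ℂ) s z
    rw [h, sub_zero, smul_eq_mul] at h2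
    exact h2.symm

/-- The order of a nonzero entire function is finite. -/
lemma order_ne_top {f : EntFun} (hf : f ≠ 0) (s : ℂ) : analyticOrderAt (f : ℂ → ℂ) s ≠ ⊤ := by
  intro h
  rw [analyticOrderAt_eq_top] at h
  have h1 := eventually_ne_zero_of_entire f.2 ((ne_zero_iff f).mp hf) s
  obtain ⟨z, hz1, hz2⟩ := ((h.filter_mono nhdsWithin_le_nhds).and h1).exists
  exact hz2 hz1

lemma order_mul (f g : EntFun) (s : ℂ) : analyticOrderAt ((f * g : EntFun) : ℂ → ℂ) s =
    analyticOrderAt (f : ℂ → ℂ) s + analyticOrderAt (g : ℂ → ℂ) s :=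
  analyticOrderAt_mul (f.analyticAt s) (g.analyticAt s)

lemma order_pow (f : EntFun) (n : ℕ) (s : ℂ) : analyticOrderAt ((f ^ n : EntFun) : ℂ → ℂ) s =
    n * analyticOrderAt (f : ℂ → ℂ) s := by
  have h : ((f ^ n : EntFun) : ℂ → ℂ) = (f : ℂ → ℂ) ^ n := rfl
  rw [h, analyticOrderAt_pow (f.analyticAt s), nsmul_eq_mul]

lemma order_prod {ι : Type*} (S : Finset ι) (f : ι → EntFun) (s : ℂ) :
    analyticOrderAt ((∏ i ∈ S, f i : EntFun) : ℂ → ℂ) s =
      ∑ i ∈ S, analyticOrderAt ((f i : EntFun) : ℂ → ℂ) s := by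
  classical
  induction S using Finset.induction_on with
  | empty =>
    rw [Finset.prod_empty, Finset.sum_empty, analyticOrderAt_eq_zero]
    right
    simp
  | insert a S ha ih => rw [Finset.prod_insert ha, Finset.sum_insert ha, order_mul, ih]

lemma order_eq_zero_iff (f : EntFun) (s : ℂ) :
    analyticOrderAt (f : ℂ → ℂ) s = 0 ↔ (f : ℂ → ℂ) s ≠ 0 :=
  (f.analyticAt s).analyticOrderAt_eq_zero

lemma order_coord (s : ℂ) : analyticOrderAt ((coord s : EntFun) : ℂ → ℂ) s = 1 :=
  analyticOrderAt_id_sub_const_self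

end EntFun

open EntFun

end Pool.Agent.H17

end

section

/-!
# EL Dyn: the abstract dynamical situation

`S` is a compact, `Λ`-invariant family of maps `ℂ \ B → Y` (maps `ℂ → Y` whose values on `B` do not matter), `B` is a discrete
`Λ`-invariant set.  `N z y y'` measures the distance of two near points `y`, `y'` over `z`; it may vanish for different points, but
only near the closed set `Zr`.
-/

set_option autoImplicit false

open Topology Filter Metric

namespace Pool.Agent.H62.EL

/-- the points of distance at least `δ` from `B` -/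
def Gd (B : Set ℂ) (δ : ℝ) : Set ℂ := {z | ∀ b ∈ B, δ ≤ ‖z - b‖}

/-- a discrete `Λ`-invariant set -/
structure BadSet (B : Set ℂ) (Λ : AddSubgroup ℂ) (δ : ℝ) : Prop where
  pos : 0 < δ
  inv : ∀ b ∈ B, ∀ l ∈ Λ, b + l ∈ B
  sep : ∀ b ∈ B, ∀ b' ∈ B, b ≠ b' → 8 * δ ≤ ‖b - b'‖

end Pool.Agent.H62.EL

end
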