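import Pool.Agent.H94.G4T.M01
import Pool.Agent.H94.G4T.M12

/-! The parts of this file: G3.A.Ul, G3.C.LemmaU, G4.A.Lls, H17R.Defs, H17BP.Final, H36.BP.OrdDefs. -/

section

/-!
# G3 A Ul: limits of bounded holomorphic functions along a filter

* `ul_lip` (helper80), `ul_lipc`: uniformly bounded holomorphic functions on a disc are uniformly Lipschitz near every point.
* `ul_hol`: a pointwise limit (along any filter) of uniformly bounded holomorphic functions on a disc is holomorphic.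
* `ul_diff`: along an ultrafilter the limit exists, is holomorphic, has the same bound, and `g n (w n) → K z` if `w n → z`.
-/

set_option autoImplicit false

namespace Pool.Agent.G3.A

open Complex Filter Topology Metric Set

/-- Lipschitz bound -/
theorem ul_lipc {E : Type*} [NormedAddCommGroup E] [NormedSpace ℂ E] {f : ℂ → E} {c x : ℂ} {r M δ : ℝ} (hδ : 0 < δ)
    (hd : DifferentiableOn ℂ f (ball c r)) (hb : ∀ z ∈ ball c r, ‖f z‖ ≤ M) (hs : closedBall x (2 * δ) ⊆ ball c r) :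
    ∀ y ∈ closedBall x δ, ∀ w ∈ closedBall x δ, ‖f y - f w‖ ≤ (M / δ + 1) * ‖y - w‖ := by
  intro y hy w hw
  have hder : ∀ v ∈ closedBall x δ, ‖deriv f v‖ ≤ M / δ + 1 := by
    intro v hv
    have hsub : closedBall v δ ⊆ ball c r := by
      refine (closedBall_subset_closedBall' ?_).trans hs
      rw [mem_closedBall] at hv
      linarith
    have h1 : ‖deriv f v‖ ≤ M / δ := by
      refine Complex.norm_deriv_le_of_forall_mem_sphere_norm_le hδ ?_ fun t ht => hb t (hsub (sphere_subset_closedBall ht))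
      exact (hd.mono hsub).diffContOnCl_ball (le_refl _)
    linarith
  have hdiff : ∀ v ∈ closedBall x δ, DifferentiableAt ℂ f v := fun v hv =>
    hd.differentiableAt (isOpen_ball.mem_nhds (hs (closedBall_subset_closedBall (by linarith) hv)))
  exact (convex_closedBall x δ).norm_image_sub_le_of_norm_deriv_le hdiff hder hw hy

theorem exists_two_ball {c x : ℂ} {r : ℝ} (hx : x ∈ ball c r) : ∃ δ : ℝ, 0 < δ ∧ closedBall x (2 * δ) ⊆ ball c r := by
  obtain ⟨δ, hδ, h⟩ := Metric.isOpen_iff.1 isOpen_ball x hx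
  exact ⟨δ / 4, by positivity, (closedBall_subset_ball (by linarith)).trans h⟩

/-- a pointwise limit of uniformly bounded holomorphic functions is holomorphic (any filter) -/
theorem ul_hol {E : Type*} [NormedAddCommGroup E] [NormedSpace ℂ E] [CompleteSpace E] {ι : Type*} {U : Filter ι} [U.NeBot] {f : ι → ℂ → E}
    {K : ℂ → E} {c : ℂ} {r M : ℝ} (hf : ∀ᶠ n in U, DifferentiableOn ℂ (f n) (ball c r) ∧ ∀ z ∈ ball c r, ‖f n z‖ ≤ M)
    (hK : ∀ z ∈ ball c r, Tendsto (fun n => f n z) U (𝓝 (K z))) : DifferentiableOn ℂ K (ball c r) := by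
  have hloc : TendstoLocallyUniformlyOn f K U (ball c r) := by
    rw [Metric.tendstoLocallyUniformlyOn_iff]
    intro ε hε x hx
    obtain ⟨δ, hδ, hδs⟩ := exists_two_ball hx
    have hM : 0 ≤ M := by
      obtain ⟨n, hn⟩ := hf.exists
      exact (norm_nonneg _).trans (hn.2 x hx)
    set L : ℝ := M / δ + 1 with hL
    have hLpos : 0 < L := by positivity
    have hlip : ∀ᶠ n in U, ∀ y ∈ closedBall x δ, ∀ w ∈ closedBall x δ, ‖f n y - f n w‖ ≤ L * ‖y - w‖ := by
      filter_upwards [hf] with n hn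
      exact ul_lipc hδ hn.1 hn.2 hδs
    have hlipK : ∀ y ∈ closedBall x δ, ∀ w ∈ closedBall x δ, ‖K y - K w‖ ≤ L * ‖y - w‖ := by
      intro y hy w hw
      have h1 : Tendsto (fun n => ‖f n y - f n w‖) U (𝓝 ‖K y - K w‖) :=
        ((hK y (hδs (closedBall_subset_closedBall (by linarith) hy))).sub (hK w (hδs (closedBall_subset_closedBall (by linarith) hw)))).norm
      exact le_of_tendsto h1 (hlip.mono fun n hn => hn y hy w hw)
    obtain ⟨t, htsub, htf, htc⟩ := (isCompact_closedBall x δ).finite_cover_balls (e := ε / (3 * L)) (by positivity)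
    have hnet : ∀ᶠ n in U, ∀ p ∈ t, ‖K p - f n p‖ < ε / 3 := by
      rw [eventually_all_finite htf]
      intro p hp
      have h1 := hK p (hδs (closedBall_subset_closedBall (by linarith) (htsub hp)))
      have h2 := Metric.tendsto_nhds.1 h1 (ε / 3) (by positivity)
      filter_upwards [h2] with n hn
      rw [← dist_eq_norm, dist_comm]
      exact hn
    refine ⟨closedBall x δ, mem_nhdsWithin_of_mem_nhds (closedBall_mem_nhds x hδ), ?_⟩
    filter_upwards [hlip, hnet] with n h1 h2 y hy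
    obtain ⟨p, hp, hyp⟩ := mem_iUnion₂.1 (htc hy)
    have hpc := htsub hp
    rw [dist_eq_norm]
    have h3 : ‖y - p‖ < ε / (3 * L) := by rwa [← dist_eq_norm]
    have h4 : L * ‖y - p‖ < ε / 3 := by
      calc L * ‖y - p‖ < L * (ε / (3 * L)) := by gcongr
        _ = ε / 3 := by field_simp
    have h5 := hlipK y hy p hpc
    have h6 := h1 p hpc y hy
    rw [norm_sub_rev p y] at h6
    have h7 := h2 p hp
    calc ‖K y - f n y‖ = ‖(K y - K p) + (K p - f n p) + (f n p - f n y)‖ := by congr 1; abel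
      _ ≤ ‖(K y - K p) + (K p - f n p)‖ + ‖f n p - f n y‖ := norm_add_le _ _
      _ ≤ ‖K y - K p‖ + ‖K p - f n p‖ + ‖f n p - f n y‖ := by gcongr; exact norm_add_le _ _
      _ < ε := by linarith
  exact hloc.differentiableOn (hf.mono fun n hn => hn.1) isOpen_ball

/-- limits along an ultrafilter -/
theorem ul_diff {E : Type*} [NormedAddCommGroup E] [NormedSpace ℂ E] [FiniteDimensional ℂ E] {ι : Type*} {𝒰 : Ultrafilter ι} {g : ι → ℂ → E}
    {z₀ : ℂ} {r C : ℝ} (h : ∀ᶠ n in (𝒰 : Filter ι), DifferentiableOn ℂ (g n) (ball z₀ r) ∧ ∀ z ∈ ball z₀ r, ‖g n z‖ ≤ C) :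
    ∃ K : ℂ → E, DifferentiableOn ℂ K (ball z₀ r) ∧ (∀ z ∈ ball z₀ r, ‖K z‖ ≤ C) ∧
      ∀ z ∈ ball z₀ r, ∀ w : ι → ℂ, Tendsto w (𝒰 : Filter ι) (𝓝 z) → Tendsto (fun n => g n (w n)) (𝒰 : Filter ι) (𝓝 (K z)) := by
  classical
  have : ProperSpace E := FiniteDimensional.proper_rclike ℂ E
  have : CompleteSpace E := FiniteDimensional.complete ℂ E
  have hlim : ∀ z ∈ ball z₀ r, ∃ v : E, Tendsto (fun n => g n z) (𝒰 : Filter ι) (𝓝 v) := by
    intro z hz
    have h5 : ∀ᶠ n in (𝒰 : Filter ι), g n z ∈ closedBall (0 : E) C := by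
      filter_upwards [h] with n hn
      rw [mem_closedBall_zero_iff]
      exact hn.2 z hz
    obtain ⟨v, -, hv⟩ := (isCompact_closedBall (0 : E) C).ultrafilter_le_nhds (𝒰.map fun n => g n z) (by
      rw [Ultrafilter.coe_map, le_principal_iff]
      exact h5)
    exact ⟨v, hv⟩
  choose! K hK using hlim
  refine ⟨K, ul_hol h hK, fun z hz => le_of_tendsto (hK z hz).norm (h.mono fun n hn => hn.2 z hz), ?_⟩
  intro z hz w hw
  obtain ⟨δ, hδ, hδs⟩ := exists_two_ball hz
  have h1 : Tendsto (fun n => g n (w n) - g n z) (𝒰 : Filter ι) (𝓝 0) := by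
    rw [tendsto_zero_iff_norm_tendsto_zero]
    have h2 : Tendsto (fun n => (C / δ + 1) * ‖w n - z‖) (𝒰 : Filter ι) (𝓝 0) := by
      have h3 : Tendsto (fun n => ‖w n - z‖) (𝒰 : Filter ι) (𝓝 0) := by
        rw [← tendsto_iff_norm_sub_tendsto_zero]
        exact hw
      simpa using h3.const_mul (C / δ + 1)
    refine squeeze_zero' (Eventually.of_forall fun n => norm_nonneg _) ?_ h2
    filter_upwards [h, hw.eventually (closedBall_mem_nhds z hδ)] with n hn hwn
    exact ul_lipc hδ hn.1 hn.2 hδs (w n) hwn z (mem_closedBall_self hδ.le)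
  have h3 := h1.add (hK z hz)
  simpa using h3

end Pool.Agent.G3.A

end

section

/-!
# G3 C LemmaU: the uniqueness lemma on a half plane

`HP ω h` is the half plane `{z | h < Im (ω̄ z)}`.  `hp_zero`: if `L` is continuous on the half plane, its means over the circles of radius `R₀` exceed the value at the
centre by at least `c > 0`, `P` is holomorphic and `|P| e^L ≤ C`, then `P = 0`.
-/

set_option autoImplicit false

open Topology Filter Metric

namespace Pool.Agent.G3.C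

/-- the half plane `{z | h < Im (ω̄ z)}` -/
def HP (ω : ℂ) (h : ℝ) : Set ℂ := {z | h < ((starRingEnd ℂ) ω * z).im}

/-- sub-mean inequality with a continuous majorant -/
theorem log_norm_le_avg {P : ℂ → ℂ} {c : ℂ} {r : ℝ} (hr : 0 < r) (hP : AnalyticOnNhd ℂ P (closedBall c r)) (hc : P c ≠ 0) {g : ℂ → ℝ}
    (hg : ContinuousOn g (sphere c r)) (hle : ∀ z ∈ sphere c r, ‖P z‖ ≤ Real.exp (g z)) :
    Real.log ‖P c‖ ≤ Real.circleAverage g c r := by
  have har : |r| = r := abs_of_pos hr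
  have hana : AnalyticOnNhd ℂ P (closedBall c |r|) := by rwa [har]
  have h1 : Real.log ‖P c‖ ≤ Real.circleAverage (fun z => Real.log ‖P z‖) c r := by
    rw [AnalyticOnNhd.circleAverage_log_norm hr.ne' hana hc]
    have h1 : 0 ≤ ∑ᶠ u, (MeromorphicOn.divisor P (closedBall c |r|) u : ℝ) * Real.log (r * ‖c - u‖⁻¹) := by
      apply finsum_nonneg
      intro u
      by_cases hu : u ∈ closedBall c |r|
      · apply mul_nonneg
        · have := MeromorphicOn.AnalyticOnNhd.divisor_nonneg hana u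
          exact_mod_cast this
        · by_cases huc : u = c
          · simp [huc]
          · apply Real.log_nonneg
            have h2 : 0 < ‖c - u‖ := by
              rw [norm_pos_iff, sub_ne_zero]
              exact fun h => huc h.symm
            have h3 : ‖c - u‖ ≤ r := by
              rw [mem_closedBall, dist_eq_norm, abs_of_pos hr, norm_sub_rev] at hu
              exact hu
            rw [← div_eq_mul_inv, le_div_iff₀ h2]
            linarith only [h3]
      · have : MeromorphicOn.divisor P (closedBall c |r|) u = 0 := Function.locallyFinsuppWithin.apply_eq_zero_of_notMem _ hu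
        simp [this]
    linarith only [h1]
  refine h1.trans ?_
  set f₂ : ℂ → ℝ := fun z => if P z = 0 then g z else Real.log ‖P z‖ with hf₂
  have hcod : (fun z => Real.log ‖P z‖) =ᶠ[codiscreteWithin (sphere c |r|)] f₂ := by
    rcases hana.eqOn_zero_or_eventually_ne_zero_of_preconnected (convex_closedBall c |r|).isPreconnected with h | h
    · exact absurd (h (mem_closedBall_self (abs_nonneg r))) hc
    · have h' : ∀ᶠ x in codiscreteWithin (sphere c |r|), P x ≠ 0 := h.filter_mono (Filter.codiscreteWithin_mono sphere_subset_closedBall)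
      filter_upwards [h'] with z hz
      simp [hf₂, hz]
  have hint1 : CircleIntegrable (fun z => Real.log ‖P z‖) c r := by
    apply MeromorphicOn.circleIntegrable_log_norm
    intro z hz
    exact (hana z (sphere_subset_closedBall hz)).meromorphicAt
  have hint2 : CircleIntegrable f₂ c r := hint1.congr_codiscreteWithin hcod
  have hint : CircleIntegrable g c r := hg.circleIntegrable hr.le
  rw [Real.circleAverage_congr_codiscreteWithin hcod hr.ne']
  apply Real.circleAverage_mono hint2 hint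
  intro z hz
  rw [har] at hz
  by_cases hz0 : P z = 0
  · simp [hf₂, hz0]
  · simp only [hf₂, hz0, if_false]
    rw [Real.log_le_iff_le_exp (norm_pos_iff.mpr hz0)]
    exact hle z hz

end Pool.Agent.G3.C

end

section

/-!
# G4 A Lls: limits of families of locally defined holomorphic functions

`E ⊆ H` are closed discrete sets; `g z₀ n` is holomorphic on `ball z₀ (r z₀)`, the functions agree in the limit on the overlaps, and they are bounded near the points off `H`.  Then they converge along the ultrafilter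
to a function `K`, holomorphic off `E`.

Proof.  `lls_loc`: for `z ∈ ball z₀ (r z₀)` choose a small circle around `z` which does not meet `H` (finitely many points in a closed disc); the compact circle has a uniform bound, by the maximum principle
also the disc; `ul_diff`.  `K z` is the limit of `g z n z`.
-/

set_option autoImplicit false

open Topology Filter Metric

namespace Pool.Agent.G4.A

private theorem lls_fin {H : Set ℂ} (hH : ∀ z : ℂ, ∀ᶠ x in 𝓝[≠] z, x ∉ H) {K : Set ℂ} (hK : IsCompact K) : (H ∩ K).Finite := by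
  by_contra h
  obtain ⟨x, -, hx⟩ := Set.Infinite.exists_accPt_of_subset_isCompact h hK Set.inter_subset_right
  rw [accPt_iff_frequently] at hx
  have h1 := hH x
  rw [eventually_nhdsWithin_iff] at h1
  obtain ⟨w, ⟨hw1, hw2⟩, hw3⟩ := (hx.and_eventually h1).exists
  exact hw3 hw1 hw2.1

/-- a circle which avoids `H` -/
private theorem lls_circle {H : Set ℂ} (hH : ∀ z : ℂ, ∀ᶠ x in 𝓝[≠] z, x ∉ H) (z : ℂ) {s : ℝ} (hs : 0 < s) :
    ∃ t : ℝ, 0 < t ∧ t < s ∧ ∀ x, dist x z = t → x ∉ H := by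
  have hfin := lls_fin hH (isCompact_closedBall z s)
  have h1 : ((fun x : ℂ => dist x z) '' (H ∩ closedBall z s)).Countable := (hfin.image _).countable
  obtain ⟨t, htI, htn⟩ := (h1.dense_compl ℝ).inter_open_nonempty (Set.Ioo 0 s) isOpen_Ioo (Set.nonempty_Ioo.2 hs)
  refine ⟨t, htI.1, htI.2, fun x hx hxH => htn ⟨x, ⟨hxH, ?_⟩, hx⟩⟩
  rw [mem_closedBall, hx]
  exact htI.2.le

private theorem lls_loc {ι : Type*} {𝒰 : Ultrafilter ι} {H : Set ℂ} (hH : ∀ z : ℂ, ∀ᶠ x in 𝓝[≠] z, x ∉ H) {z₀ : ℂ} {r : ℝ} {g : ι → ℂ → ℂ}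
    (h1 : ∀ᶠ n in (𝒰 : Filter ι), DifferentiableOn ℂ (g n) (ball z₀ r))
    (h3 : ∀ x ∈ ball z₀ r, x ∉ H → ∃ t C : ℝ, 0 < t ∧ ∀ᶠ n in (𝒰 : Filter ι), ∀ x' ∈ ball x t, ‖g n x'‖ ≤ C) {z : ℂ} (hz : z ∈ ball z₀ r) :
    ∃ (δ : ℝ) (K : ℂ → ℂ), 0 < δ ∧ ball z δ ⊆ ball z₀ r ∧ DifferentiableOn ℂ K (ball z δ) ∧
      ∀ x ∈ ball z δ, ∀ w : ι → ℂ, Tendsto w (𝒰 : Filter ι) (𝓝 x) → Tendsto (fun n => g n (w n)) (𝒰 : Filter ι) (𝓝 (K x)) := by
  obtain ⟨s, hs, hsub⟩ := Metric.isOpen_iff.1 isOpen_ball z hz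
  obtain ⟨t, ht, hts, htH⟩ := lls_circle hH z hs
  have hcb : closedBall z t ⊆ ball z₀ r := (closedBall_subset_ball hts).trans hsub
  -- the bound on the circle
  have hbd : ∃ C : ℝ, ∀ᶠ n in (𝒰 : Filter ι), ∀ x ∈ sphere z t, ‖g n x‖ ≤ C := by
    refine (isCompact_sphere z t).induction_on (p := fun T => ∃ C : ℝ, ∀ᶠ n in (𝒰 : Filter ι), ∀ x ∈ T, ‖g n x‖ ≤ C) ?_ ?_ ?_ ?_
    · exact ⟨0, Eventually.of_forall fun n x hx => absurd hx (Set.notMem_empty x)⟩
    · rintro T T' hTT ⟨C, hC⟩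
      exact ⟨C, hC.mono fun n hn x hx => hn x (hTT hx)⟩
    · rintro T T' ⟨C, hC⟩ ⟨C', hC'⟩
      refine ⟨max C C', ?_⟩
      filter_upwards [hC, hC'] with n h4 h5 x hx
      rcases hx with hx | hx
      · exact (h4 x hx).trans (le_max_left _ _)
      · exact (h5 x hx).trans (le_max_right _ _)
    · intro x hx
      obtain ⟨t', C, ht', hC⟩ := h3 x (hcb (sphere_subset_closedBall hx)) (htH x (mem_sphere.1 hx))
      exact ⟨ball x t', mem_nhdsWithin_of_mem_nhds (ball_mem_nhds x ht'), C, hC⟩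
  obtain ⟨C, hC⟩ := hbd
  have hall : ∀ᶠ n in (𝒰 : Filter ι), DifferentiableOn ℂ (g n) (ball z t) ∧ ∀ x ∈ ball z t, ‖g n x‖ ≤ C := by
    filter_upwards [h1, hC] with n hn1 hn2
    refine ⟨hn1.mono (ball_subset_closedBall.trans hcb), fun x hx => ?_⟩
    have hcl : DiffContOnCl ℂ (g n) (ball z t) := by
      refine DifferentiableOn.diffContOnCl ?_
      rw [closure_ball z ht.ne']
      exact hn1.mono hcb
    refine Complex.norm_le_of_forall_mem_frontier_norm_le isBounded_ball hcl (fun w hw => ?_) (subset_closure hx)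
    rw [frontier_ball z ht.ne'] at hw
    exact hn2 w hw
  obtain ⟨K, hK1, -, hK3⟩ := Pool.Agent.G3.A.ul_diff hall
  exact ⟨t, K, ht, ball_subset_closedBall.trans hcb, hK1, hK3⟩

theorem lls {ι : Type*} {𝒰 : Ultrafilter ι} {E H : Set ℂ} (hEH : E ⊆ H) (hE : IsClosed E) (hH : ∀ z : ℂ, ∀ᶠ x in 𝓝[≠] z, x ∉ H) {r : ℂ → ℝ} {g : ℂ → ι → ℂ → ℂ}
    (h1 : ∀ z₀ ∉ E, 0 < r z₀ ∧ ∀ᶠ n in (𝒰 : Filter ι), DifferentiableOn ℂ (g z₀ n) (ball z₀ (r z₀)))
    (h2 : ∀ z₀ ∉ E, ∀ z₁ ∉ E, ∀ ε : ℝ, 0 < ε → ∀ᶠ n in (𝒰 : Filter ι), ∀ x ∈ ball z₀ (r z₀) ∩ ball z₁ (r z₁), ‖g z₀ n x - g z₁ n x‖ ≤ ε)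
    (h3 : ∀ z₀ ∉ E, ∀ x ∈ ball z₀ (r z₀), x ∉ H → ∃ t C : ℝ, 0 < t ∧ ∀ᶠ n in (𝒰 : Filter ι), ∀ x' ∈ ball x t, ‖g z₀ n x'‖ ≤ C) :
    ∃ K : ℂ → ℂ, (∀ z ∉ E, DifferentiableAt ℂ K z) ∧ ∀ z₀ ∉ E, ∀ z ∈ ball z₀ (r z₀), z ∉ E → ∀ w : ι → ℂ, Tendsto w 𝒰 (𝓝 z) → Tendsto (fun n => g z₀ n (w n)) 𝒰 (𝓝 (K z)) := by
  have hloc : ∀ z₀, z₀ ∉ E → ∀ z, z ∈ ball z₀ (r z₀) → ∃ (δ : ℝ) (K : ℂ → ℂ), 0 < δ ∧ ball z δ ⊆ ball z₀ (r z₀) ∧ DifferentiableOn ℂ K (ball z δ) ∧
      ∀ x ∈ ball z δ, ∀ w : ι → ℂ, Tendsto w (𝒰 : Filter ι) (𝓝 x) → Tendsto (fun n => g z₀ n (w n)) (𝒰 : Filter ι) (𝓝 (K x)) := fun z₀ hz₀ z hz =>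
    lls_loc hH (h1 z₀ hz₀).2 (h3 z₀ hz₀) hz
  choose! δ K hδ hsub hKd hKt using hloc
  have hself : ∀ z, z ∉ E → z ∈ ball z (r z) := fun z hz => mem_ball_self (h1 z hz).1
  -- the limits agree
  have hag : ∀ z₀, z₀ ∉ E → ∀ z, z ∈ ball z₀ (r z₀) → z ∉ E → K z₀ z z = K z z z := by
    intro z₀ hz₀ z hz hzE
    have t1 := hKt z₀ hz₀ z hz z (mem_ball_self (hδ z₀ hz₀ z hz)) (fun _ => z) tendsto_const_nhds
    have t2 := hKt z hzE z (hself z hzE) z (mem_ball_self (hδ z hzE z (hself z hzE))) (fun _ => z) tendsto_const_nhds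
    have t3 : Tendsto (fun n => g z₀ n z - g z n z) (𝒰 : Filter ι) (𝓝 0) := by
      rw [Metric.tendsto_nhds]
      intro ε hε
      filter_upwards [h2 z₀ hz₀ z hzE (ε / 2) (half_pos hε)] with n hn
      rw [dist_zero_right]
      have := hn z ⟨hz, hself z hzE⟩
      linarith
    have t4 := tendsto_nhds_unique t3 (t1.sub t2)
    exact (sub_eq_zero.1 t4.symm)
  refine ⟨fun z => K z z z, fun z hz => ?_, fun z₀ hz₀ z hz hzE w hw => ?_⟩
  · have hzz := hself z hz
    have hd : DifferentiableAt ℂ (K z z) z := (hKd z hz z hzz).differentiableAt (ball_mem_nhds z (hδ z hz z hzz))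
    refine hd.congr_of_eventuallyEq ?_
    filter_upwards [ball_mem_nhds z (hδ z hz z hzz), hE.isOpen_compl.mem_nhds hz] with x hx hxE
    have hxz : x ∈ ball z (r z) := hsub z hz z hzz hx
    have t1 := hKt z hz z hzz x hx (fun _ => x) tendsto_const_nhds
    have t2 := hKt z hz x hxz x (mem_ball_self (hδ z hz x hxz)) (fun _ => x) tendsto_const_nhds
    rw [tendsto_nhds_unique t1 t2]
    exact (hag z hz x hxz hxE).symm
  · have h4 := hKt z₀ hz₀ z hz z (mem_ball_self (hδ z₀ hz₀ z hz)) w hw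
    rw [hag z₀ hz₀ z hz hzE] at h4
    exact h4

end Pool.Agent.G4.A

end

section

/-!
# Varieties with a relation between forms: definitions

Locally closed subvarieties of `ℙ^N`, relations between forms on them, and the four properties of
the Green–Griffiths–Lang conjecture with a given exceptional set.
-/

open MvPolynomial Topology Filter
open Pool.Agent.H17 (PN VanishesAt ZariskiClosedIn HolomorphicInto puncturedDisc)

noncomputable section

namespace Pool.Agent.H17R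

variable {N : ℕ}

/-- The points of the zero locus of the homogeneous ideal `P` at which none of the forms `H m`
vanishes. -/
def openVar (P : Ideal (MvPolynomial (Fin (N + 1)) ℂ)) {b : ℕ}
    (H : Fin b → MvPolynomial (Fin (N + 1)) ℂ) : Set (PN N) :=
  {x | (∀ Q ∈ P, ∀ n, Q.IsHomogeneous n → VanishesAt Q x) ∧ ∀ m, ¬ VanishesAt (H m) x}

end Pool.Agent.H17R

end
end

section

/-!
# From the extension theorem for models to projective surfaces
-/

open Topology Filter MvPolynomial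

noncomputable section

namespace Pool.Agent.H17BP

open Pool.Agent.H17 (PN VanishesAt ZariskiClosedIn HolomorphicInto puncturedDisc)
open Pool.Agent.H17R (openVar)

variable {N : ℕ} {P : Ideal (MvPolynomial (Fin (N + 1)) ℂ)}

/-- The projective variety. -/
abbrev variety (P : Ideal (MvPolynomial (Fin (N + 1)) ℂ)) : Set (PN N) :=
  openVar P (Fin.elim0 : Fin 0 → MvPolynomial (Fin (N + 1)) ℂ)

theorem rep_mk_fin {x : Fin (N + 1) → ℂ} (hx : x ≠ 0) :
    ∃ a : ℂ, a ≠ 0 ∧ (Projectivization.mk ℂ x hx).rep = a • x := by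
  obtain ⟨a, ha⟩ := Projectivization.exists_smul_eq_mk_rep ℂ x hx
  exact ⟨a, a.ne_zero, by rw [← ha]; rfl⟩

theorem eval_smul_form {d : ℕ} {Q : MvPolynomial (Fin (N + 1)) ℂ} (hQ : Q.IsHomogeneous d) (c : ℂ)
    (x : Fin (N + 1) → ℂ) : eval (c • x) Q = c ^ d * eval x Q := by
  rw [MvPolynomial.eval_eq', MvPolynomial.eval_eq', Finset.mul_sum]
  apply Finset.sum_congr rfl
  intro m hm
  have hdeg : ∑ i, m i = d := by
    have := hQ (MvPolynomial.mem_support_iff.1 hm)
    rw [Finsupp.weight_apply] at this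
    simpa [Finsupp.sum_fintype] using this
  have h1 : ∏ i, (c • x) i ^ m i = c ^ d * ∏ i, x i ^ m i := by
    rw [← hdeg, ← Finset.prod_pow_eq_pow_sum, ← Finset.prod_mul_distrib]
    exact Finset.prod_congr rfl fun i _ => by simp [mul_pow]
  rw [h1]
  ring

theorem vanishesAt_mk {d : ℕ} {Q : MvPolynomial (Fin (N + 1)) ℂ} (hQ : Q.IsHomogeneous d)
    {x : Fin (N + 1) → ℂ} (hx : x ≠ 0) : VanishesAt Q (Projectivization.mk ℂ x hx) ↔ eval x Q = 0 := by
  obtain ⟨a, ha, h⟩ := rep_mk_fin hx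
  unfold VanishesAt
  rw [h, eval_smul_form hQ, mul_eq_zero]
  exact ⟨fun h => h.resolve_left (pow_ne_zero _ ha), Or.inr⟩

end Pool.Agent.H17BP

end
end

section

/-!
# BP OrdDefs: entire curves of order at most two

The characteristic function of an entire curve `f` in `ℙ(V)` is `T_f(r) = inf (-log |F 0|)` over the holomorphic lifts `F` of `f` to the disc of radius `r` (zeros allowed) with
`|F| ≤ 1`.  `OrdTwo f`: `T_f(r) ≤ C (1 + r²)` for all `r > 0`.
-/

set_option autoImplicit false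

namespace Pool.Agent.H36.BP

open Metric

/-- `f` is an entire curve in `ℙ(V)` of order at most two and of finite type: `T_f(r) ≤ C₀ (1 + r²)` -/
def OrdTwo {V : Type} [NormedAddCommGroup V] [NormedSpace ℂ V] (f : ℂ → V) : Prop :=
  ∃ C₀ : ℝ, ∀ r : ℝ, 0 < r → ∃ F : ℂ → V, DifferentiableOn ℂ F (ball 0 r) ∧ (∀ z ∈ ball (0 : ℂ) r, ‖F z‖ ≤ 1) ∧
    Real.exp (-(C₀ * (1 + r ^ 2))) ≤ ‖F 0‖ ∧ ∀ z ∈ ball (0 : ℂ) r, F z = 0 ∨ ∃ c : ℂ, c ≠ 0 ∧ f z = c • F z

/-- every entire curve of order at most two in `K` which is not constant as a map into projective space lies in `B` -/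
def BrodyMod2 {N : ℕ} (K B : Set (EN N)) : Prop :=
  ∀ F : ℂ → EN N, Differentiable ℂ F → (∀ z, F z ∈ K) → (∃ z w, ∀ c : ℂ, F z ≠ c • F w) → OrdTwo F → ∀ z, F z ∈ B

end Pool.Agent.H36.BP

end
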