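import Mathlib

/-! The parts of this file: G3.C.Ode, G3.C.GenA. -/

section

/-!
# G3 C Ode: real solutions of holomorphic differential equations extend to complex time

Let `V` be holomorphic and bounded by `M` on `ball (s₁, y₁) R ⊆ ℂ × ℂ^n` (sup norm).
`ode_hol`: PICARD ITERATION on the complex disc.  By the Cauchy estimates `V` is `K`-Lipschitz in `y` on `ball (s₁, y₁) (R / 2)` with `K = K (R, M, n)` (or: use the
Schwarz-type bound `Complex.norm_deriv_le_of_forall_mem_sphere_norm_le` on complex lines, or `dist_le_mul_dist_of_mapsTo_ball`).  `ε = min (R / 2) (R / (4 (M + 1))) …` with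
`K ε ≤ 1 / 2`.  For a holomorphic `Y : ball s₁ ε → closedBall y₁ (R / 4)` let `T Y` be the primitive of `s ↦ V (s, Y s)` on the ball with value `y₁` at `s₁`
(`DifferentiableOn.isExactOn_ball` or `Complex.IsExactOn`; mean value inequality `Convex.norm_image_sub_le_of_norm_hasDerivWithin_le` for the bounds).  The iterates
`Y_0 = y₁`, `Y_{m+1} = T Y_m` satisfy `‖Y_{m+1} - Y_m‖ ≤ 2^(-m) R` on the ball, so they converge uniformly to a holomorphic `Y` (`TendstoLocallyUniformlyOn.differentiableOn`,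
derivatives converge: `TendstoLocallyUniformlyOn.deriv`), and `Y' = V (s, Y)`.
`ode_real`: `ε` as in `ode_hol` (made smaller such that `M ε ≤ R / 4`); the restriction of `Y` to the real interval and `y` solve the same real differential equation with the
same value at `s₁`, and both stay in `ball y₁ (R / 2)` for `|s - s₁| < ε` (for `y`: `ODE_solution_unique_of_mem_Ioo` or a Gronwall / continuity argument: the set of `t < ε` such that
`Y = y` on `[s₁ - t, s₁ + t]` is open and closed; where `Y = y` the value lies in `ball y₁ (R / 2)`, a neighbourhood in which `V` is Lipschitz in `y`).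
-/

set_option autoImplicit false

open Topology Filter Metric

namespace Pool.Agent.G3.C

private theorem ode_comp {n : ℕ} {f : ℂ → Fin n → ℂ} {f' : Fin n → ℂ} {t : ℝ} (h : HasDerivAt f f' (t : ℂ)) :
    HasDerivAt (fun t : ℝ => f (t : ℂ)) f' t := by
  have h1 : HasDerivAt (fun t : ℝ => (t : ℂ)) 1 t := Complex.ofRealCLM.hasDerivAt
  have h2 := HasDerivAt.scomp (g₁ := f) (h := fun t : ℝ => (t : ℂ)) t h h1
  rw [one_smul] at h2
  exact h2

/-- Lipschitz bound in `y` -/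
private theorem ode_lip {n : ℕ} {R M : ℝ} (hR : 0 < R) (V : ℂ × (Fin n → ℂ) → Fin n → ℂ) (s₁ : ℂ) (y₁ : Fin n → ℂ)
    (hV : DifferentiableOn ℂ V (ball (s₁, y₁) R)) (hM : ∀ q ∈ ball (s₁, y₁) R, ‖V q‖ ≤ M) {s : ℂ} (hs : s ∈ ball s₁ R)
    {y y' : Fin n → ℂ} (hy : y ∈ ball y₁ (R / 2)) (hy' : y' ∈ ball y₁ (R / 2)) :
    ‖V (s, y') - V (s, y)‖ ≤ 4 * M / R * ‖y' - y‖ := by
  rcases eq_or_ne y' y with rfl | hne
  · simp
  have hv : 0 < ‖y' - y‖ := norm_pos_iff.2 (sub_ne_zero.2 hne)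
  -- the points of the segment
  have hseg : ∀ t ∈ Set.Icc (0 : ℝ) 1, y + (t : ℂ) • (y' - y) ∈ ball y₁ (R / 2) := by
    intro t ht
    have h := (convex_ball y₁ (R / 2)).add_smul_sub_mem hy hy' ht
    have e : (t : ℂ) • (y' - y) = t • (y' - y) := by
      funext i
      simp
    rw [e]
    exact h
  have hmem : ∀ t ∈ Set.Icc (0 : ℝ) 1, ∀ τ : ℂ, ‖τ‖ ≤ R / (4 * ‖y' - y‖) →
      (s, y + ((t : ℂ) + τ) • (y' - y)) ∈ ball (s₁, y₁) R := by
    intro t ht τ hτ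
    rw [← ball_prod_same]
    refine ⟨hs, ?_⟩
    have h1 := hseg t ht
    rw [mem_ball, dist_eq_norm] at h1 ⊢
    show ‖y + ((t : ℂ) + τ) • (y' - y) - y₁‖ < R
    have e : y + ((t : ℂ) + τ) • (y' - y) - y₁ = (y + (t : ℂ) • (y' - y) - y₁) + τ • (y' - y) := by
      rw [add_smul]
      abel
    rw [e]
    have h2 : ‖τ • (y' - y)‖ ≤ R / 4 := by
      rw [norm_smul]
      calc ‖τ‖ * ‖y' - y‖ ≤ R / (4 * ‖y' - y‖) * ‖y' - y‖ := by gcongr
        _ = R / 4 := by field_simp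
    calc ‖(y + (t : ℂ) • (y' - y) - y₁) + τ • (y' - y)‖ ≤ ‖y + (t : ℂ) • (y' - y) - y₁‖ + ‖τ • (y' - y)‖ := norm_add_le _ _
      _ < R := by linarith
  have hρ : 0 < R / (4 * ‖y' - y‖) := by positivity
  -- the complex line
  obtain ⟨G, hG⟩ : ∃ G : ℂ → Fin n → ℂ, G = fun τ => V (s, y + τ • (y' - y)) := ⟨_, rfl⟩
  have hGd : ∀ t ∈ Set.Icc (0 : ℝ) 1, ∀ τ : ℂ, ‖τ‖ ≤ R / (4 * ‖y' - y‖) → DifferentiableAt ℂ G ((t : ℂ) + τ) := by
    intro t ht τ hτ
    rw [hG]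
    have h1 : DifferentiableAt ℂ V (s, y + ((t : ℂ) + τ) • (y' - y)) :=
      hV.differentiableAt (isOpen_ball.mem_nhds (hmem t ht τ hτ))
    refine DifferentiableAt.comp (g := V) (f := fun τ : ℂ => (s, y + τ • (y' - y))) ((t : ℂ) + τ) h1 ?_
    exact (differentiableAt_const s).prodMk ((differentiableAt_const y).add (differentiableAt_id.smul_const _))
  have hGM : ∀ t ∈ Set.Icc (0 : ℝ) 1, ∀ τ : ℂ, ‖τ‖ ≤ R / (4 * ‖y' - y‖) → ‖G ((t : ℂ) + τ)‖ ≤ M := by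
    intro t ht τ hτ
    rw [hG]
    exact hM _ (hmem t ht τ hτ)
  have hder : ∀ t ∈ Set.Icc (0 : ℝ) 1, ‖deriv G (t : ℂ)‖ ≤ 4 * M / R * ‖y' - y‖ := by
    intro t ht
    have h := Complex.norm_deriv_le_of_forall_mem_sphere_norm_le (f := G) (c := (t : ℂ)) (C := M) hρ
      (DifferentiableOn.diffContOnCl (by
        intro z hz
        have hz' := closure_ball_subset_closedBall hz
        rw [mem_closedBall, dist_eq_norm] at hz'
        have := hGd t ht (z - t) hz'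
        rw [add_sub_cancel] at this
        exact this.differentiableWithinAt))
      (by
        intro z hz
        rw [mem_sphere, dist_eq_norm] at hz
        have := hGM t ht (z - t) hz.le
        rwa [add_sub_cancel] at this)
    refine h.trans (le_of_eq ?_)
    field_simp
  have key := norm_image_sub_le_of_norm_deriv_le_segment_01' (f := fun t : ℝ => G (t : ℂ)) (f' := fun t : ℝ => deriv G (t : ℂ))
    (C := 4 * M / R * ‖y' - y‖)
    (fun t ht => by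
      have h0 := hGd t ht 0 (by rw [norm_zero]; exact hρ.le)
      rw [add_zero] at h0
      exact (ode_comp h0.hasDerivAt).hasDerivWithinAt)
    (fun t ht => hder t ⟨ht.1, ht.2.le⟩)
  have e1 : G ((1 : ℝ) : ℂ) = V (s, y') := by
    rw [hG]
    simp
  have e0 : G ((0 : ℝ) : ℂ) = V (s, y) := by
    rw [hG]
    simp
  rw [e1, e0] at key
  exact key

/-- the functions of the iteration -/
private def OdeS {n : ℕ} (s₁ : ℂ) (y₁ : Fin n → ℂ) (ε R : ℝ) : Type :=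
  {Y : ℂ → Fin n → ℂ // Y s₁ = y₁ ∧ (∀ s ∈ ball s₁ ε, ‖Y s - y₁‖ ≤ R / 8) ∧ DifferentiableOn ℂ Y (ball s₁ ε)}

private theorem ode_hol' {n : ℕ} {R M ε : ℝ} (hR : 0 < R) (hM : 0 < M) (hε : 0 < ε) (hεR : ε ≤ R) (hεM : M * ε ≤ R / 8)
    (V : ℂ × (Fin n → ℂ) → Fin n → ℂ) (s₁ : ℂ) (y₁ : Fin n → ℂ) (hV : DifferentiableOn ℂ V (ball (s₁, y₁) R))
    (hVM : ∀ q ∈ ball (s₁, y₁) R, ‖V q‖ ≤ M) :
    ∃ Y : ℂ → Fin n → ℂ, Y s₁ = y₁ ∧ ∀ s ∈ ball s₁ ε, Y s ∈ ball y₁ (R / 2) ∧ HasDerivAt Y (V (s, Y s)) s := by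
  have hs₁ : s₁ ∈ ball s₁ ε := mem_ball_self hε
  have hsub : ∀ s ∈ ball s₁ ε, s ∈ ball s₁ R := fun s hs => ball_subset_ball hεR hs
  have hin : ∀ {s : ℂ} {y : Fin n → ℂ}, s ∈ ball s₁ ε → ‖y - y₁‖ ≤ R / 8 → (s, y) ∈ ball (s₁, y₁) R := by
    intro s y hs hy
    rw [← ball_prod_same]
    refine ⟨hsub s hs, ?_⟩
    rw [mem_ball, dist_eq_norm]
    show ‖y - y₁‖ < R
    linarith
  have hin2 : ∀ {y : Fin n → ℂ}, ‖y - y₁‖ ≤ R / 8 → y ∈ ball y₁ (R / 2) := by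
    intro y hy
    rw [mem_ball, dist_eq_norm]
    linarith
  -- mean value inequality on the ball
  have hmv : ∀ (f f' : ℂ → Fin n → ℂ) (C : ℝ), (∀ s ∈ ball s₁ ε, HasDerivAt f (f' s) s) → (∀ s ∈ ball s₁ ε, ‖f' s‖ ≤ C) →
      ∀ s ∈ ball s₁ ε, ‖f s - f s₁‖ ≤ C * ε := by
    intro f f' C hf hC s hs
    have hC0 : 0 ≤ C := (norm_nonneg _).trans (hC s₁ hs₁)
    have h := (convex_ball s₁ ε).norm_image_sub_le_of_norm_hasDerivWithin_le (𝕜 := ℂ) (f := f) (f' := f')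
      (fun x hx => (hf x hx).hasDerivWithinAt) hC hs₁ hs
    rw [mem_ball, dist_eq_norm] at hs
    exact h.trans (mul_le_mul_of_nonneg_left hs.le hC0)
  -- the step
  have hstep : ∀ Y : OdeS s₁ y₁ ε R, ∃ Y' : OdeS s₁ y₁ ε R, ∀ s ∈ ball s₁ ε, HasDerivAt Y'.1 (V (s, Y.1 s)) s := by
    rintro ⟨Y, hY1, hY2, hY3⟩
    have hd : DifferentiableOn ℂ (fun s => V (s, Y s)) (ball s₁ ε) := by
      refine DifferentiableOn.comp (g := V) (f := fun s => (s, Y s)) (t := ball (s₁, y₁) R) hV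
        (differentiableOn_id.prodMk hY3) ?_
      intro s hs
      exact hin hs (hY2 s hs)
    obtain ⟨g, hg1, hg⟩ := (hd.isExactOn_ball).with_val_at s₁ y₁
    refine ⟨⟨g, hg1, ?_, fun s hs => (hg s hs).differentiableAt.differentiableWithinAt⟩, hg⟩
    intro s hs
    have h := hmv g _ M hg (fun s hs => hVM _ (hin hs (hY2 s hs))) s hs
    rw [hg1] at h
    exact h.trans hεM
  choose T hT using hstep
  obtain ⟨Y, hY0⟩ : ∃ Y : ℕ → OdeS s₁ y₁ ε R, ∀ m, Y (m + 1) = T (Y m) := by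
    have h0 : (fun _ : ℂ => y₁) s₁ = y₁ ∧ (∀ s ∈ ball s₁ ε, ‖(fun _ : ℂ => y₁) s - y₁‖ ≤ R / 8) ∧
        DifferentiableOn ℂ (fun _ : ℂ => y₁) (ball s₁ ε) := by
      refine ⟨rfl, fun s _ => ?_, differentiableOn_const _⟩
      show ‖y₁ - y₁‖ ≤ R / 8
      rw [sub_self, norm_zero]
      positivity
    exact ⟨fun m => T^[m] ⟨fun _ => y₁, h0⟩, fun m => Function.iterate_succ_apply' T m _⟩
  have hder : ∀ m, ∀ s ∈ ball s₁ ε, HasDerivAt (Y (m + 1)).1 (V (s, (Y m).1 s)) s := by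
    intro m s hs
    rw [hY0]
    exact hT (Y m) s hs
  have hK : 4 * M / R * ε ≤ 1 / 2 := by
    rw [div_mul_eq_mul_div, div_le_iff₀ hR]
    linarith
  -- geometric convergence
  have hgeo : ∀ m, ∀ s ∈ ball s₁ ε, ‖(Y (m + 1)).1 s - (Y m).1 s‖ ≤ R / 4 * (1 / 2) ^ m := by
    intro m
    induction m with
    | zero =>
      intro s hs
      have h1 := (Y 1).2.2.1 s hs
      have h0 := (Y 0).2.2.1 s hs
      rw [pow_zero, mul_one]
      have e : (Y (0 + 1)).1 s - (Y 0).1 s = ((Y 1).1 s - y₁) - ((Y 0).1 s - y₁) := by abel_nf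
      rw [e]
      refine (norm_sub_le _ _).trans ?_
      linarith
    | succ m ih =>
      intro s hs
      have h := hmv (fun s => (Y (m + 1 + 1)).1 s - (Y (m + 1)).1 s)
        (fun s => V (s, (Y (m + 1)).1 s) - V (s, (Y m).1 s)) (4 * M / R * (R / 4 * (1 / 2) ^ m))
        (fun s hs => (hder (m + 1) s hs).sub (hder m s hs))
        (fun s hs => (ode_lip hR V s₁ y₁ hV hVM (hsub s hs) (hin2 ((Y m).2.2.1 s hs))
          (hin2 ((Y (m + 1)).2.2.1 s hs))).trans (by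
            have := ih s hs
            gcongr)) s hs
      have e : (Y (m + 1 + 1)).1 s₁ - (Y (m + 1)).1 s₁ = 0 := by
        rw [(Y (m + 1 + 1)).2.1, (Y (m + 1)).2.1, sub_self]
      simp only [e, sub_zero] at h
      refine h.trans ?_
      have h2 : 0 ≤ R / 4 * (1 / 2 : ℝ) ^ m := by positivity
      calc 4 * M / R * (R / 4 * (1 / 2) ^ m) * ε = (4 * M / R * ε) * (R / 4 * (1 / 2) ^ m) := by ring
        _ ≤ 1 / 2 * (R / 4 * (1 / 2) ^ m) := mul_le_mul_of_nonneg_right hK h2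
        _ = R / 4 * (1 / 2) ^ (m + 1) := by ring
  have hdist : ∀ s ∈ ball s₁ ε, ∀ m, dist ((Y m).1 s) ((Y (m + 1)).1 s) ≤ R / 4 * (1 / 2) ^ m := by
    intro s hs m
    rw [dist_comm, dist_eq_norm]
    exact hgeo m s hs
  have hlim : ∀ s : ℂ, ∃ y : Fin n → ℂ, s ∈ ball s₁ ε → Tendsto (fun m => (Y m).1 s) atTop (𝓝 y) := by
    intro s
    by_cases hs : s ∈ ball s₁ ε
    · obtain ⟨y, hy⟩ := cauchySeq_tendsto_of_complete (cauchySeq_of_le_geometric (1 / 2) (R / 4) (by norm_num) (hdist s hs))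
      exact ⟨y, fun _ => hy⟩
    · exact ⟨0, fun h => absurd h hs⟩
  choose Z hZ using hlim
  have hrate : ∀ s ∈ ball s₁ ε, ∀ m, ‖(Y m).1 s - Z s‖ ≤ R / 2 * (1 / 2) ^ m := by
    intro s hs m
    have h := dist_le_of_le_geometric_of_tendsto (1 / 2) (R / 4) (by norm_num) (hdist s hs) (hZ s hs) m
    rw [dist_eq_norm] at h
    refine h.trans (le_of_eq ?_)
    ring
  have hZb : ∀ s ∈ ball s₁ ε, ‖Z s - y₁‖ ≤ R / 8 := by
    intro s hs
    have h : Tendsto (fun m => ‖(Y m).1 s - y₁‖) atTop (𝓝 ‖Z s - y₁‖) := ((hZ s hs).sub_const y₁).norm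
    exact le_of_tendsto' h fun m => (Y m).2.2.1 s hs
  have hZ1 : Z s₁ = y₁ := by
    have h := hZ s₁ hs₁
    have e : (fun m => (Y m).1 s₁) = fun _ => y₁ := by
      funext m
      exact (Y m).2.1
    rw [e] at h
    exact tendsto_nhds_unique h tendsto_const_nhds
  refine ⟨Z, hZ1, fun s hs => ⟨hin2 (hZb s hs), ?_⟩⟩
  refine hasDerivAt_of_tendstoUniformlyOn (l := atTop) (f := fun m s => (Y (m + 1)).1 s)
    (f' := fun m s => V (s, (Y m).1 s)) (g' := fun s => V (s, Z s)) (s := ball s₁ ε) isOpen_ball ?_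
    (Eventually.of_forall fun m s hs => hder m s hs) (fun s hs => (tendsto_add_atTop_iff_nat 1).2 (hZ s hs)) hs
  rw [Metric.tendstoUniformlyOn_iff]
  intro η hη
  have h0 : Tendsto (fun m : ℕ => 4 * M / R * (R / 2 * (1 / 2 : ℝ) ^ m)) atTop (𝓝 (4 * M / R * (R / 2 * 0))) :=
    ((tendsto_pow_atTop_nhds_zero_of_lt_one (by norm_num) (by norm_num)).const_mul _).const_mul _
  rw [mul_zero, mul_zero] at h0
  filter_upwards [h0.eventually_lt_const hη] with m hm s hs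
  rw [dist_eq_norm, norm_sub_rev]
  refine lt_of_le_of_lt ((ode_lip hR V s₁ y₁ hV hVM (hsub s hs) (hin2 (hZb s hs)) (hin2 ((Y m).2.2.1 s hs))).trans ?_) hm
  have := hrate s hs m
  gcongr

/-- a real solution extends to a complex disc whose radius depends only on the bounds -/
theorem ode_real {n : ℕ} {R M : ℝ} (hR : 0 < R) (hM : 0 < M) :
    ∃ ε : ℝ, 0 < ε ∧ ε ≤ R ∧ ∀ (V : ℂ × (Fin n → ℂ) → Fin n → ℂ) (s₁ : ℝ) (y₁ : Fin n → ℂ), DifferentiableOn ℂ V (ball ((s₁ : ℂ), y₁) R) →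
      (∀ q ∈ ball ((s₁ : ℂ), y₁) R, ‖V q‖ ≤ M) →
      ∀ (r : ℝ) (y : ℝ → Fin n → ℂ), 0 < r → y s₁ = y₁ →
      (∀ s : ℝ, |s - s₁| < r → y s ∈ ball y₁ R ∧ HasDerivAt y (V ((s : ℂ), y s)) s) →
      ∃ Y : ℂ → Fin n → ℂ, DifferentiableOn ℂ Y (ball (s₁ : ℂ) ε) ∧ (∀ s ∈ ball (s₁ : ℂ) ε, Y s ∈ ball y₁ R) ∧
        ∀ s : ℝ, |s - s₁| < ε → |s - s₁| < r → Y (s : ℂ) = y s := by
  have h1 : 0 < R / (8 * M) := by positivity
  obtain ⟨ε, hεdef⟩ : ∃ ε : ℝ, ε = min R (R / (8 * M)) := ⟨_, rfl⟩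
  have hε : 0 < ε := by rw [hεdef]; exact lt_min hR h1
  have hεR : ε ≤ R := by rw [hεdef]; exact min_le_left _ _
  have hεM : M * ε ≤ R / 8 := by
    rw [hεdef]
    calc M * min R (R / (8 * M)) ≤ M * (R / (8 * M)) := mul_le_mul_of_nonneg_left (min_le_right _ _) hM.le
      _ = R / 8 := by field_simp
  refine ⟨ε, hε, hεR, fun V s₁ y₁ hV hVM r y hr hy1 hy => ?_⟩
  obtain ⟨Y, hY1, hY⟩ := ode_hol' hR hM hε hεR hεM V (s₁ : ℂ) y₁ hV hVM
  refine ⟨Y, fun s hs => (hY s hs).2.differentiableAt.differentiableWithinAt,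
    fun s hs => ball_subset_ball (by linarith) (hY s hs).1, ?_⟩
  -- the real interval
  obtain ⟨ρ, hρdef⟩ : ∃ ρ : ℝ, ρ = min ε r := ⟨_, rfl⟩
  have hρ : 0 < ρ := by rw [hρdef]; exact lt_min hε hr
  have hρε : ρ ≤ ε := by rw [hρdef]; exact min_le_left _ _
  have hρr : ρ ≤ r := by rw [hρdef]; exact min_le_right _ _
  have habs : ∀ t ∈ Set.Ioo (s₁ - ρ) (s₁ + ρ), |t - s₁| < ρ := by
    intro t ht
    rw [abs_lt]
    constructor <;> linarith [ht.1, ht.2]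
  have hball : ∀ t : ℝ, |t - s₁| < ρ → (t : ℂ) ∈ ball (s₁ : ℂ) ε := by
    intro t ht
    rw [mem_ball, dist_eq_norm, ← Complex.ofReal_sub, Complex.norm_real, Real.norm_eq_abs]
    linarith
  have hs0 : s₁ ∈ Set.Ioo (s₁ - ρ) (s₁ + ρ) := ⟨by linarith, by linarith⟩
  -- `y` stays in the smaller ball
  have hyin : ∀ t ∈ Set.Ioo (s₁ - ρ) (s₁ + ρ), y t ∈ ball y₁ (R / 2) := by
    intro t ht
    have hC : ∀ x ∈ Set.Ioo (s₁ - ρ) (s₁ + ρ), ‖V ((x : ℂ), y x)‖ ≤ M := by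
      intro x hx
      refine hVM _ ?_
      rw [← ball_prod_same]
      exact ⟨ball_subset_ball hεR (hball x (habs x hx)), (hy x ((habs x hx).trans_le hρr)).1⟩
    have h := (convex_Ioo (s₁ - ρ) (s₁ + ρ)).norm_image_sub_le_of_norm_hasDerivWithin_le (𝕜 := ℝ) (f := y)
      (f' := fun x => V ((x : ℂ), y x)) (fun x hx => (hy x ((habs x hx).trans_le hρr)).2.hasDerivWithinAt) hC hs0 ht
    rw [hy1] at h
    rw [mem_ball, dist_eq_norm]
    have h2 : ‖t - s₁‖ ≤ ε := by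
      rw [Real.norm_eq_abs]
      linarith [habs t ht]
    have h3 : M * ‖t - s₁‖ ≤ M * ε := mul_le_mul_of_nonneg_left h2 hM.le
    linarith
  have key : Set.EqOn (fun t : ℝ => Y (t : ℂ)) y (Set.Ioo (s₁ - ρ) (s₁ + ρ)) := by
    refine ODE_solution_unique_of_mem_Ioo (v := fun (t : ℝ) (x : Fin n → ℂ) => V ((t : ℂ), x))
      (s := fun _ => ball y₁ (R / 2)) (K := (4 * M / R).toNNReal) ?_ hs0 ?_ ?_ ?_
    · intro t ht
      rw [lipschitzOnWith_iff_norm_sub_le]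
      intro x hx x' hx'
      rw [Real.coe_toNNReal _ (by positivity)]
      exact ode_lip hR V (s₁ : ℂ) y₁ hV hVM (ball_subset_ball hεR (hball t (habs t ht))) hx' hx
    · intro t ht
      have h := hY (t : ℂ) (hball t (habs t ht))
      exact ⟨ode_comp h.2, h.1⟩
    · intro t ht
      exact ⟨(hy t ((habs t ht).trans_le hρr)).2, hyin t ht⟩
    · show Y (s₁ : ℂ) = y s₁
      rw [hY1, hy1]
  intro s hsε hsr
  have hsρ : |s - s₁| < ρ := by rw [hρdef]; exact lt_min hsε hsr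
  rw [abs_lt] at hsρ
  exact key ⟨by linarith [hsρ.1], by linarith [hsρ.2]⟩

end Pool.Agent.G3.C

end

section

/-!
# G3 C GenA: solutions of regular relations are analytic in `s`

`JetFam w I D`: `w j s z` is the `j`-th derivative in `s` of `w 0 s z`, continuous in both variables and holomorphic in `z`.
`gen_step`: if the jets satisfy `Q (s, z, w_0, …, w_k) = 0` and the derivative of `Q` in the last variable is not `0` at one point, then `w 0` extends, near this point, to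
complex `s`: differentiate the relation once and apply `ode_real` for each `z`.
-/

set_option autoImplicit false

open Topology Filter Metric

namespace Pool.Agent.G3.C

/-- a family of functions of `s ∈ I` with the parameter `z ∈ D`: `w j` is the `j`-th derivative in `s` -/
structure JetFam (w : ℕ → ℝ → ℂ → ℂ) (I : Set ℝ) (D : Set ℂ) : Prop where
  der : ∀ j, ∀ s ∈ I, ∀ z ∈ D, HasDerivAt (fun t => w j t z) (w (j + 1) s z) s
  cont : ∀ j, ContinuousOn (fun q : ℝ × ℂ => w j q.1 q.2) (I ×ˢ D)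
  hol : ∀ j, ∀ s ∈ I, DifferentiableOn ℂ (w j s) D

/-- the point `(s, z, w_0, …, w_k)` -/
noncomputable def Jt (k : ℕ) (w : ℕ → ℝ → ℂ → ℂ) (s : ℝ) (z : ℂ) : ℂ × ℂ × (Fin (k + 1) → ℂ) := ((s : ℂ), z, fun j => w j s z)

/-- the derivative in the last variable -/
noncomputable def dk {k : ℕ} (Q : ℂ × ℂ × (Fin (k + 1) → ℂ) → ℂ) (q : ℂ × ℂ × (Fin (k + 1) → ℂ)) : ℂ :=
  fderiv ℂ Q q (0, 0, Pi.single (Fin.last k) 1)

theorem dk_analytic {k : ℕ} {Q : ℂ × ℂ × (Fin (k + 1) → ℂ) → ℂ} {q : ℂ × ℂ × (Fin (k + 1) → ℂ)} (hQ : AnalyticAt ℂ Q q) : AnalyticAt ℂ (dk Q) q := by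
  have h1 : AnalyticAt ℂ (fderiv ℂ Q) q := hQ.fderiv
  exact (ContinuousLinearMap.apply ℂ ℂ ((0, 0, Pi.single (Fin.last k) 1) : ℂ × ℂ × (Fin (k + 1) → ℂ))).analyticAt _ |>.comp h1

/-- the conclusion: near `(s₁, z₁)` the function `w` extends to complex `s` -/
def Ext (w : ℝ → ℂ → ℂ) (I : Set ℝ) (D : Set ℂ) (s₁ : ℝ) (z₁ : ℂ) : Prop :=
  ∃ (ε : ℝ) (W : ℂ → ℂ → ℂ) (C : ℝ), 0 < ε ∧ ball z₁ ε ⊆ D ∧ (∀ s : ℝ, |s - s₁| < ε → s ∈ I) ∧
    (∀ z ∈ ball z₁ ε, DifferentiableOn ℂ (fun s => W s z) (ball (s₁ : ℂ) ε)) ∧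
    (∀ z ∈ ball z₁ ε, ∀ s : ℝ, |s - s₁| < ε → W s z = w s z) ∧ ∀ s ∈ ball (s₁ : ℂ) ε, ∀ z ∈ ball z₁ ε, ‖W s z‖ ≤ C

theorem split_vec {k : ℕ} (v : Fin (k + 1) → ℂ) :
    ((1, 0, v) : ℂ × ℂ × (Fin (k + 1) → ℂ)) = (1, 0, 0) + ∑ j : Fin k, v j.castSucc • ((0, 0, Pi.single j.castSucc 1) : ℂ × ℂ × (Fin (k + 1) → ℂ)) +
      v (Fin.last k) • ((0, 0, Pi.single (Fin.last k) 1) : ℂ × ℂ × (Fin (k + 1) → ℂ)) := by
  have h : (v : Fin (k + 1) → ℂ) = ∑ j : Fin (k + 1), v j • (Pi.single j 1 : Fin (k + 1) → ℂ) := by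
    ext i
    simp [Finset.sum_apply, Pi.single_apply]
  have h2 : ((0, 0, v) : ℂ × ℂ × (Fin (k + 1) → ℂ)) = ∑ j : Fin (k + 1), v j • ((0, 0, Pi.single j 1) : ℂ × ℂ × (Fin (k + 1) → ℂ)) := by
    rw [Prod.ext_iff, Prod.ext_iff]
    refine ⟨by simp [Prod.fst_sum], by simp [Prod.fst_sum, Prod.snd_sum], ?_⟩
    simp only [Prod.snd_sum, Prod.smul_snd]
    exact h
  rw [Fin.sum_univ_castSucc] at h2
  rw [add_assoc, ← h2]
  simp

theorem gen_step {k : ℕ} {O : Set (ℂ × ℂ × (Fin (k + 1) → ℂ))} (hO : IsOpen O) {Q : ℂ × ℂ × (Fin (k + 1) → ℂ) → ℂ} (hQ : AnalyticOnNhd ℂ Q O)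
    {w : ℕ → ℝ → ℂ → ℂ} {I : Set ℝ} {D : Set ℂ} (hI : IsOpen I) (hD : IsOpen D) (hw : JetFam w I D) (hmem : ∀ s ∈ I, ∀ z ∈ D, Jt k w s z ∈ O)
    (hrel : ∀ s ∈ I, ∀ z ∈ D, Q (Jt k w s z) = 0) {s₁ : ℝ} {z₁ : ℂ} (hs₁ : s₁ ∈ I) (hz₁ : z₁ ∈ D) (hne : dk Q (Jt k w s₁ z₁) ≠ 0) :
    Ext (w 0) I D s₁ z₁ := by
  set q₁ := Jt k w s₁ z₁ with hq₁
  -- the right hand side of the equation
  set G : ℂ × ℂ × (Fin (k + 1) → ℂ) → ℂ := fun q =>
    -(fderiv ℂ Q q (1, 0, 0) + ∑ j : Fin k, q.2.2 j.succ * fderiv ℂ Q q (0, 0, Pi.single j.castSucc 1)) / dk Q q with hG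
  set VV : ℂ × ℂ × (Fin (k + 1) → ℂ) → Fin (k + 1) → ℂ := fun q => Fin.snoc (α := fun _ => ℂ) (fun j : Fin k => q.2.2 j.succ) (G q) with hVV
  have hap : ∀ v : ℂ × ℂ × (Fin (k + 1) → ℂ), ∀ q ∈ O, AnalyticAt ℂ (fun q => fderiv ℂ Q q v) q := by
    intro v q hq
    exact (ContinuousLinearMap.apply ℂ ℂ v).analyticAt _ |>.comp (hQ q hq).fderiv
  have hco : ∀ (j : Fin (k + 1)) (q : ℂ × ℂ × (Fin (k + 1) → ℂ)), AnalyticAt ℂ (fun q : ℂ × ℂ × (Fin (k + 1) → ℂ) => q.2.2 j) q := by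
    intro j q
    exact ((ContinuousLinearMap.proj (R := ℂ) (φ := fun _ : Fin (k + 1) => ℂ) j).comp
      ((ContinuousLinearMap.snd ℂ ℂ (Fin (k + 1) → ℂ)).comp (ContinuousLinearMap.snd ℂ ℂ (ℂ × (Fin (k + 1) → ℂ))))).analyticAt q
  have hGa : ∀ q ∈ O, dk Q q ≠ 0 → AnalyticAt ℂ G q := by
    intro q hq hq0
    apply AnalyticAt.div _ (dk_analytic (hQ q hq)) hq0
    apply AnalyticAt.neg
    apply (hap _ q hq).add
    apply Finset.analyticAt_fun_sum
    intro j _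
    exact (hco j.succ q).mul (hap _ q hq)
  have hVa : ∀ q ∈ O, dk Q q ≠ 0 → AnalyticAt ℂ VV q := by
    intro q hq hq0
    rw [analyticAt_pi_iff]
    intro i
    refine Fin.lastCases ?_ (fun j => ?_) i
    · simpa [hVV] using hGa q hq hq0
    · simpa [hVV] using hco j.succ q
  have hdkc : ContinuousAt (dk Q) q₁ := (dk_analytic (hQ q₁ (hmem s₁ hs₁ z₁ hz₁))).continuousAt
  have hVc : ContinuousAt VV q₁ := (hVa q₁ (hmem s₁ hs₁ z₁ hz₁) hne).continuousAt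
  obtain ⟨R, hR, hball⟩ : ∃ R : ℝ, 0 < R ∧ ∀ q ∈ ball q₁ (2 * R), q ∈ O ∧ dk Q q ≠ 0 ∧ ‖VV q‖ ≤ ‖VV q₁‖ + 1 := by
    have h1 : ∀ᶠ q in 𝓝 q₁, q ∈ O ∧ dk Q q ≠ 0 ∧ ‖VV q‖ ≤ ‖VV q₁‖ + 1 := by
      refine (hO.eventually_mem (hmem s₁ hs₁ z₁ hz₁)).and ((hdkc.eventually_ne hne).and ?_)
      filter_upwards [hVc.norm.eventually_le_const (show ‖VV q₁‖ < ‖VV q₁‖ + 1 by linarith)] with q hq using hq
    obtain ⟨R, hR, h2⟩ := Metric.eventually_nhds_iff_ball.mp h1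
    exact ⟨R / 2, by positivity, fun q hq => h2 q (by rwa [mul_div_cancel₀ R (two_ne_zero)] at hq)⟩
  set M := ‖VV q₁‖ + 1 with hM
  have hM0 : 0 < M := by positivity
  obtain ⟨ε₀, hε₀, hε₀R, hode⟩ := ode_real (n := k + 1) hR hM0
  -- joint continuity of the jets
  have hJc : ContinuousAt (fun q : ℝ × ℂ => (fun j : Fin (k + 1) => w j q.1 q.2 : Fin (k + 1) → ℂ)) (s₁, z₁) := by
    rw [continuousAt_pi]
    intro j
    exact (hw.cont j).continuousAt ((hI.prod hD).mem_nhds ⟨hs₁, hz₁⟩)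
  obtain ⟨r, hr, hrR, hrb⟩ : ∃ r : ℝ, 0 < r ∧ r ≤ R ∧ ∀ q ∈ ball (s₁, z₁) r, q ∈ I ×ˢ D ∧
      (fun j : Fin (k + 1) => w j q.1 q.2 : Fin (k + 1) → ℂ) ∈ ball (fun j : Fin (k + 1) => w j s₁ z₁ : Fin (k + 1) → ℂ) (R / 2) := by
    have h1 : ∀ᶠ q in 𝓝 (s₁, z₁), q ∈ I ×ˢ D ∧
      (fun j : Fin (k + 1) => w j q.1 q.2 : Fin (k + 1) → ℂ) ∈ ball (fun j : Fin (k + 1) => w j s₁ z₁ : Fin (k + 1) → ℂ) (R / 2) :=
      ((hI.prod hD).eventually_mem ⟨hs₁, hz₁⟩).and (hJc.eventually_mem (isOpen_ball.mem_nhds (mem_ball_self (by positivity))))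
    obtain ⟨r, hr, h2⟩ := Metric.eventually_nhds_iff_ball.mp h1
    exact ⟨min r R, lt_min hr hR, min_le_right _ _, fun q hq => h2 q (ball_subset_ball (min_le_left _ _) hq)⟩
  set ε := min (min ε₀ r) R with hε
  have hε0 : 0 < ε := by positivity
  have hεε₀ : ε ≤ ε₀ := (min_le_left _ _).trans (min_le_left _ _)
  have hεr : ε ≤ r := (min_le_left _ _).trans (min_le_right _ _)
  have hεR : ε ≤ R := min_le_right _ _
  have hin : ∀ s : ℝ, |s - s₁| < r → ∀ z ∈ ball z₁ r, s ∈ I ∧ z ∈ D ∧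
      (fun j : Fin (k + 1) => w j s z : Fin (k + 1) → ℂ) ∈ ball (fun j : Fin (k + 1) => w j s₁ z₁ : Fin (k + 1) → ℂ) (R / 2) := by
    intro s hs z hz
    have h1 : ((s, z) : ℝ × ℂ) ∈ ball (s₁, z₁) r := by
      rw [← ball_prod_same]
      exact ⟨by rwa [mem_ball, Real.dist_eq], hz⟩
    obtain ⟨h2, h3⟩ := hrb _ h1
    exact ⟨h2.1, h2.2, h3⟩
  -- the solution for each z
  have hsol : ∀ z ∈ ball z₁ ε, ∃ Y : ℂ → Fin (k + 1) → ℂ, DifferentiableOn ℂ Y (ball (s₁ : ℂ) ε) ∧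
      (∀ s ∈ ball (s₁ : ℂ) ε, ‖Y s‖ ≤ ‖(fun j : Fin (k + 1) => w j s₁ z₁ : Fin (k + 1) → ℂ)‖ + 2 * R) ∧
      ∀ s : ℝ, |s - s₁| < ε → Y (s : ℂ) = fun j : Fin (k + 1) => w j s z := by
    intro z hz
    have hzr : z ∈ ball z₁ r := ball_subset_ball hεr hz
    have hzR : dist z z₁ < R := lt_of_lt_of_le hz hεR
    set y₁ : Fin (k + 1) → ℂ := fun j => w j s₁ z with hy₁
    have hy₁b : dist y₁ (fun j : Fin (k + 1) => w j s₁ z₁) < R / 2 := (hin s₁ (by simpa using hr) z hzr).2.2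
    have hsub : ∀ q ∈ ball ((s₁ : ℂ), y₁) R, ((q.1, z, q.2) : ℂ × ℂ × (Fin (k + 1) → ℂ)) ∈ ball q₁ (2 * R) := by
      intro q hq
      rw [← ball_prod_same] at hq
      rw [hq₁, Jt, ← ball_prod_same, ← ball_prod_same]
      refine ⟨?_, ?_, ?_⟩
      · exact ball_subset_ball (by linarith) hq.1
      · exact ball_subset_ball (by linarith) (show z ∈ ball z₁ R from hzR)
      · have h1 : dist q.2 y₁ < R := hq.2
        calc dist q.2 (fun j : Fin (k + 1) => w j s₁ z₁) ≤ dist q.2 y₁ + dist y₁ (fun j : Fin (k + 1) => w j s₁ z₁) := dist_triangle _ _ _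
          _ < 2 * R := by linarith
    have hins : ∀ q : ℂ × (Fin (k + 1) → ℂ), AnalyticAt ℂ (fun q : ℂ × (Fin (k + 1) → ℂ) => ((q.1, z, q.2) : ℂ × ℂ × (Fin (k + 1) → ℂ))) q := by
      intro q
      exact analyticAt_fst.prod (analyticAt_const.prod analyticAt_snd)
    obtain ⟨Y, hY1, hY2, hY3⟩ := hode (fun q => VV (q.1, z, q.2)) s₁ y₁ (by
        intro q hq
        obtain ⟨h1, h2, h3⟩ := hball _ (hsub q hq)
        exact ((hVa _ h1 h2).comp_of_eq (hins q) rfl).differentiableAt.differentiableWithinAt) (by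
        intro q hq
        exact (hball _ (hsub q hq)).2.2) r (fun s j => w j s z) hr rfl (by
        intro s hs
        obtain ⟨hsI, hzD, hsb⟩ := hin s hs z hzr
        refine ⟨?_, ?_⟩
        · rw [mem_ball] at hsb ⊢
          calc dist (fun j : Fin (k + 1) => w j s z) y₁ ≤ dist (fun j : Fin (k + 1) => w j s z : Fin (k + 1) → ℂ) (fun j : Fin (k + 1) => w j s₁ z₁) +
              dist y₁ (fun j : Fin (k + 1) => w j s₁ z₁) := dist_triangle_right _ _ _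
            _ < R := by linarith
        · -- the differential equation
          have hder : HasDerivAt (fun t : ℝ => (fun j : Fin (k + 1) => w j t z : Fin (k + 1) → ℂ)) (fun j : Fin (k + 1) => w (j + 1) s z) s := by
            rw [hasDerivAt_pi]
            intro j
            exact hw.der j s hsI z hzD
          convert hder using 1
          ext i
          refine Fin.lastCases ?_ (fun j => ?_) i
          · simp only [hVV, Fin.snoc_last, Fin.val_last]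
            have hJ : HasDerivAt (fun t : ℝ => Jt k w t z) ((1, 0, fun j : Fin (k + 1) => w (j + 1) s z) : ℂ × ℂ × (Fin (k + 1) → ℂ)) s := by
              apply HasDerivAt.prodMk (HasDerivAt.ofReal_comp (hasDerivAt_id s))
              exact (hasDerivAt_const s z).prodMk hder
            have hQd : HasFDerivAt Q ((fderiv ℂ Q (Jt k w s z)).restrictScalars ℝ) (Jt k w s z) :=
              (hQ _ (hmem s hsI z hzD)).differentiableAt.hasFDerivAt.restrictScalars ℝ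
            have hcomp := hQd.comp_hasDerivAt s hJ
            have hz0 : HasDerivAt (Q ∘ fun t : ℝ => Jt k w t z) 0 s := by
              apply (hasDerivAt_const s (0 : ℂ)).congr_of_eventuallyEq
              filter_upwards [hI.mem_nhds hsI] with t ht
              exact hrel t ht z hzD
            have heq := hcomp.unique hz0
            simp only [ContinuousLinearMap.coe_restrictScalars'] at heq
            rw [split_vec, map_add, map_add, map_sum, map_smul] at heq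
            simp only [map_smul, smul_eq_mul, Fin.val_castSucc, Fin.val_last] at heq
            have hqb : Jt k w s z ∈ ball q₁ (2 * R) := by
              apply hsub ((s : ℂ), fun j : Fin (k + 1) => w j s z)
              rw [← ball_prod_same]
              refine ⟨?_, ?_⟩
              · rw [mem_ball, dist_eq_norm, ← Complex.ofReal_sub, Complex.norm_real]
                exact lt_of_lt_of_le hs hrR
              · rw [mem_ball] at hsb ⊢
                calc dist (fun j : Fin (k + 1) => w j s z) y₁ ≤ dist (fun j : Fin (k + 1) => w j s z : Fin (k + 1) → ℂ) (fun j : Fin (k + 1) => w j s₁ z₁) +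
                    dist y₁ (fun j : Fin (k + 1) => w j s₁ z₁) := dist_triangle_right _ _ _
                  _ < R := by linarith
            have hdn : dk Q (Jt k w s z) ≠ 0 := (hball _ hqb).2.1
            rw [hG]
            simp only [Jt] at heq hdn ⊢
            rw [div_eq_iff hdn]
            simp only [dk, Fin.val_succ] at heq ⊢
            linear_combination -heq
          · simp [hVV])
    refine ⟨Y, hY1.mono (ball_subset_ball hεε₀), ?_, ?_⟩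
    · intro s hs
      have h1 := hY2 s (ball_subset_ball hεε₀ hs)
      rw [mem_ball, dist_eq_norm] at h1
      have h2 : ‖y₁ - (fun j : Fin (k + 1) => w j s₁ z₁)‖ < R / 2 := by rwa [dist_eq_norm] at hy₁b
      calc ‖Y s‖ = ‖(fun j : Fin (k + 1) => w j s₁ z₁ : Fin (k + 1) → ℂ) + (y₁ - (fun j : Fin (k + 1) => w j s₁ z₁)) + (Y s - y₁)‖ := by
            congr 1
            abel
        _ ≤ ‖(fun j : Fin (k + 1) => w j s₁ z₁ : Fin (k + 1) → ℂ)‖ + ‖y₁ - (fun j : Fin (k + 1) => w j s₁ z₁)‖ + ‖Y s - y₁‖ := norm_add₃_le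
        _ ≤ _ := by linarith
    · intro s hs
      exact hY3 s (hs.trans_le hεε₀) (hs.trans_le hεr)
  choose! Y hY1 hY2 hY3 using hsol
  refine ⟨ε, fun s z => Y z s 0, ‖(fun j : Fin (k + 1) => w j s₁ z₁ : Fin (k + 1) → ℂ)‖ + 2 * R, hε0, ?_, ?_, ?_, ?_, ?_⟩
  · intro z hz
    exact (hin s₁ (by simpa using hr) z (ball_subset_ball hεr hz)).2.1
  · intro s hs
    exact (hin s (hs.trans_le hεr) z₁ (mem_ball_self hr)).1
  · intro z hz
    exact (differentiableOn_pi.mp (hY1 z hz)) 0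
  · intro z hz s hs
    show Y z (s : ℂ) 0 = w 0 s z
    rw [hY3 z hz s hs]
    simp
  · intro s hs z hz
    exact (norm_le_pi_norm _ 0).trans (hY2 z hz s hs)

end Pool.Agent.G3.C

end
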