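import Pool.Agent.H94.G4T.M06
import Pool.Agent.H94.G4T.M13
import Pool.Agent.H94.G4T.M16
import Pool.Agent.H94.G4T.M23
import Pool.Agent.H94.G4T.M57

/-! The parts of this file: G3.A.Shts, G3.C.TDefs, G3.R.SDefs. -/

section

/-!
# G3 A Shts: the sheets over `b + E`

`chain_ext`: abstract lemma (no topology): `E` a real normed space, `H : E → Set β`, `η > 0` and maps `τ v w : β → β` (for `‖v - w‖ ≤ η`: `H v → H w`, `τ v v = id`, `τ v w ∘ τ u v = τ u w` if all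
three distances are `≤ η`): for every `f ∈ H 0` there is a section `φ`, `φ 0 = f`, `φ w = τ v w (φ v)` for `‖v - w‖ ≤ η / 3`.  Proof: subdivide the segment `[0, v]` into `n` equal steps (`‖v‖ / n ≤ η / 3`); the
result does not depend on `n` (compare `n` and `n m`), and it is compatible for near `v`, `w` (compare step by step).
`exists_sht`: `H v = Hc (b + v)`, `τ` from `near_exists`; `φ (b + v) = F_v 0` for `v ∈ E`; `F_{v + z a} = F_v (z + ·)`: both are continuous in `z` and near (uniqueness).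
-/

set_option autoImplicit false

open Topology Filter Metric

namespace Pool.Agent.G3.A

open Pool.Agent.H36.BP (EN fs wd)
open Pool.Agent.H14.PP (IsCone CurveAt Tan)
open Pool.Agent.H62.EF (MN pr)
open Pool.Agent.AD (Vd Chart Charts IsGerm)
open Pool.Agent.TG
open Pool.Agent.G3.C (Gc)

section chain

variable {V β : Type*} [NormedAddCommGroup V] [NormedSpace ℝ V]

variable {H : V → Set β} {η : ℝ} {τ : V → V → β → β}

end chain

variable {N k : ℕ} {X : Set (EN N)} {Λ : AddSubgroup (Vd (k + 1))} {u : EN N → Vd (k + 1)} {D B Bad : Set (Vd (k + 1))} {a : Vd (k + 1)}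

variable {J : ℕ} {α : Fin J → VForm X Λ u} {c₀ C₀ ρ δ : ℝ} {E : Submodule ℝ (Vd (k + 1))} {b : Vd (k + 1)}

theorem tb_add {y v : Vd (k + 1)} (hy : y ∈ Tb b E) (hv : v ∈ E) : y + v ∈ Tb b E := by
  show y + v - b ∈ E
  have h : y + v - b = (y - b) + v := by abel
  rw [h]
  exact E.add_mem hy hv

end Pool.Agent.G3.A

end

section

/-!
# G3 C TDefs: jet forms and smooth families

`JForm X Λ u ν m`: a section of `E_m F^* (-1)`, where `F = {v | du (v) ∈ ℂ ν}`: a function of the `m`-jets of holomorphic curves in the cone `X` over lines in the direction `ν`.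
`Smo`: the family `Φ` is smooth in the real parameter `s` near `(s₀, z₀)`, in a straight chart.  `TDat`: the data of block (C) for a real torus `b + ℝ ν + ℂ a` of dimension `3`.
-/

set_option autoImplicit false

open Topology Filter Metric

namespace Pool.Agent.G3.C

open Pool.Agent.H36.BP (EN fs wd)
open Pool.Agent.H14.PP (IsCone)
open Pool.Agent.H62.EF (MN pr)
open Pool.Agent.AD (Vd Chart Charts)
open Pool.Agent.TG (TMap Lat Str ms tl)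

variable {N k : ℕ}

/-- `φ` is at `0` a holomorphic curve in `X` over a line in the direction `ν` -/
def DirC (X : Set (EN N)) (Λ : AddSubgroup (Vd (k + 1))) (u : EN N → Vd (k + 1)) (ν : Vd (k + 1)) (φ : ℂ → EN N) : Prop :=
  AnalyticAt ℂ φ 0 ∧ ∀ᶠ t in 𝓝 (0 : ℂ), φ t ∈ X ∧ u (φ t) - (u (φ 0) + t • ν) ∈ Λ

/-- the `m`-jet of `φ` at `0` -/
noncomputable def jt (m : ℕ) (φ : ℂ → EN N) : Fin (m + 1) → EN N := fun j => iteratedDeriv j φ 0

/-- a jet form: a function of the `m`-jets of the holomorphic curves in `X` over lines in the direction `ν`, which depends only on the curve in the projective space, with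
values in `O(-1)` -/
structure JForm (X : Set (EN N)) (Λ : AddSubgroup (Vd (k + 1))) (u : EN N → Vd (k + 1)) (ν : Vd (k + 1)) (m : ℕ) where
  /-- the form -/
  toFun : (Fin (m + 1) → EN N) → ℂ
  scale : ∀ φ : ℂ → EN N, DirC X Λ u ν φ → ∀ c : ℂ → ℂ, AnalyticAt ℂ c 0 → c 0 ≠ 0 → toFun (jt m fun t => c t • φ t) = (c 0)⁻¹ * toFun (jt m φ)
  /-- the form is holomorphic on the families of curves through points at which `u` is a submersion (it has a straight chart) -/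
  analytic : ∀ (E : Type) [NormedAddCommGroup E] [NormedSpace ℂ E] [FiniteDimensional ℂ E] (φ : E × ℂ → EN N) (p : E), AnalyticAt ℂ φ (p, 0) →
    (∀ᶠ q in 𝓝 (p, (0 : ℂ)), φ q ∈ X ∧ u (φ q) - (u (φ (q.1, 0)) + q.2 • ν) ∈ Λ) →
    (∃ (χ : Chart (k + 2) X) (c : Vd (k + 1)) (ρ : ℝ), Str Λ u χ c ρ ∧ ∃ q₀ ∈ ball (0 : Vd (k + 2)) 2, χ.σ q₀ = φ (p, 0)) →
    AnalyticAt ℂ (fun q => toFun (jt m fun t => φ (q, t))) p

variable {X : Set (EN N)} {Λ : AddSubgroup (Vd (k + 1))} {u : EN N → Vd (k + 1)} {ν a b : Vd (k + 1)} {m : ℕ}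

/-- the jet form is nowhere locally `0` -/
def JForm.Thin (P : JForm X Λ u ν m) : Prop :=
  ∀ x ∈ X, ∀ U ∈ 𝓝 x, ∃ φ : ℂ → EN N, DirC X Λ u ν φ ∧ φ 0 ∈ U ∧ P.toFun (jt m φ) ≠ 0

/-- the base coordinates of `b + s ν + z a` in the straight chart with the constants `c`, `ρ` -/
noncomputable def tz (b ν a c : Vd (k + 1)) (ρ : ℝ) (s z : ℂ) : Vd (k + 1) := (ρ : ℂ)⁻¹ • (b + s • ν + z • a - c)

/-- the point of the straight chart over `b + s ν + z a` with the first coordinate `x` -/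
noncomputable def cz (b ν a c : Vd (k + 1)) (ρ : ℝ) (x s z : ℂ) : Vd (k + 2) := Fin.cons (α := fun _ => ℂ) x (tz b ν a c ρ s z)

/-- the family `Φ` is smooth in the box with centre `(s₀, z₀)` and radius `r`, with the jets `w` of the first coordinate in the straight chart `χ` -/
structure Box (X : Set (EN N)) (Λ : AddSubgroup (Vd (k + 1))) (u : EN N → Vd (k + 1)) (a ν b : Vd (k + 1)) (Φ : ℝ → ℂ → MN N) (χ : Chart (k + 2) X)
    (c : Vd (k + 1)) (ρ : ℝ) (w : ℕ → ℝ → ℂ → ℂ) (s₀ : ℝ) (z₀ : ℂ) (r : ℝ) : Prop where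
  pos : 0 < r
  str : Str Λ u χ c ρ
  jet : JetFam w (Set.Ioo (s₀ - r) (s₀ + r)) (ball z₀ r)
  mem : ∀ s ∈ Set.Ioo (s₀ - r) (s₀ + r), ∀ z ∈ ball z₀ r, cz b ν a c ρ (w 0 s z) s z ∈ ball (0 : Vd (k + 2)) 2
  eq : ∀ s ∈ Set.Ioo (s₀ - r) (s₀ + r), ∀ z ∈ ball z₀ r, Φ s z = pr (χ.σ (cz b ν a c ρ (w 0 s z) s z))

/-- the family is smooth near `(s₀, z₀)` -/
def Smo (X : Set (EN N)) (Λ : AddSubgroup (Vd (k + 1))) (u : EN N → Vd (k + 1)) (a ν b : Vd (k + 1)) (Φ : ℝ → ℂ → MN N) (s₀ : ℝ) (z₀ : ℂ) : Prop :=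
  ∃ (χ : Chart (k + 2) X) (c : Vd (k + 1)) (ρ : ℝ) (w : ℕ → ℝ → ℂ → ℂ) (r : ℝ), Box X Λ u a ν b Φ χ c ρ w s₀ z₀ r

/-- the data of block (C): the families `FF` of curves over the lines `b + s ν + ℂ a` of a real torus.  `Dt`, `Bd` are the sets of the `(σ, z)` over `D` and over the bad points.
The families are smooth off `Dt` only: over the other points of `D` they may be discontinuous (indeterminacy points). -/
structure TDat (X : Set (EN N)) (Λ : AddSubgroup (Vd (k + 1))) (u : EN N → Vd (k + 1)) (a ν b : Vd (k + 1)) (LT : AddSubgroup (ℝ × ℂ)) (Dt Bd : Set (ℂ × ℂ))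
    (ρ : ℝ) (FF : Set (ℝ → ℂ → MN N)) : Prop where
  cone : IsCone X
  tor : TMap X Λ u
  lat : Lat Λ
  bas : ∀ y : Vd (k + 1), ∃ s z : ℂ, y = s • ν + z • a
  per : ∀ l ∈ LT, (l.1 : ℂ) • ν + l.2 • a ∈ Λ
  cpt : ∃ R : ℝ, 0 < R ∧ ∀ q : ℝ × ℂ, ∃ l ∈ LT, ‖q - l‖ ≤ R
  dns : Dense {s : ℝ | ∃ z : ℂ, (s, z) ∈ LT}
  sep : Sep Bd ρ
  bd_inv : ∀ β ∈ Bd, ∀ l ∈ LT, (β.1 + (l.1 : ℂ), β.2 + l.2) ∈ Bd
  bd_half : ∀ s : ℝ, ∃ (ω : ℂ) (h : ℝ), ‖ω‖ = 1 ∧ ∀ z ∈ HP ω h, ((s : ℂ), z) ∉ Bd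
  bd_sub : Bd ⊆ Dt
  dt_closed : IsClosed Dt
  dt_inv : ∀ β ∈ Dt, ∀ l ∈ LT, (β.1 + (l.1 : ℂ), β.2 + l.2) ∈ Dt
  dt_iso : ∀ (s : ℝ) (z : ℂ), ∀ᶠ z' in 𝓝[≠] z, ((s : ℂ), z') ∉ Dt
  fin : FF.Finite
  tr : ∀ Φ ∈ FF, ∀ l ∈ LT, (fun s z => Φ (s + l.1) (z + l.2)) ∈ FF
  lift : ∀ Φ ∈ FF, ∀ s : ℝ, ∃ F ∈ Gc X Λ u a (b + (s : ℂ) • ν), ∀ z, Φ s z = pr (F z)
  smo : ∀ Φ ∈ FF, ∀ (s : ℝ) (z : ℂ), ((s : ℂ), z) ∉ Dt → Smo X Λ u a ν b Φ s z
  str : ∀ Φ ∈ FF, ∀ (s : ℝ) (z : ℂ), ((s : ℂ), z) ∉ Bd → ∃ (χ : Chart (k + 2) X) (c : Vd (k + 1)) (ρ' : ℝ) (x : ℂ), Str Λ u χ c ρ' ∧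
    cz b ν a c ρ' x s z ∈ ball (0 : Vd (k + 2)) 2 ∧ Φ s z = pr (χ.σ (cz b ν a c ρ' x s z))
  gr : ∃ R₀ c : ℝ, 0 < R₀ ∧ 0 < c ∧ ∀ y, ∀ F ∈ Gc X Λ u a y, ∀ z, Real.log ‖F z‖ + c ≤ Real.circleAverage (fun w => Real.log ‖F w‖) z R₀

/-- the polynomial with the derivatives `v` at `0` -/
noncomputable def pol {m : ℕ} (v : Fin (m + 1) → ℂ) (t : ℂ) : ℂ := ∑ j : Fin (m + 1), v j / ((j : ℕ).factorial : ℂ) * t ^ (j : ℕ)

/-- the curve in the straight chart over the line `b + (s + t) ν + z a` with the jet `v` of the first coordinate -/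
noncomputable def crv (b ν a : Vd (k + 1)) (χ : Chart (k + 2) X) (c : Vd (k + 1)) (ρ : ℝ) (q : ℂ × ℂ × (Fin (m + 1) → ℂ)) (t : ℂ) : EN N :=
  χ.σ (cz b ν a c ρ (pol q.2.2 t) (q.1 + t) q.2.1)

/-- the jet form in the straight chart -/
noncomputable def QF (P : JForm X Λ u ν m) (b a : Vd (k + 1)) (χ : Chart (k + 2) X) (c : Vd (k + 1)) (ρ : ℝ) (q : ℂ × ℂ × (Fin (m + 1) → ℂ)) : ℂ :=
  P.toFun (jt m (crv b ν a χ c ρ q))

/-- the domain of `QF` -/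
def OD (b ν a c : Vd (k + 1)) (ρ : ℝ) (m : ℕ) : Set (ℂ × ℂ × (Fin (m + 1) → ℂ)) :=
  {q | cz b ν a c ρ (q.2.2 0) q.1 q.2.1 ∈ ball (0 : Vd (k + 2)) 2}

end Pool.Agent.G3.C

end

section

/-!
# G3 R SDefs: sheets over a real torus, local primitives, the statement on divided differences

`Shs`: a finite set of sheets (`A.Sht`) over `Tb b E`, permuted by the translations of `Λ ∩ E` (from `CE`, `sht_finite`, `sht_add`).
`Prm α y₀ v R Ψ`: `Ψ` is a primitive of the form `α` along the fibres, on the ball of radius `R` around the unit vector `v ∈ X` over `y₀`.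
`DDb m`: the divided differences of order `m` of the sheets in the direction `w` are bounded on `T ∩ Gd D δ` for every `δ > 0`; at the point `y` the sheets are considered in the affine chart `nv v`, `pr v = φ y`.
-/

set_option autoImplicit false

open Topology Filter Metric

namespace Pool.Agent.G3.R

open Pool.Agent.H36.BP (EN fs wd)
open Pool.Agent.H14.PP (IsCone CurveAt Tan)
open Pool.Agent.H62.EF (MN pr)
open Pool.Agent.AD (Vd Chart Charts IsGerm)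
open Pool.Agent.TG
open Pool.Agent.G3.C (Gc nv nd nv_pr)
open Pool.Agent.G3.A

variable {N k : ℕ}

/-- the sheets over the real torus `b + E` -/
structure Shs (X : Set (EN N)) (Λ : AddSubgroup (Vd (k + 1))) (u : EN N → Vd (k + 1)) (D : Set (Vd (k + 1))) (a b : Vd (k + 1)) (E : Submodule ℝ (Vd (k + 1)))
    (SS : Set (Vd (k + 1) → MN N)) : Prop where
  mem : ∀ z : ℂ, z • a ∈ E
  cpt : ∃ R : ℝ, 0 < R ∧ ∀ v ∈ E, ∃ l ∈ Λ, l ∈ E ∧ ‖v - l‖ ≤ R
  fin : SS.Finite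
  sht : ∀ φ ∈ SS, Sht X Λ u D a (Tb b E) φ
  tr : ∀ φ ∈ SS, ∀ l ∈ Λ, l ∈ E → ∃ φ' ∈ SS, ∀ y ∈ Tb b E, φ' y = φ (y + l)

/-- `Ψ` is a primitive of the form `α` along the fibres near the point `v` over `y₀` -/
structure Prm {X : Set (EN N)} {Λ : AddSubgroup (Vd (k + 1))} {u : EN N → Vd (k + 1)} (α : VForm X Λ u) (y₀ : Vd (k + 1)) (v : EN N) (R : ℝ) (Ψ : EN N → ℂ) : Prop where
  pos : 0 < R
  unit : ‖v‖ = 1
  mem : v ∈ X
  lift : u v - y₀ ∈ Λ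
  diff : DifferentiableOn ℂ Ψ (ball v R)
  jj : ∀ y ∈ ball y₀ R, ∀ x ∈ X, x ∈ ball v R → u x - y ∈ Λ → ∀ x' ∈ X, x' ∈ ball v R → u x' - y ∈ Λ → JJ α y (pr x) (pr x') = Ψ x' - Ψ x

/-- the divided differences of order `m` of the sheets are bounded on `T ∩ Gd D δ`, for every `δ > 0` -/
def DDb (D : Set (Vd (k + 1))) (T : Set (Vd (k + 1))) (SS : Set (Vd (k + 1) → MN N)) (w : Vd (k + 1)) (m : ℕ) : Prop :=
  ∀ δ : ℝ, 0 < δ → ∃ r C : ℝ, 0 < r ∧ 0 ≤ C ∧ ∀ φ ∈ SS, ∀ y ∈ T, y ∈ Gd D δ → ∀ v : EN N, ‖v‖ = 1 → pr v = φ y → ∀ σ : ℕ → ℝ, Nod m σ r →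
    ‖dd m σ fun s : ℝ => nv v (φ (y + (s : ℂ) • w))‖ ≤ C

end Pool.Agent.G3.R

end
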