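import Mathlib

/-! The parts of this file: H17.LinePoly, H17.Montel, H23.Defs, H36.BP.CirA. -/

section

/-!
# Restriction of a polynomial to the lines through a point
-/

open MvPolynomial

namespace Pool.Agent.H17

variable {σ : Type}

/-- Evaluation of a homogeneous polynomial at a multiple of a vector. -/
lemma eval_smul_of_isHomogeneous {P : MvPolynomial σ ℂ} {d : ℕ} (hP : P.IsHomogeneous d)
    (c : ℂ) (x : σ → ℂ) : eval (fun i => c * x i) P = c ^ d * eval x P := by
  classical
  rw [eval_eq, eval_eq, Finset.mul_sum]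
  refine Finset.sum_congr rfl ?_
  intro m hm
  have hdeg : m.degree = d := by
    by_contra hne
    exact (mem_support_iff.mp hm) (hP.coeff_eq_zero hne)
  have : ∏ i ∈ m.support, (c * x i) ^ m i = c ^ d * ∏ i ∈ m.support, x i ^ m i := by
    simp_rw [mul_pow]
    rw [Finset.prod_mul_distrib, Finset.prod_pow_eq_pow_sum]
    congr 2
  rw [this]
  ring

end Pool.Agent.H17

end

section

/-!
# Limits of bounded holomorphic functions along an ultrafilter
-/

open Topology Filter

namespace Pool.Agent.H17

variable {E : Type} [NormedAddCommGroup E] [NormedSpace ℂ E] [ProperSpace E] [CompleteSpace E]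

omit [ProperSpace E] [CompleteSpace E] in
/-- A bounded holomorphic function is Lipschitz on smaller discs. -/
lemma lipschitz_of_bounded {F : ℂ → E} {a : ℂ} {r B : ℝ}
    (hF : DifferentiableOn ℂ F (Metric.ball a r)) (hB : ∀ z ∈ Metric.ball a r, ‖F z‖ ≤ B)
    {z₀ : ℂ} {ρ : ℝ} (hρ : 0 < ρ) (hz₀ : Metric.ball z₀ (2 * ρ) ⊆ Metric.ball a r)
    {z w : ℂ} (hz : z ∈ Metric.ball z₀ ρ) (hw : w ∈ Metric.ball z₀ ρ) :
    ‖F w - F z‖ ≤ B / (ρ / 2) * ‖w - z‖ := by
  have hsub : ∀ y ∈ Metric.ball z₀ ρ, Metric.closedBall y (ρ / 2) ⊆ Metric.ball a r := by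
    intro y hy x hx
    apply hz₀
    rw [Metric.mem_ball] at hy ⊢
    rw [Metric.mem_closedBall] at hx
    calc dist x z₀ ≤ dist x y + dist y z₀ := dist_triangle _ _ _
      _ < 2 * ρ := by linarith
  refine Convex.norm_image_sub_le_of_norm_deriv_le (s := Metric.ball z₀ ρ) ?_ ?_
    (convex_ball z₀ ρ) hz hw
  · intro y hy
    have h1 : y ∈ Metric.ball a r := hsub y hy (Metric.mem_closedBall_self (by positivity))
    exact (hF y h1).differentiableAt (Metric.isOpen_ball.mem_nhds h1)
  · intro y hy
    refine Complex.norm_deriv_le_of_forall_mem_sphere_norm_le (by positivity) ?_ ?_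
    · apply DifferentiableOn.diffContOnCl
      refine hF.mono ?_
      exact (Metric.closure_ball_subset_closedBall).trans (hsub y hy)
    · intro x hx
      exact hB x (hsub y hy (Metric.sphere_subset_closedBall hx))

/-- **Montel's theorem along an ultrafilter.** -/
theorem montel_ultrafilter {κ : Type*} (𝒰 : Ultrafilter κ) {F : κ → ℂ → E} {a : ℂ} {r B : ℝ}
    (h1 : ∀ᶠ k in (𝒰 : Filter κ), DifferentiableOn ℂ (F k) (Metric.ball a r))
    (h2 : ∀ᶠ k in (𝒰 : Filter κ), ∀ z ∈ Metric.ball a r, ‖F k z‖ ≤ B) :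
    ∃ h : ℂ → E, DifferentiableOn ℂ h (Metric.ball a r) ∧
      TendstoLocallyUniformlyOn F h (𝒰 : Filter κ) (Metric.ball a r) := by
  classical
  have hlim : ∀ z, ∃ l : E, z ∈ Metric.ball a r → Tendsto (fun k => F k z) (𝒰 : Filter κ) (𝓝 l) := by
    intro z
    by_cases hz : z ∈ Metric.ball a r
    · have h3 : ∀ᶠ k in (𝒰 : Filter κ), F k z ∈ Metric.closedBall (0 : E) B := by
        filter_upwards [h2] with k hk
        rw [mem_closedBall_zero_iff]
        exact hk z hz
      obtain ⟨l, -, hl⟩ := (isCompact_closedBall (0 : E) B).ultrafilter_le_nhds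
        (𝒰.map fun k => F k z) (by
          rw [le_principal_iff]
          exact h3)
      exact ⟨l, fun _ => hl⟩
    · exact ⟨0, fun h => absurd h hz⟩
  choose h hh using hlim
  have hconv : TendstoLocallyUniformlyOn F h (𝒰 : Filter κ) (Metric.ball a r) := by
    rw [Metric.tendstoLocallyUniformlyOn_iff]
    intro ε hε z₀ hz₀
    have hrz : dist z₀ a < r := hz₀
    set ρ : ℝ := (r - dist z₀ a) / 2 with hρ
    have hρpos : 0 < ρ := by rw [hρ]; linarith
    have hsub : Metric.ball z₀ (2 * ρ) ⊆ Metric.ball a r := by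
      apply Metric.ball_subset_ball'
      rw [hρ]
      linarith
    set L : ℝ := |B| / (ρ / 2) + 1 with hL
    have hLpos : 0 < L := by positivity
    set η : ℝ := min ρ (ε / (4 * L)) with hη
    have hηpos : 0 < η := by positivity
    have hηρ : η ≤ ρ := min_le_left _ _
    have hηε : L * η ≤ ε / 4 := by
      have : η ≤ ε / (4 * L) := min_le_right _ _
      calc L * η ≤ L * (ε / (4 * L)) := by gcongr
        _ = ε / 4 := by field_simp
    have hlip : ∀ᶠ k in (𝒰 : Filter κ), ∀ z ∈ Metric.ball z₀ η, ‖F k z - F k z₀‖ ≤ ε / 4 := by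
      filter_upwards [h1, h2] with k hk1 hk2 z hz
      have h3 := lipschitz_of_bounded hk1 hk2 hρpos hsub (Metric.mem_ball_self hρpos)
        (Metric.ball_subset_ball hηρ hz)
      have h4 : ‖z - z₀‖ ≤ η := by
        rw [← dist_eq_norm]
        exact (Metric.mem_ball.mp hz).le
      calc ‖F k z - F k z₀‖ ≤ B / (ρ / 2) * ‖z - z₀‖ := h3
        _ ≤ L * η := by
          have h5 : B / (ρ / 2) ≤ L := by
            have : B / (ρ / 2) ≤ |B| / (ρ / 2) := by
              gcongr
              exact le_abs_self B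
            linarith
          calc B / (ρ / 2) * ‖z - z₀‖ ≤ L * ‖z - z₀‖ := by gcongr
            _ ≤ L * η := by gcongr
        _ ≤ ε / 4 := hηε
    refine ⟨Metric.ball z₀ η, mem_nhdsWithin_of_mem_nhds (Metric.ball_mem_nhds z₀ hηpos), ?_⟩
    have hlimlip : ∀ z ∈ Metric.ball z₀ η, ‖h z - h z₀‖ ≤ ε / 4 := by
      intro z hz
      have hza : z ∈ Metric.ball a r := hsub (Metric.ball_subset_ball (by linarith) hz)
      have h3 : Tendsto (fun k => ‖F k z - F k z₀‖) (𝒰 : Filter κ) (𝓝 ‖h z - h z₀‖) :=
        ((hh z hza).sub (hh z₀ hz₀)).norm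
      exact le_of_tendsto h3 (hlip.mono fun k hk => hk z hz)
    have hz₀lim : ∀ᶠ k in (𝒰 : Filter κ), ‖F k z₀ - h z₀‖ < ε / 4 := by
      have h3 := hh z₀ hz₀
      rw [Metric.tendsto_nhds] at h3
      filter_upwards [h3 (ε / 4) (by positivity)] with k hk
      rwa [dist_eq_norm] at hk
    filter_upwards [hlip, hz₀lim] with k hk1 hk2 z hz
    rw [dist_eq_norm]
    have e : h z - F k z = (h z - h z₀) - (F k z₀ - h z₀) - (F k z - F k z₀) := by abel
    rw [e]
    calc ‖(h z - h z₀) - (F k z₀ - h z₀) - (F k z - F k z₀)‖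
        ≤ ‖(h z - h z₀) - (F k z₀ - h z₀)‖ + ‖F k z - F k z₀‖ := norm_sub_le _ _
      _ ≤ ‖h z - h z₀‖ + ‖F k z₀ - h z₀‖ + ‖F k z - F k z₀‖ := by
        gcongr
        exact norm_sub_le _ _
      _ < ε := by
        have := hlimlip z hz
        have := hk1 z hz
        linarith
  refine ⟨h, ?_, hconv⟩
  exact hconv.differentiableOn h1 Metric.isOpen_ball

end Pool.Agent.H17

end

section

/-!
# K-semistability of Fano varieties over the complex numbers: definitions

Smooth projective varieties with ample anticanonical divisor, pluri-anticanonical sections,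
prime divisors over a variety, log discrepancies, the invariant `S`, and the valuative criterion
of Fujita and Li.
-/

open AlgebraicGeometry CategoryTheory MeasureTheory Filter
open scoped ENNReal

noncomputable section

namespace Pool.Agent.H23

/-! ## Birational algebra in a function field -/

section FunctionField

variable (K : Type) [Field K] [Algebra ℂ K] (n : ℕ)

/-- Rational `n`-forms of the function field `K` over `ℂ`: the `K`-vector space `⋀ⁿ Ω_{K/ℂ}`. -/
abbrev RatForm : Type := ⋀[K]^n Ω[K⁄ℂ]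

variable {K}

/-- The regular `n`-forms of a `ℂ`-subalgebra `A` of `K`, that is the image of
`⋀ⁿ Ω_{A/ℂ}` in `⋀ⁿ Ω_{K/ℂ}`: all finite sums of forms `c da₁ ∧ ⋯ ∧ daₙ` with
`c, a₁, …, aₙ ∈ A`. -/
def regularForms (A : Subalgebra ℂ K) : AddSubgroup (RatForm K n) :=
  AddSubgroup.closure {ω | ∃ (c : K) (a : Fin n → K), c ∈ A ∧ (∀ i, a i ∈ A) ∧
    ω = c • exteriorPower.ιMulti K n (fun i => KaehlerDifferential.D ℂ K (a i))}

variable {ι : Type} (O : ι → Subalgebra ℂ K)

/-- Let `O x`, `x : ι`, be the local rings of a smooth variety `X` of dimension `n` with function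
field `K`. A rational section of `-m K_X` is a function `φ` on rational `n`-forms with
`φ (g • ω) = g ^ m * φ ω`; it is regular at `x` if it takes the regular `n`-forms at `x` to
`O x`. This is the space `H⁰(X, -m K_X)` of everywhere regular sections. -/
def antiSections (m : ℕ) : Submodule ℂ (RatForm K n → K) where
  carrier := {φ | (∀ (g : K) (ω : RatForm K n), φ (g • ω) = g ^ m * φ ω) ∧
    ∀ x, ∀ ω ∈ regularForms n (O x), φ ω ∈ O x}
  add_mem' := by
    rintro φ ψ ⟨h1, h2⟩ ⟨h3, h4⟩
    refine ⟨fun g ω => ?_, fun x ω hω => ?_⟩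
    · simp only [Pi.add_apply, h1, h3, mul_add]
    · exact (O x).add_mem (h2 x ω hω) (h4 x ω hω)
  zero_mem' := ⟨fun g ω => by simp, fun x ω _ => (O x).zero_mem⟩
  smul_mem' := by
    rintro c φ ⟨h1, h2⟩
    refine ⟨fun g ω => ?_, fun x ω hω => ?_⟩
    · simp only [Pi.smul_apply, h1, mul_smul_comm]
    · exact (O x).smul_mem (h2 x ω hω) c

/-- The valuation ring of a valuation which is trivial on `ℂ`. -/
def valRing (v : AddValuation K (WithTop ℤ)) (hv : ∀ c : ℂ, 0 ≤ v (algebraMap ℂ K c)) :
    Subalgebra ℂ K where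
  carrier := {f | 0 ≤ v f}
  mul_mem' := fun {a b} ha hb => by
    simp only [Set.mem_ofPred_eq, AddValuation.map_mul] at *
    exact add_nonneg ha hb
  add_mem' := fun {a b} ha hb => by
    simp only [Set.mem_ofPred_eq] at *
    exact le_trans (le_min ha hb) (v.map_add a b)
  algebraMap_mem' := hv

variable (K) in
/-- A prime divisor over a variety of dimension `n` with function field `K`, given by its order
function: a discrete valuation of `K`, normalised to have value group `ℤ`, trivial on `ℂ`, whose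
residue field has transcendence degree `n - 1` over `ℂ` (that is, there are `n - 1` elements of
the valuation ring whose residue classes are algebraically independent over `ℂ`). -/
structure PrimeDivisorOver where
  /-- the order of vanishing along the divisor -/
  ord : AddValuation K (WithTop ℤ)
  ord_const : ∀ c : ℂ, 0 ≤ ord (algebraMap ℂ K c)
  exists_uniformizer : ∃ t : K, ord t = 1
  residue_trdeg : ∃ s : Fin (n - 1) → K, (∀ i, 0 ≤ ord (s i)) ∧
    ∀ p : MvPolynomial (Fin (n - 1)) ℂ, p ≠ 0 → ord (MvPolynomial.aeval s p) = 0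

variable {n}

/-- The local ring of the generic point of a prime divisor over `X`. -/
def PrimeDivisorOver.localRing (E : PrimeDivisorOver K n) : Subalgebra ℂ K :=
  valRing E.ord E.ord_const

variable (n)

end FunctionField

/-! ## Varieties -/

section Scheme

variable {X : Scheme.{0}} (s : X ⟶ Spec (.of ℂ)) [IsIntegral X]

/-- The function field of a complex variety is a `ℂ`-algebra. -/
@[reducible]
def functionFieldAlgebra : Algebra ℂ X.functionField :=
  RingHom.toAlgebra ((Scheme.ΓSpecIso (.of ℂ)).inv ≫ s.appTop ≫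
    X.presheaf.germ ⊤ (genericPoint X) (TopologicalSpace.Opens.mem_top _)).hom

/-- The local ring of a complex variety at a point, as a subalgebra of the function field. -/
def localRingAt (x : X) :
    letI := functionFieldAlgebra s
    Subalgebra ℂ X.functionField :=
  letI := functionFieldAlgebra s
  { (algebraMap (X.presheaf.stalk x) X.functionField).range with
    algebraMap_mem' := fun c => by
      refine ⟨((Scheme.ΓSpecIso (.of ℂ)).inv ≫ s.appTop ≫
        X.presheaf.germ ⊤ x (TopologicalSpace.Opens.mem_top _)).hom c, ?_⟩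
      change (((Scheme.ΓSpecIso (.of ℂ)).inv ≫ s.appTop ≫
        X.presheaf.germ ⊤ x (TopologicalSpace.Opens.mem_top _)) ≫
          X.presheaf.stalkSpecializes ((genericPoint_spec X).specializes trivial)).hom c =
        ((Scheme.ΓSpecIso (.of ℂ)).inv ≫ s.appTop ≫
          X.presheaf.germ ⊤ (genericPoint X) (TopologicalSpace.Opens.mem_top _)).hom c
      rw [Category.assoc, Category.assoc, X.presheaf.germ_stalkSpecializes] }

/-- `-K_X` is ample: every point of `X` has an open affine neighbourhood of the form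
`X_φ = {y | φ generates the sheaf of sections of -m K_X at y}` with `m ≥ 1` and
`φ ∈ H⁰(X, -m K_X)`. -/
def AntiAmple (n : ℕ) : Prop :=
  letI := functionFieldAlgebra s
  ∀ x : X, ∃ m : ℕ, 1 ≤ m ∧ ∃ φ ∈ antiSections n (localRingAt s) m, ∃ U : X.Opens,
    IsAffineOpen U ∧ x ∈ U ∧ ∀ y : X, y ∈ U ↔
      ∃ ω ∈ regularForms n (localRingAt s y), φ ω ≠ 0 ∧ (φ ω)⁻¹ ∈ localRingAt s y

end Scheme

/-- A Fano variety of dimension `n` over `ℂ`: a smooth projective variety of dimension `n` with
ample anticanonical divisor. -/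
structure FanoVariety (n : ℕ) where
  /-- the underlying scheme -/
  X : Scheme.{0}
  /-- the structure morphism -/
  str : X ⟶ Spec (.of ℂ)
  [integral : IsIntegral X]
  proper : IsProper str
  smooth : SmoothOfRelativeDimension n str
  ample : AntiAmple str n


end Pool.Agent.H23

end
end

section

/-!
# BP CirA: approximation on one circle

Trigonometric polynomials are dense in the continuous functions on the circle (`span_fourier_closure_eq_top`, or Stone-Weierstrass on the compact set
`sphere 0 R` with the star subalgebra generated by `z`: on the circle `conj z = R²/z`).  A real continuous function is within `ε` of `Re P`, `P = ∑_{|n| ≤ m} c_n z^n`, and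
`Re(c_(-n) z^(-n)) = Re(conj(c_(-n)) R^(-2n) z^n)` on the circle, so `P` can be taken to be a polynomial.
`trig_approx`: the form needed for the annulus: finitely many coefficients `c 0, ..., c m`, `|φ(R e^(iθ)) - Re ∑ c_n e^(inθ)| ≤ ε`.
-/

set_option autoImplicit false

namespace Pool.Agent.H36.BP

open Filter Topology Metric

variable {N : ℕ}

private theorem CirA_span (g : C(AddCircle (2 * Real.pi), ℂ)) (hg : g ∈ Submodule.span ℂ (Set.range (@fourier (2 * Real.pi)))) :
    ∀ a : ℂ, ∃ p : Polynomial ℂ, ∀ θ : ℝ, (a * g (θ : AddCircle (2 * Real.pi))).re = (p.eval (Complex.exp (θ * Complex.I))).re := by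
  induction hg using Submodule.span_induction with
  | mem x hx =>
    intro a
    obtain ⟨k, rfl⟩ := hx
    have hpi : (Real.pi : ℂ) ≠ 0 := by exact_mod_cast Real.pi_ne_zero
    have hval : ∀ θ : ℝ, (fourier k (θ : AddCircle (2 * Real.pi)) : ℂ) = Complex.exp (k * (θ * Complex.I)) := by
      intro θ
      rw [fourier_coe_apply]
      congr 1
      push_cast
      field_simp
    rcases Int.eq_nat_or_neg k with ⟨n, rfl | rfl⟩
    · refine ⟨Polynomial.C a * Polynomial.X ^ n, fun θ => ?_⟩
      rw [hval]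
      simp only [Polynomial.eval_mul, Polynomial.eval_C, Polynomial.eval_pow, Polynomial.eval_X]
      rw [← Complex.exp_nat_mul]
      push_cast
      rfl
    · refine ⟨Polynomial.C ((starRingEnd ℂ) a) * Polynomial.X ^ n, fun θ => ?_⟩
      rw [hval]
      simp only [Polynomial.eval_mul, Polynomial.eval_C, Polynomial.eval_pow, Polynomial.eval_X]
      rw [← Complex.exp_nat_mul]
      rw [← Complex.conj_re (a * _), map_mul, ← Complex.exp_conj]
      congr 3
      simp [Complex.conj_ofReal]
  | zero =>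
    intro a
    exact ⟨0, fun θ => by simp⟩
  | add x y _ _ hx hy =>
    intro a
    obtain ⟨p, hp⟩ := hx a
    obtain ⟨q, hq⟩ := hy a
    refine ⟨p + q, fun θ => ?_⟩
    rw [ContinuousMap.add_apply, mul_add, Complex.add_re, hp, hq, Polynomial.eval_add, Complex.add_re]
  | smul b x _ hx =>
    intro a
    obtain ⟨p, hp⟩ := hx (a * b)
    refine ⟨p, fun θ => ?_⟩
    rw [← hp, ContinuousMap.smul_apply, smul_eq_mul, mul_assoc]

theorem trig_approx (φ : ℝ → ℝ) (hφ : Continuous φ) (hper : ∀ θ, φ (θ + 2 * Real.pi) = φ θ) {ε : ℝ} (hε : 0 < ε) :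
    ∃ (m : ℕ) (c : ℕ → ℂ), ∀ θ : ℝ, |φ θ - (∑ n ∈ Finset.range (m + 1), c n * Complex.exp (n * (θ * Complex.I))).re| ≤ ε := by
  have : Fact (0 < 2 * Real.pi) := ⟨Real.two_pi_pos⟩
  have hP : Function.Periodic φ (2 * Real.pi) := hper
  have hcont : Continuous (hP.lift) := by
    exact continuous_coinduced_dom.mpr hφ
  let F : C(AddCircle (2 * Real.pi), ℂ) := ⟨fun x => ((hP.lift x : ℝ) : ℂ), Complex.continuous_ofReal.comp hcont⟩
  have hF : F ∈ (Submodule.span ℂ (Set.range (@fourier (2 * Real.pi)))).topologicalClosure := by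
    rw [span_fourier_closure_eq_top]
    trivial
  have hF2 : F ∈ closure ((Submodule.span ℂ (Set.range (@fourier (2 * Real.pi))) : Submodule ℂ C(AddCircle (2 * Real.pi), ℂ)) : Set C(AddCircle (2 * Real.pi), ℂ)) := hF
  obtain ⟨g, hg, hgd⟩ := Metric.mem_closure_iff.mp hF2 ε hε
  obtain ⟨p, hp⟩ := CirA_span g hg 1
  refine ⟨p.natDegree, p.coeff, fun θ => ?_⟩
  have h1 : (∑ n ∈ Finset.range (p.natDegree + 1), p.coeff n * Complex.exp (n * (θ * Complex.I))) = p.eval (Complex.exp (θ * Complex.I)) := by
    rw [Polynomial.eval_eq_sum_range]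
    refine Finset.sum_congr rfl fun n _ => ?_
    rw [← Complex.exp_nat_mul]
  rw [h1, ← hp θ, one_mul]
  have h2 : ‖(F - g) (θ : AddCircle (2 * Real.pi))‖ ≤ ε := by
    refine le_trans (ContinuousMap.norm_coe_le_norm _ _) ?_
    rw [← dist_eq_norm]
    exact hgd.le
  have h3 : φ θ - (g (θ : AddCircle (2 * Real.pi))).re = ((F - g) (θ : AddCircle (2 * Real.pi))).re := by
    rw [ContinuousMap.sub_apply, Complex.sub_re]
    have h4 : F (θ : AddCircle (2 * Real.pi)) = ((φ θ : ℝ) : ℂ) := by
      change ((hP.lift (θ : AddCircle (2 * Real.pi)) : ℝ) : ℂ) = _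
      rw [Function.Periodic.lift_coe]
    rw [h4, Complex.ofReal_re]
  rw [h3]
  exact (Complex.abs_re_le_norm _).trans h2

theorem circle_approx {R : ℝ} (hR : 0 < R) (φ : ℂ → ℝ) (hφ : ContinuousOn φ (sphere (0 : ℂ) R)) {ε : ℝ} (hε : 0 < ε) :
    ∃ g : ℂ → ℂ, Differentiable ℂ g ∧ ∀ z ∈ sphere (0 : ℂ) R, |(g z).re - φ z| ≤ ε := by
  have hmem : ∀ θ : ℝ, ((R : ℂ) * Complex.exp (θ * Complex.I)) ∈ sphere (0 : ℂ) R := by
    intro θ
    rw [mem_sphere_zero_iff_norm, norm_mul, Complex.norm_exp_ofReal_mul_I, mul_one, Complex.norm_real, Real.norm_eq_abs, abs_of_pos hR]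
  have hc : Continuous fun θ : ℝ => φ ((R : ℂ) * Complex.exp (θ * Complex.I)) := by
    refine hφ.comp_continuous ?_ hmem
    exact continuous_const.mul (Complex.continuous_exp.comp (Complex.continuous_ofReal.mul continuous_const))
  have hper : ∀ θ : ℝ, φ ((R : ℂ) * Complex.exp (((θ + 2 * Real.pi : ℝ) : ℂ) * Complex.I)) = φ ((R : ℂ) * Complex.exp ((θ : ℂ) * Complex.I)) := by
    intro θ
    congr 2
    push_cast
    rw [add_mul]
    exact Complex.exp_periodic _
  obtain ⟨m, c, hmc⟩ := trig_approx (fun θ : ℝ => φ ((R : ℂ) * Complex.exp (θ * Complex.I))) hc hper hε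
  refine ⟨fun z => ∑ n ∈ Finset.range (m + 1), c n * (z / R) ^ n, ?_, ?_⟩
  · refine Differentiable.fun_sum fun n _ => ?_
    exact ((differentiable_id.div_const _).pow n).const_mul _
  · intro z hz
    have hRne : (R : ℂ) ≠ 0 := by exact_mod_cast hR.ne'
    have hzn : ‖z‖ = R := mem_sphere_zero_iff_norm.mp hz
    have hz1 : z = (R : ℂ) * Complex.exp ((z.arg : ℝ) * Complex.I) := by
      conv_lhs => rw [← Complex.norm_mul_exp_arg_mul_I z, hzn]
    have h := hmc z.arg
    have h5 : (∑ n ∈ Finset.range (m + 1), c n * (z / R) ^ n) = ∑ n ∈ Finset.range (m + 1), c n * Complex.exp (n * ((z.arg : ℝ) * Complex.I)) := by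
      refine Finset.sum_congr rfl fun n _ => ?_
      have : z / R = Complex.exp ((z.arg : ℝ) * Complex.I) := by
        rw [div_eq_iff hRne, mul_comm]
        exact hz1
      rw [this, Complex.exp_nat_mul]
    simp only
    rw [h5, abs_sub_comm]
    simp only [← hz1] at h
    exact h

end Pool.Agent.H36.BP

end
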