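import Pool.Agent.H94.G4T.H36.BP.Defs_1
import Pool.Agent.H94.G4T.M02
import Pool.Agent.H94.G4T.M03
import Pool.Agent.H94.G4T.M12
import Pool.Agent.H94.G4T.M26

/-! The parts of this file: H17.Projective, H17.BrodyLimit, H36.BP.MaxP, H36.BP.MtA, H62.EL.Kq. -/

section

/-!
# Separation of points and charts of projective space
-/

open Topology Filter

namespace Pool.Agent.H17

variable {N : ℕ}

/-- The vector of the `2 × 2` minors. -/
def minors (v w : Fin (N + 1) → ℂ) : Fin (N + 1) × Fin (N + 1) → ℂ :=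
  fun p => v p.1 * w p.2 - v p.2 * w p.1

/-- The separation of two vectors. -/
noncomputable def sepv (v w : Fin (N + 1) → ℂ) : ℝ := ‖minors v w‖ / (‖v‖ * ‖w‖)

/-- The separation of two points of projective space. -/
noncomputable def sep (p q : PN N) : ℝ := sepv p.rep q.rep

lemma minors_smul (a b : ℂ) (v w : Fin (N + 1) → ℂ) :
    minors (a • v) (b • w) = (a * b) • minors v w := by
  funext p
  simp only [minors, Pi.smul_apply, smul_eq_mul]
  ring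

lemma sepv_smul {a b : ℂ} (ha : a ≠ 0) (hb : b ≠ 0) (v w : Fin (N + 1) → ℂ) :
    sepv (a • v) (b • w) = sepv v w := by
  unfold sepv
  rw [minors_smul, norm_smul, norm_smul, norm_smul, norm_mul]
  have h1 := norm_pos_iff.mpr ha
  have h2 := norm_pos_iff.mpr hb
  rw [show ‖a‖ * ‖v‖ * (‖b‖ * ‖w‖) = (‖a‖ * ‖b‖) * (‖v‖ * ‖w‖) by ring]
  rw [mul_div_mul_left _ _ (by positivity)]

lemma exists_smul_rep (v : Fin (N + 1) → ℂ) (hv : v ≠ 0) :
    ∃ a : ℂ, a ≠ 0 ∧ (Projectivization.mk ℂ v hv).rep = a • v := by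
  obtain ⟨a, ha⟩ := Projectivization.exists_smul_eq_mk_rep ℂ v hv
  exact ⟨a, a.ne_zero, by rw [← ha]; rfl⟩

lemma sep_mk (v w : Fin (N + 1) → ℂ) (hv : v ≠ 0) (hw : w ≠ 0) :
    sep (Projectivization.mk ℂ v hv) (Projectivization.mk ℂ w hw) = sepv v w := by
  obtain ⟨a, ha, h1⟩ := exists_smul_rep v hv
  obtain ⟨b, hb, h2⟩ := exists_smul_rep w hw
  unfold sep
  rw [h1, h2, sepv_smul ha hb]

lemma minors_self (v : Fin (N + 1) → ℂ) : minors v v = 0 := by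
  funext p
  simp only [minors, Pi.zero_apply]
  ring

/-- Vectors with vanishing minors are proportional. -/
lemma mk_eq_of_minors {v w : Fin (N + 1) → ℂ} (hv : v ≠ 0) (hw : w ≠ 0) (h : minors v w = 0) :
    Projectivization.mk ℂ v hv = Projectivization.mk ℂ w hw := by
  obtain ⟨i, hi⟩ : ∃ i, w i ≠ 0 := by
    by_contra hcon
    push Not at hcon
    exact hw (funext hcon)
  have hcross : ∀ j, v i * w j = v j * w i := fun j => by
    have := congrFun h (i, j)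
    simp only [minors, Pi.zero_apply] at this
    exact sub_eq_zero.mp this
  have hvi : v i ≠ 0 := by
    intro h0
    apply hv
    funext j
    have h1 := hcross j
    rw [h0, zero_mul] at h1
    exact (mul_eq_zero.mp h1.symm).resolve_right hi
  rw [Projectivization.mk_eq_mk_iff]
  refine ⟨Units.mk0 (v i / w i) (div_ne_zero hvi hi), ?_⟩
  funext j
  change v i / w i * w j = v j
  have h1 := hcross j
  field_simp
  linear_combination h1

lemma eq_of_sepv_eq_zero {v w : Fin (N + 1) → ℂ} (hv : v ≠ 0) (hw : w ≠ 0) (h : sepv v w = 0) :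
    Projectivization.mk ℂ v hv = Projectivization.mk ℂ w hw := by
  apply mk_eq_of_minors hv hw
  unfold sepv at h
  have h1 : ‖v‖ * ‖w‖ ≠ 0 := mul_ne_zero (norm_ne_zero_iff.mpr hv) (norm_ne_zero_iff.mpr hw)
  rcases div_eq_zero_iff.mp h with h2 | h2
  · exact norm_eq_zero.mp h2
  · exact absurd h2 h1

/-- Continuity of the separation. -/
lemma continuousAt_sepv {v w : Fin (N + 1) → ℂ} (hv : v ≠ 0) (hw : w ≠ 0) :
    ContinuousAt (fun p : (Fin (N + 1) → ℂ) × (Fin (N + 1) → ℂ) => sepv p.1 p.2) (v, w) := by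
  unfold sepv
  refine ContinuousAt.div ?_ ?_ ?_
  · apply Continuous.continuousAt
    refine Continuous.norm ?_
    refine continuous_pi fun q => ?_
    unfold minors
    fun_prop
  · fun_prop
  · exact mul_ne_zero (norm_ne_zero_iff.mpr hv) (norm_ne_zero_iff.mpr hw)

/-- Holomorphic maps into projective space are continuous for the separation. -/
lemma tendsto_sep {f : ℂ → PN N} {U : Set ℂ} (hf : HolomorphicInto f U) {z₀ : ℂ} (hz₀ : z₀ ∈ U) :
    Tendsto (fun p : ℂ × ℂ => sep (f p.1) (f p.2)) (𝓝 (z₀, z₀)) (𝓝 0) := by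
  obtain ⟨φ, hφ, he⟩ := hf z₀ hz₀
  obtain ⟨h0, -⟩ := he.self_of_nhds
  have h1 := continuousAt_sepv h0 h0
  have h2 : Tendsto (fun p : ℂ × ℂ => (φ p.1, φ p.2)) (𝓝 (z₀, z₀)) (𝓝 (φ z₀, φ z₀)) := by
    have h3 := hφ.continuousAt
    exact (h3.tendsto.comp (continuous_fst.tendsto' (z₀, z₀) z₀ rfl)).prodMk_nhds
      (h3.tendsto.comp (continuous_snd.tendsto' (z₀, z₀) z₀ rfl))
  have h3 := h1.tendsto.comp h2
  have h4 : sepv (φ z₀) (φ z₀) = 0 := by
    unfold sepv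
    rw [minors_self]
    simp
  simp only [h4] at h3
  refine h3.congr' ?_
  have h5 : ∀ᶠ p : ℂ × ℂ in 𝓝 (z₀, z₀), (∃ h : φ p.1 ≠ 0, f p.1 = Projectivization.mk ℂ (φ p.1) h) ∧
      (∃ h : φ p.2 ≠ 0, f p.2 = Projectivization.mk ℂ (φ p.2) h) := by
    rw [nhds_prod_eq]
    exact (he.prod_mk he)
  filter_upwards [h5] with p hp
  obtain ⟨⟨h6, h7⟩, h8, h9⟩ := hp
  rw [h7, h9, sep_mk]
  rfl

end Pool.Agent.H17

end

section

/-!
# Limits of holomorphic curves in families of projective algebraic sets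
-/

open Topology Filter

namespace Pool.Agent.H17

variable {N : ℕ}

/-- The common zero locus of a family of forms. -/
def zeroLocus {κ : Type} (G : κ → MvPolynomial (Fin (N + 1)) ℂ) : Set (PN N) :=
  {x | ∀ l, VanishesAt (G l) x}

lemma vanishesAt_mk_iff {P : MvPolynomial (Fin (N + 1)) ℂ} {d : ℕ} (hP : P.IsHomogeneous d)
    (v : Fin (N + 1) → ℂ) (hv : v ≠ 0) :
    VanishesAt P (Projectivization.mk ℂ v hv) ↔ MvPolynomial.eval v P = 0 := by
  obtain ⟨a, ha, h1⟩ := exists_smul_rep v hv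
  unfold VanishesAt
  have h2 : (a • v) = fun k => a * v k := by
    funext k
    simp
  rw [h1, h2, eval_smul_of_isHomogeneous hP]
  constructor
  · intro h
    exact (mul_eq_zero.mp h).resolve_left (pow_ne_zero _ ha)
  · intro h
    rw [h, mul_zero]

end Pool.Agent.H17

end

section

/-!
# BP MaxP: the maximum principle

* `not_isLocalMax`: with `0 < c' < c`: `|h z| exp(c'|z - z₀|²) ≤ u z ≤ u z₀ = |h z₀|` near `z₀`, so `|h|` has a local maximum at `z₀`, hence `h` is constant near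
  `z₀` (`Complex.eventually_eq_of_isLocalMax_norm`), and `|h z₀| exp(c'|z - z₀|²) ≤ |h z₀|` for `z ≠ z₀` near `z₀`: contradiction.
* `max_principle`: otherwise the maximum of `u` over the compact set (`UpperSemicontinuousOn.exists_isMaxOn`) is `> A ≥ 0` and is attained in `U`.
-/

set_option autoImplicit false

namespace Pool.Agent.H36.BP

open Filter Topology Metric

variable {N : ℕ}

theorem Sub.not_isLocalMax {u : ℂ → ℝ} {z₀ : ℂ} {c : ℝ} (h : Sub u z₀ c) (hc : 0 < c) : ¬ IsLocalMax u z₀ := by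
  intro hmax
  obtain ⟨hpos, hsup⟩ := h
  obtain ⟨f, hf, hf0, hfu⟩ := hsup (c / 2) (by linarith)
  have hmax' : ∀ᶠ z in 𝓝 z₀, u z ≤ u z₀ := hmax
  have h1 : IsLocalMax (norm ∘ f) z₀ := by
    filter_upwards [hfu, hmax'] with z hz1 hz2
    simp only [Function.comp_apply]
    rw [hf0]
    refine le_trans ?_ (hz1.trans hz2)
    refine le_mul_of_one_le_right (norm_nonneg _) ?_
    exact Real.one_le_exp (by positivity)
  have h2 : ∀ᶠ z in 𝓝 z₀, DifferentiableAt ℂ f z :=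
    hf.eventually_analyticAt.mono fun z hz => hz.differentiableAt
  have h3 := Complex.eventually_eq_of_isLocalMax_norm h2 h1
  have h4 : ∀ᶠ z in 𝓝 z₀, z = z₀ := by
    filter_upwards [hfu, hmax', h3] with z hz1 hz2 hz3
    by_contra hne
    rw [hz3, hf0] at hz1
    have h5 : u z₀ * Real.exp (c / 2 * ‖z - z₀‖ ^ 2) ≤ u z₀ * 1 := by
      rw [mul_one]
      exact hz1.trans hz2
    have h6 := le_of_mul_le_mul_left h5 hpos
    rw [Real.exp_le_one_iff] at h6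
    have h7 : 0 < ‖z - z₀‖ := norm_pos_iff.2 (sub_ne_zero.2 hne)
    have h8 : 0 < c / 2 * ‖z - z₀‖ ^ 2 := by positivity
    linarith
  have h9 : ∀ᶠ z in 𝓝[≠] z₀, z = z₀ := h4.filter_mono nhdsWithin_le_nhds
  have h10 : ∀ᶠ z in 𝓝[≠] z₀, z ≠ z₀ := eventually_mem_nhdsWithin
  obtain ⟨z, hz1, hz2⟩ := (h9.and h10).exists
  exact hz2 hz1

theorem max_principle {S U : Set ℂ} (hS : IsCompact S) (hU : IsOpen U) (hUS : U ⊆ S) {u : ℂ → ℝ}
    (husc : UpperSemicontinuousOn u S) (hsub : ∀ z ∈ U, 0 < u z → ∃ c, 0 < c ∧ Sub u z c) {A : ℝ} (hA : 0 ≤ A)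
    (hbd : ∀ z ∈ S \ U, u z ≤ A) : ∀ z ∈ S, u z ≤ A := by
  intro z hz
  by_contra hlt
  push Not at hlt
  obtain ⟨a, haS, hmax⟩ := UpperSemicontinuousOn.exists_isMaxOn ⟨z, hz⟩ hS husc
  have h1 : u z ≤ u a := hmax hz
  have haU : a ∈ U := by
    by_contra haU
    have := hbd a ⟨haS, haU⟩
    linarith
  obtain ⟨c, hc, hs⟩ := hsub a haU (by linarith)
  refine hs.not_isLocalMax hc ?_
  filter_upwards [hU.mem_nhds haU] with w hw
  exact hmax (hUS hw)

end Pool.Agent.H36.BP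

end

section

/-!
# BP MtA: the metric along a curve

* `mt_usc`: `F` and `deriv F` are continuous near `z`, `usc`.
* `mt_smul`: for `k` holomorphic without zeros at `z`: `(k F)' = k F' + k' F`, `inv`.
* `mt_comp`: `(F ∘ φ)' = φ' F' ∘ φ`, `hom`.
* `mt_limit`: `F n → H` locally uniformly on a neighbourhood of `0`, then `F n 0 → H 0`, `(F n)' 0 → H' 0` (`TendstoLocallyUniformlyOn.deriv`), `usc` at `(H 0, H' 0)`.
-/

set_option autoImplicit false

namespace Pool.Agent.H36.BP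

open Filter Topology Metric

variable {N : ℕ}

variable {K B : Set (EN N)} {G : EN N → EN N → ℝ} {ρ : EN N → ℝ} {M : ℕ} {c₀ C : ℝ}

theorem mt_usc (hM : MetricData K B G ρ M c₀ C) {U : Set ℂ} (hU : IsOpen U) {F : ℂ → EN N} (hF : Curve K U F) :
    UpperSemicontinuousOn (mt G F) U := by
  intro z hz y hy
  have hA : AnalyticAt ℂ F z := hF.1.analyticAt (hU.mem_nhds hz)
  have hc : ContinuousAt (fun w => (F w, deriv F w)) z := hA.continuousAt.prodMk hA.deriv.continuousAt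
  have h1 := hM.usc (F z) (hF.2 z hz) (deriv F z) y hy
  have h2 := hc.eventually h1
  filter_upwards [nhdsWithin_le_nhds h2, self_mem_nhdsWithin] with w hw hwU
  exact hw (hF.2 w hwU)

theorem mt_nonneg (hM : MetricData K B G ρ M c₀ C) {F : ℂ → EN N} {z : ℂ} (hz : F z ∈ K) : 0 ≤ mt G F z := by
  exact hM.nonneg _ hz _

theorem mt_smul (hM : MetricData K B G ρ M c₀ C) {F : ℂ → EN N} {k : ℂ → ℂ} {z : ℂ} (hF : DifferentiableAt ℂ F z)
    (hk : DifferentiableAt ℂ k z) (hz : F z ∈ K) (h0 : k z ≠ 0) : mt G (fun z => k z • F z) z = mt G F z := by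
  have h : deriv (fun z => k z • F z) z = k z • deriv F z + deriv k z • F z := by
    have := (hk.hasDerivAt.smul hF.hasDerivAt).deriv
    exact this
  unfold mt
  rw [h]
  exact hM.inv (F z) hz (deriv F z) (k z) (deriv k z) h0

theorem mt_comp (hM : MetricData K B G ρ M c₀ C) {F : ℂ → EN N} {φ : ℂ → ℂ} {z : ℂ} (hF : DifferentiableAt ℂ F (φ z))
    (hφ : DifferentiableAt ℂ φ z) (hz : F (φ z) ∈ K) : mt G (fun z => F (φ z)) z = ‖deriv φ z‖ * mt G F (φ z) := by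
  have h : deriv (fun z => F (φ z)) z = deriv φ z • deriv F (φ z) := by
    have := (HasDerivAt.scomp z hF.hasDerivAt hφ.hasDerivAt).deriv
    exact this
  unfold mt
  rw [h]
  exact hM.hom (F (φ z)) hz (deriv F (φ z)) (deriv φ z)

theorem mt_limit (hM : MetricData K B G ρ M c₀ C) {κ : Type} {l : Filter κ} [l.NeBot] {F : κ → ℂ → EN N} {H : ℂ → EN N} {s : ℝ} (hs : 0 < s)
    (hF : ∀ᶠ n in l, Curve K (ball 0 s) (F n)) (hH : TendstoLocallyUniformlyOn F H l (ball 0 s)) (h0 : H 0 ∈ K) {a : ℝ}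
    (ha : ∀ᶠ n in l, a ≤ mt G (F n) 0) : a ≤ mt G H 0 := by
  by_contra hlt
  rw [not_le] at hlt
  have hmem : (0 : ℂ) ∈ ball (0 : ℂ) s := mem_ball_self hs
  have h1 : Tendsto (fun n => F n 0) l (𝓝 (H 0)) := hH.tendsto_at hmem
  have hd : TendstoLocallyUniformlyOn (deriv ∘ F) (deriv H) l (ball 0 s) :=
    hH.deriv (hF.mono fun n hn => hn.1) isOpen_ball
  have h2 : Tendsto (fun n => deriv (F n) 0) l (𝓝 (deriv H 0)) := hd.tendsto_at hmem
  have h3 : Tendsto (fun n => (F n 0, deriv (F n) 0)) l (𝓝 (H 0, deriv H 0)) := h1.prodMk_nhds h2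
  have h4 := h3.eventually (hM.usc (H 0) h0 (deriv H 0) a hlt)
  obtain ⟨n, hn1, hn2, hn3⟩ := (h4.and (hF.and ha)).exists
  have h5 : G (F n 0) (deriv (F n) 0) < a := hn1 (hn2.2 0 hmem)
  exact absurd hn3 (not_le.mpr h5)

theorem mt_const (hM : MetricData K B G ρ M c₀ C) {F : ℂ → EN N} {z : ℂ} (hz : F z ∈ K) {a : ℂ} (h : deriv F z = a • F z) : mt G F z = 0 := by
  have h1 : G (F z) 0 = 0 := by
    have := hM.hom (F z) hz 0 0
    simpa using this
  have h2 := hM.inv (F z) hz 0 1 a one_ne_zero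
  rw [smul_zero, zero_add, one_smul, h1] at h2
  unfold mt
  rw [h, h2]

end Pool.Agent.H36.BP

end

section

/-!
# EL Kq: the primitive of `β` along the fibres, in a straight chart

`χ` is a chart of the tube (with `u = b + ρ s^i t^j`, primitive `A`), `χ₀` a straight chart (`u = c₀ + ρ₀ s`, primitive `A₀`) inside `χ`; `b₁ = bc χ A χ₀ (1, 0)`, `b₂ = bc χ A χ₀ (0, 1)`; `Q` is the primitive of `b₂`
in the direction of the second variable with `Q (s, 0) = 0`.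

`q_fderiv`: fix `p`; for all `t` with `|t| < 2` and `q = (p.1, t)`: `mo c₀ ρ₀ 1 0 q = mo c₀ ρ₀ 1 0 p` is within `η` of `b`, and `mo b ρ i j (τ q)` too (`τ = χ.q ∘ χ₀.σ`), both are `u (χ₀.σ q)` modulo `Λ`, so they are equal
(`hinj`); so `bc_closed`: `∂₁ b₂ - ∂₂ b₁ = tc α χ₀ (mo c₀ ρ₀ 1 0) = ∂₂ A₀` at `q`.  Hence the functions `t ↦ ∂₁ Q (p.1, t)` and `t ↦ A₀ (p.1, t) + b₁ (p.1, t) - b₁ (p.1, 0)` have the same derivative on the disc
(`∂₂ ∂₁ Q = ∂₁ ∂₂ Q = ∂₁ b₂`) and the same value `0` at `t = 0` (`Q (·, 0) = 0`, `A₀ (·, 0) = 0`).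

`q_curve`: near `z`, `c₀ + ρ₀ (χ₀.q (F w)).1 = w`: the difference is in `Λ` (`Mon.lift`, `F w = a • χ₀.σ (χ₀.q (F w))`), continuous and `0` at `w = z`.  So `(χ₀.q ∘ F)' = (1 / ρ₀, f₂')`, and
`(Q ∘ χ₀.q ∘ F)' = ∂₁ Q / ρ₀ + b₂ f₂' = (A₀ + b₁ - b₁ (·, 0)) / ρ₀ + b₂ f₂' = bt χ A F z + (A₀ - b₁ (·, 0)) / ρ₀` (`bt_eq`).

`q_fibre`: `(Q ∘ χ₀.q ∘ γ)' = b₂ (χ₀.q ∘ γ)'.2 = bt χ A γ ζ` (`bt_eq`; the first coordinate of the derivative is `0`).
-/

set_option autoImplicit false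

open Topology Filter Metric

namespace Pool.Agent.H62.EL

open Pool.Agent.H36.BP (EN wd IsGermChart)
open Pool.Agent.H14.PP (IsCone Chart Tan CurveAt)
open Pool.Agent.H62.EF (Lat MN pr TorusMap Sec)

variable {N : ℕ} {X : Set (EN N)} {Λ : AddSubgroup ℂ} {u : EN N → ℂ}

variable {α : TForm X Λ u} {χ χ₀ : Chart X} {b c₀ : ℂ} {ρ ρ₀ η : ℝ} {i j : ℕ} {A A₀ Q : ℂ × ℂ → ℂ}

theorem Kq_pair (L : (ℂ × ℂ) →L[ℂ] ℂ) (w : ℂ × ℂ) : L w = w.1 * L (1, 0) + w.2 * L (0, 1) := by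
  rw [← smul_eq_mul, ← smul_eq_mul, ← map_smul, ← map_smul, ← map_add]
  congr 1
  ext
  · simp
  · simp

theorem Kq_snd {g : ℂ × ℂ → ℂ} {s t : ℂ} (hg : DifferentiableAt ℂ g (s, t)) :
    HasDerivAt (fun t' => g (s, t')) (fderiv ℂ g (s, t) (0, 1)) t := by
  have h1 : HasDerivAt (fun t' : ℂ => (s, t')) ((0 : ℂ), (1 : ℂ)) t :=
    (hasDerivAt_const t s).prodMk (hasDerivAt_id t)
  exact HasFDerivAt.comp_hasDerivAt (f := fun t' : ℂ => (s, t')) t hg.hasFDerivAt h1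

theorem Kq_fst {g : ℂ × ℂ → ℂ} {s t : ℂ} (hg : DifferentiableAt ℂ g (s, t)) :
    HasDerivAt (fun s' => g (s', t)) (fderiv ℂ g (s, t) (1, 0)) s := by
  have h1 : HasDerivAt (fun s' : ℂ => (s', t)) ((1 : ℂ), (0 : ℂ)) s :=
    (hasDerivAt_id s).prodMk (hasDerivAt_const s t)
  exact HasFDerivAt.comp_hasDerivAt (f := fun s' : ℂ => (s', t)) s hg.hasFDerivAt h1

theorem Kq_mo (c : ℂ) (ρ : ℝ) (p : ℂ × ℂ) : mo c ρ 1 0 p = c + ρ * p.1 := by
  simp [mo]

theorem Kq_lift (hu : TorusMap X Λ u) (hinj : ∀ l ∈ Λ, ‖l‖ < 2 * η → l = 0) (hm : Mon Λ u χ b ρ i j)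
    (hr : ∀ p ∈ ball (0 : ℂ × ℂ) 2, ‖mo b ρ i j p - b‖ < η) (hm₀ : Mon Λ u χ₀ c₀ ρ₀ 1 0)
    (hsub : ∀ p ∈ ball (0 : ℂ × ℂ) 2, χ₀.σ p ∈ χ.U) {q : ℂ × ℂ} (hq : q ∈ ball (0 : ℂ × ℂ) 2)
    (hqb : ‖mo c₀ ρ₀ 1 0 q - b‖ < η) : mo b ρ i j (χ.q (χ₀.σ q)) = mo c₀ ρ₀ 1 0 q := by
  obtain ⟨hτ, c, hc, hx⟩ := χ.surj _ (χ₀.σ_mem q hq).1 (hsub q hq)
  have h1 := hm₀.lift q hq
  have h2 := hm.lift _ hτ
  have h3 := hu.smul _ (χ.σ_mem _ hτ).1 c hc
  rw [← hx] at h3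
  have h4 : mo b ρ i j (χ.q (χ₀.σ q)) - mo c₀ ρ₀ 1 0 q ∈ Λ := by
    have := Λ.sub_mem (Λ.sub_mem h1 h3) h2
    convert this using 1
    ring
  have h5 : ‖mo b ρ i j (χ.q (χ₀.σ q)) - mo c₀ ρ₀ 1 0 q‖ < 2 * η := by
    have h6 := hr _ hτ
    calc ‖mo b ρ i j (χ.q (χ₀.σ q)) - mo c₀ ρ₀ 1 0 q‖
        = ‖(mo b ρ i j (χ.q (χ₀.σ q)) - b) - (mo c₀ ρ₀ 1 0 q - b)‖ := by congr 1; ring
      _ ≤ ‖mo b ρ i j (χ.q (χ₀.σ q)) - b‖ + ‖mo c₀ ρ₀ 1 0 q - b‖ := norm_sub_le _ _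
      _ < 2 * η := by linarith
  exact sub_eq_zero.1 (hinj _ h4 h5)

end Pool.Agent.H62.EL

end
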