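import Pool.Agent.H94.G4T.AD.ChartBasic
import Pool.Agent.H94.G4T.H62.EF.PrA
import Pool.Agent.H94.G4T.M04
import Pool.Agent.H94.G4T.M06
import Pool.Agent.H94.G4T.M17
import Pool.Agent.H94.G4T.M27
import Pool.Agent.H94.G4T.M40

/-! The parts of this file: H62.EL.Kq_1, H62.EL.Kz, TG.Y.Dv. -/

section

/-!
# EL Kq: the primitive of `β` along the fibres, in a straight chart

`χ` is a chart of the tube (with `u = b + ρ s^i t^j`, primitive `A`), `χ₀` a straight chart (`u = c₀ + ρ₀ s`, primitive `A₀`) inside `χ`; `b₁ = bc χ A χ₀ (1, 0)`, `b₂ = bc χ A χ₀ (0, 1)`; `Q` is the primitive of `b₂`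
in the direction of the second variable with `Q (s, 0) = 0`.

`q_fderiv`: fix `p`; for all `t` with `|t| < 2` and `q = (p.1, t)`: `mo c₀ ρ₀ 1 0 q = mo c₀ ρ₀ 1 0 p` is within `η` of `b`, and `mo b ρ i j (τ q)` too (`τ = χ.q ∘ χ₀.σ`), both are `u (χ₀.σ q)` modulo `Λ`, so they are equal
(`hinj`); so `bc_closed`: `∂₁ b₂ - ∂₂ b₁ = tc α χ₀ (mo c₀ ρ₀ 1 0) = ∂₂ A₀` at `q`.  Hence the functions `t ↦ ∂₁ Q (p.1, t)` and `t ↦ A₀ (p.1, t) + b₁ (p.1, t) - b₁ (p.1, 0)` have the same derivative on the disc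
(`∂₂ ∂₁ Q = ∂₁ ∂₂ Q = ∂₁ b₂`) and the same value `0` at `t = 0` (`Q (·, 0) = 0`, `A₀ (·, 0) = 0`).

`q_curve`: near `z`, `c₀ + ρ₀ (χ₀.q (F w)).1 = w`: the difference is in `Λ` (`Mon.lift`, `F w = a • χ₀.σ (χ₀.q (F w))`), continuous and `0` at `w = z`.  So `(χ₀.q ∘ F)' = (1 / ρ₀, f₂')`, and
`(Q ∘ χ₀.q ∘ F)' = ∂₁ Q / ρ₀ + b₂ f₂' = (A₀ + b₁ - b₁ (·, 0)) / ρ₀ + b₂ f₂' = bt χ A F z + (A₀ - b₁ (·, 0)) / ρ₀` (`bt_eq`).

`q_fibre`: `(Q ∘ χ₀.q ∘ γ)' = b₂ (χ₀.q ∘ γ)'.2 = bt χ A γ ζ` (`bt_eq`; the first coordinate of the derivative is `0`).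
-/

set_option autoImplicit false

open Topology Filter Metric

namespace Pool.Agent.H62.EL

open Pool.Agent.H36.BP (EN fs wd IsGermChart)
open Pool.Agent.H14.PP (IsCone Chart Tan CurveAt)
open Pool.Agent.H62.EF (Lat MN pr TorusMap Sec Charts)

variable {N : ℕ} {X : Set (EN N)} {Λ : AddSubgroup ℂ} {u : EN N → ℂ}

variable {α : TForm X Λ u} {χ χ₀ : Chart X} {b c₀ : ℂ} {ρ ρ₀ η : ℝ} {i j : ℕ} {A A₀ Q : ℂ × ℂ → ℂ}

theorem q_fibre (hsub : ∀ p ∈ ball (0 : ℂ × ℂ) 2, χ₀.σ p ∈ χ.U)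
    (hQ : ∀ p ∈ ball (0 : ℂ × ℂ) 2, AnalyticAt ℂ Q p ∧ fderiv ℂ Q p (0, 1) = bc χ A χ₀ (0, 1) p) {γ : ℂ → EN N} {ζ : ℂ}
    (hγ : CurveAt X γ ζ) (hU : γ ζ ∈ χ₀.U) (h1 : (deriv (fun ξ => χ₀.q (γ ξ)) ζ).1 = 0) :
    HasDerivAt (fun ξ => Q (χ₀.q (γ ξ))) (bt χ A γ ζ) ζ := by
  obtain ⟨hfb, c, hc, hx⟩ := χ₀.surj _ hγ.2.self_of_nhds hU
  have hUχ : γ ζ ∈ χ.U := by
    rw [hx]
    exact χ.smul_U _ (hsub _ hfb) c hc
  have hfan : AnalyticAt ℂ (fun w => χ₀.q (γ w)) ζ := (χ₀.q_an _ hU).comp hγ.1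
  have hd := hfan.differentiableAt.hasDerivAt
  have h2 := (hQ _ hfb).2
  have h3 : HasDerivAt (fun w => Q (χ₀.q (γ w))) (fderiv ℂ Q (χ₀.q (γ ζ)) (deriv (fun w => χ₀.q (γ w)) ζ)) ζ :=
    HasFDerivAt.comp_hasDerivAt (f := fun w => χ₀.q (γ w)) ζ (hQ _ hfb).1.differentiableAt.hasFDerivAt hd
  rw [Kq_pair, h2, h1] at h3
  rw [bt_eq χ χ₀ A hγ hU hUχ, h1]
  convert h3 using 1
  ring

end Pool.Agent.H62.EL

end

section

/-!
# EL Kz: the integral `II` has a primitive on the annulus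

Let `𝒜 = {z : r₁ < ‖z - b‖ < r₂}`; `H_F`, `H_G` from `exists_H` (with `s' = r₂ < s`) for `F` and `G`.  For every `z₀ ∈ 𝒜` choose by `hcap` a chart `χ₀` (with `c₀, ρ₀`), an index `k`, and by `exists_prim` a primitive
`A₀` of the form in `χ₀`, and by `exists_prim_snd` a primitive `Q` of `bc (T.χ k) (A k) χ₀ (0, 1)` in the second variable (`χ₀.σ p ∈ T.W k ⊆ (T.χ k).U`, `bc_an`).  Let
`Φ x = Q (χ₀.q x) - lam k x` and `K_{z₀} z = Φ (G z) - Φ (F z) - H_G z + H_F z`.  Define `K z := K_z z`.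
(1) For `z` near `z₀` (`z ∈ 𝒜`, `‖z - z₀‖ ≤ 3ε`, `dist (pr (F z)) (pr (F z₀)) ≤ ε`): `K z = K_{z₀} z`.  Let `Φ₀` (chart `χ₀`, index `k₀`) belong to `z₀` and `Φ₁` (`χ₁`, `k₁`) to `z`.  Let `χ', c', ρ', p, p'` be from `IRel α ε z (pr (F z))
(pr (G z)) v`; for `θ ∈ [0, 1]` let `γ θ = χ'.σ (p + θ (p' - p))` (a complex curve for complex `θ` near `[0, 1]`).  Its points are over `z` and within `ε` of `pr (F z)`, so within `2ε` of `pr (F z₀)`: by `Cap` of radius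
`3ε` they are in `χ₀.U` and `χ₁.U`, with `c₀ + ρ₀ (χ₀.q (γ θ)).1 = z`, and similarly for `χ₁`.  The first coordinates of `χ₀.q ∘ γ` and `χ₁.q ∘ γ` have derivative `0` at `θ` [for complex `θ'` near `θ`, `u (γ θ') - z ∈ Λ`
because `mo c' ρ' 1 0` is constant along the line, so `c₀ + ρ₀ (χ₀.q (γ θ')).1 - z ∈ Λ`, continuous and `0` at `θ`].  `γ θ ∈ T.W k₀ ∩ T.W k₁` (multiples of `χ₀.σ _`, `χ₁.σ _`).  By `q_fibre` and `Split` the derivative of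
`θ ↦ Φ₀ (γ θ) - Φ₁ (γ θ) = Q₀ - Q₁ - (lam k₀ - lam k₁)` is `bt k₀ - bt k₁ - (bt k₀ - bt k₁) = 0`.  So `Φ₀ (γ 1) - Φ₀ (γ 0) = Φ₁ (γ 1) - Φ₁ (γ 0)`; `γ 0`, `γ 1` are multiples of `F z`, `G z` (`pr_eq_iff`) and `Φ` is invariant
under scaling (`Split`, `q_smul`).
(2) `K_{z₀}` has at `z₀` the derivative `II α ε z₀ (pr (F z₀)) (pr (G z₀))`: `K_{z₀} = (Q (χ₀.q (G z)) - Q (χ₀.q (F z))) - (H_G z + lam k (G z)) + (H_F z + lam k (F z))`; by `q_curve` and `exists_H` the derivative is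
`bt(G) + (A₀ (q G) - b₁) / ρ₀ - bt(F) - (A₀ (q F) - b₁) / ρ₀ - bt(G) + bt(F) = (A₀ (χ₀.q (G z₀)) - A₀ (χ₀.q (F z₀))) / ρ₀`, which is `II` by `II_eq`.  (`G z₀ ∈ χ₀.U`: `dist (pr (G z₀)) (pr (F z₀)) ≤ ε` by `IRel` with `θ = 1`.)
-/

set_option autoImplicit false

open Topology Filter Metric

namespace Pool.Agent.H62.EL

open Pool.Agent.H36.BP (EN fs wd IsGermChart)
open Pool.Agent.H14.PP (IsCone Chart Tan CurveAt)
open Pool.Agent.H62.EF (Lat MN pr TorusMap Sec Charts)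

variable {N : ℕ} {X : Set (EN N)} {Λ : AddSubgroup ℂ} {u : EN N → ℂ}

/-- the complex line through `p` and `p'` -/
private noncomputable def kz_line (p p' : ℂ × ℂ) (θ : ℂ) : ℂ × ℂ := p + θ • (p' - p)

private theorem kz_line_an (p p' : ℂ × ℂ) (θ : ℂ) : AnalyticAt ℂ (kz_line p p') θ := by
  unfold kz_line
  exact analyticAt_const.add (analyticAt_id.smul analyticAt_const)

private theorem kz_line_mem {p p' : ℂ × ℂ} (hp : p ∈ ball (0 : ℂ × ℂ) 2) (hp' : p' ∈ ball (0 : ℂ × ℂ) 2) {θ : ℝ}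
    (hθ : θ ∈ Set.Icc (0 : ℝ) 1) : kz_line p p' (θ : ℂ) ∈ ball (0 : ℂ × ℂ) 2 := by
  have h1 := (convex_ball (0 : ℂ × ℂ) 2).add_smul_sub_mem hp hp' hθ
  unfold kz_line
  rwa [Complex.coe_smul]

private theorem kz_line_fst {p p' : ℂ × ℂ} (h : p.1 = p'.1) (θ : ℂ) : (kz_line p p' θ).1 = p.1 := by
  unfold kz_line
  simp [h]

private theorem kz_mo (c : ℂ) (ρ : ℝ) (p : ℂ × ℂ) : mo c ρ 1 0 p = c + ρ * p.1 := by
  unfold mo
  simp

/-- the situation at a point of the path -/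
private theorem kz_point (hu : TorusMap X Λ u) (hΛ : Lat Λ) {b : ℂ} {s η : ℝ} {T : TubeData X} (hT : TubeG Λ u b s η T)
    {A : Fin T.m → ℂ × ℂ → ℂ} {χ : Chart X} {c : ℂ} {ρ : ℝ} {k : Fin T.m} {z₀ : ℂ} {y₀ : MN N} {r : ℝ}
    (hc : Cap Λ u χ c ρ z₀ y₀ r) (hW : ∀ p ∈ ball (0 : ℂ × ℂ) 2, χ.σ p ∈ T.W k) {Q : ℂ × ℂ → ℂ}
    (hQ : ∀ p ∈ ball (0 : ℂ × ℂ) 2, AnalyticAt ℂ Q p ∧ fderiv ℂ Q p (0, 1) = bc (T.χ k) (A k) χ (0, 1) p)
    {χ' : Chart X} {c' : ℂ} {ρ' : ℝ} (hm' : Mon Λ u χ' c' ρ' 1 0) {p p' : ℂ × ℂ} (hp : p ∈ ball (0 : ℂ × ℂ) 2)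
    (hp' : p' ∈ ball (0 : ℂ × ℂ) 2) {z : ℂ} (hz : z ∈ closedBall z₀ r) (hpz : c' + ρ' * p.1 = z) (hpp : p.1 = p'.1)
    {θ : ℝ} (hθ : θ ∈ Set.Icc (0 : ℝ) 1) (hd : dist (pr (χ'.σ (kz_line p p' θ))) y₀ ≤ r) :
    CurveAt X (fun ξ => χ'.σ (kz_line p p' ξ)) (θ : ℂ) ∧ u (χ'.σ (kz_line p p' θ)) - z ∈ Λ ∧
      χ'.σ (kz_line p p' θ) ∈ χ.U ∧ χ'.σ (kz_line p p' θ) ∈ T.W k ∧
      HasDerivAt (fun ξ => Q (χ.q (χ'.σ (kz_line p p' ξ)))) (bt (T.χ k) (A k) (fun ξ => χ'.σ (kz_line p p' ξ)) (θ : ℂ)) (θ : ℂ) := by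
  have hmem := kz_line_mem hp hp' hθ
  have hlc : ContinuousAt (kz_line p p') (θ : ℂ) := (kz_line_an p p' θ).continuousAt
  have hevb : ∀ᶠ ξ in 𝓝 (θ : ℂ), kz_line p p' ξ ∈ ball (0 : ℂ × ℂ) 2 := hlc.eventually (isOpen_ball.mem_nhds hmem)
  have hγan : AnalyticAt ℂ (fun ξ => χ'.σ (kz_line p p' ξ)) (θ : ℂ) := AnalyticAt.fun_comp (χ'.σ_an _ hmem) (kz_line_an p p' θ)
  have hcurve : CurveAt X (fun ξ => χ'.σ (kz_line p p' ξ)) (θ : ℂ) := by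
    refine ⟨hγan, ?_⟩
    filter_upwards [hevb] with ξ hξ
    exact (χ'.σ_mem _ hξ).1
  have hlift : ∀ ξ : ℂ, kz_line p p' ξ ∈ ball (0 : ℂ × ℂ) 2 → u (χ'.σ (kz_line p p' ξ)) - z ∈ Λ := by
    intro ξ hξ
    have h1 := hm'.lift _ hξ
    rwa [kz_mo, kz_line_fst hpp, hpz] at h1
  have hX1 : χ'.σ (kz_line p p' θ) ∈ X := (χ'.σ_mem _ hmem).1
  obtain ⟨hU, hq1, hqz⟩ := hc.cap z hz _ hX1 (hlift _ hmem) hd
  obtain ⟨hq2, a, ha, hqa⟩ := χ.surj _ hX1 hU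
  have hρ : (ρ : ℂ) ≠ 0 := by exact_mod_cast hc.mon.pos.ne'
  refine ⟨hcurve, hlift _ hmem, hU, ?_, ?_⟩
  · rw [hqa]
    exact hT.W_smul k _ (hW _ hq2) a ha
  · have hevU : ∀ᶠ ξ in 𝓝 (θ : ℂ), χ'.σ (kz_line p p' ξ) ∈ χ.U := hγan.continuousAt.eventually (χ.isOpen_U.mem_nhds hU)
    have hqan : AnalyticAt ℂ (fun ξ => χ.q (χ'.σ (kz_line p p' ξ))) (θ : ℂ) := AnalyticAt.fun_comp (χ.q_an _ hU) hγan
    have hzero : ∀ᶠ ξ in 𝓝 (θ : ℂ), c + ρ * (χ.q (χ'.σ (kz_line p p' ξ))).1 - z = 0 := by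
      obtain ⟨δ, hδ, hdisc⟩ := hΛ.discrete
      have hcont : ContinuousAt (fun ξ => c + ρ * (χ.q (χ'.σ (kz_line p p' ξ))).1 - z) (θ : ℂ) :=
        ((continuousAt_const.mul (continuousAt_fst.comp (f := fun ξ => χ.q (χ'.σ (kz_line p p' ξ))) hqan.continuousAt)).const_add _).sub
          continuousAt_const
      have h0 : (fun ξ => c + ρ * (χ.q (χ'.σ (kz_line p p' ξ))).1 - z) (θ : ℂ) = 0 := by
        show c + ρ * (χ.q (χ'.σ (kz_line p p' (θ : ℂ)))).1 - z = 0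
        rw [hqz, sub_self]
      have hsmall : ∀ᶠ ξ in 𝓝 (θ : ℂ), ‖c + ρ * (χ.q (χ'.σ (kz_line p p' ξ))).1 - z‖ < δ := by
        have h1 := hcont.norm
        have h2 : ‖(fun ξ => c + ρ * (χ.q (χ'.σ (kz_line p p' ξ))).1 - z) (θ : ℂ)‖ < δ := by rw [h0, norm_zero]; exact hδ
        exact h1.eventually_lt_const h2
      filter_upwards [hsmall, hevb, hevU] with ξ h1 h2 h3
      refine hdisc _ ?_ h1
      obtain ⟨h4, a', ha', h5⟩ := χ.surj _ (χ'.σ_mem _ h2).1 h3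
      have h6 := hc.mon.lift _ h4
      have h7 := hu.smul _ (χ.σ_mem _ h4).1 a' ha'
      rw [← h5] at h7
      rw [kz_mo] at h6
      have h8 := Λ.sub_mem (hlift ξ h2) (Λ.add_mem h7 h6)
      convert h8 using 1
      ring
    refine q_fibre (fun y hy => hT.W_sub k (hW y hy)) hQ hcurve hU ?_
    have hd1 : HasDerivAt (fun ξ => χ.q (χ'.σ (kz_line p p' ξ))) (deriv (fun ξ => χ.q (χ'.σ (kz_line p p' ξ))) (θ : ℂ)) (θ : ℂ) :=
      hqan.differentiableAt.hasDerivAt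
    have hd2 : HasDerivAt (fun ξ => (χ.q (χ'.σ (kz_line p p' ξ))).1) (deriv (fun ξ => χ.q (χ'.σ (kz_line p p' ξ))) (θ : ℂ)).1 (θ : ℂ) :=
      (hasFDerivAt_fst (𝕜 := ℂ) (E := ℂ) (F := ℂ)).comp_hasDerivAt (θ : ℂ) hd1
    have hd3 : HasDerivAt (fun ξ => (χ.q (χ'.σ (kz_line p p' ξ))).1) 0 (θ : ℂ) := by
      refine (hasDerivAt_const (θ : ℂ) ((z - c) / ρ)).congr_of_eventuallyEq ?_
      filter_upwards [hzero] with ξ hξ
      rw [eq_div_iff hρ]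
      linear_combination hξ
    exact hd2.unique hd3

/-- two local primitives have the same increment along the path -/
theorem kz_cons (hX : IsCone X) (hu : TorusMap X Λ u) (hΛ : Lat Λ) {b : ℂ} {s η : ℝ} {T : TubeData X} (hT : TubeG Λ u b s η T)
    {α : TForm X Λ u} {A : Fin T.m → ℂ × ℂ → ℂ} {lam : Fin T.m → EN N → ℂ} (hs : Split Λ u b s T A lam) {x x' : EN N}
    (hx : x ∈ X) (hx' : x' ∈ X) {ε r : ℝ} {z v : ℂ} (hzb : z ∈ ball b s) (hrel : IRel α ε z (pr x) (pr x') v)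
    {χ₀ : Chart X} {c₀ : ℂ} {ρ₀ : ℝ} {k₀ : Fin T.m} {z₀ : ℂ} {y₀ : MN N} (hc₀ : Cap Λ u χ₀ c₀ ρ₀ z₀ y₀ r)
    (hW₀ : ∀ p ∈ ball (0 : ℂ × ℂ) 2, χ₀.σ p ∈ T.W k₀) {Q₀ : ℂ × ℂ → ℂ}
    (hQ₀ : ∀ p ∈ ball (0 : ℂ × ℂ) 2, AnalyticAt ℂ Q₀ p ∧ fderiv ℂ Q₀ p (0, 1) = bc (T.χ k₀) (A k₀) χ₀ (0, 1) p)
    (hz₀ : z ∈ closedBall z₀ r) (hy₀ : dist (pr x) y₀ + ε ≤ r)
    {χ₁ : Chart X} {c₁ : ℂ} {ρ₁ : ℝ} {k₁ : Fin T.m} {z₁ : ℂ} {y₁ : MN N} (hc₁ : Cap Λ u χ₁ c₁ ρ₁ z₁ y₁ r)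
    (hW₁ : ∀ p ∈ ball (0 : ℂ × ℂ) 2, χ₁.σ p ∈ T.W k₁) {Q₁ : ℂ × ℂ → ℂ}
    (hQ₁ : ∀ p ∈ ball (0 : ℂ × ℂ) 2, AnalyticAt ℂ Q₁ p ∧ fderiv ℂ Q₁ p (0, 1) = bc (T.χ k₁) (A k₁) χ₁ (0, 1) p)
    (hz₁ : z ∈ closedBall z₁ r) (hy₁ : dist (pr x) y₁ + ε ≤ r) :
    (Q₀ (χ₀.q x') - lam k₀ x') - (Q₀ (χ₀.q x) - lam k₀ x) = (Q₁ (χ₁.q x') - lam k₁ x') - (Q₁ (χ₁.q x) - lam k₁ x) := by
  obtain ⟨χ', c', ρ', A', p, p', hm', -, hp, hp', hpz, hpz', hpx, hpx', hdist, -⟩ := hrel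
  have hρ' : (ρ' : ℂ) ≠ 0 := by exact_mod_cast hm'.pos.ne'
  have hpp : p.1 = p'.1 := by
    have h1 : (ρ' : ℂ) * p.1 = ρ' * p'.1 := by linear_combination hpz - hpz'
    exact mul_left_cancel₀ hρ' h1
  have hdl : ∀ θ ∈ Set.Icc (0 : ℝ) 1, dist (pr (χ'.σ (kz_line p p' (θ : ℂ)))) (pr x) ≤ ε := hdist
  have hP₀ := fun (θ : ℝ) (hθ : θ ∈ Set.Icc (0 : ℝ) 1) => kz_point hu hΛ hT (A := A) hc₀ hW₀ hQ₀ hm' hp hp' hz₀ hpz hpp hθ
    ((dist_triangle _ (pr x) _).trans (by linarith [hdl θ hθ]))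
  have hP₁ := fun (θ : ℝ) (hθ : θ ∈ Set.Icc (0 : ℝ) 1) => kz_point hu hΛ hT (A := A) hc₁ hW₁ hQ₁ hm' hp hp' hz₁ hpz hpp hθ
    ((dist_triangle _ (pr x) _).trans (by linarith [hdl θ hθ]))
  set h : ℂ → ℂ := fun ξ => Q₀ (χ₀.q (χ'.σ (kz_line p p' ξ))) - Q₁ (χ₁.q (χ'.σ (kz_line p p' ξ))) -
    (lam k₀ (χ'.σ (kz_line p p' ξ)) - lam k₁ (χ'.σ (kz_line p p' ξ))) with hh
  have hder : ∀ θ ∈ Set.Icc (0 : ℝ) 1, HasDerivAt h 0 (θ : ℂ) := by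
    intro θ hθ
    obtain ⟨h1, h2, h3, h4, h5⟩ := hP₀ θ hθ
    obtain ⟨-, -, h6, h7, h8⟩ := hP₁ θ hθ
    have h9 := hs.2 k₀ k₁ _ _ h1 ⟨z, hzb, h2⟩ h4 h7
    have h10 := (h5.sub h8).sub h9
    rw [sub_self] at h10
    exact h10
  have hconst : h ((1 : ℝ) : ℂ) = h ((0 : ℝ) : ℂ) := by
    refine constant_of_has_deriv_right_zero (f := fun t : ℝ => h (t : ℂ)) (a := 0) (b := 1) ?_ ?_ 1 (by simp)
    · intro t ht
      exact ((hder t ht).comp_ofReal).continuousAt.continuousWithinAt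
    · intro t ht
      exact ((hder t ⟨ht.1, ht.2.le⟩).comp_ofReal).hasDerivWithinAt
  have hx0 : x ≠ 0 := fun h0 => hX.zero_notMem (h0 ▸ hx)
  have hx0' : x' ≠ 0 := fun h0 => hX.zero_notMem (h0 ▸ hx')
  have hl0 : kz_line p p' ((0 : ℝ) : ℂ) = p := by unfold kz_line; simp
  have hl1 : kz_line p p' ((1 : ℝ) : ℂ) = p' := by unfold kz_line; simp
  have hσ0 : χ'.σ p ≠ 0 := fun h0 => hX.zero_notMem (h0 ▸ (χ'.σ_mem p hp).1)
  have hσ1 : χ'.σ p' ≠ 0 := fun h0 => hX.zero_notMem (h0 ▸ (χ'.σ_mem p' hp').1)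
  obtain ⟨a, ha, hax⟩ := (Pool.Agent.H62.EF.pr_eq_iff hσ0 hx0).1 hpx
  obtain ⟨a', ha', hax'⟩ := (Pool.Agent.H62.EF.pr_eq_iff hσ1 hx0').1 hpx'
  have hU₀ := (hP₀ 0 (by simp)).2.2.1
  have hU₀' := (hP₀ 1 (by simp)).2.2.1
  have hU₁ := (hP₁ 0 (by simp)).2.2.1
  have hU₁' := (hP₁ 1 (by simp)).2.2.1
  rw [hl0, hax] at hU₀ hU₁
  rw [hl1, hax'] at hU₀' hU₁'
  have hback : ∀ (χ : Chart X) (y : EN N) (d : ℂ), d ≠ 0 → d • y ∈ χ.U → y ∈ χ.U := by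
    intro χ y d hd hy
    have h1 := χ.smul_U _ hy d⁻¹ (inv_ne_zero hd)
    rwa [smul_smul, inv_mul_cancel₀ hd, one_smul] at h1
  simp only [hh, hl0, hl1, hax, hax'] at hconst
  rw [χ₀.q_smul _ (hback χ₀ x a ha hU₀) a ha, χ₀.q_smul _ (hback χ₀ x' a' ha' hU₀') a' ha', χ₁.q_smul _ (hback χ₁ x a ha hU₁) a ha,
    χ₁.q_smul _ (hback χ₁ x' a' ha' hU₁') a' ha', hs.1 k₀ _ hx a ha, hs.1 k₀ _ hx' a' ha', hs.1 k₁ _ hx a ha, hs.1 k₁ _ hx' a' ha'] at hconst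
  linear_combination hconst

end Pool.Agent.H62.EL

end

section

/-!
# TG Y Dv: tangent vectors and derivatives of `u` in charts

`exists_lift_chart`: `x = a • χ.σ q₀`, `q₀ = χ.q x` (`Chart.surj`); `v` a local lift of `u` at `χ.σ q₀` (`TMap.loc`), `υ q = v (χ.σ q) + const` (`u (χ.σ q₀) - y ∈ Λ` by `TMap.smul`).
`exists_tan`: `w = a • fderiv χ.σ q₀ w'` (`tan_sigma`, homogeneity: `Tan X x v → Tan X (a • x) (a • v)`; `fderiv_q_smul`, `fderiv_sigma` of `AD/ChartBasic`).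
`dv_iff`: `→`: let `γ, υ'` be from `DV`: `q (γ z)` is analytic at `0`, `γ z = a z • χ.σ (q (γ z))` (`AD.Chart.curve`), `υ' z - υ (χ.q (γ z)) ∈ Λ` near `0`, continuous, so constant near `0` (`Lat.disc`); differentiate: `deriv υ' 0 = fderiv υ q₀ (fderiv χ.q x w)`.
`←`: `γ` from `Tan`, `υ' z = υ (χ.q (γ z))`.
`det_indep`: `K = {v : A v ∈ ℂ e}` has dimension `2`: `det (e, E) ≠ 0`, so `e, E_j` is a basis of `ℂ^(k+1)`, the `E_j` are in the range of `A`: the map `v ↦ A v mod ℂ e` is onto `ℂ^(k+1) / ℂ e` of dimension `k`, `K` is its kernel, of dimension `(k + 2) - k = 2` (rank-nullity).  If `v, w` are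
linearly dependent both determinants are `0` (`Matrix.det_zero_of_row_eq` or linear dependence of rows).  Otherwise `K = span (v, w)`, `ℓ' j - ℓ j ∈ K` (`A (ℓ' j - ℓ j) = 0`), `ℓ' j = ℓ j + a_j v + b_j w`: the matrix with rows `v, w, ℓ'` is `U` times the one with rows `v, w, ℓ`, `U` lower
triangular with diagonal `1` (`Matrix.det_of_lowerTriangular`) or use `Matrix.det_updateRow_add_smul_self` repeatedly.
-/

set_option autoImplicit false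

open Topology Filter Metric

namespace Pool.Agent.TG

open Pool.Agent.H36.BP (EN fs wd)
open Pool.Agent.H14.PP (IsCone CurveAt Tan)
open Pool.Agent.H62.EF (MN pr)
open Pool.Agent.AD (Vd Chart Charts IsGerm)

variable {N k : ℕ}

variable {X : Set (EN N)} {Λ : AddSubgroup (Vd (k + 1))} {u : EN N → Vd (k + 1)}

theorem DV.tan {x w : EN N} {E : Vd (k + 1)} (h : DV X Λ u x w E) : Tan X x w := by
  obtain ⟨γ, υ, h1, h2, h3, -⟩ := h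
  exact ⟨γ, h1, h2, h3⟩

theorem DV.smul_pt (hX : IsCone X) (hu : TMap X Λ u) {x w : EN N} {E : Vd (k + 1)} (h : DV X Λ u x w E) {a : ℂ} (ha : a ≠ 0) :
    DV X Λ u (a • x) (a • w) E := by
  obtain ⟨γ, υ, h1, h2, h3, h4, h5, h6⟩ := h
  refine ⟨fun z => a • γ z, υ, ⟨AnalyticAt.fun_smul analyticAt_const h1.1, ?_⟩, ?_, ?_, h4, ?_, h6⟩
  · filter_upwards [h1.2] with z hz
    exact hX.smul_mem _ hz a ha
  · show a • γ 0 = a • x
    rw [h2]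
  · have h7 : HasDerivAt (fun z => a • γ z) (a • deriv γ 0) 0 := h1.1.differentiableAt.hasDerivAt.const_smul a
    rw [h7.deriv, h3]
  · filter_upwards [h1.2, h5] with z hz hz5
    exact smul_mem_lat hu hz hz5 ha

theorem exists_lift_chart (hX : IsCone X) (hu : TMap X Λ u) (χ : Chart (k + 2) X) {x : EN N} (hx : x ∈ X) (hU : x ∈ χ.U) {y : Vd (k + 1)}
    (hy : u x - y ∈ Λ) : ∃ υ : Vd (k + 2) → Vd (k + 1), AnalyticAt ℂ υ (χ.q x) ∧ υ (χ.q x) = y ∧ ∀ᶠ q in 𝓝 (χ.q x), u (χ.σ q) - υ q ∈ Λ := by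
  obtain ⟨hb, c, hc, hcx⟩ := χ.surj x hx hU
  have hσX : χ.σ (χ.q x) ∈ X := (χ.σ_mem _ hb).1
  have h1 : u (χ.σ (χ.q x)) - y ∈ Λ := by
    have h2 : u (c • χ.σ (χ.q x)) - u (χ.σ (χ.q x)) ∈ Λ := hu.smul _ hσX c hc
    rw [← hcx] at h2
    have h3 := Λ.sub_mem hy h2
    have e : u x - y - (u x - u (χ.σ (χ.q x))) = u (χ.σ (χ.q x)) - y := by abel
    rwa [e] at h3
  obtain ⟨v, hv, hvl⟩ := hu.loc _ hσX
  have h4 : u (χ.σ (χ.q x)) - v (χ.σ (χ.q x)) ∈ Λ := hvl.self_of_nhds hσX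
  have hσa : AnalyticAt ℂ χ.σ (χ.q x) := χ.σ_an _ hb
  refine ⟨fun q => v (χ.σ q) + (y - v (χ.σ (χ.q x))), ?_, ?_, ?_⟩
  · exact (AnalyticAt.fun_comp hv hσa).add analyticAt_const
  · show v (χ.σ (χ.q x)) + (y - v (χ.σ (χ.q x))) = y
    abel
  · have h5 : Tendsto χ.σ (𝓝 (χ.q x)) (𝓝 (χ.σ (χ.q x))) := hσa.continuousAt
    filter_upwards [h5.eventually hvl, isOpen_ball.mem_nhds hb] with q hq hqb
    have h6 := hq (χ.σ_mem q hqb).1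
    have h7 : y - v (χ.σ (χ.q x)) ∈ Λ := by
      have h8 := Λ.sub_mem h4 h1
      have e : u (χ.σ (χ.q x)) - v (χ.σ (χ.q x)) - (u (χ.σ (χ.q x)) - y) = y - v (χ.σ (χ.q x)) := by abel
      rwa [e] at h8
    have h9 := Λ.sub_mem h6 h7
    have e : u (χ.σ q) - v (χ.σ q) - (y - v (χ.σ (χ.q x))) = u (χ.σ q) - (v (χ.σ q) + (y - v (χ.σ (χ.q x)))) := by abel
    rwa [e] at h9

theorem exists_tan (hX : IsCone X) (χ : Chart (k + 2) X) {x : EN N} (hx : x ∈ X) (hU : x ∈ χ.U) (w' : Vd (k + 2)) :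
    ∃ w : EN N, Tan X x w ∧ fderiv ℂ χ.q x w = w' := by
  obtain ⟨hb, c, hc, hcx⟩ := χ.surj x hx hU
  obtain ⟨F, hF, hF0, hFd⟩ := tan_sigma χ hb w'
  have hm := χ.σ_mem _ hb
  refine ⟨c • fderiv ℂ χ.σ (χ.q x) w', ⟨fun z => c • F z, ⟨AnalyticAt.fun_smul analyticAt_const hF.1, ?_⟩, ?_, ?_⟩, ?_⟩
  · filter_upwards [hF.2] with z hz
    exact hX.smul_mem _ hz c hc
  · show c • F 0 = x
    rw [hF0, ← hcx]
  · have h1 : HasDerivAt (fun z => c • F z) (c • deriv F 0) 0 :=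
      hF.1.differentiableAt.hasDerivAt.const_smul c
    rw [h1.deriv, hFd]
  · have h1 := χ.fderiv_q_smul hm.2.1 (fderiv ℂ χ.σ (χ.q x) w') hc 0
    rw [zero_smul, add_zero, ← hcx] at h1
    rw [h1]
    exact χ.fderiv_sigma hb w'

/-- two analytic lifts which agree modulo a lattice differ by a constant -/
private theorem Dv_const (hΛ : Lat Λ) {f g : ℂ → Vd (k + 1)} (hf : ContinuousAt f 0) (hg : ContinuousAt g 0)
    (h : ∀ᶠ z in 𝓝 (0 : ℂ), f z - g z ∈ Λ) : ∀ᶠ z in 𝓝 (0 : ℂ), f z - g z = f 0 - g 0 := by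
  obtain ⟨δ, hδ, hd⟩ := hΛ.disc
  have h0 : f 0 - g 0 ∈ Λ := h.self_of_nhds
  have hc : ContinuousAt (fun z => (f z - g z) - (f 0 - g 0)) 0 := (hf.sub hg).sub continuousAt_const
  have h1 : ∀ᶠ z in 𝓝 (0 : ℂ), ‖(f z - g z) - (f 0 - g 0)‖ < δ := by
    apply hc.norm.eventually_lt_const
    simpa using hδ
  filter_upwards [h, h1] with z hz hz1
  exact sub_eq_zero.1 (hd _ (Λ.sub_mem hz h0) hz1)

theorem dv_iff (hX : IsCone X) (hu : TMap X Λ u) (hΛ : Lat Λ) (χ : Chart (k + 2) X) {x : EN N} (hx : x ∈ X) (hU : x ∈ χ.U)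
    {υ : Vd (k + 2) → Vd (k + 1)} (hυ : AnalyticAt ℂ υ (χ.q x)) (hl : ∀ᶠ q in 𝓝 (χ.q x), u (χ.σ q) - υ q ∈ Λ) {w : EN N} {E : Vd (k + 1)} :
    DV X Λ u x w E ↔ Tan X x w ∧ fderiv ℂ υ (χ.q x) (fderiv ℂ χ.q x w) = E := by
  -- along a curve
  have key : ∀ γ : ℂ → EN N, CurveAt X γ 0 → γ 0 = x → AnalyticAt ℂ (fun z => υ (χ.q (γ z))) 0 ∧
      HasDerivAt (fun z => υ (χ.q (γ z))) (fderiv ℂ υ (χ.q x) (fderiv ℂ χ.q x (deriv γ 0))) 0 ∧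
      ∀ᶠ z in 𝓝 (0 : ℂ), u (γ z) - υ (χ.q (γ z)) ∈ Λ := by
    intro γ hγ hγ0
    have hU' : γ 0 ∈ χ.U := by rw [hγ0]; exact hU
    obtain ⟨h1, h1d, c, hc, hc0, hev⟩ := χ.curve hX hγ hU'
    have hυ' : AnalyticAt ℂ υ (χ.q (γ 0)) := by rw [hγ0]; exact hυ
    refine ⟨AnalyticAt.fun_comp hυ' h1, ?_, ?_⟩
    · have h2 : HasDerivAt (fun z => χ.q (γ z)) (fderiv ℂ χ.q x (deriv γ 0)) 0 := by
        have h3 := h1.differentiableAt.hasDerivAt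
        rw [h1d, hγ0] at h3
        exact h3
      have h4 : HasFDerivAt υ (fderiv ℂ υ (χ.q x)) (χ.q (γ 0)) := by
        rw [hγ0]; exact hυ.differentiableAt.hasFDerivAt
      exact h4.comp_hasDerivAt (0 : ℂ) h2
    · have h5 : Tendsto (fun z => χ.q (γ z)) (𝓝 0) (𝓝 (χ.q x)) := by
        have h6 := h1.continuousAt.tendsto
        simpa only [hγ0] using h6
      have hcne : ∀ᶠ z in 𝓝 (0 : ℂ), c z ≠ 0 := hc.continuousAt.eventually_ne hc0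
      filter_upwards [h5.eventually hl, hev, hcne] with z hz hz2 hz3
      have h7 := smul_mem_lat hu (χ.σ_mem _ hz2.1).1 hz hz3
      rwa [← hz2.2] at h7
  constructor
  · rintro ⟨γ, υ', h1, h2, h3, h4, h5, h6⟩
    refine ⟨⟨γ, h1, h2, h3⟩, ?_⟩
    obtain ⟨k1, k2, k3⟩ := key γ h1 h2
    have h7 : ∀ᶠ z in 𝓝 (0 : ℂ), υ' z - υ (χ.q (γ z)) ∈ Λ := by
      filter_upwards [h5, k3] with z hz hz3
      have h8 := Λ.sub_mem hz3 hz
      have e : u (γ z) - υ (χ.q (γ z)) - (u (γ z) - υ' z) = υ' z - υ (χ.q (γ z)) := by abel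
      rwa [e] at h8
    have h9 := Dv_const hΛ h4.continuousAt k1.continuousAt h7
    have h10 : HasDerivAt υ' (fderiv ℂ υ (χ.q x) (fderiv ℂ χ.q x (deriv γ 0))) 0 := by
      have h11 := k2.add_const (υ' 0 - υ (χ.q (γ 0)))
      refine h11.congr_of_eventuallyEq ?_
      filter_upwards [h9] with z hz
      rw [← hz]
      abel
    rw [← h6, h10.deriv, h3]
  · rintro ⟨⟨γ, h1, h2, h3⟩, h4⟩
    obtain ⟨k1, k2, k3⟩ := key γ h1 h2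
    refine ⟨γ, fun z => υ (χ.q (γ z)), h1, h2, h3, k1, k3, ?_⟩
    rw [k2.deriv, h3, h4]

private theorem Dv_rows_ne {v w : Vd (k + 2)} {ℓ : Fin k → Vd (k + 2)}
    (h : (Matrix.of fun i j => (Fin.cons v (Fin.cons w ℓ) : Fin (k + 2) → Vd (k + 2)) i j).det ≠ 0) : LinearIndependent ℂ ![v, w] := by
  have h1 := Matrix.linearIndependent_rows_of_det_ne_zero h
  have h2 := h1.comp (![0, 1] : Fin 2 → Fin (k + 2)) (by
    intro i j hij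
    fin_cases i <;> fin_cases j <;> simp_all)
  have e : ((fun i => Matrix.of (fun i j => (Fin.cons v (Fin.cons w ℓ) : Fin (k + 2) → Vd (k + 2)) i j) i) ∘
      (![0, 1] : Fin 2 → Fin (k + 2))) = ![v, w] := by
    funext i
    fin_cases i <;> rfl
  exact e ▸ h2

private theorem Dv_span {A : Vd (k + 2) →ₗ[ℂ] Vd (k + 1)} {e : Vd (k + 1)} {E : Fin k → Vd (k + 1)}
    (hE : (Matrix.of fun i j => (Fin.cons e E : Fin (k + 1) → Vd (k + 1)) i j).det ≠ 0) {v w : Vd (k + 2)} {a b : ℂ} (hv : A v = a • e)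
    (hw : A w = b • e) {ℓ : Fin k → Vd (k + 2)} (hℓ : ∀ j, A (ℓ j) = E j) (hvw : LinearIndependent ℂ ![v, w]) {x : Vd (k + 2)} (hx : A x = 0) :
    ∃ c d : ℂ, x = c • v + d • w := by
  by_contra hne
  have h1 := Matrix.linearIndependent_rows_of_det_ne_zero hE
  rw [Fintype.linearIndependent_iff] at h1
  rw [LinearIndependent.pair_iff] at hvw
  have h2 : LinearIndependent ℂ (Sum.elim ![x, v, w] ℓ : Fin 3 ⊕ Fin k → Vd (k + 2)) := by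
    rw [Fintype.linearIndependent_iff]
    intro g hg
    rw [Fintype.sum_sum_type] at hg
    simp only [Sum.elim_inl, Sum.elim_inr, Fin.sum_univ_three] at hg
    have hg' : g (Sum.inl 0) • x + g (Sum.inl 1) • v + g (Sum.inl 2) • w + ∑ j, g (Sum.inr j) • ℓ j = 0 := hg
    have h3 := congrArg A hg'
    simp only [map_add, map_smul, map_sum, hx, hv, hw, hℓ, map_zero, smul_zero, zero_add] at h3
    have h4 := h1 (Fin.cons (g (Sum.inl 1) * a + g (Sum.inl 2) * b) fun j => g (Sum.inr j)) (by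
      rw [Fin.sum_univ_succ]
      simp only [Fin.cons_zero, Fin.cons_succ]
      rw [← h3, add_smul, smul_smul, smul_smul]
      rfl)
    have h7 : ∀ j, g (Sum.inr j) = 0 := fun j => h4 j.succ
    simp only [h7, zero_smul, Finset.sum_const_zero, add_zero] at hg'
    have h8 : g (Sum.inl 0) = 0 := by
      by_contra h9
      apply hne
      refine ⟨-(g (Sum.inl 0))⁻¹ * g (Sum.inl 1), -(g (Sum.inl 0))⁻¹ * g (Sum.inl 2), ?_⟩
      have h10 : g (Sum.inl 0) • x = -(g (Sum.inl 1) • v + g (Sum.inl 2) • w) := by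
        rw [eq_neg_iff_add_eq_zero, ← add_assoc]; exact hg'
      have h11 : x = (g (Sum.inl 0))⁻¹ • (g (Sum.inl 0) • x) := by
        rw [smul_smul, inv_mul_cancel₀ h9, one_smul]
      rw [h11, h10, smul_neg, smul_add, smul_smul, smul_smul, neg_mul, neg_mul, neg_smul, neg_smul, neg_add]
    rw [h8, zero_smul, zero_add] at hg'
    have h12 := hvw _ _ hg'
    rintro (i | j)
    · fin_cases i
      · exact h8
      · exact h12.1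
      · exact h12.2
    · exact h7 j
  have h3 := h2.fintype_card_le_finrank
  simp at h3
  omega

theorem det_indep {A : Vd (k + 2) →ₗ[ℂ] Vd (k + 1)} {e : Vd (k + 1)} {E : Fin k → Vd (k + 1)}
    (hE : (Matrix.of fun i j => (Fin.cons e E : Fin (k + 1) → Vd (k + 1)) i j).det ≠ 0) {v w : Vd (k + 2)} {a b : ℂ} (hv : A v = a • e)
    (hw : A w = b • e) {ℓ ℓ' : Fin k → Vd (k + 2)} (hℓ : ∀ j, A (ℓ j) = E j) (hℓ' : ∀ j, A (ℓ' j) = E j) :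
    (Matrix.of fun i j => (Fin.cons v (Fin.cons w ℓ) : Fin (k + 2) → Vd (k + 2)) i j).det =
      (Matrix.of fun i j => (Fin.cons v (Fin.cons w ℓ') : Fin (k + 2) → Vd (k + 2)) i j).det := by
  by_cases hli : LinearIndependent ℂ ![v, w]
  · have h1 : ∀ j, ∃ c d : ℂ, ℓ j - ℓ' j = c • v + d • w := fun j =>
      Dv_span hE hv hw hℓ hli (by rw [map_sub, hℓ, hℓ', sub_self])
    choose c d hcd using h1
    have h2 : ∀ j, ℓ j = ℓ' j + c j • v + d j • w := by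
      intro j
      rw [add_assoc, ← hcd j]
      abel
    have e1 : (Matrix.of fun i j => (Fin.cons v (Fin.cons w fun j => ℓ' j + c j • v) : Fin (k + 2) → Vd (k + 2)) i j).det =
        (Matrix.of fun i j => (Fin.cons v (Fin.cons w ℓ') : Fin (k + 2) → Vd (k + 2)) i j).det := by
      refine Matrix.det_eq_of_forall_row_eq_smul_add_const (Fin.cons 0 (Fin.cons 0 c)) 0 rfl ?_
      intro i j
      refine Fin.cases ?_ (fun i => ?_) i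
      · simp
      · refine Fin.cases ?_ (fun i => ?_) i
        · simp
        · simp [Matrix.of_apply]
    have e2 : (Matrix.of fun i j => (Fin.cons v (Fin.cons w ℓ) : Fin (k + 2) → Vd (k + 2)) i j).det =
        (Matrix.of fun i j => (Fin.cons v (Fin.cons w fun j => ℓ' j + c j • v) : Fin (k + 2) → Vd (k + 2)) i j).det := by
      refine Matrix.det_eq_of_forall_row_eq_smul_add_const (Fin.cons 0 (Fin.cons 0 d)) 1 rfl ?_
      intro i j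
      refine Fin.cases ?_ (fun i => ?_) i
      · simp
      · refine Fin.cases ?_ (fun i => ?_) i
        · simp
        · have h3 := congrFun (h2 i) j
          have h4 : (Matrix.of fun i j => (Fin.cons v (Fin.cons w fun j => ℓ' j + c j • v) : Fin (k + 2) → Vd (k + 2)) i j) 1 j = w j := rfl
          rw [h4]
          simp only [Matrix.of_apply, Fin.cons_succ]
          rw [h3]
          simp
    rw [e2, e1]
  · have z : ∀ ℓ : Fin k → Vd (k + 2), (Matrix.of fun i j => (Fin.cons v (Fin.cons w ℓ) : Fin (k + 2) → Vd (k + 2)) i j).det = 0 := by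
      intro ℓ
      by_contra h
      exact hli (Dv_rows_ne h)
    rw [z, z]
end Pool.Agent.TG

end
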