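import Pool.Agent.H94.G4T.M04
import Pool.Agent.H94.G4T.M09

/-! The parts of this file: TG.Y.Sl, TG.Y.SlA. -/

section

/-!
# TG Y Sl: the part of `X` over a small disc which crosses `D`

`Yl` is the part of `X` over the closed disc `{p + z e : ‖z‖ ≤ s}`, `wl` the coordinate `z` on it.  `Ln` collects the data near a point `p ∈ D`, `p ∉ B`, for a direction `e` which is not
tangent to `D`: `κ` are the coordinates of `D`, `c z = κ⁻¹ (p + z e)`.  `fr κ c z j = ∂κ/∂q_{j+1}` at `c z`: together with `e` a basis.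
-/

set_option autoImplicit false

open Topology Filter Metric

namespace Pool.Agent.TG

open Pool.Agent.H36.BP (EN fs wd)
open Pool.Agent.H14.PP (IsCone CurveAt Tan)
open Pool.Agent.H62.EF (MN pr)
open Pool.Agent.AD (Vd Chart Charts IsGerm)

variable {N k : ℕ}

variable (X : Set (EN N)) (Λ : AddSubgroup (Vd (k + 1))) (u : EN N → Vd (k + 1))

/-- the part of `X` over the closed disc of radius `s` in the line `p + ℂ e` -/
def Yl (p e : Vd (k + 1)) (s : ℝ) : Set (EN N) := {x | x ∈ X ∧ ∃ z : ℂ, ‖z‖ ≤ s ∧ u x - (p + z • e) ∈ Λ}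

open Classical in
/-- the coordinate `z` -/
noncomputable def wl (p e : Vd (k + 1)) (s : ℝ) (x : EN N) : ℂ := if h : ∃ z : ℂ, ‖z‖ ≤ s ∧ u x - (p + z • e) ∈ Λ then h.choose else 0

/-- the vectors `∂κ/∂q_{j+1}` at `c z` -/
noncomputable def fr (κ : Vd (k + 1) → Vd (k + 1)) (c : ℂ → Vd (k + 1)) (z : ℂ) (j : Fin k) : Vd (k + 1) := fderiv ℂ κ (c z) (Pi.single j.succ 1)

/-- the determinant of `e` and the vectors `fr` -/
noncomputable def dt (κ : Vd (k + 1) → Vd (k + 1)) (e : Vd (k + 1)) (c : ℂ → Vd (k + 1)) (z : ℂ) : ℂ :=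
  (Matrix.of fun i j => (Fin.cons e (fr κ c z) : Fin (k + 1) → Vd (k + 1)) i j).det

/-- the data near `p` -/
structure Ln (D : Set (Vd (k + 1))) (κ : Vd (k + 1) → Vd (k + 1)) (p e : Vd (k + 1)) (c : ℂ → Vd (k + 1)) (Γ₀ : AddSubgroup ℂ) (s : ℝ) : Prop where
  cone : IsCone X
  charts : Charts (k + 2) X
  tor : TMap X Λ u
  lat : Lat Λ
  lat₀ : Pool.Agent.H62.EF.Lat Γ₀
  pos : 0 < s
  e_ne : e ≠ 0
  small : ∀ l ∈ Λ, ‖l‖ ≤ 4 * s * ‖e‖ → l = 0
  big : ∀ l ∈ Γ₀, ‖l‖ ≤ 8 * s → l = 0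
  off : ∀ z : ℂ, z ≠ 0 → ‖z‖ ≤ s → p + z • e ∉ D
  sub : ∀ y ∉ D, ∀ x ∈ X, u x - y ∈ Λ → IsStr X Λ u x y
  nc : ∀ x ∈ X, u x - p ∈ Λ → IsNC X Λ u κ x
  c_zero : c 0 = 0
  c_ne : (deriv c 0) 0 ≠ 0
  c_an : ∀ z ∈ closedBall (0 : ℂ) s, AnalyticAt ℂ c z
  κ_an : ∀ z ∈ closedBall (0 : ℂ) s, AnalyticAt ℂ κ (c z)
  κ_c : ∀ z ∈ closedBall (0 : ℂ) s, κ (c z) = p + z • e
  dt_ne : ∀ z ∈ closedBall (0 : ℂ) s, dt κ e c z ≠ 0

end Pool.Agent.TG

end

section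

/-!
# TG Y SlA: the slab is a cone with a map to `ℂ / Γ₀`

`wl_spec`: `Exists.choose_spec`.  `wl_eq`: two values `z, z'` with `‖z‖, ‖z'‖ ≤ s`: `(z - z') • e ∈ Λ` has norm `≤ 2 s ‖e‖`, so it is `0` (`L.small`), `z = z'` (`e ≠ 0`).
`isCone`: `smul_mem`: `smul_mem_lat`.  `closed`: let `x_n → x`, `x_n ∈ insert 0 Y`; `x = 0`, or `x ∈ X` (`L.cone.closed`) and eventually `x_n ≠ 0`, `x_n ∈ Y` with `z_n` in the compact disc, along a subsequence (or ultrafilter) `z_n → z`, `lim_mem`.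
`exists_loc`: let `v` be a local lift of `u` at `x` (`TMap.loc`), changed by a constant of `Λ` such that `v x = p + wl x • e`.  For `y ∈ Y` near `x`: `l = v y - (p + wl y • e) ∈ Λ`, and `‖l‖ ≤ ‖v y - v x‖ + ‖(wl x - wl y) • e‖ ≤ ‖v y - v x‖ + 2 s ‖e‖ ≤ 4 s ‖e‖` for `y` near `x`
(`s ‖e‖ > 0`), so `l = 0`, `v y = p + wl y • e`.  With a linear form `ℓ`, `ℓ e = 1`: `wl y = ℓ (v y - p)`: `W y = ℓ (v y - p)`.
`torusMap`: `smul`: `wl (c • x) = wl x` for `x ∈ Y` (`wl_eq`), `loc` from `exists_loc`.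
-/

set_option autoImplicit false

open Topology Filter Metric

namespace Pool.Agent.TG

open Pool.Agent.H36.BP (EN fs wd)
open Pool.Agent.H14.PP (IsCone CurveAt Tan)
open Pool.Agent.H62.EF (MN pr)
open Pool.Agent.AD (Vd Chart Charts IsGerm)

variable {N k : ℕ}

variable {X : Set (EN N)} {Λ : AddSubgroup (Vd (k + 1))} {u : EN N → Vd (k + 1)} {D B : Set (Vd (k + 1))}
  {κ : Vd (k + 1) → Vd (k + 1)} {p e : Vd (k + 1)} {c : ℂ → Vd (k + 1)} {Γ₀ : AddSubgroup ℂ} {s : ℝ}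

theorem Ln.wl_spec {x : EN N} (hx : x ∈ Yl X Λ u p e s) : ‖wl Λ u p e s x‖ ≤ s ∧ u x - (p + wl Λ u p e s x • e) ∈ Λ := by
  unfold wl
  rw [dif_pos hx.2]
  exact hx.2.choose_spec

theorem Ln.exists_loc (L : Ln X Λ u D κ p e c Γ₀ s) {x : EN N} (hx : x ∈ Yl X Λ u p e s) :
    ∃ W : EN N → ℂ, AnalyticAt ℂ W x ∧ ∀ᶠ y in 𝓝 x, y ∈ Yl X Λ u p e s → wl Λ u p e s y = W y := by
  obtain ⟨v, hv, hv'⟩ := L.tor.loc x hx.1
  obtain ⟨i, hi⟩ : ∃ i, e i ≠ 0 := Function.ne_iff.1 L.e_ne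
  set l₀ : Vd (k + 1) := v x - (p + wl Λ u p e s x • e) with hl₀
  have hl₀Λ : l₀ ∈ Λ := by
    have h1 : l₀ = (u x - (p + wl Λ u p e s x • e)) - (u x - v x) := by
      rw [hl₀]
      abel
    rw [h1]
    exact Λ.sub_mem (Ln.wl_spec hx).2 (hv'.self_of_nhds hx.1)
  have he : 0 < ‖e‖ := norm_pos_iff.2 L.e_ne
  have hpos : 0 < 2 * s * ‖e‖ := by
    have := L.pos
    positivity
  have hproj : AnalyticAt ℂ (fun y : EN N => (v y - l₀ - p) i) x := by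
    have h1 : AnalyticAt ℂ (fun y : EN N => v y - l₀ - p) x := (hv.sub analyticAt_const).sub analyticAt_const
    exact ((ContinuousLinearMap.proj (R := ℂ) (φ := fun _ : Fin (k + 1) => ℂ) i).analyticAt _).fun_comp h1
  refine ⟨fun y => (v y - l₀ - p) i / e i, hproj.div analyticAt_const hi, ?_⟩
  have hcont : ∀ᶠ y in 𝓝 x, ‖v y - v x‖ < 2 * s * ‖e‖ := by
    have h1 := hv.continuousAt.eventually (Metric.ball_mem_nhds (v x) hpos)
    filter_upwards [h1] with y hy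
    rwa [dist_eq_norm] at hy
  filter_upwards [hv', hcont] with y h1 h2 hy
  have h3 := Ln.wl_spec hy
  have h4 : v y - l₀ - (p + wl Λ u p e s y • e) ∈ Λ := by
    have h5 : v y - l₀ - (p + wl Λ u p e s y • e) = (u y - (p + wl Λ u p e s y • e)) - (u y - v y) - l₀ := by abel
    rw [h5]
    exact Λ.sub_mem (Λ.sub_mem h3.2 (h1 hy.1)) hl₀Λ
  have h6 : v y - l₀ - (p + wl Λ u p e s y • e) = 0 := by
    refine L.small _ h4 ?_
    have h7 : v y - l₀ - (p + wl Λ u p e s y • e) = (v y - v x) + (wl Λ u p e s x - wl Λ u p e s y) • e := by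
      rw [hl₀, sub_smul]
      abel
    rw [h7]
    refine (norm_add_le _ _).trans ?_
    rw [norm_smul]
    have h8 : ‖wl Λ u p e s x - wl Λ u p e s y‖ ≤ s + s := (norm_sub_le _ _).trans (add_le_add (Ln.wl_spec hx).1 h3.1)
    have h9 := mul_le_mul_of_nonneg_right h8 (norm_nonneg e)
    linarith
  have h7 : v y - l₀ - p = wl Λ u p e s y • e := by
    have h8 : v y - l₀ - p = (v y - l₀ - (p + wl Λ u p e s y • e)) + wl Λ u p e s y • e := by abel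
    rw [h8, h6, zero_add]
  show wl Λ u p e s y = (v y - l₀ - p) i / e i
  rw [h7, Pi.smul_apply, smul_eq_mul, mul_div_cancel_right₀ _ hi]

end Pool.Agent.TG

end
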