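import Pool.Agent.H94.G4T.AD.ChartBasic
import Pool.Agent.H94.G4T.H36.BP.WdA_1
import Pool.Agent.H94.G4T.M18
import Pool.Agent.H94.G4T.M30

/-! The parts of this file: AD.ChartFs, TG.Y.NcA. -/

section

/-!
# BPm ChartFs: comparison of the Fubini–Study length with the length in a chart

Both sides are invariant under `x ↦ c x`, `v ↦ c v` (`fs_inv`, `Chart.fderiv_q_smul`), so by
`surj` let `x = σ p`, `‖p‖ ≤ 1`.
(a) `Dq(x) v = Dq(x) (v - a x)`, `a = ⟪x,v⟫/‖x‖^2` (`Chart.fderiv_q_self`), so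
`‖Dq(x) v‖ ≤ ‖Dq(σ p)‖ ‖σ p‖ fs x v` (`fs_eq`); `p ↦ ‖Dq(σ p)‖ ‖σ p‖` is continuous on the compact
closed ball of radius `1`.
(b) `F = c • σ (q F)` near `z₀` (`Chart.curve`), so `F' z₀ = c' σ + c Dσ(p) w`, `w = (q ∘ F)' z₀`,
`fs (F z₀) (F' z₀) = fs (σ p) (Dσ(p) w)` (`fs_inv`) `≤ ‖Dσ(p)‖ ‖w‖/‖σ p‖` (`fs_le`); again
compactness.
-/

open Topology Filter Metric

namespace Pool.Agent.AD

open Pool.Agent.H36.BP
open Pool.Agent.H14.PP (IsCone CurveAt Tan IsOpenPart fs_eq fs_le)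

variable {N d : ℕ} {X K T : Set (EN N)}

private theorem ChartFs_bdd {f : Vd d → ℝ} (hf : ContinuousOn f (closedBall (0 : Vd d) 1)) :
    ∃ C : ℝ, ∀ p ∈ closedBall (0 : Vd d) 1, f p ≤ C := by
  obtain ⟨C, hC⟩ := (isCompact_closedBall (0 : Vd d) 1).bddAbove_image hf
  exact ⟨C, fun p hp => hC (Set.mem_image_of_mem f hp)⟩

private theorem ChartFs_sub {p : Vd d} (hp : p ∈ closedBall (0 : Vd d) 1) :
    p ∈ ball (0 : Vd d) 2 :=
  closedBall_subset_ball (by norm_num) hp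

private theorem ChartFs_a (χ : Chart d X) :
    ∃ C : ℝ, ∀ p ∈ closedBall (0 : Vd d) 1, ‖fderiv ℂ χ.q (χ.σ p)‖ * ‖χ.σ p‖ ≤ C := by
  apply ChartFs_bdd
  intro p hp
  have hp2 := ChartFs_sub hp
  have h1 : ContinuousAt χ.σ p := (χ.σ_an p hp2).continuousAt
  have h2 : ContinuousAt (fderiv ℂ χ.q) (χ.σ p) :=
    (χ.q_an (χ.σ p) (χ.σ_mem p hp2).2.1).fderiv.continuousAt
  have h3 : ContinuousAt (fun p => fderiv ℂ χ.q (χ.σ p)) p := ContinuousAt.comp (g := fderiv ℂ χ.q) h2 h1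
  exact (h3.norm.mul h1.norm).continuousWithinAt

private theorem ChartFs_b (hX : IsCone X) (χ : Chart d X) :
    ∃ C : ℝ, ∀ p ∈ closedBall (0 : Vd d) 1, ‖fderiv ℂ χ.σ p‖ / ‖χ.σ p‖ ≤ C := by
  apply ChartFs_bdd
  intro p hp
  have hp2 := ChartFs_sub hp
  have h1 : ContinuousAt χ.σ p := (χ.σ_an p hp2).continuousAt
  have h2 : ContinuousAt (fderiv ℂ χ.σ) p := (χ.σ_an p hp2).fderiv.continuousAt
  exact (h2.norm.div h1.norm (norm_ne_zero_iff.mpr (Chart.sigma_ne_zero hX χ hp2))).continuousWithinAt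

theorem Chart.exists_fs_bound (hX : IsCone X) (χ : Chart d X) :
    ∃ C : ℝ, 1 ≤ C ∧
      (∀ x ∈ X, x ∈ χ.U → ‖χ.q x‖ ≤ 1 → ∀ v, ‖fderiv ℂ χ.q x v‖ ≤ C * fs x v) ∧
      ∀ (F : ℂ → EN N) (z₀ : ℂ), CurveAt X F z₀ → F z₀ ∈ χ.U → ‖χ.q (F z₀)‖ ≤ 1 →
        fs (F z₀) (deriv F z₀) ≤ C * ‖deriv (fun z => χ.q (F z)) z₀‖ := by
  obtain ⟨C₁, hC₁⟩ := ChartFs_a χ
  obtain ⟨C₂, hC₂⟩ := ChartFs_b hX χ
  refine ⟨max 1 (max C₁ C₂), le_max_left _ _, ?_, ?_⟩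
  · intro x hx hU hq v
    obtain ⟨hb, c, hc, hxc⟩ := χ.surj x hx hU
    set p := χ.q x with hp
    have hp1 : p ∈ closedBall (0 : Vd d) 1 := by
      rw [mem_closedBall, dist_zero_right]; exact hq
    have hp2 : p ∈ ball (0 : Vd d) 2 := ChartFs_sub hp1
    have hy0 : χ.σ p ≠ 0 := Chart.sigma_ne_zero hX χ hp2
    have hyU : χ.σ p ∈ χ.U := (χ.σ_mem p hp2).2.1
    set y := χ.σ p with hy
    have hv : v = c • (c⁻¹ • v) + (0 : ℂ) • y := by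
      rw [smul_inv_smul₀ hc, zero_smul, add_zero]
    have e1 : fderiv ℂ χ.q x v = fderiv ℂ χ.q y (c⁻¹ • v) := by
      conv_lhs => rw [hxc, hv]
      exact χ.fderiv_q_smul hyU (c⁻¹ • v) hc 0
    have e2 : fs x v = fs y (c⁻¹ • v) := by
      conv_lhs => rw [hxc, hv]
      exact fs_inv hy0 (c⁻¹ • v) hc 0
    rw [e1, e2]
    set v' := c⁻¹ • v with hv'
    set a : ℂ := inner ℂ y v' / (‖y‖ : ℂ) ^ 2 with ha
    have e3' : fderiv ℂ χ.q y (a • y) = 0 := by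
      rw [map_smul, χ.fderiv_q_self hyU, smul_zero]
    have e3 : fderiv ℂ χ.q y v' = fderiv ℂ χ.q y (v' - a • y) := by
      rw [map_sub, e3', sub_zero]
    have hyn : 0 < ‖y‖ := norm_pos_iff.mpr hy0
    have e4 : ‖v' - a • y‖ = ‖y‖ * fs y v' := by
      rw [fs_eq hy0, ← ha]
      field_simp
    calc ‖fderiv ℂ χ.q y v'‖ = ‖fderiv ℂ χ.q y (v' - a • y)‖ := by rw [e3]
      _ ≤ ‖fderiv ℂ χ.q y‖ * ‖v' - a • y‖ := ContinuousLinearMap.le_opNorm _ _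
      _ = (‖fderiv ℂ χ.q y‖ * ‖y‖) * fs y v' := by rw [e4]; ring
      _ ≤ C₁ * fs y v' := mul_le_mul_of_nonneg_right (hC₁ p hp1) (fs_nonneg _ _)
      _ ≤ max 1 (max C₁ C₂) * fs y v' :=
        mul_le_mul_of_nonneg_right ((le_max_left _ _).trans (le_max_right _ _)) (fs_nonneg _ _)
  · intro F z₀ hF hU hq
    obtain ⟨han, -, c, hcan, hc0, hev⟩ := Chart.curve hX χ hF hU
    have hev0 := hev.self_of_nhds
    set p := χ.q (F z₀) with hp
    have hp1 : p ∈ closedBall (0 : Vd d) 1 := by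
      rw [mem_closedBall, dist_zero_right]; exact hq
    have hp2 : p ∈ ball (0 : Vd d) 2 := ChartFs_sub hp1
    have hy0 : χ.σ p ≠ 0 := Chart.sigma_ne_zero hX χ hp2
    set w := deriv (fun z => χ.q (F z)) z₀ with hw
    have hq' : HasDerivAt (fun z => χ.q (F z)) w z₀ := han.differentiableAt.hasDerivAt
    have hσ' : HasFDerivAt χ.σ (fderiv ℂ χ.σ p) p := (χ.σ_an p hp2).differentiableAt.hasFDerivAt
    have hcomp : HasDerivAt (fun z => χ.σ (χ.q (F z))) (fderiv ℂ χ.σ p w) z₀ :=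
      HasFDerivAt.comp_hasDerivAt (l := χ.σ) z₀ hσ' hq'
    have hprod : HasDerivAt (fun z => c z • χ.σ (χ.q (F z)))
        (c z₀ • fderiv ℂ χ.σ p w + deriv c z₀ • χ.σ p) z₀ :=
      hcan.differentiableAt.hasDerivAt.smul hcomp
    have hFd : deriv F z₀ = c z₀ • fderiv ℂ χ.σ p w + deriv c z₀ • χ.σ p := by
      have h1 : F =ᶠ[𝓝 z₀] fun z => c z • χ.σ (χ.q (F z)) := hev.mono fun z hz => hz.2
      rw [h1.deriv_eq]
      exact hprod.deriv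
    have e1 : fs (F z₀) (deriv F z₀) = fs (χ.σ p) (fderiv ℂ χ.σ p w) := by
      rw [hFd]
      conv_lhs => rw [hev0.2]
      exact fs_inv hy0 _ hc0 _
    rw [e1]
    calc fs (χ.σ p) (fderiv ℂ χ.σ p w) ≤ ‖fderiv ℂ χ.σ p w‖ / ‖χ.σ p‖ := fs_le hy0 _
      _ ≤ ‖fderiv ℂ χ.σ p‖ * ‖w‖ / ‖χ.σ p‖ := by
        gcongr
        exact ContinuousLinearMap.le_opNorm _ _
      _ = (‖fderiv ℂ χ.σ p‖ / ‖χ.σ p‖) * ‖w‖ := by ring
      _ ≤ C₂ * ‖w‖ := mul_le_mul_of_nonneg_right (hC₂ p hp1) (norm_nonneg _)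
      _ ≤ max 1 (max C₁ C₂) * ‖w‖ :=
        mul_le_mul_of_nonneg_right ((le_max_right _ _).trans (le_max_right _ _)) (norm_nonneg _)

end Pool.Agent.AD

end

section

/-!
# TG Y NcA: auxiliary lemmas for `NcY`: roots of germs, the coordinates `κ` are locally injective, the coordinate `t` on the line
-/

set_option autoImplicit false

open Topology Filter Metric

namespace Pool.Agent.TG

open Pool.Agent.H36.BP (EN fs wd)
open Pool.Agent.H14.PP (IsCone CurveAt Tan)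
open Pool.Agent.H62.EF (MN pr)
open Pool.Agent.AD (Vd Chart Charts IsGerm)

variable {N k : ℕ}

/-- roots of nonvanishing germs -/
theorem exists_germ_root {f : ℂ → ℂ} (hf : AnalyticAt ℂ f 0) (h0 : f 0 ≠ 0) {n : ℕ} (hn : 0 < n) :
    ∃ β : ℂ → ℂ, AnalyticAt ℂ β 0 ∧ β 0 ≠ 0 ∧ ∀ᶠ ξ in 𝓝 (0 : ℂ), β ξ ^ n = f ξ := by
  obtain ⟨c₀, hc₀⟩ := IsAlgClosed.exists_pow_nat_eq (f 0) hn
  have hc₀0 : c₀ ≠ 0 := by
    rintro rfl
    rw [zero_pow hn.ne'] at hc₀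
    exact h0 hc₀.symm
  have hn0 : (n : ℂ) ≠ 0 := by exact_mod_cast hn.ne'
  have h1 : AnalyticAt ℂ (fun ξ => f ξ / f 0) 0 := hf.div analyticAt_const h0
  have h2 : f 0 / f 0 = 1 := div_self h0
  have h3 : AnalyticAt ℂ (fun ξ => Complex.log (f ξ / f 0)) 0 := by
    refine h1.clog ?_
    rw [h2]
    exact Complex.one_mem_slitPlane
  have h4 : AnalyticAt ℂ (fun ξ => c₀ * Complex.exp (Complex.log (f ξ / f 0) / n)) 0 :=
    analyticAt_const.mul (h3.div analyticAt_const hn0).cexp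
  refine ⟨_, h4, ?_, ?_⟩
  · exact mul_ne_zero hc₀0 (Complex.exp_ne_zero _)
  · filter_upwards [hf.continuousAt.eventually_ne h0] with ξ hξ
    have h5 : f ξ / f 0 ≠ 0 := div_ne_zero hξ h0
    rw [mul_pow, ← Complex.exp_nat_mul, mul_div_cancel₀ _ hn0, Complex.exp_log h5, hc₀, mul_div_cancel₀ _ h0]

/-- the two factors -/
theorem exists_germ_roots {f : ℂ → ℂ} (hf : AnalyticAt ℂ f 0) (h0 : f 0 ≠ 0) {a b : ℕ} (hab : 0 < a + b) :
    ∃ β₁ β₂ : ℂ → ℂ, AnalyticAt ℂ β₁ 0 ∧ AnalyticAt ℂ β₂ 0 ∧ β₁ 0 ≠ 0 ∧ β₂ 0 ≠ 0 ∧ ∀ᶠ ξ in 𝓝 (0 : ℂ), β₁ ξ ^ a * β₂ ξ ^ b = f ξ := by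
  rcases Nat.eq_zero_or_pos a with rfl | ha
  · have hb : 0 < b := by omega
    obtain ⟨β, h1, h2, h3⟩ := exists_germ_root hf h0 hb
    refine ⟨fun _ => 1, β, analyticAt_const, h1, one_ne_zero, h2, ?_⟩
    filter_upwards [h3] with ξ hξ
    rw [pow_zero, one_mul, hξ]
  · obtain ⟨β, h1, h2, h3⟩ := exists_germ_root hf h0 ha
    refine ⟨β, fun _ => 1, h1, analyticAt_const, h2, one_ne_zero, ?_⟩
    filter_upwards [h3] with ξ hξ
    rw [one_pow, mul_one, hξ]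

variable {X : Set (EN N)} {Λ : AddSubgroup (Vd (k + 1))} {u : EN N → Vd (k + 1)} {D B : Set (Vd (k + 1))}
  {κ : Vd (k + 1) → Vd (k + 1)} {p e : Vd (k + 1)} {c : ℂ → Vd (k + 1)} {Γ₀ : AddSubgroup ℂ} {s : ℝ}

theorem Ln.κ_an0 (L : Ln X Λ u D κ p e c Γ₀ s) : AnalyticAt ℂ κ 0 := by
  have := L.κ_an 0 (mem_closedBall_self L.pos.le)
  rwa [L.c_zero] at this

theorem Ln.c_an0 (L : Ln X Λ u D κ p e c Γ₀ s) : AnalyticAt ℂ c 0 := L.c_an 0 (mem_closedBall_self L.pos.le)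

theorem Ln.κ_zero (L : Ln X Λ u D κ p e c Γ₀ s) : κ 0 = p := by
  have := L.κ_c 0 (mem_closedBall_self L.pos.le)
  rwa [L.c_zero, zero_smul, add_zero] at this

/-- `fderiv κ (c z) (c' z) = e` -/
theorem Ln.κ_deriv (L : Ln X Λ u D κ p e c Γ₀ s) {z : ℂ} (hz : ‖z‖ < s) : fderiv ℂ κ (c z) (deriv c z) = e := by
  have hzm : z ∈ closedBall (0 : ℂ) s := mem_closedBall_zero_iff.2 hz.le
  have h1 : HasDerivAt (fun z => κ (c z)) (fderiv ℂ κ (c z) (deriv c z)) z := by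
    have h2 : HasFDerivAt κ (fderiv ℂ κ (c z)) (c z) := (L.κ_an z hzm).differentiableAt.hasFDerivAt
    exact h2.comp_hasDerivAt z (L.c_an z hzm).differentiableAt.hasDerivAt
  have h3 : HasDerivAt (fun z : ℂ => p + z • e) e z := by
    have h4 : HasDerivAt (fun z : ℂ => z • e) ((1 : ℂ) • e) z := (hasDerivAt_id z).smul_const e
    rw [one_smul] at h4
    exact h4.const_add p
  have h4 : (fun z => κ (c z)) =ᶠ[𝓝 z] fun z => p + z • e := by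
    have h5 : ∀ᶠ w in 𝓝 z, w ∈ ball (0 : ℂ) s := isOpen_ball.mem_nhds (mem_ball_zero_iff.2 hz)
    filter_upwards [h5] with w hw
    exact L.κ_c w (ball_subset_closedBall hw)
  have h5 := h4.deriv_eq
  rw [h1.deriv, h3.deriv] at h5
  exact h5

/-- `κ` is a local biholomorphism at the points of the line -/
theorem Ln.κ_inj (L : Ln X Λ u D κ p e c Γ₀ s) {z : ℂ} (hz : ‖z‖ < s) : ∀ v, fderiv ℂ κ (c z) v = 0 → v = 0 := by
  have hzm : z ∈ closedBall (0 : ℂ) s := mem_closedBall_zero_iff.2 hz.le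
  have hli : LinearIndependent ℂ (Fin.cons e (fr κ c z) : Fin (k + 1) → Vd (k + 1)) := Matrix.linearIndependent_rows_of_det_ne_zero (L.dt_ne z hzm)
  have hspan := hli.span_eq_top_of_card_eq_finrank (by rw [Fintype.card_fin, Module.finrank_fin_fun])
  set A : Vd (k + 1) →ₗ[ℂ] Vd (k + 1) := (fderiv ℂ κ (c z) : Vd (k + 1) →ₗ[ℂ] Vd (k + 1)) with hA
  have hsurj : Function.Surjective A := by
    rw [← LinearMap.range_eq_top, ← top_le_iff, ← hspan, Submodule.span_le]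
    rintro _ ⟨i, rfl⟩
    refine Fin.cases ?_ (fun j => ?_) i
    · exact ⟨deriv c z, L.κ_deriv hz⟩
    · exact ⟨Pi.single j.succ 1, rfl⟩
  have hinj : Function.Injective A := LinearMap.injective_iff_surjective.2 hsurj
  intro v hv
  exact hinj (hv.trans (map_zero A).symm)

/-- the coordinate on the line and the graph -/
theorem Ln.exists_theta (L : Ln X Λ u D κ p e c Γ₀ s) : ∃ (θ θ₁ : ℂ → ℂ), AnalyticAt ℂ θ 0 ∧ θ 0 = 0 ∧ (∀ᶠ z in 𝓝 (0 : ℂ), θ (c z 0) = z) ∧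
    (∀ᶠ ξ in 𝓝 (0 : ℂ), c (θ ξ) 0 = ξ) ∧ AnalyticAt ℂ θ₁ 0 ∧ θ₁ 0 ≠ 0 ∧ ∀ ξ, θ ξ = ξ * θ₁ ξ := by
  have hc := L.c_an0
  have ht : AnalyticAt ℂ (fun z => c z 0) 0 := ((ContinuousLinearMap.proj (R := ℂ) (φ := fun _ : Fin (k + 1) => ℂ) 0).analyticAt _).fun_comp hc
  have hdt : HasDerivAt (fun z => c z 0) (deriv c 0 0) 0 := by
    have h1 := hasDerivAt_pi.1 hc.differentiableAt.hasDerivAt 0
    exact h1
  obtain ⟨θ, h1, h2, h3, h4⟩ := Pool.Agent.H62.BU.local_inverse ht (fun v hv => by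
    have h5 : fderiv ℂ (fun z => c z 0) 0 v = v * deriv c 0 0 := by
      rw [hdt.hasFDerivAt.fderiv]
      simp
    rw [h5] at hv
    exact (mul_eq_zero.1 hv).resolve_right L.c_ne)
  have hc00 : c 0 0 = 0 := by
    rw [L.c_zero]
    rfl
  simp only [hc00] at h1 h3 h4
  refine ⟨θ, dslope θ 0, h1, h4, h2, h3, ?_, ?_, fun ξ => ?_⟩
  · obtain ⟨P, hP⟩ := h1
    exact ⟨_, hP.has_fpower_series_dslope_fslope⟩
  · rw [dslope_same]
    intro h0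
    have h5 : HasDerivAt (fun z => θ (c z 0)) (deriv θ 0 * deriv c 0 0) 0 := by
      have h6 : HasDerivAt θ (deriv θ 0) (c 0 0) := by
        rw [hc00]
        exact h1.differentiableAt.hasDerivAt
      exact h6.comp (0 : ℂ) hdt
    have h6 : (fun z => θ (c z 0)) =ᶠ[𝓝 0] fun z => z := h2
    have h7 := h6.deriv_eq
    rw [h5.deriv, deriv_id'', h0, zero_mul] at h7
    exact zero_ne_one h7
  · have h5 := sub_smul_dslope θ 0 ξ
    rw [sub_zero, smul_eq_mul, h4, sub_zero] at h5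
    exact h5.symm

/-- the frame is analytic -/
theorem Ln.fr_an (L : Ln X Λ u D κ p e c Γ₀ s) {z : ℂ} (hz : z ∈ closedBall (0 : ℂ) s) (j : Fin k) : AnalyticAt ℂ (fun z => fr κ c z j) z := by
  have h1 : AnalyticAt ℂ (fderiv ℂ κ) (c z) := (L.κ_an z hz).fderiv
  have h2 : AnalyticAt ℂ (fun w => fderiv ℂ κ (c w)) z := h1.fun_comp (L.c_an z hz)
  exact ((ContinuousLinearMap.apply ℂ (Vd (k + 1)) (Pi.single j.succ 1 : Vd (k + 1))).analyticAt _).fun_comp h2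

theorem Ln.dt_an (L : Ln X Λ u D κ p e c Γ₀ s) {z : ℂ} (hz : z ∈ closedBall (0 : ℂ) s) : AnalyticAt ℂ (dt κ e c) z := by
  have h1 : ∀ i j : Fin (k + 1), AnalyticAt ℂ (fun w => (Fin.cons e (fr κ c w) : Fin (k + 1) → Vd (k + 1)) i j) z := by
    intro i j
    refine Fin.cases ?_ (fun i => ?_) i
    · exact analyticAt_const
    · exact ((ContinuousLinearMap.proj (R := ℂ) (φ := fun _ : Fin (k + 1) => ℂ) j).analyticAt _).fun_comp (L.fr_an hz i)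
  have h2 : dt κ e c = fun w => ∑ σ : Equiv.Perm (Fin (k + 1)), (Equiv.Perm.sign σ : ℂ) * ∏ i, (Fin.cons e (fr κ c w) : Fin (k + 1) → Vd (k + 1)) (σ i) i := by
    funext w
    unfold dt
    rw [Matrix.det_apply']
    rfl
  rw [h2]
  refine Finset.analyticAt_fun_sum _ fun σ _ => analyticAt_const.mul (Finset.analyticAt_fun_prod _ fun i _ => h1 _ _)

end Pool.Agent.TG

end
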