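import Pool.Agent.H94.G4T.H36.BP.Defs_1
import Pool.Agent.H94.G4T.M02

/-! The parts of this file: H36.BP.SubA, H36.BP.SubB, AD.F.PotA, G3.LLift. -/

section

/-!
# BP SubA: calculus of lower supports

* `mul`: for `c'' < c + d` take `c' < c`, `d' < d` with `c' + d' = c''` and multiply the supports.
* `rpow`: `h z₀ ≠ 0`; near `z₀` the function `k z = (u z₀)^r * (h z/h z₀)^(r : ℂ)` is holomorphic (`h z/h z₀` is in the slit plane) and `|k| = |h|^r`
  (`Complex.norm_cpow_real`...), exponent `r c'`; for `r = 0` trivial; for `r > 0` use `c'/r`.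
* `of_holo`: `exp(c' |z - z₀|²) ≤ 1` for `c' < 0`.
-/

set_option autoImplicit false

namespace Pool.Agent.H36.BP

open Filter Topology Metric

variable {N : ℕ}

theorem Sub.anti {u : ℂ → ℝ} {z₀ : ℂ} {c d : ℝ} (h : Sub u z₀ c) (hd : d ≤ c) : Sub u z₀ d := by
  exact ⟨h.1, fun c' hc' => h.2 c' (hc'.trans_le hd)⟩

theorem Sub.mono {u v : ℂ → ℝ} {z₀ : ℂ} {c : ℝ} (h : Sub u z₀ c) (h0 : u z₀ = v z₀) (h1 : ∀ᶠ z in 𝓝 z₀, u z ≤ v z) : Sub v z₀ c := by
  refine ⟨h0 ▸ h.1, fun c' hc' => ?_⟩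
  obtain ⟨g, hg, hg0, hge⟩ := h.2 c' hc'
  refine ⟨g, hg, hg0.trans h0, ?_⟩
  filter_upwards [hge, h1] with z a b using a.trans b

theorem Sub.congr {u v : ℂ → ℝ} {z₀ : ℂ} {c : ℝ} (h : Sub u z₀ c) (h1 : ∀ᶠ z in 𝓝 z₀, u z = v z) : Sub v z₀ c := by
  exact h.mono h1.self_of_nhds (h1.mono fun z hz => hz.le)

theorem Sub.mul {u v : ℂ → ℝ} {z₀ : ℂ} {c d : ℝ} (h : Sub u z₀ c) (h' : Sub v z₀ d) : Sub (fun z => u z * v z) z₀ (c + d) := by
  refine ⟨mul_pos h.1 h'.1, fun c'' hc'' => ?_⟩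
  obtain ⟨g, hg, hg0, hge⟩ := h.2 (c - (c + d - c'') / 2) (by linarith)
  obtain ⟨k, hk, hk0, hke⟩ := h'.2 (d - (c + d - c'') / 2) (by linarith)
  refine ⟨fun z => g z * k z, hg.mul hk, ?_, ?_⟩
  · rw [norm_mul, hg0, hk0]
  · filter_upwards [hge, hke] with z h1 h2
    have e : ‖g z * k z‖ * Real.exp (c'' * ‖z - z₀‖ ^ 2) =
        (‖g z‖ * Real.exp ((c - (c + d - c'') / 2) * ‖z - z₀‖ ^ 2)) *
          (‖k z‖ * Real.exp ((d - (c + d - c'') / 2) * ‖z - z₀‖ ^ 2)) := by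
      rw [norm_mul]
      have e1 : Real.exp (c'' * ‖z - z₀‖ ^ 2) =
          Real.exp ((c - (c + d - c'') / 2) * ‖z - z₀‖ ^ 2) *
            Real.exp ((d - (c + d - c'') / 2) * ‖z - z₀‖ ^ 2) := by
        rw [← Real.exp_add]
        congr 1
        ring
      rw [e1]
      ring
    rw [e]
    have p1 : 0 ≤ ‖g z‖ * Real.exp ((c - (c + d - c'') / 2) * ‖z - z₀‖ ^ 2) := by positivity
    have p2 : 0 ≤ ‖k z‖ * Real.exp ((d - (c + d - c'') / 2) * ‖z - z₀‖ ^ 2) := by positivity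
    exact mul_le_mul h1 h2 p2 (p1.trans h1)

theorem Sub.rpow {u : ℂ → ℝ} {z₀ : ℂ} {c r : ℝ} (h : Sub u z₀ c) (hr : 0 ≤ r) : Sub (fun z => u z ^ r) z₀ (r * c) := by
  refine ⟨Real.rpow_pos_of_pos h.1 r, fun c' hc' => ?_⟩
  rcases hr.eq_or_lt with h0 | hr0
  · subst h0
    rw [zero_mul] at hc'
    refine ⟨fun _ => 1, analyticAt_const, by simp, Filter.Eventually.of_forall fun z => ?_⟩
    show ‖(1 : ℂ)‖ * Real.exp (c' * ‖z - z₀‖ ^ 2) ≤ u z ^ (0 : ℝ)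
    rw [norm_one, one_mul, Real.rpow_zero, Real.exp_le_one_iff]
    exact mul_nonpos_of_nonpos_of_nonneg hc'.le (by positivity)
  · have hc2 : c' / r < c := by
      rw [div_lt_iff₀ hr0]
      linarith
    obtain ⟨g, hg, hg0, hge⟩ := h.2 (c' / r) hc2
    have hgz : g z₀ ≠ 0 := by
      intro h2
      rw [h2, norm_zero] at hg0
      exact h.1.ne hg0
    have hq : AnalyticAt ℂ (fun z => g z / g z₀) z₀ := hg.div analyticAt_const hgz
    have hsl : (fun z => g z / g z₀) z₀ ∈ Complex.slitPlane := by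
      show g z₀ / g z₀ ∈ Complex.slitPlane
      rw [div_self hgz]
      exact Complex.one_mem_slitPlane
    have hkn : ∀ z, ‖(((u z₀) ^ r : ℝ) : ℂ) * (g z / g z₀) ^ (r : ℂ)‖ = ‖g z‖ ^ r := by
      intro z
      rw [norm_mul, Complex.norm_real, Complex.norm_cpow_real, norm_div, hg0, Real.norm_eq_abs,
        abs_of_pos (Real.rpow_pos_of_pos h.1 r), Real.div_rpow (norm_nonneg _) h.1.le]
      have := (Real.rpow_pos_of_pos h.1 r).ne'
      field_simp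
    refine ⟨fun z => (((u z₀) ^ r : ℝ) : ℂ) * (g z / g z₀) ^ (r : ℂ),
      analyticAt_const.mul (hq.cpow analyticAt_const hsl), ?_, ?_⟩
    · rw [hkn, hg0]
    · filter_upwards [hge] with z hz
      rw [hkn]
      have e1 : Real.exp (c' * ‖z - z₀‖ ^ 2) = Real.exp (c' / r * ‖z - z₀‖ ^ 2) ^ r := by
        rw [← Real.exp_mul]
        congr 1
        field_simp
      rw [e1, ← Real.mul_rpow (norm_nonneg _) (Real.exp_pos _).le]
      exact Real.rpow_le_rpow (by positivity) hz hr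

theorem Sub.of_holo {h : ℂ → ℂ} {z₀ : ℂ} (hh : AnalyticAt ℂ h z₀) (h0 : h z₀ ≠ 0) : Sub (fun z => ‖h z‖) z₀ 0 := by
  refine ⟨norm_pos_iff.2 h0, fun c' hc' => ⟨h, hh, rfl, Filter.Eventually.of_forall fun z => ?_⟩⟩
  have h1 : Real.exp (c' * ‖z - z₀‖ ^ 2) ≤ 1 := by
    rw [Real.exp_le_one_iff]
    exact mul_nonpos_of_nonpos_of_nonneg hc'.le (by positivity)
  exact mul_le_of_le_one_right (norm_nonneg _) h1

theorem Sub.const {a : ℝ} (ha : 0 < a) (z₀ : ℂ) : Sub (fun _ => a) z₀ 0 := by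
  have hne : (a : ℂ) ≠ 0 := by exact_mod_cast ha.ne'
  have h := Sub.of_holo (h := fun _ => (a : ℂ)) (z₀ := z₀) analyticAt_const hne
  refine h.congr (Filter.Eventually.of_forall fun z => ?_)
  show ‖(a : ℂ)‖ = a
  rw [Complex.norm_real, Real.norm_eq_abs, abs_of_pos ha]

theorem Sub.const_mul {u : ℂ → ℝ} {z₀ : ℂ} {c a : ℝ} (h : Sub u z₀ c) (ha : 0 < a) : Sub (fun z => a * u z) z₀ c := by
  have h1 := (Sub.const ha z₀).mul h
  rw [zero_add] at h1
  exact h1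

/-- all exponents: enough to check all exponents separately -/
theorem Sub.of_forall {u : ℂ → ℝ} {z₀ : ℂ} {c : ℝ} (h : ∀ d < c, Sub u z₀ d) : Sub u z₀ c := by
  refine ⟨(h (c - 1) (by linarith)).1, fun c' hc' => ?_⟩
  exact (h ((c' + c) / 2) (by linarith)).2 c' (by linarith)

end Pool.Agent.H36.BP

end

section

/-!
# BP SubB: exponentials of squares

`|t|² = |t₀|² + 2 Re(conj t₀ (t - t₀)) + |t - t₀|²`, so `exp(a|t|²) = |exp(a(|t₀|² + 2 conj t₀ (t - t₀)))| exp(a|t - t₀|²)`, and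
`|t z - t₀|²/|z - z₀|² → |t'(z₀)|²` (for every `a`, positive or negative).
-/

set_option autoImplicit false

namespace Pool.Agent.H36.BP

open Filter Topology Metric

variable {N : ℕ}

theorem Sub.exp_sq {t : ℂ → ℂ} {z₀ : ℂ} (ht : AnalyticAt ℂ t z₀) (a : ℝ) :
    Sub (fun z => Real.exp (a * ‖t z‖ ^ 2)) z₀ (a * ‖deriv t z₀‖ ^ 2) := by
  refine ⟨Real.exp_pos _, fun c' hc' => ?_⟩
  refine ⟨fun z => Complex.exp (((a * ‖t z₀‖ ^ 2 : ℝ) : ℂ) +
    2 * a * (starRingEnd ℂ (t z₀)) * (t z - t z₀)), ?_, ?_, ?_⟩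
  · refine AnalyticAt.cexp ?_
    exact analyticAt_const.add (analyticAt_const.mul (ht.sub analyticAt_const))
  · change ‖Complex.exp _‖ = _
    rw [sub_self, mul_zero, add_zero, Complex.norm_exp, Complex.ofReal_re]
  · have hd : HasDerivAt t (deriv t z₀) z₀ := ht.differentiableAt.hasDerivAt
    have hsl := hasDerivAt_iff_tendsto_slope.mp hd
    have hlim : Tendsto (fun z => a * ‖slope t z₀ z‖ ^ 2) (𝓝[≠] z₀) (𝓝 (a * ‖deriv t z₀‖ ^ 2)) :=
      (hsl.norm.pow 2).const_mul a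
    have hev := hlim.eventually (lt_mem_nhds hc')
    have hev' : ∀ᶠ z in 𝓝 z₀, c' * ‖z - z₀‖ ^ 2 ≤ a * ‖t z - t z₀‖ ^ 2 := by
      rw [eventually_nhdsWithin_iff] at hev
      filter_upwards [hev] with z hz'
      rcases eq_or_ne z z₀ with h | h
      · rw [h]
        simp
      · have h1 := hz' h
        have h2 : 0 < ‖z - z₀‖ := norm_pos_iff.mpr (sub_ne_zero.mpr h)
        rw [slope_def_field, norm_div, div_pow] at h1
        have h3 : c' * ‖z - z₀‖ ^ 2 < a * (‖t z - t z₀‖ ^ 2 / ‖z - z₀‖ ^ 2) * ‖z - z₀‖ ^ 2 :=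
          mul_lt_mul_of_pos_right h1 (by positivity)
        have h4 : a * (‖t z - t z₀‖ ^ 2 / ‖z - z₀‖ ^ 2) * ‖z - z₀‖ ^ 2 =
            a * ‖t z - t z₀‖ ^ 2 := by
          field_simp
        rw [h4] at h3
        exact h3.le
    filter_upwards [hev'] with z hz
    rw [Complex.norm_exp, ← Real.exp_add]
    apply Real.exp_le_exp.mpr
    have key : ‖t z‖ ^ 2 = ‖t z₀‖ ^ 2 + 2 * ((starRingEnd ℂ (t z₀)) * (t z - t z₀)).re +
        ‖t z - t z₀‖ ^ 2 := by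
      rw [Complex.sq_norm, Complex.sq_norm, Complex.sq_norm]
      simp only [Complex.normSq_apply, Complex.mul_re, Complex.conj_re, Complex.conj_im,
        Complex.sub_re, Complex.sub_im]
      ring
    have e2 : (((a * ‖t z₀‖ ^ 2 : ℝ) : ℂ) + 2 * a * (starRingEnd ℂ (t z₀)) * (t z - t z₀)).re =
        a * ‖t z₀‖ ^ 2 + 2 * a * ((starRingEnd ℂ (t z₀)) * (t z - t z₀)).re := by
      rw [Complex.add_re, Complex.ofReal_re, mul_assoc]
      congr 1
      rw [show (2 * (a : ℂ)) = (((2 * a : ℝ)) : ℂ) by push_cast; ring, Complex.re_ofReal_mul]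
    rw [e2, key]
    linarith

end Pool.Agent.H36.BP

end

section

/-!
# AD F PotA: the potential lemma, first part

`pot_a` (Ahlfors-Schwarz for all exponents).  For `0 < t < 1` maximise `R z ^ (1/b) * vel F z * (t² - ‖z‖²)` on `‖z‖ ≤ t` (compact, continuous, zero on
`‖z‖ = t`).  At a positive maximum `z₀`: `u z = R z ^ (1/b) * (t² - ‖z‖²)` has `Sub u z₀ (κ v(z₀)²/b - t²/(t² - ‖z₀‖²)²)`
(`Sub.rpow`, `Sub.mul`, and `sub_sq` below), so by `vel_mul_not_isLocalMax` this number is `≤ 0`, i.e. `v(z₀) (t² - ‖z₀‖²) ≤ t √(b/κ)`, and `R ≤ 1`.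
Let `t → 1`.

`sub_sq`: lower support of `t² - ‖z‖²` at `z₀` (`‖z₀‖ < t`): `log(t² - |z|²)` has `∂∂̄ = -t²/(t² - |z|²)²`.  With
`h z = (t² - ‖z₀‖²) * exp(- conj z₀ (z - z₀) * 2 / (2 (t² - ‖z₀‖²)) - (conj z₀)² (z - z₀)² / (2 (t² - ‖z₀‖²)²))` (Taylor expansion of `log`) the quotient
`(t² - ‖z‖²) / |h z|` is `1 - t²/(t² - ‖z₀‖²)² ‖z - z₀‖² + O(‖z - z₀‖³)`.  (Another way: with `D = t² - ‖z₀‖²`, use the Moebius map `w = t² (z - z₀)/(..)`.)
-/

set_option autoImplicit false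

open Topology Filter Metric

namespace Pool.Agent.AD.F

open Pool.Agent.H36.BP (EN fs wd Sub Curve)

variable {N : ℕ} {X : Set (EN N)}

private theorem PotA_exp_le {a s : ℝ} (ha : 1 < a) (hs : 0 ≤ s) (hs1 : a * s ≤ a - 1) : Real.exp (-(a * s)) ≤ 1 - s := by
  have h1 : 1 + a * s ≤ Real.exp (a * s) := by
    have := Real.add_one_le_exp (a * s)
    linarith
  have h2 : 0 < 1 + a * s := by nlinarith
  have h3 : Real.exp (-(a * s)) ≤ (1 + a * s)⁻¹ := by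
    rw [Real.exp_neg]
    exact inv_anti₀ h2 h1
  refine h3.trans ?_
  rw [inv_le_iff_one_le_mul₀ h2]
  nlinarith [mul_nonneg hs (sub_nonneg.2 hs1)]

theorem sub_sq {t : ℝ} {z₀ : ℂ} (h : ‖z₀‖ < t) : Sub (fun z => t ^ 2 - ‖z‖ ^ 2) z₀ (-(t ^ 2 / (t ^ 2 - ‖z₀‖ ^ 2) ^ 2)) := by
  have ht : 0 < t := lt_of_le_of_lt (norm_nonneg _) h
  obtain ⟨D, hD⟩ : ∃ D : ℝ, D = t ^ 2 - ‖z₀‖ ^ 2 := ⟨_, rfl⟩
  have hD0 : 0 < D := by
    rw [hD]
    have := norm_nonneg z₀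
    nlinarith
  rw [← hD]
  obtain ⟨q, hq⟩ : ∃ q : ℂ → ℂ, q = fun z => (t : ℂ) ^ 2 - (starRingEnd ℂ) z₀ * z := ⟨_, rfl⟩
  have hqa : ∀ z, AnalyticAt ℂ q z := by
    intro z
    rw [hq]
    exact analyticAt_const.sub (analyticAt_const.mul analyticAt_id)
  have hq0 : q z₀ = (D : ℂ) := by
    rw [hq]
    simp only
    rw [mul_comm, Complex.mul_conj', hD]
    push_cast
    ring
  have hq00 : q z₀ ≠ 0 := by rw [hq0]; exact_mod_cast hD0.ne'
  obtain ⟨B, hB⟩ : ∃ B : ℂ → ℂ, B = fun z => (t : ℂ) * (z - z₀) / q z := ⟨_, rfl⟩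
  have hBa : AnalyticAt ℂ B z₀ := by
    rw [hB]
    exact (analyticAt_const.mul (analyticAt_id.sub analyticAt_const)).div (hqa z₀) hq00
  have hB0 : B z₀ = 0 := by rw [hB]; simp
  have hBd : deriv B z₀ = (t : ℂ) / D := by
    have h1 : HasDerivAt (fun z : ℂ => (t : ℂ) * (z - z₀)) (t : ℂ) z₀ := by
      simpa using ((hasDerivAt_id z₀).sub_const z₀).const_mul (t : ℂ)
    have h2 : HasDerivAt q (deriv q z₀) z₀ := (hqa z₀).differentiableAt.hasDerivAt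
    have h3 := h1.div h2 hq00
    rw [hB]
    have h4 : deriv (fun z => (t : ℂ) * (z - z₀) / q z) z₀ = _ := h3.deriv
    rw [h4, sub_self, mul_zero, zero_mul, sub_zero, hq0]
    have : (D : ℂ) ≠ 0 := by exact_mod_cast hD0.ne'
    field_simp
  have key : ∀ᶠ z in 𝓝 z₀, t ^ 2 - ‖z‖ ^ 2 = ‖q z ^ 2 / (D : ℂ)‖ * (1 - ‖B z‖ ^ 2) := by
    filter_upwards [(hqa z₀).continuousAt.eventually_ne hq00] with z hz
    have e1 : ‖q z‖ ^ 2 - t ^ 2 * ‖z - z₀‖ ^ 2 = (t ^ 2 - ‖z‖ ^ 2) * D := by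
      rw [hD, hq]
      simp only [Complex.sq_norm, Complex.normSq_apply, Complex.sub_re, Complex.sub_im, Complex.mul_re, Complex.mul_im,
        Complex.conj_re, Complex.conj_im]
      have e2 : (((t : ℂ)) ^ 2).re = t ^ 2 := by
        rw [← Complex.ofReal_pow, Complex.ofReal_re]
      have e3 : (((t : ℂ)) ^ 2).im = 0 := by
        rw [← Complex.ofReal_pow, Complex.ofReal_im]
      rw [e2, e3]
      ring
    have e4 : ‖B z‖ ^ 2 = t ^ 2 * ‖z - z₀‖ ^ 2 / ‖q z‖ ^ 2 := by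
      rw [hB]
      simp only
      rw [norm_div, norm_mul, Complex.norm_real, Real.norm_of_nonneg ht.le, div_pow, mul_pow]
    have hqn : ‖q z‖ ≠ 0 := norm_ne_zero_iff.2 hz
    rw [e4, norm_div, norm_pow, Complex.norm_real, Real.norm_of_nonneg hD0.le]
    field_simp
    linarith
  have hhol : Sub (fun z => ‖q z ^ 2 / (D : ℂ)‖) z₀ 0 := by
    refine Sub.of_holo (((hqa z₀).pow 2).div analyticAt_const (by exact_mod_cast hD0.ne')) ?_
    exact div_ne_zero (pow_ne_zero _ hq00) (by exact_mod_cast hD0.ne')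
  have hone : Sub (fun z => 1 - ‖B z‖ ^ 2) z₀ (-(t ^ 2 / D ^ 2)) := by
    refine Sub.of_forall fun d hd => ?_
    obtain ⟨m, hm⟩ : ∃ m : ℝ, m = t ^ 2 / D ^ 2 := ⟨_, rfl⟩
    rw [← hm] at hd
    have hm0 : 0 < m := by rw [hm]; positivity
    obtain ⟨a, ha⟩ : ∃ a : ℝ, a = -d / m := ⟨_, rfl⟩
    have ha1 : 1 < a := by
      rw [ha, lt_div_iff₀ hm0]
      linarith
    have h1 := Sub.exp_sq hBa (-a)
    have h2 : -a * ‖deriv B z₀‖ ^ 2 = d := by
      rw [hBd, norm_div, Complex.norm_real, Complex.norm_real, Real.norm_of_nonneg ht.le, Real.norm_of_nonneg hD0.le, div_pow, ← hm, ha]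
      field_simp
    rw [h2] at h1
    refine h1.mono ?_ ?_
    · show Real.exp (-a * ‖B z₀‖ ^ 2) = 1 - ‖B z₀‖ ^ 2
      rw [hB0]
      simp
    · have hc : ContinuousAt (fun z => a * ‖B z‖ ^ 2) z₀ := ((hBa.continuousAt.norm.pow 2).const_mul a)
      have h3 : ∀ᶠ z in 𝓝 z₀, a * ‖B z‖ ^ 2 < a - 1 := by
        refine hc.eventually (gt_mem_nhds ?_)
        show a * ‖B z₀‖ ^ 2 < a - 1
        rw [hB0, norm_zero]
        linarith
      filter_upwards [h3] with z hz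
      rw [neg_mul]
      exact PotA_exp_le ha1 (by positivity) hz.le
  have h1 := hhol.mul hone
  rw [zero_add] at h1
  refine h1.congr ?_
  filter_upwards [key] with z hz
  exact hz.symm

end Pool.Agent.AD.F

end

section

/-!
# G3 LLift: local lifts of maps to the projective space
-/

set_option autoImplicit false

open Topology Filter Metric

namespace Pool.Agent.G3

open Pool.Agent.H36.BP (EN wd)
open Pool.Agent.H62.EF (MN pr)

/-- `f` has a holomorphic lift near `z` -/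
def LLift {N : ℕ} (f : ℂ → MN N) (z : ℂ) : Prop := ∃ Φ : ℂ → EN N, AnalyticAt ℂ Φ z ∧ ∀ᶠ w in 𝓝 z, Φ w ≠ 0 ∧ f w = pr (Φ w)

end Pool.Agent.G3

end
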