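import Pool.Agent.H94.G4T.G3.Defs
import Pool.Agent.H94.G4T.H36.BP.WdA_1
import Pool.Agent.H94.G4T.H62.EF.PrA
import Pool.Agent.H94.G4T.M04
import Pool.Agent.H94.G4T.M05
import Pool.Agent.H94.G4T.M18
import Pool.Agent.H94.G4T.M27

/-! The parts of this file: H36.BP.SubC, H17EF.DLin, G3.P.Ext, TG.XTan, TG.XSard, TG.XGeo. -/

section

/-!
# BP SubC: norms and wedge norms of holomorphic curves

* `norm_rpow`: `x₀ = F z₀`, `α z = ⟨x₀, F z⟩/|x₀|²` (holomorphic), `W = F - α x₀ ⊥ x₀`, `|F|² = |α|²|x₀|² + |W|²`, `W z = (z - z₀)(W₁ + o(1))`,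
  `|W₁| = wd x₀ F'(z₀)/|x₀|`; so `|F|^a = |α x₀|^a (1 + |W|²/|α x₀|²)^(a/2)` and `log(1+y) ~ y`; exponent `(a/2)|W₁|²/|x₀|² = a e²/2`, `e = fs x₀ F'(z₀)`.
  Valid for every real `a` (for `a < 0`: `(1+y)^(a/2) ≥ exp(a y/2)`).
* `wedge`: `wd_norming` at `z₀`, `h z = ⟨a,F⟩⟨b,F'⟩ - ⟨b,F⟩⟨a,F'⟩` is holomorphic, `|h| ≤ wd F F'` (`gram_proj`), equality at `z₀`.
* `fs_curve`: `fs F F' = wd F F' * ‖F‖^(-2)`: exponent `0 - e²`.
-/

set_option autoImplicit false

namespace Pool.Agent.H36.BP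

open Filter Topology Metric

variable {N : ℕ}

/-- the coefficient of the projection of `v` to the line of `x` -/
private noncomputable def SubC_c (x v : EN N) : ℂ := (((‖x‖ ^ 2 : ℝ) : ℂ))⁻¹ * inner ℂ x v

/-- the projection orthogonal to `x` -/
private noncomputable def SubC_P (x : EN N) : EN N →L[ℂ] EN N :=
  ContinuousLinearMap.id ℂ (EN N) - (((((‖x‖ ^ 2 : ℝ) : ℂ))⁻¹) • innerSL ℂ x).smulRight x

private theorem SubC_P_apply (x v : EN N) : SubC_P x v = v - SubC_c x v • x := by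
  simp [SubC_P, SubC_c]

private theorem SubC_inner {F : ℂ → EN N} {z₀ : ℂ} (hF : AnalyticAt ℂ F z₀) (x : EN N) :
    AnalyticAt ℂ (fun z => (innerSL ℂ x) (F z)) z₀ :=
  ((innerSL ℂ x).analyticAt (F z₀)).comp hF

private theorem SubC_self {x : EN N} (hx : x ≠ 0) : SubC_c x x = 1 := by
  unfold SubC_c
  rw [inner_self_eq_norm_sq_to_K]
  have h : (((‖x‖ ^ 2 : ℝ) : ℂ)) ≠ 0 := by
    have := norm_ne_zero_iff.mpr hx
    exact_mod_cast pow_ne_zero 2 this
  have h2 : ((‖x‖ : ℂ)) ^ 2 = (((‖x‖ ^ 2 : ℝ) : ℂ)) := by push_cast; rfl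
  show (((‖x‖ ^ 2 : ℝ) : ℂ))⁻¹ * ((‖x‖ : ℂ)) ^ 2 = 1
  rw [h2, inv_mul_cancel₀ h]

private theorem SubC_orth {x : EN N} (hx : x ≠ 0) (v : EN N) :
    inner ℂ x (SubC_P x v) = (0 : ℂ) := by
  rw [SubC_P_apply, inner_sub_right, inner_smul_right]
  have h1 := SubC_self hx
  unfold SubC_c at h1 ⊢
  have h3 : (((‖x‖ ^ 2 : ℝ) : ℂ))⁻¹ * inner ℂ x v * inner ℂ x x =
      inner ℂ x v * ((((‖x‖ ^ 2 : ℝ) : ℂ))⁻¹ * inner ℂ x x) := by ring
  rw [h3, h1, mul_one, sub_self]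

private theorem SubC_norm {x : EN N} (hx : x ≠ 0) (v : EN N) :
    ‖v‖ ^ 2 = ‖SubC_c x v‖ ^ 2 * ‖x‖ ^ 2 + ‖SubC_P x v‖ ^ 2 := by
  have h1 : inner ℂ (SubC_c x v • x) (SubC_P x v) = (0 : ℂ) := by
    rw [inner_smul_left, SubC_orth hx, mul_zero]
  have h2 := norm_add_sq_eq_norm_sq_add_norm_sq_of_inner_eq_zero _ _ h1
  have h3 : SubC_c x v • x + SubC_P x v = v := by rw [SubC_P_apply]; abel
  rw [h3, norm_smul] at h2
  nlinarith [h2]

private theorem SubC_wd {x : EN N} (hx : x ≠ 0) (v : EN N) :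
    wd x v ^ 2 = ‖x‖ ^ 2 * ‖SubC_P x v‖ ^ 2 := by
  rw [wd_sq]
  have h1 := SubC_norm hx v
  have hn : 0 < ‖x‖ := norm_pos_iff.mpr hx
  have h2 : ‖SubC_c x v‖ = (‖x‖ ^ 2)⁻¹ * ‖(inner ℂ x v : ℂ)‖ := by
    unfold SubC_c
    rw [norm_mul, norm_inv, Complex.norm_real, Real.norm_of_nonneg (by positivity)]
  rw [h2] at h1
  have h3 : ((‖x‖ ^ 2)⁻¹ * ‖(inner ℂ x v : ℂ)‖) ^ 2 * ‖x‖ ^ 2 * ‖x‖ ^ 2 =
      ‖(inner ℂ x v : ℂ)‖ ^ 2 := by field_simp
  have h4 : ‖x‖ ^ 2 * ‖v‖ ^ 2 = ((‖x‖ ^ 2)⁻¹ * ‖(inner ℂ x v : ℂ)‖) ^ 2 * ‖x‖ ^ 2 * ‖x‖ ^ 2 +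
      ‖x‖ ^ 2 * ‖SubC_P x v‖ ^ 2 := by rw [h1]; ring
  rw [h4, h3]
  ring

private theorem SubC_fs {x : EN N} (hx : x ≠ 0) (v : EN N) :
    fs x v ^ 2 = ‖SubC_P x v‖ ^ 2 / ‖x‖ ^ 2 := by
  have hn : 0 < ‖x‖ := norm_pos_iff.mpr hx
  unfold fs
  rw [div_pow, SubC_wd hx]
  field_simp

theorem Sub.norm_rpow {F : ℂ → EN N} {z₀ : ℂ} (hF : AnalyticAt ℂ F z₀) (h0 : F z₀ ≠ 0) (a : ℝ) :
    Sub (fun z => ‖F z‖ ^ a) z₀ (a * fs (F z₀) (deriv F z₀) ^ 2 / 2) := by
  obtain ⟨x₀, hx₀⟩ : ∃ x₀, x₀ = F z₀ := ⟨_, rfl⟩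
  rw [← hx₀] at h0 ⊢
  have hn : 0 < ‖x₀‖ := norm_pos_iff.mpr h0
  obtain ⟨α, hα⟩ : ∃ α : ℂ → ℂ, ∀ z, α z = SubC_c x₀ (F z) := ⟨_, fun _ => rfl⟩
  obtain ⟨W, hW⟩ : ∃ W : ℂ → EN N, ∀ z, W z = SubC_P x₀ (F z) := ⟨_, fun _ => rfl⟩
  have hαan : AnalyticAt ℂ α z₀ := by
    have h1 : α = fun z => (((‖x₀‖ ^ 2 : ℝ) : ℂ))⁻¹ * (innerSL ℂ x₀) (F z) := by
      funext z
      rw [hα]
      rfl
    rw [h1]
    exact analyticAt_const.mul (SubC_inner hF x₀)
  have hα0 : α z₀ = 1 := by rw [hα, ← hx₀, SubC_self h0]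
  have hW0 : W z₀ = 0 := by
    rw [hW, ← hx₀, SubC_P_apply, SubC_self h0, one_smul, sub_self]
  have hWd : HasDerivAt W (SubC_P x₀ (deriv F z₀)) z₀ := by
    have h1 := (SubC_P x₀).hasFDerivAt.comp_hasDerivAt z₀ hF.differentiableAt.hasDerivAt
    have h2 : W = (SubC_P x₀) ∘ F := by
      funext z
      exact hW z
    rw [h2]
    exact h1
  obtain ⟨y, hy⟩ : ∃ y : ℂ → ℝ, ∀ z, y z = ‖W z‖ ^ 2 / (‖α z‖ ^ 2 * ‖x₀‖ ^ 2) :=
    ⟨_, fun _ => rfl⟩
  have hαt : Tendsto α (𝓝 z₀) (𝓝 1) := by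
    have := hαan.continuousAt.tendsto
    rwa [hα0] at this
  have hαne : ∀ᶠ z in 𝓝 z₀, α z ≠ 0 := hαt.eventually_ne one_ne_zero
  have hden : Tendsto (fun z => ‖α z‖ ^ 2 * ‖x₀‖ ^ 2) (𝓝 z₀) (𝓝 (‖x₀‖ ^ 2)) := by
    have h1 := (hαt.norm.pow 2).mul_const (‖x₀‖ ^ 2)
    rw [norm_one, one_pow, one_mul] at h1
    exact h1
  have hsq : ‖x₀‖ ^ 2 ≠ 0 := by positivity
  have hyt : Tendsto y (𝓝 z₀) (𝓝 0) := by
    have h1 : Tendsto (fun z => ‖W z‖ ^ 2) (𝓝 z₀) (𝓝 0) := by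
      have h2 := (hWd.continuousAt.tendsto.norm.pow 2)
      rw [hW0, norm_zero] at h2
      simpa using h2
    have h3 := h1.div hden hsq
    rw [zero_div] at h3
    exact h3.congr fun z => (hy z).symm
  have hyq : Tendsto (fun z => y z / ‖z - z₀‖ ^ 2) (𝓝[≠] z₀)
      (𝓝 (fs x₀ (deriv F z₀) ^ 2)) := by
    have h1 := hWd.tendsto_slope
    have h2 := (h1.norm.pow 2).div (hden.mono_left nhdsWithin_le_nhds) hsq
    rw [SubC_fs h0]
    refine h2.congr' ?_
    filter_upwards [self_mem_nhdsWithin] with z hz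
    have hz' : z - z₀ ≠ 0 := sub_ne_zero.mpr hz
    show ‖slope W z₀ z‖ ^ 2 / (‖α z‖ ^ 2 * ‖x₀‖ ^ 2) = y z / ‖z - z₀‖ ^ 2
    rw [hy, slope_def_module, hW0, sub_zero, norm_smul, norm_inv]
    have h3 : ‖z - z₀‖ ≠ 0 := norm_ne_zero_iff.mpr hz'
    rw [mul_pow, inv_pow]
    simp only [div_eq_mul_inv]
    ring
  have hy0 : ∀ z, 0 ≤ y z := fun z => by rw [hy]; positivity
  -- the lower bound of the logarithm
  have hlog : ∀ c' : ℝ, c' < a * fs x₀ (deriv F z₀) ^ 2 / 2 →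
      ∀ᶠ z in 𝓝 z₀, c' * ‖z - z₀‖ ^ 2 ≤ a / 2 * Real.log (1 + y z) := by
    intro c' hc'
    have hmain : ∀ᶠ z in 𝓝[≠] z₀, c' * ‖z - z₀‖ ^ 2 ≤ a / 2 * Real.log (1 + y z) := by
      rcases le_or_gt 0 a with ha | ha
      · have h1 : Tendsto (fun z => a / 2 * (y z / ‖z - z₀‖ ^ 2 / (1 + y z))) (𝓝[≠] z₀)
            (𝓝 (a / 2 * (fs x₀ (deriv F z₀) ^ 2 / (1 + 0)))) :=
          (hyq.div ((hyt.mono_left nhdsWithin_le_nhds).const_add 1) (by norm_num)).const_mul _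
        have h2 : c' < a / 2 * (fs x₀ (deriv F z₀) ^ 2 / (1 + 0)) := by
          rw [add_zero, div_one]; linarith
        filter_upwards [h1.eventually_const_lt h2, self_mem_nhdsWithin] with z hz hz'
        have h3 : 0 < ‖z - z₀‖ := norm_pos_iff.mpr (sub_ne_zero.mpr hz')
        have h4 : 0 < 1 + y z := by linarith [hy0 z]
        have h5 : y z / (1 + y z) ≤ Real.log (1 + y z) := by
          have h6 := Real.one_sub_inv_le_log_of_pos h4
          have h7 : 1 - (1 + y z)⁻¹ = y z / (1 + y z) := by field_simp; ring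
          rwa [h7] at h6
        have h8 : c' * ‖z - z₀‖ ^ 2 ≤ a / 2 * (y z / (1 + y z)) := by
          have h9 := mul_le_mul_of_nonneg_right hz.le (sq_nonneg ‖z - z₀‖)
          have h10 : a / 2 * (y z / ‖z - z₀‖ ^ 2 / (1 + y z)) * ‖z - z₀‖ ^ 2 =
              a / 2 * (y z / (1 + y z)) := by field_simp
          rwa [h10] at h9
        exact h8.trans (mul_le_mul_of_nonneg_left h5 (by linarith))
      · have h1 : Tendsto (fun z => a / 2 * (y z / ‖z - z₀‖ ^ 2)) (𝓝[≠] z₀)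
            (𝓝 (a / 2 * fs x₀ (deriv F z₀) ^ 2)) := hyq.const_mul _
        have h2 : c' < a / 2 * fs x₀ (deriv F z₀) ^ 2 := by linarith
        filter_upwards [h1.eventually_const_lt h2, self_mem_nhdsWithin] with z hz hz'
        have h3 : 0 < ‖z - z₀‖ := norm_pos_iff.mpr (sub_ne_zero.mpr hz')
        have h4 : 0 < 1 + y z := by linarith [hy0 z]
        have h5 : Real.log (1 + y z) ≤ y z := by
          have h6 := Real.log_le_sub_one_of_pos h4
          linarith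
        have h8 : c' * ‖z - z₀‖ ^ 2 ≤ a / 2 * y z := by
          have h9 := mul_le_mul_of_nonneg_right hz.le (sq_nonneg ‖z - z₀‖)
          have h10 : a / 2 * (y z / ‖z - z₀‖ ^ 2) * ‖z - z₀‖ ^ 2 = a / 2 * y z := by field_simp
          rwa [h10] at h9
        refine h8.trans ?_
        exact mul_le_mul_of_nonpos_left h5 (by linarith)
    have h2 : ∀ᶠ z in 𝓝 z₀, z ∈ ({z₀}ᶜ : Set ℂ) →
        c' * ‖z - z₀‖ ^ 2 ≤ a / 2 * Real.log (1 + y z) :=
      eventually_nhdsWithin_iff.mp hmain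
    filter_upwards [h2] with z hz
    by_cases h3 : z = z₀
    · subst h3
      rw [hy, hW0]
      simp
    · exact hz h3
  refine ⟨?_, fun c' hc' => ⟨fun z => ((‖x₀‖ ^ a : ℝ) : ℂ) * (α z) ^ (a : ℂ), ?_, ?_, ?_⟩⟩
  · show 0 < ‖F z₀‖ ^ a
    rw [← hx₀]
    exact Real.rpow_pos_of_pos hn a
  · refine analyticAt_const.mul (hαan.cpow analyticAt_const ?_)
    rw [hα0]
    exact Complex.one_mem_slitPlane
  · show ‖((‖x₀‖ ^ a : ℝ) : ℂ) * (α z₀) ^ (a : ℂ)‖ = ‖F z₀‖ ^ a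
    rw [← hx₀, hα0, Complex.one_cpow, mul_one, Complex.norm_real,
      Real.norm_of_nonneg (Real.rpow_nonneg hn.le a)]
  · filter_upwards [hlog c' hc', hαne] with z hz hz'
    have hα1 : 0 < ‖α z‖ := norm_pos_iff.mpr hz'
    have h1 : ‖((‖x₀‖ ^ a : ℝ) : ℂ) * (α z) ^ (a : ℂ)‖ = (‖α z‖ * ‖x₀‖) ^ a := by
      rw [norm_mul, Complex.norm_real, Real.norm_of_nonneg (Real.rpow_nonneg hn.le a),
        Complex.norm_cpow_of_ne_zero hz']
      simp only [Complex.ofReal_re, Complex.ofReal_im, mul_zero, Real.exp_zero, div_one]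
      rw [Real.mul_rpow hα1.le hn.le, mul_comm]
    have h4 : 0 < 1 + y z := by linarith [hy0 z]
    have h2 : ‖F z‖ ^ 2 = (‖α z‖ * ‖x₀‖) ^ 2 * (1 + y z) := by
      rw [SubC_norm h0 (F z), ← hα, ← hW, hy]
      field_simp
    have h3 : ‖F z‖ = (‖α z‖ * ‖x₀‖) * Real.sqrt (1 + y z) := by
      have h5 : ‖F z‖ = Real.sqrt (‖F z‖ ^ 2) := (Real.sqrt_sq (norm_nonneg _)).symm
      rw [h5, h2, Real.sqrt_mul (by positivity), Real.sqrt_sq (by positivity)]
    have h5 : ‖F z‖ ^ a = (‖α z‖ * ‖x₀‖) ^ a * Real.exp (a / 2 * Real.log (1 + y z)) := by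
      rw [h3, Real.mul_rpow (by positivity) (Real.sqrt_nonneg _)]
      congr 1
      rw [Real.sqrt_eq_rpow, ← Real.rpow_mul h4.le, Real.rpow_def_of_pos h4]
      congr 1
      ring
    show ‖((‖x₀‖ ^ a : ℝ) : ℂ) * (α z) ^ (a : ℂ)‖ * Real.exp (c' * ‖z - z₀‖ ^ 2) ≤ ‖F z‖ ^ a
    rw [h1, h5]
    exact mul_le_mul_of_nonneg_left (Real.exp_le_exp.mpr hz) (Real.rpow_nonneg (by positivity) a)

theorem Sub.wedge {F : ℂ → EN N} {z₀ : ℂ} (hF : AnalyticAt ℂ F z₀) (h0 : 0 < wd (F z₀) (deriv F z₀)) :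
    Sub (fun z => wd (F z) (deriv F z)) z₀ 0 := by
  obtain ⟨a, b, ha, hb, hab, h1⟩ := wd_norming h0
  refine ⟨h0, fun c' hc' => ⟨fun z => (innerSL ℂ a) (F z) * (innerSL ℂ b) (deriv F z) -
    (innerSL ℂ b) (F z) * (innerSL ℂ a) (deriv F z), ?_, h1, ?_⟩⟩
  · have hd := hF.deriv
    exact ((SubC_inner hF a).mul (SubC_inner hd b)).sub ((SubC_inner hF b).mul (SubC_inner hd a))
  · refine Filter.Eventually.of_forall fun z => ?_
    have h2 := gram_proj ha hb hab (F z) (deriv F z)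
    have h3 : Real.exp (c' * ‖z - z₀‖ ^ 2) ≤ 1 := by
      rw [Real.exp_le_one_iff]
      exact mul_nonpos_of_nonpos_of_nonneg hc'.le (sq_nonneg _)
    refine le_trans ?_ h2
    calc ‖(innerSL ℂ a) (F z) * (innerSL ℂ b) (deriv F z) -
          (innerSL ℂ b) (F z) * (innerSL ℂ a) (deriv F z)‖ * Real.exp (c' * ‖z - z₀‖ ^ 2)
        ≤ ‖(innerSL ℂ a) (F z) * (innerSL ℂ b) (deriv F z) -
          (innerSL ℂ b) (F z) * (innerSL ℂ a) (deriv F z)‖ * 1 :=
          mul_le_mul_of_nonneg_left h3 (norm_nonneg _)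
      _ = _ := mul_one _

theorem Sub.fs_curve {F : ℂ → EN N} {z₀ : ℂ} (hF : AnalyticAt ℂ F z₀) (h0 : 0 < fs (F z₀) (deriv F z₀)) :
    Sub (fun z => fs (F z) (deriv F z)) z₀ (-(fs (F z₀) (deriv F z₀)) ^ 2) := by
  have hx : F z₀ ≠ 0 := by
    intro h
    unfold fs at h0
    rw [h, norm_zero] at h0
    simp at h0
  have hw : 0 < wd (F z₀) (deriv F z₀) := by
    refine lt_of_le_of_ne (wd_nonneg _ _) fun h => ?_
    unfold fs at h0
    rw [← h, zero_div] at h0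
    exact lt_irrefl _ h0
  have h1 := (Sub.wedge hF hw).mul (Sub.norm_rpow hF hx (-2))
  have h2 : (0 : ℝ) + -2 * fs (F z₀) (deriv F z₀) ^ 2 / 2 = -(fs (F z₀) (deriv F z₀)) ^ 2 := by
    ring
  rw [h2] at h1
  refine h1.congr (Filter.Eventually.of_forall fun z => ?_)
  show wd (F z) (deriv F z) * ‖F z‖ ^ (-2 : ℝ) = fs (F z) (deriv F z)
  unfold fs
  rw [Real.rpow_neg (norm_nonneg _), div_eq_mul_inv]
  norm_num

end Pool.Agent.H36.BP

end

section

/-!
# EF DLin: a holomorphic function whose derivative is bounded by the length of an entire curve of order two is affine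

With `u = ‖G‖ exp(-a|D - D 0|²) |exp P| exp(|z|²)` and the maximum principle.
-/

set_option autoImplicit false

namespace Pool.Agent.H17EF

open Pool.Agent.H36.BP Metric Filter Topology

/-- division with remainder by `z^k` -/
theorem exists_div {D : ℂ → ℂ} (hD : Differentiable ℂ D) (k : ℕ) :
    ∃ (T : Polynomial ℂ) (H : ℂ → ℂ), T.degree < k ∧ Differentiable ℂ H ∧ ∀ z, D z = T.eval z + z ^ k * H z := by
  induction k with
  | zero => exact ⟨0, D, by simp, hD, by simp⟩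
  | succ k ih =>
    obtain ⟨T, H, hT, hH, h⟩ := ih
    refine ⟨T + Polynomial.C (H 0) * Polynomial.X ^ k, dslope H 0, ?_, ?_, ?_⟩
    · refine lt_of_le_of_lt (Polynomial.degree_add_le _ _) (max_lt (hT.trans ?_) ?_)
      · exact_mod_cast Nat.lt_succ_self k
      · refine lt_of_le_of_lt (Polynomial.degree_C_mul_X_pow_le k _) ?_
        exact_mod_cast Nat.lt_succ_self k
    · rw [← differentiableOn_univ] at hH ⊢
      exact (Complex.differentiableOn_dslope (by simp)).2 hH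
    · intro z
      have h1 : (z - 0) • dslope H 0 z = H z - H 0 := sub_smul_dslope H 0 z
      rw [sub_zero, smul_eq_mul] at h1
      rw [h z]
      simp only [Polynomial.eval_add, Polynomial.eval_mul, Polynomial.eval_C, Polynomial.eval_pow, Polynomial.eval_X]
      have h2 : H z = H 0 + z * dslope H 0 z := by rw [h1]; ring
      conv_lhs => rw [h2]
      ring

/-- growth of a polynomial -/
theorem poly_bound (T : Polynomial ℂ) {k : ℕ} (hT : T.degree < (k + 1 : ℕ)) :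
    ∃ K : ℝ, 0 ≤ K ∧ ∀ z : ℂ, 1 ≤ ‖z‖ → ‖T.eval z‖ ≤ K * ‖z‖ ^ k := by
  refine ⟨∑ i ∈ Finset.range (k + 1), ‖T.coeff i‖, Finset.sum_nonneg fun _ _ => norm_nonneg _, fun z hz => ?_⟩
  have h1 : T.natDegree < k + 1 := by
    rcases eq_or_ne T 0 with h | h
    · subst h; simp
    · exact (Polynomial.natDegree_lt_iff_degree_lt h).2 hT
  rw [Polynomial.eval_eq_sum_range' h1, Finset.sum_mul]
  refine (norm_sum_le _ _).trans (Finset.sum_le_sum fun i hi => ?_)
  rw [norm_mul, norm_pow]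
  exact mul_le_mul_of_nonneg_left (pow_le_pow_right₀ hz (Nat.lt_succ_iff.1 (Finset.mem_range.1 hi))) (norm_nonneg _)

theorem affine_of_bound {N : ℕ} {D : ℂ → ℂ} (hD : Differentiable ℂ D) {c C₀ : ℝ} (hc : 0 < c)
    (h : ∀ r : ℝ, 0 < r → ∃ G : ℂ → EN N, DifferentiableOn ℂ G (ball 0 r) ∧ (∀ z ∈ ball (0 : ℂ) r, ‖G z‖ ≤ 1) ∧
      Real.exp (-(C₀ * (1 + r ^ 2))) ≤ ‖G 0‖ ∧ ∀ z ∈ ball (0 : ℂ) r, G z ≠ 0 → c * ‖deriv D z‖ ≤ fs (G z) (deriv G z)) :
    ∃ a b : ℂ, ∀ z, D z = a * z + b := by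
  -- the key estimate
  have key : ∀ k : ℕ, ∀ (T : Polynomial ℂ) (H : ℂ → ℂ), T.degree < ((k + 1 + 1 : ℕ) : WithBot ℕ) → Differentiable ℂ H →
      (∀ z, D z = T.eval z + z ^ (k + 1 + 1) * H z) → H 0 = 0 := by
    intro k T H hT hH hdec
    obtain ⟨K, hK0, hK⟩ := poly_bound (T - Polynomial.C (D 0)) (k := k + 1) (by
      refine lt_of_le_of_lt (Polynomial.degree_sub_le _ _) (max_lt hT ?_)
      refine lt_of_le_of_lt Polynomial.degree_C_le ?_
      exact_mod_cast Nat.succ_pos _)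
    by_contra hne
    have hpos : 0 < ‖H 0‖ := norm_pos_iff.2 hne
    set a : ℝ := c ^ 2 / 2 with ha
    have ha0 : 0 < a := by positivity
    -- estimate for every radius
    have est : ∀ s : ℝ, 1 ≤ s → a / 2 * ‖H 0‖ ^ 2 * s ^ (2 * (k + 1 + 1)) ≤
        C₀ * (1 + (2 * s) ^ 2) + a * K ^ 2 * s ^ (2 * (k + 1)) + s ^ 2 := by
      intro s hs
      have hs0 : 0 < s := by linarith
      obtain ⟨G, hG, hG1, hG0, hGd⟩ := h (2 * s) (by positivity)
      set P : ℂ → ℂ := fun z => (a / 2 : ℝ) * (2 * (starRingEnd ℂ (H 0)) * (s : ℂ) ^ (2 * (k + 1 + 1)) * H z -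
        ((‖H 0‖ ^ 2 * s ^ (2 * (k + 1 + 1)) : ℝ) : ℂ)) with hP
      have hPd : Differentiable ℂ P := by
        rw [hP]; fun_prop
      set u : ℂ → ℝ := fun z => ‖G z‖ ^ (1 : ℝ) * Real.exp (-a * ‖D z - D 0‖ ^ 2) * ‖Complex.exp (P z)‖ * Real.exp (1 * ‖z‖ ^ 2) with hu
      have hsub : closedBall (0 : ℂ) s ⊆ ball 0 (2 * s) := closedBall_subset_ball (by linarith)
      have hGan : ∀ z ∈ ball (0 : ℂ) (2 * s), AnalyticAt ℂ G z := fun z hz => hG.analyticAt (isOpen_ball.mem_nhds hz)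
      have hmax := max_principle (S := closedBall (0 : ℂ) s) (U := ball (0 : ℂ) s) (isCompact_closedBall _ _) isOpen_ball ball_subset_closedBall
        (u := u) ?_ ?_ (A := Real.exp (a * K ^ 2 * s ^ (2 * (k + 1)) + s ^ 2)) (Real.exp_pos _).le ?_ 0 (mem_closedBall_self hs0.le)
      · -- conclusion
        have hP0 : ‖Complex.exp (P 0)‖ = Real.exp (a / 2 * ‖H 0‖ ^ 2 * s ^ (2 * (k + 1 + 1))) := by
          rw [Complex.norm_exp]
          congr 1
          have h1 : P 0 = ((a / 2 * ‖H 0‖ ^ 2 * s ^ (2 * (k + 1 + 1)) : ℝ) : ℂ) := by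
            have h2 : (starRingEnd ℂ (H 0)) * H 0 = ((‖H 0‖ ^ 2 : ℝ) : ℂ) := by
              rw [mul_comm, Complex.mul_conj, Complex.normSq_eq_norm_sq]
            have h3 : 2 * (starRingEnd ℂ (H 0)) * (s : ℂ) ^ (2 * (k + 1 + 1)) * H 0 = 2 * (s : ℂ) ^ (2 * (k + 1 + 1)) * ((starRingEnd ℂ (H 0)) * H 0) := by ring
            rw [hP]
            simp only
            rw [h3, h2]
            push_cast
            ring
          rw [h1, Complex.ofReal_re]
        have hu0 : u 0 = ‖G 0‖ * Real.exp (a / 2 * ‖H 0‖ ^ 2 * s ^ (2 * (k + 1 + 1))) := by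
          rw [hu]
          simp only [Real.rpow_one, sub_self, norm_zero, hP0]
          norm_num
        rw [hu0] at hmax
        have h4 : Real.exp (-(C₀ * (1 + (2 * s) ^ 2))) * Real.exp (a / 2 * ‖H 0‖ ^ 2 * s ^ (2 * (k + 1 + 1))) ≤
            Real.exp (a * K ^ 2 * s ^ (2 * (k + 1)) + s ^ 2) :=
          (mul_le_mul_of_nonneg_right hG0 (Real.exp_pos _).le).trans hmax
        rw [← Real.exp_add, Real.exp_le_exp] at h4
        linarith
      · -- upper semicontinuity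
        apply ContinuousOn.upperSemicontinuousOn
        have hGc : ContinuousOn G (closedBall 0 s) := hG.continuousOn.mono hsub
        have hDc := hD.continuous
        have hPc := hPd.continuous
        have h5 : ContinuousOn (fun z => ‖G z‖ ^ (1 : ℝ)) (closedBall 0 s) := by
          simp only [Real.rpow_one]; exact hGc.norm
        have h6 : Continuous (fun z => Real.exp (-a * ‖D z - D 0‖ ^ 2)) := by fun_prop
        have h7 : Continuous (fun z => ‖Complex.exp (P z)‖) := by fun_prop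
        have h8 : Continuous (fun z : ℂ => Real.exp (1 * ‖z‖ ^ 2)) := by fun_prop
        exact ((h5.mul h6.continuousOn).mul h7.continuousOn).mul h8.continuousOn
      · -- the supports
        intro z hz hupos
        have hz2 : z ∈ ball (0 : ℂ) (2 * s) := hsub (ball_subset_closedBall hz)
        have hGz : G z ≠ 0 := by
          intro h0
          rw [hu] at hupos
          simp only [h0, norm_zero, Real.rpow_one, zero_mul, lt_irrefl] at hupos
        have s1 := Sub.norm_rpow (hGan z hz2) hGz 1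
        have s2 := Sub.exp_sq (t := fun z => D z - D 0) (z₀ := z) ((hD.analyticAt z).sub analyticAt_const) (-a)
        have s3 := Sub.of_holo (h := fun z => Complex.exp (P z)) (z₀ := z) ((hPd.analyticAt z).cexp) (Complex.exp_ne_zero _)
        have s4 := Sub.exp_sq (t := fun z => z) (z₀ := z) analyticAt_id 1
        have s5 := ((s1.mul s2).mul s3).mul s4
        refine ⟨_, ?_, s5⟩
        have h9 : deriv (fun z => D z - D 0) z = deriv D z := by
          rw [deriv_sub_const]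
        have h10 : deriv (fun z : ℂ => z) z = 1 := deriv_id z
        rw [h9, h10]
        have h11 := hGd z hz2 hGz
        have h12 : (c * ‖deriv D z‖) ^ 2 ≤ fs (G z) (deriv G z) ^ 2 := by
          apply pow_le_pow_left₀ (by positivity) h11
        simp only [norm_one]
        rw [ha]
        nlinarith [sq_nonneg (‖deriv D z‖)]
      · -- the boundary
        intro z hz
        have hzn : ‖z‖ = s := by
          have h13 := hz.1
          have h14 := hz.2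
          simp only [mem_closedBall, mem_ball, dist_zero_right, not_lt] at h13 h14
          exact le_antisymm h13 h14
        have hz2 : z ∈ ball (0 : ℂ) (2 * s) := hsub hz.1
        have hPle : (P z).re ≤ a * ‖D z - D 0‖ ^ 2 + a * K ^ 2 * s ^ (2 * (k + 1)) := by
          have h15 : (P z).re = a / 2 * (2 * s ^ (2 * (k + 1 + 1)) * ((starRingEnd ℂ (H 0)) * H z).re - ‖H 0‖ ^ 2 * s ^ (2 * (k + 1 + 1))) := by
            have h16 : P z = ((a / 2 : ℝ) : ℂ) * (((2 * s ^ (2 * (k + 1 + 1)) : ℝ) : ℂ) * ((starRingEnd ℂ (H 0)) * H z) -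
              ((‖H 0‖ ^ 2 * s ^ (2 * (k + 1 + 1)) : ℝ) : ℂ)) := by
              rw [hP]; push_cast; ring
            rw [h16, Complex.re_ofReal_mul, Complex.sub_re, Complex.re_ofReal_mul, Complex.ofReal_re]
          have h17 : ((starRingEnd ℂ (H 0)) * H z).re ≤ ‖H 0‖ * ‖H z‖ := by
            refine (Complex.re_le_norm _).trans ?_
            rw [norm_mul, RCLike.norm_conj]
          have h18 : 2 * (‖H 0‖ * ‖H z‖) ≤ ‖H 0‖ ^ 2 + ‖H z‖ ^ 2 := by nlinarith [sq_nonneg (‖H 0‖ - ‖H z‖)]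
          have h19 : s ^ (2 * (k + 1 + 1)) * ‖H z‖ ^ 2 = ‖D z - T.eval z‖ ^ 2 := by
            rw [hdec z, add_sub_cancel_left, norm_mul, norm_pow, hzn]
            ring
          have h20 : ‖D z - T.eval z‖ ≤ ‖D z - D 0‖ + ‖T.eval z - D 0‖ := by
            calc ‖D z - T.eval z‖ = ‖(D z - D 0) - (T.eval z - D 0)‖ := by congr 1; ring
              _ ≤ _ := norm_sub_le _ _
          have h21 : ‖T.eval z - D 0‖ ≤ K * s ^ (k + 1) := by
            have := hK z (by rw [hzn]; exact hs)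
            rwa [Polynomial.eval_sub, Polynomial.eval_C, hzn] at this
          have h22 : ‖D z - T.eval z‖ ^ 2 ≤ 2 * ‖D z - D 0‖ ^ 2 + 2 * (K ^ 2 * s ^ (2 * (k + 1))) := by
            have h23 : ‖D z - T.eval z‖ ^ 2 ≤ (‖D z - D 0‖ + K * s ^ (k + 1)) ^ 2 := by
              apply pow_le_pow_left₀ (norm_nonneg _)
              linarith
            have h24 : (K * s ^ (k + 1)) ^ 2 = K ^ 2 * s ^ (2 * (k + 1)) := by ring
            nlinarith [sq_nonneg (‖D z - D 0‖ - K * s ^ (k + 1))]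
          have hsp : 0 < s ^ (2 * (k + 1 + 1)) := by positivity
          rw [h15]
          have h25 : 2 * s ^ (2 * (k + 1 + 1)) * ((starRingEnd ℂ (H 0)) * H z).re ≤ s ^ (2 * (k + 1 + 1)) * (‖H 0‖ ^ 2 + ‖H z‖ ^ 2) := by
            nlinarith
          have h26 : 2 * s ^ (2 * (k + 1 + 1)) * ((starRingEnd ℂ (H 0)) * H z).re - ‖H 0‖ ^ 2 * s ^ (2 * (k + 1 + 1)) ≤
              2 * ‖D z - D 0‖ ^ 2 + 2 * (K ^ 2 * s ^ (2 * (k + 1))) := by
            nlinarith
          calc _ ≤ a / 2 * (2 * ‖D z - D 0‖ ^ 2 + 2 * (K ^ 2 * s ^ (2 * (k + 1)))) := mul_le_mul_of_nonneg_left h26 (by positivity)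
            _ = _ := by ring
        rw [hu]
        simp only [Real.rpow_one, one_mul]
        rw [Complex.norm_exp, hzn]
        calc ‖G z‖ * Real.exp (-a * ‖D z - D 0‖ ^ 2) * Real.exp (P z).re * Real.exp (s ^ 2)
            ≤ 1 * Real.exp (-a * ‖D z - D 0‖ ^ 2) * Real.exp (P z).re * Real.exp (s ^ 2) := by
              gcongr
              exact hG1 z hz2
          _ = Real.exp (-a * ‖D z - D 0‖ ^ 2 + (P z).re + s ^ 2) := by
              rw [one_mul, ← Real.exp_add, ← Real.exp_add]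
          _ ≤ _ := by
              apply Real.exp_le_exp.2
              nlinarith
    -- contradiction for large `s`
    set A : ℝ := a / 2 * ‖H 0‖ ^ 2 with hA
    have hA0 : 0 < A := by positivity
    set B : ℝ := |C₀| * 5 + a * K ^ 2 + 1 with hB
    have hB0 : 0 ≤ B := by positivity
    obtain ⟨s, hs1, hs2⟩ : ∃ s : ℝ, 1 ≤ s ∧ B < A * s := by
      refine ⟨max 1 ((B + 1) / A), le_max_left _ _, ?_⟩
      have h1 : (B + 1) / A ≤ max 1 ((B + 1) / A) := le_max_right _ _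
      rw [div_le_iff₀ hA0] at h1
      linarith
    have h2 := est s hs1
    have hs0 : 0 < s := by linarith
    have h3 : s ^ 2 ≤ s ^ (2 * (k + 1)) := pow_le_pow_right₀ hs1 (by omega)
    have h4 : (1 : ℝ) ≤ s ^ (2 * (k + 1)) := one_le_pow₀ hs1
    have h5 : C₀ * (1 + (2 * s) ^ 2) ≤ |C₀| * 5 * s ^ (2 * (k + 1)) := by
      have h6 : C₀ * (1 + (2 * s) ^ 2) ≤ |C₀| * (1 + (2 * s) ^ 2) := mul_le_mul_of_nonneg_right (le_abs_self _) (by positivity)
      have h7 : 1 + (2 * s) ^ 2 ≤ 5 * s ^ (2 * (k + 1)) := by nlinarith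
      have h8 := mul_le_mul_of_nonneg_left h7 (abs_nonneg C₀)
      linarith
    have h9 : A * s ^ (2 * (k + 1 + 1)) ≤ B * s ^ (2 * (k + 1)) := by
      rw [hB]
      nlinarith
    have h10 : s ^ (2 * (k + 1 + 1)) = s ^ (2 * (k + 1)) * (s * s) := by ring
    have hsp : 0 < s ^ (2 * (k + 1)) := by positivity
    rw [h10] at h9
    have h11 : A * (s * s) ≤ B := by
      have h12 : s ^ (2 * (k + 1)) * (A * (s * s)) ≤ s ^ (2 * (k + 1)) * B := by linarith
      exact le_of_mul_le_mul_left h12 hsp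
    have h13 : A * s ≤ A * (s * s) := by
      have : s * 1 ≤ s * s := mul_le_mul_of_nonneg_left hs1 hs0.le
      rw [mul_one] at this
      exact mul_le_mul_of_nonneg_left this hA0.le
    linarith
  -- all coefficients vanish
  obtain ⟨T, H, hT, hH, hdec⟩ := exists_div hD 2
  have hHz : ∀ m : ℕ, ∃ H' : ℂ → ℂ, Differentiable ℂ H' ∧ (∀ z, D z = T.eval z + z ^ (m + 1 + 1) * H' z) := by
    intro m
    induction m with
    | zero => exact ⟨H, hH, hdec⟩
    | succ m ih =>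
      obtain ⟨H', hH', hd⟩ := ih
      have h0 : H' 0 = 0 := key m T H' (lt_of_lt_of_le hT (by exact_mod_cast (by omega : 2 ≤ m + 1 + 1))) hH' hd
      refine ⟨dslope H' 0, ?_, fun z => ?_⟩
      · rw [← differentiableOn_univ] at hH' ⊢
        exact (Complex.differentiableOn_dslope (by simp)).2 hH'
      · have h1 : (z - 0) • dslope H' 0 z = H' z - H' 0 := sub_smul_dslope H' 0 z
        rw [sub_zero, smul_eq_mul, h0, sub_zero] at h1
        rw [hd z, ← h1]
        ring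
  have hev : ∀ᶠ z in 𝓝 (0 : ℂ), D z - T.eval z = 0 := by
    have han : AnalyticAt ℂ (fun z => D z - T.eval z) 0 := (hD.analyticAt 0).sub (T.differentiable.analyticAt 0)
    rw [← analyticOrderAt_eq_top]
    by_contra hne
    obtain ⟨n, hn⟩ := ENat.ne_top_iff_exists.1 hne
    have h1 : ((n + 2 : ℕ) : ℕ∞) ≤ analyticOrderAt (fun z => D z - T.eval z) 0 := by
      rw [natCast_le_analyticOrderAt han]
      obtain ⟨H', hH', hd⟩ := hHz n
      refine ⟨H', hH'.analyticAt 0, Eventually.of_forall fun z => ?_⟩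
      rw [hd z]
      simp
    rw [← hn] at h1
    have : n + 2 ≤ n := by exact_mod_cast h1
    omega
  have hall : ∀ z, D z - T.eval z = 0 := by
    have h1 : AnalyticOnNhd ℂ (fun z => D z - T.eval z) Set.univ := fun z _ => (hD.analyticAt z).sub (T.differentiable.analyticAt z)
    intro z
    exact h1.eqOn_zero_of_preconnected_of_eventuallyEq_zero isPreconnected_univ (Set.mem_univ 0) hev (Set.mem_univ z)
  have hT1 : T.natDegree ≤ 1 := by
    rcases eq_or_ne T 0 with h | h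
    · subst h; simp
    · exact Nat.lt_succ_iff.1 ((Polynomial.natDegree_lt_iff_degree_lt h).2 hT)
  refine ⟨T.coeff 1, T.coeff 0, fun z => ?_⟩
  have h1 := hall z
  rw [sub_eq_zero] at h1
  rw [h1, Polynomial.eq_X_add_C_of_natDegree_le_one hT1]
  simp

end Pool.Agent.H17EF

end

section

/-!
# G3 P Ext: extension over isolated points with a bound for `TT`

Proof: let `g n` be an entire function with `log ‖F n‖ ≤ Re (g n) ≤ log ‖F n‖ + 2` on the circle of radius `r` around `c` (`circle_approx`, `H36/BP/CirA`).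
By the maximum principle `φ n = exp (- g n) • F n` has norm at most `1` on the disc of radius `r`, and `‖φ n c‖ ≥ exp (-(K + 2))` by the mean value property of `Re (g n)` and the bound
`TT (F n) c r ≤ K`.  Along `𝒰` the maps `φ n` converge locally uniformly to a holomorphic map `H` with `H c ≠ 0` (`montel_ultrafilter`), and `f = pr H` off `S` and off the zeros of `H`.
Divide `H` by its zeros in `closedBall c r'` (`MeromorphicOn.extract_zeros_poles`) to get `G`.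
-/

set_option autoImplicit false

open Topology Filter Metric

namespace Pool.Agent.G3

open Pool.Agent.H36.BP (EN fs wd Sub)
open Pool.Agent.H14.PP (IsCone CurveAt Tan)
open Pool.Agent.H62.EF (MN pr)
open Pool.Agent.AD (Vd)
open Pool.Agent.TG (TMap Gd)

variable {N k : ℕ} {X : Set (EN N)} {Λ : AddSubgroup (Vd (k + 1))} {u : EN N → Vd (k + 1)} {D : Set (Vd (k + 1))} {p : EN N → EN N → ℝ} {m : ℕ} {C : ℝ}

/-- the normalisation of one curve -/
private theorem ext_norm {F : ℂ → EN N} {c : ℂ} {r R K : ℝ} (hr : 0 < r) (hR : r < R) (hF : DifferentiableOn ℂ F (ball c R)) (h0 : ∀ z ∈ ball c R, F z ≠ 0)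
    (hT : TT F c r ≤ K) : ∃ g : ℂ → ℂ, Differentiable ℂ g ∧ (∀ z ∈ closedBall c r, ‖Complex.exp (-g z) • F z‖ ≤ 1) ∧
      Real.exp (-(K + 2)) ≤ ‖Complex.exp (-g c) • F c‖ := by
  have hsub : closedBall c r ⊆ ball c R := closedBall_subset_ball hR
  have hFc : ContinuousOn F (ball c R) := hF.continuousOn
  have hlog : ContinuousOn (fun z => Real.log ‖F z‖) (ball c R) := hFc.norm.log fun z hz => norm_ne_zero_iff.2 (h0 z hz)
  have hmaps : Set.MapsTo (fun ζ : ℂ => ζ + c) (sphere (0 : ℂ) r) (sphere c r) := by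
    intro ζ hζ
    rw [mem_sphere_zero_iff_norm] at hζ
    rw [mem_sphere_iff_norm, add_sub_cancel_right, hζ]
  have hφ : ContinuousOn (fun ζ : ℂ => Real.log ‖F (ζ + c)‖) (sphere (0 : ℂ) r) :=
    (hlog.mono (sphere_subset_closedBall.trans hsub)).comp (continuous_id.add continuous_const).continuousOn hmaps
  obtain ⟨g₀, hg₀, hb⟩ := Pool.Agent.H36.BP.circle_approx hr _ hφ one_pos
  have hgd : Differentiable ℂ fun z => g₀ (z - c) + 1 := (hg₀.comp (differentiable_id.sub_const c)).add_const 1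
  have hb' : ∀ z ∈ sphere c r, Real.log ‖F z‖ ≤ (g₀ (z - c) + 1).re ∧ (g₀ (z - c) + 1).re ≤ Real.log ‖F z‖ + 2 := by
    intro z hz
    have h1 : z - c ∈ sphere (0 : ℂ) r := by
      rw [mem_sphere_zero_iff_norm]
      rwa [mem_sphere_iff_norm] at hz
    have h2 := abs_le.1 (hb (z - c) h1)
    simp only [sub_add_cancel] at h2
    rw [Complex.add_re, Complex.one_re]
    constructor
    · linarith [h2.1]
    · linarith [h2.2]
  have hnorm : ∀ z ∈ ball c R, ‖Complex.exp (-(g₀ (z - c) + 1)) • F z‖ = Real.exp (Real.log ‖F z‖ - (g₀ (z - c) + 1).re) := by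
    intro z hz
    rw [norm_smul, Complex.norm_exp, Real.exp_sub, Real.exp_log (norm_pos_iff.2 (h0 z hz)), Complex.neg_re, Real.exp_neg]
    ring
  refine ⟨fun z => g₀ (z - c) + 1, hgd, ?_, ?_⟩
  · intro z hz
    have hdc : DiffContOnCl ℂ (fun z => Complex.exp (-(g₀ (z - c) + 1)) • F z) (ball c r) := by
      apply DifferentiableOn.diffContOnCl
      rw [closure_ball c hr.ne']
      exact (hgd.neg.cexp.differentiableOn).smul (hF.mono hsub)
    refine Complex.norm_le_of_forall_mem_frontier_norm_le isBounded_ball hdc (fun w hw => ?_) (by rwa [closure_ball c hr.ne'])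
    rw [frontier_ball c hr.ne'] at hw
    rw [hnorm w (hsub (sphere_subset_closedBall hw))]
    rw [Real.exp_le_one_iff]
    linarith [(hb' w hw).1]
  · have hcR : c ∈ ball c R := hsub (mem_closedBall_self hr.le)
    simp only
    rw [hnorm c hcR, Real.exp_le_exp]
    have hi1 : CircleIntegrable (fun z => (g₀ (z - c) + 1).re) c r := (Complex.continuous_re.comp hgd.continuous).continuousOn.circleIntegrable'
    have hi2 : CircleIntegrable (fun z => Real.log ‖F z‖ + 2) c r :=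
      ((hlog.mono (sphere_subset_closedBall.trans hsub)).add continuousOn_const).circleIntegrable hr.le
    have hi3 : CircleIntegrable (fun z => Real.log ‖F z‖) c r :=
      (hlog.mono (sphere_subset_closedBall.trans hsub)).circleIntegrable hr.le
    have hi4 : CircleIntegrable (fun _ : ℂ => (2 : ℝ)) c r := continuousOn_const.circleIntegrable hr.le
    have e1 : Real.circleAverage (fun z => (g₀ (z - c) + 1).re) c r = (g₀ (c - c) + 1).re := by
      have h1 : CircleIntegrable (fun z => g₀ (z - c) + 1) c r := hgd.continuous.continuousOn.circleIntegrable'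
      have h2 := Complex.reCLM.circleAverage_comp_comm h1
      have h3 : Real.circleAverage (fun z => g₀ (z - c) + 1) c r = g₀ (c - c) + 1 := hgd.diffContOnCl.circleAverage
      rw [h3] at h2
      exact h2
    have e2 : Real.circleAverage (fun z => Real.log ‖F z‖ + 2) c r = Real.circleAverage (fun z => Real.log ‖F z‖) c r + 2 := by
      rw [Real.circleAverage_fun_add hi3 hi4, Real.circleAverage_const]
    have h4 := Real.circleAverage_mono hi1 hi2 fun z hz => (hb' z (by rwa [abs_of_pos hr] at hz)).2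
    rw [e1, e2] at h4
    unfold TT at hT
    linarith

theorem ext_disc (𝒰 : Ultrafilter ℕ) {F : ℕ → ℂ → EN N} {f : ℂ → MN N} {S : Set ℂ} {c : ℂ} {r' r R K : ℝ} (hr' : 0 < r') (hr : r' < r) (hR : r < R)
    (hS : ∀ z, ∀ᶠ w in 𝓝[≠] z, w ∉ S) (hSc : IsClosed S) (hc : c ∉ S)
    (hF : ∀ᶠ n in (𝒰 : Filter ℕ), DifferentiableOn ℂ (F n) (ball c R) ∧ ∀ z ∈ ball c R, F n z ≠ 0)
    (hT : ∀ᶠ n in (𝒰 : Filter ℕ), TT (F n) c r ≤ K)
    (hlim : ∀ L ⊆ ball c R \ S, IsCompact L → ∀ ε : ℝ, 0 < ε → ∀ᶠ n in (𝒰 : Filter ℕ), ∀ z ∈ L, dist (pr (F n z)) (f z) < ε)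
    (hf : ∀ z ∈ ball c R, z ∉ S → LLift f z) :
    ∃ G : ℂ → EN N, DifferentiableOn ℂ G (ball c r') ∧ (∀ z ∈ ball c r', G z ≠ 0) ∧ ∀ z ∈ ball c r', z ∉ S → f z = pr (G z) := by
  have hr0 : 0 < r := hr'.trans hr
  -- the normalised curves
  have hex : ∀ n, ∃ g : ℂ → ℂ, (DifferentiableOn ℂ (F n) (ball c R) ∧ ∀ z ∈ ball c R, F n z ≠ 0) → TT (F n) c r ≤ K →
      Differentiable ℂ g ∧ (∀ z ∈ closedBall c r, ‖Complex.exp (-g z) • F n z‖ ≤ 1) ∧ Real.exp (-(K + 2)) ≤ ‖Complex.exp (-g c) • F n c‖ := by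
    intro n
    by_cases h1 : DifferentiableOn ℂ (F n) (ball c R) ∧ ∀ z ∈ ball c R, F n z ≠ 0
    · by_cases h2 : TT (F n) c r ≤ K
      · obtain ⟨g, hg⟩ := ext_norm hr0 hR h1.1 h1.2 h2
        exact ⟨g, fun _ _ => hg⟩
      · exact ⟨0, fun _ h => absurd h h2⟩
    · exact ⟨0, fun h => absurd h h1⟩
  choose g hg using hex
  have hsubR : ball c r ⊆ ball c R := ball_subset_ball hR.le
  have hdiff : ∀ᶠ n in (𝒰 : Filter ℕ), DifferentiableOn ℂ (fun z => Complex.exp (-g n z) • F n z) (ball c r) := by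
    filter_upwards [hF, hT] with n h1 h2
    exact ((hg n h1 h2).1.neg.cexp.differentiableOn).smul (h1.1.mono hsubR)
  have hbdd : ∀ᶠ n in (𝒰 : Filter ℕ), ∀ z ∈ ball c r, ‖Complex.exp (-g n z) • F n z‖ ≤ 1 := by
    filter_upwards [hF, hT] with n h1 h2 z hz
    exact (hg n h1 h2).2.1 z (ball_subset_closedBall hz)
  obtain ⟨H, hHd, hHl⟩ := Pool.Agent.H17.montel_ultrafilter 𝒰 (F := fun n z => Complex.exp (-g n z) • F n z) hdiff hbdd
  have hcr : c ∈ ball c r := mem_ball_self hr0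
  have hHc : H c ≠ 0 := by
    have h1 : Tendsto (fun n => ‖Complex.exp (-g n c) • F n c‖) 𝒰 (𝓝 ‖H c‖) := (hHl.tendsto_at hcr).norm
    have h2 : Real.exp (-(K + 2)) ≤ ‖H c‖ := by
      refine ge_of_tendsto h1 ?_
      filter_upwards [hF, hT] with n h3 h4
      exact (hg n h3 h4).2.2
    exact norm_pos_iff.1 (lt_of_lt_of_le (Real.exp_pos _) h2)
  -- `f = pr H` off `S` and off the zeros of `H`
  have hfH : ∀ z ∈ ball c r, z ∉ S → H z ≠ 0 → f z = pr (H z) := by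
    intro z hz hzS hHz
    have h1 : Tendsto (fun n => pr (Complex.exp (-g n z) • F n z)) 𝒰 (𝓝 (pr (H z))) :=
      (Pool.Agent.H62.EF.continuousAt_pr hHz).tendsto.comp (hHl.tendsto_at hz)
    have h2 : Tendsto (fun n => pr (F n z)) 𝒰 (𝓝 (f z)) := by
      rw [Metric.tendsto_nhds]
      intro ε hε
      have h3 : ({z} : Set ℂ) ⊆ ball c R \ S := by
        rw [Set.singleton_subset_iff]
        exact ⟨hsubR hz, hzS⟩
      filter_upwards [hlim {z} h3 isCompact_singleton ε hε] with n hn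
      exact hn z rfl
    have h4 : (fun n => pr (Complex.exp (-g n z) • F n z)) = fun n => pr (F n z) := by
      funext n
      exact Pool.Agent.H62.EF.pr_smul _ (Complex.exp_ne_zero _)
    rw [h4] at h1
    exact tendsto_nhds_unique h2 h1
  -- the zeros of `H` are isolated
  have hHa : AnalyticOnNhd ℂ H (ball c r) := hHd.analyticOnNhd isOpen_ball
  have hiso : ∀ z ∈ ball c r, ∀ᶠ w in 𝓝[≠] z, H w ≠ 0 := by
    intro z hz
    rcases (hHa z hz).eventually_eq_zero_or_eventually_ne_zero with h | h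
    · exfalso
      exact hHc (hHa.eqOn_zero_of_preconnected_of_eventuallyEq_zero (convex_ball c r).isPreconnected hz h hcr)
    · exact h
  have hsub : closedBall c r' ⊆ ball c r := closedBall_subset_ball hr
  have hHm : MeromorphicOn H (closedBall c r') := fun z hz => (hHa z (hsub hz)).meromorphicAt
  have hord : ∀ z : closedBall c r', meromorphicOrderAt H z ≠ ⊤ := by
    rintro ⟨z, hz⟩ h
    rw [meromorphicOrderAt_eq_top_iff] at h
    obtain ⟨w, h1, h2⟩ := (h.and (hiso z (hsub hz))).exists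
    exact h2 h1
  obtain ⟨G, hGa, hG0, hGe⟩ := hHm.extract_zeros_poles hord ((MeromorphicOn.divisor H (closedBall c r')).finiteSupport (isCompact_closedBall c r'))
  have hsub' : ball c r' ⊆ closedBall c r' := ball_subset_closedBall
  refine ⟨G, fun z hz => ((hGa z (hsub' hz)).differentiableAt).differentiableWithinAt, fun z hz => hG0 ⟨z, hsub' hz⟩, fun z hz hzS => ?_⟩
  have hzr : z ∈ ball c r := hsub (hsub' hz)
  obtain ⟨Φ, hΦ, hfΦ⟩ := hf z (hsubR hzr) hzS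
  have hev : ∀ᶠ w in 𝓝[≠] z, pr (Φ w) = pr (G w) := by
    have h1 : ∀ᶠ w in 𝓝[≠] z, w ∈ closedBall c r' := nhdsWithin_le_nhds (Filter.mem_of_superset (isOpen_ball.mem_nhds hz) hsub')
    have h2 : ∀ᶠ w in 𝓝[≠] z, w ∈ ball c r := nhdsWithin_le_nhds (isOpen_ball.mem_nhds hzr)
    have h3 : ∀ᶠ w in 𝓝[≠] z, w ∈ closedBall c r' → H w = ((∏ᶠ u, (· - u) ^ MeromorphicOn.divisor H (closedBall c r') u) • G) w := by
      have h4 := mem_codiscreteWithin.1 hGe z (hsub' hz)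
      rw [disjoint_principal_right] at h4
      filter_upwards [h4] with w hw hwm
      by_contra h5
      exact hw ⟨hwm, h5⟩
    filter_upwards [h1, h2, h3, hiso z hzr, hS z, hfΦ.filter_mono nhdsWithin_le_nhds] with w w1 w2 w3 w4 w5 w6
    rw [← w6.2, hfH w w2 w5 w4]
    have h6 := w3 w1
    rw [Pi.smul_apply'] at h6
    rw [h6]
    refine Pool.Agent.H62.EF.pr_smul _ fun h7 => ?_
    rw [h7, zero_smul] at h6
    exact w4 h6
  have hΦz : Φ z ≠ 0 := hfΦ.self_of_nhds.1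
  have t1 : Tendsto (fun w => pr (Φ w)) (𝓝[≠] z) (𝓝 (pr (Φ z))) :=
    ((Pool.Agent.H62.EF.continuousAt_pr hΦz).tendsto.comp hΦ.continuousAt.tendsto).mono_left nhdsWithin_le_nhds
  have t2 : Tendsto (fun w => pr (G w)) (𝓝[≠] z) (𝓝 (pr (G z))) :=
    ((Pool.Agent.H62.EF.continuousAt_pr (hG0 ⟨z, hsub' hz⟩)).tendsto.comp (hGa z (hsub' hz)).continuousAt.tendsto).mono_left nhdsWithin_le_nhds
  rw [hfΦ.self_of_nhds.2]
  exact tendsto_nhds_unique (t1.congr' hev) t2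

end Pool.Agent.G3

end

section

/-!
# TG XTan: the tangent space of `D` at a point with a coordinate system

`coord_tangent` (two coordinate systems have the same tangent space of `D`): let `fderiv ℂ κ 0 q = v`, `q 0 = 0`.  The curve `γ z = κ (z • q)` is in `D` (`mem_iff`), `γ 0 = p`, `γ' 0 = v`.  Let `ψ` be the local
inverse of `κ'` (`H62.BU.local_inverse`, `κ'` is analytic at `0` with injective derivative, `κ' 0 = p`); `q' = fderiv ℂ ψ p v`: `κ' (ψ (γ z)) = γ z ∈ D` near `0`, so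
`(ψ (γ z)) 0 = 0` near `z = 0` (`mem_iff` for `κ'`), so `q' 0 = 0` (the derivative of `z ↦ (ψ (γ z)) 0`), and `fderiv ℂ κ' 0 q' = v` (derivative of `κ' ∘ ψ = id`).

`coord_move`: if `IsCoord D κ p` then for all small `q₀` with `q₀ 0 = 0`, `fun q => κ (q₀ + q)` is a coordinate system at `κ q₀`.  [Analytic near, `mem_iff` is an eventual statement
(`eventually_eventually_nhds`), `(q₀ + q) 0 = q 0`; injectivity of `fderiv ℂ κ q₀` for small `q₀`: an open condition, by continuity of `q₀ ↦ (fderiv ℂ κ q₀).det` or as in `TN/SardR` `sardR_open`.]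

`trans_iso`: let `κ` be a coordinate system at `q` and `ψ` its local inverse.  If `q + z • e ∈ D` for `z ≠ 0` arbitrarily small: `h z = (ψ (q + z • e)) 0` is analytic at `0` with `h z = 0` iff `q + z • e ∈ D`
for small `z` (`κ (ψ x) = x`), so (isolated zeros) either `q + z • e ∉ D` for `z ≠ 0` small or `h = 0` near `0`; in the second case `q' = fderiv ℂ ψ q e` has `q' 0 = 0` and `fderiv ℂ κ 0 q' = e`:
contradiction to `TransAt`.
-/

set_option autoImplicit false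

open Topology Filter Metric MeasureTheory

namespace Pool.Agent.TG

open Pool.Agent.AD (Vd)

variable {k : ℕ} {D : Set (Vd (k + 1))}

/-- the local inverse of a coordinate system -/
private theorem xtan_inv {κ : Vd (k + 1) → Vd (k + 1)} {p : Vd (k + 1)} (h : IsCoord D κ p) :
    ∃ ψ : Vd (k + 1) → Vd (k + 1), AnalyticAt ℂ ψ p ∧ ψ p = 0 ∧ (∀ᶠ x in 𝓝 p, (x ∈ D ↔ (ψ x) 0 = 0)) ∧
      ∀ v : Vd (k + 1), fderiv ℂ κ 0 (fderiv ℂ ψ p v) = v := by
  obtain ⟨ψ, h1, -, h3, h4⟩ := H62.BU.local_inverse h.an fun v hv => h.inj (by rw [hv, map_zero])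
  rw [h.zero] at h1 h3 h4
  refine ⟨ψ, h1, h4, ?_, ?_⟩
  · have h5 : Tendsto ψ (𝓝 p) (𝓝 0) := by
      have := h1.continuousAt.tendsto
      rwa [h4] at this
    filter_upwards [h5.eventually h.mem_iff, h3] with x hx hx3
    rw [hx3] at hx
    exact hx
  · intro v
    have h5 : HasFDerivAt κ (fderiv ℂ κ 0) (ψ p) := by
      rw [h4]
      exact h.an.differentiableAt.hasFDerivAt
    have h6 : HasFDerivAt (fun x => κ (ψ x)) ((fderiv ℂ κ 0).comp (fderiv ℂ ψ p)) p := h5.comp p h1.differentiableAt.hasFDerivAt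
    have h7 : HasFDerivAt (fun x => κ (ψ x)) (ContinuousLinearMap.id ℂ (Vd (k + 1))) p := by
      refine (hasFDerivAt_id p).congr_of_eventuallyEq ?_
      filter_upwards [h3] with x hx
      exact hx
    have h8 := h6.unique h7
    have h9 := DFunLike.congr_fun h8 v
    exact h9

/-- the derivative of a curve which is in the hyperplane -/
private theorem xtan_der {g : ℂ → Vd (k + 1)} {v : Vd (k + 1)} (hg : HasDerivAt g v 0) (h : ∀ᶠ z in 𝓝 (0 : ℂ), (g z) 0 = 0) : v 0 = 0 := by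
  have h1 : HasDerivAt (fun z => (g z) 0) (v 0) 0 := (hasDerivAt_pi.1 hg) 0
  have h2 : HasDerivAt (fun z => (g z) 0) 0 0 := by
    refine (hasDerivAt_const (0 : ℂ) (0 : ℂ)).congr_of_eventuallyEq ?_
    filter_upwards [h] with z hz
    exact hz
  exact h1.unique h2

private theorem xtan_open {f : Vd (k + 1) → Vd (k + 1)} {x₀ : Vd (k + 1)} (hf : AnalyticAt ℂ f x₀) (h : Function.Injective (fderiv ℂ f x₀)) :
    ∀ᶠ x in 𝓝 x₀, Function.Injective (fderiv ℂ f x) := by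
  obtain ⟨e, he⟩ : ∃ e : Vd (k + 1) ≃L[ℂ] Vd (k + 1), (e : Vd (k + 1) →L[ℂ] Vd (k + 1)) = fderiv ℂ f x₀ := by
    refine ⟨(LinearEquiv.ofInjectiveEndo (fderiv ℂ f x₀ : Vd (k + 1) →ₗ[ℂ] Vd (k + 1)) h).toContinuousLinearEquiv, ?_⟩
    ext v
    rfl
  have h1 : ContinuousAt (fderiv ℂ f) x₀ := hf.fderiv.continuousAt
  have h2 : {T : Vd (k + 1) →L[ℂ] Vd (k + 1) | IsUnit T} ∈ 𝓝 (fderiv ℂ f x₀) := by
    refine Units.isOpen.mem_nhds ?_
    show IsUnit (fderiv ℂ f x₀)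
    rw [← he]
    exact ⟨ContinuousLinearEquiv.toUnit e, rfl⟩
  filter_upwards [h1.eventually h2] with x hx
  obtain ⟨T, hT⟩ := hx
  intro a b hab
  have h3 : ∀ v : Vd (k + 1), (T⁻¹).val (fderiv ℂ f x v) = v := by
    intro v
    have h6 : ((T⁻¹).val * T.val) v = v := by
      rw [Units.inv_mul]
      rfl
    rw [hT] at h6
    exact h6
  rw [← h3 a, hab, h3 b]

theorem coord_tangent {κ κ' : Vd (k + 1) → Vd (k + 1)} {p : Vd (k + 1)} (h : IsCoord D κ p) (h' : IsCoord D κ' p) {q : Vd (k + 1)} (hq : q 0 = 0) :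
    ∃ q' : Vd (k + 1), q' 0 = 0 ∧ fderiv ℂ κ' 0 q' = fderiv ℂ κ 0 q := by
  obtain ⟨ψ, h1, h2, h3, h4⟩ := xtan_inv h'
  refine ⟨fderiv ℂ ψ p (fderiv ℂ κ 0 q), ?_, h4 _⟩
  have h5 : HasDerivAt (fun z : ℂ => z • q) q 0 := by
    have := (hasDerivAt_id (0 : ℂ)).smul_const q
    simpa using this
  have h6 : HasDerivAt (fun z : ℂ => κ (z • q)) (fderiv ℂ κ 0 q) 0 := by
    have h7 : HasFDerivAt κ (fderiv ℂ κ 0) ((0 : ℂ) • q) := by
      rw [zero_smul]
      exact h.an.differentiableAt.hasFDerivAt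
    exact h7.comp_hasDerivAt (0 : ℂ) h5
  have h8 : κ ((0 : ℂ) • q) = p := by
    rw [zero_smul]
    exact h.zero
  have h9 : HasDerivAt (fun z : ℂ => ψ (κ (z • q))) (fderiv ℂ ψ p (fderiv ℂ κ 0 q)) 0 := by
    have h10 : HasFDerivAt ψ (fderiv ℂ ψ p) (κ ((0 : ℂ) • q)) := by
      rw [h8]
      exact h1.differentiableAt.hasFDerivAt
    exact h10.comp_hasDerivAt (0 : ℂ) h6
  refine xtan_der h9 ?_
  have h11 : Tendsto (fun z : ℂ => z • q) (𝓝 0) (𝓝 0) := by
    have := h5.continuousAt.tendsto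
    rwa [zero_smul] at this
  have h12 : Tendsto (fun z : ℂ => κ (z • q)) (𝓝 0) (𝓝 p) := by
    have := h6.continuousAt.tendsto
    rwa [h8] at this
  filter_upwards [h11.eventually h.mem_iff, h12.eventually h3] with z hz1 hz2
  refine hz2.1 (hz1.2 ?_)
  show z • q 0 = 0
  rw [hq, smul_zero]

theorem coord_move {κ : Vd (k + 1) → Vd (k + 1)} {p : Vd (k + 1)} (h : IsCoord D κ p) :
    ∀ᶠ q₀ in 𝓝 (0 : Vd (k + 1)), q₀ 0 = 0 → IsCoord D (fun q => κ (q₀ + q)) (κ q₀) := by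
  filter_upwards [h.an.eventually_analyticAt, xtan_open h.an h.inj, h.mem_iff.eventually_nhds] with q₀ h1 h2 h3 h0
  have h4 : Tendsto (fun q : Vd (k + 1) => q₀ + q) (𝓝 0) (𝓝 q₀) := by
    have : ContinuousAt (fun q : Vd (k + 1) => q₀ + q) 0 := by fun_prop
    have h5 := this.tendsto
    rwa [add_zero] at h5
  refine ⟨?_, by rw [add_zero], ?_, ?_⟩
  · have h5 : AnalyticAt ℂ κ (q₀ + 0) := by
      rw [add_zero]
      exact h1
    exact h5.comp (f := fun q : Vd (k + 1) => q₀ + q) (analyticAt_const.add analyticAt_id)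
  · have h5 : fderiv ℂ (fun q => κ (q₀ + q)) 0 = fderiv ℂ κ q₀ := by
      rw [fderiv_comp_add_left, add_zero]
    rw [h5]
    exact h2
  · filter_upwards [h4.eventually h3] with q hq
    rw [hq]
    show q₀ 0 + q 0 = 0 ↔ q 0 = 0
    rw [h0, zero_add]

theorem trans_iso {κ : Vd (k + 1) → Vd (k + 1)} {q e : Vd (k + 1)} (h : IsCoord D κ q) (he : TransAt D q e) : ∀ᶠ z in 𝓝[≠] (0 : ℂ), q + z • e ∉ D := by
  obtain ⟨ψ, h1, h2, h3, h4⟩ := xtan_inv h
  have h5 : HasDerivAt (fun z : ℂ => q + z • e) e 0 := by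
    have := ((hasDerivAt_id (0 : ℂ)).smul_const e).const_add q
    simpa using this
  have h8 : q + (0 : ℂ) • e = q := by rw [zero_smul, add_zero]
  have h9 : HasDerivAt (fun z : ℂ => ψ (q + z • e)) (fderiv ℂ ψ q e) 0 := by
    have h10 : HasFDerivAt ψ (fderiv ℂ ψ q) (q + (0 : ℂ) • e) := by
      rw [h8]
      exact h1.differentiableAt.hasFDerivAt
    exact h10.comp_hasDerivAt (0 : ℂ) h5
  have h6 : Tendsto (fun z : ℂ => q + z • e) (𝓝 0) (𝓝 q) := by
    have := h5.continuousAt.tendsto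
    rwa [h8] at this
  have h7 : AnalyticAt ℂ (fun z : ℂ => (ψ (q + z • e)) 0) 0 := by
    have h10 : AnalyticAt ℂ ψ (q + (0 : ℂ) • e) := by
      rw [h8]
      exact h1
    have h11 : AnalyticAt ℂ (fun z : ℂ => ψ (q + z • e)) 0 :=
      h10.comp (f := fun z : ℂ => q + z • e) (analyticAt_const.add (analyticAt_id.smul analyticAt_const))
    exact analyticAt_pi_iff.1 h11 0
  rcases h7.eventually_eq_zero_or_eventually_ne_zero with h10 | h10
  · exact absurd (h4 e) (he.2 κ h _ (xtan_der h9 h10))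
  · filter_upwards [h10, (h6.eventually h3).filter_mono nhdsWithin_le_nhds] with z hz1 hz2 hz3
    exact hz1 (hz2.1 hz3)

end Pool.Agent.TG

end

section

/-!
# TG XSard: almost all lines of a given direction are transversal to `D`

`ae_trans`.  For `p ∈ D` with a coordinate system `κ_p` at `p` there is an open neighbourhood `W_p` of `p` and `ρ_p > 0` such that `κ_p` is analytic on `ball 0 ρ_p` with injective derivative, every point of `W_p ∩ D` is
`κ_p q` with `q ∈ ball 0 ρ_p`, `q 0 = 0` (`local_inverse`), and `fun q' => κ_p (q + q')` is a coordinate system at this point (`coord_move`).  By Lindelöf countably many `W_p` cover the set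
`{p ∈ D | ∃ κ, IsCoord D κ p}`.  Let `Ψ w = κ_p (w - w 0 • e₀) - w 0 • e`.  The critical points of `Ψ : Vd (k+1) → Vd (k+1)` have a null image (Sard in equal dimensions).
If `y + z • e = κ_p q ∈ D`, and `TransAt D (y + z • e) e` fails, then (`coord_tangent`, `coord_move`) `e = fderiv ℂ κ_p q q'` with
`q' 0 = 0`, so the derivative of `Ψ` at `w = q + z • e₀` kills `q' + e₀`, `w` is a critical point and `y = Ψ w`.  So the set of the bad `y` is a countable union of null sets.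
-/

set_option autoImplicit false

open Topology Filter Metric MeasureTheory

namespace Pool.Agent.TG

open Pool.Agent.AD (Vd)

variable {k : ℕ} {D : Set (Vd (k + 1))}

/-- good neighbourhoods -/
private theorem sard_nhd {κ : Vd (k + 1) → Vd (k + 1)} {p : Vd (k + 1)} (h : IsCoord D κ p) :
    ∃ W ∈ 𝓝 p, ∃ S : Set (Vd (k + 1)), (∀ q ∈ S, AnalyticAt ℂ κ q ∧ (q 0 = 0 → IsCoord D (fun q' => κ (q + q')) (κ q))) ∧
      ∀ y ∈ W, y ∈ D → ∃ q ∈ S, q 0 = 0 ∧ κ q = y := by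
  obtain ⟨ψ, h1, -, h3, h4⟩ := H62.BU.local_inverse h.an fun v hv => h.inj (by rw [hv, map_zero])
  rw [h.zero] at h1 h3 h4
  obtain ⟨S, hS, hS1⟩ : ∃ S ∈ 𝓝 (0 : Vd (k + 1)), ∀ q ∈ S, AnalyticAt ℂ κ q ∧ (q 0 = 0 → IsCoord D (fun q' => κ (q + q')) (κ q)) :=
    ⟨_, h.an.eventually_analyticAt.and (coord_move h), fun q hq => hq⟩
  have h5 : Tendsto ψ (𝓝 p) (𝓝 0) := by
    have := h1.continuousAt.tendsto
    rwa [h4] at this
  refine ⟨{y | ψ y ∈ S ∧ (κ (ψ y) ∈ D ↔ (ψ y) 0 = 0) ∧ κ (ψ y) = y}, ?_, S, hS1, ?_⟩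
  · filter_upwards [h5.eventually hS, h5.eventually h.mem_iff, h3] with y a b c
    exact ⟨a, b, c⟩
  · rintro y ⟨a, b, c⟩ hy
    exact ⟨ψ y, a, b.1 (by rwa [c]), c⟩

/-- the bad lines through one neighbourhood -/
private theorem sard_one {κ : Vd (k + 1) → Vd (k + 1)} {e : Vd (k + 1)} (he : e ≠ 0) {W S : Set (Vd (k + 1))}
    (hS : ∀ q ∈ S, AnalyticAt ℂ κ q ∧ (q 0 = 0 → IsCoord D (fun q' => κ (q + q')) (κ q)))
    (hW : ∀ y ∈ W, y ∈ D → ∃ q ∈ S, q 0 = 0 ∧ κ q = y) :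
    volume {y : Vd (k + 1) | ∃ z : ℂ, y + z • e ∈ W ∧ y + z • e ∈ D ∧ ¬ TransAt D (y + z • e) e} = 0 := by
  obtain ⟨π, hπ⟩ : ∃ π : Vd (k + 1) →L[ℂ] Vd (k + 1), ∀ w, π w = w - w 0 • (Pi.single 0 1 : Vd (k + 1)) :=
    ⟨ContinuousLinearMap.id ℂ _ - (ContinuousLinearMap.proj (R := ℂ) (φ := fun _ : Fin (k + 1) => ℂ) 0).smulRight (Pi.single 0 1 : Vd (k + 1)), fun w => rfl⟩
  obtain ⟨π₀, hπ₀⟩ : ∃ π₀ : Vd (k + 1) →L[ℂ] Vd (k + 1), ∀ w, π₀ w = w 0 • e :=
    ⟨(ContinuousLinearMap.proj (R := ℂ) (φ := fun _ : Fin (k + 1) => ℂ) 0).smulRight e, fun w => rfl⟩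
  have hder : ∀ w : Vd (k + 1), π w ∈ S → HasFDerivAt (fun w : Vd (k + 1) => κ (π w) - π₀ w) ((fderiv ℂ κ (π w)).comp π - π₀) w := by
    intro w hw
    exact ((hS _ hw).1.differentiableAt.hasFDerivAt.comp w π.hasFDerivAt).sub π₀.hasFDerivAt
  have hnull := addHaar_image_eq_zero_of_det_fderivWithin_eq_zero (volume : Measure (Vd (k + 1))) (f := fun w : Vd (k + 1) => κ (π w) - π₀ w)
    (f' := fun w => ((fderiv ℂ κ (π w)).comp π - π₀).restrictScalars ℝ)
    (s := {w | π w ∈ S ∧ ∃ v : Vd (k + 1), v ≠ 0 ∧ ((fderiv ℂ κ (π w)).comp π - π₀) v = 0})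
    (fun w hw => ((hder w hw.1).restrictScalars ℝ).hasFDerivWithinAt) (by
      rintro w ⟨hw, v, hv, hv0⟩
      by_contra hdet
      have hu : IsUnit (LinearMap.det ((((fderiv ℂ κ (π w)).comp π - π₀).restrictScalars ℝ : Vd (k + 1) →L[ℝ] Vd (k + 1)) : Vd (k + 1) →ₗ[ℝ] Vd (k + 1))) :=
        isUnit_iff_ne_zero.2 hdet
      have hinj := (LinearMap.isUnit_iff_ker_eq_bot _).1 ((LinearMap.isUnit_iff_isUnit_det _).2 hu)
      rw [LinearMap.ker_eq_bot] at hinj
      exact hv (hinj (by rw [map_zero]; exact hv0)))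
  refine measure_mono_null ?_ hnull
  rintro y ⟨z, hyW, hyD, hT⟩
  obtain ⟨q, hqS, hq0, hqy⟩ := hW _ hyW hyD
  have hcoord := (hS q hqS).2 hq0
  rw [hqy] at hcoord
  obtain ⟨κ', hκ', q₁, hq₁, hq₁e⟩ : ∃ κ', IsCoord D κ' (y + z • e) ∧ ∃ q : Vd (k + 1), q 0 = 0 ∧ fderiv ℂ κ' 0 q = e := by
    by_contra hcon
    apply hT
    refine ⟨he, fun κ' hκ' q hq hqe => hcon ⟨κ', hκ', q, hq, hqe⟩⟩
  obtain ⟨q', hq', hq'e⟩ := coord_tangent hκ' hcoord hq₁
  rw [hq₁e] at hq'e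
  have hfd : fderiv ℂ (fun q' => κ (q + q')) 0 = fderiv ℂ κ q := by
    have h1 : HasFDerivAt κ (fderiv ℂ κ q) (q + 0) := by
      rw [add_zero]
      exact (hS q hqS).1.differentiableAt.hasFDerivAt
    have h2 : HasFDerivAt (fun q' : Vd (k + 1) => q + q') (ContinuousLinearMap.id ℂ _) 0 := (hasFDerivAt_id _).const_add q
    have h3 := HasFDerivAt.comp (g := κ) (f := fun q' : Vd (k + 1) => q + q') (0 : Vd (k + 1)) h1 h2
    rw [ContinuousLinearMap.comp_id] at h3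
    exact h3.fderiv
  rw [hfd] at hq'e
  have h0 : (q + z • (Pi.single 0 1 : Vd (k + 1))) 0 = z := by
    rw [Pi.add_apply, hq0, zero_add, Pi.smul_apply, Pi.single_eq_same, smul_eq_mul, mul_one]
  have hπw : π (q + z • (Pi.single 0 1 : Vd (k + 1))) = q := by
    rw [hπ, h0, add_sub_cancel_right]
  have hπ₀w : π₀ (q + z • (Pi.single 0 1 : Vd (k + 1))) = z • e := by
    rw [hπ₀, h0]
  refine ⟨q + z • (Pi.single 0 1 : Vd (k + 1)), ⟨by rw [hπw]; exact hqS, q' + Pi.single 0 1, ?_, ?_⟩, ?_⟩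
  · intro hz
    have h1 := congrFun hz 0
    rw [Pi.add_apply, hq', zero_add, Pi.single_eq_same, Pi.zero_apply] at h1
    exact one_ne_zero h1
  · have h1 : (q' + (Pi.single 0 1 : Vd (k + 1))) 0 = 1 := by
      rw [Pi.add_apply, hq', zero_add, Pi.single_eq_same]
    have h2 : π (q' + (Pi.single 0 1 : Vd (k + 1))) = q' := by
      rw [hπ, h1, one_smul, add_sub_cancel_right]
    have h3 : π₀ (q' + (Pi.single 0 1 : Vd (k + 1))) = e := by
      rw [hπ₀, h1, one_smul]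
    rw [_root_.sub_apply, ContinuousLinearMap.comp_apply, h2, h3, hπw, hq'e, sub_self]
  · show κ (π (q + z • (Pi.single 0 1 : Vd (k + 1)))) - π₀ (q + z • (Pi.single 0 1 : Vd (k + 1))) = y
    rw [hπw, hπ₀w, hqy, add_sub_cancel_right]

theorem ae_trans {e : Vd (k + 1)} (he : e ≠ 0) :
    ∀ᵐ y : Vd (k + 1), ∀ z : ℂ, y + z • e ∈ D → (∃ κ, IsCoord D κ (y + z • e)) → TransAt D (y + z • e) e := by
  have key : ∀ p : Vd (k + 1), ∃ W : Set (Vd (k + 1)), (p ∈ D → (∃ κ, IsCoord D κ p) → W ∈ 𝓝 p) ∧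
      volume {y : Vd (k + 1) | ∃ z : ℂ, y + z • e ∈ W ∧ y + z • e ∈ D ∧ ¬ TransAt D (y + z • e) e} = 0 := by
    intro p
    by_cases h : ∃ κ, IsCoord D κ p
    · obtain ⟨κ, hκ⟩ := h
      obtain ⟨W, hW, S, hS, hWS⟩ := sard_nhd hκ
      exact ⟨W, fun _ _ => hW, sard_one he hS hWS⟩
    · refine ⟨∅, fun _ h' => absurd h' h, ?_⟩
      have h1 : {y : Vd (k + 1) | ∃ z : ℂ, y + z • e ∈ (∅ : Set (Vd (k + 1))) ∧ y + z • e ∈ D ∧ ¬ TransAt D (y + z • e) e} = ∅ := by
        ext y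
        simp
      rw [h1]
      exact measure_empty
  choose W hW hnull using key
  obtain ⟨t, -, htc, hcov⟩ := TopologicalSpace.countable_cover_nhdsWithin (f := W) (s := {p : Vd (k + 1) | p ∈ D ∧ ∃ κ, IsCoord D κ p})
    (fun p hp => nhdsWithin_le_nhds (hW p hp.1 hp.2))
  have h1 : volume (⋃ p ∈ t, {y : Vd (k + 1) | ∃ z : ℂ, y + z • e ∈ W p ∧ y + z • e ∈ D ∧ ¬ TransAt D (y + z • e) e}) = 0 :=
    (measure_biUnion_null_iff htc).2 fun p _ => hnull p
  rw [ae_iff]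
  refine measure_mono_null ?_ h1
  intro y hy
  simp only [Set.mem_ofPred_eq] at hy
  push Not at hy
  obtain ⟨z, hz, hκ, hT⟩ := hy
  obtain ⟨p, hp, hpW⟩ := Set.mem_iUnion₂.1 (hcov (show y + z • e ∈ {p : Vd (k + 1) | p ∈ D ∧ ∃ κ, IsCoord D κ p} from ⟨hz, hκ⟩))
  exact Set.mem_iUnion₂.2 ⟨p, hp, z, hpW, hz, hT⟩

end Pool.Agent.TG

end

section

/-!
# TG XGeo: the transversal points
-/

set_option autoImplicit false

open Topology Filter Metric MeasureTheory

namespace Pool.Agent.TG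

open Pool.Agent.H36.BP (EN)
open Pool.Agent.AD (Vd)

variable {N k : ℕ} {X : Set (EN N)} {Λ : AddSubgroup (Vd (k + 1))} {u : EN N → Vd (k + 1)} {D B : Set (Vd (k + 1))}

/-- `q ∈ D \ B` and the line `q + ℂ e` is transversal to `D` at `q` -/
def TrB (D B : Set (Vd (k + 1))) (q e : Vd (k + 1)) : Prop := q ∈ D ∧ q ∉ B ∧ (∃ κ, IsCoord D κ q) ∧ TransAt D q e

theorem Geo.ae_trB (G : Geo X Λ u D B) {e : Vd (k + 1)} (he : e ≠ 0) : ∀ᵐ y : Vd (k + 1), ∀ z : ℂ, y + z • e ∈ D → TrB D B (y + z • e) e := by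
  filter_upwards [G.B_lines e he, ae_trans (D := D) he] with y h1 h2 z hz
  obtain ⟨κ, hκ, -⟩ := G.nc _ hz (h1 z)
  exact ⟨hz, h1 z, ⟨κ, hκ⟩, h2 z hz ⟨κ, hκ⟩⟩

theorem trB_iso {q e : Vd (k + 1)} (h : TrB D B q e) : ∀ᶠ z in 𝓝[≠] (0 : ℂ), q + z • e ∉ D := by
  obtain ⟨κ, hκ⟩ := h.2.2.1
  exact trans_iso hκ h.2.2.2

end Pool.Agent.TG

end
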