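import Pool.Agent.H94.G4T.M01
import Pool.Agent.H94.G4T.M12
import Pool.Agent.H94.G4T.M26

/-! The parts of this file: H17EF.PNDefs, H17G.PNG, H17GT.Defs, H23.GU.Defs, AD.T.Defs. -/

section

/-!
# EF PNDefs: holomorphic maps from a projective surface to a complex torus
-/

set_option autoImplicit false

open Topology Filter MvPolynomial

noncomputable section

namespace Pool.Agent.H17EF

open Pool.Agent.H17 (PN VanishesAt HolomorphicInto)

variable {N : ℕ}

/-- The closed subvariety of `ℙ^N` given by the homogeneous ideal `P`. -/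
def projVar (P : Ideal (MvPolynomial (Fin (N + 1)) ℂ)) : Set (PN N) :=
  {x | ∀ Q ∈ P, ∀ n, Q.IsHomogeneous n → VanishesAt Q x}

/-- The entire curves `f` in `X` with `u (f z) = z` modulo `Λ`. -/
def sections (X : Set (PN N)) (Λ : AddSubgroup ℂ) (u : PN N → ℂ ⧸ Λ) : Set (ℂ → PN N) :=
  {f | HolomorphicInto f Set.univ ∧ (∀ z, f z ∈ X) ∧ ∀ z, u (f z) = (z : ℂ ⧸ Λ)}

end Pool.Agent.H17EF

end
end

section

/-!
# G PNG: projective surfaces with a holomorphic map to an elliptic curve, definitions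
-/

set_option autoImplicit false

open Topology Filter MvPolynomial

noncomputable section

namespace Pool.Agent.H17G

open Pool.Agent.H17 (PN VanishesAt HolomorphicInto)

variable {N : ℕ}

/-- The point of `X` with the homogeneous coordinates `x` lies over `z`: the pair is a point of the covering `{(x, z) : u x = z mod Λ}` of `X`. -/
def Over (X : Set (PN N)) (Λ : AddSubgroup ℂ) (u : PN N → ℂ ⧸ Λ) (z : ℂ) (x : Fin (N + 1) → ℂ) : Prop :=
  ∃ h : x ≠ 0, Projectivization.mk ℂ x h ∈ X ∧ u (Projectivization.mk ℂ x h) = (z : ℂ ⧸ Λ)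

/-- `v` is a tangent vector at `x` of the affine cone over `X`. -/
def IsTangent (X : Set (PN N)) (x v : Fin (N + 1) → ℂ) : Prop :=
  ∃ γ : ℂ → Fin (N + 1) → ℂ, AnalyticAt ℂ γ 0 ∧ γ 0 = x ∧ deriv γ 0 = v ∧ ∀ᶠ z in 𝓝 (0 : ℂ), ∃ h : γ z ≠ 0, Projectivization.mk ℂ (γ z) h ∈ X

/-- The form `Ω` is `0` at all points of the fibre over `z`. -/
def VanishesOver (X : Set (PN N)) (Λ : AddSubgroup ℂ) (u : PN N → ℂ ⧸ Λ)
    (Ω : ℂ → (Fin (N + 1) → ℂ) → (Fin (N + 1) → ℂ) → (Fin (N + 1) → ℂ) → ℂ) (z : ℂ) : Prop :=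
  ∀ x, Over X Λ u z x → ∀ v w, IsTangent X x v → IsTangent X x w → Ω z x v w = 0

/-- The form `Ω` is `0` on no nonempty open set. -/
def IsNowhereZero (X : Set (PN N)) (Λ : AddSubgroup ℂ) (u : PN N → ℂ ⧸ Λ)
    (Ω : ℂ → (Fin (N + 1) → ℂ) → (Fin (N + 1) → ℂ) → (Fin (N + 1) → ℂ) → ℂ) : Prop :=
  ∀ z x, Over X Λ u z x → ∃ᶠ q in 𝓝 (z, x), Over X Λ u q.1 q.2 ∧ ∃ v w, IsTangent X q.2 v ∧ IsTangent X q.2 w ∧ Ω q.1 q.2 v w ≠ 0

end Pool.Agent.H17G

end
end

section

/-!
# Varieties of general type, in terms of their function field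
-/

open MvPolynomial
open Pool.Agent.H23 (RatForm regularForms PrimeDivisorOver)

noncomputable section

namespace Pool.Agent.H17GT

section FunctionField

variable {K : Type} [Field K] [Algebra ℂ K] {k : ℕ}

/-- Let `K` be the function field of a variety of dimension `k`, let `ω` be a rational `k`-form and
`f ∈ K`. The rational `m`-canonical form `f ω^m` is regular along the prime divisor `E`: one has
`ω = g η` with `η` regular along `E` and `f g ^ m` regular along `E`. -/
def RegularAlong (E : PrimeDivisorOver K k) (m : ℕ) (f : K) (ω : RatForm K k) : Prop :=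
  ∃ (g : K) (η : RatForm K k), η ∈ regularForms k E.localRing ∧ ω = g • η ∧ 0 ≤ E.ord (f * g ^ m)

end FunctionField

/-- The coordinate function `x_i` in the fraction field of the homogeneous coordinate ring. -/
def coordFun {N : ℕ} (P : Ideal (MvPolynomial (Fin (N + 1)) ℂ)) [P.IsPrime] (i : Fin (N + 1)) :
    FractionRing (MvPolynomial (Fin (N + 1)) ℂ ⧸ P) :=
  algebraMap (MvPolynomial (Fin (N + 1)) ℂ ⧸ P) _ (Ideal.Quotient.mk P (X i))

/-- The function field of the closed subvariety of `ℙ^N` given by the homogeneous prime ideal `P`: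
the field generated over `ℂ` by the functions `x_i / x_j`. -/
def functionField {N : ℕ} (P : Ideal (MvPolynomial (Fin (N + 1)) ℂ)) [P.IsPrime] :
    IntermediateField ℂ (FractionRing (MvPolynomial (Fin (N + 1)) ℂ ⧸ P)) :=
  IntermediateField.adjoin ℂ {y | ∃ i j, y = coordFun P i / coordFun P j}

end Pool.Agent.H17GT

end
end

section

/-!
# GU Defs: finite étale coverings of projective varieties
-/

set_option autoImplicit false

open Topology Filter MvPolynomial

noncomputable section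

namespace Pool.Agent.H23.GU

open Pool.Agent.H17 (PN)
open Pool.Agent.H17EF (projVar)

variable {N M : ℕ}

/-- `p` is a finite étale covering `X' → X` of projective varieties: a surjective regular map which is locally injective and has local holomorphic
sections through every point of `X'`. -/
structure IsEtaleCovering (P : Ideal (MvPolynomial (Fin (N + 1)) ℂ)) (P' : Ideal (MvPolynomial (Fin (M + 1)) ℂ)) (p : PN M → PN N) : Prop where
  /-- `p` maps `X'` to `X` -/
  maps : ∀ y ∈ projVar P', p y ∈ projVar P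
  /-- `p` is surjective -/
  surj : ∀ x ∈ projVar P, ∃ y ∈ projVar P', p y = x
  /-- near every point of `X'` the map `p` is given by forms of the same degree -/
  regular : ∀ y ∈ projVar P', ∃ (D : ℕ) (γ : Fin (N + 1) → MvPolynomial (Fin (M + 1)) ℂ), (∀ i, (γ i).IsHomogeneous D) ∧
    (∃ i, eval y.rep (γ i) ≠ 0) ∧ ∀ y' ∈ projVar P', ∀ h : (fun i => eval y'.rep (γ i)) ≠ 0, p y' = Projectivization.mk ℂ (fun i => eval y'.rep (γ i)) h
  /-- `p` is locally injective -/
  locInj : ∀ (y : Fin (M + 1) → ℂ) (hy : y ≠ 0), Projectivization.mk ℂ y hy ∈ projVar P' → ∀ᶠ q in 𝓝 (y, y), ∀ (h : q.1 ≠ 0) (h' : q.2 ≠ 0),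
    Projectivization.mk ℂ q.1 h ∈ projVar P' → Projectivization.mk ℂ q.2 h' ∈ projVar P' →
      p (Projectivization.mk ℂ q.1 h) = p (Projectivization.mk ℂ q.2 h') → Projectivization.mk ℂ q.1 h = Projectivization.mk ℂ q.2 h'
  /-- local holomorphic sections -/
  locSec : ∀ (y : Fin (M + 1) → ℂ) (hy : y ≠ 0), Projectivization.mk ℂ y hy ∈ projVar P' →
    ∃ (x : Fin (N + 1) → ℂ) (hx : x ≠ 0) (τ : (Fin (N + 1) → ℂ) → Fin (M + 1) → ℂ), p (Projectivization.mk ℂ y hy) = Projectivization.mk ℂ x hx ∧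
      AnalyticAt ℂ τ x ∧ τ x = y ∧ ∀ᶠ x' in 𝓝 x, ∀ h : x' ≠ 0, Projectivization.mk ℂ x' h ∈ projVar P →
        ∃ h' : τ x' ≠ 0, Projectivization.mk ℂ (τ x') h' ∈ projVar P' ∧ p (Projectivization.mk ℂ (τ x') h') = Projectivization.mk ℂ x' h

end Pool.Agent.H23.GU

end
end

section

/-!
# AD T Defs: symmetric differentials and holomorphic maps to complex tori, in any dimension
-/

set_option autoImplicit false

open Topology Filter

namespace Pool.Agent.AD

open Pool.Agent.H36.BP (EN)
open Pool.Agent.H14.PP (Tan)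
open Pool.Agent.H17 (PN)

variable {N : ℕ}

/-- A symmetric differential of degree `m` on the projective manifold whose cone is `X`: a function on the tangent bundle (in the language
of the cone), homogeneous of degree `m` on the tangent spaces, which is holomorphic on the tangent bundle of `ℂ^k` for every holomorphic
map from an open subset of `ℂ^k` to the manifold, for all `k`. -/
structure SymDiff (X : Set (EN N)) (m : ℕ) where
  /-- the differential -/
  toFun : EN N → EN N → ℂ
  add_smul : ∀ x v, Tan X x v → ∀ a : ℂ, toFun x (v + a • x) = toFun x v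
  smul : ∀ x v, Tan X x v → ∀ a : ℂ, toFun x (a • v) = a ^ m * toFun x v
  scale : ∀ x v, Tan X x v → ∀ c : ℂ, c ≠ 0 → toFun (c • x) (c • v) = toFun x v
  analytic : ∀ (k : ℕ) (φ : (Fin k → ℂ) → EN N) (p w : Fin k → ℂ), AnalyticAt ℂ φ p → (∀ᶠ y in 𝓝 p, φ y ∈ X) →
    AnalyticAt ℂ (fun y : (Fin k → ℂ) × (Fin k → ℂ) => toFun (φ y.1) (fderiv ℂ φ y.1 y.2)) (p, w)

/-- `u` is a holomorphic map from the closed subset `X` of `ℙ^N` to `ℂ^g / Λ`: near every point it is given by `g` holomorphic functions of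
the homogeneous coordinates. -/
def IsHolomorphicTorusMap {g : ℕ} (X : Set (PN N)) (Λ : AddSubgroup (Fin g → ℂ)) (u : PN N → (Fin g → ℂ) ⧸ Λ) : Prop :=
  ∀ (x : Fin (N + 1) → ℂ) (hx : x ≠ 0), Projectivization.mk ℂ x hx ∈ X → ∃ v : (Fin (N + 1) → ℂ) → (Fin g → ℂ), AnalyticAt ℂ v x ∧
    ∀ᶠ y in 𝓝 x, ∀ hy : y ≠ 0, Projectivization.mk ℂ y hy ∈ X → u (Projectivization.mk ℂ y hy) = (v y : (Fin g → ℂ) ⧸ Λ)

end Pool.Agent.AD

end
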