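import Pool.Agent.H94.G4T.M27
import Pool.Agent.H94.G4T.M28

/-! The parts of this file: H17LG.Variety, H62.FC.Defs, H22.TB.Defs. -/

section

/-!
# Varieties of log general type, in terms of their function field

The definitions of `Pool.Agent.H17GT.Defs` and `Pool.Agent.H17LG.Defs` in terms of the definitions of
`Pool.Agent.H23.Fano` (rational forms `Form K k`, regular forms, prime divisors).
-/

open MvPolynomial
open Pool.Agent.H23.Fano (Form regularForms PrimeDivisorOver)
open Pool.Agent.H17GT (coordFun functionField)

noncomputable section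

namespace Pool.Agent.H17LG.Variety

section FunctionField

variable {K : Type} [Field K] [Algebra ℂ K] {k : ℕ}

/-- Let `K` be the function field of a variety of dimension `k`, let `ω` be a rational `k`-form and
`f ∈ K`. The rational `m`-canonical form `f ω^m` has a pole of order at most `p` along the prime
divisor `E`: one has `ω = g η` with `η` regular along `E` and `f g ^ m` has a pole of order at
most `p` along `E`. -/
def PoleAtMost (p : ℕ) (E : PrimeDivisorOver K k) (m : ℕ) (f : K) (ω : Form K k) : Prop :=
  ∃ (g : K) (η : Form K k), η ∈ regularForms k E.localRing ∧ ω = g • η ∧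
    0 ≤ E.ord (f * g ^ m) + p

/-- Let `U` be a variety of dimension `k` with function field `K`, and let `B` be the set of the
prime divisors over `K` whose centre lies in the boundary of a compactification of `U`. The variety
`U` is of log general type: for some `m ≥ 1` there are `m`-canonical forms `f₀ ω^m, …, f_r ω^m`,
regular along all prime divisors outside `B`, with poles of order at most `m` along the prime
divisors in `B`, which define a generically finite rational map, that is, `K` is algebraic over
`ℂ(f₁/f₀, …, f_r/f₀)`. -/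
def IsLogGeneralType (B : PrimeDivisorOver K k → Prop) : Prop :=
  ∃ m : ℕ, 1 ≤ m ∧ ∃ ω : Form K k, ω ≠ 0 ∧ ∃ (r : ℕ) (f : Fin (r + 1) → K), f 0 ≠ 0 ∧
    (∀ i E, (¬ B E → PoleAtMost 0 E m (f i) ω) ∧ (B E → PoleAtMost m E m (f i) ω)) ∧
    Algebra.IsAlgebraic (IntermediateField.adjoin ℂ (Set.range fun i => f i / f 0)) K

end FunctionField

section Subvariety

variable {N : ℕ} (P : Ideal (MvPolynomial (Fin (N + 1)) ℂ)) [P.IsPrime]

/-- The function field of the closed subvariety of `ℙ^N` given by `P`. -/
def FunField : Type := functionField P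

instance : Field (FunField P) := (inferInstance : Field (functionField P))

instance : Algebra ℂ (FunField P) := (inferInstance : Algebra ℂ (functionField P))

/-- The function `x_i / x_j` on the subvariety of `ℙ^N` given by `P`. -/
def ratio (i j : Fin (N + 1)) : FunField P :=
  (⟨coordFun P i / coordFun P j, IntermediateField.subset_adjoin _ _ ⟨i, j, rfl⟩⟩ :
    functionField P)

end Subvariety

end Pool.Agent.H17LG.Variety

end
end

section

/-!
# Fermat covers: definitions

Locally closed subsets of `ℙ^N` given by forms and by the condition that some homogeneous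
coordinates are not zero, and the monomial curves `t ↦ (a_i t ^ (n_i))` contained in them.
-/

open MvPolynomial
open Pool.Agent.H17 (PN VanishesAt zeroLocus ZariskiClosedIn)

noncomputable section

namespace Pool.Agent.H62.FC

variable {N : ℕ}

/-- The points of the common zero locus of the forms `A l` with `x i ≠ 0` for `i ∈ O`. -/
def openLocus {κ : Type} (A : κ → MvPolynomial (Fin (N + 1)) ℂ) (O : Finset (Fin (N + 1))) :
    Set (PN N) :=
  {x | x ∈ zeroLocus A ∧ ∀ i ∈ O, x.rep i ≠ 0}

/-- The union of the images of the non-constant maps `t ↦ (a_i t ^ (n_i))`, `t ≠ 0`, into `X`. -/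
def monomialCurves (X : Set (PN N)) : Set (PN N) :=
  {x | ∃ (a : Fin (N + 1) → ℂ) (ha : a ≠ 0) (n : Fin (N + 1) → ℤ),
    x = Projectivization.mk ℂ a ha ∧ (∃ i j, a i ≠ 0 ∧ a j ≠ 0 ∧ n i ≠ n j) ∧
    ∀ (t : ℂ) (h : (fun i => a i * t ^ n i) ≠ 0), t ≠ 0 →
      Projectivization.mk ℂ (fun i => a i * t ^ n i) h ∈ X}

/-- The Zariski closure of `S` in `X`. -/
def closureIn (X S : Set (PN N)) : Set (PN N) :=
  {x | x ∈ X ∧ ∀ (k : ℕ) (Q : MvPolynomial (Fin (N + 1)) ℂ), Q.IsHomogeneous k →
    (∀ y ∈ S, VanishesAt Q y) → VanishesAt Q x}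

/-- The exceptional set of `X`. -/
def excSet (X : Set (PN N)) : Set (PN N) := closureIn X (monomialCurves X)

/-- The ideal `P` is homogeneous. -/
def Homog (P : Ideal (MvPolynomial (Fin (N + 1)) ℂ)) : Prop :=
  ∀ p ∈ P, ∀ n, homogeneousComponent n p ∈ P

end Pool.Agent.H62.FC

end
end

section

/-!
# TB Defs: three of the properties of the Green-Griffiths-Lang conjecture, and (iv) for curves
-/

set_option autoImplicit false

open MvPolynomial

noncomputable section

namespace Pool.Agent.H22.TB

open Pool.Agent.H17 (PN VanishesAt HolomorphicInto puncturedDisc ZariskiClosedIn)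
open Pool.Agent.H17LG.Variety (FunField IsLogGeneralType)
open Pool.Agent.H62.FC (Homog)
open Pool.Agent.H17EF (projVar)

variable {N : ℕ}

/-- Three of the properties of the conjecture for the closed subvariety of `ℙ^N` given by `P`, with the exceptional set `Ξ`: general type, pseudo Picard
hyperbolic, pseudo Brody hyperbolic; and every closed subvariety of dimension one which is not contained in `Ξ` is of general type. -/
structure GGLC (P : Ideal (MvPolynomial (Fin (N + 1)) ℂ)) [P.IsPrime] (Ξ : Set (PN N)) : Prop where
  closed : ZariskiClosedIn (projVar P) Ξ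
  proper : Ξ ≠ projVar P
  generalType : ∀ w, 1 ≤ w → (∃ z : Fin w → FunField P, IsTranscendenceBasis ℂ z) →
    IsLogGeneralType (K := FunField P) (k := w) fun _ => False
  picard : ∀ f : ℂ → PN N, HolomorphicInto f puncturedDisc → (∀ z ∈ puncturedDisc, f z ∈ projVar P) →
    (∃ z ∈ puncturedDisc, f z ∉ Ξ) →
    ∃ g : ℂ → PN N, HolomorphicInto g (Metric.ball 0 1) ∧ ∀ z ∈ puncturedDisc, g z = f z
  brody : ∀ f : ℂ → PN N, HolomorphicInto f Set.univ → (∀ z, f z ∈ projVar P) → (∃ z w, f z ≠ f w) → ∀ z, f z ∈ Ξ
  strongly : ∀ (Q : Ideal (MvPolynomial (Fin (N + 1)) ℂ)) [Q.IsPrime], Homog Q → P ≤ Q → ¬ projVar Q ⊆ Ξ →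
    (∃ z : Fin 1 → FunField Q, IsTranscendenceBasis ℂ z) → IsLogGeneralType (K := FunField Q) (k := 1) fun _ => False

/-- The Zariski closure in `X` of the set `D`. -/
def closureIn (X D : Set (PN N)) : Set (PN N) :=
  {x | x ∈ X ∧ ∀ (Q : MvPolynomial (Fin (N + 1)) ℂ) (e : ℕ), Q.IsHomogeneous e → (∀ y ∈ D, VanishesAt Q y) → VanishesAt Q x}

end Pool.Agent.H22.TB

end
end
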