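import Pool.Agent.H94.G4T.M12

/-! The parts of this file: H13.CV.Defs, H13.CV.Pl. -/

section

/-!
# Project CV (MP_64ff02_ag): entire curves in curves which are not of log general type.  Definitions

`K` is the function field of a curve over `ℂ`.  `Place K` is the type of its places (discrete valuations with value group `ℤ`, trivial on `ℂ`).
`E` lies over `x = 0` means `0 < E.ord x`, `E` lies over `x = ∞` means `E.ord x < 0`.
-/

set_option autoImplicit false

open Pool.Agent.H23.Fano (PrimeDivisorOver Form regularForms)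

noncomputable section

namespace Pool.Agent.H13.CV

/-- the places of the function field `K` of a curve -/
abbrev Place (K : Type) [Field K] [Algebra ℂ K] : Type := PrimeDivisorOver K 1

/-- `K` is the function field of a curve over `ℂ` -/
structure CurveField (K : Type) [Field K] [Algebra ℂ K] : Prop where
  exists_tr : ∃ x : K, Transcendental ℂ x
  fin : ∀ x : K, Transcendental ℂ x → FiniteDimensional (IntermediateField.adjoin ℂ {x}) K

variable {K : Type} [Field K] [Algebra ℂ K]

/-- `L = ℂ(x)` and `x` is transcendental -/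
structure Gen (L : IntermediateField ℂ K) (x : K) : Prop where
  tr : Transcendental ℂ x
  eq : L = IntermediateField.adjoin ℂ {x}

/-- the order as an integer (`0` for the function `0`) -/
def oz (E : Place K) (f : K) : ℤ := (E.ord f).untopD 0

open scoped Classical in
/-- the value of `f` at the place `E` (`0` if `f` has a pole) -/
def res (E : Place K) (f : K) : ℂ := if h : ∃ c : ℂ, 0 < E.ord (f - algebraMap ℂ K c) then h.choose else 0

/-- `f` is regular at the places over `x = 0` -/
def RegLoc (x f : K) : Prop := ∀ E : Place K, 0 < E.ord x → 0 ≤ E.ord f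

/-- `f` is regular at the places where `x` is regular -/
def RegAff (x f : K) : Prop := ∀ E : Place K, 0 ≤ E.ord x → 0 ≤ E.ord f

/-- `w` is a basis over `ℂ[x]` of the ring of the functions which are regular where `x` is regular -/
def AffB {L : IntermediateField ℂ K} (x : K) {n : ℕ} (w : Module.Basis (Fin n) L K) : Prop :=
  ∀ f : K, RegAff x f ↔ ∀ i, ((w.repr f i : L) : K) ∈ Algebra.adjoin ℂ {x}

/-- `w` is a basis over the local ring of `ℂ[x]` at `x = 0` of the ring of the functions which are regular over `x = 0` -/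
def LocB {L : IntermediateField ℂ K} (x : K) {n : ℕ} (w : Module.Basis (Fin n) L K) : Prop :=
  ∀ f : K, RegLoc x f ↔ ∀ i, RegLoc x ((w.repr f i : L) : K)

/-- a Birkhoff basis: `w` is a basis over `ℂ[x]` of the ring of the functions regular where `x` is regular, and `x ^ (-a i) * w i` is a basis over the local ring of `x = ∞` of the
ring of the functions which are regular over `x = ∞` -/
structure Birk {L : IntermediateField ℂ K} (x : K) {n : ℕ} (w : Module.Basis (Fin n) L K) (a : Fin n → ℕ) : Prop where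
  aff : AffB x w
  inf : ∀ f : K, RegLoc x⁻¹ f ↔ ∀ i, RegLoc x⁻¹ (x ^ a i * ((w.repr f i : L) : K))

/-- the functions of order at least `d` at `E` -/
def ordGe (E : Place K) (d : ℤ) : Submodule ℂ K where
  carrier := {f | (d : WithTop ℤ) ≤ E.ord f}
  add_mem' := fun {f g} hf hg => le_trans (le_min hf hg) (E.ord.map_add f g)
  zero_mem' := by
    show (d : WithTop ℤ) ≤ E.ord 0
    rw [E.ord.map_zero]
    exact le_top
  smul_mem' := fun c f hf => by
    show (d : WithTop ℤ) ≤ E.ord (c • f)
    rw [Algebra.smul_def, E.ord.map_mul]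
    calc (d : WithTop ℤ) = 0 + d := (zero_add _).symm
      _ ≤ _ := add_le_add (E.ord_const c) hf

/-- the functions `f` with `f = 0` or `ord_E f ≥ - D E` for all `E` -/
def LD (D : Place K → ℤ) : Submodule ℂ K := ⨅ E, ordGe E (-D E)

/-- the pole divisor of `x` -/
def polar (x : K) (E : Place K) : ℤ := max 0 (-oz E x)

open scoped Classical in
/-- the divisor `k E` -/
def dv (E : Place K) (k : ℤ) (E' : Place K) : ℤ := if E' = E then k else 0

end Pool.Agent.H13.CV

end
end

section

/-!
# CV Pl: the order as an integer (elementary lemmas)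

`E.ord : AddValuation K (WithTop ℤ)`; `E.ord f = ⊤` iff `f = 0` (`AddValuation.top_iff`), `E.ord (f * g) = E.ord f + E.ord g` (`AddValuation.map_mul`), `E.ord_const c : 0 ≤ E.ord (algebraMap ℂ K c)`.
For `c ≠ 0`: `0 ≤ ord c`, `0 ≤ ord c⁻¹` and the sum is `ord 1 = 0`, so `ord c = 0`.  `oz_add_of_lt`: `AddValuation.map_add_eq_of_lt_left` or similar.
`Place.ext'`: the structure `PrimeDivisorOver` has only the data field `ord`; use `cases`, `congr`, `AddValuation.ext`.
-/

set_option autoImplicit false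

open Pool.Agent.H23.Fano (PrimeDivisorOver Form regularForms)

noncomputable section

namespace Pool.Agent.H13.CV

variable {K : Type} [Field K] [Algebra ℂ K] {E E' : Place K} {f g : K}

theorem coe_oz (E : Place K) (hf : f ≠ 0) : ((oz E f : ℤ) : WithTop ℤ) = E.ord f := by
  unfold oz
  have h : E.ord f ≠ ⊤ := (AddValuation.ne_top_iff E.ord).2 hf
  obtain ⟨a, ha⟩ := WithTop.ne_top_iff_exists.1 h
  rw [← ha]
  rfl

theorem le_ord_iff {n : ℤ} : (n : WithTop ℤ) ≤ E.ord f ↔ f = 0 ∨ n ≤ oz E f := by
  by_cases hf : f = 0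
  · constructor
    · intro _
      exact Or.inl hf
    · intro _
      rw [hf, E.ord.map_zero]
      exact le_top
  · rw [← coe_oz E hf, WithTop.coe_le_coe]
    constructor
    · intro h
      exact Or.inr h
    · intro h
      exact h.resolve_left hf

theorem nonneg_iff : 0 ≤ E.ord f ↔ f = 0 ∨ 0 ≤ oz E f := by
  have := le_ord_iff (E := E) (f := f) (n := 0)
  rwa [WithTop.coe_zero] at this

theorem pos_iff : 0 < E.ord f ↔ f = 0 ∨ 0 < oz E f := by
  by_cases hf : f = 0
  · constructor
    · intro _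
      exact Or.inl hf
    · intro _
      rw [hf, E.ord.map_zero]
      exact WithTop.top_pos
  · rw [← coe_oz E hf, ← WithTop.coe_zero, WithTop.coe_lt_coe]
    constructor
    · intro h
      exact Or.inr h
    · intro h
      exact h.resolve_left hf

theorem neg_iff : E.ord f < 0 ↔ oz E f < 0 := by
  by_cases hf : f = 0
  · rw [hf, E.ord.map_zero, show oz E (0 : K) = 0 by unfold oz; rw [E.ord.map_zero]; rfl]
    constructor
    · intro h
      exact absurd h (not_lt.2 le_top)
    · intro h
      exact absurd h (lt_irrefl _)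
  · rw [← coe_oz E hf, ← WithTop.coe_zero, WithTop.coe_lt_coe]

theorem oz_zero (E : Place K) : oz E (0 : K) = 0 := by
  unfold oz
  rw [E.ord.map_zero]
  rfl

theorem oz_one (E : Place K) : oz E (1 : K) = 0 := by
  unfold oz
  rw [E.ord.map_one]
  rfl

theorem oz_mul (E : Place K) (hf : f ≠ 0) (hg : g ≠ 0) : oz E (f * g) = oz E f + oz E g := by
  have h : ((oz E (f * g) : ℤ) : WithTop ℤ) = ((oz E f + oz E g : ℤ) : WithTop ℤ) := by
    rw [coe_oz E (mul_ne_zero hf hg), E.ord.map_mul, WithTop.coe_add, coe_oz E hf, coe_oz E hg]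
  exact_mod_cast h

theorem oz_inv (E : Place K) (f : K) : oz E f⁻¹ = -oz E f := by
  by_cases hf : f = 0
  · rw [hf, inv_zero, oz_zero, neg_zero]
  · have h := oz_mul E hf (inv_ne_zero hf)
    rw [mul_inv_cancel₀ hf, oz_one] at h
    linarith

theorem oz_div (E : Place K) (hf : f ≠ 0) (hg : g ≠ 0) : oz E (f / g) = oz E f - oz E g := by
  rw [div_eq_mul_inv, oz_mul E hf (inv_ne_zero hg), oz_inv]
  ring

theorem oz_pow (E : Place K) (f : K) (n : ℕ) : oz E (f ^ n) = n * oz E f := by
  induction n with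
  | zero => simp [oz_one]
  | succ n ih =>
    by_cases hf : f = 0
    · rw [hf, zero_pow (Nat.succ_ne_zero n), oz_zero, mul_zero]
    · rw [pow_succ, oz_mul E (pow_ne_zero n hf) hf, ih]
      push_cast
      ring

theorem oz_zpow (E : Place K) (f : K) (n : ℤ) : oz E (f ^ n) = n * oz E f := by
  obtain ⟨m, rfl | rfl⟩ := n.eq_nat_or_neg
  · rw [zpow_natCast, oz_pow]
  · rw [zpow_neg, oz_inv, zpow_natCast, oz_pow]
    ring

theorem oz_neg (E : Place K) (f : K) : oz E (-f) = oz E f := by
  unfold oz
  rw [E.ord.map_neg]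

theorem oz_const (E : Place K) (c : ℂ) : oz E (algebraMap ℂ K c) = 0 := by
  by_cases hc : c = 0
  · rw [hc, map_zero, oz_zero]
  · have h0 : algebraMap ℂ K c ≠ 0 := fun h => hc ((map_eq_zero (algebraMap ℂ K)).1 h)
    have h1 := (nonneg_iff.1 (E.ord_const c)).resolve_left h0
    have h2 := E.ord_const c⁻¹
    rw [map_inv₀] at h2
    have h3 := (nonneg_iff.1 h2).resolve_left (inv_ne_zero h0)
    rw [oz_inv] at h3
    linarith

theorem ord_const (E : Place K) {c : ℂ} (hc : c ≠ 0) : E.ord (algebraMap ℂ K c) = 0 := by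
  have h0 : algebraMap ℂ K c ≠ 0 := fun h => hc ((map_eq_zero (algebraMap ℂ K)).1 h)
  rw [← coe_oz E h0, oz_const]
  rfl

theorem const_nonneg (E : Place K) (c : ℂ) : 0 ≤ E.ord (algebraMap ℂ K c) := E.ord_const c

theorem oz_add_of_lt (E : Place K) (hf : f ≠ 0) (hg : g ≠ 0) (h : oz E f < oz E g) : f + g ≠ 0 ∧ oz E (f + g) = oz E f := by
  have h1 : E.ord f < E.ord g := by
    rw [← coe_oz E hf, ← coe_oz E hg]
    exact_mod_cast h
  have h2 := AddValuation.map_add_eq_of_lt_left E.ord h1
  have h3 : f + g ≠ 0 := by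
    intro h0
    rw [h0, E.ord.map_zero] at h2
    exact (AddValuation.ne_top_iff E.ord).2 hf h2.symm
  refine ⟨h3, ?_⟩
  unfold oz
  rw [h2]

theorem ord_inv (E : Place K) (hf : f ≠ 0) : E.ord f⁻¹ = ((-oz E f : ℤ) : WithTop ℤ) := by
  rw [← coe_oz E (inv_ne_zero hf), oz_inv]

theorem inv_pos_iff {x : K} (hx : x ≠ 0) : 0 < E.ord x⁻¹ ↔ E.ord x < 0 := by
  rw [neg_iff, pos_iff, oz_inv]
  constructor
  · intro h
    have := h.resolve_left (inv_ne_zero hx)
    linarith
  · intro h
    right
    linarith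

theorem exists_uni (E : Place K) : ∃ t : K, t ≠ 0 ∧ oz E t = 1 := by
  obtain ⟨t, ht⟩ := E.exists_uniformizer
  have h0 : t ≠ 0 := by
    intro h
    rw [h, E.ord.map_zero] at ht
    exact absurd ht (by decide)
  refine ⟨t, h0, ?_⟩
  unfold oz
  rw [ht]
  rfl

theorem nonneg_add (hf : 0 ≤ E.ord f) (hg : 0 ≤ E.ord g) : 0 ≤ E.ord (f + g) := E.ord.map_le_add hf hg

theorem nonneg_sub (hf : 0 ≤ E.ord f) (hg : 0 ≤ E.ord g) : 0 ≤ E.ord (f - g) := E.ord.map_le_sub hf hg

theorem nonneg_mul (hf : 0 ≤ E.ord f) (hg : 0 ≤ E.ord g) : 0 ≤ E.ord (f * g) := by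
  rw [E.ord.map_mul]
  exact add_nonneg hf hg

theorem nonneg_pow (hf : 0 ≤ E.ord f) (n : ℕ) : 0 ≤ E.ord (f ^ n) := by
  rw [E.ord.map_pow]
  exact nsmul_nonneg hf n

theorem nonneg_sum {ι : Type*} {s : Finset ι} {F : ι → K} (h : ∀ i ∈ s, 0 ≤ E.ord (F i)) : 0 ≤ E.ord (∑ i ∈ s, F i) := E.ord.map_le_sum h

theorem pos_add (hf : 0 < E.ord f) (hg : 0 < E.ord g) : 0 < E.ord (f + g) := E.ord.map_lt_add hf hg

theorem pos_sub (hf : 0 < E.ord f) (hg : 0 < E.ord g) : 0 < E.ord (f - g) := by
  rw [sub_eq_add_neg]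
  refine E.ord.map_lt_add hf ?_
  rw [E.ord.map_neg]
  exact hg

theorem pos_mul (hf : 0 < E.ord f) (hg : 0 ≤ E.ord g) : 0 < E.ord (f * g) := by
  rw [E.ord.map_mul]
  exact add_pos_of_pos_of_nonneg hf hg

theorem nonneg_aeval (hf : 0 ≤ E.ord f) (p : Polynomial ℂ) : 0 ≤ E.ord (Polynomial.aeval f p) := by
  rw [Polynomial.aeval_eq_sum_range]
  refine nonneg_sum fun i _ => ?_
  rw [Algebra.smul_def]
  exact nonneg_mul (E.ord_const _) (nonneg_pow hf i)

/-- a place is determined by its order function -/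
theorem Place.ext' (h : ∀ f, E.ord f = E'.ord f) : E = E' := by
  obtain ⟨o, h1, h2, h3⟩ := E
  obtain ⟨o', h1', h2', h3'⟩ := E'
  have : o = o' := AddValuation.ext h
  subst this
  rfl

/-- an algebraic function is a constant -/
theorem transcendental_of_not_const (h : ∀ c : ℂ, f ≠ algebraMap ℂ K c) : Transcendental ℂ f := by
  intro hf
  have hint : IsIntegral ℂ f := hf.isIntegral
  have hd : (minpoly ℂ f).degree = 1 := IsAlgClosed.degree_eq_one_of_irreducible ℂ (minpoly.irreducible hint)
  obtain ⟨c, hc⟩ := minpoly.mem_range_of_degree_eq_one ℂ f hd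
  exact h c hc.symm

theorem tr_of_pole (h : E.ord f < 0) : Transcendental ℂ f := by
  refine transcendental_of_not_const fun c hc => ?_
  rw [neg_iff, hc, oz_const] at h
  exact lt_irrefl _ h

theorem tr_of_oz_ne (h : oz E f ≠ 0) : Transcendental ℂ f := by
  refine transcendental_of_not_const fun c hc => ?_
  rw [hc, oz_const] at h
  exact h rfl

theorem Gen.sub_const {L : IntermediateField ℂ K} {x : K} (h : Gen L x) (a : ℂ) : Gen L (x - algebraMap ℂ K a) := by
  refine ⟨transcendental_of_not_const fun c hc => ?_, ?_⟩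
  · refine h.tr ?_
    have hx : x = algebraMap ℂ K (c + a) := by
      rw [map_add, ← hc]
      ring
    rw [hx]
    exact isAlgebraic_algebraMap _
  · rw [h.eq]
    apply le_antisymm
    · rw [IntermediateField.adjoin_simple_le_iff]
      have h1 := add_mem (IntermediateField.mem_adjoin_simple_self ℂ (x - algebraMap ℂ K a))
        ((IntermediateField.adjoin ℂ {x - algebraMap ℂ K a}).algebraMap_mem a)
      rwa [sub_add_cancel] at h1
    · rw [IntermediateField.adjoin_simple_le_iff]
      exact sub_mem (IntermediateField.mem_adjoin_simple_self ℂ x) ((IntermediateField.adjoin ℂ {x}).algebraMap_mem a)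

theorem Gen.inv {L : IntermediateField ℂ K} {x : K} (h : Gen L x) : Gen L x⁻¹ := by
  refine ⟨fun ha => h.tr ?_, ?_⟩
  · have := ha.inv
    rwa [inv_inv] at this
  · rw [h.eq]
    apply le_antisymm
    · rw [IntermediateField.adjoin_simple_le_iff]
      have h1 := inv_mem (IntermediateField.mem_adjoin_simple_self ℂ x⁻¹)
      rwa [inv_inv] at h1
    · rw [IntermediateField.adjoin_simple_le_iff]
      exact inv_mem (IntermediateField.mem_adjoin_simple_self ℂ x)

theorem Gen.ne_zero {L : IntermediateField ℂ K} {x : K} (h : Gen L x) : x ≠ 0 := by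
  intro h0
  exact h.tr (h0 ▸ isAlgebraic_zero)

theorem Gen.mem {L : IntermediateField ℂ K} {x : K} (h : Gen L x) : x ∈ L := by
  rw [h.eq]
  exact IntermediateField.mem_adjoin_simple_self ℂ x

end Pool.Agent.H13.CV

end
end
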