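import Pool.Agent.H94.G4T.H62.EF.PrA
import Pool.Agent.H94.G4T.M17

/-! The parts of this file: H62.EL.ChN, H62.EL.Cp, H62.EL.Tw, TG.Y.TbA. -/

section

/-!
# EL ChN: small charts

`exists_small_chart`: the proof of `Pool.Agent.H62.EF.exists_chart_of_germ` (`H62/EF/ChEx.lean`; copy it): there `χ.σ p` is a multiple of
`σ (r • p)` for `‖p‖ < 2`, where `r = R / 2` and `R` is any small radius: take `R < η`.

`exists_small_chart'`: moreover all points of the chart are near `σ 0` in the projective space: `p ↦ pr (σ p)` is continuous at `0`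
(`continuousAt_pr`, `σ 0 ≠ 0`), `pr (a • σ (r • p)) = pr (σ (r • p))` (`pr_smul`).

`exists_nc_chart`: `σ, τ, i, j` from `IsNC`; `u (χ.σ p) = u (a • σ (r p))`, which is `u (σ (r p))` modulo `Λ` (`TorusMap.smul`), which is
`b + (r s)^i (r t)^j = b + r^(i+j) s^i t^j`: `ρ = r^(i+j)`; `‖ρ s^i t^j‖ = ‖(r s)^i (r t)^j‖ < η` for `r` small (continuity at `0`, `i + j > 0`).
-/

set_option autoImplicit false

open Topology Filter Metric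

namespace Pool.Agent.H62.EL

open Pool.Agent.H36.BP (EN wd IsGermChart)
open Pool.Agent.H14.PP (IsCone Chart Tan CurveAt)
open Pool.Agent.H62.EF (Lat MN pr TorusMap Sec)

variable {N : ℕ} {X : Set (EN N)} {Λ : AddSubgroup ℂ} {u : EN N → ℂ}

theorem exists_small_chart (hX : IsCone X) {σ : ℂ × ℂ → EN N} {τ : EN N → ℂ × ℂ} (h : IsGermChart X σ τ) {η : ℝ} (hη : 0 < η) :
    ∃ (χ : Chart X) (r : ℝ), 0 < r ∧ σ 0 ∈ χ.U ∧ χ.q (σ 0) = 0 ∧ ∀ p ∈ ball (0 : ℂ × ℂ) 2, ‖(r : ℂ) • p‖ < η ∧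
      dist (pr (χ.σ p)) (pr (σ 0)) < η ∧ ∃ a : ℂ, a ≠ 0 ∧ χ.σ p = a • σ ((r : ℂ) • p) := by
  have hσ0 : σ 0 ≠ 0 := by
    intro h0
    have h1 := h.σ_mem.self_of_nhds
    rw [h0] at h1
    exact hX.zero_notMem h1
  -- the linear form
  obtain ⟨ℓ, hℓ⟩ : ∃ ℓ : EN N →L[ℂ] ℂ, ℓ (σ 0) = 1 := by
    have hne : inner ℂ (σ 0) (σ 0) ≠ (0 : ℂ) := inner_self_ne_zero.mpr hσ0
    refine ⟨(inner ℂ (σ 0) (σ 0) : ℂ)⁻¹ • innerSL ℂ (σ 0), ?_⟩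
    simp only [_root_.smul_apply, innerSL_apply_apply, smul_eq_mul]
    exact inv_mul_cancel₀ hne
  -- the normalised parametrisation
  have hℓσ : ContinuousAt (fun p => ℓ (σ p)) 0 := ℓ.continuous.continuousAt.comp h.σ_an.continuousAt
  have hℓne : ∀ᶠ p in 𝓝 (0 : ℂ × ℂ), ℓ (σ p) ≠ 0 := hℓσ.eventually_ne (by rw [hℓ]; exact one_ne_zero)
  have hinvσ : ∀ᶠ p in 𝓝 (0 : ℂ × ℂ), τ ((ℓ (σ p))⁻¹ • σ p) = τ (σ p) := by
    have hc : Tendsto (fun p => (σ p, (ℓ (σ p))⁻¹)) (𝓝 (0 : ℂ × ℂ)) (𝓝 (σ 0, (1 : ℂ))) := by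
      have h1 : Tendsto (fun p => (ℓ (σ p))⁻¹) (𝓝 (0 : ℂ × ℂ)) (𝓝 (ℓ (σ 0))⁻¹) := hℓσ.inv₀ (by rw [hℓ]; exact one_ne_zero)
      rw [hℓ, inv_one] at h1
      exact h.σ_an.continuousAt.prodMk_nhds h1
    exact hc.eventually h.inv
  -- the neighbourhood W₀
  have hW : ∀ᶠ y in 𝓝 (σ 0), AnalyticAt ℂ τ y ∧ (y ∈ X → ∃ c : ℂ, c ≠ 0 ∧ y = c • σ (τ y)) := h.τ_an.eventually_analyticAt.and h.right
  obtain ⟨W₀, hW₀s, hW₀o, hW₀m⟩ := _root_.eventually_nhds_iff.mp hW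
  have hσ₁ : Tendsto (fun p => (ℓ (σ p))⁻¹ • σ p) (𝓝 (0 : ℂ × ℂ)) (𝓝 (σ 0)) := by
    have h1 : Tendsto (fun p => (ℓ (σ p))⁻¹) (𝓝 (0 : ℂ × ℂ)) (𝓝 (ℓ (σ 0))⁻¹) := hℓσ.inv₀ (by rw [hℓ]; exact one_ne_zero)
    have h2 := h1.smul h.σ_an.continuousAt
    rwa [hℓ, inv_one, one_smul] at h2
  have hσ₁W : ∀ᶠ p in 𝓝 (0 : ℂ × ℂ), (ℓ (σ p))⁻¹ • σ p ∈ W₀ := hσ₁.eventually (hW₀o.mem_nhds hW₀m)
  have hprσ : ∀ᶠ p in 𝓝 (0 : ℂ × ℂ), dist (pr (σ p)) (pr (σ 0)) < η := by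
    have h1 : ContinuousAt (fun p => pr (σ p)) 0 :=
      ContinuousAt.comp (f := σ) (Pool.Agent.H62.EF.continuousAt_pr hσ0) h.σ_an.continuousAt
    exact h1.eventually (Metric.ball_mem_nhds _ hη)
  obtain ⟨R₀, hR₀, hall₀⟩ := Metric.eventually_nhds_iff_ball.mp
    ((((((h.σ_an.eventually_analyticAt.and h.σ_mem).and h.left).and hℓne).and hinvσ).and hσ₁W).and hprσ)
  obtain ⟨R, hR, hRη, hall, hprb⟩ : ∃ R : ℝ, 0 < R ∧ R ≤ η ∧ (∀ p ∈ ball (0 : ℂ × ℂ) R,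
      (((((AnalyticAt ℂ σ p ∧ σ p ∈ X) ∧ τ (σ p) = p) ∧ ℓ (σ p) ≠ 0) ∧ τ ((ℓ (σ p))⁻¹ • σ p) = τ (σ p)) ∧
        (ℓ (σ p))⁻¹ • σ p ∈ W₀)) ∧ ∀ p ∈ ball (0 : ℂ × ℂ) R, dist (pr (σ p)) (pr (σ 0)) < η :=
    ⟨min R₀ η, lt_min hR₀ hη, min_le_right _ _, fun p hp => (hall₀ p (ball_subset_ball (min_le_left _ _) hp)).1,
      fun p hp => (hall₀ p (ball_subset_ball (min_le_left _ _) hp)).2⟩
  set r : ℝ := R / 2 with hr
  have hr0 : 0 < r := by rw [hr]; positivity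
  have hrC : (r : ℂ) ≠ 0 := by exact_mod_cast hr0.ne'
  have hball : ∀ p ∈ ball (0 : ℂ × ℂ) 2, (r : ℂ) • p ∈ ball (0 : ℂ × ℂ) R := by
    intro p hp
    rw [mem_ball_zero_iff] at hp ⊢
    rw [norm_smul, Complex.norm_real, Real.norm_of_nonneg hr0.le, hr]
    nlinarith
  have hτσ : ∀ p ∈ ball (0 : ℂ × ℂ) R, τ ((ℓ (σ p))⁻¹ • σ p) = p := by
    intro p hp
    rw [(hall p hp).1.2, (hall p hp).1.1.1.2]
  set U : Set (EN N) := {x | ℓ x ≠ 0 ∧ (ℓ x)⁻¹ • x ∈ W₀ ∧ ‖τ ((ℓ x)⁻¹ • x)‖ < R} with hU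
  have hmaps : ∀ x : EN N, ℓ x ≠ 0 → ∀ c : ℂ, c ≠ 0 → (ℓ (c • x))⁻¹ • (c • x) = (ℓ x)⁻¹ • x := by
    intro x hx c hc
    rw [map_smul, smul_eq_mul, smul_smul, mul_inv, mul_comm c⁻¹, mul_assoc, inv_mul_cancel₀ hc, mul_one]
  have han1 : ∀ x : EN N, ℓ x ≠ 0 → AnalyticAt ℂ (fun y : EN N => (ℓ y)⁻¹ • y) x := by
    intro x hx
    exact ((ℓ.analyticAt x).inv hx).smul analyticAt_id
  have hanq : ∀ x ∈ U, AnalyticAt ℂ (fun y : EN N => τ ((ℓ y)⁻¹ • y)) x := by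
    intro x hx
    exact AnalyticAt.fun_comp (hW₀s _ hx.2.1).1 (han1 x hx.1)
  have hUopen : IsOpen U := by
    rw [isOpen_iff_mem_nhds]
    intro x hx
    have h1 : ∀ᶠ y in 𝓝 x, ℓ y ≠ 0 := ℓ.continuous.continuousAt.eventually_ne hx.1
    have h2 : ∀ᶠ y in 𝓝 x, (ℓ y)⁻¹ • y ∈ W₀ := (han1 x hx.1).continuousAt.eventually (hW₀o.mem_nhds hx.2.1)
    have h3 : ∀ᶠ y in 𝓝 x, ‖τ ((ℓ y)⁻¹ • y)‖ < R := (hanq x hx).continuousAt.norm.eventually_lt_const hx.2.2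
    filter_upwards [h1, h2, h3] with y h4 h5 h6
    exact ⟨h4, h5, h6⟩
  let χ : Chart X :=
    { σ := fun p => (ℓ (σ ((r : ℂ) • p)))⁻¹ • σ ((r : ℂ) • p)
      U := U
      q := fun x => (r : ℂ)⁻¹ • τ ((ℓ x)⁻¹ • x)
      isOpen_U := hUopen
      smul_U := by
        rintro x ⟨h1, h2, h3⟩ c hc
        refine ⟨?_, ?_, ?_⟩
        · rw [map_smul, smul_eq_mul]
          exact mul_ne_zero hc h1
        · rw [hmaps x h1 c hc]; exact h2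
        · rw [hmaps x h1 c hc]; exact h3
      σ_an := by
        intro p hp
        have h1 := (hall _ (hball p hp)).1.1.1.1.1
        have h2 : AnalyticAt ℂ (fun p : ℂ × ℂ => σ ((r : ℂ) • p)) p :=
          AnalyticAt.fun_comp h1 (analyticAt_const.fun_smul analyticAt_id)
        have h3 : AnalyticAt ℂ (fun p : ℂ × ℂ => ℓ (σ ((r : ℂ) • p))) p := (ℓ.analyticAt _).fun_comp h2
        exact (h3.inv (hall _ (hball p hp)).1.1.2).smul h2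
      q_an := by
        intro x hx
        exact analyticAt_const.fun_smul (hanq x hx)
      q_smul := by
        rintro x ⟨h1, h2, h3⟩ c hc
        show (r : ℂ)⁻¹ • τ ((ℓ (c • x))⁻¹ • (c • x)) = _
        rw [hmaps x h1 c hc]
      σ_mem := by
        intro p hp
        have hb := hball p hp
        have hh := hall _ hb
        have hne := hh.1.1.2
        have h1 : ℓ ((ℓ (σ ((r : ℂ) • p)))⁻¹ • σ ((r : ℂ) • p)) = 1 := by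
          rw [map_smul, smul_eq_mul, inv_mul_cancel₀ hne]
        have h2 : τ ((ℓ (σ ((r : ℂ) • p)))⁻¹ • σ ((r : ℂ) • p)) = (r : ℂ) • p := hτσ _ hb
        refine ⟨hX.smul_mem _ hh.1.1.1.1.2 _ (inv_ne_zero hne), ⟨?_, ?_, ?_⟩, ?_⟩
        · rw [h1]; exact one_ne_zero
        · rw [h1, inv_one, one_smul]; exact hh.2
        · rw [h1, inv_one, one_smul, h2]
          exact mem_ball_zero_iff.mp hb
        · show (r : ℂ)⁻¹ • τ ((ℓ ((ℓ (σ ((r : ℂ) • p)))⁻¹ • σ ((r : ℂ) • p)))⁻¹ • ((ℓ (σ ((r : ℂ) • p)))⁻¹ • σ ((r : ℂ) • p))) = p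
          rw [h1, inv_one, one_smul, h2, smul_smul, inv_mul_cancel₀ hrC, one_smul]
      surj := by
        rintro x hxX ⟨h1, h2, h3⟩
        have hyX : (ℓ x)⁻¹ • x ∈ X := hX.smul_mem _ hxX _ (inv_ne_zero h1)
        obtain ⟨c, hc0, hc⟩ := (hW₀s _ h2).2 hyX
        have hτb : τ ((ℓ x)⁻¹ • x) ∈ ball (0 : ℂ × ℂ) R := mem_ball_zero_iff.mpr h3
        have hrq : (r : ℂ) • ((r : ℂ)⁻¹ • τ ((ℓ x)⁻¹ • x)) = τ ((ℓ x)⁻¹ • x) := by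
          rw [smul_smul, mul_inv_cancel₀ hrC, one_smul]
        refine ⟨?_, ?_⟩
        · show (r : ℂ)⁻¹ • τ ((ℓ x)⁻¹ • x) ∈ ball (0 : ℂ × ℂ) 2
          rw [mem_ball_zero_iff, norm_smul, norm_inv, Complex.norm_real, Real.norm_of_nonneg hr0.le, inv_mul_lt_iff₀ hr0, hr]
          linarith
        · refine ⟨ℓ x * c * ℓ (σ (τ ((ℓ x)⁻¹ • x))), ?_, ?_⟩
          · exact mul_ne_zero (mul_ne_zero h1 hc0) (hall _ hτb).1.1.2
          · show x = (ℓ x * c * ℓ (σ (τ ((ℓ x)⁻¹ • x)))) •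
              ((ℓ (σ ((r : ℂ) • ((r : ℂ)⁻¹ • τ ((ℓ x)⁻¹ • x)))))⁻¹ • σ ((r : ℂ) • ((r : ℂ)⁻¹ • τ ((ℓ x)⁻¹ • x))))
            rw [hrq, smul_smul, mul_assoc, mul_inv_cancel₀ (hall _ hτb).1.1.2, mul_one, mul_smul, ← hc, smul_smul, mul_inv_cancel₀ h1, one_smul] }
  have h0b : (0 : ℂ × ℂ) ∈ ball (0 : ℂ × ℂ) R := mem_ball_self hR
  have hτ0 : τ (σ 0) = 0 := (hall 0 h0b).1.1.1.2
  refine ⟨χ, r, hr0, ⟨?_, ?_, ?_⟩, ?_, ?_⟩
  · rw [hℓ]; exact one_ne_zero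
  · rw [hℓ, inv_one, one_smul]; exact hW₀m
  · rw [hℓ, inv_one, one_smul, hτ0, norm_zero]; exact hR
  · show (r : ℂ)⁻¹ • τ ((ℓ (σ 0))⁻¹ • σ 0) = 0
    rw [hℓ, inv_one, one_smul, hτ0, smul_zero]
  · intro p hp
    have hb := hball p hp
    have hne := (hall _ hb).1.1.2
    refine ⟨(mem_ball_zero_iff.mp hb).trans_le hRη, ?_, (ℓ (σ ((r : ℂ) • p)))⁻¹, inv_ne_zero hne, rfl⟩
    show dist (pr ((ℓ (σ ((r : ℂ) • p)))⁻¹ • σ ((r : ℂ) • p))) (pr (σ 0)) < η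
    rw [Pool.Agent.H62.EF.pr_smul _ (inv_ne_zero hne)]
    exact hprb _ hb

theorem exists_nc_chart (hX : IsCone X) (hu : TorusMap X Λ u) {x : EN N} {b : ℂ} (h : IsNC X Λ u x b) {η : ℝ} (hη : 0 < η) :
    ∃ (χ : Chart X) (ρ : ℝ) (i j : ℕ), x ∈ χ.U ∧ χ.q x = 0 ∧ Mon Λ u χ b ρ i j ∧
      ∀ p ∈ ball (0 : ℂ × ℂ) 2, dist (pr (χ.σ p)) (pr x) < η ∧ ‖mo b ρ i j p - b‖ < η := by
  obtain ⟨σ, τ, i, j, hg, hσ0, hij, hev⟩ := h
  have hmono : ∀ᶠ p in 𝓝 (0 : ℂ × ℂ), ‖p.1 ^ i * p.2 ^ j‖ < η := by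
    have hc : Continuous fun p : ℂ × ℂ => p.1 ^ i * p.2 ^ j := (continuous_fst.pow i).mul (continuous_snd.pow j)
    have h1 : Tendsto (fun p : ℂ × ℂ => ‖p.1 ^ i * p.2 ^ j‖) (𝓝 0) (𝓝 ‖(0 : ℂ × ℂ).1 ^ i * (0 : ℂ × ℂ).2 ^ j‖) :=
      hc.norm.continuousAt
    have h0 : ‖(0 : ℂ × ℂ).1 ^ i * (0 : ℂ × ℂ).2 ^ j‖ = 0 := by
      rw [norm_eq_zero]
      show (0 : ℂ) ^ i * (0 : ℂ) ^ j = 0
      rw [← pow_add, zero_pow (by omega)]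
    rw [h0] at h1
    exact h1.eventually_lt_const hη
  obtain ⟨η', hη', hall⟩ := Metric.eventually_nhds_iff_ball.mp ((hev.and hmono).and hg.σ_mem)
  obtain ⟨χ, r, hr, hU, hq, hch⟩ := exists_small_chart hX hg (lt_min hη' hη)
  have hrij : (0 : ℝ) < r ^ (i + j) := pow_pos hr _
  have hkey : ∀ p : ℂ × ℂ, ((r ^ (i + j) : ℝ) : ℂ) * (p.1 ^ i * p.2 ^ j) = ((r : ℂ) • p).1 ^ i * ((r : ℂ) • p).2 ^ j := by
    intro p
    have h1 : ((r : ℂ) • p).1 = (r : ℂ) * p.1 := rfl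
    have h2 : ((r : ℂ) • p).2 = (r : ℂ) * p.2 := rfl
    rw [h1, h2]
    push_cast
    ring
  have hb : ∀ p ∈ ball (0 : ℂ × ℂ) 2, (r : ℂ) • p ∈ ball (0 : ℂ × ℂ) η' := fun p hp =>
    mem_ball_zero_iff.mpr ((hch p hp).1.trans_le (min_le_left _ _))
  refine ⟨χ, r ^ (i + j), i, j, hσ0 ▸ hU, hσ0 ▸ hq, ⟨hrij, hij, ?_⟩, ?_⟩
  · intro p hp
    obtain ⟨-, -, a, ha, hap⟩ := hch p hp
    have h1 := hall _ (hb p hp)
    have h2 := hu.smul _ h1.2 a ha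
    rw [hap]
    unfold mo
    rw [hkey p]
    have h3 := Λ.add_mem h2 h1.1.1
    convert h3 using 1
    ring
  · intro p hp
    obtain ⟨-, h1, -⟩ := hch p hp
    refine ⟨?_, ?_⟩
    · rw [← hσ0]
      exact h1.trans_le (min_le_right _ _)
    · unfold mo
      rw [hkey p, add_sub_cancel_left]
      exact (hall _ (hb p hp)).1.2

end Pool.Agent.H62.EL

end

section

/-!
# EL Cp: uniform charts along the limits of the sections (Lebesgue numbers)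

`cap_of_small` (auxiliary, used several times): let `Ψ z₀ ∈ X`, `u (Ψ z₀) - z₀ ∈ Λ`, and `χ, ρ` a straight chart (`Mon Λ u χ z₀ ρ 1 0`) with `Ψ z₀ ∈ χ.U`, `χ.q (Ψ z₀) = 0` and
`‖mo z₀ ρ 1 0 p - z₀‖ < η` on `ball 0 2`, where no nonzero element of `Λ` has norm `< 2η`.  Then `Cap Λ u χ z₀ ρ z₀ (pr (Ψ z₀)) r` for some `r > 0`: by `near_of_pr` (the cone
`{x ∈ χ.U : ‖χ.q x‖ < 1}` is a neighbourhood of `Ψ z₀`) there is `r < η` such that `x ∈ X`, `dist (pr x) (pr (Ψ z₀)) ≤ r` implies `x ∈ χ.U`, `‖χ.q x‖ ≤ 1`; and then for `z ∈ closedBall z₀ r`,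
`u x - z ∈ Λ`: `mo z₀ ρ 1 0 (χ.q x) - z ∈ Λ` (`Mon.lift`, `x = a • χ.σ (χ.q x)`), of norm `< η + r ≤ 2η`, so it is `0`.

`exists_cap_P`: suppose not: for every `n` there are `z_n ∈ Gd B δ'`, `‖z_n‖ ≤ R`, `f_n ∈ Sb` without such a chart for `r = 1/(n+1)`.  Along `𝒰 = hyperfilter ℕ`: `z_n → z ∈ Gd B δ'`,
`f_n → f ∈ Sb` (`sb_exists_lim`), `f_n z_n → f z` (`sb_along`).  Let `Ψ` be a lift of `f` near `z` (`sb_lift`), `η` from `hP z f`, and a straight chart of size `< η` (and small with respect to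
`Λ`) at `Ψ z` (`exists_str_of_lift`); `P χ` holds.  By `cap_of_small` `Cap ... z (f z) r`, so `Cap ... z_n (f_n z_n) (r/2)` as soon as `‖z_n - z‖ ≤ r/2`, `dist (f_n z_n) (f z) ≤ r/2`, and then also
with `1/(n+1) ≤ r/2`: contradiction.

`exists_cap`: `exists_cap_P` with `P = True` and `R` the covering radius of `Λ`; for arbitrary `z₀ ∈ Gd B δ'` choose `l ∈ Λ` with `‖z₀ - l‖ ≤ R` and use the chart for `(z₀ - l, f (· + l))` with `c + l` instead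
of `c`.

`exists_irel`: suppose not: `f_n, g_n ∈ Sb`, `z_n ∈ Gd B δ'`, `dist (f_n z_n) (g_n z_n) ≤ 1/(n+1)`, `α_n` without `v`.  Translate by `Λ`: `z_n` bounded [here the form changes: `α'_n` with
`toFun z = α_n.toFun (z + l_n)` is again a `TForm`; `IRel α'_n ε (z_n - l_n) ..` implies `IRel α_n ε z_n ..` with `c + l_n`.  To avoid this: prove first the statement for the relation without `α`:
`∃ χ c ρ p p', Mon .. ∧ p, p' ∈ ball 0 2 ∧ c + ρ p.1 = z ∧ ... ∧ (∀ θ, dist ..)`, which is invariant under translation, and add a primitive `A` at the end by `exists_prim`].  Limits `z`, `f`, `f_n z_n → f z`,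
`g_n z_n → f z`.  A straight chart `χ` at the lift `Ψ z`, `Cap` of radius `r` at `(z, f z)`: for large `n` the lifts `x_n, x'_n ∈ X` of `f_n z_n`, `g_n z_n` (`sb_mem`; with `u x_n - z_n ∈ Λ`, from `sb_lift`) are in
`χ.U`; `p_n = χ.q x_n`, `p'_n = χ.q x'_n` tend to `0`; `c + ρ (p_n).1 = z_n = c + ρ (p'_n).1`, and `dist (pr (χ.σ (p_n + θ (p'_n - p_n)))) (f_n z_n) ≤ ε` for large `n` by continuity at `0`: contradiction.
-/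

set_option autoImplicit false

open Topology Filter Metric

namespace Pool.Agent.H62.EL

open Pool.Agent.H36.BP (EN wd IsGermChart)
open Pool.Agent.H14.PP (IsCone Chart Tan CurveAt)
open Pool.Agent.H62.EF (Lat MN pr TorusMap Sec Charts)

variable {N : ℕ} {X : Set (EN N)} {Λ : AddSubgroup ℂ} {u : EN N → ℂ}

variable {Γ : AddSubgroup ℂ} {B : Set ℂ} {δ : ℝ}

private lemma cp_q_small (hX : IsCone X) {χ : Chart X} {x₀ : EN N} (hx₀ : x₀ ∈ X) (hU : x₀ ∈ χ.U) (hq : χ.q x₀ = 0)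
    {s : ℝ} (hs : 0 < s) : ∃ d : ℝ, 0 < d ∧ ∀ x ∈ X, dist (pr x) (pr x₀) < d → x ∈ χ.U ∧ ‖χ.q x‖ < s := by
  have hx0 : x₀ ≠ 0 := fun h => hX.zero_notMem (h ▸ hx₀)
  have hV : {x | x ∈ χ.U ∧ ‖χ.q x‖ < s} ∈ 𝓝 x₀ := by
    have h1 : ∀ᶠ x in 𝓝 x₀, x ∈ χ.U := χ.isOpen_U.mem_nhds hU
    have h2 : ∀ᶠ x in 𝓝 x₀, ‖χ.q x‖ < s := by
      have hc : ContinuousAt (fun x => ‖χ.q x‖) x₀ := (χ.q_an x₀ hU).continuousAt.norm
      have h3 : (fun x => ‖χ.q x‖) x₀ < s := by simpa [hq] using hs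
      exact hc.tendsto.eventually_lt_const h3
    exact h1.and h2
  obtain ⟨d, hd, h⟩ := Pool.Agent.H62.EF.near_of_pr hx0 hV
  refine ⟨d, hd, fun x hx hxd => ?_⟩
  obtain ⟨c, hc, hcU, hcq⟩ := h x (fun h0 => hX.zero_notMem (h0 ▸ hx)) hxd
  have e : x = c⁻¹ • (c • x) := by rw [smul_smul, inv_mul_cancel₀ hc, one_smul]
  have hxU : x ∈ χ.U := by rw [e]; exact χ.smul_U _ hcU _ (inv_ne_zero hc)
  refine ⟨hxU, ?_⟩
  rw [← χ.q_smul x hxU c hc]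
  exact hcq

private lemma cp_mo (b : ℂ) (ρ : ℝ) (p : ℂ × ℂ) : mo b ρ 1 0 p = b + ρ * p.1 := by
  simp [mo]

theorem cap_of_small (hX : IsCone X) (hu : TorusMap X Λ u) {x₀ : EN N} (hx₀ : x₀ ∈ X) {z₀ : ℂ} (hz₀ : u x₀ - z₀ ∈ Λ)
    {χ : Chart X} {ρ η : ℝ} (hm : Mon Λ u χ z₀ ρ 1 0) (hU : x₀ ∈ χ.U) (hq : χ.q x₀ = 0) (hinj : ∀ l ∈ Λ, ‖l‖ < 2 * η → l = 0)
    (hr : ∀ p ∈ ball (0 : ℂ × ℂ) 2, ‖mo z₀ ρ 1 0 p - z₀‖ < η) : ∃ r : ℝ, 0 < r ∧ Cap Λ u χ z₀ ρ z₀ (pr x₀) r := by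
  obtain ⟨d, hd, h⟩ := cp_q_small hX hx₀ hU hq (zero_lt_one' ℝ)
  have hη : 0 < η := lt_of_le_of_lt (norm_nonneg _) (hr 0 (mem_ball_self two_pos))
  have hr0 : 0 < min (d / 2) (η / 2) := lt_min (by linarith) (by linarith)
  refine ⟨min (d / 2) (η / 2), hr0, hm, fun z hz x hx hxz hxd => ?_⟩
  have h1 : min (d / 2) (η / 2) ≤ d / 2 := min_le_left _ _
  have h2 : min (d / 2) (η / 2) ≤ η / 2 := min_le_right _ _
  obtain ⟨hxU, hxq⟩ := h x hx (by linarith)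
  refine ⟨hxU, ?_, ?_⟩
  · rw [mem_closedBall, dist_zero_right]
    exact hxq.le
  · obtain ⟨hb, c, hc, e⟩ := χ.surj x hx hxU
    have h3 : u x - u (χ.σ (χ.q x)) ∈ Λ := by
      have h3' := hu.smul _ (χ.σ_mem _ hb).1 c hc
      rw [← e] at h3'
      exact h3'
    have h4 := hm.lift _ hb
    have h5 : mo z₀ ρ 1 0 (χ.q x) - z ∈ Λ := by
      have h6 := Λ.sub_mem (Λ.sub_mem hxz h3) h4
      have e2 : mo z₀ ρ 1 0 (χ.q x) - z =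
          u x - z - (u x - u (χ.σ (χ.q x))) - (u (χ.σ (χ.q x)) - mo z₀ ρ 1 0 (χ.q x)) := by ring
      rw [e2]
      exact h6
    have h7 : ‖mo z₀ ρ 1 0 (χ.q x) - z‖ < 2 * η := by
      have e3 : mo z₀ ρ 1 0 (χ.q x) - z = (mo z₀ ρ 1 0 (χ.q x) - z₀) - (z - z₀) := by ring
      have h8 := norm_sub_le (mo z₀ ρ 1 0 (χ.q x) - z₀) (z - z₀)
      have h9 := hr _ hb
      rw [mem_closedBall, dist_eq_norm] at hz
      rw [e3]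
      linarith
    have h10 := hinj _ h5 h7
    rw [cp_mo] at h10
    exact sub_eq_zero.1 h10

end Pool.Agent.H62.EL

end

section

/-!
# EL Tw: the differences of the primitives do not depend on the witness chart

Fix `p ∈ ball 0 r` and consider the curve `γ ξ = χ''.σ (ξ • p)`, defined for `ξ` in the open convex set `{ξ : ‖ξ • p‖ < r}` which contains `[0, 1]`.  Let
`Φ ξ = ψ₁' (χ'.q (γ ξ)) - ψ₂' (χ'.q (γ ξ)) - (ψ₁'' (χ''.q (γ ξ)) - ψ₂'' (χ''.q (γ ξ)))`, `χ''.q (γ ξ) = ξ • p`.  By `PsiP.der` (four times; `γ ξ ∈ χ'.U` by `hsub`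
and `γ ξ ∈ χ''.U`) its derivative is `(bt χ₁ - bt χ') - (bt χ₂ - bt χ') - ((bt χ₁ - bt χ'') - (bt χ₂ - bt χ'')) = 0`, so `Φ 1 = Φ 0`.  `Φ 0 = 0`: `ψ₁'' 0 = ψ₂'' 0 = 0`
(`PsiP.zero`, `0 ^ i'' * 0 ^ j'' = 0` as `i'' + j'' > 0`), and the point `q = χ'.q (χ''.σ 0)` satisfies `ρ' q.1^i' q.2^j' = 0`, because `mo b ρ' i' j' q = b`: both
sides are `u (χ''.σ 0)` modulo `Λ` (`mo b ρ'' i'' j'' 0 = b`), and `‖mo b ρ' i' j' q - b‖ < η`, `hinj`; so `ψ₁' q = ψ₂' q = 0`.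
[`χ''.σ 0 = c • χ'.σ q` by `Chart.surj`, `TorusMap.smul`.]
-/

set_option autoImplicit false

open Topology Filter Metric

namespace Pool.Agent.H62.EL

open Pool.Agent.H36.BP (EN wd IsGermChart)
open Pool.Agent.H14.PP (IsCone Chart Tan CurveAt)
open Pool.Agent.H62.EF (Lat MN pr TorusMap Sec Charts)

variable {N : ℕ} {X : Set (EN N)} {Λ : AddSubgroup ℂ} {u : EN N → ℂ}

theorem two_witness (hX : IsCone X) (hu : TorusMap X Λ u) {b : ℂ} {η : ℝ} (hinj : ∀ l ∈ Λ, ‖l‖ < 2 * η → l = 0)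
    {χ₁ χ₂ χ' χ'' : Chart X} {A₁ A₂ A' A'' : ℂ × ℂ → ℂ} {ρ' ρ'' : ℝ} {i' j' i'' j'' : ℕ} (hm' : Mon Λ u χ' b ρ' i' j')
    (hm'' : Mon Λ u χ'' b ρ'' i'' j'') (hr' : ∀ p ∈ ball (0 : ℂ × ℂ) 2, ‖mo b ρ' i' j' p - b‖ < η)
    {ψ₁' ψ₂' ψ₁'' ψ₂'' : ℂ × ℂ → ℂ} (h₁' : PsiP χ₁ A₁ χ' A' i' j' ψ₁') (h₂' : PsiP χ₂ A₂ χ' A' i' j' ψ₂')
    (h₁'' : PsiP χ₁ A₁ χ'' A'' i'' j'' ψ₁'') (h₂'' : PsiP χ₂ A₂ χ'' A'' i'' j'' ψ₂'') {r : ℝ} (hr0 : 0 < r) (hr : r ≤ 2)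
    (hsub : ∀ p ∈ ball (0 : ℂ × ℂ) r, χ''.σ p ∈ χ'.U) : ∀ p ∈ ball (0 : ℂ × ℂ) r,
      ψ₁' (χ'.q (χ''.σ p)) - ψ₂' (χ'.q (χ''.σ p)) = ψ₁'' p - ψ₂'' p := by
  have hball : ∀ y ∈ ball (0 : ℂ × ℂ) r, y ∈ ball (0 : ℂ × ℂ) 2 := fun y hy => ball_subset_ball hr hy
  have h0r : (0 : ℂ × ℂ) ∈ ball (0 : ℂ × ℂ) r := mem_ball_self hr0
  -- the value at the centre
  have hmo0 : mo b ρ'' i'' j'' 0 = b := by
    have h1 : (0 : ℂ) ^ i'' * (0 : ℂ) ^ j'' = 0 := by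
      rw [← pow_add]
      exact zero_pow hm''.ij.ne'
    show b + (ρ'' : ℂ) * ((0 : ℂ) ^ i'' * (0 : ℂ) ^ j'') = b
    rw [h1, mul_zero, add_zero]
  have hz'' : (0 : ℂ × ℂ).1 ^ i'' * (0 : ℂ × ℂ).2 ^ j'' = 0 := by
    show (0 : ℂ) ^ i'' * (0 : ℂ) ^ j'' = 0
    rw [← pow_add]
    exact zero_pow hm''.ij.ne'
  obtain ⟨hX0, -, hq0⟩ := χ''.σ_mem 0 (hball 0 h0r)
  have hU0 : χ''.σ 0 ∈ χ'.U := hsub 0 h0r
  obtain ⟨hq2, c, hc, hceq⟩ := χ'.surj (χ''.σ 0) hX0 hU0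
  set q : ℂ × ℂ := χ'.q (χ''.σ 0) with hq
  have hqz : q.1 ^ i' * q.2 ^ j' = 0 := by
    have h1 : u (χ''.σ 0) - mo b ρ'' i'' j'' 0 ∈ Λ := hm''.lift 0 (hball 0 h0r)
    have h2 : u (c • χ'.σ q) - u (χ'.σ q) ∈ Λ := hu.smul _ (χ'.σ_mem q hq2).1 c hc
    have h3 : u (χ'.σ q) - mo b ρ' i' j' q ∈ Λ := hm'.lift q hq2
    rw [hmo0] at h1
    rw [← hceq] at h2
    have h4 : mo b ρ' i' j' q - b ∈ Λ := by
      have h5 : mo b ρ' i' j' q - b = (u (χ''.σ 0) - b) - (u (χ''.σ 0) - u (χ'.σ q)) - (u (χ'.σ q) - mo b ρ' i' j' q) := by ring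
      rw [h5]
      exact Λ.sub_mem (Λ.sub_mem h1 h2) h3
    have h6 := hr' q hq2
    have h7 : mo b ρ' i' j' q - b = 0 := by
      refine hinj _ h4 ?_
      have h8 := norm_nonneg (mo b ρ' i' j' q - b)
      linarith
    have h9 : (ρ' : ℂ) * (q.1 ^ i' * q.2 ^ j') = 0 := by
      have h10 : mo b ρ' i' j' q - b = (ρ' : ℂ) * (q.1 ^ i' * q.2 ^ j') := by
        unfold mo
        ring
      rw [← h10, h7]
    exact (mul_eq_zero.mp h9).resolve_left (by exact_mod_cast hm'.pos.ne')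
  intro p hp
  -- the curve
  set γ : ℂ → EN N := fun ξ => χ''.σ (ξ • p) with hγ
  set D : Set ℂ := {ξ | ξ • p ∈ ball (0 : ℂ × ℂ) r} with hD
  have hDopen : IsOpen D := isOpen_ball.preimage (continuous_id.smul continuous_const)
  have hDconv : Convex ℝ D := by
    intro x hx y hy a a' ha ha' haa
    have hx' : x • p ∈ ball (0 : ℂ × ℂ) r := hx
    have hy' : y • p ∈ ball (0 : ℂ × ℂ) r := hy
    have h1 := convex_ball (0 : ℂ × ℂ) r hx' hy' ha ha' haa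
    show (a • x + a' • y) • p ∈ ball (0 : ℂ × ℂ) r
    rwa [add_smul, smul_assoc, smul_assoc]
  have h0D : (0 : ℂ) ∈ D := by
    show (0 : ℂ) • p ∈ ball (0 : ℂ × ℂ) r
    rw [zero_smul]
    exact h0r
  have h1D : (1 : ℂ) ∈ D := by
    show (1 : ℂ) • p ∈ ball (0 : ℂ × ℂ) r
    rw [one_smul]
    exact hp
  have hcurve : ∀ ξ ∈ D, CurveAt X γ ξ := by
    intro ξ hξ
    refine ⟨?_, ?_⟩
    · exact AnalyticAt.fun_comp (χ''.σ_an (ξ • p) (hball _ hξ)) (analyticAt_id.fun_smul analyticAt_const)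
    · filter_upwards [hDopen.mem_nhds hξ] with y hy
      exact (χ''.σ_mem (y • p) (hball _ hy)).1
  have hU'' : ∀ ξ ∈ D, γ ξ ∈ χ''.U := fun ξ hξ => (χ''.σ_mem (ξ • p) (hball _ hξ)).2.1
  have hU' : ∀ ξ ∈ D, γ ξ ∈ χ'.U := fun ξ hξ => hsub (ξ • p) hξ
  have hqq : ∀ ξ ∈ D, χ''.q (γ ξ) = ξ • p := fun ξ hξ => (χ''.σ_mem (ξ • p) (hball _ hξ)).2.2
  set Φ : ℂ → ℂ := fun ξ => ψ₁' (χ'.q (γ ξ)) - ψ₂' (χ'.q (γ ξ)) - (ψ₁'' (χ''.q (γ ξ)) - ψ₂'' (χ''.q (γ ξ))) with hΦ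
  have hder : ∀ ξ ∈ D, HasDerivAt Φ 0 ξ := by
    intro ξ hξ
    have h1 := h₁'.der γ ξ (hcurve ξ hξ) (hU' ξ hξ)
    have h2 := h₂'.der γ ξ (hcurve ξ hξ) (hU' ξ hξ)
    have h3 := h₁''.der γ ξ (hcurve ξ hξ) (hU'' ξ hξ)
    have h4 := h₂''.der γ ξ (hcurve ξ hξ) (hU'' ξ hξ)
    have h5 := (h1.sub h2).sub (h3.sub h4)
    have h6 : bt χ₁ A₁ γ ξ - bt χ' A' γ ξ - (bt χ₂ A₂ γ ξ - bt χ' A' γ ξ) -
        (bt χ₁ A₁ γ ξ - bt χ'' A'' γ ξ - (bt χ₂ A₂ γ ξ - bt χ'' A'' γ ξ)) = 0 := by ring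
    rw [h6] at h5
    exact h5
  have hconst : Φ 1 = Φ 0 := by
    refine hDopen.is_const_of_deriv_eq_zero hDconv.isPreconnected
      (fun ξ hξ => (hder ξ hξ).differentiableAt.differentiableWithinAt) ?_ h1D h0D
    intro ξ hξ
    exact (hder ξ hξ).deriv
  have hΦ0 : Φ 0 = 0 := by
    have h1 : γ 0 = χ''.σ 0 := by
      show χ''.σ ((0 : ℂ) • p) = χ''.σ 0
      rw [zero_smul]
    show ψ₁' (χ'.q (γ 0)) - ψ₂' (χ'.q (γ 0)) - (ψ₁'' (χ''.q (γ 0)) - ψ₂'' (χ''.q (γ 0))) = 0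
    rw [h1, hq0, ← hq, h₁'.zero q hq2 hqz, h₂'.zero q hq2 hqz, h₁''.zero 0 (hball 0 h0r) hz'', h₂''.zero 0 (hball 0 h0r) hz'']
    ring
  have hΦ1 : Φ 1 = ψ₁' (χ'.q (χ''.σ p)) - ψ₂' (χ'.q (χ''.σ p)) - (ψ₁'' p - ψ₂'' p) := by
    have h1 : γ 1 = χ''.σ p := by
      show χ''.σ ((1 : ℂ) • p) = χ''.σ p
      rw [one_smul]
    have h2 : χ''.q (γ 1) = p := by
      rw [hqq 1 h1D, one_smul]
    show ψ₁' (χ'.q (γ 1)) - ψ₂' (χ'.q (γ 1)) - (ψ₁'' (χ''.q (γ 1)) - ψ₂'' (χ''.q (γ 1))) = _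
    rw [h2, h1]
  rw [hΦ0, hΦ1] at hconst
  exact sub_eq_zero.mp hconst

end Pool.Agent.H62.EL

end

section

/-!
# TG Y TbA: `EL/TbA` with weaker hypotheses
-/

set_option autoImplicit false

open Topology Filter Metric

namespace Pool.Agent.TGY

open Pool.Agent.H36.BP (EN wd IsGermChart)
open Pool.Agent.H14.PP (IsCone Chart Tan CurveAt)
open Pool.Agent.H62.EF (Lat MN pr TorusMap Charts)
open Pool.Agent.H62.EL

variable {N : ℕ} {X : Set (EN N)} {Λ : AddSubgroup ℂ} {u : EN N → ℂ}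

private theorem isClosed_lat (hΛ : Lat Λ) : IsClosed (Λ : Set ℂ) := by
  obtain ⟨δ, hδ, h⟩ := hΛ.discrete
  refine Metric.isClosed_of_pairwise_le_dist hδ ?_
  intro x hx y hy hxy
  by_contra hlt
  push Not at hlt
  rw [dist_eq_norm] at hlt
  exact hxy (sub_eq_zero.mp (h _ (Λ.sub_mem hx hy) hlt))

private theorem lim_mem (hΛ : Lat Λ) (hu : TorusMap X Λ u) {l : Filter ℕ} [l.NeBot] {y : ℕ → EN N} {z : ℕ → ℂ} {x : EN N} {b : ℂ}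
    (hx : x ∈ X) (hy : Tendsto y l (𝓝 x)) (hz : Tendsto z l (𝓝 b)) (h : ∀ᶠ i in l, y i ∈ X ∧ u (y i) - z i ∈ Λ) : u x - b ∈ Λ := by
  obtain ⟨v, hv, hv'⟩ := hu.loc x hx
  have h1 : Tendsto (fun i => v (y i) - z i) l (𝓝 (v x - b)) := (hv.continuousAt.tendsto.comp hy).sub hz
  have h2 : ∀ᶠ i in l, v (y i) - z i ∈ (Λ : Set ℂ) := by
    filter_upwards [h, hy.eventually hv'] with i hi hi'
    have h3 : v (y i) - z i = u (y i) - z i - (u (y i) - v (y i)) := by ring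
    rw [h3]
    exact Λ.sub_mem hi.2 (hi' hi.1)
  have h4 : v x - b ∈ Λ := (isClosed_lat hΛ).mem_of_tendsto h1 h2
  have h5 := hv'.self_of_nhds hx
  have h6 : u x - b = (u x - v x) + (v x - b) := by ring
  rw [h6]
  exact Λ.add_mem h5 h4

private theorem compact_unit (hX : IsCone X) : IsCompact (X ∩ sphere (0 : EN N) 1) := by
  have h1 : X ∩ sphere (0 : EN N) 1 = (insert 0 X) ∩ sphere (0 : EN N) 1 := by
    ext x
    constructor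
    · rintro ⟨hx, hs⟩
      exact ⟨Set.mem_insert_of_mem _ hx, hs⟩
    · rintro ⟨hx, hs⟩
      refine ⟨?_, hs⟩
      rcases hx with rfl | hx
      · simp at hs
      · exact hx
  rw [h1]
  exact (isCompact_sphere (0 : EN N) 1).inter_left hX.closed

private theorem ne_zero (hX : IsCone X) {x : EN N} (hx : x ∈ X) : x ≠ 0 := fun h => hX.zero_notMem (h ▸ hx)

private theorem exists_unit (hX : IsCone X) {x : EN N} (hx : x ∈ X) : ∃ c : ℂ, c ≠ 0 ∧ c • x ∈ X ∩ sphere (0 : EN N) 1 := by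
  have hn : ‖x‖ ≠ 0 := norm_ne_zero_iff.mpr (ne_zero hX hx)
  have hc : (((‖x‖⁻¹ : ℝ)) : ℂ) ≠ 0 := by
    exact_mod_cast inv_ne_zero hn
  refine ⟨(((‖x‖⁻¹ : ℝ)) : ℂ), hc, hX.smul_mem x hx _ hc, ?_⟩
  rw [mem_sphere_zero_iff_norm, norm_smul, Complex.norm_real, norm_inv, norm_norm]
  exact inv_mul_cancel₀ hn

private theorem smul_mem_lat (hu : TorusMap X Λ u) {x : EN N} (hx : x ∈ X) {z : ℂ} (h : u x - z ∈ Λ) {c : ℂ} (hc : c ≠ 0) :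
    u (c • x) - z ∈ Λ := by
  have h3 : u (c • x) - z = u (c • x) - u x + (u x - z) := by ring
  rw [h3]
  exact Λ.add_mem (hu.smul x hx c hc) h

/-- a property which holds near the fibre over `b` holds over a ball -/
private theorem exists_rad (hX : IsCone X) (hΛ : Lat Λ) (hu : TorusMap X Λ u) {b : ℂ} (P : EN N → Prop)
    (hP : ∀ x ∈ X, P x → ∀ c : ℂ, c ≠ 0 → P (c • x))
    (h : ∀ x ∈ X, u x - b ∈ Λ → ∀ᶠ y in 𝓝 x, y ∈ X → P y) : ∃ s : ℝ, 0 < s ∧ ∀ z ∈ ball b s, ∀ x ∈ X, u x - z ∈ Λ → P x := by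
  by_contra hcon
  push Not at hcon
  have h1 : ∀ n : ℕ, ∃ (y : EN N) (z : ℂ), y ∈ X ∩ sphere (0 : EN N) 1 ∧ z ∈ ball b (1 / ((n : ℝ) + 1)) ∧ u y - z ∈ Λ ∧ ¬ P y := by
    intro n
    obtain ⟨z, hz, x, hx, hxz, hPx⟩ := hcon (1 / ((n : ℝ) + 1)) (by positivity)
    obtain ⟨c, hc, hcx⟩ := exists_unit hX hx
    refine ⟨c • x, z, hcx, hz, smul_mem_lat hu hx hxz hc, ?_⟩
    intro hP'
    have := hP _ hcx.1 hP' c⁻¹ (inv_ne_zero hc)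
    rw [smul_smul, inv_mul_cancel₀ hc, one_smul] at this
    exact hPx this
  choose y z hy hz hyz hPy using h1
  obtain ⟨x, hx, φ, hφ, hlim⟩ := (compact_unit hX).tendsto_subseq hy
  have hzl : Tendsto z atTop (𝓝 b) := by
    rw [tendsto_iff_dist_tendsto_zero]
    exact squeeze_zero (fun _ => dist_nonneg) (fun n => (mem_ball.mp (hz n)).le) tendsto_one_div_add_atTop_nhds_zero_nat
  have hxb : u x - b ∈ Λ := lim_mem hΛ hu hx.1 hlim (hzl.comp hφ.tendsto_atTop) (Eventually.of_forall fun n => ⟨(hy _).1, hyz _⟩)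
  obtain ⟨n, hn⟩ := (hlim.eventually (h x hx.1 hxb)).exists
  exact hPy _ (hn (hy _).1)

private theorem compact_fib (hX : IsCone X) (hΛ : Lat Λ) (hu : TorusMap X Λ u) (b : ℂ) :
    IsCompact {x : EN N | x ∈ X ∩ sphere (0 : EN N) 1 ∧ u x - b ∈ Λ} := by
  refine IsSeqCompact.isCompact ?_
  intro y hy
  obtain ⟨x, hx, φ, hφ, hlim⟩ := (compact_unit hX).tendsto_subseq (fun n => (hy n).1)
  exact ⟨x, ⟨hx, lim_mem hΛ hu hx.1 hlim tendsto_const_nhds (Eventually.of_forall fun n => ⟨(hy _).1.1, (hy _).2⟩)⟩, φ, hφ, hlim⟩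

private theorem exists_R (hX : IsCone X) (χ : Chart X) {x : EN N} (hx : x ∈ X) (hxU : x ∈ χ.U) :
    ∃ R : ℝ, 0 < R ∧ ∀ w ∈ X, dist (pr w) (pr x) < R → w ∈ χ.U := by
  obtain ⟨R, hR, h⟩ := Pool.Agent.H62.EF.near_of_pr (ne_zero hX hx) (χ.isOpen_U.mem_nhds hxU)
  refine ⟨R, hR, fun w hw hd => ?_⟩
  obtain ⟨c, hc, hcw⟩ := h w (ne_zero hX hw) hd
  have := χ.smul_U _ hcw c⁻¹ (inv_ne_zero hc)
  rwa [smul_smul, inv_mul_cancel₀ hc, one_smul] at this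

private theorem exists_r (hX : IsCone X) (χ : Chart X) {x : EN N} (hx : x ∈ X) (hxU : x ∈ χ.U) (hq : χ.q x = 0) {ε : ℝ} (hε : 0 < ε) :
    ∃ r : ℝ, 0 < r ∧ r ≤ 2 ∧ ∀ p ∈ ball (0 : ℂ × ℂ) r, dist (pr (χ.σ p)) (pr x) < ε := by
  have h0 : (0 : ℂ × ℂ) ∈ ball (0 : ℂ × ℂ) 2 := mem_ball_self two_pos
  obtain ⟨c, hc, hxc⟩ := (χ.surj x hx hxU).2
  rw [hq] at hxc
  have h1 : pr x = pr (χ.σ 0) := by
    conv_lhs => rw [hxc]
    exact Pool.Agent.H62.EF.pr_smul _ hc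
  have hc1 : ContinuousAt (fun p => pr (χ.σ p)) 0 :=
    (Pool.Agent.H62.EF.continuousAt_pr (ne_zero hX (χ.σ_mem 0 h0).1)).comp (χ.σ_an 0 h0).continuousAt
  have h2 : ∀ᶠ p in 𝓝 (0 : ℂ × ℂ), dist (pr (χ.σ p)) (pr x) < ε := by
    rw [h1]
    exact Metric.tendsto_nhds.mp hc1.tendsto ε hε
  obtain ⟨r, hr, h⟩ := Metric.eventually_nhds_iff_ball.mp h2
  exact ⟨min r 2, lt_min hr two_pos, min_le_right _ _, fun p hp => h p (ball_subset_ball (min_le_left _ _) hp)⟩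

theorem exists_tube_geo (hX : IsCone X) (hu : TorusMap X Λ u) (hΛ : Lat Λ) {b : ℂ} (hnc : ∀ x ∈ X, u x - b ∈ Λ → IsNC X Λ u x b) :
    ∃ (T : TubeData X) (s η : ℝ) (𝒲 : Set (Wit X)), TubeG Λ u b s η T ∧ WitG Λ u b s η T 𝒲 := by
  obtain ⟨d, hd, hdΛ⟩ := hΛ.discrete
  set η : ℝ := d / 2 with hη
  have hη0 : 0 < η := by rw [hη]; positivity
  -- the covering charts
  have h1 : ∀ x : {x : EN N // x ∈ X ∧ u x - b ∈ Λ}, ∃ (χ : Chart X) (ρ : ℝ) (i j : ℕ) (R : ℝ), x.1 ∈ χ.U ∧ Mon Λ u χ b ρ i j ∧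
      (∀ p ∈ ball (0 : ℂ × ℂ) 2, ‖mo b ρ i j p - b‖ < η) ∧ 0 < R ∧ ∀ w ∈ X, dist (pr w) (pr x.1) < R → w ∈ χ.U := by
    rintro ⟨x, hx, hxb⟩
    obtain ⟨χ, ρ, i, j, hxU, -, hm, hs⟩ := exists_nc_chart hX hu (hnc x hx hxb) hη0
    obtain ⟨R, hR, hRU⟩ := exists_R hX χ hx hxU
    exact ⟨χ, ρ, i, j, R, hxU, hm, fun p hp => (hs p hp).2, hR, hRU⟩
  choose χ ρ i j R hxU hmon hrange hR hRU using h1
  -- the open cones
  set O : {x : EN N // x ∈ X ∧ u x - b ∈ Λ} → Set (EN N) := fun x => {w | w ≠ 0 ∧ w ∈ (χ x).U ∧ dist (pr w) (pr x.1) < R x / 2} with hO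
  have hOopen : ∀ x, IsOpen (O x) := by
    intro x
    rw [isOpen_iff_mem_nhds]
    rintro w ⟨hw0, hwU, hwd⟩
    have e1 : ∀ᶠ y in 𝓝 w, y ≠ 0 := isOpen_ne.mem_nhds hw0
    have e2 : ∀ᶠ y in 𝓝 w, y ∈ (χ x).U := (χ x).isOpen_U.mem_nhds hwU
    have e3 : ∀ᶠ y in 𝓝 w, dist (pr y) (pr x.1) < R x / 2 :=
      ((Pool.Agent.H62.EF.continuousAt_pr hw0).dist continuousAt_const).eventually (gt_mem_nhds hwd)
    filter_upwards [e1, e2, e3] with y h1 h2 h3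
    exact ⟨h1, h2, h3⟩
  have hOsmul : ∀ x, ∀ w ∈ O x, ∀ c : ℂ, c ≠ 0 → c • w ∈ O x := by
    rintro x w ⟨hw0, hwU, hwd⟩ c hc
    refine ⟨smul_ne_zero hc hw0, (χ x).smul_U w hwU c hc, ?_⟩
    rw [Pool.Agent.H62.EF.pr_smul w hc]
    exact hwd
  obtain ⟨t, ht⟩ := (compact_fib hX hΛ hu b).elim_finite_subcover O hOopen (by
    rintro x ⟨⟨hx, -⟩, hxb⟩
    refine Set.mem_iUnion.mpr ⟨⟨x, hx, hxb⟩, ne_zero hX hx, hxU _, ?_⟩
    rw [dist_self]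
    exact half_pos (hR _))
  have hcov : ∀ x ∈ X, u x - b ∈ Λ → ∃ y ∈ t, x ∈ O y := by
    intro x hx hxb
    obtain ⟨c, hc, hcx⟩ := exists_unit hX hx
    obtain ⟨y, hyt, hy⟩ := Set.mem_iUnion₂.mp (ht ⟨hcx, smul_mem_lat hu hx hxb hc⟩)
    refine ⟨y, hyt, ?_⟩
    have := hOsmul y _ hy c⁻¹ (inv_ne_zero hc)
    rwa [smul_smul, inv_mul_cancel₀ hc, one_smul] at this
  obtain ⟨R₀, hR₀, hR₀t⟩ : ∃ R₀ : ℝ, 0 < R₀ ∧ ∀ x ∈ t, R₀ ≤ R x := by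
    have e1 : ∀ᶠ r in 𝓝[>] (0 : ℝ), ∀ x ∈ t, r ≤ R x :=
      (Finset.eventually_all t).mpr fun x _ => mem_nhdsWithin_of_mem_nhds (ge_mem_nhds (hR x))
    obtain ⟨r, hr, hr'⟩ := (e1.and self_mem_nhdsWithin).exists
    exact ⟨r, hr', hr⟩
  -- the witnesses
  have h2 : ∀ x : {x : EN N // x ∈ X ∧ u x - b ∈ Λ}, ∃ (χ' : Chart X) (ρ' : ℝ) (i' j' : ℕ) (R' r' : ℝ), x.1 ∈ χ'.U ∧ χ'.q x.1 = 0 ∧
      Mon Λ u χ' b ρ' i' j' ∧ (∀ p ∈ ball (0 : ℂ × ℂ) 2, dist (pr (χ'.σ p)) (pr x.1) < R₀ / 8) ∧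
      (∀ p ∈ ball (0 : ℂ × ℂ) 2, ‖mo b ρ' i' j' p - b‖ < η) ∧ 0 < R' ∧ (∀ w ∈ X, dist (pr w) (pr x.1) < R' → w ∈ χ'.U) ∧
      0 < r' ∧ r' ≤ 2 ∧ ∀ p ∈ ball (0 : ℂ × ℂ) r', dist (pr (χ'.σ p)) (pr x.1) < R' / 4 := by
    rintro ⟨x, hx, hxb⟩
    obtain ⟨χ', ρ', i', j', hxU', hq, hm, hs⟩ := exists_nc_chart hX hu (hnc x hx hxb) (lt_min hη0 (by positivity : 0 < R₀ / 8))
    obtain ⟨R', hR', hRU'⟩ := exists_R hX χ' hx hxU'
    obtain ⟨r', hr', hr2, hrr⟩ := exists_r hX χ' hx hxU' hq (by positivity : 0 < R' / 4)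
    exact ⟨χ', ρ', i', j', R', r', hxU', hq, hm, fun p hp => lt_of_lt_of_le (hs p hp).1 (min_le_right _ _),
      fun p hp => lt_of_lt_of_le (hs p hp).2 (min_le_left _ _), hR', hRU', hr', hr2, hrr⟩
  choose χ' ρ' i' j' R' r' hxU' hq' hmon' hsm' hrange' hR' hRU' hr' hr2' hrr' using h2
  -- the radius
  obtain ⟨s₀, hs₀, hs₀P⟩ := exists_rad hX hΛ hu (b := b)
    (fun y => (∃ x ∈ t, y ∈ O x) ∧ ∃ x, y ∈ (χ' x).U ∧ (χ' x).q y ∈ ball (0 : ℂ × ℂ) (r' x))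
    (by
      rintro y - ⟨⟨x, hx, hyx⟩, x', hy1, hy2⟩ c hc
      refine ⟨⟨x, hx, hOsmul x y hyx c hc⟩, x', (χ' x').smul_U y hy1 c hc, ?_⟩
      rw [(χ' x').q_smul y hy1 c hc]
      exact hy2)
    (by
      intro x hx hxb
      obtain ⟨x₁, hx₁, hxO⟩ := hcov x hx hxb
      have e1 : ∀ᶠ y in 𝓝 x, y ∈ O x₁ := (hOopen x₁).mem_nhds hxO
      have e2 : ∀ᶠ y in 𝓝 x, y ∈ (χ' ⟨x, hx, hxb⟩).U := (χ' ⟨x, hx, hxb⟩).isOpen_U.mem_nhds (hxU' ⟨x, hx, hxb⟩)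
      have e3 : ∀ᶠ y in 𝓝 x, (χ' ⟨x, hx, hxb⟩).q y ∈ ball (0 : ℂ × ℂ) (r' ⟨x, hx, hxb⟩) := by
        refine ((χ' ⟨x, hx, hxb⟩).q_an x (hxU' ⟨x, hx, hxb⟩)).continuousAt.eventually (isOpen_ball.mem_nhds ?_)
        rw [hq' ⟨x, hx, hxb⟩]
        exact mem_ball_self (hr' _)
      filter_upwards [e1, e2, e3] with y h1 h2 h3 _
      exact ⟨⟨x₁, hx₁, h1⟩, ⟨x, hx, hxb⟩, h2, h3⟩)
  refine ⟨⟨t.card, fun k => χ (t.equivFin.symm k).1, fun k => ρ (t.equivFin.symm k).1, fun k => i (t.equivFin.symm k).1,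
    fun k => j (t.equivFin.symm k).1, fun k => O (t.equivFin.symm k).1⟩, min s₀ η, η,
    Set.range fun x => ⟨χ' x, ρ' x, i' x, j' x, r' x⟩, ?_, ?_⟩
  · refine ⟨lt_min hs₀ hη0, min_le_right _ _, ?_, fun k => hmon _, fun k => hrange _, fun k => hOopen _, ?_, fun k => hOsmul _, ?_⟩
    · intro l hl hn
      exact hdΛ l hl (by rw [hη] at hn; linarith)
    · rintro k w ⟨-, hw, -⟩
      exact hw
    · intro z hz x hx hxz
      obtain ⟨⟨y, hy, hxy⟩, -⟩ := hs₀P z (ball_subset_ball (min_le_left _ _) hz) x hx hxz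
      refine ⟨t.equivFin ⟨y, hy⟩, ?_⟩
      simp only [Equiv.symm_apply_apply]
      exact hxy
  · refine ⟨?_, ?_, ?_, ?_, ?_, ?_⟩
    · rintro w ⟨x, rfl⟩
      exact ⟨hr' x, hr2' x⟩
    · rintro w ⟨x, rfl⟩
      exact hmon' x
    · rintro w ⟨x, rfl⟩
      exact hrange' x
    · rintro w ⟨x, rfl⟩ k ⟨p, hp, -, -, hpd⟩ p' hp'
      have hk := hR₀t _ (t.equivFin.symm k).2
      have a1 := hsm' x p (ball_subset_ball (hr2' x) hp)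
      have a2 := hsm' x p' hp'
      refine hRU _ _ ((χ' x).σ_mem p' hp').1 ?_
      have a3 := dist_triangle (pr ((χ' x).σ p')) (pr x.1) (pr (t.equivFin.symm k).1.1)
      have a4 := dist_triangle (pr x.1) (pr ((χ' x).σ p)) (pr (t.equivFin.symm k).1.1)
      rw [dist_comm (pr x.1) (pr ((χ' x).σ p))] at a4
      have a5 : dist (pr ((χ' x).σ p)) (pr (t.equivFin.symm k).1.1) < R (t.equivFin.symm k).1 / 2 := hpd
      have a6 : 0 < R (t.equivFin.symm k).1 := hR _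
      linarith
    · rintro w ⟨x, rfl⟩ w' ⟨x', rfl⟩ ⟨p, hp, p', hp', hpp⟩
      have a1 : dist (pr ((χ' x).σ p)) (pr x.1) < R' x / 4 := hrr' x p hp
      have a2 : dist (pr ((χ' x').σ p')) (pr x'.1) < R' x' / 4 := hrr' x' p' hp'
      have hpp' : pr ((χ' x).σ p) = pr ((χ' x').σ p') := hpp
      rw [hpp'] at a1
      have a3 := dist_triangle (pr x.1) (pr ((χ' x').σ p')) (pr x'.1)
      rw [dist_comm (pr x.1) (pr ((χ' x').σ p'))] at a3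
      have b1 := hR' x
      have b2 := hR' x'
      rcases le_total (R' x) (R' x') with hle | hle
      · left
        intro q hq
        refine hRU' x' _ ((χ' x).σ_mem q (ball_subset_ball (hr2' x) hq)).1 ?_
        have a4 := hrr' x q hq
        have a5 := dist_triangle (pr ((χ' x).σ q)) (pr x.1) (pr x'.1)
        linarith
      · right
        intro q hq
        refine hRU' x _ ((χ' x').σ_mem q (ball_subset_ball (hr2' x') hq)).1 ?_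
        have a4 := hrr' x' q hq
        have a5 := dist_triangle (pr ((χ' x').σ q)) (pr x'.1) (pr x.1)
        rw [dist_comm (pr x'.1) (pr x.1)] at a5
        linarith
    · intro z hz x hx hxz
      obtain ⟨-, y, hy1, hy2⟩ := hs₀P z (ball_subset_ball (min_le_left _ _) hz) x hx hxz
      exact ⟨_, ⟨y, rfl⟩, hy1, hy2⟩

end Pool.Agent.TGY

end
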