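import Pool.Agent.H94.G4T.M58
import Pool.Agent.H94.G4T.M59
import Pool.Agent.H94.G4T.M60

/-! The parts of this file: H62.EL.Ps, G4.A.CmDefs, TG.Y.TbB. -/

section

/-!
# EL Ps: the primitive of `β - β'` in the witness chart

`τ = χ.q ∘ χ'.σ : ball 0 2 → ball 0 2`, `b₁ = bc χ A χ' (1, 0)`, `b₂ = bc χ A χ' (0, 1)`.  Lifts: for `p ∈ ball 0 2`,
`mo b ρ i j (τ p) = mo b ρ' i' j' p`: both are `u (χ'.σ p)` modulo `Λ` (`Mon.lift`, `TorusMap.smul`) and within `η` of `b`, and `hinj`.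
`β' = - A' ds` has the coefficients `(-A', 0)` in the chart `χ'`.  The form with coefficients `(b₁ + A', b₂)` is closed: `∂₁ b₂ - ∂₂ b₁ = tc α χ'`
(`bc_closed`) `= ∂₂ A'`.  Let `ψ` be the potential of `exists_potential` (`R = 2`), `ψ 0 = 0`.
`der`: near `ζ`, `γ ξ ∈ χ'.U` and `χ'.q (γ ξ) ∈ ball 0 2`; with `(s, t) = χ'.q ∘ γ`: `(ψ (s, t))' = (b₁ + A') s' + b₂ t' = bt χ A γ ζ + A' s' = bt χ A γ ζ -
bt χ' A' γ ζ` (`bt_eq` for the charts `χ`, `χ'`; `bt χ' A' γ ζ = - A' s'` by definition).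
`zero`: let `p.1 ^ i' * p.2 ^ j' = 0`.
Case `i' > 0`, `p.1 = 0`: for `|t| < 2` the function `t ↦ ψ (0, t)` has the derivative `b₂ (0, t) = - A (τ (0, t)) (∂₂ τ₁) (0, t)`.  Let
`s t = τ₁ (0, t)`, `t' t = τ₂ (0, t)`, analytic on the disc `|t| < 2`; `ρ (s t)^i (t' t)^j = mo .. - b = mo b ρ' i' j' (0, t) - b = 0`.  So `i > 0` and `s ≡ 0`,
or `j > 0` and `t' ≡ 0` on the disc (a product of analytic functions on a connected set which vanishes: one factor vanishes identically; `i + j > 0`, if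
`i = 0` the first factor is `1`).  If `s ≡ 0` then `∂₂ τ₁ (0, t) = s' t = 0`; if `t' ≡ 0` then `A (s t, 0) = 0` (`IsPrim.zero`).  So `ψ (0, t) = ψ 0 = 0`.
Case `j' > 0`, `p.2 = 0`: `s ↦ ψ (s, 0)` has the derivative `b₁ (s, 0) + A' (s, 0) = b₁ (s, 0)`, which vanishes by the same argument.
-/

set_option autoImplicit false

open Topology Filter Metric

namespace Pool.Agent.H62.EL

open Pool.Agent.H36.BP (EN fs wd IsGermChart)
open Pool.Agent.H14.PP (IsCone Chart Tan CurveAt jac)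
open Pool.Agent.H62.EF (Lat MN pr TorusMap Sec Charts)

variable {N : ℕ} {X : Set (EN N)} {Λ : AddSubgroup ℂ} {u : EN N → ℂ}

/-- a product of powers of analytic functions which vanishes on a disc -/
private theorem ps_prod {S T : ℂ → ℂ} {i j : ℕ} (hS : ∀ t ∈ ball (0 : ℂ) 2, AnalyticAt ℂ S t)
    (hT : ∀ t ∈ ball (0 : ℂ) 2, AnalyticAt ℂ T t) (h : ∀ t ∈ ball (0 : ℂ) 2, S t ^ i * T t ^ j = 0) :
    (∀ t ∈ ball (0 : ℂ) 2, S t = 0) ∨ ∀ t ∈ ball (0 : ℂ) 2, T t = 0 := by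
  have h1 : AnalyticOnNhd ℂ (fun t => S t ^ i) (ball (0 : ℂ) 2) := fun t ht => (hS t ht).fun_pow i
  have h2 : AnalyticOnNhd ℂ (fun t => T t ^ j) (ball (0 : ℂ) 2) := fun t ht => (hT t ht).fun_pow j
  have hpre : IsPreconnected (ball (0 : ℂ) 2) := (convex_ball (0 : ℂ) 2).isPreconnected
  rcases h1.eq_zero_or_eq_zero_of_mul_eq_zero h2 h hpre with h3 | h3
  · left
    intro t ht
    exact eq_zero_of_pow_eq_zero (h3 t ht)
  · right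
    intro t ht
    exact eq_zero_of_pow_eq_zero (h3 t ht)

private theorem ps_mem (χ χ' : Chart X) {p : ℂ × ℂ} (hp : p ∈ ball (0 : ℂ × ℂ) 2) (hU : χ'.σ p ∈ χ.U) :
    χ.q (χ'.σ p) ∈ ball (0 : ℂ × ℂ) 2 :=
  (χ.surj _ (χ'.σ_mem p hp).1 hU).1

private theorem ps_an (χ χ' : Chart X) {p : ℂ × ℂ} (hp : p ∈ ball (0 : ℂ × ℂ) 2) (hU : χ'.σ p ∈ χ.U) :
    AnalyticAt ℂ (fun y => χ.q (χ'.σ y)) p :=
  AnalyticAt.comp (g := χ.q) (f := χ'.σ) (χ.q_an _ hU) (χ'.σ_an p hp)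

/-- the lifts of `u` agree -/
private theorem ps_lift (hu : TorusMap X Λ u) {b : ℂ} {η : ℝ} (hinj : ∀ l ∈ Λ, ‖l‖ < 2 * η → l = 0)
    {χ χ' : Chart X} {ρ ρ' : ℝ} {i j i' j' : ℕ} (hm : Mon Λ u χ b ρ i j) (hm' : Mon Λ u χ' b ρ' i' j')
    (hr : ∀ p ∈ ball (0 : ℂ × ℂ) 2, ‖mo b ρ i j p - b‖ < η) (hr' : ∀ p ∈ ball (0 : ℂ × ℂ) 2, ‖mo b ρ' i' j' p - b‖ < η)
    {p : ℂ × ℂ} (hp : p ∈ ball (0 : ℂ × ℂ) 2) (hU : χ'.σ p ∈ χ.U) :
    mo b ρ i j (χ.q (χ'.σ p)) = mo b ρ' i' j' p := by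
  obtain ⟨hτ, c, hc, hx⟩ := χ.surj _ (χ'.σ_mem p hp).1 hU
  have h1 := hm'.lift p hp
  have h2 := hm.lift _ hτ
  have h3 := hu.smul (χ.σ (χ.q (χ'.σ p))) (χ.σ_mem _ hτ).1 c hc
  rw [← hx] at h3
  have h4 : mo b ρ i j (χ.q (χ'.σ p)) - mo b ρ' i' j' p ∈ Λ := by
    have h5 := Λ.sub_mem h1 (Λ.add_mem h3 h2)
    have h6 : u (χ'.σ p) - mo b ρ' i' j' p - (u (χ'.σ p) - u (χ.σ (χ.q (χ'.σ p))) +
        (u (χ.σ (χ.q (χ'.σ p))) - mo b ρ i j (χ.q (χ'.σ p)))) =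
        mo b ρ i j (χ.q (χ'.σ p)) - mo b ρ' i' j' p := by ring
    rwa [h6] at h5
  have h5 : ‖mo b ρ i j (χ.q (χ'.σ p)) - mo b ρ' i' j' p‖ < 2 * η := by
    have h6 : mo b ρ i j (χ.q (χ'.σ p)) - mo b ρ' i' j' p =
        (mo b ρ i j (χ.q (χ'.σ p)) - b) - (mo b ρ' i' j' p - b) := by ring
    rw [h6]
    have h7 := norm_sub_le (mo b ρ i j (χ.q (χ'.σ p)) - b) (mo b ρ' i' j' p - b)
    have h8 := hr _ hτ
    have h9 := hr' p hp
    linarith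
  exact sub_eq_zero.1 (hinj _ h4 h5)

/-- the coefficient of `β` along a coordinate axis on which `u = b` vanishes -/
private theorem ps_axis (α : TForm X Λ u) {b : ℂ} {χ χ' : Chart X} {ρ : ℝ} {i j : ℕ} (hm : Mon Λ u χ b ρ i j)
    {A : ℂ × ℂ → ℂ} (hA : IsPrim α χ (mo b ρ i j) A) (hsub : ∀ p ∈ ball (0 : ℂ × ℂ) 2, χ'.σ p ∈ χ.U) (e : ℂ × ℂ)
    (he : ∀ t ∈ ball (0 : ℂ) 2, t • e ∈ ball (0 : ℂ × ℂ) 2)
    (h0 : ∀ t ∈ ball (0 : ℂ) 2, mo b ρ i j (χ.q (χ'.σ (t • e))) = b) :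
    ∀ t ∈ ball (0 : ℂ) 2, bc χ A χ' e (t • e) = 0 := by
  have hl : ∀ t : ℂ, HasDerivAt (fun t : ℂ => t • e) e t := fun t => by
    simpa using (hasDerivAt_id t).smul_const e
  have hlan : ∀ t : ℂ, AnalyticAt ℂ (fun t : ℂ => t • e) t := fun t => by fun_prop
  have hτ : ∀ t ∈ ball (0 : ℂ) 2, AnalyticAt ℂ (fun t : ℂ => χ.q (χ'.σ (t • e))) t := fun t ht =>
    AnalyticAt.comp (g := fun y => χ.q (χ'.σ y)) (f := fun t : ℂ => t • e)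
      (ps_an χ χ' (he t ht) (hsub _ (he t ht))) (hlan t)
  have hd : ∀ t ∈ ball (0 : ℂ) 2, HasDerivAt (fun t : ℂ => χ.q (χ'.σ (t • e)))
      (fderiv ℂ (fun y => χ.q (χ'.σ y)) (t • e) e) t := fun t ht =>
    HasFDerivAt.comp_hasDerivAt (l := fun y => χ.q (χ'.σ y)) t
      (ps_an χ χ' (he t ht) (hsub _ (he t ht))).differentiableAt.hasFDerivAt (hl t)
  have hS : ∀ t ∈ ball (0 : ℂ) 2, AnalyticAt ℂ (fun t : ℂ => (χ.q (χ'.σ (t • e))).1) t := fun t ht =>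
    AnalyticAt.comp (g := fun y : ℂ × ℂ => y.1) (f := fun t : ℂ => χ.q (χ'.σ (t • e))) analyticAt_fst (hτ t ht)
  have hT : ∀ t ∈ ball (0 : ℂ) 2, AnalyticAt ℂ (fun t : ℂ => (χ.q (χ'.σ (t • e))).2) t := fun t ht =>
    AnalyticAt.comp (g := fun y : ℂ × ℂ => y.2) (f := fun t : ℂ => χ.q (χ'.σ (t • e))) analyticAt_snd (hτ t ht)
  have hST : ∀ t ∈ ball (0 : ℂ) 2, (χ.q (χ'.σ (t • e))).1 ^ i * (χ.q (χ'.σ (t • e))).2 ^ j = 0 := by
    intro t ht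
    have h1 := h0 t ht
    unfold mo at h1
    have h2 : (ρ : ℂ) * ((χ.q (χ'.σ (t • e))).1 ^ i * (χ.q (χ'.σ (t • e))).2 ^ j) = 0 := by
      linear_combination h1
    have h3 : (ρ : ℂ) ≠ 0 := by
      exact_mod_cast hm.pos.ne'
    exact (mul_eq_zero.1 h2).resolve_left h3
  intro t ht
  unfold bc
  rw [neg_eq_zero, mul_eq_zero]
  rcases ps_prod hS hT hST with h | h
  · right
    have h1 : HasDerivAt (fun t : ℂ => (χ.q (χ'.σ (t • e))).1)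
        (fderiv ℂ (fun y => χ.q (χ'.σ y)) (t • e) e).1 t :=
      HasFDerivAt.comp_hasDerivAt (l := fun y : ℂ × ℂ => y.1) t hasFDerivAt_fst (hd t ht)
    have h2 : (fun t : ℂ => (χ.q (χ'.σ (t • e))).1) =ᶠ[𝓝 t] fun _ => 0 := by
      filter_upwards [isOpen_ball.mem_nhds ht] with s hs
      exact h s hs
    exact h1.unique ((hasDerivAt_const t (0 : ℂ)).congr_of_eventuallyEq h2)
  · left
    have h1 : χ.q (χ'.σ (t • e)) = ((χ.q (χ'.σ (t • e))).1, 0) := Prod.ext rfl (h t ht)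
    have h2 := ps_mem χ χ' (he t ht) (hsub _ (he t ht))
    rw [h1]
    refine hA.zero _ ?_
    rw [mem_ball_zero_iff] at h2
    exact (norm_fst_le _).trans_lt h2

/-- a function with derivative `0` along the axis -/
private theorem ps_const {ψ : ℂ × ℂ → ℂ} (hψ : ∀ p ∈ ball (0 : ℂ × ℂ) 2, AnalyticAt ℂ ψ p) (e : ℂ × ℂ)
    (he : ∀ t ∈ ball (0 : ℂ) 2, t • e ∈ ball (0 : ℂ × ℂ) 2)
    (h0 : ∀ t ∈ ball (0 : ℂ) 2, fderiv ℂ ψ (t • e) e = 0) {t : ℂ} (ht : t ∈ ball (0 : ℂ) 2) :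
    ψ (t • e) = ψ 0 := by
  have hl : ∀ t : ℂ, HasDerivAt (fun t : ℂ => t • e) e t := fun t => by
    simpa using (hasDerivAt_id t).smul_const e
  have hd : ∀ t ∈ ball (0 : ℂ) 2, HasDerivAt (fun t : ℂ => ψ (t • e)) 0 t := fun t ht => by
    have h1 : HasDerivAt (fun t : ℂ => ψ (t • e)) (fderiv ℂ ψ (t • e) e) t :=
      HasFDerivAt.comp_hasDerivAt (l := ψ) t (hψ _ (he t ht)).differentiableAt.hasFDerivAt (hl t)
    rwa [h0 t ht] at h1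
  have h2 := isOpen_ball.is_const_of_deriv_eq_zero (𝕜 := ℂ) (convex_ball (0 : ℂ) 2).isPreconnected
    (f := fun t : ℂ => ψ (t • e)) (fun t ht => (hd t ht).differentiableAt.differentiableWithinAt)
    (fun t ht => (hd t ht).deriv) ht (mem_ball_self two_pos)
  simpa using h2

theorem exists_psi (hX : IsCone X) (hu : TorusMap X Λ u) (α : TForm X Λ u) {b : ℂ} {η : ℝ} (hinj : ∀ l ∈ Λ, ‖l‖ < 2 * η → l = 0)
    {χ χ' : Chart X} {ρ ρ' : ℝ} {i j i' j' : ℕ} (hm : Mon Λ u χ b ρ i j) (hm' : Mon Λ u χ' b ρ' i' j')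
    (hr : ∀ p ∈ ball (0 : ℂ × ℂ) 2, ‖mo b ρ i j p - b‖ < η) (hr' : ∀ p ∈ ball (0 : ℂ × ℂ) 2, ‖mo b ρ' i' j' p - b‖ < η)
    {A A' : ℂ × ℂ → ℂ} (hA : IsPrim α χ (mo b ρ i j) A) (hA' : IsPrim α χ' (mo b ρ' i' j') A')
    (hsub : ∀ p ∈ ball (0 : ℂ × ℂ) 2, χ'.σ p ∈ χ.U) : ∃ ψ : ℂ × ℂ → ℂ, PsiP χ A χ' A' i' j' ψ := by
  have hτ : ∀ p ∈ ball (0 : ℂ × ℂ) 2, mo b ρ i j (χ.q (χ'.σ p)) = mo b ρ' i' j' p := fun p hp =>
    ps_lift hu hinj hm hm' hr hr' hp (hsub p hp)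
  have hb1 : ∀ p ∈ ball (0 : ℂ × ℂ) 2, AnalyticAt ℂ (bc χ A χ' (1, 0)) p := fun p hp =>
    bc_an χ χ' hA.an hp (hsub p hp) (1, 0)
  have hb2 : ∀ p ∈ ball (0 : ℂ × ℂ) 2, AnalyticAt ℂ (bc χ A χ' (0, 1)) p := fun p hp =>
    bc_an χ χ' hA.an hp (hsub p hp) (0, 1)
  obtain ⟨ψ, hψ0, hψ⟩ := exists_potential (R := 2) (b₁ := fun p => bc χ A χ' (1, 0) p + A' p)
    (b₂ := bc χ A χ' (0, 1)) (fun p hp => (hb1 p hp).fun_add (hA'.an p hp)) hb2 (by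
      intro p hp
      have h1 := bc_closed hX hu α χ χ' hA hp (hsub p hp) (hm'.lift p hp) (hτ p hp)
      have h2 := hA'.der p hp
      have h3 : fderiv ℂ (fun p => bc χ A χ' (1, 0) p + A' p) p =
          fderiv ℂ (bc χ A χ' (1, 0)) p + fderiv ℂ A' p :=
        fderiv_fun_add (hb1 p hp).differentiableAt (hA'.an p hp).differentiableAt
      rw [h3, _root_.add_apply, h2, ← h1]
      ring)
  refine ⟨ψ, ⟨?_, ?_⟩⟩
  · intro p hp h0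
    rcases mul_eq_zero.1 h0 with h1 | h1
    · -- the axis `s = 0`
      have hp1 : p.1 = 0 := eq_zero_of_pow_eq_zero h1
      have hi' : i' ≠ 0 := by
        rintro rfl
        simp at h1
      have he : ∀ t ∈ ball (0 : ℂ) 2, t • ((0, 1) : ℂ × ℂ) ∈ ball (0 : ℂ × ℂ) 2 := by
        intro t ht
        rw [mem_ball_zero_iff] at ht ⊢
        simpa [Prod.norm_def] using ht
      have h2 : ∀ t ∈ ball (0 : ℂ) 2, mo b ρ i j (χ.q (χ'.σ (t • ((0, 1) : ℂ × ℂ)))) = b := by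
        intro t ht
        rw [hτ _ (he t ht)]
        simp [mo, hi']
      have h3 := ps_axis α hm hA hsub (0, 1) he h2
      have h4 : p = p.2 • ((0, 1) : ℂ × ℂ) := by
        refine Prod.ext ?_ ?_
        · simp [hp1]
        · simp
      have h5 : p.2 ∈ ball (0 : ℂ) 2 := by
        rw [mem_ball_zero_iff] at hp ⊢
        exact (norm_snd_le _).trans_lt hp
      rw [h4, ps_const (fun q hq => (hψ q hq).1) (0, 1) he
        (fun t ht => by rw [(hψ _ (he t ht)).2.2]; exact h3 t ht) h5, hψ0]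
    · -- the axis `t = 0`
      have hp1 : p.2 = 0 := eq_zero_of_pow_eq_zero h1
      have hj' : j' ≠ 0 := by
        rintro rfl
        simp at h1
      have he : ∀ t ∈ ball (0 : ℂ) 2, t • ((1, 0) : ℂ × ℂ) ∈ ball (0 : ℂ × ℂ) 2 := by
        intro t ht
        rw [mem_ball_zero_iff] at ht ⊢
        simpa [Prod.norm_def] using ht
      have h2 : ∀ t ∈ ball (0 : ℂ) 2, mo b ρ i j (χ.q (χ'.σ (t • ((1, 0) : ℂ × ℂ)))) = b := by
        intro t ht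
        rw [hτ _ (he t ht)]
        simp [mo, hj']
      have h3 := ps_axis α hm hA hsub (1, 0) he h2
      have h4 : p = p.1 • ((1, 0) : ℂ × ℂ) := by
        refine Prod.ext ?_ ?_
        · simp
        · simp [hp1]
      have h5 : p.1 ∈ ball (0 : ℂ) 2 := by
        rw [mem_ball_zero_iff] at hp ⊢
        exact (norm_fst_le _).trans_lt hp
      rw [h4, ps_const (fun q hq => (hψ q hq).1) (1, 0) he
        (fun t ht => by
          rw [(hψ _ (he t ht)).2.1]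
          have h6 : A' (t • ((1, 0) : ℂ × ℂ)) = 0 := by
            have h7 : t • ((1, 0) : ℂ × ℂ) = (t, 0) := by simp
            rw [h7]
            exact hA'.zero t (mem_ball_zero_iff.1 ht)
          rw [h6, h3 t ht, add_zero]) h5, hψ0]
  · intro γ ζ hγ hU'
    obtain ⟨hw, -, c, -, hc0, hev⟩ := χ'.curve hX hγ hU'
    obtain ⟨hwm, hγζ⟩ := hev.self_of_nhds
    have hU : γ ζ ∈ χ.U := by
      rw [hγζ]
      exact χ.smul_U _ (hsub _ hwm) _ hc0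
    have h1 : HasDerivAt (fun ξ => ψ (χ'.q (γ ξ)))
        (fderiv ℂ ψ (χ'.q (γ ζ)) (deriv (fun ξ => χ'.q (γ ξ)) ζ)) ζ :=
      HasFDerivAt.comp_hasDerivAt (l := ψ) ζ (hψ _ hwm).1.differentiableAt.hasFDerivAt
        hw.differentiableAt.hasDerivAt
    have h2 : fderiv ℂ ψ (χ'.q (γ ζ)) (deriv (fun ξ => χ'.q (γ ξ)) ζ) =
        bt χ A γ ζ - bt χ' A' γ ζ := by
      have h3 : deriv (fun ξ => χ'.q (γ ξ)) ζ = (deriv (fun ξ => χ'.q (γ ξ)) ζ).1 • ((1, 0) : ℂ × ℂ) +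
          (deriv (fun ξ => χ'.q (γ ξ)) ζ).2 • ((0, 1) : ℂ × ℂ) := by
        refine Prod.ext ?_ ?_
        · simp
        · simp
      rw [bt_eq χ χ' A hγ hU' hU]
      unfold bt
      conv_lhs => rw [h3, map_add, map_smul, map_smul, (hψ _ hwm).2.1, (hψ _ hwm).2.2, smul_eq_mul, smul_eq_mul]
      ring
    rwa [h2] at h1

end Pool.Agent.H62.EL

end

section

/-!
# G4 A CmDefs: linear combinations of values on nearly equal curves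

Curves `f i n` over the lines `y i n + ℂ a` (`i < M`), `y i n → y₀`, all converging to the curve `g` over `y₀ + ℂ a`; coefficients `c n i z`, entire in `z`, which may tend to infinity.

* `cX c f v n x = ∑ i, c n i x • nv v (f i n x)`: the combination in the affine chart of the unit vector `v` (`pr v = g x`).
* `Cmb`: it is bounded (`bdd`) and, in the limit, linear (`lin`): for every analytic `F` near `(v, y₀ + x a)` the combination of the values `F (nv v (f i n x), y i n + x a)` is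
  `fderiv ℂ F (v, y₀ + x a) (cX c f v n x, 0)` up to an error which tends to `0`.  So functions of `y` are killed.  Cases: two curves, coefficients `± e n z / d n`; divided differences of a sheet, divided by `Nb n → ∞`;
  differences of difference quotients of a sheet.
* `MdX`: the maximum principle for `cX` in the limit, with an arbitrary holomorphic factor, from the circle in the core (of radius `≤ 3 / 8`) to the centre over `Gd D δ'`, with uniform constants.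
* `Fch`: a chart of the fibre over `y₁` near `v`, with uniform constants: coordinate `h` along the fibres, inverse `Θ (h, y)`, primitives `Ψ j = Bj (h, y)` of the forms.
-/

set_option autoImplicit false

open Topology Filter Metric

namespace Pool.Agent.G4.A

open Pool.Agent.H36.BP (EN fs wd)
open Pool.Agent.H14.PP (IsCone CurveAt Tan)
open Pool.Agent.H62.EF (MN pr)
open Pool.Agent.AD (Vd Chart Charts IsGerm)
open Pool.Agent.TG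
open Pool.Agent.G3
open Pool.Agent.G3.A
open Pool.Agent.G3.R (Prm)
open Pool.Agent.G3.C (Gc nv nd nv_pr)

variable {N k : ℕ}

/-- the combination of the points `f i n x` in the chart `nv v` -/
noncomputable def cX {ι : Type*} {M : ℕ} (c : ι → Fin M → ℂ → ℂ) (f : Fin M → ι → ℂ → MN N) (v : EN N) (n : ι) (x : ℂ) : EN N := ∑ i, c n i x • nv v (f i n x)

/-- linear combinations of nearly equal curves, bounded and linear in the limit -/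
structure Cmb (X : Set (EN N)) (Λ : AddSubgroup (Vd (k + 1))) (u : EN N → Vd (k + 1)) (D : Set (Vd (k + 1))) (a : Vd (k + 1)) {ι : Type*} (𝒰 : Ultrafilter ι) {M : ℕ}
    (y : Fin M → ι → Vd (k + 1)) (y₀ : Vd (k + 1)) (f : Fin M → ι → ℂ → MN N) (g : ℂ → MN N) (c : ι → Fin M → ℂ → ℂ) : Prop where
  y_lim : ∀ i, Tendsto (y i) 𝒰 (𝓝 y₀)
  f_mem : ∀ i, ∀ᶠ n in (𝒰 : Filter ι), f i n ∈ Hc X Λ u a (y i n)
  g_mem : g ∈ Hc X Λ u a y₀
  lm : ∀ i, Lm D a 𝒰 y₀ (f i) g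
  c_diff : ∀ᶠ n in (𝒰 : Filter ι), ∀ i, Differentiable ℂ (c n i)
  bdd : ∀ x : ℂ, y₀ + x • a ∉ D → ∀ v : EN N, ‖v‖ = 1 → pr v = g x → ∃ t C : ℝ, 0 < t ∧ ∀ᶠ n in (𝒰 : Filter ι), ∀ x' ∈ ball x t, ‖cX c f v n x'‖ ≤ C
  lin : ∀ x : ℂ, y₀ + x • a ∉ D → ∀ v : EN N, ‖v‖ = 1 → pr v = g x → ∀ F : EN N × Vd (k + 1) → ℂ, AnalyticAt ℂ F (v, y₀ + x • a) → ∀ ε : ℝ, 0 < ε → ∃ t : ℝ, 0 < t ∧
    ∀ᶠ n in (𝒰 : Filter ι), ∀ x' ∈ ball x t, ‖(∑ i, c n i x' * F (nv v (f i n x'), y i n + x' • a)) - fderiv ℂ F (v, y₀ + x • a) (cX c f v n x', 0)‖ ≤ ε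

/-- the maximum principle for the combinations, in the limit -/
def MdX (D : Set (Vd (k + 1))) (a : Vd (k + 1)) {ι : Type*} (𝒰 : Ultrafilter ι) {M : ℕ} (y₀ : Vd (k + 1)) (f : Fin M → ι → ℂ → MN N) (g : ℂ → MN N)
    (c : ι → Fin M → ℂ → ℂ) (δ : ℝ) : Prop :=
  ∀ δ' : ℝ, 0 < δ' → ∃ C : ℝ, 0 < C ∧ ∀ z : ℂ, y₀ + z • a ∈ Gd D δ' → ∀ g₁ : ℂ → ℂ, DifferentiableOn ℂ g₁ (ball z (1 / 2)) → ∀ b : ℝ, 0 < b →
    (∀ z' : ℂ, ‖z' - z‖ ≤ 3 / 8 → y₀ + z' • a ∈ Gd D (2 * δ) → ∀ v : EN N, ‖v‖ = 1 → pr v = g z' → ∀ w : ι → ℂ, Tendsto w 𝒰 (𝓝 z') →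
      ∀ᶠ n in (𝒰 : Filter ι), ‖cX c f v n (w n)‖ * ‖g₁ z'‖ ≤ b) →
    ∀ v : EN N, ‖v‖ = 1 → pr v = g z → ∀ᶠ n in (𝒰 : Filter ι), ‖cX c f v n z‖ * ‖g₁ z‖ ≤ C * b

/-- a chart of the fibre over `y₁` near the unit vector `v`, with the constants `K`, `c₁` -/
structure Fch {X : Set (EN N)} {Λ : AddSubgroup (Vd (k + 1))} {u : EN N → Vd (k + 1)} {J r : ℕ} (W : Fin r → Vd (k + 1) →L[ℂ] ℂ) (α : Fin J → VForm X Λ u) (y₁ : Vd (k + 1)) (v : EN N)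
    (K c₁ R : ℝ) (h : EN N → ℂ) (Θ : ℂ × Vd (k + 1) → EN N) (Ψ : Fin J → EN N → ℂ) (Bj : Fin J → ℂ × Vd (k + 1) → ℂ) : Prop where
  h_an : AnalyticAt ℂ h v
  h_bd : ‖fderiv ℂ h v‖ ≤ K
  Θ_an : AnalyticAt ℂ Θ (h v, y₁)
  Θ_bd : ‖fderiv ℂ Θ (h v, y₁) (1, 0)‖ ≤ K
  R_pos : 0 < R
  prm : ∀ j, Prm (α j) y₁ v R (Ψ j)
  B_an : ∀ j, AnalyticAt ℂ (Bj j) (h v, y₁)
  B_ub : ∀ j, ‖fderiv ℂ (Bj j) (h v, y₁) (1, 0)‖ ≤ K * Real.exp (-wt W y₁)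
  B_lb : ∃ j, c₁ * Real.exp (-wt W y₁) ≤ ‖fderiv ℂ (Bj j) (h v, y₁) (1, 0)‖
  eq : ∀ y ∈ ball y₁ R, ∀ x ∈ X, x ∈ ball v R → u x - y ∈ Λ → (inner ℂ v x = (1 : ℂ) → Θ (h x, y) = x) ∧ ∀ j, Bj j (h x, y) = Ψ j x

end Pool.Agent.G4.A

end

section

/-!
# TG Y TbB: `EL/TbB` with weaker hypotheses
-/

set_option autoImplicit false

open Topology Filter Metric

namespace Pool.Agent.TGY

open Pool.Agent.H36.BP (EN fs wd IsGermChart)
open Pool.Agent.H14.PP (IsCone Chart Tan CurveAt jac)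
open Pool.Agent.H62.EF (Lat MN pr TorusMap Charts)
open Pool.Agent.H62.EL

variable {N : ℕ} {X : Set (EN N)} {Λ : AddSubgroup ℂ} {u : EN N → ℂ}

open Classical in
/-- choice of a witness with the property `P` -/
private noncomputable def pickW (P : Wit X → Prop) (f : Wit X → ℂ) : ℂ := if h : ∃ w, P w then f h.choose else 0

private theorem pickW_congr {P P' : Wit X → Prop} {f f' : Wit X → ℂ} (hP : ∀ w, P w ↔ P' w) (hf : ∀ w, P w → f w = f' w) :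
    pickW P f = pickW P' f' := by
  have hPP : P = P' := funext fun w => propext (hP w)
  subst hPP
  unfold pickW
  by_cases h : ∃ w, P w
  · rw [dif_pos h, dif_pos h]
    exact hf _ h.choose_spec
  · rw [dif_neg h, dif_neg h]

private theorem pickW_eq {P : Wit X → Prop} (h : ∃ w, P w) : ∃ w, P w ∧ ∀ f : Wit X → ℂ, pickW P f = f w :=
  ⟨h.choose, h.choose_spec, fun f => by unfold pickW; rw [dif_pos h]⟩

private theorem pr_chart (χ : Chart X) {x : EN N} (hx : x ∈ X) (hU : x ∈ χ.U) : pr (χ.σ (χ.q x)) = pr x := by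
  obtain ⟨-, c, hc, hxc⟩ := χ.surj x hx hU
  conv_rhs => rw [hxc]
  exact (Pool.Agent.H62.EF.pr_smul _ hc).symm

private theorem q_chart {χ χ' : Chart X} {x : EN N} (hx : x ∈ X) (hU : x ∈ χ.U) (hs : χ.σ (χ.q x) ∈ χ'.U) :
    χ'.q (χ.σ (χ.q x)) = χ'.q x := by
  obtain ⟨-, c, hc, hxc⟩ := χ.surj x hx hU
  conv_rhs => rw [hxc]
  exact (χ'.q_smul _ hs c hc).symm

private theorem mem_W_chart {χ : Chart X} {W : Set (EN N)} (hW : ∀ x ∈ W, ∀ c : ℂ, c ≠ 0 → c • x ∈ W) {x : EN N} (hx : x ∈ X)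
    (hU : x ∈ χ.U) (hxW : x ∈ W) : χ.σ (χ.q x) ∈ W := by
  obtain ⟨-, c, hc, hxc⟩ := χ.surj x hx hU
  have h1 : χ.σ (χ.q x) = c⁻¹ • x := by
    conv_rhs => rw [hxc]
    rw [smul_smul, inv_mul_cancel₀ hc, one_smul]
  rw [h1]
  exact hW x hxW _ (inv_ne_zero hc)

theorem exists_tube (hX : IsCone X) (hu : TorusMap X Λ u) (hΛ : Lat Λ) {b : ℂ} (hnc : ∀ x ∈ X, u x - b ∈ Λ → IsNC X Λ u x b) :
    ∃ (T : TubeData X) (s η : ℝ), Tube Λ u b s η T := by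
  classical
  obtain ⟨T, s, η, 𝒲, hT, hW⟩ := exists_tube_geo hX hu hΛ hnc
  refine ⟨T, s, η, hT, ?_⟩
  intro α A hA
  have hprim : ∀ w : Wit X, ∃ A' : ℂ × ℂ → ℂ, w ∈ 𝒲 → IsPrim α w.χ (mo b w.ρ w.i w.j) A' := by
    intro w
    by_cases hw : w ∈ 𝒲
    · obtain ⟨A', hA'⟩ := exists_prim α w.χ (hW.mon w hw)
      exact ⟨A', fun _ => hA'⟩
    · exact ⟨fun _ => 0, fun h => absurd h hw⟩
  choose A' hA' using hprim
  have hpsi : ∀ (w : Wit X) (k : Fin T.m), ∃ ψ : ℂ × ℂ → ℂ, w ∈ 𝒲 → (∀ p ∈ ball (0 : ℂ × ℂ) 2, w.χ.σ p ∈ (T.χ k).U) →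
      PsiP (T.χ k) (A k) w.χ (A' w) w.i w.j ψ := by
    intro w k
    by_cases hw : w ∈ 𝒲 ∧ ∀ p ∈ ball (0 : ℂ × ℂ) 2, w.χ.σ p ∈ (T.χ k).U
    · obtain ⟨ψ, hψ⟩ := exists_psi hX hu α hT.inj (hT.mon k) (hW.mon w hw.1) (hT.range k) (hW.range w hw.1) (hA k)
        (hA' w hw.1) hw.2
      exact ⟨ψ, fun _ _ => hψ⟩
    · exact ⟨fun _ => 0, fun h1 h2 => absurd ⟨h1, h2⟩ hw⟩
  choose ψ hψ using hpsi
  set Good : EN N → Wit X → Prop := fun x w => w ∈ 𝒲 ∧ x ∈ w.χ.U ∧ w.χ.q x ∈ ball (0 : ℂ × ℂ) w.r with hGood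
  set lam : Fin T.m → EN N → ℂ := fun k x => pickW (Good x) fun w => ψ w k (w.χ.q x) with hlam
  -- the functions are defined at the points of `W k`
  have hdef : ∀ (w : Wit X) (x : EN N) (k : Fin T.m), x ∈ X → Good x w → x ∈ T.W k →
      PsiP (T.χ k) (A k) w.χ (A' w) w.i w.j (ψ w k) := by
    intro w x k hx hg hk
    refine hψ w k hg.1 (hW.sub w hg.1 k ⟨w.χ.q x, hg.2.2, ?_⟩)
    exact mem_W_chart (hT.W_smul k) hx hg.2.1 hk
  refine ⟨lam, ?_, ?_⟩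
  · intro k x hx c hc
    simp only [hlam]
    refine pickW_congr (fun w => ?_) fun w hw => ?_
    · simp only [hGood]
      constructor
      · rintro ⟨h1, h2, h3⟩
        have h4 : x ∈ w.χ.U := by
          have := w.χ.smul_U _ h2 c⁻¹ (inv_ne_zero hc)
          rwa [smul_smul, inv_mul_cancel₀ hc, one_smul] at this
        refine ⟨h1, h4, ?_⟩
        rwa [w.χ.q_smul x h4 c hc] at h3
      · rintro ⟨h1, h2, h3⟩
        refine ⟨h1, w.χ.smul_U x h2 c hc, ?_⟩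
        rwa [w.χ.q_smul x h2 c hc]
    · have h4 : x ∈ w.χ.U := by
        have := w.χ.smul_U _ hw.2.1 c⁻¹ (inv_ne_zero hc)
        rwa [smul_smul, inv_mul_cancel₀ hc, one_smul] at this
      rw [w.χ.q_smul x h4 c hc]
  · intro k l γ ζ hγ hz hk hl
    obtain ⟨z₀, hz₀, hzu⟩ := hz
    have hx₀ : γ ζ ∈ X := hγ.2.self_of_nhds
    obtain ⟨w₀, hw₀, hU₀, hq₀⟩ := hW.cover z₀ hz₀ (γ ζ) hx₀ hzu
    have hg₀ : Good (γ ζ) w₀ := ⟨hw₀, hU₀, hq₀⟩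
    have hk₀ := hdef w₀ (γ ζ) k hx₀ hg₀ hk
    have hl₀ := hdef w₀ (γ ζ) l hx₀ hg₀ hl
    have hd := (hk₀.der γ ζ hγ hU₀).sub (hl₀.der γ ζ hγ hU₀)
    have hval : bt (T.χ k) (A k) γ ζ - bt w₀.χ (A' w₀) γ ζ - (bt (T.χ l) (A l) γ ζ - bt w₀.χ (A' w₀) γ ζ) =
        bt (T.χ k) (A k) γ ζ - bt (T.χ l) (A l) γ ζ := by ring
    rw [hval] at hd
    refine hd.congr_of_eventuallyEq ?_
    -- neighbourhoods
    have hγc : ContinuousAt γ ζ := hγ.1.continuousAt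
    have e1 : ∀ᶠ ξ in 𝓝 ζ, γ ξ ∈ T.W k := hγc.eventually_mem ((hT.W_open k).mem_nhds hk)
    have e2 : ∀ᶠ ξ in 𝓝 ζ, γ ξ ∈ T.W l := hγc.eventually_mem ((hT.W_open l).mem_nhds hl)
    have e3 : ∀ᶠ ξ in 𝓝 ζ, γ ξ ∈ w₀.χ.U := hγc.eventually_mem (w₀.χ.isOpen_U.mem_nhds hU₀)
    have e4 : ∀ᶠ ξ in 𝓝 ζ, w₀.χ.q (γ ξ) ∈ ball (0 : ℂ × ℂ) w₀.r := by
      have h1 : ContinuousAt (fun ξ => w₀.χ.q (γ ξ)) ζ :=
        ContinuousAt.comp (f := γ) (g := w₀.χ.q) (w₀.χ.q_an _ hU₀).continuousAt hγc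
      exact h1.eventually_mem (isOpen_ball.mem_nhds hq₀)
    have e5 : ∀ᶠ ξ in 𝓝 ζ, γ ξ ∈ X → ∃ z ∈ ball b s, u (γ ξ) - z ∈ Λ := by
      obtain ⟨v, hv, hvu⟩ := hu.loc (γ ζ) hx₀
      have h1 : v (γ ζ) - z₀ ∈ Λ := by
        have h2 := hvu.self_of_nhds hx₀
        have h3 := Λ.sub_mem hzu h2
        have h4 : u (γ ζ) - z₀ - (u (γ ζ) - v (γ ζ)) = v (γ ζ) - z₀ := by ring
        rwa [h4] at h3
      have h5 : ContinuousAt (fun ξ => v (γ ξ) - (v (γ ζ) - z₀)) ζ :=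
        (ContinuousAt.comp (f := γ) (g := v) hv.continuousAt hγc).sub continuousAt_const
      have h6 : ∀ᶠ ξ in 𝓝 ζ, v (γ ξ) - (v (γ ζ) - z₀) ∈ ball b s := by
        apply h5.eventually_mem
        apply isOpen_ball.mem_nhds
        simpa using hz₀
      filter_upwards [h6, hγc.eventually hvu] with ξ h7 h8 h9
      refine ⟨_, h7, ?_⟩
      have h10 := Λ.add_mem (h8 h9) h1
      have h11 : u (γ ξ) - v (γ ξ) + (v (γ ζ) - z₀) = u (γ ξ) - (v (γ ξ) - (v (γ ζ) - z₀)) := by ring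
      rwa [h11] at h10
    filter_upwards [e1, e2, e3, e4, e5, hγ.2] with ξ f1 f2 f3 f4 f5 f6
    obtain ⟨z, hz, hzx⟩ := f5 f6
    obtain ⟨w', hw', hU', hq'⟩ := hW.cover z hz (γ ξ) f6 hzx
    obtain ⟨w₁, hg₁, hpick⟩ := pickW_eq (P := Good (γ ξ)) ⟨w', hw', hU', hq'⟩
    have hk₁ := hdef w₁ (γ ξ) k f6 hg₁ f1
    have hl₁ := hdef w₁ (γ ξ) l f6 hg₁ f2
    simp only [hlam, hpick, Pi.sub_apply]
    obtain ⟨hw₁, hU₁, hq₁⟩ := hg₁
    have hpr : pr (w₀.χ.σ (w₀.χ.q (γ ξ))) = pr (w₁.χ.σ (w₁.χ.q (γ ξ))) := by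
      rw [pr_chart w₀.χ f6 f3, pr_chart w₁.χ f6 hU₁]
    rcases hW.nest w₀ hw₀ w₁ hw₁ ⟨_, f4, _, hq₁, hpr⟩ with hn | hn
    · have h1 := two_witness hX hu hT.inj (hW.mon w₁ hw₁) (hW.mon w₀ hw₀) (hW.range w₁ hw₁) hk₁ hl₁ hk₀ hl₀
        (hW.pos w₀ hw₀).1 (hW.pos w₀ hw₀).2 hn (w₀.χ.q (γ ξ)) f4
      rw [q_chart f6 f3 (hn _ f4)] at h1
      exact h1
    · have h1 := two_witness hX hu hT.inj (hW.mon w₀ hw₀) (hW.mon w₁ hw₁) (hW.range w₀ hw₀) hk₀ hl₀ hk₁ hl₁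
        (hW.pos w₁ hw₁).1 (hW.pos w₁ hw₁).2 hn (w₁.χ.q (γ ξ)) hq₁
      rw [q_chart f6 hU₁ (hn _ hq₁)] at h1
      exact h1.symm

end Pool.Agent.TGY

end
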