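import Pool.Agent.H94.G4T.M24
import Pool.Agent.H94.G4T.M29
import Pool.Agent.H94.G4T.M33
import Pool.Agent.H94.G4T.M49
import Pool.Agent.H94.G4T.M61

/-! The parts of this file: G3.X.TbG, H13.CV.FunF, G3.E.Defs, G4.E.EDefs, G4.H.Coc. -/

section

/-!
# G3 X TbG: a tube from its geometric data

`tube_of_geo`: the proof of `Pool.Agent.TGY.exists_tube` (`TG/Y/TbB.lean`) after its first line (`obtain ⟨T, s, η, 𝒲, hT, hW⟩`); copy the private lemmas.
-/

set_option autoImplicit false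

open Topology Filter Metric

namespace Pool.Agent.GXE

open Pool.Agent.H36.BP (EN fs wd IsGermChart)
open Pool.Agent.H14.PP (IsCone Chart Tan CurveAt jac)
open Pool.Agent.H62.EF (Lat MN pr TorusMap Charts)
open Pool.Agent.H62.EL

variable {N : ℕ} {X : Set (EN N)} {Λ : AddSubgroup ℂ} {u : EN N → ℂ}

open Classical in
/-- choice of a witness with the property `P` -/
private noncomputable def pickW (P : Wit X → Prop) (f : Wit X → ℂ) : ℂ := if h : ∃ w, P w then f h.choose else 0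

private theorem pickW_congr {P P' : Wit X → Prop} {f f' : Wit X → ℂ} (hP : ∀ w, P w ↔ P' w) (hf : ∀ w, P w → f w = f' w) :
    pickW P f = pickW P' f' := by
  have hPP : P = P' := funext fun w => propext (hP w)
  subst hPP
  unfold pickW
  by_cases h : ∃ w, P w
  · rw [dif_pos h, dif_pos h]
    exact hf _ h.choose_spec
  · rw [dif_neg h, dif_neg h]

private theorem pickW_eq {P : Wit X → Prop} (h : ∃ w, P w) : ∃ w, P w ∧ ∀ f : Wit X → ℂ, pickW P f = f w :=
  ⟨h.choose, h.choose_spec, fun f => by unfold pickW; rw [dif_pos h]⟩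

private theorem pr_chart (χ : Chart X) {x : EN N} (hx : x ∈ X) (hU : x ∈ χ.U) : pr (χ.σ (χ.q x)) = pr x := by
  obtain ⟨-, c, hc, hxc⟩ := χ.surj x hx hU
  conv_rhs => rw [hxc]
  exact (Pool.Agent.H62.EF.pr_smul _ hc).symm

private theorem q_chart {χ χ' : Chart X} {x : EN N} (hx : x ∈ X) (hU : x ∈ χ.U) (hs : χ.σ (χ.q x) ∈ χ'.U) :
    χ'.q (χ.σ (χ.q x)) = χ'.q x := by
  obtain ⟨-, c, hc, hxc⟩ := χ.surj x hx hU
  conv_rhs => rw [hxc]
  exact (χ'.q_smul _ hs c hc).symm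

private theorem mem_W_chart {χ : Chart X} {W : Set (EN N)} (hW : ∀ x ∈ W, ∀ c : ℂ, c ≠ 0 → c • x ∈ W) {x : EN N} (hx : x ∈ X)
    (hU : x ∈ χ.U) (hxW : x ∈ W) : χ.σ (χ.q x) ∈ W := by
  obtain ⟨-, c, hc, hxc⟩ := χ.surj x hx hU
  have h1 : χ.σ (χ.q x) = c⁻¹ • x := by
    conv_rhs => rw [hxc]
    rw [smul_smul, inv_mul_cancel₀ hc, one_smul]
  rw [h1]
  exact hW x hxW _ (inv_ne_zero hc)

theorem tube_of_geo (hX : IsCone X) (hu : TorusMap X Λ u) {b : ℂ} {s η : ℝ} {T : TubeData X} {𝒲 : Set (Wit X)} (hT : TubeG Λ u b s η T)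
    (hW : WitG Λ u b s η T 𝒲) : Tube Λ u b s η T := by
  classical
  refine ⟨hT, ?_⟩
  intro α A hA
  have hprim : ∀ w : Wit X, ∃ A' : ℂ × ℂ → ℂ, w ∈ 𝒲 → IsPrim α w.χ (mo b w.ρ w.i w.j) A' := by
    intro w
    by_cases hw : w ∈ 𝒲
    · obtain ⟨A', hA'⟩ := exists_prim α w.χ (hW.mon w hw)
      exact ⟨A', fun _ => hA'⟩
    · exact ⟨fun _ => 0, fun h => absurd h hw⟩
  choose A' hA' using hprim
  have hpsi : ∀ (w : Wit X) (k : Fin T.m), ∃ ψ : ℂ × ℂ → ℂ, w ∈ 𝒲 → (∀ p ∈ ball (0 : ℂ × ℂ) 2, w.χ.σ p ∈ (T.χ k).U) →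
      PsiP (T.χ k) (A k) w.χ (A' w) w.i w.j ψ := by
    intro w k
    by_cases hw : w ∈ 𝒲 ∧ ∀ p ∈ ball (0 : ℂ × ℂ) 2, w.χ.σ p ∈ (T.χ k).U
    · obtain ⟨ψ, hψ⟩ := exists_psi hX hu α hT.inj (hT.mon k) (hW.mon w hw.1) (hT.range k) (hW.range w hw.1) (hA k)
        (hA' w hw.1) hw.2
      exact ⟨ψ, fun _ _ => hψ⟩
    · exact ⟨fun _ => 0, fun h1 h2 => absurd ⟨h1, h2⟩ hw⟩
  choose ψ hψ using hpsi
  set Good : EN N → Wit X → Prop := fun x w => w ∈ 𝒲 ∧ x ∈ w.χ.U ∧ w.χ.q x ∈ ball (0 : ℂ × ℂ) w.r with hGood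
  set lam : Fin T.m → EN N → ℂ := fun k x => pickW (Good x) fun w => ψ w k (w.χ.q x) with hlam
  -- the functions are defined at the points of `W k`
  have hdef : ∀ (w : Wit X) (x : EN N) (k : Fin T.m), x ∈ X → Good x w → x ∈ T.W k →
      PsiP (T.χ k) (A k) w.χ (A' w) w.i w.j (ψ w k) := by
    intro w x k hx hg hk
    refine hψ w k hg.1 (hW.sub w hg.1 k ⟨w.χ.q x, hg.2.2, ?_⟩)
    exact mem_W_chart (hT.W_smul k) hx hg.2.1 hk
  refine ⟨lam, ?_, ?_⟩
  · intro k x hx c hc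
    simp only [hlam]
    refine pickW_congr (fun w => ?_) fun w hw => ?_
    · simp only [hGood]
      constructor
      · rintro ⟨h1, h2, h3⟩
        have h4 : x ∈ w.χ.U := by
          have := w.χ.smul_U _ h2 c⁻¹ (inv_ne_zero hc)
          rwa [smul_smul, inv_mul_cancel₀ hc, one_smul] at this
        refine ⟨h1, h4, ?_⟩
        rwa [w.χ.q_smul x h4 c hc] at h3
      · rintro ⟨h1, h2, h3⟩
        refine ⟨h1, w.χ.smul_U x h2 c hc, ?_⟩
        rwa [w.χ.q_smul x h2 c hc]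
    · have h4 : x ∈ w.χ.U := by
        have := w.χ.smul_U _ hw.2.1 c⁻¹ (inv_ne_zero hc)
        rwa [smul_smul, inv_mul_cancel₀ hc, one_smul] at this
      rw [w.χ.q_smul x h4 c hc]
  · intro k l γ ζ hγ hz hk hl
    obtain ⟨z₀, hz₀, hzu⟩ := hz
    have hx₀ : γ ζ ∈ X := hγ.2.self_of_nhds
    obtain ⟨w₀, hw₀, hU₀, hq₀⟩ := hW.cover z₀ hz₀ (γ ζ) hx₀ hzu
    have hg₀ : Good (γ ζ) w₀ := ⟨hw₀, hU₀, hq₀⟩
    have hk₀ := hdef w₀ (γ ζ) k hx₀ hg₀ hk
    have hl₀ := hdef w₀ (γ ζ) l hx₀ hg₀ hl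
    have hd := (hk₀.der γ ζ hγ hU₀).sub (hl₀.der γ ζ hγ hU₀)
    have hval : bt (T.χ k) (A k) γ ζ - bt w₀.χ (A' w₀) γ ζ - (bt (T.χ l) (A l) γ ζ - bt w₀.χ (A' w₀) γ ζ) =
        bt (T.χ k) (A k) γ ζ - bt (T.χ l) (A l) γ ζ := by ring
    rw [hval] at hd
    refine hd.congr_of_eventuallyEq ?_
    -- neighbourhoods
    have hγc : ContinuousAt γ ζ := hγ.1.continuousAt
    have e1 : ∀ᶠ ξ in 𝓝 ζ, γ ξ ∈ T.W k := hγc.eventually_mem ((hT.W_open k).mem_nhds hk)
    have e2 : ∀ᶠ ξ in 𝓝 ζ, γ ξ ∈ T.W l := hγc.eventually_mem ((hT.W_open l).mem_nhds hl)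
    have e3 : ∀ᶠ ξ in 𝓝 ζ, γ ξ ∈ w₀.χ.U := hγc.eventually_mem (w₀.χ.isOpen_U.mem_nhds hU₀)
    have e4 : ∀ᶠ ξ in 𝓝 ζ, w₀.χ.q (γ ξ) ∈ ball (0 : ℂ × ℂ) w₀.r := by
      have h1 : ContinuousAt (fun ξ => w₀.χ.q (γ ξ)) ζ :=
        ContinuousAt.comp (f := γ) (g := w₀.χ.q) (w₀.χ.q_an _ hU₀).continuousAt hγc
      exact h1.eventually_mem (isOpen_ball.mem_nhds hq₀)
    have e5 : ∀ᶠ ξ in 𝓝 ζ, γ ξ ∈ X → ∃ z ∈ ball b s, u (γ ξ) - z ∈ Λ := by
      obtain ⟨v, hv, hvu⟩ := hu.loc (γ ζ) hx₀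
      have h1 : v (γ ζ) - z₀ ∈ Λ := by
        have h2 := hvu.self_of_nhds hx₀
        have h3 := Λ.sub_mem hzu h2
        have h4 : u (γ ζ) - z₀ - (u (γ ζ) - v (γ ζ)) = v (γ ζ) - z₀ := by ring
        rwa [h4] at h3
      have h5 : ContinuousAt (fun ξ => v (γ ξ) - (v (γ ζ) - z₀)) ζ :=
        (ContinuousAt.comp (f := γ) (g := v) hv.continuousAt hγc).sub continuousAt_const
      have h6 : ∀ᶠ ξ in 𝓝 ζ, v (γ ξ) - (v (γ ζ) - z₀) ∈ ball b s := by
        apply h5.eventually_mem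
        apply isOpen_ball.mem_nhds
        simpa using hz₀
      filter_upwards [h6, hγc.eventually hvu] with ξ h7 h8 h9
      refine ⟨_, h7, ?_⟩
      have h10 := Λ.add_mem (h8 h9) h1
      have h11 : u (γ ξ) - v (γ ξ) + (v (γ ζ) - z₀) = u (γ ξ) - (v (γ ξ) - (v (γ ζ) - z₀)) := by ring
      rwa [h11] at h10
    filter_upwards [e1, e2, e3, e4, e5, hγ.2] with ξ f1 f2 f3 f4 f5 f6
    obtain ⟨z, hz, hzx⟩ := f5 f6
    obtain ⟨w', hw', hU', hq'⟩ := hW.cover z hz (γ ξ) f6 hzx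
    obtain ⟨w₁, hg₁, hpick⟩ := pickW_eq (P := Good (γ ξ)) ⟨w', hw', hU', hq'⟩
    have hk₁ := hdef w₁ (γ ξ) k f6 hg₁ f1
    have hl₁ := hdef w₁ (γ ξ) l f6 hg₁ f2
    simp only [hlam, hpick, Pi.sub_apply]
    obtain ⟨hw₁, hU₁, hq₁⟩ := hg₁
    have hpr : pr (w₀.χ.σ (w₀.χ.q (γ ξ))) = pr (w₁.χ.σ (w₁.χ.q (γ ξ))) := by
      rw [pr_chart w₀.χ f6 f3, pr_chart w₁.χ f6 hU₁]
    rcases hW.nest w₀ hw₀ w₁ hw₁ ⟨_, f4, _, hq₁, hpr⟩ with hn | hn
    · have h1 := two_witness hX hu hT.inj (hW.mon w₁ hw₁) (hW.mon w₀ hw₀) (hW.range w₁ hw₁) hk₁ hl₁ hk₀ hl₀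
        (hW.pos w₀ hw₀).1 (hW.pos w₀ hw₀).2 hn (w₀.χ.q (γ ξ)) f4
      rw [q_chart f6 f3 (hn _ f4)] at h1
      exact h1
    · have h1 := two_witness hX hu hT.inj (hW.mon w₀ hw₀) (hW.mon w₁ hw₁) (hW.range w₀ hw₀) hk₀ hl₀ hk₁ hl₁
        (hW.pos w₁ hw₁).1 (hW.pos w₁ hw₁).2 hn (w₁.χ.q (γ ξ)) hq₁
      rw [q_chart f6 hU₁ (hn _ hq₁)] at h1
      exact h1.symm

end Pool.Agent.GXE

end

section

/-!
# CV FunF: the function field of a curve in projective space

`FunField Q` is generated over `ℂ` by the finitely many functions `ratio Q i j`.  `exists_tr`: the member of the transcendence basis.  `fin`: let `x` be transcendental.  The transcendence degree is `1`, so `x` is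
a transcendence basis (`AlgebraicIndependent.isTranscendenceBasis_of_trdeg_le_of_finite` or similar, see the proof of `trdeg_lt` in `Pool/Agent/H17BP/TrdegLt.lean`), and `K` is algebraic over
`ℂ(x)` and generated by finitely many elements, so it is finite over `ℂ(x)` (`IntermediateField.finiteDimensional_adjoin`, `IntermediateField.finiteDimensional_of_exists_…`,
`IntermediateField.essFiniteType`, `Algebra.IsAlgebraic` + `Algebra.EssFiniteType` → `Module.Finite`: `Algebra.finite_of_essFiniteType_of_isAlgebraic`-like; there is also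
`Pool.Agent.H23` material with `[Algebra.EssFiniteType ℂ K]`).
-/

set_option autoImplicit false

open MvPolynomial
open Pool.Agent.H17LG.Variety (FunField IsLogGeneralType)

noncomputable section

namespace Pool.Agent.H13.CV

variable {N : ℕ}

private lemma funF_core {K : Type} [Field K] [Algebra ℂ K] (y : Fin (N + 1) → K)
    (hy : IntermediateField.adjoin ℂ (Set.range y) = ⊤) {z : Fin 1 → K} (hz : IsTranscendenceBasis ℂ z) :
    CurveField K := by
  refine ⟨⟨z 0, hz.1.transcendental 0⟩, fun x hx => ?_⟩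
  have hind : AlgebraicIndependent ℂ (fun _ : Fin 1 => x) := algebraicIndependent_unique_type_iff.2 hx
  have h2 := IsTranscendenceBasis.cardinalMk_eq_trdeg (R := ℂ) (A := K) (x := z) hz
  have hbasis : IsTranscendenceBasis ℂ fun _ : Fin 1 => x :=
    hind.isTranscendenceBasis_of_trdeg_le_of_finite h2.ge
  have halg := hbasis.isAlgebraic_field
  have hr : Set.range (fun _ : Fin 1 => x) = {x} := Set.range_const
  rw [hr] at halg
  have hfin : FiniteDimensional (IntermediateField.adjoin ℂ {x})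
      (IntermediateField.adjoin (IntermediateField.adjoin ℂ {x}) (Set.range y)) :=
    IntermediateField.finiteDimensional_adjoin fun u _ => (halg.isAlgebraic u).isIntegral
  have htop : IntermediateField.adjoin (IntermediateField.adjoin ℂ {x}) (Set.range y) = ⊤ := by
    rw [eq_top_iff]
    intro u _
    have hu : u ∈ IntermediateField.adjoin ℂ (Set.range y) := by
      rw [hy]
      exact IntermediateField.mem_top
    have hle : IntermediateField.adjoin ℂ (Set.range y) ≤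
        (IntermediateField.adjoin (IntermediateField.adjoin ℂ {x}) (Set.range y)).restrictScalars ℂ := by
      rw [IntermediateField.adjoin_le_iff]
      exact IntermediateField.subset_adjoin (IntermediateField.adjoin ℂ {x}) (Set.range y)
    exact hle hu
  rw [htop] at hfin
  exact FiniteDimensional.of_surjective
    ((⊤ : IntermediateField (IntermediateField.adjoin ℂ {x}) K).val.toLinearMap)
    (fun u => ⟨⟨u, IntermediateField.mem_top⟩, rfl⟩)

theorem curveField_funField (Q : Ideal (MvPolynomial (Fin (N + 1)) ℂ)) [Q.IsPrime] (hz : ∃ z : Fin 1 → FunField Q, IsTranscendenceBasis ℂ z) :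
    CurveField (FunField Q) := by
  obtain ⟨z, hz⟩ := hz
  obtain ⟨j, hj⟩ := Pool.Agent.H92.GT.Proj.exists_coordFun_ne_zero Q (k := 0) z hz
  obtain ⟨y, -, hygen, -⟩ := Pool.Agent.H92.GT.Proj.proj_point Q hj
  exact funF_core (K := FunField Q) y hygen hz

end Pool.Agent.H13.CV

end
end

section

/-!
# G3 E Defs: the global sections

`a` is a direction (sup norm `1`).

* `Hol X Λ u D φ`: `φ` has holomorphic lifts outside `D`.
* `GD X Λ u D a S`: `S` is the finite set of the global sheets for the direction `a`: holomorphic outside `D`, honest on all lines of direction `a`, and every entire curve over a line of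
  direction `a` is one of them.
* `MG D φ a y`: near `y` there is a holomorphic lift which is not identically `0` on the line through `y` in the direction `a`.
* `BC X Λ u a ν b`: the conclusion of block (C) at `b`: all curves over `b + ℂ a` extend to families over `b + ζ ν + ℂ a`, `|Im ζ| < ε`.
-/

set_option autoImplicit false

open Topology Filter Metric

namespace Pool.Agent.G3.E

open Pool.Agent.H36.BP (EN fs wd)
open Pool.Agent.H14.PP (IsCone CurveAt Tan)
open Pool.Agent.H62.EF (MN pr)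
open Pool.Agent.AD (Vd Chart Charts IsGerm)
open Pool.Agent.TG
open Pool.Agent.G3.A
open Pool.Agent.G3.C (Gc)

variable {N k : ℕ}

/-- holomorphic outside `D` -/
def Hol (X : Set (EN N)) (Λ : AddSubgroup (Vd (k + 1))) (u : EN N → Vd (k + 1)) (D : Set (Vd (k + 1))) (φ : Vd (k + 1) → MN N) : Prop :=
  ∀ y ∉ D, ∃ F : Vd (k + 1) → EN N, AnalyticAt ℂ F y ∧ ∀ᶠ z in 𝓝 y, F z ∈ X ∧ φ z = pr (F z) ∧ u (F z) - z ∈ Λ

/-- the global sheets for the direction `a` -/
structure GD (X : Set (EN N)) (Λ : AddSubgroup (Vd (k + 1))) (u : EN N → Vd (k + 1)) (D : Set (Vd (k + 1))) (a : Vd (k + 1)) (S : Set (Vd (k + 1) → MN N)) : Prop where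
  fin : S.Finite
  hol : ∀ φ ∈ S, Hol X Λ u D φ
  line : ∀ φ ∈ S, ∀ y, (fun z : ℂ => φ (y + z • a)) ∈ Hc X Λ u a y
  ex : ∀ y, ∀ f ∈ Hc X Λ u a y, ∃ φ ∈ S, ∀ z : ℂ, φ (y + z • a) = f z
  tr : ∀ φ ∈ S, ∀ l ∈ Λ, (fun y => φ (y + l)) ∈ S

/-- the conclusion of block (C) at `b` -/
def BC (X : Set (EN N)) (Λ : AddSubgroup (Vd (k + 1))) (u : EN N → Vd (k + 1)) (a ν b : Vd (k + 1)) : Prop :=
  ∃ ε : ℝ, 0 < ε ∧ ∀ f ∈ Hc X Λ u a b, ∃ Ψ : ℂ → ℂ → MN N, (∀ z, Ψ 0 z = f z) ∧ (∀ ζ : ℂ, |ζ.im| < ε → Ψ ζ ∈ Hc X Λ u a (b + ζ • ν)) ∧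
    ∀ ζ z : ℂ, |ζ.im| < ε → ∃ G : ℂ × ℂ → EN N, AnalyticAt ℂ G (ζ, z) ∧ (¬ ∀ᶠ w in 𝓝 z, G (ζ, w) = 0) ∧
      ∀ᶠ p in 𝓝 (ζ, z), G p ≠ 0 → Ψ p.1 p.2 = pr (G p)

end Pool.Agent.G3.E

end

section

/-!
# G4 E EDefs: maps with holomorphic and meromorphic lifts

`Y` is a finite dimensional complex space, `h : Y → ℂ^(k+1)`, `Φ : Y → ℙ^N` (values on `D'` do not matter).

* `HolY X Λ u D' h Φ`: off `D'` the map `Φ` is holomorphic, with values in `X`, over `h`.
* `MerY D' Φ`: `Φ` has analytic lifts which are not identically `0`, at every point.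
-/

set_option autoImplicit false

open Topology Filter Metric

namespace Pool.Agent.G4.E

open Pool.Agent.H36.BP (EN fs wd)
open Pool.Agent.H14.PP (IsCone CurveAt Tan)
open Pool.Agent.H62.EF (MN pr)
open Pool.Agent.AD (Vd Chart Charts IsGerm)
open Pool.Agent.TG

variable {N k : ℕ}

/-- holomorphic off `D'`, with values in `X`, over `h` -/
def HolY {Y : Type} [NormedAddCommGroup Y] [NormedSpace ℂ Y] (X : Set (EN N)) (Λ : AddSubgroup (Vd (k + 1))) (u : EN N → Vd (k + 1)) (D' : Set Y) (h : Y → Vd (k + 1)) (Φ : Y → MN N) : Prop :=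
  ∀ y ∉ D', ∃ φ : Y → EN N, AnalyticAt ℂ φ y ∧ ∀ᶠ z in 𝓝 y, φ z ∈ X ∧ Φ z = pr (φ z) ∧ u (φ z) - h z ∈ Λ

/-- meromorphic lifts -/
def MerY {Y : Type} [NormedAddCommGroup Y] [NormedSpace ℂ Y] (D' : Set Y) (Φ : Y → MN N) : Prop :=
  ∀ y, ∃ φ : Y → EN N, AnalyticAt ℂ φ y ∧ (∃ᶠ z in 𝓝 y, φ z ≠ 0) ∧ ∀ᶠ z in 𝓝 y, z ∉ D' → φ z ≠ 0 → Φ z = pr (φ z)

/-- the family of curves over the plane `b + ζ ν + z a`, with the lifts of `BC` -/
structure Pln (X : Set (EN N)) (Λ : AddSubgroup (Vd (k + 1))) (u : EN N → Vd (k + 1)) (a ν b : Vd (k + 1)) (Ψ : ℂ → ℂ → MN N) : Prop where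
  line : ∀ ζ : ℂ, Ψ ζ ∈ Pool.Agent.G3.A.Hc X Λ u a (b + ζ • ν)
  lift : ∀ ζ z : ℂ, ∃ G : ℂ × ℂ → EN N, AnalyticAt ℂ G (ζ, z) ∧ (¬ ∀ᶠ w in 𝓝 z, G (ζ, w) = 0) ∧ ∀ᶠ p in 𝓝 (ζ, z), G p ≠ 0 → Ψ p.1 p.2 = pr (G p)

end Pool.Agent.G4.E

end

section

/-!
# G4 H Coc: the theta factors of the top forms have the cocycle property

From `hF.per j` (`Tht`) choose for `l ∈ Γ` the factor `e l y = exp (L y + c)`.  The factors of the different `α j` have the same modulus; fix one `j`?  No: take a point `y₁ ∉ D`, `x₁ ∈ X` over it; by `hF.sep` some `α j` is not `0` at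
`(y₁, x₁)`; use this `j` only.  Where `α j (y, x, v) ≠ 0`: `e (l + l') y = e l (y + l') * e l' y`; this holds at `y₁ + l''` for `l'' ∈ Γ` and for `y` near `y₁`?  The set of the `y` with `(α j).toFun y x v ≠ 0` for some `x`, `v` may be small, so use:
both sides are `exp` of affine functions of `y` with the same modulus everywhere (`nrm`), so their quotient is a constant `q (l, l')` of modulus `1` (`exp` of an affine function with constant modulus is constant), and at `y₁` (where `α j ≠ 0`)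
the quotient is `1`.
-/

set_option autoImplicit false

open Topology Filter Metric

namespace Pool.Agent.G4.H

open Pool.Agent.H36.BP (EN)
open Pool.Agent.AD (Vd)
open Pool.Agent.TG (Lat VForm)
open Pool.Agent.G3 (wt)
open Pool.Agent.G3.A (Frm)

variable {N k : ℕ} {X : Set (EN N)} {Λ Γ : AddSubgroup (Vd (k + 1))} {u : EN N → Vd (k + 1)} {D : Set (Vd (k + 1))} {J r : ℕ}
  {W : Fin r → Vd (k + 1) →L[ℂ] ℂ} {α : Fin J → VForm X Λ u}

theorem thf_of_frm (hF : Frm X Λ u D Γ W α) (hx : ∃ y ∉ D, ∃ x ∈ X, u x - y ∈ Λ) : ∃ e : Vd (k + 1) → Vd (k + 1) → ℂ, ThF Γ W e := by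
  classical
  obtain ⟨y₁, hy₁, x₁, hx₁, hu₁⟩ := hx
  obtain ⟨j, v, hv, hne⟩ := hF.sep y₁ hy₁ x₁ hx₁ hu₁
  have key : ∀ l : Vd (k + 1), ∃ (L : Vd (k + 1) →L[ℂ] ℂ) (c : ℂ), l ∈ Γ → ((∀ y, ‖Complex.exp (L y + c)‖ = Real.exp (wt W y - wt W (y + l))) ∧
      ∀ y, ∀ x ∈ X, u x - y ∈ Λ → ∀ v : Fin (k + 2) → EN N, (∀ i, Pool.Agent.H14.PP.Tan X x (v i)) →
        (α j).toFun (y + l) x v = Complex.exp (L y + c) * (α j).toFun y x v) := by
    intro l
    by_cases hl : l ∈ Γ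
    · obtain ⟨L, c, h1, h2⟩ := hF.per j l hl
      exact ⟨L, c, fun _ => ⟨h1, h2⟩⟩
    · exact ⟨0, 0, fun h => absurd h hl⟩
  choose L c hLc using key
  refine ⟨fun l y => Complex.exp (L l y + c l), hF.lat, hF.pos, ?_, ?_, ?_⟩
  · intro l _ y
    exact (((L l).analyticAt y).add analyticAt_const).cexp
  · intro l hl y
    exact (hLc l hl).1 y
  · intro l hl l' hl' y
    have hll : l + l' ∈ Γ := Γ.add_mem hl hl'
    -- the difference of the exponents is a constant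
    have hre : ∀ z : Vd (k + 1), ((L (l + l') z + c (l + l')) - ((L l (z + l') + c l) + (L l' z + c l'))).re = 0 := by
      intro z
      have h1 := (hLc (l + l') hll).1 z
      have h2 := (hLc l hl).1 (z + l')
      have h3 := (hLc l' hl').1 z
      rw [Complex.norm_exp] at h1 h2 h3
      have e1 := Real.exp_injective h1
      have e2 := Real.exp_injective h2
      have e3 := Real.exp_injective h3
      have e4 : z + (l + l') = z + l' + l := by abel
      rw [e4] at e1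
      simp only [Complex.sub_re, Complex.add_re] at e1 e2 e3 ⊢
      linarith
    have hM : ∀ z : Vd (k + 1), L (l + l') z - L l z - L l' z = 0 := by
      intro z
      have h0 := hre 0
      have h1 := hre z
      have h2 := hre (Complex.I • z)
      simp only [map_add, map_zero, map_smul, smul_eq_mul, Complex.sub_re, Complex.add_re, Complex.mul_re, Complex.I_re, Complex.I_im, zero_mul, one_mul, zero_sub, zero_add] at h0 h1 h2
      apply Complex.ext
      · simp only [Complex.sub_re, Complex.zero_re]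
        linarith
      · simp only [Complex.sub_im, Complex.zero_im]
        linarith
    have hconst : ∀ z : Vd (k + 1), L (l + l') z + c (l + l') = ((L l (z + l') + c l) + (L l' z + c l')) + (c (l + l') - c l - c l' - L l l') := by
      intro z
      have h := hM z
      rw [map_add]
      linear_combination h
    have hd : Complex.exp (c (l + l') - c l - c l' - L l l') = 1 := by
      have h1 := (hLc (l + l') hll).2 y₁ x₁ hx₁ hu₁ v hv
      have hu₂ : u x₁ - (y₁ + l') ∈ Λ := by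
        rw [← sub_sub]
        exact Λ.sub_mem hu₁ (hF.le hl')
      have h2 := (hLc l hl).2 (y₁ + l') x₁ hx₁ hu₂ v hv
      have h3 := (hLc l' hl').2 y₁ x₁ hx₁ hu₁ v hv
      have e4 : y₁ + (l + l') = y₁ + l' + l := by abel
      have hE : Complex.exp (L (l + l') y₁ + c (l + l')) = Complex.exp (L l (y₁ + l') + c l) * Complex.exp (L l' y₁ + c l') *
          Complex.exp (c (l + l') - c l - c l' - L l l') := by
        rw [hconst y₁, Complex.exp_add (L l (y₁ + l') + c l + (L l' y₁ + c l')), Complex.exp_add (L l (y₁ + l') + c l)]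
      rw [e4, h2, h3, hE] at h1
      have hp1 : Complex.exp (L l (y₁ + l') + c l) ≠ 0 := Complex.exp_ne_zero _
      have hp2 : Complex.exp (L l' y₁ + c l') ≠ 0 := Complex.exp_ne_zero _
      have h5 : (Complex.exp (L l (y₁ + l') + c l) * Complex.exp (L l' y₁ + c l') * (α j).toFun y₁ x₁ v) *
          (Complex.exp (c (l + l') - c l - c l' - L l l') - 1) = 0 := by
        linear_combination -h1
      rcases mul_eq_zero.1 h5 with h6 | h6
      · exact absurd h6 (mul_ne_zero (mul_ne_zero hp1 hp2) hne)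
      · exact sub_eq_zero.1 h6
    show Complex.exp (L (l + l') y + c (l + l')) = Complex.exp (L l (y + l') + c l) * Complex.exp (L l' y + c l')
    rw [hconst y, Complex.exp_add (L l (y + l') + c l + (L l' y + c l')), hd, mul_one, Complex.exp_add (L l (y + l') + c l)]

end Pool.Agent.G4.H

end
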