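import Mathlib

/-! The parts of this file: H13.SM.Surf, H17BP.Germ, H17BP.Surf, H17BP.ChLem, H17BP.Model, H17BP.ResS, H23.Omega, H92.GGL.CasWei, H92.GT.Homogenize, H92.GT.Index, TG.XBl. -/

section

/-!
# The cone of a smooth projective surface is a `Surface`

`IsChart` and `Surface` are the definitions of `Pool.Agent.H17BP.Surf`.
-/

open MvPolynomial Topology Filter

noncomputable section

namespace Pool.Agent.H13.SM

variable {N : ℕ} {P : Ideal (MvPolynomial (Fin (N + 1)) ℂ)}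

/-- The affine cone of `P` without its vertex. -/
def cone (P : Ideal (MvPolynomial (Fin (N + 1)) ℂ)) : Set (Fin (N + 1) → ℂ) :=
  {x | x ≠ 0 ∧ ∀ Q ∈ P, eval x Q = 0}

end Pool.Agent.H13.SM

end
end

section

/-!
# Germs of analytic functions in two variables: definitions for the resolution theorem

Germs at `0` of analytic functions on `ℂ × ℂ`; local biholomorphic maps, point blow-ups.
-/

open Topology Filter

noncomputable section

namespace Pool.Agent.H17BP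

/-- The germ of `θ` at `0` is biholomorphic and fixes `0`. -/
structure Bihol (θ : ℂ × ℂ → ℂ × ℂ) : Prop where
  an : AnalyticAt ℂ θ 0
  zero : θ 0 = 0
  inv : ∃ θ' : ℂ × ℂ → ℂ × ℂ, AnalyticAt ℂ θ' 0 ∧ θ' 0 = 0 ∧ (∀ᶠ x in 𝓝 0, θ' (θ x) = x) ∧
    ∀ᶠ x in 𝓝 0, θ (θ' x) = x

/-- `S, T` are local coordinates at `0`. -/
def Coord (S T : ℂ × ℂ → ℂ) : Prop := Bihol fun x => (S x, T x)

/-- The germ `g` is a monomial in local coordinates times a unit. -/
def Mono (g : ℂ × ℂ → ℂ) : Prop :=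
  ∃ (S T : ℂ × ℂ → ℂ) (a b : ℕ) (u : ℂ × ℂ → ℂ), Coord S T ∧ AnalyticAt ℂ u 0 ∧ u 0 ≠ 0 ∧
    ∀ᶠ x in 𝓝 0, g x = S x ^ a * T x ^ b * u x

/-- The chart of the blow-up of `0` at the point `c` of the exceptional curve. -/
def bl (c : ℂ) (x : ℂ × ℂ) : ℂ × ℂ := (x.1, x.1 * (c + x.2))

/-- The germs of charts of the blow-up of `0`. -/
def BChart (β : ℂ × ℂ → ℂ × ℂ) : Prop :=
  ∃ θ θ' : ℂ × ℂ → ℂ × ℂ, Bihol θ ∧ Bihol θ' ∧ ∀ᶠ x in 𝓝 0, β x = θ (bl 0 (θ' x))

/-- After at most `n` point blow-ups over every point the germ `g` is a monomial times a unit. -/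
def ResN : ℕ → (ℂ × ℂ → ℂ) → Prop
  | 0 => Mono
  | n + 1 => fun g => Mono g ∨ ∀ β, BChart β → ResN n (g ∘ β)

/-! ### simple facts -/

end Pool.Agent.H17BP

end
end

section

/-!
# Smooth closed surfaces in a projective space, in terms of their cones

`V` is a finite dimensional complex normed space; a closed subset of `ℙ(V)` is given by its cone `X ⊆ V ∖ {0}`.
-/

open Topology Filter

noncomputable section

namespace Pool.Agent.H17BP

variable {V : Type} [NormedAddCommGroup V] [NormedSpace ℂ V]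

/-- The germ `σ : (ℂ², 0) → X` parametrises the surface given by the cone `X`, with the inverse `τ`. -/
structure IsChart (X : Set V) (σ : ℂ × ℂ → V) (τ : V → ℂ × ℂ) : Prop where
  σ_an : AnalyticAt ℂ σ 0
  σ_mem : ∀ᶠ p in 𝓝 (0 : ℂ × ℂ), σ p ∈ X
  ne : σ 0 ≠ 0
  τ_an : AnalyticAt ℂ τ (σ 0)
  left : ∀ᶠ p in 𝓝 (0 : ℂ × ℂ), τ (σ p) = p
  right : ∀ᶠ y in 𝓝 (σ 0), y ∈ X → ∃ c : ℂ, c ≠ 0 ∧ y = c • σ (τ y)
  inv : ∀ᶠ p in 𝓝 (σ 0, (1 : ℂ)), τ (p.2 • p.1) = τ p.1

/-- `X` is the cone of a smooth closed surface in `ℙ(V)`. -/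
structure Surface (X : Set V) : Prop where
  zero : (0 : V) ∉ X
  smul : ∀ x ∈ X, ∀ c : ℂ, c ≠ 0 → c • x ∈ X
  closed : ∀ x ∈ closure X, x ≠ 0 → x ∈ X
  chart : ∀ x ∈ X, ∃ σ τ, IsChart X σ τ ∧ σ 0 = x

/-- The tangent vectors of the cone `X` at `x`. -/
def Tan (X : Set V) (x : V) : Set V :=
  {v | ∃ γ : ℂ → V, AnalyticAt ℂ γ 0 ∧ (∀ᶠ z in 𝓝 (0 : ℂ), γ z ∈ X) ∧ γ 0 = x ∧ deriv γ 0 = v}

/-- The subset `B` of the surface `X` is given near `σ 0` by the equation `g = 0`. -/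
def LocalEq (B : Set V) (σ : ℂ × ℂ → V) (g : ℂ × ℂ → ℂ) : Prop :=
  AnalyticAt ℂ g 0 ∧ ∀ᶠ p in 𝓝 (0 : ℂ × ℂ), (σ p ∈ B ↔ g p = 0)

end Pool.Agent.H17BP

end
end

section

/-!
# Charts of a surface: nearby points, scaling, coordinate changes

* `IsChart.near`: all conditions hold for `p` near `0`: `AnalyticAt.eventually_analyticAt`, `eventually_eventually_nhds`, and
  `p ↦ σ p`, `p ↦ (σ p, 1)` are continuous at `0`.  (`τ (σ (p + x)) - p = x`; `σ (p + (τ y - p)) = σ (τ y)`.)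
* `IsChart.scale`: `y ↦ a⁻¹ • y` is continuous; `a⁻¹ • (c • y) = c • (a⁻¹ • y)`.
* `IsChart.comp`: `σ₁ = σ ∘ θ`, `τ₁ = θ' ∘ τ`; `σ₁ 0 = σ 0`, `τ (σ 0) = 0` (`left.self_of_nhds`), so `τ y → 0` for `y → σ 0`.
  `right`: `y = c • σ (τ y) = c • σ (θ (θ' (τ y)))`.
* `IsChart.trans`: `σ' 0 = a • σ 0`, `θ p = τ (a⁻¹ • σ' p)`, `θ' p = τ' (a • σ p)`.  `Pr (σ' p) (σ (θ p))`: `h.right` at
  `y = a⁻¹ • σ' p`.  `θ (θ' p) = p`: by `h'.right` at `y = a • σ p`: `a • σ p = c • σ' (θ' p)` with `c → 1` for `p → 0`: choose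
  a continuous linear form `Λ` with `Λ (σ 0) ≠ 0` (`exists_dual_vector`), `c = Λ (a • σ p) / Λ (σ' (θ' p))`; so
  `a⁻¹ • σ' (θ' p) = c⁻¹ • σ p` and `τ (c⁻¹ • σ p) = τ (σ p) = p` by `h.inv` and `h.left`.  `θ' (θ p) = p` by symmetry (it is
  the same statement with the roles of the two charts exchanged: prove it as an auxiliary lemma).
-/

open Topology Filter

noncomputable section

namespace Pool.Agent.H17BP

variable {V : Type} [NormedAddCommGroup V] [NormedSpace ℂ V] {X : Set V} {σ σ' : ℂ × ℂ → V} {τ τ' : V → ℂ × ℂ}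

theorem IsChart.scale (h : IsChart X σ τ) (hX : ∀ x ∈ X, ∀ c : ℂ, c ≠ 0 → c • x ∈ X) {a : ℂ} (ha : a ≠ 0) :
    IsChart X (fun p => a • σ p) (fun y => τ (a⁻¹ • y)) := by
  have e1 : a⁻¹ • (a • σ 0) = σ 0 := by rw [smul_smul, inv_mul_cancel₀ ha, one_smul]
  have e2 : Tendsto (fun y : V => a⁻¹ • y) (𝓝 (a • σ 0)) (𝓝 (σ 0)) := by
    have := (continuous_const_smul a⁻¹).tendsto (a • σ 0)
    rwa [e1] at this
  refine ⟨h.σ_an.const_smul (c := a), ?_, smul_ne_zero ha h.ne, ?_, ?_, ?_, ?_⟩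
  · filter_upwards [h.σ_mem] with p hp
    exact hX _ hp _ ha
  · refine AnalyticAt.comp (g := τ) (f := fun y : V => a⁻¹ • y) ?_ (analyticAt_id.const_smul (c := a⁻¹))
    rw [e1]
    exact h.τ_an
  · filter_upwards [h.left] with p hp
    rw [smul_smul, inv_mul_cancel₀ ha, one_smul, hp]
  · filter_upwards [e2.eventually h.right] with y hy hyX
    obtain ⟨c, hc, hy2⟩ := hy (hX _ hyX _ (inv_ne_zero ha))
    refine ⟨c, hc, ?_⟩
    rw [smul_comm, ← hy2, smul_smul, mul_inv_cancel₀ ha, one_smul]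
  · have e3 : Tendsto (fun p : V × ℂ => (a⁻¹ • p.1, p.2)) (𝓝 (a • σ 0, (1 : ℂ))) (𝓝 (σ 0, (1 : ℂ))) := by
      have e4 : Continuous fun p : V × ℂ => (a⁻¹ • p.1, p.2) := (continuous_fst.const_smul a⁻¹).prodMk continuous_snd
      have := e4.tendsto (a • σ 0, (1 : ℂ))
      simpa only [e1] using this
    filter_upwards [e3.eventually h.inv] with p hp
    rw [smul_comm]
    exact hp

end Pool.Agent.H17BP

end
end

section

/-!
# Holomorphic curves in a closed surface, the induction hypothesis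

Holomorphic maps into `ℙ(V)` are given by functions with values in `V ∖ {0}`, which are not required to be
continuous, see `HolP`.
-/

open Topology Filter

noncomputable section

namespace Pool.Agent.H17BP

variable {V : Type} [NormedAddCommGroup V] [NormedSpace ℂ V]

/-- The two vectors are proportional. -/
def Pr (x y : V) : Prop := ∃ c : ℂ, c ≠ 0 ∧ x = c • y

/-- At the point `x` the curve `B` has a local equation which becomes a monomial after at most `n` blow-ups over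
every point. -/
def ResAt (X B : Set V) (x : V) (n : ℕ) : Prop :=
  ∃ σ τ g, IsChart X σ τ ∧ σ 0 = x ∧ LocalEq B σ g ∧ ResN n g

end Pool.Agent.H17BP

end
end

section

/-!
# The resolution number at a point of the surface

* `ResAt.chart`: let `σ, τ, g` be as in `ResAt`; `σ' p = c • σ (θ p)`, `c ≠ 0` near `0` (`IsChart.trans`).  As `B` is a cone,
  `σ' p ∈ B ↔ σ (θ p) ∈ B ↔ g (θ p) = 0`: `g ∘ θ` is a local equation, `ResN.comp`.
* `ResAt.pr`: `IsChart.scale` of the chart (the value at `0` is `a • x = y`) and `ResAt.chart`.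
* `ResAt.near`: for `y ∈ X` near `x`: `y = c • σ (τ y)`, `p = τ y` near `0` (`τ x = 0`); `p ≠ 0` because `y` is not proportional
  to `x = σ 0`.  `IsChart.near`: `x ↦ σ (p + x)` is a chart at `σ p`, `g (p + ·)` a local equation
  (`eventually_eventually_nhds`), `Mono` by `ResN.near`.  So `ResAt X B (σ p) 0`, then `ResAt.pr`.
* `exists_resAt`: choose a chart `σ` at `x` (`Surface.chart`) and `i` (`Eqs.gen`); `g p = Q i (σ p)` is analytic at `0`, and for
  `p` near `0`: `σ p ∈ B ↔ g p = 0` (`mem_iff`, `gen`); `g` does not vanish identically near `0` by `thin`; `exists_resN`.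
* `ResAt.of_notMem`: `x ∉ B`: with `i` and `g` as before, `g 0 = Q i x ≠ 0` (otherwise `x ∈ B` by `gen`,
  `self_of_nhds`), so `Mono g` with `a = b = 0`.
* `ResAt.nodal`: `g = S^a T^b u`.  Let `θ = (S, T)`, `θ'` the inverse germ; the chart `σ ∘ θ'` (`IsChart.comp`), in
  which `B` is given by `g (θ' x) = x.1^a x.2^b u(θ' x) = 0`.  If `a = b = 0`: not in `B` near `0`; `b = 0`, `a ≠ 0`: `x.1 = 0`;
  `a ≠ 0`, `b ≠ 0`: `x.1 x.2 = 0`; `a = 0`, `b ≠ 0`: exchange `S`, `T` (`Coord.symm`).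
-/

open Topology Filter

noncomputable section

namespace Pool.Agent.H17BP

variable {V : Type} [NormedAddCommGroup V] [NormedSpace ℂ V] {X B : Set V} {σ' : ℂ × ℂ → V} {τ' : V → ℂ × ℂ}
  {x y : V} {n k : ℕ}

private theorem ResS_pr_mem (hB : ∀ x ∈ B, ∀ c : ℂ, c ≠ 0 → c • x ∈ B) (h : Pr x y) : x ∈ B ↔ y ∈ B := by
  obtain ⟨c, hc, rfl⟩ := h
  refine ⟨fun h1 => ?_, fun h1 => hB _ h1 c hc⟩
  have h2 := hB _ h1 c⁻¹ (inv_ne_zero hc)
  rwa [smul_smul, inv_mul_cancel₀ hc, one_smul] at h2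

theorem ResAt.pr (hX : ∀ x ∈ X, ∀ c : ℂ, c ≠ 0 → c • x ∈ X) (hB : ∀ x ∈ B, ∀ c : ℂ, c ≠ 0 → c • x ∈ B)
    (h : ResAt X B x n) (hy : Pr y x) : ResAt X B y n := by
  obtain ⟨σ, τ, g, hc, hx, hg, hr⟩ := h
  obtain ⟨a, ha, rfl⟩ := hy
  refine ⟨fun p => a • σ p, fun y => τ (a⁻¹ • y), g, hc.scale hX ha, ?_, ⟨hg.1, ?_⟩, hr⟩
  · show a • σ 0 = a • x
    rw [hx]
  · filter_upwards [hg.2] with p hp
    rw [ResS_pr_mem hB (⟨a, ha, rfl⟩ : Pr (a • σ p) (σ p))]
    exact hp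

end Pool.Agent.H17BP

end
end

section

set_option linter.style.haveILetI false

noncomputable section

namespace Pool.Agent.H23

open scoped TensorProduct

variable {K : Type*} [Field K] [Algebra ℂ K]

lemma exists_poly_of_basis {σ : Type*} {g : σ → K} (hg : IsTranscendenceBasis ℂ g) (a : K) :
    ∃ F : Polynomial (MvPolynomial σ ℂ), F ≠ 0 ∧
      F.eval₂ (MvPolynomial.aeval g).toRingHom a = 0 := by
  have h1 := hg.isAlgebraic
  obtain ⟨p, hp, hpa⟩ := h1.isAlgebraic a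
  let e : Algebra.adjoin ℂ (Set.range g) →+* MvPolynomial σ ℂ :=
    (hg.1.aevalEquiv.symm : Algebra.adjoin ℂ (Set.range g) →+* MvPolynomial σ ℂ)
  have he : (MvPolynomial.aeval g).toRingHom.comp e =
      algebraMap (Algebra.adjoin ℂ (Set.range g)) K := by
    ext x
    have h2 := hg.1.algebraMap_aevalEquiv (hg.1.aevalEquiv.symm x)
    rw [AlgEquiv.apply_symm_apply] at h2
    exact h2.symm
  refine ⟨p.map e, ?_, ?_⟩
  · rwa [Ne, Polynomial.map_eq_zero_iff]
    exact hg.1.aevalEquiv.symm.injective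
  · rw [Polynomial.eval₂_map, he]
    exact hpa

/-- For a transcendence basis `g` of `K/ℂ`, the differentials `dg i` form a basis of `Ω_{K/ℂ}`. -/
theorem exists_basis_kaehler {σ : Type*} {g : σ → K} (hg : IsTranscendenceBasis ℂ g) :
    ∃ b : Module.Basis σ K Ω[K⁄ℂ], ∀ i, b i = KaehlerDifferential.D ℂ K (g i) := by
  classical
  letI alg1 : Algebra (MvPolynomial σ ℂ) K := (MvPolynomial.aeval g).toRingHom.toAlgebra
  have hmap : ∀ r, algebraMap (MvPolynomial σ ℂ) K r = MvPolynomial.aeval g r := fun _ => rfl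
  haveI : FaithfulSMul (MvPolynomial σ ℂ) K := by
    rw [faithfulSMul_iff_algebraMap_injective]
    exact hg.1
  haveI : IsScalarTower ℂ (MvPolynomial σ ℂ) K := by
    apply IsScalarTower.of_algebraMap_eq
    intro c
    rw [hmap, MvPolynomial.algebraMap_eq, MvPolynomial.aeval_C]
  letI alg2 : Algebra (FractionRing (MvPolynomial σ ℂ)) K := FractionRing.liftAlgebra _ K
  haveI : IsScalarTower (MvPolynomial σ ℂ) (FractionRing (MvPolynomial σ ℂ)) K :=
    inferInstance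
  haveI : Algebra.IsAlgebraic (MvPolynomial σ ℂ) K := by
    refine ⟨fun a => ?_⟩
    obtain ⟨F, h1, h2⟩ := exists_poly_of_basis hg a
    exact ⟨F, h1, h2⟩
  haveI : Algebra.IsAlgebraic (FractionRing (MvPolynomial σ ℂ)) K :=
    (IsFractionRing.comap_isAlgebraic_iff (A := (MvPolynomial σ ℂ))).1 this
  haveI : CharZero (FractionRing (MvPolynomial σ ℂ)) :=
    algebraRat.charZero _
  haveI : Algebra.IsSeparable (FractionRing (MvPolynomial σ ℂ)) K := inferInstance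
  haveI : Algebra.FormallyEtale (MvPolynomial σ ℂ) (FractionRing (MvPolynomial σ ℂ)) :=
    Algebra.FormallyEtale.of_isLocalization (nonZeroDivisors _)
  haveI : Algebra.FormallyEtale (FractionRing (MvPolynomial σ ℂ)) K :=
    Algebra.FormallyEtale.of_isSeparable _ K
  haveI : Algebra.FormallyEtale (MvPolynomial σ ℂ) K :=
    Algebra.FormallyEtale.comp _ (FractionRing (MvPolynomial σ ℂ)) _
  let e := KaehlerDifferential.tensorKaehlerEquivOfFormallyEtale ℂ (MvPolynomial σ ℂ) K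
  let b := ((KaehlerDifferential.mvPolynomialBasis ℂ σ).baseChange K).map e
  refine ⟨b, fun i => ?_⟩
  simp only [b, Module.Basis.map_apply, Module.Basis.baseChange_apply,
    KaehlerDifferential.mvPolynomialBasis_apply]
  rw [KaehlerDifferential.tensorKaehlerEquivOfFormallyEtale_apply]
  rw [KaehlerDifferential.mapBaseChange_tmul, one_smul, KaehlerDifferential.map_D, hmap,
    MvPolynomial.aeval_X]

end Pool.Agent.H23

end
end

section

/-!
# A function which takes every value finitely often near a puncture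
-/

open Complex Metric Set Topology Filter

namespace Pool.Agent.H92.GGL

lemma isPreconnected_punctured (R : ℝ) : IsPreconnected {z : ℂ | 0 < ‖z‖ ∧ ‖z‖ < R} := by
  rcases le_or_gt R 0 with hR | hR
  · have : {z : ℂ | 0 < ‖z‖ ∧ ‖z‖ < R} = ∅ := by
      ext z
      simp only [mem_ofPred_eq, mem_empty_iff_false, iff_false, not_and, not_lt]
      intro h
      linarith
    rw [this]
    exact isPreconnected_empty
  · have h1 : {z : ℂ | 0 < ‖z‖ ∧ ‖z‖ < R} = exp '' {τ : ℂ | τ.re < Real.log R} := by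
      ext z
      constructor
      · rintro ⟨h1, h2⟩
        refine ⟨log z, ?_, exp_log (norm_pos_iff.mp h1)⟩
        rw [mem_ofPred_eq, log_re]
        exact Real.log_lt_log h1 h2
      · rintro ⟨τ, hτ, rfl⟩
        rw [mem_ofPred_eq, norm_exp]
        refine ⟨Real.exp_pos _, ?_⟩
        rw [← Real.exp_log hR]
        exact Real.exp_lt_exp.mpr hτ
    rw [h1]
    exact ((convex_halfSpace_re_lt _).isPreconnected).image _ continuous_exp.continuousOn

lemma isOpen_punctured (R : ℝ) : IsOpen {z : ℂ | 0 < ‖z‖ ∧ ‖z‖ < R} :=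
  (isOpen_lt continuous_const continuous_norm).inter (isOpen_lt continuous_norm continuous_const)

lemma punctured_mem {R : ℝ} (hR : 0 < R) : {z : ℂ | 0 < ‖z‖ ∧ ‖z‖ < R} ∈ 𝓝[≠] (0 : ℂ) := by
  have h1 : Metric.ball (0 : ℂ) R ∈ 𝓝 (0 : ℂ) := Metric.ball_mem_nhds _ hR
  filter_upwards [mem_nhdsWithin_of_mem_nhds h1, self_mem_nhdsWithin] with z h2 h3
  exact ⟨norm_pos_iff.mpr h3, by simpa using h2⟩

/-- A bounded holomorphic function on a punctured disc is meromorphic at the puncture. -/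
lemma meromorphicAt_of_bounded {u : ℂ → ℂ} {ε M : ℝ} (hε : 0 < ε)
    (hu : ∀ z, 0 < ‖z‖ → ‖z‖ < ε → AnalyticAt ℂ u z) (hM : ∀ z, 0 < ‖z‖ → ‖z‖ < ε → ‖u z‖ ≤ M) :
    ∃ w : ℂ → ℂ, AnalyticAt ℂ w 0 ∧ ∀ z, z ≠ 0 → w z = u z := by
  have h1 : Metric.ball (0 : ℂ) ε ∈ 𝓝 (0 : ℂ) := Metric.ball_mem_nhds _ hε
  have hmem : ∀ z ∈ Metric.ball (0 : ℂ) ε \ {0}, 0 < ‖z‖ ∧ ‖z‖ < ε := by
    intro z hz
    refine ⟨norm_pos_iff.mpr hz.2, by simpa using hz.1⟩
  have h2 := differentiableOn_update_limUnder_of_bddAbove h1 (f := u)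
    (fun z hz => (hu z (hmem z hz).1 (hmem z hz).2).differentiableAt.differentiableWithinAt) (by
      refine ⟨M, ?_⟩
      rintro _ ⟨z, hz, rfl⟩
      exact hM z (hmem z hz).1 (hmem z hz).2)
  refine ⟨_, (h2.analyticAt h1), fun z hz => ?_⟩
  rw [Function.update_of_ne hz]

/-- **A theorem of Casorati–Weierstrass type.** -/
theorem meromorphicAt_of_omits {u : ℂ → ℂ} {ε : ℝ} (hε : 0 < ε)
    (hu : ∀ z, 0 < ‖z‖ → ‖z‖ < ε → AnalyticAt ℂ u z)
    (hom : ∀ c, ∃ δ : ℝ, 0 < δ ∧ ∀ z, 0 < ‖z‖ → ‖z‖ < δ → u z ≠ c) : MeromorphicAt u 0 := by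
  set A : ℕ → Set ℂ := fun n => {z : ℂ | 0 < ‖z‖ ∧ ‖z‖ < ε / (n + 1)} with hA
  have hεn : ∀ n : ℕ, 0 < ε / (n + 1) := fun n => by positivity
  have hεle : ∀ n : ℕ, ε / (n + 1) ≤ ε := fun n => by
    apply div_le_self hε.le
    have : (0 : ℝ) ≤ n := Nat.cast_nonneg n
    linarith
  have hAsub : ∀ n, ∀ z ∈ A n, 0 < ‖z‖ ∧ ‖z‖ < ε := fun n z hz =>
    ⟨hz.1, hz.2.trans_le (hεle n)⟩
  by_cases hdense : ∀ n, Dense (u '' A n)
  · exfalso
    have hopen : ∀ n, IsOpen (u '' A n) := by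
      intro n
      have han : AnalyticOnNhd ℂ u (A n) := fun z hz => hu z (hAsub n z hz).1 (hAsub n z hz).2
      rcases han.is_constant_or_isOpen (isPreconnected_punctured _) with ⟨w, hw⟩ | hop
      · exfalso
        obtain ⟨δ, hδ, hδu⟩ := hom w
        obtain ⟨z, hz1, hz2⟩ := Filter.nonempty_of_mem
          (Filter.inter_mem (punctured_mem (hεn n)) (punctured_mem hδ))
        exact hδu z hz2.1 hz2.2 (hw z hz1)
      · exact hop _ subset_rfl (isOpen_punctured _)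
    have hD : Dense (⋂ n, u '' A n) := dense_iInter_of_isOpen hopen hdense
    obtain ⟨c, hc⟩ := hD.nonempty
    rw [mem_iInter] at hc
    obtain ⟨δ, hδ, hδu⟩ := hom c
    obtain ⟨n, hn⟩ := exists_nat_gt (ε / δ)
    obtain ⟨z, hz, hzc⟩ := hc n
    refine hδu z hz.1 (hz.2.trans ?_) hzc
    rw [div_lt_iff₀ (by positivity)]
    rw [div_lt_iff₀ hδ] at hn
    nlinarith
  · push Not at hdense
    obtain ⟨n, hn⟩ := hdense
    obtain ⟨c, hc⟩ : ∃ c, c ∉ closure (u '' A n) := by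
      by_contra h
      push Not at h
      exact hn h
    rw [Metric.mem_closure_iff] at hc
    push Not at hc
    obtain ⟨η, hη, hηu⟩ := hc
    have hlow : ∀ z, 0 < ‖z‖ → ‖z‖ < ε / (n + 1) → η ≤ ‖u z - c‖ := by
      intro z h1 h2
      have := hηu _ ⟨z, ⟨h1, h2⟩, rfl⟩
      rwa [dist_comm, dist_eq_norm] at this
    have hne : ∀ z, 0 < ‖z‖ → ‖z‖ < ε / (n + 1) → u z - c ≠ 0 := by
      intro z h1 h2 h0
      have := hlow z h1 h2
      rw [h0, norm_zero] at this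
      linarith
    obtain ⟨w, hw, hwu⟩ := meromorphicAt_of_bounded (u := fun z => (u z - c)⁻¹) (M := η⁻¹) (hεn n)
      (fun z h1 h2 => ((hu z h1 (h2.trans_le (hεle n))).sub analyticAt_const).inv (hne z h1 h2))
      (fun z h1 h2 => by
        rw [norm_inv]
        exact inv_anti₀ hη (hlow z h1 h2))
    have h1 : MeromorphicAt (fun z => (w z)⁻¹ + c) 0 :=
      (hw.meromorphicAt.inv).add (MeromorphicAt.const c 0)
    refine h1.congr ?_
    filter_upwards [self_mem_nhdsWithin] with z hz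
    rw [hwu z hz]
    simp

end Pool.Agent.H92.GGL

end

section

/-!
# Homogenisation
-/

open MvPolynomial

noncomputable section

namespace Pool.Agent.H92.GT

variable {r : ℕ}

/-- The homogenised polynomial. -/
def hmg {B : Type} [CommRing B] [Algebra ℂ B] (p : MvPolynomial (Fin r) ℂ) (A : Fin (r + 1) → B) :
    B :=
  ∑ m ∈ p.support, algebraMap ℂ B (p.coeff m) *
    (A 0 ^ (p.totalDegree - ∑ i, m i) * ∏ i : Fin r, A (Fin.succ i) ^ m i)

lemma map_hmg {B B' : Type} [CommRing B] [Algebra ℂ B] [CommRing B'] [Algebra ℂ B']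
    (f : B →ₐ[ℂ] B') (p : MvPolynomial (Fin r) ℂ) (A : Fin (r + 1) → B) :
    f (hmg p A) = hmg p fun i => f (A i) := by
  unfold hmg
  rw [map_sum]
  refine Finset.sum_congr rfl fun m _ => ?_
  rw [map_mul, map_mul, map_pow, map_prod, AlgHom.commutes]
  congr 2
  exact Finset.prod_congr rfl fun i _ => map_pow _ _ _

lemma hmg_eq {K : Type} [Field K] [Algebra ℂ K] (p : MvPolynomial (Fin r) ℂ)
    {A : Fin (r + 1) → K} (h : A 0 ≠ 0) :
    hmg p A = A 0 ^ p.totalDegree * aeval (fun i : Fin r => A (Fin.succ i) / A 0) p := by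
  unfold hmg
  rw [aeval_def, eval₂_eq', Finset.mul_sum]
  refine Finset.sum_congr rfl fun m hm => ?_
  have h1 : ∑ i, m i ≤ p.totalDegree := by
    have h2 := le_totalDegree hm
    rwa [Finsupp.sum_fintype _ _ (fun _ => rfl)] at h2
  have h3 : A 0 ^ p.totalDegree = A 0 ^ (p.totalDegree - ∑ i, m i) * A 0 ^ (∑ i, m i) := by
    rw [← pow_add, Nat.sub_add_cancel h1]
  have h4 : ∏ i : Fin r, (A (Fin.succ i) / A 0) ^ m i =
      (∏ i : Fin r, A (Fin.succ i) ^ m i) / A 0 ^ (∑ i, m i) := by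
    rw [Finset.prod_congr rfl fun i _ => div_pow (A (Fin.succ i)) (A 0) (m i),
      Finset.prod_div_distrib, Finset.prod_pow_eq_pow_sum]
  rw [h3, h4]
  field_simp

lemma hmg_isWeightedHomogeneous {σ : Type} {w : σ → ℕ} {d : ℕ} (p : MvPolynomial (Fin r) ℂ)
    {A : Fin (r + 1) → MvPolynomial σ ℂ} (hA : ∀ i, IsWeightedHomogeneous w (A i) d) :
    IsWeightedHomogeneous w (hmg p A) (p.totalDegree * d) := by
  unfold hmg
  refine IsWeightedHomogeneous.sum _ _ _ fun m hm => ?_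
  have h1 : ∑ i, m i ≤ p.totalDegree := by
    have h2 := le_totalDegree hm
    rwa [Finsupp.sum_fintype _ _ (fun _ => rfl)] at h2
  have h2 := (isWeightedHomogeneous_C w (p.coeff m)).mul
    (((hA 0).pow (p.totalDegree - ∑ i, m i)).mul
      (IsWeightedHomogeneous.prod Finset.univ (fun i : Fin r => A (Fin.succ i) ^ m i)
        (fun i => m i * d) fun i _ => by
          have h3 := (hA (Fin.succ i)).pow (m i)
          rwa [smul_eq_mul] at h3))
  have h3 : 0 + ((p.totalDegree - ∑ i, m i) • d + ∑ i : Fin r, m i * d) = p.totalDegree * d := by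
    rw [zero_add, smul_eq_mul, ← Finset.sum_mul, ← add_mul, Nat.sub_add_cancel h1]
  rw [h3] at h2
  exact h2

end Pool.Agent.H92.GT

end
end

section

/-!
# Transcendence bases among the coordinates
-/

noncomputable section

namespace Pool.Agent.H92.GT

open scoped IntermediateField.algebraAdjoinAdjoin in
/-- If `K` is algebraic over `ℂ(x)` there is a transcendence basis among the coordinates. -/
theorem exists_index {K : Type} [Field K] [Algebra ℂ K] {k n : ℕ} {x : Fin n → K}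
    (halg : Algebra.IsAlgebraic (IntermediateField.adjoin ℂ (Set.range x)) K) {z : Fin k → K}
    (hz : IsTranscendenceBasis ℂ z) :
    ∃ J : Fin k → Fin n, IsTranscendenceBasis ℂ fun i => x (J i) := by
  have h1 : Algebra.IsAlgebraic (Algebra.adjoin ℂ (Set.range x)) K :=
    (IsFractionRing.comap_isAlgebraic_iff (A := Algebra.adjoin ℂ (Set.range x))
      (K := IntermediateField.adjoin ℂ (Set.range x)) (C := K)).mpr halg
  obtain ⟨u, hu, hub⟩ := exists_isTranscendenceBasis_subset (R := ℂ) (Set.range x)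
  have h2 := hub.cardinalMk_eq hz
  rw [Cardinal.mk_fin] at h2
  have h3 : Finite u := by
    rw [← Cardinal.lt_aleph0_iff_finite, h2]
    exact Cardinal.natCast_lt_aleph0
  have h4 : Nat.card u = k := by
    rw [Nat.card, h2]
    simp
  let eqv : Fin k ≃ u := (finCongr h4.symm).trans (Finite.equivFin u).symm
  choose J hJ using fun i : Fin k => hu (eqv i).2
  refine ⟨J, ?_⟩
  have h5 : (fun i => x (J i)) = (Subtype.val : u → K) ∘ eqv := funext hJ
  rw [h5, isTranscendenceBasis_equiv]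
  exact hub

end Pool.Agent.H92.GT

end
end

section

/-!
# TG XBl: a bounded holomorphic function which vanishes on a relatively dense subgroup decays on large discs (copy of EL Bl, without discreteness)

Let `R₀ > 0` be the covering radius of `Γ` (`Lat.cocompact`): every disc of radius `R₀` contains a point of `Γ`.  `r₀ = 4 R₀`.
(1) Local inequality: `J` holomorphic on a neighbourhood of `closedBall z₀ r₀` (or continuous there and holomorphic inside), `|J| ≤ m` on the circle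
`sphere z₀ r₀`, `J l = 0` for a point `l` with `‖l - z₀‖ ≤ R₀`: then `|J z₀| ≤ m / 4`.  [The function `J z (r₀² - conj (l - z₀) (z - z₀)) / (r₀ (z - l))`
is holomorphic (removable singularity: `dslope J l`), has modulus `|J z|` on the circle; at `z₀` it is `J z₀ r₀² / (r₀ (z₀ - l))`, modulus
`|J z₀| r₀ / ‖z₀ - l‖ ≥ 4 |J z₀|`.  If `l = z₀`, `J z₀ = 0`.]  Simpler variant without the Blaschke factor: `G z = dslope J l z`, on the circle
`|G| ≤ m / (r₀ - R₀)`, so `|J z₀| = |G z₀| ‖z₀ - l‖ ≤ m R₀ / (r₀ - R₀) = m / 3` by the maximum principle (`J l = 0`): enough.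
(2) With `κ = 1 / (32 R₀²)`... : let `κ r₀² ≤ 1/2`, so `exp (κ r₀²) ≤ 2`, `θ = 2/3`.  For every `c` and `z₀` as in (1):
`|J z₀| exp (-κ ‖z₀ - c‖²) ≤ θ sup_{z ∈ sphere z₀ r₀} |J z| exp (-κ ‖z - c‖²)`: apply (1) to the function `J z * exp (-2 κ (z - z₀) conj (z₀ - c))`
and use `‖z - c‖² = ‖z₀ - c‖² + 2 re ((z - z₀) conj (z₀ - c)) + r₀²` on the circle.
(3) Let `z₁ ∈ ball c R`, `R ≥ r₀`, `‖z₁ - c‖ < R' < R`.  The continuous function `Φ z = |J z| exp (-κ ‖z - c‖²)` has a maximum on `closedBall c R'` at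
a point `z₀`.  If `‖z₀ - c‖ ≤ R' - r₀` then `Φ z₀ ≤ θ Φ z₀` by (2), so `Φ z₀ = 0` and `J z₁ = 0`.  Otherwise `Φ z₁ ≤ Φ z₀ ≤ C exp (-κ (R' - r₀)²)`
(for `R' ≥ r₀`), so `|J z₁| ≤ C exp (-κ ((R' - r₀)² - ‖z₁ - c‖²))`; let `R' → R`.
-/

set_option autoImplicit false

open Topology Filter Metric

namespace Pool.Agent.TG

/-- step (1): a holomorphic function which vanishes at a point close to the centre is small at the centre -/
private theorem xbl_local {U : Set ℂ} (hU : IsOpen U) {G : ℂ → ℂ} (hG : DifferentiableOn ℂ G U) {z₀ l : ℂ} {R₀ m : ℝ} (hR₀ : 0 < R₀)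
    (hsub : closedBall z₀ (4 * R₀) ⊆ U) (hl : ‖z₀ - l‖ ≤ R₀) (hGl : G l = 0)
    (hm : ∀ z ∈ sphere z₀ (4 * R₀), ‖G z‖ ≤ m) : ‖G z₀‖ ≤ m / 3 := by
  have hlball : l ∈ ball z₀ (4 * R₀) := by
    rw [mem_ball, dist_comm, dist_eq_norm]
    linarith
  have hlU : l ∈ U := hsub (ball_subset_closedBall hlball)
  have hlN : U ∈ 𝓝 l := hU.mem_nhds hlU
  have hD : DifferentiableOn ℂ (dslope G l) U := (Complex.differentiableOn_dslope hlN).2 hG
  have hDC : DiffContOnCl ℂ (dslope G l) (ball z₀ (4 * R₀)) := by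
    apply DifferentiableOn.diffContOnCl
    exact hD.mono (closure_ball_subset_closedBall.trans hsub)
  have hfac : ∀ z, G z = (z - l) * dslope G l z := by
    intro z
    have := sub_smul_dslope G l z
    rw [hGl, sub_zero, smul_eq_mul] at this
    exact this.symm
  have hbound : ∀ z ∈ frontier (ball z₀ (4 * R₀)), ‖dslope G l z‖ ≤ m / (3 * R₀) := by
    intro z hz
    have hz' : z ∈ sphere z₀ (4 * R₀) := frontier_ball_subset_sphere hz
    have hzn : ‖z - z₀‖ = 4 * R₀ := by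
      rw [mem_sphere, dist_eq_norm] at hz'
      exact hz'
    have hzl : 3 * R₀ ≤ ‖z - l‖ := by
      have h1 : ‖z - z₀‖ ≤ ‖z - l‖ + ‖z₀ - l‖ := by
        have : z - z₀ = (z - l) - (z₀ - l) := by ring
        rw [this]
        exact norm_sub_le _ _
      linarith
    have h2 := hm z hz'
    rw [hfac z, norm_mul] at h2
    rw [le_div_iff₀ (by positivity)]
    calc ‖dslope G l z‖ * (3 * R₀) ≤ ‖dslope G l z‖ * ‖z - l‖ := by gcongr
      _ = ‖z - l‖ * ‖dslope G l z‖ := mul_comm _ _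
      _ ≤ m := h2
  have hmax : ‖dslope G l z₀‖ ≤ m / (3 * R₀) := by
    apply Complex.norm_le_of_forall_mem_frontier_norm_le (isBounded_ball) hDC hbound
    exact subset_closure (mem_ball_self (by positivity))
  rw [hfac z₀, norm_mul]
  have h0 : 0 ≤ m / (3 * R₀) := (norm_nonneg _).trans hmax
  calc ‖z₀ - l‖ * ‖dslope G l z₀‖ ≤ R₀ * (m / (3 * R₀)) := by gcongr
    _ = m / 3 := by field_simp

/-- step (2): the weighted modulus cannot have a positive maximum at a point far from the boundary -/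
private theorem xbl_weight {Γ : AddSubgroup ℂ} {R₀ : ℝ} (hR₀ : 0 < R₀) (hcov : ∀ z : ℂ, ∃ l ∈ Γ, ‖z - l‖ ≤ R₀) {J : ℂ → ℂ} {c z₀ : ℂ} {R R' : ℝ}
    (hR' : R' < R) (hJ : DifferentiableOn ℂ J (ball c R)) (hΓ : ∀ l ∈ Γ, l ∈ ball c R → J l = 0)
    (hz₀ : ‖z₀ - c‖ ≤ R' - 4 * R₀)
    (hmax : ∀ z ∈ closedBall c R', ‖J z‖ * Real.exp (-(1 / (32 * R₀ ^ 2)) * ‖z - c‖ ^ 2) ≤
      ‖J z₀‖ * Real.exp (-(1 / (32 * R₀ ^ 2)) * ‖z₀ - c‖ ^ 2)) : ‖J z₀‖ = 0 := by
  set κ : ℝ := 1 / (32 * R₀ ^ 2) with hκ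
  have hκ0 : 0 < κ := by positivity
  have hκr : κ * (4 * R₀) ^ 2 = 1 / 2 := by
    rw [hκ]
    field_simp
    norm_num
  have hsub' : closedBall z₀ (4 * R₀) ⊆ closedBall c R' := by
    apply closedBall_subset_closedBall'
    rw [dist_eq_norm]
    linarith
  have hsub : closedBall z₀ (4 * R₀) ⊆ ball c R := hsub'.trans (closedBall_subset_ball hR')
  obtain ⟨l, hlΓ, hl⟩ := hcov z₀
  have hlball : l ∈ ball c R := by
    apply hsub
    rw [mem_closedBall, dist_comm, dist_eq_norm]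
    linarith
  set w : ℂ := (starRingEnd ℂ) (z₀ - c) with hw
  set G : ℂ → ℂ := fun z => J z * Complex.exp (((-2 * κ : ℝ) : ℂ) * ((z - z₀) * w)) with hGdef
  have hGd : DifferentiableOn ℂ G (ball c R) := by
    apply hJ.mul
    apply Differentiable.differentiableOn
    fun_prop
  have hGl : G l = 0 := by
    simp only [hGdef, hΓ l hlΓ hlball, zero_mul]
  have hG0 : ‖G z₀‖ = ‖J z₀‖ := by
    simp [hGdef]
  have hnG : ∀ z, ‖G z‖ = ‖J z‖ * Real.exp (-2 * κ * ((z - z₀) * w).re) := by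
    intro z
    simp only [hGdef, norm_mul, Complex.norm_exp, Complex.re_ofReal_mul]
  have hexp : ∀ z, ‖z - c‖ ^ 2 = ‖z₀ - c‖ ^ 2 + 2 * ((z - z₀) * w).re + ‖z - z₀‖ ^ 2 := by
    intro z
    rw [hw, ← Complex.normSq_eq_norm_sq, ← Complex.normSq_eq_norm_sq, ← Complex.normSq_eq_norm_sq]
    simp only [Complex.normSq_apply, Complex.mul_re, Complex.sub_re, Complex.sub_im, Complex.conj_re, Complex.conj_im, map_sub]
    ring
  set M : ℝ := ‖J z₀‖ * Real.exp (-κ * ‖z₀ - c‖ ^ 2) with hM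
  have hM0 : 0 ≤ M := by positivity
  have hmb : ∀ z ∈ sphere z₀ (4 * R₀), ‖G z‖ ≤ M * (Real.exp (κ * ‖z₀ - c‖ ^ 2) * Real.exp (1 / 2)) := by
    intro z hz
    have h1 := hmax z (hsub' (sphere_subset_closedBall hz))
    have hzn : ‖z - z₀‖ = 4 * R₀ := by
      rw [mem_sphere, dist_eq_norm] at hz
      exact hz
    rw [hnG z]
    have h2 : Real.exp (-2 * κ * ((z - z₀) * w).re) =
        Real.exp (-κ * ‖z - c‖ ^ 2) * (Real.exp (κ * ‖z₀ - c‖ ^ 2) * Real.exp (1 / 2)) := by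
      rw [← Real.exp_add, ← Real.exp_add]
      congr 1
      rw [hexp z, hzn, ← hκr]
      ring
    rw [h2, ← mul_assoc]
    gcongr
  have h3 := xbl_local isOpen_ball hGd hR₀ hsub hl hGl hmb
  rw [hG0] at h3
  have h4 : M * Real.exp (κ * ‖z₀ - c‖ ^ 2) = ‖J z₀‖ := by
    rw [hM, mul_assoc, ← Real.exp_add]
    have : -κ * ‖z₀ - c‖ ^ 2 + κ * ‖z₀ - c‖ ^ 2 = 0 := by ring
    rw [this, Real.exp_zero, mul_one]
  rw [← mul_assoc, h4] at h3
  have h5 : Real.exp (1 / 2) ≤ 2 := by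
    have h := Real.log_two_gt_d9
    calc Real.exp (1 / 2) ≤ Real.exp (Real.log 2) := by
          apply Real.exp_le_exp.2
          linarith
      _ = 2 := Real.exp_log (by norm_num)
  have h6 : ‖J z₀‖ * Real.exp (1 / 2) ≤ ‖J z₀‖ * 2 := by gcongr
  have h7 := norm_nonneg (J z₀)
  linarith

theorem dense_decay {R₀ : ℝ} (hR₀ : 0 < R₀) : ∃ κ r₀ : ℝ, 0 < κ ∧ 0 < r₀ ∧ ∀ Γ : AddSubgroup ℂ, (∀ z : ℂ, ∃ l ∈ Γ, ‖z - l‖ ≤ R₀) →
    ∀ (J : ℂ → ℂ) (c : ℂ) (R C : ℝ), r₀ ≤ R → DifferentiableOn ℂ J (ball c R) → (∀ z ∈ ball c R, ‖J z‖ ≤ C) → (∀ l ∈ Γ, l ∈ ball c R → J l = 0) →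
    ∀ z ∈ ball c R, ‖J z‖ ≤ C * Real.exp (-κ * ((R - r₀) ^ 2 - ‖z - c‖ ^ 2)) := by
  refine ⟨1 / (32 * R₀ ^ 2), 4 * R₀, by positivity, by positivity, ?_⟩
  intro Γ hcov
  intro J c R C hR hJ hC hJl z₁ hz₁
  set κ : ℝ := 1 / (32 * R₀ ^ 2) with hκ
  have hκ0 : 0 < κ := by positivity
  have hRpos : 0 < R := by linarith
  have hC0 : 0 ≤ C := (norm_nonneg _).trans (hC z₁ hz₁)
  have hz₁' : ‖z₁ - c‖ < R := by
    rw [mem_ball, dist_eq_norm] at hz₁
    exact hz₁
  -- the estimate on the smaller disc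
  have key : ∀ R', ‖z₁ - c‖ < R' → R' < R → ‖J z₁‖ ≤ C * Real.exp (-κ * ((max 0 (R' - 4 * R₀)) ^ 2 - ‖z₁ - c‖ ^ 2)) := by
    intro R' h1 h2
    have hsub : closedBall c R' ⊆ ball c R := closedBall_subset_ball h2
    have hcont : ContinuousOn (fun z => ‖J z‖ * Real.exp (-κ * ‖z - c‖ ^ 2)) (closedBall c R') := by
      apply ContinuousOn.mul
      · exact (hJ.continuousOn.mono hsub).norm
      · fun_prop
    have hne : (closedBall c R').Nonempty := ⟨z₁, by rw [mem_closedBall, dist_eq_norm]; exact h1.le⟩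
    obtain ⟨z₀, hz₀, hmax⟩ := (isCompact_closedBall c R').exists_isMaxOn hne hcont
    have hmax' : ∀ z ∈ closedBall c R', ‖J z‖ * Real.exp (-κ * ‖z - c‖ ^ 2) ≤ ‖J z₀‖ * Real.exp (-κ * ‖z₀ - c‖ ^ 2) := fun z hz => hmax hz
    have hz₁m := hmax' z₁ (by rw [mem_closedBall, dist_eq_norm]; exact h1.le)
    have hfin : ∀ B : ℝ, ‖J z₁‖ * Real.exp (-κ * ‖z₁ - c‖ ^ 2) ≤ B → ‖J z₁‖ ≤ B * Real.exp (κ * ‖z₁ - c‖ ^ 2) := by
      intro B hB
      have : ‖J z₁‖ = ‖J z₁‖ * Real.exp (-κ * ‖z₁ - c‖ ^ 2) * Real.exp (κ * ‖z₁ - c‖ ^ 2) := by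
        rw [mul_assoc, ← Real.exp_add]
        have : -κ * ‖z₁ - c‖ ^ 2 + κ * ‖z₁ - c‖ ^ 2 = 0 := by ring
        rw [this, Real.exp_zero, mul_one]
      rw [this]
      gcongr
    by_cases hfar : ‖z₀ - c‖ ≤ R' - 4 * R₀
    · have h0 := xbl_weight hR₀ hcov h2 hJ hJl hfar hmax'
      rw [h0, zero_mul] at hz₁m
      have := hfin 0 hz₁m
      rw [zero_mul] at this
      exact this.trans (by positivity)
    · push Not at hfar
      have h3 : (max 0 (R' - 4 * R₀)) ^ 2 ≤ ‖z₀ - c‖ ^ 2 := by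
        have : max 0 (R' - 4 * R₀) ≤ ‖z₀ - c‖ := max_le (norm_nonneg _) hfar.le
        have h0 : 0 ≤ max 0 (R' - 4 * R₀) := le_max_left _ _
        gcongr
      have h4 : ‖J z₀‖ * Real.exp (-κ * ‖z₀ - c‖ ^ 2) ≤ C * Real.exp (-κ * (max 0 (R' - 4 * R₀)) ^ 2) := by
        have h5 : ‖J z₀‖ ≤ C := hC z₀ (hsub hz₀)
        have h6 : Real.exp (-κ * ‖z₀ - c‖ ^ 2) ≤ Real.exp (-κ * (max 0 (R' - 4 * R₀)) ^ 2) := by
          apply Real.exp_le_exp.2
          nlinarith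
        gcongr
      have h7 := hfin _ (hz₁m.trans h4)
      refine h7.trans (le_of_eq ?_)
      rw [mul_assoc, ← Real.exp_add]
      congr 2
      ring
  -- the limit
  have hlim : Tendsto (fun R' : ℝ => C * Real.exp (-κ * ((max 0 (R' - 4 * R₀)) ^ 2 - ‖z₁ - c‖ ^ 2))) (𝓝[<] R)
      (𝓝 (C * Real.exp (-κ * ((max 0 (R - 4 * R₀)) ^ 2 - ‖z₁ - c‖ ^ 2)))) := by
    apply tendsto_nhdsWithin_of_tendsto_nhds
    apply Continuous.tendsto
    fun_prop
  have hmaxR : max 0 (R - 4 * R₀) = R - 4 * R₀ := max_eq_right (by linarith)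
  rw [hmaxR] at hlim
  refine ge_of_tendsto hlim ?_
  have : ∀ᶠ R' in 𝓝[<] R, ‖z₁ - c‖ < R' := by
    apply mem_nhdsWithin_of_mem_nhds
    exact lt_mem_nhds hz₁'
  filter_upwards [this, self_mem_nhdsWithin] with R' h1 h2
  exact key R' h1 h2

end Pool.Agent.TG

end
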