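import Pool.Agent.H94.G4T.M11
import Pool.Agent.H94.G4T.M23
import Pool.Agent.H94.G4T.M27

/-! The parts of this file: H22.HF.Div, H36.BP.ExtE, H36.BP.MainA, H7.Bir.Map, TG.Dyn, TG.DyL, TG.DyB. -/

section

/-!
# HF Div: division by powers of the first variable

`g : ℂ × E → ℂ` analytic at `0`, not zero near `0`: `g (s, x) = s ^ a * g' (s, x)` with `g' (0, ·)` not zero near `0`.

Proof.  Choose `ρ > 0` such that `g` is analytic at `(σ, x)` for `‖σ‖ ≤ ρ`, `‖x‖ < ρ`.  For `a : ℕ`, `‖s‖ < ρ`, `‖x‖ < ρ` put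
`G a (s, x) = (2 π i)⁻¹ ∮_{‖σ‖ = ρ} g (σ, x) / (σ ^ a (σ - s)) dσ`: analytic (`analyticAt_circleIntegral`), `G 0 = g` (Cauchy's formula), and
`G a (s, x) = G a (0, x) + s * G (a + 1) (s, x)` because `1 / (σ ^ a (σ - s)) = 1 / σ ^ (a + 1) + s / (σ ^ (a + 1) (σ - s))`.
If for all `a` `G a (0, ·) = 0` near `0`, then on `ball 0 ρ` (identity theorem `AnalyticOnNhd.eqOn_zero_of_preconnected_of_eventuallyEq_zero`), so for `‖x‖ < ρ`
`g (s, x) = s ^ a * G a (s, x)` for all `a`, and `‖G a (s, x)‖ ≤ C_x ρ ^ (- a) ρ / (ρ - ‖s‖)`, so `g (s, x) = 0` for `‖s‖ < ρ` (or: all the derivatives of `g (·, x)` at `0` are zero):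
contradiction.  Let `a` be minimal with `G a (0, ·)` not zero near `0`, `g' = G a`.
-/

set_option autoImplicit false

open Metric Set Filter Topology

namespace Pool.Agent.H22.HF

theorem exists_div {E : Type} [NormedAddCommGroup E] [NormedSpace ℂ E] [FiniteDimensional ℂ E] {g : ℂ × E → ℂ} (hg : AnalyticAt ℂ g 0)
    (hne : ¬ ∀ᶠ y in 𝓝 (0 : ℂ × E), g y = 0) :
    ∃ (a : ℕ) (g' : ℂ × E → ℂ), AnalyticAt ℂ g' 0 ∧ (∀ᶠ y in 𝓝 (0 : ℂ × E), g y = y.1 ^ a * g' y) ∧ ¬ ∀ᶠ x in 𝓝 (0 : E), g' (0, x) = 0 := by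
  classical
  obtain ⟨r, hr, hball⟩ := Metric.eventually_nhds_iff_ball.mp hg.eventually_analyticAt
  obtain ⟨ρ, hρ, hρr⟩ : ∃ ρ : ℝ, 0 < ρ ∧ ρ < r := ⟨r / 2, by linarith, by linarith⟩
  have hmem : ∀ (σ : ℂ) (x : E), ‖σ‖ ≤ ρ → ‖x‖ < r → AnalyticAt ℂ g (σ, x) := by
    intro σ x h1 h2
    refine hball _ ?_
    rw [mem_ball_zero_iff, Prod.norm_mk]
    exact max_lt (lt_of_le_of_lt h1 hρr) h2
  let G : ℕ → ℂ × E → ℂ := fun a y => (2 * Real.pi * Complex.I : ℂ)⁻¹ * ∮ σ in C(0, ρ), g (σ, y.2) / (σ ^ a * (σ - y.1))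
  have hne0 : ∀ σ ∈ sphere (0 : ℂ) ρ, ∀ s : ℂ, ‖s‖ < ρ → σ ≠ 0 ∧ σ - s ≠ 0 := by
    intro σ hσ s hs
    have hn : ‖σ‖ = ρ := by simpa using hσ
    constructor
    · rintro rfl
      rw [norm_zero] at hn
      linarith
    · intro h
      rw [sub_eq_zero] at h
      rw [h] at hn
      linarith
  have hGan : ∀ a (y : ℂ × E), ‖y.1‖ < ρ → ‖y.2‖ < r → AnalyticAt ℂ (G a) y := by
    intro a y h1 h2
    have h3 : AnalyticAt ℂ (fun p : ℂ × E => ∮ σ in C(0, ρ), (fun q : (ℂ × E) × ℂ => g (q.2, q.1.2) / (q.2 ^ a * (q.2 - q.1.1))) (p, σ)) y := by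
      refine analyticAt_circleIntegral (E := ℂ × E)
        (F := fun q : (ℂ × E) × ℂ => g (q.2, q.1.2) / (q.2 ^ a * (q.2 - q.1.1))) hρ ?_
      intro σ hσ
      have hn : ‖σ‖ = ρ := by simpa using hσ
      obtain ⟨e1, e2⟩ := hne0 σ hσ y.1 h1
      have a1 : AnalyticAt ℂ (fun q : (ℂ × E) × ℂ => g (q.2, q.1.2)) (y, σ) := by
        have h4 : AnalyticAt ℂ g ((fun q : (ℂ × E) × ℂ => (q.2, q.1.2)) (y, σ)) := hmem σ y.2 hn.le h2
        have h5 : AnalyticAt ℂ (fun q : (ℂ × E) × ℂ => (q.2, q.1.2)) (y, σ) :=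
          analyticAt_snd.prod (AnalyticAt.comp (g := Prod.snd) (f := Prod.fst) analyticAt_snd analyticAt_fst)
        exact AnalyticAt.comp (g := g) (f := fun q : (ℂ × E) × ℂ => (q.2, q.1.2)) h4 h5
      have a2 : AnalyticAt ℂ (fun q : (ℂ × E) × ℂ => q.2 ^ a * (q.2 - q.1.1)) (y, σ) :=
        (analyticAt_snd.pow a).mul (analyticAt_snd.sub (analyticAt_fst.comp analyticAt_fst))
      exact a1.div a2 (mul_ne_zero (pow_ne_zero _ e1) e2)
    exact analyticAt_const.mul h3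
  have hcont : ∀ x : E, ‖x‖ < r → ContinuousOn (fun σ : ℂ => g (σ, x)) (sphere (0 : ℂ) ρ) := by
    intro x hx σ hσ
    have hn : ‖σ‖ = ρ := by simpa using hσ
    have h4 : ContinuousAt g ((fun σ : ℂ => (σ, x)) σ) := (hmem σ x hn.le hx).continuousAt
    exact (ContinuousAt.comp (f := fun σ : ℂ => (σ, x)) h4 (Continuous.prodMk_left x).continuousAt).continuousWithinAt
  have hG0 : ∀ (s : ℂ) (x : E), ‖s‖ < ρ → ‖x‖ < r → G 0 (s, x) = g (s, x) := by
    intro s x h1 h2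
    have hd : DiffContOnCl ℂ (fun σ : ℂ => g (σ, x)) (ball (0 : ℂ) ρ) := by
      refine DifferentiableOn.diffContOnCl ?_
      rw [closure_ball _ hρ.ne']
      intro σ hσ
      have hn : ‖σ‖ ≤ ρ := by simpa using hσ
      have h4 : DifferentiableAt ℂ g ((fun σ : ℂ => (σ, x)) σ) := (hmem σ x hn h2).differentiableAt
      exact (DifferentiableAt.comp σ h4 (differentiableAt_id.prodMk (differentiableAt_const x))).differentiableWithinAt
    have h5 := hd.two_pi_i_inv_smul_circleIntegral_sub_inv_smul (w := s) (by simpa using h1)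
    rw [smul_eq_mul] at h5
    rw [← h5]
    change (2 * Real.pi * Complex.I : ℂ)⁻¹ * _ = _
    congr 1
    refine circleIntegral.integral_congr hρ.le ?_
    intro σ _
    simp only [pow_zero, one_mul, smul_eq_mul]
    rw [div_eq_mul_inv, mul_comm]
  have hrec : ∀ a (s : ℂ) (x : E), ‖s‖ < ρ → ‖x‖ < r → G a (s, x) = G a (0, x) + s * G (a + 1) (s, x) := by
    intro a s x h1 h2
    have i1 : CircleIntegrable (fun σ : ℂ => g (σ, x) / (σ ^ a * (σ - 0))) 0 ρ := by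
      refine ContinuousOn.circleIntegrable hρ.le ((hcont x h2).div ?_ ?_)
      · fun_prop
      · intro σ hσ
        obtain ⟨e1, e2⟩ := hne0 σ hσ 0 (by simpa using hρ)
        exact mul_ne_zero (pow_ne_zero _ e1) e2
    have i2 : CircleIntegrable (fun σ : ℂ => s * (g (σ, x) / (σ ^ (a + 1) * (σ - s)))) 0 ρ := by
      refine ContinuousOn.circleIntegrable hρ.le (continuousOn_const.mul ((hcont x h2).div ?_ ?_))
      · fun_prop
      · intro σ hσ
        obtain ⟨e1, e2⟩ := hne0 σ hσ s h1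
        exact mul_ne_zero (pow_ne_zero _ e1) e2
    have h3 : (∮ σ in C(0, ρ), g (σ, x) / (σ ^ a * (σ - s)))
        = (∮ σ in C(0, ρ), g (σ, x) / (σ ^ a * (σ - 0))) + s * ∮ σ in C(0, ρ), g (σ, x) / (σ ^ (a + 1) * (σ - s)) := by
      rw [← circleIntegral.integral_const_mul, ← circleIntegral.integral_add i1 i2]
      refine circleIntegral.integral_congr hρ.le ?_
      intro σ hσ
      obtain ⟨e1, e2⟩ := hne0 σ hσ s h1
      simp only [sub_zero]
      field_simp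
      ring
    change (2 * Real.pi * Complex.I : ℂ)⁻¹ * _ = (2 * Real.pi * Complex.I : ℂ)⁻¹ * _ + s * ((2 * Real.pi * Complex.I : ℂ)⁻¹ * _)
    simp only
    rw [h3]
    ring
  have hid : ∀ a, (∀ᶠ x in 𝓝 (0 : E), G a (0, x) = 0) → ∀ x : E, ‖x‖ < r → G a (0, x) = 0 := by
    intro a ha x hx
    have h1 : AnalyticOnNhd ℂ (fun x : E => G a (0, x)) (ball (0 : E) r) := by
      intro z hz
      have h4 : AnalyticAt ℂ (G a) ((fun x : E => ((0 : ℂ), x)) z) := hGan a (0, z) (by simpa using hρ) (by simpa using hz)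
      exact AnalyticAt.comp (g := G a) (f := fun x : E => ((0 : ℂ), x)) h4 (analyticAt_const.prod analyticAt_id)
    exact h1.eqOn_zero_of_preconnected_of_eventuallyEq_zero (convex_ball _ _).isPreconnected (mem_ball_self hr) ha (by simpa using hx)
  have hpow : ∀ a, (∀ b < a, ∀ᶠ x in 𝓝 (0 : E), G b (0, x) = 0) → ∀ (s : ℂ) (x : E), ‖s‖ < ρ → ‖x‖ < r → g (s, x) = s ^ a * G a (s, x) := by
    intro a
    induction a with
    | zero =>
      intro _ s x h1 h2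
      rw [pow_zero, one_mul, hG0 s x h1 h2]
    | succ a ih =>
      intro hb s x h1 h2
      rw [ih (fun b hb' => hb b (Nat.lt_succ_of_lt hb')) s x h1 h2, hrec a s x h1 h2, hid a (hb a (Nat.lt_succ_self a)) x h2, zero_add, pow_succ]
      ring
  have hex : ∃ a, ¬ ∀ᶠ x in 𝓝 (0 : E), G a (0, x) = 0 := by
    by_contra hcon
    push Not at hcon
    have hall : ∀ b, ∀ᶠ x in 𝓝 (0 : E), G b (0, x) = 0 := hcon
    apply hne
    have hz : ∀ (s : ℂ) (x : E), ‖s‖ < ρ → ‖x‖ < r → g (s, x) = 0 := by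
      intro s x hs hx
      have hf : AnalyticOnNhd ℂ (fun σ : ℂ => g (σ, x)) (ball (0 : ℂ) ρ) := by
        intro σ hσ
        have h4 : AnalyticAt ℂ g ((fun σ : ℂ => (σ, x)) σ) := hmem σ x (by simpa using (mem_ball_zero_iff.mp hσ).le) hx
        exact AnalyticAt.comp h4 (analyticAt_id.prod analyticAt_const)
      have htop : analyticOrderAt (fun σ : ℂ => g (σ, x)) 0 = ⊤ := by
        refine ENat.eq_top_iff_forall_ge.mpr ?_
        intro a
        rw [natCast_le_analyticOrderAt (hf 0 (mem_ball_self hρ))]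
        refine ⟨fun σ => G a (σ, x), ?_, ?_⟩
        · have h4 : AnalyticAt ℂ (G a) ((fun σ : ℂ => (σ, x)) 0) := hGan a (0, x) (by simpa using hρ) hx
          exact AnalyticAt.comp (g := G a) (f := fun σ : ℂ => (σ, x)) h4 (analyticAt_id.prod analyticAt_const)
        · filter_upwards [ball_mem_nhds (0 : ℂ) hρ] with σ hσ
          rw [sub_zero, smul_eq_mul]
          exact hpow a (fun b _ => hall b) σ x (by simpa using hσ) hx
      rw [analyticOrderAt_eq_top] at htop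
      exact hf.eqOn_zero_of_preconnected_of_eventuallyEq_zero (convex_ball _ _).isPreconnected (mem_ball_self hρ) htop (by simpa using hs)
    filter_upwards [ball_mem_nhds (0 : ℂ × E) hρ] with y hy
    rw [mem_ball_zero_iff, Prod.norm_def] at hy
    exact hz y.1 y.2 (lt_of_le_of_lt (le_max_left _ _) hy) (lt_trans (lt_of_le_of_lt (le_max_right _ _) hy) hρr)
  refine ⟨Nat.find hex, G (Nat.find hex), hGan _ 0 (by simpa using hρ) (by simpa using hr), ?_, Nat.find_spec hex⟩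
  filter_upwards [ball_mem_nhds (0 : ℂ × E) hρ] with y hy
  rw [mem_ball_zero_iff, Prod.norm_def] at hy
  refine hpow (Nat.find hex) ?_ y.1 y.2 (lt_of_le_of_lt (le_max_left _ _) hy) (lt_trans (lt_of_le_of_lt (le_max_right _ _) hy) hρr)
  intro b hb
  by_contra h
  exact Nat.find_min hex hb h

end Pool.Agent.H22.HF

end

section

/-!
# BP ExtE: the limit at the puncture

For `r = |z₁|/(n+2)` take `θ_n`; `F_n = θ_n F` is bounded by `A` for `|z₁|/(n+2) ≤ |z| ≤ r₁`, `|F_n z₁| ≥ c`.  Along `hyperfilter ℕ` the pointwise limits `H z` exist for `0 < |z| < r₁` (bounded in a finite dimensional space), and by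
`montel_ultrafilter` on small discs (`TendstoLocallyUniformlyOn` implies pointwise convergence, so the local limits are `H`) `H` is holomorphic on `0 < |z| < r₁`, `|H z| ≤ A`, `|H z₁| ≥ c`, and `H z` is a multiple of `F z` (closed line).
`H` is bounded, so it extends to a holomorphic `P` on `|z| < r₁` (`Complex.differentiableOn_update_limUnder_of_bddAbove`, for vector valued functions), `P z₁ ≠ 0`, so `P` does not vanish identically near `0` (identity theorem on the disc),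
`P z = z^k Q z`, `Q 0 ≠ 0` (`AnalyticAt.exists_eventuallyEq_pow_smul_nonzero_iff`), `Q z ≠ 0` near `0` and `Q z` is a multiple of `F z`.
-/

set_option autoImplicit false

namespace Pool.Agent.H36.BP

open Filter Topology Metric

variable {N : ℕ}

theorem puncture_limit {F : ℂ → EN N} (hF : DifferentiableOn ℂ F (ball 0 1 \ {0})) (hF0 : ∀ z ∈ ball (0 : ℂ) 1 \ {0}, F z ≠ 0) {r₁ c A : ℝ} {z₁ : ℂ}
    (hc : 0 < c) (hz1 : 0 < ‖z₁‖) (hz2 : ‖z₁‖ < r₁) (hr1 : r₁ < 1)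
    (h : ∀ r : ℝ, 0 < r → r < ‖z₁‖ → ∃ θ : ℂ → ℂ, DifferentiableOn ℂ θ {0}ᶜ ∧
      (∀ z : ℂ, r ≤ ‖z‖ → ‖z‖ ≤ r₁ → ‖θ z • F z‖ ≤ A) ∧ c ≤ ‖θ z₁ • F z₁‖) :
    ∃ Q : ℂ → EN N, AnalyticAt ℂ Q 0 ∧ Q 0 ≠ 0 ∧ ∀ᶠ z in 𝓝[≠] (0 : ℂ), ∃ k : ℂ, k ≠ 0 ∧ Q z = k • F z := by
  classical
  have hr : ∀ n : ℕ, 0 < ‖z₁‖ / ((n : ℝ) + 2) ∧ ‖z₁‖ / ((n : ℝ) + 2) < ‖z₁‖ := by
    intro n
    have hn : (0 : ℝ) ≤ n := Nat.cast_nonneg n
    refine ⟨by positivity, ?_⟩
    rw [div_lt_iff₀ (by positivity)]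
    nlinarith
  choose θ hθd hθb hθc using fun n : ℕ => h (‖z₁‖ / ((n : ℝ) + 2)) (hr n).1 (hr n).2
  set 𝒰 : Ultrafilter ℕ := hyperfilter ℕ with h𝒰
  have h𝒰l : (𝒰 : Filter ℕ) ≤ atTop := by
    rw [← Nat.cofinite_eq_atTop]
    exact hyperfilter_le_cofinite
  have hsmall : ∀ δ : ℝ, 0 < δ → ∀ᶠ n : ℕ in (𝒰 : Filter ℕ), ‖z₁‖ / ((n : ℝ) + 2) ≤ δ := by
    intro δ hδ
    apply h𝒰l
    have ht : Tendsto (fun n : ℕ => ‖z₁‖ / ((n : ℝ) + 2)) atTop (𝓝 0) :=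
      Tendsto.div_atTop tendsto_const_nhds (tendsto_natCast_atTop_atTop.atTop_add tendsto_const_nhds)
    exact (ht.eventually_lt_const hδ).mono fun _ h => h.le
  set Fn : ℕ → ℂ → EN N := fun n z => θ n z • F z with hFn
  -- local discs
  have hloc : ∀ z : ℂ, z ≠ 0 → ‖z‖ < r₁ → ∃ (s : ℝ) (g : ℂ → EN N), 0 < s ∧ ball z s ⊆ ball 0 r₁ \ {0} ∧
      DifferentiableOn ℂ g (ball z s) ∧ ∀ w ∈ ball z s, Tendsto (fun n => Fn n w) (𝒰 : Filter ℕ) (𝓝 (g w)) := by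
    intro z hz hzr
    have hzp : 0 < ‖z‖ := norm_pos_iff.mpr hz
    set s : ℝ := min (‖z‖ / 2) (r₁ - ‖z‖) with hs
    have hs0 : 0 < s := lt_min (by positivity) (by linarith)
    have hw1 : ∀ w ∈ ball z s, ‖z‖ / 2 ≤ ‖w‖ ∧ ‖w‖ < r₁ := by
      intro w hw
      have h1 : ‖w - z‖ < s := by rwa [mem_ball, dist_eq_norm] at hw
      have h2 : s ≤ ‖z‖ / 2 := min_le_left _ _
      have h3 : s ≤ r₁ - ‖z‖ := min_le_right _ _
      have h4 : ‖z‖ ≤ ‖w‖ + ‖w - z‖ := by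
        have := norm_sub_le w (w - z)
        simpa using this
      have h5 : ‖w‖ ≤ ‖z‖ + ‖w - z‖ := by
        have := norm_add_le z (w - z)
        simpa using this
      constructor <;> linarith
    have hsub : ball z s ⊆ ball 0 r₁ \ {0} := by
      intro w hw
      have := hw1 w hw
      refine ⟨by simpa using this.2, ?_⟩
      rintro rfl
      have h1 := this.1
      rw [norm_zero] at h1
      linarith
    have hsub1 : ball z s ⊆ ball 0 1 \ {0} := fun w hw =>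
      ⟨ball_subset_ball hr1.le (hsub hw).1, (hsub hw).2⟩
    obtain ⟨g, hg1, hg2⟩ := Pool.Agent.H17.montel_ultrafilter (E := EN N) 𝒰 (F := Fn) (a := z) (r := s) (B := A)
      (by
        refine Eventually.of_forall fun n => ?_
        refine DifferentiableOn.smul ((hθd n).mono ?_) (hF.mono hsub1)
        intro w hw
        exact (hsub hw).2)
      (by
        filter_upwards [hsmall (‖z‖ / 2) (by positivity)] with n hn w hw
        exact hθb n w (hn.trans (hw1 w hw).1) (hw1 w hw).2.le)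
    exact ⟨s, g, hs0, hsub, hg1, fun w hw => hg2.tendsto_at hw⟩
  -- the limit
  have hlim : ∀ z : ℂ, ∃ l : EN N, z ≠ 0 → ‖z‖ < r₁ → Tendsto (fun n => Fn n z) (𝒰 : Filter ℕ) (𝓝 l) := by
    intro z
    by_cases hz : z ≠ 0 ∧ ‖z‖ < r₁
    · obtain ⟨s, g, hs, -, -, hg⟩ := hloc z hz.1 hz.2
      exact ⟨g z, fun _ _ => hg z (mem_ball_self hs)⟩
    · exact ⟨0, fun h1 h2 => absurd ⟨h1, h2⟩ hz⟩
  choose H hH using hlim
  have hHd : DifferentiableOn ℂ H (ball 0 r₁ \ {0}) := by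
    intro z hz
    have hz0 : z ≠ 0 := hz.2
    have hzr : ‖z‖ < r₁ := by simpa using hz.1
    obtain ⟨s, g, hs, hsub, hgd, hg⟩ := hloc z hz0 hzr
    have heq : H =ᶠ[𝓝 z] g := by
      filter_upwards [ball_mem_nhds z hs] with w hw
      have hw' := hsub hw
      exact tendsto_nhds_unique (hH w hw'.2 (by simpa using hw'.1)) (hg w hw)
    have : DifferentiableAt ℂ g z := (hgd z (mem_ball_self hs)).differentiableAt (ball_mem_nhds z hs)
    exact (this.congr_of_eventuallyEq heq).differentiableWithinAt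
  have hHb : ∀ z ∈ ball (0 : ℂ) r₁ \ {0}, ‖H z‖ ≤ A := by
    intro z hz
    have hz0 : z ≠ 0 := hz.2
    have hzr : ‖z‖ < r₁ := by simpa using hz.1
    refine le_of_tendsto (hH z hz0 hzr).norm ?_
    filter_upwards [hsmall ‖z‖ (norm_pos_iff.mpr hz0)] with n hn
    exact hθb n z hn hzr.le
  have hz10 : z₁ ≠ 0 := norm_pos_iff.mp hz1
  have hHc : c ≤ ‖H z₁‖ := ge_of_tendsto (hH z₁ hz10 hz2).norm (Eventually.of_forall fun n => hθc n)
  have hHs : ∀ z ∈ ball (0 : ℂ) r₁ \ {0}, ∃ a : ℂ, H z = a • F z := by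
    intro z hz
    have hz0 : z ≠ 0 := hz.2
    have hzr : ‖z‖ < r₁ := by simpa using hz.1
    have hcl : IsClosed ((Submodule.span ℂ {F z} : Submodule ℂ (EN N)) : Set (EN N)) :=
      Submodule.closed_of_finiteDimensional _
    have hmem : H z ∈ (Submodule.span ℂ {F z} : Submodule ℂ (EN N)) :=
      hcl.mem_of_tendsto (hH z hz0 hzr) (Eventually.of_forall fun n =>
        Submodule.smul_mem _ _ (Submodule.mem_span_singleton_self _))
    obtain ⟨a, ha⟩ := Submodule.mem_span_singleton.mp hmem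
    exact ⟨a, ha.symm⟩
  have hr0 : 0 < r₁ := hz1.trans hz2
  -- the extension
  set P : ℂ → EN N := Function.update H 0 (limUnder (𝓝[≠] 0) H) with hP
  have hPd : DifferentiableOn ℂ P (ball 0 r₁) := by
    refine Complex.differentiableOn_update_limUnder_of_bddAbove (ball_mem_nhds 0 hr0) hHd ?_
    refine ⟨A, ?_⟩
    rintro _ ⟨z, hz, rfl⟩
    exact hHb z hz
  have hPH : ∀ z : ℂ, z ≠ 0 → P z = H z := fun z hz => Function.update_of_ne hz _ _
  have hPa : AnalyticOnNhd ℂ P (ball 0 r₁) := hPd.analyticOnNhd isOpen_ball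
  have hP0 : ¬ ∀ᶠ z in 𝓝 (0 : ℂ), P z = 0 := by
    intro hev
    have h1 := hPa.eqOn_zero_of_preconnected_of_eventuallyEq_zero (convex_ball (0 : ℂ) r₁).isPreconnected
      (mem_ball_self hr0) hev
    have h2 : P z₁ = 0 := h1 (by simpa using hz2)
    rw [hPH z₁ hz10] at h2
    rw [h2, norm_zero] at hHc
    linarith
  obtain ⟨k, Q, hQa, hQ0, hQ⟩ := (hPa 0 (mem_ball_self hr0)).exists_eventuallyEq_pow_smul_nonzero_iff.mpr hP0
  refine ⟨Q, hQa, hQ0, ?_⟩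
  have hQne : ∀ᶠ z in 𝓝 (0 : ℂ), Q z ≠ 0 := hQa.continuousAt.eventually_ne hQ0
  rw [eventually_nhdsWithin_iff]
  filter_upwards [hQ, hQne, ball_mem_nhds (0 : ℂ) hr0] with z hz1 hz2 hz3 hz4
  have hz0 : z ≠ 0 := hz4
  obtain ⟨a, ha⟩ := hHs z ⟨hz3, hz4⟩
  rw [hPH z hz0, sub_zero] at hz1
  have hzk : z ^ k ≠ 0 := pow_ne_zero _ hz0
  have he : Q z = ((z ^ k)⁻¹ * a) • F z := by
    rw [mul_smul, ← ha, hz1, smul_smul, inv_mul_cancel₀ hzk, one_smul]
  refine ⟨(z ^ k)⁻¹ * a, ?_, he⟩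
  intro h0
  rw [h0, zero_smul] at he
  exact hz2 he

end Pool.Agent.H36.BP

end

section

/-!
# BP MainA: identity theorems for maps into projective space
-/

set_option autoImplicit false

namespace Pool.Agent.H36.BP

open Filter Topology Metric

variable {N : ℕ}

open Pool.Agent.H17 (PN HolomorphicInto puncturedDisc VanishesAt vanishesAt_mk_iff)

/-- the cone over a subset of projective space -/
def coneOf (X : Set (PN N)) : Set (EN N) := {x | ∃ h : x.ofLp ≠ 0, Projectivization.mk ℂ _ h ∈ X}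

theorem analyticAt_toLp {φ : ℂ → Fin (N + 1) → ℂ} {z : ℂ} (h : AnalyticAt ℂ φ z) :
    AnalyticAt ℂ (fun w => (WithLp.toLp 2 (φ w) : EN N)) z :=
  ((EuclideanSpace.equiv (Fin (N + 1)) ℂ).symm : (Fin (N + 1) → ℂ) →L[ℂ] EN N).analyticAt (φ z) |>.comp h

theorem analyticAt_ofLp {F : ℂ → EN N} {z : ℂ} (h : AnalyticAt ℂ F z) : AnalyticAt ℂ (fun w => (F w).ofLp) z :=
  ((EuclideanSpace.equiv (Fin (N + 1)) ℂ) : EN N →L[ℂ] (Fin (N + 1) → ℂ)).analyticAt (F z) |>.comp h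

theorem mk_smul_eq {x : EN N} (hx : x.ofLp ≠ 0) {c : ℂ} (h : (c • x).ofLp ≠ 0) :
    Projectivization.mk ℂ (c • x).ofLp h = Projectivization.mk ℂ x.ofLp hx := by
  rw [Projectivization.mk_eq_mk_iff']
  exact ⟨c, rfl⟩

theorem coneOf_smul {X : Set (PN N)} {x : EN N} (hx : x ∈ coneOf X) {c : ℂ} (hc : c ≠ 0) : c • x ∈ coneOf X := by
  obtain ⟨h, hX⟩ := hx
  have h2 : (c • x).ofLp ≠ 0 := by
    intro h0
    apply h
    have h3 : c • x.ofLp = 0 := h0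
    exact (smul_eq_zero.mp h3).resolve_left hc
  exact ⟨h2, by rw [mk_smul_eq h]; exact hX⟩

theorem ofLp_ne_zero {x : EN N} (h : x ≠ 0) : x.ofLp ≠ 0 := by
  intro h0
  exact h (by ext i; exact congrFun h0 i)

/-- identity theorem for the vanishing of forms -/
theorem vanish_identity {f : ℂ → PN N} {U : Set ℂ} (hUc : IsPreconnected U) (hf : HolomorphicInto f U)
    {S : Set (MvPolynomial (Fin (N + 1)) ℂ)} (hS : ∀ P ∈ S, ∃ n, P.IsHomogeneous n) {z₀ : ℂ} (hz₀ : z₀ ∈ U)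
    (h : ∀ᶠ w in 𝓝 z₀, ∀ P ∈ S, VanishesAt P (f w)) : ∀ z ∈ U, ∀ P ∈ S, VanishesAt P (f z) := by
  set A : Set ℂ := {z | ∀ᶠ w in 𝓝 z, ∀ P ∈ S, VanishesAt P (f w)} with hA
  have hAo : IsOpen A := by
    rw [isOpen_iff_mem_nhds]
    intro z hz
    exact hz.eventually_nhds
  have hcl : closure A ∩ U ⊆ A := by
    rintro z ⟨hz1, hz2⟩
    obtain ⟨φ, hφ, he⟩ := hf z hz2
    obtain ⟨r, hr, hr1⟩ := Metric.eventually_nhds_iff_ball.mp (hφ.eventually_analyticAt.and he)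
    obtain ⟨z', hz'1, hz'2⟩ := mem_closure_iff_nhds.mp hz1 (ball z r) (ball_mem_nhds z hr)
    have hvan : ∀ P ∈ S, ∀ w ∈ ball z r, MvPolynomial.eval (φ w) P = 0 := by
      intro P hP
      obtain ⟨n, hn⟩ := hS P hP
      have han : AnalyticOnNhd ℂ (fun w => MvPolynomial.aeval (φ w) P) (ball z r) :=
        AnalyticOnNhd.aeval_mvPolynomial (fun i w hw => analyticAt_pi_iff.mp (hr1 w hw).1 i) P
      have h0 : (fun w => MvPolynomial.aeval (φ w) P) =ᶠ[𝓝 z'] 0 := by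
        have hz'A : ∀ᶠ w in 𝓝 z', ∀ P ∈ S, VanishesAt P (f w) := hz'2
        filter_upwards [hz'A, isOpen_ball.mem_nhds hz'1] with w hw1 hw2
        obtain ⟨h1, h2⟩ := (hr1 w hw2).2
        have h3 := hw1 P hP
        rw [h2, vanishesAt_mk_iff hn] at h3
        exact h3
      intro w hw
      exact han.eqOn_zero_of_preconnected_of_eventuallyEq_zero (convex_ball z r).isPreconnected hz'1 h0 hw
    show ∀ᶠ w in 𝓝 z, ∀ P ∈ S, VanishesAt P (f w)
    filter_upwards [ball_mem_nhds z hr] with w hw P hP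
    obtain ⟨n, hn⟩ := hS P hP
    obtain ⟨h1, h2⟩ := (hr1 w hw).2
    rw [h2, vanishesAt_mk_iff hn]
    exact hvan P hP w hw
  have hsub : U ⊆ A := hUc.subset_of_closure_inter_subset hAo ⟨z₀, hz₀, h⟩ hcl
  intro z hz
  have h1 : ∀ᶠ w in 𝓝 z, ∀ P ∈ S, VanishesAt P (f w) := hsub hz
  exact h1.self_of_nhds

/-- the linear forms vanishing at a vector -/
theorem const_identity {f : ℂ → PN N} {U : Set ℂ} (hUc : IsPreconnected U) (hf : HolomorphicInto f U)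
    {z₀ : ℂ} (hz₀ : z₀ ∈ U) (h : ∀ᶠ w in 𝓝 z₀, f w = f z₀) : ∀ z ∈ U, f z = f z₀ := by
  set v := (f z₀).rep with hv
  have hv0 : v ≠ 0 := (f z₀).rep_nonzero
  have hfz : f z₀ = Projectivization.mk ℂ v hv0 := (Projectivization.mk_rep _).symm
  obtain ⟨j, hj⟩ : ∃ j, v j ≠ 0 := by
    by_contra hcon
    push Not at hcon
    exact hv0 (funext hcon)
  set S : Set (MvPolynomial (Fin (N + 1)) ℂ) :=
    {P | ∃ i, P = MvPolynomial.C (v j) * MvPolynomial.X i - MvPolynomial.C (v i) * MvPolynomial.X j} with hSdef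
  have hS : ∀ P ∈ S, ∃ n, P.IsHomogeneous n := by
    rintro P ⟨i, rfl⟩
    refine ⟨1, ?_⟩
    have h1 : ∀ (a : ℂ) (i : Fin (N + 1)), (MvPolynomial.C a * MvPolynomial.X i : MvPolynomial (Fin (N + 1)) ℂ).IsHomogeneous 1 := by
      intro a i
      have := (MvPolynomial.isHomogeneous_C (Fin (N + 1)) a).mul (MvPolynomial.isHomogeneous_X ℂ i)
      simpa using this
    exact (h1 _ _).sub (h1 _ _)
  have hkey : ∀ p : PN N, (∀ P ∈ S, VanishesAt P p) → p = f z₀ := by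
    intro p hp
    have hp' : ∀ i, v j * p.rep i = v i * p.rep j := by
      intro i
      have h2 := hp _ ⟨i, rfl⟩
      unfold VanishesAt at h2
      simp only [map_sub, map_mul, MvPolynomial.eval_C, MvPolynomial.eval_X] at h2
      exact sub_eq_zero.mp h2
    rw [← Projectivization.mk_rep p, hfz, Projectivization.mk_eq_mk_iff']
    refine ⟨p.rep j / v j, ?_⟩
    funext i
    simp only [Pi.smul_apply, smul_eq_mul]
    field_simp
    rw [mul_comm (p.rep j), ← hp' i]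
  have hvan : ∀ P ∈ S, VanishesAt P (f z₀) := by
    rintro P ⟨i, rfl⟩
    unfold VanishesAt
    simp only [map_sub, map_mul, MvPolynomial.eval_C, MvPolynomial.eval_X]
    rw [← hv]
    ring
  have hmain := vanish_identity hUc hf hS hz₀ (by
    filter_upwards [h] with w hw P hP
    rw [hw]
    exact hvan P hP)
  intro z hz
  exact hkey _ (hmain z hz)

theorem preconnected_puncturedDisc : IsPreconnected puncturedDisc := by
  have h : puncturedDisc = Complex.exp '' {z : ℂ | z.re < 0} := by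
    ext z
    constructor
    · rintro ⟨h1, h2⟩
      have h3 : z ≠ 0 := h2
      refine ⟨Complex.log z, ?_, Complex.exp_log h3⟩
      rw [mem_ball_zero_iff] at h1
      change (Complex.log z).re < 0
      rw [Complex.log_re]
      exact Real.log_neg (norm_pos_iff.mpr h3) h1
    · rintro ⟨w, hw, rfl⟩
      refine ⟨?_, Complex.exp_ne_zero w⟩
      rw [mem_ball_zero_iff, Complex.norm_exp]
      have h1 := Real.exp_lt_exp.mpr hw
      rwa [Real.exp_zero] at h1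
  rw [h]
  exact (convex_halfSpace_re_lt 0).isPreconnected.image _ Complex.continuous_exp.continuousOn

theorem isOpen_puncturedDisc : IsOpen puncturedDisc :=
  Metric.isOpen_ball.sdiff isClosed_singleton

end Pool.Agent.H36.BP

end

section

/-!
# Bir Map: composition of holomorphic maps with rational maps

* `exists_comp`: the composition of a holomorphic map `f` into `ℙ^M` with the rational map given by forms `γ i` of the same degree, not all of them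
  zero on `f`, is holomorphic: near every point divide the functions `γ i (φ z)` by their common zeros.
* `pn_identity`: the identity theorem for maps into projective space.
-/

set_option autoImplicit false

open Topology Filter Metric MvPolynomial

noncomputable section

namespace Pool.Agent.H7.Bir

open Pool.Agent.H17 (PN VanishesAt HolomorphicInto vanishesAt_mk_iff)

variable {N M : ℕ}

/-- The values of the forms `γ i` at `x`. -/
def vals (γ : Fin (N + 1) → MvPolynomial (Fin (M + 1)) ℂ) (x : Fin (M + 1) → ℂ) : Fin (N + 1) → ℂ := fun i => eval x (γ i)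

theorem vals_smul {γ : Fin (N + 1) → MvPolynomial (Fin (M + 1)) ℂ} {D : ℕ} (hγ : ∀ i, (γ i).IsHomogeneous D)
    (c : ℂ) (x : Fin (M + 1) → ℂ) : vals γ (c • x) = c ^ D • vals γ x := by
  funext i
  exact Pool.Agent.H17BP.eval_smul_form (hγ i) c x

/-- The rational map given by the forms `γ i` (arbitrary value where it is not defined). -/
def rmap (γ : Fin (N + 1) → MvPolynomial (Fin (M + 1)) ℂ) (x : PN M) : PN N :=
  open Classical in
  if h : vals γ x.rep ≠ 0 then Projectivization.mk ℂ _ h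
  else Projectivization.mk ℂ (fun _ => 1) fun h => one_ne_zero (congrFun h 0)

theorem rmap_mk {γ : Fin (N + 1) → MvPolynomial (Fin (M + 1)) ℂ} {D : ℕ} (hγ : ∀ i, (γ i).IsHomogeneous D)
    {x : Fin (M + 1) → ℂ} (hx : x ≠ 0) (h : vals γ x ≠ 0) :
    rmap γ (Projectivization.mk ℂ x hx) = Projectivization.mk ℂ (vals γ x) h := by
  obtain ⟨a, ha⟩ := Projectivization.exists_smul_eq_mk_rep ℂ x hx
  have h1 : (Projectivization.mk ℂ x hx).rep = (a : ℂ) • x := ha.symm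
  have h2 : vals γ (Projectivization.mk ℂ x hx).rep = (a : ℂ) ^ D • vals γ x := by
    rw [h1, vals_smul hγ]
  have h3 : vals γ (Projectivization.mk ℂ x hx).rep ≠ 0 := by
    rw [h2]
    exact smul_ne_zero (pow_ne_zero _ a.ne_zero) h
  unfold rmap
  rw [dif_pos h3, Projectivization.mk_eq_mk_iff']
  exact ⟨(a : ℂ) ^ D, h2.symm⟩

private theorem Map_analytic {φ : ℂ → Fin (M + 1) → ℂ} {z : ℂ} (hφ : AnalyticAt ℂ φ z)
    (γ : Fin (N + 1) → MvPolynomial (Fin (M + 1)) ℂ) : AnalyticAt ℂ (fun w => vals γ (φ w)) z := by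
  rw [analyticAt_pi_iff]
  intro i
  have h1 : AnalyticAt ℂ (fun w => MvPolynomial.aeval (φ w) (γ i)) z :=
    AnalyticAt.aeval_mvPolynomial (fun i => analyticAt_pi_iff.mp hφ i) (γ i)
  exact h1

/-- A lift of the composition near a point. -/
private theorem Map_lift {γ : Fin (N + 1) → MvPolynomial (Fin (M + 1)) ℂ} {D : ℕ} (hγ : ∀ i, (γ i).IsHomogeneous D)
    {f : ℂ → PN M} {U : Set ℂ} (hUc : IsPreconnected U) (hf : HolomorphicInto f U) {z₀ : ℂ} (hz₀ : z₀ ∈ U)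
    {i₀ : Fin (N + 1)} (h : ¬ VanishesAt (γ i₀) (f z₀)) {z : ℂ} (hz : z ∈ U) :
    ∃ ψ : ℂ → Fin (N + 1) → ℂ, AnalyticAt ℂ ψ z ∧ ψ z ≠ 0 ∧
      (∀ᶠ w in 𝓝[≠] z, ∃ h : ψ w ≠ 0, rmap γ (f w) = Projectivization.mk ℂ (ψ w) h ∧ vals γ (f w).rep ≠ 0) ∧
      (vals γ (f z).rep ≠ 0 → ∃ h : ψ z ≠ 0, rmap γ (f z) = Projectivization.mk ℂ (ψ z) h) := by
  obtain ⟨φ, hφ, he⟩ := hf z hz
  have hΨ := Map_analytic hφ γ
  -- not identically zero
  have hne : ¬ ∀ᶠ w in 𝓝 z, vals γ (φ w) = 0 := by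
    intro h0
    have h1 : ∀ᶠ w in 𝓝 z, ∀ P ∈ ({γ i₀} : Set (MvPolynomial (Fin (M + 1)) ℂ)), VanishesAt P (f w) := by
      filter_upwards [h0, he] with w h2 h3 P hP
      rw [Set.mem_singleton_iff] at hP
      subst hP
      obtain ⟨h4, h5⟩ := h3
      rw [h5, vanishesAt_mk_iff (hγ i₀)]
      exact congrFun h2 i₀
    exact h (Pool.Agent.H36.BP.vanish_identity hUc hf (S := {γ i₀}) (by
      rintro P hP
      rw [Set.mem_singleton_iff] at hP
      subst hP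
      exact ⟨D, hγ i₀⟩) hz h1 z₀ hz₀ _ rfl)
  obtain ⟨n, ψ, hψ, hψ0, hψe⟩ := (hΨ.exists_eventuallyEq_pow_smul_nonzero_iff).2 hne
  have hrep : ∀ w, (∃ h : φ w ≠ 0, f w = Projectivization.mk ℂ (φ w) h) → ∃ c : ℂ, c ≠ 0 ∧ (f w).rep = c • φ w := by
    rintro w ⟨h1, h2⟩
    obtain ⟨a, ha⟩ := Projectivization.exists_smul_eq_mk_rep ℂ (φ w) h1
    exact ⟨a, a.ne_zero, by rw [h2]; exact ha.symm⟩
  have hkey : ∀ w, (∃ h : φ w ≠ 0, f w = Projectivization.mk ℂ (φ w) h) → vals γ (φ w) = (w - z) ^ n • ψ w →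
      vals γ (φ w) ≠ 0 → ∃ h : ψ w ≠ 0, rmap γ (f w) = Projectivization.mk ℂ (ψ w) h := by
    rintro w ⟨h1, h2⟩ h3 h4
    have h5 : ψ w ≠ 0 := by
      intro h6
      rw [h6, smul_zero] at h3
      exact h4 h3
    refine ⟨h5, ?_⟩
    rw [h2, rmap_mk hγ h1 h4, Projectivization.mk_eq_mk_iff']
    exact ⟨(w - z) ^ n, h3.symm⟩
  have hrepv : ∀ w, (∃ h : φ w ≠ 0, f w = Projectivization.mk ℂ (φ w) h) → (vals γ (f w).rep ≠ 0 ↔ vals γ (φ w) ≠ 0) := by
    intro w hw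
    obtain ⟨c, hc, h1⟩ := hrep w hw
    rw [h1, vals_smul hγ, smul_ne_zero_iff]
    exact ⟨fun h => h.2, fun h => ⟨pow_ne_zero _ hc, h⟩⟩
  refine ⟨ψ, hψ, hψ0, ?_, ?_⟩
  · have h1 : ∀ᶠ w in 𝓝[≠] z, w ≠ z := self_mem_nhdsWithin
    filter_upwards [h1, he.filter_mono nhdsWithin_le_nhds, hψe.filter_mono nhdsWithin_le_nhds,
      (hψ.continuousAt.eventually_ne hψ0).filter_mono nhdsWithin_le_nhds] with w h2 h3 h4 h5
    have h6 : vals γ (φ w) ≠ 0 := by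
      rw [h4]
      exact smul_ne_zero (pow_ne_zero _ (sub_ne_zero.2 h2)) h5
    obtain ⟨h7, h8⟩ := hkey w h3 h4 h6
    exact ⟨h7, h8, (hrepv w h3).2 h6⟩
  · intro h1
    have h2 := he.self_of_nhds
    exact hkey z h2 hψe.self_of_nhds ((hrepv z h2).1 h1)

theorem exists_comp {γ : Fin (N + 1) → MvPolynomial (Fin (M + 1)) ℂ} {D : ℕ} (hγ : ∀ i, (γ i).IsHomogeneous D)
    {f : ℂ → PN M} {U : Set ℂ} (hUo : IsOpen U) (hUc : IsPreconnected U) (hf : HolomorphicInto f U) {z₀ : ℂ} (hz₀ : z₀ ∈ U)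
    {i₀ : Fin (N + 1)} (h : ¬ VanishesAt (γ i₀) (f z₀)) :
    ∃ g : ℂ → PN N, HolomorphicInto g U ∧ (∀ z ∈ U, vals γ (f z).rep ≠ 0 → g z = rmap γ (f z)) ∧
      ∀ z ∈ U, ∀ᶠ w in 𝓝[≠] z, vals γ (f w).rep ≠ 0 ∧ g w = rmap γ (f w) := by
  classical
  choose ψ hψ hψ0 hψ1 hψ2 using fun z (hz : z ∈ U) => Map_lift hγ hUc hf hz₀ h hz
  let g : ℂ → PN N := fun z => if hz : z ∈ U then Projectivization.mk ℂ (ψ z hz z) (hψ0 z hz) else rmap γ (f z)
  have hg : ∀ z ∈ U, vals γ (f z).rep ≠ 0 → g z = rmap γ (f z) := by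
    intro z hz h1
    obtain ⟨h2, h3⟩ := hψ2 z hz h1
    simp only [g, dif_pos hz]
    exact h3.symm
  refine ⟨g, ?_, hg, ?_⟩
  · intro z hz
    refine ⟨ψ z hz, hψ z hz, ?_⟩
    have h1 : ∀ᶠ w in 𝓝[≠] z, ∃ h : ψ z hz w ≠ 0, g w = Projectivization.mk ℂ (ψ z hz w) h := by
      filter_upwards [hψ1 z hz, mem_nhdsWithin_of_mem_nhds (hUo.mem_nhds hz)] with w h2 h3
      obtain ⟨h4, h5, h6⟩ := h2
      exact ⟨h4, by rw [hg w h3 h6, h5]⟩
    have h2 : ∃ h : ψ z hz z ≠ 0, g z = Projectivization.mk ℂ (ψ z hz z) h := ⟨hψ0 z hz, by simp only [g, dif_pos hz]⟩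
    rw [eventually_nhdsWithin_iff] at h1
    filter_upwards [h1] with w h3
    by_cases hw : w = z
    · rw [hw]
      exact h2
    · exact h3 hw
  · intro z hz
    filter_upwards [hψ1 z hz, mem_nhdsWithin_of_mem_nhds (hUo.mem_nhds hz)] with w h2 h3
    obtain ⟨h4, h5, h6⟩ := h2
    exact ⟨h6, hg w h3 h6⟩

/-- The identity theorem for maps into projective space. -/
theorem pn_identity {f g : ℂ → PN N} {U : Set ℂ} (hUc : IsPreconnected U) (hf : HolomorphicInto f U) (hg : HolomorphicInto g U)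
    {z₀ : ℂ} (hz₀ : z₀ ∈ U) (h : ∀ᶠ z in 𝓝 z₀, f z = g z) : ∀ z ∈ U, f z = g z := by
  set A : Set ℂ := {z | ∀ᶠ w in 𝓝 z, f w = g w} with hA
  have hAo : IsOpen A := by
    rw [isOpen_iff_mem_nhds]
    intro z hz
    exact hz.eventually_nhds
  have hcl : closure A ∩ U ⊆ A := by
    rintro z ⟨hz1, hz2⟩
    obtain ⟨φ, hφ, he⟩ := hf z hz2
    obtain ⟨χ, hχ, he'⟩ := hg z hz2
    obtain ⟨r, hr, hr1⟩ := Metric.eventually_nhds_iff_ball.mp
      ((hφ.eventually_analyticAt.and hχ.eventually_analyticAt).and (he.and he'))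
    obtain ⟨z', hz'1, hz'2⟩ := mem_closure_iff_nhds.mp hz1 (ball z r) (ball_mem_nhds z hr)
    have hz'A : ∀ᶠ w in 𝓝 z', f w = g w := hz'2
    have hprop : ∀ i j, ∀ w ∈ ball z r, φ w i * χ w j - φ w j * χ w i = 0 := by
      intro i j
      have han : AnalyticOnNhd ℂ (fun w => φ w i * χ w j - φ w j * χ w i) (ball z r) := by
        intro w hw
        have h1 := analyticAt_pi_iff.mp (hr1 w hw).1.1
        have h2 := analyticAt_pi_iff.mp (hr1 w hw).1.2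
        exact ((h1 i).mul (h2 j)).sub ((h1 j).mul (h2 i))
      have h0 : (fun w => φ w i * χ w j - φ w j * χ w i) =ᶠ[𝓝 z'] 0 := by
        filter_upwards [hz'A, isOpen_ball.mem_nhds hz'1] with w hw1 hw2
        obtain ⟨⟨h1, h2⟩, h3, h4⟩ := (hr1 w hw2).2
        rw [h2, h4, Projectivization.mk_eq_mk_iff'] at hw1
        obtain ⟨a, ha⟩ := hw1
        simp only [← ha, Pi.smul_apply, smul_eq_mul, Pi.zero_apply]
        ring
      exact han.eqOn_zero_of_preconnected_of_eventuallyEq_zero (convex_ball z r).isPreconnected hz'1 h0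
    show ∀ᶠ w in 𝓝 z, f w = g w
    filter_upwards [ball_mem_nhds z hr] with w hw
    obtain ⟨⟨h1, h2⟩, h3, h4⟩ := (hr1 w hw).2
    rw [h2, h4, Projectivization.mk_eq_mk_iff']
    obtain ⟨j, hj⟩ : ∃ j, χ w j ≠ 0 := by
      by_contra hcon
      push Not at hcon
      exact h3 (funext hcon)
    refine ⟨φ w j / χ w j, ?_⟩
    funext i
    have h5 := hprop i j w hw
    simp only [Pi.smul_apply, smul_eq_mul]
    field_simp
    linear_combination -h5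
  have hAU : U ⊆ A := hUc.subset_of_closure_inter_subset hAo ⟨z₀, hz₀, h⟩ hcl
  intro z hz
  have h1 : ∀ᶠ w in 𝓝 z, f w = g w := hAU hz
  exact h1.self_of_nhds

end Pool.Agent.H7.Bir

end
end

section

/-!
# TG Dyn: the abstract dynamical situation (`EL/Dyn` with `EN k = ℂ^(k+1)` for `ℂ`)

`S` is a compact, `Γ`-invariant family of maps `ℂ^(k+1) \ D → Y` (maps `EN k → Y` whose values on `D` do not matter), `D` is a closed
`Γ`-invariant set.  `Nz z y y'` means that the integral between the near points `y`, `y'` over `z` is `0`; it may hold for different points, but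
only near the closed set `Zr`.  Closeness is known on the closed set `G`, and the conclusions hold on the open set `O ⊆ G`.
-/

set_option autoImplicit false

open Topology Filter Metric

namespace Pool.Agent.TG

open Pool.Agent.H36.BP (EN)

/-- the two maps agree outside `D` -/
def Ag {V Y : Type} (D : Set V) (f g : V → Y) : Prop := ∀ z, z ∉ D → f z = g z

/-- the abstract situation -/
structure Dyn {k : ℕ} {Y : Type} [MetricSpace Y] (K : Set Y) (Γ : AddSubgroup (EN k)) (D G O : Set (EN k)) (S : Set (EN k → Y))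
    (Zr : EN k → Y → Prop) (Nz : EN k → Y → Y → Prop) : Prop where
  compact : IsCompact K
  cpt : ∃ R : ℝ, 0 < R ∧ ∀ z : EN k, ∃ l ∈ Γ, ‖z - l‖ ≤ R
  D_closed : IsClosed D
  D_inv : ∀ z, ∀ l ∈ Γ, (z + l ∈ D ↔ z ∈ D)
  G_closed : IsClosed G
  G_inv : ∀ z, ∀ l ∈ Γ, (z + l ∈ G ↔ z ∈ G)
  G_D : ∀ z ∈ G, z ∉ D
  O_open : IsOpen O
  O_inv : ∀ z, ∀ l ∈ Γ, (z + l ∈ O ↔ z ∈ O)
  O_sub : O ⊆ G
  O_ne : O.Nonempty
  mem : ∀ f ∈ S, ∀ z, z ∉ D → f z ∈ K
  lip : ∀ z, z ∉ D → ∃ L r : ℝ, 0 < L ∧ 0 < r ∧ ∀ f ∈ S, ∀ w ∈ ball z r, ∀ w' ∈ ball z r, dist (f w) (f w') ≤ L * ‖w - w'‖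
  trans : ∀ f ∈ S, ∀ l ∈ Γ, (fun z => f (z + l)) ∈ S
  lim : ∀ (𝒰 : Ultrafilter ℕ) (F : ℕ → EN k → Y) (f : EN k → Y), (∀ᶠ n in (𝒰 : Filter ℕ), F n ∈ S) →
    (∀ z, z ∉ D → Tendsto (fun n => F n z) 𝒰 (𝓝 (f z))) → f ∈ S
  uniq : ∀ f ∈ S, ∀ g ∈ S, ∀ z₀, z₀ ∉ D → (∀ᶠ z in 𝓝 z₀, f z = g z) → Ag D f g
  Z_inv : ∀ z, ∀ l ∈ Γ, ∀ y, Zr (z + l) y ↔ Zr z y
  Z_lim : ∀ (𝒰 : Ultrafilter ℕ) (F : ℕ → EN k → Y), ∀ f ∈ S, (∀ᶠ n in (𝒰 : Filter ℕ), F n ∈ S) →
    (∀ z, z ∉ D → Tendsto (fun n => F n z) 𝒰 (𝓝 (f z))) → ∀ z ∈ O, (∀ᶠ n in (𝒰 : Filter ℕ), Zr z (F n z)) → Zr z (f z)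
  N_inv : ∀ z, ∀ l ∈ Γ, ∀ y y', Nz (z + l) y y' ↔ Nz z y y'
  half : ∃ r₁ ε₀ : ℝ, 0 < r₁ ∧ 0 < ε₀ ∧ ∀ f ∈ S, ∀ g ∈ S, ∀ (ζ : EN k) (t : ℝ), ‖ζ‖ = 1 →
    (∀ z ∈ G, (inner ℂ ζ z : ℂ).re ≤ t → dist (f z) (g z) ≤ ε₀) → ∀ z ∈ O, (inner ℂ ζ z : ℂ).re ≤ t - r₁ → Nz z (f z) (g z)
  near : ∀ (𝒰 : Ultrafilter ℕ) (F H : ℕ → EN k → Y) (w : ℕ → EN k), ∀ f ∈ S, ∀ z ∈ O,
    (∀ᶠ n in (𝒰 : Filter ℕ), F n ∈ S ∧ H n ∈ S) → (∀ z, z ∉ D → Tendsto (fun n => F n z) 𝒰 (𝓝 (f z))) →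
    (∀ z, z ∉ D → Tendsto (fun n => H n z) 𝒰 (𝓝 (f z))) → Tendsto w 𝒰 (𝓝 z) →
    (∀ᶠ n in (𝒰 : Filter ℕ), w n ∈ O ∧ F n (w n) ≠ H n (w n) ∧ Nz (w n) (F n (w n)) (H n (w n))) → Zr z (f z)
  iso : ∀ e ∈ S, (∀ z ∈ O, Zr z (e z)) → ∃ (z₀ : EN k) (r ε : ℝ), 0 < r ∧ 0 < ε ∧ ball z₀ r ⊆ O ∧
    ∀ g ∈ S, ∀ z ∈ ball z₀ r, dist (g z) (e z) < ε → (Nz z (e z) (g z) ∨ Zr z (g z)) → g z = e z

/-- the members of `S` inside `Zr` -/
def ZS {V Y : Type} (O : Set V) (S : Set (V → Y)) (Zr : V → Y → Prop) : Set (V → Y) :=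
  {e | e ∈ S ∧ ∀ z ∈ O, Zr z (e z)}

end Pool.Agent.TG

end

section

/-!
# TG DyL: the abstract dynamical situation in a real inner product space, limits and translations

`DynE` is `Dyn` with a real inner product space `E` for `ℂ^(k+1)` (fields as there).
-/

set_option autoImplicit false
set_option linter.unusedSectionVars false

open Topology Filter Metric RealInnerProductSpace

namespace Pool.Agent.TG

/-- the abstract situation in a real inner product space -/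
structure DynE {E : Type} [NormedAddCommGroup E] [InnerProductSpace ℝ E] {Y : Type} [MetricSpace Y] (K : Set Y) (Λ : AddSubgroup E)
    (D G O : Set E) (S : Set (E → Y)) (Zr : E → Y → Prop) (N : E → Y → Y → Prop) : Prop where
  compact : IsCompact K
  cpt : ∃ R : ℝ, 0 < R ∧ ∀ z : E, ∃ l ∈ Λ, ‖z - l‖ ≤ R
  D_closed : IsClosed D
  D_inv : ∀ z, ∀ l ∈ Λ, (z + l ∈ D ↔ z ∈ D)
  G_closed : IsClosed G
  G_inv : ∀ z, ∀ l ∈ Λ, (z + l ∈ G ↔ z ∈ G)
  G_D : ∀ z ∈ G, z ∉ D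
  O_open : IsOpen O
  O_inv : ∀ z, ∀ l ∈ Λ, (z + l ∈ O ↔ z ∈ O)
  O_sub : O ⊆ G
  O_ne : O.Nonempty
  mem : ∀ f ∈ S, ∀ z, z ∉ D → f z ∈ K
  lip : ∀ z, z ∉ D → ∃ L r : ℝ, 0 < L ∧ 0 < r ∧ ∀ f ∈ S, ∀ w ∈ ball z r, ∀ w' ∈ ball z r, dist (f w) (f w') ≤ L * ‖w - w'‖
  trans : ∀ f ∈ S, ∀ l ∈ Λ, (fun z => f (z + l)) ∈ S
  lim : ∀ (𝒰 : Ultrafilter ℕ) (F : ℕ → E → Y) (f : E → Y), (∀ᶠ n in (𝒰 : Filter ℕ), F n ∈ S) →
    (∀ z, z ∉ D → Tendsto (fun n => F n z) 𝒰 (𝓝 (f z))) → f ∈ S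
  uniq : ∀ f ∈ S, ∀ g ∈ S, ∀ z₀, z₀ ∉ D → (∀ᶠ z in 𝓝 z₀, f z = g z) → Ag D f g
  Z_inv : ∀ z, ∀ l ∈ Λ, ∀ y, Zr (z + l) y ↔ Zr z y
  Z_lim : ∀ (𝒰 : Ultrafilter ℕ) (F : ℕ → E → Y), ∀ f ∈ S, (∀ᶠ n in (𝒰 : Filter ℕ), F n ∈ S) →
    (∀ z, z ∉ D → Tendsto (fun n => F n z) 𝒰 (𝓝 (f z))) → ∀ z ∈ O, (∀ᶠ n in (𝒰 : Filter ℕ), Zr z (F n z)) → Zr z (f z)
  N_inv : ∀ z, ∀ l ∈ Λ, ∀ y y', N (z + l) y y' ↔ N z y y'
  half : ∃ r₁ ε₀ : ℝ, 0 < r₁ ∧ 0 < ε₀ ∧ ∀ f ∈ S, ∀ g ∈ S, ∀ (ζ : E) (t : ℝ), ‖ζ‖ = 1 →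
    (∀ z ∈ G, ⟪ζ, z⟫ ≤ t → dist (f z) (g z) ≤ ε₀) → ∀ z ∈ O, ⟪ζ, z⟫ ≤ t - r₁ → N z (f z) (g z)
  near : ∀ (𝒰 : Ultrafilter ℕ) (F H : ℕ → E → Y) (w : ℕ → E), ∀ f ∈ S, ∀ z ∈ O,
    (∀ᶠ n in (𝒰 : Filter ℕ), F n ∈ S ∧ H n ∈ S) → (∀ z, z ∉ D → Tendsto (fun n => F n z) 𝒰 (𝓝 (f z))) →
    (∀ z, z ∉ D → Tendsto (fun n => H n z) 𝒰 (𝓝 (f z))) → Tendsto w 𝒰 (𝓝 z) →
    (∀ᶠ n in (𝒰 : Filter ℕ), w n ∈ O ∧ F n (w n) ≠ H n (w n) ∧ N (w n) (F n (w n)) (H n (w n))) → Zr z (f z)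
  iso : ∀ e ∈ S, (∀ z ∈ O, Zr z (e z)) → ∃ (z₀ : E) (r ε : ℝ), 0 < r ∧ 0 < ε ∧ ball z₀ r ⊆ O ∧
    ∀ g ∈ S, ∀ z ∈ ball z₀ r, dist (g z) (e z) < ε → (N z (e z) (g z) ∨ Zr z (g z)) → g z = e z

variable {E : Type} [NormedAddCommGroup E] [InnerProductSpace ℝ E] [ProperSpace E]
variable {Y : Type} [MetricSpace Y] {K : Set Y} {Λ : AddSubgroup E} {D G O : Set E} {S : Set (E → Y)}
  {Zr : E → Y → Prop} {N : E → Y → Y → Prop}

theorem DynE.g_add (h : DynE K Λ D G O S Zr N) {z l : E} (hl : l ∈ Λ) : z + l ∈ G ↔ z ∈ G := h.G_inv z l hl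

theorem DynE.o_add (h : DynE K Λ D G O S Zr N) {z l : E} (hl : l ∈ Λ) : z + l ∈ O ↔ z ∈ O := h.O_inv z l hl

theorem DynE.notMem_add (h : DynE K Λ D G O S Zr N) {z l : E} (hl : l ∈ Λ) : z + l ∉ D ↔ z ∉ D :=
  not_iff_not.2 (h.D_inv z l hl)

theorem DynE.o_notMem (h : DynE K Λ D G O S Zr N) {z : E} (hz : z ∈ O) : z ∉ D := h.G_D z (h.O_sub hz)

theorem DynE.exists_lim (h : DynE K Λ D G O S Zr N) (𝒰 : Ultrafilter ℕ) (F : ℕ → E → Y) (hF : ∀ᶠ n in (𝒰 : Filter ℕ), F n ∈ S) :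
    ∃ f ∈ S, ∀ z, z ∉ D → Tendsto (fun n => F n z) 𝒰 (𝓝 (f z)) := by
  have key : ∀ z, ∃ y : Y, z ∉ D → Tendsto (fun n => F n z) 𝒰 (𝓝 y) := by
    intro z
    by_cases hz : z ∈ D
    · exact ⟨F 0 z, fun h' => absurd hz h'⟩
    · have h1 : ((𝒰.map fun n => F n z : Ultrafilter Y) : Filter Y) ≤ 𝓟 K := by
        rw [Filter.le_principal_iff]
        show ∀ᶠ n in (𝒰 : Filter ℕ), F n z ∈ K
        filter_upwards [hF] with n hn
        exact h.mem _ hn z hz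
      obtain ⟨y, _, hy⟩ := h.compact.ultrafilter_le_nhds _ h1
      exact ⟨y, fun _ => hy⟩
  choose f hf using key
  exact ⟨f, h.lim 𝒰 F f hF hf, hf⟩

/-- the convergence is locally uniform outside `D`: uniform on the bounded parts of `G` -/
theorem DynE.unif (h : DynE K Λ D G O S Zr N) (𝒰 : Ultrafilter ℕ) (F : ℕ → E → Y) (hF : ∀ᶠ n in (𝒰 : Filter ℕ), F n ∈ S)
    {f : E → Y} (hfS : f ∈ S) (hf : ∀ z, z ∉ D → Tendsto (fun n => F n z) 𝒰 (𝓝 (f z))) (R ε : ℝ)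
    (hε : 0 < ε) : ∀ᶠ n in (𝒰 : Filter ℕ), ∀ z ∈ G, ‖z‖ ≤ R → dist (F n z) (f z) < ε := by
  have hcpt : IsCompact (G ∩ closedBall (0 : E) R) := (isCompact_closedBall 0 R).inter_left h.G_closed
  have key : ∀ x ∈ G ∩ closedBall (0 : E) R, ∃ s : ℝ, 0 < s ∧ ∀ᶠ n in (𝒰 : Filter ℕ), ∀ z ∈ ball x s, dist (F n z) (f z) < ε := by
    intro x hx
    have hxD := h.G_D x hx.1
    obtain ⟨L, r, hL, hr, hlip⟩ := h.lip x hxD
    refine ⟨min r (ε / (4 * L)), lt_min hr (by positivity), ?_⟩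
    have h1 : ∀ᶠ n in (𝒰 : Filter ℕ), dist (F n x) (f x) < ε / 4 :=
      (tendsto_iff_dist_tendsto_zero.mp (hf x hxD)).eventually_lt_const (by positivity)
    filter_upwards [hF, h1] with n hn hn2 z hz
    rw [mem_ball] at hz
    have hz1 : z ∈ ball x r := by
      rw [mem_ball]
      exact hz.trans_le (min_le_left _ _)
    have hz2 : L * ‖x - z‖ ≤ ε / 4 := by
      have h2 : ‖x - z‖ ≤ ε / (4 * L) := by
        rw [← dist_eq_norm, dist_comm]
        exact hz.le.trans (min_le_right _ _)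
      calc L * ‖x - z‖ ≤ L * (ε / (4 * L)) := mul_le_mul_of_nonneg_left h2 hL.le
        _ = ε / 4 := by field_simp
    have h3 := hlip (F n) hn x (mem_ball_self hr) z hz1
    have h4 := hlip f hfS x (mem_ball_self hr) z hz1
    have h5 := dist_triangle4 (F n z) (F n x) (f x) (f z)
    rw [dist_comm (F n z) (F n x)] at h5
    linarith
  choose! s hs hs2 using key
  obtain ⟨t, htC, hcov⟩ := hcpt.elim_nhds_subcover (fun x => ball x (s x)) (fun x hx => ball_mem_nhds x (hs x hx))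
  have hev : ∀ᶠ n in (𝒰 : Filter ℕ), ∀ x ∈ t, ∀ z ∈ ball x (s x), dist (F n z) (f z) < ε := by
    rw [Filter.eventually_all_finset]
    intro x hx
    exact hs2 x (htC x hx)
  filter_upwards [hev] with n hn z hz hzR
  obtain ⟨x, hx, hzx⟩ := Set.mem_iUnion₂.mp (hcov ⟨hz, by rwa [mem_closedBall, dist_zero_right]⟩)
  exact hn x hx z hzx

theorem DynE.tendsto_along (h : DynE K Λ D G O S Zr N) (𝒰 : Ultrafilter ℕ) (F : ℕ → E → Y) (hF : ∀ᶠ n in (𝒰 : Filter ℕ), F n ∈ S)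
    {f : E → Y} (hf : ∀ z, z ∉ D → Tendsto (fun n => F n z) 𝒰 (𝓝 (f z))) {w : ℕ → E} {z : E} (hz : z ∉ D)
    (hw : Tendsto w 𝒰 (𝓝 z)) : Tendsto (fun n => F n (w n)) 𝒰 (𝓝 (f z)) := by
  obtain ⟨L, r, hL, hr, hlip⟩ := h.lip z hz
  rw [tendsto_iff_dist_tendsto_zero]
  have h1 : Tendsto (fun n => L * dist z (w n) + dist (F n z) (f z)) 𝒰 (𝓝 (L * 0 + 0)) := by
    refine Tendsto.add (Tendsto.const_mul L ?_) (tendsto_iff_dist_tendsto_zero.mp (hf z hz))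
    have h2 := tendsto_iff_dist_tendsto_zero.mp hw
    simp only [dist_comm z]
    exact h2
  rw [mul_zero, add_zero] at h1
  refine squeeze_zero' (Eventually.of_forall fun _ => dist_nonneg) ?_ h1
  have h2 : ∀ᶠ n in (𝒰 : Filter ℕ), w n ∈ ball z r := hw.eventually (ball_mem_nhds z hr)
  filter_upwards [hF, h2] with n hn hn2
  have h3 := hlip (F n) hn z (mem_ball_self hr) (w n) hn2
  rw [← dist_eq_norm] at h3
  have h4 := dist_triangle_left (F n (w n)) (f z) (F n z)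
  linarith

/-- two different members of `S` differ at points of `O` near any point of it -/
theorem DynE.exists_ne (h : DynE K Λ D G O S Zr N) {f g : E → Y} (hf : f ∈ S) (hg : g ∈ S) (hne : ¬ Ag D f g) {z : E}
    (hz : z ∈ O) {ε : ℝ} (hε : 0 < ε) : ∃ w ∈ O, ‖w - z‖ < ε ∧ f w ≠ g w := by
  by_contra hcon
  push Not at hcon
  apply hne
  refine h.uniq f hf g hg z (h.o_notMem hz) ?_
  filter_upwards [ball_mem_nhds z hε, h.O_open.mem_nhds hz] with w hw hwO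
  exact hcon w hwO (by rwa [mem_ball, dist_eq_norm] at hw)

theorem DynE.zs_trans (h : DynE K Λ D G O S Zr N) {e : E → Y} (he : e ∈ ZS O S Zr) {l : E} (hl : l ∈ Λ) :
    (fun z => e (z + l)) ∈ ZS O S Zr := by
  refine ⟨h.trans e he.1 l hl, fun z hz => ?_⟩
  exact (h.Z_inv z l hl _).1 (he.2 (z + l) ((h.o_add hl).2 hz))

theorem DynE.zs_lim (h : DynE K Λ D G O S Zr N) (𝒰 : Ultrafilter ℕ) (F : ℕ → E → Y) (hF : ∀ᶠ n in (𝒰 : Filter ℕ), F n ∈ ZS O S Zr)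
    {f : E → Y} (hf : ∀ z, z ∉ D → Tendsto (fun n => F n z) 𝒰 (𝓝 (f z))) : f ∈ ZS O S Zr := by
  have h1 : ∀ᶠ n in (𝒰 : Filter ℕ), F n ∈ S := hF.mono fun n hn => hn.1
  have h2 : f ∈ S := h.lim 𝒰 F f h1 hf
  refine ⟨h2, fun z hz => ?_⟩
  exact h.Z_lim 𝒰 F f h2 h1 hf z hz (hF.mono fun n hn => hn.2 z hz)

theorem DynE.ag_trans (h : DynE K Λ D G O S Zr N) {f g : E → Y} {l : E} (hl : l ∈ Λ) :
    Ag D (fun z => f (z + l)) (fun z => g (z + l)) ↔ Ag D f g := by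
  constructor
  · intro h1 z hz
    have h2 : z - l ∉ D := by
      have h3 := (h.notMem_add (z := z - l) hl).1
      rw [sub_add_cancel] at h3
      exact h3 hz
    have h4 : f (z - l + l) = g (z - l + l) := h1 (z - l) h2
    rwa [sub_add_cancel] at h4
  · intro h1 z hz
    exact h1 (z + l) ((h.notMem_add hl).2 hz)

end Pool.Agent.TG

end

section

/-!
# TG DyB: the members of `S` inside `Zr` are uniformly separated

By contradiction: for every `n` there are `e_n`, `g_n` in `ZS`, not in agreement, and `a_n` with `dist (e_n z) (g_n z) ≤ 1/(n+1)` for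
`z ∈ G`, `‖z - a_n‖ ≤ n`.  Choose `l_n ∈ Λ`, `‖a_n - l_n‖ ≤ R` (lattice) and translate: `e'_n = e_n (· + l_n)`, `g'_n`; they are in
`ZS` (`zs_trans`: `trans`, `Z_inv`, `gd_add`), and `1/(n+1)`-close at the points of `G` with `‖z‖ ≤ n - R`.  Let `𝒰` be an
ultrafilter `≤ atTop` and `e ∈ S` the limit of `e'_n` (`exists_lim`); `e ∈ ZS` by `Z_lim`; `g'_n` has the same limit.  Let `z₀, r, ε` be
from `iso e`.  By `unif` (`ball z₀ (r/2)` is bounded and inside `Gd D (2δ)`), eventually `dist (e'_n z) (e z) < ε` and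
`dist (g'_n z) (e z) < ε` on `ball z₀ (r/2)`, so `e'_n z = e z = g'_n z` there (`iso`, second alternative; `e'_n, g'_n ∈ ZS`).  By `uniq`
(`z₀ ∉ D`) `Ag D e'_n g'_n`, so `Ag D e_n g_n` (translate back): contradiction.
-/

set_option autoImplicit false
set_option linter.unusedSectionVars false

open Topology Filter Metric RealInnerProductSpace

namespace Pool.Agent.TG

variable {E : Type} [NormedAddCommGroup E] [InnerProductSpace ℝ E] [ProperSpace E]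
variable {Y : Type} [MetricSpace Y] {K : Set Y} {Λ : AddSubgroup E} {D G O : Set E} {S : Set (E → Y)}
  {Zr : E → Y → Prop} {N : E → Y → Y → Prop}

theorem DynE.sep (h : DynE K Λ D G O S Zr N) : ∃ ε₁ n₁ : ℝ, 0 < ε₁ ∧ 0 < n₁ ∧ ∀ e ∈ ZS O S Zr, ∀ g ∈ ZS O S Zr, ∀ a : E,
    (∀ z ∈ G, ‖z - a‖ ≤ n₁ → dist (e z) (g z) ≤ ε₁) → Ag D e g := by
  by_contra hcon
  have hcon' : ∀ n : ℕ, ∃ e ∈ ZS O S Zr, ∃ g ∈ ZS O S Zr, ∃ a : E,
      (∀ z ∈ G, ‖z - a‖ ≤ (n : ℝ) + 1 → dist (e z) (g z) ≤ 1 / ((n : ℝ) + 1)) ∧ ¬ Ag D e g := by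
    intro n
    by_contra h1
    apply hcon
    refine ⟨1 / ((n : ℝ) + 1), (n : ℝ) + 1, by positivity, by positivity, ?_⟩
    intro e he g hg a h2
    by_contra h3
    exact h1 ⟨e, he, g, hg, a, h2, h3⟩
  choose e he g hg a hclose hne using hcon'
  obtain ⟨R, hR, hlat⟩ := h.cpt
  choose l hl hla using fun n => hlat (a n)
  obtain ⟨𝒰, h𝒰⟩ : ∃ 𝒰 : Ultrafilter ℕ, (𝒰 : Filter ℕ) ≤ atTop := ⟨Ultrafilter.of atTop, Ultrafilter.of_le _⟩
  have he' : ∀ n, (fun z => e n (z + l n)) ∈ ZS O S Zr := fun n => h.zs_trans (he n) (hl n)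
  have hg' : ∀ n, (fun z => g n (z + l n)) ∈ ZS O S Zr := fun n => h.zs_trans (hg n) (hl n)
  have hclose' : ∀ n : ℕ, ∀ z ∈ G, ‖z‖ + R ≤ (n : ℝ) + 1 →
      dist (e n (z + l n)) (g n (z + l n)) ≤ 1 / ((n : ℝ) + 1) := by
    intro n z hz hzn
    refine hclose n (z + l n) ((h.g_add (hl n)).2 hz) ?_
    have h1 : z + l n - a n = z - (a n - l n) := by abel
    rw [h1]
    exact (norm_sub_le _ _).trans (by linarith [hla n])
  obtain ⟨f, hfS, hf⟩ := h.exists_lim 𝒰 (fun n z => e n (z + l n)) (Filter.Eventually.of_forall fun n => (he' n).1)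
  obtain ⟨f₂, hf₂S, hf₂⟩ := h.exists_lim 𝒰 (fun n z => g n (z + l n)) (Filter.Eventually.of_forall fun n => (hg' n).1)
  have hfZ : f ∈ ZS O S Zr := h.zs_lim 𝒰 (fun n z => e n (z + l n)) (Filter.Eventually.of_forall he') hf
  -- the two limits agree
  have heq : ∀ z ∈ G, f z = f₂ z := by
    intro z hz
    have hzB : z ∉ D := h.G_D z hz
    have h1 : Tendsto (fun n : ℕ => dist (e n (z + l n)) (g n (z + l n))) 𝒰 (𝓝 0) := by
      have h2 : Tendsto (fun n : ℕ => 1 / ((n : ℝ) + 1)) 𝒰 (𝓝 0) :=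
        tendsto_one_div_add_atTop_nhds_zero_nat.mono_left h𝒰
      refine tendsto_of_tendsto_of_tendsto_of_le_of_le' tendsto_const_nhds h2
        (Filter.Eventually.of_forall fun n => dist_nonneg) ?_
      have h3 : ∀ᶠ n : ℕ in atTop, ‖z‖ + R ≤ (n : ℝ) + 1 := by
        filter_upwards [tendsto_natCast_atTop_atTop.eventually_ge_atTop (‖z‖ + R)] with n hn
        linarith
      filter_upwards [h𝒰 h3] with n hn
      exact hclose' n z hz hn
    exact tendsto_nhds_unique ((tendsto_iff_of_dist h1).1 (hf z hzB)) (hf₂ z hzB)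
  obtain ⟨z₀, r, ε, hr, hε, hball, hiso⟩ := h.iso f hfS hfZ.2
  have hz₀ : z₀ ∈ ball z₀ r := mem_ball_self hr
  have hz₀B : z₀ ∉ D := h.o_notMem (hball hz₀)
  have hAg : Ag D f f₂ := by
    refine h.uniq f hfS f₂ hf₂S z₀ hz₀B ?_
    filter_upwards [isOpen_ball.mem_nhds hz₀] with z hz
    exact heq z (h.O_sub (hball hz))
  have hf₂' : ∀ z, z ∉ D → Tendsto (fun n => g n (z + l n)) 𝒰 (𝓝 (f z)) := by
    intro z hz
    rw [hAg z hz]
    exact hf₂ z hz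
  have hu1 := h.unif 𝒰 (fun n z => e n (z + l n)) (Filter.Eventually.of_forall fun n => (he' n).1) hfS hf
    (‖z₀‖ + r) ε hε
  have hu2 := h.unif 𝒰 (fun n z => g n (z + l n)) (Filter.Eventually.of_forall fun n => (hg' n).1) hfS hf₂'
    (‖z₀‖ + r) ε hε
  obtain ⟨n, h1, h2⟩ := (hu1.and hu2).exists
  refine hne n ((h.ag_trans (hl n)).1 ?_)
  refine h.uniq _ (he' n).1 _ (hg' n).1 z₀ hz₀B ?_
  have h3 : ∀ᶠ z in 𝓝 z₀, e n (z + l n) = g n (z + l n) := by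
    filter_upwards [isOpen_ball.mem_nhds hz₀] with z hz
    have hzn : ‖z‖ ≤ ‖z₀‖ + r := by
      rw [mem_ball, dist_eq_norm] at hz
      have h4 : z = z₀ + (z - z₀) := by abel
      calc ‖z‖ = ‖z₀ + (z - z₀)‖ := by rw [← h4]
        _ ≤ ‖z₀‖ + ‖z - z₀‖ := norm_add_le _ _
        _ ≤ ‖z₀‖ + r := by linarith
    have h5 : e n (z + l n) = f z :=
      hiso _ (he' n).1 z hz (h1 z (h.O_sub (hball hz)) hzn) (Or.inr ((he' n).2 z (hball hz)))
    have h6 : g n (z + l n) = f z :=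
      hiso _ (hg' n).1 z hz (h2 z (h.O_sub (hball hz)) hzn) (Or.inr ((hg' n).2 z (hball hz)))
    rw [h5, h6]
  exact h3

end Pool.Agent.TG

end
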