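import Pool.Agent.H94.G4T.M03
import Pool.Agent.H94.G4T.M57

/-! The parts of this file: G3.C.JetComp, H13.CV.CubD, H13.CV.CubA, H13.CV.CubX, H62.EF.ChEx. -/

section

/-!
# G3 C JetComp: analytic functions of smooth families are smooth families

Say that `g : ℝ → ℂ → ℂ` is in `J_n` if there are `g_0 = g, …, g_n` on `I × D`, continuous, holomorphic in `z`, `g_{j+1}` the `s`-derivative of `g_j` for `j < n`.
CLAIM `S n`: for all finite types `ι : Type`, all families `f : ι → …` of `JetFam`s and all analytic `Q`: `Q (s, z, (f i 0 s z)_i) ∈ J_n`.  Induction on `n`: the `s`-derivative is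
`fderiv Q (1, 0, 0) + ∑ i, f i 1 s z * fderiv Q (0, 0, Pi.single i 1)`, an analytic function of `(s, z, (f i 0, f i 1)_i)`, index type `ι ⊕ ι`, with the shifted families.
`g_j` is unique on the open set `I`: `g_j s z = iteratedDeriv j (fun t => g t z) s`; this gives one sequence for all `n`.
`jet_fill`: `v j s z = (2 π i)⁻¹ ∮ W j s ζ / (ζ - z) dζ` over the circle, `W j s ζ = iteratedDeriv j (fun t => w t ζ) s`; derivative under the integral sign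
(`hasDerivAt_integral_of_dominated_loc_of_deriv_le`).
-/

set_option autoImplicit false

open Topology Filter Metric

namespace Pool.Agent.G3.C

/-- families of functions with `n` derivatives in `s` -/
private def Sm (I : Set ℝ) (D : Set ℂ) : ℕ → (ℝ → ℂ → ℂ) → Prop
  | 0, g => ContinuousOn (fun q : ℝ × ℂ => g q.1 q.2) (I ×ˢ D) ∧ ∀ s ∈ I, DifferentiableOn ℂ (g s) D
  | n + 1, g => (ContinuousOn (fun q : ℝ × ℂ => g q.1 q.2) (I ×ˢ D) ∧ ∀ s ∈ I, DifferentiableOn ℂ (g s) D) ∧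
      ∃ g' : ℝ → ℂ → ℂ, (∀ s ∈ I, ∀ z ∈ D, HasDerivAt (fun t => g t z) (g' s z) s) ∧ Sm I D n g'

private theorem sm_base {I : Set ℝ} {D : Set ℂ} {n : ℕ} {g : ℝ → ℂ → ℂ} (h : Sm I D n g) :
    ContinuousOn (fun q : ℝ × ℂ => g q.1 q.2) (I ×ˢ D) ∧ ∀ s ∈ I, DifferentiableOn ℂ (g s) D := by
  cases n with
  | zero => exact h
  | succ n => exact h.1

private theorem sm_congr {I : Set ℝ} {D : Set ℂ} (hI : IsOpen I) {n : ℕ} {g h : ℝ → ℂ → ℂ} (hg : Sm I D n g) (he : ∀ s ∈ I, ∀ z ∈ D, h s z = g s z) : Sm I D n h := by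
  have hb : ContinuousOn (fun q : ℝ × ℂ => h q.1 q.2) (I ×ˢ D) ∧ ∀ s ∈ I, DifferentiableOn ℂ (h s) D := by
    obtain ⟨h1, h2⟩ := sm_base hg
    exact ⟨h1.congr fun q hq => he q.1 hq.1 q.2 hq.2, fun s hs => (h2 s hs).congr fun z hz => he s hs z hz⟩
  cases n with
  | zero => exact hb
  | succ n =>
    obtain ⟨-, g', h1, h2⟩ := hg
    refine ⟨hb, g', fun s hs z hz => ?_, h2⟩
    refine (h1 s hs z hz).congr_of_eventuallyEq ?_
    filter_upwards [hI.mem_nhds hs] with t ht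
    exact he t ht z hz

private theorem sm_deriv {I : Set ℝ} {D : Set ℂ} (hI : IsOpen I) {n : ℕ} {g : ℝ → ℂ → ℂ} (hg : Sm I D (n + 1) g) : Sm I D n fun s z => deriv (fun t => g t z) s := by
  obtain ⟨-, g', h1, h2⟩ := hg
  exact sm_congr hI h2 fun s hs z hz => (h1 s hs z hz).deriv

/-- one sequence for all `n` -/
private theorem jet_of_sm {I : Set ℝ} {D : Set ℂ} (hI : IsOpen I) {g : ℝ → ℂ → ℂ} (hg : ∀ n, Sm I D n g) :
    JetFam (fun j s z => iteratedDeriv j (fun t => g t z) s) I D := by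
  have key : ∀ j n, Sm I D n fun s z => iteratedDeriv j (fun t => g t z) s := by
    intro j
    induction j with
    | zero =>
      intro n
      simpa only [iteratedDeriv_zero] using hg n
    | succ j ih =>
      intro n
      have h1 := sm_deriv hI (ih (n + 1))
      simpa only [iteratedDeriv_succ] using h1
  refine ⟨fun j s hs z hz => ?_, fun j => (sm_base (key j 0)).1, fun j => (sm_base (key j 0)).2⟩
  obtain ⟨-, g', h1, -⟩ := key j 1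
  have h2 := h1 s hs z hz
  have h3 := h2.deriv
  rw [iteratedDeriv_succ]
  rw [← h3] at h2
  exact h2

private theorem jet_shift {w : ℕ → ℝ → ℂ → ℂ} {I : Set ℝ} {D : Set ℂ} (hw : JetFam w I D) : JetFam (fun j => w (j + 1)) I D :=
  ⟨fun j s hs z hz => hw.der (j + 1) s hs z hz, fun j => hw.cont (j + 1), fun j => hw.hol (j + 1)⟩

open Classical in
private theorem split_pi {ι : Type} [Fintype ι] (v : ι → ℂ) :
    ((1, 0, v) : ℂ × ℂ × (ι → ℂ)) = (1, 0, 0) + ∑ j : ι, v j • ((0, 0, Pi.single j 1) : ℂ × ℂ × (ι → ℂ)) := by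
  have h : (v : ι → ℂ) = ∑ j : ι, v j • (Pi.single j 1 : ι → ℂ) := by
    ext i
    simp [Finset.sum_apply, Pi.single_apply]
  have h2 : ((0, 0, v) : ℂ × ℂ × (ι → ℂ)) = ∑ j : ι, v j • ((0, 0, Pi.single j 1) : ℂ × ℂ × (ι → ℂ)) := by
    rw [Prod.ext_iff, Prod.ext_iff]
    refine ⟨by simp [Prod.fst_sum], by simp [Prod.fst_sum, Prod.snd_sum], ?_⟩
    simp only [Prod.snd_sum, Prod.smul_snd]
    exact h
  rw [← h2]
  simp

private theorem comp_sm {I : Set ℝ} {D : Set ℂ} (hI : IsOpen I) (hD : IsOpen D) (n : ℕ) : ∀ (ι : Type) [Fintype ι] (f : ι → ℕ → ℝ → ℂ → ℂ), (∀ i, JetFam (f i) I D) →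
    ∀ (O : Set (ℂ × ℂ × (ι → ℂ))) (Q : ℂ × ℂ × (ι → ℂ) → ℂ), AnalyticOnNhd ℂ Q O → (∀ s ∈ I, ∀ z ∈ D, ((s : ℂ), z, fun i => f i 0 s z) ∈ O) →
    Sm I D n fun s z => Q ((s : ℂ), z, fun i => f i 0 s z) := by
  have hbase : ∀ (ι : Type) [Fintype ι] (f : ι → ℕ → ℝ → ℂ → ℂ), (∀ i, JetFam (f i) I D) →
      ∀ (O : Set (ℂ × ℂ × (ι → ℂ))) (Q : ℂ × ℂ × (ι → ℂ) → ℂ), AnalyticOnNhd ℂ Q O → (∀ s ∈ I, ∀ z ∈ D, ((s : ℂ), z, fun i => f i 0 s z) ∈ O) →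
      ContinuousOn (fun q : ℝ × ℂ => Q ((q.1 : ℂ), q.2, fun i => f i 0 q.1 q.2)) (I ×ˢ D) ∧
        ∀ s ∈ I, DifferentiableOn ℂ (fun z => Q ((s : ℂ), z, fun i => f i 0 s z)) D := by
    intro ι _ f hf O Q hQ hm
    constructor
    · have h1 : ContinuousOn (fun q : ℝ × ℂ => ((q.1 : ℂ), q.2, fun i => f i 0 q.1 q.2)) (I ×ˢ D) := by
        refine ContinuousOn.prodMk (Complex.continuous_ofReal.comp continuous_fst).continuousOn (ContinuousOn.prodMk continuous_snd.continuousOn ?_)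
        rw [continuousOn_pi]
        exact fun i => (hf i).cont 0
      exact hQ.continuousOn.comp h1 fun q hq => hm q.1 hq.1 q.2 hq.2
    · intro s hs z hz
      have h1 : DifferentiableWithinAt ℂ (fun z => ((s : ℂ), z, fun i => f i 0 s z)) D z := by
        refine (differentiableWithinAt_const _).prodMk (differentiableWithinAt_id.prodMk ?_)
        rw [differentiableWithinAt_pi]
        exact fun i => (hf i).hol 0 s hs z hz
      exact (hQ _ (hm s hs z hz)).differentiableAt.comp_differentiableWithinAt z h1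
  induction n with
  | zero =>
    intro ι _ f hf O Q hQ hm
    exact hbase ι f hf O Q hQ hm
  | succ n ih =>
    intro ι _ f hf O Q hQ hm
    classical
    refine ⟨hbase ι f hf O Q hQ hm, ?_⟩
    -- the derivative
    let res : ℂ × ℂ × (ι ⊕ ι → ℂ) → ℂ × ℂ × (ι → ℂ) := fun q => (q.1, q.2.1, fun i => q.2.2 (Sum.inl i))
    let Q' : ℂ × ℂ × (ι ⊕ ι → ℂ) → ℂ := fun q =>
      fderiv ℂ Q (res q) (1, 0, 0) + ∑ i : ι, q.2.2 (Sum.inr i) * fderiv ℂ Q (res q) (0, 0, Pi.single i 1)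
    let f' : ι ⊕ ι → ℕ → ℝ → ℂ → ℂ := Sum.elim f fun i j => f i (j + 1)
    have hf' : ∀ i, JetFam (f' i) I D := by
      rintro (i | i)
      · exact hf i
      · exact jet_shift (hf i)
    have hproj : ∀ (i : ι ⊕ ι) (q : ℂ × ℂ × (ι ⊕ ι → ℂ)), AnalyticAt ℂ (fun q : ℂ × ℂ × (ι ⊕ ι → ℂ) => q.2.2 i) q := by
      intro i q
      exact ((ContinuousLinearMap.proj (R := ℂ) (φ := fun _ : ι ⊕ ι => ℂ) i).comp
        ((ContinuousLinearMap.snd ℂ ℂ (ι ⊕ ι → ℂ)).comp (ContinuousLinearMap.snd ℂ ℂ (ℂ × (ι ⊕ ι → ℂ))))).analyticAt q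
    have hres : ∀ q, AnalyticAt ℂ res q := by
      intro q
      refine analyticAt_fst.prod ((analyticAt_fst.comp analyticAt_snd).prod ?_)
      rw [analyticAt_pi_iff]
      exact fun i => hproj (Sum.inl i) q
    have hap : ∀ v : ℂ × ℂ × (ι → ℂ), ∀ q, res q ∈ O → AnalyticAt ℂ (fun q => fderiv ℂ Q (res q) v) q := by
      intro v q hq
      have h1 : AnalyticAt ℂ (fun q => fderiv ℂ Q q v) (res q) := (ContinuousLinearMap.apply ℂ ℂ v).analyticAt _ |>.comp (hQ _ hq).fderiv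
      exact h1.comp (hres q)
    have hQ' : AnalyticOnNhd ℂ Q' (res ⁻¹' O) := by
      intro q hq
      refine (hap _ q hq).add ?_
      refine Finset.analyticAt_fun_sum _ fun i _ => ?_
      exact (hproj (Sum.inr i) q).mul (hap _ q hq)
    refine ⟨fun s z => Q' ((s : ℂ), z, fun i => f' i 0 s z), fun s hs z hz => ?_, ih (ι ⊕ ι) f' hf' (res ⁻¹' O) Q' hQ' fun s hs z hz => hm s hs z hz⟩
    have hder : HasDerivAt (fun t : ℝ => (fun i : ι => f i 0 t z : ι → ℂ)) (fun i : ι => f i 1 s z) s := by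
      rw [hasDerivAt_pi]
      exact fun i => (hf i).der 0 s hs z hz
    have hJ : HasDerivAt (fun t : ℝ => (((t : ℂ), z, fun i => f i 0 t z) : ℂ × ℂ × (ι → ℂ))) ((1, 0, fun i : ι => f i 1 s z) : ℂ × ℂ × (ι → ℂ)) s := by
      apply HasDerivAt.prodMk (HasDerivAt.ofReal_comp (hasDerivAt_id s))
      exact (hasDerivAt_const s z).prodMk hder
    have hQd : HasFDerivAt Q ((fderiv ℂ Q ((s : ℂ), z, fun i => f i 0 s z)).restrictScalars ℝ) ((s : ℂ), z, fun i => f i 0 s z) :=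
      (hQ _ (hm s hs z hz)).differentiableAt.hasFDerivAt.restrictScalars ℝ
    have hcomp := hQd.comp_hasDerivAt s hJ
    refine hcomp.congr_deriv ?_
    simp only [ContinuousLinearMap.coe_restrictScalars']
    rw [split_pi, map_add, map_sum]
    simp only [map_smul, smul_eq_mul]
    rfl

/-- analytic functions of smooth families are smooth families -/
theorem JetFam.comp {ι : Type} [Fintype ι] {f : ι → ℕ → ℝ → ℂ → ℂ} {I : Set ℝ} {D : Set ℂ} (hI : IsOpen I) (hD : IsOpen D) (hf : ∀ i, JetFam (f i) I D)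
    {O : Set (ℂ × ℂ × (ι → ℂ))} {Q : ℂ × ℂ × (ι → ℂ) → ℂ} (hQ : AnalyticOnNhd ℂ Q O) (hm : ∀ s ∈ I, ∀ z ∈ D, ((s : ℂ), z, fun i => f i 0 s z) ∈ O) :
    ∃ v : ℕ → ℝ → ℂ → ℂ, JetFam v I D ∧ ∀ s ∈ I, ∀ z ∈ D, v 0 s z = Q ((s : ℂ), z, fun i => f i 0 s z) := by
  refine ⟨_, jet_of_sm hI (g := fun s z => Q ((s : ℂ), z, fun i => f i 0 s z)) fun n => comp_sm hI hD n ι f hf O Q hQ hm, fun s _ z _ => ?_⟩
  rw [iteratedDeriv_zero]

/-- the derivatives of a smooth family -/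
private theorem jet_iter {v : ℕ → ℝ → ℂ → ℂ} {I : Set ℝ} {D : Set ℂ} (hI : IsOpen I) (hv : JetFam v I D) {w : ℝ → ℂ → ℂ}
    (h : ∀ s ∈ I, ∀ z ∈ D, v 0 s z = w s z) (j : ℕ) : ∀ s ∈ I, ∀ z ∈ D, iteratedDeriv j (fun t => w t z) s = v j s z := by
  induction j with
  | zero =>
    intro s hs z hz
    rw [iteratedDeriv_zero]
    exact (h s hs z hz).symm
  | succ j ih =>
    intro s hs z hz
    rw [iteratedDeriv_succ]
    have h1 : (iteratedDeriv j fun t => w t z) =ᶠ[𝓝 s] fun t => v j t z := by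
      filter_upwards [hI.mem_nhds hs] with t ht
      exact ih t ht z hz
    rw [h1.deriv_eq]
    exact (hv.der j s hs z hz).deriv

/-- a family which is smooth near a circle is smooth inside -/
theorem jet_fill {w : ℝ → ℂ → ℂ} {I : Set ℝ} (hI : IsOpen I) {z₁ : ℂ} {r₁ : ℝ} (hr : 0 < r₁)
    (hc : ∀ s ∈ I, DifferentiableOn ℂ (w s) (ball z₁ r₁) ∧ ContinuousOn (w s) (closedBall z₁ r₁))
    (hloc : ∀ s ∈ I, ∀ z ∈ sphere z₁ r₁, ∃ (δ : ℝ) (v : ℕ → ℝ → ℂ → ℂ), 0 < δ ∧ JetFam v (Set.Ioo (s - δ) (s + δ)) (ball z δ) ∧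
      ∀ s' ∈ Set.Ioo (s - δ) (s + δ), ∀ z' ∈ ball z δ, v 0 s' z' = w s' z') :
    ∃ v : ℕ → ℝ → ℂ → ℂ, JetFam v I (ball z₁ r₁) ∧ ∀ s ∈ I, ∀ z ∈ ball z₁ r₁, v 0 s z = w s z := by
  obtain ⟨W, hW⟩ : ∃ W : ℕ → ℝ → ℂ → ℂ, ∀ j s ζ, W j s ζ = iteratedDeriv j (fun t => w t ζ) s := ⟨_, fun _ _ _ => rfl⟩
  -- the properties of `W` near the circle
  have hWd : ∀ j, ∀ s ∈ I, ∀ ζ ∈ sphere z₁ r₁, HasDerivAt (fun t => W j t ζ) (W (j + 1) s ζ) s := by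
    intro j s hs ζ hζ
    obtain ⟨δ, v, hδ, hv, hvw⟩ := hloc s hs ζ hζ
    have hsI : s ∈ Set.Ioo (s - δ) (s + δ) := ⟨by linarith, by linarith⟩
    have hζb : ζ ∈ ball ζ δ := mem_ball_self hδ
    rw [hW, jet_iter isOpen_Ioo hv hvw (j + 1) s hsI ζ hζb]
    refine (hv.der j s hsI ζ hζb).congr_of_eventuallyEq ?_
    filter_upwards [isOpen_Ioo.mem_nhds hsI] with t ht
    rw [hW, jet_iter isOpen_Ioo hv hvw j t ht ζ hζb]
  have hWc : ∀ j, ∀ s ∈ I, ∀ ζ ∈ sphere z₁ r₁, ContinuousAt (fun q : ℝ × ℂ => W j q.1 q.2) (s, ζ) := by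
    intro j s hs ζ hζ
    obtain ⟨δ, v, hδ, hv, hvw⟩ := hloc s hs ζ hζ
    have hsI : s ∈ Set.Ioo (s - δ) (s + δ) := ⟨by linarith, by linarith⟩
    have hζb : ζ ∈ ball ζ δ := mem_ball_self hδ
    have hn : Set.Ioo (s - δ) (s + δ) ×ˢ ball ζ δ ∈ 𝓝 (s, ζ) := (isOpen_Ioo.prod isOpen_ball).mem_nhds ⟨hsI, hζb⟩
    refine ((hv.cont j).continuousAt hn).congr ?_
    filter_upwards [hn] with q hq
    rw [hW, jet_iter isOpen_Ioo hv hvw j q.1 hq.1 q.2 hq.2]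
  have hcm : ∀ θ : ℝ, circleMap z₁ r₁ θ ∈ sphere z₁ r₁ := fun θ => circleMap_mem_sphere z₁ hr.le θ
  -- the integrand
  obtain ⟨F, hF⟩ : ∃ F : ℕ → ℝ × ℂ → ℝ → ℂ, ∀ j q θ, F j q θ = deriv (circleMap z₁ r₁) θ • ((circleMap z₁ r₁ θ - q.2)⁻¹ • W j q.1 (circleMap z₁ r₁ θ)) :=
    ⟨_, fun _ _ _ => rfl⟩
  have hne : ∀ z ∈ ball z₁ r₁, ∀ θ : ℝ, circleMap z₁ r₁ θ - z ≠ 0 := by
    intro z hz θ h
    rw [sub_eq_zero] at h
    have h1 := hcm θ
    rw [h, mem_sphere] at h1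
    rw [mem_ball] at hz
    linarith
  have hFc : ∀ j, ∀ s ∈ I, ∀ z ∈ ball z₁ r₁, ∀ θ : ℝ, ContinuousAt (fun x : (ℝ × ℂ) × ℝ => F j x.1 x.2) ((s, z), θ) := by
    intro j s hs z hz θ
    simp only [hF, smul_eq_mul]
    have hcm' : ContinuousAt (fun x : (ℝ × ℂ) × ℝ => circleMap z₁ r₁ x.2) ((s, z), θ) := ((continuous_circleMap z₁ r₁).comp continuous_snd).continuousAt
    refine ContinuousAt.mul ?_ (ContinuousAt.mul ?_ ?_)
    · have h1 : Continuous (deriv (circleMap z₁ r₁)) := by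
        have h2 : deriv (circleMap z₁ r₁) = fun θ => circleMap 0 r₁ θ * Complex.I := by
          funext θ
          exact deriv_circleMap z₁ r₁ θ
        rw [h2]
        exact (continuous_circleMap 0 r₁).mul continuous_const
      exact (h1.comp continuous_snd).continuousAt
    · exact (hcm'.sub (continuous_snd.comp continuous_fst).continuousAt).inv₀ (hne z hz θ)
    · have h1 : ContinuousAt (fun x : (ℝ × ℂ) × ℝ => ((x.1.1, circleMap z₁ r₁ x.2) : ℝ × ℂ)) ((s, z), θ) :=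
        (continuous_fst.comp continuous_fst).continuousAt.prodMk hcm'
      exact ContinuousAt.comp_of_eq (hWc j s hs _ (hcm θ)) h1 rfl
  have hFθ : ∀ j, ∀ s ∈ I, ∀ z ∈ ball z₁ r₁, Continuous (F j (s, z)) := by
    intro j s hs z hz
    rw [continuous_iff_continuousAt]
    intro θ
    exact ContinuousAt.comp_of_eq (f := fun θ : ℝ => (((s, z), θ) : (ℝ × ℂ) × ℝ)) (hFc j s hs z hz θ) (by fun_prop) rfl
  -- local bounds
  have hbd : ∀ j, ∀ s ∈ I, ∀ z ∈ ball z₁ r₁, ∃ (ε B : ℝ), 0 < ε ∧ ball s ε ⊆ I ∧ ball z ε ⊆ ball z₁ r₁ ∧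
      ∀ s' ∈ ball s ε, ∀ z' ∈ ball z ε, ∀ θ ∈ Set.uIoc 0 (2 * Real.pi), ‖F j (s', z') θ‖ ≤ B := by
    intro j s hs z hz
    obtain ⟨ε₁, hε₁, h1⟩ := Metric.isOpen_iff.1 hI s hs
    obtain ⟨ε₂, hε₂, h2⟩ := Metric.isOpen_iff.1 isOpen_ball z hz
    have hε : 0 < min ε₁ ε₂ / 2 := by positivity
    have hcpt : IsCompact ((closedBall s (min ε₁ ε₂ / 2) ×ˢ closedBall z (min ε₁ ε₂ / 2)) ×ˢ Set.Icc 0 (2 * Real.pi)) :=
      ((isCompact_closedBall _ _).prod (isCompact_closedBall _ _)).prod isCompact_Icc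
    have hs1 : closedBall s (min ε₁ ε₂ / 2) ⊆ I := (closedBall_subset_ball (by linarith [min_le_left ε₁ ε₂])).trans h1
    have hs2 : closedBall z (min ε₁ ε₂ / 2) ⊆ ball z₁ r₁ := (closedBall_subset_ball (by linarith [min_le_right ε₁ ε₂])).trans h2
    have hco : ContinuousOn (fun x : (ℝ × ℂ) × ℝ => F j x.1 x.2) ((closedBall s (min ε₁ ε₂ / 2) ×ˢ closedBall z (min ε₁ ε₂ / 2)) ×ˢ Set.Icc 0 (2 * Real.pi)) := by
      rintro ⟨⟨s', z'⟩, θ⟩ ⟨⟨h3, h4⟩, -⟩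
      exact (hFc j s' (hs1 h3) z' (hs2 h4) θ).continuousWithinAt
    obtain ⟨B, hB⟩ := hcpt.exists_bound_of_continuousOn hco
    refine ⟨min ε₁ ε₂ / 2, B, hε, ball_subset_closedBall.trans hs1, ball_subset_closedBall.trans hs2, fun s' hs' z' hz' θ hθ => ?_⟩
    rw [Set.uIoc_of_le (by positivity)] at hθ
    exact hB ((s', z'), θ) ⟨⟨ball_subset_closedBall hs', ball_subset_closedBall hz'⟩, hθ.1.le, hθ.2⟩
  obtain ⟨V, hV⟩ : ∃ V : ℕ → ℝ → ℂ → ℂ, ∀ j s z, V j s z = (2 * Real.pi * Complex.I : ℂ)⁻¹ • ∫ θ in (0 : ℝ)..2 * Real.pi, F j (s, z) θ := ⟨_, fun _ _ _ => rfl⟩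
  have hVi : ∀ j s z, V j s z = (2 * Real.pi * Complex.I : ℂ)⁻¹ • ∮ ζ in C(z₁, r₁), (ζ - z)⁻¹ • W j s ζ := by
    intro j s z
    rw [hV]
    simp only [hF]
    rfl
  refine ⟨V, ⟨fun j s hs z hz => ?_, fun j => ?_, fun j s hs => ?_⟩, fun s hs z hz => ?_⟩
  · -- the derivative in `s`
    simp only [hV, smul_eq_mul]
    refine HasDerivAt.const_mul _ ?_
    obtain ⟨ε, B, hε, hε1, hε2, hB⟩ := hbd (j + 1) s hs z hz
    have h1 := intervalIntegral.hasDerivAt_integral_of_dominated_loc_of_deriv_le (𝕜 := ℝ) (μ := MeasureTheory.volume) (F := fun t θ => F j (t, z) θ)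
      (F' := fun t θ => F (j + 1) (t, z) θ) (x₀ := s) (a := 0) (b := 2 * Real.pi) (bound := fun _ => B) (s := ball s ε) (ball_mem_nhds s hε) ?_ ?_ ?_ ?_ ?_ ?_
    · exact h1.2
    · filter_upwards [hI.mem_nhds hs] with t ht
      exact (hFθ j t ht z hz).aestronglyMeasurable
    · exact (hFθ j s hs z hz).intervalIntegrable _ _
    · exact (hFθ (j + 1) s hs z hz).aestronglyMeasurable
    · exact MeasureTheory.ae_of_all _ fun θ hθ t ht => hB t ht z (mem_ball_self hε) θ hθ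
    · exact intervalIntegrable_const
    · refine MeasureTheory.ae_of_all _ fun θ hθ t ht => ?_
      simp only [hF, smul_eq_mul]
      exact ((hWd j t (hε1 ht) _ (hcm θ)).const_mul _).const_mul _
  · -- continuity
    rintro ⟨s, z⟩ ⟨hs, hz⟩
    refine ContinuousAt.continuousWithinAt ?_
    simp only [hV, smul_eq_mul]
    refine continuousAt_const.mul ?_
    obtain ⟨ε, B, hε, hε1, hε2, hB⟩ := hbd j s hs z hz
    have hn : ball s ε ×ˢ ball z ε ∈ 𝓝 (s, z) := (isOpen_ball.prod isOpen_ball).mem_nhds ⟨mem_ball_self hε, mem_ball_self hε⟩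
    refine intervalIntegral.continuousAt_of_dominated_interval (F := fun q : ℝ × ℂ => F j (q.1, q.2)) (bound := fun _ => B) ?_ ?_ ?_ ?_
    · filter_upwards [hn] with q hq
      exact (hFθ j q.1 (hε1 hq.1) q.2 (hε2 hq.2)).aestronglyMeasurable
    · filter_upwards [hn] with q hq
      exact MeasureTheory.ae_of_all _ fun θ hθ => hB q.1 hq.1 q.2 hq.2 θ hθ
    · exact intervalIntegrable_const
    · refine MeasureTheory.ae_of_all _ fun θ _ => ?_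
      exact ContinuousAt.comp_of_eq (f := fun q : ℝ × ℂ => ((q, θ) : (ℝ × ℂ) × ℝ)) (hFc j s hs z hz θ) (by fun_prop) rfl
  · -- holomorphic in `z`
    have hci : CircleIntegrable (W j s) z₁ r₁ := by
      refine ContinuousOn.circleIntegrable hr.le fun ζ hζ => ?_
      have h1 : ContinuousAt (W j s) ζ := ContinuousAt.comp_of_eq (f := fun ζ : ℂ => ((s, ζ) : ℝ × ℂ)) (hWc j s hs ζ hζ) (by fun_prop) rfl
      exact h1.continuousWithinAt
    obtain ⟨ρ, hρ⟩ : ∃ ρ : NNReal, (ρ : ℝ) = r₁ := ⟨⟨r₁, hr.le⟩, rfl⟩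
    have hρ0 : 0 < ρ := by
      rw [← NNReal.coe_pos, hρ]
      exact hr
    have h2 := hasFPowerSeriesOn_cauchy_integral (f := W j s) (c := z₁) (R := ρ) (by rwa [hρ]) hρ0
    rw [hρ] at h2
    have h3 : (fun z => V j s z) = fun z => (2 * Real.pi * Complex.I : ℂ)⁻¹ • ∮ ζ in C(z₁, r₁), (ζ - z)⁻¹ • W j s ζ := funext fun z => hVi j s z
    have h4 : DifferentiableOn ℂ (fun z => V j s z) (ball z₁ r₁) := by
      rw [h3]
      intro z hz
      have h5 : z ∈ Metric.eball z₁ (ρ : ENNReal) := by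
        rw [Metric.eball_coe, hρ]
        exact hz
      exact (h2.analyticAt_of_mem h5).differentiableAt.differentiableWithinAt
    exact h4
  · -- the value
    obtain ⟨h1, h2⟩ := hc s hs
    rw [hVi]
    have h3 : DiffContOnCl ℂ (w s) (ball z₁ r₁) := ⟨h1, by rwa [closure_ball z₁ hr.ne']⟩
    have h4 := h3.two_pi_i_inv_smul_circleIntegral_sub_inv_smul hz
    rw [← h4]
    congr 1
    have h5 : ∀ ζ, W 0 s ζ = w s ζ := by
      intro ζ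
      rw [hW, iteratedDeriv_zero]
    simp only [h5]

end Pool.Agent.G3.C

end

section

/-!
# CV CubD: the cone of a Weierstrass cubic

`cub α β x = x₁² x₂ - 4 x₀³ + α x₀ x₂² + β x₂³`, its gradient `gr`, the doubling map `dbl` (of degree `4`), the cone `Cub α β` (without `0`), the vector product `cr x v`.
-/

set_option autoImplicit false

open Topology Filter Metric
open Pool.Agent.H36.BP

noncomputable section

namespace Pool.Agent.H13.CV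

/-- the form -/
def cub (α β : ℂ) (x : Fin 3 → ℂ) : ℂ := x 1 ^ 2 * x 2 - 4 * x 0 ^ 3 + α * x 0 * x 2 ^ 2 + β * x 2 ^ 3

/-- its gradient -/
def gr (α β : ℂ) (x : Fin 3 → ℂ) : Fin 3 → ℂ :=
  ![-12 * x 0 ^ 2 + α * x 2 ^ 2, 2 * x 1 * x 2, x 1 ^ 2 + 2 * α * x 0 * x 2 + 3 * β * x 2 ^ 2]

/-- the vector product -/
def cr (x v : Fin 3 → ℂ) : Fin 3 → ℂ := ![x 1 * v 2 - x 2 * v 1, x 2 * v 0 - x 0 * v 2, x 0 * v 1 - x 1 * v 0]

/-- the doubling map -/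
def dbl (α β : ℂ) (x : Fin 3 → ℂ) : Fin 3 → ℂ :=
  ![x 1 * (8 * x 0 * x 1 ^ 2 + 24 * α * x 0 ^ 2 * x 2 + 72 * β * x 0 * x 2 ^ 2 + 2 * α ^ 2 * x 2 ^ 3),
    4 * x 1 ^ 4 - 12 * α * x 0 * x 1 ^ 2 * x 2 - 72 * β * x 1 ^ 2 * x 2 ^ 2 - 36 * α ^ 2 * x 0 ^ 2 * x 2 ^ 2 - 108 * α * β * x 0 * x 2 ^ 3 + (α ^ 3 - 108 * β ^ 2) * x 2 ^ 4,
    32 * x 1 ^ 3 * x 2]

/-- the cone of the cubic, without `0` -/
def Cub (α β : ℂ) : Set (EN 2) := {x | x ≠ 0 ∧ cub α β x.ofLp = 0}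

end Pool.Agent.H13.CV

end
end

section

/-!
# CV CubA: algebra of the doubling map

`gr_ne`: let `cub x = 0`, `gr x = 0`, `x ≠ 0`.  If `x 2 = 0`: `x 0 = 0` (`cub`), `x 1 = 0` (`gr x 2`): contradiction.  If `x 2 ≠ 0`: `x 1 = 0` (`gr x 1`); `u = x 0 / x 2`: `12 u² = α` (`gr x 0`),
`4 u³ - α u - β = 0` (`cub`), so `- 8 u³ = β` and `α³ = 1728 u⁶ = 27 β²`: contradiction.

`cub_dbl`: the polynomial `cub (dbl x)` (degree `12`) is a multiple of `cub x`: divide by `cub x` as a polynomial in `x 0` (leading coefficient `-4`) with a small program, and use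
`linear_combination (quotient) * h`.  (In the affine coordinates `u = x 0 / x 2`, `v = x 1 / x 2`, `v² = 4 u³ - α u - β`: `U = -2 u + (12 u² - α)² / (16 v²) = (4 u v² + 12 α u² + 36 β u + α²) / (16 v²)`,
`V = - v - (12 u² - α) (U - u) / (2 v)`, `V = (4 v⁴ - 12 α u v² - 72 β v² - 36 α² u² - 108 α β u + α³ - 108 β²) / (32 v³)`, so an alternative is: if `x 1 * x 2 ≠ 0` go to affine coordinates and use
`field_simp`; if `x 1 = 0` or `x 2 = 0` check directly.)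

`dbl_ne`: let `dbl x = 0`, `cub x = 0`, `x ≠ 0`.  `x 1 ^ 3 * x 2 = 0`.  If `x 2 = 0` then `x 0 = 0` by `cub`, and `4 x₁⁴ = 0`, so `x = 0`.  If `x 2 ≠ 0`, `x 1 = 0`: with `u = x 0 / x 2`: `4 u³ = α u + β` and
`- 36 α² u² - 108 α β u + α³ - 108 β² = 0`; but `(12 u² - α)³ = 36 α² u² + 108 α β u - α³ + 108 β²` when `4 u³ = α u + β`, so `12 u² = α`, and then `gr x = 0`: contradiction to `gr_ne`.
-/

set_option autoImplicit false

open Topology Filter Metric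
open Pool.Agent.H36.BP

noncomputable section

namespace Pool.Agent.H13.CV

theorem gr_ne {α β : ℂ} (hd : α ^ 3 ≠ 27 * β ^ 2) {x : Fin 3 → ℂ} (hx : x ≠ 0) (hc : cub α β x = 0) : gr α β x ≠ 0 := by
  intro hg
  have h0 : -12 * x 0 ^ 2 + α * x 2 ^ 2 = 0 := by simpa [gr] using congrFun hg 0
  have h1 : 2 * x 1 * x 2 = 0 := by simpa [gr] using congrFun hg 1
  have h2 : x 1 ^ 2 + 2 * α * x 0 * x 2 + 3 * β * x 2 ^ 2 = 0 := by simpa [gr] using congrFun hg 2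
  unfold cub at hc
  by_cases hx2 : x 2 = 0
  · rw [hx2] at h0 h2 hc
    have h3 : x 0 = 0 := by
      have : x 0 ^ 2 = 0 := by linear_combination (-1 / 12 : ℂ) * h0
      exact pow_eq_zero_iff (by norm_num) |>.1 this
    have h4 : x 1 = 0 := by
      have : x 1 ^ 2 = 0 := by linear_combination h2
      exact pow_eq_zero_iff (by norm_num) |>.1 this
    apply hx
    funext i
    fin_cases i
    · exact h3
    · exact h4
    · exact hx2
  · have hx1 : x 1 = 0 := by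
      rcases mul_eq_zero.1 h1 with h | h
      · exact (mul_eq_zero.1 h).resolve_left two_ne_zero
      · exact absurd h hx2
    rw [hx1] at hc
    apply hd
    have h5 : -8 * x 0 ^ 3 = β * x 2 ^ 3 := by linear_combination -hc + x 0 * h0
    have h6 : 12 * x 0 ^ 2 = α * x 2 ^ 2 := by linear_combination -h0
    have h7 : (α ^ 3 - 27 * β ^ 2) * x 2 ^ 6 = 0 := by
      have e1 : (12 * x 0 ^ 2) ^ 3 = (α * x 2 ^ 2) ^ 3 := by rw [h6]
      have e2 : (-8 * x 0 ^ 3) ^ 2 = (β * x 2 ^ 3) ^ 2 := by rw [h5]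
      linear_combination -e1 + 27 * e2
    rcases mul_eq_zero.1 h7 with h | h
    · linear_combination h
    · exact absurd (pow_eq_zero_iff (by norm_num) |>.1 h) hx2

theorem cub_dbl {α β : ℂ} {x : Fin 3 → ℂ} (hc : cub α β x = 0) : cub α β (dbl α β x) = 0 := by
  unfold cub at hc
  have e0 : dbl α β x 0 = x 1 * (8 * x 0 * x 1 ^ 2 + 24 * α * x 0 ^ 2 * x 2 + 72 * β * x 0 * x 2 ^ 2 + 2 * α ^ 2 * x 2 ^ 3) := rfl
  have e1 : dbl α β x 1 = 4 * x 1 ^ 4 - 12 * α * x 0 * x 1 ^ 2 * x 2 - 72 * β * x 1 ^ 2 * x 2 ^ 2 - 36 * α ^ 2 * x 0 ^ 2 * x 2 ^ 2 -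
      108 * α * β * x 0 * x 2 ^ 3 + (α ^ 3 - 108 * β ^ 2) * x 2 ^ 4 := rfl
  have e2 : dbl α β x 2 = 32 * x 1 ^ 3 * x 2 := rfl
  unfold cub
  rw [e0, e1, e2]
  linear_combination ((13824) * x 0 ^ 3 * x 1 ^ 3 * x 2 ^ 3 * α ^ 3 + (13824) * x 0 ^ 2 * x 1 ^ 5 * x 2 ^ 2 * α ^ 2 +
    (124416) * x 0 ^ 2 * x 1 ^ 3 * x 2 ^ 4 * α ^ 2 * β + (4608) * x 0 * x 1 ^ 7 * x 2 * α + (82944) * x 0 * x 1 ^ 5 * x 2 ^ 3 * α * β +
    (-3456) * x 0 * x 1 ^ 3 * x 2 ^ 5 * α ^ 4 + (373248) * x 0 * x 1 ^ 3 * x 2 ^ 5 * α * β ^ 2 + (512) * x 1 ^ 9 +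
    (13824) * x 1 ^ 7 * x 2 ^ 2 * β + (2304) * x 1 ^ 5 * x 2 ^ 4 * α ^ 3 + (124416) * x 1 ^ 5 * x 2 ^ 4 * β ^ 2 +
    (-6912) * x 1 ^ 3 * x 2 ^ 6 * α ^ 3 * β + (373248) * x 1 ^ 3 * x 2 ^ 6 * β ^ 3) * hc

theorem dbl_ne {α β : ℂ} (hd : α ^ 3 ≠ 27 * β ^ 2) {x : Fin 3 → ℂ} (hx : x ≠ 0) (hc : cub α β x = 0) : dbl α β x ≠ 0 := by
  intro h
  have e1 : 4 * x 1 ^ 4 - 12 * α * x 0 * x 1 ^ 2 * x 2 - 72 * β * x 1 ^ 2 * x 2 ^ 2 - 36 * α ^ 2 * x 0 ^ 2 * x 2 ^ 2 -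
      108 * α * β * x 0 * x 2 ^ 3 + (α ^ 3 - 108 * β ^ 2) * x 2 ^ 4 = 0 := congrFun h 1
  have e2 : 32 * x 1 ^ 3 * x 2 = 0 := congrFun h 2
  have hg := gr_ne hd hx hc
  unfold cub at hc
  by_cases hx2 : x 2 = 0
  · rw [hx2] at e1 hc
    have h3 : x 0 = 0 := by
      have : x 0 ^ 3 = 0 := by linear_combination (-1 / 4 : ℂ) * hc
      exact pow_eq_zero_iff (by norm_num) |>.1 this
    have h4 : x 1 = 0 := by
      have : x 1 ^ 4 = 0 := by linear_combination (1 / 4 : ℂ) * e1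
      exact pow_eq_zero_iff (by norm_num) |>.1 this
    apply hx
    funext i
    fin_cases i
    · exact h3
    · exact h4
    · exact hx2
  · have hx1 : x 1 = 0 := by
      rcases mul_eq_zero.1 e2 with h | h
      · exact pow_eq_zero_iff (by norm_num) |>.1 ((mul_eq_zero.1 h).resolve_left (by norm_num))
      · exact absurd h hx2
    rw [hx1] at e1 hc
    have h5 : - 36 * α ^ 2 * x 0 ^ 2 - 108 * α * β * x 0 * x 2 + (α ^ 3 - 108 * β ^ 2) * x 2 ^ 2 = 0 := by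
      have : x 2 ^ 2 * (- 36 * α ^ 2 * x 0 ^ 2 - 108 * α * β * x 0 * x 2 + (α ^ 3 - 108 * β ^ 2) * x 2 ^ 2) = 0 := by
        linear_combination e1
      exact (mul_eq_zero.1 this).resolve_left (pow_ne_zero _ hx2)
    have h6 : (12 * x 0 ^ 2 - α * x 2 ^ 2) ^ 3 = 0 := by
      have hc' : 4 * x 0 ^ 3 = α * x 0 * x 2 ^ 2 + β * x 2 ^ 3 := by linear_combination -hc
      linear_combination (432 * x 0 ^ 3 + 108 * (α * x 0 * x 2 ^ 2 + β * x 2 ^ 3) - 108 * α * x 0 * x 2 ^ 2) * hc' - x 2 ^ 4 * h5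
    have h7 : 12 * x 0 ^ 2 - α * x 2 ^ 2 = 0 := pow_eq_zero_iff (by norm_num) |>.1 h6
    apply hg
    have h8 : 2 * α * x 0 * x 2 + 3 * β * x 2 ^ 2 = 0 := by
      have : x 2 * (2 * α * x 0 * x 2 + 3 * β * x 2 ^ 2) = 0 := by
        linear_combination 3 * hc + x 0 * h7
      exact (mul_eq_zero.1 this).resolve_left hx2
    funext i
    fin_cases i
    · change -12 * x 0 ^ 2 + α * x 2 ^ 2 = 0
      linear_combination -h7
    · change 2 * x 1 * x 2 = 0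
      rw [hx1]; ring
    · change x 1 ^ 2 + 2 * α * x 0 * x 2 + 3 * β * x 2 ^ 2 = 0
      rw [hx1]
      linear_combination h8

end Pool.Agent.H13.CV

end
end

section

/-!
# CV CubX: the derivative of the doubling map

`deriv_affine`: for complex numbers with `v² = 4 u³ - α u - β`, `v ≠ 0`, `u' = 2 l v`, `v' = l (12 u² - α)`: the derivatives of `U`, `V` in the direction `(u', v')` are `4 l V` and `2 l (12 U² - α)`.
Homogeneous version (`cross_dbl`): `x, v ∈ ℂ³`, `cub x = 0`, `x 1 * x 2 ≠ 0`, `cr x v = l • gr x`; `w` is the derivative of `dbl` at `x` in the direction `v`; then `cr (dbl x) w = (2 l) • gr (dbl x)`.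
Here `w` is given explicitly (`ddbl`).  Proof: by homogeneity (`cr (dbl x) (ddbl x x) = 0` as `ddbl x x = 4 dbl x`) one may change `v` by multiples of `x` and assume `v 2 = 0`; scale to `x 2 = 1`; `x = (u, v₁, 1)`,
`v = (u', v', 0)` with `u' = 2 l v₁`, `v' = l (12 u² - α)`.  Then the three identities are polynomial identities modulo `v₁² - 4 u³ + α u + β` (`linear_combination (…) * h`).
Any other proof is fine: e.g. all three components of `x₂ ^ k * (…)` by `linear_combination` with cofactors computed by a program.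
-/

set_option autoImplicit false

open Topology Filter Metric
open Pool.Agent.H36.BP

noncomputable section

namespace Pool.Agent.H13.CV

/-- the derivative of `dbl` at `x` in the direction `v` -/
def ddbl (α β : ℂ) (x v : Fin 3 → ℂ) : Fin 3 → ℂ :=
  ![v 1 * (8 * x 0 * x 1 ^ 2 + 24 * α * x 0 ^ 2 * x 2 + 72 * β * x 0 * x 2 ^ 2 + 2 * α ^ 2 * x 2 ^ 3) +
      x 1 * (8 * v 0 * x 1 ^ 2 + 16 * x 0 * x 1 * v 1 + 48 * α * x 0 * v 0 * x 2 + 24 * α * x 0 ^ 2 * v 2 + 72 * β * v 0 * x 2 ^ 2 + 144 * β * x 0 * x 2 * v 2 +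
        6 * α ^ 2 * x 2 ^ 2 * v 2),
    16 * x 1 ^ 3 * v 1 - 12 * α * (v 0 * x 1 ^ 2 * x 2 + 2 * x 0 * x 1 * v 1 * x 2 + x 0 * x 1 ^ 2 * v 2) - 72 * β * (2 * x 1 * v 1 * x 2 ^ 2 + 2 * x 1 ^ 2 * x 2 * v 2) -
      36 * α ^ 2 * (2 * x 0 * v 0 * x 2 ^ 2 + 2 * x 0 ^ 2 * x 2 * v 2) - 108 * α * β * (v 0 * x 2 ^ 3 + 3 * x 0 * x 2 ^ 2 * v 2) + (α ^ 3 - 108 * β ^ 2) * (4 * x 2 ^ 3 * v 2),
    32 * (3 * x 1 ^ 2 * v 1 * x 2 + x 1 ^ 3 * v 2)]

theorem cross_dbl {α β : ℂ} {x v : Fin 3 → ℂ} {l : ℂ} (hc : cub α β x = 0) (hx : x 1 * x 2 ≠ 0) (hv : cr x v = l • gr α β x) :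
    cr (dbl α β x) (ddbl α β x v) = (2 * l) • gr α β (dbl α β x) := by
  obtain ⟨a, ha⟩ : ∃ a, a = x 0 := ⟨_, rfl⟩
  obtain ⟨b, hb⟩ : ∃ b, b = x 1 := ⟨_, rfl⟩
  obtain ⟨c, hcc⟩ : ∃ c, c = x 2 := ⟨_, rfl⟩
  have hc0 : c ≠ 0 := by
    rw [hcc]
    exact right_ne_zero_of_mul hx
  -- the coordinates of `v`
  obtain ⟨s, hs⟩ : ∃ s, v 2 = s * c := ⟨v 2 / c, by field_simp⟩
  obtain ⟨m, hm⟩ : ∃ m, l = m * c := ⟨l / c, by field_simp⟩
  have h0 := congrFun hv 0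
  have h1 := congrFun hv 1
  simp only [cr, gr, Pi.smul_apply, smul_eq_mul, Matrix.cons_val_zero, Matrix.cons_val_one, ← ha, ← hb, ← hcc, hs, hm] at h0 h1
  have hq : v 1 = s * b + m * (12 * a ^ 2 - α * c ^ 2) := by
    apply mul_left_cancel₀ hc0
    linear_combination -h0
  have hp : v 0 = s * a + m * (2 * b * c) := by
    apply mul_left_cancel₀ hc0
    linear_combination h1
  have hcub : b ^ 2 * c - 4 * a ^ 3 + α * a * c ^ 2 + β * c ^ 3 = 0 := by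
    rw [ha, hb, hcc]
    exact hc
  have hcr : ∀ y w z : Fin 3 → ℂ, y 1 * w 2 - y 2 * w 1 = z 0 → y 2 * w 0 - y 0 * w 2 = z 1 → y 0 * w 1 - y 1 * w 0 = z 2 →
      cr y w = z := by
    intro y w z e0 e1 e2
    funext i
    fin_cases i
    · exact e0
    · exact e1
    · exact e2
  have hD0 : dbl α β x 0 = b * (8 * a * b ^ 2 + 24 * α * a ^ 2 * c + 72 * β * a * c ^ 2 + 2 * α ^ 2 * c ^ 3) := by
    rw [ha, hb, hcc]
    rfl
  have hD1 : dbl α β x 1 = 4 * b ^ 4 - 12 * α * a * b ^ 2 * c - 72 * β * b ^ 2 * c ^ 2 - 36 * α ^ 2 * a ^ 2 * c ^ 2 -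
      108 * α * β * a * c ^ 3 + (α ^ 3 - 108 * β ^ 2) * c ^ 4 := by
    rw [ha, hb, hcc]
    rfl
  have hD2 : dbl α β x 2 = 32 * b ^ 3 * c := by
    rw [hb, hcc]
    rfl
  have hW0 : ddbl α β x v 0 = v 1 * (8 * a * b ^ 2 + 24 * α * a ^ 2 * c + 72 * β * a * c ^ 2 + 2 * α ^ 2 * c ^ 3) +
      b * (8 * v 0 * b ^ 2 + 16 * a * b * v 1 + 48 * α * a * v 0 * c + 24 * α * a ^ 2 * v 2 + 72 * β * v 0 * c ^ 2 +
        144 * β * a * c * v 2 + 6 * α ^ 2 * c ^ 2 * v 2) := by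
    rw [ha, hb, hcc]
    rfl
  have hW1 : ddbl α β x v 1 = 16 * b ^ 3 * v 1 - 12 * α * (v 0 * b ^ 2 * c + 2 * a * b * v 1 * c + a * b ^ 2 * v 2) -
      72 * β * (2 * b * v 1 * c ^ 2 + 2 * b ^ 2 * c * v 2) - 36 * α ^ 2 * (2 * a * v 0 * c ^ 2 + 2 * a ^ 2 * c * v 2) -
      108 * α * β * (v 0 * c ^ 3 + 3 * a * c ^ 2 * v 2) + (α ^ 3 - 108 * β ^ 2) * (4 * c ^ 3 * v 2) := by
    rw [ha, hb, hcc]
    rfl
  have hW2 : ddbl α β x v 2 = 32 * (3 * b ^ 2 * v 1 * c + b ^ 3 * v 2) := by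
    rw [hb, hcc]
    rfl
  apply hcr
  · rw [hW1, hW2, hD1, hD2, hp, hq, hs, hm]
    change _ = 2 * (m * c) * (-12 * dbl α β x 0 ^ 2 + α * dbl α β x 2 ^ 2)
    rw [hD0, hD2]
    linear_combination (m * (6912*a*b^2*c^3*α^2 - 1152*b^4*c^2*α + 10368*b^2*c^4*α*β)) * hcub
  · rw [hW0, hW2, hD0, hD2, hp, hq, hs, hm]
    change _ = 2 * (m * c) * (2 * dbl α β x 1 * dbl α β x 2)
    rw [hD1, hD2]
    linear_combination (m * (4608*a*b^3*c^2*α + 13824*b^3*c^3*β)) * hcub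
  · rw [hW0, hW1, hD0, hD1, hp, hq, hs, hm]
    change _ = 2 * (m * c) * (dbl α β x 1 ^ 2 + 2 * α * dbl α β x 0 * dbl α β x 2 + 3 * β * dbl α β x 2 ^ 2)
    rw [hD0, hD1, hD2]
    linear_combination (m * (-2592*a^3*c^3*α^3 - 1728*a^2*b^2*c^2*α^2 - 15552*a^2*c^4*α^2*β - 1152*a*b^4*c*α + 72*a*c^5*α^4 - 31104*a*c^5*α*β^2 - 96*b^6 - 4320*b^4*c^2*β - 360*b^2*c^4*α^3 + 7776*b^2*c^4*β^2 + 216*c^6*α^3*β - 23328*c^6*β^3)) * hcub

end Pool.Agent.H13.CV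

end
end

section

/-!
# EF ChEx: charts from germ-level charts

The proof of `Pool.Agent.H36.BP.exists_chart` (`H36/BP/GermChart.lean`) without the sets `T` and `K` (copy it and leave out everything about `T`, `K`).
-/

set_option autoImplicit false

open Topology Filter Metric

namespace Pool.Agent.H62.EF

open Pool.Agent.H36.BP (EN IsGermChart)
open Pool.Agent.H14.PP (IsCone Chart)

variable {N : ℕ}

theorem exists_chart_of_germ {X : Set (EN N)} (hX : IsCone X) {σ : ℂ × ℂ → EN N} {τ : EN N → ℂ × ℂ} (h : IsGermChart X σ τ) :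
    ∃ χ : Chart X, σ 0 ∈ χ.U ∧ χ.q (σ 0) = 0 := by
  have hσ0 : σ 0 ≠ 0 := by
    intro h0
    have h1 := h.σ_mem.self_of_nhds
    rw [h0] at h1
    exact hX.zero_notMem h1
  -- the linear form
  obtain ⟨ℓ, hℓ⟩ : ∃ ℓ : EN N →L[ℂ] ℂ, ℓ (σ 0) = 1 := by
    have hne : inner ℂ (σ 0) (σ 0) ≠ (0 : ℂ) := inner_self_ne_zero.mpr hσ0
    refine ⟨(inner ℂ (σ 0) (σ 0) : ℂ)⁻¹ • innerSL ℂ (σ 0), ?_⟩
    simp only [_root_.smul_apply, innerSL_apply_apply, smul_eq_mul]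
    exact inv_mul_cancel₀ hne
  -- the normalised parametrisation
  have hℓσ : ContinuousAt (fun p => ℓ (σ p)) 0 := ℓ.continuous.continuousAt.comp h.σ_an.continuousAt
  have hℓne : ∀ᶠ p in 𝓝 (0 : ℂ × ℂ), ℓ (σ p) ≠ 0 := hℓσ.eventually_ne (by rw [hℓ]; exact one_ne_zero)
  have hinvσ : ∀ᶠ p in 𝓝 (0 : ℂ × ℂ), τ ((ℓ (σ p))⁻¹ • σ p) = τ (σ p) := by
    have hc : Tendsto (fun p => (σ p, (ℓ (σ p))⁻¹)) (𝓝 (0 : ℂ × ℂ)) (𝓝 (σ 0, (1 : ℂ))) := by
      have h1 : Tendsto (fun p => (ℓ (σ p))⁻¹) (𝓝 (0 : ℂ × ℂ)) (𝓝 (ℓ (σ 0))⁻¹) := hℓσ.inv₀ (by rw [hℓ]; exact one_ne_zero)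
      rw [hℓ, inv_one] at h1
      exact h.σ_an.continuousAt.prodMk_nhds h1
    exact hc.eventually h.inv
  -- the neighbourhood W₀
  have hW : ∀ᶠ y in 𝓝 (σ 0), AnalyticAt ℂ τ y ∧ (y ∈ X → ∃ c : ℂ, c ≠ 0 ∧ y = c • σ (τ y)) := h.τ_an.eventually_analyticAt.and h.right
  obtain ⟨W₀, hW₀s, hW₀o, hW₀m⟩ := _root_.eventually_nhds_iff.mp hW
  have hσ₁ : Tendsto (fun p => (ℓ (σ p))⁻¹ • σ p) (𝓝 (0 : ℂ × ℂ)) (𝓝 (σ 0)) := by
    have h1 : Tendsto (fun p => (ℓ (σ p))⁻¹) (𝓝 (0 : ℂ × ℂ)) (𝓝 (ℓ (σ 0))⁻¹) := hℓσ.inv₀ (by rw [hℓ]; exact one_ne_zero)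
    have h2 := h1.smul h.σ_an.continuousAt
    rwa [hℓ, inv_one, one_smul] at h2
  have hσ₁W : ∀ᶠ p in 𝓝 (0 : ℂ × ℂ), (ℓ (σ p))⁻¹ • σ p ∈ W₀ := hσ₁.eventually (hW₀o.mem_nhds hW₀m)
  obtain ⟨R, hR, hall⟩ := Metric.eventually_nhds_iff_ball.mp
    (((((h.σ_an.eventually_analyticAt.and h.σ_mem).and h.left).and hℓne).and hinvσ).and hσ₁W)
  set r : ℝ := R / 2 with hr
  have hr0 : 0 < r := by rw [hr]; positivity
  have hrC : (r : ℂ) ≠ 0 := by exact_mod_cast hr0.ne'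
  have hball : ∀ p ∈ ball (0 : ℂ × ℂ) 2, (r : ℂ) • p ∈ ball (0 : ℂ × ℂ) R := by
    intro p hp
    rw [mem_ball_zero_iff] at hp ⊢
    rw [norm_smul, Complex.norm_real, Real.norm_of_nonneg hr0.le, hr]
    nlinarith
  have hτσ : ∀ p ∈ ball (0 : ℂ × ℂ) R, τ ((ℓ (σ p))⁻¹ • σ p) = p := by
    intro p hp
    rw [(hall p hp).1.2, (hall p hp).1.1.1.2]
  set U : Set (EN N) := {x | ℓ x ≠ 0 ∧ (ℓ x)⁻¹ • x ∈ W₀ ∧ ‖τ ((ℓ x)⁻¹ • x)‖ < R} with hU
  have hmaps : ∀ x : EN N, ℓ x ≠ 0 → ∀ c : ℂ, c ≠ 0 → (ℓ (c • x))⁻¹ • (c • x) = (ℓ x)⁻¹ • x := by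
    intro x hx c hc
    rw [map_smul, smul_eq_mul, smul_smul, mul_inv, mul_comm c⁻¹, mul_assoc, inv_mul_cancel₀ hc, mul_one]
  have han1 : ∀ x : EN N, ℓ x ≠ 0 → AnalyticAt ℂ (fun y : EN N => (ℓ y)⁻¹ • y) x := by
    intro x hx
    exact ((ℓ.analyticAt x).inv hx).smul analyticAt_id
  have hanq : ∀ x ∈ U, AnalyticAt ℂ (fun y : EN N => τ ((ℓ y)⁻¹ • y)) x := by
    intro x hx
    exact AnalyticAt.fun_comp (hW₀s _ hx.2.1).1 (han1 x hx.1)
  have hUopen : IsOpen U := by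
    rw [isOpen_iff_mem_nhds]
    intro x hx
    have h1 : ∀ᶠ y in 𝓝 x, ℓ y ≠ 0 := ℓ.continuous.continuousAt.eventually_ne hx.1
    have h2 : ∀ᶠ y in 𝓝 x, (ℓ y)⁻¹ • y ∈ W₀ := (han1 x hx.1).continuousAt.eventually (hW₀o.mem_nhds hx.2.1)
    have h3 : ∀ᶠ y in 𝓝 x, ‖τ ((ℓ y)⁻¹ • y)‖ < R := (hanq x hx).continuousAt.norm.eventually_lt_const hx.2.2
    filter_upwards [h1, h2, h3] with y h4 h5 h6
    exact ⟨h4, h5, h6⟩
  let χ : Chart X :=
    { σ := fun p => (ℓ (σ ((r : ℂ) • p)))⁻¹ • σ ((r : ℂ) • p)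
      U := U
      q := fun x => (r : ℂ)⁻¹ • τ ((ℓ x)⁻¹ • x)
      isOpen_U := hUopen
      smul_U := by
        rintro x ⟨h1, h2, h3⟩ c hc
        refine ⟨?_, ?_, ?_⟩
        · rw [map_smul, smul_eq_mul]
          exact mul_ne_zero hc h1
        · rw [hmaps x h1 c hc]; exact h2
        · rw [hmaps x h1 c hc]; exact h3
      σ_an := by
        intro p hp
        have h1 := (hall _ (hball p hp)).1.1.1.1.1
        have h2 : AnalyticAt ℂ (fun p : ℂ × ℂ => σ ((r : ℂ) • p)) p :=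
          AnalyticAt.fun_comp h1 (analyticAt_const.fun_smul analyticAt_id)
        have h3 : AnalyticAt ℂ (fun p : ℂ × ℂ => ℓ (σ ((r : ℂ) • p))) p := (ℓ.analyticAt _).fun_comp h2
        exact (h3.inv (hall _ (hball p hp)).1.1.2).smul h2
      q_an := by
        intro x hx
        exact analyticAt_const.fun_smul (hanq x hx)
      q_smul := by
        rintro x ⟨h1, h2, h3⟩ c hc
        show (r : ℂ)⁻¹ • τ ((ℓ (c • x))⁻¹ • (c • x)) = _
        rw [hmaps x h1 c hc]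
      σ_mem := by
        intro p hp
        have hb := hball p hp
        have hh := hall _ hb
        have hne := hh.1.1.2
        have h1 : ℓ ((ℓ (σ ((r : ℂ) • p)))⁻¹ • σ ((r : ℂ) • p)) = 1 := by
          rw [map_smul, smul_eq_mul, inv_mul_cancel₀ hne]
        have h2 : τ ((ℓ (σ ((r : ℂ) • p)))⁻¹ • σ ((r : ℂ) • p)) = (r : ℂ) • p := hτσ _ hb
        refine ⟨hX.smul_mem _ hh.1.1.1.1.2 _ (inv_ne_zero hne), ⟨?_, ?_, ?_⟩, ?_⟩
        · rw [h1]; exact one_ne_zero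
        · rw [h1, inv_one, one_smul]; exact hh.2
        · rw [h1, inv_one, one_smul, h2]
          exact mem_ball_zero_iff.mp hb
        · show (r : ℂ)⁻¹ • τ ((ℓ ((ℓ (σ ((r : ℂ) • p)))⁻¹ • σ ((r : ℂ) • p)))⁻¹ • ((ℓ (σ ((r : ℂ) • p)))⁻¹ • σ ((r : ℂ) • p))) = p
          rw [h1, inv_one, one_smul, h2, smul_smul, inv_mul_cancel₀ hrC, one_smul]
      surj := by
        rintro x hxX ⟨h1, h2, h3⟩
        have hyX : (ℓ x)⁻¹ • x ∈ X := hX.smul_mem _ hxX _ (inv_ne_zero h1)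
        obtain ⟨c, hc0, hc⟩ := (hW₀s _ h2).2 hyX
        have hτb : τ ((ℓ x)⁻¹ • x) ∈ ball (0 : ℂ × ℂ) R := mem_ball_zero_iff.mpr h3
        have hrq : (r : ℂ) • ((r : ℂ)⁻¹ • τ ((ℓ x)⁻¹ • x)) = τ ((ℓ x)⁻¹ • x) := by
          rw [smul_smul, mul_inv_cancel₀ hrC, one_smul]
        refine ⟨?_, ?_⟩
        · show (r : ℂ)⁻¹ • τ ((ℓ x)⁻¹ • x) ∈ ball (0 : ℂ × ℂ) 2
          rw [mem_ball_zero_iff, norm_smul, norm_inv, Complex.norm_real, Real.norm_of_nonneg hr0.le, inv_mul_lt_iff₀ hr0, hr]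
          linarith
        · refine ⟨ℓ x * c * ℓ (σ (τ ((ℓ x)⁻¹ • x))), ?_, ?_⟩
          · exact mul_ne_zero (mul_ne_zero h1 hc0) (hall _ hτb).1.1.2
          · show x = (ℓ x * c * ℓ (σ (τ ((ℓ x)⁻¹ • x)))) •
              ((ℓ (σ ((r : ℂ) • ((r : ℂ)⁻¹ • τ ((ℓ x)⁻¹ • x)))))⁻¹ • σ ((r : ℂ) • ((r : ℂ)⁻¹ • τ ((ℓ x)⁻¹ • x))))
            rw [hrq, smul_smul, mul_assoc, mul_inv_cancel₀ (hall _ hτb).1.1.2, mul_one, mul_smul, ← hc, smul_smul, mul_inv_cancel₀ h1, one_smul] }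
  have h0b : (0 : ℂ × ℂ) ∈ ball (0 : ℂ × ℂ) R := mem_ball_self hR
  have hτ0 : τ (σ 0) = 0 := (hall 0 h0b).1.1.1.2
  refine ⟨χ, ⟨?_, ?_, ?_⟩, ?_⟩
  · rw [hℓ]; exact one_ne_zero
  · rw [hℓ, inv_one, one_smul]; exact hW₀m
  · rw [hℓ, inv_one, one_smul, hτ0, norm_zero]; exact hR
  · show (r : ℂ)⁻¹ • τ ((ℓ (σ 0))⁻¹ • σ 0) = 0
    rw [hℓ, inv_one, one_smul, hτ0, smul_zero]

end Pool.Agent.H62.EF

end
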