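import Pool.Agent.H94.G4T.H62.EF.PrA
import Pool.Agent.H94.G4T.M14
import Pool.Agent.H94.G4T.M20
import Pool.Agent.H94.G4T.M29
import Pool.Agent.H94.G4T.M35
import Pool.Agent.H94.G4T.M63
import Pool.Agent.H94.G4T.M64

/-! The parts of this file: H36.BP.Nodal, H17EF.Bridge, H14.V.MainV, H17EF.MainE, H62.Et.Defs, G3.PS.Cont. -/

section

/-!
# BP Nodal: the nodal theorem for surfaces in `ℙ(V)`

Transport of the metric theorem and of `picard_cone` along a linear isomorphism `V ≃ EN N`.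
-/

set_option autoImplicit false

namespace Pool.Agent.H36.BP

open Filter Topology Metric

open Pool.Agent.H17 (PN HolomorphicInto puncturedDisc)
open Pool.Agent.H17BP (Surface IsChart)

variable {V : Type} [NormedAddCommGroup V] [NormedSpace ℂ V] {N : ℕ}

/-- the point of `ℙ^N` of a point of `ℙ(V)` -/
noncomputable def toPN (L : V ≃L[ℂ] EN N) (p : Projectivization ℂ V) : PN N :=
  Projectivization.mk ℂ (L p.rep).ofLp (ofLp_ne_zero fun h => p.rep_nonzero (L.map_eq_zero_iff.mp h))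

theorem rep_mk {x : V} (hx : x ≠ 0) : ∃ a : ℂ, a ≠ 0 ∧ (Projectivization.mk ℂ x hx).rep = a • x := by
  obtain ⟨a, ha⟩ := Projectivization.exists_smul_eq_mk_rep ℂ x hx
  exact ⟨a, a.ne_zero, by rw [← ha]; rfl⟩

/-! ### transport of the surface -/

theorem isCone_transport (L : V ≃L[ℂ] EN N) {X : Set V} (hX : Surface X) : Pool.Agent.H14.PP.IsCone (L.symm ⁻¹' X : Set (EN N)) := by
  refine ⟨?_, ?_, ?_⟩
  · show L.symm 0 ∉ X
    rw [map_zero]
    exact hX.zero
  · intro x hx c hc
    show L.symm (c • x) ∈ X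
    rw [map_smul]
    exact hX.smul _ hx c hc
  · rw [← closure_subset_iff_isClosed]
    intro y hy
    rw [Set.insert_eq, closure_union, closure_singleton] at hy
    rcases hy with hy | hy
    · exact Or.inl hy
    · by_cases h0 : y = 0
      · exact Or.inl h0
      · right
        have h1 : L.symm y ∈ closure X := by
          have h2 : closure (L.symm ⁻¹' X : Set (EN N)) = L.symm ⁻¹' (closure X) := by
            exact (L.symm.toHomeomorph.preimage_closure X).symm
          rw [h2] at hy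
          exact hy
        exact hX.closed _ h1 fun h => h0 (L.symm.map_eq_zero_iff.mp h)

theorem germ_transport (L : V ≃L[ℂ] EN N) {X : Set V} {σ : ℂ × ℂ → V} {τ : V → ℂ × ℂ} (h : IsChart X σ τ) :
    IsGermChart (L.symm ⁻¹' X : Set (EN N)) (fun p => L (σ p)) (fun y => τ (L.symm y)) := by
  have hL : ∀ᶠ y in 𝓝 (L (σ 0)), (fun y => L.symm y) y = L.symm y := Filter.Eventually.of_forall fun _ => rfl
  have ht : Tendsto (fun y => L.symm y) (𝓝 (L (σ 0))) (𝓝 (σ 0)) := by
    have := L.symm.continuous.tendsto (L (σ 0))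
    rwa [L.symm_apply_apply] at this
  refine ⟨((L : V →L[ℂ] EN N).analyticAt _).comp h.σ_an, ?_, ?_, ?_, ?_, ?_⟩
  · filter_upwards [h.σ_mem] with p hp
    show L.symm (L (σ p)) ∈ X
    rwa [L.symm_apply_apply]
  · have h1 : AnalyticAt ℂ τ ((fun y => L.symm y) (L (σ 0))) := by
      show AnalyticAt ℂ τ (L.symm (L (σ 0)))
      rw [L.symm_apply_apply]; exact h.τ_an
    exact h1.comp ((L.symm : EN N →L[ℂ] V).analyticAt _)
  · filter_upwards [h.left] with p hp
    rw [L.symm_apply_apply, hp]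
  · filter_upwards [ht.eventually h.right] with y hy hyX
    obtain ⟨c, hc, h1⟩ := hy hyX
    refine ⟨c, hc, ?_⟩
    have h2 : L (L.symm y) = L (c • σ (τ (L.symm y))) := congrArg L h1
    rwa [L.apply_symm_apply, map_smul] at h2
  · have ht2 : Tendsto (fun z : EN N × ℂ => (L.symm z.1, z.2)) (𝓝 (L (σ 0), (1 : ℂ))) (𝓝 (σ 0, (1 : ℂ))) := by
      have h1 : Continuous (fun z : EN N × ℂ => (L.symm z.1, z.2)) := (L.symm.continuous.comp continuous_fst).prodMk continuous_snd
      have h2 := h1.tendsto (L (σ 0), (1 : ℂ))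
      simpa using h2
    filter_upwards [ht2.eventually h.inv] with z hz
    rw [map_smul]
    exact hz

end Pool.Agent.H36.BP

end

section

/-!
# EF Bridge: from the projective space to the cone
-/

set_option autoImplicit false

open Topology Filter MvPolynomial Metric

noncomputable section

namespace Pool.Agent.H17EF

open Pool.Agent.H17 (PN VanishesAt HolomorphicInto ZariskiClosedIn)
open Pool.Agent.H62.FC (Homog)
open Pool.Agent.H62.EF
open Pool.Agent.H17BP (Surface IsChart)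
open Pool.Agent.H13.SM (cone)
open Pool.Agent.H36.BP (EN wd isCone_transport germ_transport)
open Pool.Agent.H14.PP (IsCone Chart)

variable {N : ℕ}

/-- homogeneous coordinates as a Euclidean vector -/
def LE (N : ℕ) : (Fin (N + 1) → ℂ) ≃L[ℂ] EN N := (EuclideanSpace.equiv (Fin (N + 1)) ℂ).symm

/-- the cone in the Euclidean space -/
def coneE (P : Ideal (MvPolynomial (Fin (N + 1)) ℂ)) : Set (EN N) := (LE N).symm ⁻¹' cone P

theorem mk_mem_projVar {P : Ideal (MvPolynomial (Fin (N + 1)) ℂ)} (hP : Homog P) {x : Fin (N + 1) → ℂ} (hx : x ≠ 0) :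
    Projectivization.mk ℂ x hx ∈ projVar P ↔ x ∈ cone P := by
  obtain ⟨a, ha, hrep⟩ := Pool.Agent.H36.BP.rep_mk hx
  constructor
  · intro h
    refine ⟨hx, fun Q hQ => ?_⟩
    rw [← MvPolynomial.sum_homogeneousComponent Q, map_sum]
    refine Finset.sum_eq_zero fun i _ => ?_
    have h1 := h _ (hP Q hQ i) i (homogeneousComponent_isHomogeneous i Q)
    unfold VanishesAt at h1
    rw [hrep, eval_smul_form' (homogeneousComponent_isHomogeneous i Q)] at h1
    exact (mul_eq_zero.1 h1).resolve_left (pow_ne_zero i ha)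
  · intro h Q hQ n hn
    unfold VanishesAt
    rw [hrep, eval_smul_form' hn, h.2 Q hQ, mul_zero]
where
  eval_smul_form' {d : ℕ} {Q : MvPolynomial (Fin (N + 1)) ℂ} (hQ : Q.IsHomogeneous d) (c : ℂ)
      (x : Fin (N + 1) → ℂ) : eval (c • x) Q = c ^ d * eval x Q := by
    rw [MvPolynomial.eval_eq', MvPolynomial.eval_eq', Finset.mul_sum]
    apply Finset.sum_congr rfl
    intro m hm
    have hdeg : ∑ i, m i = d := by
      have := hQ (MvPolynomial.mem_support_iff.1 hm)
      rw [Finsupp.weight_apply] at this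
      simpa [Finsupp.sum_fintype] using this
    have h1 : ∏ i, (c • x) i ^ m i = c ^ d * ∏ i, x i ^ m i := by
      rw [← hdeg, ← Finset.prod_pow_eq_pow_sum, ← Finset.prod_mul_distrib]
      exact Finset.prod_congr rfl fun i _ => by simp [mul_pow]
    rw [h1]
    ring

theorem mem_coneE {P : Ideal (MvPolynomial (Fin (N + 1)) ℂ)} (hP : Homog P) {y : EN N} :
    y ∈ coneE P ↔ ∃ h : (LE N).symm y ≠ 0, Projectivization.mk ℂ ((LE N).symm y) h ∈ projVar P := by
  constructor
  · intro h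
    exact ⟨h.1, (mk_mem_projVar hP h.1).2 h⟩
  · rintro ⟨h, h'⟩
    exact (mk_mem_projVar hP h).1 h'

open Classical in
/-- the map to the torus as a complex valued function on the cone -/
def uE (Λ : AddSubgroup ℂ) (u : PN N → ℂ ⧸ Λ) (y : EN N) : ℂ :=
  if h : (LE N).symm y ≠ 0 then Quotient.out (u (Projectivization.mk ℂ ((LE N).symm y) h)) else 0

theorem uE_eq (Λ : AddSubgroup ℂ) (u : PN N → ℂ ⧸ Λ) {y : EN N} (h : (LE N).symm y ≠ 0) :
    ((uE Λ u y : ℂ) : ℂ ⧸ Λ) = u (Projectivization.mk ℂ ((LE N).symm y) h) := by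
  unfold uE
  rw [dif_pos h]
  exact Quotient.out_eq _

theorem sub_mem_iff {Λ : AddSubgroup ℂ} {a b : ℂ} : a - b ∈ Λ ↔ ((a : ℂ) : ℂ ⧸ Λ) = (b : ℂ ⧸ Λ) := by
  rw [QuotientAddGroup.eq, ← neg_mem_iff]
  constructor
  · intro h
    convert h using 1
    ring
  · intro h
    convert h using 1
    ring

theorem charts {P : Ideal (MvPolynomial (Fin (N + 1)) ℂ)} (hS : Surface (cone P)) : Charts (coneE P) := by
  intro x hx
  obtain ⟨σ, τ, hc, h0⟩ := hS.chart ((LE N).symm x) hx
  have hg := germ_transport (LE N) hc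
  obtain ⟨χ, h1, h2⟩ := exists_chart_of_germ (isCone_transport (LE N) hS) hg
  have h3 : (LE N) (σ 0) = x := by rw [h0, ContinuousLinearEquiv.apply_symm_apply]
  rw [h3] at h1 h2
  exact ⟨χ, h1, h2⟩

/-- a lift -/
theorem exists_lift {f : ℂ → PN N} (hf : HolomorphicInto f Set.univ) :
    ∃ F : ℂ → EN N, Differentiable ℂ F ∧ ∀ z, ∃ h : (LE N).symm (F z) ≠ 0, f z = Projectivization.mk ℂ ((LE N).symm (F z)) h := by
  obtain ⟨x, hx⟩ := Pool.Agent.H17.exists_global_lift hf
  refine ⟨fun z => (LE N) (fun j => (x j : ℂ → ℂ) z), ?_, fun z => ?_⟩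
  · have h1 : Differentiable ℂ fun z => fun j => (x j : ℂ → ℂ) z := differentiable_pi.2 fun j => (x j).2
    exact (LE N).differentiable.comp h1
  · obtain ⟨h, h'⟩ := hx z
    have h2 : (LE N).symm ((LE N) (fun j => (x j : ℂ → ℂ) z)) = fun j => (x j : ℂ → ℂ) z := ContinuousLinearEquiv.symm_apply_apply _ _
    refine ⟨by rw [h2]; exact h, ?_⟩
    rw [h']
    congr 1

end Pool.Agent.H17EF

end
end

section

/-!
# V MainV: entire curves in surfaces of general type, in the projective space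
-/

set_option autoImplicit false

open Topology Filter MvPolynomial Metric

noncomputable section

namespace Pool.Agent.H14.V

open Pool.Agent.H17 (PN VanishesAt HolomorphicInto ZariskiClosedIn puncturedDisc)
open Pool.Agent.H62.FC (Homog)
open Pool.Agent.H17BP (Surface)
open Pool.Agent.H13.SM (cone)
open Pool.Agent.H36.BP (EN fs wd isCone_transport)
open Pool.Agent.H14.PP (IsCone Chart)
open Pool.Agent.H17EF (projVar coneE LE mk_mem_projVar)
open Pool.Agent.H62.EF (Charts)

variable {N : ℕ}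

/-- `F` is an entire map to `ℂ^(N+1)` without zeros which represents `f`. -/
def IsLift (F : ℂ → EuclideanSpace ℂ (Fin (N + 1))) (f : ℂ → PN N) : Prop :=
  Differentiable ℂ F ∧ ∀ z, ∃ h : (F z).ofLp ≠ 0, f z = Projectivization.mk ℂ (F z).ofLp h

/-- The entire curves `f` in `X` with `|f'| ≤ L`. -/
def brodyCurves (X : Set (PN N)) (L : ℝ) : Set (ℂ → PN N) :=
  {f | (∀ z, f z ∈ X) ∧ ∃ F, IsLift F f ∧ ∀ z, fs (F z) (deriv F z) ≤ L}

theorem isLift_mk {F : ℂ → EN N} (hF : Differentiable ℂ F) (h0 : ∀ z, (F z).ofLp ≠ 0) :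
    IsLift F fun z => Projectivization.mk ℂ (F z).ofLp (h0 z) :=
  ⟨hF, fun z => ⟨h0 z, rfl⟩⟩

variable {P : Ideal (MvPolynomial (Fin (N + 1)) ℂ)} 

theorem IsLift.mem_iff (hP : Homog P) {F : ℂ → EN N} {f : ℂ → PN N} (h : IsLift F f) (z : ℂ) :
    f z ∈ projVar P ↔ F z ∈ coneE P := by
  obtain ⟨h1, h2⟩ := h.2 z
  rw [h2, mk_mem_projVar hP h1]
  rfl

end Pool.Agent.H14.V

end
end

section

/-!
# EF MainE: surfaces of general type with a map to an elliptic curve
-/

set_option autoImplicit false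

open Topology Filter MvPolynomial Metric

noncomputable section

namespace Pool.Agent.H17EF

attribute [-instance] ProperSMul.toContinuousSMul

open Pool.Agent.H17 (PN VanishesAt HolomorphicInto ZariskiClosedIn)
open Pool.Agent.H62.FC (Homog)
open Pool.Agent.H62.EF
open Pool.Agent.H17BP (Surface IsChart)
open Pool.Agent.H17LG.Variety (FunField IsLogGeneralType)
open Pool.Agent.H13.SM (cone)
open Pool.Agent.H36.BP (EN wd isCone_transport germ_transport)
open Pool.Agent.H14.PP (IsCone Chart)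

variable {N : ℕ}

section core

variable {P : Ideal (MvPolynomial (Fin (N + 1)) ℂ)} [P.IsPrime] {z : Fin 2 → FunField P}

/-- general type -/
def GT (P : Ideal (MvPolynomial (Fin (N + 1)) ℂ)) [P.IsPrime] (k : ℕ) : Prop :=
  IsLogGeneralType (K := FunField P) (k := k) (fun _ => False)

/-- the projection matrix of a point -/
def prP (x : PN N) : MN N := pr ((LE N) x.rep)

theorem prP_mk {x : Fin (N + 1) → ℂ} (hx : x ≠ 0) : prP (Projectivization.mk ℂ x hx) = pr ((LE N) x) := by
  obtain ⟨a, ha, h⟩ := Pool.Agent.H36.BP.rep_mk hx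
  unfold prP
  rw [h, map_smul, pr_smul _ ha]

theorem LE_ne_zero {x : Fin (N + 1) → ℂ} (hx : x ≠ 0) : (LE N) x ≠ 0 := fun h => hx ((LE N).map_eq_zero_iff.1 h)

theorem prP_injective : Function.Injective (prP (N := N)) := by
  intro x y h
  unfold prP at h
  obtain ⟨c, hc, h'⟩ := (pr_eq_iff (LE_ne_zero x.rep_nonzero) (LE_ne_zero y.rep_nonzero)).1 h
  rw [← map_smul] at h'
  have h1 := (LE N).injective h'
  rw [← x.mk_rep, ← y.mk_rep, Projectivization.mk_eq_mk_iff']
  exact ⟨c, h1.symm⟩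

theorem mk_symm {F : EN N} (h : (LE N).symm F ≠ 0) : prP (Projectivization.mk ℂ ((LE N).symm F) h) = pr F := by
  rw [prP_mk, ContinuousLinearEquiv.apply_symm_apply]

end core

end Pool.Agent.H17EF

end
end

section

/-!
# Et Defs: finite etale coverings of projective varieties
-/

set_option autoImplicit false

open Topology Filter MvPolynomial

noncomputable section

namespace Pool.Agent.H62.Et

open Pool.Agent.H17 (PN VanishesAt HolomorphicInto)
open Pool.Agent.H17EF (projVar LE)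
open Pool.Agent.H62.EF (MN pr)

variable {N M : ℕ}

/-- the embedding of the projective space in the space of matrices -/
def pn (x : PN N) : MN N := pr ((LE N) x.rep)

end Pool.Agent.H62.Et

end
end

section

/-!
# G3 PS Cont: the function `pP` on curves: formula, continuity, zeros

`aP P h F j z` is the value of the `j`-th form on the curve; it is holomorphic (`SForm.analytic` with `r = 1`, `φ q = F (q 0)`, `υ q = h (q 0)`, `w = 1`: compose with
`z ↦ ((fun _ => z), (fun _ => 1))`; `fderiv ℂ φ q (fun _ => 1) = deriv F (q 0)`).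
`pP_curve`: `u (F z) - h z ∈ Λ` and `PData.per` (with `l = u (F z) - h z`, `y = h z`; the tangent vector is `Cv.tan`).
`cont`: the supremum over the finite index set of continuous functions is continuous (`J = 0`: the supremum is `0`), `F`, `h` are continuous.
`isol`: if `0 < pf .. z₁` then some `aP .. j z₁ ≠ 0`; its zeros are isolated in the preconnected open set `U` (identity theorem, `AnalyticOnNhd.eqOn_zero_of_preconnected_of_frequently_eq_zero`).
-/

set_option autoImplicit false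

open Topology Filter Metric

namespace Pool.Agent.G3

open Pool.Agent.H36.BP (EN fs wd Sub)
open Pool.Agent.H14.PP (IsCone CurveAt Tan)
open Pool.Agent.H62.EF (MN pr)
open Pool.Agent.AD (Vd Chart Charts)
open Pool.Agent.TG (TMap Gd)

variable {N k : ℕ} {X : Set (EN N)} {Λ : AddSubgroup (Vd (k + 1))} {u : EN N → Vd (k + 1)} {D : Set (Vd (k + 1))} {m J r : ℕ}
  {P : Fin J → SForm X Λ u m} {W : Fin r → Vd (k + 1) →L[ℂ] ℂ}

/-- the value of the form `P j` on the curve `F` -/
noncomputable def aP (P : Fin J → SForm X Λ u m) (h : ℂ → Vd (k + 1)) (F : ℂ → EN N) (j : Fin J) (z : ℂ) : ℂ := (P j).toFun (h z) (F z) (deriv F z)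

theorem aP_an {U : Set ℂ} (hU : IsOpen U) {F : ℂ → EN N} {h : ℂ → Vd (k + 1)} (hF : Cv X Λ u U F h) (j : Fin J) {z : ℂ} (hz : z ∈ U) :
    AnalyticAt ℂ (aP P h F j) z := by
  have hUz : U ∈ 𝓝 z := hU.mem_nhds hz
  have hFz : AnalyticAt ℂ F z := hF.F_diff.analyticAt hUz
  have hhz : AnalyticAt ℂ h z := hF.h_diff.analyticAt hUz
  have hpr : AnalyticAt ℂ (fun q : Vd 1 => q 0) (fun _ => z) :=
    (ContinuousLinearMap.proj (R := ℂ) (φ := fun _ : Fin 1 => ℂ) 0).analyticAt _
  have h1 : AnalyticAt ℂ (fun q : Vd 1 => F (q 0)) (fun _ => z) := hFz.comp_of_eq hpr rfl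
  have h2 : AnalyticAt ℂ (fun q : Vd 1 => h (q 0)) (fun _ => z) := hhz.comp_of_eq hpr rfl
  have hev : ∀ᶠ q : Vd 1 in 𝓝 (fun _ => z), q 0 ∈ U := hpr.continuousAt.eventually hUz
  have h3 := (P j).analytic 1 (fun q => F (q 0)) (fun q => h (q 0)) (fun _ => z) (fun _ => 1) h1 h2
    (hev.mono fun q hq => ⟨hF.mem _ hq, hF.lift _ hq⟩)
  have hg : AnalyticAt ℂ (fun w : ℂ => (((fun _ => w), (fun _ => 1)) : Vd 1 × Vd 1)) z := by
    refine AnalyticAt.prod ?_ analyticAt_const
    exact AnalyticAt.pi fun _ => analyticAt_id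
  have h4 := h3.comp_of_eq hg rfl
  refine h4.congr ?_
  filter_upwards [hUz] with w hw
  have hFw : DifferentiableAt ℂ F w := (hF.F_diff w hw).differentiableAt (hU.mem_nhds hw)
  have h5 : HasFDerivAt (fun q : Vd 1 => F (q 0))
      ((fderiv ℂ F w).comp (ContinuousLinearMap.proj (R := ℂ) (φ := fun _ : Fin 1 => ℂ) 0)) (fun _ => w) := by
    have h6 : HasFDerivAt F (fderiv ℂ F w) ((ContinuousLinearMap.proj (R := ℂ) (φ := fun _ : Fin 1 => ℂ) 0) (fun _ => w)) := hFw.hasFDerivAt
    exact h6.comp (fun _ => w) (ContinuousLinearMap.proj (R := ℂ) (φ := fun _ : Fin 1 => ℂ) 0).hasFDerivAt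
  have h7 : fderiv ℂ (fun q : Vd 1 => F (q 0)) (fun _ => w) (fun _ => 1) = deriv F w := by
    rw [h5.fderiv]
    simp
  show (P j).toFun (h w) (F w) (fderiv ℂ (fun q : Vd 1 => F (q 0)) (fun _ => w) (fun _ => 1)) = _
  rw [h7]
  rfl

theorem pP_curve (hP : PData X Λ u D P W) {U : Set ℂ} (hU : IsOpen U) {F : ℂ → EN N} {h : ℂ → Vd (k + 1)} (hF : Cv X Λ u U F h) {z : ℂ} (hz : z ∈ U) :
    pf (pP P W) F z = (⨆ j, ‖aP P h F j z‖) * ‖F z‖ * Real.exp (-wt W (h z)) := by
  have hl : u (F z) - h z ∈ Λ := hF.lift z hz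
  have hx : F z ∈ X := hF.mem z hz
  have ht := hF.tan hU hz
  have key : ∀ j, ‖(P j).toFun (u (F z)) (F z) (deriv F z)‖ * Real.exp (-wt W (u (F z))) = ‖aP P h F j z‖ * Real.exp (-wt W (h z)) := by
    intro j
    have := hP.per j (h z) (u (F z) - h z) hl (F z) hx hl (deriv F z) ht
    rwa [add_sub_cancel] at this
  show (⨆ j, ‖(P j).toFun (u (F z)) (F z) (deriv F z)‖) * ‖F z‖ * Real.exp (-wt W (u (F z))) = _
  rw [mul_right_comm, Real.iSup_mul_of_nonneg (Real.exp_nonneg _), mul_right_comm, Real.iSup_mul_of_nonneg (Real.exp_nonneg _)]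
  simp_rw [key]

theorem pP_nonneg (x v : EN N) : 0 ≤ pP P W x v := by
  unfold pP
  exact mul_nonneg (mul_nonneg (Real.iSup_nonneg fun _ => norm_nonneg _) (norm_nonneg _)) (Real.exp_nonneg _)

theorem pP_hom {x : EN N} (hx : x ∈ X) {v : EN N} (hv : Tan X x v) (a : ℂ) : pP P W x (a • v) = ‖a‖ ^ m * pP P W x v := by
  have key : ∀ j, ‖(P j).toFun (u x) x (a • v)‖ = ‖a‖ ^ m * ‖(P j).toFun (u x) x v‖ := by
    intro j
    rw [(P j).hom (u x) x hx (by rw [sub_self]; exact Λ.zero_mem) v hv a, norm_mul, norm_pow]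
  unfold pP
  simp_rw [key]
  rw [← Real.mul_iSup_of_nonneg (pow_nonneg (norm_nonneg _) _)]
  ring

theorem pP_cont (hX : IsCone X) (hP : PData X Λ u D P W) {U : Set ℂ} (hU : IsOpen U) {F : ℂ → EN N} {h : ℂ → Vd (k + 1)} (hF : Cv X Λ u U F h) :
    ContinuousOn (pf (pP P W) F) U := by
  have h1 : ContinuousOn (fun z => (⨆ j, ‖aP P h F j z‖) * ‖F z‖ * Real.exp (-wt W (h z))) U := by
    refine ContinuousOn.mul (ContinuousOn.mul ?_ hF.F_diff.continuousOn.norm) ?_
    · rcases isEmpty_or_nonempty (Fin J) with hJ | hJ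
      · simp_rw [Real.iSup_of_isEmpty]
        exact continuousOn_const
      · have h2 : ∀ z, (⨆ j, ‖aP P h F j z‖) = Finset.univ.sup' Finset.univ_nonempty fun j => ‖aP P h F j z‖ := fun z =>
          (Finset.sup'_univ_eq_ciSup _).symm
        simp_rw [h2]
        refine ContinuousOn.finset_sup'_apply _ fun j _ => ?_
        intro z hz
        exact (aP_an hU hF j hz).continuousAt.continuousWithinAt.norm
    · refine Real.continuous_exp.comp_continuousOn (ContinuousOn.neg ?_)
      unfold wt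
      refine continuousOn_finset_sum _ fun i _ => ?_
      exact (((W i).continuous.comp_continuousOn hF.h_diff.continuousOn).norm).pow 2
  exact h1.congr fun z hz => pP_curve hP hU hF hz

theorem pP_isol (hX : IsCone X) (hP : PData X Λ u D P W) {U : Set ℂ} (hU : IsOpen U) {F : ℂ → EN N} {h : ℂ → Vd (k + 1)} (hF : Cv X Λ u U F h) (hUc : IsPreconnected U)
    (h0 : ∃ z ∈ U, 0 < pf (pP P W) F z) : ∀ z ∈ U, ∀ᶠ w in 𝓝[≠] z, 0 < pf (pP P W) F w := by
  obtain ⟨z₁, hz₁, hpos⟩ := h0
  rw [pP_curve hP hU hF hz₁] at hpos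
  have hsup : (⨆ j, ‖aP P h F j z₁‖) ≠ 0 := by
    intro h
    rw [h] at hpos
    simp at hpos
  have hj : ∃ j, aP P h F j z₁ ≠ 0 := by
    by_contra hcon
    push Not at hcon
    apply hsup
    simp_rw [hcon, norm_zero]
    exact Real.iSup_const_zero
  obtain ⟨j, hj⟩ := hj
  have han : AnalyticOnNhd ℂ (aP P h F j) U := fun w hw => aP_an hU hF j hw
  intro z hz
  have hne : ∀ᶠ w in 𝓝[≠] z, aP P h F j w ≠ 0 := by
    rcases (han z hz).eventually_eq_zero_or_eventually_ne_zero with h1 | h1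
    · exfalso
      have h2 := han.eqOn_zero_of_preconnected_of_eventuallyEq_zero hUc hz h1
      exact hj (h2 hz₁)
    · exact h1
  have hUz : ∀ᶠ w in 𝓝[≠] z, w ∈ U := nhdsWithin_le_nhds (hU.mem_nhds hz)
  filter_upwards [hne, hUz] with w hw hwU
  rw [pP_curve hP hU hF hwU]
  have h3 : ‖aP P h F j w‖ ≤ ⨆ j, ‖aP P h F j w‖ := le_ciSup (f := fun j => ‖aP P h F j w‖) (Set.finite_range _).bddAbove j
  have h4 : 0 < ⨆ j, ‖aP P h F j w‖ := lt_of_lt_of_le (norm_pos_iff.mpr hw) h3
  have h5 : F w ≠ 0 := fun h => hX.zero_notMem (h ▸ hF.mem w hwU)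
  exact mul_pos (mul_pos h4 (norm_pos_iff.mpr h5)) (Real.exp_pos _)

end Pool.Agent.G3

end
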