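import Pool.Agent.H94.G4T.M07
import Pool.Agent.H94.G4T.M10
import Pool.Agent.H94.G4T.M41
import Pool.Agent.H94.G4T.M55
import Pool.Agent.H94.G4T.M56
import Pool.Agent.H94.G4T.M62
import Pool.Agent.H94.G4T.M65

/-! The parts of this file: H19T.FPic, G3.PS.Jen, G3.PS.Sub, G4.E.IdY, G3.PS.Low. -/

section

/-!
# H19T FPic: extension across the puncture, in the projective space
-/

set_option autoImplicit false

open Topology Filter Metric MvPolynomial

noncomputable section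

namespace Pool.Agent.H19T

open Pool.Agent.H36.BP (EN fs wd Curve lift_punct ofLp_ne_zero analyticAt_ofLp isOpen_puncturedDisc preconnected_puncturedDisc)
open Pool.Agent.H14.PP (IsCone CurveAt Tan)
open Pool.Agent.H62.FC (Homog)
open Pool.Agent.H17 (PN HolomorphicInto puncturedDisc)
open Pool.Agent.H17EF (projVar coneE LE mk_mem_projVar mem_coneE)

variable {N n : ℕ}

variable {P : Ideal (MvPolynomial (Fin (N + 1)) ℂ)}

theorem extends_of_cone (hP : Homog P) {D : Set (EN N)} {Ξ : Set (PN N)}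
    (hΞ : ∀ (y : EN N) (h : y.ofLp ≠ 0), y ∈ coneE P → (Projectivization.mk ℂ y.ofLp h ∈ Ξ ↔ y ∈ D))
    (hid : ∀ (F : ℂ → EN N) (z : ℂ), CurveAt (coneE P) F z → (∃ᶠ w in 𝓝[≠] z, F w ∈ D) → ∀ᶠ w in 𝓝 z, F w ∈ D)
    (hpic : ∀ F : ℂ → EN N, Curve (coneE P) (ball 0 1 \ {0}) F → (∃ z ∈ ball (0 : ℂ) 1 \ {0}, F z ∉ D) →
      ∃ Q : ℂ → EN N, AnalyticAt ℂ Q 0 ∧ Q 0 ≠ 0 ∧ ∀ᶠ z in 𝓝[≠] (0 : ℂ), ∃ k : ℂ, k ≠ 0 ∧ Q z = k • F z)
    (f : ℂ → PN N) (hf : HolomorphicInto f puncturedDisc) (hfX : ∀ z ∈ puncturedDisc, f z ∈ projVar P) (hfD : ∃ z ∈ puncturedDisc, f z ∉ Ξ) :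
    ∃ g : ℂ → PN N, HolomorphicInto g (ball 0 1) ∧ ∀ z ∈ puncturedDisc, g z = f z := by
  classical
  obtain ⟨F, hFd, hFf⟩ := lift_punct hf (r := 1 / 2) (by norm_num) (by norm_num)
  have hhalf : ∀ z ∈ ball (0 : ℂ) 1 \ {0}, z / 2 ∈ ball (0 : ℂ) (1 / 2) \ {0} := by
    rintro z ⟨hz1, hz2⟩
    rw [mem_ball_zero_iff] at hz1
    refine ⟨?_, ?_⟩
    · rw [mem_ball_zero_iff, norm_div]
      simp only [Complex.norm_ofNat]
      linarith
    · simpa using hz2
  have hsubp : ball (0 : ℂ) (1 / 2) \ {0} ⊆ puncturedDisc := by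
    rintro z ⟨hz1, hz2⟩
    exact ⟨ball_subset_ball (by norm_num) hz1, hz2⟩
  have hopen : IsOpen (ball (0 : ℂ) (1 / 2) \ {0}) := isOpen_ball.sdiff isClosed_singleton
  have hopen1 : IsOpen (ball (0 : ℂ) 1 \ {0}) := isOpen_ball.sdiff isClosed_singleton
  obtain ⟨F₁, hF₁⟩ : ∃ F₁ : ℂ → EN N, F₁ = fun z => F (z / 2) := ⟨_, rfl⟩
  have hF₁2 : ∀ w : ℂ, F₁ (2 * w) = F w := by
    intro w
    rw [hF₁]
    simp only
    rw [mul_div_cancel_left₀ w (two_ne_zero)]
  have hF1c : Curve (coneE P) (ball 0 1 \ {0}) F₁ := by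
    rw [hF₁]
    refine ⟨?_, ?_⟩
    · intro z hz
      have h1 : DifferentiableAt ℂ F (z / 2) := hFd.differentiableAt (hopen.mem_nhds (hhalf z hz))
      exact (h1.comp z (differentiableAt_id.div_const 2)).differentiableWithinAt
    · intro z hz
      obtain ⟨h1, h2⟩ := hFf _ (hhalf z hz)
      have h3 := hfX _ (hsubp (hhalf z hz))
      rw [h2] at h3
      exact (mk_mem_projVar hP h1).1 h3
  -- the curve is not a map into `D`
  have hne : ∃ z ∈ ball (0 : ℂ) 1 \ {0}, F₁ z ∉ D := by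
    by_contra hcon
    push Not at hcon
    obtain ⟨z₁, hz₁, hz₁D⟩ := hfD
    apply hz₁D
    obtain ⟨A, hA⟩ : ∃ A : Set ℂ, A = {z | ∀ᶠ w in 𝓝 z, f w ∈ Ξ} := ⟨_, rfl⟩
    have hAo : IsOpen A := by
      rw [hA, isOpen_iff_mem_nhds]
      intro z hz
      exact eventually_eventually_nhds.2 hz
    have hlocal : ∀ y ∈ puncturedDisc, ∃ φ : ℂ → EN N, CurveAt (coneE P) φ y ∧ ∀ᶠ w in 𝓝 y, (f w ∈ Ξ ↔ φ w ∈ D) := by
      intro y hy
      obtain ⟨φ, hφ, he⟩ := hf y hy
      have hmem : ∀ᶠ w in 𝓝 y, (WithLp.toLp 2 (φ w) : EN N) ∈ coneE P := by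
        filter_upwards [he, isOpen_puncturedDisc.mem_nhds hy] with w hw hw2
        obtain ⟨h1, h2⟩ := hw
        have h3 := hfX w hw2
        rw [h2] at h3
        exact (mk_mem_projVar hP h1).1 h3
      refine ⟨fun w => WithLp.toLp 2 (φ w), ⟨Pool.Agent.H36.BP.analyticAt_toLp hφ, hmem⟩, ?_⟩
      filter_upwards [he, hmem] with w hw hw2
      obtain ⟨h1, h2⟩ := hw
      rw [h2]
      exact hΞ (WithLp.toLp 2 (φ w)) h1 hw2
    have hcl : closure A ∩ puncturedDisc ⊆ A := by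
      rintro y ⟨hy1, hy2⟩
      by_cases hyA : y ∈ A
      · exact hyA
      obtain ⟨φ, hφ, he⟩ := hlocal y hy2
      have hfreq : ∃ᶠ w in 𝓝[≠] y, φ w ∈ D := by
        have h1 : ∃ᶠ w in 𝓝 y, w ∈ A := mem_closure_iff_frequently.mp hy1
        have h3 : ∃ᶠ w in 𝓝[≠] y, w ∈ A := by
          rw [frequently_nhdsWithin_iff]
          refine h1.mono fun w hw => ⟨hw, ?_⟩
          rintro rfl
          exact hyA hw
        refine (h3.and_eventually (he.filter_mono nhdsWithin_le_nhds)).mono ?_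
        rintro w ⟨hw1, hw2⟩
        rw [hA] at hw1
        have h7 : ∀ᶠ v in 𝓝 w, f v ∈ Ξ := hw1
        exact hw2.1 h7.self_of_nhds
      have h8 := hid φ y hφ hfreq
      rw [hA]
      show ∀ᶠ w in 𝓝 y, f w ∈ Ξ
      filter_upwards [h8, he] with w hw hw2
      exact hw2.2 hw
    have h4 : (1 / 4 : ℂ) ∈ ball (0 : ℂ) (1 / 2) \ {0} := by
      refine ⟨?_, by simp⟩
      rw [mem_ball_zero_iff]
      norm_num
    have h4A : (1 / 4 : ℂ) ∈ A := by
      rw [hA]
      show ∀ᶠ w in 𝓝 (1 / 4 : ℂ), f w ∈ Ξ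
      filter_upwards [hopen.mem_nhds h4] with w hw
      obtain ⟨h5, h6⟩ := hFf w hw
      have h8 : F w ∈ coneE P := by
        have h9 := hfX w (hsubp hw)
        rw [h6] at h9
        exact (mk_mem_projVar hP h5).1 h9
      rw [h6, hΞ (F w) h5 h8, ← hF₁2]
      apply hcon
      refine ⟨?_, ?_⟩
      · have := hw.1
        rw [mem_ball_zero_iff] at this ⊢
        rw [norm_mul, Complex.norm_ofNat]
        linarith
      · have h7 : w ≠ 0 := hw.2
        show 2 * w ≠ 0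
        exact mul_ne_zero two_ne_zero h7
    have hsub : puncturedDisc ⊆ A := preconnected_puncturedDisc.subset_of_closure_inter_subset hAo ⟨_, hsubp h4, h4A⟩ hcl
    have h9 := hsub hz₁
    rw [hA] at h9
    have h10 : ∀ᶠ w in 𝓝 z₁, f w ∈ Ξ := h9
    exact h10.self_of_nhds
  obtain ⟨G, hGa, hG0, hG⟩ := hpic F₁ hF1c hne
  -- gluing
  obtain ⟨q₀, hq₀⟩ : ∃ q₀ : PN N, q₀ = Projectivization.mk ℂ (G 0).ofLp (ofLp_ne_zero hG0) := ⟨_, rfl⟩
  refine ⟨fun z => if z = 0 then q₀ else f z, ?_, ?_⟩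
  · intro z hz
    by_cases hz0 : z = 0
    · subst hz0
      refine ⟨fun w => (G (2 * w)).ofLp, ?_, ?_⟩
      · apply analyticAt_ofLp
        have h1 : AnalyticAt ℂ G ((fun w : ℂ => 2 * w) 0) := by simpa using hGa
        exact h1.comp (analyticAt_const.mul analyticAt_id)
      · have h2 : Tendsto (fun w : ℂ => 2 * w) (𝓝 0) (𝓝 0) := by
          have : Tendsto (fun w : ℂ => 2 * w) (𝓝 0) (𝓝 (2 * 0)) := (continuous_const.mul continuous_id).tendsto _
          rwa [mul_zero] at this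
        have h3 : ∀ᶠ w in 𝓝 (0 : ℂ), w ≠ 0 → ∃ k : ℂ, k ≠ 0 ∧ G (2 * w) = k • F₁ (2 * w) := by
          filter_upwards [h2.eventually (eventually_nhdsWithin_iff.mp hG)] with w hw hw0
          exact hw (by simpa using hw0)
        have h4 : ∀ᶠ w in 𝓝 (0 : ℂ), G (2 * w) ≠ 0 := by
          have h5 : ∀ᶠ y in 𝓝 (0 : ℂ), G y ≠ 0 := hGa.continuousAt.eventually_ne hG0
          exact h2.eventually h5
        filter_upwards [h3, h4, ball_mem_nhds (0 : ℂ) (show (0 : ℝ) < 1 / 2 by norm_num)] with w hw1 hw2 hw3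
        refine ⟨ofLp_ne_zero hw2, ?_⟩
        by_cases hw0 : w = 0
        · subst hw0
          simp only [if_true, hq₀, mul_zero]
        · rw [if_neg hw0]
          obtain ⟨k, hk0, hk⟩ := hw1 hw0
          rw [hF₁2] at hk
          obtain ⟨h5, h6⟩ := hFf w ⟨hw3, hw0⟩
          rw [h6, Projectivization.mk_eq_mk_iff']
          refine ⟨k⁻¹, ?_⟩
          rw [hk]
          show k⁻¹ • (k • (F w).ofLp) = _
          rw [smul_smul, inv_mul_cancel₀ hk0, one_smul]
    · obtain ⟨φ, hφ, he⟩ := hf z ⟨hz, hz0⟩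
      refine ⟨φ, hφ, ?_⟩
      filter_upwards [he, isOpen_ne.mem_nhds hz0] with w hw1 hw2
      rw [if_neg hw2]
      exact hw1
  · intro z hz
    have hz0 : z ≠ 0 := hz.2
    simp only
    rw [if_neg hz0]

end Pool.Agent.H19T

end
end

section

/-!
# G3 PS Jen: Jensen's inequality for `pP`

On the closed disc: `log pP = log (sup_j ‖a_j‖) + log ‖F‖ - wt W (h)`.  Let `j` attain the supremum at the centre `z`, `a = aP .. j`, `a z ≠ 0`.
`log ‖a z‖ ≤ circleAverage (log ‖a‖) z r` (`AnalyticOnNhd.circleAverage_log_norm`, see `log_norm_le_avg` in `G3/C/LemmaU.lean` on main, or `MeromorphicOn.circleAverage_log_norm`);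
`log ‖a‖ ≤ log (sup_j ‖a_j‖)` off the zeros of `a` (finitely many on the circle: use the a.e. version of the monotonicity of the integral).
Circle integrability of `log (sup_j ‖a_j‖)`: it is measurable, bounded above (continuous functions on the compact circle) and `≥ log ‖a‖`, which is circle integrable
(`circleIntegrable_log_norm_meromorphicOn`).  `log ‖F‖` and `wt W ∘ h` are continuous on the disc.
`circleAverage (wt W ∘ h) z r - wt W (h z) = circleAverage (wt W (h - h z)) z r ≤ (∑ ‖W i‖^2) circleAverage ‖h - h z‖^2` (`|ℓ h|^2 = |ℓ h z|^2 + 2 Re (conj (ℓ h z) (ℓ h - ℓ h z)) + |ℓ (h - h z)|^2`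
and the mean value property of the holomorphic function `ℓ ∘ h`).
-/

set_option autoImplicit false

open Topology Filter Metric

namespace Pool.Agent.G3

open Pool.Agent.H36.BP (EN fs wd Sub)
open Pool.Agent.H14.PP (IsCone CurveAt Tan)
open Pool.Agent.H62.EF (MN pr)
open Pool.Agent.AD (Vd Chart Charts)
open Pool.Agent.TG (TMap Gd)

variable {N k : ℕ} {X : Set (EN N)} {Λ : AddSubgroup (Vd (k + 1))} {u : EN N → Vd (k + 1)} {D : Set (Vd (k + 1))} {m J r : ℕ}
  {P : Fin J → SForm X Λ u m} {W : Fin r → Vd (k + 1) →L[ℂ] ℂ}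

/-- the mean value inequality for `log ‖a‖` -/
private theorem log_norm_le_cA {a : ℂ → ℂ} {z : ℂ} {s : ℝ} (hs : 0 < s) (ha : AnalyticOnNhd ℂ a (closedBall z s)) (ha0 : a z ≠ 0) :
    Real.log ‖a z‖ ≤ Real.circleAverage (fun w => Real.log ‖a w‖) z s := by
  have har : |s| = s := abs_of_pos hs
  have hana : AnalyticOnNhd ℂ a (closedBall z |s|) := by rwa [har]
  rw [AnalyticOnNhd.circleAverage_log_norm hs.ne' hana ha0]
  have h1 : 0 ≤ ∑ᶠ u, (MeromorphicOn.divisor a (closedBall z |s|) u : ℝ) * Real.log (s * ‖z - u‖⁻¹) := by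
    apply finsum_nonneg
    intro u
    by_cases hu : u ∈ closedBall z |s|
    · apply mul_nonneg
      · have := MeromorphicOn.AnalyticOnNhd.divisor_nonneg hana u
        exact_mod_cast this
      · by_cases huc : u = z
        · simp [huc]
        · apply Real.log_nonneg
          have h2 : 0 < ‖z - u‖ := by
            rw [norm_pos_iff, sub_ne_zero]
            exact fun h => huc h.symm
          have h3 : ‖z - u‖ ≤ s := by
            rw [mem_closedBall, dist_eq_norm, abs_of_pos hs, norm_sub_rev] at hu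
            exact hu
          rw [← div_eq_mul_inv, le_div_iff₀ h2]
          linarith
    · have : MeromorphicOn.divisor a (closedBall z |s|) u = 0 := Function.locallyFinsuppWithin.apply_eq_zero_of_notMem _ hu
      simp [this]
  linarith

/-- an analytic function which is not zero at the centre is not zero outside a discrete set of the circle -/
private theorem ne_codisc {a : ℂ → ℂ} {z : ℂ} {s : ℝ} (hs : 0 < s) (ha : AnalyticOnNhd ℂ a (closedBall z s)) (ha0 : a z ≠ 0) :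
    a ⁻¹' {0}ᶜ ∈ codiscreteWithin (sphere z |s|) := by
  have h1 : a ⁻¹' {0}ᶜ ∈ codiscreteWithin (closedBall z s) :=
    ha.preimage_zero_mem_codiscreteWithin ha0 (mem_closedBall_self hs.le) ((convex_closedBall z s).isConnected ⟨z, mem_closedBall_self hs.le⟩)
  rw [abs_of_pos hs]
  exact codiscreteWithin_mono sphere_subset_closedBall h1

/-- the logarithm of a continuous majorant of `‖a‖` is circle integrable, and the mean value inequality -/
private theorem log_sup_avg {a : ℂ → ℂ} {S : ℂ → ℝ} {z : ℂ} {s : ℝ} (hs : 0 < s) (ha : AnalyticOnNhd ℂ a (closedBall z s)) (ha0 : a z ≠ 0)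
    (hS : ContinuousOn S (sphere z s)) (hle : ∀ w ∈ sphere z s, ‖a w‖ ≤ S w) :
    CircleIntegrable (fun w => Real.log (S w)) z s ∧ Real.log ‖a z‖ ≤ Real.circleAverage (fun w => Real.log (S w)) z s := by
  have har : |s| = s := abs_of_pos hs
  have hsub : sphere z s ⊆ closedBall z s := sphere_subset_closedBall
  have hmem : ∀ θ : ℝ, circleMap z s θ ∈ sphere z s := fun θ => circleMap_mem_sphere z hs.le θ
  have hIa : CircleIntegrable (fun w => Real.log ‖a w‖) z s := by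
    apply MeromorphicOn.circleIntegrable_log_norm_of_nonneg _ hs.le
    exact (ha.mono hsub).meromorphicOn
  have hne : ∀ᵐ θ ∂(MeasureTheory.volume.restrict (Set.uIoc 0 (2 * Real.pi))), a (circleMap z s θ) ≠ 0 := by
    have h3 := circleMap_preimage_codiscrete hs.ne' (ne_codisc hs ha ha0)
    have h4 := ae_restrict_le_codiscreteWithin (μ := MeasureTheory.volume) measurableSet_uIoc (codiscreteWithin_mono (U₁ := Set.uIoc 0 (2 * Real.pi)) (by simp) h3)
    filter_upwards [h4] with θ hθ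
    exact hθ
  obtain ⟨M, hM⟩ := (isCompact_sphere z s).exists_bound_of_continuousOn hS
  have hlow : ∀ᵐ θ ∂(MeasureTheory.volume.restrict (Set.uIoc 0 (2 * Real.pi))),
      Real.log ‖a (circleMap z s θ)‖ ≤ Real.log (S (circleMap z s θ)) := by
    filter_upwards [hne] with θ hθ
    exact Real.log_le_log (norm_pos_iff.mpr hθ) (hle _ (hmem θ))
  have hup : ∀ᵐ θ ∂(MeasureTheory.volume.restrict (Set.uIoc 0 (2 * Real.pi))),
      Real.log (S (circleMap z s θ)) ≤ |Real.log M| := by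
    filter_upwards [hne] with θ hθ
    have h1 : 0 < S (circleMap z s θ) := (norm_pos_iff.mpr hθ).trans_le (hle _ (hmem θ))
    have h2 : S (circleMap z s θ) ≤ M := (le_abs_self _).trans (hM _ (hmem θ))
    exact (Real.log_le_log h1 h2).trans (le_abs_self _)
  have hIS : CircleIntegrable (fun w => Real.log (S w)) z s := by
    have hg : IntervalIntegrable (fun θ => |Real.log ‖a (circleMap z s θ)‖| + |Real.log M|) MeasureTheory.volume 0 (2 * Real.pi) :=
      (IntervalIntegrable.abs hIa).add intervalIntegrable_const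
    have hcS : Continuous fun θ : ℝ => S (circleMap z s θ) := hS.comp_continuous (continuous_circleMap z s) hmem
    refine hg.mono_fun (Real.measurable_log.comp hcS.measurable).aestronglyMeasurable ?_
    filter_upwards [hlow, hup] with θ h1 h2
    rw [Real.norm_eq_abs, Real.norm_eq_abs, abs_of_nonneg (a := |Real.log ‖a (circleMap z s θ)‖| + |Real.log M|) (by positivity), abs_le]
    constructor
    · have := neg_abs_le (Real.log ‖a (circleMap z s θ)‖)
      have := abs_nonneg (Real.log M)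
      linarith
    · have := abs_nonneg (Real.log ‖a (circleMap z s θ)‖)
      linarith
  refine ⟨hIS, (log_norm_le_cA hs ha ha0).trans ?_⟩
  rw [Real.circleAverage, Real.circleAverage, smul_eq_mul, smul_eq_mul]
  refine mul_le_mul_of_nonneg_left ?_ (by positivity)
  refine intervalIntegral.integral_mono_ae_restrict (by positivity) hIa hIS ?_
  rw [Set.uIoc_of_le (by positivity)] at hlow
  rw [MeasureTheory.Measure.restrict_congr_set MeasureTheory.Ioc_ae_eq_Icc.symm]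
  exact hlow

/-- the mean of `‖ℓ h‖ ^ 2` -/
private theorem cA_sq {g : ℂ → ℂ} {z : ℂ} {s : ℝ} (hs : 0 < s) (hg : DifferentiableOn ℂ g (closedBall z s)) :
    Real.circleAverage (fun w => ‖g w‖ ^ 2) z s = ‖g z‖ ^ 2 + Real.circleAverage (fun w => ‖g w - g z‖ ^ 2) z s := by
  have har : |s| = s := abs_of_pos hs
  have hsub : sphere z s ⊆ closedBall z s := sphere_subset_closedBall
  have hgc : ContinuousOn g (sphere z s) := hg.continuousOn.mono hsub
  have hd : DiffContOnCl ℂ g (ball z |s|) := by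
    rw [har]
    exact DifferentiableOn.diffContOnCl (by rwa [closure_ball z hs.ne'])
  have hmean : Real.circleAverage g z s = g z := hd.circleAverage
  have hIg : CircleIntegrable g z s := hgc.circleIntegrable hs.le
  -- the linear term
  set L : ℂ →L[ℝ] ℝ := Complex.reCLM.comp ((ContinuousLinearMap.mul ℂ ℂ ((starRingEnd ℂ) (g z))).restrictScalars ℝ) with hL
  have hLv : ∀ w, L w = ((starRingEnd ℂ) (g z) * w).re := fun w => by
    simp [hL]
  have hlin : Real.circleAverage (fun w => L (g w)) z s = L (g z) := by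
    have := L.circleAverage_comp_comm hIg
    rw [hmean] at this
    exact this
  have hIL : CircleIntegrable (fun w => L (g w)) z s := (L.continuous.comp_continuousOn hgc).circleIntegrable hs.le
  have hIn : CircleIntegrable (fun w => ‖g w - g z‖ ^ 2) z s := ((hgc.sub continuousOn_const).norm.pow 2).circleIntegrable hs.le
  have hpt : (fun w => ‖g w‖ ^ 2) = fun w => ((2 : ℝ) • (L (g w)) + ‖g w - g z‖ ^ 2) + (-‖g z‖ ^ 2) := by
    funext w
    rw [hLv, Complex.sq_norm, Complex.sq_norm, Complex.sq_norm, Complex.normSq_apply, Complex.normSq_apply, Complex.normSq_apply]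
    simp only [Complex.sub_re, Complex.sub_im, Complex.mul_re, Complex.conj_re, Complex.conj_im, smul_eq_mul]
    ring
  have hI1 : CircleIntegrable (fun w => (2 : ℝ) • (L (g w))) z s := hIL.const_fun_smul
  rw [hpt, Real.circleAverage_fun_add (hI1.fun_add hIn) (circleIntegrable_const _ _ _), Real.circleAverage_fun_add hI1 hIn,
    Real.circleAverage_fun_smul, Real.circleAverage_const, hlin, hLv]
  have h1 : ((starRingEnd ℂ) (g z) * g z).re = ‖g z‖ ^ 2 := by
    rw [Complex.sq_norm, Complex.normSq_apply]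
    simp [Complex.mul_re]
  rw [h1, smul_eq_mul]
  ring

theorem pP_jensen (hX : IsCone X) (hP : PData X Λ u D P W) {U : Set ℂ} (hU : IsOpen U) {F : ℂ → EN N} {h : ℂ → Vd (k + 1)} (hF : Cv X Λ u U F h) {z : ℂ} {s : ℝ} (hs : 0 < s)
    (hz : closedBall z s ⊆ U) (h0 : 0 < pf (pP P W) F z) :
    CircleIntegrable (fun w => Real.log (pf (pP P W) F w)) z s ∧
    Real.log (pf (pP P W) F z) + TT F z s ≤
      Real.circleAverage (fun w => Real.log (pf (pP P W) F w)) z s + (∑ i, ‖W i‖ ^ 2) * Real.circleAverage (fun w => ‖h w - h z‖ ^ 2) z s := by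
  have hzz : z ∈ closedBall z s := mem_closedBall_self hs.le
  have hsub : sphere z s ⊆ closedBall z s := sphere_subset_closedBall
  have hFne : ∀ w ∈ closedBall z s, F w ≠ 0 := fun w hw h => hX.zero_notMem (h ▸ hF.mem w (hz hw))
  set S : ℂ → ℝ := fun w => ⨆ j, ‖aP P h F j w‖ with hSdef
  have hcurve : ∀ w ∈ closedBall z s, pf (pP P W) F w = S w * ‖F w‖ * Real.exp (-wt W (h w)) := fun w hw => pP_curve hP hU hF (hz hw)
  have hSz : 0 < S z := by
    rw [hcurve z hzz] at h0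
    have h1 : 0 < ‖F z‖ := norm_pos_iff.mpr (hFne z hzz)
    have h2 := Real.exp_pos (-wt W (h z))
    have h3 : 0 ≤ S z := Real.iSup_nonneg fun j => norm_nonneg _
    rcases h3.lt_or_eq with h4 | h4
    · exact h4
    · rw [← h4] at h0
      simp at h0
  have : Nonempty (Fin J) := by
    by_contra hne
    rw [not_nonempty_iff] at hne
    have : S z = 0 := Real.iSup_of_isEmpty _
    rw [this] at hSz
    exact lt_irrefl _ hSz
  obtain ⟨j, hj⟩ : ∃ j, ‖aP P h F j z‖ = S z := exists_eq_ciSup_of_finite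
  have hle : ∀ w, ‖aP P h F j w‖ ≤ S w := fun w => le_ciSup (f := fun j => ‖aP P h F j w‖) (Set.finite_range _).bddAbove j
  have haz : aP P h F j z ≠ 0 := by
    rw [← norm_pos_iff, hj]
    exact hSz
  have han : AnalyticOnNhd ℂ (aP P h F j) (closedBall z s) := fun w hw => aP_an hU hF j (hz hw)
  have hSc : ContinuousOn S (closedBall z s) := by
    have h1 : ∀ i : Fin J, ContinuousOn (fun w => ‖aP P h F i w‖) (closedBall z s) := fun i w hw =>
      (aP_an hU hF i (hz hw)).continuousAt.norm.continuousWithinAt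
    have h2 : S = fun w => Finset.univ.sup' Finset.univ_nonempty fun i => ‖aP P h F i w‖ := by
      funext w
      rw [Finset.sup'_univ_eq_ciSup]
    rw [h2]
    exact ContinuousOn.finset_sup'_apply Finset.univ_nonempty fun i _ => h1 i
  obtain ⟨hIS, havS⟩ := log_sup_avg hs han haz (hSc.mono hsub) fun w _ => hle w
  -- the other two functions
  have hFc : ContinuousOn F (closedBall z s) := hF.F_diff.continuousOn.mono hz
  have hhc : ContinuousOn h (closedBall z s) := hF.h_diff.continuousOn.mono hz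
  have hIF : CircleIntegrable (fun w => Real.log ‖F w‖) z s :=
    ((hFc.norm.log fun w hw => (norm_pos_iff.mpr (hFne w hw)).ne').mono hsub).circleIntegrable hs.le
  have hIi : ∀ i : Fin r, CircleIntegrable (fun w => ‖W i (h w)‖ ^ 2) z s := fun i =>
    ((((W i).continuous.comp_continuousOn hhc).norm.pow 2).mono hsub).circleIntegrable hs.le
  have hIW : CircleIntegrable (fun w => wt W (h w)) z s := by
    unfold wt
    exact CircleIntegrable.fun_sum _ fun i _ => hIi i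
  have hIh : CircleIntegrable (fun w => ‖h w - h z‖ ^ 2) z s :=
    (((hhc.sub continuousOn_const).norm.pow 2).mono hsub).circleIntegrable hs.le
  -- the formula for the logarithm
  have hlog : ∀ w ∈ closedBall z s, S w ≠ 0 → Real.log (pf (pP P W) F w) = Real.log (S w) + Real.log ‖F w‖ - wt W (h w) := by
    intro w hw hSw
    have h1 : ‖F w‖ ≠ 0 := (norm_pos_iff.mpr (hFne w hw)).ne'
    rw [hcurve w hw, Real.log_mul (mul_ne_zero hSw h1) (Real.exp_pos _).ne', Real.log_mul hSw h1, Real.log_exp]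
    ring
  have hcod : (fun w => Real.log (S w) + Real.log ‖F w‖ - wt W (h w)) =ᶠ[codiscreteWithin (sphere z |s|)] fun w => Real.log (pf (pP P W) F w) := by
    filter_upwards [ne_codisc hs han haz, self_mem_codiscreteWithin (sphere z |s|)] with w h1 h2
    rw [abs_of_pos hs] at h2
    have h3 : 0 < ‖aP P h F j w‖ := norm_pos_iff.mpr h1
    exact (hlog w (hsub h2) (h3.trans_le (hle w)).ne').symm
  have hI2 : CircleIntegrable (fun w => Real.log (S w) + Real.log ‖F w‖) z s := hIS.fun_add hIF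
  have hav : Real.circleAverage (fun w => Real.log (pf (pP P W) F w)) z s =
      Real.circleAverage (fun w => Real.log (S w)) z s + Real.circleAverage (fun w => Real.log ‖F w‖) z s - Real.circleAverage (fun w => wt W (h w)) z s := by
    rw [← Real.circleAverage_congr_codiscreteWithin hcod hs.ne', Real.circleAverage_fun_sub hI2 hIW, Real.circleAverage_fun_add hIS hIF]
  have hwt : Real.circleAverage (fun w => wt W (h w)) z s ≤ wt W (h z) + (∑ i, ‖W i‖ ^ 2) * Real.circleAverage (fun w => ‖h w - h z‖ ^ 2) z s := by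
    have h1 : Real.circleAverage (fun w => wt W (h w)) z s = ∑ i, Real.circleAverage (fun w => ‖W i (h w)‖ ^ 2) z s := by
      unfold wt
      exact Real.circleAverage_fun_sum fun i _ => hIi i
    rw [h1, wt, Finset.sum_mul, ← Finset.sum_add_distrib]
    refine Finset.sum_le_sum fun i _ => ?_
    have h2 : DifferentiableOn ℂ (fun w => W i (h w)) (closedBall z s) := (W i).differentiable.comp_differentiableOn (hF.h_diff.mono hz)
    rw [cA_sq hs h2]
    have h3 : Real.circleAverage (fun w => ‖W i (h w) - W i (h z)‖ ^ 2) z s ≤ Real.circleAverage (fun w => (‖W i‖ ^ 2) • (‖h w - h z‖ ^ 2)) z s := by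
      refine Real.circleAverage_mono ?_ hIh.const_fun_smul fun w _ => ?_
      · exact (((((W i).continuous.comp_continuousOn hhc).sub continuousOn_const).norm.pow 2).mono hsub).circleIntegrable hs.le
      · rw [← map_sub, smul_eq_mul, ← mul_pow]
        exact pow_le_pow_left₀ (norm_nonneg _) ((W i).le_opNorm _) 2
    rw [Real.circleAverage_fun_smul, smul_eq_mul] at h3
    linarith
  refine ⟨CircleIntegrable.congr_codiscreteWithin hcod (hI2.fun_sub hIW), ?_⟩
  rw [hav, hlog z hzz hSz.ne', TT]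
  rw [hj] at havS
  linarith

end Pool.Agent.G3

end

section

/-!
# G3 PS Sub: the lower support of `pP` on curves

At `z` the supremum is attained by some `j`, `aP .. j z ≠ 0`.  `Sub (‖aP .. j ·‖) z 0` (`Sub.of_holo`), `Sub ‖F‖ z (fs^2/2)` (`Sub.norm_rpow` with `a = 1`),
`Sub (exp (- ‖W i (h ·)‖^2)) z (- ‖W i (h' z)‖^2)` (`Sub.exp_sq` with `a = -1`, `t = W i ∘ h`); product over `i` (induction over `Fin r`), `‖W i v‖ ≤ ‖W i‖ ‖v‖`, so `C = ∑ ‖W i‖^2` works;
`Sub.mul`, then `Sub.mono` (the supremum is at least the `j`-th term), `Sub.congr`.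
-/

set_option autoImplicit false

open Topology Filter Metric

namespace Pool.Agent.G3

open Pool.Agent.H36.BP (EN fs wd Sub)
open Pool.Agent.H14.PP (IsCone CurveAt Tan)
open Pool.Agent.H62.EF (MN pr)
open Pool.Agent.AD (Vd Chart Charts)
open Pool.Agent.TG (TMap Gd)

variable {N k : ℕ} {X : Set (EN N)} {Λ : AddSubgroup (Vd (k + 1))} {u : EN N → Vd (k + 1)} {D : Set (Vd (k + 1))} {m J r : ℕ}
  {P : Fin J → SForm X Λ u m} {W : Fin r → Vd (k + 1) →L[ℂ] ℂ}

private theorem sub_exp {h : ℂ → Vd (k + 1)} {z : ℂ} (hh : AnalyticAt ℂ h z) (s : Finset (Fin r)) :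
    Sub (fun w => Real.exp (-∑ i ∈ s, ‖W i (h w)‖ ^ 2)) z (-∑ i ∈ s, ‖W i (deriv h z)‖ ^ 2) := by
  classical
  induction s using Finset.induction_on with
  | empty =>
    simp only [Finset.sum_empty, neg_zero, Real.exp_zero]
    exact Pool.Agent.H36.BP.Sub.const one_pos z
  | insert i s hi ih =>
    have h1 : AnalyticAt ℂ (fun w => W i (h w)) z := ((W i).analyticAt _).comp hh
    have h2 : deriv (fun w => W i (h w)) z = W i (deriv h z) :=
      ((W i).hasFDerivAt.comp_hasDerivAt z hh.differentiableAt.hasDerivAt).deriv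
    have h3 := Pool.Agent.H36.BP.Sub.exp_sq h1 (-1)
    rw [h2] at h3
    have h4 := (h3.mul ih).congr (v := fun w => Real.exp (-∑ j ∈ insert i s, ‖W j (h w)‖ ^ 2)) (Filter.Eventually.of_forall fun w => by
      rw [← Real.exp_add, Finset.sum_insert hi]
      congr 1
      ring)
    refine h4.anti (le_of_eq ?_)
    rw [Finset.sum_insert hi]
    ring

theorem pP_sub (hX : IsCone X) (hP : PData X Λ u D P W) {U : Set ℂ} (hU : IsOpen U) {F : ℂ → EN N} {h : ℂ → Vd (k + 1)} (hF : Cv X Λ u U F h) {z : ℂ} (hz : z ∈ U)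
    (h0 : 0 < pf (pP P W) F z) :
    Sub (pf (pP P W) F) z (fs (F z) (deriv F z) ^ 2 / 2 - (∑ i, ‖W i‖ ^ 2) * ‖deriv h z‖ ^ 2) := by
  have hUz : U ∈ 𝓝 z := hU.mem_nhds hz
  have hFz : F z ≠ 0 := fun h1 => hX.zero_notMem (h1 ▸ hF.mem z hz)
  have hFa : AnalyticAt ℂ F z := hF.F_diff.analyticAt hUz
  have hha : AnalyticAt ℂ h z := hF.h_diff.analyticAt hUz
  have h1 := pP_curve hP hU hF hz
  rcases isEmpty_or_nonempty (Fin J) with hJ | hJ
  · rw [h1, Real.iSup_of_isEmpty, zero_mul, zero_mul] at h0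
    exact absurd h0 (lt_irrefl _)
  obtain ⟨j, hj⟩ := exists_eq_ciSup_of_finite (f := fun j => ‖aP P h F j z‖)
  have hj0 : aP P h F j z ≠ 0 := by
    intro h2
    rw [h1, ← hj, h2, norm_zero, zero_mul, zero_mul] at h0
    exact lt_irrefl _ h0
  have hA := Pool.Agent.H36.BP.Sub.of_holo (aP_an hU hF j hz) hj0
  have hB := Pool.Agent.H36.BP.Sub.norm_rpow hFa hFz 1
  have hE := sub_exp (W := W) hha Finset.univ
  have hT := ((hA.mul hB).mul hE).mono (v := pf (pP P W) F) (by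
    rw [h1, ← hj, Real.rpow_one]
    rfl) (by
    filter_upwards [hUz] with w hw
    rw [pP_curve hP hU hF hw, Real.rpow_one]
    have h3 : ‖aP P h F j w‖ ≤ ⨆ j, ‖aP P h F j w‖ := le_ciSup (Set.finite_range fun j => ‖aP P h F j w‖).bddAbove j
    exact mul_le_mul_of_nonneg_right (mul_le_mul_of_nonneg_right h3 (norm_nonneg _)) (Real.exp_pos _).le)
  refine hT.anti ?_
  have h4 : ∑ i, ‖W i (deriv h z)‖ ^ 2 ≤ (∑ i, ‖W i‖ ^ 2) * ‖deriv h z‖ ^ 2 := by
    rw [Finset.sum_mul]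
    refine Finset.sum_le_sum fun i _ => ?_
    rw [← mul_pow]
    exact pow_le_pow_left₀ (norm_nonneg _) ((W i).le_opNorm _) 2
  linarith

end Pool.Agent.G3

end

section

/-!
# G4 E IdY: two maps which agree, pointwise, with one of finitely many maps

`fin_ident`: `Y` a finite dimensional complex space, `D'` closed, such that every `y` and every complex line through `y` ... `Y \ D'` is preconnected and nonempty (hypotheses).  `Φ` is holomorphic off `D'`, and at every point off `D'` it is equal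
to one of the finitely many maps `Ψ ∈ S`, which are holomorphic off `D'`, too.  Then it is equal to one of them everywhere off `D'`.

Proof.  The sets `{y ∉ D' | Φ y = Ψ y}` are closed in `D'ᶜ`, finitely many cover it: one has an interior point (`D'ᶜ` is open and nonempty; for finitely many closed sets: induction, or Baire).  The set of the points of `D'ᶜ` near which
`Φ = Ψ` is open, and closed in `D'ᶜ` (minors of the lifts, as in `G3/E/Idt.hol_ident`).
`compl_conn'`: the complement of `D'` is preconnected if every complex line of `Y` meets `D'` in isolated points: two points off `D'` are on a complex line, on which the complement of a closed discrete set is preconnected.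
-/

set_option autoImplicit false

open Topology Filter Metric

namespace Pool.Agent.G4.E

open Pool.Agent.H36.BP (EN fs wd)
open Pool.Agent.H14.PP (IsCone CurveAt Tan)
open Pool.Agent.H62.EF (MN pr)
open Pool.Agent.AD (Vd Chart Charts IsGerm)
open Pool.Agent.TG

variable {N k : ℕ} {X : Set (EN N)} {Λ : AddSubgroup (Vd (k + 1))} {u : EN N → Vd (k + 1)}

theorem compl_conn' {Y : Type} [NormedAddCommGroup Y] [NormedSpace ℂ Y] [FiniteDimensional ℂ Y] {D' : Set Y} (hD' : IsClosed D')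
    (hiso : ∀ y e : Y, e ≠ 0 → ∀ t : ℂ, ∀ᶠ w in 𝓝[≠] t, y + w • e ∉ D') : IsPreconnected (D'ᶜ : Set Y) := by
  refine isPreconnected_of_forall_pair fun x hx y hy => ?_
  by_cases hxy : x = y
  · exact ⟨{x}, Set.singleton_subset_iff.2 hx, rfl, hxy.symm, isPreconnected_singleton⟩
  have he : y - x ≠ 0 := sub_ne_zero.2 (Ne.symm hxy)
  obtain ⟨S, hS⟩ : ∃ S : Set ℂ, S = {w | x + w • (y - x) ∈ D'} := ⟨_, rfl⟩
  have hd : DiscreteTopology S := by
    rw [discreteTopology_subtype_iff]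
    intro t _
    have h1 : ∀ᶠ w in 𝓝[≠] t, w ∉ S := by
      filter_upwards [hiso x (y - x) he t] with w hw
      rw [hS]
      exact hw
    have h2 : Sᶜ ∈ 𝓝[≠] t := h1
    rwa [Filter.mem_iff_inf_principal_compl, compl_compl] at h2
  have hc : S.Countable := by
    have : Countable S := (TopologicalSpace.separableSpace_iff_countable (α := S)).1 inferInstance
    exact Set.countable_coe_iff.1 this
  have hp : IsPreconnected (Sᶜ : Set ℂ) := (hc.isPathConnected_compl_of_one_lt_rank (by rw [Complex.rank_real_complex]; exact Cardinal.one_lt_two)).isConnected.isPreconnected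
  refine ⟨(fun w : ℂ => x + w • (y - x)) '' Sᶜ, ?_, ⟨0, ?_, by simp⟩, ⟨1, ?_, by simp⟩, hp.image _ (by fun_prop)⟩
  · rintro _ ⟨w, hw, rfl⟩
    rw [hS] at hw
    exact hw
  · rw [hS]
    show ¬ x + (0 : ℂ) • (y - x) ∈ D'
    rw [zero_smul, add_zero]
    exact hx
  · rw [hS]
    show ¬ x + (1 : ℂ) • (y - x) ∈ D'
    rw [one_smul, add_sub_cancel]
    exact hy

private theorem iy_ne (hX : IsCone X) {x : EN N} (hx : x ∈ X) : x ≠ 0 := fun h => hX.zero_notMem (h ▸ hx)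

private theorem iy_pr_eq {x y : EN N} (hx : x ≠ 0) (hy : y ≠ 0) (h : ∀ i j, x i * y j = x j * y i) : pr x = pr y := by
  obtain ⟨j, hj⟩ : ∃ j, y j ≠ 0 := by
    by_contra h
    push Not at h
    apply hy
    ext i
    exact h i
  have h1 : x = (x j / y j) • y := by
    ext i
    show x i = x j / y j * y i
    rw [div_mul_eq_mul_div, ← h i j, mul_div_assoc, div_self hj, mul_one]
  have h2 : x j / y j ≠ 0 := by
    intro h0
    rw [h0, zero_smul] at h1
    exact hx h1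
  rw [Pool.Agent.H62.EF.pr_eq_iff hx hy]
  exact ⟨_, h2, h1⟩

private theorem iy_minor (hX : IsCone X) {x y : EN N} (hx : x ∈ X) (hy : y ∈ X) (h : pr x = pr y) (i j : Fin (N + 1)) : x i * y j - x j * y i = 0 := by
  obtain ⟨c, -, hc⟩ := (Pool.Agent.H62.EF.pr_eq_iff (iy_ne hX hx) (iy_ne hX hy)).1 h
  rw [hc]
  show c * y i * y j - c * y j * y i = 0
  ring

private theorem iy_cont {Y : Type} [NormedAddCommGroup Y] [NormedSpace ℂ Y] (hX : IsCone X) {D' : Set Y} {h : Y → Vd (k + 1)} {Φ : Y → MN N} (hΦ : HolY X Λ u D' h Φ) {y : Y}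
    (hy : y ∉ D') : ContinuousAt Φ y := by
  obtain ⟨φ, hφ, hφ'⟩ := hΦ y hy
  have h1 : φ y ≠ 0 := iy_ne hX hφ'.self_of_nhds.1
  have h2 : ContinuousAt (fun z => pr (φ z)) y := ContinuousAt.comp (g := (pr : EN N → MN N)) (f := φ) (Pool.Agent.H62.EF.continuousAt_pr h1) hφ.continuousAt
  exact h2.congr (hφ'.mono fun z hz => hz.2.1.symm)

/-- the identity theorem -/
private theorem iy_ident {Y : Type} [NormedAddCommGroup Y] [NormedSpace ℂ Y] (hX : IsCone X) {D' : Set Y} (hc : IsPreconnected (D'ᶜ : Set Y)) {h : Y → Vd (k + 1)} {Φ Ψ : Y → MN N}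
    (hΦ : HolY X Λ u D' h Φ) (hΨ : HolY X Λ u D' h Ψ) {y₀ : Y} (hy₀ : y₀ ∉ D') (h0 : ∀ᶠ y in 𝓝 y₀, Φ y = Ψ y) : ∀ y ∉ D', Φ y = Ψ y := by
  set U : Set Y := {z | ∀ᶠ w in 𝓝 z, Φ w = Ψ w} with hU
  have hUo : IsOpen U := by
    rw [isOpen_iff_mem_nhds]
    intro z hz
    exact hz.eventually_nhds
  have hsub : (D'ᶜ : Set Y) ⊆ U := by
    refine hc.subset_of_closure_inter_subset hUo ⟨y₀, hy₀, h0⟩ ?_
    rintro y ⟨hyc, hyD⟩
    obtain ⟨F, hF, hF'⟩ := hΦ y hyD
    obtain ⟨G, hG, hG'⟩ := hΨ y hyD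
    have h1 := hF.eventually_analyticAt.and (hG.eventually_analyticAt.and (hF'.and hG'))
    obtain ⟨r, hr, hb⟩ := Metric.eventually_nhds_iff_ball.1 h1
    obtain ⟨w, hwb, hwU⟩ := _root_.mem_closure_iff.1 hyc (ball y r) isOpen_ball (mem_ball_self hr)
    have hco : ∀ {η : Y → EN N} {v : Y}, AnalyticAt ℂ η v → ∀ l : Fin (N + 1), AnalyticAt ℂ (fun z => η z l) v := fun hη l =>
      ((EuclideanSpace.proj (𝕜 := ℂ) l : EN N →L[ℂ] ℂ).analyticAt _).comp hη
    have h2 : ∀ i j : Fin (N + 1), ∀ z ∈ ball y r, F z i * G z j = F z j * G z i := by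
      intro i j z hz
      have h3 : AnalyticOnNhd ℂ (fun z => F z i * G z j - F z j * G z i) (ball y r) := fun v hv => by
        have h4 := hb v hv
        exact ((hco h4.1 i).mul (hco h4.2.1 j)).sub ((hco h4.1 j).mul (hco h4.2.1 i))
      have h4 : ∀ᶠ v in 𝓝 w, F v i * G v j - F v j * G v i = 0 := by
        filter_upwards [hwU, isOpen_ball.mem_nhds hwb] with v hv hvb
        obtain ⟨-, -, ⟨h5, h6, -⟩, h8, h9, -⟩ := hb v hvb
        exact iy_minor hX h5 h8 (by rw [← h6, ← h9, hv]) i j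
      exact sub_eq_zero.1 (h3.eqOn_zero_of_preconnected_of_eventuallyEq_zero (convex_ball y r).isPreconnected hwb h4 hz)
    show ∀ᶠ w in 𝓝 y, Φ w = Ψ w
    filter_upwards [isOpen_ball.mem_nhds (mem_ball_self hr : y ∈ ball y r)] with z hz
    obtain ⟨-, -, ⟨h5, h6, -⟩, h8, h9, -⟩ := hb z hz
    rw [h6, h9]
    exact iy_pr_eq (iy_ne hX h5) (iy_ne hX h8) fun i j => h2 i j z hz
  intro z hz
  exact (hsub hz : z ∈ U).self_of_nhds

theorem fin_ident {Y : Type} [NormedAddCommGroup Y] [NormedSpace ℂ Y] [FiniteDimensional ℂ Y] (hX : IsCone X) {D' : Set Y} (hD' : IsClosed D') (hc : IsPreconnected (D'ᶜ : Set Y))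
    (hne : (D'ᶜ : Set Y).Nonempty) {h : Y → Vd (k + 1)} {Φ : Y → MN N} (hΦ : HolY X Λ u D' h Φ) {S : Set (Y → MN N)} (hS : S.Finite) (hSh : ∀ Ψ ∈ S, HolY X Λ u D' h Ψ)
    (hcov : ∀ y ∉ D', ∃ Ψ ∈ S, Φ y = Ψ y) : ∃ Ψ ∈ S, ∀ y ∉ D', Φ y = Ψ y := by
  have key : ∀ T : Set (Y → MN N), T.Finite → T ⊆ S → ∀ U : Set Y, IsOpen U → U.Nonempty → U ⊆ D'ᶜ → (∀ y ∈ U, ∃ Ψ ∈ T, Φ y = Ψ y) → ∃ Ψ ∈ T, ∃ y₀ ∉ D', ∀ᶠ y in 𝓝 y₀, Φ y = Ψ y := by
    intro T hT
    induction T, hT using Set.Finite.induction_on with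
    | empty =>
      rintro - U - ⟨y, hy⟩ - hU
      obtain ⟨Ψ, hΨ, -⟩ := hU y hy
      exact absurd hΨ (Set.notMem_empty Ψ)
    | insert hnot hfin ih =>
      rename_i Ψ T'
      intro hTS U hUo hUne hUD hU
      by_cases hall : ∀ y ∈ U, Φ y = Ψ y
      · obtain ⟨y₀, hy₀⟩ := hUne
        exact ⟨Ψ, Set.mem_insert _ _, y₀, hUD hy₀, by filter_upwards [hUo.mem_nhds hy₀] with y hy using hall y hy⟩
      · push Not at hall
        obtain ⟨y₁, hy₁, hne₁⟩ := hall
        have h1 := iy_cont hX hΦ (hUD hy₁)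
        have h2 := iy_cont hX (hSh Ψ (hTS (Set.mem_insert _ _))) (hUD hy₁)
        have h3 : ∀ᶠ y in 𝓝 y₁, Φ y ≠ Ψ y ∧ y ∈ U := ((h1.prodMk h2).eventually (isClosed_diagonal.isOpen_compl.mem_nhds (show (Φ y₁, Ψ y₁) ∉ Set.diagonal (MN N) from hne₁))).and (hUo.mem_nhds hy₁)
        obtain ⟨V, hV, hVo, hyV⟩ := _root_.eventually_nhds_iff.1 h3
        obtain ⟨Ψ', hΨ', h4⟩ := ih (fun x hx => hTS (Set.mem_insert_of_mem _ hx)) V hVo ⟨y₁, hyV⟩ (fun y hy => hUD (hV y hy).2) (fun y hy => by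
          obtain ⟨Ψ', hΨ', h5⟩ := hU y (hV y hy).2
          rcases hΨ' with rfl | hΨ'
          · exact absurd h5 (hV y hy).1
          · exact ⟨Ψ', hΨ', h5⟩)
        exact ⟨Ψ', Set.mem_insert_of_mem _ hΨ', h4⟩
  obtain ⟨Ψ, hΨ, y₀, hy₀, h1⟩ := key S hS subset_rfl _ hD'.isOpen_compl hne subset_rfl hcov
  exact ⟨Ψ, hΨ, iy_ident hX hc hΦ (hSh Ψ hΨ) hy₀ h1⟩

end Pool.Agent.G4.E

end

section

/-!
# G3 PS Low: comparison of `pP` with the Fubini-Study length

Plan.  Suppose the claim is false: there are `x n ∈ X`, `v n` tangent with (after scaling `x`, `v` and adding a multiple of `x` to `v`: `SForm.scale`, `add_smul`, `hom`, invariance of `fs`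
(`fs_inv`, `fs_smul_right`)) `‖x n‖ = 1`, and `pP (x n) (v n) > n fs^m` resp. `< fs^m / n`.  Choose `y n` in a bounded set with `u (x n) - y n ∈ Λ` (`Lat.cpt`); pass to an
ultrafilter limit: `x n → x ∈ X` (compactness of `X ∩ sphere`, `IsCone.closed`), `y n → y`, `u x - y ∈ Λ`.  In a chart `χ` at `x` (`Charts`) with a holomorphic lift `υ` of `u ∘ χ.σ` near
`q = χ.q x = 0` with `υ 0 = y` (see `TG.exists_lift_chart` in `TG/Y/Dv` and `TG/Tc`): `x n = c n • χ.σ (q n)`, `v n = c n • dσ (w n) + b n • x n` (tangent vectors in charts: `AD/ChartBasic`,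
`TG.exists_tan`), `y n = υ (q n)` for `𝒰`-many `n` (`Λ` is discrete).  `fs (x n) (v n)` is comparable to `‖w n‖` (immersion, compactness), so normalise `‖w n‖ = 1`, `w n → w ≠ 0`.
`(P j).toFun (υ q) (χ.σ q) (dσ_q w)` is continuous in `(q, w)` (`SForm.analytic`): the first claim follows; for the second one the limit is `0` for all `j`, `y ∈ Gd D δ` is not in `D`,
and `PData.zero` says that `dσ w` is proportional to `σ 0`, so `w = 0` (chart), contradiction.
-/

set_option autoImplicit false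

open Topology Filter Metric

namespace Pool.Agent.G3

open Pool.Agent.H36.BP (EN fs wd Sub)
open Pool.Agent.H14.PP (IsCone CurveAt Tan)
open Pool.Agent.H62.EF (MN pr)
open Pool.Agent.AD (Vd Chart Charts)
open Pool.Agent.TG (TMap Lat Geo Gd)

variable {N k : ℕ} {X : Set (EN N)} {Λ : AddSubgroup (Vd (k + 1))} {u : EN N → Vd (k + 1)} {D : Set (Vd (k + 1))} {m J r : ℕ}
  {P : Fin J → SForm X Λ u m} {W : Fin r → Vd (k + 1) →L[ℂ] ℂ}

/-- the value of `pP` in a chart with the lift `υ` of `u` -/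
private noncomputable def LowG (P : Fin J → SForm X Λ u m) (W : Fin r → Vd (k + 1) →L[ℂ] ℂ) (χ : Chart (k + 2) X) (υ : Vd (k + 2) → Vd (k + 1))
    (q w : Vd (k + 2)) : ℝ :=
  (⨆ j, ‖(P j).toFun (υ q) (χ.σ q) (fderiv ℂ χ.σ q w)‖) * ‖χ.σ q‖ * Real.exp (-wt W (υ q))

private theorem Low_tan_smul (hX : IsCone X) {x v : EN N} (h : Tan X x v) {c : ℂ} (hc : c ≠ 0) : Tan X (c • x) (c • v) := by
  obtain ⟨F, hF, hF0, hFd⟩ := h
  refine ⟨fun z => c • F z, ⟨AnalyticAt.fun_smul analyticAt_const hF.1, ?_⟩, ?_, ?_⟩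
  · filter_upwards [hF.2] with z hz
    exact hX.smul_mem _ hz c hc
  · show c • F 0 = c • x
    rw [hF0]
  · have h1 : HasDerivAt (fun z => c • F z) (c • deriv F 0) 0 :=
      hF.1.differentiableAt.hasDerivAt.const_smul c
    rw [h1.deriv, hFd]

private theorem Low_iSup (a : Fin J → ℝ) (s t : ℝ) (hs : 0 ≤ s) (ht : 0 ≤ t) : (⨆ j, a j) * s * t = ⨆ j, a j * s * t := by
  rw [Real.iSup_mul_of_nonneg hs, Real.iSup_mul_of_nonneg ht]

private theorem Low_eq (hX : IsCone X) (hu : TMap X Λ u) (hP : PData X Λ u D P W) (χ : Chart (k + 2) X) {υ : Vd (k + 2) → Vd (k + 1)} {x : EN N} (hx : x ∈ X)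
    (hU : x ∈ χ.U) (hl : u (χ.σ (χ.q x)) - υ (χ.q x) ∈ Λ) {v : EN N} (hv : Tan X x v) :
    pP P W x v = LowG P W χ υ (χ.q x) (fderiv ℂ χ.q x v) := by
  obtain ⟨c, a, hc, hxc, hvc⟩ := Pool.Agent.TG.tan_decomp hX χ hx hU hv
  have hb : χ.q x ∈ ball (0 : Vd (k + 2)) 2 := (χ.surj x hx hU).1
  have hσX : χ.σ (χ.q x) ∈ X := (χ.σ_mem _ hb).1
  set q := χ.q x with hq
  set w := fderiv ℂ χ.q x v with hw
  have hux : u x - υ q ∈ Λ := by
    have h1 : u (c • χ.σ q) - u (χ.σ q) ∈ Λ := hu.smul _ hσX c hc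
    rw [← hxc] at h1
    have h2 := Λ.add_mem h1 hl
    have e : u x - u (χ.σ q) + (u (χ.σ q) - υ q) = u x - υ q := by abel
    rwa [e] at h2
  have htσ : Tan X (χ.σ q) (fderiv ℂ χ.σ q w) := Pool.Agent.TG.tan_sigma χ hb w
  have htx : Tan X x (c • fderiv ℂ χ.σ q w) := by
    have h1 := Low_tan_smul hX htσ hc
    rwa [← hxc] at h1
  have key : ∀ j, ‖(P j).toFun (u x) x v‖ * ‖x‖ * Real.exp (-wt W (u x)) =
      ‖(P j).toFun (υ q) (χ.σ q) (fderiv ℂ χ.σ q w)‖ * ‖χ.σ q‖ * Real.exp (-wt W (υ q)) := by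
    intro j
    have h1 := hP.per j (υ q) (u x - υ q) hux x hx hux v hv
    rw [add_sub_cancel] at h1
    have h2 : (P j).toFun (υ q) x v = (P j).toFun (υ q) x (c • fderiv ℂ χ.σ q w) := by
      conv_lhs => rw [hvc]
      exact (P j).add_smul (υ q) x hx hux (c • fderiv ℂ χ.σ q w) htx a
    have h3 := (P j).scale (υ q) (χ.σ q) hσX hl (fderiv ℂ χ.σ q w) htσ c hc
    rw [← hxc, ← h2] at h3
    have h4 : ‖x‖ = ‖c‖ * ‖χ.σ q‖ := by
      conv_lhs => rw [hxc]
      rw [norm_smul]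
    rw [mul_right_comm, h1, ← h3, norm_mul, h4]
    ring
  unfold pP LowG
  rw [Low_iSup _ _ _ (norm_nonneg _) (Real.exp_nonneg _), Low_iSup _ _ _ (norm_nonneg _) (Real.exp_nonneg _)]
  simp_rw [key]

private theorem Low_hom (χ : Chart (k + 2) X) {υ : Vd (k + 2) → Vd (k + 1)} {q : Vd (k + 2)} (hb : q ∈ ball (0 : Vd (k + 2)) 2)
    (hl : u (χ.σ q) - υ q ∈ Λ) (w : Vd (k + 2)) (t : ℂ) : LowG P W χ υ q (t • w) = ‖t‖ ^ m * LowG P W χ υ q w := by
  have hσX : χ.σ q ∈ X := (χ.σ_mem _ hb).1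
  have key : ∀ j, ‖(P j).toFun (υ q) (χ.σ q) (fderiv ℂ χ.σ q (t • w))‖ = ‖t‖ ^ m * ‖(P j).toFun (υ q) (χ.σ q) (fderiv ℂ χ.σ q w)‖ := by
    intro j
    rw [map_smul, (P j).hom (υ q) (χ.σ q) hσX hl _ (Pool.Agent.TG.tan_sigma χ hb w) t, norm_mul, norm_pow]
  unfold LowG
  simp_rw [key]
  rw [← Real.mul_iSup_of_nonneg (pow_nonneg (norm_nonneg _) _)]
  ring

private theorem Low_cont (P : Fin J → SForm X Λ u m) (W : Fin r → Vd (k + 1) →L[ℂ] ℂ) (χ : Chart (k + 2) X) {υ : Vd (k + 2) → Vd (k + 1)} {q : Vd (k + 2)}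
    (hb : q ∈ ball (0 : Vd (k + 2)) 2) (hυ : AnalyticAt ℂ υ q) (hl : ∀ᶠ p in 𝓝 q, u (χ.σ p) - υ p ∈ Λ) (w : Vd (k + 2)) :
    ContinuousAt (fun z : Vd (k + 2) × Vd (k + 2) => LowG P W χ υ z.1 z.2) (q, w) := by
  have hev : ∀ᶠ p in 𝓝 q, χ.σ p ∈ X ∧ u (χ.σ p) - υ p ∈ Λ := by
    filter_upwards [hl, isOpen_ball.mem_nhds hb] with p hp hpb
    exact ⟨(χ.σ_mem p hpb).1, hp⟩
  have h1 : ∀ j, ContinuousAt (fun z : Vd (k + 2) × Vd (k + 2) => ‖(P j).toFun (υ z.1) (χ.σ z.1) (fderiv ℂ χ.σ z.1 z.2)‖) (q, w) := fun j =>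
    ((P j).analytic (k + 2) χ.σ υ q w (χ.σ_an q hb) hυ hev).continuousAt.norm
  have hfst : ContinuousAt (fun z : Vd (k + 2) × Vd (k + 2) => z.1) (q, w) := continuousAt_fst
  have h2 : ContinuousAt (fun z : Vd (k + 2) × Vd (k + 2) => χ.σ z.1) (q, w) :=
    ContinuousAt.comp (f := fun z : Vd (k + 2) × Vd (k + 2) => z.1) (g := χ.σ) (χ.σ_an q hb).continuousAt hfst
  have h3 : ContinuousAt (fun z : Vd (k + 2) × Vd (k + 2) => υ z.1) (q, w) :=
    ContinuousAt.comp (f := fun z : Vd (k + 2) × Vd (k + 2) => z.1) (g := υ) hυ.continuousAt hfst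
  have h4 : ContinuousAt (fun z : Vd (k + 2) × Vd (k + 2) => ⨆ j, ‖(P j).toFun (υ z.1) (χ.σ z.1) (fderiv ℂ χ.σ z.1 z.2)‖) (q, w) := by
    rcases isEmpty_or_nonempty (Fin J) with hJ | hJ
    · simp_rw [Real.iSup_of_isEmpty]
      exact continuousAt_const
    · have h5 : ∀ z : Vd (k + 2) × Vd (k + 2), (⨆ j, ‖(P j).toFun (υ z.1) (χ.σ z.1) (fderiv ℂ χ.σ z.1 z.2)‖) =
          Finset.univ.sup' Finset.univ_nonempty fun j => ‖(P j).toFun (υ z.1) (χ.σ z.1) (fderiv ℂ χ.σ z.1 z.2)‖ := fun z =>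
        (Finset.sup'_univ_eq_ciSup _).symm
      simp_rw [h5]
      exact ContinuousAt.finset_sup'_apply _ fun j _ => h1 j
  have h6 : ContinuousAt (fun z : Vd (k + 2) × Vd (k + 2) => Real.exp (-wt W (υ z.1))) (q, w) := by
    refine Real.continuous_exp.continuousAt.comp ?_
    refine ContinuousAt.neg ?_
    unfold wt
    refine tendsto_finsetSum _ fun i _ => ?_
    have h7 : ContinuousAt (fun z : Vd (k + 2) × Vd (k + 2) => W i (υ z.1)) (q, w) := (W i).continuous.continuousAt.comp h3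
    exact (h7.norm.pow 2)
  exact (h4.mul h2.norm).mul h6

private theorem Low_nonneg (χ : Chart (k + 2) X) (υ : Vd (k + 2) → Vd (k + 1)) (q w : Vd (k + 2)) : 0 ≤ LowG P W χ υ q w := by
  unfold LowG
  exact mul_nonneg (mul_nonneg (Real.iSup_nonneg fun _ => norm_nonneg _) (norm_nonneg _)) (Real.exp_nonneg _)

/-- the local upper bound in the chart -/
private theorem Low_upper (P : Fin J → SForm X Λ u m) (W : Fin r → Vd (k + 1) →L[ℂ] ℂ) (χ : Chart (k + 2) X) {υ : Vd (k + 2) → Vd (k + 1)} {q : Vd (k + 2)}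
    (hb : q ∈ ball (0 : Vd (k + 2)) 2) (hυ : AnalyticAt ℂ υ q) (hl : ∀ᶠ p in 𝓝 q, u (χ.σ p) - υ p ∈ Λ) :
    ∃ C : ℝ, ∀ᶠ p in 𝓝 q, ∀ w ∈ sphere (0 : Vd (k + 2)) 1, LowG P W χ υ p w ≤ C := by
  refine (isCompact_sphere (0 : Vd (k + 2)) 1).induction_on
    (p := fun S : Set (Vd (k + 2)) => ∃ C : ℝ, ∀ᶠ p in 𝓝 q, ∀ w ∈ S, LowG P W χ υ p w ≤ C) ?_ ?_ ?_ ?_
  · exact ⟨0, Filter.Eventually.of_forall fun p w hw => absurd hw (Set.notMem_empty w)⟩
  · rintro S T hST ⟨C, hC⟩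
    exact ⟨C, hC.mono fun p hp w hw => hp w (hST hw)⟩
  · rintro S T ⟨C, hC⟩ ⟨C', hC'⟩
    refine ⟨max C C', ?_⟩
    filter_upwards [hC, hC'] with p h1 h2 w hw
    rcases hw with hw | hw
    · exact (h1 w hw).trans (le_max_left _ _)
    · exact (h2 w hw).trans (le_max_right _ _)
  · intro w _
    have h1 := Low_cont P W χ hb hυ hl w
    have h2 : ∀ᶠ z in 𝓝 ((q, w) : Vd (k + 2) × Vd (k + 2)), LowG P W χ υ z.1 z.2 < LowG P W χ υ q w + 1 :=
      h1.eventually_lt_const (by show LowG P W χ υ q w < LowG P W χ υ q w + 1; linarith)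
    rw [nhds_prod_eq] at h2
    obtain ⟨pa, hpa, pb, hpb, hab⟩ := Filter.eventually_prod_iff.mp h2
    exact ⟨{w' | pb w'}, mem_nhdsWithin_of_mem_nhds hpb, LowG P W χ υ q w + 1, hpa.mono fun p hp w' hw' => (hab hp hw').le⟩

/-- the local lower bound in the chart -/
private theorem Low_lower (P : Fin J → SForm X Λ u m) (W : Fin r → Vd (k + 1) →L[ℂ] ℂ) (χ : Chart (k + 2) X) {υ : Vd (k + 2) → Vd (k + 1)} {q : Vd (k + 2)}
    (hb : q ∈ ball (0 : Vd (k + 2)) 2) (hυ : AnalyticAt ℂ υ q) (hl : ∀ᶠ p in 𝓝 q, u (χ.σ p) - υ p ∈ Λ)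
    (hpos : ∀ w ∈ sphere (0 : Vd (k + 2)) 1, 0 < LowG P W χ υ q w) :
    ∃ c : ℝ, 0 < c ∧ ∀ᶠ p in 𝓝 q, ∀ w ∈ sphere (0 : Vd (k + 2)) 1, c ≤ LowG P W χ υ p w := by
  refine (isCompact_sphere (0 : Vd (k + 2)) 1).induction_on
    (p := fun S : Set (Vd (k + 2)) => ∃ c : ℝ, 0 < c ∧ ∀ᶠ p in 𝓝 q, ∀ w ∈ S, c ≤ LowG P W χ υ p w) ?_ ?_ ?_ ?_
  · exact ⟨1, one_pos, Filter.Eventually.of_forall fun p w hw => absurd hw (Set.notMem_empty w)⟩
  · rintro S T hST ⟨C, hC0, hC⟩
    exact ⟨C, hC0, hC.mono fun p hp w hw => hp w (hST hw)⟩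
  · rintro S T ⟨C, hC0, hC⟩ ⟨C', hC0', hC'⟩
    refine ⟨min C C', lt_min hC0 hC0', ?_⟩
    filter_upwards [hC, hC'] with p h1 h2 w hw
    rcases hw with hw | hw
    · exact (min_le_left _ _).trans (h1 w hw)
    · exact (min_le_right _ _).trans (h2 w hw)
  · intro w hw
    have h0 := hpos w hw
    have h1 := Low_cont P W χ hb hυ hl w
    have h2 : ∀ᶠ z in 𝓝 ((q, w) : Vd (k + 2) × Vd (k + 2)), LowG P W χ υ q w / 2 < LowG P W χ υ z.1 z.2 :=
      h1.eventually_const_lt (by show LowG P W χ υ q w / 2 < LowG P W χ υ q w; linarith)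
    rw [nhds_prod_eq] at h2
    obtain ⟨pa, hpa, pb, hpb, hab⟩ := Filter.eventually_prod_iff.mp h2
    exact ⟨{w' | pb w'}, mem_nhdsWithin_of_mem_nhds hpb, LowG P W χ υ q w / 2, by linarith, hpa.mono fun p hp w' hw' => (hab hp hw').le⟩

private theorem Low_norm {w : Vd (k + 2)} (hw : w ≠ 0) : ∃ w' ∈ sphere (0 : Vd (k + 2)) 1, w = ((‖w‖ : ℝ) : ℂ) • w' := by
  have hn : ‖w‖ ≠ 0 := norm_ne_zero_iff.mpr hw
  have hn' : ((‖w‖ : ℝ) : ℂ) ≠ 0 := by exact_mod_cast hn
  refine ⟨(((‖w‖ : ℝ) : ℂ))⁻¹ • w, ?_, ?_⟩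
  · rw [mem_sphere_zero_iff_norm, norm_smul, norm_inv, Complex.norm_real, norm_norm]
    exact inv_mul_cancel₀ hn
  · rw [smul_inv_smul₀ hn']

/-- invariance under scaling -/
private theorem Low_scale (hX : IsCone X) (hu : TMap X Λ u) (hP : PData X Λ u D P W) {x : EN N} (hx : x ∈ X) {v : EN N} (hv : Tan X x v) {c : ℂ} (hc : c ≠ 0) :
    pP P W (c • x) (c • v) = pP P W x v := by
  have hcx : c • x ∈ X := hX.smul_mem x hx c hc
  have hl : u (c • x) - u x ∈ Λ := hu.smul x hx c hc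
  have hl0 : u x - u x ∈ Λ := by rw [sub_self]; exact Λ.zero_mem
  have key : ∀ j, ‖(P j).toFun (u (c • x)) (c • x) (c • v)‖ * ‖c • x‖ * Real.exp (-wt W (u (c • x))) =
      ‖(P j).toFun (u x) x v‖ * ‖x‖ * Real.exp (-wt W (u x)) := by
    intro j
    have h1 := hP.per j (u x) (u (c • x) - u x) hl (c • x) hcx hl (c • v) (Low_tan_smul hX hv hc)
    rw [add_sub_cancel] at h1
    have h2 := (P j).scale (u x) x hx hl0 v hv c hc
    rw [mul_right_comm, h1, ← h2, norm_mul, norm_smul]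
    ring
  unfold pP
  rw [Low_iSup _ _ _ (norm_nonneg _) (Real.exp_nonneg _), Low_iSup _ _ _ (norm_nonneg _) (Real.exp_nonneg _)]
  simp_rw [key]

private theorem Low_fs_scale (hX : IsCone X) {x : EN N} (hx : x ∈ X) (v : EN N) {c : ℂ} (hc : c ≠ 0) : fs (c • x) (c • v) = fs x v := by
  have h1 := Pool.Agent.H36.BP.fs_inv (Pool.Agent.TG.ne_zero hX hx) v hc 0
  rwa [zero_smul, add_zero] at h1

private theorem Low_le_loc (hX : IsCone X) (hch : Charts (k + 2) X) (hu : TMap X Λ u) (hP : PData X Λ u D P W) {x₀ : EN N} (hx₀ : x₀ ∈ X) :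
    ∃ C : ℝ, ∀ᶠ x in 𝓝 x₀, x ∈ X → ∀ v, Tan X x v → pP P W x v ≤ C * fs x v ^ m := by
  obtain ⟨χ, hU, hq0⟩ := hch x₀ hx₀
  have hl0 : u x₀ - u x₀ ∈ Λ := by rw [sub_self]; exact Λ.zero_mem
  obtain ⟨υ, hυ, -, hl⟩ := Pool.Agent.TG.exists_lift_chart hX hu χ hx₀ hU hl0
  have hb : χ.q x₀ ∈ ball (0 : Vd (k + 2)) 2 := (χ.surj x₀ hx₀ hU).1
  obtain ⟨C, hC⟩ := Low_upper P W χ hb hυ hl
  obtain ⟨C₁, hC₁, hfs, -⟩ := χ.exists_fs_bound hX
  have hqc : Tendsto χ.q (𝓝 x₀) (𝓝 (χ.q x₀)) := (χ.q_an x₀ hU).continuousAt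
  have hq1 : ∀ᶠ x in 𝓝 x₀, ‖χ.q x‖ < 1 := hqc.norm.eventually_lt_const (by rw [hq0, norm_zero]; exact one_pos)
  refine ⟨max C 0 * C₁ ^ m, ?_⟩
  filter_upwards [hqc.eventually hC, hqc.eventually hl, hq1, χ.isOpen_U.mem_nhds hU, hqc.eventually (isOpen_ball.mem_nhds hb)] with x h1 h2 h3 h4 h5 hx v hv
  rw [Low_eq hX hu hP χ hx h4 h2 hv]
  set w := fderiv ℂ χ.q x v with hw
  have h6 : LowG P W χ υ (χ.q x) w ≤ max C 0 * ‖w‖ ^ m := by
    by_cases hw0 : w = 0
    · have h7 := Low_hom (P := P) (W := W) χ h5 h2 w 0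
      rw [zero_smul, norm_zero, zero_pow (by have := hP.m_pos; omega), zero_mul] at h7
      rw [hw0, h7]
      positivity
    · obtain ⟨w', hw', hww⟩ := Low_norm hw0
      have h7 := Low_hom (P := P) (W := W) χ h5 h2 w' ((‖w‖ : ℝ) : ℂ)
      rw [← hww, Complex.norm_real, norm_norm] at h7
      rw [h7, mul_comm]
      exact mul_le_mul_of_nonneg_right ((h1 w' hw').trans (le_max_left _ _)) (by positivity)
  refine h6.trans ?_
  rw [mul_assoc, ← mul_pow]
  refine mul_le_mul_of_nonneg_left ?_ (le_max_right _ _)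
  exact pow_le_pow_left₀ (norm_nonneg _) (hfs x hx h4 h3.le v) m

private theorem Low_ge_loc (hX : IsCone X) (hch : Charts (k + 2) X) (hu : TMap X Λ u) (hP : PData X Λ u D P W) {x₀ : EN N} (hx₀ : x₀ ∈ X) {y₀ : Vd (k + 1)}
    (hy₀ : y₀ ∉ D) (hxy : u x₀ - y₀ ∈ Λ) :
    ∃ c : ℝ, 0 < c ∧ ∀ᶠ x in 𝓝 x₀, x ∈ X → ∀ v, Tan X x v → c * fs x v ^ m ≤ pP P W x v := by
  obtain ⟨χ, hU, hq0⟩ := hch x₀ hx₀
  obtain ⟨υ, hυ, hυe, hl⟩ := Pool.Agent.TG.exists_lift_chart hX hu χ hx₀ hU hxy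
  have hb : χ.q x₀ ∈ ball (0 : Vd (k + 2)) 2 := (χ.surj x₀ hx₀ hU).1
  have hσ := χ.σ_mem _ hb
  have hlσ : u (χ.σ (χ.q x₀)) - y₀ ∈ Λ := by
    have h1 := hl.self_of_nhds
    rwa [hυe] at h1
  have hpos : ∀ w ∈ sphere (0 : Vd (k + 2)) 1, 0 < LowG P W χ υ (χ.q x₀) w := by
    intro w hw
    rw [mem_sphere_zero_iff_norm] at hw
    rcases (Low_nonneg (P := P) (W := W) χ υ (χ.q x₀) w).eq_or_lt with h0 | h0
    · exfalso
      have hσ0 : χ.σ (χ.q x₀) ≠ 0 := χ.sigma_ne_zero hX hb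
      have h1 : (⨆ j, ‖(P j).toFun (υ (χ.q x₀)) (χ.σ (χ.q x₀)) (fderiv ℂ χ.σ (χ.q x₀) w)‖) = 0 := by
        unfold LowG at h0
        have h2 := h0.symm
        rcases mul_eq_zero.1 h2 with h3 | h3
        · rcases mul_eq_zero.1 h3 with h4 | h4
          · exact h4
          · exact absurd h4 (norm_ne_zero_iff.mpr hσ0)
        · exact absurd h3 (Real.exp_ne_zero _)
      have h2 : ∀ j, (P j).toFun y₀ (χ.σ (χ.q x₀)) (fderiv ℂ χ.σ (χ.q x₀) w) = 0 := by
        intro j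
        have h3 : ‖(P j).toFun (υ (χ.q x₀)) (χ.σ (χ.q x₀)) (fderiv ℂ χ.σ (χ.q x₀) w)‖ ≤ 0 := by
          rw [← h1]
          exact le_ciSup (f := fun j => ‖(P j).toFun (υ (χ.q x₀)) (χ.σ (χ.q x₀)) (fderiv ℂ χ.σ (χ.q x₀) w)‖) (Set.finite_range _).bddAbove j
        rw [hυe] at h3
        exact norm_le_zero_iff.1 h3
      obtain ⟨c, hc⟩ := hP.zero y₀ hy₀ _ hσ.1 hlσ _ (Pool.Agent.TG.tan_sigma χ hb w) h2
      have h3 := χ.fderiv_sigma hb w
      rw [hc, map_smul, χ.fderiv_q_self hσ.2.1, smul_zero] at h3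
      rw [← h3, norm_zero] at hw
      exact zero_ne_one hw
    · exact h0
  obtain ⟨c, hc0, hc⟩ := Low_lower P W χ hb hυ hl hpos
  obtain ⟨C₁, hC₁, -, hfs⟩ := χ.exists_fs_bound hX
  have hqc : Tendsto χ.q (𝓝 x₀) (𝓝 (χ.q x₀)) := (χ.q_an x₀ hU).continuousAt
  have hq1 : ∀ᶠ x in 𝓝 x₀, ‖χ.q x‖ < 1 := hqc.norm.eventually_lt_const (by rw [hq0, norm_zero]; exact one_pos)
  have hC₁' : 0 < C₁ ^ m := by positivity
  refine ⟨c / C₁ ^ m, by positivity, ?_⟩
  filter_upwards [hqc.eventually hc, hqc.eventually hl, hq1, χ.isOpen_U.mem_nhds hU, hqc.eventually (isOpen_ball.mem_nhds hb)] with x h1 h2 h3 h4 h5 hx v hv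
  rw [Low_eq hX hu hP χ hx h4 h2 hv]
  set w := fderiv ℂ χ.q x v with hw
  have h6 : c * ‖w‖ ^ m ≤ LowG P W χ υ (χ.q x) w := by
    by_cases hw0 : w = 0
    · rw [hw0, norm_zero, zero_pow (by have := hP.m_pos; omega), mul_zero]
      exact Low_nonneg χ υ _ _
    · obtain ⟨w', hw', hww⟩ := Low_norm hw0
      have h7 := Low_hom (P := P) (W := W) χ h5 h2 w' ((‖w‖ : ℝ) : ℂ)
      rw [← hww, Complex.norm_real, norm_norm] at h7
      rw [h7, mul_comm]
      exact mul_le_mul_of_nonneg_left (h1 w' hw') (by positivity)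
  have h8 : fs x v ≤ C₁ * ‖w‖ := by
    obtain ⟨F, hF, hF0, hFd⟩ := hv
    have h9 := hfs F 0 hF (by rw [hF0]; exact h4) (by rw [hF0]; exact h3.le)
    have h10 := (χ.curve hX hF (by rw [hF0]; exact h4)).2.1
    rw [h10, hF0, hFd] at h9
    exact h9
  have h9 : fs x v ^ m ≤ C₁ ^ m * ‖w‖ ^ m := by
    rw [← mul_pow]
    exact pow_le_pow_left₀ (Pool.Agent.H36.BP.fs_nonneg _ _) h8 m
  calc c / C₁ ^ m * fs x v ^ m ≤ c / C₁ ^ m * (C₁ ^ m * ‖w‖ ^ m) := mul_le_mul_of_nonneg_left h9 (by positivity)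
    _ = c * ‖w‖ ^ m := by field_simp
    _ ≤ _ := h6

theorem pP_le_fs (hX : IsCone X) (hch : Charts (k + 2) X) (hu : TMap X Λ u) (hΛ : Lat Λ) (hP : PData X Λ u D P W) :
    ∃ C : ℝ, 0 < C ∧ ∀ x ∈ X, ∀ v, Tan X x v → pP P W x v ≤ C * fs x v ^ m := by
  have h1 : ∃ C : ℝ, ∀ x ∈ X ∩ sphere (0 : EN N) 1, ∀ v, Tan X x v → pP P W x v ≤ C * fs x v ^ m := by
    refine (Pool.Agent.TG.compact_unit hX).induction_on
      (p := fun S : Set (EN N) => ∃ C : ℝ, ∀ x ∈ S, x ∈ X → ∀ v, Tan X x v → pP P W x v ≤ C * fs x v ^ m) ?_ ?_ ?_ ?_ |>.imp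
      fun C hC x hx => hC x hx hx.1
    · exact ⟨0, fun x hx => absurd hx (Set.notMem_empty x)⟩
    · rintro S T hST ⟨C, hC⟩
      exact ⟨C, fun x hx => hC x (hST hx)⟩
    · rintro S T ⟨C, hC⟩ ⟨C', hC'⟩
      refine ⟨max C C', fun x hx hxX v hv => ?_⟩
      have h0 : 0 ≤ fs x v ^ m := pow_nonneg (Pool.Agent.H36.BP.fs_nonneg _ _) _
      rcases hx with hx | hx
      · exact (hC x hx hxX v hv).trans (mul_le_mul_of_nonneg_right (le_max_left _ _) h0)
      · exact (hC' x hx hxX v hv).trans (mul_le_mul_of_nonneg_right (le_max_right _ _) h0)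
    · intro x hx
      obtain ⟨C, hC⟩ := Low_le_loc hX hch hu hP hx.1
      exact ⟨_, mem_nhdsWithin_of_mem_nhds hC, C, fun y hy => hy⟩
  obtain ⟨C, hC⟩ := h1
  refine ⟨max C 1, lt_max_of_lt_right one_pos, fun x hx v hv => ?_⟩
  obtain ⟨c, hc, hcx⟩ := Pool.Agent.TG.exists_unit hX hx
  have h2 := hC (c • x) hcx (c • v) (Low_tan_smul hX hv hc)
  rw [Low_scale hX hu hP hx hv hc, Low_fs_scale hX hx v hc] at h2
  exact h2.trans (mul_le_mul_of_nonneg_right (le_max_left _ _) (pow_nonneg (Pool.Agent.H36.BP.fs_nonneg _ _) _))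

theorem pP_ge_fs (hX : IsCone X) (hch : Charts (k + 2) X) (hu : TMap X Λ u) (hΛ : Lat Λ) (hDc : IsClosed D) (hP : PData X Λ u D P W) {δ : ℝ} (hδ : 0 < δ) :
    ∃ c : ℝ, 0 < c ∧ ∀ y ∈ Gd D δ, ∀ x ∈ X, u x - y ∈ Λ → ∀ v, Tan X x v → c * fs x v ^ m ≤ pP P W x v := by
  set S₀ : Set (EN N) := {x | x ∈ X ∩ sphere (0 : EN N) 1 ∧ ∃ y ∈ Gd D δ, u x - y ∈ Λ} with hS₀
  have hsub : closure S₀ ⊆ X ∩ sphere (0 : EN N) 1 := by
    refine closure_minimal (fun x hx => hx.1) (Pool.Agent.TG.compact_unit hX).isClosed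
  have hK : IsCompact (closure S₀) := (Pool.Agent.TG.compact_unit hX).of_isClosed_subset isClosed_closure hsub
  have hy : ∀ x₀ ∈ closure S₀, ∃ y₀ ∉ D, u x₀ - y₀ ∈ Λ := by
    intro x₀ hx₀
    have hxX := (hsub hx₀).1
    obtain ⟨v, hv, hvl⟩ := hu.loc x₀ hxX
    have h1 : ∀ᶠ x in 𝓝 x₀, ‖v x - v x₀‖ < δ := by
      have h2 : ContinuousAt (fun x => v x - v x₀) x₀ := hv.continuousAt.sub continuousAt_const
      refine h2.norm.eventually_lt_const ?_
      simpa using hδ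
    obtain ⟨x, ⟨hx1, hx2⟩, hx3⟩ := mem_closure_iff_nhds.1 hx₀ _ (h1.and hvl)
    obtain ⟨y, hy, hxy⟩ := hx3.2
    refine ⟨y + (v x₀ - v x), ?_, ?_⟩
    · intro hD
      have h3 := hy _ hD
      have h4 : y - (y + (v x₀ - v x)) = v x - v x₀ := by abel
      rw [h4] at h3
      linarith
    · have h3 := Λ.add_mem (Λ.sub_mem (hvl.self_of_nhds hxX) (hx2 hx3.1.1)) hxy
      have e : u x₀ - v x₀ - (u x - v x) + (u x - y) = u x₀ - (y + (v x₀ - v x)) := by abel
      rwa [e] at h3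
  have h1 : ∃ c : ℝ, 0 < c ∧ ∀ x ∈ closure S₀, x ∈ X → ∀ v, Tan X x v → c * fs x v ^ m ≤ pP P W x v := by
    refine hK.induction_on
      (p := fun S : Set (EN N) => ∃ c : ℝ, 0 < c ∧ ∀ x ∈ S, x ∈ X → ∀ v, Tan X x v → c * fs x v ^ m ≤ pP P W x v) ?_ ?_ ?_ ?_
    · exact ⟨1, one_pos, fun x hx => absurd hx (Set.notMem_empty x)⟩
    · rintro S T hST ⟨C, hC0, hC⟩
      exact ⟨C, hC0, fun x hx => hC x (hST hx)⟩
    · rintro S T ⟨C, hC0, hC⟩ ⟨C', hC0', hC'⟩
      refine ⟨min C C', lt_min hC0 hC0', fun x hx hxX v hv => ?_⟩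
      have h0 : 0 ≤ fs x v ^ m := pow_nonneg (Pool.Agent.H36.BP.fs_nonneg _ _) _
      rcases hx with hx | hx
      · exact (mul_le_mul_of_nonneg_right (min_le_left _ _) h0).trans (hC x hx hxX v hv)
      · exact (mul_le_mul_of_nonneg_right (min_le_right _ _) h0).trans (hC' x hx hxX v hv)
    · intro x hx
      obtain ⟨y₀, hy₀, hxy⟩ := hy x hx
      obtain ⟨c, hc0, hc⟩ := Low_ge_loc hX hch hu hP (hsub hx).1 hy₀ hxy
      exact ⟨_, mem_nhdsWithin_of_mem_nhds hc, c, hc0, fun y hy => hy⟩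
  obtain ⟨c, hc0, hc⟩ := h1
  refine ⟨c, hc0, fun y hyG x hx hxy v hv => ?_⟩
  obtain ⟨a, ha, hax⟩ := Pool.Agent.TG.exists_unit hX hx
  have h2 : a • x ∈ closure S₀ := subset_closure ⟨hax, y, hyG, Pool.Agent.TG.smul_mem_lat hu hx hxy ha⟩
  have h3 := hc (a • x) h2 hax.1 (a • v) (Low_tan_smul hX hv ha)
  rwa [Low_scale hX hu hP hx hv ha, Low_fs_scale hX hx v ha] at h3

end Pool.Agent.G3

end
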