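import Pool.Agent.H94.G4T.H62.EF.PrA
import Pool.Agent.H94.G4T.M17
import Pool.Agent.H94.G4T.M18
import Pool.Agent.H94.G4T.TG.Defs

/-! The parts of this file: G3.A.Wdg, H62.EL.Hf, G3.R.PrmU, TG.Jan. -/

section

/-!
# G3 A Wdg: the distance of two points of the projective space and the `2 × 2` minors

`wg x y = x ∧ y` (the vector of all minors).  For unit vectors `‖pr x - pr y‖² = 2 (1 - |⟨x, y⟩|²) = ∑ |minors|²` up to a constant.
-/

set_option autoImplicit false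

open Topology Filter Metric

namespace Pool.Agent.G3.A

open Pool.Agent.H36.BP (EN wd)
open Pool.Agent.H14.PP (IsCone CurveAt Tan)
open Pool.Agent.H62.EF (MN pr)
open Pool.Agent.AD (Vd Chart Charts)

variable {N k : ℕ} {X : Set (EN N)} {Λ : AddSubgroup (Vd (k + 1))} {u : EN N → Vd (k + 1)} {D B Bad : Set (Vd (k + 1))} {a : Vd (k + 1)}

/-- the minors -/
noncomputable def wg (x y : EN N) : EuclideanSpace ℂ (Fin (N + 1) × Fin (N + 1)) := WithLp.toLp 2 fun p => x p.1 * y p.2 - x p.2 * y p.1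

private theorem wg_norm_sq (x y : EN N) : ‖wg x y‖ ^ 2 = 2 * wd x y ^ 2 := by
  rw [Pool.Agent.H62.EF.wd_sq]
  have hs : ∀ c : ℂ, ((‖c‖ ^ 2 : ℝ) : ℂ) = c * (starRingEnd ℂ) c := by
    intro c
    rw [Complex.mul_conj']
    push_cast
    rfl
  have hn : ∀ v : EN N, ((‖v‖ ^ 2 : ℝ) : ℂ) = ∑ i, v i * (starRingEnd ℂ) (v i) := by
    intro v
    rw [EuclideanSpace.norm_sq_eq, Complex.ofReal_sum]
    exact Finset.sum_congr rfl fun i _ => hs _
  have hi : (inner ℂ x y : ℂ) = ∑ i, (starRingEnd ℂ) (x i) * y i := by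
    rw [PiLp.inner_apply]
    refine Finset.sum_congr rfl fun i _ => ?_
    rw [RCLike.inner_apply]
    ring
  have hS : ((‖x‖ ^ 2 * ‖y‖ ^ 2 - ‖(inner ℂ x y : ℂ)‖ ^ 2 : ℝ) : ℂ) = ∑ i : Fin (N + 1), ∑ j : Fin (N + 1),
      (x i * (starRingEnd ℂ) (x i) * (y j * (starRingEnd ℂ) (y j)) - (starRingEnd ℂ) (x i) * y i * (x j * (starRingEnd ℂ) (y j))) := by
    rw [Complex.ofReal_sub, Complex.ofReal_mul, hn x, hn y, hs, hi, map_sum, Finset.sum_mul_sum, Finset.sum_mul_sum,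
      ← Finset.sum_sub_distrib]
    refine Finset.sum_congr rfl fun i _ => ?_
    rw [← Finset.sum_sub_distrib]
    refine Finset.sum_congr rfl fun j _ => ?_
    rw [map_mul, Complex.conj_conj]
  have hS' : ((‖x‖ ^ 2 * ‖y‖ ^ 2 - ‖(inner ℂ x y : ℂ)‖ ^ 2 : ℝ) : ℂ) = ∑ i : Fin (N + 1), ∑ j : Fin (N + 1),
      (x j * (starRingEnd ℂ) (x j) * (y i * (starRingEnd ℂ) (y i)) - (starRingEnd ℂ) (x j) * y j * (x i * (starRingEnd ℂ) (y i))) := by
    rw [hS, Finset.sum_comm]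
  have h1 : ((‖wg x y‖ ^ 2 : ℝ) : ℂ) = ((2 * (‖x‖ ^ 2 * ‖y‖ ^ 2 - ‖(inner ℂ x y : ℂ)‖ ^ 2) : ℝ) : ℂ) := by
    rw [two_mul, Complex.ofReal_add]
    nth_rewrite 1 [hS]
    rw [hS', EuclideanSpace.norm_sq_eq, Complex.ofReal_sum, Fintype.sum_prod_type, ← Finset.sum_add_distrib]
    refine Finset.sum_congr rfl fun i _ => ?_
    rw [← Finset.sum_add_distrib]
    refine Finset.sum_congr rfl fun j _ => ?_
    rw [hs]
    simp only [wg, map_sub, map_mul]
    ring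
  exact_mod_cast h1

private theorem wg_norm {x y : EN N} (hx : x ≠ 0) (hy : y ≠ 0) : dist (pr x) (pr y) * ‖x‖ * ‖y‖ = ‖wg x y‖ := by
  have h0 : ‖x‖ ≠ 0 := norm_ne_zero_iff.mpr hx
  have h0' : ‖y‖ ≠ 0 := norm_ne_zero_iff.mpr hy
  have h1 : (0 : ℝ) ≤ wd x y := Real.sqrt_nonneg _
  have h2 : dist (pr x) (pr y) * ‖x‖ * ‖y‖ = Real.sqrt 2 * wd x y := by
    rw [Pool.Agent.H62.EF.dist_pr hx hy]
    field_simp
  rw [h2]
  refine (pow_left_inj₀ (by positivity) (norm_nonneg _) two_ne_zero).mp ?_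
  rw [wg_norm_sq, mul_pow, Real.sq_sqrt (by norm_num)]

theorem wg_dist (N : ℕ) : ∃ C : ℝ, 0 < C ∧ ∀ x y : EN N, x ≠ 0 → y ≠ 0 → ‖wg x y‖ ≤ C * dist (pr x) (pr y) * ‖x‖ * ‖y‖ ∧ dist (pr x) (pr y) * ‖x‖ * ‖y‖ ≤ C * ‖wg x y‖ := by
  refine ⟨1, one_pos, fun x y hx hy => ?_⟩
  rw [one_mul, one_mul, wg_norm hx hy]
  exact ⟨le_rfl, le_rfl⟩

theorem wg_diff {U : Set ℂ} {F G : ℂ → EN N} (hF : DifferentiableOn ℂ F U) (hG : DifferentiableOn ℂ G U) : DifferentiableOn ℂ (fun z => wg (F z) (G z)) U := by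
  have h1 : ∀ i, DifferentiableOn ℂ (fun z => F z i) U := fun i => by
    have := (EuclideanSpace.proj (𝕜 := ℂ) i).differentiable.comp_differentiableOn hF
    exact this
  have h2 : ∀ i, DifferentiableOn ℂ (fun z => G z i) U := fun i => by
    have := (EuclideanSpace.proj (𝕜 := ℂ) i).differentiable.comp_differentiableOn hG
    exact this
  rw [differentiableOn_euclidean]
  intro p
  exact ((h1 p.1).mul (h2 p.2)).sub ((h1 p.2).mul (h2 p.1))

end Pool.Agent.G3.A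

end

section

/-!
# EL Hf: the function `H` of a section

`Sol H z` := for all `k` with `F z ∈ T.W k`: `HasDerivAt (fun w => H w + lam k (F w)) (bt (T.χ k) (A k) F z) z`.  Apply `glue`.
`hloc`: let `z ∈ ball b s`, `k` with `F z ∈ T.W k` (`TubeG.cover`), `r > 0` with `ball z r ⊆ ball b s` and `F w ∈ T.W k` for `w ∈ ball z r`.  The function
`w ↦ bt (T.χ k) (A k) F w` is analytic on `ball z r` (`T.W k ⊆ U`, `q` and `A k` are analytic, `F` is entire, `q (F w) ∈ ball 0 2` by `Chart.surj`), so it has a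
primitive `P` there (`DifferentiableOn.isExactOn_ball`); `H w = P w - lam k (F w)`.  For `w ∈ ball z r` and `l` with `F w ∈ T.W l`:
`H + lam l ∘ F = P - (lam k ∘ F - lam l ∘ F)` has the derivative `bt k - (bt k - bt l) = bt l` (`Split`, with `CurveAt X F w`, `u (F w) - w ∈ Λ`).
`hdiff`: choose `k` with `F z ∈ T.W k`: `H - H' = (H + lam k ∘ F) - (H' + lam k ∘ F)` has the derivative `bt k - bt k = 0`.  `hcongr`: clear.
-/

set_option autoImplicit false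

open Topology Filter Metric

namespace Pool.Agent.H62.EL

open Pool.Agent.H36.BP (EN wd IsGermChart)
open Pool.Agent.H14.PP (IsCone Chart Tan CurveAt)
open Pool.Agent.H62.EF (Lat MN pr TorusMap Sec Charts)

variable {N : ℕ} {X : Set (EN N)} {Λ : AddSubgroup ℂ} {u : EN N → ℂ}

theorem exists_H {b : ℂ} {s η : ℝ} {T : TubeData X} (hT : TubeG Λ u b s η T) {A : Fin T.m → ℂ × ℂ → ℂ}
    (hA : ∀ k, ∀ p ∈ ball (0 : ℂ × ℂ) 2, AnalyticAt ℂ (A k) p) {lam : Fin T.m → EN N → ℂ} (hs : Split Λ u b s T A lam)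
    {F : ℂ → EN N} (hF : F ∈ Sec X Λ u) {s' : ℝ} (hs' : s' < s) : ∃ H : ℂ → ℂ, ∀ z ∈ ball b s', ∀ k, F z ∈ T.W k →
      HasDerivAt (fun w => H w + lam k (F w)) (bt (T.χ k) (A k) F z) z := by
  obtain ⟨hFd, hFX, hFu⟩ := hF
  have hcv : ∀ z, CurveAt X F z := fun z => ⟨hFd.analyticAt z, Eventually.of_forall hFX⟩
  have hbt : ∀ k z, F z ∈ T.W k → AnalyticAt ℂ (fun w => bt (T.χ k) (A k) F w) z := by
    intro k z hz
    have hU : F z ∈ (T.χ k).U := hT.W_sub k hz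
    have hq : AnalyticAt ℂ (fun ξ => (T.χ k).q (F ξ)) z :=
      AnalyticAt.comp (g := (T.χ k).q) (f := F) ((T.χ k).q_an _ hU) (hFd.analyticAt z)
    have hA' : AnalyticAt ℂ (fun ξ => A k ((T.χ k).q (F ξ))) z :=
      AnalyticAt.comp (g := A k) (f := fun ξ => (T.χ k).q (F ξ)) (hA k _ ((T.χ k).surj _ (hFX z) hU).1) hq
    have hd : AnalyticAt ℂ (fun ζ => (deriv (fun ξ => (T.χ k).q (F ξ)) ζ).1) z :=
      AnalyticAt.comp (g := Prod.fst) (f := deriv (fun ξ => (T.χ k).q (F ξ))) analyticAt_fst hq.deriv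
    unfold bt
    exact (hA'.mul hd).neg
  apply glue hs' (fun H z => ∀ k, F z ∈ T.W k →
    HasDerivAt (fun w => H w + lam k (F w)) (bt (T.χ k) (A k) F z) z)
  · intro z hz
    obtain ⟨k, hk⟩ := hT.cover z hz (F z) (hFX z) (hFu z)
    have ho : IsOpen (ball b s ∩ F ⁻¹' T.W k) :=
      isOpen_ball.inter ((hT.W_open k).preimage hFd.continuous)
    obtain ⟨r, hr, hsub⟩ := Metric.isOpen_iff.1 ho z ⟨hz, hk⟩
    have hex : DifferentiableOn ℂ (fun w => bt (T.χ k) (A k) F w) (ball z r) := fun w hw =>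
      (hbt k w (hsub hw).2).differentiableAt.differentiableWithinAt
    obtain ⟨P, hP⟩ := hex.isExactOn_ball
    refine ⟨r, fun w => P w - lam k (F w), hr, ?_⟩
    intro w hw l hl
    have h1 := hP w hw
    have h2 := hs.2 k l F w (hcv w) ⟨w, (hsub hw).1, hFu w⟩ (hsub hw).2 hl
    have h3 := h1.sub h2
    have e1 : bt (T.χ k) (A k) F w - (bt (T.χ k) (A k) F w - bt (T.χ l) (A l) F w) = bt (T.χ l) (A l) F w := by
      ring
    rw [e1] at h3
    refine h3.congr_of_eventuallyEq (Eventually.of_forall fun ξ => ?_)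
    simp only [Pi.sub_apply]
    ring
  · intro H H' z hz h h'
    obtain ⟨k, hk⟩ := hT.cover z hz (F z) (hFX z) (hFu z)
    have h1 := (h k hk).sub (h' k hk)
    rw [sub_self] at h1
    refine h1.congr_of_eventuallyEq (Eventually.of_forall fun ξ => ?_)
    simp only [Pi.sub_apply]
    ring
  · intro H H' z c h hc k hk
    have h1 := (h k hk).add_const c
    refine h1.congr_of_eventuallyEq ?_
    filter_upwards [hc] with ξ hξ
    rw [hξ]
    ring

end Pool.Agent.H62.EL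

end

section

/-!
# G3 R PrmU: local primitives with uniform constants

As `PrmA`, with a uniform radius and `‖Ψ x‖ ≤ C exp (-c |y₀|²)`, for `y₀ ∈ Gd D δ`.  `UC`: a straight chart with constants `R`, `K` for the point `v` over `y₀`; `uc_base`: the straight chart at `(w, v₀)` works for all near points;
`uc_unif`: uniform constants by compactness (bounded `y₀`, ultrafilter) and translation.  Bound: `‖A p‖ ≤ sup ‖tc α χ (ms c ρ)‖` (mean value inequality from `IsPrim.der`, `IsPrim.zero`) and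
`‖tc α χ (ms c ρ) p‖ ≤ C₀ K ^ (k + 2) exp (-c₀ ‖ms c ρ p‖²)` by `Dec` and `VForm.det`, `‖ms c ρ p‖ ≥ ‖y₀‖ - K`.
-/

set_option autoImplicit false

open Topology Filter Metric

namespace Pool.Agent.G3.R

open Pool.Agent.H36.BP (EN wd)
open Pool.Agent.H14.PP (IsCone CurveAt Tan)
open Pool.Agent.H62.EF (MN pr)
open Pool.Agent.AD (Vd Chart Charts)
open Pool.Agent.TG

variable {N k : ℕ} {X : Set (EN N)} {Λ : AddSubgroup (Vd (k + 1))} {u : EN N → Vd (k + 1)} {D B Bad : Set (Vd (k + 1))} {a : Vd (k + 1)}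

/-- a straight chart with uniform constants for the point `v` over `y₀` -/
structure UC (Λ : AddSubgroup (Vd (k + 1))) (u : EN N → Vd (k + 1)) (χ : Chart (k + 2) X) (c : Vd (k + 1)) (ρ : ℝ) (y₀ : Vd (k + 1)) (v : EN N)
    (R K : ℝ) : Prop where
  str : Str Λ u χ c ρ
  mem : ∀ x ∈ ball v R, x ∈ χ.U ∧ χ.q x ∈ closedBall (0 : Vd (k + 2)) 1
  cap : ∀ y ∈ ball y₀ R, ∀ x ∈ X, x ∈ ball v R → u x - y ∈ Λ → ms c ρ (χ.q x) = y
  path : ∀ y ∈ ball y₀ R, ∀ x ∈ X, x ∈ ball v R → ∃ ε : ℝ, 0 < ε ∧ Cap Λ u χ c ρ y (pr x) (3 * ε) ∧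
    ∀ x' ∈ X, x' ∈ ball v R → ∀ θ ∈ Set.Icc (0 : ℝ) 1, dist (pr (χ.σ (χ.q x + (θ : ℂ) • (χ.q x' - χ.q x)))) (pr x) ≤ ε
  bd : ∀ p ∈ closedBall (0 : Vd (k + 2)) 1, ∀ i, ‖fderiv ℂ χ.σ p (Pi.single i 1)‖ ≤ K * ‖χ.σ p‖
  rho : 1 ≤ K * ρ
  near : ∀ p ∈ closedBall (0 : Vd (k + 2)) 1, ‖ms c ρ p - y₀‖ ≤ K

theorem UC.mono {χ : Chart (k + 2) X} {c : Vd (k + 1)} {ρ : ℝ} {y₀ : Vd (k + 1)} {v : EN N} {R K R' K' : ℝ} (h : UC Λ u χ c ρ y₀ v R K)
    (hR : R' ≤ R) (hK : K ≤ K') : UC Λ u χ c ρ y₀ v R' K' where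
  str := h.str
  mem := fun x hx => h.mem x (ball_subset_ball hR hx)
  cap := fun y hy x hX hx => h.cap y (ball_subset_ball hR hy) x hX (ball_subset_ball hR hx)
  path := fun y hy x hX hx => by
    obtain ⟨ε, h1, h2, h3⟩ := h.path y (ball_subset_ball hR hy) x hX (ball_subset_ball hR hx)
    exact ⟨ε, h1, h2, fun x' hX' hx' => h3 x' hX' (ball_subset_ball hR hx')⟩
  bd := fun p hp i => (h.bd p hp i).trans (mul_le_mul_of_nonneg_right hK (norm_nonneg _))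
  rho := h.rho.trans (mul_le_mul_of_nonneg_right hK h.str.pos.le)
  near := fun p hp => (h.near p hp).trans hK

theorem prmu_pr_q {χ : Chart (k + 2) X} {x : EN N} (hx : x ∈ X) (hU : x ∈ χ.U) : pr (χ.σ (χ.q x)) = pr x := by
  obtain ⟨hb, c, hc, e⟩ := χ.surj x hx hU
  conv_rhs => rw [e]
  exact (Pool.Agent.H62.EF.pr_smul _ hc).symm

end Pool.Agent.G3.R

end

section

/-!
# TG Jan: properties of the integral

Compare `Pool/Agent/H62/EL/Jan.lean` (there for members of `Sb`, here for local lifts and for points of the fibres).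

`II_analytic`: for `y` near `y₀`: `y ∈ closedBall y₀ r`, `dist (pr (φ y)) (pr (φ y₀)) + ε ≤ r` (continuity), so `II_eq` (`A` from `exists_prim`): `II = (A (χ.q (ψ y)) - A (χ.q (φ y))) / ρ ^ (k + 1)`;
`φ y₀, ψ y₀ ∈ χ.U` and `χ.q _ ∈ closedBall 0 1` (`Cap`; `dist (pr (ψ y₀)) (pr (φ y₀)) ≤ ε` by `IRel.mem`).

`II_bdd`: suppose not: `y_n ∈ Gd D δ`, `m_n`, `m'_n` with `‖II α ε y_n m_n m'_n‖ > n`; then `II ≠ 0`, so there is `v` with `IRel`, `m_n, m'_n ∈ Fb .. y_n` (`IRel.mem`).  Translate by `Γ` (`II_per`, `Geo.gd_add`, `fb_add`, `Lat.cpt`):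
`y_n` bounded; along an ultrafilter `y_n → y ∈ Gd D δ`, `m_n → m ∈ Fb .. y` (`fb_lim`).  `Cap χ c ρ y m r` with `r > ε`; for large `n` `y_n ∈ closedBall y r`, `dist m_n m + ε ≤ r`: `II_eq`: `‖II‖ ≤ 2 M / ρ ^ (k + 1)`, `M` the maximum of `‖A‖` on
`closedBall 0 1`: contradiction.

`II_lim`: `II_eq` for `(y n, m n, m' n)` and for the limit; lifts of `m n`, `m' n` converge to lifts of `m₀`, `m₀'` in the sense of `fb_lim`, so `χ.q _` converges; `A` is continuous.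
-/

set_option autoImplicit false

open Topology Filter Metric

namespace Pool.Agent.TG

open Pool.Agent.H36.BP (EN wd)
open Pool.Agent.H14.PP (IsCone CurveAt Tan)
open Pool.Agent.H62.EF (MN pr)
open Pool.Agent.AD (Vd Chart Charts)

variable {N k : ℕ}

variable {X : Set (EN N)} {Λ : AddSubgroup (Vd (k + 1))} {u : EN N → Vd (k + 1)} {D B : Set (Vd (k + 1))}

theorem tendsto_q (χ : Chart (k + 2) X) {x : EN N} (hx : x ∈ χ.U) (hx0 : x ≠ 0) {ι : Type*} {l : Filter ι} {y : ι → EN N}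
    (hy : ∀ᶠ n in l, y n ≠ 0) (h : Tendsto (fun n => pr (y n)) l (𝓝 (pr x))) :
    Tendsto (fun n => χ.q (y n)) l (𝓝 (χ.q x)) := by
  intro V hV
  have hU : χ.U ∩ χ.q ⁻¹' V ∈ 𝓝 x := inter_mem (χ.isOpen_U.mem_nhds hx) ((χ.q_an x hx).continuousAt hV)
  obtain ⟨δ, hδ, hn⟩ := Pool.Agent.H62.EF.near_of_pr hx0 hU
  have h1 : ∀ᶠ n in l, dist (pr (y n)) (pr x) < δ := h.eventually (ball_mem_nhds _ hδ)
  rw [mem_map]
  filter_upwards [hy, h1] with n h2 h3
  obtain ⟨c, hc, h4, h5⟩ := hn (y n) h2 h3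
  have h6 : y n ∈ χ.U := by
    have := χ.smul_U _ h4 c⁻¹ (inv_ne_zero hc)
    rwa [smul_smul, inv_mul_cancel₀ hc, one_smul] at this
  have h7 : χ.q (c • y n) ∈ V := h5
  rw [χ.q_smul _ h6 c hc] at h7
  exact h7

end Pool.Agent.TG

end
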