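import Pool.Agent.H94.G4T.M07
import Pool.Agent.H94.G4T.M14
import Pool.Agent.H94.G4T.M16
import Pool.Agent.H94.G4T.M19
import Pool.Agent.H94.G4T.M20

/-! The parts of this file: G4.A.Defs, G4.A.Idn, TG.Lf, TG.JJ_2, G3.R.PrmU_3. -/

section

/-!
# G4 A Defs: curves over the lines of one direction, any dimension

As `G3/A/Defs`; unchanged and used from there: `Ba`, `Hc`, `Dec`, `Sepa`, `Tht`, `Frm`, `NL`, `Lm`, `CRL`, `Tb`, `ToE`, `CE`, `Sht` (and `Shs`, `Prm`, `DDb` of `G3/R/SDefs`).  New: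

* `LG`: the geometry of the lines of direction `a`: no finiteness of the bad points modulo `Λ`; instead `few`: `o (R²)` exact bad hits in the discs of radius `R` of the lines, uniformly (with `R = 2`: a uniform bound in the small discs).
* `Co`: the core is `Gd D (2 δ)`; `LC`: the constants `ρ`, `δ`, circles at every scale; no separation of the bad points, no strips.
* `DecW`: the bound of a form with the weight `wt W`; `DA`: with the data `Γ`, `W` of the theta factors (`Frm`).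
-/

set_option autoImplicit false

open Topology Filter Metric

namespace Pool.Agent.G4.A

open Pool.Agent.H36.BP (EN fs wd)
open Pool.Agent.H14.PP (IsCone CurveAt Tan)
open Pool.Agent.H62.EF (MN pr)
open Pool.Agent.AD (Vd Chart Charts IsGerm)
open Pool.Agent.TG
open Pool.Agent.G3 (wt)
open Pool.Agent.G3.A (Ba Hc Dec Sepa Tht Frm NL Lm CRL Tb ToE CE Sht)

variable {N k : ℕ}

/-- the bound of the form `α` with the weight `wt W` -/
def DecW {X : Set (EN N)} {Λ : AddSubgroup (Vd (k + 1))} {u : EN N → Vd (k + 1)} {r : ℕ} (W : Fin r → Vd (k + 1) →L[ℂ] ℂ) (α : VForm X Λ u) (C₀ : ℝ) : Prop :=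
  ∀ y, ∀ x ∈ X, u x - y ∈ Λ → ∀ v : Fin (k + 2) → EN N, (∀ i, Tan X x (v i)) → (∀ i, ‖v i‖ ≤ ‖x‖) → ‖α.toFun y x v‖ ≤ C₀ * Real.exp (-wt W y)

/-- the geometry of the lines of direction `a` -/
structure LG (Λ : AddSubgroup (Vd (k + 1))) (D Bad : Set (Vd (k + 1))) (a : Vd (k + 1)) : Prop where
  norm : ‖a‖ = 1
  lat : Lat Λ
  D_closed : IsClosed D
  D_inv : ∀ y ∈ D, ∀ l ∈ Λ, y + l ∈ D
  bad_sub : Bad ⊆ D
  bad_inv : ∀ β ∈ Bad, ∀ l ∈ Λ, β + l ∈ Bad
  iso : ∀ y : Vd (k + 1), ∀ᶠ z in 𝓝[≠] (0 : ℂ), y + z • a ∉ D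
  /-- few exact bad hits in large discs -/
  few : ∀ ε : ℝ, 0 < ε → ∃ C : ℝ, ∀ (y : Vd (k + 1)) (R : ℝ), 0 ≤ R → ∀ S : Finset ℂ, (∀ z ∈ S, ‖z‖ ≤ R ∧ y + z • a ∈ Bad) → (S.card : ℝ) ≤ ε * R ^ 2 + C

/-- the core: points of distance at least `2 δ` from `D` -/
def Co (D _Bad : Set (Vd (k + 1))) (δ _ρ : ℝ) : Set (Vd (k + 1)) := Gd D (2 * δ)

/-- the constants of the geometry of the lines of direction `a` -/
structure LC (D Bad : Set (Vd (k + 1))) (a : Vd (k + 1)) (ρ δ : ℝ) : Prop where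
  norm : ‖a‖ = 1
  D_closed : IsClosed D
  bad_sub : Bad ⊆ D
  ρ_pos : 0 < ρ
  ρ_le : ρ ≤ 1 / 8
  δ_pos : 0 < δ
  δ_le : 8 * δ ≤ ρ
  iso : ∀ y : Vd (k + 1), ∀ᶠ z in 𝓝[≠] (0 : ℂ), y + z • a ∉ D
  /-- small circles -/
  circ : ∀ η : ℝ, 0 < η → ∃ δ' : ℝ, 0 < δ' ∧ ∀ y : Vd (k + 1), ∃ r : ℝ, 0 < r ∧ r < η ∧ ∀ z : ℂ, ‖z‖ = r → y + z • a ∈ Gd D δ'
  /-- circles in the core -/
  circC : ∀ y : Vd (k + 1), ∃ r : ℝ, 0 < r ∧ r ≤ 2 * ρ ∧ ∀ z : ℂ, ‖z‖ = r → y + z • a ∈ Gd D (4 * δ)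
  few : ∀ ε : ℝ, 0 < ε → ∃ C : ℝ, ∀ (y : Vd (k + 1)) (R : ℝ), 0 ≤ R → ∀ S : Finset ℂ, (∀ z ∈ S, ‖z‖ ≤ R ∧ y + z • a ∈ Bad) → (S.card : ℝ) ≤ ε * R ^ 2 + C

/-- the data of block (A) for the direction `a` -/
structure DA (X : Set (EN N)) (Λ : AddSubgroup (Vd (k + 1))) (u : EN N → Vd (k + 1)) (D B Bad : Set (Vd (k + 1))) (a : Vd (k + 1)) (Γ : AddSubgroup (Vd (k + 1))) {J r : ℕ}
    (W : Fin r → Vd (k + 1) →L[ℂ] ℂ) (α : Fin J → VForm X Λ u) (c₀ C₀ ρ δ : ℝ) : Prop where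
  geo : Geo X Λ u D B
  lg : LG Λ D Bad a
  lc : LC D Bad a ρ δ
  nl : NL X Λ u D a
  c_pos : 0 < c₀
  C_pos : 0 < C₀
  wtc : ∀ y : Vd (k + 1), c₀ * ‖y‖ ^ 2 ≤ wt W y
  dec : ∀ j, DecW W (α j) C₀
  frm : Frm X Λ u D Γ W α
  cr : ∀ p ∈ D, p ∉ Bad → CRL X Λ u D a p
  good : ∀ p ∈ D, p ∉ Bad → p ∉ B ∧ TransAt D p a

end Pool.Agent.G4.A

end

section

/-!
# G4 A Idn: elementary facts on the curves over lines

`hc_eq`: `F z ∧ G z = 0` (all `2 × 2` minors) near `z₀`, so everywhere (identity theorem for entire functions), `pr (F z) = pr (G z)` (`F z, G z ≠ 0`: `X` is a cone without `0`).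
`Lm.unif`: otherwise there are `ε > 0` and for `𝒰`-most `n` a point `w n ∈ K` with `dist > ε`; `w n → z ∈ K` along `𝒰`, contradiction to `Lm` at `z` and continuity of `g`.
-/

set_option autoImplicit false

open Topology Filter Metric

namespace Pool.Agent.G4.A

open Pool.Agent.H36.BP (EN fs wd)
open Pool.Agent.H14.PP (IsCone CurveAt Tan)
open Pool.Agent.H62.EF (MN pr)
open Pool.Agent.AD (Vd Chart Charts IsGerm)
open Pool.Agent.TG
open Pool.Agent.G3
open Pool.Agent.G3.A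
open Pool.Agent.G3.C (Gc)

variable {N k : ℕ} {X : Set (EN N)} {Λ : AddSubgroup (Vd (k + 1))} {u : EN N → Vd (k + 1)} {D B Bad : Set (Vd (k + 1))} {a : Vd (k + 1)}

theorem hc_mem {f : ℂ → MN N} {y : Vd (k + 1)} (hf : f ∈ Hc X Λ u a y) (z : ℂ) : f z ∈ Fb X Λ u (y + z • a) := by
  obtain ⟨F, ⟨-, hFX, hFu⟩, rfl⟩ := hf
  exact ⟨F z, hFX z, rfl, hFu z⟩

theorem hc_cont (hX : IsCone X) {f : ℂ → MN N} {y : Vd (k + 1)} (hf : f ∈ Hc X Λ u a y) : Continuous f := by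
  obtain ⟨F, ⟨hFd, hFX, -⟩, rfl⟩ := hf
  rw [continuous_iff_continuousAt]
  intro z
  exact ContinuousAt.comp (g := pr) (f := F) (Pool.Agent.H62.EF.continuousAt_pr (ne_zero hX (hFX z))) hFd.continuous.continuousAt

theorem hc_add {f : ℂ → MN N} {y : Vd (k + 1)} (hf : f ∈ Hc X Λ u a y) (z₁ : ℂ) : (fun z => f (z₁ + z)) ∈ Hc X Λ u a (y + z₁ • a) := by
  obtain ⟨F, ⟨hFd, hFX, hFu⟩, rfl⟩ := hf
  refine ⟨fun z => F (z₁ + z), ⟨hFd.comp (differentiable_id.const_add z₁), fun z => hFX _, fun z => ?_⟩, rfl⟩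
  have h := hFu (z₁ + z)
  rw [add_smul, ← add_assoc] at h
  exact h

theorem hc_per {y l : Vd (k + 1)} (hl : l ∈ Λ) : Hc X Λ u a (y + l) = Hc X Λ u a y := by
  ext f
  constructor
  · rintro ⟨F, ⟨hFd, hFX, hFu⟩, rfl⟩
    refine ⟨F, ⟨hFd, hFX, fun z => ?_⟩, rfl⟩
    have h := Λ.add_mem (hFu z) hl
    have e : u (F z) - (y + l + z • a) + l = u (F z) - (y + z • a) := by abel
    rwa [e] at h
  · rintro ⟨F, ⟨hFd, hFX, hFu⟩, rfl⟩
    refine ⟨F, ⟨hFd, hFX, fun z => ?_⟩, rfl⟩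
    have h := Λ.sub_mem (hFu z) hl
    have e : u (F z) - (y + z • a) - l = u (F z) - (y + l + z • a) := by abel
    rwa [e] at h

/-- identity theorem -/
theorem hc_eq (hX : IsCone X) {f g : ℂ → MN N} {y y' : Vd (k + 1)} (hf : f ∈ Hc X Λ u a y) (hg : g ∈ Hc X Λ u a y') {z₀ : ℂ}
    (h : ∃ᶠ z in 𝓝[≠] z₀, f z = g z) : f = g := by
  obtain ⟨F, ⟨hFd, hFX, -⟩, rfl⟩ := hf
  obtain ⟨G, ⟨hGd, hGX, -⟩, rfl⟩ := hg
  have hco : ∀ (H : ℂ → EN N), Differentiable ℂ H → ∀ i, Differentiable ℂ fun z => H z i := by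
    intro H hH i
    exact (EuclideanSpace.proj (𝕜 := ℂ) i : EN N →L[ℂ] ℂ).differentiable.comp hH
  have hmin : ∀ i j z, F z i * G z j - F z j * G z i = 0 := by
    intro i j
    have hd : Differentiable ℂ fun z => F z i * G z j - F z j * G z i :=
      ((hco F hFd i).mul (hco G hGd j)).sub ((hco F hFd j).mul (hco G hGd i))
    have ha : AnalyticOnNhd ℂ (fun z => F z i * G z j - F z j * G z i) Set.univ := fun z _ => hd.analyticAt z
    have hfr : ∃ᶠ z in 𝓝[≠] z₀, F z i * G z j - F z j * G z i = 0 := by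
      refine h.mono fun z hz => ?_
      obtain ⟨c, -, hc⟩ := (Pool.Agent.H62.EF.pr_eq_iff (ne_zero hX (hFX z)) (ne_zero hX (hGX z))).1 hz
      rw [hc]
      simp only [PiLp.smul_apply, smul_eq_mul]
      ring
    intro z
    exact ha.eqOn_zero_of_preconnected_of_frequently_eq_zero isPreconnected_univ (Set.mem_univ z₀) hfr (Set.mem_univ z)
  funext z
  obtain ⟨j, hj⟩ : ∃ j, G z j ≠ 0 := by
    by_contra hn
    push Not at hn
    apply ne_zero hX (hGX z)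
    ext j
    exact hn j
  have he : F z = (F z j / G z j) • G z := by
    ext i
    simp only [PiLp.smul_apply, smul_eq_mul]
    rw [div_mul_eq_mul_div, eq_div_iff hj]
    linear_combination hmin i j z
  have hc : F z j / G z j ≠ 0 := by
    intro h0
    rw [h0, zero_smul] at he
    exact ne_zero hX (hFX z) he
  exact (Pool.Agent.H62.EF.pr_eq_iff (ne_zero hX (hFX z)) (ne_zero hX (hGX z))).2 ⟨_, hc, he⟩

/-- locally uniform convergence -/
theorem _root_.Pool.Agent.G3.A.Lm.unif4 {ι : Type*} {𝒰 : Ultrafilter ι} {y₀ : Vd (k + 1)} {f : ι → ℂ → MN N} {g : ℂ → MN N} (h : Lm D a 𝒰 y₀ f g) (hg : Continuous g) {K : Set ℂ}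
    (hK : IsCompact K) (hKD : ∀ z ∈ K, y₀ + z • a ∉ D) {ε : ℝ} (hε : 0 < ε) : ∀ᶠ n in (𝒰 : Filter ι), ∀ z ∈ K, dist (f n z) (g z) ≤ ε := by
  classical
  by_contra hcon
  rw [← Ultrafilter.eventually_not] at hcon
  have hcon' : ∀ᶠ n in (𝒰 : Filter ι), ∃ z ∈ K, ε < dist (f n z) (g z) := by
    filter_upwards [hcon] with n hn
    push Not at hn
    exact hn
  obtain ⟨n₀, z₀, hz₀, -⟩ := hcon'.exists
  obtain ⟨w, hw⟩ : ∃ w : ι → ℂ, ∀ n, w n ∈ K ∧ ((∃ z ∈ K, ε < dist (f n z) (g z)) → ε < dist (f n (w n)) (g (w n))) := by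
    refine ⟨fun n => if hn : ∃ z ∈ K, ε < dist (f n z) (g z) then hn.choose else z₀, fun n => ?_⟩
    by_cases hn : ∃ z ∈ K, ε < dist (f n z) (g z)
    · simp only [dif_pos hn]
      exact ⟨hn.choose_spec.1, fun _ => hn.choose_spec.2⟩
    · simp only [dif_neg hn]
      exact ⟨hz₀, fun h' => absurd h' hn⟩
  have hle : ((𝒰.map w : Ultrafilter ℂ) : Filter ℂ) ≤ 𝓟 K := by
    rw [le_principal_iff, Ultrafilter.mem_coe, Ultrafilter.mem_map]
    exact Filter.Eventually.of_forall fun n => (hw n).1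
  obtain ⟨z, hzK, hz⟩ := hK.ultrafilter_le_nhds (𝒰.map w) hle
  have hwz : Tendsto w 𝒰 (𝓝 z) := hz
  have h1 : Tendsto (fun n => f n (w n)) 𝒰 (𝓝 (g z)) := h z (hKD z hzK) w hwz
  have h2 : Tendsto (fun n => g (w n)) 𝒰 (𝓝 (g z)) := (hg.tendsto z).comp hwz
  have h3 : Tendsto (fun n => dist (f n (w n)) (g (w n))) 𝒰 (𝓝 0) := by
    have h4 := h1.dist h2
    rwa [dist_self] at h4
  obtain ⟨n, h5, h6⟩ := ((h3.eventually_lt_const hε).and hcon').exists
  exact absurd ((hw n).2 h6) (not_lt.2 h5.le)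

theorem _root_.Pool.Agent.G3.A.Lm.unique4 {ι : Type*} {𝒰 : Ultrafilter ι} (hX : IsCone X) (hL : LG Λ D Bad a) {y₀ : Vd (k + 1)} {f : ι → ℂ → MN N} {g g' : ℂ → MN N}
    (h : Lm D a 𝒰 y₀ f g) (h' : Lm D a 𝒰 y₀ f g') (hg : g ∈ Hc X Λ u a y₀) (hg' : g' ∈ Hc X Λ u a y₀) : g = g' := by
  refine hc_eq hX hg hg' (z₀ := 0) ?_
  refine Filter.Eventually.frequently ?_
  filter_upwards [hL.iso y₀] with z hz
  exact tendsto_nhds_unique (h z hz (fun _ => z) tendsto_const_nhds) (h' z hz (fun _ => z) tendsto_const_nhds)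

end Pool.Agent.G4.A

end

section

/-!
# TG Lf: lifts over discs

`disc_lift`: `r ≤ 0`: trivial.  Otherwise apply `Pool.Agent.H36.BP.lift_disc` (`H36/BP/Lift.lean`) to `z ↦ Projectivization.mk ℂ (Φ_z z).ofLp _` for the rescaled map `z ↦ f (R z)` on the unit disc (`Φ_z` the local lift at `z`; two nonzero vectors
`x, y` with `pr x = pr y` are proportional, `pr_eq_iff`, so near `z₀` this map is the class of `Φ_{z₀}`).

`sec_line`: define `g z = f (y + z • e)` if `y + z • e ∉ D`, and `g z = g_z 0` otherwise, where `g_z` is from the second condition of `Sec` at the point `y + z • e`.  Local lifts: at a point off `D` compose `φ` from the first condition with the line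
(`D` is closed, so nearby points are off `D` too); at a point `z₀` with `y + z₀ • e ∈ D` use `Φ` from `LiftAt` (translated by `z₀`); there `g z = f (y + z • e)` for `z ≠ z₀` near `z₀`.  Apply `disc_lift`; the lift `F` is proportional to the local lifts,
so `F z ∈ X` and `u (F z) - (y + z • e) ∈ Λ` (`smul_mem_lat`).
-/

set_option autoImplicit false

open Topology Filter Metric

namespace Pool.Agent.TG

open Pool.Agent.H36.BP (EN fs wd)
open Pool.Agent.H14.PP (IsCone CurveAt Tan)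
open Pool.Agent.H62.EF (MN pr)
open Pool.Agent.AD (Vd Chart Charts IsGerm)

variable {N k : ℕ}

theorem disc_lift {f : ℂ → MN N} {R : ℝ}
    (hf : ∀ z ∈ ball (0 : ℂ) R, ∃ Φ : ℂ → EN N, AnalyticAt ℂ Φ z ∧ ∀ᶠ w in 𝓝 z, Φ w ≠ 0 ∧ f w = pr (Φ w)) {r : ℝ} (hr : r < R) :
    ∃ F : ℂ → EN N, DifferentiableOn ℂ F (ball 0 r) ∧ ∀ z ∈ ball (0 : ℂ) r, F z ≠ 0 ∧ f z = pr (F z) := by
  classical
  rcases le_or_gt r 0 with hr0 | hr0
  · refine ⟨fun _ => 0, differentiableOn_const _, fun z hz => ?_⟩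
    rw [ball_eq_empty.mpr hr0] at hz
    exact absurd hz (Set.notMem_empty z)
  have hR : 0 < R := hr0.trans hr
  obtain ⟨Φ₀, -, h0⟩ := hf 0 (mem_ball_self hR)
  have hV : ∀ z : ℂ, ∃ v : EN N, v ≠ 0 ∧ (z ∈ ball (0 : ℂ) R → f z = pr v) := by
    intro z
    by_cases hz : z ∈ ball (0 : ℂ) R
    · obtain ⟨Φ, -, h⟩ := hf z hz
      exact ⟨Φ z, h.self_of_nhds.1, fun _ => h.self_of_nhds.2⟩
    · exact ⟨Φ₀ 0, h0.self_of_nhds.1, fun h => absurd h hz⟩
  choose V hV0 hVf using hV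
  have hofne : ∀ v : EN N, v ≠ 0 → v.ofLp ≠ 0 := by
    intro v hv h
    apply hv
    ext j
    exact congrFun h j
  set g : ℂ → Pool.Agent.H17.PN N := fun z => Projectivization.mk ℂ (V ((R : ℂ) * z)).ofLp (hofne _ (hV0 _)) with hg
  have hmul : ∀ z : ℂ, z ∈ ball (0 : ℂ) 1 → (R : ℂ) * z ∈ ball (0 : ℂ) R := by
    intro z hz
    rw [mem_ball_zero_iff] at hz ⊢
    rw [norm_mul, Complex.norm_real, Real.norm_of_nonneg hR.le]
    calc R * ‖z‖ < R * 1 := mul_lt_mul_of_pos_left hz hR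
      _ = R := mul_one R
  have hgh : Pool.Agent.H17.HolomorphicInto g (ball 0 1) := by
    intro z₀ hz₀
    obtain ⟨Φ, hΦ, h⟩ := hf _ (hmul z₀ hz₀)
    have hc : AnalyticAt ℂ (fun w : ℂ => (R : ℂ) * w) z₀ := analyticAt_const.mul analyticAt_id
    have hΦc : AnalyticAt ℂ (fun w : ℂ => Φ ((R : ℂ) * w)) z₀ := AnalyticAt.fun_comp hΦ hc
    refine ⟨fun w => (Φ ((R : ℂ) * w)).ofLp, ?_, ?_⟩
    · rw [analyticAt_pi_iff]
      intro j
      exact ((EuclideanSpace.proj (𝕜 := ℂ) j : EN N →L[ℂ] ℂ).analyticAt _).comp hΦc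
    · filter_upwards [hc.continuousAt.eventually h, isOpen_ball.mem_nhds hz₀] with w hw hwb
      refine ⟨hofne _ hw.1, ?_⟩
      have h1 : pr (V ((R : ℂ) * w)) = pr (Φ ((R : ℂ) * w)) := by
        rw [← hVf _ (hmul w hwb), hw.2]
      obtain ⟨c, -, h2⟩ := (Pool.Agent.H62.EF.pr_eq_iff (hV0 _) hw.1).mp h1
      rw [hg, Projectivization.mk_eq_mk_iff']
      exact ⟨c, by rw [h2]; rfl⟩
  obtain ⟨F, hF, hFg⟩ := Pool.Agent.H36.BP.lift_disc hgh (r := r / R) (div_pos hr0 hR) ((div_lt_one hR).mpr hr)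
  have hdiv : ∀ z : ℂ, z ∈ ball (0 : ℂ) r → (R : ℂ)⁻¹ * z ∈ ball (0 : ℂ) (r / R) := by
    intro z hz
    rw [mem_ball_zero_iff] at hz ⊢
    rw [norm_mul, norm_inv, Complex.norm_real, Real.norm_of_nonneg hR.le, inv_mul_eq_div]
    exact div_lt_div_of_pos_right hz hR
  refine ⟨fun z => F ((R : ℂ)⁻¹ * z), ?_, fun z hz => ?_⟩
  · exact hF.comp (differentiable_id.const_mul _).differentiableOn hdiv
  · obtain ⟨h1, h2⟩ := hFg _ (hdiv z hz)
    have hRC : (R : ℂ) ≠ 0 := by exact_mod_cast hR.ne'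
    have h3 : (R : ℂ) * ((R : ℂ)⁻¹ * z) = z := by
      rw [← mul_assoc, mul_inv_cancel₀ hRC, one_mul]
    have h4 : F ((R : ℂ)⁻¹ * z) ≠ 0 := by
      intro h
      apply h1
      rw [h]
      rfl
    refine ⟨h4, ?_⟩
    have h5 : z ∈ ball (0 : ℂ) R := ball_subset_ball hr.le hz
    rw [hg] at h2
    simp only [h3] at h2
    obtain ⟨c, hc, h6⟩ := Pool.Agent.H17.mk_eq_mk_cross h2
    have h7 : V z = c • F ((R : ℂ)⁻¹ * z) := by
      ext j
      exact h6 j
    rw [hVf z h5, h7, Pool.Agent.H62.EF.pr_smul _ hc]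

variable {X : Set (EN N)} {Λ : AddSubgroup (Vd (k + 1))} {u : EN N → Vd (k + 1)} {D B : Set (Vd (k + 1))}

/-- the lift of a curve over a line -/
theorem disc_lift_mem (hX : IsCone X) (hu : TMap X Λ u) {g : ℂ → MN N} {y e : Vd (k + 1)} {R : ℝ}
    (hg : ∀ z ∈ ball (0 : ℂ) R, LiftAt X Λ u y e g z) {r : ℝ} (hr : r < R) :
    ∃ F : ℂ → EN N, DifferentiableOn ℂ F (ball 0 r) ∧ (∀ z ∈ ball (0 : ℂ) r, F z ∈ X ∧ u (F z) - (y + z • e) ∈ Λ) ∧
      ∀ z ∈ ball (0 : ℂ) r, g z = pr (F z) := by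
  obtain ⟨F, hF, hFg⟩ := disc_lift (f := g) (R := R) (fun z hz => by
    obtain ⟨Φ, hΦ, h⟩ := hg z hz
    exact ⟨Φ, hΦ, by
      filter_upwards [h] with w hw
      exact ⟨ne_zero hX hw.1, hw.2.1⟩⟩) hr
  refine ⟨F, hF, fun z hz => ?_, fun z hz => (hFg z hz).2⟩
  obtain ⟨Φ, -, h⟩ := hg z (ball_subset_ball hr.le hz)
  obtain ⟨h1, h2, h3⟩ := h.self_of_nhds
  obtain ⟨h4, h5⟩ := hFg z hz
  obtain ⟨c, hc, h6⟩ := (Pool.Agent.H62.EF.pr_eq_iff h4 (ne_zero hX h1)).mp (h5.symm.trans h2)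
  rw [h6]
  exact ⟨hX.smul_mem _ h1 c hc, smul_mem_lat hu h1 h3 hc⟩

theorem sec_line (hX : IsCone X) (hu : TMap X Λ u) (hD : IsClosed D) {f : Vd (k + 1) → MN N} (hf : f ∈ Sec X Λ u D) {y e : Vd (k + 1)} {R : ℝ}
    (hiso : ∀ z ∈ ball (0 : ℂ) R, ∀ᶠ w in 𝓝[≠] z, y + w • e ∉ D) {r : ℝ} (hr : r < R) :
    ∃ F : ℂ → EN N, DifferentiableOn ℂ F (ball 0 r) ∧ (∀ z ∈ ball (0 : ℂ) r, F z ∈ X ∧ u (F z) - (y + z • e) ∈ Λ) ∧
      ∀ z ∈ ball (0 : ℂ) r, y + z • e ∉ D → pr (F z) = f (y + z • e) := by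
  classical
  obtain ⟨hf1, hf2⟩ := hf
  -- the local curve at a point of the disc
  have hloc : ∀ z : ℂ, ∃ G : ℂ → MN N, z ∈ ball (0 : ℂ) R → LiftAt X Λ u (y + z • e) e G 0 ∧ ∀ᶠ w in 𝓝[≠] (0 : ℂ), G w = f (y + z • e + w • e) := by
    intro z
    by_cases hz : z ∈ ball (0 : ℂ) R
    · have h1 : ∀ᶠ w in 𝓝[≠] (0 : ℂ), y + z • e + w • e ∉ D := by
        have h2 : Tendsto (fun w : ℂ => z + w) (𝓝[≠] 0) (𝓝[≠] z) := by
          refine tendsto_nhdsWithin_iff.mpr ⟨?_, ?_⟩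
          · have h3 : Tendsto (fun w : ℂ => z + w) (𝓝 0) (𝓝 (z + 0)) := (continuous_const.add continuous_id).tendsto 0
            rw [add_zero] at h3
            exact h3.mono_left nhdsWithin_le_nhds
          · filter_upwards [self_mem_nhdsWithin] with w hw
            intro h3
            apply hw
            simpa using h3
        filter_upwards [h2.eventually (hiso z hz)] with w hw
        rwa [add_assoc, ← add_smul]
      obtain ⟨G, h3, h4⟩ := hf2 _ _ h1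
      exact ⟨G, fun _ => ⟨h3, h4⟩⟩
    · exact ⟨fun _ => 0, fun h => absurd h hz⟩
  choose G hG using hloc
  set g : ℂ → MN N := fun z => if y + z • e ∈ D then G z 0 else f (y + z • e) with hg
  have hgl : ∀ z ∈ ball (0 : ℂ) R, LiftAt X Λ u y e g z := by
    intro z hz
    obtain ⟨⟨Φ, hΦ, hΦe⟩, hGe⟩ := hG z hz
    have hsub : AnalyticAt ℂ (fun w : ℂ => w - z) z := analyticAt_id.sub analyticAt_const
    have hΦc : AnalyticAt ℂ (fun w : ℂ => Φ (w - z)) z := by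
      refine AnalyticAt.fun_comp (f := fun w : ℂ => w - z) ?_ hsub
      rw [sub_self]
      exact hΦ
    have ht : Tendsto (fun w : ℂ => w - z) (𝓝 z) (𝓝 0) := by
      have h1 := hsub.continuousAt.tendsto
      rwa [sub_self] at h1
    have htn : Tendsto (fun w : ℂ => w - z) (𝓝[≠] z) (𝓝[≠] 0) := by
      refine tendsto_nhdsWithin_iff.mpr ⟨ht.mono_left nhdsWithin_le_nhds, ?_⟩
      filter_upwards [self_mem_nhdsWithin] with w hw
      exact sub_ne_zero.mpr hw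
    have hpt : ∀ w : ℂ, y + z • e + (w - z) • e = y + w • e := by
      intro w
      rw [sub_smul]
      abel
    refine ⟨fun w => Φ (w - z), hΦc, ?_⟩
    have h1 := eventually_nhdsWithin_iff.mp (htn.eventually hGe)
    have h2 := eventually_nhdsWithin_iff.mp (hiso z hz)
    filter_upwards [ht.eventually hΦe, h1, h2] with w hw hw1 hw2
    obtain ⟨hw3, hw4, hw5⟩ := hw
    rw [hpt] at hw5
    refine ⟨hw3, ?_, hw5⟩
    rw [← hw4]
    by_cases hwz : w = z
    · by_cases hzD : y + w • e ∈ D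
      · rw [hg]
        simp only [hzD, if_true]
        rw [hwz, sub_self]
      · -- both sides are continuous at `z`
        rw [hg]
        simp only [hzD, if_false]
        rw [hwz] at hzD ⊢
        obtain ⟨φ, hφ, hφe⟩ := hf1 _ hzD
        have hpc : Continuous fun v : ℂ => y + z • e + v • e := by fun_prop
        have hφc : ContinuousAt (fun v : ℂ => pr (φ (y + z • e + v • e))) 0 := by
          have e1 : y + z • e + (0 : ℂ) • e = y + z • e := by rw [zero_smul, add_zero]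
          refine ContinuousAt.comp (g := pr) (f := fun v : ℂ => φ (y + z • e + v • e)) ?_ ?_
          · rw [e1]
            exact Pool.Agent.H62.EF.continuousAt_pr (ne_zero hX hφe.self_of_nhds.1)
          · refine ContinuousAt.comp (g := φ) (f := fun v : ℂ => y + z • e + v • e) ?_ hpc.continuousAt
            rw [e1]
            exact hφ.continuousAt
        have hΦc2 : ContinuousAt (fun v : ℂ => pr (Φ v)) 0 :=
          ContinuousAt.comp (g := pr) (f := Φ) (Pool.Agent.H62.EF.continuousAt_pr (ne_zero hX hΦe.self_of_nhds.1)) hΦ.continuousAt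
        have hev : (fun v : ℂ => pr (Φ v)) =ᶠ[𝓝[≠] (0 : ℂ)] fun v : ℂ => pr (φ (y + z • e + v • e)) := by
          have h5 : ∀ᶠ v in 𝓝[≠] (0 : ℂ), f (y + z • e + v • e) = pr (φ (y + z • e + v • e)) := by
            have h6 : Tendsto (fun v : ℂ => y + z • e + v • e) (𝓝 0) (𝓝 (y + z • e)) := by
              have h7 := hpc.tendsto 0
              rwa [zero_smul, add_zero] at h7
            exact ((h6.eventually hφe).mono fun v hv => hv.2.1).filter_mono nhdsWithin_le_nhds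
          filter_upwards [hGe, hΦe.filter_mono nhdsWithin_le_nhds, h5] with v hv1 hv2 hv3
          rw [← hv2.2.1, hv1, hv3]
        have h6 : Tendsto (fun v : ℂ => pr (Φ v)) (𝓝[≠] (0 : ℂ)) (𝓝 (pr (Φ 0))) := hΦc2.tendsto.mono_left nhdsWithin_le_nhds
        have h7 : Tendsto (fun v : ℂ => pr (φ (y + z • e + v • e))) (𝓝[≠] (0 : ℂ)) (𝓝 (pr (φ (y + z • e + (0 : ℂ) • e)))) :=
          hφc.tendsto.mono_left nhdsWithin_le_nhds
        have h8 := tendsto_nhds_unique (h6.congr' hev) h7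
        rw [zero_smul, add_zero] at h8
        rw [sub_self, hΦe.self_of_nhds.2.1, h8]
        exact hφe.self_of_nhds.2.1
    · rw [hw1 hwz, hpt, hg]
      simp only [hw2 hwz, if_false]
  obtain ⟨F, hF, hF1, hF2⟩ := disc_lift_mem hX hu hgl hr
  refine ⟨F, hF, hF1, fun z hz hzD => ?_⟩
  rw [← hF2 z hz, hg]
  simp only [hzD, if_false]

end Pool.Agent.TG

end

section

/-!
# TG JJ: the integral along short paths in the fibres, without the parameter `ε`

`JRel α y m m' v`: for some `ε` the points near `m` (radius `3 ε`) of the fibres near `y` are in one straight chart, and `v` is the integral of `α / dy` along a path from `m` to `m'` of the fibre over `y` which stays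
in the ball of radius `ε` around `m`.
-/

set_option autoImplicit false

open Topology Filter Metric

namespace Pool.Agent.TG

open Pool.Agent.H36.BP (EN wd)
open Pool.Agent.H14.PP (IsCone CurveAt Tan)
open Pool.Agent.H62.EF (MN pr)
open Pool.Agent.AD (Vd Chart Charts)

variable {N k : ℕ} {X : Set (EN N)} {Λ : AddSubgroup (Vd (k + 1))} {u : EN N → Vd (k + 1)}

theorem Cap.add {χ : Chart (k + 2) X} {c : Vd (k + 1)} {ρ : ℝ} {y : Vd (k + 1)} {m : MN N} {r : ℝ} (h : Cap Λ u χ c ρ y m r) {l : Vd (k + 1)}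
    (hl : l ∈ Λ) : Cap Λ u χ (c + l) ρ (y + l) m r := by
  refine ⟨h.str.add hl, fun y' hy' x hx hxy hd => ?_⟩
  have h1 : y' - l ∈ closedBall y r := by
    rw [mem_closedBall, dist_eq_norm] at hy' ⊢
    have e : y' - l - y = y' - (y + l) := by abel
    rwa [e]
  have h2 : u x - (y' - l) ∈ Λ := by
    have e : u x - (y' - l) = u x - y' + l := by abel
    rw [e]
    exact Λ.add_mem hxy hl
  obtain ⟨a, b, c'⟩ := h.cap _ h1 x hx h2 hd
  refine ⟨a, b, ?_⟩
  rw [ms_add, c']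
  abel

theorem JRel.add {Γ : AddSubgroup (Vd (k + 1))} {α : VForm X Λ u} (hle : Γ ≤ Λ) (hper : Per α Γ) {y : Vd (k + 1)} {m m' : MN N} {v : ℂ}
    (h : JRel α y m m' v) {l : Vd (k + 1)} (hl : l ∈ Γ) : JRel α (y + l) m m' v := by
  obtain ⟨ε, hε, ⟨χ, c, ρ, hc⟩, hv⟩ := h
  exact ⟨ε, hε, ⟨χ, c + l, ρ, hc.add (hle hl)⟩, hv.add hle hper hl⟩

theorem jj_add {Γ : AddSubgroup (Vd (k + 1))} {α : VForm X Λ u} (hle : Γ ≤ Λ) (hper : Per α Γ) {y : Vd (k + 1)} (m m' : MN N)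
    {l : Vd (k + 1)} (hl : l ∈ Γ) : JJ α (y + l) m m' = JJ α y m m' := by
  have h1 : JRel α (y + l) m m' = JRel α y m m' := by
    funext v
    apply propext
    constructor
    · intro h
      have h2 := h.add hle hper (Γ.neg_mem hl)
      rwa [add_neg_cancel_right] at h2
    · intro h
      exact h.add hle hper hl
  unfold JJ
  rw [h1]

end Pool.Agent.TG

end

section

/-!
# G3 R PrmU: local primitives with uniform constants

As `PrmA`, with a uniform radius and `‖Ψ x‖ ≤ C exp (-c |y₀|²)`, for `y₀ ∈ Gd D δ`.  `UC`: a straight chart with constants `R`, `K` for the point `v` over `y₀`; `uc_base`: the straight chart at `(w, v₀)` works for all near points;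
`uc_unif`: uniform constants by compactness (bounded `y₀`, ultrafilter) and translation.  Bound: `‖A p‖ ≤ sup ‖tc α χ (ms c ρ)‖` (mean value inequality from `IsPrim.der`, `IsPrim.zero`) and
`‖tc α χ (ms c ρ) p‖ ≤ C₀ K ^ (k + 2) exp (-c₀ ‖ms c ρ p‖²)` by `Dec` and `VForm.det`, `‖ms c ρ p‖ ≥ ‖y₀‖ - K`.
-/

set_option autoImplicit false

open Topology Filter Metric

namespace Pool.Agent.G3.R

open Pool.Agent.H36.BP (EN wd)
open Pool.Agent.H14.PP (IsCone CurveAt Tan)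
open Pool.Agent.H62.EF (MN pr)
open Pool.Agent.AD (Vd Chart Charts)
open Pool.Agent.TG

variable {N k : ℕ} {X : Set (EN N)} {Λ : AddSubgroup (Vd (k + 1))} {u : EN N → Vd (k + 1)} {D B Bad : Set (Vd (k + 1))} {a : Vd (k + 1)}

theorem UC.add {χ : Chart (k + 2) X} {c : Vd (k + 1)} {ρ : ℝ} {y₀ : Vd (k + 1)} {v : EN N} {R K : ℝ} (h : UC Λ u χ c ρ y₀ v R K)
    {l : Vd (k + 1)} (hl : l ∈ Λ) : UC Λ u χ (c + l) ρ (y₀ + l) v R K := by
  have hb : ∀ y ∈ ball (y₀ + l) R, y - l ∈ ball y₀ R := by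
    intro y hy
    rw [mem_ball, dist_eq_norm] at hy ⊢
    have e : y - l - y₀ = y - (y₀ + l) := by abel
    rwa [e]
  have hms : ∀ p, ms (c + l) ρ p = ms c ρ p + l := fun p => by
    unfold ms
    abel
  refine ⟨h.str.add hl, h.mem, fun y hy x hX hx hxy => ?_, fun y hy x hX hx => ?_, h.bd, h.rho, fun p hp => ?_⟩
  · have h1 : u x - (y - l) ∈ Λ := by
      have e : u x - (y - l) = u x - y + l := by abel
      rw [e]
      exact Λ.add_mem hxy hl
    rw [hms, h.cap _ (hb y hy) x hX hx h1]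
    abel
  · obtain ⟨ε, h1, h2, h3⟩ := h.path _ (hb y hy) x hX hx
    refine ⟨ε, h1, ?_, h3⟩
    have h4 := h2.add hl
    rwa [sub_add_cancel] at h4
  · have h1 := h.near p hp
    have e : ms (c + l) ρ p - (y₀ + l) = ms c ρ p - y₀ := by
      rw [hms]
      abel
    rwa [e]

end Pool.Agent.G3.R

end
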