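import Mathlib

/-! The parts of this file: H56.G3.Poi, H62.EL.Ext, H62.FC.Avg, H92.GGL.AnnMean, H92.GGL.AnnJensen, H62.FC.NevDefs. -/

section

/-!
# G3 Poi: the Poisson integral majorises `log ‖F‖`
-/

set_option autoImplicit false

open Set Metric Filter Topology Real

namespace Pool.Agent.H56.G3

/-- continuous real functions on a circle are approximated by real parts of entire functions -/
theorem approx_re {f : ℂ → ℝ} {c : ℂ} {R : ℝ} (hR : 0 < R) (hf : ContinuousOn f (sphere c R)) {ε : ℝ} (hε : 0 < ε) :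
    ∃ ψ : ℂ → ℂ, Differentiable ℂ ψ ∧ ∀ z ∈ sphere c R, |(ψ z).re - f z| ≤ ε := by
  have : Fact (0 < 2 * π) := ⟨by positivity⟩
  -- the function on the circle
  have hmem : ∀ x : AddCircle (2 * π), c + R * (AddCircle.toCircle x : ℂ) ∈ sphere c R := by
    intro x
    rw [mem_sphere_iff_norm, add_sub_cancel_left, norm_mul, Circle.norm_coe, mul_one, Complex.norm_real, Real.norm_eq_abs, abs_of_pos hR]
  have hcont : Continuous fun x : AddCircle (2 * π) => (f (c + R * (AddCircle.toCircle x : ℂ)) : ℂ) := by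
    refine Complex.continuous_ofReal.comp ?_
    refine hf.comp_continuous ?_ hmem
    have := AddCircle.continuous_toCircle (T := 2 * π)
    fun_prop
  obtain ⟨F, hF⟩ : ∃ F : C(AddCircle (2 * π), ℂ), ∀ x, F x = (f (c + R * (AddCircle.toCircle x : ℂ)) : ℂ) := ⟨⟨_, hcont⟩, fun _ => rfl⟩
  have hcl : F ∈ (Submodule.span ℂ (range <| @fourier (2 * π))).topologicalClosure := by
    rw [span_fourier_closure_eq_top]
    exact Submodule.mem_top
  have hcl' : F ∈ closure ((Submodule.span ℂ (range <| @fourier (2 * π)) : Submodule ℂ C(AddCircle (2 * π), ℂ)) : Set C(AddCircle (2 * π), ℂ)) := hcl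
  obtain ⟨g, hg, hgF⟩ := Metric.mem_closure_iff.1 hcl' ε hε
  have key : ∀ g ∈ Submodule.span ℂ (range <| @fourier (2 * π)), ∃ ψ₁ ψ₂ : ℂ → ℂ, Differentiable ℂ ψ₁ ∧ Differentiable ℂ ψ₂ ∧
      ∀ x, g x = ψ₁ (c + R * (AddCircle.toCircle x : ℂ)) + starRingEnd ℂ (ψ₂ (c + R * (AddCircle.toCircle x : ℂ))) := by
    intro g hg
    have hRc : (R : ℂ) ≠ 0 := by exact_mod_cast hR.ne'
    have hzz : ∀ t : ℂ, (c + R * t - c) / R = t := by
      intro t
      rw [add_sub_cancel_left, mul_div_cancel_left₀ _ hRc]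
    induction hg using Submodule.span_induction with
    | mem g hg =>
      obtain ⟨n, rfl⟩ := hg
      rcases Int.eq_nat_or_neg n with ⟨k, hk | hk⟩
      · refine ⟨fun z => ((z - c) / R) ^ k, fun _ => 0, by fun_prop, by fun_prop, fun x => ?_⟩
        simp only [hzz, map_zero, add_zero]
        rw [fourier_apply, AddCircle.toCircle_zsmul, hk]
        simp
      · refine ⟨fun _ => 0, fun z => ((z - c) / R) ^ k, by fun_prop, by fun_prop, fun x => ?_⟩
        simp only [hzz, zero_add]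
        rw [hk, fourier_neg, fourier_apply, AddCircle.toCircle_zsmul]
        simp
    | zero => exact ⟨fun _ => 0, fun _ => 0, by fun_prop, by fun_prop, fun x => by simp⟩
    | add g₁ g₂ _ _ h₁ h₂ =>
      obtain ⟨a, b, ha, hb, h⟩ := h₁
      obtain ⟨a', b', ha', hb', h'⟩ := h₂
      refine ⟨fun z => a z + a' z, fun z => b z + b' z, ha.add ha', hb.add hb', fun x => ?_⟩
      rw [ContinuousMap.add_apply, h, h', map_add]
      ring
    | smul t g _ h =>
      obtain ⟨a, b, ha, hb, h⟩ := h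
      refine ⟨fun z => t * a z, fun z => starRingEnd ℂ t * b z, ha.const_mul _, hb.const_mul _, fun x => ?_⟩
      rw [ContinuousMap.smul_apply, h, map_mul, Complex.conj_conj, smul_eq_mul]
      ring
  obtain ⟨ψ₁, ψ₂, h₁, h₂, h⟩ := key g hg
  refine ⟨fun z => ψ₁ z + ψ₂ z, h₁.add h₂, fun z hz => ?_⟩
  -- every point of the circle is of this form
  obtain ⟨x, hx⟩ : ∃ x : AddCircle (2 * π), z = c + R * (AddCircle.toCircle x : ℂ) := by
    have hz' : ‖(z - c) / R‖ = 1 := by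
      rw [norm_div, mem_sphere_iff_norm.1 hz, Complex.norm_real, Real.norm_eq_abs, abs_of_pos hR, div_self hR.ne']
    refine ⟨((Complex.arg ((z - c) / R) : ℝ) : AddCircle (2 * π)), ?_⟩
    rw [AddCircle.toCircle_apply_mk, Circle.coe_exp, div_self (by positivity), one_mul]
    have h3 := Complex.norm_mul_exp_arg_mul_I ((z - c) / R)
    rw [hz', Complex.ofReal_one, one_mul] at h3
    rw [h3]
    have hRc : (R : ℂ) ≠ 0 := by exact_mod_cast hR.ne'
    field_simp
    ring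
  have h4 : ‖F x - g x‖ ≤ ε := by
    have h5 := ContinuousMap.norm_coe_le_norm (F - g) x
    rw [ContinuousMap.sub_apply] at h5
    rw [dist_eq_norm] at hgF
    exact h5.trans hgF.le
  rw [hF, h, ← hx] at h4
  have h6 : ((f z : ℂ) - (ψ₁ z + starRingEnd ℂ (ψ₂ z))).re = -((ψ₁ z + ψ₂ z).re - f z) := by
    simp only [Complex.sub_re, Complex.add_re, Complex.conj_re, Complex.ofReal_re]
    ring
  have h7 := (Complex.abs_re_le_norm _).trans h4
  rw [h6, abs_neg] at h7
  exact h7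

/-- the Poisson kernel of the circle of centre `c` through `z` -/
noncomputable def pk (c w z : ℂ) : ℝ := ((z - c + (w - c)) / ((z - c) - (w - c))).re

theorem pk_cont {c w : ℂ} {R : ℝ} (hw : w ∈ ball c R) : ContinuousOn (pk c w) (sphere c R) := by
  unfold pk
  refine Complex.continuous_re.comp_continuousOn (ContinuousOn.div (by fun_prop) (by fun_prop) ?_)
  intro z hz h
  have h1 : z = w := by linear_combination h
  rw [h1] at hz
  rw [mem_sphere] at hz
  rw [mem_ball] at hw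
  linarith

theorem pk_pos {c w z : ℂ} {R : ℝ} (hw : w ∈ ball c R) (hz : z ∈ sphere c R) : 0 < pk c w z := by
  have h1 := le_re_herglotzRieszKernel hz hw
  refine lt_of_lt_of_le ?_ h1
  have h2 : ‖w - c‖ < R := mem_ball_iff_norm.1 hw
  have h3 := norm_nonneg (w - c)
  exact div_pos (by linarith) (by linarith)

variable {E : Type*} [NormedAddCommGroup E] [NormedSpace ℂ E]

/-- **The Poisson integral majorises `log ‖F‖`.** -/
theorem poisson_jensen {F : ℂ → E} {c : ℂ} {R : ℝ} (hR : 0 < R) (hF : DiffContOnCl ℂ F (ball c R)) (h0 : ∀ z ∈ sphere c R, F z ≠ 0)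
    {w : ℂ} (hw : w ∈ ball c R) (hFw : F w ≠ 0) :
    Real.log ‖F w‖ ≤ circleAverage (fun z => pk c w z * Real.log ‖F z‖) c R := by
  have hcl : closure (ball c R) = closedBall c R := closure_ball c hR.ne'
  have hfr : frontier (ball c R) = sphere c R := frontier_ball c hR.ne'
  have hRabs : |R| = R := abs_of_pos hR
  have hFc : ContinuousOn F (sphere c R) := hF.continuousOn.mono (by rw [hcl]; exact sphere_subset_closedBall)
  have huc : ContinuousOn (fun z => Real.log ‖F z‖) (sphere c R) := ContinuousOn.log hFc.norm fun z hz => norm_ne_zero_iff.2 (h0 z hz)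
  have hpk := pk_cont hw
  refine le_of_forall_pos_le_add fun δ hδ => ?_
  -- the total mass of the kernel
  have hone : circleAverage (fun z => pk c w z * (1 : ℝ)) c R = 1 := by
    have h1 := (diffContOnCl_const (c := (1 : ℂ))).circleAverage_re_herglotzRieszKernel_smul' (E := ℂ) (c := c) (R := R) hw
    have h2 : CircleIntegrable (fun z => ((z - c + (w - c)) / ((z - c) - (w - c))).re • (1 : ℂ)) c R := by
      refine ContinuousOn.circleIntegrable' ?_
      rw [hRabs]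
      exact (Complex.continuous_ofReal.comp_continuousOn hpk).congr fun z _ => by simp [pk]
    have h3 := Complex.reCLM.circleAverage_comp_comm h2
    rw [h1] at h3
    simp only [Complex.reCLM_apply, Complex.one_re] at h3
    refine Eq.trans ?_ h3
    congr 1
    funext z
    simp [pk]
  obtain ⟨ψ, hψ, hψu⟩ := approx_re hR huc (half_pos hδ)
  -- the maximum principle
  have hmax : ‖Complex.exp (-ψ w) • F w‖ ≤ Real.exp (δ / 2) := by
    have hd : DiffContOnCl ℂ (fun z => Complex.exp (-ψ z) • F z) (ball c R) := by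
      have h1 : Differentiable ℂ fun z => Complex.exp (-ψ z) := by fun_prop
      exact h1.diffContOnCl.smul hF
    refine Complex.norm_le_of_forall_mem_frontier_norm_le isBounded_ball hd ?_ (subset_closure hw)
    intro z hz
    rw [hfr] at hz
    have h1 := abs_le.1 (hψu z hz)
    have h2 : 0 < ‖F z‖ := norm_pos_iff.2 (h0 z hz)
    rw [norm_smul, Complex.norm_exp, Complex.neg_re]
    calc Real.exp (-(ψ z).re) * ‖F z‖ = Real.exp (-(ψ z).re) * Real.exp (Real.log ‖F z‖) := by rw [Real.exp_log h2]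
      _ = Real.exp (-(ψ z).re + Real.log ‖F z‖) := by rw [← Real.exp_add]
      _ ≤ Real.exp (δ / 2) := Real.exp_le_exp.2 (by linarith [h1.1])
  have hle : Real.log ‖F w‖ ≤ (ψ w).re + δ / 2 := by
    have h2 : 0 < ‖F w‖ := norm_pos_iff.2 hFw
    rw [norm_smul, Complex.norm_exp, Complex.neg_re] at hmax
    have h3 := Real.log_le_log (by positivity) hmax
    rw [Real.log_mul (by positivity) h2.ne', Real.log_exp, Real.log_exp] at h3
    linarith
  -- the Poisson formula for `ψ`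
  have hpois : (ψ w).re = circleAverage (fun z => pk c w z * (ψ z).re) c R := by
    have h1 := hψ.diffContOnCl.circleAverage_re_herglotzRieszKernel_smul' (c := c) (R := R) hw
    have h2 : CircleIntegrable (fun z => ((z - c + (w - c)) / ((z - c) - (w - c))).re • ψ z) c R := by
      refine ContinuousOn.circleIntegrable' ?_
      rw [hRabs]
      exact hpk.smul hψ.continuous.continuousOn
    have h3 := Complex.reCLM.circleAverage_comp_comm h2
    rw [h1] at h3
    simp only [Complex.reCLM_apply] at h3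
    rw [← h3]
    congr 1
    funext z
    simp [pk]
  have hmono : circleAverage (fun z => pk c w z * (ψ z).re) c R ≤ circleAverage (fun z => pk c w z * Real.log ‖F z‖ + δ / 2 * (pk c w z * 1)) c R := by
    refine circleAverage_mono ?_ ?_ ?_
    · refine ContinuousOn.circleIntegrable' ?_
      rw [hRabs]
      exact hpk.mul (Complex.continuous_re.comp_continuousOn hψ.continuous.continuousOn)
    · refine ContinuousOn.circleIntegrable' ?_
      rw [hRabs]
      exact (hpk.mul huc).add ((hpk.mul continuousOn_const).const_mul _)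
    · intro z hz
      rw [hRabs] at hz
      have h1 := abs_le.1 (hψu z hz)
      have h2 := pk_pos hw hz
      nlinarith [h1.2]
  have hadd : circleAverage (fun z => pk c w z * Real.log ‖F z‖ + δ / 2 * (pk c w z * 1)) c R =
      circleAverage (fun z => pk c w z * Real.log ‖F z‖) c R + δ / 2 * 1 := by
    have h1 : CircleIntegrable (fun z => pk c w z * Real.log ‖F z‖) c R := by
      refine ContinuousOn.circleIntegrable' ?_
      rw [hRabs]
      exact hpk.mul huc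
    have h2 : CircleIntegrable (fun z => δ / 2 * (pk c w z * 1)) c R := by
      refine ContinuousOn.circleIntegrable' ?_
      rw [hRabs]
      exact (hpk.mul continuousOn_const).const_mul _
    have h3 := circleAverage_add h1 h2
    have h4 : circleAverage (fun z => δ / 2 * (pk c w z * 1)) c R = δ / 2 * 1 := by
      have h5 := circleAverage_smul (a := δ / 2) (f := fun z => pk c w z * (1 : ℝ)) (c := c) (R := R)
      rw [hone] at h5
      exact h5
    rw [← h4]
    exact h3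
  rw [hpois] at hle
  linarith

end Pool.Agent.H56.G3

end

section

/-!
# EL Ext: extension of a holomorphic function from an annulus to the disc

Let `z` be in the annulus, `r₁ < r < ‖z - b‖ < r' < r₂`.
(1) `∮ ζ in C(b, r), J ζ / (ζ - z) = 0`: on the circle `1 / (ζ - z) = - Σ_n (ζ - b)^n / (z - b)^(n+1)` (geometric series,
`|ζ - b| / |z - b| = q < 1`), the partial sums `P_n` satisfy `|1 / (ζ - z) - P_n ζ| ≤ q^n / (‖z - b‖ - r)` on the circle, and `∮ J P_n = 0`
by `h0`; so `|∮ J ζ / (ζ - z)| ≤ 2 π r (sup |J|) q^n / (‖z - b‖ - r)` for all `n`.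
(2) Cauchy's formula for the annulus: `g ζ = dslope J z ζ` (`= (J ζ - J z) / (ζ - z)` for `ζ ≠ z`) is holomorphic on the annulus, so
`∮_{C(b,r')} g = ∮_{C(b,r)} g` (`Complex.circleIntegral_eq_of_differentiable_on_annulus_off_countable`), and `∮_{C(b,r')} 1 / (ζ - z) = 2 π i`
(`circleIntegral.integral_sub_inv_of_mem_ball`), `∮_{C(b,r)} 1 / (ζ - z) = 0` (holomorphic on the closed disc, as `‖z - b‖ > r`).
So `2 π i J z = ∮_{C(b,r')} J ζ / (ζ - z)`.
(3) The function `J'_{r'} z = (2 π i)⁻¹ ∮_{C(b,r')} J ζ / (ζ - z)` is holomorphic on `ball b r'` (Cauchy transform of a continuous function: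
`hasFPowerSeriesOn_cauchy_integral`, `DifferentiableOn`), and equal to `J` for `r₁ < ‖z - b‖ < r'`.  For different `r'` these functions agree on a
common annulus, so (identity theorem, the disc is connected) everywhere on the smaller disc: they define a holomorphic function on `ball b r₂`.
(Or: `J' z := J z` if `‖z - b‖ > (r₁ + r₂)/2` and `J' z := J'_{r'} z` otherwise, with one fixed `r' ∈ ((r₁ + r₂)/2, r₂)`.)
-/

set_option autoImplicit false

open Topology Filter Metric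

namespace Pool.Agent.H62.EL

private theorem ext_open {b : ℂ} {r₁ r₂ : ℝ} : IsOpen {z : ℂ | r₁ < ‖z - b‖ ∧ ‖z - b‖ < r₂} := by
  have h1 : IsOpen {z : ℂ | r₁ < ‖z - b‖} := isOpen_lt continuous_const (by fun_prop)
  have h2 : IsOpen {z : ℂ | ‖z - b‖ < r₂} := isOpen_lt (by fun_prop) continuous_const
  exact h1.inter h2

/-- The moments of `J / (ζ - z)` on a small circle vanish if the moments of `J` vanish and `z` is outside. -/
private theorem ext_inner {b z : ℂ} {r : ℝ} (hr : 0 < r) (hz : r < ‖z - b‖) {J : ℂ → ℂ}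
    (hJ : ContinuousOn J (sphere b r))
    (h0 : ∀ n : ℕ, (∮ ζ in C(b, r), (ζ - b) ^ n * J ζ) = 0) :
    (∮ ζ in C(b, r), (ζ - z)⁻¹ * J ζ) = 0 := by
  have hne : ∀ ζ ∈ sphere b r, ζ - z ≠ 0 := by
    intro ζ hζ h
    rw [sub_eq_zero] at h
    rw [mem_sphere, dist_eq_norm, h] at hζ
    linarith
  have hcI : ContinuousOn (fun ζ : ℂ => (ζ - z)⁻¹) (sphere b r) :=
    ContinuousOn.inv₀ (by fun_prop) hne
  have hcn : ∀ n : ℕ, ContinuousOn (fun ζ : ℂ => (ζ - b) ^ n * ((ζ - z)⁻¹ * J ζ)) (sphere b r) := by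
    intro n
    exact ContinuousOn.mul (by fun_prop) (hcI.mul hJ)
  have hcJ : ∀ n : ℕ, ContinuousOn (fun ζ : ℂ => (ζ - b) ^ n * J ζ) (sphere b r) := by
    intro n
    exact ContinuousOn.mul (by fun_prop) hJ
  have hcz : ∀ n : ℕ, CircleIntegrable (fun ζ : ℂ => (z - b) * ((ζ - b) ^ n * ((ζ - z)⁻¹ * J ζ))) b r := by
    intro n
    exact ContinuousOn.circleIntegrable hr.le (ContinuousOn.mul continuousOn_const (hcn n))
  have hstep : ∀ n : ℕ, (∮ ζ in C(b, r), (ζ - b) ^ n * ((ζ - z)⁻¹ * J ζ)) =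
      (z - b) ^ n * ∮ ζ in C(b, r), (ζ - z)⁻¹ * J ζ := by
    intro n
    induction n with
    | zero => simp
    | succ n ih =>
      have h1 : (∮ ζ in C(b, r), (ζ - b) ^ (n + 1) * ((ζ - z)⁻¹ * J ζ)) =
          ∮ ζ in C(b, r), ((ζ - b) ^ n * J ζ + (z - b) * ((ζ - b) ^ n * ((ζ - z)⁻¹ * J ζ))) := by
        refine circleIntegral.integral_congr hr.le ?_
        intro ζ hζ
        have h2 := hne ζ hζ
        simp only
        field_simp
        ring
      rw [h1, circleIntegral.integral_add ((hcJ n).circleIntegrable hr.le)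
        (hcz n), h0 n, zero_add,
        circleIntegral.integral_const_mul, ih]
      ring
  obtain ⟨M, hM⟩ := (isCompact_sphere b r).exists_bound_of_continuousOn (hcI.mul hJ)
  have hbd : ∀ n : ℕ, ‖∮ ζ in C(b, r), (ζ - z)⁻¹ * J ζ‖ ≤ 2 * Real.pi * r * M * (r / ‖z - b‖) ^ n := by
    intro n
    have h1 : ‖∮ ζ in C(b, r), (ζ - b) ^ n * ((ζ - z)⁻¹ * J ζ)‖ ≤ 2 * Real.pi * r * (r ^ n * M) := by
      refine circleIntegral.norm_integral_le_of_norm_le_const hr.le ?_
      intro ζ hζ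
      rw [norm_mul, norm_pow]
      have h3 : ‖ζ - b‖ = r := by rwa [mem_sphere, dist_eq_norm] at hζ
      rw [h3]
      exact mul_le_mul_of_nonneg_left (hM ζ hζ) (by positivity)
    rw [hstep n, norm_mul, norm_pow] at h1
    have hp : 0 < ‖z - b‖ ^ n := pow_pos (hr.trans hz) n
    rw [div_pow]
    have h2 : ‖∮ ζ in C(b, r), (ζ - z)⁻¹ * J ζ‖ ≤ 2 * Real.pi * r * (r ^ n * M) / ‖z - b‖ ^ n := by
      rw [le_div_iff₀ hp]
      linarith
    refine h2.trans (le_of_eq ?_)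
    field_simp
  have hlim : Tendsto (fun n : ℕ => 2 * Real.pi * r * M * (r / ‖z - b‖) ^ n) atTop (𝓝 0) := by
    have := (tendsto_pow_atTop_nhds_zero_of_lt_one (r := r / ‖z - b‖) (by positivity)
      ((div_lt_one (hr.trans hz)).2 hz)).const_mul (2 * Real.pi * r * M)
    simpa using this
  have := ge_of_tendsto' hlim hbd
  exact norm_le_zero_iff.1 this

/-- The Cauchy transform is holomorphic on the disc. -/
private theorem ext_transform {b : ℂ} {r : ℝ} (hr : 0 < r) {J : ℂ → ℂ} (hcJ : ContinuousOn J (sphere b r)) :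
    DifferentiableOn ℂ (fun w => (2 * Real.pi * Complex.I : ℂ)⁻¹ • ∮ ζ in C(b, r), (ζ - w)⁻¹ • J ζ)
      (ball b r) := by
  lift r to NNReal using hr.le
  have h1 := hasFPowerSeriesOn_cauchy_integral (f := J) (c := b) (R := r)
    (hcJ.circleIntegrable hr.le) (by exact_mod_cast hr)
  have h2 := h1.differentiableOn
  rw [eball_coe] at h2
  exact h2

/-- Cauchy's formula for the annulus. -/
private theorem ext_outer {b : ℂ} {r₁ r₂ : ℝ} (hr₁ : 0 < r₁) {J : ℂ → ℂ}
    (hJ : DifferentiableOn ℂ J {z | r₁ < ‖z - b‖ ∧ ‖z - b‖ < r₂})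
    (h0 : ∀ (n : ℕ) (r : ℝ), r₁ < r → r < r₂ → (∮ z in C(b, r), (z - b) ^ n * J z) = 0)
    {r' : ℝ} (hr' : r' < r₂) {z : ℂ} (hz₁ : r₁ < ‖z - b‖) (hz₂ : ‖z - b‖ < r') :
    (2 * Real.pi * Complex.I : ℂ)⁻¹ • (∮ ζ in C(b, r'), (ζ - z)⁻¹ • J ζ) = J z := by
  have hopen : IsOpen {z : ℂ | r₁ < ‖z - b‖ ∧ ‖z - b‖ < r₂} :=
    ext_open
  obtain ⟨r, hrr₁, hrz⟩ := exists_between hz₁
  have hr0 : 0 < r := hr₁.trans hrr₁
  have hr'0 : 0 < r' := hr0.trans (hrz.trans hz₂)
  have hsub : closedBall b r' \ ball b r ⊆ {z : ℂ | r₁ < ‖z - b‖ ∧ ‖z - b‖ < r₂} := by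
    intro ζ hζ
    rw [Set.mem_sdiff, mem_closedBall, mem_ball, dist_eq_norm, not_lt] at hζ
    exact ⟨hrr₁.trans_le hζ.2, hζ.1.trans_lt hr'⟩
  have hzU : z ∈ {z : ℂ | r₁ < ‖z - b‖ ∧ ‖z - b‖ < r₂} := ⟨hz₁, hz₂.trans hr'⟩
  have hzd : DifferentiableAt ℂ J z := hJ.differentiableAt (hopen.mem_nhds hzU)
  have hcd : ContinuousOn (dslope J z) {z : ℂ | r₁ < ‖z - b‖ ∧ ‖z - b‖ < r₂} :=
    (continuousOn_dslope (hopen.mem_nhds hzU)).2 ⟨hJ.continuousOn, hzd⟩
  have hsph : ∀ ρ : ℝ, r ≤ ρ → ρ ≤ r' → sphere b ρ ⊆ {z : ℂ | r₁ < ‖z - b‖ ∧ ‖z - b‖ < r₂} := by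
    intro ρ h1 h2 ζ hζ
    rw [mem_sphere, dist_eq_norm] at hζ
    refine ⟨?_, ?_⟩
    · rw [hζ]; linarith
    · rw [hζ]; linarith
  have hkey : (∮ ζ in C(b, r'), dslope J z ζ) = ∮ ζ in C(b, r), dslope J z ζ := by
    refine Complex.circleIntegral_eq_of_differentiable_on_annulus_off_countable hr0
      (hrz.trans hz₂).le (Set.countable_singleton z) (hcd.mono hsub) ?_
    rintro ζ ⟨⟨hζ1, hζ2⟩, hζ3⟩
    have hζU : ζ ∈ {z : ℂ | r₁ < ‖z - b‖ ∧ ‖z - b‖ < r₂} := by
      rw [mem_ball, dist_eq_norm] at hζ1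
      rw [mem_closedBall, dist_eq_norm, not_le] at hζ2
      exact ⟨hrr₁.trans hζ2, hζ1.trans hr'⟩
    exact (differentiableAt_dslope_of_ne (by simpa using hζ3)).2
      (hJ.differentiableAt (hopen.mem_nhds hζU))
  have hexp : ∀ ρ : ℝ, r ≤ ρ → ρ ≤ r' → ρ ≠ ‖z - b‖ →
      (∮ ζ in C(b, ρ), dslope J z ζ) =
        (∮ ζ in C(b, ρ), (ζ - z)⁻¹ * J ζ) - J z * ∮ ζ in C(b, ρ), (ζ - z)⁻¹ := by
    intro ρ h1 h2 h3
    have hρ : 0 ≤ ρ := hr0.le.trans h1
    have hne : ∀ ζ ∈ sphere b ρ, ζ ≠ z := by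
      intro ζ hζ h
      rw [mem_sphere, dist_eq_norm, h] at hζ
      exact h3 hζ.symm
    have hcI : ContinuousOn (fun ζ : ℂ => (ζ - z)⁻¹) (sphere b ρ) :=
      ContinuousOn.inv₀ (by fun_prop) (fun ζ hζ => sub_ne_zero.2 (hne ζ hζ))
    have hcJ : ContinuousOn J (sphere b ρ) := hJ.continuousOn.mono (hsph ρ h1 h2)
    have hi1 : CircleIntegrable (fun ζ : ℂ => (ζ - z)⁻¹ * J ζ) b ρ :=
      ContinuousOn.circleIntegrable hρ (ContinuousOn.mul hcI hcJ)
    have hi2 : CircleIntegrable (fun ζ : ℂ => J z * (ζ - z)⁻¹) b ρ :=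
      ContinuousOn.circleIntegrable hρ (ContinuousOn.mul continuousOn_const hcI)
    rw [← circleIntegral.integral_const_mul, ← circleIntegral.integral_sub hi1 hi2]
    refine circleIntegral.integral_congr hρ ?_
    intro ζ hζ
    simp only
    rw [dslope_of_ne _ (hne ζ hζ), slope_def_field]
    have h4 : ζ - z ≠ 0 := sub_ne_zero.2 (hne ζ hζ)
    field_simp
  have h1 := hexp r' (hrz.trans hz₂).le le_rfl hz₂.ne'
  have h2 := hexp r le_rfl (hrz.trans hz₂).le hrz.ne
  have h3 : (∮ ζ in C(b, r'), (ζ - z)⁻¹) = 2 * Real.pi * Complex.I :=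
    circleIntegral.integral_sub_inv_of_mem_ball (by rwa [mem_ball, dist_eq_norm])
  have h4 : (∮ ζ in C(b, r), (ζ - z)⁻¹) = 0 := by
    have := ext_inner (b := b) (z := z) (r := r) hr0 hrz (J := fun _ => 1) continuousOn_const ?_
    · simpa using this
    · intro n
      simp only [mul_one]
      have := circleIntegral.integral_sub_zpow_of_ne (n := (n : ℤ)) (by omega) b b r
      simpa using this
  have h5 : (∮ ζ in C(b, r), (ζ - z)⁻¹ * J ζ) = 0 :=
    ext_inner hr0 hrz (hJ.continuousOn.mono (hsph r le_rfl (hrz.trans hz₂).le))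
      (fun n => h0 n r hrr₁ (by linarith))
  rw [h1, h2, h3, h4, h5] at hkey
  simp only [smul_eq_mul]
  have h6 : (∮ ζ in C(b, r'), (ζ - z)⁻¹ * J ζ) = J z * (2 * Real.pi * Complex.I) := by
    linear_combination hkey
  rw [h6]
  have h7 : (2 * Real.pi * Complex.I : ℂ) ≠ 0 := Complex.two_pi_I_ne_zero
  field_simp

theorem ext_annulus {b : ℂ} {r₁ r₂ : ℝ} (hr₁ : 0 < r₁) (hr : r₁ < r₂) {J : ℂ → ℂ}
    (hJ : DifferentiableOn ℂ J {z | r₁ < ‖z - b‖ ∧ ‖z - b‖ < r₂})
    (h0 : ∀ (n : ℕ) (r : ℝ), r₁ < r → r < r₂ → (∮ z in C(b, r), (z - b) ^ n * J z) = 0) :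
    ∃ J' : ℂ → ℂ, DifferentiableOn ℂ J' (ball b r₂) ∧ ∀ z, r₁ < ‖z - b‖ → ‖z - b‖ < r₂ → J' z = J z := by
  have hopen : IsOpen {z : ℂ | r₁ < ‖z - b‖ ∧ ‖z - b‖ < r₂} :=
    ext_open
  obtain ⟨m, hm₁, hm₂⟩ := exists_between hr
  obtain ⟨r', hr'₁, hr'₂⟩ := exists_between hm₂
  have hr'0 : 0 < r' := hr₁.trans (hm₁.trans hr'₁)
  have hcJ : ContinuousOn J (sphere b r') := by
    refine hJ.continuousOn.mono ?_
    intro ζ hζ
    rw [mem_sphere, dist_eq_norm] at hζ
    exact ⟨by rw [hζ]; linarith, by rw [hζ]; linarith⟩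
  let Φ : ℂ → ℂ := fun w => (2 * Real.pi * Complex.I : ℂ)⁻¹ • ∮ ζ in C(b, r'), (ζ - w)⁻¹ • J ζ
  have hΦd : DifferentiableOn ℂ Φ (ball b r') := ext_transform hr'0 hcJ
  have hΦJ : ∀ z, r₁ < ‖z - b‖ → ‖z - b‖ < r' → Φ z = J z := fun z h1 h2 =>
    ext_outer hr₁ hJ h0 hr'₂ h1 h2
  classical
  let J' : ℂ → ℂ := fun z => if m < ‖z - b‖ then J z else Φ z
  have hJ'Φ : ∀ z ∈ ball b r', J' z = Φ z := by
    intro z hz
    rw [mem_ball, dist_eq_norm] at hz
    by_cases h : m < ‖z - b‖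
    · simp only [J', if_pos h]
      exact (hΦJ z (hm₁.trans h) hz).symm
    · simp only [J', if_neg h]
  have hJ'J : ∀ z, r₁ < ‖z - b‖ → J' z = J z := by
    intro z hz
    by_cases h : m < ‖z - b‖
    · simp only [J', if_pos h]
    · simp only [J', if_neg h]
      exact hΦJ z hz (by linarith)
  refine ⟨J', ?_, fun z hz _ => hJ'J z hz⟩
  intro z hz
  refine DifferentiableAt.differentiableWithinAt ?_
  rw [mem_ball, dist_eq_norm] at hz
  by_cases h : ‖z - b‖ < r'
  · have hzb : z ∈ ball b r' := by rwa [mem_ball, dist_eq_norm]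
    exact (hΦd.differentiableAt (isOpen_ball.mem_nhds hzb)).congr_of_eventuallyEq
      (eventuallyEq_of_mem (isOpen_ball.mem_nhds hzb) hJ'Φ)
  · have hzU : z ∈ {z : ℂ | r₁ < ‖z - b‖ ∧ ‖z - b‖ < r₂} := ⟨by linarith, hz⟩
    exact (hJ.differentiableAt (hopen.mem_nhds hzU)).congr_of_eventuallyEq
      (eventuallyEq_of_mem (hopen.mem_nhds hzU) (fun w hw => hJ'J w hw.1))

end Pool.Agent.H62.EL

end

section

/-!
# Second derivatives of circle means: the smooth case

Taylor's formula with integral remainder in `x` for every fixed `θ`, Fubini, and periodicity.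
-/

noncomputable section

namespace Pool.Agent.H62.FC

open Filter Topology MeasureTheory

/-- directional derivatives -/
def Avg_d (F : ℝ × ℝ → ℝ) (v : ℝ × ℝ) (p : ℝ × ℝ) : ℝ := fderiv ℝ F p v

theorem Avg_d_contDiffAt {F : ℝ × ℝ → ℝ} {p : ℝ × ℝ} (v : ℝ × ℝ) {m n : WithTop ℕ∞}
    (h : ContDiffAt ℝ n F p) (hmn : m + 1 ≤ n) : ContDiffAt ℝ m (Avg_d F v) p :=
  (h.fderiv_right hmn).clm_apply contDiffAt_const

theorem Avg_hasDerivAt_fst {F : ℝ × ℝ → ℝ} {x θ : ℝ} (h : DifferentiableAt ℝ F (x, θ)) :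
    HasDerivAt (fun y => F (y, θ)) (Avg_d F (1, 0) (x, θ)) x :=
  HasFDerivAt.comp_hasDerivAt (f := fun y : ℝ => (y, θ)) x h.hasFDerivAt
    ((hasDerivAt_id x).prodMk (hasDerivAt_const x θ))

theorem Avg_hasDerivAt_snd {F : ℝ × ℝ → ℝ} {x θ : ℝ} (h : DifferentiableAt ℝ F (x, θ)) :
    HasDerivAt (fun φ => F (x, φ)) (Avg_d F (0, 1) (x, θ)) θ :=
  HasFDerivAt.comp_hasDerivAt (f := fun φ : ℝ => (x, φ)) θ h.hasFDerivAt
    ((hasDerivAt_const θ x).prodMk (hasDerivAt_id θ))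

theorem Avg_iter_two {f g : ℝ → ℝ} {x g' : ℝ} (h : ∀ᶠ y in 𝓝 x, HasDerivAt f (g y) y)
    (hg : HasDerivAt g g' x) : iteratedDeriv 2 f x = g' := by
  have h1 : iteratedDeriv 2 f = deriv (deriv f) := by
    rw [iteratedDeriv_succ, iteratedDeriv_one]
  rw [h1]
  have h2 : deriv f =ᶠ[𝓝 x] g := h.mono fun y hy => hy.deriv
  rw [h2.deriv_eq]
  exact hg.deriv

/-- Taylor's formula with integral remainder -/
theorem Avg_taylor {u u' u'' : ℝ → ℝ} {x₀ x : ℝ} (h1 : ∀ y ∈ Set.uIcc x₀ x, HasDerivAt u (u' y) y)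
    (h2 : ∀ y ∈ Set.uIcc x₀ x, HasDerivAt u' (u'' y) y)
    (hc : ContinuousOn u'' (Set.uIcc x₀ x)) :
    ∫ y in x₀..x, (x - y) * u'' y = u x - u x₀ - u' x₀ * (x - x₀) := by
  have h3 : ∀ y ∈ Set.uIcc x₀ x,
      HasDerivAt (fun y => (x - y) * u' y + u y) ((x - y) * u'' y) y := by
    intro y hy
    have h4 := (((hasDerivAt_const y x).sub (hasDerivAt_id y)).mul (h2 y hy)).add (h1 y hy)
    refine HasDerivAt.congr_deriv (f' := _) h4 ?_
    simp only [Pi.sub_apply, id]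
    ring
  rw [intervalIntegral.integral_eq_sub_of_hasDerivAt h3]
  · ring
  · exact ((continuousOn_const.sub continuousOn_id).mul hc).intervalIntegrable

theorem average_second_deriv {Φ L : ℝ → ℝ → ℝ} {α β : ℝ}
    (hΦ : ∀ x ∈ Set.Ioo α β, ∀ θ, ContDiffAt ℝ 2 (fun p : ℝ × ℝ => Φ p.1 p.2) (x, θ))
    (hper : ∀ x θ, Φ x (θ + 2 * Real.pi) = Φ x θ)
    (hL : ∀ x ∈ Set.Ioo α β, ∀ θ, L x θ =
      iteratedDeriv 2 (fun y => Φ y θ) x + iteratedDeriv 2 (fun φ => Φ x φ) θ)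
    {x₀ x : ℝ} (hx₀ : x₀ ∈ Set.Ioo α β) (hx : x ∈ Set.Ioo α β) :
    (∫ θ in (0 : ℝ)..2 * Real.pi, Φ x θ) = (∫ θ in (0 : ℝ)..2 * Real.pi, Φ x₀ θ) +
      (∫ θ in (0 : ℝ)..2 * Real.pi, deriv (fun y => Φ y θ) x₀) * (x - x₀) +
      ∫ y in x₀..x, (x - y) * ∫ θ in (0 : ℝ)..2 * Real.pi, L y θ := by
  set F : ℝ × ℝ → ℝ := fun p => Φ p.1 p.2 with hF
  set G1 : ℝ × ℝ → ℝ := Avg_d F (1, 0) with hG1
  set G2 : ℝ × ℝ → ℝ := Avg_d F (0, 1) with hG2
  set G11 : ℝ × ℝ → ℝ := Avg_d G1 (1, 0) with hG11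
  set G22 : ℝ × ℝ → ℝ := Avg_d G2 (0, 1) with hG22
  have c1 : ∀ y ∈ Set.Ioo α β, ∀ θ, ContDiffAt ℝ 1 G1 (y, θ) := fun y hy θ =>
    Avg_d_contDiffAt _ (hΦ y hy θ) (by norm_num)
  have c2 : ∀ y ∈ Set.Ioo α β, ∀ θ, ContDiffAt ℝ 1 G2 (y, θ) := fun y hy θ =>
    Avg_d_contDiffAt _ (hΦ y hy θ) (by norm_num)
  have c11 : ∀ y ∈ Set.Ioo α β, ∀ θ, ContinuousAt G11 (y, θ) := fun y hy θ =>
    (Avg_d_contDiffAt (m := 0) _ (c1 y hy θ) (by norm_num)).continuousAt
  have c22 : ∀ y ∈ Set.Ioo α β, ∀ θ, ContinuousAt G22 (y, θ) := fun y hy θ =>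
    (Avg_d_contDiffAt (m := 0) _ (c2 y hy θ) (by norm_num)).continuousAt
  have d1 : ∀ y ∈ Set.Ioo α β, ∀ θ, HasDerivAt (fun y => Φ y θ) (G1 (y, θ)) y := fun y hy θ =>
    Avg_hasDerivAt_fst ((hΦ y hy θ).differentiableAt (by norm_num))
  have d2 : ∀ y ∈ Set.Ioo α β, ∀ θ, HasDerivAt (fun φ => Φ y φ) (G2 (y, θ)) θ := fun y hy θ =>
    Avg_hasDerivAt_snd ((hΦ y hy θ).differentiableAt (by norm_num))
  have d11 : ∀ y ∈ Set.Ioo α β, ∀ θ, HasDerivAt (fun y => G1 (y, θ)) (G11 (y, θ)) y :=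
    fun y hy θ => Avg_hasDerivAt_fst ((c1 y hy θ).differentiableAt (by norm_num))
  have d22 : ∀ y ∈ Set.Ioo α β, ∀ θ, HasDerivAt (fun φ => G2 (y, φ)) (G22 (y, θ)) θ :=
    fun y hy θ => Avg_hasDerivAt_snd ((c2 y hy θ).differentiableAt (by norm_num))
  have hsub : Set.uIcc x₀ x ⊆ Set.Ioo α β := Set.OrdConnected.uIcc_subset Set.ordConnected_Ioo hx₀ hx
  have hpair : ∀ y : ℝ, Continuous fun θ : ℝ => ((y, θ) : ℝ × ℝ) := fun y => by fun_prop
  have k0 : ∀ y ∈ Set.Ioo α β, Continuous fun θ => Φ y θ := fun y hy =>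
    continuous_iff_continuousAt.2 fun θ => (d2 y hy θ).continuousAt
  have k1 : ∀ y ∈ Set.Ioo α β, Continuous fun θ => G1 (y, θ) := fun y hy =>
    continuous_iff_continuousAt.2 fun θ =>
      ContinuousAt.comp (f := fun θ : ℝ => ((y, θ) : ℝ × ℝ)) (g := G1) (c1 y hy θ).continuousAt
        (hpair y).continuousAt
  have k11 : ∀ y ∈ Set.Ioo α β, Continuous fun θ => G11 (y, θ) := fun y hy =>
    continuous_iff_continuousAt.2 fun θ =>
      ContinuousAt.comp (f := fun θ : ℝ => ((y, θ) : ℝ × ℝ)) (g := G11) (c11 y hy θ)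
        (hpair y).continuousAt
  have k22 : ∀ y ∈ Set.Ioo α β, Continuous fun θ => G22 (y, θ) := fun y hy =>
    continuous_iff_continuousAt.2 fun θ =>
      ContinuousAt.comp (f := fun θ : ℝ => ((y, θ) : ℝ × ℝ)) (g := G22) (c22 y hy θ)
        (hpair y).continuousAt
  -- the function `L`
  have hL' : ∀ y ∈ Set.Ioo α β, ∀ θ, L y θ = G11 (y, θ) + G22 (y, θ) := by
    intro y hy θ
    rw [hL y hy θ, Avg_iter_two (g := fun y => G1 (y, θ)) ?_ (d11 y hy θ),
      Avg_iter_two (g := fun φ => G2 (y, φ)) ?_ (d22 y hy θ)]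
    · exact Eventually.of_forall fun φ => d2 y hy φ
    · filter_upwards [isOpen_Ioo.mem_nhds hy] with y' hy' using d1 y' hy' θ
  -- periodicity
  have hper2 : ∀ y ∈ Set.Ioo α β, G2 (y, 2 * Real.pi) = G2 (y, 0) := by
    intro y hy
    have e1 := d2 y hy (0 + 2 * Real.pi)
    have e2 : HasDerivAt (fun φ => Φ y (φ + 2 * Real.pi)) (G2 (y, 0 + 2 * Real.pi)) 0 :=
      HasDerivAt.comp_add_const 0 (2 * Real.pi) e1
    simp only [hper] at e2
    rw [zero_add] at e2
    exact e2.unique (d2 y hy 0)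
  have hint22 : ∀ y ∈ Set.Ioo α β, ∫ θ in (0 : ℝ)..2 * Real.pi, G22 (y, θ) = 0 := by
    intro y hy
    rw [intervalIntegral.integral_eq_sub_of_hasDerivAt (fun θ _ => d22 y hy θ)
      ((k22 y hy).intervalIntegrable _ _), hper2 y hy, sub_self]
  have hintL : ∀ y ∈ Set.Ioo α β, ∫ θ in (0 : ℝ)..2 * Real.pi, L y θ =
      ∫ θ in (0 : ℝ)..2 * Real.pi, G11 (y, θ) := by
    intro y hy
    simp only [hL' y hy]
    rw [intervalIntegral.integral_add ((k11 y hy).intervalIntegrable _ _)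
      ((k22 y hy).intervalIntegrable _ _), hint22 y hy, add_zero]
  -- Taylor
  have hT : ∀ θ, ∫ y in x₀..x, (x - y) * G11 (y, θ) =
      Φ x θ - Φ x₀ θ - G1 (x₀, θ) * (x - x₀) := by
    intro θ
    refine Avg_taylor (u := fun y => Φ y θ) (u' := fun y => G1 (y, θ))
      (u'' := fun y => G11 (y, θ)) (fun y hy => d1 y (hsub hy) θ)
      (fun y hy => d11 y (hsub hy) θ) fun y hy => ?_
    exact (ContinuousAt.comp (f := fun y : ℝ => ((y, θ) : ℝ × ℝ)) (g := G11)
      (c11 y (hsub hy) θ) (by fun_prop)).continuousWithinAt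
  -- Fubini
  have hcont : ContinuousOn (Function.uncurry fun y θ : ℝ => (x - y) * G11 (y, θ))
      (Set.uIcc x₀ x ×ˢ Set.uIcc 0 (2 * Real.pi)) := by
    rintro ⟨y, θ⟩ hp
    refine ContinuousAt.continuousWithinAt ?_
    change ContinuousAt (fun p : ℝ × ℝ => (x - p.1) * G11 (p.1, p.2)) (y, θ)
    have h2 : ContinuousAt (fun p : ℝ × ℝ => G11 (p.1, p.2)) (y, θ) := c11 y (hsub hp.1) θ
    exact ContinuousAt.mul (by fun_prop) h2
  have hfub : ∫ y in x₀..x, ∫ θ in (0 : ℝ)..2 * Real.pi, (x - y) * G11 (y, θ) =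
      ∫ θ in (0 : ℝ)..2 * Real.pi, ∫ y in x₀..x, (x - y) * G11 (y, θ) := by
    refine intervalIntegral_intervalIntegral_swap ?_
    refine IntegrableOn.mono_set (hcont.integrableOn_compact
      (isCompact_uIcc.prod isCompact_uIcc)) ?_
    exact Set.prod_mono Set.uIoc_subset_uIcc Set.uIoc_subset_uIcc
  have hR : ∫ y in x₀..x, (x - y) * ∫ θ in (0 : ℝ)..2 * Real.pi, L y θ =
      ∫ y in x₀..x, ∫ θ in (0 : ℝ)..2 * Real.pi, (x - y) * G11 (y, θ) := by
    refine intervalIntegral.integral_congr fun y hy => ?_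
    rw [hintL y (hsub hy), intervalIntegral.integral_const_mul]
  have hD : ∀ θ, deriv (fun y => Φ y θ) x₀ = G1 (x₀, θ) := fun θ => (d1 x₀ hx₀ θ).deriv
  rw [hR, hfub]
  simp only [hT, hD]
  have i0 := (k0 x hx).intervalIntegrable (μ := volume) 0 (2 * Real.pi)
  have i1 := (k0 x₀ hx₀).intervalIntegrable (μ := volume) 0 (2 * Real.pi)
  have i2 := ((k1 x₀ hx₀).mul_const (x - x₀)).intervalIntegrable (μ := volume) 0 (2 * Real.pi)
  rw [intervalIntegral.integral_sub (i0.sub i1) i2, intervalIntegral.integral_sub i0 i1,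
    intervalIntegral.integral_mul_const]
  ring

end Pool.Agent.H62.FC

end
end

section

/-!
# Circle means of `log ‖v‖` for a holomorphic function without zeros on an annulus
-/

open Complex MeasureTheory Metric Set Topology Filter

namespace Pool.Agent.H92.GGL

/-- A continuous logarithm of a holomorphic function is holomorphic. -/
lemma analyticAt_of_exp_eq {h G : ℂ → ℂ} {τ : ℂ} (hh : ContinuousAt h τ) (hG : AnalyticAt ℂ G τ)
    (he : ∀ᶠ w in 𝓝 τ, exp (h w) = G w) : AnalyticAt ℂ h τ := by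
  have hG0 : G τ ≠ 0 := by
    rw [← he.self_of_nhds]
    exact exp_ne_zero _
  have h1 : AnalyticAt ℂ (fun w => h τ + log (G w / G τ)) τ := by
    refine analyticAt_const.add (AnalyticAt.clog ?_ ?_)
    · exact hG.div analyticAt_const hG0
    · rw [div_self hG0]
      exact one_mem_slitPlane
  refine h1.congr ?_
  have h2 : ∀ᶠ w in 𝓝 τ, ‖h w - h τ‖ < Real.pi := by
    have h3 : ContinuousAt (fun w => ‖h w - h τ‖) τ := (hh.sub continuousAt_const).norm
    refine h3.eventually_lt continuousAt_const ?_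
    simpa using Real.pi_pos
  filter_upwards [he, h2] with w hw hw2
  have h4 : G w / G τ = exp (h w - h τ) := by
    rw [exp_sub, hw, he.self_of_nhds]
  have h5 := (abs_im_le_norm (h w - h τ)).trans_lt hw2
  rw [abs_lt] at h5
  rw [h4, log_exp h5.1 h5.2.le]
  ring

/-- **The mean is an affine function of `log r`.** -/
theorem circleAverage_log_norm_affine {v : ℂ → ℂ} {r₁ R₁ : ℝ} (hr₁ : 0 < r₁)
    (hv : ∀ z, r₁ < ‖z‖ → ‖z‖ < R₁ → AnalyticAt ℂ v z)
    (hv0 : ∀ z, r₁ < ‖z‖ → ‖z‖ < R₁ → v z ≠ 0) :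
    ∃ a b : ℝ, ∀ r, r₁ < r → r < R₁ →
      Real.circleAverage (fun z => Real.log ‖v z‖) 0 r = a + b * Real.log r := by
  rcases le_or_gt R₁ r₁ with hle | hlt
  · exact ⟨0, 0, fun r h1 h2 => absurd (h1.trans h2) (not_lt.mpr hle)⟩
  have hR₁ : 0 < R₁ := hr₁.trans hlt
  set V : Set ℂ := {τ | Real.log r₁ < τ.re ∧ τ.re < Real.log R₁} with hV
  have hVo : IsOpen V := by
    refine (isOpen_lt continuous_const continuous_re).inter (isOpen_lt continuous_re continuous_const)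
  have hVconv : Convex ℝ V := by
    have h1 : V = {τ : ℂ | Real.log r₁ < τ.re} ∩ {τ : ℂ | τ.re < Real.log R₁} := rfl
    rw [h1]
    exact (convex_halfSpace_re_gt _).inter (convex_halfSpace_re_lt _)
  have hlog : Real.log r₁ < Real.log R₁ := Real.log_lt_log hr₁ hlt
  have hVne : V.Nonempty := by
    refine ⟨(((Real.log r₁ + Real.log R₁) / 2 : ℝ) : ℂ), ?_, ?_⟩ <;> simp only [ofReal_re] <;> linarith
  have hnorm : ∀ τ ∈ V, r₁ < ‖exp τ‖ ∧ ‖exp τ‖ < R₁ := by
    intro τ hτ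
    rw [norm_exp]
    constructor
    · rw [← Real.exp_log hr₁]
      exact Real.exp_lt_exp.mpr hτ.1
    · rw [← Real.exp_log hR₁]
      exact Real.exp_lt_exp.mpr hτ.2
  have hGan : ∀ τ ∈ V, AnalyticAt ℂ (fun τ => v (exp τ)) τ := by
    intro τ hτ
    obtain ⟨h1, h2⟩ := hnorm τ hτ
    exact (hv _ h1 h2).fun_comp analyticAt_cexp
  have hsc : IsSimplyConnected V := by
    have : ContractibleSpace V := hVconv.contractibleSpace hVne
    exact SimplyConnectedSpace.ofContractible V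
  obtain ⟨h, hc, he⟩ := exists_continuousOn_eqOn_exp_comp hsc hVo (g := fun τ => v (exp τ))
    (fun τ hτ => (hGan τ hτ).continuousAt.continuousWithinAt) (by
      rintro ⟨τ, hτ, h0⟩
      obtain ⟨h1, h2⟩ := hnorm τ hτ
      exact hv0 _ h1 h2 h0)
  have hhan : ∀ τ ∈ V, AnalyticAt ℂ h τ := by
    intro τ hτ
    refine analyticAt_of_exp_eq (hc.continuousAt (hVo.mem_nhds hτ)) (hGan τ hτ) ?_
    filter_upwards [hVo.mem_nhds hτ] with w hw
    exact he hw
  have hshift : ∀ τ ∈ V, τ + 2 * Real.pi * I ∈ V := by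
    intro τ hτ
    have h1 : (τ + 2 * Real.pi * I).re = τ.re := by simp
    rw [hV, mem_ofPred_eq, h1]
    exact hτ
  -- the difference is constant
  obtain ⟨δ, hδ⟩ : ∃ δ : ℂ, ∀ τ ∈ V, h (τ + 2 * Real.pi * I) - h τ = δ := by
    have hd : ∀ τ ∈ V, HasDerivAt (fun τ => h (τ + 2 * Real.pi * I) - h τ)
        (deriv h (τ + 2 * Real.pi * I) - deriv h τ) τ := by
      intro τ hτ
      refine HasDerivAt.sub ?_ (hhan τ hτ).differentiableAt.hasDerivAt
      exact HasDerivAt.comp_add_const τ _ (hhan _ (hshift τ hτ)).differentiableAt.hasDerivAt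
    have hexp1 : ∀ τ ∈ V, exp (h (τ + 2 * Real.pi * I) - h τ) = 1 := by
      intro τ hτ
      have h1 := he hτ
      have h2 := he (hshift τ hτ)
      simp only [Function.comp_apply] at h1 h2
      rw [exp_sub, h1, h2, exp_periodic, div_self]
      rw [← h1]
      exact exp_ne_zero _
    refine hVo.exists_is_const_of_deriv_eq_zero hVconv.isPreconnected
      (f := fun τ => h (τ + 2 * Real.pi * I) - h τ)
      (fun τ hτ => (hd τ hτ).differentiableAt.differentiableWithinAt) ?_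
    intro τ hτ
    have h1 := (hd τ hτ).cexp
    have h2 : HasDerivAt (fun τ => exp (h (τ + 2 * Real.pi * I) - h τ)) 0 τ := by
      refine (hasDerivAt_const τ (1 : ℂ)).congr_of_eventuallyEq ?_
      filter_upwards [hVo.mem_nhds hτ] with w hw
      exact hexp1 w hw
    have h3 := h1.unique h2
    rw [hexp1 τ hτ, one_mul] at h3
    rw [(hd τ hτ).deriv, h3]
    rfl
  -- the mean as an integral of `h`
  have hmemV : ∀ (σ θ : ℝ), Real.log r₁ < σ → σ < Real.log R₁ → (σ : ℂ) + θ * I ∈ V := by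
    intro σ θ h1 h2
    rw [hV, mem_ofPred_eq]
    simpa using ⟨h1, h2⟩
  have hmean : ∀ σ : ℝ, Real.log r₁ < σ → σ < Real.log R₁ →
      Real.circleAverage (fun z => Real.log ‖v z‖) 0 (Real.exp σ) =
        (2 * Real.pi)⁻¹ * (∫ θ in (0 : ℝ)..(2 * Real.pi), h (σ + θ * I)).re := by
    intro σ h1 h2
    have hcont : Continuous fun θ : ℝ => h (σ + θ * I) := by
      rw [continuous_iff_continuousAt]
      intro θ
      exact ContinuousAt.comp (f := fun θ : ℝ => (σ : ℂ) + θ * I) (g := h)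
        (hhan _ (hmemV σ θ h1 h2)).continuousAt (by fun_prop)
    rw [Real.circleAverage_def, smul_eq_mul]
    congr 1
    have h3 : ∫ θ in (0 : ℝ)..(2 * Real.pi), Real.log ‖v (circleMap 0 (Real.exp σ) θ)‖ =
        ∫ θ in (0 : ℝ)..(2 * Real.pi), (h (σ + θ * I)).re := by
      refine intervalIntegral.integral_congr fun θ _ => ?_
      have h4 : circleMap 0 (Real.exp σ) θ = exp (σ + θ * I) := by
        rw [circleMap_zero, exp_add, ofReal_exp]
      have h5 := he (hmemV σ θ h1 h2)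
      simp only [Function.comp_apply] at h5
      rw [h4, ← h5, norm_exp, Real.log_exp]
    rw [h3]
    have h6 := (reCLM).intervalIntegral_comp_comm (hcont.intervalIntegrable 0 (2 * Real.pi))
      (μ := volume)
    simpa using h6
  -- Cauchy's theorem
  have hcauchy : ∀ σ₁ σ₂ : ℝ, Real.log r₁ < σ₁ → σ₁ < Real.log R₁ → Real.log r₁ < σ₂ →
      σ₂ < Real.log R₁ → (∫ θ in (0 : ℝ)..(2 * Real.pi), h (σ₂ + θ * I)) -
        (∫ θ in (0 : ℝ)..(2 * Real.pi), h (σ₁ + θ * I)) = (σ₂ - σ₁) * δ * (-I) := by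
    intro σ₁ σ₂ h1 h2 h3 h4
    have hrect := integral_boundary_rect_eq_zero_of_differentiableOn h (σ₁ : ℂ)
      (σ₂ + (2 * Real.pi : ℝ) * I) (by
        intro τ hτ
        apply DifferentiableAt.differentiableWithinAt
        refine (hhan τ ?_).differentiableAt
        have h5 : τ.re ∈ uIcc σ₁ σ₂ := by
          have := hτ.1
          simpa using this
        rw [hV, mem_ofPred_eq]
        rcases le_total σ₁ σ₂ with h6 | h6
        · rw [uIcc_of_le h6] at h5
          exact ⟨h1.trans_le h5.1, h5.2.trans_lt h4⟩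
        · rw [uIcc_of_ge h6] at h5
          exact ⟨h3.trans_le h5.1, h5.2.trans_lt h2⟩)
    have e1 : ((σ₂ : ℂ) + (2 * Real.pi : ℝ) * I).re = σ₂ := by simp
    have e2 : ((σ₂ : ℂ) + (2 * Real.pi : ℝ) * I).im = 2 * Real.pi := by simp
    rw [e1, e2] at hrect
    simp only [ofReal_re, ofReal_im, ofReal_zero, zero_mul, add_zero, smul_eq_mul] at hrect
    have e3 : ∫ x in σ₁..σ₂, h (x + (2 * Real.pi : ℝ) * I) =
        (∫ x in σ₁..σ₂, h x) + (σ₂ - σ₁) * δ := by
      have h5 : ∫ x in σ₁..σ₂, h (x + (2 * Real.pi : ℝ) * I) = ∫ x in σ₁..σ₂, (h x + δ) := by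
        refine intervalIntegral.integral_congr fun x hx => ?_
        have hxV : (x : ℂ) ∈ V := by
          rw [hV, mem_ofPred_eq, ofReal_re]
          rcases le_total σ₁ σ₂ with h6 | h6
          · rw [uIcc_of_le h6] at hx
            exact ⟨h1.trans_le hx.1, hx.2.trans_lt h4⟩
          · rw [uIcc_of_ge h6] at hx
            exact ⟨h3.trans_le hx.1, hx.2.trans_lt h2⟩
        have h7 := hδ x hxV
        rw [← h7]
        push_cast
        ring
      rw [h5, intervalIntegral.integral_add, intervalIntegral.integral_const]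
      · rw [real_smul]
        push_cast
        ring
      · apply ContinuousOn.intervalIntegrable
        intro x hx
        have hxV : (x : ℂ) ∈ V := by
          rw [hV, mem_ofPred_eq, ofReal_re]
          rcases le_total σ₁ σ₂ with h6 | h6
          · rw [uIcc_of_le h6] at hx
            exact ⟨h1.trans_le hx.1, hx.2.trans_lt h4⟩
          · rw [uIcc_of_ge h6] at hx
            exact ⟨h3.trans_le hx.1, hx.2.trans_lt h2⟩
        exact (ContinuousAt.comp (f := fun x : ℝ => (x : ℂ)) (g := h) (hhan _ hxV).continuousAt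
          (by fun_prop)).continuousWithinAt
      · exact intervalIntegrable_const
    rw [e3] at hrect
    have h8 : I * ((∫ θ in (0 : ℝ)..(2 * Real.pi), h (σ₂ + θ * I)) -
        (∫ θ in (0 : ℝ)..(2 * Real.pi), h (σ₁ + θ * I))) = (σ₂ - σ₁) * δ := by
      linear_combination hrect
    have h9 : I * I = -1 := I_mul_I
    linear_combination (-I) * h8 + ((∫ θ in (0 : ℝ)..(2 * Real.pi), h (σ₂ + θ * I)) -
        (∫ θ in (0 : ℝ)..(2 * Real.pi), h (σ₁ + θ * I))) * h9
  -- conclusion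
  set σ₀ : ℝ := (Real.log r₁ + Real.log R₁) / 2 with hσ₀
  have hσ₀1 : Real.log r₁ < σ₀ := by linarith
  have hσ₀2 : σ₀ < Real.log R₁ := by linarith
  refine ⟨(2 * Real.pi)⁻¹ * (∫ θ in (0 : ℝ)..(2 * Real.pi), h (σ₀ + θ * I)).re -
    σ₀ * ((2 * Real.pi)⁻¹ * (δ * (-I)).re), (2 * Real.pi)⁻¹ * (δ * (-I)).re, ?_⟩
  intro r hr1 hr2
  have hr0 : 0 < r := hr₁.trans hr1
  have h1 : Real.log r₁ < Real.log r := Real.log_lt_log hr₁ hr1
  have h2 : Real.log r < Real.log R₁ := Real.log_lt_log hr0 hr2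
  have h3 := hmean (Real.log r) h1 h2
  rw [Real.exp_log hr0] at h3
  rw [h3]
  have h4 := congrArg Complex.re (hcauchy σ₀ (Real.log r) hσ₀1 hσ₀2 h1 h2)
  have h5 : (((Real.log r : ℂ) - σ₀) * δ * (-I)).re = (Real.log r - σ₀) * (δ * (-I)).re := by
    rw [mul_assoc, ← ofReal_sub, re_ofReal_mul]
  rw [h5, sub_re] at h4
  linear_combination (2 * Real.pi)⁻¹ * h4

end Pool.Agent.H92.GGL

end

section

/-!
# Jensen's formula on a punctured disc
-/

open Complex MeasureTheory Metric Set Topology Filter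

namespace Pool.Agent.H92.GGL

/-- The order of a meromorphic function as an integer. -/
noncomputable def ordZ (u : ℂ → ℂ) (s : ℂ) : ℤ := (meromorphicOrderAt u s).untop₀

lemma ordZ_cast {u : ℂ → ℂ} {s : ℂ} (h : meromorphicOrderAt u s ≠ ⊤) :
    (ordZ u s : WithTop ℤ) = meromorphicOrderAt u s := by
  unfold ordZ
  exact WithTop.coe_untop₀_of_ne_top h

/-- There are finitely many zeros and poles in an annulus. -/
lemma finite_ordZ {u : ℂ → ℂ} {R₀ a b : ℝ} (ha : 0 < a) (hb : b < R₀)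
    (hu : ∀ z, 0 < ‖z‖ → ‖z‖ < R₀ → MeromorphicAt u z) :
    {s : ℂ | a ≤ ‖s‖ ∧ ‖s‖ ≤ b ∧ ordZ u s ≠ 0}.Finite := by
  set K : Set ℂ := {s : ℂ | a ≤ ‖s‖ ∧ ‖s‖ ≤ b} with hK
  have hKc : IsCompact K := by
    refine (isCompact_closedBall (0 : ℂ) b).of_isClosed_subset ?_ ?_
    · exact (isClosed_le continuous_const continuous_norm).inter
        (isClosed_le continuous_norm continuous_const)
    · intro s hs
      rw [mem_closedBall_zero_iff]
      exact hs.2
  have hm : MeromorphicOn u K := fun z hz => hu z (ha.trans_le hz.1) (hz.2.trans_lt hb)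
  refine ((MeromorphicOn.divisor u K).finiteSupport hKc).subset ?_
  rintro s ⟨h1, h2, h3⟩
  rw [Function.mem_support, MeromorphicOn.divisor_apply hm ⟨h1, h2⟩]
  exact h3

/-- The formula on an annulus. -/
lemma circleAverage_annulus {u : ℂ → ℂ} {R₀ r₁ R₁ : ℝ} (hr₁ : 0 < r₁) (hR₁ : R₁ < R₀)
    (hu : ∀ z, 0 < ‖z‖ → ‖z‖ < R₀ → MeromorphicAt u z)
    (ho : ∀ z, 0 < ‖z‖ → ‖z‖ < R₀ → meromorphicOrderAt u z ≠ ⊤)
    (S : Finset ℂ) (hS : ∀ s, s ∈ S ↔ (r₁ < ‖s‖ ∧ ‖s‖ < R₁) ∧ ordZ u s ≠ 0) :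
    ∃ a b : ℝ, ∀ r, r₁ < r → r < R₁ →
      Real.circleAverage (fun z => Real.log ‖u z‖) 0 r =
        a + b * Real.log r + ∑ s ∈ S, ordZ u s * Real.posLog (‖s‖ / r) := by
  set U : Set ℂ := {s : ℂ | r₁ < ‖s‖ ∧ ‖s‖ < R₁} with hU
  have hm : MeromorphicOn u U := fun z hz => hu z (hr₁.trans hz.1) (hz.2.trans hR₁)
  have hdiv : ∀ s, MeromorphicOn.divisor u U s = if s ∈ U then ordZ u s else 0 := by
    intro s
    split_ifs with h
    · rw [MeromorphicOn.divisor_apply hm h]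
      rfl
    · exact Function.locallyFinsuppWithin.apply_eq_zero_of_notMem _ h
  have hsupp : (MeromorphicOn.divisor u U).support ⊆ (S : Set ℂ) := by
    intro s hs
    rw [Function.mem_support, hdiv] at hs
    split_ifs at hs with h
    · exact (hS s).mpr ⟨h, hs⟩
    · exact absurd rfl hs
  have hfin : (MeromorphicOn.divisor u U).support.Finite := S.finite_toSet.subset hsupp
  obtain ⟨v, hv, hv0, hfv⟩ := hm.extract_zeros_poles
    (fun z => ho z (hr₁.trans z.2.1) (z.2.2.trans hR₁)) hfin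
  have hlog := MeromorphicOn.extract_zeros_poles_log hv0 hfv
  obtain ⟨a, b, hab⟩ := circleAverage_log_norm_affine (v := v) hr₁
    (fun z h1 h2 => hv z ⟨h1, h2⟩) (fun z h1 h2 => hv0 ⟨z, h1, h2⟩)
  refine ⟨a, b + ∑ s ∈ S, (ordZ u s : ℝ), ?_⟩
  intro r h1 h2
  have hr0 : 0 < r := hr₁.trans h1
  have hsum : ∑ᶠ s, (fun z : ℂ => (MeromorphicOn.divisor u U s : ℝ) * Real.log ‖z - s‖) =
      fun z => ∑ s ∈ S, (ordZ u s : ℝ) * Real.log ‖z - s‖ := by
    have h3 : ∑ᶠ s, (fun z : ℂ => (MeromorphicOn.divisor u U s : ℝ) * Real.log ‖z - s‖) =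
        ∑ s ∈ S, (fun z : ℂ => (MeromorphicOn.divisor u U s : ℝ) * Real.log ‖z - s‖) := by
      apply finsum_eq_sum_of_support_subset
      intro s hs
      apply hsupp
      rw [Function.mem_support] at hs ⊢
      intro h
      apply hs
      funext z
      rw [h]
      simp
    rw [h3]
    funext z
    rw [Finset.sum_apply]
    refine Finset.sum_congr rfl fun s hs => ?_
    have h4 : s ∈ U := ((hS s).mp hs).1
    rw [hdiv, if_pos h4]
  have hcongr : Real.circleAverage (fun z => Real.log ‖u z‖) 0 r =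
      Real.circleAverage ((fun z => ∑ s ∈ S, (ordZ u s : ℝ) * Real.log ‖z - s‖) +
        fun z => Real.log ‖v z‖) 0 r := by
    apply Real.circleAverage_congr_codiscreteWithin
    · rw [← hsum]
      refine Filter.EventuallyEq.filter_mono (l := codiscreteWithin U) hlog (codiscreteWithin_mono ?_)
      intro z hz
      rw [mem_sphere_zero_iff_norm, abs_of_pos hr0] at hz
      rw [hU, mem_ofPred_eq, hz]
      exact ⟨h1, h2⟩
    · exact hr0.ne'
  have hint1 : ∀ s : ℂ, CircleIntegrable (fun z => Real.log ‖z - s‖) 0 r := fun s =>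
    circleIntegrable_log_norm_sub_const r
  have hint : CircleIntegrable (fun z => ∑ s ∈ S, (ordZ u s : ℝ) * Real.log ‖z - s‖) 0 r := by
    refine CircleIntegrable.fun_sum S fun s _ => ?_
    exact (hint1 s).const_fun_smul (a := (ordZ u s : ℝ))
  have hintv : CircleIntegrable (fun z => Real.log ‖v z‖) 0 r := by
    apply MeromorphicOn.circleIntegrable_log_norm
    intro z hz
    rw [mem_sphere_zero_iff_norm, abs_of_pos hr0] at hz
    refine (hv z ?_).meromorphicAt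
    rw [hU, mem_ofPred_eq, hz]
    exact ⟨h1, h2⟩
  rw [hcongr, Real.circleAverage_add hint hintv, hab r h1 h2, Real.circleAverage_fun_sum]
  · have h4 : ∀ s ∈ S, Real.circleAverage (fun z => (ordZ u s : ℝ) * Real.log ‖z - s‖) 0 r =
        ordZ u s * (Real.log r + Real.posLog (‖s‖ / r)) := by
      intro s _
      have h5 := Real.circleAverage_fun_smul (a := (ordZ u s : ℝ))
        (f := fun z => Real.log ‖z - s‖) (c := 0) (R := r)
      simp only [smul_eq_mul] at h5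
      rw [h5, circleAverage_log_norm_sub_const_eq_log_radius_add_posLog hr0.ne', zero_sub, norm_neg,
        inv_mul_eq_div]
    rw [Finset.sum_congr rfl h4]
    simp only [mul_add, Finset.sum_add_distrib, ← Finset.sum_mul, add_mul]
    ring
  · intro s _
    exact (hint1 s).const_fun_smul (a := (ordZ u s : ℝ))

/-- **Jensen's formula on a punctured disc.** -/
theorem jensen_punctured {u : ℂ → ℂ} {R₀ R₁ : ℝ} (hR₁ : R₁ < R₀)
    (hu : ∀ z, 0 < ‖z‖ → ‖z‖ < R₀ → MeromorphicAt u z)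
    (ho : ∀ z, 0 < ‖z‖ → ‖z‖ < R₀ → meromorphicOrderAt u z ≠ ⊤) :
    ∃ A B : ℝ, ∀ r, 0 < r → r < R₁ → ∀ S : Finset ℂ, (∀ s ∈ S, ‖s‖ < R₁) →
      (∀ s, r < ‖s‖ → ‖s‖ < R₁ → ordZ u s ≠ 0 → s ∈ S) →
      Real.circleAverage (fun z => Real.log ‖u z‖) 0 r =
        A + B * Real.log r + ∑ s ∈ S, ordZ u s * Real.posLog (‖s‖ / r) := by
  classical
  rcases le_or_gt R₁ 0 with hle | hR1pos
  · exact ⟨0, 0, fun r h1 h2 => absurd (h1.trans h2) (not_lt.mpr hle)⟩
  -- the finite sets of zeros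
  have hfin : ∀ r : ℝ, 0 < r → {s : ℂ | (r < ‖s‖ ∧ ‖s‖ < R₁) ∧ ordZ u s ≠ 0}.Finite := by
    intro r hr
    refine (finite_ordZ hr hR₁ hu).subset ?_
    rintro s ⟨⟨h1, h2⟩, h3⟩
    exact ⟨h1.le, h2.le, h3⟩
  -- independence of the set
  have hindep : ∀ r, 0 < r → ∀ S : Finset ℂ, (∀ s ∈ S, ‖s‖ < R₁) →
      (∀ s, r < ‖s‖ → ‖s‖ < R₁ → ordZ u s ≠ 0 → s ∈ S) → ∀ S' : Finset ℂ,
      (∀ s ∈ S', ‖s‖ < R₁) → (∀ s, r < ‖s‖ → ‖s‖ < R₁ → ordZ u s ≠ 0 → s ∈ S') →
      ∑ s ∈ S, ordZ u s * Real.posLog (‖s‖ / r) = ∑ s ∈ S', ordZ u s * Real.posLog (‖s‖ / r) := by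
    intro r hr S hS1 hS2 S' hS'1 hS'2
    have hz : ∀ s, (ordZ u s : ℝ) * Real.posLog (‖s‖ / r) ≠ 0 → r < ‖s‖ ∧ ordZ u s ≠ 0 := by
      intro s hs
      refine ⟨?_, fun h => hs (by rw [h]; simp)⟩
      by_contra h
      apply hs
      have h1 : |‖s‖ / r| ≤ 1 := by
        rw [abs_of_nonneg (by positivity), div_le_one hr]
        exact not_lt.mp h
      rw [Real.posLog_eq_zero_iff _ |>.mpr h1, mul_zero]
    have h1 : ∀ T : Finset ℂ, (∀ s ∈ T, ‖s‖ < R₁) →
        (∀ s, r < ‖s‖ → ‖s‖ < R₁ → ordZ u s ≠ 0 → s ∈ T) →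
        ∑ s ∈ T, (ordZ u s : ℝ) * Real.posLog (‖s‖ / r) =
          ∑ s ∈ (hfin r hr).toFinset, (ordZ u s : ℝ) * Real.posLog (‖s‖ / r) := by
      intro T hT1 hT2
      symm
      apply Finset.sum_subset_zero_on_sdiff
      · intro s hs
        obtain ⟨⟨h1, h2⟩, h3⟩ := (hfin r hr).mem_toFinset.mp hs
        exact hT2 s h1 h2 h3
      · intro s hs
        rw [Finset.mem_sdiff] at hs
        by_contra h
        apply hs.2
        obtain ⟨h2, h3⟩ := hz s h
        exact (hfin r hr).mem_toFinset.mpr ⟨⟨h2, hT1 s hs.1⟩, h3⟩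
      · intro s _
        rfl
    rw [h1 S hS1 hS2, h1 S' hS'1 hS'2]
  -- the formula on annuli
  have hann : ∀ r₁ : ℝ, 0 < r₁ → ∃ a b : ℝ, ∀ r, r₁ < r → r < R₁ → ∀ S : Finset ℂ,
      (∀ s ∈ S, ‖s‖ < R₁) → (∀ s, r < ‖s‖ → ‖s‖ < R₁ → ordZ u s ≠ 0 → s ∈ S) →
      Real.circleAverage (fun z => Real.log ‖u z‖) 0 r =
        a + b * Real.log r + ∑ s ∈ S, ordZ u s * Real.posLog (‖s‖ / r) := by
    intro r₁ hr₁
    obtain ⟨a, b, hab⟩ := circleAverage_annulus hr₁ hR₁ hu ho (hfin r₁ hr₁).toFinset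
      (fun s => (hfin r₁ hr₁).mem_toFinset)
    refine ⟨a, b, fun r h1 h2 S hS1 hS2 => ?_⟩
    rw [hab r h1 h2]
    congr 1
    refine hindep r (hr₁.trans h1) _ ?_ ?_ S hS1 hS2
    · intro s hs
      exact ((hfin r₁ hr₁).mem_toFinset.mp hs).1.2
    · intro s h3 h4 h5
      exact (hfin r₁ hr₁).mem_toFinset.mpr ⟨⟨h1.trans h3, h4⟩, h5⟩
  -- reference points
  obtain ⟨A, B, hAB⟩ := hann (R₁ / 4) (by positivity)
  refine ⟨A, B, fun r h1 h2 S hS1 hS2 => ?_⟩
  obtain ⟨a, b, hab⟩ := hann (min (r / 2) (R₁ / 8)) (by positivity)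
  have hmin1 : min (r / 2) (R₁ / 8) < r := (min_le_left _ _).trans_lt (by linarith)
  have hmin2 : min (r / 2) (R₁ / 8) < R₁ / 3 := (min_le_right _ _).trans_lt (by linarith)
  have hmin3 : min (r / 2) (R₁ / 8) < R₁ / 2 := (min_le_right _ _).trans_lt (by linarith)
  have hT : ∀ (ρ : ℝ) (hρ : 0 < ρ), (∀ s ∈ (hfin ρ hρ).toFinset, ‖s‖ < R₁) ∧
      (∀ s, ρ < ‖s‖ → ‖s‖ < R₁ → ordZ u s ≠ 0 → s ∈ (hfin ρ hρ).toFinset) := by
    intro ρ hρ
    refine ⟨fun s hs => ((hfin ρ hρ).mem_toFinset.mp hs).1.2, fun s h3 h4 h5 => ?_⟩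
    exact (hfin ρ hρ).mem_toFinset.mpr ⟨⟨h3, h4⟩, h5⟩
  have h3pos : 0 < R₁ / 3 := by positivity
  have h2pos : 0 < R₁ / 2 := by positivity
  have e1 := hAB (R₁ / 3) (by linarith) (by linarith) _ (hT _ h3pos).1 (hT _ h3pos).2
  have e2 := hAB (R₁ / 2) (by linarith) (by linarith) _ (hT _ h2pos).1 (hT _ h2pos).2
  have e3 := hab (R₁ / 3) hmin2 (by linarith) _ (hT _ h3pos).1 (hT _ h3pos).2
  have e4 := hab (R₁ / 2) hmin3 (by linarith) _ (hT _ h2pos).1 (hT _ h2pos).2
  have e5 : A + B * Real.log (R₁ / 3) = a + b * Real.log (R₁ / 3) := by linarith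
  have e6 : A + B * Real.log (R₁ / 2) = a + b * Real.log (R₁ / 2) := by linarith
  have e7 : Real.log (R₁ / 3) < Real.log (R₁ / 2) := Real.log_lt_log h3pos (by linarith)
  have e8 : (B - b) * (Real.log (R₁ / 2) - Real.log (R₁ / 3)) = 0 := by linear_combination e6 - e5
  have e9 : B = b := by
    rcases mul_eq_zero.mp e8 with h | h
    · linarith
    · linarith
  have e10 : A = a := by
    rw [e9] at e5
    linarith
  rw [hab r hmin1 h2 S hS1 hS2, e9, e10]

end Pool.Agent.H92.GGL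

end

section

/-!
# Nevanlinna theory at a puncture: definitions

Circle means and counting functions near the puncture `0`, with the variable `x = log (1 / r)`.
-/

open Filter Topology MeasureTheory
open Pool.Agent.H92.GGL (ordZ)

noncomputable section

namespace Pool.Agent.H62.FC

/-- `u` is meromorphic and not identically zero on the punctured disc of radius `R₀`. -/
structure MeroPunct (R₀ : ℝ) (u : ℂ → ℂ) : Prop where
  mero : ∀ z, 0 < ‖z‖ → ‖z‖ < R₀ → MeromorphicAt u z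
  ord : ∀ z, 0 < ‖z‖ → ‖z‖ < R₀ → meromorphicOrderAt u z ≠ ⊤

/-- The weighted counting function of the annulus `r < ‖s‖ < R₁`. -/
def cnt (w : ℂ → ℝ) (R₁ r : ℝ) : ℝ :=
  ∑ᶠ s ∈ {s : ℂ | r < ‖s‖ ∧ ‖s‖ < R₁}, w s * Real.log (‖s‖ / r)

/-- The weight `w` has locally finite support in the punctured disc of radius `R₀`. -/
def LocFin (R₀ : ℝ) (w : ℂ → ℝ) : Prop :=
  ∀ r b : ℝ, 0 < r → b < R₀ → {s : ℂ | r ≤ ‖s‖ ∧ ‖s‖ ≤ b ∧ w s ≠ 0}.Finite

/-- The mean on the circle of radius `exp (-x)`. -/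
def mean (g : ℂ → ℝ) (x : ℝ) : ℝ := Real.circleAverage g 0 (Real.exp (-x))

/-- The characteristic function near the puncture. -/
def nevT (u : ℂ → ℂ) (R₁ x : ℝ) : ℝ :=
  mean (fun z => Real.posLog ‖u z‖) x + cnt (fun s => max (-(ordZ u s : ℝ)) 0) R₁ (Real.exp (-x))

/-- `S` is negligible with respect to `T`, outside a set of finite measure. -/
def Negl (R₁ : ℝ) (T S : ℝ → ℝ) : Prop :=
  ∀ ε : ℝ, 0 < ε → ∃ (C : ℝ) (E : Set ℝ), volume E ≠ ⊤ ∧
    ∀ x, Real.exp (-x) < R₁ → x ∉ E → S x ≤ ε * T x + C * (1 + |x|)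

/-- The Wronskian. -/
def wronsk {n : ℕ} (u : Fin n → ℂ → ℂ) (z : ℂ) : ℂ :=
  (Matrix.of fun i j : Fin n => iteratedDeriv i (u j) z).det

/-- `f` is, up to a discrete set, meromorphic at `0`. -/
def PunctMero (f : ℂ → ℂ) : Prop :=
  ∃ v : ℂ → ℂ, MeromorphicAt v 0 ∧ ∀ᶠ z in 𝓝[≠] (0 : ℂ), f =ᶠ[𝓝[≠] z] v

end Pool.Agent.H62.FC

end
end
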