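import Mathlib

/-! The parts of this file: H95.GC.ThreeCircles, H97.SE.ParHol, G3.C.Cheb, TH.Osg. -/

section

set_option autoImplicit false

namespace Pool.Agent.H95.GC

open Set MeasureTheory

/-- Hadamard's three circles theorem. -/
theorem three_circles (f : ℂ → ℂ) (c : ℂ) (r₁ r₂ r₃ R M₁ M₃ : ℝ) (h₁ : 0 < r₁) (h₁₂ : r₁ < r₂)
    (h₂₃ : r₂ < r₃) (h₃ : r₃ < R) (hf : DifferentiableOn ℂ f (Metric.ball c R))
    (hM₁ : 0 < M₁) (hM₃ : 0 < M₃)
    (hb₁ : ∀ z, dist z c = r₁ → ‖f z‖ ≤ M₁) (hb₃ : ∀ z, dist z c = r₃ → ‖f z‖ ≤ M₃)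
    (z : ℂ) (hz : dist z c = r₂) :
    ‖f z‖ ≤ M₁ ^ (Real.log (r₃ / r₂) / Real.log (r₃ / r₁))
      * M₃ ^ (Real.log (r₂ / r₁) / Real.log (r₃ / r₁)) := by
  have hr2 : 0 < r₂ := h₁.trans h₁₂
  have hr3 : 0 < r₃ := hr2.trans h₂₃
  -- the composed function
  set g : ℂ → ℂ := fun w => f (c + Complex.exp w) with hg
  have hdist : ∀ w : ℂ, dist (c + Complex.exp w) c = Real.exp w.re := by
    intro w
    rw [dist_eq_norm, add_sub_cancel_left, Complex.norm_exp]
  have hlul : Real.log r₁ < Real.log r₃ := Real.log_lt_log h₁ (h₁₂.trans h₂₃)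
  have hgd : ∀ w : ℂ, w.re < Real.log R → DifferentiableAt ℂ g w := by
    intro w hw
    have hmem : c + Complex.exp w ∈ Metric.ball c R := by
      rw [Metric.mem_ball, hdist]
      have : Real.exp w.re < Real.exp (Real.log R) := Real.exp_lt_exp.mpr hw
      rwa [Real.exp_log (hr3.trans h₃)] at this
    have h1 : DifferentiableAt ℂ f (c + Complex.exp w) :=
      hf.differentiableAt (Metric.isOpen_ball.mem_nhds hmem)
    exact DifferentiableAt.comp w h1 (by fun_prop)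
  have hlR : Real.log r₃ < Real.log R := Real.log_lt_log hr3 h₃
  have hdc : DiffContOnCl ℂ g (Complex.HadamardThreeLines.verticalStrip (Real.log r₁) (Real.log r₃)) := by
    apply DifferentiableOn.diffContOnCl
    intro w hw
    apply DifferentiableAt.differentiableWithinAt
    apply hgd
    have hcl : closure (Complex.HadamardThreeLines.verticalStrip (Real.log r₁) (Real.log r₃)) ⊆
        Complex.re ⁻¹' (Set.Icc (Real.log r₁) (Real.log r₃)) := by
      apply closure_minimal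
      · intro x hx
        exact Set.Ioo_subset_Icc_self hx
      · exact IsClosed.preimage Complex.continuous_re isClosed_Icc
    exact lt_of_le_of_lt (hcl hw).2 hlR
  obtain ⟨w, hw⟩ : ∃ w : ℂ, Complex.exp w = z - c := by
    have hne : z - c ≠ 0 := by
      intro h0
      rw [dist_eq_norm, h0, norm_zero] at hz
      exact hr2.ne hz
    exact ⟨Complex.log (z - c), Complex.exp_log hne⟩
  have hwre : w.re = Real.log r₂ := by
    have h := hdist w
    rw [hw, add_sub_cancel, hz] at h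
    rw [h, Real.log_exp]
  have hbd : BddAbove ((norm ∘ g) '' Complex.HadamardThreeLines.verticalClosedStrip (Real.log r₁) (Real.log r₃)) := by
    have hK : IsCompact (Metric.closedBall c r₃) := isCompact_closedBall c r₃
    have hcont : ContinuousOn (fun z => ‖f z‖) (Metric.closedBall c r₃) :=
      (hf.continuousOn.mono (Metric.closedBall_subset_ball h₃)).norm
    have hb := hK.bddAbove_image hcont
    refine hb.mono ?_
    rintro _ ⟨x, hx, rfl⟩
    refine ⟨c + Complex.exp x, ?_, rfl⟩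
    rw [Metric.mem_closedBall, hdist]
    have : Real.exp x.re ≤ Real.exp (Real.log r₃) := Real.exp_le_exp.mpr hx.2
    rwa [Real.exp_log hr3] at this
  have hzs : w ∈ Complex.HadamardThreeLines.verticalClosedStrip (Real.log r₁) (Real.log r₃) := by
    change w.re ∈ Set.Icc (Real.log r₁) (Real.log r₃)
    rw [hwre]
    exact ⟨(Real.log_lt_log h₁ h₁₂).le, (Real.log_lt_log hr2 h₂₃).le⟩
  have key := Complex.HadamardThreeLines.norm_le_interp_of_mem_verticalClosedStrip' (f := g)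
    (z := w) (a := M₁) (b := M₃) hlul hzs hdc hbd
    (by
      intro x hx
      have hx' : x.re = Real.log r₁ := hx
      apply hb₁
      rw [hdist, hx', Real.exp_log h₁])
    (by
      intro x hx
      have hx' : x.re = Real.log r₃ := hx
      apply hb₃
      rw [hdist, hx', Real.exp_log hr3])
  have hgw : g w = f z := by
    simp only [hg]
    rw [hw]
    congr 1
    ring
  rw [hgw, hwre] at key
  have hpos : 0 < Real.log r₃ - Real.log r₁ := sub_pos.mpr hlul
  have e1 : 1 - (Real.log r₂ - Real.log r₁) / (Real.log r₃ - Real.log r₁)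
      = Real.log (r₃ / r₂) / Real.log (r₃ / r₁) := by
    rw [Real.log_div hr3.ne' hr2.ne', Real.log_div hr3.ne' h₁.ne']
    field_simp
    ring
  have e2 : (Real.log r₂ - Real.log r₁) / (Real.log r₃ - Real.log r₁)
      = Real.log (r₂ / r₁) / Real.log (r₃ / r₁) := by
    rw [Real.log_div hr2.ne' h₁.ne', Real.log_div hr3.ne' h₁.ne']
  rw [e1, e2] at key
  exact key

end Pool.Agent.H95.GC

end

section

/-!
# Project SE, module `ParHol` : holomorphy of parameter integrals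

`z0 ∈ U`, choose `r > 0` with `closedBall z0 (2r) ⊆ U` and the majorant `g` valid there.  Cauchy's
estimate (`Complex.norm_deriv_le_of_forall_mem_sphere_norm_le`) gives `|∂_z F(z,s)| ≤ g(s)/r` for
`|z - z0| < r`, `s ∈ S`; `hasDerivAt_integral_of_dominated_loc_of_deriv_le` (measurability of
`s ↦ ∂_z F(z0, s)`: limit of difference quotients, e.g. `n (F(z0+1/n, s) - F(z0, s))`, a.e. strongly
measurable as a limit, `aestronglyMeasurable_of_tendsto_ae`).
-/

set_option autoImplicit false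
open MeasureTheory Set

namespace Pool.Agent.H97.SE

theorem par_hol {U : Set ℂ} (hU : IsOpen U) {S : Set ℝ} (hS : MeasurableSet S)
    {F : ℂ → ℝ → ℂ} (hF : ∀ s ∈ S, DifferentiableOn ℂ (fun z => F z s) U)
    (hm : ∀ z ∈ U, AEStronglyMeasurable (F z) (volume.restrict S))
    (hb : ∀ z0 ∈ U, ∃ r : ℝ, 0 < r ∧ ∃ g : ℝ → ℝ, IntegrableOn g S ∧
      ∀ z ∈ U, ‖z - z0‖ < r → ∀ s ∈ S, ‖F z s‖ ≤ g s) :
    DifferentiableOn ℂ (fun z => ∫ s in S, F z s) U := by
  intro z0 hz0
  obtain ⟨r, hr, g, hg, hgb⟩ := hb z0 hz0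
  obtain ⟨ε, hε, hεU⟩ := Metric.isOpen_iff.1 hU z0 hz0
  obtain ⟨δ, hδ⟩ : ∃ δ, δ = min r ε / 2 := ⟨_, rfl⟩
  have hδ0 : 0 < δ := by rw [hδ]; have := lt_min hr hε; linarith
  have hδr : 2 * δ ≤ r := by rw [hδ]; linarith [min_le_left r ε]
  have hδε : 2 * δ ≤ ε := by rw [hδ]; linarith [min_le_right r ε]
  -- points near `z0`
  have hnear : ∀ w : ℂ, ‖w - z0‖ < 2 * δ → w ∈ U ∧ ‖w - z0‖ < r := by
    intro w hw
    exact ⟨hεU (by rw [Metric.mem_ball, dist_eq_norm]; linarith), by linarith⟩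
  have hder : ∀ s ∈ S, ∀ z ∈ Metric.ball z0 δ, ‖deriv (fun z => F z s) z‖ ≤ g s / δ := by
    intro s hs z hz
    rw [Metric.mem_ball, dist_eq_norm] at hz
    have hball : Metric.closedBall z δ ⊆ U := by
      intro w hw
      rw [Metric.mem_closedBall, dist_eq_norm] at hw
      refine (hnear w ?_).1
      calc ‖w - z0‖ = ‖(w - z) + (z - z0)‖ := by ring_nf
        _ ≤ ‖w - z‖ + ‖z - z0‖ := norm_add_le _ _
        _ < 2 * δ := by linarith
    apply Complex.norm_deriv_le_of_forall_mem_sphere_norm_le hδ0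
    · exact ((hF s hs).mono hball).diffContOnCl_ball le_rfl
    · intro w hw
      have hw' := Metric.sphere_subset_closedBall hw
      have hwU := hball hw'
      rw [Metric.mem_sphere, dist_eq_norm] at hw
      refine hgb w hwU ?_ s hs
      refine (hnear w ?_).2
      calc ‖w - z0‖ = ‖(w - z) + (z - z0)‖ := by ring_nf
        _ ≤ ‖w - z‖ + ‖z - z0‖ := norm_add_le _ _
        _ < 2 * δ := by linarith
  have hdiff : ∀ s ∈ S, ∀ z ∈ Metric.ball z0 δ,
      HasDerivAt (fun z => F z s) (deriv (fun z => F z s) z) z := by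
    intro s hs z hz
    rw [Metric.mem_ball, dist_eq_norm] at hz
    have hzU : z ∈ U := (hnear z (by linarith)).1
    exact ((hF s hs).differentiableAt (hU.mem_nhds hzU)).hasDerivAt
  have hmeas' : AEStronglyMeasurable (fun s => deriv (fun z => F z s) z0)
      (volume.restrict S) := by
    obtain ⟨t, ht⟩ : ∃ t : ℕ → ℂ, t = fun n : ℕ => (((δ / ((n : ℝ) + 1)) : ℝ) : ℂ) := ⟨_, rfl⟩
    have ht0 : ∀ n, t n ≠ 0 := by
      intro n
      rw [ht]
      have : (0 : ℝ) < δ / ((n : ℝ) + 1) := by positivity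
      exact Complex.ofReal_ne_zero.2 this.ne'
    have htn : ∀ n, ‖t n‖ ≤ δ := by
      intro n
      rw [ht]
      have h0 : (0 : ℝ) < δ / ((n : ℝ) + 1) := by positivity
      simp only
      rw [Complex.norm_of_nonneg h0.le]
      exact div_le_self hδ0.le (by have : (0 : ℝ) ≤ n := Nat.cast_nonneg n; linarith)
    have htlim : Filter.Tendsto t Filter.atTop (nhdsWithin 0 {0}ᶜ) := by
      apply tendsto_nhdsWithin_of_tendsto_nhds_of_eventually_within
      · have h1 : Filter.Tendsto (fun n : ℕ => δ * (1 / ((n : ℝ) + 1))) Filter.atTop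
            (nhds (δ * 0)) := tendsto_one_div_add_atTop_nhds_zero_nat.const_mul δ
        rw [mul_zero] at h1
        have h2 := (Complex.continuous_ofReal.tendsto 0).comp h1
        rw [Complex.ofReal_zero] at h2
        rw [ht]
        refine h2.congr fun n => ?_
        simp only [Function.comp]
        rw [mul_one_div]
      · exact Filter.Eventually.of_forall fun n => ht0 n
    apply aestronglyMeasurable_of_tendsto_ae Filter.atTop
      (f := fun n s => (t n)⁻¹ • (F (z0 + t n) s - F z0 s))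
    · intro n
      have hU' : z0 + t n ∈ U := by
        refine (hnear _ ?_).1
        rw [add_sub_cancel_left]
        linarith [htn n]
      exact ((hm _ hU').sub (hm z0 hz0)).const_smul ((t n)⁻¹)
    · refine (ae_restrict_iff' hS).2 (Filter.Eventually.of_forall fun s hs => ?_)
      have h1 := hdiff s hs z0 (Metric.mem_ball_self hδ0)
      rw [hasDerivAt_iff_tendsto_slope_zero] at h1
      exact h1.comp htlim
  have hint : Integrable (F z0) (volume.restrict S) := by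
    refine Integrable.mono' hg (hm z0 hz0) ?_
    refine (ae_restrict_iff' hS).2 (Filter.Eventually.of_forall fun s hs => ?_)
    exact hgb z0 hz0 (by rw [sub_self, norm_zero]; exact hr) s hs
  have key := hasDerivAt_integral_of_dominated_loc_of_deriv_le (μ := volume.restrict S)
    (F := F) (F' := fun z s => deriv (fun z => F z s) z) (x₀ := z0) (s := Metric.ball z0 δ)
    (bound := fun s => g s / δ) (Metric.ball_mem_nhds z0 hδ0)
    (Filter.eventually_of_mem (hU.mem_nhds hz0) fun z hz => hm z hz) hint hmeas'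
    ((ae_restrict_iff' hS).2 (Filter.Eventually.of_forall fun s hs => hder s hs))
    (Integrable.div_const hg δ)
    ((ae_restrict_iff' hS).2 (Filter.Eventually.of_forall fun s hs => hdiff s hs))
  exact key.2.differentiableAt.differentiableWithinAt

end Pool.Agent.H97.SE

end

section

/-!
# G3 C Cheb: extension in a real parameter

`f s z` is continuous for `s` in a real interval and `z` in a ball, holomorphic in `z`.  If for `z` in a small ball it extends holomorphically to complex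
`s`, then this holds in the whole ball.  The Fourier coefficients `cf n z` of `θ ↦ f (s₀ + δ cos θ) z` are holomorphic in `z`, bounded, and `O(2^(-n))`
in the small ball, so `O(q^n)` for some `q < 1` in the larger ball (three circles); the Chebyshev series converges for complex `s` near `s₀`.
-/

set_option autoImplicit false

open Topology Filter Metric Set MeasureTheory

namespace Pool.Agent.G3.C

/-- the Fourier coefficients of `θ ↦ f (s₀ + δ cos θ) z` -/
noncomputable def cf (f : ℝ → ℂ → ℂ) (s₀ δ : ℝ) (n : ℤ) (z : ℂ) : ℂ :=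
  (1 / (2 * Real.pi) : ℝ) • ∫ θ in (0 : ℝ)..2 * Real.pi, Complex.exp (-(n * θ * Complex.I)) * f (s₀ + δ * Real.cos θ) z

private theorem cs_mem {s₀ δ : ℝ} (hδ : 0 ≤ δ) (θ : ℝ) : s₀ + δ * Real.cos θ ∈ Icc (s₀ - δ) (s₀ + δ) := by
  have h1 := Real.neg_one_le_cos θ
  have h2 := Real.cos_le_one θ
  constructor <;> nlinarith only [hδ, h1, h2]

private theorem cf_neg (f : ℝ → ℂ → ℂ) (s₀ δ : ℝ) (n : ℤ) (z : ℂ) : cf f s₀ δ (-n) z = cf f s₀ δ n z := by
  unfold cf
  congr 1
  have h := intervalIntegral.integral_comp_sub_left (a := 0) (b := 2 * Real.pi)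
    (fun θ : ℝ => Complex.exp (-((n : ℂ) * θ * Complex.I)) * f (s₀ + δ * Real.cos θ) z) (2 * Real.pi)
  rw [sub_self, sub_zero] at h
  rw [← h]
  refine intervalIntegral.integral_congr fun θ _ => ?_
  rw [Real.cos_two_pi_sub]
  congr 1
  rw [show -((n : ℂ) * ((2 * Real.pi - θ : ℝ) : ℂ) * Complex.I) = -((((-n : ℤ)) : ℂ) * θ * Complex.I) + ((-n : ℤ) : ℂ) * (2 * Real.pi * Complex.I) by
    push_cast; ring, Complex.exp_add, Complex.exp_int_mul_two_pi_mul_I, mul_one]

private theorem cf_cont {f : ℝ → ℂ → ℂ} {s₀ δ : ℝ} (hδ : 0 ≤ δ) {U : Set ℂ}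
    (hc : ContinuousOn (fun p : ℝ × ℂ => f p.1 p.2) (Icc (s₀ - δ) (s₀ + δ) ×ˢ U)) {z : ℂ} (hz : z ∈ U) :
    Continuous fun θ : ℝ => f (s₀ + δ * Real.cos θ) z := by
  have h1 : Continuous fun θ : ℝ => ((s₀ + δ * Real.cos θ, z) : ℝ × ℂ) := by fun_prop
  exact hc.comp_continuous h1 fun θ => ⟨cs_mem hδ θ, hz⟩

private theorem cf_le {f : ℝ → ℂ → ℂ} {s₀ δ : ℝ} (hδ : 0 ≤ δ) {z : ℂ} {M : ℝ} (hM : ∀ s ∈ Icc (s₀ - δ) (s₀ + δ), ‖f s z‖ ≤ M) (n : ℤ) :
    ‖cf f s₀ δ n z‖ ≤ M := by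
  unfold cf
  have hpi := Real.pi_pos
  rw [norm_smul, Real.norm_of_nonneg (by positivity)]
  have h1 : ‖∫ θ in (0 : ℝ)..2 * Real.pi, Complex.exp (-(n * θ * Complex.I)) * f (s₀ + δ * Real.cos θ) z‖ ≤ M * |2 * Real.pi - 0| := by
    refine intervalIntegral.norm_integral_le_of_norm_le_const fun θ _ => ?_
    rw [norm_mul]
    have h2 : ‖Complex.exp (-((n : ℂ) * θ * Complex.I))‖ = 1 := by
      rw [show -((n : ℂ) * θ * Complex.I) = ((-(n * θ) : ℝ) : ℂ) * Complex.I by push_cast; ring, Complex.norm_exp_ofReal_mul_I]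
    rw [h2, one_mul]
    exact hM _ (cs_mem hδ θ)
  rw [sub_zero, abs_of_pos (by positivity)] at h1
  calc 1 / (2 * Real.pi) * ‖∫ θ in (0 : ℝ)..2 * Real.pi, Complex.exp (-(n * θ * Complex.I)) * f (s₀ + δ * Real.cos θ) z‖
      ≤ 1 / (2 * Real.pi) * (M * (2 * Real.pi)) := by gcongr
    _ = M := by field_simp

private theorem cf_hol {f : ℝ → ℂ → ℂ} {s₀ δ : ℝ} (hδ : 0 ≤ δ) {U : Set ℂ} (hU : IsOpen U)
    (hc : ContinuousOn (fun p : ℝ × ℂ => f p.1 p.2) (Icc (s₀ - δ) (s₀ + δ) ×ˢ U))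
    (hh : ∀ s ∈ Icc (s₀ - δ) (s₀ + δ), DifferentiableOn ℂ (f s) U) (n : ℤ) : DifferentiableOn ℂ (cf f s₀ δ n) U := by
  have hpi := Real.pi_pos
  suffices hm : DifferentiableOn ℂ (fun z => ∫ θ in (0 : ℝ)..2 * Real.pi, Complex.exp (-(n * θ * Complex.I)) * f (s₀ + δ * Real.cos θ) z) U from
    hm.const_smul (1 / (2 * Real.pi) : ℝ)
  have e : (fun z => ∫ θ in (0 : ℝ)..2 * Real.pi, Complex.exp (-(n * θ * Complex.I)) * f (s₀ + δ * Real.cos θ) z) =
      fun z => ∫ θ in Ioc (0 : ℝ) (2 * Real.pi), Complex.exp (-(n * θ * Complex.I)) * f (s₀ + δ * Real.cos θ) z := by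
    funext z
    rw [intervalIntegral.integral_of_le (by positivity)]
  rw [e]
  have hcz : ∀ z ∈ U, Continuous fun θ : ℝ => Complex.exp (-((n : ℂ) * θ * Complex.I)) * f (s₀ + δ * Real.cos θ) z := fun z hz =>
    Continuous.mul (by fun_prop) (cf_cont hδ hc hz)
  refine Pool.Agent.H97.SE.par_hol hU measurableSet_Ioc (F := fun z θ => Complex.exp (-((n : ℂ) * θ * Complex.I)) * f (s₀ + δ * Real.cos θ) z)
    (fun θ _ => (hh _ (cs_mem hδ θ)).const_mul _) (fun z hz => (hcz z hz).aestronglyMeasurable) fun z₀ hz₀ => ?_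
  obtain ⟨r, hr, hrU⟩ := Metric.nhds_basis_closedBall.mem_iff.1 (hU.mem_nhds hz₀)
  have hK : IsCompact (Icc (s₀ - δ) (s₀ + δ) ×ˢ closedBall z₀ r) := isCompact_Icc.prod (isCompact_closedBall z₀ r)
  obtain ⟨C, hC⟩ := hK.exists_bound_of_continuousOn (hc.mono (prod_mono le_rfl hrU))
  refine ⟨r, hr, fun _ => C, integrableOn_const measure_Ioc_lt_top.ne , fun z _ hz θ _ => ?_⟩
  rw [norm_mul]
  have h2 : ‖Complex.exp (-((n : ℂ) * θ * Complex.I))‖ = 1 := by
    rw [show -((n : ℂ) * θ * Complex.I) = ((-(n * θ) : ℝ) : ℂ) * Complex.I by push_cast; ring, Complex.norm_exp_ofReal_mul_I]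
  rw [h2, one_mul]
  exact hC (s₀ + δ * Real.cos θ, z) ⟨cs_mem hδ θ, by rw [mem_closedBall, dist_eq_norm]; exact hz.le⟩

/-- the bound of the coefficients where `f` extends -/
private theorem cf_geo {f : ℝ → ℂ → ℂ} {s₀ δ : ℝ} (hδ : 0 < δ) {z : ℂ} {g : ℂ → ℂ} {C : ℝ}
    (hg : DifferentiableOn ℂ g (ball (s₀ : ℂ) (2 * δ))) (hgC : ∀ ζ ∈ closedBall (s₀ : ℂ) (3 / 2 * δ), ‖g ζ‖ ≤ C)
    (hgf : ∀ s ∈ Icc (s₀ - δ) (s₀ + δ), g s = f s z) (n : ℕ) : ‖cf f s₀ δ n z‖ ≤ C * (1 / 2) ^ n := by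
  have hpi := Real.pi_pos
  -- the Joukowski map
  obtain ⟨J, hJ⟩ : ∃ J : ℂ → ℂ, ∀ w, J w = s₀ + δ * ((w + w⁻¹) / 2) := ⟨_, fun w => rfl⟩
  have hJn : ∀ w : ℂ, 1 ≤ ‖w‖ → ‖w‖ ≤ 2 → J w ∈ closedBall (s₀ : ℂ) (3 / 2 * δ) := by
    intro w h1 h2
    rw [mem_closedBall, dist_eq_norm, hJ, add_sub_cancel_left, norm_mul, Complex.norm_real, Real.norm_of_nonneg hδ.le, norm_div]
    have h3 : ‖w + w⁻¹‖ ≤ 2 + 1 := by
      refine (norm_add_le _ _).trans (add_le_add h2 ?_)
      rw [norm_inv]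
      exact inv_le_one_of_one_le₀ h1
    have h4 : ‖(2 : ℂ)‖ = 2 := by simp
    rw [h4]
    nlinarith only [hδ, h3]
  have hsub : closedBall (s₀ : ℂ) (3 / 2 * δ) ⊆ ball (s₀ : ℂ) (2 * δ) := closedBall_subset_ball (by linarith only [hδ])
  have hJd : ∀ w : ℂ, w ≠ 0 → DifferentiableAt ℂ J w := by
    intro w hw
    have : J = fun w => (s₀ : ℂ) + δ * ((w + w⁻¹) / 2) := funext hJ
    rw [this]
    fun_prop (disch := exact hw)
  obtain ⟨H, hH⟩ : ∃ H : ℂ → ℂ, ∀ w, H w = (w ^ (n + 1))⁻¹ * g (J w) := ⟨_, fun w => rfl⟩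
  have hHd : ∀ w : ℂ, 1 ≤ ‖w‖ → ‖w‖ ≤ 2 → DifferentiableAt ℂ H w := by
    intro w h1 h2
    have hw : w ≠ 0 := by
      intro h
      rw [h, norm_zero] at h1
      linarith
    have e : H = fun w => (w ^ (n + 1))⁻¹ * g (J w) := funext hH
    rw [e]
    have h3 : DifferentiableAt ℂ g (J w) := hg.differentiableAt (isOpen_ball.mem_nhds (hsub (hJn w h1 h2)))
    exact ((differentiableAt_id.pow _).inv (pow_ne_zero _ hw)).mul (h3.comp w (hJd w hw))
  have hann : (∮ w in C(0, 2), H w) = ∮ w in C(0, 1), H w := by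
    refine Complex.circleIntegral_eq_of_differentiable_on_annulus_off_countable one_pos one_le_two countable_empty ?_ ?_
    · intro w hw
      have h2 : ‖w‖ ≤ 2 := by simpa using hw.1
      have h1 : 1 ≤ ‖w‖ := by simpa using hw.2
      exact (hHd w h1 h2).continuousAt.continuousWithinAt
    · rintro w ⟨⟨h2, h1⟩, -⟩
      have h2' : ‖w‖ ≤ 2 := by
        have : ‖w‖ < 2 := by simpa using h2
        exact this.le
      have h1' : 1 ≤ ‖w‖ := by
        have : 1 < ‖w‖ := by simpa using h1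
        exact this.le
      exact hHd w h1' h2'
  have h1 : (∮ w in C(0, 1), H w) = Complex.I * ∫ θ in (0 : ℝ)..2 * Real.pi, Complex.exp (-(((n : ℤ) : ℂ) * θ * Complex.I)) * f (s₀ + δ * Real.cos θ) z := by
    rw [circleIntegral, ← intervalIntegral.integral_const_mul]
    refine intervalIntegral.integral_congr fun θ _ => ?_
    simp only [deriv_circleMap, smul_eq_mul]
    have e1 : circleMap 0 1 θ = Complex.exp (θ * Complex.I) := by simp [circleMap]
    rw [e1, hH]
    have e2 : J (Complex.exp (θ * Complex.I)) = ((s₀ + δ * Real.cos θ : ℝ) : ℂ) := by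
      rw [hJ, ← Complex.exp_neg]
      push_cast
      rw [Complex.cos]
      ring_nf
    rw [e2, hgf _ (cs_mem hδ.le θ), ← Complex.exp_nat_mul, ← Complex.exp_neg]
    have e3 : Complex.exp (θ * Complex.I) * Complex.exp (-(((n + 1 : ℕ) : ℂ) * (θ * Complex.I))) = Complex.exp (-(((n : ℤ) : ℂ) * θ * Complex.I)) := by
      rw [← Complex.exp_add]
      congr 1
      push_cast
      ring
    calc Complex.exp (θ * Complex.I) * Complex.I * (Complex.exp (-(((n + 1 : ℕ) : ℂ) * (θ * Complex.I))) * f (s₀ + δ * Real.cos θ) z)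
        = Complex.I * ((Complex.exp (θ * Complex.I) * Complex.exp (-(((n + 1 : ℕ) : ℂ) * (θ * Complex.I)))) * f (s₀ + δ * Real.cos θ) z) := by ring
      _ = _ := by rw [e3]
  have h2 : ‖∮ w in C(0, 2), H w‖ ≤ 2 * Real.pi * 2 * (((2 : ℝ) ^ (n + 1))⁻¹ * C) := by
    refine circleIntegral.norm_integral_le_of_norm_le_const (by norm_num) fun w hw => ?_
    have hw2 : ‖w‖ = 2 := by simpa using hw
    rw [hH, norm_mul, norm_inv, norm_pow, hw2]
    gcongr
    exact hgC _ (hJn w (by rw [hw2]; norm_num) hw2.le)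
  rw [hann, h1, norm_mul, Complex.norm_I, one_mul] at h2
  unfold cf
  rw [norm_smul, Real.norm_of_nonneg (by positivity)]
  calc 1 / (2 * Real.pi) * ‖∫ θ in (0 : ℝ)..2 * Real.pi, Complex.exp (-(((n : ℤ) : ℂ) * θ * Complex.I)) * f (s₀ + δ * Real.cos θ) z‖
      ≤ 1 / (2 * Real.pi) * (2 * Real.pi * 2 * (((2 : ℝ) ^ (n + 1))⁻¹ * C)) := by gcongr
    _ = C * (1 / 2) ^ n := by
      rw [pow_succ, one_div, one_div, inv_pow]
      field_simp

/-- Fourier inversion -/
private theorem cf_sum {f : ℝ → ℂ → ℂ} {s₀ δ : ℝ} {z : ℂ} (hc : Continuous fun θ : ℝ => f (s₀ + δ * Real.cos θ) z)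
    (hs : Summable fun n : ℕ => cf f s₀ δ n z) (θ : ℝ) :
    HasSum (fun n : ℕ => 2 * cf f s₀ δ n z * Complex.cos (n * θ)) (f (s₀ + δ * Real.cos θ) z + cf f s₀ δ 0 z) := by
  have : Fact (0 < 2 * Real.pi) := ⟨Real.two_pi_pos⟩
  have hper : Function.Periodic (fun θ : ℝ => f (s₀ + δ * Real.cos θ) z) (2 * Real.pi) := fun θ => by
    simp only [Real.cos_add_two_pi]
  obtain ⟨h, hh⟩ : ∃ h : C(AddCircle (2 * Real.pi), ℂ), ∀ θ : ℝ, h θ = f (s₀ + δ * Real.cos θ) z := by
    refine ⟨⟨hper.lift, ?_⟩, fun θ => hper.lift_coe θ⟩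
    exact continuous_coinduced_dom.2 hc
  have hcoef : ∀ n : ℤ, fourierCoeff h n = cf f s₀ δ n z := by
    intro n
    rw [fourierCoeff_eq_intervalIntegral _ n 0, zero_add]
    unfold cf
    congr 1
    refine intervalIntegral.integral_congr fun θ _ => ?_
    rw [fourier_coe_apply, hh, smul_eq_mul]
    congr 2
    have hpi : (Real.pi : ℂ) ≠ 0 := by exact_mod_cast Real.pi_ne_zero
    push_cast
    field_simp
  have hsum : Summable (fourierCoeff h) := by
    have e : fourierCoeff h = fun n : ℤ => cf f s₀ δ n z := funext hcoef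
    rw [e]
    refine Summable.of_nat_of_neg hs ?_
    simp only [cf_neg]
    exact hs
  have h1 := (has_pointwise_sum_fourier_series_of_summable hsum (θ : AddCircle (2 * Real.pi))).nat_add_neg
  rw [hh] at h1
  simp only [hcoef, smul_eq_mul] at h1
  have h2 : (fourier (0 : ℤ)) ((θ : ℝ) : AddCircle (2 * Real.pi)) = 1 := by simp
  rw [h2, mul_one] at h1
  have e : (fun n : ℕ => 2 * cf f s₀ δ n z * Complex.cos (n * θ)) = fun n : ℕ => cf f s₀ δ n z * (fourier (n : ℤ)) ((θ : ℝ) : AddCircle (2 * Real.pi)) +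
      cf f s₀ δ (-(n : ℤ)) z * (fourier (-(n : ℤ))) ((θ : ℝ) : AddCircle (2 * Real.pi)) := by
    funext n
    rw [cf_neg, fourier_coe_apply, fourier_coe_apply, Complex.cos]
    have hpi : (Real.pi : ℂ) ≠ 0 := by exact_mod_cast Real.pi_ne_zero
    have e1 : (2 * Real.pi * Complex.I * ((n : ℤ) : ℂ) * θ / ((2 * Real.pi : ℝ) : ℂ) : ℂ) = n * θ * Complex.I := by
      push_cast
      field_simp
    have e2 : (2 * Real.pi * Complex.I * ((-(n : ℤ) : ℤ) : ℂ) * θ / ((2 * Real.pi : ℝ) : ℂ) : ℂ) = -(n * θ) * Complex.I := by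
      push_cast
      field_simp
    rw [e1, e2]
    ring
  rw [e]
  exact h1

/-- the growth of the Chebyshev polynomials near `0` -/
private theorem cb_le {ρ : ℝ} (hρ : 1 ≤ ρ) {x : ℂ} (hx : 2 * ‖x‖ ≤ ρ - ρ⁻¹) (n : ℕ) : ‖(Polynomial.Chebyshev.T ℂ n).eval x‖ ≤ ρ ^ n := by
  have hρ0 : 0 < ρ := by linarith
  have hinv : 0 < ρ⁻¹ := inv_pos.2 hρ0
  induction n using Nat.twoStepInduction with
  | zero => simp
  | one =>
    simp only [Nat.cast_one, Polynomial.Chebyshev.T_one, Polynomial.eval_X, pow_one]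
    linarith only [hρ, hx, hinv]
  | more n h1 h2 =>
    have e : Polynomial.Chebyshev.T ℂ ((n + 2 : ℕ) : ℤ) = 2 * Polynomial.X * Polynomial.Chebyshev.T ℂ ((n + 1 : ℕ) : ℤ) - Polynomial.Chebyshev.T ℂ (n : ℤ) := by
      have := Polynomial.Chebyshev.T_add_two ℂ (n : ℤ)
      push_cast
      exact this
    rw [e]
    simp only [Polynomial.eval_sub, Polynomial.eval_mul, Polynomial.eval_X, Polynomial.eval_ofNat]
    refine (norm_sub_le _ _).trans ?_
    rw [norm_mul, norm_mul]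
    have h3 : ‖(2 : ℂ)‖ = 2 := by simp
    rw [h3]
    have h4 : 2 * ‖x‖ * ‖(Polynomial.Chebyshev.T ℂ ((n + 1 : ℕ) : ℤ)).eval x‖ ≤ (ρ - ρ⁻¹) * ρ ^ (n + 1) := by
      gcongr
      linarith [norm_nonneg x]
    have h5 : (ρ - ρ⁻¹) * ρ ^ (n + 1) + ρ ^ n = ρ ^ (n + 2) := by
      have : ρ⁻¹ * ρ ^ (n + 1) = ρ ^ n := by rw [pow_succ']; field_simp
      rw [sub_mul, this]
      ring
    linarith only [h1, h4, h5]

/-- the coefficients are small on the large ball -/
private theorem cf_small {f : ℝ → ℂ → ℂ} {s₀ δ : ℝ} (hδ : 0 < δ) {z₁ : ℂ} {R r₁ R' : ℝ} (hr₁ : 0 < r₁) (h₁ : r₁ < R') (hR' : R' < R)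
    (hc : ContinuousOn (fun p : ℝ × ℂ => f p.1 p.2) (Icc (s₀ - δ) (s₀ + δ) ×ˢ ball z₁ R))
    (hh : ∀ s ∈ Icc (s₀ - δ) (s₀ + δ), DifferentiableOn ℂ (f s) (ball z₁ R)) {C : ℝ}
    (hC : ∀ z ∈ closedBall z₁ r₁, ∀ n : ℕ, ‖cf f s₀ δ n z‖ ≤ C * (1 / 2) ^ n) :
    ∃ K q : ℝ, 0 < K ∧ 0 < q ∧ q < 1 ∧ ∀ z ∈ ball z₁ R', ∀ n : ℕ, ‖cf f s₀ δ n z‖ ≤ K * q ^ n := by
  obtain ⟨R₃, hR₃⟩ : ∃ R₃, R₃ = (R' + R) / 2 := ⟨_, rfl⟩
  have h3 : R' < R₃ := by rw [hR₃]; linarith
  have h4 : R₃ < R := by rw [hR₃]; linarith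
  have hR'0 : 0 < R' := hr₁.trans h₁
  have hK : IsCompact (Icc (s₀ - δ) (s₀ + δ) ×ˢ closedBall z₁ R₃) := isCompact_Icc.prod (isCompact_closedBall z₁ R₃)
  obtain ⟨M, hM⟩ := hK.exists_bound_of_continuousOn (hc.mono (prod_mono le_rfl (closedBall_subset_ball h4)))
  obtain ⟨K, hKd⟩ : ∃ K, K = max 1 (max C M) := ⟨_, rfl⟩
  have hK1 : 1 ≤ K := by rw [hKd]; exact le_max_left _ _
  have hKC : C ≤ K := by rw [hKd]; exact (le_max_left _ _).trans (le_max_right _ _)
  have hKM : M ≤ K := by rw [hKd]; exact (le_max_right _ _).trans (le_max_right _ _)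
  have hK0 : 0 < K := by linarith
  have hlog : 0 < Real.log (R₃ / r₁) := Real.log_pos (by rw [one_lt_div hr₁]; linarith)
  obtain ⟨α, hα⟩ : ∃ α, α = Real.log (R₃ / R') / Real.log (R₃ / r₁) := ⟨_, rfl⟩
  obtain ⟨β, hβ⟩ : ∃ β, β = Real.log (R' / r₁) / Real.log (R₃ / r₁) := ⟨_, rfl⟩
  have hα0 : 0 < α := by
    rw [hα]
    exact div_pos (Real.log_pos (by rw [one_lt_div hR'0]; exact h3)) hlog
  have hαβ : α + β = 1 := by
    have hR₃0 : 0 < R₃ := by linarith
    rw [hα, hβ, ← add_div, ← Real.log_mul (by positivity) (by positivity), div_mul_div_cancel₀ hR'0.ne', div_self hlog.ne']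
  refine ⟨K, (1 / 2) ^ α, hK0, by positivity, Real.rpow_lt_one (by norm_num) (by norm_num) hα0, fun z hz n => ?_⟩
  have hd := cf_hol hδ.le isOpen_ball hc hh n
  have hsph : ∀ w ∈ sphere z₁ R', ‖cf f s₀ δ n w‖ ≤ K * ((1 / 2) ^ α) ^ n := by
    intro w hw
    have h5 := Pool.Agent.H95.GC.three_circles (cf f s₀ δ n) z₁ r₁ R' R₃ R (K * (1 / 2) ^ n) K hr₁ h₁ h3 h4 hd (by positivity) hK0
      (fun w hw => (hC w (by rw [mem_closedBall, hw]) n).trans (by gcongr))
      (fun w hw => (cf_le hδ.le (fun s hs => hM (s, w) ⟨hs, by rw [mem_closedBall, hw]⟩) n).trans hKM) w hw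
    refine h5.trans (le_of_eq ?_)
    rw [← hα, ← hβ, Real.mul_rpow hK0.le (by positivity), mul_assoc, mul_comm (((1 / 2 : ℝ) ^ n) ^ α), ← mul_assoc, ← Real.rpow_add hK0, hαβ,
      Real.rpow_one, ← Real.rpow_natCast, ← Real.rpow_natCast, ← Real.rpow_mul (by norm_num), ← Real.rpow_mul (by norm_num), mul_comm α]
  refine Complex.norm_le_of_forall_mem_frontier_norm_le (isBounded_ball (x := z₁) (r := R')) ?_ ?_ (subset_closure hz)
  · refine DifferentiableOn.diffContOnCl ?_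
    rw [closure_ball _ hR'0.ne']
    exact hd.mono (closedBall_subset_ball hR')
  · intro w hw
    rw [frontier_ball _ hR'0.ne'] at hw
    exact hsph w hw

end Pool.Agent.G3.C

end

section

/-!
# TH Osg: bounded separately holomorphic functions of two variables are analytic

Let `f : ℂ × ℂ → E` be bounded by `M` on `ball (a, b) r` (sup norm), holomorphic in each variable.  By the Schwarz lemma `f` is jointly
continuous.  With `X (θ, φ) = a + ρ e^(iθ)`, `Y (θ, φ) = b + ρ e^(iφ)` in the Banach algebra `𝓑` of the bounded continuous functions `ℝ × ℝ → ℂ`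
the Cauchy formula (twice) says `f (z, τ) = L ((X - z)⁻¹ (Y - τ)⁻¹)` for a continuous linear map `L : 𝓑 → E`, and the inversion in `𝓑` is analytic.
-/

set_option autoImplicit false

open Topology Filter Metric

namespace Pool.Agent.TH

private theorem osg_cont {E : Type*} [NormedAddCommGroup E] [NormedSpace ℂ E] {f : ℂ × ℂ → E} {a b : ℂ} {r M : ℝ}
    (hM : ∀ z ∈ ball a r, ∀ τ ∈ ball b r, ‖f (z, τ)‖ ≤ M) (h1 : ∀ τ ∈ ball b r, DifferentiableOn ℂ (fun z => f (z, τ)) (ball a r))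
    (h2 : ∀ z ∈ ball a r, DifferentiableOn ℂ (fun τ => f (z, τ)) (ball b r)) : ContinuousOn f (ball a r ×ˢ ball b r) := by
  rintro ⟨z0, τ0⟩ ⟨hz0, hτ0⟩
  simp only at hz0 hτ0
  have hz0' : dist z0 a < r := hz0
  set s : ℝ := r - dist z0 a with hs
  have hs0 : 0 < s := by linarith
  have hsub : ball z0 s ⊆ ball a r := by
    intro w hw
    have hw' : dist w z0 < s := hw
    have := dist_triangle w z0 a
    rw [mem_ball]
    linarith
  have key : ∀ z ∈ ball z0 s, ∀ τ ∈ ball b r, dist (f (z, τ)) (f (z0, τ)) ≤ (2 * M) / s * dist z z0 := by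
    intro z hz τ hτ
    refine Complex.dist_le_div_mul_dist_of_mapsTo_ball (f := fun z => f (z, τ)) ((h1 τ hτ).mono hsub) ?_ hz
    intro w hw
    rw [mem_closedBall, dist_eq_norm]
    calc ‖f (w, τ) - f (z0, τ)‖ ≤ ‖f (w, τ)‖ + ‖f (z0, τ)‖ := norm_sub_le _ _
      _ ≤ M + M := add_le_add (hM w (hsub hw) τ hτ) (hM z0 hz0 τ hτ)
      _ = 2 * M := by ring
  have hc : ContinuousAt (fun τ => f (z0, τ)) τ0 := ((h2 z0 hz0).differentiableAt (isOpen_ball.mem_nhds hτ0)).continuousAt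
  refine ContinuousAt.continuousWithinAt ?_
  show Tendsto f (𝓝 (z0, τ0)) (𝓝 (f (z0, τ0)))
  rw [tendsto_iff_dist_tendsto_zero]
  have ht : Tendsto (fun p : ℂ × ℂ => (2 * M) / s * dist p.1 z0 + dist (f (z0, p.2)) (f (z0, τ0))) (𝓝 (z0, τ0)) (𝓝 0) := by
    have e1 : Tendsto (fun p : ℂ × ℂ => (2 * M) / s * dist p.1 z0) (𝓝 (z0, τ0)) (𝓝 ((2 * M) / s * dist z0 z0)) :=
      ((continuous_const.mul (continuous_fst.dist continuous_const)).tendsto (z0, τ0))
    have e2 : Tendsto (fun p : ℂ × ℂ => dist (f (z0, p.2)) (f (z0, τ0))) (𝓝 (z0, τ0)) (𝓝 0) := by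
      have e3 : Tendsto (fun p : ℂ × ℂ => f (z0, p.2)) (𝓝 (z0, τ0)) (𝓝 (f (z0, τ0))) :=
        (show Tendsto (fun τ => f (z0, τ)) (𝓝 τ0) (𝓝 (f (z0, τ0))) from hc).comp (continuous_snd.tendsto (z0, τ0))
      exact tendsto_iff_dist_tendsto_zero.1 e3
    have e4 := e1.add e2
    simpa using e4
  refine squeeze_zero' (Eventually.of_forall fun _ => dist_nonneg) ?_ ht
  have hev : ∀ᶠ p : ℂ × ℂ in 𝓝 (z0, τ0), p.1 ∈ ball z0 s ∧ p.2 ∈ ball b r :=
    ((continuous_fst.tendsto (z0, τ0)).eventually (ball_mem_nhds z0 hs0)).and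
      ((continuous_snd.tendsto (z0, τ0)).eventually (isOpen_ball.mem_nhds hτ0))
  filter_upwards [hev] with p hp
  obtain ⟨z, τ⟩ := p
  exact (dist_triangle _ (f (z0, τ)) _).trans (add_le_add (key z hp.1 τ hp.2) le_rfl)

/-- the functional `g ↦ ∫∫ g K` -/
private theorem osg_fun {E : Type*} [NormedAddCommGroup E] [NormedSpace ℂ E] {K : ℝ × ℝ → E} (hK : Continuous K) {B : ℝ} (hB : ∀ p, ‖K p‖ ≤ B) :
    ∃ L : (BoundedContinuousFunction (ℝ × ℝ) ℂ) →L[ℂ] E, ∀ g, L g = ∫ θ in (0:ℝ)..2 * Real.pi, ∫ φ in (0:ℝ)..2 * Real.pi, g (θ, φ) • K (θ, φ) := by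
  have hcont : ∀ g : BoundedContinuousFunction (ℝ × ℝ) ℂ, Continuous (fun p : ℝ × ℝ => g p • K p) := fun g => g.continuous.smul hK
  have hc1 : ∀ (g : BoundedContinuousFunction (ℝ × ℝ) ℂ) (θ : ℝ), Continuous (fun φ : ℝ => g (θ, φ) • K (θ, φ)) := fun g θ =>
    (hcont g).comp (by fun_prop : Continuous fun φ : ℝ => ((θ, φ) : ℝ × ℝ))
  have hc2 : ∀ g : BoundedContinuousFunction (ℝ × ℝ) ℂ, Continuous (fun θ : ℝ => ∫ φ in (0:ℝ)..2 * Real.pi, g (θ, φ) • K (θ, φ)) := by
    intro g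
    refine intervalIntegral.continuous_parametric_intervalIntegral_of_continuous' ?_ 0 (2 * Real.pi)
    exact hcont g
  let L0 : (BoundedContinuousFunction (ℝ × ℝ) ℂ) →ₗ[ℂ] E :=
    { toFun := fun g => ∫ θ in (0:ℝ)..2 * Real.pi, ∫ φ in (0:ℝ)..2 * Real.pi, g (θ, φ) • K (θ, φ)
      map_add' := by
        intro g h
        rw [← intervalIntegral.integral_add ((hc2 g).intervalIntegrable _ _) ((hc2 h).intervalIntegrable _ _)]
        congr 1
        funext θ
        rw [← intervalIntegral.integral_add ((hc1 g θ).intervalIntegrable _ _) ((hc1 h θ).intervalIntegrable _ _)]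
        congr 1
        funext φ
        rw [BoundedContinuousFunction.add_apply, add_smul]
      map_smul' := by
        intro c g
        simp only [RingHom.id_apply]
        rw [← intervalIntegral.integral_smul]
        congr 1
        funext θ
        rw [← intervalIntegral.integral_smul]
        congr 1
        funext φ
        rw [BoundedContinuousFunction.smul_apply, smul_assoc] }
  have hpi : (0:ℝ) ≤ 2 * Real.pi := by positivity
  refine ⟨L0.mkContinuous ((2 * Real.pi) * (2 * Real.pi) * B) ?_, fun g => rfl⟩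
  intro g
  show ‖∫ θ in (0:ℝ)..2 * Real.pi, ∫ φ in (0:ℝ)..2 * Real.pi, g (θ, φ) • K (θ, φ)‖ ≤ _
  have hin : ∀ θ : ℝ, ‖∫ φ in (0:ℝ)..2 * Real.pi, g (θ, φ) • K (θ, φ)‖ ≤ (‖g‖ * B) * |2 * Real.pi - 0| := by
    intro θ
    refine intervalIntegral.norm_integral_le_of_norm_le_const ?_
    intro φ _
    rw [norm_smul]
    exact mul_le_mul (g.norm_coe_le_norm _) (hB _) (norm_nonneg _) (norm_nonneg _)
  have hout := intervalIntegral.norm_integral_le_of_norm_le_const (a := (0:ℝ)) (b := 2 * Real.pi)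
    (f := fun θ => ∫ φ in (0:ℝ)..2 * Real.pi, g (θ, φ) • K (θ, φ)) (C := (‖g‖ * B) * |2 * Real.pi - 0|) (fun θ _ => hin θ)
  refine hout.trans (le_of_eq ?_)
  rw [sub_zero, abs_of_nonneg hpi]
  ring

/-- inversion in the algebra of bounded continuous functions -/
private theorem osg_inv {u : BoundedContinuousFunction (ℝ × ℝ) ℂ} (hu : IsUnit u) (p : ℝ × ℝ) : (Ring.inverse u) p = (u p)⁻¹ := by
  have h := Ring.mul_inverse_cancel u hu
  have h2 : u p * (Ring.inverse u) p = 1 := by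
    rw [← BoundedContinuousFunction.mul_apply, h]; rfl
  exact (inv_eq_of_mul_eq_one_right h2).symm

private theorem osg_unit {c : ℂ} {ρ : ℝ} (hρ : 0 < ρ) (π : ℝ × ℝ → ℝ) (hπ : Continuous π) :
    ∃ u : BoundedContinuousFunction (ℝ × ℝ) ℂ, IsUnit u ∧ ∀ p, u p = circleMap c ρ (π p) - c := by
  have hn : ∀ θ : ℝ, ‖circleMap c ρ θ - c‖ = ρ := by
    intro θ
    rw [← dist_eq_norm]
    have := circleMap_mem_sphere c hρ.le θ
    exact this
  have hne : ∀ θ : ℝ, circleMap c ρ θ - c ≠ 0 := by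
    intro θ h0
    have := hn θ
    rw [h0, norm_zero] at this
    exact hρ.ne this
  have hct : Continuous (fun p : ℝ × ℝ => circleMap c ρ (π p) - c) := ((continuous_circleMap c ρ).comp hπ).sub continuous_const
  let u : BoundedContinuousFunction (ℝ × ℝ) ℂ := BoundedContinuousFunction.ofNormedAddCommGroup (fun p => circleMap c ρ (π p) - c) hct ρ
    (fun p => (hn _).le)
  let v : BoundedContinuousFunction (ℝ × ℝ) ℂ := BoundedContinuousFunction.ofNormedAddCommGroup (fun p => (circleMap c ρ (π p) - c)⁻¹)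
    (hct.inv₀ fun p => hne _) ρ⁻¹ (fun p => by rw [norm_inv, hn])
  refine ⟨u, ?_, fun p => rfl⟩
  refine IsUnit.of_mul_eq_one v ?_
  ext p
  show (circleMap c ρ (π p) - c) * (circleMap c ρ (π p) - c)⁻¹ = 1
  exact mul_inv_cancel₀ (hne _)

theorem osgood {E : Type*} [NormedAddCommGroup E] [NormedSpace ℂ E] [CompleteSpace E] {f : ℂ × ℂ → E} {a b : ℂ} {r M : ℝ} (hr : 0 < r)
    (hM : ∀ z ∈ ball a r, ∀ τ ∈ ball b r, ‖f (z, τ)‖ ≤ M) (h1 : ∀ τ ∈ ball b r, DifferentiableOn ℂ (fun z => f (z, τ)) (ball a r))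
    (h2 : ∀ z ∈ ball a r, DifferentiableOn ℂ (fun τ => f (z, τ)) (ball b r)) : AnalyticAt ℂ f (a, b) := by
  have hfc := osg_cont hM h1 h2
  set ρ : ℝ := r / 2 with hρd
  have hρ : 0 < ρ := by positivity
  have hρr : ρ < r := by rw [hρd]; linarith
  have ha : ∀ θ, circleMap a ρ θ ∈ ball a r := fun θ => by
    have h := circleMap_mem_sphere a hρ.le θ
    rw [mem_ball, mem_sphere.1 h]; exact hρr
  have hb : ∀ θ, circleMap b ρ θ ∈ ball b r := fun θ => by
    have h := circleMap_mem_sphere b hρ.le θ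
    rw [mem_ball, mem_sphere.1 h]; exact hρr
  have hHc : Continuous (fun p : ℝ × ℝ => f (circleMap a ρ p.1, circleMap b ρ p.2)) := by
    have hg : Continuous (fun p : ℝ × ℝ => ((circleMap a ρ p.1, circleMap b ρ p.2) : ℂ × ℂ)) :=
      ((continuous_circleMap a ρ).comp continuous_fst).prodMk ((continuous_circleMap b ρ).comp continuous_snd)
    exact hfc.comp_continuous hg (fun p => ⟨ha _, hb _⟩)
  let K : ℝ × ℝ → E := fun p => (deriv (circleMap a ρ) p.1 * deriv (circleMap b ρ) p.2) • f (circleMap a ρ p.1, circleMap b ρ p.2)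
  have hder : ∀ c : ℂ, Continuous (deriv (circleMap c ρ)) := by
    intro c
    have : deriv (circleMap c ρ) = fun θ => circleMap 0 ρ θ * Complex.I := by
      funext θ; exact deriv_circleMap c ρ θ
    rw [this]
    exact (continuous_circleMap 0 ρ).mul continuous_const
  have hdn : ∀ (c : ℂ) (θ : ℝ), ‖deriv (circleMap c ρ) θ‖ = ρ := by
    intro c θ
    rw [deriv_circleMap, norm_mul, Complex.norm_I, mul_one, norm_circleMap_zero, abs_of_pos hρ]
  have hK : Continuous K := (((hder a).comp continuous_fst).mul ((hder b).comp continuous_snd)).smul hHc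
  have hKB : ∀ p, ‖K p‖ ≤ ρ * ρ * M := by
    intro p
    show ‖(deriv (circleMap a ρ) p.1 * deriv (circleMap b ρ) p.2) • f (circleMap a ρ p.1, circleMap b ρ p.2)‖ ≤ _
    rw [norm_smul, norm_mul, hdn, hdn]
    exact mul_le_mul_of_nonneg_left (hM _ (ha _) _ (hb _)) (by positivity)
  obtain ⟨L, hL⟩ := osg_fun hK hKB
  obtain ⟨u, hu, hu'⟩ := osg_unit (c := a) hρ Prod.fst continuous_fst
  obtain ⟨v, hv, hv'⟩ := osg_unit (c := b) hρ Prod.snd continuous_snd
  let U : ℂ × ℂ → BoundedContinuousFunction (ℝ × ℝ) ℂ := fun p => u - (p.1 - a) • (1 : BoundedContinuousFunction (ℝ × ℝ) ℂ)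
  let V : ℂ × ℂ → BoundedContinuousFunction (ℝ × ℝ) ℂ := fun p => v - (p.2 - b) • (1 : BoundedContinuousFunction (ℝ × ℝ) ℂ)
  have hU0 : U (a, b) = u := by show u - (a - a) • _ = u; rw [sub_self, zero_smul, sub_zero]
  have hV0 : V (a, b) = v := by show v - (b - b) • _ = v; rw [sub_self, zero_smul, sub_zero]
  have hUa : AnalyticAt ℂ U (a, b) := analyticAt_const.sub ((analyticAt_fst.sub analyticAt_const).smul analyticAt_const)
  have hVa : AnalyticAt ℂ V (a, b) := analyticAt_const.sub ((analyticAt_snd.sub analyticAt_const).smul analyticAt_const)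
  have hUi : AnalyticAt ℂ (fun p => Ring.inverse (U p)) (a, b) := by
    have h := analyticAt_inverse (𝕜 := ℂ) hu.unit
    rw [IsUnit.unit_spec, ← hU0] at h
    exact h.comp hUa
  have hVi : AnalyticAt ℂ (fun p => Ring.inverse (V p)) (a, b) := by
    have h := analyticAt_inverse (𝕜 := ℂ) hv.unit
    rw [IsUnit.unit_spec, ← hV0] at h
    exact h.comp hVa
  have hW : AnalyticAt ℂ (fun p => L (Ring.inverse (U p) * Ring.inverse (V p))) (a, b) :=
    (L.analyticAt _).comp (hUi.mul hVi)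
  have hWc : AnalyticAt ℂ (fun p => ((2 * Real.pi * Complex.I : ℂ)⁻¹ * (2 * Real.pi * Complex.I : ℂ)⁻¹) •
      L (Ring.inverse (U p) * Ring.inverse (V p))) (a, b) := analyticAt_const.smul hW
  refine hWc.congr ?_
  have evU : ∀ᶠ p in 𝓝 (a, b), IsUnit (U p) := by
    have h := hUa.continuousAt.eventually (Units.isOpen.mem_nhds (show U (a, b) ∈ {x | IsUnit x} by rw [hU0]; exact hu))
    exact h
  have evV : ∀ᶠ p in 𝓝 (a, b), IsUnit (V p) := by
    have h := hVa.continuousAt.eventually (Units.isOpen.mem_nhds (show V (a, b) ∈ {x | IsUnit x} by rw [hV0]; exact hv))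
    exact h
  have evB : ∀ᶠ p : ℂ × ℂ in 𝓝 (a, b), p.1 ∈ ball a ρ ∧ p.2 ∈ ball b ρ :=
    ((continuous_fst.tendsto (a, b)).eventually (ball_mem_nhds a hρ)).and ((continuous_snd.tendsto (a, b)).eventually (ball_mem_nhds b hρ))
  filter_upwards [evU, evV, evB] with p hpU hpV hpB
  obtain ⟨z, τ⟩ := p
  obtain ⟨hz, hτ⟩ := hpB
  simp only at hz hτ
  have hpi0 : (2 * Real.pi * Complex.I : ℂ) ≠ 0 := Complex.two_pi_I_ne_zero
  -- the Cauchy formulas
  have hzr : τ ∈ ball b r := ball_subset_ball hρr.le hτ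
  have c1 : (∮ ζ in C(a, ρ), (ζ - z)⁻¹ • f (ζ, τ)) = (2 * Real.pi * Complex.I : ℂ) • f (z, τ) :=
    DifferentiableOn.circleIntegral_sub_inv_smul (f := fun ζ => f (ζ, τ)) ((h1 τ hzr).mono (closedBall_subset_ball hρr)) hz
  have c2 : ∀ θ, (∮ σ in C(b, ρ), (σ - τ)⁻¹ • f (circleMap a ρ θ, σ)) = (2 * Real.pi * Complex.I : ℂ) • f (circleMap a ρ θ, τ) := fun θ =>
    DifferentiableOn.circleIntegral_sub_inv_smul (f := fun σ => f (circleMap a ρ θ, σ)) ((h2 _ (ha θ)).mono (closedBall_subset_ball hρr)) hτ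
  have hLv : L (Ring.inverse (U (z, τ)) * Ring.inverse (V (z, τ))) =
      (2 * Real.pi * Complex.I : ℂ) • (2 * Real.pi * Complex.I : ℂ) • f (z, τ) := by
    rw [hL, ← c1, circleIntegral, ← intervalIntegral.integral_smul]
    congr 1
    funext θ
    rw [smul_comm (2 * Real.pi * Complex.I : ℂ), smul_comm (2 * Real.pi * Complex.I : ℂ), ← c2 θ, circleIntegral, ← smul_assoc,
      ← intervalIntegral.integral_smul]
    congr 1
    funext φ
    rw [BoundedContinuousFunction.mul_apply, osg_inv hpU, osg_inv hpV]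
    have eU : (U (z, τ)) (θ, φ) = circleMap a ρ θ - z := by
      show u (θ, φ) - (z - a) * 1 = _
      rw [hu' (θ, φ)]; ring
    have eV : (V (z, τ)) (θ, φ) = circleMap b ρ φ - τ := by
      show v (θ, φ) - (τ - b) * 1 = _
      rw [hv' (θ, φ)]; ring
    rw [eU, eV]
    show _ • ((deriv (circleMap a ρ) θ * deriv (circleMap b ρ) φ) • f (circleMap a ρ θ, circleMap b ρ φ)) = _
    simp only [smul_smul, smul_eq_mul]
    congr 1
    ring
  show _ • L (Ring.inverse (U (z, τ)) * Ring.inverse (V (z, τ))) = f (z, τ)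
  rw [hLv, smul_smul, smul_smul]
  have : (2 * Real.pi * Complex.I : ℂ)⁻¹ * (2 * Real.pi * Complex.I : ℂ)⁻¹ * (2 * Real.pi * Complex.I : ℂ) * (2 * Real.pi * Complex.I : ℂ) = 1 := by
    field_simp
  rw [this, one_smul]

end Pool.Agent.TH

end
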