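import Pool.Agent.H94.G4T.G3.Defs
import Pool.Agent.H94.G4T.H36.BP.WdA_1
import Pool.Agent.H94.G4T.H62.EF.PrA
import Pool.Agent.H94.G4T.M04
import Pool.Agent.H94.G4T.M22
import Pool.Agent.H94.G4T.M29
import Pool.Agent.H94.G4T.M49
import Pool.Agent.H94.G4T.M74

/-! The parts of this file: G3.C.ZCount, G3.E.Bs, H22.WL.Proj, AD.F.Sep, G3.C.HankelU, H62.FC.GradedField, H62.FC.Main, G3.F.LiftH, G3.Z.Circ, G3.C.HankelJ. -/

section

/-!
# G3 C ZCount: the number of zeros of a linear form on a curve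

Jensen's inequality: if the circle mean of `log ‖h‖` with centre `z₁` and radius `R` is at most `log ‖h z₁‖ + n log 2` then the entire function `h` has at most `n` zeros
in `closedBall z₁ (R / 2)`, in the form `h = q g` with a polynomial `q` of degree at most `n` and `g` without zeros there.
-/

set_option autoImplicit false

open Topology Filter Metric Set

namespace Pool.Agent.G3.C

open Pool.Agent.H36.BP (EN wd)

variable {N : ℕ}

private theorem zc_int {h : ℂ → ℂ} (hh : Differentiable ℂ h) (z₁ : ℂ) (R : ℝ) : CircleIntegrable (fun z => Real.log ‖h z‖) z₁ R :=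
  MeromorphicOn.circleIntegrable_log_norm fun z _ => (hh.analyticAt z).meromorphicAt

/-- Jensen: the excess is nonnegative -/
private theorem zc_nonneg {h : ℂ → ℂ} (hh : Differentiable ℂ h) {z₁ : ℂ} (h0 : h z₁ ≠ 0) {R : ℝ} (hR : 0 < R) :
    Real.log ‖h z₁‖ ≤ Real.circleAverage (fun z => Real.log ‖h z‖) z₁ R := by
  have hana : AnalyticOnNhd ℂ h (closedBall z₁ |R|) := fun z _ => hh.analyticAt z
  rw [AnalyticOnNhd.circleAverage_log_norm hR.ne' hana h0]
  have h1 : 0 ≤ ∑ᶠ u, (MeromorphicOn.divisor h (closedBall z₁ |R|) u : ℝ) * Real.log (R * ‖z₁ - u‖⁻¹) := by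
    apply finsum_nonneg
    intro u
    by_cases hu : u ∈ closedBall z₁ |R|
    · apply mul_nonneg
      · have := MeromorphicOn.AnalyticOnNhd.divisor_nonneg hana u
        exact_mod_cast this
      · by_cases huc : u = z₁
        · simp [huc]
        · apply Real.log_nonneg
          have h2 : 0 < ‖z₁ - u‖ := by
            rw [norm_pos_iff, sub_ne_zero]
            exact fun h => huc h.symm
          have h3 : ‖z₁ - u‖ ≤ R := by
            rw [abs_of_pos hR, mem_closedBall, dist_comm, dist_eq_norm] at hu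
            exact hu
          rw [← div_eq_mul_inv, one_le_div h2]
          exact h3
    · simp [hu]
  linarith

/-- one zero -/
private theorem zc_step {h₁ : ℂ → ℂ} (hh : Differentiable ℂ h₁) {z₁ : ℂ} (h0 : h₁ z₁ ≠ 0) {R : ℝ} (hR : 0 < R) {a : ℂ} (ha : a ∈ closedBall z₁ (R / 2)) (haz : z₁ ≠ a) :
    Real.circleAverage (fun z => Real.log ‖h₁ z‖) z₁ R - Real.log ‖h₁ z₁‖ + Real.log 2 ≤
      Real.circleAverage (fun z => Real.log ‖(z - a) * h₁ z‖) z₁ R - Real.log ‖(z₁ - a) * h₁ z₁‖ := by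
  have hana : AnalyticOnNhd ℂ h₁ univ := fun z _ => hh.analyticAt z
  have hcod : ∀ᶠ z in codiscreteWithin (univ : Set ℂ), h₁ z ≠ 0 := by
    rcases hana.eqOn_zero_or_eventually_ne_zero_of_preconnected isPreconnected_univ with h | h
    · exact absurd (h (mem_univ z₁)) h0
    · exact h
  have hcod' : ∀ᶠ z in codiscreteWithin (univ : Set ℂ), z - a ≠ 0 := by
    have h2 : AnalyticOnNhd ℂ (fun z : ℂ => z - a) univ := fun z _ => analyticAt_id.sub analyticAt_const
    rcases h2.eqOn_zero_or_eventually_ne_zero_of_preconnected isPreconnected_univ with h | h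
    · exact absurd (h (mem_univ z₁)) (sub_ne_zero.2 haz)
    · exact h
  have e : Real.circleAverage (fun z => Real.log ‖(z - a) * h₁ z‖) z₁ R = Real.circleAverage (fun z => Real.log ‖z - a‖ + Real.log ‖h₁ z‖) z₁ R := by
    refine Real.circleAverage_congr_codiscreteWithin ?_ hR.ne'
    have h3 := (hcod.and hcod').filter_mono (codiscreteWithin_mono (subset_univ (sphere z₁ |R|)))
    filter_upwards [h3] with z hz
    rw [norm_mul, Real.log_mul (norm_ne_zero_iff.2 hz.2) (norm_ne_zero_iff.2 hz.1)]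
  have ha' : a ∈ closedBall z₁ |R| := by
    rw [abs_of_pos hR]
    exact closedBall_subset_closedBall (by linarith) ha
  rw [e, Real.circleAverage_fun_add (zc_int (by fun_prop) z₁ R) (zc_int hh z₁ R), circleAverage_log_norm_sub_const_of_mem_closedBall ha', norm_mul,
    Real.log_mul (norm_ne_zero_iff.2 (sub_ne_zero.2 haz)) (norm_ne_zero_iff.2 h0)]
  have h4 : Real.log ‖z₁ - a‖ ≤ Real.log (R / 2) := by
    refine Real.log_le_log (norm_pos_iff.2 (sub_ne_zero.2 haz)) ?_
    rw [mem_closedBall, dist_comm, dist_eq_norm] at ha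
    exact ha
  rw [Real.log_div hR.ne' two_ne_zero] at h4
  linarith

/-- **the zero count** -/
theorem zcount {z₁ zc : ℂ} {R r : ℝ} (hR : 0 < R) (hsub : closedBall zc r ⊆ closedBall z₁ (R / 2)) (n : ℕ) : ∀ {h : ℂ → ℂ}, Differentiable ℂ h → h z₁ ≠ 0 →
    Real.circleAverage (fun z => Real.log ‖h z‖) z₁ R < Real.log ‖h z₁‖ + (n + 1) * Real.log 2 →
    ∃ q : Polynomial ℂ, q ≠ 0 ∧ q.natDegree ≤ n ∧ ∃ g : ℂ → ℂ, Differentiable ℂ g ∧ (∀ z ∈ closedBall zc r, g z ≠ 0) ∧ ∀ z, h z = q.eval z * g z := by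
  -- dividing by a zero
  have hdiv : ∀ {h : ℂ → ℂ}, Differentiable ℂ h → h z₁ ≠ 0 → ∀ a ∈ closedBall zc r, h a = 0 → ∃ h₁ : ℂ → ℂ, Differentiable ℂ h₁ ∧ h₁ z₁ ≠ 0 ∧
      (∀ z, h z = (z - a) * h₁ z) ∧ Real.circleAverage (fun z => Real.log ‖h₁ z‖) z₁ R - Real.log ‖h₁ z₁‖ + Real.log 2 ≤
        Real.circleAverage (fun z => Real.log ‖h z‖) z₁ R - Real.log ‖h z₁‖ := by
    intro h hh h0 a ha h1
    have hd : Differentiable ℂ (dslope h a) := by
      rw [← differentiableOn_univ, Complex.differentiableOn_dslope Filter.univ_mem]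
      exact hh.differentiableOn
    have he : ∀ z, h z = (z - a) * dslope h a z := by
      intro z
      have h2 := sub_smul_dslope h a z
      rw [smul_eq_mul, h1, sub_zero] at h2
      exact h2.symm
    have haz : z₁ ≠ a := by
      rintro rfl
      exact h0 h1
    have h3 : dslope h a z₁ ≠ 0 := by
      intro h4
      apply h0
      rw [he z₁, h4, mul_zero]
    refine ⟨dslope h a, hd, h3, he, ?_⟩
    have h5 := zc_step hd h3 hR (hsub ha) haz
    have e1 : (fun z => Real.log ‖h z‖) = fun z => Real.log ‖(z - a) * dslope h a z‖ := by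
      funext z
      rw [← he z]
    rw [e1, he z₁]
    exact h5
  induction n with
  | zero =>
    intro h hh h0 hE
    refine ⟨1, one_ne_zero, by simp, h, hh, ?_, fun z => by simp⟩
    intro a ha h1
    obtain ⟨h₁, hd, h3, -, h4⟩ := hdiv hh h0 a ha h1
    have h5 := zc_nonneg hd h3 hR
    push_cast at hE
    linarith
  | succ n ih =>
    intro h hh h0 hE
    by_cases hz : ∀ z ∈ closedBall zc r, h z ≠ 0
    · exact ⟨1, one_ne_zero, by simp, h, hh, hz, fun z => by simp⟩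
    push Not at hz
    obtain ⟨a, ha, h1⟩ := hz
    obtain ⟨h₁, hd, h3, he, h4⟩ := hdiv hh h0 a ha h1
    obtain ⟨q, hq0, hqn, g, hg, hg0, hqg⟩ := ih hd h3 (by
      push_cast at hE
      linarith)
    refine ⟨(Polynomial.X - Polynomial.C a) * q, mul_ne_zero (Polynomial.X_sub_C_ne_zero a) hq0, ?_, g, hg, hg0, fun z => ?_⟩
    · refine Polynomial.natDegree_mul_le.trans ?_
      rw [Polynomial.natDegree_X_sub_C]
      omega
    · rw [he z, hqg z]
      simp only [Polynomial.eval_mul, Polynomial.eval_sub, Polynomial.eval_X, Polynomial.eval_C]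
      ring

/-- the zero count for a linear form on a curve, from the bound of the mean of `log ‖F‖` -/
theorem vcount {z₁ zc : ℂ} {R r C c : ℝ} (hR : 0 < R) (hsub : closedBall zc r ⊆ closedBall z₁ (R / 2)) (hc : 0 < c) :
    ∃ M : ℕ, ∀ (F : ℂ → EN N) (v : EN N), Differentiable ℂ F → (∀ z, F z ≠ 0) → ‖v‖ ≤ 1 →
      Real.circleAverage (fun z => Real.log ‖F z‖) z₁ R ≤ Real.log ‖F z₁‖ + C → c * ‖F z₁‖ ≤ ‖(inner ℂ v (F z₁) : ℂ)‖ →
      ∃ q : Polynomial ℂ, q ≠ 0 ∧ q.natDegree ≤ M ∧ ∃ g : ℂ → ℂ, Differentiable ℂ g ∧ (∀ z ∈ closedBall zc r, g z ≠ 0) ∧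
        ∀ z, inner ℂ v (F z) = q.eval z * g z := by
  have hl2 : 0 < Real.log 2 := Real.log_pos one_lt_two
  refine ⟨⌈(C - Real.log c) / Real.log 2⌉₊, fun F v hF hF0 hv hT hvF => ?_⟩
  have hF1 : 0 < ‖F z₁‖ := norm_pos_iff.2 (hF0 z₁)
  have hh : Differentiable ℂ fun z => (inner ℂ v (F z) : ℂ) := (innerSL ℂ v).differentiable.comp hF
  have h0 : (inner ℂ v (F z₁) : ℂ) ≠ 0 := by
    rw [← norm_pos_iff]
    exact lt_of_lt_of_le (by positivity) hvF
  refine zcount hR hsub _ (h := fun z => (inner ℂ v (F z) : ℂ)) hh h0 ?_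
  have hFi : CircleIntegrable (fun z => Real.log ‖F z‖) z₁ R := by
    refine ContinuousOn.circleIntegrable hR.le ?_
    exact (Real.continuousOn_log.comp hF.continuous.norm.continuousOn fun z _ => (norm_pos_iff.2 (hF0 z)).ne')
  have h1 : Real.circleAverage (fun z => Real.log ‖(inner ℂ v (F z) : ℂ)‖) z₁ R ≤ Real.circleAverage (fun z => Real.log ‖F z‖) z₁ R := by
    classical
    have hcod : ∀ᶠ z in codiscreteWithin (sphere z₁ |R|), (inner ℂ v (F z) : ℂ) ≠ 0 := by
      have h2 : AnalyticOnNhd ℂ (fun z => (inner ℂ v (F z) : ℂ)) univ := fun z _ => hh.analyticAt z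
      rcases h2.eqOn_zero_or_eventually_ne_zero_of_preconnected isPreconnected_univ with h | h
      · exact absurd (h (mem_univ z₁)) h0
      · exact h.filter_mono (codiscreteWithin_mono (subset_univ _))
    obtain ⟨f₁, hf₁⟩ : ∃ f₁ : ℂ → ℝ, ∀ z, f₁ z = if (inner ℂ v (F z) : ℂ) = 0 then Real.log ‖F z‖ else Real.log ‖(inner ℂ v (F z) : ℂ)‖ :=
      ⟨fun z => if (inner ℂ v (F z) : ℂ) = 0 then Real.log ‖F z‖ else Real.log ‖(inner ℂ v (F z) : ℂ)‖, fun _ => rfl⟩
    have he : (fun z => Real.log ‖(inner ℂ v (F z) : ℂ)‖) =ᶠ[codiscreteWithin (sphere z₁ |R|)] f₁ := by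
      filter_upwards [hcod] with z hz
      rw [hf₁, if_neg hz]
    rw [Real.circleAverage_congr_codiscreteWithin he hR.ne']
    refine Real.circleAverage_mono ((zc_int hh z₁ R).congr_codiscreteWithin he) hFi fun z _ => ?_
    rw [hf₁]
    split_ifs with h
    · exact le_rfl
    · refine Real.log_le_log (norm_pos_iff.2 h) ((norm_inner_le_norm v (F z)).trans ?_)
      calc ‖v‖ * ‖F z‖ ≤ 1 * ‖F z‖ := by gcongr
        _ = ‖F z‖ := one_mul _
  have h2 : Real.log c + Real.log ‖F z₁‖ ≤ Real.log ‖(inner ℂ v (F z₁) : ℂ)‖ := by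
    rw [← Real.log_mul hc.ne' hF1.ne']
    exact Real.log_le_log (by positivity) hvF
  have h3 : (C - Real.log c) / Real.log 2 ≤ ⌈(C - Real.log c) / Real.log 2⌉₊ := Nat.le_ceil _
  rw [div_le_iff₀ hl2] at h3
  nlinarith

end Pool.Agent.G3.C

end

section

/-!
# G3 E Bs: the set `B` made invariant; a basis

`BL B Λ = {b + l}`.  `geo_bl`: `B_lines` for `BL`: `Λ` is countable (discrete), for every `l ∈ Λ` almost every `y` has `y - l` off the exceptional null set (translation invariance of the volume).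
-/

set_option autoImplicit false

open Topology Filter Metric MeasureTheory

namespace Pool.Agent.G3.E

open Pool.Agent.H36.BP (EN wd)
open Pool.Agent.H14.PP (IsCone CurveAt Tan)
open Pool.Agent.AD (Vd Chart Charts)

variable {N k : ℕ} {X : Set (EN N)} {Λ : AddSubgroup (Vd (k + 1))} {u : EN N → Vd (k + 1)} {D B : Set (Vd (k + 1))}

/-- the set `B + Λ` -/
def BL (B : Set (Vd (k + 1))) (Λ : AddSubgroup (Vd (k + 1))) : Set (Vd (k + 1)) := {y | ∃ b ∈ B, y - b ∈ Λ}

theorem sub_bl : B ⊆ BL B Λ := fun b hb => ⟨b, hb, by rw [sub_self]; exact Λ.zero_mem⟩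

theorem bl_inv : ∀ β ∈ BL B Λ, ∀ l ∈ Λ, β + l ∈ BL B Λ := by
  rintro β ⟨b, hb, h⟩ l hl
  refine ⟨b, hb, ?_⟩
  have e : β + l - b = (β - b) + l := by abel
  rw [e]
  exact Λ.add_mem h hl

theorem bl_fin (h : ∃ S : Set (Vd (k + 1)), S.Finite ∧ ∀ b ∈ B, ∃ s ∈ S, b - s ∈ Λ) : ∃ S : Set (Vd (k + 1)), S.Finite ∧ ∀ b ∈ BL B Λ, ∃ s ∈ S, b - s ∈ Λ := by
  obtain ⟨S, hS, h⟩ := h
  refine ⟨S, hS, ?_⟩
  rintro β ⟨b, hb, hβ⟩
  obtain ⟨s, hs, hbs⟩ := h b hb
  refine ⟨s, hs, ?_⟩
  have e : β - s = (β - b) + (b - s) := by abel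
  rw [e]
  exact Λ.add_mem hβ hbs

end Pool.Agent.G3.E

end

section

/-!
# WL Proj: complements in surfaces with nonpositively curved pseudo-lengths, in the projective space
-/

set_option autoImplicit false

open Topology Filter MvPolynomial Metric

noncomputable section

namespace Pool.Agent.H22.WL

open Pool.Agent.H36.BP (EN fs wd wd_sq wd_nonneg)

variable {N : ℕ} {P : Ideal (MvPolynomial (Fin (N + 1)) ℂ)} {s : ℕ} {G : Fin s → MvPolynomial (Fin (N + 1)) ℂ} {d : Fin s → ℕ}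

/-- the Fubini-Study length bounds the distance to the line -/
theorem dist_line {x v : EN N} (hx : x ≠ 0) : ∃ a : ℂ, ‖v - a • x‖ = fs x v * ‖x‖ := by
  have hn : ‖x‖ ≠ 0 := norm_ne_zero_iff.2 hx
  obtain ⟨a, ha⟩ : ∃ a : ℂ, a = inner ℂ x v / inner ℂ x x := ⟨_, rfl⟩
  have hxx : (inner ℂ x x : ℂ) ≠ 0 := inner_self_ne_zero.2 hx
  have horth : inner ℂ x (v - a • x) = (0 : ℂ) := by
    rw [inner_sub_right, inner_smul_right, ha, div_mul_cancel₀ _ hxx, sub_self]
  refine ⟨a, ?_⟩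
  have h1 : wd x v = ‖x‖ * ‖v - a • x‖ := by
    have h2 : wd x v = wd x (v - a • x) := by
      have h3 := Pool.Agent.H36.BP.wd_inv x (v - a • x) 1 a
      rw [one_smul, one_smul, sub_add_cancel, norm_one, one_pow, one_mul] at h3
      exact h3
    rw [h2]
    have h4 := wd_sq x (v - a • x)
    rw [horth, norm_zero, zero_pow two_ne_zero, sub_zero, ← mul_pow] at h4
    exact (pow_left_inj₀ (wd_nonneg _ _) (by positivity) two_ne_zero).1 h4
  unfold fs
  rw [h1]
  field_simp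

theorem norm_ofLp_le (x : EN N) : ‖x.ofLp‖ ≤ ‖x‖ := by
  refine (pi_norm_le_iff_of_nonneg (norm_nonneg _)).2 fun i => ?_
  exact PiLp.norm_apply_le x i


end Pool.Agent.H22.WL

end
end

section

/-!
# AD F Sep: the separation (S)

`exists_sep`: a point which is near two different branches of the finitely many doubly periodic curves `g i` is near one of finitely many points.
Compactness modulo the periods.  At a pair `(i, a)`, `(j, b)` with `pr (g i a) ≠ pr (g j b)` the number `d` is bounded from below.  If the points are the same then either the germs are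
the same up to a change `φ` of the variable; as the speed is one, `|φ'| = 1`, so `φ` is affine, and by uniqueness `i = j`; a rotation has a fixed point, where the derivative would be
zero; so `φ` is a translation by a period, and all the near pairs are equivalent; or the distance of `g i s` from `g j t` is at least `c |s - a| ^ M` (`local_branch`).
-/

set_option autoImplicit false

open Topology Filter Metric

namespace Pool.Agent.AD.F.Sp

open Pool.Agent.H36.BP (EN wd)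
open Pool.Agent.H14.PP (IsCone Tan CurveAt)
open Pool.Agent.H62.EF (pr pr_smul pr_eq_iff norm_pr nm Lat continuousAt_pr)

variable {N : ℕ} {X : Set (EN N)}

/-- two curves which agree near one point agree -/
theorem curve_uniq {F G : ℂ → EN N} (hF : Differentiable ℂ F) (hG : Differentiable ℂ G) (hF0 : ∀ z, F z ≠ 0) (hG0 : ∀ z, G z ≠ 0) {z₀ : ℂ}
    (h : ∀ᶠ z in 𝓝 z₀, pr (F z) = pr (G z)) (z : ℂ) : pr (F z) = pr (G z) := by
  have hcoord : ∀ (H : ℂ → EN N), Differentiable ℂ H → ∀ i, Differentiable ℂ (fun z => H z i) := by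
    intro H hH i
    have := (EuclideanSpace.proj (𝕜 := ℂ) i).differentiable.comp hH
    exact this
  have hmin : ∀ i j, ∀ z, F z i * G z j - F z j * G z i = 0 := by
    intro i j
    have hd : Differentiable ℂ (fun z => F z i * G z j - F z j * G z i) :=
      ((hcoord F hF i).mul (hcoord G hG j)).sub ((hcoord F hF j).mul (hcoord G hG i))
    have ha : AnalyticOnNhd ℂ (fun z => F z i * G z j - F z j * G z i) Set.univ :=
      fun z _ => hd.analyticAt z
    have he : (fun z => F z i * G z j - F z j * G z i) =ᶠ[𝓝 z₀] 0 := by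
      filter_upwards [h] with z hz
      obtain ⟨c, _, hc⟩ := (pr_eq_iff (hF0 z) (hG0 z)).1 hz
      have h1 : ∀ k, F z k = c * G z k := by
        intro k
        rw [hc]
        simp
      simp only [Pi.zero_apply]
      rw [h1 i, h1 j]
      ring
    intro z'
    have := ha.eqOn_zero_of_preconnected_of_eventuallyEq_zero isPreconnected_univ (Set.mem_univ z₀) he (Set.mem_univ z')
    exact this
  obtain ⟨j, hj⟩ : ∃ j, G z j ≠ 0 := by
    by_contra hcon
    push Not at hcon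
    apply hG0 z
    ext k
    simpa using hcon k
  have hFc : F z = (F z j / G z j) • G z := by
    ext k
    have h1 := hmin k j z
    simp only [PiLp.smul_apply, smul_eq_mul]
    field_simp
    linear_combination h1
  have hne : F z j / G z j ≠ 0 := by
    intro h'
    rw [h', zero_smul] at hFc
    exact hF0 z hFc
  exact (pr_eq_iff (hF0 z) (hG0 z)).2 ⟨_, hne, hFc⟩

variable {ι : Type}

end Pool.Agent.AD.F.Sp

namespace Pool.Agent.AD.F

open Sp
open Pool.Agent.H36.BP (EN wd)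
open Pool.Agent.H14.PP (IsCone Tan CurveAt)
open Pool.Agent.H62.EF (pr pr_smul pr_eq_iff norm_pr nm Lat continuousAt_pr)

variable {N : ℕ} {X : Set (EN N)} {ι : Type}

end Pool.Agent.AD.F

end

section

/-!
# G3 C8: Hankel determinants

A holomorphic family on an annulus which, for uncountably many parameters, becomes holomorphic on
the disc after multiplication by a nonzero polynomial, has this property for all parameters: for
some `M` uncountably many parameters have a polynomial of degree at most `M`; the moments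
`∮ z ^ i f_j (ζ, z) dz` are holomorphic in `ζ`, and the maximal minors of the matrix with rows
`(j, i)` and columns `l ≤ M`, entries `∮ z ^ (i + l) f_j`, vanish for these parameters, so for all.
-/

set_option autoImplicit false

open Topology Filter Metric Set

namespace Pool.Agent.G3.C

/-! ### linear algebra -/

/-- If all maximal minors of a matrix vanish, then it has a kernel vector. -/
lemma hankel_ker {ι : Type*} {n : ℕ} (A : ι → Fin n → ℂ)
    (h : ∀ r : Fin n → ι, (Matrix.of fun i => A (r i)).det = 0) :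
    ∃ c : Fin n → ℂ, c ≠ 0 ∧ ∀ i, ∑ l, c l * A i l = 0 := by
  classical
  set W : Submodule ℂ (Fin n → ℂ) := Submodule.span ℂ (Set.range A) with hW
  have hlt : W < ⊤ := by
    rw [lt_top_iff_ne_top]
    intro htop
    obtain ⟨b, hb, hspan, hli⟩ := exists_linearIndependent ℂ (Set.range A)
    have hfin : b.Finite := hli.setFinite
    have : Fintype b := hfin.fintype
    have hcard : Fintype.card b = n := by
      have h1 := finrank_span_eq_card hli
      rw [Subtype.range_val, hspan, ← hW, htop, finrank_top, Module.finrank_fin_fun] at h1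
      exact h1.symm
    let e : Fin n ≃ b := (Fintype.equivFinOfCardEq hcard).symm
    choose g hg using fun x : b => hb x.2
    have h1 := h (fun i => g (e i))
    have h2 : LinearIndependent ℂ (Matrix.of fun i => A (g (e i))).row := by
      have : (Matrix.of fun i => A (g (e i))).row = fun i => ((e i : b) : Fin n → ℂ) := by
        funext i
        exact hg (e i)
      rw [this]
      exact hli.comp _ e.injective
    rw [Matrix.linearIndependent_rows_iff_isUnit, Matrix.isUnit_iff_isUnit_det, h1] at h2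
    exact not_isUnit_zero h2
  obtain ⟨φ, hφ, hker⟩ := Submodule.exists_le_ker_of_lt_top W hlt
  have hφx : ∀ x : Fin n → ℂ, φ x = ∑ l, φ (Pi.single l 1) * x l := by
    intro x
    conv_lhs => rw [← Finset.univ_sum_single x]
    rw [map_sum]
    refine Finset.sum_congr rfl fun l _ => ?_
    have : (Pi.single l (x l) : Fin n → ℂ) = x l • (Pi.single l 1 : Fin n → ℂ) := by
      rw [← Pi.single_smul, smul_eq_mul, mul_one]
    rw [this, map_smul, smul_eq_mul, mul_comm]
  refine ⟨fun l => φ (Pi.single l 1), ?_, ?_⟩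
  · intro h0
    apply hφ
    ext x
    have h1 : ∀ l, φ (Pi.single l 1) = 0 := fun l => congrFun h0 l
    simp [h1]
  · intro i
    rw [← hφx]
    exact hker (Submodule.subset_span ⟨i, rfl⟩)

/-- If a matrix has a kernel vector, then all its maximal minors vanish. -/
lemma hankel_det {ι : Type*} {n : ℕ} (A : ι → Fin n → ℂ) {c : Fin n → ℂ} (hc : c ≠ 0)
    (h : ∀ i, ∑ l, c l * A i l = 0) (r : Fin n → ι) : (Matrix.of fun i => A (r i)).det = 0 := by
  rw [← Matrix.exists_mulVec_eq_zero_iff]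
  refine ⟨c, hc, ?_⟩
  funext i
  rw [Matrix.mulVec, dotProduct]
  simp only [Matrix.of_apply, Pi.zero_apply]
  rw [← h (r i)]
  exact Finset.sum_congr rfl fun l _ => mul_comm _ _

/-! ### circle integrals with parameters -/

lemma hankel_param {U : Set ℂ} (hU : IsOpen U) {c : ℂ} {ρ : ℝ} (hρ : 0 < ρ)
    {F : ℂ × ℂ → ℂ} (hF : ContinuousOn F (U ×ˢ sphere c ρ))
    (hd : ∀ z ∈ sphere c ρ, DifferentiableOn ℂ (fun ζ => F (ζ, z)) U) :
    DifferentiableOn ℂ (fun ζ => ∮ z in C(c, ρ), F (ζ, z)) U := by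
  intro ζ₀ hζ₀
  refine DifferentiableAt.differentiableWithinAt ?_
  obtain ⟨δ₀, hδ₀, hball⟩ := Metric.isOpen_iff.1 hU ζ₀ hζ₀
  set δ : ℝ := δ₀ / 3 with hδ
  have hδ0 : 0 < δ := by positivity
  have hcb : closedBall ζ₀ (2 * δ) ⊆ U := by
    intro x hx
    apply hball
    rw [mem_closedBall] at hx
    rw [mem_ball]
    linarith
  have hK : IsCompact (closedBall ζ₀ (2 * δ) ×ˢ sphere c ρ) :=
    (isCompact_closedBall _ _).prod (isCompact_sphere _ _)
  obtain ⟨M, hM⟩ := hK.exists_bound_of_continuousOn (hF.mono (Set.prod_mono hcb subset_rfl))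
  have hmem : ∀ θ : ℝ, circleMap c ρ θ ∈ sphere c ρ := fun θ => circleMap_mem_sphere c hρ.le θ
  set dc : ℝ → ℂ := fun θ => deriv (circleMap c ρ) θ with hdc
  have hdcc : Continuous dc := by
    rw [hdc]
    simp only [deriv_circleMap]
    fun_prop
  have hdcn : ∀ θ, ‖dc θ‖ = ρ := by
    intro θ
    rw [hdc]
    simp only [deriv_circleMap, norm_mul, Complex.norm_I, mul_one, norm_circleMap_zero,
      abs_of_pos hρ]
  have hFc : ∀ ζ ∈ U, Continuous fun θ : ℝ => F (ζ, circleMap c ρ θ) := by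
    intro ζ hζ
    refine hF.comp_continuous (by fun_prop) fun θ => ⟨hζ, hmem θ⟩
  have hder : ∀ ζ ∈ ball ζ₀ δ, ∀ θ : ℝ,
      HasDerivAt (fun ζ => F (ζ, circleMap c ρ θ)) (deriv (fun ζ => F (ζ, circleMap c ρ θ)) ζ) ζ ∧
        ‖deriv (fun ζ => F (ζ, circleMap c ρ θ)) ζ‖ ≤ M / δ := by
    intro ζ hζ θ
    have hsub : closedBall ζ δ ⊆ closedBall ζ₀ (2 * δ) := by
      intro x hx
      rw [mem_closedBall] at hx ⊢
      rw [mem_ball] at hζ
      have := dist_triangle x ζ ζ₀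
      linarith
    have hζU : ζ ∈ U := hcb (hsub (mem_closedBall_self hδ0.le))
    refine ⟨((hd _ (hmem θ)).differentiableAt (hU.mem_nhds hζU)).hasDerivAt, ?_⟩
    refine Complex.norm_deriv_le_of_forall_mem_sphere_norm_le hδ0 ?_ ?_
    · refine DifferentiableOn.diffContOnCl ?_
      rw [closure_ball _ hδ0.ne']
      exact (hd _ (hmem θ)).mono (hsub.trans hcb)
    · intro z hz
      exact hM _ ⟨hsub (sphere_subset_closedBall hz), hmem θ⟩
  have hev : ∀ᶠ ζ in 𝓝 ζ₀, ζ ∈ ball ζ₀ δ := isOpen_ball.mem_nhds (mem_ball_self hδ0)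
  have hbU : ball ζ₀ δ ⊆ U := fun x hx => hcb (by
    rw [mem_ball] at hx
    rw [mem_closedBall]
    linarith)
  have key := intervalIntegral.hasDerivAt_integral_of_dominated_loc_of_deriv_le
    (μ := MeasureTheory.volume) (a := 0) (b := 2 * Real.pi)
    (F := fun ζ θ => dc θ • F (ζ, circleMap c ρ θ))
    (F' := fun ζ θ => dc θ • deriv (fun ζ => F (ζ, circleMap c ρ θ)) ζ)
    (x₀ := ζ₀) (s := ball ζ₀ δ) (bound := fun _ => ρ * (M / δ))
    (isOpen_ball.mem_nhds (mem_ball_self hδ0)) ?_ ?_ ?_ ?_ ?_ ?_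
  · exact key.2.differentiableAt
  · filter_upwards [hev] with ζ hζ
    exact (hdcc.smul (hFc ζ (hbU hζ))).aestronglyMeasurable
  · exact (hdcc.smul (hFc ζ₀ hζ₀)).intervalIntegrable _ _
  · refine MeasureTheory.AEStronglyMeasurable.smul hdcc.aestronglyMeasurable ?_
    set hh : ℕ → ℂ := fun n => ((δ / (n + 2) : ℝ) : ℂ) with hhh
    have hpos : ∀ n : ℕ, 0 < δ / ((n : ℝ) + 2) := fun n => by positivity
    have hne : ∀ n, hh n ≠ 0 := fun n => by
      show ((δ / ((n : ℝ) + 2) : ℝ) : ℂ) ≠ 0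
      exact Complex.ofReal_ne_zero.2 (hpos n).ne'
    have hU' : ∀ n, ζ₀ + hh n ∈ U := by
      intro n
      apply hbU
      rw [mem_ball, dist_eq_norm, add_sub_cancel_left, hhh]
      simp only [Complex.norm_real, Real.norm_eq_abs, abs_of_pos (hpos n)]
      rw [div_lt_iff₀ (by positivity)]
      have : (0 : ℝ) ≤ n := Nat.cast_nonneg n
      nlinarith
    have hlim0 : Tendsto hh atTop (𝓝 0) := by
      have h1 : Tendsto (fun n : ℕ => δ / ((n : ℝ) + 2)) atTop (𝓝 0) := by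
        refine Tendsto.div_atTop tendsto_const_nhds ?_
        exact tendsto_atTop_add_const_right _ _ tendsto_natCast_atTop_atTop
      have h2 := (Complex.continuous_ofReal.tendsto 0).comp h1
      simpa [hhh, Function.comp_def] using h2
    have hlim : Tendsto hh atTop (𝓝[≠] 0) :=
      tendsto_nhdsWithin_iff.2 ⟨hlim0, Eventually.of_forall fun n => hne n⟩
    refine aestronglyMeasurable_of_tendsto_ae (u := atTop) (f := fun (n : ℕ) (θ : ℝ) =>
      (hh n)⁻¹ • (F (ζ₀ + hh n, circleMap c ρ θ) - F (ζ₀, circleMap c ρ θ))) ?_ ?_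
    · intro n
      have h1 : Continuous fun θ : ℝ =>
          (hh n)⁻¹ • (F (ζ₀ + hh n, circleMap c ρ θ) - F (ζ₀, circleMap c ρ θ)) :=
        ((hFc _ (hU' n)).sub (hFc _ hζ₀)).const_smul ((hh n)⁻¹)
      exact h1.aestronglyMeasurable
    · refine Eventually.of_forall fun θ => ?_
      exact ((hder ζ₀ (mem_ball_self hδ0) θ).1.tendsto_slope_zero).comp hlim
  · refine Eventually.of_forall fun θ _ ζ hζ => ?_
    rw [norm_smul, hdcn]
    exact mul_le_mul_of_nonneg_left (hder ζ hζ θ).2 hρ.le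
  · exact intervalIntegrable_const
  · refine Eventually.of_forall fun θ _ ζ hζ => ?_
    exact ((hder ζ hζ θ).1).const_smul (dc θ)

/-! ### moments -/

lemma hankel_ann_open {zc : ℂ} {r1 r2 : ℝ} :
    IsOpen {z : ℂ | r1 < dist z zc ∧ dist z zc < r2} := by
  have h1 : IsOpen {z : ℂ | r1 < dist z zc} := isOpen_lt continuous_const (by fun_prop)
  have h2 : IsOpen {z : ℂ | dist z zc < r2} := isOpen_lt (by fun_prop) continuous_const
  exact h1.inter h2

lemma hankel_sphere {zc : ℂ} {r1 r2 ρ : ℝ} (h1 : r1 < ρ) (h2 : ρ < r2) :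
    sphere zc ρ ⊆ {z : ℂ | r1 < dist z zc ∧ dist z zc < r2} := by
  intro z hz
  rw [mem_sphere] at hz
  exact ⟨by rw [hz]; exact h1, by rw [hz]; exact h2⟩

/-- circle integrals do not depend on the radius -/
lemma hankel_radius {zc : ℂ} {r1 r2 ρ ρ' : ℝ} (hr1 : 0 < r1) (h1 : r1 < ρ) (h2 : ρ < r2)
    (h1' : r1 < ρ') (h2' : ρ' < r2) {h : ℂ → ℂ}
    (hh : DifferentiableOn ℂ h {z | r1 < dist z zc ∧ dist z zc < r2}) :
    (∮ z in C(zc, ρ), h z) = ∮ z in C(zc, ρ'), h z := by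
  wlog hle : ρ' ≤ ρ generalizing ρ ρ'
  · exact (this h1' h2' h1 h2 (le_of_not_ge hle)).symm
  refine Complex.circleIntegral_eq_of_differentiable_on_annulus_off_countable (hr1.trans h1')
    hle Set.countable_empty (hh.continuousOn.mono ?_) ?_
  · rintro z ⟨hz1, hz2⟩
    rw [mem_closedBall] at hz1
    rw [mem_ball, not_lt] at hz2
    exact ⟨h1'.trans_le hz2, hz1.trans_lt h2⟩
  · rintro z ⟨⟨hz1, hz2⟩, -⟩
    rw [mem_ball] at hz1
    rw [mem_closedBall, not_le] at hz2
    exact hh.differentiableAt (hankel_ann_open.mem_nhds ⟨h1'.trans hz2, hz1.trans h2⟩)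

/-- the extension criterion with moments, polynomial form -/
lemma hankel_moment {zc : ℂ} {r1 r2 ρ : ℝ} (hr1 : 0 < r1) (h1 : r1 < ρ) (h2 : ρ < r2)
    {h : ℂ → ℂ} (hh : DifferentiableOn ℂ h {z | r1 < dist z zc ∧ dist z zc < r2})
    (h0 : ∀ n : ℕ, (∮ z in C(zc, ρ), z ^ n * h z) = 0) (p : Polynomial ℂ) {r : ℝ}
    (hr : r1 < r) (hr' : r < r2) : (∮ z in C(zc, r), p.eval z * h z) = 0 := by
  have hρ : 0 < ρ := hr1.trans h1
  have hd : DifferentiableOn ℂ (fun z => p.eval z * h z)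
      {z | r1 < dist z zc ∧ dist z zc < r2} :=
    (p.differentiable.differentiableOn).mul hh
  rw [← hankel_radius hr1 h1 h2 hr hr' hd]
  have hc : ContinuousOn h (sphere zc ρ) := hh.continuousOn.mono (hankel_sphere h1 h2)
  have he : ∀ z, p.eval z * h z =
      ∑ i ∈ Finset.range (p.natDegree + 1), p.coeff i * (z ^ i * h z) := by
    intro z
    rw [Polynomial.eval_eq_sum_range, Finset.sum_mul]
    exact Finset.sum_congr rfl fun i _ => by ring
  simp only [he]
  rw [circleIntegral.integral_fun_sum]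
  · refine Finset.sum_eq_zero fun i _ => ?_
    rw [circleIntegral.integral_const_mul, h0 i, mul_zero]
  · intro i _
    refine ContinuousOn.circleIntegrable hρ.le ?_
    exact continuousOn_const.mul ((by fun_prop : ContinuousOn (fun z : ℂ => z ^ i) _).mul hc)

/-- **Hankel determinants**, the parameters of a set with an accumulation point. -/
theorem hankel_fill_acc {N M : ℕ} {s0 : ℂ} {eps : ℝ} {zc : ℂ} {r1 r2 : ℝ}
    (hr1 : 0 < r1) (hr : r1 < r2) {f : ℂ × ℂ → Fin (N + 1) → ℂ}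
    (hf : DifferentiableOn ℂ f (ball s0 eps ×ˢ {z | r1 < dist z zc ∧ dist z zc < r2}))
    {S : Set ℂ} (hS : S ⊆ ball s0 eps) {x : ℂ} (hx : x ∈ ball s0 eps)
    (hacc : ∃ᶠ z in 𝓝[≠] x, z ∈ S)
    (hq : ∀ s ∈ S, ∃ q : Polynomial ℂ, q ≠ 0 ∧ q.natDegree ≤ M ∧
      ∃ g : ℂ → Fin (N + 1) → ℂ, DifferentiableOn ℂ g (ball zc r2) ∧
        ∀ z, r1 < dist z zc → dist z zc < r2 → g z = q.eval z • f (s, z)) :
    ∀ zeta ∈ ball s0 eps, ∃ q : Polynomial ℂ, q ≠ 0 ∧ q.natDegree ≤ M ∧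
      ∃ g : ℂ → Fin (N + 1) → ℂ, DifferentiableOn ℂ g (ball zc r2) ∧
        ∀ z, r1 < dist z zc → dist z zc < r2 → g z = q.eval z • f (zeta, z) := by
  classical
  obtain ⟨ρ, hρ1, hρ2⟩ := exists_between hr
  have hρ : 0 < ρ := hr1.trans hρ1
  set Ann : Set ℂ := {z | r1 < dist z zc ∧ dist z zc < r2} with hAnn
  have hAo : IsOpen Ann := hankel_ann_open
  have hsph : sphere zc ρ ⊆ Ann := hankel_sphere hρ1 hρ2
  have hfj : ∀ j : Fin (N + 1), DifferentiableOn ℂ (fun p => f p j) (ball s0 eps ×ˢ Ann) :=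
    fun j => differentiableOn_pi.1 hf j
  -- the slices
  have hfz : ∀ ζ ∈ ball s0 eps, ∀ j : Fin (N + 1),
      DifferentiableOn ℂ (fun z => f (ζ, z) j) Ann := by
    intro ζ hζ j
    refine (hfj j).comp (f := fun z : ℂ => (ζ, z)) ?_ fun z hz => ⟨hζ, hz⟩
    exact (differentiable_const ζ).prodMk differentiable_id |>.differentiableOn
  -- the moments
  set a : ℂ → Fin (N + 1) × ℕ → Fin (M + 1) → ℂ := fun ζ p l =>
    ∮ z in C(zc, ρ), z ^ (p.2 + (l : ℕ)) * f (ζ, z) p.1 with ha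
  have hint : ∀ ζ ∈ ball s0 eps, ∀ j : Fin (N + 1), ∀ n : ℕ,
      CircleIntegrable (fun z => z ^ n * f (ζ, z) j) zc ρ := by
    intro ζ hζ j n
    refine ContinuousOn.circleIntegrable hρ.le ?_
    exact (by fun_prop : ContinuousOn (fun z : ℂ => z ^ n) _).mul
      ((hfz ζ hζ j).continuousOn.mono hsph)
  have hkey : ∀ ζ ∈ ball s0 eps, ∀ c : Fin (M + 1) → ℂ, ∀ p : Fin (N + 1) × ℕ,
      ∑ l, c l * a ζ p l =
        ∮ z in C(zc, ρ), z ^ p.2 * ((∑ l : Fin (M + 1), c l * z ^ (l : ℕ)) * f (ζ, z) p.1) := by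
    intro ζ hζ c p
    have h1 : ∀ z : ℂ, z ^ p.2 * ((∑ l : Fin (M + 1), c l * z ^ (l : ℕ)) * f (ζ, z) p.1) =
        ∑ l : Fin (M + 1), c l * (z ^ (p.2 + (l : ℕ)) * f (ζ, z) p.1) := by
      intro z
      rw [Finset.sum_mul, Finset.mul_sum]
      exact Finset.sum_congr rfl fun l _ => by rw [pow_add]; ring
    simp only [h1]
    rw [circleIntegral.integral_fun_sum]
    · refine Finset.sum_congr rfl fun l _ => ?_
      rw [circleIntegral.integral_const_mul]
    · intro l _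
      exact (hint ζ hζ p.1 _).const_fun_smul (a := c l)
  have hadiff : ∀ p l, DifferentiableOn ℂ (fun ζ => a ζ p l) (ball s0 eps) := by
    intro p l
    refine hankel_param isOpen_ball hρ (F := fun q : ℂ × ℂ => q.2 ^ (p.2 + (l : ℕ)) * f q p.1)
      ?_ ?_
    · exact (by fun_prop : ContinuousOn (fun q : ℂ × ℂ => q.2 ^ (p.2 + (l : ℕ))) _).mul
        ((hfj p.1).continuousOn.mono (Set.prod_mono subset_rfl hsph))
    · intro z hz
      refine DifferentiableOn.const_mul (b := z ^ (p.2 + (l : ℕ))) ?_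
      refine (hfj p.1).comp (f := fun ζ : ℂ => (ζ, z)) ?_ fun ζ hζ => ⟨hζ, hsph hz⟩
      exact differentiable_id.prodMk (differentiable_const z) |>.differentiableOn
  -- the minors vanish for real parameters
  have hreal : ∀ s ∈ S, ∀ r : Fin (M + 1) → Fin (N + 1) × ℕ,
      (Matrix.of fun i => a s (r i)).det = 0 := by
    intro s hs r
    have hsb : s ∈ ball s0 eps := hS hs
    obtain ⟨q, hq0, hqM, g, hg, hgf⟩ := hq s hs
    have hqe : ∀ z : ℂ, (∑ l : Fin (M + 1), q.coeff l * z ^ (l : ℕ)) = q.eval z := by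
      intro z
      rw [Finset.sum_fin_eq_sum_range, Polynomial.eval_eq_sum_range' (n := M + 1) (by omega)]
      refine Finset.sum_congr rfl fun i hi => ?_
      rw [dif_pos (Finset.mem_range.1 hi)]
    refine hankel_det (fun p => a s p) (c := fun l : Fin (M + 1) => q.coeff l) ?_ ?_ r
    · intro h0
      apply hq0
      ext n
      by_cases hn : n < M + 1
      · exact congrFun h0 ⟨n, hn⟩
      · rw [Polynomial.coeff_zero]
        exact Polynomial.coeff_eq_zero_of_natDegree_lt (by omega)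
    · intro p
      rw [hkey s hsb]
      simp only [hqe]
      have h1 : (∮ z in C(zc, ρ), z ^ p.2 * (q.eval z * f (s, z) p.1)) =
          ∮ z in C(zc, ρ), z ^ p.2 * g z p.1 := by
        refine circleIntegral.integral_congr hρ.le fun z hz => ?_
        have hz' := hsph hz
        have := congrFun (hgf z hz'.1 hz'.2) p.1
        simp only [Pi.smul_apply, smul_eq_mul] at this
        simp only [this]
      rw [h1]
      refine DiffContOnCl.circleIntegral_eq_zero hρ.le ?_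
      refine DifferentiableOn.diffContOnCl ?_
      rw [closure_ball _ hρ.ne']
      have h2 : DifferentiableOn ℂ (fun z => g z p.1) (ball zc r2) := differentiableOn_pi.1 hg p.1
      exact (by fun_prop : DifferentiableOn ℂ (fun z : ℂ => z ^ p.2) _).mul
        (h2.mono (closedBall_subset_ball hρ2))
  -- the minors vanish for all parameters
  have hall : ∀ r : Fin (M + 1) → Fin (N + 1) × ℕ, ∀ ζ ∈ ball s0 eps,
      (Matrix.of fun i => a ζ (r i)).det = 0 := by
    intro r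
    have hdet : DifferentiableOn ℂ (fun ζ => (Matrix.of fun i => a ζ (r i)).det)
        (ball s0 eps) := by
      simp only [Matrix.det_apply']
      refine DifferentiableOn.fun_sum fun σ _ => ?_
      refine DifferentiableOn.const_mul ?_ _
      refine DifferentiableOn.fun_finsetProd fun i _ => ?_
      exact hadiff (r (σ i)) i
    have han : AnalyticOnNhd ℂ (fun ζ => (Matrix.of fun i => a ζ (r i)).det)
        (ball s0 eps) := hdet.analyticOnNhd isOpen_ball
    have hfreq : ∃ᶠ ζ in 𝓝[≠] x, (Matrix.of fun i => a ζ (r i)).det = 0 :=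
      hacc.mono fun s hs => hreal s hs r
    have := han.eqOn_zero_of_preconnected_of_frequently_eq_zero
      (convex_ball _ _).isPreconnected hx hfreq
    intro ζ hζ
    exact this hζ
  -- the conclusion
  intro ζ hζ
  obtain ⟨c, hc, hker⟩ := hankel_ker (a ζ) (fun r => hall r ζ hζ)
  set q : Polynomial ℂ := ∑ l : Fin (M + 1), Polynomial.C (c l) * Polynomial.X ^ (l : ℕ) with hqd
  have hqe : ∀ z : ℂ, q.eval z = ∑ l : Fin (M + 1), c l * z ^ (l : ℕ) := by
    intro z
    rw [hqd, Polynomial.eval_finsetSum]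
    exact Finset.sum_congr rfl fun l _ => by simp
  have hcoef : ∀ l : Fin (M + 1), q.coeff l = c l := by
    intro l
    rw [hqd, Polynomial.finsetSum_coeff]
    simp only [Polynomial.coeff_C_mul, Polynomial.coeff_X_pow]
    rw [Finset.sum_eq_single l]
    · simp
    · intro b _ hb
      have : ¬ ((l : ℕ) = (b : ℕ)) := fun h => hb (Fin.ext h.symm)
      simp [this]
    · simp
  have hq0 : q ≠ 0 := by
    intro h0
    apply hc
    funext l
    rw [← hcoef l, h0]
    simp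
  have hqM : q.natDegree ≤ M := by
    rw [hqd]
    refine Polynomial.natDegree_sum_le_of_forall_le _ _ fun l _ => ?_
    refine (Polynomial.natDegree_C_mul_X_pow_le _ _).trans ?_
    have := l.2
    omega
  have hext : ∀ j : Fin (N + 1), ∃ J' : ℂ → ℂ, DifferentiableOn ℂ J' (ball zc r2) ∧
      ∀ z, r1 < ‖z - zc‖ → ‖z - zc‖ < r2 → J' z = q.eval z * f (ζ, z) j := by
    intro j
    have hhd : DifferentiableOn ℂ (fun z => q.eval z * f (ζ, z) j) Ann :=
      (q.differentiable.differentiableOn).mul (hfz ζ hζ j)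
    have h0 : ∀ n : ℕ, (∮ z in C(zc, ρ), z ^ n * (q.eval z * f (ζ, z) j)) = 0 := by
      intro n
      have h1 := hkey ζ hζ c (j, n)
      rw [hker (j, n)] at h1
      simp only [hqe]
      exact h1.symm
    refine Pool.Agent.H62.EL.ext_annulus hr1 hr ?_ ?_
    · refine hhd.mono ?_
      rintro z ⟨hz1, hz2⟩
      rw [← dist_eq_norm] at hz1 hz2
      exact ⟨hz1, hz2⟩
    · intro n r hrr hrr'
      have := hankel_moment hr1 hρ1 hρ2 hhd h0 ((Polynomial.X - Polynomial.C zc) ^ n) hrr hrr'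
      simpa using this
  choose J hJd hJe using hext
  refine ⟨q, hq0, hqM, fun z j => J j z, ?_, ?_⟩
  · rw [differentiableOn_pi]
    exact hJd
  · intro z hz1 hz2
    rw [dist_eq_norm] at hz1 hz2
    funext j
    rw [Pi.smul_apply, smul_eq_mul]
    exact hJe j z hz1 hz2

/-- An uncountable set of complex numbers contains one of its accumulation points. -/
lemma hankel_acc {S : Set ℂ} (hS : ¬ S.Countable) : ∃ x ∈ S, ∃ᶠ z in 𝓝[≠] x, z ∈ S := by
  by_contra hcon
  push Not at hcon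
  have hd : DiscreteTopology S := by
    rw [discreteTopology_subtype_iff]
    intro x hx
    have h1 := hcon x hx
    have h2 : Sᶜ ∈ 𝓝[≠] x := h1
    rwa [Filter.mem_iff_inf_principal_compl, compl_compl] at h2
  apply hS
  have : Countable S := (TopologicalSpace.separableSpace_iff_countable (α := S)).1 inferInstance
  exact Set.countable_coe_iff.1 this

/-- **Hankel determinants**: a pole set for uncountably many parameters. -/
theorem hankel_fill_unc {N : ℕ} {ζ₀ : ℂ} {ε : ℝ} (hε : 0 < ε) {zc : ℂ} {r₁ r₂ : ℝ} (hr₁ : 0 < r₁)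
    (hr : r₁ < r₂) {f : ℂ × ℂ → Fin (N + 1) → ℂ}
    (hf : DifferentiableOn ℂ f (ball ζ₀ ε ×ˢ {z | r₁ < dist z zc ∧ dist z zc < r₂}))
    {T : Set ℂ} (hT : T ⊆ ball ζ₀ ε) (hTu : ¬ T.Countable)
    (hq : ∀ ζ ∈ T, ∃ q : Polynomial ℂ, q ≠ 0 ∧ ∃ g : ℂ → Fin (N + 1) → ℂ,
      DifferentiableOn ℂ g (ball zc r₂) ∧
        ∀ z, r₁ < dist z zc → dist z zc < r₂ → g z = q.eval z • f (ζ, z)) :
    ∀ ζ ∈ ball ζ₀ ε, ∃ q : Polynomial ℂ, q ≠ 0 ∧ ∃ g : ℂ → Fin (N + 1) → ℂ,
      DifferentiableOn ℂ g (ball zc r₂) ∧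
        ∀ z, r₁ < dist z zc → dist z zc < r₂ → g z = q.eval z • f (ζ, z) := by
  set TM : ℕ → Set ℂ := fun M => {ζ | ζ ∈ T ∧ ∃ q : Polynomial ℂ, q ≠ 0 ∧ q.natDegree ≤ M ∧
    ∃ g : ℂ → Fin (N + 1) → ℂ, DifferentiableOn ℂ g (ball zc r₂) ∧
      ∀ z, r₁ < dist z zc → dist z zc < r₂ → g z = q.eval z • f (ζ, z)} with hTM
  have hex : ∃ M, ¬ (TM M).Countable := by
    by_contra hcon
    push Not at hcon
    refine hTu ((Set.countable_iUnion hcon).mono ?_)
    intro ζ hζ
    obtain ⟨q, hq0, g, hg, hgf⟩ := hq ζ hζ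
    exact Set.mem_iUnion.2 ⟨q.natDegree, hζ, q, hq0, le_rfl, g, hg, hgf⟩
  obtain ⟨M, hM⟩ := hex
  obtain ⟨x, hx, hacc⟩ := hankel_acc hM
  intro ζ hζ
  obtain ⟨q, hq0, -, g, hg, hgf⟩ := hankel_fill_acc hr₁ hr hf (S := TM M)
    (fun s hs => hT hs.1) (hT hx.1) hacc (fun s hs => hs.2) ζ hζ
  exact ⟨q, hq0, g, hg, hgf⟩

alias hankel_unc := hankel_fill_unc

end Pool.Agent.G3.C

end

section

open MvPolynomial
open Pool.Agent.H17GT (coordFun functionField)

noncomputable section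

namespace Pool.Agent.H62.FC

variable {N : ℕ} {O : Finset (Fin (N + 1))} {P : Ideal (MvPolynomial (Fin (N + 1)) ℂ)}

end Pool.Agent.H62.FC

end
end

section

/-!
# Fermat covers: the components
-/

open MvPolynomial Topology Filter
open Pool.Agent.H17GT (coordFun functionField)
open Pool.Agent.H17LG.Variety (FunField)

noncomputable section

namespace Pool.Agent.H62.FC

variable {N : ℕ} {κ : Type} {A : κ → MvPolynomial (Fin (N + 1)) ℂ} {e : κ → ℕ}
  {O : Finset (Fin (N + 1))} {P : Ideal (MvPolynomial (Fin (N + 1)) ℂ)}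

/-- A variety of positive dimension has a non-zero coordinate. -/
lemma exists_X_notMem [P.IsPrime] {r : ℕ} (hr : 1 ≤ r)
    (hz : ∃ z : Fin r → FunField P, IsTranscendenceBasis ℂ z) : ∃ i, X i ∉ P := by
  by_contra hcon
  push Not at hcon
  obtain ⟨z, hz⟩ := hz
  have h1 : functionField P = ⊥ := by
    rw [functionField, IntermediateField.adjoin_eq_bot_iff]
    rintro f ⟨i, j, rfl⟩
    have h2 : coordFun P i = 0 := by
      rw [coordFun, Ideal.Quotient.eq_zero_iff_mem.mpr (hcon i), map_zero]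
    rw [h2, zero_div]
    exact zero_mem _
  have h2 : Transcendental ℂ (z ⟨0, hr⟩) := by
    have := hz.1.transcendental ⟨0, hr⟩
    exact this
  apply h2
  set y : functionField P := z ⟨0, hr⟩ with hy
  have h3 : (y : FractionRing (MvPolynomial (Fin (N + 1)) ℂ ⧸ P)) ∈
      (⊥ : IntermediateField ℂ (FractionRing (MvPolynomial (Fin (N + 1)) ℂ ⧸ P))) := by
    rw [← h1]
    exact y.2
  obtain ⟨c, hc⟩ := IntermediateField.mem_bot.mp h3
  have h4 : y = algebraMap ℂ (functionField P) c := Subtype.ext hc.symm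
  have h5 : IsAlgebraic ℂ y := by
    rw [h4]
    exact isAlgebraic_algebraMap c
  exact h5

end Pool.Agent.H62.FC

end
end

section

/-!
# G3 F LiftH: lifts of curves on discs to `ℂ^(k+1)`

As `H19T.exists_lift_torus` (`H19T/FCur`), on discs: locally `u (F z) - v (F z) ∈ Λ` with `v` analytic (`TMap.loc`), `Λ` discrete; the derivatives of the local functions `v (F z)` agree and have a primitive on the disc.
-/

set_option autoImplicit false

open Topology Filter Metric MvPolynomial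

namespace Pool.Agent.G3

open Pool.Agent.H36.BP (EN fs wd Sub Curve)
open Pool.Agent.H14.PP (IsCone CurveAt Tan)
open Pool.Agent.H62.EF (MN pr)
open Pool.Agent.AD (Vd Chart Charts)
open Pool.Agent.TG (TMap Lat Geo Gd VForm Fb)

variable {N k : ℕ} {X : Set (EN N)} {Λ : AddSubgroup (Vd (k + 1))} {u : EN N → Vd (k + 1)} {D : Set (Vd (k + 1))} {p : EN N → EN N → ℝ} {m d : ℕ} {C C₁ : ℝ}
  {Q : EN N → ℂ}

/-- local lifts with values in a vector space modulo a discrete subgroup glue on a disc -/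
private theorem glue_disc {E : Type*} [NormedAddCommGroup E] [NormedSpace ℂ E] [CompleteSpace E] {Λ : AddSubgroup E} {δ : ℝ} (hδ : 0 < δ)
    (hΛ : ∀ l ∈ Λ, ‖l‖ < δ → l = 0) {w : ℂ → E} {c : ℂ} {r : ℝ}
    (hloc : ∀ z₀ ∈ ball c r, ∃ h : ℂ → E, AnalyticAt ℂ h z₀ ∧ ∀ᶠ z in 𝓝 z₀, w z - h z ∈ Λ) :
    ∃ h : ℂ → E, DifferentiableOn ℂ h (ball c r) ∧ ∀ z ∈ ball c r, w z - h z ∈ Λ := by
  classical
  rcases le_or_gt r 0 with hr | hr
  · refine ⟨fun _ => 0, differentiableOn_const _, fun z hz => ?_⟩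
    rw [ball_eq_empty.mpr hr] at hz
    exact hz.elim
  have hcc : c ∈ ball c r := mem_ball_self hr
  choose! H hHan hHmem using hloc
  obtain ⟨ψ, hψ⟩ : ∃ ψ : ℂ → E, ψ = fun z => deriv (H z) z := ⟨_, rfl⟩
  -- the local derivatives agree
  have hagree : ∀ z₀ ∈ ball c r, ψ =ᶠ[𝓝 z₀] deriv (H z₀) := by
    intro z₀ hz₀
    filter_upwards [isOpen_ball.mem_nhds hz₀, (hHan z₀ hz₀).eventually_analyticAt, (hHmem z₀ hz₀).eventually_nhds] with z h1 h2 h3
    rw [hψ]
    have h4 : ContinuousAt (fun y => H z y - H z₀ y) z := (hHan z h1).continuousAt.sub h2.continuousAt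
    have h5 : ∀ᶠ y in 𝓝 z, ‖(H z y - H z₀ y) - (H z z - H z₀ z)‖ < δ := by
      have h6 : Tendsto (fun y => (H z y - H z₀ y) - (H z z - H z₀ z)) (𝓝 z) (𝓝 ((H z z - H z₀ z) - (H z z - H z₀ z))) := h4.tendsto.sub_const _
      rw [sub_self] at h6
      have h7 := h6.norm
      rw [norm_zero] at h7
      exact h7.eventually (gt_mem_nhds hδ)
    have h8 : H z =ᶠ[𝓝 z] fun y => H z₀ y + (H z z - H z₀ z) := by
      have h9 := (hHmem z h1).self_of_nhds
      have h10 := h3.self_of_nhds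
      filter_upwards [h5, hHmem z h1, h3] with y h11 h12 h13
      have h14 : (H z y - H z₀ y) - (H z z - H z₀ z) ∈ Λ := by
        have h15 := Λ.sub_mem (Λ.sub_mem h13 h12) (Λ.sub_mem h10 h9)
        have h16 : w y - H z₀ y - (w y - H z y) - (w z - H z₀ z - (w z - H z z)) = (H z y - H z₀ y) - (H z z - H z₀ z) := by abel
        rwa [h16] at h15
      have h17 := hΛ _ h14 h11
      rw [sub_eq_zero, sub_eq_iff_eq_add] at h17
      rw [h17]
      abel
    change deriv (H z) z = deriv (H z₀) z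
    rw [h8.deriv_eq, deriv_add_const]
  have hψd : DifferentiableOn ℂ ψ (ball c r) := by
    intro z₀ hz₀
    have h1 : DifferentiableAt ℂ (deriv (H z₀)) z₀ := (hHan z₀ hz₀).deriv.differentiableAt
    exact (h1.congr_of_eventuallyEq (hagree z₀ hz₀)).differentiableWithinAt
  obtain ⟨g, hg⟩ := hψd.isExactOn_ball
  refine ⟨fun z => g z + (w c - g c), fun z hz => ((hg z hz).differentiableAt.add_const _).differentiableWithinAt, ?_⟩
  -- the difference is locally constant modulo the subgroup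
  have hind : ∀ x ∈ ball c r, ∀ y ∈ ball c r, (w x - g x) - (w y - g y) ∈ Λ := by
    intro x hx y hy
    refine (convex_ball c r).isPreconnected.induction₂ (fun x y => (w x - g x) - (w y - g y) ∈ Λ) ?_ ?_ ?_ hx hy
    · intro z₀ hz₀
      apply mem_nhdsWithin_of_mem_nhds
      have hder : ∀ᶠ z in 𝓝 z₀, HasDerivAt (fun z => H z₀ z - g z) 0 z := by
        filter_upwards [isOpen_ball.mem_nhds hz₀, (hHan z₀ hz₀).eventually_analyticAt, hagree z₀ hz₀] with z h1 h2 h3
        have h4 := h2.differentiableAt.hasDerivAt.sub (hg z h1)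
        rwa [h3, sub_self] at h4
      obtain ⟨ε, hε, hball⟩ := Metric.eventually_nhds_iff_ball.1 hder
      have hconst : ∀ z ∈ ball z₀ ε, H z₀ z - g z = H z₀ z₀ - g z₀ := by
        intro z hz
        exact (convex_ball z₀ ε).is_const_of_fderivWithin_eq_zero (𝕜 := ℂ) (f := fun z => H z₀ z - g z)
          (fun y hy => (hball y hy).differentiableAt.differentiableWithinAt)
          (fun y hy => by
            rw [fderivWithin_of_isOpen isOpen_ball hy]
            ext1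
            exact (hball y hy).deriv) hz (mem_ball_self hε)
      have h0 := (hHmem z₀ hz₀).self_of_nhds
      filter_upwards [hHmem z₀ hz₀, isOpen_ball.mem_nhds (mem_ball_self hε)] with z h1 h2
      have h3 := hconst z h2
      have h4 := Λ.sub_mem h0 h1
      have h5 : (w z₀ - g z₀) - (w z - g z) = (w z₀ - H z₀ z₀ - (w z - H z₀ z)) + ((H z₀ z₀ - g z₀) - (H z₀ z - g z)) := by abel
      change (w z₀ - g z₀) - (w z - g z) ∈ Λ
      rw [h5, h3, sub_self, add_zero]
      exact h4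
    · intro x y z _ _ _ h1 h2
      have h3 := Λ.add_mem h1 h2
      have h4 : (w x - g x) - (w z - g z) = ((w x - g x) - (w y - g y)) + ((w y - g y) - (w z - g z)) := by abel
      rw [h4]
      exact h3
    · intro x y _ _ h1
      have h2 := Λ.neg_mem h1
      rwa [neg_sub] at h2
  intro z hz
  have h1 := hind z hz c hcc
  have h2 : w z - (g z + (w c - g c)) = (w z - g z) - (w c - g c) := by abel
  rw [h2]
  exact h1

theorem exists_cv (hX : IsCone X) (hu : TMap X Λ u) (hΛ : Lat Λ) {F : ℂ → EN N} {c : ℂ} {r : ℝ} (hF : DifferentiableOn ℂ F (ball c r)) (hFX : ∀ z ∈ ball c r, F z ∈ X) :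
    ∃ h : ℂ → Vd (k + 1), Cv X Λ u (ball c r) F h := by
  obtain ⟨δ, hδ, hd⟩ := hΛ.disc
  obtain ⟨h, h1, h2⟩ := glue_disc (Λ := Λ) hδ hd (w := fun z => u (F z)) (c := c) (r := r) (by
    intro z₀ hz₀
    obtain ⟨v, hv, hm⟩ := hu.loc (F z₀) (hFX z₀ hz₀)
    have hFa : AnalyticAt ℂ F z₀ := hF.analyticAt (isOpen_ball.mem_nhds hz₀)
    refine ⟨fun z => v (F z), AnalyticAt.comp (g := v) (f := F) hv hFa, ?_⟩
    filter_upwards [hFa.continuousAt.tendsto.eventually hm, isOpen_ball.mem_nhds hz₀] with z h1 h2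
    exact h1 (hFX z h2))
  exact ⟨h, hF, h1, hFX, h2⟩

end Pool.Agent.G3

end

section

/-!
# G3 Z Circ: circles on lines which avoid a periodic closed set

Plan.  For fixed `b` the set `{z : z • a + b ∈ S}` is closed and countable, so the set of its norms is countable and some radius `ρ ∈ (r₂/2, r₂)` is not in it; the circle is compact and `S` closed, so its
distance from `S` is positive, also for nearby `b'` (half of it).  Compactness modulo the lattice `Γ` (`Lat.cpt`; `S` is `Γ`-invariant): finitely many `b` suffice.  `r₁ = r₂ / 2`.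
-/

set_option autoImplicit false

open Topology Filter Metric

namespace Pool.Agent.G3

open Pool.Agent.H36.BP (EN fs wd Sub)
open Pool.Agent.H14.PP (IsCone CurveAt Tan)
open Pool.Agent.H62.EF (MN pr)
open Pool.Agent.AD (Vd Chart Charts)
open Pool.Agent.TG (TMap Lat Geo Gd)

variable {k : ℕ}

/-- the local statement: a uniform distance for all `b'` near `b` -/
private theorem circ_loc {A : Set (Vd (k + 1))} (hA : IsClosed A) {a : Vd (k + 1)} (b : Vd (k + 1))
    (hc : Set.Countable {z : ℂ | z • a + b ∈ A}) {r₂ : ℝ} (hr₂ : 0 < r₂) :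
    ∃ δ r : ℝ, 0 < δ ∧ r ∈ Set.Icc (r₂ / 2) r₂ ∧ ∀ b' ∈ ball b δ, ∀ z : ℂ, ‖z‖ = r → ∀ w ∈ A, δ ≤ ‖z • a + b' - w‖ := by
  have h1 : ((fun z : ℂ => ‖z‖) '' {z : ℂ | z • a + b ∈ A}).Countable := hc.image _
  have h2 : Dense ((fun z : ℂ => ‖z‖) '' {z : ℂ | z • a + b ∈ A})ᶜ := h1.dense_compl ℝ
  obtain ⟨r, hrI, hrn⟩ := h2.inter_open_nonempty (Set.Ioo (r₂ / 2) r₂) isOpen_Ioo (Set.nonempty_Ioo.2 (by linarith))
  set K : Set (Vd (k + 1)) := (fun z : ℂ => z • a + b) '' sphere (0 : ℂ) r with hKd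
  have hK : IsCompact K := (isCompact_sphere (0 : ℂ) r).image (by fun_prop)
  have hd : Disjoint K A := by
    rw [Set.disjoint_left]
    rintro x ⟨z, hz, rfl⟩ hx
    exact hrn ⟨z, hx, mem_sphere_zero_iff_norm.1 hz⟩
  obtain ⟨δ, hδ, hdis⟩ := hd.exists_thickenings hK hA
  refine ⟨δ / 2, r, by positivity, ⟨hrI.1.le, hrI.2.le⟩, ?_⟩
  intro b' hb' z hz w hw
  have hzK : z • a + b ∈ K := ⟨z, mem_sphere_zero_iff_norm.2 hz, rfl⟩
  have h3 : δ ≤ ‖z • a + b - w‖ := by
    by_contra hlt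
    rw [not_le] at hlt
    have h4 : w ∈ thickening δ K := by
      rw [mem_thickening_iff]
      exact ⟨z • a + b, hzK, by rw [dist_comm, dist_eq_norm]; exact hlt⟩
    exact Set.disjoint_left.1 hdis h4 (self_subset_thickening hδ A hw)
  have h5 : ‖b - b'‖ < δ / 2 := by
    rw [← dist_eq_norm, dist_comm]
    exact hb'
  have h6 : ‖z • a + b - w‖ ≤ ‖z • a + b' - w‖ + ‖b - b'‖ := by
    have h7 : z • a + b - w = (z • a + b' - w) + (b - b') := by abel
    rw [h7]
    exact norm_add_le _ _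
  linarith

theorem circ {A : Set (Vd (k + 1))} (hA : IsClosed A) {Γ : AddSubgroup (Vd (k + 1))} (hΓ : Lat Γ) (hinv : ∀ y ∈ A, ∀ l ∈ Γ, y + l ∈ A) {a : Vd (k + 1)}
    (hc : ∀ b : Vd (k + 1), Set.Countable {z : ℂ | z • a + b ∈ A}) {r₂ : ℝ} (hr₂ : 0 < r₂) :
    ∃ δ r₁ : ℝ, 0 < δ ∧ 0 < r₁ ∧ r₁ ≤ r₂ ∧ ∀ b : Vd (k + 1), ∃ r ∈ Set.Icc r₁ r₂, ∀ z : ℂ, ‖z‖ = r → ∀ w ∈ A, δ ≤ ‖z • a + b - w‖ := by
  obtain ⟨R, -, hR⟩ := hΓ.cpt
  have key : ∃ δ : ℝ, 0 < δ ∧ ∀ b ∈ closedBall (0 : Vd (k + 1)) R, ∃ r ∈ Set.Icc (r₂ / 2) r₂, ∀ z : ℂ, ‖z‖ = r → ∀ w ∈ A, δ ≤ ‖z • a + b - w‖ := by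
    refine (isCompact_closedBall (0 : Vd (k + 1)) R).induction_on
      (p := fun S => ∃ δ : ℝ, 0 < δ ∧ ∀ b ∈ S, ∃ r ∈ Set.Icc (r₂ / 2) r₂, ∀ z : ℂ, ‖z‖ = r → ∀ w ∈ A, δ ≤ ‖z • a + b - w‖) ?_ ?_ ?_ ?_
    · exact ⟨1, one_pos, fun b hb => absurd hb (Set.notMem_empty b)⟩
    · rintro s t hst ⟨δ, hδ, h⟩
      exact ⟨δ, hδ, fun b hb => h b (hst hb)⟩
    · rintro s t ⟨δ, hδ, h⟩ ⟨δ', hδ', h'⟩
      refine ⟨min δ δ', lt_min hδ hδ', fun b hb => ?_⟩
      rcases hb with hb | hb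
      · obtain ⟨r, hr, hz⟩ := h b hb
        exact ⟨r, hr, fun z hzr w hw => (min_le_left _ _).trans (hz z hzr w hw)⟩
      · obtain ⟨r, hr, hz⟩ := h' b hb
        exact ⟨r, hr, fun z hzr w hw => (min_le_right _ _).trans (hz z hzr w hw)⟩
    · intro b _
      obtain ⟨δ, r, hδ, hr, h⟩ := circ_loc hA b (hc b) hr₂
      exact ⟨ball b δ, mem_nhdsWithin_of_mem_nhds (ball_mem_nhds b hδ), δ, hδ, fun b' hb' => ⟨r, hr, h b' hb'⟩⟩
  obtain ⟨δ, hδ, h⟩ := key
  refine ⟨δ, r₂ / 2, hδ, by linarith, by linarith, fun b => ?_⟩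
  obtain ⟨l, hl, hbl⟩ := hR b
  obtain ⟨r, hr, hz⟩ := h (b - l) (mem_closedBall_zero_iff.2 hbl)
  refine ⟨r, hr, fun z hzr w hw => ?_⟩
  have h1 := hz z hzr (w + -l) (hinv w hw (-l) (Γ.neg_mem hl))
  have h2 : z • a + (b - l) - (w + -l) = z • a + b - w := by abel
  rwa [h2] at h1

end Pool.Agent.G3

end

section

/-!
# G3 C8: Hankel determinants, joint version

The kernel of the Hankel matrix is holomorphic in the parameter: take the least `M` such that all
minors with the columns `0, …, M` vanish identically, `M` rows `r` whose minor with the columns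
`0, …, M - 1` does not vanish identically, and the cofactors of the matrices with the rows `p, r`;
divide by a power of `ζ - ζ₀`.
-/

set_option autoImplicit false

open Topology Filter Metric Set

namespace Pool.Agent.G3.C

/-- the moments -/
noncomputable def hkm {N : ℕ} (f : ℂ × ℂ → Fin (N + 1) → ℂ) (zc : ℂ) (ρ : ℝ) (ζ : ℂ)
    (p : Fin (N + 1) × ℕ) (l : ℕ) : ℂ := ∮ z in C(zc, ρ), z ^ (p.2 + l) * f (ζ, z) p.1

section

variable {N : ℕ} {ζ₀ : ℂ} {ε : ℝ} {zc : ℂ} {r₁ r₂ ρ : ℝ} {f : ℂ × ℂ → Fin (N + 1) → ℂ}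

private lemma hj_slice
    (hf : DifferentiableOn ℂ f (ball ζ₀ ε ×ˢ {z | r₁ < dist z zc ∧ dist z zc < r₂})) {ζ : ℂ}
    (hζ : ζ ∈ ball ζ₀ ε) (j : Fin (N + 1)) :
    DifferentiableOn ℂ (fun z => f (ζ, z) j) {z | r₁ < dist z zc ∧ dist z zc < r₂} := by
  refine (differentiableOn_pi.1 hf j).comp (f := fun z : ℂ => (ζ, z)) ?_ fun z hz => ⟨hζ, hz⟩
  exact (differentiable_const ζ).prodMk differentiable_id |>.differentiableOn

private lemma hj_diff (hρ : 0 < ρ) (h1 : r₁ < ρ) (h2 : ρ < r₂)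
    (hf : DifferentiableOn ℂ f (ball ζ₀ ε ×ˢ {z | r₁ < dist z zc ∧ dist z zc < r₂}))
    (p : Fin (N + 1) × ℕ) (l : ℕ) : DifferentiableOn ℂ (fun ζ => hkm f zc ρ ζ p l) (ball ζ₀ ε) := by
  have hsph := hankel_sphere (zc := zc) h1 h2
  refine hankel_param isOpen_ball hρ (F := fun q : ℂ × ℂ => q.2 ^ (p.2 + l) * f q p.1) ?_ ?_
  · exact (by fun_prop : ContinuousOn (fun q : ℂ × ℂ => q.2 ^ (p.2 + l)) _).mul
      ((differentiableOn_pi.1 hf p.1).continuousOn.mono (Set.prod_mono subset_rfl hsph))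
  · intro z hz
    refine DifferentiableOn.const_mul (b := z ^ (p.2 + l)) ?_
    refine (differentiableOn_pi.1 hf p.1).comp (f := fun ζ : ℂ => (ζ, z)) ?_
      fun ζ hζ => ⟨hζ, hsph hz⟩
    exact differentiable_id.prodMk (differentiable_const z) |>.differentiableOn

private lemma hj_key (hρ : 0 < ρ) (h1 : r₁ < ρ) (h2 : ρ < r₂)
    (hf : DifferentiableOn ℂ f (ball ζ₀ ε ×ˢ {z | r₁ < dist z zc ∧ dist z zc < r₂})) {ζ : ℂ}
    (hζ : ζ ∈ ball ζ₀ ε) {n : ℕ} (c : Fin n → ℂ) (p : Fin (N + 1) × ℕ) :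
    ∑ l : Fin n, c l * hkm f zc ρ ζ p l =
      ∮ z in C(zc, ρ), z ^ p.2 * ((∑ l : Fin n, c l * z ^ (l : ℕ)) * f (ζ, z) p.1) := by
  have hsph := hankel_sphere (zc := zc) h1 h2
  have h3 : ∀ z : ℂ, z ^ p.2 * ((∑ l : Fin n, c l * z ^ (l : ℕ)) * f (ζ, z) p.1) =
      ∑ l : Fin n, c l * (z ^ (p.2 + (l : ℕ)) * f (ζ, z) p.1) := by
    intro z
    rw [Finset.sum_mul, Finset.mul_sum]
    exact Finset.sum_congr rfl fun l _ => by rw [pow_add]; ring
  simp only [h3]
  rw [circleIntegral.integral_fun_sum]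
  · refine Finset.sum_congr rfl fun l _ => ?_
    rw [circleIntegral.integral_const_mul]
    rfl
  · intro l _
    refine CircleIntegrable.const_fun_smul (a := c l) ?_
    refine ContinuousOn.circleIntegrable hρ.le ?_
    exact (by fun_prop : ContinuousOn (fun z : ℂ => z ^ (p.2 + (l : ℕ))) _).mul
      ((hj_slice hf hζ p.1).continuousOn.mono hsph)

/-- holomorphic determinants -/
private lemma hj_det (hρ : 0 < ρ) (h1 : r₁ < ρ) (h2 : ρ < r₂)
    (hf : DifferentiableOn ℂ f (ball ζ₀ ε ×ˢ {z | r₁ < dist z zc ∧ dist z zc < r₂})) {n : ℕ}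
    (r : Fin n → Fin (N + 1) × ℕ) (k : Fin n → ℕ) :
    DifferentiableOn ℂ (fun ζ => (Matrix.of fun i l => hkm f zc ρ ζ (r i) (k l)).det)
      (ball ζ₀ ε) := by
  simp only [Matrix.det_apply']
  refine DifferentiableOn.fun_sum fun σ _ => ?_
  refine DifferentiableOn.const_mul ?_ _
  refine DifferentiableOn.fun_finsetProd fun i _ => ?_
  exact hj_diff hρ h1 h2 hf (r (σ i)) (k i)

/-- some size of minors vanishes identically -/
private lemma hj_minors (hr₁ : 0 < r₁) (h1 : r₁ < ρ) (h2 : ρ < r₂)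
    (hf : DifferentiableOn ℂ f (ball ζ₀ ε ×ˢ {z | r₁ < dist z zc ∧ dist z zc < r₂}))
    {T : Set ℂ} (hT : T ⊆ ball ζ₀ ε) (hTu : ¬ T.Countable)
    (hq : ∀ ζ ∈ T, ∃ q : Polynomial ℂ, q ≠ 0 ∧ ∃ g : ℂ → Fin (N + 1) → ℂ,
      DifferentiableOn ℂ g (ball zc r₂) ∧
        ∀ z, r₁ < dist z zc → dist z zc < r₂ → g z = q.eval z • f (ζ, z)) :
    ∃ M : ℕ, ∀ r : Fin (M + 1) → Fin (N + 1) × ℕ, ∀ ζ ∈ ball ζ₀ ε,
      (Matrix.of fun i (l : Fin (M + 1)) => hkm f zc ρ ζ (r i) l).det = 0 := by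
  have hρ : 0 < ρ := hr₁.trans h1
  have hsph := hankel_sphere (zc := zc) h1 h2
  set TM : ℕ → Set ℂ := fun M => {ζ | ζ ∈ T ∧ ∃ q : Polynomial ℂ, q ≠ 0 ∧ q.natDegree ≤ M ∧
    ∃ g : ℂ → Fin (N + 1) → ℂ, DifferentiableOn ℂ g (ball zc r₂) ∧
      ∀ z, r₁ < dist z zc → dist z zc < r₂ → g z = q.eval z • f (ζ, z)} with hTM
  have hex : ∃ M, ¬ (TM M).Countable := by
    by_contra hcon
    push Not at hcon
    refine hTu ((Set.countable_iUnion hcon).mono ?_)
    intro ζ hζ
    obtain ⟨q, hq0, g, hg, hgf⟩ := hq ζ hζ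
    exact Set.mem_iUnion.2 ⟨q.natDegree, hζ, q, hq0, le_rfl, g, hg, hgf⟩
  obtain ⟨M, hM⟩ := hex
  obtain ⟨x, hx, hacc⟩ := hankel_acc hM
  refine ⟨M, fun r => ?_⟩
  have hdet := hj_det hρ h1 h2 hf r (fun l : Fin (M + 1) => (l : ℕ))
  have han := hdet.analyticOnNhd isOpen_ball
  have hfreq : ∃ᶠ ζ in 𝓝[≠] x,
      (Matrix.of fun i (l : Fin (M + 1)) => hkm f zc ρ ζ (r i) l).det = 0 := by
    refine hacc.mono fun s hs => ?_
    obtain ⟨hsT, q, hq0, hqM, g, hg, hgf⟩ := hs
    have hsb : s ∈ ball ζ₀ ε := hT hsT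
    have hqe : ∀ z : ℂ, (∑ l : Fin (M + 1), q.coeff l * z ^ (l : ℕ)) = q.eval z := by
      intro z
      rw [Finset.sum_fin_eq_sum_range, Polynomial.eval_eq_sum_range' (n := M + 1) (by omega)]
      refine Finset.sum_congr rfl fun i hi => ?_
      rw [dif_pos (Finset.mem_range.1 hi)]
    refine hankel_det (fun p (l : Fin (M + 1)) => hkm f zc ρ s p l)
      (c := fun l : Fin (M + 1) => q.coeff l) ?_ ?_ r
    · intro h0
      apply hq0
      ext n
      by_cases hn : n < M + 1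
      · exact congrFun h0 ⟨n, hn⟩
      · rw [Polynomial.coeff_zero]
        exact Polynomial.coeff_eq_zero_of_natDegree_lt (by omega)
    · intro p
      rw [hj_key hρ h1 h2 hf hsb]
      simp only [hqe]
      have h3 : (∮ z in C(zc, ρ), z ^ p.2 * (q.eval z * f (s, z) p.1)) =
          ∮ z in C(zc, ρ), z ^ p.2 * g z p.1 := by
        refine circleIntegral.integral_congr hρ.le fun z hz => ?_
        have hz' := hsph hz
        have := congrFun (hgf z hz'.1 hz'.2) p.1
        simp only [Pi.smul_apply, smul_eq_mul] at this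
        simp only [this]
      rw [h3]
      refine DiffContOnCl.circleIntegral_eq_zero hρ.le ?_
      refine DifferentiableOn.diffContOnCl ?_
      rw [closure_ball _ hρ.ne']
      have h4 : DifferentiableOn ℂ (fun z => g z p.1) (ball zc r₂) := differentiableOn_pi.1 hg p.1
      exact (by fun_prop : DifferentiableOn ℂ (fun z : ℂ => z ^ p.2) _).mul
        (h4.mono (closedBall_subset_ball h2))
  have := han.eqOn_zero_of_preconnected_of_frequently_eq_zero
    (convex_ball _ _).isPreconnected (hT hx.1) hfreq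
  intro ζ hζ
  exact this hζ

/-- a holomorphic kernel vector, not identically zero -/
private lemma hj_kernel (hρ : 0 < ρ) (h1 : r₁ < ρ) (h2 : ρ < r₂) (hε : 0 < ε)
    (hf : DifferentiableOn ℂ f (ball ζ₀ ε ×ˢ {z | r₁ < dist z zc ∧ dist z zc < r₂}))
    (hM : ∃ M : ℕ, ∀ r : Fin (M + 1) → Fin (N + 1) × ℕ, ∀ ζ ∈ ball ζ₀ ε,
      (Matrix.of fun i (l : Fin (M + 1)) => hkm f zc ρ ζ (r i) l).det = 0) :
    ∃ (M : ℕ) (c : ℂ → Fin (M + 1) → ℂ), DifferentiableOn ℂ c (ball ζ₀ ε) ∧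
      (∃ ζ ∈ ball ζ₀ ε, c ζ ≠ 0) ∧
        ∀ ζ ∈ ball ζ₀ ε, ∀ p, ∑ l : Fin (M + 1), c ζ l * hkm f zc ρ ζ p l = 0 := by
  classical
  have hmin : ∃ M : ℕ, (∀ r : Fin (M + 1) → Fin (N + 1) × ℕ, ∀ ζ ∈ ball ζ₀ ε,
      (Matrix.of fun i (l : Fin (M + 1)) => hkm f zc ρ ζ (r i) l).det = 0) ∧
      ∃ r : Fin M → Fin (N + 1) × ℕ, ∃ ζ ∈ ball ζ₀ ε,
        (Matrix.of fun i (l : Fin M) => hkm f zc ρ ζ (r i) l).det ≠ 0 := by
    refine ⟨Nat.find hM, Nat.find_spec hM, ?_⟩
    rcases hn : Nat.find hM with _ | n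
    · refine ⟨fun i => i.elim0, ζ₀, mem_ball_self hε, ?_⟩
      rw [Matrix.det_isEmpty]
      exact one_ne_zero
    · have := Nat.find_min hM (m := n) (by omega)
      push Not at this
      exact this
  obtain ⟨M, hM0, r, ζs, hζs, hne⟩ := hmin
  refine ⟨M, fun ζ l => (-1) ^ (l : ℕ) *
    (Matrix.of fun (i : Fin M) (k : Fin M) => hkm f zc ρ ζ (r i) ((l.succAbove k : Fin (M + 1)) : ℕ)).det,
    ?_, ⟨ζs, hζs, ?_⟩, ?_⟩
  · rw [differentiableOn_pi]
    intro l
    refine DifferentiableOn.const_mul ?_ _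
    exact hj_det hρ h1 h2 hf r fun k => ((l.succAbove k : Fin (M + 1)) : ℕ)
  · intro h0
    have h3 := congrFun h0 (Fin.last M)
    simp only [Pi.zero_apply, mul_eq_zero] at h3
    rcases h3 with h3 | h3
    · exact (pow_ne_zero _ (by norm_num : (-1 : ℂ) ≠ 0)) h3
    · apply hne
      rw [← h3]
      congr 1
      ext i k
      simp
  · intro ζ hζ p
    have h3 := hM0 (Fin.cons p r) ζ hζ
    rw [Matrix.det_succ_row_zero] at h3
    rw [← h3]
    refine Finset.sum_congr rfl fun l _ => ?_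
    simp only [Matrix.of_apply, Fin.cons_zero]
    have h4 : (Matrix.of fun (i : Fin M) (k : Fin M) =>
        hkm f zc ρ ζ (r i) ((l.succAbove k : Fin (M + 1)) : ℕ)) =
        (Matrix.of fun (i : Fin (M + 1)) (l : Fin (M + 1)) =>
          hkm f zc ρ ζ ((Fin.cons p r : Fin (M + 1) → Fin (N + 1) × ℕ) i) l).submatrix
            Fin.succ l.succAbove := by
      ext i k
      simp
    rw [h4]
    ring

end

/-- **Hankel determinants**, joint version. -/
theorem hankel_joint {N : ℕ} {ζ₀ : ℂ} {ε : ℝ} (hε : 0 < ε) {zc : ℂ} {r₁ r₂ : ℝ} (hr₁ : 0 < r₁)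
    (hr : r₁ < r₂) {f : ℂ × ℂ → Fin (N + 1) → ℂ}
    (hf : DifferentiableOn ℂ f (ball ζ₀ ε ×ˢ {z | r₁ < dist z zc ∧ dist z zc < r₂}))
    {T : Set ℂ} (hT : T ⊆ ball ζ₀ ε) (hTu : ¬ T.Countable)
    (hq : ∀ ζ ∈ T, ∃ q : Polynomial ℂ, q ≠ 0 ∧ ∃ g : ℂ → Fin (N + 1) → ℂ,
      DifferentiableOn ℂ g (ball zc r₂) ∧
        ∀ z, r₁ < dist z zc → dist z zc < r₂ → g z = q.eval z • f (ζ, z)) :
    ∃ ε' : ℝ, 0 < ε' ∧ ε' ≤ ε ∧ ∃ (Q : ℂ × ℂ → ℂ) (G : ℂ × ℂ → Fin (N + 1) → ℂ),
      DifferentiableOn ℂ Q (ball ζ₀ ε' ×ˢ univ) ∧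
      (∀ ζ ∈ ball ζ₀ ε', ∃ q : Polynomial ℂ, q ≠ 0 ∧ ∀ z, Q (ζ, z) = q.eval z) ∧
      DifferentiableOn ℂ G (ball ζ₀ ε' ×ˢ ball zc r₂) ∧
      ∀ ζ ∈ ball ζ₀ ε', ∀ z, r₁ < dist z zc → dist z zc < r₂ → G (ζ, z) = Q (ζ, z) • f (ζ, z) := by
  classical
  obtain ⟨ρ, hρ1, hρ2⟩ := exists_between hr
  have hρ : 0 < ρ := hr₁.trans hρ1
  obtain ⟨M, c, hcd, ⟨ζs, hζs, hcs⟩, hck⟩ :=
    hj_kernel hρ hρ1 hρ2 hε hf (hj_minors hr₁ hρ1 hρ2 hf hT hTu hq)
  have hζ₀ : ζ₀ ∈ ball ζ₀ ε := mem_ball_self hε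
  have hca : AnalyticOnNhd ℂ c (ball ζ₀ ε) := hcd.analyticOnNhd isOpen_ball
  have hnz : ¬ ∀ᶠ ζ in 𝓝 ζ₀, c ζ = 0 := fun h =>
    hcs (hca.eqOn_zero_of_preconnected_of_eventuallyEq_zero (convex_ball _ _).isPreconnected
      hζ₀ h hζs)
  obtain ⟨n, d, hda, hd0, hde⟩ :=
    ((hca ζ₀ hζ₀).exists_eventuallyEq_pow_smul_nonzero_iff).2 hnz
  have hev : ∀ᶠ ζ in 𝓝 ζ₀, AnalyticAt ℂ d ζ ∧ d ζ ≠ 0 ∧ c ζ = (ζ - ζ₀) ^ n • d ζ :=
    hda.eventually_analyticAt.and ((hda.continuousAt.eventually_ne hd0).and hde)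
  obtain ⟨ε₁, hε₁, hball⟩ := Metric.eventually_nhds_iff_ball.1 hev
  set ε' : ℝ := min ε₁ ε with hε'd
  have hε' : 0 < ε' := lt_min hε₁ hε
  have hsub : ball ζ₀ ε' ⊆ ball ζ₀ ε := ball_subset_ball (min_le_right _ _)
  have hsub₁ : ball ζ₀ ε' ⊆ ball ζ₀ ε₁ := ball_subset_ball (min_le_left _ _)
  have hda' : ∀ ζ ∈ ball ζ₀ ε', AnalyticAt ℂ d ζ := fun ζ hζ => (hball ζ (hsub₁ hζ)).1
  have hdl : ∀ ζ ∈ ball ζ₀ ε', ∀ l, DifferentiableAt ℂ (fun ζ => d ζ l) ζ := fun ζ hζ l =>
    (differentiableAt_pi.1 (hda' ζ hζ).differentiableAt) l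
  have hdk : ∀ ζ ∈ ball ζ₀ ε', ∀ p, ∑ l : Fin (M + 1), d ζ l * hkm f zc ρ ζ p l = 0 := by
    have h1 : ∀ ζ ∈ ball ζ₀ ε', ζ ≠ ζ₀ → ∀ p, ∑ l : Fin (M + 1), d ζ l * hkm f zc ρ ζ p l = 0 := by
      intro ζ hζ hne p
      have h2 := hck ζ (hsub hζ) p
      rw [(hball ζ (hsub₁ hζ)).2.2] at h2
      simp only [Pi.smul_apply, smul_eq_mul, mul_assoc] at h2
      rw [← Finset.mul_sum] at h2
      exact (mul_eq_zero.1 h2).resolve_left (pow_ne_zero _ (sub_ne_zero.2 hne))
    intro ζ hζ p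
    by_cases hne : ζ = ζ₀
    · subst hne
      have hcont : ContinuousAt (fun ξ => ∑ l : Fin (M + 1), d ξ l * hkm f zc ρ ξ p l) ζ := by
        refine DifferentiableAt.continuousAt (𝕜 := ℂ) ?_
        refine DifferentiableAt.fun_sum fun l _ => ?_
        refine (hdl ζ hζ l).mul ?_
        exact (hj_diff hρ hρ1 hρ2 hf p l).differentiableAt (isOpen_ball.mem_nhds (hsub hζ))
      have h2 : Tendsto (fun ξ => ∑ l : Fin (M + 1), d ξ l * hkm f zc ρ ξ p l) (𝓝[≠] ζ) (𝓝 0) := by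
        refine tendsto_const_nhds.congr' ?_
        have h3 : ∀ᶠ ξ in 𝓝[≠] ζ, ξ ∈ ball ζ ε' :=
          eventually_nhdsWithin_of_eventually_nhds (isOpen_ball.mem_nhds hζ)
        filter_upwards [h3, self_mem_nhdsWithin] with ξ h4 h5
        exact (h1 ξ h4 h5 p).symm
      exact tendsto_nhds_unique (hcont.tendsto.mono_left nhdsWithin_le_nhds) h2
    · exact h1 ζ hζ hne p
  -- the polynomials
  set Q : ℂ × ℂ → ℂ := fun q => ∑ l : Fin (M + 1), d q.1 l * q.2 ^ (l : ℕ) with hQ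
  have hQd : DifferentiableOn ℂ Q (ball ζ₀ ε' ×ˢ univ) := by
    intro q hq'
    refine DifferentiableAt.differentiableWithinAt ?_
    refine DifferentiableAt.fun_sum fun l _ => ?_
    refine DifferentiableAt.mul ?_ (by fun_prop)
    exact (hdl q.1 hq'.1 l).comp q differentiableAt_fst
  have hQe : ∀ ζ ∈ ball ζ₀ ε', ∃ q : Polynomial ℂ, q ≠ 0 ∧ ∀ z, Q (ζ, z) = q.eval z := by
    intro ζ hζ
    refine ⟨∑ l : Fin (M + 1), Polynomial.C (d ζ l) * Polynomial.X ^ (l : ℕ), ?_, ?_⟩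
    · intro h0
      apply (hball ζ (hsub₁ hζ)).2.1
      funext l
      have h1 := congrArg (fun P : Polynomial ℂ => P.coeff l) h0
      simp only [Polynomial.finsetSum_coeff, Polynomial.coeff_C_mul, Polynomial.coeff_X_pow,
        Polynomial.coeff_zero] at h1
      rw [Finset.sum_eq_single l] at h1
      · simpa using h1
      · intro b _ hb
        have : ¬ ((l : ℕ) = (b : ℕ)) := fun h => hb (Fin.ext h.symm)
        simp [this]
      · simp
    · intro z
      rw [Polynomial.eval_finsetSum]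
      exact Finset.sum_congr rfl fun l _ => by simp
  -- the extensions
  have hext : ∀ (ζ : ℂ) (j : Fin (N + 1)), ∃ J : ℂ → ℂ, ζ ∈ ball ζ₀ ε' →
      DifferentiableOn ℂ J (ball zc r₂) ∧
        ∀ z, r₁ < dist z zc → dist z zc < r₂ → J z = Q (ζ, z) * f (ζ, z) j := by
    intro ζ j
    by_cases hζ : ζ ∈ ball ζ₀ ε'
    · have hQz : DifferentiableOn ℂ (fun z => Q (ζ, z)) {z | r₁ < dist z zc ∧ dist z zc < r₂} := by
        refine hQd.comp (f := fun z : ℂ => (ζ, z)) ?_ fun z hz => ⟨hζ, mem_univ _⟩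
        exact (differentiable_const ζ).prodMk differentiable_id |>.differentiableOn
      have hhd := hQz.mul (hj_slice hf (hsub hζ) j)
      have h0 : ∀ n : ℕ, (∮ z in C(zc, ρ), z ^ n * (Q (ζ, z) * f (ζ, z) j)) = 0 := by
        intro n
        have h1 := hj_key hρ hρ1 hρ2 hf (hsub hζ) (d ζ) (j, n)
        rw [hdk ζ hζ (j, n)] at h1
        exact h1.symm
      obtain ⟨J, hJ1, hJ2⟩ := Pool.Agent.H62.EL.ext_annulus hr₁ hr
        (J := fun z => Q (ζ, z) * f (ζ, z) j) (b := zc) (by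
          refine hhd.mono ?_
          rintro z ⟨hz1, hz2⟩
          rw [← dist_eq_norm] at hz1 hz2
          exact ⟨hz1, hz2⟩) (by
          intro n r hrr hrr'
          have := hankel_moment hr₁ hρ1 hρ2 hhd h0 ((Polynomial.X - Polynomial.C zc) ^ n) hrr hrr'
          simpa using this)
      refine ⟨J, fun _ => ⟨hJ1, fun z hz1 hz2 => ?_⟩⟩
      rw [dist_eq_norm] at hz1 hz2
      exact hJ2 z hz1 hz2
    · exact ⟨0, fun h => absurd h hζ⟩
  choose J hJ using hext
  refine ⟨ε', hε', min_le_right _ _, Q, fun q j => J q.1 j q.2, hQd, hQe, ?_, ?_⟩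
  · rw [differentiableOn_pi]
    rintro j ⟨ζ₁, z₁⟩ ⟨hζ₁, hz₁⟩
    rw [mem_ball] at hz₁
    refine DifferentiableAt.differentiableWithinAt (AnalyticAt.differentiableAt ?_)
    -- a circle around `z₁`
    obtain ⟨ρ', hρ'1, hρ'2⟩ := exists_between (max_lt hz₁ hr)
    have hzρ : dist z₁ zc < ρ' := (le_max_left _ _).trans_lt hρ'1
    have hrρ : r₁ < ρ' := (le_max_right _ _).trans_lt hρ'1
    have hρ' : 0 < ρ' := hr₁.trans hrρ
    have hsph := hankel_sphere (zc := zc) hrρ hρ'2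
    obtain ⟨δ₁, hδ₁, hδb⟩ := Metric.isOpen_iff.1 isOpen_ball ζ₁ hζ₁
    set δ : ℝ := min (δ₁ / 2) ((ρ' - dist z₁ zc) / 2) with hδd
    have hδ : 0 < δ := lt_min (by linarith) (by linarith)
    have hcb : closedBall ζ₁ δ ⊆ ball ζ₀ ε' := by
      refine Subset.trans ?_ hδb
      refine closedBall_subset_ball ?_
      have : δ ≤ δ₁ / 2 := min_le_left _ _
      linarith
    have hzb : ball z₁ δ ⊆ ball zc ρ' := by
      intro z hz
      rw [mem_ball] at hz ⊢
      have h1 : δ ≤ (ρ' - dist z₁ zc) / 2 := min_le_right _ _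
      have := dist_triangle z z₁ zc
      linarith
    have hQf : ContinuousOn (fun q : ℂ × ℂ => Q q * f q j)
        (ball ζ₀ ε' ×ˢ {z | r₁ < dist z zc ∧ dist z zc < r₂}) :=
      (hQd.continuousOn.mono (Set.prod_mono subset_rfl (subset_univ _))).mul
        ((differentiableOn_pi.1 hf j).continuousOn.mono (Set.prod_mono hsub subset_rfl))
    have hK : IsCompact (closedBall ζ₁ δ ×ˢ sphere zc ρ') :=
      (isCompact_closedBall _ _).prod (isCompact_sphere _ _)
    obtain ⟨K, hKb⟩ := hK.exists_bound_of_continuousOn (hQf.mono (Set.prod_mono hcb hsph))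
    have hcl : ∀ ζ ∈ ball ζ₀ ε', DiffContOnCl ℂ (J ζ j) (ball zc ρ') := by
      intro ζ hζ
      refine DifferentiableOn.diffContOnCl ?_
      rw [closure_ball _ hρ'.ne']
      exact (hJ ζ j hζ).1.mono (closedBall_subset_ball hρ'2)
    refine Pool.Agent.TH.osgood (f := fun q : ℂ × ℂ => J q.1 j q.2) hδ (M := K) ?_ ?_ ?_
    · intro ζ hζ z hz
      have hζ' : ζ ∈ ball ζ₀ ε' := hcb (ball_subset_closedBall hζ)
      refine Complex.norm_le_of_forall_mem_frontier_norm_le isBounded_ball (hcl ζ hζ') ?_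
        (subset_closure (hzb hz))
      intro w hw
      rw [frontier_ball _ hρ'.ne'] at hw
      rw [(hJ ζ j hζ').2 w (hsph hw).1 (hsph hw).2]
      exact hKb (ζ, w) ⟨ball_subset_closedBall hζ, hw⟩
    · intro z hz
      have hzρ' : z ∈ ball zc ρ' := hzb hz
      have hwz : ∀ w ∈ sphere zc ρ', w - z ≠ 0 := by
        intro w hw h0
        rw [sub_eq_zero] at h0
        rw [mem_sphere, h0] at hw
        rw [mem_ball, hw] at hzρ'
        exact lt_irrefl _ hzρ'
      have hpar : DifferentiableOn ℂ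
          (fun ζ => ∮ w in C(zc, ρ'), (w - z)⁻¹ * (Q (ζ, w) * f (ζ, w) j)) (ball ζ₀ ε') := by
        refine hankel_param isOpen_ball hρ'
          (F := fun q : ℂ × ℂ => (q.2 - z)⁻¹ * (Q q * f q j)) ?_ ?_
        · refine ContinuousOn.mul ?_ (hQf.mono (Set.prod_mono subset_rfl hsph))
          exact ContinuousOn.inv₀ (by fun_prop) fun q hq' => hwz q.2 hq'.2
        · intro w hw
          refine DifferentiableOn.const_mul (b := (w - z)⁻¹) ?_
          refine DifferentiableOn.mul ?_ ?_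
          · refine hQd.comp (f := fun ζ : ℂ => (ζ, w)) ?_ fun ζ hζ => ⟨hζ, mem_univ _⟩
            exact differentiable_id.prodMk (differentiable_const w) |>.differentiableOn
          · refine (differentiableOn_pi.1 hf j).comp (f := fun ζ : ℂ => (ζ, w)) ?_
              fun ζ hζ => ⟨hsub hζ, hsph hw⟩
            exact differentiable_id.prodMk (differentiable_const w) |>.differentiableOn
      have hform : ∀ ζ ∈ ball ζ₁ δ, (2 * Real.pi * Complex.I : ℂ)⁻¹ *
          (∮ w in C(zc, ρ'), (w - z)⁻¹ * (Q (ζ, w) * f (ζ, w) j)) = J ζ j z := by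
        intro ζ hζ
        have hζ' : ζ ∈ ball ζ₀ ε' := hcb (ball_subset_closedBall hζ)
        have h1 := (hcl ζ hζ').two_pi_i_inv_smul_circleIntegral_sub_inv_smul hzρ'
        rw [← h1, smul_eq_mul]
        congr 1
        refine circleIntegral.integral_congr hρ'.le fun w hw => ?_
        simp only [smul_eq_mul]
        rw [(hJ ζ j hζ').2 w (hsph hw).1 (hsph hw).2]
      refine DifferentiableOn.congr (f := fun ζ => (2 * Real.pi * Complex.I : ℂ)⁻¹ *
          (∮ w in C(zc, ρ'), (w - z)⁻¹ * (Q (ζ, w) * f (ζ, w) j))) ?_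
        fun ζ hζ => (hform ζ hζ).symm
      refine DifferentiableOn.const_mul ?_ _
      exact hpar.mono fun ζ hζ => hcb (ball_subset_closedBall hζ)
    · intro ζ hζ
      have hζ' : ζ ∈ ball ζ₀ ε' := hcb (ball_subset_closedBall hζ)
      exact (hJ ζ j hζ').1.mono (hzb.trans (ball_subset_ball hρ'2.le))
  · intro ζ hζ z hz1 hz2
    funext j
    rw [Pi.smul_apply, smul_eq_mul]
    exact (hJ ζ j hζ).2 z hz1 hz2

end Pool.Agent.G3.C

end
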