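import Pool.Agent.H94.G4T.M20
import Pool.Agent.H94.G4T.M29
import Pool.Agent.H94.G4T.M30

/-! The parts of this file: AD.BD.Defs, H5.BD.CDef, H62.EF.DUl, G3.X.CapZ, H62.SA.Defs, H56.G3.Pc0, G3.X.Defs. -/

section

/-!
# AD BD Defs: curves with bounded distortion in dimension `d`, local analysis: definitions

The family `BC X c L` (`H5.BD.BC`), `evp` and the abstract part `H5.BD.BFlow` are dimension free.
-/

set_option autoImplicit false

open Topology Filter Metric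

namespace Pool.Agent.AD.BD

open Pool.Agent.H36.BP (EN wd)
open Pool.Agent.H14.PP (IsCone CurveAt Tan)
open Pool.Agent.H62.EF (MN pr)

variable {N d : ℕ}

/-- `x` is in the middle of the chart -/
def Good {X : Set (EN N)} (χ : Chart d X) (x : EN N) : Prop := x ∈ X ∧ x ∈ χ.U ∧ ‖χ.q x‖ ≤ 1 / 2

/-- a finite atlas with a Lebesgue number `δ`, and a bound `C` for the charts and the changes of charts -/
structure Atlas (d : ℕ) (X : Set (EN N)) where
  n : ℕ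
  χ : Fin n → Chart d X
  idx : MN N → Fin n
  δ : ℝ
  C : ℝ
  δ_pos : 0 < δ
  one_le : 1 ≤ C
  good : ∀ x ∈ X, ∀ y ∈ X, dist (pr x) (pr y) ≤ δ → Good (χ (idx (pr x))) y
  dist_le : ∀ i x y, Good (χ i) x → Good (χ i) y → dist (pr x) (pr y) ≤ C * ‖(χ i).q x - (χ i).q y‖
  le_dist : ∀ i x y, Good (χ i) x → Good (χ i) y → ‖(χ i).q x - (χ i).q y‖ ≤ C * dist (pr x) (pr y)
  fd_le : ∀ i j x, Good (χ i) x → Good (χ j) x → ‖fderiv ℂ (fun p => (χ j).q ((χ i).σ p)) ((χ i).q x)‖ ≤ C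
  fd_inv : ∀ i j x u, Good (χ i) x → Good (χ j) x →
    fderiv ℂ (fun p => (χ j).q ((χ i).σ p)) ((χ i).q x) (fderiv ℂ (fun p => (χ i).q ((χ j).σ p)) ((χ j).q x) u) = u
  trans : ∀ i j x y, Good (χ i) x → Good (χ j) x → Good (χ i) y → Good (χ j) y →
    ‖(χ j).q y - (χ j).q x - fderiv ℂ (fun p => (χ j).q ((χ i).σ p)) ((χ i).q x) ((χ i).q y - (χ i).q x)‖ ≤
      C * ‖(χ i).q y - (χ i).q x‖ ^ 2

end Pool.Agent.AD.BD

end

section

/-!
# Project BD, local analysis: definitions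

`X` is the cone of a smooth projective surface.  `BC X c L` is the family of the entire curves whose Fubini-Study derivative is between `c` and `L`.
-/

set_option autoImplicit false

open Topology Filter Metric

namespace Pool.Agent.H5.BD

open Pool.Agent.H36.BP (EN fs wd)
open Pool.Agent.H14.PP (IsCone Chart Form Tan aCoef jac)
open Pool.Agent.H62.EF (MN pr det2)

variable {N : ℕ}

/-- the entire curves (lifts to the cone) with bounded distortion -/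
def BC (X : Set (EN N)) (c L : ℝ) : Set (ℂ → EN N) :=
  {F | Differentiable ℂ F ∧ (∀ z, F z ∈ X) ∧ ∀ z, c ≤ fs (F z) (deriv F z) ∧ fs (F z) (deriv F z) ≤ L}

/-- `x` is in the middle of the chart -/
def Good {X : Set (EN N)} (χ : Chart X) (x : EN N) : Prop := x ∈ X ∧ x ∈ χ.U ∧ ‖χ.q x‖ ≤ 1 / 2

/-- a finite atlas with a Lebesgue number `δ`, and a bound `C` for the charts and the changes of charts -/
structure Atlas (X : Set (EN N)) where
  n : ℕ
  χ : Fin n → Chart X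
  idx : MN N → Fin n
  δ : ℝ
  C : ℝ
  δ_pos : 0 < δ
  one_le : 1 ≤ C
  good : ∀ x ∈ X, ∀ y ∈ X, dist (pr x) (pr y) ≤ δ → Good (χ (idx (pr x))) y
  dist_le : ∀ i x y, Good (χ i) x → Good (χ i) y → dist (pr x) (pr y) ≤ C * ‖(χ i).q x - (χ i).q y‖
  le_dist : ∀ i x y, Good (χ i) x → Good (χ i) y → ‖(χ i).q x - (χ i).q y‖ ≤ C * dist (pr x) (pr y)
  fd_le : ∀ i j x, Good (χ i) x → Good (χ j) x → ‖fderiv ℂ (fun p => (χ j).q ((χ i).σ p)) ((χ i).q x)‖ ≤ C
  jac_ge : ∀ i j x, Good (χ i) x → Good (χ j) x → 1 ≤ C * ‖jac (fun p => (χ j).q ((χ i).σ p)) ((χ i).q x)‖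
  trans : ∀ i j x y, Good (χ i) x → Good (χ j) x → Good (χ i) y → Good (χ j) y →
    ‖(χ j).q y - (χ j).q x - fderiv ℂ (fun p => (χ j).q ((χ i).σ p)) ((χ i).q x) ((χ i).q y - (χ i).q x)‖ ≤
      C * ‖(χ i).q y - (χ i).q x‖ ^ 2

/-- one of the two coordinates -/
def co (e : Bool) (p : ℂ × ℂ) : ℂ := if e = true then p.1 else p.2

end Pool.Agent.H5.BD

end

section

/-!
# EF DUl: the derivative of `u`

* `chart_imm`: let `x = χ.σ p`, `v = dσ_p e`, `wd x v = 0`, so `v = a • x` (`x ≠ 0` because `0 ∉ X`).  `χ.q (χ.σ p') = p'` near `p` gives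
  `dq_x (dσ_p e) = e`; `χ.q (c • x) = χ.q x` for `c ≠ 0` gives `dq_x x = 0`.  So `e = dq_x v = a dq_x x = 0`.
* `key`: let `v` be a local lift of `u` at `x` (`TorusMap.loc`), `γ`, `D` as in `DU`: `D - v ∘ γ` is continuous near `0` with values in `Λ`
  (`u (γ z) - v (γ z) ∈ Λ`), so constant near `0`, `D' 0 = dv_x (γ' 0)`.  `DU.unique` follows.
* `DU.of_chart`: `γ z = χ.σ (p + z e)`, `D z = υ (p + z e)`.
* `DU.chart`: near `0`, `γ z ∈ X ∩ χ.U`, `π z = χ.q (γ z)` is analytic with `π 0 = p`, and `γ z = a z • χ.σ (π z)` with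
  `a z ≠ 0` (`surj`); `a` is analytic (e.g. `a z = ⟨χ.σ p, γ z⟩ / ⟨χ.σ p, χ.σ (π z)⟩`, near `0`), `a 0 = 1` (`γ 0 = χ.σ p ≠ 0`); so
  `v = γ' 0 = dσ_p (π' 0) + a' 0 • χ.σ p`, and `u (γ z) - υ (π z) ∈ Λ` near `0` (`smul`, `lift`), so `D - υ ∘ π` is constant near `0` and
  `c = dυ_p (π' 0)`.
* `DU.smul`: `c • γ`.
* `DU.of_sec`: `γ z = F (z₀ + z)`, `D z = z₀ + z`.
* `exists_adm`: take the chart `χ` at `x` (`χ.q x = 0`, `x = a • χ.σ 0` with `a ≠ 0`), `v` a local lift of `u` at `χ.σ 0 ∈ X`, `υ = v ∘ χ.σ`, analytic at `0`, and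
  `u (χ.σ p) - υ p ∈ Λ` near `0`.  `DU (χ.σ 0) (a⁻¹ • w) c` (`DU.smul`); as in `DU.chart` `c = dυ_0 (π' 0)`, so `dυ_0 ≠ 0` and
  `dυ_p ≠ 0` near `0`.  Choose `s < 2` small.
-/

set_option autoImplicit false

open Topology Filter Metric

namespace Pool.Agent.H62.EF

open Pool.Agent.H36.BP (EN wd)

variable {N : ℕ} {X : Set (EN N)} {Λ : AddSubgroup ℂ} {u : EN N → ℂ}

private lemma near_const (hΛ : Lat Λ) {E : ℂ → ℂ} (hE : ContinuousAt E 0) (h : ∀ᶠ z in 𝓝 (0 : ℂ), E z ∈ Λ) :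
    ∀ᶠ z in 𝓝 (0 : ℂ), E z = E 0 := by
  obtain ⟨δ, hδ, hd⟩ := hΛ.discrete
  have h0 : E 0 ∈ Λ := h.self_of_nhds
  have h1 : ∀ᶠ z in 𝓝 (0 : ℂ), ‖E z - E 0‖ < δ := by
    have h2 : Tendsto (fun z => ‖E z - E 0‖) (𝓝 (0 : ℂ)) (𝓝 ‖E 0 - E 0‖) :=
      ((hE.sub continuousAt_const).norm).tendsto
    rw [sub_self, norm_zero] at h2
    exact h2.eventually_lt_const hδ
  filter_upwards [h, h1] with z hz hz1
  exact sub_eq_zero.1 (hd _ (Λ.sub_mem hz h0) hz1)

private lemma near_deriv (hΛ : Lat Λ) {D B : ℂ → ℂ} (hD : AnalyticAt ℂ D 0) (hB : AnalyticAt ℂ B 0)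
    (h : ∀ᶠ z in 𝓝 (0 : ℂ), D z - B z ∈ Λ) : deriv D 0 = deriv B 0 := by
  have h1 := near_const hΛ (E := fun z => D z - B z) (hD.continuousAt.sub hB.continuousAt) h
  have h2 : deriv (fun z => D z - B z) 0 = 0 := by
    have h3 : (fun z => D z - B z) =ᶠ[𝓝 (0 : ℂ)] fun _ => D 0 - B 0 := h1
    rw [h3.deriv_eq, deriv_const]
  have h4 : deriv (fun z => D z - B z) 0 = deriv D 0 - deriv B 0 :=
    deriv_fun_sub hD.differentiableAt hB.differentiableAt
  rw [h4] at h2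
  exact sub_eq_zero.1 h2

private lemma key (hΛ : Lat Λ) {γ : ℂ → EN N} {D : ℂ → ℂ} {x : EN N} {w : EN N → ℂ}
    (hw : AnalyticAt ℂ w x) (hwl : ∀ᶠ y in 𝓝 x, y ∈ X → u y - w y ∈ Λ) (h1 : AnalyticAt ℂ γ 0)
    (h2 : ∀ᶠ z in 𝓝 (0 : ℂ), γ z ∈ X) (h3 : γ 0 = x) (h4 : AnalyticAt ℂ D 0)
    (h5 : ∀ᶠ z in 𝓝 (0 : ℂ), u (γ z) - D z ∈ Λ) : deriv D 0 = fderiv ℂ w x (deriv γ 0) := by
  subst h3
  have hc : Tendsto γ (𝓝 (0 : ℂ)) (𝓝 (γ 0)) := h1.continuousAt.tendsto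
  have hB : AnalyticAt ℂ (fun z => w (γ z)) 0 := AnalyticAt.fun_comp hw h1
  have h6 : ∀ᶠ z in 𝓝 (0 : ℂ), D z - w (γ z) ∈ Λ := by
    filter_upwards [h2, h5, hc.eventually hwl] with z hz hz1 hz2
    have h7 := Λ.sub_mem (hz2 hz) hz1
    have h8 : u (γ z) - w (γ z) - (u (γ z) - D z) = D z - w (γ z) := by ring
    rwa [h8] at h7
  rw [near_deriv hΛ h4 hB h6]
  exact (hw.differentiableAt.hasFDerivAt.comp_hasDerivAt 0 h1.differentiableAt.hasDerivAt).deriv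

end Pool.Agent.H62.EF

end

section

/-!
# G3 X CapZ: straight charts which contain the points near `y₀` of one fibre

`EL.Cap` asks the same radius in the base and in the fibre.  `Capz` is the condition for one fibre: it is used as `∀ᶠ z in 𝓝 z₀, Capz Λ u χ c ρ z y₀ r`.
-/

set_option autoImplicit false

open Topology Filter Metric

namespace Pool.Agent.GXE

open Pool.Agent.H36.BP (EN wd IsGermChart)
open Pool.Agent.H14.PP (IsCone Chart Tan CurveAt)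
open Pool.Agent.H62.EF (Lat MN pr TorusMap)
open Pool.Agent.H62.EL

variable {N : ℕ} {X : Set (EN N)}

/-- the straight chart contains all points near `y₀` of the fibre over `z` -/
structure Capz (Λ : AddSubgroup ℂ) (u : EN N → ℂ) (χ : Chart X) (c : ℂ) (ρ : ℝ) (z : ℂ) (y₀ : MN N) (r : ℝ) : Prop where
  mon : Mon Λ u χ c ρ 1 0
  cap : ∀ x ∈ X, u x - z ∈ Λ → dist (pr x) y₀ ≤ r → x ∈ χ.U ∧ χ.q x ∈ closedBall (0 : ℂ × ℂ) 1 ∧ c + ρ * (χ.q x).1 = z

end Pool.Agent.GXE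

end

section

/-!
# SA Defs: locally closed subvarieties of `ℙ^N`

The complement in a closed subvariety of the common zero set of some forms, and its properness over an affine variety.
-/

set_option autoImplicit false

open MvPolynomial
open Pool.Agent.H23.Fano (PrimeDivisorOver)
open Pool.Agent.H17 (PN VanishesAt)
open Pool.Agent.H17GT (coordFun)
open Pool.Agent.H17LG.Variety (FunField ratio)

noncomputable section

namespace Pool.Agent.H62.SA

variable {N : ℕ}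

/-- The points of the zero locus of the homogeneous ideal `P` at which some of the forms `G m` does not
vanish. -/
def locVar (P : Ideal (MvPolynomial (Fin (N + 1)) ℂ)) {s : ℕ}
    (G : Fin s → MvPolynomial (Fin (N + 1)) ℂ) : Set (PN N) :=
  {x | (∀ Q ∈ P, ∀ n, Q.IsHomogeneous n → VanishesAt Q x) ∧ ∃ m, ¬ VanishesAt (G m) x}

/-- The centre of the prime divisor `E` on the closed subvariety of `ℙ^N` given by `P` lies in the
common zero set of the forms `G m`. -/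
def OnBd (P : Ideal (MvPolynomial (Fin (N + 1)) ℂ)) [P.IsPrime] {s : ℕ}
    (G : Fin s → MvPolynomial (Fin (N + 1)) ℂ) {k : ℕ} (E : PrimeDivisorOver (FunField P) k) : Prop :=
  ∃ j, coordFun P j ≠ 0 ∧ (∀ i, 0 ≤ E.ord (ratio P i j)) ∧
    ∀ m, 0 < E.ord (aeval (fun i => ratio P i j) (G m))

/-- The forms `F m j`, of degree `e m`, with `F m 0 = G m` define a map from the zero locus of `P` to
`ℙ^M` (in homogeneous coordinates `(F m 0, …, F m M)`, for every `m` for which these forms do not all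
vanish), such that the common zero set of the forms `G m` is the inverse image of a hyperplane. So `locVar P G`
is proper over an affine variety. -/
structure IsProperMap (P : Ideal (MvPolynomial (Fin (N + 1)) ℂ)) {s M : ℕ}
    (G : Fin s → MvPolynomial (Fin (N + 1)) ℂ) (F : Fin s → Fin (M + 1) → MvPolynomial (Fin (N + 1)) ℂ)
    (e : Fin s → ℕ) : Prop where
  hom : ∀ m j, (F m j).IsHomogeneous (e m)
  zero : ∀ m, F m 0 = G m
  rel : ∀ m n j, F m j * G n - F n j * G m ∈ P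
  noZero : ∀ x : PN N, (∀ Q ∈ P, ∀ n, Q.IsHomogeneous n → VanishesAt Q x) →
    ∃ m j, ¬ VanishesAt (F m j) x

end Pool.Agent.H62.SA

end
end

section

/-!
# G3 Pc0: the three theorems used in the extension across punctures

`RootLog`: the logarithmic estimate of the derivative; `Ahl`: Ahlfors' lemma for `p`; `LCT`: the limit theorem.
-/

set_option autoImplicit false

open Topology Filter Metric

namespace Pool.Agent.H56.G3

open Pool.Agent.H36.BP (EN fs wd Sub)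
open Pool.Agent.H14.PP (IsCone CurveAt Tan)
open Pool.Agent.AD (Vd)
open Pool.Agent.TG (TMap Gd)
open Pool.Agent.G3 (Cv PS QD Ok Lam Lq Np pf TT)

variable {N k : ℕ}

/-- the logarithmic estimate of the derivative -/
def RootLog (X : Set (EN N)) (Λ : AddSubgroup (Vd (k + 1))) (u : EN N → Vd (k + 1)) (Q : EN N → ℂ) (d : ℕ) (p : EN N → EN N → ℝ) (m : ℕ) (C : ℝ) : Prop :=
  ∀ (w : ℂ) (r : ℝ) (F : ℂ → EN N) (h : ℂ → Vd (k + 1)), 0 < r → Cv X Λ u (ball w r) F h → Ok Q p F w →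
    r ^ 2 * ‖deriv h w‖ ^ 2 ≤ C * (1 + Lam Q d p m F h w) ∧ r ^ 2 * (pf p F w) ^ (2 / (m : ℝ)) ≤ C * (1 + Lam Q d p m F h w)

/-- Ahlfors' lemma for `p` -/
def Ahl (X : Set (EN N)) (Λ : AddSubgroup (Vd (k + 1))) (u : EN N → Vd (k + 1)) (p : EN N → EN N → ℝ) (m : ℕ) (C : ℝ) : Prop :=
  ∀ (F : ℂ → EN N) (h : ℂ → Vd (k + 1)) (z : ℂ) (r H : ℝ), 0 < r → 0 ≤ H →
    Cv X Λ u (ball z r) F h → (∀ w ∈ ball z r, ‖deriv h w‖ ≤ H) → pf p F z ≤ (C * (1 / r + H)) ^ m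

/-- the limit theorem -/
def LCT (X : Set (EN N)) (Λ : AddSubgroup (Vd (k + 1))) (u : EN N → Vd (k + 1)) (Q : EN N → ℂ) (d : ℕ) (p : EN N → EN N → ℝ) (m : ℕ) : Prop :=
  ∀ (a : Vd (k + 1)) (F : ℕ → ℂ → EN N) (h : ℕ → ℂ → Vd (k + 1)) (E : ℕ → ℂ → ℂ), a ≠ 0 →
    (∀ r : ℝ, ∀ᶠ n in atTop, Cv X Λ u (ball 0 r) (F n) (h n)) → (∀ n, Ok Q p (F n) 0) →
    (∀ r ε : ℝ, 0 < ε → ∀ᶠ n in atTop, ∀ z ∈ ball (0 : ℂ) r, ‖deriv (h n) z - a‖ ≤ ε) →
    (∀ r : ℝ, ∀ᶠ n in atTop, DifferentiableOn ℂ (E n) (ball 0 r) ∧ (∀ z ∈ ball (0 : ℂ) r, E n z ≠ 0) ∧ E n 0 = 1) →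
    (∀ r ε : ℝ, 0 < ε → ∀ᶠ n in atTop, ∀ z ∈ ball (0 : ℂ) r, Ok Q p (F n) z →
      Lam Q d p m (F n) (h n) 0 + Real.log ‖E n z‖ ≤ Lam Q d p m (F n) (h n) z + ε) → False

variable {X : Set (EN N)} {Λ : AddSubgroup (Vd (k + 1))} {u : EN N → Vd (k + 1)} {D : Set (Vd (k + 1))} {Q : EN N → ℂ} {d : ℕ}
  {p : EN N → EN N → ℝ} {m : ℕ} {C : ℝ} {F : ℂ → EN N} {h : ℂ → Vd (k + 1)}

theorem pf_comp {U : Set ℂ} (hU : IsOpen U) (hc : Cv X Λ u U F h) (hps : PS X Λ u D p m C) {φ : ℂ → ℂ} {z : ℂ} (hφ : DifferentiableAt ℂ φ z) (hz : φ z ∈ U) :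
    pf p (fun z => F (φ z)) z = ‖deriv φ z‖ ^ m * pf p F (φ z) := by
  have hF : DifferentiableAt ℂ F (φ z) := hc.F_diff.differentiableAt (hU.mem_nhds hz)
  have h1 : deriv (fun z => F (φ z)) z = deriv φ z • deriv F (φ z) := (hF.hasDerivAt.scomp z hφ.hasDerivAt).deriv
  unfold pf
  rw [h1]
  exact hps.hom _ (hc.mem _ hz) _ (hc.tan hU hz) _

theorem deriv_cv_comp {U : Set ℂ} (hU : IsOpen U) (hc : Cv X Λ u U F h) {φ : ℂ → ℂ} {z : ℂ} (hφ : DifferentiableAt ℂ φ z) (hz : φ z ∈ U) :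
    deriv (fun z => h (φ z)) z = deriv φ z • deriv h (φ z) := by
  have hh : DifferentiableAt ℂ h (φ z) := hc.h_diff.differentiableAt (hU.mem_nhds hz)
  exact (hh.hasDerivAt.scomp z hφ.hasDerivAt).deriv

/-- `Lq` is nonnegative -/
theorem Lq_nonneg (hX : IsCone X) (hqd : QD X Λ u D Q d) {x : EN N} (hx : x ∈ X) (hQ : Q x ≠ 0) : 0 ≤ Lq Q d x := by
  have h1 := hqd.bound x hx
  have h2 : 0 < ‖Q x‖ := norm_pos_iff.2 hQ
  have h3 := Real.log_le_log h2 h1
  rw [Real.log_pow] at h3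
  unfold Lq
  linarith

theorem Np_nonneg (z : ℂ) : 0 ≤ Np p m F h z := le_max_left _ _

theorem one_le_E (hX : IsCone X) (hqd : QD X Λ u D Q d) {z : ℂ} (hx : F z ∈ X) (hQ : Q (F z) ≠ 0) : 0 ≤ Lam Q d p m F h z := by
  unfold Lam
  have h1 := Lq_nonneg hX hqd hx hQ
  have h2 := Np_nonneg (p := p) (m := m) (F := F) (h := h) z
  positivity

/-- `Np ≤ m log⁺ |h'| + log⁻ p` -/
theorem Np_le {z : ℂ} (hp : 0 < pf p F z) : Np p m F h z ≤ m * ‖deriv h z‖ + max (-Real.log (pf p F z)) 0 := by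
  unfold Np
  have h0 : (0 : ℝ) ≤ m * ‖deriv h z‖ := by positivity
  refine max_le (by positivity) ?_
  rcases (norm_nonneg (deriv h z)).eq_or_lt with h1 | h1
  · rcases Nat.eq_zero_or_pos m with hm | hm
    · subst hm
      simp only [pow_zero, div_one]
      exact (le_max_left _ _).trans (by linarith)
    · rw [← h1, zero_pow hm.ne', div_zero, Real.log_zero, neg_zero, mul_zero, zero_add]
      exact le_max_right _ _
  · rw [Real.log_div hp.ne' (by positivity), Real.log_pow]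
    have h2 : Real.log ‖deriv h z‖ ≤ ‖deriv h z‖ := (Real.log_le_sub_one_of_pos h1).trans (by linarith)
    have h3 : (m : ℝ) * Real.log ‖deriv h z‖ ≤ m * ‖deriv h z‖ := mul_le_mul_of_nonneg_left h2 (Nat.cast_nonneg m)
    have h4 := le_max_left (-Real.log (pf p F z)) 0
    linarith

/-- the degenerate points are isolated -/
theorem ok_isol (hX : IsCone X) (hps : PS X Λ u D p m C) (hqd : QD X Λ u D Q d) {U : Set ℂ} (hU : IsOpen U) (hc : Cv X Λ u U F h) (hpre : IsPreconnected U)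
    (hok : ∃ z ∈ U, Ok Q p F z) : ∀ z ∈ U, ∀ᶠ w in 𝓝[≠] z, Ok Q p F w := by
  obtain ⟨z₁, hz₁, hok1, hok2⟩ := hok
  intro z hz
  have h1 := hps.isol U F h hU hc hpre ⟨z₁, hz₁, hok2⟩ z hz
  have hq : DifferentiableOn ℂ (fun z => Q (F z)) U := hqd.diff.comp_differentiableOn hc.F_diff
  have ha : AnalyticOnNhd ℂ (fun z => Q (F z)) U := hq.analyticOnNhd hU
  have h2 : ∀ᶠ w in 𝓝[≠] z, Q (F w) ≠ 0 := by
    rcases (ha z hz).eventually_eq_zero_or_eventually_ne_zero with h3 | h3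
    · exact absurd (ha.eqOn_zero_of_preconnected_of_eventuallyEq_zero hpre hz h3 hz₁) hok1
    · exact h3
  filter_upwards [h1, h2] with w h3 h4
  exact ⟨h4, h3⟩

end Pool.Agent.H56.G3

end

section

/-!
# G3 X Defs: uniform crossing for arcs, definitions

Plan of the block `G3/X` (helper19).  Near a point `p ∈ D \ B` choose coordinates `κ` of the base in which `D` is `{q 0 = 0}` and the given line `p + z e` is `{q_1 = .. = q_k = 0}` (`LnC`).  An
arc near the line is `ar κ g`, the graph of a small function `g` (`Inv`).  `X` is covered near the fibre over `p` by finitely many normal crossing charts (`NCh`: `u = κ (x ^ a y ^ b, s)` in suitable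
coordinates) and finitely many witness charts (`Fam`, `FamG`); cut with the graph of `g` (`emb`) they give a tube (in the sense of `H62/EL`) for the surface `Ya`, the part of `X` over the arc,
with constants which do not depend on `g`.
-/

set_option autoImplicit false

open Topology Filter Metric

namespace Pool.Agent.GX

open Pool.Agent.H36.BP (EN fs wd)
open Pool.Agent.H14.PP (IsCone CurveAt Tan)
open Pool.Agent.H62.EF (MN pr)
open Pool.Agent.AD (Vd Chart Charts IsGerm)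
open Pool.Agent.TG (TMap Lat tl nm IsStr IsNC IsCoord Geo VForm ms Str IsPrim Cap IRel II TransAt Gd Cst DV fr)

variable {N k : ℕ}

/-- the graph of `g` -/
def cg (g : ℂ → Fin k → ℂ) (z : ℂ) : Vd (k + 1) := Fin.cons (α := fun _ => ℂ) z (g z)

/-- the arc with the coordinates `cg g` -/
def ar (κ : Vd (k + 1) → Vd (k + 1)) (g : ℂ → Fin k → ℂ) (z : ℂ) : Vd (k + 1) := κ (cg g z)

variable (X : Set (EN N)) (Λ : AddSubgroup (Vd (k + 1))) (u : EN N → Vd (k + 1))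

/-- the part of `X` over the closed disc of radius `s` in the arc -/
def Ya (κ : Vd (k + 1) → Vd (k + 1)) (g : ℂ → Fin k → ℂ) (s : ℝ) : Set (EN N) := {x | x ∈ X ∧ ∃ z : ℂ, ‖z‖ ≤ s ∧ u x - ar κ g z ∈ Λ}

open Classical in
/-- the coordinate `z` -/
noncomputable def wa (κ : Vd (k + 1) → Vd (k + 1)) (g : ℂ → Fin k → ℂ) (s : ℝ) (x : EN N) : ℂ :=
  if h : ∃ z : ℂ, ‖z‖ ≤ s ∧ u x - ar κ g z ∈ Λ then h.choose else 0

/-- the determinant of the tangent vector of the arc and the vectors `fr` -/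
noncomputable def dta (κ : Vd (k + 1) → Vd (k + 1)) (g : ℂ → Fin k → ℂ) (z : ℂ) : ℂ :=
  (Matrix.of fun i j => (Fin.cons (deriv (ar κ g) z) (fr κ (cg g) z) : Fin (k + 1) → Vd (k + 1)) i j).det

/-- the geometric data and the coordinates `κ` on the polydisc of radius `R`, with the inverse `ψ` -/
structure Kp (D : Set (Vd (k + 1))) (κ ψ : Vd (k + 1) → Vd (k + 1)) (R : ℝ) : Prop where
  cone : IsCone X
  charts : Charts (k + 2) X
  tor : TMap X Λ u
  lat : Lat Λ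
  sub : ∀ y ∉ D, ∀ x ∈ X, u x - y ∈ Λ → IsStr X Λ u x y
  pos : 0 < R
  κ_an : ∀ q ∈ ball (0 : Vd (k + 1)) R, AnalyticAt ℂ κ q
  ψ_an : ∀ q ∈ ball (0 : Vd (k + 1)) R, AnalyticAt ℂ ψ (κ q)
  ψ_κ : ∀ q ∈ ball (0 : Vd (k + 1)) R, ψ (κ q) = q
  κ_ψ : ∀ q ∈ ball (0 : Vd (k + 1)) R, ∀ᶠ y in 𝓝 (κ q), κ (ψ y) = y
  inj : ∀ q ∈ ball (0 : Vd (k + 1)) R, ∀ q' ∈ ball (0 : Vd (k + 1)) R, κ q - κ q' ∈ Λ → q = q'
  mem_iff : ∀ q ∈ ball (0 : Vd (k + 1)) R, (κ q ∈ D ↔ q 0 = 0)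

variable {X}

variable (X)

variable {X}

end Pool.Agent.GX

end
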