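import Pool.Agent.H94.G4T.AD.Defs
import Pool.Agent.H94.G4T.H36.BP.Defs_1
import Pool.Agent.H94.G4T.M12
import Pool.Agent.H94.G4T.M13
import Pool.Agent.H94.G4T.M26

/-! The parts of this file: H13.SM.Pts, H13.SM.Noether, H13.SM.Bdd, H13.SM.Lift, H13.CV.HomA, H36.BP.CirB, G3.R.Wir, H36.BPL.Aff, TG.SmDefs. -/

section

/-!
# The complex points of an affine variety with generic point `a`

`a : ι → K` generates the field `K` over `ℂ`.  The affine variety is the spectrum of
`A = Algebra.adjoin ℂ (Set.range a)`; its points are the `w : ι → ℂ` at which all polynomials which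
vanish at `a` vanish.

PROOF of `isClosed_pts`.  Intersection of the closed sets `eval w Q = 0`
(`MvPolynomial.continuous_eval`).

PROOF of `pts_of_algHom`.  `eval (fun i => φ ⟨a i, _⟩) Q = φ ⟨aeval a Q, _⟩` (both sides are algebra
homs of `Q`, or induction on `Q`), and `φ 0 = 0`.

PROOF of `root_at`.  Let `M : Polynomial (MvPolynomial (Fin n) ℂ) →+* MvPolynomial ι ℂ` be
`Polynomial.eval₂RingHom (aeval B).toRingHom Z`.  Then `aeval a (M p) = (p.map (aeval b)).eval (aeval a
Z)` since `aeval a (B j) = b j`, and `eval w (M p) = (p.map (eval (fun j => eval w (B j)))).eval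
(eval w Z)` (both by `Polynomial.hom_eval₂` and `MvPolynomial.comp_aeval` / `ringHom_ext`).
-/

open MvPolynomial

noncomputable section

namespace Pool.Agent.H13.SM

variable {ι K : Type} [Field K] [Algebra ℂ K]

/-- The complex points of the affine variety with generic point `a`. -/
def pts (a : ι → K) : Set (ι → ℂ) :=
  {w | ∀ Q : MvPolynomial ι ℂ, aeval a Q = 0 → eval w Q = 0}

theorem isClosed_pts [Finite ι] (a : ι → K) : IsClosed (pts a) := by
  have h : pts a = ⋂ Q ∈ {Q : MvPolynomial ι ℂ | aeval a Q = 0}, {w : ι → ℂ | eval w Q = 0} := by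
    ext w
    simp only [pts, Set.mem_ofPred_eq, Set.mem_iInter]
  rw [h]
  exact isClosed_biInter fun Q _ => isClosed_eq (MvPolynomial.continuous_eval Q) continuous_const

theorem aeval_mem_adjoin (a : ι → K) (Q : MvPolynomial ι ℂ) :
    aeval a Q ∈ Algebra.adjoin ℂ (Set.range a) := by
  rw [Algebra.adjoin_range_eq_range_aeval]
  exact ⟨Q, rfl⟩

/-- An algebra hom from the ring of functions to `ℂ` is the evaluation at a point. -/
theorem exists_pt_of_algHom (a : ι → K) (φ : Algebra.adjoin ℂ (Set.range a) →ₐ[ℂ] ℂ) :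
    ∃ w ∈ pts a, ∀ Q : MvPolynomial ι ℂ, eval w Q = φ ⟨aeval a Q, aeval_mem_adjoin a Q⟩ := by
  have key : ∀ Q : MvPolynomial ι ℂ,
      eval (fun i => φ ⟨a i, Algebra.subset_adjoin (Set.mem_range_self i)⟩) Q =
        φ ⟨aeval a Q, aeval_mem_adjoin a Q⟩ := by
    intro Q
    have h1 := MvPolynomial.comp_aeval_apply
      (fun i => (⟨a i, Algebra.subset_adjoin (Set.mem_range_self i)⟩ : Algebra.adjoin ℂ (Set.range a)))
      φ Q
    have h2 := MvPolynomial.comp_aeval_apply
      (fun i => (⟨a i, Algebra.subset_adjoin (Set.mem_range_self i)⟩ : Algebra.adjoin ℂ (Set.range a)))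
      (Algebra.adjoin ℂ (Set.range a)).val Q
    have h3 : aeval (fun i => (⟨a i, Algebra.subset_adjoin (Set.mem_range_self i)⟩ :
        Algebra.adjoin ℂ (Set.range a))) Q = ⟨aeval a Q, aeval_mem_adjoin a Q⟩ := by
      apply Subtype.ext
      exact h2
    rw [← h3, h1, MvPolynomial.aeval_eq_eval]
  refine ⟨fun i => φ ⟨a i, Algebra.subset_adjoin (Set.mem_range_self i)⟩, ?_, key⟩
  intro Q hQ
  rw [key Q]
  have h4 : (⟨aeval a Q, aeval_mem_adjoin a Q⟩ : Algebra.adjoin ℂ (Set.range a)) = 0 :=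
    Subtype.ext hQ
  rw [h4, map_zero]

/-- If `Z` is a root of `p` on the variety, with coefficients functions of the `b j = aeval a (B j)`,
then this holds at each point. -/
theorem root_at {n : ℕ} {a : ι → K} {b : Fin n → K} {B : Fin n → MvPolynomial ι ℂ}
    (hB : ∀ j, aeval a (B j) = b j) {Z : MvPolynomial ι ℂ}
    {p : Polynomial (MvPolynomial (Fin n) ℂ)}
    (hp : (p.map (aeval b : MvPolynomial (Fin n) ℂ →ₐ[ℂ] K).toRingHom).eval (aeval a Z) = 0)
    {w : ι → ℂ} (hw : w ∈ pts a) :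
    (p.map (eval fun j => eval w (B j))).eval (eval w Z) = 0 := by
  have h1 : aeval a (p.eval₂ (aeval B : MvPolynomial (Fin n) ℂ →ₐ[ℂ] MvPolynomial ι ℂ).toRingHom Z)
      = 0 := by
    have e1 := Polynomial.hom_eval₂ p
      (aeval B : MvPolynomial (Fin n) ℂ →ₐ[ℂ] MvPolynomial ι ℂ).toRingHom
      (aeval a : MvPolynomial ι ℂ →ₐ[ℂ] K).toRingHom Z
    have e2 : (aeval a : MvPolynomial ι ℂ →ₐ[ℂ] K).toRingHom.comp
        (aeval B : MvPolynomial (Fin n) ℂ →ₐ[ℂ] MvPolynomial ι ℂ).toRingHom =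
        (aeval b : MvPolynomial (Fin n) ℂ →ₐ[ℂ] K).toRingHom := by
      have e3 : (aeval a : MvPolynomial ι ℂ →ₐ[ℂ] K).comp
          (aeval B : MvPolynomial (Fin n) ℂ →ₐ[ℂ] MvPolynomial ι ℂ) = aeval b := by
        apply MvPolynomial.algHom_ext
        intro j
        rw [AlgHom.comp_apply, aeval_X, aeval_X]
        exact hB j
      rw [← e3]
      rfl
    rw [e2] at e1
    rw [Polynomial.eval_map] at hp
    exact e1.trans hp
  have h2 := hw _ h1
  have e4 := Polynomial.hom_eval₂ p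
    (aeval B : MvPolynomial (Fin n) ℂ →ₐ[ℂ] MvPolynomial ι ℂ).toRingHom (eval w) Z
  have e5 : (eval w).comp (aeval B : MvPolynomial (Fin n) ℂ →ₐ[ℂ] MvPolynomial ι ℂ).toRingHom =
      eval fun j => eval w (B j) := by
    apply MvPolynomial.ringHom_ext
    · intro r
      simp
    · intro j
      simp
  rw [e5] at e4
  rw [Polynomial.eval_map, ← e4]
  exact h2

end Pool.Agent.H13.SM

end
end

section

/-!
# Noether normalisation

PROOF.  `A = Algebra.adjoin ℂ (Set.range a)` is an algebra of finite type (`Subalgebra.fg_adjoin_...`,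
`Subalgebra.fg_iff_finiteType`) and is nontrivial, so by `exists_finite_inj_algHom_of_fg` there are
`s` and `g : MvPolynomial (Fin s) ℂ →ₐ[ℂ] A` injective and finite.  Let `b' j = g (X j)`, an
algebraically independent family of `K` (`g` and the inclusion are injective).  Each element of `A` is
integral over the range of `g`, the algebra generated by the `b' j` (`RingHom.Finite.to_isIntegral`).
`K = IntermediateField.adjoin ℂ (Set.range a)` is algebraic over `IntermediateField.adjoin ℂ (Set.range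
b')`, since all `a i` are.  So `b'` is a transcendence basis of `K` and `s = n` by
`IsTranscendenceBasis.cardinalMk_eq` (or `lift_cardinalMk_eq_trdeg`).  Write `b' j = aeval a (B j)`.
-/

open MvPolynomial

noncomputable section

namespace Pool.Agent.H13.SM

variable {ι K : Type} [Field K] [Algebra ℂ K]

/-- The surjection from polynomials to the adjoined algebra. -/
private def Noether_phi {n : ℕ} (b : Fin n → K) :
    MvPolynomial (Fin n) ℂ →ₐ[ℂ] Algebra.adjoin ℂ (Set.range b) :=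
  (aeval b : MvPolynomial (Fin n) ℂ →ₐ[ℂ] K).codRestrict (Algebra.adjoin ℂ (Set.range b)) (by
    intro x
    rw [Algebra.adjoin_range_eq_range_aeval]
    exact ⟨x, rfl⟩)

private theorem Noether_phi_coe {n : ℕ} (b : Fin n → K) (x : MvPolynomial (Fin n) ℂ) :
    (Noether_phi b x : K) = aeval b x := rfl

private theorem Noether_phi_surj {n : ℕ} (b : Fin n → K) : Function.Surjective (Noether_phi b) := by
  rintro ⟨y, hy⟩
  have h := hy
  rw [Algebra.adjoin_range_eq_range_aeval] at h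
  obtain ⟨x, hx⟩ := h
  exact ⟨x, Subtype.ext hx⟩

private theorem Noether_algebraic [Finite ι] {a : ι → K}
    (ha : IntermediateField.adjoin ℂ (Set.range a) = ⊤) {s : ℕ} (b : Fin s → K)
    (hb : ∀ i, IsIntegral (Algebra.adjoin ℂ (Set.range b)) (a i)) :
    Algebra.IsAlgebraic (Algebra.adjoin ℂ (Set.range b)) K := by
  constructor
  intro x
  have hx : x ∈ IntermediateField.adjoin ℂ (Set.range a) := by
    rw [ha]; exact IntermediateField.mem_top
  induction hx using IntermediateField.adjoin_induction with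
  | mem y hy =>
    obtain ⟨i, rfl⟩ := hy
    exact (hb i).isAlgebraic
  | algebraMap y =>
    have h1 : algebraMap ℂ K y =
        algebraMap (Algebra.adjoin ℂ (Set.range b)) K (algebraMap ℂ (Algebra.adjoin ℂ (Set.range b)) y) := rfl
    rw [h1]
    exact isAlgebraic_algebraMap _
  | add y z _ _ hy hz => exact hy.add hz
  | inv y _ hy => exact hy.inv
  | mul y z _ _ hy hz => exact hy.mul hz

theorem exists_noether [Finite ι] {a : ι → K}
    (ha : IntermediateField.adjoin ℂ (Set.range a) = ⊤) {n : ℕ} {z : Fin n → K}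
    (hz : IsTranscendenceBasis ℂ z) :
    ∃ (b : Fin n → K) (B : Fin n → MvPolynomial ι ℂ), AlgebraicIndependent ℂ b ∧
      (∀ j, aeval a (B j) = b j) ∧ ∀ i, IsIntegral (Algebra.adjoin ℂ (Set.range b)) (a i) := by
  set A := Algebra.adjoin ℂ (Set.range a) with hA
  have : Algebra.FiniteType ℂ A := by
    refine (Subalgebra.fg_iff_finiteType _).1 ?_
    have h := Subalgebra.fg_adjoin_finset (R := ℂ) (Set.finite_range a).toFinset
    rwa [Set.Finite.coe_toFinset] at h
  obtain ⟨s, g, ginj, gint⟩ := exists_integral_inj_algHom_of_fg ℂ A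
  set b' : Fin s → K := fun j => (g (X j) : K) with hb'
  have haev : (aeval b' : MvPolynomial (Fin s) ℂ →ₐ[ℂ] K) = A.val.comp g := by
    refine MvPolynomial.algHom_ext fun j => ?_
    rw [aeval_X]; rfl
  have hind : AlgebraicIndependent ℂ b' := by
    show Function.Injective (aeval b' : MvPolynomial (Fin s) ℂ →ₐ[ℂ] K)
    rw [haev]
    exact Subtype.val_injective.comp ginj
  have hint : ∀ i, IsIntegral (Algebra.adjoin ℂ (Set.range b')) (a i) := by
    intro i
    have hai : a i ∈ A := Algebra.subset_adjoin ⟨i, rfl⟩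
    obtain ⟨p, hp1, hp2⟩ := gint ⟨a i, hai⟩
    refine ⟨p.map (Noether_phi b').toRingHom, hp1.map _, ?_⟩
    rw [Polynomial.eval₂_map]
    have h1 := congrArg (fun x : A => (x : K)) hp2
    have h2 : A.val.toRingHom (Polynomial.eval₂ g.toRingHom ⟨a i, hai⟩ p) = 0 := h1
    rw [Polynomial.hom_eval₂] at h2
    have h3 : A.val.toRingHom.comp g.toRingHom =
        (algebraMap (Algebra.adjoin ℂ (Set.range b')) K).comp (Noether_phi b').toRingHom := by
      refine RingHom.ext fun x => ?_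
      have h4 : (aeval b' x : K) = A.val (g x) := by rw [haev]; rfl
      show A.val (g x) = (Noether_phi b' x : K)
      rw [Noether_phi_coe, h4]
    rw [← h3]
    exact h2
  have hbas : IsTranscendenceBasis ℂ b' :=
    hind.isTranscendenceBasis_iff_isAlgebraic.2 (Noether_algebraic ha b' hint)
  have hsn : s = n := by
    have h1 := hbas.cardinalMk_eq hz
    simpa using h1
  subst hsn
  have hB : ∀ j, ∃ Q : MvPolynomial ι ℂ, aeval a Q = b' j := by
    intro j
    have h1 : b' j ∈ A := (g (X j)).2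
    rw [hA, Algebra.adjoin_range_eq_range_aeval] at h1
    exact h1
  choose B hB using hB
  exact ⟨b', B, hind, hB, hint⟩

/-- The polynomial form of integrality: `aeval a Z` is a root of a monic polynomial whose
coefficients are polynomials in `b`. -/
theorem exists_monic {a : ι → K} {n : ℕ} {b : Fin n → K}
    (hint : ∀ i, IsIntegral (Algebra.adjoin ℂ (Set.range b)) (a i)) (Z : MvPolynomial ι ℂ) :
    ∃ p : Polynomial (MvPolynomial (Fin n) ℂ), p.Monic ∧
      (p.map (aeval b : MvPolynomial (Fin n) ℂ →ₐ[ℂ] K).toRingHom).eval (aeval a Z) = 0 := by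
  set C₀ := Algebra.adjoin ℂ (Set.range b) with hC₀
  have hZ : IsIntegral C₀ (aeval a Z) := by
    have h1 : aeval a Z ∈ Algebra.adjoin ℂ (Set.range a) := aeval_mem_adjoin a Z
    have h2 : Algebra.adjoin ℂ (Set.range a) ≤ (integralClosure C₀ K).restrictScalars ℂ := by
      refine Algebra.adjoin_le ?_
      rintro _ ⟨i, rfl⟩
      exact hint i
    exact h2 h1
  obtain ⟨p, hp1, hp2⟩ := hZ
  have hlift : p ∈ Polynomial.lifts (Noether_phi b).toRingHom := by
    rw [Polynomial.lifts_iff_coeff_lifts]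
    intro k
    exact Noether_phi_surj b (p.coeff k)
  obtain ⟨P, hP1, -, hP2⟩ := Polynomial.lifts_and_natDegree_eq_and_monic hlift hp1
  refine ⟨P, hP2, ?_⟩
  have h3 : (aeval b : MvPolynomial (Fin n) ℂ →ₐ[ℂ] K).toRingHom =
      (algebraMap C₀ K).comp (Noether_phi b).toRingHom := rfl
  rw [h3, ← Polynomial.map_map, hP1, Polynomial.eval_map]
  exact hp2

end Pool.Agent.H13.SM

end
end

section

/-!
# The projection is proper with finite fibres

PROOF.  For every `i` let `p i` be the monic polynomial of `exists_monic hint (X i)`.  By `root_at` (with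
`Z = X i`), for every point `w` of the variety `w i` is a root of `(p i).map (eval y)`, `y j = eval w (B
j)`, a monic polynomial.

`finite_fiber`: for fixed `y` there are finitely many roots for each `i` (`Set.Finite.pi`,
`Polynomial.finite_setOf_isRoot` or `Multiset`/`rootSet`).

`bdd_near`: a root `t` of a monic polynomial `t^d + c_{d-1} t^{d-1} + ... + c_0` satisfies `‖t‖ ≤ 1 +
∑ ‖c_k‖` (if `‖t‖ > 1` divide `t^d = -∑ c_k t^k` by `t^{d-1}`; or `Polynomial.IsRoot.norm_lt_cauchyBound`),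
and the `c_k` are continuous functions of `y`, so they are bounded near `y₀`; take the maximum over `i`.
-/

open MvPolynomial Topology

noncomputable section

namespace Pool.Agent.H13.SM

variable {ι K : Type} [Field K] [Algebra ℂ K]

private theorem Bdd_root {q : Polynomial ℂ} (hq : q.Monic) {t : ℂ} (ht : q.eval t = 0) :
    ‖t‖ ≤ ∑ k ∈ Finset.range q.natDegree, ‖q.coeff k‖ + 1 := by
  have h1 := Polynomial.IsRoot.norm_lt_cauchyBound hq.ne_zero ht
  have h2 : Polynomial.cauchyBound q ≤ ∑ k ∈ Finset.range q.natDegree, ‖q.coeff k‖₊ + 1 := by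
    unfold Polynomial.cauchyBound
    rw [hq.leadingCoeff, nnnorm_one, div_one]
    gcongr
    exact Finset.sup_le fun k hk => Finset.single_le_sum (f := fun k => ‖q.coeff k‖₊) (fun _ _ => zero_le) hk
  have h3 : ‖t‖₊ ≤ ∑ k ∈ Finset.range q.natDegree, ‖q.coeff k‖₊ + 1 := h1.le.trans h2
  have h4 : (‖t‖₊ : ℝ) ≤ ((∑ k ∈ Finset.range q.natDegree, ‖q.coeff k‖₊ + 1 : NNReal) : ℝ) := by
    exact_mod_cast h3
  rw [NNReal.coe_add, NNReal.coe_sum, NNReal.coe_one] at h4
  exact h4

theorem finite_fiber [Finite ι] {a : ι → K} {n : ℕ} {b : Fin n → K}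
    {B : Fin n → MvPolynomial ι ℂ} (hB : ∀ j, aeval a (B j) = b j)
    (hint : ∀ i, IsIntegral (Algebra.adjoin ℂ (Set.range b)) (a i)) (y₀ : Fin n → ℂ) :
    {w | w ∈ pts a ∧ ∀ j, eval w (B j) = y₀ j}.Finite := by
  choose p hpm hp using fun i => exists_monic hint (X i : MvPolynomial ι ℂ)
  have hfin : {w : ι → ℂ | ∀ i, w i ∈ {t : ℂ | ((p i).map (eval y₀)).IsRoot t}}.Finite :=
    Set.Finite.pi' fun i => Polynomial.finite_setOfPred_isRoot ((hpm i).map _).ne_zero
  refine hfin.subset ?_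
  rintro w ⟨hw, hwy⟩ i
  have h1 := root_at hB (hp i) hw
  rw [eval_X] at h1
  have h2 : (fun j => eval w (B j)) = y₀ := funext hwy
  rw [h2] at h1
  exact h1

theorem bdd_near [Finite ι] {a : ι → K} {n : ℕ} {b : Fin n → K}
    {B : Fin n → MvPolynomial ι ℂ} (hB : ∀ j, aeval a (B j) = b j)
    (hint : ∀ i, IsIntegral (Algebra.adjoin ℂ (Set.range b)) (a i)) (y₀ : Fin n → ℂ) :
    ∃ C : ℝ, ∀ᶠ y in 𝓝 y₀, ∀ w ∈ pts a, (∀ j, eval w (B j) = y j) → ∀ i, ‖w i‖ ≤ C := by
  choose p hpm hp using fun i => exists_monic hint (X i : MvPolynomial ι ℂ)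
  cases nonempty_fintype ι
  have hcont : ∀ i, Continuous fun y : Fin n → ℂ =>
      ∑ k ∈ Finset.range (p i).natDegree, ‖eval y ((p i).coeff k)‖ + 1 := by
    intro i
    exact (continuous_finsetSum _ fun k _ => (MvPolynomial.continuous_eval _).norm).add continuous_const
  have hS : ∀ i, 0 ≤ ∑ k ∈ Finset.range (p i).natDegree, ‖eval y₀ ((p i).coeff k)‖ + 1 := by
    intro i
    positivity
  refine ⟨∑ i, (∑ k ∈ Finset.range (p i).natDegree, ‖eval y₀ ((p i).coeff k)‖ + 1 + 1), ?_⟩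
  have hev : ∀ᶠ y in 𝓝 y₀, ∀ i, ∑ k ∈ Finset.range (p i).natDegree, ‖eval y ((p i).coeff k)‖ + 1 <
      ∑ k ∈ Finset.range (p i).natDegree, ‖eval y₀ ((p i).coeff k)‖ + 1 + 1 := by
    rw [Filter.eventually_all]
    intro i
    exact (hcont i).continuousAt.eventually_lt continuousAt_const (by simp)
  filter_upwards [hev] with y hy w hw hwy i
  have h1 := root_at hB (hp i) hw
  rw [eval_X] at h1
  have h2 : (fun j => eval w (B j)) = y := funext hwy
  rw [h2] at h1
  have h3 := Bdd_root ((hpm i).map (eval y)) h1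
  rw [(hpm i).natDegree_map] at h3
  simp only [Polynomial.coeff_map] at h3
  refine (h3.trans (hy i).le).trans ?_
  exact Finset.single_le_sum (f := fun i => ∑ k ∈ Finset.range (p i).natDegree, ‖eval y₀ ((p i).coeff k)‖ + 1 + 1)
    (fun i _ => by have := hS i; positivity) (Finset.mem_univ i)

end Pool.Agent.H13.SM

end
end

section

/-!
# Lying over

PROOF of `exists_lift`.  Let `R = MvPolynomial (Fin n) ℂ`, which maps to
`A = Algebra.adjoin ℂ (Set.range a)` by `X j ↦ b j`; this map is injective and integral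
(`exists_monic`).  `ζ = aeval a Z` is an element of `A`, `μ = minpoly R ζ`: it is monic and, `R` being
integrally closed, it divides each polynomial with root `ζ`, so `AdjoinRoot μ → A` is injective.

Let `y', T'` satisfy `(μ.map (eval y')).eval T' = 0`.  `AdjoinRoot.lift` gives a ring hom
`χ : AdjoinRoot μ →+* ℂ` with `χ (X j) = y' j`, `χ root = T'` and which is the identity on `ℂ`.  It is
surjective, so its kernel `M` is a maximal ideal.  By `Ideal.exists_ideal_over_maximal_of_isIntegral`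
there is a maximal ideal `Q` of `A` over `M`.  `A ⧸ Q` is a field and a `ℂ`-algebra of finite type, so
it is finite over `ℂ` and `algebraMap ℂ (A ⧸ Q)` is bijective.  This gives `φ : A →ₐ[ℂ] ℂ` with kernel
`Q`, and `φ s = χ s` for `s` in `AdjoinRoot μ`.  The point of `φ` (`exists_pt_of_algHom`) has
`eval w (B j) = φ (b j) = y' j` and `eval w Z = φ ζ = T'`.
-/

open MvPolynomial

noncomputable section

namespace Pool.Agent.H13.SM

variable {ι K : Type} [Field K] [Algebra ℂ K]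

/-- A maximal ideal of a `ℂ`-algebra of finite type is the kernel of an algebra hom to `ℂ`. -/
private theorem Lift_exists_algHom {A : Type} [CommRing A] [Algebra ℂ A] [Algebra.FiniteType ℂ A]
    (Q : Ideal A) [hQ : Q.IsMaximal] : ∃ φ : A →ₐ[ℂ] ℂ, ∀ x, φ x = 0 ↔ x ∈ Q := by
  let : Field (A ⧸ Q) := Ideal.Quotient.field Q
  have : Module.Finite ℂ (A ⧸ Q) := finite_of_finite_type_of_isJacobsonRing ℂ (A ⧸ Q)
  have : Algebra.IsIntegral ℂ (A ⧸ Q) := Algebra.IsIntegral.of_finite ℂ (A ⧸ Q)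
  have hbij : Function.Bijective (algebraMap ℂ (A ⧸ Q)) :=
    IsAlgClosed.algebraMap_bijective_of_isIntegral
  let e : ℂ ≃ₐ[ℂ] (A ⧸ Q) := AlgEquiv.ofBijective (Algebra.ofId ℂ (A ⧸ Q)) hbij
  refine ⟨(e.symm : (A ⧸ Q) →ₐ[ℂ] ℂ).comp (Ideal.Quotient.mkₐ ℂ Q), fun x => ?_⟩
  have h1 : ((e.symm : (A ⧸ Q) →ₐ[ℂ] ℂ).comp (Ideal.Quotient.mkₐ ℂ Q)) x
      = e.symm (Ideal.Quotient.mk Q x) := rfl
  rw [h1, map_eq_zero_iff _ e.symm.injective, Ideal.Quotient.eq_zero_iff_mem]

/-- There is a monic polynomial `μ` for `Z` such that each root of a specialisation of `μ` is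
attained at a point of the variety. -/
theorem exists_lift [Finite ι] {a : ι → K} {n : ℕ} {b : Fin n → K} (hb : AlgebraicIndependent ℂ b)
    {B : Fin n → MvPolynomial ι ℂ} (hB : ∀ j, aeval a (B j) = b j)
    (hint : ∀ i, IsIntegral (Algebra.adjoin ℂ (Set.range b)) (a i)) (Z : MvPolynomial ι ℂ) :
    ∃ μ : Polynomial (MvPolynomial (Fin n) ℂ), μ.Monic ∧
      (μ.map (aeval b : MvPolynomial (Fin n) ℂ →ₐ[ℂ] K).toRingHom).eval (aeval a Z) = 0 ∧
      ∀ (y' : Fin n → ℂ) (T' : ℂ), (μ.map (eval y')).eval T' = 0 →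
        ∃ w ∈ pts a, (∀ j, eval w (B j) = y' j) ∧ eval w Z = T' := by
  classical
  have hbA : ∀ j, b j ∈ Algebra.adjoin ℂ (Set.range a) := fun j => by
    rw [← hB j]; exact aeval_mem_adjoin a (B j)
  -- the ring hom from R to A
  let ρ : MvPolynomial (Fin n) ℂ →ₐ[ℂ] Algebra.adjoin ℂ (Set.range a) :=
    aeval (fun j => (⟨b j, hbA j⟩ : Algebra.adjoin ℂ (Set.range a)))
  have hρ : (Algebra.adjoin ℂ (Set.range a)).val.comp ρ = aeval b := by
    apply MvPolynomial.algHom_ext
    intro j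
    simp [ρ]
  have hρ' : ∀ q, ((ρ q : Algebra.adjoin ℂ (Set.range a)) : K) = aeval b q := fun q => by
    rw [← hρ]; rfl
  have hinj : Function.Injective ρ := by
    intro q q' h
    apply hb
    rw [← hρ' q, ← hρ' q', h]
  let alg : Algebra (MvPolynomial (Fin n) ℂ) (Algebra.adjoin ℂ (Set.range a)) :=
    ρ.toRingHom.toAlgebra
  have halg : ∀ q, algebraMap (MvPolynomial (Fin n) ℂ) (Algebra.adjoin ℂ (Set.range a)) q = ρ q :=
    fun q => rfl
  have : FaithfulSMul (MvPolynomial (Fin n) ℂ) (Algebra.adjoin ℂ (Set.range a)) :=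
    (faithfulSMul_iff_algebraMap_injective _ _).2 hinj
  -- integrality
  have hI : ∀ x : Algebra.adjoin ℂ (Set.range a), IsIntegral (MvPolynomial (Fin n) ℂ) x := by
    intro x
    obtain ⟨x, hx⟩ := x
    obtain ⟨Q, hQ⟩ : ∃ Q : MvPolynomial ι ℂ, aeval a Q = x := by
      rw [Algebra.adjoin_range_eq_range_aeval] at hx
      exact hx
    obtain ⟨p, hp, hp0⟩ := exists_monic hint Q
    refine ⟨p, hp, ?_⟩
    apply Subtype.coe_injective
    have h1 := Polynomial.hom_eval₂ p (algebraMap (MvPolynomial (Fin n) ℂ)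
      (Algebra.adjoin ℂ (Set.range a))) (Algebra.adjoin ℂ (Set.range a)).val.toRingHom ⟨x, hx⟩
    have h2 : (Algebra.adjoin ℂ (Set.range a)).val.toRingHom.comp
        (algebraMap (MvPolynomial (Fin n) ℂ) (Algebra.adjoin ℂ (Set.range a)))
        = (aeval b : MvPolynomial (Fin n) ℂ →ₐ[ℂ] K).toRingHom := by
      ext q
      · exact hρ' _
      · exact hρ' _
    rw [h2] at h1
    rw [Polynomial.eval_map, hQ] at hp0
    exact h1.trans hp0
  have : Algebra.IsIntegral (MvPolynomial (Fin n) ℂ) (Algebra.adjoin ℂ (Set.range a)) := ⟨hI⟩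
  let ζ : Algebra.adjoin ℂ (Set.range a) := ⟨aeval a Z, aeval_mem_adjoin a Z⟩
  let μ : Polynomial (MvPolynomial (Fin n) ℂ) := minpoly (MvPolynomial (Fin n) ℂ) ζ
  have hμ : μ.Monic := minpoly.monic (hI ζ)
  have hμ0 : μ.eval₂ (algebraMap (MvPolynomial (Fin n) ℂ) (Algebra.adjoin ℂ (Set.range a))) ζ = 0 :=
    minpoly.aeval (MvPolynomial (Fin n) ℂ) ζ
  refine ⟨μ, hμ, ?_, ?_⟩
  · have h1 := Polynomial.hom_eval₂ μ (algebraMap (MvPolynomial (Fin n) ℂ)
      (Algebra.adjoin ℂ (Set.range a))) (Algebra.adjoin ℂ (Set.range a)).val.toRingHom ζ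
    have h2 : (Algebra.adjoin ℂ (Set.range a)).val.toRingHom.comp
        (algebraMap (MvPolynomial (Fin n) ℂ) (Algebra.adjoin ℂ (Set.range a)))
        = (aeval b : MvPolynomial (Fin n) ℂ →ₐ[ℂ] K).toRingHom := by
      ext q
      · exact hρ' _
      · exact hρ' _
    rw [h2, hμ0, map_zero] at h1
    rw [Polynomial.eval_map]
    exact h1.symm
  · intro y' T' hT
    rw [Polynomial.eval_map] at hT
    let χ : AdjoinRoot μ →+* ℂ := AdjoinRoot.lift (eval y') T' hT
    let θ : AdjoinRoot μ →+* Algebra.adjoin ℂ (Set.range a) :=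
      AdjoinRoot.lift (algebraMap (MvPolynomial (Fin n) ℂ) (Algebra.adjoin ℂ (Set.range a))) ζ hμ0
    have hχof : ∀ q, χ (AdjoinRoot.of μ q) = eval y' q := fun q => AdjoinRoot.lift_of hT
    have hχroot : χ (AdjoinRoot.root μ) = T' := AdjoinRoot.lift_root hT
    have hθof : ∀ q, θ (AdjoinRoot.of μ q) = ρ q := fun q => AdjoinRoot.lift_of hμ0
    have hθroot : θ (AdjoinRoot.root μ) = ζ := AdjoinRoot.lift_root hμ0
    have hsurj : Function.Surjective χ := by
      intro c
      refine ⟨AdjoinRoot.of μ (C c), ?_⟩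
      rw [hχof, eval_C]
    have hM : (RingHom.ker χ).IsMaximal := RingHom.ker_isMaximal_of_surjective χ hsurj
    let algθ : Algebra (AdjoinRoot μ) (Algebra.adjoin ℂ (Set.range a)) := θ.toAlgebra
    have : IsScalarTower (MvPolynomial (Fin n) ℂ) (AdjoinRoot μ)
        (Algebra.adjoin ℂ (Set.range a)) := by
      apply IsScalarTower.of_algebraMap_eq
      intro q
      exact (hθof q).symm
    have : Algebra.IsIntegral (AdjoinRoot μ) (Algebra.adjoin ℂ (Set.range a)) :=
      Algebra.IsIntegral.tower_top (MvPolynomial (Fin n) ℂ)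
    have hker : RingHom.ker (algebraMap (AdjoinRoot μ) (Algebra.adjoin ℂ (Set.range a)))
        ≤ RingHom.ker χ := by
      intro s hs
      obtain ⟨p, rfl⟩ := AdjoinRoot.mk_surjective s
      have h1 : Polynomial.aeval ζ p = 0 := by
        have h2 : θ (AdjoinRoot.mk μ p) = 0 := hs
        rwa [AdjoinRoot.lift_mk] at h2
      have h3 : μ ∣ p := minpoly.isIntegrallyClosed_dvd (hI ζ) h1
      have h4 : AdjoinRoot.mk μ p = 0 := AdjoinRoot.mk_eq_zero.2 h3
      rw [h4]
      exact Ideal.zero_mem _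
    obtain ⟨Q, hQ, hQM⟩ := Ideal.exists_ideal_over_maximal_of_isIntegral
      (S := Algebra.adjoin ℂ (Set.range a)) (RingHom.ker χ) hker
    have := hQ
    have : Algebra.FiniteType ℂ (Algebra.adjoin ℂ (Set.range a)) :=
      (Subalgebra.fg_iff_finiteType _).1 (Subalgebra.fg_def.2 ⟨_, Set.finite_range a, rfl⟩)
    obtain ⟨φ, hφ⟩ := Lift_exists_algHom (A := Algebra.adjoin ℂ (Set.range a)) Q
    have hφθ : ∀ s : AdjoinRoot μ, φ (θ s) = χ s := by
      intro s
      have h1 : s - AdjoinRoot.of μ (C (χ s)) ∈ RingHom.ker χ := by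
        rw [RingHom.mem_ker, map_sub, hχof, eval_C, sub_self]
      rw [← hQM, Ideal.mem_comap] at h1
      have h2 := (hφ _).2 h1
      have h3 : algebraMap (AdjoinRoot μ) (Algebra.adjoin ℂ (Set.range a))
          (s - AdjoinRoot.of μ (C (χ s))) = θ s - algebraMap ℂ _ (χ s) := by
        show θ _ = _
        rw [map_sub, hθof]
        congr 1
        show ρ (C (χ s)) = _
        rw [← MvPolynomial.algebraMap_eq, AlgHom.commutes]
      rw [h3, map_sub, AlgHom.commutes, sub_eq_zero] at h2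
      exact h2
    obtain ⟨w, hw, hwφ⟩ := exists_pt_of_algHom a φ
    refine ⟨w, hw, fun j => ?_, ?_⟩
    · rw [hwφ]
      have h1 : (⟨aeval a (B j), aeval_mem_adjoin a (B j)⟩ : Algebra.adjoin ℂ (Set.range a))
          = θ (AdjoinRoot.of μ (X j)) := by
        rw [hθof]
        apply Subtype.coe_injective
        show aeval a (B j) = ((ρ (X j) : Algebra.adjoin ℂ (Set.range a)) : K)
        rw [hρ', aeval_X]
        exact hB j
      rw [h1, hφθ, hχof, eval_X]
    · rw [hwφ]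
      have h1 : (⟨aeval a Z, aeval_mem_adjoin a Z⟩ : Algebra.adjoin ℂ (Set.range a))
          = θ (AdjoinRoot.root μ) := hθroot.symm
      rw [h1, hφθ, hχroot]

end Pool.Agent.H13.SM

end
end

section

/-!
# CV HomA: the holomorphic map given by entire functions

For `z₀ : ℂ` let `k` be the least order of the `a i` at `z₀` (finite, as some `a j ≠ 0`: `order_ne_top`), `a i = coord z₀ ^ k * c i` with entire `c i` (`exists_coord_mul`, induction on `k`), not all
`c i (z₀) = 0`.  `f z₀` is the point `(c i (z₀))_i`.  Near `z₀`, for `z ≠ z₀`, `(a i (z))_i = (z - z₀) ^ k (c i (z))_i ≠ 0`, and the representation at `z` (`k' , c'`) has `a i (z) = 0` for all `i` unless `k' = 0`; so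
`k' = 0`, `c' = a` and `f z = [a i (z)] = [c i (z)]`.  So `f` is holomorphic at `z₀` with lift `z ↦ (c i (z))_i`.
-/

set_option autoImplicit false

open Topology Filter
open Pool.Agent.H17 Pool.Agent.H17.EntFun

noncomputable section

namespace Pool.Agent.H13.CV

private lemma exists_decomp {N : ℕ} (z₀ : ℂ) : ∀ (n : ℕ) (a : Fin (N + 1) → EntFun) (j : Fin (N + 1)), a j ≠ 0 →
    analyticOrderAt (a j : ℂ → ℂ) z₀ = n →
    ∃ (k : ℕ) (c : Fin (N + 1) → EntFun), (fun i => (c i : ℂ → ℂ) z₀) ≠ 0 ∧ ∀ i, a i = coord z₀ ^ k * c i := by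
  intro n
  induction n using Nat.strong_induction_on with
  | _ n ih =>
    intro a j hj hn
    by_cases h : (fun i => (a i : ℂ → ℂ) z₀) = 0
    · have h1 : ∀ i, ∃ g : EntFun, a i = coord z₀ * g := fun i => exists_coord_mul (congrFun h i)
      choose g hg using h1
      have hgj : g j ≠ 0 := by
        intro h2
        apply hj
        rw [hg j, h2, mul_zero]
      obtain ⟨n', hn'⟩ : ∃ n' : ℕ, analyticOrderAt (g j : ℂ → ℂ) z₀ = n' :=
        ⟨_, (Nat.cast_analyticOrderNatAt (order_ne_top hgj z₀)).symm⟩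
      have hlt : n' < n := by
        rw [hg j, order_mul, order_coord, hn'] at hn
        have : 1 + n' = n := by exact_mod_cast hn
        omega
      obtain ⟨k, c, hc, he⟩ := ih n' hlt g j hgj hn'
      refine ⟨k + 1, c, hc, fun i => ?_⟩
      rw [hg i, he i, pow_succ', mul_assoc]
    · exact ⟨0, a, h, fun i => by rw [pow_zero, one_mul]⟩

theorem exists_map {N : ℕ} (a : Fin (N + 1) → EntFun) (ha : ∃ i, a i ≠ 0) :
    ∃ f : ℂ → PN N, HolomorphicInto f Set.univ ∧ ∀ z₀ : ℂ, ∃ (k : ℕ) (c : Fin (N + 1) → EntFun) (h : (fun i => (c i : ℂ → ℂ) z₀) ≠ 0),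
      (∀ i, a i = coord z₀ ^ k * c i) ∧ f z₀ = Projectivization.mk ℂ _ h := by
  obtain ⟨j, hj⟩ := ha
  have key : ∀ z₀ : ℂ, ∃ (k : ℕ) (c : Fin (N + 1) → EntFun), (fun i => (c i : ℂ → ℂ) z₀) ≠ 0 ∧ ∀ i, a i = coord z₀ ^ k * c i :=
    fun z₀ => exists_decomp z₀ _ a j hj (Nat.cast_analyticOrderNatAt (order_ne_top hj z₀)).symm
  choose k c hc he using key
  refine ⟨fun z => Projectivization.mk ℂ (fun i => (c z i : ℂ → ℂ) z) (hc z), ?_,
    fun z₀ => ⟨k z₀, c z₀, hc z₀, he z₀, rfl⟩⟩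
  intro z₀ _
  refine ⟨fun z i => (c z₀ i : ℂ → ℂ) z, ?_, ?_⟩
  · exact analyticAt_pi_iff.mpr fun i => (c z₀ i).analyticAt z₀
  · obtain ⟨i₀, hi₀⟩ : ∃ i₀, (c z₀ i₀ : ℂ → ℂ) z₀ ≠ 0 := by
      by_contra h
      push Not at h
      exact hc z₀ (funext h)
    have hev : ∀ᶠ z in 𝓝 z₀, (c z₀ i₀ : ℂ → ℂ) z ≠ 0 :=
      ((c z₀ i₀).diff z₀).continuousAt.eventually_ne hi₀
    filter_upwards [hev] with z hz
    have h : (fun i => (c z₀ i : ℂ → ℂ) z) ≠ 0 := fun h1 => hz (congrFun h1 i₀)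
    refine ⟨h, ?_⟩
    by_cases hzz : z = z₀
    · subst hzz
      rfl
    · have hsub : z - z₀ ≠ 0 := sub_ne_zero.2 hzz
      have h1 : ∀ i, (a i : ℂ → ℂ) z = (z - z₀) ^ k z₀ * (c z₀ i : ℂ → ℂ) z := by
        intro i
        have h2 := congrArg (fun g : EntFun => ev z g) (he z₀ i)
        simpa using h2
      have h3 : ∀ i, (a i : ℂ → ℂ) z = (z - z) ^ k z * (c z i : ℂ → ℂ) z := by
        intro i
        have h2 := congrArg (fun g : EntFun => ev z g) (he z i)
        simpa using h2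
      have hk : k z = 0 := by
        by_contra hk
        have h4 := h3 i₀
        rw [sub_self, zero_pow hk, zero_mul, h1 i₀] at h4
        exact mul_ne_zero (pow_ne_zero _ hsub) hz h4
      have h5 : ∀ i, (c z i : ℂ → ℂ) z = (z - z₀) ^ k z₀ * (c z₀ i : ℂ → ℂ) z := by
        intro i
        rw [← h1 i, h3 i, hk, pow_zero, one_mul]
      rw [Projectivization.mk_eq_mk_iff]
      refine ⟨Units.mk0 ((z - z₀) ^ k z₀) (pow_ne_zero _ hsub), ?_⟩
      funext i
      rw [h5 i]
      rfl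

end Pool.Agent.H13.CV

end
end

section

/-!
# BP CirB: approximation on two circles

`trig_approx` on both circles: `φ(r e^(iθ)) ≈ Re ∑ a_n e^(inθ)`, `φ(R e^(iθ)) ≈ Re ∑ b_n e^(inθ)` (common `m`, pad with zeros).  For `n ≥ 1` the function
`Re(c_n z^n + d_n z^(-n))` has at `z = ρ e^(iθ)` the value `Re((c_n ρ^n + conj(d_n) ρ^(-n)) e^(inθ))`; solve `c_n r^n + conj(d_n) r^(-n) = a_n`,
`c_n R^n + conj(d_n) R^(-n) = b_n` (determinant `(r/R)^n - (R/r)^n ≠ 0`).  For `n = 0`: real `a`, `b` with `a + b log r = Re a_0`, `a + b log R = Re b_0`.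
`g z = a + ∑_{n ≥ 1} (c_n z^n + d_n z^(-n))`.
-/

set_option autoImplicit false

namespace Pool.Agent.H36.BP

open Filter Topology Metric

variable {N : ℕ}

private theorem CirB_key (ρ : ℝ) (c d : ℂ) (n : ℕ) (θ : ℝ) :
    (c * ((ρ : ℂ) * Complex.exp (θ * Complex.I)) ^ n + d * (((ρ : ℂ) * Complex.exp (θ * Complex.I))⁻¹) ^ n).re
      = ((c * (ρ : ℂ) ^ n + (starRingEnd ℂ) d * ((ρ : ℂ) ^ n)⁻¹) * Complex.exp (n * (θ * Complex.I))).re := by
  have h1 : (c * ((ρ : ℂ) * Complex.exp (θ * Complex.I)) ^ n) = c * (ρ : ℂ) ^ n * Complex.exp (n * (θ * Complex.I)) := by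
    rw [mul_pow, ← Complex.exp_nat_mul, mul_assoc]
  have h2 : (starRingEnd ℂ) (d * (((ρ : ℂ) * Complex.exp (θ * Complex.I))⁻¹) ^ n)
      = (starRingEnd ℂ) d * ((ρ : ℂ) ^ n)⁻¹ * Complex.exp (n * (θ * Complex.I)) := by
    have h3 : (((ρ : ℂ) * Complex.exp (θ * Complex.I))⁻¹) ^ n = ((ρ : ℂ) ^ n)⁻¹ * Complex.exp (-(n * (θ * Complex.I))) := by
      rw [inv_pow, mul_pow, ← Complex.exp_nat_mul, mul_inv, Complex.exp_neg]
    rw [h3, map_mul, map_mul, ← Complex.exp_conj]
    have h4 : (starRingEnd ℂ) (-(n * (θ * Complex.I))) = n * (θ * Complex.I) := by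
      simp
    rw [h4, map_inv₀, map_pow, Complex.conj_ofReal, mul_assoc]
  rw [Complex.add_re, h1, add_mul, Complex.add_re]
  congr 1
  rw [← Complex.conj_re, h2]

private theorem CirB_solve {r R : ℝ} (hr : 0 < r) (hrR : r < R) (a b : ℂ) (n : ℕ) (hn : n ≠ 0) :
    ∃ c d : ℂ, c * (r : ℂ) ^ n + (starRingEnd ℂ) d * ((r : ℂ) ^ n)⁻¹ = a ∧
      c * (R : ℂ) ^ n + (starRingEnd ℂ) d * ((R : ℂ) ^ n)⁻¹ = b := by
  have hR : 0 < R := hr.trans hrR
  have h1 : r ^ n < R ^ n := pow_lt_pow_left₀ hrR hr.le hn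
  have h2 : 0 < r ^ n := pow_pos hr n
  have h3 : 0 < R ^ n := pow_pos hR n
  have hr' : ((r : ℂ) ^ n) ≠ 0 := by exact_mod_cast h2.ne'
  have hR' : ((R : ℂ) ^ n) ≠ 0 := by exact_mod_cast h3.ne'
  have hD : ((r : ℂ) ^ n) ^ 2 - ((R : ℂ) ^ n) ^ 2 ≠ 0 := by
    have : (r ^ n) ^ 2 - (R ^ n) ^ 2 ≠ 0 := by nlinarith
    exact_mod_cast this
  refine ⟨(a * (r : ℂ) ^ n - b * (R : ℂ) ^ n) / (((r : ℂ) ^ n) ^ 2 - ((R : ℂ) ^ n) ^ 2),
    (starRingEnd ℂ) ((r : ℂ) ^ n * (R : ℂ) ^ n * ((r : ℂ) ^ n * b - (R : ℂ) ^ n * a) / (((r : ℂ) ^ n) ^ 2 - ((R : ℂ) ^ n) ^ 2)), ?_, ?_⟩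
  · rw [Complex.conj_conj]
    field_simp
    ring
  · rw [Complex.conj_conj]
    field_simp
    ring

private theorem CirB_pad (m m' : ℕ) (hm : m ≤ m') (a : ℕ → ℂ) (f : ℕ → ℂ) :
    ∑ n ∈ Finset.range (m + 1), a n * f n = ∑ n ∈ Finset.range (m' + 1), (if n ≤ m then a n else 0) * f n := by
  have h : Finset.range (m + 1) ⊆ Finset.range (m' + 1) := by
    intro x hx
    rw [Finset.mem_range] at hx ⊢
    omega
  rw [← Finset.sum_subset h]
  · apply Finset.sum_congr rfl
    intro x hx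
    rw [Finset.mem_range] at hx
    rw [if_pos (by omega)]
  · intro x _ hx
    rw [Finset.mem_range] at hx
    rw [if_neg (by omega), zero_mul]

private theorem CirB_circ (φ : ℂ → ℝ) (ρ : ℝ) (hρ : 0 < ρ) (S : Set ℂ) (hS : sphere (0 : ℂ) ρ ⊆ S) (hφ : ContinuousOn φ S)
    {ε : ℝ} (hε : 0 < ε) :
    ∃ (m : ℕ) (c : ℕ → ℂ), ∀ θ : ℝ, |φ (ρ * Complex.exp (θ * Complex.I)) -
      (∑ n ∈ Finset.range (m + 1), c n * Complex.exp (n * (θ * Complex.I))).re| ≤ ε := by
  apply trig_approx (fun θ : ℝ => φ (ρ * Complex.exp (θ * Complex.I))) _ _ hε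
  · apply hφ.comp_continuous
    · fun_prop
    · intro θ
      apply hS
      rw [mem_sphere_zero_iff_norm, norm_mul, Complex.norm_exp_ofReal_mul_I, mul_one, Complex.norm_real, Real.norm_eq_abs, abs_of_pos hρ]
  · intro θ
    have : Complex.exp (((θ + 2 * Real.pi : ℝ) : ℂ) * Complex.I) = Complex.exp (θ * Complex.I) := by
      have h := Complex.exp_periodic (θ * Complex.I)
      rw [← h]
      congr 1
      push_cast
      ring
    show φ (ρ * Complex.exp (((θ + 2 * Real.pi : ℝ) : ℂ) * Complex.I)) = _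
    rw [this]

theorem annulus_approx {r R : ℝ} (hr : 0 < r) (hrR : r < R) (φ : ℂ → ℝ) (hφ : ContinuousOn φ (sphere (0 : ℂ) r ∪ sphere (0 : ℂ) R))
    {ε : ℝ} (hε : 0 < ε) : ∃ (g : ℂ → ℂ) (b : ℝ), DifferentiableOn ℂ g {0}ᶜ ∧
      ∀ z ∈ sphere (0 : ℂ) r ∪ sphere (0 : ℂ) R, |(g z).re + b * Real.log ‖z‖ - φ z| ≤ ε := by
  have hR : 0 < R := hr.trans hrR
  obtain ⟨m₁, a₁, h₁⟩ := CirB_circ φ r hr _ Set.subset_union_left hφ hε
  obtain ⟨m₂, a₂, h₂⟩ := CirB_circ φ R hR _ Set.subset_union_right hφ hε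
  set m := max m₁ m₂ with hm
  set A : ℕ → ℂ := fun n => if n ≤ m₁ then a₁ n else 0 with hA
  set B : ℕ → ℂ := fun n => if n ≤ m₂ then a₂ n else 0 with hB
  have h₁' : ∀ θ : ℝ, |φ (r * Complex.exp (θ * Complex.I)) -
      (∑ n ∈ Finset.range (m + 1), A n * Complex.exp (n * (θ * Complex.I))).re| ≤ ε := by
    intro θ
    have := h₁ θ
    rw [CirB_pad m₁ m (le_max_left _ _) a₁ (fun n => Complex.exp (n * (θ * Complex.I)))] at this
    exact this
  have h₂' : ∀ θ : ℝ, |φ (R * Complex.exp (θ * Complex.I)) -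
      (∑ n ∈ Finset.range (m + 1), B n * Complex.exp (n * (θ * Complex.I))).re| ≤ ε := by
    intro θ
    have := h₂ θ
    rw [CirB_pad m₂ m (le_max_right _ _) a₂ (fun n => Complex.exp (n * (θ * Complex.I)))] at this
    exact this
  have hex : ∀ n : ℕ, ∃ c d : ℂ, c * (r : ℂ) ^ (n + 1) + (starRingEnd ℂ) d * ((r : ℂ) ^ (n + 1))⁻¹ = A (n + 1) ∧
      c * (R : ℂ) ^ (n + 1) + (starRingEnd ℂ) d * ((R : ℂ) ^ (n + 1))⁻¹ = B (n + 1) :=
    fun n => CirB_solve hr hrR _ _ (n + 1) (Nat.succ_ne_zero n)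
  choose c d hc hd using hex
  have hlog : Real.log r < Real.log R := Real.log_lt_log hr hrR
  obtain ⟨a, b, hab1, hab2⟩ : ∃ a b : ℝ, a + b * Real.log r = (A 0).re ∧ a + b * Real.log R = (B 0).re := by
    refine ⟨(A 0).re - ((B 0).re - (A 0).re) / (Real.log R - Real.log r) * Real.log r,
      ((B 0).re - (A 0).re) / (Real.log R - Real.log r), by ring, ?_⟩
    have : Real.log R - Real.log r ≠ 0 := by linarith
    field_simp
    ring
  set g : ℂ → ℂ := fun z => (a : ℂ) + ∑ n ∈ Finset.range m, (c n * z ^ (n + 1) + d n * (z⁻¹) ^ (n + 1)) with hg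
  have hval : ∀ (ρ : ℝ) (C : ℕ → ℂ), 0 < ρ → a + b * Real.log ρ = (C 0).re →
      (∀ n, c n * (ρ : ℂ) ^ (n + 1) + (starRingEnd ℂ) (d n) * ((ρ : ℂ) ^ (n + 1))⁻¹ = C (n + 1)) →
      ∀ θ : ℝ, (g (ρ * Complex.exp (θ * Complex.I))).re + b * Real.log ρ
        = (∑ n ∈ Finset.range (m + 1), C n * Complex.exp (n * (θ * Complex.I))).re := by
    intro ρ C hρ h0 hC θ
    rw [Finset.sum_range_succ']
    simp only [hg, Complex.add_re, Complex.re_sum, Complex.ofReal_re]
    have e1 : ∀ n ∈ Finset.range m, (c n * ((ρ : ℂ) * Complex.exp (θ * Complex.I)) ^ (n + 1)).re +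
        (d n * (((ρ : ℂ) * Complex.exp (θ * Complex.I))⁻¹) ^ (n + 1)).re
        = (C (n + 1) * Complex.exp (((n + 1 : ℕ) : ℂ) * (θ * Complex.I))).re := by
      intro n _
      rw [← Complex.add_re, CirB_key, hC n]
    rw [Finset.sum_congr rfl e1]
    have e2 : (C 0 * Complex.exp (((0 : ℕ) : ℂ) * (θ * Complex.I))).re = a + b * Real.log ρ := by
      rw [h0]; simp
    rw [e2]
    ring
  refine ⟨g, b, ?_, ?_⟩
  · intro z hz
    have hz0 : z ≠ 0 := hz
    apply DifferentiableAt.differentiableWithinAt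
    rw [hg]
    apply DifferentiableAt.const_add
    apply DifferentiableAt.fun_sum
    intro n _
    exact ((differentiableAt_id.pow _).const_mul _).add (((differentiableAt_inv hz0).pow _).const_mul _)
  · have harg : ∀ (z : ℂ), z = (‖z‖ : ℂ) * Complex.exp (Complex.arg z * Complex.I) := fun z => (Complex.norm_mul_exp_arg_mul_I z).symm
    rintro z (hz | hz)
    · rw [mem_sphere_zero_iff_norm] at hz
      have h3 := h₁' (Complex.arg z)
      have h4 := hval r A hr hab1 hc (Complex.arg z)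
      have h5 := harg z
      rw [hz] at h5
      rw [← h5] at h3 h4
      rw [hz, h4, abs_sub_comm]
      exact h3
    · rw [mem_sphere_zero_iff_norm] at hz
      have h3 := h₂' (Complex.arg z)
      have h4 := hval R B hR hab2 hd (Complex.arg z)
      have h5 := harg z
      rw [hz] at h5
      rw [← h5] at h3 h4
      rw [hz, h4, abs_sub_comm]
      exact h3

end Pool.Agent.H36.BP

end

section

/-!
# G3 R Wir: two lemmas on circle averages

`sq_mean`: for scalar `f` holomorphic on `ball 0 R`, `f z = ∑ a_j z^j`: the average of `|f - f 0|²` is `∑_{j ≥ 1} |a_j|² r^(2j)`, of `|f'|²` is `∑_{j ≥ 1} j² |a_j|² r^(2j-2)` (Parseval); sum over the coordinates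
(`‖x‖² ≤ ∑ ‖x i‖²`, `‖x i‖ ≤ ‖x‖`).  Instead of Parseval: `H56/G3/Rad.lean` (`mean_sq_le`) and the monotonicity in `ρ` of the average of `|f'|²` on the circle of radius `ρ`
(`|f'|²` has the sub-mean property; e.g. `z ↦ avg of f'(z e^{iθ}) conj(f'(r e^{iθ}))` and Cauchy-Schwarz).
`cauchy_sub`: `g z - g 0 = circleAverage (z / (ζ - z) • g ζ)` (Cauchy's integral formula), `‖z / (ζ - z)‖ ≤ 2 ‖z‖ / ρ`.
-/

set_option autoImplicit false

open Topology Filter Metric

namespace Pool.Agent.G3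

open Pool.Agent.H36.BP (EN wd)
open Pool.Agent.H14.PP (IsCone CurveAt Tan)
open Pool.Agent.AD (Vd Chart Charts)

/-- Parseval for polynomials with a sum over a range -/
private lemma wir_parseval (q : Polynomial ℂ) {n : ℕ} (hn : q.natDegree < n) :
    Real.circleAverage (fun z => ‖q.eval z‖ ^ 2) 0 1 = ∑ i ∈ Finset.range n, ‖q.coeff i‖ ^ 2 := by
  rw [← Polynomial.sum_sq_norm_coeff_eq_circleAverage]
  refine Finset.sum_subset ?_ ?_
  · intro i hi
    rw [Finset.mem_range]
    exact (Polynomial.le_natDegree_of_mem_supp i hi).trans_lt hn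
  · intro i _ hi
    rw [Polynomial.notMem_support_iff.1 hi]
    simp

/-- the inequality for polynomials -/
private lemma wir_poly (p : Polynomial ℂ) {r : ℝ} :
    Real.circleAverage (fun z => ‖p.eval z - p.eval 0‖ ^ 2) 0 r ≤
      r ^ 2 * Real.circleAverage (fun z => ‖(Polynomial.derivative p).eval z‖ ^ 2) 0 r := by
  obtain ⟨q, hq⟩ : ∃ q : Polynomial ℂ, q = p.comp (Polynomial.C (r : ℂ) * Polynomial.X) := ⟨_, rfl⟩
  obtain ⟨n, hn⟩ : ∃ n, n = q.natDegree + 1 := ⟨_, rfl⟩
  have hqe : ∀ z, q.eval z = p.eval ((r : ℂ) * z) := by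
    intro z
    rw [hq, Polynomial.eval_comp]
    simp
  have h1 : Real.circleAverage (fun z => ‖p.eval z - p.eval 0‖ ^ 2) 0 r =
      Real.circleAverage (fun z => ‖(q - Polynomial.C (q.coeff 0)).eval z‖ ^ 2) 0 1 := by
    rw [Real.circleAverage_eq_circleAverage_zero_one]
    congr 1
    funext z
    rw [Polynomial.eval_sub, Polynomial.eval_C, Polynomial.coeff_zero_eq_eval_zero, hqe, hqe, add_zero,
      mul_zero]
  have h2 : r ^ 2 * Real.circleAverage (fun z => ‖(Polynomial.derivative p).eval z‖ ^ 2) 0 r =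
      Real.circleAverage (fun z => ‖(Polynomial.derivative q).eval z‖ ^ 2) 0 1 := by
    rw [Real.circleAverage_eq_circleAverage_zero_one, ← smul_eq_mul, ← Real.circleAverage_fun_smul]
    congr 1
    funext z
    have h3 : (Polynomial.derivative q).eval z = (r : ℂ) * (Polynomial.derivative p).eval ((r : ℂ) * z) := by
      rw [hq, Polynomial.derivative_comp]
      simp
    rw [h3, norm_mul, mul_pow, Complex.norm_real, Real.norm_eq_abs, sq_abs, add_zero, smul_eq_mul]
  rw [h1, h2]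
  have hd1 : (q - Polynomial.C (q.coeff 0)).natDegree < n + 1 := by
    have := Polynomial.natDegree_sub_C (p := q) (a := q.coeff 0)
    omega
  have hd2 : (Polynomial.derivative q).natDegree < n := by
    have := Polynomial.natDegree_derivative_le q
    omega
  rw [wir_parseval _ hd1, wir_parseval _ hd2, Finset.sum_range_succ']
  have h0 : ‖(q - Polynomial.C (q.coeff 0)).coeff 0‖ ^ 2 = 0 := by simp
  rw [h0, add_zero]
  refine Finset.sum_le_sum fun i _ => ?_
  rw [Polynomial.coeff_sub, Polynomial.coeff_C_succ, sub_zero, Polynomial.coeff_derivative]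
  refine pow_le_pow_left₀ (norm_nonneg _) ?_ 2
  rw [norm_mul]
  refine le_mul_of_one_le_right (norm_nonneg _) ?_
  have h4 : ‖(i : ℂ) + 1‖ = (i : ℝ) + 1 := by
    rw [← Nat.cast_one (R := ℂ), ← Nat.cast_add, Complex.norm_natCast]
    push_cast
    ring
  rw [h4]
  have : (0 : ℝ) ≤ i := Nat.cast_nonneg i
  linarith

/-- averages of squares converge if the functions converge uniformly on the circle -/
private lemma wir_tendsto {g : ℂ → ℂ} {G : ℕ → ℂ → ℂ} {r : ℝ} (hr : 0 < r)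
    (hG : ∀ n, ContinuousOn (G n) (sphere 0 r)) (h : TendstoUniformlyOn G g atTop (sphere 0 r)) :
    Tendsto (fun n => Real.circleAverage (fun z => ‖G n z‖ ^ 2) 0 r) atTop
      (𝓝 (Real.circleAverage (fun z => ‖g z‖ ^ 2) 0 r)) := by
  have hmem : ∀ θ : ℝ, circleMap 0 r θ ∈ sphere (0 : ℂ) r := fun θ => circleMap_mem_sphere 0 hr.le θ
  have hg : ContinuousOn g (sphere 0 r) := h.continuousOn (Eventually.of_forall hG).frequently
  obtain ⟨A, hA⟩ : ∃ A : ℝ, ∀ z ∈ sphere (0 : ℂ) r, ‖g z‖ ≤ A := by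
    obtain ⟨A, hA⟩ := (isCompact_sphere (0 : ℂ) r).exists_bound_of_continuousOn hg
    exact ⟨A, hA⟩
  have hev : ∀ᶠ n in atTop, ∀ z ∈ sphere (0 : ℂ) r, ‖G n z‖ ≤ A + 1 := by
    have h1 := Metric.tendstoUniformlyOn_iff.1 h 1 one_pos
    filter_upwards [h1] with n hn z hz
    have h2 := hn z hz
    rw [dist_eq_norm] at h2
    have h3 : ‖G n z‖ ≤ ‖g z‖ + ‖g z - G n z‖ := by
      have h4 : G n z = g z - (g z - G n z) := by ring
      calc ‖G n z‖ = ‖g z - (g z - G n z)‖ := by rw [← h4]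
        _ ≤ ‖g z‖ + ‖g z - G n z‖ := norm_sub_le _ _
    have h5 := hA z hz
    linarith
  have hcm : Continuous fun θ : ℝ => circleMap (0 : ℂ) r θ := by fun_prop
  simp only [Real.circleAverage_def]
  refine Tendsto.const_smul ?_ _
  refine intervalIntegral.tendsto_integral_filter_of_dominated_convergence (fun _ => (A + 1) ^ 2) ?_ ?_ ?_ ?_
  · refine Eventually.of_forall fun n => Continuous.aestronglyMeasurable ?_
    exact ((hG n).comp_continuous hcm hmem).norm.pow 2
  · filter_upwards [hev] with n hn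
    refine Eventually.of_forall fun θ _ => ?_
    rw [Real.norm_of_nonneg (by positivity)]
    exact pow_le_pow_left₀ (norm_nonneg _) (hn _ (hmem θ)) 2
  · exact intervalIntegrable_const
  · refine Eventually.of_forall fun θ _ => ?_
    exact ((h.tendsto_at (hmem θ)).norm).pow 2

/-- the inequality for scalar functions -/
private lemma wir_scalar {f : ℂ → ℂ} {R r : ℝ} (hr : 0 < r) (hR : r < R) (hf : DifferentiableOn ℂ f (ball 0 R)) :
    Real.circleAverage (fun z => ‖f z - f 0‖ ^ 2) 0 r ≤ r ^ 2 * Real.circleAverage (fun z => ‖deriv f z‖ ^ 2) 0 r := by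
  obtain ⟨R₁, h1, h2⟩ := exists_between hR
  obtain ⟨R₂, h3, h4⟩ := exists_between h1
  have hR1 : 0 < R₁ := hr.trans h1
  have hR2 : 0 < R₂ := hr.trans h3
  lift R₁ to NNReal using hR1.le
  lift R₂ to NNReal using hR2.le
  have hps := (hf.mono (closedBall_subset_ball h2)).hasFPowerSeriesOnBall (c := 0) (R := R₁) (by exact_mod_cast hR1)
  obtain ⟨s, hs⟩ : ∃ s : FormalMultilinearSeries ℂ ℂ ℂ, s = cauchyPowerSeries f 0 R₁ := ⟨_, rfl⟩
  rw [← hs] at hps
  obtain ⟨p, hp⟩ : ∃ p : ℕ → Polynomial ℂ, ∀ n z, (p n).eval z = s.partialSum n z := by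
    refine ⟨fun n => ∑ j ∈ Finset.range n, Polynomial.C (s.coeff j) * Polynomial.X ^ j, fun n z => ?_⟩
    rw [Polynomial.eval_finsetSum]
    unfold FormalMultilinearSeries.partialSum
    refine Finset.sum_congr rfl fun j _ => ?_
    rw [FormalMultilinearSeries.apply_eq_pow_smul_coeff, Polynomial.eval_mul, Polynomial.eval_C, Polynomial.eval_pow,
      Polynomial.eval_X, smul_eq_mul, mul_comm]
  have hun : TendstoUniformlyOn (fun n z => (p n).eval z) f atTop (ball 0 R₂) := by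
    have h5 := hps.tendstoUniformlyOn (r' := R₂) (by exact_mod_cast h4)
    simp only [zero_add] at h5
    simp only [hp]
    exact h5
  have hsub : sphere (0 : ℂ) r ⊆ ball 0 R₂ := sphere_subset_closedBall.trans (closedBall_subset_ball h3)
  have hde : TendstoLocallyUniformlyOn (deriv ∘ fun n z => (p n).eval z) (deriv f) atTop (ball 0 R₂) :=
    hun.tendstoLocallyUniformlyOn.deriv (Eventually.of_forall fun n => (p n).differentiable.differentiableOn) isOpen_ball
  have hde2 : TendstoUniformlyOn (fun n z => (Polynomial.derivative (p n)).eval z) (deriv f) atTop (sphere 0 r) := by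
    have h5 := (tendstoLocallyUniformlyOn_iff_forall_isCompact isOpen_ball).1 hde _ hsub (isCompact_sphere _ _)
    refine h5.congr (Eventually.of_forall fun n z _ => ?_)
    exact Polynomial.deriv (p n)
  have hun2 : TendstoUniformlyOn (fun n z => (p n).eval z - (p n).eval 0) (fun z => f z - f 0) atTop (sphere 0 r) := by
    have h6 : TendstoUniformlyOn (fun n (_ : ℂ) => (p n).eval 0) (fun _ => f 0) atTop (sphere 0 r) := by
      rw [Metric.tendstoUniformlyOn_iff]
      intro ε hε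
      have h7 := Metric.tendstoUniformlyOn_iff.1 hun ε hε
      filter_upwards [h7] with n hn z _
      exact hn 0 (mem_ball_self hR2)
    exact (hun.mono hsub).sub h6
  have hl1 := wir_tendsto hr (fun n => ((p n).continuous.sub continuous_const).continuousOn) hun2
  have hl2 := wir_tendsto hr (fun n => (Polynomial.derivative (p n)).continuous.continuousOn) hde2
  exact le_of_tendsto_of_tendsto' hl1 (hl2.const_mul (r ^ 2)) fun n => wir_poly (p n)

theorem sq_mean {k : ℕ} {h : ℂ → Vd (k + 1)} {R r : ℝ} (hr : 0 < r) (hR : r < R) (hh : DifferentiableOn ℂ h (ball 0 R)) :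
    Real.circleAverage (fun z => ‖h z - h 0‖ ^ 2) 0 r ≤ (k + 1 : ℝ) * r ^ 2 * Real.circleAverage (fun z => ‖deriv h z‖ ^ 2) 0 r := by
  have hsub : sphere (0 : ℂ) r ⊆ ball 0 R := sphere_subset_closedBall.trans (closedBall_subset_ball hR)
  have hci : ∀ g : ℂ → ℝ, ContinuousOn g (ball 0 R) → CircleIntegrable g 0 r := fun g hg =>
    (hg.mono hsub).circleIntegrable hr.le
  have hhi : ∀ i, DifferentiableOn ℂ (fun z => h z i) (ball 0 R) := fun i z hz =>
    differentiableWithinAt_pi.1 (hh z hz) i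
  have hder : ∀ z ∈ ball (0 : ℂ) R, ∀ i, deriv (fun z => h z i) z = deriv h z i := by
    intro z hz i
    have h1 : HasDerivAt h (deriv h z) z := (hh.differentiableAt (isOpen_ball.mem_nhds hz)).hasDerivAt
    exact (hasDerivAt_pi.1 h1 i).deriv
  have hdc : ContinuousOn (deriv h) (ball 0 R) := (hh.deriv isOpen_ball).continuousOn
  have hdi : ∀ i, ContinuousOn (deriv fun z => h z i) (ball 0 R) := fun i => ((hhi i).deriv isOpen_ball).continuousOn
  have h1 : Real.circleAverage (fun z => ‖h z - h 0‖ ^ 2) 0 r ≤ Real.circleAverage (fun z => ∑ i, ‖h z i - h 0 i‖ ^ 2) 0 r := by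
    refine Real.circleAverage_mono (hci _ ((hh.continuousOn.sub continuousOn_const).norm.pow 2))
      (hci _ (continuousOn_finsetSum _ fun i _ => ((hhi i).continuousOn.sub continuousOn_const).norm.pow 2)) fun z _ => ?_
    have h2 : ‖h z - h 0‖ ≤ Real.sqrt (∑ i, ‖h z i - h 0 i‖ ^ 2) := by
      rw [pi_norm_le_iff_of_nonneg (Real.sqrt_nonneg _)]
      intro i
      refine Real.le_sqrt_of_sq_le ?_
      exact Finset.single_le_sum (f := fun i => ‖h z i - h 0 i‖ ^ 2) (fun j _ => by positivity) (Finset.mem_univ i)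
    calc ‖h z - h 0‖ ^ 2 ≤ Real.sqrt (∑ i, ‖h z i - h 0 i‖ ^ 2) ^ 2 := pow_le_pow_left₀ (norm_nonneg _) h2 2
      _ = ∑ i, ‖h z i - h 0 i‖ ^ 2 := Real.sq_sqrt (by positivity)
  have h3 : Real.circleAverage (fun z => ∑ i, ‖h z i - h 0 i‖ ^ 2) 0 r = ∑ i, Real.circleAverage (fun z => ‖h z i - h 0 i‖ ^ 2) 0 r := by
    refine Real.circleAverage_fun_sum fun i _ => ?_
    exact hci _ (((hhi i).continuousOn.sub continuousOn_const).norm.pow 2)
  have h4 : ∀ i ∈ (Finset.univ : Finset (Fin (k + 1))), Real.circleAverage (fun z => ‖h z i - h 0 i‖ ^ 2) 0 r ≤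
      r ^ 2 * Real.circleAverage (fun z => ‖deriv h z‖ ^ 2) 0 r := by
    intro i _
    refine (wir_scalar hr hR (hhi i)).trans ?_
    refine mul_le_mul_of_nonneg_left ?_ (by positivity)
    refine Real.circleAverage_mono (hci _ ((hdi i).norm.pow 2)) (hci _ (hdc.norm.pow 2)) fun z hz => ?_
    rw [abs_of_pos hr] at hz
    rw [hder z (hsub hz) i]
    exact pow_le_pow_left₀ (norm_nonneg _) (norm_le_pi_norm _ i) 2
  have h5 := Finset.sum_le_card_nsmul _ _ _ h4
  rw [nsmul_eq_mul, Finset.card_univ, Fintype.card_fin] at h5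
  push_cast at h5
  rw [h3] at h1
  linarith

theorem cauchy_sub {E : Type*} [NormedAddCommGroup E] [NormedSpace ℂ E] [CompleteSpace E] {g : ℂ → E} {R ρ : ℝ} (hρ : 0 < ρ) (hR : ρ < R)
    (hg : DifferentiableOn ℂ g (ball 0 R)) {z : ℂ} (hz : ‖z‖ ≤ ρ / 2) : ‖g z - g 0‖ ≤ 2 * ‖z‖ / ρ * Real.circleAverage (fun w => ‖g w‖) 0 ρ := by
  have hsub : sphere (0 : ℂ) ρ ⊆ ball 0 R := sphere_subset_closedBall.trans (closedBall_subset_ball hR)
  have hmem : ∀ θ : ℝ, circleMap 0 ρ θ ∈ sphere (0 : ℂ) ρ := fun θ => circleMap_mem_sphere 0 hρ.le θ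
  have hdcl : DiffContOnCl ℂ g (ball 0 |ρ|) := by
    rw [abs_of_pos hρ]
    refine (hg.mono ?_).diffContOnCl
    rw [closure_ball _ hρ.ne']
    exact closedBall_subset_ball hR
  have hzρ : z ∈ ball (0 : ℂ) |ρ| := by
    rw [abs_of_pos hρ, mem_ball_zero_iff]
    linarith
  have h1 := hdcl.circleAverage_smul_div hzρ
  have h2 := hdcl.circleAverage
  have hne : ∀ w ∈ sphere (0 : ℂ) ρ, w - z ≠ 0 := by
    intro w hw h
    rw [mem_sphere_zero_iff_norm] at hw
    have h3 : w = z := sub_eq_zero.1 h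
    rw [h3] at hw
    linarith
  have hgc : ContinuousOn g (sphere 0 ρ) := hg.continuousOn.mono hsub
  have hkc : ContinuousOn (fun w : ℂ => (w - 0) / (w - z)) (sphere 0 ρ) :=
    (continuousOn_id.sub continuousOn_const).div (continuousOn_id.sub continuousOn_const) hne
  have h3 : g z - g 0 = Real.circleAverage (fun w => (z / (w - z)) • g w) 0 ρ := by
    have hc1 : CircleIntegrable (fun w : ℂ => ((w - 0) / (w - z)) • g w) 0 ρ := ContinuousOn.circleIntegrable hρ.le (hkc.smul hgc)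
    have hc2 : CircleIntegrable (fun w : ℂ => g w) 0 ρ := hgc.circleIntegrable hρ.le
    rw [← h1, ← h2, ← Real.circleAverage_fun_sub hc1 hc2]
    refine Real.circleAverage_congr_sphere fun w hw => ?_
    rw [abs_of_pos hρ] at hw
    have h4 := hne w hw
    have h5 : (w - 0) / (w - z) = z / (w - z) + 1 := by
      field_simp
      ring
    show ((w - 0) / (w - z)) • g w - g w = (z / (w - z)) • g w
    rw [h5, add_smul, one_smul, add_sub_cancel_right]
  have hkc2 : ContinuousOn (fun w : ℂ => (z / (w - z)) • g w) (sphere 0 ρ) :=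
    (continuousOn_const.div (continuousOn_id.sub continuousOn_const) hne).smul hgc
  have h6 : ‖Real.circleAverage (fun w => (z / (w - z)) • g w) 0 ρ‖ ≤ Real.circleAverage (fun w => ‖(z / (w - z)) • g w‖) 0 ρ := by
    rw [Real.circleAverage_def, Real.circleAverage_def, norm_smul, smul_eq_mul, Real.norm_of_nonneg (by positivity)]
    refine mul_le_mul_of_nonneg_left ?_ (by positivity)
    exact intervalIntegral.norm_integral_le_integral_norm (by positivity)
  rw [h3]
  refine h6.trans ?_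
  rw [← smul_eq_mul, ← Real.circleAverage_fun_smul]
  have hc3 : ContinuousOn (fun w : ℂ => (2 * ‖z‖ / ρ) • ‖g w‖) (sphere 0 ρ) := hgc.norm.const_smul (2 * ‖z‖ / ρ)
  refine Real.circleAverage_mono (ContinuousOn.circleIntegrable hρ.le hkc2.norm)
    (ContinuousOn.circleIntegrable hρ.le hc3) fun w hw => ?_
  rw [abs_of_pos hρ, mem_sphere_zero_iff_norm] at hw
  rw [norm_smul, norm_div, smul_eq_mul]
  refine mul_le_mul_of_nonneg_right ?_ (norm_nonneg _)
  have h7 : ρ / 2 ≤ ‖w - z‖ := by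
    have h8 := norm_sub_norm_le w z
    rw [hw] at h8
    linarith
  rw [div_le_div_iff₀ (by linarith) hρ]
  have h9 := norm_nonneg z
  nlinarith

end Pool.Agent.G3

end

section

/-!
# BPL Aff: open parts which are proper over an affine variety

`AffProper X K Φ`: the functions `Φ : K → ℂ^M` (of degree `0`) are holomorphic along curves and tend to infinity at the points of `X \ K`.
-/

set_option autoImplicit false

namespace Pool.Agent.H36.BPL

open Filter Topology Metric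
open Pool.Agent.H36.BP (EN Curve)

/-- `Φ` is a proper map on the open part `K` of the closed cone `X` -/
structure AffProper {V : Type} [NormedAddCommGroup V] [NormedSpace ℂ V] {M : ℕ} (X K : Set V) (Φ : V → Fin M → ℂ) : Prop where
  smul : ∀ x ∈ K, ∀ c : ℂ, c ≠ 0 → Φ (c • x) = Φ x
  cont : ContinuousOn Φ K
  hol : ∀ (F : ℂ → V) (z₀ : ℂ), AnalyticAt ℂ F z₀ → (∀ᶠ z in 𝓝 z₀, F z ∈ K) → AnalyticAt ℂ (fun z => Φ (F z)) z₀
  proper : ∀ x ∈ X, x ∉ K → ∀ R : ℝ, ∀ᶠ y in 𝓝 x, y ∈ K → R < ‖Φ y‖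
  iso : ∀ (F : ℂ → V) (z₀ : ℂ), AnalyticAt ℂ F z₀ → (∀ᶠ z in 𝓝 z₀, F z ∈ X) → (∀ᶠ z in 𝓝 z₀, F z ∉ K) ∨ ∀ᶠ z in 𝓝[≠] z₀, F z ∈ K

variable {N : ℕ}

theorem hur_of_affProper {X K : Set (EN N)} {M : ℕ} {Φ : EN N → Fin M → ℂ} (hX : ∀ x ∈ closure K, x ≠ 0 → x ∈ X)
    (hsm : ∀ x ∈ K, ∀ c : ℂ, c ≠ 0 → c • x ∈ K) (h : AffProper X K Φ) :
    ∀ (l : Filter ℕ), l.NeBot → ∀ (F : ℕ → ℂ → EN N) (H : ℂ → EN N) (k : ℕ) (z₀ : ℂ) (s : ℝ), 0 < s →
    (∀ᶠ n in l, Curve K (Metric.ball z₀ s) (F n)) → DifferentiableOn ℂ H (Metric.ball z₀ s) →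
    TendstoLocallyUniformlyOn F (fun z => (z - z₀) ^ k • H z) l (Metric.ball z₀ s) → H z₀ ≠ 0 → H z₀ ∉ K → ∀ᶠ z in 𝓝 z₀, H z ∉ K := by
  intro l hl F H k z₀ s hs hF hH hlim h0 hK
  have hHa : AnalyticAt ℂ H z₀ := hH.analyticAt (isOpen_ball.mem_nhds (mem_ball_self hs))
  have hsmK : ∀ (x : EN N) (c : ℂ), c ≠ 0 → (c • x ∈ K ↔ x ∈ K) := by
    intro x c hc
    constructor
    · intro h1
      have h2 := hsm _ h1 c⁻¹ (inv_ne_zero hc)
      rwa [smul_smul, inv_mul_cancel₀ hc, one_smul] at h2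
    · intro h1
      exact hsm _ h1 c hc
  -- near `z₀` the curve `H` is in `X`
  have hcl : ∀ z ∈ ball z₀ s, z ≠ z₀ → (z - z₀) ^ k • H z ∈ closure K := by
    intro z hz _
    have h1 : Tendsto (fun n => F n z) l (𝓝 ((z - z₀) ^ k • H z)) := hlim.tendsto_at hz
    refine mem_closure_of_tendsto h1 ?_
    filter_upwards [hF] with n hn
    exact hn.2 z hz
  have hne : ∀ᶠ z in 𝓝 z₀, H z ≠ 0 := hHa.continuousAt.eventually_ne h0
  have hclK : ∀ (x : EN N) (c : ℂ), c ≠ 0 → c • x ∈ closure K → x ∈ closure K := by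
    intro x c hc hx
    have h1 : Continuous (fun y : EN N => c⁻¹ • y) := continuous_const_smul _
    have h2 := map_mem_closure h1 hx (fun y hy => hsm y hy c⁻¹ (inv_ne_zero hc))
    simpa [smul_smul, inv_mul_cancel₀ hc] using h2
  have hclH : ∀ᶠ z in 𝓝 z₀, H z ∈ closure K := by
    have h1 : ∀ᶠ z in 𝓝[≠] z₀, H z ∈ closure K := by
      rw [eventually_nhdsWithin_iff]
      filter_upwards [isOpen_ball.mem_nhds (mem_ball_self hs)] with z hz hzne
      exact hclK _ _ (pow_ne_zero k (sub_ne_zero.mpr hzne)) (hcl z hz hzne)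
    have h2 : H z₀ ∈ closure K := by
      have h3 : Tendsto H (𝓝[≠] z₀) (𝓝 (H z₀)) := hHa.continuousAt.tendsto.mono_left nhdsWithin_le_nhds
      exact isClosed_closure.mem_of_tendsto h3 h1
    have h4 := eventually_nhdsWithin_iff.mp h1
    filter_upwards [h4] with z hz
    by_cases hz0 : z = z₀
    · rw [hz0]; exact h2
    · exact hz hz0
  have hHX : ∀ᶠ z in 𝓝 z₀, H z ∈ X := by
    filter_upwards [hclH, hne] with z h1 h2
    exact hX _ h1 h2
  rcases h.iso H z₀ hHa hHX with h1 | h1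
  · exact h1
  exfalso
  -- a small closed disc
  have hball : ∀ᶠ z in 𝓝 z₀, z ∈ ball z₀ s := isOpen_ball.mem_nhds (mem_ball_self hs)
  obtain ⟨r₀, hr₀, hr₀K⟩ := Metric.eventually_nhds_iff_ball.mp ((eventually_nhdsWithin_iff.mp h1).and hball)
  set r : ℝ := r₀ / 2 with hr
  have hr0 : 0 < r := by rw [hr]; positivity
  have hrlt : r < r₀ := by rw [hr]; linarith
  have hcb : closedBall z₀ r ⊆ ball z₀ r₀ := closedBall_subset_ball hrlt
  have hKr : ∀ z ∈ closedBall z₀ r, z ≠ z₀ → H z ∈ K := fun z hz hne => (hr₀K z (hcb hz)).1 hne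
  have hsr : closedBall z₀ r ⊆ ball z₀ s := fun z hz => (hr₀K z (hcb hz)).2
  -- a uniform bound on the circle
  have hpt : ∀ w ∈ sphere z₀ r, ∃ t ∈ 𝓝 w, ∃ C : ℝ, ∀ᶠ n in l, ∀ z ∈ t, ‖Φ (F n z)‖ ≤ C := by
    intro w hw
    have hwcb : w ∈ closedBall z₀ r := sphere_subset_closedBall hw
    have hwne : w ≠ z₀ := by
      rintro rfl
      rw [mem_sphere, dist_self] at hw
      linarith
    have hws : w ∈ ball z₀ s := hsr hwcb
    have hxK : (w - z₀) ^ k • H w ∈ K := hsm _ (hKr w hwcb hwne) _ (pow_ne_zero k (sub_ne_zero.mpr hwne))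
    have hc : ∀ᶠ y in 𝓝 ((w - z₀) ^ k • H w), y ∈ K → ‖Φ y‖ < ‖Φ ((w - z₀) ^ k • H w)‖ + 1 := by
      have h2 := (h.cont _ hxK).norm.eventually_lt_const (show ‖Φ ((w - z₀) ^ k • H w)‖ < ‖Φ ((w - z₀) ^ k • H w)‖ + 1 by linarith)
      exact eventually_nhdsWithin_iff.mp h2
    obtain ⟨δ, hδ, hδc⟩ := Metric.eventually_nhds_iff.mp hc
    have hGc : ContinuousAt (fun z => (z - z₀) ^ k • H z) w :=
      (((continuous_id.sub continuous_const).pow k).continuousAt).smul
        ((hH.differentiableAt (isOpen_ball.mem_nhds hws)).continuousAt)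
    have hG : ∀ᶠ z in 𝓝 w, dist ((z - z₀) ^ k • H z) ((w - z₀) ^ k • H w) < δ / 2 :=
      Metric.tendsto_nhds.mp hGc (δ / 2) (by positivity)
    obtain ⟨t, ht, htn⟩ := (Metric.tendstoLocallyUniformlyOn_iff.mp hlim) (δ / 2) (by positivity) w hws
    rw [isOpen_ball.nhdsWithin_eq hws] at ht
    refine ⟨t ∩ ({z | dist ((z - z₀) ^ k • H z) ((w - z₀) ^ k • H w) < δ / 2} ∩ ball z₀ s),
      inter_mem ht (inter_mem hG (isOpen_ball.mem_nhds hws)), ‖Φ ((w - z₀) ^ k • H w)‖ + 1, ?_⟩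
    filter_upwards [htn, hF] with n hn1 hn2
    rintro z ⟨hz1, hz2, hz3⟩
    have h3 : dist (F n z) ((w - z₀) ^ k • H w) < δ := by
      have h4 := hn1 z hz1
      rw [dist_comm] at h4
      have h5 : dist ((z - z₀) ^ k • H z) ((w - z₀) ^ k • H w) < δ / 2 := hz2
      calc dist (F n z) ((w - z₀) ^ k • H w) ≤ dist (F n z) ((z - z₀) ^ k • H z) + dist ((z - z₀) ^ k • H z) ((w - z₀) ^ k • H w) :=
            dist_triangle _ _ _
        _ < δ := by linarith
    exact (hδc h3 (hn2.2 z hz3)).le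
  obtain ⟨C, hC⟩ : ∃ C : ℝ, ∀ᶠ n in l, ∀ z ∈ sphere z₀ r, ‖Φ (F n z)‖ ≤ C := by
    refine (isCompact_sphere z₀ r).induction_on (p := fun S => ∃ C : ℝ, ∀ᶠ n in l, ∀ z ∈ S, ‖Φ (F n z)‖ ≤ C) ?_ ?_ ?_ ?_
    · exact ⟨0, Filter.Eventually.of_forall fun n z hz => absurd hz (Set.notMem_empty z)⟩
    · rintro S T hST ⟨C, hC⟩
      exact ⟨C, hC.mono fun n hn z hz => hn z (hST hz)⟩
    · rintro S T ⟨C, hC⟩ ⟨C', hC'⟩
      refine ⟨max C C', ?_⟩
      filter_upwards [hC, hC'] with n h1 h2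
      rintro z (hz | hz)
      · exact (h1 z hz).trans (le_max_left _ _)
      · exact (h2 z hz).trans (le_max_right _ _)
    · intro w hw
      obtain ⟨t, ht, C, hC⟩ := hpt w hw
      exact ⟨t, mem_nhdsWithin_of_mem_nhds ht, C, hC⟩
  -- the bound inside
  have hin : ∀ᶠ n in l, ∀ z ∈ ball z₀ r, ‖Φ (F n z)‖ ≤ C := by
    filter_upwards [hC, hF] with n h1 h2
    intro z hz
    have hd : DifferentiableOn ℂ (fun z => Φ (F n z)) (ball z₀ s) := by
      intro w hw
      have hFa : AnalyticAt ℂ (F n) w := h2.1.analyticAt (isOpen_ball.mem_nhds hw)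
      have hFK : ∀ᶠ z in 𝓝 w, F n z ∈ K := by
        filter_upwards [isOpen_ball.mem_nhds hw] with z hz
        exact h2.2 z hz
      exact (h.hol _ w hFa hFK).differentiableAt.differentiableWithinAt
    have hdc : DiffContOnCl ℂ (fun z => Φ (F n z)) (ball z₀ r) := by
      refine DifferentiableOn.diffContOnCl ?_
      rw [closure_ball z₀ hr0.ne']
      exact hd.mono hsr
    refine Complex.norm_le_of_forall_mem_frontier_norm_le isBounded_ball hdc (fun w hw => ?_) (subset_closure hz)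
    rw [frontier_ball z₀ hr0.ne'] at hw
    exact h1 w hw
  -- the bound for the limit
  have hlimC : ∀ z ∈ ball z₀ r, z ≠ z₀ → ‖Φ (H z)‖ ≤ C := by
    intro z hz hzne
    have hzs : z ∈ ball z₀ s := hsr (ball_subset_closedBall hz)
    have hzK : H z ∈ K := hKr z (ball_subset_closedBall hz) hzne
    have hcne : (z - z₀) ^ k ≠ 0 := pow_ne_zero k (sub_ne_zero.mpr hzne)
    have hxK : (z - z₀) ^ k • H z ∈ K := hsm _ hzK _ hcne
    have h2 : Tendsto (fun n => F n z) l (𝓝[K] ((z - z₀) ^ k • H z)) := by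
      refine tendsto_nhdsWithin_iff.mpr ⟨hlim.tendsto_at hzs, ?_⟩
      filter_upwards [hF] with n hn
      exact hn.2 z hzs
    have h3 : Tendsto (fun n => ‖Φ (F n z)‖) l (𝓝 ‖Φ ((z - z₀) ^ k • H z)‖) := ((h.cont _ hxK).tendsto.comp h2).norm
    rw [h.smul _ hzK _ hcne] at h3
    refine le_of_tendsto h3 ?_
    filter_upwards [hin] with n hn
    exact hn z hz
  have hprop := h.proper (H z₀) (hHX.self_of_nhds) hK C
  have h4 : ∀ᶠ z in 𝓝[≠] z₀, H z ∈ K → C < ‖Φ (H z)‖ := (hHa.continuousAt.eventually hprop).filter_mono nhdsWithin_le_nhds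
  have h5 : ∀ᶠ z in 𝓝[≠] z₀, z ∈ ball z₀ r := (show ∀ᶠ z in 𝓝 z₀, z ∈ ball z₀ r from ball_mem_nhds z₀ hr0).filter_mono nhdsWithin_le_nhds
  obtain ⟨z, hz1, hz2, hz3, hz4⟩ := ((h4.and (h1.and h5)).and self_mem_nhdsWithin).exists.imp fun z hz => (⟨hz.1.1, hz.1.2.1, hz.1.2.2, hz.2⟩ : (H z ∈ K → C < ‖Φ (H z)‖) ∧ H z ∈ K ∧ z ∈ ball z₀ r ∧ z ∈ ({z₀} : Set ℂ)ᶜ)
  have h6 := hz1 hz2
  have h7 := hlimC z hz3 hz4
  linarith

end Pool.Agent.H36.BPL

end

section

/-!
# TG SmDefs: meromorphic sections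

`Mer X Λ u F`: `F` is an entire vector on `ℂ^(k+1)`, not identically `0`, with `u [F y] = y` where `F y ≠ 0`.  `SameMap F G`: the same map to the
projective space.
-/

set_option autoImplicit false

open Topology Filter Metric

namespace Pool.Agent.TG

open Pool.Agent.H36.BP (EN)
open Pool.Agent.AD (Vd)

variable {N k : ℕ}

/-- the meromorphic sections of `u` -/
structure Mer (X : Set (EN N)) (Λ : AddSubgroup (Vd (k + 1))) (u : EN N → Vd (k + 1)) (F : Vd (k + 1) → EN N) : Prop where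
  an : ∀ y, AnalyticAt ℂ F y
  ne : ∃ y, F y ≠ 0
  mem : ∀ y, F y ≠ 0 → F y ∈ X ∧ u (F y) - y ∈ Λ

/-- the two vectors of functions define the same map to the projective space -/
def SameMap (F G : Vd (k + 1) → EN N) : Prop := ∀ y, ∀ i j, F y i * G y j = F y j * G y i

end Pool.Agent.TG

end
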