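import Pool.Agent.H94.G4T.M05
import Pool.Agent.H94.G4T.M27
import Pool.Agent.H94.G4T.TG.Defs
import Pool.Agent.H94.G4T.TG.Prm

/-! The parts of this file: H36.BP.Resc, H36.BP.Char, TG.Cn, TG.XCcl, TG.IsoA. -/

section

/-!
# BP Resc: rescaling

Given `L = 4 (n + 1)` take `F` with `mt G F 0 > L`.  On `closedBall 0 (1/2)` the function `mt G F z (1/2 - |z|)` is upper semicontinuous, so it has a maximum `m ≥ mt G F 0/2 > 0`
at some `z₀`, `|z₀| < 1/2`.  `λ = 1/mt G F z₀`, `F_n ζ = F (z₀ + λ ζ)`.  For `|ζ| ≤ m/2`: `|z| ≤ |z₀| + (1/2 - |z₀|)/2`, so `1/2 - |z| ≥ (1/2 - |z₀|)/2 > 0` and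
`mt G F z ≤ m/(1/2 - |z|) ≤ 2 mt G F z₀`; `mt_comp`.  `m/2 ≥ L/4 = n + 1`.
-/

set_option autoImplicit false

namespace Pool.Agent.H36.BP

open Filter Topology Metric

variable {N : ℕ}

variable {K B : Set (EN N)} {G : EN N → EN N → ℝ} {ρ : EN N → ℝ} {M : ℕ} {c₀ C : ℝ}

/-- product of a nonnegative upper semicontinuous function and a nonnegative continuous function -/
private theorem resc_usc_mul {α : Type*} [TopologicalSpace α] {S : Set α} {u k : α → ℝ} (hu : UpperSemicontinuousOn u S)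
    (hk : ContinuousOn k S) (hu0 : ∀ x ∈ S, 0 ≤ u x) (hk0 : ∀ x ∈ S, 0 ≤ k x) :
    UpperSemicontinuousOn (fun x => u x * k x) S := by
  intro x hx y hy
  have ht : Tendsto (fun ε : ℝ => (u x + ε) * (k x + ε)) (𝓝[>] 0) (𝓝 ((u x + 0) * (k x + 0))) := by
    apply tendsto_nhdsWithin_of_tendsto_nhds
    have hc : Continuous (fun ε : ℝ => (u x + ε) * (k x + ε)) := by fun_prop
    exact hc.tendsto 0
  have hy' : (u x + 0) * (k x + 0) < y := by simpa using hy
  obtain ⟨ε, hε1, hε2⟩ := ((ht.eventually_lt_const hy').and self_mem_nhdsWithin).exists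
  have hε : (0 : ℝ) < ε := hε2
  have h1 : ∀ᶠ x' in 𝓝[S] x, u x' < u x + ε := hu x hx _ (by linarith)
  have h2 : ∀ᶠ x' in 𝓝[S] x, k x' < k x + ε := (hk x hx).eventually_lt_const (by linarith)
  filter_upwards [h1, h2, self_mem_nhdsWithin] with x' h1' h2' hx'
  refine lt_of_le_of_lt ?_ hε1
  exact mul_le_mul h1'.le h2'.le (hk0 x' hx') (by linarith [hu0 x hx])

theorem rescale (hM : MetricData K B G ρ M c₀ C) (hunb : ∀ L : ℝ, ∃ F, Curve K (ball 0 1) F ∧ L < mt G F 0) (n : ℕ) :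
    ∃ F, Curve K (ball 0 (n + 1)) F ∧ mt G F 0 = 1 ∧ ∀ z ∈ ball (0 : ℂ) (n + 1), mt G F z ≤ 2 := by
  obtain ⟨F, hF, hL⟩ := hunb (4 * ((n : ℝ) + 1))
  have hn : (0 : ℝ) ≤ n := Nat.cast_nonneg n
  set u : ℂ → ℝ := fun z => mt G F z * (1 / 2 - ‖z‖) with hu
  have hsub : closedBall (0 : ℂ) (1 / 2) ⊆ ball 0 1 := closedBall_subset_ball (by norm_num)
  have husc : UpperSemicontinuousOn u (closedBall (0 : ℂ) (1 / 2)) := by
    refine resc_usc_mul ((mt_usc hM isOpen_ball hF).mono hsub) (by fun_prop) ?_ ?_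
    · intro x hx
      exact mt_nonneg hM (hF.2 x (hsub hx))
    · intro x hx
      have : ‖x‖ ≤ 1 / 2 := by simpa using hx
      linarith
  obtain ⟨z₀, hz₀, hmax⟩ := husc.exists_isMaxOn ⟨0, by simp⟩ (isCompact_closedBall _ _)
  have hz₀n : ‖z₀‖ ≤ 1 / 2 := by simpa using hz₀
  have h0 : u 0 ≤ u z₀ := hmax (by simp : (0 : ℂ) ∈ closedBall (0 : ℂ) (1 / 2))
  have hu0 : u 0 = mt G F 0 / 2 := by simp only [hu, norm_zero]; ring
  have hm : 2 * ((n : ℝ) + 1) < u z₀ := by rw [hu0] at h0; linarith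
  have hz₀K : F z₀ ∈ K := hF.2 z₀ (hsub hz₀)
  have hmt0 : 0 ≤ mt G F z₀ := mt_nonneg hM hz₀K
  set d : ℝ := 1 / 2 - ‖z₀‖ with hd
  have hd0 : 0 ≤ d := by rw [hd]; linarith
  have huz : u z₀ = mt G F z₀ * d := rfl
  have hpos : 0 < mt G F z₀ * d := by rw [← huz]; linarith
  have hmtpos : 0 < mt G F z₀ := by
    rcases hmt0.lt_or_eq with h | h
    · exact h
    · rw [← h] at hpos; simp at hpos
  have hdpos : 0 < d := by
    rcases hd0.lt_or_eq with h | h
    · exact h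
    · rw [← h] at hpos; simp at hpos
  set a : ℝ := mt G F z₀ with ha
  set φ : ℂ → ℂ := fun ζ => z₀ + ((a⁻¹ : ℝ) : ℂ) * ζ with hφ
  have hφd : ∀ ζ, HasDerivAt φ ((a⁻¹ : ℝ) : ℂ) ζ := by
    intro ζ
    have := ((hasDerivAt_id ζ).const_mul ((a⁻¹ : ℝ) : ℂ)).const_add z₀
    simpa [hφ] using this
  have hkey : ∀ ζ ∈ ball (0 : ℂ) (n + 1), ‖φ ζ‖ ≤ 1 / 2 - d / 2 := by
    intro ζ hζ
    have hζn : ‖ζ‖ < n + 1 := by simpa using hζ
    have h1 : ‖φ ζ‖ ≤ ‖z₀‖ + a⁻¹ * ‖ζ‖ := by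
      calc ‖φ ζ‖ ≤ ‖z₀‖ + ‖((a⁻¹ : ℝ) : ℂ) * ζ‖ := norm_add_le _ _
        _ = ‖z₀‖ + a⁻¹ * ‖ζ‖ := by
          rw [norm_mul, Complex.norm_real, Real.norm_of_nonneg (by positivity)]
    have h2 : a⁻¹ * ‖ζ‖ ≤ d / 2 := by
      rw [inv_mul_le_iff₀ hmtpos]
      rw [huz] at hm
      linarith
    have h3 : ‖z₀‖ = 1 / 2 - d := by rw [hd]; ring
    linarith
  have hball : ∀ ζ ∈ ball (0 : ℂ) (n + 1), φ ζ ∈ closedBall (0 : ℂ) (1 / 2) := by
    intro ζ hζ
    have := hkey ζ hζ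
    rw [mem_closedBall_zero_iff]
    linarith
  have hdiff : ∀ ζ ∈ ball (0 : ℂ) (n + 1), DifferentiableAt ℂ F (φ ζ) := fun ζ hζ =>
    (hF.1 _ (hsub (hball ζ hζ))).differentiableAt (isOpen_ball.mem_nhds (hsub (hball ζ hζ)))
  have hmt : ∀ ζ ∈ ball (0 : ℂ) (n + 1), mt G (fun ζ => F (φ ζ)) ζ = a⁻¹ * mt G F (φ ζ) := by
    intro ζ hζ
    rw [mt_comp hM (hdiff ζ hζ) (hφd ζ).differentiableAt (hF.2 _ (hsub (hball ζ hζ))), (hφd ζ).deriv,
      Complex.norm_real, Real.norm_of_nonneg (by positivity)]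
  refine ⟨fun ζ => F (φ ζ), ⟨?_, ?_⟩, ?_, ?_⟩
  · intro ζ hζ
    exact ((hdiff ζ hζ).comp ζ (hφd ζ).differentiableAt).differentiableWithinAt
  · intro ζ hζ
    exact hF.2 _ (hsub (hball ζ hζ))
  · rw [hmt 0 (mem_ball_self (by positivity))]
    have : φ 0 = z₀ := by simp [hφ]
    rw [this, ← ha]
    exact inv_mul_cancel₀ hmtpos.ne'
  · intro ζ hζ
    rw [hmt ζ hζ]
    have h1 : u (φ ζ) ≤ u z₀ := hmax (hball ζ hζ)
    have h2 := hkey ζ hζ
    have h3 : mt G F (φ ζ) * (1 / 2 - ‖φ ζ‖) ≤ a * d := h1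
    have h4 : 0 ≤ mt G F (φ ζ) := mt_nonneg hM (hF.2 _ (hsub (hball ζ hζ)))
    have h5 : mt G F (φ ζ) * (d / 2) ≤ a * d :=
      le_trans (mul_le_mul_of_nonneg_left (by linarith) h4) h3
    have h6 : mt G F (φ ζ) ≤ 2 * a := by
      by_contra hc
      push Not at hc
      have : 2 * a * (d / 2) < mt G F (φ ζ) * (d / 2) := mul_lt_mul_of_pos_right hc (by linarith)
      linarith
    rw [inv_mul_le_iff₀ hmtpos]
    linarith

end Pool.Agent.H36.BP

end

section

/-!
# BP Char: bounded characteristic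

`g₁` entire with `|Re g₁ - c₀ log|F|| ≤ 1` on `|z| = R` (`circle_approx`).  (1) `|F exp(-g₁/c₀)| ≤ e^(1/c₀)` on the circle, hence on the disc (maximum modulus for vector valued
functions, `Complex.norm_le_of_forall_mem_frontier_norm_le`).  (2) `u = mt G F |F|^(-c₀) |exp g₁| exp((4C+1)|z|²)` is upper semicontinuous on the closed disc, `Sub` exponent
`-C (mt)² + 4C + 1 ≥ 1 > 0` where `u > 0` (`sub`, `of_holo`, `exp_sq` with `t = z`), so `u(0) ≤ max over the circle ≤ 2 exp((4C+1)R²) e` (`max_principle`); `u(0) = |F 0|^(-c₀)|exp g₁(0)|`.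
`g = -g₁/c₀ - 1/c₀`: `|exp g F| ≤ 1` and `|exp(g 0) F 0| = (|F 0|^(-c₀)|exp g₁ 0|)^(-1/c₀) e^(-1/c₀) ≥ c`.
-/

set_option autoImplicit false

namespace Pool.Agent.H36.BP

open Filter Topology Metric

variable {N : ℕ}

variable {K B : Set (EN N)} {G : EN N → EN N → ℝ} {ρ : EN N → ℝ} {M : ℕ} {c₀ C : ℝ}

private theorem Char_usc {S : Set ℂ} {f h : ℂ → ℝ} (hf : UpperSemicontinuousOn f S)
    (hh : ContinuousOn h S) (hpos : ∀ z ∈ S, 0 < h z) :
    UpperSemicontinuousOn (fun z => f z * h z) S := by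
  intro x hx y hy
  have hx0 := hpos x hx
  have h1 : f x < y / h x := (lt_div_iff₀ hx0).2 hy
  obtain ⟨a, ha1, ha2⟩ := exists_between h1
  have h2 : a * h x < y := (lt_div_iff₀ hx0).1 ha2
  have h3 : ∀ᶠ z in 𝓝[S] x, a * h z < y :=
    ((continuousWithinAt_const.mul (hh x hx)).tendsto).eventually (gt_mem_nhds h2)
  filter_upwards [hf x hx a ha1, h3, self_mem_nhdsWithin] with z hz1 hz2 hz3
  exact (mul_lt_mul_of_pos_right hz1 (hpos z hz3)).trans hz2

/-- the lower bound with the explicit constant -/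
theorem char_boundE (hM : MetricData K B G ρ M c₀ C) {R : ℝ} (hR : 0 < R) : ∀ F, Curve K (ball 0 (R + 1)) F →
    mt G F 0 = 1 → (∀ z ∈ ball (0 : ℂ) (R + 1), mt G F z ≤ 2) → ∃ g : ℂ → ℂ, Differentiable ℂ g ∧
      (∀ z ∈ ball (0 : ℂ) R, ‖Complex.exp (g z) • F z‖ ≤ 1) ∧
      Real.exp (-(1 + Real.log (2 * Real.exp 1 * Real.exp ((4 * C + 1) * R ^ 2))) / c₀) ≤ ‖Complex.exp (g 0) • F 0‖ := by
  have hc := hM.c₀_pos
  have hC := hM.C_nonneg
  set A : ℝ := 2 * Real.exp 1 * Real.exp ((4 * C + 1) * R ^ 2) with hA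
  have hA0 : 0 < A := mul_pos (mul_pos two_pos (Real.exp_pos _)) (Real.exp_pos _)
  refine fun F hF h0 h2 => ?_
  have hsub : closedBall (0 : ℂ) R ⊆ ball (0 : ℂ) (R + 1) := closedBall_subset_ball (by linarith)
  have hne : ∀ z ∈ ball (0 : ℂ) (R + 1), 0 < ‖F z‖ := fun z hz =>
    norm_pos_iff.2 (hM.ne _ (hF.2 z hz))
  have hcont : ContinuousOn F (ball (0 : ℂ) (R + 1)) := hF.1.continuousOn
  have hsph : sphere (0 : ℂ) R ⊆ ball (0 : ℂ) (R + 1) := sphere_subset_closedBall.trans hsub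
  obtain ⟨g, hg, hgφ⟩ := circle_approx hR (fun z => c₀ * Real.log ‖F z‖)
    (continuousOn_const.mul ((hcont.mono hsph).norm.log fun z hz => (hne z (hsph hz)).ne'))
    one_pos
  have hexp : ∀ z ∈ ball (0 : ℂ) (R + 1), ‖Complex.exp (-(g z / c₀)) • F z‖ =
      Real.exp (-((g z).re / c₀) + Real.log ‖F z‖) := by
    intro z hz
    have h1 : (-(g z / (c₀ : ℂ))).re = -((g z).re / c₀) := by
      rw [Complex.neg_re, Complex.div_ofReal_re]
    rw [norm_smul, Complex.norm_exp, h1, Real.exp_add, Real.exp_log (hne z hz)]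
  -- the upper bound
  have hup : ∀ z ∈ ball (0 : ℂ) R, ‖Complex.exp (-(g z / c₀)) • F z‖ ≤ Real.exp (1 / c₀) := by
    intro z hz
    have hd : DiffContOnCl ℂ (fun z => Complex.exp (-(g z / c₀)) • F z) (ball (0 : ℂ) R) := by
      refine DifferentiableOn.diffContOnCl ?_
      rw [closure_ball _ hR.ne']
      exact ((hg.differentiableOn.div_const _).neg.cexp).smul (hF.1.mono hsub)
    refine Complex.norm_le_of_forall_mem_frontier_norm_le isBounded_ball hd (fun w hw => ?_)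
      (subset_closure hz)
    rw [frontier_ball _ hR.ne'] at hw
    rw [hexp w (hsph hw), Real.exp_le_exp]
    have h1 := (abs_le.1 (hgφ w hw)).1
    have h3 : Real.log ‖F w‖ ≤ (1 + (g w).re) / c₀ := by
      rw [le_div_iff₀ hc]
      linarith
    rw [add_div] at h3
    linarith
  -- the lower bound
  have hlow : ‖F 0‖ ^ (-c₀) * ‖Complex.exp (g 0)‖ ≤ A := by
    have husc : UpperSemicontinuousOn (fun z => mt G F z * (‖F z‖ ^ (-c₀) * ‖Complex.exp (g z)‖ *
        Real.exp ((4 * C + 1) * ‖z‖ ^ 2))) (closedBall (0 : ℂ) R) := by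
      refine Char_usc ((mt_usc hM isOpen_ball hF).mono hsub) ?_ ?_
      · refine ContinuousOn.mul (ContinuousOn.mul ?_ ?_) ?_
        · exact (hcont.mono hsub).norm.rpow_const fun z hz => Or.inl (hne z (hsub hz)).ne'
        · exact (hg.continuous.cexp).norm.continuousOn
        · exact (Real.continuous_exp.comp
            (continuous_const.mul (continuous_norm.pow 2))).continuousOn
      · intro z hz
        exact mul_pos (mul_pos (Real.rpow_pos_of_pos (hne z (hsub hz)) _)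
          (norm_pos_iff.2 (Complex.exp_ne_zero _))) (Real.exp_pos _)
    have hmp := max_principle (isCompact_closedBall (0 : ℂ) R) isOpen_ball ball_subset_closedBall
      husc (fun z hz hz0 => ?_) hA0.le (fun z hz => ?_) 0 (mem_closedBall_self hR.le)
    · rw [h0, one_mul, norm_zero] at hmp
      norm_num at hmp
      exact hmp
    · have hzb : z ∈ ball (0 : ℂ) (R + 1) := hsub (ball_subset_closedBall hz)
      have hnh : ball (0 : ℂ) (R + 1) ∈ 𝓝 z := isOpen_ball.mem_nhds hzb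
      have han : AnalyticAt ℂ F z := hF.1.analyticAt hnh
      have hm0 : 0 < mt G F z := by
        by_contra h3
        have h4 : mt G F z ≤ 0 := not_lt.1 h3
        have h5 : 0 < ‖F z‖ ^ (-c₀) * ‖Complex.exp (g z)‖ *
            Real.exp ((4 * C + 1) * ‖z‖ ^ 2) :=
          mul_pos (mul_pos (Real.rpow_pos_of_pos (hne z hzb) _)
            (norm_pos_iff.2 (Complex.exp_ne_zero _))) (Real.exp_pos _)
        exact absurd hz0 (not_lt.2 (mul_nonpos_of_nonpos_of_nonneg h4 h5.le))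
      have hs1 := hM.sub F z han (Filter.eventually_of_mem hnh fun w hw => hF.2 w hw) hm0
      have hs2 : Sub (fun z => ‖Complex.exp (g z)‖) z 0 :=
        Sub.of_holo ((hg.analyticAt z).cexp) (Complex.exp_ne_zero _)
      have hs3 : Sub (fun z => Real.exp ((4 * C + 1) * ‖z‖ ^ 2)) z
          ((4 * C + 1) * ‖deriv (fun z : ℂ => z) z‖ ^ 2) := Sub.exp_sq analyticAt_id _
      have hs4 := (hs1.mul hs2).mul hs3
      refine ⟨_, ?_, hs4.congr (Filter.Eventually.of_forall fun w => ?_)⟩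
      · have h3 : deriv (fun z : ℂ => z) z = 1 := deriv_id z
        rw [h3, norm_one, one_pow, mul_one, add_zero]
        have h4 := h2 z hzb
        have h5 : mt G F z ^ 2 ≤ 4 := by nlinarith
        nlinarith
      · ring
    · have hz1 : z ∈ sphere (0 : ℂ) R := by
        rw [← closedBall_sdiff_ball]
        exact hz
      have hzb := hsph hz1
      have hzn : ‖z‖ = R := mem_sphere_zero_iff_norm.1 hz1
      have h1 := (abs_le.1 (hgφ z hz1)).2
      have h3 : ‖F z‖ ^ (-c₀) * ‖Complex.exp (g z)‖ ≤ Real.exp 1 := by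
        rw [Complex.norm_exp, Real.rpow_def_of_pos (hne z hzb), ← Real.exp_add, Real.exp_le_exp]
        linarith
      have h4 : mt G F z ≤ 2 := h2 z hzb
      have h5 : 0 ≤ ‖F z‖ ^ (-c₀) * ‖Complex.exp (g z)‖ :=
        mul_nonneg (Real.rpow_nonneg (norm_nonneg _) _) (norm_nonneg _)
      rw [hzn, hA, ← mul_assoc]
      refine mul_le_mul_of_nonneg_right ?_ (Real.exp_pos _).le
      exact mul_le_mul h4 h3 h5 two_pos.le
  have h0b : (0 : ℂ) ∈ ball (0 : ℂ) (R + 1) := mem_ball_self (by linarith)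
  refine ⟨fun z => -(g z / c₀) - 1 / c₀, (hg.div_const _).neg.sub_const _, fun z hz => ?_, ?_⟩
  · have h1 := hup z hz
    have h3 : Complex.exp (-(g z / c₀) - 1 / c₀) • F z =
        Complex.exp (-(1 / c₀ : ℂ)) • (Complex.exp (-(g z / c₀)) • F z) := by
      rw [smul_smul, ← Complex.exp_add]
      congr 2
      ring
    have h4 : ‖Complex.exp (-(1 / c₀ : ℂ))‖ = Real.exp (-(1 / c₀)) := by
      rw [Complex.norm_exp]
      congr 1
      rw [Complex.neg_re, ← Complex.ofReal_one, ← Complex.ofReal_div, Complex.ofReal_re]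
    rw [h3, norm_smul, h4]
    calc Real.exp (-(1 / c₀)) * ‖Complex.exp (-(g z / c₀)) • F z‖
        ≤ Real.exp (-(1 / c₀)) * Real.exp (1 / c₀) :=
          mul_le_mul_of_nonneg_left h1 (Real.exp_pos _).le
      _ = 1 := by rw [← Real.exp_add, neg_add_cancel, Real.exp_zero]
  · have h3 : Complex.exp (-(g 0 / c₀) - 1 / c₀) • F 0 =
        Complex.exp (-(1 / c₀ : ℂ)) • (Complex.exp (-(g 0 / c₀)) • F 0) := by
      rw [smul_smul, ← Complex.exp_add]
      congr 2
      ring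
    have h4 : ‖Complex.exp (-(1 / c₀ : ℂ))‖ = Real.exp (-(1 / c₀)) := by
      rw [Complex.norm_exp]
      congr 1
      rw [Complex.neg_re, ← Complex.ofReal_one, ← Complex.ofReal_div, Complex.ofReal_re]
    show _ ≤ ‖Complex.exp (-(g 0 / c₀) - 1 / c₀) • F 0‖
    rw [h3, norm_smul, h4, hexp 0 h0b, ← Real.exp_add, Real.exp_le_exp]
    rw [Complex.norm_exp, Real.rpow_def_of_pos (hne 0 h0b), ← Real.exp_add] at hlow
    have h5 : Real.log ‖F 0‖ * -c₀ + (g 0).re ≤ Real.log A := by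
      have h6 := Real.log_le_log (Real.exp_pos _) hlow
      rwa [Real.log_exp] at h6
    have h7 : ((g 0).re - Real.log A) / c₀ ≤ Real.log ‖F 0‖ := by
      rw [div_le_iff₀ hc]
      linarith
    rw [sub_div] at h7
    have h8 : -(1 + Real.log A) / c₀ = -(1 / c₀) - Real.log A / c₀ := by ring
    rw [h8]
    linarith

/-- the lower bound: the characteristic function grows at most like `R²` -/
theorem char_bound2 (hM : MetricData K B G ρ M c₀ C) : ∃ C₁ : ℝ, 0 ≤ C₁ ∧ ∀ R : ℝ, 0 < R → ∀ F, Curve K (ball 0 (R + 1)) F →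
    mt G F 0 = 1 → (∀ z ∈ ball (0 : ℂ) (R + 1), mt G F z ≤ 2) → ∃ g : ℂ → ℂ, Differentiable ℂ g ∧
      (∀ z ∈ ball (0 : ℂ) R, ‖Complex.exp (g z) • F z‖ ≤ 1) ∧ Real.exp (-(C₁ * (1 + R ^ 2))) ≤ ‖Complex.exp (g 0) • F 0‖ := by
  have hc := hM.c₀_pos
  have hC := hM.C_nonneg
  refine ⟨(4 * C + 4) / c₀, by positivity, fun R hR F hF h0 h2 => ?_⟩
  obtain ⟨g, h3, h4, h5⟩ := char_boundE hM hR F hF h0 h2
  refine ⟨g, h3, h4, le_trans (Real.exp_le_exp.mpr ?_) h5⟩
  rw [Real.log_mul (by positivity) (by positivity), Real.log_mul (by positivity) (by positivity), Real.log_exp, Real.log_exp]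
  have h6 : Real.log 2 ≤ 1 := by
    have := Real.log_two_lt_d9
    linarith
  rw [neg_div, neg_le_neg_iff, div_mul_eq_mul_div, div_le_div_iff_of_pos_right hc]
  nlinarith [sq_nonneg R]

end Pool.Agent.H36.BP

end

section

/-!
# TG Cn: the complement of `D` is dense and connected

`compl_dense`: by `D_thin` `D` has empty interior (an open subset `W` of `D`, `y ∈ W`: `h = 0` near `y`).
`compl_conn`: for `y` and `h` analytic on the ball `β = ball y r` with `D ∩ β ⊆ {h = 0}`, `h` not identically `0` near `y` (hence near no point of `β`, identity theorem), the set `β \ {h = 0}` is preconnected: for `a, b` in it the function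
`t ↦ h (a + t (b - a))` is analytic on the convex open set `{t : ℂ | a + t (b - a) ∈ β}` and not `0` at `0` and `1`, so its zeros are isolated (countable, closed), and the complement of a countable set in a convex open subset of `ℂ` is path connected
(`IsOpen.isConnected_compl_of_one_lt_rank`, `Set.Countable.isPathConnected_compl_of_one_lt_rank`, or `IsConnected.isPreconnected`; look in Mathlib for `isConnected_compl`/`IsOpen ... Countable` or work with real segments avoiding finitely many points).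
Let `Dᶜ ⊆ A ∪ C` with `A, C` open, `Dᶜ ∩ A`, `Dᶜ ∩ C` nonempty, and suppose `Dᶜ ∩ A ∩ C = ∅`.  The closures of `A ∩ Dᶜ` and `C ∩ Dᶜ` cover `V` (`compl_dense`) and `V` is connected, so there is `y` in both closures; if `y ∉ D` it is in `A` or in `C`, say in `A`, and then
points of `C ∩ Dᶜ` near `y` are in `A`; if `y ∈ D` take `β`: `A` and `C` both meet `β \ {h = 0}` (`{h = 0}` has empty interior in `β`, `A ∩ Dᶜ ∩ β` is open and not empty), which is preconnected and contained in `Dᶜ`: contradiction.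
-/

set_option autoImplicit false

open Topology Filter Metric

namespace Pool.Agent.TG

open Pool.Agent.H36.BP (EN wd)
open Pool.Agent.H14.PP (IsCone CurveAt Tan)
open Pool.Agent.AD (Vd Chart Charts)

variable {N k : ℕ}

theorem compl_dense {D : Set (Vd (k + 1))}
    (hD : ∀ y : Vd (k + 1), ∃ h : Vd (k + 1) → ℂ, AnalyticAt ℂ h y ∧ (∀ᶠ z in 𝓝 y, z ∈ D → h z = 0) ∧ ¬ ∀ᶠ z in 𝓝 y, h z = 0) :
    Dense Dᶜ := by
  intro y
  obtain ⟨h, -, h2, h3⟩ := hD y
  rw [mem_closure_iff_frequently]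
  exact ((Filter.not_eventually.mp h3).and_eventually h2).mono fun z hz hzD => hz.1 (hz.2 hzD)

/-- in the plane: two points of a convex open set can be joined off the zeros of an analytic function -/
private theorem Cn_plane {U : Set ℂ} (hU : IsOpen U) (hc : Convex ℝ U) {g : ℂ → ℂ} (hg : AnalyticOnNhd ℂ g U) (h0 : (0 : ℂ) ∈ U) (h1 : (1 : ℂ) ∈ U)
    (g0 : g 0 ≠ 0) (g1 : g 1 ≠ 0) : ∃ T : Set ℂ, IsPreconnected T ∧ (0 : ℂ) ∈ T ∧ (1 : ℂ) ∈ T ∧ T ⊆ U ∧ ∀ t ∈ T, g t ≠ 0 := by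
  -- the middle point
  have hm : ((1 / 2 : ℝ) : ℂ) ∈ U := by
    have h2 := hc h0 h1 (a := 1 / 2) (b := 1 / 2) (by norm_num) (by norm_num) (by norm_num)
    have e : ((1 / 2 : ℝ)) • (0 : ℂ) + ((1 / 2 : ℝ)) • (1 : ℂ) = ((1 / 2 : ℝ) : ℂ) := by
      rw [smul_zero, zero_add, Complex.real_smul, mul_one]
    rwa [e] at h2
  have hcont : Continuous fun s : ℝ => (⟨1 / 2, s⟩ : ℂ) := by
    have e : (fun s : ℝ => (⟨1 / 2, s⟩ : ℂ)) = fun s : ℝ => ((1 / 2 : ℝ) : ℂ) + (s : ℂ) * Complex.I := by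
      funext s
      apply Complex.ext <;> simp
    rw [e]
    fun_prop
  have hev : ∀ᶠ s : ℝ in 𝓝 0, (⟨1 / 2, s⟩ : ℂ) ∈ U := by
    refine hcont.continuousAt.eventually_mem (hU.mem_nhds ?_)
    have e : (⟨1 / 2, 0⟩ : ℂ) = ((1 / 2 : ℝ) : ℂ) := by apply Complex.ext <;> simp
    rw [e]
    exact hm
  obtain ⟨η, hη, hηU⟩ := Metric.eventually_nhds_iff.1 hev
  set K : Set ℂ := convexHull ℝ {(0 : ℂ), 1, ⟨1 / 2, η / 2⟩} with hK
  have hKU : K ⊆ U := by
    refine convexHull_min ?_ hc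
    intro z hz
    rcases hz with rfl | rfl | rfl
    · exact h0
    · exact h1
    · refine hηU ?_
      rw [Real.dist_eq, sub_zero, abs_of_pos (half_pos hη)]
      linarith
  have hfin3 : ({(0 : ℂ), 1, ⟨1 / 2, η / 2⟩} : Set ℂ).Finite := Set.toFinite _
  have hKc : IsCompact K := Set.Finite.isCompact_convexHull (𝕜 := ℝ) hfin3
  have hKconv : Convex ℝ K := convex_convexHull ℝ _
  have hK0 : (0 : ℂ) ∈ K := subset_convexHull ℝ _ (by simp)
  have hK1 : (1 : ℂ) ∈ K := subset_convexHull ℝ _ (by simp)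
  have hKη : (⟨1 / 2, η / 2⟩ : ℂ) ∈ K := subset_convexHull ℝ _ (by simp)
  have hKm : (⟨1 / 2, 0⟩ : ℂ) ∈ K := by
    have h2 := hKconv hK0 hK1 (a := 1 / 2) (b := 1 / 2) (by norm_num) (by norm_num) (by norm_num)
    have e : ((1 / 2 : ℝ)) • (0 : ℂ) + ((1 / 2 : ℝ)) • (1 : ℂ) = (⟨1 / 2, 0⟩ : ℂ) := by
      apply Complex.ext <;> simp
    rwa [e] at h2
  have hKs : ∀ s : ℝ, 0 < s → s < η / 2 → (⟨1 / 2, s⟩ : ℂ) ∈ K := by
    intro s hs hs2
    have h2 := hKconv hKm hKη (a := 1 - s / (η / 2)) (b := s / (η / 2)) (by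
      rw [sub_nonneg, div_le_one (half_pos hη)]
      exact hs2.le) (by positivity) (by ring)
    have e : (1 - s / (η / 2)) • (⟨1 / 2, 0⟩ : ℂ) + (s / (η / 2)) • (⟨1 / 2, η / 2⟩ : ℂ) = (⟨1 / 2, s⟩ : ℂ) := by
      apply Complex.ext
      · simp only [Complex.add_re, Complex.real_smul, Complex.mul_re, Complex.ofReal_re, Complex.ofReal_im, zero_mul, sub_zero]
        ring
      · simp only [Complex.add_im, Complex.real_smul, Complex.mul_im, Complex.ofReal_re, Complex.ofReal_im, zero_mul, add_zero, mul_zero]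
        field_simp
        ring
    rwa [e] at h2
  -- finitely many zeros
  set Z : Set ℂ := {t : ℂ | t ∈ K ∧ g t = 0} with hZ
  have hZfin : Z.Finite := by
    by_contra hinf
    obtain ⟨x, hxK, hx⟩ := Set.Infinite.exists_accPt_of_subset_isCompact hinf hKc fun t ht => ht.1
    have h2 : ∃ᶠ z in 𝓝[≠] x, g z = 0 := by
      rw [accPt_iff_frequently_nhdsNE] at hx
      exact hx.mono fun z hz => hz.2
    have h3 := hg.eqOn_zero_of_preconnected_of_frequently_eq_zero hc.isPreconnected (hKU hxK) h2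
    exact g0 (h3 h0)
  -- a good middle point
  obtain ⟨s, hs, hsb⟩ : ∃ s ∈ Set.Ioo (0 : ℝ) (η / 2), s ∉ ((fun z : ℂ => z.im / (2 * z.re)) '' Z ∪ (fun z : ℂ => z.im / (2 * (1 - z.re))) '' Z) :=
    ((Set.Ioo_infinite (half_pos hη)).sdiff ((hZfin.image _).union (hZfin.image _))).nonempty
  have hsK := hKs s hs.1 hs.2
  have hseg1 : segment ℝ (0 : ℂ) ⟨1 / 2, s⟩ ⊆ K := hKconv.segment_subset hK0 hsK
  have hseg2 : segment ℝ (⟨1 / 2, s⟩ : ℂ) 1 ⊆ K := hKconv.segment_subset hsK hK1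
  refine ⟨segment ℝ (0 : ℂ) ⟨1 / 2, s⟩ ∪ segment ℝ (⟨1 / 2, s⟩ : ℂ) 1, ?_, Or.inl (left_mem_segment ℝ _ _), Or.inr (right_mem_segment ℝ _ _),
    fun t ht => hKU (ht.elim (fun h => hseg1 h) fun h => hseg2 h), fun t ht htz => ?_⟩
  · exact IsPreconnected.union (⟨1 / 2, s⟩ : ℂ) (right_mem_segment ℝ _ _) (left_mem_segment ℝ _ _) (convex_segment _ _).isPreconnected
      (convex_segment _ _).isPreconnected
  · rcases ht with ht | ht
    · have htK := hseg1 ht
      obtain ⟨a, b, ha, hb, hab, rfl⟩ := ht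
      have hb0 : b ≠ 0 := by
        rintro rfl
        rw [smul_zero, zero_smul, add_zero] at htz
        exact g0 htz
      refine hsb (Or.inl ⟨_, ⟨htK, htz⟩, ?_⟩)
      simp only [Complex.add_re, Complex.add_im, Complex.real_smul, Complex.mul_re, Complex.mul_im, Complex.ofReal_re, Complex.ofReal_im, zero_mul, sub_zero,
        add_zero, mul_zero, zero_add, Complex.zero_re, Complex.zero_im]
      field_simp
    · have htK := hseg2 ht
      obtain ⟨a, b, ha, hb, hab, rfl⟩ := ht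
      have ha0 : a ≠ 0 := by
        rintro rfl
        rw [zero_add] at hab
        rw [hab, zero_smul, zero_add, one_smul] at htz
        exact g1 htz
      refine hsb (Or.inr ⟨_, ⟨htK, htz⟩, ?_⟩)
      simp only [Complex.add_re, Complex.add_im, Complex.real_smul, Complex.mul_re, Complex.mul_im, Complex.ofReal_re, Complex.ofReal_im, zero_mul, sub_zero,
        add_zero, mul_zero, zero_add, Complex.one_re, Complex.one_im, mul_one]
      have hb' : b = 1 - a := by linarith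
      rw [hb']
      have e : 2 * (1 - (a * (1 / 2) + (1 - a))) = a := by ring
      rw [e]
      field_simp

/-- the complement of the zeros of an analytic function in a ball -/
private theorem Cn_ball {n : ℕ} {y : Vd n} {r : ℝ} {h : Vd n → ℂ} (hh : AnalyticOnNhd ℂ h (ball y r)) : IsPreconnected (ball y r \ {z | h z = 0}) := by
  refine isPreconnected_of_forall_pair fun a ha b hb => ?_
  have hφ : Continuous fun t : ℂ => a + t • (b - a) := by fun_prop
  set U : Set ℂ := {t : ℂ | a + t • (b - a) ∈ ball y r} with hU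
  have hUo : IsOpen U := isOpen_ball.preimage hφ
  have hUc : Convex ℝ U := by
    intro t ht t' ht' p q hp hq hpq
    show a + (p • t + q • t') • (b - a) ∈ ball y r
    have e : a + (p • t + q • t') • (b - a) = p • (a + t • (b - a)) + q • (a + t' • (b - a)) := by
      have e1 : a = p • a + q • a := by rw [← add_smul, hpq, one_smul]
      calc a + (p • t + q • t') • (b - a) = (p • a + q • a) + (p • t + q • t') • (b - a) := by rw [← e1]
        _ = p • (a + t • (b - a)) + q • (a + t' • (b - a)) := by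
          rw [add_smul, smul_assoc, smul_assoc, smul_add, smul_add]
          abel
    rw [e]
    exact convex_ball y r ht ht' hp hq hpq
  have e0 : a + (0 : ℂ) • (b - a) = a := by rw [zero_smul, add_zero]
  have e1 : a + (1 : ℂ) • (b - a) = b := by rw [one_smul, add_sub_cancel]
  have hg : AnalyticOnNhd ℂ (fun t : ℂ => h (a + t • (b - a))) U := fun t ht =>
    AnalyticAt.fun_comp (g := h) (f := fun t : ℂ => a + t • (b - a)) (hh _ ht) (by fun_prop)
  obtain ⟨T, hT, h0T, h1T, hTU, hTg⟩ := Cn_plane hUo hUc hg (by show a + (0 : ℂ) • (b - a) ∈ ball y r; rw [e0]; exact ha.1)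
    (by show a + (1 : ℂ) • (b - a) ∈ ball y r; rw [e1]; exact hb.1) (by show h (a + (0 : ℂ) • (b - a)) ≠ 0; rw [e0]; exact ha.2)
    (by show h (a + (1 : ℂ) • (b - a)) ≠ 0; rw [e1]; exact hb.2)
  refine ⟨(fun t : ℂ => a + t • (b - a)) '' T, ?_, ⟨0, h0T, e0⟩, ⟨1, h1T, e1⟩, hT.image _ hφ.continuousOn⟩
  rintro _ ⟨t, ht, rfl⟩
  exact ⟨hTU ht, hTg t ht⟩

theorem compl_conn {D : Set (Vd (k + 1))} (hc : IsClosed D)
    (hD : ∀ y : Vd (k + 1), ∃ h : Vd (k + 1) → ℂ, AnalyticAt ℂ h y ∧ (∀ᶠ z in 𝓝 y, z ∈ D → h z = 0) ∧ ¬ ∀ᶠ z in 𝓝 y, h z = 0) :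
    IsPreconnected Dᶜ := by
  rw [isPreconnected_iff_subset_of_disjoint]
  intro u v hu hv huv hdis
  by_contra hcon
  push Not at hcon
  obtain ⟨h1, h2⟩ := hcon
  rw [Set.not_subset] at h1 h2
  obtain ⟨a, ha, hau⟩ := h1
  obtain ⟨b, hb, hbv⟩ := h2
  have hav : a ∈ v := (huv ha).resolve_left hau
  have hbu : b ∈ u := (huv hb).resolve_right hbv
  have hcov : (Set.univ : Set (Vd (k + 1))) ⊆ closure (Dᶜ ∩ u) ∪ closure (Dᶜ ∩ v) := by
    rw [← closure_union, ← Set.inter_union_distrib_left, Set.inter_eq_left.2 huv]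
    exact fun y _ => compl_dense hD y
  obtain ⟨y, -, hyu, hyv⟩ := (isPreconnected_closed_iff.1 isPreconnected_univ) _ _ isClosed_closure isClosed_closure hcov
    ⟨b, Set.mem_univ _, subset_closure ⟨hb, hbu⟩⟩ ⟨a, Set.mem_univ _, subset_closure ⟨ha, hav⟩⟩
  obtain ⟨h, hh, hhD, hh0⟩ := hD y
  obtain ⟨r, hr, hball⟩ := Metric.eventually_nhds_iff_ball.1 (hh.eventually_analyticAt.and hhD)
  set S : Set (Vd (k + 1)) := ball y r \ {z | h z = 0} with hS
  have hSc : IsPreconnected S := Cn_ball fun z hz => (hball z hz).1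
  have hSD : S ⊆ Dᶜ := fun z hz hzD => hz.2 ((hball z hz.1).2 hzD)
  -- `S` is dense in the ball
  have hdense : ∀ W : Set (Vd (k + 1)), IsOpen W → (W ∩ ball y r).Nonempty → (W ∩ S).Nonempty := by
    rintro W hW ⟨w, hwW, hwb⟩
    by_contra hne
    rw [Set.not_nonempty_iff_eq_empty] at hne
    have hz : ∀ᶠ z in 𝓝 w, h z = 0 := by
      filter_upwards [hW.mem_nhds hwW, isOpen_ball.mem_nhds hwb] with z hzW hzb
      by_contra hz
      have : z ∈ W ∩ S := ⟨hzW, hzb, hz⟩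
      rw [hne] at this
      exact this
    have h3 := AnalyticOnNhd.eqOn_zero_of_preconnected_of_eventuallyEq_zero (f := h) (U := ball y r) (fun z hz => (hball z hz).1)
      (convex_ball y r).isPreconnected hwb hz
    refine hh0 ?_
    filter_upwards [ball_mem_nhds y hr] with z hz
    exact h3 hz
  have hmeet : ∀ W : Set (Vd (k + 1)), IsOpen W → y ∈ closure (Dᶜ ∩ W) → (S ∩ W).Nonempty := by
    intro W hW hyW
    obtain ⟨z, hzb, hzD, hzW⟩ := mem_closure_iff.1 hyW _ isOpen_ball (mem_ball_self hr)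
    obtain ⟨x, hx1, hx2⟩ := hdense W hW ⟨z, hzW, hzb⟩
    exact ⟨x, hx2, hx1⟩
  rcases (isPreconnected_iff_subset_of_disjoint.1 hSc) u v hu hv (hSD.trans huv) (by
    rw [← Set.subset_empty_iff, ← hdis]
    exact Set.inter_subset_inter_left _ hSD) with hSu | hSv
  · obtain ⟨x, hx1, hx2⟩ := hmeet v hv hyv
    have : x ∈ Dᶜ ∩ (u ∩ v) := ⟨hSD hx1, hSu hx1, hx2⟩
    rw [hdis] at this
    exact this
  · obtain ⟨x, hx1, hx2⟩ := hmeet u hu hyu
    have : x ∈ Dᶜ ∩ (u ∩ v) := ⟨hSD hx1, hx2, hSv hx1⟩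
    rw [hdis] at this
    exact this

end Pool.Agent.TG

end

section

/-!
# TG XCcl: circles off `D`

`exists_circle`.  Let `h` be from `thin y₀`.  There is `v` with `h (y₀ + v) ≠ 0`, `‖v‖` so small that `h` is analytic on the ball of radius `2 ‖v‖` and `D ⊆ {h = 0}` there, and `v ≠ 0` can be chosen (if only `v = 0` is
possible then `h` is `0` near `y₀` except at `y₀`, so `h y₀ = 0` by continuity, as `k + 1 ≥ 1`).  `e = v / ‖v‖`; the function `z ↦ h (y₀ + z • e)` is analytic near `0` and not `0` on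
`‖z‖ ≤ ‖v‖` (preconnected), so its zero at `0` is isolated or it is not a zero: there is `r ∈ (0, 1)`, `r < ‖v‖`, with `h (y₀ + z • e) ≠ 0` for `‖z‖ = r`.  So the compact circle `{y₀ + z • e}` is disjoint from the closed
set `D`; the distance is `≥ 2 c` for some `c > 0`, and `ρ = min (c / 4) (1/2)`.
-/

set_option autoImplicit false

open Topology Filter Metric MeasureTheory

namespace Pool.Agent.TG

open Pool.Agent.AD (Vd)

variable {k : ℕ} {D : Set (Vd (k + 1))}

theorem exists_circle (hD : IsClosed D) (hthin : ∀ y : Vd (k + 1), ∃ h : Vd (k + 1) → ℂ, AnalyticAt ℂ h y ∧ (∀ᶠ z in 𝓝 y, z ∈ D → h z = 0) ∧ ¬ ∀ᶠ z in 𝓝 y, h z = 0)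
    (y₀ : Vd (k + 1)) : ∃ (e : Vd (k + 1)) (r c ρ : ℝ), e ≠ 0 ∧ ‖e‖ ≤ 1 ∧ 0 < r ∧ r < 1 ∧ 0 < c ∧ 0 < ρ ∧ ρ < 1 ∧
      ∀ y ∈ ball y₀ (4 * ρ), ∀ z : ℂ, ‖z‖ = r → y + z • e ∈ Gd D c := by
  obtain ⟨h, han, hDh, hne⟩ := hthin y₀
  obtain ⟨R₀, hR₀, hball⟩ := Metric.eventually_nhds_iff_ball.1 (han.eventually_analyticAt.and hDh)
  set R : ℝ := min R₀ 1 with hRdef
  have hR : 0 < R := lt_min hR₀ one_pos
  have hRR : R ≤ R₀ := min_le_left _ _
  have hR1 : R ≤ 1 := min_le_right _ _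
  have hline : ∀ v : Vd (k + 1), ∀ z : ℂ, AnalyticAt ℂ h (y₀ + z • v) → AnalyticAt ℂ (fun z : ℂ => h (y₀ + z • v)) z := by
    intro v z hz
    have h1 : AnalyticAt ℂ (fun z : ℂ => y₀ + z • v) z := analyticAt_const.add (analyticAt_id.smul analyticAt_const)
    exact AnalyticAt.fun_comp (g := h) hz h1
  -- the direction
  have hv : ∃ v : Vd (k + 1), v ≠ 0 ∧ ‖v‖ ≤ 1 ∧ ∀ᶠ z in 𝓝[≠] (0 : ℂ), h (y₀ + z • v) ≠ 0 := by
    by_cases h0 : h y₀ = 0
    · have hfr : ∃ᶠ z in 𝓝 y₀, h z ≠ 0 := by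
        intro hh
        exact hne (hh.mono fun z hz => not_not.1 hz)
      obtain ⟨z₀, hz₀, hz₀b⟩ := (hfr.and_eventually (Metric.ball_mem_nhds y₀ (half_pos hR))).exists
      have hvR : ‖z₀ - y₀‖ < R / 2 := by simpa [mem_ball, dist_eq_norm] using hz₀b
      refine ⟨z₀ - y₀, ?_, by linarith, ?_⟩
      · intro hz
        rw [sub_eq_zero.1 hz] at hz₀
        exact hz₀ h0
      · have hanR : AnalyticOnNhd ℂ (fun z : ℂ => h (y₀ + z • (z₀ - y₀))) (ball (0 : ℂ) 2) := by
          intro z hz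
          refine hline _ _ (hball _ ?_).1
          rw [mem_ball, dist_eq_norm] at hz ⊢
          rw [add_sub_cancel_left, norm_smul]
          rw [sub_zero] at hz
          have := norm_nonneg z
          have := norm_nonneg (z₀ - y₀)
          nlinarith
        rcases (hanR 0 (mem_ball_self two_pos)).eventually_eq_zero_or_eventually_ne_zero with h1 | h1
        · exfalso
          have h2 := hanR.eqOn_zero_of_preconnected_of_eventuallyEq_zero (convex_ball (0 : ℂ) 2).isPreconnected (mem_ball_self two_pos) h1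
          have h3 := h2 (show (1 : ℂ) ∈ ball (0 : ℂ) 2 by simp [mem_ball])
          simp only [one_smul, add_sub_cancel, Pi.zero_apply] at h3
          exact hz₀ h3
        · exact h1
    · refine ⟨fun _ => 1, ?_, ?_, ?_⟩
      · intro hz
        exact one_ne_zero (congrFun hz 0)
      · refine (pi_norm_le_iff_of_nonneg zero_le_one).2 fun i => ?_
        simp
      · have h1 : ContinuousAt (fun z : ℂ => h (y₀ + z • (fun _ => (1 : ℂ) : Vd (k + 1)))) 0 := by
          refine (hline _ _ ?_).continuousAt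
          simpa using han
        have h2 : ∀ᶠ z in 𝓝 (0 : ℂ), h (y₀ + z • (fun _ => (1 : ℂ) : Vd (k + 1))) ≠ 0 := by
          refine h1.eventually_ne ?_
          simpa using h0
        exact h2.filter_mono nhdsWithin_le_nhds
  obtain ⟨v, hv0, hv1, hvz⟩ := hv
  obtain ⟨r₀, hr₀, hr⟩ := Metric.eventually_nhds_iff_ball.1 (eventually_nhdsWithin_iff.1 hvz)
  set r : ℝ := min (min r₀ 1) R / 2 with hrdef
  have hm : 0 < min (min r₀ 1) R := lt_min (lt_min hr₀ one_pos) hR
  have hr0 : 0 < r := half_pos hm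
  have hrr₀ : r < r₀ := lt_of_lt_of_le (half_lt_self hm) ((min_le_left _ _).trans (min_le_left _ _))
  have hr1 : r < 1 := lt_of_lt_of_le (half_lt_self hm) ((min_le_left _ _).trans (min_le_right _ _))
  have hrR : r < R := lt_of_lt_of_le (half_lt_self hm) (min_le_right _ _)
  have hcirc : ∀ z : ℂ, ‖z‖ = r → y₀ + z • v ∉ D := by
    intro z hz hzD
    have h1 : h (y₀ + z • v) ≠ 0 := by
      refine hr z ?_ ?_
      · rw [mem_ball, dist_eq_norm, sub_zero, hz]
        exact hrr₀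
      · rw [Set.mem_compl_iff, Set.mem_singleton_iff]
        intro h0
        rw [h0, norm_zero] at hz
        exact hr0.ne hz
    refine h1 ((hball _ ?_).2 hzD)
    rw [mem_ball, dist_eq_norm, add_sub_cancel_left, norm_smul, hz]
    have := norm_nonneg v
    nlinarith
  have hK : IsCompact ((fun z : ℂ => y₀ + z • v) '' sphere (0 : ℂ) r) :=
    (isCompact_sphere (0 : ℂ) r).image (by fun_prop)
  have hKD : (fun z : ℂ => y₀ + z • v) '' sphere (0 : ℂ) r ⊆ Dᶜ := by
    rintro _ ⟨z, hz, rfl⟩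
    exact hcirc z (by simpa using hz)
  obtain ⟨δ, hδ, hth⟩ := hK.exists_thickening_subset_open hD.isOpen_compl hKD
  refine ⟨v, r, δ / 2, min (δ / 8) (1 / 2), hv0, hv1, hr0, hr1, half_pos hδ, lt_min (by linarith) (by norm_num),
    lt_of_le_of_lt (min_le_right _ _) (by norm_num), ?_⟩
  intro y hy z hz b hb
  by_contra hcon
  rw [not_le] at hcon
  have h1 : ‖y - y₀‖ < δ / 2 := by
    rw [mem_ball, dist_eq_norm] at hy
    have := min_le_left (δ / 8) (1 / 2 : ℝ)
    linarith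
  have h2 : b ∈ thickening δ ((fun z : ℂ => y₀ + z • v) '' sphere (0 : ℂ) r) := by
    rw [mem_thickening_iff]
    refine ⟨y₀ + z • v, ⟨z, by simpa using hz, rfl⟩, ?_⟩
    rw [dist_comm, dist_eq_norm]
    have h3 : y₀ + z • v - b = (y + z • v - b) - (y - y₀) := by abel
    rw [h3]
    exact (norm_sub_le _ _).trans_lt (by linarith)
  exact hth h2 hb

end Pool.Agent.TG

end

section

/-!
# TG IsoA: a zero set near a graph

`exists_isolated`: let `G (t, s)` be analytic at `(0, s₀)`, not `0` near it.  On a polydisc `|t| < 2 r`, `‖s - s₀‖ < 2 r` `G` is analytic and bounded by `M`.  Let `a_j s` be the Taylor coefficients of `t ↦ G (t, s)` at `t = 0`, `‖s - s₀‖ < r`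
(analytic in `s`; e.g. `a_j s = (2πi)⁻¹ ∮ G (t, s) t^(-j-1) dt` over `|t| = r`, `|a_j| ≤ M r^(-j)`).  If `a_j = 0` near `s₀` for all `j`, then by the identity theorem (`a_j` is analytic on the ball, which is connected) all `a_j` vanish on
`ball s₀ r`, so `G = 0` near `(0, s₀)`: contradiction.  So there is a minimal `j` such that `a_j` is not `0` near `s₀`; then `a_i = 0` on `ball s₀ r` for `i < j`, and there is `s₁ ∈ W` with `a_j s₁ ≠ 0`.  For `s` near `s₁` and `|t| < r / 2`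
`‖G (t, s) - a_j s t^j‖ ≤ Σ_{i > j} M r^(-i) |t|^i ≤ C |t|^(j+1)`, so `G (t, s) ≠ 0` if `t ≠ 0` is small, uniformly for `s` near `s₁` (`‖a_j s‖ ≥ ‖a_j s₁‖ / 2`).
(Another way: divide `G` by `t` as long as `G (0, s) = 0` near `s₀`: `G = t ^ j * H` with `H` analytic and `H (0, ·)` not `0` near `s₀`.)
-/

set_option autoImplicit false

open Topology Filter Metric

namespace Pool.Agent.TG

open Pool.Agent.H36.BP (EN wd)
open Pool.Agent.H14.PP (IsCone CurveAt Tan)
open Pool.Agent.AD (Vd Chart Charts)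

variable {N k : ℕ}

/-- division by the coordinate `0` -/
theorem exists_div_zero {m : ℕ} {R : ℝ} {K : Vd (m + 1) → ℂ} (hK : ∀ p ∈ ball (0 : Vd (m + 1)) R, AnalyticAt ℂ K p)
    (h0 : ∀ p ∈ ball (0 : Vd (m + 1)) R, p 0 = 0 → K p = 0) :
    ∃ H : Vd (m + 1) → ℂ, (∀ p ∈ ball (0 : Vd (m + 1)) R, AnalyticAt ℂ H p) ∧ ∀ p ∈ ball (0 : Vd (m + 1)) R, K p = p 0 * H p := by
  have ha : ∀ p ∈ ball (0 : Vd (m + 1)) R, AnalyticAt ℂ (fun p => fderiv ℂ K p (Pi.single 0 1)) p := by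
    intro p hp
    exact ((ContinuousLinearMap.apply ℂ ℂ (Pi.single 0 1 : Vd (m + 1))).analyticAt _).comp (hK p hp).fderiv
  refine ⟨fun p => ∫ θ in (0 : ℝ)..1, fderiv ℂ K (pP θ p) (Pi.single 0 1), fun p hp => prm_I ha hp, fun p hp => ?_⟩
  have hpR : ‖p‖ < R := by simpa using hp
  have hin : ∀ θ ∈ Set.uIcc (0 : ℝ) 1, pP θ p ∈ ball (0 : Vd (m + 1)) R := by
    intro θ hθ
    rw [Set.uIcc_of_le zero_le_one] at hθ
    rw [mem_ball_zero_iff]
    exact (pP_norm hθ.1 hθ.2 p).trans_lt hpR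
  -- the derivative in `θ`
  have hline : ∀ θ : ℂ, HasDerivAt (fun t : ℂ => (Fin.cons (α := fun _ => ℂ) (t * p 0) fun i : Fin m => p i.succ : Vd (m + 1)))
      (p 0 • (Pi.single 0 1 : Vd (m + 1))) θ := by
    intro θ
    rw [hasDerivAt_pi]
    intro i
    refine Fin.cases ?_ ?_ i
    · have h1 := (hasDerivAt_id θ).mul_const (p 0)
      rw [one_mul] at h1
      simpa using h1
    · intro j
      have h1 := hasDerivAt_const θ (p j.succ)
      simpa using h1
  have hder : ∀ θ ∈ Set.uIcc (0 : ℝ) 1, HasDerivAt (fun θ : ℝ => K (pP θ p)) (p 0 * fderiv ℂ K (pP θ p) (Pi.single 0 1)) θ := by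
    intro θ hθ
    have h1 : HasFDerivAt K (fderiv ℂ K (pP θ p)) (pP θ p) := (hK _ (hin θ hθ)).differentiableAt.hasFDerivAt
    have h2 := (h1.comp_hasDerivAt (θ : ℂ) (hline θ)).comp_ofReal
    rw [map_smul, smul_eq_mul] at h2
    exact h2
  have h3 := intervalIntegral.integral_eq_sub_of_hasDerivAt hder (by
    refine ContinuousOn.intervalIntegrable ?_
    refine continuousOn_const.mul ?_
    intro θ hθ
    have h4 : ContinuousAt (fun p => fderiv ℂ K p (Pi.single 0 1)) (pP θ p) := (ha _ (hin θ hθ)).continuousAt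
    exact (ContinuousAt.comp (f := fun θ : ℝ => pP θ p) h4 (pP_cont _).continuousAt).continuousWithinAt)
  rw [intervalIntegral.integral_const_mul] at h3
  have h5 : pP 1 p = p := by
    funext i
    refine Fin.cases ?_ ?_ i
    · rw [pP_zero]
      simp
    · intro j
      rfl
  have h6 : K (pP 0 p) = 0 := by
    refine h0 _ (hin 0 Set.left_mem_uIcc) ?_
    rw [pP_zero]
    simp
  rw [h5, h6, sub_zero] at h3
  exact h3.symm

/-- the case `s₀ = 0` -/
private theorem iso_zero {m : ℕ} {R : ℝ} (hR : 0 < R) {G : Vd (m + 1) → ℂ} (hG : ∀ p ∈ ball (0 : Vd (m + 1)) R, AnalyticAt ℂ G p)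
    {p₁ : Vd (m + 1)} (hp₁ : p₁ ∈ ball (0 : Vd (m + 1)) R) (hne : G p₁ ≠ 0) :
    ∃ s₁ ∈ ball (0 : Vd m) R, ∃ d : ℝ, 0 < d ∧ ∀ p : Vd (m + 1), ‖p 0‖ < d → ‖(fun i => p i.succ) - s₁‖ < d → G p = 0 → p 0 = 0 := by
  by_contra hcon
  push Not at hcon
  have hcons : ∀ s ∈ ball (0 : Vd m) R, (Fin.cons (α := fun _ => ℂ) 0 s : Vd (m + 1)) ∈ ball (0 : Vd (m + 1)) R := by
    intro s hs
    rw [mem_ball_zero_iff] at hs ⊢
    rw [pi_norm_lt_iff hR]
    intro i
    refine Fin.cases ?_ ?_ i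
    · simpa using hR
    · intro j
      exact (norm_le_pi_norm s j).trans_lt hs
  -- divisibility by all powers
  have hdiv : ∀ j : ℕ, ∃ H : Vd (m + 1) → ℂ, (∀ p ∈ ball (0 : Vd (m + 1)) R, AnalyticAt ℂ H p) ∧
      ∀ p ∈ ball (0 : Vd (m + 1)) R, G p = p 0 ^ j * H p := by
    intro j
    induction j with
    | zero => exact ⟨G, hG, fun p _ => by rw [pow_zero, one_mul]⟩
    | succ j ih =>
      obtain ⟨H, hH, hGH⟩ := ih
      have h0 : ∀ p ∈ ball (0 : Vd (m + 1)) R, p 0 = 0 → H p = 0 := by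
        intro p hp hp0
        by_contra hne0
        -- then the conclusion holds at the tail of `p`
        have hpR : ‖p‖ < R := by simpa using hp
        have h1 : ∀ᶠ q in 𝓝 p, H q ≠ 0 ∧ q ∈ ball (0 : Vd (m + 1)) R :=
          ((hH p hp).continuousAt.eventually_ne hne0).and (isOpen_ball.mem_nhds hp)
        obtain ⟨d, hd, hb⟩ := Metric.eventually_nhds_iff_ball.1 h1
        have hs : (fun i : Fin m => p i.succ) ∈ ball (0 : Vd m) R := by
          rw [mem_ball_zero_iff, pi_norm_lt_iff hR]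
          intro i
          exact (norm_le_pi_norm p i.succ).trans_lt hpR
        obtain ⟨q, hq0, hqs, hGq, hq⟩ := hcon _ hs d hd
        have hqb : q ∈ ball p d := by
          rw [mem_ball, dist_eq_norm, pi_norm_lt_iff hd]
          intro i
          refine Fin.cases ?_ ?_ i
          · rw [Pi.sub_apply, hp0, sub_zero]
            exact hq0
          · intro l
            exact (norm_le_pi_norm ((fun i : Fin m => q i.succ) - fun i : Fin m => p i.succ) l).trans_lt hqs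
        obtain ⟨h2, h3⟩ := hb q hqb
        rw [hGH q h3] at hGq
        rcases mul_eq_zero.1 hGq with h4 | h4
        · exact hq (eq_zero_of_pow_eq_zero h4)
        · exact h2 h4
      obtain ⟨H', hH', hHH⟩ := exists_div_zero hH h0
      refine ⟨H', hH', fun p hp => ?_⟩
      rw [hGH p hp, hHH p hp]
      ring
  -- the function on the line through `p₁`
  set L : ℂ → Vd (m + 1) := fun t => Fin.cons (α := fun _ => ℂ) t fun i : Fin m => p₁ i.succ with hL
  have hp₁R : ‖p₁‖ < R := by simpa using hp₁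
  have hLb : ∀ t ∈ ball (0 : ℂ) R, L t ∈ ball (0 : Vd (m + 1)) R := by
    intro t ht
    rw [mem_ball_zero_iff, pi_norm_lt_iff hR]
    intro i
    refine Fin.cases ?_ ?_ i
    · show ‖t‖ < R
      simpa using ht
    · intro j
      exact (norm_le_pi_norm p₁ j.succ).trans_lt hp₁R
  have hLa : ∀ t, AnalyticAt ℂ L t := by
    intro t
    rw [analyticAt_pi_iff]
    intro i
    refine Fin.cases ?_ ?_ i
    · exact analyticAt_id
    · intro j
      exact analyticAt_const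
  have hga : ∀ t ∈ ball (0 : ℂ) R, AnalyticAt ℂ (fun t => G (L t)) t := fun t ht => AnalyticAt.fun_comp (hG _ (hLb t ht)) (hLa t)
  have h0b : (0 : ℂ) ∈ ball (0 : ℂ) R := mem_ball_self hR
  have htop : analyticOrderAt (fun t => G (L t)) 0 = ⊤ := by
    rw [ENat.eq_top_iff_forall_ge]
    intro j
    obtain ⟨H, hH, hGH⟩ := hdiv j
    rw [natCast_le_analyticOrderAt (hga 0 h0b)]
    refine ⟨fun t => H (L t), AnalyticAt.fun_comp (hH _ (hLb 0 h0b)) (hLa 0), ?_⟩
    filter_upwards [isOpen_ball.mem_nhds h0b] with t ht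
    rw [hGH _ (hLb t ht), sub_zero, smul_eq_mul]
    rfl
  rw [analyticOrderAt_eq_top] at htop
  have h1 : AnalyticOnNhd ℂ (fun t => G (L t)) (ball 0 R) := hga
  have ht₁ : p₁ 0 ∈ ball (0 : ℂ) R := by
    rw [mem_ball_zero_iff]
    exact (norm_le_pi_norm p₁ 0).trans_lt hp₁R
  have h2 := h1.eqOn_zero_of_preconnected_of_eventuallyEq_zero (convex_ball 0 R).isPreconnected h0b htop ht₁
  have h3 : L (p₁ 0) = p₁ := by
    funext i
    refine Fin.cases ?_ ?_ i
    · rfl
    · intro j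
      rfl
  simp only [h3] at h2
  exact hne h2

theorem exists_isolated {m : ℕ} {G : Vd (m + 1) → ℂ} {s₀ : Vd m} (hG : AnalyticAt ℂ G (Fin.cons 0 s₀ : Vd (m + 1)))
    (hne : ¬ ∀ᶠ p in 𝓝 (Fin.cons 0 s₀ : Vd (m + 1)), G p = 0) {W : Set (Vd m)} (hW : W ∈ 𝓝 s₀) :
    ∃ s₁ ∈ W, ∃ d : ℝ, 0 < d ∧ ∀ p : Vd (m + 1), ‖p 0‖ < d → ‖(fun i => p i.succ) - s₁‖ < d → G p = 0 → p 0 = 0 := by
  set c : Vd (m + 1) := Fin.cons (α := fun _ => ℂ) 0 s₀ with hc
  obtain ⟨R₁, hR₁, hb⟩ := Metric.eventually_nhds_iff_ball.1 hG.eventually_analyticAt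
  obtain ⟨R₂, hR₂, hW2⟩ := Metric.mem_nhds_iff.1 hW
  set R : ℝ := min R₁ R₂ with hRdef
  have hR : 0 < R := lt_min hR₁ hR₂
  have htr : ∀ p ∈ ball (0 : Vd (m + 1)) R, p + c ∈ ball c R₁ := by
    intro p hp
    rw [mem_ball_zero_iff] at hp
    rw [mem_ball, dist_eq_norm, add_sub_cancel_right]
    exact hp.trans_le (min_le_left _ _)
  have hGa : ∀ p ∈ ball (0 : Vd (m + 1)) R, AnalyticAt ℂ (fun p => G (p + c)) p := by
    intro p hp
    have h1 : AnalyticAt ℂ (fun p : Vd (m + 1) => p + c) p := analyticAt_id.add analyticAt_const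
    exact AnalyticAt.fun_comp (g := G) (f := fun p : Vd (m + 1) => p + c) (hb _ (htr p hp)) h1
  obtain ⟨q, hq, hqb⟩ : ∃ q, G q ≠ 0 ∧ q ∈ ball c R := by
    obtain ⟨q, hq, hqb⟩ := ((Filter.not_eventually.1 hne).and_eventually (isOpen_ball.mem_nhds (mem_ball_self hR : c ∈ ball c R))).exists
    exact ⟨q, hq, hqb⟩
  obtain ⟨s₁, hs₁, d, hd, h⟩ := iso_zero hR hGa (p₁ := q - c) (by
    rw [mem_ball_zero_iff, ← dist_eq_norm]
    exact hqb) (by
    show G (q - c + c) ≠ 0
    rw [sub_add_cancel]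
    exact hq)
  refine ⟨s₁ + s₀, ?_, d, hd, fun p hp0 hps hGp => ?_⟩
  · apply hW2
    rw [mem_ball, dist_eq_norm, add_sub_cancel_right]
    rw [mem_ball_zero_iff] at hs₁
    exact hs₁.trans_le (min_le_right _ _)
  · have h1 := h (p - c) ?_ ?_ ?_
    · rw [Pi.sub_apply, hc, Fin.cons_zero, sub_zero] at h1
      exact h1
    · rw [Pi.sub_apply, hc, Fin.cons_zero, sub_zero]
      exact hp0
    · have h2 : (fun i : Fin m => (p - c) i.succ) - s₁ = (fun i : Fin m => p i.succ) - (s₁ + s₀) := by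
        funext i
        show (p i.succ - c i.succ) - s₁ i = p i.succ - (s₁ i + s₀ i)
        have h3 : c i.succ = s₀ i := rfl
        rw [h3]
        ring
      rw [h2]
      exact hps
    · show G (p - c + c) = 0
      rw [sub_add_cancel]
      exact hGp

end Pool.Agent.TG

end
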