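import Pool.Agent.H94.G4T.M22
import Pool.Agent.H94.G4T.M33

/-! The parts of this file: H13.CV.Val, H62.FC.Nev0. -/

section

/-!
# CV Val: the value of a function at a place

`exists_value`: let `0 ≤ ord f` and suppose that `0 < ord (f - c)` for no `c : ℂ`.  So `ord (f - c) = 0` for all `c` (it is `≥ 0`), in particular `f` is not a constant (`ord 0 = ⊤`), so `f` is
transcendental (`transcendental_of_not_const`).  Every non-zero polynomial in `f` is a constant times a product of factors `f - c` (`IsAlgClosed.splits`,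
`Polynomial.Splits.aeval_eq_prod_aroots` or induction on the degree with a root), so it has order `0`; so all non-zero elements of `L = ℂ(f)` have order `0`
(`IntermediateField.mem_adjoin_simple_iff`).  `K` is finite over `L` (`hK.fin`), so the uniformizer `t` (`oz E t = 1`) is algebraic over `L`; `t⁻¹` is also algebraic over `L`:
there is a monic polynomial `p` over `L` with `p (t⁻¹) = 0`, of degree `n > 0`.  `(t⁻¹) ^ n = - ∑ i < n, p_i (t⁻¹) ^ i` has order `- n`, but the right side has order `≥ - (n - 1)`: contradiction.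

The other lemmas follow from `res_spec` and `res_eq` (uniqueness: `ord (c - c') > 0` with `c ≠ c'` contradicts `ord_const`).
-/

set_option autoImplicit false

open Pool.Agent.H23.Fano (PrimeDivisorOver Form regularForms)

noncomputable section

namespace Pool.Agent.H13.CV

variable {K : Type} [Field K] [Algebra ℂ K] {E E' : Place K} {f g : K}

theorem exists_value (hK : CurveField K) (hf : 0 ≤ E.ord f) : ∃ c : ℂ, 0 < E.ord (f - algebraMap ℂ K c) := by
  by_contra hc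
  push Not at hc
  have h0 : ∀ c : ℂ, E.ord (f - algebraMap ℂ K c) = 0 := fun c =>
    le_antisymm (hc c) (nonneg_sub hf (const_nonneg E c))
  have hne : ∀ c : ℂ, f ≠ algebraMap ℂ K c := by
    intro c hfc
    have h1 := h0 c
    rw [hfc, sub_self, E.ord.map_zero] at h1
    exact WithTop.top_ne_zero h1
  have htr : Transcendental ℂ f := transcendental_of_not_const hne
  -- polynomials in `f` have order `0`
  have hA : ∀ (n : ℕ) (q : Polynomial ℂ), q ≠ 0 → q.natDegree = n → E.ord (Polynomial.aeval f q) = 0 := by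
    intro n
    induction n with
    | zero =>
      intro q hq hn
      rw [Polynomial.eq_C_of_natDegree_eq_zero hn, Polynomial.aeval_C]
      refine ord_const E ?_
      intro h2
      apply hq
      rw [Polynomial.eq_C_of_natDegree_eq_zero hn, h2, Polynomial.C_0]
    | succ n ih =>
      intro q hq hn
      obtain ⟨a, ha⟩ := IsAlgClosed.exists_root q (by
        intro h2
        have h3 : q.natDegree = 0 := Polynomial.natDegree_eq_zero_iff_degree_le_zero.2 (le_of_eq h2)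
        omega)
      obtain ⟨q', hq'⟩ := Polynomial.dvd_iff_isRoot.2 ha
      have hq0 : q' ≠ 0 := by
        rintro rfl
        exact hq (by rw [hq', mul_zero])
      have hdeg : q'.natDegree = n := by
        have h3 := congrArg Polynomial.natDegree hq'
        rw [Polynomial.natDegree_mul (Polynomial.X_sub_C_ne_zero a) hq0, Polynomial.natDegree_X_sub_C] at h3
        omega
      rw [hq', map_mul, E.ord.map_mul, ih q' hq0 hdeg, map_sub, Polynomial.aeval_X, Polynomial.aeval_C, h0 a,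
        add_zero]
  -- elements of `ℂ(f)`
  have hB : ∀ l : K, l ∈ IntermediateField.adjoin ℂ {f} → l ≠ 0 → E.ord l = 0 := by
    intro l hl hl0
    obtain ⟨r, s, hrs⟩ := (IntermediateField.mem_adjoin_simple_iff ℂ l).1 hl
    have hs : Polynomial.aeval f s ≠ 0 := by
      intro h2
      rw [h2, div_zero] at hrs
      exact hl0 hrs
    have hr : Polynomial.aeval f r ≠ 0 := by
      intro h2
      rw [h2, zero_div] at hrs
      exact hl0 hrs
    have hs' : s ≠ 0 := by
      rintro rfl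
      exact hs (map_zero _)
    have hr' : r ≠ 0 := by
      rintro rfl
      exact hr (map_zero _)
    have h3 : l * Polynomial.aeval f s = Polynomial.aeval f r := by
      rw [hrs, div_mul_cancel₀ _ hs]
    have h4 := congrArg E.ord h3
    rw [E.ord.map_mul, hA _ s hs' rfl, hA _ r hr' rfl, add_zero] at h4
    exact h4
  have := hK.fin f htr
  obtain ⟨t, ht0, ht⟩ := exists_uni E
  have hu0 : t⁻¹ ≠ 0 := inv_ne_zero ht0
  have hint : IsIntegral (IntermediateField.adjoin ℂ {f}) t⁻¹ := Algebra.IsIntegral.isIntegral t⁻¹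
  obtain ⟨p, hp, hpe⟩ := hint
  have hoz : ∀ n : ℕ, E.ord (t⁻¹ ^ n) = ((-(n : ℤ) : ℤ) : WithTop ℤ) := by
    intro n
    rw [← coe_oz E (pow_ne_zero n hu0), oz_pow, oz_inv, ht]
    congr 1
    ring
  rw [Polynomial.eval₂_eq_sum_range, Finset.sum_range_succ, hp.coeff_natDegree, map_one, one_mul] at hpe
  have h5 : t⁻¹ ^ p.natDegree = -∑ i ∈ Finset.range p.natDegree,
      (algebraMap (IntermediateField.adjoin ℂ {f}) K) (p.coeff i) * t⁻¹ ^ i := by
    rw [eq_neg_iff_add_eq_zero, add_comm]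
    exact hpe
  have h6 : ((-((p.natDegree : ℤ) - 1) : ℤ) : WithTop ℤ) ≤ E.ord (∑ i ∈ Finset.range p.natDegree,
      (algebraMap (IntermediateField.adjoin ℂ {f}) K) (p.coeff i) * t⁻¹ ^ i) := by
    refine E.ord.map_le_sum fun i hi => ?_
    rw [Finset.mem_range] at hi
    by_cases hz : (algebraMap (IntermediateField.adjoin ℂ {f}) K) (p.coeff i) = 0
    · rw [hz, zero_mul, E.ord.map_zero]
      exact le_top
    · have h7 : E.ord ((algebraMap (IntermediateField.adjoin ℂ {f}) K) (p.coeff i)) = 0 :=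
        hB _ (p.coeff i).2 hz
      rw [E.ord.map_mul, h7, zero_add, hoz]
      rw [WithTop.coe_le_coe]
      omega
  have h8 := hoz p.natDegree
  rw [h5, E.ord.map_neg] at h8
  rw [h8, WithTop.coe_le_coe] at h6
  omega

theorem value_unique {c c' : ℂ} (h : 0 < E.ord (f - algebraMap ℂ K c)) (h' : 0 < E.ord (f - algebraMap ℂ K c')) : c = c' := by
  by_contra hcc
  have h1 := pos_sub h' h
  have h2 : f - algebraMap ℂ K c' - (f - algebraMap ℂ K c) = algebraMap ℂ K (c - c') := by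
    rw [map_sub]
    ring
  rw [h2, ord_const E (sub_ne_zero.2 hcc)] at h1
  exact lt_irrefl _ h1

theorem res_eq {c : ℂ} (h : 0 < E.ord (f - algebraMap ℂ K c)) : res E f = c := by
  classical
  have h1 : ∃ c : ℂ, 0 < E.ord (f - algebraMap ℂ K c) := ⟨c, h⟩
  unfold res
  rw [dif_pos h1]
  exact value_unique h1.choose_spec h

theorem res_spec (hK : CurveField K) (hf : 0 ≤ E.ord f) : 0 < E.ord (f - algebraMap ℂ K (res E f)) := by
  obtain ⟨c, hc⟩ := exists_value hK hf
  rw [res_eq hc]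
  exact hc

theorem res_const (E : Place K) (c : ℂ) : res E (algebraMap ℂ K c) = c := by
  refine res_eq ?_
  rw [sub_self, E.ord.map_zero]
  exact WithTop.coe_lt_top (0 : ℤ)

theorem res_zero (E : Place K) : res E (0 : K) = 0 := by
  have h := res_const E 0
  rwa [map_zero] at h

theorem res_add (hK : CurveField K) (hf : 0 ≤ E.ord f) (hg : 0 ≤ E.ord g) : res E (f + g) = res E f + res E g := by
  refine res_eq ?_
  have h : f + g - algebraMap ℂ K (res E f + res E g) =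
      (f - algebraMap ℂ K (res E f)) + (g - algebraMap ℂ K (res E g)) := by
    rw [map_add]
    ring
  rw [h]
  exact pos_add (res_spec hK hf) (res_spec hK hg)

theorem res_mul (hK : CurveField K) (hf : 0 ≤ E.ord f) (hg : 0 ≤ E.ord g) : res E (f * g) = res E f * res E g := by
  refine res_eq ?_
  have h : f * g - algebraMap ℂ K (res E f * res E g) =
      (f - algebraMap ℂ K (res E f)) * g + (g - algebraMap ℂ K (res E g)) * algebraMap ℂ K (res E f) := by
    rw [map_mul]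
    ring
  rw [h]
  exact pos_add (pos_mul (res_spec hK hf) hg) (pos_mul (res_spec hK hg) (const_nonneg E _))

theorem res_smul (hK : CurveField K) (c : ℂ) (hf : 0 ≤ E.ord f) : res E (c • f) = c * res E f := by
  rw [Algebra.smul_def, res_mul hK (const_nonneg E c) hf, res_const]

theorem res_sum (hK : CurveField K) {ι : Type*} {s : Finset ι} {F : ι → K} (h : ∀ i ∈ s, 0 ≤ E.ord (F i)) :
    res E (∑ i ∈ s, F i) = ∑ i ∈ s, res E (F i) := by
  classical
  induction s using Finset.induction_on with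
  | empty => rw [Finset.sum_empty, Finset.sum_empty, res_zero]
  | insert a s ha ih =>
    rw [Finset.sum_insert ha, Finset.sum_insert ha,
      res_add hK (h a (Finset.mem_insert_self a s)) (nonneg_sum fun i hi => h i (Finset.mem_insert_of_mem hi)),
      ih fun i hi => h i (Finset.mem_insert_of_mem hi)]

theorem res_eq_zero_iff (hK : CurveField K) (hf : 0 ≤ E.ord f) : res E f = 0 ↔ 0 < E.ord f := by
  constructor
  · intro h
    have h1 := res_spec hK hf
    rwa [h, map_zero, sub_zero] at h1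
  · intro h
    refine res_eq ?_
    rwa [map_zero, sub_zero]

end Pool.Agent.H13.CV

end
end

section

/-!
# Nevanlinna theory at a puncture: counting functions and the first main theorem
-/

noncomputable section

namespace Pool.Agent.H62.FC

open Filter Topology MeasureTheory
open Pool.Agent.H92.GGL (ordZ finite_ordZ jensen_punctured)

variable {R₀ R₁ : ℝ}

theorem cnt_eq_sum {w : ℂ → ℝ} {r : ℝ} {T : Finset ℂ}
    (hT : ∀ s, r < ‖s‖ → ‖s‖ < R₁ → w s ≠ 0 → s ∈ T) (hr : 0 < r) :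
    cnt w R₁ r = ∑ s ∈ T with r < ‖s‖ ∧ ‖s‖ < R₁, w s * Real.log (‖s‖ / r) := by
  unfold cnt
  apply finsum_mem_eq_sum_of_inter_support_eq
  ext s
  simp only [Set.mem_inter_iff, Set.mem_ofPred_eq, Finset.coe_filter, Function.mem_support]
  constructor
  · rintro ⟨⟨h1, h2⟩, h3⟩
    exact ⟨⟨hT s h1 h2 (fun h => h3 (by rw [h, zero_mul])), h1, h2⟩, h3⟩
  · rintro ⟨⟨_, h1, h2⟩, h3⟩
    exact ⟨⟨h1, h2⟩, h3⟩

private theorem Nev0_exists {w : ℂ → ℝ} (h : R₁ < R₀) (hw : LocFin R₀ w) {r : ℝ} (hr : 0 < r) :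
    ∃ T : Finset ℂ, ∀ s, r < ‖s‖ → ‖s‖ < R₁ → w s ≠ 0 → s ∈ T :=
  ⟨(hw r R₁ hr h).toFinset, fun _ h1 h2 h3 => (hw r R₁ hr h).mem_toFinset.mpr ⟨h1.le, h2.le, h3⟩⟩

private theorem Nev0_exists2 {w w' : ℂ → ℝ} (h : R₁ < R₀) (hw : LocFin R₀ w)
    (hw' : LocFin R₀ w') {r : ℝ} (hr : 0 < r) :
    ∃ T : Finset ℂ, (∀ s, r < ‖s‖ → ‖s‖ < R₁ → w s ≠ 0 → s ∈ T) ∧
      ∀ s, r < ‖s‖ → ‖s‖ < R₁ → w' s ≠ 0 → s ∈ T := by
  classical
  obtain ⟨T, hT⟩ := Nev0_exists h hw hr
  obtain ⟨T', hT'⟩ := Nev0_exists h hw' hr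
  exact ⟨T ∪ T', fun s h1 h2 h3 => Finset.mem_union_left _ (hT s h1 h2 h3),
    fun s h1 h2 h3 => Finset.mem_union_right _ (hT' s h1 h2 h3)⟩

theorem cnt_add {w w' : ℂ → ℝ} (h : R₁ < R₀) (hw : LocFin R₀ w) (hw' : LocFin R₀ w') {r : ℝ}
    (hr : 0 < r) : cnt (fun s => w s + w' s) R₁ r = cnt w R₁ r + cnt w' R₁ r := by
  obtain ⟨T, hT, hT'⟩ := Nev0_exists2 h hw hw' hr
  rw [cnt_eq_sum hT hr, cnt_eq_sum hT' hr, cnt_eq_sum (w := fun s => w s + w' s) (T := T) ?_ hr,
    ← Finset.sum_add_distrib]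
  · exact Finset.sum_congr rfl fun s _ => add_mul _ _ _
  · intro s h1 h2 h3
    by_cases h4 : w s = 0
    · refine hT' s h1 h2 fun h5 => h3 ?_
      rw [h4, h5, add_zero]
    · exact hT s h1 h2 h4

theorem cnt_mul {w : ℂ → ℝ} (c : ℝ) {r : ℝ} (h : R₁ < R₀) (hw : LocFin R₀ w) (hr : 0 < r) :
    cnt (fun s => c * w s) R₁ r = c * cnt w R₁ r := by
  obtain ⟨T, hT⟩ := Nev0_exists h hw hr
  rw [cnt_eq_sum hT hr, cnt_eq_sum (w := fun s => c * w s) (T := T) ?_ hr, Finset.mul_sum]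
  · exact Finset.sum_congr rfl fun s _ => mul_assoc _ _ _
  · intro s h1 h2 h3
    refine hT s h1 h2 fun h4 => h3 ?_
    rw [h4, mul_zero]

theorem cnt_mono {w w' : ℂ → ℝ} (h : R₁ < R₀) (hw : LocFin R₀ w) (hw' : LocFin R₀ w') {r : ℝ}
    (hr : 0 < r) (hle : ∀ s, r < ‖s‖ → ‖s‖ < R₁ → w s ≤ w' s) : cnt w R₁ r ≤ cnt w' R₁ r := by
  obtain ⟨T, hT, hT'⟩ := Nev0_exists2 h hw hw' hr
  rw [cnt_eq_sum hT hr, cnt_eq_sum hT' hr]
  refine Finset.sum_le_sum fun s hs => ?_
  obtain ⟨_, h1, h2⟩ := Finset.mem_filter.mp hs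
  refine mul_le_mul_of_nonneg_right (hle s h1 h2) (Real.log_nonneg ?_)
  rw [one_le_div hr]
  exact h1.le

theorem cnt_nonneg {w : ℂ → ℝ} {r : ℝ} (hr : 0 < r) (hw : ∀ s, 0 ≤ w s) : 0 ≤ cnt w R₁ r := by
  unfold cnt
  refine finsum_nonneg fun s => finsum_nonneg fun hs => ?_
  refine mul_nonneg (hw s) (Real.log_nonneg ?_)
  rw [one_le_div hr]
  exact hs.1.le

/-- change of the outer radius -/
theorem cnt_radius {w : ℂ → ℝ} {R₂ : ℝ} (h1 : 0 < R₁) (h12 : R₁ ≤ R₂) (h : R₂ < R₀)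
    (hw : LocFin R₀ w) :
    ∃ C : ℝ, ∀ x, Real.exp (-x) < R₁ →
      |cnt w R₂ (Real.exp (-x)) - cnt w R₁ (Real.exp (-x))| ≤ C * (1 + |x|) := by
  classical
  set T₀ : Finset ℂ := (hw R₁ R₂ h1 h).toFinset with hT₀
  refine ⟨∑ s ∈ T₀, |w s| * (|Real.log ‖s‖| + 1), fun x hx => ?_⟩
  have hr : 0 < Real.exp (-x) := Real.exp_pos _
  obtain ⟨T', hT'⟩ := Nev0_exists h hw hr
  set T : Finset ℂ := T' ∪ T₀ with hTdef
  have hT : ∀ s, Real.exp (-x) < ‖s‖ → ‖s‖ < R₂ → w s ≠ 0 → s ∈ T :=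
    fun s h3 h4 h5 => Finset.mem_union_left _ (hT' s h3 h4 h5)
  rw [cnt_eq_sum hT hr, cnt_eq_sum (R₁ := R₁) (T := T)
    (fun s h3 h4 h5 => hT s h3 (h4.trans_le h12) h5) hr, Finset.sum_filter, Finset.sum_filter,
    ← Finset.sum_sub_distrib]
  refine (Finset.abs_sum_le_sum_abs _ _).trans ?_
  have hsub : T₀ ⊆ T := Finset.subset_union_right
  have hz : ∀ s ∈ T, s ∉ T₀ →
      |(if Real.exp (-x) < ‖s‖ ∧ ‖s‖ < R₂ then w s * Real.log (‖s‖ / Real.exp (-x)) else 0) -
        (if Real.exp (-x) < ‖s‖ ∧ ‖s‖ < R₁ then w s * Real.log (‖s‖ / Real.exp (-x)) else 0)| =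
        0 := by
    intro s _ hs
    by_cases hws : w s = 0
    · simp [hws]
    by_cases hs1 : ‖s‖ < R₁
    · have hs2 : ‖s‖ < R₂ := hs1.trans_le h12
      simp [hs1, hs2]
    · by_cases hs2 : ‖s‖ < R₂
      · exact absurd ((hw R₁ R₂ h1 h).mem_toFinset.mpr ⟨not_lt.mp hs1, hs2.le, hws⟩) hs
      · simp [hs1, hs2]
  rw [← Finset.sum_subset hsub hz, Finset.sum_mul]
  refine Finset.sum_le_sum fun s hs => ?_
  obtain ⟨hs1, hs2, hs3⟩ := (hw R₁ R₂ h1 h).mem_toFinset.mp hs
  have hs0 : 0 < ‖s‖ := h1.trans_le hs1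
  have hb : |w s * Real.log (‖s‖ / Real.exp (-x))| ≤
      |w s| * (|Real.log ‖s‖| + 1) * (1 + |x|) := by
    rw [Real.log_div hs0.ne' hr.ne', Real.log_exp, sub_neg_eq_add, abs_mul, mul_assoc]
    refine mul_le_mul_of_nonneg_left ((abs_add_le _ _).trans ?_) (abs_nonneg _)
    have h4 := abs_nonneg (Real.log ‖s‖)
    have h5 := abs_nonneg x
    nlinarith [mul_nonneg h4 h5]
  have hnn : 0 ≤ |w s| * (|Real.log ‖s‖| + 1) * (1 + |x|) := by positivity
  have hns : ¬ (Real.exp (-x) < ‖s‖ ∧ ‖s‖ < R₁) := fun h6 => not_lt.mpr hs1 h6.2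
  rw [if_neg hns, sub_zero]
  split_ifs with h6
  · exact hb
  · rw [abs_zero]
    exact hnn

theorem MeroPunct.locFin {u : ℂ → ℂ} (hu : MeroPunct R₀ u) : LocFin R₀ (fun s => (ordZ u s : ℝ)) := by
  intro r b hr hb
  refine (finite_ordZ hr hb hu.mero).subset ?_
  rintro s ⟨h1, h2, h3⟩
  exact ⟨h1, h2, fun h => h3 (by change ((ordZ u s : ℤ) : ℝ) = 0; rw [h]; simp)⟩

theorem MeroPunct.jensen {u : ℂ → ℂ} (hu : MeroPunct R₀ u) (h1 : 0 < R₁) (h : R₁ < R₀) :
    ∃ A B : ℝ, ∀ x, Real.exp (-x) < R₁ →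
      mean (fun z => Real.log ‖u z‖) x = A + B * x + cnt (fun s => (ordZ u s : ℝ)) R₁ (Real.exp (-x)) := by
  classical
  obtain ⟨A, B, hAB⟩ := jensen_punctured h hu.mero hu.ord
  refine ⟨A, -B, fun x hx => ?_⟩
  have hr : 0 < Real.exp (-x) := Real.exp_pos _
  obtain ⟨T, hT⟩ := Nev0_exists h hu.locFin hr
  have hT' : ∀ s, Real.exp (-x) < ‖s‖ → ‖s‖ < R₁ → ordZ u s ≠ 0 →
      s ∈ T.filter (fun s => Real.exp (-x) < ‖s‖ ∧ ‖s‖ < R₁) := by
    intro s h3 h4 h5
    exact Finset.mem_filter.mpr ⟨hT s h3 h4 (by exact_mod_cast h5), h3, h4⟩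
  unfold mean
  rw [hAB (Real.exp (-x)) hr hx _ (fun s hs => (Finset.mem_filter.mp hs).2.2) hT',
    cnt_eq_sum hT hr, Real.log_exp]
  have e : ∀ s ∈ T.filter (fun s => Real.exp (-x) < ‖s‖ ∧ ‖s‖ < R₁),
      (ordZ u s : ℝ) * Real.posLog (‖s‖ / Real.exp (-x)) =
      (ordZ u s : ℝ) * Real.log (‖s‖ / Real.exp (-x)) := by
    intro s hs
    have h3 := (Finset.mem_filter.mp hs).2.1
    have h4 : 1 ≤ |‖s‖ / Real.exp (-x)| := by
      rw [abs_of_nonneg (by positivity), one_le_div hr]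
      exact h3.le
    rw [Real.posLog_eq_log h4]
  rw [Finset.sum_congr rfl e]
  ring

private theorem Nev0_mem {u : ℂ → ℂ} (hu : MeroPunct R₀ u) {x : ℝ} (hx : Real.exp (-x) < R₀) :
    MeromorphicOn u (Metric.sphere 0 |Real.exp (-x)|) := by
  intro z hz
  rw [mem_sphere_zero_iff_norm, abs_of_pos (Real.exp_pos _)] at hz
  exact hu.mero z (by rw [hz]; exact Real.exp_pos _) (by rw [hz]; exact hx)

theorem MeroPunct.circleIntegrable_log {u : ℂ → ℂ} (hu : MeroPunct R₀ u) {x : ℝ}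
    (hx : Real.exp (-x) < R₀) : CircleIntegrable (fun z => Real.log ‖u z‖) 0 (Real.exp (-x)) :=
  (Nev0_mem hu hx).circleIntegrable_log_norm

theorem MeroPunct.circleIntegrable_posLog {u : ℂ → ℂ} (hu : MeroPunct R₀ u) {x : ℝ}
    (hx : Real.exp (-x) < R₀) : CircleIntegrable (fun z => Real.posLog ‖u z‖) 0 (Real.exp (-x)) :=
  (Nev0_mem hu hx).circleIntegrable_posLog_norm

theorem MeroPunct.mul {u v : ℂ → ℂ} (hu : MeroPunct R₀ u) (hv : MeroPunct R₀ v) :
    MeroPunct R₀ (fun z => u z * v z) where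
  mero z h1 h2 := (hu.mero z h1 h2).mul (hv.mero z h1 h2)
  ord z h1 h2 := by
    have e : meromorphicOrderAt (fun z => u z * v z) z =
        meromorphicOrderAt u z + meromorphicOrderAt v z :=
      meromorphicOrderAt_mul (hu.mero z h1 h2) (hv.mero z h1 h2)
    rw [e]
    exact WithTop.add_ne_top.mpr ⟨hu.ord z h1 h2, hv.ord z h1 h2⟩

private theorem Nev0_ord_inv (u : ℂ → ℂ) (z : ℂ) :
    meromorphicOrderAt (fun z => (u z)⁻¹) z = -meromorphicOrderAt u z :=
  meromorphicOrderAt_inv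

theorem MeroPunct.inv {u : ℂ → ℂ} (hu : MeroPunct R₀ u) : MeroPunct R₀ (fun z => (u z)⁻¹) where
  mero z h1 h2 := (hu.mero z h1 h2).inv
  ord z h1 h2 := by
    rw [Nev0_ord_inv]
    intro h
    have h3 := hu.ord z h1 h2
    obtain ⟨k, hk⟩ := WithTop.ne_top_iff_exists.mp h3
    rw [← hk] at h
    exact absurd h (by exact WithTop.coe_ne_top (a := -k))

private theorem Nev0_ordZ_inv {u : ℂ → ℂ} {z : ℂ} (h : meromorphicOrderAt u z ≠ ⊤) :
    ordZ (fun z => (u z)⁻¹) z = -ordZ u z := by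
  unfold Pool.Agent.H92.GGL.ordZ
  rw [Nev0_ord_inv]
  obtain ⟨k, hk⟩ := WithTop.ne_top_iff_exists.mp h
  rw [← hk]
  have e : -((k : ℤ) : WithTop ℤ) = ((-k : ℤ) : WithTop ℤ) := rfl
  rw [e, WithTop.untop₀_coe, WithTop.untop₀_coe]

theorem nevT_nonneg (u : ℂ → ℂ) (R₁ x : ℝ) : 0 ≤ nevT u R₁ x := by
  unfold nevT mean
  refine add_nonneg (Real.circleAverage_nonneg_of_nonneg fun z _ => Real.posLog_nonneg)
    (cnt_nonneg (Real.exp_pos _) fun s => le_max_right _ _)

private theorem Nev0_locFin_comp {w : ℂ → ℝ} (hw : LocFin R₀ w) {f : ℝ → ℝ} (hf : f 0 = 0) :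
    LocFin R₀ (fun s => f (w s)) := by
  intro r b hr hb
  refine (hw r b hr hb).subset ?_
  rintro s ⟨h1, h2, h3⟩
  refine ⟨h1, h2, fun h => h3 ?_⟩
  change f (w s) = 0
  rw [h, hf]

private theorem Nev0_cnt_congr {w w' : ℂ → ℝ} {r : ℝ}
    (hle : ∀ s, r < ‖s‖ → ‖s‖ < R₁ → w s = w' s) : cnt w R₁ r = cnt w' R₁ r := by
  unfold cnt
  refine finsum_congr fun s => finsum_congr fun hs => ?_
  rw [hle s hs.1 hs.2]

/-- the characteristic function of the inverse -/
private theorem Nev0_inv {u : ℂ → ℂ} (hu : MeroPunct R₀ u) (h : R₁ < R₀) {x : ℝ}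
    (hx : Real.exp (-x) < R₁) :
    nevT (fun z => (u z)⁻¹) R₁ x = mean (fun z => Real.posLog ‖u z‖⁻¹) x +
      cnt (fun s => max (ordZ u s : ℝ) 0) R₁ (Real.exp (-x)) := by
  unfold nevT
  congr 1
  · congr 1
    funext z
    rw [norm_inv]
  · refine Nev0_cnt_congr fun s h1 h2 => ?_
    rw [Nev0_ordZ_inv (hu.ord s ((Real.exp_pos _).trans h1) (h2.trans h))]
    push_cast
    rw [neg_neg]

/-- first main theorem for `0` and `∞` -/
theorem MeroPunct.nevT_inv {u : ℂ → ℂ} (hu : MeroPunct R₀ u) (h1 : 0 < R₁) (h : R₁ < R₀) :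
    ∃ C : ℝ, ∀ x, Real.exp (-x) < R₁ →
      |nevT (fun z => (u z)⁻¹) R₁ x - nevT u R₁ x| ≤ C * (1 + |x|) := by
  obtain ⟨A, B, hAB⟩ := hu.jensen h1 h
  refine ⟨|A| + |B|, fun x hx => ?_⟩
  have hr : 0 < Real.exp (-x) := Real.exp_pos _
  have hx0 : Real.exp (-x) < R₀ := hx.trans h
  have hJ := hAB x hx
  have e1 : mean (fun z => Real.log ‖u z‖) x = mean (fun z => Real.posLog ‖u z‖) x -
      mean (fun z => Real.posLog ‖u z‖⁻¹) x := by
    unfold mean
    rw [← Real.circleAverage_fun_sub (hu.circleIntegrable_posLog hx0)]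
    · congr 1
      funext z
      rw [Real.posLog_sub_posLog_inv]
    · have := hu.inv.circleIntegrable_posLog hx0
      simpa only [norm_inv] using this
  have e2 : cnt (fun s => max (ordZ u s : ℝ) 0) R₁ (Real.exp (-x)) =
      cnt (fun s => (ordZ u s : ℝ)) R₁ (Real.exp (-x)) +
      cnt (fun s => max (-(ordZ u s : ℝ)) 0) R₁ (Real.exp (-x)) := by
    rw [← cnt_add h hu.locFin (Nev0_locFin_comp (f := fun t => max (-t) 0) hu.locFin (by simp)) hr]
    refine Nev0_cnt_congr fun s _ _ => ?_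
    rcases le_total (ordZ u s : ℝ) 0 with h3 | h3
    · rw [max_eq_right h3, max_eq_left (neg_nonneg.mpr h3), add_neg_cancel]
    · rw [max_eq_left h3, max_eq_right (neg_nonpos.mpr h3), add_zero]
  have e3 : nevT (fun z => (u z)⁻¹) R₁ x - nevT u R₁ x = -(A + B * x) := by
    rw [Nev0_inv hu h hx, nevT, e2]
    rw [e1] at hJ
    linarith
  rw [e3, abs_neg]
  have h4 := abs_nonneg A
  have h5 := abs_nonneg B
  have h6 := abs_nonneg x
  calc |A + B * x| ≤ |A| + |B * x| := abs_add_le _ _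
    _ = |A| + |B| * |x| := by rw [abs_mul]
    _ ≤ (|A| + |B|) * (1 + |x|) := by nlinarith [mul_nonneg h4 h6]

/-- the mean of `|log |u||` and the number of zeros and poles -/
theorem MeroPunct.mean_abs_add_cnt {u : ℂ → ℂ} (hu : MeroPunct R₀ u) (h1 : 0 < R₁) (h : R₁ < R₀) :
    ∃ C : ℝ, ∀ x, Real.exp (-x) < R₁ →
      mean (fun z => |Real.log ‖u z‖|) x + cnt (fun s => |(ordZ u s : ℝ)|) R₁ (Real.exp (-x)) ≤
        2 * nevT u R₁ x + C * (1 + |x|) := by
  obtain ⟨C, hC⟩ := hu.nevT_inv h1 h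
  refine ⟨C, fun x hx => ?_⟩
  have hr : 0 < Real.exp (-x) := Real.exp_pos _
  have hx0 : Real.exp (-x) < R₀ := hx.trans h
  have e1 : mean (fun z => |Real.log ‖u z‖|) x = mean (fun z => Real.posLog ‖u z‖) x +
      mean (fun z => Real.posLog ‖u z‖⁻¹) x := by
    unfold mean
    rw [← Real.circleAverage_fun_add (hu.circleIntegrable_posLog hx0)]
    · congr 1
      funext z
      have h2 := Real.half_mul_log_add_log_abs (x := ‖u z‖)
      have h3 := Real.posLog_sub_posLog_inv (x := ‖u z‖)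
      linarith
    · have := hu.inv.circleIntegrable_posLog hx0
      simpa only [norm_inv] using this
  have e2 : cnt (fun s => |(ordZ u s : ℝ)|) R₁ (Real.exp (-x)) =
      cnt (fun s => max (ordZ u s : ℝ) 0) R₁ (Real.exp (-x)) +
      cnt (fun s => max (-(ordZ u s : ℝ)) 0) R₁ (Real.exp (-x)) := by
    rw [← cnt_add h (Nev0_locFin_comp (f := fun t => max t 0) hu.locFin (by simp))
      (Nev0_locFin_comp (f := fun t => max (-t) 0) hu.locFin (by simp)) hr]
    refine Nev0_cnt_congr fun s _ _ => ?_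
    rcases le_total (ordZ u s : ℝ) 0 with h3 | h3
    · rw [max_eq_right h3, max_eq_left (neg_nonneg.mpr h3), zero_add, abs_of_nonpos h3]
    · rw [max_eq_left h3, max_eq_right (neg_nonpos.mpr h3), add_zero, abs_of_nonneg h3]
  have h2 := (abs_le.mp (hC x hx)).2
  have e3 : mean (fun z => |Real.log ‖u z‖|) x +
      cnt (fun s => |(ordZ u s : ℝ)|) R₁ (Real.exp (-x)) =
      nevT u R₁ x + nevT (fun z => (u z)⁻¹) R₁ x := by
    rw [e1, e2, Nev0_inv hu h hx, nevT]
    ring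
  rw [e3]
  linarith

end Pool.Agent.H62.FC

end
end
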