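import Pool.Agent.H94.G4T.H36.BP.Defs_1
import Pool.Agent.H94.G4T.M35
import Pool.Agent.H94.G4T.M45
import Pool.Agent.H94.G4T.M64

/-! The parts of this file: H13.CV.CubB, H13.CV.CubI, H62.FC.LogDeriv, H62.FC.Wronsk, H92.GGL.NevMero, H62.FC.CharMero. -/

section

/-!
# CV CubB: discs in a cubic

`Dsc α β l F`: `F` is a holomorphic disc in the cone, `l` is continuous and nowhere zero, and `F × F' = l • gr F`.
`Dsc.dbl`: `G z = dbl (F z)`, `G' = ddbl (F z) (F' z)` (chain rule, polynomial).  `G z ∈ Cub` by `cub_dbl`, `dbl_ne`.  The identity `cr (G z) (G' z) = 2 l z • gr (G z)` holds where `F₁ F₂ ≠ 0` (`cross_dbl`).  Both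
sides are continuous in `z` (on the ball), so it suffices that the zeros of `F₁` and `F₂` are isolated.  If `F₂ = 0` near a point `z₀` then `F₀ = 0` near `z₀` (`cub = 0`), so `F × F' = 0`, contradiction to
`l ≠ 0`, `gr_ne`.  If `F₁ = 0` near `z₀`, then `F₁' = 0` and the components `0` and `2` of `F × F'` are `F₁ F₂' - F₂ F₁' = 0` and `F₀ F₁' - F₁ F₀' = 0`, and component `1` of `gr F` is `2 F₁ F₂ = 0`; so
`l • gr F = 0`: contradiction.  (`AnalyticAt.eventually_eq_zero_or_eventually_ne_zero`.)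
-/

set_option autoImplicit false

open Topology Filter Metric
open Pool.Agent.H36.BP

noncomputable section

namespace Pool.Agent.H13.CV

attribute [-instance] ProperSMul.toContinuousSMul

/-- a holomorphic disc in the cone of the cubic with `F × F' = l • gr F`, `l` continuous without zeros -/
structure Dsc (α β : ℂ) (l : ℂ → ℂ) (F : ℂ → EN 2) : Prop where
  curve : Curve (Cub α β) (ball 0 1) F
  cont : ContinuousOn l (ball 0 1)
  ne : ∀ z ∈ ball (0 : ℂ) 1, l z ≠ 0
  eq : ∀ z ∈ ball (0 : ℂ) 1, cr (F z).ofLp (deriv F z : EN 2).ofLp = l z • gr α β (F z).ofLp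

private theorem CubB_coord {F : ℂ → EN 2} {F' : EN 2} {z : ℂ} (h : HasDerivAt F F' z) (i : Fin 3) :
    HasDerivAt (fun z => (F z).ofLp i) (F'.ofLp i) z := by
  have h1 := (PiLp.proj 2 (fun _ : Fin 3 => ℂ) i : EN 2 →L[ℂ] ℂ).hasFDerivAt (x := F z)
  exact h1.comp_hasDerivAt z h

private theorem CubB_toLp {G : ℂ → Fin 3 → ℂ} {G' : Fin 3 → ℂ} {z : ℂ} (h : ∀ i, HasDerivAt (fun z => G z i) (G' i) z) :
    HasDerivAt (fun z => (WithLp.toLp 2 (G z) : EN 2)) (WithLp.toLp 2 G') z := by
  have h1 : HasDerivAt G G' z := hasDerivAt_pi.2 h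
  have h2 := ((PiLp.continuousLinearEquiv 2 ℂ (fun _ : Fin 3 => ℂ)).symm : (Fin 3 → ℂ) →L[ℂ] EN 2).hasFDerivAt (x := G z)
  exact h2.comp_hasDerivAt z h1

theorem Dsc.dbl {α β : ℂ} (hd : α ^ 3 ≠ 27 * β ^ 2) {l : ℂ → ℂ} {F : ℂ → EN 2} (h : Dsc α β l F) :
    Dsc α β (fun z => 2 * l z) (fun z => WithLp.toLp 2 (CV.dbl α β (F z).ofLp)) := by
  have hop : IsOpen (ball (0 : ℂ) 1) := isOpen_ball
  obtain ⟨hFd, hFK⟩ := h.curve
  have hder : ∀ z ∈ ball (0 : ℂ) 1, ∀ i, HasDerivAt (fun z => (F z).ofLp i) ((deriv F z : EN 2).ofLp i) z :=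
    fun z hz i => CubB_coord ((hFd.differentiableAt (hop.mem_nhds hz)).hasDerivAt) i
  have hfd : ∀ i, DifferentiableOn ℂ (fun z => (F z).ofLp i) (ball 0 1) :=
    fun i z hz => (hder z hz i).differentiableAt.differentiableWithinAt
  have hfa : ∀ i, ∀ z ∈ ball (0 : ℂ) 1, AnalyticAt ℂ (fun z => (F z).ofLp i) z :=
    fun i z hz => (hfd i).analyticAt (hop.mem_nhds hz)
  have hG : ∀ z ∈ ball (0 : ℂ) 1, HasDerivAt (fun z => (WithLp.toLp 2 (CV.dbl α β (F z).ofLp) : EN 2))
      (WithLp.toLp 2 (ddbl α β (F z).ofLp (deriv F z : EN 2).ofLp)) z := by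
    intro z hz
    refine CubB_toLp fun i => ?_
    have h0 := hder z hz 0
    have h1 := hder z hz 1
    have h2 := hder z hz 2
    fin_cases i
    · have e := h1.mul ((((h0.mul (h1.pow 2)).const_mul 8).add (((h0.pow 2).mul h2).const_mul (24 * α))).add
        ((((h0.mul (h2.pow 2)).const_mul (72 * β))).add ((h2.pow 3).const_mul (2 * α ^ 2))))
      refine (e.congr_of_eventuallyEq (Filter.Eventually.of_forall fun w => ?_)).congr_deriv ?_
      · show (F w).ofLp 1 * (8 * (F w).ofLp 0 * (F w).ofLp 1 ^ 2 + 24 * α * (F w).ofLp 0 ^ 2 * (F w).ofLp 2 + 72 * β * (F w).ofLp 0 * (F w).ofLp 2 ^ 2 + 2 * α ^ 2 * (F w).ofLp 2 ^ 3) = _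
        simp only [Pi.mul_apply, Pi.add_apply, Pi.pow_apply]
        ring
      · simp only [ddbl, Pi.mul_apply, Pi.add_apply, Pi.pow_apply, Fin.zero_eta, Matrix.cons_val_zero]
        push_cast
        ring
    · have e := ((((h1.pow 4).const_mul 4).sub (((h0.mul (h1.pow 2)).mul h2).const_mul (12 * α))).sub
        (((h1.pow 2).mul (h2.pow 2)).const_mul (72 * β))).sub ((((h0.pow 2).mul (h2.pow 2)).const_mul (36 * α ^ 2)).add
          (((h0.mul (h2.pow 3)).const_mul (108 * α * β)).sub ((h2.pow 4).const_mul (α ^ 3 - 108 * β ^ 2))))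
      refine (e.congr_of_eventuallyEq (Filter.Eventually.of_forall fun w => ?_)).congr_deriv ?_
      · show 4 * (F w).ofLp 1 ^ 4 - 12 * α * (F w).ofLp 0 * (F w).ofLp 1 ^ 2 * (F w).ofLp 2 - 72 * β * (F w).ofLp 1 ^ 2 * (F w).ofLp 2 ^ 2 - 36 * α ^ 2 * (F w).ofLp 0 ^ 2 * (F w).ofLp 2 ^ 2
          - 108 * α * β * (F w).ofLp 0 * (F w).ofLp 2 ^ 3 + (α ^ 3 - 108 * β ^ 2) * (F w).ofLp 2 ^ 4 = _
        simp only [Pi.mul_apply, Pi.add_apply, Pi.sub_apply, Pi.pow_apply]
        ring
      · simp only [ddbl, Pi.mul_apply, Pi.pow_apply, Fin.mk_one, Matrix.cons_val_one, Matrix.cons_val_zero]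
        push_cast
        ring
    · have e := ((h1.pow 3).mul h2).const_mul 32
      refine (e.congr_of_eventuallyEq (Filter.Eventually.of_forall fun w => ?_)).congr_deriv ?_
      · show 32 * (F w).ofLp 1 ^ 3 * (F w).ofLp 2 = _
        simp only [Pi.mul_apply, Pi.pow_apply]
        ring
      · show _ = 32 * (3 * (F z).ofLp 1 ^ 2 * (deriv F z : EN 2).ofLp 1 * (F z).ofLp 2 + (F z).ofLp 1 ^ 3 * (deriv F z : EN 2).ofLp 2)
        simp only [Pi.pow_apply]
        push_cast
        ring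
  have hGd : ∀ z ∈ ball (0 : ℂ) 1, deriv (fun z => (WithLp.toLp 2 (CV.dbl α β (F z).ofLp) : EN 2)) z
      = WithLp.toLp 2 (ddbl α β (F z).ofLp (deriv F z : EN 2).ofLp) := fun z hz => (hG z hz).deriv
  have hF0 : ∀ z ∈ ball (0 : ℂ) 1, (F z).ofLp ≠ 0 ∧ cub α β (F z).ofLp = 0 := by
    intro z hz
    obtain ⟨h1, h2⟩ := hFK z hz
    refine ⟨fun h3 => h1 ?_, h2⟩
    ext i
    exact congrFun h3 i
  -- the first coordinate is not eventually zero
  have hn1 : ∀ z ∈ ball (0 : ℂ) 1, ¬ ∀ᶠ w in 𝓝 z, (F w).ofLp 1 = 0 := by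
    intro z hz he
    have e1 : (deriv F z : EN 2).ofLp 1 = 0 := by
      rw [← (hder z hz 1).deriv]
      have : (fun w => (F w).ofLp 1) =ᶠ[𝓝 z] fun _ => (0 : ℂ) := he
      rw [this.deriv_eq]
      simp
    have e2 : (F z).ofLp 1 = 0 := he.self_of_nhds
    have e3 := h.eq z hz
    apply gr_ne hd (hF0 z hz).1 (hF0 z hz).2
    have hl := h.ne z hz
    have e4 : l z • gr α β (F z).ofLp = 0 := by
      rw [← e3]
      ext i
      have e5 := congrFun e3 1
      fin_cases i
      · show (F z).ofLp 1 * (deriv F z : EN 2).ofLp 2 - (F z).ofLp 2 * (deriv F z : EN 2).ofLp 1 = 0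
        rw [e1, e2]; ring
      · have e6 : (gr α β (F z).ofLp) 1 = 2 * (F z).ofLp 1 * (F z).ofLp 2 := rfl
        show cr (F z).ofLp (deriv F z : EN 2).ofLp 1 = 0
        rw [e5]
        show l z * (gr α β (F z).ofLp) 1 = 0
        rw [e6, e2]; ring
      · show (F z).ofLp 0 * (deriv F z : EN 2).ofLp 1 - (F z).ofLp 1 * (deriv F z : EN 2).ofLp 0 = 0
        rw [e1, e2]; ring
    exact (smul_eq_zero.1 e4).resolve_left hl
  have hn2 : ∀ z ∈ ball (0 : ℂ) 1, ¬ ∀ᶠ w in 𝓝 z, (F w).ofLp 2 = 0 := by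
    intro z hz he
    have e1 : (deriv F z : EN 2).ofLp 2 = 0 := by
      rw [← (hder z hz 2).deriv]
      have : (fun w => (F w).ofLp 2) =ᶠ[𝓝 z] fun _ => (0 : ℂ) := he
      rw [this.deriv_eq]
      simp
    have he0 : ∀ᶠ w in 𝓝 z, (F w).ofLp 0 = 0 := by
      filter_upwards [he, hop.mem_nhds hz] with w hw hwb
      have e := (hF0 w hwb).2
      simp only [cub, hw] at e
      have : (F w).ofLp 0 ^ 3 = 0 := by linear_combination (-1 / 4) * e
      exact pow_eq_zero_iff (by norm_num) |>.1 this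
    have e1' : (deriv F z : EN 2).ofLp 0 = 0 := by
      rw [← (hder z hz 0).deriv]
      have : (fun w => (F w).ofLp 0) =ᶠ[𝓝 z] fun _ => (0 : ℂ) := he0
      rw [this.deriv_eq]
      simp
    have e2 : (F z).ofLp 2 = 0 := he.self_of_nhds
    have e2' : (F z).ofLp 0 = 0 := he0.self_of_nhds
    have e3 := h.eq z hz
    apply gr_ne hd (hF0 z hz).1 (hF0 z hz).2
    have hl := h.ne z hz
    have e4 : l z • gr α β (F z).ofLp = 0 := by
      rw [← e3]
      ext i
      fin_cases i
      · show (F z).ofLp 1 * (deriv F z : EN 2).ofLp 2 - (F z).ofLp 2 * (deriv F z : EN 2).ofLp 1 = 0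
        rw [e1, e2]; ring
      · show (F z).ofLp 2 * (deriv F z : EN 2).ofLp 0 - (F z).ofLp 0 * (deriv F z : EN 2).ofLp 2 = 0
        rw [e1, e2]; ring
      · show (F z).ofLp 0 * (deriv F z : EN 2).ofLp 1 - (F z).ofLp 1 * (deriv F z : EN 2).ofLp 0 = 0
        rw [e1', e2']; ring
    exact (smul_eq_zero.1 e4).resolve_left hl
  have hK : ∀ z ∈ ball (0 : ℂ) 1, (WithLp.toLp 2 (CV.dbl α β (F z).ofLp) : EN 2) ∈ Cub α β := by
    intro z hz
    refine ⟨fun h0 => ?_, cub_dbl (hF0 z hz).2⟩
    apply dbl_ne hd (hF0 z hz).1 (hF0 z hz).2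
    have := congrArg WithLp.ofLp h0
    simpa using this
  refine ⟨⟨fun z hz => (hG z hz).differentiableAt.differentiableWithinAt, hK⟩, continuousOn_const.mul h.cont, fun z hz => mul_ne_zero two_ne_zero (h.ne z hz), ?_⟩
  -- continuity
  have hcF : ∀ i, ContinuousOn (fun z => (F z).ofLp i) (ball 0 1) := fun i => (hfd i).continuousOn
  have hcF' : ∀ i, ContinuousOn (fun z => (deriv F z : EN 2).ofLp i) (ball 0 1) := by
    intro i
    have h1 : ContinuousOn (deriv fun z => (F z).ofLp i) (ball 0 1) := ((hfd i).deriv hop).continuousOn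
    refine h1.congr fun z hz => ?_
    exact (hder z hz i).deriv.symm
  intro z hz
  rw [hGd z hz]
  show cr (CV.dbl α β (F z).ofLp) (ddbl α β (F z).ofLp (deriv F z : EN 2).ofLp) = (2 * l z) • gr α β (CV.dbl α β (F z).ofLp)
  have hev : ∀ᶠ w in 𝓝[≠] z, cr (CV.dbl α β (F w).ofLp) (ddbl α β (F w).ofLp (deriv F w : EN 2).ofLp) = (2 * l w) • gr α β (CV.dbl α β (F w).ofLp) := by
    have k1 := ((hfa 1 z hz).eventually_eq_zero_or_eventually_ne_zero).resolve_left (hn1 z hz)
    have k2 := ((hfa 2 z hz).eventually_eq_zero_or_eventually_ne_zero).resolve_left (hn2 z hz)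
    filter_upwards [k1, k2, mem_nhdsWithin_of_mem_nhds (hop.mem_nhds hz)] with w h1 h2 hw
    exact cross_dbl (hF0 w hw).2 (mul_ne_zero h1 h2) (h.eq w hw)
  have hc0 : ∀ i, ContinuousAt (fun z => (F z).ofLp i) z := fun i => (hcF i).continuousAt (hop.mem_nhds hz)
  have hc0' : ∀ i, ContinuousAt (fun z => (deriv F z : EN 2).ofLp i) z := fun i => (hcF' i).continuousAt (hop.mem_nhds hz)
  have hcl : ContinuousAt l z := h.cont.continuousAt (hop.mem_nhds hz)
  have a0 := hc0 0
  have a1 := hc0 1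
  have a2 := hc0 2
  have b0 := hc0' 0
  have b1 := hc0' 1
  have b2 := hc0' 2
  have hL : ContinuousAt (fun w => cr (CV.dbl α β (F w).ofLp) (ddbl α β (F w).ofLp (deriv F w : EN 2).ofLp)) z := by
    refine continuousAt_pi.2 fun i => ?_
    fin_cases i <;> simp only [cr, CV.dbl, ddbl, Fin.zero_eta, Fin.mk_one, Fin.reduceFinMk, Matrix.cons_val_zero, Matrix.cons_val_one, Matrix.cons_val] <;> fun_prop
  have hR : ContinuousAt (fun w => (2 * l w) • gr α β (CV.dbl α β (F w).ofLp)) z := by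
    refine continuousAt_pi.2 fun i => ?_
    fin_cases i <;> simp only [gr, CV.dbl, Pi.smul_apply, smul_eq_mul, Fin.zero_eta, Fin.mk_one, Fin.reduceFinMk, Matrix.cons_val_zero, Matrix.cons_val_one, Matrix.cons_val] <;> fun_prop
  have t1 := hL.tendsto.mono_left (nhdsWithin_le_nhds (s := {z}ᶜ))
  have t2 := hR.tendsto.mono_left (nhdsWithin_le_nhds (s := {z}ᶜ))
  exact tendsto_nhds_unique_of_eventuallyEq t1 t2 hev

end Pool.Agent.H13.CV

end
end

section

/-!
# CV CubI: a disc in the cubic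

`exists_disc`: let `u₀` with `4 u₀³ - α u₀ - β = 1` (`IsAlgClosed`).  `s z = exp (log (4 (u₀ + z)³ - α (u₀ + z) - β) / 2)` (principal branch) is holomorphic for `|z| < r` (there the argument is in the slit plane), nowhere
zero, `s² = 4 (u₀ + z)³ - …`.  `F z = (u₀ + r z, s (r z), 1)` on the unit disc (`r > 0` small), `F' = (r, r s', 0)`, `2 s s' = 12 (u₀ + r z)² - α`; `F × F' = (- r s', r, …)`, `gr F = (- (12 u² - α), 2 s, …)`, so
`l = r / (2 s)`; the third component: `u s' r - s r = l (s² + 2 α u + 3 β)`: use `s² = 4 u³ - α u - β`.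
-/

set_option autoImplicit false

open Topology Filter Metric
open Pool.Agent.H36.BP

noncomputable section

namespace Pool.Agent.H13.CV

private theorem CubI_root (α β : ℂ) : ∃ u : ℂ, 4 * u ^ 3 - α * u - β = 1 := by
  have h : ∃ z : ℂ, (Polynomial.C 4 * Polynomial.X ^ 3 - Polynomial.C α * Polynomial.X - Polynomial.C (β + 1) : Polynomial ℂ).IsRoot z := by
    apply Complex.exists_root
    have : (Polynomial.C 4 * Polynomial.X ^ 3 - Polynomial.C α * Polynomial.X - Polynomial.C (β + 1) : Polynomial ℂ).degree = 3 := by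
      compute_degree!
    rw [this]
    norm_num
  obtain ⟨z, hz⟩ := h
  refine ⟨z, ?_⟩
  simp only [Polynomial.IsRoot.def, Polynomial.eval_sub, Polynomial.eval_mul, Polynomial.eval_C, Polynomial.eval_pow, Polynomial.eval_X] at hz
  linear_combination hz

private theorem CubI_toLp {G : ℂ → Fin 3 → ℂ} {G' : Fin 3 → ℂ} {z : ℂ} (h : ∀ i, HasDerivAt (fun z => G z i) (G' i) z) :
    HasDerivAt (fun z => (WithLp.toLp 2 (G z) : EN 2)) (WithLp.toLp 2 G') z := by
  have h1 : HasDerivAt G G' z := hasDerivAt_pi.2 h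
  have h2 := ((PiLp.continuousLinearEquiv 2 ℂ (fun _ : Fin 3 => ℂ)).symm : (Fin 3 → ℂ) →L[ℂ] EN 2).hasFDerivAt (x := G z)
  exact h2.comp_hasDerivAt z h1

theorem exists_disc (α β : ℂ) : ∃ (l : ℂ → ℂ) (F : ℂ → EN 2), Dsc α β l F := by
  obtain ⟨u₀, hu₀⟩ := CubI_root α β
  set p : ℂ → ℂ := fun u => 4 * u ^ 3 - α * u - β with hp
  have hpc : Continuous p := by fun_prop
  -- a small radius
  have h1 : ∀ᶠ u in 𝓝 u₀, p u ∈ Complex.slitPlane := by
    have : p u₀ ∈ Complex.slitPlane := by
      show 4 * u₀ ^ 3 - α * u₀ - β ∈ Complex.slitPlane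
      rw [hu₀]
      exact Complex.one_mem_slitPlane
    exact hpc.continuousAt.eventually (Complex.isOpen_slitPlane.mem_nhds this)
  obtain ⟨r, hr, hb⟩ := Metric.eventually_nhds_iff_ball.1 h1
  set u : ℂ → ℂ := fun z => u₀ + r * z with hu
  set s : ℂ → ℂ := fun z => Complex.exp (Complex.log (p (u z)) / 2) with hs
  have hr0 : (r : ℂ) ≠ 0 := by exact_mod_cast hr.ne'
  have hus : ∀ z ∈ ball (0 : ℂ) 1, p (u z) ∈ Complex.slitPlane := by
    intro z hz
    apply hb
    rw [mem_ball_zero_iff] at hz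
    rw [mem_ball, dist_eq_norm]
    simp only [hu, add_sub_cancel_left, norm_mul, Complex.norm_real, Real.norm_eq_abs, abs_of_pos hr]
    nlinarith
  have hs2 : ∀ z ∈ ball (0 : ℂ) 1, s z ^ 2 = p (u z) := by
    intro z hz
    simp only [hs]
    rw [← Complex.exp_nat_mul]
    have : ((2 : ℕ) : ℂ) * (Complex.log (p (u z)) / 2) = Complex.log (p (u z)) := by push_cast; ring
    rw [this, Complex.exp_log (Complex.slitPlane_ne_zero (hus z hz))]
  have hsn : ∀ z, s z ≠ 0 := fun z => Complex.exp_ne_zero _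
  have hud : ∀ z, HasDerivAt u r z := by
    intro z
    have := ((hasDerivAt_id z).const_mul (r : ℂ)).const_add u₀
    rw [mul_one] at this
    exact this
  have hsd : ∀ z ∈ ball (0 : ℂ) 1, HasDerivAt s ((12 * u z ^ 2 - α) * r / (2 * s z)) z := by
    intro z hz
    have e1 : HasDerivAt (fun w => p (u w)) ((12 * u z ^ 2 - α) * r) z := by
      have := ((((hud z).pow 3).const_mul 4).sub ((hud z).const_mul α)).sub_const β
      refine this.congr_deriv ?_
      push_cast
      ring
    have e2 := ((e1.clog (hus z hz)).div_const 2).cexp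
    refine e2.congr_deriv ?_
    have e3 : Complex.exp (Complex.log (p (u z)) / 2) = s z := rfl
    rw [e3]
    have e4 := hs2 z hz
    have e5 := hsn z
    rw [← e4]
    field_simp
  refine ⟨fun z => r / (2 * s z), fun z => WithLp.toLp 2 ![u z, s z, 1], ?_⟩
  have hF : ∀ z ∈ ball (0 : ℂ) 1, HasDerivAt (fun z => (WithLp.toLp 2 ![u z, s z, 1] : EN 2))
      (WithLp.toLp 2 ![(r : ℂ), (12 * u z ^ 2 - α) * r / (2 * s z), 0]) z := by
    intro z hz
    refine CubI_toLp fun i => ?_
    fin_cases i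
    · exact hud z
    · exact hsd z hz
    · exact hasDerivAt_const z (1 : ℂ)
  have hsc : ContinuousOn s (ball 0 1) := fun z hz => (hsd z hz).continuousAt.continuousWithinAt
  refine ⟨⟨fun z hz => (hF z hz).differentiableAt.differentiableWithinAt, fun z hz => ⟨fun h0 => ?_, ?_⟩⟩, ?_, fun z hz => ?_, fun z hz => ?_⟩
  · have := congrFun (congrArg WithLp.ofLp h0) 2
    exact one_ne_zero (α := ℂ) this
  · show s z ^ 2 * 1 - 4 * u z ^ 3 + α * u z * 1 ^ 2 + β * 1 ^ 3 = 0
    rw [hs2 z hz]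
    show (4 * u z ^ 3 - α * u z - β) * 1 - 4 * u z ^ 3 + α * u z * 1 ^ 2 + β * 1 ^ 3 = 0
    ring
  · exact continuousOn_const.div (continuousOn_const.mul hsc) fun z _ => mul_ne_zero two_ne_zero (hsn z)
  · exact div_ne_zero hr0 (mul_ne_zero two_ne_zero (hsn z))
  · rw [(hF z hz).deriv]
    have e4 : s z ^ 2 = 4 * u z ^ 3 - α * u z - β := hs2 z hz
    have e5 := hsn z
    ext i
    fin_cases i
    · show s z * 0 - 1 * ((12 * u z ^ 2 - α) * r / (2 * s z)) = r / (2 * s z) * (-12 * u z ^ 2 + α * 1 ^ 2)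
      field_simp
      ring
    · show 1 * (r : ℂ) - u z * 0 = r / (2 * s z) * (2 * s z * 1)
      field_simp
      ring
    · show u z * ((12 * u z ^ 2 - α) * r / (2 * s z)) - s z * r = r / (2 * s z) * (s z ^ 2 + 2 * α * u z * 1 + 3 * β * 1 ^ 2)
      field_simp
      linear_combination (-3) * e4

end Pool.Agent.H13.CV

end
end

section

/-!
# The lemma on the logarithmic derivative at a puncture
-/

open Filter Topology MeasureTheory
open Pool.Agent.H92.GGL (ordZ)

noncomputable section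

namespace Pool.Agent.H62.FC

/-! ### The weights -/

private def wt (t : ℝ) : ℝ := 1 / (1 + |t|) ^ 2

def wn (n : ℕ) (t : ℝ) : ℝ := max 0 (wt t - wt n)

private lemma one_add_abs_pos (t : ℝ) : 0 < 1 + |t| := by positivity

private lemma wt_cont : Continuous wt := by
  unfold wt
  exact continuous_const.div₀ (by fun_prop) fun t => (pow_pos (one_add_abs_pos t) 2).ne'

lemma wn_cont (n : ℕ) : Continuous (wn n) := by
  unfold wn
  exact continuous_const.max (wt_cont.sub continuous_const)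

lemma wn_nonneg (n : ℕ) (t : ℝ) : 0 ≤ wn n t := le_max_left _ _

private lemma wt_nonneg (t : ℝ) : 0 ≤ wt t := by unfold wt; positivity

lemma wn_neg (n : ℕ) (t : ℝ) : wn n (-t) = wn n t := by
  simp only [wn, wt, abs_neg]

private lemma wt_le {s t : ℝ} (h : |s| ≤ |t|) : wt t ≤ wt s := by
  unfold wt
  have h1 := one_add_abs_pos s
  exact one_div_le_one_div_of_le (by positivity) (pow_le_pow_left₀ h1.le (by linarith) 2)

lemma wn_zero {n : ℕ} {t : ℝ} (h : (n : ℝ) ≤ |t|) : wn n t = 0 := by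
  unfold wn
  refine max_eq_left ?_
  have := wt_le (s := (n : ℝ)) (t := t) (by rwa [Nat.abs_cast])
  linarith

private lemma wn_le_wt (n : ℕ) (t : ℝ) : wn n t ≤ wt t := by
  unfold wn
  have := wt_nonneg (n : ℝ)
  have := wt_nonneg t
  exact max_le (by assumption) (by linarith)

lemma wn_mono {n m : ℕ} (h : n ≤ m) (t : ℝ) : wn n t ≤ wn m t := by
  unfold wn
  refine max_le_max le_rfl ?_
  have : wt (m : ℝ) ≤ wt (n : ℝ) := wt_le (by
    rw [Nat.abs_cast, Nat.abs_cast]
    exact_mod_cast h)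
  linarith

private lemma wt_tendsto : Tendsto (fun n : ℕ => wt (n : ℝ)) atTop (𝓝 0) := by
  have h1 : Tendsto (fun n : ℕ => 1 / ((n : ℝ) + 1)) atTop (𝓝 0) :=
    tendsto_one_div_add_atTop_nhds_zero_nat
  have h2 := h1.pow 2
  rw [zero_pow two_ne_zero] at h2
  refine h2.congr fun n => ?_
  unfold wt
  rw [Nat.abs_cast, one_div_pow, add_comm]

private lemma wn_tendsto (t : ℝ) : Tendsto (fun n : ℕ => wn n t) atTop (𝓝 (wt t)) := by
  have h : Tendsto (fun n : ℕ => wt t - wt (n : ℝ)) atTop (𝓝 (wt t - 0)) :=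
    tendsto_const_nhds.sub wt_tendsto
  rw [sub_zero] at h
  have h2 : Tendsto (fun n : ℕ => max 0 (wt t - wt (n : ℝ))) atTop (𝓝 (max 0 (wt t))) :=
    (tendsto_const_nhds (x := (0 : ℝ))).max h
  rwa [max_eq_right (wt_nonneg t)] at h2

lemma wn_integral (n : ℕ) : (∫ t in (0 : ℝ)..n, wn n t) ≤ 1 := by
  have hn : (0 : ℝ) ≤ n := Nat.cast_nonneg n
  have h1 : (∫ t in (0 : ℝ)..n, wn n t) ≤ ∫ t in (0 : ℝ)..n, wt t :=
    intervalIntegral.integral_mono_on hn ((wn_cont n).intervalIntegrable _ _)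
      (wt_cont.intervalIntegrable _ _) fun t _ => wn_le_wt n t
  have h2 : ∀ t ∈ Set.uIcc (0 : ℝ) n, HasDerivAt (fun t : ℝ => -(1 + t)⁻¹) (wt t) t := by
    intro t ht
    rw [Set.uIcc_of_le hn] at ht
    have h0 : (1 : ℝ) + t ≠ 0 := by have := ht.1; positivity
    have h3 : HasDerivAt (fun t : ℝ => (1 + t)⁻¹) (-1 / (1 + t) ^ 2) t := by
      exact ((hasDerivAt_id' t).const_add 1).fun_inv h0
    have h4 := h3.neg
    have h5 : wt t = -(-1 / (1 + t) ^ 2) := by
      unfold wt
      rw [abs_of_nonneg ht.1]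
      ring
    rw [h5]
    exact h4
  have h3 := intervalIntegral.integral_eq_sub_of_hasDerivAt h2 (wt_cont.intervalIntegrable _ _)
  rw [h3] at h1
  refine h1.trans ?_
  have : 0 ≤ (1 + (n : ℝ))⁻¹ := by positivity
  norm_num
  linarith

/-! ### Integrability on circles -/

private lemma circleIntegrable_of_local {f : ℂ → ℝ} {r : ℝ} (hr : 0 < r)
    (h : ∀ s, ‖s‖ = r → ∃ g : ℂ → ℝ, (∀ᶠ z in 𝓝 s, ContinuousAt g z) ∧ f =ᶠ[𝓝[≠] s] g) :
    CircleIntegrable f 0 r := by
  have hl : LocallyIntegrable (fun θ : ℝ => f (circleMap 0 r θ)) volume := by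
    intro θ
    obtain ⟨g, hg1, hg2⟩ := h (circleMap 0 r θ) (by simp [abs_of_pos hr])
    have hc : ContinuousAt (circleMap 0 r) θ := (continuous_circleMap 0 r).continuousAt
    have h1 : ∀ᶠ φ in 𝓝 θ, ContinuousAt (fun φ => g (circleMap 0 r φ)) φ := by
      filter_upwards [hc.eventually hg1] with φ hφ
      exact hφ.comp (continuous_circleMap 0 r).continuousAt
    have h2 : ∀ᶠ φ in 𝓝 θ, φ ≠ θ → f (circleMap 0 r φ) = g (circleMap 0 r φ) := by
      have h3 : ∀ᶠ z in 𝓝 (circleMap 0 r θ), z ≠ circleMap 0 r θ → f z = g z :=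
        eventually_nhdsWithin_iff.1 hg2
      have h4 : ∀ᶠ φ in 𝓝 θ, |φ - θ| < 2 * Real.pi := by
        have : ContinuousAt (fun φ : ℝ => |φ - θ|) θ := by fun_prop
        have h5 := this.tendsto
        rw [sub_self, abs_zero] at h5
        exact h5.eventually (gt_mem_nhds (by positivity))
      filter_upwards [hc.eventually h3, h4] with φ h5 h6 hne
      refine h5 fun h7 => hne ?_
      exact eq_of_circleMap_eq hr.ne' h6 h7
    obtain ⟨ε, hε, hball⟩ := Metric.eventually_nhds_iff_ball.1 (h1.and h2)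
    refine ⟨Set.Icc (θ - ε / 2) (θ + ε / 2), Icc_mem_nhds (by linarith) (by linarith), ?_⟩
    have hsub : ∀ φ ∈ Set.Icc (θ - ε / 2) (θ + ε / 2), φ ∈ Metric.ball θ ε := by
      intro φ hφ
      rw [Metric.mem_ball, Real.dist_eq, abs_lt]
      constructor <;> linarith [hφ.1, hφ.2]
    have hcont : ContinuousOn (fun φ => g (circleMap 0 r φ)) (Set.Icc (θ - ε / 2) (θ + ε / 2)) :=
      fun φ hφ => (hball φ (hsub φ hφ)).1.continuousWithinAt
    refine hcont.integrableOn_Icc.congr_fun_ae ?_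
    rw [EventuallyEq, ae_restrict_iff' measurableSet_Icc]
    have hne : ∀ᵐ φ : ℝ, φ ≠ θ := by
      rw [ae_iff]
      simp
    filter_upwards [hne] with φ h3 h4
    exact ((hball φ (hsub φ h4)).2 h3).symm
  unfold CircleIntegrable
  rw [intervalIntegrable_iff_integrableOn_Icc_of_le (by positivity)]
  exact hl.integrableOn_isCompact isCompact_Icc

lemma circleIntegrable_wn {R₀ : ℝ} {u : ℂ → ℂ} (hu : MeroPunct R₀ u) (n : ℕ) {x : ℝ}
    (hx : Real.exp (-x) < R₀) :
    CircleIntegrable (fun z => wn n (Real.log ‖u z‖) * ‖z * deriv u z / u z‖ ^ 2) 0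
      (Real.exp (-x)) := by
  refine circleIntegrable_of_local (Real.exp_pos _) fun s hs => ?_
  have hs0 : 0 < ‖s‖ := by rw [hs]; exact Real.exp_pos _
  have hs1 : ‖s‖ < R₀ := by rw [hs]; exact hx
  have hm := hu.mero s hs0 hs1
  have ho := hu.ord s hs0 hs1
  rcases eq_or_ne (meromorphicOrderAt u s) 0 with h0 | h0
  · obtain ⟨g, hg, hgs, hug⟩ := (meromorphicOrderAt_ne_top_iff hm).1 ho
    rw [h0] at hug
    have hug' : u =ᶠ[𝓝[≠] s] g := by
      filter_upwards [hug] with z hz
      rw [hz]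
      simp
    refine ⟨fun z => wn n (Real.log ‖g z‖) * ‖z * deriv g z / g z‖ ^ 2, ?_, ?_⟩
    · have h1 : ∀ᶠ z in 𝓝 s, g z ≠ 0 := hg.continuousAt.eventually_ne hgs
      filter_upwards [h1, hg.eventually_analyticAt] with z h2 h3
      have h4 := h3.continuousAt
      have h5 := h3.deriv.continuousAt
      refine ((wn_cont n).continuousAt.comp ?_).mul ?_
      · exact h4.norm.log (norm_ne_zero_iff.2 h2)
      · exact ((continuousAt_id.mul h5).div h4 h2).norm.pow 2
    · filter_upwards [hug', hug'.nhdsNE_deriv] with z h1 h2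
      rw [h1, h2]
  · refine ⟨fun _ => 0, Eventually.of_forall fun _ => continuousAt_const, ?_⟩
    have key : ∀ᶠ z in 𝓝[≠] s, (n : ℝ) ≤ |Real.log ‖u z‖| := by
      rcases lt_or_gt_of_ne h0 with h1 | h1
      · have h2 := (tendsto_cobounded_iff_meromorphicOrderAt_neg hm).2 h1
        have h3 : Tendsto (fun z => Real.log ‖u z‖) (𝓝[≠] s) atTop :=
          Real.tendsto_log_atTop.comp (tendsto_norm_cobounded_atTop.comp h2)
        filter_upwards [h3.eventually_ge_atTop (n : ℝ)] with z hz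
        exact hz.trans (le_abs_self _)
      · have h2 := (tendsto_zero_iff_meromorphicOrderAt_pos hm).2 h1
        have hne := (meromorphicOrderAt_ne_top_iff_eventually_ne_zero hm).1 ho
        have h3 : Tendsto (fun z => ‖u z‖) (𝓝[≠] s) (𝓝[>] 0) := by
          rw [tendsto_nhdsWithin_iff]
          refine ⟨by simpa using h2.norm, ?_⟩
          filter_upwards [hne] with z hz
          exact norm_pos_iff.2 hz
        have h4 : Tendsto (fun z => Real.log ‖u z‖) (𝓝[≠] s) atBot :=
          Real.tendsto_log_nhdsGT_zero.comp h3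
        filter_upwards [h4.eventually_le_atBot (-(n : ℝ))] with z hz
        exact (by linarith : (n : ℝ) ≤ -Real.log ‖u z‖).trans (neg_le_abs _)
    filter_upwards [key] with z hz
    rw [wn_zero hz, zero_mul]

/-! ### Pointwise inequality -/

private lemma posLog_le_half_log (y : ℝ) : Real.posLog y ≤ 1 / 2 * Real.log (1 + y ^ 2) := by
  unfold Real.posLog
  refine max_le (mul_nonneg (by norm_num) (Real.log_nonneg (by nlinarith [sq_nonneg y]))) ?_
  rcases eq_or_ne y 0 with rfl | hy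
  · simp
  · have h : Real.log (y ^ 2) ≤ Real.log (1 + y ^ 2) :=
      Real.log_le_log (by positivity) (by linarith)
    rw [Real.log_pow] at h
    push_cast at h
    linarith

private lemma log_tangent {a A : ℝ} (ha : 0 ≤ a) (hA : 0 ≤ A) :
    Real.log (1 + a) ≤ Real.log (1 + A) + (a - A) / (1 + A) := by
  have h1 : 0 < 1 + a := by linarith
  have h2 : 0 < 1 + A := by linarith
  have h3 := Real.log_le_sub_one_of_pos (div_pos h1 h2)
  rw [Real.log_div h1.ne' h2.ne'] at h3
  have h4 : (1 + a) / (1 + A) - 1 = (a - A) / (1 + A) := by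
    field_simp
    ring
  linarith

/-- The pointwise inequality. -/
private lemma pointwise {z : ℂ} {x : ℝ} (hz : ‖z‖ = Real.exp (-x)) (w d : ℂ) {A B : ℝ}
    (hA : 0 ≤ A) (hB : 0 ≤ B) :
    Real.posLog ‖d / w‖ ≤ 1 / 2 * (Real.log (1 + A) +
      (wt (Real.log ‖w‖) * ‖z * d / w‖ ^ 2 - A) / (1 + A)) +
      (Real.log (1 + B) + (|Real.log ‖w‖| - B) / (1 + B)) + |x| := by
  set L := Real.log ‖w‖ with hL
  set y := ‖z * d / w‖ with hy
  have hzpos : 0 < ‖z‖ := by rw [hz]; exact Real.exp_pos _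
  have e1 : ‖d / w‖ = y * Real.exp x := by
    rw [hy, mul_div_assoc, norm_mul, hz, Real.exp_neg]
    field_simp
  have h1 : Real.posLog ‖d / w‖ ≤ Real.posLog y + |x| := by
    rw [e1]
    refine Real.posLog_mul.trans ?_
    have : Real.posLog (Real.exp x) ≤ |x| := by
      unfold Real.posLog
      rw [Real.log_exp]
      exact max_le (abs_nonneg _) (le_abs_self _)
    linarith
  have hy0 : 0 ≤ y := norm_nonneg _
  have hL1 : 0 < 1 + |L| := by positivity
  have hg0 : 0 ≤ wt L * y ^ 2 := mul_nonneg (wt_nonneg _) (sq_nonneg _)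
  have h2 : Real.log (1 + y ^ 2) ≤ Real.log (1 + wt L * y ^ 2) + 2 * Real.log (1 + |L|) := by
    have h3 : (1 : ℝ) + y ^ 2 ≤ (1 + wt L * y ^ 2) * (1 + |L|) ^ 2 := by
      have h4 : (1 + wt L * y ^ 2) * (1 + |L|) ^ 2 = (1 + |L|) ^ 2 + y ^ 2 := by
        unfold wt
        field_simp
      rw [h4]
      have : 0 ≤ |L| := abs_nonneg L
      nlinarith
    have h5 := Real.log_le_log (by positivity) h3
    rw [Real.log_mul (by positivity) (by positivity), Real.log_pow] at h5
    push_cast at h5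
    exact h5
  have h3 := posLog_le_half_log y
  have h4 := log_tangent hg0 hA
  have h5 := log_tangent (abs_nonneg L) hB
  linarith

/-! ### Bounds of logarithms -/

lemma log_le_eps {η : ℝ} (hη : 0 < η) {t : ℝ} (ht : 0 ≤ t) :
    Real.log (1 + t) ≤ η * t + (η + |Real.log η|) := by
  have h1 : 0 < 1 + t := by linarith
  have h2 := Real.log_le_sub_one_of_pos (mul_pos hη h1)
  rw [Real.log_mul hη.ne' h1.ne'] at h2
  have := neg_abs_le (Real.log η)
  have h3 : η * (1 + t) = η * t + η := by ring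
  rw [h3] at h2
  have := le_abs_self (Real.log η)
  have := neg_le_abs (Real.log η)
  linarith

/-! ### The limit of the weights -/

private lemma limit_wn {R₀ : ℝ} {u : ℂ → ℂ} (hu : MeroPunct R₀ u) {x A : ℝ}
    (hx : Real.exp (-x) < R₀) (hA : 0 ≤ A)
    (h : ∀ n : ℕ, mean (fun z => wn n (Real.log ‖u z‖) * ‖z * deriv u z / u z‖ ^ 2) x ≤ A) :
    CircleIntegrable (fun z => wt (Real.log ‖u z‖) * ‖z * deriv u z / u z‖ ^ 2) 0
      (Real.exp (-x)) ∧
    mean (fun z => wt (Real.log ‖u z‖) * ‖z * deriv u z / u z‖ ^ 2) x ≤ A := by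
  set r := Real.exp (-x) with hr
  set F : ℕ → ℝ → ℝ := fun n θ => wn n (Real.log ‖u (circleMap 0 r θ)‖) *
    ‖circleMap 0 r θ * deriv u (circleMap 0 r θ) / u (circleMap 0 r θ)‖ ^ 2 with hF
  set G : ℝ → ℝ := fun θ => wt (Real.log ‖u (circleMap 0 r θ)‖) *
    ‖circleMap 0 r θ * deriv u (circleMap 0 r θ) / u (circleMap 0 r θ)‖ ^ 2 with hG
  set μ : Measure ℝ := volume.restrict (Set.Ioc 0 (2 * Real.pi)) with hμ
  have hpi : (0 : ℝ) < 2 * Real.pi := by positivity
  have hFi : ∀ n, Integrable (F n) μ := by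
    intro n
    have h1 := circleIntegrable_wn hu n hx
    unfold CircleIntegrable at h1
    rw [intervalIntegrable_iff_integrableOn_Ioc_of_le hpi.le] at h1
    exact h1
  have hF0 : ∀ n θ, 0 ≤ F n θ := fun n θ => mul_nonneg (wn_nonneg _ _) (sq_nonneg _)
  have hG0 : ∀ θ, 0 ≤ G θ := fun θ => mul_nonneg (wt_nonneg _) (sq_nonneg _)
  have hlim : ∀ θ, Tendsto (fun n => F n θ) atTop (𝓝 (G θ)) := fun θ =>
    (wn_tendsto _).mul_const _
  have hFint : ∀ n, ∫ θ, F n θ ∂μ ≤ 2 * Real.pi * A := by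
    intro n
    have h1 := h n
    unfold mean at h1
    rw [Real.circleAverage_def, smul_eq_mul, intervalIntegral.integral_of_le hpi.le] at h1
    have h2 := mul_le_mul_of_nonneg_left h1 hpi.le
    rw [← mul_assoc, mul_inv_cancel₀ hpi.ne', one_mul] at h2
    exact h2
  have hmeas : AEStronglyMeasurable G μ :=
    aestronglyMeasurable_of_tendsto_ae atTop (fun n => (hFi n).aestronglyMeasurable)
      (Eventually.of_forall hlim)
  have hlint : ∫⁻ θ, ENNReal.ofReal (G θ) ∂μ ≤ ENNReal.ofReal (2 * Real.pi * A) := by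
    have h1 := lintegral_liminf_le' (μ := μ) (f := fun n θ => ENNReal.ofReal (F n θ))
      (u := atTop) fun n => (hFi n).aestronglyMeasurable.aemeasurable.ennreal_ofReal
    have h2 : ∀ θ, liminf (fun n => ENNReal.ofReal (F n θ)) atTop = ENNReal.ofReal (G θ) :=
      fun θ => (ENNReal.tendsto_ofReal (hlim θ)).liminf_eq
    simp only [h2] at h1
    refine h1.trans ?_
    have h3 : liminf (fun n => ∫⁻ θ, ENNReal.ofReal (F n θ) ∂μ) atTop ≤
        liminf (fun _ : ℕ => ENNReal.ofReal (2 * Real.pi * A)) atTop := by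
      refine liminf_le_liminf (Eventually.of_forall fun n => ?_)
      rw [← ofReal_integral_eq_lintegral_ofReal (hFi n) (Eventually.of_forall (hF0 n))]
      exact ENNReal.ofReal_le_ofReal (hFint n)
    rwa [liminf_const] at h3
  have hGi : Integrable G μ := by
    refine ⟨hmeas, ?_⟩
    rw [hasFiniteIntegral_iff_ofReal (Eventually.of_forall hG0)]
    exact hlint.trans_lt ENNReal.ofReal_lt_top
  refine ⟨?_, ?_⟩
  · unfold CircleIntegrable
    rw [intervalIntegrable_iff_integrableOn_Ioc_of_le hpi.le]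
    exact hGi
  · unfold mean
    rw [Real.circleAverage_def, smul_eq_mul, intervalIntegral.integral_of_le hpi.le]
    have h1 : ∫ θ, G θ ∂μ ≤ 2 * Real.pi * A := by
      rw [integral_eq_lintegral_of_nonneg_ae (Eventually.of_forall hG0) hmeas]
      have h2 := ENNReal.toReal_mono ENNReal.ofReal_ne_top hlint
      rwa [ENNReal.toReal_ofReal (by positivity)] at h2
    have h2 := mul_le_mul_of_nonneg_left h1 (inv_nonneg.2 hpi.le)
    rw [← mul_assoc, inv_mul_cancel₀ hpi.ne', one_mul] at h2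
    exact h2

/-- The bound of the mean of `posLog ‖u' / u‖`. -/
lemma mean_bound {R₀ : ℝ} {u : ℂ → ℂ} (hu : MeroPunct R₀ u) {x A B : ℝ}
    (hx : Real.exp (-x) < R₀) (hA : 0 ≤ A)
    (h : ∀ n : ℕ, mean (fun z => wn n (Real.log ‖u z‖) * ‖z * deriv u z / u z‖ ^ 2) x ≤ A)
    (hB : mean (fun z => |Real.log ‖u z‖|) x ≤ B) :
    mean (fun z => Real.posLog ‖deriv u z / u z‖) x ≤
      1 / 2 * Real.log (1 + A) + Real.log (1 + B) + |x| := by
  obtain ⟨hgi, hgm⟩ := limit_wn hu hx hA h
  have hB0 : 0 ≤ B := (Real.circleAverage_nonneg_of_nonneg fun z _ => abs_nonneg _).trans hB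
  have hR0 : 0 ≤ 1 / 2 * Real.log (1 + A) + Real.log (1 + B) + |x| := by
    have h1 := Real.log_nonneg (by linarith : (1 : ℝ) ≤ 1 + A)
    have h2 := Real.log_nonneg (by linarith : (1 : ℝ) ≤ 1 + B)
    have := abs_nonneg x
    linarith
  by_cases hP : CircleIntegrable (fun z => Real.posLog ‖deriv u z / u z‖) 0 (Real.exp (-x))
  swap
  · unfold mean
    rw [Real.circleAverage.integral_undef hP]
    exact hR0
  have hL : CircleIntegrable (fun z => |Real.log ‖u z‖|) 0 (Real.exp (-x)) :=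
    (MeroPunct.circleIntegrable_log hu hx).abs
  set g : ℂ → ℝ := fun z => wt (Real.log ‖u z‖) * ‖z * deriv u z / u z‖ ^ 2 with hg
  set l : ℂ → ℝ := fun z => |Real.log ‖u z‖| with hl
  -- the upper bound as a linear combination
  set c : ℝ := 1 / 2 * (Real.log (1 + A) - A / (1 + A)) + (Real.log (1 + B) - B / (1 + B)) + |x|
    with hc
  have hci : CircleIntegrable (fun _ : ℂ => c) 0 (Real.exp (-x)) := circleIntegrable_const c 0 _
  have h1i : CircleIntegrable (fun z => (1 / (2 * (1 + A))) • g z) 0 (Real.exp (-x)) :=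
    hgi.const_smul
  have h2i : CircleIntegrable (fun z => (1 / (1 + B)) • l z) 0 (Real.exp (-x)) :=
    hL.const_smul
  have hsi : CircleIntegrable (fun z => (1 / (2 * (1 + A))) • g z + (1 / (1 + B)) • l z) 0
      (Real.exp (-x)) := h1i.add h2i
  have hti : CircleIntegrable
      (fun z => ((1 / (2 * (1 + A))) • g z + (1 / (1 + B)) • l z) + c) 0
      (Real.exp (-x)) := hsi.add hci
  have hmono : Real.circleAverage (fun z => Real.posLog ‖deriv u z / u z‖) 0 (Real.exp (-x)) ≤
      Real.circleAverage (fun z => ((1 / (2 * (1 + A))) • g z + (1 / (1 + B)) • l z) + c) 0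
        (Real.exp (-x)) := by
    refine Real.circleAverage_mono hP hti fun z hz => ?_
    rw [abs_of_pos (Real.exp_pos _), mem_sphere_zero_iff_norm] at hz
    have h1 := pointwise hz (u z) (deriv u z) hA hB0
    refine h1.trans (le_of_eq ?_)
    rw [hc, hg, hl, smul_eq_mul, smul_eq_mul]
    have hA1 : (1 : ℝ) + A ≠ 0 := by linarith
    have hB1 : (1 : ℝ) + B ≠ 0 := by linarith
    field_simp
    ring
  unfold mean at hgm hB ⊢
  rw [Real.circleAverage_fun_add hsi hci, Real.circleAverage_fun_add h1i h2i,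
    Real.circleAverage_fun_smul, Real.circleAverage_fun_smul, Real.circleAverage_const,
    smul_eq_mul, smul_eq_mul] at hmono
  refine hmono.trans ?_
  have hA1 : (0 : ℝ) < 1 + A := by linarith
  have hB1 : (0 : ℝ) < 1 + B := by linarith
  have e1 : 1 / (2 * (1 + A)) * Real.circleAverage g 0 (Real.exp (-x)) ≤
      1 / (2 * (1 + A)) * A := mul_le_mul_of_nonneg_left hgm (by positivity)
  have e2 : 1 / (1 + B) * Real.circleAverage l 0 (Real.exp (-x)) ≤ 1 / (1 + B) * B :=
    mul_le_mul_of_nonneg_left hB (by positivity)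
  have e3 : 1 / (2 * (1 + A)) * A = 1 / 2 * (A / (1 + A)) := by field_simp
  have e4 : 1 / (1 + B) * B = B / (1 + B) := by field_simp
  rw [hc]
  linarith

private lemma locFin_neg {R₀ : ℝ} {u : ℂ → ℂ} (hu : MeroPunct R₀ u) :
    LocFin R₀ (fun s => max (-(ordZ u s : ℝ)) 0) := by
  intro r b hr hb
  refine (MeroPunct.locFin hu r b hr hb).subset fun s hs => ?_
  refine ⟨hs.1, hs.2.1, fun h => hs.2.2 ?_⟩
  simp only [h, neg_zero, max_self]

lemma nevT_radius {R₀ R₁ R' : ℝ} (h1 : 0 < R₁) (h : R₁ < R₀) (h1' : 0 < R') (h' : R' < R₀)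
    {u : ℂ → ℂ} (hu : MeroPunct R₀ u) :
    ∃ C : ℝ, ∀ x, Real.exp (-x) < R₁ → Real.exp (-x) < R' →
      nevT u R' x ≤ nevT u R₁ x + C * (1 + |x|) := by
  rcases le_total R₁ R' with hle | hle
  · obtain ⟨C, hC⟩ := cnt_radius h1 hle h' (locFin_neg hu)
    refine ⟨C, fun x hx _ => ?_⟩
    have h2 := (abs_le.1 (hC x hx)).2
    unfold nevT
    linarith
  · obtain ⟨C, hC⟩ := cnt_radius h1' hle h (locFin_neg hu)
    refine ⟨C, fun x _ hx => ?_⟩
    have h2 := (abs_le.1 (hC x hx)).1
    unfold nevT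
    linarith

end Pool.Agent.H62.FC

end
end

section

/-!
# The Wronskian of linearly independent meromorphic functions does not vanish identically
-/

noncomputable section

namespace Pool.Agent.H62.FC

open Filter Topology MeasureTheory
open Pool.Agent.H92.GGL (ordZ)

private lemma Wronsk_det_analyticAt {n : ℕ} {M : ℂ → Matrix (Fin n) (Fin n) ℂ} {s : ℂ}
    (h : ∀ i j, AnalyticAt ℂ (fun z => M z i j) s) : AnalyticAt ℂ (fun z => (M z).det) s := by
  simp only [Matrix.det_apply']
  refine Finset.analyticAt_fun_sum _ fun σ _ => ?_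
  refine analyticAt_const.mul ?_
  exact Finset.analyticAt_fun_prod _ fun i _ => h _ _

private lemma Wronsk_det_meromorphicAt {n : ℕ} {M : ℂ → Matrix (Fin n) (Fin n) ℂ} {s : ℂ}
    (h : ∀ i j, MeromorphicAt (fun z => M z i j) s) : MeromorphicAt (fun z => (M z).det) s := by
  simp only [Matrix.det_apply']
  refine MeromorphicAt.fun_sum fun σ _ => ?_
  refine (MeromorphicAt.const _ s).mul ?_
  exact MeromorphicAt.fun_prod fun i _ => h _ _

private lemma Wronsk_iterated {f : ℂ → ℂ} {z : ℂ} (hf : AnalyticAt ℂ f z) (n : ℕ) :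
    AnalyticAt ℂ (iteratedDeriv n f) z := by
  rw [iteratedDeriv_eq_iterate]
  exact hf.iterated_deriv n

/-- the Wronskian of linearly independent holomorphic functions on a domain -/
private theorem Wronsk_exists {m : ℕ} (φ : Fin m → ℂ → ℂ) (D : Set ℂ) (hD : IsOpen D)
    (hDp : IsPreconnected D) (hDn : D.Nonempty) (hd : ∀ i, ∀ z ∈ D, AnalyticAt ℂ (φ i) z)
    (hli : ∀ c : Fin m → ℂ, (∀ z ∈ D, ∑ j, c j * φ j z = 0) → c = 0) :
    ∃ z ∈ D, Matrix.det (Matrix.of fun i j : Fin m => iteratedDeriv (i : ℕ) (φ j) z) ≠ 0 := by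
  induction m with
  | zero =>
    obtain ⟨z, hz⟩ := hDn
    exact ⟨z, hz, by simp⟩
  | succ m ih =>
    by_contra hcon
    push Not at hcon
    obtain ⟨z₀, hz₀D, hz₀⟩ := ih (fun j => φ j.castSucc) (fun j => hd _) (by
      intro c hc
      have h1 := hli (Fin.lastCases 0 c) (by
        intro z hz
        simp only [Fin.sum_univ_castSucc, Fin.lastCases_castSucc, Fin.lastCases_last, zero_mul,
          add_zero]
        exact hc z hz)
      funext j
      have h2 := congrFun h1 j.castSucc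
      simpa using h2)
    set A : ℂ → Matrix (Fin m) (Fin m) ℂ :=
      fun z => Matrix.of fun i j : Fin m => iteratedDeriv (i : ℕ) (φ j.castSucc) z with hA
    set b : ℂ → Fin m → ℂ := fun z i => iteratedDeriv (i : ℕ) (φ (Fin.last m)) z with hb
    have hAd : ∀ z ∈ D, AnalyticAt ℂ (fun z => (A z).det) z := fun z hz =>
      Wronsk_det_analyticAt fun i j => Wronsk_iterated (hd _ z hz) _
    set c : Fin m → ℂ → ℂ := fun j z => ((A z).updateCol j (b z)).det / (A z).det with hc
    have hU : ∃ r > 0, ∀ z ∈ Metric.ball z₀ r, z ∈ D ∧ (A z).det ≠ 0 := by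
      have h1 : ∀ᶠ z in 𝓝 z₀, z ∈ D ∧ (A z).det ≠ 0 :=
        (hD.eventually_mem hz₀D).and ((hAd z₀ hz₀D).continuousAt.eventually_ne hz₀)
      exact Metric.eventually_nhds_iff_ball.mp h1
    obtain ⟨r, hr, hball⟩ := hU
    have hcd : ∀ j, ∀ z ∈ D, (A z).det ≠ 0 → DifferentiableAt ℂ (c j) z := by
      intro j z hzD hz
      refine DifferentiableAt.div ?_ (hAd z hzD).differentiableAt hz
      refine (Wronsk_det_analyticAt (M := fun z => (A z).updateCol j (b z))
        fun i k => ?_).differentiableAt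
      by_cases hk : k = j
      · subst hk
        simp only [Matrix.updateCol_self]
        exact Wronsk_iterated (hd _ z hzD) _
      · simp only [Matrix.updateCol_ne hk]
        exact Wronsk_iterated (hd _ z hzD) _
    -- the coefficients solve the linear system
    have hsol : ∀ z, (A z).det ≠ 0 → (A z).mulVec (fun j => c j z) = b z := by
      intro z hz
      have h1 := Matrix.mulVec_cramer (A z) (b z)
      have h2 : (fun j => c j z) = ((A z).det)⁻¹ • Matrix.cramer (A z) (b z) := by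
        funext j
        simp only [hc, Pi.smul_apply, Matrix.cramer_apply, smul_eq_mul]
        rw [div_eq_inv_mul]
      rw [h2, Matrix.mulVec_smul, h1, smul_smul, inv_mul_cancel₀ hz, one_smul]
    have hlast : ∀ z ∈ D, (A z).det ≠ 0 →
        ∑ j, iteratedDeriv m (φ j.castSucc) z * c j z = iteratedDeriv m (φ (Fin.last m)) z := by
      intro z hzD hz
      obtain ⟨v, hv0, hv⟩ := Matrix.exists_mulVec_eq_zero_iff.2 (hcon z hzD)
      have hrow : ∀ i : Fin (m + 1), ∑ j : Fin m, iteratedDeriv (i : ℕ) (φ j.castSucc) z *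
          v j.castSucc + iteratedDeriv (i : ℕ) (φ (Fin.last m)) z * v (Fin.last m) = 0 := by
        intro i
        have := congrFun hv i
        simpa [Matrix.mulVec, dotProduct, Fin.sum_univ_castSucc] using this
      have hvl : v (Fin.last m) ≠ 0 := by
        intro h0
        apply hv0
        have hz' : (fun j : Fin m => v j.castSucc) = 0 := by
          apply Matrix.eq_zero_of_mulVec_eq_zero hz
          funext i
          have := hrow i.castSucc
          rw [h0, mul_zero, add_zero] at this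
          simpa [Matrix.mulVec, dotProduct, hA] using this
        funext i
        refine Fin.lastCases h0 (fun j => ?_) i
        exact congrFun hz' j
      have hcv : (fun j => c j z) = fun j : Fin m => - v j.castSucc / v (Fin.last m) := by
        have hdiff : (A z).mulVec ((fun j => c j z) -
            fun j : Fin m => - v j.castSucc / v (Fin.last m)) = 0 := by
          rw [Matrix.mulVec_sub, hsol z hz, sub_eq_zero]
          funext i
          have h3 := hrow i.castSucc
          simp only [Fin.val_castSucc] at h3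
          simp only [hb, hA, Matrix.mulVec, dotProduct, Matrix.of_apply]
          have h4 : ∑ j : Fin m, iteratedDeriv (i : ℕ) (φ j.castSucc) z *
              (-v j.castSucc / v (Fin.last m)) =
              -(∑ j : Fin m, iteratedDeriv (i : ℕ) (φ j.castSucc) z * v j.castSucc) /
                v (Fin.last m) := by
            rw [← Finset.sum_neg_distrib, Finset.sum_div]
            refine Finset.sum_congr rfl fun j _ => by ring
          rw [h4, eq_div_iff hvl]
          linear_combination h3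
        exact sub_eq_zero.1 (Matrix.eq_zero_of_mulVec_eq_zero hz hdiff)
      have h5 := hrow (Fin.last m)
      simp only [Fin.val_last] at h5
      have h6 : ∀ j, c j z = - v j.castSucc / v (Fin.last m) := fun j => congrFun hcv j
      have h7 : ∑ j, iteratedDeriv m (φ j.castSucc) z * c j z =
          -(∑ j : Fin m, iteratedDeriv m (φ j.castSucc) z * v j.castSucc) / v (Fin.last m) := by
        rw [← Finset.sum_neg_distrib, Finset.sum_div]
        refine Finset.sum_congr rfl fun j _ => by rw [h6]; ring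
      rw [h7, div_eq_iff hvl]
      linear_combination -h5
    have hall : ∀ i ≤ m, ∀ z ∈ D, (A z).det ≠ 0 →
        ∑ j, iteratedDeriv i (φ j.castSucc) z * c j z = iteratedDeriv i (φ (Fin.last m)) z := by
      intro i hi z hzD hz
      rcases hi.lt_or_eq with hi' | rfl
      · have := congrFun (hsol z hz) ⟨i, hi'⟩
        simpa [Matrix.mulVec, dotProduct, hA, hb] using this
      · exact hlast z hzD hz
    have hderiv : ∀ j, ∀ z ∈ Metric.ball z₀ r, deriv (c j) z = 0 := by
      intro j₀ z hzb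
      obtain ⟨hzD, hz⟩ := hball z hzb
      have hzero : (A z).mulVec (fun j => deriv (c j) z) = 0 := by
        funext i
        have hev : (fun w => ∑ j, iteratedDeriv (i : ℕ) (φ j.castSucc) w * c j w) =ᶠ[𝓝 z]
            iteratedDeriv (i : ℕ) (φ (Fin.last m)) := by
          filter_upwards [Metric.isOpen_ball.mem_nhds hzb] with w hw
          exact hall i i.2.le w (hball w hw).1 (hball w hw).2
        have h1 := hev.deriv_eq
        have h2 : deriv (fun w => ∑ j, iteratedDeriv (i : ℕ) (φ j.castSucc) w * c j w) z =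
            ∑ j, (iteratedDeriv ((i : ℕ) + 1) (φ j.castSucc) z * c j z +
              iteratedDeriv (i : ℕ) (φ j.castSucc) z * deriv (c j) z) := by
          rw [deriv_fun_sum]
          · refine Finset.sum_congr rfl fun j _ => ?_
            rw [deriv_fun_mul (Wronsk_iterated (hd _ z hzD) _).differentiableAt (hcd j z hzD hz),
              iteratedDeriv_succ]
          · intro j _
            exact (Wronsk_iterated (hd _ z hzD) _).differentiableAt.mul (hcd j z hzD hz)
        have h3 := hall ((i : ℕ) + 1) i.2 z hzD hz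
        rw [h2, Finset.sum_add_distrib, h3, ← iteratedDeriv_succ] at h1
        have h4 : ∑ j, iteratedDeriv (i : ℕ) (φ j.castSucc) z * deriv (c j) z = 0 := by
          linear_combination h1
        simpa [Matrix.mulVec, dotProduct, hA] using h4
      exact congrFun (Matrix.eq_zero_of_mulVec_eq_zero hz hzero) j₀
    have hconst : ∀ j, ∀ z ∈ Metric.ball z₀ r, c j z = c j z₀ := by
      intro j z hz
      exact (Metric.isOpen_ball.is_const_of_deriv_eq_zero (convex_ball z₀ r).isPreconnected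
        (fun w hw => (hcd j w (hball w hw).1 (hball w hw).2).differentiableWithinAt)
        (fun w hw => hderiv j w hw) hz (Metric.mem_ball_self hr))
    -- identity theorem
    have hid : ∀ z ∈ D, ∑ j, φ j.castSucc z * c j z₀ = φ (Fin.last m) z := by
      have h1 : AnalyticOnNhd ℂ (fun z => ∑ j, φ j.castSucc z * c j z₀) D := by
        intro z hz
        exact Finset.analyticAt_fun_sum _ fun j _ => (hd _ z hz).mul analyticAt_const
      have h2 : AnalyticOnNhd ℂ (φ (Fin.last m)) D := fun z hz => hd _ z hz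
      have h3 : (fun z => ∑ j, φ j.castSucc z * c j z₀) =ᶠ[𝓝 z₀] φ (Fin.last m) := by
        filter_upwards [Metric.ball_mem_nhds z₀ hr] with z hz
        have h4 := hall 0 (Nat.zero_le _) z (hball z hz).1 (hball z hz).2
        simp only [iteratedDeriv_zero] at h4
        rw [← h4]
        exact Finset.sum_congr rfl fun j _ => by rw [hconst j z hz]
      intro z hz
      exact h1.eqOn_of_preconnected_of_eventuallyEq h2 hDp hz₀D h3 hz
    have hsum := congrFun (hli (Fin.lastCases (-1) fun j => c j z₀) (by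
        intro z hz
        simp only [Fin.sum_univ_castSucc, Fin.lastCases_castSucc, Fin.lastCases_last]
        have := hid z hz
        rw [← this]
        have h5 : ∑ j, c j z₀ * φ j.castSucc z = ∑ j, φ j.castSucc z * c j z₀ :=
          Finset.sum_congr rfl fun j _ => mul_comm _ _
        rw [h5]; ring)) (Fin.last m)
    simp at hsum

theorem wronsk_meroPunct {R₀ : ℝ} {n : ℕ} {u : Fin n → ℂ → ℂ} (hu : ∀ j, MeroPunct R₀ (u j))
    (hind : ∀ (c : Fin n → ℂ) (z : ℂ), 0 < ‖z‖ → ‖z‖ < R₀ →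
      (∀ᶠ ζ in 𝓝[≠] z, ∑ j, c j * u j ζ = 0) → c = 0) : MeroPunct R₀ (wronsk u) where
  mero z h1 h2 := by
    refine Wronsk_det_meromorphicAt fun i j => ?_
    have h3 : MeromorphicAt (iteratedDeriv (i : ℕ) (u j)) z := by
      rw [iteratedDeriv_eq_iterate]
      exact ((hu j).mero z h1 h2).iterated_deriv
    exact h3
  ord z h1 h2 := by
    intro htop
    rw [meromorphicOrderAt_eq_top_iff] at htop
    have han : ∀ᶠ ζ in 𝓝[≠] z, ∀ j, AnalyticAt ℂ (u j) ζ := by
      rw [eventually_all]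
      exact fun j => ((hu j).mero z h1 h2).eventually_analyticAt
    have hR : ∀ᶠ ζ in 𝓝[≠] z, 0 < ‖ζ‖ ∧ ‖ζ‖ < R₀ := by
      refine eventually_nhdsWithin_of_eventually_nhds ?_
      exact (continuous_norm.continuousAt.eventually_const_lt h1).and
        (continuous_norm.continuousAt.eventually_lt_const h2)
    have hall := (htop.and han).and hR
    rw [eventually_nhdsWithin_iff, Metric.eventually_nhds_iff_ball] at hall
    obtain ⟨ε, hε, hball⟩ := hall
    set z₁ : ℂ := z + ((ε / 2 : ℝ) : ℂ) with hz₁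
    have hz₁n : ‖z₁ - z‖ = ε / 2 := by
      rw [hz₁, add_sub_cancel_left, Complex.norm_real, Real.norm_of_nonneg (by positivity)]
    have hsub : ∀ ζ ∈ Metric.ball z₁ (ε / 2), ζ ∈ Metric.ball z ε ∧ ζ ∈ ({z}ᶜ : Set ℂ) := by
      intro ζ hζ
      rw [mem_ball_iff_norm] at hζ
      constructor
      · rw [mem_ball_iff_norm]
        calc ‖ζ - z‖ = ‖(ζ - z₁) + (z₁ - z)‖ := by ring_nf
          _ ≤ ‖ζ - z₁‖ + ‖z₁ - z‖ := norm_add_le _ _
          _ < ε / 2 + ε / 2 := by rw [hz₁n]; linarith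
          _ = ε := by ring
      · intro h
        rw [Set.mem_singleton_iff] at h
        rw [h, norm_sub_rev, hz₁n] at hζ
        exact lt_irrefl _ hζ
    have hmem : z₁ ∈ Metric.ball z₁ (ε / 2) := Metric.mem_ball_self (by positivity)
    obtain ⟨ζ, hζ, hne⟩ := Wronsk_exists u (Metric.ball z₁ (ε / 2)) Metric.isOpen_ball
      (convex_ball _ _).isPreconnected ⟨z₁, hmem⟩
      (fun j ζ hζ => (hball ζ (hsub ζ hζ).1 (hsub ζ hζ).2).1.2 j) (by
        intro c hc
        have h3 := hball z₁ (hsub z₁ hmem).1 (hsub z₁ hmem).2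
        refine hind c z₁ h3.2.1 h3.2.2 ?_
        refine eventually_nhdsWithin_of_eventually_nhds ?_
        filter_upwards [Metric.isOpen_ball.mem_nhds hmem] with ζ hζ
        exact hc ζ hζ)
    exact hne (hball ζ (hsub ζ hζ).1 (hsub ζ hζ).2).1.1

end Pool.Agent.H62.FC

end
end

section

/-!
# A meromorphic function on a punctured disc with characteristic `O (log (1 / r))`
-/

open Complex MeasureTheory Metric Set Topology Filter

namespace Pool.Agent.H92.GGL

lemma exists_radius {P : Set ℂ} (hP : P.Finite) (h0 : ∀ s ∈ P, 0 < ‖s‖) :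
    ∃ ε : ℝ, 0 < ε ∧ ∀ s ∈ P, ε ≤ ‖s‖ := by
  rcases hP.toFinset.eq_empty_or_nonempty with h | h
  · refine ⟨1, one_pos, fun s hs => ?_⟩
    have : s ∈ hP.toFinset := hP.mem_toFinset.mpr hs
    rw [h] at this
    exact absurd this (Finset.notMem_empty s)
  · obtain ⟨s₀, hs₀, hmin⟩ := hP.toFinset.exists_min_image (fun s => ‖s‖) h
    exact ⟨‖s₀‖, h0 s₀ (hP.mem_toFinset.mp hs₀), fun s hs => hmin s (hP.mem_toFinset.mpr hs)⟩

/-- The order of the difference with a constant. -/
lemma neg_ordZ_sub_const_le {u : ℂ → ℂ} {s c : ℂ} (hu : MeromorphicAt u s)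
    (ho : meromorphicOrderAt u s ≠ ⊤) (hc : meromorphicOrderAt (fun z => u z - c) s ≠ ⊤) :
    max (-(ordZ (fun z => u z - c) s : ℝ)) 0 ≤ max (-(ordZ u s : ℝ)) 0 := by
  have h1 : min (meromorphicOrderAt u s) (meromorphicOrderAt (fun _ : ℂ => -c) s) ≤
      meromorphicOrderAt (fun z => u z - c) s := by
    have h2 := meromorphicOrderAt_add hu (MeromorphicAt.const (-c) s)
    have h3 : (u + fun _ : ℂ => -c) = fun z => u z - c := by
      funext z
      simp [sub_eq_add_neg]
    rwa [h3] at h2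
  have h4 : (0 : WithTop ℤ) ≤ meromorphicOrderAt (fun _ : ℂ => -c) s :=
    (analyticAt_const).meromorphicOrderAt_nonneg
  have h5 : min (ordZ u s) 0 ≤ ordZ (fun z => u z - c) s := by
    have h6 : min (meromorphicOrderAt u s) 0 ≤ meromorphicOrderAt (fun z => u z - c) s :=
      (min_le_min_left _ h4).trans h1
    rw [← ordZ_cast ho, ← ordZ_cast hc] at h6
    exact_mod_cast h6
  have h7 : (min (ordZ u s : ℝ) 0) ≤ ordZ (fun z => u z - c) s := by exact_mod_cast h5
  refine max_le ?_ (le_max_right _ _)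
  rcases le_total (ordZ u s : ℝ) 0 with h8 | h8
  · rw [min_eq_left h8] at h7
    exact le_trans (by linarith) (le_max_left _ _)
  · rw [min_eq_right h8] at h7
    exact le_trans (by linarith) (le_max_right _ _)

end Pool.Agent.H92.GGL

end

section

/-!
# FC, module CharMero: small characteristic implies meromorphic at the puncture
-/

open Complex MeasureTheory Metric Set Topology Filter
open Pool.Agent.H92.GGL

noncomputable section

namespace Pool.Agent.H62.FC

/-- A set of points of a punctured disc with small counting function for arbitrarily small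
radii is finite. -/
private lemma CharMero_finite_of_count {P : Set ℂ} {C D : ℝ} (hP : ∀ s ∈ P, 0 < ‖s‖)
    (h : ∀ r₁, 0 < r₁ → ∃ r, 0 < r ∧ r < r₁ ∧ ∀ S : Finset ℂ, (∀ s ∈ S, s ∈ P) →
      ∑ s ∈ S, Real.posLog (‖s‖ / r) ≤ C - D * Real.log r) : P.Finite := by
  by_contra hinf
  obtain ⟨n₀, hn₀⟩ := exists_nat_gt D
  obtain ⟨S, hSP, hScard⟩ := (Set.not_finite.mp hinf).exists_subset_card_eq (n₀ + 1)
  have hSne : S.Nonempty := by
    rw [← Finset.card_pos, hScard]
    omega
  obtain ⟨s₀, hs₀, hmin⟩ := S.exists_min_image (fun s => ‖s‖) hSne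
  set δ := ‖s₀‖ with hδ
  have hδ0 : 0 < δ := hP s₀ (hSP hs₀)
  set n : ℝ := ((n₀ + 1 : ℕ) : ℝ) with hn
  have hnD : 1 < n - D := by
    rw [hn]
    push_cast
    linarith
  have hnpos : 0 ≤ n := Nat.cast_nonneg _
  set t₀ : ℝ := max (1 + -Real.log δ) (|C - n * Real.log δ| + 1) with ht₀
  obtain ⟨r, hr0, hr1, hr⟩ := h (Real.exp (-t₀)) (Real.exp_pos _)
  set t : ℝ := -Real.log r with ht
  have hrt : r = Real.exp (-t) := by
    rw [ht, neg_neg, Real.exp_log hr0]
  have htt : t₀ < t := by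
    have := Real.log_lt_log hr0 hr1
    rw [Real.log_exp] at this
    linarith
  have ht1 : -Real.log δ < t := by
    have h1 := le_max_left (1 + -Real.log δ) (|C - n * Real.log δ| + 1)
    linarith
  have ht3 : |C - n * Real.log δ| + 1 ≤ t := (le_max_right _ _).trans htt.le
  have hr2 : Real.exp (-t) < δ := by
    rw [← Real.exp_log hδ0]
    exact Real.exp_lt_exp.mpr (by linarith)
  have h1 := hr S (fun s hs => hSP hs)
  rw [hrt, Real.log_exp] at h1
  have h2 : n * (Real.log δ + t) ≤ ∑ s ∈ S, Real.posLog (‖s‖ / Real.exp (-t)) := by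
    have h3 : ∑ _s ∈ S, (Real.log δ + t) = n * (Real.log δ + t) := by
      rw [Finset.sum_const, hScard, nsmul_eq_mul]
    rw [← h3]
    refine Finset.sum_le_sum fun s hs => ?_
    have h4 : δ ≤ ‖s‖ := hmin s hs
    have h5 : Real.log δ + t = Real.log (δ / Real.exp (-t)) := by
      rw [Real.log_div hδ0.ne' (Real.exp_pos _).ne', Real.log_exp]
      ring
    rw [h5]
    refine le_trans ?_ (le_max_right _ _)
    refine Real.log_le_log (by positivity) ?_
    gcongr
  have h6 : (n - D) * t ≤ C - n * Real.log δ := by linarith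
  have h7 : t ≤ (n - D) * t := by
    have : 0 ≤ t := by
      have := abs_nonneg (C - n * Real.log δ)
      linarith
    nlinarith
  have h8 := le_abs_self (C - n * Real.log δ)
  linarith

private theorem CharMero_core {u : ℂ → ℂ} {R₀ R₁ : ℝ} (hR₁0 : 0 < R₁) (hR₁ : R₁ < R₀)
    (hu : ∀ z, 0 < ‖z‖ → ‖z‖ < R₀ → MeromorphicAt u z) {C D : ℝ}
    (hT : ∀ r₁, 0 < r₁ → ∃ r, 0 < r ∧ r < r₁ ∧ r < R₁ ∧
      ∀ S : Finset ℂ, (∀ s ∈ S, 0 < ‖s‖ ∧ ‖s‖ < R₁) →
      Real.circleAverage (fun z => Real.posLog ‖u z‖) 0 r +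
        ∑ s ∈ S, max (-(ordZ u s : ℝ)) 0 * Real.posLog (‖s‖ / r) ≤ C - D * Real.log r) :
    PunctMero u := by
  classical
  set Ω : Set ℂ := {z : ℂ | 0 < ‖z‖ ∧ ‖z‖ < R₀} with hΩ
  have hΩo : IsOpen Ω := isOpen_punctured R₀
  have hm : MeromorphicOn u Ω := fun z hz => hu z hz.1 hz.2
  -- the constant case
  by_cases hconst : ∃ c, ∃ z ∈ Ω, meromorphicOrderAt (fun z => u z - c) z = ⊤
  · obtain ⟨c, z₀, hz₀, hc⟩ := hconst
    have hmc : MeromorphicOn (fun z => u z - c) Ω := fun z hz =>
      (hm z hz).sub (MeromorphicAt.const c z)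
    have hall : ∀ z ∈ Ω, meromorphicOrderAt (fun z => u z - c) z = ⊤ := by
      intro z hz
      by_contra h
      exact (hmc.meromorphicOrderAt_ne_top_of_isPreconnected (isPreconnected_punctured R₀) hz
        hz₀ h) hc
    refine ⟨fun _ => c, MeromorphicAt.const c 0, ?_⟩
    filter_upwards [punctured_mem (hR₁0.trans hR₁)] with z hz
    have h3 := hall z hz
    rw [meromorphicOrderAt_eq_top_iff] at h3
    filter_upwards [h3] with w hw
    exact sub_eq_zero.mp hw
  push Not at hconst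
  have hord : ∀ z ∈ Ω, meromorphicOrderAt u z ≠ ⊤ := by
    intro z hz
    have := hconst 0 z hz
    simpa using this
  have hsub : ∀ s : ℂ, 0 < ‖s‖ → ‖s‖ < R₁ → s ∈ Ω := fun s h1 h2 => ⟨h1, h2.trans hR₁⟩
  -- integrability
  have hsph : ∀ r, 0 < r → r < R₁ → MeromorphicOn u (sphere 0 |r|) := by
    intro r h1 h2 z hz
    rw [mem_sphere_zero_iff_norm, abs_of_pos h1] at hz
    exact hm z (hsub z (by rw [hz]; exact h1) (by rw [hz]; exact h2))
  have hposnn : ∀ r, 0 < r → r < R₁ → 0 ≤ Real.circleAverage (fun z => Real.posLog ‖u z‖) 0 r := by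
    intro r h1 h2
    exact Real.circleAverage_nonneg_of_nonneg fun z _ => Real.posLog_nonneg
  -- finitely many poles
  have hpoles : {s : ℂ | (0 < ‖s‖ ∧ ‖s‖ < R₁) ∧ ordZ u s < 0}.Finite := by
    refine CharMero_finite_of_count (C := C) (D := D) (fun s hs => hs.1.1) ?_
    intro r₁ hr₁
    obtain ⟨r, h1, h1', h2, hTr⟩ := hT r₁ hr₁
    refine ⟨r, h1, h1', fun S hS => ?_⟩
    have h3 := hTr S (fun s hs => (hS s hs).1)
    have h4 := hposnn r h1 h2
    refine le_trans ?_ (le_trans (by linarith) h3) (b := ∑ s ∈ S, max (-(ordZ u s : ℝ)) 0 *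
      Real.posLog (‖s‖ / r))
    refine Finset.sum_le_sum fun s hs => ?_
    have h5 : ordZ u s ≤ -1 := by
      have := (hS s hs).2
      omega
    have h6 : (ordZ u s : ℝ) ≤ -1 := by exact_mod_cast h5
    have h7 : (1 : ℝ) ≤ max (-(ordZ u s : ℝ)) 0 := le_max_of_le_left (by linarith)
    have h8 : 0 ≤ Real.posLog (‖s‖ / r) := Real.posLog_nonneg
    nlinarith
  -- finitely many zeros of `u - c`
  have hzeros : ∀ c : ℂ, {s : ℂ | (0 < ‖s‖ ∧ ‖s‖ < R₁) ∧ 0 < ordZ (fun z => u z - c) s}.Finite := by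
    intro c
    have hmc : ∀ z, 0 < ‖z‖ → ‖z‖ < R₀ → MeromorphicAt (fun z => u z - c) z := fun z h1 h2 =>
      (hu z h1 h2).sub (MeromorphicAt.const c z)
    obtain ⟨A, B, hJ⟩ := jensen_punctured hR₁ hmc (fun z h1 h2 => hconst c z ⟨h1, h2⟩)
    refine CharMero_finite_of_count (C := C + Real.posLog ‖c‖ + Real.log 2 - A) (D := D + B)
      (fun s hs => hs.1.1) ?_
    intro r₁ hr₁
    obtain ⟨r, h1, h1', h2, hTr⟩ := hT r₁ hr₁
    refine ⟨r, h1, h1', fun S hS => ?_⟩
    have hfin := finite_ordZ (a := r) (b := R₁) h1 hR₁ hmc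
    set S' : Finset ℂ := S ∪ hfin.toFinset.filter (fun s => ‖s‖ < R₁) with hS'
    have hS'1 : ∀ s ∈ S', 0 < ‖s‖ ∧ ‖s‖ < R₁ := by
      intro s hs
      rw [hS', Finset.mem_union, Finset.mem_filter, hfin.mem_toFinset] at hs
      rcases hs with hs | hs
      · exact (hS s hs).1
      · exact ⟨h1.trans_le hs.1.1, hs.2⟩
    have hS'2 : ∀ s, r < ‖s‖ → ‖s‖ < R₁ → ordZ (fun z => u z - c) s ≠ 0 → s ∈ S' := by
      intro s h3 h4 h5
      rw [hS', Finset.mem_union, Finset.mem_filter, hfin.mem_toFinset]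
      exact Or.inr ⟨⟨h3.le, h4.le, h5⟩, h4⟩
    have h3 := hJ r h1 h2 S' (fun s hs => (hS'1 s hs).2) hS'2
    have h4 := hTr S' hS'1
    -- comparison of the means
    have hsphc : MeromorphicOn (fun z => u z - c) (sphere 0 |r|) := fun z hz =>
      (hsph r h1 h2 z hz).sub (MeromorphicAt.const c z)
    have h5 : Real.circleAverage (fun z => Real.log ‖u z - c‖) 0 r ≤
        Real.circleAverage (fun z => Real.posLog ‖u z‖) 0 r + (Real.posLog ‖c‖ + Real.log 2) := by
      have h6 : Real.circleAverage (fun z => Real.posLog ‖u z‖ + (Real.posLog ‖c‖ + Real.log 2)) 0 r =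
          Real.circleAverage (fun z => Real.posLog ‖u z‖) 0 r +
            (Real.posLog ‖c‖ + Real.log 2) := by
        rw [Real.circleAverage_fun_add (MeromorphicOn.circleIntegrable_posLog_norm (hsph r h1 h2))
          (circleIntegrable_const _ _ _), Real.circleAverage_const]
      rw [← h6]
      refine Real.circleAverage_mono (MeromorphicOn.circleIntegrable_log_norm hsphc) ?_ ?_
      · exact (MeromorphicOn.circleIntegrable_posLog_norm (hsph r h1 h2)).fun_add
          (circleIntegrable_const _ _ _)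
      · intro z _
        have h7 : Real.log ‖u z - c‖ ≤ Real.posLog ‖u z - c‖ := le_max_right _ _
        have h8 := Real.posLog_norm_add_le (u z) (-c)
        rw [norm_neg, ← sub_eq_add_neg] at h8
        linarith
    -- comparison of the sums
    have h6 : ∑ s ∈ S, Real.posLog (‖s‖ / r) ≤
        ∑ s ∈ S', (ordZ (fun z => u z - c) s : ℝ) * Real.posLog (‖s‖ / r) +
        ∑ s ∈ S', max (-(ordZ u s : ℝ)) 0 * Real.posLog (‖s‖ / r) := by
      rw [← Finset.sum_add_distrib]
      have h7 : ∑ s ∈ S, Real.posLog (‖s‖ / r) ≤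
          ∑ s ∈ S', max (ordZ (fun z => u z - c) s : ℝ) 0 * Real.posLog (‖s‖ / r) := by
        refine le_trans (b := ∑ s ∈ S, max (ordZ (fun z => u z - c) s : ℝ) 0 *
          Real.posLog (‖s‖ / r)) ?_ ?_
        · refine Finset.sum_le_sum fun s hs => ?_
          have h8 : 1 ≤ ordZ (fun z => u z - c) s := by
            have := (hS s hs).2
            omega
          have h9 : (1 : ℝ) ≤ ordZ (fun z => u z - c) s := by exact_mod_cast h8
          have h10 : (1 : ℝ) ≤ max (ordZ (fun z => u z - c) s : ℝ) 0 := le_max_of_le_left h9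
          have h11 : 0 ≤ Real.posLog (‖s‖ / r) := Real.posLog_nonneg
          nlinarith
        · refine Finset.sum_le_sum_of_subset_of_nonneg Finset.subset_union_left ?_
          intro s _ _
          exact mul_nonneg (le_max_right _ _) Real.posLog_nonneg
      refine h7.trans (Finset.sum_le_sum fun s hs => ?_)
      have hs' := hS'1 s hs
      have h8 := neg_ordZ_sub_const_le (hu s hs'.1 (hs'.2.trans hR₁)) (hord s (hsub s hs'.1 hs'.2))
        (hconst c s (hsub s hs'.1 hs'.2))
      rw [← add_mul]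
      refine mul_le_mul_of_nonneg_right ?_ Real.posLog_nonneg
      have h9 : max (ordZ (fun z => u z - c) s : ℝ) 0 = ordZ (fun z => u z - c) s +
          max (-(ordZ (fun z => u z - c) s : ℝ)) 0 := by
        rcases le_total (ordZ (fun z => u z - c) s : ℝ) 0 with h | h
        · rw [max_eq_right h, max_eq_left (by linarith)]
          ring
        · rw [max_eq_left h, max_eq_right (by linarith)]
          ring
      rw [h9]
      linarith
    linarith
  -- the normal form
  set v : ℂ → ℂ := toMeromorphicNFOn u Ω with hv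
  have hvNF : MeromorphicNFOn v Ω := meromorphicNFOn_toMeromorphicNFOn u Ω
  have huv : ∀ z ∈ Ω, u =ᶠ[𝓝[≠] z] v := fun z hz =>
    (hm.toMeromorphicNFOn_eq_self_on_nhdsNE hz).symm
  obtain ⟨ε₁, hε₁, hε₁P⟩ := exists_radius hpoles (fun s hs => hs.1.1)
  have hnonneg : ∀ z, 0 < ‖z‖ → ‖z‖ < min ε₁ R₁ → 0 ≤ meromorphicOrderAt u z := by
    intro z h1 h2
    have h3 : ‖z‖ < ε₁ := h2.trans_le (min_le_left _ _)
    have h4 : ‖z‖ < R₁ := h2.trans_le (min_le_right _ _)
    by_contra h
    push Not at h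
    have h5 : ordZ u z < 0 := by
      rw [← ordZ_cast (hord z (hsub z h1 h4))] at h
      exact_mod_cast h
    exact absurd (hε₁P z ⟨⟨h1, h4⟩, h5⟩) (not_le.mpr h3)
  have hvan : ∀ z, 0 < ‖z‖ → ‖z‖ < min ε₁ R₁ → AnalyticAt ℂ v z := by
    intro z h1 h2
    have hz : z ∈ Ω := hsub z h1 (h2.trans_le (min_le_right _ _))
    rw [← (hvNF hz).meromorphicOrderAt_nonneg_iff_analyticAt, ← meromorphicOrderAt_congr (huv z hz)]
    exact hnonneg z h1 h2
  have hmin : 0 < min ε₁ R₁ := lt_min hε₁ hR₁0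
  have hmero : MeromorphicAt v 0 := by
    refine meromorphicAt_of_omits hmin hvan fun c => ?_
    obtain ⟨δ, hδ, hδP⟩ := exists_radius (hzeros c) (fun s hs => hs.1.1)
    refine ⟨min δ (min ε₁ R₁), lt_min hδ hmin, fun z h1 h2 hzc => ?_⟩
    have h3 : ‖z‖ < δ := h2.trans_le (min_le_left _ _)
    have h4 : ‖z‖ < min ε₁ R₁ := h2.trans_le (min_le_right _ _)
    have h5 : ‖z‖ < R₁ := h4.trans_le (min_le_right _ _)
    have hz : z ∈ Ω := hsub z h1 h5
    have h6 : AnalyticAt ℂ (fun w => v w - c) z := (hvan z h1 h4).sub analyticAt_const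
    have h7 : (fun w => u w - c) =ᶠ[𝓝[≠] z] fun w => v w - c := by
      filter_upwards [huv z hz] with w hw
      rw [hw]
    have h8 : 0 < ordZ (fun w => u w - c) z := by
      have h9 : 0 < meromorphicOrderAt (fun w => u w - c) z := by
        rw [meromorphicOrderAt_congr h7, ← tendsto_zero_iff_meromorphicOrderAt_pos h6.meromorphicAt]
        have h10 := h6.continuousAt.tendsto
        simp only [hzc, sub_self] at h10
        exact h10.mono_left nhdsWithin_le_nhds
      rw [← ordZ_cast (hconst c z hz)] at h9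
      exact_mod_cast h9
    exact absurd (hδP z ⟨⟨h1, h5⟩, h8⟩) (not_le.mpr h3)
  refine ⟨v, hmero, ?_⟩
  filter_upwards [punctured_mem (hR₁0.trans hR₁)] with z hz
  exact huv z hz

theorem punctMero_of_nevT {R₀ R₁ : ℝ} (h1 : 0 < R₁) (h : R₁ < R₀) {u : ℂ → ℂ}
    (hu : MeroPunct R₀ u) {C : ℝ} {E : Set ℝ} (hE : volume E ≠ ⊤)
    (hT : ∀ x, Real.exp (-x) < R₁ → x ∉ E → nevT u R₁ x ≤ C * (1 + |x|)) : PunctMero u := by
  classical
  refine CharMero_core h1 h hu.mero (C := C) (D := C) ?_
  intro r₁ hr₁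
  -- a good radius
  set a : ℝ := max 0 (max (-Real.log r₁) (-Real.log R₁)) with ha
  obtain ⟨x, hxa, hxE⟩ : ∃ x, a < x ∧ x ∉ E := by
    by_contra hcon
    push Not at hcon
    have h2 : Set.Ioi a ⊆ E := fun x hx => hcon x hx
    have h3 := measure_mono (μ := volume) h2
    rw [Real.volume_Ioi] at h3
    exact hE (top_le_iff.mp h3)
  have hx0 : 0 < x := lt_of_le_of_lt (le_max_left _ _) hxa
  have hxr : -Real.log r₁ < x :=
    lt_of_le_of_lt ((le_max_left _ _).trans (le_max_right _ _)) hxa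
  have hxR : -Real.log R₁ < x :=
    lt_of_le_of_lt ((le_max_right _ _).trans (le_max_right _ _)) hxa
  have hr1 : Real.exp (-x) < r₁ := by
    rw [← Real.exp_log hr₁]
    exact Real.exp_lt_exp.mpr (by linarith)
  have hr2 : Real.exp (-x) < R₁ := by
    rw [← Real.exp_log h1]
    exact Real.exp_lt_exp.mpr (by linarith)
  refine ⟨Real.exp (-x), Real.exp_pos _, hr1, hr2, fun S hS => ?_⟩
  have h2 := hT x hr2 hxE
  rw [abs_of_pos hx0] at h2
  rw [Real.log_exp]
  set r : ℝ := Real.exp (-x) with hr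
  have hr0 : 0 < r := Real.exp_pos _
  -- the counting function as a finite sum
  have hfin := finite_ordZ (a := r) (b := R₁) hr0 h hu.mero
  set T : Finset ℂ := hfin.toFinset.filter (fun s => r < ‖s‖ ∧ ‖s‖ < R₁) with hTd
  have hcnt : cnt (fun s => max (-(ordZ u s : ℝ)) 0) R₁ r =
      ∑ s ∈ T, max (-(ordZ u s : ℝ)) 0 * Real.log (‖s‖ / r) := by
    unfold cnt
    refine finsum_mem_eq_sum_of_inter_support_eq _ ?_
    ext s
    simp only [Set.mem_inter_iff, Function.mem_support, Finset.mem_coe, hTd, Finset.mem_filter,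
      Set.Finite.mem_toFinset]
    constructor
    · rintro ⟨⟨h3, h4⟩, h5⟩
      refine ⟨⟨⟨h3.le, h4.le, ?_⟩, h3, h4⟩, h5⟩
      intro h6
      apply h5
      rw [h6]
      simp
    · rintro ⟨⟨_, h3, h4⟩, h5⟩
      exact ⟨⟨h3, h4⟩, h5⟩
  have hle : ∑ s ∈ S, max (-(ordZ u s : ℝ)) 0 * Real.posLog (‖s‖ / r) ≤
      ∑ s ∈ T, max (-(ordZ u s : ℝ)) 0 * Real.log (‖s‖ / r) := by
    have h3 : ∑ s ∈ T, max (-(ordZ u s : ℝ)) 0 * Real.log (‖s‖ / r) =
        ∑ s ∈ T, max (-(ordZ u s : ℝ)) 0 * Real.posLog (‖s‖ / r) := by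
      refine Finset.sum_congr rfl fun s hs => ?_
      have hs' : r < ‖s‖ := (Finset.mem_filter.mp hs).2.1
      have h4 : Real.posLog (‖s‖ / r) = Real.log (‖s‖ / r) := by
        refine max_eq_right (Real.log_nonneg ?_)
        rw [one_le_div hr0]
        exact hs'.le
      rw [h4]
    rw [h3]
    have h4 : ∑ s ∈ T, max (-(ordZ u s : ℝ)) 0 * Real.posLog (‖s‖ / r) =
        ∑ s ∈ S ∪ T, max (-(ordZ u s : ℝ)) 0 * Real.posLog (‖s‖ / r) := by
      refine Finset.sum_subset Finset.subset_union_right ?_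
      intro s hs hsT
      have hsS : s ∈ S := by
        rcases Finset.mem_union.mp hs with h5 | h5
        · exact h5
        · exact absurd h5 hsT
      have hsn := hS s hsS
      by_cases h5 : r < ‖s‖
      · have h6 : ordZ u s = 0 := by
          by_contra h6
          apply hsT
          rw [hTd, Finset.mem_filter, hfin.mem_toFinset]
          exact ⟨⟨h5.le, hsn.2.le, h6⟩, h5, hsn.2⟩
        rw [h6]
        simp
      · have h6 : Real.posLog (‖s‖ / r) = 0 := by
          rw [Real.posLog_eq_zero_iff, abs_of_nonneg (by positivity), div_le_one hr0]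
          exact not_lt.mp h5
        rw [h6, mul_zero]
    rw [h4]
    exact Finset.sum_le_sum_of_subset_of_nonneg Finset.subset_union_left
      fun s _ _ => mul_nonneg (le_max_right _ _) Real.posLog_nonneg
  have h3 : nevT u R₁ x = Real.circleAverage (fun z => Real.posLog ‖u z‖) 0 r +
      cnt (fun s => max (-(ordZ u s : ℝ)) 0) R₁ r := rfl
  rw [h3, hcnt] at h2
  linarith

end Pool.Agent.H62.FC

end
end
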