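import Pool.Agent.H94.G4T.M10
import Pool.Agent.H94.G4T.M31
import Pool.Agent.H94.G4T.M36
import Pool.Agent.H94.G4T.M56
import Pool.Agent.H94.G4T.M65
import Pool.Agent.H94.G4T.M69
import Pool.Agent.H94.G4T.M76

/-! The parts of this file: H36.BPL.CurveK, H13.CV.Cub, H17EF.Closed, G3.X.KpE, G3.X.IIa. -/

section

/-!
# BPL CurveK: curves

An open part `K` of a closed cone `X`, proper over an affine variety, whose complement `X ∖ K` contains no curves (for instance `X` is the cone of a curve).  If the entire curves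
of order at most two in `K` are constant then all entire curves in `K` are constant and all holomorphic maps from the punctured disc to `K` extend.
The metric is the Fubini-Study metric.
-/

set_option autoImplicit false

open Topology Filter Metric

noncomputable section

namespace Pool.Agent.H36.BPL

open Pool.Agent.H17 (PN HolomorphicInto puncturedDisc)
open Pool.Agent.H36.BP

variable {N : ℕ}

theorem continuousAt_fs {x : EN N} (hx : x ≠ 0) (v : EN N) : ContinuousAt (fun p : EN N × EN N => fs p.1 p.2) (x, v) := by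
  unfold fs
  refine wd_cont.continuousAt.div ?_ ?_
  · exact (continuous_fst.norm.pow 2).continuousAt
  · exact pow_ne_zero 2 (norm_ne_zero_iff.mpr hx)

/-- the metric data of the Fubini-Study metric -/
theorem curve_metric {X K : Set (EN N)} {M : ℕ} {Φ : EN N → Fin M → ℂ} (h0 : (0 : EN N) ∉ X) (hcl : ∀ x ∈ closure X, x ≠ 0 → x ∈ X)
    (hKX : K ⊆ X) (hKs : ∀ x ∈ K, ∀ c : ℂ, c ≠ 0 → c • x ∈ K) (hrel : ∀ x ∈ K, ∀ᶠ y in 𝓝 x, y ∈ X → y ∈ K) (hΦ : AffProper X K Φ)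
    (hbd : ∀ (F : ℂ → EN N) (z₀ : ℂ), AnalyticAt ℂ F z₀ → (∀ᶠ z in 𝓝 z₀, F z ∈ X ∧ F z ∉ K) → ∀ᶠ z in 𝓝 z₀, ∃ c : ℂ, F z = c • F z₀) :
    MetricData K ∅ (fun x v => fs x v) (fun _ => 1) 1 1 (3 / 2) := by
  have hne : ∀ x ∈ K, x ≠ 0 := fun x hx e => h0 (e ▸ hKX hx)
  refine
  { ne := hne
    smul := hKs
    c₀_pos := one_pos
    C_nonneg := by norm_num
    nonneg := fun x _ v => fs_nonneg x v
    usc := fun x hx v a ha => ((continuousAt_fs (hne x hx) v).eventually_lt continuousAt_const ha).mono fun p hp _ => hp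
    inv := fun x hx v c a hc => fs_inv (hne x hx) v hc a
    hom := fun x _ v c => fs_smul_right x v c
    zero := fun F z₀ _ h => absurd h.self_of_nhds.2 (Set.notMem_empty _)
    sub := ?_
    ρ_nonneg := fun x _ => zero_le_one
    lower := fun x _ v => by simp
    ρ_zero := fun F z₀ _ _ h => ?_
    rel_open := ?_
    hur := hur_of_affProper (fun x hx hx0 => hcl x (closure_mono hKX hx) hx0) hKs hΦ
    lim := ?_ }
  · intro F z₀ hF hFK hpos
    have h1 := (Sub.fs_curve hF hpos).mul (Sub.norm_rpow hF (hne _ hFK.self_of_nhds) (-1))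
    have h2 : -(fs (F z₀) (deriv F z₀)) ^ 2 + -1 * fs (F z₀) (deriv F z₀) ^ 2 / 2 = -(3 / 2 * Pool.Agent.H36.BP.mt (fun x v => fs x v) F z₀ ^ 2) := by
      unfold Pool.Agent.H36.BP.mt
      ring
    rw [h2] at h1
    exact h1
  · exact absurd h.exists (by rintro ⟨z, hz⟩; exact one_ne_zero hz)
  · intro x hx
    filter_upwards [hrel x hx, isOpen_ne.mem_nhds (hne x hx)] with y hy hy0 hyc
    exact hy (hcl y (closure_mono hKX hyc) hy0)
  · intro l hl F H z₀ s hs hF hlim hH0 hHK ε hε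
    have hmem : z₀ ∈ ball z₀ s := mem_ball_self hs
    have hHd : DifferentiableOn ℂ H (ball z₀ s) := hlim.differentiableOn (hF.mono fun n hn => hn.1) isOpen_ball
    have hHa : AnalyticAt ℂ H z₀ := hHd.analyticAt (isOpen_ball.mem_nhds hmem)
    have hHX : ∀ᶠ z in 𝓝 z₀, H z ∈ X ∧ H z ∉ K := by
      filter_upwards [isOpen_ball.mem_nhds hmem, hHa.continuousAt.eventually_ne hH0] with z hz hz0
      refine ⟨hcl _ ?_ hz0, hHK z hz⟩
      have h1 : Tendsto (fun n => F n z) l (𝓝 (H z)) := hlim.tendsto_at hz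
      refine mem_closure_of_tendsto h1 ?_
      filter_upwards [hF] with n hn
      exact hKX (hn.2 z hz)
    have hconst := hbd H z₀ hHa hHX
    -- the derivative of the limit
    have hder : ∃ a : ℂ, deriv H z₀ = a • H z₀ := by
      obtain ⟨j, hj⟩ : ∃ j, (H z₀) j ≠ 0 := by
        by_contra hcon
        push Not at hcon
        exact hH0 (by ext i; exact hcon i)
      have hcoord : AnalyticAt ℂ (fun w => H w j) z₀ := analyticAt_pi_iff.mp (analyticAt_ofLp hHa) j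
      have he : H =ᶠ[𝓝 z₀] fun w => (H w j / H z₀ j) • H z₀ := by
        filter_upwards [hconst] with w hw
        obtain ⟨c, hc⟩ := hw
        have h3 : H w j = c * H z₀ j := by rw [hc]; rfl
        rw [h3, mul_div_cancel_right₀ _ hj]
        exact hc
      have hd : HasDerivAt (fun w => (H w j / H z₀ j) • H z₀) ((deriv (fun w => H w j) z₀ / H z₀ j) • H z₀) z₀ :=
        (hcoord.differentiableAt.hasDerivAt.div_const _).smul_const _
      exact ⟨_, (he.deriv_eq).trans hd.deriv⟩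
    obtain ⟨a, ha⟩ := hder
    have hz : fs (H z₀) (deriv H z₀) = 0 := by
      unfold fs
      rw [(wd_eq_zero hH0).mpr ⟨a, ha⟩, zero_div]
    have h1 : Tendsto (fun n => F n z₀) l (𝓝 (H z₀)) := hlim.tendsto_at hmem
    have hd : TendstoLocallyUniformlyOn (deriv ∘ F) (deriv H) l (ball z₀ s) :=
      hlim.deriv (hF.mono fun n hn => hn.1) isOpen_ball
    have h2 : Tendsto (fun n => deriv (F n) z₀) l (𝓝 (deriv H z₀)) := hd.tendsto_at hmem
    have h3 : Tendsto (fun n => (F n z₀, deriv (F n) z₀)) l (𝓝 (H z₀, deriv H z₀)) := h1.prodMk_nhds h2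
    have h4 := (continuousAt_fs hH0 (deriv H z₀)).tendsto.comp h3
    simp only [hz] at h4
    exact h4.eventually_lt_const hε

variable {V : Type} [NormedAddCommGroup V] [NormedSpace ℂ V]

end Pool.Agent.H36.BPL

end
end

section

/-!
# CV Cub: a smooth cubic contains an entire curve

`fs_ge`: for `x ∈ Cub`, `cr x v = l • gr x`: `wd x v = ‖cr x v‖` (Lagrange's identity, `wd_sq`; norm of the complex Euclidean space), so `fs x v = ‖l‖ ‖gr x‖ / ‖x‖²`.  The function `‖gr x‖ / ‖x‖²` is continuous,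
positive (`gr_ne`) and invariant under `x → c x` (`gr (c x) = c² gr x`), so it has a positive lower bound `c₀` (compactness of `{x | ‖x‖ = 1, cub x = 0}`, non-empty or trivial).
`exists_entire_cubic`: suppose there is no such `F`.  Then `BrodyMod (Cub α β) ∅` (vacuously), and `curve_metric` (`Pool/Agent/H36/BPL/CurveK.lean`, with `X = K = Cub α β`, `Φ = 0 : EN 2 → Fin 0 → ℂ`; the cone
is closed apart from `0`) and `brody_bound` (`Pool/Agent/H36/BP/Brody.lean`) give `C` with `fs (F 0) (F' 0) ≤ C` for all holomorphic discs `F` in `Cub α β` (`mt (fs) F 0 = fs (F 0) (deriv F 0)`).  By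
`exists_disc` and `Dsc.dbl` (induction on `k`) there are discs with `l` replaced by `2 ^ k l`; so `c₀ 2 ^ k ‖l 0‖ ≤ C` for all `k`: contradiction.
-/

set_option autoImplicit false

open Topology Filter Metric
open Pool.Agent.H36.BP

noncomputable section

namespace Pool.Agent.H13.CV

/-- Lagrange's identity -/
private theorem Cub_lagrange (a b c x y z : ℂ) :
    (‖a‖ ^ 2 + ‖b‖ ^ 2 + ‖c‖ ^ 2) * (‖x‖ ^ 2 + ‖y‖ ^ 2 + ‖z‖ ^ 2) -
      ‖x * (starRingEnd ℂ) a + y * (starRingEnd ℂ) b + z * (starRingEnd ℂ) c‖ ^ 2 =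
    ‖b * z - c * y‖ ^ 2 + ‖c * x - a * z‖ ^ 2 + ‖a * y - b * x‖ ^ 2 := by
  simp only [Complex.sq_norm, Complex.normSq_apply, Complex.add_re, Complex.add_im, Complex.sub_re, Complex.sub_im,
    Complex.mul_re, Complex.mul_im, Complex.conj_re, Complex.conj_im]
  ring

private theorem Cub_wd (x v : EN 2) : wd x v = ‖(WithLp.toLp 2 (cr x.ofLp v.ofLp) : EN 2)‖ := by
  have h : wd x v ^ 2 = ‖(WithLp.toLp 2 (cr x.ofLp v.ofLp) : EN 2)‖ ^ 2 := by
    rw [wd_sq, EuclideanSpace.norm_sq_eq, EuclideanSpace.norm_sq_eq, EuclideanSpace.norm_sq_eq, PiLp.inner_apply]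
    have hs : ∀ f : Fin (2 + 1) → ℝ, ∑ i, f i = f 0 + f 1 + f 2 := fun f => Fin.sum_univ_three f
    have hs' : ∀ f : Fin (2 + 1) → ℂ, ∑ i, f i = f 0 + f 1 + f 2 := fun f => Fin.sum_univ_three f
    simp only [hs, hs', RCLike.inner_apply]
    exact Cub_lagrange _ _ _ _ _ _
  exact (pow_left_inj₀ (wd_nonneg _ _) (norm_nonneg _) two_ne_zero).mp h

private theorem Cub_gr_smul (α β c : ℂ) (x : Fin 3 → ℂ) : gr α β (c • x) = c ^ 2 • gr α β x := by
  unfold gr
  ext i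
  fin_cases i <;> simp only [Pi.smul_apply, smul_eq_mul] <;> simp <;> ring

private theorem Cub_cub_smul (α β c : ℂ) (x : Fin 3 → ℂ) : cub α β (c • x) = c ^ 3 * cub α β x := by
  unfold cub
  simp only [Pi.smul_apply, smul_eq_mul]
  ring

private theorem Cub_cont_cub (α β : ℂ) : Continuous fun x : EN 2 => cub α β x.ofLp := by
  unfold cub
  fun_prop

private theorem Cub_cont_gr (α β : ℂ) : Continuous fun x : EN 2 => ‖(WithLp.toLp 2 (gr α β x.ofLp) : EN 2)‖ := by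
  have h : Continuous fun x : EN 2 => gr α β x.ofLp := by
    refine continuous_pi fun i => ?_
    unfold gr
    fin_cases i
    · show Continuous fun x : EN 2 => -12 * x.ofLp 0 ^ 2 + α * x.ofLp 2 ^ 2
      fun_prop
    · show Continuous fun x : EN 2 => 2 * x.ofLp 1 * x.ofLp 2
      fun_prop
    · show Continuous fun x : EN 2 => x.ofLp 1 ^ 2 + 2 * α * x.ofLp 0 * x.ofLp 2 + 3 * β * x.ofLp 2 ^ 2
      fun_prop
  fun_prop

theorem fs_ge {α β : ℂ} (hd : α ^ 3 ≠ 27 * β ^ 2) : ∃ c₀ : ℝ, 0 < c₀ ∧ ∀ (x v : EN 2) (l : ℂ), x ∈ Cub α β → cr x.ofLp v.ofLp = l • gr α β x.ofLp → c₀ * ‖l‖ ≤ fs x v := by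
  have hK : IsCompact (sphere (0 : EN 2) 1 ∩ {x | cub α β x.ofLp = 0}) :=
    (isCompact_sphere _ _).inter_right (isClosed_eq (Cub_cont_cub α β) continuous_const)
  obtain ⟨c₀, hc₀, hmin⟩ : ∃ c₀ : ℝ, 0 < c₀ ∧ ∀ x ∈ sphere (0 : EN 2) 1 ∩ {x | cub α β x.ofLp = 0},
      c₀ ≤ ‖(WithLp.toLp 2 (gr α β x.ofLp) : EN 2)‖ := by
    rcases Set.eq_empty_or_nonempty (sphere (0 : EN 2) 1 ∩ {x | cub α β x.ofLp = 0}) with h | h
    · exact ⟨1, one_pos, fun x hx => by rw [h] at hx; exact absurd hx (Set.notMem_empty x)⟩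
    · obtain ⟨x₀, hx₀, hm⟩ := hK.exists_isMinOn h (Cub_cont_gr α β).continuousOn
      refine ⟨‖(WithLp.toLp 2 (gr α β x₀.ofLp) : EN 2)‖, ?_, fun x hx => hm hx⟩
      rw [norm_pos_iff]
      intro h0
      have hne : x₀.ofLp ≠ 0 := by
        intro h1
        have h2 : x₀ = 0 := by
          ext i
          exact congrFun h1 i
        have h3 := hx₀.1
        rw [h2] at h3
        simp at h3
      refine gr_ne hd hne hx₀.2 ?_
      exact congrArg WithLp.ofLp h0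
  refine ⟨c₀, hc₀, fun x v l hx hcr => ?_⟩
  have hn : 0 < ‖x‖ := norm_pos_iff.2 hx.1
  have h1 := hmin (((‖x‖⁻¹ : ℝ) : ℂ) • x) ⟨?_, ?_⟩
  · have h2 : (WithLp.toLp 2 (gr α β (((‖x‖⁻¹ : ℝ) : ℂ) • x).ofLp) : EN 2) =
        (((‖x‖⁻¹ : ℝ) : ℂ) ^ 2) • (WithLp.toLp 2 (gr α β x.ofLp) : EN 2) := by
      have h3 := Cub_gr_smul α β ((‖x‖⁻¹ : ℝ) : ℂ) x.ofLp
      rw [WithLp.ofLp_smul, h3, WithLp.toLp_smul]
    rw [h2, norm_smul, norm_pow, Complex.norm_real, Real.norm_of_nonneg (by positivity)] at h1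
    unfold fs
    rw [Cub_wd, hcr, WithLp.toLp_smul, norm_smul, mul_comm c₀, mul_div_assoc]
    refine mul_le_mul_of_nonneg_left (h1.trans (le_of_eq ?_)) (norm_nonneg l)
    field_simp
  · rw [mem_sphere_zero_iff_norm, norm_smul, Complex.norm_real, Real.norm_of_nonneg (by positivity)]
    exact inv_mul_cancel₀ hn.ne'
  · show cub α β (((‖x‖⁻¹ : ℝ) : ℂ) • x).ofLp = 0
    rw [WithLp.ofLp_smul, Cub_cub_smul, hx.2, mul_zero]

theorem exists_entire_cubic {α β : ℂ} (hd : α ^ 3 ≠ 27 * β ^ 2) :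
    ∃ F : ℂ → EN 2, Differentiable ℂ F ∧ (∀ z, F z ∈ Cub α β) ∧ ∃ z w, ∀ c : ℂ, F z ≠ c • F w := by
  by_contra hcon
  have hB : BrodyMod (Cub α β) ∅ := fun F h1 h2 h3 => absurd ⟨F, h1, h2, h3⟩ hcon
  have h0 : (0 : EN 2) ∉ Cub α β := fun h => h.1 rfl
  have hΦ : Pool.Agent.H36.BPL.AffProper (Cub α β) (Cub α β) (fun _ : EN 2 => (0 : Fin 0 → ℂ)) :=
    { smul := fun _ _ _ _ => rfl
      cont := continuousOn_const
      hol := fun _ _ _ _ => analyticAt_const
      proper := fun x hx hx' => absurd hx hx'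
      iso := fun F z₀ _ h => Or.inr (h.filter_mono nhdsWithin_le_nhds) }
  have hM := Pool.Agent.H36.BPL.curve_metric (X := Cub α β) (K := Cub α β) h0 ?_ le_rfl ?_
    (fun x _ => Eventually.of_forall fun y hy => hy) hΦ
    (fun F z₀ _ h => absurd h.self_of_nhds.1 h.self_of_nhds.2)
  · obtain ⟨L, hL, hbd⟩ := brody_bound hM hB
    obtain ⟨c₀, hc₀, hfs⟩ := fs_ge hd
    obtain ⟨l, F, hF⟩ := exists_disc α β
    have hk : ∀ k : ℕ, ∃ G : ℂ → EN 2, Dsc α β (fun z => 2 ^ k * l z) G := by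
      intro k
      induction k with
      | zero => exact ⟨F, by simpa using hF⟩
      | succ k ih =>
        obtain ⟨G, hG⟩ := ih
        have h1 := hG.dbl hd
        have h2 : (fun z => 2 * (2 ^ k * l z)) = fun z => 2 ^ (k + 1) * l z := by
          funext z
          ring
        rw [h2] at h1
        exact ⟨_, h1⟩
    have hle : ∀ k : ℕ, c₀ * ‖l 0‖ * 2 ^ k ≤ L := by
      intro k
      obtain ⟨G, hG⟩ := hk k
      have hm : (0 : ℂ) ∈ ball (0 : ℂ) 1 := mem_ball_self one_pos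
      have h1 := hfs (G 0) (deriv G 0) _ (hG.curve.2 0 hm) (hG.eq 0 hm)
      have h2 : fs (G 0) (deriv G 0) ≤ L := hbd G hG.curve
      rw [norm_mul, norm_pow, Complex.norm_ofNat] at h1
      linarith
    have hl0 : 0 < ‖l 0‖ := norm_pos_iff.2 (hF.ne 0 (mem_ball_self one_pos))
    obtain ⟨k, hk2⟩ := pow_unbounded_of_one_lt (L / (c₀ * ‖l 0‖)) (one_lt_two : (1 : ℝ) < 2)
    rw [div_lt_iff₀ (by positivity)] at hk2
    have h3 := hle k
    linarith
  · intro x hx hx0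
    refine ⟨hx0, ?_⟩
    have hcl : IsClosed {x : EN 2 | cub α β x.ofLp = 0} := isClosed_eq (Cub_cont_cub α β) continuous_const
    exact closure_minimal (fun y hy => hy.2) hcl hx
  · intro x hx c hc
    refine ⟨smul_ne_zero hc hx.1, ?_⟩
    show cub α β (c • x).ofLp = 0
    rw [WithLp.ofLp_smul, Cub_cub_smul, hx.2, mul_zero]

end Pool.Agent.H13.CV

end
end

section

/-!
# EF Closed: unions of closed subsets of a projective variety
-/

set_option autoImplicit false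

open Topology Filter MvPolynomial

noncomputable section

namespace Pool.Agent.H17EF

open Pool.Agent.H17 (PN VanishesAt HolomorphicInto ZariskiClosedIn)
open Pool.Agent.H62.FC (Homog)

variable {N : ℕ} {P : Ideal (MvPolynomial (Fin (N + 1)) ℂ)}

/-- A form which is not in the homogeneous prime ideal `P` does not vanish at some point of the variety of `P`. -/
theorem exists_point [hPp : P.IsPrime] (hP : Homog P) (hX : ∃ i, (X i : MvPolynomial (Fin (N + 1)) ℂ) ∉ P)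
    {Q : MvPolynomial (Fin (N + 1)) ℂ} (hQP : Q ∉ P) {n : ℕ} (hQ : Q.IsHomogeneous n) : ∃ x ∈ projVar P, ¬ VanishesAt Q x := by
  obtain ⟨i, hi⟩ := hX
  have h1 : Q * X i ∉ P := fun h => (hPp.mem_or_mem h).elim hQP hi
  obtain ⟨x, hx, hx'⟩ : ∃ x : Fin (N + 1) → ℂ, (∀ R ∈ P, eval x R = 0) ∧ eval x (Q * X i) ≠ 0 := by
    by_contra hcon
    push Not at hcon
    apply h1
    rw [← hPp.radical, ← MvPolynomial.vanishingIdeal_zeroLocus_eq_radical (K := ℂ) P, MvPolynomial.mem_vanishingIdeal_iff]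
    intro x hx
    rw [MvPolynomial.mem_zeroLocus_iff] at hx
    rw [MvPolynomial.aeval_eq_eval]
    exact hcon x fun R hR => by
      have := hx R hR
      rwa [MvPolynomial.aeval_eq_eval] at this
  rw [map_mul, eval_X] at hx'
  have hx0 : x ≠ 0 := by
    rintro rfl
    simp at hx'
  refine ⟨Projectivization.mk ℂ x hx0, (mk_mem_projVar hP hx0).2 ⟨hx0, hx⟩, ?_⟩
  unfold VanishesAt
  obtain ⟨a, ha, hrep⟩ := Pool.Agent.H36.BP.rep_mk hx0
  rw [hrep, mk_mem_projVar.eval_smul_form' hQ]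
  exact mul_ne_zero (pow_ne_zero n ha) (left_ne_zero_of_mul hx')

/-- if the variety of `P` is not empty, some coordinate is not in `P` -/
theorem exists_coord {x : PN N} (hx : x ∈ projVar P) : ∃ i, (X i : MvPolynomial (Fin (N + 1)) ℂ) ∉ P := by
  by_contra hcon
  push Not at hcon
  apply x.rep_nonzero
  funext i
  have := hx _ (hcon i) 1 (isHomogeneous_X ℂ i)
  unfold VanishesAt at this
  simpa using this

end Pool.Agent.H17EF

end
end

section

/-!
# G3 X KpE: the coordinates exist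

`ψ` from `Pool.Agent.H62.BU.local_inverse` for `κ` at `0` (`IsCoord.an`, `inj`).  Choose `r₁ > 0` such that `ψ` is analytic and `κ (ψ y) = y` for `y ∈ ball p r₁`; then `R > 0` such that for `q ∈ ball 0 R`: `κ` is analytic at `q`, `ψ (κ q) = q`, `IsCoord.mem_iff`, `κ q ∈ ball p (min r₁ (δ / 2))` (`δ` from `Lat.disc`):
then `κ q - κ q' ∈ Λ` has norm `< δ`, so it is `0` and `q = ψ (κ q) = q'`.  `r₀`: `ψ y ∈ ball 0 R` for `y ∈ ball p r₀`, `r₀ ≤ r₁` (continuity of `ψ` at `p`, `ψ p = 0`).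
-/

set_option autoImplicit false

open Topology Filter Metric

namespace Pool.Agent.GX

open Pool.Agent.H36.BP (EN fs wd)
open Pool.Agent.H14.PP (IsCone CurveAt Tan)
open Pool.Agent.H62.EF (MN pr)
open Pool.Agent.AD (Vd Chart Charts IsGerm)
open Pool.Agent.TG (TMap Lat tl nm IsStr IsNC IsCoord Geo VForm ms Str IsPrim Cap IRel II TransAt Gd Cst DV fr tc)

variable {N k : ℕ}

variable {X : Set (EN N)} {Λ : AddSubgroup (Vd (k + 1))} {u : EN N → Vd (k + 1)} {D B : Set (Vd (k + 1))}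
  {κ ψ : Vd (k + 1) → Vd (k + 1)} {R : ℝ} {g : ℂ → Fin k → ℂ} {Γ₀ : AddSubgroup ℂ} {s : ℝ}

theorem exists_kp (G : Geo X Λ u D B) {p : Vd (k + 1)} (hκ : IsCoord D κ p) :
    ∃ (ψ : Vd (k + 1) → Vd (k + 1)) (R r₀ : ℝ), Kp X Λ u D κ ψ R ∧ 0 < r₀ ∧
      ∀ y ∈ ball p r₀, AnalyticAt ℂ ψ y ∧ ψ y ∈ ball (0 : Vd (k + 1)) R ∧ κ (ψ y) = y := by
  have hκ0 : κ 0 = p := hκ.zero
  obtain ⟨ψ, hψ, hψκ, hκψ, hψ0⟩ := Pool.Agent.H62.BU.local_inverse hκ.an fun v hv => hκ.inj (by rw [hv, map_zero])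
  rw [hκ0] at hψ hκψ hψ0
  obtain ⟨δ, hδ, hΛ⟩ := G.lat.disc
  -- a ball around `p`
  have hS : ∀ᶠ y in 𝓝 p, AnalyticAt ℂ ψ y ∧ ∀ᶠ y' in 𝓝 y, κ (ψ y') = y' := hψ.eventually_analyticAt.and (eventually_eventually_nhds.mpr hκψ)
  obtain ⟨r₁, hr₁, hb₁⟩ := Metric.mem_nhds_iff.mp hS
  -- a ball around `0`
  have hκc : Tendsto κ (𝓝 0) (𝓝 p) := by
    have := hκ.an.continuousAt.tendsto
    rwa [hκ0] at this
  have hQ : ∀ᶠ q in 𝓝 (0 : Vd (k + 1)), AnalyticAt ℂ κ q ∧ ψ (κ q) = q ∧ (κ q ∈ D ↔ q 0 = 0) ∧ κ q ∈ ball p (min r₁ (δ / 2)) := by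
    filter_upwards [hκ.an.eventually_analyticAt, hψκ, hκ.mem_iff, hκc.eventually (ball_mem_nhds p (lt_min hr₁ (half_pos hδ)))] with q h1 h2 h3 h4
    exact ⟨h1, h2, h3, h4⟩
  obtain ⟨R, hR, hbR⟩ := Metric.mem_nhds_iff.mp hQ
  -- the radius `r₀`
  have hψc : Tendsto ψ (𝓝 p) (𝓝 0) := by
    have := hψ.continuousAt.tendsto
    rwa [hψ0] at this
  obtain ⟨r₂, hr₂, hb₂⟩ := Metric.mem_nhds_iff.mp (hψc.eventually (ball_mem_nhds (0 : Vd (k + 1)) hR))
  refine ⟨ψ, R, min r₁ r₂, ?_, lt_min hr₁ hr₂, ?_⟩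
  · have hbd : ∀ q ∈ ball (0 : Vd (k + 1)) R, κ q ∈ ball p r₁ := fun q hq => ball_subset_ball (min_le_left _ _) (hbR hq).2.2.2
    exact
      { cone := G.cone
        charts := G.charts
        tor := G.tor
        lat := G.lat
        sub := G.sub
        pos := hR
        κ_an := fun q hq => (hbR hq).1
        ψ_an := fun q hq => (hb₁ (hbd q hq)).1
        ψ_κ := fun q hq => (hbR hq).2.1
        κ_ψ := fun q hq => (hb₁ (hbd q hq)).2
        inj := by
          intro q hq q' hq' hqq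
          have h1 : ‖κ q - p‖ < δ / 2 := by
            have := (mem_ball.mp (hbR hq).2.2.2).trans_le (min_le_right _ _)
            rwa [dist_eq_norm] at this
          have h2 : ‖κ q' - p‖ < δ / 2 := by
            have := (mem_ball.mp (hbR hq').2.2.2).trans_le (min_le_right _ _)
            rwa [dist_eq_norm] at this
          have h3 : ‖κ q - κ q'‖ < δ := by
            have h4 : κ q - κ q' = (κ q - p) - (κ q' - p) := by abel
            rw [h4]
            have := norm_sub_le (κ q - p) (κ q' - p)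
            linarith
          have h4 : κ q = κ q' := sub_eq_zero.mp (hΛ _ hqq h3)
          rw [← (hbR hq).2.1, ← (hbR hq').2.1, h4]
        mem_iff := fun q hq => (hbR hq).2.2.1 }
  · intro y hy
    have h1 := hb₁ (ball_subset_ball (min_le_left _ _) hy)
    exact ⟨h1.1, hb₂ (ball_subset_ball (min_le_right _ _) hy), h1.2.self_of_nhds⟩

end Pool.Agent.GX

end

section

/-!
# G3 X IIa: the integral is holomorphic along an arc

Port of `Pool.Agent.TGY.II_analytic_on` (`TG/Y/Jan.lean`): `A` a primitive of the coefficient in `χ` (`TG.exists_prim` in `TG/Prm.lean`), near `z₀` the function is `(A (χ.q (H z)) - A (χ.q (F z))) / ρ ^ (k + 1)` by `TG.II_eq` (`γ z ∈ closedBall (γ z₀) r`, `dist (pr (F z)) (pr (F z₀)) + ε ≤ r`).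
-/

set_option autoImplicit false

open Topology Filter Metric

namespace Pool.Agent.GX

open Pool.Agent.H36.BP (EN fs wd)
open Pool.Agent.H14.PP (IsCone CurveAt Tan)
open Pool.Agent.H62.EF (MN pr)
open Pool.Agent.AD (Vd Chart Charts IsGerm)
open Pool.Agent.TG (TMap Lat tl nm IsStr IsNC IsCoord Geo VForm ms Str IsPrim Cap IRel II TransAt Gd Cst DV tc)

variable {N k : ℕ}

variable {X : Set (EN N)} {Λ : AddSubgroup (Vd (k + 1))} {u : EN N → Vd (k + 1)} {D B : Set (Vd (k + 1))}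
  {κ ψ : Vd (k + 1) → Vd (k + 1)} {R : ℝ} {g : ℂ → Fin k → ℂ} {Γ₀ : AddSubgroup ℂ} {s : ℝ}

theorem II_arc (hX : IsCone X) (hu : TMap X Λ u) (hΛ : Lat Λ) {α : VForm X Λ u} {ε r : ℝ} {γ : ℂ → Vd (k + 1)} {F H : ℂ → EN N} {z₀ : ℂ}
    (hγ : ContinuousAt γ z₀) (hF : AnalyticAt ℂ F z₀) (hH : AnalyticAt ℂ H z₀) (hF' : ∀ᶠ z in 𝓝 z₀, F z ∈ X ∧ u (F z) - γ z ∈ Λ)
    (hH' : ∀ᶠ z in 𝓝 z₀, H z ∈ X ∧ u (H z) - γ z ∈ Λ) {χ : Chart (k + 2) X} {c : Vd (k + 1)} {ρ : ℝ} (hc : Cap Λ u χ c ρ (γ z₀) (pr (F z₀)) r)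
    (hr : ε < r) (hrel : ∀ᶠ z in 𝓝 z₀, ∃ v, IRel α ε (γ z) (pr (F z)) (pr (H z)) v) :
    AnalyticAt ℂ (fun z => II α ε (γ z) (pr (F z)) (pr (H z))) z₀ := by
  obtain ⟨A, hA⟩ := Pool.Agent.TG.exists_prim α χ hc.str
  obtain ⟨v₀, hv₀⟩ := hrel.self_of_nhds
  obtain ⟨-, -, hfg⟩ := hv₀.mem
  have hε : 0 ≤ ε := dist_nonneg.trans hfg
  have hr0 : 0 < r := lt_of_le_of_lt hε hr
  obtain ⟨hFX, hFu⟩ := hF'.self_of_nhds
  obtain ⟨hHX, hHu⟩ := hH'.self_of_nhds
  have hF0 : F z₀ ≠ 0 := fun h => hX.zero_notMem (h ▸ hFX)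
  have hsub : closedBall (0 : Vd (k + 2)) 1 ⊆ ball (0 : Vd (k + 2)) 2 := closedBall_subset_ball (by norm_num)
  have hy₀r : γ z₀ ∈ closedBall (γ z₀) r := mem_closedBall_self hr0.le
  obtain ⟨hFU, hFq, -⟩ := hc.cap (γ z₀) hy₀r (F z₀) hFX hFu (by rw [dist_self]; exact hr0.le)
  obtain ⟨hHU, hHq, -⟩ := hc.cap (γ z₀) hy₀r (H z₀) hHX hHu (hfg.trans hr.le)
  have a1 : AnalyticAt ℂ (fun z => A (χ.q (F z))) z₀ :=
    AnalyticAt.comp (f := fun z => χ.q (F z)) (g := A) (hA.an _ (hsub hFq))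
      (AnalyticAt.comp (f := F) (g := χ.q) (χ.q_an _ hFU) hF)
  have a2 : AnalyticAt ℂ (fun z => A (χ.q (H z))) z₀ :=
    AnalyticAt.comp (f := fun z => χ.q (H z)) (g := A) (hA.an _ (hsub hHq))
      (AnalyticAt.comp (f := H) (g := χ.q) (χ.q_an _ hHU) hH)
  have hρ : (ρ : ℂ) ^ (k + 1) ≠ 0 := by
    have := hc.str.pos
    exact pow_ne_zero _ (by exact_mod_cast this.ne')
  have a3 : AnalyticAt ℂ (fun z => (A (χ.q (H z)) - A (χ.q (F z))) / (ρ : ℂ) ^ (k + 1)) z₀ := (a2.sub a1).div analyticAt_const hρ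
  refine a3.congr ?_
  have e3 : ∀ᶠ z in 𝓝 z₀, γ z ∈ closedBall (γ z₀) r := hγ.eventually (closedBall_mem_nhds _ hr0)
  have e4 : ∀ᶠ z in 𝓝 z₀, dist (pr (F z)) (pr (F z₀)) < r - ε := by
    have h1 : ContinuousAt (fun z => pr (F z)) z₀ := ContinuousAt.comp (f := F) (g := pr)
      (Pool.Agent.H62.EF.continuousAt_pr hF0) hF.continuousAt
    exact h1.eventually (ball_mem_nhds _ (by linarith))
  filter_upwards [e3, e4, hrel, hF', hH'] with z h3 h4 h5 h6 h7
  exact (Pool.Agent.TG.II_eq hX hu hΛ h5 hc hA h3 (by linarith) h6.1 h7.1 rfl rfl).symm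

end Pool.Agent.GX

end
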