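import Pool.Agent.H94.G4T.H62.EF.PrA
import Pool.Agent.H94.G4T.M04
import Pool.Agent.H94.G4T.M06

/-! The parts of this file: TG.ChN, TG.Gd_1. -/

section

/-!
# TG ChN: small charts

`exists_small_chart`: `EL/ChN` with `Vd d`.  `exists_str_chart`: from `IsStr` as `exists_nc_chart` there.
-/

set_option autoImplicit false

open Topology Filter Metric

namespace Pool.Agent.TG

open Pool.Agent.H36.BP (EN fs wd)
open Pool.Agent.H14.PP (IsCone CurveAt Tan)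
open Pool.Agent.H62.EF (MN pr)
open Pool.Agent.AD (Vd Chart Charts IsGerm)

variable {N k d : ℕ}

section
variable {X : Set (EN N)}

theorem exists_small_chart (hX : IsCone X) {σ : Vd d → EN N} {τ : EN N → Vd d} (h : IsGerm X σ τ) {η : ℝ} (hη : 0 < η) :
    ∃ (χ : Chart d X) (r : ℝ), 0 < r ∧ σ 0 ∈ χ.U ∧ χ.q (σ 0) = 0 ∧ ∀ p ∈ ball (0 : Vd d) 2, ‖(r : ℂ) • p‖ < η ∧
      dist (pr (χ.σ p)) (pr (σ 0)) < η ∧ ∃ a : ℂ, a ≠ 0 ∧ χ.σ p = a • σ ((r : ℂ) • p) := by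
  have hσ0 : σ 0 ≠ 0 := by
    intro h0
    have h1 := h.σ_mem.self_of_nhds
    rw [h0] at h1
    exact hX.zero_notMem h1
  -- the linear form
  obtain ⟨ℓ, hℓ⟩ : ∃ ℓ : EN N →L[ℂ] ℂ, ℓ (σ 0) = 1 := by
    have hne : inner ℂ (σ 0) (σ 0) ≠ (0 : ℂ) := inner_self_ne_zero.mpr hσ0
    refine ⟨(inner ℂ (σ 0) (σ 0) : ℂ)⁻¹ • innerSL ℂ (σ 0), ?_⟩
    simp only [_root_.smul_apply, innerSL_apply_apply, smul_eq_mul]
    exact inv_mul_cancel₀ hne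
  -- the normalised parametrisation
  have hℓσ : ContinuousAt (fun p => ℓ (σ p)) 0 := ℓ.continuous.continuousAt.comp h.σ_an.continuousAt
  have hℓne : ∀ᶠ p in 𝓝 (0 : Vd d), ℓ (σ p) ≠ 0 := hℓσ.eventually_ne (by rw [hℓ]; exact one_ne_zero)
  have hinvσ : ∀ᶠ p in 𝓝 (0 : Vd d), τ ((ℓ (σ p))⁻¹ • σ p) = τ (σ p) := by
    have hc : Tendsto (fun p => (σ p, (ℓ (σ p))⁻¹)) (𝓝 (0 : Vd d)) (𝓝 (σ 0, (1 : ℂ))) := by
      have h1 : Tendsto (fun p => (ℓ (σ p))⁻¹) (𝓝 (0 : Vd d)) (𝓝 (ℓ (σ 0))⁻¹) := hℓσ.inv₀ (by rw [hℓ]; exact one_ne_zero)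
      rw [hℓ, inv_one] at h1
      exact h.σ_an.continuousAt.prodMk_nhds h1
    exact hc.eventually h.inv
  -- the neighbourhood W₀
  have hW : ∀ᶠ y in 𝓝 (σ 0), AnalyticAt ℂ τ y ∧ (y ∈ X → ∃ c : ℂ, c ≠ 0 ∧ y = c • σ (τ y)) := h.τ_an.eventually_analyticAt.and h.right
  obtain ⟨W₀, hW₀s, hW₀o, hW₀m⟩ := _root_.eventually_nhds_iff.mp hW
  have hσ₁ : Tendsto (fun p => (ℓ (σ p))⁻¹ • σ p) (𝓝 (0 : Vd d)) (𝓝 (σ 0)) := by
    have h1 : Tendsto (fun p => (ℓ (σ p))⁻¹) (𝓝 (0 : Vd d)) (𝓝 (ℓ (σ 0))⁻¹) := hℓσ.inv₀ (by rw [hℓ]; exact one_ne_zero)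
    have h2 := h1.smul h.σ_an.continuousAt
    rwa [hℓ, inv_one, one_smul] at h2
  have hσ₁W : ∀ᶠ p in 𝓝 (0 : Vd d), (ℓ (σ p))⁻¹ • σ p ∈ W₀ := hσ₁.eventually (hW₀o.mem_nhds hW₀m)
  have hprσ : ∀ᶠ p in 𝓝 (0 : Vd d), dist (pr (σ p)) (pr (σ 0)) < η := by
    have h1 : ContinuousAt (fun p => pr (σ p)) 0 :=
      ContinuousAt.comp (f := σ) (Pool.Agent.H62.EF.continuousAt_pr hσ0) h.σ_an.continuousAt
    exact h1.eventually (Metric.ball_mem_nhds _ hη)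
  obtain ⟨R₀, hR₀, hall₀⟩ := Metric.eventually_nhds_iff_ball.mp
    ((((((h.σ_an.eventually_analyticAt.and h.σ_mem).and h.left).and hℓne).and hinvσ).and hσ₁W).and hprσ)
  obtain ⟨R, hR, hRη, hall, hprb⟩ : ∃ R : ℝ, 0 < R ∧ R ≤ η ∧ (∀ p ∈ ball (0 : Vd d) R,
      (((((AnalyticAt ℂ σ p ∧ σ p ∈ X) ∧ τ (σ p) = p) ∧ ℓ (σ p) ≠ 0) ∧ τ ((ℓ (σ p))⁻¹ • σ p) = τ (σ p)) ∧
        (ℓ (σ p))⁻¹ • σ p ∈ W₀)) ∧ ∀ p ∈ ball (0 : Vd d) R, dist (pr (σ p)) (pr (σ 0)) < η :=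
    ⟨min R₀ η, lt_min hR₀ hη, min_le_right _ _, fun p hp => (hall₀ p (ball_subset_ball (min_le_left _ _) hp)).1,
      fun p hp => (hall₀ p (ball_subset_ball (min_le_left _ _) hp)).2⟩
  set r : ℝ := R / 2 with hr
  have hr0 : 0 < r := by rw [hr]; positivity
  have hrC : (r : ℂ) ≠ 0 := by exact_mod_cast hr0.ne'
  have hball : ∀ p ∈ ball (0 : Vd d) 2, (r : ℂ) • p ∈ ball (0 : Vd d) R := by
    intro p hp
    rw [mem_ball_zero_iff] at hp ⊢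
    rw [norm_smul, Complex.norm_real, Real.norm_of_nonneg hr0.le, hr]
    nlinarith
  have hτσ : ∀ p ∈ ball (0 : Vd d) R, τ ((ℓ (σ p))⁻¹ • σ p) = p := by
    intro p hp
    rw [(hall p hp).1.2, (hall p hp).1.1.1.2]
  set U : Set (EN N) := {x | ℓ x ≠ 0 ∧ (ℓ x)⁻¹ • x ∈ W₀ ∧ ‖τ ((ℓ x)⁻¹ • x)‖ < R} with hU
  have hmaps : ∀ x : EN N, ℓ x ≠ 0 → ∀ c : ℂ, c ≠ 0 → (ℓ (c • x))⁻¹ • (c • x) = (ℓ x)⁻¹ • x := by
    intro x hx c hc
    rw [map_smul, smul_eq_mul, smul_smul, mul_inv, mul_comm c⁻¹, mul_assoc, inv_mul_cancel₀ hc, mul_one]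
  have han1 : ∀ x : EN N, ℓ x ≠ 0 → AnalyticAt ℂ (fun y : EN N => (ℓ y)⁻¹ • y) x := by
    intro x hx
    exact ((ℓ.analyticAt x).inv hx).smul analyticAt_id
  have hanq : ∀ x ∈ U, AnalyticAt ℂ (fun y : EN N => τ ((ℓ y)⁻¹ • y)) x := by
    intro x hx
    exact AnalyticAt.fun_comp (hW₀s _ hx.2.1).1 (han1 x hx.1)
  have hUopen : IsOpen U := by
    rw [isOpen_iff_mem_nhds]
    intro x hx
    have h1 : ∀ᶠ y in 𝓝 x, ℓ y ≠ 0 := ℓ.continuous.continuousAt.eventually_ne hx.1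
    have h2 : ∀ᶠ y in 𝓝 x, (ℓ y)⁻¹ • y ∈ W₀ := (han1 x hx.1).continuousAt.eventually (hW₀o.mem_nhds hx.2.1)
    have h3 : ∀ᶠ y in 𝓝 x, ‖τ ((ℓ y)⁻¹ • y)‖ < R := (hanq x hx).continuousAt.norm.eventually_lt_const hx.2.2
    filter_upwards [h1, h2, h3] with y h4 h5 h6
    exact ⟨h4, h5, h6⟩
  let χ : Chart d X :=
    { σ := fun p => (ℓ (σ ((r : ℂ) • p)))⁻¹ • σ ((r : ℂ) • p)
      U := U
      q := fun x => (r : ℂ)⁻¹ • τ ((ℓ x)⁻¹ • x)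
      isOpen_U := hUopen
      smul_U := by
        rintro x ⟨h1, h2, h3⟩ c hc
        refine ⟨?_, ?_, ?_⟩
        · rw [map_smul, smul_eq_mul]
          exact mul_ne_zero hc h1
        · rw [hmaps x h1 c hc]; exact h2
        · rw [hmaps x h1 c hc]; exact h3
      σ_an := by
        intro p hp
        have h1 := (hall _ (hball p hp)).1.1.1.1.1
        have h2 : AnalyticAt ℂ (fun p : Vd d => σ ((r : ℂ) • p)) p :=
          AnalyticAt.fun_comp h1 (analyticAt_const.fun_smul analyticAt_id)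
        have h3 : AnalyticAt ℂ (fun p : Vd d => ℓ (σ ((r : ℂ) • p))) p := (ℓ.analyticAt _).fun_comp h2
        exact (h3.inv (hall _ (hball p hp)).1.1.2).smul h2
      q_an := by
        intro x hx
        exact analyticAt_const.fun_smul (hanq x hx)
      q_smul := by
        rintro x ⟨h1, h2, h3⟩ c hc
        show (r : ℂ)⁻¹ • τ ((ℓ (c • x))⁻¹ • (c • x)) = _
        rw [hmaps x h1 c hc]
      σ_mem := by
        intro p hp
        have hb := hball p hp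
        have hh := hall _ hb
        have hne := hh.1.1.2
        have h1 : ℓ ((ℓ (σ ((r : ℂ) • p)))⁻¹ • σ ((r : ℂ) • p)) = 1 := by
          rw [map_smul, smul_eq_mul, inv_mul_cancel₀ hne]
        have h2 : τ ((ℓ (σ ((r : ℂ) • p)))⁻¹ • σ ((r : ℂ) • p)) = (r : ℂ) • p := hτσ _ hb
        refine ⟨hX.smul_mem _ hh.1.1.1.1.2 _ (inv_ne_zero hne), ⟨?_, ?_, ?_⟩, ?_⟩
        · rw [h1]; exact one_ne_zero
        · rw [h1, inv_one, one_smul]; exact hh.2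
        · rw [h1, inv_one, one_smul, h2]
          exact mem_ball_zero_iff.mp hb
        · show (r : ℂ)⁻¹ • τ ((ℓ ((ℓ (σ ((r : ℂ) • p)))⁻¹ • σ ((r : ℂ) • p)))⁻¹ • ((ℓ (σ ((r : ℂ) • p)))⁻¹ • σ ((r : ℂ) • p))) = p
          rw [h1, inv_one, one_smul, h2, smul_smul, inv_mul_cancel₀ hrC, one_smul]
      surj := by
        rintro x hxX ⟨h1, h2, h3⟩
        have hyX : (ℓ x)⁻¹ • x ∈ X := hX.smul_mem _ hxX _ (inv_ne_zero h1)
        obtain ⟨c, hc0, hc⟩ := (hW₀s _ h2).2 hyX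
        have hτb : τ ((ℓ x)⁻¹ • x) ∈ ball (0 : Vd d) R := mem_ball_zero_iff.mpr h3
        have hrq : (r : ℂ) • ((r : ℂ)⁻¹ • τ ((ℓ x)⁻¹ • x)) = τ ((ℓ x)⁻¹ • x) := by
          rw [smul_smul, mul_inv_cancel₀ hrC, one_smul]
        refine ⟨?_, ?_⟩
        · show (r : ℂ)⁻¹ • τ ((ℓ x)⁻¹ • x) ∈ ball (0 : Vd d) 2
          rw [mem_ball_zero_iff, norm_smul, norm_inv, Complex.norm_real, Real.norm_of_nonneg hr0.le, inv_mul_lt_iff₀ hr0, hr]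
          linarith
        · refine ⟨ℓ x * c * ℓ (σ (τ ((ℓ x)⁻¹ • x))), ?_, ?_⟩
          · exact mul_ne_zero (mul_ne_zero h1 hc0) (hall _ hτb).1.1.2
          · show x = (ℓ x * c * ℓ (σ (τ ((ℓ x)⁻¹ • x)))) •
              ((ℓ (σ ((r : ℂ) • ((r : ℂ)⁻¹ • τ ((ℓ x)⁻¹ • x)))))⁻¹ • σ ((r : ℂ) • ((r : ℂ)⁻¹ • τ ((ℓ x)⁻¹ • x))))
            rw [hrq, smul_smul, mul_assoc, mul_inv_cancel₀ (hall _ hτb).1.1.2, mul_one, mul_smul, ← hc, smul_smul, mul_inv_cancel₀ h1, one_smul] }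
  have h0b : (0 : Vd d) ∈ ball (0 : Vd d) R := mem_ball_self hR
  have hτ0 : τ (σ 0) = 0 := (hall 0 h0b).1.1.1.2
  refine ⟨χ, r, hr0, ⟨?_, ?_, ?_⟩, ?_, ?_⟩
  · rw [hℓ]; exact one_ne_zero
  · rw [hℓ, inv_one, one_smul]; exact hW₀m
  · rw [hℓ, inv_one, one_smul, hτ0, norm_zero]; exact hR
  · show (r : ℂ)⁻¹ • τ ((ℓ (σ 0))⁻¹ • σ 0) = 0
    rw [hℓ, inv_one, one_smul, hτ0, smul_zero]
  · intro p hp
    have hb := hball p hp
    have hne := (hall _ hb).1.1.2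
    refine ⟨(mem_ball_zero_iff.mp hb).trans_le hRη, ?_, (ℓ (σ ((r : ℂ) • p)))⁻¹, inv_ne_zero hne, rfl⟩
    show dist (pr ((ℓ (σ ((r : ℂ) • p)))⁻¹ • σ ((r : ℂ) • p))) (pr (σ 0)) < η
    rw [Pool.Agent.H62.EF.pr_smul _ (inv_ne_zero hne)]
    exact hprb _ hb

end

variable {X : Set (EN N)} {Λ : AddSubgroup (Vd (k + 1))} {u : EN N → Vd (k + 1)}

theorem norm_tl_le (p : Vd (k + 2)) : ‖tl p‖ ≤ ‖p‖ := by
  rw [pi_norm_le_iff_of_nonneg (norm_nonneg p)]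
  intro i
  exact norm_le_pi_norm p i.succ

theorem exists_str_chart (hX : IsCone X) (hu : TMap X Λ u) {x : EN N} {y : Vd (k + 1)} (h : IsStr X Λ u x y) {η : ℝ} (hη : 0 < η) :
    ∃ (χ : Chart (k + 2) X) (ρ : ℝ), x ∈ χ.U ∧ χ.q x = 0 ∧ Str Λ u χ y ρ ∧
      ∀ p ∈ ball (0 : Vd (k + 2)) 2, dist (pr (χ.σ p)) (pr x) < η ∧ ‖ms y ρ p - y‖ < η := by
  obtain ⟨σ, τ, hG, hσ0, hσl⟩ := h
  obtain ⟨η', hη', hall⟩ := Metric.eventually_nhds_iff_ball.1 (hG.σ_mem.and hσl)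
  obtain ⟨χ, r, hr, hσU, hq0, hχ⟩ := exists_small_chart hX hG (lt_min hη hη')
  rw [hσ0] at hσU hq0
  have htl : ∀ p : Vd (k + 2), tl ((r : ℂ) • p) = (r : ℂ) • tl p := fun p => rfl
  refine ⟨χ, r, hσU, hq0, ⟨hr, fun p hp => ?_⟩, fun p hp => ⟨?_, ?_⟩⟩
  · obtain ⟨h1, -, b, hb, h3⟩ := hχ p hp
    have h4 := hall ((r : ℂ) • p) (mem_ball_zero_iff.2 (h1.trans_le (min_le_right _ _)))
    have h5 := Λ.add_mem (hu.smul _ h4.1 b hb) h4.2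
    have h6 : u (b • σ ((r : ℂ) • p)) - u (σ ((r : ℂ) • p)) + (u (σ ((r : ℂ) • p)) - (y + tl ((r : ℂ) • p))) =
        u (χ.σ p) - ms y r p := by
      rw [h3, ms, htl]
      abel
    rwa [h6] at h5
  · have h2 := (hχ p hp).2.1
    rw [hσ0] at h2
    exact h2.trans_le (min_le_left _ _)
  · rw [ms, add_sub_cancel_left, ← htl]
    exact (norm_tl_le _).trans_lt ((hχ p hp).1.trans_le (min_le_left _ _))

end Pool.Agent.TG

end

section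

/-!
# TG Gd: basic facts on the points far from `D`, fibres, compactness
-/

set_option autoImplicit false

open Topology Filter Metric

namespace Pool.Agent.TG

open Pool.Agent.H36.BP (EN fs wd)
open Pool.Agent.H14.PP (IsCone CurveAt Tan)
open Pool.Agent.H62.EF (MN pr)
open Pool.Agent.AD (Vd Chart Charts IsGerm)

variable {N k : ℕ}

theorem gd_mono {D : Set (Vd (k + 1))} {δ₁ δ₂ : ℝ} (h : δ₁ ≤ δ₂) : Gd D δ₂ ⊆ Gd D δ₁ :=
  fun _ hy b hb => h.trans (hy b hb)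

theorem gd_notMem {D : Set (Vd (k + 1))} {δ : ℝ} (h : 0 < δ) {y : Vd (k + 1)} (hy : y ∈ Gd D δ) : y ∉ D := by
  intro hD
  have h1 := hy y hD
  rw [sub_self, norm_zero] at h1
  linarith

theorem gd_closed (D : Set (Vd (k + 1))) (δ : ℝ) : IsClosed (Gd D δ) := by
  have h : Gd D δ = ⋂ b ∈ D, {y : Vd (k + 1) | δ ≤ ‖y - b‖} := by
    ext y
    simp [Gd]
  rw [h]
  exact isClosed_biInter fun b _ => isClosed_le continuous_const (by fun_prop)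

theorem gd_near {D : Set (Vd (k + 1))} {δ r : ℝ} {y w : Vd (k + 1)} (hy : y ∈ Gd D δ) (h : ‖w - y‖ ≤ r) : w ∈ Gd D (δ - r) := by
  intro b hb
  have h1 := hy b hb
  have h2 : ‖y - b‖ ≤ ‖w - b‖ + ‖w - y‖ := by
    have : y - b = (w - b) - (w - y) := by abel
    rw [this]
    exact norm_sub_le _ _
  linarith

variable {X : Set (EN N)} {Λ : AddSubgroup (Vd (k + 1))} {u : EN N → Vd (k + 1)} {D B : Set (Vd (k + 1))}

theorem Geo.D_sub (G : Geo X Λ u D B) {y l : Vd (k + 1)} (hl : l ∈ Λ) : y + l ∈ D ↔ y ∈ D := by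
  refine ⟨fun h => ?_, fun h => G.D_inv y h l hl⟩
  have h1 := G.D_inv _ h (-l) (Λ.neg_mem hl)
  rwa [add_neg_cancel_right] at h1

theorem Geo.gd_add (G : Geo X Λ u D B) (δ : ℝ) {y l : Vd (k + 1)} (hl : l ∈ Λ) : y + l ∈ Gd D δ ↔ y ∈ Gd D δ := by
  constructor
  · intro h b hb
    have h1 := h _ (G.D_inv b hb l hl)
    rwa [add_sub_add_right_eq_sub] at h1
  · intro h b hb
    have h1 := h _ (G.D_inv b hb (-l) (Λ.neg_mem hl))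
    have h2 : y - (b + -l) = y + l - b := by abel
    rwa [h2] at h1

theorem Geo.exists_gd (G : Geo X Λ u D B) {y : Vd (k + 1)} (hy : y ∉ D) : ∃ δ : ℝ, 0 < δ ∧ y ∈ Gd D δ := by
  have h1 : Dᶜ ∈ 𝓝 y := G.D_closed.isOpen_compl.mem_nhds hy
  obtain ⟨δ, hδ, h⟩ := Metric.mem_nhds_iff.mp h1
  refine ⟨δ, hδ, fun b hb => ?_⟩
  by_contra hlt
  push Not at hlt
  have hb' : b ∈ ball y δ := by
    rw [mem_ball, dist_comm, dist_eq_norm]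
    exact hlt
  exact h hb' hb

theorem fb_add {y l : Vd (k + 1)} (hl : l ∈ Λ) : Fb X Λ u (y + l) = Fb X Λ u y := by
  ext m
  constructor
  · rintro ⟨x, hx, hm, hu⟩
    refine ⟨x, hx, hm, ?_⟩
    have h1 := Λ.add_mem hu hl
    have h2 : u x - (y + l) + l = u x - y := by abel
    rwa [h2] at h1
  · rintro ⟨x, hx, hm, hu⟩
    refine ⟨x, hx, hm, ?_⟩
    rw [← sub_sub]
    exact Λ.sub_mem hu hl

theorem mem_fb {x : EN N} {y : Vd (k + 1)} (hx : x ∈ X) (h : u x - y ∈ Λ) : pr x ∈ Fb X Λ u y := ⟨x, hx, rfl, h⟩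

theorem ne_zero (hX : IsCone X) {x : EN N} (hx : x ∈ X) : x ≠ 0 := fun h => hX.zero_notMem (h ▸ hx)

/-- every lift of a point of the fibre lies over `y` -/
theorem fb_lift (hX : IsCone X) (hu : TMap X Λ u) {y : Vd (k + 1)} {m : MN N} (hm : m ∈ Fb X Λ u y) {x : EN N} (hx : x ∈ X) (hxm : pr x = m) :
    u x - y ∈ Λ := by
  obtain ⟨x', hx', hm', hu'⟩ := hm
  obtain ⟨c, hc, hcx⟩ := (Pool.Agent.H62.EF.pr_eq_iff (ne_zero hX hx) (ne_zero hX hx')).1 (hxm.trans hm'.symm)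
  rw [hcx]
  have h1 := Λ.add_mem (hu.smul x' hx' c hc) hu'
  have h2 : u (c • x') - u x' + (u x' - y) = u (c • x') - y := by abel
  rwa [h2] at h1

theorem Lat.closed (hΛ : Lat Λ) : IsClosed (Λ : Set (Vd (k + 1))) := by
  obtain ⟨δ, hδ, h⟩ := hΛ.disc
  refine Metric.isClosed_of_pairwise_le_dist hδ ?_
  intro x hx y hy hxy
  by_contra hlt
  push Not at hlt
  rw [dist_eq_norm] at hlt
  exact hxy (sub_eq_zero.mp (h _ (Λ.sub_mem hx hy) hlt))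

theorem compact_unit (hX : IsCone X) : IsCompact (X ∩ sphere (0 : EN N) 1) := by
  have h1 : X ∩ sphere (0 : EN N) 1 = (insert 0 X) ∩ sphere (0 : EN N) 1 := by
    ext x
    constructor
    · rintro ⟨hx, hs⟩
      exact ⟨Set.mem_insert_of_mem _ hx, hs⟩
    · rintro ⟨hx, hs⟩
      refine ⟨?_, hs⟩
      rcases hx with rfl | hx
      · simp at hs
      · exact hx
  rw [h1]
  exact (isCompact_sphere (0 : EN N) 1).inter_left hX.closed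

theorem exists_unit (hX : IsCone X) {x : EN N} (hx : x ∈ X) : ∃ c : ℂ, c ≠ 0 ∧ c • x ∈ X ∩ sphere (0 : EN N) 1 := by
  have hn : ‖x‖ ≠ 0 := norm_ne_zero_iff.mpr (ne_zero hX hx)
  have hc : (((‖x‖⁻¹ : ℝ)) : ℂ) ≠ 0 := by
    exact_mod_cast inv_ne_zero hn
  refine ⟨(((‖x‖⁻¹ : ℝ)) : ℂ), hc, hX.smul_mem x hx _ hc, ?_⟩
  rw [mem_sphere_zero_iff_norm, norm_smul, Complex.norm_real, norm_inv, norm_norm]
  exact inv_mul_cancel₀ hn

/-- limits of points over `y n → y` are over `y` -/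
theorem lim_mem (hΛ : Lat Λ) (hu : TMap X Λ u) {ι : Type*} {l : Filter ι} [l.NeBot] {x : ι → EN N} {y : ι → Vd (k + 1)} {x₀ : EN N}
    {y₀ : Vd (k + 1)} (hx₀ : x₀ ∈ X) (hx : Tendsto x l (𝓝 x₀)) (hy : Tendsto y l (𝓝 y₀)) (h : ∀ᶠ i in l, x i ∈ X ∧ u (x i) - y i ∈ Λ) :
    u x₀ - y₀ ∈ Λ := by
  obtain ⟨v, hv, hv'⟩ := hu.loc x₀ hx₀
  have h1 : Tendsto (fun i => v (x i) - y i) l (𝓝 (v x₀ - y₀)) := (hv.continuousAt.tendsto.comp hx).sub hy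
  have h2 : ∀ᶠ i in l, v (x i) - y i ∈ (Λ : Set (Vd (k + 1))) := by
    filter_upwards [h, hx.eventually hv'] with i hi hi'
    have h3 : v (x i) - y i = u (x i) - y i - (u (x i) - v (x i)) := by abel
    rw [h3]
    exact Λ.sub_mem hi.2 (hi' hi.1)
  have h4 : v x₀ - y₀ ∈ Λ := hΛ.closed.mem_of_tendsto h1 h2
  have h5 := hv'.self_of_nhds hx₀
  have h6 : u x₀ - y₀ = (u x₀ - v x₀) + (v x₀ - y₀) := by abel
  rw [h6]
  exact Λ.add_mem h5 h4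

/-- limits in the projective space: `m n → m₀`, `m n` in the fibre over `y n → y₀`; then `m₀` is in the fibre over `y₀`, and every lift `x₀` of `m₀` is the limit of
lifts -/
theorem fb_lim (hX : IsCone X) (hΛ : Lat Λ) (hu : TMap X Λ u) {ι : Type*} {l : Filter ι} [l.NeBot] {m : ι → MN N} {y : ι → Vd (k + 1)} {m₀ : MN N}
    {y₀ : Vd (k + 1)} (hm : Tendsto m l (𝓝 m₀)) (hy : Tendsto y l (𝓝 y₀)) (h : ∀ᶠ i in l, m i ∈ Fb X Λ u (y i)) :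
    m₀ ∈ Fb X Λ u y₀ ∧ ∀ x₀ ∈ X, pr x₀ = m₀ → ∀ U ∈ 𝓝 x₀, ∀ᶠ i in l, ∃ x ∈ X, x ∈ U ∧ pr x = m i ∧ u x - y i ∈ Λ := by
  have hmem : m₀ ∈ pr '' X := (Pool.Agent.H62.EF.isCompact_pr hX).isClosed.mem_of_tendsto hm (by
    filter_upwards [h] with i hi
    obtain ⟨x, hx, hxm, -⟩ := hi
    exact ⟨x, hx, hxm⟩)
  have hlift : ∀ x₀ ∈ X, pr x₀ = m₀ → ∀ U ∈ 𝓝 x₀, ∀ᶠ i in l, ∃ x ∈ X, x ∈ U ∧ pr x = m i ∧ u x - y i ∈ Λ := by
    intro x₀ hx₀ hxm U hU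
    obtain ⟨R, hR, hnear⟩ := Pool.Agent.H62.EF.near_of_pr (ne_zero hX hx₀) hU
    have h1 : ∀ᶠ i in l, dist (m i) m₀ < R := hm.eventually (ball_mem_nhds _ hR)
    filter_upwards [h, h1] with i hi hd
    obtain ⟨x, hx, hxm', hux⟩ := hi
    obtain ⟨c, hc, hcx⟩ := hnear x (ne_zero hX hx) (by rw [hxm', hxm]; exact hd)
    exact ⟨c • x, hX.smul_mem x hx c hc, hcx, by rw [Pool.Agent.H62.EF.pr_smul x hc, hxm'], smul_mem_lat hu hx hux hc⟩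
  refine ⟨?_, hlift⟩
  obtain ⟨x₀, hx₀, hxm⟩ := hmem
  refine ⟨x₀, hx₀, hxm, ?_⟩
  -- choose lifts converging to `x₀`
  obtain ⟨v, hv, hv'⟩ := hu.loc x₀ hx₀
  have hcl := hΛ.closed
  by_contra hcon
  have h5 := hv'.self_of_nhds hx₀
  have h6 : v x₀ - y₀ ∉ (Λ : Set (Vd (k + 1))) := by
    intro h7
    apply hcon
    have h8 : u x₀ - y₀ = (u x₀ - v x₀) + (v x₀ - y₀) := by abel
    rw [h8]
    exact Λ.add_mem h5 h7
  have h7 : ∀ᶠ p in 𝓝 (x₀, y₀), v p.1 - p.2 ∉ (Λ : Set (Vd (k + 1))) := by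
    have hc : ContinuousAt (fun p : EN N × Vd (k + 1) => v p.1 - p.2) (x₀, y₀) :=
      (ContinuousAt.comp (f := fun p : EN N × Vd (k + 1) => p.1) hv.continuousAt continuousAt_fst).sub continuousAt_snd
    exact hc.eventually (hcl.isOpen_compl.mem_nhds h6)
  rw [nhds_prod_eq] at h7
  obtain ⟨pa, hpa, pb, hpb, hab⟩ := Filter.eventually_prod_iff.mp h7
  obtain ⟨i, ⟨x, hx, hxU, -, hux⟩, hyi⟩ := ((hlift x₀ hx₀ hxm _ (hpa.and hv')).and (hy.eventually hpb)).exists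
  refine hab hxU.1 hyi ?_
  have h8 : v x - y i = u x - y i - (u x - v x) := by abel
  show v x - y i ∈ (Λ : Set (Vd (k + 1)))
  rw [h8]
  exact Λ.sub_mem hux (hxU.2 hx)

end Pool.Agent.TG

end
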