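import Pool.Agent.H94.G4T.H36.BP.WdA_1
import Pool.Agent.H94.G4T.M05
import Pool.Agent.H94.G4T.M07
import Pool.Agent.H94.G4T.M10
import Pool.Agent.H94.G4T.M14
import Pool.Agent.H94.G4T.M16
import Pool.Agent.H94.G4T.M19
import Pool.Agent.H94.G4T.M20
import Pool.Agent.H94.G4T.M26

/-! The parts of this file: G3.P.Ult, H62.EF.PrLip, H62.EF.LimL, TG.Jan_1. -/

section

/-!
# G3 P Ult: ultralimits of curves in projective space

`ult`: a sequence of holomorphic curves (eventually defined on compact subsets of the open set `U`) which is equicontinuous at each point of `U` has, along an ultrafilter, a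
limit `f : ℂ → MN N`; the convergence is uniform on compact subsets of `U` and `f` has local holomorphic lifts in `U`.
Plan: the projection matrices `pr x`, `x ≠ 0`, lie in the compact set `{m : ‖m‖ ≤ 1}` (`MN N` is finite dimensional), so `f z` := the limit along `𝒰` exists; equicontinuity gives
local uniform convergence (finite covers).  Local lifts at `z₀`: `f z₀ = pr v` for a unit vector `v` (take `x_n = F n z₀ / ‖F n z₀‖`, ultralimit `v` on the compact sphere);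
near `z₀` and for `𝒰`-many `n` the functions `⟨v, F n z⟩⁻¹ F n z = nv v (pr (F n z))` (`nv`, `nv_pr`, `nv_continuousAt` in `G3/C/EDefs`) are holomorphic, and they converge uniformly near
`z₀` to `nv v (f z)`, so the limit is holomorphic (`TendstoLocallyUniformlyOn.differentiableOn`) and `pr (nv v (f z)) = f z`.
-/

set_option autoImplicit false

open Topology Filter Metric

namespace Pool.Agent.G3

open Pool.Agent.H36.BP (EN wd)
open Pool.Agent.H14.PP (IsCone CurveAt Tan)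
open Pool.Agent.H62.EF (MN pr)
open Pool.Agent.AD (Vd)

variable {N k : ℕ} {X : Set (EN N)} {Λ : AddSubgroup (Vd (k + 1))} {u : EN N → Vd (k + 1)} {D : Set (Vd (k + 1))} {p : EN N → EN N → ℝ} {m : ℕ} {C : ℝ}

/-- the set of the projection matrices of lines is compact -/
private theorem ult_compact : IsCompact ((pr : EN N → MN N) '' sphere (0 : EN N) 1) := by
  refine (isCompact_sphere (0 : EN N) 1).image_of_continuousOn fun x hx => ?_
  have hx0 : x ≠ 0 := by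
    rintro rfl
    simp at hx
  exact (Pool.Agent.H62.EF.continuousAt_pr hx0).continuousWithinAt

private theorem ult_mem {x : EN N} (hx : x ≠ 0) : pr x ∈ (pr : EN N → MN N) '' sphere (0 : EN N) 1 := by
  have hn : ‖x‖ ≠ 0 := norm_ne_zero_iff.mpr hx
  have hc : (((‖x‖⁻¹ : ℝ)) : ℂ) ≠ 0 := by
    exact_mod_cast inv_ne_zero hn
  refine ⟨(((‖x‖⁻¹ : ℝ)) : ℂ) • x, ?_, Pool.Agent.H62.EF.pr_smul x hc⟩
  rw [mem_sphere_zero_iff_norm, norm_smul, Complex.norm_real, norm_inv, norm_norm]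
  exact inv_mul_cancel₀ hn

/-- the limit at one point -/
private theorem ult_point (𝒰 : Ultrafilter ℕ) (x : ℕ → EN N) (hx : ∀ᶠ n in (𝒰 : Filter ℕ), x n ≠ 0) :
    ∃ y : EN N, y ≠ 0 ∧ Tendsto (fun n => pr (x n)) (𝒰 : Filter ℕ) (𝓝 (pr y)) := by
  have h1 : ((𝒰.map fun n => pr (x n) : Ultrafilter (MN N)) : Filter (MN N)) ≤
      𝓟 ((pr : EN N → MN N) '' sphere (0 : EN N) 1) := by
    rw [Ultrafilter.coe_map, le_principal_iff, mem_map]
    filter_upwards [hx] with n hn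
    exact ult_mem hn
  obtain ⟨m, ⟨y, hy, rfl⟩, hm⟩ := ult_compact.ultrafilter_le_nhds _ h1
  refine ⟨y, ?_, hm⟩
  rintro rfl
  simp at hy

theorem ult (𝒰 : Ultrafilter ℕ) {U : Set ℂ} (hU : IsOpen U) (F : ℕ → ℂ → EN N)
    (hF : ∀ z ∈ U, ∃ s : ℝ, 0 < s ∧ ∀ᶠ n in (𝒰 : Filter ℕ), DifferentiableOn ℂ (F n) (ball z s) ∧ ∀ w ∈ ball z s, F n w ≠ 0)
    (hq : ∀ z ∈ U, ∀ ε : ℝ, 0 < ε → ∃ s : ℝ, 0 < s ∧ ∀ᶠ n in (𝒰 : Filter ℕ), ∀ w ∈ ball z s, dist (pr (F n w)) (pr (F n z)) ≤ ε) :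
    ∃ f : ℂ → MN N, (∀ z ∈ U, LLift f z) ∧
      ∀ K ⊆ U, IsCompact K → ∀ ε : ℝ, 0 < ε → ∀ᶠ n in (𝒰 : Filter ℕ), ∀ z ∈ K, dist (pr (F n z)) (f z) < ε := by
  classical
  have hne : ∀ z ∈ U, ∀ᶠ n in (𝒰 : Filter ℕ), F n z ≠ 0 := by
    intro z hz
    obtain ⟨s, hs, h⟩ := hF z hz
    filter_upwards [h] with n hn
    exact hn.2 z (mem_ball_self hs)
  have hpt : ∀ z, ∃ y : EN N, z ∈ U → y ≠ 0 ∧
      Tendsto (fun n => pr (F n z)) (𝒰 : Filter ℕ) (𝓝 (pr y)) := by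
    intro z
    by_cases hz : z ∈ U
    · obtain ⟨y, h1, h2⟩ := ult_point 𝒰 (fun n => F n z) (hne z hz)
      exact ⟨y, fun _ => ⟨h1, h2⟩⟩
    · exact ⟨0, fun h => absurd h hz⟩
  choose g hg using hpt
  -- local uniform convergence
  have hloc : ∀ z₀ ∈ U, ∀ ε : ℝ, 0 < ε → ∃ s : ℝ, 0 < s ∧ ball z₀ s ⊆ U ∧
      (∀ w ∈ ball z₀ s, dist (pr (g w)) (pr (g z₀)) ≤ ε) ∧
      ∀ᶠ n in (𝒰 : Filter ℕ), ∀ w ∈ ball z₀ s, dist (pr (g w)) (pr (F n w)) < 4 * ε := by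
    intro z₀ hz₀ ε hε
    obtain ⟨s₁, hs₁, h1⟩ := hq z₀ hz₀ ε hε
    obtain ⟨s₂, hs₂, h2⟩ := Metric.isOpen_iff.1 hU z₀ hz₀
    have hU' : ball z₀ (min s₁ s₂) ⊆ U := (ball_subset_ball (min_le_right _ _)).trans h2
    have hd : ∀ w ∈ ball z₀ (min s₁ s₂), dist (pr (g w)) (pr (g z₀)) ≤ ε := by
      intro w hw
      have h3 := (hg w (hU' hw)).2
      have h4 := (hg z₀ hz₀).2
      refine le_of_tendsto (h3.dist h4) ?_
      filter_upwards [h1] with n hn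
      exact hn w (ball_subset_ball (min_le_left _ _) hw)
    refine ⟨min s₁ s₂, lt_min hs₁ hs₂, hU', hd, ?_⟩
    have h4 := (Metric.tendsto_nhds.1 (hg z₀ hz₀).2) ε hε
    filter_upwards [h1, h4] with n hn1 hn4 w hw
    have h5 := hd w hw
    have h6 := hn1 w (ball_subset_ball (min_le_left _ _) hw)
    calc dist (pr (g w)) (pr (F n w)) ≤ dist (pr (g w)) (pr (g z₀)) + dist (pr (g z₀)) (pr (F n w)) :=
          dist_triangle _ _ _
      _ ≤ dist (pr (g w)) (pr (g z₀)) + (dist (pr (g z₀)) (pr (F n z₀)) + dist (pr (F n z₀)) (pr (F n w))) := by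
          gcongr
          exact dist_triangle _ _ _
      _ < 4 * ε := by
          rw [dist_comm (pr (g z₀)) (pr (F n z₀)), dist_comm (pr (F n z₀)) (pr (F n w))]
          linarith
  refine ⟨fun z => pr (g z), ?_, ?_⟩
  · intro z₀ hz₀
    set v := g z₀ with hv
    have hv0 : v ≠ 0 := (hg z₀ hz₀).1
    have hnd : C.nd v (pr v) ≠ 0 := (C.nd_pr_ne hv0).2 (inner_self_ne_zero.2 hv0)
    obtain ⟨δ, hδ, hδO⟩ := Metric.isOpen_iff.1 (isOpen_ne.preimage (C.nd_cont v)) (pr v) hnd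
    have hcomp : IsCompact (closedBall (pr v) (δ / 2)) := isCompact_closedBall _ _
    have hO : ∀ m ∈ closedBall (pr v) (δ / 2), C.nd v m ≠ 0 := by
      intro m hm
      exact hδO (closedBall_subset_ball (by linarith) hm)
    have huc : UniformContinuousOn (C.nv v) (closedBall (pr v) (δ / 2)) :=
      hcomp.uniformContinuousOn_of_continuous fun m hm => (C.nv_continuousAt (hO m hm)).continuousWithinAt
    rw [Metric.uniformContinuousOn_iff] at huc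
    obtain ⟨s₁, hs₁, hsU, hd1, hd2⟩ := hloc z₀ hz₀ (δ / 16) (by linarith)
    obtain ⟨s₂, hs₂, hd3⟩ := hF z₀ hz₀
    have hmemg : ∀ w ∈ ball z₀ s₁, pr (g w) ∈ closedBall (pr v) (δ / 2) := by
      intro w hw
      rw [mem_closedBall]
      have := hd1 w hw
      linarith
    have hmemF : ∀ᶠ n in (𝒰 : Filter ℕ), ∀ w ∈ ball z₀ s₁, pr (F n w) ∈ closedBall (pr v) (δ / 2) := by
      filter_upwards [hd2] with n hn w hw
      rw [mem_closedBall]
      have h1 := hd1 w hw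
      have h2 := hn w hw
      calc dist (pr (F n w)) (pr v) ≤ dist (pr (F n w)) (pr (g w)) + dist (pr (g w)) (pr v) := dist_triangle _ _ _
        _ ≤ δ / 2 := by
            rw [dist_comm (pr (F n w)) (pr (g w))]
            linarith
    set s := min s₁ s₂ with hs
    have hs0 : 0 < s := lt_min hs₁ hs₂
    have hb1 : ball z₀ s ⊆ ball z₀ s₁ := ball_subset_ball (min_le_left _ _)
    have hb2 : ball z₀ s ⊆ ball z₀ s₂ := ball_subset_ball (min_le_right _ _)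
    have hdiff : ∀ᶠ n in (𝒰 : Filter ℕ), DifferentiableOn ℂ (fun w => C.nv v (pr (F n w))) (ball z₀ s) := by
      filter_upwards [hmemF, hd3] with n hn1 hn2
      have h1 : ∀ w ∈ ball z₀ s, inner ℂ v (F n w) ≠ (0 : ℂ) := fun w hw =>
        (C.nd_pr_ne (hn2.2 w (hb2 hw))).1 (hO _ (hn1 w (hb1 hw)))
      have h2 : DifferentiableOn ℂ (fun w => (inner ℂ v (F n w) : ℂ)⁻¹ • F n w) (ball z₀ s) := by
        have h3 : DifferentiableOn ℂ (F n) (ball z₀ s) := hn2.1.mono hb2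
        have h4 : DifferentiableOn ℂ (fun w => (inner ℂ v (F n w) : ℂ)) (ball z₀ s) :=
          ((innerSL ℂ v).differentiable.comp_differentiableOn h3)
        exact (h4.inv h1).smul h3
      exact h2.congr fun w hw => C.nv_pr (h1 w hw)
    have hlu : TendstoLocallyUniformlyOn (fun n w => C.nv v (pr (F n w))) (fun w => C.nv v (pr (g w)))
        (𝒰 : Filter ℕ) (ball z₀ s) := by
      rw [Metric.tendstoLocallyUniformlyOn_iff]
      intro ε hε w₀ hw₀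
      obtain ⟨η, hη, huc'⟩ := huc ε hε
      obtain ⟨s₃, hs₃, -, -, h3⟩ := hloc w₀ (hsU (hb1 hw₀)) (η / 4) (by linarith)
      refine ⟨ball z₀ s ∩ ball w₀ s₃, ?_, ?_⟩
      · exact inter_mem self_mem_nhdsWithin (mem_nhdsWithin_of_mem_nhds (ball_mem_nhds w₀ hs₃))
      · filter_upwards [h3, hmemF] with n hn1 hn2 w hw
        refine huc' _ (hmemg w (hb1 hw.1)) _ (hn2 w (hb1 hw.1)) ?_
        have := hn1 w hw.2
        linarith
    have hΦ : DifferentiableOn ℂ (fun w => C.nv v (pr (g w))) (ball z₀ s) :=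
      hlu.differentiableOn hdiff isOpen_ball
    refine ⟨fun w => C.nv v (pr (g w)), hΦ.analyticAt (ball_mem_nhds z₀ hs0), ?_⟩
    filter_upwards [ball_mem_nhds z₀ hs0] with w hw
    have hw0 : g w ≠ 0 := (hg w (hsU (hb1 hw))).1
    have hi : inner ℂ v (g w) ≠ (0 : ℂ) := (C.nd_pr_ne hw0).1 (hO _ (hmemg w (hb1 hw)))
    refine ⟨?_, (C.pr_nv hi).symm⟩
    rw [C.nv_pr hi]
    exact smul_ne_zero (inv_ne_zero hi) hw0
  · have hlu : TendstoLocallyUniformlyOn (fun n w => pr (F n w)) (fun w => pr (g w)) (𝒰 : Filter ℕ) U := by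
      rw [Metric.tendstoLocallyUniformlyOn_iff]
      intro ε hε w₀ hw₀
      obtain ⟨s₃, hs₃, -, -, h3⟩ := hloc w₀ hw₀ (ε / 4) (by linarith)
      refine ⟨ball w₀ s₃, mem_nhdsWithin_of_mem_nhds (ball_mem_nhds w₀ hs₃), ?_⟩
      filter_upwards [h3] with n hn w hw
      have := hn w hw
      linarith
    intro K hK hKc ε hε
    have h1 := (tendstoLocallyUniformlyOn_iff_forall_isCompact hU).1 hlu K hK hKc
    rw [Metric.tendstoUniformlyOn_iff] at h1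
    filter_upwards [h1 ε hε] with n hn z hz
    rw [dist_comm]
    exact hn z hz

end Pool.Agent.G3

end

section

/-!
# EF PrLip: curves with bounded Fubini-Study derivative are Lipschitz

Let `F` be holomorphic on the open convex set `U`, without zeros, `fs (F z) (F' z) ≤ L`.  The map `z ↦ pr (F z)` is real differentiable
on `U`, with derivative of norm at most `√2 L`; conclude with the mean value inequality (`Convex.norm_image_sub_le_of_norm_hasFDerivWithin_le`).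
The derivative at `z` in the direction `h ∈ ℂ`: by `pr_smul`, `pr (F w) = pr (G w)` with `G w = F w / a(w)` for any holomorphic `a`
without zero; take the constant `a = ‖F z‖`-normalisation and subtract: with `x = F z`, `v = F' z h`, `v' = v - (⟨x, v⟩ / ‖x‖²) x`
(orthogonal to `x`): the derivative of `pr` at `x` in the direction `v` is `(v' x^* + x v'^*) / ‖x‖²`, of norm
`√2 ‖v'‖ ‖x‖ / ‖x‖² = √2 wd x v / ‖x‖² = √2 fs x v`.
Another way, without computing the derivative: by `dist_pr`, `dist (pr (F z)) (pr (F w)) = √2 wd (F z) (F w) / (‖F z‖ ‖F w‖)` and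
`wd (F z) (F w) = wd (F z) (F w - F z)`, so `limsup_{w → z} dist (pr (F z)) (pr (F w)) / ‖w - z‖ ≤ √2 wd (F z) (F' z) / ‖F z‖² ≤ √2 L`;
a map on a segment with this property is Lipschitz with every constant `> √2 L`
(`image_le_of_liminf_slope_right_lt_deriv_boundary` and variants for the real function `t ↦ dist (f z) (f (z + t (w - z)))`, or
`image_norm_le_of_liminf_right_slope_norm_lt_deriv_boundary`).
-/

set_option autoImplicit false

open Topology Filter Metric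

namespace Pool.Agent.H62.EF

open Pool.Agent.H36.BP (EN fs wd wd_cont wd_inv wd_smul_right fs_nonneg)

variable {N : ℕ}

/-- `wd x y = (t - s) wd x (slope)` -/
private theorem wd_slope {G : ℝ → EN N} {s t : ℝ} (h : s < t) :
    wd (G s) (G t) = (t - s) * wd (G s) (slope G s t) := by
  have h1 : G t = (((t - s : ℝ)) : ℂ) • slope G s t + (1 : ℂ) • G s := by
    have hne : t - s ≠ 0 := by linarith
    rw [slope_def_module, one_smul, Complex.coe_smul, smul_smul, mul_inv_cancel₀ hne, one_smul, sub_add_cancel]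
  have h2 : wd (G s) (G t) = wd (G s) ((((t - s : ℝ)) : ℂ) • slope G s t) := by
    have h3 := wd_inv (G s) ((((t - s : ℝ)) : ℂ) • slope G s t) 1 1
    have h4 : (1 : ℂ) • ((((t - s : ℝ)) : ℂ) • slope G s t) + (1 : ℂ) • G s = G t := by
      rw [one_smul ℂ ((((t - s : ℝ)) : ℂ) • slope G s t), ← h1]
    rw [h4, one_smul, norm_one, one_pow, one_mul] at h3
    exact h3
  rw [h2, wd_smul_right, Complex.norm_real, Real.norm_of_nonneg (by linarith)]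

private theorem lim_aux {l : Filter ℝ} {S : ℝ → EN N} {x v : EN N} (h : Tendsto S l (𝓝 v)) :
    Tendsto (fun t => wd x (S t)) l (𝓝 (wd x v)) := by
  have h1 : Tendsto (fun t => (inner ℂ x (S t) : ℂ)) l (𝓝 (inner ℂ x v)) := tendsto_const_nhds.inner h
  have h2 : Tendsto (fun t => ‖x‖ ^ 2 * ‖S t‖ ^ 2 - ‖(inner ℂ x (S t) : ℂ)‖ ^ 2) l
      (𝓝 (‖x‖ ^ 2 * ‖v‖ ^ 2 - ‖(inner ℂ x v : ℂ)‖ ^ 2)) :=
    ((h.norm.pow 2).const_mul _).sub (h1.norm.pow 2)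
  exact h2.sqrt

private theorem lim_aux2 {l : Filter ℝ} {S G : ℝ → EN N} {x v : EN N} (h : Tendsto S l (𝓝 v)) (hG : Tendsto G l (𝓝 x))
    (hx : ‖x‖ ≠ 0) :
    Tendsto (fun t => Real.sqrt 2 * (wd x (S t) / (‖x‖ * ‖G t‖))) l (𝓝 (Real.sqrt 2 * (wd x v / (‖x‖ * ‖x‖)))) := by
  have h1 := lim_aux (x := x) h
  have h2 : Tendsto (fun t => ‖x‖ * ‖G t‖) l (𝓝 (‖x‖ * ‖x‖)) := hG.norm.const_mul _
  exact (h1.div h2 (mul_ne_zero hx hx)).const_mul _

theorem pr_lipschitz {F : ℂ → EN N} {U : Set ℂ} (hU : IsOpen U) (hUc : Convex ℝ U) (hF : DifferentiableOn ℂ F U)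
    (h0 : ∀ z ∈ U, F z ≠ 0) {L : ℝ} (hL : ∀ z ∈ U, fs (F z) (deriv F z) ≤ L) :
    ∀ z ∈ U, ∀ w ∈ U, dist (pr (F z)) (pr (F w)) ≤ 2 * L * ‖z - w‖ := by
  intro z hz w hw
  have hL0 : 0 ≤ L := le_trans (fs_nonneg _ _) (hL z hz)
  obtain ⟨γ, hγ⟩ : ∃ γ : ℝ → ℂ, γ = fun t : ℝ => z + (t : ℂ) * (w - z) := ⟨_, rfl⟩
  have hγU : ∀ t ∈ Set.Icc (0 : ℝ) 1, γ t ∈ U := by
    intro t ht
    have h1 := hUc hz hw (show 0 ≤ 1 - t by linarith [ht.2]) ht.1 (by ring)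
    have h2 : γ t = (1 - t) • z + t • w := by
      rw [hγ]
      simp only [Complex.real_smul]
      push_cast
      ring
    rw [h2]
    exact h1
  have hγ0 : γ 0 = z := by rw [hγ]; simp
  have hγ1 : γ 1 = w := by rw [hγ]; simp
  have hγd : ∀ t, HasDerivAt γ (w - z) t := by
    intro t
    have h1 : HasDerivAt (fun s : ℝ => (s : ℂ)) 1 t := Complex.ofRealCLM.hasDerivAt
    have h2 := (h1.mul_const (w - z)).const_add z
    rw [one_mul] at h2
    rw [hγ]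
    exact h2
  obtain ⟨G, hG⟩ : ∃ G : ℝ → EN N, G = fun t => F (γ t) := ⟨_, rfl⟩
  have hGd : ∀ t ∈ Set.Icc (0 : ℝ) 1, HasDerivAt G ((w - z) • deriv F (γ t)) t := by
    intro t ht
    have h1 : HasDerivAt F (deriv F (γ t)) (γ t) :=
      (hF.differentiableAt (hU.mem_nhds (hγU t ht))).hasDerivAt
    rw [hG]
    exact h1.scomp t (hγd t)
  have hG0 : ∀ t ∈ Set.Icc (0 : ℝ) 1, G t ≠ 0 := by
    intro t ht
    rw [hG]
    exact h0 _ (hγU t ht)
  have hcont : ContinuousOn (fun t => pr (G t) - pr (G 0)) (Set.Icc 0 1) := by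
    intro t ht
    have h1 : ContinuousAt (fun t => pr (G t)) t :=
      ContinuousAt.comp (f := G) (g := pr) (continuousAt_pr (hG0 t ht)) (hGd t ht).continuousAt
    exact (h1.sub continuousAt_const).continuousWithinAt
  have hslope : ∀ x ∈ Set.Ico (0 : ℝ) 1, ∀ r : ℝ, Real.sqrt 2 * (L * ‖w - z‖) < r →
      ∃ᶠ t in 𝓝[>] x, slope (norm ∘ fun t => pr (G t) - pr (G 0)) x t < r := by
    intro x hx r hr
    have hx1 : x ∈ Set.Icc (0 : ℝ) 1 := ⟨hx.1, hx.2.le⟩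
    have hd := hGd x hx1
    have hs : Tendsto (slope G x) (𝓝[>] x) (𝓝 ((w - z) • deriv F (γ x))) :=
      (hasDerivAt_iff_tendsto_slope.1 hd).mono_left (nhdsWithin_mono _ fun t ht => ne_of_gt ht)
    have hc : Tendsto G (𝓝[>] x) (𝓝 (G x)) := hd.continuousAt.tendsto.mono_left nhdsWithin_le_nhds
    have hxn : ‖G x‖ ≠ 0 := norm_ne_zero_iff.2 (hG0 x hx1)
    have hlim : Tendsto (fun t => Real.sqrt 2 * (wd (G x) (slope G x t) / (‖G x‖ * ‖G t‖))) (𝓝[>] x)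
        (𝓝 (Real.sqrt 2 * (wd (G x) ((w - z) • deriv F (γ x)) / (‖G x‖ * ‖G x‖)))) := by
      exact lim_aux2 hs hc hxn
    have hval : Real.sqrt 2 * (wd (G x) ((w - z) • deriv F (γ x)) / (‖G x‖ * ‖G x‖)) ≤
        Real.sqrt 2 * (L * ‖w - z‖) := by
      refine mul_le_mul_of_nonneg_left ?_ (Real.sqrt_nonneg _)
      have h1 := hL (γ x) (hγU x hx1)
      have h2 : G x = F (γ x) := by rw [hG]
      unfold fs at h1
      rw [wd_smul_right, h2, mul_div_assoc, ← pow_two, mul_comm L]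
      exact mul_le_mul_of_nonneg_left h1 (norm_nonneg _)
    have hev : ∀ᶠ t in 𝓝[>] x, Real.sqrt 2 * (wd (G x) (slope G x t) / (‖G x‖ * ‖G t‖)) < r :=
      hlim.eventually (gt_mem_nhds (lt_of_le_of_lt hval hr))
    have hmem : ∀ᶠ t in 𝓝[>] x, t ∈ Set.Ioc x 1 := Ioc_mem_nhdsGT hx.2
    refine Eventually.frequently ?_
    filter_upwards [hev, hmem] with t ht htm
    have hxt : x < t := htm.1
    have ht1 : t ∈ Set.Icc (0 : ℝ) 1 := ⟨le_trans hx.1 hxt.le, htm.2⟩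
    refine lt_of_le_of_lt ?_ ht
    have h1 : ‖pr (G t) - pr (G 0)‖ - ‖pr (G x) - pr (G 0)‖ ≤ dist (pr (G x)) (pr (G t)) := by
      have h2 := norm_sub_norm_le (pr (G t) - pr (G 0)) (pr (G x) - pr (G 0))
      rw [sub_sub_sub_cancel_right, norm_sub_rev (pr (G t)) (pr (G x)), ← dist_eq_norm (pr (G x)) (pr (G t))] at h2
      exact h2
    rw [dist_pr (hG0 x hx1) (hG0 t ht1), wd_slope hxt] at h1
    rw [slope_def_field]
    show (‖pr (G t) - pr (G 0)‖ - ‖pr (G x) - pr (G 0)‖) / (t - x) ≤ _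
    rw [div_le_iff₀ (by linarith)]
    calc ‖pr (G t) - pr (G 0)‖ - ‖pr (G x) - pr (G 0)‖
        ≤ Real.sqrt 2 * ((t - x) * wd (G x) (slope G x t) / (‖G x‖ * ‖G t‖)) := h1
      _ = Real.sqrt 2 * (wd (G x) (slope G x t) / (‖G x‖ * ‖G t‖)) * (t - x) := by ring
  have key : ∀ ε : ℝ, 0 < ε → ‖pr (G 1) - pr (G 0)‖ ≤ Real.sqrt 2 * (L * ‖w - z‖) + ε := by
    intro ε hε
    have h1 := image_norm_le_of_liminf_right_slope_norm_lt_deriv_boundary (a := 0) (b := 1)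
      (f := fun t => pr (G t) - pr (G 0)) (f' := fun _ => Real.sqrt 2 * (L * ‖w - z‖)) hcont hslope
      (B := fun t => (Real.sqrt 2 * (L * ‖w - z‖) + ε) * t) (B' := fun _ => Real.sqrt 2 * (L * ‖w - z‖) + ε)
      (by simp) (by fun_prop)
      (fun x _ => by
        have h2 := (hasDerivAt_id x).const_mul (Real.sqrt 2 * (L * ‖w - z‖) + ε)
        rw [mul_one] at h2
        exact h2.hasDerivWithinAt)
      (fun x _ _ => by linarith) (x := 1) ⟨zero_le_one, le_refl 1⟩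
    rw [mul_one] at h1
    exact h1
  have hfin : ‖pr (G 1) - pr (G 0)‖ ≤ Real.sqrt 2 * (L * ‖w - z‖) := le_of_forall_pos_le_add key
  have hG1 : G 1 = F w := by rw [hG]; show F (γ 1) = F w; rw [hγ1]
  have hG0' : G 0 = F z := by rw [hG]; show F (γ 0) = F z; rw [hγ0]
  rw [hG1, hG0', ← dist_eq_norm, dist_comm] at hfin
  refine hfin.trans ?_
  have hs2 : Real.sqrt 2 ≤ 2 := by
    rw [Real.sqrt_le_left (by norm_num)]
    norm_num
  rw [norm_sub_rev z w, mul_assoc]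
  exact mul_le_mul_of_nonneg_right hs2 (mul_nonneg hL0 (norm_nonneg _))

end Pool.Agent.H62.EF

end

section

/-!
# EF LimL: limits of curves with bounded derivative

`F n` is a holomorphic curve in `X` on `ball 0 (ρ n)`, `ρ n → ∞` along the ultrafilter `𝒰`, with `fs (F n z) ((F n)' z) ≤ L` (`L > 0`).

(a) Local: let `z₀ ∈ ℂ`, `r = 1 / (8 L)`.  For `𝒰`-almost all `n` we have `ball z₀ r ⊆ ball 0 (ρ n)`; let `e n = F n z₀ / ‖F n z₀‖`,
`φ n z = (⟨e n, F n z⟩)⁻¹ • F n z` on `ball z₀ r`.  `pr_lipschitz`: `dist (pr (F n z)) (pr (e n)) ≤ 2 L r = 1/4`, so by `norm_inner_sq`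
`‖⟨e n, F n z⟩‖² ≥ ‖F n z‖² / 2`: `φ n` is holomorphic, `‖φ n z‖ ≤ 2`, `⟨e n, φ n z⟩ = 1`.  `e n → e` (compact sphere) and by
`montel_ultrafilter` `φ n → ψ` locally uniformly on `ball z₀ r`, `ψ` holomorphic; `⟨e, ψ z⟩ = 1`, so `ψ z ≠ 0`, and `ψ z ∈ X` because
`insert 0 X` is closed.  `pr (F n z) = pr (φ n z) → pr (ψ z)` (`continuousAt_pr`), and
`fs (F n z) ((F n)' z) = fs (φ n z) ((φ n)' z) → fs (ψ z) (ψ' z)` (`fs (k x) (k v + a x) = fs x v`, see `H36/BP/MtA.lean` and `WdA.lean`;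
`TendstoLocallyUniformlyOn.deriv`).

(b) Global: for every `z` let `y z` be the limit of `pr (F n z)`; by (a) for every `z₀` there is `ψ` holomorphic near `z₀`, without
zeros, with `pr (ψ z) = y z`.  Define `f z : PN N` as the class of `ψ_z z` (the `ψ` chosen at the point `z`); near `z₀`
`f z = [ψ_{z₀} z]` by `pr_eq_iff`, so `f` is `HolomorphicInto` on `univ`; `exists_global_lift` gives an entire lift `G` without zeros,
`pr (G z) = y z`, `G z = c • ψ z` with `c ≠ 0` near `z₀`, so `G z ∈ X`; `fs (G z) (G' z) = fs (ψ z) (ψ' z)` because `G = a ψ` near `z₀` with `a`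
holomorphic without zeros (`a = ⟨e, G⟩`).
-/

set_option autoImplicit false

open Topology Filter Metric

namespace Pool.Agent.H62.EF

open Pool.Agent.H36.BP (EN fs wd)
open Pool.Agent.H14.PP (IsCone)

variable {N : ℕ}

private lemma LimL_ne_zero {X : Set (EN N)} (hX : IsCone X) {x : EN N} (hx : x ∈ X) : x ≠ 0 := by
  rintro rfl
  exact hX.zero_notMem hx

private lemma LimL_fs_cont {x v : EN N} (hx : x ≠ 0) : ContinuousAt (fun p : EN N × EN N => fs p.1 p.2) (x, v) := by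
  unfold fs
  have h1 : ContinuousAt (fun p : EN N × EN N => wd p.1 p.2) (x, v) := Pool.Agent.H36.BP.wd_cont.continuousAt
  have h2 : ContinuousAt (fun p : EN N × EN N => ‖p.1‖ ^ 2) (x, v) := (continuous_fst.norm.pow 2).continuousAt
  exact h1.div h2 (pow_ne_zero 2 (norm_ne_zero_iff.mpr hx))

private lemma LimL_exists_coord {w : EN N} (hw : w ≠ 0) : ∃ j, w j ≠ 0 := by
  by_contra h
  push Not at h
  apply hw
  ext j
  exact h j

private lemma LimL_coord_an {f : ℂ → EN N} {z : ℂ} (hf : AnalyticAt ℂ f z) (i : Fin (N + 1)) :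
    AnalyticAt ℂ (fun w => f w i) z := by
  exact ((EuclideanSpace.proj (𝕜 := ℂ) i : EN N →L[ℂ] ℂ).analyticAt _).comp hf

private lemma LimL_fs_tendsto {x v : EN N} (hx : x ≠ 0) {a b : ℕ → EN N} {l : Filter ℕ} (ha : Tendsto a l (𝓝 x))
    (hb : Tendsto b l (𝓝 v)) : Tendsto (fun n => fs (a n) (b n)) l (𝓝 (fs x v)) := by
  have h1 := ha.prodMk_nhds hb
  have h2 := (LimL_fs_cont (v := v) hx).tendsto.comp h1
  exact h2

private lemma LimL_fs_eq_aux {f g : ℂ → EN N} {k : ℂ → ℂ} {z : ℂ} (hg : AnalyticAt ℂ g z) (hf0 : f z ≠ 0)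
    (hg0 : g z ≠ 0) (hk : AnalyticAt ℂ k z) (h : ∀ᶠ w in 𝓝 z, f w = k w • g w) :
    fs (f z) (deriv f z) = fs (g z) (deriv g z) := by
  have hz : f z = k z • g z := h.self_of_nhds
  have h0 : k z ≠ 0 := by
    intro h1
    apply hf0
    rw [hz, h1, zero_smul]
  have hd : deriv f z = k z • deriv g z + deriv k z • g z := by
    have h1 : f =ᶠ[𝓝 z] fun w => k w • g w := h
    rw [h1.deriv_eq]
    exact (hk.differentiableAt.hasDerivAt.smul hg.differentiableAt.hasDerivAt).deriv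
  rw [hd, hz]
  exact Pool.Agent.H36.BP.fs_inv hg0 _ h0 _

/-- the length of the derivative does not depend on the lift -/
private lemma LimL_fs_eq {f g : ℂ → EN N} {z : ℂ} (hf : AnalyticAt ℂ f z) (hg : AnalyticAt ℂ g z) (hf0 : f z ≠ 0)
    (hg0 : g z ≠ 0) (h : ∀ᶠ w in 𝓝 z, ∃ c : ℂ, c ≠ 0 ∧ f w = c • g w) : fs (f z) (deriv f z) = fs (g z) (deriv g z) := by
  obtain ⟨l, hl⟩ := LimL_exists_coord hg0
  have hgl := LimL_coord_an hg l
  have hfl := LimL_coord_an hf l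
  have ha : AnalyticAt ℂ (fun w => f w l / g w l) z := hfl.div hgl hl
  have he : ∀ᶠ w in 𝓝 z, f w = (f w l / g w l) • g w := by
    filter_upwards [h, hgl.continuousAt.eventually_ne hl] with w h1 h2
    obtain ⟨c, hc, h3⟩ := h1
    have h4 : f w l = c * g w l := by rw [h3]; rfl
    have h2' : g w l ≠ 0 := h2
    rw [h4, mul_div_assoc, div_self h2', mul_one]
    exact h3
  exact LimL_fs_eq_aux hg hf0 hg0 ha he

private lemma LimL_local {X : Set (EN N)} (hX : IsCone X) {L : ℝ} (hL : 0 < L) (𝒰 : Ultrafilter ℕ) (F : ℕ → ℂ → EN N) (ρ : ℕ → ℝ)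
    (hρ : Tendsto ρ 𝒰 atTop) (hF : ∀ᶠ n in (𝒰 : Filter ℕ), DifferentiableOn ℂ (F n) (ball 0 (ρ n)) ∧
      ∀ z ∈ ball (0 : ℂ) (ρ n), F n z ∈ X ∧ fs (F n z) (deriv (F n) z) ≤ L) (z₀ : ℂ) :
    ∃ (r : ℝ) (φ : ℕ → ℂ → EN N) (ψ : ℂ → EN N), 0 < r ∧
        (∀ᶠ n in (𝒰 : Filter ℕ), DifferentiableOn ℂ (F n) (ball z₀ r) ∧ DifferentiableOn ℂ (φ n) (ball z₀ r) ∧
          ∀ z ∈ ball z₀ r, F n z ∈ X ∧ ∃ c : ℂ, c ≠ 0 ∧ φ n z = c • F n z) ∧
        DifferentiableOn ℂ ψ (ball z₀ r) ∧ (∀ z ∈ ball z₀ r, ψ z ∈ X) ∧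
        TendstoLocallyUniformlyOn φ ψ 𝒰 (ball z₀ r) := by
  set r : ℝ := 1 / (8 * L) with hr
  have hr0 : 0 < r := by positivity
  have hz₀ : z₀ ∈ ball z₀ r := mem_ball_self hr0
  have hev : ∀ᶠ n in (𝒰 : Filter ℕ), DifferentiableOn ℂ (F n) (ball z₀ r) ∧
      ∀ z ∈ ball z₀ r, F n z ∈ X ∧ ‖F n z₀‖ * ‖F n z‖ ≤ 2 * ‖inner ℂ (F n z₀) (F n z)‖ := by
    filter_upwards [hF, hρ.eventually_ge_atTop (‖z₀‖ + r)] with n h1 h2
    obtain ⟨h1, h3⟩ := h1
    have hsub : ball z₀ r ⊆ ball 0 (ρ n) := by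
      apply ball_subset_ball'
      rw [dist_zero_right]
      linarith
    refine ⟨h1.mono hsub, fun z hz => ⟨(h3 z (hsub hz)).1, ?_⟩⟩
    have hx0 : F n z₀ ≠ 0 := LimL_ne_zero hX (h3 z₀ (hsub hz₀)).1
    have hy0 : F n z ≠ 0 := LimL_ne_zero hX (h3 z (hsub hz)).1
    have hlip := pr_lipschitz isOpen_ball (convex_ball z₀ r) (h1.mono hsub)
      (fun w hw => LimL_ne_zero hX (h3 w (hsub hw)).1) (fun w hw => (h3 w (hsub hw)).2) z₀ hz₀ z hz
    have h4 : ‖z₀ - z‖ ≤ r := by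
      rw [← dist_eq_norm, dist_comm]
      exact (mem_ball.mp hz).le
    have h5 : dist (pr (F n z₀)) (pr (F n z)) ≤ 1 / 4 := by
      calc dist (pr (F n z₀)) (pr (F n z)) ≤ 2 * L * ‖z₀ - z‖ := hlip
        _ ≤ 2 * L * r := by gcongr
        _ = 1 / 4 := by rw [hr]; field_simp; norm_num
    have h6 := norm_inner_sq hx0 hy0
    have h7 : dist (pr (F n z₀)) (pr (F n z)) ^ 2 ≤ 1 := by
      have := dist_nonneg (x := pr (F n z₀)) (y := pr (F n z))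
      nlinarith
    have h8 : (‖F n z₀‖ * ‖F n z‖) ^ 2 ≤ (2 * ‖inner ℂ (F n z₀) (F n z)‖) ^ 2 := by
      rw [mul_pow, mul_pow, h6]
      have h9 : 0 ≤ ‖F n z₀‖ ^ 2 * ‖F n z‖ ^ 2 := by positivity
      nlinarith
    exact abs_le_of_sq_le_sq' h8 (by positivity) |>.2
  set φ : ℕ → ℂ → EN N := fun n z => (((‖F n z₀‖ : ℝ) : ℂ) / inner ℂ (F n z₀) (F n z)) • F n z with hφ
  have hev2 : ∀ᶠ n in (𝒰 : Filter ℕ), DifferentiableOn ℂ (F n) (ball z₀ r) ∧ DifferentiableOn ℂ (φ n) (ball z₀ r) ∧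
      ∀ z ∈ ball z₀ r, F n z ∈ X ∧ (∃ c : ℂ, c ≠ 0 ∧ φ n z = c • F n z) ∧ ‖φ n z‖ ≤ 2 ∧ 1 ≤ ‖φ n z‖ := by
    filter_upwards [hev] with n h1
    obtain ⟨h1, h2⟩ := h1
    have hx0 : F n z₀ ≠ 0 := LimL_ne_zero hX (h2 z₀ hz₀).1
    have hxn : 0 < ‖F n z₀‖ := norm_pos_iff.mpr hx0
    have hin : ∀ z ∈ ball z₀ r, (inner ℂ (F n z₀) (F n z) : ℂ) ≠ 0 := by
      intro z hz h
      have h3 := (h2 z hz).2
      have hyn : 0 < ‖F n z‖ := norm_pos_iff.mpr (LimL_ne_zero hX (h2 z hz).1)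
      rw [h, norm_zero, mul_zero] at h3
      have : 0 < ‖F n z₀‖ * ‖F n z‖ := mul_pos hxn hyn
      linarith
    refine ⟨h1, ?_, fun z hz => ⟨(h2 z hz).1, ⟨_, ?_, rfl⟩, ?_, ?_⟩⟩
    · have h3 : DifferentiableOn ℂ (fun z => (inner ℂ (F n z₀) (F n z) : ℂ)) (ball z₀ r) :=
        (innerSL ℂ (F n z₀)).differentiable.comp_differentiableOn h1
      have h4 : DifferentiableOn ℂ (fun z => ((‖F n z₀‖ : ℝ) : ℂ) / (inner ℂ (F n z₀) (F n z) : ℂ)) (ball z₀ r) :=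
        (differentiableOn_const _).div h3 hin
      exact h4.smul h1
    · exact div_ne_zero (Complex.ofReal_ne_zero.mpr hxn.ne') (hin z hz)
    · have h3 := (h2 z hz).2
      have h4 : 0 < ‖(inner ℂ (F n z₀) (F n z) : ℂ)‖ := norm_pos_iff.mpr (hin z hz)
      simp only [hφ]
      rw [norm_smul, norm_div, Complex.norm_real, norm_norm, div_mul_eq_mul_div, div_le_iff₀ h4]
      exact h3
    · have h4 : 0 < ‖(inner ℂ (F n z₀) (F n z) : ℂ)‖ := norm_pos_iff.mpr (hin z hz)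
      simp only [hφ]
      rw [norm_smul, norm_div, Complex.norm_real, norm_norm, div_mul_eq_mul_div, le_div_iff₀ h4, one_mul]
      exact norm_inner_le_norm _ _
  obtain ⟨ψ, hψ, hconv⟩ := Pool.Agent.H17.montel_ultrafilter 𝒰 (F := φ) (a := z₀) (r := r) (B := 2)
    (hev2.mono fun n h => h.2.1) (hev2.mono fun n h z hz => ((h.2.2 z hz).2.2.1))
  refine ⟨r, φ, ψ, hr0, hev2.mono fun n h => ⟨h.1, h.2.1, fun z hz => ⟨(h.2.2 z hz).1, (h.2.2 z hz).2.1⟩⟩, hψ, ?_, hconv⟩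
  intro z hz
  have h1 : Tendsto (fun n => φ n z) 𝒰 (𝓝 (ψ z)) := hconv.tendsto_at hz
  have h2 : ψ z ∈ insert 0 X := by
    refine hX.closed.mem_of_tendsto h1 ?_
    filter_upwards [hev2] with n h
    obtain ⟨h3, ⟨c, hc, h4⟩, -⟩ := h.2.2 z hz
    rw [h4]
    exact Or.inr (hX.smul_mem _ h3 c hc)
  have h3 : 1 ≤ ‖ψ z‖ := by
    refine ge_of_tendsto h1.norm ?_
    filter_upwards [hev2] with n h
    exact (h.2.2 z hz).2.2.2
  rcases h2 with h2 | h2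
  · rw [h2, norm_zero] at h3
    linarith
  · exact h2

theorem limit_curves {X : Set (EN N)} (hX : IsCone X) {L : ℝ} (hL : 0 < L) (𝒰 : Ultrafilter ℕ) (F : ℕ → ℂ → EN N) (ρ : ℕ → ℝ)
    (hρ : Tendsto ρ 𝒰 atTop) (hF : ∀ᶠ n in (𝒰 : Filter ℕ), DifferentiableOn ℂ (F n) (ball 0 (ρ n)) ∧
      ∀ z ∈ ball (0 : ℂ) (ρ n), F n z ∈ X ∧ fs (F n z) (deriv (F n) z) ≤ L) :
    ∃ G : ℂ → EN N, Differentiable ℂ G ∧ (∀ z, G z ∈ X) ∧ (∀ z, Tendsto (fun n => pr (F n z)) 𝒰 (𝓝 (pr (G z)))) ∧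
      (∀ z, Tendsto (fun n => fs (F n z) (deriv (F n) z)) 𝒰 (𝓝 (fs (G z) (deriv G z)))) ∧
      ∀ z₀, ∃ (r : ℝ) (φ : ℕ → ℂ → EN N) (ψ : ℂ → EN N), 0 < r ∧
        (∀ᶠ n in (𝒰 : Filter ℕ), DifferentiableOn ℂ (φ n) (ball z₀ r) ∧ ∀ z ∈ ball z₀ r, ∃ c : ℂ, c ≠ 0 ∧ φ n z = c • F n z) ∧
        DifferentiableOn ℂ ψ (ball z₀ r) ∧ (∀ z ∈ ball z₀ r, ∃ c : ℂ, c ≠ 0 ∧ ψ z = c • G z) ∧
        TendstoLocallyUniformlyOn φ ψ 𝒰 (ball z₀ r) := by
  classical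
  choose r φ ψ hr hev hψd hψX hconv using LimL_local hX hL 𝒰 F ρ hρ hF
  have hψ0 : ∀ z₀, ∀ z ∈ ball z₀ (r z₀), ψ z₀ z ≠ 0 := fun z₀ z hz => LimL_ne_zero hX (hψX z₀ z hz)
  have hself : ∀ z, z ∈ ball z (r z) := fun z => mem_ball_self (hr z)
  have hprl : ∀ z₀, ∀ z ∈ ball z₀ (r z₀), Tendsto (fun n => pr (F n z)) 𝒰 (𝓝 (pr (ψ z₀ z))) := by
    intro z₀ z hz
    have h1 : Tendsto (fun n => φ z₀ n z) 𝒰 (𝓝 (ψ z₀ z)) := (hconv z₀).tendsto_at hz
    have h2 : Tendsto (fun n => pr (φ z₀ n z)) 𝒰 (𝓝 (pr (ψ z₀ z))) :=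
      (continuousAt_pr (hψ0 z₀ z hz)).tendsto.comp h1
    refine h2.congr' ?_
    filter_upwards [hev z₀] with n h
    obtain ⟨-, c, hc, h4⟩ := h.2.2 z hz
    rw [h4, pr_smul _ hc]
  have hψan : ∀ z₀, AnalyticAt ℂ (ψ z₀) z₀ := fun z₀ => (hψd z₀).analyticAt (isOpen_ball.mem_nhds (hself z₀))
  have hofne : ∀ v : EN N, v ≠ 0 → v.ofLp ≠ 0 := by
    intro v hv h
    apply hv
    ext j
    exact congrFun h j
  set f : ℂ → Pool.Agent.H17.PN N := fun z => Projectivization.mk ℂ (ψ z z).ofLp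
    (hofne _ (hψ0 z z (hself z))) with hf
  have hfhol : Pool.Agent.H17.HolomorphicInto f Set.univ := by
    intro z₀ _
    refine ⟨fun w => (ψ z₀ w).ofLp, ?_, ?_⟩
    · rw [analyticAt_pi_iff]
      intro j
      exact LimL_coord_an (hψan z₀) j
    · filter_upwards [isOpen_ball.mem_nhds (hself z₀)] with z hz
      have h2 := hψ0 z₀ z hz
      refine ⟨hofne _ h2, ?_⟩
      have h3 : pr (ψ z z) = pr (ψ z₀ z) := tendsto_nhds_unique (hprl z z (hself z)) (hprl z₀ z hz)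
      obtain ⟨c, hc, h4⟩ := (pr_eq_iff (hψ0 z z (hself z)) h2).mp h3
      rw [hf, Projectivization.mk_eq_mk_iff']
      exact ⟨c, by rw [h4]; rfl⟩
  obtain ⟨x, hx⟩ := Pool.Agent.H17.exists_global_lift hfhol
  set G : ℂ → EN N := fun z => WithLp.toLp 2 (fun j => (x j : ℂ → ℂ) z) with hG
  have hGd : Differentiable ℂ G := by
    have h1 : Differentiable ℂ (fun z => (fun j => (x j : ℂ → ℂ) z)) :=
      differentiable_pi.2 fun j => (x j).diff
    exact (PiLp.continuousLinearEquiv 2 ℂ (fun _ : Fin (N + 1) => ℂ)).symm.differentiable.comp h1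
  have hGc : ∀ z, ∃ c : ℂ, c ≠ 0 ∧ ψ z z = c • G z := by
    intro z
    obtain ⟨h1, h2⟩ := hx z
    obtain ⟨c, hc, h3⟩ := Pool.Agent.H17.mk_eq_mk_cross h2
    refine ⟨c, hc, ?_⟩
    ext j
    exact h3 j
  have hGX : ∀ z, G z ∈ X := by
    intro z
    obtain ⟨c, hc, h1⟩ := hGc z
    have h2 := hX.smul_mem _ (hψX z z (hself z)) c⁻¹ (inv_ne_zero hc)
    rwa [h1, smul_smul, inv_mul_cancel₀ hc, one_smul] at h2
  have hG0 : ∀ z, G z ≠ 0 := fun z => LimL_ne_zero hX (hGX z)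
  have hGpr : ∀ z, pr (ψ z z) = pr (G z) := by
    intro z
    obtain ⟨c, hc, h1⟩ := hGc z
    rw [h1, pr_smul _ hc]
  have hlim : ∀ z, Tendsto (fun n => pr (F n z)) 𝒰 (𝓝 (pr (G z))) := by
    intro z
    rw [← hGpr z]
    exact hprl z z (hself z)
  have hprop : ∀ z₀, ∀ z ∈ ball z₀ (r z₀), ∃ c : ℂ, c ≠ 0 ∧ ψ z₀ z = c • G z := by
    intro z₀ z hz
    exact (pr_eq_iff (hψ0 z₀ z hz) (hG0 z)).mp (tendsto_nhds_unique (hprl z₀ z hz) (hlim z))
  refine ⟨G, hGd, hGX, hlim, ?_, ?_⟩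
  · intro z
    have hzb := isOpen_ball.mem_nhds (hself z)
    have h1 : fs (ψ z z) (deriv (ψ z) z) = fs (G z) (deriv G z) := by
      refine LimL_fs_eq (hψan z) (hGd.analyticAt z) (hψ0 z z (hself z)) (hG0 z) ?_
      filter_upwards [hzb] with w hw
      exact hprop z w hw
    rw [← h1]
    have h2 : Tendsto (fun n => φ z n z) 𝒰 (𝓝 (ψ z z)) := (hconv z).tendsto_at (hself z)
    have hd : TendstoLocallyUniformlyOn (deriv ∘ (φ z)) (deriv (ψ z)) 𝒰 (ball z (r z)) :=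
      (hconv z).deriv ((hev z).mono fun n hn => hn.2.1) isOpen_ball
    have h3 : Tendsto (fun n => deriv (φ z n) z) 𝒰 (𝓝 (deriv (ψ z) z)) := hd.tendsto_at (hself z)
    have h4 : Tendsto (fun n => fs (φ z n z) (deriv (φ z n) z)) 𝒰 (𝓝 (fs (ψ z z) (deriv (ψ z) z))) :=
      LimL_fs_tendsto (hψ0 z z (hself z)) h2 h3
    refine h4.congr' ?_
    filter_upwards [hev z] with n h
    obtain ⟨h5, h6, h7⟩ := h
    have hFX := (h7 z (hself z)).1
    obtain ⟨c, hc, h8⟩ := (h7 z (hself z)).2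
    refine LimL_fs_eq (h6.analyticAt hzb) (h5.analyticAt hzb) ?_ (LimL_ne_zero hX hFX) ?_
    · rw [h8]
      exact smul_ne_zero hc (LimL_ne_zero hX hFX)
    · filter_upwards [hzb] with w hw
      exact (h7 w hw).2
  · intro z₀
    refine ⟨r z₀, φ z₀, ψ z₀, hr z₀, ?_, hψd z₀, hprop z₀, hconv z₀⟩
    filter_upwards [hev z₀] with n h
    exact ⟨h.2.1, fun z hz => (h.2.2 z hz).2⟩

end Pool.Agent.H62.EF

end

section

/-!
# TG Jan: properties of the integral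

Compare `Pool/Agent/H62/EL/Jan.lean` (there for members of `Sb`, here for local lifts and for points of the fibres).

`II_analytic`: for `y` near `y₀`: `y ∈ closedBall y₀ r`, `dist (pr (φ y)) (pr (φ y₀)) + ε ≤ r` (continuity), so `II_eq` (`A` from `exists_prim`): `II = (A (χ.q (ψ y)) - A (χ.q (φ y))) / ρ ^ (k + 1)`;
`φ y₀, ψ y₀ ∈ χ.U` and `χ.q _ ∈ closedBall 0 1` (`Cap`; `dist (pr (ψ y₀)) (pr (φ y₀)) ≤ ε` by `IRel.mem`).

`II_bdd`: suppose not: `y_n ∈ Gd D δ`, `m_n`, `m'_n` with `‖II α ε y_n m_n m'_n‖ > n`; then `II ≠ 0`, so there is `v` with `IRel`, `m_n, m'_n ∈ Fb .. y_n` (`IRel.mem`).  Translate by `Γ` (`II_per`, `Geo.gd_add`, `fb_add`, `Lat.cpt`):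
`y_n` bounded; along an ultrafilter `y_n → y ∈ Gd D δ`, `m_n → m ∈ Fb .. y` (`fb_lim`).  `Cap χ c ρ y m r` with `r > ε`; for large `n` `y_n ∈ closedBall y r`, `dist m_n m + ε ≤ r`: `II_eq`: `‖II‖ ≤ 2 M / ρ ^ (k + 1)`, `M` the maximum of `‖A‖` on
`closedBall 0 1`: contradiction.

`II_lim`: `II_eq` for `(y n, m n, m' n)` and for the limit; lifts of `m n`, `m' n` converge to lifts of `m₀`, `m₀'` in the sense of `fb_lim`, so `χ.q _` converges; `A` is continuous.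
-/

set_option autoImplicit false

open Topology Filter Metric

namespace Pool.Agent.TG

open Pool.Agent.H36.BP (EN fs wd)
open Pool.Agent.H14.PP (IsCone CurveAt Tan)
open Pool.Agent.H62.EF (MN pr)
open Pool.Agent.AD (Vd Chart Charts IsGerm)

variable {N k : ℕ}

variable {X : Set (EN N)} {Λ : AddSubgroup (Vd (k + 1))} {u : EN N → Vd (k + 1)} {D B : Set (Vd (k + 1))}

private theorem Jan_closed_sub : closedBall (0 : Vd (k + 2)) 1 ⊆ ball (0 : Vd (k + 2)) 2 := closedBall_subset_ball (by norm_num)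

theorem II_analytic (hX : IsCone X) (hu : TMap X Λ u) (hΛ : Lat Λ) {α : VForm X Λ u} {ε r : ℝ} {φ ψ : Vd (k + 1) → EN N} {y₀ : Vd (k + 1)}
    (hφ : AnalyticAt ℂ φ y₀) (hψ : AnalyticAt ℂ ψ y₀) (hφX : ∀ᶠ y in 𝓝 y₀, φ y ∈ X ∧ u (φ y) - y ∈ Λ)
    (hψX : ∀ᶠ y in 𝓝 y₀, ψ y ∈ X ∧ u (ψ y) - y ∈ Λ) {χ : Chart (k + 2) X} {c : Vd (k + 1)} {ρ : ℝ} (hc : Cap Λ u χ c ρ y₀ (pr (φ y₀)) r)
    (hr : ε < r) (hrel : ∀ᶠ y in 𝓝 y₀, ∃ v, IRel α ε y (pr (φ y)) (pr (ψ y)) v) :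
    AnalyticAt ℂ (fun y => II α ε y (pr (φ y)) (pr (ψ y))) y₀ := by
  obtain ⟨A, hA⟩ := exists_prim α χ hc.str
  obtain ⟨v₀, hv₀⟩ := hrel.self_of_nhds
  obtain ⟨-, -, hfg⟩ := hv₀.mem
  have hε : 0 ≤ ε := dist_nonneg.trans hfg
  have hr0 : 0 < r := lt_of_le_of_lt hε hr
  obtain ⟨hφX0, hφu⟩ := hφX.self_of_nhds
  obtain ⟨hψX0, hψu⟩ := hψX.self_of_nhds
  have hy₀r : y₀ ∈ closedBall y₀ r := mem_closedBall_self hr0.le
  obtain ⟨hφU, hφq, -⟩ := hc.cap y₀ hy₀r (φ y₀) hφX0 hφu (by rw [dist_self]; exact hr0.le)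
  obtain ⟨hψU, hψq, -⟩ := hc.cap y₀ hy₀r (ψ y₀) hψX0 hψu (hfg.trans hr.le)
  have a1 : AnalyticAt ℂ (fun y => A (χ.q (φ y))) y₀ :=
    AnalyticAt.comp (f := fun y => χ.q (φ y)) (g := A) (hA.an _ (Jan_closed_sub hφq))
      (AnalyticAt.comp (f := φ) (g := χ.q) (χ.q_an _ hφU) hφ)
  have a2 : AnalyticAt ℂ (fun y => A (χ.q (ψ y))) y₀ :=
    AnalyticAt.comp (f := fun y => χ.q (ψ y)) (g := A) (hA.an _ (Jan_closed_sub hψq))
      (AnalyticAt.comp (f := ψ) (g := χ.q) (χ.q_an _ hψU) hψ)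
  have hρ : (ρ : ℂ) ^ (k + 1) ≠ 0 := by
    have h1 := hc.str.pos
    exact pow_ne_zero _ (by exact_mod_cast h1.ne')
  have a3 : AnalyticAt ℂ (fun y => (A (χ.q (ψ y)) - A (χ.q (φ y))) / (ρ : ℂ) ^ (k + 1)) y₀ := (a2.sub a1).div analyticAt_const hρ
  refine a3.congr ?_
  have e3 : ∀ᶠ y in 𝓝 y₀, y ∈ closedBall y₀ r := closedBall_mem_nhds _ hr0
  have e4 : ∀ᶠ y in 𝓝 y₀, dist (pr (φ y)) (pr (φ y₀)) < r - ε := by
    have h1 : ContinuousAt (fun y => pr (φ y)) y₀ := ContinuousAt.comp (f := φ) (g := pr)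
      (Pool.Agent.H62.EF.continuousAt_pr (ne_zero hX hφX0)) hφ.continuousAt
    exact h1.eventually (ball_mem_nhds _ (by linarith))
  filter_upwards [hφX, hψX, e3, e4, hrel] with y h1 h2 h3 h4 h5
  exact (II_eq hX hu hΛ h5 hc hA h3 (by linarith) h1.1 h2.1 rfl rfl).symm

theorem II_bdd (G : Geo X Λ u D B) {Γ : AddSubgroup (Vd (k + 1))} (hΓ : Lat Γ) (hle : Γ ≤ Λ) {α : VForm X Λ u} (hper : Per α Γ) {δ ε r : ℝ}
    (hδ : 0 < δ) (hr : ε < r)
    (hcap : ∀ y₀ ∈ Gd D δ, ∀ m ∈ Fb X Λ u y₀, ∃ (χ : Chart (k + 2) X) (c : Vd (k + 1)) (ρ : ℝ), Cap Λ u χ c ρ y₀ m r) :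
    ∃ C : ℝ, 0 ≤ C ∧ ∀ y ∈ Gd D δ, ∀ m m' : MN N, ‖II α ε y m m'‖ ≤ C := by
  by_contra hcon
  push Not at hcon
  obtain ⟨R, hR, hcov⟩ := hΓ.cpt
  have hseq : ∀ n : ℕ, ∃ (y : Vd (k + 1)) (m m' : MN N), y ∈ Gd D δ ∧ ‖y‖ ≤ R ∧ (n : ℝ) < ‖II α ε y m m'‖ := by
    intro n
    obtain ⟨y, hy, m, m', hn⟩ := hcon n (Nat.cast_nonneg n)
    obtain ⟨l, hl, hyl⟩ := hcov y
    refine ⟨y - l, m, m', ?_, hyl, ?_⟩
    · rw [← G.gd_add δ (hle hl), sub_add_cancel]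
      exact hy
    · have h1 := II_per G.tor hle hper hl ε (y - l) m m'
      rw [sub_add_cancel] at h1
      rw [← h1]
      exact hn
  choose y m m' hy hyR hn using hseq
  have hex : ∀ n, ∃ v, IRel α ε (y n) (m n) (m' n) v := by
    intro n
    by_contra hno
    have h1 : II α ε (y n) (m n) (m' n) = 0 := by
      unfold II
      rw [dif_neg hno]
    have h2 := hn n
    rw [h1, norm_zero] at h2
    exact absurd h2 (not_lt.2 (Nat.cast_nonneg n))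
  have hmF : ∀ n, m n ∈ Fb X Λ u (y n) := fun n => by
    obtain ⟨v, hv⟩ := hex n
    exact hv.mem.1
  have hε : 0 ≤ ε := by
    obtain ⟨v, hv⟩ := hex 0
    exact dist_nonneg.trans hv.mem.2.2
  have hr0 : 0 < r := lt_of_le_of_lt hε hr
  set 𝒰 : Ultrafilter ℕ := hyperfilter ℕ with h𝒰
  obtain ⟨y₀, -, hy₀⟩ := (isCompact_closedBall (0 : Vd (k + 1)) R).ultrafilter_le_nhds (𝒰.map y) (by
    rw [Ultrafilter.coe_map, le_principal_iff, mem_map]
    refine univ_mem' fun n => ?_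
    simpa using hyR n)
  have hyt : Tendsto y 𝒰 (𝓝 y₀) := hy₀
  have hy₀G : y₀ ∈ Gd D δ := (gd_closed D δ).mem_of_tendsto hyt (Eventually.of_forall hy)
  obtain ⟨m₀, -, hm₀⟩ := (Pool.Agent.H62.EF.isCompact_pr G.cone).ultrafilter_le_nhds (𝒰.map m) (by
    rw [Ultrafilter.coe_map, le_principal_iff, mem_map]
    refine univ_mem' fun n => ?_
    obtain ⟨x, hx, hxm, -⟩ := hmF n
    exact ⟨x, hx, hxm⟩)
  have hmt : Tendsto m 𝒰 (𝓝 m₀) := hm₀
  have hm₀F := (fb_lim G.cone G.lat G.tor hmt hyt (Eventually.of_forall hmF)).1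
  obtain ⟨χ, c, ρ, hc⟩ := hcap y₀ hy₀G m₀ hm₀F
  obtain ⟨A, hA⟩ := exists_prim α χ hc.str
  have hAc : ContinuousOn A (closedBall (0 : Vd (k + 2)) 1) := fun p hp => (hA.an p (Jan_closed_sub hp)).continuousAt.continuousWithinAt
  obtain ⟨M, hM⟩ := (isCompact_closedBall (0 : Vd (k + 2)) 1).exists_bound_of_continuousOn hAc
  have e1 : ∀ᶠ n in (𝒰 : Filter ℕ), y n ∈ closedBall y₀ r := hyt.eventually (closedBall_mem_nhds _ hr0)
  have e2 : ∀ᶠ n in (𝒰 : Filter ℕ), dist (m n) m₀ < r - ε := hmt.eventually (ball_mem_nhds _ (by linarith))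
  have e3 : ∀ᶠ n : ℕ in (𝒰 : Filter ℕ), 2 * M / ρ ^ (k + 1) ≤ (n : ℝ) := by
    have h1 : ∀ᶠ n : ℕ in atTop, 2 * M / ρ ^ (k + 1) ≤ (n : ℝ) := tendsto_natCast_atTop_atTop.eventually_ge_atTop _
    exact Nat.hyperfilter_le_atTop h1
  obtain ⟨n, h1, h2, h3⟩ := (e1.and (e2.and e3)).exists
  obtain ⟨v, hv⟩ := hex n
  obtain ⟨⟨x, hxX, hxm, hxu⟩, ⟨x', hxX', hxm', hxu'⟩, hd⟩ := hv.mem
  obtain ⟨-, hq, -⟩ := hc.cap (y n) h1 x hxX hxu (by rw [hxm]; linarith)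
  obtain ⟨-, hq', -⟩ := hc.cap (y n) h1 x' hxX' hxu' (by
    rw [hxm']
    have h4 := dist_triangle (m' n) (m n) m₀
    linarith)
  have hII := II_eq G.cone G.tor G.lat ⟨v, hv⟩ hc hA h1 (by linarith) hxX hxX' hxm hxm'
  have hρ : 0 < ρ ^ (k + 1) := pow_pos hc.str.pos _
  have h4 := hn n
  rw [hII, norm_div, norm_pow, Complex.norm_real, Real.norm_of_nonneg hc.str.pos.le] at h4
  have h5 : ‖A (χ.q x') - A (χ.q x)‖ ≤ 2 * M := by
    have h6 := norm_sub_le (A (χ.q x')) (A (χ.q x))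
    have h7 := hM _ hq
    have h8 := hM _ hq'
    linarith
  have h9 : ‖A (χ.q x') - A (χ.q x)‖ / ρ ^ (k + 1) ≤ 2 * M / ρ ^ (k + 1) := div_le_div_of_nonneg_right h5 hρ.le
  linarith

theorem II_lim (hX : IsCone X) (hu : TMap X Λ u) (hΛ : Lat Λ) {α : VForm X Λ u} {ε r : ℝ} {ι : Type*} {l : Filter ι} [l.NeBot]
    {y : ι → Vd (k + 1)} {m m' : ι → MN N} {y₀ : Vd (k + 1)} {m₀ m₀' : MN N} (hy : Tendsto y l (𝓝 y₀)) (hm : Tendsto m l (𝓝 m₀))
    (hm' : Tendsto m' l (𝓝 m₀')) {χ : Chart (k + 2) X} {c : Vd (k + 1)} {ρ : ℝ} (hc : Cap Λ u χ c ρ y₀ m₀ r) (hr : ε < r)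
    (hrel : ∀ᶠ n in l, ∃ v, IRel α ε (y n) (m n) (m' n) v) (hrel' : ∃ v, IRel α ε y₀ m₀ m₀' v) :
    Tendsto (fun n => II α ε (y n) (m n) (m' n)) l (𝓝 (II α ε y₀ m₀ m₀')) := by
  obtain ⟨A, hA⟩ := exists_prim α χ hc.str
  obtain ⟨v₀, hv₀⟩ := hrel'
  obtain ⟨⟨x, hxX, hxm, hxu⟩, ⟨x', hxX', hxm', hxu'⟩, hd⟩ := hv₀.mem
  have hε : 0 ≤ ε := dist_nonneg.trans hd
  have hr0 : 0 < r := lt_of_le_of_lt hε hr
  have hyr : y₀ ∈ closedBall y₀ r := mem_closedBall_self hr0.le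
  obtain ⟨hU, hq, -⟩ := hc.cap y₀ hyr x hxX hxu (by rw [hxm, dist_self]; exact hr0.le)
  obtain ⟨hU', hq', -⟩ := hc.cap y₀ hyr x' hxX' hxu' (by rw [hxm']; exact hd.trans hr.le)
  have hch : ∀ n, ∃ z z' : EN N, (∃ v, IRel α ε (y n) (m n) (m' n) v) → (z ∈ X ∧ pr z = m n) ∧ z' ∈ X ∧ pr z' = m' n := by
    intro n
    by_cases h : ∃ v, IRel α ε (y n) (m n) (m' n) v
    · obtain ⟨v, hv⟩ := h
      obtain ⟨⟨z, h1, h2, -⟩, ⟨z', h3, h4, -⟩, -⟩ := hv.mem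
      exact ⟨z, z', fun _ => ⟨⟨h1, h2⟩, h3, h4⟩⟩
    · exact ⟨0, 0, fun h' => absurd h' h⟩
  choose z z' hz using hch
  have t1 : Tendsto (fun n => χ.q (z n)) l (𝓝 (χ.q x)) := by
    refine tendsto_q χ hU (ne_zero hX hxX) (hrel.mono fun n h => ne_zero hX (hz n h).1.1) ?_
    rw [hxm]
    exact hm.congr' (hrel.mono fun n h => (hz n h).1.2.symm)
  have t2 : Tendsto (fun n => χ.q (z' n)) l (𝓝 (χ.q x')) := by
    refine tendsto_q χ hU' (ne_zero hX hxX') (hrel.mono fun n h => ne_zero hX (hz n h).2.1) ?_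
    rw [hxm']
    exact hm'.congr' (hrel.mono fun n h => (hz n h).2.2.symm)
  have t3 : Tendsto (fun n => A (χ.q (z n))) l (𝓝 (A (χ.q x))) := (hA.an _ (Jan_closed_sub hq)).continuousAt.tendsto.comp t1
  have t4 : Tendsto (fun n => A (χ.q (z' n))) l (𝓝 (A (χ.q x'))) := (hA.an _ (Jan_closed_sub hq')).continuousAt.tendsto.comp t2
  have hII := II_eq hX hu hΛ ⟨v₀, hv₀⟩ hc hA hyr (by rw [dist_self]; linarith) hxX hxX' hxm hxm'
  rw [hII]
  refine Tendsto.congr' ?_ ((t4.sub t3).div_const ((ρ : ℂ) ^ (k + 1)))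
  have e1 : ∀ᶠ n in l, y n ∈ closedBall y₀ r := hy.eventually (closedBall_mem_nhds _ hr0)
  have e2 : ∀ᶠ n in l, dist (m n) m₀ < r - ε := hm.eventually (ball_mem_nhds _ (by linarith))
  filter_upwards [e1, e2, hrel] with n h1 h2 h3
  obtain ⟨⟨h4, h5⟩, h6, h7⟩ := hz n h3
  exact (II_eq hX hu hΛ h3 hc hA h1 (by linarith) h4 h6 h5 h7).symm

end Pool.Agent.TG

end
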