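import Pool.Agent.H94.G4T.H36.BP.WdA_1
import Pool.Agent.H94.G4T.M07
import Pool.Agent.H94.G4T.M29
import Pool.Agent.H94.G4T.M49

/-! The parts of this file: AD.F.Vel, H62.EF.ZalA, H17R.Point, H7.Bir.Alg, G3.P.LimM. -/

section

/-!
# AD F Vel: the speed of a curve
-/

set_option autoImplicit false

open Topology Filter Metric

namespace Pool.Agent.AD.F

open Pool.Agent.H36.BP (EN fs wd Sub Curve)

variable {N : ℕ} {X : Set (EN N)}

/-- the chain rule for the Fubini-Study length -/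
theorem fs_comp {U : Set ℂ} (hU : IsOpen U) {F : ℂ → EN N} (hF : DifferentiableOn ℂ F U) {φ : ℂ → ℂ} {z : ℂ}
    (hφ : DifferentiableAt ℂ φ z) (hz : φ z ∈ U) :
    fs (F (φ z)) (deriv (fun w => F (φ w)) z) = ‖deriv φ z‖ * fs (F (φ z)) (deriv F (φ z)) := by
  have h1 : HasDerivAt F (deriv F (φ z)) (φ z) := (hF.differentiableAt (hU.mem_nhds hz)).hasDerivAt
  have h2 : HasDerivAt (fun w => F (φ w)) (deriv φ z • deriv F (φ z)) z := h1.scomp z hφ.hasDerivAt
  rw [h2.deriv, Pool.Agent.H36.BP.fs_smul_right]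

end Pool.Agent.AD.F

end

section

/-!
# EF ZalA: rescaling of an entire curve

The proof of `Pool.Agent.H36.BP.rescale` (file `H36/BP/Resc.lean`) for `G = fs`: the function `fs (F z) (F' z) * (1 / 2 - ‖z‖)` is continuous on
`closedBall 0 (1 / 2)` (`F z ≠ 0`), it has a maximum `m` at a point `z₀`, `m ≥ fs (F 0) (F' 0) / 2 > 2 (n + 1)`; `a = fs (F z₀) (F' z₀)`.  (Here the point `z₀` and
the number `a` are part of the conclusion.)
-/

set_option autoImplicit false

open Topology Filter Metric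

namespace Pool.Agent.H62.EF

open Pool.Agent.H36.BP (EN fs wd wd_cont fs_nonneg fs_smul_right)

variable {N : ℕ}

theorem rescale_fs {F : ℂ → EN N} (hF : Differentiable ℂ F) (h0 : ∀ z, F z ≠ 0) (n : ℕ)
    (hbig : 4 * ((n : ℝ) + 1) < fs (F 0) (deriv F 0)) :
    ∃ (z₀ : ℂ) (a : ℝ), 4 * ((n : ℝ) + 1) < a ∧ fs (F z₀) (deriv (fun ζ => F (z₀ + ((a⁻¹ : ℝ) : ℂ) * ζ)) 0) = 1 ∧
      ∀ ζ ∈ ball (0 : ℂ) (n + 1), fs (F (z₀ + ((a⁻¹ : ℝ) : ℂ) * ζ)) (deriv (fun ζ => F (z₀ + ((a⁻¹ : ℝ) : ℂ) * ζ)) ζ) ≤ 2 := by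
  have hn : (0 : ℝ) ≤ n := Nat.cast_nonneg n
  have hFc : Continuous F := hF.continuous
  have hF'c : Continuous (deriv F) := (hF.contDiff (n := 1)).continuous_deriv le_rfl
  have hgc : Continuous fun z : ℂ => fs (F z) (deriv F z) := by
    unfold fs
    refine (wd_cont.comp (hFc.prodMk hF'c)).div (hFc.norm.pow 2) ?_
    intro z
    exact pow_ne_zero 2 (norm_ne_zero_iff.mpr (h0 z))
  set u : ℂ → ℝ := fun z => fs (F z) (deriv F z) * (1 / 2 - ‖z‖) with hu
  have huc : Continuous u := hgc.mul (continuous_const.sub continuous_norm)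
  obtain ⟨z₀, hz₀, hmax⟩ := (isCompact_closedBall (0 : ℂ) (1 / 2)).exists_isMaxOn ⟨0, by simp⟩ huc.continuousOn
  have hz₀n : ‖z₀‖ ≤ 1 / 2 := by simpa using hz₀
  have hu0z : u 0 ≤ u z₀ := hmax (by simp : (0 : ℂ) ∈ closedBall (0 : ℂ) (1 / 2))
  have hu0 : u 0 = fs (F 0) (deriv F 0) / 2 := by simp only [hu, norm_zero]; ring
  have hm : 2 * ((n : ℝ) + 1) < u z₀ := by rw [hu0] at hu0z; linarith
  set d : ℝ := 1 / 2 - ‖z₀‖ with hd
  have hd0 : 0 ≤ d := by rw [hd]; linarith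
  set a : ℝ := fs (F z₀) (deriv F z₀) with ha
  have ha0 : 0 ≤ a := fs_nonneg _ _
  have huz : u z₀ = a * d := rfl
  have hpos : 0 < a * d := by rw [← huz]; linarith
  have hapos : 0 < a := by
    rcases ha0.lt_or_eq with h | h
    · exact h
    · rw [← h] at hpos; simp at hpos
  have hdpos : 0 < d := by
    rcases hd0.lt_or_eq with h | h
    · exact h
    · rw [← h] at hpos; simp at hpos
  have hd2 : d ≤ 1 / 2 := by rw [hd]; linarith [norm_nonneg z₀]
  have haL : 4 * ((n : ℝ) + 1) < a := by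
    have h1 : a * d ≤ a * (1 / 2) := mul_le_mul_of_nonneg_left hd2 ha0
    rw [huz] at hm
    linarith
  set φ : ℂ → ℂ := fun ζ => z₀ + ((a⁻¹ : ℝ) : ℂ) * ζ with hφ
  have hφd : ∀ ζ, HasDerivAt φ ((a⁻¹ : ℝ) : ℂ) ζ := by
    intro ζ
    have := ((hasDerivAt_id ζ).const_mul ((a⁻¹ : ℝ) : ℂ)).const_add z₀
    simpa [hφ] using this
  have hkey : ∀ ζ ∈ ball (0 : ℂ) (n + 1), ‖φ ζ‖ ≤ 1 / 2 - d / 2 := by
    intro ζ hζ
    have hζn : ‖ζ‖ < n + 1 := by simpa using hζ
    have h1 : ‖φ ζ‖ ≤ ‖z₀‖ + a⁻¹ * ‖ζ‖ := by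
      calc ‖φ ζ‖ ≤ ‖z₀‖ + ‖((a⁻¹ : ℝ) : ℂ) * ζ‖ := norm_add_le _ _
        _ = ‖z₀‖ + a⁻¹ * ‖ζ‖ := by
          rw [norm_mul, Complex.norm_real, Real.norm_of_nonneg (by positivity)]
    have h2 : a⁻¹ * ‖ζ‖ ≤ d / 2 := by
      rw [inv_mul_le_iff₀ hapos]
      rw [huz] at hm
      linarith
    have h3 : ‖z₀‖ = 1 / 2 - d := by rw [hd]; ring
    linarith
  have hball : ∀ ζ ∈ ball (0 : ℂ) (n + 1), φ ζ ∈ closedBall (0 : ℂ) (1 / 2) := by
    intro ζ hζ
    have := hkey ζ hζ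
    rw [mem_closedBall_zero_iff]
    linarith
  have hder : ∀ ζ, deriv (fun ζ => F (φ ζ)) ζ = ((a⁻¹ : ℝ) : ℂ) • deriv F (φ ζ) := by
    intro ζ
    exact ((hF (φ ζ)).hasDerivAt.scomp ζ (hφd ζ)).deriv
  have hfs : ∀ ζ, fs (F (φ ζ)) (deriv (fun ζ => F (φ ζ)) ζ) = a⁻¹ * fs (F (φ ζ)) (deriv F (φ ζ)) := by
    intro ζ
    rw [hder, fs_smul_right, Complex.norm_real, Real.norm_of_nonneg (by positivity)]
  have hφ0 : φ 0 = z₀ := by simp [hφ]
  refine ⟨z₀, a, haL, ?_, ?_⟩
  · have h1 := hfs 0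
    rw [hφ0, ← ha, inv_mul_cancel₀ hapos.ne'] at h1
    exact h1
  · intro ζ hζ
    change fs (F (φ ζ)) (deriv (fun ζ => F (φ ζ)) ζ) ≤ 2
    rw [hfs ζ]
    have h1 : u (φ ζ) ≤ u z₀ := hmax (hball ζ hζ)
    have h2 := hkey ζ hζ
    have h3 : fs (F (φ ζ)) (deriv F (φ ζ)) * (1 / 2 - ‖φ ζ‖) ≤ a * d := h1
    have h4 : 0 ≤ fs (F (φ ζ)) (deriv F (φ ζ)) := fs_nonneg _ _
    have h5 : fs (F (φ ζ)) (deriv F (φ ζ)) * (d / 2) ≤ a * d :=
      le_trans (mul_le_mul_of_nonneg_left (by linarith) h4) h3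
    have h6 : fs (F (φ ζ)) (deriv F (φ ζ)) ≤ 2 * a := by
      by_contra hc
      push Not at hc
      have : 2 * a * (d / 2) < fs (F (φ ζ)) (deriv F (φ ζ)) * (d / 2) := mul_lt_mul_of_pos_right hc (by linarith)
      linarith
    rw [inv_mul_le_iff₀ hapos]
    linarith

end Pool.Agent.H62.EF

end

section

/-!
# The generic point and the centre of a prime divisor

The generic point of the variety given by `P` in the affine coordinates `x i / x i₀` is
`fun i => ratio P i i₀`.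

PROOFS.  `ratio_point`: as `Pool.Agent.H92.GT.Proj.proj_point` (the point constructed there is
`fun i => ratio P i i₀`).
`ratio_change`: `ratio P i i₀ = ratio P i₁ i₀ * ratio P i i₁`, then `aeval_scale`.
`exists_center`: among the `i` with `ratio P i i₀ ≠ 0` choose `i₁` with `E.ord (ratio P i i₀)`
minimal.
`ord_forms`: `X i₁ ^ n ≡ ∑ j, c j * A j` modulo `P` (`exists_degree_bound`), evaluate at
`ratio P · i₁` (`ratio P i₁ i₁ = 1`): `1 = ∑ j, c j (..) * A j (..)`; if all `A j (..)` had positive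
order then `0 = ord 1 > 0`.
-/

open MvPolynomial
open Pool.Agent.H17GT (coordFun functionField)
open Pool.Agent.H17LG.Variety (FunField ratio)
open Pool.Agent.H23.Fano (PrimeDivisorOver)

noncomputable section

namespace Pool.Agent.H17R

variable {N : ℕ} {P : Ideal (MvPolynomial (Fin (N + 1)) ℂ)}

/-- The value of `Q` at the generic point, in the affine coordinates `x i / x i₀`. -/
def gen (P : Ideal (MvPolynomial (Fin (N + 1)) ℂ)) [P.IsPrime] (i₀ : Fin (N + 1))
    (Q : MvPolynomial (Fin (N + 1)) ℂ) : FunField P :=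
  aeval (fun i => ratio P i i₀) Q

theorem ratio_self [P.IsPrime] {i₀ : Fin (N + 1)} (h : coordFun P i₀ ≠ 0) : ratio P i₀ i₀ = 1 := by
  apply Subtype.ext
  exact div_self h

theorem adjoin_ratio [P.IsPrime] {i₀ : Fin (N + 1)} (h : coordFun P i₀ ≠ 0) :
    IntermediateField.adjoin ℂ (Set.range fun i => ratio P i i₀) = ⊤ := by
  classical
  set x : Fin (N + 1) → functionField P := fun i => ratio P i i₀ with hx
  have hratio : ∀ i j, ((x i / x j : functionField P) :
      FractionRing (MvPolynomial (Fin (N + 1)) ℂ ⧸ P)) = coordFun P i / coordFun P j := by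
    intro i j
    have h1 : ((x i / x j : functionField P) :
      FractionRing (MvPolynomial (Fin (N + 1)) ℂ ⧸ P)) =
        (coordFun P i / coordFun P i₀) / (coordFun P j / coordFun P i₀) := by
      rw [hx]
      rfl
    rw [h1, div_div_div_cancel_right₀ h]
  have hgen : IntermediateField.adjoin ℂ {y | ∃ i j, y = x i / x j} = ⊤ := by
    rw [← IntermediateField.lift_inj, IntermediateField.lift_adjoin, IntermediateField.lift_top]
    conv_rhs => rw [functionField]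
    congr 1
    ext y
    constructor
    · rintro ⟨y', ⟨i, j, rfl⟩, rfl⟩
      exact ⟨i, j, hratio i j⟩
    · rintro ⟨i, j, rfl⟩
      exact ⟨x i / x j, ⟨i, j, rfl⟩, hratio i j⟩
  change IntermediateField.adjoin ℂ (Set.range x) = ⊤
  rw [eq_top_iff, ← hgen, IntermediateField.adjoin_le_iff]
  rintro y ⟨i, j, rfl⟩
  exact div_mem (IntermediateField.subset_adjoin _ _ ⟨i, rfl⟩)
    (IntermediateField.subset_adjoin _ _ ⟨j, rfl⟩)

theorem gen_eq_zero_iff [P.IsPrime] {i₀ : Fin (N + 1)} (h : coordFun P i₀ ≠ 0) {n : ℕ}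
    {Q : MvPolynomial (Fin (N + 1)) ℂ} (hQ : Q.IsHomogeneous n) : gen P i₀ Q = 0 ↔ Q ∈ P := by
  set x : Fin (N + 1) → functionField P := fun i => ratio P i i₀ with hx
  have h0 : gen P i₀ Q = (aeval x Q : functionField P) := rfl
  have h1 : ((aeval x Q : functionField P) : FractionRing (MvPolynomial (Fin (N + 1)) ℂ ⧸ P)) =
      aeval (fun i => (coordFun P i₀)⁻¹ * coordFun P i) Q := by
    have h3 : ((functionField P).val (aeval x Q)) =
        aeval (fun i => (functionField P).val (x i)) Q := by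
      rw [← MvPolynomial.comp_aeval]
      rfl
    change (functionField P).val (aeval x Q) = _
    rw [h3]
    congr 2
    funext i
    change coordFun P i / coordFun P i₀ = _
    rw [div_eq_inv_mul]
  rw [Pool.Agent.H92.GT.Proj.aeval_scale hQ] at h1
  rw [← Pool.Agent.H92.GT.Proj.aeval_coordFun_eq_zero_iff, h0]
  constructor
  · intro h2
    have h3 : ((aeval x Q : functionField P) :
        FractionRing (MvPolynomial (Fin (N + 1)) ℂ ⧸ P)) = 0 := by
      rw [show (aeval x Q : functionField P) = 0 from h2]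
      rfl
    rw [h3] at h1
    exact (mul_eq_zero.1 h1.symm).resolve_left (pow_ne_zero _ (inv_ne_zero h))
  · intro h2
    apply Subtype.ext
    rw [h1, h2, mul_zero]
    rfl

theorem coordFun_ne_zero_iff [P.IsPrime] {i : Fin (N + 1)} : coordFun P i ≠ 0 ↔ X i ∉ P := by
  rw [Ne, not_iff_not, ← Pool.Agent.H92.GT.Proj.aeval_coordFun_eq_zero_iff, aeval_X]

end Pool.Agent.H17R

end
end

section

/-!
# Bir Alg: birational maps and function fields

* `exists_form`: homogenisation.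
* `funIso`: a generic point `x` of the variety of `Q`, with coordinates which generate the field `L`, gives `FunField Q ≃ L`.
* `IsBir`: a birational map between the varieties of `P` and `P'`, given by forms.
* `exists_isBir`: it exists if the function fields are isomorphic.
* `exists_sub`: images of subvarieties.
-/

set_option autoImplicit false

open MvPolynomial

noncomputable section

namespace Pool.Agent.H7.Bir

open Pool.Agent.H17GT (coordFun functionField)
open Pool.Agent.H17LG.Variety (FunField ratio)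
open Pool.Agent.H17R (gen gen_eq_zero_iff ratio_self adjoin_ratio coordFun_ne_zero_iff)
open Pool.Agent.H92.GT.Proj (aeval_scale)

variable {N M : ℕ}

theorem exists_form (j : Fin (N + 1)) (p : MvPolynomial (Fin (N + 1)) ℂ) : ∃ D₀ : ℕ, ∀ D ≥ D₀,
    ∃ R : MvPolynomial (Fin (N + 1)) ℂ, R.IsHomogeneous D ∧
      ∀ (K : Type) [Field K] [Algebra ℂ K] (x : Fin (N + 1) → K), x j = 1 → aeval x R = aeval x p := by
  induction p using MvPolynomial.induction_on with
  | C c =>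
    refine ⟨0, fun D _ => ⟨MvPolynomial.C c * X j ^ D, ?_, ?_⟩⟩
    · have h1 := (isHomogeneous_C (Fin (N + 1)) c).mul ((isHomogeneous_X ℂ j).pow D)
      simpa using h1
    · intro K _ _ x hx
      simp [hx]
  | add p q hp hq =>
    obtain ⟨D₁, h1⟩ := hp
    obtain ⟨D₂, h2⟩ := hq
    refine ⟨max D₁ D₂, fun D hD => ?_⟩
    obtain ⟨R₁, h3, h4⟩ := h1 D ((le_max_left _ _).trans hD)
    obtain ⟨R₂, h5, h6⟩ := h2 D ((le_max_right _ _).trans hD)
    refine ⟨R₁ + R₂, h3.add h5, ?_⟩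
    intro K _ _ x hx
    rw [map_add, map_add, h4 K x hx, h6 K x hx]
  | mul_X p i hp =>
    obtain ⟨D₁, h1⟩ := hp
    refine ⟨D₁ + 1, fun D hD => ?_⟩
    obtain ⟨D', rfl⟩ : ∃ D', D = D' + 1 := ⟨D - 1, by omega⟩
    obtain ⟨R₁, h3, h4⟩ := h1 D' (by omega)
    refine ⟨R₁ * X i, h3.mul (isHomogeneous_X ℂ i), ?_⟩
    intro K _ _ x hx
    rw [map_mul, map_mul, h4 K x hx]

/-- Homogenisation of finitely many polynomials. -/
theorem exists_forms (j : Fin (N + 1)) {ι : Type} [Fintype ι] (p : ι → MvPolynomial (Fin (N + 1)) ℂ) : ∃ (D : ℕ)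
    (R : ι → MvPolynomial (Fin (N + 1)) ℂ), (∀ i, (R i).IsHomogeneous D) ∧
      ∀ (K : Type) [Field K] [Algebra ℂ K] (x : Fin (N + 1) → K), x j = 1 → ∀ i, aeval x (R i) = aeval x (p i) := by
  choose D₀ h using fun i => exists_form j (p i)
  choose R hR hR' using fun i => h i (∑ i, D₀ i) (Finset.single_le_sum (f := D₀) (fun i _ => Nat.zero_le _) (Finset.mem_univ i))
  exact ⟨∑ i, D₀ i, R, hR, fun K _ _ x hx i => hR' i K x hx⟩

open scoped IntermediateField.algebraAdjoinAdjoin in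
/-- Finitely many elements of a field generated by `x` are quotients of forms in `x` with the same denominator. -/
theorem exists_quot {L : Type} [Field L] [Algebra ℂ L] {x : Fin (N + 1) → L} {j : Fin (N + 1)} (hx : x j = 1)
    (hadj : IntermediateField.adjoin ℂ (Set.range x) = ⊤) (y : Fin (M + 1) → L) {j' : Fin (M + 1)} (hy : y j' = 1) :
    ∃ (D : ℕ) (α : Fin (M + 1) → MvPolynomial (Fin (N + 1)) ℂ), (∀ i, (α i).IsHomogeneous D) ∧ aeval x (α j') ≠ 0 ∧
      ∀ i, y i * aeval x (α j') = aeval x (α i) := by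
  classical
  have hmem : ∀ i, y i ∈ IntermediateField.adjoin ℂ (Set.range x) := fun i => by
    rw [hadj]
    trivial
  obtain ⟨b, hb⟩ := IsLocalization.exist_integer_multiples_of_finset (nonZeroDivisors (Algebra.adjoin ℂ (Set.range x)))
    (Finset.univ.image fun i => (⟨y i, hmem i⟩ : IntermediateField.adjoin ℂ (Set.range x)))
  have hpol : ∀ c : Algebra.adjoin ℂ (Set.range x), ∃ g : MvPolynomial (Fin (N + 1)) ℂ, aeval x g = (c : L) := by
    intro c
    obtain ⟨g, hg⟩ := (SetLike.ext_iff.1 (Algebra.adjoin_range_eq_range_aeval ℂ x) (c : L)).1 c.2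
    exact ⟨g, hg⟩
  obtain ⟨q, hq⟩ := hpol b
  have hp : ∀ i, ∃ g : MvPolynomial (Fin (N + 1)) ℂ, aeval x g = y i * aeval x q := by
    intro i
    obtain ⟨c, hc⟩ := hb ⟨y i, hmem i⟩ (Finset.mem_image_of_mem _ (Finset.mem_univ i))
    obtain ⟨g, hg⟩ := hpol c
    refine ⟨g, ?_⟩
    have h1 := congrArg Subtype.val hc
    rw [hg, hq, mul_comm]
    exact h1
  choose p hp using hp
  obtain ⟨D, α, hα, hα'⟩ := exists_forms j p
  have h1 : ∀ i, aeval x (α i) = y i * aeval x q := fun i => by rw [hα' L x hx i, hp]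
  have h2 : aeval x q ≠ 0 := by
    rw [hq]
    intro h0
    exact nonZeroDivisors.ne_zero b.2 (Subtype.ext h0)
  refine ⟨D, α, hα, ?_, fun i => ?_⟩
  · rw [h1, hy, one_mul]
    exact h2
  · rw [h1, h1, hy, one_mul]

open scoped IntermediateField.algebraAdjoinAdjoin in
theorem funIso {Q : Ideal (MvPolynomial (Fin (N + 1)) ℂ)} [Q.IsPrime] {j : Fin (N + 1)} (hj : coordFun Q j ≠ 0)
    {L : Type} [Field L] [Algebra ℂ L] {x : Fin (N + 1) → L} (hx : x j = 1)
    (hadj : IntermediateField.adjoin ℂ (Set.range x) = ⊤)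
    (h : ∀ (n : ℕ) (G : MvPolynomial (Fin (N + 1)) ℂ), G.IsHomogeneous n → (aeval x G = 0 ↔ G ∈ Q)) :
    Nonempty (FunField Q ≃ₐ[ℂ] L) := by
  set ξ : Fin (N + 1) → FunField Q := fun i => ratio Q i j with hξ
  have hker : RingHom.ker (aeval ξ : MvPolynomial (Fin (N + 1)) ℂ →ₐ[ℂ] FunField Q) =
      RingHom.ker (aeval x : MvPolynomial (Fin (N + 1)) ℂ →ₐ[ℂ] L) := by
    ext G
    rw [RingHom.mem_ker, RingHom.mem_ker]
    obtain ⟨D, h1⟩ := exists_form j G
    obtain ⟨R, h2, h3⟩ := h1 D le_rfl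
    rw [← h3 _ ξ (ratio_self hj), ← h3 _ x hx, h D R h2]
    exact gen_eq_zero_iff hj h2
  have e1 : Algebra.adjoin ℂ (Set.range ξ) ≃ₐ[ℂ] Algebra.adjoin ℂ (Set.range x) :=
    (Subalgebra.equivOfEq _ _ (Algebra.adjoin_range_eq_range_aeval ℂ ξ)).trans
      ((Ideal.quotientKerEquivRange (aeval ξ : MvPolynomial (Fin (N + 1)) ℂ →ₐ[ℂ] FunField Q)).symm.trans
        ((Ideal.quotientEquivAlgOfEq ℂ hker).trans
          ((Ideal.quotientKerEquivRange (aeval x : MvPolynomial (Fin (N + 1)) ℂ →ₐ[ℂ] L)).trans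
            (Subalgebra.equivOfEq _ _ (Algebra.adjoin_range_eq_range_aeval ℂ x)).symm)))
  have e2 : IntermediateField.adjoin ℂ (Set.range ξ) ≃ₐ[ℂ] IntermediateField.adjoin ℂ (Set.range x) :=
    IsFractionRing.algEquivOfAlgEquiv e1
  have e3 : IntermediateField.adjoin ℂ (Set.range ξ) ≃ₐ[ℂ] FunField Q :=
    (IntermediateField.equivOfEq (adjoin_ratio hj)).trans IntermediateField.topEquiv
  have e4 : IntermediateField.adjoin ℂ (Set.range x) ≃ₐ[ℂ] L :=
    (IntermediateField.equivOfEq hadj).trans IntermediateField.topEquiv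
  exact ⟨e3.symm.trans (e2.trans e4)⟩

theorem aeval_comp {K : Type} [Field K] [Algebra ℂ K] (x : Fin (M + 1) → K) (γ : Fin (N + 1) → MvPolynomial (Fin (M + 1)) ℂ)
    (R : MvPolynomial (Fin (N + 1)) ℂ) : aeval x (aeval γ R) = aeval (fun i => aeval x (γ i)) R := by
  rw [← AlgHom.comp_apply, MvPolynomial.comp_aeval]

theorem aeval_div {K : Type} [Field K] [Algebra ℂ K] {n : ℕ} {R : MvPolynomial (Fin (N + 1)) ℂ} (hR : R.IsHomogeneous n)
    {c : K} (hc : c ≠ 0) (y : Fin (N + 1) → K) : aeval y R = c ^ n * aeval (fun i => y i / c) R := by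
  rw [← aeval_scale hR]
  congr 2
  funext i
  rw [mul_div_cancel₀ _ hc]

end Pool.Agent.H7.Bir

end
end

section

/-!
# G3 P LimM: limits of points of `X` over points which converge

Normalise `x i` to unit vectors; see the private lemma `lim_mem` in `TG/Y/TbA` (one-dimensional torus) and the lemmas of `TG/Gd`, `TG/SbA` (`sb_mem`).
-/

set_option autoImplicit false

open Topology Filter Metric

namespace Pool.Agent.G3

open Pool.Agent.H36.BP (EN fs wd Sub)
open Pool.Agent.H14.PP (IsCone CurveAt Tan)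
open Pool.Agent.H62.EF (MN pr)
open Pool.Agent.AD (Vd)
open Pool.Agent.TG (TMap Lat Geo Gd)

variable {N k : ℕ} {X : Set (EN N)} {Λ : AddSubgroup (Vd (k + 1))} {u : EN N → Vd (k + 1)} {D : Set (Vd (k + 1))} {p : EN N → EN N → ℝ} {m : ℕ} {C : ℝ}

theorem lim_mem (hX : IsCone X) (hu : TMap X Λ u) (hΛ : Lat Λ) {ι : Type} {l : Filter ι} [l.NeBot] {x : ι → EN N} {y : ι → Vd (k + 1)} {x₀ : EN N} {y₀ : Vd (k + 1)}
    (hx : ∀ᶠ i in l, x i ∈ X ∧ u (x i) - y i ∈ Λ) (h0 : x₀ ≠ 0) (hlx : Tendsto (fun i => pr (x i)) l (𝓝 (pr x₀))) (hly : Tendsto y l (𝓝 y₀)) :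
    x₀ ∈ X ∧ u x₀ - y₀ ∈ Λ := by
  have h1 : pr x₀ ∈ Pool.Agent.TG.Fb X Λ u y₀ :=
    (Pool.Agent.TG.fb_lim hX hΛ hu hlx hly (by
      filter_upwards [hx] with i hi
      exact Pool.Agent.TG.mem_fb hi.1 hi.2)).1
  obtain ⟨x', hx', hm', -⟩ := id h1
  obtain ⟨c, hc, hcx⟩ := (Pool.Agent.H62.EF.pr_eq_iff h0 (Pool.Agent.TG.ne_zero hX hx')).1 hm'.symm
  have hxX : x₀ ∈ X := by
    rw [hcx]
    exact hX.smul_mem x' hx' c hc
  exact ⟨hxX, Pool.Agent.TG.fb_lift hX hu h1 hxX rfl⟩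

end Pool.Agent.G3

end
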