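import Pool.Agent.H94.G4T.M65
import Pool.Agent.H94.G4T.M81

/-! The parts of this file: H13.SM.Grad, AD.T.NCDefs, TG.FDefs, G3.F.FDefs, G4.F.FDefs. -/

section

/-!
# Gradients

`conTan P x` is the tangent space at `x` of the affine cone of `P`.

PROOF of `exists_indep`.  Let `G = span {∇Q(x) | Q ∈ P}` in `Fin (N + 1) → ℂ`.  `conTan P x` is its
annihilator for the pairing `∑ i, v i * u i`, so `finrank G + finrank (conTan P x) = N + 1`
(`Submodule.finrank_add_finrank_dualAnnihilator_eq`, or rank-nullity: let `u_1, .., u_r` be a basis of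
`G` among the `∇Q(x)`; `conTan P x` is the kernel of `v ↦ (∑ i, v i * u_k i)_k`, so
`N + 1 - r ≤ finrank (conTan P x) ≤ n + 1`, `N - n ≤ r`).  The gradients form a spanning set of `G`, so
it contains a basis (`exists_linearIndependent'` or `exists_linearIndependent_extension`); take
`N - n` of its elements.

PROOF of `indep_snoc`.  Let `∑ j, c j • ∇(f j)(w) + e • single l 1 = 0`.  Apply the pairing with `w`:
`∑ i, w i * ∂_i (f j)(w) = 0` (`euler`) and `w l = 1`, so `e = 0`; then all `c j = 0`.  (Gradient of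
`X l - 1` at `w` is `Pi.single l 1`.)
-/

open MvPolynomial
open Pool.Agent.H62.FC (Homog)

noncomputable section

namespace Pool.Agent.H13.SM

variable {N : ℕ} {P : Ideal (MvPolynomial (Fin (N + 1)) ℂ)}

/-- The tangent space at `x` of the affine cone of `P`. -/
def conTan (P : Ideal (MvPolynomial (Fin (N + 1)) ℂ)) (x : Fin (N + 1) → ℂ) :
    Submodule ℂ (Fin (N + 1) → ℂ) where
  carrier := {v | ∀ Q ∈ P, ∑ i, v i * eval x (pderiv i Q) = 0}
  add_mem' := by
    intro u v hu hv Q hQ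
    have h1 := hu Q hQ
    have h2 := hv Q hQ
    simp only [Pi.add_apply, add_mul, Finset.sum_add_distrib, h1, h2, add_zero]
  zero_mem' := by
    intro Q _
    simp
  smul_mem' := by
    intro c v hv Q hQ
    have h1 := hv Q hQ
    simp only [Pi.smul_apply, smul_eq_mul, mul_assoc, ← Finset.mul_sum, h1, mul_zero]

theorem exists_indep {n : ℕ} {x : Fin (N + 1) → ℂ}
    (h : Module.finrank ℂ (conTan P x) ≤ n + 1) :
    ∃ f : Fin (N - n) → MvPolynomial (Fin (N + 1)) ℂ, (∀ j, f j ∈ P) ∧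
      LinearIndependent ℂ fun (j : Fin (N - n)) (i : Fin (N + 1)) => eval x (pderiv i (f j)) := by
  classical
  obtain ⟨b, hbS, hspan, hli⟩ := exists_linearIndependent ℂ
    {u : Fin (N + 1) → ℂ | ∃ Q ∈ P, (fun i => eval x (pderiv i Q)) = u}
  have hfin : Finite b := hli.finite
  have : Fintype b := Fintype.ofFinite b
  let φ : (Fin (N + 1) → ℂ) →ₗ[ℂ] (b → ℂ) :=
    LinearMap.pi fun u => ∑ i, (u : Fin (N + 1) → ℂ) i • (LinearMap.proj i)
  have hφ : ∀ v (u : b), φ v u = ∑ i, (u : Fin (N + 1) → ℂ) i * v i := by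
    intro v u
    simp [φ, LinearMap.sum_apply]
  have hker : LinearMap.ker φ ≤ conTan P x := by
    intro v hv Q hQ
    have hv' : ∀ u : b, ∑ i, (u : Fin (N + 1) → ℂ) i * v i = 0 := fun u => by
      rw [← hφ, LinearMap.mem_ker.mp hv, Pi.zero_apply]
    let ψ : (Fin (N + 1) → ℂ) →ₗ[ℂ] ℂ := ∑ i, v i • (LinearMap.proj i)
    have hψ : ∀ u, ψ u = ∑ i, v i * u i := by
      intro u
      simp [ψ, LinearMap.sum_apply]
    have h1 : Submodule.span ℂ b ≤ LinearMap.ker ψ := by
      rw [Submodule.span_le]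
      intro u hu
      rw [SetLike.mem_coe, LinearMap.mem_ker, hψ, ← hv' ⟨u, hu⟩]
      exact Finset.sum_congr rfl fun i _ => mul_comm _ _
    have h2 : (fun i => eval x (pderiv i Q)) ∈ Submodule.span ℂ b := by
      rw [hspan]
      exact Submodule.subset_span ⟨Q, hQ, rfl⟩
    have h3 := LinearMap.mem_ker.mp (h1 h2)
    rwa [hψ] at h3
  have hrk := LinearMap.finrank_range_add_finrank_ker φ
  have h1 : Module.finrank ℂ (LinearMap.range φ) ≤ Fintype.card b := by
    have := Submodule.finrank_le (LinearMap.range φ)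
    rwa [Module.finrank_fintype_fun_eq_card] at this
  have h2 := Submodule.finrank_mono hker
  rw [Module.finrank_fintype_fun_eq_card, Fintype.card_fin] at hrk
  have hcard : Fintype.card (Fin (N - n)) ≤ Fintype.card b := by
    rw [Fintype.card_fin]
    omega
  obtain ⟨e⟩ := Function.Embedding.nonempty_of_card_le hcard
  choose g hg using fun u : b => hbS u.2
  refine ⟨fun j => g (e j), fun j => (hg (e j)).1, ?_⟩
  have h3 := hli.comp e e.injective
  have h4 : (fun (j : Fin (N - n)) (i : Fin (N + 1)) => eval x (pderiv i (g (e j)))) =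
      (Subtype.val : b → Fin (N + 1) → ℂ) ∘ e := by
    funext j
    exact (hg (e j)).2
  rw [h4]
  exact h3

theorem indep_snoc (hP : Homog P) {w : Fin (N + 1) → ℂ} (hw : ∀ Q ∈ P, eval w Q = 0)
    {l : Fin (N + 1)} (hl : w l = 1) {c : ℕ} {f : Fin c → MvPolynomial (Fin (N + 1)) ℂ}
    (hf : ∀ j, f j ∈ P)
    (hli : LinearIndependent ℂ fun (j : Fin c) (i : Fin (N + 1)) => eval w (pderiv i (f j))) :
    LinearIndependent ℂ fun (j : Fin (c + 1)) (i : Fin (N + 1)) =>
      eval w (pderiv i ((Fin.snoc f (X l - 1) : Fin (c + 1) → MvPolynomial (Fin (N + 1)) ℂ) j)) := by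
  classical
  have h1 : (fun (j : Fin (c + 1)) (i : Fin (N + 1)) =>
      eval w (pderiv i ((Fin.snoc f (X l - 1) : Fin (c + 1) → MvPolynomial (Fin (N + 1)) ℂ) j))) =
      (Fin.snoc (fun (j : Fin c) (i : Fin (N + 1)) => eval w (pderiv i (f j)))
        (Pi.single l 1 : Fin (N + 1) → ℂ) : Fin (c + 1) → Fin (N + 1) → ℂ) := by
    funext j
    refine Fin.lastCases ?_ (fun k => ?_) j
    · funext i
      rw [Fin.snoc_last, Fin.snoc_last, map_sub, pderiv_X, Pi.single_apply, Pi.single_apply]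
      simp only [pderiv_one, sub_zero]
      by_cases h : i = l
      · rw [if_pos h.symm, if_pos h, map_one]
      · rw [if_neg fun h' => h h'.symm, if_neg h, map_zero]
    · funext i
      rw [Fin.snoc_castSucc, Fin.snoc_castSucc]
  rw [h1, linearIndependent_finSnoc]
  refine ⟨hli, fun hmem => ?_⟩
  let ψ : (Fin (N + 1) → ℂ) →ₗ[ℂ] ℂ := ∑ i, w i • (LinearMap.proj i)
  have hψ : ∀ u, ψ u = ∑ i, w i * u i := by
    intro u
    simp [ψ, LinearMap.sum_apply]
  have h2 : Submodule.span ℂ (Set.range fun (j : Fin c) (i : Fin (N + 1)) =>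
      eval w (pderiv i (f j))) ≤ LinearMap.ker ψ := by
    rw [Submodule.span_le]
    rintro _ ⟨j, rfl⟩
    rw [SetLike.mem_coe, LinearMap.mem_ker, hψ]
    exact euler hP hw (hf j)
  have h3 := LinearMap.mem_ker.mp (h2 hmem)
  rw [hψ, Finset.sum_eq_single l] at h3
  · rw [Pi.single_eq_same, mul_one, hl] at h3
    exact one_ne_zero h3
  · intro i _ hi
    rw [Pi.single_eq_of_ne hi, mul_zero]
  · intro h
    exact absurd (Finset.mem_univ l) h

end Pool.Agent.H13.SM

end
end

section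

/-!
# AD T NCDefs: the four properties, finitely many curves
-/

open MvPolynomial
open Pool.Agent.H17 (PN VanishesAt ZariskiClosedIn HolomorphicInto puncturedDisc)
open Pool.Agent.H62.FC (Homog)
open Pool.Agent.H17LG.Variety (FunField IsLogGeneralType)
open Pool.Agent.H13.SM (conTan)

noncomputable section

namespace Pool.Agent.AD.NC

variable {N s : ℕ}

/-- The closed subvariety of dimension `n` of `ℙ^N` given by the homogeneous prime ideal `P` is smooth: the tangent
space of its affine cone has dimension at most `n + 1` at every point different from `0`. -/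
def IsSmooth (P : Ideal (MvPolynomial (Fin (N + 1)) ℂ)) (n : ℕ) : Prop :=
  ∀ x : Fin (N + 1) → ℂ, x ≠ 0 → (∀ Q ∈ P, eval x Q = 0) → Module.finrank ℂ (conTan P x) ≤ n + 1

end Pool.Agent.AD.NC

end
end

section

/-!
# TG FDefs: projective manifolds over complex tori, with arbitrary singular fibres, and maps from semi-abelian varieties

`X` is a smooth projective variety of dimension `n + 1`, `n = k + 1`, `u` a holomorphic map from `X` to a complex torus `ℂ^n / Λ`.  `D ⊆ ℂ^n` is a `Λ`-invariant analytic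
subset outside which `u` is a submersion, and whose fibres outside `D` contain no entire curves with bounded derivative; outside the small set `B` the set `D` is smooth and
the map `u` is `(x^a y^b, s)` in suitable local coordinates.
-/

set_option autoImplicit false

open Topology Filter MvPolynomial
open Pool.Agent.H17 (PN VanishesAt)
open Pool.Agent.H62.FC (Homog)
open Pool.Agent.H17EF (projVar)
open Pool.Agent.H17G (IsTangent)
open Pool.Agent.H14.V (brodyCurves)

noncomputable section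

namespace Pool.Agent.TGF

variable {N k g : ℕ}

/-- `Cn n` is `ℂ^n`. -/
abbrev Cn (n : ℕ) : Type := Fin n → ℂ

/-- The point with the homogeneous coordinates `x` is a point of `X` over `y`. -/
def Over (X : Set (PN N)) (Λ : AddSubgroup (Cn (k + 1))) (u : PN N → Cn (k + 1) ⧸ Λ) (y : Cn (k + 1)) (x : Cn (N + 1)) : Prop :=
  ∃ h : x ≠ 0, Projectivization.mk ℂ x h ∈ X ∧ u (Projectivization.mk ℂ x h) = (y : Cn (k + 1) ⧸ Λ)

/-- `σ` is a local parametrisation of the manifold `X` (of dimension `k + 2`) at the point `x`, given by homogeneous coordinates. -/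
structure IsParam (X : Set (PN N)) (x : PN N) (σ : Cn (k + 2) → Cn (N + 1)) : Prop where
  holomorphic : AnalyticAt ℂ σ 0
  point : ∃ h : σ 0 ≠ 0, Projectivization.mk ℂ (σ 0) h = x
  mem : ∀ᶠ p in 𝓝 (0 : Cn (k + 2)), ∃ h : σ p ≠ 0, Projectivization.mk ℂ (σ p) h ∈ X
  immersion : ∀ (v : Cn (k + 2)) (a : ℂ), fderiv ℂ σ 0 v = a • σ 0 → v = 0

/-- In suitable local coordinates of `X` at `x` the map `u` is `p ↦ y + (p 1, …, p (k + 1))`. -/
def Submersion (X : Set (PN N)) (Λ : AddSubgroup (Cn (k + 1))) (u : PN N → Cn (k + 1) ⧸ Λ) (y : Cn (k + 1)) (x : PN N) : Prop :=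
  ∃ σ : Cn (k + 2) → Cn (N + 1), IsParam X x σ ∧ ∀ᶠ p in 𝓝 (0 : Cn (k + 2)), Over X Λ u (y + fun i => p i.succ) (σ p)

/-- In suitable local coordinates of `X` at `x` the map `u` is `p ↦ κ (p 0 ^ a * p 1 ^ b, p 2, …, p (k + 1))`. -/
def NormalCrossing (X : Set (PN N)) (Λ : AddSubgroup (Cn (k + 1))) (u : PN N → Cn (k + 1) ⧸ Λ) (κ : Cn (k + 1) → Cn (k + 1)) (x : PN N) : Prop :=
  ∃ (σ : Cn (k + 2) → Cn (N + 1)) (a b : ℕ), IsParam X x σ ∧ 0 < a + b ∧
    ∀ᶠ p in 𝓝 (0 : Cn (k + 2)), Over X Λ u (κ (Fin.cons (p 0 ^ a * p 1 ^ b) fun i : Fin k => p i.succ.succ)) (σ p)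

/-- `κ` is (the inverse of) a system of local coordinates of `ℂ^(k+1)` at `y` in which `D` is the hyperplane `q 0 = 0`. -/
structure IsCoord (D : Set (Cn (k + 1))) (κ : Cn (k + 1) → Cn (k + 1)) (y : Cn (k + 1)) : Prop where
  holomorphic : AnalyticAt ℂ κ 0
  point : κ 0 = y
  immersion : ∀ v, fderiv ℂ κ 0 v = 0 → v = 0
  mem_iff : ∀ᶠ q in 𝓝 (0 : Cn (k + 1)), (κ q ∈ D ↔ q 0 = 0)

/-- `Z` is a (closed) analytic subset of `ℂ^n`: near every point of `ℂ^n` it is the common zero set of finitely many holomorphic functions. -/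
def IsAnalyticSubset {n : ℕ} (Z : Set (Cn n)) : Prop :=
  ∀ y : Cn n, ∃ (m : ℕ) (h : Cn n → Cn m), AnalyticAt ℂ h y ∧ ∀ᶠ z in 𝓝 y, (z ∈ Z ↔ h z = 0)

/-- `B ⊆ ℂ^n` is small (for an analytic subset: of complex codimension at least two): it is empty, or its Hausdorff dimension is at most `2 n - 4`. -/
def IsSmall {n : ℕ} (B : Set (Cn n)) : Prop := B = ∅ ∨ dimH B + 4 ≤ 2 * (n : ENNReal)

/-- `D` contains the critical values of `u`, and the map is of normal crossing type over `D \ B`. -/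
structure IsDiscriminant (X : Set (PN N)) (Λ : AddSubgroup (Cn (k + 1))) (u : PN N → Cn (k + 1) ⧸ Λ) (D B : Set (Cn (k + 1))) : Prop where
  analytic : IsAnalyticSubset D
  proper : D ≠ Set.univ
  invariant : ∀ y ∈ D, ∀ l ∈ Λ, y + l ∈ D
  small : IsSmall B
  submersion : ∀ y ∉ D, ∀ x ∈ X, u x = (y : Cn (k + 1) ⧸ Λ) → Submersion X Λ u y x
  /-- entire curves `f` with `|f'| ≤ 1` in the fibres outside `D` are constant -/
  hyperbolic : ∀ y ∉ D, ∀ f ∈ brodyCurves X 1, (∀ z, u (f z) = (y : Cn (k + 1) ⧸ Λ)) → ∀ z w, f z = f w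
  crossing : ∀ y ∈ D, y ∉ B → ∃ κ : Cn (k + 1) → Cn (k + 1), IsCoord D κ y ∧ ∀ x ∈ X, u x = (y : Cn (k + 1) ⧸ Λ) → NormalCrossing X Λ u κ x

/-- `Ω` is a holomorphic `(k + 2)`-form on the manifold `X' = {(x, c) ∈ X × ℂ^(k+1) / Γ : u x = c mod Λ}` (`Γ` a subgroup of `Λ`; for `Γ = Λ` this is `X`).
It is given as a function of `c`, the homogeneous coordinates of `x`, and `k + 2` tangent vectors of the cone over `X`. -/
structure IsTopForm (X : Set (PN N)) (Λ Γ : AddSubgroup (Cn (k + 1))) (u : PN N → Cn (k + 1) ⧸ Λ)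
    (Ω : Cn (k + 1) → Cn (N + 1) → (Fin (k + 2) → Cn (N + 1)) → ℂ) : Prop where
  /-- the form depends only on `y` modulo `Γ` -/
  periodic : ∀ y, ∀ l ∈ Γ, ∀ x, Over X Λ u y x → ∀ v : Fin (k + 2) → Cn (N + 1), (∀ i, IsTangent X x (v i)) → Ω (y + l) x v = Ω y x v
  /-- the form depends only on the images of the tangent vectors in the tangent space of the projective space -/
  horizontal : ∀ y x, Over X Λ u y x → ∀ v : Fin (k + 2) → Cn (N + 1), (∀ i, IsTangent X x (v i)) → ∀ a : Fin (k + 2) → ℂ,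
    Ω y x (fun i => v i + a i • x) = Ω y x v
  /-- the form is multilinear and alternating -/
  alternating : ∀ y x, Over X Λ u y x → ∀ v : Fin (k + 2) → Cn (N + 1), (∀ i, IsTangent X x (v i)) → ∀ A : Matrix (Fin (k + 2)) (Fin (k + 2)) ℂ,
    Ω y x (fun i => ∑ j, A i j • v j) = A.det * Ω y x v
  /-- the form does not depend on the choice of the homogeneous coordinates -/
  homogeneous : ∀ y x, Over X Λ u y x → ∀ v : Fin (k + 2) → Cn (N + 1), (∀ i, IsTangent X x (v i)) → ∀ c : ℂ, c ≠ 0 →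
    Ω y (c • x) (fun i => c • v i) = Ω y x v
  /-- the form is holomorphic -/
  holomorphic : ∀ (φ : Cn (k + 2) → Cn (N + 1)) (υ : Cn (k + 2) → Cn (k + 1)) (p : Cn (k + 2)), AnalyticAt ℂ φ p → AnalyticAt ℂ υ p →
    (∀ᶠ q in 𝓝 p, Over X Λ u (υ q) (φ q)) → AnalyticAt ℂ (fun q => Ω (υ q) (φ q) fun i => fderiv ℂ φ q (Pi.single i 1)) p

/-- The form `Ω` is `0` at all points of the fibre over `y`. -/
def VanishesOver (X : Set (PN N)) (Λ : AddSubgroup (Cn (k + 1))) (u : PN N → Cn (k + 1) ⧸ Λ)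
    (Ω : Cn (k + 1) → Cn (N + 1) → (Fin (k + 2) → Cn (N + 1)) → ℂ) (y : Cn (k + 1)) : Prop :=
  ∀ x, Over X Λ u y x → ∀ v : Fin (k + 2) → Cn (N + 1), (∀ i, IsTangent X x (v i)) → Ω y x v = 0

/-- The form `Ω` is `0` on no nonempty open set. -/
def IsNowhereZero (X : Set (PN N)) (Λ : AddSubgroup (Cn (k + 1))) (u : PN N → Cn (k + 1) ⧸ Λ)
    (Ω : Cn (k + 1) → Cn (N + 1) → (Fin (k + 2) → Cn (N + 1)) → ℂ) : Prop :=
  ∀ y x, Over X Λ u y x → ∃ᶠ q in 𝓝 (y, x), Over X Λ u q.1 q.2 ∧ ∃ v : Fin (k + 2) → Cn (N + 1), (∀ i, IsTangent X q.2 (v i)) ∧ Ω q.1 q.2 v ≠ 0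

/-- On the covering `X' = {(x, c) ∈ X × ℂ^(k+1) / Γ : u x = c mod Λ}` there is a holomorphic `(k + 2)`-form which is `0` at all points of a fibre over a point
outside `D`, but on no nonempty open set. -/
def HasForm (X : Set (PN N)) (Λ Γ : AddSubgroup (Cn (k + 1))) (u : PN N → Cn (k + 1) ⧸ Λ) (D : Set (Cn (k + 1))) : Prop :=
  ∃ Ω, IsTopForm X Λ Γ u Ω ∧ IsNowhereZero X Λ u Ω ∧ ∃ y ∉ D, VanishesOver X Λ u Ω y

end Pool.Agent.TGF

end
end

section

/-!
# G3 FDefs: projective manifolds of dimension `n + 1` over complex tori of dimension `n`, with arbitrary singular fibres: the definitions of the final theorem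

`X` is a smooth projective variety of dimension `n + 1`, `n = k + 1` (in the final theorem `n = 2`), `u` a holomorphic map from `X` to a complex torus `ℂ^n / Λ`.
`D ⊆ ℂ^n` is a `Λ`-invariant analytic subset outside which `u` is a submersion; outside the set `B`, finite modulo `Λ`, the set `D` is smooth and the map `u` is
`(x^a y^b, s)` in suitable local coordinates (`IsSingularLocus`).  The other data are

* `HasTopForms`: holomorphic `(n + 1)`-forms on `X` with values in the dual of a positive line bundle of the torus (on a finite covering `X'` induced from the torus), without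
  common zero outside `D`;
* `HasSymmetricForms`: symmetric differentials of `X` with values in `O(-1)` and in a line bundle of the torus, without common zero outside `D`;
* `HasJetForms`: for every direction `ν` a jet differential with values in `O(-1)`, not `0`, on the curves in `X` over lines in the direction `ν`, holomorphic where `u` is a
  submersion.

`x`, `v` are homogeneous coordinates and tangent vectors of the cone over `X`.
-/

set_option autoImplicit false

open Topology Filter MvPolynomial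
open Pool.Agent.H17 (PN VanishesAt HolomorphicInto puncturedDisc)
open Pool.Agent.H62.FC (Homog)
open Pool.Agent.H17LG.Variety (FunField IsLogGeneralType)
open Pool.Agent.H17EF (projVar)
open Pool.Agent.H17G (IsTangent)
open Pool.Agent.TGF (Cn Over Submersion NormalCrossing IsCoord IsAnalyticSubset)
open Pool.Agent.H22.TB (GGLC)
open Pool.Agent.H23.GU (IsEtaleCovering)

noncomputable section

namespace Pool.Agent.G3F

variable {N k : ℕ}

/-- `D` contains the critical values of `u`, and the map is of normal crossing type over `D \ B`. -/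
structure IsSingularLocus (X : Set (PN N)) (Λ : AddSubgroup (Cn (k + 1))) (u : PN N → Cn (k + 1) ⧸ Λ) (D B : Set (Cn (k + 1))) : Prop where
  analytic : IsAnalyticSubset D
  proper : D ≠ Set.univ
  invariant : ∀ y ∈ D, ∀ l ∈ Λ, y + l ∈ D
  /-- the set `B` is finite modulo `Λ` -/
  small : ∃ S : Set (Cn (k + 1)), S.Finite ∧ ∀ b ∈ B, ∃ s ∈ S, b - s ∈ Λ
  submersion : ∀ y ∉ D, ∀ x ∈ X, u x = (y : Cn (k + 1) ⧸ Λ) → Submersion X Λ u y x
  crossing : ∀ y ∈ D, y ∉ B → ∃ κ : Cn (k + 1) → Cn (k + 1), IsCoord D κ y ∧ ∀ x ∈ X, u x = (y : Cn (k + 1) ⧸ Λ) → NormalCrossing X Λ u κ x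

/-- The function `∑ |W i y|²`, for linear forms `W i`. -/
def weight {r : ℕ} (W : Fin r → Cn (k + 1) →L[ℂ] ℂ) (y : Cn (k + 1)) : ℝ := ∑ i, ‖W i y‖ ^ 2

/-- `Ω` is a holomorphic `(k + 2)`-form on `{(x, y) : u x = y mod Λ}` which is quasi-periodic for `Γ`, with the factors of the theta functions of the weight `W`: the function
`|Ω| exp (weight W y)` is `Γ`-periodic. -/
structure IsTwistedTopForm (X : Set (PN N)) (Λ Γ : AddSubgroup (Cn (k + 1))) (u : PN N → Cn (k + 1) ⧸ Λ) {r : ℕ} (W : Fin r → Cn (k + 1) →L[ℂ] ℂ)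
    (Ω : Cn (k + 1) → Cn (N + 1) → (Fin (k + 2) → Cn (N + 1)) → ℂ) : Prop where
  quasiPeriodic : ∀ l ∈ Γ, ∃ (L : Cn (k + 1) →L[ℂ] ℂ) (c : ℂ), (∀ y, ‖Complex.exp (L y + c)‖ = Real.exp (weight W y - weight W (y + l))) ∧
    ∀ y x, Over X Λ u y x → ∀ v : Fin (k + 2) → Cn (N + 1), (∀ i, IsTangent X x (v i)) → Ω (y + l) x v = Complex.exp (L y + c) * Ω y x v
  /-- the form depends only on the images of the tangent vectors in the tangent space of the projective space -/
  horizontal : ∀ y x, Over X Λ u y x → ∀ v : Fin (k + 2) → Cn (N + 1), (∀ i, IsTangent X x (v i)) → ∀ a : Fin (k + 2) → ℂ,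
    Ω y x (fun i => v i + a i • x) = Ω y x v
  /-- the form is multilinear and alternating -/
  alternating : ∀ y x, Over X Λ u y x → ∀ v : Fin (k + 2) → Cn (N + 1), (∀ i, IsTangent X x (v i)) → ∀ A : Matrix (Fin (k + 2)) (Fin (k + 2)) ℂ,
    Ω y x (fun i => ∑ j, A i j • v j) = A.det * Ω y x v
  /-- the form does not depend on the choice of the homogeneous coordinates -/
  homogeneous : ∀ y x, Over X Λ u y x → ∀ v : Fin (k + 2) → Cn (N + 1), (∀ i, IsTangent X x (v i)) → ∀ c : ℂ, c ≠ 0 →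
    Ω y (c • x) (fun i => c • v i) = Ω y x v
  /-- the form is holomorphic -/
  holomorphic : ∀ (φ : Cn (k + 2) → Cn (N + 1)) (υ : Cn (k + 2) → Cn (k + 1)) (p : Cn (k + 2)), AnalyticAt ℂ φ p → AnalyticAt ℂ υ p →
    (∀ᶠ q in 𝓝 p, Over X Λ u (υ q) (φ q)) → AnalyticAt ℂ (fun q => Ω (υ q) (φ q) fun i => fderiv ℂ φ q (Pi.single i 1)) p

/-- There are finitely many holomorphic `(k + 2)`-forms, with the factors of the inverses of theta functions for a subgroup `Γ` of finite index in `Λ` and a positive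
definite weight, without common zero outside `D`. -/
def HasTopForms (X : Set (PN N)) (Λ : AddSubgroup (Cn (k + 1))) (u : PN N → Cn (k + 1) ⧸ Λ) (D : Set (Cn (k + 1))) : Prop :=
  ∃ (Γ : AddSubgroup (Cn (k + 1))) (r J : ℕ) (W : Fin r → Cn (k + 1) →L[ℂ] ℂ) (Ω : Fin J → Cn (k + 1) → Cn (N + 1) → (Fin (k + 2) → Cn (N + 1)) → ℂ),
    Γ ≤ Λ ∧ Submodule.span ℝ (Γ : Set (Cn (k + 1))) = ⊤ ∧ (∀ y, (∀ i, W i y = 0) → y = 0) ∧ (∀ j, IsTwistedTopForm X Λ Γ u W (Ω j)) ∧
    ∀ y ∉ D, ∀ x, Over X Λ u y x → ∃ (j : Fin J) (v : Fin (k + 2) → Cn (N + 1)), (∀ i, IsTangent X x (v i)) ∧ Ω j y x v ≠ 0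

/-- `S` is a symmetric differential of degree `m` on `{(x, y) : u x = y mod Λ}` with values in `O(-1)`, quasi-periodic for `Λ`, with the factors of the theta functions of the
weight `W`. -/
structure IsTwistedSymmetricForm (X : Set (PN N)) (Λ : AddSubgroup (Cn (k + 1))) (u : PN N → Cn (k + 1) ⧸ Λ) (m : ℕ) {r : ℕ} (W : Fin r → Cn (k + 1) →L[ℂ] ℂ)
    (S : Cn (k + 1) → Cn (N + 1) → Cn (N + 1) → ℂ) : Prop where
  quasiPeriodic : ∀ y, ∀ l ∈ Λ, ∀ x, Over X Λ u y x → ∀ v, IsTangent X x v →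
    ‖S (y + l) x v‖ * Real.exp (-weight W (y + l)) = ‖S y x v‖ * Real.exp (-weight W y)
  /-- the form depends only on the image of the tangent vector in the tangent space of the projective space -/
  horizontal : ∀ y x, Over X Λ u y x → ∀ v, IsTangent X x v → ∀ a : ℂ, S y x (v + a • x) = S y x v
  /-- the degree -/
  degree : ∀ y x, Over X Λ u y x → ∀ v, IsTangent X x v → ∀ a : ℂ, S y x (a • v) = a ^ m * S y x v
  /-- the values are in `O(-1)` -/
  homogeneous : ∀ y x, Over X Λ u y x → ∀ v, IsTangent X x v → ∀ c : ℂ, c ≠ 0 → c * S y (c • x) (c • v) = S y x v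
  /-- the form is holomorphic -/
  holomorphic : ∀ (r : ℕ) (φ : Cn r → Cn (N + 1)) (υ : Cn r → Cn (k + 1)) (p w : Cn r), AnalyticAt ℂ φ p → AnalyticAt ℂ υ p →
    (∀ᶠ q in 𝓝 p, Over X Λ u (υ q) (φ q)) → AnalyticAt ℂ (fun q : Cn r × Cn r => S (υ q.1) (φ q.1) (fderiv ℂ φ q.1 q.2)) (p, w)

/-- There are finitely many symmetric differentials of some degree `m ≥ 1`, with values in `O(-1)` and in a line bundle of the torus, such that for every tangent vector
`v ≠ 0` of `X` at a point outside `u⁻¹ (D)` one of them is not `0` at `v`. -/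
def HasSymmetricForms (X : Set (PN N)) (Λ : AddSubgroup (Cn (k + 1))) (u : PN N → Cn (k + 1) ⧸ Λ) (D : Set (Cn (k + 1))) : Prop :=
  ∃ (m r J : ℕ) (W : Fin r → Cn (k + 1) →L[ℂ] ℂ) (S : Fin J → Cn (k + 1) → Cn (N + 1) → Cn (N + 1) → ℂ), 1 ≤ m ∧
    (∀ j, IsTwistedSymmetricForm X Λ u m W (S j)) ∧ ∀ y ∉ D, ∀ x, Over X Λ u y x → ∀ v, IsTangent X x v → (∀ j, S j y x v = 0) → ∃ c : ℂ, v = c • x

/-- The curve `φ`, given by homogeneous coordinates, is near `0` a holomorphic curve in `X` over a line in the direction `ν`. -/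
def IsCurveOver (X : Set (PN N)) (Λ : AddSubgroup (Cn (k + 1))) (u : PN N → Cn (k + 1) ⧸ Λ) (ν : Cn (k + 1)) (φ : ℂ → Cn (N + 1)) : Prop :=
  AnalyticAt ℂ φ 0 ∧ ∃ y, ∀ᶠ t in 𝓝 (0 : ℂ), Over X Λ u (y + t • ν) (φ t)

/-- The derivatives of order at most `m` of `φ` at `0`. -/
def jet (m : ℕ) (φ : ℂ → Cn (N + 1)) : Fin (m + 1) → Cn (N + 1) := fun j => iteratedDeriv j φ 0

/-- `Ψ` is a jet differential of order `m`, with values in `O(-1)`, on the holomorphic curves over lines in the direction `ν`, in the open set of `X` on which `u` is a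
submersion; it is `0` on no nonempty open set. -/
structure IsJetForm (X : Set (PN N)) (Λ : AddSubgroup (Cn (k + 1))) (u : PN N → Cn (k + 1) ⧸ Λ) (ν : Cn (k + 1)) (m : ℕ)
    (Ψ : (Fin (m + 1) → Cn (N + 1)) → ℂ) : Prop where
  /-- the values are in `O(-1)` -/
  homogeneous : ∀ φ : ℂ → Cn (N + 1), IsCurveOver X Λ u ν φ → ∀ c : ℂ → ℂ, AnalyticAt ℂ c 0 → c 0 ≠ 0 →
    Ψ (jet m fun t => c t • φ t) = (c 0)⁻¹ * Ψ (jet m φ)
  /-- the form is holomorphic at the points at which `u` is a submersion -/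
  holomorphic : ∀ (r : ℕ) (φ : Cn r × ℂ → Cn (N + 1)) (p : Cn r), AnalyticAt ℂ φ (p, 0) →
    (∃ (y : Cn (k + 1)) (h : φ (p, 0) ≠ 0), Submersion X Λ u y (Projectivization.mk ℂ (φ (p, 0)) h)) →
    (∀ᶠ q : Cn r × ℂ in 𝓝 (p, 0), ∃ y, Over X Λ u y (φ (q.1, 0)) ∧ Over X Λ u (y + q.2 • ν) (φ q)) → AnalyticAt ℂ (fun q => Ψ (jet m fun t => φ (q, t))) p
  nonzero : ∀ y x, Over X Λ u y x → ∀ U ∈ 𝓝 x, ∃ φ, IsCurveOver X Λ u ν φ ∧ φ 0 ∈ U ∧ Ψ (jet m φ) ≠ 0

/-- For every direction `ν` there is a jet differential with values in `O(-1)`, not `0`, on the curves in `X` over lines in the direction `ν`. -/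
def HasJetForms (X : Set (PN N)) (Λ : AddSubgroup (Cn (k + 1))) (u : PN N → Cn (k + 1) ⧸ Λ) : Prop :=
  ∀ ν : Cn (k + 1), ν ≠ 0 → ∃ (m : ℕ) (Ψ : (Fin (m + 1) → Cn (N + 1)) → ℂ), IsJetForm X Λ u ν m Ψ

/-- The Kobayashi-Royden metric of `X` is bounded below near the point `x`: for all holomorphic maps `f` from the unit disc to `X` with `f 0` near `x` (`F` is a
lift of `f` near `0`, with `F 0` near a representative of `x`) the length of the derivative of `f` at `0` with respect to the Fubini-Study metric is at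
most `C`. -/
def MetricPositiveAt (X : Set (PN N)) (x : PN N) : Prop :=
  ∃ C : ℝ, ∀ᶠ v in 𝓝 x.rep, ∀ (f : ℂ → PN N) (F : ℂ → Cn (N + 1)), HolomorphicInto f (Metric.ball 0 1) →
    (∀ z ∈ Metric.ball (0 : ℂ) 1, f z ∈ X) → AnalyticAt ℂ F 0 →
    (∀ᶠ z in 𝓝 (0 : ℂ), ∃ h : F z ≠ 0, f z = Projectivization.mk ℂ (F z) h) → F 0 = v →
    ∃ a : ℂ, ‖deriv F 0 - a • F 0‖ ≤ C * ‖F 0‖

/-- The conclusion, for the variety `X` of dimension `k + 2` given by `P`: `X` is hyperbolic modulo the hypersurface `Q = 0`. -/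
structure TorusHyperbolic (P : Ideal (MvPolynomial (Fin (N + 1)) ℂ)) [P.IsPrime] (Λ : AddSubgroup (Cn (k + 1))) (u : PN N → Cn (k + 1) ⧸ Λ)
    (D : Set (Cn (k + 1))) (Q : MvPolynomial (Fin (N + 1)) ℂ) : Prop where
  /-- the form `Q` is not `0` on `X` -/
  form : (∃ e, Q.IsHomogeneous e) ∧ Q ∉ P
  /-- it is `0` on the fibres over `D` -/
  singular : ∀ x ∈ projVar P, (∃ y ∈ D, u x = (y : Cn (k + 1) ⧸ Λ)) → VanishesAt Q x
  /-- there are finitely many holomorphic maps to `X` over the complement of `D` such that every entire curve over an affine line is one of them -/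
  lines : ∃ S : Set (Cn (k + 1) → PN N), S.Finite ∧ (∀ Φ ∈ S, ∀ y ∉ D, ∃ φ : Cn (k + 1) → Cn (N + 1), AnalyticAt ℂ φ y ∧
      ∀ᶠ z in 𝓝 y, Over (projVar P) Λ u z (φ z) ∧ ∃ h : φ z ≠ 0, Φ z = Projectivization.mk ℂ (φ z) h) ∧
    ∀ f : ℂ → PN N, HolomorphicInto f Set.univ → (∀ z, f z ∈ projVar P) → ∀ a b : Cn (k + 1), a ≠ 0 →
      (∀ z, u (f z) = ((z • a + b : Cn (k + 1)) : Cn (k + 1) ⧸ Λ)) → ∃ Φ ∈ S, ∀ z : ℂ, z • a + b ∉ D → f z = Φ (z • a + b)
  /-- it is `0` on all nonconstant entire curves -/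
  brody : ∀ f : ℂ → PN N, HolomorphicInto f Set.univ → (∀ z, f z ∈ projVar P) → (∃ z w, f z ≠ f w) → ∀ z, VanishesAt Q (f z)
  /-- every holomorphic map from the punctured disc to `X` which is not a map into `{Q = 0}` extends -/
  picard : ∀ f : ℂ → PN N, HolomorphicInto f puncturedDisc → (∀ z ∈ puncturedDisc, f z ∈ projVar P) → (∃ z ∈ puncturedDisc, ¬ VanishesAt Q (f z)) →
    ∃ g : ℂ → PN N, HolomorphicInto g (Metric.ball 0 1) ∧ ∀ z ∈ puncturedDisc, g z = f z
  /-- the Kobayashi-Royden metric is bounded below near every point of `X \ {Q = 0}` -/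
  kobayashi : ∀ x ∈ projVar P, ¬ VanishesAt Q x → MetricPositiveAt (projVar P) x
  /-- if `X` is of general type then it has the properties of the conjecture with the exceptional set `{Q = 0}` -/
  ggl : IsLogGeneralType (K := FunField P) (k := k + 2) (fun _ => False) → GGLC P {x | x ∈ projVar P ∧ VanishesAt Q x}
  /-- if `X` is of general type, then every projective variety `Y` of general type, of the same dimension, with a finite étale covering `Y'` and a dominant rational map from `Y'`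
  to `X` has the properties of the conjecture -/
  virtual : IsLogGeneralType (K := FunField P) (k := k + 2) (fun _ => False) →
    ∀ (M L : ℕ) (P' : Ideal (MvPolynomial (Fin (M + 1)) ℂ)) [P'.IsPrime] (R : Ideal (MvPolynomial (Fin (L + 1)) ℂ)) [R.IsPrime] (q : PN M → PN L),
    Homog P' → Homog R → (∃ z : Fin (k + 2) → FunField P', IsTranscendenceBasis ℂ z) → (∃ z : Fin (k + 2) → FunField R, IsTranscendenceBasis ℂ z) →
    Nonempty (FunField P →ₐ[ℂ] FunField P') → IsEtaleCovering R P' q → IsLogGeneralType (K := FunField R) (k := k + 2) (fun _ => False) →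
    ∃ Ξ : Set (PN L), GGLC R Ξ

end Pool.Agent.G3F

end
end

section

/-!
# G4 FDefs: projective manifolds of dimension `n + 1` over simple complex tori of dimension `n`, with arbitrary singular fibres: the definitions of the final theorem

`X` is a smooth projective variety of dimension `n + 1`, `n = k + 1`, `u` a holomorphic map from `X` to a complex torus `ℂ^n / Λ`.  The definitions of `HasTopForms`, `HasSymmetricForms`,
`TorusHyperbolic` are those of `G3/F/FDefs`.

* `IsSimple Λ`: the torus contains no proper nonzero complex subtorus.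
* `IsBadPoint D B a q`: `q` is a point of `D` which lies in `B`, or at which the smooth hypersurface `D` is tangent to the vector `a`.
* `IsCovered Z`: the set `Z` in `ℂ^n` is covered by polydiscs of dimension `n - 2`: near each of its points it is the union of the images of finitely many holomorphic maps from the unit
  polydisc of `ℂ^(n-2)` (so is every analytic subset of codimension at least `2`, by the resolution of singularities).
* `IsSmall Λ D B`: there are few bad points: `n = 2` and `B` is finite modulo `Λ`, or `B` is closed, invariant, and for every `a ≠ 0` the set of the bad points is covered by polydiscs of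
  dimension `n - 2`.
* `IsSingularLocus`: as in `G3/F/FDefs`, with `IsSmall`.
* `IsJetForm`, `HasJetForms`: algebraic jet differentials, not `0` on the open sets of the fibres outside an analytic subset.
-/

set_option autoImplicit false

open Topology Filter MvPolynomial
open Pool.Agent.H17 (PN)
open Pool.Agent.TGF (Cn Over Submersion NormalCrossing IsCoord IsAnalyticSubset)
open Pool.Agent.G3F (IsCurveOver jet)

noncomputable section

namespace Pool.Agent.G4F

variable {N k : ℕ}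

/-- The torus is simple: a complex subspace `W ≠ 0` which is the real span of its lattice points is the whole space. -/
def IsSimple {n : ℕ} (Λ : AddSubgroup (Cn n)) : Prop :=
  ∀ W : Submodule ℂ (Cn n), W ≠ ⊥ → (∀ v ∈ W, v ∈ Submodule.span ℝ {l : Cn n | l ∈ Λ ∧ l ∈ W}) → W = ⊤

/-- The point `q` of `D` is bad for the direction `a`: it is a point of `B`, or the vector `a` is tangent to `D` at `q`. -/
def IsBadPoint (D B : Set (Cn (k + 1))) (a q : Cn (k + 1)) : Prop :=
  q ∈ D ∧ (q ∈ B ∨ ∃ κ : Cn (k + 1) → Cn (k + 1), IsCoord D κ q ∧ ∃ v : Cn (k + 1), v 0 = 0 ∧ fderiv ℂ κ 0 v = a)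

/-- `Z` is empty or covered by polydiscs of codimension `2`: near each of its points it is the union of the images of finitely many holomorphic maps from the unit polydisc of `ℂ^(k-1)` to `Z`. -/
def IsCovered (Z : Set (Cn (k + 1))) : Prop :=
  Z = ∅ ∨ ∃ d : ℕ, d + 1 = k ∧ ∀ y ∈ Z, ∃ (s : ℕ) (β : Fin s → Cn d → Cn (k + 1)), (∀ i, AnalyticOnNhd ℂ (β i) (Metric.ball 0 1)) ∧
    (∀ i, ∀ t ∈ Metric.ball (0 : Cn d) 1, β i t ∈ Z) ∧ ∀ᶠ y' in 𝓝 y, y' ∈ Z → ∃ i, ∃ t ∈ Metric.ball (0 : Cn d) (1 / 2), y' = β i t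

/-- There are few bad points: `k + 1 = 2` and `B` is finite modulo `Λ`, or `B` is closed and invariant, and for every `a ≠ 0` the set of the bad points for `a` is covered by polydiscs of
codimension `2`. -/
def IsSmall (Λ : AddSubgroup (Cn (k + 1))) (D B : Set (Cn (k + 1))) : Prop :=
  (k = 1 ∧ ∃ S : Set (Cn (k + 1)), S.Finite ∧ ∀ b ∈ B, ∃ s ∈ S, b - s ∈ Λ) ∨
    (IsClosed B ∧ (∀ b ∈ B, ∀ l ∈ Λ, b + l ∈ B) ∧ ∀ a : Cn (k + 1), a ≠ 0 → IsCovered {q | IsBadPoint D B a q})

/-- `D` contains the critical values of `u`, the map is of normal crossing type over `D \ B`, and there are few bad points. -/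
structure IsSingularLocus (X : Set (PN N)) (Λ : AddSubgroup (Cn (k + 1))) (u : PN N → Cn (k + 1) ⧸ Λ) (D B : Set (Cn (k + 1))) : Prop where
  analytic : IsAnalyticSubset D
  proper : D ≠ Set.univ
  invariant : ∀ y ∈ D, ∀ l ∈ Λ, y + l ∈ D
  small : IsSmall Λ D B
  submersion : ∀ y ∉ D, ∀ x ∈ X, u x = (y : Cn (k + 1) ⧸ Λ) → Submersion X Λ u y x
  crossing : ∀ y ∈ D, y ∉ B → ∃ κ : Cn (k + 1) → Cn (k + 1), IsCoord D κ y ∧ ∀ x ∈ X, u x = (y : Cn (k + 1) ⧸ Λ) → NormalCrossing X Λ u κ x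

/-- `Ψ` is an algebraic jet differential of order `m`, with values in `O(-1)`, on the holomorphic curves over lines in the direction `ν`, in the open set of `X` on which `u` is a
submersion; outside an analytic subset of the torus it is `0` on no nonempty open subset of a fibre. -/
structure IsJetForm (X : Set (PN N)) (Λ : AddSubgroup (Cn (k + 1))) (u : PN N → Cn (k + 1) ⧸ Λ) (D : Set (Cn (k + 1))) (ν : Cn (k + 1)) (m : ℕ)
    (Ψ : (Fin (m + 1) → Cn (N + 1)) → ℂ) : Prop where
  /-- the values are in `O(-1)` -/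
  homogeneous : ∀ φ : ℂ → Cn (N + 1), IsCurveOver X Λ u ν φ → ∀ c : ℂ → ℂ, AnalyticAt ℂ c 0 → c 0 ≠ 0 →
    Ψ (jet m fun t => c t • φ t) = (c 0)⁻¹ * Ψ (jet m φ)
  /-- the form is holomorphic at the points at which `u` is a submersion -/
  holomorphic : ∀ (r : ℕ) (φ : Cn r × ℂ → Cn (N + 1)) (p : Cn r), AnalyticAt ℂ φ (p, 0) →
    (∃ (y : Cn (k + 1)) (h : φ (p, 0) ≠ 0), Submersion X Λ u y (Projectivization.mk ℂ (φ (p, 0)) h)) →
    (∀ᶠ q : Cn r × ℂ in 𝓝 (p, 0), ∃ y, Over X Λ u y (φ (q.1, 0)) ∧ Over X Λ u (y + q.2 • ν) (φ q)) → AnalyticAt ℂ (fun q => Ψ (jet m fun t => φ (q, t))) p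
  /-- outside `D` the form is, locally in the Zariski topology, a quotient of a polynomial in the coordinates of the jet by a form on `X` -/
  algebraic : ∃ (r : ℕ) (R : Fin r → MvPolynomial (Fin (N + 1)) ℂ) (Q : Fin r → MvPolynomial (Fin (m + 1) × Fin (N + 1)) ℂ), (∀ i, ∃ e, (R i).IsHomogeneous e) ∧
    (∀ y ∉ D, ∀ x, Over X Λ u y x → ∃ i, eval x (R i) ≠ 0) ∧
    ∀ y ∉ D, ∀ φ : ℂ → Cn (N + 1), IsCurveOver X Λ u ν φ → Over X Λ u y (φ 0) →
      ∀ i, eval (φ 0) (R i) * Ψ (jet m φ) = eval (fun j => jet m φ j.1 j.2) (Q i)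
  nonzero : ∃ Z : Set (Cn (k + 1)), IsAnalyticSubset Z ∧ Z ≠ Set.univ ∧ (∀ y ∈ Z, ∀ l ∈ Λ, y + l ∈ Z) ∧ ∀ y ∉ D, y ∉ Z → ∀ x, Over X Λ u y x → ∀ U ∈ 𝓝 x,
    ∃ φ : ℂ → Cn (N + 1), AnalyticAt ℂ φ 0 ∧ (∀ᶠ t in 𝓝 (0 : ℂ), Over X Λ u (y + t • ν) (φ t)) ∧ φ 0 ∈ U ∧ Ψ (jet m φ) ≠ 0

/-- For every direction `ν` there is an algebraic jet differential with values in `O(-1)`, not `0` on the general fibres, on the curves in `X` over lines in the direction `ν`. -/
def HasJetForms (X : Set (PN N)) (Λ : AddSubgroup (Cn (k + 1))) (u : PN N → Cn (k + 1) ⧸ Λ) (D : Set (Cn (k + 1))) : Prop :=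
  ∀ ν : Cn (k + 1), ν ≠ 0 → ∃ (m : ℕ) (Ψ : (Fin (m + 1) → Cn (N + 1)) → ℂ), IsJetForm X Λ u D ν m Ψ

end Pool.Agent.G4F

end
end
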