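import Pool.Agent.H94.G4T.M05
import Pool.Agent.H94.G4T.M22

/-! The parts of this file: H22.AlgD.Form, H22.AlgD.Taylor, H23.Forms, H36.BP.SubD, H56.G3.Lift, H62.FC.LocalEst, TG.HyA, TG.HyB. -/

section

/-!
# AlgD Form: a subset of a projective variety which is covered by finitely many holomorphic pieces of smaller dimension
lies in a hypersurface
-/

set_option autoImplicit false

open MvPolynomial Metric Set
open scoped Topology

noncomputable section

namespace Pool.Agent.H22.AlgD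

variable {N n q : ℕ} {P : Ideal (MvPolynomial (Fin (N + 1)) ℂ)}

theorem eval_smul_form {d : ℕ} {Q : MvPolynomial (Fin (N + 1)) ℂ} (hQ : Q.IsHomogeneous d) (c : ℂ)
    (x : Fin (N + 1) → ℂ) : eval (c • x) Q = c ^ d * eval x Q := by
  rw [MvPolynomial.eval_eq', MvPolynomial.eval_eq', Finset.mul_sum]
  apply Finset.sum_congr rfl
  intro m hm
  have hdeg : ∑ i, m i = d := by
    have := hQ (MvPolynomial.mem_support_iff.1 hm)
    rw [Finsupp.weight_apply] at this
    simpa [Finsupp.sum_fintype] using this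
  have h1 : ∏ i, (c • x) i ^ m i = c ^ d * ∏ i, x i ^ m i := by
    rw [← hdeg, ← Finset.prod_pow_eq_pow_sum, ← Finset.prod_mul_distrib]
    exact Finset.prod_congr rfl fun i _ => by simp [mul_pow]
  rw [h1]
  ring

end Pool.Agent.H22.AlgD

end
end

section

/-!
# AlgD Taylor: the Taylor polynomials of order `< m` of forms along a map from `ℂ^q`, Schwarz lemma
-/

set_option autoImplicit false

open MvPolynomial Metric Set
open scoped Topology

noncomputable section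

namespace Pool.Agent.H22.AlgD

variable {q N : ℕ}

/-- the span of the monomials in `q` variables all of whose exponents are `< m` -/
def monSpace (q m : ℕ) : Submodule ℂ ((Fin q → ℂ) → ℂ) :=
  Submodule.span ℂ (Set.range fun (a : Fin q → Fin m) (w : Fin q → ℂ) => ∏ i, w i ^ (a i : ℕ))

instance finite_monSpace (q m : ℕ) : FiniteDimensional ℂ (monSpace q m) :=
  FiniteDimensional.span_of_finite ℂ (Set.finite_range _)

theorem finrank_monSpace_le (q m : ℕ) : Module.finrank ℂ (monSpace q m) ≤ m ^ q := by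
  have h := finrank_range_le_card (R := ℂ) (M := (Fin q → ℂ) → ℂ)
    (b := fun (a : Fin q → Fin m) (w : Fin q → ℂ) => ∏ i, w i ^ (a i : ℕ))
  rw [Fintype.card_fun, Fintype.card_fin, Fintype.card_fin] at h
  exact h

theorem prod_mem_monSpace {k m : ℕ} (hk : k < m) (f : Fin k → Fin q) :
    (fun w : Fin q → ℂ => ∏ j, w (f j)) ∈ monSpace q m := by
  classical
  have hcard : ∀ i : Fin q, (Finset.univ.filter fun j => f j = i).card < m := fun i =>
    lt_of_le_of_lt ((Finset.card_le_univ _).trans (by rw [Fintype.card_fin])) hk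
  refine Submodule.subset_span ⟨fun i => ⟨(Finset.univ.filter fun j => f j = i).card, hcard i⟩, ?_⟩
  funext w
  simp only
  rw [Finset.prod_comp w f]
  symm
  refine Finset.prod_subset (Finset.subset_univ _) fun i _ hi => ?_
  have h0 : (Finset.univ.filter fun j => f j = i) = ∅ := by
    rw [Finset.filter_eq_empty_iff]
    intro j _ hj
    exact hi (Finset.mem_image.2 ⟨j, Finset.mem_univ _, hj⟩)
  rw [h0, Finset.card_empty, pow_zero]

theorem diag_mem_monSpace {k m : ℕ} (hk : k < m) (μ : ContinuousMultilinearMap ℂ (fun _ : Fin k => Fin q → ℂ) ℂ) :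
    (fun w : Fin q → ℂ => μ fun _ => w) ∈ monSpace q m := by
  classical
  have h1 : (fun w : Fin q → ℂ => μ fun _ => w) =
      ∑ f : Fin k → Fin q, (μ fun j => (Pi.single (f j) 1 : Fin q → ℂ)) • fun w : Fin q → ℂ => ∏ j, w (f j) := by
    funext w
    have h2 : (fun _ : Fin k => w) = fun _ : Fin k => ∑ i, w i • (Pi.single i (1 : ℂ) : Fin q → ℂ) := by
      funext j
      exact pi_eq_sum_univ' w
    rw [h2, μ.map_sum, Finset.sum_apply]
    refine Finset.sum_congr rfl fun f _ => ?_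
    have h3 := μ.map_smul_univ (fun j => w (f j)) (fun j => (Pi.single (f j) (1 : ℂ) : Fin q → ℂ))
    rw [h3, Pi.smul_apply, smul_eq_mul, smul_eq_mul, mul_comm]
  rw [h1]
  exact Submodule.sum_mem _ fun f _ => Submodule.smul_mem _ _ (prod_mem_monSpace hk f)

/-- a form along a map which is analytic is analytic -/
theorem analyticAt_eval {E : Type*} [NormedAddCommGroup E] [NormedSpace ℂ E] {F : E → Fin (N + 1) → ℂ} {x : E}
    (hF : AnalyticAt ℂ F x) (Q : MvPolynomial (Fin (N + 1)) ℂ) : AnalyticAt ℂ (fun w => eval (F w) Q) x := by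
  have hFi : ∀ i, AnalyticAt ℂ (fun w => F w i) x := fun i =>
    ((ContinuousLinearMap.proj i : (Fin (N + 1) → ℂ) →L[ℂ] ℂ).analyticAt _).comp hF
  induction Q using MvPolynomial.induction_on with
  | C a => simpa using analyticAt_const
  | add p r hp hr =>
    simp only [map_add]
    exact hp.add hr
  | mul_X p i hp =>
    simp only [map_mul, eval_X]
    exact hp.mul (hFi i)

/-- the Taylor polynomial of order `< m` at `0` of a form along a map (without the factorials) -/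
def taylor {F : (Fin q → ℂ) → Fin (N + 1) → ℂ} (hF : AnalyticAt ℂ F 0) (m : ℕ) :
    MvPolynomial (Fin (N + 1)) ℂ →ₗ[ℂ] monSpace q m where
  toFun Q := ⟨∑ k ∈ Finset.range m, fun w => iteratedFDeriv ℂ k (fun w => eval (F w) Q) 0 fun _ => w,
    Submodule.sum_mem _ fun k hk => diag_mem_monSpace (Finset.mem_range.1 hk) _⟩
  map_add' p r := by
    refine Subtype.ext ?_
    simp only [Submodule.coe_add]
    rw [← Finset.sum_add_distrib]
    refine Finset.sum_congr rfl fun k _ => ?_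
    funext w
    have hp := (analyticAt_eval hF p).contDiffAt (n := (k : WithTop ℕ∞))
    have hr := (analyticAt_eval hF r).contDiffAt (n := (k : WithTop ℕ∞))
    have h1 : (fun w => eval (F w) (p + r)) = (fun w => eval (F w) p) + fun w => eval (F w) r := by
      funext w
      simp
    rw [h1, iteratedFDeriv_add_apply hp hr]
    simp
  map_smul' c p := by
    refine Subtype.ext ?_
    simp only [RingHom.id_apply, Submodule.coe_smul]
    rw [Finset.smul_sum]
    refine Finset.sum_congr rfl fun k _ => ?_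
    funext w
    have hp := (analyticAt_eval hF p).contDiffAt (n := (k : WithTop ℕ∞))
    have h1 : (fun w => eval (F w) (c • p)) = c • fun w => eval (F w) p := by
      funext w
      simp [smul_eval]
    rw [h1, iteratedFDeriv_const_smul_apply hp]
    simp

theorem eq_zero_of_taylor {F : (Fin q → ℂ) → Fin (N + 1) → ℂ} (hF : AnalyticAt ℂ F 0) {m : ℕ}
    {Q : MvPolynomial (Fin (N + 1)) ℂ} (h : taylor hF m Q = 0) {k : ℕ} (hk : k < m) (w : Fin q → ℂ) :
    iteratedFDeriv ℂ k (fun w => eval (F w) Q) 0 (fun _ => w) = 0 := by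
  have h1 : ∀ w : Fin q → ℂ, ∑ k ∈ Finset.range m, iteratedFDeriv ℂ k (fun w => eval (F w) Q) 0 (fun _ => w) = 0 := by
    intro w
    have h2 := congrFun (congrArg Subtype.val h) w
    simpa [taylor] using h2
  obtain ⟨p, hp⟩ : ∃ p : Polynomial ℂ, p = ∑ k ∈ Finset.range m,
      Polynomial.C (iteratedFDeriv ℂ k (fun w => eval (F w) Q) 0 (fun _ => w)) * Polynomial.X ^ k := ⟨_, rfl⟩
  have hp0 : p = 0 := by
    refine Polynomial.funext fun ζ => ?_
    rw [hp, Polynomial.eval_finsetSum, Polynomial.eval_zero, ← h1 (ζ • w)]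
    refine Finset.sum_congr rfl fun k _ => ?_
    have h3 := (iteratedFDeriv ℂ k (fun w => eval (F w) Q) 0).map_smul_univ (fun _ => ζ) (fun _ => w)
    rw [h3, Finset.prod_const, Finset.card_univ, Fintype.card_fin, Polynomial.eval_mul, Polynomial.eval_C,
      Polynomial.eval_pow, Polynomial.eval_X, smul_eq_mul, mul_comm]
  have h4 := congrArg (fun r => Polynomial.coeff r k) hp0
  rw [hp] at h4
  simp only [Polynomial.finsetSum_coeff, Polynomial.coeff_C_mul, Polynomial.coeff_X_pow, mul_ite, mul_one, mul_zero,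
    Polynomial.coeff_zero] at h4
  rw [Finset.sum_ite_eq, if_pos (Finset.mem_range.2 hk)] at h4
  exact h4

theorem schwarz_pow (m : ℕ) {g : ℂ → ℂ} {R M : ℝ} (hR : 0 < R) (hg : DifferentiableOn ℂ g (ball 0 R)) (hM : ∀ t ∈ ball (0 : ℂ) R, ‖g t‖ ≤ M)
    (hm : (m : ℕ∞) ≤ analyticOrderAt g 0) : ∀ t ∈ ball (0 : ℂ) R, ‖g t‖ ≤ M * (‖t‖ / R) ^ m := by
  induction m generalizing g M with
  | zero =>
    intro t ht
    simpa using hM t ht
  | succ m ih =>
    have h0b : (0 : ℂ) ∈ ball (0 : ℂ) R := mem_ball_self hR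
    have hgan : AnalyticAt ℂ g 0 := hg.analyticAt (isOpen_ball.mem_nhds h0b)
    have hg0 : g 0 = 0 := by
      by_contra hne
      have h1 : analyticOrderAt g 0 = 0 := analyticOrderAt_eq_zero.mpr (Or.inr hne)
      rw [h1] at hm
      simp at hm
    have hh : DifferentiableOn ℂ (dslope g 0) (ball 0 R) :=
      (Complex.differentiableOn_dslope (isOpen_ball.mem_nhds h0b)).2 hg
    have hhan : AnalyticAt ℂ (dslope g 0) 0 := hh.analyticAt (isOpen_ball.mem_nhds h0b)
    have hmul : g = id * dslope g 0 := by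
      funext t
      have h1 := sub_smul_dslope g 0 t
      rw [hg0, sub_zero, sub_zero, smul_eq_mul] at h1
      exact h1.symm
    have hord : ((m : ℕ) : ℕ∞) ≤ analyticOrderAt (dslope g 0) 0 := by
      have h1 : analyticOrderAt g 0 = 1 + analyticOrderAt (dslope g 0) 0 := by
        conv_lhs => rw [hmul]
        rw [analyticOrderAt_mul analyticAt_id hhan, analyticOrderAt_id]
      rw [h1] at hm
      push_cast at hm
      rw [add_comm] at hm
      exact (ENat.add_le_add_iff_left (by simp)).1 hm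
    have hbd : ∀ t ∈ ball (0 : ℂ) R, ‖dslope g 0 t‖ ≤ M / R := by
      intro t ht
      refine Complex.norm_dslope_le_div_of_mapsTo_ball hg ?_ ht
      intro t' ht'
      rw [hg0, mem_closedBall_zero_iff]
      exact hM t' ht'
    intro t ht
    have h2 := ih hh hbd hord t ht
    have h3 : g t = t * dslope g 0 t := congrFun hmul t
    rw [h3, norm_mul]
    calc ‖t‖ * ‖dslope g 0 t‖ ≤ ‖t‖ * (M / R * (‖t‖ / R) ^ m) := mul_le_mul_of_nonneg_left h2 (norm_nonneg t)
      _ = M * (‖t‖ / R) ^ (m + 1) := by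
        rw [pow_succ]
        ring

/-- **Schwarz lemma** in a ball of a normed space, for functions which vanish to order `m` at the centre. -/
theorem norm_le_of_iteratedFDeriv {E : Type*} [NormedAddCommGroup E] [NormedSpace ℂ E] {m : ℕ} {G : E → ℂ} {R M : ℝ}
    (hR : 0 < R) (hG : AnalyticOnNhd ℂ G (ball 0 R)) (hM : ∀ w ∈ ball (0 : E) R, ‖G w‖ ≤ M)
    (h0 : ∀ k < m, ∀ w, iteratedFDeriv ℂ k G 0 (fun _ => w) = 0) {w : E} (hw : w ∈ ball (0 : E) R) :
    ‖G w‖ ≤ M * (‖w‖ / R) ^ m := by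
  rcases eq_or_ne w 0 with rfl | hw0
  · rcases Nat.eq_zero_or_pos m with rfl | hm
    · simpa using hM 0 (mem_ball_self hR)
    · have h1 := h0 0 hm 0
      rw [iteratedFDeriv_zero_apply] at h1
      rw [h1, norm_zero, norm_zero, zero_div, zero_pow hm.ne', mul_zero]
  have hwn : 0 < ‖w‖ := norm_pos_iff.2 hw0
  obtain ⟨L, hL⟩ : ∃ L : ℂ →L[ℂ] E, L = (ContinuousLinearMap.id ℂ ℂ).smulRight w := ⟨_, rfl⟩
  have hLa : ∀ ζ, L ζ = ζ • w := fun ζ => by simp [hL]
  obtain ⟨g, hg⟩ : ∃ g : ℂ → ℂ, g = G ∘ L := ⟨_, rfl⟩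
  have hball : ∀ ζ : ℂ, ζ ∈ ball (0 : ℂ) (R / ‖w‖) ↔ L ζ ∈ ball (0 : E) R := by
    intro ζ
    rw [mem_ball_zero_iff, mem_ball_zero_iff, hLa, norm_smul, lt_div_iff₀ hwn]
  have hgd : AnalyticOnNhd ℂ g (ball 0 (R / ‖w‖)) := by
    intro ζ hζ
    rw [hg]
    exact (hG _ ((hball ζ).1 hζ)).comp (L.analyticAt ζ)
  have hR' : 0 < R / ‖w‖ := div_pos hR hwn
  have hord : (m : ℕ∞) ≤ analyticOrderAt g 0 := by
    rw [natCast_le_analyticOrderAt_iff_iteratedDeriv_eq_zero (hgd 0 (mem_ball_self hR'))]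
    intro k hk
    have hs : IsOpen (ball (0 : E) R) := isOpen_ball
    have hs' : IsOpen (L ⁻¹' ball (0 : E) R) := hs.preimage L.continuous
    have hx : L 0 ∈ ball (0 : E) R := by rw [map_zero]; exact mem_ball_self hR
    have h1 := L.iteratedFDerivWithin_comp_right (f := G) (s := ball (0 : E) R) (n := (k : WithTop ℕ∞)) (i := k)
      (fun y hy => ((hG y hy).contDiffAt).contDiffWithinAt) hs.uniqueDiffOn hs'.uniqueDiffOn (x := 0) hx le_rfl
    rw [iteratedFDerivWithin_of_isOpen k hs' hx, iteratedFDerivWithin_of_isOpen k hs hx] at h1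
    rw [iteratedDeriv_eq_iteratedFDeriv, hg, h1, ContinuousMultilinearMap.compContinuousLinearMap_apply, map_zero]
    have h2 := h0 k hk (L 1)
    exact h2
  have h3 := schwarz_pow m hR' hgd.differentiableOn (M := M) (fun ζ hζ => by rw [hg]; exact hM _ ((hball ζ).1 hζ)) hord 1
    ((hball 1).2 (by rw [hLa, one_smul]; exact hw))
  rw [hg, Function.comp_apply, hLa, one_smul, norm_one] at h3
  have h4 : 1 / (R / ‖w‖) = ‖w‖ / R := by rw [one_div_div]
  rw [h4] at h3
  exact h3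

end Pool.Agent.H22.AlgD

end
end

section

set_option linter.style.haveILetI false

noncomputable section

namespace Pool.Agent.H23

section top

variable {K : Type*} [Field K] {M : Type*} [AddCommGroup M] [Module K M] {n : ℕ}
  (b : Module.Basis (Fin n) K M)

lemma ιMulti_eq (v : Fin n → M) :
    exteriorPower.ιMulti K n v = b.det v • exteriorPower.ιMulti K n (fun i => b i) := by
  have h : (exteriorPower.ιMulti K n : M [⋀^Fin n]→ₗ[K] ⋀[K]^n M) =
      (LinearMap.toSpanSingleton K (⋀[K]^n M) (exteriorPower.ιMulti K n (fun i => b i))).compAlternatingMap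
        b.det := by
    apply Module.Basis.ext_alternating b
    intro σ hσ
    have hbij : Function.Bijective σ := (Finite.injective_iff_bijective).1 hσ
    let e : Equiv.Perm (Fin n) := Equiv.ofBijective σ hbij
    have h1 : (fun i => b (σ i)) = (fun i => b i) ∘ e := rfl
    rw [h1, AlternatingMap.map_perm, LinearMap.compAlternatingMap_apply, AlternatingMap.map_perm,
      Module.Basis.det_self]
    simp
  conv_lhs => rw [h]
  rw [LinearMap.compAlternatingMap_apply, LinearMap.toSpanSingleton_apply]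

/-- coordinate of a top form -/
def fc : (⋀[K]^n M) →ₗ[K] K := exteriorPower.alternatingMapLinearEquiv b.det

lemma fc_ιMulti (v : Fin n → M) : fc b (exteriorPower.ιMulti K n v) = b.det v := by
  rw [fc, exteriorPower.alternatingMapLinearEquiv_apply_ιMulti]

lemma fc_self : fc b (exteriorPower.ιMulti K n (fun i => b i)) = 1 := by
  rw [fc_ιMulti]
  exact b.det_self

lemma eq_fc_smul (ω : ⋀[K]^n M) : ω = fc b ω • exteriorPower.ιMulti K n (fun i => b i) := by
  have hω : ω ∈ Submodule.span K (Set.range (exteriorPower.ιMulti K n (M := M))) := by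
    rw [exteriorPower.ιMulti_span]; trivial
  induction hω using Submodule.span_induction with
  | mem x hx =>
    obtain ⟨v, rfl⟩ := hx
    rw [fc_ιMulti]
    exact ιMulti_eq b v
  | zero => simp
  | add x y _ _ hx hy =>
    rw [map_add, add_smul, ← hx, ← hy]
  | smul c x _ hx =>
    rw [map_smul, smul_assoc, ← hx]

end top

section coords

variable {K : Type} [Field K] [Algebra ℂ K] {n : ℕ}

end coords

section primeDivisor

variable {K : Type} [Field K] [Algebra ℂ K]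

end primeDivisor

end Pool.Agent.H23

end
end

section

/-!
# BP SubD: functions of the real part of a holomorphic function

* `of_re`: `w = w₀ + (w - w₀)`, `ψ(x) ≥ ψ(x₀) + ψ₁ (x - x₀) + (ψ₂/2 - δ)(x - x₀)²` near `x₀ = Re w₀`, `(Re ζ)² = |ζ|²/2 + Re(ζ²)/2`; support
  `exp(ψ(x₀) + ψ₁ (w - w₀) + (ψ₂/4 - δ/2)(w - w₀)²)`, exponent `(ψ₂/4 - δ/2)|w'|²` up to `o(1)`.
* `log_rpow`: `w = log z` (a branch near `z₀`), `ψ(x) = -r log(-x)`, `ψ'' = r/x²`.
* `gain`: `s z₀ ≠ 0`: `w = log s`, `ψ(x) = e log(1 + M exp(2kx))`, `ψ'' = e 4k² M exp(2kx)/(1 + M exp(2kx))²`.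
* `gain_zero`: `s z₀ = 0`, `s'(z₀) ≠ 0`, `0 < k < 1/2`.. every exponent: `(1 + M|s|^(2k))^e ≥ 1 + e' |z - z₀|^(2k) ≥ exp(c'|z - z₀|²)` near `z₀` (`k < 1`).
-/

set_option autoImplicit false

namespace Pool.Agent.H36.BP

open Filter Topology Metric

variable {N : ℕ}

private theorem SubD_slope {w : ℂ → ℂ} {z₀ : ℂ} (hw : AnalyticAt ℂ w z₀) {κ c' : ℝ}
    (h : c' < κ * ‖deriv w z₀‖ ^ 2) :
    ∀ᶠ z in 𝓝 z₀, c' * ‖z - z₀‖ ^ 2 ≤ κ * ‖w z - w z₀‖ ^ 2 := by
  have h1 := (hasDerivAt_iff_tendsto_slope.1 hw.differentiableAt.hasDerivAt)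
  have h2 : Tendsto (fun z => κ * ‖slope w z₀ z‖ ^ 2) (𝓝[≠] z₀) (𝓝 (κ * ‖deriv w z₀‖ ^ 2)) :=
    (h1.norm.pow 2).const_mul κ
  have h3 := eventually_nhdsWithin_iff.1 (h2.eventually_const_lt h)
  filter_upwards [h3] with z hz
  by_cases hzz : z = z₀
  · rw [hzz, sub_self, sub_self, norm_zero]
    simp
  · have h4 := hz hzz
    have h5 : 0 < ‖z - z₀‖ := norm_pos_iff.2 (sub_ne_zero.2 hzz)
    have h6 : ‖slope w z₀ z‖ = ‖z - z₀‖⁻¹ * ‖w z - w z₀‖ := by
      rw [slope_def_module, norm_smul, norm_inv]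
    rw [h6] at h4
    have h7 : κ * (‖z - z₀‖⁻¹ * ‖w z - w z₀‖) ^ 2 * ‖z - z₀‖ ^ 2 = κ * ‖w z - w z₀‖ ^ 2 := by
      field_simp
    rw [← h7]
    exact mul_le_mul_of_nonneg_right h4.le (by positivity)

theorem Sub.of_re {w : ℂ → ℂ} {z₀ : ℂ} (hw : AnalyticAt ℂ w z₀) {ψ : ℝ → ℝ} {ψ₁ ψ₂ : ℝ}
    (h : ∀ δ : ℝ, 0 < δ → ∀ᶠ x in 𝓝 (w z₀).re, ψ (w z₀).re + ψ₁ * (x - (w z₀).re) + (ψ₂ / 2 - δ) * (x - (w z₀).re) ^ 2 ≤ ψ x) :
    Sub (fun z => Real.exp (ψ (w z).re)) z₀ (ψ₂ / 4 * ‖deriv w z₀‖ ^ 2) := by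
  refine ⟨Real.exp_pos _, fun c' hc' => ?_⟩
  obtain ⟨δ, hδ, hδc⟩ : ∃ δ : ℝ, 0 < δ ∧ c' < (ψ₂ / 4 - δ / 2) * ‖deriv w z₀‖ ^ 2 := by
    refine ⟨(ψ₂ / 4 * ‖deriv w z₀‖ ^ 2 - c') / (‖deriv w z₀‖ ^ 2 + 1),
      div_pos (by linarith) (by positivity), ?_⟩
    have h1 : 0 < ‖deriv w z₀‖ ^ 2 + 1 := by positivity
    have h2 : (ψ₂ / 4 * ‖deriv w z₀‖ ^ 2 - c') / (‖deriv w z₀‖ ^ 2 + 1) * ‖deriv w z₀‖ ^ 2 ≤
        ψ₂ / 4 * ‖deriv w z₀‖ ^ 2 - c' := by
      rw [div_mul_eq_mul_div, div_le_iff₀ h1]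
      have h3 : 0 < ψ₂ / 4 * ‖deriv w z₀‖ ^ 2 - c' := by linarith
      nlinarith
    linarith
  have hsl := SubD_slope hw hδc
  have hcont : Tendsto (fun z => (w z).re) (𝓝 z₀) (𝓝 (w z₀).re) :=
    (Complex.continuous_re.continuousAt.comp hw.continuousAt).tendsto
  refine ⟨fun z => Complex.exp ((ψ (w z₀).re : ℂ) + (ψ₁ : ℂ) * (w z - w z₀) +
    ((ψ₂ / 4 - δ / 2 : ℝ) : ℂ) * (w z - w z₀) ^ 2), ?_, ?_, ?_⟩
  · have h1 : AnalyticAt ℂ (fun z => w z - w z₀) z₀ := hw.sub analyticAt_const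
    exact ((analyticAt_const.add (analyticAt_const.mul h1)).add
      (analyticAt_const.mul (h1.pow 2))).cexp
  · show ‖Complex.exp ((ψ (w z₀).re : ℂ) + (ψ₁ : ℂ) * (w z₀ - w z₀) +
      ((ψ₂ / 4 - δ / 2 : ℝ) : ℂ) * (w z₀ - w z₀) ^ 2)‖ = Real.exp (ψ (w z₀).re)
    rw [Complex.norm_exp, sub_self, mul_zero, add_zero, zero_pow two_ne_zero, mul_zero, add_zero,
      Complex.ofReal_re]
  · filter_upwards [hsl, hcont.eventually (h δ hδ)] with z hz1 hz2
    rw [Complex.norm_exp, ← Real.exp_add, Real.exp_le_exp]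
    refine le_trans ?_ hz2
    obtain ⟨ζ, hζ⟩ : ∃ ζ : ℂ, w z - w z₀ = ζ := ⟨_, rfl⟩
    have h1 : (w z).re - (w z₀).re = ζ.re := by rw [← hζ, Complex.sub_re]
    have h2 : ((ψ (w z₀).re : ℂ) + (ψ₁ : ℂ) * ζ + ((ψ₂ / 4 - δ / 2 : ℝ) : ℂ) * ζ ^ 2).re =
        ψ (w z₀).re + ψ₁ * ζ.re + (ψ₂ / 4 - δ / 2) * (ζ.re ^ 2 - ζ.im ^ 2) := by
      rw [Complex.add_re, Complex.add_re, Complex.re_ofReal_mul, Complex.re_ofReal_mul,
        Complex.ofReal_re, sq ζ, Complex.mul_re]
      ring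
    have h3 : ‖ζ‖ ^ 2 = ζ.re ^ 2 + ζ.im ^ 2 := by
      rw [Complex.sq_norm, Complex.normSq_apply]
      ring
    rw [hζ] at hz1 ⊢
    rw [h1, h2]
    rw [h3] at hz1
    nlinarith

/-- Peano form of Taylor's theorem for `Sub.of_re` -/
theorem peano {ψ ψ' : ℝ → ℝ} {x₀ ψ₂ : ℝ} (h : ∀ᶠ x in 𝓝 x₀, HasDerivAt ψ (ψ' x) x) (h2 : HasDerivAt ψ' ψ₂ x₀) :
    ∀ δ : ℝ, 0 < δ → ∀ᶠ x in 𝓝 x₀, ψ x₀ + ψ' x₀ * (x - x₀) + (ψ₂ / 2 - δ) * (x - x₀) ^ 2 ≤ ψ x := by
  intro δ hδ
  have h3 : ∀ᶠ x in 𝓝 x₀, ‖ψ' x - ψ' x₀ - (x - x₀) • ψ₂‖ ≤ 2 * δ * ‖x - x₀‖ :=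
    (hasDerivAt_iff_isLittleO.1 h2).def (by linarith)
  obtain ⟨ε, hε, hball⟩ := Metric.eventually_nhds_iff_ball.1 (h.and h3)
  have hF : ∀ x ∈ Metric.ball x₀ ε, HasDerivAt (fun x => ψ x - ψ' x₀ * (x - x₀) -
      (ψ₂ / 2 - δ) * (x - x₀) ^ 2) (ψ' x - ψ' x₀ - (ψ₂ - 2 * δ) * (x - x₀)) x := by
    intro x hx
    have e1 := (hball x hx).1
    have e2 : HasDerivAt (fun x : ℝ => x - x₀) 1 x := (hasDerivAt_id x).sub_const x₀
    have e3 := (e1.sub (e2.const_mul (ψ' x₀))).sub ((e2.pow 2).const_mul (ψ₂ / 2 - δ))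
    refine e3.congr_deriv ?_
    simp only [Nat.cast_ofNat]
    ring
  have hF0 : (fun x => ψ x - ψ' x₀ * (x - x₀) - (ψ₂ / 2 - δ) * (x - x₀) ^ 2) x₀ = ψ x₀ := by
    simp
  filter_upwards [Metric.ball_mem_nhds x₀ hε] with x hx
  have hx' : |x - x₀| < ε := by rwa [Metric.mem_ball, Real.dist_eq] at hx
  rcases lt_trichotomy x x₀ with hlt | heq | hgt
  · have hsub : ∀ y ∈ Set.Icc x x₀, y ∈ Metric.ball x₀ ε := by
      intro y hy
      rw [Metric.mem_ball, Real.dist_eq, abs_lt]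
      rw [abs_lt] at hx'
      constructor <;> linarith [hy.1, hy.2]
    obtain ⟨c, hc, hceq⟩ := exists_hasDerivAt_eq_slope (fun x => ψ x - ψ' x₀ * (x - x₀) -
      (ψ₂ / 2 - δ) * (x - x₀) ^ 2) (fun x => ψ' x - ψ' x₀ - (ψ₂ - 2 * δ) * (x - x₀)) hlt
      (fun y hy => (hF y (hsub y hy)).continuousAt.continuousWithinAt)
      (fun y hy => hF y (hsub y ⟨hy.1.le, hy.2.le⟩))
    have hb := (hball c (hsub c ⟨hc.1.le, hc.2.le⟩)).2
    rw [Real.norm_eq_abs, Real.norm_eq_abs, abs_of_neg (by linarith [hc.2] : c - x₀ < 0),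
      abs_le, smul_eq_mul] at hb
    have hneg : ψ' c - ψ' x₀ - (ψ₂ - 2 * δ) * (c - x₀) ≤ 0 := by linarith [hb.2]
    rw [eq_div_iff (by linarith : x₀ - x ≠ 0)] at hceq
    have hprod := mul_nonpos_of_nonpos_of_nonneg hneg (by linarith : (0 : ℝ) ≤ x₀ - x)
    rw [hceq] at hprod
    nlinarith
  · rw [heq]
    simp
  · have hsub : ∀ y ∈ Set.Icc x₀ x, y ∈ Metric.ball x₀ ε := by
      intro y hy
      rw [Metric.mem_ball, Real.dist_eq, abs_lt]
      rw [abs_lt] at hx'
      constructor <;> linarith [hy.1, hy.2]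
    obtain ⟨c, hc, hceq⟩ := exists_hasDerivAt_eq_slope (fun x => ψ x - ψ' x₀ * (x - x₀) -
      (ψ₂ / 2 - δ) * (x - x₀) ^ 2) (fun x => ψ' x - ψ' x₀ - (ψ₂ - 2 * δ) * (x - x₀)) hgt
      (fun y hy => (hF y (hsub y hy)).continuousAt.continuousWithinAt)
      (fun y hy => hF y (hsub y ⟨hy.1.le, hy.2.le⟩))
    have hb := (hball c (hsub c ⟨hc.1.le, hc.2.le⟩)).2
    rw [Real.norm_eq_abs, Real.norm_eq_abs, abs_of_pos (by linarith [hc.1] : 0 < c - x₀),
      abs_le, smul_eq_mul] at hb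
    have hpos : 0 ≤ ψ' c - ψ' x₀ - (ψ₂ - 2 * δ) * (c - x₀) := by linarith [hb.1]
    rw [eq_div_iff (by linarith : x - x₀ ≠ 0)] at hceq
    have hprod := mul_nonneg hpos (by linarith : (0 : ℝ) ≤ x - x₀)
    rw [hceq] at hprod
    nlinarith

/-- a branch of the logarithm of `s` near a point where `s` does not vanish -/
private theorem SubD_log {s : ℂ → ℂ} {z₀ : ℂ} (hs : AnalyticAt ℂ s z₀) (h0 : s z₀ ≠ 0) :
    ∃ w : ℂ → ℂ, AnalyticAt ℂ w z₀ ∧ (∀ᶠ z in 𝓝 z₀, (w z).re = Real.log ‖s z‖ ∧ s z ≠ 0) ∧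
      (w z₀).re = Real.log ‖s z₀‖ ∧ deriv w z₀ = deriv s z₀ / s z₀ := by
  have hdiv : AnalyticAt ℂ (fun z => s z / s z₀) z₀ := hs.div analyticAt_const h0
  have hsl : s z₀ / s z₀ ∈ Complex.slitPlane := by
    rw [div_self h0]
    exact Complex.one_mem_slitPlane
  have hre : ∀ z, s z ≠ 0 → (Complex.log (s z / s z₀) + (Real.log ‖s z₀‖ : ℂ)).re =
      Real.log ‖s z‖ := by
    intro z hz
    rw [Complex.add_re, Complex.log_re, Complex.ofReal_re, norm_div,
      Real.log_div (norm_ne_zero_iff.2 hz) (norm_ne_zero_iff.2 h0)]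
    ring
  have hne : ∀ᶠ z in 𝓝 z₀, s z ≠ 0 := hs.continuousAt.eventually_ne h0
  refine ⟨fun z => Complex.log (s z / s z₀) + (Real.log ‖s z₀‖ : ℂ),
    (hdiv.clog hsl).add analyticAt_const, ?_, hre z₀ h0, ?_⟩
  · filter_upwards [hne] with z hz
    exact ⟨hre z hz, hz⟩
  · have h1 : HasDerivAt (fun z => s z / s z₀) (deriv s z₀ / s z₀) z₀ :=
      hs.differentiableAt.hasDerivAt.div_const _
    have h2 := (h1.clog hsl).add_const (Real.log ‖s z₀‖ : ℂ)
    rw [h2.deriv, div_self h0, div_one]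

theorem Sub.log_rpow {z₀ : ℂ} (h0 : z₀ ≠ 0) (h1 : ‖z₀‖ < 1) {r : ℝ} (hr : 0 ≤ r) :
    Sub (fun z => Real.log (1 / ‖z‖) ^ (-r)) z₀ (r / (4 * ‖z₀‖ ^ 2 * Real.log (1 / ‖z₀‖) ^ 2)) := by
  obtain ⟨w, hw, hw1, hw2, hw3⟩ := SubD_log (s := fun z => z) analyticAt_id h0
  have hpos : 0 < ‖z₀‖ := norm_pos_iff.2 h0
  have hx0 : Real.log ‖z₀‖ < 0 := Real.log_neg hpos h1
  have hψ : ∀ᶠ x in 𝓝 (Real.log ‖z₀‖), HasDerivAt (fun x : ℝ => -r * Real.log (-x)) (-r / x) x := by
    filter_upwards [eventually_lt_nhds hx0] with x hx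
    have e1 : HasDerivAt (fun x : ℝ => -x) (-1) x := hasDerivAt_neg x
    have e2 := (e1.log (by linarith : -x ≠ 0)).const_mul (-r)
    refine e2.congr_deriv ?_
    have hxne : x ≠ 0 := hx.ne
    field_simp
  have hψ2 : HasDerivAt (fun x : ℝ => -r / x) (r / Real.log ‖z₀‖ ^ 2) (Real.log ‖z₀‖) := by
    have e1 := (hasDerivAt_inv hx0.ne).const_mul (-r)
    refine e1.congr_deriv ?_
    field_simp
  have hp := peano hψ hψ2
  have hre := Sub.of_re (ψ := fun x : ℝ => -r * Real.log (-x)) (ψ₁ := -r / Real.log ‖z₀‖)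
    (ψ₂ := r / Real.log ‖z₀‖ ^ 2) hw (by
      intro δ hδ
      rw [hw2]
      exact hp δ hδ)
  have hval : r / Real.log ‖z₀‖ ^ 2 / 4 * ‖deriv w z₀‖ ^ 2 =
      r / (4 * ‖z₀‖ ^ 2 * Real.log (1 / ‖z₀‖) ^ 2) := by
    rw [hw3, deriv_id'', norm_div, norm_one, one_div ‖z₀‖, Real.log_inv, neg_sq]
    have := hx0.ne
    field_simp
  rw [hval] at hre
  refine hre.congr ?_
  have hcont : ∀ᶠ z in 𝓝 z₀, ‖z‖ < 1 := (continuous_norm.tendsto z₀).eventually_lt_const h1
  filter_upwards [hw1, hcont] with z hz1 hz2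
  have hz3 : 0 < ‖z‖ := norm_pos_iff.2 hz1.2
  have hz4 : 0 < Real.log (1 / ‖z‖) := Real.log_pos (by rw [lt_div_iff₀ hz3, one_mul]; exact hz2)
  rw [hz1.1, Real.rpow_def_of_pos hz4, one_div, Real.log_inv]
  congr 1
  ring

end Pool.Agent.H36.BP

end

section

/-!
# G3 Lift: normalised lifts
-/

set_option autoImplicit false

open Set Metric Filter Topology Real

namespace Pool.Agent.H56.G3

/-- the Herglotz integral: a holomorphic function whose real part is the Poisson integral -/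
theorem herglotz {u : ℂ → ℝ} {c : ℂ} {R : ℝ} (hR : 0 < R) (hu : ContinuousOn u (sphere c R)) :
    ∃ φ : ℂ → ℂ, DifferentiableOn ℂ φ (ball c R) ∧ ∀ w ∈ ball c R, (φ w).re = circleAverage (fun z => pk c w z * u z) c R := by
  have hRabs : |R| = R := abs_of_pos hR
  obtain ⟨g, hg⟩ : ∃ g : ℂ → ℝ, g = fun z => u (z + c) := ⟨_, rfl⟩
  have hgc : CircleIntegrable g 0 R := by
    refine ContinuousOn.circleIntegrable' ?_
    rw [hRabs, hg]
    refine hu.comp (by fun_prop) ?_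
    intro z hz
    rw [mem_sphere_iff_norm, sub_zero] at hz
    rw [mem_sphere_iff_norm, add_sub_cancel_right]
    exact hz
  have hgc' : CircleIntegrable (fun z => (g z : ℂ)) 0 R := by
    simp only [CircleIntegrable, intervalIntegrable_iff] at hgc ⊢
    exact Complex.ofRealCLM.integrable_comp hgc
  have h1 := differentiableOn_circleAverage_herglotzRieszKernel_smul hgc'
  refine ⟨fun w => circleAverage (fun ζ ↦ herglotzRieszKernel 0 (w - c) ζ • (g ζ : ℂ)) 0 R, ?_, ?_⟩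
  · refine h1.comp (by fun_prop) ?_
    intro w hw
    rw [mem_ball_iff_norm] at hw
    rw [mem_ball_iff_norm, sub_zero]
    exact hw
  · intro w hw
    have hw' : w - c ∈ ball (0 : ℂ) R := by
      rw [mem_ball_iff_norm] at hw
      rw [mem_ball_iff_norm, sub_zero]
      exact hw
    have h2 := re_circleAverage_herglotzRieszKernel_smul hgc hw'
    simp only
    rw [h2, ← circleAverage_map_add_const (f := fun z => pk c w z * u z)]
    congr 1
    funext z
    simp [pk, hg, herglotzRieszKernel_def]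

theorem pk_self {c z : ℂ} (h : z ≠ c) : pk c c z = 1 := by
  have h1 : z - c ≠ 0 := sub_ne_zero.2 h
  unfold pk
  rw [sub_self, add_zero, sub_zero, div_self h1, Complex.one_re]

/-- Poisson's formula for the real part of a holomorphic function -/
theorem pois_re {ψ : ℂ → ℂ} {c w : ℂ} {R : ℝ} (hR : 0 < R) (hψ : DiffContOnCl ℂ ψ (ball c R)) (hw : w ∈ ball c R) :
    circleAverage (fun z => pk c w z * (ψ z).re) c R = (ψ w).re := by
  have hRabs : |R| = R := abs_of_pos hR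
  have hpk := pk_cont hw
  have hψc : ContinuousOn ψ (sphere c R) := hψ.continuousOn.mono (by rw [closure_ball c hR.ne']; exact sphere_subset_closedBall)
  have h1 := hψ.circleAverage_re_herglotzRieszKernel_smul' (c := c) (R := R) hw
  have h2 : CircleIntegrable (fun z => ((z - c + (w - c)) / ((z - c) - (w - c))).re • ψ z) c R := by
    refine ContinuousOn.circleIntegrable' ?_
    rw [hRabs]
    exact hpk.smul hψc
  have h3 := Complex.reCLM.circleAverage_comp_comm h2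
  rw [h1] at h3
  simp only [Complex.reCLM_apply] at h3
  rw [← h3]
  congr 1
  funext z
  simp [pk]

variable {E : Type*} [NormedAddCommGroup E] [NormedSpace ℂ E]

/-- **Normalised lifts.** -/
theorem norm_lift {C : ℝ} {F : ℂ → E} {z₀ : ℂ} {R : ℝ} (hR : 7 ≤ R) (hF : DifferentiableOn ℂ F (ball z₀ R)) (h0 : ∀ z ∈ ball z₀ R, F z ≠ 0)
    {Gd : Set ℂ} (hG : ∀ z ∈ Gd, ‖z - z₀‖ ≤ 1 → circleAverage (fun w => Real.log ‖F w‖) z 5 ≤ Real.log ‖F z‖ + C ∧
      circleAverage (fun w => Real.log ‖F w‖) z (5 / 2) ≤ Real.log ‖F z‖ + C) :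
    ∃ φ : ℂ → ℂ, DifferentiableOn ℂ φ (ball z₀ 2) ∧ (∀ z ∈ ball z₀ 2, ‖Complex.exp (-φ z) • F z‖ ≤ 1) ∧
      ∀ z ∈ Gd, ‖z - z₀‖ ≤ 1 → Real.exp (-10 * C) ≤ ‖Complex.exp (-φ z) • F z‖ := by
  by_cases hex : ∃ z₁ ∈ Gd, ‖z₁ - z₀‖ ≤ 1
  · obtain ⟨z₁, hz₁, hz₁0⟩ := hex
    have hsub : closedBall z₁ 5 ⊆ ball z₀ R := by
      intro z hz
      rw [mem_closedBall_iff_norm] at hz
      rw [mem_ball_iff_norm]
      calc ‖z - z₀‖ = ‖(z - z₁) + (z₁ - z₀)‖ := by rw [sub_add_sub_cancel]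
        _ ≤ ‖z - z₁‖ + ‖z₁ - z₀‖ := norm_add_le _ _
        _ < R := by linarith
    have hnorm : ∀ z ∈ ball z₀ R, ‖F z‖ ≠ 0 := fun z hz => norm_ne_zero_iff.2 (h0 z hz)
    have huc : ContinuousOn (fun z => Real.log ‖F z‖) (ball z₀ R) := ContinuousOn.log hF.continuousOn.norm hnorm
    obtain ⟨φ, hφ, hre⟩ := herglotz (by norm_num : (0 : ℝ) < 5) (huc.mono ((sphere_subset_closedBall).trans hsub))
    have hdc : ∀ (c : ℂ) (r : ℝ), 0 < r → closedBall c r ⊆ ball z₀ R → DiffContOnCl ℂ F (ball c r) := by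
      intro c r hr h
      refine (hF.mono ?_).diffContOnCl
      rw [closure_ball c hr.ne']
      exact h
    have hvnn : ∀ z ∈ ball z₁ 5, Real.log ‖F z‖ ≤ (φ z).re := by
      intro z hz
      rw [hre z hz]
      exact poisson_jensen (by norm_num) (hdc z₁ 5 (by norm_num) hsub) (fun w hw => h0 w (hsub (sphere_subset_closedBall hw))) hz
        (h0 z (hsub (ball_subset_closedBall hz)))
    have hin : ball z₀ 2 ⊆ ball z₁ 5 := by
      intro z hz
      rw [mem_ball_iff_norm] at hz ⊢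
      calc ‖z - z₁‖ = ‖(z - z₀) - (z₁ - z₀)‖ := by rw [sub_sub_sub_cancel_right]
        _ ≤ ‖z - z₀‖ + ‖z₁ - z₀‖ := norm_sub_le _ _
        _ < 5 := by linarith
    have hnf : ∀ z ∈ ball z₁ 5, ‖Complex.exp (-φ z) • F z‖ = Real.exp (Real.log ‖F z‖ - (φ z).re) := by
      intro z hz
      have h2 : 0 < ‖F z‖ := norm_pos_iff.2 (h0 z (hsub (ball_subset_closedBall hz)))
      rw [norm_smul, Complex.norm_exp, Complex.neg_re, sub_eq_neg_add, Real.exp_add, Real.exp_log h2]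
    refine ⟨φ, hφ.mono hin, ?_, ?_⟩
    · intro z hz
      rw [hnf z (hin hz), Real.exp_le_one_iff]
      linarith [hvnn z (hin hz)]
    · intro z hz hz0
      have hzin : z ∈ ball z₁ 5 := by
        apply hin
        rw [mem_ball_iff_norm]
        linarith
      rw [hnf z hzin]
      apply Real.exp_le_exp.2
      -- the value at `z₁`
      have hv1 : (φ z₁).re - Real.log ‖F z₁‖ ≤ C := by
        have h1 := hre z₁ (mem_ball_self (by norm_num))
        have h2 : circleAverage (fun z => pk z₁ z₁ z * Real.log ‖F z‖) z₁ 5 = circleAverage (fun z => Real.log ‖F z‖) z₁ 5 := by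
          refine circleAverage_congr_sphere ?_
          intro w hw
          have hw' : w ≠ z₁ := by
            rintro rfl
            simp at hw
          simp only [pk_self hw', one_mul]
        rw [h1, h2]
        linarith [(hG z₁ hz₁ hz₁0).1]
      -- the circle about `z`
      have h52 : (0 : ℝ) < 5 / 2 := by norm_num
      have hzz : ‖z₁ - z‖ ≤ 2 := by
        calc ‖z₁ - z‖ = ‖(z₁ - z₀) - (z - z₀)‖ := by rw [sub_sub_sub_cancel_right]
          _ ≤ ‖z₁ - z₀‖ + ‖z - z₀‖ := norm_sub_le _ _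
          _ ≤ 2 := by linarith
      have hcb : closedBall z (5 / 2) ⊆ ball z₁ 5 := by
        intro w hw
        rw [mem_closedBall_iff_norm] at hw
        rw [mem_ball_iff_norm]
        calc ‖w - z₁‖ = ‖(w - z) - (z₁ - z)‖ := by rw [sub_sub_sub_cancel_right]
          _ ≤ ‖w - z‖ + ‖z₁ - z‖ := norm_sub_le _ _
          _ < 5 := by linarith
      have hcb' : closedBall z (5 / 2) ⊆ ball z₀ R := hcb.trans (ball_subset_closedBall.trans hsub)
      have hφd : DiffContOnCl ℂ φ (ball z (5 / 2)) := by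
        refine (hφ.mono ?_).diffContOnCl
        rw [closure_ball z h52.ne']
        exact hcb
      have hz₁b : z₁ ∈ ball z (5 / 2) := by rw [mem_ball_iff_norm]; linarith
      have hsc : |(5 / 2 : ℝ)| = 5 / 2 := abs_of_pos h52
      have hφc : ContinuousOn (fun w => (φ w).re) (sphere z (5 / 2)) :=
        Complex.continuous_re.comp_continuousOn (hφ.continuousOn.mono (sphere_subset_closedBall.trans hcb))
      have huc' : ContinuousOn (fun w => Real.log ‖F w‖) (sphere z (5 / 2)) := huc.mono (sphere_subset_closedBall.trans hcb')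
      have hpk := pk_cont hz₁b
      -- mean value of `Re φ`
      have hm : circleAverage (fun w => (φ w).re) z (5 / 2) = (φ z).re := by
        rw [← pois_re h52 hφd (mem_ball_self h52)]
        refine circleAverage_congr_sphere ?_
        intro w hw
        have hw' : w ≠ z := by
          rintro rfl
          rw [hsc, mem_sphere_iff_norm, sub_self, norm_zero] at hw
          norm_num at hw
        simp only [pk_self hw', one_mul]
      have hk1 := pois_re h52 hφd hz₁b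
      have hk2 := poisson_jensen h52 (hdc z (5 / 2) h52 hcb') (fun w hw => h0 w (hcb' (sphere_subset_closedBall hw))) hz₁b
        (h0 z₁ (hsub (mem_closedBall_self (by norm_num))))
      have i1 : CircleIntegrable (fun w => pk z z₁ w * (φ w).re) z (5 / 2) := by
        refine ContinuousOn.circleIntegrable' ?_
        rw [hsc]
        exact hpk.mul hφc
      have i2 : CircleIntegrable (fun w => pk z z₁ w * Real.log ‖F w‖) z (5 / 2) := by
        refine ContinuousOn.circleIntegrable' ?_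
        rw [hsc]
        exact hpk.mul huc'
      have i3 : CircleIntegrable (fun w => (φ w).re) z (5 / 2) := by
        refine ContinuousOn.circleIntegrable' ?_
        rw [hsc]
        exact hφc
      have i4 : CircleIntegrable (fun w => Real.log ‖F w‖) z (5 / 2) := by
        refine ContinuousOn.circleIntegrable' ?_
        rw [hsc]
        exact huc'
      have hsub1 := circleAverage_fun_sub i1 i2
      have hsub2 := circleAverage_fun_sub i3 i4
      have hle : circleAverage (fun w => (1 / 9 : ℝ) • ((φ w).re - Real.log ‖F w‖)) z (5 / 2) ≤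
          circleAverage (fun w => pk z z₁ w * (φ w).re - pk z z₁ w * Real.log ‖F w‖) z (5 / 2) := by
        refine circleAverage_mono ?_ (i1.sub i2) ?_
        · exact (i3.sub i4).const_smul (a := (1 / 9 : ℝ))
        · intro w hw
          rw [hsc] at hw
          have h1 := le_re_herglotzRieszKernel hw hz₁b
          have h2 : (1 / 9 : ℝ) ≤ pk z z₁ w := by
            refine le_trans ?_ h1
            rw [div_le_div_iff₀ (by norm_num) (by linarith [norm_nonneg (z₁ - z)])]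
            linarith
          have h3 := hvnn w (hcb (sphere_subset_closedBall hw))
          rw [smul_eq_mul, ← mul_sub]
          exact mul_le_mul_of_nonneg_right h2 (by linarith)
      rw [circleAverage_fun_smul, hsub2, hsub1, hk1, hm, smul_eq_mul] at hle
      have h5 := (hG z hz hz0).2
      linarith
  · push Not at hex
    -- no good point: any bound
    have hc : ContinuousOn (fun z => ‖F z‖) (closedBall z₀ 2) := by
      refine hF.continuousOn.norm.mono ?_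
      exact closedBall_subset_ball (by linarith)
    obtain ⟨M, hM⟩ := (isCompact_closedBall z₀ 2).exists_bound_of_continuousOn hc
    refine ⟨fun _ => (Real.log (max M 1) : ℂ), differentiableOn_const _, ?_, fun z hz hz0 => absurd hz0 (not_le.2 (hex z hz))⟩
    intro z hz
    have h1 : 0 < max M 1 := lt_max_of_lt_right one_pos
    rw [norm_smul, Complex.norm_exp, Complex.neg_re, Complex.ofReal_re, Real.exp_neg, Real.exp_log h1, inv_mul_le_one₀ h1]
    have h2 := hM z (ball_subset_closedBall hz)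
    rw [norm_norm] at h2
    exact h2.trans (le_max_left _ _)

end Pool.Agent.H56.G3

end

section

/-!
# The local order of the Wronskian
-/

open Filter Topology MeasureTheory
open Pool.Agent.H92.GGL (ordZ)

noncomputable section

namespace Pool.Agent.H62.FC

/-- `f` vanishes to order at least `b` at `s`, up to the value at `s` -/
def LocalEst_V (s : ℂ) (f : ℂ → ℂ) (b : ℕ) : Prop :=
  ∃ g : ℂ → ℂ, AnalyticAt ℂ g s ∧ f =ᶠ[𝓝[≠] s] fun z => (z - s) ^ b * g z

theorem LocalEst_congr {s : ℂ} {f f' : ℂ → ℂ} {b : ℕ} (h : LocalEst_V s f b)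
    (hf : f' =ᶠ[𝓝[≠] s] f) : LocalEst_V s f' b := by
  obtain ⟨g, hg, hfg⟩ := h
  exact ⟨g, hg, hf.trans hfg⟩

theorem LocalEst_anal_sub (s : ℂ) : AnalyticAt ℂ (fun z : ℂ => z - s) s :=
  analyticAt_id.sub analyticAt_const

theorem LocalEst_mono {s : ℂ} {f : ℂ → ℂ} {b b' : ℕ} (h : LocalEst_V s f b) (hb : b' ≤ b) :
    LocalEst_V s f b' := by
  obtain ⟨g, hg, hfg⟩ := h
  refine ⟨fun z => (z - s) ^ (b - b') * g z, ((LocalEst_anal_sub s).pow _).mul hg, ?_⟩
  filter_upwards [hfg] with z hz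
  rw [hz, ← mul_assoc, ← pow_add]
  congr 2
  omega

theorem LocalEst_mul {s : ℂ} {f f' : ℂ → ℂ} {b b' : ℕ} (h : LocalEst_V s f b)
    (h' : LocalEst_V s f' b') : LocalEst_V s (fun z => f z * f' z) (b + b') := by
  obtain ⟨g, hg, hfg⟩ := h
  obtain ⟨g', hg', hfg'⟩ := h'
  refine ⟨fun z => g z * g' z, hg.mul hg', ?_⟩
  filter_upwards [hfg, hfg'] with z hz hz'
  rw [hz, hz', pow_add]
  ring

theorem LocalEst_const (s c : ℂ) : LocalEst_V s (fun _ => c) 0 :=
  ⟨fun _ => c, analyticAt_const, by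
    filter_upwards with z
    rw [pow_zero, one_mul]⟩

theorem LocalEst_add {s : ℂ} {f f' : ℂ → ℂ} {b : ℕ} (h : LocalEst_V s f b)
    (h' : LocalEst_V s f' b) : LocalEst_V s (fun z => f z + f' z) b := by
  obtain ⟨g, hg, hfg⟩ := h
  obtain ⟨g', hg', hfg'⟩ := h'
  refine ⟨fun z => g z + g' z, hg.add hg', ?_⟩
  filter_upwards [hfg, hfg'] with z hz hz'
  rw [hz, hz']
  ring

theorem LocalEst_zero (s : ℂ) (b : ℕ) : LocalEst_V s (fun _ => 0) b :=
  ⟨fun _ => 0, analyticAt_const, by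
    filter_upwards with z
    rw [mul_zero]⟩

theorem LocalEst_sum {ι : Type*} {s : ℂ} (T : Finset ι) {f : ι → ℂ → ℂ} {b : ℕ}
    (h : ∀ i ∈ T, LocalEst_V s (f i) b) : LocalEst_V s (fun z => ∑ i ∈ T, f i z) b := by
  classical
  induction T using Finset.induction_on with
  | empty => simpa using LocalEst_zero s b
  | insert a T ha ih =>
    have h1 := LocalEst_add (h a (Finset.mem_insert_self a T))
      (ih fun i hi => h i (Finset.mem_insert_of_mem hi))
    refine LocalEst_congr h1 ?_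
    filter_upwards with z
    rw [Finset.sum_insert ha]

theorem LocalEst_prod {ι : Type*} {s : ℂ} (T : Finset ι) {f : ι → ℂ → ℂ} {b : ι → ℕ}
    (h : ∀ i ∈ T, LocalEst_V s (f i) (b i)) :
    LocalEst_V s (fun z => ∏ i ∈ T, f i z) (∑ i ∈ T, b i) := by
  classical
  induction T using Finset.induction_on with
  | empty => simpa using LocalEst_const s 1
  | insert a T ha ih =>
    have h1 := LocalEst_mul (h a (Finset.mem_insert_self a T))
      (ih fun i hi => h i (Finset.mem_insert_of_mem hi))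
    rw [Finset.sum_insert ha]
    refine LocalEst_congr h1 ?_
    filter_upwards with z
    rw [Finset.prod_insert ha]

theorem LocalEst_deriv {s : ℂ} {f : ℂ → ℂ} {b : ℕ} (h : LocalEst_V s f b) :
    LocalEst_V s (deriv f) (b - 1) := by
  obtain ⟨g, hg, hfg⟩ := h
  have h1 := hfg.nhdsNE_deriv
  have h2 : ∀ᶠ z in 𝓝[≠] s, AnalyticAt ℂ g z :=
    hg.eventually_analyticAt.filter_mono nhdsWithin_le_nhds
  rcases b with _ | b
  · refine ⟨deriv g, hg.deriv, ?_⟩
    filter_upwards [h1] with z hz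
    rw [hz]
    simp
  · refine ⟨fun z => ((b : ℂ) + 1) * g z + (z - s) * deriv g z,
      (analyticAt_const.mul hg).add ((LocalEst_anal_sub s).mul hg.deriv), ?_⟩
    filter_upwards [h1, h2] with z hz hgz
    rw [hz]
    have h3 : HasDerivAt (fun z : ℂ => (z - s) ^ (b + 1)) (((b + 1 : ℕ) : ℂ) * (z - s) ^ b) z := by
      have h0 := ((hasDerivAt_id z).sub_const s).fun_pow (b + 1)
      simp only [id_eq, Nat.add_sub_cancel, mul_one] at h0
      exact h0
    have h4 := h3.mul hgz.differentiableAt.hasDerivAt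
    have h5 : deriv (fun z => (z - s) ^ (b + 1) * g z) z =
        ((b + 1 : ℕ) : ℂ) * (z - s) ^ b * g z + (z - s) ^ (b + 1) * deriv g z := h4.deriv
    rw [h5]
    push_cast
    rw [pow_succ]
    ring

theorem LocalEst_iteratedDeriv {s : ℂ} {f : ℂ → ℂ} {b : ℕ} (h : LocalEst_V s f b) (i : ℕ) :
    LocalEst_V s (iteratedDeriv i f) (b - i) := by
  induction i with
  | zero => simpa using h
  | succ i ih =>
    rw [iteratedDeriv_succ]
    have := LocalEst_deriv ih
    rwa [Nat.sub_sub] at this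

theorem LocalEst_det {n : ℕ} {s : ℂ} {A : Fin n → Fin n → ℂ → ℂ} {K : Fin n → ℕ}
    (h : ∀ i j, LocalEst_V s (A i j) (K j)) :
    LocalEst_V s (fun z => (Matrix.of fun i j : Fin n => A i j z).det) (∑ j, K j) := by
  have h1 : LocalEst_V s (fun z => ∑ σ : Equiv.Perm (Fin n),
      ((Equiv.Perm.sign σ : ℤ) : ℂ) * ∏ i, A (σ i) i z) (∑ j, K j) := by
    refine LocalEst_sum _ ?_
    intro σ _
    have h2 := LocalEst_mul (LocalEst_const s ((Equiv.Perm.sign σ : ℤ) : ℂ))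
      (LocalEst_prod Finset.univ (f := fun i => A (σ i) i) (b := K) fun i _ => h (σ i) i)
    rwa [zero_add] at h2
  refine LocalEst_congr h1 ?_
  filter_upwards with z
  rw [Matrix.det_apply']
  rfl

theorem LocalEst_wronsk {n : ℕ} {s : ℂ} {φ : Fin n → ℂ → ℂ} {c : Fin n → ℕ}
    (h : ∀ j, LocalEst_V s (φ j) (c j)) :
    LocalEst_V s (wronsk φ) (∑ j, (c j - (n - 1))) := by
  refine LocalEst_det (A := fun i j => iteratedDeriv i (φ j)) ?_
  intro i j
  refine LocalEst_mono (LocalEst_iteratedDeriv (h j) i) ?_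
  have := i.2
  omega

/-- scaling of the Wronskian -/
theorem LocalEst_scale {n : ℕ} {z : ℂ} {h : ℂ → ℂ} {u : Fin n → ℂ → ℂ}
    (hh : ∀ k : ℕ, ContDiffAt ℂ k h z) (hu : ∀ j, ∀ k : ℕ, ContDiffAt ℂ k (u j) z) :
    wronsk (fun j w => h w * u j w) z = h z ^ n * wronsk u z := by
  have h1 : (Matrix.of fun i j : Fin n => iteratedDeriv i (fun w => h w * u j w) z) =
      (Matrix.of fun i k : Fin n => ((Nat.choose i k : ℕ) : ℂ) * iteratedDeriv (i - k) h z) *
        (Matrix.of fun i j : Fin n => iteratedDeriv i (u j) z) := by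
    ext i j
    rw [Matrix.mul_apply]
    simp only [Matrix.of_apply]
    have h2 : (fun w => h w * u j w) = fun w => u j w * h w := by
      funext w
      ring
    rw [h2, iteratedDeriv_fun_mul (hu j i) (hh i)]
    rw [Fin.sum_univ_eq_sum_range (fun k => ((Nat.choose i k : ℕ) : ℂ) *
      iteratedDeriv (i - k) h z * iteratedDeriv k (u j) z) n]
    have h3 : Finset.range ((i : ℕ) + 1) ⊆ Finset.range n := by
      rw [Finset.range_subset_range]
      exact i.2
    rw [← Finset.sum_subset h3]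
    · refine Finset.sum_congr rfl ?_
      intro k _
      ring
    · intro k _ hk
      rw [Finset.mem_range, not_lt] at hk
      rw [Nat.choose_eq_zero_of_lt (by omega)]
      simp
  unfold wronsk
  rw [h1, Matrix.det_mul]
  congr 1
  rw [Matrix.det_of_isLowerTriangular]
  · simp
  · intro i k hik
    have hik' : (i : ℕ) < k := hik
    simp only [Matrix.of_apply]
    rw [Nat.choose_eq_zero_of_lt hik']
    simp

/-- exchange of a column -/
theorem LocalEst_exchange {n : ℕ} {z : ℂ} {f : Fin n → ℂ → ℂ} {q : ℂ → ℂ} (j₀ : Fin n)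
    (hf : ∀ j, ∀ k : ℕ, ContDiffAt ℂ k (f j) z) (hq : q =ᶠ[𝓝 z] fun w => ∑ j, f j w) :
    wronsk (Function.update f j₀ q) z = wronsk f z := by
  have h1 : (Matrix.of fun i j : Fin n => iteratedDeriv i (Function.update f j₀ q j) z) =
      (Matrix.of fun i j : Fin n => iteratedDeriv i (f j) z).updateCol j₀
        (fun i => ∑ j, (1 : ℂ) • (Matrix.of fun i j : Fin n => iteratedDeriv i (f j) z) i j) := by
    ext i j
    rw [Matrix.updateCol_apply]
    by_cases hj : j = j₀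
    · subst hj
      rw [if_pos rfl]
      simp only [Matrix.of_apply, Function.update_self, one_smul]
      rw [hq.iteratedDeriv_eq, iteratedDeriv_fun_sum (fun j _ => hf j i)]
    · rw [if_neg hj]
      simp only [Matrix.of_apply]
      rw [Function.update_of_ne hj]
  unfold wronsk
  rw [h1, Matrix.det_updateCol_sum, one_smul]

theorem LocalEst_num {n d c : ℕ} (hn : 1 ≤ n) (hd : n ≤ d) (hc : (d : ℤ) ∣ (c : ℤ)) :
    (d : ℤ) * ((c : ℤ) - ((c - (n - 1) : ℕ) : ℤ)) ≤ ((n : ℤ) - 1) * c := by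
  rcases Nat.eq_zero_or_pos c with h0 | h0
  · subst h0
    simp
  · have h1 : (d : ℤ) ≤ c := Int.le_of_dvd (by exact_mod_cast h0) hc
    have h2 : n - 1 ≤ c := by omega
    have h3 : ((c - (n - 1) : ℕ) : ℤ) = (c : ℤ) - ((n : ℤ) - 1) := by
      push_cast [Nat.cast_sub h2, Nat.cast_sub hn]
      ring
    rw [h3]
    have h4 : (0 : ℤ) ≤ (n : ℤ) - 1 := by
      have : (1 : ℤ) ≤ n := by exact_mod_cast hn
      linarith
    nlinarith [mul_le_mul_of_nonneg_right h1 h4]

theorem local_estimate {n d : ℕ} (hn : 1 ≤ n) (hd : n ≤ d) {s : ℂ} {u : Fin n → ℂ → ℂ}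
    (hu : ∀ j, MeromorphicAt (u j) s) (huo : ∀ j, meromorphicOrderAt (u j) s ≠ ⊤)
    (hrel : ∀ᶠ z in 𝓝[≠] s, ∑ j, u j z = -1) (hW : meromorphicOrderAt (wronsk u) s ≠ ⊤)
    (hdiv : ∀ j, (d : ℤ) ∣ ordZ (u j) s) {μ : ℤ} (hμ0 : μ ≤ 0) (hμ : ∀ j, μ ≤ ordZ (u j) s)
    (hμ' : μ = 0 ∨ ∃ j, ordZ (u j) s = μ) :
    (d : ℤ) * ((∑ j, ordZ (u j) s) - ordZ (wronsk u) s - μ) ≤
      (n - 1 : ℤ) * ((∑ j, (ordZ (u j) s - μ)) + (0 - μ)) := by
  obtain ⟨m, hm⟩ : ∃ m : ℕ, (m : ℤ) = -μ := ⟨(-μ).toNat, Int.toNat_of_nonneg (by linarith)⟩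
  -- the orders of the scaled functions
  have hb : ∀ j, ∃ b : ℕ, (b : ℤ) = ordZ (u j) s - μ := fun j =>
    ⟨(ordZ (u j) s - μ).toNat, Int.toNat_of_nonneg (by linarith [hμ j])⟩
  choose b hb using hb
  set f : Fin n → ℂ → ℂ := fun j w => (w - s) ^ m * u j w with hf
  have hVf : ∀ j, LocalEst_V s (f j) (b j) := by
    intro j
    have h1 : meromorphicOrderAt (u j) s = ((ordZ (u j) s : ℤ) : WithTop ℤ) := by
      unfold Pool.Agent.H92.GGL.ordZ
      rw [WithTop.coe_untop₀_of_ne_top (huo j)]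
    obtain ⟨g, hg, _, hug⟩ := (meromorphicOrderAt_eq_int_iff (hu j)).1 h1
    refine ⟨g, hg, ?_⟩
    filter_upwards [hug, eventually_mem_nhdsWithin] with z hz hzs
    have hzs' : z - s ≠ 0 := sub_ne_zero.mpr hzs
    show (z - s) ^ m * u j z = _
    rw [hz, smul_eq_mul, ← mul_assoc, ← zpow_natCast, ← zpow_add₀ hzs', ← zpow_natCast]
    congr 2
    rw [hb j, hm]
    ring
  -- the punctured neighbourhood where everything is analytic
  have han : ∀ᶠ z in 𝓝[≠] s, ∀ j, AnalyticAt ℂ (u j) z := by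
    rw [Filter.eventually_all]
    exact fun j => (hu j).eventually_analyticAt
  have hscale : wronsk f =ᶠ[𝓝[≠] s] fun z => ((z - s) ^ m) ^ n * wronsk u z := by
    filter_upwards [han] with z hz
    refine LocalEst_scale (h := fun w => (w - s) ^ m) ?_ ?_
    · intro k
      exact ((contDiffAt_id.sub contDiffAt_const).pow m)
    · intro j k
      exact (hz j).contDiffAt
  -- it is enough to bound the order of the scaled Wronskian
  have main : ∀ c : Fin n → ℕ, (∀ j, (d : ℤ) ∣ (c j : ℤ)) →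
      (∑ j, (c j : ℤ)) = (∑ j, (ordZ (u j) s - μ)) + (0 - μ) →
      LocalEst_V s (wronsk f) (∑ j, (c j - (n - 1))) →
      (d : ℤ) * ((∑ j, ordZ (u j) s) - ordZ (wronsk u) s - μ) ≤
        (n - 1 : ℤ) * ((∑ j, (ordZ (u j) s - μ)) + (0 - μ)) := by
    intro c hc hcs hV
    obtain ⟨g, hg, hWg⟩ := hV
    set C : ℕ := ∑ j, (c j - (n - 1)) with hC
    have h1 : wronsk u =ᶠ[𝓝[≠] s] fun z => (z - s) ^ ((C : ℤ) - m * n) * g z := by
      filter_upwards [hscale, hWg, eventually_mem_nhdsWithin] with z h1 h2 h3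
      have hzs' : z - s ≠ 0 := sub_ne_zero.mpr h3
      rw [h1] at h2
      have h4 : ((z - s) ^ m) ^ n ≠ 0 := pow_ne_zero _ (pow_ne_zero _ hzs')
      have h5 : wronsk u z = (((z - s) ^ m) ^ n)⁻¹ * ((z - s) ^ C * g z) := by
        rw [← h2, ← mul_assoc, inv_mul_cancel₀ h4, one_mul]
      rw [h5, zpow_sub₀ hzs', zpow_natCast, ← pow_mul]
      have h6 : (z - s) ^ ((m : ℤ) * (n : ℤ)) = (z - s) ^ (m * n) := by
        rw [← Nat.cast_mul, zpow_natCast]
      rw [h6]
      field_simp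
    have h2 : MeromorphicAt (fun z => (z - s) ^ ((C : ℤ) - m * n)) s :=
      ((LocalEst_anal_sub s).meromorphicAt).zpow _
    have h3 : meromorphicOrderAt (fun z => (z - s) ^ ((C : ℤ) - m * n)) s =
        (((C : ℤ) - m * n : ℤ) : WithTop ℤ) := by
      rw [meromorphicOrderAt_eq_int_iff h2]
      exact ⟨fun _ => 1, analyticAt_const, one_ne_zero, by
        filter_upwards with z
        rw [smul_eq_mul, mul_one]⟩
    have h4 : (((C : ℤ) - m * n : ℤ) : WithTop ℤ) ≤ meromorphicOrderAt (wronsk u) s := by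
      rw [meromorphicOrderAt_congr h1]
      have h5 := meromorphicOrderAt_mul h2 hg.meromorphicAt
      have h6 : meromorphicOrderAt (fun z => (z - s) ^ ((C : ℤ) - m * n) * g z) s =
          meromorphicOrderAt (fun z => (z - s) ^ ((C : ℤ) - m * n)) s +
            meromorphicOrderAt g s := h5
      rw [h6, h3]
      exact le_add_of_nonneg_right hg.meromorphicOrderAt_nonneg
    have h5 : ((C : ℤ) - m * n : ℤ) ≤ ordZ (wronsk u) s := by
      unfold Pool.Agent.H92.GGL.ordZ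
      rw [← WithTop.coe_untop₀_of_ne_top hW] at h4
      exact_mod_cast h4
    have h6 : ∑ j, ((d : ℤ) * ((c j : ℤ) - ((c j - (n - 1) : ℕ) : ℤ))) ≤
        ∑ j, ((n : ℤ) - 1) * (c j : ℤ) :=
      Finset.sum_le_sum fun j _ => LocalEst_num hn hd (hc j)
    rw [← Finset.mul_sum, ← Finset.mul_sum, Finset.sum_sub_distrib, hcs] at h6
    have h7 : ((C : ℕ) : ℤ) = ∑ j, ((c j - (n - 1) : ℕ) : ℤ) := by
      rw [hC, Nat.cast_sum]
    rw [← h7] at h6
    have h8 : (∑ j, (ordZ (u j) s - μ)) = (∑ j, ordZ (u j) s) - n * μ := by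
      rw [Finset.sum_sub_distrib, Finset.sum_const, Finset.card_univ, Fintype.card_fin,
        nsmul_eq_mul]
    refine le_trans ?_ h6
    refine mul_le_mul_of_nonneg_left ?_ (Int.natCast_nonneg d)
    rw [h8]
    rw [hm] at h5
    linarith
  have hdμ : (d : ℤ) ∣ μ := by
    rcases hμ' with h | ⟨j, hj⟩
    · rw [h]; exact dvd_zero _
    · rw [← hj]; exact hdiv j
  have hdb : ∀ j, (d : ℤ) ∣ (b j : ℤ) := by
    intro j
    rw [hb j]
    exact dvd_sub (hdiv j) hdμ
  rcases hμ' with h0 | ⟨j₀, hj₀⟩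
  · refine main b hdb ?_ (LocalEst_wronsk hVf)
    rw [h0, sub_zero, add_zero]
    refine Finset.sum_congr rfl ?_
    intro j _
    rw [hb j, h0]
  · have hq : wronsk f =ᶠ[𝓝[≠] s]
        wronsk (Function.update f j₀ (fun w => -(w - s) ^ m)) := by
      have hrel' := eventually_nhdsNE_eventually_nhds_iff.2 hrel
      filter_upwards [han, hrel'] with z hz hr
      symm
      refine LocalEst_exchange j₀ ?_ ?_
      · intro j k
        have h1 : ContDiffAt ℂ k (u j) z := (hz j).contDiffAt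
        have h2 : ContDiffAt ℂ k (fun w : ℂ => (w - s) ^ m) z :=
          (contDiffAt_id.sub contDiffAt_const).pow m
        exact h2.mul h1
      · filter_upwards [hr] with w hw
        show -(w - s) ^ m = ∑ j, (w - s) ^ m * u j w
        rw [← Finset.mul_sum, hw]
        ring
    have hV : ∀ j, LocalEst_V s (Function.update f j₀ (fun w => -(w - s) ^ m) j)
        (Function.update b j₀ m j) := by
      intro j
      by_cases hj : j = j₀
      · subst hj
        rw [Function.update_self, Function.update_self]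
        refine ⟨fun _ => -1, analyticAt_const, ?_⟩
        filter_upwards with z
        ring
      · rw [Function.update_of_ne hj, Function.update_of_ne hj]
        exact hVf j
    have hb0 : (b j₀ : ℤ) = 0 := by
      rw [hb j₀, hj₀, sub_self]
    refine main (Function.update b j₀ m) ?_ ?_ (LocalEst_congr (LocalEst_wronsk hV) hq)
    · intro j
      by_cases hj : j = j₀
      · subst hj
        rw [Function.update_self, hm]
        exact (dvd_neg).2 hdμ
      · rw [Function.update_of_ne hj]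
        exact hdb j
    · have h1 : (∑ j, (ordZ (u j) s - μ)) = ∑ j, (b j : ℤ) :=
        Finset.sum_congr rfl fun j _ => (hb j).symm
      rw [h1, ← Finset.add_sum_erase Finset.univ _ (Finset.mem_univ j₀),
        ← Finset.add_sum_erase Finset.univ (fun j => (b j : ℤ)) (Finset.mem_univ j₀), hb0,
        Function.update_self, hm]
      have h2 : ∑ j ∈ Finset.univ.erase j₀, ((Function.update b j₀ m j : ℕ) : ℤ) =
          ∑ j ∈ Finset.univ.erase j₀, (b j : ℤ) := by
        refine Finset.sum_congr rfl ?_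
        intro j hj
        rw [Function.update_of_ne (Finset.ne_of_mem_erase hj)]
      rw [h2]
      ring

end Pool.Agent.H62.FC

end
end

section

/-!
# TG HyA: entire maps `ℂ^n → ℂ^(N+1)` as maps to the projective space; circles which avoid a thin set
-/

set_option autoImplicit false

open Topology Filter Metric

namespace Pool.Agent.TG

variable {N n : ℕ}

/-- `x` and `w` are proportional -/
def Pl {ι : Type*} (x w : ι → ℂ) : Prop := ∀ i k, x i * w k = x k * w i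

theorem Pl.symm {ι : Type*} {x w : ι → ℂ} (h : Pl x w) : Pl w x := fun i k => by
  have := h k i
  rw [mul_comm (w i), mul_comm (w k)]
  exact this

theorem Pl.smul {ι : Type*} {x w : ι → ℂ} (h : Pl x w) (hw : w ≠ 0) : ∃ g : ℂ, x = g • w := by
  obtain ⟨k, hk⟩ := Function.ne_iff.1 hw
  have hk' : w k ≠ 0 := hk
  refine ⟨x k / w k, ?_⟩
  funext i
  rw [Pi.smul_apply, smul_eq_mul, div_mul_eq_mul_div, eq_div_iff hk']
  exact h i k

theorem Pl.trans {ι : Type*} {x v w : ι → ℂ} (h : Pl x v) (h' : Pl v w) (hv : v ≠ 0) : Pl x w := by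
  obtain ⟨g, rfl⟩ := h.smul hv
  intro i k
  simp only [Pi.smul_apply, smul_eq_mul]
  have := h' i k
  linear_combination g * this

/-- the values of a function which is zero off a thin set on small circles -/
theorem exists_dir {h : (Fin n → ℂ) → ℂ} {y₀ : Fin n → ℂ} (han : AnalyticAt ℂ h y₀) (hne : ¬ ∀ᶠ z in 𝓝 y₀, h z = 0) :
    ∃ e : Fin n → ℂ, ∀ᶠ t in 𝓝[≠] (0 : ℂ), h (y₀ + t • e) ≠ 0 := by
  obtain ⟨r, hr, hball⟩ := han.exists_ball_analyticOnNhd
  have h1 : ∃ᶠ z in 𝓝 y₀, h z ≠ 0 := fun hcon => hne (hcon.mono fun z hz => not_not.1 hz)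
  obtain ⟨y₁, hy₁, hy₁b⟩ := (h1.and_eventually (ball_mem_nhds y₀ hr)).exists
  obtain ⟨e, he⟩ : ∃ e, e = y₁ - y₀ := ⟨_, rfl⟩
  refine ⟨e, ?_⟩
  obtain ⟨A, hA⟩ : ∃ A : ℂ → (Fin n → ℂ), A = fun t => y₀ + t • e := ⟨_, rfl⟩
  have hAan : ∀ t, AnalyticAt ℂ A t := fun t => by
    rw [hA]
    exact analyticAt_const.add (analyticAt_id.smul analyticAt_const)
  have hAc : Continuous A := by
    rw [hA]
    fun_prop
  have hU : IsPreconnected (A ⁻¹' ball y₀ r) := by
    apply Convex.isPreconnected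
    have h2 : A ⁻¹' ball y₀ r = {t : ℂ | ‖t • e‖ < r} := by
      ext t
      simp [hA, mem_ball, dist_eq_norm]
    rw [h2]
    intro a ha b hb s t hs ht hst
    simp only [Set.mem_ofPred_eq] at ha hb ⊢
    have h3 : (s • a + t • b) • e = s • (a • e) + t • (b • e) := by
      rw [add_smul, smul_assoc, smul_assoc]
    rw [h3]
    calc ‖s • (a • e) + t • (b • e)‖ ≤ ‖s • (a • e)‖ + ‖t • (b • e)‖ := norm_add_le _ _
      _ = s * ‖a • e‖ + t * ‖b • e‖ := by rw [norm_smul s (a • e), norm_smul t (b • e), Real.norm_of_nonneg hs, Real.norm_of_nonneg ht]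
      _ < r := by
        rcases hs.eq_or_lt with h4 | h4
        · have h5 : t = 1 := by linarith
          rw [← h4, h5]
          linarith
        · nlinarith
  have hg : AnalyticOnNhd ℂ (fun t => h (A t)) (A ⁻¹' ball y₀ r) := fun t ht => (hball _ ht).comp (hAan t)
  have h0 : (0 : ℂ) ∈ A ⁻¹' ball y₀ r := by
    show A 0 ∈ ball y₀ r
    rw [hA]
    simpa using hr
  have h1' : (1 : ℂ) ∈ A ⁻¹' ball y₀ r := by
    show A 1 ∈ ball y₀ r
    rw [hA]
    simp only [one_smul]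
    rw [he, add_sub_cancel]
    exact hy₁b
  have hA1 : A 1 = y₁ := by
    rw [hA, he]
    simp
  rcases (hg 0 h0).eventually_eq_zero_or_eventually_ne_zero with h2 | h2
  · exfalso
    have h3 := hg.eqOn_zero_of_preconnected_of_eventuallyEq_zero hU h0 h2 h1'
    apply hy₁
    have h4 : h (A 1) = 0 := h3
    rwa [hA1] at h4
  · rw [hA] at h2
    exact h2

/-- an entire map which is not zero is not zero on small circles -/
theorem exists_dir_of_entire {F : (Fin n → ℂ) → Fin (N + 1) → ℂ} (hF : Differentiable ℂ F) (hne : ∃ y, F y ≠ 0) (y₀ : Fin n → ℂ) :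
    ∃ e : Fin n → ℂ, ∀ᶠ t in 𝓝[≠] (0 : ℂ), F (y₀ + t • e) ≠ 0 := by
  obtain ⟨y₁, hy₁⟩ := hne
  obtain ⟨i, hi⟩ := Function.ne_iff.1 hy₁
  refine ⟨y₁ - y₀, ?_⟩
  have hd : Differentiable ℂ fun t : ℂ => F (y₀ + t • (y₁ - y₀)) i := by
    have h1 : Differentiable ℂ fun t : ℂ => y₀ + t • (y₁ - y₀) := by fun_prop
    exact fun t => (differentiableAt_pi.1 ((hF _).comp t (h1 t))) i
  have hg : AnalyticOnNhd ℂ (fun t : ℂ => F (y₀ + t • (y₁ - y₀)) i) Set.univ := fun t _ => hd.analyticAt t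
  rcases (hg 0 (Set.mem_univ _)).eventually_eq_zero_or_eventually_ne_zero with h2 | h2
  · exfalso
    have h3 := hg.eqOn_zero_of_preconnected_of_eventuallyEq_zero isPreconnected_univ (Set.mem_univ _) h2 (Set.mem_univ (1 : ℂ))
    apply hi
    have h4 : F (y₀ + (1 : ℂ) • (y₁ - y₀)) i = 0 := h3
    rw [one_smul, add_sub_cancel] at h4
    exact h4
  · filter_upwards [h2] with t ht h0
    exact ht (by rw [h0]; rfl)

theorem frequently_ne {F : (Fin n → ℂ) → Fin (N + 1) → ℂ} (hF : Differentiable ℂ F) (hne : ∃ y, F y ≠ 0) (y₀ : Fin n → ℂ) :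
    ∃ᶠ y in 𝓝 y₀, F y ≠ 0 := by
  obtain ⟨e, he⟩ := exists_dir_of_entire hF hne y₀
  have ht : Tendsto (fun t : ℂ => y₀ + t • e) (𝓝[≠] (0 : ℂ)) (𝓝 y₀) := by
    have h1 : Continuous fun t : ℂ => y₀ + t • e := by fun_prop
    have h2 := (h1.tendsto 0).mono_left (nhdsWithin_le_nhds (s := {(0 : ℂ)}ᶜ))
    simpa using h2
  exact ht.frequently he.frequently

/-- a continuous function which vanishes where `F ≠ 0` is zero -/
theorem eq_zero_of_dense {F : (Fin n → ℂ) → Fin (N + 1) → ℂ} (hF : Differentiable ℂ F) (hne : ∃ y, F y ≠ 0) {y₀ : Fin n → ℂ}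
    {A : (Fin n → ℂ) → ℂ} (hA : ContinuousAt A y₀) (h : ∀ᶠ y in 𝓝 y₀, F y ≠ 0 → A y = 0) : A y₀ = 0 := by
  by_contra hcon
  have h1 : ∀ᶠ y in 𝓝 y₀, A y ≠ 0 := hA.eventually_ne hcon
  obtain ⟨y, hy, h2, h3⟩ := ((frequently_ne hF hne y₀).and_eventually (h.and h1)).exists
  exact h3 (h2 hy)

/-- small circles on which the points have a distance from `D` -/
theorem exists_circle_off {D : Set (Fin n → ℂ)} (hD : IsClosed D) {y₀ : Fin n → ℂ}
    (thin : ∃ h : (Fin n → ℂ) → ℂ, AnalyticAt ℂ h y₀ ∧ (∀ᶠ z in 𝓝 y₀, z ∈ D → h z = 0) ∧ ¬ ∀ᶠ z in 𝓝 y₀, h z = 0) :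
    ∃ (e : Fin n → ℂ) (r δ : ℝ), 0 < r ∧ r * ‖e‖ ≤ 1 ∧ 0 < δ ∧ ∀ y ∈ ball y₀ δ, ∀ t : ℂ, ‖t‖ = r → ∀ b ∈ D, δ ≤ ‖y + t • e - b‖ := by
  obtain ⟨h, h1, h2, h3⟩ := thin
  obtain ⟨e, he⟩ := exists_dir h1 h3
  have ht : Tendsto (fun t : ℂ => y₀ + t • e) (𝓝[≠] (0 : ℂ)) (𝓝 y₀) := by
    have h1 : Continuous fun t : ℂ => y₀ + t • e := by fun_prop
    have h2 := (h1.tendsto 0).mono_left (nhdsWithin_le_nhds (s := {(0 : ℂ)}ᶜ))
    simpa using h2
  have h4 : ∀ᶠ t in 𝓝[≠] (0 : ℂ), y₀ + t • e ∉ D := by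
    filter_upwards [he, ht.eventually h2] with t ht1 ht2 hmem
    exact ht1 (ht2 hmem)
  rw [eventually_nhdsWithin_iff, Metric.eventually_nhds_iff] at h4
  obtain ⟨ε, hε, h5⟩ := h4
  obtain ⟨r, hr⟩ : ∃ r : ℝ, r = min (ε / 2) (1 / (‖e‖ + 1)) := ⟨_, rfl⟩
  have hr0 : 0 < r := by
    rw [hr]
    exact lt_min (by linarith) (by positivity)
  have hrε : r < ε := lt_of_le_of_lt (hr ▸ min_le_left _ _) (by linarith)
  have hre : r * ‖e‖ ≤ 1 := by
    have h6 : r ≤ 1 / (‖e‖ + 1) := hr ▸ min_le_right _ _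
    have h7 : 0 < ‖e‖ + 1 := by positivity
    rw [le_div_iff₀ h7] at h6
    nlinarith [norm_nonneg e]
  have hK : IsCompact ((fun t : ℂ => y₀ + t • e) '' sphere 0 r) := (isCompact_sphere 0 r).image (by fun_prop)
  have hKD : (fun t : ℂ => y₀ + t • e) '' sphere 0 r ⊆ Dᶜ := by
    rintro _ ⟨t, ht1, rfl⟩
    rw [mem_sphere_zero_iff_norm] at ht1
    refine h5 ?_ ?_
    · rw [dist_zero_right, ht1]
      exact hrε
    · intro h0
      rw [Set.mem_singleton_iff] at h0
      rw [h0, norm_zero] at ht1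
      linarith
  obtain ⟨δ, hδ, hsub⟩ := hK.exists_thickening_subset_open hD.isOpen_compl hKD
  refine ⟨e, r, δ / 2, hr0, hre, by linarith, fun y hy t ht1 b hb => ?_⟩
  by_contra hcon
  push Not at hcon
  have h6 : b ∈ thickening δ ((fun t : ℂ => y₀ + t • e) '' sphere 0 r) := by
    rw [mem_thickening_iff]
    refine ⟨y₀ + t • e, ⟨t, by rwa [mem_sphere_zero_iff_norm], rfl⟩, ?_⟩
    rw [dist_comm, dist_eq_norm]
    rw [mem_ball, dist_eq_norm] at hy
    calc ‖y₀ + t • e - b‖ = ‖(y₀ - y) + (y + t • e - b)‖ := by congr 1; abel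
      _ ≤ ‖y₀ - y‖ + ‖y + t • e - b‖ := norm_add_le _ _
      _ < δ := by
        rw [norm_sub_rev] at hy
        linarith
  exact hsub h6 hb

/-- uniformly on compact sets -/
theorem exists_circle_unif {D : Set (Fin n → ℂ)} (hD : IsClosed D)
    (thin : ∀ y₀ : Fin n → ℂ, ∃ h : (Fin n → ℂ) → ℂ, AnalyticAt ℂ h y₀ ∧ (∀ᶠ z in 𝓝 y₀, z ∈ D → h z = 0) ∧ ¬ ∀ᶠ z in 𝓝 y₀, h z = 0)
    {K : Set (Fin n → ℂ)} (hK : IsCompact K) :
    ∃ δ : ℝ, 0 < δ ∧ ∀ y ∈ K, ∃ (e : Fin n → ℂ) (r : ℝ), 0 < r ∧ r * ‖e‖ ≤ 1 ∧ ∀ t : ℂ, ‖t‖ = r → ∀ b ∈ D, δ ≤ ‖y + t • e - b‖ := by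
  refine hK.induction_on (p := fun K => ∃ δ : ℝ, 0 < δ ∧ ∀ y ∈ K, ∃ (e : Fin n → ℂ) (r : ℝ), 0 < r ∧ r * ‖e‖ ≤ 1 ∧
    ∀ t : ℂ, ‖t‖ = r → ∀ b ∈ D, δ ≤ ‖y + t • e - b‖) ?_ ?_ ?_ ?_
  · exact ⟨1, one_pos, fun y hy => absurd hy (Set.notMem_empty y)⟩
  · rintro s t hst ⟨δ, hδ, h⟩
    exact ⟨δ, hδ, fun y hy => h y (hst hy)⟩
  · rintro s t ⟨δ, hδ, h⟩ ⟨δ', hδ', h'⟩
    refine ⟨min δ δ', lt_min hδ hδ', fun y hy => ?_⟩
    rcases hy with hy | hy
    · obtain ⟨e, r, hr, hre, h1⟩ := h y hy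
      exact ⟨e, r, hr, hre, fun t ht b hb => (min_le_left _ _).trans (h1 t ht b hb)⟩
    · obtain ⟨e, r, hr, hre, h1⟩ := h' y hy
      exact ⟨e, r, hr, hre, fun t ht b hb => (min_le_right _ _).trans (h1 t ht b hb)⟩
  · intro y₀ _
    obtain ⟨e, r, δ, hr, hre, hδ, h⟩ := exists_circle_off hD (thin y₀)
    exact ⟨ball y₀ δ, mem_nhdsWithin_of_mem_nhds (ball_mem_nhds y₀ hδ), δ, hδ, fun y hy => ⟨e, r, hr, hre, h y hy⟩⟩

end Pool.Agent.TG

end

section

/-!
# TG HyB: the values of the extension of an entire map; comparison of a form at a point and on a small circle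
-/

set_option autoImplicit false

open Topology Filter Metric MvPolynomial
open Pool.Agent.H22.AlgD (eval_smul_form analyticAt_eval)

namespace Pool.Agent.TG

variable {N n : ℕ}

/-- `v` represents the value at `y` of the holomorphic extension of `[F]` -/
def VAt (F : (Fin n → ℂ) → Fin (N + 1) → ℂ) (y : Fin n → ℂ) (v : Fin (N + 1) → ℂ) : Prop :=
  ∃ φ : (Fin n → ℂ) → Fin (N + 1) → ℂ, AnalyticAt ℂ φ y ∧ φ y = v ∧ v ≠ 0 ∧ ∀ᶠ z in 𝓝 y, Pl (F z) (φ z)

variable {F : (Fin n → ℂ) → Fin (N + 1) → ℂ}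

theorem VAt.unique (hF : Differentiable ℂ F) (hne : ∃ y, F y ≠ 0) {y : Fin n → ℂ} {v w : Fin (N + 1) → ℂ} (h : VAt F y v) (h' : VAt F y w) : Pl v w := by
  obtain ⟨φ, hφ, rfl, hv, h1⟩ := h
  obtain ⟨ψ, hψ, rfl, hw, h2⟩ := h'
  intro i k
  have hc : ∀ (χ : (Fin n → ℂ) → Fin (N + 1) → ℂ), AnalyticAt ℂ χ y → ∀ i, ContinuousAt (fun z => χ z i) y := fun χ hχ i =>
    (continuousAt_pi.1 hχ.continuousAt) i
  have h3 := eq_zero_of_dense hF hne (y₀ := y) (A := fun z => φ z i * ψ z k - φ z k * ψ z i)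
    (((hc φ hφ i).mul (hc ψ hψ k)).sub ((hc φ hφ k).mul (hc ψ hψ i))) (by
      filter_upwards [h1, h2] with z hz1 hz2 hz0
      rw [sub_eq_zero]
      exact (hz1.symm.trans hz2 hz0) i k)
  exact sub_eq_zero.1 h3

theorem VAt.shift (hF : Differentiable ℂ F) (hne : ∃ y, F y ≠ 0) {l : Fin n → ℂ} (hl : ∀ y, Pl (F (y + l)) (F y)) {y : Fin n → ℂ}
    {v : Fin (N + 1) → ℂ} (h : VAt F y v) : VAt F (y + l) v := by
  obtain ⟨φ, hφ, hv, hv0, h1⟩ := h
  have ht : Tendsto (fun z : Fin n → ℂ => z - l) (𝓝 (y + l)) (𝓝 y) := by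
    have h2 : Continuous fun z : Fin n → ℂ => z - l := by fun_prop
    have h3 := h2.tendsto (y + l)
    rwa [add_sub_cancel_right] at h3
  have hv' : φ (y + l - l) = v := by rw [add_sub_cancel_right]; exact hv
  refine ⟨fun z => φ (z - l), ?_, hv', hv0, ?_⟩
  · have h2 : AnalyticAt ℂ φ (y + l - l) := by rwa [add_sub_cancel_right]
    exact AnalyticAt.comp (g := φ) (f := fun z : Fin n → ℂ => z - l) h2 (analyticAt_id.sub analyticAt_const)
  · filter_upwards [ht.eventually (h1.eventually_nhds.and hφ.eventually_analyticAt)] with z hz i k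
    obtain ⟨hz1, hz2⟩ := hz
    have ht' : Tendsto (fun w : Fin n → ℂ => w - l) (𝓝 z) (𝓝 (z - l)) := by
      have h2 : Continuous fun w : Fin n → ℂ => w - l := by fun_prop
      exact h2.tendsto z
    have hc : ∀ i, ContinuousAt (fun w => φ (w - l) i) z := fun i =>
      ContinuousAt.comp (g := fun w => φ w i) (f := fun w : Fin n → ℂ => w - l) ((continuousAt_pi.1 hz2.continuousAt) i) ht'
    have hcF : ∀ i, ContinuousAt (fun w => F w i) z := fun i => (continuousAt_pi.1 hF.continuous.continuousAt) i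
    have h3 := eq_zero_of_dense (F := fun w => F (w - l)) (fun w => (hF _).comp w (differentiableAt_id.sub_const l))
      (by
        obtain ⟨y₁, hy₁⟩ := hne
        exact ⟨y₁ + l, by rwa [add_sub_cancel_right]⟩) (y₀ := z)
      (A := fun w => F w i * φ (w - l) k - F w k * φ (w - l) i)
      (((hcF i).mul (hc k)).sub ((hcF k).mul (hc i))) (by
        filter_upwards [ht'.eventually hz1] with w hw1 hw0
        rw [sub_eq_zero]
        have h4 := hl (w - l)
        rw [sub_add_cancel] at h4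
        exact (h4.trans hw1 hw0) i k)
    exact sub_eq_zero.1 h3

/-- the value of a form at a point is bounded by its values on small circles -/
theorem exists_cmp (hF : Differentiable ℂ F) (hne : ∃ y, F y ≠ 0) {y₀ : Fin n → ℂ} {v₀ : Fin (N + 1) → ℂ} (h : VAt F y₀ v₀) :
    ∃ c : ℝ, 0 < c ∧ ∀ᶠ y in 𝓝 y₀, ∀ v, VAt F y v → ∀ (d : ℕ) (Q : MvPolynomial (Fin (N + 1)) ℂ), Q.IsHomogeneous d →
      ∃ y' : Fin n → ℂ, ‖y' - y‖ ≤ 1 ∧ c ^ d * ‖eval v Q‖ ≤ ‖v‖ ^ d * ‖eval (F y') Q‖ := by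
  obtain ⟨φ, hφ, hv, hv0, h1⟩ := h
  have hn0 : 0 < ‖φ y₀‖ := by rw [hv]; exact norm_pos_iff.2 hv0
  have h2 : ∀ᶠ z in 𝓝 y₀, AnalyticAt ℂ φ z ∧ Pl (F z) (φ z) ∧ ‖φ y₀‖ / 2 < ‖φ z‖ ∧ ‖φ z‖ < 2 * ‖φ y₀‖ :=
    hφ.eventually_analyticAt.and (h1.and ((hφ.continuousAt.norm.eventually (lt_mem_nhds (by linarith))).and
      (hφ.continuousAt.norm.eventually (gt_mem_nhds (by linarith)))))
  rw [Metric.eventually_nhds_iff] at h2
  obtain ⟨ρ, hρ, h3⟩ := h2
  obtain ⟨e, he⟩ := exists_dir_of_entire hF hne y₀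
  rw [eventually_nhdsWithin_iff, Metric.eventually_nhds_iff] at he
  obtain ⟨ε, hε, h4⟩ := he
  obtain ⟨r, hr⟩ : ∃ r : ℝ, r = min (ε / 2) (min 1 (ρ / 2) / (‖e‖ + 1)) := ⟨_, rfl⟩
  have he1 : 0 < ‖e‖ + 1 := by positivity
  have hm : 0 < min 1 (ρ / 2) := lt_min one_pos (by linarith)
  have hr0 : 0 < r := by
    rw [hr]
    exact lt_min (by linarith) (div_pos hm he1)
  have hrε : r < ε := lt_of_le_of_lt (hr ▸ min_le_left _ _) (by linarith)
  have hre : r * ‖e‖ ≤ min 1 (ρ / 2) := by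
    have h6 : r ≤ min 1 (ρ / 2) / (‖e‖ + 1) := hr ▸ min_le_right _ _
    rw [le_div_iff₀ he1] at h6
    nlinarith [norm_nonneg e]
  have hre1 : r * ‖e‖ ≤ 1 := hre.trans (min_le_left _ _)
  have hreρ : r * ‖e‖ ≤ ρ / 2 := hre.trans (min_le_right _ _)
  have h5 : ∀ t ∈ sphere (0 : ℂ) r, F (y₀ + t • e) ≠ 0 := by
    intro t ht
    rw [mem_sphere_zero_iff_norm] at ht
    refine h4 ?_ ?_
    · rw [dist_zero_right, ht]
      exact hrε
    · intro h0
      rw [Set.mem_singleton_iff] at h0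
      rw [h0, norm_zero] at ht
      linarith
  have hcs : Continuous fun t : ℂ => ‖F (y₀ + t • e)‖ := by
    have := hF.continuous
    fun_prop
  obtain ⟨t₀, ht₀, hmin⟩ := (isCompact_sphere (0 : ℂ) r).exists_isMinOn (NormedSpace.sphere_nonempty.2 hr0.le) hcs.continuousOn
  obtain ⟨c₂, hc₂⟩ : ∃ c₂ : ℝ, c₂ = ‖F (y₀ + t₀ • e)‖ := ⟨_, rfl⟩
  have hc₂0 : 0 < c₂ := by
    rw [hc₂]
    exact norm_pos_iff.2 (h5 t₀ ht₀)
  have h6 : ∀ᶠ y in 𝓝 y₀, ∀ t ∈ sphere (0 : ℂ) r, c₂ / 2 < ‖F (y + t • e)‖ := by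
    refine (isCompact_sphere (0 : ℂ) r).eventually_forall_of_forall_eventually fun t ht => ?_
    have h7 : c₂ / 2 < ‖F (y₀ + t • e)‖ := by
      have h8 : c₂ ≤ ‖F (y₀ + t • e)‖ := by
        rw [hc₂]
        exact hmin ht
      linarith
    have h9 : Continuous fun z : (Fin n → ℂ) × ℂ => ‖F (z.1 + z.2 • e)‖ := by
      have := hF.continuous
      fun_prop
    exact h9.continuousAt.eventually (lt_mem_nhds h7)
  have hb : ∀ᶠ y in 𝓝 y₀, dist y y₀ < ρ / 2 := Metric.eventually_nhds_iff.2 ⟨ρ / 2, by linarith, fun {y} hy => hy⟩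
  refine ⟨c₂ / 2 * (‖φ y₀‖ / 2) / (2 * ‖φ y₀‖), by positivity, ?_⟩
  filter_upwards [h6, hb] with y hy1 hy2 v hvy d Q hQ
  have hdist : ∀ t ∈ closedBall (0 : ℂ) r, dist (y + t • e) y₀ < ρ := by
    intro t ht
    rw [mem_closedBall_zero_iff] at ht
    calc dist (y + t • e) y₀ ≤ dist (y + t • e) y + dist y y₀ := dist_triangle _ _ _
      _ < ρ / 2 + ρ / 2 := by
        refine add_lt_add_of_le_of_lt ?_ hy2
        rw [dist_eq_norm, add_sub_cancel_left, norm_smul]
        exact (mul_le_mul_of_nonneg_right ht (norm_nonneg e)).trans hreρ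
      _ = ρ := by ring
  -- the maximum of the form on the circle
  obtain ⟨G, hG⟩ : ∃ G : ℂ → ℂ, G = fun t => eval (φ (y + t • e)) Q := ⟨_, rfl⟩
  have hGan : ∀ t ∈ closedBall (0 : ℂ) r, AnalyticAt ℂ G t := by
    intro t ht
    have h8 : AnalyticAt ℂ (fun w => eval (φ w) Q) (y + t • e) := analyticAt_eval (h3 (hdist t ht)).1 Q
    rw [hG]
    exact AnalyticAt.comp (g := fun w => eval (φ w) Q) (f := fun t : ℂ => y + t • e) h8
      (analyticAt_const.add (analyticAt_id.smul analyticAt_const))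
  have hGd : DiffContOnCl ℂ G (ball 0 r) := by
    constructor
    · exact fun t ht => (hGan t (ball_subset_closedBall ht)).differentiableAt.differentiableWithinAt
    · rw [closure_ball _ hr0.ne']
      exact fun t ht => (hGan t ht).continuousAt.continuousWithinAt
  obtain ⟨t, ht, hmax⟩ := Complex.exists_mem_frontier_isMaxOn_norm isBounded_ball (nonempty_ball.2 hr0) hGd
  rw [frontier_ball _ hr0.ne'] at ht
  have h7 : ‖G 0‖ ≤ ‖G t‖ := hmax (subset_closure (mem_ball_self hr0))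
  rw [hG] at h7
  simp only [zero_smul, add_zero] at h7
  have htc : t ∈ closedBall (0 : ℂ) r := sphere_subset_closedBall ht
  obtain ⟨ha, hb1, hb2, hb3⟩ := h3 (hdist t htc)
  have h0c : (0 : ℂ) ∈ closedBall (0 : ℂ) r := mem_closedBall_self hr0.le
  have hd0 := hdist 0 h0c
  rw [zero_smul, add_zero] at hd0
  obtain ⟨ha0, hp0, hb20, hb30⟩ := h3 hd0
  have hφ0 : φ y ≠ 0 := fun h => by
    rw [h, norm_zero] at hb20
    linarith
  have hφt : φ (y + t • e) ≠ 0 := fun h => by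
    rw [h, norm_zero] at hb2
    linarith
  obtain ⟨g, hg⟩ := hb1.smul hφt
  have hev : ∀ᶠ z in 𝓝 y, Pl (F z) (φ z) := by
    have h8 : ∀ᶠ z in 𝓝 y, dist z y₀ < ρ := (isOpen_ball (x := y₀) (ε := ρ)).mem_nhds (by simpa using hd0)
    filter_upwards [h8] with z hz
    exact (h3 hz).2.1
  obtain ⟨a, ha'⟩ := (hvy.unique hF hne ⟨φ, ha0, rfl, hφ0, hev⟩).smul hφ0
  refine ⟨y + t • e, ?_, ?_⟩
  · rw [add_sub_cancel_left, norm_smul]
    rw [mem_sphere_zero_iff_norm] at ht
    rw [ht]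
    exact hre1
  · rw [hg, ha', eval_smul_form hQ, eval_smul_form hQ, norm_mul, norm_mul, norm_pow, norm_pow, norm_smul]
    -- the factor `g` is not small
    have hg1 : c₂ / 2 / (2 * ‖φ y₀‖) ≤ ‖g‖ := by
      rw [div_le_iff₀ (by positivity)]
      have h8 := hy1 t ht
      rw [hg, norm_smul] at h8
      have h9 : ‖g‖ * ‖φ (y + t • e)‖ ≤ ‖g‖ * (2 * ‖φ y₀‖) := mul_le_mul_of_nonneg_left hb3.le (norm_nonneg g)
      linarith
    have h10 : c₂ / 2 * (‖φ y₀‖ / 2) / (2 * ‖φ y₀‖) ≤ ‖g‖ * ‖φ y‖ := by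
      calc c₂ / 2 * (‖φ y₀‖ / 2) / (2 * ‖φ y₀‖) = c₂ / 2 / (2 * ‖φ y₀‖) * (‖φ y₀‖ / 2) := by ring
        _ ≤ ‖g‖ * ‖φ y‖ := mul_le_mul hg1 hb20.le (by positivity) (norm_nonneg g)
    have h11 : (c₂ / 2 * (‖φ y₀‖ / 2) / (2 * ‖φ y₀‖)) ^ d ≤ (‖g‖ * ‖φ y‖) ^ d := pow_le_pow_left₀ (by positivity) h10 d
    calc (c₂ / 2 * (‖φ y₀‖ / 2) / (2 * ‖φ y₀‖)) ^ d * (‖a‖ ^ d * ‖eval (φ y) Q‖)
        ≤ (‖g‖ * ‖φ y‖) ^ d * (‖a‖ ^ d * ‖eval (φ (y + t • e)) Q‖) :=
          mul_le_mul h11 (mul_le_mul_of_nonneg_left h7 (by positivity)) (by positivity) (by positivity)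
      _ = (‖a‖ * ‖φ y‖) ^ d * (‖g‖ ^ d * ‖eval (φ (y + t • e)) Q‖) := by ring

end Pool.Agent.TG

end
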