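import Pool.Agent.H94.G4T.M13

/-! The parts of this file: G3.A.DD, G3.R.DD, G3.R.Comp. -/

section

/-!
# G3 A DD: divided differences

`dd S f = ∑ a ∈ S, (∏ b ∈ S.erase a, (a - b))⁻¹ • f a`, the divided difference of `f : ℝ → E` for the set `S` of nodes.

* `dd_insert_insert`: the recursion; `dd_slope`: `dd (insert a S) f = dd S (slope of f at a)`.
* `dd_hol`: bound for the restriction of a holomorphic function.
* `dd_smul_bound`: Leibniz; `dd_newton`: the Newton polynomial; `dd_comp`: composition with a holomorphic function.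
-/

set_option autoImplicit false

open Topology Filter Metric Finset

namespace Pool.Agent.G3.A

variable {E : Type*} [AddCommGroup E] [Module ℝ E]

/-- the divided difference of `f` for the nodes `S` -/
noncomputable def dd (S : Finset ℝ) (f : ℝ → E) : E := ∑ a ∈ S, ((∏ b ∈ S.erase a, (a - b))⁻¹ : ℝ) • f a

theorem dd_congr {S : Finset ℝ} {f g : ℝ → E} (h : ∀ a ∈ S, f a = g a) : dd S f = dd S g := by
  unfold dd
  exact Finset.sum_congr rfl fun a ha => by rw [h a ha]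

theorem dd_singleton (a : ℝ) (f : ℝ → E) : dd {a} f = f a := by
  unfold dd
  simp

theorem dd_sub (S : Finset ℝ) (f g : ℝ → E) : dd S (fun t => f t - g t) = dd S f - dd S g := by
  unfold dd
  rw [← Finset.sum_sub_distrib]
  exact Finset.sum_congr rfl fun a _ => by rw [smul_sub]

theorem dd_smul {R : Type*} [Semiring R] [Module R E] [SMulCommClass ℝ R E] (S : Finset ℝ) (c : R) (f : ℝ → E) :
    dd S (fun t => c • f t) = c • dd S f := by
  unfold dd
  rw [Finset.smul_sum]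
  exact Finset.sum_congr rfl fun a _ => by rw [smul_comm]

theorem dd_map {F : Type*} [AddCommGroup F] [Module ℝ F] (L : E →ₗ[ℝ] F) (S : Finset ℝ) (f : ℝ → E) :
    dd S (fun t => L (f t)) = L (dd S f) := by
  unfold dd
  rw [map_sum]
  exact Finset.sum_congr rfl fun a _ => by rw [map_smul]

/-- the recursion -/
theorem dd_insert_insert {S : Finset ℝ} {a b : ℝ} (hab : a ≠ b) (ha : a ∉ S) (hb : b ∉ S) (f : ℝ → E) :
    dd (insert a (insert b S)) f = (b - a)⁻¹ • (dd (insert b S) f - dd (insert a S) f) := by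
  have hba : b - a ≠ 0 := sub_ne_zero.2 hab.symm
  have ha' : a ∉ insert b S := by simp [hab, ha]
  unfold dd
  rw [Finset.sum_insert ha', Finset.sum_insert hb, Finset.sum_insert hb, Finset.sum_insert ha]
  have e1 : (insert a (insert b S)).erase a = insert b S := Finset.erase_insert ha'
  have e2 : (insert a (insert b S)).erase b = insert a S := by
    rw [Finset.erase_insert_of_ne hab, Finset.erase_insert hb]
  have e3 : (insert b S).erase b = S := Finset.erase_insert hb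
  have e4 : (insert a S).erase a = S := Finset.erase_insert ha
  rw [e1, e2, e3, e4, Finset.prod_insert hb, Finset.prod_insert ha]
  have e5 : ∀ c ∈ S, ((∏ d ∈ (insert a (insert b S)).erase c, (c - d))⁻¹ : ℝ) • f c =
      (b - a)⁻¹ • (((∏ d ∈ (insert b S).erase c, (c - d))⁻¹ : ℝ) • f c - ((∏ d ∈ (insert a S).erase c, (c - d))⁻¹ : ℝ) • f c) := by
    intro c hc
    have hac : a ≠ c := fun h => ha (h ▸ hc)
    have hbc : b ≠ c := fun h => hb (h ▸ hc)
    have hca : c - a ≠ 0 := sub_ne_zero.2 hac.symm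
    have hcb : c - b ≠ 0 := sub_ne_zero.2 hbc.symm
    rw [Finset.erase_insert_of_ne hac, Finset.erase_insert_of_ne hbc, Finset.erase_insert_of_ne hac, Finset.prod_insert (by simp [hab, ha]),
      Finset.prod_insert (by simp [hb]), Finset.prod_insert (by simp [ha]), ← sub_smul, smul_smul]
    congr 1
    rw [mul_inv, mul_inv, mul_inv]
    have e7 : (c - b)⁻¹ - (c - a)⁻¹ = (b - a) * ((c - a)⁻¹ * (c - b)⁻¹) := by
      field_simp
      ring
    rw [← sub_mul, e7]
    field_simp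
  rw [Finset.sum_congr rfl e5, ← Finset.smul_sum, Finset.sum_sub_distrib, mul_inv, mul_inv]
  have e6 : (a - b)⁻¹ = -(b - a)⁻¹ := by rw [← neg_sub b a, inv_neg]
  rw [e6]
  module

/-- the divided difference of the slope -/
theorem dd_slope {a : ℝ} (f : ℝ → E) : ∀ {S : Finset ℝ}, a ∉ S → S.Nonempty → dd (insert a S) f = dd S (fun t => (t - a)⁻¹ • (f t - f a)) := by
  intro S
  induction hn : S.card using Nat.strong_induction_on generalizing S with
  | _ n ih =>
    intro ha hS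
    obtain ⟨b, hb⟩ := hS
    obtain ⟨S', hbS', rfl⟩ : ∃ S', b ∉ S' ∧ insert b S' = S := ⟨S.erase b, Finset.notMem_erase b S, Finset.insert_erase hb⟩
    have hab : a ≠ b := fun h => ha (h ▸ Finset.mem_insert_self _ _)
    have haS' : a ∉ S' := fun h => ha (Finset.mem_insert_of_mem h)
    rcases S'.eq_empty_or_nonempty with rfl | ⟨c, hc⟩
    · have h1 := dd_insert_insert (S := ∅) hab (Finset.notMem_empty a) (Finset.notMem_empty b) f
      simp only [insert_empty_eq] at h1 ⊢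
      rw [h1, dd_singleton, dd_singleton, dd_singleton]
    · obtain ⟨S'', hcS'', rfl⟩ : ∃ S'', c ∉ S'' ∧ insert c S'' = S' := ⟨S'.erase c, Finset.notMem_erase c S', Finset.insert_erase hc⟩
      have hbc : b ≠ c := fun h => hbS' (h ▸ Finset.mem_insert_self _ _)
      have hac : a ≠ c := fun h => haS' (h ▸ Finset.mem_insert_self _ _)
      have hbS'' : b ∉ S'' := fun h => hbS' (Finset.mem_insert_of_mem h)
      have haS'' : a ∉ S'' := fun h => haS' (Finset.mem_insert_of_mem h)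
      have hcard : (insert b (insert c S'')).card = S''.card + 2 := by
        rw [Finset.card_insert_of_notMem hbS', Finset.card_insert_of_notMem hcS'']
      have r1 : insert a (insert b (insert c S'')) = insert b (insert c (insert a S'')) := by
        rw [Finset.insert_comm a b, Finset.insert_comm a c]
      rw [r1, dd_insert_insert hbc (by simp [hab.symm, hbS'']) (by simp [hac.symm, hcS'']), dd_insert_insert hbc hbS'' hcS'']
      have i1 := ih (insert c S'').card (by rw [← hn, hcard, Finset.card_insert_of_notMem hcS'']; omega) rfl (by simp [hac, haS'']) ⟨c, Finset.mem_insert_self _ _⟩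
      have i2 := ih (insert b S'').card (by rw [← hn, hcard, Finset.card_insert_of_notMem hbS'']; omega) rfl (by simp [hab, haS'']) ⟨b, Finset.mem_insert_self _ _⟩
      rw [Finset.insert_comm c a, Finset.insert_comm b a, i1, i2]

/-- bound for the slope of a holomorphic function -/
theorem dslope_bound {E : Type*} [NormedAddCommGroup E] [NormedSpace ℂ E] [CompleteSpace E] {c r M : ℝ} (hr : 0 < r) {g : ℂ → E}
    (hg : DifferentiableOn ℂ g (ball (c : ℂ) (2 * r))) (hM : ∀ z ∈ ball (c : ℂ) (2 * r), ‖g z‖ ≤ M) {a : ℂ} (ha : dist a (c : ℂ) ≤ r) :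
    DifferentiableOn ℂ (dslope g a) (ball (c : ℂ) (2 * r)) ∧ ∀ z ∈ ball (c : ℂ) (2 * r), ‖dslope g a z‖ ≤ M * (4 / r) := by
  have hamem : a ∈ ball (c : ℂ) (2 * r) := mem_ball.2 (by linarith)
  have hd : DifferentiableOn ℂ (dslope g a) (ball (c : ℂ) (2 * r)) := (Complex.differentiableOn_dslope (isOpen_ball.mem_nhds hamem)).2 hg
  refine ⟨hd, fun z hz => ?_⟩
  have hM0 : 0 ≤ M := (norm_nonneg _).trans (hM z hz)
  rw [mem_ball] at hz
  set ρ : ℝ := (max (dist z (c : ℂ)) (3 / 2 * r) + 2 * r) / 2 with hρ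
  have h1 : dist z (c : ℂ) < ρ := by
    have := le_max_left (dist z (c : ℂ)) (3 / 2 * r)
    have h2 : max (dist z (c : ℂ)) (3 / 2 * r) < 2 * r := max_lt hz (by linarith)
    rw [hρ]
    linarith
  have h2 : ρ < 2 * r := by
    have h2 : max (dist z (c : ℂ)) (3 / 2 * r) < 2 * r := max_lt hz (by linarith)
    rw [hρ]
    linarith
  have h3 : 3 / 2 * r < ρ := by
    have := le_max_right (dist z (c : ℂ)) (3 / 2 * r)
    rw [hρ]
    linarith
  have hρ0 : ρ ≠ 0 := by
    have : 0 < ρ := by linarith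
    exact this.ne'
  have hsub : closedBall (c : ℂ) ρ ⊆ ball (c : ℂ) (2 * r) := closedBall_subset_ball h2
  refine Complex.norm_le_of_forall_mem_frontier_norm_le (U := ball (c : ℂ) ρ) isBounded_ball ?_ ?_ (subset_closure (mem_ball.2 h1))
  · exact (hd.mono hsub).diffContOnCl_ball (le_refl _)
  · intro w hw
    rw [frontier_ball _ hρ0, mem_sphere] at hw
    have hwa : r / 2 ≤ ‖w - a‖ := by
      have h4 := dist_triangle w a (c : ℂ)
      rw [← dist_eq_norm]
      linarith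
    have hne : w ≠ a := by
      rintro rfl
      rw [sub_self, norm_zero] at hwa
      linarith
    rw [dslope_of_ne _ hne, slope, norm_smul, norm_inv, vsub_eq_sub]
    have h5 : ‖g w - g a‖ ≤ 2 * M := by
      have h6 := hM w (hsub (mem_closedBall.2 hw.le))
      have h7 := hM a hamem
      have h8 := norm_sub_le (g w) (g a)
      linarith
    calc ‖w - a‖⁻¹ * ‖g w - g a‖ ≤ (r / 2)⁻¹ * (2 * M) := by gcongr
      _ = M * (4 / r) := by field_simp; ring

/-- divided differences of the restriction of a holomorphic function -/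
theorem dd_hol {E : Type*} [NormedAddCommGroup E] [NormedSpace ℂ E] [CompleteSpace E] {c r : ℝ} (hr : 0 < r) {S : Finset ℝ} (hne : S.Nonempty)
    (hS : ∀ a ∈ S, |a - c| ≤ r) : ∀ {g : ℂ → E} {M : ℝ}, DifferentiableOn ℂ g (ball (c : ℂ) (2 * r)) →
    (∀ z ∈ ball (c : ℂ) (2 * r), ‖g z‖ ≤ M) → ‖dd S (fun t => g t)‖ ≤ M * (4 / r) ^ (S.card - 1) := by
  have hdist : ∀ a : ℝ, |a - c| ≤ r → dist (a : ℂ) (c : ℂ) ≤ r := by
    intro a ha
    rw [dist_eq_norm, ← Complex.ofReal_sub, Complex.norm_real]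
    exact ha
  induction hne using Finset.Nonempty.cons_induction with
  | singleton a =>
    intro g M hg hM
    rw [dd_singleton, Finset.card_singleton]
    simp only [Nat.sub_self, pow_zero, mul_one]
    exact hM _ (mem_ball.2 (lt_of_le_of_lt (hdist a (hS a (Finset.mem_singleton_self a))) (by linarith)))
  | cons a S ha hne ih =>
    intro g M hg hM
    rw [Finset.cons_eq_insert] at hS ⊢
    have hda := hdist a (hS a (Finset.mem_insert_self _ _))
    obtain ⟨h1, h2⟩ := dslope_bound hr hg hM hda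
    have h3 := ih (fun b hb => hS b (Finset.mem_insert_of_mem hb)) h1 h2
    rw [dd_slope _ ha hne, Finset.card_insert_of_notMem ha]
    have h4 : dd S (fun t => (t - a)⁻¹ • (g t - g a)) = dd S (fun t => dslope g (a : ℂ) (t : ℂ)) := by
      refine dd_congr fun b hb => ?_
      have hba : (b : ℂ) ≠ (a : ℂ) := by
        intro h
        exact ha ((Complex.ofReal_injective h) ▸ hb)
      rw [dslope_of_ne _ hba, slope, vsub_eq_sub, ← Complex.ofReal_sub, ← Complex.ofReal_inv, Complex.coe_smul]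
    rw [h4]
    refine h3.trans (le_of_eq ?_)
    have hcard : 1 ≤ S.card := hne.card_pos
    have : S.card + 1 - 1 = (S.card - 1) + 1 := by omega
    rw [this, pow_succ]
    ring

/-- the Newton polynomial -/
theorem dd_newton {E : Type*} [NormedAddCommGroup E] [NormedSpace ℂ E] {c r C : ℝ} (hr : 0 < r) (hr6 : 6 * r ≤ 1) (hC : 0 ≤ C) {S : Finset ℝ}
    (hne : S.Nonempty) (hS : ∀ a ∈ S, |a - c| ≤ r) : ∀ {f : ℝ → E}, (∀ T ⊆ S, T.Nonempty → ‖dd T f‖ ≤ C) → ∃ p : ℂ → E, Differentiable ℂ p ∧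
    (∀ a ∈ S, p a = f a) ∧ (∀ x : ℝ, x ∉ S → f x - p x = (∏ b ∈ S, (x - b)) • dd (insert x S) f) ∧
    (∀ ζ ∈ ball (c : ℂ) (2 * r), ‖p ζ‖ ≤ 2 * C) ∧ ∀ a ∈ S, ∀ ζ ∈ ball (c : ℂ) (2 * r), ‖p ζ - f a‖ ≤ 12 * r * C := by
  have hdist : ∀ a : ℝ, |a - c| ≤ r → dist (a : ℂ) (c : ℂ) ≤ r := by
    intro a ha
    rw [dist_eq_norm, ← Complex.ofReal_sub, Complex.norm_real]
    exact ha
  induction hne using Finset.Nonempty.cons_induction with
  | singleton a =>
    intro f hf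
    refine ⟨fun _ => f a, differentiable_const _, ?_, ?_, ?_, ?_⟩
    · intro b hb
      rw [Finset.mem_singleton.1 hb]
    · intro x hx
      have hxa : x ≠ a := fun h => hx (Finset.mem_singleton.2 h)
      have h1 : insert x ({a} : Finset ℝ) = insert a {x} := Finset.pair_comm x a
      rw [h1, dd_slope f (by simpa using hxa.symm) (Finset.singleton_nonempty x), dd_singleton, Finset.prod_singleton, smul_smul,
        mul_inv_cancel₀ (sub_ne_zero.2 hxa), one_smul]
    · intro ζ _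
      have := hf {a} le_rfl (Finset.singleton_nonempty a)
      rw [dd_singleton] at this
      linarith
    · intro b hb ζ _
      rw [Finset.mem_singleton.1 hb, sub_self, norm_zero]
      positivity
  | cons a S ha hne ih =>
    intro f hf
    rw [Finset.cons_eq_insert] at hf hS ⊢
    set g : ℝ → E := fun t => (t - a)⁻¹ • (f t - f a) with hg
    have hg' : ∀ T ⊆ S, T.Nonempty → ‖dd T g‖ ≤ C := by
      intro T hT hTne
      have haT : a ∉ T := fun h => ha (hT h)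
      rw [hg, ← dd_slope f haT hTne]
      exact hf _ (Finset.insert_subset_insert a hT) (Finset.insert_nonempty _ _)
    obtain ⟨q, hq, hqS, hqx, hqb, -⟩ := ih (fun b hb => hS b (Finset.mem_insert_of_mem hb)) hg'
    have hfa : ‖f a‖ ≤ C := by
      have := hf {a} (Finset.singleton_subset_iff.2 (Finset.mem_insert_self _ _)) (Finset.singleton_nonempty a)
      rwa [dd_singleton] at this
    have hda := hdist a (hS a (Finset.mem_insert_self _ _))
    have hza : ∀ ζ ∈ ball (c : ℂ) (2 * r), ‖ζ - a‖ ≤ 3 * r := by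
      intro ζ hζ
      rw [mem_ball] at hζ
      have := dist_triangle_right ζ (a : ℂ) (c : ℂ)
      rw [← dist_eq_norm]
      linarith
    have hpb : ∀ ζ ∈ ball (c : ℂ) (2 * r), ‖(ζ - a) • q ζ‖ ≤ 6 * r * C := by
      intro ζ hζ
      rw [norm_smul]
      calc ‖ζ - a‖ * ‖q ζ‖ ≤ 3 * r * (2 * C) := by
            have h1 := hza ζ hζ
            have h2 := hqb ζ hζ
            gcongr
        _ = 6 * r * C := by ring
    have hpS : ∀ b ∈ insert a S, f a + ((b : ℂ) - a) • q b = f b := by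
      intro b hb
      rcases Finset.mem_insert.1 hb with rfl | hbS
      · simp
      · have hba : b - a ≠ 0 := sub_ne_zero.2 (fun h => ha (h ▸ hbS))
        rw [hqS b hbS, hg, ← Complex.ofReal_sub, Complex.coe_smul, smul_smul, mul_inv_cancel₀ hba, one_smul]
        abel
    have hmem : ∀ b ∈ insert a S, (b : ℂ) ∈ ball (c : ℂ) (2 * r) := fun b hb =>
      mem_ball.2 (lt_of_le_of_lt (hdist b (hS b hb)) (by linarith))
    refine ⟨fun ζ => f a + (ζ - a) • q ζ, ?_, hpS, ?_, ?_, ?_⟩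
    · exact (differentiable_const _).add ((differentiable_id.sub_const _).smul hq)
    · intro x hx
      have hxa : x ≠ a := fun h => hx (h ▸ Finset.mem_insert_self _ _)
      have hxS : x ∉ S := fun h => hx (Finset.mem_insert_of_mem h)
      have hxa' : x - a ≠ 0 := sub_ne_zero.2 hxa
      have haxS : a ∉ insert x S := by
        rw [Finset.mem_insert]
        rintro (h | h)
        · exact hxa h.symm
        · exact ha h
      have h1 := hqx x hxS
      rw [Finset.insert_comm x a, dd_slope f haxS (Finset.insert_nonempty _ _), Finset.prod_insert ha, mul_smul, ← hg, ← h1, smul_sub, hg]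
      simp only
      rw [smul_smul, mul_inv_cancel₀ hxa', one_smul, ← Complex.ofReal_sub, Complex.coe_smul]
      abel
    · intro ζ hζ
      have h1 := hpb ζ hζ
      have h2 : 6 * r * C ≤ 1 * C := by gcongr
      have h3 := norm_add_le (f a) ((ζ - a) • q ζ)
      linarith
    · intro b hb ζ hζ
      have h1 := hpb ζ hζ
      have h2 := hpb b (hmem b hb)
      have h3 : f a + (ζ - a) • q ζ - f b = (ζ - a) • q ζ - ((b : ℂ) - a) • q b := by
        rw [← hpS b hb]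
        abel
      rw [h3]
      have h4 := norm_sub_le ((ζ - a) • q ζ) (((b : ℂ) - a) • q b)
      linarith

/-- Lipschitz bound for a bounded holomorphic function -/
theorem hol_lip {E F : Type*} [NormedAddCommGroup E] [NormedSpace ℂ E] [NormedAddCommGroup F] [NormedSpace ℂ F] {R M : ℝ} (hR : 0 < R)
    {t₀ : E} {c : ℂ} {Ψ : E × ℂ → F} (hd : DifferentiableOn ℂ Ψ (ball (t₀, c) R)) (hM : ∀ q ∈ ball (t₀, c) R, ‖Ψ q‖ ≤ M) {t t' : E} {s : ℂ}
    (ht : ‖t - t₀‖ ≤ R / 4) (ht' : ‖t' - t₀‖ ≤ R / 4) (hs : dist s c < R) : ‖Ψ (t, s) - Ψ (t', s)‖ ≤ 4 * M / R * ‖t - t'‖ := by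
  have hM0 : 0 ≤ M := (norm_nonneg _).trans (hM (t₀, c) (mem_ball_self hR))
  by_cases htt : t = t'
  · rw [htt, sub_self, norm_zero, sub_self, norm_zero, mul_zero]
  have hn : 0 < ‖t - t'‖ := norm_pos_iff.2 (sub_ne_zero.2 htt)
  have hn2 : ‖t - t'‖ ≤ R / 2 := by
    have : t - t' = (t - t₀) - (t' - t₀) := by abel
    rw [this]
    have := norm_sub_le (t - t₀) (t' - t₀)
    linarith
  set ρ : ℝ := 3 / 4 * R / ‖t - t'‖ with hρ
  have hρ1 : 1 < ρ := by
    rw [hρ, lt_div_iff₀ hn]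
    linarith
  have hmap : ∀ l ∈ ball (0 : ℂ) ρ, (t' + l • (t - t'), s) ∈ ball (t₀, c) R := by
    intro l hl
    rw [mem_ball_zero_iff, hρ, lt_div_iff₀ hn] at hl
    rw [mem_ball, Prod.dist_eq, max_lt_iff]
    refine ⟨?_, hs⟩
    rw [dist_eq_norm]
    have : t' + l • (t - t') - t₀ = (t' - t₀) + l • (t - t') := by abel
    rw [this]
    refine (norm_add_le _ _).trans_lt ?_
    rw [norm_smul]
    linarith
  set φ : ℂ → F := fun l => Ψ (t' + l • (t - t'), s) with hφ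
  have hφd : DifferentiableOn ℂ φ (ball 0 ρ) := by
    refine hd.comp (f := fun l : ℂ => (t' + l • (t - t'), s)) ?_ hmap
    fun_prop
  have hmt : Set.MapsTo φ (ball 0 ρ) (closedBall (φ 0) (2 * M)) := by
    intro l hl
    rw [mem_closedBall, dist_eq_norm]
    have h1 := hM _ (hmap l hl)
    have h2 := hM _ (hmap 0 (mem_ball_self (by linarith)))
    have h3 := norm_sub_le (φ l) (φ 0)
    have h1' : ‖φ l‖ ≤ M := h1
    have h2' : ‖φ 0‖ ≤ M := h2
    linarith
  have h1 := Complex.dist_le_div_mul_dist_of_mapsTo_ball hφd hmt (z := 1) (by rw [mem_ball_zero_iff, norm_one]; exact hρ1)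
  have e1 : φ 1 = Ψ (t, s) := by
    simp only [hφ, one_smul]
    congr 2
    abel
  have e0 : φ 0 = Ψ (t', s) := by
    simp only [hφ, zero_smul, add_zero]
  rw [e1, e0, dist_eq_norm, dist_zero_right, norm_one, mul_one] at h1
  refine h1.trans ?_
  have e2 : 2 * M / ρ = 8 / 3 * (M / R * ‖t - t'‖) := by
    rw [hρ]
    field_simp
    ring
  have e3 : 4 * M / R * ‖t - t'‖ = 4 * (M / R * ‖t - t'‖) := by ring
  have e4 : 0 ≤ M / R * ‖t - t'‖ := by positivity
  rw [e2, e3]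
  linarith

/-- composition with a holomorphic function -/
theorem dd_comp {E F : Type*} [NormedAddCommGroup E] [NormedSpace ℂ E] [NormedAddCommGroup F] [NormedSpace ℂ F] [CompleteSpace F] (m : ℕ)
    {R M C : ℝ} (hR : 0 < R) (hM : 0 ≤ M) (hC : 0 ≤ C) : ∃ r C' : ℝ, 0 < r ∧ 0 ≤ C' ∧ ∀ (t₀ : E) (c : ℝ) (Ψ : E × ℂ → F),
    DifferentiableOn ℂ Ψ (ball (t₀, (c : ℂ)) R) → (∀ q ∈ ball (t₀, (c : ℂ)) R, ‖Ψ q‖ ≤ M) → ∀ (t : ℝ → E) (S : Finset ℝ), S.card = m + 2 →
    (∀ a ∈ S, |a - c| ≤ r) → (∀ a ∈ S, ‖t a - t₀‖ ≤ R / 8) → (∀ T ⊆ S, T.Nonempty → T.card ≤ m + 1 → ‖dd T t‖ ≤ C) →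
    ‖dd S (fun s => Ψ (t s, (s : ℂ)))‖ ≤ C' * (‖dd S t‖ + 1) := by
  set r : ℝ := min (1 / 6) (min (R / 16) (R / (96 * (C + 1)))) with hr
  have hr0 : 0 < r := by positivity
  have hr1 : 6 * r ≤ 1 := by
    have := min_le_left (1 / 6) (min (R / 16) (R / (96 * (C + 1))))
    linarith
  have hr2 : 2 * r ≤ R / 8 := by
    have h1 := min_le_right (1 / 6) (min (R / 16) (R / (96 * (C + 1))))
    have h2 := min_le_left (R / 16) (R / (96 * (C + 1)))
    linarith
  have hr3 : 12 * r * C ≤ R / 8 := by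
    have h1 := min_le_right (1 / 6) (min (R / 16) (R / (96 * (C + 1))))
    have h2 := min_le_right (R / 16) (R / (96 * (C + 1)))
    have h3 : r ≤ R / (96 * (C + 1)) := h1.trans h2
    rw [le_div_iff₀ (by positivity)] at h3
    nlinarith
  refine ⟨r, 4 * M / R + M * (4 / r) ^ (m + 1), hr0, by positivity, ?_⟩
  intro t₀ c Ψ hd hb t S hcard hS ht hdd
  have hSne : S.Nonempty := by
    rw [← Finset.card_pos, hcard]
    omega
  obtain ⟨a, ha⟩ := hSne
  obtain ⟨S', haS', rfl⟩ : ∃ S', a ∉ S' ∧ insert a S' = S := ⟨S.erase a, Finset.notMem_erase a S, Finset.insert_erase ha⟩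
  have hcard' : S'.card = m + 1 := by
    rw [Finset.card_insert_of_notMem haS'] at hcard
    omega
  have hS'ne : S'.Nonempty := by
    rw [← Finset.card_pos, hcard']
    omega
  obtain ⟨p, hp, hpS, hpx, -, hpb⟩ := dd_newton (c := c) hr0 hr1 hC hS'ne (fun b hb => hS b (Finset.mem_insert_of_mem hb)) (f := t)
    (fun T hT hTne => hdd T (hT.trans (Finset.subset_insert a S')) hTne ((Finset.card_le_card hT).trans hcard'.le))
  obtain ⟨b₀, hb₀⟩ := hS'ne
  have hp0 : ∀ ζ ∈ ball (c : ℂ) (2 * r), ‖p ζ - t₀‖ ≤ R / 4 := by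
    intro ζ hζ
    have h1 := hpb b₀ hb₀ ζ hζ
    have h2 := ht b₀ (Finset.mem_insert_of_mem hb₀)
    have : p ζ - t₀ = (p ζ - t b₀) + (t b₀ - t₀) := by abel
    rw [this]
    have := norm_add_le (p ζ - t b₀) (t b₀ - t₀)
    linarith
  have hmem : ∀ ζ ∈ ball (c : ℂ) (2 * r), (p ζ, ζ) ∈ ball (t₀, (c : ℂ)) R := by
    intro ζ hζ
    rw [mem_ball, Prod.dist_eq, max_lt_iff]
    refine ⟨?_, ?_⟩
    · rw [dist_eq_norm]
      have := hp0 ζ hζ
      linarith
    · rw [mem_ball] at hζ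
      linarith
  have hgd : DifferentiableOn ℂ (fun ζ => Ψ (p ζ, ζ)) (ball (c : ℂ) (2 * r)) := by
    refine hd.comp (f := fun ζ : ℂ => (p ζ, ζ)) ?_ hmem
    exact (hp.differentiableOn).prodMk differentiableOn_id
  have h1 := dd_hol hr0 (Finset.insert_nonempty a S') hS hgd (fun z hz => hb _ (hmem z hz))
  have hac : (a : ℂ) ∈ ball (c : ℂ) (2 * r) := by
    rw [mem_ball, dist_eq_norm, ← Complex.ofReal_sub, Complex.norm_real]
    have := hS a (Finset.mem_insert_self _ _)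
    rw [Real.norm_eq_abs]
    linarith
  -- the difference
  have hpi : (∏ b ∈ S', (a - b)) ≠ 0 := by
    rw [Finset.prod_ne_zero_iff]
    intro b hb
    exact sub_ne_zero.2 fun h => haS' (h ▸ hb)
  have h2 : dd (insert a S') (fun s => Ψ (t s, (s : ℂ))) - dd (insert a S') (fun s => Ψ (p s, (s : ℂ))) =
      ((∏ b ∈ S', (a - b))⁻¹ : ℝ) • (Ψ (t a, (a : ℂ)) - Ψ (p a, (a : ℂ))) := by
    rw [← dd_sub]
    unfold dd
    rw [Finset.sum_insert haS', Finset.erase_insert haS']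
    rw [Finset.sum_eq_zero (s := S'), add_zero]
    intro b hb
    simp only [hpS b hb, sub_self, smul_zero]
  have h3 : ‖Ψ (t a, (a : ℂ)) - Ψ (p a, (a : ℂ))‖ ≤ 4 * M / R * ‖t a - p a‖ := by
    refine hol_lip hR hd hb ?_ (hp0 _ hac) ?_
    · have := ht a (Finset.mem_insert_self _ _)
      linarith
    · rw [mem_ball] at hac
      linarith
  have h4 : ‖t a - p a‖ = |∏ b ∈ S', (a - b)| * ‖dd (insert a S') t‖ := by
    rw [hpx a haS', norm_smul, Real.norm_eq_abs]
  have h5 : ‖dd (insert a S') (fun s => Ψ (t s, (s : ℂ))) - dd (insert a S') (fun s => Ψ (p s, (s : ℂ)))‖ ≤ 4 * M / R * ‖dd (insert a S') t‖ := by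
    rw [h2, norm_smul, norm_inv, Real.norm_eq_abs]
    rw [h4] at h3
    have hpos : 0 < |∏ b ∈ S', (a - b)| := abs_pos.2 hpi
    calc |∏ b ∈ S', (a - b)|⁻¹ * ‖Ψ (t a, (a : ℂ)) - Ψ (p a, (a : ℂ))‖
        ≤ |∏ b ∈ S', (a - b)|⁻¹ * (4 * M / R * (|∏ b ∈ S', (a - b)| * ‖dd (insert a S') t‖)) := by gcongr
      _ = 4 * M / R * ‖dd (insert a S') t‖ := by field_simp
  have h6 : ‖dd (insert a S') (fun s => Ψ (t s, (s : ℂ)))‖ ≤
      ‖dd (insert a S') (fun s => Ψ (t s, (s : ℂ))) - dd (insert a S') (fun s => Ψ (p s, (s : ℂ)))‖ + ‖dd (insert a S') (fun s => Ψ (p s, (s : ℂ)))‖ := by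
    have := norm_add_le (dd (insert a S') (fun s => Ψ (t s, (s : ℂ))) - dd (insert a S') (fun s => Ψ (p s, (s : ℂ)))) (dd (insert a S') (fun s => Ψ (p s, (s : ℂ))))
    rwa [sub_add_cancel] at this
  have h7 : (insert a S').card - 1 = m + 1 := by omega
  rw [h7] at h1
  have h8 : 0 ≤ M * (4 / r) ^ (m + 1) := by positivity
  have h9 : 0 ≤ 4 * M / R := by positivity
  have h10 := norm_nonneg (dd (insert a S') t)
  nlinarith

end Pool.Agent.G3.A

end

section

/-!
# G3 R DD: divided differences, basic properties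

`dd_succ`: the recursion.  `np_node`: the Newton polynomial interpolates.  `sub_np`: the error at the next node.
`dd_cauchy`: `g [σ 0, …, σ m] = (2 π i)⁻¹ ∮ g ζ / ∏ (ζ - σ i) dζ` over the circles of radius `ρ < 2 r` (the divided difference of `s ↦ (ζ - s)⁻¹` is `∏ (ζ - σ i)⁻¹`;
Cauchy's formula; linearity), `ρ → 2 r`.  Most statements are reduced to the ones for `Pool.Agent.G3.A.dd` (nodes in a `Finset`) by `dd_eq`.
-/

set_option autoImplicit false

open Finset Metric Set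

namespace Pool.Agent.G3.R

variable {E : Type*} [AddCommGroup E] [Module ℂ E]

theorem dd_congr {m : ℕ} {σ : ℕ → ℝ} {f g : ℝ → E} (h : ∀ i ≤ m, f (σ i) = g (σ i)) : dd m σ f = dd m σ g := by
  unfold dd
  exact Finset.sum_congr rfl fun i hi => by rw [h i (Nat.lt_succ_iff.1 (Finset.mem_range.1 hi))]

theorem dd_zero (σ : ℕ → ℝ) (f : ℝ → E) : dd 0 σ f = f (σ 0) := by
  unfold dd dw
  simp

theorem dd_sub (m : ℕ) (σ : ℕ → ℝ) (f g : ℝ → E) : dd m σ (fun s => f s - g s) = dd m σ f - dd m σ g := by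
  unfold dd
  rw [← Finset.sum_sub_distrib]
  exact Finset.sum_congr rfl fun i _ => by rw [smul_sub]

theorem dd_map {E' : Type*} [AddCommGroup E'] [Module ℂ E'] (L : E →ₗ[ℂ] E') (m : ℕ) (σ : ℕ → ℝ) (f : ℝ → E) : dd m σ (fun s => L (f s)) = L (dd m σ f) := by
  unfold dd
  rw [map_sum]
  exact Finset.sum_congr rfl fun i _ => by rw [map_smul]

/-- comparison with the divided differences for sets of nodes -/
theorem dd_eq {m : ℕ} {σ : ℕ → ℝ} (hσ : ∀ i ≤ m, ∀ j ≤ m, σ i = σ j → i = j) (f : ℝ → E) : dd m σ f = A.dd ((range (m + 1)).image σ) f := by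
  have hinj : Set.InjOn σ (range (m + 1) : Finset ℕ) := by
    intro i hi j hj hij
    rw [Finset.mem_coe, Finset.mem_range] at hi hj
    exact hσ i (by omega) j (by omega) hij
  unfold dd A.dd
  rw [Finset.sum_image hinj]
  refine Finset.sum_congr rfl fun i hi => ?_
  rw [Complex.coe_smul]
  congr 1
  unfold dw
  have h1 : ((range (m + 1)).image σ).erase (σ i) = ((range (m + 1)).erase i).image σ := by
    ext x
    simp only [Finset.mem_erase, Finset.mem_image, ne_eq]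
    constructor
    · rintro ⟨h2, j, hj, rfl⟩
      exact ⟨j, ⟨fun h => h2 (by rw [h]), hj⟩, rfl⟩
    · rintro ⟨j, ⟨hji, hj⟩, rfl⟩
      exact ⟨fun h => hji (hinj hj hi h), j, hj, rfl⟩
  rw [h1, Finset.prod_image (fun a ha b hb hab => hinj (Finset.erase_subset _ _ ha) (Finset.erase_subset _ _ hb) hab), Finset.prod_inv_distrib]

theorem Nod.tail {m : ℕ} {σ : ℕ → ℝ} {r : ℝ} (hσ : Nod (m + 1) σ r) : Nod m (fun i => σ (i + 1)) r :=
  ⟨fun i hi j hj hij => by
    have := hσ.inj (i + 1) (by omega) (j + 1) (by omega) hij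
    omega, fun i hi => hσ.le (i + 1) (by omega)⟩

theorem image_range_succ (m : ℕ) (σ : ℕ → ℝ) : (range (m + 1)).image σ = insert (σ 0) ((range m).image fun i => σ (i + 1)) := by
  rw [Finset.range_eq_Ico, ← Finset.insert_Ico_add_one_left_eq_Ico (by omega : 0 < m + 1), Finset.image_insert]
  congr 1
  ext x
  simp only [Finset.mem_image, Finset.mem_Ico, Finset.mem_range]
  constructor
  · rintro ⟨i, ⟨h1, h2⟩, rfl⟩
    exact ⟨i - 1, by omega, by congr 1; omega⟩
  · rintro ⟨i, hi, rfl⟩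
    exact ⟨i + 1, by omega, rfl⟩

theorem Nod.zero_notMem {m : ℕ} {σ : ℕ → ℝ} {r : ℝ} (hσ : Nod m σ r) : σ 0 ∉ (range m).image fun i => σ (i + 1) := by
  rw [Finset.mem_image]
  rintro ⟨i, hi, h⟩
  rw [Finset.mem_range] at hi
  have := hσ.inj (i + 1) (by omega) 0 (by omega) h
  omega

theorem Nod.last_notMem {m : ℕ} {σ : ℕ → ℝ} {r : ℝ} (hσ : Nod m σ r) : σ m ∉ (range m).image σ := by
  rw [Finset.mem_image]
  rintro ⟨i, hi, h⟩
  rw [Finset.mem_range] at hi
  have := hσ.inj i (by omega) m (by omega) h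
  omega

/-- the recursion -/
theorem dd_succ {m : ℕ} {σ : ℕ → ℝ} {r : ℝ} (hσ : Nod (m + 1) σ r) (f : ℝ → E) :
    dd (m + 1) σ f = (((σ (m + 1) - σ 0)⁻¹ : ℝ) : ℂ) • (dd m (fun i => σ (i + 1)) f - dd m σ f) := by
  rw [dd_eq hσ.inj, dd_eq hσ.tail.inj, dd_eq (hσ.mono (Nat.le_succ m) le_rfl).inj, Complex.coe_smul]
  set S₀ : Finset ℝ := (range m).image fun i => σ (i + 1) with hS₀
  have e1 : (range (m + 1)).image (fun i => σ (i + 1)) = insert (σ (m + 1)) S₀ := by
    rw [Finset.range_add_one, Finset.image_insert]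
  have e2 : (range (m + 1)).image σ = insert (σ 0) S₀ := image_range_succ m σ
  have e3 : (range (m + 1 + 1)).image σ = insert (σ 0) (insert (σ (m + 1)) S₀) := by
    rw [image_range_succ (m + 1) σ, e1]
  rw [e1, e2, e3]
  refine A.dd_insert_insert ?_ ?_ ?_ f
  · intro h
    have := hσ.inj 0 (by omega) (m + 1) (by omega) h
    omega
  · exact (hσ.mono (Nat.le_succ m) le_rfl).zero_notMem
  · exact hσ.tail.last_notMem

/-- the divided difference of the slopes -/
theorem dd_slope {m : ℕ} {σ : ℕ → ℝ} {r : ℝ} (hσ : Nod (m + 1) σ r) (f : ℝ → E) :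
    dd (m + 1) σ f = dd m (fun i => σ (i + 1)) (fun t => (t - σ 0)⁻¹ • (f t - f (σ 0))) := by
  rw [dd_eq hσ.inj, dd_eq hσ.tail.inj, image_range_succ (m + 1) σ]
  exact A.dd_slope f hσ.zero_notMem ⟨_, Finset.mem_image_of_mem _ (Finset.mem_range.2 (Nat.succ_pos m))⟩

/-- the Newton polynomial in terms of the slopes -/
theorem np_succ {m : ℕ} {σ : ℕ → ℝ} {r : ℝ} (hσ : Nod (m + 1) σ r) (f : ℝ → E) (ζ : ℂ) :
    np (m + 1) σ f ζ = f (σ 0) + (ζ - (σ 0 : ℂ)) • np m (fun i => σ (i + 1)) (fun t => (t - σ 0)⁻¹ • (f t - f (σ 0))) ζ := by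
  unfold np
  rw [Finset.sum_range_succ', Finset.prod_range_zero, one_smul, dd_zero, add_comm, Finset.smul_sum]
  congr 1
  refine Finset.sum_congr rfl fun j hj => ?_
  rw [Finset.mem_range] at hj
  rw [dd_slope (hσ.mono (by omega) le_rfl), smul_smul, Finset.prod_range_succ']
  congr 1
  ring

/-- the error of the Newton polynomial at the next node -/
theorem sub_np {m : ℕ} {σ : ℕ → ℝ} {r : ℝ} (hσ : Nod (m + 1) σ r) (f : ℝ → E) :
    f (σ (m + 1)) - np m σ f (σ (m + 1) : ℂ) = (∏ i ∈ range (m + 1), ((σ (m + 1) : ℂ) - (σ i : ℂ))) • dd (m + 1) σ f := by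
  induction m generalizing σ f with
  | zero =>
    have hne : σ 1 - σ 0 ≠ 0 := by
      intro h
      have := hσ.inj 1 le_rfl 0 (by omega) (by linarith)
      omega
    have h1 : np 0 σ f (σ (0 + 1) : ℂ) = f (σ 0) := by
      unfold np
      simp [dd_zero]
    rw [h1, dd_slope hσ, dd_zero, Finset.prod_range_one, ← Complex.ofReal_sub, Complex.coe_smul, smul_smul]
    simp only [zero_add]
    rw [mul_inv_cancel₀ hne, one_smul]
  | succ m ih =>
    have hne : σ (m + 2) - σ 0 ≠ 0 := by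
      intro h
      have := hσ.inj (m + 2) le_rfl 0 (by omega) (by linarith)
      omega
    have h1 := ih hσ.tail (fun t => (t - σ 0)⁻¹ • (f t - f (σ 0)))
    rw [np_succ (hσ.mono (by omega) le_rfl), dd_slope hσ, Finset.prod_range_succ', mul_comm, mul_smul, ← h1, smul_sub]
    simp only [← Complex.ofReal_sub, Complex.coe_smul]
    rw [smul_smul, mul_inv_cancel₀ hne, one_smul]
    abel

/-- the Newton polynomial interpolates -/
theorem np_node {m : ℕ} {σ : ℕ → ℝ} {r : ℝ} (hσ : Nod m σ r) (f : ℝ → E) {i : ℕ} (hi : i ≤ m) : np m σ f (σ i : ℂ) = f (σ i) := by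
  have h1 : np m σ f (σ i : ℂ) = np i σ f (σ i : ℂ) := by
    unfold np
    symm
    refine Finset.sum_subset (Finset.range_subset_range.2 (by omega)) fun j _ hj => ?_
    rw [Finset.mem_range, not_lt] at hj
    rw [Finset.prod_eq_zero (Finset.mem_range.2 (by omega : i < j)) (sub_self _), zero_smul]
  rw [h1]
  rcases i with _ | i
  · unfold np
    simp [dd_zero]
  · have h2 := sub_np (hσ.mono hi le_rfl) f
    have h3 : np (i + 1) σ f (σ (i + 1) : ℂ) = np i σ f (σ (i + 1) : ℂ) + (∏ l ∈ range (i + 1), ((σ (i + 1) : ℂ) - (σ l : ℂ))) • dd (i + 1) σ f := by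
      unfold np
      rw [Finset.sum_range_succ]
    rw [h3, ← h2]
    abel

/-- if `f = g` at the nodes `σ 0, …, σ m`, then the divided differences of order `m + 1` differ by a multiple of the difference at the last node -/
theorem dd_last {m : ℕ} {σ : ℕ → ℝ} {f g : ℝ → E} (h : ∀ i ≤ m, f (σ i) = g (σ i)) :
    dd (m + 1) σ f - dd (m + 1) σ g = (∏ i ∈ range (m + 1), ((σ (m + 1) : ℂ) - (σ i : ℂ))⁻¹) • (f (σ (m + 1)) - g (σ (m + 1))) := by
  rw [← dd_sub]
  unfold dd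
  rw [Finset.sum_range_succ, Finset.sum_eq_zero (s := range (m + 1)), zero_add]
  · congr 1
    unfold dw
    rw [Finset.range_add_one (n := m + 1), Finset.erase_insert Finset.notMem_range_self, Complex.ofReal_prod]
    exact Finset.prod_congr rfl fun i _ => by rw [Complex.ofReal_inv, Complex.ofReal_sub]
  · intro i hi
    rw [Finset.mem_range] at hi
    show _ • (f (σ i) - g (σ i)) = 0
    rw [h i (by omega), sub_self, smul_zero]

/-- the divided differences of `s ↦ (ζ - s)⁻¹` -/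
theorem dd_inv {ζ : ℂ} : ∀ {m : ℕ} {σ : ℕ → ℝ} {r : ℝ}, Nod m σ r → (∀ i ≤ m, ζ ≠ (σ i : ℂ)) →
    dd m σ (fun s : ℝ => (ζ - (s : ℂ))⁻¹) = ∏ i ∈ range (m + 1), (ζ - (σ i : ℂ))⁻¹ := by
  intro m
  induction m with
  | zero =>
    intro σ r _ _
    rw [dd_zero, Finset.prod_range_one]
  | succ m ih =>
    intro σ r hσ hζ
    have h0 : ζ - (σ 0 : ℂ) ≠ 0 := sub_ne_zero.2 (hζ 0 (by omega))
    have h1 : dd m (fun i => σ (i + 1)) (fun t : ℝ => (t - σ 0)⁻¹ • ((ζ - (t : ℂ))⁻¹ - (ζ - (σ 0 : ℂ))⁻¹)) =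
        dd m (fun i => σ (i + 1)) (fun t : ℝ => (LinearMap.mulLeft ℂ (ζ - (σ 0 : ℂ))⁻¹) ((ζ - (t : ℂ))⁻¹)) := by
      refine dd_congr fun i hi => ?_
      have h2 : ζ - (σ (i + 1) : ℂ) ≠ 0 := sub_ne_zero.2 (hζ (i + 1) (by omega))
      have h3 : (σ (i + 1) : ℂ) - (σ 0 : ℂ) ≠ 0 := by
        rw [← Complex.ofReal_sub, Complex.ofReal_ne_zero]
        intro h
        have := hσ.inj (i + 1) (by omega) 0 (by omega) (by linarith)
        omega
      rw [← Complex.coe_smul, Complex.ofReal_inv, Complex.ofReal_sub, smul_eq_mul, LinearMap.mulLeft_apply]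
      field_simp
      ring
    rw [dd_slope hσ, h1, dd_map, ih hσ.tail (fun i hi => hζ (i + 1) (by omega)), LinearMap.mulLeft_apply, Finset.prod_range_succ' _ (m + 1), mul_comm]

/-- divided differences of holomorphic functions are bounded -/
theorem dd_cauchy {F : Type*} [NormedAddCommGroup F] [NormedSpace ℂ F] [CompleteSpace F] {g : ℂ → F} {r M : ℝ} (hr : 0 < r) (hg : DifferentiableOn ℂ g (ball 0 (2 * r)))
    (hM : ∀ ζ ∈ ball (0 : ℂ) (2 * r), ‖g ζ‖ ≤ M) {m : ℕ} {σ : ℕ → ℝ} (hσ : Nod m σ r) : ‖dd m σ (fun s : ℝ => g (s : ℂ))‖ ≤ M * 2 / r ^ m := by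
  have hM0 : 0 ≤ M := (norm_nonneg _).trans (hM 0 (mem_ball_self (by linarith)))
  have key : ∀ ρ : ℝ, r < ρ → ρ < 2 * r → ‖dd m σ (fun s : ℝ => g (s : ℂ))‖ ≤ ρ * (M / (ρ - r) ^ (m + 1)) := by
    intro ρ h1 h2
    have hρ : 0 < ρ := by linarith
    have hnorm : ∀ i ≤ m, ‖(σ i : ℂ)‖ ≤ r := fun i hi => by
      rw [Complex.norm_real]
      exact hσ.le i hi
    have hball : ∀ i ≤ m, (σ i : ℂ) ∈ ball (0 : ℂ) ρ := fun i hi => by
      rw [mem_ball_zero_iff]
      exact (hnorm i hi).trans_lt h1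
    have hsub : closedBall (0 : ℂ) ρ ⊆ ball 0 (2 * r) := closedBall_subset_ball h2
    have hgc : DifferentiableOn ℂ g (closedBall 0 ρ) := hg.mono hsub
    have hC : ∀ i ≤ m, ((2 * Real.pi * Complex.I : ℂ)⁻¹ • ∮ z in C(0, ρ), (z - (σ i : ℂ))⁻¹ • g z) = g (σ i : ℂ) := fun i hi =>
      Complex.two_pi_I_inv_smul_circleIntegral_sub_inv_smul_of_differentiable_on_off_countable Set.countable_empty (hball i hi) hgc.continuousOn
        fun x hx => hgc.differentiableAt (closedBall_mem_nhds_of_mem hx.1)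
    have hne : ∀ i ≤ m, ∀ z ∈ sphere (0 : ℂ) ρ, z ≠ (σ i : ℂ) := by
      rintro i hi z hz rfl
      rw [mem_sphere_zero_iff_norm] at hz
      have := hnorm i hi
      linarith
    have hint : ∀ i ∈ range (m + 1), CircleIntegrable (fun z => ((dw m σ i : ℝ) : ℂ) • ((z - (σ i : ℂ))⁻¹ • g z)) 0 ρ := by
      intro i hi
      rw [Finset.mem_range] at hi
      refine ContinuousOn.circleIntegrable hρ.le ?_
      have hc1 : ContinuousOn (fun z : ℂ => (z - (σ i : ℂ))⁻¹) (sphere 0 ρ) :=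
        (continuousOn_id.sub continuousOn_const).inv₀ fun z hz => sub_ne_zero.2 (hne i (by omega) z hz)
      exact (hc1.smul (hgc.continuousOn.mono sphere_subset_closedBall)).const_smul _
    have h3 : dd m σ (fun s : ℝ => g (s : ℂ)) = (2 * Real.pi * Complex.I : ℂ)⁻¹ • ∮ z in C(0, ρ), (∏ i ∈ range (m + 1), (z - (σ i : ℂ))⁻¹) • g z := by
      have h4 : dd m σ (fun s : ℝ => g (s : ℂ)) = dd m σ (fun s : ℝ => (2 * Real.pi * Complex.I : ℂ)⁻¹ • ∮ z in C(0, ρ), (z - (s : ℂ))⁻¹ • g z) :=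
        dd_congr fun i hi => (hC i hi).symm
      rw [h4]
      unfold dd
      have h5 : ∀ i ∈ range (m + 1), ((dw m σ i : ℝ) : ℂ) • ((2 * Real.pi * Complex.I : ℂ)⁻¹ • ∮ z in C(0, ρ), (z - (σ i : ℂ))⁻¹ • g z) =
          (2 * Real.pi * Complex.I : ℂ)⁻¹ • ∮ z in C(0, ρ), ((dw m σ i : ℝ) : ℂ) • ((z - (σ i : ℂ))⁻¹ • g z) := by
        intro i _
        rw [circleIntegral.integral_smul, smul_comm]
      rw [Finset.sum_congr rfl h5, ← Finset.smul_sum, ← circleIntegral.integral_fun_sum hint]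
      congr 1
      refine circleIntegral.integral_congr hρ.le fun z hz => ?_
      have h6 := dd_inv hσ (fun i hi => hne i hi z hz)
      unfold dd at h6
      rw [← h6, Finset.sum_smul]
      refine Finset.sum_congr rfl fun i _ => ?_
      rw [smul_assoc]
    rw [h3]
    refine circleIntegral.norm_two_pi_i_inv_smul_integral_le_of_norm_le_const hρ.le fun z hz => ?_
    rw [norm_smul, norm_prod]
    have h7 : ∏ i ∈ range (m + 1), ‖(z - (σ i : ℂ))⁻¹‖ ≤ ∏ _i ∈ range (m + 1), (ρ - r)⁻¹ := by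
      refine Finset.prod_le_prod (fun i _ => norm_nonneg _) fun i hi => ?_
      rw [Finset.mem_range] at hi
      rw [norm_inv]
      have h8 : ρ - r ≤ ‖z - (σ i : ℂ)‖ := by
        have h9 := norm_sub_norm_le z (σ i : ℂ)
        rw [mem_sphere_zero_iff_norm] at hz
        have h10 := hnorm i (by omega)
        linarith
      exact inv_anti₀ (by linarith) h8
    rw [Finset.prod_const, Finset.card_range, inv_pow] at h7
    have h8 := hM z (hsub (sphere_subset_closedBall hz))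
    have h9 : 0 < (ρ - r) ^ (m + 1) := pow_pos (by linarith) _
    calc (∏ i ∈ range (m + 1), ‖(z - (σ i : ℂ))⁻¹‖) * ‖g z‖ ≤ ((ρ - r) ^ (m + 1))⁻¹ * M := by gcongr
      _ = M / (ρ - r) ^ (m + 1) := by rw [div_eq_mul_inv, mul_comm]
  -- `ρ → 2 r`
  have hlim : Filter.Tendsto (fun ρ : ℝ => ρ * (M / (ρ - r) ^ (m + 1))) (nhdsWithin (2 * r) (Set.Iio (2 * r))) (nhds (2 * r * (M / (2 * r - r) ^ (m + 1)))) := by
    have hne : (2 * r - r) ^ (m + 1) ≠ 0 := pow_ne_zero _ (by linarith)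
    have hc : ContinuousAt (fun ρ : ℝ => ρ * (M / (ρ - r) ^ (m + 1))) (2 * r) := by
      have h1 : ContinuousAt (fun ρ : ℝ => (ρ - r) ^ (m + 1)) (2 * r) := by fun_prop
      exact continuousAt_id.mul (continuousAt_const.div h1 hne)
    exact hc.tendsto.mono_left nhdsWithin_le_nhds
  have h1 : ‖dd m σ (fun s : ℝ => g (s : ℂ))‖ ≤ 2 * r * (M / (2 * r - r) ^ (m + 1)) := by
    refine ge_of_tendsto hlim ?_
    have h2 : ∀ᶠ ρ in nhdsWithin (2 * r) (Set.Iio (2 * r)), r < ρ := (lt_mem_nhds (by linarith)).filter_mono nhdsWithin_le_nhds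
    filter_upwards [h2, self_mem_nhdsWithin] with ρ a1 a2
    exact key ρ a1 a2
  refine h1.trans (le_of_eq ?_)
  have h2 : 2 * r - r = r := by ring
  rw [h2, pow_succ]
  field_simp

end Pool.Agent.G3.R

end

section

/-!
# G3 R Comp: divided differences of a composition

`Ψ (x, ζ)` holomorphic and bounded by `M` on `ball x₀ R × ball 0 R`, `f` a function of a real variable with values in `ball x₀ (R / 4)` at the nodes, whose divided differences of the orders `≤ m`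
are bounded by `C`.  Let `p = np m σ f`; if `r` is small, `p ζ ∈ ball x₀ (R / 2)` for `|ζ| < 2 r`, `Ψ (p ζ, ζ)` is holomorphic: `dd_cauchy`.  At the nodes `σ 0, …, σ m` it agrees with `Ψ (f s, s)`:
`dd_last`, `sub_np`, and `Ψ (·, ζ)` is Lipschitz on `ball x₀ (R / 2)` with the constant `4 M / R` (Cauchy's estimate).
-/

set_option autoImplicit false

open Finset Metric Set

namespace Pool.Agent.G3.R

/-- `Ψ (·, ζ)` is Lipschitz -/
theorem lip_comp {E F : Type*} [NormedAddCommGroup E] [NormedSpace ℂ E] [NormedAddCommGroup F] [NormedSpace ℂ F] {Ψ : E → F} {x₀ : E} {R M : ℝ} (hR : 0 < R)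
    (hΨ : DifferentiableOn ℂ Ψ (ball x₀ R)) (hM : ∀ x ∈ ball x₀ R, ‖Ψ x‖ ≤ M) {x y : E} (hx : x ∈ ball x₀ (R / 2)) (hy : y ∈ ball x₀ (R / 2)) :
    ‖Ψ x - Ψ y‖ ≤ 4 * M / R * ‖x - y‖ := by
  rcases eq_or_ne x y with rfl | hxy
  · simp only [sub_self, norm_zero, mul_zero, le_refl]
  have hv : 0 < ‖x - y‖ := norm_pos_iff.mpr (sub_ne_zero.mpr hxy)
  set v := x - y with hvdef
  have hseg : ∀ t ∈ Icc (0 : ℝ) 1, y + (t : ℂ) • v ∈ ball x₀ (R / 2) := by
    intro t ht
    have h1 := (convex_ball x₀ (R / 2)).add_smul_sub_mem hy hx ht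
    rwa [Complex.coe_smul]
  set ρ : ℝ := R / (4 * ‖v‖) with hρdef
  have hρ : 0 < ρ := by positivity
  have hρv : ρ * ‖v‖ = R / 4 := by
    rw [hρdef]
    field_simp
  have hsub : ∀ t ∈ Icc (0 : ℝ) 1, ∀ s : ℂ, dist s (t : ℂ) ≤ 2 * ρ → y + s • v ∈ ball x₀ R := by
    intro t ht s hs
    have h1 := hseg t ht
    have h2 : ‖(s - (t : ℂ)) • v‖ ≤ R / 2 := by
      rw [norm_smul, ← dist_eq_norm]
      calc dist s (t : ℂ) * ‖v‖ ≤ 2 * ρ * ‖v‖ := mul_le_mul_of_nonneg_right hs hv.le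
        _ = R / 2 := by linarith
    rw [mem_ball] at h1 ⊢
    calc dist (y + s • v) x₀ ≤ dist (y + s • v) (y + (t : ℂ) • v) + dist (y + (t : ℂ) • v) x₀ := dist_triangle _ _ _
      _ < R / 2 + R / 2 := by
        rw [dist_eq_norm (y + s • v), add_sub_add_left_eq_sub, ← sub_smul]
        linarith
      _ = R := by ring
  have hder : ∀ t ∈ Icc (0 : ℝ) 1, HasDerivAt (fun s : ℝ => Ψ (y + (s : ℂ) • v)) (deriv (fun s : ℂ => Ψ (y + s • v)) (t : ℂ)) t ∧
      ‖deriv (fun s : ℂ => Ψ (y + s • v)) (t : ℂ)‖ ≤ 4 * M / R * ‖v‖ := by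
    intro t ht
    have hd : DifferentiableOn ℂ (fun s : ℂ => Ψ (y + s • v)) (ball (t : ℂ) (2 * ρ)) := by
      apply hΨ.fun_comp
      · fun_prop
      · intro s hs
        exact hsub t ht s (mem_ball.mp hs).le
    have hcl : DiffContOnCl ℂ (fun s : ℂ => Ψ (y + s • v)) (ball (t : ℂ) ρ) := hd.diffContOnCl_ball (closedBall_subset_ball (by linarith))
    have h1 := Complex.norm_deriv_le_of_forall_mem_sphere_norm_le hρ hcl (C := M) fun s hs => hM _ (hsub t ht s (by rw [mem_sphere.mp hs]; linarith))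
    have h2 : HasDerivAt (fun s : ℂ => Ψ (y + s • v)) (deriv (fun s : ℂ => Ψ (y + s • v)) (t : ℂ)) (t : ℂ) :=
      ((hd _ (mem_ball_self (by positivity))).differentiableAt (isOpen_ball.mem_nhds (mem_ball_self (by positivity)))).hasDerivAt
    refine ⟨?_, h1.trans (le_of_eq ?_)⟩
    · have h3 : HasDerivAt (fun s : ℝ => Ψ (y + (s : ℂ) • v)) (Complex.ofRealCLM 1 • deriv (fun s : ℂ => Ψ (y + s • v)) (t : ℂ)) t :=
        HasDerivAt.scomp t h2 (Complex.ofRealCLM.hasDerivAt (x := t))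
      rwa [Complex.ofRealCLM_apply, Complex.ofReal_one, one_smul] at h3
    · rw [hρdef]
      field_simp
  have h1 := norm_image_sub_le_of_norm_deriv_le_segment_01' (f := fun s : ℝ => Ψ (y + (s : ℂ) • v))
    (fun t ht => (hder t ht).1.hasDerivWithinAt) (fun t ht => (hder t ⟨ht.1, ht.2.le⟩).2)
  simpa [hvdef] using h1

theorem dd_comp (m : ℕ) {R C : ℝ} (hR : 0 < R) (hC : 0 ≤ C) : ∃ r K : ℝ, 0 < r ∧ 0 < K ∧
    ∀ (E F : Type) [NormedAddCommGroup E] [NormedSpace ℂ E] [NormedAddCommGroup F] [NormedSpace ℂ F] [CompleteSpace F] (Ψ : E × ℂ → F) (x₀ : E) (M : ℝ), 0 ≤ M →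
      DifferentiableOn ℂ Ψ (ball x₀ R ×ˢ ball (0 : ℂ) R) → (∀ p ∈ ball x₀ R ×ˢ ball (0 : ℂ) R, ‖Ψ p‖ ≤ M) →
      ∀ (σ : ℕ → ℝ) (f : ℝ → E), Nod (m + 1) σ r → (∀ i ≤ m + 1, f (σ i) ∈ ball x₀ (R / 4)) → (∀ j ≤ m, ‖dd j σ f‖ ≤ C) →
        ‖dd (m + 1) σ (fun s : ℝ => Ψ (f s, (s : ℂ)))‖ ≤ K * M * (‖dd (m + 1) σ f‖ + 1) := by
  have hr0 : 0 < min (R / 2) (min (1 / 3) (R / (12 * (m + 1) * (C + 1)))) := by positivity
  set r := min (R / 2) (min (1 / 3) (R / (12 * (m + 1) * (C + 1)))) with hrdef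
  have hr1 : r ≤ R / 2 := min_le_left _ _
  have hr2 : 3 * r ≤ 1 := by
    have := (min_le_right (R / 2) (min (1 / 3) (R / (12 * (m + 1) * (C + 1))))).trans (min_le_left _ _)
    linarith
  have hr3 : m * (3 * r * C) < R / 4 := by
    have h1 : r ≤ R / (12 * (m + 1) * (C + 1)) := (min_le_right (R / 2) (min (1 / 3) (R / (12 * (m + 1) * (C + 1))))).trans (min_le_right _ _)
    have h2 : r * (12 * (m + 1) * (C + 1)) ≤ R := by
      rwa [le_div_iff₀ (by positivity)] at h1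
    nlinarith [mul_nonneg hr0.le hC, mul_pos hr0 (by positivity : (0 : ℝ) < m + 1), mul_nonneg (mul_nonneg hr0.le hC) (Nat.cast_nonneg (α := ℝ) m)]
  refine ⟨r, 4 / R + 2 / r ^ (m + 1), hr0, by positivity, ?_⟩
  intro E F _ _ _ _ _ Ψ x₀ M hM0 hΨ hM σ f hσ hf hdd
  have hσm : Nod m σ r := hσ.mono (Nat.le_succ m) le_rfl
  have hnp : ∀ ζ ∈ ball (0 : ℂ) (2 * r), np m σ f ζ ∈ ball x₀ (R / 2) := by
    intro ζ hζ
    have h1 : ∀ i ≤ m, ‖ζ - (σ i : ℂ)‖ ≤ 3 * r := by
      intro i hi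
      have h2 : ‖ζ‖ ≤ 2 * r := by
        rw [mem_ball_zero_iff] at hζ
        exact hζ.le
      have h3 : ‖(σ i : ℂ)‖ ≤ r := by
        rw [Complex.norm_real, Real.norm_eq_abs]
        exact hσm.le i hi
      calc ‖ζ - (σ i : ℂ)‖ ≤ ‖ζ‖ + ‖(σ i : ℂ)‖ := norm_sub_le _ _
        _ ≤ 3 * r := by linarith
    have h2 : np m σ f ζ - f (σ 0) = ∑ j ∈ range m, (∏ i ∈ range (j + 1), (ζ - (σ i : ℂ))) • dd (j + 1) σ f := by
      unfold np
      rw [Finset.sum_range_succ']
      simp only [Finset.range_zero, Finset.prod_empty, one_smul, dd_zero, add_sub_cancel_right]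
    have h3 : ‖np m σ f ζ - f (σ 0)‖ ≤ m * (3 * r * C) := by
      rw [h2]
      calc ‖∑ j ∈ range m, (∏ i ∈ range (j + 1), (ζ - (σ i : ℂ))) • dd (j + 1) σ f‖ ≤ ∑ j ∈ range m, 3 * r * C := by
            refine norm_sum_le_of_le _ fun j hj => ?_
            have hjm : j + 1 ≤ m := Finset.mem_range.mp hj
            rw [norm_smul, norm_prod]
            have h4 : ∏ i ∈ range (j + 1), ‖ζ - (σ i : ℂ)‖ ≤ ∏ i ∈ range (j + 1), (3 * r) :=
              Finset.prod_le_prod (fun i _ => norm_nonneg _) fun i hi => h1 i (by have := Finset.mem_range.mp hi; omega)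
            rw [Finset.prod_const, Finset.card_range] at h4
            have h5 : (3 * r) ^ (j + 1) ≤ 3 * r := by
              calc (3 * r) ^ (j + 1) = (3 * r) ^ j * (3 * r) := pow_succ _ _
                _ ≤ 1 * (3 * r) := mul_le_mul_of_nonneg_right (pow_le_one₀ (by positivity) hr2) (by positivity)
                _ = 3 * r := one_mul _
            exact mul_le_mul (h4.trans h5) (hdd (j + 1) hjm) (norm_nonneg _) (by positivity)
        _ = m * (3 * r * C) := by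
            rw [Finset.sum_const, Finset.card_range, nsmul_eq_mul]
    have h4 := hf 0 (Nat.zero_le _)
    rw [mem_ball] at h4 ⊢
    calc dist (np m σ f ζ) x₀ ≤ dist (np m σ f ζ) (f (σ 0)) + dist (f (σ 0)) x₀ := dist_triangle _ _ _
      _ < R / 4 + R / 4 := by
        rw [dist_eq_norm (np m σ f ζ)]
        linarith
      _ = R / 2 := by ring
  have hGd : DifferentiableOn ℂ (fun ζ : ℂ => Ψ (np m σ f ζ, ζ)) (ball 0 (2 * r)) := by
    apply hΨ.fun_comp
    · unfold np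
      fun_prop
    · intro ζ hζ
      exact ⟨ball_subset_ball (by linarith) (hnp ζ hζ), ball_subset_ball (by linarith) hζ⟩
  have h1 := dd_cauchy hr0 hGd (M := M) (fun ζ hζ => hM _ ⟨ball_subset_ball (by linarith) (hnp ζ hζ), ball_subset_ball (by linarith) hζ⟩) hσ
  have h2 := dd_last (m := m) (σ := σ) (f := fun s : ℝ => Ψ (f s, (s : ℂ))) (g := fun s : ℝ => Ψ (np m σ f (s : ℂ), (s : ℂ)))
    (fun i hi => by simp only [np_node hσm f hi])
  have h3 : ‖(∏ i ∈ range (m + 1), ((σ (m + 1) : ℂ) - (σ i : ℂ))⁻¹) •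
      (Ψ (f (σ (m + 1)), (σ (m + 1) : ℂ)) - Ψ (np m σ f (σ (m + 1) : ℂ), (σ (m + 1) : ℂ)))‖ ≤ 4 * M / R * ‖dd (m + 1) σ f‖ := by
    have hs : (σ (m + 1) : ℂ) ∈ ball (0 : ℂ) (2 * r) := by
      rw [mem_ball_zero_iff, Complex.norm_real, Real.norm_eq_abs]
      exact (hσ.le (m + 1) le_rfl).trans_lt (by linarith)
    have hs' : (σ (m + 1) : ℂ) ∈ ball (0 : ℂ) R := ball_subset_ball (by linarith) hs
    have h4 := lip_comp (Ψ := fun x : E => Ψ (x, (σ (m + 1) : ℂ))) (M := M) hR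
      (hΨ.fun_comp (by fun_prop) fun x hx => ⟨hx, hs'⟩) (fun x hx => hM _ ⟨hx, hs'⟩)
      (ball_subset_ball (by linarith) (hf (m + 1) le_rfl)) (hnp _ hs)
    rw [sub_np hσ f] at h4
    rw [norm_smul]
    rw [norm_smul] at h4
    have hne : ∀ i ∈ range (m + 1), ((σ (m + 1) : ℂ) - (σ i : ℂ)) ≠ 0 := by
      intro i hi h0
      have him := Finset.mem_range.mp hi
      have h5 : σ (m + 1) = σ i := by exact_mod_cast sub_eq_zero.mp h0
      have h6 := hσ.inj (m + 1) le_rfl i (by omega) h5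
      omega
    have hP : 0 < ‖∏ i ∈ range (m + 1), ((σ (m + 1) : ℂ) - (σ i : ℂ))‖ := norm_pos_iff.mpr (Finset.prod_ne_zero_iff.mpr hne)
    rw [Finset.prod_inv_distrib, norm_inv]
    calc ‖∏ i ∈ range (m + 1), ((σ (m + 1) : ℂ) - (σ i : ℂ))‖⁻¹ * ‖Ψ (f (σ (m + 1)), (σ (m + 1) : ℂ)) - Ψ (np m σ f (σ (m + 1) : ℂ), (σ (m + 1) : ℂ))‖
        ≤ ‖∏ i ∈ range (m + 1), ((σ (m + 1) : ℂ) - (σ i : ℂ))‖⁻¹ *
          (4 * M / R * (‖∏ i ∈ range (m + 1), ((σ (m + 1) : ℂ) - (σ i : ℂ))‖ * ‖dd (m + 1) σ f‖)) :=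
          mul_le_mul_of_nonneg_left h4 (inv_nonneg.mpr hP.le)
      _ = 4 * M / R * ‖dd (m + 1) σ f‖ := by
        field_simp
  have h4 : dd (m + 1) σ (fun s : ℝ => Ψ (f s, (s : ℂ))) = dd (m + 1) σ (fun s : ℝ => Ψ (np m σ f (s : ℂ), (s : ℂ))) +
      (∏ i ∈ range (m + 1), ((σ (m + 1) : ℂ) - (σ i : ℂ))⁻¹) •
      (Ψ (f (σ (m + 1)), (σ (m + 1) : ℂ)) - Ψ (np m σ f (σ (m + 1) : ℂ), (σ (m + 1) : ℂ))) := by
    rw [← h2]
    abel
  rw [h4]
  have h5 : 0 ≤ ‖dd (m + 1) σ f‖ := norm_nonneg _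
  have h6 : 0 ≤ 4 / R * M := by positivity
  have h7 : 0 ≤ 2 / r ^ (m + 1) * M * ‖dd (m + 1) σ f‖ := by positivity
  calc ‖dd (m + 1) σ (fun s : ℝ => Ψ (np m σ f (s : ℂ), (s : ℂ))) + (∏ i ∈ range (m + 1), ((σ (m + 1) : ℂ) - (σ i : ℂ))⁻¹) •
      (Ψ (f (σ (m + 1)), (σ (m + 1) : ℂ)) - Ψ (np m σ f (σ (m + 1) : ℂ), (σ (m + 1) : ℂ)))‖ ≤ M * 2 / r ^ (m + 1) + 4 * M / R * ‖dd (m + 1) σ f‖ :=
        (norm_add_le _ _).trans (add_le_add h1 h3)
    _ = 2 / r ^ (m + 1) * M + 4 / R * M * ‖dd (m + 1) σ f‖ := by ring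
    _ ≤ (4 / R + 2 / r ^ (m + 1)) * M * (‖dd (m + 1) σ f‖ + 1) := by nlinarith

/-- the same for all orders `≤ m` -/
theorem dd_comp_le (m : ℕ) {R C : ℝ} (hR : 0 < R) (hC : 0 ≤ C) : ∃ r K : ℝ, 0 < r ∧ 0 < K ∧
    ∀ (E F : Type) [NormedAddCommGroup E] [NormedSpace ℂ E] [NormedAddCommGroup F] [NormedSpace ℂ F] [CompleteSpace F] (Ψ : E × ℂ → F) (x₀ : E) (M : ℝ), 0 ≤ M →
      DifferentiableOn ℂ Ψ (ball x₀ R ×ˢ ball (0 : ℂ) R) → (∀ p ∈ ball x₀ R ×ˢ ball (0 : ℂ) R, ‖Ψ p‖ ≤ M) →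
      ∀ (σ : ℕ → ℝ) (f : ℝ → E), Nod m σ r → (∀ i ≤ m, f (σ i) ∈ ball x₀ (R / 4)) → (∀ j ≤ m, ‖dd j σ f‖ ≤ C) →
        ∀ j ≤ m, ‖dd j σ (fun s : ℝ => Ψ (f s, (s : ℂ)))‖ ≤ K * M := by
  induction m with
  | zero =>
    refine ⟨R / 2, 1, by positivity, one_pos, ?_⟩
    intro E F _ _ _ _ _ Ψ x₀ M hM0 hΨ hM σ f hσ hf hdd j hj
    obtain rfl : j = 0 := Nat.le_zero.mp hj
    rw [dd_zero, one_mul]
    refine hM _ ⟨ball_subset_ball (by linarith) (hf 0 le_rfl), ?_⟩
    rw [mem_ball_zero_iff, Complex.norm_real, Real.norm_eq_abs]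
    exact (hσ.le 0 le_rfl).trans_lt (by linarith)
  | succ m ih =>
    obtain ⟨r₁, K₁, hr₁, hK₁, h₁⟩ := ih
    obtain ⟨r₂, K₂, hr₂, hK₂, h₂⟩ := dd_comp m hR hC
    refine ⟨min r₁ r₂, max K₁ (K₂ * (C + 1)), lt_min hr₁ hr₂, lt_max_of_lt_left hK₁, ?_⟩
    intro E F _ _ _ _ _ Ψ x₀ M hM0 hΨ hM σ f hσ hf hdd j hj
    rcases Nat.le_succ_iff.mp hj with h | rfl
    · exact (h₁ E F Ψ x₀ M hM0 hΨ hM σ f (hσ.mono (Nat.le_succ m) (min_le_left _ _)) (fun i hi => hf i (hi.trans (Nat.le_succ m)))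
        (fun i hi => hdd i (hi.trans (Nat.le_succ m))) j h).trans (mul_le_mul_of_nonneg_right (le_max_left _ _) hM0)
    · have h3 := h₂ E F Ψ x₀ M hM0 hΨ hM σ f (hσ.mono le_rfl (min_le_right _ _)) hf (fun i hi => hdd i (hi.trans (Nat.le_succ m)))
      refine h3.trans ?_
      have h4 := hdd (m + 1) le_rfl
      calc K₂ * M * (‖dd (m + 1) σ f‖ + 1) ≤ K₂ * M * (C + 1) := mul_le_mul_of_nonneg_left (by linarith) (by positivity)
        _ = K₂ * (C + 1) * M := by ring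
        _ ≤ max K₁ (K₂ * (C + 1)) * M := mul_le_mul_of_nonneg_right (le_max_right _ _) hM0

end Pool.Agent.G3.R

end
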