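import Pool.Agent.H94.G4T.M23
import Pool.Agent.H94.G4T.M28
import Pool.Agent.H94.G4T.M72

/-! The parts of this file: G3.A.DDJet, G3.C.Rem, G4.E.Mnr, G4.R.BdT, G4.Z.Abs, H17.Modulus, H17LG.Defs, H14.V.Up, H56.G3.PerExt, H7.Qup.Defs. -/

section

/-!
# G3 A DDJet: bounded divided differences of all orders give a smooth family

`dd_jet`: if `f s` is holomorphic on `D` for all `s ∈ I` and the divided differences of `s ↦ f s z` of every order are bounded uniformly in `z ∈ D`, then `f` is the first member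
of a `JetFam`.
-/

set_option autoImplicit false

open Topology Filter Metric Finset

namespace Pool.Agent.G3.A

variable {E : Type*} [NormedAddCommGroup E] [NormedSpace ℝ E]

/-- translation of the nodes -/
theorem dd_image_add (S : Finset ℝ) (h : ℝ) (g : ℝ → E) : dd (S.image (fun t => t + h)) g = dd S (fun t => g (t + h)) := by
  have hinj : Function.Injective fun t : ℝ => t + h := add_left_injective h
  unfold dd
  rw [Finset.sum_image fun a _ b _ hab => hinj hab]
  refine Finset.sum_congr rfl fun a _ => ?_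
  congr 2
  rw [← Finset.image_erase hinj, Finset.prod_image fun a _ b _ hab => hinj hab]
  exact Finset.prod_congr rfl fun b _ => by ring

/-- replacing the nodes one by one -/
theorem dd_shift_bound {S : Finset ℝ} {h C : ℝ} (hh : h ≠ 0) (hdis : ∀ a ∈ S, a + h ∉ S) {g : ℝ → E}
    (hC : ∀ T : Finset ℝ, T ⊆ S ∪ S.image (fun t => t + h) → T.card = S.card + 1 → ‖dd T g‖ ≤ C) :
    ‖dd (S.image (fun t => t + h)) g - dd S g‖ ≤ S.card * (|h| * C) := by
  have hinj : Function.Injective fun t : ℝ => t + h := add_left_injective h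
  have key : ∀ U : Finset ℝ, U ⊆ S → ‖dd ((S \ U) ∪ U.image (fun t => t + h)) g - dd S g‖ ≤ U.card * (|h| * C) := by
    intro U
    induction U using Finset.induction_on with
    | empty =>
      intro _
      simp
    | insert a U ha ih =>
      intro hU
      have haS : a ∈ S := hU (Finset.mem_insert_self _ _)
      have hUS : U ⊆ S := (Finset.subset_insert a U).trans hU
      have h1 := ih hUS
      set R : Finset ℝ := (S \ insert a U) ∪ U.image (fun t => t + h) with hR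
      have e1 : (S \ U) ∪ U.image (fun t => t + h) = insert a R := by
        ext x
        simp only [hR, Finset.mem_union, Finset.mem_sdiff, Finset.mem_insert, Finset.mem_image]
        constructor
        · rintro (⟨hx, hxU⟩ | hx)
          · by_cases hxa : x = a
            · exact Or.inl hxa
            · exact Or.inr (Or.inl ⟨hx, fun h => h.elim hxa hxU⟩)
          · exact Or.inr (Or.inr hx)
        · rintro (rfl | ⟨hx, hxU⟩ | hx)
          · exact Or.inl ⟨haS, ha⟩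
          · exact Or.inl ⟨hx, fun h => hxU (Or.inr h)⟩
          · exact Or.inr hx
      have e2 : (S \ insert a U) ∪ (insert a U).image (fun t => t + h) = insert (a + h) R := by
        rw [Finset.image_insert, hR]
        ext x
        simp only [Finset.mem_union, Finset.mem_insert]
        tauto
      have haR : a ∉ R := by
        rw [hR, Finset.mem_union]
        rintro (hx | hx)
        · exact (Finset.mem_sdiff.1 hx).2 (Finset.mem_insert_self _ _)
        · obtain ⟨b, hb, hba⟩ := Finset.mem_image.1 hx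
          exact hdis b (hUS hb) (by rw [hba]; exact haS)
      have hahR : a + h ∉ R := by
        rw [hR, Finset.mem_union]
        rintro (hx | hx)
        · exact hdis a haS (Finset.mem_sdiff.1 hx).1
        · obtain ⟨b, hb, hba⟩ := Finset.mem_image.1 hx
          exact ha ((hinj hba) ▸ hb)
      have hne : a ≠ a + h := fun h' => hh (by linarith)
      have h2 : dd (insert (a + h) R) g - dd (insert a R) g = h • dd (insert a (insert (a + h) R)) g := by
        rw [dd_insert_insert hne haR hahR, smul_smul]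
        have : h * (a + h - a)⁻¹ = 1 := by
          rw [add_sub_cancel_left]
          exact mul_inv_cancel₀ hh
        rw [this, one_smul]
      have hRcard : R.card + 1 = S.card := by
        have h3 : (insert a R).card = R.card + 1 := Finset.card_insert_of_notMem haR
        rw [← h3, ← e1, Finset.card_union_of_disjoint, Finset.card_image_of_injective _ hinj, Finset.card_sdiff_of_subset hUS]
        · have := Finset.card_le_card hUS
          omega
        · rw [Finset.disjoint_left]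
          intro x hx hx'
          obtain ⟨b, hb, hba⟩ := Finset.mem_image.1 hx'
          exact hdis b (hUS hb) (by rw [hba]; exact (Finset.mem_sdiff.1 hx).1)
      have hRsub : R ⊆ S ∪ S.image (fun t => t + h) := by
        rw [hR]
        exact Finset.union_subset_union Finset.sdiff_subset (Finset.image_subset_image hUS)
      have h3 : ‖dd (insert a (insert (a + h) R)) g‖ ≤ C := by
        refine hC _ ?_ ?_
        · refine Finset.insert_subset (Finset.mem_union_left _ haS) (Finset.insert_subset (Finset.mem_union_right _ ?_) hRsub)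
          exact Finset.mem_image_of_mem (fun t => t + h) haS
        · have h4 : a ∉ insert (a + h) R := by
            rw [Finset.mem_insert]
            rintro (h5 | h5)
            · exact hne h5
            · exact haR h5
          rw [Finset.card_insert_of_notMem h4, Finset.card_insert_of_notMem hahR]
          omega
      rw [e1] at h1
      rw [e2, Finset.card_insert_of_notMem ha]
      have h4 : dd (insert (a + h) R) g - dd S g = (dd (insert (a + h) R) g - dd (insert a R) g) + (dd (insert a R) g - dd S g) := by abel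
      rw [h4]
      refine (norm_add_le _ _).trans ?_
      rw [h2, norm_smul, Real.norm_eq_abs]
      have h5 : |h| * ‖dd (insert a (insert (a + h) R)) g‖ ≤ |h| * C := by gcongr
      push_cast
      linarith
  have h1 := key S le_rfl
  rwa [Finset.sdiff_self, Finset.empty_union] at h1

/-- the derivative exists -/
theorem dd_deriv [CompleteSpace E] {I : Set ℝ} (hI : IsOpen I) {C : ℝ} {g : ℝ → E}
    (hC : ∀ T : Finset ℝ, (∀ a ∈ T, a ∈ I) → T.card = 3 → ‖dd T g‖ ≤ C) {s : ℝ} (hs : s ∈ I) :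
    ∃ v : E, HasDerivAt g v s ∧ ∀ t ∈ I, t ≠ s → ‖(t - s)⁻¹ • (g t - g s) - v‖ ≤ C * |t - s| := by
  -- Lipschitz bound for the slopes
  have hlip : ∀ t ∈ I, ∀ t' ∈ I, t ≠ s → t' ≠ s → ‖(t - s)⁻¹ • (g t - g s) - (t' - s)⁻¹ • (g t' - g s)‖ ≤ C * |t - t'| := by
    intro t ht t' ht' hts ht's
    by_cases htt : t = t'
    · rw [htt]
      simp
    have h1 : dd (insert s (insert t {t'})) g = (t' - t)⁻¹ • ((t' - s)⁻¹ • (g t' - g s) - (t - s)⁻¹ • (g t - g s)) := by
      have hs1 : s ∉ insert t ({t'} : Finset ℝ) := by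
        rw [Finset.mem_insert, Finset.mem_singleton]
        rintro (h | h)
        · exact hts h.symm
        · exact ht's h.symm
      rw [dd_slope g hs1 (Finset.insert_nonempty _ _)]
      have h2 := dd_insert_insert (S := ∅) htt (Finset.notMem_empty t) (Finset.notMem_empty t') (fun x => (x - s)⁻¹ • (g x - g s))
      simp only [insert_empty_eq] at h2
      rw [h2, dd_singleton, dd_singleton]
    have h2 : ‖dd (insert s (insert t {t'})) g‖ ≤ C := by
      refine hC _ ?_ ?_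
      · intro a ha
        rw [Finset.mem_insert, Finset.mem_insert, Finset.mem_singleton] at ha
        rcases ha with rfl | rfl | rfl
        · exact hs
        · exact ht
        · exact ht'
      · rw [Finset.card_insert_of_notMem, Finset.card_insert_of_notMem, Finset.card_singleton]
        · simpa using htt
        · rw [Finset.mem_insert, Finset.mem_singleton]
          rintro (h | h)
          · exact hts h.symm
          · exact ht's h.symm
    have h3 : (t - s)⁻¹ • (g t - g s) - (t' - s)⁻¹ • (g t' - g s) = (t - t') • dd (insert s (insert t {t'})) g := by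
      have hne : t' - t ≠ 0 := sub_ne_zero.2 fun h => htt h.symm
      have e : (t - t') * (t' - t)⁻¹ = -1 := by
        rw [← neg_sub t' t, neg_mul, mul_inv_cancel₀ hne]
      rw [h1, smul_smul, e, neg_one_smul]
      abel
    rw [h3, norm_smul, Real.norm_eq_abs, mul_comm]
    gcongr
  obtain ⟨δ, hδ, hball⟩ := Metric.isOpen_iff.1 hI s hs
  have hC0 : 0 ≤ C := by
    have h1 : s + δ / 2 ∈ I := hball (by rw [mem_ball, Real.dist_eq]; rw [add_sub_cancel_left, abs_of_pos (by linarith)]; linarith)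
    have h2 : s + δ / 3 ∈ I := hball (by rw [mem_ball, Real.dist_eq]; rw [add_sub_cancel_left, abs_of_pos (by linarith)]; linarith)
    have h3 := hlip _ h1 _ h2 (by linarith) (by linarith)
    have h4 : 0 < |s + δ / 2 - (s + δ / 3)| := abs_pos.2 (by linarith)
    have h5 := (norm_nonneg _).trans h3
    by_contra hcon
    rw [not_le] at hcon
    have := mul_neg_of_neg_of_pos hcon h4
    linarith
  -- a sequence
  set tn : ℕ → ℝ := fun n => s + δ / (n + 2) with htn
  have htnI : ∀ n, tn n ∈ I := by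
    intro n
    apply hball
    rw [mem_ball, Real.dist_eq, htn]
    simp only [add_sub_cancel_left]
    have hp : (0 : ℝ) < (n : ℝ) + 2 := by positivity
    rw [abs_of_pos (by positivity), div_lt_iff₀ hp]
    nlinarith [(Nat.cast_nonneg n : (0 : ℝ) ≤ n)]
  have htns : ∀ n, tn n ≠ s := by
    intro n
    rw [htn]
    have : 0 < δ / ((n : ℝ) + 2) := by positivity
    simp only
    linarith
  have htnlim : Tendsto tn atTop (𝓝 s) := by
    have h1 : Tendsto (fun n : ℕ => δ / ((n : ℝ) + 2)) atTop (𝓝 0) :=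
      tendsto_const_nhds.div_atTop (tendsto_natCast_atTop_atTop.atTop_add tendsto_const_nhds)
    have h2 := (tendsto_const_nhds (x := s)).add h1
    simpa [htn] using h2
  set σ : ℝ → E := fun t => (t - s)⁻¹ • (g t - g s) with hσ
  have hcau : CauchySeq fun n => σ (tn n) := by
    have hc := htnlim.cauchySeq
    rw [Metric.cauchySeq_iff] at hc ⊢
    intro ε hε
    obtain ⟨N, hN⟩ := hc (ε / (C + 1)) (by positivity)
    refine ⟨N, fun m hm n hn => ?_⟩
    have h1 := hlip _ (htnI m) _ (htnI n) (htns m) (htns n)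
    have h2 := hN m hm n hn
    rw [dist_eq_norm]
    rw [Real.dist_eq, lt_div_iff₀ (by positivity)] at h2
    have h3 : C * |tn m - tn n| ≤ |tn m - tn n| * (C + 1) := by nlinarith [abs_nonneg (tn m - tn n)]
    exact (h1.trans h3).trans_lt h2
  obtain ⟨v, hv⟩ := cauchySeq_tendsto_of_complete hcau
  have hbd : ∀ t ∈ I, t ≠ s → ‖σ t - v‖ ≤ C * |t - s| := by
    intro t ht hts
    have h1 : Tendsto (fun n => ‖σ t - σ (tn n)‖) atTop (𝓝 ‖σ t - v‖) := (tendsto_const_nhds.sub hv).norm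
    have h2 : Tendsto (fun n => C * |t - tn n|) atTop (𝓝 (C * |t - s|)) := ((tendsto_const_nhds.sub htnlim).abs).const_mul C
    exact le_of_tendsto_of_tendsto' h1 h2 fun n => hlip t ht _ (htnI n) hts (htns n)
  refine ⟨v, ?_, hbd⟩
  rw [hasDerivAt_iff_tendsto_slope]
  have h1 : Tendsto (fun t => C * |t - s|) (𝓝[≠] s) (𝓝 0) := by
    have h2 : Tendsto (fun t => C * |t - s|) (𝓝 s) (𝓝 (C * |s - s|)) := by
      have : Continuous fun t : ℝ => C * |t - s| := by fun_prop
      exact this.tendsto s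
    rw [sub_self, abs_zero, mul_zero] at h2
    exact h2.mono_left nhdsWithin_le_nhds
  rw [tendsto_iff_norm_sub_tendsto_zero]
  refine squeeze_zero' (Eventually.of_forall fun t => norm_nonneg _) ?_ h1
  have h2 : ∀ᶠ t in 𝓝[≠] s, t ∈ I := nhdsWithin_le_nhds (hI.mem_nhds hs)
  filter_upwards [h2, self_mem_nhdsWithin] with t ht hts
  rw [slope, vsub_eq_sub]
  exact hbd t ht hts

/-- the divided differences of the derivative -/
theorem dd_deriv_bound {I : Set ℝ} (hI : IsOpen I) {C : ℝ} {g g' : ℝ → E} (hg : ∀ s ∈ I, HasDerivAt g (g' s) s) {S : Finset ℝ}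
    (hS : ∀ a ∈ S, a ∈ I) (hC : ∀ T : Finset ℝ, (∀ a ∈ T, a ∈ I) → T.card = S.card + 1 → ‖dd T g‖ ≤ C) : ‖dd S g'‖ ≤ S.card * C := by
  -- the limit
  have h1 : Tendsto (fun h : ℝ => dd S (fun t => h⁻¹ • (g (t + h) - g t))) (𝓝[≠] 0) (𝓝 (dd S g')) := by
    unfold dd
    refine tendsto_finsetSum _ fun a ha => ?_
    have h2 := hasDerivAt_iff_tendsto_slope_zero.1 (hg a (hS a ha))
    exact h2.const_smul _
  have h2 : ∀ᶠ h in 𝓝[≠] (0 : ℝ), ∀ a ∈ S, a + h ∈ I := by
    rw [eventually_all_finset]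
    intro a ha
    have h3 : Tendsto (fun h : ℝ => a + h) (𝓝 0) (𝓝 (a + 0)) := (continuous_const.add continuous_id).tendsto 0
    rw [add_zero] at h3
    exact (h3.eventually (hI.mem_nhds (hS a ha))).filter_mono nhdsWithin_le_nhds
  have h3 : ∀ᶠ h in 𝓝[≠] (0 : ℝ), ∀ a ∈ S, a + h ∉ S := by
    rw [eventually_all_finset]
    intro a ha
    have h4 : ∀ᶠ h in 𝓝[≠] (0 : ℝ), ∀ b ∈ S, a + h ≠ b := by
      rw [eventually_all_finset]
      intro b hb
      by_cases hab : b = a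
      · filter_upwards [self_mem_nhdsWithin] with h hh hah
        apply hh
        simp only [Set.mem_singleton_iff]
        linarith
      · have h5 : Tendsto (fun h : ℝ => a + h) (𝓝 0) (𝓝 (a + 0)) := (continuous_const.add continuous_id).tendsto 0
        rw [add_zero] at h5
        exact (h5.eventually_ne (fun h => hab h.symm)).filter_mono nhdsWithin_le_nhds
    filter_upwards [h4] with h hh hmem
    exact hh _ hmem rfl
  refine le_of_tendsto h1.norm ?_
  filter_upwards [h2, h3, self_mem_nhdsWithin] with h a1 a2 a3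
  have hh : h ≠ 0 := a3
  have h4 := dd_shift_bound hh a2 (g := g) (C := C) (fun T hT hcard => hC T (fun b hb => by
    rcases Finset.mem_union.1 (hT hb) with h5 | h5
    · exact hS b h5
    · obtain ⟨c, hc, rfl⟩ := Finset.mem_image.1 h5
      exact a1 c hc) hcard)
  rw [dd_image_add, ← dd_sub] at h4
  have h5 : dd S (fun t => h⁻¹ • (g (t + h) - g t)) = h⁻¹ • dd S (fun t => g (t + h) - g t) := dd_smul S h⁻¹ _
  rw [h5, norm_smul, norm_inv, Real.norm_eq_abs]
  have h6 : 0 < |h| := abs_pos.2 hh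
  calc |h|⁻¹ * ‖dd S (fun t => g (t + h) - g t)‖ ≤ |h|⁻¹ * (S.card * (|h| * C)) := by gcongr
    _ = S.card * C := by field_simp

end Pool.Agent.G3.A

end

section

/-!
# G3 C Rem: removable singularities at isolated points

`g z = f z` for `z ∉ S`, `g z = limUnder (𝓝[≠] z) f` for `z ∈ S`; near every point of `U` this is `Complex.differentiableOn_update_limUnder_of_bddAbove`.
-/

set_option autoImplicit false

open Topology Filter Metric

namespace Pool.Agent.G3.C

theorem removable_discrete {U S : Set ℂ} (hU : IsOpen U) (hS : ∀ z ∈ U, ∀ᶠ z' in 𝓝[≠] z, z' ∉ S) {f : ℂ → ℂ} (hf : ∀ z ∈ U, z ∉ S → AnalyticAt ℂ f z)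
    (hb : ∀ z ∈ U, ∃ C : ℝ, ∀ᶠ z' in 𝓝[≠] z, ‖f z'‖ ≤ C) : ∃ g : ℂ → ℂ, DifferentiableOn ℂ g U ∧ ∀ z ∈ U, z ∉ S → g z = f z := by
  classical
  refine ⟨fun z => if z ∈ S then limUnder (𝓝[≠] z) f else f z, ?_, fun z _ hz => by simp [hz]⟩
  intro z hz
  apply DifferentiableAt.differentiableWithinAt
  by_cases hzS : z ∈ S
  · obtain ⟨C, hC⟩ := hb z hz
    have h1 : ∀ᶠ z' in 𝓝[≠] z, z' ∉ S ∧ ‖f z'‖ ≤ C ∧ z' ∈ U :=
      (hS z hz).and (hC.and (mem_nhdsWithin_of_mem_nhds (hU.mem_nhds hz)))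
    rw [eventually_nhdsWithin_iff, Metric.eventually_nhds_iff_ball] at h1
    obtain ⟨r, hr, h1⟩ := h1
    have hd : DifferentiableOn ℂ f (ball z r \ {z}) := by
      intro w hw
      have h2 := h1 w hw.1 hw.2
      exact (hf w h2.2.2 h2.1).differentiableAt.differentiableWithinAt
    have hbd : BddAbove (norm ∘ f '' (ball z r \ {z})) := by
      refine ⟨C, ?_⟩
      rintro _ ⟨w, hw, rfl⟩
      exact (h1 w hw.1 hw.2).2.1
    have h3 := Complex.differentiableOn_update_limUnder_of_bddAbove (ball_mem_nhds z hr) hd hbd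
    have h4 := h3.differentiableAt (ball_mem_nhds z hr)
    refine h4.congr_of_eventuallyEq ?_
    filter_upwards [ball_mem_nhds z hr] with w hw
    by_cases hwz : w = z
    · subst hwz
      simp [hzS]
    · have h2 := h1 w hw hwz
      simp [h2.1, hwz]
  · refine (hf z hz hzS).differentiableAt.congr_of_eventuallyEq ?_
    have h1 := hS z hz
    rw [eventually_nhdsWithin_iff] at h1
    filter_upwards [h1] with w hw
    by_cases hwz : w = z
    · subst hwz
      simp [hzS]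
    · simp [hw hwz]

end Pool.Agent.G3.C

end

section

/-!
# G4 E Mnr: homogeneous linear systems with analytic coefficients

`minors`: the system `∑ s, q s * h i s x = 0` (`i : ι`, `M + 1` unknowns) has a solution `q ≠ 0` for every `x ∈ U`.  Then there is an analytic solution which is not identically `0`.

Proof.  Let `r ≤ M` be the largest number such that some minor of size `r` is not identically `0` on `U`; `rows`, `cols` such a minor and `s₀ ∉ range cols`.  The solution is the vector of the cofactors of the first row in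
the matrix with the columns `s₀, cols` and the rows `i, rows`; its determinant is identically `0`.
-/

set_option autoImplicit false

open Topology Filter

namespace Pool.Agent.G4.E

/-- the matrix with the given rows and columns -/
private def mt {E ι : Type*} {M : ℕ} (h : ι → Fin (M + 1) → E → ℂ) {r : ℕ} (rows : Fin r → ι) (cols : Fin r → Fin (M + 1)) (x : E) : Matrix (Fin r) (Fin r) ℂ :=
  Matrix.of fun a b => h (rows a) (cols b) x

private theorem det_an {E : Type*} [NormedAddCommGroup E] [NormedSpace ℂ E] {U : Set E} {ι : Type*} {M : ℕ} {h : ι → Fin (M + 1) → E → ℂ}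
    (hh : ∀ i s, AnalyticOnNhd ℂ (h i s) U) {r : ℕ} (rows : Fin r → ι) (cols : Fin r → Fin (M + 1)) : AnalyticOnNhd ℂ (fun x => (mt h rows cols x).det) U := by
  intro x hx
  simp only [Matrix.det_apply]
  refine Finset.analyticAt_fun_sum _ fun σ _ => ?_
  have h1 : AnalyticAt ℂ (fun x => ∏ i, mt h rows cols x (σ i) i) x := by
    refine Finset.analyticAt_fun_prod _ fun i _ => ?_
    exact hh _ _ x hx
  have h2 : (fun x => Equiv.Perm.sign σ • ∏ i, mt h rows cols x (σ i) i) = fun x => ((Equiv.Perm.sign σ : ℤ) : ℂ) * ∏ i, mt h rows cols x (σ i) i := by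
    funext x
    rw [Units.smul_def, zsmul_eq_mul]
  rw [h2]
  exact analyticAt_const.mul h1

theorem minors {E : Type*} [NormedAddCommGroup E] [NormedSpace ℂ E] {U : Set E} (hne : U.Nonempty) {ι : Type*} {M : ℕ} {h : ι → Fin (M + 1) → E → ℂ}
    (hh : ∀ i s, AnalyticOnNhd ℂ (h i s) U) (hk : ∀ x ∈ U, ∃ q : Fin (M + 1) → ℂ, q ≠ 0 ∧ ∀ i, ∑ s, q s * h i s x = 0) :
    ∃ q : Fin (M + 1) → E → ℂ, (∀ s, AnalyticOnNhd ℂ (q s) U) ∧ (∀ x ∈ U, ∀ i, ∑ s, q s x * h i s x = 0) ∧ ∃ s, ∃ x ∈ U, q s x ≠ 0 := by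
  classical
  set P : ℕ → Prop := fun r => ∃ (rows : Fin r → ι) (cols : Fin r → Fin (M + 1)), ∃ x ∈ U, (mt h rows cols x).det ≠ 0 with hP
  have h0 : P 0 := by
    obtain ⟨x, hx⟩ := hne
    exact ⟨Fin.elim0, Fin.elim0, x, hx, by simp⟩
  have hM : ¬ P (M + 1) := by
    rintro ⟨rows, cols, x, hx, hdet⟩
    obtain ⟨q, hq, hqi⟩ := hk x hx
    -- `cols` is injective
    have hinj : Function.Injective cols := by
      intro a b hab
      by_contra hne
      apply hdet
      refine Matrix.det_zero_of_column_eq hne fun i => ?_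
      show h (rows i) (cols a) x = h (rows i) (cols b) x
      rw [hab]
    have hbij : Function.Bijective cols := Finite.injective_iff_bijective.1 hinj
    apply hq
    have h1 : (mt h rows cols x).mulVec (fun b => q (cols b)) = 0 := by
      funext a
      show ∑ b, h (rows a) (cols b) x * q (cols b) = 0
      rw [← hqi (rows a), ← hbij.sum_comp (fun s => q s * h (rows a) s x)]
      exact Finset.sum_congr rfl fun b _ => mul_comm _ _
    have h2 := Matrix.eq_zero_of_mulVec_eq_zero hdet h1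
    funext s
    obtain ⟨b, rfl⟩ := hbij.2 s
    exact congrFun h2 b
  obtain ⟨r, hrM, hr, hr1⟩ : ∃ r, r ≤ M ∧ P r ∧ ¬ P (r + 1) := by
    by_contra hcon
    push Not at hcon
    apply hM
    have : ∀ n, n ≤ M + 1 → P n := by
      intro n
      induction n with
      | zero => exact fun _ => h0
      | succ n ih => exact fun hn => hcon n (by omega) (ih (by omega))
    exact this _ le_rfl
  obtain ⟨rows, cols, x₁, hx₁, hdet⟩ := hr
  obtain ⟨s₀, hs₀⟩ : ∃ s₀ : Fin (M + 1), ∀ b, cols b ≠ s₀ := by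
    by_contra hcon
    push Not at hcon
    have h1 : Function.Surjective cols := fun s => by
      obtain ⟨b, hb⟩ := hcon s
      exact ⟨b, hb⟩
    have h2 := Fintype.card_le_of_surjective cols h1
    simp only [Fintype.card_fin] at h2
    omega
  set cols' : Fin (r + 1) → Fin (M + 1) := Fin.cons s₀ cols with hcols'
  -- the cofactors
  set c : Fin (r + 1) → E → ℂ := fun b x => (-1) ^ (b : ℕ) * (mt h rows (fun a => cols' (b.succAbove a)) x).det with hc
  have hca : ∀ b, AnalyticOnNhd ℂ (c b) U := fun b x hx => analyticAt_const.mul (det_an hh rows (fun a => cols' (b.succAbove a)) x hx)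
  have hexp : ∀ x ∈ U, ∀ i, ∑ b, c b x * h i (cols' b) x = 0 := by
    intro x hx i
    have h1 : (mt h (Fin.cons i rows : Fin (r + 1) → ι) cols' x).det = 0 := by
      by_contra hne
      exact hr1 ⟨_, _, x, hx, hne⟩
    rw [Matrix.det_succ_row_zero] at h1
    rw [← h1]
    refine Finset.sum_congr rfl fun b _ => ?_
    have h2 : (mt h (Fin.cons i rows : Fin (r + 1) → ι) cols' x).submatrix Fin.succ b.succAbove = mt h rows (fun a => cols' (b.succAbove a)) x := by
      ext a a'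
      show h ((Fin.cons i rows : Fin (r + 1) → ι) a.succ) (cols' (b.succAbove a')) x = h (rows a) (cols' (b.succAbove a')) x
      rw [Fin.cons_succ]
    rw [h2]
    show (-1) ^ (b : ℕ) * (mt h rows (fun a => cols' (b.succAbove a)) x).det * h i (cols' b) x = (-1) ^ (b : ℕ) * h ((Fin.cons i rows : Fin (r + 1) → ι) 0) (cols' b) x * _
    rw [Fin.cons_zero]
    ring
  refine ⟨fun s x => ∑ b ∈ Finset.univ.filter fun b => cols' b = s, c b x, fun s x hx => ?_, fun x hx i => ?_, s₀, x₁, hx₁, ?_⟩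
  · exact Finset.analyticAt_fun_sum _ fun b _ => hca b x hx
  · rw [← hexp x hx i, ← Finset.sum_fiberwise_of_maps_to (s := Finset.univ) (t := Finset.univ) (g := cols') (fun _ _ => Finset.mem_univ _)]
    refine Finset.sum_congr rfl fun s _ => ?_
    rw [Finset.sum_mul]
    refine Finset.sum_congr rfl fun b hb => ?_
    rw [(Finset.mem_filter.1 hb).2]
  · have h1 : (Finset.univ.filter fun b => cols' b = s₀) = {0} := by
      ext b
      simp only [Finset.mem_filter, Finset.mem_univ, true_and, Finset.mem_singleton]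
      refine ⟨fun hb => ?_, fun hb => ?_⟩
      · refine Fin.cases (fun _ => rfl) (fun a ha => ?_) b hb
        rw [hcols', Fin.cons_succ] at ha
        exact absurd ha (hs₀ a)
      · rw [hb, hcols', Fin.cons_zero]
    show ∑ b ∈ Finset.univ.filter fun b => cols' b = s₀, c b x₁ ≠ 0
    rw [h1, Finset.sum_singleton]
    show (-1) ^ ((0 : Fin (r + 1)) : ℕ) * (mt h rows (fun a => cols' ((0 : Fin (r + 1)).succAbove a)) x₁).det ≠ 0
    have h2 : (fun a => cols' ((0 : Fin (r + 1)).succAbove a)) = cols := by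
      funext a
      rw [Fin.succAbove_zero, hcols', Fin.cons_succ]
    rw [h2]
    simpa using hdet

end Pool.Agent.G4.E

end

section

/-!
# G4 R BdT: functions on a real torus with bounded divided differences in one direction

`f` is defined on `T ∩ ball y₀ r`, `T` invariant under `ℝ ν` and `ℂ a`: `BDT` = continuous, holomorphic in the direction `a`, all divided differences in the direction `ν` are bounded.
`BDT.deriv`: the derivative in the direction `ν` has the same properties (it is a uniform limit of difference quotients, `dd_deriv`).  `bdt_jet`: all derivatives.  `bdt_of_loc`: bounds for near nodes suffice.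
-/

set_option autoImplicit false

open Topology Filter Metric

namespace Pool.Agent.G4.R

variable {V : Type*} [NormedAddCommGroup V] [NormedSpace ℂ V]

/-- bounded divided differences in the direction `ν` on `T ∩ ball y₀ r` -/
structure BDT (T : Set V) (ν a y₀ : V) (r : ℝ) (f : V → ℂ) : Prop where
  cont : ContinuousOn f (T ∩ ball y₀ r)
  hol : ∀ y ∈ T ∩ ball y₀ r, DifferentiableAt ℂ (fun z : ℂ => f (y + z • a)) 0
  bd : ∀ m : ℕ, ∃ C : ℝ, ∀ y ∈ T ∩ ball y₀ r, ∀ S : Finset ℝ, (∀ s ∈ S, y + (s : ℂ) • ν ∈ ball y₀ r) → S.card = m + 1 →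
    ‖Pool.Agent.G3.A.dd S (fun s : ℝ => f (y + (s : ℂ) • ν))‖ ≤ C

private theorem bdt_isOpen (y ν y₀ : V) (r : ℝ) : IsOpen {s : ℝ | y + (s : ℂ) • ν ∈ ball y₀ r} := by
  have h : Continuous fun s : ℝ => y + (s : ℂ) • ν := continuous_const.add (Complex.continuous_ofReal.smul continuous_const)
  exact isOpen_ball.preimage h

theorem BDT.deriv {T : Set V} {ν a y₀ : V} {r : ℝ} {f : V → ℂ} (h : BDT T ν a y₀ r f) (hT : ∀ y ∈ T, ∀ s : ℝ, y + (s : ℂ) • ν ∈ T) (hTa : ∀ y ∈ T, ∀ z : ℂ, y + z • a ∈ T) :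
    ∃ f' : V → ℂ, BDT T ν a y₀ r f' ∧ ∀ y ∈ T ∩ ball y₀ r, HasDerivAt (fun s : ℝ => f (y + (s : ℂ) • ν)) (f' y) 0 := by
  obtain ⟨C, hC⟩ := h.bd 2
  have h1 : ∀ y ∈ T ∩ ball y₀ r, ∃ v : ℂ, HasDerivAt (fun s : ℝ => f (y + (s : ℂ) • ν)) v 0 ∧ ∀ t : ℝ, y + (t : ℂ) • ν ∈ ball y₀ r → t ≠ 0 →
      ‖(t : ℝ)⁻¹ • (f (y + (t : ℂ) • ν) - f y) - v‖ ≤ C * |t| := by
    intro y hy
    have hI := bdt_isOpen y ν y₀ r
    have h0 : (0 : ℝ) ∈ {s : ℝ | y + (s : ℂ) • ν ∈ ball y₀ r} := by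
      show y + ((0 : ℝ) : ℂ) • ν ∈ ball y₀ r
      rw [Complex.ofReal_zero, zero_smul, add_zero]
      exact hy.2
    obtain ⟨v, hv, hv'⟩ := Pool.Agent.G3.A.dd_deriv hI (g := fun s : ℝ => f (y + (s : ℂ) • ν)) (C := C) (fun S hS hcard => hC y hy S hS hcard) h0
    refine ⟨v, hv, fun t ht ht0 => ?_⟩
    have h2 := hv' t ht ht0
    rw [sub_zero] at h2
    simp only [Complex.ofReal_zero, zero_smul, add_zero] at h2
    exact h2
  choose! f' hf' using h1
  refine ⟨f', ⟨?_, ?_, ?_⟩, fun y hy => (hf' y hy).1⟩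
  · -- continuity
    intro y hy
    refine continuousWithinAt_of_locally_uniform_approx_of_continuousWithinAt hy fun 𝒱 h𝒱 => ?_
    obtain ⟨ε, hε, hε𝒱⟩ := Metric.mem_uniformity_dist.1 h𝒱
    -- a small step
    have hc : Continuous fun q : V × ℝ => q.1 + (q.2 : ℂ) • ν := continuous_fst.add ((Complex.continuous_ofReal.comp continuous_snd).smul continuous_const)
    have hm : ∀ᶠ q in 𝓝 (y, (0 : ℝ)), q.1 + (q.2 : ℂ) • ν ∈ ball y₀ r := by
      refine hc.tendsto (y, (0 : ℝ)) (isOpen_ball.mem_nhds ?_)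
      show y + ((0 : ℝ) : ℂ) • ν ∈ ball y₀ r
      rw [Complex.ofReal_zero, zero_smul, add_zero]
      exact hy.2
    obtain ⟨s, hs, hsb⟩ := Metric.eventually_nhds_iff_ball.1 hm
    obtain ⟨t, ht0, hts, htC⟩ : ∃ t : ℝ, 0 < t ∧ t < s ∧ C * |t| < ε := by
      have hC1 : 0 < |C| + 1 := by positivity
      refine ⟨min (s / 2) (ε / (2 * (|C| + 1))), lt_min (by linarith) (by positivity), ?_, ?_⟩
      · exact (min_le_left _ _).trans_lt (by linarith)
      · have ht := min_le_right (s / 2) (ε / (2 * (|C| + 1)))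
        have h0 : 0 < min (s / 2) (ε / (2 * (|C| + 1))) := lt_min (by linarith) (by positivity)
        rw [abs_of_pos h0]
        have h3 : (|C| + 1) * min (s / 2) (ε / (2 * (|C| + 1))) ≤ (|C| + 1) * (ε / (2 * (|C| + 1))) := mul_le_mul_of_nonneg_left ht hC1.le
        have h4 : (|C| + 1) * (ε / (2 * (|C| + 1))) = ε / 2 := by field_simp
        have h5 : C * min (s / 2) (ε / (2 * (|C| + 1))) ≤ (|C| + 1) * min (s / 2) (ε / (2 * (|C| + 1))) := by
          refine mul_le_mul_of_nonneg_right ?_ h0.le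
          linarith [le_abs_self C]
        linarith
    have hbt : ∀ y' ∈ ball y s, y' + (t : ℂ) • ν ∈ ball y₀ r := fun y' hy' => hsb (y', t) (by
      rw [mem_ball, Prod.dist_eq]
      refine max_lt hy' ?_
      rw [dist_zero_right, Real.norm_eq_abs, abs_of_pos ht0]
      exact hts)
    refine ⟨T ∩ ball y₀ r ∩ ball y s, inter_mem self_mem_nhdsWithin (mem_nhdsWithin_of_mem_nhds (ball_mem_nhds y hs)), fun y' => (t : ℝ)⁻¹ • (f (y' + (t : ℂ) • ν) - f y'), ?_, ?_⟩
    · have h2 : ContinuousWithinAt (fun y' => f (y' + (t : ℂ) • ν)) (T ∩ ball y₀ r) y := by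
        have h3 : ContinuousWithinAt f (T ∩ ball y₀ r) (y + (t : ℂ) • ν) := h.cont _ ⟨hT y hy.1 t, hbt y (mem_ball_self hs)⟩
        have h4 : Tendsto (fun y' : V => y' + (t : ℂ) • ν) (𝓝[T ∩ ball y₀ r] y) (𝓝[T ∩ ball y₀ r] (y + (t : ℂ) • ν)) := by
          refine tendsto_nhdsWithin_iff.2 ⟨?_, ?_⟩
          · have : Continuous fun y' : V => y' + (t : ℂ) • ν := by fun_prop
            exact (this.tendsto y).mono_left nhdsWithin_le_nhds
          · filter_upwards [inter_mem self_mem_nhdsWithin (mem_nhdsWithin_of_mem_nhds (ball_mem_nhds y hs))] with y' hy'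
            exact ⟨hT y' hy'.1.1 t, hbt y' hy'.2⟩
        exact h3.tendsto.comp h4
      exact (h2.sub (h.cont y hy)).const_smul (t⁻¹ : ℝ)
    · intro y' hy'
      refine hε𝒱 ?_
      rw [dist_comm, dist_eq_norm]
      refine ((hf' y' hy'.1).2 t (hbt y' hy'.2) ht0.ne').trans_lt htC
  · -- holomorphic in the direction `a`
    intro y hy
    have hc : Continuous fun q : ℝ × ℂ => y + q.2 • a + (q.1 : ℂ) • ν := (continuous_const.add (continuous_snd.smul continuous_const)).add ((Complex.continuous_ofReal.comp continuous_fst).smul continuous_const)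
    have hm : ∀ᶠ q in 𝓝 ((0 : ℝ), (0 : ℂ)), y + q.2 • a + (q.1 : ℂ) • ν ∈ ball y₀ r := by
      refine hc.tendsto ((0 : ℝ), (0 : ℂ)) (isOpen_ball.mem_nhds ?_)
      show y + (0 : ℂ) • a + ((0 : ℝ) : ℂ) • ν ∈ ball y₀ r
      rw [Complex.ofReal_zero, zero_smul, zero_smul, add_zero, add_zero]
      exact hy.2
    obtain ⟨s, hs, hsb⟩ := Metric.eventually_nhds_iff_ball.1 hm
    have hb : ∀ t : ℝ, |t| < s → ∀ z ∈ ball (0 : ℂ) s, y + z • a + (t : ℂ) • ν ∈ ball y₀ r := fun t ht z hz => hsb (t, z) (by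
      rw [mem_ball, Prod.dist_eq]
      exact max_lt (by rwa [dist_zero_right]) hz)
    have hya : ∀ z ∈ ball (0 : ℂ) s, y + z • a ∈ T ∩ ball y₀ r := fun z hz => ⟨hTa y hy.1 z, by
      have h2 := hb 0 (by rwa [abs_zero]) z hz
      rwa [Complex.ofReal_zero, zero_smul, add_zero] at h2⟩
    have hdiff : ∀ t : ℝ, |t| < s → DifferentiableOn ℂ (fun z : ℂ => f (y + z • a + (t : ℂ) • ν)) (ball (0 : ℂ) s) := by
      intro t ht z hz
      have h2 := h.hol (y + z • a + (t : ℂ) • ν) ⟨hT _ (hya z hz).1 t, hb t ht z hz⟩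
      have h3 : HasDerivAt (fun z' : ℂ => z' - z) 1 z := (hasDerivAt_id z).sub_const z
      have h4 : DifferentiableAt ℂ (fun z' : ℂ => f (y + z • a + (t : ℂ) • ν + (z' - z) • a)) z := by
        have h5 : DifferentiableAt ℂ (fun z'' : ℂ => f (y + z • a + (t : ℂ) • ν + z'' • a)) (z - z) := by rwa [sub_self]
        exact DifferentiableAt.comp (g := fun z'' : ℂ => f (y + z • a + (t : ℂ) • ν + z'' • a)) (f := fun z' : ℂ => z' - z) z h5 h3.differentiableAt
      refine (h4.congr_of_eventuallyEq (Eventually.of_forall fun z' => ?_)).differentiableWithinAt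
      show f (y + z' • a + (t : ℂ) • ν) = f (y + z • a + (t : ℂ) • ν + (z' - z) • a)
      congr 1
      rw [sub_smul]
      abel
    have h2 : TendstoUniformlyOn (fun (t : ℝ) (z : ℂ) => (t : ℝ)⁻¹ • (f (y + z • a + (t : ℂ) • ν) - f (y + z • a))) (fun z => f' (y + z • a)) (𝓝[≠] 0) (ball (0 : ℂ) s) := by
      rw [Metric.tendstoUniformlyOn_iff]
      intro ε hε
      have h3 : ∀ᶠ t : ℝ in 𝓝[≠] 0, C * |t| < ε := by
        have h4 : Tendsto (fun t : ℝ => C * |t|) (𝓝 0) (𝓝 (C * |(0 : ℝ)|)) := by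
          have : Continuous fun t : ℝ => C * |t| := by fun_prop
          exact this.tendsto 0
        rw [abs_zero, mul_zero] at h4
        exact (h4.eventually (gt_mem_nhds hε)).filter_mono nhdsWithin_le_nhds
      have h4 : ∀ᶠ t : ℝ in 𝓝[≠] 0, |t| < s := by
        have h5 : Tendsto (fun t : ℝ => |t|) (𝓝 0) (𝓝 |(0 : ℝ)|) := continuous_abs.tendsto 0
        rw [abs_zero] at h5
        exact (h5.eventually (gt_mem_nhds hs)).filter_mono nhdsWithin_le_nhds
      filter_upwards [h3, h4, self_mem_nhdsWithin] with t a1 a2 a3 z hz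
      rw [dist_comm, dist_eq_norm]
      exact ((hf' _ (hya z hz)).2 t (hb t a2 z hz) a3).trans_lt a1
    have h3 : DifferentiableOn ℂ (fun z => f' (y + z • a)) (ball (0 : ℂ) s) := by
      refine h2.tendstoLocallyUniformlyOn.differentiableOn ?_ isOpen_ball
      have h4 : ∀ᶠ t : ℝ in 𝓝[≠] 0, |t| < s := by
        have h5 : Tendsto (fun t : ℝ => |t|) (𝓝 0) (𝓝 |(0 : ℝ)|) := continuous_abs.tendsto 0
        rw [abs_zero] at h5
        exact (h5.eventually (gt_mem_nhds hs)).filter_mono nhdsWithin_le_nhds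
      filter_upwards [h4] with t ht
      have h5 := hdiff 0 (by rwa [abs_zero])
      simp only [Complex.ofReal_zero, zero_smul, add_zero] at h5
      exact ((hdiff t ht).sub h5).const_smul (t⁻¹ : ℝ)
    exact h3.differentiableAt (ball_mem_nhds 0 hs)
  · -- the bounds
    intro m
    obtain ⟨C', hC'⟩ := h.bd (m + 1)
    refine ⟨((m + 1 : ℕ) : ℝ) * C', fun y hy S hS hcard => ?_⟩
    have hI := bdt_isOpen y ν y₀ r
    have hg : ∀ s ∈ {s : ℝ | y + (s : ℂ) • ν ∈ ball y₀ r}, HasDerivAt (fun s : ℝ => f (y + (s : ℂ) • ν)) (f' (y + (s : ℂ) • ν)) s := by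
      intro s hs
      have h2 := (hf' (y + (s : ℂ) • ν) ⟨hT y hy.1 s, hs⟩).1
      have h3 : HasDerivAt (fun t : ℝ => t - s) 1 s := (hasDerivAt_id s).sub_const s
      have h4 : HasDerivAt (fun t : ℝ => f (y + (s : ℂ) • ν + (t : ℂ) • ν)) (f' (y + (s : ℂ) • ν)) (s - s) := by rwa [sub_self]
      have h5 := HasDerivAt.scomp (h := fun t : ℝ => t - s) (g₁ := fun t : ℝ => f (y + (s : ℂ) • ν + (t : ℂ) • ν)) s h4 h3
      rw [one_smul] at h5
      refine h5.congr_of_eventuallyEq (Eventually.of_forall fun t => ?_)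
      show f (y + (t : ℂ) • ν) = f (y + (s : ℂ) • ν + ((t - s : ℝ) : ℂ) • ν)
      congr 1
      rw [Complex.ofReal_sub, sub_smul]
      abel
    have h2 := Pool.Agent.G3.A.dd_deriv_bound hI (g := fun s : ℝ => f (y + (s : ℂ) • ν)) (g' := fun s : ℝ => f' (y + (s : ℂ) • ν)) (C := C') hg (S := S) hS
      (fun S' hS' hcard' => hC' y hy S' hS' (by omega))
    rwa [hcard] at h2

/-- all derivatives -/
theorem bdt_jet {T : Set V} {ν a y₀ : V} {r : ℝ} {f : V → ℂ} (h : BDT T ν a y₀ r f) (hT : ∀ y ∈ T, ∀ s : ℝ, y + (s : ℂ) • ν ∈ T) (hTa : ∀ y ∈ T, ∀ z : ℂ, y + z • a ∈ T) :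
    ∃ w : ℕ → V → ℂ, w 0 = f ∧ (∀ j, BDT T ν a y₀ r (w j)) ∧ ∀ j, ∀ y ∈ T ∩ ball y₀ r, HasDerivAt (fun s : ℝ => w j (y + (s : ℂ) • ν)) (w (j + 1) y) 0 := by
  classical
  have step : ∀ p : {g : V → ℂ // BDT T ν a y₀ r g}, ∃ p' : {g : V → ℂ // BDT T ν a y₀ r g}, ∀ y ∈ T ∩ ball y₀ r, HasDerivAt (fun s : ℝ => p.1 (y + (s : ℂ) • ν)) (p'.1 y) 0 := by
    rintro ⟨g, hg⟩
    obtain ⟨g', hg', hder⟩ := hg.deriv hT hTa
    exact ⟨⟨g', hg'⟩, hder⟩
  choose nxt hnxt using step
  set U : ℕ → {g : V → ℂ // BDT T ν a y₀ r g} := fun n => Nat.rec ⟨f, h⟩ (fun _ p => nxt p) n with hU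
  exact ⟨fun j => (U j).1, rfl, fun j => (U j).2, fun j y hy => hnxt (U j) y hy⟩

/-- bounds for nodes near `0` suffice -/
theorem bdt_of_loc {T : Set V} {ν y₀ : V} {r : ℝ} {f : V → ℂ} (hT : ∀ y ∈ T, ∀ s : ℝ, y + (s : ℂ) • ν ∈ T)
    (hloc : ∀ m : ℕ, ∃ η C : ℝ, 0 < η ∧ ∀ y ∈ T ∩ ball y₀ r, ∀ S : Finset ℝ, (∀ s ∈ S, |s| ≤ η) → (∀ s ∈ S, y + (s : ℂ) • ν ∈ ball y₀ r) → S.card = m + 1 →
      ‖Pool.Agent.G3.A.dd S (fun s : ℝ => f (y + (s : ℂ) • ν))‖ ≤ C) (m : ℕ) :
    ∃ C : ℝ, ∀ y ∈ T ∩ ball y₀ r, ∀ S : Finset ℝ, (∀ s ∈ S, y + (s : ℂ) • ν ∈ ball y₀ r) → S.card = m + 1 → ‖Pool.Agent.G3.A.dd S (fun s : ℝ => f (y + (s : ℂ) • ν))‖ ≤ C := by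
  classical
  -- nodes near a node
  have hnear : ∀ m : ℕ, ∃ η C : ℝ, 0 < η ∧ ∀ y ∈ T, ∀ S : Finset ℝ, ∀ s₀ ∈ S, (∀ s ∈ S, |s - s₀| ≤ η) → (∀ s ∈ S, y + (s : ℂ) • ν ∈ ball y₀ r) → S.card = m + 1 →
      ‖Pool.Agent.G3.A.dd S (fun s : ℝ => f (y + (s : ℂ) • ν))‖ ≤ C := by
    intro m
    obtain ⟨η, C, hη, h⟩ := hloc m
    refine ⟨η, C, hη, fun y hy S s₀ hs₀ hS hSb hcard => ?_⟩
    have hinj : Function.Injective fun t : ℝ => t + s₀ := add_left_injective s₀
    have h1 := h (y + (s₀ : ℂ) • ν) ⟨hT y hy s₀, hSb s₀ hs₀⟩ (S.image fun t => t + -s₀) (fun s hs => ?_) (fun s hs => ?_) ?_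
    · have h2 := Pool.Agent.G3.A.dd_image_add S (-s₀) (fun s : ℝ => f (y + (s₀ : ℂ) • ν + (s : ℂ) • ν))
      rw [h2] at h1
      have h3 : Pool.Agent.G3.A.dd S (fun t : ℝ => f (y + (s₀ : ℂ) • ν + ((t + -s₀ : ℝ) : ℂ) • ν)) = Pool.Agent.G3.A.dd S (fun s : ℝ => f (y + (s : ℂ) • ν)) := by
        refine Pool.Agent.G3.A.dd_congr fun t _ => ?_
        congr 1
        rw [Complex.ofReal_add, Complex.ofReal_neg, add_smul, neg_smul]
        abel
      rwa [h3] at h1
    · obtain ⟨t, ht, rfl⟩ := Finset.mem_image.1 hs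
      have := hS t ht
      rwa [sub_eq_add_neg] at this
    · obtain ⟨t, ht, rfl⟩ := Finset.mem_image.1 hs
      have e : y + (s₀ : ℂ) • ν + ((t + -s₀ : ℝ) : ℂ) • ν = y + (t : ℂ) • ν := by
        rw [Complex.ofReal_add, Complex.ofReal_neg, add_smul, neg_smul]
        abel
      rw [e]
      exact hSb t ht
    · rw [Finset.card_image_of_injective S (add_left_injective (-s₀)), hcard]
  induction m with
  | zero =>
    obtain ⟨η, C, hη, h⟩ := hnear 0
    refine ⟨C, fun y hy S hS hcard => ?_⟩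
    obtain ⟨s, rfl⟩ := Finset.card_eq_one.1 hcard
    refine h y hy.1 _ s (Finset.mem_singleton_self s) (fun t ht => ?_) hS hcard
    rw [Finset.mem_singleton] at ht
    rw [ht, sub_self, abs_zero]
    exact hη.le
  | succ m ih =>
    obtain ⟨C', hC'⟩ := ih
    obtain ⟨η, C, hη, hC⟩ := hnear (m + 1)
    refine ⟨max C (η⁻¹ * (C' + C')), fun y hy S hS hcard => ?_⟩
    by_cases hfar : ∃ a ∈ S, ∃ b ∈ S, η < |b - a|
    · obtain ⟨a, ha, b, hb, hab⟩ := hfar
      have hne : a ≠ b := by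
        rintro rfl
        rw [sub_self, abs_zero] at hab
        linarith
      obtain ⟨S₀, hS₀, hbS₀, haS₀⟩ : ∃ S₀ : Finset ℝ, insert a (insert b S₀) = S ∧ b ∉ S₀ ∧ a ∉ S₀ := by
        refine ⟨(S.erase a).erase b, ?_, Finset.notMem_erase b _, fun h => Finset.notMem_erase a S (Finset.mem_of_mem_erase h)⟩
        rw [Finset.insert_erase (Finset.mem_erase.2 ⟨hne.symm, hb⟩), Finset.insert_erase ha]
      have hcard0 : S₀.card = m := by
        rw [← hS₀, Finset.card_insert_of_notMem, Finset.card_insert_of_notMem hbS₀] at hcard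
        · omega
        · rw [Finset.mem_insert, not_or]
          exact ⟨hne, haS₀⟩
      have hsub : ∀ x ∈ S₀, y + ((x : ℝ) : ℂ) • ν ∈ ball y₀ r := fun x hx => hS x (by rw [← hS₀]; exact Finset.mem_insert_of_mem (Finset.mem_insert_of_mem hx))
      have h1 : ‖Pool.Agent.G3.A.dd (insert b S₀) (fun s : ℝ => f (y + (s : ℂ) • ν))‖ ≤ C' := hC' y hy _ (fun x hx => by
        rcases Finset.mem_insert.1 hx with rfl | hx
        · exact hS x hb
        · exact hsub x hx) (by rw [Finset.card_insert_of_notMem hbS₀, hcard0])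
      have h2 : ‖Pool.Agent.G3.A.dd (insert a S₀) (fun s : ℝ => f (y + (s : ℂ) • ν))‖ ≤ C' := hC' y hy _ (fun x hx => by
        rcases Finset.mem_insert.1 hx with rfl | hx
        · exact hS x ha
        · exact hsub x hx) (by rw [Finset.card_insert_of_notMem haS₀, hcard0])
      rw [← hS₀, Pool.Agent.G3.A.dd_insert_insert hne haS₀ hbS₀, norm_smul, norm_inv, Real.norm_eq_abs]
      refine le_trans ?_ (le_max_right _ _)
      have h3 : |b - a|⁻¹ ≤ η⁻¹ := inv_anti₀ hη hab.le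
      have h4 := (norm_sub_le (Pool.Agent.G3.A.dd (insert b S₀) (fun s : ℝ => f (y + (s : ℂ) • ν))) (Pool.Agent.G3.A.dd (insert a S₀) (fun s : ℝ => f (y + (s : ℂ) • ν)))).trans (add_le_add h1 h2)
      exact mul_le_mul h3 h4 (norm_nonneg _) (inv_nonneg.2 hη.le)
    · push Not at hfar
      obtain ⟨a, ha⟩ : S.Nonempty := Finset.card_pos.1 (by omega)
      exact (hC y hy.1 S a ha (fun b hb => hfar a ha b hb) hS hcard).trans (le_max_left _ _)

end Pool.Agent.G4.R

end

section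

/-!
# G4 Z Abs: limits of holomorphic functions off the hits

`V' ⊆ V` are sets, `V'` open, the discs of radius `r₂` around the points of `V'` are in `V`.  The functions `g n` are, for `𝒰`-many `n`, holomorphic near each point of `V` off the closed discrete set `Sg`; near
the points of `Sg` in `V` they agree on an annulus with a holomorphic function on the disc; on circles of radius between `r₁` and `r₂` around all points of `V'` they are bounded by `C exp (-c |z|²)`.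
`abs_lim`: then they converge on the compact subsets of `V'` off `Sg` to a function `Q`, holomorphic on `V'`, with `‖Q z‖ exp ((c / 2) |z|²) ≤ |C| exp (c r₂²)`.

Proof as in `G3/Z/Abs` (`abs_lb`: gluing at the hits in a disc, maximum principle; `ul_diff`; removable singularities).
-/

set_option autoImplicit false

open Topology Filter Metric

namespace Pool.Agent.G4

/-- gluing at finitely many discs -/
private theorem abs_glue {T : Finset ℂ} {ρ : ℂ → ℝ} (hd : ∀ s ∈ T, ∀ t ∈ T, s ≠ t → ρ s + ρ t ≤ dist s t) {J : ℂ → ℂ → ℂ} {G : ℂ → ℂ}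
    (hJ : ∀ s ∈ T, DifferentiableOn ℂ (J s) (ball s (ρ s))) (hJG : ∀ s ∈ T, ∀ z, ρ s / 4 < dist z s → dist z s < ρ s → J s z = G z)
    (hρ : ∀ s ∈ T, 0 < ρ s) {D : Set ℂ} (hG : ∀ z ∈ D, (∀ s ∈ T, ρ s ≤ dist z s) → DifferentiableAt ℂ G z) :
    ∃ W : ℂ → ℂ, (∀ z ∈ D, DifferentiableAt ℂ W z) ∧ ∀ z, (∀ s ∈ T, ρ s / 4 < dist z s) → W z = G z := by
  classical
  set W : ℂ → ℂ := fun z => if h : ∃ s ∈ T, dist z s < ρ s then J h.choose z else G z with hW
  have hWJ : ∀ s ∈ T, ∀ z ∈ ball s (ρ s), W z = J s z := by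
    intro s hs z hz
    have h : ∃ s ∈ T, dist z s < ρ s := ⟨s, hs, hz⟩
    have h1 : h.choose = s := by
      by_contra hne
      have h2 := hd _ h.choose_spec.1 s hs hne
      have h3 := h.choose_spec.2
      have h4 : dist z s < ρ s := hz
      have h5 := dist_triangle_left h.choose s z
      linarith
    simp only [hW]
    rw [dif_pos h, h1]
  have hWG : ∀ z, (∀ s ∈ T, ρ s / 4 < dist z s) → W z = G z := by
    intro z hz
    by_cases h : ∃ s ∈ T, dist z s < ρ s
    · obtain ⟨s, hs, hzs⟩ := h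
      rw [hWJ s hs z hzs]
      exact hJG s hs z (hz s hs) hzs
    · simp only [hW]
      rw [dif_neg h]
  refine ⟨W, ?_, hWG⟩
  intro z hz
  by_cases h : ∃ s ∈ T, dist z s < ρ s
  · obtain ⟨s, hs, hzs⟩ := h
    have h1 : DifferentiableAt ℂ (J s) z := (hJ s hs).differentiableAt (isOpen_ball.mem_nhds hzs)
    refine h1.congr_of_eventuallyEq ?_
    filter_upwards [isOpen_ball.mem_nhds hzs] with w hw
    exact hWJ s hs w hw
  · push Not at h
    refine (hG z hz h).congr_of_eventuallyEq ?_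
    have h2 : ∀ᶠ w in 𝓝 z, ∀ s ∈ T, ρ s / 4 < dist w s := by
      rw [Filter.eventually_all_finset]
      intro s hs
      have h3 : ρ s / 4 < dist z s := by linarith [h s hs, hρ s hs]
      exact (isOpen_lt continuous_const (continuous_id.dist continuous_const)).mem_nhds h3
    filter_upwards [h2] with w hw
    exact hWG w hw

private theorem abs_fin {Sg : Set ℂ} (hSd : ∀ z, ∀ᶠ w in 𝓝[≠] z, w ∉ Sg) {K : Set ℂ} (hK : IsCompact K) : (Sg ∩ K).Finite := by
  by_contra h
  obtain ⟨x, -, hx⟩ := Set.Infinite.exists_accPt_of_subset_isCompact h hK Set.inter_subset_right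
  rw [accPt_iff_frequently] at hx
  have h1 := hSd x
  rw [eventually_nhdsWithin_iff] at h1
  obtain ⟨w, ⟨hw1, hw2⟩, hw3⟩ := (hx.and_eventually h1).exists
  exact hw3 hw1 hw2.1

/-- the local bound -/
private theorem abs_lb (𝒰 : Ultrafilter ℕ) {V V' : Set ℂ} (hV'o : IsOpen V') {r₁ r₂ c C : ℝ} (hVV : ∀ z₀ ∈ V', closedBall z₀ r₂ ⊆ V) (hr₁ : 0 < r₁) (hc : 0 < c) {Sg : Set ℂ}
    (hSc : IsClosed Sg) (hSd : ∀ z, ∀ᶠ w in 𝓝[≠] z, w ∉ Sg) {g : ℕ → ℂ → ℂ}
    (h1 : ∀ z₀ ∈ V, z₀ ∉ Sg → ∃ r : ℝ, 0 < r ∧ ∀ᶠ n in (𝒰 : Filter ℕ), DifferentiableOn ℂ (g n) (ball z₀ r))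
    (h2 : ∀ z₀ ∈ V, z₀ ∈ Sg → ∀ ε : ℝ, 0 < ε → ∃ r : ℝ, 0 < r ∧ r < ε ∧
      ∀ᶠ n in (𝒰 : Filter ℕ), ∃ J : ℂ → ℂ, DifferentiableOn ℂ J (ball z₀ r) ∧ ∀ z, r / 4 < dist z z₀ → dist z z₀ < r → J z = g n z)
    (hb : ∀ z₀ ∈ V', ∃ r ∈ Set.Icc r₁ r₂, (∀ z, dist z z₀ = r → z ∉ Sg) ∧
      ∀ᶠ n in (𝒰 : Filter ℕ), ∀ z, dist z z₀ = r → ‖g n z‖ ≤ C * Real.exp (-c * ‖z‖ ^ 2)) {z₀ : ℂ} (hz₀ : z₀ ∈ V') (hz₀S : z₀ ∉ Sg) :
    ∃ δ : ℝ, 0 < δ ∧ ball z₀ δ ⊆ V' \ Sg ∧ ∀ᶠ n in (𝒰 : Filter ℕ), DifferentiableOn ℂ (g n) (ball z₀ δ) ∧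
      ∀ z ∈ ball z₀ δ, ‖g n z‖ ≤ |C| * Real.exp (-c * (max 0 (‖z₀‖ - r₂)) ^ 2) := by
  classical
  obtain ⟨r, ⟨hr1, hr2⟩, hcS, hcb⟩ := hb z₀ hz₀
  have hr0 : 0 < r := hr₁.trans_le hr1
  have hD : closedBall z₀ r ⊆ V := (closedBall_subset_closedBall hr2).trans (hVV z₀ hz₀)
  obtain ⟨r', hr', hdr'⟩ := h1 z₀ (hD (mem_closedBall_self hr0.le)) hz₀S
  have hopen : IsOpen (V' \ Sg) := hV'o.sdiff hSc
  obtain ⟨δ₀, hδ₀, hδ₀s⟩ := Metric.isOpen_iff.1 hopen z₀ ⟨hz₀, hz₀S⟩
  obtain ⟨δ, hδ, hδa, hδb, hδc⟩ : ∃ δ : ℝ, 0 < δ ∧ δ ≤ δ₀ / 2 ∧ δ ≤ r' ∧ δ ≤ r₁ :=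
    ⟨min (δ₀ / 2) (min r' r₁), lt_min (by linarith) (lt_min hr' hr₁), min_le_left _ _, (min_le_right _ _).trans (min_le_left _ _),
      (min_le_right _ _).trans (min_le_right _ _)⟩
  have hfin : (Sg ∩ closedBall z₀ r).Finite := abs_fin hSd (isCompact_closedBall z₀ r)
  obtain ⟨T, hTmem⟩ : ∃ T : Finset ℂ, ∀ s, s ∈ T ↔ s ∈ Sg ∧ s ∈ closedBall z₀ r := ⟨hfin.toFinset, fun s => by rw [hfin.mem_toFinset]; rfl⟩
  have hTr : ∀ s ∈ T, dist s z₀ < r := by
    intro s hs
    obtain ⟨hs1, hs2⟩ := (hTmem s).1 hs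
    rcases (mem_closedBall.1 hs2).lt_or_eq with h | h
    · exact h
    · exact absurd hs1 (hcS s h)
  have hTδ : ∀ s ∈ T, δ₀ ≤ dist s z₀ := by
    intro s hs
    by_contra hlt
    push Not at hlt
    exact (hδ₀s (mem_ball.2 hlt)).2 ((hTmem s).1 hs).1
  obtain ⟨ε, hε0, hεT, hεr, hεδ⟩ : ∃ ε : ℝ, 0 < ε ∧ (∀ s ∈ T, ∀ t ∈ T, s ≠ t → 2 * ε ≤ dist s t) ∧ (∀ s ∈ T, ε ≤ r - dist s z₀) ∧ ε ≤ δ := by
    have key : ∀ a : ℝ, 0 < a → ∀ᶠ ε in 𝓝[>] (0 : ℝ), ε ≤ a := fun a ha => by
      filter_upwards [Ioo_mem_nhdsGT ha] with ε hε using hε.2.le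
    have e1 : ∀ᶠ ε in 𝓝[>] (0 : ℝ), ∀ s ∈ T, ∀ t ∈ T, s ≠ t → 2 * ε ≤ dist s t := by
      rw [Filter.eventually_all_finset]
      intro s hs
      rw [Filter.eventually_all_finset]
      intro t ht
      by_cases hst : s = t
      · exact Eventually.of_forall fun ε h => absurd hst h
      · filter_upwards [key (dist s t / 2) (by have := dist_pos.2 hst; positivity)] with ε hε _
        linarith
    have e2 : ∀ᶠ ε in 𝓝[>] (0 : ℝ), ∀ s ∈ T, ε ≤ r - dist s z₀ := by
      rw [Filter.eventually_all_finset]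
      intro s hs
      exact key _ (by linarith [hTr s hs])
    have e4 : ∀ᶠ ε in 𝓝[>] (0 : ℝ), 0 < ε := self_mem_nhdsWithin
    obtain ⟨ε, hε1, hε2, hε3, hε4⟩ := (e1.and (e2.and ((key δ hδ).and e4))).exists
    exact ⟨ε, hε4, hε1, hε2, hε3⟩
  have h3 : ∀ s, ∃ ρ : ℝ, s ∈ T → 0 < ρ ∧ ρ < ε ∧ ∀ᶠ n in (𝒰 : Filter ℕ), ∃ J : ℂ → ℂ, DifferentiableOn ℂ J (ball s ρ) ∧
      ∀ z, ρ / 4 < dist z s → dist z s < ρ → J z = g n z := by
    intro s
    by_cases hs : s ∈ T
    · obtain ⟨ρ, h3⟩ := h2 s (hD ((hTmem s).1 hs).2) ((hTmem s).1 hs).1 ε hε0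
      exact ⟨ρ, fun _ => h3⟩
    · exact ⟨0, fun h => absurd h hs⟩
  choose ρ hρ using h3
  have hJ : ∀ᶠ n in (𝒰 : Filter ℕ), ∀ s ∈ T, ∃ J : ℂ → ℂ, DifferentiableOn ℂ J (ball s (ρ s)) ∧
      ∀ z, ρ s / 4 < dist z s → dist z s < ρ s → J z = g n z := by
    rw [Filter.eventually_all_finset]
    intro s hs
    exact (hρ s hs).2.2
  set Q : Set ℂ := closedBall z₀ r \ ⋃ s ∈ T, ball s (ρ s) with hQ
  have hQc : IsCompact Q := (isCompact_closedBall z₀ r).diff (isOpen_biUnion fun s _ => isOpen_ball)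
  have hQS : ∀ z ∈ Q, z ∉ Sg := by
    intro z hz hzS
    have h4 : z ∈ T := (hTmem z).2 ⟨hzS, hz.1⟩
    apply hz.2
    rw [Set.mem_iUnion₂]
    exact ⟨z, h4, mem_ball_self (hρ z h4).1⟩
  have hQd : ∀ᶠ n in (𝒰 : Filter ℕ), ∀ z ∈ Q, DifferentiableAt ℂ (g n) z := by
    refine hQc.induction_on (p := fun S => ∀ᶠ n in (𝒰 : Filter ℕ), ∀ z ∈ S, DifferentiableAt ℂ (g n) z) ?_ ?_ ?_ ?_
    · exact Eventually.of_forall fun n z hz => absurd hz (Set.notMem_empty z)
    · intro s t hst ht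
      filter_upwards [ht] with n hn z hz
      exact hn z (hst hz)
    · intro s t hs ht
      filter_upwards [hs, ht] with n hn1 hn2 z hz
      rcases hz with hz | hz
      · exact hn1 z hz
      · exact hn2 z hz
    · intro x hx
      obtain ⟨a, ha, h4⟩ := h1 x (hD hx.1) (hQS x hx)
      refine ⟨ball x a, mem_nhdsWithin_of_mem_nhds (ball_mem_nhds x ha), ?_⟩
      filter_upwards [h4] with n hn z hz
      exact hn.differentiableAt (isOpen_ball.mem_nhds hz)
  refine ⟨δ, hδ, (ball_subset_ball (by linarith)).trans hδ₀s, ?_⟩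
  filter_upwards [hJ, hQd, hcb, hdr'] with n hn1 hn2 hn3 hn4
  refine ⟨hn4.mono (ball_subset_ball hδb), ?_⟩
  intro z hz
  choose! J hJ1 using hn1
  obtain ⟨W, hW1, hW2⟩ := abs_glue (T := T) (ρ := ρ) (J := J) (G := g n) (D := closedBall z₀ r)
    (by
      intro s hs t ht hst
      have := hεT s hs t ht hst
      linarith [(hρ s hs).2.1, (hρ t ht).2.1])
    (fun s hs => (hJ1 s hs).1) (fun s hs => (hJ1 s hs).2) (fun s hs => (hρ s hs).1)
    (by
      intro w hw hws
      refine hn2 w ⟨hw, ?_⟩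
      rw [Set.mem_iUnion₂]
      rintro ⟨s, hs, hws'⟩
      exact absurd (hws s hs) (not_le.2 hws'))
  have hzr : z ∈ closedBall z₀ r := by
    rw [mem_ball] at hz
    rw [mem_closedBall]
    linarith
  have hWz : W z = g n z := by
    refine hW2 z fun s hs => ?_
    have h5 := hTδ s hs
    have h6 := dist_triangle_right s z₀ z
    rw [mem_ball] at hz
    have h7 := (hρ s hs).2.1
    have h8 := (hρ s hs).1
    rw [dist_comm s z, dist_comm z₀ z] at h6
    linarith
  rw [← hWz]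
  have hWd : DiffContOnCl ℂ W (ball z₀ r) := by
    refine ⟨fun w hw => (hW1 w (ball_subset_closedBall hw)).differentiableWithinAt, ?_⟩
    rw [closure_ball _ hr0.ne']
    exact fun w hw => (hW1 w hw).continuousAt.continuousWithinAt
  refine Complex.norm_le_of_forall_mem_frontier_norm_le isBounded_ball hWd ?_ (by rw [closure_ball _ hr0.ne']; exact hzr)
  intro w hw
  rw [frontier_ball _ hr0.ne', mem_sphere] at hw
  have hWw : W w = g n w := by
    refine hW2 w fun s hs => ?_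
    have h5 := hεr s hs
    have h6 := dist_triangle_right w z₀ s
    have h7 := (hρ s hs).2.1
    have h8 := (hρ s hs).1
    rw [hw, dist_comm z₀ s] at h6
    linarith
  rw [hWw]
  refine (hn3 w hw).trans ?_
  refine mul_le_mul (le_abs_self C) ?_ (Real.exp_pos _).le (abs_nonneg C)
  rw [Real.exp_le_exp]
  have h9 : max 0 (‖z₀‖ - r₂) ≤ ‖w‖ := by
    refine max_le (norm_nonneg _) ?_
    have h10 := norm_sub_norm_le z₀ w
    rw [← dist_eq_norm, dist_comm, hw] at h10
    linarith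
  have h11 : (max 0 (‖z₀‖ - r₂)) ^ 2 ≤ ‖w‖ ^ 2 := pow_le_pow_left₀ (le_max_left _ _) h9 2
  nlinarith

/-- the limit -/
theorem abs_lim (𝒰 : Ultrafilter ℕ) {V V' : Set ℂ} (hV'o : IsOpen V') {r₁ r₂ c C : ℝ} (hVV : ∀ z₀ ∈ V', closedBall z₀ r₂ ⊆ V) (hr₁ : 0 < r₁) (hr : r₁ ≤ r₂) (hc : 0 < c) {Sg : Set ℂ}
    (hSc : IsClosed Sg)
    (hSd : ∀ z, ∀ᶠ w in 𝓝[≠] z, w ∉ Sg) {g : ℕ → ℂ → ℂ}
    (h1 : ∀ z₀ ∈ V, z₀ ∉ Sg → ∃ r : ℝ, 0 < r ∧ ∀ᶠ n in (𝒰 : Filter ℕ), DifferentiableOn ℂ (g n) (ball z₀ r))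
    (h2 : ∀ z₀ ∈ V, z₀ ∈ Sg → ∀ ε : ℝ, 0 < ε → ∃ r : ℝ, 0 < r ∧ r < ε ∧
      ∀ᶠ n in (𝒰 : Filter ℕ), ∃ J : ℂ → ℂ, DifferentiableOn ℂ J (ball z₀ r) ∧ ∀ z, r / 4 < dist z z₀ → dist z z₀ < r → J z = g n z)
    (hb : ∀ z₀ ∈ V', ∃ r ∈ Set.Icc r₁ r₂, (∀ z, dist z z₀ = r → z ∉ Sg) ∧
      ∀ᶠ n in (𝒰 : Filter ℕ), ∀ z, dist z z₀ = r → ‖g n z‖ ≤ C * Real.exp (-c * ‖z‖ ^ 2)) :
    ∃ Q : ℂ → ℂ, (∀ z ∈ V', DifferentiableAt ℂ Q z) ∧ (∀ z ∈ V', ‖Q z‖ * Real.exp (c / 2 * ‖z‖ ^ 2) ≤ |C| * Real.exp (c * r₂ ^ 2)) ∧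
      ∀ K ⊆ V' \ Sg, IsCompact K → ∀ ε : ℝ, 0 < ε → ∀ᶠ n in (𝒰 : Filter ℕ), ∀ z ∈ K, ‖g n z - Q z‖ < ε := by
  classical
  have hVo : IsOpen (V' \ Sg) := hV'o.sdiff hSc
  have hlim : ∀ z₀, ∃ (δ : ℝ) (K : ℂ → ℂ), z₀ ∈ V' \ Sg → 0 < δ ∧ ball z₀ δ ⊆ V' \ Sg ∧ DifferentiableOn ℂ K (ball z₀ δ) ∧
      (∀ z ∈ ball z₀ δ, ‖K z‖ ≤ |C| * Real.exp (-c * (max 0 (‖z₀‖ - r₂)) ^ 2)) ∧
      ∀ z ∈ ball z₀ δ, ∀ w : ℕ → ℂ, Tendsto w (𝒰 : Filter ℕ) (𝓝 z) → Tendsto (fun n => g n (w n)) (𝒰 : Filter ℕ) (𝓝 (K z)) := by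
    intro z₀
    by_cases hz : z₀ ∈ V' \ Sg
    · obtain ⟨δ, hδ, hδs, h⟩ := abs_lb 𝒰 hV'o hVV hr₁ hc hSc hSd h1 h2 hb hz.1 hz.2
      obtain ⟨K, hK1, hK2, hK3⟩ := Pool.Agent.G3.A.ul_diff h
      exact ⟨δ, K, fun _ => ⟨hδ, hδs, hK1, hK2, hK3⟩⟩
    · exact ⟨0, fun _ => 0, fun h => absurd h hz⟩
  choose δ K hK using hlim
  obtain ⟨P, hP⟩ : ∃ P : ℂ → ℂ, ∀ z, P z = K z z := ⟨fun z => K z z, fun z => rfl⟩
  have hPt : ∀ z ∈ V' \ Sg, ∀ w : ℕ → ℂ, Tendsto w (𝒰 : Filter ℕ) (𝓝 z) → Tendsto (fun n => g n (w n)) (𝒰 : Filter ℕ) (𝓝 (P z)) := by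
    intro z hz w hw
    rw [hP]
    exact (hK z hz).2.2.2.2 z (mem_ball_self (hK z hz).1) w hw
  have hPK : ∀ z₀ ∈ V' \ Sg, ∀ z ∈ ball z₀ (δ z₀), P z = K z₀ z := by
    intro z₀ hz₀ z hz
    have hzV := (hK z₀ hz₀).2.1 hz
    exact tendsto_nhds_unique (hPt z hzV (fun _ => z) tendsto_const_nhds) ((hK z₀ hz₀).2.2.2.2 z hz (fun _ => z) tendsto_const_nhds)
  have hPd : ∀ z ∈ V' \ Sg, DifferentiableAt ℂ P z := by
    intro z₀ hz₀
    have h3 : DifferentiableAt ℂ (K z₀) z₀ := (hK z₀ hz₀).2.2.1.differentiableAt (ball_mem_nhds _ (hK z₀ hz₀).1)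
    refine h3.congr_of_eventuallyEq ?_
    filter_upwards [ball_mem_nhds z₀ (hK z₀ hz₀).1] with z hz
    exact hPK z₀ hz₀ z hz
  have hPb : ∀ z ∈ V' \ Sg, ‖P z‖ ≤ |C| * Real.exp (-c * (max 0 (‖z‖ - r₂)) ^ 2) := by
    intro z hz
    rw [hP]
    exact (hK z hz).2.2.2.1 z (mem_ball_self (hK z hz).1)
  have hPb1 : ∀ z ∈ V' \ Sg, ‖P z‖ ≤ |C| := by
    intro z hz
    refine (hPb z hz).trans (mul_le_of_le_one_right (abs_nonneg C) ?_)
    rw [Real.exp_le_one_iff]
    nlinarith [sq_nonneg (max 0 (‖z‖ - r₂))]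
  -- extension
  obtain ⟨Q, hQS, hQP⟩ : ∃ Q : ℂ → ℂ, (∀ z ∈ Sg, Q z = limUnder (𝓝[≠] z) P) ∧ ∀ z, z ∉ Sg → Q z = P z :=
    ⟨fun z => if z ∈ Sg then limUnder (𝓝[≠] z) P else P z, fun z hz => if_pos hz, fun z hz => if_neg hz⟩
  have hQd : ∀ z ∈ V', DifferentiableAt ℂ Q z := by
    intro z hz
    by_cases hzS : z ∈ Sg
    · have h3 : ∀ᶠ w in 𝓝[≠] z, w ∉ Sg := hSd z
      rw [eventually_nhdsWithin_iff] at h3
      obtain ⟨a, ha, h4⟩ := Metric.eventually_nhds_iff_ball.1 (h3.and (hV'o.mem_nhds hz))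
      have h5 : DifferentiableOn ℂ (Function.update P z (limUnder (𝓝[≠] z) P)) (ball z a) := by
        refine Complex.differentiableOn_update_limUnder_of_bddAbove (ball_mem_nhds z ha) ?_ ?_
        · intro w hw
          exact (hPd w ⟨(h4 w hw.1).2, (h4 w hw.1).1 hw.2⟩).differentiableWithinAt
        · refine ⟨|C|, ?_⟩
          rintro _ ⟨w, hw, rfl⟩
          exact hPb1 w ⟨(h4 w hw.1).2, (h4 w hw.1).1 hw.2⟩
      refine (h5.differentiableAt (ball_mem_nhds z ha)).congr_of_eventuallyEq ?_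
      filter_upwards [ball_mem_nhds z ha] with w hw
      by_cases hwz : w = z
      · rw [hwz, Function.update_self]
        exact hQS z hzS
      · rw [Function.update_of_ne hwz]
        exact hQP w ((h4 w hw).1 hwz)
    · refine (hPd z ⟨hz, hzS⟩).congr_of_eventuallyEq ?_
      filter_upwards [hSc.isOpen_compl.mem_nhds hzS] with w hw
      exact hQP w hw
  have hexp : ∀ z : ℂ, Real.exp (-c * (max 0 (‖z‖ - r₂)) ^ 2) * Real.exp (c / 2 * ‖z‖ ^ 2) ≤ Real.exp (c * r₂ ^ 2) := by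
    intro z
    rw [← Real.exp_add, Real.exp_le_exp]
    rcases le_total 0 (‖z‖ - r₂) with h | h
    · rw [max_eq_right h]
      nlinarith [mul_nonneg hc.le (sq_nonneg (‖z‖ - 2 * r₂))]
    · rw [max_eq_left h]
      have h3 := norm_nonneg z
      have h4 : ‖z‖ ^ 2 ≤ r₂ ^ 2 := pow_le_pow_left₀ h3 (by linarith) 2
      nlinarith [sq_nonneg r₂]
  have hPe : ∀ z ∈ V' \ Sg, ‖P z‖ * Real.exp (c / 2 * ‖z‖ ^ 2) ≤ |C| * Real.exp (c * r₂ ^ 2) := by
    intro z hz
    calc ‖P z‖ * Real.exp (c / 2 * ‖z‖ ^ 2) ≤ |C| * Real.exp (-c * (max 0 (‖z‖ - r₂)) ^ 2) * Real.exp (c / 2 * ‖z‖ ^ 2) :=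
          mul_le_mul_of_nonneg_right (hPb z hz) (Real.exp_pos _).le
      _ = |C| * (Real.exp (-c * (max 0 (‖z‖ - r₂)) ^ 2) * Real.exp (c / 2 * ‖z‖ ^ 2)) := by ring
      _ ≤ |C| * Real.exp (c * r₂ ^ 2) := mul_le_mul_of_nonneg_left (hexp z) (abs_nonneg C)
  have hQe : ∀ z ∈ V', ‖Q z‖ * Real.exp (c / 2 * ‖z‖ ^ 2) ≤ |C| * Real.exp (c * r₂ ^ 2) := by
    intro z hz
    by_cases hzS : z ∈ Sg
    · have hcont : ContinuousAt (fun w : ℂ => ‖Q w‖ * Real.exp (c / 2 * ‖w‖ ^ 2)) z := by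
        refine (hQd z hz).continuousAt.norm.mul ?_
        fun_prop
      have ht : Tendsto (fun w : ℂ => ‖Q w‖ * Real.exp (c / 2 * ‖w‖ ^ 2)) (𝓝[≠] z) (𝓝 (‖Q z‖ * Real.exp (c / 2 * ‖z‖ ^ 2))) :=
        hcont.tendsto.mono_left nhdsWithin_le_nhds
      refine le_of_tendsto ht ?_
      filter_upwards [hSd z, mem_nhdsWithin_of_mem_nhds (hV'o.mem_nhds hz)] with w hw1 hw2
      rw [hQP w hw1]
      exact hPe w ⟨hw2, hw1⟩
    · rw [hQP z hzS]
      exact hPe z ⟨hz, hzS⟩
  refine ⟨Q, hQd, hQe, ?_⟩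
  -- conclusion
  intro K' hK' hK'c ε hε
  by_contra hcon
  rw [← Ultrafilter.eventually_not] at hcon
  have h3 : ∀ n, ∃ z, (¬ ∀ z ∈ K', ‖g n z - Q z‖ < ε) → z ∈ K' ∧ ε ≤ ‖g n z - Q z‖ := by
    intro n
    by_cases h : ∀ z ∈ K', ‖g n z - Q z‖ < ε
    · exact ⟨0, fun h' => absurd h h'⟩
    · push Not at h
      obtain ⟨z, hz1, hz2⟩ := h
      exact ⟨z, fun _ => ⟨hz1, hz2⟩⟩
  choose w hw using h3
  obtain ⟨z, hzK, hz⟩ := hK'c.ultrafilter_le_nhds (𝒰.map w) (by
    rw [Ultrafilter.coe_map, le_principal_iff, mem_map]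
    filter_upwards [hcon] with n hn
    exact (hw n hn).1)
  have h5 := hPt z (hK' hzK) w hz
  have h6 : Tendsto (fun n => Q (w n)) (𝒰 : Filter ℕ) (𝓝 (P z)) := by
    rw [← hQP z (hK' hzK).2]
    exact (hQd z (hK' hzK).1).continuousAt.tendsto.comp hz
  have h7 := (h5.sub h6).norm
  rw [sub_self, norm_zero] at h7
  obtain ⟨n, h9, h10⟩ := ((h7.eventually (gt_mem_nhds hε)).and hcon).exists
  exact absurd h9 (not_lt.2 (hw n h10).2)

end Pool.Agent.G4

end

section

/-!
# The uniform modulus of continuity of holomorphic discs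
-/

open Topology Filter

namespace Pool.Agent.H17

variable {N : ℕ}

/-- Composition with a holomorphic function. -/
lemma HolomorphicInto.comp {f : ℂ → PN N} {V U : Set ℂ} (hf : HolomorphicInto f V) {u : ℂ → ℂ}
    (hu : ∀ z ∈ U, AnalyticAt ℂ u z) (hUV : ∀ z ∈ U, u z ∈ V) :
    HolomorphicInto (fun z => f (u z)) U := by
  intro z₀ hz₀
  obtain ⟨φ, hφ, he⟩ := hf (u z₀) (hUV z₀ hz₀)
  exact ⟨fun z => φ (u z), hφ.comp (hu z₀ hz₀), (hu z₀ hz₀).continuousAt.eventually he⟩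

end Pool.Agent.H17

end

section

/-!
# Varieties of log general type, in terms of their function field
-/

open MvPolynomial
open Pool.Agent.H23 (RatForm regularForms PrimeDivisorOver)
open Pool.Agent.H17GT (RegularAlong coordFun functionField)

noncomputable section

namespace Pool.Agent.H17LG

section FunctionField

variable {K : Type} [Field K] [Algebra ℂ K] {k : ℕ}

/-- The rational `m`-canonical form `f ω^m` has at most logarithmic poles along the prime divisor
`E`: one has `ω = g η` with `η` regular along `E` and `f g ^ m` has a pole of order at most `m`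
along `E`. -/
def LogRegularAlong (E : PrimeDivisorOver K k) (m : ℕ) (f : K) (ω : RatForm K k) : Prop :=
  ∃ (g : K) (η : RatForm K k), η ∈ regularForms k E.localRing ∧ ω = g • η ∧
    0 ≤ E.ord (f * g ^ m) + m

/-- Let `U` be a variety of dimension `k` with function field `K`, and let `B` be the set of the
prime divisors over `K` whose centre lies in the boundary of a compactification of `U`. The variety
`U` is of log general type: for some `m ≥ 1` there are `m`-canonical forms `f₀ ω^m, …, f_r ω^m`,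
regular along all prime divisors outside `B`, with at most logarithmic poles along the prime
divisors in `B`, which define a generically finite rational map. -/
def IsLogGeneralType (B : PrimeDivisorOver K k → Prop) : Prop :=
  ∃ m : ℕ, 1 ≤ m ∧ ∃ ω : RatForm K k, ω ≠ 0 ∧ ∃ (r : ℕ) (f : Fin (r + 1) → K), f 0 ≠ 0 ∧
    (∀ i, ∀ E : PrimeDivisorOver K k, (¬ B E → RegularAlong E m (f i) ω) ∧
      (B E → LogRegularAlong E m (f i) ω)) ∧
    Algebra.IsAlgebraic (IntermediateField.adjoin ℂ (Set.range fun i => f i / f 0)) K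

end FunctionField

/-- The function `x_i / x_j` on the subvariety of `ℙ^N` given by `P`. -/
def ratio {N : ℕ} (P : Ideal (MvPolynomial (Fin (N + 1)) ℂ)) [P.IsPrime] (i j : Fin (N + 1)) :
    functionField P :=
  ⟨coordFun P i / coordFun P j, IntermediateField.subset_adjoin _ _ ⟨i, j, rfl⟩⟩

end Pool.Agent.H17LG

end
end

section

/-!
# V Up: an entire curve with bounded derivative has order at most two
-/

set_option autoImplicit false

open Topology Filter Metric

namespace Pool.Agent.H14.V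

open Pool.Agent.H36.BP (EN wd)

variable {N : ℕ}

theorem norm_ofLp_le (x : EN N) : ‖x.ofLp‖ ≤ ‖x‖ := by
  rw [pi_norm_le_iff_of_nonneg (norm_nonneg _)]
  exact fun i => PiLp.norm_apply_le x i

theorem norm_le_ofLp (x : EN N) : ‖x‖ ≤ Real.sqrt (N + 1) * ‖x.ofLp‖ := by
  rw [EuclideanSpace.norm_eq]
  have h1 : ∑ i, ‖x i‖ ^ 2 ≤ (N + 1) * ‖x.ofLp‖ ^ 2 := by
    calc ∑ i, ‖x i‖ ^ 2 ≤ ∑ _i : Fin (N + 1), ‖x.ofLp‖ ^ 2 :=
          Finset.sum_le_sum fun i _ => pow_le_pow_left₀ (norm_nonneg _) (norm_le_pi_norm x.ofLp i) 2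
      _ = (N + 1) * ‖x.ofLp‖ ^ 2 := by simp
  calc Real.sqrt (∑ i, ‖x i‖ ^ 2) ≤ Real.sqrt ((N + 1) * ‖x.ofLp‖ ^ 2) := Real.sqrt_le_sqrt h1
    _ = Real.sqrt (N + 1) * ‖x.ofLp‖ := by rw [Real.sqrt_mul (by positivity), Real.sqrt_sq (norm_nonneg _)]

end Pool.Agent.H14.V

end

section

/-!
# G3 PerExt: holomorphic functions with period `2 π i` and polynomial growth on a half plane extend to the puncture
-/

set_option autoImplicit false

open Set Metric Filter Topology Real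

namespace Pool.Agent.H56.G3

variable {E : Type*} [NormedAddCommGroup E] [NormedSpace ℂ E] [CompleteSpace E]

private lemma tend_log (K : ℝ) (p : ℕ) : Tendsto (fun z : ℂ => ‖z‖ * (K * (1 + |Real.log ‖z‖|) ^ p)) (𝓝[≠] 0) (𝓝 0) := by
  have hs : Tendsto (fun z : ℂ => - Real.log ‖z‖) (𝓝[≠] 0) atTop := by
    have h1 : Tendsto (fun z : ℂ => ‖z‖) (𝓝[≠] 0) (𝓝[>] 0) := by
      apply tendsto_nhdsWithin_of_tendsto_nhds_of_eventually_within
      · have : Tendsto (fun z : ℂ => ‖z‖) (𝓝 0) (𝓝 ‖(0 : ℂ)‖) := continuous_norm.tendsto 0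
        rw [norm_zero] at this
        exact this.mono_left nhdsWithin_le_nhds
      · filter_upwards [self_mem_nhdsWithin] with z hz
        exact norm_pos_iff.2 hz
    exact tendsto_neg_atBot_atTop.comp (Real.tendsto_log_nhdsGT_zero.comp h1)
  have hb : Tendsto (fun s : ℝ => (|K| * 2 ^ p) * (s ^ p * Real.exp (-s))) atTop (𝓝 0) := by
    have := (tendsto_pow_mul_exp_neg_atTop_nhds_zero p).const_mul (|K| * 2 ^ p)
    rwa [mul_zero] at this
  have hc := hb.comp hs
  refine squeeze_zero_norm' ?_ hc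
  filter_upwards [hs.eventually_ge_atTop 1, self_mem_nhdsWithin] with z hz hz0
  have hz0' : 0 < ‖z‖ := norm_pos_iff.2 hz0
  have hexp : Real.exp (-(-Real.log ‖z‖)) = ‖z‖ := by rw [neg_neg, Real.exp_log hz0']
  simp only [Function.comp]
  rw [hexp, norm_mul, norm_mul, norm_norm, Real.norm_eq_abs, norm_pow, Real.norm_eq_abs]
  have habs : |Real.log ‖z‖| = -Real.log ‖z‖ := abs_of_nonpos (by linarith)
  rw [habs]
  have h1 : |1 + -Real.log ‖z‖| ≤ 2 * (-Real.log ‖z‖) := by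
    rw [abs_of_nonneg (by linarith)]; linarith
  have h2 : |1 + -Real.log ‖z‖| ^ p ≤ (2 * (-Real.log ‖z‖)) ^ p := pow_le_pow_left₀ (abs_nonneg _) h1 p
  rw [mul_pow] at h2
  calc ‖z‖ * (|K| * |1 + -Real.log ‖z‖| ^ p) ≤ ‖z‖ * (|K| * (2 ^ p * (-Real.log ‖z‖) ^ p)) := by
        gcongr
    _ = |K| * 2 ^ p * ((-Real.log ‖z‖) ^ p * ‖z‖) := by ring

/-- A holomorphic function on a half plane with period `2 π i` and polynomial growth is a holomorphic function of `exp w`. -/
theorem per_ext {g : ℂ → E} {T K : ℝ} {p : ℕ} (hg : DifferentiableOn ℂ g {w | w.re < T}) (hper : ∀ w : ℂ, w.re < T → g (w + 2 * π * Complex.I) = g w)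
    (hb : ∀ w : ℂ, w.re < T → ‖g w‖ ≤ K * (1 + |w.re|) ^ p) :
    ∃ G : ℂ → E, DifferentiableOn ℂ G (ball 0 (Real.exp T)) ∧ ∀ w : ℂ, w.re < T → g w = G (Complex.exp w) := by
  have hre : ∀ (n : ℤ) (w : ℂ), (w + n * (2 * π * Complex.I)).re = w.re := by
    intro n w; simp
  have hpn : ∀ (n : ℕ) (w : ℂ), w.re < T → g (w + n * (2 * π * Complex.I)) = g w := by
    intro n
    induction n with
    | zero => intro w _; simp
    | succ n ih =>
      intro w hw
      have h1 : w + ((n + 1 : ℕ) : ℂ) * (2 * π * Complex.I) = (w + n * (2 * π * Complex.I)) + 2 * π * Complex.I := by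
        push_cast; ring
      have h2 : (w + n * (2 * π * Complex.I)).re < T := by
        have := hre n w
        push_cast at this
        rw [this]; exact hw
      rw [h1, hper _ h2, ih w hw]
  have hpz : ∀ (n : ℤ) (w : ℂ), w.re < T → g (w + n * (2 * π * Complex.I)) = g w := by
    intro n w hw
    rcases Int.eq_nat_or_neg n with ⟨k, hk | hk⟩
    · rw [hk]; push_cast; exact hpn k w hw
    · have hw' : (w + n * (2 * π * Complex.I)).re < T := by rw [hre]; exact hw
      have h1 := hpn k _ hw'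
      rw [hk] at h1 ⊢
      have h2 : w + ((-(k : ℤ) : ℤ) : ℂ) * (2 * π * Complex.I) + (k : ℂ) * (2 * π * Complex.I) = w := by
        push_cast; ring
      rw [h2] at h1
      exact h1.symm
  have heq : ∀ w w' : ℂ, w'.re < T → Complex.exp w = Complex.exp w' → g w = g w' := by
    intro w w' hw h
    obtain ⟨n, hn⟩ := Complex.exp_eq_exp_iff_exists_int.1 h
    rw [hn]
    exact hpz n w' hw
  have hmem : ∀ z : ℂ, z ∈ ball (0 : ℂ) (Real.exp T) \ {0} → (Complex.log z).re < T := by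
    intro z hz
    have hz0 : z ≠ 0 := hz.2
    rw [Complex.log_re, Real.log_lt_iff_lt_exp (norm_pos_iff.2 hz0)]
    simpa using hz.1
  have hd : DifferentiableOn ℂ (fun z => g (Complex.log z)) (ball 0 (Real.exp T) \ {0}) := by
    intro z₀ hz₀
    have hz0 : z₀ ≠ 0 := hz₀.2
    have hopen : IsOpen {w : ℂ | w.re < T} := isOpen_lt Complex.continuous_re continuous_const
    have hat : DifferentiableAt ℂ (fun z => g (Complex.log z₀ + Complex.log (z / z₀))) z₀ := by
      have h1 : DifferentiableAt ℂ g (Complex.log z₀ + Complex.log (z₀ / z₀)) := by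
        rw [div_self hz0, Complex.log_one, add_zero]
        exact (hg _ (hmem z₀ hz₀)).differentiableAt (hopen.mem_nhds (hmem z₀ hz₀))
      have h2 : DifferentiableAt ℂ (fun z : ℂ => Complex.log z₀ + Complex.log (z / z₀)) z₀ := by
        apply DifferentiableAt.const_add
        apply DifferentiableAt.clog (by fun_prop)
        rw [div_self hz0]
        exact Complex.one_mem_slitPlane
      exact h1.comp z₀ h2
    have hev : (fun z => g (Complex.log z)) =ᶠ[𝓝 z₀] (fun z => g (Complex.log z₀ + Complex.log (z / z₀))) := by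
      have ho : IsOpen (ball (0 : ℂ) (Real.exp T) \ {0}) := isOpen_ball.sdiff isClosed_singleton
      filter_upwards [ho.mem_nhds hz₀] with z hz
      refine (heq _ _ (hmem z hz) ?_).symm
      have hzz : z ≠ 0 := hz.2
      rw [Complex.exp_add, Complex.exp_log hz0, Complex.exp_log (div_ne_zero hzz hz0), Complex.exp_log hzz]
      field_simp
    exact (hev.differentiableAt_iff.2 hat).differentiableWithinAt
  have hbd : ∀ z : ℂ, z ∈ ball (0 : ℂ) (Real.exp T) \ {0} → ‖g (Complex.log z)‖ ≤ K * (1 + |Real.log ‖z‖|) ^ p := by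
    intro z hz
    have := hb _ (hmem z hz)
    rwa [Complex.log_re] at this
  have hnb : ball (0 : ℂ) (Real.exp T) ∈ 𝓝 (0 : ℂ) := ball_mem_nhds _ (Real.exp_pos T)
  have ho : (fun z : ℂ => g (Complex.log z) - g (Complex.log 0)) =o[𝓝[≠] 0] fun z => (z - 0)⁻¹ := by
    have hn : ball (0 : ℂ) (Real.exp T) \ {0} ∈ 𝓝[≠] (0 : ℂ) := by
      rw [sdiff_eq, inter_comm]
      exact inter_mem self_mem_nhdsWithin (mem_nhdsWithin_of_mem_nhds hnb)
    have h1 : (fun z : ℂ => g (Complex.log z)) =o[𝓝[≠] 0] fun z => (z - 0)⁻¹ := by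
      rw [Asymptotics.isLittleO_iff]
      intro c hc
      have ht := (tend_log K p).eventually (gt_mem_nhds hc)
      filter_upwards [ht, hn] with z hz hzn
      have hz0 : 0 < ‖z‖ := norm_pos_iff.2 hzn.2
      rw [sub_zero, norm_inv, ← div_eq_mul_inv, le_div_iff₀ hz0, mul_comm]
      exact (mul_le_mul_of_nonneg_left (hbd z hzn) hz0.le).trans hz.le
    have h2 : (fun _ : ℂ => g (Complex.log 0)) =o[𝓝[≠] 0] fun z : ℂ => (z - 0)⁻¹ := by
      rw [Asymptotics.isLittleO_iff]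
      intro c hc
      have ht : Tendsto (fun z : ℂ => ‖z‖ * ‖g (Complex.log 0)‖) (𝓝[≠] 0) (𝓝 0) := by
        have : Tendsto (fun z : ℂ => ‖z‖ * ‖g (Complex.log 0)‖) (𝓝 0) (𝓝 (‖(0 : ℂ)‖ * ‖g (Complex.log 0)‖)) := by
          exact (Continuous.tendsto (by fun_prop) 0)
        rw [norm_zero, zero_mul] at this
        exact this.mono_left nhdsWithin_le_nhds
      filter_upwards [ht.eventually (gt_mem_nhds hc), hn] with z hz hzn
      have hz0 : 0 < ‖z‖ := norm_pos_iff.2 hzn.2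
      rw [sub_zero, norm_inv, ← div_eq_mul_inv, le_div_iff₀ hz0, mul_comm]
      exact hz.le
    exact h1.sub h2
  have hG := Complex.differentiableOn_update_limUnder_of_isLittleO hnb hd ho
  refine ⟨_, hG, ?_⟩
  intro w hw
  rw [Function.update_of_ne (Complex.exp_ne_zero w)]
  refine (heq _ _ hw ?_).symm
  rw [Complex.exp_log (Complex.exp_ne_zero w)]

end Pool.Agent.H56.G3

end

section

/-!
# Qup Defs: dominant regular maps of quasi-projective varieties
-/

set_option autoImplicit false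

open Topology Filter MvPolynomial

noncomputable section

namespace Pool.Agent.H7.Qup

open Pool.Agent.H17 (PN VanishesAt)

variable {N M : ℕ}

variable {P : Ideal (MvPolynomial (Fin (N + 1)) ℂ)} {P' : Ideal (MvPolynomial (Fin (M + 1)) ℂ)} {s s' : ℕ}
  {G : Fin s → MvPolynomial (Fin (N + 1)) ℂ} {G' : Fin s' → MvPolynomial (Fin (M + 1)) ℂ} {p : PN M → PN N}

theorem eval_smul {n : ℕ} {Q : MvPolynomial (Fin (N + 1)) ℂ} (hQ : Q.IsHomogeneous n) (c : ℂ) (x : Fin (N + 1) → ℂ) :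
    eval (c • x) Q = c ^ n * eval x Q :=
  Pool.Agent.H17BP.eval_smul_form hQ c x

end Pool.Agent.H7.Qup

end
end
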