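import Pool.Agent.H94.G4T.M19
import Pool.Agent.H94.G4T.M32
import Pool.Agent.H94.G4T.M67
import Pool.Agent.H94.G4T.M69
import Pool.Agent.H94.G4T.M73
import Pool.Agent.H94.G4T.M80
import Pool.Agent.H94.G4T.M83

/-! The parts of this file: H7.Bir.Main, H23.GU.Up, G4.Z.MDa. -/

section

/-!
# Bir Main: the properties of the Green–Griffiths–Lang conjecture are birationally invariant

`bir_four`: let `P` and `P'` be homogeneous prime ideals whose function fields are isomorphic over `ℂ`.  If the variety of `P` has the properties of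
the conjecture (with an exceptional set `Ξ`), then so has the variety of `P'`.
-/

set_option autoImplicit false

open Topology Filter MvPolynomial

noncomputable section

namespace Pool.Agent.H7.Bir

open Pool.Agent.H17 (PN VanishesAt HolomorphicInto puncturedDisc vanishesAt_mk_iff ZariskiClosedIn)
open Pool.Agent.H17GT (coordFun)
open Pool.Agent.H17LG.Variety (FunField IsLogGeneralType)
open Pool.Agent.H17R (coordFun_ne_zero_iff)

variable {N M : ℕ}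

theorem punctured_open : IsOpen puncturedDisc := Metric.isOpen_ball.sdiff isClosed_singleton

/-- The value of a composed form. -/
theorem eval_comp (γ : Fin (N + 1) → MvPolynomial (Fin (M + 1)) ℂ) (R : MvPolynomial (Fin (N + 1)) ℂ) (x : Fin (M + 1) → ℂ) :
    eval x (aeval γ R) = eval (vals γ x) R := by
  have h1 := aeval_comp (K := ℂ) x γ R
  exact h1

/-- A form vanishes at the image of a point if and only if its composition with the rational map vanishes. -/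
theorem vanishesAt_rmap {γ : Fin (N + 1) → MvPolynomial (Fin (M + 1)) ℂ} {y : PN M} (hy : vals γ y.rep ≠ 0) {n : ℕ}
    {R : MvPolynomial (Fin (N + 1)) ℂ} (hR : R.IsHomogeneous n) : VanishesAt R (rmap γ y) ↔ VanishesAt (aeval γ R) y := by
  unfold rmap
  rw [dif_pos hy, vanishesAt_mk_iff hR]
  unfold VanishesAt
  rw [eval_comp]

section

variable {P : Ideal (MvPolynomial (Fin (N + 1)) ℂ)} {P' : Ideal (MvPolynomial (Fin (M + 1)) ℂ)} {D D' : ℕ}
  {α : Fin (M + 1) → MvPolynomial (Fin (N + 1)) ℂ} {γ : Fin (N + 1) → MvPolynomial (Fin (M + 1)) ℂ} {j : Fin (N + 1)}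
  {j' : Fin (M + 1)}

end

end Pool.Agent.H7.Bir

end
end

section

/-!
# GU Up: the properties `GGLC` go up along dominant rational maps of projective varieties of the same dimension

`gglc_up`: let `P` and `P'` be homogeneous prime ideals, whose varieties `X` and `X'` have the same dimension, and let the function field of `X` be
embedded in the function field of `X'` (this is a dominant rational map from `X'` to `X`).  If `X` has the properties `GGLC` (with an exceptional set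
`Ξ`), then so has `X'`.
-/

set_option autoImplicit false

open Topology Filter MvPolynomial

noncomputable section

namespace Pool.Agent.H23.GU

open Pool.Agent.H17 (PN VanishesAt HolomorphicInto puncturedDisc vanishesAt_mk_iff ZariskiClosedIn)
open Pool.Agent.H17GT (coordFun)
open Pool.Agent.H17LG.Variety (FunField IsLogGeneralType ratio)
open Pool.Agent.H17R (coordFun_ne_zero_iff gen_eq_zero_iff ratio_self adjoin_ratio)
open Pool.Agent.H17EF (projVar)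
open Pool.Agent.H7.Bir (vals rmap vanishesAt_rmap pn_identity punctured_open exists_quot aeval_comp aeval_div rmap_mk vals_smul eval_comp exists_comp)
open Pool.Agent.H7.Qup (const_of_root root_bound vals_rep_ne)

variable {N M : ℕ}

/-- An embedding of function fields is given by forms. -/
theorem exists_rat {P : Ideal (MvPolynomial (Fin (N + 1)) ℂ)} [P.IsPrime] {P' : Ideal (MvPolynomial (Fin (M + 1)) ℂ)}
    [P'.IsPrime] (e : FunField P →ₐ[ℂ] FunField P') {j : Fin (N + 1)} (hj : coordFun P j ≠ 0) {j' : Fin (M + 1)}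
    (hj' : coordFun P' j' ≠ 0) :
    ∃ (D : ℕ) (γ : Fin (N + 1) → MvPolynomial (Fin (M + 1)) ℂ), (∀ i, (γ i).IsHomogeneous D) ∧
      (∀ n R, R.IsHomogeneous n → (aeval γ R ∈ P' ↔ R ∈ P)) ∧ γ j ∉ P' := by
  set ξ : Fin (N + 1) → FunField P := fun i => ratio P i j with hξ
  set η : Fin (M + 1) → FunField P' := fun i => ratio P' i j' with hη
  have hξ1 : ξ j = 1 := ratio_self hj
  have hη1 : η j' = 1 := ratio_self hj'
  obtain ⟨D, γ, hγ, hγ0, hγ1⟩ := exists_quot hη1 (adjoin_ratio hj') (fun i => e (ξ i)) (j' := j) (by simp only [hξ1, map_one])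
  have h1 : (fun i => aeval η (γ i) / aeval η (γ j)) = fun i => e (ξ i) := by
    funext i
    rw [← hγ1, mul_div_cancel_right₀ _ hγ0]
  have hsymm : ∀ R : MvPolynomial (Fin (N + 1)) ℂ, aeval (fun i => e (ξ i)) R = e (aeval ξ R) := by
    intro R
    have h2 := DFunLike.congr_fun (MvPolynomial.comp_aeval ξ e) R
    exact h2.symm
  have h2 : ∀ (n : ℕ) (R : MvPolynomial (Fin (N + 1)) ℂ), R.IsHomogeneous n →
      aeval η (aeval γ R) = aeval η (γ j) ^ n * e (aeval ξ R) := by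
    intro n R hR
    rw [aeval_comp, aeval_div hR hγ0, h1, hsymm]
  refine ⟨D, γ, hγ, ?_, ?_⟩
  · intro n R hR
    have h3 : (aeval γ R).IsHomogeneous (D * n) := hR.aeval γ hγ
    rw [← gen_eq_zero_iff hj' h3, ← gen_eq_zero_iff hj hR]
    change aeval η (aeval γ R) = 0 ↔ aeval ξ R = 0
    rw [h2 n R hR, mul_eq_zero, map_eq_zero_iff e e.injective]
    exact ⟨fun h => h.resolve_left (pow_ne_zero _ hγ0), Or.inr⟩
  · intro h
    exact hγ0 ((gen_eq_zero_iff hj' (hγ j)).2 h)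

theorem eval_smul {n : ℕ} {Q : MvPolynomial (Fin (N + 1)) ℂ} (hQ : Q.IsHomogeneous n) (c : ℂ) (x : Fin (N + 1) → ℂ) :
    eval (c • x) Q = c ^ n * eval x Q :=
  Pool.Agent.H17BP.eval_smul_form hQ c x

/-- The equation of the coordinate `i`. -/
def rel {m : ℕ} (α : Fin (m + 1) → MvPolynomial (Fin (N + 1)) ℂ) (i j : Fin (M + 1)) (x : Fin (N + 1) → ℂ) (y : Fin (M + 1) → ℂ) : ℂ :=
  ∑ l : Fin (m + 1), eval x (α l) * y i ^ (l : ℕ) * y j ^ (m - (l : ℕ))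

theorem rel_smul {m D₁ : ℕ} {α : Fin (m + 1) → MvPolynomial (Fin (N + 1)) ℂ} (hα : ∀ l, (α l).IsHomogeneous D₁) (i j : Fin (M + 1))
    (a b : ℂ) (x : Fin (N + 1) → ℂ) (y : Fin (M + 1) → ℂ) : rel α i j (a • x) (b • y) = a ^ D₁ * b ^ m * rel α i j x y := by
  unfold rel
  rw [Finset.mul_sum]
  refine Finset.sum_congr rfl fun l _ => ?_
  have h1 : (l : ℕ) ≤ m := Nat.lt_succ_iff.1 l.2
  have h2 : b ^ m = b ^ (l : ℕ) * b ^ (m - (l : ℕ)) := by rw [← pow_add, Nat.add_sub_cancel' h1]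
  rw [eval_smul (hα l), h2, Pi.smul_apply, Pi.smul_apply, smul_eq_mul, smul_eq_mul, mul_pow, mul_pow]
  ring

theorem rel_vals {m : ℕ} (α : Fin (m + 1) → MvPolynomial (Fin (N + 1)) ℂ) (i j : Fin (M + 1))
    (γ : Fin (N + 1) → MvPolynomial (Fin (M + 1)) ℂ) (y : Fin (M + 1) → ℂ) :
    rel α i j (vals γ y) y = eval y (∑ l : Fin (m + 1), aeval γ (α l) * X i ^ (l : ℕ) * X j ^ (m - (l : ℕ))) := by
  unfold rel
  rw [map_sum]
  refine Finset.sum_congr rfl fun l _ => ?_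
  rw [map_mul, map_mul, map_pow, map_pow, eval_X, eval_X, eval_comp]

theorem rel_continuousAt {m : ℕ} (α : Fin (m + 1) → MvPolynomial (Fin (N + 1)) ℂ) (i j : Fin (M + 1)) {ψ : ℂ → Fin (N + 1) → ℂ}
    {φ : ℂ → Fin (M + 1) → ℂ} {z : ℂ} (hψ : AnalyticAt ℂ ψ z) (hφ : AnalyticAt ℂ φ z) :
    ContinuousAt (fun w => rel α i j (ψ w) (φ w)) z := by
  unfold rel
  have h1 : ∀ Q : MvPolynomial (Fin (N + 1)) ℂ, ContinuousAt (fun w => eval (ψ w) Q) z := by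
    intro Q
    have h1 : AnalyticAt ℂ (fun w => MvPolynomial.aeval (ψ w) Q) z := AnalyticAt.aeval_mvPolynomial (fun i => analyticAt_pi_iff.mp hψ i) Q
    exact h1.continuousAt
  have h2 : ∀ i, ContinuousAt (fun w => φ w i) z := fun i => (continuous_apply i).continuousAt.comp hφ.continuousAt
  have h3 : ContinuousAt (fun w => ∑ l : Fin (m + 1), eval (ψ w) (α l) * φ w i ^ (l : ℕ) * φ w j ^ (m - (l : ℕ))) z := by
    refine tendsto_finsetSum _ fun l _ => ?_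
    exact ((h1 _).mul ((h2 i).pow _)).mul ((h2 j).pow _)
  exact h3

/-- `g` is the composition of `f` with the rational map (in a weak sense): the equations between the coordinates hold. -/
def Rel {m : ℕ} (α : Fin (m + 1) → MvPolynomial (Fin (N + 1)) ℂ) (i j : Fin (M + 1)) (p : PN N) (q : PN M) : Prop :=
  ∀ (y : Fin (M + 1) → ℂ) (hy : y ≠ 0) (x : Fin (N + 1) → ℂ) (hx : x ≠ 0), q = Projectivization.mk ℂ y hy → p = Projectivization.mk ℂ x hx →
    rel α i j x y = 0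

theorem Rel_of {m D₁ : ℕ} {α : Fin (m + 1) → MvPolynomial (Fin (N + 1)) ℂ} (hα : ∀ l, (α l).IsHomogeneous D₁) {i j : Fin (M + 1)}
    {x : Fin (N + 1) → ℂ} (hx : x ≠ 0) {y : Fin (M + 1) → ℂ} (hy : y ≠ 0) (h : rel α i j x y = 0) :
    Rel α i j (Projectivization.mk ℂ x hx) (Projectivization.mk ℂ y hy) := by
  intro y' hy' x' hx' h1 h2
  rw [eq_comm, Projectivization.mk_eq_mk_iff'] at h1 h2
  obtain ⟨b, hb⟩ := h1
  obtain ⟨a, ha⟩ := h2
  rw [← hb, ← ha, rel_smul hα, h, mul_zero]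

/-- If the image is constant near a point then so is `f`. -/
theorem const_near {j : Fin (M + 1)} {m : Fin (M + 1) → ℕ} {α : ∀ i, Fin (m i + 1) → MvPolynomial (Fin (N + 1)) ℂ}
    {f : ℂ → PN M} {g : ℂ → PN N} {z₀ : ℂ} (hrel : ∀ i, ∀ᶠ z in 𝓝 z₀, Rel (α i) i j (g z) (f z))
    {φ : ℂ → Fin (M + 1) → ℂ} (hφ : AnalyticAt ℂ φ z₀)
    (he : ∀ᶠ z in 𝓝 z₀, ∃ h : φ z ≠ 0, f z = Projectivization.mk ℂ (φ z) h)
    (hj : φ z₀ j ≠ 0) {x : Fin (N + 1) → ℂ} (hx : x ≠ 0) (hα : ∀ i, eval x (α i (Fin.last (m i))) ≠ 0)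
    (hg : ∀ᶠ z in 𝓝 z₀, g z = Projectivization.mk ℂ x hx) : ∀ᶠ z in 𝓝 z₀, f z = f z₀ := by
  have hcj : ContinuousAt (fun z => φ z j) z₀ := (continuous_apply j).continuousAt.comp hφ.continuousAt
  obtain ⟨r, hr, hball⟩ := Metric.eventually_nhds_iff_ball.1
    ((((he.and (eventually_all.2 hrel)).and hg).and (hcj.eventually_ne hj)).and hφ.eventually_analyticAt)
  have hz₀ : z₀ ∈ Metric.ball z₀ r := Metric.mem_ball_self hr
  have hconst : ∀ i, ∀ z ∈ Metric.ball z₀ r, φ z i / φ z j = φ z₀ i / φ z₀ j := by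
    intro i
    refine const_of_root (b := fun l => eval x (α i l)) (hα i) (ρ := fun z => φ z i / φ z j) (fun z hz => ?_) fun z hz => ?_
    · have h1 := (hball z hz).2.continuousAt
      exact (((continuous_apply i).continuousAt.comp h1).div ((continuous_apply j).continuousAt.comp h1) (hball z hz).1.2).continuousWithinAt
    · obtain ⟨⟨⟨⟨h1, h2⟩, h3⟩, h4⟩, -⟩ := hball z hz
      obtain ⟨h5, h6⟩ := h1
      have h7 := h2 i (φ z) h5 x hx h6 h3
      unfold rel at h7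
      have h8 : ∀ l : Fin (m i + 1), eval x (α i l) * φ z i ^ (l : ℕ) * φ z j ^ (m i - (l : ℕ)) =
          φ z j ^ m i * (eval x (α i l) * (φ z i / φ z j) ^ (l : ℕ)) := by
        intro l
        have h9 : (l : ℕ) ≤ m i := Nat.lt_succ_iff.1 l.2
        have h10 : φ z j ^ m i = φ z j ^ (l : ℕ) * φ z j ^ (m i - (l : ℕ)) := by
          rw [← pow_add, Nat.add_sub_cancel' h9]
        rw [h10, div_pow]
        field_simp
      rw [Finset.sum_congr rfl fun l _ => h8 l, ← Finset.mul_sum, mul_eq_zero] at h7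
      exact h7.resolve_left (pow_ne_zero _ h4)
  filter_upwards [Metric.ball_mem_nhds z₀ hr] with z hz
  obtain ⟨⟨⟨⟨⟨h5, h6⟩, h2⟩, h3⟩, h4⟩, -⟩ := hball z hz
  obtain ⟨⟨⟨⟨⟨h5', h6'⟩, h2'⟩, h3'⟩, h4'⟩, -⟩ := hball z₀ hz₀
  rw [h6, h6', Projectivization.mk_eq_mk_iff']
  refine ⟨φ z j / φ z₀ j, ?_⟩
  funext i
  have h7 := hconst i z hz
  change φ z j / φ z₀ j * φ z₀ i = φ z i
  rw [div_eq_div_iff h4 h4'] at h7
  field_simp
  linear_combination -h7

/-- **Extension over the puncture.** -/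
theorem extend_of_alg {j : Fin (M + 1)} {m : Fin (M + 1) → ℕ} {α : ∀ i, Fin (m i + 1) → MvPolynomial (Fin (N + 1)) ℂ}
    {f : ℂ → PN M} {g : ℂ → PN N} (hrel : ∀ i, ∀ z ∈ puncturedDisc, Rel (α i) i j (g z) (f z)) (hf : HolomorphicInto f puncturedDisc)
    {ψ : ℂ → Fin (N + 1) → ℂ} (hψ : AnalyticAt ℂ ψ 0)
    (hpf : ∀ᶠ z in 𝓝 (0 : ℂ), z ≠ 0 → ∃ h : ψ z ≠ 0, g z = Projectivization.mk ℂ (ψ z) h)
    (hα : ∀ i, ¬ ∀ᶠ z in 𝓝 (0 : ℂ), eval (ψ z) (α i (Fin.last (m i))) = 0) :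
    ∃ g : ℂ → PN M, HolomorphicInto g (Metric.ball 0 1) ∧ ∀ z ∈ puncturedDisc, g z = f z := by
  classical
  have han : ∀ Q : MvPolynomial (Fin (N + 1)) ℂ, AnalyticAt ℂ (fun z => eval (ψ z) Q) 0 := by
    intro Q
    have h1 : AnalyticAt ℂ (fun w => MvPolynomial.aeval (ψ w) Q) 0 :=
      AnalyticAt.aeval_mvPolynomial (fun i => analyticAt_pi_iff.mp hψ i) Q
    exact h1
  set a : Fin (M + 1) → ℂ → ℂ := fun i z => eval (ψ z) (α i (Fin.last (m i))) with ha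
  have hane : ∀ i, ∀ᶠ z in 𝓝[≠] (0 : ℂ), a i z ≠ 0 := by
    intro i
    exact (han _).eventually_eq_zero_or_eventually_ne_zero.resolve_left (hα i)
  -- bounds of the coefficients
  have hbd : ∀ i, ∃ C : ℝ, ∀ᶠ z in 𝓝 (0 : ℂ), ∀ l, ‖eval (ψ z) (α i l)‖ ≤ C := by
    intro i
    have h1 : ∀ l, ∃ C : ℝ, ∀ᶠ z in 𝓝 (0 : ℂ), ‖eval (ψ z) (α i l)‖ ≤ C := fun l =>
      ⟨‖eval (ψ 0) (α i l)‖ + 1, ((han (α i l)).continuousAt.norm.eventually_lt continuousAt_const (lt_add_one _)).mono fun z hz => hz.le⟩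
    choose C hC using h1
    refine ⟨∑ l, |C l|, ?_⟩
    filter_upwards [eventually_all.2 hC] with z hz l
    exact ((hz l).trans (le_abs_self _)).trans (Finset.single_le_sum (f := fun l => |C l|) (fun l _ => abs_nonneg _) (Finset.mem_univ l))
  choose C hC using hbd
  have hev : ∀ᶠ z in 𝓝[≠] (0 : ℂ), z ∈ puncturedDisc ∧ (∃ h : ψ z ≠ 0, g z = Projectivization.mk ℂ (ψ z) h) ∧
      (∀ i l, ‖eval (ψ z) (α i l)‖ ≤ C i) ∧ ∀ i, a i z ≠ 0 := by
    have h1 : ∀ᶠ z in 𝓝[≠] (0 : ℂ), z ∈ puncturedDisc := by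
      have h4 : Metric.ball (0 : ℂ) 1 \ {0} ∈ 𝓝[≠] (0 : ℂ) := sdiff_mem_nhdsWithin_compl (Metric.ball_mem_nhds _ one_pos) _
      exact h4
    have h2 : ∀ᶠ z in 𝓝[≠] (0 : ℂ), ∃ h : ψ z ≠ 0, g z = Projectivization.mk ℂ (ψ z) h :=
      eventually_nhdsWithin_iff.2 (hpf.mono fun z hz h => hz h)
    filter_upwards [h1, h2, (eventually_all.2 hC).filter_mono nhdsWithin_le_nhds, eventually_all.2 hane] with z h3 h4 h5 h6
    exact ⟨h3, h4, h5, h6⟩
  obtain ⟨r, hr, hball⟩ : ∃ r > 0, ∀ z ∈ Metric.ball (0 : ℂ) r \ {0}, z ∈ puncturedDisc ∧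
      (∃ h : ψ z ≠ 0, g z = Projectivization.mk ℂ (ψ z) h) ∧ (∀ i l, ‖eval (ψ z) (α i l)‖ ≤ C i) ∧ ∀ i, a i z ≠ 0 := by
    obtain ⟨r, hr, h1⟩ := Metric.eventually_nhds_iff_ball.1 (eventually_nhdsWithin_iff.1 hev)
    exact ⟨r, hr, fun z hz => h1 z hz.1 hz.2⟩
  -- the coordinate `j` does not vanish
  have hj : ∀ z ∈ Metric.ball (0 : ℂ) r \ {0}, (f z).rep j ≠ 0 := by
    intro z hz h0
    obtain ⟨h1, ⟨h2, h3⟩, -, h5⟩ := hball z hz
    apply (f z).rep_nonzero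
    funext i
    have h6 := hrel i z h1 (f z).rep (f z).rep_nonzero (ψ z) h2 (f z).mk_rep.symm h3
    unfold rel at h6
    rw [Fin.sum_univ_castSucc] at h6
    have h7 : ∀ l : Fin (m i), eval (ψ z) (α i l.castSucc) * (f z).rep i ^ ((l.castSucc : Fin (m i + 1)) : ℕ) *
        (f z).rep j ^ (m i - ((l.castSucc : Fin (m i + 1)) : ℕ)) = 0 := by
      intro l
      have h8 : m i - ((l.castSucc : Fin (m i + 1)) : ℕ) ≠ 0 := by
        have := l.2
        rw [Fin.val_castSucc]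
        omega
      rw [h0, zero_pow h8, mul_zero]
    rw [Finset.sum_eq_zero fun l _ => h7 l, zero_add, Fin.val_last, Nat.sub_self, pow_zero, mul_one, mul_eq_zero] at h6
    exact eq_zero_of_pow_eq_zero (h6.resolve_left (h5 i))
  -- the normalized lift
  set S : ℂ → Fin (M + 1) → ℂ := fun w => ((f w).rep j)⁻¹ • (f w).rep with hS
  have hSmk : ∀ (w : ℂ) (x : Fin (M + 1) → ℂ) (hx : x ≠ 0), f w = Projectivization.mk ℂ x hx → S w = (x j)⁻¹ • x := by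
    intro w x hx h
    obtain ⟨a, ha⟩ := Projectivization.exists_smul_eq_mk_rep ℂ x hx
    have h1 : (f w).rep = (a : ℂ) • x := by rw [h]; exact ha.symm
    rw [hS]
    simp only [h1, Pi.smul_apply, smul_eq_mul]
    rw [smul_smul, mul_inv, mul_comm (a : ℂ)⁻¹, mul_assoc, inv_mul_cancel₀ a.ne_zero, mul_one]
  set A : ℂ → ℂ := fun z => ∏ i, a i z with hA
  have hAan : AnalyticAt ℂ A 0 := by
    have h1 : AnalyticAt ℂ (fun z => ∏ i, a i z) 0 := Finset.analyticAt_fun_prod _ fun i _ => han _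
    exact h1
  -- the function is bounded and holomorphic
  obtain ⟨r', hr', hr'r, haball⟩ : ∃ r' > 0, r' ≤ r ∧ ∀ z ∈ Metric.ball (0 : ℂ) r', AnalyticAt ℂ A z := by
    obtain ⟨ρ, hρ, h1⟩ := Metric.eventually_nhds_iff_ball.1 hAan.eventually_analyticAt
    exact ⟨min ρ r, lt_min hρ hr, min_le_right _ _, fun z hz => h1 z (Metric.ball_subset_ball (min_le_left _ _) hz)⟩
  have hsub : ∀ z ∈ Metric.ball (0 : ℂ) r' \ {0}, z ∈ Metric.ball (0 : ℂ) r \ {0} := fun z hz =>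
    ⟨Metric.ball_subset_ball hr'r hz.1, hz.2⟩
  have hd : DifferentiableOn ℂ (fun z => A z • S z) (Metric.ball (0 : ℂ) r' \ {0}) := by
    intro w hw
    obtain ⟨φ, h4, h5⟩ := hf w (hball w (hsub w hw)).1
    have h6 : φ w j ≠ 0 := by
      obtain ⟨h7, h8⟩ := h5.self_of_nhds
      obtain ⟨a, ha⟩ := Projectivization.exists_smul_eq_mk_rep ℂ (φ w) h7
      have h9 : (f w).rep = (a : ℂ) • φ w := by rw [h8]; exact ha.symm
      have h10 := hj w (hsub w hw)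
      rw [h9] at h10
      exact right_ne_zero_of_mul h10
    have h7 : AnalyticAt ℂ (fun z => (φ z j)⁻¹ • φ z) w := by
      have h8 : AnalyticAt ℂ (fun z => φ z j) w := analyticAt_pi_iff.1 h4 j
      exact (h8.inv h6).smul h4
    have h8 : AnalyticAt ℂ (fun z => A z • ((φ z j)⁻¹ • φ z)) w := (haball w hw.1).smul h7
    refine DifferentiableAt.differentiableWithinAt (h8.differentiableAt.congr_of_eventuallyEq ?_)
    filter_upwards [h5] with z hz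
    obtain ⟨h8, h9⟩ := hz
    rw [hSmk z _ h8 h9]
  have hratio : ∀ z ∈ Metric.ball (0 : ℂ) r \ {0}, ∀ i, ‖a i z * S z i‖ ≤ C i * (m i + 1) := by
    intro z hz i
    obtain ⟨h1, ⟨h2, h3⟩, h4, h5⟩ := hball z hz
    have h6 := hrel i z h1 (f z).rep (f z).rep_nonzero (ψ z) h2 (f z).mk_rep.symm h3
    unfold rel at h6
    have hjz := hj z hz
    have h8 : ∀ l : Fin (m i + 1), eval (ψ z) (α i l) * (f z).rep i ^ (l : ℕ) * (f z).rep j ^ (m i - (l : ℕ)) =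
        (f z).rep j ^ m i * (eval (ψ z) (α i l) * (S z i) ^ (l : ℕ)) := by
      intro l
      have h9 : (l : ℕ) ≤ m i := Nat.lt_succ_iff.1 l.2
      have h10 : (f z).rep j ^ m i = (f z).rep j ^ (l : ℕ) * (f z).rep j ^ (m i - (l : ℕ)) := by
        rw [← pow_add, Nat.add_sub_cancel' h9]
      have h11 : S z i = (f z).rep i / (f z).rep j := by
        change ((f z).rep j)⁻¹ * (f z).rep i = _
        rw [div_eq_inv_mul]
      rw [h10, h11, div_pow]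
      field_simp
    rw [Finset.sum_congr rfl fun l _ => h8 l, ← Finset.mul_sum, mul_eq_zero] at h6
    exact root_bound (h4 i) (h6.resolve_left (pow_ne_zero _ hjz))
  have hb : BddAbove (norm ∘ (fun z => A z • S z) '' (Metric.ball (0 : ℂ) r' \ {0})) := by
    refine ⟨∑ i, (C i * (m i + 1)) * ∏ i' ∈ Finset.univ.erase i, C i', ?_⟩
    rintro _ ⟨w, hw, rfl⟩
    have hw' := hsub w hw
    obtain ⟨-, -, h4, -⟩ := hball w hw'
    have hC0 : ∀ i, 0 ≤ C i := fun i => (norm_nonneg _).trans (h4 i 0)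
    have hterm : ∀ i, 0 ≤ (C i * (m i + 1)) * ∏ i' ∈ Finset.univ.erase i, C i' := fun i =>
      mul_nonneg (mul_nonneg (hC0 i) (by positivity)) (Finset.prod_nonneg fun i' _ => hC0 i')
    change ‖A w • S w‖ ≤ _
    rw [pi_norm_le_iff_of_nonneg (Finset.sum_nonneg fun i _ => hterm i)]
    intro i
    refine le_trans ?_ (Finset.single_le_sum (f := fun i => (C i * (m i + 1)) * ∏ i' ∈ Finset.univ.erase i, C i')
      (fun i _ => hterm i) (Finset.mem_univ i))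
    change ‖A w * S w i‖ ≤ _
    have h5 : A w * S w i = (a i w * S w i) * ∏ i' ∈ Finset.univ.erase i, a i' w := by
      rw [hA]
      simp only
      rw [← Finset.mul_prod_erase Finset.univ (fun i => a i w) (Finset.mem_univ i)]
      ring
    rw [h5, norm_mul, norm_prod]
    refine mul_le_mul (hratio w hw' i) (Finset.prod_le_prod (fun i' _ => norm_nonneg _) fun i' _ => h4 i' _)
      (Finset.prod_nonneg fun i' _ => norm_nonneg _) (mul_nonneg (hC0 i) (by positivity))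
  have hu := Complex.differentiableOn_update_limUnder_of_bddAbove (Metric.ball_mem_nhds (0 : ℂ) hr') hd hb
  set S' : ℂ → Fin (M + 1) → ℂ := Function.update (fun z => A z • S z) 0 (limUnder (𝓝[≠] 0) fun z => A z • S z) with hS'
  have hS'a : AnalyticAt ℂ S' 0 := hu.analyticAt (Metric.ball_mem_nhds (0 : ℂ) hr')
  have hS'eq : ∀ w, w ≠ 0 → S' w = A w • S w := fun w hw => Function.update_of_ne hw _ _
  have hAne : ∀ z ∈ Metric.ball (0 : ℂ) r \ {0}, A z ≠ 0 := fun z hz => Finset.prod_ne_zero_iff.2 fun i _ => (hball z hz).2.2.2 i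
  have hSj : ∀ z ∈ Metric.ball (0 : ℂ) r \ {0}, S z j = 1 := fun z hz => inv_mul_cancel₀ (hj z hz)
  have hS'ne : ∀ z ∈ Metric.ball (0 : ℂ) r \ {0}, S' z ≠ 0 := by
    intro z hz h0
    have h1 := congrFun h0 j
    rw [hS'eq z hz.2] at h1
    change A z * S z j = 0 at h1
    rw [hSj z hz, mul_one] at h1
    exact hAne z hz h1
  have hnz : ¬ ∀ᶠ z in 𝓝 (0 : ℂ), S' z = 0 := by
    intro h0
    have h1 : ∀ᶠ z in 𝓝[≠] (0 : ℂ), z ∈ Metric.ball (0 : ℂ) r \ {0} :=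
      sdiff_mem_nhdsWithin_compl (Metric.ball_mem_nhds _ hr) _
    obtain ⟨z, h2, h3⟩ := ((h0.filter_mono nhdsWithin_le_nhds).and h1).exists
    exact hS'ne z h3 h2
  obtain ⟨n, Φ, hΦ, hΦ0, hΦe⟩ := (hS'a.exists_eventuallyEq_pow_smul_nonzero_iff).2 hnz
  refine Pool.Agent.H62.Qe.extend_of_pow hf le_rfl hΦ.continuousAt hΦ0 ?_
  filter_upwards [hΦe, Metric.ball_mem_nhds (0 : ℂ) hr] with z h1 h2 h3
  have h4 : z ∈ Metric.ball (0 : ℂ) r \ {0} := ⟨h2, h3⟩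
  have h5 := hS'ne z h4
  have h6 : Φ z ≠ 0 := by
    intro h7
    rw [h7, smul_zero] at h1
    exact h5 h1
  refine ⟨h6, ?_⟩
  rw [pow_one, ← (f z).mk_rep, Projectivization.mk_eq_mk_iff']
  rw [hS'eq z h3, sub_zero] at h1
  have h7 : A z ≠ 0 := hAne z h4
  have h8 : (f z).rep j ≠ 0 := hj z h4
  refine ⟨(f z).rep j * (A z)⁻¹ * z ^ n, ?_⟩
  rw [mul_smul, ← h1, smul_smul, mul_assoc, inv_mul_cancel₀ h7, mul_one]
  change (f z).rep j • (((f z).rep j)⁻¹ • (f z).rep) = _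
  rw [smul_smul, mul_inv_cancel₀ h8, one_smul]

end Pool.Agent.H23.GU

end
end

section

/-!
# G4 Z MDa: the maximum principle for the distance of two curves over an arc

Normalised lifts (`H56/G3/Lift.norm_lift`; the hypothesis at the centre is `P/Tbd.tbd`) `F`, `G` on `ball z₀ 2`: the functions `(wg (F z) (G z) p) ^ μ * E z` are holomorphic; on the circle they are at most
`C ^ μ dist ^ μ ‖E‖`; at the centre `‖F z₀‖, ‖G z₀‖ ≥ c`.
-/

set_option autoImplicit false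

open Topology Filter Metric

namespace Pool.Agent.G4

open Pool.Agent.H36.BP (EN fs wd Sub)
open Pool.Agent.H14.PP (IsCone CurveAt Tan)
open Pool.Agent.H62.EF (MN pr)
open Pool.Agent.AD (Vd Chart Charts)
open Pool.Agent.TG (TMap Lat Geo Gd)
open Pool.Agent.G3 (Cv wt PS QD TT tbd)
open Pool.Agent.G3.A (wg wg_dist wg_diff)

variable {N k : ℕ} {X : Set (EN N)} {Λ : AddSubgroup (Vd (k + 1))} {u : EN N → Vd (k + 1)} {D : Set (Vd (k + 1))} {p : EN N → EN N → ℝ} {m : ℕ} {C : ℝ}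

private theorem mda_max (v : EuclideanSpace ℂ (Fin (N + 1) × Fin (N + 1))) : ∃ q, ‖v‖ ≤ ((N : ℝ) + 1) * ‖v q‖ := by
  obtain ⟨q, -, hq⟩ := Finset.exists_max_image (Finset.univ : Finset (Fin (N + 1) × Fin (N + 1))) (fun q => ‖v q‖) ⟨(0, 0), Finset.mem_univ _⟩
  refine ⟨q, ?_⟩
  have h1 : ‖v‖ ^ 2 ≤ (((N : ℝ) + 1) * ‖v q‖) ^ 2 := by
    rw [EuclideanSpace.norm_sq_eq]
    calc ∑ i, ‖v i‖ ^ 2 ≤ ∑ _i : Fin (N + 1) × Fin (N + 1), ‖v q‖ ^ 2 :=
          Finset.sum_le_sum fun i _ => pow_le_pow_left₀ (norm_nonneg _) (hq i (Finset.mem_univ i)) 2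
      _ = (((N : ℝ) + 1) * ‖v q‖) ^ 2 := by
        rw [Finset.sum_const, Finset.card_univ, Fintype.card_prod, Fintype.card_fin, nsmul_eq_mul]
        push_cast
        ring
  exact (pow_le_pow_iff_left₀ (norm_nonneg _) (by positivity) two_ne_zero).1 h1

/-- normalised lifts -/
private theorem mda_lift (hX : IsCone X) (hP : PS X Λ u D p m C) {δ : ℝ} (hδ : 0 < δ) {a : Vd (k + 1)} (ha : a ≠ 0) :
    ∃ c : ℝ, 0 < c ∧ ∀ (F : ℂ → EN N) (h : ℂ → Vd (k + 1)) (z₀ : ℂ), Cv X Λ u (ball z₀ 7) F h → (∀ w ∈ ball z₀ 7, ‖deriv h w - a‖ ≤ ‖a‖ / 2) → h z₀ ∈ Gd D δ →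
      ∃ F' : ℂ → EN N, DifferentiableOn ℂ F' (ball z₀ 2) ∧ (∀ z ∈ ball z₀ 2, F' z ≠ 0 ∧ pr (F' z) = pr (F z) ∧ ‖F' z‖ ≤ 1) ∧ c ≤ ‖F' z₀‖ := by
  have ha0 : 0 < ‖a‖ := norm_pos_iff.mpr ha
  obtain ⟨K₁, hK₁⟩ := tbd hP hδ (η := ‖a‖ / 2) (H := 3 * ‖a‖ / 2) (by positivity) (by positivity) (by norm_num : (0 : ℝ) < 5) (by norm_num : (5 : ℝ) < 6)
  obtain ⟨K₂, hK₂⟩ := tbd hP hδ (η := ‖a‖ / 2) (H := 3 * ‖a‖ / 2) (by positivity) (by positivity) (by norm_num : (0 : ℝ) < 5 / 2) (by norm_num : (5 / 2 : ℝ) < 6)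
  refine ⟨Real.exp (-10 * max K₁ K₂), Real.exp_pos _, fun F h z₀ hcv hd hz₀ => ?_⟩
  have hz₀b : z₀ ∈ ball z₀ 7 := mem_ball_self (by norm_num)
  have hne : ∀ z ∈ ball z₀ 7, F z ≠ 0 := fun z hz => Pool.Agent.TG.ne_zero hX (hcv.mem z hz)
  have hdb : ∀ w ∈ ball z₀ 7, ‖a‖ / 2 ≤ ‖deriv h w‖ ∧ ‖deriv h w‖ ≤ 3 * ‖a‖ / 2 := by
    intro z hz
    have hdz := hd z hz
    constructor
    · have h1 : ‖a‖ ≤ ‖a - deriv h z‖ + ‖deriv h z‖ := norm_le_norm_sub_add a _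
      rw [norm_sub_rev] at h1
      linarith
    · have h1 : ‖deriv h z‖ ≤ ‖deriv h z - a‖ + ‖a‖ := norm_le_norm_sub_add _ a
      linarith
  have hsub : ball z₀ 6 ⊆ ball z₀ 7 := ball_subset_ball (by norm_num)
  have hcv6 : Cv X Λ u (ball z₀ 6) F h := ⟨hcv.F_diff.mono hsub, hcv.h_diff.mono hsub, fun z hz => hcv.mem z (hsub hz), fun z hz => hcv.lift z (hsub hz)⟩
  have h1 := hK₁ F h z₀ hcv6 (fun w hw => (hdb w (hsub hw)).2) hz₀ (hdb z₀ hz₀b).1
  have h2 := hK₂ F h z₀ hcv6 (fun w hw => (hdb w (hsub hw)).2) hz₀ (hdb z₀ hz₀b).1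
  have hG : ∀ z ∈ ({z₀} : Set ℂ), ‖z - z₀‖ ≤ 1 →
      Real.circleAverage (fun w => Real.log ‖F w‖) z 5 ≤ Real.log ‖F z‖ + max K₁ K₂ ∧
      Real.circleAverage (fun w => Real.log ‖F w‖) z (5 / 2) ≤ Real.log ‖F z‖ + max K₁ K₂ := by
    intro z hz _
    rw [Set.mem_singleton_iff] at hz
    subst hz
    unfold TT at h1 h2
    exact ⟨by linarith [le_max_left K₁ K₂], by linarith [le_max_right K₁ K₂]⟩
  obtain ⟨φ, hφ, hle, hge⟩ := Pool.Agent.H56.G3.norm_lift (z₀ := z₀) (le_refl (7 : ℝ)) hcv.F_diff hne hG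
  have hsub2 : ball z₀ 2 ⊆ ball z₀ 7 := ball_subset_ball (by norm_num)
  refine ⟨fun z => Complex.exp (-φ z) • F z, hφ.neg.cexp.smul (hcv.F_diff.mono hsub2), fun z hz => ⟨?_, ?_, hle z hz⟩, ?_⟩
  · exact smul_ne_zero (Complex.exp_ne_zero _) (hne z (hsub2 hz))
  · exact Pool.Agent.H62.EF.pr_smul _ (Complex.exp_ne_zero _)
  · exact hge z₀ rfl (by rw [sub_self, norm_zero]; exact zero_le_one)

/-- the maximum principle -/
theorem mda (hX : IsCone X) (hP : PS X Λ u D p m C) {δ : ℝ} (hδ : 0 < δ) {a : Vd (k + 1)} (ha : a ≠ 0) (μ : ℕ) :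
    ∃ C₀ : ℝ, 0 < C₀ ∧ ∀ (F G : ℂ → EN N) (h : ℂ → Vd (k + 1)) (z₀ : ℂ), Cv X Λ u (ball z₀ 7) F h → Cv X Λ u (ball z₀ 7) G h →
      (∀ w ∈ ball z₀ 7, ‖deriv h w - a‖ ≤ ‖a‖ / 2) → h z₀ ∈ Gd D δ → ∀ r : ℝ, 0 < r → r ≤ 1 → ∀ E : ℂ → ℂ, DifferentiableOn ℂ E (closedBall z₀ r) → ∀ S : ℝ,
      (∀ z, dist z z₀ = r → dist (pr (F z)) (pr (G z)) ^ μ * ‖E z‖ ≤ S) → dist (pr (F z₀)) (pr (G z₀)) ^ μ * ‖E z₀‖ ≤ C₀ * S := by
  obtain ⟨c, hc, hlift⟩ := mda_lift hX hP hδ ha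
  obtain ⟨C₁, hC₁, hw⟩ := wg_dist N
  refine ⟨(C₁ * ((N : ℝ) + 1) / (c * c)) ^ μ * C₁ ^ μ, by positivity, fun F G h z₀ hF hG hd hz₀ r hr hr1 E hE S hS => ?_⟩
  obtain ⟨F', hF', hF1, hFc⟩ := hlift F h z₀ hF hd hz₀
  obtain ⟨G', hG', hG1, hGc⟩ := hlift G h z₀ hG hd hz₀
  have hsub : closedBall z₀ r ⊆ ball z₀ 2 := fun w hw' => by
    rw [mem_closedBall] at hw'
    rw [mem_ball]
    linarith
  have hz₀2 : z₀ ∈ ball z₀ 2 := mem_ball_self (by norm_num)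
  have hv : DifferentiableOn ℂ (fun w => wg (F' w) (G' w)) (ball z₀ 2) := wg_diff hF' hG'
  obtain ⟨q, hq⟩ := mda_max (wg (F' z₀) (G' z₀))
  have hvq : DifferentiableOn ℂ (fun w => wg (F' w) (G' w) q) (ball z₀ 2) := (EuclideanSpace.proj (𝕜 := ℂ) q).differentiable.comp_differentiableOn hv
  have hφ : DifferentiableOn ℂ (fun w => (wg (F' w) (G' w) q) ^ μ * E w) (closedBall z₀ r) := ((hvq.mono hsub).pow μ).mul hE
  have hcl : DiffContOnCl ℂ (fun w => (wg (F' w) (G' w) q) ^ μ * E w) (ball z₀ r) := by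
    refine DifferentiableOn.diffContOnCl ?_
    rw [closure_ball z₀ hr.ne']
    exact hφ
  have hbd : ∀ w ∈ frontier (ball z₀ r), ‖(wg (F' w) (G' w) q) ^ μ * E w‖ ≤ C₁ ^ μ * S := by
    intro w hw'
    rw [frontier_ball z₀ hr.ne', mem_sphere] at hw'
    have hwb : w ∈ ball z₀ 2 := hsub (mem_closedBall.2 hw'.le)
    obtain ⟨h1, h2, h3⟩ := hF1 w hwb
    obtain ⟨h4, h5, h6⟩ := hG1 w hwb
    have h7 := (hw (F' w) (G' w) h1 h4).1
    have h8 := hS w hw'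
    rw [← h2, ← h5] at h8
    have h9 : 0 ≤ dist (pr (F' w)) (pr (G' w)) := dist_nonneg
    have h10 : ‖F' w‖ * ‖G' w‖ ≤ 1 := mul_le_one₀ h3 (norm_nonneg _) h6
    have h11 : ‖wg (F' w) (G' w) q‖ ≤ C₁ * dist (pr (F' w)) (pr (G' w)) := by
      calc ‖wg (F' w) (G' w) q‖ ≤ ‖wg (F' w) (G' w)‖ := PiLp.norm_apply_le _ q
        _ ≤ C₁ * dist (pr (F' w)) (pr (G' w)) * ‖F' w‖ * ‖G' w‖ := h7
        _ = C₁ * dist (pr (F' w)) (pr (G' w)) * (‖F' w‖ * ‖G' w‖) := by ring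
        _ ≤ C₁ * dist (pr (F' w)) (pr (G' w)) * 1 := mul_le_mul_of_nonneg_left h10 (by positivity)
        _ = _ := mul_one _
    rw [norm_mul, norm_pow]
    calc ‖wg (F' w) (G' w) q‖ ^ μ * ‖E w‖ ≤ (C₁ * dist (pr (F' w)) (pr (G' w))) ^ μ * ‖E w‖ :=
          mul_le_mul_of_nonneg_right (pow_le_pow_left₀ (norm_nonneg _) h11 μ) (norm_nonneg _)
      _ = C₁ ^ μ * (dist (pr (F' w)) (pr (G' w)) ^ μ * ‖E w‖) := by rw [mul_pow]; ring
      _ ≤ C₁ ^ μ * S := mul_le_mul_of_nonneg_left h8 (by positivity)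
  have hmax : ‖(wg (F' z₀) (G' z₀) q) ^ μ * E z₀‖ ≤ C₁ ^ μ * S := by
    refine Complex.norm_le_of_forall_mem_frontier_norm_le isBounded_ball hcl hbd ?_
    rw [closure_ball z₀ hr.ne']
    exact mem_closedBall_self hr.le
  rw [norm_mul, norm_pow] at hmax
  obtain ⟨h1, h2, -⟩ := hF1 z₀ hz₀2
  obtain ⟨h4, h5, -⟩ := hG1 z₀ hz₀2
  have h7 := (hw (F' z₀) (G' z₀) h1 h4).2
  rw [← h2, ← h5]
  have h11 : c * c ≤ ‖F' z₀‖ * ‖G' z₀‖ := mul_le_mul hFc hGc hc.le (norm_nonneg _)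
  have h12 : dist (pr (F' z₀)) (pr (G' z₀)) ≤ C₁ * ((N : ℝ) + 1) / (c * c) * ‖wg (F' z₀) (G' z₀) q‖ := by
    rw [div_mul_eq_mul_div, le_div_iff₀ (by positivity)]
    calc dist (pr (F' z₀)) (pr (G' z₀)) * (c * c) ≤ dist (pr (F' z₀)) (pr (G' z₀)) * (‖F' z₀‖ * ‖G' z₀‖) := mul_le_mul_of_nonneg_left h11 dist_nonneg
      _ = dist (pr (F' z₀)) (pr (G' z₀)) * ‖F' z₀‖ * ‖G' z₀‖ := by ring
      _ ≤ C₁ * ‖wg (F' z₀) (G' z₀)‖ := h7
      _ ≤ C₁ * (((N : ℝ) + 1) * ‖wg (F' z₀) (G' z₀) q‖) := mul_le_mul_of_nonneg_left hq hC₁.le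
      _ = _ := by ring
  calc dist (pr (F' z₀)) (pr (G' z₀)) ^ μ * ‖E z₀‖ ≤ (C₁ * ((N : ℝ) + 1) / (c * c) * ‖wg (F' z₀) (G' z₀) q‖) ^ μ * ‖E z₀‖ :=
        mul_le_mul_of_nonneg_right (pow_le_pow_left₀ dist_nonneg h12 μ) (norm_nonneg _)
    _ = (C₁ * ((N : ℝ) + 1) / (c * c)) ^ μ * (‖wg (F' z₀) (G' z₀) q‖ ^ μ * ‖E z₀‖) := by rw [mul_pow]; ring
    _ ≤ (C₁ * ((N : ℝ) + 1) / (c * c)) ^ μ * (C₁ ^ μ * S) := mul_le_mul_of_nonneg_left hmax (by positivity)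
    _ = _ := by ring

end Pool.Agent.G4

end
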