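import Pool.Agent.H94.G4T.M04
import Pool.Agent.H94.G4T.M18
import Pool.Agent.H94.G4T.M22
import Pool.Agent.H94.G4T.M27

/-! The parts of this file: AD.Germ_1, H36.BP.ExtA, H62.FC.Extend, G3.A.TanA, G3.X.LnC. -/

section

/-!
# AD Germ: charts from germ-level charts

The proof of `Pool.Agent.H62.EF.exists_chart_of_germ` with `ℂ × ℂ` replaced by `Vd d`.
-/

set_option autoImplicit false

open Topology Filter Metric

namespace Pool.Agent.AD

open Pool.Agent.H36.BP (EN)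
open Pool.Agent.H14.PP (IsCone)

variable {N d : ℕ}

theorem exists_chart_of_germ {X : Set (EN N)} (hX : IsCone X) {σ : Vd d → EN N} {τ : EN N → Vd d} (h : IsGerm X σ τ) :
    ∃ χ : Chart d X, σ 0 ∈ χ.U ∧ χ.q (σ 0) = 0 := by
  have hσ0 : σ 0 ≠ 0 := by
    intro h0
    have h1 := h.σ_mem.self_of_nhds
    rw [h0] at h1
    exact hX.zero_notMem h1
  -- the linear form
  obtain ⟨ℓ, hℓ⟩ : ∃ ℓ : EN N →L[ℂ] ℂ, ℓ (σ 0) = 1 := by
    have hne : inner ℂ (σ 0) (σ 0) ≠ (0 : ℂ) := inner_self_ne_zero.mpr hσ0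
    refine ⟨(inner ℂ (σ 0) (σ 0) : ℂ)⁻¹ • innerSL ℂ (σ 0), ?_⟩
    simp only [_root_.smul_apply, innerSL_apply_apply, smul_eq_mul]
    exact inv_mul_cancel₀ hne
  -- the normalised parametrisation
  have hℓσ : ContinuousAt (fun p => ℓ (σ p)) 0 := ℓ.continuous.continuousAt.comp h.σ_an.continuousAt
  have hℓne : ∀ᶠ p in 𝓝 (0 : Vd d), ℓ (σ p) ≠ 0 := hℓσ.eventually_ne (by rw [hℓ]; exact one_ne_zero)
  have hinvσ : ∀ᶠ p in 𝓝 (0 : Vd d), τ ((ℓ (σ p))⁻¹ • σ p) = τ (σ p) := by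
    have hc : Tendsto (fun p => (σ p, (ℓ (σ p))⁻¹)) (𝓝 (0 : Vd d)) (𝓝 (σ 0, (1 : ℂ))) := by
      have h1 : Tendsto (fun p => (ℓ (σ p))⁻¹) (𝓝 (0 : Vd d)) (𝓝 (ℓ (σ 0))⁻¹) := hℓσ.inv₀ (by rw [hℓ]; exact one_ne_zero)
      rw [hℓ, inv_one] at h1
      exact h.σ_an.continuousAt.prodMk_nhds h1
    exact hc.eventually h.inv
  -- the neighbourhood W₀
  have hW : ∀ᶠ y in 𝓝 (σ 0), AnalyticAt ℂ τ y ∧ (y ∈ X → ∃ c : ℂ, c ≠ 0 ∧ y = c • σ (τ y)) := h.τ_an.eventually_analyticAt.and h.right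
  obtain ⟨W₀, hW₀s, hW₀o, hW₀m⟩ := _root_.eventually_nhds_iff.mp hW
  have hσ₁ : Tendsto (fun p => (ℓ (σ p))⁻¹ • σ p) (𝓝 (0 : Vd d)) (𝓝 (σ 0)) := by
    have h1 : Tendsto (fun p => (ℓ (σ p))⁻¹) (𝓝 (0 : Vd d)) (𝓝 (ℓ (σ 0))⁻¹) := hℓσ.inv₀ (by rw [hℓ]; exact one_ne_zero)
    have h2 := h1.smul h.σ_an.continuousAt
    rwa [hℓ, inv_one, one_smul] at h2
  have hσ₁W : ∀ᶠ p in 𝓝 (0 : Vd d), (ℓ (σ p))⁻¹ • σ p ∈ W₀ := hσ₁.eventually (hW₀o.mem_nhds hW₀m)
  obtain ⟨R, hR, hall⟩ := Metric.eventually_nhds_iff_ball.mp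
    (((((h.σ_an.eventually_analyticAt.and h.σ_mem).and h.left).and hℓne).and hinvσ).and hσ₁W)
  set r : ℝ := R / 2 with hr
  have hr0 : 0 < r := by rw [hr]; positivity
  have hrC : (r : ℂ) ≠ 0 := by exact_mod_cast hr0.ne'
  have hball : ∀ p ∈ ball (0 : Vd d) 2, (r : ℂ) • p ∈ ball (0 : Vd d) R := by
    intro p hp
    rw [mem_ball_zero_iff] at hp ⊢
    rw [norm_smul, Complex.norm_real, Real.norm_of_nonneg hr0.le, hr]
    nlinarith
  have hτσ : ∀ p ∈ ball (0 : Vd d) R, τ ((ℓ (σ p))⁻¹ • σ p) = p := by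
    intro p hp
    rw [(hall p hp).1.2, (hall p hp).1.1.1.2]
  set U : Set (EN N) := {x | ℓ x ≠ 0 ∧ (ℓ x)⁻¹ • x ∈ W₀ ∧ ‖τ ((ℓ x)⁻¹ • x)‖ < R} with hU
  have hmaps : ∀ x : EN N, ℓ x ≠ 0 → ∀ c : ℂ, c ≠ 0 → (ℓ (c • x))⁻¹ • (c • x) = (ℓ x)⁻¹ • x := by
    intro x hx c hc
    rw [map_smul, smul_eq_mul, smul_smul, mul_inv, mul_comm c⁻¹, mul_assoc, inv_mul_cancel₀ hc, mul_one]
  have han1 : ∀ x : EN N, ℓ x ≠ 0 → AnalyticAt ℂ (fun y : EN N => (ℓ y)⁻¹ • y) x := by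
    intro x hx
    exact ((ℓ.analyticAt x).inv hx).smul analyticAt_id
  have hanq : ∀ x ∈ U, AnalyticAt ℂ (fun y : EN N => τ ((ℓ y)⁻¹ • y)) x := by
    intro x hx
    exact AnalyticAt.fun_comp (hW₀s _ hx.2.1).1 (han1 x hx.1)
  have hUopen : IsOpen U := by
    rw [isOpen_iff_mem_nhds]
    intro x hx
    have h1 : ∀ᶠ y in 𝓝 x, ℓ y ≠ 0 := ℓ.continuous.continuousAt.eventually_ne hx.1
    have h2 : ∀ᶠ y in 𝓝 x, (ℓ y)⁻¹ • y ∈ W₀ := (han1 x hx.1).continuousAt.eventually (hW₀o.mem_nhds hx.2.1)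
    have h3 : ∀ᶠ y in 𝓝 x, ‖τ ((ℓ y)⁻¹ • y)‖ < R := (hanq x hx).continuousAt.norm.eventually_lt_const hx.2.2
    filter_upwards [h1, h2, h3] with y h4 h5 h6
    exact ⟨h4, h5, h6⟩
  let χ : Chart d X :=
    { σ := fun p => (ℓ (σ ((r : ℂ) • p)))⁻¹ • σ ((r : ℂ) • p)
      U := U
      q := fun x => (r : ℂ)⁻¹ • τ ((ℓ x)⁻¹ • x)
      isOpen_U := hUopen
      smul_U := by
        rintro x ⟨h1, h2, h3⟩ c hc
        refine ⟨?_, ?_, ?_⟩
        · rw [map_smul, smul_eq_mul]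
          exact mul_ne_zero hc h1
        · rw [hmaps x h1 c hc]; exact h2
        · rw [hmaps x h1 c hc]; exact h3
      σ_an := by
        intro p hp
        have h1 := (hall _ (hball p hp)).1.1.1.1.1
        have h2 : AnalyticAt ℂ (fun p : Vd d => σ ((r : ℂ) • p)) p :=
          AnalyticAt.fun_comp h1 (analyticAt_const.fun_smul analyticAt_id)
        have h3 : AnalyticAt ℂ (fun p : Vd d => ℓ (σ ((r : ℂ) • p))) p := (ℓ.analyticAt _).fun_comp h2
        exact (h3.inv (hall _ (hball p hp)).1.1.2).smul h2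
      q_an := by
        intro x hx
        exact analyticAt_const.fun_smul (hanq x hx)
      q_smul := by
        rintro x ⟨h1, h2, h3⟩ c hc
        show (r : ℂ)⁻¹ • τ ((ℓ (c • x))⁻¹ • (c • x)) = _
        rw [hmaps x h1 c hc]
      σ_mem := by
        intro p hp
        have hb := hball p hp
        have hh := hall _ hb
        have hne := hh.1.1.2
        have h1 : ℓ ((ℓ (σ ((r : ℂ) • p)))⁻¹ • σ ((r : ℂ) • p)) = 1 := by
          rw [map_smul, smul_eq_mul, inv_mul_cancel₀ hne]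
        have h2 : τ ((ℓ (σ ((r : ℂ) • p)))⁻¹ • σ ((r : ℂ) • p)) = (r : ℂ) • p := hτσ _ hb
        refine ⟨hX.smul_mem _ hh.1.1.1.1.2 _ (inv_ne_zero hne), ⟨?_, ?_, ?_⟩, ?_⟩
        · rw [h1]; exact one_ne_zero
        · rw [h1, inv_one, one_smul]; exact hh.2
        · rw [h1, inv_one, one_smul, h2]
          exact mem_ball_zero_iff.mp hb
        · show (r : ℂ)⁻¹ • τ ((ℓ ((ℓ (σ ((r : ℂ) • p)))⁻¹ • σ ((r : ℂ) • p)))⁻¹ • ((ℓ (σ ((r : ℂ) • p)))⁻¹ • σ ((r : ℂ) • p))) = p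
          rw [h1, inv_one, one_smul, h2, smul_smul, inv_mul_cancel₀ hrC, one_smul]
      surj := by
        rintro x hxX ⟨h1, h2, h3⟩
        have hyX : (ℓ x)⁻¹ • x ∈ X := hX.smul_mem _ hxX _ (inv_ne_zero h1)
        obtain ⟨c, hc0, hc⟩ := (hW₀s _ h2).2 hyX
        have hτb : τ ((ℓ x)⁻¹ • x) ∈ ball (0 : Vd d) R := mem_ball_zero_iff.mpr h3
        have hrq : (r : ℂ) • ((r : ℂ)⁻¹ • τ ((ℓ x)⁻¹ • x)) = τ ((ℓ x)⁻¹ • x) := by
          rw [smul_smul, mul_inv_cancel₀ hrC, one_smul]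
        refine ⟨?_, ?_⟩
        · show (r : ℂ)⁻¹ • τ ((ℓ x)⁻¹ • x) ∈ ball (0 : Vd d) 2
          rw [mem_ball_zero_iff, norm_smul, norm_inv, Complex.norm_real, Real.norm_of_nonneg hr0.le, inv_mul_lt_iff₀ hr0, hr]
          linarith
        · refine ⟨ℓ x * c * ℓ (σ (τ ((ℓ x)⁻¹ • x))), ?_, ?_⟩
          · exact mul_ne_zero (mul_ne_zero h1 hc0) (hall _ hτb).1.1.2
          · show x = (ℓ x * c * ℓ (σ (τ ((ℓ x)⁻¹ • x)))) •
              ((ℓ (σ ((r : ℂ) • ((r : ℂ)⁻¹ • τ ((ℓ x)⁻¹ • x)))))⁻¹ • σ ((r : ℂ) • ((r : ℂ)⁻¹ • τ ((ℓ x)⁻¹ • x))))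
            rw [hrq, smul_smul, mul_assoc, mul_inv_cancel₀ (hall _ hτb).1.1.2, mul_one, mul_smul, ← hc, smul_smul, mul_inv_cancel₀ h1, one_smul] }
  have h0b : (0 : Vd d) ∈ ball (0 : Vd d) R := mem_ball_self hR
  have hτ0 : τ (σ 0) = 0 := (hall 0 h0b).1.1.1.2
  refine ⟨χ, ⟨?_, ?_, ?_⟩, ?_⟩
  · rw [hℓ]; exact one_ne_zero
  · rw [hℓ, inv_one, one_smul]; exact hW₀m
  · rw [hℓ, inv_one, one_smul, hτ0, norm_zero]; exact hR
  · show (r : ℂ)⁻¹ • τ ((ℓ (σ 0))⁻¹ • σ 0) = 0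
    rw [hℓ, inv_one, one_smul, hτ0, smul_zero]

end Pool.Agent.AD

end

section

/-!
# BP ExtA: growth at the puncture

`z ≠ 0`, `|z| < 1`, `z = exp w₀`, `R = log(1/|z|) = -Re w₀`.  The curve `ζ ↦ F(exp(w₀ + R ζ))` is defined for `|ζ| < 1` (`Re(w₀ + Rζ) < 0`); `mt_comp` with `φ ζ = exp(w₀ + Rζ)`, `|φ'(0)| = R|z|`.
-/

set_option autoImplicit false

namespace Pool.Agent.H36.BP

open Filter Topology Metric

variable {N : ℕ}

variable {K B : Set (EN N)} {G : EN N → EN N → ℝ} {ρ : EN N → ℝ} {M : ℕ} {c₀ C : ℝ}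

theorem growth (hM : MetricData K B G ρ M c₀ C) {L : ℝ} (hL : ∀ F, Curve K (ball 0 1) F → mt G F 0 ≤ L) {F : ℂ → EN N}
    (hF : Curve K (ball 0 1 \ {0}) F) {z : ℂ} (hz : z ≠ 0) (hz1 : ‖z‖ < 1) :
    mt G F z * (‖z‖ * Real.log (1 / ‖z‖)) ≤ L := by
  have hzp : 0 < ‖z‖ := norm_pos_iff.2 hz
  obtain ⟨R, hR⟩ : ∃ R : ℝ, R = Real.log (1 / ‖z‖) := ⟨_, rfl⟩
  have hR0 : 0 < R := by
    rw [hR]
    exact Real.log_pos (by rw [lt_div_iff₀ hzp]; linarith)
  have hRl : R = -Real.log ‖z‖ := by rw [hR, one_div, Real.log_inv]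
  rw [← hR]
  obtain ⟨φ, hφ⟩ : ∃ φ : ℂ → ℂ, φ = fun ζ => Complex.exp (Complex.log z + R * ζ) := ⟨_, rfl⟩
  have hφd : ∀ ζ, HasDerivAt φ (Complex.exp (Complex.log z + R * ζ) * R) ζ := by
    intro ζ
    rw [hφ]
    have h1 : HasDerivAt (fun ζ : ℂ => Complex.log z + R * ζ) ((R : ℂ) * 1) ζ :=
      ((hasDerivAt_id' ζ).const_mul (R : ℂ)).const_add _
    rw [mul_one] at h1
    exact h1.cexp
  have hφ0 : φ 0 = z := by
    rw [hφ]
    simp only [mul_zero, add_zero]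
    exact Complex.exp_log hz
  have hφm : ∀ ζ ∈ ball (0 : ℂ) 1, φ ζ ∈ ball (0 : ℂ) 1 \ {0} := by
    intro ζ hζ
    rw [mem_ball_zero_iff] at hζ
    have h1 : ζ.re < 1 := lt_of_le_of_lt (Complex.re_le_norm ζ) hζ
    refine ⟨?_, ?_⟩
    · rw [mem_ball_zero_iff, hφ]
      simp only
      rw [Complex.norm_exp, Real.exp_lt_one_iff, Complex.add_re, Complex.log_re, Complex.re_ofReal_mul]
      have h2 : R * ζ.re < R * 1 := mul_lt_mul_of_pos_left h1 hR0
      linarith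
    · rw [Set.mem_singleton_iff, hφ]
      exact Complex.exp_ne_zero _
  have hopen : IsOpen (ball (0 : ℂ) 1 \ {0}) := isOpen_ball.sdiff isClosed_singleton
  have hFd : ∀ w ∈ ball (0 : ℂ) 1 \ {0}, DifferentiableAt ℂ F w := fun w hw =>
    hF.1.differentiableAt (hopen.mem_nhds hw)
  have hcurve : Curve K (ball 0 1) (fun ζ => F (φ ζ)) := by
    refine ⟨fun ζ hζ => ?_, fun ζ hζ => hF.2 _ (hφm ζ hζ)⟩
    exact ((hFd _ (hφm ζ hζ)).comp ζ (hφd ζ).differentiableAt).differentiableWithinAt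
  have hzm : z ∈ ball (0 : ℂ) 1 \ {0} := by
    have := hφm 0 (mem_ball_self one_pos)
    rwa [hφ0] at this
  have h1 := hL _ hcurve
  rw [mt_comp hM (by rw [hφ0]; exact hFd z hzm) (hφd 0).differentiableAt
    (by rw [hφ0]; exact hF.2 z hzm), hφ0, (hφd 0).deriv, mul_zero, add_zero, Complex.exp_log hz,
    norm_mul, Complex.norm_real, Real.norm_of_nonneg hR0.le] at h1
  rw [mul_comm]
  exact h1

end Pool.Agent.H36.BP

end

section

/-!
# Extension of a holomorphic map into projective space across a puncture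
-/

noncomputable section

namespace Pool.Agent.H62.FC

open Pool.Agent.H62.FC
open MvPolynomial Topology Filter
open Pool.Agent.H17 (PN VanishesAt ZariskiClosedIn HolomorphicInto puncturedDisc)

variable {N : ℕ}

/-- A meromorphic function of order at least `n` is `z ^ n` times an analytic function. -/
private theorem Extend_factor {v : ℂ → ℂ} (hv : MeromorphicAt v 0) {n : ℤ}
    (hn : (n : WithTop ℤ) ≤ meromorphicOrderAt v 0) :
    ∃ w : ℂ → ℂ, AnalyticAt ℂ w 0 ∧ (∀ᶠ z in 𝓝[≠] (0 : ℂ), v z = z ^ n * w z) ∧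
      (meromorphicOrderAt v 0 = n → w 0 ≠ 0) := by
  by_cases h : meromorphicOrderAt v 0 = ⊤
  · refine ⟨fun _ => 0, analyticAt_const, ?_, ?_⟩
    · rw [meromorphicOrderAt_eq_top_iff] at h
      filter_upwards [h] with z hz
      rw [hz, mul_zero]
    · intro h'
      rw [h] at h'
      exact absurd h' (by simp)
  · obtain ⟨k, hk⟩ := WithTop.ne_top_iff_exists.mp h
    rw [← hk] at hn
    have hnk : n ≤ k := by exact_mod_cast hn
    obtain ⟨g, hg, hg0, hge⟩ := (meromorphicOrderAt_eq_int_iff hv).mp hk.symm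
    refine ⟨fun z => z ^ (k - n).toNat * g z, ?_, ?_, ?_⟩
    · exact (analyticAt_id.pow _).mul hg
    · filter_upwards [hge, self_mem_nhdsWithin] with z hz hz0
      have hz0' : z ≠ 0 := hz0
      rw [hz, sub_zero, smul_eq_mul, ← mul_assoc, ← zpow_natCast z, ← zpow_add₀ hz0',
        Int.toNat_of_nonneg (by omega)]
      congr 2
      ring
    · intro h'
      rw [← hk] at h'
      have : k = n := by exact_mod_cast h'
      subst this
      simpa using hg0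

/-- The representative of a point given by homogeneous coordinates. -/
private theorem Extend_rep {x : PN N} {u : Fin (N + 1) → ℂ} (hu : u ≠ 0)
    (hx : x = Projectivization.mk ℂ u hu) : ∃ c : ℂ, c ≠ 0 ∧ ∀ i, x.rep i = c * u i := by
  have h1 : Projectivization.mk ℂ x.rep x.rep_nonzero = Projectivization.mk ℂ u hu := by
    rw [Projectivization.mk_rep, hx]
  rw [Projectivization.mk_eq_mk_iff'] at h1
  obtain ⟨a, ha⟩ := h1
  refine ⟨a, ?_, fun i => ?_⟩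
  · rintro rfl
    exact x.rep_nonzero (by rw [← ha, zero_smul])
  · rw [← ha]
    rfl

/-- **Extension criterion.** -/
theorem exists_extension {f : ℂ → PN N} (hf : HolomorphicInto f puncturedDisc)
    {i₀ : Fin (N + 1)} (h0 : ∀ᶠ z in 𝓝[≠] (0 : ℂ), ∀ᶠ ζ in 𝓝[≠] z, (f ζ).rep i₀ ≠ 0)
    (h : ∀ i, PunctMero (fun z => (f z).rep i / (f z).rep i₀)) :
    ∃ g : ℂ → PN N, HolomorphicInto g (Metric.ball 0 1) ∧ ∀ z ∈ puncturedDisc, g z = f z := by
  classical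
  choose v hv hvf using h
  -- the minimal order
  obtain ⟨j₁, -, hj₁⟩ := (Finset.univ : Finset (Fin (N + 1))).exists_min_image
    (fun j => meromorphicOrderAt (v j) 0) ⟨i₀, Finset.mem_univ _⟩
  have hne : meromorphicOrderAt (v i₀) 0 ≠ ⊤ := by
    intro htop
    rw [meromorphicOrderAt_eq_top_iff] at htop
    have h1 : ∀ᶠ z in 𝓝[≠] (0 : ℂ), ∀ᶠ ζ in 𝓝[≠] z, v i₀ ζ = 0 := by
      have h2 : ∀ᶠ z in 𝓝 (0 : ℂ), z ≠ 0 → v i₀ z = 0 := eventually_nhdsWithin_iff.mp htop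
      have h3 := h2.eventually_nhds
      filter_upwards [h3.filter_mono nhdsWithin_le_nhds, self_mem_nhdsWithin] with z hz hz0
      have hz0' : z ≠ 0 := hz0
      have h4 : ∀ᶠ ζ in 𝓝 z, ζ ≠ 0 := isOpen_ne.mem_nhds hz0'
      have h5 : ∀ᶠ ζ in 𝓝 z, v i₀ ζ = 0 := by
        filter_upwards [hz, h4] with ζ ha hb
        exact ha hb
      exact h5.filter_mono nhdsWithin_le_nhds
    obtain ⟨z, ha, hb, hc⟩ := (h1.and (h0.and (hvf i₀))).exists
    obtain ⟨ζ, hd, he, hg⟩ := (ha.and (hb.and hc)).exists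
    have hg' : (f ζ).rep i₀ / (f ζ).rep i₀ = v i₀ ζ := hg
    rw [hd, div_self he] at hg'
    exact one_ne_zero hg'
  have hne1 : meromorphicOrderAt (v j₁) 0 ≠ ⊤ :=
    ne_top_of_le_ne_top hne (hj₁ i₀ (Finset.mem_univ _))
  obtain ⟨n, hn⟩ := WithTop.ne_top_iff_exists.mp hne1
  have hw : ∀ j, ∃ w : ℂ → ℂ, AnalyticAt ℂ w 0 ∧ (∀ᶠ z in 𝓝[≠] (0 : ℂ), v j z = z ^ n * w z) ∧
      (meromorphicOrderAt (v j) 0 = n → w 0 ≠ 0) := fun j =>
    Extend_factor (hv j) (by rw [hn]; exact hj₁ j (Finset.mem_univ _))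
  choose w hwan hwv hw0 using hw
  have hw1 : w j₁ 0 ≠ 0 := hw0 j₁ hn.symm
  -- the local statement near the puncture
  have hmain : ∀ᶠ z in 𝓝[≠] (0 : ℂ), ∃ hh : (fun j => w j z) ≠ 0,
      f z = Projectivization.mk ℂ (fun j => w j z) hh := by
    have a1 : ∀ᶠ z in 𝓝[≠] (0 : ℂ), ∀ j, ∀ᶠ ζ in 𝓝 z, v j ζ = ζ ^ n * w j ζ := by
      rw [eventually_all]
      intro j
      have h2 : ∀ᶠ z in 𝓝 (0 : ℂ), z ≠ 0 → v j z = z ^ n * w j z :=
        eventually_nhdsWithin_iff.mp (hwv j)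
      have h3 := h2.eventually_nhds
      filter_upwards [h3.filter_mono nhdsWithin_le_nhds, self_mem_nhdsWithin] with z hz hz0
      have hz0' : z ≠ 0 := hz0
      have h4 : ∀ᶠ ζ in 𝓝 z, ζ ≠ 0 := isOpen_ne.mem_nhds hz0'
      filter_upwards [hz, h4] with ζ ha hb
      exact ha hb
    have a2 : ∀ᶠ z in 𝓝[≠] (0 : ℂ), ∀ j,
        (fun ζ => (f ζ).rep j / (f ζ).rep i₀) =ᶠ[𝓝[≠] z] v j := by
      rw [eventually_all]
      exact hvf
    have a3 : ∀ᶠ z in 𝓝[≠] (0 : ℂ), ∀ j, AnalyticAt ℂ (w j) z := by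
      rw [eventually_all]
      exact fun j => (hwan j).eventually_analyticAt.filter_mono nhdsWithin_le_nhds
    have a4 : ∀ᶠ z in 𝓝[≠] (0 : ℂ), w j₁ z ≠ 0 :=
      ((hwan j₁).continuousAt.eventually_ne hw1).filter_mono nhdsWithin_le_nhds
    have a5 : ∀ᶠ z in 𝓝[≠] (0 : ℂ), z ∈ puncturedDisc := by
      filter_upwards [mem_nhdsWithin_of_mem_nhds (Metric.ball_mem_nhds (0 : ℂ) one_pos),
        self_mem_nhdsWithin] with z h1 h2
      exact ⟨h1, h2⟩
    filter_upwards [a1, a2, a3, a4, a5, h0, self_mem_nhdsWithin] with z b1 b2 b3 b4 b5 b6 b7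
    obtain ⟨φ, hφ, hφf⟩ := hf z b5
    have hφ1 : ∀ i, AnalyticAt ℂ (fun z => φ z i) z := fun i => (analyticAt_pi_iff.mp hφ) i
    have hcross : ∀ i j, φ z i * w j z = φ z j * w i z := by
      intro i j
      have hev : (fun ζ => φ ζ i * w j ζ - φ ζ j * w i ζ) =ᶠ[𝓝[≠] z] fun _ => (0 : ℂ) := by
        have b1' : ∀ᶠ ζ in 𝓝[≠] z, ∀ j, v j ζ = ζ ^ n * w j ζ := by
          rw [eventually_all]
          exact fun j => (b1 j).filter_mono nhdsWithin_le_nhds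
        have b2' : ∀ᶠ ζ in 𝓝[≠] z, ∀ j, (f ζ).rep j / (f ζ).rep i₀ = v j ζ := by
          rw [eventually_all]
          exact b2
        filter_upwards [b1', b2', b6, hφf.filter_mono nhdsWithin_le_nhds] with ζ c1 c2 c3 c4
        obtain ⟨hφ0, hfφ⟩ := c4
        obtain ⟨c, hc, hrep⟩ := Extend_rep hφ0 hfφ
        have key : ∀ j, φ ζ j = φ ζ i₀ * (ζ ^ n * w j ζ) := by
          intro j
          have e1 := c2 j
          rw [c1 j, hrep j, hrep i₀, mul_div_mul_left _ _ hc] at e1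
          have e2 : φ ζ i₀ ≠ 0 := by
            intro e3
            apply c3
            rw [hrep i₀, e3, mul_zero]
          rw [div_eq_iff e2] at e1
          rw [e1, mul_comm]
        rw [key i, key j]
        ring
      have hcont : ContinuousAt (fun ζ => φ ζ i * w j ζ - φ ζ j * w i ζ) z :=
        (((hφ1 i).mul (b3 j)).sub ((hφ1 j).mul (b3 i))).continuousAt
      have h1 : Tendsto (fun ζ => φ ζ i * w j ζ - φ ζ j * w i ζ) (𝓝[≠] z)
          (𝓝 (φ z i * w j z - φ z j * w i z)) := hcont.tendsto.mono_left nhdsWithin_le_nhds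
      have h2 : Tendsto (fun ζ => φ ζ i * w j ζ - φ ζ j * w i ζ) (𝓝[≠] z) (𝓝 0) :=
        tendsto_const_nhds.congr' hev.symm
      exact sub_eq_zero.mp (tendsto_nhds_unique h1 h2)
    have hwz : (fun j => w j z) ≠ 0 := fun hh => b4 (congrFun hh j₁)
    refine ⟨hwz, ?_⟩
    obtain ⟨hφ0, hfφ⟩ := hφf.self_of_nhds
    rw [hfφ, Projectivization.mk_eq_mk_iff']
    refine ⟨φ z j₁ / w j₁ z, ?_⟩
    funext j
    simp only [Pi.smul_apply, smul_eq_mul]
    rw [div_mul_eq_mul_div, div_eq_iff b4]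
    exact hcross j₁ j
  -- the extension
  have hv0 : (fun j => w j 0) ≠ 0 := fun h => hw1 (congrFun h j₁)
  set g : ℂ → PN N := Function.update f 0 (Projectivization.mk ℂ (fun j => w j 0) hv0) with hg
  have hgf : ∀ z, z ≠ 0 → g z = f z := fun z hz => by
    rw [hg, Function.update_of_ne hz]
  refine ⟨g, ?_, fun z hz => hgf z fun h => hz.2 (by simp [h])⟩
  intro z₀ hz₀
  by_cases h00 : z₀ = 0
  · subst h00
    refine ⟨fun z => (fun j => w j z), analyticAt_pi_iff.mpr hwan, ?_⟩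
    filter_upwards [eventually_nhdsWithin_iff.mp hmain] with z hz
    by_cases hz0 : z = 0
    · subst hz0
      exact ⟨hv0, by rw [hg, Function.update_self]⟩
    · obtain ⟨h1, h2⟩ := hz hz0
      exact ⟨h1, by rw [hgf z hz0, h2]⟩
  · obtain ⟨φ, hφ, hφf⟩ := hf z₀ ⟨hz₀, by simpa using h00⟩
    refine ⟨φ, hφ, ?_⟩
    have h1 : ∀ᶠ z in 𝓝 z₀, z ∈ ({0}ᶜ : Set ℂ) := isOpen_compl_singleton.mem_nhds h00
    filter_upwards [hφf, h1] with z hz hz'
    rw [hgf z hz']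
    exact hz

end Pool.Agent.H62.FC

end
end

section

/-!
# G3 A TanA: the points of an analytic curve at which it is tangent to a direction are isolated (local theorem)

`tan_local`.  Linear coordinates `(ξ, ω)` with `ξ a = 0`, `ω a = 1`.  `local_trans`, `local_tan`: at a transversal point `D` is the graph `ω = g (ξ)`, at a tangency point the graph `ξ = φ (ω)` with
`φ' = 0` there, and `φ` is not constant (identity theorem on the line).  `Loc`: these data in a neighbourhood `ball x₀ r × closedBall w₀ R`, `2 R ≤ 1`, with no points on `|ω - w₀| = R`.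
`Om`: the `x` over which all points are transversal; `del x`: the product of the differences of the points of the fibre over `x ∈ Om`, `0` for `x ∉ Om`; `|del| ≤ 1` since all differences are at most `1`.
`del` is analytic at the points of `Om` (`del_an`), not zero there (`dlt_ne`), and analytic at the other points `x₁ ≠ x₀` (`del_an'`), since it tends to `0` there: every value near a critical value is taken
twice (`two_preimages`).  So `(x - x₀) del x` is analytic at `x₀`, and not identically zero: `iso_of_loc`.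
-/

set_option autoImplicit false

open Topology Filter Metric

namespace Pool.Agent.G3.A

open Pool.Agent.AD (Vd)
open Pool.Agent.TG

/-- coordinates adapted to the direction `a` -/
private theorem exists_coords {a : Vd (1 + 1)} (ha : a ≠ 0) : ∃ (ξ ω : Vd (1 + 1) →L[ℂ] ℂ) (e : Vd (1 + 1)), ξ a = 0 ∧ ω a = 1 ∧ ξ e = 1 ∧ ω e = 0 ∧
    ∀ q : Vd (1 + 1), ξ q • e + ω q • a = q := by
  by_cases h0 : a 0 = 0
  · have h1 : a 1 ≠ 0 := fun h1 => ha (by
      ext i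
      fin_cases i
      · exact h0
      · exact h1)
    refine ⟨ContinuousLinearMap.proj 0, (a 1)⁻¹ • ContinuousLinearMap.proj 1, Pi.single 0 1, by simpa using h0, by simp [h1], by simp, by simp, fun q => ?_⟩
    ext i
    fin_cases i
    · simp [h0]
    · simp
      field_simp
  · refine ⟨ContinuousLinearMap.proj 1 - (a 1 / a 0) • ContinuousLinearMap.proj 0, (a 0)⁻¹ • ContinuousLinearMap.proj 0, Pi.single 1 1, ?_, by simp [h0], by simp, by simp,
      fun q => ?_⟩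
    · simp
      field_simp
      ring
    · ext i
      fin_cases i
      · simp
        field_simp
      · simp
        field_simp
        ring

/-- the set `D` is a graph over the coordinate `ξ`, if its tangent line is transversal to `ξ = 0` -/
private theorem graph_of_coord {D : Set (Vd (1 + 1))} {κ : Vd (1 + 1) → Vd (1 + 1)} {q₁ : Vd (1 + 1)} (hκ : IsCoord D κ q₁) (ξ ω : Vd (1 + 1) →L[ℂ] ℂ)
    (hinj : ∀ v, ξ v = 0 → ω v = 0 → v = 0) (hξ : ξ (fderiv ℂ κ 0 (Pi.single 1 1)) ≠ 0) :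
    ∃ g : ℂ → ℂ, AnalyticAt ℂ g (ξ q₁) ∧ g (ξ q₁) = ω q₁ ∧ ∀ᶠ q in 𝓝 q₁, (q ∈ D ↔ ω q = g (ξ q)) := by
  obtain ⟨ψ, hψ, hψκ, hκψ, hψ0⟩ := Pool.Agent.H62.BU.local_inverse hκ.an (fun v hv => hκ.inj (by rw [hv, map_zero]))
  rw [hκ.zero] at hψ hκψ hψ0
  have hκd : HasFDerivAt κ (fderiv ℂ κ 0) 0 := hκ.an.differentiableAt.hasFDerivAt
  have hΘ : AnalyticAt ℂ (fun p : Vd (1 + 1) => (![ξ (κ p), p 0] : Vd (1 + 1))) 0 := by
    rw [analyticAt_pi_iff]
    intro i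
    fin_cases i
    · exact (ξ.analyticAt _).comp hκ.an
    · exact (ContinuousLinearMap.proj (R := ℂ) (φ := fun _ : Fin (1 + 1) => ℂ) 0).analyticAt 0
  have hΘd : HasFDerivAt (fun p : Vd (1 + 1) => (![ξ (κ p), p 0] : Vd (1 + 1)))
      (ContinuousLinearMap.pi ![ξ.comp (fderiv ℂ κ 0), ContinuousLinearMap.proj 0]) 0 := by
    rw [hasFDerivAt_pi']
    intro i
    fin_cases i
    · exact ξ.hasFDerivAt.comp 0 hκd
    · exact (ContinuousLinearMap.proj (R := ℂ) (φ := fun _ : Fin (1 + 1) => ℂ) 0).hasFDerivAt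
  obtain ⟨Sg, hS, hST, hTS, hS0⟩ := Pool.Agent.H62.BU.local_inverse hΘ (fun v hv => by
    rw [hΘd.fderiv] at hv
    have h1 := congrFun hv 0
    have h2 := congrFun hv 1
    simp only [ContinuousLinearMap.coe_pi', Matrix.cons_val_zero, Matrix.cons_val_one, ContinuousLinearMap.comp_apply, ContinuousLinearMap.proj_apply, Pi.zero_apply] at h1 h2
    have h3 : v = v 1 • Pi.single 1 1 := by
      ext i
      fin_cases i
      · simpa using h2
      · simp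
    rw [h3, map_smul, map_smul, smul_eq_mul] at h1
    rcases mul_eq_zero.mp h1 with h4 | h4
    · rw [h3, h4, zero_smul]
    · exact absurd h4 hξ)
  rw [hκ.zero] at hS hTS hS0
  have hcons : AnalyticAt ℂ (fun x : ℂ => (![x, 0] : Vd (1 + 1))) (ξ q₁) := by
    rw [analyticAt_pi_iff]
    intro i
    fin_cases i
    · exact analyticAt_id
    · exact analyticAt_const
  have hz : (![ξ q₁, (0 : Vd (1 + 1)) 0] : Vd (1 + 1)) = ![ξ q₁, 0] := rfl
  rw [hz] at hS hTS hS0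
  have hg1 : AnalyticAt ℂ (fun x : ℂ => Sg ![x, 0]) (ξ q₁) := AnalyticAt.fun_comp hS hcons
  have hg2 : AnalyticAt ℂ (fun x : ℂ => κ (Sg ![x, 0])) (ξ q₁) := by
    have h1 : AnalyticAt ℂ κ (Sg ![ξ q₁, 0]) := by
      rw [hS0]
      exact hκ.an
    exact AnalyticAt.fun_comp h1 hg1
  refine ⟨fun x => ω (κ (Sg ![x, 0])), AnalyticAt.fun_comp (ω.analyticAt _) hg2, ?_, ?_⟩
  · show ω (κ (Sg ![ξ q₁, 0])) = ω q₁
    rw [hS0, hκ.zero]
  · have t1 : Tendsto ψ (𝓝 q₁) (𝓝 0) := by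
      have := hψ.continuousAt.tendsto
      rwa [hψ0] at this
    have t2 : Tendsto (fun q : Vd (1 + 1) => ξ q) (𝓝 q₁) (𝓝 (ξ q₁)) := ξ.continuous.continuousAt
    have t3 : Tendsto (fun q : Vd (1 + 1) => Sg ![ξ q, 0]) (𝓝 q₁) (𝓝 0) := by
      have := hg1.continuousAt.tendsto.comp t2
      rw [hS0] at this
      exact this
    have t4 : Tendsto (fun q : Vd (1 + 1) => (![ξ q, 0] : Vd (1 + 1))) (𝓝 q₁) (𝓝 ![ξ q₁, 0]) := hcons.continuousAt.tendsto.comp t2
    filter_upwards [hκψ, t1.eventually hκ.mem_iff, t1.eventually hST, t3.eventually hψκ, t4.eventually hTS, hκψ] with q h1 h2 h3 h4 h5 h6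
    rw [h1] at h2 h3
    have h51 := congrFun h5 0
    have h52 := congrFun h5 1
    simp only [Matrix.cons_val_zero, Matrix.cons_val_one] at h51 h52
    constructor
    · intro hq
      rw [h2.mp hq] at h3
      rw [h3, h1]
    · intro hq
      have h7 : κ (Sg ![ξ q, 0]) = q := by
        have h8 := hinj (κ (Sg ![ξ q, 0]) - q) (by rw [map_sub, h51, sub_self]) (by rw [map_sub, ← hq, sub_self])
        exact sub_eq_zero.mp h8
      rw [h7] at h4
      rw [← h4] at h52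
      exact h2.mpr h52

/-- if `D` is near `q'` contained in the zero set of `F`, and the derivative of `F` in the direction `a` is not zero, then `a` is transversal to `D` -/
private theorem trans_of {D : Set (Vd (1 + 1))} {q' a : Vd (1 + 1)} (ha : a ≠ 0) {F : Vd (1 + 1) → ℂ} {F' : Vd (1 + 1) →L[ℂ] ℂ} (hF : HasFDerivAt F F' q')
    (h : ∀ᶠ q in 𝓝 q', q ∈ D → F q = 0) (hne : F' a ≠ 0) : TransAt D q' a := by
  refine ⟨ha, fun κ hκ p hp hpa => hne ?_⟩
  have h1 : HasDerivAt (fun s : ℂ => s • p) p 0 := by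
    have := (hasDerivAt_id (0 : ℂ)).smul_const p
    simpa using this
  have h2 : HasDerivAt (fun s : ℂ => κ (s • p)) a 0 := by
    have h3 : HasFDerivAt κ (fderiv ℂ κ 0) ((0 : ℂ) • p) := by
      rw [zero_smul]
      exact hκ.an.differentiableAt.hasFDerivAt
    have h4 := h3.comp_hasDerivAt (0 : ℂ) h1
    rwa [hpa] at h4
  have h5 : κ ((0 : ℂ) • p) = q' := by rw [zero_smul, hκ.zero]
  have h6 : HasDerivAt (fun s : ℂ => F (κ (s • p))) (F' a) 0 := by
    have h7 : HasFDerivAt F F' (κ ((0 : ℂ) • p)) := by rwa [h5]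
    exact h7.comp_hasDerivAt (0 : ℂ) h2
  have t1 : Tendsto (fun s : ℂ => s • p) (𝓝 0) (𝓝 0) := by
    have := h1.continuousAt.tendsto
    rwa [zero_smul] at this
  have t2 : Tendsto (fun s : ℂ => κ (s • p)) (𝓝 0) (𝓝 q') := by
    have := h2.continuousAt.tendsto
    rwa [h5] at this
  have h8 : HasDerivAt (fun s : ℂ => F (κ (s • p))) 0 0 := by
    refine (hasDerivAt_const (0 : ℂ) (0 : ℂ)).congr_of_eventuallyEq ?_
    filter_upwards [t1.eventually hκ.mem_iff, t2.eventually h] with s hs1 hs2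
    refine hs2 (hs1.mpr ?_)
    show s • p 0 = 0
    rw [hp, smul_zero]
  exact h6.unique h8

/-- near a critical point a nonconstant function takes every value at least twice -/
private theorem two_preimages {φ : ℂ → ℂ} {w₁ x₁ : ℂ} (hφ : AnalyticAt ℂ φ w₁) (h0 : φ w₁ = x₁) (hd : deriv φ w₁ = 0) (hnc : ¬ ∀ᶠ w in 𝓝 w₁, φ w = x₁) {ε : ℝ}
    (hε : 0 < ε) : ∀ᶠ x in 𝓝[≠] x₁, ∃ w w' : ℂ, w ≠ w' ∧ w ∈ ball w₁ ε ∧ w' ∈ ball w₁ ε ∧ φ w = x ∧ φ w' = x := by
  have hf : AnalyticAt ℂ (fun w => φ w - x₁) w₁ := hφ.sub analyticAt_const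
  have hf0 : ¬ ∀ᶠ w in 𝓝 w₁, φ w - x₁ = 0 := fun h => hnc (h.mono fun w hw => sub_eq_zero.mp hw)
  obtain ⟨n, g, hg, hg0, hgf⟩ := hf.exists_eventuallyEq_pow_smul_nonzero_iff.mpr hf0
  have hn0 : n ≠ 0 := by
    rintro rfl
    have h1 := hgf.self_of_nhds
    rw [h0, sub_self, pow_zero, one_smul] at h1
    exact hg0 h1.symm
  have hn1 : n ≠ 1 := by
    rintro rfl
    have h1 : HasDerivAt (fun w => (w - w₁) * g w) (1 * g w₁ + (w₁ - w₁) * deriv g w₁) w₁ :=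
      ((hasDerivAt_id w₁).sub_const w₁).mul hg.differentiableAt.hasDerivAt
    have h2 : HasDerivAt (fun w => φ w - x₁) (1 * g w₁ + (w₁ - w₁) * deriv g w₁) w₁ := by
      refine h1.congr_of_eventuallyEq ?_
      filter_upwards [hgf] with w hw
      rw [hw, pow_one, smul_eq_mul]
    have h3 : HasDerivAt (fun w => φ w - x₁) (deriv φ w₁) w₁ := hφ.differentiableAt.hasDerivAt.sub_const x₁
    have h4 := h2.unique h3
    rw [hd, sub_self, zero_mul, add_zero, one_mul] at h4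
    exact hg0 h4
  have hn : 1 < n := by omega
  obtain ⟨c, hc⟩ := IsAlgClosed.exists_pow_nat_eq (g w₁) (n := n) (by omega)
  have hc0 : c ≠ 0 := by
    rintro rfl
    rw [zero_pow hn0] at hc
    exact hg0 hc.symm
  have hv : AnalyticAt ℂ (fun w => c * Complex.exp (Complex.log (g w / g w₁) / n)) w₁ := by
    refine analyticAt_const.mul (AnalyticAt.cexp (AnalyticAt.div ?_ analyticAt_const (by exact_mod_cast hn0)))
    refine AnalyticAt.clog (hg.div analyticAt_const hg0) ?_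
    rw [div_self hg0]
    exact Complex.one_mem_slitPlane
  have hvn : ∀ᶠ w in 𝓝 w₁, (c * Complex.exp (Complex.log (g w / g w₁) / n)) ^ n = g w := by
    filter_upwards [hg.continuousAt.eventually_ne hg0] with w hw
    rw [mul_pow, hc, ← Complex.exp_nat_mul, mul_div_cancel₀ _ (by exact_mod_cast hn0 : (n : ℂ) ≠ 0), Complex.exp_log (div_ne_zero hw hg0)]
    field_simp
  set v : ℂ → ℂ := fun w => c * Complex.exp (Complex.log (g w / g w₁) / n) with hvdef
  have hv0 : v w₁ ≠ 0 := mul_ne_zero hc0 (Complex.exp_ne_zero _)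
  have hψ : AnalyticAt ℂ (fun w => (w - w₁) * v w) w₁ := (analyticAt_id.sub analyticAt_const).mul hv
  have hψd : HasDerivAt (fun w => (w - w₁) * v w) (1 * v w₁ + (w₁ - w₁) * deriv v w₁) w₁ :=
    ((hasDerivAt_id w₁).sub_const w₁).mul hv.differentiableAt.hasDerivAt
  obtain ⟨χ, hχ, hχψ, hψχ, hχ0⟩ := Pool.Agent.H62.BU.local_inverse hψ (fun t ht => by
    rw [hψd.hasFDerivAt.fderiv] at ht
    simp only [sub_self, zero_mul, add_zero, one_mul, ContinuousLinearMap.toSpanSingleton_apply, smul_eq_mul] at ht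
    rcases mul_eq_zero.mp ht with h | h
    · exact h
    · exact absurd h hv0)
  have hz : (w₁ - w₁) * v w₁ = 0 := by rw [sub_self, zero_mul]
  rw [hz] at hχ hψχ hχ0
  have t1 : Tendsto χ (𝓝 0) (𝓝 w₁) := by
    have := hχ.continuousAt.tendsto
    rwa [hχ0] at this
  have hgood : ∀ᶠ t in 𝓝 (0 : ℂ), (χ t - w₁) * v (χ t) = t ∧ χ t ∈ ball w₁ ε ∧ φ (χ t) = x₁ + t ^ n := by
    filter_upwards [hψχ, t1.eventually (ball_mem_nhds w₁ hε), t1.eventually hgf, t1.eventually hvn] with t h1 h2 h3 h4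
    refine ⟨h1, h2, ?_⟩
    rw [smul_eq_mul, ← h4, ← mul_pow, h1] at h3
    rw [← h3]
    ring
  obtain ⟨δ, hδ, hgood'⟩ := Metric.eventually_nhds_iff_ball.mp hgood
  have hx : ∀ᶠ x in 𝓝[≠] x₁, x ∈ ball x₁ (δ ^ n) := nhdsWithin_le_nhds (ball_mem_nhds x₁ (pow_pos hδ n))
  filter_upwards [hx, self_mem_nhdsWithin] with x hx1 hx2
  obtain ⟨t, ht⟩ := IsAlgClosed.exists_pow_nat_eq (x - x₁) (n := n) (by omega)
  have ht0 : t ≠ 0 := by
    rintro rfl
    rw [zero_pow hn0] at ht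
    exact hx2 (sub_eq_zero.mp ht.symm)
  have htδ : ‖t‖ < δ := by
    refine lt_of_pow_lt_pow_left₀ n hδ.le ?_
    rw [← norm_pow, ht, ← dist_eq_norm]
    exact hx1
  have hζ := Complex.isPrimitiveRoot_exp n hn0
  set ζ := Complex.exp (2 * Real.pi * Complex.I / n) with hζdef
  have hζn : ζ ^ n = 1 := hζ.pow_eq_one
  have hζ1 : ζ ≠ 1 := hζ.ne_one hn
  have hζnorm : ‖ζ‖ = 1 := Complex.norm_eq_one_of_pow_eq_one hζn hn0
  have g1 := hgood' t (by rwa [mem_ball_zero_iff])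
  have g2 := hgood' (ζ * t) (by rwa [mem_ball_zero_iff, norm_mul, hζnorm, one_mul])
  refine ⟨χ t, χ (ζ * t), fun h => ?_, g1.2.1, g2.2.1, ?_, ?_⟩
  · have h1 : t = ζ * t := by
      rw [← g1.1]
      conv_rhs => rw [g1.1, ← g2.1]
      rw [h]
    have h2 : (ζ - 1) * t = 0 := by
      rw [sub_mul, one_mul, ← h1, sub_self]
    rcases mul_eq_zero.mp h2 with h3 | h3
    · exact hζ1 (sub_eq_zero.mp h3)
    · exact ht0 h3
  · rw [g1.2.2, ht]
    ring
  · rw [g2.2.2, mul_pow, hζn, one_mul, ht]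
    ring

/-- the first case: the direction `a` is not tangent -/
private theorem local_trans {D : Set (Vd (1 + 1))} {q₁ a : Vd (1 + 1)} {ξ ω : Vd (1 + 1) →L[ℂ] ℂ} {e : Vd (1 + 1)} (hq : ∀ q : Vd (1 + 1), ξ q • e + ω q • a = q)
    (hco : ∃ κ : Vd (1 + 1) → Vd (1 + 1), IsCoord D κ q₁) (ht : TransAt D q₁ a) :
    ∃ g : ℂ → ℂ, AnalyticAt ℂ g (ξ q₁) ∧ g (ξ q₁) = ω q₁ ∧ ∀ᶠ q in 𝓝 q₁, (q ∈ D ↔ ω q = g (ξ q)) := by
  obtain ⟨κ, hκ⟩ := hco
  refine graph_of_coord hκ ξ ω (fun v h1 h2 => by rw [← hq v, h1, h2, zero_smul, zero_smul, add_zero]) fun h0 => ?_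
  set v := fderiv ℂ κ 0 (Pi.single 1 1) with hv
  have h1 : v = ω v • a := by
    have := hq v
    rw [h0, zero_smul, zero_add] at this
    exact this.symm
  have h2 : ω v ≠ 0 := by
    intro h2
    rw [h2, zero_smul] at h1
    have h3 : (Pi.single 1 1 : Vd (1 + 1)) = 0 := hκ.inj (by rw [← hv, h1, map_zero])
    have h4 := congrFun h3 1
    simp at h4
  refine ht.2 κ hκ ((ω v)⁻¹ • Pi.single 1 1) (by simp) ?_
  rw [map_smul, ← hv]
  calc (ω v)⁻¹ • v = (ω v)⁻¹ • (ω v • a) := congrArg (fun y => (ω v)⁻¹ • y) h1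
    _ = a := by rw [smul_smul, inv_mul_cancel₀ h2, one_smul]

/-- the second case: the direction `a` is tangent -/
private theorem local_tan {D : Set (Vd (1 + 1))} {q₁ a : Vd (1 + 1)} {ξ ω : Vd (1 + 1) →L[ℂ] ℂ} {e : Vd (1 + 1)} (ha : a ≠ 0) (hξa : ξ a = 0) (hωa : ω a = 1)
    (hq : ∀ q : Vd (1 + 1), ξ q • e + ω q • a = q) (ht : ¬ TransAt D q₁ a) :
    ∃ φ : ℂ → ℂ, AnalyticAt ℂ φ (ω q₁) ∧ φ (ω q₁) = ξ q₁ ∧ deriv φ (ω q₁) = 0 ∧ ∀ᶠ q in 𝓝 q₁, (q ∈ D ↔ ξ q = φ (ω q)) := by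
  have h1 : ∃ κ : Vd (1 + 1) → Vd (1 + 1), IsCoord D κ q₁ ∧ ∃ p : Vd (1 + 1), p 0 = 0 ∧ fderiv ℂ κ 0 p = a := by
    by_contra hcon
    push Not at hcon
    exact ht ⟨ha, fun κ hκ p hp => hcon κ hκ p hp⟩
  obtain ⟨κ, hκ, p, hp0, hpa⟩ := h1
  have h2 : p = p 1 • Pi.single 1 1 := by
    ext i
    fin_cases i
    · simpa using hp0
    · simp
  have h3 : p 1 * ω (fderiv ℂ κ 0 (Pi.single 1 1)) = 1 := by
    calc p 1 * ω (fderiv ℂ κ 0 (Pi.single 1 1)) = ω (fderiv ℂ κ 0 (p 1 • Pi.single 1 1)) := by rw [map_smul, map_smul, smul_eq_mul]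
      _ = 1 := by rw [← h2, hpa, hωa]
  obtain ⟨φ, hφ, hφ1, hφD⟩ := graph_of_coord hκ ω ξ (fun v h4 h5 => by rw [← hq v, h4, h5, zero_smul, zero_smul, add_zero]) (right_ne_zero_of_mul (by rw [h3]; exact one_ne_zero))
  refine ⟨φ, hφ, hφ1, ?_, hφD⟩
  by_contra hne
  refine ht (trans_of (F := fun q => ξ q - φ (ω q)) (F' := ξ - deriv φ (ω q₁) • ω) ha ?_ ?_ ?_)
  · exact ξ.hasFDerivAt.sub (HasDerivAt.comp_hasFDerivAt q₁ hφ.differentiableAt.hasDerivAt ω.hasFDerivAt)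
  · filter_upwards [hφD] with q h4 h5
    rw [h4.mp h5, sub_self]
  · simpa [hξa, hωa] using hne

open Classical in
/-- the product of the differences of the elements of a finite set -/
private noncomputable def dlt (s : Set ℂ) : ℂ := if h : s.Finite then ∏ p ∈ h.toFinset.offDiag, (p.1 - p.2) else 0

private theorem dlt_eq {s : Set ℂ} {F : Finset ℂ} (h : s = F) : dlt s = ∏ p ∈ F.offDiag, (p.1 - p.2) := by
  classical
  subst h
  unfold dlt
  rw [dif_pos F.finite_toSet, Finset.finite_toSet_toFinset]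

private theorem dlt_ne {s : Set ℂ} (h : s.Finite) : dlt s ≠ 0 := by
  classical
  unfold dlt
  rw [dif_pos h]
  refine Finset.prod_ne_zero_iff.mpr fun p hp => ?_
  rw [Finset.mem_offDiag] at hp
  exact sub_ne_zero.mpr hp.2.2

private theorem dlt_fac {s : Set ℂ} {w₀ : ℂ} {R : ℝ} (hR : 2 * R ≤ 1) (hs : ∀ w ∈ s, w ∈ closedBall w₀ R) {w w' : ℂ} (h1 : w ∈ s) (h2 : w' ∈ s) : ‖w - w'‖ ≤ 1 := by
  have h3 := hs w h1
  have h4 := hs w' h2
  rw [mem_closedBall] at h3 h4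
  rw [← dist_eq_norm]
  calc dist w w' ≤ dist w w₀ + dist w' w₀ := dist_triangle_right _ _ _
    _ ≤ 1 := by linarith

private theorem dlt_le_one {s : Set ℂ} {w₀ : ℂ} {R : ℝ} (hR : 2 * R ≤ 1) (hs : ∀ w ∈ s, w ∈ closedBall w₀ R) : ‖dlt s‖ ≤ 1 := by
  classical
  unfold dlt
  split_ifs with h
  · rw [norm_prod]
    refine Finset.prod_le_one (fun _ _ => norm_nonneg _) fun p hp => ?_
    rw [Finset.mem_offDiag, Set.Finite.mem_toFinset, Set.Finite.mem_toFinset] at hp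
    exact dlt_fac hR hs hp.1 hp.2.1
  · simp

private theorem dlt_le {s : Set ℂ} {w₀ : ℂ} {R : ℝ} (hR : 2 * R ≤ 1) (hs : ∀ w ∈ s, w ∈ closedBall w₀ R) {w w' : ℂ} (h1 : w ∈ s) (h2 : w' ∈ s) (hne : w ≠ w') :
    ‖dlt s‖ ≤ ‖w - w'‖ := by
  classical
  unfold dlt
  split_ifs with h
  · have hm : (w, w') ∈ h.toFinset.offDiag := by
      rw [Finset.mem_offDiag, Set.Finite.mem_toFinset, Set.Finite.mem_toFinset]
      exact ⟨h1, h2, hne⟩
    rw [norm_prod, ← Finset.mul_prod_erase _ _ hm]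
    refine mul_le_of_le_one_right (norm_nonneg _) (Finset.prod_le_one (fun _ _ => norm_nonneg _) fun p hp => ?_)
    rw [Finset.mem_erase, Finset.mem_offDiag, Set.Finite.mem_toFinset, Set.Finite.mem_toFinset] at hp
    exact dlt_fac hR hs hp.2.1 hp.2.2.1
  · simp

private theorem dlt_image {F : Finset ℂ} {f : ℂ → ℂ} (hf : Set.InjOn f F) : dlt (f '' F) = ∏ p ∈ F.offDiag, (f p.1 - f p.2) := by
  classical
  rw [dlt_eq (F := F.image f) (by simp)]
  symm
  refine Finset.prod_bij (fun p _ => (f p.1, f p.2)) ?_ ?_ ?_ fun _ _ => rfl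
  · intro p hp
    rw [Finset.mem_offDiag] at hp ⊢
    exact ⟨Finset.mem_image_of_mem f hp.1, Finset.mem_image_of_mem f hp.2.1, fun h => hp.2.2 (hf hp.1 hp.2.1 h)⟩
  · intro p hp p' hp' h
    rw [Finset.mem_offDiag] at hp hp'
    rw [Prod.mk.injEq] at h
    exact Prod.ext (hf hp.1 hp'.1 h.1) (hf hp.2.1 hp'.2.1 h.2)
  · intro p hp
    rw [Finset.mem_offDiag, Finset.mem_image, Finset.mem_image] at hp
    obtain ⟨⟨x, hx, hx1⟩, ⟨y, hy, hy1⟩, hne⟩ := hp
    exact ⟨(x, y), Finset.mem_offDiag.mpr ⟨hx, hy, fun h => hne (by rw [← hx1, ← hy1, show x = y from h])⟩, Prod.ext hx1 hy1⟩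

/-- the local data of the set `S` at the points over the punctured disc -/
private structure Loc (S : Set (ℂ × ℂ)) (Tr : ℂ × ℂ → Prop) (x₀ w₀ : ℂ) (r R : ℝ) : Prop where
  R_pos : 0 < R
  R_le : 2 * R ≤ 1
  r_pos : 0 < r
  circ : ∀ x ∈ ball x₀ r, ∀ w ∈ sphere w₀ R, (x, w) ∉ S
  out : ∀ x ∈ ball x₀ r, x ≠ x₀ → ∀ w ∈ closedBall w₀ R, (x, w) ∉ S → ∀ᶠ z in 𝓝 (x, w), z ∉ S
  tr : ∀ x ∈ ball x₀ r, x ≠ x₀ → ∀ w ∈ closedBall w₀ R, (x, w) ∈ S → Tr (x, w) →
    ∃ g : ℂ → ℂ, AnalyticAt ℂ g x ∧ g x = w ∧ (∀ᶠ z in 𝓝 (x, w), (z ∈ S ↔ z.2 = g z.1)) ∧ ∀ᶠ z in 𝓝 (x, w), z ∈ S → Tr z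
  tan : ∀ x ∈ ball x₀ r, x ≠ x₀ → ∀ w ∈ closedBall w₀ R, (x, w) ∈ S → ¬ Tr (x, w) →
    ∃ φ : ℂ → ℂ, AnalyticAt ℂ φ w ∧ φ w = x ∧ deriv φ w = 0 ∧ (¬ ∀ᶠ w' in 𝓝 w, φ w' = x) ∧ (∀ᶠ z in 𝓝 (x, w), (z ∈ S ↔ z.1 = φ z.2)) ∧
      ∀ᶠ z in 𝓝 (x, w), z.1 ≠ x → z ∈ S → Tr z

variable {S : Set (ℂ × ℂ)} {Tr : ℂ × ℂ → Prop} {x₀ w₀ : ℂ} {r R : ℝ}

/-- the `x` over which all points are transversal -/
private def Om (S : Set (ℂ × ℂ)) (Tr : ℂ × ℂ → Prop) (x₀ w₀ : ℂ) (r R : ℝ) : Set ℂ :=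
  {x | x ∈ ball x₀ r ∧ x ≠ x₀ ∧ ∀ w ∈ closedBall w₀ R, (x, w) ∈ S → Tr (x, w)}

/-- the fibre of `S` -/
private def fbr (S : Set (ℂ × ℂ)) (w₀ : ℂ) (R : ℝ) (x : ℂ) : Set ℂ := {w | w ∈ closedBall w₀ R ∧ (x, w) ∈ S}

private theorem om_iso (L : Loc S Tr x₀ w₀ r R) {x₁ : ℂ} (hx : x₁ ∈ ball x₀ r) (hx0 : x₁ ≠ x₀) : ∀ᶠ x in 𝓝[≠] x₁, x ∈ Om S Tr x₀ w₀ r R := by
  have h1 : ∀ᶠ x in 𝓝 x₁, ∀ w ∈ closedBall w₀ R, x ≠ x₁ → (x, w) ∈ S → Tr (x, w) := by
    refine (isCompact_closedBall w₀ R).eventually_forall_of_forall_eventually (P := fun x w => x ≠ x₁ → (x, w) ∈ S → Tr (x, w)) fun w hw => ?_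
    by_cases hS : (x₁, w) ∈ S
    · by_cases hT : Tr (x₁, w)
      · obtain ⟨g, -, -, -, h⟩ := L.tr x₁ hx hx0 w hw hS hT
        filter_upwards [h] with z hz _
        exact hz
      · obtain ⟨φ, -, -, -, -, -, h⟩ := L.tan x₁ hx hx0 w hw hS hT
        filter_upwards [h] with z hz
        exact hz
    · filter_upwards [L.out x₁ hx hx0 w hw hS] with z hz _ hz'
      exact absurd hz' hz
  have h2 : ∀ᶠ x in 𝓝[≠] x₁, x ∈ ball x₀ r ∧ x ≠ x₀ :=
    nhdsWithin_le_nhds ((show ∀ᶠ x in 𝓝 x₁, x ∈ ball x₀ r from isOpen_ball.mem_nhds hx).and (show ∀ᶠ x in 𝓝 x₁, x ≠ x₀ from isOpen_ne.mem_nhds hx0))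
  filter_upwards [nhdsWithin_le_nhds h1, h2, self_mem_nhdsWithin] with x h3 h4 h5
  exact ⟨h4.1, h4.2, fun w hw => h3 w hw h5⟩

private theorem om_open (L : Loc S Tr x₀ w₀ r R) {x₁ : ℂ} (hx : x₁ ∈ Om S Tr x₀ w₀ r R) : ∀ᶠ x in 𝓝 x₁, x ∈ Om S Tr x₀ w₀ r R := by
  have h1 : ∀ᶠ x in 𝓝[≠] x₁, x ∈ Om S Tr x₀ w₀ r R := om_iso L hx.1 hx.2.1
  rw [eventually_nhdsWithin_iff] at h1
  filter_upwards [h1] with x h2
  by_cases h3 : x = x₁
  · rwa [h3]
  · exact h2 h3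

private theorem fbr_finite (L : Loc S Tr x₀ w₀ r R) {x₁ : ℂ} (hx : x₁ ∈ Om S Tr x₀ w₀ r R) : (fbr S w₀ R x₁).Finite := by
  by_contra hinf
  obtain ⟨w, hw, hacc⟩ := Set.Infinite.exists_accPt_of_subset_isCompact hinf (isCompact_closedBall w₀ R) (fun w hw => hw.1)
  rw [accPt_iff_frequently_nhdsNE] at hacc
  have ht : Tendsto (fun w' : ℂ => (x₁, w')) (𝓝 w) (𝓝 (x₁, w)) := by
    have : Continuous fun w' : ℂ => (x₁, w') := by fun_prop
    exact this.continuousAt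
  refine hacc ?_
  by_cases hS : (x₁, w) ∈ S
  · obtain ⟨g, -, hg, h, -⟩ := L.tr x₁ hx.1 hx.2.1 w hw hS (hx.2.2 w hw hS)
    filter_upwards [nhdsWithin_le_nhds (ht.eventually h), self_mem_nhdsWithin] with w' h1 h2 h3
    exact h2 ((h1.mp h3.2).trans hg)
  · filter_upwards [nhdsWithin_le_nhds (ht.eventually (L.out x₁ hx.1 hx.2.1 w hw hS))] with w' h1 h3
    exact h1 h3.2

open Classical in
/-- the discriminant, extended by `0` -/
private noncomputable def del (S : Set (ℂ × ℂ)) (Tr : ℂ × ℂ → Prop) (x₀ w₀ : ℂ) (r R : ℝ) (x : ℂ) : ℂ := if x ∈ Om S Tr x₀ w₀ r R then dlt (fbr S w₀ R x) else 0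

private theorem del_an (L : Loc S Tr x₀ w₀ r R) {x₁ : ℂ} (hx : x₁ ∈ Om S Tr x₀ w₀ r R) : AnalyticAt ℂ (del S Tr x₀ w₀ r R) x₁ := by
  classical
  set F := (fbr_finite L hx).toFinset with hF
  have hFm : ∀ w, w ∈ F ↔ w ∈ closedBall w₀ R ∧ (x₁, w) ∈ S := fun w => by
    rw [hF, Set.Finite.mem_toFinset]
    rfl
  have hex : ∀ w, w ∈ F → ∃ g : ℂ → ℂ, AnalyticAt ℂ g x₁ ∧ g x₁ = w ∧ (∀ᶠ z in 𝓝 (x₁, w), (z ∈ S ↔ z.2 = g z.1)) ∧ ∀ᶠ z in 𝓝 (x₁, w), z ∈ S → Tr z := fun w hw =>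
    L.tr x₁ hx.1 hx.2.1 w ((hFm w).mp hw).1 ((hFm w).mp hw).2 (hx.2.2 w ((hFm w).mp hw).1 ((hFm w).mp hw).2)
  choose! G hG using hex
  have e1 : ∀ᶠ x in 𝓝 x₁, ∀ w ∈ closedBall w₀ R, (x, w) ∈ S → ∃ w' ∈ F, w = G w' x := by
    refine (isCompact_closedBall w₀ R).eventually_forall_of_forall_eventually (P := fun x w => (x, w) ∈ S → ∃ w' ∈ F, w = G w' x) fun w hw => ?_
    by_cases hS : (x₁, w) ∈ S
    · have hwF := (hFm w).mpr ⟨hw, hS⟩
      filter_upwards [(hG w hwF).2.2.1] with z h1 h2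
      exact ⟨w, hwF, h1.mp h2⟩
    · filter_upwards [L.out x₁ hx.1 hx.2.1 w hw hS] with z hz hz'
      exact absurd hz' hz
  have e2 : ∀ᶠ x in 𝓝 x₁, ∀ w ∈ F, G w x ∈ closedBall w₀ R ∧ (x, G w x) ∈ S := by
    rw [Filter.eventually_all_finset]
    intro w hw
    have h1 := hG w hw
    have h2 : w ∈ ball w₀ R := by
      have h3 := ((hFm w).mp hw).1
      rw [mem_closedBall] at h3
      rw [mem_ball]
      refine lt_of_le_of_ne h3 fun h4 => L.circ x₁ hx.1 w (mem_sphere.mpr h4) ((hFm w).mp hw).2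
    have t1 : Tendsto (G w) (𝓝 x₁) (𝓝 w) := by
      have := h1.1.continuousAt.tendsto
      rwa [h1.2.1] at this
    have t2 : Tendsto (fun x => (x, G w x)) (𝓝 x₁) (𝓝 (x₁, w)) := by
      rw [nhds_prod_eq]
      exact tendsto_id.prodMk t1
    filter_upwards [t1.eventually (isOpen_ball.mem_nhds h2), t2.eventually h1.2.2.1] with x h3 h4
    exact ⟨ball_subset_closedBall h3, h4.mpr rfl⟩
  have e3 : ∀ᶠ x in 𝓝 x₁, ∀ w ∈ F, ∀ w' ∈ F, w ≠ w' → G w x ≠ G w' x := by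
    rw [Filter.eventually_all_finset]
    intro w hw
    rw [Filter.eventually_all_finset]
    intro w' hw'
    by_cases hne : w = w'
    · exact Filter.Eventually.of_forall fun x h => absurd hne h
    · have h1 : ContinuousAt (fun x => G w x - G w' x) x₁ := (hG w hw).1.continuousAt.sub (hG w' hw').1.continuousAt
      have h2 : G w x₁ - G w' x₁ ≠ 0 := by
        rw [(hG w hw).2.1, (hG w' hw').2.1]
        exact sub_ne_zero.mpr hne
      filter_upwards [h1.eventually_ne h2] with x h3 _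
      exact sub_ne_zero.mp h3
  have key : del S Tr x₀ w₀ r R =ᶠ[𝓝 x₁] fun x => ∏ p ∈ F.offDiag, (G p.1 x - G p.2 x) := by
    filter_upwards [e1, e2, e3, om_open L hx] with x h1 h2 h3 h4
    unfold del
    rw [if_pos h4]
    have h5 : fbr S w₀ R x = (fun w => G w x) '' F := by
      ext w
      constructor
      · rintro ⟨h6, h7⟩
        obtain ⟨w', h8, h9⟩ := h1 w h6 h7
        exact ⟨w', h8, h9.symm⟩
      · rintro ⟨w', h8, rfl⟩
        exact h2 w' h8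
    rw [h5]
    exact dlt_image (f := fun w => G w x) fun w hw w' hw' h => by
      by_contra hne
      exact h3 w hw w' hw' hne h
  refine AnalyticAt.congr ?_ key.symm
  refine Finset.analyticAt_fun_prod _ fun p hp => ?_
  rw [Finset.mem_offDiag] at hp
  exact (hG p.1 hp.1).1.sub (hG p.2 hp.2.1).1

private theorem fbr_sub {x : ℂ} : ∀ w ∈ fbr S w₀ R x, w ∈ closedBall w₀ R := fun _ hw => hw.1

private theorem del_le (L : Loc S Tr x₀ w₀ r R) (x : ℂ) : ‖del S Tr x₀ w₀ r R x‖ ≤ 1 := by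
  unfold del
  split_ifs
  · exact dlt_le_one L.R_le fbr_sub
  · simp

private theorem del_an' (L : Loc S Tr x₀ w₀ r R) {x₁ : ℂ} (hx : x₁ ∈ ball x₀ r) (hx0 : x₁ ≠ x₀) : AnalyticAt ℂ (del S Tr x₀ w₀ r R) x₁ := by
  classical
  by_cases hO : x₁ ∈ Om S Tr x₀ w₀ r R
  · exact del_an L hO
  · have h0 : del S Tr x₀ w₀ r R x₁ = 0 := by
      unfold del
      rw [if_neg hO]
    have h1 : ∃ w ∈ closedBall w₀ R, (x₁, w) ∈ S ∧ ¬ Tr (x₁, w) := by
      by_contra hcon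
      push Not at hcon
      exact hO ⟨hx, hx0, hcon⟩
    obtain ⟨w₁, hw₁, hS, hT⟩ := h1
    obtain ⟨φ, hφ, hφ1, hφd, hφc, hφS, -⟩ := L.tan x₁ hx hx0 w₁ hw₁ hS hT
    refine Complex.analyticAt_of_differentiable_on_punctured_nhds_of_continuousAt ?_ ?_
    · filter_upwards [om_iso L hx hx0] with x h2
      exact (del_an L h2).differentiableAt
    · rw [Metric.continuousAt_iff]
      intro ε hε
      have hwb : w₁ ∈ ball w₀ R := by
        rw [mem_closedBall] at hw₁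
        rw [mem_ball]
        exact lt_of_le_of_ne hw₁ fun h4 => L.circ x₁ hx w₁ (mem_sphere.mpr h4) hS
      obtain ⟨ρ, hρ, hρS⟩ := Metric.eventually_nhds_iff_ball.mp hφS
      obtain ⟨ρ', hρ', hρb⟩ := Metric.isOpen_iff.mp isOpen_ball w₁ hwb
      have hm : 0 < min (min ρ ρ') (ε / 2) := lt_min (lt_min hρ hρ') (by positivity)
      have h2 : ∀ᶠ x in 𝓝[≠] x₁, dist (del S Tr x₀ w₀ r R x) 0 < ε := by
        filter_upwards [two_preimages hφ hφ1 hφd hφc hm, nhdsWithin_le_nhds (ball_mem_nhds x₁ hρ)] with x ⟨w, w', hne, hw, hw', hφw, hφw'⟩ hxρ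
        rw [dist_zero_right]
        unfold del
        split_ifs with h3
        · have h4 : ∀ v : ℂ, v ∈ ball w₁ (min (min ρ ρ') (ε / 2)) → φ v = x → v ∈ fbr S w₀ R x := by
            intro v hv hv1
            refine ⟨ball_subset_closedBall (hρb (ball_subset_ball ((min_le_left _ _).trans (min_le_right _ _)) hv)), ?_⟩
            refine (hρS (x, v) ?_).mpr hv1.symm
            rw [← ball_prod_same]
            exact ⟨hxρ, ball_subset_ball ((min_le_left _ _).trans (min_le_left _ _)) hv⟩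
          refine (dlt_le L.R_le fbr_sub (h4 w hw hφw) (h4 w' hw' hφw') hne).trans_lt ?_
          have h5 : dist w w₁ < ε / 2 := (mem_ball.mp hw).trans_le (min_le_right _ _)
          have h6 : dist w' w₁ < ε / 2 := (mem_ball.mp hw').trans_le (min_le_right _ _)
          rw [← dist_eq_norm]
          calc dist w w' ≤ dist w w₁ + dist w' w₁ := dist_triangle_right _ _ _
            _ < ε := by linarith
        · simpa using hε
      rw [eventually_nhdsWithin_iff, Metric.eventually_nhds_iff] at h2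
      obtain ⟨δ, hδ, h3⟩ := h2
      refine ⟨δ, hδ, fun {x} hx1 => ?_⟩
      rw [h0]
      by_cases hxx : x = x₁
      · rw [hxx, h0, dist_self]
        exact hε
      · exact h3 hx1 hxx

private theorem iso_of_loc (L : Loc S Tr x₀ w₀ r R) : ∀ᶠ x in 𝓝[≠] x₀, x ∈ Om S Tr x₀ w₀ r R := by
  classical
  have hF : AnalyticAt ℂ (fun x => (x - x₀) * del S Tr x₀ w₀ r R x) x₀ := by
    refine Complex.analyticAt_of_differentiable_on_punctured_nhds_of_continuousAt ?_ ?_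
    · filter_upwards [nhdsWithin_le_nhds (ball_mem_nhds x₀ L.r_pos), self_mem_nhdsWithin] with x h1 h2
      exact (differentiableAt_id.sub_const x₀).mul (del_an' L h1 h2).differentiableAt
    · rw [Metric.continuousAt_iff]
      intro ε hε
      refine ⟨ε, hε, fun {x} hx => ?_⟩
      rw [sub_self, zero_mul, dist_zero_right, norm_mul]
      calc ‖x - x₀‖ * ‖del S Tr x₀ w₀ r R x‖ ≤ ‖x - x₀‖ * 1 := mul_le_mul_of_nonneg_left (del_le L x) (norm_nonneg _)
        _ < ε := by rwa [mul_one, ← dist_eq_norm]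
  rcases hF.eventually_eq_zero_or_eventually_ne_zero with h | h
  · exfalso
    obtain ⟨δ, hδ, h1⟩ := Metric.eventually_nhds_iff_ball.mp (h.and (ball_mem_nhds x₀ L.r_pos))
    have h2 : x₀ + ((δ / 2 : ℝ) : ℂ) ∈ ball x₀ δ := by
      rw [mem_ball, dist_eq_norm, add_sub_cancel_left, Complex.norm_real, Real.norm_eq_abs, abs_of_pos (by positivity)]
      linarith
    have h3 : x₀ + ((δ / 2 : ℝ) : ℂ) ≠ x₀ := by
      intro h4
      have h5 : ((δ / 2 : ℝ) : ℂ) = 0 := by simpa using h4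
      have h6 : (δ / 2 : ℝ) = 0 := by exact_mod_cast h5
      linarith
    set x₁ := x₀ + ((δ / 2 : ℝ) : ℂ)
    have h4 : ∀ᶠ x in 𝓝[≠] x₁, x ∈ Om S Tr x₀ w₀ r R ∧ x ∈ ball x₀ δ :=
      (om_iso L (h1 x₁ h2).2 h3).and (nhdsWithin_le_nhds (isOpen_ball.mem_nhds h2))
    obtain ⟨x, hx1, hx2⟩ := h4.exists
    have h5 := (h1 x hx2).1
    have h6 : del S Tr x₀ w₀ r R x ≠ 0 := by
      unfold del
      rw [if_pos hx1]
      exact dlt_ne (fbr_finite L hx1)
    exact (mul_ne_zero (sub_ne_zero.mpr hx1.2.1) h6) h5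
  · filter_upwards [h] with x hx
    by_contra hO
    refine hx ?_
    unfold del
    rw [if_neg hO, mul_zero]

/-- a function whose derivative is zero near a point is constant near this point -/
private theorem const_of_deriv {φ : ℂ → ℂ} {w : ℂ} (hφ : AnalyticAt ℂ φ w) (h : ∀ᶠ w' in 𝓝 w, deriv φ w' = 0) : ∀ᶠ w' in 𝓝 w, φ w' = φ w := by
  obtain ⟨δ, hδ, h1⟩ := Metric.eventually_nhds_iff_ball.mp (h.and hφ.eventually_analyticAt)
  filter_upwards [ball_mem_nhds w hδ] with w' hw'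
  exact isOpen_ball.is_const_of_deriv_eq_zero (convex_ball w δ).isPreconnected (fun y hy => (h1 y hy).2.differentiableAt.differentiableWithinAt) (fun y hy => (h1 y hy).1)
    hw' (mem_ball_self hδ)

theorem tan_local {D : Set (Vd (1 + 1))} {q₀ a : Vd (1 + 1)} (ha : a ≠ 0) (hD : ∃ (m : ℕ) (h : Vd (1 + 1) → Fin m → ℂ), AnalyticAt ℂ h q₀ ∧ ∀ᶠ z in 𝓝 q₀, (z ∈ D ↔ h z = 0))
    (hco : ∀ᶠ q in 𝓝[≠] q₀, q ∈ D → ∃ κ : Vd (1 + 1) → Vd (1 + 1), IsCoord D κ q) (hline : ∀ᶠ z in 𝓝[≠] (0 : ℂ), q₀ + z • a ∉ D) :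
    ∀ᶠ q in 𝓝[≠] q₀, q ∈ D → TransAt D q a := by
  obtain ⟨ξ, ω, e, hξa, hωa, hξe, hωe, hq⟩ := exists_coords ha
  obtain ⟨m, h, hh, hDh⟩ := hD
  rw [eventually_nhdsWithin_iff] at hco
  obtain ⟨ρ, hρ, hb⟩ := Metric.eventually_nhds_iff_ball.mp (hh.eventually_analyticAt.and (hDh.and hco))
  rw [eventually_nhdsWithin_iff] at hline
  obtain ⟨ρ₁, hρ₁, hb₁⟩ := Metric.eventually_nhds_iff_ball.mp hline
  set P : ℂ × ℂ → Vd (1 + 1) := fun z => z.1 • e + z.2 • a with hPdef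
  have hPc : Continuous P := by
    rw [hPdef]
    fun_prop
  have hPξ : ∀ z, ξ (P z) = z.1 := fun z => by
    show ξ (z.1 • e + z.2 • a) = z.1
    rw [map_add, map_smul, map_smul, hξe, hξa, smul_eq_mul, smul_eq_mul, mul_one, mul_zero, add_zero]
  have hPω : ∀ z, ω (P z) = z.2 := fun z => by
    show ω (z.1 • e + z.2 • a) = z.2
    rw [map_add, map_smul, map_smul, hωe, hωa, smul_eq_mul, smul_eq_mul, mul_one, mul_zero, zero_add]
  have hPq : ∀ q, P (ξ q, ω q) = q := hq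
  set x₀ := ξ q₀ with hx₀
  set w₀ := ω q₀ with hw₀
  obtain ⟨ρ₂, hρ₂, hb₂⟩ : ∃ ρ₂ > 0, ∀ z : ℂ × ℂ, dist z.1 x₀ < ρ₂ → dist z.2 w₀ < ρ₂ → P z ∈ ball q₀ ρ := by
    have h1 : ∀ᶠ z in 𝓝 (x₀, w₀), P z ∈ ball q₀ ρ := by
      refine hPc.continuousAt.eventually (isOpen_ball.mem_nhds ?_)
      rw [hPq]
      exact mem_ball_self hρ
    obtain ⟨ρ₂, hρ₂, h2⟩ := Metric.eventually_nhds_iff_ball.mp h1
    refine ⟨ρ₂, hρ₂, fun z h3 h4 => h2 z ?_⟩
    rw [← ball_prod_same]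
    exact ⟨h3, h4⟩
  obtain ⟨R, hR0, hR1, hR2, hR3⟩ : ∃ R : ℝ, 0 < R ∧ 2 * R ≤ 1 ∧ R < ρ₁ ∧ 2 * R < ρ₂ := by
    refine ⟨min (1 / 2) (min (ρ₁ / 2) (ρ₂ / 4)), by positivity, ?_, ?_, ?_⟩
    · have := min_le_left (1 / 2 : ℝ) (min (ρ₁ / 2) (ρ₂ / 4))
      linarith
    · have := (min_le_right (1 / 2 : ℝ) (min (ρ₁ / 2) (ρ₂ / 4))).trans (min_le_left _ _)
      linarith
    · have := (min_le_right (1 / 2 : ℝ) (min (ρ₁ / 2) (ρ₂ / 4))).trans (min_le_right _ _)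
      linarith
  -- `D` is closed near `q₀`
  have hcl : ∀ z : ℂ × ℂ, P z ∈ ball q₀ ρ → P z ∉ D → ∀ᶠ z' in 𝓝 z, P z' ∉ D := by
    intro z h1 h2
    have h3 : h (P z) ≠ 0 := fun h3 => h2 ((hb _ h1).2.1.mpr h3)
    have h4 : ContinuousAt (fun z' => h (P z')) z := ContinuousAt.comp' (hb _ h1).1.continuousAt hPc.continuousAt
    filter_upwards [h4.eventually_ne h3, hPc.continuousAt.eventually (isOpen_ball.mem_nhds h1)] with z' h5 h6 h7
    exact h5 ((hb _ h6).2.1.mp h7)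
  have hcirc : ∀ᶠ x in 𝓝 x₀, ∀ w ∈ sphere w₀ R, P (x, w) ∉ D := by
    refine (isCompact_sphere w₀ R).eventually_forall_of_forall_eventually (P := fun x w => P (x, w) ∉ D) fun w hw => ?_
    refine hcl (x₀, w) (hb₂ _ (by rw [dist_self]; exact hρ₂) (by rw [mem_sphere.mp hw]; linarith)) ?_
    have h1 : P (x₀, w) = q₀ + (w - w₀) • a := by
      have h2 := hPq q₀
      show x₀ • e + w • a = q₀ + (w - w₀) • a
      rw [← h2]
      show x₀ • e + w • a = (x₀ • e + w₀ • a) + (w - w₀) • a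
      rw [sub_smul]
      abel
    rw [h1]
    refine hb₁ (w - w₀) ?_ ?_
    · rw [mem_ball_zero_iff, ← dist_eq_norm, mem_sphere.mp hw]
      exact hR2
    · intro h2
      have h3 : w = w₀ := sub_eq_zero.mp h2
      rw [mem_sphere, h3, dist_self] at hw
      linarith
  obtain ⟨r', hr', hcirc'⟩ := Metric.eventually_nhds_iff_ball.mp hcirc
  have L : Loc {z | P z ∈ D} (fun z => TransAt D (P z) a) x₀ w₀ (min r' ρ₂) R := by
    have hin : ∀ x ∈ ball x₀ (min r' ρ₂), ∀ w ∈ closedBall w₀ R, P (x, w) ∈ ball q₀ ρ := fun x hx w hw =>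
      hb₂ _ ((mem_ball.mp hx).trans_le (min_le_right _ _)) ((mem_closedBall.mp hw).trans_lt (by linarith))
    have hne : ∀ x, x ≠ x₀ → ∀ w, P (x, w) ≠ q₀ := fun x hx w h1 => hx (by
      have h2 := hPξ (x, w)
      rw [h1] at h2
      exact h2.symm)
    refine ⟨hR0, hR1, lt_min hr' hρ₂, fun x hx w hw => hcirc' x (ball_subset_ball (min_le_left _ _) hx) w hw, ?_, ?_, ?_⟩
    · intro x hx hx0 w hw hS
      exact hcl (x, w) (hin x hx w hw) hS
    · intro x hx hx0 w hw hS hT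
      obtain ⟨g, hg, hg1, hgD⟩ := local_trans (ξ := ξ) (ω := ω) hq ((hb _ (hin x hx w hw)).2.2 (hne x hx0 w) hS) hT
      rw [hPξ] at hg hg1
      rw [hPω] at hg1
      refine ⟨g, hg, hg1, ?_, ?_⟩
      · filter_upwards [hPc.continuousAt.eventually hgD] with z hz
        rw [hPξ, hPω] at hz
        exact hz
      · have t1 : Tendsto Prod.fst (𝓝 (x, w)) (𝓝 x) := continuous_fst.continuousAt
        filter_upwards [hPc.continuousAt.eventually hgD.eventually_nhds, t1.eventually hg.eventually_analyticAt] with z h1 h2 _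
        refine trans_of (F := fun q => ω q - g (ξ q)) (F' := ω - deriv g z.1 • ξ) ha ?_ ?_ ?_
        · refine ω.hasFDerivAt.sub (HasDerivAt.comp_hasFDerivAt (P z) ?_ ξ.hasFDerivAt)
          rw [hPξ]
          exact h2.differentiableAt.hasDerivAt
        · filter_upwards [h1] with q h3 h4
          rw [h3.mp h4, sub_self]
        · simp [hξa, hωa]
    · intro x hx hx0 w hw hS hT
      obtain ⟨φ, hφ, hφ1, hφd, hφD⟩ := local_tan (ξ := ξ) (ω := ω) ha hξa hωa hq hT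
      rw [hPω] at hφ hφ1 hφd
      rw [hPξ] at hφ1
      have hiff : ∀ᶠ z in 𝓝 (x, w), (z ∈ {z | P z ∈ D} ↔ z.1 = φ z.2) := by
        filter_upwards [hPc.continuousAt.eventually hφD] with z hz
        rw [hPξ, hPω] at hz
        exact hz
      have hnc : ¬ ∀ᶠ w' in 𝓝 w, φ w' = x := by
        intro hcon
        have t1 : Tendsto (fun w' : ℂ => (x, w')) (𝓝 w) (𝓝 (x, w)) := by
          have : Continuous fun w' : ℂ => (x, w') := by fun_prop
          exact this.continuousAt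
        have hH : AnalyticOnNhd ℂ (fun w' => h (P (x, w'))) (ball w₀ (2 * R)) := by
          intro w' hw'
          have h1 : P (x, w') ∈ ball q₀ ρ := hb₂ _ ((mem_ball.mp hx).trans_le (min_le_right _ _)) ((mem_ball.mp hw').trans hR3)
          have h2 : AnalyticAt ℂ (fun w' : ℂ => P (x, w')) w' := by
            show AnalyticAt ℂ (fun w' : ℂ => x • e + w' • a) w'
            exact analyticAt_const.add (analyticAt_id.smul analyticAt_const)
          exact AnalyticAt.fun_comp (hb _ h1).1 h2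
        have h3 : (fun w' => h (P (x, w'))) =ᶠ[𝓝 w] 0 := by
          have t2 : Tendsto (fun w' : ℂ => P (x, w')) (𝓝 w) (𝓝 (P (x, w))) := hPc.continuousAt.tendsto.comp t1
          filter_upwards [t1.eventually hiff, hcon, t2.eventually (isOpen_ball.mem_nhds (hin x hx w hw))] with w' h4 h5 h6
          exact (hb _ h6).2.1.mp (h4.mpr h5.symm)
        have h4 := hH.eqOn_zero_of_preconnected_of_eventuallyEq_zero (convex_ball w₀ (2 * R)).isPreconnected
          (mem_ball.mpr ((mem_closedBall.mp hw).trans_lt (by linarith))) h3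
        have h5 : w₀ + (R : ℂ) ∈ sphere w₀ R := by
          rw [mem_sphere, dist_eq_norm, add_sub_cancel_left, Complex.norm_real, Real.norm_eq_abs, abs_of_pos hR0]
        refine hcirc' x (ball_subset_ball (min_le_left _ _) hx) _ h5 ((hb _ (hin x hx _ (sphere_subset_closedBall h5))).2.1.mpr ?_)
        refine h4 (mem_ball.mpr ?_)
        rw [mem_sphere.mp h5]
        linarith
      refine ⟨φ, hφ, hφ1, hφd, hnc, hiff, ?_⟩
      have hd : ∀ᶠ w' in 𝓝[≠] w, deriv φ w' ≠ 0 := by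
        rcases hφ.deriv.eventually_eq_zero_or_eventually_ne_zero with h1 | h1
        · refine absurd ?_ hnc
          filter_upwards [const_of_deriv hφ h1] with w' h2
          rw [h2, hφ1]
        · exact h1
      rw [eventually_nhdsWithin_iff] at hd
      have t1 : Tendsto Prod.snd (𝓝 (x, w)) (𝓝 w) := continuous_snd.continuousAt
      filter_upwards [hPc.continuousAt.eventually hφD.eventually_nhds, t1.eventually hφ.eventually_analyticAt, t1.eventually hd, hiff] with z h1 h2 h3 h4 h5 h6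
      have h7 : deriv φ z.2 ≠ 0 := h3 fun h8 => h5 (by
        have h9 : z.2 = w := h8
        rw [h4.mp h6, h9, hφ1])
      refine trans_of (F := fun q => ξ q - φ (ω q)) (F' := ξ - deriv φ z.2 • ω) ha ?_ ?_ ?_
      · refine ξ.hasFDerivAt.sub (HasDerivAt.comp_hasFDerivAt (P z) ?_ ω.hasFDerivAt)
        rw [hPω]
        exact h2.differentiableAt.hasDerivAt
      · filter_upwards [h1] with q h8 h9
        rw [h8.mp h9, sub_self]
      · simpa [hξa, hωa] using h7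
  have hfin := iso_of_loc L
  rw [eventually_nhdsWithin_iff] at hfin ⊢
  have t1 : Tendsto (fun q : Vd (1 + 1) => ξ q) (𝓝 q₀) (𝓝 x₀) := ξ.continuous.continuousAt
  have t2 : Tendsto (fun q : Vd (1 + 1) => ω q) (𝓝 q₀) (𝓝 w₀) := ω.continuous.continuousAt
  filter_upwards [t1.eventually hfin, t2.eventually (ball_mem_nhds w₀ hR0)] with q h1 h2 h3 h4
  by_cases h5 : ξ q = x₀
  · exfalso
    have h6 : q = q₀ + (ω q - w₀) • a := by
      calc q = ξ q • e + ω q • a := (hq q).symm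
        _ = (x₀ • e + w₀ • a) + (ω q - w₀) • a := by
          rw [h5, sub_smul]
          abel
        _ = q₀ + (ω q - w₀) • a := by rw [hq q₀]
    refine hb₁ (ω q - w₀) ?_ ?_ (by rwa [← h6])
    · rw [mem_ball_zero_iff, ← dist_eq_norm]
      exact (mem_ball.mp h2).trans hR2
    · intro h7
      refine h3 ?_
      rw [h6, show ω q - w₀ = 0 from h7, zero_smul, add_zero]
      rfl
  · have h6 := (h1 h5).2.2 (ω q) (ball_subset_closedBall h2)
    have h7 : P (ξ q, ω q) = q := hPq q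
    have h8 : P (ξ q, ω q) ∈ D → TransAt D (P (ξ q, ω q)) a := h6
    rw [h7] at h8
    exact h8 h4

end Pool.Agent.G3.A

end

section

/-!
# G3 X LnC: coordinates in which the line is `{q_1 = .. = q_k = 0}`

`κ₀` from `G.nc p`.  `ψ₀` a local inverse of `κ₀` at `p`, `c z = ψ₀ (p + z • e)`, `ξ₀ z = c z 0`: `deriv ξ₀ 0 ≠ 0` by `TransAt` (see `hcne` in `TG/Y/LnE.lean`), `θ₀` a local inverse of `ξ₀` at `0`, `h w j = c (θ₀ w) j.succ` (analytic at `0`, `h 0 = 0`; outside of the region where it is analytic its values do not matter).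
`shear h q = cons (q 0) (fun j => q j.succ + h (q 0) j)`, `κ = κ₀ ∘ shear h`: near `0` `κ (cons (ξ₀ z) 0) = κ₀ (cons (ξ₀ z) (h (ξ₀ z))) = κ₀ (c z) = p + z • e`.
`isCoord_shear`: `shear h` is analytic at `0`, `shear h 0 = 0`, its derivative at `0` is injective (`v 0` and then the rest), `(shear h q) 0 = q 0`.
`isNC_shear`: let `σ, τ, a, b` be from `IsNC X Λ u κ₀ x`; `sh q = cons (q 0) (cons (q 1) (fun j => q j.succ.succ + h (q 0 ^ a * q 1 ^ b) j))`, inverse `sh'` with `- h`: `σ' = σ ∘ sh`, `τ' = sh' ∘ τ`: `u (σ' q) - κ₀ (nm a b (sh q)) ∈ Λ` and `nm a b (sh q) = shear h (nm a b q)`.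
-/

set_option autoImplicit false

open Topology Filter Metric

namespace Pool.Agent.GX

open Pool.Agent.H36.BP (EN fs wd)
open Pool.Agent.H14.PP (IsCone CurveAt Tan)
open Pool.Agent.H62.EF (MN pr)
open Pool.Agent.AD (Vd Chart Charts IsGerm)
open Pool.Agent.TG (TMap Lat tl nm IsStr IsNC IsCoord Geo VForm ms Str IsPrim Cap IRel II TransAt Gd Cst DV tc)

variable {N k : ℕ}

variable {X : Set (EN N)} {Λ : AddSubgroup (Vd (k + 1))} {u : EN N → Vd (k + 1)} {D B : Set (Vd (k + 1))}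
  {κ ψ : Vd (k + 1) → Vd (k + 1)} {R : ℝ} {g : ℂ → Fin k → ℂ} {Γ₀ : AddSubgroup ℂ} {s : ℝ}

/-- the shear with the graph of `h` -/
def shear (h : ℂ → Fin k → ℂ) (q : Vd (k + 1)) : Vd (k + 1) := Fin.cons (α := fun _ => ℂ) (q 0) fun j => q j.succ + h (q 0) j

private theorem an_proj {d : ℕ} (i : Fin d) (x : Vd d) : AnalyticAt ℂ (fun q : Vd d => q i) x :=
  (ContinuousLinearMap.proj (R := ℂ) (φ := fun _ : Fin d => ℂ) i).analyticAt x

private theorem an_cons {d : ℕ} {E : Type*} [NormedAddCommGroup E] [NormedSpace ℂ E] {f : E → ℂ} {g : E → Fin d → ℂ} {x : E} (hf : AnalyticAt ℂ f x)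
    (hg : ∀ j, AnalyticAt ℂ (fun q => g q j) x) : AnalyticAt ℂ (fun q => (Fin.cons (α := fun _ => ℂ) (f q) (g q) : Vd (d + 1))) x := by
  refine analyticAt_pi_iff.2 fun i => ?_
  refine Fin.cases ?_ (fun j => ?_) i
  · exact hf
  · exact hg j

private theorem fderiv_inj {d : ℕ} {S S' : Vd d → Vd d} (hS : AnalyticAt ℂ S 0) (hS' : AnalyticAt ℂ S' 0) (S0 : S 0 = 0)
    (h2 : ∀ q, S' (S q) = q) : Function.Injective (fderiv ℂ S 0) := by
  have h3 : HasFDerivAt (fun q => S' (S q)) ((fderiv ℂ S' 0).comp (fderiv ℂ S 0)) 0 := by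
    have h4 : HasFDerivAt S' (fderiv ℂ S' 0) (S 0) := by
      rw [S0]
      exact hS'.differentiableAt.hasFDerivAt
    exact h4.comp 0 hS.differentiableAt.hasFDerivAt
  have h5 : HasFDerivAt (fun q => S' (S q)) (ContinuousLinearMap.id ℂ (Vd d)) 0 := by
    have h6 : (fun q => S' (S q)) = fun q => q := funext h2
    rw [h6]
    exact hasFDerivAt_id (𝕜 := ℂ) (0 : Vd d)
  have h7 := h3.unique h5
  intro v w hvw
  have h8 := congrArg (fun L : Vd d →L[ℂ] Vd d => L v) h7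
  have h9 := congrArg (fun L : Vd d →L[ℂ] Vd d => L w) h7
  simp only [ContinuousLinearMap.comp_apply, ContinuousLinearMap.id_apply] at h8 h9
  rw [← h8, ← h9, hvw]

private theorem germ_comp {d : ℕ} {σ : Vd d → EN N} {τ : EN N → Vd d} (h : IsGerm X σ τ) {S S' : Vd d → Vd d} (hS : AnalyticAt ℂ S 0)
    (hS' : AnalyticAt ℂ S' 0) (S0 : S 0 = 0) (h1 : ∀ q, S (S' q) = q) (h2 : ∀ q, S' (S q) = q) :
    IsGerm X (fun q => σ (S q)) (fun y => S' (τ y)) := by
  have t : Tendsto S (𝓝 0) (𝓝 0) := by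
    have := hS.continuousAt.tendsto
    rwa [S0] at this
  have hτ : τ (σ 0) = 0 := h.left.self_of_nhds
  refine ⟨?_, t.eventually h.σ_mem, ?_, ?_, ?_, ?_⟩
  · refine AnalyticAt.fun_comp (g := σ) (f := S) ?_ hS
    rw [S0]
    exact h.σ_an
  · rw [S0]
    refine AnalyticAt.fun_comp (g := S') (f := τ) ?_ h.τ_an
    rw [hτ]
    exact hS'
  · filter_upwards [t.eventually h.left] with q hq
    rw [hq, h2]
  · rw [S0]
    filter_upwards [h.right] with y hy hyX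
    rw [h1]
    exact hy hyX
  · rw [S0]
    filter_upwards [h.inv] with z hz
    rw [hz]

private theorem shear_shear (h : ℂ → Fin k → ℂ) (q : Vd (k + 1)) : shear (fun w => -h w) (shear h q) = q := by
  funext i
  refine Fin.cases rfl (fun j => ?_) i
  show q j.succ + h (q 0) j + -h (q 0) j = q j.succ
  ring

private theorem shear_zero {h : ℂ → Fin k → ℂ} (h0 : h 0 = 0) : shear h 0 = 0 := by
  funext i
  refine Fin.cases rfl (fun j => ?_) i
  show (0 : ℂ) + h 0 j = 0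
  rw [h0, zero_add, Pi.zero_apply]

private theorem shear_an {h : ℂ → Fin k → ℂ} (hh : AnalyticAt ℂ h 0) : AnalyticAt ℂ (shear h) 0 := by
  refine an_cons (an_proj 0 0) fun j => ?_
  refine (an_proj j.succ 0).add ?_
  exact AnalyticAt.fun_comp (g := fun w => h w j) (f := fun q : Vd (k + 1) => q 0) (analyticAt_pi_iff.1 hh j) (an_proj 0 0)

theorem isCoord_shear {p : Vd (k + 1)} (hκ : IsCoord D κ p) {h : ℂ → Fin k → ℂ} (hh : AnalyticAt ℂ h 0) (h0 : h 0 = 0) :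
    IsCoord D (fun q => κ (shear h q)) p := by
  have t : Tendsto (shear h) (𝓝 0) (𝓝 0) := by
    have := (shear_an hh).continuousAt.tendsto
    rwa [shear_zero h0] at this
  refine ⟨?_, ?_, ?_, ?_⟩
  · refine AnalyticAt.fun_comp (g := κ) (f := shear h) ?_ (shear_an hh)
    rw [shear_zero h0]
    exact hκ.an
  · rw [shear_zero h0, hκ.zero]
  · have h1 : HasFDerivAt (fun q => κ (shear h q)) ((fderiv ℂ κ 0).comp (fderiv ℂ (shear h) 0)) 0 := by
      have h2 : HasFDerivAt κ (fderiv ℂ κ 0) (shear h 0) := by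
        rw [shear_zero h0]
        exact hκ.an.differentiableAt.hasFDerivAt
      exact h2.comp 0 (shear_an hh).differentiableAt.hasFDerivAt
    rw [h1.fderiv]
    intro v w hvw
    exact fderiv_inj (shear_an hh) (shear_an hh.neg) (shear_zero h0) (shear_shear h) (hκ.inj hvw)
  · filter_upwards [t.eventually hκ.mem_iff] with q hq
    exact hq

/-- the shear upstairs -/
private def shN (h : ℂ → Fin k → ℂ) (a b : ℕ) (q : Vd (k + 2)) : Vd (k + 2) :=
  Fin.cons (α := fun _ => ℂ) (q 0) (Fin.cons (α := fun _ => ℂ) (q 1) fun j => q j.succ.succ + h (q 0 ^ a * q 1 ^ b) j)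

private theorem shN_shN (h : ℂ → Fin k → ℂ) (a b : ℕ) (q : Vd (k + 2)) : shN (fun w => -h w) a b (shN h a b q) = q := by
  funext i
  refine Fin.cases rfl (fun i => ?_) i
  refine Fin.cases rfl (fun j => ?_) i
  show q j.succ.succ + h (q 0 ^ a * q 1 ^ b) j + -h (q 0 ^ a * q 1 ^ b) j = q j.succ.succ
  ring

private theorem pow_ab {a b : ℕ} (hab : 0 < a + b) : (0 : ℂ) ^ a * 0 ^ b = 0 := by
  rw [← pow_add, zero_pow hab.ne']

private theorem shN_zero {h : ℂ → Fin k → ℂ} {a b : ℕ} (hab : 0 < a + b) (h0 : h 0 = 0) : shN h a b 0 = 0 := by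
  funext i
  refine Fin.cases rfl (fun i => ?_) i
  refine Fin.cases rfl (fun j => ?_) i
  show (0 : ℂ) + h ((0 : ℂ) ^ a * 0 ^ b) j = 0
  rw [pow_ab hab, h0, zero_add, Pi.zero_apply]

private theorem shN_an {h : ℂ → Fin k → ℂ} {a b : ℕ} (hab : 0 < a + b) (hh : AnalyticAt ℂ h 0) : AnalyticAt ℂ (shN h a b) 0 := by
  refine an_cons (an_proj 0 0) fun i => ?_
  refine Fin.cases ?_ (fun j => ?_) i
  · exact an_proj 1 0
  · refine (an_proj j.succ.succ 0).add ?_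
    refine AnalyticAt.fun_comp (g := fun w => h w j) (f := fun q : Vd (k + 2) => q 0 ^ a * q 1 ^ b) ?_ (((an_proj 0 0).pow a).mul ((an_proj 1 0).pow b))
    have e : (0 : Vd (k + 2)) 0 ^ a * (0 : Vd (k + 2)) 1 ^ b = 0 := pow_ab hab
    rw [e]
    exact analyticAt_pi_iff.1 hh j

theorem isNC_shear {x : EN N} (hx : IsNC X Λ u κ x) {h : ℂ → Fin k → ℂ} (hh : AnalyticAt ℂ h 0) (h0 : h 0 = 0) :
    IsNC X Λ u (fun q => κ (shear h q)) x := by
  obtain ⟨σ, τ, a, b, hg, hσ, hab, hl⟩ := hx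
  have h0' : (fun w => -h w) 0 = 0 := by
    show -h 0 = 0
    rw [h0, neg_zero]
  have n1 : ∀ q, shN (fun w => -h w) a b (shN h a b q) = q := shN_shN h a b
  have n2 : ∀ q, shN h a b (shN (fun w => -h w) a b q) = q := fun q => by
    have := shN_shN (fun w => -h w) a b q
    simpa only [neg_neg] using this
  have hS := shN_an (a := a) (b := b) hab hh
  have hS' := shN_an (a := a) (b := b) (h := fun w => -h w) hab hh.neg
  have t : Tendsto (shN h a b) (𝓝 0) (𝓝 0) := by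
    have := hS.continuousAt.tendsto
    rwa [shN_zero hab h0] at this
  refine ⟨fun q => σ (shN h a b q), fun y => shN (fun w => -h w) a b (τ y), a, b, germ_comp hg hS hS' (shN_zero hab h0) n2 n1, ?_, hab, ?_⟩
  · show σ (shN h a b 0) = x
    rw [shN_zero hab h0, hσ]
  · filter_upwards [t.eventually hl] with q hq
    exact hq

theorem exists_line_coord (G : Geo X Λ u D B) {p e : Vd (k + 1)} (hp : p ∈ D) (hpB : p ∉ B) (ht : TransAt D p e) :
    ∃ (κ : Vd (k + 1) → Vd (k + 1)) (ξ₀ : ℂ → ℂ), IsCoord D κ p ∧ (∀ x ∈ X, u x - p ∈ Λ → IsNC X Λ u κ x) ∧ AnalyticAt ℂ ξ₀ 0 ∧ ξ₀ 0 = 0 ∧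
      deriv ξ₀ 0 ≠ 0 ∧ ∀ᶠ z in 𝓝 (0 : ℂ), κ (Fin.cons (α := fun _ => ℂ) (ξ₀ z) 0) = p + z • e := by
  obtain ⟨κ, hκ, hnc⟩ := G.nc p hp hpB
  obtain ⟨he, htr⟩ := ht
  obtain ⟨ψ, hψ, hψκ, hκψ, hψ0⟩ := Pool.Agent.H62.BU.local_inverse hκ.an (fun v hv => hκ.inj (by rw [hv, map_zero]))
  rw [hκ.zero] at hψ hκψ hψ0
  set c : ℂ → Vd (k + 1) := fun z => ψ (p + z • e) with hcdef
  have hline : ∀ z : ℂ, HasDerivAt (fun z : ℂ => p + z • e) e z := by
    intro z
    have h4 : HasDerivAt (fun z : ℂ => z • e) ((1 : ℂ) • e) z := (hasDerivAt_id z).smul_const e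
    rw [one_smul] at h4
    exact h4.const_add p
  have hlan : ∀ z : ℂ, AnalyticAt ℂ (fun z : ℂ => p + z • e) z := fun z =>
    analyticAt_const.add (AnalyticAt.fun_smul analyticAt_id analyticAt_const)
  have hl0 : p + (0 : ℂ) • e = p := by simp
  have hlt : Tendsto (fun z : ℂ => p + z • e) (𝓝 0) (𝓝 p) := by
    have h1 := (hlan 0).continuousAt.tendsto
    rwa [hl0] at h1
  have hc0 : c 0 = 0 := by
    show ψ (p + (0 : ℂ) • e) = 0
    rw [hl0, hψ0]
  have hcan : AnalyticAt ℂ c 0 := AnalyticAt.fun_comp (g := ψ) (f := fun z : ℂ => p + z • e) (by rw [hl0]; exact hψ) (hlan 0)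
  have hκc : ∀ᶠ z in 𝓝 (0 : ℂ), κ (c z) = p + z • e := hlt.eventually hκψ
  have hκan0 : AnalyticAt ℂ κ (c 0) := by rw [hc0]; exact hκ.an
  have hcd : fderiv ℂ κ 0 (deriv c 0) = e := by
    have h1 : HasDerivAt (fun z => κ (c z)) (fderiv ℂ κ (c 0) (deriv c 0)) 0 :=
      hκan0.differentiableAt.hasFDerivAt.comp_hasDerivAt (0 : ℂ) hcan.differentiableAt.hasDerivAt
    rw [hc0] at h1
    exact h1.unique ((hline 0).congr_of_eventuallyEq hκc)
  have hcne : (deriv c 0) 0 ≠ 0 := fun h => htr κ hκ _ h hcd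
  -- the first coordinate
  have hξan : AnalyticAt ℂ (fun z => c z 0) 0 := analyticAt_pi_iff.1 hcan 0
  have hξd : HasDerivAt (fun z => c z 0) (deriv c 0 0) 0 := hasDerivAt_pi.1 hcan.differentiableAt.hasDerivAt 0
  have hξ0 : (fun z => c z 0) 0 = (0 : ℂ) := by
    show c 0 0 = 0
    rw [hc0, Pi.zero_apply]
  obtain ⟨θ, hθ, hθξ, -, hθ0⟩ := Pool.Agent.H62.BU.local_inverse (f := fun z => c z 0) hξan (fun v hv => by
    rw [hξd.hasFDerivAt.fderiv] at hv
    have h1 : v * deriv c 0 0 = 0 := by simpa using hv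
    exact (mul_eq_zero.1 h1).resolve_right hcne)
  have hξ0' : c 0 0 = 0 := hξ0
  rw [hξ0'] at hθ hθ0
  have hhan : AnalyticAt ℂ (fun (w : ℂ) (j : Fin k) => c (θ w) j.succ) 0 := by
    refine analyticAt_pi_iff.2 fun j => ?_
    refine AnalyticAt.fun_comp (g := fun z => c z j.succ) (f := θ) ?_ hθ
    rw [hθ0]
    exact analyticAt_pi_iff.1 hcan j.succ
  have hh0 : (fun (w : ℂ) (j : Fin k) => c (θ w) j.succ) 0 = 0 := by
    funext j
    show c (θ 0) j.succ = 0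
    rw [hθ0, hc0, Pi.zero_apply]
  refine ⟨fun q => κ (shear (fun (w : ℂ) (j : Fin k) => c (θ w) j.succ) q), fun z => c z 0, isCoord_shear hκ hhan hh0, fun x hx hxp => isNC_shear (hnc x hx hxp) hhan hh0,
    hξan, hξ0, ?_, ?_⟩
  · rw [hξd.deriv]
    exact hcne
  · filter_upwards [hθξ, hκc] with z h1 h2
    rw [← h2]
    congr 1
    funext i
    refine Fin.cases rfl (fun j => ?_) i
    show (0 : ℂ) + c (θ (c z 0)) j.succ = c z j.succ
    rw [h1, zero_add]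

end Pool.Agent.GX

end
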