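import Pool.Agent.H94.G4T.M32
import Pool.Agent.H94.G4T.M65
import Pool.Agent.H94.G4T.M80
import Pool.Agent.H94.G4T.M83

/-! The parts of this file: H62.Et.Hat, H62.Qe.Loc, H62.Qe.Lift, H19OL.Norm, H7.Qup.Rel. -/

section

/-!
# Et Hat: the embedding of the projective space in the space of matrices

`pn x = pr ((LE N) x.rep)`.  Everything from Pool.Agent.H62.EF.PrA: `pr_smul`, `pr_eq_iff`, `continuousAt_pr`, `isCompact_pr`, `near_of_pr`.
* `pn_mk`: `Projectivization.exists_smul_eq_mk_rep` and `pr_smul`.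
* `pn_injective`: `pr_eq_iff` and `Projectivization.mk_eq_mk_iff'`, `Projectivization.mk_rep`.
* `pn_near`: `near_of_pr` at `(LE N) x` with the preimage of `U` under `(LE N).symm`; `x' = c • y.rep`.
* `pn_continuousAt`: `pn_mk`, `continuousAt_pr`, congruence near `a` (use `hf.self_of_nhds` for `φ a ≠ 0`).
* `pn_continuous`: `HolomorphicInto f univ` gives local analytic lifts.
* `isCompact_pn`: `pn '' projVar P = pr '' coneE P` (`mem_coneE`), and `coneE P` is a cone which is closed together with `0` (structure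
  `Pool.Agent.H14.PP.IsCone`: zero_notMem, smul_mem, closed; the set `{y | ∀ Q ∈ P, eval ((LE N).symm y) Q = 0}` is closed and equal to `insert 0 (coneE P)`,
  or take closed = zeros of the ideal; if `0` is not a zero of `P` then `P = ⊤` and everything is empty), `isCompact_pr`.
-/

set_option autoImplicit false

open Topology Filter MvPolynomial

noncomputable section

namespace Pool.Agent.H62.Et

open Pool.Agent.H17 (PN VanishesAt HolomorphicInto)
open Pool.Agent.H62.FC (Homog)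
open Pool.Agent.H17EF (projVar LE coneE mem_coneE)
open Pool.Agent.H62.EF (MN pr)

variable {N : ℕ}

private theorem LE_ne {x : Fin (N + 1) → ℂ} (hx : x ≠ 0) : (LE N) x ≠ 0 := by
  intro h
  apply hx
  have := congrArg (LE N).symm h
  rwa [ContinuousLinearEquiv.symm_apply_apply, map_zero] at this

private theorem mk_smul_eq {x : Fin (N + 1) → ℂ} (hx : x ≠ 0) {c : ℂ} (h : c • x ≠ 0) :
    Projectivization.mk ℂ (c • x) h = Projectivization.mk ℂ x hx := by
  rw [Projectivization.mk_eq_mk_iff']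
  exact ⟨c, rfl⟩

theorem pn_mk {x : Fin (N + 1) → ℂ} (hx : x ≠ 0) : pn (Projectivization.mk ℂ x hx) = pr ((LE N) x) := by
  obtain ⟨a, ha, hrep⟩ := Pool.Agent.H36.BP.rep_mk hx
  unfold pn
  rw [hrep, map_smul]
  exact Pool.Agent.H62.EF.pr_smul _ ha

theorem pn_injective : Function.Injective (pn (N := N)) := by
  intro x y h
  have hx := x.rep_nonzero
  have hy := y.rep_nonzero
  obtain ⟨c, hc, e⟩ := (Pool.Agent.H62.EF.pr_eq_iff (LE_ne hx) (LE_ne hy)).1 h
  have e2 : x.rep = c • y.rep := by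
    have := congrArg (LE N).symm e
    rwa [map_smul, ContinuousLinearEquiv.symm_apply_apply, ContinuousLinearEquiv.symm_apply_apply] at this
  rw [← x.mk_rep, ← y.mk_rep, Projectivization.mk_eq_mk_iff']
  exact ⟨c, e2.symm⟩

theorem pn_near {x : Fin (N + 1) → ℂ} (hx : x ≠ 0) {U : Set (Fin (N + 1) → ℂ)} (hU : U ∈ 𝓝 x) :
    ∃ δ : ℝ, 0 < δ ∧ ∀ y : PN N, dist (pn y) (pn (Projectivization.mk ℂ x hx)) < δ → ∃ x' ∈ U, ∃ h : x' ≠ 0, y = Projectivization.mk ℂ x' h := by
  have hU' : (LE N).symm ⁻¹' U ∈ 𝓝 ((LE N) x) := by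
    refine (LE N).symm.continuous.continuousAt.preimage_mem_nhds ?_
    rwa [ContinuousLinearEquiv.symm_apply_apply]
  obtain ⟨δ, hδ, h⟩ := Pool.Agent.H62.EF.near_of_pr (LE_ne hx) hU'
  refine ⟨δ, hδ, fun y hy => ?_⟩
  rw [pn_mk hx] at hy
  obtain ⟨c, hc, hcU⟩ := h ((LE N) y.rep) (LE_ne y.rep_nonzero) hy
  rw [Set.mem_preimage, map_smul, ContinuousLinearEquiv.symm_apply_apply] at hcU
  have h0 : c • y.rep ≠ 0 := smul_ne_zero hc y.rep_nonzero
  refine ⟨c • y.rep, hcU, h0, ?_⟩
  rw [mk_smul_eq y.rep_nonzero h0, y.mk_rep]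

theorem pn_continuousAt {A : Type} [TopologicalSpace A] {φ : A → Fin (N + 1) → ℂ} {a : A} (hφ : ContinuousAt φ a) {f : A → PN N}
    (hf : ∀ᶠ b in 𝓝 a, ∃ h : φ b ≠ 0, f b = Projectivization.mk ℂ (φ b) h) : ContinuousAt (fun b => pn (f b)) a := by
  obtain ⟨h0, -⟩ := hf.self_of_nhds
  have h1 : ContinuousAt (fun b => pr ((LE N) (φ b))) a :=
    ContinuousAt.comp (g := pr) (f := fun b => (LE N) (φ b)) (Pool.Agent.H62.EF.continuousAt_pr (LE_ne h0))
      ((LE N).continuous.continuousAt.comp hφ)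
  refine h1.congr ?_
  filter_upwards [hf] with b hb
  obtain ⟨h, e⟩ := hb
  rw [e, pn_mk h]

theorem pn_continuous {f : ℂ → PN N} (hf : HolomorphicInto f Set.univ) : Continuous fun z => pn (f z) := by
  rw [continuous_iff_continuousAt]
  intro z
  obtain ⟨φ, h1, h2⟩ := hf z (Set.mem_univ z)
  exact pn_continuousAt h1.continuousAt h2

private theorem isCone_coneE {P : Ideal (MvPolynomial (Fin (N + 1)) ℂ)} (hP : Homog P) :
    Pool.Agent.H14.PP.IsCone (coneE P) where
  zero_notMem h := by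
    obtain ⟨h1, -⟩ := (mem_coneE hP).1 h
    exact h1 (map_zero _)
  smul_mem x hx c hc := by
    obtain ⟨h1, h2⟩ := (mem_coneE hP).1 hx
    refine (mem_coneE hP).2 ?_
    have h3 : (LE N).symm (c • x) = c • (LE N).symm x := map_smul _ _ _
    have h4 : (LE N).symm (c • x) ≠ 0 := by
      rw [h3]
      exact smul_ne_zero hc h1
    refine ⟨h4, ?_⟩
    have h5 : Projectivization.mk ℂ ((LE N).symm (c • x)) h4 = Projectivization.mk ℂ ((LE N).symm x) h1 := by
      rw [Projectivization.mk_eq_mk_iff']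
      exact ⟨c, h3.symm⟩
    rw [h5]
    exact h2
  closed := by
    by_cases h0 : ∀ Q ∈ P, eval (0 : Fin (N + 1) → ℂ) Q = 0
    · have e : insert 0 (coneE P) = ⋂ Q ∈ P, {y | eval ((LE N).symm y) Q = 0} := by
        ext y
        rw [Set.mem_insert_iff, Set.mem_iInter₂]
        constructor
        · rintro (rfl | hy)
          · intro Q hQ
            rw [Set.mem_ofPred_eq, map_zero]
            exact h0 Q hQ
          · intro Q hQ
            exact hy.2 Q hQ
        · intro h
          by_cases hy : (LE N).symm y = 0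
          · left
            have := congrArg (LE N) hy
            rwa [ContinuousLinearEquiv.apply_symm_apply, map_zero] at this
          · right
            exact ⟨hy, fun Q hQ => h Q hQ⟩
      rw [e]
      refine isClosed_biInter fun Q _ => ?_
      refine isClosed_eq ?_ continuous_const
      exact (MvPolynomial.continuous_eval Q).comp (LE N).symm.continuous
    · have e : coneE P = ∅ := by
        rw [Set.eq_empty_iff_forall_notMem]
        intro y hy
        apply h0
        intro Q hQ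
        have h1 := hP Q hQ 0
        rw [homogeneousComponent_zero] at h1
        have h2 := hy.2 _ h1
        rw [eval_C] at h2
        have h3 : eval (0 : Fin (N + 1) → ℂ) Q = coeff 0 Q := by
          rw [← constantCoeff_eq, MvPolynomial.eval_zero]
        rw [h3, h2]
      rw [e]
      simp

theorem isCompact_pn {P : Ideal (MvPolynomial (Fin (N + 1)) ℂ)} (hP : Homog P) : IsCompact (pn '' projVar P) := by
  have e : pn '' projVar P = pr '' coneE P := by
    ext m
    constructor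
    · rintro ⟨x, hx, rfl⟩
      refine ⟨(LE N) x.rep, (mem_coneE hP).2 ?_, rfl⟩
      have h1 : (LE N).symm ((LE N) x.rep) = x.rep := ContinuousLinearEquiv.symm_apply_apply _ _
      have h2 : (LE N).symm ((LE N) x.rep) ≠ 0 := by
        rw [h1]
        exact x.rep_nonzero
      refine ⟨h2, ?_⟩
      have h3 : Projectivization.mk ℂ ((LE N).symm ((LE N) x.rep)) h2 = x := by
        refine Eq.trans ?_ x.mk_rep
        rw [Projectivization.mk_eq_mk_iff']
        exact ⟨1, by rw [one_smul, h1]⟩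
      rw [h3]
      exact hx
    · rintro ⟨y, hy, rfl⟩
      obtain ⟨h, h'⟩ := (mem_coneE hP).1 hy
      refine ⟨_, h', ?_⟩
      rw [pn_mk h, ContinuousLinearEquiv.apply_symm_apply]
  rw [e]
  exact Pool.Agent.H62.EF.isCompact_pr (isCone_coneE hP)

end Pool.Agent.H62.Et

end
end

section

/-!
# Qe Loc: a map which is etale over an open subset is a local homeomorphism over it (adapted from `Pool.Agent.H62.Et.Loc`)
-/

set_option autoImplicit false

open Topology Filter MvPolynomial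

noncomputable section

namespace Pool.Agent.H62.Qe

open Pool.Agent.H17 (PN VanishesAt HolomorphicInto)
open Pool.Agent.H62.FC (Homog)
open Pool.Agent.H17EF (projVar LE)
open Pool.Agent.H7.Bir (vals rmap)
open Pool.Agent.H62.EF (MN pr)
open Pool.Agent.H62.SA (locVar)
open Pool.Agent.H62.Et (pn pn_mk pn_injective pn_near pn_continuousAt pn_continuous isCompact_pn)

variable {N M : ℕ} {P : Ideal (MvPolynomial (Fin (N + 1)) ℂ)} {P' : Ideal (MvPolynomial (Fin (M + 1)) ℂ)} {p : PN M → PN N}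

/-- the product of a matrix with a vector -/
private def mA (x₀ : Fin (N + 1) → ℂ) (m : MN N) : Fin (N + 1) → ℂ := fun i => ∑ j, m (i, j) * x₀ j

/-- the scalar product of `x₀` with the product of the matrix with `x₀` -/
private def mB (x₀ : Fin (N + 1) → ℂ) (m : MN N) : ℂ := ∑ i, (starRingEnd ℂ) (x₀ i) * mA x₀ m i

private def sA (x₀ x : Fin (N + 1) → ℂ) : ℂ := ∑ i, (starRingEnd ℂ) (x₀ i) * x i

private theorem continuous_mA (x₀ : Fin (N + 1) → ℂ) : Continuous (mA x₀) := by
  refine continuous_pi fun i => ?_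
  refine continuous_finsetSum _ fun j _ => ?_
  exact (PiLp.continuous_apply 2 _ (i, j)).mul continuous_const

private theorem continuous_mB (x₀ : Fin (N + 1) → ℂ) : Continuous (mB x₀) := by
  refine continuous_finsetSum _ fun i _ => ?_
  exact continuous_const.mul ((continuous_apply i).comp (continuous_mA x₀))

private theorem sA_self (x : Fin (N + 1) → ℂ) : sA x x = ((‖(LE N) x‖ ^ 2 : ℝ) : ℂ) := by
  rw [EuclideanSpace.norm_sq_eq, sA, Complex.ofReal_sum]
  refine Finset.sum_congr rfl fun i _ => ?_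
  rw [Complex.conj_mul']
  push_cast
  rfl

private theorem sA_self_ne {x : Fin (N + 1) → ℂ} (hx : x ≠ 0) : sA x x ≠ 0 := by
  rw [sA_self]
  have h1 : (LE N) x ≠ 0 := fun h => hx ((LE N).map_eq_zero_iff.mp h)
  have h2 : ‖(LE N) x‖ ≠ 0 := norm_ne_zero_iff.mpr h1
  exact_mod_cast pow_ne_zero 2 h2

private theorem mA_pr (x₀ x : Fin (N + 1) → ℂ) : mA x₀ (pr ((LE N) x)) = (sA x x₀ / sA x x) • x := by
  funext i
  rw [sA_self]
  simp only [mA, Pi.smul_apply, smul_eq_mul]
  rw [div_mul_eq_mul_div, sA, Finset.sum_mul, Finset.sum_div]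
  refine Finset.sum_congr rfl fun j _ => ?_
  have h1 : (pr ((LE N) x)) (i, j) = x i * (starRingEnd ℂ) (x j) / ((‖(LE N) x‖ ^ 2 : ℝ) : ℂ) := rfl
  rw [h1]
  ring

private theorem mB_pr (x₀ x : Fin (N + 1) → ℂ) : mB x₀ (pr ((LE N) x)) = sA x x₀ / sA x x * sA x₀ x := by
  rw [mB, mA_pr]
  rw [show sA x₀ x = ∑ i, (starRingEnd ℂ) (x₀ i) * x i from rfl, Finset.mul_sum]
  refine Finset.sum_congr rfl fun i _ => ?_
  rw [Pi.smul_apply, smul_eq_mul]
  ring

/-- a representative of the line depending continuously on the matrix -/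
private theorem exists_nu {x₀ : Fin (N + 1) → ℂ} (hx₀ : x₀ ≠ 0) : ∃ ν : MN N → Fin (N + 1) → ℂ,
    ν (pn (Projectivization.mk ℂ x₀ hx₀)) = x₀ ∧ ∀ᶠ m in 𝓝 (pn (Projectivization.mk ℂ x₀ hx₀)), ContinuousAt ν m ∧
      ∀ y : PN N, pn y = m → ∃ h : ν m ≠ 0, y = Projectivization.mk ℂ (ν m) h := by
  have hS := sA_self_ne hx₀
  refine ⟨fun m => (sA x₀ x₀ / mB x₀ m) • mA x₀ m, ?_, ?_⟩
  · show (sA x₀ x₀ / mB x₀ _) • mA x₀ _ = x₀
    rw [pn_mk, mA_pr, mB_pr, div_self hS, one_mul, one_smul, div_self hS, one_smul]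
  · have h1 : mB x₀ (pn (Projectivization.mk ℂ x₀ hx₀)) ≠ 0 := by
      rw [pn_mk, mB_pr, div_self hS, one_mul]
      exact hS
    filter_upwards [(continuous_mB x₀).continuousAt.eventually_ne h1] with m hm
    refine ⟨?_, fun y hy => ?_⟩
    · exact (continuousAt_const.div (continuous_mB x₀).continuousAt hm).smul (continuous_mA x₀).continuousAt
    · have h2 : m = pr ((LE N) y.rep) := hy.symm
      have h3 : sA y.rep x₀ / sA y.rep y.rep ≠ 0 := by
        intro h
        rw [h2, mB_pr, h, zero_mul] at hm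
        exact hm rfl
      have h5 : (sA x₀ x₀ / mB x₀ m) * (sA y.rep x₀ / sA y.rep y.rep) ≠ 0 := mul_ne_zero (div_ne_zero hS hm) h3
      have h6 : (sA x₀ x₀ / mB x₀ m) • mA x₀ m = ((sA x₀ x₀ / mB x₀ m) * (sA y.rep x₀ / sA y.rep y.rep)) • y.rep := by
        rw [mul_smul, ← mA_pr, ← h2]
      have h7 : (sA x₀ x₀ / mB x₀ m) • mA x₀ m ≠ 0 := by
        rw [h6]
        exact smul_ne_zero h5 y.rep_nonzero
      refine ⟨h7, ?_⟩
      rw [← Projectivization.mk_rep y, Projectivization.mk_eq_mk_iff']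
      refine ⟨((sA x₀ x₀ / mB x₀ m) * (sA y.rep x₀ / sA y.rep y.rep))⁻¹, ?_⟩
      show _ • ((sA x₀ x₀ / mB x₀ m) • mA x₀ m) = _
      rw [h6, smul_smul, inv_mul_cancel₀ h5, one_smul]

/-- the covering as a map of subsets of matrix spaces -/
theorem exists_hat {s s' : ℕ} {G : Fin s → MvPolynomial (Fin (N + 1)) ℂ} {G' : Fin s' → MvPolynomial (Fin (M + 1)) ℂ}
    (hp : IsEtaleOver P P' G G' p) : ∃ ph : (pn '' projVar P') → (pn '' projVar P),
    (∀ (y : PN M) (hy : y ∈ projVar P'), ph ⟨pn y, Set.mem_image_of_mem pn hy⟩ = ⟨pn (p y), Set.mem_image_of_mem pn (hp.reg.maps y hy)⟩) ∧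
      Continuous ph ∧ Function.Surjective ph ∧ ∀ e, (ph e : MN N) ∈ pn '' locVar P G →
        ∃ φ : OpenPartialHomeomorph (pn '' projVar P') (pn '' projVar P), e ∈ φ.source ∧ ph = φ := by
  classical
  -- the point of a matrix
  choose Y hY hYe using fun m : (pn '' projVar P') => m.2
  have hYpn : ∀ (y : PN M) (hy : y ∈ projVar P'), Y ⟨pn y, Set.mem_image_of_mem pn hy⟩ = y := fun y hy =>
    pn_injective (hYe ⟨pn y, Set.mem_image_of_mem pn hy⟩)
  let ph : (pn '' projVar P') → (pn '' projVar P) := fun m => ⟨pn (p (Y m)), Set.mem_image_of_mem pn (hp.reg.maps _ (hY m))⟩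
  have hph : ∀ (y : PN M) (hy : y ∈ projVar P'), ph ⟨pn y, Set.mem_image_of_mem pn hy⟩ = ⟨pn (p y), Set.mem_image_of_mem pn (hp.reg.maps y hy)⟩ := by
    intro y hy
    apply Subtype.ext
    show pn (p (Y _)) = pn (p y)
    rw [hYpn y hy]
  -- the representatives near a point of the covering
  have hνE : ∀ e : (pn '' projVar P'), ∃ ν : (pn '' projVar P') → Fin (M + 1) → ℂ, ν e = (Y e).rep ∧ ContinuousAt ν e ∧
      ∀ᶠ b in 𝓝 e, ∃ h : ν b ≠ 0, Y b = Projectivization.mk ℂ (ν b) h := by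
    intro e
    obtain ⟨ν, h1, h2⟩ := exists_nu (Y e).rep_nonzero
    rw [Projectivization.mk_rep, hYe e] at h1 h2
    refine ⟨fun b => ν b, h1, ?_, ?_⟩
    · exact ContinuousAt.comp (f := Subtype.val) (g := ν) h2.self_of_nhds.1 continuousAt_subtype_val
    · have h3 : Tendsto (Subtype.val : (pn '' projVar P') → MN M) (𝓝 e) (𝓝 (e : MN M)) := continuousAt_subtype_val
      filter_upwards [h3.eventually h2] with b hb
      exact hb.2 (Y b) (hYe b)
  have hcont : Continuous ph := by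
    · -- continuity
      rw [continuous_iff_continuousAt]
      intro e
      rw [Topology.IsInducing.subtypeVal.continuousAt_iff]
      obtain ⟨ν, h1, h2, h3⟩ := hνE e
      obtain ⟨D, γ, hγ, hγ0, hγe⟩ := hp.reg.regular (Y e) (hY e)
      have hc : Continuous fun x : Fin (M + 1) → ℂ => vals γ x := by
        refine continuous_pi fun i => ?_
        exact MvPolynomial.continuous_eval (γ i)
      have h4 : ContinuousAt (fun b => vals γ (ν b)) e := ContinuousAt.comp (g := vals γ) hc.continuousAt h2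
      have h5 : ∀ᶠ b in 𝓝 e, vals γ (ν b) ≠ 0 := h4.eventually_ne (by rw [h1]; exact hγ0)
      refine pn_continuousAt (f := fun b => p (Y b)) h4 ?_
      filter_upwards [h3, h5] with b hb1 hb2
      obtain ⟨hb3, hb4⟩ := hb1
      refine ⟨hb2, ?_⟩
      obtain ⟨a, ha⟩ := Projectivization.exists_smul_eq_mk_rep ℂ (ν b) hb3
      have h6 : vals γ (Y b).rep ≠ 0 := by
        rw [hb4, ← ha]
        show vals γ ((a : ℂ) • ν b) ≠ 0
        rw [Pool.Agent.H7.Bir.vals_smul hγ]
        exact smul_ne_zero (pow_ne_zero _ a.ne_zero) hb2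
      show p (Y b) = _
      rw [hγe (Y b) (hY b) h6, hb4, Pool.Agent.H7.Bir.rmap_mk hγ hb3 hb2]
  refine ⟨ph, hph, hcont, ?_, fun e he => ?_⟩
  rotate_left
  · have heU : Y e ∈ locVar P' G' := by
      refine (hp.inv _ (hY e)).1 ?_
      obtain ⟨x, hx, hxe⟩ := he
      have h1 : x = p (Y e) := pn_injective hxe
      rw [← h1]
      exact hx
    apply exists_localHomeo hcont
    · -- local injectivity
      obtain ⟨ν, h1, h2, h3⟩ := hνE e
      have hmem : Projectivization.mk ℂ (Y e).rep (Y e).rep_nonzero ∈ locVar P' G' := by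
        rw [Projectivization.mk_rep]
        exact heU
      have h4 := hp.locInj (Y e).rep (Y e).rep_nonzero hmem
      have h5 : Tendsto (fun q : (pn '' projVar P') × (pn '' projVar P') => (ν q.1, ν q.2)) (𝓝 (e, e)) (𝓝 ((Y e).rep, (Y e).rep)) := by
        have h6 : ContinuousAt (fun q : (pn '' projVar P') × (pn '' projVar P') => (ν q.1, ν q.2)) (e, e) := by
          refine ContinuousAt.prodMk ?_ ?_
          · exact ContinuousAt.comp (f := Prod.fst) (g := ν) (x := (e, e)) h2 continuousAt_fst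
          · exact ContinuousAt.comp (f := Prod.snd) (g := ν) (x := (e, e)) h2 continuousAt_snd
        have h7 := h6.tendsto
        simp only [h1] at h7
        exact h7
      have h8 : ∀ᶠ q : (pn '' projVar P') × (pn '' projVar P') in 𝓝 (e, e), ∃ h : ν q.1 ≠ 0, Y q.1 = Projectivization.mk ℂ (ν q.1) h :=
        (continuousAt_fst (p := ((e, e) : (pn '' projVar P') × (pn '' projVar P')))).tendsto.eventually h3
      have h9 : ∀ᶠ q : (pn '' projVar P') × (pn '' projVar P') in 𝓝 (e, e), ∃ h : ν q.2 ≠ 0, Y q.2 = Projectivization.mk ℂ (ν q.2) h :=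
        (continuousAt_snd (p := ((e, e) : (pn '' projVar P') × (pn '' projVar P')))).tendsto.eventually h3
      filter_upwards [h5.eventually h4, h8, h9] with q hq1 hq2 hq3 hq4
      obtain ⟨h10, h11⟩ := hq2
      obtain ⟨h12, h13⟩ := hq3
      have h14 : p (Y q.1) = p (Y q.2) := pn_injective (congrArg Subtype.val hq4)
      have h15 := hq1 h10 h12 (by rw [← h11]; exact hY q.1) (by rw [← h13]; exact hY q.2) (by rw [← h11, ← h13]; exact h14)
      apply Subtype.ext
      rw [← hYe q.1, ← hYe q.2, h11, h13]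
      exact congrArg pn h15
    · -- sections
      have hmem : Projectivization.mk ℂ (Y e).rep (Y e).rep_nonzero ∈ locVar P' G' := by
        rw [Projectivization.mk_rep]
        exact heU
      obtain ⟨x, hx, τ, h1, h2, h3, h4⟩ := hp.locSec (Y e).rep (Y e).rep_nonzero hmem
      rw [Projectivization.mk_rep] at h1
      obtain ⟨ν, h5, h6⟩ := exists_nu hx
      rw [← h1] at h5 h6
      -- near the image
      have hpe : (ph e : MN N) = pn (p (Y e)) := rfl
      have h7 : ∀ᶠ m in 𝓝 (ph e : MN N), ContinuousAt ν m ∧ (∀ y : PN N, pn y = m → ∃ h : ν m ≠ 0, y = Projectivization.mk ℂ (ν m) h) ∧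
          ContinuousAt τ (ν m) ∧ ∀ h : ν m ≠ 0, Projectivization.mk ℂ (ν m) h ∈ projVar P →
            ∃ h' : τ (ν m) ≠ 0, Projectivization.mk ℂ (τ (ν m)) h' ∈ projVar P' ∧ p (Projectivization.mk ℂ (τ (ν m)) h') = Projectivization.mk ℂ (ν m) h := by
        rw [hpe]
        have h8 : Tendsto ν (𝓝 (pn (p (Y e)))) (𝓝 x) := by
          have := h6.self_of_nhds.1.tendsto
          rw [h5] at this
          exact this
        filter_upwards [h6, h8.eventually h2.eventually_analyticAt, h8.eventually h4] with m hm1 hm2 hm3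
        exact ⟨hm1.1, hm1.2, hm2.continuousAt, hm3⟩
      -- the statement for the points of the image
      have h8 : ∀ᶠ b in 𝓝 (ph e), ContinuousAt (fun b : (pn '' projVar P) => τ (ν b)) b ∧
          ∃ h' : τ (ν b) ≠ 0, Projectivization.mk ℂ (τ (ν b)) h' ∈ projVar P' ∧ pn (p (Projectivization.mk ℂ (τ (ν b)) h')) = b := by
        have h9 : Tendsto (Subtype.val : (pn '' projVar P) → MN N) (𝓝 (ph e)) (𝓝 (ph e : MN N)) := continuousAt_subtype_val
        filter_upwards [h9.eventually h7] with b hb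
        obtain ⟨hb1, hb2, hb3, hb4⟩ := hb
        obtain ⟨y, hy, hyb⟩ := b.2
        obtain ⟨hb5, hb6⟩ := hb2 y hyb
        obtain ⟨hb7, hb8, hb9⟩ := hb4 hb5 (by rw [← hb6]; exact hy)
        refine ⟨?_, hb7, hb8, ?_⟩
        · have hb10 : ContinuousAt (fun b : (pn '' projVar P) => ν b) b := ContinuousAt.comp (f := Subtype.val) (g := ν) hb1 continuousAt_subtype_val
          exact ContinuousAt.comp (f := fun b : (pn '' projVar P) => ν b) (g := τ) hb3 hb10
        · rw [hb9, ← hb6]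
          exact hyb
      -- the section
      let s : (pn '' projVar P) → (pn '' projVar P') := fun b =>
        if h : ∃ h' : τ (ν b) ≠ 0, Projectivization.mk ℂ (τ (ν b)) h' ∈ projVar P' then
          ⟨pn (Projectivization.mk ℂ (τ (ν b)) h.choose), Set.mem_image_of_mem pn h.choose_spec⟩ else e
      have hs : ∀ b : (pn '' projVar P), ∀ (h : τ (ν b) ≠ 0) (h' : Projectivization.mk ℂ (τ (ν b)) h ∈ projVar P'),
          s b = ⟨pn (Projectivization.mk ℂ (τ (ν b)) h), Set.mem_image_of_mem pn h'⟩ := by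
        intro b h h'
        simp only [s]
        rw [dif_pos ⟨h, h'⟩]
      refine ⟨s, ?_, ?_⟩
      · have h10 : τ (ν (ph e)) = (Y e).rep := by
          rw [hpe, h5, h3]
        have h11 : τ (ν (ph e)) ≠ 0 := by
          rw [h10]
          exact (Y e).rep_nonzero
        have h12 : Projectivization.mk ℂ (τ (ν (ph e))) h11 = Y e := by
          rw [← Projectivization.mk_rep (Y e), Projectivization.mk_eq_mk_iff']
          exact ⟨1, by rw [one_smul, h10]⟩
        rw [hs (ph e) h11 (by rw [h12]; exact hY e)]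
        apply Subtype.ext
        show pn _ = (e : MN M)
        rw [h12, hYe e]
      · filter_upwards [h8.eventually_nhds] with b hb
        refine ⟨?_, ?_⟩
        · rw [Topology.IsInducing.subtypeVal.continuousAt_iff]
          obtain ⟨hb1, hb2, hb3, hb4⟩ := hb.self_of_nhds
          let F : (pn '' projVar P) → PN M := fun b' =>
            if h : ∃ h' : τ (ν b') ≠ 0, Projectivization.mk ℂ (τ (ν b')) h' ∈ projVar P' then Projectivization.mk ℂ (τ (ν b')) h.choose else Y e
          have hF : (Subtype.val ∘ s) = fun b' => pn (F b') := by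
            funext b'
            simp only [Function.comp, s, F]
            split_ifs with h
            · rfl
            · exact (hYe e).symm
          rw [hF]
          refine pn_continuousAt hb1 ?_
          filter_upwards [hb] with b' hb'
          obtain ⟨hb5, hb6, hb7, hb8⟩ := hb'
          refine ⟨hb6, ?_⟩
          simp only [F]
          rw [dif_pos ⟨hb6, hb7⟩]
        · obtain ⟨hb1, hb2, hb3, hb4⟩ := hb.self_of_nhds
          rw [hs b hb2 hb3, hph _ hb3]
          apply Subtype.ext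
          exact hb4
  · rintro ⟨m, x, hx, rfl⟩
    obtain ⟨y, hy, hyx⟩ := hp.reg.surj x hx
    refine ⟨⟨pn y, Set.mem_image_of_mem pn hy⟩, ?_⟩
    rw [hph y hy]
    apply Subtype.ext
    show pn (p y) = pn x
    rw [hyx]

end Pool.Agent.H62.Qe

end
end

section

/-!
# Qe Lift: entire curves and holomorphic maps of the punctured disc in `U` lift to a covering which is etale over `U`
-/

set_option autoImplicit false

open Topology Filter MvPolynomial

noncomputable section

namespace Pool.Agent.H62.Qe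

open Pool.Agent.H17 (PN VanishesAt HolomorphicInto puncturedDisc)
open Pool.Agent.H62.FC (Homog)
open Pool.Agent.H17EF (projVar)
open Pool.Agent.H62.EF (MN)
open Pool.Agent.H62.SA (locVar)
open Pool.Agent.H62.Et (pn pn_mk pn_injective pn_near pn_continuousAt pn_continuous isCompact_pn)

variable {N M : ℕ} {P : Ideal (MvPolynomial (Fin (N + 1)) ℂ)} {P' : Ideal (MvPolynomial (Fin (M + 1)) ℂ)} {p : PN M → PN N}
  {s s' : ℕ} {G : Fin s → MvPolynomial (Fin (N + 1)) ℂ} {G' : Fin s' → MvPolynomial (Fin (M + 1)) ℂ}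

/-- a continuous lift of a holomorphic map is holomorphic -/
theorem holomorphicAt_of_continuousAt (hp : IsEtaleOver P P' G G' p) {f : ℂ → PN N} {z₀ : ℂ}
    (hf : ∃ φ : ℂ → Fin (N + 1) → ℂ, AnalyticAt ℂ φ z₀ ∧ ∀ᶠ z in 𝓝 z₀, ∃ h : φ z ≠ 0, f z = Projectivization.mk ℂ (φ z) h)
    {g : ℂ → PN M} (hg : ContinuousAt (fun z => pn (g z)) z₀) (hgU : g z₀ ∈ locVar P' G') (hgX : ∀ᶠ z in 𝓝 z₀, g z ∈ projVar P')
    (hgf : ∀ᶠ z in 𝓝 z₀, p (g z) = f z) :
    ∃ φ : ℂ → Fin (M + 1) → ℂ, AnalyticAt ℂ φ z₀ ∧ ∀ᶠ z in 𝓝 z₀, ∃ h : φ z ≠ 0, g z = Projectivization.mk ℂ (φ z) h := by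
  have hy₀ : (g z₀).rep ≠ 0 := Projectivization.rep_nonzero _
  have hmk : Projectivization.mk ℂ (g z₀).rep hy₀ = g z₀ := Projectivization.mk_rep _
  obtain ⟨x, hx, τ, h1, hτ, hτx, hsec⟩ := hp.locSec (g z₀).rep hy₀ (by rw [hmk]; exact hgU)
  obtain ⟨φ, hφ, hφf⟩ := hf
  obtain ⟨hφ0, hφz⟩ := hφf.self_of_nhds
  have h2 : Projectivization.mk ℂ x hx = Projectivization.mk ℂ (φ z₀) hφ0 := by
    rw [← h1, hmk, hgf.self_of_nhds, hφz]
  rw [Projectivization.mk_eq_mk_iff'] at h2
  obtain ⟨c, hc⟩ := h2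
  have hc0 : c ≠ 0 := by
    rintro rfl
    rw [zero_smul] at hc
    exact hx hc.symm
  have hφ' : AnalyticAt ℂ (fun z => c • φ z) z₀ := AnalyticAt.fun_const_smul hφ
  have hφc : Tendsto (fun z => c • φ z) (𝓝 z₀) (𝓝 x) := by
    have h3 := hφ'.continuousAt.tendsto
    rwa [hc] at h3
  have hτc : Tendsto (fun z => τ (c • φ z)) (𝓝 z₀) (𝓝 (g z₀).rep) := by
    have h3 := hτ.continuousAt.tendsto
    rw [hτx] at h3
    exact h3.comp hφc
  refine ⟨fun z => τ (c • φ z), ?_, ?_⟩
  · exact hτ.fun_comp_of_eq hφ' hc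
  · have hinj := hp.locInj (g z₀).rep hy₀ (by rw [hmk]; exact hgU)
    rw [nhds_prod_eq, Filter.eventually_iff, Filter.mem_prod_self_iff] at hinj
    obtain ⟨U, hU, hUU⟩ := hinj
    obtain ⟨δ, hδ, hnear⟩ := pn_near hy₀ hU
    rw [hmk] at hnear
    have h4 : ∀ᶠ z in 𝓝 z₀, dist (pn (g z)) (pn (g z₀)) < δ :=
      hg.tendsto.eventually (Metric.ball_mem_nhds _ hδ)
    filter_upwards [hφf, hφc.eventually hsec, hτc.eventually hU, h4, hgX, hgf] with z h5 h6 h7 h8 hXz hfz
    obtain ⟨h9, h10⟩ := h5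
    have h11 : c • φ z ≠ 0 := smul_ne_zero hc0 h9
    have h12 : Projectivization.mk ℂ (c • φ z) h11 = f z := by
      rw [h10, Projectivization.mk_eq_mk_iff']
      exact ⟨c, rfl⟩
    obtain ⟨h13, h14, h15⟩ := h6 h11 (by rw [h12, ← hfz]; exact hp.reg.maps _ hXz)
    obtain ⟨x', hx'U, hx', hx'g⟩ := hnear (g z) h8
    refine ⟨h13, ?_⟩
    rw [hx'g]
    refine hUU (Set.mk_mem_prod hx'U h7) hx' h13 ?_ h14 ?_
    · rw [← hx'g]
      exact hXz
    · rw [← hx'g, hfz, h15, h12]

theorem lift_entire (hP' : Homog P') (hp : IsEtaleOver P P' G G' p) {f : ℂ → PN N} (hf : HolomorphicInto f Set.univ)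
    (hfU : ∀ z, f z ∈ locVar P G) : ∃ g : ℂ → PN M, HolomorphicInto g Set.univ ∧ (∀ z, g z ∈ locVar P' G') ∧ ∀ z, p (g z) = f z := by
  obtain ⟨ph, hph, hcont, hsurj, hloc⟩ := exists_hat hp
  have : CompactSpace (pn '' projVar P') := isCompact_iff_compactSpace.mp (isCompact_pn hP')
  have hfc : Continuous fun z : ℂ => (⟨pn (f z), Set.mem_image_of_mem pn (hfU z).1⟩ : pn '' projVar P) :=
    Continuous.subtype_mk (pn_continuous hf) _
  obtain ⟨e₀, he₀⟩ := hsurj ⟨pn (f 0), Set.mem_image_of_mem pn (hfU 0).1⟩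
  obtain ⟨g₁, hg₁, -, hg₁f⟩ := exists_lift_plane (s := {b : pn '' projVar P | (b : MN N) ∈ pn '' locVar P G}) hcont hloc hfc
    (fun z => Set.mem_image_of_mem pn (hfU z)) he₀
  have hex : ∀ z : ℂ, ∃ y : PN M, y ∈ projVar P' ∧ pn y = (g₁ z : MN M) := fun z => (g₁ z).2
  choose g hgX hgG using hex
  have hgf : ∀ z, p (g z) = f z := by
    intro z
    apply pn_injective
    have h1 := hph (g z) (hgX z)
    have h2 : (⟨pn (g z), Set.mem_image_of_mem pn (hgX z)⟩ : pn '' projVar P') = g₁ z := Subtype.ext (hgG z)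
    rw [h2, hg₁f z] at h1
    exact (congrArg Subtype.val h1).symm
  have hgU : ∀ z, g z ∈ locVar P' G' := fun z => (hp.inv _ (hgX z)).1 (by rw [hgf z]; exact hfU z)
  have hgc : Continuous fun z => pn (g z) := by
    have h3 : (fun z => pn (g z)) = fun z => (g₁ z : MN M) := funext hgG
    rw [h3]
    exact continuous_subtype_val.comp hg₁
  exact ⟨g, fun z₀ _ => holomorphicAt_of_continuousAt hp (hf z₀ (Set.mem_univ _)) hgc.continuousAt (hgU z₀) (Eventually.of_forall hgX)
    (Eventually.of_forall hgf), hgU, hgf⟩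

/-- the homeomorphism of the plane onto the left half plane -/
private def hp1 (w : ℂ) : ℂ := -Real.exp w.re + w.im * Complex.I

private def hp2 (v : ℂ) : ℂ := Real.log (-v.re) + v.im * Complex.I

private theorem hp1_re (w : ℂ) : (hp1 w).re = -Real.exp w.re := by
  unfold hp1
  rw [Complex.add_re, Complex.neg_re, Complex.ofReal_re, Complex.re_ofReal_mul, Complex.I_re, mul_zero, add_zero]

private theorem hp1_im (w : ℂ) : (hp1 w).im = w.im := by
  unfold hp1
  rw [Complex.add_im, Complex.neg_im, Complex.ofReal_im, Complex.im_ofReal_mul, Complex.I_im, mul_one, neg_zero, zero_add]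

private theorem hp1_hp2 {v : ℂ} (hv : v.re < 0) : hp1 (hp2 v) = v := by
  have h1 : (hp2 v).re = Real.log (-v.re) := by
    unfold hp2
    rw [Complex.add_re, Complex.ofReal_re, Complex.re_ofReal_mul, Complex.I_re, mul_zero, add_zero]
  have h2 : (hp2 v).im = v.im := by
    unfold hp2
    rw [Complex.add_im, Complex.ofReal_im, Complex.im_ofReal_mul, Complex.I_im, mul_one, zero_add]
  apply Complex.ext
  · rw [hp1_re, h1, Real.exp_log (by linarith), neg_neg]
  · rw [hp1_im, h2]

private theorem hp1_add (w : ℂ) : hp1 (w + 2 * Real.pi * Complex.I) = hp1 w + 2 * Real.pi * Complex.I := by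
  have h1 : (2 * Real.pi * Complex.I : ℂ).re = 0 := by simp
  apply Complex.ext
  · rw [hp1_re, Complex.add_re, Complex.add_re, h1, hp1_re, add_zero, add_zero]
  · rw [hp1_im, Complex.add_im, Complex.add_im, hp1_im]

private theorem hp2_add (v : ℂ) (n : ℤ) : hp2 (v + n * (2 * Real.pi * Complex.I)) = hp2 v + n * (2 * Real.pi * Complex.I) := by
  have h1 : (n * (2 * Real.pi * Complex.I) : ℂ).re = 0 := by simp
  unfold hp2
  rw [Complex.add_re, h1, add_zero, Complex.add_im]
  push_cast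
  have h2 : (((n * (2 * Real.pi * Complex.I) : ℂ).im : ℝ) : ℂ) * Complex.I = n * (2 * Real.pi * Complex.I) := by
    have h3 := Complex.re_add_im (n * (2 * Real.pi * Complex.I) : ℂ)
    rw [h1, Complex.ofReal_zero, zero_add] at h3
    exact h3
  rw [add_mul, h2]
  ring

private theorem continuous_hp1 : Continuous hp1 := by
  unfold hp1
  fun_prop

private theorem continuousAt_hp2 {v : ℂ} (hv : v.re < 0) : ContinuousAt hp2 v := by
  unfold hp2
  refine ContinuousAt.add ?_ ?_
  · refine Complex.continuous_ofReal.continuousAt.comp ?_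
    refine ContinuousAt.comp (f := fun v : ℂ => -v.re) (g := Real.log) (Real.continuousAt_log (by linarith)) ?_
    fun_prop
  · fun_prop

theorem pn_continuousOn {f : ℂ → PN N} {D : Set ℂ} (hf : HolomorphicInto f D) {z : ℂ} (hz : z ∈ D) : ContinuousAt (fun z => pn (f z)) z := by
  obtain ⟨φ, h1, h2⟩ := hf z hz
  exact pn_continuousAt h1.continuousAt h2

private theorem exp_mem {v : ℂ} (hv : v.re < 0) : Complex.exp v ∈ puncturedDisc := by
  refine ⟨?_, Complex.exp_ne_zero v⟩
  rw [mem_ball_zero_iff, Complex.norm_exp]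
  exact Real.exp_lt_one_iff.2 hv

theorem lift_punctured (hP' : Homog P') (hp : IsEtaleOver P P' G G' p) {f : ℂ → PN N} (hf : HolomorphicInto f puncturedDisc)
    (hfU : ∀ z ∈ puncturedDisc, f z ∈ locVar P G) : ∃ (k : ℕ) (g : ℂ → PN M), 1 ≤ k ∧ HolomorphicInto g puncturedDisc ∧
      (∀ z ∈ puncturedDisc, g z ∈ locVar P' G') ∧ ∀ z ∈ puncturedDisc, p (g z) = f (z ^ k) := by
  obtain ⟨ph, hph, hcont, hsurj, hloc⟩ := exists_hat hp
  have : CompactSpace (pn '' projVar P') := isCompact_iff_compactSpace.mp (isCompact_pn hP')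
  have hneg : ∀ w, (hp1 w).re < 0 := fun w => by
    rw [hp1_re]
    exact neg_lt_zero.2 (Real.exp_pos _)
  have hmem : ∀ w, Complex.exp (hp1 w) ∈ puncturedDisc := fun w => exp_mem (hneg w)
  have hFc : Continuous fun w : ℂ => pn (f (Complex.exp (hp1 w))) := by
    rw [continuous_iff_continuousAt]
    intro w
    exact ContinuousAt.comp (g := fun z => pn (f z)) (f := fun w => Complex.exp (hp1 w)) (pn_continuousOn hf (hmem w))
      (Complex.continuous_exp.comp continuous_hp1).continuousAt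
  have hfc : Continuous fun w : ℂ => (⟨pn (f (Complex.exp (hp1 w))), Set.mem_image_of_mem pn (hfU _ (hmem w)).1⟩ : pn '' projVar P) :=
    Continuous.subtype_mk hFc _
  have hper : ∀ w : ℂ, (⟨pn (f (Complex.exp (hp1 (w + 2 * Real.pi * Complex.I)))), Set.mem_image_of_mem pn (hfU _ (hmem _)).1⟩ : pn '' projVar P) =
      ⟨pn (f (Complex.exp (hp1 w))), Set.mem_image_of_mem pn (hfU _ (hmem w)).1⟩ := by
    intro w
    apply Subtype.ext
    show pn (f (Complex.exp (hp1 (w + 2 * Real.pi * Complex.I)))) = pn (f (Complex.exp (hp1 w)))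
    rw [hp1_add, Complex.exp_periodic]
  obtain ⟨g₁, k, hg₁, hg₁f, hk, hg₁k⟩ := exists_lift_periodic (s := {b : pn '' projVar P | (b : MN N) ∈ pn '' locVar P G}) hcont hsurj hloc hfc
    (fun w => Set.mem_image_of_mem pn (hfU _ (hmem w))) hper
  have hg₁p : ∀ (n : ℤ) (w : ℂ), g₁ (w + n * (k * (2 * Real.pi * Complex.I))) = g₁ w := fun n w =>
    Function.Periodic.int_mul (f := g₁) (c := k * (2 * Real.pi * Complex.I)) hg₁k n w
  have hex : ∀ w : ℂ, ∃ y : PN M, y ∈ projVar P' ∧ pn y = (g₁ w : MN M) := fun w => (g₁ w).2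
  choose g₂ hg₂X hg₂G using hex
  have hg₂f : ∀ w, p (g₂ w) = f (Complex.exp (hp1 w)) := by
    intro w
    apply pn_injective
    have h1 := hph (g₂ w) (hg₂X w)
    have h2 : (⟨pn (g₂ w), Set.mem_image_of_mem pn (hg₂X w)⟩ : pn '' projVar P') = g₁ w := Subtype.ext (hg₂G w)
    rw [h2, hg₁f w] at h1
    exact (congrArg Subtype.val h1).symm
  have hkr : (0 : ℝ) < k := by exact_mod_cast hk
  have hre : ∀ z ∈ puncturedDisc, (k * Complex.log z).re < 0 := by
    intro z hz
    have h1 : (k * Complex.log z).re = k * Real.log ‖z‖ := by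
      rw [← Complex.ofReal_natCast, Complex.re_ofReal_mul, Complex.log_re]
    rw [h1]
    have h2 : ‖z‖ < 1 := by
      rw [← mem_ball_zero_iff]
      exact hz.1
    have h3 : 0 < ‖z‖ := norm_pos_iff.2 hz.2
    exact mul_neg_of_pos_of_neg hkr (Real.log_neg h3 h2)
  have hgX : ∀ z, g₂ (hp2 (k * Complex.log z)) ∈ projVar P' := fun z => hg₂X _
  have hgf : ∀ z ∈ puncturedDisc, p (g₂ (hp2 (k * Complex.log z))) = f (z ^ k) := by
    intro z hz
    rw [hg₂f, hp1_hp2 (hre z hz), Complex.exp_nat_mul, Complex.exp_log hz.2]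
  have hpow : ∀ z ∈ puncturedDisc, z ^ k ∈ puncturedDisc := by
    intro z hz
    refine ⟨?_, pow_ne_zero k hz.2⟩
    rw [mem_ball_zero_iff, norm_pow]
    exact pow_lt_one₀ (norm_nonneg z) (by rw [← mem_ball_zero_iff]; exact hz.1) (by omega)
  have hgU : ∀ z ∈ puncturedDisc, g₂ (hp2 (k * Complex.log z)) ∈ locVar P' G' := fun z hz =>
    (hp.inv _ (hgX z)).1 (by rw [hgf z hz]; exact hfU _ (hpow z hz))
  have hopen : IsOpen puncturedDisc := Metric.isOpen_ball.sdiff isClosed_singleton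
  refine ⟨k, fun z => g₂ (hp2 (k * Complex.log z)), hk, fun z₀ hz₀ => ?_, hgU, hgf⟩
  have hz0 : z₀ ≠ 0 := hz₀.2
  refine holomorphicAt_of_continuousAt hp (f := fun z => f (z ^ k)) ?_ ?_ (hgU z₀ hz₀) (Eventually.of_forall hgX) ?_
  · obtain ⟨φ, h1, h2⟩ := hf (z₀ ^ k) (hpow z₀ hz₀)
    have h3 : AnalyticAt ℂ (fun z : ℂ => z ^ k) z₀ := analyticAt_id.pow k
    exact ⟨fun z => φ (z ^ k), AnalyticAt.comp (g := φ) (f := fun z : ℂ => z ^ k) h1 h3, h3.continuousAt.tendsto.eventually h2⟩
  · -- continuity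
    have h1 : (fun z => pn (g₂ (hp2 (k * Complex.log z)))) = fun z => (g₁ (hp2 (k * Complex.log z)) : MN M) := funext fun z => hg₂G _
    rw [h1]
    have h2 : ContinuousAt (fun z => (g₁ (hp2 (k * (Complex.log (z / z₀) + Complex.log z₀))) : MN M)) z₀ := by
      have h3 : ContinuousAt (fun z : ℂ => k * (Complex.log (z / z₀) + Complex.log z₀)) z₀ := by
        refine continuousAt_const.mul (ContinuousAt.add ?_ continuousAt_const)
        refine ContinuousAt.clog ?_ ?_
        · exact continuousAt_id.div continuousAt_const hz0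
        · rw [div_self hz0]
          exact Complex.one_mem_slitPlane
      have h4 : (k * (Complex.log (z₀ / z₀) + Complex.log z₀)).re < 0 := by
        rw [div_self hz0, Complex.log_one, zero_add]
        exact hre z₀ hz₀
      have h5 : ContinuousAt (fun z : ℂ => hp2 (k * (Complex.log (z / z₀) + Complex.log z₀))) z₀ :=
        ContinuousAt.comp (g := hp2) (f := fun z : ℂ => k * (Complex.log (z / z₀) + Complex.log z₀)) (continuousAt_hp2 h4) h3
      exact ContinuousAt.comp (g := fun w => (g₁ w : MN M)) (f := fun z : ℂ => hp2 (k * (Complex.log (z / z₀) + Complex.log z₀)))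
        (continuous_subtype_val.comp hg₁).continuousAt h5
    refine h2.congr ?_
    filter_upwards [isOpen_ne.mem_nhds hz0] with z hz
    have hz' : z ≠ 0 := hz
    have h3 : Complex.exp (Complex.log (z / z₀) + Complex.log z₀) = Complex.exp (Complex.log z) := by
      rw [Complex.exp_add, Complex.exp_log (div_ne_zero hz' hz0), Complex.exp_log hz0, Complex.exp_log hz', div_mul_cancel₀ _ hz0]
    obtain ⟨n, hn⟩ := Complex.exp_eq_exp_iff_exists_int.1 h3
    rw [hn, mul_add]
    have h4 : (k : ℂ) * (n * (2 * Real.pi * Complex.I)) = ((k * n : ℤ) : ℂ) * (2 * Real.pi * Complex.I) := by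
      push_cast
      ring
    rw [h4, hp2_add]
    have h5 : ((k * n : ℤ) : ℂ) * (2 * Real.pi * Complex.I) = n * (k * (2 * Real.pi * Complex.I)) := by
      push_cast
      ring
    rw [h5, hg₁p]
  · filter_upwards [hopen.mem_nhds hz₀] with z hz
    exact hgf z hz

end Pool.Agent.H62.Qe

end
end

section

/-!
# OL Norm: the norm of a form under a generically finite rational map

`exists_norm_form`: let `X'` and `X` be the varieties of the prime ideals `P'` and `P`, of the same dimension, and let forms `γ i` define a dominant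
rational map from `X'` to `X`.  For each form `R'` which does not vanish on `X'` there is a form `R` which does not vanish on `X`, with
`R (γ y) = 0` for all points `y` of `X'` with `R' y = 0`.
-/

set_option autoImplicit false

open MvPolynomial

noncomputable section

namespace Pool.Agent.H19OL

open Pool.Agent.H17GT (coordFun functionField)
open Pool.Agent.H17LG.Variety (FunField ratio)
open Pool.Agent.H17R (gen gen_eq_zero_iff ratio_self adjoin_ratio coordFun_ne_zero_iff)
open Pool.Agent.H7.Bir (aeval_comp aeval_div funIso exists_quot vals)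

/-- An extension of fields with the same finite transcendence degree is algebraic. -/
theorem alg_of_trdeg {K L : Type} [Field K] [Field L] [Algebra ℂ K] [Algebra ℂ L] [Algebra K L] [IsScalarTower ℂ K L] {k : ℕ}
    {z : Fin k → K} (hz : IsTranscendenceBasis ℂ z) {z' : Fin k → L} (hz' : IsTranscendenceBasis ℂ z') :
    Algebra.IsAlgebraic K L := by
  have h1 := trdeg_add_eq ℂ K (A := L)
  rw [← hz.cardinalMk_eq_trdeg, ← hz'.cardinalMk_eq_trdeg] at h1
  rw [← trdeg_eq_zero_iff]
  have h2 : Cardinal.mk (Fin k) < Cardinal.aleph0 := Cardinal.mk_lt_aleph0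
  have h3 : Cardinal.mk (Fin k) + Algebra.trdeg K L = Cardinal.mk (Fin k) + 0 := by rw [h1, add_zero]
  exact Cardinal.eq_of_add_eq_add_left h3 h2

variable {N M : ℕ}

/-- The field generated by the coordinates. -/
theorem adjoin_self {L : Type} [Field L] [Algebra ℂ L] (x : Fin (N + 1) → L) :
    IntermediateField.adjoin ℂ (Set.range fun i => (⟨x i, IntermediateField.subset_adjoin ℂ _ ⟨i, rfl⟩⟩ :
      IntermediateField.adjoin ℂ (Set.range x))) = ⊤ := by
  apply IntermediateField.lift_injective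
  rw [IntermediateField.lift_adjoin, IntermediateField.lift_top]
  congr 1
  ext y
  constructor
  · rintro ⟨_, ⟨i, rfl⟩, rfl⟩
    exact ⟨i, rfl⟩
  · rintro ⟨i, rfl⟩
    exact ⟨_, ⟨i, rfl⟩, rfl⟩

/-- The norm of a form, for the points with `y j ≠ 0`. -/
theorem exists_norm_aux {P : Ideal (MvPolynomial (Fin (N + 1)) ℂ)} [P.IsPrime] {P' : Ideal (MvPolynomial (Fin (M + 1)) ℂ)}
    [P'.IsPrime] {k : ℕ} {z : Fin k → FunField P} (hz : IsTranscendenceBasis ℂ z) {z' : Fin k → FunField P'}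
    (hz' : IsTranscendenceBasis ℂ z') {D : ℕ} {γ : Fin (N + 1) → MvPolynomial (Fin (M + 1)) ℂ} (hγ : ∀ i, (γ i).IsHomogeneous D)
    (hmaps : ∀ n Q, Q.IsHomogeneous n → (aeval γ Q ∈ P' ↔ Q ∈ P)) {i₀ : Fin (N + 1)} (hi₀ : X i₀ ∉ P)
    {n : ℕ} {R' : MvPolynomial (Fin (M + 1)) ℂ} (hR' : R'.IsHomogeneous n) (hR'P : R' ∉ P') {j : Fin (M + 1)} (hj : X j ∉ P') :
    ∃ (R : MvPolynomial (Fin (N + 1)) ℂ) (d : ℕ), R.IsHomogeneous d ∧ R ∉ P ∧
      ∀ y : Fin (M + 1) → ℂ, y j ≠ 0 → (∀ Q ∈ P', eval y Q = 0) → eval y R' = 0 → eval (vals γ y) R = 0 := by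
  have hcj : coordFun P' j ≠ 0 := coordFun_ne_zero_iff.2 hj
  set η : Fin (M + 1) → FunField P' := fun i => ratio P' i j with hη
  have hη1 : η j = 1 := ratio_self hcj
  have hγ₀ : γ i₀ ∉ P' := by
    intro h
    apply hi₀
    rw [← hmaps 1 _ (isHomogeneous_X ℂ i₀), aeval_X]
    exact h
  have hc : aeval η (γ i₀) ≠ 0 := fun h0 => hγ₀ ((gen_eq_zero_iff hcj (hγ i₀)).1 h0)
  set x : Fin (N + 1) → FunField P' := fun i => aeval η (γ i) / aeval η (γ i₀) with hx
  have hx1 : x i₀ = 1 := div_self hc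
  have hcomp : ∀ (n : ℕ) (R : MvPolynomial (Fin (N + 1)) ℂ), R.IsHomogeneous n →
      aeval η (aeval γ R) = aeval η (γ i₀) ^ n * aeval x R := by
    intro n R hR
    rw [aeval_comp, aeval_div hR hc]
  have hker : ∀ (n : ℕ) (G : MvPolynomial (Fin (N + 1)) ℂ), G.IsHomogeneous n → (aeval x G = 0 ↔ G ∈ P) := by
    intro n G hG
    rw [← hmaps n G hG, ← gen_eq_zero_iff hcj (hG.aeval γ hγ)]
    change _ ↔ aeval η (aeval γ G) = 0
    rw [hcomp n G hG, mul_eq_zero]
    exact ⟨Or.inr, fun h => h.resolve_left (pow_ne_zero _ hc)⟩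
  -- the subfield generated by the coordinates of the image
  set F : IntermediateField ℂ (FunField P') := IntermediateField.adjoin ℂ (Set.range x) with hF
  set x' : Fin (N + 1) → F := fun i => ⟨x i, IntermediateField.subset_adjoin ℂ _ ⟨i, rfl⟩⟩ with hx'
  have hadj : IntermediateField.adjoin ℂ (Set.range x') = ⊤ := adjoin_self x
  have hval : ∀ G : MvPolynomial (Fin (N + 1)) ℂ, ((aeval x' G : F) : FunField P') = aeval x G := by
    intro G
    have h1 := DFunLike.congr_fun (MvPolynomial.comp_aeval x' F.val) G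
    exact h1
  have hx'1 : x' i₀ = 1 := Subtype.ext hx1
  obtain ⟨e⟩ := funIso (coordFun_ne_zero_iff.2 hi₀) hx'1 hadj fun n G hG => by
    rw [← hker n G hG, ← hval G]
    exact Subtype.ext_iff
  have halg : Algebra.IsAlgebraic F (FunField P') := alg_of_trdeg (e.isTranscendenceBasis hz) hz'
  -- the equation of `R'`
  set s : FunField P' := aeval η R' with hs
  have hs0 : s ≠ 0 := fun h0 => hR'P ((gen_eq_zero_iff hcj hR').1 h0)
  have hint : IsIntegral F s := (halg.isAlgebraic s).isIntegral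
  set p := minpoly F s with hp
  set m := p.natDegree with hm
  obtain ⟨D₁, α, hα, hα0, hα1⟩ := exists_quot hx'1 hadj (fun i : Fin (m + 1) => p.coeff (i : ℕ)) (j' := Fin.last m) (by
    have h1 := minpoly.monic hint
    exact h1)
  have hα0' : aeval x (α (Fin.last m)) ≠ 0 := by
    rw [← hval]
    exact fun h => hα0 (Subtype.ext h)
  have hrel : ∑ i : Fin (m + 1), aeval x (α i) * s ^ (i : ℕ) = 0 := by
    have h1 := minpoly.aeval F s
    rw [Polynomial.aeval_eq_sum_range, ← Fin.sum_univ_eq_sum_range (fun i => p.coeff i • s ^ i)] at h1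
    have h2 : ∀ i : Fin (m + 1), aeval x (α i) * s ^ (i : ℕ) = aeval x (α (Fin.last m)) * (p.coeff (i : ℕ) • s ^ (i : ℕ)) := by
      intro i
      have h3 := congrArg (fun t : F => (t : FunField P')) (hα1 i)
      simp only [MulMemClass.coe_mul, hval] at h3
      rw [← h3, Algebra.smul_def]
      change _ = _ * (((p.coeff (i : ℕ) : F) : FunField P') * _)
      ring
    have h4 : ∑ i : Fin (m + 1), aeval x (α (Fin.last m)) * (p.coeff (i : ℕ) • s ^ (i : ℕ)) =
        aeval x (α (Fin.last m)) * ∑ i : Fin (m + 1), p.coeff (i : ℕ) • s ^ (i : ℕ) := (Finset.mul_sum _ _ _).symm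
    rw [Finset.sum_congr rfl fun i _ => h2 i, h4, h1, mul_zero]
  have hα00 : aeval x (α 0) ≠ 0 := by
    have h3 := congrArg (fun t : F => (t : FunField P')) (hα1 0)
    simp only [MulMemClass.coe_mul, hval] at h3
    rw [← h3]
    refine mul_ne_zero ?_ hα0'
    have h4 : p.coeff 0 ≠ 0 := minpoly.coeff_zero_ne_zero hint hs0
    intro h5
    exact h4 (Subtype.ext h5)
  -- the form
  set G : MvPolynomial (Fin (M + 1)) ℂ := ∑ i : Fin (m + 1), aeval γ (α i) * R' ^ (i : ℕ) * X j ^ (n * (m - i)) with hG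
  have hGhom : G.IsHomogeneous (D * D₁ + n * m) := by
    refine IsHomogeneous.sum _ _ _ fun i _ => ?_
    have h1 := ((((hα i).aeval γ hγ).mul (hR'.pow (i : ℕ))).mul ((isHomogeneous_X ℂ j).pow (n * (m - i))))
    have h2 : D * D₁ + n * (i : ℕ) + 1 * (n * (m - i)) = D * D₁ + n * m := by
      have h3 : (i : ℕ) ≤ m := Nat.lt_succ_iff.1 i.2
      rw [one_mul, add_assoc, ← mul_add, Nat.add_sub_cancel' h3]
    rw [h2] at h1
    exact h1
  have hGP : G ∈ P' := by
    rw [← gen_eq_zero_iff hcj hGhom]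
    change aeval η G = 0
    rw [hG, map_sum]
    have h1 : ∀ i : Fin (m + 1), aeval η (aeval γ (α i) * R' ^ (i : ℕ) * X j ^ (n * (m - i))) =
        aeval η (γ i₀) ^ D₁ * (aeval x (α i) * s ^ (i : ℕ)) := by
      intro i
      rw [map_mul, map_mul, map_pow, map_pow, aeval_X, hη1, one_pow, mul_one, hcomp D₁ _ (hα i)]
      ring
    have h2 : ∑ i : Fin (m + 1), aeval η (γ i₀) ^ D₁ * (aeval x (α i) * s ^ (i : ℕ)) =
        aeval η (γ i₀) ^ D₁ * ∑ i : Fin (m + 1), aeval x (α i) * s ^ (i : ℕ) := (Finset.mul_sum _ _ _).symm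
    rw [Finset.sum_congr rfl fun i _ => h1 i, h2, hrel, mul_zero]
  refine ⟨α 0, D₁, hα 0, fun h => hα00 ((hker D₁ _ (hα 0)).2 h), fun y hyj hy hyR => ?_⟩
  have h1 := hy G hGP
  rw [hG, map_sum, Fin.sum_univ_succ] at h1
  have h2 : ∀ i : Fin m, eval y (aeval γ (α i.succ) * R' ^ ((i.succ : Fin (m + 1)) : ℕ) * X j ^ (n * (m - (i.succ : Fin (m + 1))))) = 0 := by
    intro i
    rw [map_mul, map_mul, map_pow, hyR, Fin.val_succ, zero_pow (Nat.succ_ne_zero _), mul_zero, zero_mul]
  rw [Finset.sum_eq_zero fun i _ => h2 i, add_zero, map_mul, map_mul, map_pow, map_pow, eval_X, Fin.val_zero, pow_zero,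
    mul_one, mul_eq_zero] at h1
  have h3 : eval y (aeval γ (α 0)) = 0 := h1.resolve_right (pow_ne_zero _ hyj)
  have h4 : eval y (aeval γ (α 0)) = eval (vals γ y) (α 0) := aeval_comp (K := ℂ) y γ (α 0)
  rw [← h4]
  exact h3

/-- **The norm of a form.** -/
theorem exists_norm_form {P : Ideal (MvPolynomial (Fin (N + 1)) ℂ)} [P.IsPrime] {P' : Ideal (MvPolynomial (Fin (M + 1)) ℂ)}
    [P'.IsPrime] {k : ℕ} (hz : ∃ z : Fin (k + 1) → FunField P, IsTranscendenceBasis ℂ z)
    (hz' : ∃ z : Fin (k + 1) → FunField P', IsTranscendenceBasis ℂ z) {D : ℕ}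
    {γ : Fin (N + 1) → MvPolynomial (Fin (M + 1)) ℂ} (hγ : ∀ i, (γ i).IsHomogeneous D)
    (hmaps : ∀ n Q, Q.IsHomogeneous n → (aeval γ Q ∈ P' ↔ Q ∈ P))
    {n : ℕ} {R' : MvPolynomial (Fin (M + 1)) ℂ} (hR' : R'.IsHomogeneous n) (hR'P : R' ∉ P') :
    ∃ (R : MvPolynomial (Fin (N + 1)) ℂ) (d : ℕ), R.IsHomogeneous d ∧ R ∉ P ∧
      ∀ y : Fin (M + 1) → ℂ, y ≠ 0 → (∀ Q ∈ P', eval y Q = 0) → eval y R' = 0 → eval (vals γ y) R = 0 := by
  classical
  obtain ⟨z, hz⟩ := hz
  obtain ⟨z', hz'⟩ := hz'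
  obtain ⟨i₀, hi₀⟩ := Pool.Agent.H92.GT.Proj.exists_coordFun_ne_zero P z hz
  have hi₀' : X i₀ ∉ P := coordFun_ne_zero_iff.1 hi₀
  have h1 : ∀ j : Fin (M + 1), ∃ (R : MvPolynomial (Fin (N + 1)) ℂ) (d : ℕ), R.IsHomogeneous d ∧ R ∉ P ∧
      ∀ y : Fin (M + 1) → ℂ, y j ≠ 0 → (∀ Q ∈ P', eval y Q = 0) → eval y R' = 0 → eval (vals γ y) R = 0 := by
    intro j
    by_cases hj : X j ∈ P'
    · refine ⟨1, 0, isHomogeneous_one _ _, fun h => (Ideal.ne_top_iff_one P).1 (Ideal.IsPrime.ne_top inferInstance) h, fun y hyj hy => ?_⟩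
      have h2 := hy _ hj
      rw [eval_X] at h2
      exact absurd h2 hyj
    · exact exists_norm_aux hz hz' hγ hmaps hi₀' hR' hR'P hj
  choose R d hR hRP hRy using h1
  refine ⟨∏ j, R j, ∑ j, d j, IsHomogeneous.prod _ _ _ fun j _ => hR j, ?_, fun y hy hyP hyR => ?_⟩
  · intro h
    obtain ⟨j, -, hj⟩ := (Ideal.IsPrime.prod_mem_iff (p := P)).1 h
    exact hRP j hj
  · obtain ⟨j, hj⟩ := Function.ne_iff.1 hy
    rw [map_prod]
    exact Finset.prod_eq_zero (Finset.mem_univ j) (hRy j y hj hyP hyR)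

end Pool.Agent.H19OL

end
end

section

/-!
# Qup Rel: the equations of the coordinates of a point over its image
-/

set_option autoImplicit false

open MvPolynomial

noncomputable section

namespace Pool.Agent.H7.Qup

open Pool.Agent.H17 (PN VanishesAt vanishesAt_mk_iff)
open Pool.Agent.H17GT (coordFun functionField)
open Pool.Agent.H17LG.Variety (FunField ratio)
open Pool.Agent.H17R (gen gen_eq_zero_iff ratio_self coordFun_ne_zero_iff)
open Pool.Agent.H7.Bir (aeval_comp aeval_div funIso exists_quot vals rmap)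
open Pool.Agent.H19OL (alg_of_trdeg adjoin_self)

variable {N M : ℕ}

/-- The equation of the ratio `X i / X j` over the function field of the image. -/
theorem exists_eq_aux {P : Ideal (MvPolynomial (Fin (N + 1)) ℂ)} [P.IsPrime] {P' : Ideal (MvPolynomial (Fin (M + 1)) ℂ)}
    [P'.IsPrime] {k : ℕ} {z : Fin k → FunField P} (hz : IsTranscendenceBasis ℂ z) {z' : Fin k → FunField P'}
    (hz' : IsTranscendenceBasis ℂ z') {D : ℕ} {γ : Fin (N + 1) → MvPolynomial (Fin (M + 1)) ℂ} (hγ : ∀ i, (γ i).IsHomogeneous D)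
    (hmaps : ∀ n Q, Q.IsHomogeneous n → (aeval γ Q ∈ P' ↔ Q ∈ P)) {i₀ : Fin (N + 1)} (hi₀ : X i₀ ∉ P)
    {j : Fin (M + 1)} (hj : X j ∉ P') (i : Fin (M + 1)) :
    ∃ (m D₁ : ℕ) (α : Fin (m + 1) → MvPolynomial (Fin (N + 1)) ℂ), (∀ l, (α l).IsHomogeneous D₁) ∧ α (Fin.last m) ∉ P ∧
      ∑ l : Fin (m + 1), aeval γ (α l) * X i ^ (l : ℕ) * X j ^ (m - (l : ℕ)) ∈ P' := by
  have hcj : coordFun P' j ≠ 0 := coordFun_ne_zero_iff.2 hj
  set η : Fin (M + 1) → FunField P' := fun i => ratio P' i j with hη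
  have hη1 : η j = 1 := ratio_self hcj
  have hγ₀ : γ i₀ ∉ P' := by
    intro h
    apply hi₀
    rw [← hmaps 1 _ (isHomogeneous_X ℂ i₀), aeval_X]
    exact h
  have hc : aeval η (γ i₀) ≠ 0 := fun h0 => hγ₀ ((gen_eq_zero_iff hcj (hγ i₀)).1 h0)
  set x : Fin (N + 1) → FunField P' := fun i => aeval η (γ i) / aeval η (γ i₀) with hx
  have hx1 : x i₀ = 1 := div_self hc
  have hcomp : ∀ (n : ℕ) (R : MvPolynomial (Fin (N + 1)) ℂ), R.IsHomogeneous n →
      aeval η (aeval γ R) = aeval η (γ i₀) ^ n * aeval x R := by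
    intro n R hR
    rw [aeval_comp, aeval_div hR hc]
  have hker : ∀ (n : ℕ) (G : MvPolynomial (Fin (N + 1)) ℂ), G.IsHomogeneous n → (aeval x G = 0 ↔ G ∈ P) := by
    intro n G hG
    rw [← hmaps n G hG, ← gen_eq_zero_iff hcj (hG.aeval γ hγ)]
    change _ ↔ aeval η (aeval γ G) = 0
    rw [hcomp n G hG, mul_eq_zero]
    exact ⟨Or.inr, fun h => h.resolve_left (pow_ne_zero _ hc)⟩
  -- the subfield generated by the coordinates of the image
  set F : IntermediateField ℂ (FunField P') := IntermediateField.adjoin ℂ (Set.range x) with hF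
  set x' : Fin (N + 1) → F := fun i => ⟨x i, IntermediateField.subset_adjoin ℂ _ ⟨i, rfl⟩⟩ with hx'
  have hadj : IntermediateField.adjoin ℂ (Set.range x') = ⊤ := adjoin_self x
  have hval : ∀ G : MvPolynomial (Fin (N + 1)) ℂ, ((aeval x' G : F) : FunField P') = aeval x G := by
    intro G
    have h1 := DFunLike.congr_fun (MvPolynomial.comp_aeval x' F.val) G
    exact h1
  have hx'1 : x' i₀ = 1 := Subtype.ext hx1
  obtain ⟨e⟩ := funIso (coordFun_ne_zero_iff.2 hi₀) hx'1 hadj fun n G hG => by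
    rw [← hker n G hG, ← hval G]
    exact Subtype.ext_iff
  have halg : Algebra.IsAlgebraic F (FunField P') := alg_of_trdeg (e.isTranscendenceBasis hz) hz'
  -- the equation
  set s : FunField P' := η i with hs
  have hint : IsIntegral F s := (halg.isAlgebraic s).isIntegral
  set p := minpoly F s with hp
  set m := p.natDegree with hm
  obtain ⟨D₁, α, hα, hα0, hα1⟩ := exists_quot hx'1 hadj (fun i : Fin (m + 1) => p.coeff (i : ℕ)) (j' := Fin.last m) (by
    have h1 := minpoly.monic hint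
    exact h1)
  have hα0' : aeval x (α (Fin.last m)) ≠ 0 := by
    rw [← hval]
    exact fun h => hα0 (Subtype.ext h)
  have hrel : ∑ i : Fin (m + 1), aeval x (α i) * s ^ (i : ℕ) = 0 := by
    have h1 := minpoly.aeval F s
    rw [Polynomial.aeval_eq_sum_range, ← Fin.sum_univ_eq_sum_range (fun i => p.coeff i • s ^ i)] at h1
    have h2 : ∀ i : Fin (m + 1), aeval x (α i) * s ^ (i : ℕ) = aeval x (α (Fin.last m)) * (p.coeff (i : ℕ) • s ^ (i : ℕ)) := by
      intro i
      have h3 := congrArg (fun t : F => (t : FunField P')) (hα1 i)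
      simp only [MulMemClass.coe_mul, hval] at h3
      rw [← h3, Algebra.smul_def]
      change _ = _ * (((p.coeff (i : ℕ) : F) : FunField P') * _)
      ring
    have h4 : ∑ i : Fin (m + 1), aeval x (α (Fin.last m)) * (p.coeff (i : ℕ) • s ^ (i : ℕ)) =
        aeval x (α (Fin.last m)) * ∑ i : Fin (m + 1), p.coeff (i : ℕ) • s ^ (i : ℕ) := (Finset.mul_sum _ _ _).symm
    rw [Finset.sum_congr rfl fun i _ => h2 i, h4, h1, mul_zero]
  refine ⟨m, D₁, α, hα, fun h => hα0' ((hker D₁ _ (hα _)).2 h), ?_⟩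
  -- the form
  set G : MvPolynomial (Fin (M + 1)) ℂ := ∑ l : Fin (m + 1), aeval γ (α l) * X i ^ (l : ℕ) * X j ^ (m - (l : ℕ)) with hG
  have hGhom : G.IsHomogeneous (D * D₁ + m) := by
    refine IsHomogeneous.sum _ _ _ fun l _ => ?_
    have h1 := ((((hα l).aeval γ hγ).mul ((isHomogeneous_X ℂ i).pow (l : ℕ))).mul ((isHomogeneous_X ℂ j).pow (m - l)))
    have h2 : D * D₁ + 1 * (l : ℕ) + 1 * (m - l) = D * D₁ + m := by
      have h3 : (l : ℕ) ≤ m := Nat.lt_succ_iff.1 l.2
      omega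
    rw [h2] at h1
    exact h1
  rw [← gen_eq_zero_iff hcj hGhom]
  change aeval η G = 0
  rw [hG, map_sum]
  have h1 : ∀ l : Fin (m + 1), aeval η (aeval γ (α l) * X i ^ (l : ℕ) * X j ^ (m - (l : ℕ))) =
      aeval η (γ i₀) ^ D₁ * (aeval x (α l) * s ^ (l : ℕ)) := by
    intro l
    rw [map_mul, map_mul, map_pow, map_pow, aeval_X, aeval_X, hη1, one_pow, mul_one, hcomp D₁ _ (hα l)]
    ring
  have h2 : ∑ l : Fin (m + 1), aeval η (γ i₀) ^ D₁ * (aeval x (α l) * s ^ (l : ℕ)) =
      aeval η (γ i₀) ^ D₁ * ∑ l : Fin (m + 1), aeval x (α l) * s ^ (l : ℕ) := (Finset.mul_sum _ _ _).symm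
  rw [Finset.sum_congr rfl fun l _ => h1 l, h2, hrel, mul_zero]

variable {P : Ideal (MvPolynomial (Fin (N + 1)) ℂ)} {P' : Ideal (MvPolynomial (Fin (M + 1)) ℂ)} {s s' : ℕ}
  {G : Fin s → MvPolynomial (Fin (N + 1)) ℂ} {G' : Fin s' → MvPolynomial (Fin (M + 1)) ℂ} {p : PN M → PN N}

end Pool.Agent.H7.Qup

end
end
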