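import Pool.Agent.H94.G4T.M37
import Pool.Agent.H94.G4T.M77
import Pool.Agent.H94.G4T.M82
import Pool.Agent.H94.G4T.M84
import Pool.Agent.H94.G4T.M85
import Pool.Agent.H94.G4T.M86

/-! The parts of this file: H13.SM.Dim, H13.SM.Cone, AD.Cone, H62.Qe.Dom. -/

section

/-!
# The dimension is at most `N`

PROOF.  Choose `l` with `coordFun P l ≠ 0` (if `coordFun P i = 0` for all `i` then the function field is
`ℂ` and `n = 0`; or use `h`).  By `adjoin_ratio` the field `FunField P` is generated over `ℂ` by the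
`ratio P i l`, `i ≠ l` (`ratio P l l = 1`), a set with at most `N` elements, so it contains a
transcendence basis indexed by a subset `s` of `{i | i ≠ l}` (`exists_isTranscendenceBasis_subset` /
`exists_isTranscendenceBasis_between` with the fact that `FunField P` is algebraic over the subalgebra
generated by the set), and `n = |s| ≤ N` (`IsTranscendenceBasis.cardinalMk_eq`).
-/

open MvPolynomial
open Pool.Agent.H17GT (coordFun functionField)
open Pool.Agent.H17LG.Variety (FunField ratio)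

noncomputable section

namespace Pool.Agent.H13.SM

variable {N : ℕ} {P : Ideal (MvPolynomial (Fin (N + 1)) ℂ)}

theorem trdeg_le [P.IsPrime] {l : Fin (N + 1)} (h : coordFun P l ≠ 0) {n : ℕ}
    {z : Fin n → FunField P} (hz : IsTranscendenceBasis ℂ z) : n ≤ N := by
  have htop : IntermediateField.adjoin ℂ
      (Set.range fun i : Fin N => ratio P (l.succAbove i) l) = ⊤ := by
    rw [eq_top_iff, ← Pool.Agent.H17R.adjoin_ratio h, IntermediateField.adjoin_le_iff]
    rintro y ⟨i, rfl⟩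
    dsimp only
    rcases Fin.eq_self_or_eq_succAbove l i with hi | ⟨j, hj⟩
    · rw [hi, Pool.Agent.H17R.ratio_self h]
      exact one_mem _
    · rw [hj]
      exact IntermediateField.subset_adjoin _ _ ⟨j, rfl⟩
  have halg : Algebra.IsAlgebraic (IntermediateField.adjoin ℂ
      (Set.range fun i : Fin N => ratio P (l.succAbove i) l)) (FunField P) := by
    rw [htop]
    refine ⟨fun a => ?_⟩
    exact isAlgebraic_algebraMap (⟨a, IntermediateField.mem_top⟩ :
      (⊤ : IntermediateField ℂ (FunField P)))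
  obtain ⟨J, hJ⟩ := Pool.Agent.H92.GT.exists_index halg hz
  have hinj : Function.Injective J := by
    intro a b hab
    apply hJ.1.injective
    dsimp only
    rw [hab]
  have := Fintype.card_le_of_injective J hinj
  simpa using this

end Pool.Agent.H13.SM

end
end

section

/-!
# Charts of the affine cone of a smooth projective variety

PROOF.  `X l ∉ P` as `x l ≠ 0`, so `coordFun P l ≠ 0` (`coordFun_ne_zero_iff`).  Let `w = (x l)⁻¹ • x`: a
point of the cone (`cone_smul`) with `w l = 1`, so `w ∈ pts a`, `a i = ratio P i l` (`mem_pts_iff`).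
`a` generates the field (`adjoin_ratio`).  By `exists_indep` (at `w`) there are `f : Fin (N - n) → _` in
`P`, by `indep_snoc` the family `f, X l - 1` has independent gradients at `w` and all of its members
vanish at `a` (`gen_eq_zero_iff` for homogeneous components; or: `aeval a (f j) = 0` because
of `Homog P`; prove it as in `mem_pts_iff`).  `(N - n + 1) + n = N + 1` by `trdeg_le`.  Let `I, τ` be the
chart of `exists_chart`, and `σ u = x l • τ u`.  Then `σ 0 = x l • w = x`; `σ u` is in the cone and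
`σ u l = x l * τ u l = x l` (`mem_pts_iff`); `σ u (I k) = x l * (w (I k) + u k) = x (I k) + x l * u k`.
For `y` near `x` in the cone: `y l ≠ 0`, `y' = (y l)⁻¹ • y` is in `pts a` and near `w`, so
`y' = τ (fun k => y' (I k) - w (I k))`, and `y = y l • y' = (y l / x l) • σ (...)`, where
`y' (I k) - w (I k) = y (I k) / y l - x (I k) / x l`.
Last clause: for a form `Q` of degree `d` not in `P`, `aeval a Q = gen P l Q ≠ 0` and
`eval (σ u) Q = x l ^ d * eval (τ u) Q`.
-/

open MvPolynomial Topology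
open Pool.Agent.H17GT (coordFun functionField)
open Pool.Agent.H17LG.Variety (FunField ratio)
open Pool.Agent.H62.FC (Homog)

noncomputable section

namespace Pool.Agent.H13.SM

variable {N : ℕ} {P : Ideal (MvPolynomial (Fin (N + 1)) ℂ)}

private theorem Cone_aeval_mem [P.IsPrime] (hP : Homog P) {l : Fin (N + 1)} (h : coordFun P l ≠ 0)
    {Q : MvPolynomial (Fin (N + 1)) ℂ} (hQ : Q ∈ P) : aeval (fun i => ratio P i l) Q = 0 := by
  rw [← MvPolynomial.sum_homogeneousComponent Q, map_sum]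
  refine Finset.sum_eq_zero fun d _ => ?_
  exact (Pool.Agent.H17R.gen_eq_zero_iff h (MvPolynomial.homogeneousComponent_isHomogeneous d Q)).2
    (hP Q hQ d)

private theorem Cone_eval_smul {Q : MvPolynomial (Fin (N + 1)) ℂ} {d : ℕ} (hQ : Q.IsHomogeneous d)
    (c : ℂ) (y : Fin (N + 1) → ℂ) : eval (c • y) Q = c ^ d * eval y Q := by
  have h1 := Pool.Agent.H92.GT.Proj.aeval_scale hQ (c := c) (x := y)
  have h2 : ∀ z : Fin (N + 1) → ℂ, aeval z Q = eval z Q := fun z => by
    rw [MvPolynomial.aeval_eq_eval]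
  rw [h2, h2] at h1
  exact h1

theorem exists_coneChart [P.IsPrime] (hP : Homog P) {n : ℕ} {z : Fin n → FunField P}
    (hz : IsTranscendenceBasis ℂ z)
    (hsm : ∀ y : Fin (N + 1) → ℂ, y ≠ 0 → (∀ Q ∈ P, eval y Q = 0) →
      Module.finrank ℂ (conTan P y) ≤ n + 1)
    {x : Fin (N + 1) → ℂ} (hx : ∀ Q ∈ P, eval x Q = 0) {l : Fin (N + 1)} (hl : x l ≠ 0) :
    ∃ (I : Fin n → Fin (N + 1)) (σ : (Fin n → ℂ) → Fin (N + 1) → ℂ),
      AnalyticAt ℂ σ 0 ∧ σ 0 = x ∧
      (∀ᶠ u in 𝓝 0, (∀ Q ∈ P, eval (σ u) Q = 0) ∧ σ u l = x l ∧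
        ∀ k, σ u (I k) = x (I k) + x l * u k) ∧
      (∀ᶠ y in 𝓝 x, (∀ Q ∈ P, eval y Q = 0) →
        y = (y l / x l) • σ (fun k => y (I k) / y l - x (I k) / x l)) ∧
      ∀ (d : ℕ) (Q : MvPolynomial (Fin (N + 1)) ℂ), Q.IsHomogeneous d → Q ∉ P →
        ¬ ∀ᶠ u in 𝓝 0, eval (σ u) Q = 0 := by
  have hXl : (X l : MvPolynomial (Fin (N + 1)) ℂ) ∉ P := by
    intro h
    have h1 := hx _ h
    rw [eval_X] at h1
    exact hl h1
  have hcf : coordFun P l ≠ 0 := Pool.Agent.H17R.coordFun_ne_zero_iff.2 hXl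
  obtain ⟨w, hw⟩ : ∃ w : Fin (N + 1) → ℂ, w = (x l)⁻¹ • x := ⟨_, rfl⟩
  have hwP : ∀ Q ∈ P, eval w Q = 0 := by
    rw [hw]
    exact cone_smul hP hx _
  have hwl : w l = 1 := by
    rw [hw, Pi.smul_apply, smul_eq_mul, inv_mul_cancel₀ hl]
  have hwk : ∀ i, x l * w i = x i := by
    intro i
    rw [hw, Pi.smul_apply, smul_eq_mul, mul_inv_cancel_left₀ hl]
  have hwx : x l • w = x := by
    rw [hw, smul_inv_smul₀ hl]
  have hw0 : w ≠ 0 := by
    intro h
    rw [h, Pi.zero_apply] at hwl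
    exact zero_ne_one hwl
  have hwp : w ∈ pts (fun i => ratio P i l) := (mem_pts_iff hP hcf).2 ⟨hwl, hwP⟩
  obtain ⟨f, hf, hli⟩ := exists_indep (hsm w hw0 hwP)
  have hli' := indep_snoc hP hwP hwl hf hli
  have hnN : n ≤ N := trdeg_le hcf hz
  have hf' : ∀ j, aeval (fun i => ratio P i l)
      ((Fin.snoc f (X l - 1) : Fin (N - n + 1) → MvPolynomial (Fin (N + 1)) ℂ) j) = 0 := by
    intro j
    refine Fin.lastCases ?_ (fun j => ?_) j
    · rw [Fin.snoc_last, map_sub, aeval_X, map_one, Pool.Agent.H17R.ratio_self hcf, sub_self]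
    · rw [Fin.snoc_castSucc]
      exact Cone_aeval_mem hP hcf (hf j)
  obtain ⟨I, τ, hτa, hτ0, hτ1, hτ2, hτ3⟩ := exists_chart
    (Pool.Agent.H17R.adjoin_ratio hcf) hz (c := N - n + 1) (by rw [Fintype.card_fin]; omega)
    hf' hwp hli'
  refine ⟨I, fun u => x l • τ u, ?_, ?_, ?_, ?_, ?_⟩
  · exact (analyticAt_const (v := x l)).smul hτa
  · simp only [hτ0]
    exact hwx
  · filter_upwards [hτ1] with u hu
    obtain ⟨h1, h2⟩ := hu
    obtain ⟨h3, h4⟩ := (mem_pts_iff hP hcf).1 h1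
    refine ⟨cone_smul hP h4 _, ?_, fun k => ?_⟩
    · rw [Pi.smul_apply, smul_eq_mul, h3, mul_one]
    · rw [Pi.smul_apply, smul_eq_mul, h2 k, mul_add, hwk]
  · have hc : ContinuousAt (fun y : Fin (N + 1) → ℂ => (y l)⁻¹ • y) x := by
      have h1 : ContinuousAt (fun y : Fin (N + 1) → ℂ => y l) x :=
        (continuous_apply l).continuousAt
      exact (h1.inv₀ hl).smul continuousAt_id
    have hc' : Filter.Tendsto (fun y : Fin (N + 1) → ℂ => (y l)⁻¹ • y) (𝓝 x) (𝓝 w) := by
      rw [hw]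
      exact hc
    have hne : ∀ᶠ y in 𝓝 x, (y : Fin (N + 1) → ℂ) l ≠ 0 :=
      (continuous_apply l).continuousAt.eventually_ne hl
    filter_upwards [hc'.eventually hτ2, hne] with y hy hyl hyP
    have h1 : (y l)⁻¹ • y ∈ pts (fun i => ratio P i l) := by
      rw [mem_pts_iff hP hcf]
      refine ⟨?_, cone_smul hP hyP _⟩
      rw [Pi.smul_apply, smul_eq_mul, inv_mul_cancel₀ hyl]
    have h2 := hy h1
    have h3 : (fun k => ((y l)⁻¹ • y) (I k) - w (I k)) =
        fun k => y (I k) / y l - x (I k) / x l := by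
      funext k
      rw [hw, Pi.smul_apply, Pi.smul_apply, smul_eq_mul, smul_eq_mul, div_eq_inv_mul,
        div_eq_inv_mul]
    rw [h3] at h2
    rw [← h2, smul_smul, smul_smul]
    have h4 : y l / x l * x l * (y l)⁻¹ = 1 := by
      field_simp
    rw [h4, one_smul]
  · intro d Q hQ hQP hev
    have h1 : aeval (fun i => ratio P i l) Q ≠ 0 := fun h =>
      hQP ((Pool.Agent.H17R.gen_eq_zero_iff hcf hQ).1 h)
    refine hτ3 Q h1 ?_
    filter_upwards [hev] with u hu
    rw [Cone_eval_smul hQ] at hu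
    exact (mul_eq_zero.1 hu).resolve_left (pow_ne_zero _ hl)

end Pool.Agent.H13.SM

end
end

section

/-!
# AD Cone: charts of the cone of a smooth projective variety of dimension `n`
-/

set_option autoImplicit false

open MvPolynomial Topology Filter Metric

namespace Pool.Agent.AD

open Pool.Agent.H36.BP (EN)
open Pool.Agent.H14.PP (IsCone)
open Pool.Agent.H62.FC (Homog)
open Pool.Agent.H17LG.Variety (FunField)
open Pool.Agent.H13.SM (conTan cone cone_smul exists_coneChart)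
open Pool.Agent.H17EF (LE coneE)

variable {N : ℕ} {P : Ideal (MvPolynomial (Fin (N + 1)) ℂ)}

theorem isCone_coneE (hP : Homog P) : IsCone (coneE P) := by
  refine ⟨?_, ?_, ?_⟩
  · intro h
    exact h.1 (map_zero _)
  · intro x hx c hc
    show (LE N).symm (c • x) ∈ cone P
    rw [map_smul]
    exact ⟨smul_ne_zero hc hx.1, cone_smul hP hx.2 c⟩
  · have h1 : insert (0 : EN N) (coneE P) = insert (0 : EN N) (⋂ Q ∈ P, {y : EN N | eval ((LE N).symm y) Q = 0}) := by
      ext y
      by_cases h0 : y = 0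
      · simp [h0]
      · have h2 : (LE N).symm y ≠ 0 := fun h => h0 ((LE N).symm.map_eq_zero_iff.1 h)
        constructor
        · rintro (h | h)
          · exact absurd h h0
          · right
            simp only [Set.mem_iInter]
            intro Q hQ
            exact h.2 Q hQ
        · rintro (h | h)
          · exact absurd h h0
          · right
            simp only [Set.mem_iInter] at h
            exact ⟨h2, fun Q hQ => h Q hQ⟩
    rw [h1, Set.insert_eq]
    refine isClosed_singleton.union (isClosed_biInter fun Q _ => ?_)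
    exact isClosed_eq ((MvPolynomial.continuous_eval Q).comp (LE N).symm.continuous) continuous_const

/-- The chart with the coordinate ratios `x (I k) / x l` as parameters. -/
theorem exists_ratioGerm [P.IsPrime] (hP : Homog P) {n : ℕ} {z : Fin n → FunField P} (hz : IsTranscendenceBasis ℂ z)
    (hsm : ∀ y : Fin (N + 1) → ℂ, y ≠ 0 → (∀ Q ∈ P, eval y Q = 0) → Module.finrank ℂ (conTan P y) ≤ n + 1)
    {x : EN N} (hx : x ∈ coneE P) {l : Fin (N + 1)} (hl : (LE N).symm x l ≠ 0) :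
    ∃ (I : Fin n → Fin (N + 1)) (σ : Vd n → EN N),
      IsGerm (coneE P) σ (fun y k => (LE N).symm y (I k) / (LE N).symm y l - (LE N).symm x (I k) / (LE N).symm x l) ∧ σ 0 = x := by
  obtain ⟨I, σ, h1, h2, h3, h4, -⟩ := exists_coneChart hP hz hsm hx.2 hl
  have hL : ∀ y : Fin (N + 1) → ℂ, (LE N).symm ((LE N) y) = y := (LE N).symm_apply_apply
  have hσ0 : (LE N) (σ 0) = x := by rw [h2, ContinuousLinearEquiv.apply_symm_apply]
  refine ⟨I, fun u => (LE N) (σ u), ⟨?_, ?_, ?_, ?_, ?_, ?_⟩, hσ0⟩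
  · exact (((LE N) : (Fin (N + 1) → ℂ) →L[ℂ] EN N).analyticAt _).comp h1
  · filter_upwards [h3] with u hu
    show (LE N).symm ((LE N) (σ u)) ∈ cone P
    rw [hL]
    refine ⟨?_, hu.1⟩
    intro h0
    apply hl
    rw [← hu.2.1, h0]
    rfl
  · show AnalyticAt ℂ _ ((LE N) (σ 0))
    rw [hσ0]
    have hpr : ∀ i : Fin (N + 1), AnalyticAt ℂ (fun y : EN N => (LE N).symm y i) x := fun i =>
      ((ContinuousLinearMap.proj (R := ℂ) (φ := fun _ : Fin (N + 1) => ℂ) i).comp ((LE N).symm : EN N →L[ℂ] (Fin (N + 1) → ℂ))).analyticAt x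
    exact AnalyticAt.pi fun k => ((hpr _).div (hpr l) hl).sub analyticAt_const
  · filter_upwards [h3] with u hu
    funext k
    simp only [hL]
    rw [hu.2.1, hu.2.2 k]
    field_simp
    ring
  · rw [hσ0]
    have ht : Tendsto (fun y : EN N => (LE N).symm y) (𝓝 x) (𝓝 ((LE N).symm x)) := (LE N).symm.continuous.tendsto x
    have hne : ∀ᶠ y in 𝓝 ((LE N).symm x), (y : Fin (N + 1) → ℂ) l ≠ 0 := (continuous_apply l).continuousAt.eventually_ne hl
    filter_upwards [ht.eventually h4, ht.eventually hne] with y hy hyl hyX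
    refine ⟨(LE N).symm y l / (LE N).symm x l, div_ne_zero hyl hl, ?_⟩
    have h5 := hy hyX.2
    rw [← map_smul, ← h5, ContinuousLinearEquiv.apply_symm_apply]
  · rw [hσ0]
    have h7 : ∀ᶠ p in 𝓝 (x, (1 : ℂ)), p.2 ≠ 0 := by
      have : ContinuousAt (fun p : EN N × ℂ => p.2) (x, (1 : ℂ)) := continuousAt_snd
      exact this.eventually_ne one_ne_zero
    filter_upwards [h7] with p hp
    funext k
    simp only [map_smul, Pi.smul_apply, smul_eq_mul]
    rw [mul_div_mul_left _ _ hp]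

theorem charts_coneE [P.IsPrime] (hP : Homog P) {n : ℕ} {z : Fin n → FunField P} (hz : IsTranscendenceBasis ℂ z)
    (hsm : ∀ y : Fin (N + 1) → ℂ, y ≠ 0 → (∀ Q ∈ P, eval y Q = 0) → Module.finrank ℂ (conTan P y) ≤ n + 1) :
    Charts n (coneE P) := by
  intro x hx
  obtain ⟨l, hl⟩ : ∃ l, (LE N).symm x l ≠ 0 := by
    by_contra h
    push Not at h
    exact hx.1 (funext h)
  obtain ⟨I, σ, hg, h0⟩ := exists_ratioGerm hP hz hsm hx hl
  obtain ⟨χ, h1, h2⟩ := exists_chart_of_germ (isCone_coneE hP) hg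
  rw [h0] at h1 h2
  exact ⟨χ, h1, h2⟩

end Pool.Agent.AD

end

section

/-!
# Qe Dom: the forms which define a regular map (adapted from `Pool.Agent.H62.Et.Dom`)
-/

set_option autoImplicit false

open Topology Filter MvPolynomial

noncomputable section

namespace Pool.Agent.H62.Qe

open Pool.Agent.H17 (PN VanishesAt HolomorphicInto)
open Pool.Agent.H62.FC (Homog)
open Pool.Agent.H17EF (projVar)
open Pool.Agent.H62.EF (MN)
open Pool.Agent.H62.Et (pn pn_mk pn_injective pn_near pn_continuousAt pn_continuous isCompact_pn)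
open Pool.Agent.H17LG.Variety (FunField)
open Pool.Agent.H17 (vanishesAt_mk_iff)
open Pool.Agent.H7.Bir (vals rmap)

variable {N M : ℕ} {P : Ideal (MvPolynomial (Fin (N + 1)) ℂ)} {P' : Ideal (MvPolynomial (Fin (M + 1)) ℂ)} {p : PN M → PN N}

private theorem Dom_aeval_homog {γ : Fin (N + 1) → MvPolynomial (Fin (M + 1)) ℂ} {D : ℕ} (hγ : ∀ i, (γ i).IsHomogeneous D) {n : ℕ}
    {Q : MvPolynomial (Fin (N + 1)) ℂ} (hQ : Q.IsHomogeneous n) : (aeval γ Q).IsHomogeneous (D * n) :=
  hQ.aeval _ hγ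

private theorem Dom_smul {n : ℕ} {Q : MvPolynomial (Fin (N + 1)) ℂ} (hQ : Q.IsHomogeneous n) (c : ℂ) (x : Fin (N + 1) → ℂ) :
    eval (c • x) Q = c ^ n * eval x Q :=
  Pool.Agent.H17BP.eval_smul_form hQ c x

/-- two systems of forms which represent `p` are proportional at every point -/
private theorem Dom_prop {γ γ' : Fin (N + 1) → MvPolynomial (Fin (M + 1)) ℂ}
    (hrep : ∀ y ∈ projVar P', vals γ y.rep ≠ 0 → p y = rmap γ y) (hrep' : ∀ y ∈ projVar P', vals γ' y.rep ≠ 0 → p y = rmap γ' y)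
    {y : PN M} (hy : y ∈ projVar P') (i j : Fin (N + 1)) :
    eval y.rep (γ i) * eval y.rep (γ' j) = eval y.rep (γ j) * eval y.rep (γ' i) := by
  by_cases h1 : vals γ y.rep = 0
  · have h2 : ∀ i, eval y.rep (γ i) = 0 := fun i => congrFun h1 i
    rw [h2 i, h2 j]
    ring
  by_cases h3 : vals γ' y.rep = 0
  · have h2 : ∀ i, eval y.rep (γ' i) = 0 := fun i => congrFun h3 i
    rw [h2 i, h2 j]
    ring
  have h4 : rmap γ y = rmap γ' y := by
    rw [← hrep y hy h1, ← hrep' y hy h3]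
  unfold Pool.Agent.H7.Bir.rmap at h4
  rw [dif_pos h1, dif_pos h3, Projectivization.mk_eq_mk_iff'] at h4
  obtain ⟨a, ha⟩ := h4
  have h5 : ∀ i, eval y.rep (γ i) = a * eval y.rep (γ' i) := fun i => (congrFun ha i).symm
  rw [h5 i, h5 j]
  ring

/-- forms which represent `p` near some point define a dominant rational map -/
theorem dominant [P.IsPrime] [P'.IsPrime] (hP : Homog P) (hP' : Homog P') (hX : ∃ i, (X i : MvPolynomial (Fin (N + 1)) ℂ) ∉ P)
    (hp : IsReg P P' p) {D : ℕ} {γ : Fin (N + 1) → MvPolynomial (Fin (M + 1)) ℂ} (hγ : ∀ i, (γ i).IsHomogeneous D)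
    (hrep : ∀ y ∈ projVar P', vals γ y.rep ≠ 0 → p y = rmap γ y) (hne : ∃ y ∈ projVar P', vals γ y.rep ≠ 0) (n : ℕ)
    (Q : MvPolynomial (Fin (N + 1)) ℂ) (hQ : Q.IsHomogeneous n) : aeval γ Q ∈ P' ↔ Q ∈ P := by
  obtain ⟨y₀, hy₀, hne⟩ := hne
  have hX' := Pool.Agent.H17EF.exists_coord hy₀
  constructor
  · intro h
    by_contra hQP
    obtain ⟨x, hx, hxQ⟩ := Pool.Agent.H17EF.exists_point hP hX hQP hQ
    obtain ⟨y', hy', rfl⟩ := hp.surj x hx
    obtain ⟨D', γ', hγ', hne', hrep'⟩ := hp.regular y' hy'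
    obtain ⟨j, hj⟩ : ∃ j, eval y₀.rep (γ j) ≠ 0 := by
      by_contra hcon
      push Not at hcon
      exact hne (funext hcon)
    have hjP : γ j ∉ P' := fun h1 => hj (hy₀ _ h1 D (hγ j))
    have hmem : γ j ^ n * aeval γ' Q ∈ P' := by
      by_contra h1
      have h2 : (γ j ^ n * aeval γ' Q).IsHomogeneous (D * n + D' * n) := ((hγ j).pow n).mul (Dom_aeval_homog hγ' hQ)
      obtain ⟨y, hy, hyn⟩ := Pool.Agent.H17EF.exists_point hP' hX' h1 h2
      apply hyn
      have h3 : eval y.rep (aeval γ Q) = 0 := hy _ h _ (Dom_aeval_homog hγ hQ)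
      unfold VanishesAt
      rw [map_mul, map_pow, Pool.Agent.H7.Bir.eval_comp, ← Dom_smul hQ]
      have h4 : eval y.rep (γ j) • vals γ' y.rep = eval y.rep (γ' j) • vals γ y.rep := by
        funext i
        have h5 := Dom_prop hrep hrep' hy j i
        change eval y.rep (γ j) * eval y.rep (γ' i) = eval y.rep (γ' j) * eval y.rep (γ i)
        rw [h5, mul_comm]
      rw [h4, Dom_smul hQ, ← Pool.Agent.H7.Bir.eval_comp, h3, mul_zero]
    rcases Ideal.IsPrime.mem_or_mem inferInstance hmem with h1 | h1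
    · exact hjP (Ideal.IsPrime.mem_of_pow_mem inferInstance n h1)
    · apply hxQ
      rw [hrep' y' hy' hne', Pool.Agent.H7.Bir.vanishesAt_rmap hne' hQ]
      exact hy' _ h1 _ (Dom_aeval_homog hγ' hQ)
  · intro h
    by_contra hcon
    obtain ⟨y, hy, hyn⟩ := Pool.Agent.H17EF.exists_point hP' hX' hcon (Dom_aeval_homog hγ hQ)
    apply hyn
    by_cases h1 : vals γ y.rep = 0
    · unfold VanishesAt
      rw [Pool.Agent.H7.Bir.eval_comp, h1]
      have h2 : eval (p y).rep Q = 0 := hp.maps y hy Q h n hQ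
      have h3 := Dom_smul hQ 0 (p y).rep
      rw [zero_smul, h2, mul_zero] at h3
      exact h3
    · rw [← Pool.Agent.H7.Bir.vanishesAt_rmap h1 hQ, ← hrep y hy h1]
      exact hp.maps y hy Q h n hQ

/-- finitely many systems of forms represent `p` -/
theorem exists_cover (hP' : Homog P') (hp : IsReg P P' p) : ∃ (n : ℕ) (D : Fin n → ℕ) (γ : Fin n → Fin (N + 1) → MvPolynomial (Fin (M + 1)) ℂ),
    (∀ k i, (γ k i).IsHomogeneous (D k)) ∧ (∀ k, ∃ y ∈ projVar P', vals (γ k) y.rep ≠ 0) ∧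
    (∀ k, ∀ y ∈ projVar P', vals (γ k) y.rep ≠ 0 → p y = rmap (γ k) y) ∧ ∀ y ∈ projVar P', ∃ k, vals (γ k) y.rep ≠ 0 := by
  have hloc : ∀ m ∈ pn '' projVar P', ∃ (D : ℕ) (γ : Fin (N + 1) → MvPolynomial (Fin (M + 1)) ℂ) (δ : ℝ), (∀ i, (γ i).IsHomogeneous D) ∧
      (∃ y ∈ projVar P', vals γ y.rep ≠ 0) ∧ (∀ y ∈ projVar P', vals γ y.rep ≠ 0 → p y = rmap γ y) ∧ 0 < δ ∧
      ∀ y : PN M, dist (pn y) m < δ → vals γ y.rep ≠ 0 := by
    rintro _ ⟨y, hy, rfl⟩
    obtain ⟨D, γ, hγ, hne, hrep⟩ := hp.regular y hy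
    have hU : {x : Fin (M + 1) → ℂ | vals γ x ≠ 0} ∈ 𝓝 y.rep := by
      have hc : Continuous (vals γ) := continuous_pi fun i => MvPolynomial.continuous_eval (γ i)
      exact (isOpen_ne.preimage hc).mem_nhds hne
    obtain ⟨δ, hδ, hnear⟩ := pn_near y.rep_nonzero hU
    refine ⟨D, γ, δ, hγ, ⟨y, hy, hne⟩, hrep, hδ, fun y' hy' => ?_⟩
    have hmk : Projectivization.mk ℂ y.rep y.rep_nonzero = y := Projectivization.mk_rep y
    obtain ⟨x', hx', hx0, rfl⟩ := hnear y' (by rw [hmk]; exact hy')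
    obtain ⟨a, ha⟩ := Projectivization.exists_smul_eq_mk_rep ℂ x' hx0
    have h1 : (Projectivization.mk ℂ x' hx0).rep = (a : ℂ) • x' := ha.symm
    rw [h1, Pool.Agent.H7.Bir.vals_smul hγ]
    exact smul_ne_zero (pow_ne_zero _ a.ne_zero) hx'
  choose! D γ δ h1 h2 h3 h4 h5 using hloc
  obtain ⟨t, ht, hcov⟩ := (isCompact_pn hP').elim_nhds_subcover (fun m => Metric.ball m (δ m)) fun m hm => Metric.ball_mem_nhds m (h4 m hm)
  refine ⟨t.card, fun k => D (t.equivFin.symm k : MN M), fun k => γ (t.equivFin.symm k : MN M), fun k i => h1 _ (ht _ (t.equivFin.symm k).2) i,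
    fun k => h2 _ (ht _ (t.equivFin.symm k).2), fun k => h3 _ (ht _ (t.equivFin.symm k).2), fun y hy => ?_⟩
  have h6 := hcov (Set.mem_image_of_mem pn hy)
  rw [Set.mem_iUnion₂] at h6
  obtain ⟨m, hm, hmy⟩ := h6
  refine ⟨t.equivFin ⟨m, hm⟩, ?_⟩
  change vals (γ (t.equivFin.symm (t.equivFin ⟨m, hm⟩) : MN M)) y.rep ≠ 0
  rw [Equiv.symm_apply_apply]
  exact h5 m (ht m hm) y hmy

/-- The forms with `T (x) = 0` for all `x = p y` with `R' (y) = 0`. -/
theorem exists_image_form {P : Ideal (MvPolynomial (Fin (N + 1)) ℂ)} [P.IsPrime] {P' : Ideal (MvPolynomial (Fin (M + 1)) ℂ)} [P'.IsPrime]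
    (hP : Homog P) (hP' : Homog P') (hX : ∃ i, (X i : MvPolynomial (Fin (N + 1)) ℂ) ∉ P) (hz : ∃ z : Fin 2 → FunField P, IsTranscendenceBasis ℂ z)
    (hz' : ∃ z' : Fin 2 → FunField P', IsTranscendenceBasis ℂ z') {p : PN M → PN N} (hp : IsReg P P' p) {n' : ℕ}
    {R' : MvPolynomial (Fin (M + 1)) ℂ} (hR' : R'.IsHomogeneous n') (hRP' : R' ∉ P') :
    ∃ (T : MvPolynomial (Fin (N + 1)) ℂ) (n : ℕ), T.IsHomogeneous n ∧ T ∉ P ∧ ∀ y ∈ projVar P', VanishesAt R' y → VanishesAt T (p y) := by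
  classical
  obtain ⟨n, D, γ, hγ, hγne, hrep, hcov⟩ := exists_cover hP' hp
  choose R m hR hRP hRev using fun k => Pool.Agent.H19OL.exists_norm_form hz hz' (hγ k)
    (dominant hP hP' hX hp (hγ k) (hrep k) (hγne k)) hR' hRP'
  refine ⟨∏ k, R k, ∑ k, m k, MvPolynomial.IsHomogeneous.prod _ _ _ fun k _ => hR k, ?_, ?_⟩
  · intro h
    obtain ⟨k, -, hk⟩ := ((inferInstance : P.IsPrime).prod_mem_iff).1 h
    exact hRP k hk
  · intro y hy hyR
    obtain ⟨k, hk⟩ := hcov y hy
    have h1 : VanishesAt (R k) (p y) := by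
      rw [hrep k y hy hk]
      unfold Pool.Agent.H7.Bir.rmap
      rw [dif_pos hk, vanishesAt_mk_iff (hR k)]
      refine hRev k y.rep y.rep_nonzero (fun Q hQ => ?_) hyR
      rw [← MvPolynomial.sum_homogeneousComponent Q, map_sum]
      exact Finset.sum_eq_zero fun i _ => hy _ (hP' Q hQ i) i (homogeneousComponent_isHomogeneous i Q)
    unfold VanishesAt at h1 ⊢
    rw [map_prod]
    exact Finset.prod_eq_zero (Finset.mem_univ k) h1

end Pool.Agent.H62.Qe

end
end
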