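import Pool.Agent.H94.G4T.M42
import Pool.Agent.H94.G4T.M58
import Pool.Agent.H94.G4T.M60
import Pool.Agent.H94.G4T.M72

/-! The parts of this file: G3.R.Bd, TG.Y.YCap. -/

section

/-!
# G3 R Bd: divided differences of the scalars

`kil_dd`: divided differences, divided by `Nb n → ∞`, kill holomorphic functions (`dd_cauchy` for `ζ ↦ h (y n + ζ w + e)`, with a bound of `h` near the point).
`scal_bd`: at a point `z₀` with `y₀ + z₀ a ∈ Gd D (δ / 2)` the divided differences of order `m + 1` of the scalar `Ψ (nv v (φ y))`, `Ψ` from `exists_prm_unif`, are at most `C exp (-c |x|²) Nb`, if those of the sheet are at most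
`Nb`: `dd_nv` (from a unit vector with `pr v' = φ (y + x a)` to `v`; the lower orders by `DDb` on `Gd D (δ / 4)`), then `dd_comp` with `Ψ (x, ζ) = Ψ x`; `exp (-c |y₀ + z₀ a|²) ≤ C' exp (-(c / 2) |x|²)` for
`|x - z₀| < 1` (`‖a‖ = 1`).
-/

set_option autoImplicit false

open Topology Filter Metric

namespace Pool.Agent.G3.R

open Pool.Agent.H36.BP (EN fs wd)
open Pool.Agent.H14.PP (IsCone CurveAt Tan)
open Pool.Agent.H62.EF (MN pr)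
open Pool.Agent.AD (Vd Chart Charts IsGerm)
open Pool.Agent.TG
open Pool.Agent.G3.C (Gc nv nd nv_pr)
open Pool.Agent.G3.A

variable {N k : ℕ} {X : Set (EN N)} {Λ : AddSubgroup (Vd (k + 1))} {u : EN N → Vd (k + 1)} {D B Bad : Set (Vd (k + 1))} {a b w : Vd (k + 1)} {E : Submodule ℝ (Vd (k + 1))}
  {SS : Set (Vd (k + 1) → MN N)} {J : ℕ} {α : Fin J → VForm X Λ u} {c₀ C₀ ρ δ : ℝ}

theorem kil_dd (w : Vd (k + 1)) {m : ℕ} {ι : Type} {l : Filter ι} {σ : ι → ℕ → ℝ} {r : ι → ℝ} (hσ : ∀ n, Nod m (σ n) (r n)) (hr : Tendsto r l (𝓝 0)) {Nb : ι → ℝ} (hN : Tendsto Nb l atTop)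
    {y : ι → Vd (k + 1)} {y₁ : Vd (k + 1)} (hy : Tendsto y l (𝓝 y₁)) {h : Vd (k + 1) → ℂ} (hh : AnalyticAt ℂ h y₁) :
    ∃ t : ℝ, 0 < t ∧ ∀ ε : ℝ, 0 < ε → ∀ᶠ n in l, ∀ e : Vd (k + 1), ‖e‖ < t → ‖(Nb n : ℂ)⁻¹ * dd m (σ n) (fun s : ℝ => h (y n + (s : ℂ) • w + e))‖ ≤ ε := by
  obtain ⟨ρ, hρ, hρa⟩ : ∃ ρ : ℝ, 0 < ρ ∧ ∀ x ∈ ball y₁ ρ, AnalyticAt ℂ h x ∧ ‖h x‖ ≤ ‖h y₁‖ + 1 := by
    have h1 := hh.eventually_analyticAt
    have h2 : ∀ᶠ x in 𝓝 y₁, ‖h x‖ < ‖h y₁‖ + 1 := hh.continuousAt.norm.eventually (gt_mem_nhds (by linarith only))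
    obtain ⟨ρ, hρ, hsub⟩ := Metric.eventually_nhds_iff_ball.1 (h1.and h2)
    exact ⟨ρ, hρ, fun x hx => ⟨(hsub x hx).1, (hsub x hx).2.le⟩⟩
  set M : ℝ := ‖h y₁‖ + 1 with hM
  have hM0 : 0 < M := by positivity
  set r₀ : ℝ := ρ / (8 * (‖w‖ + 1)) with hr₀
  have hr₀pos : 0 < r₀ := by positivity
  have hr₀w : 2 * r₀ * ‖w‖ ≤ ρ / 4 := by
    rw [hr₀]
    have hw1 : 0 < ‖w‖ + 1 := by positivity
    rw [mul_div_assoc', div_mul_eq_mul_div, div_le_iff₀ (by positivity)]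
    nlinarith only [hρ, norm_nonneg w]
  refine ⟨ρ / 4, by positivity, fun ε hε => ?_⟩
  have e1 : ∀ᶠ n in l, ‖y n - y₁‖ < ρ / 4 := by
    have h1 := hy.sub_const y₁
    rw [sub_self] at h1
    have h2 := h1.norm
    rw [norm_zero] at h2
    exact h2.eventually (gt_mem_nhds (by positivity))
  have e2 : ∀ᶠ n in l, r n < r₀ := hr.eventually (gt_mem_nhds hr₀pos)
  have e3 : ∀ᶠ n in l, max 1 (M * 2 / r₀ ^ m / ε) ≤ Nb n := hN.eventually_ge_atTop _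
  filter_upwards [e1, e2, e3] with n h1 h2 h3 e he
  have hmem : ∀ ζ ∈ ball (0 : ℂ) (2 * r₀), y n + ζ • w + e ∈ ball y₁ ρ := by
    intro ζ hζ
    rw [mem_ball_zero_iff] at hζ
    rw [mem_ball, dist_eq_norm]
    have h4 : y n + ζ • w + e - y₁ = (y n - y₁) + ζ • w + e := by abel
    rw [h4]
    have h5 : ‖ζ • w‖ ≤ ρ / 4 := by
      rw [norm_smul]
      exact (mul_le_mul_of_nonneg_right hζ.le (norm_nonneg w)).trans hr₀w
    calc ‖(y n - y₁) + ζ • w + e‖ ≤ ‖y n - y₁‖ + ‖ζ • w‖ + ‖e‖ := norm_add₃_le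
      _ < ρ := by linarith only [hρ, h1, he, h5]
  have h4 := dd_cauchy (g := fun ζ : ℂ => h (y n + ζ • w + e)) hr₀pos (M := M) (m := m) (σ := σ n)
    (fun ζ hζ => ((hρa _ (hmem ζ hζ)).1.differentiableAt.comp ζ (by fun_prop : DifferentiableAt ℂ (fun ζ : ℂ => y n + ζ • w + e) ζ)).differentiableWithinAt)
    (fun ζ hζ => (hρa _ (hmem ζ hζ)).2) ((hσ n).mono le_rfl h2.le)
  have hN1 : (1 : ℝ) ≤ Nb n := (le_max_left _ _).trans h3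
  have hN0 : 0 < Nb n := by linarith only [hN1]
  have hN2 : M * 2 / r₀ ^ m / ε ≤ Nb n := (le_max_right _ _).trans h3
  rw [norm_mul, norm_inv, Complex.norm_real, Real.norm_eq_abs, abs_of_pos hN0, inv_mul_le_iff₀ hN0]
  rw [div_le_iff₀ hε] at hN2
  exact h4.trans hN2

/-- a unit vector over a point of the fibre -/
theorem exists_unit (hX : IsCone X) (hu : TMap X Λ u) {y : Vd (k + 1)} {m : MN N} (hm : m ∈ Fb X Λ u y) :
    ∃ v ∈ X, ‖v‖ = 1 ∧ pr v = m ∧ u v - y ∈ Λ := by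
  obtain ⟨x, hx, hxm, hxy⟩ := hm
  have hx0 : x ≠ 0 := fun h => hX.zero_notMem (h ▸ hx)
  have hn : ‖x‖ ≠ 0 := norm_ne_zero_iff.2 hx0
  have hc : ((‖x‖⁻¹ : ℝ) : ℂ) ≠ 0 := by
    rw [Complex.ofReal_ne_zero]
    exact inv_ne_zero hn
  refine ⟨((‖x‖⁻¹ : ℝ) : ℂ) • x, hX.smul_mem x hx _ hc, ?_, ?_, ?_⟩
  · rw [norm_smul, Complex.norm_real, norm_inv, norm_norm, inv_mul_cancel₀ hn]
  · rw [Pool.Agent.H62.EF.pr_smul _ hc, hxm]
  · have h1 := Λ.add_mem (hu.smul x hx _ hc) hxy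
    rwa [sub_add_sub_cancel] at h1

/-- the bounds of all orders at most `m` -/
theorem ddb_all {D T : Set (Vd (k + 1))} {m : ℕ} (hm : ∀ j ≤ m, DDb D T SS w j) {δ' : ℝ} (hδ : 0 < δ') :
    ∃ r C : ℝ, 0 < r ∧ 0 ≤ C ∧ ∀ j ≤ m, ∀ φ ∈ SS, ∀ y ∈ T, y ∈ Gd D δ' → ∀ v : EN N, ‖v‖ = 1 → pr v = φ y → ∀ σ : ℕ → ℝ, Nod j σ r →
      ‖dd j σ fun s : ℝ => nv v (φ (y + (s : ℂ) • w))‖ ≤ C := by
  induction m with
  | zero =>
    obtain ⟨r, C, hr, hC, h⟩ := hm 0 le_rfl δ' hδ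
    refine ⟨r, C, hr, hC, fun j hj => ?_⟩
    obtain rfl : j = 0 := Nat.le_zero.1 hj
    exact h
  | succ m ih =>
    obtain ⟨r, C, hr, hC, h⟩ := ih fun j hj => hm j (by omega)
    obtain ⟨r', C', hr', hC', h'⟩ := hm (m + 1) le_rfl δ' hδ
    refine ⟨min r r', max C C', lt_min hr hr', le_max_of_le_left hC, fun j hj φ hφ y hy hyD v hv hv' σ hσ => ?_⟩
    rcases Nat.lt_or_ge j (m + 1) with hlt | hge
    · exact (h j (by omega) φ hφ y hy hyD v hv hv' σ (hσ.mono le_rfl (min_le_left _ _))).trans (le_max_left _ _)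
    · obtain rfl : j = m + 1 := by omega
      exact (h' φ hφ y hy hyD v hv hv' σ (hσ.mono le_rfl (min_le_right _ _))).trans (le_max_right _ _)

/-- the weight -/
theorem exp_cmp {c R₁ Y Z : ℝ} (hc : 0 < c) (hY : 0 ≤ Y) (hZ : 0 ≤ Z) (h : Z ≤ Y + R₁) :
    Real.exp (-(c * Y ^ 2)) ≤ Real.exp (c * R₁ ^ 2) * Real.exp (-(c / 2 * Z ^ 2)) := by
  rw [← Real.exp_add]
  refine Real.exp_le_exp.2 ?_
  have h1 : Z ^ 2 ≤ (Y + R₁) ^ 2 := pow_le_pow_left₀ hZ h 2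
  have h2 : (Y + R₁) ^ 2 ≤ 2 * Y ^ 2 + 2 * R₁ ^ 2 := by nlinarith only [sq_nonneg (Y - R₁)]
  nlinarith only [hc, h1, h2]

end Pool.Agent.G3.R

end

section

/-!
# TG Y YCap: uniform charts of the slab over an annulus

At `x₀ ∈ Y` with `z₀ = wl x₀`, `r₁ ≤ ‖z₀‖ ≤ r₂`: `p + z₀ • e ∉ D` (`L.off`), so `x₀` is `IsStr` (`L.sub`), and `x₀ ∈ T.W k'` for some `k'` (`TubeG.cover`, `z₀ ∈ ball 0 s'`, `wl x₀ - z₀ = 0`).  `T.W k'` is an open cone: there is `η > 0` such that `x ∈ X`, `dist (pr x) (pr x₀) < η` implies `x ∈ T.W k'`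
(`near_of_pr`, `TubeG.W_smul`).  `exists_str_chart` with this `η`: `χ`, `c' = p + z₀ • e`, `χ.q x₀ = 0`; `slice_chart` (`q₀ = 0`): `χ'`, all points of which are points of `χ`, hence in `T.W k'`; `x₀ ∈ χ'.U`, `χ'.q x₀ = 0`.  `Pool.Agent.H62.EL.cap_of_small` for `Y` with `η = 2 s`
(`‖mo z₀ r 1 0 y - z₀‖ = ‖r y.1‖ < 2 s` from `‖z₀ + r y.1‖ < s`, `‖z₀‖ < s`; `L.big`) gives `r_{x₀} > 0` with `EL.Cap .. z₀ (pr x₀) r_{x₀}`.
Compactness: the set `{x ∈ Y : ‖x‖ = 1, r₁ ≤ ‖wl x‖ ≤ r₂}` is compact (`Ln.isCone`, `compact_unit`; `wl` is continuous on `Y` by `Ln.exists_loc`); if the assertion fails there are `x_n` in it without a chart for `r = 1/(n+1)`, `x_n → x₀` along a subsequence, `wl x_n → wl x₀`, `pr x_n → pr x₀`, and the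
chart of `x₀` is `EL.Cap` at `(wl x_n, pr x_n)` with radius `r_{x₀} / 2` for large `n`: contradiction.  (An arbitrary `x₀ ∈ Y` is a multiple of a unit vector: `wl_smul`, `pr_smul`.)
-/

set_option autoImplicit false

open Topology Filter Metric

namespace Pool.Agent.TG

open Pool.Agent.H36.BP (EN fs wd)
open Pool.Agent.H14.PP (IsCone CurveAt Tan)
open Pool.Agent.H62.EF (MN pr)
open Pool.Agent.AD (Vd Chart Charts IsGerm)

variable {N k : ℕ}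

variable {X : Set (EN N)} {Λ : AddSubgroup (Vd (k + 1))} {u : EN N → Vd (k + 1)} {D B : Set (Vd (k + 1))}
  {κ : Vd (k + 1) → Vd (k + 1)} {p e : Vd (k + 1)} {c : ℂ → Vd (k + 1)} {Γ₀ : AddSubgroup ℂ} {s : ℝ}

/-- the chart at one point -/
private theorem ycap_at (L : Ln X Λ u D κ p e c Γ₀ s) {T : Pool.Agent.H62.EL.TubeData (Yl X Λ u p e s)} {s' η : ℝ}
    (hT : Pool.Agent.H62.EL.TubeG Γ₀ (wl Λ u p e s) 0 s' η T) {x₀ : EN N} (hx₀ : x₀ ∈ Yl X Λ u p e s) (h0 : wl Λ u p e s x₀ ≠ 0)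
    (hs : ‖wl Λ u p e s x₀‖ < s) (hs' : ‖wl Λ u p e s x₀‖ < s') :
    ∃ (r : ℝ) (χ : Pool.Agent.H14.PP.Chart (Yl X Λ u p e s)) (c' : ℂ) (ρ : ℝ) (k' : Fin T.m), 0 < r ∧
        Pool.Agent.H62.EL.Cap Γ₀ (wl Λ u p e s) χ c' ρ (wl Λ u p e s x₀) (pr x₀) r ∧ ∀ y ∈ ball (0 : ℂ × ℂ) 2, χ.σ y ∈ T.W k' := by
  set z₀ := wl Λ u p e s x₀ with hz₀
  have hspec := Ln.wl_spec hx₀
  have hoff := L.off z₀ h0 hs.le
  have hstr := L.sub _ hoff x₀ hx₀.1 hspec.2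
  have hz₀Γ : wl Λ u p e s x₀ - z₀ ∈ Γ₀ := by
    rw [hz₀, sub_self]
    exact Γ₀.zero_mem
  obtain ⟨k', hk'⟩ := hT.cover z₀ (mem_ball_zero_iff.2 hs') x₀ hx₀ hz₀Γ
  have hx₀0 : x₀ ≠ 0 := ne_zero L.cone hx₀.1
  obtain ⟨η₁, hη₁, hnear⟩ := Pool.Agent.H62.EF.near_of_pr hx₀0 ((hT.W_open k').mem_nhds hk')
  have hW : ∀ x : EN N, x ≠ 0 → dist (pr x) (pr x₀) < η₁ → x ∈ T.W k' := by
    intro x hx hd
    obtain ⟨a, ha, hax⟩ := hnear x hx hd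
    have h1 := hT.W_smul k' _ hax a⁻¹ (inv_ne_zero ha)
    rwa [smul_smul, inv_mul_cancel₀ ha, one_smul] at h1
  obtain ⟨χ, ρ, hU, hq0, hStr, hχ⟩ := exists_str_chart L.cone L.tor hstr hη₁
  have hms0 : ms (p + z₀ • e) ρ (0 : Vd (k + 2)) = p + z₀ • e := by
    have h1 : tl (0 : Vd (k + 2)) = 0 := rfl
    unfold ms
    rw [h1, smul_zero, add_zero]
  obtain ⟨χ', r, hMon, hσ, hsl⟩ := L.slice_chart χ hStr (q₀ := 0) (mem_ball_self two_pos) hs hms0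
  obtain ⟨hU', hq'⟩ := hsl x₀ hx₀ hU rfl (by rw [hq0]; exact hms0)
  have hq'0 : χ'.q x₀ = 0 := by
    rw [hq', hq0]
    rfl
  have hσW : ∀ y ∈ ball (0 : ℂ × ℂ) 2, χ'.σ y ∈ T.W k' := by
    intro y hy
    obtain ⟨-, h2, h3⟩ := hσ y hy
    rw [h3]
    exact hW _ (ne_zero L.cone (χ.σ_mem _ h2).1) (hχ _ h2).1
  obtain ⟨r', hr', hCap⟩ := Pool.Agent.H62.EL.cap_of_small L.isCone L.torusMap hx₀ hz₀Γ hMon hU' hq'0 (η := 2 * s)
    (fun l hl hln => L.big l hl (by linarith [L.pos])) (fun y hy => by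
      obtain ⟨h1, -, -⟩ := hσ y hy
      have h2 : Pool.Agent.H62.EL.mo z₀ r 1 0 y - z₀ = (z₀ + r * y.1) - z₀ := by
        unfold Pool.Agent.H62.EL.mo
        ring
      rw [h2]
      refine (norm_sub_le _ _).trans_lt ?_
      linarith)
  exact ⟨r', χ', z₀, r, k', hr', hCap, hσW⟩

theorem Ln.wl_cont (L : Ln X Λ u D κ p e c Γ₀ s) : ContinuousOn (wl Λ u p e s) (Yl X Λ u p e s) := by
  intro x hx
  obtain ⟨W, hW, hW'⟩ := L.exists_loc hx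
  have h1 : ContinuousWithinAt W (Yl X Λ u p e s) x := hW.continuousAt.continuousWithinAt
  refine h1.congr_of_eventuallyEq ?_ ?_
  · filter_upwards [nhdsWithin_le_nhds hW', self_mem_nhdsWithin] with y hy hyY
    exact hy hyY
  · exact hW'.self_of_nhds hx

theorem Ln.ycap (L : Ln X Λ u D κ p e c Γ₀ s) {T : Pool.Agent.H62.EL.TubeData (Yl X Λ u p e s)} {s' η : ℝ}
    (hT : Pool.Agent.H62.EL.TubeG Γ₀ (wl Λ u p e s) 0 s' η T) {r₁ r₂ : ℝ} (hr₁ : 0 < r₁) (hr₂ : r₂ < s) (hr₂' : r₂ < s') :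
    ∃ r : ℝ, 0 < r ∧ ∀ x₀ ∈ Yl X Λ u p e s, r₁ ≤ ‖wl Λ u p e s x₀‖ → ‖wl Λ u p e s x₀‖ ≤ r₂ →
      ∃ (χ : Pool.Agent.H14.PP.Chart (Yl X Λ u p e s)) (c' : ℂ) (ρ : ℝ) (k' : Fin T.m),
        Pool.Agent.H62.EL.Cap Γ₀ (wl Λ u p e s) χ c' ρ (wl Λ u p e s x₀) (pr x₀) r ∧ ∀ y ∈ ball (0 : ℂ × ℂ) 2, χ.σ y ∈ T.W k' := by
  set K : Set (EN N) := (Yl X Λ u p e s ∩ sphere (0 : EN N) 1) ∩ (fun x => ‖wl Λ u p e s x‖) ⁻¹' Set.Icc r₁ r₂ with hK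
  have hK0 : IsCompact (Yl X Λ u p e s ∩ sphere (0 : EN N) 1) := compact_unit L.isCone
  have hcont : ContinuousOn (fun x => ‖wl Λ u p e s x‖) (Yl X Λ u p e s ∩ sphere (0 : EN N) 1) :=
    (L.wl_cont.mono Set.inter_subset_left).norm
  have hKc : IsCompact K := hK0.of_isClosed_subset (hcont.preimage_isClosed_of_isClosed hK0.isClosed isClosed_Icc) Set.inter_subset_left
  have hmain : ∃ r : ℝ, 0 < r ∧ ∀ x₀ ∈ K, ∃ (χ : Pool.Agent.H14.PP.Chart (Yl X Λ u p e s)) (c' : ℂ) (ρ : ℝ) (k' : Fin T.m),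
        Pool.Agent.H62.EL.Cap Γ₀ (wl Λ u p e s) χ c' ρ (wl Λ u p e s x₀) (pr x₀) r ∧ ∀ y ∈ ball (0 : ℂ × ℂ) 2, χ.σ y ∈ T.W k' := by
    refine hKc.induction_on (p := fun A => ∃ r : ℝ, 0 < r ∧ ∀ x₀ ∈ A, ∃ (χ : Pool.Agent.H14.PP.Chart (Yl X Λ u p e s)) (c' : ℂ) (ρ : ℝ) (k' : Fin T.m),
        Pool.Agent.H62.EL.Cap Γ₀ (wl Λ u p e s) χ c' ρ (wl Λ u p e s x₀) (pr x₀) r ∧ ∀ y ∈ ball (0 : ℂ × ℂ) 2, χ.σ y ∈ T.W k')
      ⟨1, one_pos, fun x hx => absurd hx (Set.notMem_empty x)⟩ ?_ ?_ ?_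
    · rintro A A' hAA ⟨r, hr, h⟩
      exact ⟨r, hr, fun x hx => h x (hAA hx)⟩
    · rintro A A' ⟨r, hr, h⟩ ⟨r', hr', h'⟩
      refine ⟨min r r', lt_min hr hr', ?_⟩
      rintro x (hx | hx)
      · obtain ⟨χ, c', ρ, k', hc, hW⟩ := h x hx
        exact ⟨χ, c', ρ, k', ⟨hc.mon, fun z hz y hy hyz hd =>
          hc.cap z (closedBall_subset_closedBall (min_le_left _ _) hz) y hy hyz (hd.trans (min_le_left _ _))⟩, hW⟩
      · obtain ⟨χ, c', ρ, k', hc, hW⟩ := h' x hx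
        exact ⟨χ, c', ρ, k', ⟨hc.mon, fun z hz y hy hyz hd =>
          hc.cap z (closedBall_subset_closedBall (min_le_right _ _) hz) y hy hyz (hd.trans (min_le_right _ _))⟩, hW⟩
    · intro x hx
      have hxY : x ∈ Yl X Λ u p e s := hx.1.1
      have hx1 : r₁ ≤ ‖wl Λ u p e s x‖ := hx.2.1
      have hx2 : ‖wl Λ u p e s x‖ ≤ r₂ := hx.2.2
      obtain ⟨r, χ, c', ρ, k', hr, hc, hW⟩ := ycap_at L hT hxY (by
        intro h0
        rw [h0, norm_zero] at hx1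
        linarith) (lt_of_le_of_lt hx2 hr₂) (lt_of_le_of_lt hx2 hr₂')
      have h1 : ∀ᶠ y in 𝓝[K] x, ‖wl Λ u p e s y - wl Λ u p e s x‖ < r / 2 := by
        have h2 : ContinuousWithinAt (wl Λ u p e s) K x := (L.wl_cont x hxY).mono fun y hy => hy.1.1
        have h3 := h2.eventually (Metric.ball_mem_nhds _ (half_pos hr))
        filter_upwards [h3] with y hy
        rwa [dist_eq_norm] at hy
      have h2 : ∀ᶠ y in 𝓝[K] x, dist (pr y) (pr x) < r / 2 :=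
        nhdsWithin_le_nhds ((Pool.Agent.H62.EF.continuousAt_pr (ne_zero L.cone hxY.1)).eventually (Metric.ball_mem_nhds _ (half_pos hr)))
      refine ⟨{y | ‖wl Λ u p e s y - wl Λ u p e s x‖ < r / 2 ∧ dist (pr y) (pr x) < r / 2}, h1.and h2, r / 2, half_pos hr, ?_⟩
      rintro y ⟨hy1, hy2⟩
      refine ⟨χ, c', ρ, k', ⟨hc.mon, fun z hz w hw hwz hd => hc.cap z ?_ w hw hwz ?_⟩, hW⟩
      · rw [mem_closedBall, dist_eq_norm] at hz ⊢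
        have e1 : z - wl Λ u p e s x = (z - wl Λ u p e s y) + (wl Λ u p e s y - wl Λ u p e s x) := by ring
        rw [e1]
        refine (norm_add_le _ _).trans ?_
        linarith
      · have := dist_triangle (pr w) (pr y) (pr x)
        linarith
  obtain ⟨r, hr, h⟩ := hmain
  refine ⟨r, hr, fun x₀ hx₀ h1 h2 => ?_⟩
  obtain ⟨a, ha, haY, haS⟩ := exists_unit L.isCone hx₀
  have hw := L.wl_smul hx₀ ha
  obtain ⟨χ, c', ρ, k', hc, hW⟩ := h (a • x₀) ⟨⟨haY, haS⟩, by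
    show ‖wl Λ u p e s (a • x₀)‖ ∈ Set.Icc r₁ r₂
    rw [hw]
    exact ⟨h1, h2⟩⟩
  rw [hw, Pool.Agent.H62.EF.pr_smul x₀ ha] at hc
  exact ⟨χ, c', ρ, k', hc, hW⟩

end Pool.Agent.TG

end
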