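import Pool.Agent.H94.G4T.G3.A.Idn
import Pool.Agent.H94.G4T.G3.R.Nv
import Pool.Agent.H94.G4T.M08
import Pool.Agent.H94.G4T.M58

/-! The parts of this file: G3.R.ShtF, G3.R.Loc. -/

section

/-!
# G3 R ShtF: basic facts on a finite set of sheets

`exists_shs`: from `sht_finite`, `sht_add`.  `Shs.unif`: uniform continuity on `T ∩ Gd D δ`, `T = Tb b E` (closed: finite dimension; compactness of the bounded part, finitely many sheets, `cpt`, `tr`).
`Shs.lm`: the curves `φ (y n + z a)` converge.  `Shs.red`: translation of a point of `T` to a bounded point.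
-/

set_option autoImplicit false

open Topology Filter Metric

namespace Pool.Agent.G3.R

open Pool.Agent.H36.BP (EN fs wd)
open Pool.Agent.H14.PP (IsCone CurveAt Tan)
open Pool.Agent.H62.EF (MN pr)
open Pool.Agent.AD (Vd Chart Charts IsGerm)
open Pool.Agent.TG
open Pool.Agent.G3.C (Gc nv nd nv_pr)
open Pool.Agent.G3.A

variable {N k : ℕ} {X : Set (EN N)} {Λ : AddSubgroup (Vd (k + 1))} {u : EN N → Vd (k + 1)} {D B Bad : Set (Vd (k + 1))} {a b w : Vd (k + 1)} {E : Submodule ℝ (Vd (k + 1))}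
  {SS : Set (Vd (k + 1) → MN N)} {J : ℕ} {α : Fin J → VForm X Λ u} {c₀ C₀ ρ δ : ℝ}

theorem tb_closed (b : Vd (k + 1)) (E : Submodule ℝ (Vd (k + 1))) : IsClosed (Tb b E) := by
  have h : Tb b E = (fun y : Vd (k + 1) => y - b) ⁻¹' (E : Set (Vd (k + 1))) := rfl
  rw [h]
  exact (Submodule.closed_of_finiteDimensional E).preimage (continuous_id.sub continuous_const)

theorem tb_add {y e : Vd (k + 1)} (hy : y ∈ Tb b E) (he : e ∈ E) : y + e ∈ Tb b E := by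
  show y + e - b ∈ E
  have h : y + e - b = (y - b) + e := by abel
  rw [h]
  exact E.add_mem hy he

theorem smul_mem_E (hw : w ∈ E) (s : ℝ) : (s : ℂ) • w ∈ E := by
  have h : (s : ℂ) • w = s • w := by
    ext i
    simp
  rw [h]
  exact E.smul_mem s hw

private theorem sf_sub {y e : Vd (k + 1)} (hy : y ∈ Tb b E) (he : e ∈ E) : y - e ∈ Tb b E := by
  rw [sub_eq_add_neg]
  exact tb_add hy (E.neg_mem he)

private theorem sf_gd (hL : LG Λ D Bad a) {δ' : ℝ} {y l : Vd (k + 1)} (hl : l ∈ Λ) : y + l ∈ Gd D δ' ↔ y ∈ Gd D δ' := by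
  constructor
  · intro h b hb
    have h1 := h _ (hL.D_inv b hb l hl)
    rwa [add_sub_add_right_eq_sub] at h1
  · intro h b hb
    have h1 := h _ (hL.D_inv b hb (-l) (Λ.neg_mem hl))
    have h2 : y - (b + -l) = y + l - b := by abel
    rwa [h2] at h1

private theorem sf_unif {φ : Vd (k + 1) → MN N} (hφ : Sht X Λ u D a (Tb b E) φ) {δ' η : ℝ} (hδ : 0 < δ') (hη : 0 < η) (R : ℝ) :
    ∃ r : ℝ, 0 < r ∧ ∀ y ∈ Tb b E, y ∈ Gd D δ' → ‖y - b‖ ≤ R → ∀ y' ∈ Tb b E, ‖y' - y‖ ≤ r → dist (φ y') (φ y) ≤ η := by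
  have hT := tb_closed b E
  set K : Set (Tb b E) := {y | (y : Vd (k + 1)) ∈ Gd D δ' ∧ ‖(y : Vd (k + 1)) - b‖ ≤ R} with hK
  have hKc : IsCompact K := by
    have h1 : IsCompact (Gd D δ' ∩ closedBall b R) := (isCompact_closedBall b R).inter_left (gd_closed D δ')
    have h2 : K = Subtype.val ⁻¹' (Gd D δ' ∩ closedBall b R) := by
      ext y
      simp [hK, mem_closedBall, dist_eq_norm]
    rw [h2]
    exact hT.isClosedEmbedding_subtypeVal.isCompact_preimage h1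
  have hc : ∀ y ∈ K, ContinuousAt (fun y : Tb b E => φ y) y := by
    intro y hy
    have h1 := hφ.cont y y.2 (gd_notMem hδ hy.1)
    exact continuousWithinAt_iff_continuousAt_domRestrict φ y.2 |>.1 h1
  have h3 := hKc.uniformContinuousAt_of_continuousAt (fun y : Tb b E => φ y) hc (Metric.dist_mem_uniformity hη)
  obtain ⟨r, hr, h4⟩ := Metric.mem_uniformity_dist.1 h3
  refine ⟨r / 2, half_pos hr, fun y hy hyD hyR y' hy' hd => ?_⟩
  have h5 : dist (⟨y, hy⟩ : Tb b E) ⟨y', hy'⟩ < r := by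
    rw [Subtype.dist_eq, dist_comm, dist_eq_norm]
    linarith
  have h6 := h4 h5 (show (⟨y, hy⟩ : Tb b E) ∈ K from ⟨hyD, hyR⟩)
  have h7 : dist (φ y) (φ y') < η := h6
  rw [dist_comm]
  exact h7.le

theorem Shs.unif (h : Shs X Λ u D a b E SS) (hL : LG Λ D Bad a) {δ' η : ℝ} (hδ : 0 < δ') (hη : 0 < η) :
    ∃ r : ℝ, 0 < r ∧ ∀ φ ∈ SS, ∀ y ∈ Tb b E, y ∈ Gd D δ' → ∀ y' ∈ Tb b E, ‖y' - y‖ ≤ r → dist (φ y') (φ y) ≤ η := by
  obtain ⟨R, -, hcpt⟩ := h.cpt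
  have h1 : ∀ φ ∈ SS, ∀ᶠ r in 𝓝[>] (0 : ℝ), ∀ y ∈ Tb b E, y ∈ Gd D δ' → ‖y - b‖ ≤ R → ∀ y' ∈ Tb b E, ‖y' - y‖ ≤ r → dist (φ y') (φ y) ≤ η := by
    intro φ hφ
    obtain ⟨r, hr, h2⟩ := sf_unif (h.sht φ hφ) hδ hη R
    filter_upwards [Ioc_mem_nhdsGT hr] with s hs y hy hyD hyR y' hy' hd
    exact h2 y hy hyD hyR y' hy' (hd.trans hs.2)
  obtain ⟨r, h2, hr⟩ := (((Filter.eventually_all_finite h.fin).2 h1).and self_mem_nhdsWithin).exists
  refine ⟨r, hr, fun φ hφ y hy hyD y' hy' hd => ?_⟩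
  obtain ⟨l, hl, hlE, hlR⟩ := hcpt (y - b) hy
  obtain ⟨φ', hφ', h3⟩ := h.tr φ hφ l hl hlE
  have e1 : φ' (y - l) = φ y := by rw [h3 _ (sf_sub hy hlE), sub_add_cancel]
  have e2 : φ' (y' - l) = φ y' := by rw [h3 _ (sf_sub hy' hlE), sub_add_cancel]
  rw [← e1, ← e2]
  refine h2 φ' hφ' _ (sf_sub hy hlE) ?_ ?_ _ (sf_sub hy' hlE) ?_
  · rw [sub_eq_add_neg, sf_gd hL (Λ.neg_mem hl)]
    exact hyD
  · rw [sub_right_comm]
    exact hlR
  · rw [sub_sub_sub_cancel_right]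
    exact hd

/-- `φ y` is a point of the fibre over `y` -/
theorem Shs.fb (h : Shs X Λ u D a b E SS) {φ : Vd (k + 1) → MN N} (hφ : φ ∈ SS) {y : Vd (k + 1)} (hy : y ∈ Tb b E) : φ y ∈ Fb X Λ u y := by
  have h1 := hc_mem ((h.sht φ hφ).line y hy) 0
  simpa using h1

theorem Shs.lm (h : Shs X Λ u D a b E SS) {φ : Vd (k + 1) → MN N} (hφ : φ ∈ SS) {ι : Type*} {l : Filter ι} {y : ι → Vd (k + 1)} {y₀ : Vd (k + 1)} (hyT : ∀ n, y n ∈ Tb b E)
    (hy₀ : y₀ ∈ Tb b E) (hy : Tendsto y l (𝓝 y₀)) : Lm D a l y₀ (fun n z => φ (y n + z • a)) fun z => φ (y₀ + z • a) := by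
  intro z hz w hw
  have h1 := (h.sht φ hφ).cont (y₀ + z • a) (tb_add hy₀ (h.mem z)) hz
  exact h1.tendsto.comp (tendsto_nhdsWithin_iff.2 ⟨hy.add (hw.smul_const a), Eventually.of_forall fun n => tb_add (hyT n) (h.mem (w n))⟩)

/-- translation to a bounded point -/
theorem Shs.red (h : Shs X Λ u D a b E SS) : ∃ R : ℝ, 0 < R ∧ ∀ φ ∈ SS, ∀ y ∈ Tb b E, ∃ l ∈ Λ, l ∈ E ∧ ∃ φ' ∈ SS, ∃ y' ∈ Tb b E, ‖y'‖ ≤ R ∧ y = y' + l ∧
    ∀ e ∈ E, φ' (y' + e) = φ (y + e) := by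
  obtain ⟨R, hR, hcpt⟩ := h.cpt
  refine ⟨R + ‖b‖, by positivity, fun φ hφ y hy => ?_⟩
  obtain ⟨l, hl, hlE, hlR⟩ := hcpt (y - b) hy
  obtain ⟨φ', hφ', h3⟩ := h.tr φ hφ l hl hlE
  refine ⟨l, hl, hlE, φ', hφ', y - l, sf_sub hy hlE, ?_, (sub_add_cancel y l).symm, fun e he => ?_⟩
  · have h4 : y - l = (y - b - l) + b := by abel
    rw [h4]
    exact (norm_add_le _ _).trans (by linarith)
  · rw [h3 _ (tb_add (sf_sub hy hlE) he)]
    congr 1
    abel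

/-- `Gd` and `Co` are invariant -/
theorem gd_add' (hL : LG Λ D Bad a) {δ' : ℝ} {y l : Vd (k + 1)} (hl : l ∈ Λ) : y + l ∈ Gd D δ' ↔ y ∈ Gd D δ' := by
  exact sf_gd hL hl

theorem co_add (hL : LG Λ D Bad a) {δ' ρ' : ℝ} {y l : Vd (k + 1)} (hl : l ∈ Λ) : y + l ∈ Co D Bad δ' ρ' ↔ y ∈ Co D Bad δ' ρ' := by
  have key : ∀ {y l : Vd (k + 1)}, l ∈ Λ → y ∈ Co D Bad δ' ρ' → y + l ∈ Co D Bad δ' ρ' := by
    intro y l hl hy
    refine ⟨(sf_gd hL hl).2 hy.1, fun β hβ => ?_⟩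
    have h1 := hy.2 _ (hL.bad_inv β hβ (-l) (Λ.neg_mem hl))
    have h2 : y - (β + -l) = y + l - β := by abel
    rwa [h2] at h1
  refine ⟨fun hy => ?_, key hl⟩
  have h1 := key (Λ.neg_mem hl) hy
  rwa [add_neg_cancel_right] at h1

end Pool.Agent.G3.R

end

section

/-!
# G3 R Loc: the integrals from a local section in terms of a local primitive

`Prm α y₁ v R Ψ`, `S` a local section near `y₁` with `pr (S y₁) = pr v`.  If `y` is near `y₁` and `m` is a point of the fibre over `y` near `pr v`: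
`JJ α y (pr (S y)) m = Ψ (nv v m) - Ψ (nv v (pr (S y)))` (`Prm.jj` for the points `nv v m`, `nv v (pr (S y))` of `X`, which are in `ball v R`: `nv_near`; they are multiples of lifts: `nv_pr`, `IsCone.smul_mem`, `TMap.smul`).
`h y = Ψ (nv v (pr (S y)))` is analytic at `y₁` (`nv v (pr (S y)) = (inner v (S y))⁻¹ • S y`).
-/

set_option autoImplicit false

open Topology Filter Metric

namespace Pool.Agent.G3.R

open Pool.Agent.H36.BP (EN fs wd)
open Pool.Agent.H14.PP (IsCone CurveAt Tan)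
open Pool.Agent.H62.EF (MN pr)
open Pool.Agent.AD (Vd Chart Charts IsGerm)
open Pool.Agent.TG
open Pool.Agent.G3.C (Gc nv nd nv_pr pr_nv)
open Pool.Agent.G3.A

variable {N k : ℕ} {X : Set (EN N)} {Λ : AddSubgroup (Vd (k + 1))} {u : EN N → Vd (k + 1)} {D B Bad : Set (Vd (k + 1))} {a : Vd (k + 1)}

/-- functions of several variables which are differentiable near a point are analytic there -/
private theorem Loc_an {f : Vd (k + 1) → ℂ} {y₁ : Vd (k + 1)} (h : ∀ᶠ y in 𝓝 y₁, DifferentiableAt ℂ f y) : AnalyticAt ℂ f y₁ := by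
  have h1 : ∀ᶠ y in 𝓝 y₁, ‖f y‖ < ‖f y₁‖ + 1 := h.self_of_nhds.continuousAt.norm.eventually_lt_const (lt_add_one _)
  obtain ⟨r, hr, hb⟩ := Metric.eventually_nhds_iff_ball.1 (h.and h1)
  refine Pool.Agent.TN.osgood_pi hr (M := ‖f y₁‖ + 1) (fun y hy => (hb y hy).2.le) fun y hy l => ?_
  have h2 : DifferentiableAt ℂ (fun t : ℂ => y + t • (Pi.single l 1 : Vd (k + 1))) 0 := by fun_prop
  have h3 : DifferentiableAt ℂ f (y + (0 : ℂ) • (Pi.single l 1 : Vd (k + 1))) := by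
    rw [zero_smul, add_zero]
    exact (hb y hy).1
  exact DifferentiableAt.comp (0 : ℂ) (f := fun t : ℂ => y + t • (Pi.single l 1 : Vd (k + 1))) h3 h2

theorem jj_prm (G : Geo X Λ u D B) {α : VForm X Λ u} {y₁ : Vd (k + 1)} {v : EN N} {R : ℝ} {Ψ : EN N → ℂ} (hΨ : Prm α y₁ v R Ψ) {S : Vd (k + 1) → EN N} (hS : AnalyticAt ℂ S y₁)
    (hSX : ∀ᶠ y in 𝓝 y₁, S y ∈ X ∧ u (S y) - y ∈ Λ) (hSv : pr (S y₁) = pr v) : AnalyticAt ℂ (fun y => Ψ (nv v (pr (S y)))) y₁ ∧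
      ∃ ε : ℝ, 0 < ε ∧ ∀ y ∈ ball y₁ ε, ∀ m ∈ Fb X Λ u y, dist m (pr v) < ε → nv v m ∈ ball v R ∧ JJ α y (pr (S y)) m = Ψ (nv v m) - Ψ (nv v (pr (S y))) := by
  obtain ⟨ε₁, hε₁, hnv⟩ := nv_near (N := N) hΨ.pos
  obtain ⟨ε₂, hε₂, hin⟩ := inner_near (N := N) (η := 1 / 2) (by norm_num)
  have hS0 : S y₁ ≠ 0 := ne_zero G.cone hSX.self_of_nhds.1
  have hprS : ContinuousAt (fun y => pr (S y)) y₁ := ContinuousAt.comp (f := S) (g := pr) (Pool.Agent.H62.EF.continuousAt_pr hS0) hS.continuousAt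
  have hd : ∀ᶠ y in 𝓝 y₁, dist (pr (S y)) (pr v) < min ε₁ ε₂ := by
    have h1 := hprS.tendsto.eventually (ball_mem_nhds (pr (S y₁)) (lt_min hε₁ hε₂))
    rw [hSv] at h1
    exact h1
  have hne : ∀ᶠ y in 𝓝 y₁, inner ℂ v (S y) ≠ (0 : ℂ) := by
    filter_upwards [hd, hSX] with y h1 h2
    exact (hin v hΨ.unit (S y) (ne_zero G.cone h2.1) (h1.le.trans (min_le_right _ _))).1
  refine ⟨?_, ?_⟩
  · -- analytic
    apply Loc_an
    have hSd : ∀ᶠ y in 𝓝 y₁, DifferentiableAt ℂ S y := hS.eventually_analyticAt.mono fun y hy => hy.differentiableAt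
    filter_upwards [hne.eventually_nhds, hSd, hd] with y h1 h2 h3
    have h4 : nv v (pr (S y)) ∈ ball v R := by
      rw [mem_ball, dist_eq_norm]
      exact hnv v hΨ.unit _ (h3.le.trans (min_le_left _ _))
    have h5 : DifferentiableAt ℂ (fun y => nv v (pr (S y))) y := by
      have h6 : DifferentiableAt ℂ (fun y => inner ℂ v (S y)) y := DifferentiableAt.comp y (innerSL ℂ v).differentiableAt h2
      have h7 : DifferentiableAt ℂ (fun y => (inner ℂ v (S y))⁻¹ • S y) y := (h6.inv h1.self_of_nhds).smul h2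
      refine h7.congr_of_eventuallyEq ?_
      filter_upwards [h1] with y' h8
      exact nv_pr h8
    exact DifferentiableAt.comp y (g := Ψ) (f := fun y => nv v (pr (S y))) ((hΨ.diff _ h4).differentiableAt (isOpen_ball.mem_nhds h4)) h5
  · obtain ⟨r, hr, hb⟩ := Metric.eventually_nhds_iff_ball.1 (hd.and (hne.and hSX))
    refine ⟨min (min r R) (min ε₁ ε₂), lt_min (lt_min hr hΨ.pos) (lt_min hε₁ hε₂), fun y hy m hm hmd => ?_⟩
    have hyr : y ∈ ball y₁ r := ball_subset_ball ((min_le_left _ _).trans (min_le_left _ _)) hy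
    have hyR : y ∈ ball y₁ R := ball_subset_ball ((min_le_left _ _).trans (min_le_right _ _)) hy
    have hm1 : dist m (pr v) < ε₁ := hmd.trans_le ((min_le_right _ _).trans (min_le_left _ _))
    have hm2 : dist m (pr v) < ε₂ := hmd.trans_le ((min_le_right _ _).trans (min_le_right _ _))
    obtain ⟨h1, h2, h3, h4⟩ := hb y hyr
    have hmR : nv v m ∈ ball v R := by
      rw [mem_ball, dist_eq_norm]
      exact hnv v hΨ.unit m hm1.le
    have hSR : nv v (pr (S y)) ∈ ball v R := by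
      rw [mem_ball, dist_eq_norm]
      exact hnv v hΨ.unit _ (h1.le.trans (min_le_left _ _))
    refine ⟨hmR, ?_⟩
    obtain ⟨x, hx, hxm, hux⟩ := hm
    have hxn : inner ℂ v x ≠ (0 : ℂ) := (hin v hΨ.unit x (ne_zero G.cone hx) (by rw [hxm]; exact hm2.le)).1
    have e1 : pr (nv v m) = m := by rw [← hxm, pr_nv hxn]
    have e2 : pr (nv v (pr (S y))) = pr (S y) := pr_nv h2
    have h5 : nv v m ∈ X ∧ u (nv v m) - y ∈ Λ := by
      rw [← hxm, nv_pr hxn]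
      exact ⟨G.cone.smul_mem x hx _ (inv_ne_zero hxn), smul_mem_lat G.tor hx hux (inv_ne_zero hxn)⟩
    have h6 : nv v (pr (S y)) ∈ X ∧ u (nv v (pr (S y))) - y ∈ Λ := by
      rw [nv_pr h2]
      exact ⟨G.cone.smul_mem _ h3 _ (inv_ne_zero h2), smul_mem_lat G.tor h3 h4 (inv_ne_zero h2)⟩
    have h7 := hΨ.jj y hyR _ h6.1 hSR h6.2 _ h5.1 hmR h5.2
    rwa [e1, e2] at h7

end Pool.Agent.G3.R

end
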