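import Pool.Agent.H94.G4T.M07
import Pool.Agent.H94.G4T.M10
import Pool.Agent.H94.G4T.M20

/-! The parts of this file: G3.A.JA, TG.JJ_1. -/

section

/-!
# G3 A JA: the integral is holomorphic along curves

As `TG.II_analytic` (same proof with a curve `h` instead of the identity of `Vd (k + 1)`).
-/

set_option autoImplicit false

open Topology Filter Metric

namespace Pool.Agent.G3.A

open Pool.Agent.H36.BP (EN fs wd)
open Pool.Agent.H14.PP (IsCone CurveAt Tan)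
open Pool.Agent.H62.EF (MN pr)
open Pool.Agent.AD (Vd Chart Charts IsGerm)
open Pool.Agent.TG

variable {N k : ℕ} {X : Set (EN N)} {Λ : AddSubgroup (Vd (k + 1))} {u : EN N → Vd (k + 1)} {D B Bad : Set (Vd (k + 1))} {a : Vd (k + 1)}

theorem II_curve (hX : IsCone X) (hu : TMap X Λ u) (hΛ : Lat Λ) {α : VForm X Λ u} {ε r : ℝ} {F H : ℂ → EN N} {h : ℂ → Vd (k + 1)} {z₀ : ℂ} (hF : AnalyticAt ℂ F z₀)
    (hH : AnalyticAt ℂ H z₀) (hh : AnalyticAt ℂ h z₀) (hFX : ∀ᶠ z in 𝓝 z₀, F z ∈ X ∧ u (F z) - h z ∈ Λ) (hHX : ∀ᶠ z in 𝓝 z₀, H z ∈ X ∧ u (H z) - h z ∈ Λ)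
    {χ : Chart (k + 2) X} {c : Vd (k + 1)} {ρ : ℝ} (hc : Cap Λ u χ c ρ (h z₀) (pr (F z₀)) r) (hr : ε < r)
    (hrel : ∀ᶠ z in 𝓝 z₀, ∃ v, IRel α ε (h z) (pr (F z)) (pr (H z)) v) : AnalyticAt ℂ (fun z => II α ε (h z) (pr (F z)) (pr (H z))) z₀ := by
  obtain ⟨A, hA⟩ := exists_prim α χ hc.str
  obtain ⟨v₀, hv₀⟩ := hrel.self_of_nhds
  obtain ⟨-, -, hfg⟩ := hv₀.mem
  have hε : 0 ≤ ε := dist_nonneg.trans hfg
  have hr0 : 0 < r := lt_of_le_of_lt hε hr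
  obtain ⟨hFX0, hFu⟩ := hFX.self_of_nhds
  obtain ⟨hHX0, hHu⟩ := hHX.self_of_nhds
  have hsub : closedBall (0 : Vd (k + 2)) 1 ⊆ ball (0 : Vd (k + 2)) 2 := closedBall_subset_ball (by norm_num)
  have hy₀r : h z₀ ∈ closedBall (h z₀) r := mem_closedBall_self hr0.le
  obtain ⟨hFU, hFq, -⟩ := hc.cap (h z₀) hy₀r (F z₀) hFX0 hFu (by rw [dist_self]; exact hr0.le)
  obtain ⟨hHU, hHq, -⟩ := hc.cap (h z₀) hy₀r (H z₀) hHX0 hHu (hfg.trans hr.le)
  have a1 : AnalyticAt ℂ (fun z => A (χ.q (F z))) z₀ :=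
    AnalyticAt.comp (f := fun z => χ.q (F z)) (g := A) (hA.an _ (hsub hFq))
      (AnalyticAt.comp (f := F) (g := χ.q) (χ.q_an _ hFU) hF)
  have a2 : AnalyticAt ℂ (fun z => A (χ.q (H z))) z₀ :=
    AnalyticAt.comp (f := fun z => χ.q (H z)) (g := A) (hA.an _ (hsub hHq))
      (AnalyticAt.comp (f := H) (g := χ.q) (χ.q_an _ hHU) hH)
  have hρ : (ρ : ℂ) ^ (k + 1) ≠ 0 := by
    have h1 := hc.str.pos
    exact pow_ne_zero _ (by exact_mod_cast h1.ne')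
  have a3 : AnalyticAt ℂ (fun z => (A (χ.q (H z)) - A (χ.q (F z))) / (ρ : ℂ) ^ (k + 1)) z₀ := (a2.sub a1).div analyticAt_const hρ
  refine a3.congr ?_
  have e3 : ∀ᶠ z in 𝓝 z₀, h z ∈ closedBall (h z₀) r := hh.continuousAt.eventually (closedBall_mem_nhds _ hr0)
  have e4 : ∀ᶠ z in 𝓝 z₀, dist (pr (F z)) (pr (F z₀)) < r - ε := by
    have h1 : ContinuousAt (fun z => pr (F z)) z₀ := ContinuousAt.comp (f := F) (g := pr)
      (Pool.Agent.H62.EF.continuousAt_pr (ne_zero hX hFX0)) hF.continuousAt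
    exact h1.eventually (ball_mem_nhds _ (by linarith))
  filter_upwards [hFX, hHX, e3, e4, hrel] with z h1 h2 h3 h4 h5
  exact (II_eq hX hu hΛ h5 hc hA h3 (by linarith) h1.1 h2.1 rfl rfl).symm

end Pool.Agent.G3.A

end

section

/-!
# TG JJ: the integral along short paths in the fibres, without the parameter `ε`

`JRel α y m m' v`: for some `ε` the points near `m` (radius `3 ε`) of the fibres near `y` are in one straight chart, and `v` is the integral of `α / dy` along a path from `m` to `m'` of the fibre over `y` which stays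
in the ball of radius `ε` around `m`.
-/

set_option autoImplicit false

open Topology Filter Metric

namespace Pool.Agent.TG

open Pool.Agent.H36.BP (EN fs wd)
open Pool.Agent.H14.PP (IsCone CurveAt Tan)
open Pool.Agent.H62.EF (MN pr)
open Pool.Agent.AD (Vd Chart Charts IsGerm)

variable {N k : ℕ} {X : Set (EN N)} {Λ : AddSubgroup (Vd (k + 1))} {u : EN N → Vd (k + 1)}

theorem jrel_unique (hX : IsCone X) (hu : TMap X Λ u) (hΛ : Lat Λ) {α : VForm X Λ u} {y : Vd (k + 1)} {m m' : MN N} {v v' : ℂ}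
    (h : JRel α y m m' v) (h' : JRel α y m m' v') : v = v' := by
  obtain ⟨ε, hε, ⟨χ, c, ρ, hc⟩, hv⟩ := h
  obtain ⟨ε', hε', ⟨χ', c', ρ', hc'⟩, hv'⟩ := h'
  rcases le_total ε ε' with hle | hle
  · have h1 := II_of_rel hX hu hΛ hle hv hc' (by linarith)
    have h2 := II_of_rel hX hu hΛ le_rfl hv' hc' (by linarith)
    rw [← h1, h2]
  · have h1 := II_of_rel hX hu hΛ le_rfl hv hc (by linarith)
    have h2 := II_of_rel hX hu hΛ hle hv' hc (by linarith)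
    rw [← h1, h2]

theorem jj_eq (hX : IsCone X) (hu : TMap X Λ u) (hΛ : Lat Λ) {α : VForm X Λ u} {y : Vd (k + 1)} {m m' : MN N} {v : ℂ}
    (h : JRel α y m m' v) : JJ α y m m' = v := jrel_unique hX hu hΛ (jj_spec ⟨v, h⟩) h

/-- `JJ` and `II` agree where the constants are valid -/
theorem jj_eq_II {D : Set (Vd (k + 1))} (hX : IsCone X) (hu : TMap X Λ u) (hΛ : Lat Λ) {α : VForm X Λ u} {δ ε ε₀ : ℝ} (hc : Cst X Λ u D δ ε ε₀)
    {y : Vd (k + 1)} (hy : y ∈ Gd D δ) {m m' : MN N} (hm : m ∈ Fb X Λ u y) (hm' : m' ∈ Fb X Λ u y) (hd : dist m m' ≤ ε₀) :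
    JJ α y m m' = II α ε y m m' := by
  obtain ⟨v, hv⟩ := hc.rel y hy m hm m' hm' hd α
  obtain ⟨χ, c, ρ, hcap⟩ := hc.cap y hy m hm
  rw [jj_eq hX hu hΛ ⟨ε, hc.ε_pos, ⟨χ, c, ρ, hcap⟩, hv⟩, II_of_rel hX hu hΛ le_rfl hv hcap (by linarith [hc.ε_pos])]

theorem jj_zero (hX : IsCone X) (hu : TMap X Λ u) (hΛ : Lat Λ) {Γ : AddSubgroup (Vd (k + 1))} {α : VForm X Λ u} (hle : Γ ≤ Λ) (hper : Per α Γ)
    (hvan : VanZero α) {l : Vd (k + 1)} (hl : l ∈ Γ) (m m' : MN N) : JJ α l m m' = 0 := by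
  by_cases h : ∃ v, JRel α l m m' v
  · obtain ⟨v, hv⟩ := h
    rw [jj_eq hX hu hΛ hv]
    obtain ⟨ε, hε, ⟨χ, c, ρ, hc⟩, hv⟩ := hv
    rw [← II_of_rel hX hu hΛ le_rfl hv hc (by linarith)]
    exact II_zero hu hle hper hvan hl ε m m'
  · unfold JJ
    rw [dif_neg h]

end Pool.Agent.TG

end
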