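import Pool.Agent.H94.G4T.M15
import Pool.Agent.H94.G4T.M39
import Pool.Agent.H94.G4T.M58

/-! The parts of this file: G3.C.Tay, G3.R.PrmA. -/

section

/-!
# G3 C Tay: Taylor expansions

`taylor_bound`: induction on `m` for all families (the derivative in `t` of the remainder of `f 0` of order `m + 1` is the remainder of `f 1` of order `m`; mean value
inequality on `[0, t]`, `image_norm_le_of_norm_deriv_right_le_deriv_boundary` or `Convex.norm_image_sub_le_of_norm_hasDerivWithin_le`).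
`iteratedDeriv_pol`.  `jt_eq_of_bound`: the function `φ - ψ` is analytic at `0`; if it is not locally `0`, it is `t^n h t` with `h 0 ≠ 0` (`AnalyticAt.exists_eventuallyEq_pow_smul_nonzero_iff`),
and the bound gives `n > m`; so all derivatives of order `≤ m` are `0` (Mathlib: order and `iteratedDeriv`, for instance `natCast_le_analyticOrderAt_iff_iteratedDeriv_eq_zero`).
`hol_taylor`: apply `taylor_bound` to `f j t = iteratedDeriv j g t`.
-/

set_option autoImplicit false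

open Topology Filter Metric

namespace Pool.Agent.G3.C

open Pool.Agent.H36.BP (EN fs wd)
open Pool.Agent.AD (Vd Chart Charts)

variable {N : ℕ}

private theorem hasDeriv_sum (c : ℕ → ℂ) (k : ℕ) (z : ℂ) :
    HasDerivAt (fun z : ℂ => ∑ i ∈ Finset.range (k + 1), c i / (i.factorial : ℂ) * z ^ i)
      (∑ i ∈ Finset.range k, c (i + 1) / (i.factorial : ℂ) * z ^ i) z := by
  have h1 : (fun z : ℂ => ∑ i ∈ Finset.range (k + 1), c i / (i.factorial : ℂ) * z ^ i) =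
      fun z : ℂ => ∑ i ∈ Finset.range k, c (i + 1) / ((i + 1).factorial : ℂ) * z ^ (i + 1) + c 0 := by
    funext z
    rw [Finset.sum_range_succ']
    simp
  rw [h1]
  refine HasDerivAt.add_const _ ?_
  refine HasDerivAt.fun_sum fun i _ => ?_
  have h2 := (hasDerivAt_pow (i + 1) z).const_mul (c (i + 1) / ((i + 1).factorial : ℂ))
  refine h2.congr_deriv ?_
  have h3 : ((i + 1 : ℕ) : ℂ) ≠ 0 := by exact_mod_cast Nat.succ_ne_zero i
  have h4 : (i.factorial : ℂ) ≠ 0 := by exact_mod_cast i.factorial_ne_zero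
  rw [Nat.factorial_succ, Nat.add_sub_cancel]
  push_cast
  push_cast at h3
  field_simp

private theorem rem_bound {s r : ℝ} (hr : 0 < r) (k : ℕ) : ∀ f : ℕ → ℝ → ℂ,
    (∀ j, ∀ t ∈ Set.Ioo (s - r) (s + r), HasDerivAt (f j) (f (j + 1) t) t) →
    ∃ C : ℝ, 0 ≤ C ∧ ∀ t ∈ Set.Icc (0 : ℝ) (r / 2),
      ‖f 0 (s + t) - ∑ i ∈ Finset.range k, f i s / (i.factorial : ℂ) * (t : ℂ) ^ i‖ ≤ C * t ^ k := by
  induction k with
  | zero =>
    intro f hf
    have hc : ContinuousOn (fun t : ℝ => f 0 (s + t)) (Set.Icc (0 : ℝ) (r / 2)) := by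
      intro t ht
      have h1 : s + t ∈ Set.Ioo (s - r) (s + r) := ⟨by linarith [ht.1], by linarith [ht.2]⟩
      have h2 : ContinuousAt (fun t : ℝ => f 0 (s + t)) t :=
        ContinuousAt.comp (g := f 0) (f := fun t : ℝ => s + t) (hf 0 _ h1).continuousAt (by fun_prop)
      exact h2.continuousWithinAt
    obtain ⟨C, hC⟩ := isCompact_Icc.exists_bound_of_continuousOn hc
    refine ⟨max C 0, le_max_right _ _, fun t ht => ?_⟩
    simp only [Finset.range_zero, Finset.sum_empty, sub_zero, pow_zero, mul_one]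
    exact (hC t ht).trans (le_max_left _ _)
  | succ k ih =>
    intro f hf
    obtain ⟨C, hC0, hC⟩ := ih (fun j => f (j + 1)) (fun j t ht => hf (j + 1) t ht)
    refine ⟨C, hC0, fun t ht => ?_⟩
    have hder : ∀ x ∈ Set.Icc (0 : ℝ) t, HasDerivWithinAt
        (fun x : ℝ => f 0 (s + x) - ∑ i ∈ Finset.range (k + 1), f i s / (i.factorial : ℂ) * (x : ℂ) ^ i)
        (f 1 (s + x) - ∑ i ∈ Finset.range k, f (i + 1) s / (i.factorial : ℂ) * (x : ℂ) ^ i) (Set.Icc (0 : ℝ) t) x := by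
      intro x hx
      have h1 : s + x ∈ Set.Ioo (s - r) (s + r) := ⟨by linarith [hx.1], by linarith [hx.2, ht.2]⟩
      have h2 : HasDerivAt (fun x : ℝ => f 0 (s + x)) (f 1 (s + x)) x := by
        have h3 := HasDerivAt.scomp x (hf 0 _ h1) ((hasDerivAt_id x).const_add s)
        rw [one_smul] at h3
        exact h3
      have h4 := (hasDeriv_sum (fun i => f i s) k (x : ℂ)).comp_ofReal
      exact (h2.sub h4).hasDerivWithinAt
    have hbd : ∀ x ∈ Set.Icc (0 : ℝ) t,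
        ‖f 1 (s + x) - ∑ i ∈ Finset.range k, f (i + 1) s / (i.factorial : ℂ) * (x : ℂ) ^ i‖ ≤ C * t ^ k := by
      intro x hx
      have h1 := hC x ⟨hx.1, hx.2.trans ht.2⟩
      exact h1.trans (mul_le_mul_of_nonneg_left (pow_le_pow_left₀ hx.1 hx.2 k) hC0)
    have h5 := Convex.norm_image_sub_le_of_norm_hasDerivWithin_le hder hbd (convex_Icc 0 t)
      (Set.left_mem_Icc.2 ht.1) (Set.right_mem_Icc.2 ht.1)
    have h6 : f 0 (s + 0) - ∑ i ∈ Finset.range (k + 1), f i s / (i.factorial : ℂ) * (((0 : ℝ) : ℂ)) ^ i = 0 := by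
      rw [Finset.sum_range_succ']
      simp
    rw [h6, sub_zero, sub_zero, Real.norm_of_nonneg ht.1] at h5
    calc _ ≤ C * t ^ k * t := h5
      _ = C * t ^ (k + 1) := by ring

/-- the remainder is `O(t^(m+1))`, on the right of `s` -/
theorem taylor_bound {f : ℕ → ℝ → ℂ} {s r : ℝ} (hr : 0 < r) (hf : ∀ j, ∀ t ∈ Set.Ioo (s - r) (s + r), HasDerivAt (f j) (f (j + 1) t) t) (m : ℕ) :
    ∃ C δ : ℝ, 0 < δ ∧ ∀ t ∈ Set.Ioo (0 : ℝ) δ, ‖f 0 (s + t) - pol (fun j : Fin (m + 1) => f j s) (t : ℂ)‖ ≤ C * t ^ (m + 1) := by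
  obtain ⟨C, _, hC⟩ := rem_bound hr (m + 1) f hf
  refine ⟨C, r / 2, by linarith, fun t ht => ?_⟩
  have h1 := hC t ⟨ht.1.le, ht.2.le⟩
  have h2 : pol (fun j : Fin (m + 1) => f j s) (t : ℂ) =
      ∑ i ∈ Finset.range (m + 1), f i s / (i.factorial : ℂ) * (t : ℂ) ^ i := by
    unfold pol
    exact Fin.sum_univ_eq_sum_range (fun i => f i s / (i.factorial : ℂ) * (t : ℂ) ^ i) (m + 1)
  rw [h2]
  exact h1

private theorem iter_sum (j : ℕ) : ∀ (c : ℕ → ℂ) (k : ℕ), j < k →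
    iteratedDeriv j (fun z : ℂ => ∑ i ∈ Finset.range k, c i / (i.factorial : ℂ) * z ^ i) 0 = c j := by
  induction j with
  | zero =>
    intro c k hk
    obtain ⟨k', rfl⟩ : ∃ k', k = k' + 1 := ⟨k - 1, by omega⟩
    rw [iteratedDeriv_zero, Finset.sum_range_succ']
    simp
  | succ j ih =>
    intro c k hk
    obtain ⟨k', rfl⟩ : ∃ k', k = k' + 1 := ⟨k - 1, by omega⟩
    rw [iteratedDeriv_succ']
    have h1 : deriv (fun z : ℂ => ∑ i ∈ Finset.range (k' + 1), c i / (i.factorial : ℂ) * z ^ i) =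
        fun z : ℂ => ∑ i ∈ Finset.range k', c (i + 1) / (i.factorial : ℂ) * z ^ i := by
      funext z
      exact (hasDeriv_sum c k' z).deriv
    rw [h1]
    exact ih (fun i => c (i + 1)) k' (by omega)

theorem iteratedDeriv_pol {m : ℕ} (v : Fin (m + 1) → ℂ) (j : Fin (m + 1)) : iteratedDeriv j (pol v) 0 = v j := by
  have h1 : pol v = fun z : ℂ => ∑ i ∈ Finset.range (m + 1), (if h : i < m + 1 then v ⟨i, h⟩ else 0) / (i.factorial : ℂ) * z ^ i := by
    funext z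
    unfold pol
    rw [← Fin.sum_univ_eq_sum_range (fun i => (if h : i < m + 1 then v ⟨i, h⟩ else 0) / (i.factorial : ℂ) * z ^ i) (m + 1)]
    refine Finset.sum_congr rfl fun i _ => ?_
    rw [dif_pos i.2]
  rw [h1, iter_sum (j : ℕ) _ (m + 1) j.2, dif_pos j.2]

theorem pol_zero {m : ℕ} (v : Fin (m + 1) → ℂ) : pol v 0 = v 0 := by
  have h := iteratedDeriv_pol v 0
  rwa [Fin.val_zero, iteratedDeriv_zero] at h

/-- curves which agree to the order `m` along the positive real axis have the same `m`-jet -/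
theorem jt_eq_of_bound {m : ℕ} {φ ψ : ℂ → EN N} (hφ : AnalyticAt ℂ φ 0) (hψ : AnalyticAt ℂ ψ 0) {C δ : ℝ} (hδ : 0 < δ)
    (h : ∀ t : ℝ, t ∈ Set.Ioo (0 : ℝ) δ → ‖φ (t : ℂ) - ψ (t : ℂ)‖ ≤ C * t ^ (m + 1)) : jt m φ = jt m ψ := by
  have hg : AnalyticAt ℂ (φ - ψ) 0 := hφ.sub hψ
  have hord : ((m + 1 : ℕ) : ℕ∞) ≤ analyticOrderAt (φ - ψ) 0 := by
    by_contra hcon
    rw [not_le] at hcon
    have hne : analyticOrderAt (φ - ψ) 0 ≠ ⊤ := ne_top_of_lt hcon
    obtain ⟨n, hn⟩ := ENat.ne_top_iff_exists.1 hne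
    rw [← hn] at hcon
    have hnm : n < m + 1 := by exact_mod_cast hcon
    obtain ⟨q, hq1, hq2, hq3⟩ := (hg.analyticOrderAt_eq_natCast (n := n)).1 hn.symm
    have hcast : Tendsto (fun t : ℝ => (t : ℂ)) (𝓝[>] (0 : ℝ)) (𝓝 (0 : ℂ)) := by
      have h1 : Tendsto (fun t : ℝ => (t : ℂ)) (𝓝 (0 : ℝ)) (𝓝 ((0 : ℝ) : ℂ)) := Complex.continuous_ofReal.tendsto 0
      rw [Complex.ofReal_zero] at h1
      exact h1.mono_left nhdsWithin_le_nhds
    have hlim : Tendsto (fun t : ℝ => ‖q (t : ℂ)‖) (𝓝[>] (0 : ℝ)) (𝓝 ‖q 0‖) :=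
      (hq1.continuousAt.tendsto.comp hcast).norm
    have hlim0 : Tendsto (fun t : ℝ => C * t ^ (m + 1 - n)) (𝓝[>] (0 : ℝ)) (𝓝 0) := by
      have h1 : Tendsto (fun t : ℝ => C * t ^ (m + 1 - n)) (𝓝 (0 : ℝ)) (𝓝 (C * 0 ^ (m + 1 - n))) :=
        Continuous.tendsto (by fun_prop) 0
      rw [zero_pow (by omega), mul_zero] at h1
      exact h1.mono_left nhdsWithin_le_nhds
    have hle : ∀ᶠ t : ℝ in 𝓝[>] (0 : ℝ), ‖q (t : ℂ)‖ ≤ C * t ^ (m + 1 - n) := by
      have e1 : ∀ᶠ t : ℝ in 𝓝[>] (0 : ℝ), t ∈ Set.Ioo (0 : ℝ) δ := Ioo_mem_nhdsGT hδ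
      filter_upwards [e1, hcast.eventually hq3] with t ht hqt
      have h1 := h t ht
      have h2 : φ (t : ℂ) - ψ (t : ℂ) = (t : ℂ) ^ n • q (t : ℂ) := by
        have h3 : (φ - ψ) (t : ℂ) = ((t : ℂ) - 0) ^ n • q (t : ℂ) := hqt
        rw [sub_zero] at h3
        exact h3
      rw [h2, norm_smul, norm_pow, Complex.norm_real, Real.norm_of_nonneg ht.1.le] at h1
      have h4 : t ^ (m + 1) = t ^ n * t ^ (m + 1 - n) := by rw [← pow_add]; congr 1; omega
      have h5 : (0 : ℝ) < t ^ n := pow_pos ht.1 n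
      rw [h4] at h1
      refine le_of_mul_le_mul_left ?_ h5
      calc t ^ n * ‖q (t : ℂ)‖ ≤ C * (t ^ n * t ^ (m + 1 - n)) := h1
        _ = t ^ n * (C * t ^ (m + 1 - n)) := by ring
    have h0 : ‖q 0‖ ≤ 0 := le_of_tendsto_of_tendsto hlim hlim0 hle
    exact hq2 (norm_le_zero_iff.1 h0)
  funext j
  unfold jt
  have h1 := (natCast_le_analyticOrderAt_iff_iteratedDeriv_eq_zero hg).1 hord j j.2
  rw [iteratedDeriv_sub hφ.contDiffAt hψ.contDiffAt] at h1
  exact sub_eq_zero.1 h1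

/-- Taylor's formula for a holomorphic function, along the positive real axis -/
theorem hol_taylor {g : ℂ → ℂ} (hg : AnalyticAt ℂ g 0) (m : ℕ) :
    ∃ C δ : ℝ, 0 < δ ∧ ∀ t ∈ Set.Ioo (0 : ℝ) δ, ‖g (t : ℂ) - pol (fun j : Fin (m + 1) => iteratedDeriv j g 0) (t : ℂ)‖ ≤ C * t ^ (m + 1) := by
  obtain ⟨r, hr, hgr⟩ := hg.exists_ball_analyticOnNhd
  have hf : ∀ j, ∀ t ∈ Set.Ioo ((0 : ℝ) - r) (0 + r), HasDerivAt (fun t : ℝ => iteratedDeriv j g (t : ℂ)) (iteratedDeriv (j + 1) g (t : ℂ)) t := by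
    intro j t ht
    have h1 : (t : ℂ) ∈ ball (0 : ℂ) r := by
      rw [mem_ball_zero_iff, Complex.norm_real, Real.norm_eq_abs, abs_lt]
      exact ⟨by linarith [ht.1], by linarith [ht.2]⟩
    have h2 : AnalyticAt ℂ (iteratedDeriv j g) (t : ℂ) := by
      rw [iteratedDeriv_eq_iterate]
      exact hgr.iterated_deriv j _ h1
    have h3 := h2.differentiableAt.hasDerivAt
    rw [← iteratedDeriv_succ] at h3
    exact h3.comp_ofReal
  obtain ⟨C, δ, hδ, hC⟩ := taylor_bound hr hf m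
  refine ⟨C, δ, hδ, fun t ht => ?_⟩
  have h1 := hC t ht
  rw [zero_add, iteratedDeriv_zero, Complex.ofReal_zero] at h1
  exact h1

end Pool.Agent.G3.C

end

section

/-!
# G3 R PrmA: local primitives of the forms along the fibres

A straight chart `χ` with `Cap` at the point `v` over `y₀ ∉ D` (`TG/Cp`: `exists_cap_at`, `cap_of_small`, `exists_str_chart`), `A` a primitive of the coefficient (`exists_prim`),
`Ψ x = A (χ.q x) / ρ ^ (k + 1)` on a small ball around `v`.  `JJ α y (pr x) (pr x') = Ψ x' - Ψ x`: the segment from `χ.q x` to `χ.q x'` gives `IRel α ε y (pr x) (pr x') (Ψ x' - Ψ x)`, with `3 ε` at most the size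
of the cap (moved to `pr x`, see `cp_cap_move`, `cp_rel_bdd` in `TG/Cp`); `jj_eq`.
-/

set_option autoImplicit false

open Topology Filter Metric

namespace Pool.Agent.G3.R

open Pool.Agent.H36.BP (EN fs wd)
open Pool.Agent.H14.PP (IsCone CurveAt Tan)
open Pool.Agent.H62.EF (MN pr)
open Pool.Agent.AD (Vd Chart Charts IsGerm)
open Pool.Agent.TG
open Pool.Agent.G3.C (Gc nv nd nv_pr)
open Pool.Agent.G3.A

variable {N k : ℕ} {X : Set (EN N)} {Λ : AddSubgroup (Vd (k + 1))} {u : EN N → Vd (k + 1)} {D B Bad : Set (Vd (k + 1))} {a : Vd (k + 1)}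

private theorem pa_pr_q {χ : Chart (k + 2) X} {x : EN N} (hx : x ∈ X) (hU : x ∈ χ.U) : pr (χ.σ (χ.q x)) = pr x := by
  obtain ⟨hb, c, hc, e⟩ := χ.surj x hx hU
  conv_rhs => rw [e]
  exact (Pool.Agent.H62.EF.pr_smul _ hc).symm

private theorem pa_cap_move {χ : Chart (k + 2) X} {c : Vd (k + 1)} {ρ : ℝ} {y₀ : Vd (k + 1)} {m₀ : MN N} {r : ℝ} (h : Cap Λ u χ c ρ y₀ m₀ r)
    {y₁ : Vd (k + 1)} {m₁ : MN N} {r₁ : ℝ} (hr : r₁ ≤ r / 2) (hz : dist y₁ y₀ ≤ r / 2) (hy : dist m₁ m₀ ≤ r / 2) : Cap Λ u χ c ρ y₁ m₁ r₁ where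
  str := h.str
  cap := fun y hy' x hx hxz hd => by
    refine h.cap y ?_ x hx hxz ?_
    · rw [mem_closedBall] at hy' ⊢
      have := dist_triangle y y₁ y₀
      linarith
    · have := dist_triangle (pr x) m₁ m₀
      linarith

private theorem pa_seg {s : ℝ} {p p' : Vd (k + 2)} (hp : ‖p‖ < s) (hp' : ‖p'‖ < s) {θ : ℝ} (hθ : θ ∈ Set.Icc (0 : ℝ) 1) :
    ‖p + (θ : ℂ) • (p' - p)‖ < s := by
  have e : p + (θ : ℂ) • (p' - p) = (1 - θ) • p + θ • p' := by
    have e1 : ∀ v : Vd (k + 2), (θ : ℂ) • v = θ • v := fun v => by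
      ext i
      simp
    rw [e1, smul_sub, sub_smul, one_smul]
    abel
  rw [← mem_ball_zero_iff, e]
  exact (convex_ball (0 : Vd (k + 2)) s) (mem_ball_zero_iff.2 hp) (mem_ball_zero_iff.2 hp') (by linarith [hθ.2]) hθ.1 (by ring)

theorem exists_prm (G : Geo X Λ u D B) {y₀ : Vd (k + 1)} (hy₀ : y₀ ∉ D) {v : EN N} (hv : v ∈ X) (hv1 : ‖v‖ = 1) (hu : u v - y₀ ∈ Λ) (α : VForm X Λ u) :
    ∃ (R : ℝ) (Ψ : EN N → ℂ), Prm α y₀ v R Ψ := by
  obtain ⟨d, hd, hdis⟩ := G.lat.disc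
  obtain ⟨χ, ρ, hU, hq, hm, hr⟩ := exists_str_chart G.cone G.tor (G.sub y₀ hy₀ v hv hu) (η := d / 2) (by positivity)
  obtain ⟨r, hr1, hcap⟩ := cap_of_small G.cone G.tor hv hu hm hU hq
    (fun l hl hl' => hdis l hl (by linarith)) (fun p hp => (hr p hp).2)
  obtain ⟨A, hA⟩ := exists_prim α χ hm
  -- continuity of the chart at `0`
  have h0 : (0 : Vd (k + 2)) ∈ ball (0 : Vd (k + 2)) 2 := mem_ball_self two_pos
  have hσ0 : pr (χ.σ 0) = pr v := by
    have h1 := pa_pr_q hv hU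
    rwa [hq] at h1
  have hcont : ContinuousAt (fun p => pr (χ.σ p)) (0 : Vd (k + 2)) := by
    have h1 : ContinuousAt pr (χ.σ 0) := Pool.Agent.H62.EF.continuousAt_pr (ne_zero G.cone (χ.σ_mem 0 h0).1)
    exact ContinuousAt.comp (f := χ.σ) h1 (χ.σ_an 0 h0).continuousAt
  obtain ⟨s₀, hs₀, hs⟩ := Metric.continuousAt_iff.1 hcont (r / 12) (by positivity)
  rw [hσ0] at hs
  have hs2 : 0 < min s₀ 2 := lt_min hs₀ two_pos
  have hv0 : v ≠ 0 := ne_zero G.cone hv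
  -- the radius
  have h1 : ∀ᶠ x in 𝓝 v, x ∈ χ.U := χ.isOpen_U.mem_nhds hU
  have h2 : ∀ᶠ x in 𝓝 v, ‖χ.q x‖ < min s₀ 2 := by
    have hc : ContinuousAt (fun x => ‖χ.q x‖) v := (χ.q_an v hU).continuousAt.norm
    have h3 : (fun x => ‖χ.q x‖) v < min s₀ 2 := by simpa [hq] using hs2
    exact hc.tendsto.eventually_lt_const h3
  have h3 : ∀ᶠ x in 𝓝 v, dist (pr x) (pr v) < r / 12 :=
    (Pool.Agent.H62.EF.continuousAt_pr hv0).eventually (Metric.ball_mem_nhds _ (by positivity))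
  obtain ⟨R₀, hR₀, hall⟩ := Metric.eventually_nhds_iff_ball.1 ((h1.and h2).and h3)
  have hin : ∀ x ∈ ball v (min R₀ (r / 2)), (x ∈ χ.U ∧ ‖χ.q x‖ < min s₀ 2) ∧ dist (pr x) (pr v) < r / 12 :=
    fun x hx => hall x (ball_subset_ball (min_le_left _ _) hx)
  refine ⟨min R₀ (r / 2), fun x => A (χ.q x) / (ρ : ℂ) ^ (k + 1), lt_min hR₀ (by positivity), hv1, hv, hu, ?_, ?_⟩
  · intro x hx
    obtain ⟨⟨hxU, hxq⟩, -⟩ := hin x hx
    have h4 : AnalyticAt ℂ (fun x => A (χ.q x)) x :=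
      AnalyticAt.fun_comp (hA.an _ (mem_ball_zero_iff.2 (hxq.trans_le (min_le_right _ _)))) (χ.q_an x hxU)
    simp only [div_eq_mul_inv]
    exact (h4.differentiableAt.mul_const _).differentiableWithinAt
  · intro y hy x hx hxb hxy x' hx' hxb' hxy'
    obtain ⟨⟨hxU, hxq⟩, hxd⟩ := hin x hxb
    obtain ⟨⟨hxU', hxq'⟩, hxd'⟩ := hin x' hxb'
    have hyr : dist y y₀ ≤ r / 2 := (lt_of_lt_of_le (mem_ball.1 hy) (min_le_right _ _)).le
    have hyc : y ∈ closedBall y₀ r := by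
      rw [mem_closedBall]
      linarith
    obtain ⟨-, -, hc1⟩ := hcap.cap y hyc x hx hxy (by linarith)
    obtain ⟨-, -, hc2⟩ := hcap.cap y hyc x' hx' hxy' (by linarith)
    have hb1 : χ.q x ∈ ball (0 : Vd (k + 2)) 2 := mem_ball_zero_iff.2 (hxq.trans_le (min_le_right _ _))
    have hb2 : χ.q x' ∈ ball (0 : Vd (k + 2)) 2 := mem_ball_zero_iff.2 (hxq'.trans_le (min_le_right _ _))
    have hrel : IRel α (r / 6) y (pr x) (pr x') ((A (χ.q x') - A (χ.q x)) / (ρ : ℂ) ^ (k + 1)) := by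
      refine ⟨χ, y₀, ρ, A, χ.q x, χ.q x', hm, hA, hb1, hb2, hc1, hc2, pa_pr_q hx hxU, pa_pr_q hx' hxU', ?_, rfl⟩
      intro θ hθ
      have h5 := pa_seg hxq hxq' hθ
      have h6 := hs (x := χ.q x + (θ : ℂ) • (χ.q x' - χ.q x)) (by
        rw [dist_zero_right]
        exact h5.trans_le (min_le_left _ _))
      have h7 := dist_triangle (pr (χ.σ (χ.q x + (θ : ℂ) • (χ.q x' - χ.q x)))) (pr v) (pr x)
      rw [dist_comm (pr v)] at h7
      linarith
    rw [jj_eq G.cone G.tor G.lat ⟨r / 6, by positivity, ⟨χ, y₀, ρ, pa_cap_move hcap (by linarith) hyr (by linarith)⟩, hrel⟩]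
    exact sub_div _ _ _

end Pool.Agent.G3.R

end
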