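import Pool.Agent.H94.G4T.M21
import Pool.Agent.H94.G4T.M72
import Pool.Agent.H94.G4T.M91

/-! The parts of this file: G4.A.CmL, G3.R.StepA. -/

section

/-!
# G4 A CmL: the limit of the combinations and the integrals of the forms

`fch_lim`: if the derivatives of the primitives along `cX` converge to `K j x` (`cmb_K`), then `cX c f v n (w n)` converges to a vector `Z`, and over `Gd D δ'` the norm of `Z` and the numbers `‖K j x‖ exp (wt W)` bound each other.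
-/

set_option autoImplicit false

open Topology Filter Metric

namespace Pool.Agent.G4.A

open Pool.Agent.H36.BP (EN fs wd)
open Pool.Agent.H14.PP (IsCone CurveAt Tan)
open Pool.Agent.H62.EF (MN pr)
open Pool.Agent.AD (Vd Chart Charts IsGerm)
open Pool.Agent.TG
open Pool.Agent.G3
open Pool.Agent.G3.A
open Pool.Agent.G3.C (Gc nv nd nv_pr)

variable {N k : ℕ} {X : Set (EN N)} {Λ : AddSubgroup (Vd (k + 1))} {u : EN N → Vd (k + 1)} {D B Bad : Set (Vd (k + 1))} {a : Vd (k + 1)}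
  {Γ : AddSubgroup (Vd (k + 1))} {J rW : ℕ} {W : Fin rW → Vd (k + 1) →L[ℂ] ℂ} {α : Fin J → VForm X Λ u} {c₀ C₀ ρ δ : ℝ}

variable {ι : Type*} {𝒰 : Ultrafilter ι} {M : ℕ} {y : Fin M → ι → Vd (k + 1)} {y₀ : Vd (k + 1)} {f : Fin M → ι → ℂ → MN N} {g : ℂ → MN N} {c : ι → Fin M → ℂ → ℂ}

/-- the unit vectors over the points of a curve -/
theorem hc_unit (hX : IsCone X) (hu : TMap X Λ u) {f : ℂ → MN N} {y : Vd (k + 1)} (hf : f ∈ Hc X Λ u a y) {z : ℂ} {v : EN N} (hv : ‖v‖ = 1) (hvf : pr v = f z) :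
    v ∈ X ∧ u v - (y + z • a) ∈ Λ := by
  obtain ⟨p, hp, hpm, hpu⟩ := hc_mem hf z
  have hv0 : v ≠ 0 := by
    intro h
    rw [h, norm_zero] at hv
    exact zero_ne_one hv
  obtain ⟨e, he, hev⟩ := (Pool.Agent.H62.EF.pr_eq_iff hv0 (ne_zero hX hp)).1 (hvf.trans hpm.symm)
  rw [hev]
  exact ⟨hX.smul_mem p hp _ he, smul_mem_lat hu hp hpu he⟩

theorem hc_exu (hX : IsCone X) {f : ℂ → MN N} {y : Vd (k + 1)} (hf : f ∈ Hc X Λ u a y) (z : ℂ) : ∃ v : EN N, ‖v‖ = 1 ∧ pr v = f z := by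
  obtain ⟨p, hp, hpm, hpu⟩ := hc_mem hf z
  obtain ⟨e, he, hvX, hv1⟩ := exists_unit hX hp
  exact ⟨e • p, mem_sphere_zero_iff_norm.1 hv1, by rw [Pool.Agent.H62.EF.pr_smul _ he, hpm]⟩

theorem two_lim {Y : Type*} [NormedAddCommGroup Y] {x : ℂ} {s P Q : ι → ℂ → Y} (h1 : ∀ ε : ℝ, 0 < ε → ∃ t : ℝ, 0 < t ∧ ∀ᶠ n in (𝒰 : Filter ι), ∀ x' ∈ ball x t, ‖s n x' - P n x'‖ ≤ ε)
    (h2 : ∀ ε : ℝ, 0 < ε → ∃ t : ℝ, 0 < t ∧ ∀ᶠ n in (𝒰 : Filter ι), ∀ x' ∈ ball x t, ‖s n x' - Q n x'‖ ≤ ε) {w : ι → ℂ} (hw : Tendsto w 𝒰 (𝓝 x)) :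
    Tendsto (fun n => P n (w n) - Q n (w n)) 𝒰 (𝓝 0) := by
  rw [Metric.tendsto_nhds]
  intro ε hε
  obtain ⟨t₁, ht₁, h3⟩ := h1 (ε / 3) (by linarith)
  obtain ⟨t₂, ht₂, h4⟩ := h2 (ε / 3) (by linarith)
  filter_upwards [h3, h4, hw.eventually (ball_mem_nhds x ht₁), hw.eventually (ball_mem_nhds x ht₂)] with n a1 a2 b1 b2
  have a3 := a1 (w n) b1
  have a4 := a2 (w n) b2
  rw [dist_zero_right]
  have e : P n (w n) - Q n (w n) = (s n (w n) - Q n (w n)) - (s n (w n) - P n (w n)) := by abel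
  rw [e]
  refine (norm_sub_le _ _).trans_lt ?_
  linarith

theorem fd_comp {Y : Type*} [NormedAddCommGroup Y] [NormedSpace ℂ Y] {h : EN N → ℂ} {v : EN N} {y₁ : Vd (k + 1)} {G : ℂ × Vd (k + 1) → Y} (hh : AnalyticAt ℂ h v)
    (hG : AnalyticAt ℂ G (h v, y₁)) (w : EN N) : fderiv ℂ (fun p : EN N × Vd (k + 1) => G (h p.1, p.2)) (v, y₁) (w, 0) = fderiv ℂ h v w • fderiv ℂ G (h v, y₁) (1, 0) := by
  have h1 : HasFDerivAt (fun p : EN N × Vd (k + 1) => h p.1) ((fderiv ℂ h v).comp (ContinuousLinearMap.fst ℂ (EN N) (Vd (k + 1)))) (v, y₁) :=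
    HasFDerivAt.comp (g := h) (f := fun p : EN N × Vd (k + 1) => p.1) (v, y₁) hh.differentiableAt.hasFDerivAt hasFDerivAt_fst
  have h2 : HasFDerivAt (fun p : EN N × Vd (k + 1) => (h p.1, p.2)) (((fderiv ℂ h v).comp (ContinuousLinearMap.fst ℂ (EN N) (Vd (k + 1)))).prod (ContinuousLinearMap.snd ℂ (EN N) (Vd (k + 1)))) (v, y₁) :=
    h1.prodMk hasFDerivAt_snd
  have h3 : HasFDerivAt (fun p : EN N × Vd (k + 1) => G (h p.1, p.2)) ((fderiv ℂ G (h v, y₁)).comp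
      (((fderiv ℂ h v).comp (ContinuousLinearMap.fst ℂ (EN N) (Vd (k + 1)))).prod (ContinuousLinearMap.snd ℂ (EN N) (Vd (k + 1))))) (v, y₁) :=
    HasFDerivAt.comp (g := G) (f := fun p : EN N × Vd (k + 1) => (h p.1, p.2)) (v, y₁) hG.differentiableAt.hasFDerivAt h2
  rw [h3.fderiv]
  have e : ((fderiv ℂ h v w, (0 : Vd (k + 1))) : ℂ × Vd (k + 1)) = fderiv ℂ h v w • ((1 : ℂ), (0 : Vd (k + 1))) := by
    ext
    · simp
    · simp
  have e2 : ((fderiv ℂ G (h v, y₁)).comp (((fderiv ℂ h v).comp (ContinuousLinearMap.fst ℂ (EN N) (Vd (k + 1)))).prod (ContinuousLinearMap.snd ℂ (EN N) (Vd (k + 1))))) (w, 0) =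
      fderiv ℂ G (h v, y₁) (fderiv ℂ h v w, 0) := rfl
  rw [e2, e, map_smul]

theorem fd_an {Y : Type*} [NormedAddCommGroup Y] [NormedSpace ℂ Y] {h : EN N → ℂ} {v : EN N} {y₁ : Vd (k + 1)} {G : ℂ × Vd (k + 1) → Y} (hh : AnalyticAt ℂ h v)
    (hG : AnalyticAt ℂ G (h v, y₁)) : AnalyticAt ℂ (fun p : EN N × Vd (k + 1) => G (h p.1, p.2)) (v, y₁) := by
  have h1 : AnalyticAt ℂ (fun p : EN N × Vd (k + 1) => h p.1) (v, y₁) := AnalyticAt.fun_comp (g := h) (f := fun p : EN N × Vd (k + 1) => p.1) hh analyticAt_fst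
  exact AnalyticAt.fun_comp (g := G) (f := fun p : EN N × Vd (k + 1) => (h p.1, p.2)) hG (h1.prod analyticAt_snd)

end Pool.Agent.G4.A

end

section

/-!
# G3 R StepA: order zero, and the sequences of the proof by contradiction
-/

set_option autoImplicit false

open Topology Filter Metric

namespace Pool.Agent.G3.R

open Pool.Agent.H36.BP (EN fs wd)
open Pool.Agent.H14.PP (IsCone CurveAt Tan)
open Pool.Agent.H62.EF (MN pr)
open Pool.Agent.AD (Vd Chart Charts IsGerm)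
open Pool.Agent.TG
open Pool.Agent.G3.C (Gc nv nd nv_pr)
open Pool.Agent.G3.A

variable {N k : ℕ} {X : Set (EN N)} {Λ : AddSubgroup (Vd (k + 1))} {u : EN N → Vd (k + 1)} {D B Bad : Set (Vd (k + 1))} {a b w : Vd (k + 1)} {E : Submodule ℝ (Vd (k + 1))}
  {SS : Set (Vd (k + 1) → MN N)} {J : ℕ} {α : Fin J → VForm X Λ u} {c₀ C₀ ρ δ : ℝ}

theorem norm_smul_w {s r : ℝ} (hr : |s| ≤ r) (w : Vd (k + 1)) : ‖(s : ℂ) • w‖ ≤ r * ‖w‖ := by
  rw [norm_smul, Complex.norm_real]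
  exact mul_le_mul_of_nonneg_right hr (norm_nonneg _)

/-- the values in the affine chart are bounded -/
theorem nv_le_two (hS : Shs X Λ u D a b E SS) (hL : LG Λ D Bad a) (hw : w ∈ E) {δ' : ℝ} (hδ' : 0 < δ') : ∃ r : ℝ, 0 < r ∧ ∀ φ ∈ SS, ∀ y ∈ Tb b E, y ∈ Gd D δ' → ∀ v : EN N, ‖v‖ = 1 →
    pr v = φ y → ∀ s : ℝ, |s| ≤ r → ‖nv v (φ (y + (s : ℂ) • w))‖ ≤ 2 := by
  obtain ⟨ε, hε, h1⟩ := nv_near (N := N) one_pos
  obtain ⟨r, hr, h2⟩ := hS.unif hL hδ' hε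
  have hw1 : 0 < ‖w‖ + 1 := by positivity
  refine ⟨r / (‖w‖ + 1), by positivity, fun φ hφ y hy hyG v hv hvφ s hs => ?_⟩
  have h3 : ‖y + (s : ℂ) • w - y‖ ≤ r := by
    rw [add_sub_cancel_left]
    refine (norm_smul_w hs w).trans ?_
    rw [div_mul_eq_mul_div, div_le_iff₀ hw1]
    nlinarith [norm_nonneg w]
  have h4 := h2 φ hφ y hy hyG (y + (s : ℂ) • w) (tb_add hy (smul_mem_E hw s)) h3
  rw [← hvφ] at h4
  have h5 := h1 v hv _ h4
  have h6 := norm_sub_norm_le (nv v (φ (y + (s : ℂ) • w))) v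
  rw [hv] at h6
  linarith

theorem ddb_zero' (S : DA X Λ u D B Bad a α c₀ C₀ ρ δ) (hS : Shs X Λ u D a b E SS) (hw : w ∈ E) : DDb D (Tb b E) SS w 0 := by
  intro δ' hδ'
  obtain ⟨r, hr, h1⟩ := nv_le_two hS S.lg hw hδ'
  refine ⟨r, 2, hr, by norm_num, fun φ hφ y hy hyG v hv hvφ σ hσ => ?_⟩
  rw [dd_zero]
  exact h1 φ hφ y hy hyG v hv hvφ (σ 0) (hσ.le 0 le_rfl)

/-- a near maximum -/
theorem near_max {A : Set ℝ} (hA : BddAbove A) : ∃ M : ℝ, 1 ≤ M ∧ (∀ x ∈ A, x ≤ M) ∧ (1 < M → ∃ x ∈ A, M / 2 ≤ x) := by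
  refine ⟨max 1 (sSup A), le_max_left _ _, fun x hx => (le_csSup hA hx).trans (le_max_right _ _), fun h => ?_⟩
  have h1 : max 1 (sSup A) = sSup A := by
    rcases max_choice 1 (sSup A) with h2 | h2
    · rw [h2] at h
      exact absurd h (lt_irrefl _)
    · exact h2
  have h3 : A.Nonempty := by
    by_contra hne
    rw [Set.not_nonempty_iff_eq_empty] at hne
    rw [h1, hne, Real.sSup_empty] at h
    linarith
  rw [h1] at h ⊢
  obtain ⟨x, hx, hlt⟩ := exists_lt_of_lt_csSup h3 (show sSup A / 2 < sSup A by linarith)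
  exact ⟨x, hx, hlt.le⟩

/-- the size of the divided difference of order `m` at `y` in the chart `nv v` -/
noncomputable def sz (w : Vd (k + 1)) (m : ℕ) (σ : ℕ → ℝ) (φ : Vd (k + 1) → MN N) (y : Vd (k + 1)) (v : EN N) : ℝ := ‖dd m σ fun s : ℝ => nv v (φ (y + (s : ℂ) • w))‖

end Pool.Agent.G3.R

end
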