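import Pool.Agent.H94.G4T.M115
import Pool.Agent.H94.G4T.M78

/-! The parts of this file: AD.F.Defs, G3.R.PrmI. -/

section

/-!
# AD F Defs: the definitions of the function theory half of project AD (all dimensions)

`X` is the cone (without `0`) of a projective manifold, `pd x y` the distance of the points of projective space given by `x` and `y`,
`vel ν F z` the length of `F'(z)` for the pseudo-length `ν`.

`Tube`: a function `ρ a x`, defined for `x` near the germ at `a` of the entire curve `g`, which measures the distance of `x` from that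
germ and grows along every holomorphic curve.  `Setup`: the data used in the function theory half of the project: a pseudo-length, a
finite family of doubly periodic curves `g i` which contains all the entire curves of constant speed one, with tubes.
`Setup.Fol`: the curve `F` follows `g i` over `U`, with the lift `ζ`.
-/

set_option autoImplicit false

open Topology Filter Metric

namespace Pool.Agent.AD.F

open Pool.Agent.H36.BP (EN fs wd Sub Curve)
open Pool.Agent.H14.PP (IsCone Tan CurveAt)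
open Pool.Agent.H22.W (PseudoLength)
open Pool.Agent.H62.EF (pr Lat)

variable {N : ℕ} {X : Set (EN N)}

/-- the distance of the points of projective space given by `x` and `y` -/
noncomputable def pd (x y : EN N) : ℝ := dist (pr x) (pr y)

/-- the length of `F'(z)` -/
noncomputable def vel (ν : PseudoLength X) (F : ℂ → EN N) (z : ℂ) : ℝ := ν.toFun (F z) (deriv F z)

/-- A tube around the entire curve `g` with the periods `Λ`. -/
structure Tube (X : Set (EN N)) (g : ℂ → EN N) (Λ : AddSubgroup ℂ) (r ε κ C : ℝ) (ρ : ℂ → EN N → ℝ) : Prop where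
  nonneg : ∀ a x, 0 ≤ ρ a x
  /-- (T0) -/
  smul : ∀ a, ∀ x ∈ X, ∀ c : ℂ, c ≠ 0 → ρ a (c • x) = ρ a x
  /-- (T4) -/
  per : ∀ l ∈ Λ, ∀ a x, ρ (a + l) x = ρ a x
  /-- (T1) -/
  le_one : ∀ a, ∀ x ∈ X, pd x (g a) < ε → ρ a x ≤ 1
  /-- (T1) -/
  foot : ∀ a, ∀ x ∈ X, pd x (g a) < ε → ∃ w, ‖w - a‖ ≤ r / 8 ∧ pd x (g w) ≤ C * ρ a x
  /-- (T1) -/
  le : ∀ a, ∀ x ∈ X, pd x (g a) < ε → ∀ w, ‖w - a‖ ≤ r / 8 → ρ a x ≤ C * pd x (g w)
  /-- (T2) -/
  indep : ∀ a b, ∀ x ∈ X, ‖a - b‖ ≤ r / 2 → pd x (g a) < ε → pd x (g b) < ε → ρ a x = ρ b x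
  /-- (T3) -/
  cont : ∀ a, ContinuousOn (ρ a) {x | x ∈ X ∧ pd x (g a) < ε}
  /-- (T3) -/
  sub : ∀ (a : ℂ) (F : ℂ → EN N) (z₀ : ℂ), CurveAt X F z₀ → pd (F z₀) (g a) < ε → 0 < ρ a (F z₀) →
    Sub (fun z => ρ a (F z)) z₀ (κ * fs (F z₀) (deriv F z₀) ^ 2)
  /-- (T5) -/
  inj : ∀ a b, ‖a - b‖ ≤ 4 * r → ‖a - b‖ ≤ C * pd (g a) (g b)

/-- The data of the function theory half. -/
structure Setup (X : Set (EN N)) where
  /-- the pseudo-length -/
  ν : PseudoLength X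
  /-- the index set of the curves -/
  ι : Type
  /-- the curves -/
  g : ι → ℂ → EN N
  /-- their periods -/
  Λ : ι → AddSubgroup ℂ
  /-- their tubes -/
  ρ : ι → ℂ → EN N → ℝ
  /-- the radius of the tubes in the domain -/
  r : ℝ
  /-- the radius of the tubes in the space -/
  ε : ℝ
  /-- the rate -/
  κ : ℝ
  /-- a constant -/
  C : ℝ
  /-- the number of branches at the points `pts` -/
  M : ℕ
  /-- the points in several branches -/
  pts : Set (EN N)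
  cone : IsCone X
  fin : Finite ι
  r_pos : 0 < r
  ε_pos : 0 < ε
  κ_pos : 0 < κ
  C_ge : 1 ≤ C
  small : 64 * C * ε ≤ r
  M_pos : 1 ≤ M
  entire : ∀ i, Differentiable ℂ (g i)
  mem : ∀ i z, g i z ∈ X
  unit : ∀ i z, vel ν (g i) z = 1
  lat : ∀ i, Lat (Λ i)
  per : ∀ i, ∀ l ∈ Λ i, ∀ z, pr (g i (z + l)) = pr (g i z)
  tube : ∀ i, Tube X (g i) (Λ i) r ε κ C (ρ i)
  /-- the pseudo-length is bounded -/
  bound : ∀ x v, Tan X x v → ν.toFun x v ≤ C * fs x v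
  /-- curves in the disc with speed at most one have bounded derivative at `0` -/
  zal : ∀ F : ℂ → EN N, Curve X (ball 0 1) F → (∀ z ∈ ball (0 : ℂ) 1, vel ν F z ≤ 1) → fs (F 0) (deriv F 0) ≤ C
  /-- the family contains all the entire curves of speed one -/
  all : ∀ F : ℂ → EN N, Differentiable ℂ F → (∀ z, F z ∈ X) → (∀ z, vel ν F z = 1) →
    ∃ (i : ι) (a b : ℂ), ‖a‖ = 1 ∧ ∀ z, pr (F z) = pr (g i (a * z + b))
  pts_fin : pts.Finite
  pts_mem : ∀ p ∈ pts, p ∈ X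
  /-- a point near two different branches is near one of the points `pts` -/
  sep : ∀ i j a b, ¬ (i = j ∧ ∃ l ∈ Λ i, ‖a - b - l‖ ≤ r) → ∀ x ∈ X, ∀ d : ℝ, d ≤ ε → pd x (g i a) ≤ d → pd x (g j b) ≤ d →
    ∃ p ∈ pts, pd x p ≤ C * d ^ ((M : ℝ)⁻¹)

namespace Setup

/-- The distance of `F` from the curve which it follows. -/
noncomputable def R (S : Setup X) (i : S.ι) (ζ : ℂ → ℂ) (F : ℂ → EN N) (z : ℂ) : ℝ := S.ρ i (ζ z) (F z)

end Setup

end Pool.Agent.AD.F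

end

section

/-!
# G3 R PrmI: the inverse of a local primitive

As `PrmA` (straight chart `χ` with `χ.q v = 0`, `A`, `Ψ x = A (χ.q x) / ρ ^ (k + 1)`).  At `y₀ ∉ D` some `α j` is not `0` at `v` (`Sepa`), so `tc (α j) χ (ms c ρ) ≠ 0` at `χ.q v` (the vectors `∂ᵢ σ` and `σ` span the tangent space:
`VForm.det`, `add_smul`; compare `JN` in `G3/A` and `FrmA`), and `p ↦ (A p / ρ ^ (k + 1), ms c ρ p)` has an analytic inverse near `(Ψ v, y₀)` (its derivative at `χ.q v` is bijective; analytic inverse function theorem);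
`Θ (t, y) = (inner ℂ v (σ p))⁻¹ • σ p`.
-/

set_option autoImplicit false

open Topology Filter Metric

namespace Pool.Agent.G3.R

open Pool.Agent.H36.BP (EN fs wd)
open Pool.Agent.H14.PP (IsCone CurveAt Tan)
open Pool.Agent.H62.EF (MN pr)
open Pool.Agent.AD (Vd Chart Charts IsGerm)
open Pool.Agent.TG
open Pool.Agent.G3.C (Gc nv nd nv_pr)
open Pool.Agent.G3.A

variable {N k : ℕ} {X : Set (EN N)} {Λ : AddSubgroup (Vd (k + 1))} {u : EN N → Vd (k + 1)} {D B Bad : Set (Vd (k + 1))} {a : Vd (k + 1)}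

private theorem pi_cons_an {E : Type} [NormedAddCommGroup E] [NormedSpace ℂ E] {f : E → ℂ} {g : E → Vd (k + 1)} {x : E} (hf : AnalyticAt ℂ f x) (hg : AnalyticAt ℂ g x) :
    AnalyticAt ℂ (fun x => (Fin.cons (f x) (g x) : Vd (k + 2))) x := by
  rw [analyticAt_pi_iff]
  intro i
  refine Fin.cases ?_ (fun j => ?_) i
  · simpa using hf
  · simpa using (analyticAt_pi_iff.1 hg) j

theorem exists_prm_inv (G : Geo X Λ u D B) {J : ℕ} {α : Fin J → VForm X Λ u} (hs : Sepa D α) {y₀ : Vd (k + 1)} (hy₀ : y₀ ∉ D) {v : EN N} (hv : v ∈ X)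
    (hv1 : ‖v‖ = 1) (hu : u v - y₀ ∈ Λ) : ∃ (j : Fin J) (R : ℝ) (Ψ : EN N → ℂ) (r M : ℝ) (Θ : ℂ × Vd (k + 1) → EN N), Prm (α j) y₀ v R Ψ ∧ 0 < r ∧
      DifferentiableOn ℂ Θ (ball (Ψ v, y₀) r) ∧ (∀ p ∈ ball (Ψ v, y₀) r, ‖Θ p‖ ≤ M) ∧
      ∃ r' : ℝ, 0 < r' ∧ ∀ y ∈ ball y₀ r', ∀ x ∈ X, x ∈ ball v r' → u x - y ∈ Λ → inner ℂ v x = (1 : ℂ) → (Ψ x, y) ∈ ball (Ψ v, y₀) (r / 8) ∧ Θ (Ψ x, y) = x := by
  obtain ⟨j, vv, hvt, hne⟩ := hs y₀ hy₀ v hv hu
  obtain ⟨χ, ρ, R₀, K, hU, hq, hR₀, huc⟩ := uc_base G hy₀ hv hu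
  have hUC := huc y₀ (by simpa using hR₀) v (by simpa using hR₀)
  obtain ⟨A, hA⟩ := exists_prim (α j) χ hUC.str
  have hP := hUC.prm G hR₀ hv hv1 hu hA
  have h0 : (0 : Vd (k + 2)) ∈ ball (0 : Vd (k + 2)) 2 := mem_ball_self two_pos
  have hms0 : ms y₀ ρ (0 : Vd (k + 2)) = y₀ := by
    unfold ms
    have : tl (0 : Vd (k + 2)) = 0 := rfl
    rw [this, smul_zero, add_zero]
  have htc : tc (α j) χ (ms y₀ ρ) 0 ≠ 0 := by
    intro h
    apply hne
    rw [toFun_eq G.cone G.tor (α j) χ hv hU hu (υ := ms y₀ ρ) (by rw [hq, hms0]) vv hvt, hq, h, mul_zero]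
  have hρ : (ρ : ℂ) ≠ 0 := by exact_mod_cast hUC.str.pos.ne'
  have hρk : (ρ : ℂ) ^ (k + 1) ≠ 0 := pow_ne_zero _ hρ
  set Ψ : EN N → ℂ := fun x => A (χ.q x) / (ρ : ℂ) ^ (k + 1) with hΨ
  -- the map `f`
  set f : Vd (k + 2) → Vd (k + 2) := fun p => Fin.cons (A p / (ρ : ℂ) ^ (k + 1)) (ms y₀ ρ p) with hf
  have hAan : AnalyticAt ℂ (fun p => A p / (ρ : ℂ) ^ (k + 1)) (0 : Vd (k + 2)) := by
    simp only [div_eq_mul_inv]
    exact (hA.an 0 h0).mul analyticAt_const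
  have hfan : AnalyticAt ℂ f 0 := pi_cons_an hAan (ms_an y₀ ρ 0)
  have hinj : ∀ w, fderiv ℂ f 0 w = 0 → w = 0 := by
    intro w hw
    have hfd : HasFDerivAt f (fderiv ℂ f 0) 0 := hfan.differentiableAt.hasFDerivAt
    have hpi := hasFDerivAt_pi'.1 hfd
    have hc0 : fderiv ℂ (fun p => A p / (ρ : ℂ) ^ (k + 1)) 0 w = 0 := by
      have h1 := (hpi 0).fderiv
      have h2 : (fun x => f x 0) = fun p => A p / (ρ : ℂ) ^ (k + 1) := by
        funext p
        simp [hf]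
      rw [h2] at h1
      rw [h1]
      simp [hw]
    have hcs : ∀ i : Fin (k + 1), w i.succ = 0 := by
      intro i
      have h1 := (hpi i.succ).fderiv
      have h2 : (fun x => f x i.succ) = fun p : Vd (k + 2) => y₀ i + (ρ : ℂ) * p i.succ := by
        funext p
        simp [hf, ms, tl]
      rw [h2] at h1
      have h3 : HasFDerivAt (fun p : Vd (k + 2) => y₀ i + (ρ : ℂ) * p i.succ) ((ρ : ℂ) • (ContinuousLinearMap.proj (R := ℂ) (φ := fun _ : Fin (k + 2) => ℂ) i.succ)) 0 :=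
        (((ContinuousLinearMap.proj (R := ℂ) (φ := fun _ : Fin (k + 2) => ℂ) i.succ).hasFDerivAt).const_mul (ρ : ℂ)).const_add (y₀ i)
      rw [h3.fderiv] at h1
      have h4 := congrArg (fun L => L w) h1
      simp [hw] at h4
      exact h4.resolve_left hUC.str.pos.ne'
    have hw0 : w = w 0 • (Pi.single 0 1 : Vd (k + 2)) := by
      funext i
      refine Fin.cases ?_ (fun l => ?_) i
      · simp
      · simp [hcs l]
    have h5 : fderiv ℂ (fun p => A p / (ρ : ℂ) ^ (k + 1)) 0 w = fderiv ℂ A 0 w / (ρ : ℂ) ^ (k + 1) := by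
      have h6 : HasFDerivAt (fun p => A p / (ρ : ℂ) ^ (k + 1)) (((ρ : ℂ) ^ (k + 1))⁻¹ • fderiv ℂ A 0) 0 := by
        have h7 := ((hA.an 0 h0).differentiableAt.hasFDerivAt).const_mul (((ρ : ℂ) ^ (k + 1))⁻¹)
        refine h7.congr_of_eventuallyEq (Eventually.of_forall fun p => ?_)
        simp only [div_eq_inv_mul]
      rw [h6.fderiv]
      simp [div_eq_inv_mul]
    rw [h5, hw0, map_smul, hA.der 0 h0, smul_eq_mul, div_eq_zero_iff] at hc0
    rcases hc0 with hc0 | hc0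
    · rcases mul_eq_zero.1 hc0 with hc0 | hc0
      · rw [hw0, hc0, zero_smul]
      · exact absurd hc0 htc
    · exact absurd hc0 hρk
  obtain ⟨g, hgan, hgf, -, hg0⟩ := Pool.Agent.H62.BU.local_inverse hfan hinj
  have hf0 : f 0 = Fin.cons (Ψ v) y₀ := by
    simp only [hf, hΨ, hq, hms0]
  rw [hf0] at hgan hg0
  obtain ⟨c, hc, hcv⟩ := (χ.surj v hv hU).2
  rw [hq] at hcv
  have hin : ∀ x : EN N, inner ℂ v x = innerSL ℂ v x := fun x => rfl
  have hv0 : (inner ℂ v (χ.σ 0) : ℂ) ≠ 0 := by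
    intro h
    have h1 : (inner ℂ v v : ℂ) = 1 := by
      rw [inner_self_eq_norm_sq_to_K, hv1]
      simp
    have h2 : (inner ℂ v v : ℂ) = c * inner ℂ v (χ.σ 0) := by
      rw [← inner_smul_right, ← hcv]
    rw [h2, h, mul_zero] at h1
    exact zero_ne_one h1
  set Θ : ℂ × Vd (k + 1) → EN N := fun p => (inner ℂ v (χ.σ (g (Fin.cons p.1 p.2))) : ℂ)⁻¹ • χ.σ (g (Fin.cons p.1 p.2)) with hΘ
  have hcons : AnalyticAt ℂ (fun p : ℂ × Vd (k + 1) => (Fin.cons p.1 p.2 : Vd (k + 2))) (Ψ v, y₀) := pi_cons_an analyticAt_fst analyticAt_snd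
  have hgc : AnalyticAt ℂ (fun p : ℂ × Vd (k + 1) => g (Fin.cons p.1 p.2)) (Ψ v, y₀) := AnalyticAt.fun_comp (g := g) (f := fun p : ℂ × Vd (k + 1) => (Fin.cons p.1 p.2 : Vd (k + 2))) hgan hcons
  have hσg : AnalyticAt ℂ (fun p : ℂ × Vd (k + 1) => χ.σ (g (Fin.cons p.1 p.2))) (Ψ v, y₀) := by
    refine AnalyticAt.fun_comp (g := χ.σ) (f := fun p : ℂ × Vd (k + 1) => g (Fin.cons p.1 p.2)) ?_ hgc
    simp only [hg0]
    exact χ.σ_an 0 h0
  have hΘan : AnalyticAt ℂ Θ (Ψ v, y₀) := by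
    have h1 : AnalyticAt ℂ (fun p : ℂ × Vd (k + 1) => (inner ℂ v (χ.σ (g (Fin.cons p.1 p.2))) : ℂ)) (Ψ v, y₀) := by
      simp only [hin]
      exact ((innerSL ℂ v).analyticAt _).fun_comp hσg
    refine (h1.inv ?_).smul hσg
    simp only [hg0]
    exact hv0
  -- the radius `r`
  have hev : ∀ᶠ p in 𝓝 (Ψ v, y₀), DifferentiableAt ℂ Θ p ∧ ‖Θ p‖ < ‖Θ (Ψ v, y₀)‖ + 1 :=
    (hΘan.eventually_analyticAt.mono fun p hp => hp.differentiableAt).and (hΘan.continuousAt.norm.eventually_lt_const (by linarith))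
  obtain ⟨r, hr, hball⟩ := Metric.eventually_nhds_iff_ball.1 hev
  refine ⟨j, R₀, Ψ, r, ‖Θ (Ψ v, y₀)‖ + 1, Θ, hP, hr, fun p hp => (hball p hp).1.differentiableWithinAt, fun p hp => (hball p hp).2.le, ?_⟩
  -- the radius `r'`
  have hΨc : ContinuousAt Ψ v := (hP.diff.differentiableAt (isOpen_ball.mem_nhds (mem_ball_self hR₀))).continuousAt
  have hqc : ContinuousAt χ.q v := (χ.q_an v hU).continuousAt
  have he1 : ∀ᶠ x in 𝓝 v, dist (Ψ x) (Ψ v) < r / 8 := hΨc.eventually (ball_mem_nhds _ (by positivity))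
  have he2 : ∀ᶠ x in 𝓝 v, g (f (χ.q x)) = χ.q x := by
    have : Tendsto χ.q (𝓝 v) (𝓝 0) := by
      have h1 := hqc.tendsto
      rwa [hq] at h1
    exact this.eventually hgf
  obtain ⟨r₁, hr₁, hb⟩ := Metric.eventually_nhds_iff_ball.1 (he1.and he2)
  refine ⟨min r₁ (min R₀ (r / 8)), lt_min hr₁ (lt_min hR₀ (by positivity)), fun y hy x hx hxb hux hix => ?_⟩
  have hxb1 : x ∈ ball v r₁ := ball_subset_ball (min_le_left _ _) hxb
  have hxb2 : x ∈ ball v R₀ := ball_subset_ball ((min_le_right _ _).trans (min_le_left _ _)) hxb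
  have hy2 : y ∈ ball y₀ R₀ := ball_subset_ball ((min_le_right _ _).trans (min_le_left _ _)) hy
  have hy3 : y ∈ ball y₀ (r / 8) := ball_subset_ball ((min_le_right _ _).trans (min_le_right _ _)) hy
  obtain ⟨hb1, hb2⟩ := hb x hxb1
  have hcap := hUC.cap y hy2 x hx hxb2 hux
  have hxU := (hUC.mem x hxb2).1
  refine ⟨?_, ?_⟩
  · rw [mem_ball, Prod.dist_eq, max_lt_iff]
    exact ⟨hb1, hy3⟩
  · obtain ⟨c', hc', hx'⟩ := (χ.surj x hx hxU).2
    have h1 : g (Fin.cons (Ψ x) y) = χ.q x := by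
      rw [← hb2]
      congr 1
      rw [hf]
      simp only [hcap, hΨ]
    simp only [hΘ, h1]
    have h2 : c' * inner ℂ v (χ.σ (χ.q x)) = 1 := by
      rw [← inner_smul_right, ← hx', hix]
    have h3 : (inner ℂ v (χ.σ (χ.q x)) : ℂ)⁻¹ = c' := by
      have h4 : (inner ℂ v (χ.σ (χ.q x)) : ℂ) ≠ 0 := right_ne_zero_of_mul_eq_one h2
      field_simp
      linear_combination -h2
    rw [h3, ← hx']

end Pool.Agent.G3.R

end
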