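import Pool.Agent.H94.G4T.M05
import Pool.Agent.H94.G4T.M07
import Pool.Agent.H94.G4T.M10
import Pool.Agent.H94.G4T.M11
import Pool.Agent.H94.G4T.M14

/-! The parts of this file: G3.P.Ent, TG.SmA, TG.Cp. -/

section

/-!
# G3 P Ent: from local to global lifts

`Pool.Agent.H17.exists_global_lift` is the statement for maps `ℂ → PN N`; see the proof of `TG.disc_lift` (`TG/Lf`) for the passage between `MN N` and `PN N`.
-/

set_option autoImplicit false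

open Topology Filter Metric

namespace Pool.Agent.G3

open Pool.Agent.H36.BP (EN wd)
open Pool.Agent.H14.PP (IsCone CurveAt Tan)
open Pool.Agent.H62.EF (MN pr)
open Pool.Agent.AD (Vd)

variable {N k : ℕ} {X : Set (EN N)} {Λ : AddSubgroup (Vd (k + 1))} {u : EN N → Vd (k + 1)} {D : Set (Vd (k + 1))} {p : EN N → EN N → ℝ} {m : ℕ} {C : ℝ}

theorem entire_lift {f : ℂ → MN N} (hf : ∀ z, LLift f z) : ∃ F : ℂ → EN N, Differentiable ℂ F ∧ ∀ z, F z ≠ 0 ∧ f z = pr (F z) := by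
  classical
  have hV : ∀ z : ℂ, ∃ v : EN N, v ≠ 0 ∧ f z = pr v := by
    intro z
    obtain ⟨Φ, -, h⟩ := hf z
    exact ⟨Φ z, h.self_of_nhds.1, h.self_of_nhds.2⟩
  choose V hV0 hVf using hV
  have hofne : ∀ v : EN N, v ≠ 0 → v.ofLp ≠ 0 := by
    intro v hv h
    apply hv
    ext j
    exact congrFun h j
  obtain ⟨g, hg⟩ : ∃ g : ℂ → Pool.Agent.H17.PN N,
      ∀ z, g z = Projectivization.mk ℂ (V z).ofLp (hofne _ (hV0 z)) := ⟨_, fun _ => rfl⟩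
  have hgh : Pool.Agent.H17.HolomorphicInto g Set.univ := by
    intro z₀ _
    obtain ⟨Φ, hΦ, h⟩ := hf z₀
    refine ⟨fun w => (Φ w).ofLp, ?_, ?_⟩
    · rw [analyticAt_pi_iff]
      intro j
      exact ((EuclideanSpace.proj (𝕜 := ℂ) j : EN N →L[ℂ] ℂ).analyticAt _).comp hΦ
    · filter_upwards [h] with w hw
      refine ⟨hofne _ hw.1, ?_⟩
      have h1 : pr (V w) = pr (Φ w) := by
        rw [← hVf w, hw.2]
      obtain ⟨c, -, h2⟩ := (Pool.Agent.H62.EF.pr_eq_iff (hV0 _) hw.1).mp h1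
      rw [hg, Projectivization.mk_eq_mk_iff']
      exact ⟨c, by rw [h2]; rfl⟩
  obtain ⟨x, hx⟩ := Pool.Agent.H17.exists_global_lift hgh
  refine ⟨fun z => WithLp.toLp 2 fun j => (x j : ℂ → ℂ) z, ?_, fun z => ?_⟩
  · rw [differentiable_euclidean]
    intro j
    exact (x j).diff
  · obtain ⟨h1, h2⟩ := hx z
    have h4 : (WithLp.toLp 2 fun j => (x j : ℂ → ℂ) z : EN N) ≠ 0 := by
      intro h
      apply h1
      have h3 : (WithLp.toLp 2 fun j => (x j : ℂ → ℂ) z : EN N).ofLp = 0 := by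
        rw [h]
        rfl
      exact h3
    refine ⟨h4, ?_⟩
    rw [hg] at h2
    obtain ⟨c, hc, h6⟩ := Pool.Agent.H17.mk_eq_mk_cross h2
    have h7 : V z = c • (WithLp.toLp 2 fun j => (x j : ℂ → ℂ) z : EN N) := by
      ext j
      exact h6 j
    rw [hVf z, h7, Pool.Agent.H62.EF.pr_smul _ hc]

end Pool.Agent.G3

end

section

/-!
# TG SmA: closing up, and a holomorphic vector near a point where its projection is Lipschitz

`close_lift`: `φ` analytic with `φ y ≠ 0`, `φ y ∈ X` and `u (φ y) = υ y` modulo `Λ` on a dense set: this holds everywhere.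
`lip_lift`: `pr ∘ F` Lipschitz where `F ≠ 0` near `y₀`: `[F]` is holomorphic at `y₀`.
-/

set_option autoImplicit false

open Topology Filter Metric

namespace Pool.Agent.TG

open Pool.Agent.H36.BP (EN fs wd)
open Pool.Agent.H14.PP (IsCone)
open Pool.Agent.H62.EF (MN pr pr_smul pr_eq_iff continuousAt_pr isCompact_pr nm_close)
open Pool.Agent.AD (Vd)

variable {N k : ℕ} {X : Set (EN N)} {Λ : AddSubgroup (Vd (k + 1))} {u : EN N → Vd (k + 1)}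

theorem lat_isClosed (h : Lat Λ) : IsClosed (Λ : Set (Vd (k + 1))) := by
  obtain ⟨δ, hδ, hd⟩ := h.disc
  rw [← isSeqClosed_iff_isClosed]
  intro x w hx hw
  have h1 := hw.cauchySeq
  rw [Metric.cauchySeq_iff'] at h1
  obtain ⟨n, hn⟩ := h1 δ hδ
  have h2 : ∀ m ≥ n, x m = x n := by
    intro m hm
    have h3 := hd (x m - x n) (Λ.sub_mem (hx m) (hx n)) (by rw [← dist_eq_norm]; exact hn m hm)
    exact sub_eq_zero.mp h3
  have h4 : Tendsto x atTop (𝓝 (x n)) := by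
    refine tendsto_const_nhds.congr' ?_
    filter_upwards [eventually_ge_atTop n] with m hm
    exact (h2 m hm).symm
  rw [tendsto_nhds_unique hw h4]
  exact hx n

/-- a nonzero limit of points of the cone is a point of the cone -/
theorem mem_of_frequently {E : Type*} [TopologicalSpace E] (hX : IsCone X) {φ : E → EN N} {y : E} (hφ : ContinuousAt φ y) (h0 : φ y ≠ 0)
    (hfr : ∃ᶠ z in 𝓝 y, φ z ∈ X) : φ y ∈ X := by
  have h1 : φ y ∈ insert 0 X := by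
    have h2 : φ y ∈ closure (insert 0 X) := by
      rw [mem_closure_iff_frequently]
      exact hφ.tendsto.frequently (hfr.mono fun z hz => Set.mem_insert_of_mem _ hz)
    rwa [hX.closed.closure_eq] at h2
  exact h1.resolve_left h0

/-- closing up -/
theorem close_lift {E : Type*} [TopologicalSpace E] (hX : IsCone X) (ht : TMap X Λ u) (hl : Lat Λ) {φ : E → EN N} {υ : E → Vd (k + 1)} {y : E}
    (hφ : ContinuousAt φ y) (h0 : φ y ≠ 0) (hυ : ContinuousAt υ y) (hfr : ∃ᶠ z in 𝓝 y, φ z ∈ X ∧ u (φ z) - υ z ∈ Λ) :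
    φ y ∈ X ∧ u (φ y) - υ y ∈ Λ := by
  have h1 : φ y ∈ X := mem_of_frequently hX hφ h0 (hfr.mono fun z hz => hz.1)
  refine ⟨h1, ?_⟩
  obtain ⟨v, hv, hvu⟩ := ht.loc _ h1
  have h2 : ∃ᶠ z in 𝓝 y, v (φ z) - υ z ∈ (Λ : Set (Vd (k + 1))) := by
    refine (hfr.and_eventually (hφ.eventually hvu)).mono fun z hz => ?_
    have h3 := Λ.sub_mem hz.1.2 (hz.2 hz.1.1)
    have e : u (φ z) - υ z - (u (φ z) - v (φ z)) = v (φ z) - υ z := by abel
    rw [e] at h3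
    exact h3
  have h3 : v (φ y) - υ y ∈ (Λ : Set (Vd (k + 1))) := by
    have hc : ContinuousAt (fun z => v (φ z) - υ z) y := (hv.continuousAt.comp hφ).sub hυ
    have h4 : v (φ y) - υ y ∈ closure (Λ : Set (Vd (k + 1))) := by
      rw [mem_closure_iff_frequently]
      exact hc.tendsto.frequently h2
    rwa [(lat_isClosed hl).closure_eq] at h4
  have h4 := hvu.self_of_nhds h1
  have e : u (φ y) - υ y = (u (φ y) - v (φ y)) + (v (φ y) - υ y) := by abel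
  rw [e]
  exact Λ.add_mem h4 h3

/-- another representative of a point of `X` -/
theorem mem_of_pr (hX : IsCone X) (ht : TMap X Λ u) {x y : EN N} {w : Vd (k + 1)} (hx : x ∈ X) (hu : u x - w ∈ Λ) (hy : y ≠ 0) (h : pr y = pr x) :
    y ∈ X ∧ u y - w ∈ Λ := by
  have hx0 : x ≠ 0 := fun e => hX.zero_notMem (e ▸ hx)
  obtain ⟨c, hc, rfl⟩ := (pr_eq_iff hy hx0).mp h
  refine ⟨hX.smul_mem x hx c hc, ?_⟩
  have e : u (c • x) - w = (u (c • x) - u x) + (u x - w) := by abel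
  rw [e]
  exact Λ.add_mem (ht.smul x hx c hc) hu

theorem isCone_ne : IsCone {x : EN N | x ≠ 0} where
  zero_notMem := fun h => h rfl
  smul_mem := fun _ hx _ hc => smul_ne_zero hc hx
  closed := by
    have : insert (0 : EN N) {x : EN N | x ≠ 0} = Set.univ := by
      ext x
      simp only [Set.mem_insert_iff, Set.mem_ofPred_eq, Set.mem_univ, iff_true]
      exact em _
    rw [this]
    exact isClosed_univ

/-- a vector whose projection is Lipschitz defines a holomorphic map -/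
theorem lip_lift {E : Type} [NormedAddCommGroup E] [NormedSpace ℂ E] [FiniteDimensional ℂ E] {F : E → EN N} {y₀ : E} (hF : AnalyticAt ℂ F y₀)
    (hne : ¬ ∀ᶠ y in 𝓝 y₀, F y = 0) {ρ C : ℝ} (hρ : 0 < ρ)
    (hlip : ∀ y ∈ ball y₀ ρ, ∀ z ∈ ball y₀ ρ, F y ≠ 0 → F z ≠ 0 → dist (pr (F y)) (pr (F z)) ≤ C * ‖y - z‖) :
    ∃ φ : E → EN N, AnalyticAt ℂ φ y₀ ∧ φ y₀ ≠ 0 ∧ ∀ᶠ y in 𝓝 y₀, F y ≠ 0 → pr (φ y) = pr (F y) := by
  have hfr : ∃ᶠ y in 𝓝 y₀, F y ≠ 0 := Filter.not_eventually.mp hne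
  obtain ⟨s, hs, hsF⟩ := exists_seq_forall_of_frequently hfr
  have hcpt := isCompact_pr (isCone_ne (N := N))
  obtain ⟨m₀, ⟨x₀, hx₀, rfl⟩, θ, hθ, hlim⟩ := hcpt.tendsto_subseq (x := fun n => pr (F (s n))) (fun n => ⟨F (s n), hsF n, rfl⟩)
  have hx₀ : x₀ ≠ 0 := hx₀
  have hd : ∀ y ∈ ball y₀ ρ, F y ≠ 0 → dist (pr (F y)) (pr x₀) ≤ C * ‖y - y₀‖ := by
    intro y hy h0
    have h1 : Tendsto (fun n => dist (pr (F y)) (pr (F (s (θ n))))) atTop (𝓝 (dist (pr (F y)) (pr x₀))) := tendsto_const_nhds.dist hlim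
    have h2 : Tendsto (fun n => C * ‖y - s (θ n)‖) atTop (𝓝 (C * ‖y - y₀‖)) :=
      ((tendsto_const_nhds.sub (hs.comp hθ.tendsto_atTop)).norm).const_mul C
    refine le_of_tendsto_of_tendsto h1 h2 ?_
    have h3 : ∀ᶠ n in atTop, s (θ n) ∈ ball y₀ ρ := (hs.comp hθ.tendsto_atTop).eventually (ball_mem_nhds y₀ hρ)
    filter_upwards [h3] with n hn
    exact hlip y hy _ hn h0 (hsF _)
  have hx₀n : 0 < ‖x₀‖ := norm_pos_iff.mpr hx₀
  obtain ⟨δ, hδ, hδb⟩ := nm_close hx₀ (show 0 < ‖x₀‖ / 2 by positivity)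
  have hnear : ∀ᶠ y in 𝓝 y₀, F y ≠ 0 → dist (pr (F y)) (pr x₀) < δ := by
    have h1 : Tendsto (fun y => C * ‖y - y₀‖) (𝓝 y₀) (𝓝 (C * ‖y₀ - y₀‖)) := by
      refine Continuous.tendsto ?_ y₀
      fun_prop
    rw [sub_self, norm_zero, mul_zero] at h1
    filter_upwards [h1.eventually (gt_mem_nhds hδ), ball_mem_nhds y₀ hρ] with y hy hyb h0
    exact (hd y hyb h0).trans_lt hy
  set h : E → ℂ := fun y => inner ℂ x₀ (F y) with hh
  have hℓ : ∀ y, h y = (innerSL ℂ x₀) (F y) := fun y => by simp [hh]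
  have han : ∀ y, AnalyticAt ℂ F y → AnalyticAt ℂ h y := by
    intro y hy
    have : h = fun y => (innerSL ℂ x₀) (F y) := by
      funext y
      exact hℓ y
    rw [this]
    exact ((innerSL ℂ x₀).analyticAt _).fun_comp hy
  have hiff : ∀ᶠ y in 𝓝 y₀, (F y ≠ 0 → h y ≠ 0 ∧ ‖H62.EF.nm x₀ (F y) - x₀‖ < ‖x₀‖ / 2) ∧ (h y ≠ 0 → F y ≠ 0) := by
    filter_upwards [hnear] with y hy
    refine ⟨fun h0 => hδb _ h0 (hy h0), fun h0 e => h0 ?_⟩
    rw [hh]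
    simp [e]
  have hhne : ¬ ∀ᶠ y in 𝓝 y₀, h y = 0 := by
    intro hc
    obtain ⟨y, hy1, hy2, hy3⟩ := (hfr.and_eventually (hc.and hiff)).exists
    exact (hy3.1 hy1).1 hy2
  obtain ⟨φ, hφ1, hφ2⟩ := riemann_ext (h := h) (f := fun y => H62.EF.nm x₀ (F y)) (M := ‖x₀‖ + ‖x₀‖ / 2) (han y₀ hF) hhne
    (by
      filter_upwards [hF.eventually_analyticAt] with y hy h0
      have h1 : AnalyticAt ℂ (fun y => (((‖x₀‖ ^ 2 : ℝ) : ℂ) / h y) • F y) y := (analyticAt_const.div (han y hy) h0).smul hy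
      exact h1)
    (by
      filter_upwards [hiff] with y hy h0
      have h1 := (hy.1 (hy.2 h0)).2
      have h2 : H62.EF.nm x₀ (F y) = x₀ + (H62.EF.nm x₀ (F y) - x₀) := by abel
      calc ‖H62.EF.nm x₀ (F y)‖ = ‖x₀ + (H62.EF.nm x₀ (F y) - x₀)‖ := by rw [← h2]
        _ ≤ ‖x₀‖ + ‖H62.EF.nm x₀ (F y) - x₀‖ := norm_add_le _ _
        _ ≤ _ := by linarith)
  refine ⟨φ, hφ1, ?_, ?_⟩
  · have h1 : ‖φ y₀ - x₀‖ ≤ ‖x₀‖ / 2 := by
      have hc : ContinuousAt (fun y => ‖φ y - x₀‖) y₀ := (hφ1.continuousAt.sub continuousAt_const).norm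
      have hmem : ‖φ y₀ - x₀‖ ∈ closure (Set.Iic (‖x₀‖ / 2)) := by
        rw [mem_closure_iff_frequently]
        refine hc.tendsto.frequently ?_
        refine (hfr.and_eventually (hiff.and hφ2)).mono fun y hy => ?_
        obtain ⟨hy1, hy2, hy3⟩ := hy
        show ‖φ y - x₀‖ ≤ ‖x₀‖ / 2
        rw [hy3 (hy2.1 hy1).1]
        exact (hy2.1 hy1).2.le
      rw [isClosed_Iic.closure_eq] at hmem
      exact hmem
    intro h2
    rw [h2, zero_sub, norm_neg] at h1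
    linarith
  · filter_upwards [hiff, hφ2] with y hy1 hy2 h0
    rw [hy2 (hy1.1 h0).1]
    have h3 : (((‖x₀‖ ^ 2 : ℝ) : ℂ) / inner ℂ x₀ (F y)) ≠ 0 := by
      refine div_ne_zero ?_ (hy1.1 h0).1
      exact_mod_cast (pow_pos hx₀n 2).ne'
    exact pr_smul _ h3

end Pool.Agent.TG

end

section

/-!
# TG Cp: uniform charts, the constants

Compare `Pool/Agent/H62/EL/Cp.lean`; here everything is about points of the fibres over `Gd D δ` (all fibres over `y ∉ D` are smooth: `Geo.sub`).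

`cap_of_small`: as in `EL/Cp`: by `near_of_pr` (the cone `{x ∈ χ.U : ‖χ.q x‖ < 1}` is a neighbourhood of `x₀`) there is `r < η` such that `x ∈ X`, `dist (pr x) (pr x₀) ≤ r` implies
`x ∈ χ.U`, `‖χ.q x‖ ≤ 1`; for `y ∈ closedBall y₀ r`, `u x - y ∈ Λ`: `ms y₀ ρ (χ.q x) - y ∈ Λ` has norm `< η + r ≤ 2η`, so it is `0`.

`exists_cap`: suppose not: for every `n` there are `y_n ∈ Gd D δ`, `m_n ∈ Fb X Λ u y_n` without such a chart for `r = 1/(n+1)`.  Translate by `Λ` (`Lat.cpt`, `Geo.gd_add`, `fb_add`; the chart for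
`y_n - l` with `c + l` instead of `c` is a chart for `y_n`: `Str`, `Cap` are invariant): `y_n` is bounded.  Along `𝒰 = hyperfilter ℕ` (or a subsequence) `y_n → y ∈ Gd D δ`, `m_n → m` (`isCompact_pr`), `m ∈ Fb X Λ u y`
(`fb_lim`): `m = pr x`; `y ∉ D` (`gd_notMem`), `exists_str_chart` (`Geo.sub`; `2η` smaller than the norms of the nonzero elements of `Λ`) and `cap_of_small`: `Cap .. y (pr x) r`; so `Cap .. y_n m_n (r/2)` as soon as
`‖y_n - y‖ ≤ r/2`, `dist m_n m ≤ r/2` and then also with `1/(n+1) ≤ r/2` (`Cap.mono`): contradiction.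

`exists_irel`: suppose not: `y_n ∈ Gd D δ`, `m_n, m'_n ∈ Fb .. y_n`, `dist m_n m'_n ≤ 1/(n+1)`, and a form `α_n` without `v`.  Prove first the statement for the relation without `α` (charts, points, distances; it is invariant
under translation of `y` by `Λ`) and add the primitive at the end by `exists_prim`.  Limits as above: `m_n, m'_n → m = pr x`, a straight chart `χ` at `x` with `Cap` of radius `r`: for large `n` lifts `x_n, x'_n` of `m_n`, `m'_n` are in `χ.U`,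
`p_n = χ.q x_n`, `p'_n = χ.q x'_n` tend to `χ.q x = 0` (`fb_lim`), `ms c ρ p_n = y_n = ms c ρ p'_n`, and `dist (pr (χ.σ (p_n + θ (p'_n - p_n)))) m_n ≤ ε` for large `n` by continuity at `0`.

`exists_cst`: `δ > 0`: `r` from `exists_cap`, `ε = min η (r / 3)`, `ε₀` from `exists_irel`, replaced by `min ε₀ η`.
-/

set_option autoImplicit false

open Topology Filter Metric

namespace Pool.Agent.TG

open Pool.Agent.H36.BP (EN fs wd)
open Pool.Agent.H14.PP (IsCone CurveAt Tan)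
open Pool.Agent.H62.EF (MN pr)
open Pool.Agent.AD (Vd Chart Charts IsGerm)

variable {N k : ℕ}

variable {X : Set (EN N)} {Λ : AddSubgroup (Vd (k + 1))} {u : EN N → Vd (k + 1)} {D B : Set (Vd (k + 1))}

private theorem cp_q_small (hX : IsCone X) {χ : Chart (k + 2) X} {x₀ : EN N} (hx₀ : x₀ ∈ X) (hU : x₀ ∈ χ.U) (hq : χ.q x₀ = 0)
    {s : ℝ} (hs : 0 < s) : ∃ d : ℝ, 0 < d ∧ ∀ x ∈ X, dist (pr x) (pr x₀) < d → x ∈ χ.U ∧ ‖χ.q x‖ < s := by
  have hx0 : x₀ ≠ 0 := ne_zero hX hx₀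
  have hV : {x | x ∈ χ.U ∧ ‖χ.q x‖ < s} ∈ 𝓝 x₀ := by
    have h1 : ∀ᶠ x in 𝓝 x₀, x ∈ χ.U := χ.isOpen_U.mem_nhds hU
    have h2 : ∀ᶠ x in 𝓝 x₀, ‖χ.q x‖ < s := by
      have hc : ContinuousAt (fun x => ‖χ.q x‖) x₀ := (χ.q_an x₀ hU).continuousAt.norm
      have h3 : (fun x => ‖χ.q x‖) x₀ < s := by simpa [hq] using hs
      exact hc.tendsto.eventually_lt_const h3
    exact h1.and h2
  obtain ⟨d, hd, h⟩ := Pool.Agent.H62.EF.near_of_pr hx0 hV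
  refine ⟨d, hd, fun x hx hxd => ?_⟩
  obtain ⟨c, hc, hcU, hcq⟩ := h x (ne_zero hX hx) hxd
  have e : x = c⁻¹ • (c • x) := by rw [smul_smul, inv_mul_cancel₀ hc, one_smul]
  have hxU : x ∈ χ.U := by rw [e]; exact χ.smul_U _ hcU _ (inv_ne_zero hc)
  refine ⟨hxU, ?_⟩
  rw [← χ.q_smul x hxU c hc]
  exact hcq

private theorem cp_pr_q {χ : Chart (k + 2) X} {x : EN N} (hx : x ∈ X) (hU : x ∈ χ.U) : pr (χ.σ (χ.q x)) = pr x := by
  obtain ⟨hb, c, hc, e⟩ := χ.surj x hx hU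
  conv_rhs => rw [e]
  exact (Pool.Agent.H62.EF.pr_smul _ hc).symm

private theorem cp_ms_add (c l : Vd (k + 1)) (ρ : ℝ) (p : Vd (k + 2)) : ms (c + l) ρ p = ms c ρ p + l := by
  unfold ms
  abel

/-- translation of the value of `u` -/
private theorem cp_str_add {χ : Chart (k + 2) X} {c : Vd (k + 1)} {ρ : ℝ} (h : Str Λ u χ c ρ) {l : Vd (k + 1)} (hl : l ∈ Λ) :
    Str Λ u χ (c + l) ρ where
  pos := h.pos
  lift := fun p hp => by
    have h1 := Λ.sub_mem (h.lift p hp) hl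
    rw [cp_ms_add, ← sub_sub]
    exact h1

private theorem cp_cap_move {χ : Chart (k + 2) X} {c : Vd (k + 1)} {ρ : ℝ} {y₀ : Vd (k + 1)} {m₀ : MN N} {r : ℝ} (h : Cap Λ u χ c ρ y₀ m₀ r)
    {y₁ : Vd (k + 1)} {m₁ : MN N} {r₁ : ℝ} (hr : r₁ ≤ r / 2) (hz : dist y₁ y₀ ≤ r / 2) (hy : dist m₁ m₀ ≤ r / 2) : Cap Λ u χ c ρ y₁ m₁ r₁ where
  str := h.str
  cap := fun y hy' x hx hxz hd => by
    refine h.cap y ?_ x hx hxz ?_
    · rw [mem_closedBall] at hy' ⊢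
      have := dist_triangle y y₁ y₀
      linarith
    · have := dist_triangle (pr x) m₁ m₀
      linarith

theorem cap_of_small (hX : IsCone X) (hu : TMap X Λ u) {x₀ : EN N} (hx₀ : x₀ ∈ X) {y₀ : Vd (k + 1)} (hy₀ : u x₀ - y₀ ∈ Λ)
    {χ : Chart (k + 2) X} {ρ η : ℝ} (hm : Str Λ u χ y₀ ρ) (hU : x₀ ∈ χ.U) (hq : χ.q x₀ = 0) (hinj : ∀ l ∈ Λ, ‖l‖ < 2 * η → l = 0)
    (hr : ∀ p ∈ ball (0 : Vd (k + 2)) 2, ‖ms y₀ ρ p - y₀‖ < η) : ∃ r : ℝ, 0 < r ∧ Cap Λ u χ y₀ ρ y₀ (pr x₀) r := by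
  obtain ⟨d, hd, h⟩ := cp_q_small hX hx₀ hU hq (zero_lt_one' ℝ)
  have hη : 0 < η := lt_of_le_of_lt (norm_nonneg _) (hr 0 (mem_ball_self two_pos))
  have hr0 : 0 < min (d / 2) (η / 2) := lt_min (by linarith) (by linarith)
  refine ⟨min (d / 2) (η / 2), hr0, hm, fun y hy x hx hxy hxd => ?_⟩
  have h1 : min (d / 2) (η / 2) ≤ d / 2 := min_le_left _ _
  have h2 : min (d / 2) (η / 2) ≤ η / 2 := min_le_right _ _
  obtain ⟨hxU, hxq⟩ := h x hx (by linarith)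
  refine ⟨hxU, ?_, ?_⟩
  · rw [mem_closedBall, dist_zero_right]
    exact hxq.le
  · obtain ⟨hb, c, hc, e⟩ := χ.surj x hx hxU
    have h3 : u x - u (χ.σ (χ.q x)) ∈ Λ := by
      have h3' := hu.smul _ (χ.σ_mem _ hb).1 c hc
      rw [← e] at h3'
      exact h3'
    have h4 := hm.lift _ hb
    have h5 : ms y₀ ρ (χ.q x) - y ∈ Λ := by
      have h6 := Λ.sub_mem (Λ.sub_mem hxy h3) h4
      have e2 : ms y₀ ρ (χ.q x) - y =
          u x - y - (u x - u (χ.σ (χ.q x))) - (u (χ.σ (χ.q x)) - ms y₀ ρ (χ.q x)) := by abel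
      rw [e2]
      exact h6
    have h7 : ‖ms y₀ ρ (χ.q x) - y‖ < 2 * η := by
      have e3 : ms y₀ ρ (χ.q x) - y = (ms y₀ ρ (χ.q x) - y₀) - (y - y₀) := by abel
      have h8 := norm_sub_le (ms y₀ ρ (χ.q x) - y₀) (y - y₀)
      have h9 := hr _ hb
      rw [mem_closedBall, dist_eq_norm] at hy
      rw [e3]
      linarith
    exact sub_eq_zero.1 (hinj _ h5 h7)

/-- a straight chart at a point of a smooth fibre -/
private theorem cp_chart (G : Geo X Λ u D B) {y₀ : Vd (k + 1)} (hy₀ : y₀ ∉ D) {m₀ : MN N} (hm₀ : m₀ ∈ Fb X Λ u y₀) :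
    ∃ (x₀ : EN N) (χ : Chart (k + 2) X) (ρ r : ℝ), x₀ ∈ X ∧ pr x₀ = m₀ ∧ x₀ ∈ χ.U ∧ χ.q x₀ = 0 ∧ 0 < r ∧ Cap Λ u χ y₀ ρ y₀ m₀ r := by
  obtain ⟨x₀, hx₀, hpr, hux⟩ := hm₀
  obtain ⟨d, hd, hdis⟩ := G.lat.disc
  obtain ⟨χ, ρ, hU, hq, hm, hr⟩ := exists_str_chart G.cone G.tor (G.sub y₀ hy₀ x₀ hx₀ hux) (η := d / 2) (by positivity)
  obtain ⟨r, hr1, hcap⟩ := cap_of_small G.cone G.tor hx₀ hux hm hU hq
    (fun l hl hl' => hdis l hl (by linarith)) (fun p hp => (hr p hp).2)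
  rw [hpr] at hcap
  exact ⟨x₀, χ, ρ, r, hx₀, hpr, hU, hq, hr1, hcap⟩

/-- every point of a smooth fibre has a chart -/
theorem exists_cap_at (G : Geo X Λ u D B) {y₀ : Vd (k + 1)} (hy₀ : y₀ ∉ D) {m₀ : MN N} (hm₀ : m₀ ∈ Fb X Λ u y₀) :
    ∃ (χ : Chart (k + 2) X) (ρ r : ℝ), 0 < r ∧ Cap Λ u χ y₀ ρ y₀ m₀ r := by
  obtain ⟨x₀, χ, ρ, r, -, -, -, -, hr, hc⟩ := cp_chart G hy₀ hm₀
  exact ⟨χ, ρ, r, hr, hc⟩

/-- limits along an ultrafilter -/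
private theorem cp_limit (G : Geo X Λ u D B) {δ R : ℝ} (𝒰 : Ultrafilter ℕ) (y : ℕ → Vd (k + 1))
    (hy : ∀ n, y n ∈ Gd D δ) (hR : ∀ n, ‖y n‖ ≤ R) (m : ℕ → MN N) (hm : ∀ n, m n ∈ Fb X Λ u (y n)) :
    ∃ (w : Vd (k + 1)) (m₀ : MN N), w ∈ Gd D δ ∧ m₀ ∈ Fb X Λ u w ∧ Tendsto y 𝒰 (𝓝 w) ∧ Tendsto m 𝒰 (𝓝 m₀) := by
  have hK : IsCompact (closedBall (0 : Vd (k + 1)) R ∩ Gd D δ) := (isCompact_closedBall 0 R).inter_right (gd_closed D δ)
  have hle : ((𝒰.map y : Ultrafilter (Vd (k + 1))) : Filter (Vd (k + 1))) ≤ 𝓟 (closedBall (0 : Vd (k + 1)) R ∩ Gd D δ) := by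
    rw [le_principal_iff]
    exact Filter.mem_map.2 (Filter.univ_mem' fun n => ⟨by rw [mem_closedBall, dist_zero_right]; exact hR n, hy n⟩)
  obtain ⟨w, hw, hlim⟩ := hK.ultrafilter_le_nhds (𝒰.map y) hle
  have hle2 : ((𝒰.map m : Ultrafilter (MN N)) : Filter (MN N)) ≤ 𝓟 (pr '' X) := by
    rw [le_principal_iff]
    refine Filter.mem_map.2 (Filter.univ_mem' fun n => ?_)
    obtain ⟨x, hx, hxm, -⟩ := hm n
    exact ⟨x, hx, hxm⟩
  obtain ⟨m₀, -, hlim2⟩ := (Pool.Agent.H62.EF.isCompact_pr G.cone).ultrafilter_le_nhds (𝒰.map m) hle2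
  have hyw : Tendsto y 𝒰 (𝓝 w) := hlim
  have hmw : Tendsto m 𝒰 (𝓝 m₀) := hlim2
  exact ⟨w, m₀, hw.2, (fb_lim G.cone G.lat G.tor hmw hyw (Filter.Eventually.of_forall hm)).1, hyw, hmw⟩

private theorem cp_eps (𝒰 : Ultrafilter ℕ) (h𝒰 : (𝒰 : Filter ℕ) ≤ atTop) {s : ℝ} (hs : 0 < s) :
    ∀ᶠ n : ℕ in (𝒰 : Filter ℕ), 1 / ((n : ℝ) + 1) ≤ s := by
  have h := tendsto_one_div_add_atTop_nhds_zero_nat (𝕜 := ℝ)
  exact h𝒰 (h.eventually_le_const hs)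

private theorem cp_cap_bdd (G : Geo X Λ u D B) {δ : ℝ} (R : ℝ) (hδ : 0 < δ) : ∃ r : ℝ, 0 < r ∧ ∀ y₀ ∈ Gd D δ, ‖y₀‖ ≤ R → ∀ m ∈ Fb X Λ u y₀,
    ∃ (χ : Chart (k + 2) X) (c : Vd (k + 1)) (ρ : ℝ), Cap Λ u χ c ρ y₀ m r := by
  by_contra hcon
  push Not at hcon
  choose y hy hR m hm hno using fun n : ℕ => hcon (1 / ((n : ℝ) + 1)) (by positivity)
  have h𝒰 : ((hyperfilter ℕ : Ultrafilter ℕ) : Filter ℕ) ≤ atTop := Nat.hyperfilter_le_atTop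
  obtain ⟨w, m₀, hw, hm₀, hyw, hmw⟩ := cp_limit G (hyperfilter ℕ) y hy hR m hm
  obtain ⟨x₀, χ, ρ, r, -, -, -, -, hr, hcap⟩ := cp_chart G (gd_notMem hδ hw) hm₀
  have h1 : ∀ᶠ n in ((hyperfilter ℕ : Ultrafilter ℕ) : Filter ℕ), dist (y n) w < r / 2 :=
    hyw.eventually (ball_mem_nhds w (half_pos hr))
  have h2 : ∀ᶠ n in ((hyperfilter ℕ : Ultrafilter ℕ) : Filter ℕ), dist (m n) m₀ < r / 2 :=
    hmw.eventually (ball_mem_nhds m₀ (half_pos hr))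
  have h3 := cp_eps (hyperfilter ℕ) h𝒰 (half_pos hr)
  obtain ⟨n, hn1, hn2, hn3⟩ := (h1.and (h2.and h3)).exists
  exact hno n χ w ρ (cp_cap_move hcap hn3 hn1.le hn2.le)

theorem exists_cap (G : Geo X Λ u D B) {δ : ℝ} (hδ : 0 < δ) : ∃ r : ℝ, 0 < r ∧ ∀ y₀ ∈ Gd D δ, ∀ m ∈ Fb X Λ u y₀,
    ∃ (χ : Chart (k + 2) X) (c : Vd (k + 1)) (ρ : ℝ), Cap Λ u χ c ρ y₀ m r := by
  obtain ⟨R, -, hR⟩ := G.lat.cpt
  obtain ⟨r, hr, h⟩ := cp_cap_bdd G R hδ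
  refine ⟨r, hr, fun y₀ hy₀ m hm => ?_⟩
  obtain ⟨l, hl, hyl⟩ := hR y₀
  have h1 : y₀ - l ∈ Gd D δ := by
    rw [sub_eq_add_neg]
    exact (G.gd_add δ (Λ.neg_mem hl)).2 hy₀
  have h2 : m ∈ Fb X Λ u (y₀ - l) := by
    rw [sub_eq_add_neg, fb_add (Λ.neg_mem hl)]
    exact hm
  obtain ⟨χ, c, ρ, hc⟩ := h (y₀ - l) h1 hyl m h2
  refine ⟨χ, c + l, ρ, cp_str_add hc.str hl, fun y hy x hx hxy hd => ?_⟩
  have h3 := hc.cap (y - l) ?_ x hx ?_ hd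
  · refine ⟨h3.1, h3.2.1, ?_⟩
    rw [cp_ms_add, h3.2.2]
    abel
  · rw [mem_closedBall, dist_eq_norm] at hy ⊢
    have e : y - l - (y₀ - l) = y - y₀ := by abel
    rw [e]
    exact hy
  · have e : u x - (y - l) = (u x - y) + l := by abel
    rw [e]
    exact Λ.add_mem hxy hl

/-- the relation without the form -/
private def cpRel (X : Set (EN N)) (Λ : AddSubgroup (Vd (k + 1))) (u : EN N → Vd (k + 1)) (ε : ℝ) (y : Vd (k + 1)) (m m' : MN N) : Prop :=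
  ∃ (χ : Chart (k + 2) X) (c : Vd (k + 1)) (ρ : ℝ) (p p' : Vd (k + 2)), Str Λ u χ c ρ ∧
    p ∈ ball (0 : Vd (k + 2)) 2 ∧ p' ∈ ball (0 : Vd (k + 2)) 2 ∧ ms c ρ p = y ∧ ms c ρ p' = y ∧ pr (χ.σ p) = m ∧ pr (χ.σ p') = m' ∧
    (∀ θ ∈ Set.Icc (0 : ℝ) 1, dist (pr (χ.σ (p + (θ : ℂ) • (p' - p)))) m ≤ ε)

private theorem cp_rel_bdd (G : Geo X Λ u D B) {δ ε : ℝ} (R : ℝ) (hδ : 0 < δ) (hε : 0 < ε) : ∃ ε₀ : ℝ, 0 < ε₀ ∧
    ∀ y ∈ Gd D δ, ‖y‖ ≤ R → ∀ m ∈ Fb X Λ u y, ∀ m' ∈ Fb X Λ u y, dist m m' ≤ ε₀ → cpRel X Λ u ε y m m' := by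
  by_contra hcon
  push Not at hcon
  choose y hy hR m hm m' hm' hmm hno using fun n : ℕ => hcon (1 / ((n : ℝ) + 1)) (by positivity)
  have h𝒰 : ((hyperfilter ℕ : Ultrafilter ℕ) : Filter ℕ) ≤ atTop := Nat.hyperfilter_le_atTop
  obtain ⟨w, m₀, hw, hm₀, hyw, hmw⟩ := cp_limit G (hyperfilter ℕ) y hy hR m hm
  obtain ⟨x₀, χ, ρ, r, hx₀, hpr, hU, hq, hr, hcap⟩ := cp_chart G (gd_notMem hδ hw) hm₀
  -- continuity of the chart at `0`
  have hσ0 : pr (χ.σ 0) = m₀ := by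
    rw [← hpr, ← cp_pr_q hx₀ hU, hq]
  have h0 : (0 : Vd (k + 2)) ∈ ball (0 : Vd (k + 2)) 2 := mem_ball_self two_pos
  have hcont : ContinuousAt (fun p => pr (χ.σ p)) (0 : Vd (k + 2)) := by
    have h1 : ContinuousAt pr (χ.σ 0) := Pool.Agent.H62.EF.continuousAt_pr (ne_zero G.cone (χ.σ_mem 0 h0).1)
    exact ContinuousAt.comp (f := χ.σ) h1 (χ.σ_an 0 h0).continuousAt
  obtain ⟨s₀, hs₀, hs⟩ := Metric.continuousAt_iff.1 hcont (ε / 2) (half_pos hε)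
  rw [hσ0] at hs
  have hs2 : 0 < min s₀ 2 := lt_min hs₀ two_pos
  obtain ⟨d, hd, hqs⟩ := cp_q_small G.cone hx₀ hU hq hs2
  rw [hpr] at hqs
  set e₀ : ℝ := min (min r d) ε / 4 with he₀
  have hm0 : 0 < e₀ := by
    have : 0 < min (min r d) ε := lt_min (lt_min hr hd) hε
    linarith
  have hmr : 4 * e₀ ≤ r := by
    have := (min_le_left (min r d) ε).trans (min_le_left r d)
    linarith
  have hmd : 4 * e₀ ≤ d := by
    have := (min_le_left (min r d) ε).trans (min_le_right r d)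
    linarith
  have hmε : 4 * e₀ ≤ ε := by
    have := min_le_right (min r d) ε
    linarith
  have h1 : ∀ᶠ n in ((hyperfilter ℕ : Ultrafilter ℕ) : Filter ℕ), dist (y n) w < e₀ := hyw.eventually (ball_mem_nhds w hm0)
  have h2 : ∀ᶠ n in ((hyperfilter ℕ : Ultrafilter ℕ) : Filter ℕ), dist (m n) m₀ < e₀ := hmw.eventually (ball_mem_nhds m₀ hm0)
  have h3 := cp_eps (hyperfilter ℕ) h𝒰 hm0
  obtain ⟨n, hn1, hn2, hn3⟩ := (h1.and (h2.and h3)).exists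
  refine hno n ?_
  obtain ⟨x, hx, hprx, hux⟩ := hm n
  obtain ⟨x', hx', hprx', hux'⟩ := hm' n
  have hd1 : dist (pr x) m₀ < e₀ := by rw [hprx]; exact hn2
  have hd2 : dist (pr x') m₀ < 2 * e₀ := by
    rw [hprx']
    have h4 := dist_triangle (m' n) (m n) m₀
    have h5 : dist (m' n) (m n) ≤ 1 / ((n : ℝ) + 1) := by rw [dist_comm]; exact hmm n
    linarith
  have hzc : y n ∈ closedBall w r := by rw [mem_closedBall]; linarith
  obtain ⟨hU1, hq1, hc1⟩ := hcap.cap (y n) hzc _ hx hux (by linarith)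
  obtain ⟨hU2, hq2, hc2⟩ := hcap.cap (y n) hzc _ hx' hux' (by linarith)
  have hs1 := (hqs _ hx (by linarith)).2
  have hs2' := (hqs _ hx' (by linarith)).2
  refine ⟨χ, w, ρ, χ.q x, χ.q x', hcap.str, (χ.surj _ hx hU1).1, (χ.surj _ hx' hU2).1, hc1, hc2, ?_, ?_, ?_⟩
  · rw [cp_pr_q hx hU1, hprx]
  · rw [cp_pr_q hx' hU2, hprx']
  · intro θ hθ
    have hmem : χ.q x + (θ : ℂ) • (χ.q x' - χ.q x) ∈ ball (0 : Vd (k + 2)) (min s₀ 2) := by
      have e : χ.q x + (θ : ℂ) • (χ.q x' - χ.q x) = (1 - θ) • χ.q x + θ • χ.q x' := by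
        have e1 : ∀ v : Vd (k + 2), (θ : ℂ) • v = θ • v := fun v => by
          ext i
          simp
        rw [e1, smul_sub, sub_smul, one_smul]
        abel
      rw [e]
      exact (convex_ball (0 : Vd (k + 2)) (min s₀ 2)) (by rw [mem_ball, dist_zero_right]; exact hs1)
        (by rw [mem_ball, dist_zero_right]; exact hs2') (by linarith [hθ.2]) hθ.1 (by ring)
    have h6 := hs (lt_of_lt_of_le (mem_ball.1 hmem) (min_le_left _ _))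
    have h7 := dist_triangle (pr (χ.σ (χ.q x + (θ : ℂ) • (χ.q x' - χ.q x)))) m₀ (m n)
    rw [dist_comm m₀] at h7
    linarith

theorem exists_irel (G : Geo X Λ u D B) {δ ε : ℝ} (hδ : 0 < δ) (hε : 0 < ε) : ∃ ε₀ : ℝ, 0 < ε₀ ∧
    ∀ y ∈ Gd D δ, ∀ m ∈ Fb X Λ u y, ∀ m' ∈ Fb X Λ u y, dist m m' ≤ ε₀ → ∀ α : VForm X Λ u, ∃ v, IRel α ε y m m' v := by
  obtain ⟨R, -, hR⟩ := G.lat.cpt
  obtain ⟨ε₀, hε₀, h⟩ := cp_rel_bdd G R hδ hε
  refine ⟨ε₀, hε₀, fun y hy m hm m' hm' hd α => ?_⟩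
  obtain ⟨l, hl, hyl⟩ := hR y
  have h1 : y - l ∈ Gd D δ := by
    rw [sub_eq_add_neg]
    exact (G.gd_add δ (Λ.neg_mem hl)).2 hy
  have h2 : ∀ m ∈ Fb X Λ u y, m ∈ Fb X Λ u (y - l) := by
    intro m hm
    rw [sub_eq_add_neg, fb_add (Λ.neg_mem hl)]
    exact hm
  obtain ⟨χ, c, ρ, p, p', hst, hp, hp', hc, hc', hpr, hpr', hθ⟩ := h (y - l) h1 hyl m (h2 m hm) m' (h2 m' hm') hd
  obtain ⟨A, hA⟩ := exists_prim α χ (cp_str_add hst hl)
  exact ⟨_, χ, c + l, ρ, A, p, p', cp_str_add hst hl, hA, hp, hp', by rw [cp_ms_add, hc]; abel, by rw [cp_ms_add, hc']; abel, hpr, hpr', hθ, rfl⟩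

theorem exists_cst (G : Geo X Λ u D B) {δ η : ℝ} (hδ : 0 < δ) (hη : 0 < η) : ∃ ε ε₀ : ℝ, ε ≤ η ∧ ε₀ ≤ η ∧ Cst X Λ u D δ ε ε₀ := by
  obtain ⟨r, hr, hcap⟩ := exists_cap G hδ
  have hε : 0 < min η (r / 3) := lt_min hη (by positivity)
  obtain ⟨ε₀, hε₀, hrel⟩ := exists_irel G hδ hε
  refine ⟨min η (r / 3), min ε₀ η, min_le_left _ _, min_le_right _ _, hδ, hε, lt_min hε₀ hη, ?_, ?_⟩
  · intro y₀ hy₀ m hm
    obtain ⟨χ, c, ρ, hc⟩ := hcap y₀ hy₀ m hm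
    exact ⟨χ, c, ρ, hc.mono (by have := min_le_right η (r / 3); linarith)⟩
  · intro y hy m hm m' hm' hd α
    exact hrel y hy m hm m' hm' (hd.trans (min_le_left _ _)) α

end Pool.Agent.TG

end
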