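import Pool.Agent.H94.G4T.M07
import Pool.Agent.H94.G4T.M16
import Pool.Agent.H94.G4T.M19
import Pool.Agent.H94.G4T.M30
import Pool.Agent.H94.G4T.M41

/-! The parts of this file: G3.A.MD, TG.Y.Kz, TG.Y.SlA_1, TG.Y.Br. -/

section

/-!
# G3 A MD: the maximum principle for the distance of two curves

Normalised lifts `F`, `G` on `ball z₀ 2` (`NL` for `δ`).  `E z • wg (F z) (G z)` is holomorphic on `ball z₀ 2`; on the circle its norm is `≤ C dist ‖F‖ ‖G‖ ‖E‖ ≤ C M`; maximum principle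
(`Complex.norm_le_of_forall_mem_frontier_norm_le`); at `z` we have `‖F z‖, ‖G z‖ ≥ c`.
-/

set_option autoImplicit false

open Topology Filter Metric

namespace Pool.Agent.G3.A

open Pool.Agent.H36.BP (EN fs wd)
open Pool.Agent.H14.PP (IsCone CurveAt Tan)
open Pool.Agent.H62.EF (MN pr)
open Pool.Agent.AD (Vd Chart Charts IsGerm)
open Pool.Agent.TG
open Pool.Agent.G3.C (Gc)

variable {N k : ℕ} {X : Set (EN N)} {Λ : AddSubgroup (Vd (k + 1))} {u : EN N → Vd (k + 1)} {D B Bad : Set (Vd (k + 1))} {a : Vd (k + 1)}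

theorem md (hX : IsCone X) (hN : NL X Λ u D a) {δ : ℝ} (hδ : 0 < δ) : ∃ C : ℝ, 0 < C ∧ ∀ y y' : Vd (k + 1), ∀ f ∈ Hc X Λ u a y, ∀ g ∈ Hc X Λ u a y', ∀ (z₀ : ℂ) (r : ℝ),
    0 < r → r ≤ 1 → ∀ E : ℂ → ℂ, DifferentiableOn ℂ E (ball z₀ 2) → ∀ M : ℝ, (∀ z : ℂ, ‖z - z₀‖ = r → dist (f z) (g z) * ‖E z‖ ≤ M) →
    ∀ z ∈ closedBall z₀ r, y + z • a ∈ Gd D δ → y' + z • a ∈ Gd D δ → dist (f z) (g z) * ‖E z‖ ≤ C * M := by
  obtain ⟨c, hc, hcN⟩ := hN δ hδ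
  obtain ⟨C, hC, hw⟩ := wg_dist N
  refine ⟨C * C / (c * c), by positivity, ?_⟩
  intro y y' f hf g hg z₀ r hr hr1 E hE M hM z hz hy hy'
  obtain ⟨F, hF, hFX, hFc⟩ := hcN y f hf z₀
  obtain ⟨G, hG, hGX, hGc⟩ := hcN y' g hg z₀
  have hne : ∀ x ∈ X, x ≠ 0 := fun x hx h => hX.zero_notMem (h ▸ hx)
  have hsub : closedBall z₀ r ⊆ ball z₀ 2 := fun w hw' => by
    rw [mem_closedBall] at hw'
    rw [mem_ball]
    linarith
  have hφ : DifferentiableOn ℂ (fun w => E w • wg (F w) (G w)) (ball z₀ 2) := hE.smul (wg_diff hF hG)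
  have hbd : ∀ w ∈ frontier (ball z₀ r), ‖E w • wg (F w) (G w)‖ ≤ C * M := by
    intro w hw'
    rw [frontier_ball z₀ hr.ne'] at hw'
    have hwr : ‖w - z₀‖ = r := by
      rw [← dist_eq_norm]
      exact hw'
    have hwb : w ∈ ball z₀ 2 := hsub (sphere_subset_closedBall hw')
    obtain ⟨h1, h2, h3⟩ := hFX w hwb
    obtain ⟨h4, h5, h6⟩ := hGX w hwb
    have h7 := (hw (F w) (G w) (hne _ h1) (hne _ h4)).1
    have h8 := hM w hwr
    rw [h2, h5] at h8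
    have h9 : 0 ≤ dist (pr (F w)) (pr (G w)) := dist_nonneg
    have h10 : ‖F w‖ * ‖G w‖ ≤ 1 := mul_le_one₀ h3 (norm_nonneg _) h6
    rw [norm_smul]
    calc ‖E w‖ * ‖wg (F w) (G w)‖ ≤ ‖E w‖ * (C * dist (pr (F w)) (pr (G w)) * ‖F w‖ * ‖G w‖) :=
          mul_le_mul_of_nonneg_left h7 (norm_nonneg _)
      _ = C * (dist (pr (F w)) (pr (G w)) * ‖E w‖) * (‖F w‖ * ‖G w‖) := by ring
      _ ≤ C * (dist (pr (F w)) (pr (G w)) * ‖E w‖) * 1 := mul_le_mul_of_nonneg_left h10 (by positivity)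
      _ ≤ C * M := by
          rw [mul_one]
          exact mul_le_mul_of_nonneg_left h8 hC.le
  have hcl : DiffContOnCl ℂ (fun w => E w • wg (F w) (G w)) (ball z₀ r) := by
    refine DifferentiableOn.diffContOnCl ?_
    rw [closure_ball z₀ hr.ne']
    exact hφ.mono hsub
  have hmax : ‖E z • wg (F z) (G z)‖ ≤ C * M := by
    refine Complex.norm_le_of_forall_mem_frontier_norm_le isBounded_ball hcl hbd ?_
    rw [closure_ball z₀ hr.ne']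
    exact hz
  have hz1 : z ∈ closedBall z₀ 1 := by
    rw [mem_closedBall] at hz ⊢
    linarith
  have hz2 : z ∈ ball z₀ 2 := hsub hz
  obtain ⟨h1, h2, -⟩ := hFX z hz2
  obtain ⟨h4, h5, -⟩ := hGX z hz2
  have h7 := (hw (F z) (G z) (hne _ h1) (hne _ h4)).2
  have h8 := hFc z hz1 hy
  have h9 := hGc z hz1 hy'
  rw [norm_smul] at hmax
  rw [h2, h5]
  have h10 : 0 ≤ dist (pr (F z)) (pr (G z)) * ‖E z‖ := by positivity
  have h11 : c * c ≤ ‖F z‖ * ‖G z‖ := mul_le_mul h8 h9 hc.le (norm_nonneg _)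
  rw [div_mul_eq_mul_div, le_div_iff₀ (by positivity)]
  calc dist (pr (F z)) (pr (G z)) * ‖E z‖ * (c * c) ≤ dist (pr (F z)) (pr (G z)) * ‖E z‖ * (‖F z‖ * ‖G z‖) :=
        mul_le_mul_of_nonneg_left h11 h10
    _ = dist (pr (F z)) (pr (G z)) * ‖F z‖ * ‖G z‖ * ‖E z‖ := by ring
    _ ≤ C * ‖wg (F z) (G z)‖ * ‖E z‖ := mul_le_mul_of_nonneg_right h7 (norm_nonneg _)
    _ = C * (‖E z‖ * ‖wg (F z) (G z)‖) := by ring
    _ ≤ C * (C * M) := mul_le_mul_of_nonneg_left hmax hC.le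
    _ = C * C * M := by ring

end Pool.Agent.G3.A

end

section

/-!
# TG Y Kz: `EL/Kz` for sections over a disc
-/

set_option autoImplicit false

open Topology Filter Metric

namespace Pool.Agent.TGY

open Pool.Agent.H36.BP (EN fs wd IsGermChart)
open Pool.Agent.H14.PP (IsCone Chart Tan CurveAt)
open Pool.Agent.H62.EF (Lat MN pr TorusMap Charts)
open Pool.Agent.H62.EL

variable {N : ℕ} {X : Set (EN N)} {Λ : AddSubgroup ℂ} {u : EN N → ℂ}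

/-- the complex line through `p` and `p'` -/
private noncomputable def kz_line (p p' : ℂ × ℂ) (θ : ℂ) : ℂ × ℂ := p + θ • (p' - p)

private theorem kz_line_an (p p' : ℂ × ℂ) (θ : ℂ) : AnalyticAt ℂ (kz_line p p') θ := by
  unfold kz_line
  exact analyticAt_const.add (analyticAt_id.smul analyticAt_const)

private theorem kz_line_mem {p p' : ℂ × ℂ} (hp : p ∈ ball (0 : ℂ × ℂ) 2) (hp' : p' ∈ ball (0 : ℂ × ℂ) 2) {θ : ℝ}
    (hθ : θ ∈ Set.Icc (0 : ℝ) 1) : kz_line p p' (θ : ℂ) ∈ ball (0 : ℂ × ℂ) 2 := by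
  have h1 := (convex_ball (0 : ℂ × ℂ) 2).add_smul_sub_mem hp hp' hθ
  unfold kz_line
  rwa [Complex.coe_smul]

private theorem kz_line_fst {p p' : ℂ × ℂ} (h : p.1 = p'.1) (θ : ℂ) : (kz_line p p' θ).1 = p.1 := by
  unfold kz_line
  simp [h]

private theorem kz_mo (c : ℂ) (ρ : ℝ) (p : ℂ × ℂ) : mo c ρ 1 0 p = c + ρ * p.1 := by
  unfold mo
  simp

/-- the situation at a point of the path -/
private theorem kz_point (hu : TorusMap X Λ u) (hΛ : Lat Λ) {b : ℂ} {s η : ℝ} {T : TubeData X} (hT : TubeG Λ u b s η T)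
    {A : Fin T.m → ℂ × ℂ → ℂ} {χ : Chart X} {c : ℂ} {ρ : ℝ} {k : Fin T.m} {z₀ : ℂ} {y₀ : MN N} {r : ℝ}
    (hc : Cap Λ u χ c ρ z₀ y₀ r) (hW : ∀ p ∈ ball (0 : ℂ × ℂ) 2, χ.σ p ∈ T.W k) {Q : ℂ × ℂ → ℂ}
    (hQ : ∀ p ∈ ball (0 : ℂ × ℂ) 2, AnalyticAt ℂ Q p ∧ fderiv ℂ Q p (0, 1) = bc (T.χ k) (A k) χ (0, 1) p)
    {χ' : Chart X} {c' : ℂ} {ρ' : ℝ} (hm' : Mon Λ u χ' c' ρ' 1 0) {p p' : ℂ × ℂ} (hp : p ∈ ball (0 : ℂ × ℂ) 2)
    (hp' : p' ∈ ball (0 : ℂ × ℂ) 2) {z : ℂ} (hz : z ∈ closedBall z₀ r) (hpz : c' + ρ' * p.1 = z) (hpp : p.1 = p'.1)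
    {θ : ℝ} (hθ : θ ∈ Set.Icc (0 : ℝ) 1) (hd : dist (pr (χ'.σ (kz_line p p' θ))) y₀ ≤ r) :
    CurveAt X (fun ξ => χ'.σ (kz_line p p' ξ)) (θ : ℂ) ∧ u (χ'.σ (kz_line p p' θ)) - z ∈ Λ ∧
      χ'.σ (kz_line p p' θ) ∈ χ.U ∧ χ'.σ (kz_line p p' θ) ∈ T.W k ∧
      HasDerivAt (fun ξ => Q (χ.q (χ'.σ (kz_line p p' ξ)))) (bt (T.χ k) (A k) (fun ξ => χ'.σ (kz_line p p' ξ)) (θ : ℂ)) (θ : ℂ) := by
  have hmem := kz_line_mem hp hp' hθ
  have hlc : ContinuousAt (kz_line p p') (θ : ℂ) := (kz_line_an p p' θ).continuousAt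
  have hevb : ∀ᶠ ξ in 𝓝 (θ : ℂ), kz_line p p' ξ ∈ ball (0 : ℂ × ℂ) 2 := hlc.eventually (isOpen_ball.mem_nhds hmem)
  have hγan : AnalyticAt ℂ (fun ξ => χ'.σ (kz_line p p' ξ)) (θ : ℂ) := AnalyticAt.fun_comp (χ'.σ_an _ hmem) (kz_line_an p p' θ)
  have hcurve : CurveAt X (fun ξ => χ'.σ (kz_line p p' ξ)) (θ : ℂ) := by
    refine ⟨hγan, ?_⟩
    filter_upwards [hevb] with ξ hξ
    exact (χ'.σ_mem _ hξ).1
  have hlift : ∀ ξ : ℂ, kz_line p p' ξ ∈ ball (0 : ℂ × ℂ) 2 → u (χ'.σ (kz_line p p' ξ)) - z ∈ Λ := by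
    intro ξ hξ
    have h1 := hm'.lift _ hξ
    rwa [kz_mo, kz_line_fst hpp, hpz] at h1
  have hX1 : χ'.σ (kz_line p p' θ) ∈ X := (χ'.σ_mem _ hmem).1
  obtain ⟨hU, hq1, hqz⟩ := hc.cap z hz _ hX1 (hlift _ hmem) hd
  obtain ⟨hq2, a, ha, hqa⟩ := χ.surj _ hX1 hU
  have hρ : (ρ : ℂ) ≠ 0 := by exact_mod_cast hc.mon.pos.ne'
  refine ⟨hcurve, hlift _ hmem, hU, ?_, ?_⟩
  · rw [hqa]
    exact hT.W_smul k _ (hW _ hq2) a ha
  · have hevU : ∀ᶠ ξ in 𝓝 (θ : ℂ), χ'.σ (kz_line p p' ξ) ∈ χ.U := hγan.continuousAt.eventually (χ.isOpen_U.mem_nhds hU)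
    have hqan : AnalyticAt ℂ (fun ξ => χ.q (χ'.σ (kz_line p p' ξ))) (θ : ℂ) := AnalyticAt.fun_comp (χ.q_an _ hU) hγan
    have hzero : ∀ᶠ ξ in 𝓝 (θ : ℂ), c + ρ * (χ.q (χ'.σ (kz_line p p' ξ))).1 - z = 0 := by
      obtain ⟨δ, hδ, hdisc⟩ := hΛ.discrete
      have hcont : ContinuousAt (fun ξ => c + ρ * (χ.q (χ'.σ (kz_line p p' ξ))).1 - z) (θ : ℂ) :=
        ((continuousAt_const.mul (continuousAt_fst.comp (f := fun ξ => χ.q (χ'.σ (kz_line p p' ξ))) hqan.continuousAt)).const_add _).sub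
          continuousAt_const
      have h0 : (fun ξ => c + ρ * (χ.q (χ'.σ (kz_line p p' ξ))).1 - z) (θ : ℂ) = 0 := by
        show c + ρ * (χ.q (χ'.σ (kz_line p p' (θ : ℂ)))).1 - z = 0
        rw [hqz, sub_self]
      have hsmall : ∀ᶠ ξ in 𝓝 (θ : ℂ), ‖c + ρ * (χ.q (χ'.σ (kz_line p p' ξ))).1 - z‖ < δ := by
        have h1 := hcont.norm
        have h2 : ‖(fun ξ => c + ρ * (χ.q (χ'.σ (kz_line p p' ξ))).1 - z) (θ : ℂ)‖ < δ := by rw [h0, norm_zero]; exact hδ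
        exact h1.eventually_lt_const h2
      filter_upwards [hsmall, hevb, hevU] with ξ h1 h2 h3
      refine hdisc _ ?_ h1
      obtain ⟨h4, a', ha', h5⟩ := χ.surj _ (χ'.σ_mem _ h2).1 h3
      have h6 := hc.mon.lift _ h4
      have h7 := hu.smul _ (χ.σ_mem _ h4).1 a' ha'
      rw [← h5] at h7
      rw [kz_mo] at h6
      have h8 := Λ.sub_mem (hlift ξ h2) (Λ.add_mem h7 h6)
      convert h8 using 1
      ring
    refine q_fibre (fun y hy => hT.W_sub k (hW y hy)) hQ hcurve hU ?_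
    have hd1 : HasDerivAt (fun ξ => χ.q (χ'.σ (kz_line p p' ξ))) (deriv (fun ξ => χ.q (χ'.σ (kz_line p p' ξ))) (θ : ℂ)) (θ : ℂ) :=
      hqan.differentiableAt.hasDerivAt
    have hd2 : HasDerivAt (fun ξ => (χ.q (χ'.σ (kz_line p p' ξ))).1) (deriv (fun ξ => χ.q (χ'.σ (kz_line p p' ξ))) (θ : ℂ)).1 (θ : ℂ) :=
      (hasFDerivAt_fst (𝕜 := ℂ) (E := ℂ) (F := ℂ)).comp_hasDerivAt (θ : ℂ) hd1
    have hd3 : HasDerivAt (fun ξ => (χ.q (χ'.σ (kz_line p p' ξ))).1) 0 (θ : ℂ) := by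
      refine (hasDerivAt_const (θ : ℂ) ((z - c) / ρ)).congr_of_eventuallyEq ?_
      filter_upwards [hzero] with ξ hξ
      rw [eq_div_iff hρ]
      linear_combination hξ
    exact hd2.unique hd3

/-- two local primitives have the same increment along the path -/
theorem kz_cons (hX : IsCone X) (hu : TorusMap X Λ u) (hΛ : Lat Λ) {b : ℂ} {s η : ℝ} {T : TubeData X} (hT : TubeG Λ u b s η T)
    {α : TForm X Λ u} {A : Fin T.m → ℂ × ℂ → ℂ} {lam : Fin T.m → EN N → ℂ} (hs : Split Λ u b s T A lam) {x x' : EN N}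
    (hx : x ∈ X) (hx' : x' ∈ X) {ε r : ℝ} {z v : ℂ} (hzb : z ∈ ball b s) (hrel : IRel α ε z (pr x) (pr x') v)
    {χ₀ : Chart X} {c₀ : ℂ} {ρ₀ : ℝ} {k₀ : Fin T.m} {z₀ : ℂ} {y₀ : MN N} (hc₀ : Cap Λ u χ₀ c₀ ρ₀ z₀ y₀ r)
    (hW₀ : ∀ p ∈ ball (0 : ℂ × ℂ) 2, χ₀.σ p ∈ T.W k₀) {Q₀ : ℂ × ℂ → ℂ}
    (hQ₀ : ∀ p ∈ ball (0 : ℂ × ℂ) 2, AnalyticAt ℂ Q₀ p ∧ fderiv ℂ Q₀ p (0, 1) = bc (T.χ k₀) (A k₀) χ₀ (0, 1) p)
    (hz₀ : z ∈ closedBall z₀ r) (hy₀ : dist (pr x) y₀ + ε ≤ r)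
    {χ₁ : Chart X} {c₁ : ℂ} {ρ₁ : ℝ} {k₁ : Fin T.m} {z₁ : ℂ} {y₁ : MN N} (hc₁ : Cap Λ u χ₁ c₁ ρ₁ z₁ y₁ r)
    (hW₁ : ∀ p ∈ ball (0 : ℂ × ℂ) 2, χ₁.σ p ∈ T.W k₁) {Q₁ : ℂ × ℂ → ℂ}
    (hQ₁ : ∀ p ∈ ball (0 : ℂ × ℂ) 2, AnalyticAt ℂ Q₁ p ∧ fderiv ℂ Q₁ p (0, 1) = bc (T.χ k₁) (A k₁) χ₁ (0, 1) p)
    (hz₁ : z ∈ closedBall z₁ r) (hy₁ : dist (pr x) y₁ + ε ≤ r) :
    (Q₀ (χ₀.q x') - lam k₀ x') - (Q₀ (χ₀.q x) - lam k₀ x) = (Q₁ (χ₁.q x') - lam k₁ x') - (Q₁ (χ₁.q x) - lam k₁ x) := by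
  obtain ⟨χ', c', ρ', A', p, p', hm', -, hp, hp', hpz, hpz', hpx, hpx', hdist, -⟩ := hrel
  have hρ' : (ρ' : ℂ) ≠ 0 := by exact_mod_cast hm'.pos.ne'
  have hpp : p.1 = p'.1 := by
    have h1 : (ρ' : ℂ) * p.1 = ρ' * p'.1 := by linear_combination hpz - hpz'
    exact mul_left_cancel₀ hρ' h1
  have hdl : ∀ θ ∈ Set.Icc (0 : ℝ) 1, dist (pr (χ'.σ (kz_line p p' (θ : ℂ)))) (pr x) ≤ ε := hdist
  have hP₀ := fun (θ : ℝ) (hθ : θ ∈ Set.Icc (0 : ℝ) 1) => kz_point hu hΛ hT (A := A) hc₀ hW₀ hQ₀ hm' hp hp' hz₀ hpz hpp hθ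
    ((dist_triangle _ (pr x) _).trans (by linarith [hdl θ hθ]))
  have hP₁ := fun (θ : ℝ) (hθ : θ ∈ Set.Icc (0 : ℝ) 1) => kz_point hu hΛ hT (A := A) hc₁ hW₁ hQ₁ hm' hp hp' hz₁ hpz hpp hθ
    ((dist_triangle _ (pr x) _).trans (by linarith [hdl θ hθ]))
  set h : ℂ → ℂ := fun ξ => Q₀ (χ₀.q (χ'.σ (kz_line p p' ξ))) - Q₁ (χ₁.q (χ'.σ (kz_line p p' ξ))) -
    (lam k₀ (χ'.σ (kz_line p p' ξ)) - lam k₁ (χ'.σ (kz_line p p' ξ))) with hh
  have hder : ∀ θ ∈ Set.Icc (0 : ℝ) 1, HasDerivAt h 0 (θ : ℂ) := by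
    intro θ hθ
    obtain ⟨h1, h2, h3, h4, h5⟩ := hP₀ θ hθ
    obtain ⟨-, -, h6, h7, h8⟩ := hP₁ θ hθ
    have h9 := hs.2 k₀ k₁ _ _ h1 ⟨z, hzb, h2⟩ h4 h7
    have h10 := (h5.sub h8).sub h9
    rw [sub_self] at h10
    exact h10
  have hconst : h ((1 : ℝ) : ℂ) = h ((0 : ℝ) : ℂ) := by
    refine constant_of_has_deriv_right_zero (f := fun t : ℝ => h (t : ℂ)) (a := 0) (b := 1) ?_ ?_ 1 (by simp)
    · intro t ht
      exact ((hder t ht).comp_ofReal).continuousAt.continuousWithinAt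
    · intro t ht
      exact ((hder t ⟨ht.1, ht.2.le⟩).comp_ofReal).hasDerivWithinAt
  have hx0 : x ≠ 0 := fun h0 => hX.zero_notMem (h0 ▸ hx)
  have hx0' : x' ≠ 0 := fun h0 => hX.zero_notMem (h0 ▸ hx')
  have hl0 : kz_line p p' ((0 : ℝ) : ℂ) = p := by unfold kz_line; simp
  have hl1 : kz_line p p' ((1 : ℝ) : ℂ) = p' := by unfold kz_line; simp
  have hσ0 : χ'.σ p ≠ 0 := fun h0 => hX.zero_notMem (h0 ▸ (χ'.σ_mem p hp).1)
  have hσ1 : χ'.σ p' ≠ 0 := fun h0 => hX.zero_notMem (h0 ▸ (χ'.σ_mem p' hp').1)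
  obtain ⟨a, ha, hax⟩ := (Pool.Agent.H62.EF.pr_eq_iff hσ0 hx0).1 hpx
  obtain ⟨a', ha', hax'⟩ := (Pool.Agent.H62.EF.pr_eq_iff hσ1 hx0').1 hpx'
  have hU₀ := (hP₀ 0 (by simp)).2.2.1
  have hU₀' := (hP₀ 1 (by simp)).2.2.1
  have hU₁ := (hP₁ 0 (by simp)).2.2.1
  have hU₁' := (hP₁ 1 (by simp)).2.2.1
  rw [hl0, hax] at hU₀ hU₁
  rw [hl1, hax'] at hU₀' hU₁'
  have hback : ∀ (χ : Chart X) (y : EN N) (d : ℂ), d ≠ 0 → d • y ∈ χ.U → y ∈ χ.U := by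
    intro χ y d hd hy
    have h1 := χ.smul_U _ hy d⁻¹ (inv_ne_zero hd)
    rwa [smul_smul, inv_mul_cancel₀ hd, one_smul] at h1
  simp only [hh, hl0, hl1, hax, hax'] at hconst
  rw [χ₀.q_smul _ (hback χ₀ x a ha hU₀) a ha, χ₀.q_smul _ (hback χ₀ x' a' ha' hU₀') a' ha', χ₁.q_smul _ (hback χ₁ x a ha hU₁) a ha,
    χ₁.q_smul _ (hback χ₁ x' a' ha' hU₁') a' ha', hs.1 k₀ _ hx a ha, hs.1 k₀ _ hx' a' ha', hs.1 k₁ _ hx a ha, hs.1 k₁ _ hx' a' ha'] at hconst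
  linear_combination hconst

end Pool.Agent.TGY

end

section

/-!
# TG Y SlA: the slab is a cone with a map to `ℂ / Γ₀`

`wl_spec`: `Exists.choose_spec`.  `wl_eq`: two values `z, z'` with `‖z‖, ‖z'‖ ≤ s`: `(z - z') • e ∈ Λ` has norm `≤ 2 s ‖e‖`, so it is `0` (`L.small`), `z = z'` (`e ≠ 0`).
`isCone`: `smul_mem`: `smul_mem_lat`.  `closed`: let `x_n → x`, `x_n ∈ insert 0 Y`; `x = 0`, or `x ∈ X` (`L.cone.closed`) and eventually `x_n ≠ 0`, `x_n ∈ Y` with `z_n` in the compact disc, along a subsequence (or ultrafilter) `z_n → z`, `lim_mem`.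
`exists_loc`: let `v` be a local lift of `u` at `x` (`TMap.loc`), changed by a constant of `Λ` such that `v x = p + wl x • e`.  For `y ∈ Y` near `x`: `l = v y - (p + wl y • e) ∈ Λ`, and `‖l‖ ≤ ‖v y - v x‖ + ‖(wl x - wl y) • e‖ ≤ ‖v y - v x‖ + 2 s ‖e‖ ≤ 4 s ‖e‖` for `y` near `x`
(`s ‖e‖ > 0`), so `l = 0`, `v y = p + wl y • e`.  With a linear form `ℓ`, `ℓ e = 1`: `wl y = ℓ (v y - p)`: `W y = ℓ (v y - p)`.
`torusMap`: `smul`: `wl (c • x) = wl x` for `x ∈ Y` (`wl_eq`), `loc` from `exists_loc`.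
-/

set_option autoImplicit false

open Topology Filter Metric

namespace Pool.Agent.TG

open Pool.Agent.H36.BP (EN fs wd)
open Pool.Agent.H14.PP (IsCone CurveAt Tan)
open Pool.Agent.H62.EF (MN pr)
open Pool.Agent.AD (Vd Chart Charts IsGerm)

variable {N k : ℕ}

variable {X : Set (EN N)} {Λ : AddSubgroup (Vd (k + 1))} {u : EN N → Vd (k + 1)} {D B : Set (Vd (k + 1))}
  {κ : Vd (k + 1) → Vd (k + 1)} {p e : Vd (k + 1)} {c : ℂ → Vd (k + 1)} {Γ₀ : AddSubgroup ℂ} {s : ℝ}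

theorem Ln.wl_eq (L : Ln X Λ u D κ p e c Γ₀ s) {x : EN N} {z : ℂ} (hz : ‖z‖ ≤ s) (h : u x - (p + z • e) ∈ Λ) : wl Λ u p e s x = z := by
  have hex : ∃ z : ℂ, ‖z‖ ≤ s ∧ u x - (p + z • e) ∈ Λ := ⟨z, hz, h⟩
  have h1 : ‖wl Λ u p e s x‖ ≤ s ∧ u x - (p + wl Λ u p e s x • e) ∈ Λ := by
    unfold wl
    rw [dif_pos hex]
    exact hex.choose_spec
  have h2 : (z - wl Λ u p e s x) • e ∈ Λ := by
    have h3 : (z - wl Λ u p e s x) • e = (u x - (p + wl Λ u p e s x • e)) - (u x - (p + z • e)) := by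
      rw [sub_smul]
      abel
    rw [h3]
    exact Λ.sub_mem h1.2 h
  have h4 : (z - wl Λ u p e s x) • e = 0 := by
    refine L.small _ h2 ?_
    rw [norm_smul]
    have h5 : ‖z - wl Λ u p e s x‖ ≤ s + s := (norm_sub_le _ _).trans (add_le_add hz h1.1)
    have h6 := mul_le_mul_of_nonneg_right h5 (norm_nonneg e)
    have h7 := mul_nonneg L.pos.le (norm_nonneg e)
    linarith
  rcases smul_eq_zero.1 h4 with h5 | h5
  · exact (sub_eq_zero.1 h5).symm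
  · exact absurd h5 L.e_ne

theorem Ln.wl_smul (L : Ln X Λ u D κ p e c Γ₀ s) {x : EN N} (hx : x ∈ Yl X Λ u p e s) {a : ℂ} (ha : a ≠ 0) :
    wl Λ u p e s (a • x) = wl Λ u p e s x := by
  have h1 := Ln.wl_spec hx
  exact L.wl_eq h1.1 (smul_mem_lat L.tor hx.1 h1.2 ha)

theorem Ln.isCone (L : Ln X Λ u D κ p e c Γ₀ s) : IsCone (Yl X Λ u p e s) := by
  refine ⟨fun h => L.cone.zero_notMem h.1, fun x hx a ha => ?_, ?_⟩
  · obtain ⟨hxX, z, hz, hzx⟩ := hx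
    exact ⟨L.cone.smul_mem x hxX a ha, z, hz, smul_mem_lat L.tor hxX hzx ha⟩
  · refine IsSeqClosed.isClosed fun x x₀ hx hlim => ?_
    have hx₀ : x₀ ∈ insert (0 : EN N) X := by
      refine L.cone.closed.mem_of_tendsto hlim (Eventually.of_forall fun n => ?_)
      rcases hx n with h | h
      · exact Or.inl h
      · exact Or.inr h.1
    rcases hx₀ with h0 | hx₀
    · exact Or.inl h0
    · right
      have hne : x₀ ≠ 0 := ne_zero L.cone hx₀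
      have hev : ∀ᶠ n in atTop, x n ∈ Yl X Λ u p e s := by
        filter_upwards [hlim.eventually_ne hne] with n hn
        exact (hx n).resolve_left hn
      set 𝒰 : Ultrafilter ℕ := hyperfilter ℕ with h𝒰
      have hevU : ∀ᶠ n in (𝒰 : Filter ℕ), x n ∈ Yl X Λ u p e s := Nat.hyperfilter_le_atTop hev
      obtain ⟨z, hz, hzt⟩ := (isCompact_closedBall (0 : ℂ) s).ultrafilter_le_nhds (𝒰.map fun n => wl Λ u p e s (x n)) (by
        rw [Ultrafilter.coe_map, le_principal_iff, mem_map]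
        filter_upwards [hevU] with n hn
        show wl Λ u p e s (x n) ∈ closedBall (0 : ℂ) s
        rw [mem_closedBall_zero_iff]
        exact (Ln.wl_spec hn).1)
      have hzt' : Tendsto (fun n => wl Λ u p e s (x n)) 𝒰 (𝓝 z) := hzt
      have hxt : Tendsto x 𝒰 (𝓝 x₀) := hlim.mono_left Nat.hyperfilter_le_atTop
      refine ⟨hx₀, z, mem_closedBall_zero_iff.1 hz, ?_⟩
      refine lim_mem L.lat L.tor (l := (𝒰 : Filter ℕ)) (y := fun n => p + wl Λ u p e s (x n) • e) hx₀ hxt ?_ ?_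
      · exact tendsto_const_nhds.add (hzt'.smul_const e)
      · filter_upwards [hevU] with n hn
        exact ⟨hn.1, (Ln.wl_spec hn).2⟩

theorem Ln.torusMap (L : Ln X Λ u D κ p e c Γ₀ s) : Pool.Agent.H62.EF.TorusMap (Yl X Λ u p e s) Γ₀ (wl Λ u p e s) := by
  refine ⟨fun x hx a ha => ?_, fun x hx => ?_⟩
  · rw [L.wl_smul hx ha, sub_self]
    exact Γ₀.zero_mem
  · obtain ⟨W, hW, hW'⟩ := L.exists_loc hx
    refine ⟨W, hW, ?_⟩
    filter_upwards [hW'] with y hy hyY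
    rw [hy hyY, sub_self]
    exact Γ₀.zero_mem

end Pool.Agent.TG

end

section

/-!
# TG Y Br: short paths in the slab

`sl y = cons y.2 (ρ⁻¹ (p + (z₀ + r y.1) e - c'))`: the slice of the straight chart `χ` over the line.

`Ln.slice_chart`: `r > 0` small: for `‖y.1‖ < 2`: `‖z₀ + r y.1‖ < s` and the tail of `sl y` stays in the open ball of radius `2` (at `y.1 = 0` it is `tl q₀`).  `U' = {x ∈ χ.U : ‖tl (χ.q x) - tl q₀‖ < η', ‖q'₁ x‖ < 2}`, `q' x = ((ℓ (ms c' ρ (χ.q x) - p) - z₀) / r, (χ.q x) 0)` with a linear form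
`ℓ`, `ℓ e = 1`; `η'` such that `ρ η' ≤ s ‖e‖` and `r` small w.r.t. `η'` (so that `sl y` satisfies the conditions).  `surj`: let `x ∈ Y ∩ U'`: `ms c' ρ (χ.q x) - (p + wl x • e) ∈ Λ` has norm `≤ ρ η' + ‖(z₀ - wl x) • e‖ ≤ s ‖e‖ + 2 s ‖e‖`, so it is `0` (`L.small`): `χ.q x = sl (q' x)`, and
`x = a • χ.σ (χ.q x)`.  `σ_mem`: `χ.σ (sl y) ∈ X` is over `p + (z₀ + r y.1) • e` (`Str.lift`), `wl = z₀ + r y.1` (`Ln.wl_eq`).  `Mon`: `mo z₀ r 1 0 y = z₀ + r y.1`.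

`Ln.slice_tc`: `form_eq` at `x = χ.σ (sl y)` with the vectors `∂₁ = fderiv χ'.σ y (1, 0) = fderiv χ.σ (sl y) (cons 0 ((r / ρ) e))`, `∂₂ = fderiv χ.σ (sl y) (Pi.single 0 1)` and the frame `ℓ j = fderiv χ.σ (sl y) (cons 0 (ρ⁻¹ fr_j))` (`dv_iff` with `υ = ms c' ρ`; `wl x = z₀ + r y.1`); `toFun_eq`:
the matrix has the rows `(0, (r / ρ) e)`, `(1, 0)`, `(0, ρ⁻¹ fr_j)`; its determinant is `- (r / ρ) ρ⁻ᵏ dt` (expand along the row `1` or the column `0`: `Matrix.det_succ_column_zero`).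

`Ln.irel_bridge`: let `χ, c', ρ, A, q, q'` be from `IRel`: `ms c' ρ q = p + z • e = ms c' ρ q'`, so `tl q = tl q'`.  `χ', r` from `slice_chart` with `z₀ = z`, `q₀ = q`; `A' y = - (r / ρ ^ (k + 1)) * dt κ e c (z + r y.1) * A (sl y)` is a primitive of the restricted form (`slice_tc`, `IsPrim` for `χ`;
analytic: `dt` is analytic at points of norm `< s`: `L.κ_an`, `L.c_an`); the points `(0, q 0)`, `(0, q' 0)` have `sl = q, q'`.  `v' = (A' (0, q' 0) - A' (0, q 0)) / r = - dt κ e c z * v`.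
-/

set_option autoImplicit false

open Topology Filter Metric

namespace Pool.Agent.TG

open Pool.Agent.H36.BP (EN fs wd)
open Pool.Agent.H14.PP (IsCone CurveAt Tan)
open Pool.Agent.H62.EF (MN pr)
open Pool.Agent.AD (Vd Chart Charts IsGerm)

variable {N k : ℕ}

variable {X : Set (EN N)} {Λ : AddSubgroup (Vd (k + 1))} {u : EN N → Vd (k + 1)} {D B : Set (Vd (k + 1))}
  {κ : Vd (k + 1) → Vd (k + 1)} {p e : Vd (k + 1)} {c : ℂ → Vd (k + 1)} {Γ₀ : AddSubgroup ℂ} {s : ℝ}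

/-- the slice of a straight chart over the line -/
noncomputable def slc (p e c' : Vd (k + 1)) (ρ : ℝ) (z₀ : ℂ) (r : ℝ) (y : ℂ × ℂ) : Vd (k + 2) :=
  Fin.cons (α := fun _ => ℂ) y.2 ((ρ : ℂ)⁻¹ • (p + (z₀ + r * y.1) • e - c'))

private theorem Br_slc_tl (p e c' : Vd (k + 1)) (ρ : ℝ) (z₀ : ℂ) (r : ℝ) (y : ℂ × ℂ) :
    tl (slc p e c' ρ z₀ r y) = (ρ : ℂ)⁻¹ • (p + (z₀ + r * y.1) • e - c') := rfl

theorem Br_slc_ms (p e c' : Vd (k + 1)) {ρ : ℝ} (hρ : 0 < ρ) (z₀ : ℂ) (r : ℝ) (y : ℂ × ℂ) :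
    ms c' ρ (slc p e c' ρ z₀ r y) = p + (z₀ + r * y.1) • e := by
  have h1 : (ρ : ℂ) ≠ 0 := by exact_mod_cast hρ.ne'
  unfold ms
  rw [Br_slc_tl, smul_smul, mul_inv_cancel₀ h1, one_smul]
  abel

/-- two points of the model space with the same first coordinate and tail -/
private theorem Br_ext {a b : Vd (k + 2)} (h0 : a 0 = b 0) (h1 : tl a = tl b) : a = b := by
  funext i
  refine Fin.cases h0 (fun j => congrFun h1 j) i

theorem Br_slc_eq (p e c' : Vd (k + 1)) {ρ : ℝ} (hρ : 0 < ρ) (z₀ : ℂ) (r : ℝ) {y : ℂ × ℂ} {q : Vd (k + 2)}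
    (h0 : q 0 = y.2) (h1 : ms c' ρ q = p + (z₀ + r * y.1) • e) : slc p e c' ρ z₀ r y = q := by
  have h2 : (ρ : ℂ) ≠ 0 := by exact_mod_cast hρ.ne'
  refine Br_ext h0.symm ?_
  rw [Br_slc_tl, ← h1]
  unfold ms
  rw [add_sub_cancel_left, smul_smul, inv_mul_cancel₀ h2, one_smul]

/-- the linear part of `slc` -/
noncomputable def Br_slL (e : Vd (k + 1)) (ρ r : ℝ) : ℂ × ℂ →L[ℂ] Vd (k + 2) :=
  ContinuousLinearMap.pi (Fin.cons (α := fun _ => ℂ × ℂ →L[ℂ] ℂ) (ContinuousLinearMap.snd ℂ ℂ ℂ)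
    fun i : Fin (k + 1) => ((ρ : ℂ)⁻¹ * (r * e i)) • ContinuousLinearMap.fst ℂ ℂ ℂ)

theorem Br_slL_apply (e : Vd (k + 1)) (ρ r : ℝ) (w : ℂ × ℂ) :
    Br_slL e ρ r w = Fin.cons (α := fun _ => ℂ) w.2 ((ρ : ℂ)⁻¹ • ((r * w.1) • e)) := by
  funext i
  refine Fin.cases rfl (fun j => ?_) i
  show ((ρ : ℂ)⁻¹ * (r * e j)) * w.1 = (ρ : ℂ)⁻¹ * ((r * w.1) * e j)
  ring

private theorem Br_slc_affine (p e c' : Vd (k + 1)) (ρ : ℝ) (z₀ : ℂ) (r : ℝ) (y : ℂ × ℂ) :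
    slc p e c' ρ z₀ r y = Br_slL e ρ r y + slc p e c' ρ z₀ r 0 := by
  rw [Br_slL_apply]
  funext i
  refine Fin.cases ?_ (fun j => ?_) i
  · show y.2 = y.2 + 0
    ring
  · show (ρ : ℂ)⁻¹ * (p j + (z₀ + r * y.1) * e j - c' j) = (ρ : ℂ)⁻¹ * ((r * y.1) * e j) + (ρ : ℂ)⁻¹ * (p j + (z₀ + r * 0) * e j - c' j)
    ring

theorem Br_slc_deriv (p e c' : Vd (k + 1)) (ρ : ℝ) (z₀ : ℂ) (r : ℝ) (y : ℂ × ℂ) :
    HasFDerivAt (slc p e c' ρ z₀ r) (Br_slL e ρ r) y := by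
  have h1 : slc p e c' ρ z₀ r = fun y => Br_slL e ρ r y + slc p e c' ρ z₀ r 0 := funext fun y => Br_slc_affine p e c' ρ z₀ r y
  rw [h1]
  exact (Br_slL e ρ r).hasFDerivAt.add_const _

theorem Br_slc_an (p e c' : Vd (k + 1)) (ρ : ℝ) (z₀ : ℂ) (r : ℝ) (y : ℂ × ℂ) : AnalyticAt ℂ (slc p e c' ρ z₀ r) y := by
  have h1 : slc p e c' ρ z₀ r = fun y => Br_slL e ρ r y + slc p e c' ρ z₀ r 0 := funext fun y => Br_slc_affine p e c' ρ z₀ r y
  rw [h1]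
  exact ((Br_slL e ρ r).analyticAt y).add analyticAt_const

theorem Br_ball_iff (y : ℂ × ℂ) {R : ℝ} : y ∈ ball (0 : ℂ × ℂ) R ↔ ‖y.1‖ < R ∧ ‖y.2‖ < R := by
  rw [mem_ball_zero_iff, Prod.norm_def, max_lt_iff]

theorem Br_ball_iff' (q : Vd (k + 2)) : q ∈ ball (0 : Vd (k + 2)) 2 ↔ ‖q 0‖ < 2 ∧ ‖tl q‖ < 2 := by
  rw [mem_ball_zero_iff, pi_norm_lt_iff (by norm_num : (0 : ℝ) < 2), pi_norm_lt_iff (by norm_num : (0 : ℝ) < 2)]
  constructor
  · intro h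
    exact ⟨h 0, fun i => h i.succ⟩
  · rintro ⟨h0, h1⟩ i
    exact Fin.cases h0 (fun j => h1 j) i

theorem Ln.slice_chart (L : Ln X Λ u D κ p e c Γ₀ s) (χ : Chart (k + 2) X) {c' : Vd (k + 1)} {ρ : ℝ} (hs : Str Λ u χ c' ρ)
    {q₀ : Vd (k + 2)} (hq₀ : q₀ ∈ ball (0 : Vd (k + 2)) 2) {z₀ : ℂ} (hz₀ : ‖z₀‖ < s) (hq : ms c' ρ q₀ = p + z₀ • e) :
    ∃ (χ' : Pool.Agent.H14.PP.Chart (Yl X Λ u p e s)) (r : ℝ), Pool.Agent.H62.EL.Mon Γ₀ (wl Λ u p e s) χ' z₀ r 1 0 ∧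
      (∀ y ∈ ball (0 : ℂ × ℂ) 2, ‖z₀ + r * y.1‖ < s ∧ slc p e c' ρ z₀ r y ∈ ball (0 : Vd (k + 2)) 2 ∧ χ'.σ y = χ.σ (slc p e c' ρ z₀ r y)) ∧
      ∀ x ∈ Yl X Λ u p e s, x ∈ χ.U → wl Λ u p e s x = z₀ → ms c' ρ (χ.q x) = p + z₀ • e → x ∈ χ'.U ∧ χ'.q x = (0, χ.q x 0) := by
  obtain ⟨i, hi⟩ : ∃ i, e i ≠ 0 := Function.ne_iff.1 L.e_ne
  have he : 0 < ‖e‖ := norm_pos_iff.2 L.e_ne
  have hρ := hs.pos
  have hρ0 : (ρ : ℂ) ≠ 0 := by exact_mod_cast hρ.ne'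
  have hspos := L.pos
  have htq : 0 < 2 - ‖tl q₀‖ := by
    have := ((Br_ball_iff' q₀).1 hq₀).2
    linarith
  obtain ⟨r, hr0, hr1, hr2⟩ : ∃ r : ℝ, 0 < r ∧ 2 * r ≤ s - ‖z₀‖ ∧ 2 * r * ‖e‖ ≤ (2 - ‖tl q₀‖) * ρ := by
    refine ⟨min ((s - ‖z₀‖) / 2) ((2 - ‖tl q₀‖) * ρ / (2 * ‖e‖)), ?_, ?_, ?_⟩
    · refine lt_min (by linarith) (by positivity)
    · have := min_le_left ((s - ‖z₀‖) / 2) ((2 - ‖tl q₀‖) * ρ / (2 * ‖e‖))
      linarith
    · have h1 := min_le_right ((s - ‖z₀‖) / 2) ((2 - ‖tl q₀‖) * ρ / (2 * ‖e‖))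
      rw [le_div_iff₀ (by positivity)] at h1
      linarith
  have hr0' : (r : ℂ) ≠ 0 := by exact_mod_cast hr0.ne'
  -- the points of the line
  have hz : ∀ y : ℂ × ℂ, ‖y.1‖ < 2 → ‖z₀ + r * y.1‖ < s := by
    intro y hy
    have h1 : ‖(r : ℂ) * y.1‖ < r * 2 := by
      rw [norm_mul, Complex.norm_real, Real.norm_eq_abs, abs_of_pos hr0]
      exact mul_lt_mul_of_pos_left hy hr0
    have h2 := norm_add_le z₀ ((r : ℂ) * y.1)
    linarith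
  have htl0 : (ρ : ℂ) • tl q₀ = p + z₀ • e - c' := by
    rw [← hq]
    unfold ms
    abel
  have htl : ∀ y : ℂ × ℂ, tl (slc p e c' ρ z₀ r y) - tl q₀ = (ρ : ℂ)⁻¹ • ((r * y.1) • e) := by
    intro y
    have h1 : tl q₀ = (ρ : ℂ)⁻¹ • (p + z₀ • e - c') := by
      rw [← htl0, smul_smul, inv_mul_cancel₀ hρ0, one_smul]
    rw [Br_slc_tl, h1, ← smul_sub]
    congr 1
    rw [add_smul]
    abel
  have htln : ∀ y : ℂ × ℂ, ‖y.1‖ < 2 → ‖tl (slc p e c' ρ z₀ r y) - tl q₀‖ < ρ⁻¹ * (2 * r * ‖e‖) := by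
    intro y hy
    rw [htl y, norm_smul, norm_smul, norm_mul, norm_inv, Complex.norm_real, Complex.norm_real, Real.norm_eq_abs, Real.norm_eq_abs,
      abs_of_pos hρ, abs_of_pos hr0]
    refine mul_lt_mul_of_pos_left ?_ (inv_pos.2 hρ)
    refine mul_lt_mul_of_pos_right ?_ he
    have := mul_lt_mul_of_pos_left hy hr0
    linarith
  have hsl : ∀ y ∈ ball (0 : ℂ × ℂ) 2, slc p e c' ρ z₀ r y ∈ ball (0 : Vd (k + 2)) 2 := by
    intro y hy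
    rw [Br_ball_iff] at hy
    rw [Br_ball_iff']
    refine ⟨hy.2, ?_⟩
    have h1 := htln y hy.1
    have h2 : ρ⁻¹ * (2 * r * ‖e‖) ≤ 2 - ‖tl q₀‖ := by
      rw [inv_mul_le_iff₀ hρ]
      linarith
    have h3 : tl (slc p e c' ρ z₀ r y) = (tl (slc p e c' ρ z₀ r y) - tl q₀) + tl q₀ := by abel
    rw [h3]
    have := norm_add_le (tl (slc p e c' ρ z₀ r y) - tl q₀) (tl q₀)
    linarith
  have hmem : ∀ y ∈ ball (0 : ℂ × ℂ) 2, χ.σ (slc p e c' ρ z₀ r y) ∈ Yl X Λ u p e s ∧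
      u (χ.σ (slc p e c' ρ z₀ r y)) - (p + (z₀ + r * y.1) • e) ∈ Λ := by
    intro y hy
    have h1 := hs.lift _ (hsl y hy)
    rw [Br_slc_ms p e c' hρ] at h1
    exact ⟨⟨(χ.σ_mem _ (hsl y hy)).1, z₀ + r * y.1, (hz y ((Br_ball_iff y).1 hy).1).le, h1⟩, h1⟩
  -- the first coordinate
  set g : EN N → ℂ := fun x => ((ms c' ρ (χ.q x) - p) i / e i - z₀) / r with hg
  have hgan : ∀ x ∈ χ.U, AnalyticAt ℂ g x := by
    intro x hx
    have h1 : AnalyticAt ℂ (fun x => ms c' ρ (χ.q x) - p) x := by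
      have h2 : AnalyticAt ℂ (fun x => ms c' ρ (χ.q x)) x := by
        have h3 : AnalyticAt ℂ (ms (k := k) c' ρ) (χ.q x) := by
          exact analyticAt_const.add (((ρ : ℂ) • tlL (k := k)).analyticAt _)
        exact h3.fun_comp (χ.q_an x hx)
      exact h2.sub analyticAt_const
    have h4 : AnalyticAt ℂ (fun x => (ms c' ρ (χ.q x) - p) i) x :=
      ((ContinuousLinearMap.proj (R := ℂ) (φ := fun _ : Fin (k + 1) => ℂ) i).analyticAt _).fun_comp h1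
    exact ((h4.div analyticAt_const hi).sub analyticAt_const).div analyticAt_const hr0'
  have hgval : ∀ x : EN N, ∀ w : ℂ, ms c' ρ (χ.q x) = p + (z₀ + r * w) • e → g x = w := by
    intro x w h
    show ((ms c' ρ (χ.q x) - p) i / e i - z₀) / r = w
    rw [h, add_sub_cancel_left, Pi.smul_apply, smul_eq_mul, mul_div_cancel_right₀ _ hi, add_sub_cancel_left, mul_div_cancel_left₀ _ hr0']
  -- the coordinates are on the line
  have hline : ∀ x ∈ Yl X Λ u p e s, x ∈ χ.U → ‖tl (χ.q x) - tl q₀‖ < ρ⁻¹ * (s * ‖e‖) →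
      ms c' ρ (χ.q x) = p + wl Λ u p e s x • e := by
    intro x hx hU hn
    have h1 := Ln.wl_spec hx
    obtain ⟨hb, a, ha, hxa⟩ := χ.surj x hx.1 hU
    have h2 := hs.lift _ hb
    have h3 : u x - u (χ.σ (χ.q x)) ∈ Λ := by
      have h4 := L.tor.smul _ (χ.σ_mem _ hb).1 a ha
      rwa [← hxa] at h4
    have h5 : ms c' ρ (χ.q x) - (p + wl Λ u p e s x • e) ∈ Λ := by
      have h6 : ms c' ρ (χ.q x) - (p + wl Λ u p e s x • e) =
          (u x - (p + wl Λ u p e s x • e)) - (u x - u (χ.σ (χ.q x))) - (u (χ.σ (χ.q x)) - ms c' ρ (χ.q x)) := by abel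
      rw [h6]
      exact Λ.sub_mem (Λ.sub_mem h1.2 h3) h2
    refine sub_eq_zero.1 (L.small _ h5 ?_)
    have h7 : ms c' ρ (χ.q x) - (p + wl Λ u p e s x • e) = (ρ : ℂ) • (tl (χ.q x) - tl q₀) + (z₀ - wl Λ u p e s x) • e := by
      unfold ms
      rw [smul_sub, htl0, sub_smul]
      abel
    rw [h7]
    refine (norm_add_le _ _).trans ?_
    rw [norm_smul, norm_smul, Complex.norm_real, Real.norm_eq_abs, abs_of_pos hρ]
    have h8 : ‖z₀ - wl Λ u p e s x‖ ≤ s + s := (norm_sub_le _ _).trans (add_le_add hz₀.le h1.1)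
    have h9 := mul_le_mul_of_nonneg_right h8 (norm_nonneg e)
    have h10 : ρ * ‖tl (χ.q x) - tl q₀‖ ≤ s * ‖e‖ := by
      have h11 := mul_le_mul_of_nonneg_left hn.le hρ.le
      rwa [← mul_assoc, mul_inv_cancel₀ hρ.ne', one_mul] at h11
    linarith [mul_nonneg hspos.le (norm_nonneg e)]
  have hqc : ∀ x ∈ χ.U, ContinuousAt (fun x => ‖tl (χ.q x) - tl q₀‖) x := by
    intro x hx
    have h1 : ContinuousAt (fun x => tl (χ.q x)) x :=
      (tlL (k := k)).continuous.continuousAt.comp (χ.q_an x hx).continuousAt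
    exact (h1.sub continuousAt_const).norm
  let χ' : Pool.Agent.H14.PP.Chart (Yl X Λ u p e s) :=
    { σ := fun y => χ.σ (slc p e c' ρ z₀ r y)
      U := {x | x ∈ χ.U ∧ ‖tl (χ.q x) - tl q₀‖ < ρ⁻¹ * (s * ‖e‖) ∧ ‖g x‖ < 2}
      q := fun x => (g x, χ.q x 0)
      isOpen_U := by
        rw [isOpen_iff_mem_nhds]
        rintro x ⟨h1, h2, h3⟩
        filter_upwards [χ.isOpen_U.mem_nhds h1, (hqc x h1).eventually_lt continuousAt_const h2,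
          (hgan x h1).continuousAt.norm.eventually_lt continuousAt_const h3] with x' h4 h5 h6
        exact ⟨h4, h5, h6⟩
      smul_U := by
        rintro x ⟨h1, h2, h3⟩ a ha
        have h4 := χ.q_smul x h1 a ha
        refine ⟨χ.smul_U x h1 a ha, ?_, ?_⟩
        · rw [h4]
          exact h2
        · have h5 : g (a • x) = g x := by
            show ((ms c' ρ (χ.q (a • x)) - p) i / e i - z₀) / r = ((ms c' ρ (χ.q x) - p) i / e i - z₀) / r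
            rw [h4]
          rw [h5]
          exact h3
      σ_an := fun y hy => (χ.σ_an _ (hsl y hy)).fun_comp (Br_slc_an p e c' ρ z₀ r y)
      q_an := fun x hx => (hgan x hx.1).prod
        (((ContinuousLinearMap.proj (R := ℂ) (φ := fun _ : Fin (k + 2) => ℂ) 0).analyticAt _).fun_comp (χ.q_an x hx.1))
      q_smul := by
        rintro x ⟨h1, h2, h3⟩ a ha
        have h4 := χ.q_smul x h1 a ha
        show (((ms c' ρ (χ.q (a • x)) - p) i / e i - z₀) / r, χ.q (a • x) 0) = (((ms c' ρ (χ.q x) - p) i / e i - z₀) / r, χ.q x 0)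
        rw [h4]
      σ_mem := by
        intro y hy
        have h1 := χ.σ_mem _ (hsl y hy)
        have hy' := (Br_ball_iff y).1 hy
        have h2 : g (χ.σ (slc p e c' ρ z₀ r y)) = y.1 := by
          refine hgval _ _ ?_
          rw [h1.2.2]
          exact Br_slc_ms p e c' hρ z₀ r y
        refine ⟨(hmem y hy).1, ⟨h1.2.1, ?_, ?_⟩, ?_⟩
        · rw [h1.2.2]
          refine (htln y hy'.1).trans_le ?_
          refine mul_le_mul_of_nonneg_left ?_ (inv_pos.2 hρ).le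
          refine mul_le_mul_of_nonneg_right ?_ (norm_nonneg e)
          linarith [norm_nonneg z₀]
        · rw [h2]
          exact hy'.1
        · show (g (χ.σ (slc p e c' ρ z₀ r y)), χ.q (χ.σ (slc p e c' ρ z₀ r y)) 0) = y
          rw [h2, h1.2.2]
          rfl
      surj := by
        rintro x hx ⟨hU, h2, h3⟩
        obtain ⟨hb, a, ha, hxa⟩ := χ.surj x hx.1 hU
        have hb' := (Br_ball_iff' _).1 hb
        have h4 := hline x hx hU h2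
        have h5 : ms c' ρ (χ.q x) = p + (z₀ + r * g x) • e := by
          have h6 : z₀ + r * g x = wl Λ u p e s x := by
            show z₀ + r * (((ms c' ρ (χ.q x) - p) i / e i - z₀) / r) = wl Λ u p e s x
            rw [mul_div_cancel₀ _ hr0', h4, add_sub_cancel_left, Pi.smul_apply, smul_eq_mul, mul_div_cancel_right₀ _ hi]
            ring
          rw [h6]
          exact h4
        refine ⟨(Br_ball_iff _).2 ⟨h3, hb'.1⟩, a, ha, ?_⟩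
        show x = a • χ.σ (slc p e c' ρ z₀ r (g x, χ.q x 0))
        rw [Br_slc_eq p e c' hρ z₀ r (y := (g x, χ.q x 0)) rfl h5]
        exact hxa }
  refine ⟨χ', r, ⟨hr0, by norm_num, ?_⟩, ?_, ?_⟩
  · intro y hy
    have h1 : wl Λ u p e s (χ.σ (slc p e c' ρ z₀ r y)) = z₀ + r * y.1 :=
      L.wl_eq (hz y ((Br_ball_iff y).1 hy).1).le (hmem y hy).2
    show wl Λ u p e s (χ.σ (slc p e c' ρ z₀ r y)) - Pool.Agent.H62.EL.mo z₀ r 1 0 y ∈ Γ₀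
    rw [h1]
    unfold Pool.Agent.H62.EL.mo
    rw [pow_one, pow_zero, mul_one, sub_self]
    exact Γ₀.zero_mem
  · intro y hy
    exact ⟨hz y ((Br_ball_iff y).1 hy).1, hsl y hy, rfl⟩
  · intro x hx hU hw hms
    have h1 : tl (χ.q x) - tl q₀ = 0 := by
      have h2 : (ρ : ℂ) • (tl (χ.q x) - tl q₀) = 0 := by
        rw [smul_sub, htl0]
        have h3 : (ρ : ℂ) • tl (χ.q x) = p + z₀ • e - c' := by
          rw [← hms]
          unfold ms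
          abel
        rw [h3, sub_self]
      exact (smul_eq_zero.1 h2).resolve_left hρ0
    have h2 : g x = 0 := by
      refine hgval x 0 ?_
      rw [mul_zero, add_zero]
      exact hms
    refine ⟨⟨hU, ?_, ?_⟩, ?_⟩
    · rw [h1, norm_zero]
      positivity
    · rw [h2, norm_zero]
      norm_num
    · show (g x, χ.q x 0) = (0, χ.q x 0)
      rw [h2]

/-- the first column is zero except in the row `1` -/
theorem Br_det {a b : ℂ} {v : Vd (k + 1)} {w : Fin k → Vd (k + 1)} :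
    (Matrix.of fun i j => (Fin.cons (Fin.cons (α := fun _ => ℂ) 0 ((a * b) • v)) (Fin.cons (Pi.single 0 1)
      fun l => Fin.cons (α := fun _ => ℂ) 0 (b • w l)) : Fin (k + 2) → Vd (k + 2)) i j).det =
      -(a * b ^ (k + 1)) * (Matrix.of fun i j => (Fin.cons v w : Fin (k + 1) → Vd (k + 1)) i j).det := by
  rw [Matrix.det_succ_column_zero]
  rw [Fin.sum_univ_succ, Fin.sum_univ_succ]
  have h0 : ∀ x : Fin k, (Matrix.of fun i j => (Fin.cons (Fin.cons (α := fun _ => ℂ) 0 ((a * b) • v)) (Fin.cons (Pi.single 0 1)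
      fun l => Fin.cons (α := fun _ => ℂ) 0 (b • w l)) : Fin (k + 2) → Vd (k + 2)) i j) x.succ.succ 0 = 0 := fun x => rfl
  have h1 : (Matrix.of fun i j => (Fin.cons (Fin.cons (α := fun _ => ℂ) 0 ((a * b) • v)) (Fin.cons (Pi.single 0 1)
      fun l => Fin.cons (α := fun _ => ℂ) 0 (b • w l)) : Fin (k + 2) → Vd (k + 2)) i j) 0 0 = 0 := rfl
  have h2 : (Matrix.of fun i j => (Fin.cons (Fin.cons (α := fun _ => ℂ) 0 ((a * b) • v)) (Fin.cons (Pi.single 0 1)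
      fun l => Fin.cons (α := fun _ => ℂ) 0 (b • w l)) : Fin (k + 2) → Vd (k + 2)) i j) (Fin.succ 0) 0 = 1 := by
    show (Pi.single 0 1 : Vd (k + 2)) 0 = 1
    exact Pi.single_eq_same _ _
  rw [h1, h2, Finset.sum_eq_zero (fun x _ => by rw [h0 x]; ring)]
  have h3 : (Matrix.of fun i j => (Fin.cons (Fin.cons (α := fun _ => ℂ) 0 ((a * b) • v)) (Fin.cons (Pi.single 0 1)
      fun l => Fin.cons (α := fun _ => ℂ) 0 (b • w l)) : Fin (k + 2) → Vd (k + 2)) i j).submatrix (Fin.succ 0).succAbove Fin.succ =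
      Matrix.of fun i j => (Fin.cons (a * b) fun _ => b : Fin (k + 1) → ℂ) i * (Matrix.of fun i j => (Fin.cons v w : Fin (k + 1) → Vd (k + 1)) i j) i j := by
    funext i j
    refine Fin.cases ?_ (fun l => ?_) i
    · rfl
    · rfl
  rw [h3, Matrix.det_mul_column, Fin.prod_univ_succ]
  simp only [Fin.cons_zero, Fin.cons_succ, Finset.prod_const, Finset.card_univ, Fintype.card_fin]
  simp only [Fin.val_zero, Fin.succ_zero_eq_one, Fin.val_one]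
  ring

theorem Br_dt_an (L : Ln X Λ u D κ p e c Γ₀ s) {z : ℂ} (hz : ‖z‖ ≤ s) : AnalyticAt ℂ (dt κ e c) z := by
  have hz' : z ∈ closedBall (0 : ℂ) s := by
    rw [mem_closedBall_zero_iff]
    exact hz
  have hc := L.c_an z hz'
  have hκ := L.κ_an z hz'
  have hf : ∀ j : Fin k, AnalyticAt ℂ (fun z => fr κ c z j) z := by
    intro j
    have h1 : AnalyticAt ℂ (fun z => fderiv ℂ κ (c z)) z := hκ.fderiv.fun_comp hc
    exact ((ContinuousLinearMap.apply ℂ (Vd (k + 1)) (Pi.single j.succ 1 : Vd (k + 1))).analyticAt _).fun_comp h1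
  have hrow : ∀ i j : Fin (k + 1), AnalyticAt ℂ (fun z => (Fin.cons e (fr κ c z) : Fin (k + 1) → Vd (k + 1)) i j) z := by
    intro i j
    refine Fin.cases ?_ (fun l => ?_) i
    · exact analyticAt_const
    · exact ((ContinuousLinearMap.proj (R := ℂ) (φ := fun _ : Fin (k + 1) => ℂ) j).analyticAt _).fun_comp (hf l)
  have h2 : dt κ e c = fun z => ∑ σ : Equiv.Perm (Fin (k + 1)), (Equiv.Perm.sign σ : ℂ) *
      ∏ i, (Fin.cons e (fr κ c z) : Fin (k + 1) → Vd (k + 1)) (σ i) i := by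
    funext z
    unfold dt
    rw [Matrix.det_apply']
    rfl
  rw [h2]
  refine Finset.analyticAt_fun_sum _ fun σ _ => analyticAt_const.mul ?_
  exact Finset.analyticAt_fun_prod _ fun i _ => hrow _ _

end Pool.Agent.TG

end
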