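import Pool.Agent.H94.G4T.M21
import Pool.Agent.H94.G4T.M42

/-! The parts of this file: G4.A.GeoC, TG.Cross. -/

section

/-!
# G4 A GeoC: the constants of the geometry of the lines of one direction

`circ`: for `y₀` only finitely many hits in a disc, so there is a radius `r < η` such that no hit is on the circle; distance `> 0` from `D`; it works for all `y` near `y₀`; compactness modulo `Λ`.
`circC`: the same with `η = 2 ρ`.  `LC.thick`: from `circC` and `‖a‖ = 1` (move `z` radially to the circle).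
-/

set_option autoImplicit false

open Topology Filter Metric

namespace Pool.Agent.G4.A

open Pool.Agent.H36.BP (EN fs wd)
open Pool.Agent.H14.PP (IsCone CurveAt Tan)
open Pool.Agent.H62.EF (MN pr)
open Pool.Agent.AD (Vd Chart Charts IsGerm)
open Pool.Agent.TG
open Pool.Agent.G3
open Pool.Agent.G3.A
open Pool.Agent.G3.C (Gc)

variable {N k : ℕ} {X : Set (EN N)} {Λ : AddSubgroup (Vd (k + 1))} {u : EN N → Vd (k + 1)} {D B Bad : Set (Vd (k + 1))} {a : Vd (k + 1)}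

private theorem GeoC_smul (ha : ‖a‖ = 1) (z : ℂ) : ‖z • a‖ = ‖z‖ := by rw [norm_smul, ha, mul_one]

/-- the hits of a line are isolated -/
private theorem GeoC_iso (hi : ∀ y : Vd (k + 1), ∀ᶠ z in 𝓝[≠] (0 : ℂ), y + z • a ∉ D) (y : Vd (k + 1)) (z₀ : ℂ) :
    ∃ ε : ℝ, 0 < ε ∧ ∀ z : ℂ, z ≠ z₀ → ‖z - z₀‖ < ε → y + z • a ∉ D := by
  have h1 := hi (y + z₀ • a)
  rw [eventually_nhdsWithin_iff, Metric.eventually_nhds_iff] at h1
  obtain ⟨ε, hε, h2⟩ := h1
  refine ⟨ε, hε, fun z hz hlt => ?_⟩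
  have h3 := h2 (y := z - z₀) (by rw [dist_zero_right]; exact hlt) (by
    simp only [Set.mem_compl_iff, Set.mem_singleton_iff]
    exact sub_ne_zero.2 hz)
  have e : y + z₀ • a + (z - z₀) • a = y + z • a := by rw [sub_smul]; abel
  rwa [e] at h3

private theorem GeoC_countable (hi : ∀ y : Vd (k + 1), ∀ᶠ z in 𝓝[≠] (0 : ℂ), y + z • a ∉ D) (y : Vd (k + 1)) : {z : ℂ | y + z • a ∈ D}.Countable := by
  set S : Set ℂ := {z : ℂ | y + z • a ∈ D} with hS
  have hd : DiscreteTopology S := by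
    rw [discreteTopology_subtype_iff]
    intro z hz
    obtain ⟨ε, hε, h⟩ := GeoC_iso hi y z
    rw [← disjoint_iff, Filter.disjoint_principal_right, mem_nhdsWithin]
    refine ⟨ball z ε, isOpen_ball, mem_ball_self hε, ?_⟩
    rintro w ⟨hw1, hw2⟩ hwS
    exact h w hw2 (by rw [← dist_eq_norm]; exact hw1) hwS
  have : Countable S := by
    have := hd
    exact countable_of_Lindelof_of_discrete
  exact this

/-- a compact set of parameters without hits -/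
private theorem GeoC_dist (hD : IsClosed D) {K : Set ℂ} (hK : IsCompact K) (y : Vd (k + 1)) (h : ∀ z ∈ K, y + z • a ∉ D) :
    ∃ d : ℝ, 0 < d ∧ ∀ z ∈ K, y + z • a ∈ Gd D d := by
  have hc : IsCompact ((fun z : ℂ => y + z • a) '' K) := hK.image (by fun_prop)
  have hdis : Disjoint ((fun z : ℂ => y + z • a) '' K) D := by
    rw [Set.disjoint_left]
    rintro _ ⟨z, hz, rfl⟩
    exact h z hz
  obtain ⟨d, hd, hd2⟩ := hdis.exists_thickenings hc hD
  refine ⟨d, hd, fun z hz b hb => ?_⟩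
  by_contra hlt
  push Not at hlt
  refine (Set.disjoint_left.1 hd2) (a := b) ?_ ?_
  · rw [mem_thickening_iff]
    exact ⟨y + z • a, ⟨z, hz, rfl⟩, by rw [dist_comm, dist_eq_norm]; exact hlt⟩
  · rw [mem_thickening_iff]
    exact ⟨b, hb, by rw [dist_self]; exact hd⟩

/-- a circle without hits, of radius in a given interval -/
private theorem GeoC_circle (hD : IsClosed D) (hi : ∀ y : Vd (k + 1), ∀ᶠ z in 𝓝[≠] (0 : ℂ), y + z • a ∉ D) (y : Vd (k + 1)) {r₁ r₂ : ℝ} (h12 : r₁ < r₂) :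
    ∃ r : ℝ, r₁ < r ∧ r < r₂ ∧ ∃ d : ℝ, 0 < d ∧ ∀ z : ℂ, ‖z‖ = r → y + z • a ∈ Gd D d := by
  have h1 : ((fun z : ℂ => ‖z‖) '' {z : ℂ | y + z • a ∈ D}).Countable := (GeoC_countable hi y).image _
  have h2 : ¬ (Set.Ioo r₁ r₂).Countable := by
    intro h
    have h3 : Set.Ioo r₁ r₂ = ∅ ∨ r₂ ≤ r₁ := by
      by_contra hcon
      push Not at hcon
      have := Cardinal.mk_Ioo_real hcon.2
      have h4 := Cardinal.le_aleph0_iff_set_countable.2 h
      rw [this] at h4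
      exact absurd h4 (not_le.2 Cardinal.aleph0_lt_continuum)
    rcases h3 with h3 | h3
    · exact (Set.nonempty_Ioo.2 h12).ne_empty h3
    · linarith
  have h3 : ∃ r ∈ Set.Ioo r₁ r₂, r ∉ (fun z : ℂ => ‖z‖) '' {z : ℂ | y + z • a ∈ D} := by
    by_contra hcon
    push Not at hcon
    exact h2 (h1.mono fun r hr => hcon r hr)
  obtain ⟨r, hr, hr2⟩ := h3
  have hK : IsCompact (sphere (0 : ℂ) r) := isCompact_sphere 0 r
  obtain ⟨d, hd, hd2⟩ := GeoC_dist (a := a) hD hK y (fun z hz hzD => hr2 ⟨z, hzD, by rwa [mem_sphere_zero_iff_norm] at hz⟩)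
  exact ⟨r, hr.1, hr.2, d, hd, fun z hz => hd2 z (by rwa [mem_sphere_zero_iff_norm])⟩

private theorem GeoC_gd_add (h : LG Λ D Bad a) (δ : ℝ) {y l : Vd (k + 1)} (hl : l ∈ Λ) (hy : y ∈ Gd D δ) : y + l ∈ Gd D δ := by
  intro b hb
  have h1 := hy _ (h.D_inv b hb (-l) (Λ.neg_mem hl))
  have h2 : y - (b + -l) = y + l - b := by abel
  rwa [h2] at h1

/-- compactness modulo the lattice -/
private theorem GeoC_cpt (h : LG Λ D Bad a) (Q : Vd (k + 1) → ℝ → Prop) (hm : ∀ y d d', Q y d → 0 < d' → d' ≤ d → Q y d')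
    (hinv : ∀ y d, ∀ l ∈ Λ, Q (y - l) d → Q y d) (hloc : ∀ y₀, ∃ d : ℝ, 0 < d ∧ ∀ᶠ y in 𝓝 y₀, Q y d) : ∃ d : ℝ, 0 < d ∧ ∀ y, Q y d := by
  obtain ⟨R, hR, hcov⟩ := h.lat.cpt
  have h1 : ∃ d : ℝ, 0 < d ∧ ∀ y ∈ closedBall (0 : Vd (k + 1)) R, Q y d := by
    refine (isCompact_closedBall (0 : Vd (k + 1)) R).induction_on (p := fun S : Set (Vd (k + 1)) => ∃ d : ℝ, 0 < d ∧ ∀ y ∈ S, Q y d) ?_ ?_ ?_ ?_
    · exact ⟨1, one_pos, fun y hy => absurd hy (Set.notMem_empty y)⟩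
    · rintro S T hST ⟨d, hd, hQ⟩
      exact ⟨d, hd, fun y hy => hQ y (hST hy)⟩
    · rintro S T ⟨d, hd, hQ⟩ ⟨d', hd', hQ'⟩
      refine ⟨min d d', lt_min hd hd', fun y hy => ?_⟩
      rcases hy with hy | hy
      · exact hm _ _ _ (hQ y hy) (lt_min hd hd') (min_le_left _ _)
      · exact hm _ _ _ (hQ' y hy) (lt_min hd hd') (min_le_right _ _)
    · intro y₀ _
      obtain ⟨d, hd, hQ⟩ := hloc y₀
      exact ⟨{y | Q y d}, mem_nhdsWithin_of_mem_nhds hQ, d, hd, fun y hy => hy⟩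
  obtain ⟨d, hd, hQ⟩ := h1
  refine ⟨d, hd, fun y => ?_⟩
  obtain ⟨l, hl, hlR⟩ := hcov y
  exact hinv y d l hl (hQ (y - l) (by rw [mem_closedBall, dist_zero_right]; exact hlR))

private theorem GeoC_near {δ r : ℝ} {y y₀ : Vd (k + 1)} {z : ℂ} (hy : y₀ + z • a ∈ Gd D δ) (h : ‖y - y₀‖ ≤ r) : y + z • a ∈ Gd D (δ - r) := by
  refine gd_near hy ?_
  have e : y + z • a - (y₀ + z • a) = y - y₀ := by abel
  rwa [e]

private theorem GeoC_circ (h : LG Λ D Bad a) {ρ : ℝ} (hρ : 0 < ρ) :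
    ∃ d : ℝ, 0 < d ∧ ∀ y : Vd (k + 1), ∃ r : ℝ, 0 < r ∧ r < ρ ∧ ∀ z : ℂ, ‖z‖ = r → y + z • a ∈ Gd D d := by
  refine GeoC_cpt h (fun y d => ∃ r : ℝ, 0 < r ∧ r < ρ ∧ ∀ z : ℂ, ‖z‖ = r → y + z • a ∈ Gd D d) ?_ ?_ ?_
  · rintro y d d' ⟨r, h1, h2, h3⟩ _ hle
    exact ⟨r, h1, h2, fun z hz => gd_mono hle (h3 z hz)⟩
  · rintro y d l hl ⟨r, h1, h2, h3⟩
    refine ⟨r, h1, h2, fun z hz => ?_⟩
    have h4 := GeoC_gd_add h d hl (h3 z hz)
    have e : y - l + z • a + l = y + z • a := by abel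
    rwa [e] at h4
  · intro y₀
    obtain ⟨r, h1, h2, d, hd, h3⟩ := GeoC_circle (a := a) h.D_closed h.iso y₀ (show (0 : ℝ) < ρ by linarith)
    refine ⟨d / 2, by linarith, ?_⟩
    filter_upwards [closedBall_mem_nhds y₀ (show 0 < d / 2 by linarith)] with y hy
    refine ⟨r, h1, h2, fun z hz => ?_⟩
    rw [mem_closedBall, dist_eq_norm] at hy
    have h4 := GeoC_near (h3 z hz) hy
    have e : d - d / 2 = d / 2 := by ring
    rwa [e] at h4

theorem exists_lc (h : LG Λ D Bad a) {ρ : ℝ} (hρ : 0 < ρ) (hρ8 : ρ ≤ 1 / 8) : ∃ δ₀ : ℝ, 0 < δ₀ ∧ ∀ δ : ℝ, 0 < δ → δ ≤ δ₀ → LC D Bad a ρ δ := by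
  obtain ⟨d, hd, hcirc⟩ := GeoC_circ h (show 0 < 2 * ρ by linarith)
  refine ⟨min (ρ / 8) (d / 4), lt_min (by linarith) (by linarith), fun δ hδ hδ₀ => ?_⟩
  have hδ1 : δ ≤ ρ / 8 := hδ₀.trans (min_le_left _ _)
  have hδ2 : δ ≤ d / 4 := hδ₀.trans (min_le_right _ _)
  exact
    { norm := h.norm
      D_closed := h.D_closed
      bad_sub := h.bad_sub
      ρ_pos := hρ
      ρ_le := hρ8
      δ_pos := hδ
      δ_le := by linarith
      iso := h.iso
      circ := fun η hη => GeoC_circ h hη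
      circC := fun y => by
        obtain ⟨r, h1, h2, h3⟩ := hcirc y
        exact ⟨r, h1, h2.le, fun z hz => gd_mono (by linarith) (h3 z hz)⟩
      few := h.few }

/-- thick circles in the core, for all base points near `y` -/
theorem LC.thick {ρ δ : ℝ} (h : LC D Bad a ρ δ) (y : Vd (k + 1)) : ∃ r : ℝ, 0 < r ∧ r ≤ 2 * ρ ∧
    ∀ y' : Vd (k + 1), ‖y' - y‖ ≤ δ → ∀ z : ℂ, |‖z‖ - r| ≤ δ → y' + z • a ∈ Co D Bad δ ρ := by
  obtain ⟨r, h1, h2, h3⟩ := h.circC y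
  refine ⟨r, h1, h2, fun y' hy' z hz => ?_⟩
  have h4 : ∃ z' : ℂ, ‖z'‖ = r ∧ ‖z - z'‖ ≤ δ := by
    by_cases hz0 : z = 0
    · refine ⟨(r : ℂ), ?_, ?_⟩
      · rw [Complex.norm_real, Real.norm_of_nonneg h1.le]
      · rw [hz0, norm_zero, zero_sub, abs_neg, abs_of_pos h1] at hz
        rw [hz0, zero_sub, norm_neg, Complex.norm_real, Real.norm_of_nonneg h1.le]
        exact hz
    · have hn : ‖z‖ ≠ 0 := norm_ne_zero_iff.2 hz0
      refine ⟨((r / ‖z‖ : ℝ) : ℂ) * z, ?_, ?_⟩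
      · rw [norm_mul, Complex.norm_real, Real.norm_of_nonneg (by positivity)]
        field_simp
      · have e : z - ((r / ‖z‖ : ℝ) : ℂ) * z = (((1 - r / ‖z‖ : ℝ)) : ℂ) * z := by
          push_cast
          ring
        rw [e, norm_mul, Complex.norm_real, Real.norm_eq_abs]
        have e2 : |1 - r / ‖z‖| * ‖z‖ = |‖z‖ - r| := by
          have h5 : ‖z‖ - r = (1 - r / ‖z‖) * ‖z‖ := by field_simp
          rw [h5, abs_mul, abs_of_nonneg (norm_nonneg z)]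
        rw [e2]
        exact hz
  obtain ⟨z', hz', hzz⟩ := h4
  have h5 := h3 z' hz'
  have h7 : ‖y' + z • a - (y + z' • a)‖ ≤ 2 * δ := by
    have e : y' + z • a - (y + z' • a) = (y' - y) + (z - z') • a := by rw [sub_smul]; abel
    rw [e]
    refine (norm_add_le _ _).trans ?_
    rw [GeoC_smul h.norm]
    linarith
  have h8 := gd_near h5 h7
  have e : 4 * δ - 2 * δ = 2 * δ := by ring
  rw [e] at h8
  exact h8

/-- subsets of the hits of a line are closed -/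
theorem hits_closed (hi : ∀ y : Vd (k + 1), ∀ᶠ z in 𝓝[≠] (0 : ℂ), y + z • a ∉ D) {S : Set (Vd (k + 1))} (hS : S ⊆ D) (y : Vd (k + 1)) : IsClosed {z : ℂ | y + z • a ∈ S} := by
  rw [← isOpen_compl_iff, isOpen_iff_mem_nhds]
  intro z hz
  obtain ⟨ε, hε, h⟩ := GeoC_iso hi y z
  filter_upwards [ball_mem_nhds z hε] with w hw hwS
  by_cases hwz : w = z
  · rw [hwz] at hwS
    exact hz hwS
  · exact h w hwz (by rw [← dist_eq_norm]; exact hw) (hS hwS)

/-- the hits of a line are countable -/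
theorem LC.countable {ρ δ : ℝ} (h : LC D Bad a ρ δ) (y : Vd (k + 1)) : {z : ℂ | y + z • a ∈ D}.Countable :=
  GeoC_countable h.iso y

end Pool.Agent.G4.A

end

section

/-!
# TG Cross: crossing `D`

`κ, c, Γ₀, s` from `exists_ln`; `T, s', η` from `Pool.Agent.TGY.exists_tube` for `Y = Yl X Λ u p e s`, `w = wl`, `b = 0` (`Ln.isCone`, `Ln.torusMap`, `L.lat₀`, `Ln.isNC`).  `s₀ = min s s'`.  Let `r₁ < r₂ < s₀`, `r` from `Ln.ycap`, `ε₁ = r / 3`.
For `f ∈ Sec`: `sec_line` with `y = p`, `R = s` (all points `p + z • e`, `0 < ‖z‖ ≤ s`, are off `D`) gives `F` on `ball 0 t` with `r₂ < t < s₀`: `Pool.Agent.TGY.SecOn Y Γ₀ wl 0 t F` (`wl (F z) = z` by `Ln.wl_eq`), `pr (F z) = f (p + z • e)` for `z ≠ 0`.  Same for `g`: `G`.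
`crossing_on` (`TG/Y/Cr`) for the form `L.form α`: `hcap` from `Ln.ycap` (`wl (F z₀) = z₀`; `EL.Cap` is monotone in `r`: `3 ε ≤ r`), `hrel` from `Ln.irel_bridge`.  It gives `J'` holomorphic on `ball 0 r₂` with `J' z = EL.II (L.form α) ε z (pr (F z)) (pr (G z))` on the annulus; the latter is
`- dt κ e c z * II α ε (p + z • e) (f ..) (g ..)`: `II` satisfies `IRel` (`Exists.choose_spec`), `irel_bridge`, and `EL.II_eq`, `EL.IRel.eq_cap` (uniqueness, chart from `ycap`, `EL.exists_prim`).  `J z = - J' z / dt κ e c z` (`L.dt_ne`; `dt κ e c` is differentiable on `ball 0 s`: `L.κ_an`, `L.c_an`).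
-/

set_option autoImplicit false

open Topology Filter Metric

namespace Pool.Agent.TG

open Pool.Agent.H36.BP (EN fs wd)
open Pool.Agent.H14.PP (IsCone CurveAt Tan)
open Pool.Agent.H62.EF (MN pr)
open Pool.Agent.AD (Vd Chart Charts IsGerm)

variable {N k : ℕ}

variable {X : Set (EN N)} {Λ : AddSubgroup (Vd (k + 1))} {u : EN N → Vd (k + 1)} {D B : Set (Vd (k + 1))}
  {κ : Vd (k + 1) → Vd (k + 1)} {p e : Vd (k + 1)} {c : ℂ → Vd (k + 1)} {Γ₀ : AddSubgroup ℂ} {s : ℝ}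

/-- the lift of a section over the line is a section of the slab -/
theorem cross_lift (L : Ln X Λ u D κ p e c Γ₀ s) (hD : IsClosed D) {f : Vd (k + 1) → MN N} (hf : f ∈ Sec X Λ u D) {R t : ℝ} (hR : R ≤ s) (ht : t < R) :
    ∃ F : ℂ → EN N, Pool.Agent.TGY.SecOn (Yl X Λ u p e s) Γ₀ (wl Λ u p e s) 0 t F ∧ (∀ z : ℂ, ‖z‖ < t → wl Λ u p e s (F z) = z) ∧
      ∀ z : ℂ, z ≠ 0 → ‖z‖ < t → pr (F z) = f (p + z • e) := by
  have hiso : ∀ z ∈ ball (0 : ℂ) R, ∀ᶠ w in 𝓝[≠] z, p + w • e ∉ D := by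
    intro z hz
    have hzR : ‖z‖ < R := mem_ball_zero_iff.1 hz
    have h1 : ∀ᶠ w in 𝓝 z, ‖w‖ < R := continuous_norm.continuousAt.eventually (gt_mem_nhds hzR)
    by_cases h0 : z = 0
    · subst h0
      filter_upwards [nhdsWithin_le_nhds h1, self_mem_nhdsWithin] with w hw hne
      exact L.off w hne (hw.le.trans hR)
    · have h2 : ∀ᶠ w in 𝓝 z, w ≠ 0 := eventually_ne_nhds h0
      filter_upwards [nhdsWithin_le_nhds h1, nhdsWithin_le_nhds h2] with w hw hne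
      exact L.off w hne (hw.le.trans hR)
  obtain ⟨F, h1, h2, h3⟩ := sec_line L.cone L.tor hD hf (y := p) (e := e) hiso ht
  have hle : ∀ z : ℂ, ‖z‖ < t → ‖z‖ ≤ s := fun z hz => hz.le.trans (ht.le.trans hR)
  refine ⟨F, ⟨h1, fun z hz => ?_, fun z hz => ?_⟩, fun z hz => ?_, fun z h0 hz => ?_⟩
  · have hz' := mem_ball_zero_iff.1 hz
    exact ⟨(h2 z hz).1, z, hle z hz', (h2 z hz).2⟩
  · have hz' := mem_ball_zero_iff.1 hz
    rw [L.wl_eq (hle z hz') (h2 z hz).2, sub_self]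
    exact Γ₀.zero_mem
  · exact L.wl_eq (hle z hz) (h2 z (mem_ball_zero_iff.2 hz)).2
  · exact h3 z (mem_ball_zero_iff.2 hz) (L.off z h0 (hle z hz))

end Pool.Agent.TG

end
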