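import Pool.Agent.H94.G4T.H36.BP.WdA_1
import Pool.Agent.H94.G4T.M18
import Pool.Agent.H94.G4T.M30

/-! The parts of this file: H62.EF.Comp, TG.Y.LnE. -/

section

/-!
# EF Comp: comparison of the distance with a determinant

Suppose the claim is false for `η > 0`: there are `p n ∈ P₀`, `q n ∈ W`, `q n ≠ p n`, `‖q n - p n‖ → 0`, `υ (q n) = υ (p n)`, and `ξ n`, `‖ξ n‖ ≤ L`,
`dυ_{p n} (ξ n) = 1` such that one of the two inequalities fails.  Let `t n = ‖q n - p n‖`, `e n = (q n - p n) / t n` (a unit vector).  Along an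
ultrafilter (`hyperfilter ℕ`): `p n → p ∈ P₀`, `q n → p`, `e n → e`, `‖e‖ = 1`, `ξ n → ξ`, `dυ_p ξ = 1` (`fderiv ℂ υ` is continuous at `p`, `υ` is
analytic near `p`).  By strict differentiability (`AnalyticAt.hasStrictFDerivAt`) `(σ (q n) - σ (p n)) / t n → dσ_p e` and
`0 = (υ (q n) - υ (p n)) / t n → dυ_p e`.
Write `a = grd υ p = (-∂₂υ, ∂₁υ)`; `dυ_p a = 0`, `dυ_p ≠ 0`, so `e = λ a` with `λ ≠ 0` (both are in the kernel of `dυ_p`, of dimension `1`, `e ≠ 0`, `a ≠ 0`).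
* `A n = ‖det2 (q n - p n) (ξ n)‖ / t n → ‖det2 e ξ‖ = ‖λ‖ ‖det2 a ξ‖ = ‖λ‖ ‖dυ_p ξ‖ = ‖λ‖`.
* `B n = (wd (σ (p n)) (σ (q n)) / (‖σ (p n)‖ ‖σ (q n)‖)) ‖σ (p n)‖² / wd (σ (p n)) (dσ_{p n} (grd υ (p n))) / t n`.  As `wd x y = wd x (y - x)` and
  `wd x (s y) = s wd x y` for real `s > 0` (`wd_sq` or the formulas of `H36/BP/WdA.lean`), and `wd` is continuous,
  `B n → wd (σ p) (dσ_p e) / wd (σ p) (dσ_p a) = ‖λ‖`.
So `B n / A n → 1`, and both inequalities hold for almost all `n`: contradiction.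
-/

set_option autoImplicit false

open Topology Filter Metric

namespace Pool.Agent.H62.EF

open Pool.Agent.H36.BP (EN fs wd)

variable {N : ℕ}

/-- the divided difference along an ultrafilter -/
private theorem Comp_div {V : Type*} [NormedAddCommGroup V] [NormedSpace ℂ V] {G : ℂ × ℂ → V} {G' : ℂ × ℂ →L[ℂ] V} {P E : ℂ × ℂ}
    (hG : HasStrictFDerivAt G G' P) {l : Filter ℕ} {p q : ℕ → ℂ × ℂ} (hp : Tendsto p l (𝓝 P)) (hq : Tendsto q l (𝓝 P))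
    (hE : Tendsto (fun n => (((‖q n - p n‖ : ℝ) : ℂ)⁻¹) • (q n - p n)) l (𝓝 E)) :
    Tendsto (fun n => (((‖q n - p n‖ : ℝ) : ℂ)⁻¹) • (G (q n) - G (p n))) l (𝓝 (G' E)) := by
  have h1 : (fun x : (ℂ × ℂ) × (ℂ × ℂ) => G x.1 - G x.2 - G' (x.1 - x.2)) =o[𝓝 (P, P)] fun x => x.1 - x.2 := hG.isLittleO
  have h2 : Tendsto (fun n => (q n, p n)) l (𝓝 (P, P)) := hq.prodMk_nhds hp
  have h3 : (fun n => G (q n) - G (p n) - G' (q n - p n)) =o[l] fun n => q n - p n := h1.comp_tendsto h2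
  have h4 : (fun n => G (q n) - G (p n) - G' (q n - p n)) =o[l] fun n => ((‖q n - p n‖ : ℝ) : ℂ) := by
    refine h3.trans_isBigO ?_
    refine Asymptotics.IsBigO.of_bound 1 (Eventually.of_forall fun n => ?_)
    rw [Complex.norm_real, norm_norm, one_mul]
  have h5 := h4.tendsto_inv_smul_nhds_zero
  have h6 : Tendsto (fun n => G' ((((‖q n - p n‖ : ℝ) : ℂ)⁻¹) • (q n - p n))) l (𝓝 (G' E)) :=
    (G'.continuous.tendsto E).comp hE
  have h7 := h5.add h6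
  rw [zero_add] at h7
  refine h7.congr fun n => ?_
  rw [map_smul, ← smul_add]
  congr 1
  abel

private theorem Comp_wd_sub (x y : EN N) : wd x y = wd x (y - x) := by
  have h := Pool.Agent.H36.BP.wd_inv x y 1 (-1)
  rw [one_smul, one_smul, norm_one, neg_one_smul, ← sub_eq_add_neg] at h
  rw [h]
  ring

private theorem Comp_grd {υ : ℂ × ℂ → ℂ} {P : ℂ × ℂ} (h : fderiv ℂ υ P ≠ 0) : grd υ P ≠ 0 := by
  intro h0
  apply h
  have h1 : fderiv ℂ υ P (0, 1) = 0 := by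
    have := congrArg Prod.fst h0
    simpa [grd] using this
  have h2 : fderiv ℂ υ P (1, 0) = 0 := by
    have := congrArg Prod.snd h0
    simpa [grd] using this
  ext
  · simpa using h2
  · simpa using h1

private theorem Comp_apply (L : ℂ × ℂ →L[ℂ] ℂ) (v : ℂ × ℂ) : L v = v.1 * L (1, 0) + v.2 * L (0, 1) := by
  have h : v = v.1 • ((1 : ℂ), (0 : ℂ)) + v.2 • ((0 : ℂ), (1 : ℂ)) := by
    ext <;> simp
  conv_lhs => rw [h]
  rw [map_add, map_smul, map_smul, smul_eq_mul, smul_eq_mul]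

private theorem Comp_ker {υ : ℂ × ℂ → ℂ} {P E : ℂ × ℂ} (h : fderiv ℂ υ P ≠ 0) (hE : fderiv ℂ υ P E = 0) : ∃ c : ℂ, E = c • grd υ P := by
  have h0 := Comp_grd h
  rw [Comp_apply] at hE
  by_cases h1 : fderiv ℂ υ P (1, 0) = 0
  · have h2 : fderiv ℂ υ P (0, 1) ≠ 0 := by
      intro h2
      apply h0
      rw [grd, h1, h2]
      simp
    refine ⟨-(E.1 / fderiv ℂ υ P (0, 1)), ?_⟩
    rw [h1] at hE
    have h3 : E.2 = 0 := by
      have h4 : E.2 * fderiv ℂ υ P (0, 1) = 0 := by linear_combination hE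
      exact (mul_eq_zero.mp h4).resolve_right h2
    ext
    · simp only [grd, Prod.smul_fst, smul_eq_mul]
      field_simp
    · simp only [grd, Prod.smul_snd, smul_eq_mul, h1, h3]
      ring
  · refine ⟨E.2 / fderiv ℂ υ P (1, 0), ?_⟩
    ext
    · simp only [grd, Prod.smul_fst, smul_eq_mul]
      field_simp
      linear_combination hE
    · simp only [grd, Prod.smul_snd, smul_eq_mul]
      field_simp

private theorem Comp_det (υ : ℂ × ℂ → ℂ) (P : ℂ × ℂ) (c : ℂ) (ξ : ℂ × ℂ) : det2 (c • grd υ P) ξ = -(c * fderiv ℂ υ P ξ) := by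
  rw [Comp_apply (fderiv ℂ υ P) ξ]
  simp only [det2, grd, Prod.smul_fst, Prod.smul_snd, smul_eq_mul]
  ring

private theorem Comp_det_smul (s : ℂ) (a ξ : ℂ × ℂ) : det2 (s • a) ξ = s * det2 a ξ := by
  simp only [det2, Prod.smul_fst, Prod.smul_snd, smul_eq_mul]
  ring

private theorem Comp_clm {V : Type*} [NormedAddCommGroup V] [NormedSpace ℂ V] {l : Filter ℕ} {A : ℕ → ℂ × ℂ →L[ℂ] V} {A₀ : ℂ × ℂ →L[ℂ] V}
    {v : ℕ → ℂ × ℂ} {v₀ : ℂ × ℂ} (hA : Tendsto A l (𝓝 A₀)) (hv : Tendsto v l (𝓝 v₀)) : Tendsto (fun n => A n (v n)) l (𝓝 (A₀ v₀)) := by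
  have h1 : Continuous (fun x : (ℂ × ℂ →L[ℂ] V) × (ℂ × ℂ) => x.1 x.2) := isBoundedBilinearMap_apply.continuous
  exact (h1.tendsto (A₀, v₀)).comp (hA.prodMk_nhds hv)

private theorem Comp_detc {l : Filter ℕ} {a b : ℕ → ℂ × ℂ} {a₀ b₀ : ℂ × ℂ} (ha : Tendsto a l (𝓝 a₀)) (hb : Tendsto b l (𝓝 b₀)) :
    Tendsto (fun n => ‖det2 (a n) (b n)‖) l (𝓝 ‖det2 a₀ b₀‖) := by
  have h1 : Tendsto (fun n => (a n).1) l (𝓝 a₀.1) := (continuous_fst.tendsto a₀).comp ha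
  have h2 : Tendsto (fun n => (a n).2) l (𝓝 a₀.2) := (continuous_snd.tendsto a₀).comp ha
  have h3 : Tendsto (fun n => (b n).1) l (𝓝 b₀.1) := (continuous_fst.tendsto b₀).comp hb
  have h4 : Tendsto (fun n => (b n).2) l (𝓝 b₀.2) := (continuous_snd.tendsto b₀).comp hb
  unfold det2
  exact ((h1.mul h4).sub (h2.mul h3)).norm

private theorem Comp_wdc {l : Filter ℕ} {a b : ℕ → EN N} {a₀ b₀ : EN N} (ha : Tendsto a l (𝓝 a₀)) (hb : Tendsto b l (𝓝 b₀)) :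
    Tendsto (fun n => wd (a n) (b n)) l (𝓝 (wd a₀ b₀)) := by
  unfold wd
  exact (((ha.norm.pow 2).mul (hb.norm.pow 2)).sub ((ha.inner hb).norm.pow 2)).sqrt

/-- the two inequalities hold along an ultrafilter -/
private theorem Comp_key {W : Set (ℂ × ℂ)} {σ : ℂ × ℂ → EN N} {υ : ℂ × ℂ → ℂ}
    (hσ : ∀ p ∈ W, AnalyticAt ℂ σ p) (hυ : ∀ p ∈ W, AnalyticAt ℂ υ p) (hσ0 : ∀ p ∈ W, σ p ≠ 0)
    (himm : ∀ p ∈ W, ∀ e : ℂ × ℂ, e ≠ 0 → 0 < wd (σ p) (fderiv ℂ σ p e)) (hdυ : ∀ p ∈ W, fderiv ℂ υ p ≠ 0)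
    {η : ℝ} (hη : 0 < η) {l : Filter ℕ} [l.NeBot] {p q ξ : ℕ → ℂ × ℂ} {P E Ξ : ℂ × ℂ} (hPW : P ∈ W)
    (hp : Tendsto p l (𝓝 P)) (hq : Tendsto q l (𝓝 P)) (hE1 : ‖E‖ = 1) (hqp : ∀ n, q n ≠ p n) (hυqp : ∀ n, υ (q n) = υ (p n))
    (hE : Tendsto (fun n => (((‖q n - p n‖ : ℝ) : ℂ)⁻¹) • (q n - p n)) l (𝓝 E))
    (hξ : Tendsto ξ l (𝓝 Ξ)) (hξ1 : ∀ n, fderiv ℂ υ (p n) (ξ n) = 1) :
    ∀ᶠ n in l, Real.exp (-η) * ‖det2 (q n - p n) (ξ n)‖ ≤
        wd (σ (p n)) (σ (q n)) / (‖σ (p n)‖ * ‖σ (q n)‖) * ‖σ (p n)‖ ^ 2 / wd (σ (p n)) (fderiv ℂ σ (p n) (grd υ (p n))) ∧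
      wd (σ (p n)) (σ (q n)) / (‖σ (p n)‖ * ‖σ (q n)‖) * ‖σ (p n)‖ ^ 2 / wd (σ (p n)) (fderiv ℂ σ (p n) (grd υ (p n))) ≤
        Real.exp η * ‖det2 (q n - p n) (ξ n)‖ := by
  set t : ℕ → ℝ := fun n => ‖q n - p n‖ with ht
  have htpos : ∀ n, 0 < t n := fun n => norm_pos_iff.mpr (sub_ne_zero.mpr (hqp n))
  -- derivatives
  have hdσl : Tendsto (fun n => fderiv ℂ σ (p n)) l (𝓝 (fderiv ℂ σ P)) := (hσ P hPW).fderiv.continuousAt.tendsto.comp hp
  have hdυl : Tendsto (fun n => fderiv ℂ υ (p n)) l (𝓝 (fderiv ℂ υ P)) := (hυ P hPW).fderiv.continuousAt.tendsto.comp hp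
  have hσp : Tendsto (fun n => σ (p n)) l (𝓝 (σ P)) := (hσ P hPW).continuousAt.tendsto.comp hp
  have hσq : Tendsto (fun n => σ (q n)) l (𝓝 (σ P)) := (hσ P hPW).continuousAt.tendsto.comp hq
  have hυ1 : fderiv ℂ υ P Ξ = 1 := by
    have h1 : Tendsto (fun n => fderiv ℂ υ (p n) (ξ n)) l (𝓝 (fderiv ℂ υ P Ξ)) := Comp_clm hdυl hξ
    have h2 : Tendsto (fun n => fderiv ℂ υ (p n) (ξ n)) l (𝓝 1) := by
      refine tendsto_const_nhds.congr fun n => ?_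
      rw [hξ1 n]
    exact tendsto_nhds_unique h1 h2
  have hυE : fderiv ℂ υ P E = 0 := by
    have h1 := Comp_div ((hυ P hPW).hasStrictFDerivAt) hp hq hE
    have h2 : Tendsto (fun n => (((‖q n - p n‖ : ℝ) : ℂ)⁻¹) • (υ (q n) - υ (p n))) l (𝓝 0) := by
      refine tendsto_const_nhds.congr fun n => ?_
      rw [hυqp n, sub_self, smul_zero]
    exact tendsto_nhds_unique h1 h2
  obtain ⟨c, hc⟩ := Comp_ker (hdυ P hPW) hυE
  have hc0 : c ≠ 0 := by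
    rintro rfl
    rw [zero_smul] at hc
    rw [hc, norm_zero] at hE1
    exact zero_ne_one hE1
  have hcpos : 0 < ‖c‖ := norm_pos_iff.mpr hc0
  have hgr : grd υ P ≠ 0 := Comp_grd (hdυ P hPW)
  -- the first quantity
  have hA : Tendsto (fun n => (t n)⁻¹ * ‖det2 (q n - p n) (ξ n)‖) l (𝓝 ‖c‖) := by
    have h1 : Tendsto (fun n => ‖det2 ((((‖q n - p n‖ : ℝ) : ℂ)⁻¹) • (q n - p n)) (ξ n)‖) l (𝓝 ‖det2 E Ξ‖) := Comp_detc hE hξ
    rw [hc, Comp_det, hυ1, mul_one, norm_neg] at h1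
    refine h1.congr fun n => ?_
    rw [Comp_det_smul, norm_mul, norm_inv, Complex.norm_real, norm_norm]
  -- the second quantity
  set D : ℝ := wd (σ P) (fderiv ℂ σ P (grd υ P)) with hD
  have hDpos : 0 < D := himm P hPW _ hgr
  have hgl : Tendsto (fun n => grd υ (p n)) l (𝓝 (grd υ P)) := by
    have h1 : Tendsto (fun n => fderiv ℂ υ (p n) (0, 1)) l (𝓝 (fderiv ℂ υ P (0, 1))) := Comp_clm hdυl tendsto_const_nhds
    have h2 : Tendsto (fun n => fderiv ℂ υ (p n) (1, 0)) l (𝓝 (fderiv ℂ υ P (1, 0))) := Comp_clm hdυl tendsto_const_nhds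
    exact h1.neg.prodMk_nhds h2
  have hDl : Tendsto (fun n => wd (σ (p n)) (fderiv ℂ σ (p n) (grd υ (p n)))) l (𝓝 D) := by
    have h1 : Tendsto (fun n => fderiv ℂ σ (p n) (grd υ (p n))) l (𝓝 (fderiv ℂ σ P (grd υ P))) := Comp_clm hdσl hgl
    exact Comp_wdc hσp h1
  have hwl : Tendsto (fun n => (t n)⁻¹ * wd (σ (p n)) (σ (q n))) l (𝓝 (‖c‖ * D)) := by
    have h1 := Comp_div ((hσ P hPW).hasStrictFDerivAt) hp hq hE
    have h2 := Comp_wdc hσp h1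
    have h3 : wd (σ P) (fderiv ℂ σ P E) = ‖c‖ * D := by
      rw [hc, map_smul, Pool.Agent.H36.BP.wd_smul_right]
    rw [h3] at h2
    refine h2.congr fun n => ?_
    rw [Pool.Agent.H36.BP.wd_smul_right, norm_inv, Complex.norm_real, norm_norm, ← Comp_wd_sub]
  have hσP : 0 < ‖σ P‖ := norm_pos_iff.mpr (hσ0 P hPW)
  have hB : Tendsto (fun n => (t n)⁻¹ * wd (σ (p n)) (σ (q n)) / (‖σ (p n)‖ * ‖σ (q n)‖) * ‖σ (p n)‖ ^ 2 /
      wd (σ (p n)) (fderiv ℂ σ (p n) (grd υ (p n)))) l (𝓝 ‖c‖) := by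
    have h1 := ((hwl.div (hσp.norm.mul hσq.norm) (mul_pos hσP hσP).ne').mul (hσp.norm.pow 2)).div hDl hDpos.ne'
    have h2 : ‖c‖ * D / (‖σ P‖ * ‖σ P‖) * ‖σ P‖ ^ 2 / D = ‖c‖ := by
      field_simp
    rw [h2] at h1
    exact h1
  have h1 : Real.exp (-η) * ‖c‖ < ‖c‖ := by
    have : Real.exp (-η) < 1 := by
      rw [Real.exp_lt_one_iff]
      linarith
    nlinarith
  have h2 : ‖c‖ < Real.exp η * ‖c‖ := by
    have : 1 < Real.exp η := Real.one_lt_exp_iff.mpr hη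
    nlinarith
  have h3 := (hA.const_mul (Real.exp (-η))).eventually_lt hB h1
  have h4 := hB.eventually_lt (hA.const_mul (Real.exp η)) h2
  filter_upwards [h3, h4] with n h5 h6
  have h7 := htpos n
  have h8 : wd (σ (p n)) (σ (q n)) / (‖σ (p n)‖ * ‖σ (q n)‖) * ‖σ (p n)‖ ^ 2 / wd (σ (p n)) (fderiv ℂ σ (p n) (grd υ (p n))) =
      t n * ((t n)⁻¹ * wd (σ (p n)) (σ (q n)) / (‖σ (p n)‖ * ‖σ (q n)‖) * ‖σ (p n)‖ ^ 2 /
        wd (σ (p n)) (fderiv ℂ σ (p n) (grd υ (p n)))) := by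
    have h9 : wd (σ (p n)) (σ (q n)) = t n * ((t n)⁻¹ * wd (σ (p n)) (σ (q n))) := by
      rw [← mul_assoc, mul_inv_cancel₀ h7.ne', one_mul]
    conv_lhs => rw [h9]
    ring
  have h10 : ‖det2 (q n - p n) (ξ n)‖ = t n * ((t n)⁻¹ * ‖det2 (q n - p n) (ξ n)‖) := by
    rw [← mul_assoc, mul_inv_cancel₀ h7.ne', one_mul]
  rw [h8]
  constructor
  · conv_lhs => rw [h10]
    have := mul_le_mul_of_nonneg_left h5.le h7.le
    linarith
  · conv_rhs => rw [h10]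
    have := mul_le_mul_of_nonneg_left h6.le h7.le
    linarith

theorem comp {P₀ W : Set (ℂ × ℂ)} (hP : IsCompact P₀) (hW : IsOpen W) (hPW : P₀ ⊆ W) {σ : ℂ × ℂ → EN N} {υ : ℂ × ℂ → ℂ}
    (hσ : ∀ p ∈ W, AnalyticAt ℂ σ p) (hυ : ∀ p ∈ W, AnalyticAt ℂ υ p) (hσ0 : ∀ p ∈ W, σ p ≠ 0)
    (himm : ∀ p ∈ W, ∀ e : ℂ × ℂ, e ≠ 0 → 0 < wd (σ p) (fderiv ℂ σ p e)) (hdυ : ∀ p ∈ W, fderiv ℂ υ p ≠ 0)
    (L : ℝ) {η : ℝ} (hη : 0 < η) :
    ∃ ε : ℝ, 0 < ε ∧ ∀ p ∈ P₀, ∀ q ∈ W, q ≠ p → ‖q - p‖ < ε → υ q = υ p → ∀ ξ : ℂ × ℂ, ‖ξ‖ ≤ L → fderiv ℂ υ p ξ = 1 →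
      Real.exp (-η) * ‖det2 (q - p) ξ‖ ≤
        wd (σ p) (σ q) / (‖σ p‖ * ‖σ q‖) * ‖σ p‖ ^ 2 / wd (σ p) (fderiv ℂ σ p (grd υ p)) ∧
      wd (σ p) (σ q) / (‖σ p‖ * ‖σ q‖) * ‖σ p‖ ^ 2 / wd (σ p) (fderiv ℂ σ p (grd υ p)) ≤
        Real.exp η * ‖det2 (q - p) ξ‖ := by
  by_contra hcon
  have hex : ∀ n : ℕ, ∃ p q ξ : ℂ × ℂ, p ∈ P₀ ∧ q ∈ W ∧ q ≠ p ∧ ‖q - p‖ < 1 / ((n : ℝ) + 1) ∧ υ q = υ p ∧ ‖ξ‖ ≤ L ∧
      fderiv ℂ υ p ξ = 1 ∧ ¬ (Real.exp (-η) * ‖det2 (q - p) ξ‖ ≤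
        wd (σ p) (σ q) / (‖σ p‖ * ‖σ q‖) * ‖σ p‖ ^ 2 / wd (σ p) (fderiv ℂ σ p (grd υ p)) ∧
      wd (σ p) (σ q) / (‖σ p‖ * ‖σ q‖) * ‖σ p‖ ^ 2 / wd (σ p) (fderiv ℂ σ p (grd υ p)) ≤
        Real.exp η * ‖det2 (q - p) ξ‖) := by
    intro n
    by_contra hn
    apply hcon
    refine ⟨1 / ((n : ℝ) + 1), by positivity, ?_⟩
    intro p hp q hq hqp hd hυq ξ hξ hξ1
    by_contra hno
    exact hn ⟨p, q, ξ, hp, hq, hqp, hd, hυq, hξ, hξ1, hno⟩
  choose p q ξ hp hq hqp hd hυqp hξL hξ1 hno using hex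
  set 𝒰 : Ultrafilter ℕ := hyperfilter ℕ with h𝒰
  have hUle : (𝒰 : Filter ℕ) ≤ atTop := Nat.hyperfilter_le_atTop
  obtain ⟨P, hP0, hPl⟩ := hP.ultrafilter_le_nhds (𝒰.map p) (by
    rw [le_principal_iff]
    exact Filter.mem_map.mpr (Filter.univ_mem' hp))
  obtain ⟨Ξ, -, hΞl⟩ := (isCompact_closedBall (0 : ℂ × ℂ) L).ultrafilter_le_nhds (𝒰.map ξ) (by
    rw [le_principal_iff]
    exact Filter.mem_map.mpr (Filter.univ_mem' fun n => by
      rw [Set.mem_preimage, mem_closedBall_zero_iff]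
      exact hξL n))
  obtain ⟨E, hE1, hEl⟩ := (isCompact_sphere (0 : ℂ × ℂ) 1).ultrafilter_le_nhds
    (𝒰.map fun n => (((‖q n - p n‖ : ℝ) : ℂ)⁻¹) • (q n - p n)) (by
      rw [le_principal_iff]
      exact Filter.mem_map.mpr (Filter.univ_mem' fun n => by
        have h1 : ‖q n - p n‖ ≠ 0 := norm_ne_zero_iff.mpr (sub_ne_zero.mpr (hqp n))
        rw [Set.mem_preimage, mem_sphere_zero_iff_norm, norm_smul, norm_inv, Complex.norm_real, norm_norm]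
        exact inv_mul_cancel₀ h1))
  have hp' : Tendsto p 𝒰 (𝓝 P) := hPl
  have hξ' : Tendsto ξ 𝒰 (𝓝 Ξ) := hΞl
  have hE' : Tendsto (fun n => (((‖q n - p n‖ : ℝ) : ℂ)⁻¹) • (q n - p n)) 𝒰 (𝓝 E) := hEl
  have ht : Tendsto (fun n => q n - p n) 𝒰 (𝓝 0) := by
    refine squeeze_zero_norm (a := fun n : ℕ => 1 / ((n : ℝ) + 1)) (fun n => (hd n).le) ?_
    exact tendsto_one_div_add_atTop_nhds_zero_nat.mono_left hUle
  have hq' : Tendsto q 𝒰 (𝓝 P) := by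
    have h1 := hp'.add ht
    rw [add_zero] at h1
    refine h1.congr fun n => ?_
    abel
  have hkey := Comp_key hσ hυ hσ0 himm hdυ hη (hPW hP0) hp' hq' (mem_sphere_zero_iff_norm.mp hE1) hqp hυqp hE' hξ' hξ1
  obtain ⟨n, hn⟩ := hkey.exists
  exact hno n hn

end Pool.Agent.H62.EF

end

section

/-!
# TG Y LnE: the data exist

`exists_lat₀`: `Γ₀ = {a + b i : a, b ∈ M ℤ}` (e.g. the additive subgroup of the `z` with `z.re / M`, `z.im / M` integers), `M > R`; a nonzero element has norm `≥ M`; covering radius `≤ M`.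

`exists_ln`: `κ` from `G.nc p` (`IsCoord D κ p`, all points of the fibre over `p` are `IsNC`), `κ'` a local inverse of `κ` at `p` (`Pool.Agent.H62.BU.local_inverse`), `c z = κ' (p + z • e)`, analytic near `0`, `c 0 = 0`, `κ (c z) = p + z • e` for `z` near `0`, so
`fderiv κ 0 (deriv c 0) = e`.  If `(deriv c 0) 0 = 0` this contradicts `TransAt` (for `IsCoord D κ p`): `c_ne`.  `dt κ e c 0 ≠ 0`: a relation `a e + Σ b_j fr_j = 0` at `z = 0` gives `fderiv κ 0 (a deriv c 0 + Σ b_j e_{j+1}) = 0`, so (`IsCoord.inj`) `a (deriv c 0) 0 = 0`, `a = 0`,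
`b_j = 0` (`Matrix.det_ne_zero` via linear independence of the rows, or `Matrix.exists_vecMul_eq_zero_iff`); `dt κ e c` is continuous at `0` (`fderiv` of an analytic function is analytic), so `dt ≠ 0` near `0`.  For `z ≠ 0` small `(c z) 0 ≠ 0` (`(c ·) 0` has a simple zero at `0`) and
`c z` is near `0`, so `κ (c z) ∉ D` (`IsCoord.mem_iff`): `off`.  Choose `s > 0` small for all this and `4 s ‖e‖ < δ_Λ` (`Lat.disc`), and `Γ₀` from `exists_lat₀` with `R = 8 s`.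
-/

set_option autoImplicit false

open Topology Filter Metric

namespace Pool.Agent.TG

open Pool.Agent.H36.BP (EN fs wd)
open Pool.Agent.H14.PP (IsCone CurveAt Tan)
open Pool.Agent.H62.EF (MN pr)
open Pool.Agent.AD (Vd Chart Charts IsGerm)

variable {N k : ℕ}

variable {X : Set (EN N)} {Λ : AddSubgroup (Vd (k + 1))} {u : EN N → Vd (k + 1)} {D B : Set (Vd (k + 1))}
  {κ : Vd (k + 1) → Vd (k + 1)} {p e : Vd (k + 1)} {c : ℂ → Vd (k + 1)} {Γ₀ : AddSubgroup ℂ} {s : ℝ}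

/-- the square lattice -/
private def sqLat (M : ℝ) : AddSubgroup ℂ where
  carrier := {z | ∃ a b : ℤ, z = (M : ℂ) * ((a : ℂ) + (b : ℂ) * Complex.I)}
  zero_mem' := ⟨0, 0, by simp⟩
  add_mem' := by
    rintro _ _ ⟨a, b, rfl⟩ ⟨a', b', rfl⟩
    exact ⟨a + a', b + b', by push_cast; ring⟩
  neg_mem' := by
    rintro _ ⟨a, b, rfl⟩
    exact ⟨-a, -b, by push_cast; ring⟩

private theorem sqLat_small {M : ℝ} (hM : 0 < M) {l : ℂ} (hl : l ∈ sqLat M) (h : ‖l‖ < M) : l = 0 := by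
  obtain ⟨a, b, rfl⟩ := hl
  rw [norm_mul, Complex.norm_real, Real.norm_of_nonneg hM.le] at h
  have h1 : ‖(a : ℂ) + (b : ℂ) * Complex.I‖ < 1 := by
    by_contra hcon
    push Not at hcon
    have : M * 1 ≤ M * ‖(a : ℂ) + (b : ℂ) * Complex.I‖ := mul_le_mul_of_nonneg_left hcon hM.le
    linarith
  have hre : ((a : ℂ) + (b : ℂ) * Complex.I).re = (a : ℝ) := by simp
  have him : ((a : ℂ) + (b : ℂ) * Complex.I).im = (b : ℝ) := by simp
  have h2 : |(a : ℝ)| < 1 := by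
    rw [← hre]
    exact (Complex.abs_re_le_norm _).trans_lt h1
  have h3 : |(b : ℝ)| < 1 := by
    rw [← him]
    exact (Complex.abs_im_le_norm _).trans_lt h1
  have h4 : a = 0 := by
    have h5 : |a| < 1 := by exact_mod_cast h2
    exact Int.abs_lt_one_iff.1 h5
  have h5 : b = 0 := by
    have h5 : |b| < 1 := by exact_mod_cast h3
    exact Int.abs_lt_one_iff.1 h5
  rw [h4, h5]
  simp

theorem exists_lat₀ (R : ℝ) : ∃ Γ₀ : AddSubgroup ℂ, Pool.Agent.H62.EF.Lat Γ₀ ∧ ∀ l ∈ Γ₀, ‖l‖ ≤ R → l = 0 := by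
  set M : ℝ := |R| + 1 with hMdef
  have hM : 0 < M := by positivity
  refine ⟨sqLat M, ⟨⟨M, hM, fun l hl h => sqLat_small hM hl h⟩, ⟨M * 2, by positivity, fun z => ?_⟩⟩, fun l hl h => sqLat_small hM hl ?_⟩
  · refine ⟨(M : ℂ) * (((round (z.re / M) : ℤ) : ℂ) + ((round (z.im / M) : ℤ) : ℂ) * Complex.I), ⟨_, _, rfl⟩, ?_⟩
    have hMC : (M : ℂ) ≠ 0 := by exact_mod_cast hM.ne'
    have h1 : z - (M : ℂ) * (((round (z.re / M) : ℤ) : ℂ) + ((round (z.im / M) : ℤ) : ℂ) * Complex.I) =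
        (M : ℂ) * (((z.re / M - round (z.re / M) : ℝ) : ℂ) + ((z.im / M - round (z.im / M) : ℝ) : ℂ) * Complex.I) := by
      generalize round (z.re / M) = a
      generalize round (z.im / M) = b
      push_cast
      field_simp
      conv_lhs => rw [← Complex.re_add_im z]
      ring
    rw [h1, norm_mul, Complex.norm_real, Real.norm_of_nonneg hM.le]
    refine mul_le_mul_of_nonneg_left ?_ hM.le
    refine (norm_add_le _ _).trans ?_
    rw [norm_mul, Complex.norm_I, mul_one, Complex.norm_real, Complex.norm_real, Real.norm_eq_abs, Real.norm_eq_abs]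
    have h2 := abs_sub_round (z.re / M)
    have h3 := abs_sub_round (z.im / M)
    linarith
  · have := le_abs_self R
    linarith

theorem exists_ln (G : Geo X Λ u D B) (hp : p ∈ D) (hpB : p ∉ B) (ht : TransAt D p e) :
    ∃ (κ : Vd (k + 1) → Vd (k + 1)) (c : ℂ → Vd (k + 1)) (Γ₀ : AddSubgroup ℂ) (s : ℝ), Ln X Λ u D κ p e c Γ₀ s := by
  obtain ⟨κ, hκ, hnc⟩ := G.nc p hp hpB
  obtain ⟨he, htr⟩ := ht
  obtain ⟨ψ, hψ, hψκ, hκψ, hψ0⟩ := Pool.Agent.H62.BU.local_inverse hκ.an (fun v hv => hκ.inj (by rw [hv, map_zero]))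
  rw [hκ.zero] at hψ hκψ hψ0
  set c : ℂ → Vd (k + 1) := fun z => ψ (p + z • e) with hcdef
  have hline : ∀ z : ℂ, HasDerivAt (fun z : ℂ => p + z • e) e z := by
    intro z
    have h4 : HasDerivAt (fun z : ℂ => z • e) ((1 : ℂ) • e) z := (hasDerivAt_id z).smul_const e
    rw [one_smul] at h4
    exact h4.const_add p
  have hlan : ∀ z : ℂ, AnalyticAt ℂ (fun z : ℂ => p + z • e) z := fun z =>
    analyticAt_const.add (AnalyticAt.fun_smul analyticAt_id analyticAt_const)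
  have hl0 : p + (0 : ℂ) • e = p := by simp
  have hlt : Tendsto (fun z : ℂ => p + z • e) (𝓝 0) (𝓝 p) := by
    have h1 := (hlan 0).continuousAt.tendsto
    rwa [hl0] at h1
  have hc0 : c 0 = 0 := by
    show ψ (p + (0 : ℂ) • e) = 0
    rw [hl0, hψ0]
  have hcan : AnalyticAt ℂ c 0 := AnalyticAt.fun_comp (g := ψ) (f := fun z : ℂ => p + z • e) (by rw [hl0]; exact hψ) (hlan 0)
  have hκc : ∀ᶠ z in 𝓝 (0 : ℂ), κ (c z) = p + z • e := hlt.eventually hκψ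
  have hκan0 : AnalyticAt ℂ κ (c 0) := by rw [hc0]; exact hκ.an
  have hcd : fderiv ℂ κ 0 (deriv c 0) = e := by
    have h1 : HasDerivAt (fun z => κ (c z)) (fderiv ℂ κ (c 0) (deriv c 0)) 0 :=
      hκan0.differentiableAt.hasFDerivAt.comp_hasDerivAt (0 : ℂ) hcan.differentiableAt.hasDerivAt
    rw [hc0] at h1
    exact h1.unique ((hline 0).congr_of_eventuallyEq hκc)
  have hcne : (deriv c 0) 0 ≠ 0 := fun h => htr κ hκ _ h hcd
  -- the determinant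
  have hdt0 : dt κ e c 0 ≠ 0 := by
    intro h0
    obtain ⟨v, hv, hv0⟩ := Matrix.exists_vecMul_eq_zero_iff.2 h0
    apply hv
    have h1 : v 0 • e + ∑ j : Fin k, v j.succ • fr κ c 0 j = 0 := by
      funext i
      have h2 := congrFun hv0 i
      rw [Matrix.vecMul, dotProduct, Fin.sum_univ_succ] at h2
      rw [Pi.add_apply, Finset.sum_apply]
      exact h2
    have h2 : fderiv ℂ κ 0 (v 0 • deriv c 0 + ∑ j : Fin k, v j.succ • (Pi.single j.succ 1 : Vd (k + 1))) = 0 := by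
      rw [map_add, map_smul, hcd, map_sum]
      refine Eq.trans ?_ h1
      congr 1
      refine Finset.sum_congr rfl fun j _ => ?_
      rw [map_smul, fr, hc0]
    have h3 : v 0 • deriv c 0 + ∑ j : Fin k, v j.succ • (Pi.single j.succ 1 : Vd (k + 1)) = 0 := hκ.inj (by rw [h2, map_zero])
    have h4 : v 0 = 0 := by
      have h5 := congrFun h3 0
      rw [Pi.add_apply, Finset.sum_apply, Finset.sum_eq_zero (fun j _ => by simp), add_zero, Pi.smul_apply, Pi.zero_apply, smul_eq_mul] at h5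
      exact (mul_eq_zero.1 h5).resolve_right hcne
    funext i
    refine Fin.cases h4 (fun j => ?_) i
    have h5 := congrFun h3 j.succ
    rw [h4, zero_smul, zero_add, Finset.sum_apply, Finset.sum_eq_single j] at h5
    · simpa using h5
    · intro b _ hb
      have h6 : (Pi.single b.succ 1 : Vd (k + 1)) j.succ = 0 := by
        rw [Pi.single_apply, if_neg]
        intro h7
        exact hb (Fin.succ_injective _ h7).symm
      rw [Pi.smul_apply, h6, smul_zero]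
    · intro h
      exact absurd (Finset.mem_univ _) h
  have hdtc : ContinuousAt (dt κ e c) 0 := by
    have h1 : ContinuousAt (fun z : ℂ => (Matrix.of fun i j => (Fin.cons e (fr κ c z) : Fin (k + 1) → Vd (k + 1)) i j :
        Matrix (Fin (k + 1)) (Fin (k + 1)) ℂ)) 0 := by
      refine continuousAt_pi.2 fun i => ?_
      refine Fin.cases ?_ (fun l => ?_) i
      · exact continuousAt_const
      · have h2 : ContinuousAt (fun z => fderiv ℂ κ (c z)) 0 :=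
          ContinuousAt.comp (g := fderiv ℂ κ) (f := c) hκan0.fderiv.continuousAt hcan.continuousAt
        exact h2.clm_apply continuousAt_const
    have h2 : Continuous fun M : Matrix (Fin (k + 1)) (Fin (k + 1)) ℂ => M.det := continuous_id.matrix_det
    exact ContinuousAt.comp (g := fun M : Matrix (Fin (k + 1)) (Fin (k + 1)) ℂ => M.det) h2.continuousAt h1
  -- points off `D`
  have hoff : ∀ᶠ z in 𝓝 (0 : ℂ), z ≠ 0 → p + z • e ∉ D := by
    have h1 : HasDerivAt (fun z => c z 0) (deriv c 0 0) 0 := hasDerivAt_pi.1 hcan.differentiableAt.hasDerivAt 0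
    have h2 : ∀ᶠ z in 𝓝[≠] (0 : ℂ), c z 0 ≠ 0 := h1.eventually_ne hcne
    rw [eventually_nhdsWithin_iff] at h2
    have h3 : ∀ᶠ z in 𝓝 (0 : ℂ), (κ (c z) ∈ D ↔ c z 0 = 0) := by
      have h4 := hcan.continuousAt.tendsto
      rw [hc0] at h4
      exact h4.eventually hκ.mem_iff
    filter_upwards [h2, h3, hκc] with z a1 a2 a3 hz
    rw [← a3, a2]
    exact a1 hz
  have hκan : ∀ᶠ z in 𝓝 (0 : ℂ), AnalyticAt ℂ κ (c z) := hcan.continuousAt.eventually hκan0.eventually_analyticAt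
  obtain ⟨t, ht, hb⟩ := Metric.eventually_nhds_iff_ball.1
    (hcan.eventually_analyticAt.and (hκan.and (hκc.and ((hdtc.eventually_ne hdt0).and hoff))))
  obtain ⟨δ, hδ, hdisc⟩ := G.lat.disc
  set s : ℝ := min (t / 2) (δ / (8 * (‖e‖ + 1))) with hsdef
  have hs : 0 < s := lt_min (by positivity) (by positivity)
  have hst : s < t := (min_le_left _ _).trans_lt (by linarith)
  have hmem : ∀ z : ℂ, ‖z‖ ≤ s → z ∈ ball (0 : ℂ) t := fun z hz => by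
    rw [mem_ball_zero_iff]
    linarith
  obtain ⟨Γ₀, hΓ₀, hbig⟩ := exists_lat₀ (8 * s)
  refine ⟨κ, c, Γ₀, s, ⟨G.cone, G.charts, G.tor, G.lat, hΓ₀, hs, he, fun l hl hln => ?_, hbig, fun z hz hzs => (hb z (hmem z hzs)).2.2.2.2 hz,
    G.sub, hnc, hc0, hcne, fun z hz => (hb z (hmem z (mem_closedBall_zero_iff.1 hz))).1, fun z hz => (hb z (hmem z (mem_closedBall_zero_iff.1 hz))).2.1,
    fun z hz => (hb z (hmem z (mem_closedBall_zero_iff.1 hz))).2.2.1, fun z hz => (hb z (hmem z (mem_closedBall_zero_iff.1 hz))).2.2.2.1⟩⟩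
  refine hdisc l hl (hln.trans_lt ?_)
  have h1 : s ≤ δ / (8 * (‖e‖ + 1)) := min_le_right _ _
  have h2 : 0 ≤ ‖e‖ := norm_nonneg e
  calc 4 * s * ‖e‖ ≤ 4 * (δ / (8 * (‖e‖ + 1))) * (‖e‖ + 1) := by gcongr; linarith
    _ = δ / 2 := by field_simp; ring
    _ < δ := by linarith

end Pool.Agent.TG

end
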