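import Pool.Agent.H94.G4T.M34
import Pool.Agent.H94.G4T.M35
import Pool.Agent.H94.G4T.M58
import Pool.Agent.H94.G4T.M94

/-! The parts of this file: G3.C.LL, G4.C.Defs, G4.C.Slc. -/

section

/-!
# G3 C LL: maps to the projective space with local holomorphic lifts

`LL W z₀`: near `z₀` the map `W : ℂ → MN N` is `pr ∘ G` with `G` holomorphic, `G z₀ ≠ 0`.

* `pr_iff_minors`: `pr x = pr y` iff all minors vanish (`pr_eq_iff`).
* `LL.ident`: the set of the `z ∈ A` near which `W = W'` is open, and closed in `A`: at a limit point `z₀ ∈ A` with the local lifts `G`, `G'` the minors `G i * G' j - G j * G' i` are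
  analytic and vanish on open sets near `z₀`, so (`AnalyticAt.eventually_eq_zero_or_eventually_ne_zero`) they vanish near `z₀`.
* `LL.nonvan`: the same for the set of the `z ∈ A` near which `nd v (W z) = 0`: this is `⟨v, G z⟩ = 0` (`nd_pr_ne`).
* `LL.lift`: `Pool.Agent.H17.exists_global_lift` as in `Pool.Agent.TG.exists_zeroFree`.
* `LL.of_zeros`: where `g` vanishes, `g z = (z - z₀) ^ n • G z` (`AnalyticAt.exists_eventuallyEq_pow_smul_nonzero_iff`).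
-/

set_option autoImplicit false

open Topology Filter Metric Set

namespace Pool.Agent.G3.C

open Pool.Agent.H36.BP (EN)
open Pool.Agent.H62.EF (MN pr pr_smul pr_eq_iff continuousAt_pr)

variable {N : ℕ}

/-- `W` has a holomorphic lift near `z₀` -/
def LL (W : ℂ → MN N) (z₀ : ℂ) : Prop := ∃ G : ℂ → EN N, AnalyticAt ℂ G z₀ ∧ G z₀ ≠ 0 ∧ ∀ᶠ z in 𝓝 z₀, W z = pr (G z)

/-- a property which holds near a point holds at a point different from a given one -/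
private theorem LL_exists_ne {p : ℂ → Prop} {w : ℂ} (h : ∀ᶠ z in 𝓝 w, p z) (z₀ : ℂ) : ∃ z, z ≠ z₀ ∧ p z := by
  obtain ⟨O, hO, hOo, hw⟩ := _root_.mem_nhds_iff.1 h
  obtain ⟨z, hz, hz'⟩ := (dense_compl_singleton z₀).inter_open_nonempty O hOo ⟨w, hw⟩
  exact ⟨z, by simpa using hz', hO hz⟩

/-- near an accumulation point of open sets of zeros an analytic function is zero -/
theorem LL_zero {f : ℂ → ℂ} {z₀ : ℂ} (hf : AnalyticAt ℂ f z₀) {p q : ℂ → Prop} (hp : ∀ᶠ z in 𝓝 z₀, p z)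
    (hq : z₀ ∈ closure {w | ∀ᶠ z in 𝓝 w, q z}) (h : ∀ z, p z → q z → f z = 0) : ∀ᶠ z in 𝓝 z₀, f z = 0 := by
  rcases hf.eventually_eq_zero_or_eventually_ne_zero with h1 | h1
  · exact h1
  · exfalso
    rw [eventually_nhdsWithin_iff] at h1
    obtain ⟨O, hO, hOo, hz₀⟩ := _root_.mem_nhds_iff.1 (h1.and hp)
    obtain ⟨w, hwO, hw⟩ := mem_closure_iff.1 hq O hOo hz₀
    have h2' : ∀ᶠ z in 𝓝 w, z ∈ O := hOo.mem_nhds hwO
    have h2 : ∀ᶠ z in 𝓝 w, z ∈ O ∧ q z := h2'.and hw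
    obtain ⟨z, hz, hzO, hzq⟩ := LL_exists_ne h2 z₀
    exact (hO hzO).1 hz (h z (hO hzO).2 hzq)

/-- the zeros of a linear form are isolated -/
theorem LL.nonvan {W : ℂ → MN N} {A : Set ℂ} (hA : IsOpen A) (hc : IsPreconnected A) (hW : ∀ z ∈ A, LL W z) {v : EN N} {z₁ : ℂ} (hz₁ : z₁ ∈ A)
    (h : nd v (W z₁) ≠ 0) : ∀ z ∈ A, ∀ᶠ w in 𝓝[≠] z, nd v (W w) ≠ 0 := by
  have han : ∀ {G : ℂ → EN N} {z₀ : ℂ}, AnalyticAt ℂ G z₀ → AnalyticAt ℂ (fun z => (inner ℂ v (G z) : ℂ)) z₀ := by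
    intro G z₀ hG
    exact ((innerSL ℂ v).analyticAt _).comp hG
  have hno : ∀ z ∈ A, ¬ ∀ᶠ w in 𝓝 z, nd v (W w) = 0 := by
    intro z hz hcon
    have hsub : A ⊆ {z | ∀ᶠ w in 𝓝 z, nd v (W w) = 0} := by
      refine hc.subset_of_closure_inter_subset isOpen_setOfPred_eventually_nhds ⟨z, hz, hcon⟩ ?_
      rintro z₀ ⟨hz₀, hz₀A⟩
      obtain ⟨G, hG, hG0, hGe⟩ := hW z₀ hz₀A
      have hp : ∀ᶠ z in 𝓝 z₀, G z ≠ 0 ∧ W z = pr (G z) := (hG.continuousAt.eventually_ne hG0).and hGe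
      have h1 : ∀ᶠ z in 𝓝 z₀, (inner ℂ v (G z) : ℂ) = 0 := by
        refine LL_zero (han hG) hp hz₀ ?_
        rintro z ⟨h1, h2⟩ h3
        rw [h2] at h3
        by_contra h4
        exact (nd_pr_ne h1).2 h4 h3
      show ∀ᶠ w in 𝓝 z₀, nd v (W w) = 0
      filter_upwards [hp, h1] with z hz1 hz2
      rw [hz1.2]
      by_contra h3
      exact (nd_pr_ne hz1.1).1 h3 hz2
    exact h (hsub hz₁).self_of_nhds
  intro z₀ hz₀A
  obtain ⟨G, hG, hG0, hGe⟩ := hW z₀ hz₀A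
  have hp : ∀ᶠ z in 𝓝 z₀, G z ≠ 0 ∧ W z = pr (G z) := (hG.continuousAt.eventually_ne hG0).and hGe
  rcases (han hG).eventually_eq_zero_or_eventually_ne_zero with h1 | h1
  · exfalso
    apply hno z₀ hz₀A
    filter_upwards [hp, h1] with z hz1 hz2
    rw [hz1.2]
    by_contra h3
    exact (nd_pr_ne hz1.1).1 h3 hz2
  · filter_upwards [h1, hp.filter_mono nhdsWithin_le_nhds] with z hz1 hz2
    rw [hz2.2]
    exact (nd_pr_ne hz2.1).2 hz1

/-- a vector of holomorphic functions with zeros defines a map with local lifts -/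
theorem LL.of_zeros {g : ℂ → EN N} {B : Set ℂ} (hB : IsOpen B) (hc : IsPreconnected B) (hg : DifferentiableOn ℂ g B) {z₁ : ℂ} (hz₁ : z₁ ∈ B) (h : g z₁ ≠ 0) :
    ∃ W : ℂ → MN N, (∀ z ∈ B, LL W z) ∧ ∀ z ∈ B, g z ≠ 0 → W z = pr (g z) := by
  classical
  have hga : AnalyticOnNhd ℂ g B := hg.analyticOnNhd hB
  have hloc : ∀ z₀ : ℂ, ∃ (m : ℕ) (Φ : ℂ → EN N), z₀ ∈ B → AnalyticAt ℂ Φ z₀ ∧ Φ z₀ ≠ 0 ∧ ∀ᶠ z in 𝓝 z₀, g z = (z - z₀) ^ m • Φ z := by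
    intro z₀
    by_cases hz₀ : z₀ ∈ B
    · have h1 : ¬ ∀ᶠ z in 𝓝 z₀, g z = 0 := fun h2 => h (hga.eqOn_zero_of_preconnected_of_eventuallyEq_zero hc hz₀ h2 hz₁)
      obtain ⟨m, Φ, h2⟩ := ((hga z₀ hz₀).exists_eventuallyEq_pow_smul_nonzero_iff).2 h1
      exact ⟨m, Φ, fun _ => h2⟩
    · exact ⟨0, 0, fun h2 => absurd h2 hz₀⟩
  choose m Φ hΦ using hloc
  have hself : ∀ z ∈ B, g z ≠ 0 → g z = Φ z z := by
    intro z hzB hz
    have h1 := ((hΦ z hzB).2.2).self_of_nhds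
    rw [sub_self] at h1
    rcases Nat.eq_zero_or_pos (m z) with h2 | h2
    · rwa [h2, pow_zero, one_smul] at h1
    · rw [zero_pow h2.ne', zero_smul] at h1
      exact absurd h1 hz
  refine ⟨fun z => pr (Φ z z), ?_, ?_⟩
  · intro z₀ hz₀
    obtain ⟨h1, h2, h3⟩ := hΦ z₀ hz₀
    refine ⟨Φ z₀, h1, h2, ?_⟩
    filter_upwards [h3, h1.continuousAt.eventually_ne h2, hB.mem_nhds hz₀] with z h4 h5 h6
    rcases eq_or_ne z z₀ with h7 | h7
    · rw [h7]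
    · have h8 : (z - z₀) ^ m z₀ ≠ 0 := pow_ne_zero _ (sub_ne_zero.2 h7)
      have h9 : g z ≠ 0 := by
        rw [h4]
        exact smul_ne_zero h8 h5
      rw [← hself z h6 h9, h4]
      exact pr_smul _ h8
  · intro z hz hgz
    show pr (Φ z z) = pr (g z)
    rw [← hself z hz hgz]

end Pool.Agent.G3.C

end

section

/-!
# G4 C Defs: the extension of the sheets over `T = b + E` to complex values of the parameter, definitions

`E` is the real closure of `ℂ a`, `ν ∈ E`, `SS` the finite set of the sheets `φ` over `T = Tb b E`.  Everything is done on the slices `(s, z) ↦ φ (y + s ν + z a)`, `y ∈ T` (`sl φ a ν y`), with the modules of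
`G3/C` for one family `ℝ → ℂ → MN N`; the uniformity in `y` comes from the compactness of `T` modulo `Λ ∩ E`.

* `BoxT`, `SmoT`: the sheet `φ` is smooth in the direction `ν` near the point `y₀ ∈ T`, in a straight chart: the jets `w j` of the first coordinate are continuous functions on `T`.
* `SDat`: the data of one slice (`G3.C.TDat` without the translations).
* `TDat`: the data of block (C).
* `ThP`: the jet form `P` is not `0` on open sets of the fibres over the points outside `Nν`.  `AlgP`: `P` is algebraic.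
* `FDq`: a family of curves, holomorphic in both variables.
-/

set_option autoImplicit false

open Topology Filter Metric

namespace Pool.Agent.G4.C

open Pool.Agent.H36.BP (EN fs wd)
open Pool.Agent.H14.PP (IsCone)
open Pool.Agent.H62.EF (MN pr)
open Pool.Agent.AD (Vd Chart Charts)
open Pool.Agent.TG (TMap Lat Str ms tl Gd)
open Pool.Agent.G3.A (Tb NL)
open Pool.Agent.G3.C

variable {N k : ℕ}

/-- the slice of the sheet `φ` at `y` -/
def sl (φ : Vd (k + 1) → MN N) (a ν y : Vd (k + 1)) (s : ℝ) (z : ℂ) : MN N := φ (y + (s : ℂ) • ν + z • a)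

/-- the set of the `(σ, z)` with `y + σ ν + z a ∈ D` -/
def Dz (D : Set (Vd (k + 1))) (a ν y : Vd (k + 1)) : Set (ℂ × ℂ) := {q | y + q.1 • ν + q.2 • a ∈ D}

/-- the point of the straight chart over `y` with the first coordinate `x` -/
noncomputable def cy (c : Vd (k + 1)) (ρ : ℝ) (x : ℂ) (y : Vd (k + 1)) : Vd (k + 2) := Fin.cons (α := fun _ => ℂ) x ((ρ : ℂ)⁻¹ • (y - c))

theorem cz_eq (b ν a c : Vd (k + 1)) (ρ : ℝ) (x s z : ℂ) : cz b ν a c ρ x s z = cy c ρ x (b + s • ν + z • a) := rfl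

/-- the sheet `φ` over `T` is smooth in the direction `ν` in the ball of radius `r` around `y₀`, with the jets `w` of the first coordinate in the straight chart `χ` -/
structure BoxT (X : Set (EN N)) (Λ : AddSubgroup (Vd (k + 1))) (u : EN N → Vd (k + 1)) (a ν : Vd (k + 1)) (T : Set (Vd (k + 1))) (φ : Vd (k + 1) → MN N) (χ : Chart (k + 2) X)
    (c : Vd (k + 1)) (ρ : ℝ) (w : ℕ → Vd (k + 1) → ℂ) (y₀ : Vd (k + 1)) (r : ℝ) : Prop where
  pos : 0 < r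
  str : Str Λ u χ c ρ
  cont : ∀ j, ContinuousOn (w j) (T ∩ ball y₀ r)
  der : ∀ j, ∀ y ∈ T ∩ ball y₀ r, HasDerivAt (fun s : ℝ => w j (y + (s : ℂ) • ν)) (w (j + 1) y) 0
  hol : ∀ j, ∀ y ∈ T ∩ ball y₀ r, DifferentiableAt ℂ (fun z : ℂ => w j (y + z • a)) 0
  mem : ∀ y ∈ T ∩ ball y₀ r, cy c ρ (w 0 y) y ∈ ball (0 : Vd (k + 2)) 2
  eq : ∀ y ∈ T ∩ ball y₀ r, φ y = pr (χ.σ (cy c ρ (w 0 y) y))

/-- the sheet is smooth in the direction `ν` near `y₀` -/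
def SmoT (X : Set (EN N)) (Λ : AddSubgroup (Vd (k + 1))) (u : EN N → Vd (k + 1)) (a ν : Vd (k + 1)) (T : Set (Vd (k + 1))) (φ : Vd (k + 1) → MN N) (y₀ : Vd (k + 1)) : Prop :=
  ∃ (χ : Chart (k + 2) X) (c : Vd (k + 1)) (ρ : ℝ) (w : ℕ → Vd (k + 1) → ℂ) (r : ℝ), BoxT X Λ u a ν T φ χ c ρ w y₀ r

/-- the data of one slice -/
structure SDat (X : Set (EN N)) (Λ : AddSubgroup (Vd (k + 1))) (u : EN N → Vd (k + 1)) (a ν b : Vd (k + 1)) (Dt Bd : Set (ℂ × ℂ)) (Φ : ℝ → ℂ → MN N) : Prop where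
  cone : IsCone X
  tor : TMap X Λ u
  lat : Lat Λ
  bd_closed : IsClosed Bd
  bd_sub : Bd ⊆ Dt
  dt_closed : IsClosed Dt
  dt_iso : ∀ (s : ℝ) (z : ℂ), ∀ᶠ z' in 𝓝[≠] z, ((s : ℂ), z') ∉ Dt
  lift : ∀ s : ℝ, ∃ F ∈ Gc X Λ u a (b + (s : ℂ) • ν), ∀ z, Φ s z = pr (F z)
  smo : ∀ (s : ℝ) (z : ℂ), ((s : ℂ), z) ∉ Dt → Smo X Λ u a ν b Φ s z
  str : ∀ (s : ℝ) (z : ℂ), ((s : ℂ), z) ∉ Bd → ∃ (χ : Chart (k + 2) X) (c : Vd (k + 1)) (ρ' : ℝ) (x : ℂ), Str Λ u χ c ρ' ∧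
    cz b ν a c ρ' x s z ∈ ball (0 : Vd (k + 2)) 2 ∧ Φ s z = pr (χ.σ (cz b ν a c ρ' x s z))

/-- the data of block (C): the sheets `SS` over `T = b + E`, smooth off `D` -/
structure TDat (X : Set (EN N)) (Λ : AddSubgroup (Vd (k + 1))) (u : EN N → Vd (k + 1)) (a ν b : Vd (k + 1)) (E : Submodule ℝ (Vd (k + 1))) (D Bad : Set (Vd (k + 1)))
    (SS : Set (Vd (k + 1) → MN N)) : Prop where
  cone : IsCone X
  tor : TMap X Λ u
  lat : Lat Λ
  a_mem : ∀ z : ℂ, z • a ∈ E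
  ν_mem : ν ∈ E
  cpt : ∃ R : ℝ, 0 < R ∧ ∀ v ∈ E, ∃ l ∈ Λ, l ∈ E ∧ ‖v - l‖ ≤ R
  dns : ∀ v ∈ E, ∀ ε : ℝ, 0 < ε → ∃ l ∈ Λ, l ∈ E ∧ ∃ z : ℂ, ‖v - (l + z • a)‖ ≤ ε
  D_closed : IsClosed D
  D_inv : ∀ y ∈ D, ∀ l ∈ Λ, y + l ∈ D
  bad_closed : IsClosed Bad
  bad_sub : Bad ⊆ D
  bad_inv : ∀ y ∈ Bad, ∀ l ∈ Λ, y + l ∈ Bad
  /-- `D` is thin on the lines of direction `a` -/
  thin : ∀ y : Vd (k + 1), ∃ h : Vd (k + 1) → ℂ, AnalyticAt ℂ h y ∧ (∀ᶠ y' in 𝓝 y, y' ∈ D → h y' = 0) ∧ ¬ ∀ᶠ z in 𝓝 (0 : ℂ), h (y + z • a) = 0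
  fin : SS.Finite
  tr : ∀ φ ∈ SS, ∀ l ∈ Λ, l ∈ E → ∃ φ' ∈ SS, ∀ y ∈ Tb b E, φ' y = φ (y + l)
  line : ∀ φ ∈ SS, ∀ y ∈ Tb b E, ∃ F ∈ Gc X Λ u a y, ∀ z : ℂ, φ (y + z • a) = pr (F z)
  smo : ∀ φ ∈ SS, ∀ y ∈ Tb b E, y ∉ D → SmoT X Λ u a ν (Tb b E) φ y
  str : ∀ φ ∈ SS, ∀ y ∈ Tb b E, y ∉ Bad → ∃ (χ : Chart (k + 2) X) (c : Vd (k + 1)) (ρ : ℝ) (x : ℂ), Str Λ u χ c ρ ∧
    cy c ρ x y ∈ ball (0 : Vd (k + 2)) 2 ∧ φ y = pr (χ.σ (cy c ρ x y))
  gr : ∀ R₀ : ℝ, 0 < R₀ → ∃ c : ℝ, 0 < c ∧ ∀ y, ∀ F ∈ Gc X Λ u a y, ∀ z, Real.log ‖F z‖ + c ≤ Real.circleAverage (fun w => Real.log ‖F w‖) z R₀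
  /-- few bad hits -/
  few : ∀ ε : ℝ, 0 < ε → ∃ C : ℝ, ∀ (y : Vd (k + 1)) (R : ℝ), 0 ≤ R → ∀ S : Finset ℂ, (∀ z ∈ S, ‖z‖ ≤ R ∧ y + z • a ∈ Bad) → (S.card : ℝ) ≤ ε * R ^ 2 + C
  nl : NL X Λ u D a

variable {X : Set (EN N)} {Λ : AddSubgroup (Vd (k + 1))} {u : EN N → Vd (k + 1)} {ν : Vd (k + 1)} {m : ℕ}

/-- the jet form is not `0` on the open subsets of the fibres over the points outside the closed set `Nν`, which contains no line of direction `a` -/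
structure ThP (P : JForm X Λ u ν m) (a : Vd (k + 1)) (Nν : Set (Vd (k + 1))) : Prop where
  closed : IsClosed Nν
  line : ∀ y : Vd (k + 1), ∃ z : ℂ, y + z • a ∉ Nν
  thin : ∀ y ∉ Nν, ∀ x ∈ X, u x - y ∈ Λ → ∀ U ∈ 𝓝 x, ∃ φ : ℂ → EN N, DirC X Λ u ν φ ∧ φ 0 ∈ U ∧ u (φ 0) - y ∈ Λ ∧ P.toFun (jt m φ) ≠ 0

/-- the jet form is algebraic: `R i (φ 0) P (jet φ) = Q i (jet φ)`, `R i` homogeneous of degree `e` without common zero outside `D`, `Q i` of polynomial growth -/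
def AlgP (D : Set (Vd (k + 1))) (P : JForm X Λ u ν m) : Prop :=
  ∃ (r e : ℕ) (R : Fin r → EN N → ℂ) (Q : Fin r → (Fin (m + 1) → EN N) → ℂ) (C : ℝ) (M : ℕ), (∀ i, Differentiable ℂ (R i)) ∧ (∀ i (c : ℂ) x, R i (c • x) = c ^ e * R i x) ∧
    (∀ y ∉ D, ∀ x ∈ X, u x - y ∈ Λ → ∃ i, R i x ≠ 0) ∧ (∀ i v, ‖Q i v‖ ≤ C * (1 + ∑ j, ‖v j‖) ^ M) ∧
    ∀ i (φ : ℂ → EN N), DirC X Λ u ν φ → (∀ y ∈ D, u (φ 0) - y ∉ Λ) → R i (φ 0) * P.toFun (jt m φ) = Q i (jt m φ)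

/-- `W` is a family of curves, holomorphic in both variables on `Q`: the curves `W ζ` have local holomorphic lifts without zeros, the family has local holomorphic lifts which do not
vanish identically on the curve -/
def FDq (W : ℂ → ℂ → MN N) (Q : Set (ℂ × ℂ)) : Prop :=
  ∀ ζ z : ℂ, (ζ, z) ∈ Q → LL (W ζ) z ∧ ∃ G : ℂ × ℂ → EN N, AnalyticAt ℂ G (ζ, z) ∧ (¬ ∀ᶠ w in 𝓝 z, G (ζ, w) = 0) ∧ ∀ᶠ p in 𝓝 (ζ, z), G p ≠ 0 → W p.1 p.2 = pr (G p)

theorem FDq.mono {W : ℂ → ℂ → MN N} {Q Q' : Set (ℂ × ℂ)} (h : FDq W Q) (hQ : Q' ⊆ Q) : FDq W Q' := fun ζ z hp => h ζ z (hQ hp)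

end Pool.Agent.G4.C

end

section

/-!
# G4 C Slc: the slices of the sheets

`BoxT.box`: a box on `T` gives boxes on the slices.  `TDat.iso`: `D` is discrete on the lines.  `TDat.sdat`: the data of the slice at `y ∈ T`.
-/

set_option autoImplicit false

open Topology Filter Metric

namespace Pool.Agent.G4.C

open Pool.Agent.H36.BP (EN fs wd)
open Pool.Agent.H14.PP (IsCone)
open Pool.Agent.H62.EF (MN pr)
open Pool.Agent.AD (Vd Chart Charts)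
open Pool.Agent.TG (TMap Lat Str ms tl Gd)
open Pool.Agent.G3.A (Tb)
open Pool.Agent.G3.C

variable {N k : ℕ} {X : Set (EN N)} {Λ : AddSubgroup (Vd (k + 1))} {u : EN N → Vd (k + 1)} {ν a b c : Vd (k + 1)} {m : ℕ} {ρ : ℝ} {E : Submodule ℝ (Vd (k + 1))}
  {D Bad T : Set (Vd (k + 1))} {SS : Set (Vd (k + 1) → MN N)} {φ : Vd (k + 1) → MN N} {χ : Chart (k + 2) X} {w : ℕ → Vd (k + 1) → ℂ} {y₀ : Vd (k + 1)} {r : ℝ}

theorem sl_add (y : Vd (k + 1)) (s s' : ℝ) (z z' : ℂ) : sl φ a ν y (s + s') (z + z') = sl φ a ν (y + (s : ℂ) • ν + z • a) s' z' := by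
  unfold sl
  congr 1
  push_cast
  rw [add_smul, add_smul]
  abel

/-- the jets on the slice at `y` -/
def wsl (w : ℕ → Vd (k + 1) → ℂ) (a ν y : Vd (k + 1)) (j : ℕ) (s : ℝ) (z : ℂ) : ℂ := w j (y + (s : ℂ) • ν + z • a)

theorem slc_cont (a ν y : Vd (k + 1)) : Continuous fun q : ℝ × ℂ => y + (q.1 : ℂ) • ν + q.2 • a := by fun_prop

theorem BoxT.box (B : BoxT X Λ u a ν T φ χ c ρ w y₀ r) {y : Vd (k + 1)} (hT : ∀ (s : ℝ) (z : ℂ), y + (s : ℂ) • ν + z • a ∈ T) {s₀ : ℝ} {z₀ : ℂ}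
    (h : y + (s₀ : ℂ) • ν + z₀ • a ∈ ball y₀ r) : ∃ r' : ℝ, Box X Λ u a ν y (sl φ a ν y) χ c ρ (wsl w a ν y) s₀ z₀ r' := by
  obtain ⟨r', hr', hb⟩ := Metric.isOpen_iff.1 (isOpen_ball.preimage (slc_cont a ν y)) (s₀, z₀) h
  have hm : ∀ s ∈ Set.Ioo (s₀ - r') (s₀ + r'), ∀ z ∈ ball z₀ r', y + (s : ℂ) • ν + z • a ∈ T ∩ ball y₀ r := by
    intro s hs z hz
    refine ⟨hT s z, hb (a := (s, z)) ?_⟩
    rw [mem_ball, Prod.dist_eq]
    refine max_lt ?_ hz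
    rw [Real.dist_eq, abs_lt]
    constructor <;> linarith [hs.1, hs.2]
  refine ⟨r', hr', B.str, ⟨fun j s hs z hz => ?_, fun j => ?_, fun j s hs z hz => ?_⟩, fun s hs z hz => B.mem _ (hm s hs z hz), fun s hs z hz => B.eq _ (hm s hs z hz)⟩
  · have h1 := B.der j _ (hm s hs z hz)
    have h2 : HasDerivAt (fun t : ℝ => w j (y + (s : ℂ) • ν + z • a + (t : ℂ) • ν)) (w (j + 1) (y + (s : ℂ) • ν + z • a)) (s - s) := by
      rw [sub_self]
      exact h1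
    have h3 := h2.comp_sub_const s s
    refine h3.congr_of_eventuallyEq (Eventually.of_forall fun t => ?_)
    show w j (y + (t : ℂ) • ν + z • a) = w j (y + (s : ℂ) • ν + z • a + ((t - s : ℝ) : ℂ) • ν)
    congr 1
    push_cast
    rw [sub_smul]
    abel
  · refine (B.cont j).comp (slc_cont a ν y).continuousOn fun q hq => hm q.1 hq.1 q.2 hq.2
  · have h1 := B.hol j _ (hm s hs z hz)
    have h2 : DifferentiableAt ℂ (fun z' : ℂ => w j (y + (s : ℂ) • ν + z • a + z' • a)) (z - z) := by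
      rw [sub_self]
      exact h1
    have h3 : DifferentiableAt ℂ (fun z' : ℂ => w j (y + (s : ℂ) • ν + z • a + (z' - z) • a)) z :=
      DifferentiableAt.comp (g := fun z' : ℂ => w j (y + (s : ℂ) • ν + z • a + z' • a)) (f := fun z' : ℂ => z' - z) z h2 (by fun_prop)
    refine (h3.congr_of_eventuallyEq (Eventually.of_forall fun z' => ?_)).differentiableWithinAt
    show w j (y + (s : ℂ) • ν + z' • a) = w j (y + (s : ℂ) • ν + z • a + (z' - z) • a)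
    congr 1
    rw [sub_smul]
    abel

theorem TDat.tb (S : TDat X Λ u a ν b E D Bad SS) {y : Vd (k + 1)} (hy : y ∈ Tb b E) (s : ℝ) (z : ℂ) : y + (s : ℂ) • ν + z • a ∈ Tb b E := by
  show y + (s : ℂ) • ν + z • a - b ∈ E
  have e : y + (s : ℂ) • ν + z • a - b = (y - b) + s • ν + z • a := by
    rw [Complex.coe_smul]
    abel
  rw [e]
  exact E.add_mem (E.add_mem hy (E.smul_mem s S.ν_mem)) (S.a_mem z)

theorem TDat.iso (S : TDat X Λ u a ν b E D Bad SS) (y : Vd (k + 1)) (z₀ : ℂ) : ∀ᶠ z in 𝓝[≠] z₀, y + z • a ∉ D := by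
  obtain ⟨h, hh, hD, hne⟩ := S.thin (y + z₀ • a)
  have hl : AnalyticAt ℂ (fun z : ℂ => y + z • a) z₀ := by
    have : AnalyticAt ℂ (fun z : ℂ => z • a) z₀ := analyticAt_id.smul analyticAt_const
    exact analyticAt_const.add this
  have hg : AnalyticAt ℂ (fun z : ℂ => h (y + z • a)) z₀ := AnalyticAt.fun_comp (g := h) (f := fun z : ℂ => y + z • a) hh hl
  have hev : ∀ᶠ z in 𝓝 z₀, y + z • a ∈ D → h (y + z • a) = 0 := hl.continuousAt.eventually hD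
  rcases hg.eventually_eq_zero_or_eventually_ne_zero with h0 | h0
  · exfalso
    apply hne
    have h1 : Tendsto (fun z : ℂ => z₀ + z) (𝓝 0) (𝓝 z₀) := by
      have : Continuous fun z : ℂ => z₀ + z := by fun_prop
      have h2 := this.tendsto 0
      rwa [add_zero] at h2
    filter_upwards [h1.eventually h0] with z hz
    rw [← hz]
    congr 1
    rw [add_smul]
    abel
  · filter_upwards [h0, hev.filter_mono nhdsWithin_le_nhds] with z h1 h2 h3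
    exact h1 (h2 h3)

theorem dz_closed (hD : IsClosed D) (a ν y : Vd (k + 1)) : IsClosed (Dz D a ν y) := by
  have h : Continuous fun q : ℂ × ℂ => y + q.1 • ν + q.2 • a := by fun_prop
  exact hD.preimage h

theorem TDat.sdat (S : TDat X Λ u a ν b E D Bad SS) (hφ : φ ∈ SS) {y : Vd (k + 1)} (hy : y ∈ Tb b E) :
    SDat X Λ u a ν y (Dz D a ν y) (Dz Bad a ν y) (sl φ a ν y) where
  cone := S.cone
  tor := S.tor
  lat := S.lat
  bd_closed := dz_closed S.bad_closed a ν y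
  bd_sub := fun _ hq => S.bad_sub hq
  dt_closed := dz_closed S.D_closed a ν y
  dt_iso := fun s z => S.iso (y + (s : ℂ) • ν) z
  lift := fun s => by
    have h1 := S.tb hy s 0
    rw [zero_smul, add_zero] at h1
    exact S.line φ hφ _ h1
  smo := fun s z hsz => by
    obtain ⟨χ, c, ρ, w, r, B⟩ := S.smo φ hφ _ (S.tb hy s z) hsz
    obtain ⟨r', B'⟩ := B.box (y := y) (fun s z => S.tb hy s z) (mem_ball_self B.pos)
    exact ⟨χ, c, ρ, _, r', B'⟩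
  str := fun s z hsz => by
    obtain ⟨χ, c, ρ, x, h1, h2, h3⟩ := S.str φ hφ _ (S.tb hy s z) hsz
    exact ⟨χ, c, ρ, x, h1, h2, h3⟩

/-- the number of the points of `D` on a line in a disc is finite -/
theorem TDat.hits (S : TDat X Λ u a ν b E D Bad SS) (y : Vd (k + 1)) (z₀ : ℂ) (R : ℝ) : ({z : ℂ | y + z • a ∈ D} ∩ closedBall z₀ R).Finite := by
  have h1 := finite_of_isolated (isCompact_closedBall z₀ R) (P := fun z => y + z • a ∈ D) fun z _ => S.iso y z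
  refine h1.subset fun z hz => ⟨hz.2, hz.1⟩

end Pool.Agent.G4.C

end
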