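import Pool.Agent.H94.G4T.M34
import Pool.Agent.H94.G4T.M35
import Pool.Agent.H94.G4T.M68

/-! The parts of this file: TG.XDefs, TG.XPt, TG.XCirc, TG.XLoc, TG.XExt, TG.XHs, TG.XHi. -/

section

/-!
# TG XDefs: the extension theorem in abstract form, definitions

`P` is a set of pairs of maps, `dd p y` the distance of the members of the pair `p` over `y`, `J p` a function on `ℂ^(k+1) \ D` (the integral), `Tr q e` means that the line
`q + ℂ e` is transversal to `D` at the point `q ∈ D`.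
-/

set_option autoImplicit false

open Topology Filter Metric MeasureTheory

namespace Pool.Agent.TG

open Pool.Agent.AD (Vd)

/-- the hypotheses of the extension theorem -/
structure PairData {k : ℕ} (Γ : AddSubgroup (Vd (k + 1))) (D : Set (Vd (k + 1))) (Tr : Vd (k + 1) → Vd (k + 1) → Prop) {P : Type} (dd : P → Vd (k + 1) → ℝ)
    (J : P → Vd (k + 1) → ℂ) : Prop where
  cpt : ∃ R : ℝ, 0 < R ∧ ∀ y : Vd (k + 1), ∃ l ∈ Γ, ‖y - l‖ ≤ R
  D_closed : IsClosed D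
  D_inv : ∀ y ∈ D, ∀ l ∈ Γ, y + l ∈ D
  thin : ∀ y : Vd (k + 1), ∃ h : Vd (k + 1) → ℂ, AnalyticAt ℂ h y ∧ (∀ᶠ z in 𝓝 y, z ∈ D → h z = 0) ∧ ¬ ∀ᶠ z in 𝓝 y, h z = 0
  ae_tr : ∀ e : Vd (k + 1), e ≠ 0 → ∀ᵐ y : Vd (k + 1), ∀ z : ℂ, y + z • e ∈ D → Tr (y + z • e) e
  tr_iso : ∀ q ∈ D, ∀ e : Vd (k + 1), Tr q e → ∀ᶠ z in 𝓝[≠] (0 : ℂ), q + z • e ∉ D
  shift : ∀ p, ∀ l ∈ Γ, ∃ p', (∀ y, dd p' y = dd p (y + l)) ∧ ∀ y, J p' y = J p (y + l)
  hol : ∀ d : ℝ, 0 < d → ∃ ε C : ℝ, 0 < ε ∧ ∀ p, ∀ y ∈ Gd D d, dd p y ≤ ε → AnalyticAt ℂ (J p) y ∧ ‖J p y‖ ≤ C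
  cross : ∀ q ∈ D, ∀ e : Vd (k + 1), Tr q e → ∃ s₀ : ℝ, 0 < s₀ ∧ ∀ r₁ r₂ : ℝ, 0 < r₁ → r₁ < r₂ → r₂ < s₀ → ∃ ε : ℝ, 0 < ε ∧
    ∀ p, (∀ z : ℂ, r₁ < ‖z‖ → ‖z‖ < r₂ → dd p (q + z • e) ≤ ε) →
      ∃ J' : ℂ → ℂ, DifferentiableOn ℂ J' (ball 0 r₂) ∧ ∀ z : ℂ, r₁ < ‖z‖ → ‖z‖ < r₂ → J' z = J p (q + z • e)

/-- the mean of `F` on the circle `y + r e^{it} e` -/
noncomputable def cm {n : ℕ} (F : Vd n → ℂ) (e : Vd n) (r : ℝ) (y : Vd n) : ℂ :=
  (2 * Real.pi * Complex.I : ℂ)⁻¹ • ∮ z in C(0, r), (z - 0)⁻¹ • F (y + z • e)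

end Pool.Agent.TG

end

section

/-!
# TG XPt: the mean value property of the integral on a transversal disc
-/

set_option autoImplicit false

open Topology Filter Metric MeasureTheory

namespace Pool.Agent.TG

open Pool.Agent.AD (Vd)

variable {k : ℕ} {Γ : AddSubgroup (Vd (k + 1))} {D : Set (Vd (k + 1))} {Tr : Vd (k + 1) → Vd (k + 1) → Prop} {P : Type} {dd : P → Vd (k + 1) → ℝ}
  {J : P → Vd (k + 1) → ℂ}

theorem gdx_mono {δ₁ δ₂ : ℝ} (h : δ₁ ≤ δ₂) : Gd D δ₂ ⊆ Gd D δ₁ := fun _ hz b hb => h.trans (hz b hb)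

theorem gdx_notMem {δ' : ℝ} (h : 0 < δ') {z : Vd (k + 1)} (hz : z ∈ Gd D δ') : z ∉ D := by
  intro hzB
  have h1 := hz z hzB
  rw [sub_self, norm_zero] at h1
  linarith

theorem gdx_closed (δ' : ℝ) : IsClosed (Gd D δ') := by
  have h1 : Gd D δ' = ⋂ b ∈ D, {z : Vd (k + 1) | δ' ≤ ‖z - b‖} := by
    ext z
    simp only [Set.mem_iInter]
    exact Iff.rfl
  rw [h1]
  refine isClosed_biInter fun b _ => ?_
  exact isClosed_le continuous_const (continuous_id.sub continuous_const).norm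

theorem gdx_add (hD : ∀ y ∈ D, ∀ l ∈ Γ, y + l ∈ D) {δ' : ℝ} {z l : Vd (k + 1)} (hl : l ∈ Γ) : z + l ∈ Gd D δ' ↔ z ∈ Gd D δ' := by
  constructor
  · intro hz b hb
    have h1 := hz (b + l) (hD b hb l hl)
    rwa [add_sub_add_right_eq_sub] at h1
  · intro hz b hb
    have h1 := hz (b + -l) (hD b hb (-l) (Γ.neg_mem hl))
    have h2 : z - (b + -l) = z + l - b := by abel
    rwa [h2] at h1

/-- a compact set off `D` is at a positive distance -/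
theorem gdx_compact (hD : IsClosed D) {K : Set (Vd (k + 1))} (hK : IsCompact K) (h : ∀ y ∈ K, y ∉ D) : ∃ d : ℝ, 0 < d ∧ K ⊆ Gd D d := by
  obtain ⟨d, hd, hsub⟩ := hK.exists_thickening_subset_open hD.isOpen_compl h
  refine ⟨d, hd, fun y hy b hb => ?_⟩
  by_contra hcon
  push Not at hcon
  have h1 : b ∈ thickening d K := by
    rw [mem_thickening_iff]
    exact ⟨y, hy, by rwa [dist_comm, dist_eq_norm]⟩
  exact hsub h1 hb

theorem line_norm {e : Vd (k + 1)} (he : ‖e‖ ≤ 1) (z : ℂ) : ‖z • e‖ ≤ ‖z‖ := by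
  rw [norm_smul]
  calc ‖z‖ * ‖e‖ ≤ ‖z‖ * 1 := mul_le_mul_of_nonneg_left he (norm_nonneg _)
    _ = ‖z‖ := mul_one _

/-- the points of `D` on a transversal disc are finitely many -/
private theorem pt_finite (h : PairData Γ D Tr dd J) {e w : Vd (k + 1)} {r : ℝ} (hgood : ∀ z : ℂ, w + z • e ∈ D → Tr (w + z • e) e) :
    {z : ℂ | z ∈ closedBall (0 : ℂ) r ∧ w + z • e ∈ D}.Finite := by
  by_contra hinf
  have hcl : IsClosed {z : ℂ | w + z • e ∈ D} := h.D_closed.preimage (by fun_prop)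
  obtain ⟨z, hz, hacc⟩ := Set.Infinite.exists_accPt_of_subset_isCompact hinf (isCompact_closedBall (0 : ℂ) r) fun z hz => hz.1
  rw [accPt_iff_frequently] at hacc
  have hzD : w + z • e ∈ D := by
    have h1 : z ∈ closure {z : ℂ | w + z • e ∈ D} := by
      rw [mem_closure_iff_frequently]
      exact hacc.mono fun y hy => hy.2.2
    rwa [hcl.closure_eq] at h1
  have h1 := h.tr_iso _ hzD e (hgood z hzD)
  have h2 : Tendsto (fun y : ℂ => y - z) (𝓝[≠] z) (𝓝[≠] 0) := by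
    refine tendsto_nhdsWithin_iff.2 ⟨?_, ?_⟩
    · have h3 : Tendsto (fun y : ℂ => y - z) (𝓝 z) (𝓝 (z - z)) := (continuous_id.sub continuous_const).tendsto z
      rw [sub_self] at h3
      exact h3.mono_left nhdsWithin_le_nhds
    · filter_upwards [self_mem_nhdsWithin] with y hy
      exact sub_ne_zero.2 hy
  have h3 := h2.eventually h1
  have h4 : ∃ᶠ y in 𝓝[≠] z, w + y • e ∈ D := by
    rw [frequently_nhdsWithin_iff]
    exact hacc.mono fun y hy => ⟨hy.2.2, hy.1⟩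
  obtain ⟨y, hy1, hy2⟩ := (h4.and_eventually h3).exists
  apply hy2
  have e1 : w + z • e + (y - z) • e = w + y • e := by
    rw [sub_smul]
    abel
  rw [e1]
  exact hy1

theorem PairData.point (h : PairData Γ D Tr dd J) {e w : Vd (k + 1)} {r : ℝ} (hr : 0 < r) (hr1 : r < 1) (he : ‖e‖ ≤ 1) (hw : w ∉ D)
    (hcirc : ∀ z : ℂ, ‖z‖ = r → w + z • e ∉ D) (hgood : ∀ z : ℂ, w + z • e ∈ D → Tr (w + z • e) e) :
    ∃ d ε : ℝ, 0 < d ∧ 0 < ε ∧ ∀ p, (∀ x ∈ Gd D d, ‖x - w‖ < 1 → dd p x ≤ ε) → cm (J p) e r w = J p w := by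
  classical
  obtain ⟨Z, hZ⟩ : ∃ Z : Finset ℂ, ∀ z, z ∈ Z ↔ ‖z‖ ≤ r ∧ w + z • e ∈ D := by
    refine ⟨(pt_finite h (e := e) (w := w) (r := r) hgood).toFinset, fun z => ?_⟩
    rw [Set.Finite.mem_toFinset]
    show z ∈ closedBall (0 : ℂ) r ∧ _ ↔ _
    rw [mem_closedBall, dist_zero_right]
  have hZ0 : ∀ ζ ∈ Z, 0 < ‖ζ‖ := by
    intro ζ hζ
    rw [norm_pos_iff]
    rintro rfl
    have h1 := ((hZ 0).1 hζ).2
    rw [zero_smul, add_zero] at h1
    exact hw h1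
  have hZr : ∀ ζ ∈ Z, ‖ζ‖ < r := by
    intro ζ hζ
    refine lt_of_le_of_ne ((hZ ζ).1 hζ).1 fun h1 => ?_
    exact hcirc ζ h1 ((hZ ζ).1 hζ).2
  have hcr : ∀ ζ ∈ Z, ∃ s₀ : ℝ, 0 < s₀ ∧ ∀ r₁ r₂ : ℝ, 0 < r₁ → r₁ < r₂ → r₂ < s₀ → ∃ ε : ℝ, 0 < ε ∧
      ∀ p, (∀ z : ℂ, r₁ < ‖z‖ → ‖z‖ < r₂ → dd p (w + ζ • e + z • e) ≤ ε) →
        ∃ J' : ℂ → ℂ, DifferentiableOn ℂ J' (ball 0 r₂) ∧ ∀ z : ℂ, r₁ < ‖z‖ → ‖z‖ < r₂ → J' z = J p (w + ζ • e + z • e) := by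
    intro ζ hζ
    have h1 := ((hZ ζ).1 hζ).2
    exact h.cross _ h1 e (hgood ζ h1)
  choose! s₀ hs₀ hcross using hcr
  -- the radius
  obtain ⟨s, hs, hs1⟩ : ∃ s : ℝ, 0 < s ∧ ∀ ζ ∈ Z, s < s₀ ζ ∧ s < ‖ζ‖ ∧ ‖ζ‖ + s < r ∧ ∀ ζ' ∈ Z, ζ ≠ ζ' → 2 * s ≤ ‖ζ - ζ'‖ := by
    have hev : ∀ᶠ s : ℝ in 𝓝[>] 0, ∀ ζ ∈ Z, s < s₀ ζ ∧ s < ‖ζ‖ ∧ ‖ζ‖ + s < r ∧ ∀ ζ' ∈ Z, ζ ≠ ζ' → 2 * s ≤ ‖ζ - ζ'‖ := by
      rw [Filter.eventually_all_finset]
      intro ζ hζ
      have a1 : ∀ c : ℝ, 0 < c → ∀ᶠ s : ℝ in 𝓝[>] 0, s < c := fun c hc => nhdsWithin_le_nhds (Iio_mem_nhds hc)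
      have a2 : ∀ᶠ s : ℝ in 𝓝[>] 0, ∀ ζ' ∈ Z, ζ ≠ ζ' → 2 * s ≤ ‖ζ - ζ'‖ := by
        rw [Filter.eventually_all_finset]
        intro ζ' _
        by_cases hne : ζ = ζ'
        · exact Eventually.of_forall fun s h1 => absurd hne h1
        · have hp : 0 < ‖ζ - ζ'‖ := norm_pos_iff.2 (sub_ne_zero.2 hne)
          filter_upwards [a1 (‖ζ - ζ'‖ / 2) (by positivity)] with s hs _
          linarith
      filter_upwards [a1 _ (hs₀ ζ hζ), a1 _ (hZ0 ζ hζ), a1 (r - ‖ζ‖) (by linarith [hZr ζ hζ]), a2] with s h1 h2 h3 h4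
      exact ⟨h1, h2, by linarith, h4⟩
    obtain ⟨s, h1, h2⟩ := (hev.and self_mem_nhdsWithin).exists
    exact ⟨s, h2, h1⟩
  -- the compact set
  have hKc : IsCompact {z : ℂ | z ∈ closedBall (0 : ℂ) r ∧ ∀ ζ ∈ Z, s / 3 ≤ ‖z - ζ‖} := by
    have e1 : {z : ℂ | ∀ ζ ∈ Z, s / 3 ≤ ‖z - ζ‖} = ⋂ ζ ∈ Z, {z : ℂ | s / 3 ≤ ‖z - ζ‖} := by
      ext z
      simp
    have e2 : IsClosed {z : ℂ | ∀ ζ ∈ Z, s / 3 ≤ ‖z - ζ‖} := by
      rw [e1]
      exact isClosed_biInter fun ζ _ => isClosed_le continuous_const (by fun_prop)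
    exact (isCompact_closedBall (0 : ℂ) r).inter_right e2
  obtain ⟨d, hd, hdK⟩ := gdx_compact h.D_closed (hKc.image (show Continuous fun z : ℂ => w + z • e by fun_prop)) (by
    rintro _ ⟨z, ⟨hz1, hz2⟩, rfl⟩ hzD
    rw [mem_closedBall, dist_zero_right] at hz1
    have h1 := hz2 z ((hZ z).2 ⟨hz1, hzD⟩)
    rw [sub_self, norm_zero] at h1
    linarith)
  have hmem : ∀ z : ℂ, ‖z‖ ≤ r → (∀ ζ ∈ Z, s / 3 ≤ ‖z - ζ‖) → w + z • e ∈ Gd D d := fun z hz1 hz2 =>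
    hdK ⟨z, ⟨by rwa [mem_closedBall, dist_zero_right], hz2⟩, rfl⟩
  obtain ⟨ε₁, C, hε₁, hhol⟩ := h.hol d hd
  have hc2 : ∀ ζ ∈ Z, ∃ ε : ℝ, 0 < ε ∧ ∀ p, (∀ z : ℂ, s / 3 < ‖z‖ → ‖z‖ < 2 * s / 3 → dd p (w + ζ • e + z • e) ≤ ε) →
      ∃ J' : ℂ → ℂ, DifferentiableOn ℂ J' (ball 0 (2 * s / 3)) ∧ ∀ z : ℂ, s / 3 < ‖z‖ → ‖z‖ < 2 * s / 3 → J' z = J p (w + ζ • e + z • e) :=
    fun ζ hζ => hcross ζ hζ (s / 3) (2 * s / 3) (by linarith) (by linarith) (by linarith [(hs1 ζ hζ).1])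
  choose! ε₂ hε₂ hcr2 using hc2
  obtain ⟨ε, hε, hεle⟩ : ∃ ε : ℝ, 0 < ε ∧ (∀ ζ ∈ Z, ε ≤ ε₂ ζ) ∧ ε ≤ ε₁ := by
    have hev : ∀ᶠ ε : ℝ in 𝓝[>] 0, (∀ ζ ∈ Z, ε ≤ ε₂ ζ) ∧ ε ≤ ε₁ := by
      refine Eventually.and ?_ (nhdsWithin_le_nhds (Iic_mem_nhds hε₁))
      rw [Filter.eventually_all_finset]
      intro ζ hζ
      exact nhdsWithin_le_nhds (Iic_mem_nhds (hε₂ ζ hζ))
    obtain ⟨ε, h1, h2⟩ := (hev.and self_mem_nhdsWithin).exists
    exact ⟨ε, h2, h1⟩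
  refine ⟨d, ε, hd, hε, fun p hp => ?_⟩
  have hclose : ∀ z : ℂ, ‖z‖ ≤ r → (∀ ζ ∈ Z, s / 3 ≤ ‖z - ζ‖) → dd p (w + z • e) ≤ ε := by
    intro z hz1 hz2
    refine hp _ (hmem z hz1 hz2) ?_
    rw [add_sub_cancel_left]
    exact (line_norm he z).trans_lt (by linarith)
  have hkey := disc_mean (j := fun z : ℂ => J p (w + z • e)) hr hs Z (fun ζ hζ => ⟨(hs1 ζ hζ).2.1, (hs1 ζ hζ).2.2.1⟩)
    (fun ζ hζ ζ' hζ' hne => (hs1 ζ hζ).2.2.2 ζ' hζ' hne) ?_ ?_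
  · have h1 : cm (J p) e r w = (2 * Real.pi * Complex.I : ℂ)⁻¹ • ∮ z in C(0, r), (z - 0)⁻¹ • J p (w + z • e) := rfl
    rw [h1, hkey]
    simp only [zero_smul, add_zero]
  · intro z hz1 hz2
    have h1 : AnalyticAt ℂ (J p) (w + z • e) :=
      (hhol p _ (hmem z hz1 fun ζ hζ => (hz2 ζ hζ).le) ((hclose z hz1 fun ζ hζ => (hz2 ζ hζ).le).trans hεle.2)).1
    have h2 : DifferentiableAt ℂ (fun z : ℂ => w + z • e) z := by fun_prop
    exact h1.differentiableAt.comp z h2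
  · intro ζ hζ
    obtain ⟨J', hJ1, hJ2⟩ := hcr2 ζ hζ p (fun z hz1 hz2 => by
      have e1 : w + ζ • e + z • e = w + (ζ + z) • e := by
        rw [add_smul]
        abel
      rw [e1]
      refine (hclose (ζ + z) ?_ ?_).trans (hεle.1 ζ hζ)
      · have h1 := norm_add_le ζ z
        have h2 := (hs1 ζ hζ).2.2.1
        linarith
      · intro ζ' hζ'
        by_cases hne : ζ = ζ'
        · rw [← hne, add_sub_cancel_left]
          exact hz1.le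
        · have h1 := (hs1 ζ hζ).2.2.2 ζ' hζ' hne
          have h2 : ‖ζ - ζ'‖ ≤ ‖ζ + z - ζ'‖ + ‖z‖ := by
            have e2 : ζ - ζ' = (ζ + z - ζ') - z := by ring
            rw [e2]
            exact norm_sub_le _ _
          linarith)
    refine ⟨J', hJ1, fun z hz1 hz2 => ?_⟩
    rw [hJ2 z hz1 hz2]
    congr 1
    rw [add_smul]
    abel

end Pool.Agent.TG

end

section

/-!
# TG XCirc: the circle mean of an analytic function is analytic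

`cm_analytic`.  PROOF.  By compactness of the circle there are `ρ > 0` and `M` such that `F` is analytic and `‖F‖ ≤ M` at the points `y + z • e`, `y ∈ ball y₀ (2 ρ)`, `‖z‖ = r` (the set where `F` is
analytic is open: `isOpen_analyticAt`; `generalized_tube_lemma` or `IsCompact.exists_cthickening_subset_open` for the compact set `{y₀ + z • e}`; `F` is bounded on a compact
neighbourhood).  So `‖cm F e r y‖ ≤ M` on `ball y₀ ρ` (`circleIntegral.norm_integral_le_of_norm_le_const`), and by `TN.osgood_pi` it is enough that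
`t ↦ cm F e r (y + t • Pi.single l 1)` is differentiable at `0` for `y ∈ ball y₀ ρ`: the circle integral is an interval integral over `θ`
(`circleIntegral`), use `hasDerivAt_integral_of_dominated_loc_of_deriv_le` (the derivative in `t` is `fderiv ℂ F (y + t • v + z • e) v`, continuous in `(t, θ)` and bounded on a
smaller ball since `F` is analytic near the compact set).
-/

set_option autoImplicit false

open Topology Filter Metric MeasureTheory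

namespace Pool.Agent.TG

open Pool.Agent.AD (Vd)

theorem cm_bound {n : ℕ} {F : Vd n → ℂ} {e y : Vd n} {r C : ℝ} (hr : 0 < r) (h : ∀ z : ℂ, ‖z‖ = r → ‖F (y + z • e)‖ ≤ C) : ‖cm F e r y‖ ≤ C := by
  have h1 : ‖(2 * Real.pi * Complex.I : ℂ)⁻¹ • ∮ z in C(0, r), (z - 0)⁻¹ • F (y + z • e)‖ ≤ r * (r⁻¹ * C) := by
    refine circleIntegral.norm_two_pi_i_inv_smul_integral_le_of_norm_le_const hr.le ?_
    intro z hz
    have hz' : ‖z‖ = r := by simpa using hz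
    rw [norm_smul, sub_zero, norm_inv, hz']
    exact mul_le_mul_of_nonneg_left (h z hz') (inv_nonneg.2 hr.le)
  rw [← mul_assoc, mul_inv_cancel₀ hr.ne', one_mul] at h1
  exact h1

/-- the compact neighbourhood of the circle -/
private theorem xcirc_cpt {n : ℕ} {F : Vd n → ℂ} {e y₀ : Vd n} {r : ℝ} (h : ∀ z : ℂ, ‖z‖ = r → AnalyticAt ℂ F (y₀ + z • e)) :
    ∃ δ M M' : ℝ, 0 < δ ∧ ∀ y ∈ ball y₀ δ, ∀ z : ℂ, ‖z‖ = r →
      AnalyticAt ℂ F (y + z • e) ∧ ‖F (y + z • e)‖ ≤ M ∧ ‖fderiv ℂ F (y + z • e)‖ ≤ M' := by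
  set K : Set (Vd n) := (fun z : ℂ => y₀ + z • e) '' sphere (0 : ℂ) r with hK
  have hKc : IsCompact K := (isCompact_sphere (0 : ℂ) r).image (by fun_prop)
  have hU : IsOpen {x : Vd n | AnalyticAt ℂ F x} := isOpen_analyticAt ℂ F
  have hKU : K ⊆ {x : Vd n | AnalyticAt ℂ F x} := by
    rintro _ ⟨z, hz, rfl⟩
    exact h z (by simpa using hz)
  obtain ⟨δ, hδ, hsub⟩ := hKc.exists_cthickening_subset_open hU hKU
  have hTc : IsCompact (cthickening δ K) := hKc.cthickening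
  have hc1 : ContinuousOn F (cthickening δ K) := fun x hx => ((hsub hx : AnalyticAt ℂ F x).continuousAt).continuousWithinAt
  have hc2 : ContinuousOn (fderiv ℂ F) (cthickening δ K) := fun x hx => ((hsub hx : AnalyticAt ℂ F x).fderiv.continuousAt).continuousWithinAt
  obtain ⟨M, hM⟩ := hTc.exists_bound_of_continuousOn hc1
  obtain ⟨M', hM'⟩ := hTc.exists_bound_of_continuousOn hc2
  refine ⟨δ, M, M', hδ, ?_⟩
  intro y hy z hz
  have hmem : y + z • e ∈ cthickening δ K := by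
    refine mem_cthickening_of_dist_le (y + z • e) (y₀ + z • e) δ K ⟨z, by simpa using hz, rfl⟩ ?_
    rw [dist_add_right]
    exact (mem_ball.1 hy).le
  exact ⟨hsub hmem, hM _ hmem, hM' _ hmem⟩

theorem cm_analytic {n : ℕ} {F : Vd n → ℂ} {e y₀ : Vd n} {r : ℝ} (hr : 0 < r) (h : ∀ z : ℂ, ‖z‖ = r → AnalyticAt ℂ F (y₀ + z • e)) :
    AnalyticAt ℂ (cm F e r) y₀ := by
  obtain ⟨δ, M, M', hδ, hb⟩ := xcirc_cpt h
  refine Pool.Agent.TN.osgood_pi hδ (M := M) (fun y hy => cm_bound hr fun z hz => (hb y hy z hz).2.1) ?_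
  intro y hy l
  have hy' : dist y y₀ < δ := hy
  set v : Vd n := Pi.single l 1 with hv
  have hvn : ‖v‖ ≤ 1 := by
    rw [pi_norm_le_iff_of_nonneg zero_le_one]
    intro i
    by_cases hi : i = l
    · subst hi; simp [hv]
    · simp [hv, Pi.single_eq_of_ne hi]
  set s : ℝ := δ - dist y y₀ with hs
  have hs0 : 0 < s := by linarith
  have hin : ∀ t ∈ ball (0 : ℂ) s, y + t • v ∈ ball y₀ δ := by
    intro t ht
    have ht' : ‖t‖ < s := by simpa using ht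
    rw [mem_ball]
    have h1 : dist (y + t • v) y ≤ ‖t‖ := by
      rw [dist_eq_norm, add_sub_cancel_left, norm_smul]
      calc ‖t‖ * ‖v‖ ≤ ‖t‖ * 1 := mul_le_mul_of_nonneg_left hvn (norm_nonneg _)
        _ = ‖t‖ := mul_one _
    have h2 := dist_triangle (y + t • v) y y₀
    linarith
  have hcn : ∀ θ : ℝ, ‖circleMap 0 r θ‖ = r := fun θ => by rw [norm_circleMap_zero, abs_of_pos hr]
  have hcc : Continuous (fun θ : ℝ => circleMap (0 : ℂ) r θ) := continuous_circleMap 0 r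
  have hdc : Continuous (deriv (circleMap (0 : ℂ) r)) := by
    have e1 : deriv (circleMap (0 : ℂ) r) = fun θ => circleMap 0 r θ * Complex.I := by
      funext θ; exact deriv_circleMap 0 r θ
    rw [e1]
    exact (continuous_circleMap 0 r).mul continuous_const
  have hdn : ∀ θ : ℝ, ‖deriv (circleMap (0 : ℂ) r) θ‖ = r := by
    intro θ
    rw [deriv_circleMap, norm_mul, Complex.norm_I, mul_one, hcn]
  have hic : Continuous (fun θ : ℝ => (circleMap (0 : ℂ) r θ - 0)⁻¹) := by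
    refine Continuous.inv₀ (hcc.sub continuous_const) ?_
    intro θ h0
    have := hcn θ
    rw [sub_zero] at h0
    rw [h0, norm_zero] at this
    exact hr.ne this
  set g : ℂ → ℝ → ℂ := fun t θ => deriv (circleMap (0 : ℂ) r) θ • ((circleMap (0 : ℂ) r θ - 0)⁻¹ • F (y + t • v + circleMap (0 : ℂ) r θ • e)) with hg
  set g' : ℂ → ℝ → ℂ := fun t θ => deriv (circleMap (0 : ℂ) r) θ • ((circleMap (0 : ℂ) r θ - 0)⁻¹ • fderiv ℂ F (y + t • v + circleMap (0 : ℂ) r θ • e) v) with hg'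
  have hgc : ∀ t ∈ ball (0 : ℂ) s, Continuous (g t) := by
    intro t ht
    refine hdc.smul (hic.smul ?_)
    rw [continuous_iff_continuousAt]
    intro θ
    have h1 : ContinuousAt F (y + t • v + circleMap (0 : ℂ) r θ • e) := (hb _ (hin t ht) _ (hcn θ)).1.continuousAt
    exact ContinuousAt.comp (f := fun θ : ℝ => y + t • v + circleMap (0 : ℂ) r θ • e) h1 (continuous_const.add (hcc.smul continuous_const)).continuousAt
  have hgc' : ∀ t ∈ ball (0 : ℂ) s, Continuous (g' t) := by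
    intro t ht
    refine hdc.smul (hic.smul ?_)
    rw [continuous_iff_continuousAt]
    intro θ
    have h1 : ContinuousAt (fderiv ℂ F) (y + t • v + circleMap (0 : ℂ) r θ • e) := (hb _ (hin t ht) _ (hcn θ)).1.fderiv.continuousAt
    have h2 : ContinuousAt (fun θ : ℝ => fderiv ℂ F (y + t • v + circleMap (0 : ℂ) r θ • e)) θ :=
      ContinuousAt.comp (f := fun θ : ℝ => y + t • v + circleMap (0 : ℂ) r θ • e) h1 (continuous_const.add (hcc.smul continuous_const)).continuousAt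
    exact h2.clm_apply continuousAt_const
  have hb0 : ∀ θ : ℝ, ∀ t ∈ ball (0 : ℂ) s, ‖g' t θ‖ ≤ M' := by
    intro θ t ht
    have h1 : ‖fderiv ℂ F (y + t • v + circleMap (0 : ℂ) r θ • e) v‖ ≤ M' := by
      have h2 := (hb _ (hin t ht) _ (hcn θ)).2.2
      calc ‖fderiv ℂ F (y + t • v + circleMap (0 : ℂ) r θ • e) v‖ ≤ ‖fderiv ℂ F (y + t • v + circleMap (0 : ℂ) r θ • e)‖ * ‖v‖ := ContinuousLinearMap.le_opNorm _ _
        _ ≤ ‖fderiv ℂ F (y + t • v + circleMap (0 : ℂ) r θ • e)‖ * 1 := mul_le_mul_of_nonneg_left hvn (norm_nonneg _)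
        _ ≤ M' := by rw [mul_one]; exact h2
    rw [hg']
    show ‖deriv (circleMap (0 : ℂ) r) θ • ((circleMap (0 : ℂ) r θ - 0)⁻¹ • fderiv ℂ F (y + t • v + circleMap (0 : ℂ) r θ • e) v)‖ ≤ M'
    rw [norm_smul, norm_smul, hdn, norm_inv, sub_zero, hcn, ← mul_assoc, mul_inv_cancel₀ hr.ne', one_mul]
    exact h1
  have hdiff : ∀ θ : ℝ, ∀ t ∈ ball (0 : ℂ) s, HasDerivAt (fun t => g t θ) (g' t θ) t := by
    intro θ t ht
    have h1 : HasFDerivAt F (fderiv ℂ F (y + t • v + circleMap (0 : ℂ) r θ • e)) (y + t • v + circleMap (0 : ℂ) r θ • e) :=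
      (hb _ (hin t ht) _ (hcn θ)).1.differentiableAt.hasFDerivAt
    have h2 : HasDerivAt (fun t : ℂ => y + t • v + circleMap (0 : ℂ) r θ • e) v t := by
      have h3 : HasDerivAt (fun t : ℂ => t • v) ((1 : ℂ) • v) t := (hasDerivAt_id t).smul_const v
      rw [one_smul] at h3
      exact (h3.const_add y).add_const _
    have h4 : HasDerivAt (fun t : ℂ => F (y + t • v + circleMap (0 : ℂ) r θ • e)) (fderiv ℂ F (y + t • v + circleMap (0 : ℂ) r θ • e) v) t :=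
      HasFDerivAt.comp_hasDerivAt t h1 h2
    have h5 := (h4.const_smul ((circleMap (0 : ℂ) r θ - 0)⁻¹ : ℂ)).const_smul (deriv (circleMap (0 : ℂ) r) θ : ℂ)
    exact h5
  have hmain := intervalIntegral.hasDerivAt_integral_of_dominated_loc_of_deriv_le (μ := volume) (a := 0) (b := 2 * Real.pi) (F := g) (F' := g') (x₀ := (0 : ℂ))
    (s := ball (0 : ℂ) s) (bound := fun _ => M') (ball_mem_nhds 0 hs0)
    (by filter_upwards [ball_mem_nhds (0 : ℂ) hs0] with t ht; exact (hgc t ht).aestronglyMeasurable)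
    ((hgc 0 (mem_ball_self hs0)).intervalIntegrable _ _)
    (hgc' 0 (mem_ball_self hs0)).aestronglyMeasurable
    (Eventually.of_forall fun θ _ t ht => hb0 θ t ht)
    (continuous_const.intervalIntegrable _ _)
    (Eventually.of_forall fun θ _ t ht => hdiff θ t ht)
  have hfin := (hmain.2.const_smul ((2 * Real.pi * Complex.I : ℂ)⁻¹)).differentiableAt
  exact hfin

end Pool.Agent.TG

end

section

/-!
# TG XLoc: the integral is equal to its circle means near a point, with uniform constants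
-/

set_option autoImplicit false

open Topology Filter Metric MeasureTheory

namespace Pool.Agent.TG

open Pool.Agent.AD (Vd)

variable {k : ℕ} {Γ : AddSubgroup (Vd (k + 1))} {D : Set (Vd (k + 1))} {Tr : Vd (k + 1) → Vd (k + 1) → Prop} {P : Type} {dd : P → Vd (k + 1) → ℝ}
  {J : P → Vd (k + 1) → ℂ}

/-- on one small ball -/
private theorem loc_ball (h : PairData Γ D Tr dd J) {e y₀ y₁ : Vd (k + 1)} {r c ρ d₂ : ℝ} (he0 : e ≠ 0) (he : ‖e‖ ≤ 1) (hr : 0 < r) (hr1 : r < 1) (hc : 0 < c)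
    (hρ : 0 < ρ) (hρ1 : ρ < 1) (hcirc : ∀ y ∈ ball y₀ (4 * ρ), ∀ z : ℂ, ‖z‖ = r → y + z • e ∈ Gd D c) (hd₂ : 0 < d₂) (hy₁ : ‖y₁ - y₀‖ ≤ ρ)
    (hy₁D : y₁ ∈ Gd D d₂) : ∃ d ε : ℝ, 0 < d ∧ 0 < ε ∧ ∀ p, (∀ x ∈ Gd D d, ‖x - y₀‖ < 4 → dd p x ≤ ε) →
      ∀ y ∈ ball y₁ (min (d₂ / 2) ρ), cm (J p) e r y = J p y := by
  obtain ⟨β, hβ⟩ : ∃ β : Set (Vd (k + 1)), β = ball y₁ (min (d₂ / 2) ρ) := ⟨_, rfl⟩
  have hβG : ∀ y ∈ β, y ∈ Gd D (d₂ / 2) := by
    intro y hy b hb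
    rw [hβ, mem_ball, dist_eq_norm] at hy
    have h1 := hy₁D b hb
    have h2 : ‖y₁ - b‖ ≤ ‖y - b‖ + ‖y - y₁‖ := by
      have e1 : y₁ - b = (y - b) - (y - y₁) := by abel
      rw [e1]
      exact norm_sub_le _ _
    have h3 := hy.trans_le (min_le_left _ _)
    linarith
  have hβ0 : ∀ y ∈ β, ‖y - y₀‖ < 2 * ρ := by
    intro y hy
    rw [hβ, mem_ball, dist_eq_norm] at hy
    have h2 : ‖y - y₀‖ ≤ ‖y - y₁‖ + ‖y₁ - y₀‖ := by
      have e1 : y - y₀ = (y - y₁) + (y₁ - y₀) := by abel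
      rw [e1]
      exact norm_add_le _ _
    have h3 := hy.trans_le (min_le_right _ _)
    linarith
  have hβc : ∀ y ∈ β, ∀ z : ℂ, ‖z‖ = r → y + z • e ∈ Gd D c := by
    intro y hy z hz
    refine hcirc y ?_ z hz
    rw [mem_ball, dist_eq_norm]
    linarith [hβ0 y hy]
  obtain ⟨G, hG⟩ : ∃ G : ℕ → Set (Vd (k + 1)), ∀ m y, y ∈ G m ↔ y ∈ β ∧ ∀ p, (∀ x ∈ Gd D (1 / ((m : ℝ) + 1)), ‖x - y₀‖ < 4 → dd p x ≤ 1 / ((m : ℝ) + 1)) →
      cm (J p) e r y = J p y := ⟨fun m => {y | y ∈ β ∧ ∀ p, (∀ x ∈ Gd D (1 / ((m : ℝ) + 1)), ‖x - y₀‖ < 4 → dd p x ≤ 1 / ((m : ℝ) + 1)) →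
        cm (J p) e r y = J p y}, fun m y => Iff.rfl⟩
  obtain ⟨m, hm⟩ : ∃ m, volume (G m) ≠ 0 := by
    by_contra hcon
    push Not at hcon
    have h1 : volume (⋃ m, G m) = 0 := measure_iUnion_null hcon
    have h2 := h.ae_tr e he0
    have h3 : volume β = 0 := by
      refine measure_mono_null (t := (⋃ m, G m) ∪ {y | ¬ ∀ z : ℂ, y + z • e ∈ D → Tr (y + z • e) e}) ?_ (measure_union_null h1 h2)
      intro y hy
      by_cases hgood : ∀ z : ℂ, y + z • e ∈ D → Tr (y + z • e) e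
      · left
        obtain ⟨d', ε', hd', hε', hpt⟩ := h.point hr hr1 he (gdx_notMem (half_pos hd₂) (hβG y hy)) (fun z hz => gdx_notMem hc (hβc y hy z hz)) hgood
        obtain ⟨m, hm⟩ := exists_nat_one_div_lt (lt_min hd' hε')
        rw [Set.mem_iUnion]
        refine ⟨m, (hG m y).2 ⟨hy, fun p hp => hpt p fun x hx hxy => ?_⟩⟩
        refine (hp x (gdx_mono (hm.le.trans (min_le_left _ _)) hx) ?_).trans (hm.le.trans (min_le_right _ _))
        have e1 : x - y₀ = (x - y) + (y - y₀) := by abel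
        rw [e1]
        refine (norm_add_le _ _).trans_lt ?_
        linarith [hβ0 y hy]
      · right
        exact hgood
    have h4 : 0 < volume β := by
      rw [hβ]
      exact measure_ball_pos volume y₁ (lt_min (half_pos hd₂) hρ)
    rw [h3] at h4
    exact lt_irrefl _ h4
  obtain ⟨ε₁, C₁, hε₁, hhol₁⟩ := h.hol (d₂ / 2) (half_pos hd₂)
  obtain ⟨ε₂, C₂, hε₂, hhol₂⟩ := h.hol c hc
  have hm0 : (0 : ℝ) < 1 / ((m : ℝ) + 1) := by positivity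
  obtain ⟨d, hd⟩ : ∃ d : ℝ, d = min (1 / ((m : ℝ) + 1)) (min (d₂ / 2) c) := ⟨_, rfl⟩
  obtain ⟨ε, hε⟩ : ∃ ε : ℝ, ε = min (1 / ((m : ℝ) + 1)) (min ε₁ ε₂) := ⟨_, rfl⟩
  have hd1 : d ≤ 1 / ((m : ℝ) + 1) := by rw [hd]; exact min_le_left _ _
  have hd2 : d ≤ d₂ / 2 := by rw [hd]; exact (min_le_right _ _).trans (min_le_left _ _)
  have hd3 : d ≤ c := by rw [hd]; exact (min_le_right _ _).trans (min_le_right _ _)
  have he1 : ε ≤ 1 / ((m : ℝ) + 1) := by rw [hε]; exact min_le_left _ _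
  have he2 : ε ≤ ε₁ := by rw [hε]; exact (min_le_right _ _).trans (min_le_left _ _)
  have he3 : ε ≤ ε₂ := by rw [hε]; exact (min_le_right _ _).trans (min_le_right _ _)
  refine ⟨d, ε, ?_, ?_, fun p hp => ?_⟩
  · rw [hd]
    exact lt_min hm0 (lt_min (half_pos hd₂) hc)
  · rw [hε]
    exact lt_min hm0 (lt_min hε₁ hε₂)
  have hJ : ∀ y ∈ β, AnalyticAt ℂ (J p) y := by
    intro y hy
    refine (hhol₁ p y (hβG y hy) ((hp y (gdx_mono hd2 (hβG y hy)) ?_).trans he2)).1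
    linarith [hβ0 y hy]
  have hK : ∀ y ∈ β, AnalyticAt ℂ (cm (J p) e r) y := by
    intro y hy
    refine cm_analytic hr fun z hz => ?_
    have h1 := hβc y hy z hz
    refine (hhol₂ p _ h1 ((hp _ (gdx_mono hd3 h1) ?_).trans he3)).1
    have e1 : y + z • e - y₀ = (y - y₀) + z • e := by abel
    rw [e1]
    refine (norm_add_le _ _).trans_lt ?_
    have h2 := line_norm he z
    linarith [hβ0 y hy]
  have hzero := zero_of_volume (f := fun y => cm (J p) e r y - J p y) (U := β) (by rw [hβ]; exact isOpen_ball)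
    (by rw [hβ]; exact (convex_ball y₁ _).isPreconnected) (fun y hy => (hK y hy).sub (hJ y hy)) (by
      intro hcon
      apply hm
      refine measure_mono_null ?_ hcon
      intro y hy
      have h1 := (hG m y).1 hy
      refine ⟨h1.1, sub_eq_zero.2 (h1.2 p fun x hx hxy => (hp x (gdx_mono hd1 hx) hxy).trans he1)⟩)
  intro y hy
  rw [← hβ] at hy
  exact sub_eq_zero.1 (hzero y hy)

theorem PairData.loc (h : PairData Γ D Tr dd J) {e y₀ : Vd (k + 1)} {r c ρ d₂ : ℝ} (he0 : e ≠ 0) (he : ‖e‖ ≤ 1) (hr : 0 < r) (hr1 : r < 1) (hc : 0 < c)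
    (hρ : 0 < ρ) (hρ1 : ρ < 1) (hcirc : ∀ y ∈ ball y₀ (4 * ρ), ∀ z : ℂ, ‖z‖ = r → y + z • e ∈ Gd D c) (hd₂ : 0 < d₂) :
    ∃ d ε : ℝ, 0 < d ∧ 0 < ε ∧ ∀ p, (∀ x ∈ Gd D d, ‖x - y₀‖ < 4 → dd p x ≤ ε) → ∀ y ∈ Gd D d₂, ‖y - y₀‖ ≤ ρ → cm (J p) e r y = J p y := by
  have hcpt : IsCompact (Gd D d₂ ∩ closedBall y₀ ρ) := (isCompact_closedBall y₀ ρ).inter_left (gdx_closed d₂)
  have key : ∀ y₁ ∈ Gd D d₂ ∩ closedBall y₀ ρ, ∃ d ε : ℝ, 0 < d ∧ 0 < ε ∧ ∀ p, (∀ x ∈ Gd D d, ‖x - y₀‖ < 4 → dd p x ≤ ε) →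
      ∀ y ∈ ball y₁ (min (d₂ / 2) ρ), cm (J p) e r y = J p y := by
    rintro y₁ ⟨h1, h2⟩
    rw [mem_closedBall, dist_eq_norm] at h2
    exact loc_ball h he0 he hr hr1 hc hρ hρ1 hcirc hd₂ h2 h1
  choose! d ε hd hε hcl using key
  obtain ⟨t, htC, hcov⟩ := hcpt.elim_nhds_subcover (fun y₁ => ball y₁ (min (d₂ / 2) ρ)) (fun y₁ _ => ball_mem_nhds y₁ (lt_min (half_pos hd₂) hρ))
  obtain ⟨δ, hδ, hδ1⟩ : ∃ δ : ℝ, 0 < δ ∧ ∀ y ∈ t, δ ≤ d y ∧ δ ≤ ε y := by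
    have hev : ∀ᶠ δ : ℝ in 𝓝[>] 0, ∀ y ∈ t, δ ≤ d y ∧ δ ≤ ε y := by
      rw [Filter.eventually_all_finset]
      intro y hy
      filter_upwards [nhdsWithin_le_nhds (Iic_mem_nhds (hd y (htC y hy))), nhdsWithin_le_nhds (Iic_mem_nhds (hε y (htC y hy)))] with δ h1 h2
      exact ⟨h1, h2⟩
    obtain ⟨δ, h1, h2⟩ := (hev.and self_mem_nhdsWithin).exists
    exact ⟨δ, h2, h1⟩
  refine ⟨δ, δ, hδ, hδ, fun p hp y hy hyρ => ?_⟩
  obtain ⟨y₁, hy₁, hy₁'⟩ := Set.mem_iUnion₂.mp (hcov ⟨hy, by rwa [mem_closedBall, dist_eq_norm]⟩)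
  exact hcl y₁ (htC y₁ hy₁) p (fun x hx hxy => (hp x (gdx_mono (hδ1 y₁ hy₁).1 hx) hxy).trans (hδ1 y₁ hy₁).2) y hy₁'

end Pool.Agent.TG

end

section

/-!
# TG XExt: the extension theorem
-/

set_option autoImplicit false

open Topology Filter Metric MeasureTheory

namespace Pool.Agent.TG

open Pool.Agent.AD (Vd)

variable {k : ℕ} {Γ : AddSubgroup (Vd (k + 1))} {D : Set (Vd (k + 1))} {Tr : Vd (k + 1) → Vd (k + 1) → Prop} {P : Type} {dd : P → Vd (k + 1) → ℝ}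
  {J : P → Vd (k + 1) → ℂ}

/-- `D` has no interior, uniformly -/
theorem PairData.thick (h : PairData Γ D Tr dd J) {η : ℝ} (hη : 0 < η) : ∃ d : ℝ, 0 < d ∧ ∀ y : Vd (k + 1), ∃ y' : Vd (k + 1), ‖y' - y‖ < η ∧ y' ∈ Gd D d := by
  obtain ⟨R, hR, hcpt⟩ := h.cpt
  have key : ∀ y : Vd (k + 1), ∃ (y' : Vd (k + 1)) (d : ℝ), ‖y' - y‖ < η / 2 ∧ 0 < d ∧ y' ∈ Gd D d := by
    intro y
    obtain ⟨y', hy', hyD⟩ : ∃ y' : Vd (k + 1), ‖y' - y‖ < η / 2 ∧ y' ∉ D := by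
      by_contra hcon
      push Not at hcon
      obtain ⟨g, _, hg1, hg2⟩ := h.thin y
      apply hg2
      filter_upwards [hg1, ball_mem_nhds y (half_pos hη)] with z hz1 hz2
      exact hz1 (hcon z (by rwa [mem_ball, dist_eq_norm] at hz2))
    obtain ⟨d, hd, hsub⟩ := gdx_compact h.D_closed (isCompact_singleton (x := y')) (fun x hx => by rw [Set.mem_singleton_iff.1 hx]; exact hyD)
    exact ⟨y', d, hy', hd, hsub rfl⟩
  choose f d hf hd hfd using key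
  obtain ⟨t, -, hcov⟩ := (isCompact_closedBall (0 : Vd (k + 1)) R).elim_nhds_subcover (fun y => ball y (η / 2)) (fun y _ => ball_mem_nhds y (half_pos hη))
  obtain ⟨δ, hδ, hδ1⟩ : ∃ δ : ℝ, 0 < δ ∧ ∀ y ∈ t, δ ≤ d y := by
    have hev : ∀ᶠ δ : ℝ in 𝓝[>] 0, ∀ y ∈ t, δ ≤ d y := by
      rw [Filter.eventually_all_finset]
      intro y _
      exact nhdsWithin_le_nhds (Iic_mem_nhds (hd y))
    obtain ⟨δ, h1, h2⟩ := (hev.and self_mem_nhdsWithin).exists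
    exact ⟨δ, h2, h1⟩
  refine ⟨δ, hδ, fun y => ?_⟩
  obtain ⟨l, hl, hyl⟩ := hcpt y
  obtain ⟨y₁, hy₁, hy₁'⟩ := Set.mem_iUnion₂.mp (hcov (show y - l ∈ closedBall (0 : Vd (k + 1)) R by rwa [mem_closedBall, dist_zero_right]))
  rw [mem_ball, dist_eq_norm] at hy₁'
  refine ⟨f y₁ + l, ?_, (gdx_add h.D_inv hl).2 (gdx_mono (hδ1 y₁ hy₁) (hfd y₁))⟩
  have e1 : f y₁ + l - y = (f y₁ - y₁) - (y - l - y₁) := by abel
  rw [e1]
  refine (norm_sub_le _ _).trans_lt ?_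
  linarith [hf y₁]

/-- two analytic functions which are equal near a point of a convex set are equal on it -/
private theorem ext_unique {f g : Vd (k + 1) → ℂ} {U : Set (Vd (k + 1))} (hc : Convex ℝ U) (hf : ∀ y ∈ U, AnalyticAt ℂ f y)
    (hg : ∀ y ∈ U, AnalyticAt ℂ g y) {y₀ : Vd (k + 1)} (hy₀ : y₀ ∈ U) (h : ∀ᶠ y in 𝓝 y₀, f y = g y) : ∀ y ∈ U, f y = g y := by
  have h1 : AnalyticOnNhd ℂ f U := hf
  exact h1.eqOn_of_preconnected_of_eventuallyEq hg hc.isPreconnected hy₀ h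

theorem PairData.ext (h : PairData Γ D Tr dd J) : ∃ r₁ : ℝ, 0 < r₁ ∧ ∀ d₂ : ℝ, 0 < d₂ → ∃ d ε C : ℝ, 0 < d ∧ 0 < ε ∧ ∀ p, ∃ Jt : Vd (k + 1) → ℂ,
    ∀ y : Vd (k + 1), (∀ x ∈ Gd D d, ‖x - y‖ < r₁ → dd p x ≤ ε) → AnalyticAt ℂ Jt y ∧ ‖Jt y‖ ≤ C ∧ (y ∈ Gd D d₂ → Jt y = J p y) := by
  obtain ⟨R, hR, hcpt⟩ := h.cpt
  choose e r c ρ he0 he hr hr1 hc hρ hρ1 hcirc using exists_circle h.D_closed h.thin
  obtain ⟨t, -, hcov⟩ := (isCompact_closedBall (0 : Vd (k + 1)) R).elim_nhds_subcover (fun y => ball y (ρ y / 2))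
    (fun y _ => ball_mem_nhds y (half_pos (hρ y)))
  obtain ⟨ρ₀, hρ₀, hρ₀1⟩ : ∃ ρ₀ : ℝ, 0 < ρ₀ ∧ ∀ y ∈ t, ρ₀ ≤ ρ y / 2 := by
    have hev : ∀ᶠ δ : ℝ in 𝓝[>] 0, ∀ y ∈ t, δ ≤ ρ y / 2 := by
      rw [Filter.eventually_all_finset]
      intro y _
      exact nhdsWithin_le_nhds (Iic_mem_nhds (half_pos (hρ y)))
    obtain ⟨δ, h1, h2⟩ := (hev.and self_mem_nhdsWithin).exists
    exact ⟨δ, h2, h1⟩
  -- the centre of a point
  have hcen : ∀ y : Vd (k + 1), ∃ y₀ ∈ t, ∃ l ∈ Γ, ‖y - l - y₀‖ < ρ y₀ / 2 := by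
    intro y
    obtain ⟨l, hl, hyl⟩ := hcpt y
    obtain ⟨y₁, hy₁, hy₁'⟩ := Set.mem_iUnion₂.mp (hcov (show y - l ∈ closedBall (0 : Vd (k + 1)) R by rwa [mem_closedBall, dist_zero_right]))
    rw [mem_ball, dist_eq_norm] at hy₁'
    exact ⟨y₁, hy₁, l, hl, hy₁'⟩
  choose cen hcent L hL hcenL using hcen
  obtain ⟨d₃, hd₃, hthick⟩ := h.thick (half_pos hρ₀)
  refine ⟨6, by norm_num, fun d₂ hd₂ => ?_⟩
  obtain ⟨d₄, hd₄, hd₄2, hd₄3⟩ : ∃ d₄ : ℝ, 0 < d₄ ∧ d₄ ≤ d₂ ∧ d₄ ≤ d₃ / 2 := ⟨min d₂ (d₃ / 2), lt_min hd₂ (half_pos hd₃), min_le_left _ _, min_le_right _ _⟩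
  choose dl εl hdl hεl hloc using fun y₀ : Vd (k + 1) => h.loc (he0 y₀) (he y₀) (hr y₀) (hr1 y₀) (hc y₀) (hρ y₀) (hρ1 y₀) (hcirc y₀) hd₄
  choose εc Cc hεc hhol using fun y₀ : Vd (k + 1) => h.hol (c y₀) (hc y₀)
  obtain ⟨δ, hδ, hδ1⟩ : ∃ δ : ℝ, 0 < δ ∧ ∀ y ∈ t, δ ≤ dl y ∧ δ ≤ εl y ∧ δ ≤ c y ∧ δ ≤ εc y := by
    have hev : ∀ᶠ δ : ℝ in 𝓝[>] 0, ∀ y ∈ t, δ ≤ dl y ∧ δ ≤ εl y ∧ δ ≤ c y ∧ δ ≤ εc y := by
      rw [Filter.eventually_all_finset]
      intro y _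
      filter_upwards [nhdsWithin_le_nhds (Iic_mem_nhds (hdl y)), nhdsWithin_le_nhds (Iic_mem_nhds (hεl y)), nhdsWithin_le_nhds (Iic_mem_nhds (hc y)),
        nhdsWithin_le_nhds (Iic_mem_nhds (hεc y))] with δ h1 h2 h3 h4
      exact ⟨h1, h2, h3, h4⟩
    obtain ⟨δ, h1, h2⟩ := (hev.and self_mem_nhdsWithin).exists
    exact ⟨δ, h2, h1⟩
  refine ⟨δ, δ, ∑ y ∈ t, |Cc y|, hδ, hδ, fun p => ?_⟩
  -- the function near `y`
  have hK : ∀ y : Vd (k + 1), (∀ x ∈ Gd D δ, ‖x - y‖ < 5 → dd p x ≤ δ) → ∀ w : Vd (k + 1), ‖w - y‖ < ρ₀ →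
      AnalyticAt ℂ (cm (J p) (e (cen y)) (r (cen y))) w ∧ ‖cm (J p) (e (cen y)) (r (cen y)) w‖ ≤ ∑ y ∈ t, |Cc y| ∧
        (w ∈ Gd D d₄ → cm (J p) (e (cen y)) (r (cen y)) w = J p w) := by
    intro y hcl w hw
    have hct := hcent y
    obtain ⟨hδa, hδb, hδc, hδd⟩ := hδ1 _ hct
    obtain ⟨p', hp'1, hp'2⟩ := h.shift p (L y) (hL y)
    have hnw : ‖w - L y - cen y‖ < ρ (cen y) := by
      have e1 : w - L y - cen y = (w - y) + (y - L y - cen y) := by abel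
      rw [e1]
      refine (norm_add_le _ _).trans_lt ?_
      linarith [hcenL y, hρ₀1 _ hct]
    have hcl' : ∀ x ∈ Gd D δ, ‖x - cen y‖ < 4 → dd p' x ≤ δ := by
      intro x hx hxy
      rw [hp'1]
      refine hcl _ ((gdx_add h.D_inv (hL y)).2 hx) ?_
      have e1 : x + L y - y = (x - cen y) - (y - L y - cen y) := by abel
      rw [e1]
      refine (norm_sub_le _ _).trans_lt ?_
      linarith [hcenL y, hρ1 (cen y)]
    have hcmeq : cm (J p') (e (cen y)) (r (cen y)) (w - L y) = cm (J p) (e (cen y)) (r (cen y)) w := by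
      unfold cm
      congr 1
      refine circleIntegral.integral_congr (hr (cen y)).le fun z _ => ?_
      show (z - 0)⁻¹ • J p' (w - L y + z • e (cen y)) = (z - 0)⁻¹ • J p (w + z • e (cen y))
      rw [hp'2]
      congr 2
      abel
    have hpts : ∀ z : ℂ, ‖z‖ = r (cen y) → w + z • e (cen y) ∈ Gd D (c (cen y)) ∧ dd p (w + z • e (cen y)) ≤ εc (cen y) := by
      intro z hz
      have h1 : w - L y + z • e (cen y) ∈ Gd D (c (cen y)) := by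
        refine hcirc (cen y) _ ?_ z hz
        rw [mem_ball, dist_eq_norm]
        linarith [hρ (cen y)]
      have h2 : w + z • e (cen y) ∈ Gd D (c (cen y)) := by
        have h3 := (gdx_add h.D_inv (hL y)).2 h1
        have e1 : w - L y + z • e (cen y) + L y = w + z • e (cen y) := by abel
        rwa [e1] at h3
      refine ⟨h2, (hcl _ (gdx_mono hδc h2) ?_).trans hδd⟩
      have e1 : w + z • e (cen y) - y = (w - y) + z • e (cen y) := by abel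
      rw [e1]
      refine (norm_add_le _ _).trans_lt ?_
      have h3 := line_norm (he (cen y)) z
      have h4 := hρ₀1 _ hct
      linarith [hr1 (cen y), hρ1 (cen y)]
    refine ⟨cm_analytic (hr _) fun z hz => (hhol _ p _ (hpts z hz).1 (hpts z hz).2).1, ?_, fun hwD => ?_⟩
    · refine (cm_bound (hr _) fun z hz => (hhol _ p _ (hpts z hz).1 (hpts z hz).2).2).trans ?_
      refine (le_abs_self _).trans ?_
      exact Finset.single_le_sum (f := fun y => |Cc y|) (fun y _ => abs_nonneg _) hct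
    · rw [← hcmeq]
      have h1 := hloc (cen y) p' (fun x hx hxy => (hcl' x (gdx_mono hδa hx) hxy).trans hδb) (w - L y) (by
        have h2 := gdx_add h.D_inv (δ' := d₄) (z := w - L y) (hL y)
        rw [sub_add_cancel] at h2
        exact h2.1 hwD) hnw.le
      rw [h1, hp'2, sub_add_cancel]
  refine ⟨fun y => cm (J p) (e (cen y)) (r (cen y)) y, fun y hcl => ?_⟩
  have hcl5 : ∀ y' : Vd (k + 1), ‖y' - y‖ < 1 → ∀ x ∈ Gd D δ, ‖x - y'‖ < 5 → dd p x ≤ δ := by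
    intro y' hy' x hx hxy
    refine hcl x hx ?_
    have e1 : x - y = (x - y') + (y' - y) := by abel
    rw [e1]
    refine (norm_add_le _ _).trans_lt ?_
    linarith
  have hKy := hK y (hcl5 y (by rw [sub_self, norm_zero]; exact one_pos))
  have hyy : ‖y - y‖ < ρ₀ := by
    rw [sub_self, norm_zero]
    exact hρ₀
  have heq : ∀ᶠ y' in 𝓝 y, cm (J p) (e (cen y')) (r (cen y')) y' = cm (J p) (e (cen y)) (r (cen y)) y' := by
    filter_upwards [ball_mem_nhds y (half_pos hρ₀)] with y' hy'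
    rw [mem_ball, dist_eq_norm] at hy'
    have hρ01 : ρ₀ < 1 := by
      have := hρ₀1 _ (hcent y)
      linarith [hρ1 (cen y)]
    have hKy' := hK y' (hcl5 y' (by linarith))
    obtain ⟨y₂, hy₂1, hy₂2⟩ := hthick y'
    have hU : ∀ w ∈ ball y ρ₀ ∩ ball y' ρ₀, ‖w - y‖ < ρ₀ ∧ ‖w - y'‖ < ρ₀ := by
      rintro w ⟨h1, h2⟩
      rw [mem_ball, dist_eq_norm] at h1 h2
      exact ⟨h1, h2⟩
    have hy₂U : y₂ ∈ ball y ρ₀ ∩ ball y' ρ₀ := by
      refine ⟨?_, ?_⟩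
      · rw [mem_ball, dist_eq_norm]
        have e1 : y₂ - y = (y₂ - y') + (y' - y) := by abel
        rw [e1]
        refine (norm_add_le _ _).trans_lt ?_
        linarith
      · rw [mem_ball, dist_eq_norm]
        linarith
    refine ext_unique (U := ball y ρ₀ ∩ ball y' ρ₀) ((convex_ball y ρ₀).inter (convex_ball y' ρ₀)) (fun w hw => (hKy' w (hU w hw).2).1)
      (fun w hw => (hKy w (hU w hw).1).1) hy₂U ?_ y' ⟨?_, mem_ball_self hρ₀⟩
    · filter_upwards [(isOpen_ball.inter isOpen_ball).mem_nhds hy₂U, ball_mem_nhds y₂ (half_pos hd₃)] with w hw hw2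
      have hwD : w ∈ Gd D d₄ := by
        intro b hb
        rw [mem_ball, dist_eq_norm] at hw2
        have h1 := hy₂2 b hb
        have h2 : ‖y₂ - b‖ ≤ ‖w - b‖ + ‖w - y₂‖ := by
          have e1 : y₂ - b = (w - b) - (w - y₂) := by abel
          rw [e1]
          exact norm_sub_le _ _
        linarith
      rw [(hKy' w (hU w hw).2).2.2 hwD, (hKy w (hU w hw).1).2.2 hwD]
    · rw [mem_ball, dist_eq_norm]
      linarith
  refine ⟨?_, (hKy y hyy).2.1, fun hyD => (hKy y hyy).2.2 (gdx_mono hd₄2 hyD)⟩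
  exact (hKy y hyy).1.congr (heq.mono fun y' hy' => hy'.symm)

end Pool.Agent.TG

end

section

/-!
# TG XHs: the integral is `0` on a half space

`PairData.half_space`: a pair which is close on a half space has integral `0` on a smaller half space.  By `PairData.ext` the integral extends to a bounded analytic function `Jt` on the half space `Re w < t - c r₁`; by Liouville's
theorem it is constant on the hyperplanes `w = const`, so it is `α (w y)` with `α` a bounded holomorphic function on a half plane, with zeros at `w l`, `l ∈ Γ`.  These are relatively dense in `ℂ`, so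
`α = 0` (`dense_decay` on large discs).
-/

set_option autoImplicit false

open Topology Filter Metric MeasureTheory

namespace Pool.Agent.TG

open Pool.Agent.AD (Vd)

variable {k : ℕ} {Γ : AddSubgroup (Vd (k + 1))} {D : Set (Vd (k + 1))} {Tr : Vd (k + 1) → Vd (k + 1) → Prop} {P : Type} {dd : P → Vd (k + 1) → ℝ}
  {J : P → Vd (k + 1) → ℂ}

/-- a bounded holomorphic function on a half plane which vanishes on a relatively dense subgroup is `0` -/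
private theorem hs_plane {R₀ : ℝ} (hR₀ : 0 < R₀) : ∃ r₃ : ℝ, 0 < r₃ ∧ ∀ Γ : AddSubgroup ℂ, (∀ z : ℂ, ∃ l ∈ Γ, ‖z - l‖ ≤ R₀) →
    ∀ (α : ℂ → ℂ) (T C : ℝ), (∀ z : ℂ, z.re < T → DifferentiableAt ℂ α z ∧ ‖α z‖ ≤ C) → (∀ l ∈ Γ, l.re < T → α l = 0) → ∀ z : ℂ, z.re ≤ T - r₃ → α z = 0 := by
  obtain ⟨κ, r₀, hκ, hr₀, hdec⟩ := dense_decay hR₀
  refine ⟨r₀ + 1, by linarith, fun Γ hΓ α T C hα hl z hz => ?_⟩
  have key : ∀ s : ℕ, ‖α z‖ ≤ C * Real.exp (-κ * (2 * (s : ℝ) + 1)) := by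
    intro s
    have hs : (0 : ℝ) ≤ s := Nat.cast_nonneg s
    have hball : ∀ w ∈ ball (z - (s : ℂ)) ((s : ℝ) + r₀ + 1), w.re < T := by
      intro w hw
      rw [mem_ball, dist_eq_norm] at hw
      have h1 := (Complex.re_le_norm (w - (z - (s : ℂ)))).trans_lt hw
      simp only [Complex.sub_re, Complex.natCast_re] at h1
      linarith
    have hz' : z ∈ ball (z - (s : ℂ)) ((s : ℝ) + r₀ + 1) := by
      rw [mem_ball, dist_eq_norm, sub_sub_cancel, Complex.norm_natCast]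
      linarith
    have h1 := hdec Γ hΓ α (z - (s : ℂ)) ((s : ℝ) + r₀ + 1) C (by linarith) (fun w hw => (hα w (hball w hw)).1.differentiableWithinAt)
      (fun w hw => (hα w (hball w hw)).2) (fun l hlΓ hlb => hl l hlΓ (hball l hlb)) z hz'
    rw [sub_sub_cancel, Complex.norm_natCast] at h1
    have h2 : ((s : ℝ) + r₀ + 1 - r₀) ^ 2 - (s : ℝ) ^ 2 = 2 * (s : ℝ) + 1 := by ring
    rwa [h2] at h1
  have hlim : Tendsto (fun s : ℕ => C * Real.exp (-κ * (2 * (s : ℝ) + 1))) atTop (𝓝 (C * 0)) := by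
    refine Tendsto.const_mul C ?_
    refine Real.tendsto_exp_atBot.comp ?_
    have h1 : Tendsto (fun s : ℕ => 2 * (s : ℝ) + 1) atTop atTop :=
      tendsto_atTop_add_const_right _ _ (tendsto_natCast_atTop_atTop.const_mul_atTop two_pos)
    exact h1.const_mul_atTop_of_neg (by linarith)
  rw [mul_zero] at hlim
  exact norm_le_zero_iff.1 (ge_of_tendsto' hlim key)

theorem PairData.half_space (h : PairData Γ D Tr dd J) (h0 : (0 : Vd (k + 1)) ∉ D) (hz : ∀ p, ∀ l ∈ Γ, J p l = 0) {c : ℝ} (hc : 0 < c) {d₂ : ℝ} (hd₂ : 0 < d₂) :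
    ∃ d ε r₂ : ℝ, 0 < d ∧ 0 < ε ∧ 0 < r₂ ∧ ∀ (p : P) (w : Vd (k + 1) →ₗ[ℂ] ℂ) (v₀ : Vd (k + 1)) (t : ℝ), w v₀ = 1 → ‖v₀‖ ≤ 1 → (∀ y, ‖w y‖ ≤ c * ‖y‖) →
      (∀ x ∈ Gd D d, (w x).re ≤ t → dd p x ≤ ε) → ∀ y ∈ Gd D d₂, (w y).re ≤ t - r₂ → J p y = 0 := by
  obtain ⟨R, hR, hcpt⟩ := h.cpt
  obtain ⟨r₁, hr₁, hext⟩ := h.ext
  obtain ⟨d₀, hd₀, h0D⟩ := gdx_compact h.D_closed (isCompact_singleton (x := (0 : Vd (k + 1)))) (fun x hx => by rw [Set.mem_singleton_iff.1 hx]; exact h0)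
  have hΓD : ∀ l ∈ Γ, l ∈ Gd D d₀ := by
    intro l hl
    have h1 := (gdx_add h.D_inv (δ' := d₀) (z := (0 : Vd (k + 1))) hl).2 (h0D rfl)
    rwa [zero_add] at h1
  obtain ⟨d, ε, C, hd, hε, hJt⟩ := hext (min d₂ d₀) (lt_min hd₂ hd₀)
  obtain ⟨r₃, hr₃, hplane⟩ := hs_plane (R₀ := c * R) (by positivity)
  refine ⟨d, ε, c * r₁ + r₃ + 1, hd, hε, by positivity, fun p w v₀ t hwv hv₀ hwc hcl y hyD hyt => ?_⟩
  obtain ⟨Jt, hJ⟩ := hJt p
  have hH : ∀ y : Vd (k + 1), (w y).re < t - c * r₁ → AnalyticAt ℂ Jt y ∧ ‖Jt y‖ ≤ C ∧ (y ∈ Gd D (min d₂ d₀) → Jt y = J p y) := by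
    intro y hy
    refine hJ y fun x hx hxy => hcl x hx ?_
    have h1 : (w x).re = (w y).re + (w (x - y)).re := by
      rw [map_sub, Complex.sub_re]
      ring
    have h2 : (w (x - y)).re ≤ c * r₁ := (Complex.re_le_norm _).trans ((hwc _).trans (mul_le_mul_of_nonneg_left hxy.le hc.le))
    rw [h1]
    linarith
  -- the function on the line
  have hconst : ∀ y : Vd (k + 1), (w y).re < t - c * r₁ → Jt y = Jt (w y • v₀) := by
    intro y hy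
    have hw : ∀ z : ℂ, w (y + z • (w y • v₀ - y)) = w y := by
      intro z
      rw [map_add, map_smul, map_sub, map_smul, hwv, smul_eq_mul, smul_eq_mul, mul_one, sub_self, mul_zero, add_zero]
    have hd : Differentiable ℂ fun z : ℂ => Jt (y + z • (w y • v₀ - y)) := by
      intro z
      have h1 := (hH (y + z • (w y • v₀ - y)) (by rw [hw z]; exact hy)).1.differentiableAt
      have h2 : DifferentiableAt ℂ (fun z : ℂ => y + z • (w y • v₀ - y)) z := by fun_prop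
      exact h1.comp z h2
    have hb : Bornology.IsBounded (Set.range fun z : ℂ => Jt (y + z • (w y • v₀ - y))) := by
      refine (isBounded_iff_forall_norm_le).2 ⟨C, ?_⟩
      rintro _ ⟨z, rfl⟩
      exact (hH (y + z • (w y • v₀ - y)) (by rw [hw z]; exact hy)).2.1
    have h1 := hd.apply_eq_apply_of_bounded hb 0 1
    simp only [zero_smul, add_zero, one_smul, add_sub_cancel] at h1
    exact h1
  have hdense : ∀ z : ℂ, ∃ l ∈ Γ.map w.toAddMonoidHom, ‖z - l‖ ≤ c * R := by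
    intro z
    obtain ⟨l, hl, hzl⟩ := hcpt (z • v₀)
    refine ⟨w l, ⟨l, hl, rfl⟩, ?_⟩
    have h1 : z - w l = w (z • v₀ - l) := by
      rw [map_sub, map_smul, hwv, smul_eq_mul, mul_one]
    rw [h1]
    exact (hwc _).trans (mul_le_mul_of_nonneg_left hzl hc.le)
  have hvw : ∀ z : ℂ, w (z • v₀) = z := fun z => by rw [map_smul, hwv, smul_eq_mul, mul_one]
  have hα := hplane (Γ.map w.toAddMonoidHom) hdense (fun z => Jt (z • v₀)) (t - c * r₁) C (fun z hz => by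
    have h1 := hH (z • v₀) (by rw [hvw]; exact hz)
    refine ⟨?_, h1.2.1⟩
    have h2 : DifferentiableAt ℂ (fun z : ℂ => z • v₀) z := by fun_prop
    exact h1.1.differentiableAt.comp z h2) (by
    rintro _ ⟨l, hl, rfl⟩ hlt
    have hlt' : (w l).re < t - c * r₁ := hlt
    have h1 := hconst l hlt'
    have h2 := (hH l hlt').2.2 (gdx_mono (min_le_right _ _) (hΓD l hl))
    show Jt (w l • v₀) = 0
    rw [← h1, h2, hz p l hl]) (w y) (by linarith)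
  have h1 : (w y).re < t - c * r₁ := by linarith
  rw [← (hH y h1).2.2 (gdx_mono (min_le_left _ _) hyD), hconst y h1]
  exact hα

end Pool.Agent.TG

end

section

/-!
# TG XHi: the half spaces `Re ⟪ζ, y⟫ ≤ t`
-/

set_option autoImplicit false

open Topology Filter Metric MeasureTheory

namespace Pool.Agent.TG

open Pool.Agent.H36.BP (EN)
open Pool.Agent.AD (Vd)

variable {k : ℕ} {Γ : AddSubgroup (Vd (k + 1))} {D : Set (Vd (k + 1))} {Tr : Vd (k + 1) → Vd (k + 1) → Prop} {P : Type} {dd : P → Vd (k + 1) → ℝ}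
  {J : P → Vd (k + 1) → ℂ}

/-- the linear form `⟪ζ, y⟫` on `Vd (k + 1)` -/
noncomputable def iw (ζ : EN k) : Vd (k + 1) →ₗ[ℂ] ℂ where
  toFun := fun y => ∑ i, y i * (starRingEnd ℂ) (ζ i)
  map_add' := fun x y => by
    rw [← Finset.sum_add_distrib]
    exact Finset.sum_congr rfl fun i _ => by rw [Pi.add_apply]; ring
  map_smul' := fun c y => by
    rw [RingHom.id_apply, smul_eq_mul, Finset.mul_sum]
    exact Finset.sum_congr rfl fun i _ => by rw [Pi.smul_apply, smul_eq_mul]; ring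

theorem iw_eq (ζ : EN k) (y : EN k) : iw ζ (fun i => y i) = inner ℂ ζ y := by
  rw [PiLp.inner_apply]
  show ∑ i, y i * (starRingEnd ℂ) (ζ i) = ∑ i, inner ℂ (ζ i) (y i)
  exact Finset.sum_congr rfl fun i _ => by rw [RCLike.inner_apply]

theorem PairData.half_inner (h : PairData Γ D Tr dd J) (h0 : (0 : Vd (k + 1)) ∉ D) (hz : ∀ p, ∀ l ∈ Γ, J p l = 0) {d₂ : ℝ} (hd₂ : 0 < d₂) :
    ∃ d ε r₂ : ℝ, 0 < d ∧ 0 < ε ∧ 0 < r₂ ∧ ∀ (p : P) (ζ : EN k) (t : ℝ), ‖ζ‖ = 1 →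
      (∀ x ∈ Gd D d, (iw ζ x).re ≤ t → dd p x ≤ ε) → ∀ y ∈ Gd D d₂, (iw ζ y).re ≤ t - r₂ → J p y = 0 := by
  obtain ⟨d, ε, r₂, hd, hε, hr₂, hh⟩ := h.half_space h0 hz (c := (k : ℝ) + 1) (by positivity) hd₂
  refine ⟨d, ε, r₂, hd, hε, hr₂, fun p ζ t hζ hcl y hy hyt => ?_⟩
  have hζi : ∀ i, ‖ζ i‖ ≤ 1 := by
    intro i
    rw [← hζ]
    exact PiLp.norm_apply_le ζ i
  refine hh p (iw ζ) (fun i => ζ i) t ?_ ?_ ?_ hcl y hy hyt
  · rw [iw_eq, inner_self_eq_norm_sq_to_K, hζ]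
    norm_num
  · exact (pi_norm_le_iff_of_nonneg zero_le_one).2 hζi
  · intro y
    show ‖∑ i, y i * (starRingEnd ℂ) (ζ i)‖ ≤ _
    refine (norm_sum_le _ _).trans ?_
    have h1 : ∀ i ∈ Finset.univ, ‖y i * (starRingEnd ℂ) (ζ i)‖ ≤ ‖y‖ := by
      intro i _
      rw [norm_mul, RCLike.norm_conj]
      calc ‖y i‖ * ‖ζ i‖ ≤ ‖y‖ * 1 := mul_le_mul (norm_le_pi_norm y i) (hζi i) (norm_nonneg _) (norm_nonneg _)
        _ = ‖y‖ := mul_one _
    refine (Finset.sum_le_card_nsmul _ _ _ h1).trans (le_of_eq ?_)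
    rw [Finset.card_univ, Fintype.card_fin, nsmul_eq_mul]
    push_cast
    ring

end Pool.Agent.TG

end
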