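import Pool.Agent.H94.G4T.G3.Defs
import Pool.Agent.H94.G4T.H36.BP.WdA_1
import Pool.Agent.H94.G4T.M29
import Pool.Agent.H94.G4T.M63

/-! The parts of this file: H36.BP.ExtC, G3.Z.Mk, TG.DyC, TG.DyD, TG.DyE, TG.DyF, TG.SaDefs. -/

section

/-!
# BP ExtC: points where the metric is positive

Near `z`: `ρ(F w) ≠ 0` for `w ≠ z` (`ρ_zero`, `hB`), and `wd (F w) (deriv F w) ≠ 0` for `w ≠ z`: otherwise (frequently `0`) all minors `F_i F_j' - F_j F_i'` (holomorphic; they vanish where `F' = a F`, `wd_eq_zero`) vanish frequently, hence near `z`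
(`AnalyticAt.frequently_zero_iff_eventually_zero`), and then `wd = 0` near `z` (if all minors of `(x, v)` vanish and `x ≠ 0` then `v` is a multiple of `x`), against `hc`.  Now `lower`: `mt G F w ≥ ρ^M fs > 0`.
-/

set_option autoImplicit false

namespace Pool.Agent.H36.BP

open Filter Topology Metric

variable {N : ℕ}

variable {K B : Set (EN N)} {G : EN N → EN N → ℝ} {ρ : EN N → ℝ} {M : ℕ} {c₀ C : ℝ}

private theorem ExtC_proj {F : ℂ → EN N} {z : ℂ} (hF : AnalyticAt ℂ F z) (i : Fin (N + 1)) :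
    AnalyticAt ℂ (fun w => F w i) z :=
  (ContinuousLinearMap.analyticAt (EuclideanSpace.proj i : EN N →L[ℂ] ℂ) (F z)).comp hF

theorem exists_pos (hM : MetricData K B G ρ M c₀ C) {F : ℂ → EN N} {z : ℂ} (hF : AnalyticAt ℂ F z) (hK : ∀ᶠ w in 𝓝 z, F w ∈ K)
    (hB : ¬ ∀ᶠ w in 𝓝 z, F w ∈ B) (hc : ¬ ∀ᶠ w in 𝓝 z, wd (F w) (deriv F w) = 0) : ∀ᶠ w in 𝓝[≠] z, 0 < mt G F w := by
  have h1 : ∀ᶠ w in 𝓝[≠] z, ρ (F w) ≠ 0 := by
    by_contra h
    exact hB (hM.ρ_zero F z hF hK (by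
      rw [Filter.not_eventually] at h
      simpa using h))
  have h2 : ∀ᶠ w in 𝓝[≠] z, wd (F w) (deriv F w) ≠ 0 := by
    by_contra h
    rw [Filter.not_eventually] at h
    refine hc ?_
    have h3 : ∀ i j : Fin (N + 1),
        ∀ᶠ w in 𝓝 z, F w i * deriv F w j - F w j * deriv F w i = 0 := by
      intro i j
      have han : AnalyticAt ℂ (fun w => F w i * deriv F w j - F w j * deriv F w i) z :=
        ((ExtC_proj hF i).mul (ExtC_proj hF.deriv j)).sub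
          ((ExtC_proj hF j).mul (ExtC_proj hF.deriv i))
      refine (han.frequently_zero_iff_eventually_zero).1 ?_
      refine (h.and_eventually (hK.filter_mono nhdsWithin_le_nhds)).mono ?_
      rintro w ⟨hw1, hw2⟩
      rw [not_not, wd_eq_zero (hM.ne _ hw2)] at hw1
      obtain ⟨a, ha⟩ := hw1
      rw [ha]
      simp only [PiLp.smul_apply, smul_eq_mul]
      ring
    have h4 : ∀ᶠ w in 𝓝 z, ∀ i j : Fin (N + 1),
        F w i * deriv F w j - F w j * deriv F w i = 0 :=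
      Filter.eventually_all.2 fun i => Filter.eventually_all.2 fun j => h3 i j
    filter_upwards [h4, hK] with w hw1 hw2
    rw [wd_eq_zero (hM.ne _ hw2)]
    have h5 : ∃ i, F w i ≠ 0 := by
      by_contra h6
      rw [not_exists] at h6
      refine hM.ne _ hw2 (PiLp.ext fun i => ?_)
      exact not_not.1 (h6 i)
    obtain ⟨i, hi⟩ := h5
    refine ⟨deriv F w i / F w i, PiLp.ext fun j => ?_⟩
    rw [PiLp.smul_apply, smul_eq_mul]
    have h6 := hw1 i j
    field_simp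
    linear_combination h6
  filter_upwards [h1, h2, hK.filter_mono nhdsWithin_le_nhds] with w hw1 hw2 hw3
  have h3 : 0 < ρ (F w) := lt_of_le_of_ne (hM.ρ_nonneg _ hw3) (Ne.symm hw1)
  have h4 : 0 < wd (F w) (deriv F w) := lt_of_le_of_ne (wd_nonneg _ _) (Ne.symm hw2)
  have h5 : 0 < ‖F w‖ := norm_pos_iff.2 (hM.ne _ hw3)
  have h6 : 0 < fs (F w) (deriv F w) := div_pos h4 (pow_pos h5 2)
  exact (mul_pos (pow_pos h3 M) h6).trans_le (hM.lower _ hw3 _)

end Pool.Agent.H36.BP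

end

section

/-!
# G3 Z Mk: good points on a circle

Let `V = Lam - Lam (0) - log |E|` on the circle `‖z‖ = r` (`E` holomorphic without zeros on `ball 0 R`, `E 0 = 1`, so `circleAverage (log |E|) 0 r = 0`).  If `V ≥ -1` at the `Ok` points of the circle (all but finitely many
points: `Q ∘ F` and `p` have isolated zeros, `hP.isol`) and `circleAverage Lam ≤ Lam (0) + K`, then on every arc `A` (given by a nonempty open set `O` which meets the circle) there is an `Ok` point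
with `V ≤ K'`, where `K'` depends only on `K`, `r`, `O`.
Plan: `circleAverage V ≤ K`, `V + 1 ≥ 0` almost everywhere; the set of angles `θ ∈ [0, 2π]` with `r e^{iθ} ∈ O` has measure `κ > 0`; if `V > K'` on all `Ok` points of it then
`2π (K + 1) ≥ κ (K' + 1)`.
-/

set_option autoImplicit false

open Topology Filter Metric

namespace Pool.Agent.G3

open Pool.Agent.H36.BP (EN fs wd Sub)
open Pool.Agent.H14.PP (IsCone CurveAt Tan)
open Pool.Agent.H62.EF (MN pr)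
open Pool.Agent.AD (Vd Chart Charts)
open Pool.Agent.TG (TMap Gd)

variable {N k : ℕ} {X : Set (EN N)} {Λ : AddSubgroup (Vd (k + 1))} {u : EN N → Vd (k + 1)} {D B : Set (Vd (k + 1))} {p : EN N → EN N → ℝ} {m d : ℕ} {C : ℝ}
  {Q : EN N → ℂ} {S : Set (Vd (k + 1) → MN N)}

/-- the mean of a continuous bump function near a point of the circle is positive -/
private theorem ZMk_bump {r : ℝ} (hr : 0 < r) {O : Set ℂ} (hO : IsOpen O) (hOr : ∃ z ∈ O, ‖z‖ = r) :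
    ∃ φ : ℂ → ℝ, Continuous φ ∧ (∀ z, 0 ≤ φ z) ∧ (∀ z, φ z ≤ 1) ∧ (∀ z, z ∉ O → φ z = 0) ∧ 0 < Real.circleAverage φ 0 r := by
  obtain ⟨z₀, hz₀, hn⟩ := hOr
  obtain ⟨ε, hε, hb⟩ := Metric.isOpen_iff.1 hO z₀ hz₀
  set φ : ℂ → ℝ := fun z => max 0 (1 - dist z z₀ / ε) with hφ
  have hφc : Continuous φ := by
    simp only [hφ]
    fun_prop
  have hφ0 : ∀ z, 0 ≤ φ z := fun z => le_max_left _ _
  refine ⟨φ, hφc, hφ0, ?_, ?_, ?_⟩
  · intro z
    simp only [hφ]
    apply max_le zero_le_one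
    have : 0 ≤ dist z z₀ / ε := by positivity
    linarith
  · intro z hz
    simp only [hφ]
    apply max_eq_left
    have h1 : ε ≤ dist z z₀ := by
      by_contra h2
      exact hz (hb (mem_ball.2 (not_le.1 h2)))
    have h2 : 1 ≤ dist z z₀ / ε := (one_le_div hε).2 h1
    linarith
  · rw [Real.circleAverage_def, smul_eq_mul]
    apply mul_pos (by positivity)
    apply intervalIntegral.integral_pos (by positivity)
    · exact (hφc.comp (continuous_circleMap 0 r)).continuousOn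
    · intro θ _
      exact hφ0 _
    · have h1 : z₀ ∈ sphere (0 : ℂ) |r| := by
        rw [abs_of_pos hr]
        simpa using hn
      rw [← image_circleMap_Ioc] at h1
      obtain ⟨θ, hθ, hθz⟩ := h1
      refine ⟨θ, Set.Ioc_subset_Icc_self hθ, ?_⟩
      rw [hθz]
      simp [hφ]

/-- the mean of `log |E|` for a function without zeros -/
private theorem ZMk_mean {r R : ℝ} (hr : 0 < r) (hR : r < R) {E : ℂ → ℂ} (hE : DifferentiableOn ℂ E (ball 0 R)) (hE0 : ∀ z ∈ ball (0 : ℂ) R, E z ≠ 0)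
    (h1 : E 0 = 1) : CircleIntegrable (fun z => Real.log ‖E z‖) 0 r ∧ Real.circleAverage (fun z => Real.log ‖E z‖) 0 r = 0 := by
  have hs : sphere (0 : ℂ) r ⊆ ball 0 R := sphere_subset_closedBall.trans (closedBall_subset_ball hR)
  refine ⟨?_, ?_⟩
  · apply ContinuousOn.circleIntegrable hr.le
    exact ((hE.continuousOn.mono hs).norm).log fun z hz => norm_ne_zero_iff.2 (hE0 z (hs hz))
  · rw [InnerProductSpace.HarmonicOnNhd.circleAverage_eq]
    · simp [h1]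
    · intro z hz
      rw [abs_of_pos hr] at hz
      have hzb : z ∈ ball (0 : ℂ) R := closedBall_subset_ball hR hz
      exact AnalyticAt.harmonicAt_log_norm (hE.analyticAt (isOpen_ball.mem_nhds hzb)) (hE0 z hzb)

/-- all points of a circle but finitely many are `Ok` -/
private theorem ZMk_ok (hP : PS X Λ u D p m C) (hQ : QD X Λ u D Q d) {r R : ℝ} (hr : 0 < r) (hR : r < R) {F : ℂ → EN N} {h : ℂ → Vd (k + 1)}
    (hF : Cv X Λ u (ball 0 R) F h) (hOk : Ok Q p F 0) : {w | Ok Q p F w} ∈ codiscreteWithin (sphere (0 : ℂ) |r|) := by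
  have h0m : (0 : ℂ) ∈ ball (0 : ℂ) R := mem_ball_self (hr.trans hR)
  have hs : sphere (0 : ℂ) r ⊆ ball 0 R := sphere_subset_closedBall.trans (closedBall_subset_ball hR)
  obtain ⟨hQ0, hp0⟩ := hOk
  have hana : AnalyticOnNhd ℂ (fun z => Q (F z)) (ball 0 R) := by
    intro z hz
    have h1 : DifferentiableOn ℂ (fun z => Q (F z)) (ball 0 R) := hQ.diff.comp_differentiableOn hF.F_diff
    exact h1.analyticAt (isOpen_ball.mem_nhds hz)
  rw [mem_codiscreteWithin_iff_forall_mem_nhdsNE]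
  intro z hz
  rw [abs_of_pos hr] at hz
  have h1 := hP.isol _ F h isOpen_ball hF (convex_ball 0 R).isPreconnected ⟨0, h0m, hp0⟩ z (hs hz)
  have h2 : ∀ᶠ w in 𝓝[≠] z, Q (F w) ≠ 0 := by
    rcases (hana z (hs hz)).eventually_eq_zero_or_eventually_ne_zero with h3 | h3
    · exfalso
      apply hQ0
      exact hana.eqOn_zero_of_preconnected_of_eventuallyEq_zero (convex_ball 0 R).isPreconnected (hs hz) h3 h0m
    · exact h3
  filter_upwards [h1, h2] with w hw hw2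
  exact Or.inl ⟨hw2, hw⟩

theorem exists_good (hX : IsCone X) (hP : PS X Λ u D p m C) (hQ : QD X Λ u D Q d) {r R K : ℝ} (hr : 0 < r) (hR : r < R) {O : Set ℂ} (hO : IsOpen O) (hOr : ∃ z ∈ O, ‖z‖ = r) :
    ∃ K' : ℝ, ∀ (F : ℂ → EN N) (h : ℂ → Vd (k + 1)) (E : ℂ → ℂ), Cv X Λ u (ball 0 R) F h → Ok Q p F 0 → DifferentiableOn ℂ E (ball 0 R) → (∀ z ∈ ball (0 : ℂ) R, E z ≠ 0) → E 0 = 1 →
      CircleIntegrable (Lam Q d p m F h) 0 r → Real.circleAverage (Lam Q d p m F h) 0 r ≤ Lam Q d p m F h 0 + K →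
      (∀ z, ‖z‖ = r → Ok Q p F z → Lam Q d p m F h 0 + Real.log ‖E z‖ - 1 ≤ Lam Q d p m F h z) →
      ∃ z ∈ O, ‖z‖ = r ∧ Ok Q p F z ∧ Lam Q d p m F h z ≤ Lam Q d p m F h 0 + Real.log ‖E z‖ + K' := by
  classical
  obtain ⟨φ, hφc, hφ0, hφ1, hφO, hφa⟩ := ZMk_bump hr hO hOr
  set κ : ℝ := Real.circleAverage φ 0 r with hκ
  refine ⟨(|K| + 2) / κ, ?_⟩
  intro F h E hF hOk hE hE0 hE1 hint hav hlow
  by_contra hcon
  push Not at hcon
  have hr' : |r| = r := abs_of_pos hr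
  set K' : ℝ := (|K| + 2) / κ with hK'
  have hK'0 : 0 ≤ K' := by positivity
  obtain ⟨hEi, hEa⟩ := ZMk_mean hr hR hE hE0 hE1
  set L : ℝ := Lam Q d p m F h 0 with hL
  -- the function `V`
  set V : ℂ → ℝ := fun z => Lam Q d p m F h z - Real.log ‖E z‖ with hV
  have hVi : CircleIntegrable V 0 r := hint.sub hEi
  have hVa : Real.circleAverage V 0 r ≤ L + K := by
    rw [hV, Real.circleAverage_fun_sub hint hEi, hEa]
    linarith
  have hφi : CircleIntegrable φ 0 r := hφc.continuousOn.circleIntegrable hr.le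
  set W : ℂ → ℝ := fun z => (L - 1) + (K' + 1) • φ z with hW
  have hWi : CircleIntegrable W 0 r := (circleIntegrable_const _ 0 r).add hφi.const_smul
  have hWa : Real.circleAverage W 0 r = (L - 1) + (K' + 1) * κ := by
    have hφs : CircleIntegrable (fun z => (K' + 1) • φ z) 0 r := hφi.const_smul
    rw [hW, Real.circleAverage_fun_add (circleIntegrable_const _ 0 r) hφs, Real.circleAverage_const, Real.circleAverage_fun_smul, smul_eq_mul]
  have hae := ZMk_ok hP hQ hr hR hF hOk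
  have hle : Real.circleAverage W 0 r ≤ Real.circleAverage V 0 r := by
    set V' : ℂ → ℝ := fun z => if Ok Q p F z then V z else W z with hV'
    have hEq : V =ᶠ[codiscreteWithin (sphere (0 : ℂ) |r|)] V' := by
      filter_upwards [hae] with w hw
      simp only [hV']
      rw [if_pos hw]
    rw [Real.circleAverage_congr_codiscreteWithin hEq hr.ne']
    refine Real.circleAverage_mono hWi (hVi.congr_codiscreteWithin hEq) ?_
    intro w hw
    rw [hr'] at hw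
    have hwn : ‖w‖ = r := by simpa using hw
    simp only [hV']
    split_ifs with hok
    · have h1 := hlow w hwn hok
      by_cases hwO : w ∈ O
      · have h2 := hcon w hwO hwn hok
        have h3 : (K' + 1) * φ w ≤ (K' + 1) * 1 := mul_le_mul_of_nonneg_left (hφ1 w) (by linarith)
        simp only [hW, hV, smul_eq_mul]
        linarith
      · simp only [hW, hV, smul_eq_mul, hφO w hwO, mul_zero]
        linarith
    · exact le_rfl
  rw [hWa] at hle
  have h5 : K' * κ = |K| + 2 := div_mul_cancel₀ _ hφa.ne'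
  have h6 : K ≤ |K| := le_abs_self K
  nlinarith [hφa]

end Pool.Agent.G3

end

section

/-!
# TG DyC: near pairs with `N = 0` are near a member of `ZS`

By contradiction: for every `n` there are `f_n, g_n ∈ S`, not in agreement, and `a_n`, with `dist (f_n z) (g_n z) ≤ 1/(n+1)` for
`z ∈ G`, `‖z - a_n‖ ≤ n`, and `N z (f_n z) (g_n z) = 0` for `z ∈ Gd D (2δ)`, `‖z - a_n‖ ≤ n`, but no `e ∈ ZS` is `ε'`-close to
both on `G ∩ closedBall a_n n₂`.  Translate by `l_n ∈ Λ`, `‖a_n - l_n‖ ≤ R`: `f'_n = f_n (· + l_n)`, `g'_n`.  Let `f ∈ S` be the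
limit of the `f'_n` along an ultrafilter `≤ atTop`; it is also the limit of the `g'_n` (a point `z ∉ D` is in `G'` for some `δ'`,
BUT closeness is known only on `G`: let `g ∈ S` be the limit of the `g'_n`; `f = g` on `G`, hence `Ag D f g` by `uniq`,
as `Gd D (2δ)` is nonempty and its points are interior points of `G`).  Claim `f ∈ ZS`: let `z ∈ Gd D (2δ)`.  By `exists_ne` choose
`w_n ∈ Gd D (2δ)`, `‖w_n - z‖ < 1/(n+1)`, `f'_n w_n ≠ g'_n w_n`; eventually `‖w_n + l_n - a_n‖ ≤ n`, so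
`N w_n (f'_n w_n) (g'_n w_n) = N (w_n + l_n) ... = 0` (`N_inv`); by `near`, `Zr z (f z)`.  By `unif`, for large `n`, `f'_n` and `g'_n` are
`ε'`-close to `f` on the points of `G` of norm `≤ n₂ + R`; so `e := f (· - l_n) ∈ ZS` is `ε'`-close to `f_n`, `g_n` at the points of
`G` with `‖z - a_n‖ ≤ n₂`: contradiction.
[If `Gd D (2δ)` were empty there is nothing to prove for the claim; nonempty: `b + 4δ` for `b ∈ B`, or `0` if `B = ∅`.]
-/

set_option autoImplicit false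
set_option linter.unusedSectionVars false

open Topology Filter Metric RealInnerProductSpace

namespace Pool.Agent.TG

variable {E : Type} [NormedAddCommGroup E] [InnerProductSpace ℝ E] [ProperSpace E]
variable {Y : Type} [MetricSpace Y] {K : Set Y} {Λ : AddSubgroup E} {D G O : Set E} {S : Set (E → Y)}
  {Zr : E → Y → Prop} {N : E → Y → Y → Prop}

theorem DynE.near_zs (h : DynE K Λ D G O S Zr N) {ε' : ℝ} (hε' : 0 < ε') (n₂ : ℝ) : ∃ ε₃ R₃ : ℝ, 0 < ε₃ ∧ 0 < R₃ ∧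
    ∀ f ∈ S, ∀ g ∈ S, ¬ Ag D f g → ∀ a : E, (∀ z ∈ G, ‖z - a‖ ≤ R₃ → dist (f z) (g z) ≤ ε₃) →
      (∀ z ∈ O, ‖z - a‖ ≤ R₃ → N z (f z) (g z)) →
      ∃ e ∈ ZS O S Zr, ∀ z ∈ G, ‖z - a‖ ≤ n₂ → dist (f z) (e z) ≤ ε' ∧ dist (g z) (e z) ≤ ε' := by
  by_contra hcon
  push Not at hcon
  choose f hf g hg hne a hcl hN hbad using fun n : ℕ =>
    hcon (1 / ((n : ℝ) + 1)) ((n : ℝ) + 1) (by positivity) (by positivity)
  obtain ⟨R, hR, hRl⟩ := h.cpt
  choose l hl hla using fun n => hRl (a n)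
  set 𝒰 : Ultrafilter ℕ := Filter.hyperfilter ℕ with h𝒰
  have hle : (𝒰 : Filter ℕ) ≤ atTop := by
    rw [h𝒰, ← Nat.cofinite_eq_atTop]
    exact Filter.hyperfilter_le_cofinite
  have hlarge : ∀ c : ℝ, ∀ᶠ n : ℕ in (𝒰 : Filter ℕ), c ≤ (n : ℝ) + 1 := by
    intro c
    have h1 : ∀ᶠ n : ℕ in atTop, c ≤ (n : ℝ) := tendsto_natCast_atTop_atTop.eventually_ge_atTop c
    filter_upwards [hle h1] with n hn
    linarith
  have hzero : Tendsto (fun n : ℕ => 1 / ((n : ℝ) + 1)) 𝒰 (𝓝 0) :=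
    Tendsto.mono_left (tendsto_one_div_add_atTop_nhds_zero_nat (𝕜 := ℝ)) hle
  set F : ℕ → E → Y := fun n z => f n (z + l n) with hFdef
  set H : ℕ → E → Y := fun n z => g n (z + l n) with hHdef
  have hFS : ∀ n, F n ∈ S := fun n => h.trans _ (hf n) _ (hl n)
  have hGS : ∀ n, H n ∈ S := fun n => h.trans _ (hg n) _ (hl n)
  have hFGne : ∀ n, ¬ Ag D (F n) (H n) := fun n hAg => hne n ((h.ag_trans (hl n)).mp hAg)
  obtain ⟨f₀, hf₀, hflim⟩ := h.exists_lim 𝒰 F (Filter.Eventually.of_forall hFS)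
  obtain ⟨g₀, hg₀, hglim⟩ := h.exists_lim 𝒰 H (Filter.Eventually.of_forall hGS)
  have hnorm : ∀ (z : E) (n : ℕ), ‖z + l n - a n‖ ≤ ‖z‖ + R := by
    intro z n
    have h1 : z + l n - a n = z - (a n - l n) := by abel
    rw [h1]
    exact (norm_sub_le _ _).trans (by linarith [hla n])
  -- the two limits agree
  have heq : ∀ z ∈ G, f₀ z = g₀ z := by
    intro z hz
    have hzB : z ∉ D := h.G_D z hz
    have h1 : Tendsto (fun n => dist (F n z) (H n z)) 𝒰 (𝓝 (dist (f₀ z) (g₀ z))) := (hflim z hzB).dist (hglim z hzB)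
    have h2 : Tendsto (fun n => dist (F n z) (H n z)) 𝒰 (𝓝 0) := by
      refine squeeze_zero' (Filter.Eventually.of_forall fun n => dist_nonneg) ?_ hzero
      filter_upwards [hlarge (‖z‖ + R)] with n hn
      exact hcl n (z + l n) ((h.g_add (hl n)).mpr hz) ((hnorm z n).trans hn)
    exact dist_eq_zero.mp (tendsto_nhds_unique h1 h2)
  have hAg : Ag D f₀ g₀ := by
    obtain ⟨z₀, hz₀⟩ := h.O_ne
    refine h.uniq f₀ hf₀ g₀ hg₀ z₀ (h.o_notMem hz₀) ?_
    filter_upwards [h.O_open.mem_nhds hz₀] with z hz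
    exact heq z (h.O_sub hz)
  have hGlim : ∀ z, z ∉ D → Tendsto (fun n => H n z) 𝒰 (𝓝 (f₀ z)) := by
    intro z hz
    rw [hAg z hz]
    exact hglim z hz
  -- the limit is in `ZS`
  have hZS : f₀ ∈ ZS O S Zr := by
    refine ⟨hf₀, fun z hz => ?_⟩
    choose w hw hwz hwne using fun n : ℕ =>
      h.exists_ne (hFS n) (hGS n) (hFGne n) hz (ε := 1 / ((n : ℝ) + 1)) (by positivity)
    have hwlim : Tendsto w 𝒰 (𝓝 z) := by
      rw [tendsto_iff_norm_sub_tendsto_zero]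
      exact squeeze_zero (fun n => norm_nonneg _) (fun n => (hwz n).le) hzero
    refine h.near 𝒰 F H w f₀ hf₀ z hz (Filter.Eventually.of_forall fun n => ⟨hFS n, hGS n⟩) hflim hGlim hwlim ?_
    filter_upwards [hlarge (1 + ‖z‖ + R)] with n hn
    refine ⟨hw n, hwne n, ?_⟩
    have h1 : ‖w n‖ ≤ 1 + ‖z‖ := by
      have h2 : ‖w n‖ ≤ ‖w n - z‖ + ‖z‖ := by
        have h3 : w n = (w n - z) + z := by abel
        calc ‖w n‖ = ‖(w n - z) + z‖ := by rw [← h3]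
          _ ≤ ‖w n - z‖ + ‖z‖ := norm_add_le _ _
      have h4 : 1 / ((n : ℝ) + 1) ≤ 1 := by
        rw [div_le_one (by positivity)]
        have : (0 : ℝ) ≤ (n : ℝ) := Nat.cast_nonneg n
        linarith
      linarith [hwz n]
    have h5 := hN n (w n + l n) ((h.o_add (hl n)).mpr (hw n)) ((hnorm (w n) n).trans (by linarith))
    rw [h.N_inv (w n) (l n) (hl n)] at h5
    exact h5
  -- the contradiction
  have hu1 := h.unif 𝒰 F (Filter.Eventually.of_forall hFS) hf₀ hflim (n₂ + R) ε' hε'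
  have hu2 := h.unif 𝒰 H (Filter.Eventually.of_forall hGS) hf₀ hGlim (n₂ + R) ε' hε'
  obtain ⟨n, hn1, hn2⟩ := (hu1.and hu2).exists
  have hneg : -l n ∈ Λ := Λ.neg_mem (hl n)
  obtain ⟨z, hz, hza, hzc⟩ := hbad n (fun z => f₀ (z + -l n)) (h.zs_trans hZS hneg)
  have h1 : z + -l n ∈ G := (h.g_add hneg).mpr hz
  have h2 : ‖z + -l n‖ ≤ n₂ + R := by
    have h3 : z + -l n = (z - a n) + (a n - l n) := by abel
    rw [h3]
    exact (norm_add_le _ _).trans (by linarith [hla n])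
  have h4 : z + -l n + l n = z := by abel
  have h5 := hn1 _ h1 h2
  have h6 := hn2 _ h1 h2
  simp only [hFdef, hHdef, h4] at h5 h6
  exact absurd (hzc h5.le) (not_lt.mpr h6.le)

end Pool.Agent.TG

end

section

/-!
# TG DyD: rigidity of the members of `ZS`

By contradiction: `e_n ∈ ZS`, `g_n ∈ S`, `a_n`, not `Ag D e_n g_n`, `dist (g_n z) (e_n z) ≤ 1/(n+1)` on `G ∩ closedBall a_n n` and
`N z (e_n z) (g_n z) = 0` on `Gd D (2δ) ∩ closedBall a_n n`.  Translate by `l_n`: `e'_n, g'_n`; limit `e` of the `e'_n`, `e ∈ ZS` (`zs_lim`),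
and `g'_n → e` on `G`.  By `unif` (for the `e'_n`) and `sep`: `e'_n` is `ε₁`-close to `e` on `G ∩ closedBall 0 n₁` for large `n`, so
`Ag D e'_n e`.  Let `z₀, r, ε` be from `iso e`.  For large `n`, `dist (g'_n z) (e z) ≤ 1/(n+1) < ε` for `z ∈ ball z₀ r` (there `e'_n z = e z`,
and `‖z + l_n - a_n‖ ≤ n`), and `N z (e z) (g'_n z) = N (z + l_n) (e_n (z + l_n)) (g_n (z + l_n)) = 0`.  So `g'_n z = e z = e'_n z` on `ball z₀ r`;
`uniq`: `Ag D g'_n e'_n`, so `Ag D e_n g_n`: contradiction.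
-/

set_option autoImplicit false
set_option linter.unusedSectionVars false

open Topology Filter Metric RealInnerProductSpace

namespace Pool.Agent.TG

variable {E : Type} [NormedAddCommGroup E] [InnerProductSpace ℝ E] [ProperSpace E]
variable {Y : Type} [MetricSpace Y] {K : Set Y} {Λ : AddSubgroup E} {D G O : Set E} {S : Set (E → Y)}
  {Zr : E → Y → Prop} {N : E → Y → Y → Prop}

theorem DynE.rigid (h : DynE K Λ D G O S Zr N) : ∃ ε₂ R₂ : ℝ, 0 < ε₂ ∧ 0 < R₂ ∧ ∀ e ∈ ZS O S Zr, ∀ g ∈ S, ∀ a : E,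
    (∀ z ∈ G, ‖z - a‖ ≤ R₂ → dist (g z) (e z) ≤ ε₂) → (∀ z ∈ O, ‖z - a‖ ≤ R₂ → N z (e z) (g z)) →
    Ag D e g := by
  by_contra hcon
  have hex : ∀ n : ℕ, ∃ e ∈ ZS O S Zr, ∃ g ∈ S, ∃ a : E,
      (∀ z ∈ G, ‖z - a‖ ≤ (n : ℝ) + 1 → dist (g z) (e z) ≤ 1 / ((n : ℝ) + 1)) ∧
      (∀ z ∈ O, ‖z - a‖ ≤ (n : ℝ) + 1 → N z (e z) (g z)) ∧ ¬ Ag D e g := by
    intro n
    by_contra hn
    refine hcon ⟨1 / ((n : ℝ) + 1), (n : ℝ) + 1, by positivity, by positivity, ?_⟩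
    intro e he g hg a h1 h2
    by_contra h3
    exact hn ⟨e, he, g, hg, a, h1, h2, h3⟩
  choose e he g hg a h1 h2 h3 using hex
  obtain ⟨RL, _, hRL⟩ := h.cpt
  have hex2 : ∀ n : ℕ, ∃ l ∈ Λ, ‖a n - l‖ ≤ RL := fun n => hRL (a n)
  choose l hl hal using hex2
  obtain ⟨𝒰, h𝒰⟩ : ∃ 𝒰 : Ultrafilter ℕ, (𝒰 : Filter ℕ) ≤ atTop := ⟨Ultrafilter.of atTop, Ultrafilter.of_le atTop⟩
  have he' : ∀ n, (fun z => e n (z + l n)) ∈ ZS O S Zr := fun n => h.zs_trans (he n) (hl n)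
  have hg' : ∀ n, (fun z => g n (z + l n)) ∈ S := fun n => h.trans _ (hg n) _ (hl n)
  obtain ⟨e₀, he₀S, he₀⟩ := h.exists_lim 𝒰 (fun n z => e n (z + l n)) (Eventually.of_forall fun n => (he' n).1)
  have he₀Z : e₀ ∈ ZS O S Zr := h.zs_lim 𝒰 (fun n z => e n (z + l n)) (Eventually.of_forall he') he₀
  obtain ⟨ε₁, n₁, hε₁, hn₁, hsep⟩ := h.sep
  obtain ⟨z₀, r, ε, hr, hε, hball, hiso⟩ := h.iso e₀ he₀S he₀Z.2
  have ev1 : ∀ᶠ n in (𝒰 : Filter ℕ), ∀ z ∈ G, ‖z‖ ≤ n₁ → dist (e n (z + l n)) (e₀ z) < ε₁ :=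
    h.unif 𝒰 (fun n z => e n (z + l n)) (Eventually.of_forall fun n => (he' n).1) he₀S he₀ n₁ ε₁ hε₁
  have hinv : Tendsto (fun n : ℕ => 1 / ((n : ℝ) + 1)) atTop (𝓝 0) := tendsto_one_div_add_atTop_nhds_zero_nat
  have ev2 : ∀ᶠ n : ℕ in (𝒰 : Filter ℕ), 1 / ((n : ℝ) + 1) < ε := (hinv.eventually_lt_const hε).filter_mono h𝒰
  have ev3 : ∀ᶠ n : ℕ in (𝒰 : Filter ℕ), ‖z₀‖ + r + RL ≤ (n : ℝ) + 1 := by
    have : Tendsto (fun n : ℕ => (n : ℝ) + 1) atTop atTop :=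
      tendsto_atTop_add_const_right _ _ tendsto_natCast_atTop_atTop
    exact (this.eventually_ge_atTop _).filter_mono h𝒰
  obtain ⟨n, hn1, hn2, hn3⟩ := (ev1.and (ev2.and ev3)).exists
  have hag : Ag D (fun z => e n (z + l n)) e₀ :=
    hsep _ (he' n) _ he₀Z 0 (fun z hz hz' => (hn1 z hz (by rwa [sub_zero] at hz')).le)
  have key : ∀ z ∈ ball z₀ r, g n (z + l n) = e n (z + l n) := by
    intro z hz
    have hzG := hball hz
    have hzG1 : z ∈ G := h.O_sub hzG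
    have hzB : z ∉ D := h.o_notMem hzG
    have hez : e n (z + l n) = e₀ z := hag z hzB
    have hz' : ‖z - z₀‖ < r := by rwa [mem_ball, dist_eq_norm] at hz
    have hnorm : ‖z + l n - a n‖ ≤ (n : ℝ) + 1 := by
      calc ‖z + l n - a n‖ = ‖(z - z₀) + z₀ - (a n - l n)‖ := by
            congr 1
            abel
        _ ≤ ‖(z - z₀) + z₀‖ + ‖a n - l n‖ := norm_sub_le _ _
        _ ≤ ‖z - z₀‖ + ‖z₀‖ + ‖a n - l n‖ := by linarith [norm_add_le (z - z₀) z₀]
        _ ≤ (n : ℝ) + 1 := by linarith [hal n]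
    have hd := h1 n (z + l n) ((h.g_add (hl n)).2 hzG1) hnorm
    have hN := h2 n (z + l n) ((h.o_add (hl n)).2 hzG) hnorm
    rw [h.N_inv z (l n) (hl n)] at hN
    rw [hez] at hd hN ⊢
    exact hiso _ (hg' n) z hz (lt_of_le_of_lt hd hn2) (Or.inl hN)
  have hz₀B : z₀ ∉ D := h.o_notMem (hball (mem_ball_self hr))
  have hAg := h.uniq _ (he' n).1 _ (hg' n) z₀ hz₀B (mem_of_superset (ball_mem_nhds z₀ hr) fun z hz => (key z hz).symm)
  exact h3 n ((h.ag_trans (hl n)).1 hAg)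

end Pool.Agent.TG

end

section

/-!
# TG DyE: two members of `S` which are close on a half space agree

`chain`: a transitive relation which holds for pairs of points of a convex set of distance `≤ 1` holds for all pairs (subdivide).

`half_plane`: let `ε₁, n₁` be from `sep`, `ε₂, R₂` from `rigid`, `r', ε₀` from `half`; `ε' = min (min (ε₁/2) ε₂) ε₀`, `n₂ = n₁ + 1`;
`ε₃, R₃` from `near_zs ε' n₂`.  `ε* = min ε₃ ε₀`.  Let `f, g` be `ε*`-close on `G ∩ {⟪ζ, z⟫ ≤ t}` and suppose not `Ag D f g`.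
(1) `N z (f z) (g z)` for `z ∈ O`, `⟪ζ, z⟫ ≤ t - r'`.
(2) For every `a` in `H' = {⟪ζ, a⟫ ≤ t - r' - R₃}` there is `e_a ∈ ZS` with `f`, `g` `ε'`-close to `e_a` on `G ∩ closedBall a n₂`.
(3) for `a, a' ∈ H'`, `‖a - a'‖ ≤ 1`: `e_a`, `e_a'` are `2ε' ≤ ε₁`-close on `G ∩ closedBall a n₁`, so `Ag D e_a e_a'` (`sep`); by `chain` this
holds for all `a, a' ∈ H'`.  Fix `a₀ = (t - r' - R₃) ζ` and `e = e_{a₀}`.  So (take `a = z`) `f` and `g` are
`ε'`-close to `e` on `G ∩ H'`.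
(4) `half` for `(e, f)` and `(e, g)` on `H'`: `N z (e z) (f z)`, `N z (e z) (g z)` for `z ∈ O`, `⟪ζ, z⟫ ≤ t - 2r' - R₃`.
(5) `rigid` with `a = (t - 2r' - R₃ - R₂) ζ`: `Ag D e f` and `Ag D e g`.  So `Ag D f g`: contradiction.
-/

set_option autoImplicit false
set_option linter.unusedSectionVars false

open Topology Filter Metric RealInnerProductSpace

namespace Pool.Agent.TG

variable {E : Type} [NormedAddCommGroup E] [InnerProductSpace ℝ E] [ProperSpace E]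
variable {Y : Type} [MetricSpace Y] {K : Set Y} {Λ : AddSubgroup E} {D G O : Set E} {S : Set (E → Y)}
  {Zr : E → Y → Prop} {N : E → Y → Y → Prop}

theorem dyE_re {ζ : E} (hζ : ‖ζ‖ = 1) (z a : E) : ⟪ζ, z⟫ ≤ ⟪ζ, a⟫ + ‖z - a‖ := by
  have h1 : ⟪ζ, z⟫ = ⟪ζ, a⟫ + ⟪ζ, z - a⟫ := by
    rw [inner_sub_right]
    ring
  have h2 : ⟪ζ, z - a⟫ ≤ ‖z - a‖ := by
    refine (real_inner_le_norm _ _).trans ?_
    rw [hζ, one_mul]
  rw [h1]
  linarith

theorem dyE_mul {ζ : E} (hζ : ‖ζ‖ = 1) (s : ℝ) : ⟪ζ, s • ζ⟫ = s := by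
  rw [real_inner_smul_right, real_inner_self_eq_norm_sq, hζ]
  ring

theorem chain {H : Set E} (hH : Convex ℝ H) {r : E → E → Prop} (htr : ∀ a b c, r a b → r b c → r a c)
    (h1 : ∀ a ∈ H, ∀ b ∈ H, ‖a - b‖ ≤ 1 → r a b) {a b : E} (ha : a ∈ H) (hb : b ∈ H) : r a b := by
  obtain ⟨n, hn⟩ := exists_nat_ge ‖b - a‖
  have hn0 : (0 : ℝ) < (n : ℝ) + 1 := by positivity
  have hp : ∀ i : ℕ, i ≤ n + 1 → a + ((i : ℝ) / ((n : ℝ) + 1)) • (b - a) ∈ H := by
    intro i hi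
    have h2 : (i : ℝ) / ((n : ℝ) + 1) ≤ 1 := by
      rw [div_le_one hn0]
      exact_mod_cast hi
    have h3 : 0 ≤ (i : ℝ) / ((n : ℝ) + 1) := by positivity
    have h4 := hH ha hb (sub_nonneg.mpr h2) h3 (by ring)
    have h5 : a + ((i : ℝ) / ((n : ℝ) + 1)) • (b - a) =
        (1 - (i : ℝ) / ((n : ℝ) + 1)) • a + ((i : ℝ) / ((n : ℝ) + 1)) • b := by
      rw [smul_sub, sub_smul, one_smul]
      abel
    rw [h5]
    exact h4
  have key : ∀ i : ℕ, i ≤ n + 1 → r a (a + ((i : ℝ) / ((n : ℝ) + 1)) • (b - a)) := by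
    intro i
    induction i with
    | zero =>
      intro _
      have h2 : a + (((0 : ℕ) : ℝ) / ((n : ℝ) + 1)) • (b - a) = a := by simp
      rw [h2]
      refine h1 a ha a ha ?_
      rw [sub_self, norm_zero]
      exact zero_le_one
    | succ i ih =>
      intro hi
      refine htr _ _ _ (ih (by omega)) (h1 _ (hp i (by omega)) _ (hp (i + 1) hi) ?_)
      have h2 : a + ((i : ℝ) / ((n : ℝ) + 1)) • (b - a) - (a + (((i + 1 : ℕ) : ℝ) / ((n : ℝ) + 1)) • (b - a)) =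
          (-1 / ((n : ℝ) + 1)) • (b - a) := by
        rw [add_sub_add_left_eq_sub, ← sub_smul]
        congr 1
        push_cast
        ring
      rw [h2, norm_smul, Real.norm_eq_abs, abs_div, abs_neg, abs_one, abs_of_pos hn0,
        div_mul_eq_mul_div, one_mul, div_le_one hn0]
      linarith
  have h2 := key (n + 1) le_rfl
  have h3 : a + (((n + 1 : ℕ) : ℝ) / ((n : ℝ) + 1)) • (b - a) = b := by
    have h4 : (((n + 1 : ℕ) : ℝ) / ((n : ℝ) + 1)) = 1 := by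
      push_cast
      exact div_self hn0.ne'
    rw [h4, one_smul]
    abel
  rwa [h3] at h2

theorem DynE.half_plane (h : DynE K Λ D G O S Zr N) : ∃ ε : ℝ, 0 < ε ∧ ∀ f ∈ S, ∀ g ∈ S, ∀ (ζ : E) (t : ℝ), ‖ζ‖ = 1 →
    (∀ z ∈ G, ⟪ζ, z⟫ ≤ t → dist (f z) (g z) ≤ ε) → Ag D f g := by
  obtain ⟨ε₁, n₁, hε₁, hn₁, hsep⟩ := h.sep
  obtain ⟨ε₂, R₂, hε₂, hR₂, hrig⟩ := h.rigid
  obtain ⟨r', ε₀, hr', hε₀, hzero⟩ := h.half
  obtain ⟨ε', hε'def⟩ : ∃ ε' : ℝ, ε' = min (min (ε₁ / 2) ε₂) ε₀ := ⟨_, rfl⟩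
  have hε' : 0 < ε' := by
    rw [hε'def]
    exact lt_min (lt_min (by positivity) hε₂) hε₀
  have hε'1 : ε' ≤ ε₁ / 2 := by
    rw [hε'def]
    exact (min_le_left _ _).trans (min_le_left _ _)
  have hε'2 : ε' ≤ ε₂ := by
    rw [hε'def]
    exact (min_le_left _ _).trans (min_le_right _ _)
  have hε'0 : ε' ≤ ε₀ := by
    rw [hε'def]
    exact min_le_right _ _
  obtain ⟨ε₃, R₃, hε₃, hR₃, hnear⟩ := h.near_zs hε' (n₁ + 1)
  refine ⟨min ε₃ ε₀, lt_min hε₃ hε₀, ?_⟩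
  intro f hf g hg ζ t hζ hclose
  by_contra hag
  -- (1)
  have h1 : ∀ z ∈ O, ⟪ζ, z⟫ ≤ t - r' → N z (f z) (g z) :=
    hzero f hf g hg ζ t hζ (fun z hz hzt => (hclose z hz hzt).trans (min_le_right _ _))
  -- (2)
  have h2 : ∀ a : E, ⟪ζ, a⟫ ≤ t - r' - R₃ → ∃ e ∈ ZS O S Zr, ∀ z ∈ G,
      ‖z - a‖ ≤ n₁ + 1 → dist (f z) (e z) ≤ ε' ∧ dist (g z) (e z) ≤ ε' := by
    intro a ha
    refine hnear f hf g hg hag a ?_ ?_
    · intro z hz hza
      refine (hclose z hz ?_).trans (min_le_left _ _)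
      have := dyE_re hζ z a
      linarith
    · intro z hz hza
      refine h1 z hz ?_
      have := dyE_re hζ z a
      linarith
  have : Nonempty (E → Y) := ⟨f⟩
  choose! e heZ he using h2
  -- (3)
  have hconv : Convex ℝ {a : E | ⟪ζ, a⟫ ≤ t - r' - R₃} := by
    refine convex_halfSpace_le (f := fun a : E => ⟪ζ, a⟫) ?_ _
    refine IsLinearMap.mk (fun x y => ?_) (fun c x => ?_)
    · rw [inner_add_right]
    · rw [real_inner_smul_right, smul_eq_mul]
  have h3 : ∀ a b : E, ⟪ζ, a⟫ ≤ t - r' - R₃ → ⟪ζ, b⟫ ≤ t - r' - R₃ →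
      Ag D (e a) (e b) := by
    intro a b ha hb
    refine chain hconv (r := fun a b => Ag D (e a) (e b)) ?_ ?_ ha hb
    · intro a b c hab hbc z hz
      exact (hab z hz).trans (hbc z hz)
    · intro a ha b hb hab
      refine hsep _ (heZ a ha) _ (heZ b hb) a ?_
      intro z hz hza
      have h4 := (he a ha z hz (by linarith)).1
      have h5 : ‖z - b‖ ≤ n₁ + 1 := by
        have h6 : z - b = (z - a) + (a - b) := by abel
        rw [h6]
        refine (norm_add_le _ _).trans ?_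
        linarith
      have h7 := (he b hb z hz h5).1
      have h8 := dist_triangle_left (e a z) (e b z) (f z)
      linarith
  have ha₀ : ⟪ζ, (t - r' - R₃) • ζ⟫ ≤ t - r' - R₃ := (dyE_mul hζ _).le
  obtain ⟨E₁, hEdef⟩ : ∃ E₁, E₁ = e ((t - r' - R₃) • ζ) := ⟨_, rfl⟩
  have hEZ : E₁ ∈ ZS O S Zr := by
    rw [hEdef]
    exact heZ _ ha₀
  have h4 : ∀ z ∈ G, ⟪ζ, z⟫ ≤ t - r' - R₃ → dist (f z) (E₁ z) ≤ ε' ∧ dist (g z) (E₁ z) ≤ ε' := by
    intro z hz hzt
    have h5 := he z hzt z hz (by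
      rw [sub_self, norm_zero]
      linarith)
    have h6 := h3 z _ hzt ha₀ z (h.G_D z hz)
    rw [← hEdef] at h6
    rwa [h6] at h5
  -- (4)
  have h5 : ∀ z ∈ O, ⟪ζ, z⟫ ≤ t - r' - R₃ - r' → N z (E₁ z) (f z) :=
    hzero E₁ hEZ.1 f hf ζ (t - r' - R₃) hζ (fun z hz hzt => by
      rw [dist_comm]
      exact (h4 z hz hzt).1.trans hε'0)
  have h6 : ∀ z ∈ O, ⟪ζ, z⟫ ≤ t - r' - R₃ - r' → N z (E₁ z) (g z) :=
    hzero E₁ hEZ.1 g hg ζ (t - r' - R₃) hζ (fun z hz hzt => by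
      rw [dist_comm]
      exact (h4 z hz hzt).2.trans hε'0)
  -- (5)
  have hre : ∀ z : E, ‖z - (t - r' - R₃ - r' - R₂) • ζ‖ ≤ R₂ → ⟪ζ, z⟫ ≤ t - r' - R₃ - r' := by
    intro z hz
    have h7 := dyE_re hζ z ((t - r' - R₃ - r' - R₂) • ζ)
    rw [dyE_mul hζ] at h7
    linarith
  have h7 : Ag D E₁ f := hrig E₁ hEZ f hf ((t - r' - R₃ - r' - R₂) • ζ)
    (fun z hz hza => (h4 z hz (by linarith [hre z hza])).1.trans hε'2) (fun z hz hza => h5 z hz (hre z hza))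
  have h8 : Ag D E₁ g := hrig E₁ hEZ g hg ((t - r' - R₃ - r' - R₂) • ζ)
    (fun z hz hza => (h4 z hz (by linarith [hre z hza])).2.trans hε'2) (fun z hz hza => h6 z hz (hre z hza))
  exact hag fun z hz => (h7 z hz).symm.trans (h8 z hz)

end Pool.Agent.TG

end

section

/-!
# TG DyF: finiteness

Let `ε` be from `half_plane`.  Suppose the conclusion is false.
(1) There is a sequence `h_k ∈ S` with `¬ Ag D h_k h_j` for `k ≠ j` [`Ag D` is an equivalence relation: if the quotient of `S` is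
finite choose representatives, if it is infinite choose an injective sequence of classes and representatives].
(2) For every `n` there are `f_n, g_n ∈ S`, `¬ Ag D f_n g_n`, `dist (f_n z) (g_n z) ≤ ε` for `z ∈ G`, `‖z‖ ≤ n`: let `h ∈ S` be the limit
of `h_k` along a free ultrafilter; by `unif` the set of `k` with `dist (h_k z) (h z) < ε/2` on `G ∩ closedBall 0 n` is in the
ultrafilter, so it has two elements.
(3) Let `m_n ≥ n` be the least natural number such that `f_n, g_n` are not `ε`-close on `G ∩ closedBall 0 (m_n + 1)` [exists: otherwise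
they are `ε`-close on `G`, so `Ag D f_n g_n` by `half_plane` with any `ζ` and `t`]: there is `z_n ∈ G`, `m_n < ‖z_n‖ ≤ m_n + 1`,
`dist (f_n z_n) (g_n z_n) > ε`, and they are `ε`-close on `G ∩ closedBall 0 m_n`.
(4) `l_n ∈ Λ`, `‖z_n - l_n‖ ≤ R`; `f'_n = f_n (· + l_n)`, `g'_n`; ultrafilter `𝒰 ≤ atTop`; limits `f', g' ∈ S`; `w = lim (z_n - l_n)`,
`w ∈ G` (closed, invariant); by `tendsto_along` `dist (f' w) (g' w) ≥ ε`, so `¬ Ag D f' g'`.
(5) `ζ = lim l_n / ‖l_n‖` (`‖l_n‖ → ∞`).  Let `z ∈ G`, `⟪ζ, z⟫ ≤ -(R + 3)`.  Then `‖z + l_n‖ ≤ m_n` eventually: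
`‖z + l_n‖² = ‖l_n‖² + 2 ⟪l_n, z⟫ + ‖z‖²`, `⟪l_n, z⟫ / ‖l_n‖ → ⟪ζ, z⟫`, so `‖z + l_n‖² ≤ ‖l_n‖² - 2 (R + 2) ‖l_n‖ + ‖z‖² ≤
(‖l_n‖ - R - 1)² ≤ m_n²` eventually (`‖l_n‖ ≤ m_n + 1 + R`).  So `dist (f' z) (g' z) ≤ ε`.  By `half_plane` `Ag D f' g'`: contradiction.
-/

set_option autoImplicit false
set_option linter.unusedSectionVars false

open Topology Filter Metric RealInnerProductSpace

namespace Pool.Agent.TG

variable {E : Type} [NormedAddCommGroup E] [InnerProductSpace ℝ E] [ProperSpace E]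
variable {Y : Type} [MetricSpace Y] {K : Set Y} {Λ : AddSubgroup E} {D G O : Set E} {S : Set (E → Y)}
  {Zr : E → Y → Prop} {N : E → Y → Y → Prop}

private theorem dyF_two (h : DynE K Λ D G O S Zr N)
    (hno : ¬ ∃ 𝓕 : Set (E → Y), 𝓕.Finite ∧ 𝓕 ⊆ S ∧ ∀ f ∈ S, ∃ g ∈ 𝓕, Ag D f g) (R ε : ℝ) (hε : 0 < ε) :
    ∃ f ∈ S, ∃ g ∈ S, ¬ Ag D f g ∧ ∀ z ∈ G, ‖z‖ ≤ R → dist (f z) (g z) < ε := by
  let r : Setoid S :=
    { r := fun f g => Ag D f.1 g.1
      iseqv := ⟨fun f z _ => rfl, fun hfg z hz => (hfg z hz).symm, fun h1 h2 z hz => (h1 z hz).trans (h2 z hz)⟩ }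
  have hinf : Infinite (Quotient r) := by
    by_contra hfin
    rw [not_infinite_iff_finite] at hfin
    apply hno
    refine ⟨Set.range fun q : Quotient r => (q.out : E → Y), Set.finite_range _, ?_, ?_⟩
    · rintro _ ⟨q, rfl⟩
      exact q.out.2
    · intro f hf
      refine ⟨_, ⟨Quotient.mk r ⟨f, hf⟩, rfl⟩, ?_⟩
      have h1 : Ag D ((Quotient.mk r ⟨f, hf⟩).out : E → Y) f := Quotient.exact (Quotient.out_eq (Quotient.mk r ⟨f, hf⟩))
      exact fun z hz => (h1 z hz).symm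
  let e := Infinite.natEmbedding (Quotient r)
  have hF : ∀ᶠ n in ((hyperfilter ℕ : Ultrafilter ℕ) : Filter ℕ), (fun k => ((e k).out : E → Y)) n ∈ S :=
    Eventually.of_forall fun n => (e n).out.2
  obtain ⟨f, hf, hlim⟩ := h.exists_lim (hyperfilter ℕ) (fun k => ((e k).out : E → Y)) hF
  have h1 := h.unif (hyperfilter ℕ) (fun k => ((e k).out : E → Y)) hF hf hlim R (ε / 2) (half_pos hε)
  have h2 : {k : ℕ | ∀ z ∈ G, ‖z‖ ≤ R → dist (((e k).out : E → Y) z) (f z) < ε / 2}.Infinite := by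
    intro hfin
    exact notMem_hyperfilter_of_finite hfin h1
  obtain ⟨i, hi, j, hj, hij⟩ := h2.nontrivial
  refine ⟨(e i).out, (e i).out.2, (e j).out, (e j).out.2, ?_, ?_⟩
  · intro heq
    apply hij
    apply e.injective
    rw [← Quotient.out_eq (e i), ← Quotient.out_eq (e j)]
    exact Quotient.sound heq
  · intro z hz hzR
    have h3 := hi z hz hzR
    have h4 := hj z hz hzR
    calc dist (((e i).out : E → Y) z) (((e j).out : E → Y) z) ≤ dist (((e i).out : E → Y) z) (f z) +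
          dist (((e j).out : E → Y) z) (f z) := dist_triangle_right _ _ _
      _ < ε / 2 + ε / 2 := add_lt_add h3 h4
      _ = ε := add_halves ε

private theorem dyF_max (h : DynE K Λ D G O S Zr N) {ε : ℝ} (hε : 0 < ε)
    (hclose : ∀ f ∈ S, ∀ g ∈ S, (∀ z ∈ G, dist (f z) (g z) ≤ ε) → Ag D f g)
    (hno : ¬ ∃ 𝓕 : Set (E → Y), 𝓕.Finite ∧ 𝓕 ⊆ S ∧ ∀ f ∈ S, ∃ g ∈ 𝓕, Ag D f g) (n : ℕ) :
    ∃ f ∈ S, ∃ g ∈ S, ∃ m : ℕ, n ≤ m ∧ (∃ z ∈ G, (m : ℝ) < ‖z‖ ∧ ‖z‖ ≤ m + 1 ∧ ε < dist (f z) (g z)) ∧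
      ∀ z ∈ G, ‖z‖ ≤ m → dist (f z) (g z) ≤ ε := by
  obtain ⟨f, hf, g, hg, hne, hd⟩ := dyF_two h hno n ε hε
  classical
  have hex : ∃ m : ℕ, n ≤ m ∧ ¬ ∀ z ∈ G, ‖z‖ ≤ m + 1 → dist (f z) (g z) ≤ ε := by
    by_contra hcon
    push Not at hcon
    apply hne
    apply hclose f hf g hg
    intro z hz
    obtain ⟨k, hk⟩ := exists_nat_ge ‖z‖
    refine hcon (max n k) (le_max_left _ _) z hz ?_
    have h1 : (k : ℝ) ≤ ((max n k : ℕ) : ℝ) := by exact_mod_cast le_max_right n k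
    linarith
  have hspec := Nat.find_spec hex
  set m := Nat.find hex with hm
  have hlow : ∀ z ∈ G, ‖z‖ ≤ m → dist (f z) (g z) ≤ ε := by
    rcases hspec.1.eq_or_lt with heq | hlt
    · intro z hz hzm
      rw [← heq] at hzm
      exact (hd z hz hzm).le
    · have h1 : ¬ (n ≤ m - 1 ∧ ¬ ∀ z ∈ G, ‖z‖ ≤ ((m - 1 : ℕ) : ℝ) + 1 → dist (f z) (g z) ≤ ε) :=
        Nat.find_min hex (by omega)
      have h2 : n ≤ m - 1 := by omega
      have h3 : ∀ z ∈ G, ‖z‖ ≤ ((m - 1 : ℕ) : ℝ) + 1 → dist (f z) (g z) ≤ ε := by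
        by_contra h4
        exact h1 ⟨h2, h4⟩
      have h5 : ((m - 1 : ℕ) : ℝ) + 1 = m := by
        have : (m - 1) + 1 = m := by omega
        exact_mod_cast this
      rwa [h5] at h3
  obtain ⟨z, hz, hzm, hzd⟩ : ∃ z ∈ G, ‖z‖ ≤ m + 1 ∧ ε < dist (f z) (g z) := by
    have h1 := hspec.2
    push Not at h1
    obtain ⟨z, h2, h3, h4⟩ := h1
    exact ⟨z, h2, h3, h4⟩
  refine ⟨f, hf, g, hg, m, hspec.1, ⟨z, hz, ?_, hzm, hzd⟩, hlow⟩
  by_contra hle
  exact absurd (hlow z hz (not_lt.1 hle)) (not_le.2 hzd)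

theorem DynE.finite [Nontrivial E] (h : DynE K Λ D G O S Zr N) :
    ∃ 𝓕 : Set (E → Y), 𝓕.Finite ∧ 𝓕 ⊆ S ∧ ∀ f ∈ S, ∃ g ∈ 𝓕, Ag D f g := by
  by_contra hno
  obtain ⟨ε, hε, hhp⟩ := h.half_plane
  obtain ⟨R, hR, hcoc⟩ := h.cpt
  obtain ⟨ζ₀, hζ₀⟩ : ∃ ζ : E, ‖ζ‖ = 1 := exists_norm_eq E zero_le_one
  have hclose : ∀ f ∈ S, ∀ g ∈ S, (∀ z ∈ G, dist (f z) (g z) ≤ ε) → Ag D f g := fun f hf g hg hd =>
    hhp f hf g hg ζ₀ 0 hζ₀ fun z hz _ => hd z hz
  choose f hf g hg m hm hz hlow using dyF_max h hε hclose hno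
  choose z hzG hz1 hz2 hz3 using hz
  choose l hl hlR using fun n => hcoc (z n)
  set 𝒰 : Ultrafilter ℕ := hyperfilter ℕ with h𝒰
  have hf' : ∀ᶠ n in (𝒰 : Filter ℕ), (fun n x => f n (x + l n)) n ∈ S :=
    Eventually.of_forall fun n => h.trans _ (hf n) _ (hl n)
  have hg' : ∀ᶠ n in (𝒰 : Filter ℕ), (fun n x => g n (x + l n)) n ∈ S :=
    Eventually.of_forall fun n => h.trans _ (hg n) _ (hl n)
  obtain ⟨F₁, hF, hFlim⟩ := h.exists_lim 𝒰 (fun n x => f n (x + l n)) hf'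
  obtain ⟨G₁, hG, hGlim⟩ := h.exists_lim 𝒰 (fun n x => g n (x + l n)) hg'
  obtain ⟨w, hw⟩ : ∃ w : E, Tendsto (fun n => z n - l n) 𝒰 (𝓝 w) := by
    obtain ⟨w, hw1, hw2⟩ := (isCompact_closedBall (0 : E) R).ultrafilter_le_nhds
      (𝒰.map fun n => z n - l n) (by
        rw [Ultrafilter.coe_map, le_principal_iff, mem_map]
        exact Filter.univ_mem' fun n => by simpa using hlR n)
    exact ⟨w, hw2⟩
  have hmlim : Tendsto (fun n => (m n : ℝ)) (𝒰 : Filter ℕ) atTop := by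
    have h1 : Tendsto (fun n : ℕ => (m n : ℝ)) atTop atTop := by
      refine tendsto_atTop_mono (fun n => ?_) tendsto_natCast_atTop_atTop
      exact_mod_cast hm n
    exact h1.mono_left Nat.hyperfilter_le_atTop
  have hl1 : ∀ n, ‖l n‖ ≤ m n + 1 + R := by
    intro n
    have h1 : ‖l n‖ ≤ ‖z n‖ + ‖z n - l n‖ := by
      have h2 := norm_sub_le (z n) (z n - l n)
      rwa [sub_sub_cancel] at h2
    have := hz2 n
    have := hlR n
    linarith
  have hl2 : ∀ n, (m n : ℝ) - R ≤ ‖l n‖ := by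
    intro n
    have h1 : ‖z n‖ ≤ ‖z n - l n‖ + ‖l n‖ := by
      have h2 := norm_add_le (z n - l n) (l n)
      rwa [sub_add_cancel] at h2
    have := hz1 n
    have := hlR n
    linarith
  have hllim : Tendsto (fun n => ‖l n‖) (𝒰 : Filter ℕ) atTop :=
    tendsto_atTop_mono hl2 (tendsto_atTop_add_const_right _ _ hmlim)
  have hlpos : ∀ᶠ n in (𝒰 : Filter ℕ), 0 < ‖l n‖ := hllim.eventually_gt_atTop 0
  obtain ⟨ζ, hζ, hζlim⟩ : ∃ ζ ∈ sphere (0 : E) 1, Tendsto (fun n => (‖l n‖)⁻¹ • l n) 𝒰 (𝓝 ζ) := by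
    obtain ⟨w, hw1, hw2⟩ := (isCompact_sphere (0 : E) 1).ultrafilter_le_nhds
      (𝒰.map fun n => (‖l n‖)⁻¹ • l n) (by
        rw [Ultrafilter.coe_map, le_principal_iff, mem_map]
        filter_upwards [hlpos] with n hn
        have h1 : ‖l n‖ ≠ 0 := hn.ne'
        simp [norm_smul, h1])
    exact ⟨w, hw1, hw2⟩
  have hζ1 : ‖ζ‖ = 1 := by simpa using hζ
  -- the limits differ at the point w
  have hwG : w ∈ G :=
    h.G_closed.mem_of_tendsto hw (Eventually.of_forall fun n => by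
      have h1 := (h.g_add (z := z n - l n) (hl n)).1
      rw [sub_add_cancel] at h1
      exact h1 (hzG n))
  have hwB : w ∉ D := h.G_D w hwG
  have hFw := h.tendsto_along 𝒰 (fun n x => f n (x + l n)) hf' hFlim hwB hw
  have hGw := h.tendsto_along 𝒰 (fun n x => g n (x + l n)) hg' hGlim hwB hw
  have hne : ¬ Ag D F₁ G₁ := by
    intro hag
    have h1 : ε ≤ dist (F₁ w) (G₁ w) :=
      ge_of_tendsto (hFw.dist hGw) (Eventually.of_forall fun n => by
        have h2 := (hz3 n).le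
        simpa only [sub_add_cancel] using h2)
    rw [hag w hwB, dist_self] at h1
    linarith
  apply hne
  -- the half space
  refine hhp F₁ hF G₁ hG ζ (-(R + 3)) hζ1 fun x hx hxr => ?_
  have hxB : x ∉ D := h.G_D x hx
  have hin : ∀ᶠ n in (𝒰 : Filter ℕ), ‖x + l n‖ ≤ m n := by
    have h2 : Tendsto (fun n => ⟪(‖l n‖)⁻¹ • l n, x⟫) 𝒰 (𝓝 ⟪ζ, x⟫) := hζlim.inner tendsto_const_nhds
    have hxr' : ⟪ζ, x⟫ < -(R + 2) := by linarith
    filter_upwards [h2.eventually (gt_mem_nhds hxr'), hlpos, hllim.eventually_ge_atTop (R + 1),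
      hllim.eventually_ge_atTop (‖x‖ ^ 2)] with n hn1 hpos hn2 hn3
    have h4 : ⟪l n, x⟫ = ‖l n‖ * ⟪(‖l n‖)⁻¹ • l n, x⟫ := by
      rw [real_inner_smul_left, ← mul_assoc, mul_inv_cancel₀ hpos.ne', one_mul]
    have h6 : ‖x + l n‖ ^ 2 = ‖x‖ ^ 2 + ‖l n‖ ^ 2 + 2 * ⟪l n, x⟫ := by
      rw [norm_add_sq_real, real_inner_comm]
      ring
    have h7 : ‖l n‖ * ⟪(‖l n‖)⁻¹ • l n, x⟫ ≤ ‖l n‖ * (-(R + 2)) :=
      mul_le_mul_of_nonneg_left hn1.le hpos.le
    have h8 : ‖x + l n‖ ^ 2 ≤ (‖l n‖ - (R + 1)) ^ 2 := by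
      rw [h6, h4]
      nlinarith
    have h9 : ‖x + l n‖ ≤ ‖l n‖ - (R + 1) :=
      (pow_le_pow_iff_left₀ (norm_nonneg _) (by linarith) two_ne_zero).1 h8
    have := hl1 n
    linarith
  refine le_of_tendsto ((hFlim x hxB).dist (hGlim x hxB)) ?_
  filter_upwards [hin] with n hn
  exact hlow n _ ((h.g_add (hl n)).2 hx) hn

/-- **finiteness** in the situation `Dyn` -/
theorem Dyn.finite {k : ℕ} {Y : Type} [MetricSpace Y] {K : Set Y} {Γ : AddSubgroup (Pool.Agent.H36.BP.EN k)}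
    {D G O : Set (Pool.Agent.H36.BP.EN k)} {S : Set (Pool.Agent.H36.BP.EN k → Y)} {Zr : Pool.Agent.H36.BP.EN k → Y → Prop}
    {Nz : Pool.Agent.H36.BP.EN k → Y → Y → Prop} (h : Dyn K Γ D G O S Zr Nz) :
    ∃ 𝓕 : Set (Pool.Agent.H36.BP.EN k → Y), 𝓕.Finite ∧ 𝓕 ⊆ S ∧ ∀ f ∈ S, ∃ g ∈ 𝓕, Ag D f g := by
  let _ : InnerProductSpace ℝ (Pool.Agent.H36.BP.EN k) := InnerProductSpace.complexToReal
  have h1 : DynE K Γ D G O S Zr Nz :=
    { compact := h.compact
      cpt := h.cpt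
      D_closed := h.D_closed
      D_inv := h.D_inv
      G_closed := h.G_closed
      G_inv := h.G_inv
      G_D := h.G_D
      O_open := h.O_open
      O_inv := h.O_inv
      O_sub := h.O_sub
      O_ne := h.O_ne
      mem := h.mem
      lip := h.lip
      trans := h.trans
      lim := h.lim
      uniq := h.uniq
      Z_inv := h.Z_inv
      Z_lim := h.Z_lim
      N_inv := h.N_inv
      half := h.half
      near := h.near
      iso := h.iso }
  exact h1.finite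

end Pool.Agent.TG

end

section

/-!
# TG SaDefs: rational maps from semi-abelian varieties to projective varieties over complex tori, the definitions
-/

set_option autoImplicit false

open MvPolynomial
open Pool.Agent.H17 (PN VanishesAt)
open Pool.Agent.H17EF (projVar)
open Pool.Agent.H22.TB (closureIn)

noncomputable section

namespace Pool.Agent.TG

variable {N : ℕ}

/-- The maps `F` and `F'` to `ℂ^(N+1)` represent the same map to `ℙ^N`. -/
def SameProjMap {g : ℕ} (F F' : (Fin g → ℂ) → Fin (N + 1) → ℂ) : Prop := ∀ z i j, F z i * F' z j = F z j * F' z i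

/-- The set of the points `[F z]`, `F z ≠ 0`. -/
def imageOf {g : ℕ} (F : (Fin g → ℂ) → Fin (N + 1) → ℂ) : Set (PN N) := {x | ∃ z, ∃ h : F z ≠ 0, x = Projectivization.mk ℂ (F z) h}

/-- A meromorphic map from `ℂ^g` to `ℙ^N` of the type of the rational maps from semi-abelian varieties: it is given by entire functions `F = (F 0, …, F N)`, not all
zero, with `|F z| ≤ exp (C (1 + |z|²))`; `T` is a complex subspace with `|F (z + t)| ≤ exp (C (1 + |t|))` for `t` in `T`, `C` depending on `z`; `L` is a group of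
periods, and `T` and `L` span `ℂ^g` over `ℝ`.  (For a rational map from the semi-abelian variety `A = ℂ^g / L` the subspace `T` is the Lie algebra of the torus part of `A`.) -/
structure SabMap (N : ℕ) where
  /-- the dimension -/
  g : ℕ
  /-- the entire functions -/
  F : (Fin g → ℂ) → Fin (N + 1) → ℂ
  differentiable : Differentiable ℂ F
  ne_zero : ∃ z, F z ≠ 0
  growth : ∃ C : ℝ, ∀ z, ‖F z‖ ≤ Real.exp (C * (1 + ‖z‖ ^ 2))
  /-- the directions of the torus part -/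
  T : Submodule ℂ (Fin g → ℂ)
  torus : ∀ z, ∃ C : ℝ, ∀ t ∈ T, ‖F (z + t)‖ ≤ Real.exp (C * (1 + ‖t‖))
  /-- the periods -/
  L : AddSubgroup (Fin g → ℂ)
  periodic : ∀ l ∈ L, SameProjMap (fun z => F (z + l)) F
  span : T.restrictScalars ℝ ⊔ Submodule.span ℝ (L : Set (Fin g → ℂ)) = ⊤

/-- The union of the images of the non-constant maps into `X`. -/
def sabUnion (X : Set (PN N)) : Set (PN N) :=
  {x | ∃ S : SabMap N, imageOf S.F ⊆ X ∧ (∃ y ∈ imageOf S.F, ∃ z ∈ imageOf S.F, y ≠ z) ∧ x ∈ imageOf S.F}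

/-- The special set of `X`: the Zariski closure in `X` of the union of the images of the non-constant maps into `X`. -/
def sabSpecialSet (X : Set (PN N)) : Set (PN N) := closureIn X (sabUnion X)

/-- `W` is the tangent space of a complex subtorus of `ℂ^n / Λ`: the real span of `Λ ∩ W` is `W`. -/
def IsSubtorus {n : ℕ} (Λ : AddSubgroup (Fin n → ℂ)) (W : Submodule ℂ (Fin n → ℂ)) : Prop :=
  W.restrictScalars ℝ ≤ Submodule.span ℝ {l : Fin n → ℂ | l ∈ Λ ∧ l ∈ W}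

/-- The torus `ℂ^n / Λ` is simple: it has no subtori other than `0` and itself. -/
def SimpleTorus {n : ℕ} (Λ : AddSubgroup (Fin n → ℂ)) : Prop := ∀ W : Submodule ℂ (Fin n → ℂ), IsSubtorus Λ W → W = ⊥ ∨ W = ⊤

/-- The meromorphic maps from `ℂ^n` to the variety `X` over the torus `ℂ^n / Λ`: the entire functions `F : ℂ^n → ℂ^(N+1)`, not identically `0`, with `[F y] ∈ X` and
`u [F y] = y` modulo `Λ` if `F y ≠ 0`. -/
def merSections {n : ℕ} (X : Set (PN N)) (Λ : AddSubgroup (Fin n → ℂ)) (u : PN N → (Fin n → ℂ) ⧸ Λ) : Set ((Fin n → ℂ) → Fin (N + 1) → ℂ) :=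
  {F | Differentiable ℂ F ∧ (∃ y, F y ≠ 0) ∧
    ∀ y, ∀ h : F y ≠ 0, Projectivization.mk ℂ (F y) h ∈ X ∧ u (Projectivization.mk ℂ (F y) h) = (y : (Fin n → ℂ) ⧸ Λ)}

/-- The four types of maps `S` into the variety `X` over the torus `ℂ^n / Λ`; `D` is the set of the bad values of `u`: `S` lies in a fibre over a point of `D`; or `S` is constant;
or `u ∘ S` is an affine map onto a translate of a subtorus which is not `0` and not the whole torus; or `u ∘ S` is an affine map onto the torus and `S` is the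
composition of this map and a meromorphic map over the torus. -/
def SabCases {n : ℕ} (X : Set (PN N)) (Λ : AddSubgroup (Fin n → ℂ)) (u : PN N → (Fin n → ℂ) ⧸ Λ) (D : Set (Fin n → ℂ)) (S : SabMap N) : Prop :=
  (∃ b ∈ D, ∀ x ∈ imageOf S.F, u x = (b : (Fin n → ℂ) ⧸ Λ)) ∨
  (∀ x ∈ imageOf S.F, ∀ y ∈ imageOf S.F, x = y) ∨
  ∃ (B : (Fin S.g → ℂ) →ₗ[ℂ] (Fin n → ℂ)) (c : Fin n → ℂ),
    (∀ z, ∀ h : S.F z ≠ 0, u (Projectivization.mk ℂ (S.F z) h) = ((B z + c : Fin n → ℂ) : (Fin n → ℂ) ⧸ Λ)) ∧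
    (IsSubtorus Λ (LinearMap.range B) ∧ LinearMap.range B ≠ ⊥ ∧ LinearMap.range B ≠ ⊤ ∨
      Function.Surjective B ∧ ∃ Φ ∈ merSections X Λ u, SameProjMap S.F fun z => Φ (B z + c))

end Pool.Agent.TG

end
end
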