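import Pool.Agent.H94.G4T.M10
import Pool.Agent.H94.G4T.M42

/-! The parts of this file: TG.Y.Frm, TG.Y.Rf, TG.Y.Br_1. -/

section

/-!
# TG Y Frm: frames along the slab

`Ln.tan`: let `γ` be a curve in `Y` near `0` with `γ 0 = x`, `γ' 0 = v`; `wl ∘ γ` is analytic at `0` (`Ln.exists_loc`), `u (γ z) - (p + wl (γ z) • e) ∈ Λ` (`Ln.wl_spec`): `υ z = p + wl (γ z) • e`, `a = deriv (wl ∘ γ) 0`.

`Ln.frame_coord`: let `z₀ = wl x₀`.
Case `z₀ ≠ 0`: `y₀ = p + z₀ • e ∉ D` (`L.off`), `x₀` is `IsStr` (`L.sub`): a straight chart `χ` (`exists_str_chart`), `u (χ.σ q) - ms y₀ ρ q ∈ Λ`; `lam x j = cons 0 ((ρ : ℂ)⁻¹ • fr κ c (W x) j)` with `W` from `Ln.exists_loc` (`fr κ c z` is analytic in `z` near `z₀` if `‖z₀‖ ≤ s`: `L.κ_an`,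
`L.c_an`, `fderiv` of an analytic function).  `dv_iff` with `υ = ms y₀ ρ`, `fderiv υ q w' = ρ • tl w'`.
Case `z₀ = 0`: `L.nc x₀` gives a germ `σ, τ` with `u (σ q) - κ (nm a b q) ∈ Λ` near `0`; `χ` from `exists_small_chart` (`χ.σ q = a' • σ (r • q)`), `u (χ.σ q) - κ (nm a b (r • q)) ∈ Λ`.  `lam x j = (r : ℂ)⁻¹ • Pi.single j.succ.succ 1` (constant).  For `x ∈ Y` near `x₀`, `q = χ.q x` near `0`:
`υ q = κ (nm a b (r • q))` has `fderiv υ q (lam j) = fderiv κ (nm a b (r • q)) (Pi.single j.succ 1)`, and `nm a b (r • q) = c (wl x)`: `κ (nm a b (r • q)) - (p + wl x • e) ∈ Λ` is `0` (`L.small`: the norm is `≤ small + s ‖e‖`), so `wl x • e` is small, `wl x` is small,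
`κ (nm ..) = κ (c (wl x))` and `κ` is injective near `0` (`fderiv κ 0` is injective by `L.dt_ne 0`, `L.κ_c`, `L.c_ne`; `HasStrictFDerivAt` / `Pool.Agent.H62.BU.local_inverse`).

`Ln.exists_frame`: `Ln.frame_coord` at `x₀ = x`, and `exists_tan`.
`Ln.frame_indep`: a chart `χ` at `x` (`L.charts`), `υ` from `exists_lift_chart` with `y = p + wl x • e`; `toFun_eq` for both sides; by `dv_iff` the rows `fderiv χ.q x _` satisfy the hypotheses of `det_indep` with `A = fderiv υ (χ.q x)`, `E = fr κ c (wl x)`.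
-/

set_option autoImplicit false

open Topology Filter Metric

namespace Pool.Agent.TG

open Pool.Agent.H36.BP (EN fs wd)
open Pool.Agent.H14.PP (IsCone CurveAt Tan)
open Pool.Agent.H62.EF (MN pr)
open Pool.Agent.AD (Vd Chart Charts IsGerm)

variable {N k : ℕ}

variable {X : Set (EN N)} {Λ : AddSubgroup (Vd (k + 1))} {u : EN N → Vd (k + 1)} {D B : Set (Vd (k + 1))}
  {κ : Vd (k + 1) → Vd (k + 1)} {p e : Vd (k + 1)} {c : ℂ → Vd (k + 1)} {Γ₀ : AddSubgroup ℂ} {s : ℝ}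

theorem Ln.tan (L : Ln X Λ u D κ p e c Γ₀ s) {x v : EN N} (hx : x ∈ Yl X Λ u p e s) (hv : Tan (Yl X Λ u p e s) x v) :
    ∃ a : ℂ, DV X Λ u x v (a • e) := by
  obtain ⟨γ, hγ, hγ0, hγd⟩ := hv
  obtain ⟨W, hW, hWl⟩ := L.exists_loc hx
  have hW' : AnalyticAt ℂ W (γ 0) := by rw [hγ0]; exact hW
  have hWγ : AnalyticAt ℂ (fun z => W (γ z)) 0 := AnalyticAt.fun_comp hW' hγ.1
  refine ⟨deriv (fun z => W (γ z)) 0, γ, fun z => p + W (γ z) • e, ⟨hγ.1, ?_⟩, hγ0, hγd, ?_, ?_, ?_⟩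
  · filter_upwards [hγ.2] with z hz
    exact hz.1
  · exact analyticAt_const.add (hWγ.smul analyticAt_const)
  · have ht : Tendsto γ (𝓝 0) (𝓝 x) := by
      have h1 := hγ.1.continuousAt.tendsto
      rwa [hγ0] at h1
    filter_upwards [ht.eventually hWl, hγ.2] with z h1 h2
    rw [← h1 h2]
    exact (Ln.wl_spec h2).2
  · exact ((hWγ.differentiableAt.hasDerivAt.smul_const e).const_add p).deriv

/-- the frame depends analytically on the parameter -/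
theorem Ln.fr_an_le (L : Ln X Λ u D κ p e c Γ₀ s) {z : ℂ} (hz : ‖z‖ ≤ s) (j : Fin k) : AnalyticAt ℂ (fun z => fr κ c z j) z := by
  have hz' : z ∈ closedBall (0 : ℂ) s := mem_closedBall_zero_iff.2 hz
  have h1 : AnalyticAt ℂ (fun z => fderiv ℂ κ (c z)) z := AnalyticAt.fun_comp (L.κ_an z hz').fderiv (L.c_an z hz')
  have h2 : AnalyticAt ℂ (fun A : Vd (k + 1) →L[ℂ] Vd (k + 1) => A (Pi.single j.succ 1)) (fderiv ℂ κ (c z)) :=
    (ContinuousLinearMap.apply ℂ (Vd (k + 1)) (Pi.single j.succ 1 : Vd (k + 1))).analyticAt _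
  exact AnalyticAt.comp (g := fun A : Vd (k + 1) →L[ℂ] Vd (k + 1) => A (Pi.single j.succ 1)) (f := fun z => fderiv ℂ κ (c z)) h2 h1

/-- the derivative of `κ` at `0` is injective -/
theorem Ln.κ_inj0 (L : Ln X Λ u D κ p e c Γ₀ s) (v : Vd (k + 1)) (hv : fderiv ℂ κ 0 v = 0) : v = 0 := by
  have h0 : (0 : ℂ) ∈ closedBall (0 : ℂ) s := mem_closedBall_self L.pos.le
  have h1 := L.dt_ne 0 h0
  have h2 : HasDerivAt (fun z => κ (c z)) (fderiv ℂ κ 0 (deriv c 0)) 0 := by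
    have h3 : HasFDerivAt κ (fderiv ℂ κ 0) (c 0) := by
      have h4 := (L.κ_an 0 h0).differentiableAt.hasFDerivAt
      rwa [L.c_zero] at h4 ⊢
    exact h3.comp_hasDerivAt (0 : ℂ) (L.c_an 0 h0).differentiableAt.hasDerivAt
  have h3 : HasDerivAt (fun z => κ (c z)) e 0 := by
    have h4 : HasDerivAt (fun z : ℂ => p + z • e) ((1 : ℂ) • e) 0 := ((hasDerivAt_id (0 : ℂ)).smul_const e).const_add p
    rw [one_smul] at h4
    refine h4.congr_of_eventuallyEq ?_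
    filter_upwards [Metric.closedBall_mem_nhds (0 : ℂ) L.pos] with z hz
    exact L.κ_c z hz
  have h4 : e = fderiv ℂ κ 0 (deriv c 0) := h3.unique h2
  have h5 := Matrix.linearIndependent_rows_of_det_ne_zero h1
  have h6 : ⊤ ≤ LinearMap.range (fderiv ℂ κ 0 : Vd (k + 1) →ₗ[ℂ] Vd (k + 1)) := by
    have h7 : Submodule.span ℂ (Set.range (Matrix.of fun i j => (Fin.cons e (fr κ c 0) : Fin (k + 1) → Vd (k + 1)) i j).row) = ⊤ :=
      h5.span_eq_top_of_card_eq_finrank (by simp)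
    rw [← h7, Submodule.span_le]
    rintro _ ⟨i, rfl⟩
    refine Fin.cases ?_ (fun i => ?_) i
    · exact ⟨deriv c 0, h4.symm⟩
    · refine ⟨Pi.single i.succ 1, ?_⟩
      show fderiv ℂ κ 0 (Pi.single i.succ 1) = fderiv ℂ κ (c 0) (Pi.single i.succ 1)
      rw [L.c_zero]
  have h7 : Function.Injective (fderiv ℂ κ 0 : Vd (k + 1) →ₗ[ℂ] Vd (k + 1)) :=
    LinearMap.injective_iff_surjective.2 (LinearMap.range_eq_top.1 (top_le_iff.1 h6))
  apply h7
  rw [map_zero]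
  exact hv

/-- tail of a vector -/
private theorem Frm_tl_cons (a : ℂ) (v : Vd (k + 1)) : tl (Fin.cons a v : Vd (k + 2)) = v := rfl

private theorem Frm_ms_fderiv (y : Vd (k + 1)) (ρ : ℝ) (q w : Vd (k + 2)) : HasFDerivAt (ms y ρ) (fderiv ℂ (ms y ρ) q) q ∧ AnalyticAt ℂ (ms y ρ) q ∧
    fderiv ℂ (ms y ρ) q w = (ρ : ℂ) • tl w := by
  have h1 : AnalyticAt ℂ (ms y ρ) q := by
    rw [show ms y ρ = fun p : Vd (k + 2) => fun i : Fin (k + 1) => y i + (ρ : ℂ) * p i.succ from rfl, analyticAt_pi_iff]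
    intro i
    have h2 : AnalyticAt ℂ (fun p : Vd (k + 2) => p i.succ) q :=
      (ContinuousLinearMap.proj (R := ℂ) (φ := fun _ : Fin (k + 2) => ℂ) i.succ).analyticAt _
    exact analyticAt_const.add (analyticAt_const.mul h2)
  refine ⟨h1.differentiableAt.hasFDerivAt, h1, ?_⟩
  have h2 : HasDerivAt (fun t : ℂ => ms y ρ (q + t • w)) (fderiv ℂ (ms y ρ) q w) 0 := by
    have h3 : HasDerivAt (fun t : ℂ => q + t • w) w 0 := by
      have h4 : HasDerivAt (fun z : ℂ => z • w) ((1 : ℂ) • w) 0 := (hasDerivAt_id (0 : ℂ)).smul_const w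
      rw [one_smul] at h4
      exact h4.const_add q
    have h5 : HasFDerivAt (ms y ρ) (fderiv ℂ (ms y ρ) q) (q + (0 : ℂ) • w) := by
      rw [zero_smul, add_zero]; exact h1.differentiableAt.hasFDerivAt
    exact h5.comp_hasDerivAt (0 : ℂ) h3
  have h3 : HasDerivAt (fun t : ℂ => ms y ρ (q + t • w)) ((ρ : ℂ) • tl w) 0 := by
    have h4 : (fun t : ℂ => ms y ρ (q + t • w)) = fun t : ℂ => ms y ρ q + t • ((ρ : ℂ) • tl w) := by
      funext t i
      simp only [ms, tl, Pi.add_apply, Pi.smul_apply, smul_eq_mul]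
      ring
    rw [h4]
    have h5 : HasDerivAt (fun t : ℂ => t • ((ρ : ℂ) • tl w)) ((1 : ℂ) • ((ρ : ℂ) • tl w)) 0 := (hasDerivAt_id (0 : ℂ)).smul_const _
    rw [one_smul] at h5
    exact h5.const_add _
  exact h2.unique h3

private theorem Frm_nm (a b : ℕ) (q : Vd (k + 2)) (t : ℂ) (j : Fin k) :
    nm a b (q + t • (Pi.single j.succ.succ 1 : Vd (k + 2))) = nm a b q + t • (Pi.single j.succ 1 : Vd (k + 1)) := by
  funext i
  refine Fin.cases ?_ (fun i => ?_) i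
  · have h0 : (Pi.single j.succ.succ 1 : Vd (k + 2)) 0 = 0 := Pi.single_eq_of_ne (Fin.succ_ne_zero _).symm _
    have h1 : (Pi.single j.succ.succ 1 : Vd (k + 2)) 1 = 0 := by
      apply Pi.single_eq_of_ne
      intro h
      have h' := congrArg Fin.val h
      simp at h'
    have h2 : (Pi.single j.succ 1 : Vd (k + 1)) 0 = 0 := Pi.single_eq_of_ne (Fin.succ_ne_zero _).symm _
    simp only [nm, Fin.cons_zero, Pi.add_apply, Pi.smul_apply, h0, h1, h2, smul_zero, add_zero]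
  · simp only [nm, Fin.cons_succ, Pi.add_apply, Pi.smul_apply, smul_eq_mul]
    congr 2
    by_cases h : i = j
    · subst h; simp
    · rw [Pi.single_eq_of_ne, Pi.single_eq_of_ne]
      · exact fun h' => h (Fin.succ_injective _ h')
      · exact fun h' => h (Fin.succ_injective _ (Fin.succ_injective _ h'))

private theorem Frm_nm_an (a b : ℕ) (q : Vd (k + 2)) : AnalyticAt ℂ (nm a b : Vd (k + 2) → Vd (k + 1)) q := by
  have h : ∀ i : Fin (k + 2), AnalyticAt ℂ (fun p : Vd (k + 2) => p i) q := fun i =>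
    (ContinuousLinearMap.proj (R := ℂ) (φ := fun _ : Fin (k + 2) => ℂ) i).analyticAt _
  rw [show (nm a b : Vd (k + 2) → Vd (k + 1)) = fun p i => nm a b p i from rfl, analyticAt_pi_iff]
  intro i
  refine Fin.cases ?_ (fun i => ?_) i
  · exact ((h 0).pow a).mul ((h 1).pow b)
  · exact h i.succ.succ

/-- the coordinates of `κ (nm a b (r • q))` -/
private theorem Frm_nm_fderiv {κ : Vd (k + 1) → Vd (k + 1)} {a b : ℕ} {r : ℂ} (hr : r ≠ 0) {q : Vd (k + 2)} (hκ : AnalyticAt ℂ κ (nm a b (r • q))) (j : Fin k) :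
    AnalyticAt ℂ (fun q => κ (nm a b (r • q))) q ∧
    fderiv ℂ (fun q => κ (nm a b (r • q))) q (r⁻¹ • Pi.single j.succ.succ 1) = fderiv ℂ κ (nm a b (r • q)) (Pi.single j.succ 1) := by
  have h0 : AnalyticAt ℂ (fun q : Vd (k + 2) => r • q) q := analyticAt_const.fun_smul analyticAt_id
  have h1 : AnalyticAt ℂ (fun q : Vd (k + 2) => nm a b (r • q)) q := AnalyticAt.comp (g := nm a b) (f := fun q : Vd (k + 2) => r • q) (Frm_nm_an a b _) h0
  have h2 : AnalyticAt ℂ (fun q => κ (nm a b (r • q))) q := AnalyticAt.comp (g := κ) (f := fun q : Vd (k + 2) => nm a b (r • q)) hκ h1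
  refine ⟨h2, ?_⟩
  set w : Vd (k + 2) := r⁻¹ • Pi.single j.succ.succ 1 with hw
  have h3 : HasDerivAt (fun t : ℂ => κ (nm a b (r • (q + t • w)))) (fderiv ℂ (fun q => κ (nm a b (r • q))) q w) 0 := by
    have h3 : HasDerivAt (fun t : ℂ => q + t • w) w 0 := by
      have h4 : HasDerivAt (fun z : ℂ => z • w) ((1 : ℂ) • w) 0 := (hasDerivAt_id (0 : ℂ)).smul_const w
      rw [one_smul] at h4
      exact h4.const_add q
    have h5 : HasFDerivAt (fun q => κ (nm a b (r • q))) (fderiv ℂ (fun q => κ (nm a b (r • q))) q) (q + (0 : ℂ) • w) := by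
      rw [zero_smul, add_zero]; exact h2.differentiableAt.hasFDerivAt
    exact h5.comp_hasDerivAt (0 : ℂ) h3
  have h4 : HasDerivAt (fun t : ℂ => κ (nm a b (r • (q + t • w)))) (fderiv ℂ κ (nm a b (r • q)) (Pi.single j.succ 1)) 0 := by
    have e1 : (fun t : ℂ => κ (nm a b (r • (q + t • w)))) = fun t : ℂ => κ (nm a b (r • q) + t • (Pi.single j.succ 1 : Vd (k + 1))) := by
      funext t
      rw [← Frm_nm, hw, smul_add, smul_comm r t, smul_smul r r⁻¹, mul_inv_cancel₀ hr, one_smul]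
    rw [e1]
    have h6 : HasDerivAt (fun t : ℂ => nm a b (r • q) + t • (Pi.single j.succ 1 : Vd (k + 1))) (Pi.single j.succ 1) 0 := by
      have h4 : HasDerivAt (fun z : ℂ => z • (Pi.single j.succ 1 : Vd (k + 1))) ((1 : ℂ) • (Pi.single j.succ 1 : Vd (k + 1))) 0 := (hasDerivAt_id (0 : ℂ)).smul_const _
      rw [one_smul] at h4
      exact h4.const_add _
    have h7 : HasFDerivAt κ (fderiv ℂ κ (nm a b (r • q))) (nm a b (r • q) + (0 : ℂ) • (Pi.single j.succ 1 : Vd (k + 1))) := by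
      rw [zero_smul, add_zero]; exact hκ.differentiableAt.hasFDerivAt
    exact h7.comp_hasDerivAt (0 : ℂ) h6
  exact h3.unique h4

private theorem Frm_nm_zero {a b : ℕ} (h : 0 < a + b) : nm a b (0 : Vd (k + 2)) = 0 := by
  funext i
  refine Fin.cases ?_ (fun i => ?_) i
  · show (0 : ℂ) ^ a * (0 : ℂ) ^ b = 0
    rw [← pow_add, zero_pow h.ne']
  · rfl

theorem Ln.frame_coord (L : Ln X Λ u D κ p e c Γ₀ s) {x₀ : EN N} (hx₀ : x₀ ∈ Yl X Λ u p e s) :
    ∃ (χ : Chart (k + 2) X) (lam : EN N → Fin k → Vd (k + 2)), x₀ ∈ χ.U ∧ AnalyticAt ℂ lam x₀ ∧ ∀ᶠ x in 𝓝 x₀, x ∈ Yl X Λ u p e s →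
      ∀ (j : Fin k) (ℓ : EN N), Tan X x ℓ → fderiv ℂ χ.q x ℓ = lam x j → DV X Λ u x ℓ (fr κ c (wl Λ u p e s x) j) := by
  obtain ⟨W, hW, hWl⟩ := L.exists_loc hx₀
  have hW0 : wl Λ u p e s x₀ = W x₀ := hWl.self_of_nhds hx₀
  have hsp := Ln.wl_spec hx₀
  by_cases hz : wl Λ u p e s x₀ = 0
  · -- the centre
    have hW00 : W x₀ = 0 := by rw [← hW0, hz]
    have hup : u x₀ - p ∈ Λ := by
      have h1 := hsp.2
      rwa [hz, zero_smul, add_zero] at h1
    obtain ⟨σ, τ, a, b, hG, hσ0, hab, hσl⟩ := L.nc x₀ hx₀.1 hup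
    have h0m : (0 : ℂ) ∈ closedBall (0 : ℂ) s := mem_closedBall_self L.pos.le
    have hκ0 : AnalyticAt ℂ κ 0 := by
      have h1 := L.κ_an 0 h0m
      rwa [L.c_zero] at h1
    have hκp : κ 0 = p := by
      have h1 := L.κ_c 0 h0m
      rwa [L.c_zero, zero_smul, add_zero] at h1
    have hc0 : AnalyticAt ℂ c 0 := L.c_an 0 h0m
    obtain ⟨ψ, hψ, hψκ, -, -⟩ := Pool.Agent.H62.BU.local_inverse hκ0 L.κ_inj0
    have hnm : Tendsto (nm a b : Vd (k + 2) → Vd (k + 1)) (𝓝 0) (𝓝 0) := by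
      have h1 := (Frm_nm_an a b (0 : Vd (k + 2))).continuousAt.tendsto
      rwa [Frm_nm_zero hab] at h1
    obtain ⟨η', hη', hall⟩ := Metric.eventually_nhds_iff_ball.1 ((hG.σ_mem.and hσl).and (hnm.eventually hκ0.eventually_analyticAt))
    obtain ⟨χ, r, hr, hσU, hq0, hχ⟩ := exists_small_chart L.cone hG hη'
    rw [hσ0] at hσU hq0
    have hrC : (r : ℂ) ≠ 0 := by exact_mod_cast hr.ne'
    refine ⟨χ, fun _ j => (r : ℂ)⁻¹ • Pi.single j.succ.succ 1, hσU, analyticAt_const, ?_⟩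
    -- the coordinates
    have hqc : Tendsto χ.q (𝓝 x₀) (𝓝 0) := by
      have h1 := (χ.q_an x₀ hσU).continuousAt.tendsto
      rwa [hq0] at h1
    have hrq : Tendsto (fun x => (r : ℂ) • χ.q x) (𝓝 x₀) (𝓝 0) := by
      have h1 := hqc.const_smul (r : ℂ)
      rwa [smul_zero] at h1
    have hnq : Tendsto (fun x => (nm a b ((r : ℂ) • χ.q x) : Vd (k + 1))) (𝓝 x₀) (𝓝 0) := hnm.comp hrq
    have hWt : Tendsto W (𝓝 x₀) (𝓝 0) := by
      have h1 := hW.continuousAt.tendsto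
      rwa [hW00] at h1
    have hcW : Tendsto (fun x => c (W x)) (𝓝 x₀) (𝓝 0) := by
      have h1 := hc0.continuousAt.tendsto
      rw [L.c_zero] at h1
      exact h1.comp hWt
    have he : 0 < ‖e‖ := norm_pos_iff.2 L.e_ne
    have hdiff : Tendsto (fun x => κ (nm a b ((r : ℂ) • χ.q x)) - p) (𝓝 x₀) (𝓝 0) := by
      have h1 : Tendsto (fun x => κ (nm a b ((r : ℂ) • χ.q x))) (𝓝 x₀) (𝓝 (κ 0)) := hκ0.continuousAt.tendsto.comp hnq
      have h2 := h1.sub_const p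
      rwa [hκp, sub_self] at h2
    have hsm : ∀ᶠ x in 𝓝 x₀, ‖κ (nm a b ((r : ℂ) • χ.q x)) - p‖ < s * ‖e‖ := by
      apply hdiff.norm.eventually_lt_const
      rw [norm_zero]
      exact mul_pos L.pos he
    filter_upwards [hWl, χ.isOpen_U.mem_nhds hσU, hqc.eventually (isOpen_ball.mem_nhds (mem_ball_self (two_pos : (0 : ℝ) < 2))),
      hnq.eventually hψκ, hcW.eventually hψκ, hsm] with x h1 h2 h3 h4 h5 h6 hx j ℓ hℓ hq
    have hx1 := h1 hx
    have hs1 := Ln.wl_spec hx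
    obtain ⟨-, c', hc', hcx⟩ := χ.surj x hx.1 h2
    -- the lift
    have hlift : ∀ q ∈ ball (0 : Vd (k + 2)) 2, u (χ.σ q) - κ (nm a b ((r : ℂ) • q)) ∈ Λ := by
      intro q hq
      obtain ⟨k1, -, b', hb', k3⟩ := hχ q hq
      have k4 := hall ((r : ℂ) • q) (mem_ball_zero_iff.2 k1)
      have k5 := smul_mem_lat L.tor k4.1.1 k4.1.2 hb'
      rwa [← k3] at k5
    have hux : u x - κ (nm a b ((r : ℂ) • χ.q x)) ∈ Λ := by
      have k1 := smul_mem_lat L.tor (χ.σ_mem _ h3).1 (hlift _ h3) hc'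
      rwa [← hcx] at k1
    have heq : κ (nm a b ((r : ℂ) • χ.q x)) = p + wl Λ u p e s x • e := by
      have k1 := Λ.sub_mem hs1.2 hux
      have k2 : u x - (p + wl Λ u p e s x • e) - (u x - κ (nm a b ((r : ℂ) • χ.q x))) =
          κ (nm a b ((r : ℂ) • χ.q x)) - (p + wl Λ u p e s x • e) := by abel
      rw [k2] at k1
      refine sub_eq_zero.1 (L.small _ k1 ?_)
      have k3 : κ (nm a b ((r : ℂ) • χ.q x)) - (p + wl Λ u p e s x • e) = (κ (nm a b ((r : ℂ) • χ.q x)) - p) - wl Λ u p e s x • e := by abel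
      rw [k3]
      refine (norm_sub_le _ _).trans ?_
      rw [norm_smul]
      have k4 := mul_le_mul_of_nonneg_right hs1.1 (norm_nonneg e)
      have k5 := mul_nonneg L.pos.le (norm_nonneg e)
      linarith
    have hnc : nm a b ((r : ℂ) • χ.q x) = c (wl Λ u p e s x) := by
      have k1 := L.κ_c (wl Λ u p e s x) (mem_closedBall_zero_iff.2 hs1.1)
      rw [← h4, heq, ← k1, hx1, h5]
    have hκan : AnalyticAt ℂ κ (nm a b ((r : ℂ) • χ.q x)) := (hall _ (mem_ball_zero_iff.2 (hχ _ h3).1)).2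
    obtain ⟨m1, m2⟩ := Frm_nm_fderiv hrC hκan j
    refine (dv_iff L.cone L.tor L.lat χ hx.1 h2 m1 ?_).2 ⟨hℓ, ?_⟩
    · filter_upwards [isOpen_ball.mem_nhds h3] with q hq
      exact hlift q hq
    · rw [hq, m2, hnc]
      rfl
  · -- away from the centre
    have hoff := L.off _ hz hsp.1
    have hst := L.sub _ hoff x₀ hx₀.1 hsp.2
    obtain ⟨χ, ρ, hU, hq0, hstr, -⟩ := exists_str_chart L.cone L.tor hst one_pos
    have hρC : (ρ : ℂ) ≠ 0 := by exact_mod_cast hstr.pos.ne'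
    refine ⟨χ, fun x j => Fin.cons 0 ((ρ : ℂ)⁻¹ • fr κ c (W x) j), hU, ?_, ?_⟩
    · rw [analyticAt_pi_iff]
      intro j
      rw [analyticAt_pi_iff]
      have h1 : AnalyticAt ℂ (fun z => fr κ c z j) (W x₀) := by
        rw [← hW0]; exact L.fr_an_le hsp.1 j
      have h2 : AnalyticAt ℂ (fun x => fr κ c (W x) j) x₀ := AnalyticAt.comp (g := fun z => fr κ c z j) (f := W) h1 hW
      intro i
      refine Fin.cases ?_ (fun i => ?_) i
      · exact analyticAt_const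
      · have h3 : AnalyticAt ℂ (fun x => fr κ c (W x) j i) x₀ :=
          AnalyticAt.comp (g := fun v : Vd (k + 1) => v i) (f := fun x => fr κ c (W x) j)
            ((ContinuousLinearMap.proj (R := ℂ) (φ := fun _ : Fin (k + 1) => ℂ) i).analyticAt _) h2
        exact analyticAt_const.mul h3
    · have hqc : Tendsto χ.q (𝓝 x₀) (𝓝 0) := by
        have h1 := (χ.q_an x₀ hU).continuousAt.tendsto
        rwa [hq0] at h1
      filter_upwards [hWl, χ.isOpen_U.mem_nhds hU, hqc.eventually (isOpen_ball.mem_nhds (mem_ball_self (two_pos : (0 : ℝ) < 2)))]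
        with x h1 h2 h3 hx j ℓ hℓ hq
      obtain ⟨m1, m2, m3⟩ := Frm_ms_fderiv (p + wl Λ u p e s x₀ • e) ρ (χ.q x) (fderiv ℂ χ.q x ℓ)
      refine (dv_iff L.cone L.tor L.lat χ hx.1 h2 m2 ?_).2 ⟨hℓ, ?_⟩
      · filter_upwards [isOpen_ball.mem_nhds h3] with q hq
        exact hstr.lift q hq
      · rw [m3, hq, Frm_tl_cons, smul_smul, mul_inv_cancel₀ hρC, one_smul, h1 hx]

theorem Ln.exists_frame (L : Ln X Λ u D κ p e c Γ₀ s) {x : EN N} (hx : x ∈ Yl X Λ u p e s) :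
    ∃ ℓ : Fin k → EN N, ∀ j, DV X Λ u x (ℓ j) (fr κ c (wl Λ u p e s x) j) := by
  obtain ⟨χ, lam, hU, -, h⟩ := L.frame_coord hx
  have h1 : ∀ j, ∃ w : EN N, Tan X x w ∧ fderiv ℂ χ.q x w = lam x j := fun j => exists_tan L.cone χ hx.1 hU _
  choose ℓ h2 h3 using h1
  exact ⟨ℓ, fun j => h.self_of_nhds hx j (ℓ j) (h2 j) (h3 j)⟩

theorem Ln.frame_indep (L : Ln X Λ u D κ p e c Γ₀ s) (α : VForm X Λ u) {x : EN N} (hx : x ∈ Yl X Λ u p e s) {v w : EN N} {a b : ℂ}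
    (hv : DV X Λ u x v (a • e)) (hw : DV X Λ u x w (b • e)) {ℓ ℓ' : Fin k → EN N}
    (hℓ : ∀ j, DV X Λ u x (ℓ j) (fr κ c (wl Λ u p e s x) j)) (hℓ' : ∀ j, DV X Λ u x (ℓ' j) (fr κ c (wl Λ u p e s x) j)) :
    α.toFun (p + wl Λ u p e s x • e) x (Fin.cons v (Fin.cons w ℓ)) = α.toFun (p + wl Λ u p e s x • e) x (Fin.cons v (Fin.cons w ℓ')) := by
  obtain ⟨χ, hU, -⟩ := L.charts x hx.1
  have hsp := Ln.wl_spec hx
  obtain ⟨υ, hυ, hυe, hυl⟩ := exists_lift_chart L.cone L.tor χ hx.1 hU hsp.2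
  have key : ∀ {w : EN N} {E : Vd (k + 1)}, DV X Λ u x w E → Tan X x w ∧ fderiv ℂ υ (χ.q x) (fderiv ℂ χ.q x w) = E := fun h =>
    (dv_iff L.cone L.tor L.lat χ hx.1 hU hυ hυl).1 h
  have ht : ∀ ℓ : Fin k → EN N, (∀ j, DV X Λ u x (ℓ j) (fr κ c (wl Λ u p e s x) j)) →
      ∀ i, Tan X x ((Fin.cons v (Fin.cons w ℓ) : Fin (k + 2) → EN N) i) := by
    intro ℓ hℓ i
    refine Fin.cases ?_ (fun i => ?_) i
    · exact hv.tan
    · refine Fin.cases ?_ (fun i => ?_) i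
      · exact hw.tan
      · exact (hℓ i).tan
  have hm : ∀ ℓ : Fin k → EN N, (Matrix.of fun i j => fderiv ℂ χ.q x ((Fin.cons v (Fin.cons w ℓ) : Fin (k + 2) → EN N) i) j) =
      Matrix.of fun i j => (Fin.cons (fderiv ℂ χ.q x v) (Fin.cons (fderiv ℂ χ.q x w) fun j => fderiv ℂ χ.q x (ℓ j)) : Fin (k + 2) → Vd (k + 2)) i j := by
    intro ℓ
    ext i j
    refine Fin.cases ?_ (fun i => ?_) i
    · rfl
    · refine Fin.cases ?_ (fun i => ?_) i
      · rfl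
      · rfl
  rw [toFun_eq L.cone L.tor α χ hx.1 hU hsp.2 hυe _ (ht ℓ hℓ), toFun_eq L.cone L.tor α χ hx.1 hU hsp.2 hυe _ (ht ℓ' hℓ'), hm, hm]
  congr 1
  exact det_indep (A := (fderiv ℂ υ (χ.q x) : Vd (k + 2) →ₗ[ℂ] Vd (k + 1))) (E := fr κ c (wl Λ u p e s x))
    (L.dt_ne _ (mem_closedBall_zero_iff.2 hsp.1)) (key hv).2 (key hw).2 (fun j => (key (hℓ j)).2) fun j => (key (hℓ' j)).2

end Pool.Agent.TG

end

section

/-!
# TG Y Rf: the form restricted to the slab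

`Ln.form`: all fields by `Ln.frame_indep` (tangent vectors of `Y`: `Ln.tan`) from the fields of `α`:
`add_smul`: `α.add_smul` (coefficients `a, b, 0, …`).  `det`: `α.det` with the block matrix `(a b; c d) ⊕ 1`, determinant `a d - b c`.  `scale`: `α.scale`, `Ln.wl_smul`, and `c • lf x` is a frame at `c • x` (`DV.smul_pt`).
`analytic`: let `x₀ = φ q₀ ∈ Y`, `χ`, `lam` from `Ln.frame_coord`; `υ'` from `exists_lift_chart` with `υ' (χ.q x₀) = p + wl x₀ • e`; for `q` near `q₀` (`x = φ q ∈ Y` near `x₀`): `υ' (χ.q x) = p + wl x • e` (the difference is in `Λ`, continuous by `Ln.exists_loc` and `0` at `q₀`; `Lat.disc`),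
and by `toFun_eq` and `frame_indep` (choose `ℓ j` with `fderiv χ.q x (ℓ j) = lam x j`, `exists_tan`) the value is `det (rows fderiv χ.q x (∂₁ φ), fderiv χ.q x (∂₂ φ), lam x j) * tc α χ υ' (χ.q x)`, analytic in `q` (`tc_an`; `fderiv χ.q (φ q) (∂ φ)` is analytic: `fderiv` of analytic functions,
composition `ContinuousLinearMap` evaluation; the determinant is a polynomial: `Matrix.det_apply`, `Finset.analyticAt_sum`/`prod`).
`Ln.form_eq`: `frame_indep`.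
-/

set_option autoImplicit false

open Topology Filter Metric

namespace Pool.Agent.TG

open Pool.Agent.H36.BP (EN fs wd)
open Pool.Agent.H14.PP (IsCone CurveAt Tan)
open Pool.Agent.H62.EF (MN pr)
open Pool.Agent.AD (Vd Chart Charts IsGerm)

variable {N k : ℕ}

variable {X : Set (EN N)} {Λ : AddSubgroup (Vd (k + 1))} {u : EN N → Vd (k + 1)} {D B : Set (Vd (k + 1))}
  {κ : Vd (k + 1) → Vd (k + 1)} {p e : Vd (k + 1)} {c : ℂ → Vd (k + 1)} {Γ₀ : AddSubgroup ℂ} {s : ℝ}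

open Classical in
/-- a frame at `x` -/
noncomputable def lf (X : Set (EN N)) (Λ : AddSubgroup (Vd (k + 1))) (u : EN N → Vd (k + 1)) (p e : Vd (k + 1)) (s : ℝ)
    (κ : Vd (k + 1) → Vd (k + 1)) (c : ℂ → Vd (k + 1)) (x : EN N) : Fin k → EN N :=
  if h : ∃ ℓ : Fin k → EN N, ∀ j, DV X Λ u x (ℓ j) (fr κ c (wl Λ u p e s x) j) then h.choose else 0

theorem Ln.lf_spec (L : Ln X Λ u D κ p e c Γ₀ s) {x : EN N} (hx : x ∈ Yl X Λ u p e s) (j : Fin k) :
    DV X Λ u x (lf X Λ u p e s κ c x j) (fr κ c (wl Λ u p e s x) j) := by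
  have h := L.exists_frame hx
  unfold lf
  rw [dif_pos h]
  exact h.choose_spec j

private theorem Rf_det (a b c d : ℂ) :
    (Matrix.of fun i j => (Fin.cons (Fin.cons a (Fin.cons b 0) : Fin (k + 2) → ℂ)
      (Fin.cons (Fin.cons c (Fin.cons d 0) : Fin (k + 2) → ℂ) fun i : Fin k => (Pi.single i.succ.succ 1 : Fin (k + 2) → ℂ)) :
        Fin (k + 2) → Fin (k + 2) → ℂ) i j).det = a * d - b * c := by
  rw [Matrix.det_succ_row_zero, Fin.sum_univ_succ, Fin.sum_univ_succ]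
  have h1 : ∀ i : Fin k, (Matrix.of fun i j => (Fin.cons (Fin.cons a (Fin.cons b 0) : Fin (k + 2) → ℂ)
      (Fin.cons (Fin.cons c (Fin.cons d 0) : Fin (k + 2) → ℂ) fun i : Fin k => (Pi.single i.succ.succ 1 : Fin (k + 2) → ℂ)) :
        Fin (k + 2) → Fin (k + 2) → ℂ) i j) 0 i.succ.succ = 0 := fun i => rfl
  simp only [h1]
  simp only [mul_zero, zero_mul, Finset.sum_const_zero, add_zero]
  have e1 : ((Matrix.of fun i j => (Fin.cons (Fin.cons a (Fin.cons b 0) : Fin (k + 2) → ℂ)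
      (Fin.cons (Fin.cons c (Fin.cons d 0) : Fin (k + 2) → ℂ) fun i : Fin k => (Pi.single i.succ.succ 1 : Fin (k + 2) → ℂ)) :
        Fin (k + 2) → Fin (k + 2) → ℂ) i j).submatrix Fin.succ (Fin.succAbove 0)) =
      Matrix.diagonal (Fin.cons d fun _ => 1 : Fin (k + 1) → ℂ) := by
    ext i j
    rw [Fin.succAbove_zero]
    refine Fin.cases ?_ (fun i => ?_) i <;> refine Fin.cases ?_ (fun j => ?_) j
    · simp
    · rw [Matrix.diagonal_apply_ne _ (Fin.succ_ne_zero _).symm]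
      rfl
    · rw [Matrix.diagonal_apply_ne _ (Fin.succ_ne_zero _)]
      show (Pi.single i.succ.succ 1 : Fin (k + 2) → ℂ) (Fin.succ 0) = 0
      apply Pi.single_eq_of_ne
      intro h
      have h' := congrArg Fin.val h
      simp at h'
    · show (Pi.single i.succ.succ 1 : Fin (k + 2) → ℂ) j.succ.succ = _
      by_cases h : j = i
      · subst h; simp
      · rw [Pi.single_eq_of_ne, Matrix.diagonal_apply_ne]
        · exact fun h' => h (Fin.succ_injective _ h').symm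
        · exact fun h' => h (Fin.succ_injective _ (Fin.succ_injective _ h'))
  have e2 : ((Matrix.of fun i j => (Fin.cons (Fin.cons a (Fin.cons b 0) : Fin (k + 2) → ℂ)
      (Fin.cons (Fin.cons c (Fin.cons d 0) : Fin (k + 2) → ℂ) fun i : Fin k => (Pi.single i.succ.succ 1 : Fin (k + 2) → ℂ)) :
        Fin (k + 2) → Fin (k + 2) → ℂ) i j).submatrix Fin.succ (Fin.succAbove (Fin.succ 0))) =
      Matrix.diagonal (Fin.cons c fun _ => 1 : Fin (k + 1) → ℂ) := by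
    ext i j
    have hj : ∀ j : Fin k, (Fin.succAbove (Fin.succ 0 : Fin (k + 2)) j.succ) = j.succ.succ := by
      intro j
      rw [Fin.succ_succAbove_succ, Fin.succAbove_zero]
    have hj0 : (Fin.succAbove (Fin.succ 0 : Fin (k + 2)) (0 : Fin (k + 1))) = 0 := Fin.succ_succAbove_zero _
    rw [Matrix.submatrix_apply]
    refine Fin.cases ?_ (fun i => ?_) i <;> refine Fin.cases ?_ (fun j => ?_) j
    · rw [hj0]; simp
    · rw [hj, Matrix.diagonal_apply_ne _ (Fin.succ_ne_zero _).symm]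
      rfl
    · rw [hj0, Matrix.diagonal_apply_ne _ (Fin.succ_ne_zero _)]
      show (Pi.single i.succ.succ 1 : Fin (k + 2) → ℂ) 0 = 0
      exact Pi.single_eq_of_ne (Fin.succ_ne_zero _).symm _
    · rw [hj]
      show (Pi.single i.succ.succ 1 : Fin (k + 2) → ℂ) j.succ.succ = _
      by_cases h : j = i
      · subst h; simp
      · rw [Pi.single_eq_of_ne, Matrix.diagonal_apply_ne]
        · exact fun h' => h (Fin.succ_injective _ h').symm
        · exact fun h' => h (Fin.succ_injective _ (Fin.succ_injective _ h'))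
  rw [e1, e2, Matrix.det_diagonal, Matrix.det_diagonal, Fin.prod_univ_succ, Fin.prod_univ_succ]
  simp
  ring

/-- tangent vectors of the slab with a frame -/
private theorem Rf_tan (L : Ln X Λ u D κ p e c Γ₀ s) {x v w : EN N} (hx : x ∈ Yl X Λ u p e s) (hv : Tan (Yl X Λ u p e s) x v)
    (hw : Tan (Yl X Λ u p e s) x w) (i : Fin (k + 2)) : Tan X x ((Fin.cons v (Fin.cons w (lf X Λ u p e s κ c x)) : Fin (k + 2) → EN N) i) := by
  obtain ⟨a, ha⟩ := L.tan hx hv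
  obtain ⟨b, hb⟩ := L.tan hx hw
  refine Fin.cases ?_ (fun i => ?_) i
  · exact ha.tan
  · refine Fin.cases ?_ (fun i => ?_) i
    · exact hb.tan
    · exact (L.lf_spec hx i).tan

private theorem Rf_det_an {E : Type*} [NormedAddCommGroup E] [NormedSpace ℂ E] {m : ℕ} {M : E → Matrix (Fin m) (Fin m) ℂ} {z : E}
    (h : ∀ i j, AnalyticAt ℂ (fun y => M y i j) z) : AnalyticAt ℂ (fun y => (M y).det) z := by
  simp only [Matrix.det_apply']
  refine Finset.analyticAt_fun_sum _ fun σ _ => ?_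
  exact analyticAt_const.mul (Finset.analyticAt_fun_prod _ fun i _ => h _ _)

/-- the lift of `u` along the slab -/
private theorem Rf_lift (L : Ln X Λ u D κ p e c Γ₀ s) (χ : Chart (k + 2) X) {x₀ : EN N} (hx₀ : x₀ ∈ Yl X Λ u p e s) (hU : x₀ ∈ χ.U)
    {υ : Vd (k + 2) → Vd (k + 1)} (hυ : AnalyticAt ℂ υ (χ.q x₀)) (hυe : υ (χ.q x₀) = p + wl Λ u p e s x₀ • e)
    (hυl : ∀ᶠ q in 𝓝 (χ.q x₀), u (χ.σ q) - υ q ∈ Λ) :
    ∀ᶠ x in 𝓝 x₀, x ∈ Yl X Λ u p e s → υ (χ.q x) = p + wl Λ u p e s x • e := by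
  obtain ⟨W, hW, hWl⟩ := L.exists_loc hx₀
  have hW0 : wl Λ u p e s x₀ = W x₀ := hWl.self_of_nhds hx₀
  obtain ⟨δ, hδ, hd⟩ := L.lat.disc
  have hqt : Tendsto χ.q (𝓝 x₀) (𝓝 (χ.q x₀)) := (χ.q_an x₀ hU).continuousAt
  have h1 : Tendsto (fun x => υ (χ.q x) - (p + W x • e)) (𝓝 x₀) (𝓝 (υ (χ.q x₀) - (p + W x₀ • e))) :=
    (hυ.continuousAt.tendsto.comp hqt).sub (tendsto_const_nhds.add (hW.continuousAt.tendsto.smul_const e))
  rw [hυe, hW0, sub_self] at h1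
  have h2 : ∀ᶠ x in 𝓝 x₀, ‖υ (χ.q x) - (p + W x • e)‖ < δ := by
    apply h1.norm.eventually_lt_const
    rwa [norm_zero]
  filter_upwards [hWl, h2, χ.isOpen_U.mem_nhds hU, hqt.eventually hυl] with x k1 k2 k3 k4 hx
  obtain ⟨hb, c', hc', hcx⟩ := χ.surj x hx.1 k3
  have k5 := smul_mem_lat L.tor (χ.σ_mem _ hb).1 k4 hc'
  rw [← hcx] at k5
  have k6 := Λ.sub_mem (Ln.wl_spec hx).2 k5
  have k7 : u x - (p + wl Λ u p e s x • e) - (u x - υ (χ.q x)) = υ (χ.q x) - (p + wl Λ u p e s x • e) := by abel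
  rw [k7] at k6
  rw [k1 hx] at k6 ⊢
  exact sub_eq_zero.1 (hd _ k6 k2)

/-- the restricted form -/
noncomputable def Ln.form (L : Ln X Λ u D κ p e c Γ₀ s) (α : VForm X Λ u) :
    Pool.Agent.H62.EL.TForm (Yl X Λ u p e s) Γ₀ (wl Λ u p e s) where
  toFun := fun _ x v w => α.toFun (p + wl Λ u p e s x • e) x (Fin.cons v (Fin.cons w (lf X Λ u p e s κ c x)))
  add_smul := by
    intro z x hx _ v w hv hw a b
    have h1 := α.add_smul _ x hx.1 (Ln.wl_spec hx).2 _ (Rf_tan L hx hv hw) (Fin.cons a (Fin.cons b 0))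
    rw [← h1]
    congr 1
    funext i
    refine Fin.cases ?_ (fun i => ?_) i
    · rfl
    · refine Fin.cases ?_ (fun i => ?_) i
      · rfl
      · simp
  det := by
    intro z x hx _ v w hv hw a b c' d
    have h1 := α.det _ x hx.1 (Ln.wl_spec hx).2 _ (Rf_tan L hx hv hw)
      (Matrix.of fun i j => (Fin.cons (Fin.cons a (Fin.cons b 0) : Fin (k + 2) → ℂ)
      (Fin.cons (Fin.cons c' (Fin.cons d 0) : Fin (k + 2) → ℂ) fun i : Fin k => (Pi.single i.succ.succ 1 : Fin (k + 2) → ℂ)) :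
        Fin (k + 2) → Fin (k + 2) → ℂ) i j)
    rw [Rf_det] at h1
    rw [← h1]
    congr 1
    funext i
    rw [Fin.sum_univ_succ, Fin.sum_univ_succ]
    refine Fin.cases ?_ (fun i => ?_) i
    · simp [Matrix.of_apply]
    · refine Fin.cases ?_ (fun i => ?_) i
      · simp [Matrix.of_apply]
      · simp only [Matrix.of_apply, Fin.cons_succ, Fin.cons_zero]
        rw [Pi.single_eq_of_ne (Fin.succ_ne_zero _).symm, Pi.single_eq_of_ne (fun h => by have h' := congrArg Fin.val h; simp at h'),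
          zero_smul, zero_smul, zero_add, zero_add, Finset.sum_eq_single i]
        · simp
        · intro j _ hj
          rw [Pi.single_eq_of_ne (fun h => hj (Fin.succ_injective _ (Fin.succ_injective _ h))), zero_smul]
        · intro h
          exact absurd (Finset.mem_univ i) h
  scale := by
    intro z x hx _ v w hv hw a ha
    obtain ⟨b₁, hb₁⟩ := L.tan hx hv
    obtain ⟨b₂, hb₂⟩ := L.tan hx hw
    have hax : a • x ∈ Yl X Λ u p e s := L.isCone.smul_mem x hx a ha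
    have h1 := L.frame_indep α hax (hb₁.smul_pt L.cone L.tor ha) (hb₂.smul_pt L.cone L.tor ha) (L.lf_spec hax)
      (ℓ' := fun j => a • lf X Λ u p e s κ c x j) (fun j => by
        rw [L.wl_smul hx ha]
        exact (L.lf_spec hx j).smul_pt L.cone L.tor ha)
    rw [h1, L.wl_smul hx ha]
    have h2 := α.scale _ x hx.1 (Ln.wl_spec hx).2 _ (Rf_tan L hx hv hw) a ha
    rw [← h2]
    congr 1
    funext i
    refine Fin.cases ?_ (fun i => ?_) i
    · rfl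
    · refine Fin.cases ?_ (fun i => ?_) i
      · rfl
      · rfl
  analytic := by
    intro φ υ₀ q₀ hφ _ hev
    have hx₀ : φ q₀ ∈ Yl X Λ u p e s := hev.self_of_nhds.1
    obtain ⟨χ, lam, hU, hlam, hfr⟩ := L.frame_coord hx₀
    obtain ⟨υ, hυ, hυe, hυl⟩ := exists_lift_chart L.cone L.tor χ hx₀.1 hU (Ln.wl_spec hx₀).2
    have hb₀ : χ.q (φ q₀) ∈ ball (0 : Vd (k + 2)) 2 := (χ.surj _ hx₀.1 hU).1
    have hqφ : AnalyticAt ℂ (fun y => χ.q (φ y)) q₀ := AnalyticAt.fun_comp (χ.q_an _ hU) hφ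
    have htc : AnalyticAt ℂ (fun y => tc α χ υ (χ.q (φ y))) q₀ := AnalyticAt.fun_comp (tc_an α χ hb₀ hυ hυl) hqφ
    have hrow : ∀ (v : ℂ × ℂ) (i : Fin (k + 2)), AnalyticAt ℂ (fun y => fderiv ℂ (fun y => χ.q (φ y)) y v i) q₀ := by
      intro v i
      have h2 : AnalyticAt ℂ (fun A : ℂ × ℂ →L[ℂ] Vd (k + 2) => A v) (fderiv ℂ (fun y => χ.q (φ y)) q₀) :=
        (ContinuousLinearMap.apply ℂ (Vd (k + 2)) v).analyticAt _
      have h3 : AnalyticAt ℂ (fun y => fderiv ℂ (fun y => χ.q (φ y)) y v) q₀ :=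
        AnalyticAt.comp (g := fun A : ℂ × ℂ →L[ℂ] Vd (k + 2) => A v) (f := fun y => fderiv ℂ (fun y => χ.q (φ y)) y) h2 hqφ.fderiv
      exact (analyticAt_pi_iff.1 h3) i
    have hlamφ : AnalyticAt ℂ (fun y => lam (φ y)) q₀ := AnalyticAt.fun_comp hlam hφ
    have hdet : AnalyticAt ℂ (fun y => (Matrix.of fun i j => (Fin.cons (fderiv ℂ (fun y => χ.q (φ y)) y (1, 0))
        (Fin.cons (fderiv ℂ (fun y => χ.q (φ y)) y (0, 1)) (lam (φ y))) : Fin (k + 2) → Vd (k + 2)) i j).det) q₀ := by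
      refine Rf_det_an fun i j => ?_
      refine Fin.cases ?_ (fun i => ?_) i
      · exact hrow _ j
      · refine Fin.cases ?_ (fun i => ?_) i
        · exact hrow _ j
        · exact (analyticAt_pi_iff.1 ((analyticAt_pi_iff.1 hlamφ) i)) j
    refine (hdet.mul htc).congr ?_
    have hφt : Tendsto φ (𝓝 q₀) (𝓝 (φ q₀)) := hφ.continuousAt
    filter_upwards [hev.eventually_nhds, hφ.eventually_analyticAt, hφt.eventually hfr, hφt.eventually (Rf_lift L χ hx₀ hU hυ hυe hυl),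
      hφt.eventually (χ.isOpen_U.mem_nhds hU)] with y h1 h2 h3 h4 h5
    have hy : φ y ∈ Yl X Λ u p e s := h1.self_of_nhds.1
    -- tangent vectors
    have htan : ∀ v : ℂ × ℂ, Tan (Yl X Λ u p e s) (φ y) (fderiv ℂ φ y v) := by
      intro v
      have hl : AnalyticAt ℂ (fun z : ℂ => y + z • v) 0 := by fun_prop
      have h0 : y + (0 : ℂ) • v = y := by simp
      have hσ : AnalyticAt ℂ φ (y + (0 : ℂ) • v) := by rw [h0]; exact h2
      refine ⟨fun z => φ (y + z • v), ⟨AnalyticAt.comp (g := φ) (f := fun z : ℂ => y + z • v) hσ hl, ?_⟩, by simp, ?_⟩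
      · have ht : Tendsto (fun z : ℂ => y + z • v) (𝓝 0) (𝓝 y) := by
          have h6 := hl.continuousAt.tendsto
          rwa [h0] at h6
        exact (ht.eventually h1).mono fun z hz => hz.1
      · have k1 : HasFDerivAt φ (fderiv ℂ φ y) (y + (0 : ℂ) • v) := by
          rw [h0]; exact h2.differentiableAt.hasFDerivAt
        have k2 : HasDerivAt (fun z : ℂ => y + z • v) v 0 := by
          have k3 : HasDerivAt (fun z : ℂ => z • v) ((1 : ℂ) • v) 0 := (hasDerivAt_id (0 : ℂ)).smul_const v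
          rw [one_smul] at k3
          exact k3.const_add y
        exact (k1.comp_hasDerivAt (0 : ℂ) k2).deriv
    have hchain : ∀ v : ℂ × ℂ, fderiv ℂ χ.q (φ y) (fderiv ℂ φ y v) = fderiv ℂ (fun y => χ.q (φ y)) y v := by
      intro v
      have k3 : HasFDerivAt (fun y => χ.q (φ y)) ((fderiv ℂ χ.q (φ y)).comp (fderiv ℂ φ y)) y :=
        (χ.q_an _ h5).differentiableAt.hasFDerivAt.comp y h2.differentiableAt.hasFDerivAt
      rw [k3.fderiv]
      rfl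
    have hℓ : ∀ j, ∃ w : EN N, Tan X (φ y) w ∧ fderiv ℂ χ.q (φ y) w = lam (φ y) j := fun j => exists_tan L.cone χ hy.1 h5 _
    choose ℓ hℓ1 hℓ2 using hℓ
    have hℓ3 : ∀ j, DV X Λ u (φ y) (ℓ j) (fr κ c (wl Λ u p e s (φ y)) j) := fun j => h3 hy j _ (hℓ1 j) (hℓ2 j)
    obtain ⟨a, ha⟩ := L.tan hy (htan (1, 0))
    obtain ⟨b, hb⟩ := L.tan hy (htan (0, 1))
    show _ = α.toFun (p + wl Λ u p e s (φ y) • e) (φ y) (Fin.cons (fderiv ℂ φ y (1, 0)) (Fin.cons (fderiv ℂ φ y (0, 1)) (lf X Λ u p e s κ c (φ y))))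
    rw [L.frame_indep α hy ha hb (L.lf_spec hy) hℓ3, toFun_eq L.cone L.tor α χ hy.1 h5 (Ln.wl_spec hy).2 (h4 hy) _ (by
      intro i
      refine Fin.cases ?_ (fun i => ?_) i
      · exact ha.tan
      · refine Fin.cases ?_ (fun i => ?_) i
        · exact hb.tan
        · exact hℓ1 i)]
    refine congrArg (fun z : ℂ => z * tc α χ υ (χ.q (φ y))) (congrArg Matrix.det ?_)
    ext i j
    refine Fin.cases ?_ (fun i => ?_) i
    · exact (congrFun (hchain (1, 0)) j).symm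
    · refine Fin.cases ?_ (fun i => ?_) i
      · exact (congrFun (hchain (0, 1)) j).symm
      · exact (congrFun (hℓ2 i) j).symm

theorem Ln.form_eq (L : Ln X Λ u D κ p e c Γ₀ s) (α : VForm X Λ u) (z : ℂ) {x v w : EN N} (hx : x ∈ Yl X Λ u p e s)
    (hv : Tan (Yl X Λ u p e s) x v) (hw : Tan (Yl X Λ u p e s) x w) {ℓ : Fin k → EN N}
    (hℓ : ∀ j, DV X Λ u x (ℓ j) (fr κ c (wl Λ u p e s x) j)) :
    (L.form α).toFun z x v w = α.toFun (p + wl Λ u p e s x • e) x (Fin.cons v (Fin.cons w ℓ)) := by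
  obtain ⟨a, ha⟩ := L.tan hx hv
  obtain ⟨b, hb⟩ := L.tan hx hw
  exact L.frame_indep α hx ha hb (L.lf_spec hx) hℓ

end Pool.Agent.TG

end

section

/-!
# TG Y Br: short paths in the slab

`sl y = cons y.2 (ρ⁻¹ (p + (z₀ + r y.1) e - c'))`: the slice of the straight chart `χ` over the line.

`Ln.slice_chart`: `r > 0` small: for `‖y.1‖ < 2`: `‖z₀ + r y.1‖ < s` and the tail of `sl y` stays in the open ball of radius `2` (at `y.1 = 0` it is `tl q₀`).  `U' = {x ∈ χ.U : ‖tl (χ.q x) - tl q₀‖ < η', ‖q'₁ x‖ < 2}`, `q' x = ((ℓ (ms c' ρ (χ.q x) - p) - z₀) / r, (χ.q x) 0)` with a linear form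
`ℓ`, `ℓ e = 1`; `η'` such that `ρ η' ≤ s ‖e‖` and `r` small w.r.t. `η'` (so that `sl y` satisfies the conditions).  `surj`: let `x ∈ Y ∩ U'`: `ms c' ρ (χ.q x) - (p + wl x • e) ∈ Λ` has norm `≤ ρ η' + ‖(z₀ - wl x) • e‖ ≤ s ‖e‖ + 2 s ‖e‖`, so it is `0` (`L.small`): `χ.q x = sl (q' x)`, and
`x = a • χ.σ (χ.q x)`.  `σ_mem`: `χ.σ (sl y) ∈ X` is over `p + (z₀ + r y.1) • e` (`Str.lift`), `wl = z₀ + r y.1` (`Ln.wl_eq`).  `Mon`: `mo z₀ r 1 0 y = z₀ + r y.1`.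

`Ln.slice_tc`: `form_eq` at `x = χ.σ (sl y)` with the vectors `∂₁ = fderiv χ'.σ y (1, 0) = fderiv χ.σ (sl y) (cons 0 ((r / ρ) e))`, `∂₂ = fderiv χ.σ (sl y) (Pi.single 0 1)` and the frame `ℓ j = fderiv χ.σ (sl y) (cons 0 (ρ⁻¹ fr_j))` (`dv_iff` with `υ = ms c' ρ`; `wl x = z₀ + r y.1`); `toFun_eq`:
the matrix has the rows `(0, (r / ρ) e)`, `(1, 0)`, `(0, ρ⁻¹ fr_j)`; its determinant is `- (r / ρ) ρ⁻ᵏ dt` (expand along the row `1` or the column `0`: `Matrix.det_succ_column_zero`).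

`Ln.irel_bridge`: let `χ, c', ρ, A, q, q'` be from `IRel`: `ms c' ρ q = p + z • e = ms c' ρ q'`, so `tl q = tl q'`.  `χ', r` from `slice_chart` with `z₀ = z`, `q₀ = q`; `A' y = - (r / ρ ^ (k + 1)) * dt κ e c (z + r y.1) * A (sl y)` is a primitive of the restricted form (`slice_tc`, `IsPrim` for `χ`;
analytic: `dt` is analytic at points of norm `< s`: `L.κ_an`, `L.c_an`); the points `(0, q 0)`, `(0, q' 0)` have `sl = q, q'`.  `v' = (A' (0, q' 0) - A' (0, q 0)) / r = - dt κ e c z * v`.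
-/

set_option autoImplicit false

open Topology Filter Metric

namespace Pool.Agent.TG

open Pool.Agent.H36.BP (EN fs wd)
open Pool.Agent.H14.PP (IsCone CurveAt Tan)
open Pool.Agent.H62.EF (MN pr)
open Pool.Agent.AD (Vd Chart Charts IsGerm)

variable {N k : ℕ}

variable {X : Set (EN N)} {Λ : AddSubgroup (Vd (k + 1))} {u : EN N → Vd (k + 1)} {D B : Set (Vd (k + 1))}
  {κ : Vd (k + 1) → Vd (k + 1)} {p e : Vd (k + 1)} {c : ℂ → Vd (k + 1)} {Γ₀ : AddSubgroup ℂ} {s : ℝ}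

theorem Ln.slice_tc (L : Ln X Λ u D κ p e c Γ₀ s) (α : VForm X Λ u) (χ : Chart (k + 2) X) {c' : Vd (k + 1)} {ρ : ℝ} (hs : Str Λ u χ c' ρ)
    {z₀ : ℂ} {r : ℝ} (hr : 0 < r) {χ' : Pool.Agent.H14.PP.Chart (Yl X Λ u p e s)}
    (hσ : ∀ y ∈ ball (0 : ℂ × ℂ) 2, ‖z₀ + r * y.1‖ < s ∧ slc p e c' ρ z₀ r y ∈ ball (0 : Vd (k + 2)) 2 ∧ χ'.σ y = χ.σ (slc p e c' ρ z₀ r y))
    (υ : ℂ × ℂ → ℂ) {y : ℂ × ℂ} (hy : y ∈ ball (0 : ℂ × ℂ) 2) :
    Pool.Agent.H62.EL.tc (L.form α) χ' υ y =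
      -((r : ℂ) / (ρ : ℂ) ^ (k + 1)) * dt κ e c (z₀ + r * y.1) * tc α χ (ms c' ρ) (slc p e c' ρ z₀ r y) := by
  obtain ⟨hz, hq, hσy⟩ := hσ y hy
  have hρ := hs.pos
  have hρ0 : (ρ : ℂ) ≠ 0 := by exact_mod_cast hρ.ne'
  have hmY := (χ'.σ_mem y hy).1
  have hmχ := χ.σ_mem _ hq
  have hlift := hs.lift _ hq
  rw [Br_slc_ms p e c' hρ] at hlift
  have hwl : wl Λ u p e s (χ'.σ y) = z₀ + r * y.1 := by
    rw [hσy]
    exact L.wl_eq hz.le hlift
  have hder : fderiv ℂ χ'.σ y = (fderiv ℂ χ.σ (slc p e c' ρ z₀ r y)).comp (Br_slL e ρ r) := by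
    have h1 : HasFDerivAt (fun y => χ.σ (slc p e c' ρ z₀ r y)) ((fderiv ℂ χ.σ (slc p e c' ρ z₀ r y)).comp (Br_slL e ρ r)) y :=
      (χ.σ_an _ hq).differentiableAt.hasFDerivAt.comp y (Br_slc_deriv p e c' ρ z₀ r y)
    refine (h1.congr_of_eventuallyEq ?_).fderiv
    filter_upwards [isOpen_ball.mem_nhds hy] with y' hy'
    exact (hσ y' hy').2.2
  have hpart : Pool.Agent.H14.PP.IsOpenPart (Yl X Λ u p e s) (Yl X Λ u p e s) :=
    ⟨subset_rfl, (L.isCone).smul_mem, fun x hx => Eventually.of_forall fun _ h => h⟩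
  have htan : ∀ w : ℂ × ℂ, Tan (Yl X Λ u p e s) (χ'.σ y) (fderiv ℂ χ'.σ y w) := fun w => χ'.tan hpart hy hmY w
  -- the frame
  have hframe : ∀ j, DV X Λ u (χ'.σ y) (fderiv ℂ χ.σ (slc p e c' ρ z₀ r y) (Fin.cons (α := fun _ => ℂ) 0 ((ρ : ℂ)⁻¹ • fr κ c (z₀ + r * y.1) j)))
      (fr κ c (wl Λ u p e s (χ'.σ y)) j) := by
    intro j
    rw [hwl, hσy]
    refine (dv_iff L.cone L.tor L.lat χ hmχ.1 hmχ.2.1 (υ := ms c' ρ) ?_ ?_).2 ⟨tan_sigma χ hq _, ?_⟩
    · exact analyticAt_const.add (((ρ : ℂ) • tlL (k := k)).analyticAt _)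
    · rw [hmχ.2.2]
      filter_upwards [isOpen_ball.mem_nhds hq] with q' hq'
      exact hs.lift q' hq'
    · rw [χ.fderiv_sigma hq]
      have h1 : HasFDerivAt (ms (k := k) c' ρ) ((ρ : ℂ) • tlL (k := k)) (χ.q (χ.σ (slc p e c' ρ z₀ r y))) :=
        (((ρ : ℂ) • tlL (k := k)).hasFDerivAt).const_add c'
      rw [h1.fderiv]
      show (ρ : ℂ) • ((ρ : ℂ)⁻¹ • fr κ c (z₀ + r * y.1) j) = fr κ c (z₀ + r * y.1) j
      rw [smul_smul, mul_inv_cancel₀ hρ0, one_smul]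
  unfold Pool.Agent.H62.EL.tc
  rw [L.form_eq α (υ y) hmY (htan _) (htan _) hframe, hwl]
  have hT : ∀ i : Fin (k + 2), Tan X (χ'.σ y) ((Fin.cons (fderiv ℂ χ'.σ y (1, 0)) (Fin.cons (fderiv ℂ χ'.σ y (0, 1))
      fun j => fderiv ℂ χ.σ (slc p e c' ρ z₀ r y) (Fin.cons (α := fun _ => ℂ) 0 ((ρ : ℂ)⁻¹ • fr κ c (z₀ + r * y.1) j))) : Fin (k + 2) → EN N) i) := by
    intro i
    rw [hσy]
    refine Fin.cases ?_ (fun i' => Fin.cases ?_ (fun j => ?_) i') i
    · show Tan X _ (fderiv ℂ χ'.σ y (1, 0))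
      rw [hder]
      exact tan_sigma χ hq _
    · show Tan X _ (fderiv ℂ χ'.σ y (0, 1))
      rw [hder]
      exact tan_sigma χ hq _
    · exact tan_sigma χ hq _
  have hms : ms c' ρ (χ.q (χ'.σ y)) = p + (z₀ + r * y.1) • e := by
    rw [hσy, hmχ.2.2]
    exact Br_slc_ms p e c' hρ z₀ r y
  have hxU : χ'.σ y ∈ χ.U := by
    rw [hσy]
    exact hmχ.2.1
  have hlift' : u (χ'.σ y) - (p + (z₀ + r * y.1) • e) ∈ Λ := by
    rw [hσy]
    exact hlift
  rw [toFun_eq L.cone L.tor α χ hmY.1 hxU hlift' hms _ hT]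
  have hqσ : χ.q (χ'.σ y) = slc p e c' ρ z₀ r y := by
    rw [hσy]
    exact hmχ.2.2
  have hM : (Matrix.of fun i j => fderiv ℂ χ.q (χ'.σ y) ((Fin.cons (fderiv ℂ χ'.σ y (1, 0)) (Fin.cons (fderiv ℂ χ'.σ y (0, 1))
      fun j => fderiv ℂ χ.σ (slc p e c' ρ z₀ r y) (Fin.cons (α := fun _ => ℂ) 0 ((ρ : ℂ)⁻¹ • fr κ c (z₀ + r * y.1) j))) : Fin (k + 2) → EN N) i) j) =
      Matrix.of fun i j => (Fin.cons (Fin.cons (α := fun _ => ℂ) 0 (((r : ℂ) * (ρ : ℂ)⁻¹) • e)) (Fin.cons (Pi.single 0 1)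
      fun l => Fin.cons (α := fun _ => ℂ) 0 ((ρ : ℂ)⁻¹ • fr κ c (z₀ + r * y.1) l)) : Fin (k + 2) → Vd (k + 2)) i j := by
    have h1 : ∀ w : Vd (k + 2), fderiv ℂ χ.q (χ'.σ y) (fderiv ℂ χ.σ (slc p e c' ρ z₀ r y) w) = w := by
      intro w
      rw [hσy]
      exact χ.fderiv_sigma hq w
    funext i
    refine Fin.cases ?_ (fun i' => Fin.cases ?_ (fun j => ?_) i') i
    · show fderiv ℂ χ.q (χ'.σ y) (fderiv ℂ χ'.σ y (1, 0)) = Fin.cons (α := fun _ => ℂ) 0 (((r : ℂ) * (ρ : ℂ)⁻¹) • e)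
      rw [hder, ContinuousLinearMap.comp_apply, h1, Br_slL_apply]
      congr 1
      rw [smul_smul]
      congr 1
      ring
    · show fderiv ℂ χ.q (χ'.σ y) (fderiv ℂ χ'.σ y (0, 1)) = Pi.single 0 1
      rw [hder, ContinuousLinearMap.comp_apply, h1, Br_slL_apply]
      funext m
      refine Fin.cases ?_ (fun m' => ?_) m
      · show (1 : ℂ) = (Pi.single 0 1 : Vd (k + 2)) 0
        rw [Pi.single_eq_same]
      · show (ρ : ℂ)⁻¹ * ((r * 0) * e m') = (Pi.single 0 1 : Vd (k + 2)) m'.succ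
        rw [Pi.single_eq_of_ne (Fin.succ_ne_zero m')]
        ring
    · show fderiv ℂ χ.q (χ'.σ y) (fderiv ℂ χ.σ (slc p e c' ρ z₀ r y) (Fin.cons (α := fun _ => ℂ) 0 ((ρ : ℂ)⁻¹ • fr κ c (z₀ + r * y.1) j))) =
        Fin.cons (α := fun _ => ℂ) 0 ((ρ : ℂ)⁻¹ • fr κ c (z₀ + r * y.1) j)
      exact h1 _
  rw [hM, Br_det, hqσ]
  unfold dt
  rw [inv_pow]
  ring

theorem Ln.irel_bridge (L : Ln X Λ u D κ p e c Γ₀ s) {α : VForm X Λ u} {ε : ℝ} {z : ℂ} (hz : ‖z‖ < s) {m m' : MN N} {v : ℂ}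
    (h : IRel α ε (p + z • e) m m' v) : Pool.Agent.H62.EL.IRel (L.form α) ε z m m' (-dt κ e c z * v) := by
  obtain ⟨χ, c', ρ, A, q, q', hs, hA, hq, hq', hms, hms', hm, hm', hpath, hv⟩ := h
  have hρ := hs.pos
  have hρ0 : (ρ : ℂ) ≠ 0 := by exact_mod_cast hρ.ne'
  obtain ⟨χ', r, hmon, hσ, -⟩ := L.slice_chart χ hs hq hz hms
  have hr := hmon.pos
  have hr0 : (r : ℂ) ≠ 0 := by exact_mod_cast hr.ne'
  have hsl : ∀ (q : Vd (k + 2)), ms c' ρ q = p + z • e → slc p e c' ρ z r (0, q 0) = q := by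
    intro q h
    refine Br_slc_eq p e c' hρ z r (y := (0, q 0)) rfl ?_
    rw [mul_zero, add_zero]
    exact h
  have hy : ∀ (q : Vd (k + 2)), q ∈ ball (0 : Vd (k + 2)) 2 → ((0 : ℂ), q 0) ∈ ball (0 : ℂ × ℂ) 2 := by
    intro q hq
    rw [Br_ball_iff]
    refine ⟨?_, ((Br_ball_iff' q).1 hq).1⟩
    show ‖(0 : ℂ)‖ < 2
    rw [norm_zero]
    norm_num
  have hb : ∀ y ∈ ball (0 : ℂ × ℂ) 2, AnalyticAt ℂ (fun y : ℂ × ℂ => dt κ e c (z + r * y.1)) y := by
    intro y hy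
    have h1 : AnalyticAt ℂ (fun y : ℂ × ℂ => z + (r : ℂ) * y.1) y :=
      analyticAt_const.add (analyticAt_const.mul ((ContinuousLinearMap.fst ℂ ℂ ℂ).analyticAt y))
    exact AnalyticAt.fun_comp (g := dt κ e c) (f := fun y : ℂ × ℂ => z + (r : ℂ) * y.1) (Br_dt_an L (hσ y hy).1.le) h1
  have hAs : ∀ y ∈ ball (0 : ℂ × ℂ) 2, AnalyticAt ℂ (fun y => A (slc p e c' ρ z r y)) y :=
    fun y hy => (hA.an _ (hσ y hy).2.1).fun_comp (Br_slc_an p e c' ρ z r y)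
  refine ⟨χ', z, r, fun y => -((r : ℂ) / (ρ : ℂ) ^ (k + 1)) * dt κ e c (z + r * y.1) * A (slc p e c' ρ z r y), (0, q 0), (0, q' 0), hmon,
    ⟨?_, ?_, ?_⟩, hy q hq, hy q' hq', ?_, ?_, ?_, ?_, ?_, ?_⟩
  · intro y hy
    exact (analyticAt_const.mul (hb y hy)).mul (hAs y hy)
  · intro y hy
    rw [L.slice_tc α χ hs hr hσ _ hy]
    have h1 : HasFDerivAt (fun y => A (slc p e c' ρ z r y)) ((fderiv ℂ A (slc p e c' ρ z r y)).comp (Br_slL e ρ r)) y :=
      (hA.an _ (hσ y hy).2.1).differentiableAt.hasFDerivAt.comp y (Br_slc_deriv p e c' ρ z r y)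
    have h2 : HasDerivAt (fun t : ℂ => A (slc p e c' ρ z r (y + t • ((0 : ℂ), (1 : ℂ))))) (tc α χ (ms c' ρ) (slc p e c' ρ z r y)) 0 := by
      have h3 : HasDerivAt (fun t : ℂ => y + t • ((0 : ℂ), (1 : ℂ))) ((0 : ℂ), (1 : ℂ)) 0 := by
        have h4 := ((hasDerivAt_id (0 : ℂ)).smul_const ((0 : ℂ), (1 : ℂ))).const_add y
        rwa [one_smul] at h4
      have h5 : HasFDerivAt (fun y => A (slc p e c' ρ z r y)) ((fderiv ℂ A (slc p e c' ρ z r y)).comp (Br_slL e ρ r))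
          (y + (0 : ℂ) • ((0 : ℂ), (1 : ℂ))) := by
        rw [zero_smul, add_zero]
        exact h1
      have h6 := h5.comp_hasDerivAt (0 : ℂ) h3
      have h7 : ((fderiv ℂ A (slc p e c' ρ z r y)).comp (Br_slL e ρ r)) ((0 : ℂ), (1 : ℂ)) = tc α χ (ms c' ρ) (slc p e c' ρ z r y) := by
        rw [ContinuousLinearMap.comp_apply, Br_slL_apply, ← hA.der _ (hσ y hy).2.1]
        congr 1
        funext m
        refine Fin.cases ?_ (fun m' => ?_) m
        · show (1 : ℂ) = (Pi.single 0 1 : Vd (k + 2)) 0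
          rw [Pi.single_eq_same]
        · show (ρ : ℂ)⁻¹ * ((r * 0) * e m') = (Pi.single 0 1 : Vd (k + 2)) m'.succ
          rw [Pi.single_eq_of_ne (Fin.succ_ne_zero m')]
          ring
      rw [h7] at h6
      exact h6
    have h8 : HasDerivAt (fun t : ℂ => (fun y : ℂ × ℂ => -((r : ℂ) / (ρ : ℂ) ^ (k + 1)) * dt κ e c (z + r * y.1) * A (slc p e c' ρ z r y))
        (y + t • ((0 : ℂ), (1 : ℂ)))) (-((r : ℂ) / (ρ : ℂ) ^ (k + 1)) * dt κ e c (z + r * y.1) * tc α χ (ms c' ρ) (slc p e c' ρ z r y)) 0 := by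
      have h9 := h2.const_mul (-((r : ℂ) / (ρ : ℂ) ^ (k + 1)) * dt κ e c (z + r * y.1))
      refine h9.congr_of_eventuallyEq (Eventually.of_forall fun t => ?_)
      show -((r : ℂ) / (ρ : ℂ) ^ (k + 1)) * dt κ e c (z + r * (y.1 + t * 0)) * A (slc p e c' ρ z r (y + t • ((0 : ℂ), (1 : ℂ)))) =
        -((r : ℂ) / (ρ : ℂ) ^ (k + 1)) * dt κ e c (z + r * y.1) * A (slc p e c' ρ z r (y + t • ((0 : ℂ), (1 : ℂ))))
      rw [mul_zero, add_zero]
    have h10 : HasDerivAt (fun t : ℂ => (fun y : ℂ × ℂ => -((r : ℂ) / (ρ : ℂ) ^ (k + 1)) * dt κ e c (z + r * y.1) * A (slc p e c' ρ z r y))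
        (y + t • ((0 : ℂ), (1 : ℂ)))) (fderiv ℂ (fun y : ℂ × ℂ => -((r : ℂ) / (ρ : ℂ) ^ (k + 1)) * dt κ e c (z + r * y.1) *
          A (slc p e c' ρ z r y)) y ((0 : ℂ), (1 : ℂ))) 0 := by
      have h3 : HasDerivAt (fun t : ℂ => y + t • ((0 : ℂ), (1 : ℂ))) ((0 : ℂ), (1 : ℂ)) 0 := by
        have h4 := ((hasDerivAt_id (0 : ℂ)).smul_const ((0 : ℂ), (1 : ℂ))).const_add y
        rwa [one_smul] at h4
      have h11 := ((analyticAt_const.mul (hb y hy)).mul (hAs y hy) : AnalyticAt ℂ (fun y : ℂ × ℂ =>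
        -((r : ℂ) / (ρ : ℂ) ^ (k + 1)) * dt κ e c (z + r * y.1) * A (slc p e c' ρ z r y)) y).differentiableAt.hasFDerivAt
      have h5 : HasFDerivAt (fun y : ℂ × ℂ => -((r : ℂ) / (ρ : ℂ) ^ (k + 1)) * dt κ e c (z + r * y.1) * A (slc p e c' ρ z r y))
          (fderiv ℂ (fun y : ℂ × ℂ => -((r : ℂ) / (ρ : ℂ) ^ (k + 1)) * dt κ e c (z + r * y.1) * A (slc p e c' ρ z r y)) y)
          (y + (0 : ℂ) • ((0 : ℂ), (1 : ℂ))) := by
        rw [zero_smul, add_zero]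
        exact h11
      exact h5.comp_hasDerivAt (0 : ℂ) h3
    exact h10.unique h8
  · intro t ht
    have h1 : ((t : ℂ), (0 : ℂ)) ∈ ball (0 : ℂ × ℂ) 2 := by
      rw [Br_ball_iff]
      refine ⟨ht, ?_⟩
      show ‖(0 : ℂ)‖ < 2
      rw [norm_zero]
      norm_num
    show -((r : ℂ) / (ρ : ℂ) ^ (k + 1)) * dt κ e c (z + r * t) * A (slc p e c' ρ z r (t, 0)) = 0
    rw [hA.zero _ (hσ _ h1).2.1 rfl, mul_zero]
  · show z + r * (0 : ℂ) = z
    rw [mul_zero, add_zero]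
  · show z + r * (0 : ℂ) = z
    rw [mul_zero, add_zero]
  · rw [(hσ _ (hy q hq)).2.2, hsl q hms]
    exact hm
  · rw [(hσ _ (hy q' hq')).2.2, hsl q' hms']
    exact hm'
  · intro θ hθ
    have h1 : ms c' ρ (q + (θ : ℂ) • (q' - q)) = p + z • e := by
      have h2 : ms c' ρ (q + (θ : ℂ) • (q' - q)) = ms c' ρ q + (θ : ℂ) • (ms c' ρ q' - ms c' ρ q) := by
        unfold ms
        rw [tl_add, tl_smul, tl_sub, smul_add, smul_comm (ρ : ℂ) (θ : ℂ), add_sub_add_left_eq_sub, ← smul_sub]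
        abel
      rw [h2, hms, hms', sub_self, smul_zero, add_zero]
    have hb2 : q + (θ : ℂ) • (q' - q) ∈ ball (0 : Vd (k + 2)) 2 := by
      have h3 := (convex_ball (0 : Vd (k + 2)) 2).add_smul_sub_mem hq hq' hθ
      have h4 : (θ : ℂ) • (q' - q) = θ • (q' - q) := by
        funext i
        show (θ : ℂ) * (q' - q) i = θ • (q' - q) i
        rw [Complex.real_smul]
      rw [h4]
      exact h3
    have h5 : ((0 : ℂ), q 0) + (θ : ℂ) • (((0 : ℂ), q' 0) - ((0 : ℂ), q 0)) = ((0 : ℂ), (q + (θ : ℂ) • (q' - q)) 0) := by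
      refine Prod.ext ?_ ?_
      · show (0 : ℂ) + (θ : ℂ) * (0 - 0) = 0
        ring
      · rfl
    rw [h5, (hσ _ (hy _ hb2)).2.2, hsl _ h1]
    exact hpath θ hθ
  · show -dt κ e c z * v = (-((r : ℂ) / (ρ : ℂ) ^ (k + 1)) * dt κ e c (z + r * 0) * A (slc p e c' ρ z r (0, q' 0)) -
      -((r : ℂ) / (ρ : ℂ) ^ (k + 1)) * dt κ e c (z + r * 0) * A (slc p e c' ρ z r (0, q 0))) / r
    rw [hsl q hms, hsl q' hms', mul_zero, add_zero, hv]
    have hρk : (ρ : ℂ) ^ (k + 1) ≠ 0 := pow_ne_zero _ hρ0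
    field_simp
    ring

end Pool.Agent.TG

end
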