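import Pool.Agent.H94.G4T.M07
import Pool.Agent.H94.G4T.M57
import Pool.Agent.H94.G4T.M74

/-! The parts of this file: G3.C.GenB, G3.X.Nc3, G3.X.Tb3, G3.C.GenC. -/

section

/-!
# G3 C GenB: generic analyticity

`gen_analytic`: if the jets of a family satisfy an analytic relation `Q (s, z, w_0, …, w_k) = 0` with `Q ≠ 0`, then `w` is analytic in `s` near some point.  Induction on `k`:
either some derivative of `Q` in the last variable is not identically `0` on the jets (`gen_step` for the first one), or `Q (s, z, w_0, …, w_{k-1}, v) = 0` for all `v`.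
-/

set_option autoImplicit false

open Topology Filter Metric

namespace Pool.Agent.G3.C

/-- all derivatives are `0`: the function is `0` -/
theorem eventually_zero_of_iteratedDeriv {f : ℂ → ℂ} {x : ℂ} (hf : AnalyticAt ℂ f x) (h : ∀ i, iteratedDeriv i f x = 0) : ∀ᶠ y in 𝓝 x, f y = 0 := by
  have h1 := hf.hasFPowerSeriesAt
  have h2 : FormalMultilinearSeries.ofScalars ℂ (fun n => iteratedDeriv n f x / (n.factorial : ℂ)) = 0 := by
    ext n
    simp [FormalMultilinearSeries.ofScalars, h]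
  rw [h2] at h1
  exact h1.eventually_eq_zero

theorem dk_iterate_analytic {k : ℕ} {O : Set (ℂ × ℂ × (Fin (k + 1) → ℂ))} {Q : ℂ × ℂ × (Fin (k + 1) → ℂ) → ℂ} (hQ : AnalyticOnNhd ℂ Q O) (i : ℕ) :
    AnalyticOnNhd ℂ (dk^[i] Q) O := by
  induction i with
  | zero => exact hQ
  | succ i ih =>
    rw [Function.iterate_succ_apply']
    exact fun q hq => dk_analytic (ih q hq)

/-- the slice in the last variable -/
noncomputable def slc {k : ℕ} (q : ℂ × ℂ × (Fin (k + 1) → ℂ)) (ω : ℂ) : ℂ × ℂ × (Fin (k + 1) → ℂ) :=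
  (q.1, q.2.1, Function.update q.2.2 (Fin.last k) ω)

theorem slc_hasDerivAt {k : ℕ} (q : ℂ × ℂ × (Fin (k + 1) → ℂ)) (ω : ℂ) : HasDerivAt (slc q) (0, 0, Pi.single (Fin.last k) 1) ω := by
  apply (hasDerivAt_const ω q.1).prodMk
  apply (hasDerivAt_const ω q.2.1).prodMk
  exact hasDerivAt_update q.2.2 (Fin.last k) ω

theorem slc_analytic {k : ℕ} (q : ℂ × ℂ × (Fin (k + 1) → ℂ)) (ω : ℂ) : AnalyticAt ℂ (slc q) ω := by
  have : Differentiable ℂ (slc q) := fun ω => (slc_hasDerivAt q ω).differentiableAt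
  exact this.analyticAt ω

theorem iteratedDeriv_slc {k : ℕ} {O : Set (ℂ × ℂ × (Fin (k + 1) → ℂ))} (hO : IsOpen O) {Q : ℂ × ℂ × (Fin (k + 1) → ℂ) → ℂ} (hQ : AnalyticOnNhd ℂ Q O)
    (q : ℂ × ℂ × (Fin (k + 1) → ℂ)) (i : ℕ) : ∀ ω : ℂ, slc q ω ∈ O → iteratedDeriv i (fun ω => Q (slc q ω)) ω = (dk^[i] Q) (slc q ω) := by
  induction i with
  | zero => intro ω _; simp
  | succ i ih =>
    intro ω hω
    rw [iteratedDeriv_succ, Function.iterate_succ_apply']
    have hev : iteratedDeriv i (fun ω => Q (slc q ω)) =ᶠ[𝓝 ω] fun ω => (dk^[i] Q) (slc q ω) := by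
      filter_upwards [(slc_analytic q ω).continuousAt.eventually_mem (hO.mem_nhds hω)] with ω' hω'
      exact ih ω' hω'
    rw [hev.deriv_eq]
    have h1 := ((dk_iterate_analytic hQ i) _ hω).differentiableAt.hasFDerivAt.comp_hasDerivAt ω (slc_hasDerivAt q ω)
    exact h1.deriv

theorem slc_combo {k : ℕ} (q : ℂ × ℂ × (Fin (k + 1) → ℂ)) (x y : ℂ) {a b : ℝ} (hab : a + b = 1) : slc q (a • x + b • y) = a • slc q x + b • slc q y := by
  have hab' : (a : ℂ) + (b : ℂ) = 1 := by rw [← Complex.ofReal_add, hab, Complex.ofReal_one]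
  simp only [slc, Prod.smul_mk, Prod.mk_add_mk, Complex.real_smul]
  refine Prod.ext ?_ (Prod.ext ?_ ?_)
  · show q.1 = a * q.1 + b * q.1
    rw [← add_mul, hab', one_mul]
  · show q.2.1 = a * q.2.1 + b * q.2.1
    rw [← add_mul, hab', one_mul]
  · ext i
    by_cases hi : i = Fin.last k
    · subst hi
      simp
    · simp only [Function.update_of_ne hi, Pi.add_apply, Pi.smul_apply, Complex.real_smul]
      rw [← add_mul, hab', one_mul]

theorem slc_preconnected {k : ℕ} {O : Set (ℂ × ℂ × (Fin (k + 1) → ℂ))} (hconv : Convex ℝ O) (q : ℂ × ℂ × (Fin (k + 1) → ℂ)) :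
    IsPreconnected {ω : ℂ | slc q ω ∈ O} := by
  apply Convex.isPreconnected
  intro x hx y hy a b ha hb hab
  show slc q (a • x + b • y) ∈ O
  rw [slc_combo q x y hab]
  exact hconv hx hy ha hb hab

/-- if all derivatives vanish at a point of the slice, `Q` vanishes on the slice -/
theorem slice_zero {k : ℕ} {O : Set (ℂ × ℂ × (Fin (k + 1) → ℂ))} (hO : IsOpen O) (hconv : Convex ℝ O) {Q : ℂ × ℂ × (Fin (k + 1) → ℂ) → ℂ}
    (hQ : AnalyticOnNhd ℂ Q O) {q : ℂ × ℂ × (Fin (k + 1) → ℂ)} (hq : q ∈ O) (h : ∀ i, (dk^[i] Q) q = 0) : ∀ ω : ℂ, slc q ω ∈ O → Q (slc q ω) = 0 := by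
  have hq0 : slc q (q.2.2 (Fin.last k)) = q := by simp [slc]
  have hin : slc q (q.2.2 (Fin.last k)) ∈ O := by rwa [hq0]
  have han : AnalyticOnNhd ℂ (fun ω => Q (slc q ω)) {ω : ℂ | slc q ω ∈ O} := by
    intro ω hω
    exact (hQ _ hω).comp_of_eq (slc_analytic q ω) rfl
  have hev : ∀ᶠ ω in 𝓝 (q.2.2 (Fin.last k)), Q (slc q ω) = 0 := by
    apply eventually_zero_of_iteratedDeriv (han _ hin)
    intro i
    rw [iteratedDeriv_slc hO hQ q i _ hin, hq0]
    exact h i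
  intro ω hω
  exact han.eqOn_zero_of_preconnected_of_eventuallyEq_zero (slc_preconnected hconv q) hin hev hω

theorem caseA {k : ℕ} {O : Set (ℂ × ℂ × (Fin (k + 1) → ℂ))} (hO : IsOpen O) {Q : ℂ × ℂ × (Fin (k + 1) → ℂ) → ℂ} (hQ : AnalyticOnNhd ℂ Q O)
    {w : ℕ → ℝ → ℂ → ℂ} {I : Set ℝ} {D : Set ℂ} (hI : IsOpen I) (hD : IsOpen D) (hw : JetFam w I D) (hmem : ∀ s ∈ I, ∀ z ∈ D, Jt k w s z ∈ O)
    (hrel : ∀ s ∈ I, ∀ z ∈ D, Q (Jt k w s z) = 0) (hA : ∃ i : ℕ, ∃ s ∈ I, ∃ z ∈ D, (dk^[i] Q) (Jt k w s z) ≠ 0) :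
    ∃ s₁ ∈ I, ∃ z₁ ∈ D, Ext (w 0) I D s₁ z₁ := by
  classical
  obtain ⟨s₁, hs₁, z₁, hz₁, hne⟩ := Nat.find_spec hA
  have hmin := fun m hm => Nat.find_min hA (m := m) hm
  set i := Nat.find hA with hi
  rcases Nat.eq_zero_or_pos i with h0 | h0
  · rw [h0] at hne
    exact absurd (hrel s₁ hs₁ z₁ hz₁) hne
  · obtain ⟨j, hj⟩ : ∃ j, i = j + 1 := ⟨i - 1, by omega⟩
    have hjm := hmin j (by omega)
    push Not at hjm
    rw [hj, Function.iterate_succ_apply'] at hne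
    exact ⟨s₁, hs₁, z₁, hz₁, gen_step hO (dk_iterate_analytic hQ j) hI hD hw hmem hjm hs₁ hz₁ hne⟩

theorem gen_analytic : ∀ (k : ℕ) {O : Set (ℂ × ℂ × (Fin (k + 1) → ℂ))}, IsOpen O → Convex ℝ O →
    (∀ (s z : ℂ) (v v' : Fin (k + 1) → ℂ), v 0 = v' 0 → (s, z, v) ∈ O → (s, z, v') ∈ O) →
    ∀ {Q : ℂ × ℂ × (Fin (k + 1) → ℂ) → ℂ}, AnalyticOnNhd ℂ Q O → (∃ q ∈ O, Q q ≠ 0) →
    ∀ {w : ℕ → ℝ → ℂ → ℂ} {I : Set ℝ} {D : Set ℂ}, IsOpen I → IsOpen D → I.Nonempty → D.Nonempty → JetFam w I D →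
    (∀ s ∈ I, ∀ z ∈ D, Jt k w s z ∈ O) → (∀ s ∈ I, ∀ z ∈ D, Q (Jt k w s z) = 0) → ∃ s₁ ∈ I, ∃ z₁ ∈ D, Ext (w 0) I D s₁ z₁ := by
  intro k
  induction k with
  | zero =>
    intro O hO hconv _ Q hQ hne w I D hI hD hIn hDn hw hmem hrel
    by_cases hA : ∃ i : ℕ, ∃ s ∈ I, ∃ z ∈ D, (dk^[i] Q) (Jt 0 w s z) ≠ 0
    · exact caseA hO hQ hI hD hw hmem hrel hA
    · push Not at hA
      exfalso
      have hz : ∀ s ∈ I, ∀ z ∈ D, ∀ v : Fin 1 → ℂ, ((s : ℂ), z, v) ∈ O → Q ((s : ℂ), z, v) = 0 := by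
        intro s hs z hz v hv
        have e : slc (Jt 0 w s z) (v 0) = ((s : ℂ), z, v) := by
          simp only [slc, Jt]
          refine Prod.ext rfl (Prod.ext rfl ?_)
          ext i
          have hi : i = Fin.last 0 := Fin.ext (by omega)
          rw [hi]
          simp
        have := slice_zero hO hconv hQ (hmem s hs z hz) (fun i => hA i s hs z hz) (v 0) (by rwa [e])
        rwa [e] at this
      obtain ⟨s₀, hs₀⟩ := hIn
      obtain ⟨z₀, hz₀⟩ := hDn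
      have hq₀ := hmem s₀ hs₀ z₀ hz₀
      obtain ⟨r, hr, hrb⟩ := Metric.isOpen_iff.mp hO _ hq₀
      obtain ⟨r₁, hr₁, hr₁b⟩ := Metric.isOpen_iff.mp hD _ hz₀
      set r₂ := min r r₁ with hr₂
      have hr₂0 : 0 < r₂ := lt_min hr hr₁
      have hev : ∀ᶠ q in 𝓝 (Jt 0 w s₀ z₀), Q q = 0 := by
        filter_upwards [ball_mem_nhds _ hr₂0] with q hq
        rw [Jt, ← ball_prod_same, ← ball_prod_same] at hq
        obtain ⟨h1, h2, h3⟩ := hq
        have han : AnalyticOnNhd ℂ (fun t : ℂ => Q (t, q.2.1, q.2.2)) (ball (s₀ : ℂ) r₂) := by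
          intro t ht
          have hin : ((t, q.2.1, q.2.2) : ℂ × ℂ × (Fin 1 → ℂ)) ∈ O := by
            apply hrb
            rw [Jt, ← ball_prod_same, ← ball_prod_same]
            exact ⟨ball_subset_ball (min_le_left _ _) ht, ball_subset_ball (min_le_left _ _) h2, ball_subset_ball (min_le_left _ _) h3⟩
          exact (hQ _ hin).comp_of_eq (analyticAt_id.prod (analyticAt_const.prod analyticAt_const)) rfl
        have hfr : ∃ᶠ t in 𝓝[≠] (s₀ : ℂ), Q (t, q.2.1, q.2.2) = 0 := by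
          have hm : Tendsto (fun x : ℝ => (x : ℂ)) (𝓝[≠] s₀) (𝓝[≠] (s₀ : ℂ)) := by
            apply tendsto_nhdsWithin_of_tendsto_nhds_of_eventually_within
            · exact (Complex.continuous_ofReal.tendsto s₀).mono_left nhdsWithin_le_nhds
            · filter_upwards [self_mem_nhdsWithin] with x hx
              exact fun h => hx (Complex.ofReal_injective h)
          apply hm.frequently
          apply Filter.Eventually.frequently
          apply Filter.Eventually.filter_mono nhdsWithin_le_nhds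
          filter_upwards [hI.mem_nhds hs₀, ball_mem_nhds s₀ hr₂0] with x hx hxr
          apply hz x hx q.2.1 (hr₁b (ball_subset_ball (min_le_right _ _) h2)) q.2.2
          apply hrb
          rw [Jt, ← ball_prod_same, ← ball_prod_same]
          refine ⟨?_, ball_subset_ball (min_le_left _ _) h2, ball_subset_ball (min_le_left _ _) h3⟩
          rw [mem_ball, dist_eq_norm, ← Complex.ofReal_sub, Complex.norm_real, ← dist_eq_norm]
          exact ball_subset_ball (min_le_left _ _) hxr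
        have := han.eqOn_zero_of_preconnected_of_frequently_eq_zero (convex_ball _ _).isPreconnected (mem_ball_self hr₂0) hfr h1
        exact this
      obtain ⟨q, hq, hne'⟩ := hne
      exact hne' (hQ.eqOn_zero_of_preconnected_of_eventuallyEq_zero hconv.isPreconnected hq₀ hev hq)
  | succ k ih =>
    intro O hO hconv hdep Q hQ hne w I D hI hD hIn hDn hw hmem hrel
    by_cases hA : ∃ i : ℕ, ∃ s ∈ I, ∃ z ∈ D, (dk^[i] Q) (Jt (k + 1) w s z) ≠ 0
    · exact caseA hO hQ hI hD hw hmem hrel hA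
    · push Not at hA
      obtain ⟨q₀, hq₀, hne⟩ := hne
      set ω := q₀.2.2 (Fin.last (k + 1)) with hω
      set ι : ℂ × ℂ × (Fin (k + 1) → ℂ) → ℂ × ℂ × (Fin (k + 2) → ℂ) := fun q => (q.1, q.2.1, Fin.snoc (α := fun _ => ℂ) q.2.2 ω) with hι
      have hιc : ∀ (x y : ℂ × ℂ × (Fin (k + 1) → ℂ)) (a b : ℝ), a + b = 1 → ι (a • x + b • y) = a • ι x + b • ι y := by
        intro x y a b hab
        have hab' : (a : ℂ) + (b : ℂ) = 1 := by rw [← Complex.ofReal_add, hab, Complex.ofReal_one]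
        refine Prod.ext rfl (Prod.ext rfl ?_)
        ext i
        refine Fin.lastCases ?_ (fun j => ?_) i
        · simp only [hι, Fin.snoc_last, Prod.smul_mk, Prod.mk_add_mk, Pi.add_apply, Pi.smul_apply, Complex.real_smul]
          rw [← add_mul, hab', one_mul]
        · simp [hι]
      have hιa : ∀ q, AnalyticAt ℂ ι q := by
        intro q
        apply analyticAt_fst.prod
        apply (analyticAt_fst.comp analyticAt_snd).prod
        rw [analyticAt_pi_iff]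
        intro i
        refine Fin.lastCases ?_ (fun j => ?_) i
        · simp only [Fin.snoc_last]
          exact analyticAt_const
        · simp only [Fin.snoc_castSucc]
          exact ((ContinuousLinearMap.proj (R := ℂ) (φ := fun _ : Fin (k + 1) => ℂ) j).comp
            ((ContinuousLinearMap.snd ℂ ℂ (Fin (k + 1) → ℂ)).comp (ContinuousLinearMap.snd ℂ ℂ (ℂ × (Fin (k + 1) → ℂ))))).analyticAt q
      have hJ : ∀ s z, ι (Jt k w s z) = slc (Jt (k + 1) w s z) ω := by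
        intro s z
        refine Prod.ext rfl (Prod.ext rfl ?_)
        ext i
        refine Fin.lastCases ?_ (fun j => ?_) i
        · simp [hι, slc]
        · simp [hι, slc, Jt]
      have hJO : ∀ s ∈ I, ∀ z ∈ D, slc (Jt (k + 1) w s z) ω ∈ O := by
        intro s hs z hz
        apply hdep _ _ _ _ _ (hmem s hs z hz)
        simp [Jt]
      apply ih (O := ι ⁻¹' O) (Q := fun q => Q (ι q))
      · exact hO.preimage (continuous_iff_continuousAt.mpr fun q => (hιa q).continuousAt)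
      · intro x hx y hy a b ha hb hab
        show ι (a • x + b • y) ∈ O
        rw [hιc x y a b hab]
        exact hconv hx hy ha hb hab
      · intro s z v v' hv hO'
        apply hdep s z _ _ _ hO'
        have : (0 : Fin (k + 2)) = Fin.castSucc 0 := rfl
        rw [this]
        simp only [Fin.snoc_castSucc]
        exact hv
      · intro q hq
        exact (hQ _ hq).comp_of_eq (hιa q) rfl
      · have e : ι (q₀.1, q₀.2.1, fun j => q₀.2.2 j.castSucc) = q₀ := by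
          refine Prod.ext rfl (Prod.ext rfl ?_)
          ext i
          refine Fin.lastCases ?_ (fun j => ?_) i
          · simp [hι, hω]
          · simp [hι]
        refine ⟨(q₀.1, q₀.2.1, fun j => q₀.2.2 j.castSucc), ?_, ?_⟩
        · show ι (q₀.1, q₀.2.1, fun j => q₀.2.2 j.castSucc) ∈ O
          rwa [e]
        · show Q (ι (q₀.1, q₀.2.1, fun j => q₀.2.2 j.castSucc)) ≠ 0
          rwa [e]
      · exact hI
      · exact hD
      · exact hIn
      · exact hDn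
      · exact hw
      · intro s hs z hz
        show ι (Jt k w s z) ∈ O
        rw [hJ]
        exact hJO s hs z hz
      · intro s hs z hz
        show Q (ι (Jt k w s z)) = 0
        rw [hJ]
        exact slice_zero hO hconv hQ (hmem s hs z hz) (fun i => hA i s hs z hz) ω (hJO s hs z hz)

end Pool.Agent.G3.C

end

section

/-!
# G3 X Nc3: small charts in which `u` is `κ (x ^ a * y ^ b, s)`

`NCC Λ u κ χ r a b`: in the chart `χ` (polydisc of radius `2`) the map `u` is `κ (nm a b (r q))`.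
-/

set_option autoImplicit false

open Topology Filter Metric Set

namespace Pool.Agent.G3.X

open Pool.Agent.TG (TMap IsNC nm exists_small_chart)
open Pool.Agent.H36.BP (EN)
open Pool.Agent.H14.PP (IsCone)
open Pool.Agent.H62.EF (pr)
open Pool.Agent.AD (Vd Chart)

variable {N k : ℕ} {X : Set (EN N)} {Λ : AddSubgroup (Vd (k + 1))} {u : EN N → Vd (k + 1)} {κ : Vd (k + 1) → Vd (k + 1)}

/-- in the chart `χ` the map `u` is `κ (nm a b (r q))` -/
structure NCC (Λ : AddSubgroup (Vd (k + 1))) (u : EN N → Vd (k + 1)) (κ : Vd (k + 1) → Vd (k + 1)) (χ : Chart (k + 2) X) (r : ℝ) (a b : ℕ) : Prop where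
  pos : 0 < r
  ab : 0 < a + b
  lift : ∀ q ∈ ball (0 : Vd (k + 2)) 2, u (χ.σ q) - κ (nm a b ((r : ℂ) • q)) ∈ Λ

theorem exists_ncc (hX : IsCone X) (hu : TMap X Λ u) {x : EN N} (h : IsNC X Λ u κ x) {η : ℝ} (hη : 0 < η) :
    ∃ (χ : Chart (k + 2) X) (r : ℝ) (a b : ℕ), x ∈ χ.U ∧ χ.q x = 0 ∧ NCC Λ u κ χ r a b ∧ 2 * r ≤ η ∧
      ∀ q ∈ ball (0 : Vd (k + 2)) 2, dist (pr (χ.σ q)) (pr x) < η := by
  obtain ⟨σ, τ, a, b, hG, hσ0, hab, hσl⟩ := h
  obtain ⟨η', hη', hall⟩ := Metric.eventually_nhds_iff_ball.1 (hG.σ_mem.and hσl)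
  obtain ⟨χ, r, hr, hσU, hq0, hχ⟩ := exists_small_chart hX hG (lt_min hη hη')
  rw [hσ0] at hσU hq0
  refine ⟨χ, r, a, b, hσU, hq0, ⟨hr, hab, fun p hp => ?_⟩, ?_, fun p hp => ?_⟩
  · obtain ⟨h1, -, c, hc, h3⟩ := hχ p hp
    have h4 := hall ((r : ℂ) • p) (mem_ball_zero_iff.2 (h1.trans_le (min_le_right _ _)))
    have h5 := Λ.add_mem (hu.smul _ h4.1 c hc) h4.2
    have h6 : u (c • σ ((r : ℂ) • p)) - u (σ ((r : ℂ) • p)) + (u (σ ((r : ℂ) • p)) - κ (nm a b ((r : ℂ) • p))) =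
        u (χ.σ p) - κ (nm a b ((r : ℂ) • p)) := by
      rw [h3]
      abel
    rwa [h6] at h5
  · -- `2 r ≤ η` from the bound on `‖r p‖`
    refine le_of_forall_lt fun t ht => ?_
    by_cases ht0 : 0 ≤ t
    · set w : ℂ := ((t / r : ℝ) : ℂ) with hw
      have hwn : ‖w‖ = t / r := by
        rw [hw, Complex.norm_real, Real.norm_of_nonneg (by positivity)]
      set p : Vd (k + 2) := fun _ => w with hp
      have hpn : ‖p‖ = t / r := by
        rw [hp, pi_norm_const, hwn]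
      have hpb : p ∈ ball (0 : Vd (k + 2)) 2 := by
        rw [mem_ball_zero_iff, hpn, div_lt_iff₀ hr]
        exact ht
      have h1 := (hχ p hpb).1
      rw [norm_smul, Complex.norm_real, Real.norm_of_nonneg hr.le, hpn, mul_div_cancel₀ _ hr.ne'] at h1
      exact h1.trans_le (min_le_left _ _)
    · exact (not_le.1 ht0).trans hη
  · have h2 := (hχ p hp).2.1
    rw [hσ0] at h2
    exact h2.trans_le (min_le_left _ _)

end Pool.Agent.G3.X

end

section

/-!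
# G3 X Tb3: the tube round the fibre over `p` in the total space

Finitely many charts of `X` in which `u` is `κ (x ^ a * y ^ b, s)`, with open cones `W i` covering a neighbourhood of the fibre, and finitely many witness charts: the family version of
`TG/Y/TbA`.  No arcs yet; the tubes of the slabs over arcs are sliced out of these charts.
-/

set_option autoImplicit false

open Topology Filter Metric Set

namespace Pool.Agent.G3.X

open Pool.Agent.TG (TMap Lat IsNC nm ne_zero compact_unit exists_unit lim_mem smul_mem_lat)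
open Pool.Agent.H36.BP (EN)
open Pool.Agent.H14.PP (IsCone)
open Pool.Agent.H62.EF (pr)
open Pool.Agent.AD (Vd Chart)

variable {N k : ℕ}

/-- a chart with its constants; `R` is the radius of the part which is used -/
structure C3 (X : Set (EN N)) (k : ℕ) where
  /-- the chart -/
  χ : Chart (k + 2) X
  /-- the scale -/
  r : ℝ
  /-- exponents -/
  a : ℕ
  /-- exponents -/
  b : ℕ
  /-- the radius of the part which is used -/
  R : ℝ

/-- the data of the tube -/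
structure T3 (X : Set (EN N)) (k : ℕ) where
  /-- the number of charts -/
  m : ℕ
  /-- the charts -/
  c : Fin m → C3 X k
  /-- the open cones -/
  W : Fin m → Set (EN N)
  /-- the number of witness charts -/
  n : ℕ
  /-- the witness charts -/
  w : Fin n → C3 X k

variable {X : Set (EN N)} {Λ : AddSubgroup (Vd (k + 1))} {u : EN N → Vd (k + 1)} {κ : Vd (k + 1) → Vd (k + 1)} {p : Vd (k + 1)}

/-- the tube round the fibre over `p`, over `ball p s` -/
structure Tb3 (Λ : AddSubgroup (Vd (k + 1))) (u : EN N → Vd (k + 1)) (κ : Vd (k + 1) → Vd (k + 1)) (p : Vd (k + 1)) (η s : ℝ) (T : T3 X k) : Prop where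
  pos : 0 < s
  ncc : ∀ i, NCC Λ u κ (T.c i).χ (T.c i).r (T.c i).a (T.c i).b
  le : ∀ i, 2 * (T.c i).r ≤ η
  W_open : ∀ i, IsOpen (T.W i)
  W_sub : ∀ i, T.W i ⊆ (T.c i).χ.U
  W_smul : ∀ i, ∀ x ∈ T.W i, ∀ c : ℂ, c ≠ 0 → c • x ∈ T.W i
  cover : ∀ y ∈ ball p s, ∀ x ∈ X, u x - y ∈ Λ → ∃ i, x ∈ T.W i
  wncc : ∀ j, NCC Λ u κ (T.w j).χ (T.w j).r (T.w j).a (T.w j).b
  wle : ∀ j, 2 * (T.w j).r ≤ η
  wR : ∀ j, 0 < (T.w j).R ∧ (T.w j).R ≤ 2
  wsub : ∀ j i, (∃ q ∈ ball (0 : Vd (k + 2)) (T.w j).R, (T.w j).χ.σ q ∈ T.W i) → ∀ q ∈ ball (0 : Vd (k + 2)) 2, (T.w j).χ.σ q ∈ (T.c i).χ.U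
  wnest : ∀ j j', (∃ q ∈ ball (0 : Vd (k + 2)) (T.w j).R, ∃ q' ∈ ball (0 : Vd (k + 2)) (T.w j').R, pr ((T.w j).χ.σ q) = pr ((T.w j').χ.σ q')) →
    (∀ q ∈ ball (0 : Vd (k + 2)) (T.w j).R, (T.w j).χ.σ q ∈ (T.w j').χ.U) ∨ (∀ q' ∈ ball (0 : Vd (k + 2)) (T.w j').R, (T.w j').χ.σ q' ∈ (T.w j).χ.U)
  wcover : ∀ y ∈ ball p s, ∀ x ∈ X, u x - y ∈ Λ → ∃ j, x ∈ (T.w j).χ.U ∧ (T.w j).χ.q x ∈ ball (0 : Vd (k + 2)) (T.w j).R

/-- a property which holds near the fibre over `p` holds over a ball -/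
private theorem exists_rad (hX : IsCone X) (hΛ : Lat Λ) (hu : TMap X Λ u) {p : Vd (k + 1)} (P : EN N → Prop)
    (hP : ∀ x ∈ X, P x → ∀ c : ℂ, c ≠ 0 → P (c • x))
    (h : ∀ x ∈ X, u x - p ∈ Λ → ∀ᶠ y in 𝓝 x, y ∈ X → P y) : ∃ s : ℝ, 0 < s ∧ ∀ y ∈ ball p s, ∀ x ∈ X, u x - y ∈ Λ → P x := by
  by_contra hcon
  push Not at hcon
  have h1 : ∀ n : ℕ, ∃ (y : EN N) (z : Vd (k + 1)), y ∈ X ∩ sphere (0 : EN N) 1 ∧ z ∈ ball p (1 / ((n : ℝ) + 1)) ∧ u y - z ∈ Λ ∧ ¬ P y := by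
    intro n
    obtain ⟨z, hz, x, hx, hxz, hPx⟩ := hcon (1 / ((n : ℝ) + 1)) (by positivity)
    obtain ⟨c, hc, hcx⟩ := exists_unit hX hx
    refine ⟨c • x, z, hcx, hz, smul_mem_lat hu hx hxz hc, ?_⟩
    intro hP'
    have := hP _ hcx.1 hP' c⁻¹ (inv_ne_zero hc)
    rw [smul_smul, inv_mul_cancel₀ hc, one_smul] at this
    exact hPx this
  choose y z hy hz hyz hPy using h1
  obtain ⟨x, hx, φ, hφ, hlim⟩ := (compact_unit hX).tendsto_subseq hy
  have hzl : Tendsto z atTop (𝓝 p) := by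
    rw [tendsto_iff_dist_tendsto_zero]
    exact squeeze_zero (fun _ => dist_nonneg) (fun n => (mem_ball.mp (hz n)).le) tendsto_one_div_add_atTop_nhds_zero_nat
  have hxb : u x - p ∈ Λ := lim_mem hΛ hu hx.1 hlim (hzl.comp hφ.tendsto_atTop) (Eventually.of_forall fun n => ⟨(hy _).1, hyz _⟩)
  obtain ⟨n, hn⟩ := (hlim.eventually (h x hx.1 hxb)).exists
  exact hPy _ (hn (hy _).1)

private theorem compact_fib (hX : IsCone X) (hΛ : Lat Λ) (hu : TMap X Λ u) (p : Vd (k + 1)) :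
    IsCompact {x : EN N | x ∈ X ∩ sphere (0 : EN N) 1 ∧ u x - p ∈ Λ} := by
  refine IsSeqCompact.isCompact ?_
  intro y hy
  obtain ⟨x, hx, φ, hφ, hlim⟩ := (compact_unit hX).tendsto_subseq (fun n => (hy n).1)
  exact ⟨x, ⟨hx, lim_mem hΛ hu hx.1 hlim tendsto_const_nhds (Eventually.of_forall fun n => ⟨(hy _).1.1, (hy _).2⟩)⟩, φ, hφ, hlim⟩

private theorem exists_R (hX : IsCone X) (χ : Chart (k + 2) X) {x : EN N} (hx : x ∈ X) (hxU : x ∈ χ.U) :
    ∃ R : ℝ, 0 < R ∧ ∀ w ∈ X, dist (pr w) (pr x) < R → w ∈ χ.U := by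
  obtain ⟨R, hR, h⟩ := Pool.Agent.H62.EF.near_of_pr (ne_zero hX hx) (χ.isOpen_U.mem_nhds hxU)
  refine ⟨R, hR, fun w hw hd => ?_⟩
  obtain ⟨c, hc, hcw⟩ := h w (ne_zero hX hw) hd
  have := χ.smul_U _ hcw c⁻¹ (inv_ne_zero hc)
  rwa [smul_smul, inv_mul_cancel₀ hc, one_smul] at this

private theorem exists_r (hX : IsCone X) (χ : Chart (k + 2) X) {x : EN N} (hx : x ∈ X) (hxU : x ∈ χ.U) (hq : χ.q x = 0) {ε : ℝ} (hε : 0 < ε) :
    ∃ r : ℝ, 0 < r ∧ r ≤ 2 ∧ ∀ q ∈ ball (0 : Vd (k + 2)) r, dist (pr (χ.σ q)) (pr x) < ε := by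
  have h0 : (0 : Vd (k + 2)) ∈ ball (0 : Vd (k + 2)) 2 := mem_ball_self two_pos
  obtain ⟨c, hc, hxc⟩ := (χ.surj x hx hxU).2
  rw [hq] at hxc
  have h1 : pr x = pr (χ.σ 0) := by
    conv_lhs => rw [hxc]
    exact Pool.Agent.H62.EF.pr_smul _ hc
  have hc1 : ContinuousAt (fun q => pr (χ.σ q)) 0 :=
    ContinuousAt.comp (f := χ.σ) (Pool.Agent.H62.EF.continuousAt_pr (ne_zero hX (χ.σ_mem 0 h0).1)) (χ.σ_an 0 h0).continuousAt
  have h2 : ∀ᶠ q in 𝓝 (0 : Vd (k + 2)), dist (pr (χ.σ q)) (pr x) < ε := by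
    rw [h1]
    exact Metric.tendsto_nhds.mp hc1.tendsto ε hε
  obtain ⟨r, hr, h⟩ := Metric.eventually_nhds_iff_ball.mp h2
  exact ⟨min r 2, lt_min hr two_pos, min_le_right _ _, fun q hq => h q (ball_subset_ball (min_le_left _ _) hq)⟩

theorem exists_tb3 (hX : IsCone X) (hu : TMap X Λ u) (hΛ : Lat Λ) {p : Vd (k + 1)} (hnc : ∀ x ∈ X, u x - p ∈ Λ → IsNC X Λ u κ x) {η : ℝ} (hη0 : 0 < η) :
    ∃ (T : T3 X k) (s : ℝ), Tb3 Λ u κ p η s T := by
  -- the covering charts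
  have h1 : ∀ x : {x : EN N // x ∈ X ∧ u x - p ∈ Λ}, ∃ (χ : Chart (k + 2) X) (ρ : ℝ) (i j : ℕ) (R : ℝ), x.1 ∈ χ.U ∧ NCC Λ u κ χ ρ i j ∧
      2 * ρ ≤ η ∧ 0 < R ∧ ∀ w ∈ X, dist (pr w) (pr x.1) < R → w ∈ χ.U := by
    rintro ⟨x, hx, hxb⟩
    obtain ⟨χ, ρ, i, j, hxU, -, hm, hle, hs⟩ := exists_ncc hX hu (hnc x hx hxb) hη0
    obtain ⟨R, hR, hRU⟩ := exists_R hX χ hx hxU
    exact ⟨χ, ρ, i, j, R, hxU, hm, hle, hR, hRU⟩
  choose χ ρ i j R hxU hmon hrange hR hRU using h1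
  -- the open cones
  set O : {x : EN N // x ∈ X ∧ u x - p ∈ Λ} → Set (EN N) := fun x => {w | w ≠ 0 ∧ w ∈ (χ x).U ∧ dist (pr w) (pr x.1) < R x / 2} with hO
  have hOopen : ∀ x, IsOpen (O x) := by
    intro x
    rw [isOpen_iff_mem_nhds]
    rintro w ⟨hw0, hwU, hwd⟩
    have e1 : ∀ᶠ y in 𝓝 w, y ≠ 0 := isOpen_ne.mem_nhds hw0
    have e2 : ∀ᶠ y in 𝓝 w, y ∈ (χ x).U := (χ x).isOpen_U.mem_nhds hwU
    have e3 : ∀ᶠ y in 𝓝 w, dist (pr y) (pr x.1) < R x / 2 :=
      ((Pool.Agent.H62.EF.continuousAt_pr hw0).dist continuousAt_const).eventually (gt_mem_nhds hwd)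
    filter_upwards [e1, e2, e3] with y h1 h2 h3
    exact ⟨h1, h2, h3⟩
  have hOsmul : ∀ x, ∀ w ∈ O x, ∀ c : ℂ, c ≠ 0 → c • w ∈ O x := by
    rintro x w ⟨hw0, hwU, hwd⟩ c hc
    refine ⟨smul_ne_zero hc hw0, (χ x).smul_U w hwU c hc, ?_⟩
    rw [Pool.Agent.H62.EF.pr_smul w hc]
    exact hwd
  obtain ⟨t, ht⟩ := (compact_fib hX hΛ hu p).elim_finite_subcover O hOopen (by
    rintro x ⟨⟨hx, -⟩, hxb⟩
    refine Set.mem_iUnion.mpr ⟨⟨x, hx, hxb⟩, ne_zero hX hx, hxU _, ?_⟩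
    rw [dist_self]
    exact half_pos (hR _))
  have hcov : ∀ x ∈ X, u x - p ∈ Λ → ∃ y ∈ t, x ∈ O y := by
    intro x hx hxb
    obtain ⟨c, hc, hcx⟩ := exists_unit hX hx
    obtain ⟨y, hyt, hy⟩ := Set.mem_iUnion₂.mp (ht ⟨hcx, smul_mem_lat hu hx hxb hc⟩)
    refine ⟨y, hyt, ?_⟩
    have := hOsmul y _ hy c⁻¹ (inv_ne_zero hc)
    rwa [smul_smul, inv_mul_cancel₀ hc, one_smul] at this
  obtain ⟨R₀, hR₀, hR₀t⟩ : ∃ R₀ : ℝ, 0 < R₀ ∧ ∀ x ∈ t, R₀ ≤ R x := by
    have e1 : ∀ᶠ r in 𝓝[>] (0 : ℝ), ∀ x ∈ t, r ≤ R x :=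
      (Finset.eventually_all t).mpr fun x _ => mem_nhdsWithin_of_mem_nhds (ge_mem_nhds (hR x))
    obtain ⟨r, hr, hr'⟩ := (e1.and self_mem_nhdsWithin).exists
    exact ⟨r, hr', hr⟩
  -- the witnesses
  have h2 : ∀ x : {x : EN N // x ∈ X ∧ u x - p ∈ Λ}, ∃ (χ' : Chart (k + 2) X) (ρ' : ℝ) (i' j' : ℕ) (R' r' : ℝ), x.1 ∈ χ'.U ∧ χ'.q x.1 = 0 ∧
      NCC Λ u κ χ' ρ' i' j' ∧ (∀ q ∈ ball (0 : Vd (k + 2)) 2, dist (pr (χ'.σ q)) (pr x.1) < R₀ / 8) ∧
      2 * ρ' ≤ η ∧ 0 < R' ∧ (∀ w ∈ X, dist (pr w) (pr x.1) < R' → w ∈ χ'.U) ∧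
      0 < r' ∧ r' ≤ 2 ∧ ∀ q ∈ ball (0 : Vd (k + 2)) r', dist (pr (χ'.σ q)) (pr x.1) < R' / 4 := by
    rintro ⟨x, hx, hxb⟩
    obtain ⟨χ', ρ', i', j', hxU', hq, hm, hle, hs⟩ := exists_ncc hX hu (hnc x hx hxb) (lt_min hη0 (by positivity : 0 < R₀ / 8))
    obtain ⟨R', hR', hRU'⟩ := exists_R hX χ' hx hxU'
    obtain ⟨r', hr', hr2, hrr⟩ := exists_r hX χ' hx hxU' hq (by positivity : 0 < R' / 4)
    exact ⟨χ', ρ', i', j', R', r', hxU', hq, hm, fun q hq => lt_of_lt_of_le (hs q hq) (min_le_right _ _),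
      hle.trans (min_le_left _ _), hR', hRU', hr', hr2, hrr⟩
  choose χ' ρ' i' j' R' r' hxU' hq' hmon' hsm' hrange' hR' hRU' hr' hr2' hrr' using h2
  -- the open cones of the witnesses
  set O' : {x : EN N // x ∈ X ∧ u x - p ∈ Λ} → Set (EN N) := fun x => {y | y ∈ (χ' x).U ∧ (χ' x).q y ∈ ball (0 : Vd (k + 2)) (r' x)} with hO'
  have hO'open : ∀ x, IsOpen (O' x) := by
    intro x
    rw [isOpen_iff_mem_nhds]
    rintro w ⟨hwU, hwq⟩
    have e2 : ∀ᶠ y in 𝓝 w, y ∈ (χ' x).U := (χ' x).isOpen_U.mem_nhds hwU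
    have e3 : ∀ᶠ y in 𝓝 w, (χ' x).q y ∈ ball (0 : Vd (k + 2)) (r' x) := ((χ' x).q_an w hwU).continuousAt.eventually (isOpen_ball.mem_nhds hwq)
    filter_upwards [e2, e3] with y h2 h3
    exact ⟨h2, h3⟩
  have hO'smul : ∀ x, ∀ w ∈ O' x, ∀ c : ℂ, c ≠ 0 → c • w ∈ O' x := by
    rintro x w ⟨hwU, hwq⟩ c hc
    refine ⟨(χ' x).smul_U w hwU c hc, ?_⟩
    rw [(χ' x).q_smul w hwU c hc]
    exact hwq
  obtain ⟨t', ht'⟩ := (compact_fib hX hΛ hu p).elim_finite_subcover O' hO'open (by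
    rintro x ⟨⟨hx, -⟩, hxb⟩
    refine Set.mem_iUnion.mpr ⟨⟨x, hx, hxb⟩, hxU' _, ?_⟩
    rw [hq' ⟨x, hx, hxb⟩]
    exact mem_ball_self (hr' _))
  have hcov' : ∀ x ∈ X, u x - p ∈ Λ → ∃ y ∈ t', x ∈ O' y := by
    intro x hx hxb
    obtain ⟨c, hc, hcx⟩ := exists_unit hX hx
    obtain ⟨y, hyt, hy⟩ := Set.mem_iUnion₂.mp (ht' ⟨hcx, smul_mem_lat hu hx hxb hc⟩)
    refine ⟨y, hyt, ?_⟩
    have := hO'smul y _ hy c⁻¹ (inv_ne_zero hc)
    rwa [smul_smul, inv_mul_cancel₀ hc, one_smul] at this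
  -- the radius
  obtain ⟨s₀, hs₀, hs₀P⟩ := exists_rad hX hΛ hu (p := p)
    (fun y => (∃ x ∈ t, y ∈ O x) ∧ ∃ x ∈ t', y ∈ O' x)
    (by
      rintro y - ⟨⟨x, hx, hyx⟩, x', hx', hyx'⟩ c hc
      exact ⟨⟨x, hx, hOsmul x y hyx c hc⟩, x', hx', hO'smul x' y hyx' c hc⟩)
    (by
      intro x hx hxb
      obtain ⟨x₁, hx₁, hxO⟩ := hcov x hx hxb
      obtain ⟨x₂, hx₂, hxO'⟩ := hcov' x hx hxb
      have e1 : ∀ᶠ y in 𝓝 x, y ∈ O x₁ := (hOopen x₁).mem_nhds hxO
      have e2 : ∀ᶠ y in 𝓝 x, y ∈ O' x₂ := (hO'open x₂).mem_nhds hxO'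
      filter_upwards [e1, e2] with y h1 h2 _
      exact ⟨⟨x₁, hx₁, h1⟩, x₂, hx₂, h2⟩)
  refine ⟨⟨t.card, fun l => ⟨χ (t.equivFin.symm l).1, ρ (t.equivFin.symm l).1, i (t.equivFin.symm l).1, j (t.equivFin.symm l).1, 1⟩,
    fun l => O (t.equivFin.symm l).1, t'.card,
    fun l => ⟨χ' (t'.equivFin.symm l).1, ρ' (t'.equivFin.symm l).1, i' (t'.equivFin.symm l).1, j' (t'.equivFin.symm l).1, r' (t'.equivFin.symm l).1⟩⟩, s₀,
    ⟨hs₀, fun l => hmon _, fun l => hrange _, fun l => hOopen _, ?_, fun l => hOsmul _, ?_, fun l => hmon' _, fun l => hrange' _, fun l => ⟨hr' _, hr2' _⟩,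
      ?_, ?_, ?_⟩⟩
  · rintro l w ⟨-, hw, -⟩
    exact hw
  · intro y hy x hx hxy
    obtain ⟨⟨z, hz, hxz⟩, -⟩ := hs₀P y hy x hx hxy
    refine ⟨t.equivFin ⟨z, hz⟩, ?_⟩
    simp only [Equiv.symm_apply_apply]
    exact hxz
  · rintro l l₁ ⟨q, hq, -, -, hqd⟩ q' hq₂
    dsimp only at hq hqd hq₂ ⊢
    set x := (t'.equivFin.symm l).1 with hx
    have hk := hR₀t _ (t.equivFin.symm l₁).2
    have a1 := hsm' x q (ball_subset_ball (hr2' x) hq)
    have a2 := hsm' x q' hq₂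
    refine hRU _ _ ((χ' x).σ_mem q' hq₂).1 ?_
    have a3 := dist_triangle (pr ((χ' x).σ q')) (pr x.1) (pr (t.equivFin.symm l₁).1.1)
    have a4 := dist_triangle (pr x.1) (pr ((χ' x).σ q)) (pr (t.equivFin.symm l₁).1.1)
    rw [dist_comm (pr x.1) (pr ((χ' x).σ q))] at a4
    have a5 : dist (pr ((χ' x).σ q)) (pr (t.equivFin.symm l₁).1.1) < R (t.equivFin.symm l₁).1 / 2 := hqd
    have a6 : 0 < R (t.equivFin.symm l₁).1 := hR _
    linarith
  · rintro l l' ⟨q, hq, q', hq₂, hpp⟩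
    dsimp only at hq hq₂ hpp ⊢
    set x := (t'.equivFin.symm l).1 with hx
    set x' := (t'.equivFin.symm l').1 with hx'
    have a1 : dist (pr ((χ' x).σ q)) (pr x.1) < R' x / 4 := hrr' x q hq
    have a2 : dist (pr ((χ' x').σ q')) (pr x'.1) < R' x' / 4 := hrr' x' q' hq₂
    have hpp' : pr ((χ' x).σ q) = pr ((χ' x').σ q') := hpp
    rw [hpp'] at a1
    have a3 := dist_triangle (pr x.1) (pr ((χ' x').σ q')) (pr x'.1)
    rw [dist_comm (pr x.1) (pr ((χ' x').σ q'))] at a3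
    have b1 := hR' x
    have b2 := hR' x'
    rcases le_total (R' x) (R' x') with hle | hle
    · left
      intro q₁ hq₁
      refine hRU' x' _ ((χ' x).σ_mem q₁ (ball_subset_ball (hr2' x) hq₁)).1 ?_
      have a4 := hrr' x q₁ hq₁
      have a5 := dist_triangle (pr ((χ' x).σ q₁)) (pr x.1) (pr x'.1)
      linarith
    · right
      intro q₁ hq₁
      refine hRU' x _ ((χ' x').σ_mem q₁ (ball_subset_ball (hr2' x') hq₁)).1 ?_
      have a4 := hrr' x' q₁ hq₁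
      have a5 := dist_triangle (pr ((χ' x').σ q₁)) (pr x'.1) (pr x.1)
      rw [dist_comm (pr x'.1) (pr x.1)] at a5
      linarith
  · intro y hy x hx hxy
    obtain ⟨-, z, hz, hxz⟩ := hs₀P y hy x hx hxy
    refine ⟨t'.equivFin ⟨z, hz⟩, ?_⟩
    simp only [Equiv.symm_apply_apply]
    exact hxz

end Pool.Agent.G3.X

end

section

/-!
# G3 C GenC: from separate to joint extension

`Ext.joint`: let `W`, `C`, `ε` be from `Ext`.  For `z ∈ ball z₁ ε` the Taylor coefficients of `W · z` at `s₁` are `w n s₁ z / n!` (the derivatives of the restriction to the real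
line are the `w n`; `JetFam.der`), holomorphic in `z` and `‖w n s₁ z / n!‖ ≤ C / ε'^n` for `ε' < ε` (Cauchy), so `W s z = ∑ w n s₁ z / n! (s - s₁)^n` is holomorphic in `z` for
`s ∈ ball s₁ (ε / 2)` (`differentiableOn_tsum_of_summable_norm`), and `Pool.Agent.TH.osgood` at every point of `ball (s₁, z₁) (ε / 2)` gives joint analyticity.
-/

set_option autoImplicit false

open Topology Filter Metric

namespace Pool.Agent.G3.C

/-- the complex derivatives on the real line are the `w n` -/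
private theorem GenC_iter {w : ℕ → ℝ → ℂ → ℂ} {I : Set ℝ} {D : Set ℂ} (hw : JetFam w I D) {s₁ ε : ℝ} {z : ℂ} (hz : z ∈ D)
    (hI : ∀ s : ℝ, |s - s₁| < ε → s ∈ I) {f : ℂ → ℂ} (hf : DifferentiableOn ℂ f (ball (s₁ : ℂ) ε))
    (hfw : ∀ s : ℝ, |s - s₁| < ε → f s = w 0 s z) (n : ℕ) :
    ∀ s : ℝ, |s - s₁| < ε → iteratedDeriv n f s = w n s z := by
  induction n with
  | zero => intro s hs; rw [iteratedDeriv_zero]; exact hfw s hs
  | succ n ih =>
    intro s hs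
    have hmem : (s : ℂ) ∈ ball (s₁ : ℂ) ε := by
      rw [mem_ball, dist_eq_norm, ← Complex.ofReal_sub, Complex.norm_real, Real.norm_eq_abs]
      exact hs
    have h1 : AnalyticAt ℂ f s := hf.analyticAt (isOpen_ball.mem_nhds hmem)
    have h2 : AnalyticAt ℂ (iteratedDeriv n f) s := by
      rw [iteratedDeriv_eq_iterate]
      exact h1.iterated_deriv n
    have h3 : HasDerivAt (fun t : ℝ => iteratedDeriv n f t) (deriv (iteratedDeriv n f) s) s :=
      h2.differentiableAt.hasDerivAt.comp_ofReal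
    have h4 : HasDerivAt (fun t : ℝ => w n t z) (w (n + 1) s z) s := hw.der n s (hI s hs) z hz
    have h5 : (fun t : ℝ => iteratedDeriv n f t) =ᶠ[𝓝 s] fun t => w n t z := by
      have h6 : ∀ᶠ t : ℝ in 𝓝 s, |t - s₁| < ε := by
        have : Continuous fun t : ℝ => |t - s₁| := by fun_prop
        exact this.continuousAt.eventually_lt continuousAt_const hs
      filter_upwards [h6] with t ht
      exact ih t ht
    rw [iteratedDeriv_succ]
    exact h3.unique (h4.congr_of_eventuallyEq h5)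

/-- the extension is holomorphic in both variables -/
theorem Ext.joint {w : ℕ → ℝ → ℂ → ℂ} {I : Set ℝ} {D : Set ℂ} (hw : JetFam w I D) {s₁ : ℝ} {z₁ : ℂ} (h : Ext (w 0) I D s₁ z₁) :
    ∃ (ε : ℝ) (W : ℂ × ℂ → ℂ), 0 < ε ∧ DifferentiableOn ℂ W (ball ((s₁ : ℂ), z₁) ε) ∧ (∀ s : ℝ, |s - s₁| < ε → s ∈ I) ∧ ball z₁ ε ⊆ D ∧
      ∀ (s : ℝ) (z : ℂ), ((s : ℂ), z) ∈ ball ((s₁ : ℂ), z₁) ε → W ((s : ℂ), z) = w 0 s z := by
  obtain ⟨ε, W, C, hε, hD, hI, hh, he, hC⟩ := h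
  have hs₁ : |s₁ - s₁| < ε := by rw [sub_self, _root_.abs_zero]; exact hε
  have hC0 : 0 ≤ C := (norm_nonneg _).trans (hC s₁ (mem_ball_self hε) z₁ (mem_ball_self hε))
  set ε' : ℝ := 3 / 4 * ε with hε'
  have hε'0 : 0 < ε' := by positivity
  have hε'ε : ε' < ε := by rw [hε']; linarith
  -- the Taylor coefficients
  have hit : ∀ z ∈ ball z₁ ε, ∀ n, iteratedDeriv n (fun s => W s z) (s₁ : ℂ) = w n s₁ z := fun z hz n =>
    GenC_iter hw (hD hz) hI (hh z hz) (he z hz) n s₁ hs₁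
  have hco : ∀ z ∈ ball z₁ ε, ∀ n : ℕ, ‖((n.factorial : ℂ))⁻¹ * w n s₁ z‖ ≤ C / ε' ^ n := by
    intro z hz n
    have h1 := Complex.norm_iteratedDeriv_le_of_forall_mem_sphere_norm_le (f := fun s => W s z) (c := (s₁ : ℂ)) (R := ε') (C := C) n hε'0
      (((hh z hz).mono (closedBall_subset_ball hε'ε)).diffContOnCl_ball subset_rfl) (fun s hs => hC s (sphere_subset_closedBall.trans
        (closedBall_subset_ball hε'ε) hs) z hz)
    rw [hit z hz n] at h1
    have h2 : (0 : ℝ) < n.factorial := by exact_mod_cast n.factorial_pos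
    rw [norm_mul, norm_inv, Complex.norm_natCast, inv_mul_le_iff₀ h2]
    rw [mul_div_assoc] at h1
    exact h1
  have hser : ∀ s ∈ ball (s₁ : ℂ) ε, ∀ z ∈ ball z₁ ε, W s z = ∑' n : ℕ, ((n.factorial : ℂ))⁻¹ * w n s₁ z * (s - s₁) ^ n := by
    intro s hs z hz
    have h1 := Complex.taylorSeries_eq_on_ball' (f := fun s => W s z) hs (hh z hz)
    rw [← h1]
    refine tsum_congr fun n => ?_
    rw [hit z hz n]
  -- holomorphy in `z`
  have hz : ∀ s ∈ ball (s₁ : ℂ) (ε / 2), DifferentiableOn ℂ (fun z => W s z) (ball z₁ ε) := by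
    intro s hs
    have hs' : ‖s - s₁‖ < ε / 2 := by rwa [mem_ball, dist_eq_norm] at hs
    have h1 : DifferentiableOn ℂ (fun z => ∑' n : ℕ, ((n.factorial : ℂ))⁻¹ * w n s₁ z * (s - s₁) ^ n) (ball z₁ ε) := by
      refine Complex.differentiableOn_tsum_of_summable_norm (u := fun n : ℕ => C * (2 / 3 : ℝ) ^ n)
        ((summable_geometric_of_lt_one (by norm_num) (by norm_num)).mul_left C) ?_ isOpen_ball ?_
      · intro n
        exact ((((hw.hol n s₁ (hI s₁ hs₁)).mono hD).const_mul _).mul_const _)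
      · intro n z hz
        rw [norm_mul, norm_pow]
        refine (mul_le_mul (hco z hz n) (pow_le_pow_left₀ (norm_nonneg _) hs'.le n) (by positivity) (by positivity)).trans (le_of_eq ?_)
        rw [div_mul_eq_mul_div, mul_div_assoc, ← div_pow]
        congr 2
        rw [hε']
        field_simp
        norm_num
    refine h1.congr fun z hz => ?_
    exact hser s (ball_subset_ball (by linarith) hs) z hz
  refine ⟨ε / 2, fun p => W p.1 p.2, by positivity, ?_, fun s hs => hI s (hs.trans (by linarith)),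
    (ball_subset_ball (by linarith)).trans hD, ?_⟩
  · rintro ⟨a, b⟩ hp
    rw [mem_ball, Prod.dist_eq, max_lt_iff] at hp
    obtain ⟨ha, hb⟩ := hp
    simp only at ha hb
    set r : ℝ := min (ε / 2 - dist a (s₁ : ℂ)) (ε / 2 - dist b z₁) with hr
    have hr0 : 0 < r := lt_min (by linarith) (by linarith)
    have hba : ball a r ⊆ ball (s₁ : ℂ) (ε / 2) := ball_subset_ball' (by
      have := min_le_left (ε / 2 - dist a (s₁ : ℂ)) (ε / 2 - dist b z₁)
      rw [← hr] at this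
      linarith)
    have hbb : ball b r ⊆ ball z₁ ε := ball_subset_ball' (by
      have := min_le_right (ε / 2 - dist a (s₁ : ℂ)) (ε / 2 - dist b z₁)
      rw [← hr] at this
      linarith)
    have hba' : ball a r ⊆ ball (s₁ : ℂ) ε := hba.trans (ball_subset_ball (by linarith))
    have h1 : AnalyticAt ℂ (fun p : ℂ × ℂ => W p.1 p.2) (a, b) :=
      Pool.Agent.TH.osgood (M := C) hr0 (fun s hs z hz' => hC s (hba' hs) z (hbb hz'))
        (fun z hz' => (hh z (hbb hz')).mono hba') (fun s hs => (hz s (hba hs)).mono hbb)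
    exact h1.differentiableAt.differentiableWithinAt
  · intro s z hp
    rw [mem_ball, Prod.dist_eq, max_lt_iff] at hp
    obtain ⟨ha, hb⟩ := hp
    simp only at ha hb
    refine he z (mem_ball.2 (hb.trans (by linarith))) s ?_
    rw [dist_eq_norm, ← Complex.ofReal_sub, Complex.norm_real, Real.norm_eq_abs] at ha
    linarith

end Pool.Agent.G3.C

end
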