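import Pool.Agent.H94.G4T.G3.Defs
import Pool.Agent.H94.G4T.M04
import Pool.Agent.H94.G4T.M06
import Pool.Agent.H94.G4T.M22
import Pool.Agent.H94.G4T.M23

/-! The parts of this file: H56.G3.Pc1a, G4.H.Defs, G4.H.Bas, G3.Z.CDefs, G3.Z.Sit. -/

section

/-!
# G3 Pc1a: almost all points of circles are not degenerate, averages
-/

set_option autoImplicit false

open Topology Filter Metric MeasureTheory

namespace Pool.Agent.H56.G3

open Pool.Agent.H36.BP (EN fs wd Sub)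
open Pool.Agent.H14.PP (IsCone CurveAt Tan)
open Pool.Agent.AD (Vd)
open Pool.Agent.TG (TMap Gd)
open Pool.Agent.G3 (Cv PS QD Ok Lam Lq Np pf TT)

theorem countable_bad {U : Set ℂ} {P : ℂ → Prop} (h : ∀ z ∈ U, ∀ᶠ w in 𝓝[≠] z, P w) : {z | z ∈ U ∧ ¬ P z}.Countable := by
  have hs : {z | P z} ∈ codiscreteWithin U := by
    rw [mem_codiscreteWithin]
    intro x hx
    rw [disjoint_principal_right]
    filter_upwards [h x hx] with w hw hw2
    exact hw2.2 hw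
  have : DiscreteTopology ↑(({z | P z})ᶜ ∩ U) := isDiscrete_iff_discreteTopology.mp
    <| isDiscrete_of_codiscreteWithin ((compl_compl {z | P z}).symm ▸ hs)
  have h1 : (({z | P z})ᶜ ∩ U).Countable := TopologicalSpace.separableSpace_iff_countable.1 inferInstance
  refine h1.mono ?_
  rintro z ⟨h2, h3⟩
  exact ⟨h3, h2⟩

theorem ae_circle {U : Set ℂ} {P : ℂ → Prop} (h : ∀ z ∈ U, ∀ᶠ w in 𝓝[≠] z, P w) {c : ℂ} {r : ℝ} (hr : 0 < r) (hs : sphere c r ⊆ U) :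
    ∀ᵐ θ : ℝ, P (circleMap c r θ) := by
  have h1 : (circleMap c r ⁻¹' {z | z ∈ U ∧ ¬ P z}).Countable := (countable_bad h).preimage_circleMap c hr.ne'
  rw [ae_iff]
  refine measure_mono_null ?_ (h1.measure_zero volume)
  intro θ hθ
  exact ⟨hs (circleMap_mem_sphere c hr.le θ), hθ⟩

theorem avg_congr_ae {f g : ℂ → ℝ} {c : ℂ} {r : ℝ} (h : ∀ᵐ θ : ℝ, f (circleMap c r θ) = g (circleMap c r θ)) :
    Real.circleAverage f c r = Real.circleAverage g c r := by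
  unfold Real.circleAverage
  congr 1
  refine intervalIntegral.integral_congr_ae ?_
  filter_upwards [h] with θ hθ _
  exact hθ

theorem ci_congr_ae {f g : ℂ → ℝ} {c : ℂ} {r : ℝ} (hf : CircleIntegrable f c r) (h : ∀ᵐ θ : ℝ, f (circleMap c r θ) = g (circleMap c r θ)) :
    CircleIntegrable g c r := by
  unfold CircleIntegrable at hf ⊢
  refine hf.congr_ae ?_
  exact ae_restrict_of_ae h

/-- change of variables -/
theorem avg_scale (f : ℂ → ℝ) (w : ℂ) (r ρ : ℝ) : Real.circleAverage (fun z => f (w + r * z)) 0 ρ = Real.circleAverage f w (r * ρ) := by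
  unfold Real.circleAverage
  congr 1
  refine intervalIntegral.integral_congr fun θ _ => ?_
  simp only [circleMap]
  congr 1
  push_cast
  ring

/-- the mean value inequality for `log ‖F‖` -/
theorem log_norm_le_avg {E : Type*} [NormedAddCommGroup E] [NormedSpace ℂ E] {F : ℂ → E} {c : ℂ} {R : ℝ} (hR : 0 < R) (hF : DiffContOnCl ℂ F (ball c R))
    (h0 : ∀ z ∈ sphere c R, F z ≠ 0) (hFc : F c ≠ 0) : Real.log ‖F c‖ ≤ Real.circleAverage (fun z => Real.log ‖F z‖) c R := by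
  have h1 := poisson_jensen hR hF h0 (mem_ball_self hR) hFc
  refine h1.trans_eq ?_
  refine Real.circleAverage_congr_sphere ?_
  intro w hw
  have hw' : w ≠ c := by
    rintro rfl
    rw [abs_of_pos hR, mem_sphere_iff_norm, sub_self, norm_zero] at hw
    exact hR.ne hw
  have h2 : w - c ≠ 0 := sub_ne_zero.2 hw'
  simp only [pk]
  rw [sub_self, add_zero, sub_zero, div_self h2, Complex.one_re, one_mul]

/-- Jensen's inequality -/
theorem log_norm_le_avg' {P : ℂ → ℂ} {c : ℂ} {r : ℝ} (hr : 0 < r) (hP : AnalyticOnNhd ℂ P (closedBall c r)) (hc : P c ≠ 0) :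
    Real.log ‖P c‖ ≤ Real.circleAverage (fun z => Real.log ‖P z‖) c r := by
  have har : |r| = r := abs_of_pos hr
  have hana : AnalyticOnNhd ℂ P (closedBall c |r|) := by rwa [har]
  rw [AnalyticOnNhd.circleAverage_log_norm hr.ne' hana hc]
  have h1 : 0 ≤ ∑ᶠ u, (MeromorphicOn.divisor P (closedBall c |r|) u : ℝ) * Real.log (r * ‖c - u‖⁻¹) := by
    apply finsum_nonneg
    intro u
    by_cases hu : u ∈ closedBall c |r|
    · apply mul_nonneg
      · have := MeromorphicOn.AnalyticOnNhd.divisor_nonneg hana u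
        exact_mod_cast this
      · by_cases huc : u = c
        · simp [huc]
        · apply Real.log_nonneg
          have h2 : 0 < ‖c - u‖ := by
            rw [norm_pos_iff, sub_ne_zero]
            exact fun h => huc h.symm
          have h3 : ‖c - u‖ ≤ r := by
            rw [mem_closedBall, dist_eq_norm, abs_of_pos hr, norm_sub_rev] at hu
            exact hu
          rw [← div_eq_mul_inv, le_div_iff₀ h2]
          linarith
    · have : MeromorphicOn.divisor P (closedBall c |r|) u = 0 := Function.locallyFinsuppWithin.apply_eq_zero_of_notMem _ hu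
      simp [this]
  linarith

variable {N k : ℕ} {X : Set (EN N)} {Λ : AddSubgroup (Vd (k + 1))} {u : EN N → Vd (k + 1)} {D : Set (Vd (k + 1))} {Q : EN N → ℂ} {d : ℕ}
  {p : EN N → EN N → ℝ} {m : ℕ} {C : ℝ} {F : ℂ → EN N} {h : ℂ → Vd (k + 1)}

/-- **Jensen's inequality for `Lq`.** -/
theorem Lq_jensen (hX : IsCone X) (hqd : QD X Λ u D Q d) {U : Set ℂ} (hU : IsOpen U) (hc : Cv X Λ u U F h) {z : ℂ} {r : ℝ} (hr : 0 < r)
    (hcb : closedBall z r ⊆ U) (hQ : Q (F z) ≠ 0) :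
    CircleIntegrable (fun w => Lq Q d (F w)) z r ∧ Real.circleAverage (fun w => Lq Q d (F w)) z r ≤ Lq Q d (F z) + d * TT F z r := by
  have hq : DifferentiableOn ℂ (fun z => Q (F z)) U := hqd.diff.comp_differentiableOn hc.F_diff
  have ha : AnalyticOnNhd ℂ (fun z => Q (F z)) U := hq.analyticOnNhd hU
  have hne : ∀ w ∈ U, F w ≠ 0 := fun w hw h0 => hX.zero_notMem (h0 ▸ hc.mem w hw)
  have i1 : CircleIntegrable (fun w => Real.log ‖F w‖) z r := by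
    refine ContinuousOn.circleIntegrable hr.le ?_
    refine ContinuousOn.log (hc.F_diff.continuousOn.norm.mono (sphere_subset_closedBall.trans hcb)) fun w hw => ?_
    exact norm_ne_zero_iff.2 (hne w (hcb (sphere_subset_closedBall hw)))
  have i2 : CircleIntegrable (fun w => Real.log ‖Q (F w)‖) z r := by
    have h1 : MeromorphicOn (fun z => Q (F z)) (sphere z r) := fun w hw => (ha w (hcb (sphere_subset_closedBall hw))).meromorphicAt
    exact MeromorphicOn.circleIntegrable_log_norm_of_nonneg h1 hr.le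
  have i3 : CircleIntegrable (fun w => (d : ℝ) * Real.log ‖F w‖) z r := i1.const_smul (a := (d : ℝ))
  refine ⟨i3.sub i2, ?_⟩
  have h1 : Real.circleAverage (fun w => Lq Q d (F w)) z r =
      Real.circleAverage (fun w => (d : ℝ) * Real.log ‖F w‖) z r - Real.circleAverage (fun w => Real.log ‖Q (F w)‖) z r :=
    Real.circleAverage_fun_sub i3 i2
  have h2 : Real.circleAverage (fun w => (d : ℝ) * Real.log ‖F w‖) z r = d * Real.circleAverage (fun w => Real.log ‖F w‖) z r :=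
    Real.circleAverage_fun_smul (a := (d : ℝ))
  have h3 := log_norm_le_avg' hr (ha.mono hcb) hQ
  rw [h1, h2]
  unfold Lq TT
  have h4 : (d : ℝ) * (Real.circleAverage (fun w => Real.log ‖F w‖) z r - Real.log ‖F z‖) =
      d * Real.circleAverage (fun w => Real.log ‖F w‖) z r - d * Real.log ‖F z‖ := by ring
  linarith

theorem TT_nonneg (hX : IsCone X) {U : Set ℂ} (hc : Cv X Λ u U F h) {z : ℂ} {r : ℝ} (hr : 0 < r)
    (hcb : closedBall z r ⊆ U) : 0 ≤ TT F z r := by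
  have hne : ∀ w ∈ U, F w ≠ 0 := fun w hw h0 => hX.zero_notMem (h0 ▸ hc.mem w hw)
  have h1 := log_norm_le_avg hr (hc.F_diff.mono (by rw [closure_ball z hr.ne']; exact hcb)).diffContOnCl
    (fun w hw => hne w (hcb (sphere_subset_closedBall hw))) (hne z (hcb (mem_closedBall_self hr.le)))
  unfold TT
  linarith

end Pool.Agent.H56.G3

end

section

/-!
# G4 H Defs: few bad hits, by theta functions; definitions

`ThF Γ W e`: theta factors `e l y` of the weight `wt W` for the lattice `Γ`, with the cocycle property.  `lv b c`: the vector `∑ c i b i`, `b` a real basis in `Γ`, `c` integral.  `ThM b W e M f`: `f` is a theta function of the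
weight `M wt W` for the lattice spanned by `b`.  `dir a f`: the derivative in the direction `a`.  `Cov d Z`: near each of its points `Z` is the union of the images of finitely many holomorphic maps from the unit polydisc of `ℂ^d`.
-/

set_option autoImplicit false

open Topology Filter Metric

namespace Pool.Agent.G4.H

open Pool.Agent.AD (Vd)
open Pool.Agent.TG (Lat)
open Pool.Agent.G3 (wt)

variable {k r : ℕ}

/-- theta factors of the weight `wt W` -/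
structure ThF (Γ : AddSubgroup (Vd (k + 1))) (W : Fin r → Vd (k + 1) →L[ℂ] ℂ) (e : Vd (k + 1) → Vd (k + 1) → ℂ) : Prop where
  lat : Lat Γ
  pos : ∀ y, (∀ i, W i y = 0) → y = 0
  an : ∀ l ∈ Γ, ∀ y, AnalyticAt ℂ (e l) y
  nrm : ∀ l ∈ Γ, ∀ y, ‖e l y‖ = Real.exp (wt W y - wt W (y + l))
  coc : ∀ l ∈ Γ, ∀ l' ∈ Γ, ∀ y, e (l + l') y = e l (y + l') * e l' y

/-- real bases of `ℂ^(k+1)` -/
abbrev RB (k : ℕ) : Type := Module.Basis (Fin (2 * (k + 1))) ℝ (Vd (k + 1))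

/-- the integral combinations of the basis -/
noncomputable def lv (b : RB k) (c : Fin (2 * (k + 1)) → ℤ) : Vd (k + 1) := ∑ i, (c i : ℝ) • b i

/-- the Gaussian with the peak `p`: `‖pk W M p y‖ * exp (- M wt y) = exp (- M wt (y - p))` -/
noncomputable def pk (W : Fin r → Vd (k + 1) →L[ℂ] ℂ) (M : ℕ) (p y : Vd (k + 1)) : ℂ :=
  Complex.exp ((M : ℂ) * ∑ i, (2 * (starRingEnd ℂ) (W i p) * W i y - (starRingEnd ℂ) (W i p) * W i p))

/-- the theta series with the peaks `p - lv b c` -/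
noncomputable def th (b : RB k) (W : Fin r → Vd (k + 1) →L[ℂ] ℂ) (e : Vd (k + 1) → Vd (k + 1) → ℂ) (M : ℕ) (p y : Vd (k + 1)) : ℂ :=
  ∑' c : Fin (2 * (k + 1)) → ℤ, e (lv b c) y ^ M * pk W M p (y + lv b c)

/-- theta functions of the weight `M wt W` for the lattice spanned by `b` -/
structure ThM (b : RB k) (e : Vd (k + 1) → Vd (k + 1) → ℂ) (M : ℕ) (f : Vd (k + 1) → ℂ) : Prop where
  an : ∀ y, AnalyticAt ℂ f y
  per : ∀ (c : Fin (2 * (k + 1)) → ℤ) (y : Vd (k + 1)), e (lv b c) y ^ M * f (y + lv b c) = f y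

/-- the derivative in the direction `a` -/
noncomputable def dir (a : Vd (k + 1)) (f : Vd (k + 1) → ℂ) (y : Vd (k + 1)) : ℂ := fderiv ℂ f y a

/-- near each of its points `Z` is the union of the images of finitely many holomorphic maps from the unit polydisc of `ℂ^d` -/
def CovD (d : ℕ) (Z : Set (Vd (k + 1))) : Prop :=
  ∀ y ∈ Z, ∃ (s : ℕ) (β : Fin s → Vd d → Vd (k + 1)), (∀ i, AnalyticOnNhd ℂ (β i) (ball 0 1)) ∧ (∀ i, ∀ t ∈ ball (0 : Vd d) 1, β i t ∈ Z) ∧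
    ∀ᶠ y' in 𝓝 y, y' ∈ Z → ∃ i, ∃ t ∈ ball (0 : Vd d) (1 / 2), y' = β i t

/-- `Z` is empty or covered by polydiscs of codimension `2` -/
def Cov (Z : Set (Vd (k + 1))) : Prop := Z = ∅ ∨ ∃ d : ℕ, d + 1 = k ∧ CovD d Z

end Pool.Agent.G4.H

end

section

/-!
# G4 H Bas: real bases in lattices

`exists_rb`: the lattice `Γ` contains a real basis (`Γ` spans `ℂ^(k+1)` over `ℝ`: a proper real subspace does not have all points within distance `R`).  `lv_mem`, `lv_add`.  `lv_red`: every point is within distance `R` of a point `lv b c`.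
`lv_mul`: for `Γ ≤ Λ`, `b` in `Γ`: there is `m ≥ 1` with `m l ∈ {lv b c}` for all `l ∈ Λ` (`Λ / {lv b c}` is finite: the representatives within distance `R` of `0` are finitely many, `Λ` is discrete).
`lv_low`: `‖lv b c‖ ≥ κ * ∑ |c i|`.
-/

set_option autoImplicit false

open Topology Filter Metric

namespace Pool.Agent.G4.H

open Pool.Agent.AD (Vd)
open Pool.Agent.TG (Lat)
open Pool.Agent.G3 (wt)

variable {k r : ℕ} {Λ Γ : AddSubgroup (Vd (k + 1))}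

private theorem Bas_span {n : ℕ} {L : AddSubgroup (Vd n)} {R : ℝ} (h : ∀ y : Vd n, ∃ l ∈ L, ‖y - l‖ ≤ R) :
    Submodule.span ℝ (L : Set (Vd n)) = ⊤ := by
  by_contra hne
  obtain ⟨f, hf, hle⟩ := Submodule.exists_le_ker_of_lt_top _ (lt_top_iff_ne_top.2 hne)
  obtain ⟨y, hy⟩ : ∃ y, f y ≠ 0 := by
    by_contra hcon
    push Not at hcon
    exact hf (LinearMap.ext hcon)
  set g := LinearMap.toContinuousLinearMap f with hg
  obtain ⟨l, hl, hyl⟩ := h (((‖g‖ * R + 1) / f y) • y)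
  have h1 : f l = 0 := hle (Submodule.subset_span hl)
  have h2 : f (((‖g‖ * R + 1) / f y) • y - l) = ‖g‖ * R + 1 := by
    rw [map_sub, h1, map_smul, smul_eq_mul, sub_zero, div_mul_cancel₀ _ hy]
  have h3 : ‖g (((‖g‖ * R + 1) / f y) • y - l)‖ ≤ ‖g‖ * R :=
    (g.le_opNorm _).trans (mul_le_mul_of_nonneg_left hyl (norm_nonneg _))
  have h4 : g (((‖g‖ * R + 1) / f y) • y - l) = ‖g‖ * R + 1 := h2
  rw [h4] at h3
  have h5 := (le_abs_self (‖g‖ * R + 1)).trans h3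
  linarith

theorem exists_rb (hΓ : Lat Γ) : ∃ b : RB k, ∀ i, b i ∈ Γ := by
  obtain ⟨R, -, hR⟩ := hΓ.cpt
  have hs : ⊤ ≤ Submodule.span ℝ (Γ : Set (Vd (k + 1))) := (Bas_span hR).ge
  let B := Module.Basis.ofSpan hs
  have hB : ∀ i, B i ∈ (Γ : Set (Vd (k + 1))) := fun i =>
    Module.Basis.ofSpan_subset hs (Set.mem_range_self i)
  letI := FiniteDimensional.fintypeBasisIndex B
  have hc : Fintype.card ((linearIndepOn_empty ℝ (id : Vd (k + 1) → Vd (k + 1))).extend (Set.empty_subset (Γ : Set (Vd (k + 1))))) =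
      2 * (k + 1) := by
    rw [← Module.finrank_eq_card_basis B, finrank_real_of_complex, Module.finrank_fin_fun]
  refine ⟨B.reindex (Fintype.equivFinOfCardEq hc), fun i => ?_⟩
  rw [Module.Basis.reindex_apply]
  exact hB _

theorem lv_mem {b : RB k} (hb : ∀ i, b i ∈ Γ) (c : Fin (2 * (k + 1)) → ℤ) : lv b c ∈ Γ := by
  refine AddSubgroup.sum_mem _ fun i _ => ?_
  rw [Int.cast_smul_eq_zsmul]
  exact AddSubgroup.zsmul_mem _ (hb i) (c i)

theorem lv_add (b : RB k) (c c' : Fin (2 * (k + 1)) → ℤ) : lv b (c + c') = lv b c + lv b c' := by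
  unfold lv
  rw [← Finset.sum_add_distrib]
  refine Finset.sum_congr rfl fun i _ => ?_
  rw [Pi.add_apply, Int.cast_add, add_smul]

private theorem Bas_eq (b : RB k) (c : Fin (2 * (k + 1)) → ℤ) : lv b c = b.equivFun.symm fun i => (c i : ℝ) := by
  rw [Module.Basis.equivFun_symm_apply]
  rfl

private theorem Bas_nsmul (b : RB k) (n : ℕ) (c : Fin (2 * (k + 1)) → ℤ) : n • lv b c = lv b (n • c) := by
  rw [Bas_eq, Bas_eq, ← map_nsmul]
  congr 1
  funext i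
  simp

private theorem Bas_sub (b : RB k) (c c' : Fin (2 * (k + 1)) → ℤ) : lv b c - lv b c' = lv b (c - c') := by
  rw [Bas_eq, Bas_eq, Bas_eq, ← map_sub]
  congr 1
  funext i
  simp

theorem lv_red (b : RB k) : ∃ R : ℝ, 0 < R ∧ ∀ y : Vd (k + 1), ∃ c : Fin (2 * (k + 1)) → ℤ, ‖y - lv b c‖ ≤ R := by
  have h0 : (0 : ℝ) ≤ ∑ i, ‖b i‖ := Finset.sum_nonneg fun _ _ => norm_nonneg _
  refine ⟨∑ i, ‖b i‖ + 1, by linarith, fun y => ⟨fun i => ⌊b.equivFun y i⌋, ?_⟩⟩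
  have h1 : y - lv b (fun i => ⌊b.equivFun y i⌋) = ∑ i, Int.fract (b.equivFun y i) • b i := by
    conv_lhs => rw [← b.sum_equivFun y]
    unfold lv
    rw [← Finset.sum_sub_distrib]
    refine Finset.sum_congr rfl fun i _ => ?_
    rw [← sub_smul]
    simp only [b.sum_equivFun]
    rfl
  rw [h1]
  have h2 : ‖∑ i, Int.fract (b.equivFun y i) • b i‖ ≤ ∑ i, ‖b i‖ := by
    refine (norm_sum_le _ _).trans (Finset.sum_le_sum fun i _ => ?_)
    rw [norm_smul, Real.norm_eq_abs, abs_of_nonneg (Int.fract_nonneg _)]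
    exact mul_le_of_le_one_left (norm_nonneg _) (Int.fract_lt_one _).le
  linarith

theorem lv_low (b : RB k) : ∃ κ : ℝ, 0 < κ ∧ ∀ c : Fin (2 * (k + 1)) → ℤ, κ * ∑ i, |(c i : ℝ)| ≤ ‖lv b c‖ := by
  obtain ⟨K, hK, ha⟩ := LinearMap.exists_antilipschitzWith (b.equivFun.symm : (Fin (2 * (k + 1)) → ℝ) →ₗ[ℝ] Vd (k + 1))
    (LinearEquiv.ker _)
  have hK' : (0 : ℝ) < K := hK
  have hn : (0 : ℝ) < 2 * (k + 1) := by positivity
  refine ⟨(2 * (k + 1) * K)⁻¹, by positivity, fun c => ?_⟩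
  rw [inv_mul_le_iff₀ (by positivity)]
  have h1 := ha.le_mul_dist (fun i => (c i : ℝ)) 0
  rw [map_zero, dist_zero_right, dist_zero_right] at h1
  have h2 : ‖(fun i => (c i : ℝ))‖ ≤ K * ‖lv b c‖ := by
    rw [Bas_eq]
    exact h1
  have h3 : ∑ i, |(c i : ℝ)| ≤ ∑ _i : Fin (2 * (k + 1)), ‖(fun i => (c i : ℝ))‖ :=
    Finset.sum_le_sum fun i _ => norm_le_pi_norm (fun i => (c i : ℝ)) i
  rw [Finset.sum_const, Finset.card_univ, Fintype.card_fin, nsmul_eq_mul] at h3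
  push_cast at h3
  calc ∑ i, |(c i : ℝ)| ≤ 2 * (k + 1) * ‖(fun i => (c i : ℝ))‖ := h3
    _ ≤ 2 * (k + 1) * (K * ‖lv b c‖) := mul_le_mul_of_nonneg_left h2 hn.le
    _ = 2 * (k + 1) * K * ‖lv b c‖ := by ring

private theorem Bas_fin {L : AddSubgroup (Vd (k + 1))} (hL : Lat L) (R : ℝ) : {l | l ∈ L ∧ ‖l‖ ≤ R}.Finite := by
  obtain ⟨δ, hδ, hd⟩ := hL.disc
  obtain ⟨t, -, htf, ht⟩ := (isCompact_closedBall (0 : Vd (k + 1)) R).finite_cover_balls (half_pos hδ)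
  have h1 : {l | l ∈ L ∧ ‖l‖ ≤ R} ⊆ ⋃ x ∈ t, {l | l ∈ L ∧ l ∈ ball x (δ / 2)} := by
    rintro l ⟨hl, hn⟩
    have h2 := ht (mem_closedBall_zero_iff.2 hn)
    obtain ⟨x, hx, hlx⟩ := Set.mem_iUnion₂.1 h2
    exact Set.mem_iUnion₂.2 ⟨x, hx, hl, hlx⟩
  refine (htf.biUnion fun x _ => ?_).subset h1
  refine Set.Subsingleton.finite fun l hl l' hl' => ?_
  have h2 : ‖l - l'‖ < δ := by
    rw [← dist_eq_norm]
    have h3 := dist_triangle_right l l' x
    have h4 := mem_ball.1 hl.2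
    have h5 := mem_ball.1 hl'.2
    linarith
  exact sub_eq_zero.1 (hd _ (L.sub_mem hl.1 hl'.1) h2)

theorem lv_mul (hΛ : Lat Λ) {b : RB k} (hb : ∀ i, b i ∈ Λ) : ∃ m : ℕ, 1 ≤ m ∧ ∀ l ∈ Λ, ∃ c : Fin (2 * (k + 1)) → ℤ, m • l = lv b c := by
  obtain ⟨R, hR, hred⟩ := lv_red b
  have hF := Bas_fin hΛ R
  set F := hF.toFinset with hFd
  refine ⟨F.card.factorial, Nat.one_le_iff_ne_zero.2 (Nat.factorial_ne_zero _), fun l hl => ?_⟩
  choose c hc using fun j : ℕ => hred (j • l)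
  have hmaps : ∀ j ∈ Finset.range (F.card + 1), j • l - lv b (c j) ∈ F := by
    intro j _
    rw [hFd, Set.Finite.mem_toFinset]
    exact ⟨Λ.sub_mem (Λ.nsmul_mem hl j) (lv_mem hb _), hc j⟩
  obtain ⟨i, hi, j, hj, hij, he⟩ := Finset.exists_ne_map_eq_of_card_lt_of_maps_to
    (by rw [Finset.card_range]; exact Nat.lt_succ_self _) hmaps
  have key : ∀ i j : ℕ, i < j → j < F.card + 1 → i • l - lv b (c i) = j • l - lv b (c j) →
      ∃ c' : Fin (2 * (k + 1)) → ℤ, F.card.factorial • l = lv b c' := by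
    intro i j hij hj he
    have h1 : (j - i) • l = lv b (c j - c i) := by
      rw [← Bas_sub, sub_nsmul l hij.le]
      have h2 : j • l = i • l - lv b (c i) + lv b (c j) := by
        rw [he, sub_add_cancel]
      rw [h2]
      abel
    obtain ⟨q, hq⟩ := Nat.dvd_factorial (Nat.sub_pos_of_lt hij) (by omega : j - i ≤ F.card)
    refine ⟨q • (c j - c i), ?_⟩
    rw [← Bas_nsmul, ← h1, smul_smul, mul_comm, ← hq]
  rw [Finset.mem_range] at hi hj
  rcases lt_or_gt_of_ne hij with h | h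
  · exact key i j h hj he
  · exact key j i h hi he.symm

/-- the weight is positive definite -/
theorem wt_low {W : Fin r → Vd (k + 1) →L[ℂ] ℂ} (hW : ∀ y, (∀ i, W i y = 0) → y = 0) : ∃ c₀ : ℝ, 0 < c₀ ∧ ∀ y, c₀ * ‖y‖ ^ 2 ≤ wt W y := by
  let T : Vd (k + 1) →ₗ[ℂ] (Fin r → ℂ) := LinearMap.pi fun i => (W i : Vd (k + 1) →ₗ[ℂ] ℂ)
  have hT : LinearMap.ker T = ⊥ := by
    rw [LinearMap.ker_eq_bot']
    intro y hy
    exact hW y fun i => congrFun hy i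
  obtain ⟨K, hK, ha⟩ := LinearMap.exists_antilipschitzWith T hT
  have hK' : (0 : ℝ) < K := hK
  refine ⟨((K : ℝ) ^ 2)⁻¹, by positivity, fun y => ?_⟩
  rw [inv_mul_le_iff₀ (by positivity)]
  have h1 := ha.le_mul_dist y 0
  rw [map_zero, dist_zero_right, dist_zero_right] at h1
  have hw : 0 ≤ wt W y := Finset.sum_nonneg fun i _ => sq_nonneg _
  have h2 : ‖T y‖ ≤ Real.sqrt (wt W y) := by
    refine (pi_norm_le_iff_of_nonneg (Real.sqrt_nonneg _)).2 fun i => ?_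
    refine Real.le_sqrt_of_sq_le ?_
    exact Finset.single_le_sum (f := fun i => ‖W i y‖ ^ 2) (fun _ _ => sq_nonneg _) (Finset.mem_univ i)
  have h3 : ‖y‖ ≤ K * Real.sqrt (wt W y) := h1.trans (mul_le_mul_of_nonneg_left h2 hK'.le)
  calc ‖y‖ ^ 2 ≤ (K * Real.sqrt (wt W y)) ^ 2 := pow_le_pow_left₀ (norm_nonneg _) h3 2
    _ = K ^ 2 * wt W y := by rw [mul_pow, Real.sq_sqrt hw]

end Pool.Agent.G4.H

end

section

/-!
# G3 Z CDefs: the finite set of the global sections, simple tori, the interface to the blocks (A) and (C)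

`Csf X Λ u D S`: `S` is a finite set of sections of `u`, holomorphic outside `D`, meromorphic everywhere, and every entire curve over a line is one of them on this line.
`mer` is stated for every direction `a`: at every `y` there is an analytic lift `φ` which is not identically `0` on the line through `y` in the direction `a`.
`Simp Λ`: the torus `ℂ² / Λ` contains no elliptic curve.
`JBd`: bounds for the integrals `JJ (α j)` of finitely many forms along short paths in the fibres.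
`HPl`: every line has a half plane in which all hits of `D` are good: not in `B`, and transversal.
-/

set_option autoImplicit false

open Topology Filter Metric

namespace Pool.Agent.G3

open Pool.Agent.H36.BP (EN fs wd Sub)
open Pool.Agent.H14.PP (IsCone CurveAt Tan)
open Pool.Agent.H62.EF (MN pr)
open Pool.Agent.AD (Vd Chart Charts)
open Pool.Agent.TG (TMap Lat Geo Gd)

open Pool.Agent.TG (VForm JJ Fb TransAt)
open Pool.Agent.G3.C (HP)

variable {N k : ℕ}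

/-- the finite set of the global sections -/
structure Csf (X : Set (EN N)) (Λ : AddSubgroup (Vd (k + 1))) (u : EN N → Vd (k + 1)) (D : Set (Vd (k + 1))) (S : Set (Vd (k + 1) → MN N)) : Prop where
  fin : S.Finite
  hol : ∀ Φ ∈ S, ∀ y ∉ D, ∃ φ : Vd (k + 1) → EN N, AnalyticAt ℂ φ y ∧ ∀ᶠ z in 𝓝 y, φ z ∈ X ∧ Φ z = pr (φ z) ∧ u (φ z) - z ∈ Λ
  mer : ∀ Φ ∈ S, ∀ a : Vd (k + 1), a ≠ 0 → ∀ y, ∃ φ : Vd (k + 1) → EN N, AnalyticAt ℂ φ y ∧ (∃ᶠ w in 𝓝 (0 : ℂ), φ (y + w • a) ≠ 0) ∧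
    ∀ᶠ z in 𝓝 y, z ∉ D → φ z ≠ 0 → Φ z = pr (φ z)
  tr : ∀ Φ ∈ S, ∀ l ∈ Λ, ∃ Φ' ∈ S, ∀ y ∉ D, Φ' y = Φ (y + l)
  cls : ∀ a : Vd (k + 1), a ≠ 0 → ∀ (b : Vd (k + 1)) (G : ℂ → EN N), Cv X Λ u Set.univ G (fun z => z • a + b) →
    ∃ Φ ∈ S, ∀ z : ℂ, z • a + b ∉ D → pr (G z) = Φ (z • a + b)

/-- the torus contains no elliptic curve -/
def Simp (Λ : AddSubgroup (Vd (k + 1))) : Prop :=
  ∀ a : Vd (k + 1), a ≠ 0 → ∀ ω₁ ω₂ : ℂ, ω₁ • a ∈ Λ → ω₂ • a ∈ Λ → ¬ LinearIndependent ℝ ![ω₁, ω₂]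

/-- bounds for the integrals along short paths -/
structure JBd (X : Set (EN N)) (Λ : AddSubgroup (Vd (k + 1))) (u : EN N → Vd (k + 1)) (D : Set (Vd (k + 1))) {J : ℕ} (α : Fin J → VForm X Λ u) (c₀ : ℝ) : Prop where
  pos : 0 < c₀
  ub : ∀ δ : ℝ, 0 < δ → ∃ ε₀ C : ℝ, 0 < ε₀ ∧ 0 < C ∧ ∀ j, ∀ y ∈ Gd D δ, ∀ n ∈ Fb X Λ u y, ∀ n' ∈ Fb X Λ u y, dist n n' ≤ ε₀ →
    ‖JJ (α j) y n n'‖ ≤ C * Real.exp (-c₀ * ‖y‖ ^ 2) * dist n n'
  lb : ∀ δ R : ℝ, 0 < δ → ∃ ε₀ c : ℝ, 0 < ε₀ ∧ 0 < c ∧ ∀ y ∈ Gd D δ, ‖y‖ ≤ R → ∀ n ∈ Fb X Λ u y, ∀ n' ∈ Fb X Λ u y, dist n n' ≤ ε₀ →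
    ∃ j, c * dist n n' ≤ ‖JJ (α j) y n n'‖

/-- every line has a half plane in which all hits of `D` are good -/
def HPl (D B : Set (Vd (k + 1))) : Prop :=
  ∀ a : Vd (k + 1), a ≠ 0 → ∀ b : Vd (k + 1), ∃ (ω : ℂ) (η : ℝ), ‖ω‖ = 1 ∧ ∀ z ∈ HP ω η, z • a + b ∈ D → z • a + b ∉ B ∧ TransAt D (z • a + b) a

/-- the points of `D` on a line are isolated -/
def LDi (D : Set (Vd (k + 1))) : Prop := ∀ a : Vd (k + 1), a ≠ 0 → ∀ (b : Vd (k + 1)) (z : ℂ), ∀ᶠ w in 𝓝[≠] z, w • a + b ∉ D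

/-- the limit situation: the curves `F n` over `h n` converge to the section `Φ` on the line `b + ℂ a` -/
structure Lim (X : Set (EN N)) (Λ : AddSubgroup (Vd (k + 1))) (u : EN N → Vd (k + 1)) (D : Set (Vd (k + 1))) (𝒰 : Ultrafilter ℕ) (F : ℕ → ℂ → EN N)
    (h : ℕ → ℂ → Vd (k + 1)) (a b : Vd (k + 1)) (Φ : Vd (k + 1) → MN N) : Prop where
  cv : ∀ r : ℝ, ∀ᶠ n in (𝒰 : Filter ℕ), Cv X Λ u (ball 0 r) (F n) (h n)
  a_ne : a ≠ 0
  hlim : ∀ r ε : ℝ, 0 < ε → ∀ᶠ n in (𝒰 : Filter ℕ), ∀ z ∈ closedBall (0 : ℂ) r, ‖h n z - (z • a + b)‖ < ε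
  flim : ∀ K : Set ℂ, IsCompact K → (∀ z ∈ K, z • a + b ∉ D) → ∀ ε : ℝ, 0 < ε → ∀ᶠ n in (𝒰 : Filter ℕ), ∀ z ∈ K, dist (pr (F n z)) (Φ (z • a + b)) < ε

/-- Theorem LCT: there are no curves over nearly affine arcs such that `Lam (z) ≥ Lam (0) + log |E z|` approximately, with `E` holomorphic without zeros -/
def LCT (X : Set (EN N)) (Λ : AddSubgroup (Vd (k + 1))) (u : EN N → Vd (k + 1)) (Q : EN N → ℂ) (d : ℕ) (p : EN N → EN N → ℝ) (m : ℕ) : Prop :=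
  ∀ (𝒰 : Ultrafilter ℕ) (a : Vd (k + 1)) (F : ℕ → ℂ → EN N) (h : ℕ → ℂ → Vd (k + 1)) (E : ℕ → ℂ → ℂ), a ≠ 0 →
    (∀ r : ℝ, ∀ᶠ n in (𝒰 : Filter ℕ), Cv X Λ u (ball 0 r) (F n) (h n)) → (∀ᶠ n in (𝒰 : Filter ℕ), Ok Q p (F n) 0) →
    (∀ r ε : ℝ, 0 < ε → ∀ᶠ n in (𝒰 : Filter ℕ), ∀ z ∈ ball (0 : ℂ) r, ‖deriv (h n) z - a‖ ≤ ε) →
    (∀ r : ℝ, ∀ᶠ n in (𝒰 : Filter ℕ), DifferentiableOn ℂ (E n) (ball 0 r) ∧ (∀ z ∈ ball (0 : ℂ) r, E n z ≠ 0) ∧ E n 0 = 1) →
    (∀ r ε : ℝ, 0 < ε → ∀ᶠ n in (𝒰 : Filter ℕ), ∀ z ∈ ball (0 : ℂ) r, Ok Q p (F n) z →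
      Lam Q d p m (F n) (h n) 0 + Real.log ‖E n z‖ - ε ≤ Lam Q d p m (F n) (h n) z) → False

end Pool.Agent.G3

end

section

/-!
# G3 Z Sit: the data of Theorem LCT

`Crs`: the crossing statement at good hits, for arcs near a line.  `Sit`: all data.  `Arr`: the curves of Theorem LCT after translations by the lattice, with their limit.
-/

set_option autoImplicit false

open Topology Filter Metric

namespace Pool.Agent.G3

open Pool.Agent.H36.BP (EN fs wd Sub)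
open Pool.Agent.H14.PP (IsCone CurveAt Tan)
open Pool.Agent.H62.EF (MN pr)
open Pool.Agent.AD (Vd Chart Charts)
open Pool.Agent.TG (TMap Lat Geo Gd)

open Pool.Agent.TG (VForm JJ II Cst Fb TransAt)
open Pool.Agent.G3.C (HP)

variable {N k : ℕ}

/-- the crossing statement: at a transversal hit of `D` outside `B` the integral of a form along short paths from `F` to `G` extends holomorphically over the hit, for all arcs near the line -/
def Crs (X : Set (EN N)) (Λ : AddSubgroup (Vd (k + 1))) (u : EN N → Vd (k + 1)) (D B : Set (Vd (k + 1))) : Prop :=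
  ∀ q e : Vd (k + 1), q ∈ D → q ∉ B → TransAt D q e → ∃ s₁ : ℝ, 0 < s₁ ∧ ∀ η : ℝ, 0 < η → ∃ s₀ ρ₀ : ℝ, 0 < s₀ ∧ s₀ < η ∧ 2 * s₀ < s₁ ∧ 0 < ρ₀ ∧
    (∀ γ : ℂ → Vd (k + 1), DifferentiableOn ℂ γ (ball 0 s₁) → (∀ z ∈ ball (0 : ℂ) s₁, ‖γ z - (q + z • e)‖ ≤ ρ₀) →
      ∀ z ∈ ball (0 : ℂ) (2 * s₀), γ z ∈ D → ‖z‖ < s₀ / 4) ∧
    ∀ δ ε ε₀ : ℝ, Cst X Λ u D δ ε ε₀ → ∃ ε₁ : ℝ, 0 < ε₁ ∧ ε₁ ≤ ε₀ ∧ ∀ γ : ℂ → Vd (k + 1), DifferentiableOn ℂ γ (ball 0 s₁) →
      (∀ z ∈ ball (0 : ℂ) s₁, ‖γ z - (q + z • e)‖ ≤ ρ₀) → (∀ z : ℂ, s₀ / 4 ≤ ‖z‖ → ‖z‖ ≤ s₀ → γ z ∈ Gd D δ) →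
      ∀ (α : VForm X Λ u) (F G : ℂ → EN N), Cv X Λ u (ball 0 (2 * s₀)) F γ → Cv X Λ u (ball 0 (2 * s₀)) G γ →
        (∀ z : ℂ, s₀ / 4 ≤ ‖z‖ → ‖z‖ ≤ s₀ → dist (pr (F z)) (pr (G z)) ≤ ε₁) →
        ∃ K : ℂ → ℂ, DifferentiableOn ℂ K (ball 0 s₀) ∧ ∀ z : ℂ, s₀ / 4 < ‖z‖ → ‖z‖ < s₀ → K z = II α ε (γ z) (pr (F z)) (pr (G z))

/-- the data of Theorem LCT -/
structure Sit (X : Set (EN N)) (Λ : AddSubgroup (Vd (1 + 1))) (u : EN N → Vd (1 + 1)) (D B : Set (Vd (1 + 1))) (p : EN N → EN N → ℝ) (m : ℕ) (C : ℝ) (Q : EN N → ℂ) (d : ℕ)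
    (S : Set (Vd (1 + 1) → MN N)) {J : ℕ} (α : Fin J → VForm X Λ u) (c₀ : ℝ) : Prop where
  geo : Geo X Λ u D B
  simp : Simp Λ
  ldi : LDi D
  ps : PS X Λ u D p m C
  qd : QD X Λ u D Q d
  q_ne : ∀ x ∈ X, ∃ᶠ x' in 𝓝 x, x' ∈ X ∧ Q x' ≠ 0
  csf : Csf X Λ u D S
  q_sec : ∀ Φ ∈ S, ∀ y ∉ D, ∀ x ∈ X, pr x = Φ y → Q x = 0
  jbd : JBd X Λ u D α c₀
  hpl : HPl D B
  crs : Crs X Λ u D B

/-- the curves of Theorem LCT with their limit, the section `Φ` over the line `b + ℂ a` -/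
structure Arr (X : Set (EN N)) (Λ : AddSubgroup (Vd (k + 1))) (u : EN N → Vd (k + 1)) (D : Set (Vd (k + 1))) (Q : EN N → ℂ) (d : ℕ) (p : EN N → EN N → ℝ) (m : ℕ)
    (𝒰 : Ultrafilter ℕ) (F : ℕ → ℂ → EN N) (h : ℕ → ℂ → Vd (k + 1)) (E : ℕ → ℂ → ℂ) (a b : Vd (k + 1)) (Φ : Vd (k + 1) → MN N) : Prop where
  lim : Lim X Λ u D 𝒰 F h a b Φ
  ok : ∀ᶠ n in (𝒰 : Filter ℕ), Ok Q p (F n) 0
  dh : ∀ r ε : ℝ, 0 < ε → ∀ᶠ n in (𝒰 : Filter ℕ), ∀ z ∈ ball (0 : ℂ) r, ‖deriv (h n) z - a‖ ≤ ε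
  ex : ∀ r : ℝ, ∀ᶠ n in (𝒰 : Filter ℕ), DifferentiableOn ℂ (E n) (ball 0 r) ∧ (∀ z ∈ ball (0 : ℂ) r, E n z ≠ 0) ∧ E n 0 = 1
  star : ∀ r ε : ℝ, 0 < ε → ∀ᶠ n in (𝒰 : Filter ℕ), ∀ z ∈ ball (0 : ℂ) r, Ok Q p (F n) z →
    Lam Q d p m (F n) (h n) 0 + Real.log ‖E n z‖ - ε ≤ Lam Q d p m (F n) (h n) z

/-- the integral of the form from the section to the curve -/
noncomputable def gg {X : Set (EN N)} {Λ : AddSubgroup (Vd (k + 1))} {u : EN N → Vd (k + 1)} (α : VForm X Λ u) (Φ : Vd (k + 1) → MN N) (F : ℂ → EN N) (h : ℂ → Vd (k + 1))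
    (z : ℂ) : ℂ := JJ α (h z) (Φ (h z)) (pr (F z))

end Pool.Agent.G3

end
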