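import Pool.Agent.H94.G4T.G4.Simp
import Pool.Agent.H94.G4T.M15
import Pool.Agent.H94.G4T.M21
import Pool.Agent.H94.G4T.M24

/-! The parts of this file: G4.A.CmZ, G4.Z.CDefs, TG.Nr. -/

section

/-!
# G4 A CmZ: the combinations tend to zero

`kap W K y₀ a κ x = max_j ‖K j x‖ exp (wt W (y₀ + x a) - κ ‖x‖²)` for the limits `K j` of the integrals (`cmb_K`).  The exponent is a quadratic polynomial with the positive leading form
`(wt W a - κ) ‖h‖²`, so `kap` satisfies a strict maximum principle on small circles without exact bad hits (`kmax`).  With `fch_lim` and `MdX` the hypotheses of `ustar` hold, so `kap = 0`, and `cX` tends to `0` (`cmb_zero`).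
-/

set_option autoImplicit false

open Topology Filter Metric

namespace Pool.Agent.G4.A

open Pool.Agent.H36.BP (EN fs wd)
open Pool.Agent.H14.PP (IsCone CurveAt Tan)
open Pool.Agent.H62.EF (MN pr)
open Pool.Agent.AD (Vd Chart Charts IsGerm)
open Pool.Agent.TG
open Pool.Agent.G3
open Pool.Agent.G3.A
open Pool.Agent.G3.C (Gc nv nd nv_pr)

variable {N k : ℕ} {X : Set (EN N)} {Λ : AddSubgroup (Vd (k + 1))} {u : EN N → Vd (k + 1)} {D B Bad : Set (Vd (k + 1))} {a : Vd (k + 1)}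
  {Γ : AddSubgroup (Vd (k + 1))} {J rW : ℕ} {W : Fin rW → Vd (k + 1) →L[ℂ] ℂ} {α : Fin J → VForm X Λ u} {c₀ C₀ ρ δ : ℝ}

/-- the weighted norm of the limits of the integrals -/
noncomputable def kap (W : Fin rW → Vd (k + 1) →L[ℂ] ℂ) (K : Fin J → ℂ → ℂ) (y₀ a : Vd (k + 1)) (κ : ℝ) (x : ℂ) : ℝ :=
  ‖(fun j => K j x : Fin J → ℂ)‖ * Real.exp (wt W (y₀ + x • a) - κ * ‖x‖ ^ 2)

theorem kap_nonneg (K : Fin J → ℂ → ℂ) (y₀ a : Vd (k + 1)) (κ : ℝ) (x : ℂ) : 0 ≤ kap W K y₀ a κ x := mul_nonneg (norm_nonneg _) (Real.exp_pos _).le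

theorem nsq_add (A h : ℂ) : ‖A + h‖ ^ 2 = ‖A‖ ^ 2 + (2 * (starRingEnd ℂ) A * h).re + ‖h‖ ^ 2 := by
  rw [Complex.sq_norm, Complex.sq_norm, Complex.sq_norm, Complex.normSq_apply, Complex.normSq_apply, Complex.normSq_apply]
  simp only [Complex.add_re, Complex.add_im, Complex.mul_re, Complex.mul_im, Complex.conj_re, Complex.conj_im, Complex.re_ofNat, Complex.im_ofNat]
  ring

/-- the exponent of `kap` as a quadratic polynomial -/
private theorem qexp (W : Fin rW → Vd (k + 1) →L[ℂ] ℂ) (y₀ a : Vd (k + 1)) (κ : ℝ) (z : ℂ) :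
    ∃ L : ℂ, ∀ h : ℂ, wt W (y₀ + (z + h) • a) - κ * ‖z + h‖ ^ 2 = (wt W (y₀ + z • a) - κ * ‖z‖ ^ 2) + (L * h).re + (wt W a - κ) * ‖h‖ ^ 2 := by
  refine ⟨(∑ i, 2 * (starRingEnd ℂ) (W i (y₀ + z • a)) * W i a) - (κ : ℂ) * (2 * (starRingEnd ℂ) z), fun h => ?_⟩
  have h1 : wt W (y₀ + (z + h) • a) = wt W (y₀ + z • a) + ((∑ i, 2 * (starRingEnd ℂ) (W i (y₀ + z • a)) * W i a) * h).re + wt W a * ‖h‖ ^ 2 := by
    simp only [wt]
    rw [Finset.sum_mul, Complex.re_sum, Finset.sum_mul, ← Finset.sum_add_distrib, ← Finset.sum_add_distrib]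
    refine Finset.sum_congr rfl fun i _ => ?_
    have e : W i (y₀ + (z + h) • a) = W i (y₀ + z • a) + h * W i a := by
      rw [add_smul, ← add_assoc, map_add, map_smul, smul_eq_mul]
    rw [e, nsq_add, norm_mul, mul_pow]
    have e2 : 2 * (starRingEnd ℂ) (W i (y₀ + z • a)) * (h * W i a) = 2 * (starRingEnd ℂ) (W i (y₀ + z • a)) * W i a * h := by ring
    rw [e2]
    ring
  rw [h1, nsq_add, sub_mul, Complex.sub_re]
  have e3 : ((κ : ℂ) * (2 * (starRingEnd ℂ) z) * h).re = κ * (2 * (starRingEnd ℂ) z * h).re := by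
    rw [mul_assoc, Complex.re_ofReal_mul]
  rw [e3]
  ring

/-- the maximum principle for `kap` -/
theorem kmax {K : Fin J → ℂ → ℂ} {y₀ a : Vd (k + 1)} {κ : ℝ} {z : ℂ} {r r' : ℝ} (hr : 0 < r) (hr' : r < r') (hK : ∀ j, ∀ x ∈ closedBall z r, DifferentiableAt ℂ (K j) x)
    {g : ℂ → ℂ} (hg : DifferentiableOn ℂ g (ball z r')) {S : ℝ} (hS : ∀ w : ℂ, dist w z = r → kap W K y₀ a κ w * ‖g w‖ ≤ S) :
    kap W K y₀ a κ z * ‖g z‖ ≤ Real.exp (-((wt W a - κ) * r ^ 2)) * S := by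
  obtain ⟨L, hL⟩ := qexp W y₀ a κ z
  set Q : ℂ → ℝ := fun x => wt W (y₀ + x • a) - κ * ‖x‖ ^ 2 with hQ
  have hQL : ∀ x : ℂ, dist x z = r → Q x = Q z + (L * (x - z)).re + (wt W a - κ) * r ^ 2 := by
    intro x hx
    have h1 := hL (x - z)
    rw [add_sub_cancel] at h1
    rw [← dist_eq_norm, hx] at h1
    exact h1
  have hS0 : 0 ≤ S := by
    have h1 := hS (z + r) (by rw [dist_eq_norm, add_sub_cancel_left, Complex.norm_real, Real.norm_eq_abs, abs_of_pos hr])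
    exact (mul_nonneg (kap_nonneg K y₀ a κ _) (norm_nonneg _)).trans h1
  have hj : ∀ j, ‖K j z‖ * ‖g z‖ ≤ Real.exp (-Q z - (wt W a - κ) * r ^ 2) * S := by
    intro j
    set F : ℂ → ℂ := fun x => K j x * g x * Complex.exp (L * (x - z)) with hF
    have hFd : DiffContOnCl ℂ F (ball z r) := by
      have h1 : ∀ x ∈ closedBall z r, DifferentiableAt ℂ F x := by
        intro x hx
        have h2 : DifferentiableAt ℂ g x := hg.differentiableAt (isOpen_ball.mem_nhds (closedBall_subset_ball hr' hx))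
        have h3 : DifferentiableAt ℂ (fun x : ℂ => Complex.exp (L * (x - z))) x := by fun_prop
        exact ((hK j x hx).mul h2).mul h3
      refine ⟨fun x hx => (h1 x (ball_subset_closedBall hx)).differentiableWithinAt, ?_⟩
      rw [closure_ball z hr.ne']
      exact fun x hx => (h1 x hx).continuousAt.continuousWithinAt
    have h4 : ‖F z‖ ≤ Real.exp (-Q z - (wt W a - κ) * r ^ 2) * S := by
      refine Complex.norm_le_of_forall_mem_frontier_norm_le isBounded_ball hFd (fun x hx => ?_) (subset_closure (mem_ball_self hr))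
      rw [frontier_ball z hr.ne'] at hx
      have hxr : dist x z = r := mem_sphere.1 hx
      have h5 := hS x hxr
      have h6 : ‖F x‖ = ‖K j x‖ * ‖g x‖ * Real.exp (L * (x - z)).re := by
        rw [hF]
        simp only
        rw [norm_mul, norm_mul, Complex.norm_exp]
      have h7 : (L * (x - z)).re = Q x + (-Q z - (wt W a - κ) * r ^ 2) := by
        rw [hQL x hxr]
        ring
      rw [h6, h7, Real.exp_add]
      have h8 : ‖K j x‖ ≤ ‖(fun j => K j x : Fin J → ℂ)‖ := norm_le_pi_norm (fun j => K j x : Fin J → ℂ) j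
      calc ‖K j x‖ * ‖g x‖ * (Real.exp (Q x) * Real.exp (-Q z - (wt W a - κ) * r ^ 2))
          ≤ ‖(fun j => K j x : Fin J → ℂ)‖ * ‖g x‖ * (Real.exp (Q x) * Real.exp (-Q z - (wt W a - κ) * r ^ 2)) := by gcongr
        _ = Real.exp (-Q z - (wt W a - κ) * r ^ 2) * (kap W K y₀ a κ x * ‖g x‖) := by
            rw [kap, hQ]
            ring
        _ ≤ Real.exp (-Q z - (wt W a - κ) * r ^ 2) * S := mul_le_mul_of_nonneg_left h5 (Real.exp_pos _).le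
    have h5 : ‖F z‖ = ‖K j z‖ * ‖g z‖ := by
      rw [hF]
      simp only
      rw [sub_self, mul_zero, Complex.exp_zero, mul_one, norm_mul]
    rwa [h5] at h4
  have hall : ‖(fun j => K j z : Fin J → ℂ)‖ * ‖g z‖ ≤ Real.exp (-Q z - (wt W a - κ) * r ^ 2) * S := by
    rcases eq_or_ne (g z) 0 with h0 | h0
    · rw [h0, norm_zero, mul_zero]
      positivity
    · have hg0 : 0 < ‖g z‖ := norm_pos_iff.2 h0
      rw [← le_div_iff₀ hg0, pi_norm_le_iff_of_nonneg (by positivity)]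
      intro j
      rw [le_div_iff₀ hg0]
      exact hj j
  have e : Real.exp (-Q z - (wt W a - κ) * r ^ 2) = Real.exp (-((wt W a - κ) * r ^ 2)) * (Real.exp (Q z))⁻¹ := by
    rw [← Real.exp_neg, ← Real.exp_add]
    congr 1
    ring
  calc kap W K y₀ a κ z * ‖g z‖ = (‖(fun j => K j z : Fin J → ℂ)‖ * ‖g z‖) * Real.exp (Q z) := by
        rw [kap, hQ]
        ring
    _ ≤ (Real.exp (-Q z - (wt W a - κ) * r ^ 2) * S) * Real.exp (Q z) := mul_le_mul_of_nonneg_right hall (Real.exp_pos _).le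
    _ = Real.exp (-((wt W a - κ) * r ^ 2)) * S := by
        rw [e]
        have := (Real.exp_pos (Q z)).ne'
        field_simp

private theorem fin_of_card {T : Set ℂ} {b : ℝ} (h : ∀ S : Finset ℂ, (∀ z ∈ S, z ∈ T) → (S.card : ℝ) ≤ b) : T.Finite ∧ (T.ncard : ℝ) ≤ b := by
  have hf : T.Finite := by
    by_contra hinf
    obtain ⟨S, hST, hSc⟩ := Set.Infinite.exists_subset_card_eq hinf (⌊b⌋₊ + 1)
    have h1 := h S (fun z hz => hST hz)
    rw [hSc] at h1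
    push_cast at h1
    have := Nat.lt_floor_add_one b
    linarith only [h1, this]
  refine ⟨hf, ?_⟩
  have h1 := h hf.toFinset (fun z hz => hf.mem_toFinset.1 hz)
  rwa [← Set.ncard_eq_toFinset_card T hf] at h1

theorem few_ncard (hL : LC D Bad a ρ δ) (y₀ : Vd (k + 1)) {ε : ℝ} (hε : 0 < ε) : ∃ C : ℝ, ∀ (z : ℂ) (R : ℝ), 0 ≤ R → ({x : ℂ | y₀ + x • a ∈ Bad} ∩ closedBall z R).Finite ∧
    ((({x : ℂ | y₀ + x • a ∈ Bad} ∩ closedBall z R).ncard : ℕ) : ℝ) ≤ ε * R ^ 2 + C := by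
  obtain ⟨C, hC⟩ := hL.few ε hε
  refine ⟨C, fun z R hR => fin_of_card fun S hS => ?_⟩
  have h1 := hC (y₀ + z • a) R hR (S.image fun x => x - z) (fun x hx => by
    obtain ⟨x', hx', rfl⟩ := Finset.mem_image.1 hx
    obtain ⟨h2, h3⟩ := hS x' hx'
    rw [mem_closedBall, dist_eq_norm] at h3
    have e : y₀ + z • a + (x' - z) • a = y₀ + x' • a := by rw [sub_smul]; abel
    exact ⟨h3, by rw [e]; exact h2⟩)
  rwa [Finset.card_image_of_injective S (fun x x' h => by simpa using h)] at h1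

end Pool.Agent.G4.A

end

section

/-!
# G4 Z CDefs: the data of block Z, any dimension

`Few Bad a`: the exact hits of `Bad` on the lines of direction `a` are few (density `0`, uniformly).
`Csf`: the finite set of the global sections, holomorphic off `D`, meromorphic everywhere (`mer`: a lift which is not identically `0`; no condition on lines).
`JBw`: bounds for the integrals `JJ (α j)` along short paths in the fibres, with the same weight on both sides.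
`Sit`: all data.  The other definitions (`Lim`, `Arr`, `gg`, `Crs`, `LCT`, `JBd`) are those of `G3/Z`.
-/

set_option autoImplicit false

open Topology Filter Metric

namespace Pool.Agent.G4

open Pool.Agent.H36.BP (EN fs wd Sub)
open Pool.Agent.H14.PP (IsCone CurveAt Tan)
open Pool.Agent.H62.EF (MN pr)
open Pool.Agent.AD (Vd Chart Charts)
open Pool.Agent.TG (TMap Lat Geo Gd VForm JJ II Cst Fb TransAt)
open Pool.Agent.G3 (Cv wt PS QD Crs)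
open Pool.Agent.G3.A (Ba)

variable {N k : ℕ}

/-- the exact hits of the lines of direction `a` with `Bad` are few -/
def Few (Bad : Set (Vd (k + 1))) (a : Vd (k + 1)) : Prop :=
  ∀ ε : ℝ, 0 < ε → ∃ C : ℝ, ∀ (y : Vd (k + 1)) (R : ℝ), 0 ≤ R → ∀ S : Finset ℂ, (∀ z ∈ S, ‖z‖ ≤ R ∧ y + z • a ∈ Bad) → (S.card : ℝ) ≤ ε * R ^ 2 + C

/-- the finite set of the global sections -/
structure Csf (X : Set (EN N)) (Λ : AddSubgroup (Vd (k + 1))) (u : EN N → Vd (k + 1)) (D : Set (Vd (k + 1))) (S : Set (Vd (k + 1) → MN N)) : Prop where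
  fin : S.Finite
  hol : ∀ Φ ∈ S, ∀ y ∉ D, ∃ φ : Vd (k + 1) → EN N, AnalyticAt ℂ φ y ∧ ∀ᶠ z in 𝓝 y, φ z ∈ X ∧ Φ z = pr (φ z) ∧ u (φ z) - z ∈ Λ
  mer : ∀ Φ ∈ S, ∀ y, ∃ φ : Vd (k + 1) → EN N, AnalyticAt ℂ φ y ∧ (∃ᶠ z in 𝓝 y, φ z ≠ 0) ∧ ∀ᶠ z in 𝓝 y, z ∉ D → φ z ≠ 0 → Φ z = pr (φ z)
  tr : ∀ Φ ∈ S, ∀ l ∈ Λ, ∃ Φ' ∈ S, ∀ y ∉ D, Φ' y = Φ (y + l)
  cls : ∀ a : Vd (k + 1), a ≠ 0 → ∀ (b : Vd (k + 1)) (G : ℂ → EN N), Cv X Λ u Set.univ G (fun z => z • a + b) →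
    ∃ Φ ∈ S, ∀ z : ℂ, z • a + b ∉ D → pr (G z) = Φ (z • a + b)

/-- bounds for the integrals along short paths, with the weight `wt W` -/
structure JBw (X : Set (EN N)) (Λ : AddSubgroup (Vd (k + 1))) (u : EN N → Vd (k + 1)) (D : Set (Vd (k + 1))) {J r : ℕ} (α : Fin J → VForm X Λ u)
    (W : Fin r → Vd (k + 1) →L[ℂ] ℂ) : Prop where
  pos : ∀ y, (∀ i, W i y = 0) → y = 0
  ub : ∀ δ : ℝ, 0 < δ → ∃ ε₀ C : ℝ, 0 < ε₀ ∧ 0 < C ∧ ∀ j, ∀ y ∈ Gd D δ, ∀ n ∈ Fb X Λ u y, ∀ n' ∈ Fb X Λ u y, dist n n' ≤ ε₀ →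
    ‖JJ (α j) y n n'‖ ≤ C * Real.exp (-wt W y) * dist n n'
  lb : ∀ δ : ℝ, 0 < δ → ∃ ε₀ c : ℝ, 0 < ε₀ ∧ 0 < c ∧ ∀ y ∈ Gd D δ, ∀ n ∈ Fb X Λ u y, ∀ n' ∈ Fb X Λ u y, dist n n' ≤ ε₀ →
    ∃ j, c * Real.exp (-wt W y) * dist n n' ≤ ‖JJ (α j) y n n'‖

/-- the data of Theorem LCT -/
structure Sit (X : Set (EN N)) (Λ : AddSubgroup (Vd (k + 1))) (u : EN N → Vd (k + 1)) (D B : Set (Vd (k + 1))) (p : EN N → EN N → ℝ) (m : ℕ) (C : ℝ) (Q : EN N → ℂ) (d : ℕ)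
    (S : Set (Vd (k + 1) → MN N)) {J r : ℕ} (α : Fin J → VForm X Λ u) (W : Fin r → Vd (k + 1) →L[ℂ] ℂ) : Prop where
  geo : Geo X Λ u D B
  simp : Simp Λ
  ldi : LDi D
  ps : PS X Λ u D p m C
  qd : QD X Λ u D Q d
  q_ne : ∀ x ∈ X, ∃ᶠ x' in 𝓝 x, x' ∈ X ∧ Q x' ≠ 0
  csf : Csf X Λ u D S
  q_sec : ∀ Φ ∈ S, ∀ y ∉ D, ∀ x ∈ X, pr x = Φ y → Q x = 0
  jbw : JBw X Λ u D α W
  few : ∀ a : Vd (k + 1), a ≠ 0 → Few (Ba D B a) a
  crs : Crs X Λ u D B

end Pool.Agent.G4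

end

section

/-!
# TG Nr: near different points with the same integral are near the zeros of the form

Compare `Pool/Agent/H62/EL/Nr.lean`.

`near_zr`: let `χ, c, ρ` be a chart with `Cap .. y₀ m₀ (3ε)` (`Cst.cap`) and `A` a primitive (`exists_prim`), `x₀ ∈ X` a lift of `m₀`, `p₀ = χ.q x₀`.  For large `n`: `y n ∈ closedBall y₀ (3ε)`, `dist (m n) m₀ + ε ≤ 3ε`,
`dist (m n) (m' n) ≤ ε₀`, so there is `v` with `IRel` (`Cst.rel`), and by `II_eq` `A (χ.q x'_n) = A (χ.q x_n)` for lifts `x_n, x'_n` of `m n`, `m' n`, with `p_n = χ.q x_n`, `p'_n = χ.q x'_n → p₀` (`fb_lim`), `p_n ≠ p'_n` (otherwise `x_n, x'_n` are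
proportional, `Chart.surj`), and `ms c ρ p_n = y n = ms c ρ p'_n`, so `p'_n - p_n = (p'_n - p_n) 0 • Pi.single 0 1`.  If `∂_0 A p₀ ≠ 0`, then by strict differentiability of `A` at `p₀`
`‖A p'_n - A p_n - DA(p₀) (p'_n - p_n)‖ ≤ (‖∂_0 A p₀‖ / 2) ‖p'_n - p_n‖` for large `n`, and `DA(p₀) (p'_n - p_n) = ∂_0 A p₀ * (p'_n - p_n) 0` has norm `‖∂_0 A p₀‖ ‖p'_n - p_n‖`: contradiction.  So `tc α χ _ p₀ = ∂_0 A p₀ = 0` and `Zr` by
`zr_iff`.
`zr_lim`: with a chart `Cap` at `(y₀, m₀)` (`exists_cap_at`) and lifts as above: `tc α χ _ (p_n) = 0` (`zr_iff`), so `tc α χ _ p₀ = 0` by continuity (`tc_an`).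
`zr_per`: `Per`, `u x - y ∈ Λ ↔ u x - (y + l) ∈ Λ`.
-/

set_option autoImplicit false

open Topology Filter Metric

namespace Pool.Agent.TG

open Pool.Agent.H36.BP (EN fs wd)
open Pool.Agent.H14.PP (IsCone CurveAt Tan)
open Pool.Agent.H62.EF (MN pr)
open Pool.Agent.AD (Vd Chart Charts IsGerm)

variable {N k : ℕ}

variable {X : Set (EN N)} {Λ : AddSubgroup (Vd (k + 1))} {u : EN N → Vd (k + 1)} {D B : Set (Vd (k + 1))}

theorem pr_sigma_q (χ : Chart (k + 2) X) {x : EN N} (hx : x ∈ X) (hU : x ∈ χ.U) : pr (χ.σ (χ.q x)) = pr x := by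
  obtain ⟨-, a, ha, h⟩ := χ.surj x hx hU
  conv_rhs => rw [h]
  rw [Pool.Agent.H62.EF.pr_smul _ ha]

theorem near_zr (G : Geo X Λ u D B) {α : VForm X Λ u} {δ ε ε₀ : ℝ} (hc : Cst X Λ u D δ ε ε₀) {ι : Type*} {l : Filter ι} [l.NeBot]
    {y : ι → Vd (k + 1)} {m m' : ι → MN N} {y₀ : Vd (k + 1)} {m₀ : MN N} (hy₀ : y₀ ∈ Gd D δ) (hy : Tendsto y l (𝓝 y₀))
    (hm : Tendsto m l (𝓝 m₀)) (hm' : Tendsto m' l (𝓝 m₀))
    (h : ∀ᶠ n in l, y n ∈ Gd D δ ∧ m n ∈ Fb X Λ u (y n) ∧ m' n ∈ Fb X Λ u (y n) ∧ m n ≠ m' n ∧ II α ε (y n) (m n) (m' n) = 0) :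
    Zr α y₀ m₀ := by
  have hX := G.cone
  obtain ⟨⟨x₀, hx₀, hx₀m, hx₀u⟩, -⟩ := fb_lim hX G.lat G.tor hm hy (h.mono fun n hn => hn.2.1)
  have hε := hc.ε_pos
  have hε₀ := hc.ε₀_pos
  have hr0 : 0 < 3 * ε := by linarith
  obtain ⟨χ, c, ρ, hcap⟩ := hc.cap y₀ hy₀ m₀ ⟨x₀, hx₀, hx₀m, hx₀u⟩
  obtain ⟨A, hA⟩ := exists_prim α χ hcap.str
  obtain ⟨hU, hq, hms⟩ := hcap.cap y₀ (mem_closedBall_self hr0.le) x₀ hx₀ hx₀u (by rw [hx₀m, dist_self]; exact hr0.le)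
  set p := χ.q x₀ with hp
  have hp2 : p ∈ ball (0 : Vd (k + 2)) 2 := closedBall_subset_ball (by norm_num) hq
  have hprp : pr (χ.σ p) = m₀ := by rw [hp, pr_sigma_q χ hx₀ hU, hx₀m]
  have hlift := hcap.str.lift p hp2
  have hfin : fderiv ℂ A p (Pi.single 0 1) = 0 → Zr α y₀ m₀ := by
    intro h0
    have h1 := (zr_iff hX G.tor α χ hp2 hlift).2 (by rw [← hA.der p hp2]; exact h0)
    rwa [hms, hprp] at h1
  by_contra hcon
  have hD : fderiv ℂ A p (Pi.single 0 1) ≠ 0 := fun h0 => hcon (hfin h0)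
  have hDpos : 0 < ‖fderiv ℂ A p (Pi.single 0 1)‖ := norm_pos_iff.2 hD
  have hstr := (hA.an p hp2).hasStrictFDerivAt
  have hlo := hstr.isLittleO.def (half_pos hDpos)
  have hch : ∀ n, ∃ z z' : EN N, (m n ∈ Fb X Λ u (y n) ∧ m' n ∈ Fb X Λ u (y n)) →
      (z ∈ X ∧ pr z = m n ∧ u z - y n ∈ Λ) ∧ (z' ∈ X ∧ pr z' = m' n ∧ u z' - y n ∈ Λ) := by
    intro n
    by_cases h : m n ∈ Fb X Λ u (y n) ∧ m' n ∈ Fb X Λ u (y n)
    · obtain ⟨⟨z, h1⟩, ⟨z', h2⟩⟩ := h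
      exact ⟨z, z', fun _ => ⟨h1, h2⟩⟩
    · exact ⟨0, 0, fun h' => absurd h' h⟩
  choose z z' hz using hch
  have hboth : ∀ᶠ n in l, m n ∈ Fb X Λ u (y n) ∧ m' n ∈ Fb X Λ u (y n) := h.mono fun n hn => ⟨hn.2.1, hn.2.2.1⟩
  have t1 : Tendsto (fun n => χ.q (z n)) l (𝓝 p) := by
    refine tendsto_q χ hU (ne_zero hX hx₀) (hboth.mono fun n h => ne_zero hX (hz n h).1.1) ?_
    rw [hx₀m]
    exact hm.congr' (hboth.mono fun n h => (hz n h).1.2.1.symm)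
  have t2 : Tendsto (fun n => χ.q (z' n)) l (𝓝 p) := by
    refine tendsto_q χ hU (ne_zero hX hx₀) (hboth.mono fun n h => ne_zero hX (hz n h).2.1) ?_
    rw [hx₀m]
    exact hm'.congr' (hboth.mono fun n h => (hz n h).2.2.1.symm)
  have t3 : Tendsto (fun n => (χ.q (z' n), χ.q (z n))) l (𝓝 (p, p)) := t2.prodMk_nhds t1
  have e1 := t3.eventually hlo
  have e2 : ∀ᶠ n in l, dist (m n) m₀ < min ε (ε₀ / 2) := hm.eventually (ball_mem_nhds _ (lt_min hε (by linarith)))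
  have e3 : ∀ᶠ n in l, dist (m' n) m₀ < min ε (ε₀ / 2) := hm'.eventually (ball_mem_nhds _ (lt_min hε (by linarith)))
  have e4 : ∀ᶠ n in l, y n ∈ closedBall y₀ (3 * ε) := hy.eventually (closedBall_mem_nhds _ hr0)
  obtain ⟨n, ⟨⟨⟨hn, hbd⟩, h2⟩, h3⟩, h4⟩ := ((((h.and e1).and e2).and e3).and e4).exists
  obtain ⟨hnG, hnm, hnm', hne, hII⟩ := hn
  obtain ⟨⟨hz1, hz2, hz3⟩, hz4, hz5, hz6⟩ := hz n ⟨hnm, hnm'⟩
  have hd1 : dist (m n) m₀ < ε := h2.trans_le (min_le_left _ _)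
  have hd2 : dist (m' n) m₀ < ε := h3.trans_le (min_le_left _ _)
  have hd3 : dist (m n) (m' n) ≤ ε₀ := by
    have h5 := h2.trans_le (min_le_right _ _)
    have h6 := h3.trans_le (min_le_right _ _)
    have h7 := dist_triangle_right (m n) (m' n) m₀
    linarith
  have hv := hc.rel (y n) hnG _ hnm _ hnm' hd3 α
  have hIe := II_eq hX G.tor G.lat hv hcap hA h4 (by linarith : dist (m n) m₀ + ε ≤ 3 * ε) hz1 hz4 hz2 hz5
  rw [hII] at hIe
  have hρ : (ρ : ℂ) ^ (k + 1) ≠ 0 := by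
    have h1 := hcap.str.pos
    exact pow_ne_zero _ (by exact_mod_cast h1.ne')
  have hAeq : A (χ.q (z' n)) - A (χ.q (z n)) = 0 := by
    rcases div_eq_zero_iff.1 hIe.symm with h1 | h1
    · exact h1
    · exact absurd h1 hρ
  obtain ⟨hU1, -, hms1⟩ := hcap.cap (y n) h4 (z n) hz1 hz3 (by rw [hz2]; linarith)
  obtain ⟨hU2, -, hms2⟩ := hcap.cap (y n) h4 (z' n) hz4 hz6 (by rw [hz5]; linarith)
  have htl : tl (χ.q (z' n) - χ.q (z n)) = 0 := by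
    have h5 : (ρ : ℂ) • tl (χ.q (z' n)) = (ρ : ℂ) • tl (χ.q (z n)) := by
      have h6 := hms2.trans hms1.symm
      unfold ms at h6
      exact add_left_cancel h6
    have hρ1 : (ρ : ℂ) ≠ 0 := by
      have h1 := hcap.str.pos
      exact_mod_cast h1.ne'
    rw [tl_sub, smul_right_injective _ hρ1 h5, sub_self]
  have hL : fderiv ℂ A p (χ.q (z' n) - χ.q (z n)) = (χ.q (z' n) - χ.q (z n)) 0 • fderiv ℂ A p (Pi.single 0 1) := lin_vert _ htl
  have hve := vert_eq htl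
  have hnorm : ‖χ.q (z' n) - χ.q (z n)‖ = ‖(χ.q (z' n) - χ.q (z n)) 0‖ := by
    conv_lhs => rw [hve]
    rw [norm_smul]
    have h5 : ‖(Pi.single 0 1 : Vd (k + 2))‖ = 1 := by
      rw [Pi.norm_single]
      exact norm_one
    rw [h5, mul_one]
  have ht : (χ.q (z' n) - χ.q (z n)) 0 ≠ 0 := by
    intro h0
    rw [h0, zero_smul, sub_eq_zero] at hve
    apply hne
    rw [← hz2, ← hz5, ← pr_sigma_q χ hz1 hU1, ← pr_sigma_q χ hz4 hU2, hve]
  simp only at hbd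
  rw [hAeq, hL, zero_sub, norm_neg, norm_smul, hnorm] at hbd
  have htp : 0 < ‖(χ.q (z' n) - χ.q (z n)) 0‖ := norm_pos_iff.2 ht
  nlinarith [mul_pos htp hDpos]

theorem zr_lim (G : Geo X Λ u D B) {α : VForm X Λ u} {ι : Type*} {l : Filter ι} [l.NeBot] {y : ι → Vd (k + 1)} {m : ι → MN N}
    {y₀ : Vd (k + 1)} {m₀ : MN N} (hy₀ : y₀ ∉ D) (hy : Tendsto y l (𝓝 y₀)) (hm : Tendsto m l (𝓝 m₀))
    (h : ∀ᶠ n in l, Zr α (y n) (m n)) : Zr α y₀ m₀ := by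
  have hX := G.cone
  have hfb : ∀ᶠ n in l, m n ∈ Fb X Λ u (y n) := h.mono fun n hn => by
    obtain ⟨x, hx, hxm, hxu, -⟩ := hn
    exact ⟨x, hx, hxm, hxu⟩
  obtain ⟨⟨x₀, hx₀, hx₀m, hx₀u⟩, -⟩ := fb_lim hX G.lat G.tor hm hy hfb
  obtain ⟨χ, ρ, r, hr, hcap⟩ := exists_cap_at G hy₀ (m₀ := m₀) ⟨x₀, hx₀, hx₀m, hx₀u⟩
  obtain ⟨hU, hq, hms⟩ := hcap.cap y₀ (mem_closedBall_self hr.le) x₀ hx₀ hx₀u (by rw [hx₀m, dist_self]; exact hr.le)
  set p := χ.q x₀ with hp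
  have hp2 : p ∈ ball (0 : Vd (k + 2)) 2 := closedBall_subset_ball (by norm_num) hq
  have hprp : pr (χ.σ p) = m₀ := by rw [hp, pr_sigma_q χ hx₀ hU, hx₀m]
  have hlift := hcap.str.lift p hp2
  by_contra hcon
  have hD : tc α χ (ms y₀ ρ) p ≠ 0 := by
    intro h0
    have h1 := (zr_iff hX G.tor α χ hp2 hlift).2 h0
    rw [hms, hprp] at h1
    exact hcon h1
  have han : AnalyticAt ℂ (tc α χ (ms y₀ ρ)) p := by
    refine tc_an α χ hp2 (ms_an y₀ ρ p) ?_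
    filter_upwards [isOpen_ball.mem_nhds hp2] with q hq
    exact hcap.str.lift q hq
  have hV : ∀ᶠ q in 𝓝 p, tc α χ (ms y₀ ρ) q ≠ 0 := han.continuousAt.eventually_ne hD
  have hch : ∀ n, ∃ z : EN N, m n ∈ Fb X Λ u (y n) → z ∈ X ∧ pr z = m n ∧ u z - y n ∈ Λ := by
    intro n
    by_cases h : m n ∈ Fb X Λ u (y n)
    · obtain ⟨z, h1⟩ := h
      exact ⟨z, fun _ => h1⟩
    · exact ⟨0, fun h' => absurd h' h⟩
  choose z hz using hch
  have t1 : Tendsto (fun n => χ.q (z n)) l (𝓝 p) := by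
    refine tendsto_q χ hU (ne_zero hX hx₀) (hfb.mono fun n h => ne_zero hX (hz n h).1) ?_
    rw [hx₀m]
    exact hm.congr' (hfb.mono fun n h => (hz n h).2.1.symm)
  have e1 := t1.eventually hV
  have e2 : ∀ᶠ n in l, dist (m n) m₀ < r := hm.eventually (ball_mem_nhds _ hr)
  have e4 : ∀ᶠ n in l, y n ∈ closedBall y₀ r := hy.eventually (closedBall_mem_nhds _ hr)
  obtain ⟨n, ⟨⟨⟨hn, hnf⟩, h1⟩, h2⟩, h4⟩ := ((((h.and hfb).and e1).and e2).and e4).exists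
  obtain ⟨hz1, hz2, hz3⟩ := hz n hnf
  obtain ⟨hU1, hq1, hms1⟩ := hcap.cap (y n) h4 (z n) hz1 hz3 (by rw [hz2]; exact h2.le)
  have hq2 : χ.q (z n) ∈ ball (0 : Vd (k + 2)) 2 := closedBall_subset_ball (by norm_num) hq1
  refine h1 ((zr_iff hX G.tor α χ hq2 (hcap.str.lift _ hq2)).1 ?_)
  rw [hms1, pr_sigma_q χ hz1 hU1, hz2]
  exact hn

theorem zr_per {Γ : AddSubgroup (Vd (k + 1))} {α : VForm X Λ u} (hle : Γ ≤ Λ) (hper : Per α Γ) {l : Vd (k + 1)} (hl : l ∈ Γ) (y : Vd (k + 1))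
    (m : MN N) : Zr α (y + l) m ↔ Zr α y m := by
  constructor
  · rintro ⟨x, hx, hxm, hxu, h0⟩
    have h1 : u x - y ∈ Λ := by
      have e : u x - y = (u x - (y + l)) + l := by abel
      rw [e]
      exact Λ.add_mem hxu (hle hl)
    refine ⟨x, hx, hxm, h1, fun v hv => ?_⟩
    rw [← hper y l hl x hx h1 v hv]
    exact h0 v hv
  · rintro ⟨x, hx, hxm, hxu, h0⟩
    refine ⟨x, hx, hxm, ?_, fun v hv => ?_⟩
    · have e : u x - (y + l) = (u x - y) - l := by abel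
      rw [e]
      exact Λ.sub_mem hxu (hle hl)
    · rw [hper y l hl x hx hxu v hv]
      exact h0 v hv

end Pool.Agent.TG

end
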