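import Pool.Agent.H94.G4T.H36.BP.WdA_1
import Pool.Agent.H94.G4T.M05
import Pool.Agent.H94.G4T.M29
import Pool.Agent.H94.G4T.M35
import Pool.Agent.H94.G4T.M45

/-! The parts of this file: H13.CV.Lgt, H13.CV.Dx, AD.F.Max, AD.W.Resc, H62.FC.Potential. -/

section

/-!
# CV Lgt: pluricanonical forms

`pole_mul_pow`: `ω = g • η`, `0 ≤ ord (h * g ^ 1)`; the same `g`, `η`: `f * h ^ m * g ^ m = f * (h * g) ^ m`.
`lgt_of_forms`: in the definition of `IsLogGeneralType` take `r = 1`, `f = ![f₀, f₁]`.  `K` is finite over `ℂ(f₁ / f₀)` (`hK.fin`), so it is algebraic over `ℂ(f₀ / f₀, f₁ / f₀)`.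
-/

set_option autoImplicit false

open Pool.Agent.H23.Fano (PrimeDivisorOver Form regularForms)
open Pool.Agent.H17LG.Variety (PoleAtMost IsLogGeneralType)

noncomputable section

namespace Pool.Agent.H13.CV

variable {K : Type} [Field K] [Algebra ℂ K]

theorem pole_mul_pow {E : Place K} {h f : K} {ω : Form K 1} {m p : ℕ} (hh : PoleAtMost 0 E 1 h ω) (hf : 0 ≤ E.ord f + p) : PoleAtMost p E m (f * h ^ m) ω := by
  obtain ⟨g, η, hη, hω, h0⟩ := hh
  refine ⟨g, η, hη, hω, ?_⟩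
  have h1 : (0 : WithTop ℤ) ≤ E.ord (h * g) := by
    simpa using h0
  have h2 : f * h ^ m * g ^ m = f * (h * g) ^ m := by
    rw [mul_pow, mul_assoc]
  have h3 : (0 : WithTop ℤ) ≤ E.ord ((h * g) ^ m) := by
    rw [E.ord.map_pow]
    exact nsmul_nonneg h1 m
  rw [h2, E.ord.map_mul]
  calc (0 : WithTop ℤ) ≤ E.ord f + p := hf
    _ = E.ord f + 0 + p := by rw [add_zero]
    _ ≤ E.ord f + E.ord ((h * g) ^ m) + p := by
      gcongr

/-- two pluricanonical forms with a non-constant ratio -/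
theorem lgt_of_forms (hK : CurveField K) {B : Place K → Prop} {ω : Form K 1} (hω : ω ≠ 0) {m : ℕ} (hm : 1 ≤ m) {f₀ f₁ : K} (hf₀ : f₀ ≠ 0)
    (htr : Transcendental ℂ (f₁ / f₀)) (h₀ : ∀ E, (¬ B E → PoleAtMost 0 E m f₀ ω) ∧ (B E → PoleAtMost m E m f₀ ω))
    (h₁ : ∀ E, (¬ B E → PoleAtMost 0 E m f₁ ω) ∧ (B E → PoleAtMost m E m f₁ ω)) : IsLogGeneralType B := by
  refine ⟨m, hm, ω, hω, 1, ![f₀, f₁], by simpa using hf₀, ?_, ?_⟩
  · intro i E
    fin_cases i
    · exact h₀ E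
    · exact h₁ E
  · have he : IntermediateField.adjoin ℂ (Set.range fun i : Fin (1 + 1) => (![f₀, f₁] : Fin 2 → K) i / (![f₀, f₁] : Fin 2 → K) 0)
        = IntermediateField.adjoin ℂ {f₁ / f₀} := by
      apply le_antisymm
      · rw [IntermediateField.adjoin_le_iff]
        rintro _ ⟨i, rfl⟩
        fin_cases i
        · have : (f₀ / f₀ : K) ∈ IntermediateField.adjoin ℂ {f₁ / f₀} := by
            rw [div_self hf₀]
            exact one_mem _
          simpa using this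
        · have : (f₁ / f₀ : K) ∈ IntermediateField.adjoin ℂ {f₁ / f₀} :=
            IntermediateField.subset_adjoin _ _ rfl
          simpa using this
      · apply IntermediateField.adjoin.mono
        rintro _ rfl
        exact ⟨1, by simp⟩
    rw [he]
    have := hK.fin _ htr
    exact Algebra.IsAlgebraic.of_finite _ _

end Pool.Agent.H13.CV

end
end

section

/-!
# CV Dx: the order of the differential of a function

`Form K 1` is the exterior power `⋀¹ Ω_{K/ℂ}`, `Form.mk c a = c • ιMulti (d (a 0))` (`Pool/Agent/H23/Fano.lean`); `Form.mk c a` is additive in `d (a 0)` and `K`-linear in it.  (`Form K 1 ≃ Ω_{K/ℂ}`: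
`exteriorPower.oneEquiv`; `exteriorPower.ιMulti` is multilinear: `AlternatingMap.map_update_smul`, `map_update_add` for `Fin 1`.)
`mk_ne_zero`: see e.g. `Pool/Agent/H62/FC/NotLGT.lean`, `Pool/Agent/H23/Forms.lean`: `d x ≠ 0` for a transcendental element in characteristic `0`: there is a derivation `D` of `K` over `ℂ` with `D x = 1`
(Mathlib: `Differential`... or the library: look for `exists_derivation`, `IsTranscendenceBasis` basis of `Ω`, `Pool.Agent.H23` `mem_regularForms_iff`, `dualDer`).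
`mk_inv`: `d x = - x² d (x⁻¹)` (`Derivation.leibniz_inv`).
`exists_eta`: let `oz E t = 1`, `e = oz E x` (may be negative), `u = x * t ^ (-e)` of order `0`: `x = t ^ e * u`, `d x = t ^ (e - 1) • (e u d t + t d u)`, and `η = e u d t + t d u` is a sum of two
generators of `regularForms`.
`pole_mk`: with `g = t ^ (e - 1)`: `0 ≤ oz E h + m * (e - 1) + p`.
-/

set_option autoImplicit false

open Pool.Agent.H23.Fano (PrimeDivisorOver Form regularForms)
open Pool.Agent.H17LG.Variety (PoleAtMost IsLogGeneralType)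

noncomputable section

namespace Pool.Agent.H13.CV

variable {K : Type} [Field K] [Algebra ℂ K]

/-- the form `dx` -/
def dx (x : K) : Form K 1 := Form.mk 1 fun _ => x

/-- a differential as a form -/
private def tf : Ω[K⁄ℂ] →ₗ[K] Form K 1 :=
  ((exteriorPower.oneEquiv K Ω[K⁄ℂ]).symm : Ω[K⁄ℂ] →ₗ[K] ⋀[K]^1 Ω[K⁄ℂ])

private lemma tf_inj : Function.Injective (tf : Ω[K⁄ℂ] →ₗ[K] Form K 1) :=
  (exteriorPower.oneEquiv K Ω[K⁄ℂ]).symm.injective

private lemma mk_eq (c x : K) :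
    Form.mk c (fun _ : Fin 1 => x) = tf (c • KaehlerDifferential.D ℂ K x) := by
  rw [map_smul]
  have h : (exteriorPower.ιMulti K 1 (fun _ : Fin 1 => KaehlerDifferential.D ℂ K x) :
      ⋀[K]^1 Ω[K⁄ℂ]) =
      (exteriorPower.oneEquiv K Ω[K⁄ℂ]).symm (KaehlerDifferential.D ℂ K x) := by
    rw [LinearEquiv.eq_symm_apply, exteriorPower.oneEquiv_ιMulti]
  exact congrArg (fun w : ⋀[K]^1 Ω[K⁄ℂ] => c • w) h

private lemma dx_eq (x : K) : dx x = tf (KaehlerDifferential.D ℂ K x) := by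
  rw [dx, mk_eq, one_smul]

theorem dx_sub_const (x : K) (c : ℂ) : dx (x - algebraMap ℂ K c) = dx x := by
  rw [dx_eq, dx_eq, map_sub, Derivation.map_algebraMap, sub_zero]

theorem dx_ne_zero {x : K} (hx : Transcendental ℂ x) : dx x ≠ 0 := by
  obtain ⟨t, hst, ht⟩ := exists_isTranscendenceBasis_superset (R := ℂ) (s := ({x} : Set K))
    (algebraicIndependent_unique_type_iff.mpr hx)
  obtain ⟨b, hb⟩ := Pool.Agent.H23.exists_basis_kaehler ht
  have h1 := hb ⟨x, hst rfl⟩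
  rw [dx_eq]
  intro h
  have h2 : KaehlerDifferential.D ℂ K x = 0 := tf_inj (h.trans (map_zero _).symm)
  exact b.ne_zero ⟨x, hst rfl⟩ (h1.trans h2)

theorem exists_eta (E : Place K) {x : K} (hx : x ≠ 0) :
    ∃ (t : K) (η : Form K 1), t ≠ 0 ∧ oz E t = 1 ∧ η ∈ regularForms 1 E.localRing ∧ dx x = t ^ (oz E x - 1) • η := by
  obtain ⟨t, ht, h1⟩ := exists_uni E
  set e : ℤ := oz E x with he
  set u : K := x * t ^ (-e) with hu
  have hte : t ^ (-e) ≠ 0 := zpow_ne_zero _ ht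
  have hu0 : u ≠ 0 := mul_ne_zero hx hte
  have hou : oz E u = 0 := by
    rw [hu, oz_mul E hx hte, oz_zpow, h1]
    omega
  have hxu : x = t ^ e * u := by
    rw [hu, mul_left_comm, ← zpow_add₀ ht, add_neg_cancel, zpow_zero, mul_one]
  have hru : 0 ≤ E.ord u := nonneg_iff.2 (Or.inr hou.ge)
  have hrt : 0 ≤ E.ord t := nonneg_iff.2 (Or.inr (by omega))
  have hre : 0 ≤ E.ord (((e : ℂ) • u : K)) := by
    rw [Algebra.smul_def]
    exact nonneg_mul (const_nonneg E _) hru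
  refine ⟨t, Form.mk t (fun _ => u) + Form.mk ((e : ℂ) • u) (fun _ => t), ht, h1, ?_, ?_⟩
  · refine AddSubgroup.add_mem _ (AddSubgroup.subset_closure ?_) (AddSubgroup.subset_closure ?_)
    · exact ⟨t, fun _ => u, hrt, fun _ => hru, rfl⟩
    · exact ⟨(e : ℂ) • u, fun _ => t, hre, fun _ => hrt, rfl⟩
  · rw [mk_eq, mk_eq, ← map_add, ← map_smul, dx_eq]
    congr 1
    conv_lhs => rw [hxu]
    rw [Derivation.leibniz, Derivation.leibniz_zpow, smul_add, smul_smul, smul_smul]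
    have h2 : t ^ (e - 1) * t = t ^ e := by
      rw [← zpow_add_one₀ ht, sub_add_cancel]
    rw [h2]
    congr 1
    rw [← Int.cast_smul_eq_zsmul K, smul_smul, smul_smul]
    congr 1
    rw [Algebra.smul_def, map_intCast]
    ring

/-- a sufficient condition for `h dx ^ m` to have a pole of order at most `p` at `E` -/
theorem pole_mk (E : Place K) {x h : K} (hx : x ≠ 0) {m p : ℕ} (hh : h = 0 ∨ 0 ≤ oz E h + m * (oz E x - 1) + p) : PoleAtMost p E m h (dx x) := by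
  obtain ⟨t, η, ht, h1, hη, hd⟩ := exists_eta E hx
  refine ⟨t ^ (oz E x - 1), η, hη, hd, ?_⟩
  rcases hh with hh | hh
  · rw [hh, zero_mul, E.ord.map_zero]
    exact le_of_le_of_eq le_top (WithTop.top_add _).symm
  · by_cases h0 : h = 0
    · rw [h0, zero_mul, E.ord.map_zero]
      exact le_of_le_of_eq le_top (WithTop.top_add _).symm
    have hg : (t ^ (oz E x - 1)) ^ m ≠ 0 := pow_ne_zero _ (zpow_ne_zero _ ht)
    rw [← coe_oz E (mul_ne_zero h0 hg), oz_mul E h0 hg, oz_pow, oz_zpow, h1, mul_one]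
    have h2 : ((p : ℕ) : WithTop ℤ) = (((p : ℤ)) : WithTop ℤ) := by
      push_cast
      rfl
    rw [h2, ← WithTop.coe_add]
    exact WithTop.coe_le_coe.2 hh

end Pool.Agent.H13.CV

end
end

section

/-!
# AD F Max: maximum principles

* `vel_mul_not_isLocalMax`: let `h` be analytic at `z₀`, `|h z₀| = u z₀` and `|h z| exp(c'|z - z₀|²) ≤ u z` near `z₀`, with `c' = c / 2`.  Let `Φ` be a
  primitive of `1 / h` near `z₀` with `Φ z₀ = 0` and `φ` its inverse near `0` (`φ' = h ∘ φ`).  Then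
  `vel (F ∘ φ) w = |h (φ w)| vel F (φ w)` (`vel_comp`).  If `vel F * u` had a local maximum at `z₀`, then
  `vel (F ∘ φ) w ≤ vel (F ∘ φ) 0 * exp(-c'|φ w - z₀|²)` near `0`, which is `< vel (F ∘ φ) 0` for `w ≠ 0`: this contradicts
  `PseudoLength.curved` (sub-mean value property of the square) on a small circle around `0`.
* `vel_mul_le`: multiply `u` by `exp(δ|z|²)` (`Sub.mul`, `Sub.exp_sq`), use the first item at a maximum on the compact set `S`, let `δ → 0`.
* `sub_le`: the same without `vel` (`H36.BP.max_principle`).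
-/

set_option autoImplicit false

open Topology Filter Metric

namespace Pool.Agent.AD.F

open Pool.Agent.H36.BP (EN fs wd Sub Curve)

variable {N : ℕ} {X : Set (EN N)}

private theorem Max_exp_sub {u : ℂ → ℝ} {z₀ : ℂ} (h : Sub u z₀ 0) (δ : ℝ) : Sub (fun z => u z * Real.exp (δ * ‖z‖ ^ 2)) z₀ δ := by
  have h1 := h.mul (Sub.exp_sq (t := fun z : ℂ => z) (z₀ := z₀) analyticAt_id δ)
  have h2 : deriv (fun z : ℂ => z) z₀ = 1 := deriv_id z₀
  rw [h2, norm_one, one_pow, mul_one, zero_add] at h1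
  exact h1

private theorem Max_small {A B R : ℝ} (hAB : A < B) : ∃ δ : ℝ, 0 < δ ∧ A * Real.exp (δ * R ^ 2) < B := by
  have h1 : Tendsto (fun δ : ℝ => A * Real.exp (δ * R ^ 2)) (𝓝 0) (𝓝 (A * Real.exp (0 * R ^ 2))) := by
    have : Continuous fun δ : ℝ => A * Real.exp (δ * R ^ 2) := by fun_prop
    exact this.continuousAt.tendsto
  rw [zero_mul, Real.exp_zero, mul_one] at h1
  have h2 : ∀ᶠ δ in 𝓝[>] (0 : ℝ), A * Real.exp (δ * R ^ 2) < B :=
    (h1.eventually (gt_mem_nhds hAB)).filter_mono nhdsWithin_le_nhds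
  obtain ⟨δ, h3, h4⟩ := (h2.and eventually_mem_nhdsWithin).exists
  exact ⟨δ, h4, h3⟩

/-- weak maximum principle for `u` -/
theorem sub_le {S U : Set ℂ} (hS : IsCompact S) (hU : IsOpen U) (hUS : U ⊆ S) {u : ℂ → ℝ} (hu : ContinuousOn u S)
    (hsub : ∀ z ∈ U, 0 < u z → Sub u z 0) {A : ℝ} (hA : 0 ≤ A) (hbd : ∀ z ∈ S \ U, u z ≤ A) : ∀ z ∈ S, u z ≤ A := by
  intro z₁ hz₁
  by_contra hlt
  push Not at hlt
  obtain ⟨R, hR⟩ := hS.isBounded.exists_norm_le
  obtain ⟨δ, hδ, hδ1⟩ := Max_small (R := R) hlt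
  have hcont : ContinuousOn (fun z => u z * Real.exp (δ * ‖z‖ ^ 2)) S := by
    refine hu.mul ?_
    exact Continuous.continuousOn (by fun_prop)
  have h1 := Pool.Agent.H36.BP.max_principle hS hU hUS (u := fun z => u z * Real.exp (δ * ‖z‖ ^ 2)) hcont.upperSemicontinuousOn
    (fun z hz h => ⟨δ, hδ, Max_exp_sub (hsub z hz (by
      by_contra h2
      push Not at h2
      have h3 : u z * Real.exp (δ * ‖z‖ ^ 2) ≤ 0 := mul_nonpos_of_nonpos_of_nonneg h2 (Real.exp_pos _).le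
      have h' : 0 < u z * Real.exp (δ * ‖z‖ ^ 2) := h
      linarith)) δ⟩) (A := A * Real.exp (δ * R ^ 2)) (by positivity) (fun z hz => by
      show u z * Real.exp (δ * ‖z‖ ^ 2) ≤ A * Real.exp (δ * R ^ 2)
      have h2 := hbd z hz
      calc u z * Real.exp (δ * ‖z‖ ^ 2) ≤ A * Real.exp (δ * ‖z‖ ^ 2) := mul_le_mul_of_nonneg_right h2 (Real.exp_pos _).le
        _ ≤ A * Real.exp (δ * R ^ 2) := by
          refine mul_le_mul_of_nonneg_left (Real.exp_le_exp.2 ?_) hA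
          have := hR z hz.1
          gcongr) z₁ hz₁
  have h2 : u z₁ ≤ u z₁ * Real.exp (δ * ‖z₁‖ ^ 2) :=
    le_mul_of_one_le_right (hA.trans hlt.le) (Real.one_le_exp (by positivity))
  have h1' : u z₁ * Real.exp (δ * ‖z₁‖ ^ 2) ≤ A * Real.exp (δ * R ^ 2) := h1
  linarith

end Pool.Agent.AD.F

end

section

/-!
# AD W Resc: rescaling of a curve on the unit disc

The proof of `Pool.Agent.H62.EF.rescale_fs` for curves on the open unit disc.
-/

set_option autoImplicit false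

open Topology Filter Metric

namespace Pool.Agent.AD

open Pool.Agent.H36.BP (EN fs wd wd_cont fs_nonneg fs_smul_right)

variable {N : ℕ}

theorem rescale_disc {F : ℂ → EN N} (hF : DifferentiableOn ℂ F (ball 0 1)) (h0 : ∀ z ∈ ball (0 : ℂ) 1, F z ≠ 0) (n : ℕ)
    (hbig : 4 * ((n : ℝ) + 1) < fs (F 0) (deriv F 0)) :
    ∃ (z₀ : ℂ) (a : ℝ), 4 * ((n : ℝ) + 1) < a ∧ (∀ ζ ∈ ball (0 : ℂ) (n + 1), ‖z₀ + ((a⁻¹ : ℝ) : ℂ) * ζ‖ ≤ 1 / 2) ∧
      fs (F z₀) (deriv (fun ζ => F (z₀ + ((a⁻¹ : ℝ) : ℂ) * ζ)) 0) = 1 ∧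
      ∀ ζ ∈ ball (0 : ℂ) (n + 1), fs (F (z₀ + ((a⁻¹ : ℝ) : ℂ) * ζ)) (deriv (fun ζ => F (z₀ + ((a⁻¹ : ℝ) : ℂ) * ζ)) ζ) ≤ 2 := by
  have hn : (0 : ℝ) ≤ n := Nat.cast_nonneg n
  have hsub : closedBall (0 : ℂ) (1 / 2) ⊆ ball 0 1 := closedBall_subset_ball (by norm_num)
  have hFc : ContinuousOn F (closedBall (0 : ℂ) (1 / 2)) := hF.continuousOn.mono hsub
  have hF'c : ContinuousOn (deriv F) (closedBall (0 : ℂ) (1 / 2)) := (hF.deriv isOpen_ball).continuousOn.mono hsub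
  have hgc : ContinuousOn (fun z : ℂ => fs (F z) (deriv F z)) (closedBall (0 : ℂ) (1 / 2)) := by
    unfold fs
    refine (wd_cont.comp_continuousOn (hFc.prodMk hF'c)).div (hFc.norm.pow 2) ?_
    intro z hz
    exact pow_ne_zero 2 (norm_ne_zero_iff.mpr (h0 z (hsub hz)))
  set u : ℂ → ℝ := fun z => fs (F z) (deriv F z) * (1 / 2 - ‖z‖) with hu
  have huc : ContinuousOn u (closedBall (0 : ℂ) (1 / 2)) := hgc.mul (continuous_const.sub continuous_norm).continuousOn
  obtain ⟨z₀, hz₀, hmax⟩ := (isCompact_closedBall (0 : ℂ) (1 / 2)).exists_isMaxOn ⟨0, by simp⟩ huc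
  have hz₀n : ‖z₀‖ ≤ 1 / 2 := by simpa using hz₀
  have hu0z : u 0 ≤ u z₀ := hmax (by simp : (0 : ℂ) ∈ closedBall (0 : ℂ) (1 / 2))
  have hu0 : u 0 = fs (F 0) (deriv F 0) / 2 := by simp only [hu, norm_zero]; ring
  have hm : 2 * ((n : ℝ) + 1) < u z₀ := by rw [hu0] at hu0z; linarith
  set d : ℝ := 1 / 2 - ‖z₀‖ with hd
  have hd0 : 0 ≤ d := by rw [hd]; linarith
  set a : ℝ := fs (F z₀) (deriv F z₀) with ha
  have ha0 : 0 ≤ a := fs_nonneg _ _
  have huz : u z₀ = a * d := rfl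
  have hpos : 0 < a * d := by rw [← huz]; linarith
  have hapos : 0 < a := by
    rcases ha0.lt_or_eq with h | h
    · exact h
    · rw [← h] at hpos; simp at hpos
  have hdpos : 0 < d := by
    rcases hd0.lt_or_eq with h | h
    · exact h
    · rw [← h] at hpos; simp at hpos
  have hd2 : d ≤ 1 / 2 := by rw [hd]; linarith [norm_nonneg z₀]
  have haL : 4 * ((n : ℝ) + 1) < a := by
    have h1 : a * d ≤ a * (1 / 2) := mul_le_mul_of_nonneg_left hd2 ha0
    rw [huz] at hm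
    linarith
  set φ : ℂ → ℂ := fun ζ => z₀ + ((a⁻¹ : ℝ) : ℂ) * ζ with hφ
  have hφd : ∀ ζ, HasDerivAt φ ((a⁻¹ : ℝ) : ℂ) ζ := by
    intro ζ
    have := ((hasDerivAt_id ζ).const_mul ((a⁻¹ : ℝ) : ℂ)).const_add z₀
    simpa [hφ] using this
  have hkey : ∀ ζ ∈ ball (0 : ℂ) (n + 1), ‖φ ζ‖ ≤ 1 / 2 - d / 2 := by
    intro ζ hζ
    have hζn : ‖ζ‖ < n + 1 := by simpa using hζ
    have h1 : ‖φ ζ‖ ≤ ‖z₀‖ + a⁻¹ * ‖ζ‖ := by
      calc ‖φ ζ‖ ≤ ‖z₀‖ + ‖((a⁻¹ : ℝ) : ℂ) * ζ‖ := norm_add_le _ _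
        _ = ‖z₀‖ + a⁻¹ * ‖ζ‖ := by
          rw [norm_mul, Complex.norm_real, Real.norm_of_nonneg (by positivity)]
    have h2 : a⁻¹ * ‖ζ‖ ≤ d / 2 := by
      rw [inv_mul_le_iff₀ hapos]
      rw [huz] at hm
      linarith
    have h3 : ‖z₀‖ = 1 / 2 - d := by rw [hd]; ring
    linarith
  have hball : ∀ ζ ∈ ball (0 : ℂ) (n + 1), φ ζ ∈ closedBall (0 : ℂ) (1 / 2) := by
    intro ζ hζ
    have := hkey ζ hζ
    rw [mem_closedBall_zero_iff]
    linarith
  have hder : ∀ ζ ∈ ball (0 : ℂ) (n + 1), deriv (fun ζ => F (φ ζ)) ζ = ((a⁻¹ : ℝ) : ℂ) • deriv F (φ ζ) := by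
    intro ζ hζ
    have h1 : DifferentiableAt ℂ F (φ ζ) := hF.differentiableAt (isOpen_ball.mem_nhds (hsub (hball ζ hζ)))
    exact (h1.hasDerivAt.scomp ζ (hφd ζ)).deriv
  have hfs : ∀ ζ ∈ ball (0 : ℂ) (n + 1), fs (F (φ ζ)) (deriv (fun ζ => F (φ ζ)) ζ) = a⁻¹ * fs (F (φ ζ)) (deriv F (φ ζ)) := by
    intro ζ hζ
    rw [hder ζ hζ, fs_smul_right, Complex.norm_real, Real.norm_of_nonneg (by positivity)]
  have hφ0 : φ 0 = z₀ := by simp [hφ]
  refine ⟨z₀, a, haL, fun ζ hζ => ?_, ?_, ?_⟩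
  · have h1 := hkey ζ hζ
    have h2 : ‖z₀ + ((a⁻¹ : ℝ) : ℂ) * ζ‖ ≤ 1 / 2 - d / 2 := h1
    linarith
  · have h1 := hfs 0 (mem_ball_self (by positivity))
    rw [hφ0, ← ha, inv_mul_cancel₀ hapos.ne'] at h1
    exact h1
  · intro ζ hζ
    change fs (F (φ ζ)) (deriv (fun ζ => F (φ ζ)) ζ) ≤ 2
    rw [hfs ζ hζ]
    have h1 : u (φ ζ) ≤ u z₀ := hmax (hball ζ hζ)
    have h2 := hkey ζ hζ
    have h3 : fs (F (φ ζ)) (deriv F (φ ζ)) * (1 / 2 - ‖φ ζ‖) ≤ a * d := h1
    have h4 : 0 ≤ fs (F (φ ζ)) (deriv F (φ ζ)) := fs_nonneg _ _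
    have h5 : fs (F (φ ζ)) (deriv F (φ ζ)) * (d / 2) ≤ a * d :=
      le_trans (mul_le_mul_of_nonneg_left (by linarith) h4) h3
    have h6 : fs (F (φ ζ)) (deriv F (φ ζ)) ≤ 2 * a := by
      by_contra hc
      push Not at hc
      have : 2 * a * (d / 2) < fs (F (φ ζ)) (deriv F (φ ζ)) * (d / 2) := mul_lt_mul_of_pos_right hc (by linarith)
      linarith
    rw [inv_mul_le_iff₀ hapos]
    linarith

end Pool.Agent.AD

end

section

noncomputable section

namespace Pool.Agent.H62.FC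

open Filter Topology MeasureTheory
open Pool.Agent.H92.GGL (ordZ)

/-- a branch of the logarithm -/
private theorem Potential_branch {g : ℂ → ℂ} {z₀ : ℂ} (hg : AnalyticAt ℂ g z₀) (h0 : g z₀ ≠ 0) :
    ∃ l : ℂ → ℂ, AnalyticAt ℂ l z₀ ∧ (∀ᶠ z in 𝓝 z₀, (l z).re = Real.log ‖g z‖) ∧
      deriv l z₀ = deriv g z₀ / g z₀ := by
  have h1 : g z₀ / g z₀ ∈ Complex.slitPlane := by
    rw [div_self h0]
    exact Complex.one_mem_slitPlane
  have h2 : AnalyticAt ℂ (fun z => g z / g z₀) z₀ := hg.div analyticAt_const h0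
  refine ⟨fun z => Complex.log (g z / g z₀) + (Real.log ‖g z₀‖ : ℂ), ?_, ?_, ?_⟩
  · exact (h2.clog h1).add analyticAt_const
  · filter_upwards [hg.continuousAt.eventually_ne h0] with z hz
    rw [Complex.add_re, Complex.log_re, Complex.ofReal_re, norm_div,
      Real.log_div (norm_ne_zero_iff.mpr hz) (norm_ne_zero_iff.mpr h0)]
    ring
  · have h3 : HasDerivAt g (deriv g z₀) z₀ := hg.differentiableAt.hasDerivAt
    have h4 := ((h3.div_const (g z₀)).clog h1).add_const (Real.log ‖g z₀‖ : ℂ)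
    rw [h4.deriv, div_self h0, div_one]

/-- the second derivative along a line -/
private theorem Potential_line {F W w : ℝ → ℝ} (hF : ∀ t, HasDerivAt F (W t) t)
    (hW : ∀ t, HasDerivAt W (w t) t) {l m : ℂ → ℂ} {ζ₀ : ℂ} (hl : AnalyticAt ℂ l ζ₀)
    (hm : AnalyticAt ℂ m ζ₀) (ζ₁ c : ℂ) (t₀ : ℝ) (h0 : ζ₁ + c * (t₀ : ℂ) = ζ₀) {g : ℝ → ℝ}
    (hg : ∀ᶠ t in 𝓝 t₀, g t = F (l (ζ₁ + c * (t : ℂ))).re + (m (ζ₁ + c * (t : ℂ))).re) :
    deriv g t₀ = W (l ζ₀).re * (c * deriv l ζ₀).re + (c * deriv m ζ₀).re ∧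
    iteratedDeriv 2 g t₀ = w (l ζ₀).re * (c * deriv l ζ₀).re ^ 2 +
      W (l ζ₀).re * (c ^ 2 * deriv (deriv l) ζ₀).re + (c ^ 2 * deriv (deriv m) ζ₀).re := by
  have hp : ∀ t : ℝ, HasDerivAt (fun t : ℝ => ζ₁ + c * (t : ℂ)) c t := by
    intro t
    have h1 : HasDerivAt (fun t : ℝ => (t : ℂ)) 1 t := Complex.ofRealCLM.hasDerivAt
    have h2 := (h1.const_mul c).const_add ζ₁
    rwa [mul_one] at h2
  have hpc : ContinuousAt (fun t : ℝ => ζ₁ + c * (t : ℂ)) t₀ := (hp t₀).continuousAt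
  have hcomp : ∀ {k : ℂ → ℂ} {t : ℝ}, AnalyticAt ℂ k (ζ₁ + c * (t : ℂ)) →
      HasDerivAt (fun t : ℝ => (k (ζ₁ + c * (t : ℂ))).re)
        (c * deriv k (ζ₁ + c * (t : ℂ))).re t := by
    intro k t hk
    have h1 : HasDerivAt (fun t : ℝ => k (ζ₁ + c * (t : ℂ)))
        (deriv k (ζ₁ + c * (t : ℂ)) * c) t :=
      HasDerivAt.comp t hk.differentiableAt.hasDerivAt (hp t)
    have h2 := Complex.reCLM.hasFDerivAt.comp_hasDerivAt t h1
    rw [mul_comm] at h2
    exact h2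
  have hl' : ∀ᶠ t : ℝ in 𝓝 t₀, AnalyticAt ℂ l (ζ₁ + c * (t : ℂ)) := by
    have h1 : ∀ᶠ z in 𝓝 (ζ₁ + c * (t₀ : ℂ)), AnalyticAt ℂ l z := by
      rw [h0]; exact hl.eventually_analyticAt
    exact hpc.eventually h1
  have hm' : ∀ᶠ t : ℝ in 𝓝 t₀, AnalyticAt ℂ m (ζ₁ + c * (t : ℂ)) := by
    have h1 : ∀ᶠ z in 𝓝 (ζ₁ + c * (t₀ : ℂ)), AnalyticAt ℂ m z := by
      rw [h0]; exact hm.eventually_analyticAt
    exact hpc.eventually h1
  have hd1 : ∀ᶠ t : ℝ in 𝓝 t₀, HasDerivAt g (W (l (ζ₁ + c * (t : ℂ))).re *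
      (c * deriv l (ζ₁ + c * (t : ℂ))).re + (c * deriv m (ζ₁ + c * (t : ℂ))).re) t := by
    filter_upwards [hl', hm', hg.eventually_nhds] with t h1 h2 h3
    have h4 : HasDerivAt (fun t : ℝ => F (l (ζ₁ + c * (t : ℂ))).re + (m (ζ₁ + c * (t : ℂ))).re)
        (W (l (ζ₁ + c * (t : ℂ))).re *
      (c * deriv l (ζ₁ + c * (t : ℂ))).re + (c * deriv m (ζ₁ + c * (t : ℂ))).re) t :=
      ((hF _).comp t (hcomp h1)).add (hcomp h2)
    exact h4.congr_of_eventuallyEq h3
  constructor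
  · have h1 := hd1.self_of_nhds.deriv
    rw [h0] at h1
    exact h1
  · rw [iteratedDeriv_succ, iteratedDeriv_one]
    have h1 : deriv g =ᶠ[𝓝 t₀] fun t : ℝ => W (l (ζ₁ + c * (t : ℂ))).re *
      (c * deriv l (ζ₁ + c * (t : ℂ))).re + (c * deriv m (ζ₁ + c * (t : ℂ))).re := by
      filter_upwards [hd1] with t ht using ht.deriv
    rw [h1.deriv_eq]
    have hl0 : AnalyticAt ℂ l (ζ₁ + c * (t₀ : ℂ)) := by rw [h0]; exact hl
    have hm0 : AnalyticAt ℂ m (ζ₁ + c * (t₀ : ℂ)) := by rw [h0]; exact hm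
    have h2 : HasDerivAt (fun t : ℝ => (c * deriv l (ζ₁ + c * (t : ℂ))).re)
        (c ^ 2 * deriv (deriv l) (ζ₁ + c * (t₀ : ℂ))).re t₀ := by
      have h3 := hcomp (k := fun z => c * deriv l z) (t := t₀) (analyticAt_const.mul hl0.deriv)
      have h4 : deriv (fun z => c * deriv l z) (ζ₁ + c * (t₀ : ℂ)) =
          c * deriv (deriv l) (ζ₁ + c * (t₀ : ℂ)) := by
        rw [deriv_const_mul_field]
      rw [h4, ← mul_assoc, ← pow_two] at h3
      exact h3
    have h2' : HasDerivAt (fun t : ℝ => (c * deriv m (ζ₁ + c * (t : ℂ))).re)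
        (c ^ 2 * deriv (deriv m) (ζ₁ + c * (t₀ : ℂ))).re t₀ := by
      have h3 := hcomp (k := fun z => c * deriv m z) (t := t₀) (analyticAt_const.mul hm0.deriv)
      have h4 : deriv (fun z => c * deriv m z) (ζ₁ + c * (t₀ : ℂ)) =
          c * deriv (deriv m) (ζ₁ + c * (t₀ : ℂ)) := by
        rw [deriv_const_mul_field]
      rw [h4, ← mul_assoc, ← pow_two] at h3
      exact h3
    have h5 := (((hW _).comp t₀ (hcomp hl0)).mul h2).add h2'
    have h6 := h5.deriv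
    rw [h0] at h6
    refine Eq.trans ?_ (h6.trans ?_)
    · rfl
    · simp only [Function.comp_apply, h0]
      ring

/-- the primitives of the weight -/
private structure Potential_Data (w : ℝ → ℝ) (M : ℝ) (F W : ℝ → ℝ) (a b : ℝ) : Prop where
  hF : ∀ t, HasDerivAt F (W t) t
  hW : ∀ t, HasDerivAt W (w t) t
  wc : Continuous w
  a0 : 0 ≤ a
  a1 : a ≤ 1
  W1 : ∀ t, |W t| ≤ 1
  F0 : ∀ t, 0 ≤ F t
  F1 : ∀ t, F t ≤ |t|
  big : ∀ t, M ≤ |t| → F t = a * |t| - b
  wbig : ∀ t, M ≤ |t| → w t = 0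

private theorem Potential_data {w : ℝ → ℝ} {M : ℝ} (hw : Continuous w) (h0 : ∀ t, 0 ≤ w t)
    (he : ∀ t, w (-t) = w t) (hM : 0 ≤ M) (hz : ∀ t, M ≤ t → w t = 0)
    (h1 : (∫ t in (0 : ℝ)..M, w t) ≤ 1) :
    ∃ F W : ℝ → ℝ, ∃ a b : ℝ, Potential_Data w M F W a b := by
  set W : ℝ → ℝ := fun ξ => ∫ t in (0 : ℝ)..ξ, w t with hWdef
  have hW : ∀ t, HasDerivAt W (w t) t := fun t => (hw.integral_hasStrictDerivAt 0 t).hasDerivAt
  have hWc : Continuous W := continuous_iff_continuousAt.mpr fun t => (hW t).continuousAt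
  set F : ℝ → ℝ := fun ξ => ∫ t in (0 : ℝ)..ξ, W t with hFdef
  have hF : ∀ t, HasDerivAt F (W t) t := fun t => (hWc.integral_hasStrictDerivAt 0 t).hasDerivAt
  have hii : ∀ p q, IntervalIntegrable w volume p q := fun p q => hw.intervalIntegrable p q
  have hiW : ∀ p q, IntervalIntegrable W volume p q := fun p q => hWc.intervalIntegrable p q
  have hWodd : ∀ t, W (-t) = -W t := by
    intro t
    have h2 : (∫ x in (0 : ℝ)..t, w (-x)) = ∫ x in -t..-0, w x :=
      intervalIntegral.integral_comp_neg w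
    simp only [he, neg_zero] at h2
    have h3 : (∫ x in (0 : ℝ)..-t, w x) = -∫ x in -t..0, w x := intervalIntegral.integral_symm _ _
    simp only [hWdef]
    rw [h3, h2]
  have hFeven : ∀ t, F (-t) = F t := by
    intro t
    have h2 : (∫ x in (0 : ℝ)..t, W (-x)) = ∫ x in -t..-0, W x :=
      intervalIntegral.integral_comp_neg W
    simp only [hWodd, neg_zero] at h2
    rw [intervalIntegral.integral_neg] at h2
    have h3 : (∫ x in (0 : ℝ)..-t, W x) = -∫ x in -t..0, W x := intervalIntegral.integral_symm _ _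
    simp only [hFdef]
    linarith
  have hWM : ∀ t, M ≤ t → W t = W M := by
    intro t ht
    have h2 : W M + (∫ x in M..t, w x) = W t :=
      intervalIntegral.integral_add_adjacent_intervals (hii 0 M) (hii M t)
    have h3 : (∫ x in M..t, w x) = 0 := by
      have : (∫ x in M..t, w x) = ∫ x in M..t, (0 : ℝ) := by
        apply intervalIntegral.integral_congr
        intro x hx
        rw [Set.uIcc_of_le ht] at hx
        exact hz x hx.1
      rw [this]
      simp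
    linarith
  have hW0 : ∀ t, 0 ≤ t → 0 ≤ W t := fun t ht =>
    intervalIntegral.integral_nonneg ht fun x _ => h0 x
  have hWle : ∀ t, 0 ≤ t → W t ≤ 1 := by
    intro t ht
    rcases le_total M t with h | h
    · rw [hWM t h]
      exact h1
    · have h2 : W t + (∫ x in t..M, w x) = W M :=
        intervalIntegral.integral_add_adjacent_intervals (hii 0 t) (hii t M)
      have h3 : 0 ≤ ∫ x in t..M, w x := intervalIntegral.integral_nonneg h fun x _ => h0 x
      have h4 : W M ≤ 1 := h1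
      linarith
  have hF0 : ∀ t, 0 ≤ t → 0 ≤ F t := fun t ht =>
    intervalIntegral.integral_nonneg ht fun x hx => hW0 x hx.1
  have hFle : ∀ t, 0 ≤ t → F t ≤ t := by
    intro t ht
    have h2 : F t ≤ ∫ x in (0 : ℝ)..t, (1 : ℝ) :=
      intervalIntegral.integral_mono_on ht (hiW 0 t) (intervalIntegrable_const)
        fun x hx => hWle x hx.1
    simpa using h2
  have hFM : ∀ t, M ≤ t → F t = W M * t - (W M * M - F M) := by
    intro t ht
    have h2 : F M + (∫ x in M..t, W x) = F t :=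
      intervalIntegral.integral_add_adjacent_intervals (hiW 0 M) (hiW M t)
    have h3 : (∫ x in M..t, W x) = W M * (t - M) := by
      have : (∫ x in M..t, W x) = ∫ x in M..t, W M := by
        apply intervalIntegral.integral_congr
        intro x hx
        rw [Set.uIcc_of_le ht] at hx
        exact hWM x hx.1
      rw [this, intervalIntegral.integral_const, smul_eq_mul, mul_comm]
    rw [← h2, h3]
    ring
  have hFabs : ∀ t, F |t| = F t := by
    intro t
    rcases abs_cases t with ⟨h, _⟩ | ⟨h, _⟩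
    · rw [h]
    · rw [h, hFeven]
  refine ⟨F, W, W M, W M * M - F M, ⟨hF, hW, hw, hW0 M hM, h1, ?_, ?_, ?_, ?_, ?_⟩⟩
  · intro t
    rcases le_total 0 t with h | h
    · rw [abs_of_nonneg (hW0 t h)]
      exact hWle t h
    · have h2 : W t = -W (-t) := by rw [hWodd, neg_neg]
      have h3 : 0 ≤ -t := by linarith
      rw [h2, abs_neg, abs_of_nonneg (hW0 _ h3)]
      exact hWle _ h3
  · intro t
    rw [← hFabs]
    exact hF0 _ (abs_nonneg t)
  · intro t
    rw [← hFabs]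
    exact hFle _ (abs_nonneg t)
  · intro t ht
    rw [← hFabs]
    exact hFM _ ht
  · intro t ht
    rcases abs_cases t with ⟨h, _⟩ | ⟨h, _⟩
    · rw [h] at ht
      exact hz t ht
    · rw [h] at ht
      rw [← he]
      exact hz _ ht

/-- normal forms on the punctured disc -/
private structure Potential_NF (R₀ : ℝ) (U : ℂ → ℂ) : Prop where
  mer : ∀ z, 0 < ‖z‖ → ‖z‖ < R₀ → MeromorphicAt U z
  ana : ∀ z, 0 < ‖z‖ → ‖z‖ < R₀ → U z ≠ 0 → AnalyticAt ℂ U z
  fac : ∀ z, 0 < ‖z‖ → ‖z‖ < R₀ → ∃ h : ℂ → ℂ, AnalyticAt ℂ h z ∧ h z ≠ 0 ∧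
    ∀ᶠ z' in 𝓝[≠] z, U z' = (z' - z) ^ (ordZ U z) * h z'
  ord : ∀ z, 0 < ‖z‖ → ‖z‖ < R₀ → (U z = 0 ↔ ordZ U z ≠ 0)

private theorem Potential_exists_nf {R₀ : ℝ} {u : ℂ → ℂ} (hu : MeroPunct R₀ u) :
    ∃ U : ℂ → ℂ, Potential_NF R₀ U ∧ (∀ z, 0 < ‖z‖ → ‖z‖ < R₀ → U =ᶠ[𝓝[≠] z] u) ∧
      ∀ z, 0 < ‖z‖ → ‖z‖ < R₀ → ordZ U z = ordZ u z := by
  set D : Set ℂ := {z | 0 < ‖z‖ ∧ ‖z‖ < R₀} with hD
  have hm : MeromorphicOn u D := fun z hz => hu.mero z hz.1 hz.2
  have hnf : ∀ z, 0 < ‖z‖ → ‖z‖ < R₀ → MeromorphicNFAt (toMeromorphicNFOn u D) z :=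
    fun z h1 h2 => meromorphicNFOn_toMeromorphicNFOn u D ⟨h1, h2⟩
  have hor : ∀ z, 0 < ‖z‖ → ‖z‖ < R₀ →
      meromorphicOrderAt (toMeromorphicNFOn u D) z = meromorphicOrderAt u z :=
    fun z h1 h2 => meromorphicOrderAt_toMeromorphicNFOn hm ⟨h1, h2⟩
  have hcast : ∀ z, 0 < ‖z‖ → ‖z‖ < R₀ → (ordZ (toMeromorphicNFOn u D) z : WithTop ℤ) =
      meromorphicOrderAt (toMeromorphicNFOn u D) z := fun z h1 h2 =>
    Pool.Agent.H92.GGL.ordZ_cast (by rw [hor z h1 h2]; exact hu.ord z h1 h2)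
  refine ⟨toMeromorphicNFOn u D, ⟨fun z h1 h2 => (hnf z h1 h2).meromorphicAt, ?_, ?_, ?_⟩, ?_, ?_⟩
  · intro z h1 h2 h3
    refine (hnf z h1 h2).meromorphicOrderAt_nonneg_iff_analyticAt.mp ?_
    rw [(hnf z h1 h2).meromorphicOrderAt_eq_zero_iff.mpr h3]
  · intro z h1 h2
    obtain ⟨h, ha, hb, hc⟩ := (meromorphicOrderAt_eq_int_iff (hnf z h1 h2).meromorphicAt).mp
      (hcast z h1 h2).symm
    refine ⟨h, ha, hb, ?_⟩
    filter_upwards [hc] with z' hz'
    rw [hz', smul_eq_mul]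
  · intro z h1 h2
    have h3 := (hnf z h1 h2).meromorphicOrderAt_eq_zero_iff
    rw [← hcast z h1 h2] at h3
    have h4 : ((ordZ (toMeromorphicNFOn u D) z : WithTop ℤ) = 0) ↔
        ordZ (toMeromorphicNFOn u D) z = 0 := by
      exact_mod_cast Iff.rfl
    rw [h4] at h3
    tauto
  · intro z h1 h2
    exact hm.toMeromorphicNFOn_eq_self_on_nhdsNE ⟨h1, h2⟩
  · intro z h1 h2
    unfold ordZ
    rw [hor z h1 h2]

/-- functions which agree off a discrete set have the same means -/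
private theorem Potential_mean_congr {f g : ℂ → ℝ} {x : ℝ}
    (h : ∀ z, ‖z‖ = Real.exp (-x) → f =ᶠ[𝓝[≠] z] g) : mean f x = mean g x := by
  unfold mean
  have hr : 0 < Real.exp (-x) := Real.exp_pos _
  refine Real.circleAverage_congr_codiscreteWithin ?_ hr.ne'
  rw [Filter.EventuallyEq, Filter.Eventually, mem_codiscreteWithin]
  intro z hz
  rw [mem_sphere_zero_iff_norm, abs_of_pos hr] at hz
  rw [disjoint_principal_right]
  filter_upwards [h z hz] with z' hz'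
  intro hc
  exact hc.2 hz'

/-- the logarithms of the linear factors -/
private theorem Potential_sumlog (T : Finset ℂ) (c : ℂ → ℝ) (z₀ : ℂ) (hT : z₀ ∉ T) :
    ∃ m : ℂ → ℂ, AnalyticAt ℂ m z₀ ∧
      (∀ᶠ z in 𝓝 z₀, (m z).re = ∑ s ∈ T, c s * Real.log ‖z - s‖) ∧
      deriv m z₀ = ∑ s ∈ T, (c s : ℂ) * (1 / (z₀ - s)) := by
  have h1 : ∀ s : ℂ, ∃ ls : ℂ → ℂ, s ∈ T → (AnalyticAt ℂ ls z₀ ∧
      (∀ᶠ z in 𝓝 z₀, (ls z).re = Real.log ‖z - s‖) ∧ deriv ls z₀ = 1 / (z₀ - s)) := by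
    intro s
    by_cases hs : s ∈ T
    · have hne : z₀ - s ≠ 0 := by
        intro h0
        exact hT (by rw [sub_eq_zero.mp h0]; exact hs)
      obtain ⟨l, hl, hl2, hl3⟩ := Potential_branch (g := fun z => z - s) (z₀ := z₀)
        (analyticAt_id.sub analyticAt_const) hne
      refine ⟨l, fun _ => ⟨hl, hl2, ?_⟩⟩
      have hd : deriv (fun z : ℂ => z - s) z₀ = 1 := by
        rw [deriv_sub_const]
        exact deriv_id z₀
      rw [hl3, hd]
    · exact ⟨0, fun h => absurd h hs⟩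
  choose ls hls using h1
  refine ⟨fun z => ∑ s ∈ T, (c s : ℂ) * ls s z, ?_, ?_, ?_⟩
  · apply Finset.analyticAt_fun_sum
    intro s hs
    exact analyticAt_const.mul (hls s hs).1
  · have h2 : ∀ᶠ z in 𝓝 z₀, ∀ s ∈ T, (ls s z).re = Real.log ‖z - s‖ := by
      rw [Filter.eventually_all_finset]
      exact fun s hs => (hls s hs).2.1
    filter_upwards [h2] with z hz
    rw [Complex.re_sum]
    refine Finset.sum_congr rfl fun s hs => ?_
    rw [Complex.re_ofReal_mul, hz s hs]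
  · rw [deriv_fun_sum fun s hs => (hls s hs).1.differentiableAt.const_mul _]
    refine Finset.sum_congr rfl fun s hs => ?_
    rw [deriv_const_mul_field, (hls s hs).2.2]

/-- the regularised function -/
private def Potential_g (F : ℝ → ℝ) (a : ℝ) (U : ℂ → ℂ) (T : Finset ℂ) (z : ℂ) : ℝ :=
  F (Real.log ‖U z‖) + a * ∑ s ∈ T, |(ordZ U s : ℝ)| * Real.log ‖z - s‖

/-- the local structure of the regularised function -/
private theorem Potential_loc {w : ℝ → ℝ} {M : ℝ} {F W : ℝ → ℝ} {a b : ℝ}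
    (hd : Potential_Data w M F W a b) {R₀ : ℝ} {U : ℂ → ℂ} (hU : Potential_NF R₀ U)
    {T : Finset ℂ} (hT : ∀ s ∈ T, U s = 0) {z₀ : ℂ} (h1 : 0 < ‖z₀‖) (h2 : ‖z₀‖ < R₀)
    (h3 : U z₀ = 0 → z₀ ∈ T) :
    ∃ l m : ℂ → ℂ, AnalyticAt ℂ l z₀ ∧ AnalyticAt ℂ m z₀ ∧
      (∀ᶠ z in 𝓝[≠] z₀, Potential_g F a U T z = F (l z).re + (m z).re) ∧
      w (Real.log ‖U z₀‖) * ‖z₀ * deriv U z₀ / U z₀‖ ^ 2 =
        w (l z₀).re * ‖z₀ * deriv l z₀‖ ^ 2 := by
  by_cases h0 : U z₀ = 0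
  · have hz₀T := h3 h0
    obtain ⟨h, hha, hh0, hfac⟩ := hU.fac z₀ h1 h2
    have hn : ordZ U z₀ ≠ 0 := (hU.ord z₀ h1 h2).mp h0
    obtain ⟨lh, hlha, hlh, -⟩ := Potential_branch hha hh0
    obtain ⟨m, hma, hm, -⟩ := Potential_sumlog (T.erase z₀) (fun s => a * |(ordZ U s : ℝ)|) z₀
      (Finset.notMem_erase z₀ T)
    set n : ℝ := (ordZ U z₀ : ℝ) with hnd
    have hn0 : n ≠ 0 := by
      rw [hnd]
      exact_mod_cast hn
    -- the logarithm of `|U|` near `z₀`
    have hlog : ∀ᶠ z in 𝓝[≠] z₀, Real.log ‖U z‖ = n * Real.log ‖z - z₀‖ + Real.log ‖h z‖ := by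
      filter_upwards [hfac, self_mem_nhdsWithin,
        (hha.continuousAt.eventually_ne hh0).filter_mono nhdsWithin_le_nhds] with z hz hz1 hz2
      have hz3 : z - z₀ ≠ 0 := sub_ne_zero.mpr hz1
      rw [hz, norm_mul, norm_zpow, Real.log_mul (zpow_ne_zero _ (norm_ne_zero_iff.mpr hz3))
        (norm_ne_zero_iff.mpr hz2), Real.log_zpow]
    have htop : Tendsto (fun z : ℂ => Real.log ‖z - z₀‖) (𝓝[≠] z₀) atBot := by
      have ht1 : Tendsto (fun z : ℂ => ‖z - z₀‖) (𝓝[≠] z₀) (𝓝[>] 0) := by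
        refine tendsto_nhdsWithin_iff.mpr ⟨?_, ?_⟩
        · have : Tendsto (fun z : ℂ => ‖z - z₀‖) (𝓝 z₀) (𝓝 ‖z₀ - z₀‖) :=
            (continuous_norm.comp (continuous_id.sub continuous_const)).tendsto z₀
          rw [sub_self, norm_zero] at this
          exact this.mono_left nhdsWithin_le_nhds
        · filter_upwards [self_mem_nhdsWithin] with z hz
          exact norm_pos_iff.mpr (sub_ne_zero.mpr hz)
      exact Real.tendsto_log_nhdsGT_zero.comp ht1
    have hhc : Tendsto (fun z : ℂ => Real.log ‖h z‖) (𝓝[≠] z₀) (𝓝 (Real.log ‖h z₀‖)) := by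
      have : ContinuousAt (fun z : ℂ => Real.log ‖h z‖) z₀ :=
        hha.continuousAt.norm.log (norm_ne_zero_iff.mpr hh0)
      exact this.tendsto.mono_left nhdsWithin_le_nhds
    have hsum : ∀ z, ∑ s ∈ T, |(ordZ U s : ℝ)| * Real.log ‖z - s‖ =
        |n| * Real.log ‖z - z₀‖ + ∑ s ∈ T.erase z₀, |(ordZ U s : ℝ)| * Real.log ‖z - s‖ := by
      intro z
      rw [← Finset.add_sum_erase _ _ hz₀T]
    rcases lt_or_gt_of_ne hn0 with hneg | hpos
    · -- a pole
      have hbig : Tendsto (fun z : ℂ => n * Real.log ‖z - z₀‖ + Real.log ‖h z‖) (𝓝[≠] z₀)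
          atTop := Tendsto.atTop_add (htop.const_mul_atBot_of_neg hneg) hhc
      refine ⟨fun _ => 0, fun z => (a : ℂ) * lh z - (b : ℂ) - (F 0 : ℂ) + m z, analyticAt_const,
        (((analyticAt_const.mul hlha).sub analyticAt_const).sub analyticAt_const).add hma, ?_, ?_⟩
      · filter_upwards [hlog, hbig.eventually_ge_atTop (max M 0),
          hlh.filter_mono nhdsWithin_le_nhds, hm.filter_mono nhdsWithin_le_nhds] with z e1 e2 e3 e4
        rw [← e1] at e2
        have e5 : |Real.log ‖U z‖| = Real.log ‖U z‖ :=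
          abs_of_nonneg ((le_max_right M 0).trans e2)
        have e6 : F (Real.log ‖U z‖) = a * Real.log ‖U z‖ - b := by
          have := hd.big (Real.log ‖U z‖) (by rw [e5]; exact (le_max_left M 0).trans e2)
          rwa [e5] at this
        unfold Potential_g
        rw [e6, hsum, abs_of_neg hneg, e1]
        simp only [Complex.add_re, Complex.sub_re, Complex.re_ofReal_mul, Complex.ofReal_re,
          Complex.zero_re, e3, e4]
        have e7 : ∑ s ∈ T.erase z₀, a * |(ordZ U s : ℝ)| * Real.log ‖z - s‖ =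
            a * ∑ s ∈ T.erase z₀, |(ordZ U s : ℝ)| * Real.log ‖z - s‖ := by
          rw [Finset.mul_sum]
          simp only [mul_assoc]
        rw [e7]
        ring
      · rw [h0]
        simp
    · -- a zero
      have hbig : Tendsto (fun z : ℂ => n * Real.log ‖z - z₀‖ + Real.log ‖h z‖) (𝓝[≠] z₀)
          atBot := Tendsto.atBot_add (htop.const_mul_atBot hpos) hhc
      refine ⟨fun _ => 0, fun z => -((a : ℂ) * lh z) - (b : ℂ) - (F 0 : ℂ) + m z, analyticAt_const,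
        (((analyticAt_const.mul hlha).neg.sub analyticAt_const).sub analyticAt_const).add hma,
        ?_, ?_⟩
      · filter_upwards [hlog, hbig.eventually_le_atBot (min (-M) 0),
          hlh.filter_mono nhdsWithin_le_nhds, hm.filter_mono nhdsWithin_le_nhds] with z e1 e2 e3 e4
        rw [← e1] at e2
        have e5 : |Real.log ‖U z‖| = -Real.log ‖U z‖ :=
          abs_of_nonpos (e2.trans (min_le_right _ _))
        have e6 : F (Real.log ‖U z‖) = -(a * Real.log ‖U z‖) - b := by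
          have := hd.big (Real.log ‖U z‖) (by
            rw [e5]
            have := e2.trans (min_le_left _ _)
            linarith)
          rw [e5] at this
          rw [this]
          ring
        unfold Potential_g
        rw [e6, hsum, abs_of_pos hpos, e1]
        simp only [Complex.add_re, Complex.sub_re, Complex.neg_re, Complex.re_ofReal_mul,
          Complex.ofReal_re, Complex.zero_re, e3, e4]
        have e7 : ∑ s ∈ T.erase z₀, a * |(ordZ U s : ℝ)| * Real.log ‖z - s‖ =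
            a * ∑ s ∈ T.erase z₀, |(ordZ U s : ℝ)| * Real.log ‖z - s‖ := by
          rw [Finset.mul_sum]
          simp only [mul_assoc]
        rw [e7]
        ring
      · rw [h0]
        simp
  · have hz₀T : z₀ ∉ T := fun h => h0 (hT z₀ h)
    obtain ⟨l, hla, hl, hl'⟩ := Potential_branch (hU.ana z₀ h1 h2 h0) h0
    obtain ⟨m, hma, hm, -⟩ := Potential_sumlog T (fun s => a * |(ordZ U s : ℝ)|) z₀ hz₀T
    refine ⟨l, m, hla, hma, ?_, ?_⟩
    · filter_upwards [hl.filter_mono nhdsWithin_le_nhds, hm.filter_mono nhdsWithin_le_nhds]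
        with z e1 e2
      unfold Potential_g
      rw [e1, e2, Finset.mul_sum]
      simp only [mul_assoc]
    · rw [hl.self_of_nhds, hl', mul_div_assoc]

/-- the extension over the zeros and poles -/
private theorem Potential_ext {g k : ℂ → ℝ} {z₀ : ℂ} (h1 : ∀ᶠ z in 𝓝[≠] z₀, g z = k z)
    (h2 : ∀ᶠ z in 𝓝 z₀, ContinuousAt k z) :
    ∀ᶠ z in 𝓝 z₀, limUnder (𝓝[≠] z) g = k z := by
  have h3 : ∀ᶠ z in 𝓝 z₀, ∀ᶠ z' in 𝓝[≠] z, g z' = k z' := by
    rw [eventually_nhdsWithin_iff] at h1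
    filter_upwards [h1.eventually_nhds] with z hz
    by_cases hzz : z = z₀
    · rw [hzz] at hz ⊢
      rw [eventually_nhdsWithin_iff]
      exact hz
    · have h4 : ∀ᶠ z' in 𝓝 z, z' ≠ z₀ := eventually_ne_nhds hzz
      have h5 : ∀ᶠ z' in 𝓝 z, g z' = k z' := by
        filter_upwards [hz, h4] with z' e1 e2 using e1 e2
      exact h5.filter_mono nhdsWithin_le_nhds
  filter_upwards [h2, h3] with z e1 e2
  apply Filter.Tendsto.limUnder_eq
  have h6 : Tendsto k (𝓝[≠] z) (𝓝 (k z)) := e1.tendsto.mono_left nhdsWithin_le_nhds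
  exact h6.congr' (by filter_upwards [e2] with z' hz' using hz'.symm)

private theorem Potential_circleMap (x θ : ℝ) :
    circleMap 0 (Real.exp (-x)) θ = Complex.exp (-(x : ℂ) + (θ : ℂ) * Complex.I) := by
  rw [circleMap, zero_add, Complex.exp_add, Complex.ofReal_exp, Complex.ofReal_neg]

private theorem Potential_norm (x θ : ℝ) :
    ‖Complex.exp (-(x : ℂ) + (θ : ℂ) * Complex.I)‖ = Real.exp (-x) := by
  rw [Complex.norm_exp]
  simp

private theorem Potential_contDiff {F W w : ℝ → ℝ} (hF : ∀ t, HasDerivAt F (W t) t)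
    (hW : ∀ t, HasDerivAt W (w t) t) (hw : Continuous w) : ContDiff ℝ 2 F := by
  have h1 : deriv F = W := funext fun t => (hF t).deriv
  have h2 : deriv W = w := funext fun t => (hW t).deriv
  have h3 : ContDiff ℝ 1 W := by
    rw [contDiff_one_iff_deriv, h2]
    exact ⟨fun t => (hW t).differentiableAt, hw⟩
  have h4 : ContDiff ℝ (1 + 1) F := by
    rw [contDiff_succ_iff_deriv, h1]
    exact ⟨fun t => (hF t).differentiableAt, by simp, h3⟩
  have h5 : (1 + 1 : WithTop ℕ∞) = 2 := by norm_num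
  rwa [h5] at h4

/-- the composition with the exponential map is twice continuously differentiable -/
private theorem Potential_smooth {F W w : ℝ → ℝ} (hF : ∀ t, HasDerivAt F (W t) t)
    (hW : ∀ t, HasDerivAt W (w t) t) (hw : Continuous w) {S : ℂ → ℝ} {l m : ℂ → ℂ} (x θ : ℝ)
    (hl : AnalyticAt ℂ l (Complex.exp (-(x : ℂ) + (θ : ℂ) * Complex.I)))
    (hm : AnalyticAt ℂ m (Complex.exp (-(x : ℂ) + (θ : ℂ) * Complex.I)))
    (hS : ∀ᶠ z in 𝓝 (Complex.exp (-(x : ℂ) + (θ : ℂ) * Complex.I)),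
      S z = F (l z).re + (m z).re) :
    ContDiffAt ℝ 2 (fun p : ℝ × ℝ => S (Complex.exp (-(p.1 : ℂ) + (p.2 : ℂ) * Complex.I)))
      (x, θ) ∧
    deriv (fun y : ℝ => S (Complex.exp (-(y : ℂ) + (θ : ℂ) * Complex.I))) x =
      W (l (Complex.exp (-(x : ℂ) + (θ : ℂ) * Complex.I))).re *
        (-(Complex.exp (-(x : ℂ) + (θ : ℂ) * Complex.I) *
          deriv l (Complex.exp (-(x : ℂ) + (θ : ℂ) * Complex.I)))).re +
        (-(Complex.exp (-(x : ℂ) + (θ : ℂ) * Complex.I) *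
          deriv m (Complex.exp (-(x : ℂ) + (θ : ℂ) * Complex.I)))).re ∧
    iteratedDeriv 2 (fun y : ℝ => S (Complex.exp (-(y : ℂ) + (θ : ℂ) * Complex.I))) x +
      iteratedDeriv 2 (fun φ : ℝ => S (Complex.exp (-(x : ℂ) + (φ : ℂ) * Complex.I))) θ =
      w (l (Complex.exp (-(x : ℂ) + (θ : ℂ) * Complex.I))).re *
        ‖Complex.exp (-(x : ℂ) + (θ : ℂ) * Complex.I) *
          deriv l (Complex.exp (-(x : ℂ) + (θ : ℂ) * Complex.I))‖ ^ 2 := by
  set ζ₀ : ℂ := -(x : ℂ) + (θ : ℂ) * Complex.I with hζ₀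
  set z₀ : ℂ := Complex.exp ζ₀ with hz₀
  have hexp : AnalyticAt ℂ Complex.exp ζ₀ := analyticAt_cexp
  have hle : AnalyticAt ℂ (fun ζ => l (Complex.exp ζ)) ζ₀ := hl.comp hexp
  have hme : AnalyticAt ℂ (fun ζ => m (Complex.exp ζ)) ζ₀ := hm.comp hexp
  have hdle : deriv (fun ζ => l (Complex.exp ζ)) ζ₀ = z₀ * deriv l z₀ := by
    have h1 : HasDerivAt (fun ζ => l (Complex.exp ζ)) (deriv l z₀ * Complex.exp ζ₀) ζ₀ :=
      HasDerivAt.comp ζ₀ hl.differentiableAt.hasDerivAt (Complex.hasDerivAt_exp ζ₀)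
    rw [h1.deriv, mul_comm]
  have hdme : deriv (fun ζ => m (Complex.exp ζ)) ζ₀ = z₀ * deriv m z₀ := by
    have h1 : HasDerivAt (fun ζ => m (Complex.exp ζ)) (deriv m z₀ * Complex.exp ζ₀) ζ₀ :=
      HasDerivAt.comp ζ₀ hm.differentiableAt.hasDerivAt (Complex.hasDerivAt_exp ζ₀)
    rw [h1.deriv, mul_comm]
  have hSe : ∀ᶠ ζ in 𝓝 ζ₀, S (Complex.exp ζ) =
      F (l (Complex.exp ζ)).re + (m (Complex.exp ζ)).re :=
    hexp.continuousAt.eventually hS
  -- the two lines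
  have hx0 : (θ : ℂ) * Complex.I + (-1) * (x : ℂ) = ζ₀ := by rw [hζ₀]; ring
  have hy0 : -(x : ℂ) + Complex.I * (θ : ℂ) = ζ₀ := by rw [hζ₀]; ring
  have hcx : ∀ᶠ y : ℝ in 𝓝 x, S (Complex.exp (-(y : ℂ) + (θ : ℂ) * Complex.I)) =
      F (l (Complex.exp ((θ : ℂ) * Complex.I + (-1) * (y : ℂ)))).re +
        (m (Complex.exp ((θ : ℂ) * Complex.I + (-1) * (y : ℂ)))).re := by
    have h1 : ContinuousAt (fun y : ℝ => -(y : ℂ) + (θ : ℂ) * Complex.I) x := by fun_prop
    have h2 := h1.eventually hSe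
    filter_upwards [h2] with y hy
    have h3 : (θ : ℂ) * Complex.I + (-1) * (y : ℂ) = -(y : ℂ) + (θ : ℂ) * Complex.I := by ring
    rw [h3]
    exact hy
  have hcy : ∀ᶠ φ : ℝ in 𝓝 θ, S (Complex.exp (-(x : ℂ) + (φ : ℂ) * Complex.I)) =
      F (l (Complex.exp (-(x : ℂ) + Complex.I * (φ : ℂ)))).re +
        (m (Complex.exp (-(x : ℂ) + Complex.I * (φ : ℂ)))).re := by
    have h1 : ContinuousAt (fun φ : ℝ => -(x : ℂ) + (φ : ℂ) * Complex.I) θ := by fun_prop
    have h2 := h1.eventually hSe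
    filter_upwards [h2] with φ hφ
    have h3 : -(x : ℂ) + Complex.I * (φ : ℂ) = -(x : ℂ) + (φ : ℂ) * Complex.I := by ring
    rw [h3]
    exact hφ
  obtain ⟨k1, k2⟩ := Potential_line hF hW hle hme _ _ x hx0 hcx
  obtain ⟨-, k3⟩ := Potential_line hF hW hle hme _ _ θ hy0 hcy
  refine ⟨?_, ?_, ?_⟩
  · have hι : ContDiffAt ℝ 2 (fun p : ℝ × ℝ => -(p.1 : ℂ) + (p.2 : ℂ) * Complex.I) (x, θ) := by
      have h1 : ContDiff ℝ 2 (fun p : ℝ × ℝ => (p.1 : ℂ)) :=
        Complex.ofRealCLM.contDiff.comp contDiff_fst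
      have h2 : ContDiff ℝ 2 (fun p : ℝ × ℝ => (p.2 : ℂ)) :=
        Complex.ofRealCLM.contDiff.comp contDiff_snd
      exact (h1.neg.add (h2.mul contDiff_const)).contDiffAt
    have hlr : ContDiffAt ℝ 2 (fun ζ => l (Complex.exp ζ)) ζ₀ :=
      (hle.contDiffAt (n := 2)).restrict_scalars ℝ
    have hmr : ContDiffAt ℝ 2 (fun ζ => m (Complex.exp ζ)) ζ₀ :=
      (hme.contDiffAt (n := 2)).restrict_scalars ℝ
    have h3 : ContDiffAt ℝ 2 (fun p : ℝ × ℝ =>
        l (Complex.exp (-(p.1 : ℂ) + (p.2 : ℂ) * Complex.I))) (x, θ) :=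
      ContDiffAt.comp (x, θ) (g := fun ζ => l (Complex.exp ζ))
        (f := fun p : ℝ × ℝ => -(p.1 : ℂ) + (p.2 : ℂ) * Complex.I) hlr hι
    have h4 : ContDiffAt ℝ 2 (fun p : ℝ × ℝ =>
        m (Complex.exp (-(p.1 : ℂ) + (p.2 : ℂ) * Complex.I))) (x, θ) :=
      ContDiffAt.comp (x, θ) (g := fun ζ => m (Complex.exp ζ))
        (f := fun p : ℝ × ℝ => -(p.1 : ℂ) + (p.2 : ℂ) * Complex.I) hmr hι
    have h5 : ContDiffAt ℝ 2 (fun p : ℝ × ℝ =>
        (l (Complex.exp (-(p.1 : ℂ) + (p.2 : ℂ) * Complex.I))).re) (x, θ) :=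
      Complex.reCLM.contDiff.contDiffAt.comp (x, θ) h3
    have h6 : ContDiffAt ℝ 2 (fun p : ℝ × ℝ =>
        (m (Complex.exp (-(p.1 : ℂ) + (p.2 : ℂ) * Complex.I))).re) (x, θ) :=
      Complex.reCLM.contDiff.contDiffAt.comp (x, θ) h4
    have h7 : ContDiffAt ℝ 2 (fun p : ℝ × ℝ =>
        F (l (Complex.exp (-(p.1 : ℂ) + (p.2 : ℂ) * Complex.I))).re) (x, θ) :=
      (Potential_contDiff hF hW hw).contDiffAt.comp (x, θ) h5
    refine (h7.add h6).congr_of_eventuallyEq ?_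
    have h8 : ContinuousAt (fun p : ℝ × ℝ => -(p.1 : ℂ) + (p.2 : ℂ) * Complex.I) (x, θ) :=
      hι.continuousAt
    exact h8.eventually hSe
  · rw [k1]
    simp only [hdle, hdme, neg_one_mul]
    rfl
  · rw [k2, k3, hdle]
    simp only [Complex.I_sq, neg_one_sq, one_mul, neg_one_mul, Complex.neg_re, Complex.I_mul_re]
    have h9 : ‖z₀ * deriv l z₀‖ ^ 2 = (z₀ * deriv l z₀).re ^ 2 + (z₀ * deriv l z₀).im ^ 2 := by
      rw [← Complex.normSq_eq_norm_sq, Complex.normSq_apply]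
      ring
    rw [h9]
    change w (l z₀).re * _ + W (l z₀).re * _ + _ + (w (l z₀).re * _ + W (l z₀).re * _ + _) = _
    ring

/-- the density -/
private def Potential_L (w : ℝ → ℝ) (U : ℂ → ℂ) (z : ℂ) : ℝ :=
  w (Real.log ‖U z‖) * ‖z * deriv U z / U z‖ ^ 2

/-- the derivative at the outer radius -/
private def Potential_K (W : ℝ → ℝ) (a : ℝ) (U : ℂ → ℂ) (T : Finset ℂ) (z : ℂ) : ℝ :=
  W (Real.log ‖U z‖) * (-(z * (deriv U z / U z))).re +
    (-(z * ∑ s ∈ T, ((a * |(ordZ U s : ℝ)| : ℝ) : ℂ) * (1 / (z - s)))).re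

private theorem Potential_mean_eq (f : ℂ → ℝ) (x : ℝ) :
    mean f x = (2 * Real.pi)⁻¹ *
      ∫ θ in (0 : ℝ)..2 * Real.pi, f (Complex.exp (-(x : ℂ) + (θ : ℂ) * Complex.I)) := by
  unfold mean
  rw [Real.circleAverage_def, smul_eq_mul]
  simp only [Potential_circleMap]

private theorem Potential_S_eq {w : ℝ → ℝ} {M : ℝ} {F W : ℝ → ℝ} {a b : ℝ}
    (hd : Potential_Data w M F W a b) {g : ℂ → ℝ} {l m : ℂ → ℂ} {z₀ : ℂ}
    (hl : AnalyticAt ℂ l z₀) (hm : AnalyticAt ℂ m z₀)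
    (hg : ∀ᶠ z in 𝓝[≠] z₀, g z = F (l z).re + (m z).re) :
    ∀ᶠ z in 𝓝 z₀, limUnder (𝓝[≠] z) g = F (l z).re + (m z).re := by
  refine Potential_ext (k := fun z => F (l z).re + (m z).re) hg ?_
  filter_upwards [hl.eventually_analyticAt, hm.eventually_analyticAt] with z h1 h2
  have h3 : ContinuousAt F (l z).re := (hd.hF _).continuousAt
  have h4 : ContinuousAt (fun z => (l z).re) z :=
    Complex.continuous_re.continuousAt.comp h1.continuousAt
  have h5 : ContinuousAt (fun z => (m z).re) z :=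
    Complex.continuous_re.continuousAt.comp h2.continuousAt
  exact (ContinuousAt.comp (f := fun z => (l z).re) h3 h4).add h5

private theorem Potential_identity {w : ℝ → ℝ} {M : ℝ} {F W : ℝ → ℝ} {a b : ℝ}
    (hd : Potential_Data w M F W a b) {R₀ : ℝ} {U : ℂ → ℂ} (hU : Potential_NF R₀ U)
    {T : Finset ℂ} (hT : ∀ s ∈ T, U s = 0) {α β : ℝ} (hα : Real.exp (-α) ≤ R₀)
    (hTc : ∀ z, Real.exp (-β) < ‖z‖ → ‖z‖ < Real.exp (-α) → U z = 0 → z ∈ T)
    {x₀ x : ℝ} (hx₀ : x₀ ∈ Set.Ioo α β) (hx : x ∈ Set.Ioo α β)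
    (hne : ∀ z, ‖z‖ = Real.exp (-x₀) → U z ≠ 0) :
    mean (Potential_g F a U T) x = mean (Potential_g F a U T) x₀ +
      mean (Potential_K W a U T) x₀ * (x - x₀) +
      ∫ y in x₀..x, (x - y) * mean (Potential_L w U) y := by
  set g : ℂ → ℝ := Potential_g F a U T with hg
  set S : ℂ → ℝ := fun z => limUnder (𝓝[≠] z) g with hSdef
  have hloc : ∀ y ∈ Set.Ioo α β, ∀ z₀ : ℂ, ‖z₀‖ = Real.exp (-y) →
      ∃ l m : ℂ → ℂ, AnalyticAt ℂ l z₀ ∧ AnalyticAt ℂ m z₀ ∧
        (∀ᶠ z in 𝓝[≠] z₀, g z = F (l z).re + (m z).re) ∧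
        Potential_L w U z₀ = w (l z₀).re * ‖z₀ * deriv l z₀‖ ^ 2 := by
    intro y hy z₀ hz₀
    have h1 : Real.exp (-β) < ‖z₀‖ := by
      rw [hz₀]; exact Real.exp_lt_exp.mpr (by linarith [hy.2])
    have h2 : ‖z₀‖ < Real.exp (-α) := by
      rw [hz₀]; exact Real.exp_lt_exp.mpr (by linarith [hy.1])
    exact Potential_loc hd hU hT ((Real.exp_pos _).trans h1) (h2.trans_le hα)
      (hTc z₀ h1 h2)
  have hmeanS : ∀ y ∈ Set.Ioo α β, mean S y = mean g y := by
    intro y hy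
    refine Potential_mean_congr fun z₀ hz₀ => ?_
    obtain ⟨l, m, hl, hm, h1, -⟩ := hloc y hy z₀ hz₀
    have h2 := Potential_S_eq hd hl hm h1
    filter_upwards [h1, h2.filter_mono nhdsWithin_le_nhds] with z e1 e2
    rw [hSdef]
    exact e2.trans e1.symm
  have havg := average_second_deriv
    (Φ := fun y θ => S (Complex.exp (-(y : ℂ) + (θ : ℂ) * Complex.I)))
    (L := fun y θ => Potential_L w U (Complex.exp (-(y : ℂ) + (θ : ℂ) * Complex.I)))
    (α := α) (β := β) ?_ ?_ ?_ hx₀ hx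
  · have h2π : (0 : ℝ) < 2 * Real.pi := Real.two_pi_pos
    rw [← hmeanS x hx, ← hmeanS x₀ hx₀, Potential_mean_eq S x, Potential_mean_eq S x₀, havg,
      Potential_mean_eq (Potential_K W a U T) x₀]
    have hder : (∫ θ in (0 : ℝ)..2 * Real.pi,
        deriv (fun y : ℝ => S (Complex.exp (-(y : ℂ) + (θ : ℂ) * Complex.I))) x₀) =
        ∫ θ in (0 : ℝ)..2 * Real.pi,
          Potential_K W a U T (Complex.exp (-(x₀ : ℂ) + (θ : ℂ) * Complex.I)) := by
      apply intervalIntegral.integral_congr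
      intro θ _
      have hn := Potential_norm x₀ θ
      have h0 := hne _ hn
      have h1 : 0 < ‖Complex.exp (-(x₀ : ℂ) + (θ : ℂ) * Complex.I)‖ := by
        rw [hn]; exact Real.exp_pos _
      have h2 : ‖Complex.exp (-(x₀ : ℂ) + (θ : ℂ) * Complex.I)‖ < R₀ := by
        rw [hn]; exact (Real.exp_lt_exp.mpr (by linarith [hx₀.1])).trans_le hα
      have h3 : Complex.exp (-(x₀ : ℂ) + (θ : ℂ) * Complex.I) ∉ T := fun h => h0 (hT _ h)
      obtain ⟨l, hla, hl, hl'⟩ := Potential_branch (hU.ana _ h1 h2 h0) h0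
      obtain ⟨m, hma, hm, hm'⟩ := Potential_sumlog T (fun s => a * |(ordZ U s : ℝ)|) _ h3
      have hgl : ∀ᶠ z in 𝓝[≠] (Complex.exp (-(x₀ : ℂ) + (θ : ℂ) * Complex.I)),
          g z = F (l z).re + (m z).re := by
        filter_upwards [hl.filter_mono nhdsWithin_le_nhds, hm.filter_mono nhdsWithin_le_nhds]
          with z e1 e2
        rw [hg]
        unfold Potential_g
        rw [e1, e2, Finset.mul_sum]
        simp only [mul_assoc]
      have h4 := (Potential_smooth hd.hF hd.hW hd.wc x₀ θ hla hma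
        (Potential_S_eq hd hla hma hgl)).2.1
      refine h4.trans ?_
      unfold Potential_K
      rw [hl.self_of_nhds, hl', hm']
    rw [hder]
    have hint : (∫ y in x₀..x, (x - y) * mean (Potential_L w U) y) =
        (2 * Real.pi)⁻¹ * ∫ y in x₀..x, (x - y) * ∫ θ in (0 : ℝ)..2 * Real.pi,
          Potential_L w U (Complex.exp (-(y : ℂ) + (θ : ℂ) * Complex.I)) := by
      rw [← intervalIntegral.integral_const_mul]
      apply intervalIntegral.integral_congr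
      intro y _
      simp only [Potential_mean_eq]
      ring
    rw [hint]
    ring
  · intro y hy θ
    obtain ⟨l, m, hl, hm, h1, -⟩ := hloc y hy _ (Potential_norm y θ)
    exact (Potential_smooth hd.hF hd.hW hd.wc y θ hl hm (Potential_S_eq hd hl hm h1)).1
  · intro y θ
    have : Complex.exp (-(y : ℂ) + ((θ + 2 * Real.pi : ℝ) : ℂ) * Complex.I) =
        Complex.exp (-(y : ℂ) + (θ : ℂ) * Complex.I) := by
      have h1 : -(y : ℂ) + ((θ + 2 * Real.pi : ℝ) : ℂ) * Complex.I =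
          (-(y : ℂ) + (θ : ℂ) * Complex.I) + 2 * Real.pi * Complex.I := by
        push_cast
        ring
      rw [h1, Complex.exp_periodic]
    simp only [this]
  · intro y hy θ
    obtain ⟨l, m, hl, hm, h1, h2⟩ := hloc y hy _ (Potential_norm y θ)
    rw [(Potential_smooth hd.hF hd.hW hd.wc y θ hl hm (Potential_S_eq hd hl hm h1)).2.2]
    exact h2

private theorem Potential_big {R₀ : ℝ} {U : ℂ → ℂ} (hU : Potential_NF R₀ U) {z₀ : ℂ}
    (h1 : 0 < ‖z₀‖) (h2 : ‖z₀‖ < R₀) (h0 : U z₀ = 0) (M : ℝ) :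
    ∀ᶠ z in 𝓝[≠] z₀, M ≤ |Real.log ‖U z‖| := by
  obtain ⟨h, hha, hh0, hfac⟩ := hU.fac z₀ h1 h2
  have hn : ordZ U z₀ ≠ 0 := (hU.ord z₀ h1 h2).mp h0
  set n : ℝ := (ordZ U z₀ : ℝ) with hnd
  have hn0 : n ≠ 0 := by
    rw [hnd]
    exact_mod_cast hn
  have hlog : ∀ᶠ z in 𝓝[≠] z₀, Real.log ‖U z‖ = n * Real.log ‖z - z₀‖ + Real.log ‖h z‖ := by
    filter_upwards [hfac, self_mem_nhdsWithin,
      (hha.continuousAt.eventually_ne hh0).filter_mono nhdsWithin_le_nhds] with z hz hz1 hz2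
    have hz3 : z - z₀ ≠ 0 := sub_ne_zero.mpr hz1
    rw [hz, norm_mul, norm_zpow, Real.log_mul (zpow_ne_zero _ (norm_ne_zero_iff.mpr hz3))
      (norm_ne_zero_iff.mpr hz2), Real.log_zpow]
  have htop : Tendsto (fun z : ℂ => Real.log ‖z - z₀‖) (𝓝[≠] z₀) atBot := by
    have ht1 : Tendsto (fun z : ℂ => ‖z - z₀‖) (𝓝[≠] z₀) (𝓝[>] 0) := by
      refine tendsto_nhdsWithin_iff.mpr ⟨?_, ?_⟩
      · have : Tendsto (fun z : ℂ => ‖z - z₀‖) (𝓝 z₀) (𝓝 ‖z₀ - z₀‖) :=
          (continuous_norm.comp (continuous_id.sub continuous_const)).tendsto z₀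
        rw [sub_self, norm_zero] at this
        exact this.mono_left nhdsWithin_le_nhds
      · filter_upwards [self_mem_nhdsWithin] with z hz
        exact norm_pos_iff.mpr (sub_ne_zero.mpr hz)
    exact Real.tendsto_log_nhdsGT_zero.comp ht1
  have hhc : Tendsto (fun z : ℂ => Real.log ‖h z‖) (𝓝[≠] z₀) (𝓝 (Real.log ‖h z₀‖)) := by
    have : ContinuousAt (fun z : ℂ => Real.log ‖h z‖) z₀ :=
      hha.continuousAt.norm.log (norm_ne_zero_iff.mpr hh0)
    exact this.tendsto.mono_left nhdsWithin_le_nhds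
  have habs : Tendsto (fun z : ℂ => |n * Real.log ‖z - z₀‖ + Real.log ‖h z‖|) (𝓝[≠] z₀)
      atTop := by
    rcases lt_or_gt_of_ne hn0 with hneg | hpos
    · exact tendsto_abs_atTop_atTop.comp
        (Tendsto.atTop_add (htop.const_mul_atBot_of_neg hneg) hhc)
    · exact tendsto_abs_atBot_atTop.comp (Tendsto.atBot_add (htop.const_mul_atBot hpos) hhc)
  filter_upwards [hlog, habs.eventually_ge_atTop M] with z e1 e2
  rw [e1]
  exact e2

private theorem Potential_cont {w : ℝ → ℝ} {M : ℝ} (hw : Continuous w)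
    (hwb : ∀ t, M ≤ |t| → w t = 0) {R₀ : ℝ} {U : ℂ → ℂ} (hU : Potential_NF R₀ U) {z₀ : ℂ}
    (h1 : 0 < ‖z₀‖) (h2 : ‖z₀‖ < R₀) : ContinuousAt (Potential_L w U) z₀ := by
  by_cases h0 : U z₀ = 0
  · have h3 : ∀ᶠ z in 𝓝 z₀, Potential_L w U z = 0 := by
      have h4 := Potential_big hU h1 h2 h0 M
      rw [eventually_nhdsWithin_iff] at h4
      filter_upwards [h4] with z hz
      unfold Potential_L
      by_cases hzz : z = z₀
      · rw [hzz, h0]
        simp
      · rw [hwb _ (hz hzz), zero_mul]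
    exact (continuousAt_const (y := (0 : ℝ))).congr (by filter_upwards [h3] with z hz using hz.symm)
  · have hana := hU.ana z₀ h1 h2 h0
    have h3 : ContinuousAt (fun z => Real.log ‖U z‖) z₀ :=
      hana.continuousAt.norm.log (norm_ne_zero_iff.mpr h0)
    have h4 : ContinuousAt (fun z => w (Real.log ‖U z‖)) z₀ := hw.continuousAt.comp h3
    have h5 : ContinuousAt (fun z => ‖z * deriv U z / U z‖ ^ 2) z₀ :=
      (((continuousAt_id.mul hana.deriv.continuousAt).div hana.continuousAt h0).norm).pow 2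
    exact h4.mul h5

private theorem Potential_avg_one {s : ℂ} {R : ℝ} (h : ‖s‖ < R) :
    Real.circleAverage (fun z => z * (1 / (z - s))) 0 R = 1 := by
  have hR : 0 < R := (norm_nonneg s).trans_lt h
  rw [Real.circleAverage_eq_circleIntegral hR.ne']
  have h1 : (∮ z in C(0, R), (z - 0)⁻¹ • (z * (1 / (z - s)))) = ∮ z in C(0, R), (z - s)⁻¹ := by
    refine circleIntegral.integral_congr hR.le fun z hz => ?_
    have hz0 : z ≠ 0 := by
      intro h0
      rw [h0, mem_sphere_zero_iff_norm, norm_zero] at hz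
      exact hR.ne hz
    simp only [smul_eq_mul, sub_zero]
    rw [← mul_assoc, inv_mul_cancel₀ hz0, one_mul, one_div]
  rw [h1, circleIntegral.integral_sub_inv_of_mem_ball (by rwa [mem_ball_zero_iff]), smul_eq_mul]
  exact inv_mul_cancel₀ Complex.two_pi_I_ne_zero

/-- the mean of the regularised function -/
private theorem Potential_mean_g {w : ℝ → ℝ} {M : ℝ} {F W : ℝ → ℝ} {a b : ℝ}
    (hd : Potential_Data w M F W a b) {R₀ : ℝ} {U : ℂ → ℂ} (hU : Potential_NF R₀ U)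
    (T : Finset ℂ) {x : ℝ} (hx : Real.exp (-x) < R₀) :
    mean (Potential_g F a U T) x = mean (fun z => F (Real.log ‖U z‖)) x +
      a * ∑ s ∈ T, |(ordZ U s : ℝ)| * (-x + Real.posLog (‖s‖ / Real.exp (-x))) ∧
    0 ≤ mean (fun z => F (Real.log ‖U z‖)) x ∧
    mean (fun z => F (Real.log ‖U z‖)) x ≤ mean (fun z => |Real.log ‖U z‖|) x := by
  have hr : 0 < Real.exp (-x) := Real.exp_pos _
  have hlog : CircleIntegrable (fun z => Real.log ‖U z‖) 0 (Real.exp (-x)) := by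
    apply MeromorphicOn.circleIntegrable_log_norm
    intro z hz
    rw [mem_sphere_zero_iff_norm, abs_of_pos hr] at hz
    exact hU.mer z (by rw [hz]; exact hr) (by rw [hz]; exact hx)
  have hFc : Continuous F := continuous_iff_continuousAt.mpr fun t => (hd.hF t).continuousAt
  have hFi : CircleIntegrable (fun z => F (Real.log ‖U z‖)) 0 (Real.exp (-x)) := by
    unfold CircleIntegrable at hlog ⊢
    refine hlog.mono_fun ?_ ?_
    · exact hFc.comp_aestronglyMeasurable hlog.aestronglyMeasurable_restrict_uIoc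
    · refine Filter.Eventually.of_forall fun θ => ?_
      simp only [Real.norm_eq_abs]
      rw [abs_of_nonneg (hd.F0 _)]
      exact hd.F1 _
  have hsi : CircleIntegrable (fun z => a * ∑ s ∈ T, |(ordZ U s : ℝ)| * Real.log ‖z - s‖) 0
      (Real.exp (-x)) := by
    refine CircleIntegrable.const_fun_smul (a := a)
      (f := fun z => ∑ s ∈ T, |(ordZ U s : ℝ)| * Real.log ‖z - s‖) ?_
    refine CircleIntegrable.fun_sum T fun s _ => ?_
    exact (circleIntegrable_log_norm_sub_const (Real.exp (-x))).const_fun_smul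
      (a := |(ordZ U s : ℝ)|)
  refine ⟨?_, ?_, ?_⟩
  · unfold mean Potential_g
    rw [Real.circleAverage_fun_add hFi hsi]
    congr 1
    have h1 := Real.circleAverage_fun_smul (a := a)
      (f := fun z => ∑ s ∈ T, |(ordZ U s : ℝ)| * Real.log ‖z - s‖) (c := 0) (R := Real.exp (-x))
    simp only [smul_eq_mul] at h1
    have hsi' : ∀ s ∈ T, CircleIntegrable (fun z => |(ordZ U s : ℝ)| * Real.log ‖z - s‖) 0
        (Real.exp (-x)) := fun s _ =>
      (circleIntegrable_log_norm_sub_const (Real.exp (-x))).const_fun_smul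
        (a := |(ordZ U s : ℝ)|)
    rw [h1, Real.circleAverage_fun_sum hsi']
    congr 1
    refine Finset.sum_congr rfl fun s _ => ?_
    have h5 := Real.circleAverage_fun_smul (a := |(ordZ U s : ℝ)|)
      (f := fun z => Real.log ‖z - s‖) (c := 0) (R := Real.exp (-x))
    simp only [smul_eq_mul] at h5
    rw [h5, circleAverage_log_norm_sub_const_eq_log_radius_add_posLog hr.ne', zero_sub, norm_neg,
      inv_mul_eq_div, Real.log_exp]
  · exact Real.circleAverage_nonneg_of_nonneg fun z _ => hd.F0 _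
  · refine Real.circleAverage_mono hFi ?_ fun z _ => hd.F1 _
    unfold CircleIntegrable at hlog ⊢
    exact hlog.abs

/-- the mean of the derivative -/
private theorem Potential_mean_K {w : ℝ → ℝ} {M : ℝ} {F W : ℝ → ℝ} {a b : ℝ}
    (hd : Potential_Data w M F W a b) {R₀ : ℝ} {U : ℂ → ℂ} (hU : Potential_NF R₀ U)
    {T : Finset ℂ} {x : ℝ} (hx : Real.exp (-x) < R₀)
    (hne : ∀ z, ‖z‖ = Real.exp (-x) → U z ≠ 0) (hT : ∀ s ∈ T, ‖s‖ < Real.exp (-x)) :
    |(mean (Potential_K W a U T) x + a * (∑ s ∈ T, |(ordZ U s : ℝ)|))| ≤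
      mean (fun z => ‖z * deriv U z / U z‖) x := by
  have hr : 0 < Real.exp (-x) := Real.exp_pos _
  have hWc : Continuous W := continuous_iff_continuousAt.mpr fun t => (hd.hW t).continuousAt
  have hz0 : ∀ z : ℂ, z ∈ Metric.sphere (0 : ℂ) (Real.exp (-x)) → ‖z‖ = Real.exp (-x) :=
    fun z hz => mem_sphere_zero_iff_norm.mp hz
  have hana : ∀ z : ℂ, z ∈ Metric.sphere (0 : ℂ) (Real.exp (-x)) → AnalyticAt ℂ U z :=
    fun z hz => hU.ana z (by rw [hz0 z hz]; exact hr) (by rw [hz0 z hz]; exact hx)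
      (hne z (hz0 z hz))
  have hc0 : ∀ z : ℂ, z ∈ Metric.sphere (0 : ℂ) (Real.exp (-x)) →
      ContinuousAt (fun z => z * (deriv U z / U z)) z := fun z hz =>
    continuousAt_id.mul ((hana z hz).deriv.continuousAt.div (hana z hz).continuousAt
      (hne z (hz0 z hz)))
  have hi1 : CircleIntegrable (fun z => W (Real.log ‖U z‖) * (-(z * (deriv U z / U z))).re) 0
      (Real.exp (-x)) := by
    refine ContinuousOn.circleIntegrable hr.le fun z hz => ContinuousAt.continuousWithinAt ?_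
    have h1 : ContinuousAt (fun z => W (Real.log ‖U z‖)) z :=
      hWc.continuousAt.comp
        ((hana z hz).continuousAt.norm.log (norm_ne_zero_iff.mpr (hne z (hz0 z hz))))
    have h2 : ContinuousAt (fun z => (-(z * (deriv U z / U z))).re) z :=
      Complex.continuous_re.continuousAt.comp (hc0 z hz).neg
    exact h1.mul h2
  have hi3 : CircleIntegrable (fun z => ‖z * deriv U z / U z‖) 0 (Real.exp (-x)) := by
    refine ContinuousOn.circleIntegrable hr.le fun z hz => ContinuousAt.continuousWithinAt ?_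
    have := (hc0 z hz).norm
    simp only [← mul_div_assoc] at this
    exact this
  have hcs : ∀ s ∈ T, ContinuousOn (fun z : ℂ => z * (1 / (z - s)))
      (Metric.sphere (0 : ℂ) (Real.exp (-x))) := by
    intro s hs z hz
    refine ContinuousAt.continuousWithinAt ?_
    have h1 : z - s ≠ 0 := by
      intro h
      have h2 := hT s hs
      rw [← sub_eq_zero.mp h, hz0 z hz] at h2
      exact lt_irrefl _ h2
    exact continuousAt_id.mul (continuousAt_const.div (continuousAt_id.sub continuousAt_const) h1)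
  have hi4 : ∀ s ∈ T, CircleIntegrable (fun z : ℂ => z * (1 / (z - s))) 0 (Real.exp (-x)) :=
    fun s hs => ContinuousOn.circleIntegrable hr.le (hcs s hs)
  have hfun : (fun z : ℂ => -(z * ∑ s ∈ T, ((a * |(ordZ U s : ℝ)| : ℝ) : ℂ) * (1 / (z - s)))) =
      fun z => ∑ s ∈ T, (-((a * |(ordZ U s : ℝ)| : ℝ) : ℂ)) • (z * (1 / (z - s))) := by
    funext z
    rw [Finset.mul_sum, ← Finset.sum_neg_distrib]
    refine Finset.sum_congr rfl fun s _ => ?_
    rw [smul_eq_mul]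
    ring
  have hi5 : CircleIntegrable (fun z : ℂ =>
      -(z * ∑ s ∈ T, ((a * |(ordZ U s : ℝ)| : ℝ) : ℂ) * (1 / (z - s)))) 0 (Real.exp (-x)) := by
    rw [hfun]
    refine CircleIntegrable.fun_sum T fun s hs => ?_
    exact (hi4 s hs).const_fun_smul
  have hav : Real.circleAverage (fun z : ℂ =>
      -(z * ∑ s ∈ T, ((a * |(ordZ U s : ℝ)| : ℝ) : ℂ) * (1 / (z - s)))) 0 (Real.exp (-x)) =
      ((-(a * ∑ s ∈ T, |(ordZ U s : ℝ)|) : ℝ) : ℂ) := by
    rw [hfun, Real.circleAverage_fun_sum fun s hs => (hi4 s hs).const_fun_smul]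
    have h1 : ∀ s ∈ T, Real.circleAverage (fun z : ℂ =>
        (-((a * |(ordZ U s : ℝ)| : ℝ) : ℂ)) • (z * (1 / (z - s)))) 0 (Real.exp (-x)) =
        -((a * |(ordZ U s : ℝ)| : ℝ) : ℂ) := by
      intro s hs
      rw [Real.circleAverage_fun_smul, Potential_avg_one (hT s hs), smul_eq_mul, mul_one]
    rw [Finset.sum_congr rfl h1, Finset.sum_neg_distrib, Finset.mul_sum]
    push_cast
    rfl
  have hre : Real.circleAverage (fun z : ℂ =>
      (-(z * ∑ s ∈ T, ((a * |(ordZ U s : ℝ)| : ℝ) : ℂ) * (1 / (z - s)))).re) 0 (Real.exp (-x)) =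
      -(a * ∑ s ∈ T, |(ordZ U s : ℝ)|) := by
    have h1 := Complex.reCLM.circleAverage_comp_comm hi5
    rw [hav] at h1
    rw [Complex.reCLM_apply, Complex.ofReal_re] at h1
    exact h1
  have hi6 : CircleIntegrable (fun z : ℂ =>
      (-(z * ∑ s ∈ T, ((a * |(ordZ U s : ℝ)| : ℝ) : ℂ) * (1 / (z - s)))).re) 0
      (Real.exp (-x)) := by
    refine ContinuousOn.circleIntegrable hr.le ?_
    refine Complex.continuous_re.comp_continuousOn ?_
    rw [hfun]
    refine continuousOn_finsetSum T fun s hs => ?_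
    exact continuousOn_const.mul (hcs s hs)
  have hK : mean (Potential_K W a U T) x =
      Real.circleAverage (fun z => W (Real.log ‖U z‖) * (-(z * (deriv U z / U z))).re) 0
        (Real.exp (-x)) + -(a * ∑ s ∈ T, |(ordZ U s : ℝ)|) := by
    unfold mean Potential_K
    rw [Real.circleAverage_fun_add hi1 hi6, hre]
  rw [hK]
  have h7 : Real.circleAverage (fun z => W (Real.log ‖U z‖) * (-(z * (deriv U z / U z))).re) 0
        (Real.exp (-x)) + -(a * ∑ s ∈ T, |(ordZ U s : ℝ)|) + a * ∑ s ∈ T, |(ordZ U s : ℝ)| =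
      Real.circleAverage (fun z => W (Real.log ‖U z‖) * (-(z * (deriv U z / U z))).re) 0
        (Real.exp (-x)) := by ring
  rw [h7]
  refine Real.abs_circleAverage_le_circleAverage_abs.trans ?_
  unfold mean
  refine Real.circleAverage_mono ?_ hi3 fun z _ => ?_
  · unfold CircleIntegrable at hi1 ⊢
    exact hi1.abs
  · rw [Pi.abs_apply, abs_mul]
    have h8 : |(-(z * (deriv U z / U z))).re| ≤ ‖z * deriv U z / U z‖ := by
      refine (Complex.abs_re_le_norm _).trans ?_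
      rw [norm_neg, mul_div_assoc]
    calc |W (Real.log ‖U z‖)| * |(-(z * (deriv U z / U z))).re|
        ≤ 1 * ‖z * deriv U z / U z‖ :=
          mul_le_mul (hd.W1 _) h8 (abs_nonneg _) zero_le_one
      _ = ‖z * deriv U z / U z‖ := one_mul _

/-- radii without zeros and poles -/
private theorem Potential_radii {R₀ : ℝ} (hR₀ : 0 < R₀) {u : ℂ → ℂ} (hu : MeroPunct R₀ u) :
    ∃ R₁ R₂ : ℝ, 0 < R₁ ∧ R₁ < R₂ ∧ R₂ < R₀ ∧ ∀ z, R₁ ≤ ‖z‖ → ‖z‖ ≤ R₂ → ordZ u z = 0 := by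
  have hfin : {s : ℂ | R₀ / 4 ≤ ‖s‖ ∧ ‖s‖ ≤ R₀ / 2 ∧ ordZ u s ≠ 0}.Finite :=
    Pool.Agent.H92.GGL.finite_ordZ (by linarith) (by linarith) hu.mero
  set A : Set ℝ := (fun s : ℂ => ‖s‖) '' {s : ℂ | R₀ / 4 ≤ ‖s‖ ∧ ‖s‖ ≤ R₀ / 2 ∧ ordZ u s ≠ 0}
    with hA
  have hAfin : A.Finite := hfin.image _
  have hinf : (Set.Ioo (R₀ / 4) (R₀ / 2) \ A).Infinite :=
    (Set.Ioo_infinite (by linarith)).sdiff hAfin
  obtain ⟨R₁, ⟨h1, h2⟩, h3⟩ := hinf.nonempty
  have hopen : Aᶜ ∈ 𝓝 R₁ := hAfin.isClosed.isOpen_compl.mem_nhds h3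
  obtain ⟨ε, hε, hε2⟩ := Metric.mem_nhds_iff.mp hopen
  refine ⟨R₁, min (R₁ + ε / 2) ((R₁ + R₀ / 2) / 2), by linarith, ?_, ?_, ?_⟩
  · exact lt_min (by linarith) (by linarith)
  · exact (min_le_right _ _).trans_lt (by linarith)
  · intro z hz1 hz2
    by_contra h0
    have h4 : ‖z‖ ∈ A := by
      refine ⟨z, ⟨by linarith, ?_, h0⟩, rfl⟩
      have := hz2.trans (min_le_right _ _)
      linarith
    refine hε2 ?_ h4
    rw [Metric.mem_ball, Real.dist_eq, abs_of_nonneg (by linarith)]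
    have := hz2.trans (min_le_left _ _)
    linarith

/-- The potential inequality. -/
theorem potential_ineq {R₀ : ℝ} (hR₀ : 0 < R₀) {u : ℂ → ℂ} (hu : MeroPunct R₀ u) :
    ∃ (R₁ C : ℝ), 0 < R₁ ∧ R₁ < R₀ ∧ ∀ (w : ℝ → ℝ) (M : ℝ), Continuous w → (∀ t, 0 ≤ w t) →
      (∀ t, w (-t) = w t) → 0 ≤ M → (∀ t, M ≤ t → w t = 0) → (∫ t in (0 : ℝ)..M, w t) ≤ 1 →
      ContinuousOn (fun y => mean (fun z => w (Real.log ‖u z‖) * ‖z * deriv u z / u z‖ ^ 2) y)
        (Set.Ici (-Real.log R₁)) ∧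
      ∀ x, -Real.log R₁ ≤ x →
        (∫ y in (-Real.log R₁)..x, (x - y) *
          mean (fun z => w (Real.log ‖u z‖) * ‖z * deriv u z / u z‖ ^ 2) y) ≤
        mean (fun z => |Real.log ‖u z‖|) x +
          cnt (fun s => |(ordZ u s : ℝ)|) R₁ (Real.exp (-x)) + C * (1 + |x|) := by
  obtain ⟨R₁, R₂, hR1, hR12, hR2, hfree⟩ := Potential_radii hR₀ hu
  obtain ⟨U, hU, hUu, hord⟩ := Potential_exists_nf hu
  have hpl : ∀ t : ℝ, Real.posLog t = max 0 (Real.log t) := fun t => rfl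
  set x₀ : ℝ := -Real.log R₁ with hx₀
  have hex₀ : Real.exp (-x₀) = R₁ := by rw [hx₀, neg_neg, Real.exp_log hR1]
  set C₀ : ℝ := mean (fun z => ‖z * deriv U z / U z‖) x₀ with hC₀
  have hC₀0 : 0 ≤ C₀ := Real.circleAverage_nonneg_of_nonneg fun z _ => norm_nonneg _
  refine ⟨R₁, C₀ * (1 + |x₀|), hR1, hR12.trans hR2, ?_⟩
  intro w M hw hw0 hwe hM hwz hwi
  obtain ⟨F, W, a, b, hd⟩ := Potential_data hw hw0 hwe hM hwz hwi
  have hder : ∀ z, 0 < ‖z‖ → ‖z‖ < R₀ → ∀ᶠ z' in 𝓝[≠] z, U z' = u z' ∧ deriv U z' = deriv u z' := by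
    intro z h1 h2
    have h3 := hUu z h1 h2
    have h4 : ∀ᶠ z' in 𝓝[≠] z, U =ᶠ[𝓝 z'] u := by
      rw [Filter.EventuallyEq, eventually_nhdsWithin_iff] at h3
      rw [eventually_nhdsWithin_iff]
      filter_upwards [h3.eventually_nhds] with z' e1 e2
      have e3 : ∀ᶠ y in 𝓝 z', y ≠ z := eventually_ne_nhds e2
      filter_upwards [e1, e3] with y k1 k2 using k1 k2
    filter_upwards [h4] with z' hz'
    exact ⟨hz'.self_of_nhds, hz'.deriv_eq⟩
  have hG : ∀ y, Real.exp (-y) < R₀ →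
      mean (fun z => w (Real.log ‖u z‖) * ‖z * deriv u z / u z‖ ^ 2) y =
        mean (Potential_L w U) y := by
    intro y hy
    refine Potential_mean_congr fun z hz => ?_
    filter_upwards [hder z (by rw [hz]; exact Real.exp_pos _) (by rw [hz]; exact hy)] with z' hz'
    unfold Potential_L
    rw [hz'.1, hz'.2]
  have hexle : ∀ y, x₀ ≤ y → Real.exp (-y) < R₀ := by
    intro y hy
    have h1 : Real.exp (-y) ≤ Real.exp (-x₀) := Real.exp_le_exp.mpr (by linarith)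
    rw [hex₀] at h1
    exact h1.trans_lt (hR12.trans hR2)
  constructor
  · have h1 : ContinuousOn (Real.circleAverage (Potential_L w U) 0) (Set.Ioo 0 R₀) := by
      refine Real.ContinuousOn.circleAverage (fun z hz => ?_) fun r hr => hr.1.le
      have hz' : 0 < ‖z‖ ∧ ‖z‖ < R₀ := by simpa using hz
      exact (Potential_cont hw hd.wbig hU hz'.1 hz'.2).continuousWithinAt
    have h2 : ContinuousOn (fun y : ℝ => Real.exp (-y)) (Set.Ici x₀) :=
      (Real.continuous_exp.comp continuous_neg).continuousOn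
    have h3 : ContinuousOn (fun y => Real.circleAverage (Potential_L w U) 0 (Real.exp (-y)))
        (Set.Ici x₀) := h1.comp h2 fun y hy => ⟨Real.exp_pos _, hexle y hy⟩
    exact h3.congr fun y hy => hG y (hexle y hy)
  · intro x hx
    -- the zeros and poles
    set β : ℝ := x + 1 with hβ
    set α : ℝ := -Real.log R₂ with hα
    have hR2pos : 0 < R₂ := hR1.trans hR12
    have heα : Real.exp (-α) = R₂ := by rw [hα, neg_neg, Real.exp_log hR2pos]
    have hαx₀ : α < x₀ := by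
      rw [hα, hx₀]
      linarith [Real.log_lt_log hR1 hR12]
    have hfinT : {s : ℂ | Real.exp (-β) ≤ ‖s‖ ∧ ‖s‖ ≤ R₁ ∧ ordZ u s ≠ 0}.Finite :=
      Pool.Agent.H92.GGL.finite_ordZ (Real.exp_pos _) (hR12.trans hR2) hu.mero
    set T : Finset ℂ := hfinT.toFinset with hTdef
    have hTmem : ∀ s, s ∈ T ↔ Real.exp (-β) ≤ ‖s‖ ∧ ‖s‖ ≤ R₁ ∧ ordZ u s ≠ 0 := by
      intro s
      rw [hTdef, Set.Finite.mem_toFinset]
      rfl
    have hTD : ∀ s ∈ T, 0 < ‖s‖ ∧ ‖s‖ < R₀ := by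
      intro s hs
      obtain ⟨h1, h2, -⟩ := (hTmem s).mp hs
      exact ⟨(Real.exp_pos _).trans_le h1, h2.trans_lt (hR12.trans hR2)⟩
    have hTU : ∀ s ∈ T, U s = 0 := by
      intro s hs
      obtain ⟨h1, h2⟩ := hTD s hs
      rw [hU.ord s h1 h2, hord s h1 h2]
      exact ((hTmem s).mp hs).2.2
    have hTlt : ∀ s ∈ T, ‖s‖ < R₁ := by
      intro s hs
      obtain ⟨h1, h2, h3⟩ := (hTmem s).mp hs
      refine lt_of_le_of_ne h2 fun h4 => h3 (hfree s h4.ge ?_)
      rw [h4]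
      exact hR12.le
    have hTc : ∀ z, Real.exp (-β) < ‖z‖ → ‖z‖ < Real.exp (-α) → U z = 0 → z ∈ T := by
      intro z h1 h2 h3
      rw [heα] at h2
      have h4 : 0 < ‖z‖ := (Real.exp_pos _).trans h1
      have h5 : ‖z‖ < R₀ := h2.trans hR2
      rw [hU.ord z h4 h5, hord z h4 h5] at h3
      rw [hTmem]
      refine ⟨h1.le, ?_, h3⟩
      by_contra h6
      exact h3 (hfree z (not_le.mp h6).le h2.le)
    have hne : ∀ z, ‖z‖ = Real.exp (-x₀) → U z ≠ 0 := by
      intro z hz h0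
      rw [hex₀] at hz
      have h4 : 0 < ‖z‖ := by rw [hz]; exact hR1
      have h5 : ‖z‖ < R₀ := by rw [hz]; exact hR12.trans hR2
      rw [hU.ord z h4 h5, hord z h4 h5] at h0
      exact h0 (hfree z hz.ge (by rw [hz]; exact hR12.le))
    have hid := Potential_identity hd hU hTU (α := α) (β := β) (by rw [heα]; exact hR2.le) hTc
      (x₀ := x₀) (x := x) ⟨hαx₀, by rw [hβ]; linarith⟩ ⟨hαx₀.trans_le hx, by rw [hβ]; linarith⟩ hne
    obtain ⟨hg1, hg2, hg3⟩ := Potential_mean_g hd hU T (hexle x hx)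
    obtain ⟨hg4, hg5, hg6⟩ := Potential_mean_g hd hU T (hexle x₀ le_rfl)
    have hK := Potential_mean_K hd hU (T := T) (hexle x₀ le_rfl) hne
      (fun s hs => by rw [hex₀]; exact hTlt s hs)
    rw [hg1, hg4] at hid
    have hint : (∫ y in x₀..x, (x - y) *
        mean (fun z => w (Real.log ‖u z‖) * ‖z * deriv u z / u z‖ ^ 2) y) =
        ∫ y in x₀..x, (x - y) * mean (Potential_L w U) y := by
      apply intervalIntegral.integral_congr
      intro y hy
      rw [Set.uIcc_of_le hx] at hy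
      simp only [hG y (hexle y hy.1)]
    have habs : mean (fun z => |Real.log ‖U z‖|) x = mean (fun z => |Real.log ‖u z‖|) x := by
      refine Potential_mean_congr fun z hz => ?_
      filter_upwards [hUu z (by rw [hz]; exact Real.exp_pos _) (by rw [hz]; exact hexle x hx)]
        with z' hz'
      rw [hz']
    -- the counting function
    have hcnt : cnt (fun s => |(ordZ u s : ℝ)|) R₁ (Real.exp (-x)) =
        ∑ s ∈ T, |(ordZ U s : ℝ)| * Real.posLog (‖s‖ / Real.exp (-x)) := by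
      rw [cnt_eq_sum (T := T) ?_ (Real.exp_pos _), Finset.sum_filter]
      · refine Finset.sum_congr rfl fun s hs => ?_
        have hs2 := hTlt s hs
        obtain ⟨k1, k2⟩ := hTD s hs
        rw [hord s k1 k2, hpl]
        by_cases h1 : Real.exp (-x) < ‖s‖
        · rw [if_pos ⟨h1, hs2⟩, max_eq_right]
          exact Real.log_nonneg ((one_le_div (Real.exp_pos _)).mpr h1.le)
        · rw [if_neg fun h => h1 h.1, max_eq_left, mul_zero]
          exact Real.log_nonpos (div_nonneg (norm_nonneg _) (Real.exp_pos _).le)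
            ((div_le_one (Real.exp_pos _)).mpr (not_lt.mp h1))
      · intro s h1 h2 h3
        rw [hTmem]
        refine ⟨?_, h2.le, ?_⟩
        · have : Real.exp (-β) ≤ Real.exp (-x) := Real.exp_le_exp.mpr (by rw [hβ]; linarith)
          exact this.trans h1.le
        · intro h4
          exact h3 (by rw [h4]; simp)
    have hpos0 : ∀ s ∈ T, Real.posLog (‖s‖ / Real.exp (-x₀)) = 0 := by
      intro s hs
      rw [hpl, max_eq_left]
      rw [hex₀]
      exact Real.log_nonpos (div_nonneg (norm_nonneg _) hR1.le)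
        ((div_le_one hR1).mpr (hTlt s hs).le)
    have hs1 : ∑ s ∈ T, |(ordZ U s : ℝ)| * (-x + Real.posLog (‖s‖ / Real.exp (-x))) =
        -x * (∑ s ∈ T, |(ordZ U s : ℝ)|) + cnt (fun s => |(ordZ u s : ℝ)|) R₁ (Real.exp (-x)) := by
      rw [hcnt, Finset.mul_sum, ← Finset.sum_add_distrib]
      refine Finset.sum_congr rfl fun s _ => ?_
      ring
    have hs2 : ∑ s ∈ T, |(ordZ U s : ℝ)| * (-x₀ + Real.posLog (‖s‖ / Real.exp (-x₀))) =
        -x₀ * (∑ s ∈ T, |(ordZ U s : ℝ)|) := by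
      rw [Finset.mul_sum]
      refine Finset.sum_congr rfl fun s hs => ?_
      rw [hpos0 s hs]
      ring
    rw [hs1, hs2] at hid
    have hcnt0 : 0 ≤ cnt (fun s => |(ordZ u s : ℝ)|) R₁ (Real.exp (-x)) := by
      rw [hcnt]
      exact Finset.sum_nonneg fun s _ => mul_nonneg (abs_nonneg _) Real.posLog_nonneg
    rw [hint, ← habs]
    set N : ℝ := ∑ s ∈ T, |(ordZ U s : ℝ)| with hN
    have hKle := (abs_le.mp hK).1
    have hxx : 0 ≤ x - x₀ := by linarith
    have h1 : -(mean (Potential_K W a U T) x₀ + a * N) * (x - x₀) ≤ C₀ * (x - x₀) :=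
      mul_le_mul_of_nonneg_right (by linarith) hxx
    have h2 : a * cnt (fun s => |(ordZ u s : ℝ)|) R₁ (Real.exp (-x)) ≤
        cnt (fun s => |(ordZ u s : ℝ)|) R₁ (Real.exp (-x)) := by
      have := mul_le_mul_of_nonneg_right hd.a1 hcnt0
      linarith
    have h3 : C₀ * (x - x₀) ≤ C₀ * (1 + |x₀|) * (1 + |x|) := by
      rw [mul_assoc]
      refine mul_le_mul_of_nonneg_left ?_ hC₀0
      have e1 := le_abs_self x
      have e2 := neg_le_abs x₀
      have e3 := abs_nonneg x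
      have e4 := abs_nonneg x₀
      have e5 : (1 + |x₀|) * (1 + |x|) = 1 + |x| + |x₀| + |x₀| * |x| := by ring
      rw [e5]
      linarith [mul_nonneg e4 e3]
    linarith [hid, h1, h2, h3, hg3, hg5]

end Pool.Agent.H62.FC

end
end
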