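import Pool.Agent.H94.G4T.G3.C.QFa
import Pool.Agent.H94.G4T.M25
import Pool.Agent.H94.G4T.M47
import Pool.Agent.H94.G4T.M63
import Pool.Agent.H94.G4T.M69
import Pool.Agent.H94.G4T.M79
import Pool.Agent.H94.G4T.M80
import Pool.Agent.H94.G4T.M95
import Pool.Agent.H94.G4T.M99

/-! The parts of this file: G4.C.QFt, G4.Z.Arc, TG.Zl, TG.SbA, TG.SbB. -/

section

/-!
# G4 C QFt: the jet form in a straight chart is not identically `0`

As in `G3/C/QFt`, with the curve of `ThP.thin` near the point `χ.σ (cz b ν a c ρ x s₁ z₁)` over `b + s₁ ν + z₁ a ∉ Nν`: its base point is exactly this point (`Lat.disc`).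
-/

set_option autoImplicit false

open Topology Filter Metric

namespace Pool.Agent.G4.C

open Pool.Agent.H36.BP (EN fs wd)
open Pool.Agent.H14.PP (IsCone)
open Pool.Agent.H62.EF (MN pr)
open Pool.Agent.AD (Vd Chart Charts)
open Pool.Agent.TG (TMap Lat Str ms tl)
open Pool.Agent.G3.C

variable {N k : ℕ} {X : Set (EN N)} {Λ : AddSubgroup (Vd (k + 1))} {u : EN N → Vd (k + 1)} {ν a b c : Vd (k + 1)} {m : ℕ} {ρ : ℝ}

private theorem eq_cz (hρ : 0 < ρ) {p : Vd (k + 2)} {s z : ℂ} (h : ms c ρ p = b + s • ν + z • a) : p = cz b ν a c ρ (p 0) s z := by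
  have h0 : (ρ : ℂ) ≠ 0 := by exact_mod_cast hρ.ne'
  funext i
  refine Fin.cases rfl (fun j => ?_) i
  have h1 : c j + (ρ : ℂ) * p j.succ = b j + s * ν j + z * a j := congrFun h j
  change p j.succ = (ρ : ℂ)⁻¹ * (b j + s * ν j + z * a j - c j)
  rw [← h1]
  field_simp
  ring

private theorem cz_sub_le (x x' s z : ℂ) : ‖cz b ν a c ρ x s z - cz b ν a c ρ x' s z‖ ≤ ‖x - x'‖ := by
  rw [pi_norm_le_iff_of_nonneg (norm_nonneg _)]
  intro i
  refine Fin.cases le_rfl (fun j => ?_) i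
  change ‖tz b ν a c ρ s z j - tz b ν a c ρ s z j‖ ≤ ‖x - x'‖
  rw [sub_self, norm_zero]
  exact norm_nonneg _

theorem QF_ne (hX : IsCone X) (hu : TMap X Λ u) (hΛ : Lat Λ) {P : JForm X Λ u ν m} {Nν : Set (Vd (k + 1))} (hP : ThP P a Nν)
    {χ : Chart (k + 2) X} (hs : Str Λ u χ c ρ) {x s₁ z₁ : ℂ} (hx : cz b ν a c ρ x s₁ z₁ ∈ ball (0 : Vd (k + 2)) 2) (hy : b + s₁ • ν + z₁ • a ∉ Nν) :
    ∃ q ∈ OD b ν a c ρ m, QF P b a χ c ρ q ≠ 0 := by
  set p₁ := cz b ν a c ρ x s₁ z₁ with hp₁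
  obtain ⟨hxX, hxU, hxq⟩ := χ.σ_mem p₁ hx
  have hms1 : ms c ρ p₁ = b + s₁ • ν + z₁ • a := ms_cz hs.pos x s₁ z₁
  have hu1 : u (χ.σ p₁) - (b + s₁ • ν + z₁ • a) ∈ Λ := by
    rw [← hms1]
    exact hs.lift p₁ hx
  obtain ⟨δ₀, hδ₀, hdisc₀⟩ := hΛ.disc
  -- the neighbourhood
  have hnb : {x' : EN N | x' ∈ χ.U ∧ ‖ms c ρ (χ.q x') - ms c ρ p₁‖ < δ₀} ∈ 𝓝 (χ.σ p₁) := by
    have h1 : Continuous (fun p : Vd (k + 2) => ms c ρ p) := by
      unfold ms tl
      fun_prop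
    have h2 : ContinuousAt (fun x' : EN N => ‖ms c ρ (χ.q x') - ms c ρ p₁‖) (χ.σ p₁) :=
      ((ContinuousAt.comp (g := fun p : Vd (k + 2) => ms c ρ p) (f := χ.q) h1.continuousAt (χ.q_an _ hxU).continuousAt).sub continuousAt_const).norm
    have h3 : ∀ᶠ x' in 𝓝 (χ.σ p₁), ‖ms c ρ (χ.q x') - ms c ρ p₁‖ < δ₀ := by
      refine h2.eventually_lt_const ?_
      show ‖ms c ρ (χ.q (χ.σ p₁)) - ms c ρ p₁‖ < δ₀
      rw [hxq, sub_self, norm_zero]
      exact hδ₀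
    filter_upwards [χ.isOpen_U.mem_nhds hxU, h3] with x' h4 h5
    exact ⟨h4, h5⟩
  obtain ⟨φ, hφ, ⟨hφU, hφδ⟩, hφu, hne⟩ := hP.thin _ hy (χ.σ p₁) hxX hu1 _ hnb
  obtain ⟨hφan, hφev⟩ := hφ
  -- the coordinates of the curve
  set p : ℂ → Vd (k + 2) := fun t => χ.q (φ t) with hp
  have hpan : AnalyticAt ℂ p 0 := AnalyticAt.fun_comp (g := χ.q) (f := φ) (χ.q_an (φ 0) hφU) hφan
  have hφX : φ 0 ∈ X := hφev.self_of_nhds.1
  have hUev : ∀ᶠ t in 𝓝 (0 : ℂ), φ t ∈ χ.U := hφan.continuousAt.eventually (χ.isOpen_U.mem_nhds hφU)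
  have hp0 : p 0 ∈ ball (0 : Vd (k + 2)) 2 := (χ.surj _ hφX hφU).1
  have hψan : AnalyticAt ℂ (fun t => χ.σ (p t)) 0 := AnalyticAt.fun_comp (g := χ.σ) (f := p) (χ.σ_an _ hp0) hpan
  have hpball : ∀ᶠ t in 𝓝 (0 : ℂ), p t ∈ ball (0 : Vd (k + 2)) 2 := hpan.continuousAt.eventually (isOpen_ball.mem_nhds hp0)
  -- the factor
  have hφ0 : φ 0 ≠ 0 := fun h => hX.zero_notMem (h ▸ hφX)
  obtain ⟨ℓ, hℓ⟩ : ∃ ℓ : EN N →L[ℂ] ℂ, ℓ (φ 0) = 1 := by
    have hne : inner ℂ (φ 0) (φ 0) ≠ (0 : ℂ) := inner_self_ne_zero.mpr hφ0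
    refine ⟨(inner ℂ (φ 0) (φ 0) : ℂ)⁻¹ • innerSL ℂ (φ 0), ?_⟩
    simp only [_root_.smul_apply, innerSL_apply_apply, smul_eq_mul]
    exact inv_mul_cancel₀ hne
  obtain ⟨c0, hc0, hc0e⟩ := (χ.surj _ hφX hφU).2
  have hℓσ0 : ℓ (χ.σ (p 0)) ≠ 0 := by
    intro h
    have h1 : ℓ (φ 0) = c0 * ℓ (χ.σ (p 0)) := by
      conv_lhs => rw [hc0e]
      rw [map_smul, smul_eq_mul]
    rw [hℓ, h, mul_zero] at h1
    exact one_ne_zero h1
  have hℓφan : AnalyticAt ℂ (fun t => ℓ (φ t)) 0 := AnalyticAt.fun_comp (g := fun x => ℓ x) (f := φ) (ℓ.analyticAt _) hφan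
  have hℓψan : AnalyticAt ℂ (fun t => ℓ (χ.σ (p t))) 0 := AnalyticAt.fun_comp (g := fun x => ℓ x) (f := fun t => χ.σ (p t)) (ℓ.analyticAt _) hψan
  set α : ℂ → ℂ := fun t => ℓ (φ t) / ℓ (χ.σ (p t)) with hα
  have hαan : AnalyticAt ℂ α 0 := hℓφan.fun_div hℓψan hℓσ0
  have hα0 : α 0 ≠ 0 := by
    simp only [hα, hℓ]
    exact div_ne_zero one_ne_zero hℓσ0
  have hαne : ∀ᶠ t in 𝓝 (0 : ℂ), α t ≠ 0 := hαan.continuousAt.eventually_ne hα0
  have hφα : ∀ᶠ t in 𝓝 (0 : ℂ), φ t = α t • χ.σ (p t) := by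
    filter_upwards [hφev, hUev, hℓψan.continuousAt.eventually_ne hℓσ0] with t h1 h2 h3
    obtain ⟨c1, -, hc1⟩ := (χ.surj _ h1.1 h2).2
    have h4 : ℓ (φ t) = c1 * ℓ (χ.σ (p t)) := by
      conv_lhs => rw [hc1]
      rw [map_smul, smul_eq_mul]
    have h5 : α t = c1 := by
      simp only [hα]
      rw [h4, mul_div_cancel_right₀ _ h3]
    rw [h5]
    exact hc1
  -- the curve in the chart
  have hψΛ : ∀ᶠ t in 𝓝 (0 : ℂ), u (φ t) - u (χ.σ (p t)) ∈ Λ := by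
    filter_upwards [hφα, hαne, hpball] with t h1 h2 h3
    rw [h1]
    exact hu.smul _ (χ.σ_mem _ h3).1 _ h2
  have hψdir : DirC X Λ u ν (fun t => χ.σ (p t)) := by
    refine ⟨hψan, ?_⟩
    filter_upwards [hφev, hψΛ, hpball] with t h1 h2 h3
    refine ⟨(χ.σ_mem _ h3).1, ?_⟩
    have h4 := hψΛ.self_of_nhds
    have h5 : u (χ.σ (p t)) - (u (χ.σ (p 0)) + t • ν) = (u (φ t) - (u (φ 0) + t • ν)) - (u (φ t) - u (χ.σ (p t))) + (u (φ 0) - u (χ.σ (p 0))) := by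
      abel
    rw [h5]
    exact Λ.add_mem (Λ.sub_mem h1.2 h2) h4
  have hPψ : P.toFun (jt m fun t => χ.σ (p t)) ≠ 0 := by
    intro h
    have h1 : jt m φ = jt m fun t => α t • χ.σ (p t) := by
      funext j
      exact Filter.EventuallyEq.iteratedDeriv_eq (j : ℕ) hφα
    rw [h1, P.scale _ hψdir α hαan hα0, h, mul_zero] at hne
    exact hne rfl
  -- the base coordinates
  have hms : ∀ᶠ t in 𝓝 (0 : ℂ), ms c ρ (p t) = ms c ρ (p 0) + t • ν := by
    obtain ⟨δ, hδ, hdisc⟩ := hΛ.disc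
    have hcont : ContinuousAt (fun t : ℂ => ms c ρ (p t) - (ms c ρ (p 0) + t • ν)) 0 := by
      have h1 : Continuous (fun p : Vd (k + 2) => ms c ρ p) := by
        unfold ms tl
        fun_prop
      exact (ContinuousAt.comp (g := fun p : Vd (k + 2) => ms c ρ p) (f := p) h1.continuousAt hpan.continuousAt).sub (by fun_prop)
    have hz : (fun t : ℂ => ms c ρ (p t) - (ms c ρ (p 0) + t • ν)) 0 ∈ ball (0 : Vd (k + 1)) δ := by
      simp [hδ]
    filter_upwards [hcont.eventually (isOpen_ball.mem_nhds hz), hψdir.2, hpball] with t h1 h2 h3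
    have h4 : ms c ρ (p t) - (ms c ρ (p 0) + t • ν) ∈ Λ := by
      have h5 : ms c ρ (p t) - (ms c ρ (p 0) + t • ν) =
          (u (χ.σ (p t)) - (u (χ.σ (p 0)) + t • ν)) - (u (χ.σ (p t)) - ms c ρ (p t)) + (u (χ.σ (p 0)) - ms c ρ (p 0)) := by
        abel
      rw [h5]
      exact Λ.add_mem (Λ.sub_mem h2.2 (hs.lift _ h3)) (hs.lift _ hp0)
    exact sub_eq_zero.1 (hdisc _ h4 (mem_ball_zero_iff.1 h1))
  obtain ⟨s₀, hs₀⟩ : ∃ s₀ : ℂ, s₀ = s₁ := ⟨_, rfl⟩
  obtain ⟨z₀, hz₀⟩ : ∃ z₀ : ℂ, z₀ = z₁ := ⟨_, rfl⟩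
  have hsz' : ms c ρ (p 0) = b + s₀ • ν + z₀ • a := by
    rw [hs₀, hz₀, ← hms1]
    refine sub_eq_zero.1 (hdisc₀ _ ?_ hφδ)
    have h1 := hs.lift (p 0) hp0
    have h2 := hψΛ.self_of_nhds
    have h3 : ms c ρ (p 0) - ms c ρ p₁ = (u (φ 0) - (b + s₁ • ν + z₁ • a)) - (u (φ 0) - u (χ.σ (p 0))) - (u (χ.σ (p 0)) - ms c ρ (p 0)) := by
      rw [hms1]
      abel
    rw [h3]
    exact Λ.sub_mem (Λ.sub_mem hφu h2) h1
  have hpcz : ∀ᶠ t in 𝓝 (0 : ℂ), p t = cz b ν a c ρ (p t 0) (s₀ + t) z₀ := by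
    filter_upwards [hms] with t h1
    refine eq_cz hs.pos ?_
    rw [h1, hsz', add_smul]
    abel
  -- the jet
  have hgan : AnalyticAt ℂ (fun t => p t 0) 0 := analyticAt_pi_iff.1 hpan 0
  obtain ⟨C, δ, hδ, hC⟩ := hol_taylor hgan m
  set v : Fin (m + 1) → ℂ := fun j => iteratedDeriv j (fun t => p t 0) 0 with hv
  have hv0 : v 0 = p 0 0 := by
    simp only [hv, Fin.val_zero, iteratedDeriv_zero]
  have hcz0 : cz b ν a c ρ (v 0) s₀ z₀ = p 0 := by
    have h1 := hpcz.self_of_nhds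
    rw [add_zero] at h1
    rw [hv0]
    exact h1.symm
  have hqOD : (s₀, z₀, v) ∈ OD b ν a c ρ m := by
    change cz b ν a c ρ (v 0) s₀ z₀ ∈ ball (0 : Vd (k + 2)) 2
    rw [hcz0]
    exact hp0
  refine ⟨(s₀, z₀, v), hqOD, ?_⟩
  have hjt : jt m (crv b ν a χ c ρ (s₀, z₀, v)) = jt m fun t => χ.σ (p t) := by
    obtain ⟨K, S, hS, hK⟩ := (χ.σ_an _ hp0).hasStrictFDerivAt.exists_lipschitzOnWith
    have hczan : AnalyticAt ℂ (fun t : ℂ => cz b ν a c ρ (pol v t) (s₀ + t) z₀) 0 :=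
      cz_analytic (pol_analytic analyticAt_const analyticAt_id) (analyticAt_const.add analyticAt_id) analyticAt_const
    have hS1 : ∀ᶠ t in 𝓝 (0 : ℂ), cz b ν a c ρ (pol v t) (s₀ + t) z₀ ∈ S := by
      refine hczan.continuousAt.eventually ?_
      have h1 : cz b ν a c ρ (pol v 0) (s₀ + 0) z₀ = p 0 := by rw [pol_zero, add_zero, hcz0]
      change S ∈ 𝓝 (cz b ν a c ρ (pol v 0) (s₀ + 0) z₀)
      rw [h1]
      exact hS
    have hS2 : ∀ᶠ t in 𝓝 (0 : ℂ), p t ∈ S := hpan.continuousAt.eventually hS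
    obtain ⟨r, hr, hall⟩ := Metric.eventually_nhds_iff_ball.mp ((hS1.and hS2).and hpcz)
    refine jt_eq_of_bound (crv_dir hs hqOD).1 hψan (C := K * C) (δ := min δ r) (lt_min hδ hr) fun t ht => ?_
    have htb : (t : ℂ) ∈ ball (0 : ℂ) r := by
      rw [mem_ball_zero_iff, Complex.norm_real, Real.norm_of_nonneg ht.1.le]
      exact ht.2.trans_le (min_le_right _ _)
    obtain ⟨⟨h1, h2⟩, h3⟩ := hall _ htb
    have h4 := hK.norm_sub_le h1 h2
    have h5 : ‖cz b ν a c ρ (pol v t) (s₀ + t) z₀ - p t‖ ≤ ‖pol v t - p t 0‖ := by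
      conv_lhs => rw [h3]
      exact cz_sub_le _ _ _ _
    have h6 := hC t ⟨ht.1, ht.2.trans_le (min_le_left _ _)⟩
    rw [norm_sub_rev] at h6
    calc ‖crv b ν a χ c ρ (s₀, z₀, v) t - χ.σ (p t)‖ ≤ K * ‖cz b ν a c ρ (pol v t) (s₀ + t) z₀ - p t‖ := h4
      _ ≤ K * (C * t ^ (m + 1)) := mul_le_mul_of_nonneg_left (h5.trans h6) K.2
      _ = K * C * t ^ (m + 1) := by ring
  unfold QF
  rw [hjt]
  exact hPψ

end Pool.Agent.G4.C

end

section

/-!
# G4 Z Arc: sections over arcs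

`sec_arc`: `Φ` a section of the finite set `S`, `γ` holomorphic on `ball 0 R` with `γ w ∉ D` outside a discrete set.  Over `ball 0 r`, `r < R`, the section lifts to a curve `G` with `pr (G z) = Φ (γ z)`, `γ z ∉ D`.

Proof.  Near `z₀` (`arc_loc`): `φ` the lift of `Csf.mer` at `y₀ = γ z₀`, `v` a vector with `φ (y₀ + v) ≠ 0`, `c m` the derivative of order `m` of `φ` in the direction `v`; `m` minimal such that `c m ∘ γ` is not `0` near `z₀`.
Then `φ (γ z + t v) = t ^ m (c m (γ z) / m! + ...)` and so `Φ (γ z) = pr (c m (γ z))` for `z ≠ z₀` near `z₀`.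
Global: the columns of the matrix `Φ (γ z)`, divided by the diagonal element, are meromorphic vector functions; divide by zeros and poles.
-/

set_option autoImplicit false

open Topology Filter Metric

namespace Pool.Agent.G4

open Pool.Agent.H36.BP (EN fs wd Sub)
open Pool.Agent.H14.PP (IsCone CurveAt Tan)
open Pool.Agent.H62.EF (MN pr)
open Pool.Agent.AD (Vd Chart Charts)
open Pool.Agent.TG (TMap Lat Geo Gd)
open Pool.Agent.G3 (Cv)

variable {N k : ℕ}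

/-- the derivative in the direction `v` -/
private noncomputable def dv (v : Vd (k + 1)) (φ : Vd (k + 1) → EN N) : Vd (k + 1) → EN N := fun y => fderiv ℂ φ y v

private theorem dv_an {v : Vd (k + 1)} {φ : Vd (k + 1) → EN N} {y : Vd (k + 1)} (h : AnalyticAt ℂ φ y) : AnalyticAt ℂ (dv v φ) y :=
  ((ContinuousLinearMap.apply ℂ (EN N) v).analyticAt (fderiv ℂ φ y)).comp_of_eq h.fderiv rfl

private theorem dv_it (v : Vd (k + 1)) (n : ℕ) {φ : Vd (k + 1) → EN N} {y : Vd (k + 1)} (h : AnalyticAt ℂ φ y) : AnalyticAt ℂ ((dv v)^[n] φ) y := by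
  induction n generalizing φ with
  | zero => exact h
  | succ n ih =>
    rw [Function.iterate_succ_apply]
    exact ih (dv_an h)

private theorem line_an (y v : Vd (k + 1)) (t : ℂ) : AnalyticAt ℂ (fun w : ℂ => y + w • v) t :=
  analyticAt_const.add (analyticAt_id.smul analyticAt_const)

private theorem line_ev {P : Vd (k + 1) → Prop} {y : Vd (k + 1)} (v : Vd (k + 1)) (h : ∀ᶠ z in 𝓝 y, P z) : ∀ᶠ t in 𝓝 (0 : ℂ), P (y + t • v) := by
  have h1 : Tendsto (fun t : ℂ => y + t • v) (𝓝 0) (𝓝 y) := by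
    have h2 := (line_an y v 0).continuousAt.tendsto
    rwa [zero_smul, add_zero] at h2
  exact h1.eventually h

private theorem dv_coef (v : Vd (k + 1)) (n : ℕ) : ∀ {φ : Vd (k + 1) → EN N} {g : ℂ → EN N} {y : Vd (k + 1)}, AnalyticAt ℂ φ y → AnalyticAt ℂ g 0 →
    (∀ᶠ t in 𝓝 (0 : ℂ), φ (y + t • v) = t ^ n • g t) → (dv v)^[n] φ y = (n.factorial : ℂ) • g 0 := by
  induction n with
  | zero =>
    intro φ g y hφ hg h
    have h1 := h.self_of_nhds
    rw [zero_smul, add_zero, pow_zero, one_smul] at h1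
    rw [Function.iterate_zero_apply, h1, Nat.factorial_zero, Nat.cast_one, one_smul]
  | succ n ih =>
    intro φ g y hφ hg h
    rw [Function.iterate_succ_apply]
    have h1 : (fun t : ℂ => φ (y + t • v)) =ᶠ[𝓝 0] fun t => t ^ (n + 1) • g t := h
    have h2 := h1.deriv
    have key : ∀ᶠ t in 𝓝 (0 : ℂ), dv v φ (y + t • v) = t ^ n • (((n : ℂ) + 1) • g t + t • deriv g t) := by
      filter_upwards [h2, line_ev v hφ.eventually_analyticAt, hg.eventually_analyticAt] with t t1 t2 t3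
      have e1 : HasDerivAt (fun t : ℂ => y + t • v) v t := by
        have := (((hasDerivAt_id t).smul_const v).const_add y)
        rwa [one_smul] at this
      have e2 : deriv (fun t : ℂ => φ (y + t • v)) t = dv v φ (y + t • v) :=
        (t2.differentiableAt.hasFDerivAt.comp_hasDerivAt t e1).deriv
      have e3 : HasDerivAt (fun t : ℂ => t ^ (n + 1) • g t) (t ^ (n + 1) • deriv g t + (((n : ℂ) + 1) * t ^ n) • g t) t := by
        have := (hasDerivAt_pow (n + 1) t).smul t3.differentiableAt.hasDerivAt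
        rwa [Nat.add_sub_cancel, Nat.cast_add, Nat.cast_one] at this
      rw [← e2, t1, e3.deriv, smul_add, smul_smul, smul_smul, pow_succ, add_comm, mul_comm ((n : ℂ) + 1)]
    have hg1 : AnalyticAt ℂ (fun t => ((n : ℂ) + 1) • g t + t • deriv g t) 0 :=
      AnalyticAt.add (f := fun t => ((n : ℂ) + 1) • g t) (g := fun t => t • deriv g t) (AnalyticAt.smul (f := fun _ : ℂ => ((n : ℂ) + 1)) analyticAt_const hg)
        (AnalyticAt.smul (f := fun t : ℂ => t) analyticAt_id hg.deriv)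
    have h3 := ih (g := fun t => ((n : ℂ) + 1) • g t + t • deriv g t) (dv_an hφ) hg1 key
    rw [h3]
    simp only [zero_smul, add_zero]
    rw [smul_smul, Nat.factorial_succ]
    push_cast
    rw [mul_comm]

private theorem dv_lt {v : Vd (k + 1)} {n j : ℕ} (hj : j < n) {φ : Vd (k + 1) → EN N} {g : ℂ → EN N} {y : Vd (k + 1)} (hφ : AnalyticAt ℂ φ y) (hg : AnalyticAt ℂ g 0)
    (h : ∀ᶠ t in 𝓝 (0 : ℂ), φ (y + t • v) = t ^ n • g t) : (dv v)^[j] φ y = 0 := by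
  have h1 := dv_coef v j (g := fun t => t ^ (n - j) • g t) hφ ((analyticAt_id.pow _).smul hg) (by
    filter_upwards [h] with t ht
    rw [ht, smul_smul, ← pow_add]
    congr 2
    omega)
  rw [h1, zero_pow (by omega), zero_smul, smul_zero]

/-- the leading coefficient -/
private theorem dv_lead {v : Vd (k + 1)} {m : ℕ} {φ : Vd (k + 1) → EN N} {y : Vd (k + 1)} (hφ : AnalyticAt ℂ φ y) (h0 : ∀ j < m, (dv v)^[j] φ y = 0)
    (h1 : (dv v)^[m] φ y ≠ 0) :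
    (∀ᶠ t in 𝓝[≠] (0 : ℂ), φ (y + t • v) ≠ 0) ∧ Tendsto (fun t : ℂ => pr (φ (y + t • v))) (𝓝[≠] 0) (𝓝 (pr ((dv v)^[m] φ y))) := by
  have hf : AnalyticAt ℂ (fun t : ℂ => φ (y + t • v)) 0 := hφ.comp_of_eq (line_an y v 0) (by simp)
  have hne : ¬ ∀ᶠ t in 𝓝 (0 : ℂ), φ (y + t • v) = 0 := by
    intro h
    refine h1 ?_
    have := dv_coef v m (g := fun _ => 0) hφ analyticAt_const (by
      filter_upwards [h] with t ht
      rw [ht, smul_zero])
    rw [this, smul_zero]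
  obtain ⟨n, g, hg, hg0, hge⟩ := hf.exists_eventuallyEq_pow_smul_nonzero_iff.2 hne
  simp only [sub_zero] at hge
  have hn := dv_coef v n hφ hg hge
  have hnf : (n.factorial : ℂ) ≠ 0 := by exact_mod_cast n.factorial_ne_zero
  have hmn : m = n := by
    rcases lt_trichotomy m n with h | h | h
    · exact absurd (dv_lt h hφ hg hge) h1
    · exact h
    · exfalso
      have := h0 n h
      rw [hn, smul_eq_zero] at this
      exact this.elim hnf hg0
  subst hmn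
  have hgc : ∀ᶠ t in 𝓝 (0 : ℂ), g t ≠ 0 := hg.continuousAt.eventually_ne hg0
  have hpw : ∀ᶠ t in 𝓝[≠] (0 : ℂ), t ^ m ≠ 0 := by
    filter_upwards [self_mem_nhdsWithin] with t ht
    exact pow_ne_zero _ ht
  constructor
  · filter_upwards [hge.filter_mono nhdsWithin_le_nhds, hgc.filter_mono nhdsWithin_le_nhds, hpw] with t t1 t2 t3
    rw [t1]
    exact smul_ne_zero t3 t2
  · rw [hn, Pool.Agent.H62.EF.pr_smul _ hnf]
    have hc : Tendsto (fun t => pr (g t)) (𝓝[≠] (0 : ℂ)) (𝓝 (pr (g 0))) :=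
      (ContinuousAt.comp (g := fun x : EN N => pr x) (Pool.Agent.H62.EF.continuousAt_pr hg0) hg.continuousAt).tendsto.mono_left nhdsWithin_le_nhds
    refine hc.congr' ?_
    filter_upwards [hge.filter_mono nhdsWithin_le_nhds, hpw] with t t1 t3
    rw [t1, Pool.Agent.H62.EF.pr_smul _ t3]

variable {X : Set (EN N)} {Λ : AddSubgroup (Vd (k + 1))} {u : EN N → Vd (k + 1)} {D : Set (Vd (k + 1))} {S : Set (Vd (k + 1) → MN N)}

/-- the sections are continuous off `D` -/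
theorem Csf.cont (hX : IsCone X) (hS : Csf X Λ u D S) {Φ : Vd (k + 1) → MN N} (hΦ : Φ ∈ S) {y : Vd (k + 1)} (hy : y ∉ D) : ContinuousAt Φ y := by
  obtain ⟨φ, hφ, hφe⟩ := hS.hol Φ hΦ y hy
  have h0 : φ y ≠ 0 := Pool.Agent.TG.ne_zero hX hφe.self_of_nhds.1
  have h1 : ContinuousAt (fun z => pr (φ z)) y :=
    ContinuousAt.comp (g := fun x : EN N => pr x) (Pool.Agent.H62.EF.continuousAt_pr h0) hφ.continuousAt
  refine h1.congr ?_
  filter_upwards [hφe] with z hz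
  exact hz.2.1.symm

/-- local lift over an arc -/
private theorem arc_loc (hX : IsCone X) (hDc : IsClosed D) (hS : Csf X Λ u D S) {Φ : Vd (k + 1) → MN N} (hΦ : Φ ∈ S) {γ : ℂ → Vd (k + 1)} {z₀ : ℂ}
    (hγ : AnalyticAt ℂ γ z₀) (hγD : ∀ᶠ w in 𝓝[≠] z₀, γ w ∉ D) :
    ∃ H : ℂ → EN N, AnalyticAt ℂ H z₀ ∧ ∀ᶠ w in 𝓝[≠] z₀, H w ≠ 0 ∧ Φ (γ w) = pr (H w) := by
  obtain ⟨φ, hφa, hφf, hφe⟩ := hS.mer Φ hΦ (γ z₀)
  set y₀ := γ z₀ with hy₀
  obtain ⟨s, hs, hball⟩ := Metric.eventually_nhds_iff_ball.1 (hφa.eventually_analyticAt.and hφe.eventually_nhds)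
  obtain ⟨y₁, hy₁, hy₁b⟩ := (hφf.and_eventually (isOpen_ball.mem_nhds (mem_ball_self hs))).exists
  set v := y₁ - y₀ with hv
  have hvs : ‖v‖ < s := by rw [hv, ← mem_ball_iff_norm]; exact hy₁b
  have hy1v : y₀ + (1 : ℂ) • v = y₁ := by rw [hv, one_smul]; abel
  -- some derivative at `y₀` is not `0`
  have hex : ∃ m : ℕ, (dv v)^[m] φ y₀ ≠ 0 := by
    by_cases hv0 : v = 0
    · refine ⟨0, ?_⟩
      rw [Function.iterate_zero_apply]
      rw [hv0, smul_zero, add_zero] at hy1v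
      rwa [hy1v]
    have hv1 : 0 < ‖v‖ := norm_pos_iff.2 hv0
    have hin : ∀ t ∈ ball (0 : ℂ) (s / ‖v‖), y₀ + t • v ∈ ball y₀ s := by
      intro t ht
      rw [mem_ball_zero_iff, lt_div_iff₀ hv1] at ht
      rw [mem_ball_iff_norm, add_sub_cancel_left, norm_smul]
      exact ht
    have hfa : AnalyticOnNhd ℂ (fun t : ℂ => φ (y₀ + t • v)) (ball 0 (s / ‖v‖)) := fun t ht => (hball _ (hin t ht)).1.comp_of_eq (line_an y₀ v t) rfl
    have h1b : (1 : ℂ) ∈ ball (0 : ℂ) (s / ‖v‖) := by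
      rw [mem_ball_zero_iff, norm_one, lt_div_iff₀ hv1, one_mul]
      exact hvs
    have h0b : (0 : ℂ) ∈ ball (0 : ℂ) (s / ‖v‖) := mem_ball_self (by positivity)
    have hne : ¬ ∀ᶠ t in 𝓝 (0 : ℂ), φ (y₀ + t • v) = 0 := by
      intro h
      have := hfa.eqOn_zero_of_preconnected_of_eventuallyEq_zero (convex_ball 0 _).isPreconnected h0b h h1b
      simp only [hy1v] at this
      exact hy₁ this
    obtain ⟨n, g, hg, hg0, hge⟩ := (hfa 0 h0b).exists_eventuallyEq_pow_smul_nonzero_iff.2 hne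
    simp only [sub_zero] at hge
    refine ⟨n, ?_⟩
    rw [dv_coef v n hφa hg hge]
    exact smul_ne_zero (by exact_mod_cast n.factorial_ne_zero) hg0
  have hca : ∀ m : ℕ, AnalyticAt ℂ (fun z => (dv v)^[m] φ (γ z)) z₀ := fun m => (dv_it v m hφa).comp_of_eq hγ rfl
  have hex2 : ∃ m : ℕ, ¬ ∀ᶠ z in 𝓝 z₀, (dv v)^[m] φ (γ z) = 0 := by
    obtain ⟨m, hm⟩ := hex
    exact ⟨m, fun h => hm h.self_of_nhds⟩
  classical
  set m := Nat.find hex2 with hmdef
  have hm1 : ¬ ∀ᶠ z in 𝓝 z₀, (dv v)^[m] φ (γ z) = 0 := Nat.find_spec hex2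
  have hm2 : ∀ j < m, ∀ᶠ z in 𝓝 z₀, (dv v)^[j] φ (γ z) = 0 := fun j hj => not_not.1 (Nat.find_min hex2 hj)
  have hm3 : ∀ᶠ z in 𝓝[≠] z₀, (dv v)^[m] φ (γ z) ≠ 0 := (hca m).eventually_eq_zero_or_eventually_ne_zero.resolve_left hm1
  have hm4 : ∀ᶠ z in 𝓝 z₀, ∀ j < m, (dv v)^[j] φ (γ z) = 0 := by
    have := (Finset.range m).eventually_all (l := 𝓝 z₀) (p := fun j z => (dv v)^[j] φ (γ z) = 0)
    have h2 := this.2 fun j hj => hm2 j (Finset.mem_range.1 hj)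
    filter_upwards [h2] with z hz j hj
    exact hz j (Finset.mem_range.2 hj)
  refine ⟨fun z => (dv v)^[m] φ (γ z), hca m, ?_⟩
  have hgb : ∀ᶠ z in 𝓝 z₀, γ z ∈ ball y₀ s := hγ.continuousAt.eventually (isOpen_ball.mem_nhds (mem_ball_self hs))
  filter_upwards [hm3, hm4.filter_mono nhdsWithin_le_nhds, hgb.filter_mono nhdsWithin_le_nhds, hγD] with z z1 z2 z3 z4
  refine ⟨z1, ?_⟩
  obtain ⟨l1, l2⟩ := dv_lead (hball _ z3).1 z2 z1
  have hD : ∀ᶠ t in 𝓝[≠] (0 : ℂ), γ z + t • v ∉ D := (line_ev v (hDc.isOpen_compl.mem_nhds z4)).filter_mono nhdsWithin_le_nhds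
  have hE : ∀ᶠ t in 𝓝[≠] (0 : ℂ), γ z + t • v ∉ D → φ (γ z + t • v) ≠ 0 → Φ (γ z + t • v) = pr (φ (γ z + t • v)) :=
    (line_ev v (hball _ z3).2).filter_mono nhdsWithin_le_nhds
  have hc : Tendsto (fun t : ℂ => Φ (γ z + t • v)) (𝓝[≠] 0) (𝓝 (Φ (γ z))) := by
    have h1 : Tendsto (fun t : ℂ => γ z + t • v) (𝓝 0) (𝓝 (γ z)) := by
      have h2 := (line_an (γ z) v 0).continuousAt.tendsto
      rwa [zero_smul, add_zero] at h2
    exact ((hS.cont hX hΦ z4).tendsto.comp h1).mono_left nhdsWithin_le_nhds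
  refine tendsto_nhds_unique (hc.congr' ?_) l2
  filter_upwards [hD, hE, l1] with t t1 t2 t3
  exact t2 t1 t3

/-- the column `j` of a matrix divided by the diagonal element -/
private noncomputable def col (j : Fin (N + 1)) (P : MN N) : EN N := WithLp.toLp 2 fun i => P (i, j) / P (j, j)

private theorem col_pr {j : Fin (N + 1)} {x : EN N} (hx : x ≠ 0) : (x j = 0 → col j (pr x) = 0) ∧ (x j ≠ 0 → col j (pr x) = (x j)⁻¹ • x) := by
  have h2 : ((‖x‖ ^ 2 : ℝ) : ℂ) ≠ 0 := by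
    have : ‖x‖ ≠ 0 := norm_ne_zero_iff.mpr hx
    exact_mod_cast pow_ne_zero 2 this
  constructor
  · intro h
    ext i
    simp [col, pr, h]
  · intro h
    have h3 : (starRingEnd ℂ) (x j) ≠ 0 := (map_ne_zero _).2 h
    ext i
    simp only [col, pr, PiLp.smul_apply, smul_eq_mul]
    rw [div_div_div_cancel_right₀ h2]
    field_simp

/-- sections over arcs -/
theorem sec_arc (hX : IsCone X) (hu : TMap X Λ u) (hΛ : Lat Λ) (hDc : IsClosed D) (hS : Csf X Λ u D S) {Φ : Vd (k + 1) → MN N} (hΦ : Φ ∈ S) {γ : ℂ → Vd (k + 1)} {r R : ℝ}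
    (hr : r < R) (hγ : DifferentiableOn ℂ γ (ball 0 R)) (hγD : ∀ z ∈ ball (0 : ℂ) R, ∀ᶠ w in 𝓝[≠] z, γ w ∉ D) :
    ∃ G : ℂ → EN N, Cv X Λ u (ball 0 r) G γ ∧ ∀ z ∈ ball (0 : ℂ) r, γ z ∉ D → pr (G z) = Φ (γ z) := by
  rcases le_or_gt R 0 with hR | hR
  · have he : ball (0 : ℂ) r = ∅ := ball_eq_empty.2 (by linarith)
    rw [he]
    exact ⟨fun _ => 0, ⟨differentiableOn_empty, differentiableOn_empty, fun z hz => absurd hz (Set.notMem_empty z), fun z hz => absurd hz (Set.notMem_empty z)⟩,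
      fun z hz => absurd hz (Set.notMem_empty z)⟩
  have hγa : AnalyticOnNhd ℂ γ (ball 0 R) := hγ.analyticOnNhd isOpen_ball
  choose! H hHa hHe using fun z (hz : z ∈ ball (0 : ℂ) R) => arc_loc hX hDc hS hΦ (hγa z hz) (hγD z hz)
  have h0 : (0 : ℂ) ∈ ball (0 : ℂ) R := mem_ball_self hR
  -- a component which is not `0` at `0`
  have hcomp : ∀ (z : ℂ) (j : Fin (N + 1)), z ∈ ball (0 : ℂ) R → AnalyticAt ℂ (fun w => H z w j) z := fun z j hz =>
    ((ContinuousLinearMap.proj (R := ℂ) (φ := fun _ : Fin (N + 1) => ℂ) j).comp (EuclideanSpace.equiv (Fin (N + 1)) ℂ).toContinuousLinearMap).analyticAt _ |>.comp_of_eq (hHa z hz) rfl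
  obtain ⟨j, hj⟩ : ∃ j : Fin (N + 1), ¬ ∀ᶠ w in 𝓝 (0 : ℂ), H 0 w j = 0 := by
    by_contra h
    push Not at h
    have h1 : ∀ᶠ w in 𝓝 (0 : ℂ), ∀ j : Fin (N + 1), H 0 w j = 0 := Filter.eventually_all.2 h
    obtain ⟨w, w1, w2⟩ := ((h1.filter_mono nhdsWithin_le_nhds).and (hHe 0 h0)).exists
    refine w2.1 ?_
    ext i
    exact w1 i
  set M : ℂ → EN N := fun w => col j (Φ (γ w)) with hM
  have hMe : ∀ z ∈ ball (0 : ℂ) R, (∀ᶠ w in 𝓝[≠] z, M w = 0) ∨ ∀ᶠ w in 𝓝[≠] z, H z w j ≠ 0 ∧ M w = (H z w j)⁻¹ • H z w := by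
    intro z hz
    rcases (hcomp z j hz).eventually_eq_zero_or_eventually_ne_zero with h | h
    · left
      filter_upwards [h.filter_mono nhdsWithin_le_nhds, hHe z hz] with w w1 w2
      rw [hM]
      simp only [w2.2]
      exact (col_pr w2.1).1 w1
    · right
      filter_upwards [h, hHe z hz] with w w1 w2
      refine ⟨w1, ?_⟩
      rw [hM]
      simp only [w2.2]
      exact (col_pr w2.1).2 w1
  have hMm : MeromorphicOn M (ball 0 R) := by
    intro z hz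
    rcases hMe z hz with h | h
    · exact (MeromorphicAt.const (0 : EN N) z).congr (by filter_upwards [h] with w hw; rw [hw])
    · refine MeromorphicAt.congr (((hcomp z j hz).meromorphicAt.inv).smul (hHa z hz).meromorphicAt) ?_
      filter_upwards [h] with w hw
      rw [hw.2]
      rfl
  have hM0 : meromorphicOrderAt M 0 ≠ ⊤ := by
    intro h
    rw [meromorphicOrderAt_eq_top_iff] at h
    have h1 := (hcomp 0 j h0).eventually_eq_zero_or_eventually_ne_zero.resolve_left hj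
    rcases hMe 0 h0 with h2 | h2
    · obtain ⟨w, w1, w2, w3⟩ := (h1.and (h2.and (hHe 0 h0))).exists
      have h3 : M w = (H 0 w j)⁻¹ • H 0 w := by
        rw [hM]
        simp only [w3.2]
        exact (col_pr w3.1).2 w1
      rw [w2] at h3
      exact smul_ne_zero (inv_ne_zero w1) w3.1 h3.symm
    · obtain ⟨w, w1, w2, w3⟩ := (h.and (h2.and (hHe 0 h0))).exists
      rw [w2.2] at w1
      exact smul_ne_zero (inv_ne_zero w2.1) w3.1 w1
  have hMt : ∀ z ∈ ball (0 : ℂ) R, meromorphicOrderAt M z ≠ ⊤ := fun z hz =>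
    hMm.meromorphicOrderAt_ne_top_of_isPreconnected (convex_ball 0 R).isPreconnected h0 hz hM0
  have hMn : ∀ z ∈ ball (0 : ℂ) R, ∀ᶠ w in 𝓝[≠] z, M w ≠ 0 := fun z hz => (meromorphicOrderAt_ne_top_iff_eventually_ne_zero (hMm z hz)).1 (hMt z hz)
  have hMpr : ∀ z ∈ ball (0 : ℂ) R, ∀ᶠ w in 𝓝[≠] z, M w ≠ 0 ∧ pr (M w) = Φ (γ w) := by
    intro z hz
    filter_upwards [hMn z hz, hHe z hz] with w w1 w2
    refine ⟨w1, ?_⟩
    have h1 : M w = col j (pr (H z w)) := by rw [hM]; simp only [w2.2]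
    have h2 : H z w j ≠ 0 := fun h => w1 (by rw [h1]; exact (col_pr w2.1).1 h)
    rw [h1, (col_pr w2.1).2 h2, Pool.Agent.H62.EF.pr_smul _ (inv_ne_zero h2), w2.2]
  -- divide by the zeros and poles
  have hsub : closedBall (0 : ℂ) r ⊆ ball 0 R := closedBall_subset_ball hr
  have hMc : MeromorphicOn M (closedBall 0 r) := fun z hz => hMm z (hsub hz)
  obtain ⟨G, hGa, hG0, hGe⟩ := hMc.extract_zeros_poles (fun z => hMt z.1 (hsub z.2)) ((MeromorphicOn.divisor M (closedBall 0 r)).finiteSupport (isCompact_closedBall 0 r))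
  have hsub' : ball (0 : ℂ) r ⊆ closedBall 0 r := ball_subset_closedBall
  have hsub2 : ball (0 : ℂ) r ⊆ ball 0 R := ball_subset_ball hr.le
  have hG : ∀ z ∈ closedBall (0 : ℂ) r, AnalyticAt ℂ G z ∧ G z ≠ 0 := fun z hz => ⟨hGa z hz, hG0 ⟨z, hz⟩⟩
  -- the points near `z`
  have hev : ∀ z ∈ ball (0 : ℂ) r, ∀ᶠ w in 𝓝[≠] z, G w ≠ 0 ∧ γ w ∉ D ∧ pr (G w) = Φ (γ w) := by
    intro z hz
    have h1 : ∀ᶠ w in 𝓝[≠] z, w ∈ closedBall (0 : ℂ) r := nhdsWithin_le_nhds (Filter.mem_of_superset (isOpen_ball.mem_nhds hz) hsub')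
    have h3 : ∀ᶠ w in 𝓝[≠] z, w ∈ closedBall (0 : ℂ) r → M w = ((∏ᶠ u, (· - u) ^ MeromorphicOn.divisor M (closedBall 0 r) u) • G) w := by
      have h4 := mem_codiscreteWithin.1 hGe z (hsub' hz)
      rw [disjoint_principal_right] at h4
      filter_upwards [h4] with w hw hwm
      by_contra h5
      exact hw ⟨hwm, h5⟩
    filter_upwards [h1, h3, hMpr z (hsub2 hz), hγD z (hsub2 hz)] with w w1 w3 w4 w5
    refine ⟨(hG w w1).2, w5, ?_⟩
    have h6 := w3 w1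
    rw [Pi.smul_apply'] at h6
    rw [← w4.2, h6]
    refine (Pool.Agent.H62.EF.pr_smul _ fun h7 => ?_).symm
    rw [h7, zero_smul] at h6
    exact w4.1 h6
  have hγc : ∀ z ∈ ball (0 : ℂ) r, ContinuousAt γ z := fun z hz => (hγa z (hsub2 hz)).continuousAt
  have hmem : ∀ z ∈ ball (0 : ℂ) r, G z ∈ X ∧ u (G z) - γ z ∈ Λ := by
    intro z hz
    have hprc : ContinuousAt (fun w => pr (G w)) z :=
      ContinuousAt.comp (g := fun x : EN N => pr x) (Pool.Agent.H62.EF.continuousAt_pr (hG z (hsub' hz)).2) (hG z (hsub' hz)).1.continuousAt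
    refine Pool.Agent.G3.lim_mem (l := 𝓝[≠] z) hX hu hΛ (x := G) (y := γ) ?_ (hG z (hsub' hz)).2 (hprc.tendsto.mono_left nhdsWithin_le_nhds)
      ((hγc z hz).tendsto.mono_left nhdsWithin_le_nhds)
    filter_upwards [hev z hz] with w hw
    obtain ⟨φ', -, hφ'⟩ := hS.hol Φ hΦ (γ w) hw.2.1
    obtain ⟨h1, h2, h3⟩ := hφ'.self_of_nhds
    have h4 : pr (G w) = pr (φ' (γ w)) := hw.2.2.trans h2
    obtain ⟨c, hc, hcx⟩ := (Pool.Agent.H62.EF.pr_eq_iff hw.1 (Pool.Agent.TG.ne_zero hX h1)).1 h4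
    have hGX : G w ∈ X := by
      rw [hcx]
      exact hX.smul_mem _ h1 c hc
    exact ⟨hGX, Pool.Agent.TG.fb_lift hX hu (Pool.Agent.TG.mem_fb h1 h3) hGX h4⟩
  refine ⟨G, ⟨fun z hz => (hG z (hsub' hz)).1.differentiableAt.differentiableWithinAt, hγ.mono hsub2, fun z hz => (hmem z hz).1, fun z hz => (hmem z hz).2⟩, fun z hz hzD => ?_⟩
  have hc1 : ContinuousAt (fun w => Φ (γ w)) z := ContinuousAt.comp (g := Φ) (hS.cont hX hΦ hzD) (hγc z hz)
  have hc2 : ContinuousAt (fun w => pr (G w)) z :=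
    ContinuousAt.comp (g := fun x : EN N => pr x) (Pool.Agent.H62.EF.continuousAt_pr (hG z (hsub' hz)).2) (hG z (hsub' hz)).1.continuousAt
  have t1 : Tendsto (fun w => Φ (γ w)) (𝓝[≠] z) (𝓝 (Φ (γ z))) := hc1.tendsto.mono_left nhdsWithin_le_nhds
  have t2 : Tendsto (fun w => pr (G w)) (𝓝[≠] z) (𝓝 (pr (G z))) := hc2.tendsto.mono_left nhdsWithin_le_nhds
  refine tendsto_nhds_unique t2 (t1.congr' ?_)
  filter_upwards [hev z hz] with w w1
  exact w1.2.2.symm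

end Pool.Agent.G4

end

section

/-!
# TG Zl: the curves over lines are uniformly Lipschitz away from `D`

Port of `Pool/Agent/H62/EL/Zl.lean`.

`curve_bound`: suppose not: for every `n` there are `y n ∈ Gd D δ`, `‖e n‖ ≤ 1`, `F n` on `ball 0 δ` with `fs (F n 0) ((F n)' 0) > 4 (n + 1) / δ`.  `y n` may be translated by `Λ` (`Lat.cpt`, `Geo.gd_add`): `‖y n‖ ≤ R`.  `AD.rescale_disc` (`AD/W/Resc.lean`) for
`ζ ↦ F n (δ ζ)`, `ζ ∈ ball 0 1`, gives `z n`, `a n > 4 (n + 1)` such that `G n ζ = F n (δ (z n + ζ / a n))` has `fs (G n 0) ((G n)' 0) = 1`, `fs ≤ 2` on `ball 0 (n + 1)`, `‖z n + ζ / a n‖ ≤ 1/2` there; `u (G n ζ) - (y n + (δ (z n + ζ / a n)) • e n) ∈ Λ`.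
`limit_curves` (`𝒰 = hyperfilter ℕ`, `ρ n = n + 1`) gives `G` entire in `X` with `fs (G 0) (G' 0) = 1` and `fs (G ζ) (G' ζ) ≤ 2` (limits), and along `𝒰` `y n → y`, `z n → z`, `e n → e`; `w = y + (δ z) • e ∈ Gd D (δ / 2)` (`gd_near`, `gd_closed`), so `w ∉ D`.
`pr (G n ζ) → pr (G ζ)`, so `u (G ζ) - w ∈ Λ` for all `ζ` (`fb_lim`, `fb_lift`).  `G.fib` (the geometric hypothesis `fib`): `G ζ` is proportional to `G 0` for all `ζ`, so `fs (G 0) (G' 0) = 0` (as in `EF/Zal`: `Brody_deriv_line` or `wd`): contradiction.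

`sec_lip`: `L₁` from `curve_bound` for `δ / 4`.  Let `w ≠ y`, `e = (w - y) / ‖w - y‖`; the points `y + z • e`, `‖z‖ < 3 δ / 4`, are in `Gd D (δ / 4)`; `F` from `sec_line` (`R = 3δ/4`, `r` between `δ/2` and `3δ/4`, e.g. `5δ/8`: all points off `D`).
For `‖z‖ < 5 δ / 8 - δ / 16`... : to apply `curve_bound` at `y + z • e` one needs `F` on `ball z δ''`: use `curve_bound` for `δ'' = δ / 16` (`Gd D (δ/4) ⊆ Gd D (δ/16)`).  Then `pr_lipschitz` on a convex neighbourhood of the segment `[0, ‖w - y‖]`.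
-/

set_option autoImplicit false

open Topology Filter Metric

namespace Pool.Agent.TG

open Pool.Agent.H36.BP (EN fs wd)
open Pool.Agent.H14.PP (IsCone CurveAt Tan)
open Pool.Agent.H62.EF (MN pr)
open Pool.Agent.AD (Vd Chart Charts IsGerm)

variable {N k : ℕ}

variable {X : Set (EN N)} {Λ : AddSubgroup (Vd (k + 1))} {u : EN N → Vd (k + 1)} {D B : Set (Vd (k + 1))}

theorem curve_bound (G : Geo X Λ u D B) {δ : ℝ} (hδ : 0 < δ) : ∃ L : ℝ, 0 < L ∧ ∀ y ∈ Gd D δ, ∀ e : Vd (k + 1), ‖e‖ ≤ 1 →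
    ∀ F : ℂ → EN N, DifferentiableOn ℂ F (ball 0 δ) → (∀ z ∈ ball (0 : ℂ) δ, F z ∈ X ∧ u (F z) - (y + z • e) ∈ Λ) →
      fs (F 0) (deriv F 0) ≤ L := by
  have hX := G.cone
  have hu := G.tor
  have hΛ := G.lat
  have hX0 : ∀ x ∈ X, x ≠ 0 := fun x hx h => hX.zero_notMem (h ▸ hx)
  by_contra hcon
  push Not at hcon
  have hbig : ∀ n : ℕ, ∃ y ∈ Gd D δ, ∃ e : Vd (k + 1), ‖e‖ ≤ 1 ∧ ∃ F : ℂ → EN N, DifferentiableOn ℂ F (ball 0 δ) ∧
      (∀ z ∈ ball (0 : ℂ) δ, F z ∈ X ∧ u (F z) - (y + z • e) ∈ Λ) ∧ 4 * ((n : ℝ) + 1) / δ < fs (F 0) (deriv F 0) :=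
    fun n => hcon _ (by positivity)
  obtain ⟨R, hR0, hR⟩ := hΛ.cpt
  have hbig' : ∀ n : ℕ, ∃ y ∈ Gd D δ, ‖y‖ ≤ R ∧ ∃ e : Vd (k + 1), ‖e‖ ≤ 1 ∧ ∃ F : ℂ → EN N, DifferentiableOn ℂ F (ball 0 δ) ∧
      (∀ z ∈ ball (0 : ℂ) δ, F z ∈ X ∧ u (F z) - (y + z • e) ∈ Λ) ∧ 4 * ((n : ℝ) + 1) / δ < fs (F 0) (deriv F 0) := by
    intro n
    obtain ⟨y, hy, e, he, F, hF, hFX, hb⟩ := hbig n
    obtain ⟨l, hl, hlR⟩ := hR y
    refine ⟨y - l, ?_, hlR, e, he, F, hF, fun z hz => ⟨(hFX z hz).1, ?_⟩, hb⟩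
    · rw [← G.gd_add δ hl, sub_add_cancel]
      exact hy
    · have h1 := Λ.add_mem (hFX z hz).2 hl
      have h2 : u (F z) - (y - l + z • e) = u (F z) - (y + z • e) + l := by abel
      rwa [h2]
  choose y hyG hyR e he F hF hFX hFb using hbig'
  have hmul : ∀ z : ℂ, z ∈ ball (0 : ℂ) 1 → (δ : ℂ) * z ∈ ball (0 : ℂ) δ := by
    intro z hz
    rw [mem_ball_zero_iff] at hz ⊢
    rw [norm_mul, Complex.norm_real, Real.norm_of_nonneg hδ.le]
    calc δ * ‖z‖ < δ * 1 := mul_lt_mul_of_pos_left hz hδ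
      _ = δ := mul_one δ
  have hresc : ∀ n : ℕ, ∃ (z₀ : ℂ) (a : ℝ), 4 * ((n : ℝ) + 1) < a ∧
      (∀ ζ ∈ ball (0 : ℂ) (n + 1), ‖z₀ + ((a⁻¹ : ℝ) : ℂ) * ζ‖ ≤ 1 / 2) ∧
      fs (F n ((δ : ℂ) * z₀)) (deriv (fun ζ => F n ((δ : ℂ) * (z₀ + ((a⁻¹ : ℝ) : ℂ) * ζ))) 0) = 1 ∧
      ∀ ζ ∈ ball (0 : ℂ) (n + 1), fs (F n ((δ : ℂ) * (z₀ + ((a⁻¹ : ℝ) : ℂ) * ζ)))
        (deriv (fun ζ => F n ((δ : ℂ) * (z₀ + ((a⁻¹ : ℝ) : ℂ) * ζ))) ζ) ≤ 2 := by
    intro n
    have hd : DifferentiableOn ℂ (fun z => F n ((δ : ℂ) * z)) (ball 0 1) :=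
      (hF n).comp (differentiable_id.const_mul _).differentiableOn hmul
    refine Pool.Agent.AD.rescale_disc hd (fun z hz => hX0 _ (hFX n _ (hmul z hz)).1) n ?_
    have h1 : HasDerivAt (fun z : ℂ => (δ : ℂ) * z) (δ : ℂ) 0 := by
      simpa using (hasDerivAt_id (0 : ℂ)).const_mul (δ : ℂ)
    have h2 : deriv (fun z => F n ((δ : ℂ) * z)) 0 = (δ : ℂ) • deriv (F n) 0 := by
      have h4 : HasDerivAt (F n) (deriv (F n) 0) ((δ : ℂ) * 0) := by
        rw [mul_zero]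
        exact ((hF n).differentiableAt (isOpen_ball.mem_nhds (mem_ball_self hδ))).hasDerivAt
      exact (h4.scomp 0 h1).deriv
    rw [h2, Pool.Agent.H36.BP.fs_smul_right, Complex.norm_real, Real.norm_of_nonneg hδ.le, mul_zero]
    have h4 := hFb n
    rw [div_lt_iff₀ hδ] at h4
    linarith
  choose z₀ a ha hz₀ h1 h2 using hresc
  have ha0 : ∀ n, 0 < a n := fun n => lt_trans (by positivity) (ha n)
  have hz₀n : ∀ n, ‖z₀ n‖ ≤ 1 / 2 := by
    intro n
    have h3 := hz₀ n 0 (mem_ball_self (by positivity))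
    rwa [mul_zero, add_zero] at h3
  set g : ℕ → ℂ → EN N := fun n ζ => F n ((δ : ℂ) * (z₀ n + (((a n)⁻¹ : ℝ) : ℂ) * ζ)) with hgdef
  set w : ℕ → Vd (k + 1) := fun n => y n + ((δ : ℂ) * z₀ n) • e n with hwdef
  have hin : ∀ n : ℕ, ∀ ζ ∈ ball (0 : ℂ) ((n : ℝ) + 1), (δ : ℂ) * (z₀ n + (((a n)⁻¹ : ℝ) : ℂ) * ζ) ∈ ball (0 : ℂ) δ := by
    intro n ζ hζ
    apply hmul
    rw [mem_ball_zero_iff]
    have h3 := hz₀ n ζ hζ
    linarith
  have hgd : ∀ n : ℕ, DifferentiableOn ℂ (g n) (ball 0 ((n : ℝ) + 1)) := by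
    intro n
    exact (hF n).comp (((differentiable_id.const_mul _).const_add _).const_mul _).differentiableOn (hin n)
  have hgX : ∀ n : ℕ, ∀ ζ ∈ ball (0 : ℂ) ((n : ℝ) + 1), g n ζ ∈ X := fun n ζ hζ => (hFX n _ (hin n ζ hζ)).1
  have hgu : ∀ n : ℕ, ∀ ζ ∈ ball (0 : ℂ) ((n : ℝ) + 1), u (g n ζ) - (w n + (((δ * (a n)⁻¹ : ℝ) : ℂ) * ζ) • e n) ∈ Λ := by
    intro n ζ hζ
    have h3 := (hFX n _ (hin n ζ hζ)).2
    have h4 : w n + (((δ * (a n)⁻¹ : ℝ) : ℂ) * ζ) • e n = y n + ((δ : ℂ) * (z₀ n + (((a n)⁻¹ : ℝ) : ℂ) * ζ)) • e n := by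
      rw [hwdef]
      simp only []
      rw [add_assoc, ← add_smul]
      congr 2
      push_cast
      ring
    rw [h4]
    exact h3
  have hg1 : ∀ n, fs (g n 0) (deriv (g n) 0) = 1 := by
    intro n
    have h3 := h1 n
    rw [hgdef]
    simpa only [mul_zero, add_zero] using h3
  have hwy : ∀ n, ‖w n - y n‖ ≤ δ / 2 := by
    intro n
    have h3 : w n - y n = ((δ : ℂ) * z₀ n) • e n := by
      rw [hwdef]
      simp
    rw [h3, norm_smul, norm_mul, Complex.norm_real, Real.norm_of_nonneg hδ.le]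
    calc δ * ‖z₀ n‖ * ‖e n‖ ≤ δ * (1 / 2) * 1 :=
          mul_le_mul (mul_le_mul_of_nonneg_left (hz₀n n) hδ.le) (he n) (norm_nonneg _) (by positivity)
      _ = δ / 2 := by ring
  have hwG : ∀ n, w n ∈ Gd D (δ / 2) := by
    intro n
    have h3 := gd_near (hyG n) (hwy n)
    have h4 : δ - δ / 2 = δ / 2 := by ring
    rwa [h4] at h3
  have hwR : ∀ n, w n ∈ closedBall (0 : Vd (k + 1)) (R + δ / 2) := by
    intro n
    rw [mem_closedBall_zero_iff]
    have h3 : w n = y n + (w n - y n) := by abel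
    rw [h3]
    exact (norm_add_le _ _).trans (add_le_add (hyR n) (hwy n))
  set 𝒰 : Ultrafilter ℕ := hyperfilter ℕ with h𝒰
  have hle : (𝒰 : Filter ℕ) ≤ atTop := Nat.hyperfilter_le_atTop
  obtain ⟨w₀, -, hw₀⟩ := (isCompact_closedBall (0 : Vd (k + 1)) (R + δ / 2)).ultrafilter_le_nhds (𝒰.map w) (by
    rw [Filter.le_principal_iff, Ultrafilter.coe_map, Filter.mem_map]
    exact Filter.univ_mem' hwR)
  have hwt : Tendsto w 𝒰 (𝓝 w₀) := hw₀
  have hw₀G : w₀ ∈ Gd D (δ / 2) := (gd_closed D (δ / 2)).mem_of_tendsto hwt (Eventually.of_forall hwG)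
  have hw₀D : w₀ ∉ D := gd_notMem (by positivity) hw₀G
  have hρ : Tendsto (fun n : ℕ => (n : ℝ) + 1) 𝒰 atTop :=
    (tendsto_atTop_add_const_right _ _ tendsto_natCast_atTop_atTop).mono_left hle
  have hainv : Tendsto (fun n => (a n)⁻¹) 𝒰 (𝓝 0) := by
    have h3 : Tendsto a 𝒰 atTop := by
      refine tendsto_atTop_mono (fun n => ?_) hρ
      have := ha n
      have h4 : (0 : ℝ) ≤ n := Nat.cast_nonneg n
      linarith
    exact tendsto_inv_atTop_zero.comp h3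
  obtain ⟨H, hH, hHX, hpr, hfs, -⟩ := Pool.Agent.H62.EF.limit_curves hX (L := 2) two_pos 𝒰 g (fun n : ℕ => (n : ℝ) + 1) hρ
    (Eventually.of_forall fun n => ⟨hgd n, fun z hz => ⟨hgX n z hz, h2 n z hz⟩⟩)
  have hH0 : ∀ z, H z ≠ 0 := fun z => hX0 _ (hHX z)
  -- the limit is not constant
  have hone : fs (H 0) (deriv H 0) = 1 := by
    have h3 := hfs 0
    simp only [hg1] at h3
    exact tendsto_nhds_unique h3 tendsto_const_nhds |>.symm ▸ rfl
  -- the limit has bounded derivative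
  have hbd : ∀ z, fs (H z) (deriv H z) ≤ 2 := by
    intro z
    refine le_of_tendsto (hfs z) ?_
    filter_upwards [hρ.eventually_gt_atTop ‖z‖] with n hn
    exact h2 n z (by rw [mem_ball_zero_iff]; exact hn)
  -- the limit is in the fibre over `w₀`
  have hver : ∀ ζ, u (H ζ) - w₀ ∈ Λ := by
    intro ζ
    have hball : ∀ᶠ n : ℕ in (𝒰 : Filter ℕ), ζ ∈ ball (0 : ℂ) ((n : ℝ) + 1) := by
      filter_upwards [hρ.eventually_gt_atTop ‖ζ‖] with n hn
      rw [mem_ball_zero_iff]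
      exact hn
    have h3 : Tendsto (fun n => w n + (((δ * (a n)⁻¹ : ℝ) : ℂ) * ζ) • e n) 𝒰 (𝓝 w₀) := by
      have h4 : Tendsto (fun n => (((δ * (a n)⁻¹ : ℝ) : ℂ) * ζ) • e n) 𝒰 (𝓝 0) := by
        rw [tendsto_zero_iff_norm_tendsto_zero]
        have h5 : Tendsto (fun n => δ * (a n)⁻¹ * ‖ζ‖) 𝒰 (𝓝 0) := by
          have h6 := (hainv.const_mul δ).mul_const ‖ζ‖
          rwa [mul_zero, zero_mul] at h6
        refine squeeze_zero (fun n => norm_nonneg _) (fun n => ?_) h5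
        have h7 : 0 ≤ δ * (a n)⁻¹ := mul_nonneg hδ.le (inv_nonneg.mpr (ha0 n).le)
        rw [norm_smul, norm_mul, Complex.norm_real, Real.norm_of_nonneg h7]
        exact mul_le_of_le_one_right (mul_nonneg h7 (norm_nonneg _)) (he n)
      have h5 := hwt.add h4
      rwa [add_zero] at h5
    have h4 := fb_lim hX hΛ hu (hpr ζ) h3 (by
      filter_upwards [hball] with n hn
      exact mem_fb (hgX n ζ hn) (hgu n ζ hn))
    exact fb_lift hX hu h4.1 (hHX ζ) rfl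
  have hc := G.fib w₀ hw₀D H hH hHX hver ⟨2, hbd⟩
  obtain ⟨b, hb⟩ := Pool.Agent.H36.BP.Brody_deriv_line (hH 0) (fun z => hc z 0)
  have h3 : wd (H 0) (deriv H 0) = 0 := (Pool.Agent.H36.BP.wd_eq_zero (hH0 0)).mpr ⟨b, hb⟩
  unfold fs at hone
  rw [h3, zero_div] at hone
  exact zero_ne_one hone

/-- the bound at all points of the disc -/
theorem curve_bound_disc (G : Geo X Λ u D B) {δ : ℝ} (hδ : 0 < δ) : ∃ L : ℝ, 0 < L ∧ ∀ y e : Vd (k + 1), ‖e‖ ≤ 1 → ∀ r s : ℝ, s + δ ≤ r →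
    (∀ z ∈ ball (0 : ℂ) s, y + z • e ∈ Gd D δ) →
    ∀ F : ℂ → EN N, DifferentiableOn ℂ F (ball 0 r) → (∀ z ∈ ball (0 : ℂ) r, F z ∈ X ∧ u (F z) - (y + z • e) ∈ Λ) →
      ∀ z ∈ ball (0 : ℂ) s, ∀ w ∈ ball (0 : ℂ) s, dist (pr (F z)) (pr (F w)) ≤ L * ‖z - w‖ := by
  obtain ⟨L, hL, h⟩ := curve_bound G hδ
  refine ⟨2 * L, by positivity, fun y e he r s hrs hy F hF hFX => ?_⟩
  have hsr : s ≤ r := by linarith
  have hfs : ∀ z ∈ ball (0 : ℂ) s, fs (F z) (deriv F z) ≤ L := by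
    intro z hz
    have hsub : ∀ ζ ∈ ball (0 : ℂ) δ, z + ζ ∈ ball (0 : ℂ) r := by
      intro ζ hζ
      rw [mem_ball_zero_iff] at hz hζ ⊢
      have := norm_add_le z ζ
      linarith
    have h1 := h (y + z • e) (hy z hz) e he (fun ζ => F (z + ζ)) (hF.comp (differentiable_id.const_add z).differentiableOn hsub)
      (fun ζ hζ => by
        have h2 := hFX _ (hsub ζ hζ)
        refine ⟨h2.1, ?_⟩
        have h3 : y + z • e + ζ • e = y + (z + ζ) • e := by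
          rw [add_smul]
          abel
        rw [h3]
        exact h2.2)
    have h2 : deriv (fun ζ => F (z + ζ)) 0 = deriv F z := by
      rw [deriv_comp_const_add, add_zero]
    rw [h2] at h1
    simpa only [add_zero] using h1
  exact Pool.Agent.H62.EF.pr_lipschitz isOpen_ball (convex_ball 0 s) (hF.mono (ball_subset_ball hsr))
    (fun z hz => ne_zero G.cone (hFX z (ball_subset_ball hsr hz)).1) hfs

theorem sec_lip (G : Geo X Λ u D B) {δ : ℝ} (hδ : 0 < δ) : ∃ L : ℝ, 0 < L ∧ ∀ f ∈ Sec X Λ u D, ∀ y ∈ Gd D δ, ∀ w ∈ closedBall y (δ / 2),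
    dist (f y) (f w) ≤ L * ‖y - w‖ := by
  obtain ⟨L, hL, h⟩ := curve_bound_disc G (δ := δ / 8) (by positivity)
  refine ⟨L, hL, fun f hf y hy w hw => ?_⟩
  rw [mem_closedBall, dist_eq_norm] at hw
  by_cases hyw : w = y
  · rw [hyw, dist_self, sub_self, norm_zero, mul_zero]
  have hp : 0 < ‖w - y‖ := norm_pos_iff.mpr (sub_ne_zero.mpr hyw)
  set e : Vd (k + 1) := ((‖w - y‖⁻¹ : ℝ) : ℂ) • (w - y) with he
  have hen : ‖e‖ ≤ 1 := by
    rw [he, norm_smul, Complex.norm_real, norm_inv, norm_norm, inv_mul_cancel₀ hp.ne']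
  have hwe : y + ((‖w - y‖ : ℝ) : ℂ) • e = w := by
    rw [he, smul_smul, ← Complex.ofReal_mul, mul_inv_cancel₀ hp.ne', Complex.ofReal_one, one_smul]
    abel
  have hye : y + (0 : ℂ) • e = y := by simp
  have hgd : ∀ r : ℝ, ∀ z ∈ ball (0 : ℂ) r, y + z • e ∈ Gd D (δ - r) := by
    intro r z hz
    refine gd_near hy ?_
    rw [mem_ball_zero_iff] at hz
    rw [add_sub_cancel_left, norm_smul]
    calc ‖z‖ * ‖e‖ ≤ ‖z‖ * 1 := mul_le_mul_of_nonneg_left hen (norm_nonneg _)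
      _ ≤ r := by linarith
  have hnD : ∀ z ∈ ball (0 : ℂ) (7 * δ / 8), y + z • e ∉ D := fun z hz =>
    gd_notMem (show 0 < δ - 7 * δ / 8 by linarith) (hgd _ z hz)
  obtain ⟨F, hF, hFX, hFf⟩ := sec_line G.cone G.tor G.D_closed hf (y := y) (e := e) (R := 7 * δ / 8) (r := 3 * δ / 4) (fun z hz => by
    have h1 : ∀ᶠ v in 𝓝 z, v ∈ ball (0 : ℂ) (7 * δ / 8) := isOpen_ball.mem_nhds hz
    exact (h1.mono fun v hv => hnD v hv).filter_mono nhdsWithin_le_nhds) (by linarith)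
  have h1 := h y e hen (3 * δ / 4) (5 * δ / 8) (by linarith) (fun z hz => gd_mono (by linarith) (hgd _ z hz)) F hF hFX
    0 (mem_ball_self (by positivity)) ((‖w - y‖ : ℝ) : ℂ) (by
      rw [mem_ball_zero_iff, Complex.norm_real, norm_norm]
      linarith)
  rw [hFf 0 (mem_ball_self (by positivity)) (hnD 0 (mem_ball_self (by positivity))),
    hFf _ (by rw [mem_ball_zero_iff, Complex.norm_real, norm_norm]; linarith)
      (hnD _ (by rw [mem_ball_zero_iff, Complex.norm_real, norm_norm]; linarith)), hye, hwe, zero_sub, norm_neg, Complex.norm_real,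
    norm_norm] at h1
  rw [norm_sub_rev y w]
  exact h1

end Pool.Agent.TG

end

section

/-!
# TG SbA: the limits of the sections

Port of `Pool/Agent/H62/EL/SbA.lean`.
`sec_fb`: from the first condition of `Sec`.  `sec_trans`: translate `φ` (`AnalyticAt` of `z ↦ φ (z + l)`), `l ∈ Λ`; second condition: at `y, e` use the one at `y + l, e`.  `sec_sb`: take `f` itself.
`sb_lip`: `sec_lip` for `δ/2` ... as in `EL/SbA` (`f` is near members of `Sec` at `y` and at `w`, both in `Gd D (δ / 2)`).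
`sb_mem`: `f y` is a limit of points of `Fb X Λ u y` (`fb_lim`; `Geo.exists_gd`).  `sb_trans`: `Geo.gd_add`.
`sb_lim`: `Gd D δ' ∩ closedBall 0 R` is compact; the `F n` and `f` satisfy the Lipschitz condition with the same constant, so the convergence is uniform there (finite net).
`sb_exists_lim`: `f y := lim` along the ultrafilter for `y ∉ D` (`isCompact_pr`, `sb_mem`), then `sb_lim`.
`sb_along`: `w n → y ∉ D`: `dist (F n (w n)) (F n y) ≤ L ‖w n - y‖` (`sb_lip`).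
-/

set_option autoImplicit false

open Topology Filter Metric

namespace Pool.Agent.TG

open Pool.Agent.H36.BP (EN fs wd)
open Pool.Agent.H14.PP (IsCone CurveAt Tan)
open Pool.Agent.H62.EF (MN pr)
open Pool.Agent.AD (Vd Chart Charts IsGerm)

variable {N k : ℕ}

variable {X : Set (EN N)} {Λ : AddSubgroup (Vd (k + 1))} {u : EN N → Vd (k + 1)} {D B : Set (Vd (k + 1))}

theorem sec_fb {f : Vd (k + 1) → MN N} (hf : f ∈ Sec X Λ u D) {y : Vd (k + 1)} (hy : y ∉ D) : f y ∈ Fb X Λ u y := by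
  obtain ⟨φ, -, h⟩ := hf.1 y hy
  obtain ⟨h1, h2, h3⟩ := h.self_of_nhds
  exact ⟨φ y, h1, h2.symm, h3⟩

theorem sec_trans (G : Geo X Λ u D B) {f : Vd (k + 1) → MN N} (hf : f ∈ Sec X Λ u D) {l : Vd (k + 1)} (hl : l ∈ Λ) :
    (fun y => f (y + l)) ∈ Sec X Λ u D := by
  refine ⟨fun y hy => ?_, fun y e he => ?_⟩
  · have hyl : y + l ∉ D := fun h => hy ((G.D_sub hl).1 h)
    obtain ⟨φ, hφ, h⟩ := hf.1 _ hyl
    have hc : AnalyticAt ℂ (fun z : Vd (k + 1) => z + l) y := analyticAt_id.add analyticAt_const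
    refine ⟨fun z => φ (z + l), AnalyticAt.fun_comp (g := φ) (f := fun z : Vd (k + 1) => z + l) hφ hc, ?_⟩
    filter_upwards [hc.continuousAt.eventually h] with z hz
    refine ⟨hz.1, hz.2.1, ?_⟩
    have h1 := Λ.add_mem hz.2.2 hl
    have h2 : u (φ (z + l)) - (z + l) + l = u (φ (z + l)) - z := by abel
    rwa [h2] at h1
  · obtain ⟨g, ⟨Φ, hΦ, hg⟩, hgf⟩ := hf.2 (y + l) e (by
      filter_upwards [he] with z hz
      have h1 : y + l + z • e = y + z • e + l := by abel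
      rw [h1]
      exact fun h => hz ((G.D_sub hl).1 h))
    refine ⟨g, ⟨Φ, hΦ, ?_⟩, ?_⟩
    · filter_upwards [hg] with z hz
      refine ⟨hz.1, hz.2.1, ?_⟩
      have h1 := Λ.add_mem hz.2.2 hl
      have h2 : u (Φ z) - (y + l + z • e) + l = u (Φ z) - (y + z • e) := by abel
      rwa [h2] at h1
    · filter_upwards [hgf] with z hz
      have h1 : y + l + z • e = y + z • e + l := by abel
      rw [h1] at hz
      exact hz

theorem sec_sb {f : Vd (k + 1) → MN N} (hf : f ∈ Sec X Λ u D) : f ∈ Sb X Λ u D := by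
  intro δ' _ R ε hε
  exact ⟨f, hf, fun y _ _ => by rw [dist_self]; exact hε⟩

theorem sb_lip (G : Geo X Λ u D B) {δ : ℝ} (hδ : 0 < δ) : ∃ L : ℝ, 0 < L ∧ ∀ f ∈ Sb X Λ u D, ∀ y ∈ Gd D δ, ∀ w ∈ closedBall y (δ / 2),
    dist (f y) (f w) ≤ L * ‖y - w‖ := by
  obtain ⟨L, hL, h⟩ := sec_lip G hδ
  refine ⟨L, hL, fun f hf y hy w hw => ?_⟩
  refine le_of_forall_pos_le_add fun ε hε => ?_
  obtain ⟨F, hF, hFf⟩ := hf (δ / 2) (by positivity) (max ‖y‖ ‖w‖) (ε / 2) (by positivity)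
  have hwG : w ∈ Gd D (δ / 2) := by
    rw [mem_closedBall, dist_eq_norm] at hw
    exact gd_mono (by linarith) (gd_near hy hw)
  have h1 := hFf y (gd_mono (by linarith) hy) (le_max_left _ _)
  have h2 := hFf w hwG (le_max_right _ _)
  have h3 := h F hF y hy w hw
  have h4 := dist_triangle (f y) (F y) (f w)
  have h5 := dist_triangle (F y) (F w) (f w)
  rw [dist_comm (f y) (F y)] at h4
  linarith

theorem sb_mem (G : Geo X Λ u D B) {f : Vd (k + 1) → MN N} (hf : f ∈ Sb X Λ u D) {y : Vd (k + 1)} (hy : y ∉ D) : f y ∈ Fb X Λ u y := by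
  obtain ⟨δ, hδ, hyG⟩ := G.exists_gd hy
  have h1 : ∀ n : ℕ, ∃ F ∈ Sec X Λ u D, dist (F y) (f y) < 1 / ((n : ℝ) + 1) := by
    intro n
    obtain ⟨F, hF, h⟩ := hf δ hδ ‖y‖ (1 / ((n : ℝ) + 1)) (by positivity)
    exact ⟨F, hF, h y hyG le_rfl⟩
  choose F hF hFd using h1
  have h2 : Tendsto (fun n => F n y) atTop (𝓝 (f y)) := by
    rw [tendsto_iff_dist_tendsto_zero]
    exact squeeze_zero (fun _ => dist_nonneg) (fun n => (hFd n).le) tendsto_one_div_add_atTop_nhds_zero_nat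
  exact (fb_lim G.cone G.lat G.tor h2 tendsto_const_nhds (Filter.Eventually.of_forall fun n => sec_fb (hF n) hy)).1

theorem sb_trans (G : Geo X Λ u D B) {f : Vd (k + 1) → MN N} (hf : f ∈ Sb X Λ u D) {l : Vd (k + 1)} (hl : l ∈ Λ) :
    (fun y => f (y + l)) ∈ Sb X Λ u D := by
  intro δ' hδ' R ε hε
  obtain ⟨F, hF, h⟩ := hf δ' hδ' (R + ‖l‖) ε hε
  exact ⟨_, sec_trans G hF hl, fun y hy hR => h _ ((G.gd_add δ' hl).2 hy) ((norm_add_le _ _).trans (by linarith))⟩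

theorem sb_lim (G : Geo X Λ u D B) (𝒰 : Ultrafilter ℕ) (F : ℕ → Vd (k + 1) → MN N) (f : Vd (k + 1) → MN N)
    (hF : ∀ᶠ n in (𝒰 : Filter ℕ), F n ∈ Sb X Λ u D) (hf : ∀ y, y ∉ D → Tendsto (fun n => F n y) 𝒰 (𝓝 (f y))) : f ∈ Sb X Λ u D := by
  intro δ' hδ' R ε hε
  obtain ⟨L, hL, hlip⟩ := sb_lip G hδ'
  set r : ℝ := min (δ' / 2) (ε / (8 * L)) with hr
  have hr0 : 0 < r := lt_min (by positivity) (by positivity)
  have hrδ : r ≤ δ' / 2 := min_le_left _ _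
  have hrL : L * r ≤ ε / 8 := by
    calc L * r ≤ L * (ε / (8 * L)) := mul_le_mul_of_nonneg_left (min_le_right _ _) hL.le
      _ = ε / 8 := by field_simp
  -- the limit is also Lipschitz
  have hlipf : ∀ y ∈ Gd D δ', ∀ w ∈ closedBall y (δ' / 2), dist (f y) (f w) ≤ L * ‖y - w‖ := by
    intro y hy w hw
    have hwG : w ∈ Gd D (δ' / 2) := by
      rw [mem_closedBall, dist_eq_norm] at hw
      exact gd_mono (by linarith) (gd_near hy hw)
    have h1 := (hf y (gd_notMem hδ' hy)).dist (hf w (gd_notMem (by positivity) hwG))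
    refine le_of_tendsto h1 ?_
    filter_upwards [hF] with n hn
    exact hlip _ hn y hy w hw
  have hK : IsCompact (closedBall (0 : Vd (k + 1)) R ∩ Gd D δ') := (isCompact_closedBall 0 R).inter_right (gd_closed D δ')
  obtain ⟨t, htK, htf, hcov⟩ := hK.finite_cover_balls hr0
  have h1 : ∀ᶠ n in (𝒰 : Filter ℕ), ∀ y ∈ t, dist (F n y) (f y) < ε / 4 := by
    rw [Filter.eventually_all_finite htf]
    intro y hy
    exact (hf y (gd_notMem hδ' (htK hy).2)).eventually (ball_mem_nhds _ (by positivity))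
  obtain ⟨n, hn, hnt⟩ := (hF.and h1).exists
  obtain ⟨H, hH, hHF⟩ := hn δ' hδ' R (ε / 2) (by positivity)
  refine ⟨H, hH, fun y hy hyR => ?_⟩
  have hyK : y ∈ closedBall (0 : Vd (k + 1)) R ∩ Gd D δ' := ⟨by rw [mem_closedBall_zero_iff]; exact hyR, hy⟩
  obtain ⟨y', hy't, hyy'⟩ := Set.mem_iUnion₂.1 (hcov hyK)
  have hy'G := (htK hy't).2
  rw [mem_ball, dist_eq_norm] at hyy'
  have hyc : y ∈ closedBall y' (δ' / 2) := by
    rw [mem_closedBall, dist_eq_norm]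
    linarith
  have h2 := hlip _ hn y' hy'G y hyc
  have h3 := hlipf y' hy'G y hyc
  have h4 := hnt y' hy't
  have h5 := hHF y hy hyR
  have h6 : L * ‖y' - y‖ ≤ ε / 8 := by
    rw [norm_sub_rev]
    exact (mul_le_mul_of_nonneg_left hyy'.le hL.le).trans hrL
  have h7 := dist_triangle (H y) (F n y) (f y)
  have h8 := dist_triangle (F n y) (F n y') (f y)
  have h9 := dist_triangle (F n y') (f y') (f y)
  rw [dist_comm (F n y) (F n y')] at h8
  linarith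

theorem sb_along (G : Geo X Λ u D B) (𝒰 : Ultrafilter ℕ) (F : ℕ → Vd (k + 1) → MN N) {f : Vd (k + 1) → MN N}
    (hF : ∀ᶠ n in (𝒰 : Filter ℕ), F n ∈ Sb X Λ u D) (hf : ∀ y, y ∉ D → Tendsto (fun n => F n y) 𝒰 (𝓝 (f y)))
    {w : ℕ → Vd (k + 1)} {y : Vd (k + 1)} (hy : y ∉ D) (hw : Tendsto w 𝒰 (𝓝 y)) : Tendsto (fun n => F n (w n)) 𝒰 (𝓝 (f y)) := by
  obtain ⟨δ, hδ, hyG⟩ := G.exists_gd hy
  obtain ⟨L, hL, hlip⟩ := sb_lip G hδ
  rw [tendsto_iff_dist_tendsto_zero]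
  have h1 : Tendsto (fun n => L * ‖y - w n‖ + dist (F n y) (f y)) 𝒰 (𝓝 0) := by
    have h2 : Tendsto (fun n => y - w n) 𝒰 (𝓝 0) := by
      have h3 := hw.const_sub y
      rwa [sub_self] at h3
    have h3 := (h2.norm.const_mul L).add (tendsto_iff_dist_tendsto_zero.1 (hf y hy))
    rwa [norm_zero, mul_zero, add_zero] at h3
  refine squeeze_zero' (Filter.Eventually.of_forall fun _ => dist_nonneg) ?_ h1
  have h2 : ∀ᶠ n in (𝒰 : Filter ℕ), w n ∈ closedBall y (δ / 2) := hw.eventually (closedBall_mem_nhds y (by positivity))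
  filter_upwards [hF, h2] with n hn hwn
  have h3 := hlip _ hn y hyG (w n) hwn
  have h4 := dist_triangle (F n (w n)) (F n y) (f y)
  rw [dist_comm (F n (w n)) (F n y)] at h4
  linarith

end Pool.Agent.TG

end

section

/-!
# TG SbB: the limits of the sections are holomorphic

`sb_lift`: let `y₀ ∈ Gd D (2δ)` (`Geo.exists_gd`), `m₀ = f y₀ = pr x₀` (`sb_mem`), `i` an index with `x₀ i ≠ 0`.  For a matrix `m` with `m (i, i) ≠ 0` let `ν m = (m (j, i) / m (i, i))_j ∈ EN N`; `ν (pr x) = x / x i` (`pr x (j, i) = x j conj (x i) / ‖x‖²`), and `pr (ν m) = m` for `m = pr x`.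
`φ y := ν (f y)`.  On a small ball `β` about `y₀` (inside `Gd D δ`) `f y (i, i)` has absolute value `≥ c > 0` (`sb_lip`).  `f` is the limit of members `F n ∈ Sec`, uniformly on `β` (definition of `Sb`), and `ν ∘ F n` is analytic on `β` for large `n` (local lifts `φ'`: `ν (pr φ') =
φ' / φ' i`), bounded, and converges uniformly to `φ`; so `φ` is separately holomorphic (`TendstoLocallyUniformlyOn.differentiableOn` on complex lines) and bounded, hence analytic (`Pool.Agent.TN.osgood_pi`).  `φ y` is a multiple of a lift of `f y ∈ Fb X Λ u y` (`sb_mem`), so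
`φ y ∈ X`, `u (φ y) - y ∈ Λ` (`fb_lift`), `pr (φ y) = f y`.
`sb_uniq`: the set `{y ∉ D : f = g near y}` contains `y₀`, is open, and closed in `Dᶜ`: let `y ∉ D` be in its closure, local lifts `φ, ψ` at `y` (`sb_lift`); the minors `φ_i ψ_j - φ_j ψ_i` are analytic near `y` and vanish on a nonempty open set in every small ball about `y`, so near `y`
(identity theorem: `AnalyticOnNhd.eqOn_of_preconnected_of_eventuallyEq`), so `f = g` near `y`.  `Dᶜ` is preconnected (`compl_conn`).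
`sb_II_analytic`: `II_analytic` with the lifts of `f`, `g`, `Cst.cap` at `(y₀, f y₀)`.
-/

set_option autoImplicit false

open Topology Filter Metric

namespace Pool.Agent.TG

open Pool.Agent.H36.BP (EN fs wd)
open Pool.Agent.H14.PP (IsCone CurveAt Tan)
open Pool.Agent.H62.EF (MN pr)
open Pool.Agent.AD (Vd Chart Charts IsGerm)

variable {N k : ℕ}

variable {X : Set (EN N)} {Λ : AddSubgroup (Vd (k + 1))} {u : EN N → Vd (k + 1)} {D B : Set (Vd (k + 1))}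

private theorem sbb_pr_apply (x : EN N) (i j : Fin (N + 1)) : pr x (j, i) = x j * (starRingEnd ℂ) (x i) / ((‖x‖ ^ 2 : ℝ) : ℂ) := rfl

/-- the affine coordinates from the matrix -/
private noncomputable def sbR (i j : Fin (N + 1)) (m : MN N) : ℂ := m (j, i) / m (i, i)

private theorem sbb_ne {x : EN N} {i : Fin (N + 1)} (h : pr x (i, i) ≠ 0) : x i ≠ 0 := by
  intro h0
  apply h
  rw [sbb_pr_apply, h0, zero_mul, zero_div]

private theorem sbR_pr {x : EN N} {i : Fin (N + 1)} (j : Fin (N + 1)) (h : x i ≠ 0) : sbR i j (pr x) = x j / x i := by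
  have hx : x ≠ 0 := by
    rintro rfl
    exact h rfl
  have h1 : ((‖x‖ ^ 2 : ℝ) : ℂ) ≠ 0 := by
    exact_mod_cast pow_ne_zero 2 (norm_ne_zero_iff.mpr hx)
  have h2 : (starRingEnd ℂ) (x i) ≠ 0 := (map_ne_zero _).mpr h
  unfold sbR
  rw [sbb_pr_apply, sbb_pr_apply]
  field_simp

private theorem sbb_norm_apply (m : MN N) (p : Fin (N + 1) × Fin (N + 1)) : ‖m p‖ ≤ ‖m‖ := PiLp.norm_apply_le m p

private theorem sbR_lip {c : ℝ} (hc : 0 < c) {i j : Fin (N + 1)} {m m' : MN N} (hm : ‖m‖ ≤ 1) (hm' : ‖m'‖ ≤ 1) (h : c ≤ ‖m (i, i)‖)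
    (h' : c ≤ ‖m' (i, i)‖) : dist (sbR i j m) (sbR i j m') ≤ 2 / c ^ 2 * dist m m' := by
  have h0 : m (i, i) ≠ 0 := fun e => by
    rw [e, norm_zero] at h
    linarith
  have h0' : m' (i, i) ≠ 0 := fun e => by
    rw [e, norm_zero] at h'
    linarith
  have h1 : sbR i j m - sbR i j m' = (m (j, i) * (m' (i, i) - m (i, i)) + m (i, i) * (m (j, i) - m' (j, i))) / (m (i, i) * m' (i, i)) := by
    unfold sbR
    field_simp
    ring
  have h2 : ‖m' (i, i) - m (i, i)‖ ≤ dist m m' := by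
    rw [dist_comm, dist_eq_norm]
    exact sbb_norm_apply (m' - m) (i, i)
  have h3 : ‖m (j, i) - m' (j, i)‖ ≤ dist m m' := by
    rw [dist_eq_norm]
    exact sbb_norm_apply (m - m') (j, i)
  have h4 : ‖m (j, i)‖ ≤ 1 := (sbb_norm_apply m _).trans hm
  have h5 : ‖m (i, i)‖ ≤ 1 := (sbb_norm_apply m _).trans hm
  rw [dist_eq_norm, h1, norm_div, norm_mul (m (i, i)) (m' (i, i)), div_le_iff₀ (mul_pos (norm_pos_iff.mpr h0) (norm_pos_iff.mpr h0'))]
  have h6 : ‖m (j, i) * (m' (i, i) - m (i, i)) + m (i, i) * (m (j, i) - m' (j, i))‖ ≤ 2 * dist m m' := by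
    refine (norm_add_le _ _).trans ?_
    rw [norm_mul, norm_mul]
    have h7 : ‖m (j, i)‖ * ‖m' (i, i) - m (i, i)‖ ≤ 1 * dist m m' := mul_le_mul h4 h2 (norm_nonneg _) zero_le_one
    have h8 : ‖m (i, i)‖ * ‖m (j, i) - m' (j, i)‖ ≤ 1 * dist m m' := mul_le_mul h5 h3 (norm_nonneg _) zero_le_one
    linarith
  have h7 : c ^ 2 ≤ ‖m (i, i)‖ * ‖m' (i, i)‖ := by
    rw [pow_two]
    exact mul_le_mul h h' hc.le (norm_nonneg _)
  have h8 : 0 ≤ 2 / c ^ 2 * dist m m' := by positivity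
  calc _ ≤ 2 * dist m m' := h6
    _ = 2 / c ^ 2 * dist m m' * c ^ 2 := by field_simp
    _ ≤ 2 / c ^ 2 * dist m m' * (‖m (i, i)‖ * ‖m' (i, i)‖) := mul_le_mul_of_nonneg_left h7 h8

/-- the affine coordinates of a section are analytic -/
private theorem sbR_sec {F : Vd (k + 1) → MN N} (hF : F ∈ Sec X Λ u D) {y : Vd (k + 1)} (hy : y ∉ D) {i : Fin (N + 1)} (j : Fin (N + 1))
    (h : F y (i, i) ≠ 0) : AnalyticAt ℂ (fun z => sbR i j (F z)) y := by
  obtain ⟨φ, hφ, hφF⟩ := hF.1 y hy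
  have hco : ∀ l : Fin (N + 1), AnalyticAt ℂ (fun z => φ z l) y := fun l =>
    ((EuclideanSpace.proj (𝕜 := ℂ) l : EN N →L[ℂ] ℂ).analyticAt _).comp hφ
  have hne : φ y i ≠ 0 := by
    have h1 := hφF.self_of_nhds.2.1
    rw [h1] at h
    exact sbb_ne h
  have h1 : AnalyticAt ℂ (fun z => φ z j / φ z i) y := (hco j).div (hco i) hne
  refine h1.congr ?_
  filter_upwards [hφF, (hco i).continuousAt.eventually_ne hne] with z hz hz2
  rw [hz.2.1, sbR_pr j hz2]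

theorem sb_lift (G : Geo X Λ u D B) {f : Vd (k + 1) → MN N} (hf : f ∈ Sb X Λ u D) {y₀ : Vd (k + 1)} (hy₀ : y₀ ∉ D) :
    ∃ φ : Vd (k + 1) → EN N, AnalyticAt ℂ φ y₀ ∧ ∀ᶠ y in 𝓝 y₀, φ y ∈ X ∧ u (φ y) - y ∈ Λ ∧ pr (φ y) = f y := by
  obtain ⟨δ, hδ, hyG⟩ := G.exists_gd hy₀
  obtain ⟨L, hL, hlip⟩ := sb_lip G hδ
  obtain ⟨x₀, hx₀, hpr, hux⟩ := sb_mem G hf hy₀
  have hx₀0 : x₀ ≠ 0 := ne_zero G.cone hx₀
  obtain ⟨i, hi⟩ : ∃ i, x₀ i ≠ 0 := by
    by_contra h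
    push Not at h
    apply hx₀0
    ext i
    exact h i
  -- lower bound
  set c₀ : ℝ := ‖f y₀ (i, i)‖ with hc₀
  have hc₀0 : 0 < c₀ := by
    rw [hc₀, norm_pos_iff, ← hpr, sbb_pr_apply]
    exact div_ne_zero (mul_ne_zero hi ((map_ne_zero _).mpr hi)) (Complex.ofReal_ne_zero.mpr (pow_ne_zero 2 (norm_ne_zero_iff.mpr hx₀0)))
  set r : ℝ := min (δ / 2) (c₀ / (4 * L)) with hr
  have hr0 : 0 < r := lt_min (by positivity) (by positivity)
  have hrδ : r ≤ δ / 2 := min_le_left _ _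
  have hrL : L * r ≤ c₀ / 4 := by
    calc L * r ≤ L * (c₀ / (4 * L)) := mul_le_mul_of_nonneg_left (min_le_right _ _) hL.le
      _ = c₀ / 4 := by field_simp
  have hβG : ∀ y ∈ ball y₀ r, y ∈ Gd D (δ / 2) := by
    intro y hy
    rw [mem_ball, dist_eq_norm] at hy
    exact gd_mono (by linarith) (gd_near hyG hy.le)
  have hβD : ∀ y ∈ ball y₀ r, y ∉ D := fun y hy => gd_notMem (by positivity) (hβG y hy)
  have hfc : ∀ y ∈ ball y₀ r, 3 * c₀ / 4 ≤ ‖f y (i, i)‖ := by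
    intro y hy
    have h1 : y ∈ closedBall y₀ (δ / 2) := ball_subset_closedBall (ball_subset_ball hrδ hy)
    have h2 := hlip f hf y₀ hyG y h1
    have h3 : ‖y₀ - y‖ ≤ r := by
      rw [norm_sub_rev, ← dist_eq_norm]
      exact (mem_ball.1 hy).le
    have h4 : dist (f y₀) (f y) ≤ c₀ / 4 := h2.trans ((mul_le_mul_of_nonneg_left h3 hL.le).trans hrL)
    have h5 : ‖f y₀ (i, i)‖ ≤ ‖f y (i, i)‖ + ‖f y₀ (i, i) - f y (i, i)‖ := by
      have := norm_add_le (f y (i, i)) (f y₀ (i, i) - f y (i, i))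
      rwa [add_sub_cancel] at this
    have h6 : ‖f y₀ (i, i) - f y (i, i)‖ ≤ dist (f y₀) (f y) := by
      rw [dist_eq_norm]
      exact sbb_norm_apply (f y₀ - f y) (i, i)
    linarith
  have hfn : ∀ y ∈ ball y₀ r, ‖f y‖ ≤ 1 := by
    intro y hy
    obtain ⟨x, hx, hxf, -⟩ := sb_mem G hf (hβD y hy)
    rw [← hxf, Pool.Agent.H62.EF.norm_pr (ne_zero G.cone hx)]
  -- the approximating sections
  have hch : ∀ n : ℕ, ∃ F ∈ Sec X Λ u D, ∀ y ∈ Gd D (δ / 2), ‖y‖ ≤ ‖y₀‖ + r → dist (F y) (f y) < min (c₀ / 4) (1 / ((n : ℝ) + 1)) := fun n =>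
    hf (δ / 2) (by positivity) (‖y₀‖ + r) _ (lt_min (by positivity) (by positivity))
  choose F hF hFd using hch
  have hFd' : ∀ n, ∀ y ∈ ball y₀ r, dist (F n y) (f y) < min (c₀ / 4) (1 / ((n : ℝ) + 1)) := by
    intro n y hy
    refine hFd n y (hβG y hy) ?_
    rw [mem_ball, dist_eq_norm] at hy
    have h1 : y = y₀ + (y - y₀) := by abel
    rw [h1]
    exact (norm_add_le _ _).trans (by linarith)
  have hFc : ∀ n, ∀ y ∈ ball y₀ r, c₀ / 2 ≤ ‖F n y (i, i)‖ := by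
    intro n y hy
    have h1 := (hFd' n y hy).trans_le (min_le_left _ _)
    have h5 : ‖f y (i, i)‖ ≤ ‖F n y (i, i)‖ + ‖f y (i, i) - F n y (i, i)‖ := by
      have := norm_add_le (F n y (i, i)) (f y (i, i) - F n y (i, i))
      rwa [add_sub_cancel] at this
    have h6 : ‖f y (i, i) - F n y (i, i)‖ ≤ dist (F n y) (f y) := by
      rw [dist_comm, dist_eq_norm]
      exact sbb_norm_apply (f y - F n y) (i, i)
    have := hfc y hy
    linarith
  have hFn : ∀ n, ∀ y ∈ ball y₀ r, ‖F n y‖ ≤ 1 := by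
    intro n y hy
    obtain ⟨x, hx, hxf, -⟩ := sec_fb (hF n) (hβD y hy)
    rw [← hxf, Pool.Agent.H62.EF.norm_pr (ne_zero G.cone hx)]
  -- the affine coordinates of the limit are analytic
  have hR : ∀ j, AnalyticAt ℂ (fun y => sbR i j (f y)) y₀ := by
    intro j
    have hc2 : 0 < c₀ / 2 := by positivity
    have hunif : TendstoUniformlyOn (fun n y => sbR i j (F n y)) (fun y => sbR i j (f y)) atTop (ball y₀ r) := by
      rw [Metric.tendstoUniformlyOn_iff]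
      intro ε hε
      have h1 : Tendsto (fun n : ℕ => 2 / (c₀ / 2) ^ 2 * (1 / ((n : ℝ) + 1))) atTop (𝓝 0) := by
        have h2 := (tendsto_one_div_add_atTop_nhds_zero_nat (𝕜 := ℝ)).const_mul (2 / (c₀ / 2) ^ 2)
        rwa [mul_zero] at h2
      filter_upwards [h1.eventually_lt_const hε] with n hn y hy
      have h3 := sbR_lip (j := j) hc2 (hfn y hy) (hFn n y hy) (by have := hfc y hy; linarith) (hFc n y hy)
      have h4 := (hFd' n y hy).trans_le (min_le_right _ _)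
      rw [dist_comm] at h4
      have h5 : 2 / (c₀ / 2) ^ 2 * dist (f y) (F n y) ≤ 2 / (c₀ / 2) ^ 2 * (1 / ((n : ℝ) + 1)) :=
        mul_le_mul_of_nonneg_left h4.le (by positivity)
      linarith
    refine Pool.Agent.TN.osgood_pi (w := y₀) (r := r) (M := 2 / c₀) hr0 ?_ ?_
    · intro y hy
      have h1 := hfc y hy
      show ‖f y (j, i) / f y (i, i)‖ ≤ _
      rw [norm_div, div_le_div_iff₀ (by linarith) hc₀0]
      have h2 : ‖f y (j, i)‖ ≤ 1 := (sbb_norm_apply _ _).trans (hfn y hy)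
      calc ‖f y (j, i)‖ * c₀ ≤ 1 * c₀ := mul_le_mul_of_nonneg_right h2 hc₀0.le
        _ ≤ 2 * ‖f y (i, i)‖ := by linarith
    · intro y hy l
      set v : Vd (k + 1) := Pi.single l 1 with hv
      have hvn : ‖v‖ ≤ 1 := by
        rw [pi_norm_le_iff_of_nonneg zero_le_one]
        intro i'
        by_cases hi' : i' = l
        · subst hi'; simp [hv]
        · simp [hv, Pi.single_eq_of_ne hi']
      set s : ℝ := r - dist y y₀ with hs
      have hs0 : 0 < s := by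
        have := mem_ball.1 hy
        linarith
      have hin : ∀ t ∈ ball (0 : ℂ) s, y + t • v ∈ ball y₀ r := by
        intro t ht
        have ht' : ‖t‖ < s := by simpa using ht
        rw [mem_ball]
        have h1 : dist (y + t • v) y ≤ ‖t‖ := by
          rw [dist_eq_norm, add_sub_cancel_left, norm_smul]
          calc ‖t‖ * ‖v‖ ≤ ‖t‖ * 1 := mul_le_mul_of_nonneg_left hvn (norm_nonneg _)
            _ = ‖t‖ := mul_one _
        have h2 := dist_triangle (y + t • v) y y₀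
        linarith
      have hu1 : TendstoUniformlyOn (fun n (t : ℂ) => sbR i j (F n (y + t • v))) (fun t : ℂ => sbR i j (f (y + t • v))) atTop (ball (0 : ℂ) s) := by
        rw [Metric.tendstoUniformlyOn_iff] at hunif ⊢
        intro ε hε
        filter_upwards [hunif ε hε] with n hn t ht
        exact hn _ (hin t ht)
      have hd : DifferentiableOn ℂ (fun t : ℂ => sbR i j (f (y + t • v))) (ball (0 : ℂ) s) := by
        refine hu1.tendstoLocallyUniformlyOn.differentiableOn (Filter.Eventually.of_forall fun n t ht => ?_) isOpen_ball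
        have h1 : AnalyticAt ℂ (fun z => sbR i j (F n z)) (y + t • v) :=
          sbR_sec (hF n) (hβD _ (hin t ht)) j fun h => by
            have h2 := hFc n _ (hin t ht)
            rw [h, norm_zero] at h2
            linarith
        have h2 : DifferentiableAt ℂ (fun t : ℂ => y + t • v) t := by fun_prop
        exact (h1.differentiableAt.comp t h2).differentiableWithinAt
      exact hd.differentiableAt (isOpen_ball.mem_nhds (mem_ball_self hs0))
  refine ⟨fun y => WithLp.toLp 2 fun j => sbR i j (f y), ?_, ?_⟩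
  · have h1 : AnalyticAt ℂ (fun y => fun j => sbR i j (f y)) y₀ := analyticAt_pi_iff.2 hR
    exact ((PiLp.continuousLinearEquiv 2 ℂ (fun _ : Fin (N + 1) => ℂ)).symm.toContinuousLinearMap.analyticAt _).comp h1
  · filter_upwards [isOpen_ball.mem_nhds (mem_ball_self hr0 : y₀ ∈ ball y₀ r)] with y hy
    obtain ⟨x, hx, hxf, hux'⟩ := sb_mem G hf (hβD y hy)
    have hxi : x i ≠ 0 := by
      apply sbb_ne
      rw [hxf]
      intro h
      have h2 := hfc y hy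
      rw [h, norm_zero] at h2
      linarith
    have h1 : (WithLp.toLp 2 fun j => sbR i j (f y) : EN N) = (x i)⁻¹ • x := by
      ext j
      show sbR i j (f y) = (x i)⁻¹ * x j
      rw [← hxf, sbR_pr j hxi, div_eq_inv_mul]
    rw [h1]
    exact ⟨G.cone.smul_mem x hx _ (inv_ne_zero hxi), smul_mem_lat G.tor hx hux' (inv_ne_zero hxi), by
      rw [Pool.Agent.H62.EF.pr_smul _ (inv_ne_zero hxi), hxf]⟩

/-- vectors with vanishing minors -/
private theorem sbb_pr_eq {x y : EN N} (hx : x ≠ 0) (hy : y ≠ 0) (h : ∀ i j, x i * y j = x j * y i) : pr x = pr y := by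
  obtain ⟨j, hj⟩ : ∃ j, y j ≠ 0 := by
    by_contra h
    push Not at h
    apply hy
    ext i
    exact h i
  have h1 : x = (x j / y j) • y := by
    ext i
    show x i = x j / y j * y i
    rw [div_mul_eq_mul_div, ← h i j, mul_div_assoc, div_self hj, mul_one]
  have h2 : x j / y j ≠ 0 := by
    intro h0
    rw [h0, zero_smul] at h1
    exact hx h1
  rw [Pool.Agent.H62.EF.pr_eq_iff hx hy]
  exact ⟨_, h2, h1⟩

theorem sb_uniq (G : Geo X Λ u D B) {f g : Vd (k + 1) → MN N} (hf : f ∈ Sb X Λ u D) (hg : g ∈ Sb X Λ u D) {y₀ : Vd (k + 1)} (hy₀ : y₀ ∉ D)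
    (h : ∀ᶠ y in 𝓝 y₀, f y = g y) : Ag D f g := by
  have hcon : IsPreconnected (Dᶜ : Set (Vd (k + 1))) := compl_conn G.D_closed G.D_thin
  set U : Set (Vd (k + 1)) := {z | ∀ᶠ w in 𝓝 z, f w = g w} with hU
  have hUo : IsOpen U := by
    rw [isOpen_iff_mem_nhds]
    intro z hz
    exact hz.eventually_nhds
  have hsub : (Dᶜ : Set (Vd (k + 1))) ⊆ U := by
    refine hcon.subset_of_closure_inter_subset hUo ⟨y₀, hy₀, h⟩ ?_
    rintro y ⟨hyc, hyD⟩
    obtain ⟨φ, hφ, hφf⟩ := sb_lift G hf hyD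
    obtain ⟨ψ, hψ, hψg⟩ := sb_lift G hg hyD
    have h1 := hφ.eventually_analyticAt.and (hψ.eventually_analyticAt.and (hφf.and hψg))
    obtain ⟨r, hr, hb⟩ := Metric.eventually_nhds_iff_ball.1 h1
    obtain ⟨w, hwb, hwU⟩ := _root_.mem_closure_iff.1 hyc (ball y r) isOpen_ball (mem_ball_self hr)
    have hco : ∀ {η : Vd (k + 1) → EN N} {z : Vd (k + 1)}, AnalyticAt ℂ η z → ∀ l : Fin (N + 1), AnalyticAt ℂ (fun z => η z l) z :=
      fun hη l => ((EuclideanSpace.proj (𝕜 := ℂ) l : EN N →L[ℂ] ℂ).analyticAt _).comp hη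
    have h2 : ∀ i j : Fin (N + 1), ∀ z ∈ ball y r, φ z i * ψ z j = φ z j * ψ z i := by
      intro i j z hz
      have h3 : AnalyticOnNhd ℂ (fun z => φ z i * ψ z j - φ z j * ψ z i) (ball y r) := fun v hv => by
        have h4 := hb v hv
        exact ((hco h4.1 i).mul (hco h4.2.1 j)).sub ((hco h4.1 j).mul (hco h4.2.1 i))
      have h4 : ∀ᶠ v in 𝓝 w, φ v i * ψ v j - φ v j * ψ v i = 0 := by
        filter_upwards [hwU, isOpen_ball.mem_nhds hwb] with v hv hvb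
        obtain ⟨-, -, ⟨h5, h6, h7⟩, h8, h9, h10⟩ := hb v hvb
        obtain ⟨c, -, hc⟩ := (Pool.Agent.H62.EF.pr_eq_iff (ne_zero G.cone h5) (ne_zero G.cone h8)).1 (by rw [h7, h10, hv])
        rw [hc]
        show c * ψ v i * ψ v j - c * ψ v j * ψ v i = 0
        ring
      exact sub_eq_zero.1 (h3.eqOn_zero_of_preconnected_of_eventuallyEq_zero (convex_ball y r).isPreconnected hwb h4 hz)
    show ∀ᶠ w in 𝓝 y, f w = g w
    filter_upwards [isOpen_ball.mem_nhds (mem_ball_self hr : y ∈ ball y r)] with z hz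
    obtain ⟨-, -, ⟨h5, h6, h7⟩, h8, h9, h10⟩ := hb z hz
    rw [← h7, ← h10]
    exact sbb_pr_eq (ne_zero G.cone h5) (ne_zero G.cone h8) fun i j => h2 i j z hz
  intro z hz
  exact (hsub hz : z ∈ U).self_of_nhds

theorem sb_II_analytic (G : Geo X Λ u D B) {δ ε ε₀ : ℝ} (hc : Cst X Λ u D δ ε ε₀) {α : VForm X Λ u} {f g : Vd (k + 1) → MN N}
    (hf : f ∈ Sb X Λ u D) (hg : g ∈ Sb X Λ u D) {y₀ : Vd (k + 1)} (hy₀ : y₀ ∈ Gd D δ)
    (hrel : ∀ᶠ y in 𝓝 y₀, ∃ v, IRel α ε y (f y) (g y) v) : AnalyticAt ℂ (fun y => II α ε y (f y) (g y)) y₀ := by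
  have hyD : y₀ ∉ D := gd_notMem hc.δ_pos hy₀
  obtain ⟨φ, hφ, hφf⟩ := sb_lift G hf hyD
  obtain ⟨ψ, hψ, hψg⟩ := sb_lift G hg hyD
  obtain ⟨χ, c, ρ, hcap⟩ := hc.cap y₀ hy₀ (f y₀) (sb_mem G hf hyD)
  rw [← hφf.self_of_nhds.2.2] at hcap
  have h1 := II_analytic G.cone G.tor G.lat hφ hψ (hφf.mono fun y hy => ⟨hy.1, hy.2.1⟩) (hψg.mono fun y hy => ⟨hy.1, hy.2.1⟩) hcap
    (by linarith [hc.ε_pos]) (α := α) (ε := ε) (by
      filter_upwards [hrel, hφf, hψg] with y hy h2 h3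
      rw [h2.2.2, h3.2.2]
      exact hy)
  refine h1.congr ?_
  filter_upwards [hφf, hψg] with y h2 h3
  rw [h2.2.2, h3.2.2]

end Pool.Agent.TG

end
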