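import Pool.Agent.H94.G4T.M13

/-! The parts of this file: G3.X.Inv, G4.E.Mom, G4.H.Jen, G4.H.Sch, H13.CV.EllB, H13.CV.MerO, H62.FC.Lattice. -/

section

/-!
# G3 X Inv: the inverse of a small perturbation of a function with `ξ₀ 0 = 0`, `ξ₀' 0 = a ≠ 0`

`S₁ ≤ S` such that `ξ₀` is differentiable on `ball 0 S₁` and `‖deriv ξ₀ z - a‖ ≤ ‖a‖ / 20` there.  For `ξ` as stated and `z ∈ ball 0 (S₁ / 2)`: `‖deriv ξ z - deriv ξ₀ z‖ ≤ δ / (S₁ / 2) ≤ ‖a‖ / 50` (Cauchy,
`Complex.norm_deriv_le_of_forall_mem_sphere_norm_le`, on circles of radius `< S₁ / 2`), so `‖deriv ξ z - a‖ ≤ ‖a‖ / 10` and on the convex set `ball 0 (S₁ / 2)` the function `ξ z - a z` is Lipschitz with the constant `‖a‖ / 10`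
(`Convex.norm_image_sub_le_of_norm_deriv_le`): the two inequalities.
`θ`: `ξ` is injective with nonvanishing derivative on `ball 0 (S₁ / 2)`, and its image contains `ball 0 (‖a‖ S₁ / 4)`: for `w` in it the map `z ↦ z - (ξ z - w) / a` maps `closedBall 0 (2 S₁ / 5)` into itself (`‖ξ 0‖ ≤ δ ≤ ‖a‖ S₁ / 100`) and is a contraction with the constant `1/10`
(`ContractingWith`), or `ApproximatesLinearOn.surjOn_closedBall_of_nonlinearRightInverse`.  The inverse function is continuous (expansion) and differentiable (`HasDerivAt.of_local_left_inverse`).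
-/

set_option autoImplicit false

open Topology Filter Metric

namespace Pool.Agent.GX

theorem exists_inv {ξ₀ : ℂ → ℂ} {a : ℂ} (ha : a ≠ 0) (h : AnalyticAt ℂ ξ₀ 0) (h0 : ξ₀ 0 = 0) (hd : deriv ξ₀ 0 = a) {S : ℝ} (hS : 0 < S) :
    ∃ S₁ : ℝ, 0 < S₁ ∧ S₁ ≤ S ∧ DifferentiableOn ℂ ξ₀ (ball 0 S₁) ∧ ∀ (δ : ℝ) (ξ : ℂ → ℂ), δ ≤ ‖a‖ * S₁ / 100 → DifferentiableOn ℂ ξ (ball 0 S₁) →
      (∀ z ∈ ball (0 : ℂ) S₁, ‖ξ z - ξ₀ z‖ ≤ δ) →
      (∀ z ∈ ball (0 : ℂ) (S₁ / 2), ∀ w ∈ ball (0 : ℂ) (S₁ / 2), 9 / 10 * ‖a‖ * ‖z - w‖ ≤ ‖ξ z - ξ w‖ ∧ ‖ξ z - ξ w‖ ≤ 11 / 10 * ‖a‖ * ‖z - w‖) ∧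
      ∃ θ : ℂ → ℂ, DifferentiableOn ℂ θ (ball 0 (‖a‖ * S₁ / 4)) ∧ (∀ w ∈ ball (0 : ℂ) (‖a‖ * S₁ / 4), θ w ∈ ball (0 : ℂ) (S₁ / 2) ∧ ξ (θ w) = w) ∧
        ∀ z ∈ ball (0 : ℂ) (S₁ / 2), ξ z ∈ ball (0 : ℂ) (‖a‖ * S₁ / 4) → θ (ξ z) = z := by
  have ha' : 0 < ‖a‖ := norm_pos_iff.2 ha
  -- the radius
  have e1 : ∀ᶠ z in 𝓝 (0 : ℂ), AnalyticAt ℂ ξ₀ z ∧ ‖deriv ξ₀ z - a‖ < ‖a‖ / 20 := by
    have h1 : ContinuousAt (fun z => ‖deriv ξ₀ z - a‖) 0 := (h.deriv.continuousAt.sub continuousAt_const).norm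
    have h2 : ∀ᶠ z in 𝓝 (0 : ℂ), ‖deriv ξ₀ z - a‖ < ‖a‖ / 20 := by
      refine h1.eventually_lt_const ?_
      show ‖deriv ξ₀ 0 - a‖ < ‖a‖ / 20
      rw [hd, sub_self, norm_zero]
      positivity
    exact h.eventually_analyticAt.and h2
  obtain ⟨S₂, hS₂, hb⟩ := Metric.eventually_nhds_iff_ball.1 e1
  refine ⟨min S S₂, lt_min hS hS₂, min_le_left _ _, fun z hz => (hb z (ball_subset_ball (min_le_right _ _) hz)).1.differentiableAt.differentiableWithinAt, ?_⟩
  have hb' : ∀ z ∈ ball (0 : ℂ) (min S S₂), AnalyticAt ℂ ξ₀ z ∧ ‖deriv ξ₀ z - a‖ < ‖a‖ / 20 := fun z hz => hb z (ball_subset_ball (min_le_right _ _) hz)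
  have hS₁ : 0 < min S S₂ := lt_min hS hS₂
  clear hb e1
  generalize min S S₂ = S₁ at hb' hS₁ ⊢
  intro δ ξ hδ hξ hξξ
  have hfd : DifferentiableOn ℂ (fun z => ξ z - ξ₀ z) (ball 0 S₁) := fun z hz => (hξ z hz).sub (hb' z hz).1.differentiableAt.differentiableWithinAt
  have hsub : ∀ z ∈ ball (0 : ℂ) (S₁ / 2), z ∈ ball (0 : ℂ) S₁ := fun z hz => ball_subset_ball (by linarith) hz
  have hξa : ∀ z ∈ ball (0 : ℂ) (S₁ / 2), HasDerivAt ξ (deriv ξ z) z := fun z hz =>
    ((hξ z (hsub z hz)).differentiableAt (isOpen_ball.mem_nhds (hsub z hz))).hasDerivAt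
  have hder : ∀ z ∈ ball (0 : ℂ) (S₁ / 2), ‖deriv ξ z - a‖ ≤ ‖a‖ / 10 := by
    intro z hz
    have hcl : closedBall z (S₁ / 2) ⊆ ball (0 : ℂ) S₁ := by
      intro w hw
      rw [mem_closedBall, dist_eq_norm] at hw
      rw [mem_ball_zero_iff] at hz ⊢
      have := norm_add_le (w - z) z
      rw [sub_add_cancel] at this
      linarith
    have h1 : DiffContOnCl ℂ (fun z => ξ z - ξ₀ z) (ball z (S₁ / 2)) := by
      refine DifferentiableOn.diffContOnCl ?_
      rw [closure_ball z (by positivity : S₁ / 2 ≠ 0)]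
      exact hfd.mono hcl
    have h2 := Complex.norm_deriv_le_of_forall_mem_sphere_norm_le (by positivity : 0 < S₁ / 2) h1 (C := δ) (fun w hw => hξξ w (hcl (sphere_subset_closedBall hw)))
    have h3 : deriv (fun z => ξ z - ξ₀ z) z = deriv ξ z - deriv ξ₀ z := ((hξa z hz).sub (hb' z (hsub z hz)).1.differentiableAt.hasDerivAt).deriv
    rw [h3] at h2
    have h4 : δ / (S₁ / 2) ≤ ‖a‖ / 50 := by
      rw [div_le_iff₀ (by positivity)]
      linarith
    have h5 : deriv ξ z - a = (deriv ξ z - deriv ξ₀ z) + (deriv ξ₀ z - a) := by ring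
    rw [h5]
    have h6 := norm_add_le (deriv ξ z - deriv ξ₀ z) (deriv ξ₀ z - a)
    have h7 := (hb' z (hsub z hz)).2
    linarith
  have hne : ∀ z ∈ ball (0 : ℂ) (S₁ / 2), deriv ξ z ≠ 0 := by
    intro z hz h0'
    have h1 := hder z hz
    rw [h0', zero_sub, norm_neg] at h1
    linarith
  -- the function `ξ z - a z` is Lipschitz
  have hlip : ∀ z ∈ ball (0 : ℂ) (S₁ / 2), ∀ w ∈ ball (0 : ℂ) (S₁ / 2), ‖(ξ z - a * z) - (ξ w - a * w)‖ ≤ ‖a‖ / 10 * ‖z - w‖ := by
    intro z hz w hw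
    have h1 : ∀ y ∈ ball (0 : ℂ) (S₁ / 2), HasDerivAt (fun z => ξ z - a * z) (deriv ξ y - a) y := by
      intro y hy
      have h2 : HasDerivAt (fun z : ℂ => a * z) a y := by
        have := (hasDerivAt_id y).const_mul a
        rwa [mul_one] at this
      exact (hξa y hy).sub h2
    exact (convex_ball (0 : ℂ) (S₁ / 2)).norm_image_sub_le_of_norm_deriv_le (f := fun z => ξ z - a * z) (fun y hy => (h1 y hy).differentiableAt)
      (fun y hy => by rw [(h1 y hy).deriv]; exact hder y hy) hw hz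
  have hexp : ∀ z ∈ ball (0 : ℂ) (S₁ / 2), ∀ w ∈ ball (0 : ℂ) (S₁ / 2), 9 / 10 * ‖a‖ * ‖z - w‖ ≤ ‖ξ z - ξ w‖ ∧ ‖ξ z - ξ w‖ ≤ 11 / 10 * ‖a‖ * ‖z - w‖ := by
    intro z hz w hw
    have h1 := hlip z hz w hw
    have h2 : (ξ z - a * z) - (ξ w - a * w) = (ξ z - ξ w) - a * (z - w) := by ring
    rw [h2] at h1
    have h3 : ‖a * (z - w)‖ = ‖a‖ * ‖z - w‖ := norm_mul _ _
    have h4 : ‖a * (z - w)‖ ≤ ‖ξ z - ξ w‖ + ‖(ξ z - ξ w) - a * (z - w)‖ := by
      have := norm_sub_le (ξ z - ξ w) ((ξ z - ξ w) - a * (z - w))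
      rwa [sub_sub_cancel] at this
    have h5 : ‖ξ z - ξ w‖ ≤ ‖(ξ z - ξ w) - a * (z - w)‖ + ‖a * (z - w)‖ := by
      have := norm_add_le ((ξ z - ξ w) - a * (z - w)) (a * (z - w))
      rwa [sub_add_cancel] at this
    constructor
    · linarith
    · linarith
  refine ⟨hexp, ?_⟩
  have hinj : ∀ z ∈ ball (0 : ℂ) (S₁ / 2), ∀ w ∈ ball (0 : ℂ) (S₁ / 2), ξ z = ξ w → z = w := by
    intro z hz w hw hzw
    have h1 := (hexp z hz w hw).1
    rw [hzw, sub_self, norm_zero] at h1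
    have h2 : ‖z - w‖ = 0 := by
      by_contra hcon
      have h3 : 0 < ‖z - w‖ := lt_of_le_of_ne (norm_nonneg _) (Ne.symm hcon)
      have : 0 < 9 / 10 * ‖a‖ * ‖z - w‖ := by positivity
      linarith
    exact sub_eq_zero.1 (norm_eq_zero.1 h2)
  -- the inverse, by the contraction principle
  have hex : ∀ w ∈ ball (0 : ℂ) (‖a‖ * S₁ / 4), ∃ z : ℂ, z ∈ ball (0 : ℂ) (S₁ / 2) ∧ ξ z = w := by
    intro w hw
    rw [mem_ball_zero_iff] at hw
    set K : Set ℂ := closedBall 0 (2 * S₁ / 5) with hK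
    have hKs : K ⊆ ball (0 : ℂ) (S₁ / 2) := closedBall_subset_ball (by linarith)
    have h0K : (0 : ℂ) ∈ K := mem_closedBall_self (by positivity)
    have hF0 : ‖ξ 0‖ ≤ ‖a‖ * S₁ / 100 := by
      have h1 := hξξ 0 (mem_ball_self hS₁)
      rw [h0, sub_zero] at h1
      exact h1.trans hδ
    have hmaps : Set.MapsTo (fun z => (w - (ξ z - a * z)) / a) K K := by
      intro z hz
      have h1 := hlip z (hKs hz) 0 (hKs h0K)
      rw [mul_zero, sub_zero, sub_zero] at h1
      rw [hK, mem_closedBall_zero_iff] at hz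
      rw [hK, mem_closedBall_zero_iff, norm_div, div_le_iff₀ ha']
      have h2 : ‖w - (ξ z - a * z)‖ ≤ ‖w‖ + ‖ξ z - a * z‖ := norm_sub_le _ _
      have h3 : ‖ξ z - a * z‖ ≤ ‖(ξ z - a * z) - ξ 0‖ + ‖ξ 0‖ := by
        have := norm_add_le ((ξ z - a * z) - ξ 0) (ξ 0)
        rwa [sub_add_cancel] at this
      have h4 : ‖a‖ / 10 * ‖z‖ ≤ ‖a‖ / 10 * (2 * S₁ / 5) := mul_le_mul_of_nonneg_left hz (by positivity)
      have h5 : 0 < ‖a‖ * S₁ := by positivity
      nlinarith
    have hcon : ContractingWith (1 / 10 : NNReal) (hmaps.restrict (fun z => (w - (ξ z - a * z)) / a) K K) := by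
      refine ⟨?_, ?_⟩
      · rw [← NNReal.coe_lt_coe]
        push_cast
        norm_num
      · refine LipschitzWith.of_dist_le_mul fun x y => ?_
        rw [Subtype.dist_eq, Subtype.dist_eq, dist_eq_norm, dist_eq_norm]
        have h1 := hlip y.1 (hKs y.2) x.1 (hKs x.2)
        have h2 : ((hmaps.restrict (fun z => (w - (ξ z - a * z)) / a) K K) x : ℂ) - ((hmaps.restrict (fun z => (w - (ξ z - a * z)) / a) K K) y : ℂ) =
            ((ξ y.1 - a * y.1) - (ξ x.1 - a * x.1)) / a := by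
          simp only [Set.MapsTo.val_restrict_apply]
          ring
        rw [h2, norm_div, div_le_iff₀ ha']
        push_cast
        rw [norm_sub_rev x.1 y.1]
        linarith
    obtain ⟨z, hz, hfix, -⟩ := hcon.exists_fixedPoint' isClosed_closedBall.isComplete hmaps h0K (edist_ne_top _ _)
    have hfix' : (w - (ξ z - a * z)) / a = z := hfix
    refine ⟨z, hKs hz, ?_⟩
    rw [div_eq_iff ha] at hfix'
    linear_combination -hfix'
  choose! θ h1 h2 using hex
  have hinv : ∀ z ∈ ball (0 : ℂ) (S₁ / 2), ξ z ∈ ball (0 : ℂ) (‖a‖ * S₁ / 4) → θ (ξ z) = z := fun z hz hw => hinj _ (h1 _ hw) _ hz (h2 _ hw)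
  have hcont : ContinuousOn θ (ball 0 (‖a‖ * S₁ / 4)) := by
    refine (LipschitzOnWith.of_dist_le_mul (K := ⟨10 / 9 / ‖a‖, by positivity⟩) fun x hx y hy => ?_).continuousOn
    rw [dist_eq_norm, dist_eq_norm]
    have h3 := (hexp _ (h1 x hx) _ (h1 y hy)).1
    rw [h2 x hx, h2 y hy] at h3
    show ‖θ x - θ y‖ ≤ 10 / 9 / ‖a‖ * ‖x - y‖
    calc ‖θ x - θ y‖ = 10 / 9 / ‖a‖ * (9 / 10 * ‖a‖ * ‖θ x - θ y‖) := by field_simp
      _ ≤ _ := mul_le_mul_of_nonneg_left h3 (by positivity)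
  refine ⟨θ, fun w hw => ?_, fun w hw => ⟨h1 w hw, h2 w hw⟩, hinv⟩
  have h4 : ContinuousAt θ w := hcont.continuousAt (isOpen_ball.mem_nhds hw)
  have h5 : ∀ᶠ v in 𝓝 w, ξ (θ v) = v := by
    filter_upwards [isOpen_ball.mem_nhds hw] with v hv
    exact h2 v hv
  exact (HasDerivAt.of_local_left_inverse h4 (hξa _ (h1 w hw)) (hne _ (h1 w hw)) h5).differentiableAt.differentiableWithinAt

end Pool.Agent.GX

end

section

/-!
# G4 E Mom: a function on a circle whose moments vanish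

`mom_zero`: `f` continuous on the circle `‖w‖ = r` with `∮ w ^ j * f w = 0` for all `j`, `k` entire: `∮ k w * f w = 0` (the Taylor series of `k` converges uniformly on the circle).
`mom_quot`: `h`, `p` entire, `h` has no zeros on the circle, the moments of `p / h` vanish: then the Cauchy integral `G` of `p / h` satisfies `h * G = p` in the disc.
-/

set_option autoImplicit false

open Topology Filter Metric

namespace Pool.Agent.G4.E

theorem mom_zero {r : ℝ} (hr : 0 < r) {f : ℂ → ℂ} (hf : ContinuousOn f (sphere 0 r)) (h0 : ∀ j : ℕ, (∮ w in C(0, r), w ^ j * f w) = 0) {k : ℂ → ℂ} (hk : Differentiable ℂ k) :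
    (∮ w in C(0, r), k w * f w) = 0 := by
  -- the partial sums
  obtain ⟨p, hp⟩ : ∃ p : FormalMultilinearSeries ℂ ℂ ℂ, HasFPowerSeriesOnBall k p 0 ⊤ := ⟨_, hk.hasFPowerSeriesOnBall 0 one_pos⟩
  have hps : ∀ (n : ℕ) (w : ℂ), p.partialSum n w = ∑ i ∈ Finset.range n, p.coeff i * w ^ i := by
    intro n w
    unfold FormalMultilinearSeries.partialSum
    refine Finset.sum_congr rfl fun i _ => ?_
    rw [FormalMultilinearSeries.apply_eq_pow_smul_coeff, smul_eq_mul, mul_comm]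
  have hz : ∀ n : ℕ, (∮ w in C(0, r), p.partialSum n w * f w) = 0 := by
    intro n
    have h1 : ∀ w, p.partialSum n w * f w = ∑ i ∈ Finset.range n, p.coeff i * (w ^ i * f w) := by
      intro w
      rw [hps, Finset.sum_mul]
      exact Finset.sum_congr rfl fun i _ => by ring
    simp only [h1]
    rw [circleIntegral.integral_fun_sum]
    · refine Finset.sum_eq_zero fun i _ => ?_
      rw [circleIntegral.integral_const_mul, h0 i, mul_zero]
    · intro i _
      refine ContinuousOn.circleIntegrable hr.le ?_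
      exact continuousOn_const.mul ((by fun_prop : ContinuousOn (fun z : ℂ => z ^ i) _).mul hf)
  obtain ⟨C, hC⟩ := (isCompact_sphere (0 : ℂ) r).exists_bound_of_continuousOn hf
  have hC0 : 0 ≤ C := by
    have h1 := hC (r : ℂ) (by simp [abs_of_pos hr])
    exact (norm_nonneg _).trans h1
  have hu := hp.tendstoUniformlyOn' (r' := ⟨r + 1, by linarith⟩) (ENNReal.coe_lt_top)
  -- small
  by_contra hne
  have hpos : 0 < ‖∮ w in C(0, r), k w * f w‖ := norm_pos_iff.2 hne
  obtain ⟨ε, hε, hε'⟩ : ∃ ε : ℝ, 0 < ε ∧ 2 * Real.pi * r * (ε * C) < ‖∮ w in C(0, r), k w * f w‖ := by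
    refine ⟨‖∮ w in C(0, r), k w * f w‖ / (2 * (2 * Real.pi * r * C + 1)), by positivity, ?_⟩
    have h1 : 0 < 2 * Real.pi * r * C + 1 := by positivity
    rw [show 2 * Real.pi * r * (‖∮ w in C(0, r), k w * f w‖ / (2 * (2 * Real.pi * r * C + 1)) * C) =
      ‖∮ w in C(0, r), k w * f w‖ * ((2 * Real.pi * r * C) / (2 * (2 * Real.pi * r * C + 1))) by field_simp]
    refine mul_lt_of_lt_one_right hpos ?_
    rw [div_lt_one (by positivity)]
    nlinarith [Real.pi_pos, mul_nonneg (mul_nonneg Real.pi_pos.le hr.le) hC0]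
  obtain ⟨n, hn⟩ := ((Metric.tendstoUniformlyOn_iff.1 hu) ε hε).exists
  have h2 : (∮ w in C(0, r), k w * f w) = ∮ w in C(0, r), (k w - p.partialSum n w) * f w := by
    have h3 : (fun w => (k w - p.partialSum n w) * f w) = fun w => k w * f w - p.partialSum n w * f w := by
      funext w
      ring
    rw [h3, circleIntegral.integral_sub, hz n, sub_zero]
    · exact ContinuousOn.circleIntegrable hr.le (hk.continuous.continuousOn.mul hf)
    · refine ContinuousOn.circleIntegrable hr.le (ContinuousOn.mul ?_ hf)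
      have h4 : p.partialSum n = fun w => ∑ i ∈ Finset.range n, p.coeff i * w ^ i := funext (hps n)
      rw [h4]
      fun_prop
  have h3 : ‖∮ w in C(0, r), (k w - p.partialSum n w) * f w‖ ≤ 2 * Real.pi * r * (ε * C) := by
    refine circleIntegral.norm_integral_le_of_norm_le_const hr.le fun w hw => ?_
    rw [norm_mul]
    have hwb : w ∈ ball (0 : ℂ) (r + 1) := by
      rw [mem_ball]
      rw [mem_sphere] at hw
      linarith
    have h5 := hn w hwb
    rw [sub_zero, dist_eq_norm] at h5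
    exact mul_le_mul h5.le (hC w hw) (norm_nonneg _) hε.le
  rw [← h2] at h3
  linarith

theorem mom_quot {r : ℝ} (hr : 0 < r) {h p : ℂ → ℂ} (hh : Differentiable ℂ h) (hp : Differentiable ℂ p) (hne : ∀ w ∈ sphere (0 : ℂ) r, h w ≠ 0)
    (h0 : ∀ j : ℕ, (∮ w in C(0, r), w ^ j * (p w / h w)) = 0) {z : ℂ} (hz : z ∈ ball (0 : ℂ) r) :
    h z * ((2 * Real.pi * Complex.I)⁻¹ * ∮ w in C(0, r), (w - z)⁻¹ * (p w / h w)) = p z := by
  have hf : ContinuousOn (fun w => p w / h w) (sphere 0 r) := hp.continuous.continuousOn.div hh.continuous.continuousOn hne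
  have hzw : ∀ w ∈ sphere (0 : ℂ) r, w - z ≠ 0 := by
    intro w hw h1
    rw [sub_eq_zero.1 h1, mem_sphere] at hw
    rw [mem_ball] at hz
    linarith
  have hd : Differentiable ℂ (dslope h z) := by
    rw [← differentiableOn_univ, Complex.differentiableOn_dslope Filter.univ_mem]
    exact hh.differentiableOn
  have h1 := mom_zero hr hf h0 hd
  have h2 : ∀ w ∈ sphere (0 : ℂ) r, dslope h z w * (p w / h w) = (w - z)⁻¹ * p w - h z * ((w - z)⁻¹ * (p w / h w)) := by
    intro w hw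
    have h3 := sub_smul_dslope h z w
    rw [smul_eq_mul] at h3
    have h4 : dslope h z w = (w - z)⁻¹ * (h w - h z) := by
      rw [← h3, ← mul_assoc, inv_mul_cancel₀ (hzw w hw), one_mul]
    rw [h4]
    have h5 := hne w hw
    field_simp
  have hc1 : ContinuousOn (fun w => (w - z)⁻¹ * p w) (sphere 0 r) := by
    refine ContinuousOn.mul (ContinuousOn.inv₀ (by fun_prop) hzw) hp.continuous.continuousOn
  have hc2 : ContinuousOn (fun w => (w - z)⁻¹ * (p w / h w)) (sphere 0 r) := by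
    refine ContinuousOn.mul (ContinuousOn.inv₀ (by fun_prop) hzw) hf
  have h3 : (∮ w in C(0, r), dslope h z w * (p w / h w)) = (∮ w in C(0, r), (w - z)⁻¹ * p w) - h z * ∮ w in C(0, r), (w - z)⁻¹ * (p w / h w) := by
    have h6 : CircleIntegrable (fun w => h z * ((w - z)⁻¹ * (p w / h w))) 0 r := ContinuousOn.circleIntegrable hr.le (continuousOn_const.mul hc2)
    rw [← circleIntegral.integral_const_mul, ← circleIntegral.integral_sub (ContinuousOn.circleIntegrable hr.le hc1) h6]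
    exact circleIntegral.integral_congr hr.le h2
  have h4 : (2 * Real.pi * Complex.I)⁻¹ * (∮ w in C(0, r), (w - z)⁻¹ * p w) = p z := by
    have h5 := Complex.two_pi_I_inv_smul_circleIntegral_sub_inv_smul_of_differentiable_on_off_countable (f := p) (c := (0 : ℂ)) (R := r) (w := z) (s := ∅)
      Set.countable_empty hz hp.continuous.continuousOn (fun x _ => hp x)
    simpa only [smul_eq_mul] using h5
  rw [h3, sub_eq_zero] at h1
  calc h z * ((2 * Real.pi * Complex.I)⁻¹ * ∮ w in C(0, r), (w - z)⁻¹ * (p w / h w)) = (2 * Real.pi * Complex.I)⁻¹ * (h z * ∮ w in C(0, r), (w - z)⁻¹ * (p w / h w)) := by ring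
    _ = (2 * Real.pi * Complex.I)⁻¹ * (∮ w in C(0, r), (w - z)⁻¹ * p w) := by rw [← h1]
    _ = p z := h4

end Pool.Agent.G4.E

end

section

/-!
# G4 H Jen: zeros of high order, Jensen

`φ` entire, `‖φ z‖ ≤ B exp (M (w₀ + 2 Re (c (z - z₁)) + q ‖z - z₁‖²))` (the weight on a line), `m₀ exp (M w₀) ≤ ‖φ z₁‖`, divisible by `(z - e) ^ l` for the `e` in the finite set `S ⊆ closedBall z₁ R`: then
`l * #S ≤ M q (e R)² + log (B / m₀)`, `e = exp 1` (Jensen for the radius `e R`; or the maximum principle for `φ z exp (- 2 M c (z - z₁)) / ∏ (z - e) ^ l` on the ball of radius `2 e R`…: any constant instead of `e²` is fine, here `16`).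
Proof by the maximum principle: `ψ` with `φ = ∏ (z - e) ^ l ψ` (`hdiv` gives the factorisation for one `e` at a time; `∏` by induction), on the circle `‖z - z₁‖ = 4 R`: `‖z - e‖ ≥ 3 R`, at `z₁`: `‖z₁ - e‖ ≤ R`; so
`‖φ z₁‖ ≤ R ^ (l #S) ‖ψ z₁‖ ≤ R ^ (l #S) (3 R) ^ (- l #S) B exp (M (w₀ + 16 q R²))`, `3 ≥ exp 1`.
-/

set_option autoImplicit false

open Topology Filter Metric

namespace Pool.Agent.G4.H

private theorem jen_div (a : ℂ) : ∀ (l : ℕ) (P g h : ℂ → ℂ), Differentiable ℂ P →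
    Differentiable ℂ g → Differentiable ℂ h → P a ≠ 0 →
    (∀ z, P z * g z = (z - a) ^ l * h z) →
    ∃ k : ℂ → ℂ, Differentiable ℂ k ∧ ∀ z, g z = (z - a) ^ l * k z
  | 0, _, g, _, _, hg, _, _, _ => ⟨g, hg, fun z => by simp⟩
  | l + 1, P, g, h, hP, hg, hh, hPa, hyp => by
    have hga : g a = 0 := by
      have := hyp a
      rw [sub_self, zero_pow (Nat.succ_ne_zero l), zero_mul] at this
      exact (mul_eq_zero.1 this).resolve_left hPa
    have hg1 : Differentiable ℂ (dslope g a) := by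
      have := (Complex.differentiableOn_dslope (s := Set.univ) (c := a)
        (Filter.univ_mem)).2 hg.differentiableOn
      exact differentiableOn_univ.1 this
    have hg2 : ∀ z, g z = (z - a) * dslope g a z := by
      intro z
      have := sub_smul_dslope g a z
      rw [smul_eq_mul, hga, sub_zero] at this
      exact this.symm
    have hne : ∀ z, z ≠ a → P z * dslope g a z = (z - a) ^ l * h z := by
      intro z hz
      have h1 := hyp z
      rw [hg2 z] at h1
      have h2 : z - a ≠ 0 := sub_ne_zero.2 hz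
      apply mul_left_cancel₀ h2
      linear_combination h1
    have hall : ∀ z, P z * dslope g a z = (z - a) ^ l * h z := by
      have hc1 : Continuous fun z => P z * dslope g a z := hP.continuous.mul hg1.continuous
      have hc2 : Continuous fun z => (z - a) ^ l * h z :=
        ((continuous_id.sub continuous_const).pow l).mul hh.continuous
      have : (fun z => P z * dslope g a z) = fun z => (z - a) ^ l * h z :=
        Continuous.ext_on (dense_compl_singleton a) hc1 hc2 fun z hz => hne z hz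
      intro z
      exact congrFun this z
    obtain ⟨k, hk1, hk2⟩ := jen_div a l P (dslope g a) h hP hg1 hh hPa hall
    refine ⟨k, hk1, fun z => ?_⟩
    rw [hg2 z, hk2 z]
    ring

private theorem jen_prod {φ : ℂ → ℂ} (hφ : Differentiable ℂ φ) {l : ℕ} (S : Finset ℂ)
    (hdiv : ∀ e ∈ S, ∃ g : ℂ → ℂ, Differentiable ℂ g ∧ ∀ z, φ z = (z - e) ^ l * g z) :
    ∃ g : ℂ → ℂ, Differentiable ℂ g ∧ ∀ z, φ z = (∏ e ∈ S, (z - e) ^ l) * g z := by
  classical
  induction S using Finset.induction_on with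
  | empty => exact ⟨φ, hφ, fun z => by simp⟩
  | insert a S ha ih =>
    obtain ⟨g, hg, hg1⟩ := ih fun e he => hdiv e (Finset.mem_insert_of_mem he)
    obtain ⟨h, hh, hh1⟩ := hdiv a (Finset.mem_insert_self a S)
    have hP : Differentiable ℂ fun z : ℂ => ∏ e ∈ S, (z - e) ^ l := by
      fun_prop
    have hPa : (∏ e ∈ S, (a - e) ^ l) ≠ 0 := by
      rw [Finset.prod_ne_zero_iff]
      intro e he
      exact pow_ne_zero _ (sub_ne_zero.2 fun h => ha (h ▸ he))
    obtain ⟨k, hk1, hk2⟩ := jen_div a l (fun z => ∏ e ∈ S, (z - e) ^ l) g h hP hg hh hPa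
      (fun z => by rw [← hg1 z, hh1 z])
    refine ⟨k, hk1, fun z => ?_⟩
    rw [hg1 z, hk2 z, Finset.prod_insert ha]
    ring

theorem jen {φ : ℂ → ℂ} (hφ : Differentiable ℂ φ) {B M w₀ q m₀ R : ℝ} {c z₁ : ℂ} (hR : 0 < R) (hm₀ : 0 < m₀)
    (hB : ∀ z, ‖φ z‖ ≤ B * Real.exp (M * (w₀ + 2 * (c * (z - z₁)).re + q * ‖z - z₁‖ ^ 2))) (h1 : m₀ * Real.exp (M * w₀) ≤ ‖φ z₁‖) {S : Finset ℂ} {l : ℕ} (hS : ∀ e ∈ S, ‖e - z₁‖ ≤ R)
    (hdiv : ∀ e ∈ S, ∃ g : ℂ → ℂ, Differentiable ℂ g ∧ ∀ z, φ z = (z - e) ^ l * g z) : (l : ℝ) * S.card ≤ 16 * M * q * R ^ 2 + Real.log (B / m₀) := by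
  obtain ⟨g, hg, hg1⟩ := jen_prod hφ S hdiv
  set N := S.card with hN
  set C : ℝ := B * Real.exp (M * (w₀ + q * (4 * R) ^ 2)) / ((3 * R) ^ l) ^ N with hC
  have h3 : 0 < ((3 * R) ^ l) ^ N := by positivity
  have hmax : ‖g z₁ * Complex.exp (-(2 * M * (c * (z₁ - z₁))))‖ ≤ C := by
    refine Complex.norm_le_of_forall_mem_frontier_norm_le (U := ball z₁ (4 * R))
      (f := fun z => g z * Complex.exp (-(2 * M * (c * (z - z₁))))) isBounded_ball ?_ ?_ ?_
    · refine Differentiable.diffContOnCl ?_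
      fun_prop
    · intro z hz
      rw [frontier_ball _ (by positivity : (4 * R) ≠ 0), mem_sphere, dist_eq_norm] at hz
      have h4 : ((3 * R) ^ l) ^ N ≤ ‖∏ e ∈ S, (z - e) ^ l‖ := by
        rw [norm_prod, hN, ← Finset.prod_const]
        refine Finset.prod_le_prod (fun _ _ => by positivity) fun e he => ?_
        rw [norm_pow]
        refine pow_le_pow_left₀ (by positivity) ?_ l
        have h5 : ‖z - z₁‖ ≤ ‖z - e‖ + ‖e - z₁‖ := by
          have := norm_add_le (z - e) (e - z₁)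
          rwa [sub_add_sub_cancel] at this
        have := hS e he
        linarith
      have h6 : ‖g z * Complex.exp (-(2 * M * (c * (z - z₁))))‖ * ‖∏ e ∈ S, (z - e) ^ l‖ ≤
          B * Real.exp (M * (w₀ + q * (4 * R) ^ 2)) := by
        have h7 : ‖g z * Complex.exp (-(2 * M * (c * (z - z₁))))‖ * ‖∏ e ∈ S, (z - e) ^ l‖ =
            ‖φ z‖ * Real.exp (-(2 * M * (c * (z - z₁)).re)) := by
          rw [hg1 z, norm_mul, norm_mul, Complex.norm_exp]
          have h8 : (-(2 * (M : ℂ) * (c * (z - z₁)))).re = -(2 * M * (c * (z - z₁)).re) := by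
            have : (2 * (M : ℂ) * (c * (z - z₁))) = ((2 * M : ℝ) : ℂ) * (c * (z - z₁)) := by
              push_cast
              ring
            rw [this, Complex.neg_re, Complex.re_ofReal_mul]
          rw [h8]
          ring
        rw [h7]
        calc ‖φ z‖ * Real.exp (-(2 * M * (c * (z - z₁)).re))
            ≤ B * Real.exp (M * (w₀ + 2 * (c * (z - z₁)).re + q * ‖z - z₁‖ ^ 2)) *
              Real.exp (-(2 * M * (c * (z - z₁)).re)) :=
              mul_le_mul_of_nonneg_right (hB z) (Real.exp_pos _).le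
          _ = B * Real.exp (M * (w₀ + q * (4 * R) ^ 2)) := by
              rw [mul_assoc, ← Real.exp_add, hz]
              congr 2
              ring
      show ‖g z * Complex.exp (-(2 * M * (c * (z - z₁))))‖ ≤ C
      rw [hC, le_div_iff₀ h3]
      exact (mul_le_mul_of_nonneg_left h4 (norm_nonneg _)).trans h6
    · exact subset_closure (mem_ball_self (by positivity))
  rw [sub_self, mul_zero, mul_zero, neg_zero, Complex.exp_zero, mul_one] at hmax
  have h9 : ‖φ z₁‖ ≤ (R ^ l) ^ N * C := by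
    rw [hg1 z₁, norm_mul]
    refine mul_le_mul ?_ hmax (norm_nonneg _) (by positivity)
    rw [norm_prod, hN, ← Finset.prod_const]
    refine Finset.prod_le_prod (fun _ _ => norm_nonneg _) fun e he => ?_
    rw [norm_pow]
    refine pow_le_pow_left₀ (norm_nonneg _) ?_ l
    rw [norm_sub_rev]
    exact hS e he
  have h10 : (R ^ l) ^ N * C =
      B * Real.exp (M * (w₀ + q * (4 * R) ^ 2)) / ((3 : ℝ) ^ l) ^ N := by
    rw [hC, mul_pow 3 R l, mul_pow ((3 : ℝ) ^ l) (R ^ l) N]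
    have : (R ^ l) ^ N ≠ 0 := by positivity
    field_simp
  have h11 : m₀ * Real.exp (M * w₀) * ((3 : ℝ) ^ l) ^ N ≤
      B * Real.exp (M * (w₀ + q * (4 * R) ^ 2)) := by
    rw [← le_div_iff₀ (by positivity), ← h10]
    exact h1.trans h9
  have h12 : Real.exp (M * (w₀ + q * (4 * R) ^ 2)) =
      Real.exp (M * w₀) * Real.exp (16 * M * q * R ^ 2) := by
    rw [← Real.exp_add]
    congr 1
    ring
  rw [h12] at h11
  have h13 : ((3 : ℝ) ^ l) ^ N * m₀ ≤ B * Real.exp (16 * M * q * R ^ 2) := by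
    have h14 : 0 < Real.exp (M * w₀) := Real.exp_pos _
    refine le_of_mul_le_mul_left ?_ h14
    linarith
  have hBpos : 0 < B := by
    have : 0 < B * Real.exp (16 * M * q * R ^ 2) := lt_of_lt_of_le (by positivity) h13
    exact (mul_pos_iff_of_pos_right (Real.exp_pos _)).1 this
  have h15 : Real.log (((3 : ℝ) ^ l) ^ N) ≤ 16 * M * q * R ^ 2 + Real.log (B / m₀) := by
    have h16 : ((3 : ℝ) ^ l) ^ N ≤ Real.exp (16 * M * q * R ^ 2) * (B / m₀) := by
      rw [← mul_div_assoc, le_div_iff₀ hm₀]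
      linarith
    have h17 := Real.log_le_log (by positivity) h16
    rwa [Real.log_mul (Real.exp_pos _).ne' (div_pos hBpos hm₀).ne', Real.log_exp] at h17
  rw [← pow_mul, Real.log_pow] at h15
  have h18 : (1 : ℝ) ≤ Real.log 3 := by
    rw [Real.le_log_iff_exp_le (by norm_num)]
    exact (Real.exp_one_lt_d9.trans (by norm_num)).le
  have h19 : (0 : ℝ) ≤ ((l * N : ℕ) : ℝ) := Nat.cast_nonneg _
  have h20 : ((l * N : ℕ) : ℝ) ≤ ((l * N : ℕ) : ℝ) * Real.log 3 := by nlinarith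
  push_cast at h15 h20
  linarith

end Pool.Agent.G4.H

end

section

/-!
# G4 H Sch: the Schwarz lemma for polydiscs, with `T ^ d` linear conditions

Induction on `d`.  `d = 0`: `Φ G = G 0`.  `d + 1`: coordinates `(w, z')` (`Fin.cons w z'`), `G (w, z') = ∑ m, G_m z' w ^ m` with the Cauchy coefficients `G_m z' = (1 / m!) iteratedDeriv m (fun w => G (Fin.cons w z')) 0` (holomorphic in `z'`; or a
circle integral over `‖w‖ = r`), `‖G_m z'‖ ≤ B (4 / 3) ^ m` if `‖G‖ ≤ B` on the polydisc of radius `3 / 4`.  Conditions: those of dimension `d` for `G_m`, `m < T`.  Then on the polydisc of radius `1 / 2`: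
`‖G‖ ≤ ∑_{m < T} B (4 / 3) ^ m C_d (3 / 4) ^ T (1 / 2) ^ m + ∑_{m ≥ T} B (4 / 3) ^ m (1 / 2) ^ m ≤ 3 B C_d (3 / 4) ^ T + 3 B (2 / 3) ^ T`.
-/

set_option autoImplicit false

open Topology Filter Metric

namespace Pool.Agent.G4.H

/-- the partial derivative with respect to the first coordinate -/
private noncomputable def Sch_D {d : ℕ} (G : (Fin (d + 1) → ℂ) → ℂ) (z : Fin (d + 1) → ℂ) : ℂ :=
  fderiv ℂ G z (Pi.single 0 1)

private theorem Sch_D_an {d : ℕ} {G : (Fin (d + 1) → ℂ) → ℂ}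
    (hG : AnalyticOnNhd ℂ G (ball 0 1)) : AnalyticOnNhd ℂ (Sch_D G) (ball 0 1) := by
  intro z hz
  exact ((ContinuousLinearMap.apply ℂ ℂ (Pi.single 0 1 : Fin (d + 1) → ℂ)).analyticAt _).comp
    (hG.fderiv z hz)

private theorem Sch_iter_an {d : ℕ} {G : (Fin (d + 1) → ℂ) → ℂ}
    (hG : AnalyticOnNhd ℂ G (ball 0 1)) (m : ℕ) : AnalyticOnNhd ℂ (Sch_D^[m] G) (ball 0 1) := by
  induction m with
  | zero => exact hG
  | succ m ih =>
    rw [Function.iterate_succ_apply']
    exact Sch_D_an ih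

private theorem Sch_iter_add {d : ℕ} {G G' : (Fin (d + 1) → ℂ) → ℂ} (c : ℂ)
    (hG : AnalyticOnNhd ℂ G (ball 0 1)) (hG' : AnalyticOnNhd ℂ G' (ball 0 1)) (m : ℕ) :
    ∀ z ∈ ball (0 : Fin (d + 1) → ℂ) 1, (Sch_D^[m] fun z => G z + c * G' z) z =
      (Sch_D^[m] G) z + c * (Sch_D^[m] G') z := by
  induction m with
  | zero => exact fun z _ => rfl
  | succ m ih =>
    intro z hz
    rw [Function.iterate_succ_apply', Function.iterate_succ_apply', Function.iterate_succ_apply']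
    have h1 : (Sch_D^[m] fun z => G z + c * G' z) =ᶠ[𝓝 z]
        fun z => (Sch_D^[m] G) z + c * (Sch_D^[m] G') z :=
      Filter.eventually_of_mem (isOpen_ball.mem_nhds hz) ih
    have h2 := (Sch_iter_an hG m z hz).differentiableAt
    have h3 := (Sch_iter_an hG' m z hz).differentiableAt
    show fderiv ℂ (Sch_D^[m] fun z => G z + c * G' z) z (Pi.single 0 1) =
      fderiv ℂ (Sch_D^[m] G) z (Pi.single 0 1) + c * fderiv ℂ (Sch_D^[m] G') z (Pi.single 0 1)
    rw [h1.fderiv_eq, fderiv_fun_add h2 (h3.const_mul c), fderiv_const_mul h3]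
    rfl

private theorem Sch_cons {d : ℕ} {r : ℝ} (hr : 0 < r) {w : ℂ} {z : Fin d → ℂ}
    (hw : ‖w‖ < r) (hz : z ∈ ball (0 : Fin d → ℂ) r) :
    (Fin.cons (α := fun _ => ℂ) w z : Fin (d + 1) → ℂ) ∈ ball (0 : Fin (d + 1) → ℂ) r := by
  rw [mem_ball_zero_iff, pi_norm_lt_iff hr]
  rw [mem_ball_zero_iff, pi_norm_lt_iff hr] at hz
  intro i
  refine Fin.cases ?_ (fun j => ?_) i
  · exact hw
  · exact hz j

private theorem Sch_deriv {d : ℕ} {H : (Fin (d + 1) → ℂ) → ℂ}
    (hH : AnalyticOnNhd ℂ H (ball 0 1)) {w : ℂ} (hw : ‖w‖ < 1) {z : Fin d → ℂ}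
    (hz : z ∈ ball (0 : Fin d → ℂ) 1) :
    HasDerivAt (fun w => H (Fin.cons (α := fun _ => ℂ) w z))
      (Sch_D H (Fin.cons (α := fun _ => ℂ) w z)) w := by
  have h1 : HasDerivAt (fun w : ℂ => (Fin.cons (α := fun _ => ℂ) w z : Fin (d + 1) → ℂ))
      (Pi.single 0 1) w := by
    rw [hasDerivAt_pi]
    intro i
    refine Fin.cases ?_ (fun j => ?_) i
    · simp only [Fin.cons_zero, Pi.single_eq_same]
      exact hasDerivAt_id' w
    · simp only [Fin.cons_succ]
      rw [Pi.single_eq_of_ne (Fin.succ_ne_zero j)]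
      exact hasDerivAt_const w (z j)
  exact (hH _ (Sch_cons one_pos hw hz)).differentiableAt.hasFDerivAt.comp_hasDerivAt w h1

private theorem Sch_iterated {d : ℕ} {G : (Fin (d + 1) → ℂ) → ℂ}
    (hG : AnalyticOnNhd ℂ G (ball 0 1)) {z : Fin d → ℂ} (hz : z ∈ ball (0 : Fin d → ℂ) 1)
    (m : ℕ) : ∀ w : ℂ, ‖w‖ < 1 →
      iteratedDeriv m (fun w => G (Fin.cons (α := fun _ => ℂ) w z)) w =
        (Sch_D^[m] G) (Fin.cons (α := fun _ => ℂ) w z) := by
  induction m with
  | zero =>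
    intro w _
    rw [iteratedDeriv_zero]
    rfl
  | succ m ih =>
    intro w hw
    rw [iteratedDeriv_succ, Function.iterate_succ_apply']
    have h1 : iteratedDeriv m (fun w => G (Fin.cons (α := fun _ => ℂ) w z)) =ᶠ[𝓝 w]
        fun w => (Sch_D^[m] G) (Fin.cons (α := fun _ => ℂ) w z) := by
      refine Filter.eventually_of_mem (isOpen_ball.mem_nhds (mem_ball_zero_iff.2 hw)) ?_
      intro w' hw'
      exact ih w' (mem_ball_zero_iff.1 hw')
    rw [h1.deriv_eq]
    exact (Sch_deriv (Sch_iter_an hG m) hw hz).deriv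

open Classical in
/-- the Taylor coefficients with respect to the first coordinate -/
private noncomputable def Sch_co {d : ℕ} (m : ℕ) (G : (Fin (d + 1) → ℂ) → ℂ) (z : Fin d → ℂ) : ℂ :=
  if z ∈ ball (0 : Fin d → ℂ) 1 then
    ((m.factorial : ℂ))⁻¹ * (Sch_D^[m] G) (Fin.cons (α := fun _ => ℂ) 0 z)
  else 0

private theorem Sch_co_pos {d : ℕ} (m : ℕ) (G : (Fin (d + 1) → ℂ) → ℂ) {z : Fin d → ℂ}
    (hz : z ∈ ball (0 : Fin d → ℂ) 1) :
    Sch_co m G z = ((m.factorial : ℂ))⁻¹ * (Sch_D^[m] G) (Fin.cons (α := fun _ => ℂ) 0 z) :=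
  if_pos hz

private theorem Sch_co_an {d : ℕ} (m : ℕ) {G : (Fin (d + 1) → ℂ) → ℂ}
    (hG : AnalyticOnNhd ℂ G (ball 0 1)) : AnalyticOnNhd ℂ (Sch_co m G) (ball 0 1) := by
  obtain ⟨L, hL⟩ : ∃ L : (Fin d → ℂ) →L[ℂ] (Fin (d + 1) → ℂ),
      ∀ z, L z = Fin.cons (α := fun _ => ℂ) 0 z := by
    refine ⟨LinearMap.toContinuousLinearMap
      { toFun := fun z => Fin.cons (α := fun _ => ℂ) 0 z
        map_add' := fun a b => ?_
        map_smul' := fun c a => ?_ }, fun z => rfl⟩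
    · funext i
      refine Fin.cases ?_ (fun j => ?_) i
      · simp
      · simp
    · funext i
      refine Fin.cases ?_ (fun j => ?_) i
      · simp
      · simp
  intro z hz
  have h0 : ‖(0 : ℂ)‖ < 1 := by rw [norm_zero]; exact one_pos
  have h1 : AnalyticAt ℂ (fun z => (Sch_D^[m] G) (L z)) z := by
    refine AnalyticAt.fun_comp (g := Sch_D^[m] G) (f := L) ?_ (L.analyticAt z)
    rw [hL]
    exact Sch_iter_an hG m _ (Sch_cons one_pos h0 hz)
  refine (analyticAt_const.mul h1 : AnalyticAt ℂ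
    (fun z => ((m.factorial : ℂ))⁻¹ * (Sch_D^[m] G) (L z)) z).congr ?_
  refine Filter.eventually_of_mem (isOpen_ball.mem_nhds hz) fun z' hz' => ?_
  show ((m.factorial : ℂ))⁻¹ * (Sch_D^[m] G) (L z') = Sch_co m G z'
  rw [Sch_co_pos m G hz', hL]

private theorem Sch_co_add {d : ℕ} (m : ℕ) {G G' : (Fin (d + 1) → ℂ) → ℂ} (c : ℂ)
    (hG : AnalyticOnNhd ℂ G (ball 0 1)) (hG' : AnalyticOnNhd ℂ G' (ball 0 1)) :
    Sch_co m (fun z => G z + c * G' z) = fun z => Sch_co m G z + c * Sch_co m G' z := by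
  funext z
  by_cases hz : z ∈ ball (0 : Fin d → ℂ) 1
  · have h0 : ‖(0 : ℂ)‖ < 1 := by rw [norm_zero]; exact one_pos
    rw [Sch_co_pos m _ hz, Sch_co_pos m _ hz, Sch_co_pos m _ hz,
      Sch_iter_add c hG hG' m _ (Sch_cons one_pos h0 hz)]
    ring
  · simp only [Sch_co, if_neg hz]
    ring

private theorem Sch_diff {d : ℕ} {G : (Fin (d + 1) → ℂ) → ℂ}
    (hG : AnalyticOnNhd ℂ G (ball 0 1)) {z : Fin d → ℂ} (hz : z ∈ ball (0 : Fin d → ℂ) 1) :
    DifferentiableOn ℂ (fun w => G (Fin.cons (α := fun _ => ℂ) w z)) (ball 0 1) := by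
  intro w hw
  exact (Sch_deriv hG (mem_ball_zero_iff.1 hw) hz).differentiableAt.differentiableWithinAt

private theorem Sch_sum {d : ℕ} {G : (Fin (d + 1) → ℂ) → ℂ}
    (hG : AnalyticOnNhd ℂ G (ball 0 1)) {z : Fin d → ℂ} (hz : z ∈ ball (0 : Fin d → ℂ) 1)
    {w : ℂ} (hw : ‖w‖ < 1) :
    HasSum (fun m => Sch_co m G z * w ^ m) (G (Fin.cons (α := fun _ => ℂ) w z)) := by
  have h0 : ‖(0 : ℂ)‖ < 1 := by rw [norm_zero]; exact one_pos
  have h1 := Complex.hasSum_taylorSeries_on_ball (Sch_diff hG hz) (mem_ball_zero_iff.2 hw)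
  have h2 : (fun m => Sch_co m G z * w ^ m) = fun n => ((n.factorial : ℂ))⁻¹ • (w - 0) ^ n •
      iteratedDeriv n (fun w => G (Fin.cons (α := fun _ => ℂ) w z)) 0 := by
    funext n
    rw [Sch_co_pos n G hz, Sch_iterated hG hz n 0 h0, sub_zero, smul_eq_mul, smul_eq_mul]
    ring
  rw [h2]
  exact h1

private theorem Sch_bound {d : ℕ} {G : (Fin (d + 1) → ℂ) → ℂ} {B : ℝ}
    (hG : AnalyticOnNhd ℂ G (ball 0 1))
    (hB : ∀ z ∈ ball (0 : Fin (d + 1) → ℂ) (3 / 4), ‖G z‖ ≤ B) {z : Fin d → ℂ}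
    (hz : z ∈ ball (0 : Fin d → ℂ) (3 / 4)) (m : ℕ) : ‖Sch_co m G z‖ ≤ B * (4 / 3) ^ m := by
  have h34 : (0 : ℝ) < 3 / 4 := by norm_num
  have hz1 : z ∈ ball (0 : Fin d → ℂ) 1 := ball_subset_ball (by norm_num) hz
  have h0 : ‖(0 : ℂ)‖ < 1 := by rw [norm_zero]; exact one_pos
  have hd := Sch_diff hG hz1
  have hsub : closedBall (0 : ℂ) (3 / 4) ⊆ ball 0 1 := closedBall_subset_ball (by norm_num)
  have hcl : closure (ball (0 : ℂ) (3 / 4)) = closedBall 0 (3 / 4) := closure_ball _ h34.ne'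
  have hdc : DiffContOnCl ℂ (fun w => G (Fin.cons (α := fun _ => ℂ) w z)) (ball 0 (3 / 4)) := by
    refine DifferentiableOn.diffContOnCl ?_
    rw [hcl]
    exact hd.mono hsub
  have hC : ∀ w ∈ sphere (0 : ℂ) (3 / 4), ‖G (Fin.cons (α := fun _ => ℂ) w z)‖ ≤ B := by
    intro w hw
    have hw' : w ∈ closure (ball (0 : ℂ) (3 / 4)) := by
      rw [hcl]
      exact sphere_subset_closedBall hw
    have hcont : ContinuousOn (fun w => ‖G (Fin.cons (α := fun _ => ℂ) w z)‖)
        (closure (ball (0 : ℂ) (3 / 4))) := by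
      rw [hcl]
      exact (hd.continuousOn.mono hsub).norm
    exact le_on_closure (fun w' hw' => hB _ (Sch_cons h34 (mem_ball_zero_iff.1 hw') hz)) hcont
      continuousOn_const hw'
  have h1 := Complex.norm_iteratedDeriv_le_of_forall_mem_sphere_norm_le m h34 hdc hC
  rw [Sch_iterated hG hz1 m 0 h0] at h1
  rw [Sch_co_pos m G hz1, norm_mul, norm_inv, Complex.norm_natCast]
  have hf : (0 : ℝ) < (m.factorial : ℝ) := by exact_mod_cast m.factorial_pos
  have h2 : (m.factorial : ℝ) * B / (3 / 4) ^ m = (m.factorial : ℝ) * (B * (4 / 3) ^ m) := by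
    rw [mul_div_assoc, div_eq_mul_inv B, ← inv_pow]
    norm_num
  rw [h2] at h1
  rw [inv_mul_le_iff₀ hf]
  exact h1

theorem schwarz (d : ℕ) : ∃ C : ℝ, 0 < C ∧ ∀ T : ℕ, ∃ Φ : (Fin d → Fin T) → ((Fin d → ℂ) → ℂ) → ℂ,
    (∀ i (G G' : (Fin d → ℂ) → ℂ) (c : ℂ), AnalyticOnNhd ℂ G (ball 0 1) → AnalyticOnNhd ℂ G' (ball 0 1) → Φ i (fun z => G z + c * G' z) = Φ i G + c * Φ i G') ∧
    ∀ (G : (Fin d → ℂ) → ℂ) (B : ℝ), AnalyticOnNhd ℂ G (ball 0 1) → (∀ z ∈ ball (0 : Fin d → ℂ) (3 / 4), ‖G z‖ ≤ B) → (∀ i, Φ i G = 0) →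
      ∀ z ∈ ball (0 : Fin d → ℂ) (1 / 2), ‖G z‖ ≤ B * (C * (3 / 4) ^ T) := by
  induction d with
  | zero =>
    refine ⟨1, one_pos, fun T => ⟨fun _ G => G 0, fun _ _ _ _ _ _ => rfl, ?_⟩⟩
    intro G B _ hB hΦ z _
    have h0 : (0 : Fin 0 → ℂ) ∈ ball (0 : Fin 0 → ℂ) (3 / 4) := mem_ball_self (by norm_num)
    have hB0 : 0 ≤ B := (norm_nonneg _).trans (hB 0 h0)
    have hz : z = 0 := Subsingleton.elim _ _
    have h1 : G 0 = 0 := hΦ fun x => x.elim0
    rw [hz, h1, norm_zero]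
    positivity
  | succ d ih =>
    obtain ⟨C, hC, ih⟩ := ih
    refine ⟨9 * (C + 1), by positivity, fun T => ?_⟩
    obtain ⟨Φ, hlin, hest⟩ := ih T
    refine ⟨fun i G => Φ (Fin.tail i) (Sch_co (i 0 : ℕ) G), fun i G G' c hG hG' => ?_, ?_⟩
    · show Φ (Fin.tail i) (Sch_co (i 0 : ℕ) fun z => G z + c * G' z) = _
      rw [Sch_co_add _ c hG hG']
      exact hlin _ _ _ c (Sch_co_an _ hG) (Sch_co_an _ hG')
    · intro G B hG hB hΦ z hz
      have hB0 : 0 ≤ B := (norm_nonneg _).trans (hB 0 (mem_ball_self (by norm_num)))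
      have hzn := mem_ball_zero_iff.1 hz
      rw [pi_norm_lt_iff (by norm_num)] at hzn
      have hw : ‖z 0‖ < 1 / 2 := hzn 0
      have hz' : Fin.tail z ∈ ball (0 : Fin d → ℂ) (1 / 2) := by
        rw [mem_ball_zero_iff, pi_norm_lt_iff (by norm_num)]
        exact fun j => hzn j.succ
      have hz34 : Fin.tail z ∈ ball (0 : Fin d → ℂ) (3 / 4) :=
        ball_subset_ball (by norm_num) hz'
      have hz1 : Fin.tail z ∈ ball (0 : Fin d → ℂ) 1 := ball_subset_ball (by norm_num) hz'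
      have hsum := Sch_sum hG hz1 (w := z 0) (by linarith)
      rw [Fin.cons_self_tail] at hsum
      have hgeo : HasSum (fun m : ℕ => B * ((C + 1) * (3 / 4) ^ T) * (8 / 9 : ℝ) ^ m)
          (B * ((C + 1) * (3 / 4) ^ T) * (1 - 8 / 9)⁻¹) :=
        (hasSum_geometric_of_lt_one (by norm_num) (by norm_num)).mul_left _
      have hle := hsum.norm_le_of_bounded hgeo fun m => ?_
      · refine hle.trans (le_of_eq ?_)
        norm_num
        ring
      · have hwm : ‖z 0‖ ^ m ≤ (1 / 2 : ℝ) ^ m := pow_le_pow_left₀ (norm_nonneg _) hw.le m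
        have h89 : (4 / 3 : ℝ) ^ m * (1 / 2) ^ m = (3 / 4) ^ m * (8 / 9) ^ m := by
          rw [← mul_pow, ← mul_pow]
          norm_num
        have h34le : (3 / 4 : ℝ) ^ m ≤ 1 := pow_le_one₀ (by norm_num) (by norm_num)
        have hT0 : (0 : ℝ) < (3 / 4) ^ T := by positivity
        have h8 : (0 : ℝ) < (8 / 9) ^ m := by positivity
        rw [norm_mul, norm_pow]
        rcases lt_or_ge m T with hm | hm
        · have h1 := hest (Sch_co m G) (B * (4 / 3) ^ m) (Sch_co_an m hG)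
            (fun z hz => Sch_bound hG hB hz m)
            (fun i => by
              have h2 := hΦ (Fin.cons (α := fun _ => Fin T) ⟨m, hm⟩ i)
              simpa using h2) (Fin.tail z) hz'
          calc ‖Sch_co m G (Fin.tail z)‖ * ‖z 0‖ ^ m
              ≤ (B * (4 / 3) ^ m * (C * (3 / 4) ^ T)) * (1 / 2) ^ m :=
                mul_le_mul h1 hwm (by positivity) (by positivity)
            _ = B * (C * (3 / 4) ^ T) * ((4 / 3) ^ m * (1 / 2) ^ m) := by ring
            _ = B * (C * (3 / 4) ^ T) * ((3 / 4) ^ m * (8 / 9) ^ m) := by rw [h89]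
            _ ≤ B * ((C + 1) * (3 / 4) ^ T) * (1 * (8 / 9) ^ m) := by
                refine mul_le_mul ?_ (mul_le_mul_of_nonneg_right h34le h8.le) (by positivity)
                  (by positivity)
                refine mul_le_mul_of_nonneg_left ?_ hB0
                exact mul_le_mul_of_nonneg_right (by linarith) hT0.le
            _ = B * ((C + 1) * (3 / 4) ^ T) * (8 / 9) ^ m := by rw [one_mul]
        · have h1 := Sch_bound hG hB hz34 m
          have h34m : (3 / 4 : ℝ) ^ m ≤ (3 / 4) ^ T :=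
            pow_le_pow_of_le_one (by norm_num) (by norm_num) hm
          calc ‖Sch_co m G (Fin.tail z)‖ * ‖z 0‖ ^ m
              ≤ (B * (4 / 3) ^ m) * (1 / 2) ^ m :=
                mul_le_mul h1 hwm (by positivity) (by positivity)
            _ = B * ((4 / 3) ^ m * (1 / 2) ^ m) := by ring
            _ = B * ((3 / 4) ^ m * (8 / 9) ^ m) := by rw [h89]
            _ ≤ B * ((3 / 4) ^ T * (8 / 9) ^ m) :=
                mul_le_mul_of_nonneg_left (mul_le_mul_of_nonneg_right h34m h8.le) hB0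
            _ ≤ B * ((C + 1) * (3 / 4) ^ T * (8 / 9) ^ m) := by
                refine mul_le_mul_of_nonneg_left (mul_le_mul_of_nonneg_right ?_ h8.le) hB0
                nlinarith
            _ = B * ((C + 1) * (3 / 4) ^ T) * (8 / 9) ^ m := by ring

end Pool.Agent.G4.H

end

section

/-!
# CV EllB: the Weierstrass normal form

`normal_form`: `v₁ = v - (a u + b) / 2`: `v₁² = c u³ + (d + a² / 4) u² + (e + a b / 2) u + (f + b² / 4)`.  Let `s` with `c s³ = 4` (`IsAlgClosed`), `r = - (d + a² / 4) / (3 c)`, `u₁ = (u - r) / s`: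
`v₁² = 4 u₁³ - α u₁ - β` for some `α, β`.  `ℂ(u₁, v₁) = ℂ(u, v)`, `ℂ(u₁) = ℂ(u)`, `v₁ ∉ ℂ(u)`.
`singular_rational`: let `α³ = 27 β²`.  There is `ρ` with `12 ρ² = α`, `- 8 ρ³ = β` (take `ρ² = α / 12`; then `(8 ρ³)² = α³ / 27 = β²`, change the sign of `ρ` if necessary).  Then
`4 u³ - α u - β = 4 (u - ρ)² (u + 2 ρ)`.  `u ≠ ρ` (`u` is transcendental).  `t = v / (u - ρ)`: `t² = 4 (u + 2 ρ)`, so `u = t² / 4 - 2 ρ ∈ ℂ(t)` and `v = t (u - ρ) ∈ ℂ(t)`.
-/

set_option autoImplicit false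

noncomputable section

namespace Pool.Agent.H13.CV

variable {K : Type} [Field K] [Algebra ℂ K]

theorem normal_form {u v : K} {c a d b e f : ℂ} (hc : c ≠ 0)
    (h : v ^ 2 = algebraMap ℂ K c * u ^ 3 + algebraMap ℂ K a * (u * v) + algebraMap ℂ K d * u ^ 2 + algebraMap ℂ K b * v +
      algebraMap ℂ K e * u + algebraMap ℂ K f) (hu : Transcendental ℂ u) (huv : IntermediateField.adjoin ℂ {u, v} = ⊤) (hvu : v ∉ IntermediateField.adjoin ℂ {u}) :
    ∃ (u' v' : K) (α β : ℂ), v' ^ 2 = 4 * u' ^ 3 - algebraMap ℂ K α * u' - algebraMap ℂ K β ∧ Transcendental ℂ u' ∧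
      IntermediateField.adjoin ℂ {u', v'} = ⊤ ∧ v' ∉ IntermediateField.adjoin ℂ {u'} := by
  obtain ⟨s, hs⟩ := IsAlgClosed.exists_pow_nat_eq (4 / c) (n := 3) (by norm_num)
  have hs0 : s ≠ 0 := by
    rintro rfl
    have : (4 : ℂ) / c ≠ 0 := div_ne_zero (by norm_num) hc
    apply this
    rw [← hs]
    norm_num
  have hcs : c * s ^ 3 = 4 := by
    rw [hs]
    field_simp
  set r : ℂ := -(d + a ^ 2 / 4) / (3 * c) with hr
  have hr' : 3 * c * r = -(d + a ^ 2 / 4) := by
    rw [hr]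
    field_simp
  haveI : CharZero K := charZero_of_injective_algebraMap (algebraMap ℂ K).injective
  set C := algebraMap ℂ K with hC
  have c2 : C 2 = 2 := map_ofNat C 2
  have c3 : C 3 = 3 := map_ofNat C 3
  have c4 : C 4 = 4 := map_ofNat C 4
  have hCs0 : C s ≠ 0 := by
    rw [hC]
    exact (map_ne_zero (algebraMap ℂ K)).2 hs0
  have hcsK : C c * C s ^ 3 = 4 := by
    rw [← map_pow, ← map_mul, hcs]
    exact map_ofNat C 4
  have hrK : 3 * C c * C r = -(C d + C a ^ 2 / 4) := by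
    have := congrArg C hr'
    simpa [c2, c3, c4] using this
  set u' : K := (u - C r) / C s with hu'
  have hu2 : u = C s * u' + C r := by
    rw [hu']
    field_simp
    ring
  set v' : K := v - (C a * u + C b) / 2 with hv'
  have hv2 : v = v' + (C a * u + C b) / 2 := by
    rw [hv']
    ring
  have hmem : ∀ (L : IntermediateField ℂ K) (z : ℂ), C z ∈ L := fun L z => L.algebraMap_mem z
  have h2mem : ∀ (L : IntermediateField ℂ K), (2 : K) ∈ L := fun L => by
    have := hmem L 2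
    rwa [hC, map_ofNat] at this
  have hvu2 : ∀ L : IntermediateField ℂ K, u ∈ L → v' ∈ L → v ∈ L := fun L h1 h2 => by
    rw [hv2]
    exact L.add_mem h2 (L.div_mem (L.add_mem (L.mul_mem (hmem L a) h1) (hmem L b)) (h2mem L))
  have huL : ∀ L : IntermediateField ℂ K, u' ∈ L → u ∈ L := fun L h1 => by
    rw [hu2]
    exact L.add_mem (L.mul_mem (hmem L s) h1) (hmem L r)
  refine ⟨u', v', 3 * c * s * r ^ 2 - (e + a * b / 2) * s,
    -(c * r ^ 3 + (d + a ^ 2 / 4) * r ^ 2 + (e + a * b / 2) * r + (f + b ^ 2 / 4)), ?_, ?_, ?_, ?_⟩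
  · have e1 : v' ^ 2 = C c * u ^ 3 + (C d + C a ^ 2 / 4) * u ^ 2 + (C e + C a * C b / 2) * u + (C f + C b ^ 2 / 4) := by
      rw [hv']
      linear_combination h
    have e2 : C (3 * c * s * r ^ 2 - (e + a * b / 2) * s) = 3 * C c * C s * C r ^ 2 - (C e + C a * C b / 2) * C s := by
      simp [c2, c3]
    have e3 : C (-(c * r ^ 3 + (d + a ^ 2 / 4) * r ^ 2 + (e + a * b / 2) * r + (f + b ^ 2 / 4))) =
        -(C c * C r ^ 3 + (C d + C a ^ 2 / 4) * C r ^ 2 + (C e + C a * C b / 2) * C r + (C f + C b ^ 2 / 4)) := by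
      simp [c2, c4]
    rw [e2, e3, e1, hu2]
    linear_combination u' ^ 3 * hcsK + (C s ^ 2 * u' ^ 2 + 2 * C s * C r * u') * hrK
  · intro hal
    apply hu
    rw [hu2]
    exact ((isAlgebraic_algebraMap s).mul hal).add (isAlgebraic_algebraMap r)
  · rw [eq_top_iff, ← huv, IntermediateField.adjoin_le_iff]
    have m1 : u' ∈ IntermediateField.adjoin ℂ {u', v'} := IntermediateField.subset_adjoin ℂ _ (by simp)
    have m2 : v' ∈ IntermediateField.adjoin ℂ {u', v'} := IntermediateField.subset_adjoin ℂ _ (by simp)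
    rintro z hz
    rcases hz with rfl | hz
    · exact huL _ m1
    · rw [Set.mem_singleton_iff] at hz
      rw [hz]
      exact hvu2 _ (huL _ m1) m2
  · intro hv3
    apply hvu
    have m1 : u ∈ IntermediateField.adjoin ℂ {u} := IntermediateField.mem_adjoin_simple_self ℂ u
    have m2 : u' ∈ IntermediateField.adjoin ℂ {u} := by
      rw [hu']
      exact div_mem (sub_mem m1 (hmem _ r)) (hmem _ s)
    have m3 : IntermediateField.adjoin ℂ {u'} ≤ IntermediateField.adjoin ℂ {u} := by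
      rw [IntermediateField.adjoin_simple_le_iff]
      exact m2
    exact hvu2 _ m1 (m3 hv3)

theorem singular_rational {u v : K} {α β : ℂ} (h : v ^ 2 = 4 * u ^ 3 - algebraMap ℂ K α * u - algebraMap ℂ K β) (hu : Transcendental ℂ u)
    (huv : IntermediateField.adjoin ℂ {u, v} = ⊤) (hd : α ^ 3 = 27 * β ^ 2) : ∃ t : K, IntermediateField.adjoin ℂ {t} = ⊤ := by
  obtain ⟨ρ, h1, h2⟩ : ∃ ρ : ℂ, 12 * ρ ^ 2 = α ∧ -8 * ρ ^ 3 = β := by
    obtain ⟨ρ, hρ⟩ := IsAlgClosed.exists_pow_nat_eq (α / 12) (n := 2) (by norm_num)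
    have h12 : 12 * ρ ^ 2 = α := by
      rw [hρ]
      ring
    have h3 : (8 * ρ ^ 3 - β) * (8 * ρ ^ 3 + β) = 0 := by
      have : 27 * ((8 * ρ ^ 3 - β) * (8 * ρ ^ 3 + β)) = 0 := by
        have e : α ^ 3 = (12 * ρ ^ 2) ^ 3 := by rw [h12]
        rw [hd] at e
        linear_combination -e
      exact (mul_eq_zero.1 this).resolve_left (by norm_num)
    rcases mul_eq_zero.1 h3 with h4 | h4
    · exact ⟨-ρ, by linear_combination h12, by linear_combination h4⟩
    · exact ⟨ρ, h12, by linear_combination -h4⟩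
  haveI : CharZero K := charZero_of_injective_algebraMap (algebraMap ℂ K).injective
  set C := algebraMap ℂ K with hC
  have c12 : C 12 = 12 := map_ofNat C 12
  have c8 : C 8 = 8 := map_ofNat C 8
  have e1 : C α = 12 * C ρ ^ 2 := by
    rw [← h1]
    simp [c12]
  have e2 : C β = -8 * C ρ ^ 3 := by
    rw [← h2]
    simp [c8]
  have hne : u - C ρ ≠ 0 := by
    intro h0
    apply hu
    rw [sub_eq_zero.1 h0]
    exact isAlgebraic_algebraMap ρ
  set t : K := v / (u - C ρ) with ht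
  have hvt : v = t * (u - C ρ) := by
    rw [ht]
    field_simp
  have ht2 : t ^ 2 = 4 * (u + 2 * C ρ) := by
    have h5 : (u - C ρ) ^ 2 * (t ^ 2 - 4 * (u + 2 * C ρ)) = 0 := by
      rw [e1, e2, hvt] at h
      linear_combination h
    exact sub_eq_zero.1 ((mul_eq_zero.1 h5).resolve_left (pow_ne_zero 2 hne))
  have hut : u = t ^ 2 / 4 - 2 * C ρ := by
    rw [ht2]
    ring
  refine ⟨t, ?_⟩
  rw [eq_top_iff, ← huv, IntermediateField.adjoin_le_iff]
  have m1 : t ∈ IntermediateField.adjoin ℂ {t} := IntermediateField.mem_adjoin_simple_self ℂ t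
  have hmem : ∀ z : ℂ, C z ∈ IntermediateField.adjoin ℂ {t} := fun z => (IntermediateField.adjoin ℂ {t}).algebraMap_mem z
  have m4 : (4 : K) ∈ IntermediateField.adjoin ℂ {t} := by
    have := hmem 4
    rwa [hC, map_ofNat] at this
  have m2 : (2 : K) ∈ IntermediateField.adjoin ℂ {t} := by
    have := hmem 2
    rwa [hC, map_ofNat] at this
  have mu : u ∈ IntermediateField.adjoin ℂ {t} := by
    rw [hut]
    exact sub_mem (div_mem (pow_mem m1 2) m4) (mul_mem m2 (hmem ρ))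
  have mv : v ∈ IntermediateField.adjoin ℂ {t} := by
    rw [hvt]
    exact mul_mem m1 (sub_mem mu (hmem ρ))
  rintro z hz
  rcases hz with rfl | hz
  · exact mu
  · rw [Set.mem_singleton_iff] at hz
    rw [hz]
    exact mv

end Pool.Agent.H13.CV

end
end

section

/-!
# CV MerO: the field of meromorphic functions, as the fraction field of the ring of entire functions

`ofn z₀ f` is the order at `z₀` of `f`; it is defined with the chosen representation `f = a / b` (`IsLocalization.sec`), `ofn_div` says that it does not depend on the representation: if `a / b = a' / b'` then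
`a b' = a' b` as entire functions, so the meromorphic functions `a / b`, `a' / b'` agree outside the zeros of `b b'` (isolated), so their orders are the same (`meromorphicOrderAt_congr`).
The other lemmas: `meromorphicOrderAt_mul`, `meromorphicOrderAt_add` (`min ≤`), for functions `a / b`.  `ofn z₀ f = ⊤ ↔ f = 0`.
`tr_or_const`: `ℂ` is algebraically closed.
-/

set_option autoImplicit false

open Topology Filter
open Pool.Agent.H17 Pool.Agent.H17.EntFun

noncomputable section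

namespace Pool.Agent.H13.CV

attribute [-instance] Subalgebra.instFaithfulSMulSubtypeMem

/-- the field of meromorphic functions on `ℂ` -/
abbrev Mer : Type := FractionRing EntFun

/-- entire functions as meromorphic functions -/
abbrev toM (a : EntFun) : Mer := algebraMap EntFun Mer a

/-- the order at `z₀` -/
def ofn (z₀ : ℂ) (f : Mer) : WithTop ℤ :=
  meromorphicOrderAt (fun z => ((IsLocalization.sec (nonZeroDivisors EntFun) f).1 : ℂ → ℂ) z / (((IsLocalization.sec (nonZeroDivisors EntFun) f).2 : EntFun) : ℂ → ℂ) z) z₀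

/-- the function `z ↦ a z / b z` -/
private def qf (a b : EntFun) : ℂ → ℂ := fun z => (a : ℂ → ℂ) z / (b : ℂ → ℂ) z

private lemma qf_mero (z₀ : ℂ) (a b : EntFun) : MeromorphicAt (qf a b) z₀ :=
  (a.analyticAt z₀).meromorphicAt.fun_div (b.analyticAt z₀).meromorphicAt

private lemma ev_ne (z₀ : ℂ) {b : EntFun} (hb : b ≠ 0) : ∀ᶠ z in 𝓝[≠] z₀, (b : ℂ → ℂ) z ≠ 0 :=
  eventually_ne_zero_of_entire b.2 ((ne_zero_iff b).mp hb) z₀

private lemma toM_inj : Function.Injective toM := IsFractionRing.injective EntFun Mer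

private lemma toM_ne {b : EntFun} (hb : b ≠ 0) : toM b ≠ 0 := by
  intro h
  exact hb (toM_inj (by rw [h]; exact (map_zero (algebraMap EntFun Mer)).symm))

private lemma mul_val (a b : EntFun) (z : ℂ) : ((a * b : EntFun) : ℂ → ℂ) z = (a : ℂ → ℂ) z * (b : ℂ → ℂ) z := rfl

private lemma add_val (a b : EntFun) (z : ℂ) : ((a + b : EntFun) : ℂ → ℂ) z = (a : ℂ → ℂ) z + (b : ℂ → ℂ) z := rfl

private lemma exists_rep (f : Mer) : ∃ a b : EntFun, b ≠ 0 ∧ f = toM a / toM b := by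
  obtain ⟨a, b, hb, h⟩ := IsFractionRing.div_surjective (A := EntFun) f
  exact ⟨a, b, nonZeroDivisors.ne_zero hb, h.symm⟩

theorem ofn_div (z₀ : ℂ) (a : EntFun) {b : EntFun} (hb : b ≠ 0) : ofn z₀ (toM a / toM b) = meromorphicOrderAt (fun z => (a : ℂ → ℂ) z / (b : ℂ → ℂ) z) z₀ := by
  unfold ofn
  set f : Mer := toM a / toM b with hf
  set a' : EntFun := (IsLocalization.sec (nonZeroDivisors EntFun) f).1 with ha'
  set b' : EntFun := ((IsLocalization.sec (nonZeroDivisors EntFun) f).2 : EntFun) with hb'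
  have hb'0 : b' ≠ 0 := nonZeroDivisors.ne_zero (IsLocalization.sec (nonZeroDivisors EntFun) f).2.2
  have h1 : f * toM b' = toM a' := IsLocalization.sec_spec (nonZeroDivisors EntFun) f
  have h2 : a * b' = a' * b := by
    apply toM_inj
    have hbM := toM_ne hb
    have e1 : toM (a * b') = toM a * toM b' := map_mul _ _ _
    have e2 : toM (a' * b) = toM a' * toM b := map_mul _ _ _
    rw [e1, e2, ← h1, hf, mul_right_comm, div_mul_cancel₀ _ hbM]
  apply meromorphicOrderAt_congr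
  filter_upwards [ev_ne z₀ hb, ev_ne z₀ hb'0] with z hz hz'
  have h3 : (a : ℂ → ℂ) z * (b' : ℂ → ℂ) z = (a' : ℂ → ℂ) z * (b : ℂ → ℂ) z := by
    rw [← mul_val, ← mul_val, h2]
  rw [div_eq_div_iff hz' hz]
  exact h3.symm

private lemma ofn_rep (z₀ : ℂ) (a : EntFun) {b : EntFun} (hb : b ≠ 0) : ofn z₀ (toM a / toM b) = meromorphicOrderAt (qf a b) z₀ :=
  ofn_div z₀ a hb

private lemma toM_one : toM 1 = 1 := map_one (algebraMap EntFun Mer)

private lemma toM_zero : toM 0 = 0 := map_zero (algebraMap EntFun Mer)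

private lemma one_ne : (1 : EntFun) ≠ 0 := one_ne_zero

private lemma ofn_toM (z₀ : ℂ) (a : EntFun) : ofn z₀ (toM a) = meromorphicOrderAt (a : ℂ → ℂ) z₀ := by
  have h := ofn_div z₀ a one_ne
  rw [toM_one, div_one] at h
  rw [h]
  congr 1
  funext z
  have : ((1 : EntFun) : ℂ → ℂ) z = 1 := rfl
  rw [this, div_one]

theorem ofn_zero (z₀ : ℂ) : ofn z₀ 0 = ⊤ := by
  rw [← toM_zero, ofn_toM, meromorphicOrderAt_eq_top_iff]
  exact Filter.Eventually.of_forall fun z => rfl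

theorem ofn_one (z₀ : ℂ) : ofn z₀ 1 = 0 := by
  classical
  rw [← toM_one, ofn_toM]
  have h := meromorphicOrderAt_const z₀ (1 : ℂ)
  rw [if_neg one_ne_zero] at h
  exact h

theorem ofn_add (z₀ : ℂ) (f g : Mer) : min (ofn z₀ f) (ofn z₀ g) ≤ ofn z₀ (f + g) := by
  obtain ⟨a, b, hb, rfl⟩ := exists_rep f
  obtain ⟨c, d, hd, rfl⟩ := exists_rep g
  have h1 : toM a / toM b + toM c / toM d = toM (a * d + b * c) / toM (b * d) := by
    have e1 : toM (a * d + b * c) = toM a * toM d + toM b * toM c := by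
      rw [← map_mul, ← map_mul, ← map_add]
    have e2 : toM (b * d) = toM b * toM d := map_mul _ _ _
    rw [e1, e2, div_add_div _ _ (toM_ne hb) (toM_ne hd)]
  rw [h1, ofn_rep z₀ a hb, ofn_rep z₀ c hd, ofn_rep z₀ _ (mul_ne_zero hb hd)]
  refine (meromorphicOrderAt_add (qf_mero z₀ a b) (qf_mero z₀ c d)).trans (le_of_eq ?_)
  apply meromorphicOrderAt_congr
  filter_upwards [ev_ne z₀ hb, ev_ne z₀ hd] with z hz hz'
  rw [Pi.add_apply]
  unfold qf
  rw [add_val, mul_val, mul_val, mul_val, div_add_div _ _ hz hz']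

theorem ofn_mul (z₀ : ℂ) (f g : Mer) : ofn z₀ (f * g) = ofn z₀ f + ofn z₀ g := by
  obtain ⟨a, b, hb, rfl⟩ := exists_rep f
  obtain ⟨c, d, hd, rfl⟩ := exists_rep g
  have h1 : toM a / toM b * (toM c / toM d) = toM (a * c) / toM (b * d) := by
    have e1 : toM (a * c) = toM a * toM c := map_mul _ _ _
    have e2 : toM (b * d) = toM b * toM d := map_mul _ _ _
    rw [e1, e2, div_mul_div_comm]
  rw [h1, ofn_rep z₀ a hb, ofn_rep z₀ c hd, ofn_rep z₀ _ (mul_ne_zero hb hd),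
    ← meromorphicOrderAt_mul (qf_mero z₀ a b) (qf_mero z₀ c d)]
  congr 1
  funext z
  rw [Pi.mul_apply]
  unfold qf
  rw [mul_val, mul_val, div_mul_div_comm]

/-- the order at `z₀` as a valuation -/
def ordM (z₀ : ℂ) : AddValuation Mer (WithTop ℤ) := AddValuation.of (ofn z₀) (ofn_zero z₀) (ofn_one z₀) (ofn_add z₀) (ofn_mul z₀)

theorem ordM_div (z₀ : ℂ) (a : EntFun) {b : EntFun} (hb : b ≠ 0) : ordM z₀ (toM a / toM b) = meromorphicOrderAt (fun z => (a : ℂ → ℂ) z / (b : ℂ → ℂ) z) z₀ := by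
  exact ofn_div z₀ a hb

theorem ordM_toM (z₀ : ℂ) (a : EntFun) : ordM z₀ (toM a) = meromorphicOrderAt (a : ℂ → ℂ) z₀ := by
  exact ofn_toM z₀ a

theorem ordM_toM_nonneg (z₀ : ℂ) (a : EntFun) : 0 ≤ ordM z₀ (toM a) := by
  rw [ordM_toM]
  exact (a.analyticAt z₀).meromorphicOrderAt_nonneg

theorem ordM_toM_pos (z₀ : ℂ) (a : EntFun) : 0 < ordM z₀ (toM a) ↔ (a : ℂ → ℂ) z₀ = 0 := by
  rw [ordM_toM, ← tendsto_zero_iff_meromorphicOrderAt_pos (a.analyticAt z₀).meromorphicAt]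
  have hc : Tendsto (a : ℂ → ℂ) (𝓝[≠] z₀) (𝓝 ((a : ℂ → ℂ) z₀)) :=
    (a.analyticAt z₀).continuousAt.tendsto.mono_left nhdsWithin_le_nhds
  constructor
  · intro h
    exact tendsto_nhds_unique hc h
  · intro h
    rw [h] at hc
    exact hc

theorem ordM_eq_top (z₀ : ℂ) {f : Mer} : ordM z₀ f = ⊤ ↔ f = 0 := by
  constructor
  · intro h
    obtain ⟨a, b, hb, rfl⟩ := exists_rep f
    rw [ordM_div z₀ a hb, meromorphicOrderAt_eq_top_iff] at h
    by_contra h0
    have ha : a ≠ 0 := by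
      rintro rfl
      apply h0
      rw [toM_zero, zero_div]
    obtain ⟨z, ⟨hz1, hz2⟩, hz3⟩ := ((ev_ne z₀ ha).and (ev_ne z₀ hb)).and h |>.exists
    exact div_ne_zero hz1 hz2 hz3
  · rintro rfl
    exact ofn_zero z₀

theorem algebraMap_eq (c : ℂ) : algebraMap ℂ Mer c = toM (algebraMap ℂ EntFun c) := by
  exact IsScalarTower.algebraMap_apply ℂ EntFun Mer c

theorem ordM_const (z₀ : ℂ) {c : ℂ} (hc : c ≠ 0) : ordM z₀ (algebraMap ℂ Mer c) = 0 := by
  classical
  rw [algebraMap_eq, ordM_toM]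
  have h := meromorphicOrderAt_const z₀ c
  rw [if_neg hc] at h
  exact h

/-- a meromorphic function without pole at `z₀` has a value at `z₀` -/
theorem exists_valueM (z₀ : ℂ) {f : Mer} (hf : 0 ≤ ordM z₀ f) : ∃ c : ℂ, 0 < ordM z₀ (f - algebraMap ℂ Mer c) := by
  obtain ⟨a, b, hb, rfl⟩ := exists_rep f
  have h1 : ordM z₀ (toM a / toM b) = meromorphicOrderAt (qf a b) z₀ := ordM_div z₀ a hb
  rw [h1] at hf
  obtain ⟨c, hc⟩ := tendsto_nhds_of_meromorphicOrderAt_nonneg (qf_mero z₀ a b) hf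
  refine ⟨c, ?_⟩
  have h2 : toM a / toM b - algebraMap ℂ Mer c = toM (a - algebraMap ℂ EntFun c * b) / toM b := by
    have e1 : toM (a - algebraMap ℂ EntFun c * b) = toM a - toM (algebraMap ℂ EntFun c) * toM b := by
      rw [← map_mul, ← map_sub]
    rw [e1, algebraMap_eq, sub_div, mul_div_cancel_right₀ _ (toM_ne hb)]
  have h3 : ordM z₀ (toM (a - algebraMap ℂ EntFun c * b) / toM b) = meromorphicOrderAt (qf (a - algebraMap ℂ EntFun c * b) b) z₀ :=
    ordM_div z₀ _ hb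
  rw [h2, h3, ← tendsto_zero_iff_meromorphicOrderAt_pos (qf_mero z₀ _ b)]
  have h4 : Tendsto (fun z => qf a b z - c) (𝓝[≠] z₀) (𝓝 (c - c)) := hc.sub_const c
  rw [sub_self] at h4
  refine h4.congr' ?_
  filter_upwards [ev_ne z₀ hb] with z hz
  unfold qf
  have e2 : ((a - algebraMap ℂ EntFun c * b : EntFun) : ℂ → ℂ) z = (a : ℂ → ℂ) z - c * (b : ℂ → ℂ) z := rfl
  rw [e2, sub_div, mul_div_cancel_right₀ _ hz]

theorem tr_or_const (f : Mer) : (∃ c : ℂ, f = algebraMap ℂ Mer c) ∨ Transcendental ℂ f := by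
  by_cases h : Transcendental ℂ f
  · exact Or.inr h
  · left
    have halg : IsAlgebraic ℂ f := not_not.mp h
    have hint : IsIntegral ℂ f := halg.isIntegral
    have hdeg : (minpoly ℂ f).degree = 1 :=
      IsAlgClosed.degree_eq_one_of_irreducible ℂ (minpoly.irreducible hint)
    obtain ⟨c, hc⟩ := minpoly.mem_range_of_degree_eq_one ℂ f hdeg
    exact ⟨c, hc.symm⟩

end Pool.Agent.H13.CV

end
end

section

/-! # Fermat covers: integer relations -/

noncomputable section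

namespace Pool.Agent.H62.FC

private lemma Lattice_span {I : Type*} {Γ : Set (I → ℤ)} {x : I → ℚ}
    (hx : x ∈ Submodule.span ℚ ((fun (y : I → ℤ) (l : I) => (y l : ℚ)) '' Γ)) :
    ∃ M : ℕ, 0 < M ∧ ∃ z ∈ AddSubgroup.closure Γ, ∀ l, (M : ℚ) * x l = (z l : ℚ) := by
  induction hx using Submodule.span_induction with
  | mem x hx =>
    obtain ⟨γ, hγ, rfl⟩ := hx
    exact ⟨1, one_pos, γ, AddSubgroup.subset_closure hγ, fun l => by simp⟩
  | zero => exact ⟨1, one_pos, 0, zero_mem _, fun l => by simp⟩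
  | add x y _ _ h1 h2 =>
    obtain ⟨M₁, hM₁, z₁, hz₁, e₁⟩ := h1
    obtain ⟨M₂, hM₂, z₂, hz₂, e₂⟩ := h2
    refine ⟨M₁ * M₂, Nat.mul_pos hM₁ hM₂, M₂ • z₁ + M₁ • z₂,
      add_mem (nsmul_mem hz₁ _) (nsmul_mem hz₂ _), fun l => ?_⟩
    have h1 := e₁ l
    have h2 := e₂ l
    rw [Pi.add_apply, Pi.add_apply, Pi.smul_apply, Pi.smul_apply, nsmul_eq_mul, nsmul_eq_mul]
    push_cast
    rw [← h1, ← h2]
    ring
  | smul q x _ h1 =>
    obtain ⟨M, hM, z, hz, e⟩ := h1
    refine ⟨M * q.den, Nat.mul_pos hM q.den_pos, q.num • z, zsmul_mem hz _, fun l => ?_⟩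
    have h1 := e l
    have h2 : (q.den : ℚ) * q = q.num := Rat.den_mul_eq_num q
    simp only [Pi.smul_apply, smul_eq_mul, Nat.cast_mul, Int.cast_mul]
    rw [← h1, ← h2]
    ring

theorem exists_combination {I : Type*} [Fintype I] [DecidableEq I] {Γ : Set (I → ℤ)} {i j : I}
    (h : ∀ n : I → ℤ, (∀ γ ∈ Γ, ∑ l, n l * γ l = 0) → n i = n j) :
    ∃ M : ℕ, 0 < M ∧
      (M : ℤ) • (Pi.single i 1 - Pi.single j 1 : I → ℤ) ∈ AddSubgroup.closure Γ := by
  classical
  have key : (fun l => (((Pi.single i 1 - Pi.single j 1 : I → ℤ) l : ℤ) : ℚ)) ∈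
      Submodule.span ℚ ((fun (y : I → ℤ) (l : I) => (y l : ℚ)) '' Γ) := by
    by_contra hcon
    obtain ⟨f, hf, hle⟩ := Submodule.exists_le_ker_of_notMem hcon
    -- the coefficients of the functional
    have hsum : ∀ x : I → ℚ, f x = ∑ l, f (Pi.single l 1) * x l := by
      intro x
      conv_lhs => rw [pi_eq_sum_univ' x]
      rw [map_sum]
      refine Finset.sum_congr rfl fun l _ => ?_
      rw [map_smul, smul_eq_mul, mul_comm]
    -- a common denominator
    obtain ⟨b, hb⟩ := IsLocalization.exist_integer_multiples_of_finite (nonZeroDivisors ℤ)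
      (fun l : I => f (Pi.single l 1))
    choose n hn using hb
    have hn' : ∀ l, (n l : ℚ) = (b : ℤ) * f (Pi.single l 1) := by
      intro l
      have h1 := hn l
      rw [Algebra.smul_def] at h1
      simpa using h1
    have hb0 : ((b : ℤ) : ℚ) ≠ 0 := by
      have := nonZeroDivisors.ne_zero b.2
      exact_mod_cast this
    have h1 : ∀ γ ∈ Γ, ∑ l, n l * γ l = 0 := by
      intro γ hγ
      have h2 : f (fun l => (γ l : ℚ)) = 0 := by
        have := hle (Submodule.subset_span ⟨γ, hγ, rfl⟩)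
        simpa using this
      rw [hsum] at h2
      have h3 : ((∑ l, n l * γ l : ℤ) : ℚ) = 0 := by
        push_cast
        simp_rw [hn', mul_assoc]
        rw [← Finset.mul_sum, h2, mul_zero]
      exact_mod_cast h3
    have h2 := h n h1
    apply hf
    rw [hsum]
    have h3 : f (Pi.single i 1) = f (Pi.single j 1) := by
      have h4 := hn' i
      have h5 := hn' j
      rw [h2, h5] at h4
      exact (mul_left_cancel₀ hb0 h4).symm
    simp only [Pi.sub_apply, Int.cast_sub, mul_sub, Finset.sum_sub_distrib, Pi.single_apply,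
      Int.cast_ite, Int.cast_one, Int.cast_zero, mul_ite, mul_one, mul_zero, Finset.sum_ite_eq',
      Finset.mem_univ, if_true]
    rw [h3, sub_self]
  obtain ⟨M, hM, z, hz, hzM⟩ := Lattice_span key
  refine ⟨M, hM, ?_⟩
  have : (M : ℤ) • (Pi.single i 1 - Pi.single j 1 : I → ℤ) = z := by
    funext l
    have h1 := hzM l
    rw [Pi.smul_apply, smul_eq_mul]
    exact_mod_cast h1
  rw [this]
  exact hz

end Pool.Agent.H62.FC

end
end
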