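import Pool.Agent.H94.G4T.M15
import Pool.Agent.H94.G4T.M36
import Pool.Agent.H94.G4T.M63
import Pool.Agent.H94.G4T.M88

/-! The parts of this file: H13.CV.HomR, G3.C.XU, TG.SmC, TG.SmE. -/

section

/-!
# CV HomR: homomorphisms into the field of meromorphic functions

`hom_rat`: `K = ℂ(t)`: the elements of `K` are the quotients `p (t) / q (t)`; `IsFractionRing` / `RatFunc.algEquivOfTranscendental` (see `Place_rat` in `Pool/Agent/H62/FC/Place.lean` for the base field `L = ⊥`),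
or `IntermediateField.adjoin` of a transcendental element: `Polynomial ℂ → Mer`, `X ↦ T` is injective, lift it to the fraction field.
`hom_cubic`: `K = ℂ(u)(v)`, `L = ℂ(u)`.  First `φ₀ : L →ₐ[ℂ] Mer` with `φ₀ u = U`.  `1, v` is a basis of `K` over `L`: every element is uniquely `a + b v` (`v² ∈ L`, `v ∉ L`, `K = L(v)`).  Define
`φ (a + b v) = φ₀ a + φ₀ b * V`; or: `IntermediateField.algHomAdjoinIntegralEquiv` / `AdjoinRoot` for the minimal polynomial `X² - (4 u³ - α u - β)` of `v` over `L`, with `Mer` as an `L`-algebra via `φ₀`.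
-/

set_option autoImplicit false

open Topology Filter
open Pool.Agent.H17 Pool.Agent.H17.EntFun

noncomputable section

namespace Pool.Agent.H13.CV

variable {K : Type} [Field K] [Algebra ℂ K]

private theorem hom_rat0 {t : K} (htr : Transcendental ℂ t) {M : Type} [Field M] [Algebra ℂ M] {T : M} (hT : Transcendental ℂ T) :
    ∃ φ : IntermediateField.adjoin ℂ {t} →ₐ[ℂ] M, φ ⟨t, IntermediateField.mem_adjoin_simple_self ℂ t⟩ = T := by
  refine ⟨((IntermediateField.adjoin ℂ {T}).val.comp (RatFunc.algEquivOfTranscendental T hT).toAlgHom).comp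
    (RatFunc.algEquivOfTranscendental t htr).symm.toAlgHom, ?_⟩
  have h1 : (RatFunc.algEquivOfTranscendental t htr).symm ⟨t, IntermediateField.mem_adjoin_simple_self ℂ t⟩ = RatFunc.X := by
    rw [AlgEquiv.symm_apply_eq]
    apply Subtype.ext
    simp
  have h2 : ((RatFunc.algEquivOfTranscendental T hT) RatFunc.X : M) = T := by
    simp
  show ((RatFunc.algEquivOfTranscendental T hT) ((RatFunc.algEquivOfTranscendental t htr).symm
    ⟨t, IntermediateField.mem_adjoin_simple_self ℂ t⟩) : M) = T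
  rw [h1, h2]

theorem hom_rat {t : K} (ht : IntermediateField.adjoin ℂ {t} = ⊤) (htr : Transcendental ℂ t) {T : Mer} (hT : Transcendental ℂ T) :
    ∃ φ : K →ₐ[ℂ] Mer, φ t = T := by
  obtain ⟨φ, hφ⟩ := hom_rat0 htr hT
  refine ⟨(φ.comp (IntermediateField.equivOfEq ht.symm).toAlgHom).comp IntermediateField.topEquiv.symm.toAlgHom, ?_⟩
  rw [← hφ]
  rfl

theorem hom_cubic {u v : K} {α β : ℂ} (h : v ^ 2 = 4 * u ^ 3 - algebraMap ℂ K α * u - algebraMap ℂ K β) (hu : Transcendental ℂ u)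
    (huv : IntermediateField.adjoin ℂ {u, v} = ⊤) (hvu : v ∉ IntermediateField.adjoin ℂ {u}) {U V : Mer} (hU : Transcendental ℂ U)
    (hUV : V ^ 2 = 4 * U ^ 3 - algebraMap ℂ Mer α * U - algebraMap ℂ Mer β) : ∃ φ : K →ₐ[ℂ] Mer, φ u = U ∧ φ v = V := by
  classical
  obtain ⟨L, hL⟩ : ∃ L : IntermediateField ℂ K, L = IntermediateField.adjoin ℂ {u} := ⟨_, rfl⟩
  have huL : u ∈ L := by
    rw [hL]
    exact IntermediateField.mem_adjoin_simple_self ℂ u
  rw [← hL] at hvu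
  obtain ⟨u₀, hu₀⟩ : ∃ u₀ : L, u₀ = ⟨u, huL⟩ := ⟨_, rfl⟩
  obtain ⟨φ₀, h₀⟩ : ∃ φ₀ : L →ₐ[ℂ] Mer, φ₀ u₀ = U := by
    subst hu₀
    subst hL
    exact hom_rat0 hu hU
  letI : Algebra L Mer := φ₀.toRingHom.toAlgebra
  haveI : IsScalarTower ℂ L Mer := IsScalarTower.of_algebraMap_eq' φ₀.comp_algebraMap.symm
  have halg : ∀ a : L, algebraMap L Mer a = φ₀ a := fun a => rfl
  let c : L := 4 * u₀ ^ 3 - algebraMap ℂ L α * u₀ - algebraMap ℂ L β
  have hc : algebraMap L K c = v ^ 2 := by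
    rw [h]
    simp only [c, map_sub, map_mul, map_pow, map_ofNat, ← IsScalarTower.algebraMap_apply]
    rw [hu₀]
    rfl
  have hv : Polynomial.aeval v (Polynomial.X ^ 2 - Polynomial.C c) = 0 := by
    simp [hc]
  have hmon : (Polynomial.X ^ 2 - Polynomial.C c : Polynomial L).Monic := Polynomial.monic_X_pow_sub_C c two_ne_zero
  have hint : IsIntegral L v := ⟨_, hmon, hv⟩
  have hmin : minpoly L v = Polynomial.X ^ 2 - Polynomial.C c := by
    have h1 : minpoly L v ∣ Polynomial.X ^ 2 - Polynomial.C c := minpoly.dvd L v hv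
    have h2 : 2 ≤ (minpoly L v).natDegree := by
      rw [minpoly.two_le_natDegree_iff hint]
      rintro ⟨a, ha⟩
      apply hvu
      rw [← ha]
      exact a.2
    refine (Polynomial.eq_of_monic_of_dvd_of_natDegree_le (minpoly.monic hint) hmon h1 ?_).symm
    rw [Polynomial.natDegree_X_pow_sub_C]
    exact h2
  have htop : IntermediateField.adjoin L {v} = ⊤ := by
    apply IntermediateField.restrictScalars_injective ℂ
    rw [IntermediateField.restrictScalars_top, hL, IntermediateField.adjoin_adjoin_left, ← huv]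
    congr 1
  have hroot : Polynomial.aeval V (minpoly L (IntermediateField.adjoin.powerBasis hint).gen) = 0 := by
    rw [IntermediateField.adjoin.powerBasis_gen, IntermediateField.minpoly_gen, hmin]
    simp only [map_sub, map_pow, Polynomial.aeval_X, Polynomial.aeval_C, halg, c, map_mul, map_ofNat]
    rw [h₀, hUV, φ₀.commutes, φ₀.commutes]
    ring
  let ψ : IntermediateField.adjoin L {v} →ₐ[L] Mer := (IntermediateField.adjoin.powerBasis hint).lift V hroot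
  have hψ : ψ (IntermediateField.AdjoinSimple.gen L v) = V := by
    have := (IntermediateField.adjoin.powerBasis hint).lift_gen V hroot
    rwa [IntermediateField.adjoin.powerBasis_gen] at this
  let e : K →ₐ[L] IntermediateField.adjoin L {v} :=
    (IntermediateField.equivOfEq htop.symm).toAlgHom.comp IntermediateField.topEquiv.symm.toAlgHom
  refine ⟨(ψ.comp e).restrictScalars ℂ, ?_, ?_⟩
  · have h1 : (ψ.comp e) (algebraMap L K u₀) = algebraMap L Mer u₀ := AlgHom.commutes _ _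
    rw [halg, h₀, hu₀] at h1
    exact h1
  · exact hψ

end Pool.Agent.H13.CV

end
end

section

/-!
# G3 C XU: a holomorphic curve with infinitely many points in `X` (over the right points of the torus) is a curve in `X`
-/

set_option autoImplicit false

open Topology Filter Metric Set

namespace Pool.Agent.G3.C

open Pool.Agent.H36.BP (EN fs wd)
open Pool.Agent.H14.PP (IsCone)
open Pool.Agent.H62.EF (MN pr pr_smul pr_eq_iff continuousAt_pr)
open Pool.Agent.AD (Vd Chart Charts)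
open Pool.Agent.TG (TMap Lat close_lift mem_of_pr)

variable {N k : ℕ} {X : Set (EN N)} {Λ : AddSubgroup (Vd (k + 1))} {u : EN N → Vd (k + 1)}

private theorem xu_coord {E : Type*} [NormedAddCommGroup E] [NormedSpace ℂ E] {f : E → EN N} {z : E} (hf : AnalyticAt ℂ f z) (i : Fin (N + 1)) :
    AnalyticAt ℂ (fun w => f w i) z :=
  ((EuclideanSpace.proj (𝕜 := ℂ) i : EN N →L[ℂ] ℂ).analyticAt _).comp hf

private theorem xu_prop {x y : EN N} (hx : x ≠ 0) (hy : y ≠ 0) (h : ∀ i j, x i * y j - x j * y i = 0) : ∃ c : ℂ, c ≠ 0 ∧ x = c • y := by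
  obtain ⟨j, hj⟩ : ∃ j, y j ≠ 0 := by
    by_contra hcon
    push Not at hcon
    exact hy (by ext j; exact hcon j)
  have e : x = (x j / y j) • y := by
    ext i
    simp only [PiLp.smul_apply, smul_eq_mul]
    rw [div_mul_eq_mul_div, eq_div_iff hj]
    exact sub_eq_zero.1 (h i j)
  refine ⟨x j / y j, fun h0 => ?_, e⟩
  rw [h0, zero_smul] at e
  exact hx e

/-- the local statement -/
theorem xu_local {d : ℕ} (hX : IsCone X) (hch : Charts d X) (ht : TMap X Λ u) (hl : Lat Λ) {γ : ℂ → EN N} {υ : ℂ → Vd (k + 1)} {ζ : ℂ}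
    (hγ : AnalyticAt ℂ γ ζ) (h0 : γ ζ ≠ 0) (hυ : AnalyticAt ℂ υ ζ) (hfr : ∃ᶠ w in 𝓝[≠] ζ, γ w ∈ X ∧ u (γ w) - υ w ∈ Λ) :
    ∀ᶠ w in 𝓝 ζ, γ w ∈ X ∧ u (γ w) - υ w ∈ Λ := by
  obtain ⟨hxX, hxu⟩ := close_lift hX ht hl hγ.continuousAt h0 hυ.continuousAt (hfr.filter_mono nhdsWithin_le_nhds)
  obtain ⟨χ, hxU, hq0⟩ := hch _ hxX
  have hqγ : AnalyticAt ℂ (fun w => χ.q (γ w)) ζ := (χ.q_an _ hxU).comp hγ
  have hq0' : χ.q (γ ζ) ∈ ball (0 : Vd d) 2 := by rw [hq0]; exact mem_ball_self two_pos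
  have hσ : AnalyticAt ℂ (fun w => χ.σ (χ.q (γ w))) ζ := AnalyticAt.fun_comp (χ.σ_an _ hq0') hqγ
  have hev : ∀ᶠ w in 𝓝 ζ, γ w ∈ χ.U ∧ χ.q (γ w) ∈ ball (0 : Vd d) 2 ∧ γ w ≠ 0 :=
    (hγ.continuousAt.eventually_mem (χ.isOpen_U.mem_nhds hxU)).and
      ((hqγ.continuousAt.eventually_mem (isOpen_ball.mem_nhds hq0')).and (hγ.continuousAt.eventually_ne h0))
  -- in `X`
  have hm : ∀ i j, ∀ᶠ w in 𝓝 ζ, γ w i * χ.σ (χ.q (γ w)) j - γ w j * χ.σ (χ.q (γ w)) i = 0 := by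
    intro i j
    have han : AnalyticAt ℂ (fun w => γ w i * χ.σ (χ.q (γ w)) j - γ w j * χ.σ (χ.q (γ w)) i) ζ :=
      ((xu_coord hγ i).mul (xu_coord hσ j)).sub ((xu_coord hγ j).mul (xu_coord hσ i))
    refine han.frequently_zero_iff_eventually_zero.1 ?_
    refine (hfr.and_eventually (hev.filter_mono nhdsWithin_le_nhds)).mono fun w hw => ?_
    obtain ⟨⟨hwX, -⟩, hwU, hwq, hw0⟩ := hw
    obtain ⟨-, c, hc, he⟩ := χ.surj _ hwX hwU
    have h1 : ∀ l, γ w l = c * χ.σ (χ.q (γ w)) l := fun l => by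
      have := congrArg (fun v : EN N => v l) he
      simpa [PiLp.smul_apply, smul_eq_mul] using this
    rw [h1 i, h1 j]
    ring
  have hX' : ∀ᶠ w in 𝓝 ζ, γ w ∈ X := by
    have h2 : ∀ᶠ w in 𝓝 ζ, ∀ i j, γ w i * χ.σ (χ.q (γ w)) j - γ w j * χ.σ (χ.q (γ w)) i = 0 := eventually_all.2 fun i => eventually_all.2 fun j => hm i j
    filter_upwards [h2, hev] with w h3 h4
    obtain ⟨hwU, hwq, hw0⟩ := h4
    have h5 := (χ.σ_mem _ hwq).1
    obtain ⟨c, hc, he⟩ := xu_prop hw0 (fun h => hX.zero_notMem (h ▸ h5)) h3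
    rw [he]
    exact hX.smul_mem _ h5 c hc
  -- over the right points
  obtain ⟨v, hv, hvu⟩ := ht.loc _ hxX
  have hD : AnalyticAt ℂ (fun w => v (γ w) - υ w) ζ := (hv.comp hγ).sub hυ
  have hvu' : ∀ᶠ w in 𝓝 ζ, γ w ∈ X → u (γ w) - v (γ w) ∈ Λ := hγ.continuousAt.eventually hvu
  have hDζ : v (γ ζ) - υ ζ ∈ Λ := by
    have h1 := Λ.sub_mem hxu (hvu'.self_of_nhds hxX)
    have e : u (γ ζ) - υ ζ - (u (γ ζ) - v (γ ζ)) = v (γ ζ) - υ ζ := by abel
    rwa [e] at h1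
  obtain ⟨δ, hδ, hdisc⟩ := hl.disc
  have hclose : ∀ᶠ w in 𝓝 ζ, ‖(v (γ w) - υ w) - (v (γ ζ) - υ ζ)‖ < δ := by
    have h1 := Metric.tendsto_nhds.1 hD.continuousAt δ hδ
    filter_upwards [h1] with w hw
    rwa [dist_eq_norm] at hw
  have hz : ∀ᶠ w in 𝓝 ζ, (v (γ w) - υ w) - (v (γ ζ) - υ ζ) = 0 := by
    have han : AnalyticAt ℂ (fun w => (v (γ w) - υ w) - (v (γ ζ) - υ ζ)) ζ := hD.sub analyticAt_const
    refine han.frequently_zero_iff_eventually_zero.1 ?_
    refine (hfr.and_eventually ((hvu'.and hclose).filter_mono nhdsWithin_le_nhds)).mono fun w hw => ?_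
    obtain ⟨⟨hwX, hwu⟩, h1, h2⟩ := hw
    have h3 := Λ.sub_mem (Λ.sub_mem hwu (h1 hwX)) hDζ
    have e : u (γ w) - υ w - (u (γ w) - v (γ w)) - (v (γ ζ) - υ ζ) = (v (γ w) - υ w) - (v (γ ζ) - υ ζ) := by abel
    rw [e] at h3
    exact hdisc _ h3 h2
  filter_upwards [hX', hvu', hz] with w h1 h2 h3
  refine ⟨h1, ?_⟩
  have h4 := Λ.add_mem (h2 h1) hDζ
  have e : u (γ w) - υ w = (u (γ w) - v (γ w)) + (v (γ ζ) - υ ζ) := by
    rw [← sub_eq_zero.1 h3]
    abel
  rw [e]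
  exact h4

/-- the global statement -/
theorem xu_global {d : ℕ} (hX : IsCone X) (hch : Charts d X) (ht : TMap X Λ u) (hl : Lat Λ) {γ : ℂ → EN N} {υ : ℂ → Vd (k + 1)} {W : Set ℂ}
    (hWo : IsOpen W) (hWc : IsPreconnected W) (hγ : DifferentiableOn ℂ γ W) (h0 : ∀ ζ ∈ W, γ ζ ≠ 0) (hυ : DifferentiableOn ℂ υ W) {ζ₀ : ℂ} (hζ₀ : ζ₀ ∈ W)
    (hfr : ∃ᶠ w in 𝓝[≠] ζ₀, γ w ∈ X ∧ u (γ w) - υ w ∈ Λ) : ∀ ζ ∈ W, γ ζ ∈ X ∧ u (γ ζ) - υ ζ ∈ Λ := by
  obtain ⟨A, hA⟩ : ∃ A : Set ℂ, ∀ ζ, ζ ∈ A ↔ ∀ᶠ w in 𝓝 ζ, γ w ∈ X ∧ u (γ w) - υ w ∈ Λ := ⟨{ζ | ∀ᶠ w in 𝓝 ζ, γ w ∈ X ∧ u (γ w) - υ w ∈ Λ}, fun _ => Iff.rfl⟩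
  have hloc : ∀ ζ ∈ W, (∃ᶠ w in 𝓝[≠] ζ, γ w ∈ X ∧ u (γ w) - υ w ∈ Λ) → ζ ∈ A := fun ζ hζ h =>
    (hA ζ).2 (xu_local hX hch ht hl (hγ.analyticAt (hWo.mem_nhds hζ)) (h0 ζ hζ) (hυ.analyticAt (hWo.mem_nhds hζ)) h)
  have hAo : IsOpen A := by
    rw [isOpen_iff_mem_nhds]
    intro ζ hζ
    filter_upwards [((hA ζ).1 hζ).eventually_nhds] with w hw
    exact (hA w).2 hw
  have hcl : closure A ∩ W ⊆ A := by
    rintro ζ ⟨hζ, hζW⟩
    refine hloc ζ hζW ?_
    have h1 : ∃ᶠ w in 𝓝 ζ, w ∈ A := mem_closure_iff_frequently.1 hζ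
    rw [Filter.frequently_iff] at h1 ⊢
    intro U hU
    rw [mem_nhdsWithin] at hU
    obtain ⟨V, hVo, hζV, hVU⟩ := hU
    obtain ⟨w, hwV, hwA⟩ := h1 (hVo.mem_nhds hζV)
    -- a point of `V` near `w`, not equal to `ζ`
    have h2 : ∀ᶠ x in 𝓝 w, x ∈ V ∧ γ x ∈ X ∧ u (γ x) - υ x ∈ Λ := Filter.Eventually.and (hVo.mem_nhds hwV) ((hA w).1 hwA)
    have h3 : ∃ᶠ x in 𝓝 w, x ≠ ζ := by
      have hd : Dense ({ζ}ᶜ : Set ℂ) := dense_compl_singleton ζ
      exact mem_closure_iff_frequently.1 (hd w)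
    obtain ⟨x, hx1, hx2⟩ := (h3.and_eventually h2).exists
    exact ⟨x, hVU ⟨hx2.1, hx1⟩, hx2.2⟩
  have h := hWc.subset_of_closure_inter_subset hAo ⟨ζ₀, hζ₀, hloc ζ₀ hζ₀ hfr⟩ hcl
  exact fun ζ hζ => ((hA ζ).1 (h hζ)).self_of_nhds

/-- real points accumulate -/
theorem real_freq {s : ℝ} {P : ℂ → Prop} (h : ∀ᶠ t : ℝ in 𝓝 s, P t) : ∃ᶠ w in 𝓝[≠] (s : ℂ), P w := by
  have h1 : Tendsto (fun t : ℝ => (t : ℂ)) (𝓝[≠] s) (𝓝[≠] (s : ℂ)) := by
    refine tendsto_nhdsWithin_iff.2 ⟨(Complex.continuous_ofReal.tendsto s).mono_left nhdsWithin_le_nhds, ?_⟩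
    filter_upwards [self_mem_nhdsWithin] with t ht
    intro hc
    exact ht (Complex.ofReal_injective hc)
  have h2 : ∃ᶠ t : ℝ in 𝓝[≠] s, P t := (h.filter_mono nhdsWithin_le_nhds).frequently
  exact h1.frequently h2

end Pool.Agent.G3.C

end

section

/-!
# TG SmC: meromorphic sections are sections

`CLip y₀`: the holomorphic curves in `X` over the lines near `y₀` are uniformly Lipschitz.  `mer_lip`: so are the meromorphic sections.  `mer_sec`: if
`CLip` holds at the points off `D`, a meromorphic section gives an element of `Sec`.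
-/

set_option autoImplicit false

open Topology Filter Metric

namespace Pool.Agent.TG

open Pool.Agent.H36.BP (EN fs wd)
open Pool.Agent.H14.PP (IsCone)
open Pool.Agent.H62.EF (MN pr pr_smul pr_eq_iff continuousAt_pr isCompact_pr nm_close)
open Pool.Agent.AD (Vd)

variable {N k : ℕ} {X : Set (EN N)} {Λ : AddSubgroup (Vd (k + 1))} {u : EN N → Vd (k + 1)} {D : Set (Vd (k + 1))}

/-- the holomorphic curves in `X` over the lines near `y₀` are uniformly Lipschitz -/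
def CLip (X : Set (EN N)) (Λ : AddSubgroup (Vd (k + 1))) (u : EN N → Vd (k + 1)) (y₀ : Vd (k + 1)) : Prop :=
  ∃ ρ C : ℝ, 0 < ρ ∧ 0 ≤ C ∧ ∀ y ∈ ball y₀ ρ, ∀ e : Vd (k + 1), ‖e‖ ≤ 1 → ∀ g : ℂ → MN N, (∀ z ∈ ball (0 : ℂ) ρ, LiftAt X Λ u y e g z) →
    ∀ z ∈ ball (0 : ℂ) (ρ / 2), ∀ w ∈ ball (0 : ℂ) (ρ / 2), dist (g z) (g w) ≤ C * ‖z - w‖

theorem Mer.not_ev {F : Vd (k + 1) → EN N} (hF : Mer X Λ u F) (y : Vd (k + 1)) : ¬ ∀ᶠ z in 𝓝 y, F z = 0 := by
  intro h
  obtain ⟨y₁, h1⟩ := hF.ne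
  exact h1 (AnalyticOnNhd.eqOn_zero_of_preconnected_of_eventuallyEq_zero (U := Set.univ) (fun z _ => hF.an z) isPreconnected_univ
    (Set.mem_univ y) h (Set.mem_univ y₁))

theorem Mer.freq {F : Vd (k + 1) → EN N} (hF : Mer X Λ u F) (y : Vd (k + 1)) : ∃ᶠ z in 𝓝 y, F z ≠ 0 := Filter.not_eventually.mp (hF.not_ev y)

/-- a meromorphic section on a line where it is not identically `0` -/
theorem line_ext (hX : IsCone X) (ht : TMap X Λ u) (hl : Lat Λ) {F : Vd (k + 1) → EN N} (hF : Mer X Λ u F) {y e : Vd (k + 1)}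
    (hne : ∃ t : ℂ, F (y + t • e) ≠ 0) :
    ∃ g : ℂ → MN N, (∀ t, LiftAt X Λ u y e g t) ∧ ∀ t, F (y + t • e) ≠ 0 → g t = pr (F (y + t • e)) := by
  set f : ℂ → EN N := fun t => F (y + t • e) with hf
  have han : ∀ t, AnalyticAt ℂ f t := by
    intro t
    refine AnalyticAt.fun_comp (hF.an _) ?_
    exact analyticAt_const.add (analyticAt_id.smul analyticAt_const)
  have hnl : ∀ t, ¬ ∀ᶠ z in 𝓝 t, f z = 0 := by
    intro t h
    obtain ⟨t₁, h1⟩ := hne
    exact h1 (AnalyticOnNhd.eqOn_zero_of_preconnected_of_eventuallyEq_zero (U := Set.univ) (fun z _ => han z) isPreconnected_univ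
      (Set.mem_univ t) h (Set.mem_univ t₁))
  have hch : ∀ t, ∃ (n : ℕ) (H : ℂ → EN N), AnalyticAt ℂ H t ∧ H t ≠ 0 ∧ ∀ᶠ z in 𝓝 t, f z = (z - t) ^ n • H z := fun t =>
    (han t).exists_eventuallyEq_pow_smul_nonzero_iff.mpr (hnl t)
  choose n H hHan hHne hHev using hch
  have hval : ∀ t, f t ≠ 0 → H t t = f t := by
    intro t h0
    have h1 := (hHev t).self_of_nhds
    rw [sub_self] at h1
    rcases Nat.eq_zero_or_pos (n t) with h2 | h2
    · rw [h2, pow_zero, one_smul] at h1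
      exact h1.symm
    · rw [zero_pow h2.ne', zero_smul] at h1
      exact absurd h1 h0
  refine ⟨fun t => pr (H t t), fun t => ⟨H t, hHan t, ?_⟩, fun t h0 => by
    show pr (H t t) = pr (f t)
    rw [hval t h0]⟩
  have hE : ∀ᶠ z in 𝓝 t, H t z ≠ 0 ∧ AnalyticAt ℂ (H t) z ∧ f z = (z - t) ^ n t • H t z :=
    ((hHan t).continuousAt.eventually_ne (hHne t)).and ((hHan t).eventually_analyticAt.and (hHev t))
  have hgood : ∀ z, H t z ≠ 0 → f z = (z - t) ^ n t • H t z → z ≠ t → H t z ∈ X ∧ u (H t z) - (y + z • e) ∈ Λ ∧ pr (H t z) = pr (f z) ∧ f z ≠ 0 := by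
    intro z h1 h2 h3
    have h4 : (z - t) ^ n t ≠ 0 := pow_ne_zero _ (sub_ne_zero.mpr h3)
    have h5 : f z ≠ 0 := by
      rw [h2]
      exact smul_ne_zero h4 h1
    have h6 : pr (H t z) = pr (f z) := by
      rw [h2, pr_smul _ h4]
    obtain ⟨h7, h8⟩ := hF.mem _ h5
    obtain ⟨h9, h10⟩ := mem_of_pr hX ht h7 h8 h1 h6
    exact ⟨h9, h10, h6, h5⟩
  filter_upwards [hE.eventually_nhds] with w hw
  obtain ⟨hw1, hw2, hw3⟩ := hw.self_of_nhds
  have hcl : H t w ∈ X ∧ u (H t w) - (y + w • e) ∈ Λ := by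
    refine close_lift (υ := fun w : ℂ => y + w • e) hX ht hl hw2.continuousAt hw1 (by fun_prop) ?_
    have hfr : ∃ᶠ z in 𝓝 w, z ≠ t := by
      have hd : Dense ({t}ᶜ : Set ℂ) := dense_compl_singleton t
      exact mem_closure_iff_frequently.mp (hd w)
    refine (hfr.and_eventually hw).mono fun z hz => ?_
    obtain ⟨h1, h2, h3, h4⟩ := hz
    have h5 := hgood z h2 h4 h1
    exact ⟨h5.1, h5.2.1⟩
  refine ⟨hcl.1, ?_, hcl.2⟩
  by_cases e1 : w = t
  · rw [e1]
  · have h5 := hgood w hw1 hw3 e1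
    show pr (H w w) = pr (H t w)
    rw [h5.2.2.1, hval w h5.2.2.2]

/-- the meromorphic sections are uniformly Lipschitz near `y₀` -/
theorem mer_lip (hX : IsCone X) (ht : TMap X Λ u) (hl : Lat Λ) {y₀ : Vd (k + 1)} (h : CLip X Λ u y₀) :
    ∃ ρ C : ℝ, 0 < ρ ∧ 0 ≤ C ∧ ∀ F, Mer X Λ u F → ∀ y ∈ ball y₀ ρ, ∀ z ∈ ball y₀ ρ, F y ≠ 0 → F z ≠ 0 → dist (pr (F y)) (pr (F z)) ≤ C * ‖y - z‖ := by
  obtain ⟨ρ, C, hρ, hC, h⟩ := h
  refine ⟨ρ / 4, C, by positivity, hC, fun F hF y hy z hz hy0 hz0 => ?_⟩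
  by_cases hyz : y = z
  · rw [hyz]
    simp
  · have hp : 0 < ‖z - y‖ := norm_pos_iff.mpr (sub_ne_zero.mpr (Ne.symm hyz))
    have hlt : ‖z - y‖ < ρ / 2 := by
      rw [mem_ball, dist_eq_norm] at hy hz
      have h1 : z - y = (z - y₀) - (y - y₀) := by abel
      rw [h1]
      linarith [norm_sub_le (z - y₀) (y - y₀)]
    set e : Vd (k + 1) := ((‖z - y‖⁻¹ : ℝ) : ℂ) • (z - y) with he
    have hen : ‖e‖ ≤ 1 := by
      rw [he, norm_smul, Complex.norm_real, norm_inv, norm_norm, inv_mul_cancel₀ hp.ne']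
    have hze : y + ((‖z - y‖ : ℝ) : ℂ) • e = z := by
      rw [he, smul_smul, ← Complex.ofReal_mul, mul_inv_cancel₀ hp.ne', Complex.ofReal_one, one_smul]
      abel
    have hye : y + (0 : ℂ) • e = y := by simp
    obtain ⟨g, hg1, hg2⟩ := line_ext hX ht hl hF (y := y) (e := e) ⟨0, by rw [hye]; exact hy0⟩
    have h1 := h y (ball_subset_ball (by linarith) hy) e hen g (fun z _ => hg1 z) 0 (mem_ball_self (by positivity)) ((‖z - y‖ : ℝ) : ℂ) (by
      rw [mem_ball_zero_iff, Complex.norm_real, norm_norm]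
      exact hlt)
    rw [hg2 0 (by rw [hye]; exact hy0), hg2 _ (by rw [hze]; exact hz0), hye, hze, zero_sub, norm_neg, Complex.norm_real, norm_norm] at h1
    rw [norm_sub_rev y z]
    exact h1

/-- a meromorphic section is holomorphic off `D` -/
theorem mer_germ (hX : IsCone X) (ht : TMap X Λ u) (hl : Lat Λ) {y₀ : Vd (k + 1)} (h : CLip X Λ u y₀) {F : Vd (k + 1) → EN N} (hF : Mer X Λ u F) :
    ∃ φ : Vd (k + 1) → EN N, AnalyticAt ℂ φ y₀ ∧ (∀ᶠ y in 𝓝 y₀, φ y ∈ X ∧ u (φ y) - y ∈ Λ) ∧ ∀ᶠ y in 𝓝 y₀, F y ≠ 0 → pr (φ y) = pr (F y) := by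
  obtain ⟨ρ, C, hρ, -, hlip⟩ := mer_lip hX ht hl h
  obtain ⟨φ, h1, h2, h3⟩ := lip_lift (hF.an y₀) (hF.not_ev y₀) hρ (hlip F hF)
  refine ⟨φ, h1, ?_, h3⟩
  have hE : ∀ᶠ y in 𝓝 y₀, φ y ≠ 0 ∧ AnalyticAt ℂ φ y ∧ (F y ≠ 0 → pr (φ y) = pr (F y)) :=
    (h1.continuousAt.eventually_ne h2).and (h1.eventually_analyticAt.and h3)
  filter_upwards [hE.eventually_nhds] with y hy
  obtain ⟨hy1, hy2, hy3⟩ := hy.self_of_nhds
  refine close_lift (υ := fun y => y) hX ht hl hy2.continuousAt hy1 continuousAt_id ?_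
  refine ((hF.freq y).and_eventually hy).mono fun z hz => ?_
  obtain ⟨h4, h5, h6, h7⟩ := hz
  exact mem_of_pr hX ht (hF.mem z h4).1 (hF.mem z h4).2 h5 (h7 h4)

/-- two limits of the same map agree -/
theorem pr_lim {E : Type*} [TopologicalSpace E] {F φ ψ : E → EN N} {y : E} (hφ : ContinuousAt φ y) (hφ0 : φ y ≠ 0) (hψ : ContinuousAt ψ y) (hψ0 : ψ y ≠ 0)
    (hF : ∃ᶠ z in 𝓝 y, F z ≠ 0) (h1 : ∀ᶠ z in 𝓝 y, F z ≠ 0 → pr (φ z) = pr (F z)) (h2 : ∀ᶠ z in 𝓝 y, F z ≠ 0 → pr (ψ z) = pr (F z)) :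
    pr (φ y) = pr (ψ y) := by
  have hc1 : ContinuousAt (fun z => dist (pr (φ z)) (pr (ψ z))) y :=
    ((continuousAt_pr hφ0).comp hφ).dist ((continuousAt_pr hψ0).comp hψ)
  have hm : dist (pr (φ y)) (pr (ψ y)) ∈ closure ({0} : Set ℝ) := by
    rw [mem_closure_iff_frequently]
    refine hc1.tendsto.frequently ((hF.and_eventually (h1.and h2)).mono fun z hz => ?_)
    show dist (pr (φ z)) (pr (ψ z)) = 0
    rw [hz.2.1 hz.1, hz.2.2 hz.1, dist_self]
  rw [closure_singleton, Set.mem_singleton_iff] at hm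
  exact dist_eq_zero.mp hm

/-- division by a power of the first variable, for vectors -/
theorem exists_div_vec {E : Type} [NormedAddCommGroup E] [NormedSpace ℂ E] [FiniteDimensional ℂ E] {g : ℂ × E → EN N} (hg : AnalyticAt ℂ g 0)
    (hne : ¬ ∀ᶠ y in 𝓝 (0 : ℂ × E), g y = 0) :
    ∃ (a : ℕ) (g' : ℂ × E → EN N), AnalyticAt ℂ g' 0 ∧ (∀ᶠ y in 𝓝 (0 : ℂ × E), g y = y.1 ^ a • g' y) ∧ ¬ ∀ᶠ x in 𝓝 (0 : E), g' (0, x) = 0 := by
  classical
  have hch : ∀ i : Fin (N + 1), ∃ (a : ℕ) (g' : ℂ × E → ℂ), (¬ ∀ᶠ y in 𝓝 (0 : ℂ × E), g y i = 0) → AnalyticAt ℂ g' 0 ∧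
      (∀ᶠ y in 𝓝 (0 : ℂ × E), g y i = y.1 ^ a * g' y) ∧ ¬ ∀ᶠ x in 𝓝 (0 : E), g' (0, x) = 0 := by
    intro i
    by_cases h : ∀ᶠ y in 𝓝 (0 : ℂ × E), g y i = 0
    · exact ⟨0, fun _ => 0, fun h' => absurd h h'⟩
    · obtain ⟨a, g', h1, h2, h3⟩ := Pool.Agent.H22.HF.exists_div (coord_an hg i) h
      exact ⟨a, g', fun _ => ⟨h1, h2, h3⟩⟩
  choose a g' hprop using hch
  set S : Finset (Fin (N + 1)) := Finset.univ.filter fun i => ¬ ∀ᶠ y in 𝓝 (0 : ℂ × E), g y i = 0 with hS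
  have hmemS : ∀ i, i ∈ S ↔ ¬ ∀ᶠ y in 𝓝 (0 : ℂ × E), g y i = 0 := by
    intro i
    simp [hS]
  have hSne : S.Nonempty := by
    by_contra hcon
    rw [Finset.not_nonempty_iff_eq_empty] at hcon
    refine hne ?_
    have h1 : ∀ i, ∀ᶠ y in 𝓝 (0 : ℂ × E), g y i = 0 := by
      intro i
      by_contra hi
      have := (hmemS i).mpr hi
      rw [hcon] at this
      simp at this
    filter_upwards [Filter.eventually_all.mpr h1] with y hy
    ext i
    exact hy i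
  obtain ⟨i₀, hi₀, hmin⟩ := S.exists_min_image a hSne
  refine ⟨a i₀, fun y => WithLp.toLp 2 fun i => if i ∈ S then y.1 ^ (a i - a i₀) * g' i y else 0, an_of_coord fun i => ?_, ?_, ?_⟩
  · show AnalyticAt ℂ (fun y : ℂ × E => if i ∈ S then y.1 ^ (a i - a i₀) * g' i y else 0) 0
    by_cases hi : i ∈ S
    · simp only [hi, if_true]
      exact ((analyticAt_fst (𝕜 := ℂ)).pow _).mul (hprop i ((hmemS i).mp hi)).1
    · simp only [hi, if_false]
      exact analyticAt_const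
  · have h1 : ∀ i, ∀ᶠ y in 𝓝 (0 : ℂ × E), g y i = y.1 ^ a i₀ * (if i ∈ S then y.1 ^ (a i - a i₀) * g' i y else 0) := by
      intro i
      by_cases hi : i ∈ S
      · simp only [hi, if_true]
        filter_upwards [(hprop i ((hmemS i).mp hi)).2.1] with y hy
        rw [hy, ← mul_assoc, ← pow_add, Nat.add_sub_cancel' (hmin i hi)]
      · simp only [hi, if_false, mul_zero]
        by_contra hcon
        exact hi ((hmemS i).mpr hcon)
    filter_upwards [Filter.eventually_all.mpr h1] with y hy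
    ext i
    exact hy i
  · intro hcon
    refine (hprop i₀ ((hmemS i₀).mp hi₀)).2.2 ?_
    filter_upwards [hcon] with x hx
    have h1 := congrArg (fun v : EN N => v i₀) hx
    simpa [hi₀] using h1

/-- a meromorphic section gives an element of `Sec` -/
theorem mer_sec (hX : IsCone X) (ht : TMap X Λ u) (hl : Lat Λ) (hD : IsClosed D) (hlip : ∀ y ∉ D, CLip X Λ u y) {F : Vd (k + 1) → EN N}
    (hF : Mer X Λ u F) : ∃ f ∈ Sec X Λ u D, ∀ y ∉ D, F y ≠ 0 → f y = pr (F y) := by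
  classical
  have hch : ∀ y : Vd (k + 1), ∃ φ : Vd (k + 1) → EN N, y ∉ D → AnalyticAt ℂ φ y ∧ (∀ᶠ z in 𝓝 y, φ z ∈ X ∧ u (φ z) - z ∈ Λ) ∧
      ∀ᶠ z in 𝓝 y, F z ≠ 0 → pr (φ z) = pr (F z) := by
    intro y
    by_cases hy : y ∈ D
    · exact ⟨fun _ => 0, fun h => absurd hy h⟩
    · obtain ⟨φ, h⟩ := mer_germ hX ht hl (hlip y hy) hF
      exact ⟨φ, fun _ => h⟩
  choose φ hφ using hch
  have hX0 : ∀ x ∈ X, x ≠ 0 := fun x hx e => hX.zero_notMem (e ▸ hx)
  have hloc : ∀ y ∉ D, ∀ᶠ z in 𝓝 y, pr (φ z z) = pr (φ y z) := by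
    intro y hy
    obtain ⟨h1, h2, h3⟩ := hφ y hy
    filter_upwards [hD.isOpen_compl.mem_nhds hy, h1.eventually_analyticAt, h2, h3.eventually_nhds] with z hz hz1 hz2 hz3
    obtain ⟨h4, h5, h6⟩ := hφ z hz
    exact pr_lim h4.continuousAt (hX0 _ h5.self_of_nhds.1) hz1.continuousAt (hX0 _ hz2.1) (hF.freq z) h6 hz3
  refine ⟨fun y => pr (φ y y), ⟨fun y hy => ?_, fun y e hye => ?_⟩, fun y hy h0 => (hφ y hy).2.2.self_of_nhds h0⟩
  · obtain ⟨h1, h2, h3⟩ := hφ y hy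
    refine ⟨φ y, h1, ?_⟩
    filter_upwards [h2, hloc y hy] with z hz1 hz2
    exact ⟨hz1.1, hz2, hz1.2⟩
  · obtain ⟨p, hp⟩ := hF.ne
    set w : Vd (k + 1) := p - y with hw
    set P : ℂ × ℂ → EN N := fun q => F (y + q.2 • e + q.1 • w) with hP
    have hPan : ∀ q, AnalyticAt ℂ P q := by
      intro q
      refine AnalyticAt.fun_comp (hF.an _) ?_
      exact (analyticAt_const.add (analyticAt_snd.smul analyticAt_const)).add (analyticAt_fst.smul analyticAt_const)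
    have hPne : ¬ ∀ᶠ q in 𝓝 (0 : ℂ × ℂ), P q = 0 := by
      intro h
      have h1 := AnalyticOnNhd.eqOn_zero_of_preconnected_of_eventuallyEq_zero (U := Set.univ) (fun z _ => hPan z) isPreconnected_univ
        (Set.mem_univ (0 : ℂ × ℂ)) h (Set.mem_univ ((1, 0) : ℂ × ℂ))
      have h2 : P (1, 0) = F p := by
        rw [hP]
        simp [hw]
      exact hp (h2 ▸ h1)
    obtain ⟨a, G, hG1, hG2, hG3⟩ := exists_div_vec (hPan 0) hPne
    have hG0 : AnalyticAt ℂ (fun z : ℂ => G (0, z)) 0 := by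
      refine AnalyticAt.fun_comp (g := G) (f := fun z : ℂ => ((0 : ℂ), z)) hG1 ?_
      exact AnalyticAt.prod analyticAt_const analyticAt_id
    obtain ⟨n, H, hH1, hH2, hH3⟩ := hG0.exists_eventuallyEq_pow_smul_nonzero_iff.mpr hG3
    have hHn : ∀ᶠ z in 𝓝 (0 : ℂ), H z ≠ 0 := hH1.continuousAt.eventually_ne hH2
    have hinj : Tendsto (fun z : ℂ => ((0 : ℂ), z)) (𝓝 0) (𝓝 (0 : ℂ × ℂ)) := by
      have : Continuous (fun z : ℂ => ((0 : ℂ), z)) := by fun_prop
      exact this.tendsto 0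
    have hkey : ∀ᶠ z in 𝓝[≠] (0 : ℂ), pr (φ (y + z • e) (y + z • e)) = pr (H z) ∧ y + z • e ∉ D ∧ H z ≠ 0 := by
      have hev1 : ∀ᶠ z in 𝓝 (0 : ℂ), AnalyticAt ℂ G (0, z) ∧ ∀ᶠ q in 𝓝 ((0, z) : ℂ × ℂ), P q = q.1 ^ a • G q :=
        hinj.eventually (hG1.eventually_analyticAt.and hG2.eventually_nhds)
      filter_upwards [hye, hev1.filter_mono nhdsWithin_le_nhds, hH3.filter_mono nhdsWithin_le_nhds, hHn.filter_mono nhdsWithin_le_nhds,
        self_mem_nhdsWithin] with z hz1 hz2 hz3 hz4 hz5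
      refine ⟨?_, hz1, hz4⟩
      have hz5 : z ≠ 0 := hz5
      rw [sub_zero] at hz3
      have hzn : z ^ n ≠ 0 := pow_ne_zero _ hz5
      have hGne : G (0, z) ≠ 0 := by
        rw [hz3]
        exact smul_ne_zero hzn hz4
      have hpr : pr (H z) = pr (G (0, z)) := by
        rw [hz3, pr_smul _ hzn]
      rw [hpr]
      obtain ⟨h4, h5, h6⟩ := hφ _ hz1
      -- the two curves in `c`
      have hc1 : ContinuousAt (fun c : ℂ => y + z • e + c • w) 0 := by fun_prop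
      have e0 : y + z • e + (0 : ℂ) • w = y + z • e := by simp
      have hA : ContinuousAt (fun c : ℂ => φ (y + z • e) (y + z • e + c • w)) 0 := by
        have h7 : ContinuousAt (φ (y + z • e)) (y + z • e + (0 : ℂ) • w) := by
          rw [e0]
          exact h4.continuousAt
        exact ContinuousAt.comp (f := fun c : ℂ => y + z • e + c • w) h7 hc1
      have hc2 : ContinuousAt (fun c : ℂ => ((c, z) : ℂ × ℂ)) 0 := by fun_prop
      have hB : ContinuousAt (fun c : ℂ => G (c, z)) 0 := ContinuousAt.comp (f := fun c : ℂ => ((c, z) : ℂ × ℂ)) hz2.1.continuousAt hc2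
      have hBn : ∀ᶠ c in 𝓝 (0 : ℂ), G (c, z) ≠ 0 := hB.eventually_ne hGne
      have hPG : ∀ᶠ c in 𝓝 (0 : ℂ), P (c, z) = c ^ a • G (c, z) := hc2.eventually hz2.2
      have hF6 : ∀ᶠ c in 𝓝 (0 : ℂ), F (y + z • e + c • w) ≠ 0 → pr (φ (y + z • e) (y + z • e + c • w)) = pr (F (y + z • e + c • w)) := by
        refine hc1.tendsto.eventually (p := fun x => F x ≠ 0 → pr (φ (y + z • e) x) = pr (F x)) ?_
        rw [e0]
        exact h6
      have hfin := pr_lim (F := fun c : ℂ => c • G (c, z)) (φ := fun c : ℂ => φ (y + z • e) (y + z • e + c • w)) (ψ := fun c : ℂ => G (c, z)) hA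
        (by
          show φ (y + z • e) (y + z • e + (0 : ℂ) • w) ≠ 0
          rw [e0]
          exact hX0 _ h5.self_of_nhds.1) hB hGne
        (by
          have hfr : ∃ᶠ c in 𝓝 (0 : ℂ), c ≠ 0 := by
            have hd : Dense ({0}ᶜ : Set ℂ) := dense_compl_singleton 0
            exact mem_closure_iff_frequently.mp (hd 0)
          exact (hfr.and_eventually hBn).mono fun c hc => smul_ne_zero hc.1 hc.2)
        (by
          filter_upwards [hPG, hF6] with c hc1 hc2 hc3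
          have hc0 : c ≠ 0 := fun h => hc3 (by simp [h])
          have hcG : G (c, z) ≠ 0 := fun h => hc3 (by simp [h])
          have hca : c ^ a ≠ 0 := pow_ne_zero _ hc0
          have hFP : F (y + z • e + c • w) = c ^ a • G (c, z) := hc1
          have hF0 : F (y + z • e + c • w) ≠ 0 := by
            rw [hFP]
            exact smul_ne_zero hca hcG
          rw [hc2 hF0, hFP, pr_smul _ hca, pr_smul _ hc0])
        (by
          filter_upwards [] with c hc3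
          have hc0 : c ≠ 0 := fun h => hc3 (by simp [h])
          rw [pr_smul _ hc0])
      simp only [e0] at hfin
      exact hfin
    refine ⟨fun z => pr (H z), ⟨H, hH1, ?_⟩, hkey.mono fun z hz => hz.1.symm⟩
    have hgood : ∀ᶠ z in 𝓝[≠] (0 : ℂ), H z ∈ X ∧ u (H z) - (y + z • e) ∈ Λ := by
      filter_upwards [hkey] with z hz
      obtain ⟨hz1, hz2, hz3⟩ := hz
      obtain ⟨h4, h5, h6⟩ := hφ _ hz2
      have h7 := h5.self_of_nhds
      exact mem_of_pr hX ht h7.1 h7.2 hz3 hz1.symm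
    have h0 : H 0 ∈ X ∧ u (H 0) - (y + (0 : ℂ) • e) ∈ Λ := by
      refine close_lift (υ := fun z : ℂ => y + z • e) hX ht hl hH1.continuousAt hH2 (by fun_prop) ?_
      exact hgood.frequently.filter_mono nhdsWithin_le_nhds
    rw [eventually_nhdsWithin_iff] at hgood
    filter_upwards [hgood] with z hz
    by_cases hz0 : z = 0
    · subst hz0
      exact ⟨h0.1, rfl, h0.2⟩
    · have := hz hz0
      exact ⟨this.1, rfl, this.2⟩

end Pool.Agent.TG

end

section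

/-!
# TG SmE: finiteness and periodicity of the meromorphic sections

If `Sec` is finite modulo equality off `D`, the meromorphic sections are finite modulo `SameMap` and `M Λ`-periodic for some `M ≥ 1`.
-/

set_option autoImplicit false

open Topology Filter Metric

namespace Pool.Agent.TG

open Pool.Agent.H36.BP (EN fs wd)
open Pool.Agent.H14.PP (IsCone)
open Pool.Agent.H62.EF (MN pr pr_smul pr_eq_iff continuousAt_pr isCompact_pr nm_close)
open Pool.Agent.AD (Vd)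

variable {N k : ℕ} {X : Set (EN N)} {Λ : AddSubgroup (Vd (k + 1))} {u : EN N → Vd (k + 1)} {D : Set (Vd (k + 1))}

theorem freq_freq {E : Type*} [TopologicalSpace E] {y : E} {R : E → Prop} (h : ∃ᶠ z in 𝓝 y, ∃ᶠ w in 𝓝 z, R w) : ∃ᶠ w in 𝓝 y, R w := by
  intro hc
  refine h (hc.eventually_nhds.mono fun z hz hz' => hz' hz)

theorem eq_zero_of_freq {E : Type*} [TopologicalSpace E] {f : E → ℂ} {y : E} (hf : ContinuousAt f y) (h : ∃ᶠ z in 𝓝 y, f z = 0) : f y = 0 := by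
  have hm : f y ∈ closure ({0} : Set ℂ) := by
    rw [mem_closure_iff_frequently]
    exact hf.tendsto.frequently h
  rwa [closure_singleton, Set.mem_singleton_iff] at hm

theorem SameMap.refl (F : Vd (k + 1) → EN N) : SameMap F F := fun _ _ _ => mul_comm _ _

theorem SameMap.symm {F G : Vd (k + 1) → EN N} (h : SameMap F G) : SameMap G F := by
  intro y i j
  have := h y i j
  rw [mul_comm (F y i), mul_comm (F y j)] at this
  rw [this]

/-- proportional vectors -/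
theorem cross_iff {x y : EN N} (hx : x ≠ 0) (hy : y ≠ 0) : (∀ i j, x i * y j = x j * y i) ↔ pr x = pr y := by
  rw [pr_eq_iff hx hy]
  constructor
  · intro h
    obtain ⟨j, hj⟩ : ∃ j, y j ≠ 0 := by
      by_contra hcon
      push Not at hcon
      exact hy (by ext i; exact hcon i)
    have h1 : x = (x j / y j) • y := by
      ext i
      have := h i j
      rw [PiLp.smul_apply, smul_eq_mul, div_mul_eq_mul_div, eq_div_iff hj]
      exact this
    refine ⟨x j / y j, fun h0 => hx ?_, h1⟩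
    rw [h1, h0, zero_smul]
  · rintro ⟨c, -, rfl⟩ i j
    simp only [PiLp.smul_apply, smul_eq_mul]
    ring

theorem sameMap_of_freq {F G : Vd (k + 1) → EN N} (hF : ∀ y, AnalyticAt ℂ F y) (hG : ∀ y, AnalyticAt ℂ G y)
    (h : ∀ y, ∃ᶠ z in 𝓝 y, ∀ i j, F z i * G z j = F z j * G z i) : SameMap F G := by
  intro y i j
  have hc : ContinuousAt (fun z => F z i * G z j - F z j * G z i) y :=
    (((coord_an (hF y) i).continuousAt).mul ((coord_an (hG y) j).continuousAt)).sub (((coord_an (hF y) j).continuousAt).mul ((coord_an (hG y) i).continuousAt))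
  have := eq_zero_of_freq hc ((h y).mono fun z hz => by rw [hz i j, sub_self])
  exact sub_eq_zero.mp this

theorem SameMap.trans {F G H : Vd (k + 1) → EN N} (hF : Mer X Λ u F) (hG : Mer X Λ u G) (hH : Mer X Λ u H) (h1 : SameMap F G) (h2 : SameMap G H) :
    SameMap F H := by
  refine sameMap_of_freq hF.an hH.an fun y => ?_
  have hfr : ∃ᶠ z in 𝓝 y, F z ≠ 0 ∧ G z ≠ 0 ∧ H z ≠ 0 := by
    refine freq_freq ((hF.freq y).mono fun z hz => ?_)
    have hz' := (hF.an z).continuousAt.eventually_ne hz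
    refine freq_freq (((hG.freq z).and_eventually hz'.eventually_nhds).mono fun w hw => ?_)
    have hw' := (hG.an w).continuousAt.eventually_ne hw.1
    exact ((hH.freq w).and_eventually (hw'.and hw.2)).mono fun v hv => ⟨hv.2.2, hv.2.1, hv.1⟩
  refine hfr.mono fun z hz => ?_
  obtain ⟨hf, hg, hh⟩ := hz
  rw [cross_iff hf hh]
  rw [(cross_iff hf hg).mp (h1 z), (cross_iff hg hh).mp (h2 z)]

theorem SameMap.shift {F G : Vd (k + 1) → EN N} (h : SameMap F G) (l : Vd (k + 1)) : SameMap (fun y => F (y + l)) (fun y => G (y + l)) :=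
  fun y => h (y + l)

theorem Mer.shift {F : Vd (k + 1) → EN N} (hF : Mer X Λ u F) {l : Vd (k + 1)} (hl : l ∈ Λ) : Mer X Λ u fun y => F (y + l) where
  an := fun y => by
    refine AnalyticAt.fun_comp (hF.an _) ?_
    exact analyticAt_id.add analyticAt_const
  ne := by
    obtain ⟨y, hy⟩ := hF.ne
    exact ⟨y - l, by rwa [sub_add_cancel]⟩
  mem := fun y hy => by
    obtain ⟨h1, h2⟩ := hF.mem _ hy
    refine ⟨h1, ?_⟩
    have e : u (F (y + l)) - y = (u (F (y + l)) - (y + l)) + l := by abel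
    rw [e]
    exact Λ.add_mem h2 hl

/-- `Sec` is finite modulo equality off `D` -/
def FinSec (X : Set (EN N)) (Λ : AddSubgroup (Vd (k + 1))) (u : EN N → Vd (k + 1)) (D : Set (Vd (k + 1))) : Prop :=
  ∃ T : Set (Vd (k + 1) → MN N), T.Finite ∧ ∀ f ∈ Sec X Λ u D, ∃ g ∈ T, ∀ y ∉ D, f y = g y

/-- `D` contains no ball -/
def DThin (D : Set (Vd (k + 1))) : Prop :=
  ∀ y : Vd (k + 1), ∃ h : Vd (k + 1) → ℂ, AnalyticAt ℂ h y ∧ (∀ᶠ z in 𝓝 y, z ∈ D → h z = 0) ∧ ¬ ∀ᶠ z in 𝓝 y, h z = 0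

theorem DThin.freq (h : DThin D) (y : Vd (k + 1)) : ∃ᶠ z in 𝓝 y, z ∉ D := by
  obtain ⟨h, h1, h2, h3⟩ := h y
  exact ((Filter.not_eventually.mp h3).and_eventually h2).mono fun z hz hzD => hz.1 (hz.2 hzD)

theorem same_of_sec (hDc : IsClosed D) (hD : DThin D) {F G : Vd (k + 1) → EN N} (hF : Mer X Λ u F) (hG : Mer X Λ u G) {f g : Vd (k + 1) → MN N}
    (hf : ∀ y ∉ D, F y ≠ 0 → f y = pr (F y)) (hg : ∀ y ∉ D, G y ≠ 0 → g y = pr (G y)) (hfg : ∀ y ∉ D, f y = g y) : SameMap F G := by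
  refine sameMap_of_freq hF.an hG.an fun y => ?_
  have hfr : ∃ᶠ z in 𝓝 y, z ∉ D ∧ F z ≠ 0 ∧ G z ≠ 0 := by
    refine freq_freq ((hD.freq y).mono fun z hz => ?_)
    have hz' : ∀ᶠ w in 𝓝 z, w ∉ D := hDc.isOpen_compl.mem_nhds hz
    refine freq_freq (((hF.freq z).and_eventually hz'.eventually_nhds).mono fun w hw => ?_)
    have hw' := (hF.an w).continuousAt.eventually_ne hw.1
    exact ((hG.freq w).and_eventually (hw'.and hw.2)).mono fun v hv => ⟨hv.2.2, hv.2.1, hv.1⟩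
  refine hfr.mono fun z hz => ?_
  obtain ⟨h1, h2, h3⟩ := hz
  rw [cross_iff h2 h3, ← hf z h1 h2, ← hg z h1 h3]
  exact hfg z h1

/-- the meromorphic sections are finite in number -/
theorem mer_finite (hX : IsCone X) (ht : TMap X Λ u) (hl : Lat Λ) (hDc : IsClosed D) (hD : DThin D) (hlip : ∀ y ∉ D, CLip X Λ u y)
    (hfin : FinSec X Λ u D) :
    ∃ T : Set (Vd (k + 1) → EN N), T.Finite ∧ (∀ F ∈ T, Mer X Λ u F) ∧ ∀ F, Mer X Λ u F → ∃ G ∈ T, SameMap F G := by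
  classical
  obtain ⟨T₀, hT₀, hT₀s⟩ := hfin
  let P : (Vd (k + 1) → MN N) → (Vd (k + 1) → EN N) → Prop := fun g F => Mer X Λ u F ∧ ∃ f : Vd (k + 1) → MN N,
    (∀ y ∉ D, F y ≠ 0 → f y = pr (F y)) ∧ ∀ y ∉ D, f y = g y
  have hch : ∀ g : Vd (k + 1) → MN N, ∃ F : Vd (k + 1) → EN N, (∃ F, P g F) → P g F := by
    intro g
    by_cases h : ∃ F, P g F
    · obtain ⟨F, hF⟩ := h
      exact ⟨F, fun _ => hF⟩
    · exact ⟨fun _ => 0, fun h' => absurd h' h⟩
  choose c hc using hch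
  refine ⟨c '' {g | g ∈ T₀ ∧ ∃ F, P g F}, (hT₀.subset fun g hg => hg.1).image c, ?_, fun F hF => ?_⟩
  · rintro _ ⟨g, ⟨-, hg⟩, rfl⟩
    exact (hc g hg).1
  · obtain ⟨f, hf, hfF⟩ := mer_sec hX ht hl hDc hlip hF
    obtain ⟨g, hg, hfg⟩ := hT₀s f hf
    have hPg : ∃ F, P g F := ⟨F, hF, f, hfF, hfg⟩
    obtain ⟨h1, f', h2, h3⟩ := hc g hPg
    refine ⟨c g, ⟨g, ⟨hg, hPg⟩, rfl⟩, ?_⟩
    exact same_of_sec hDc hD hF h1 hfF h2 fun y hy => (hfg y hy).trans (h3 y hy).symm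

/-- the meromorphic sections are periodic -/
theorem mer_periodic {T : Set (Vd (k + 1) → EN N)} (hT : T.Finite) (hTm : ∀ F ∈ T, Mer X Λ u F) (hTs : ∀ F, Mer X Λ u F → ∃ G ∈ T, SameMap F G) :
    ∃ M : ℕ, 0 < M ∧ ∀ F, Mer X Λ u F → ∀ l ∈ Λ, SameMap F fun y => F (y + M • l) := by
  classical
  refine ⟨(hT.toFinset.card).factorial, Nat.factorial_pos _, fun F hF l hl => ?_⟩
  have hml : ∀ n : ℕ, n • l ∈ Λ := fun n => Λ.nsmul_mem hl n
  have hmer : ∀ n : ℕ, Mer X Λ u fun y => F (y + n • l) := fun n => hF.shift (hml n)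
  choose G hG1 hG2 using fun n : ℕ => hTs _ (hmer n)
  obtain ⟨a, ha, b, hb, hab, hGab⟩ : ∃ a ∈ Finset.range (hT.toFinset.card + 1), ∃ b ∈ Finset.range (hT.toFinset.card + 1), a ≠ b ∧ G a = G b := by
    refine Finset.exists_ne_map_eq_of_card_lt_of_maps_to (t := hT.toFinset) ?_ ?_
    · rw [Finset.card_range]
      exact Nat.lt_succ_self _
    · intro n _
      simpa using hG1 n
  rw [Finset.mem_range] at ha hb
  have key : ∃ d : ℕ, 0 < d ∧ d ≤ hT.toFinset.card ∧ SameMap F fun y => F (y + d • l) := by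
    have hgen : ∀ a b : ℕ, a < b → b < hT.toFinset.card + 1 → G a = G b →
        ∃ d : ℕ, 0 < d ∧ d ≤ hT.toFinset.card ∧ SameMap F fun y => F (y + d • l) := by
      intro a b hab hb he
      refine ⟨b - a, by omega, by omega, ?_⟩
      have h1 : SameMap (fun y => F (y + a • l)) (fun y => F (y + b • l)) :=
        SameMap.trans (hmer a) (hTm _ (hG1 a)) (hmer b) (hG2 a) (by rw [he]; exact (hG2 b).symm)
      have h2 := h1.shift (-(a • l))
      have e1 : (fun y => F (y + -(a • l) + a • l)) = F := by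
        funext y
        congr 1
        abel
      have e2 : (fun y => F (y + -(a • l) + b • l)) = fun y => F (y + (b - a) • l) := by
        funext y
        congr 1
        have e3 : b • l = (b - a) • l + a • l := by
          rw [← add_nsmul, Nat.sub_add_cancel hab.le]
        rw [e3]
        abel
      rw [e1, e2] at h2
      exact h2
    rcases lt_or_gt_of_ne hab with h | h
    · exact hgen a b h hb hGab
    · exact hgen b a h ha hGab.symm
  obtain ⟨d, hd0, hdn, hd⟩ := key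
  have hq : ∀ q : ℕ, SameMap F fun y => F (y + (q * d) • l) := by
    intro q
    induction q with
    | zero =>
      have : (fun y => F (y + (0 * d) • l)) = F := by
        funext y
        simp
      rw [this]
      exact SameMap.refl F
    | succ q ih =>
      have h1 := ih.shift (d • l)
      have e1 : (fun y => F (y + d • l + (q * d) • l)) = fun y => F (y + ((q + 1) * d) • l) := by
        funext y
        congr 1
        rw [add_assoc, ← add_nsmul]
        congr 2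
        ring
      rw [e1] at h1
      exact SameMap.trans hF (hmer d) (hmer _) hd h1
  obtain ⟨q, hq'⟩ := Nat.dvd_factorial hd0 hdn
  have := hq q
  rw [mul_comm q d, ← hq'] at this
  exact this

end Pool.Agent.TG

end
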