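import Pool.Agent.H94.G4T.M100
import Pool.Agent.H94.G4T.M104
import Pool.Agent.H94.G4T.M105
import Pool.Agent.H94.G4T.M110
import Pool.Agent.H94.G4T.M111
import Pool.Agent.H94.G4T.M112
import Pool.Agent.H94.G4T.M56
import Pool.Agent.H94.G4T.M81
import Pool.Agent.H94.G4T.M89

/-! The parts of this file: G4.C.Near, TG.XPd, TG.Core. -/

section

/-!
# G4 C Near: in every open set of a slice there is a point where the family extends to complex parameters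

`near_EAt` as in `G3/C/Leaf`, for one slice (`SDat`), if the jet form vanishes on the family (`PZs`) and the point is not over `Nν`.
-/

set_option autoImplicit false

open Topology Filter Metric

namespace Pool.Agent.G4.C

open Pool.Agent.H36.BP (EN fs wd)
open Pool.Agent.H14.PP (IsCone)
open Pool.Agent.H62.EF (MN pr)
open Pool.Agent.AD (Vd Chart Charts)
open Pool.Agent.TG (TMap Lat Str ms tl)
open Pool.Agent.G3.C

variable {N k : ℕ} {X : Set (EN N)} {Λ : AddSubgroup (Vd (k + 1))} {u : EN N → Vd (k + 1)} {ν a b c : Vd (k + 1)} {m : ℕ} {ρ : ℝ}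
  {Dt Bd : Set (ℂ × ℂ)} {Φ : ℝ → ℂ → MN N} {Nν : Set (Vd (k + 1))}

/-- the jet form vanishes on the family -/
def PZs (P : JForm X Λ u ν m) (a b : Vd (k + 1)) (Dt : Set (ℂ × ℂ)) (Φ : ℝ → ℂ → MN N) : Prop :=
  ∀ (s : ℝ) (z : ℂ), ((s : ℂ), z) ∉ Dt → ∀ x : EN N, x ≠ 0 → Φ s z = pr x → pval P a b Φ s z x = 0

private theorem Near_QF (D : SDat X Λ u a ν b Dt Bd Φ) {P : JForm X Λ u ν m} (hZ : PZs P a b Dt Φ) {χ : Chart (k + 2) X} {ρ' : ℝ}
    {w : ℕ → ℝ → ℂ → ℂ} {s : ℝ} {z : ℂ} {r : ℝ} (B : Box X Λ u a ν b Φ χ c ρ' w s z r) (h : ((s : ℂ), z) ∉ Dt) : QF P b a χ c ρ' (Jt m w s z) = 0 := by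
  have hs : s ∈ Set.Ioo (s - r) (s + r) := ⟨by linarith [B.pos], by linarith [B.pos]⟩
  have hz : z ∈ ball z r := mem_ball_self B.pos
  have h1 := pval_eq D.cone B P (x := χ.σ (cz b ν a c ρ' (w 0 s z) s z)) (α := 1) (one_smul _ _).symm one_ne_zero
  rw [mul_one] at h1
  rw [← h1]
  exact hZ s z h _ (fun h0 => D.cone.zero_notMem (h0 ▸ (χ.σ_mem _ (B.mem s hs z hz)).1)) (B.eq s hs z hz)

/-- no point over `D` in a small ball with a good centre -/
private theorem Leaf_good (D : SDat X Λ u a ν b Dt Bd Φ) {p : ℂ × ℂ} (hp : p ∉ Dt) : ∃ r : ℝ, 0 < r ∧ ∀ q ∈ ball p r, q ∉ Dt := by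
  obtain ⟨r, hr, h⟩ := Metric.isOpen_iff.1 D.dt_closed.isOpen_compl p hp
  exact ⟨r, hr, fun q hq => h hq⟩

private theorem Leaf_ball {s s₀ r : ℝ} {z z₀ : ℂ} (hr : 0 < r) (hs : |s - s₀| < r) (hz : dist z z₀ < r) :
    ((s : ℂ), z) ∈ ball ((s₀ : ℂ), z₀) r := by
  rw [mem_ball, Prod.dist_eq]
  refine max_lt ?_ hz
  rwa [dist_eq_norm, ← Complex.ofReal_sub, Complex.norm_real, Real.norm_eq_abs]

private theorem Leaf_cz {ρ' : ℝ} {W : ℂ × ℂ → ℂ} {p : ℂ × ℂ} (hW : DifferentiableAt ℂ W p) :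
    DifferentiableAt ℂ (fun p : ℂ × ℂ => cz b ν a c ρ' (W p) p.1 p.2) p := by
  rw [differentiableAt_pi]
  intro i
  refine Fin.cases ?_ (fun j => ?_) i
  · simpa [cz] using hW
  · have h1 : DifferentiableAt ℂ (fun p : ℂ × ℂ => (ρ' : ℂ)⁻¹ * (b j + p.1 * ν j + p.2 * a j - c j)) p := by
      fun_prop
    simpa [cz, tz] using h1

theorem near_EAt (D : SDat X Λ u a ν b Dt Bd Φ) {P : JForm X Λ u ν m} (hP : ThP P a Nν) (hZ : PZs P a b Dt Φ) {s₀ : ℝ} {z₀ : ℂ}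
    (h : ((s₀ : ℂ), z₀) ∉ Dt) (hN : b + (s₀ : ℂ) • ν + z₀ • a ∉ Nν) {δ : ℝ} (hδ : 0 < δ) : ∃ (s₁ : ℝ) (z₁ : ℂ) (ε : ℝ), |s₁ - s₀| < δ ∧ ‖z₁ - z₀‖ < δ ∧ 0 < ε ∧ EAt Φ s₁ z₁ ε := by
  obtain ⟨χ, c, ρ', w, r, B⟩ := D.smo s₀ z₀ h
  obtain ⟨r₀, hr₀, hgood⟩ := Leaf_good D h
  obtain ⟨r', hr'⟩ : ∃ r' : ℝ, r' = min (min r δ) r₀ := ⟨_, rfl⟩
  have hr'0 : 0 < r' := by
    rw [hr']
    exact lt_min (lt_min B.pos hδ) hr₀
  have hr'r : r' ≤ r := by
    rw [hr']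
    exact (min_le_left _ _).trans (min_le_left _ _)
  have hr'δ : r' ≤ δ := by
    rw [hr']
    exact (min_le_left _ _).trans (min_le_right _ _)
  have hr'r₀ : r' ≤ r₀ := by
    rw [hr']
    exact min_le_right _ _
  have hI : ∀ s ∈ Set.Ioo (s₀ - r') (s₀ + r'), s ∈ Set.Ioo (s₀ - r) (s₀ + r) := fun s hs =>
    ⟨by linarith [hs.1], by linarith [hs.2]⟩
  have hD : ball z₀ r' ⊆ ball z₀ r := ball_subset_ball hr'r
  have hJ : JetFam w (Set.Ioo (s₀ - r') (s₀ + r')) (ball z₀ r') :=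
    ⟨fun j s hs z hz => B.jet.der j s (hI s hs) z (hD hz),
      fun j => (B.jet.cont j).mono (Set.prod_mono (fun s hs => hI s hs) hD),
      fun j s hs => (B.jet.hol j s (hI s hs)).mono hD⟩
  have hnot : ∀ s ∈ Set.Ioo (s₀ - r') (s₀ + r'), ∀ z ∈ ball z₀ r', ((s : ℂ), z) ∉ Dt := by
    intro s hs z hz
    apply hgood
    refine ball_subset_ball hr'r₀ (Leaf_ball hr'0 ?_ (mem_ball.1 hz))
    rw [abs_lt]
    exact ⟨by linarith [hs.1], by linarith [hs.2]⟩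
  obtain ⟨s₁, hs₁, z₁, hz₁, hE⟩ := gen_analytic m (O := OD b ν a c ρ' m) OD_open OD_convex OD_dep (Q := QF P b a χ c ρ')
    (QF_analytic P B.str) (QF_ne D.cone D.tor D.lat hP B.str (B.mem s₀ ⟨by linarith [B.pos], by linarith [B.pos]⟩ z₀ (mem_ball_self B.pos)) hN) (w := w) (I := Set.Ioo (s₀ - r') (s₀ + r')) (D := ball z₀ r')
    isOpen_Ioo isOpen_ball ⟨s₀, by linarith, by linarith⟩ ⟨z₀, mem_ball_self hr'0⟩ hJ
    (fun s hs z hz => B.mem s (hI s hs) z (hD hz))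
    (fun s hs z hz => by
      obtain ⟨r'', B'⟩ := B.move (hI s hs) (hD hz)
      exact Near_QF D hZ B' (hnot s hs z hz))
  obtain ⟨ε, W, hε, hW, hsI, hzD, hWw⟩ := Ext.joint hJ hE
  have hself : ((s₁ : ℂ), z₁) ∈ ball ((s₁ : ℂ), z₁) ε := mem_ball_self hε
  have hWat : ∀ p ∈ ball ((s₁ : ℂ), z₁) ε, DifferentiableAt ℂ W p := fun p hp => hW.differentiableAt (isOpen_ball.mem_nhds hp)
  have hcz : ∀ p ∈ ball ((s₁ : ℂ), z₁) ε, DifferentiableAt ℂ (fun p : ℂ × ℂ => cz b ν a c ρ' (W p) p.1 p.2) p := fun p hp =>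
    Leaf_cz (hWat p hp)
  have hm : cz b ν a c ρ' (W ((s₁ : ℂ), z₁)) (s₁ : ℂ) z₁ ∈ ball (0 : Vd (k + 2)) 2 := by
    rw [hWw s₁ z₁ hself]
    exact B.mem s₁ (hI s₁ hs₁) z₁ (hD hz₁)
  have hev : ∀ᶠ p in 𝓝 ((s₁ : ℂ), z₁), cz b ν a c ρ' (W p) p.1 p.2 ∈ ball (0 : Vd (k + 2)) 2 :=
    (hcz _ hself).continuousAt.eventually_mem (isOpen_ball.mem_nhds hm)
  obtain ⟨ε₁, hε₁, hin⟩ := Metric.eventually_nhds_iff_ball.mp hev
  refine ⟨s₁, z₁, min ε ε₁, ?_, ?_, lt_min hε hε₁, fun p => χ.σ (cz b ν a c ρ' (W p) p.1 p.2), ?_, ?_, ?_⟩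
  · rw [abs_lt]
    exact ⟨by linarith [hs₁.1], by linarith [hs₁.2]⟩
  · rw [← dist_eq_norm]
    exact lt_of_lt_of_le (mem_ball.1 hz₁) hr'δ
  · intro p hp
    have h1 := χ.σ_an _ (hin p (ball_subset_ball (min_le_right _ _) hp))
    exact (h1.differentiableAt.comp p (hcz p (ball_subset_ball (min_le_left _ _) hp))).differentiableWithinAt
  · intro p hp h0
    have h1 := (χ.σ_mem _ (hin p (ball_subset_ball (min_le_right _ _) hp))).1
    have h0' : χ.σ (cz b ν a c ρ' (W p) p.1 p.2) = 0 := h0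
    rw [h0'] at h1
    exact D.cone.zero_notMem h1
  · intro s z hp
    have hp' := ball_subset_ball (min_le_left ε ε₁) hp
    have h1 : s ∈ Set.Ioo (s₀ - r') (s₀ + r') := by
      apply hsI
      rw [mem_ball, Prod.dist_eq] at hp'
      have h2 := (le_max_left _ _).trans_lt hp'
      simp only at h2
      rwa [dist_eq_norm, ← Complex.ofReal_sub, Complex.norm_real, Real.norm_eq_abs] at h2
    have h2 : z ∈ ball z₀ r' := by
      apply hzD
      rw [mem_ball, Prod.dist_eq] at hp'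
      exact (le_max_right _ _).trans_lt hp'
    rw [B.eq s (hI s h1) z (hD h2)]
    simp only
    rw [hWw s z hp']

end Pool.Agent.G4.C

end

section

/-!
# TG XPd: the pairs of members of `Sb` satisfy the hypotheses of the extension theorem
-/

set_option autoImplicit false

open Topology Filter Metric MeasureTheory

namespace Pool.Agent.TG

open Pool.Agent.H36.BP (EN fs wd)
open Pool.Agent.H14.PP (IsCone CurveAt Tan)
open Pool.Agent.H62.EF (MN pr)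
open Pool.Agent.AD (Vd Chart Charts IsGerm)

theorem circle_lim {r C : ℝ} {F : ℕ → ℂ → ℂ} {f : ℂ → ℂ} (hr : 0 ≤ r) (hF : ∀ n, ContinuousOn (F n) (sphere (0 : ℂ) r))
    (hC : ∀ n, ∀ z ∈ sphere (0 : ℂ) r, ‖F n z‖ ≤ C) (hl : ∀ z ∈ sphere (0 : ℂ) r, Tendsto (fun n => F n z) atTop (𝓝 (f z)))
    (h0 : ∀ n, (∮ z in C(0, r), F n z) = 0) : (∮ z in C(0, r), f z) = 0 := by
  have hmem : ∀ θ : ℝ, circleMap (0 : ℂ) r θ ∈ sphere (0 : ℂ) r := fun θ => circleMap_mem_sphere _ hr θ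
  have h1 : Tendsto (fun n => ∮ z in C(0, r), F n z) atTop (𝓝 (∮ z in C(0, r), f z)) := by
    unfold circleIntegral
    refine intervalIntegral.tendsto_integral_filter_of_dominated_convergence (fun _ => |r| * C) ?_ ?_ ?_ ?_
    · refine Eventually.of_forall fun n => ?_
      have hcont : Continuous fun θ : ℝ => deriv (circleMap (0 : ℂ) r) θ • F n (circleMap 0 r θ) := by
        have h2 : Continuous fun θ : ℝ => F n (circleMap 0 r θ) := (hF n).comp_continuous (continuous_circleMap 0 r) hmem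
        have h3 : Continuous fun θ : ℝ => deriv (circleMap (0 : ℂ) r) θ := by
          simp only [deriv_circleMap]
          exact (continuous_circleMap 0 r).mul continuous_const
        exact h3.smul h2
      exact hcont.aestronglyMeasurable
    · refine Eventually.of_forall fun n => Eventually.of_forall fun θ _ => ?_
      rw [norm_smul]
      have h3 : ‖deriv (circleMap (0 : ℂ) r) θ‖ = |r| := by
        simp only [deriv_circleMap, norm_mul, norm_circleMap_zero, Complex.norm_I, mul_one]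
      rw [h3]
      exact mul_le_mul_of_nonneg_left (hC n _ (hmem θ)) (abs_nonneg _)
    · exact intervalIntegrable_const
    · exact Eventually.of_forall fun θ _ => (hl _ (hmem θ)).const_smul _
  have h2 : Tendsto (fun n => ∮ z in C(0, r), F n z) atTop (𝓝 0) := by
    simp only [h0]
    exact tendsto_const_nhds
  exact tendsto_nhds_unique h1 h2

variable {N k : ℕ} {X : Set (EN N)} {Λ : AddSubgroup (Vd (k + 1))} {u : EN N → Vd (k + 1)} {D B : Set (Vd (k + 1))}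

theorem sb_cont (G : Geo X Λ u D B) {f : Vd (k + 1) → MN N} (hf : f ∈ Sb X Λ u D) {y : Vd (k + 1)} (hy : y ∉ D) : ContinuousAt f y := by
  obtain ⟨δ, hδ, hyδ⟩ := G.exists_gd hy
  obtain ⟨L, hL, hl⟩ := sb_lip G hδ
  rw [Metric.continuousAt_iff]
  intro η hη
  refine ⟨min (δ / 2) (η / L), lt_min (half_pos hδ) (div_pos hη hL), fun w hw => ?_⟩
  have h1 := hl f hf y hyδ w (mem_closedBall.2 (hw.le.trans (min_le_left _ _)))
  rw [dist_comm]
  have h2 : ‖y - w‖ < η / L := by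
    rw [← dist_eq_norm, dist_comm]
    exact lt_of_lt_of_le hw (min_le_right _ _)
  calc dist (f y) (f w) ≤ L * ‖y - w‖ := h1
    _ < L * (η / L) := mul_lt_mul_of_pos_left h2 hL
    _ = η := mul_div_cancel₀ _ hL.ne'

theorem sb_hol (G : Geo X Λ u D B) {δ ε ε₀ : ℝ} (hc : Cst X Λ u D δ ε ε₀) {α : VForm X Λ u} {f g : Vd (k + 1) → MN N}
    (hf : f ∈ Sb X Λ u D) (hg : g ∈ Sb X Λ u D) {d : ℝ} (hd : δ < d) {y₀ : Vd (k + 1)} (hy₀ : y₀ ∈ Gd D d) (hcl : dist (f y₀) (g y₀) < ε₀) :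
    AnalyticAt ℂ (fun y => JJ α y (f y) (g y)) y₀ := by
  have hyD : y₀ ∉ D := gd_notMem (hc.δ_pos.trans hd) hy₀
  have e1 : ∀ᶠ y in 𝓝 y₀, y ∈ Gd D δ := by
    filter_upwards [Metric.ball_mem_nhds y₀ (sub_pos.2 hd)] with y hy
    have h1 := gd_near hy₀ (r := d - δ) (w := y) (by rw [← dist_eq_norm]; exact (mem_ball.1 hy).le)
    rwa [sub_sub_cancel] at h1
  have e2 : ∀ᶠ y in 𝓝 y₀, dist (f y) (g y) < ε₀ :=
    ((sb_cont G hf hyD).dist (sb_cont G hg hyD)).eventually (gt_mem_nhds hcl)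
  have e3 : ∀ᶠ y in 𝓝 y₀, y ∈ Gd D δ ∧ f y ∈ Fb X Λ u y ∧ g y ∈ Fb X Λ u y ∧ dist (f y) (g y) ≤ ε₀ := by
    filter_upwards [e1, e2] with y h1 h2
    have hy := gd_notMem hc.δ_pos h1
    exact ⟨h1, sb_mem G hf hy, sb_mem G hg hy, h2.le⟩
  have e4 : ∀ᶠ y in 𝓝 y₀, II α ε y (f y) (g y) = JJ α y (f y) (g y) := by
    filter_upwards [e3] with y h
    exact (jj_eq_II G.cone G.tor G.lat hc h.1 h.2.1 h.2.2.1 h.2.2.2).symm
  have e5 : ∀ᶠ y in 𝓝 y₀, ∃ v, IRel α ε y (f y) (g y) v := by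
    filter_upwards [e3] with y h
    exact hc.rel y h.1 _ h.2.1 _ h.2.2.1 h.2.2.2 α
  exact (sb_II_analytic G hc hf hg (gd_mono hd.le hy₀) e5).congr e4

theorem annulus_closure {r₁ r₂ : ℝ} (hr₁ : 0 < r₁) (hr : r₁ < r₂) {z : ℂ} (h1 : r₁ ≤ ‖z‖) (h2 : ‖z‖ ≤ r₂) :
    z ∈ closure {w : ℂ | r₁ < ‖w‖ ∧ ‖w‖ < r₂} := by
  have hz : 0 < ‖z‖ := hr₁.trans_le h1
  set m : ℝ := (r₁ + r₂) / 2 with hm
  rw [mem_closure_iff_seq_limit]
  refine ⟨fun n => (((1 - 1 / ((n : ℝ) + 2)) + 1 / ((n : ℝ) + 2) * (m / ‖z‖) : ℝ) : ℂ) * z, fun n => ?_, ?_⟩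
  · have hn : (0 : ℝ) < 1 / ((n : ℝ) + 2) := by positivity
    have hn1 : 1 / ((n : ℝ) + 2) < 1 := by
      rw [div_lt_one (by positivity)]
      have : (0 : ℝ) ≤ n := Nat.cast_nonneg n
      linarith
    set t : ℝ := 1 / ((n : ℝ) + 2) with ht
    have hm0 : 0 < m := by rw [hm]; linarith
    have hnn : 0 ≤ (1 - t) + t * (m / ‖z‖) := by
      have : 0 ≤ t * (m / ‖z‖) := by positivity
      linarith
    have e : ‖((((1 - t) + t * (m / ‖z‖) : ℝ) : ℂ)) * z‖ = (1 - t) * ‖z‖ + t * m := by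
      rw [norm_mul, Complex.norm_real, Real.norm_of_nonneg hnn]
      field_simp
    show r₁ < ‖((((1 - t) + t * (m / ‖z‖) : ℝ) : ℂ)) * z‖ ∧ ‖((((1 - t) + t * (m / ‖z‖) : ℝ) : ℂ)) * z‖ < r₂
    rw [e]
    constructor
    · have a1 : (1 - t) * r₁ ≤ (1 - t) * ‖z‖ := mul_le_mul_of_nonneg_left h1 (by linarith)
      have a2 : t * r₁ < t * m := mul_lt_mul_of_pos_left (by rw [hm]; linarith) hn
      linarith
    · have a1 : (1 - t) * ‖z‖ ≤ (1 - t) * r₂ := mul_le_mul_of_nonneg_left h2 (by linarith)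
      have a2 : t * m < t * r₂ := mul_lt_mul_of_pos_left (by rw [hm]; linarith) hn
      linarith
  · have h3 : Tendsto (fun n : ℕ => 1 / ((n : ℝ) + 2)) atTop (𝓝 0) := by
      have h4 : Tendsto (fun n : ℕ => (n : ℝ) + 2) atTop atTop := tendsto_atTop_add_const_right _ _ tendsto_natCast_atTop_atTop
      exact h4.inv_tendsto_atTop.congr fun n => by rw [Pi.inv_apply, one_div]
    have h5 : Tendsto (fun n : ℕ => (1 - 1 / ((n : ℝ) + 2)) + 1 / ((n : ℝ) + 2) * (m / ‖z‖)) atTop (𝓝 ((1 - 0) + 0 * (m / ‖z‖))) :=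
      (tendsto_const_nhds.sub h3).add (h3.mul_const _)
    have h6 : Tendsto (fun n : ℕ => ((((1 - 1 / ((n : ℝ) + 2)) + 1 / ((n : ℝ) + 2) * (m / ‖z‖) : ℝ) : ℂ)) * z) atTop
        (𝓝 ((((1 - 0) + 0 * (m / ‖z‖) : ℝ) : ℂ) * z)) :=
      ((Complex.continuous_ofReal.tendsto _).comp h5).mul_const z
    simpa using h6

theorem sb_cross (G : Geo X Λ u D B) {Γ : AddSubgroup (Vd (k + 1))} (hΓ : Lat Γ) (hle : Γ ≤ Λ) {α : VForm X Λ u} (hper : Per α Γ)
    {q e : Vd (k + 1)} (ht : TrB D B q e) :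
    ∃ s₀ : ℝ, 0 < s₀ ∧ ∀ r₁ r₂ : ℝ, 0 < r₁ → r₁ < r₂ → r₂ < s₀ → ∃ ε : ℝ, 0 < ε ∧ ∀ f ∈ Sb X Λ u D, ∀ g ∈ Sb X Λ u D,
      (∀ z : ℂ, r₁ < ‖z‖ → ‖z‖ < r₂ → dist (f (q + z • e)) (g (q + z • e)) ≤ ε) →
        ∃ J' : ℂ → ℂ, DifferentiableOn ℂ J' (ball 0 r₂) ∧ ∀ z : ℂ, r₁ < ‖z‖ → ‖z‖ < r₂ → J' z = JJ α (q + z • e) (f (q + z • e)) (g (q + z • e)) := by
  obtain ⟨s₀, hs₀, hoff, hh⟩ := crossing G ht.1 ht.2.1 ht.2.2.2
  refine ⟨s₀, hs₀, fun r₁ r₂ hr₁ hr hr₂ => ?_⟩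
  obtain ⟨ε₁, hε₁, hcr⟩ := hh r₁ r₂ hr₁ hr hr₂
  -- the closed annulus
  set K : Set ℂ := {z : ℂ | r₁ ≤ ‖z‖ ∧ ‖z‖ ≤ r₂} with hK
  have hKc : IsCompact K := by
    have : K = closedBall (0 : ℂ) r₂ ∩ {z : ℂ | r₁ ≤ ‖z‖} := by
      ext z
      simp only [hK, Set.mem_ofPred_eq, Set.mem_inter_iff, mem_closedBall, dist_zero_right]
      exact and_comm
    rw [this]
    exact (isCompact_closedBall _ _).inter_right (isClosed_le continuous_const continuous_norm)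
  have hKD : ∀ z ∈ K, q + z • e ∉ D := fun z hz => hoff z (by
    rintro rfl
    have h1 := hz.1
    rw [norm_zero] at h1
    linarith) (lt_of_le_of_lt hz.2 hr₂)
  have hcont : Continuous fun z : ℂ => q + z • e := by fun_prop
  obtain ⟨δ, hδ, hsub⟩ := gdx_compact G.D_closed (hKc.image hcont) (by
    rintro y ⟨z, hz, rfl⟩
    exact hKD z hz)
  have hKG : ∀ z ∈ K, q + z • e ∈ Gd D δ := fun z hz => hsub ⟨z, hz, rfl⟩
  obtain ⟨R, hR⟩ := (hKc.image hcont).isBounded.exists_norm_le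
  have hKR : ∀ z ∈ K, ‖q + z • e‖ ≤ R := fun z hz => hR _ ⟨z, hz, rfl⟩
  obtain ⟨ε, ε₀, hεη, -, hc⟩ := exists_cst G (δ := δ / 2) (η := ε₁) (half_pos hδ) hε₁
  have hδ2 : δ / 2 < δ := by linarith
  have hε := hc.ε_pos
  have hε₀ := hc.ε₀_pos
  obtain ⟨C, hC, hbd⟩ := II_bdd G hΓ hle hper (r := 3 * ε) (ε := ε) hc.δ_pos (by linarith) hc.cap
  refine ⟨ε₀ / 2, half_pos hε₀, fun f hf g hg hcl => ?_⟩
  -- closeness on the closed annulus
  have hclK : ∀ z ∈ K, dist (f (q + z • e)) (g (q + z • e)) ≤ ε₀ / 2 := by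
    intro z hz
    have hcf : ContinuousAt (fun w : ℂ => dist (f (q + w • e)) (g (q + w • e))) z :=
      ((sb_cont G hf (hKD z hz)).comp (f := fun w : ℂ => q + w • e) hcont.continuousAt).dist
        ((sb_cont G hg (hKD z hz)).comp (f := fun w : ℂ => q + w • e) hcont.continuousAt)
    have hzc := annulus_closure hr₁ hr hz.1 hz.2
    have := mem_closure_iff_nhdsWithin_neBot.1 hzc
    refine le_of_tendsto (hcf.mono_left (nhdsWithin_le_nhds (s := {w : ℂ | r₁ < ‖w‖ ∧ ‖w‖ < r₂}))) ?_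
    filter_upwards [self_mem_nhdsWithin] with w hw
    exact hcl w hw.1 hw.2
  refine H62.EL.ext_annulus (b := 0) hr₁ hr (J := fun z => JJ α (q + z • e) (f (q + z • e)) (g (q + z • e))) ?_ ?_ |>.imp fun J' hJ' => ⟨hJ'.1, fun z h1 h2 => ?_⟩
  · intro z hz
    simp only [sub_zero, Set.mem_ofPred_eq] at hz
    have hzK : z ∈ K := ⟨hz.1.le, hz.2.le⟩
    have h1 := sb_hol G hc (α := α) hf hg hδ2 (hKG z hzK) (lt_of_le_of_lt (hclK z hzK) (by linarith))
    have h2 : AnalyticAt ℂ (fun w : ℂ => q + w • e) z := by fun_prop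
    exact (h1.comp_of_eq h2 rfl).differentiableAt.differentiableWithinAt
  · intro n r hr1 hr2
    have hrK : ∀ z ∈ sphere (0 : ℂ) r, z ∈ K := by
      intro z hz
      rw [mem_sphere_zero_iff_norm] at hz
      exact ⟨by rw [hz]; exact hr1.le, by rw [hz]; exact hr2.le⟩
    have hr0 : 0 < r := hr₁.trans hr1
    -- approximants
    have happ : ∀ (h : Vd (k + 1) → MN N), h ∈ Sb X Λ u D → ∀ j : ℕ, ∃ F ∈ Sec X Λ u D, ∀ y ∈ Gd D δ, ‖y‖ ≤ R → dist (F y) (h y) < ε₀ / 4 * (1 / ((j : ℝ) + 1)) :=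
      fun h hh j => hh δ hδ R _ (by positivity)
    choose Fa hFa1 hFa2 using happ f hf
    choose Ga hGa1 hGa2 using happ g hg
    have hj1 : ∀ j : ℕ, ε₀ / 4 * (1 / ((j : ℝ) + 1)) ≤ ε₀ / 4 := by
      intro j
      have h1 : 1 / ((j : ℝ) + 1) ≤ 1 := by
        rw [div_le_one (by positivity)]
        have : (0 : ℝ) ≤ j := Nat.cast_nonneg j
        linarith
      calc ε₀ / 4 * (1 / ((j : ℝ) + 1)) ≤ ε₀ / 4 * 1 := mul_le_mul_of_nonneg_left h1 (by positivity)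
        _ = ε₀ / 4 := mul_one _
    have hlim0 : Tendsto (fun j : ℕ => ε₀ / 4 * (1 / ((j : ℝ) + 1))) atTop (𝓝 0) := by
      have := (tendsto_one_div_add_atTop_nhds_zero_nat (𝕜 := ℝ)).const_mul (ε₀ / 4)
      rwa [mul_zero] at this
    have hcl2 : ∀ j : ℕ, ∀ z ∈ K, dist (Fa j (q + z • e)) (Ga j (q + z • e)) ≤ ε₀ := by
      intro j z hz
      have h1 := hFa2 j _ (hKG z hz) (hKR z hz)
      have h2 := hGa2 j _ (hKG z hz) (hKR z hz)
      have h3 := hclK z hz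
      have h4 := dist_triangle4 (Fa j (q + z • e)) (f (q + z • e)) (g (q + z • e)) (Ga j (q + z • e))
      rw [dist_comm (g (q + z • e))] at h4
      linarith [hj1 j]
    have hKG2 : ∀ z ∈ K, q + z • e ∈ Gd D (δ / 2) := fun z hz => gd_mono hδ2.le (hKG z hz)
    have hrelj : ∀ j : ℕ, ∀ z ∈ K, ∃ v, IRel α ε (q + z • e) (Fa j (q + z • e)) (Ga j (q + z • e)) v := fun j z hz =>
      hc.rel _ (hKG2 z hz) _ (sec_fb (hFa1 j) (hKD z hz)) _ (sec_fb (hGa1 j) (hKD z hz)) (hcl2 j z hz) α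
    have hJj : ∀ j : ℕ, ∃ J' : ℂ → ℂ, DifferentiableOn ℂ J' (ball 0 r₂) ∧
        ∀ z : ℂ, r₁ < ‖z‖ → ‖z‖ < r₂ → J' z = II α ε (q + z • e) (Fa j (q + z • e)) (Ga j (q + z • e)) := fun j =>
      hcr ε hε hεη α (Fa j) (hFa1 j) (Ga j) (hGa1 j) (fun z h1 h2 => hrelj j z ⟨h1, h2⟩)
    choose Jj hJj1 hJj2 using hJj
    simp only [sub_zero]
    refine circle_lim (C := r ^ n * C) (F := fun j z => z ^ n * Jj j z) hr0.le (fun j => ?_) (fun j z hz => ?_) (fun z hz => ?_) (fun j => ?_)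
    · refine ContinuousOn.mul (by fun_prop) ((hJj1 j).continuousOn.mono ?_)
      exact fun z hz => mem_ball.2 (by rw [mem_sphere.1 hz]; exact hr2)
    · have hz' := mem_sphere_zero_iff_norm.1 hz
      show ‖z ^ n * Jj j z‖ ≤ _
      rw [norm_mul, norm_pow, hz', hJj2 j z (by rw [hz']; exact hr1) (by rw [hz']; exact hr2)]
      exact mul_le_mul_of_nonneg_left (hbd _ (hKG2 z (hrK z hz)) _ _) (by positivity)
    · have hz' := mem_sphere_zero_iff_norm.1 hz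
      have hzK := hrK z hz
      refine Tendsto.const_mul (z ^ n) ?_
      have hfz : f (q + z • e) ∈ Fb X Λ u (q + z • e) := sb_mem G hf (hKD z hzK)
      have hgz : g (q + z • e) ∈ Fb X Λ u (q + z • e) := sb_mem G hg (hKD z hzK)
      have hdz : dist (f (q + z • e)) (g (q + z • e)) ≤ ε₀ := (hclK z hzK).trans (by linarith)
      have ef : ∀ j, Jj j z = II α ε (q + z • e) (Fa j (q + z • e)) (Ga j (q + z • e)) := fun j =>
        hJj2 j z (by rw [hz']; exact hr1) (by rw [hz']; exact hr2)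
      simp only [ef]
      rw [jj_eq_II G.cone G.tor G.lat hc (hKG2 z hzK) hfz hgz hdz]
      obtain ⟨χ, c, ρ, hcap⟩ := hc.cap _ (hKG2 z hzK) _ hfz
      have hm : Tendsto (fun j => Fa j (q + z • e)) atTop (𝓝 (f (q + z • e))) := by
        rw [tendsto_iff_dist_tendsto_zero]
        exact squeeze_zero (fun _ => dist_nonneg) (fun j => (hFa2 j _ (hKG z hzK) (hKR z hzK)).le) hlim0
      have hm' : Tendsto (fun j => Ga j (q + z • e)) atTop (𝓝 (g (q + z • e))) := by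
        rw [tendsto_iff_dist_tendsto_zero]
        exact squeeze_zero (fun _ => dist_nonneg) (fun j => (hGa2 j _ (hKG z hzK) (hKR z hzK)).le) hlim0
      exact II_lim G.cone G.tor G.lat tendsto_const_nhds hm hm' hcap (by linarith) (Eventually.of_forall fun j => hrelj j z hzK)
        (hc.rel _ (hKG2 z hzK) _ hfz _ hgz hdz α)
    · have hdc : DiffContOnCl ℂ (fun z => z ^ n * Jj j z) (ball 0 r) := by
        refine DifferentiableOn.diffContOnCl ?_
        rw [closure_ball _ hr0.ne']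
        exact DifferentiableOn.mul (by fun_prop) ((hJj1 j).mono fun z hz => mem_ball.2 (lt_of_le_of_lt (mem_closedBall.1 hz) hr2))
      exact hdc.circleIntegral_eq_zero hr0.le
  · exact hJ'.2 z (by rwa [sub_zero]) (by rwa [sub_zero])

/-- the pairs of members of `Sb` -/
abbrev SbP (X : Set (EN N)) (Λ : AddSubgroup (Vd (k + 1))) (u : EN N → Vd (k + 1)) (D : Set (Vd (k + 1))) : Type :=
  {p : (Vd (k + 1) → MN N) × (Vd (k + 1) → MN N) // p.1 ∈ Sb X Λ u D ∧ p.2 ∈ Sb X Λ u D}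

theorem pairData (G : Geo X Λ u D B) {Γ : AddSubgroup (Vd (k + 1))} (hΓ : Lat Γ) (hle : Γ ≤ Λ) {α : VForm X Λ u} (hper : Per α Γ) :
    PairData Γ D (TrB D B) (P := SbP X Λ u D) (fun p y => dist (p.1.1 y) (p.1.2 y)) (fun p y => JJ α y (p.1.1 y) (p.1.2 y)) where
  cpt := hΓ.cpt
  D_closed := G.D_closed
  D_inv := fun y hy l hl => G.D_inv y hy l (hle hl)
  thin := G.D_thin
  ae_tr := fun e he => G.ae_trB he
  tr_iso := fun q _ e h => trB_iso h
  shift := fun p l hl => by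
    refine ⟨⟨(fun y => p.1.1 (y + l), fun y => p.1.2 (y + l)), sb_trans G p.2.1 (hle hl), sb_trans G p.2.2 (hle hl)⟩, fun y => rfl, fun y => ?_⟩
    exact (jj_add hle hper _ _ hl).symm
  hol := fun d hd => by
    obtain ⟨ε, ε₀, -, -, hc⟩ := exists_cst G (δ := d / 2) (η := 1) (half_pos hd) one_pos
    obtain ⟨C, hC, hbd⟩ := II_bdd G hΓ hle hper (r := 3 * ε) (ε := ε) hc.δ_pos (by linarith [hc.ε_pos]) hc.cap
    have hε₀ := hc.ε₀_pos
    refine ⟨ε₀ / 2, C, half_pos hε₀, fun p y hy hcl => ⟨?_, ?_⟩⟩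
    · exact sb_hol G hc p.2.1 p.2.2 (by linarith) hy (lt_of_le_of_lt hcl (by linarith))
    · have hy2 : y ∈ Gd D (d / 2) := gd_mono (by linarith) hy
      have hyD := gd_notMem hd hy
      rw [jj_eq_II G.cone G.tor G.lat hc hy2 (sb_mem G p.2.1 hyD) (sb_mem G p.2.2 hyD) (hcl.trans (by linarith))]
      exact hbd y hy2 _ _
  cross := fun q _ e h => by
    obtain ⟨s₀, hs₀, hh⟩ := sb_cross G hΓ hle hper h
    refine ⟨s₀, hs₀, fun r₁ r₂ hr₁ hr hr₂ => ?_⟩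
    obtain ⟨ε, hε, hh2⟩ := hh r₁ r₂ hr₁ hr hr₂
    exact ⟨ε, hε, fun p hp => hh2 p.1.1 p.2.1 p.1.2 p.2.2 hp⟩

/-- the half-space theorem for the integral -/
theorem sb_half (G : Geo X Λ u D B) (h0 : (0 : Vd (k + 1)) ∉ D) {Γ : AddSubgroup (Vd (k + 1))} (hΓ : Lat Γ) (hle : Γ ≤ Λ) {α : VForm X Λ u}
    (hper : Per α Γ) (hvan : VanZero α) {d₂ : ℝ} (hd₂ : 0 < d₂) :
    ∃ d₀ ε₁ r₂ : ℝ, 0 < d₀ ∧ 0 < ε₁ ∧ 0 < r₂ ∧ ∀ f ∈ Sb X Λ u D, ∀ g ∈ Sb X Λ u D, ∀ (ζ : EN k) (t : ℝ), ‖ζ‖ = 1 →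
      (∀ x ∈ Gd D d₀, (iw ζ x).re ≤ t → dist (f x) (g x) ≤ ε₁) → ∀ y ∈ Gd D d₂, (iw ζ y).re ≤ t - r₂ → JJ α y (f y) (g y) = 0 := by
  obtain ⟨d, ε, r₂, hd, hε, hr₂, hh⟩ := (pairData G hΓ hle hper).half_inner h0 (fun p l hl => jj_zero G.cone G.tor G.lat hle hper hvan hl _ _) hd₂
  exact ⟨d, ε, r₂, hd, hε, hr₂, fun f hf g hg ζ t hζ hcl y hy hyt => hh ⟨(f, g), hf, hg⟩ ζ t hζ hcl y hy hyt⟩

/-- the half-space theorem, in the form of `Dyn.half` -/
theorem half_zero (G : Geo X Λ u D B) (h0 : (0 : Vd (k + 1)) ∉ D) {Γ : AddSubgroup (Vd (k + 1))} (hΓ : Lat Γ) (hle : Γ ≤ Λ) {α : VForm X Λ u}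
    (hper : Per α Γ) (hvan : VanZero α) {d₂ : ℝ} (hd₂ : 0 < d₂) :
    ∃ d₀ : ℝ, 0 < d₀ ∧ d₀ ≤ d₂ ∧ ∀ d ε ε₀ : ℝ, d ≤ d₀ → Cst X Λ u D d ε ε₀ → ∃ ε₁ r₂ : ℝ, 0 < ε₁ ∧ 0 < r₂ ∧
      ∀ f ∈ Sb X Λ u D, ∀ g ∈ Sb X Λ u D, ∀ (ζ : EN k) (t : ℝ), ‖ζ‖ = 1 →
        (∀ x ∈ Gd D d, (iw ζ x).re ≤ t → dist (f x) (g x) ≤ ε₁) → ∀ y ∈ Gd D d₂, (iw ζ y).re ≤ t - r₂ → II α ε y (f y) (g y) = 0 := by
  obtain ⟨d₀, ε₁, r₂, hd₀, hε₁, hr₂, hh⟩ := sb_half G h0 hΓ hle hper hvan hd₂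
  refine ⟨min d₀ d₂, lt_min hd₀ hd₂, min_le_right _ _, fun d ε ε₀ hd hc => ⟨min ε₁ ε₀, r₂, lt_min hε₁ hc.ε₀_pos, hr₂, fun f hf g hg ζ t hζ hcl y hy hyt => ?_⟩⟩
  have h1 := hh f hf g hg ζ t hζ (fun x hx hxt => (hcl x (gd_mono (hd.trans (min_le_left _ _)) hx) hxt).trans (min_le_left _ _)) y hy hyt
  have hyd : y ∈ Gd D d := gd_mono (hd.trans (min_le_right _ _)) hy
  have hyD : y ∉ D := gd_notMem hd₂ hy
  have h2 := (hcl y hyd (by linarith)).trans (min_le_right _ _)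
  rwa [jj_eq_II G.cone G.tor G.lat hc hyd (sb_mem G hf hyD) (sb_mem G hg hyD) h2] at h1

end Pool.Agent.TG

end

section

/-!
# TG Core: the sections are finitely many

The dynamical situation `Dyn` (Euclidean norm) from the geometric situation (sup norm), by the identity `EN k ≃L[ℂ] Vd (k + 1)`.
-/

set_option autoImplicit false

open Topology Filter Metric MeasureTheory

namespace Pool.Agent.TG

open Pool.Agent.H36.BP (EN fs wd)
open Pool.Agent.H14.PP (IsCone CurveAt Tan)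
open Pool.Agent.H62.EF (MN pr)
open Pool.Agent.AD (Vd Chart Charts IsGerm)

variable {N k : ℕ} {X : Set (EN N)} {Λ : AddSubgroup (Vd (k + 1))} {u : EN N → Vd (k + 1)} {D B : Set (Vd (k + 1))}

/-- the identity from the Euclidean space to the space with the sup norm -/
noncomputable def TE (k : ℕ) : EN k ≃L[ℂ] Vd (k + 1) := EuclideanSpace.equiv (Fin (k + 1)) ℂ

theorem TE_apply (z : EN k) : TE k z = fun i => z i := rfl

theorem TE_norm (z : EN k) : ‖TE k z‖ ≤ ‖z‖ := (pi_norm_le_iff_of_nonneg (norm_nonneg _)).2 fun i => PiLp.norm_apply_le z i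

theorem TE_dist (z w : EN k) : ‖TE k z - TE k w‖ ≤ ‖z - w‖ := by
  rw [← map_sub]
  exact TE_norm _

theorem exists_TE_symm_bound (k : ℕ) : ∃ C : ℝ, 0 < C ∧ ∀ y : Vd (k + 1), ‖(TE k).symm y‖ ≤ C * ‖y‖ := by
  refine ⟨‖((TE k).symm : Vd (k + 1) →L[ℂ] EN k)‖ + 1, by positivity, fun y => ?_⟩
  exact (((TE k).symm : Vd (k + 1) →L[ℂ] EN k).le_opNorm y).trans (mul_le_mul_of_nonneg_right (by linarith) (norm_nonneg _))

/-- the open set on which the conclusions hold -/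
theorem interior_gd_add (G : Geo X Λ u D B) {Γ : AddSubgroup (Vd (k + 1))} (hle : Γ ≤ Λ) (d : ℝ) {y l : Vd (k + 1)} (hl : l ∈ Γ) :
    y + l ∈ interior (Gd D d) ↔ y ∈ interior (Gd D d) := by
  have h1 : interior (Gd D d) = (fun y => y + l) ⁻¹' interior (Gd D d) := by
    have h2 : (fun y => y + l) ⁻¹' Gd D d = Gd D d := by
      ext y
      exact G.gd_add d (hle hl)
    have h3 : (fun y => y + l) ⁻¹' interior (Gd D d) = interior ((fun y => y + l) ⁻¹' Gd D d) :=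
      (Homeomorph.addRight l).preimage_interior (Gd D d)
    rw [h3, h2]
  constructor
  · intro h
    rw [h1]
    exact h
  · intro h
    rw [h1] at h
    exact h

/-- **the dynamical situation** -/
theorem dyn (G : Geo X Λ u D B) (h0 : (0 : Vd (k + 1)) ∉ D) {Γ : AddSubgroup (Vd (k + 1))} (hΓ : Lat Γ) (hle : Γ ≤ Λ) {α : VForm X Λ u}
    (hper : Per α Γ) (hvan : VanZero α) (hthin : Thin α) :
    ∃ (d d₂ ε : ℝ), 0 < d ∧ d ≤ d₂ ∧ Dyn (pr '' X) (Γ.comap ((TE k : EN k →L[ℂ] Vd (k + 1)) : EN k →+ Vd (k + 1))) (TE k ⁻¹' D) (TE k ⁻¹' Gd D d)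
      (TE k ⁻¹' interior (Gd D d₂)) {h | (fun y => h ((TE k).symm y)) ∈ Sb X Λ u D} (fun z m => Zr α (TE k z) m)
      (fun z m m' => II α ε (TE k z) m m' = 0) := by
  -- a point off `D`
  obtain ⟨δ, hδ, h0δ⟩ := G.exists_gd h0
  have hd₂ : 0 < δ / 2 := half_pos hδ
  obtain ⟨d₀, hd₀, hd₀₂, hhalf⟩ := half_zero G h0 hΓ hle hper hvan hd₂
  obtain ⟨ε, ε₀, -, -, hc⟩ := exists_cst G (δ := d₀) (η := 1) hd₀ one_pos
  obtain ⟨ε₁, r₂, hε₁, hr₂, hh⟩ := hhalf d₀ ε ε₀ le_rfl hc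
  have hOG : interior (Gd D (δ / 2)) ⊆ Gd D d₀ := fun y hy => gd_mono hd₀₂ (interior_subset hy)
  have hsy : ∀ z : EN k, (TE k).symm (TE k z) = z := fun z => (TE k).symm_apply_apply z
  have hys : ∀ y : Vd (k + 1), TE k ((TE k).symm y) = y := fun y => (TE k).apply_symm_apply y
  obtain ⟨C, hC, hCb⟩ := exists_TE_symm_bound k
  refine ⟨d₀, δ / 2, ε, hd₀, hd₀₂, ?_⟩
  refine
    { compact := Pool.Agent.H62.EF.isCompact_pr G.cone
      cpt := ?_
      D_closed := G.D_closed.preimage (TE k).continuous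
      D_inv := fun z l hl => by
        show TE k (z + l) ∈ D ↔ TE k z ∈ D
        rw [map_add]
        exact G.D_sub (hle hl)
      G_closed := (gd_closed D d₀).preimage (TE k).continuous
      G_inv := fun z l hl => by
        show TE k (z + l) ∈ Gd D d₀ ↔ TE k z ∈ Gd D d₀
        rw [map_add]
        exact G.gd_add d₀ (hle hl)
      G_D := fun z hz => gd_notMem hd₀ hz
      O_open := isOpen_interior.preimage (TE k).continuous
      O_inv := fun z l hl => by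
        show TE k (z + l) ∈ interior (Gd D (δ / 2)) ↔ TE k z ∈ interior (Gd D (δ / 2))
        rw [map_add]
        exact interior_gd_add G hle _ hl
      O_sub := fun z hz => hOG hz
      O_ne := ?_
      mem := ?_
      lip := ?_
      trans := ?_
      lim := ?_
      uniq := ?_
      Z_inv := fun z l hl m => by
        show Zr α (TE k (z + l)) m ↔ Zr α (TE k z) m
        rw [map_add]
        exact zr_per hle hper hl _ m
      Z_lim := ?_
      N_inv := fun z l hl m m' => by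
        show II α ε (TE k (z + l)) m m' = 0 ↔ II α ε (TE k z) m m' = 0
        rw [map_add, II_per G.tor hle hper (l := TE k l) hl]
      half := ?_
      near := ?_
      iso := ?_ }
  · obtain ⟨R, hR, hRb⟩ := hΓ.cpt
    refine ⟨C * R, by positivity, fun z => ?_⟩
    obtain ⟨l, hl, h1⟩ := hRb (TE k z)
    refine ⟨(TE k).symm l, ?_, ?_⟩
    · show TE k ((TE k).symm l) ∈ Γ
      rwa [hys]
    · have e : z - (TE k).symm l = (TE k).symm (TE k z - l) := by rw [map_sub, hsy]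
      rw [e]
      exact (hCb _).trans (mul_le_mul_of_nonneg_left h1 hC.le)
  · refine ⟨(TE k).symm 0, ?_⟩
    show TE k ((TE k).symm 0) ∈ interior (Gd D (δ / 2))
    rw [hys, mem_interior_iff_mem_nhds]
    filter_upwards [closedBall_mem_nhds (0 : Vd (k + 1)) hd₂] with y hy
    have h1 := gd_near h0δ (r := δ / 2) (w := y) (by rwa [← dist_eq_norm])
    have e : δ - δ / 2 = δ / 2 := by ring
    rwa [e] at h1
  · intro f hf z hz
    have h1 := sb_mem G hf (y := TE k z) hz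
    simp only [hsy] at h1
    obtain ⟨x, hx, hxm, -⟩ := h1
    exact ⟨x, hx, hxm⟩
  · intro z hz
    obtain ⟨δ₁, hδ₁, hzδ⟩ := G.exists_gd (y := TE k z) hz
    obtain ⟨L, hL, hl⟩ := sb_lip G (half_pos hδ₁)
    refine ⟨L, δ₁ / 8, hL, by positivity, fun f hf w hw w' hw' => ?_⟩
    have h1 : ‖TE k w - TE k z‖ ≤ δ₁ / 8 := (TE_dist w z).trans (by rw [← dist_eq_norm]; exact (mem_ball.1 hw).le)
    have h2 : ‖TE k w' - TE k z‖ ≤ δ₁ / 8 := (TE_dist w' z).trans (by rw [← dist_eq_norm]; exact (mem_ball.1 hw').le)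
    have h3 : TE k w ∈ Gd D (δ₁ / 2) := gd_mono (by linarith) (gd_near hzδ h1)
    have h4 : TE k w' ∈ closedBall (TE k w) (δ₁ / 2 / 2) := by
      rw [mem_closedBall, dist_eq_norm]
      have e : TE k w' - TE k w = (TE k w' - TE k z) - (TE k w - TE k z) := by abel
      rw [e]
      refine (norm_sub_le _ _).trans ?_
      linarith
    have h5 := hl _ hf _ h3 _ h4
    simp only [hsy] at h5
    exact h5.trans (mul_le_mul_of_nonneg_left (TE_dist w w') hL.le)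
  · intro f hf l hl
    show (fun y => f ((TE k).symm y + l)) ∈ Sb X Λ u D
    have h1 := sb_trans G hf (hle hl)
    have e : (fun y => f ((TE k).symm (y + TE k l))) = fun y => f ((TE k).symm y + l) := by
      funext y
      rw [map_add, hsy]
    rw [← e]
    exact h1
  · intro 𝒰 F f hF hf
    refine sb_lim G 𝒰 (fun n y => F n ((TE k).symm y)) (fun y => f ((TE k).symm y)) hF fun y hy => ?_
    exact hf _ (by show TE k ((TE k).symm y) ∉ D; rwa [hys])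
  · intro f hf g hg z₀ hz₀ h
    have h1 : ∀ᶠ y in 𝓝 (TE k z₀), f ((TE k).symm y) = g ((TE k).symm y) := by
      have h2 : Tendsto (TE k).symm (𝓝 (TE k z₀)) (𝓝 z₀) := by
        have := (TE k).symm.continuous.tendsto (TE k z₀)
        rwa [hsy] at this
      exact h2.eventually h
    have h2 := sb_uniq G hf hg hz₀ h1
    intro z hz
    have h3 := h2 (TE k z) hz
    simp only [hsy] at h3
    exact h3
  · intro 𝒰 F f hf hF hFf z hz h
    have hzD : TE k z ∉ D := gd_notMem hd₀ (hOG hz)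
    exact zr_lim G (l := (𝒰 : Filter ℕ)) (y := fun _ => TE k z) (m := fun n => F n z) hzD tendsto_const_nhds (hFf z hzD) h
  · refine ⟨r₂, ε₁, hr₂, hε₁, fun f hf g hg ζ t hζ hcl z hz hzt => ?_⟩
    have h1 := hh _ hf _ hg ζ t hζ (fun x hx hxt => ?_) (TE k z) (interior_subset hz) (by rw [TE_apply, iw_eq]; exact hzt)
    · simp only [hsy] at h1
      exact h1
    · refine hcl ((TE k).symm x) ?_ ?_
      · show TE k ((TE k).symm x) ∈ Gd D d₀
        rwa [hys]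
      · rw [← iw_eq, ← TE_apply, hys]
        exact hxt
  · intro 𝒰 F H w f hf z hz hFH hF hH hw h
    have hzG : TE k z ∈ Gd D d₀ := hOG hz
    have hzD : TE k z ∉ D := gd_notMem hd₀ hzG
    have hw' : Tendsto (fun n => TE k (w n)) 𝒰 (𝓝 (TE k z)) := ((TE k).continuous.tendsto z).comp hw
    have hoff : ∀ y : Vd (k + 1), y ∉ D → TE k ((TE k).symm y) ∉ D := fun y hy => by rwa [hys]
    have h1 := sb_along G 𝒰 (fun n y => F n ((TE k).symm y)) (f := fun y => f ((TE k).symm y)) (hFH.mono fun n hn => hn.1) (fun y hy => hF _ (hoff y hy)) hzD hw'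
    have h2 := sb_along G 𝒰 (fun n y => H n ((TE k).symm y)) (f := fun y => f ((TE k).symm y)) (hFH.mono fun n hn => hn.2) (fun y hy => hH _ (hoff y hy)) hzD hw'
    simp only [hsy] at h1 h2
    refine near_zr G hc (l := (𝒰 : Filter ℕ)) hzG hw' h1 h2 ?_
    filter_upwards [h, hFH] with n hn hn2
    have hnG : TE k (w n) ∈ Gd D d₀ := hOG hn.1
    have hnD : TE k (w n) ∉ D := gd_notMem hd₀ hnG
    have h3 := sb_mem G hn2.1 hnD
    have h4 := sb_mem G hn2.2 hnD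
    simp only [hsy] at h3 h4
    exact ⟨hnG, h3, h4, hn.2.1, hn.2.2⟩
  · intro e he _
    -- a point of `O`
    have h1 : (0 : Vd (k + 1)) ∈ interior (Gd D (δ / 2)) := by
      rw [mem_interior_iff_mem_nhds]
      filter_upwards [closedBall_mem_nhds (0 : Vd (k + 1)) hd₂] with y hy
      have h1 := gd_near h0δ (r := δ / 2) (w := y) (by rwa [← dist_eq_norm])
      have e : δ - δ / 2 = δ / 2 := by ring
      rwa [e] at h1
    obtain ⟨φ, hφ, hφX⟩ := sb_lift G he h0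
    have h2 : ∀ᶠ y in 𝓝 (0 : Vd (k + 1)), y ∈ interior (Gd D (δ / 2)) ∧ pr (φ y) = e ((TE k).symm y) :=
      Filter.Eventually.and (isOpen_interior.mem_nhds h1) (hφX.mono fun y hy => hy.2.2)
    obtain ⟨O₁, hO₁, hO₁o, h0O⟩ := _root_.eventually_nhds_iff.1 h2
    obtain ⟨y₀, r', ε', hr', hε', hball, hiso⟩ := iso_zr G hthin hc hO₁o (fun y hy => hOG (hO₁ y hy).1) h0O hφ (hφX.mono fun y hy => ⟨hy.1, hy.2.1⟩)
    refine ⟨(TE k).symm y₀, r', ε', hr', hε', ?_, fun g hg z hz hd hor => ?_⟩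
    · intro z hz
      refine (hO₁ _ (hball ?_)).1
      rw [mem_ball, dist_eq_norm] at hz ⊢
      refine lt_of_le_of_lt ?_ hz
      have := TE_dist z ((TE k).symm y₀)
      rwa [hys] at this
    · have hzb : TE k z ∈ ball y₀ r' := by
        rw [mem_ball, dist_eq_norm] at hz ⊢
        refine lt_of_le_of_lt ?_ hz
        have := TE_dist z ((TE k).symm y₀)
        rwa [hys] at this
      have hzO := hO₁ _ (hball hzb)
      have hzD : TE k z ∉ D := gd_notMem hd₀ (hOG hzO.1)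
      have hpe : pr (φ (TE k z)) = e z := by rw [hzO.2, hsy]
      have hgz := sb_mem G hg hzD
      simp only [hsy] at hgz
      rw [← hpe]
      exact hiso _ hzb _ hgz (by rwa [hpe]) (by rw [hpe]; exact hor)

/-- **The sections are finitely many**, modulo equality off `D`. -/
theorem finSec (G : Geo X Λ u D B) (h0 : (0 : Vd (k + 1)) ∉ D) {Γ : AddSubgroup (Vd (k + 1))} (hΓ : Lat Γ) (hle : Γ ≤ Λ) {α : VForm X Λ u}
    (hper : Per α Γ) (hvan : VanZero α) (hthin : Thin α) : FinSec X Λ u D := by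
  obtain ⟨d, d₂, ε, -, -, hD⟩ := dyn G h0 hΓ hle hper hvan hthin
  obtain ⟨𝓕, hfin, -, h𝓕⟩ := hD.finite
  refine ⟨(fun h : EN k → MN N => fun y => h ((TE k).symm y)) '' 𝓕, hfin.image _, fun f hf => ?_⟩
  have h1 : (fun z => f (TE k z)) ∈ {h : EN k → MN N | (fun y => h ((TE k).symm y)) ∈ Sb X Λ u D} := by
    show (fun y => f (TE k ((TE k).symm y))) ∈ Sb X Λ u D
    simp only [ContinuousLinearEquiv.apply_symm_apply]
    exact sec_sb hf
  obtain ⟨g, hg, hfg⟩ := h𝓕 _ h1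
  refine ⟨_, ⟨g, hg, rfl⟩, fun y hy => ?_⟩
  have h2 := hfg ((TE k).symm y) (by show TE k ((TE k).symm y) ∉ D; rwa [(TE k).apply_symm_apply])
  simp only [ContinuousLinearEquiv.apply_symm_apply] at h2
  exact h2

end Pool.Agent.TG

end
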