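import Pool.Agent.H94.G4T.G3.Defs
import Pool.Agent.H94.G4T.M28
import Pool.Agent.H94.G4T.M45
import Pool.Agent.H94.G4T.M50

/-! The parts of this file: H13.CV.Step, AD.T.Torus, G3.R.Max. -/

section

/-!
# CV Step: one more condition at a place lowers the dimension by at most one

`finrank_le_step`: let `oz E t = 1` (`exists_uni`).  The map `W → ℂ`, `f ↦ res E (f * t ^ (-d))` is linear (`res_add`, `res_smul`: `0 ≤ ord (f * t ^ (-d))` for `f ∈ W`), and its kernel is
`W ⊓ ordGe E (d + 1)` (`res_eq_zero_iff`).  Rank-nullity: `LinearMap.finrank_range_add_finrank_ker`, and the range has dimension `≤ 1`.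
`finrank_le_steps`: induction on `T`, and on `e E` for the new place.
-/

set_option autoImplicit false

open Pool.Agent.H23.Fano (PrimeDivisorOver Form regularForms)

noncomputable section

namespace Pool.Agent.H13.CV

variable {K : Type} [Field K] [Algebra ℂ K]

theorem mem_ordGe {E : Place K} {d : ℤ} {f : K} : f ∈ ordGe E d ↔ (d : WithTop ℤ) ≤ E.ord f := Iff.rfl

theorem mem_LD {D : Place K → ℤ} {f : K} : f ∈ LD D ↔ ∀ E, ((-D E : ℤ) : WithTop ℤ) ≤ E.ord f := by
  rw [LD, Submodule.mem_iInf]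
  exact Iff.rfl

theorem ordGe_anti (E : Place K) {d d' : ℤ} (h : d ≤ d') : ordGe E d' ≤ ordGe E d := by
  intro f hf
  rw [mem_ordGe] at hf ⊢
  exact le_trans (WithTop.coe_le_coe.mpr h) hf

/-- the twisted function is regular -/
private theorem Step_nonneg {E : Place K} {u f : K} {d : ℤ} (hu : u ≠ 0) (hou : oz E u = -d) (hf : f ∈ ordGe E d) :
    0 ≤ E.ord (f * u) := by
  rw [nonneg_iff]
  rw [mem_ordGe, le_ord_iff] at hf
  by_cases h0 : f = 0
  · left
    rw [h0, zero_mul]
  · right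
    rw [oz_mul E h0 hu, hou]
    rcases hf with h | h
    · exact absurd h h0
    · omega

/-- the twisted function vanishes at the place iff the order is one larger -/
private theorem Step_pos {E : Place K} {u f : K} {d : ℤ} (hu : u ≠ 0) (hou : oz E u = -d) (h : 0 < E.ord (f * u)) :
    f ∈ ordGe E (d + 1) := by
  rw [mem_ordGe, le_ord_iff]
  by_cases h0 : f = 0
  · left
    exact h0
  · right
    rw [pos_iff, oz_mul E h0 hu, hou] at h
    rcases h with h | h
    · exact absurd h (mul_ne_zero h0 hu)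
    · omega

/-- the linear map: the leading coefficient -/
private def Step_map (hK : CurveField K) (W : Submodule ℂ K) (E : Place K) (d : ℤ) (hW : W ≤ ordGe E d) (u : K)
    (hu : u ≠ 0) (hou : oz E u = -d) : W →ₗ[ℂ] ℂ where
  toFun f := res E ((f : K) * u)
  map_add' f g := by
    show res E (((f + g : W) : K) * u) = _
    rw [Submodule.coe_add, add_mul]
    exact res_add hK (Step_nonneg hu hou (hW f.2)) (Step_nonneg hu hou (hW g.2))
  map_smul' c f := by
    show res E (((c • f : W) : K) * u) = _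
    rw [Submodule.coe_smul, smul_mul_assoc]
    exact res_smul hK c (Step_nonneg hu hou (hW f.2))

theorem finrank_le_step (hK : CurveField K) (W : Submodule ℂ K) [FiniteDimensional ℂ W] (E : Place K) (d : ℤ) (hW : W ≤ ordGe E d) :
    Module.finrank ℂ W ≤ Module.finrank ℂ (W ⊓ ordGe E (d + 1) : Submodule ℂ K) + 1 := by
  obtain ⟨t, ht, hot⟩ := exists_uni E
  have hu : t ^ (-d) ≠ 0 := zpow_ne_zero _ ht
  have hou : oz E (t ^ (-d)) = -d := by
    rw [oz_zpow, hot, mul_one]
  have hrk := LinearMap.finrank_range_add_finrank_ker (Step_map hK W E d hW (t ^ (-d)) hu hou)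
  have hr : Module.finrank ℂ (LinearMap.range (Step_map hK W E d hW (t ^ (-d)) hu hou)) ≤ 1 := by
    have h := Submodule.finrank_le (LinearMap.range (Step_map hK W E d hW (t ^ (-d)) hu hou))
    rwa [Module.finrank_self] at h
  have hk : Module.finrank ℂ (LinearMap.ker (Step_map hK W E d hW (t ^ (-d)) hu hou)) ≤
      Module.finrank ℂ (W ⊓ ordGe E (d + 1) : Submodule ℂ K) := by
    rw [← Submodule.finrank_map_subtype_eq W (LinearMap.ker (Step_map hK W E d hW (t ^ (-d)) hu hou))]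
    refine Submodule.finrank_mono ?_
    rintro f hf
    obtain ⟨g, hg, rfl⟩ := Submodule.mem_map.mp hf
    refine Submodule.mem_inf.mpr ⟨g.2, ?_⟩
    have h1 : res E ((g : K) * t ^ (-d)) = 0 := hg
    have h2 := (res_eq_zero_iff hK (Step_nonneg hu hou (hW g.2))).mp h1
    exact Step_pos hu hou h2
  omega

private theorem Step_iter (hK : CurveField K) (W : Submodule ℂ K) [FiniteDimensional ℂ W] (E : Place K) (d : ℤ)
    (hW : W ≤ ordGe E d) (k : ℕ) :
    Module.finrank ℂ W ≤ Module.finrank ℂ (W ⊓ ordGe E (d + k) : Submodule ℂ K) + k := by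
  induction k with
  | zero =>
    have h : W ⊓ ordGe E (d + (0 : ℕ)) = W := by
      rw [Nat.cast_zero, add_zero]
      exact inf_eq_left.mpr hW
    rw [h, add_zero]
  | succ k ih =>
    have h1 := finrank_le_step hK (W ⊓ ordGe E (d + k)) E (d + k) inf_le_right
    have h2 : (W ⊓ ordGe E (d + k)) ⊓ ordGe E (d + k + 1) = W ⊓ ordGe E (d + ((k + 1 : ℕ) : ℤ)) := by
      have h3 : d + (k : ℤ) + 1 = d + ((k + 1 : ℕ) : ℤ) := by
        push_cast
        ring
      rw [inf_assoc, inf_eq_right.mpr (ordGe_anti E (by omega : d + (k : ℤ) ≤ d + (k : ℤ) + 1)), h3]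
    rw [h2] at h1
    omega

theorem finrank_le_steps (hK : CurveField K) (W : Submodule ℂ K) [FiniteDimensional ℂ W] (T : Finset (Place K)) (d : Place K → ℤ) (e : Place K → ℕ)
    (hW : ∀ E ∈ T, W ≤ ordGe E (d E)) :
    Module.finrank ℂ W ≤ Module.finrank ℂ (W ⊓ ⨅ E ∈ T, ordGe E (d E + e E) : Submodule ℂ K) + ∑ E ∈ T, e E := by
  classical
  induction T using Finset.induction_on with
  | empty =>
    have h : W ⊓ ⨅ E ∈ (∅ : Finset (Place K)), ordGe E (d E + e E) = W :=
      inf_eq_left.mpr (le_iInf fun E => le_iInf fun hE => absurd hE (Finset.notMem_empty E))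
    rw [h]
    exact Nat.le_add_right _ _
  | insert E T hE ih =>
    have ih' := ih fun E' hE' => hW E' (Finset.mem_insert_of_mem hE')
    have hle : W ⊓ ⨅ E' ∈ T, ordGe E' (d E' + e E') ≤ ordGe E (d E) :=
      le_trans inf_le_left (hW E (Finset.mem_insert_self E T))
    have h1 := Step_iter hK (W ⊓ ⨅ E' ∈ T, ordGe E' (d E' + e E')) E (d E) hle (e E)
    have h2 : (W ⊓ ⨅ E' ∈ T, ordGe E' (d E' + e E')) ⊓ ordGe E (d E + e E) =
        W ⊓ ⨅ E' ∈ insert E T, ordGe E' (d E' + e E') := by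
      rw [Finset.iInf_insert, inf_assoc, inf_comm (ordGe E (d E + e E))]
    rw [h2] at h1
    rw [Finset.sum_insert hE]
    omega

end Pool.Agent.H13.CV

end
end

section

/-!
# AD T Torus: holomorphic maps to complex tori

`u : X → ℂ^g / Λ` is holomorphic, `Λ` discrete.  The components of `du` are symmetric differentials of degree one; an entire curve `F` with
`du (F') = 0` lies in a fibre of `u`.
-/

set_option autoImplicit false

open Topology Filter Metric MvPolynomial

namespace Pool.Agent.AD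

attribute [-instance] ProperSMul.toContinuousSMul

open Pool.Agent.H36.BP (EN fs wd)
open Pool.Agent.H14.PP (IsCone Tan CurveAt IsOpenPart)
open Pool.Agent.H22.W (isOpenPart_self tan_smul tan_mem tan_curve)
open Pool.Agent.H17 (PN HolomorphicInto)

variable {N g : ℕ}

/-- `u` is a holomorphic map from the variety with the cone `X` to `ℂ^g / Λ` -/
structure TorusMapV (X : Set (EN N)) (Λ : AddSubgroup (Fin g → ℂ)) (u : EN N → (Fin g → ℂ)) : Prop where
  smul : ∀ x ∈ X, ∀ c : ℂ, c ≠ 0 → u (c • x) - u x ∈ Λ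
  loc : ∀ x ∈ X, ∃ v : EN N → (Fin g → ℂ), AnalyticAt ℂ v x ∧ ∀ᶠ y in 𝓝 x, y ∈ X → u y - v y ∈ Λ

/-- a discrete subgroup -/
def DiscreteSub (Λ : AddSubgroup (Fin g → ℂ)) : Prop := ∃ δ : ℝ, 0 < δ ∧ ∀ l ∈ Λ, ‖l‖ < δ → l = 0

variable {X : Set (EN N)} {Λ : AddSubgroup (Fin g → ℂ)} {u : EN N → (Fin g → ℂ)}

open Classical in
/-- a local lift of `u` at `x` -/
noncomputable def TorusMapV.lift (hu : TorusMapV X Λ u) (x : EN N) : EN N → (Fin g → ℂ) :=
  if h : x ∈ X then (hu.loc x h).choose else fun _ => 0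

theorem TorusMapV.lift_an (hu : TorusMapV X Λ u) {x : EN N} (hx : x ∈ X) : AnalyticAt ℂ (hu.lift x) x := by
  unfold TorusMapV.lift
  rw [dif_pos hx]
  exact (hu.loc x hx).choose_spec.1

theorem TorusMapV.lift_mem (hu : TorusMapV X Λ u) {x : EN N} (hx : x ∈ X) : ∀ᶠ y in 𝓝 x, y ∈ X → u y - hu.lift x y ∈ Λ := by
  unfold TorusMapV.lift
  rw [dif_pos hx]
  exact (hu.loc x hx).choose_spec.2

/-- a continuous function with values in a discrete subgroup is locally constant -/
theorem eventually_const_of_mem (hΛ : DiscreteSub Λ) {h : ℂ → (Fin g → ℂ)} {z₀ : ℂ} (hc : ContinuousAt h z₀)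
    (hm : ∀ᶠ z in 𝓝 z₀, h z ∈ Λ) : ∀ᶠ z in 𝓝 z₀, h z = h z₀ := by
  obtain ⟨δ, hδ, hd⟩ := hΛ
  have h1 : ∀ᶠ z in 𝓝 z₀, ‖h z - h z₀‖ < δ := by
    have h2 := hc.eventually (ball_mem_nhds (h z₀) hδ)
    filter_upwards [h2] with z hz
    rw [← dist_eq_norm]
    exact hz
  filter_upwards [h1, hm] with z hz1 hz2
  exact sub_eq_zero.1 (hd _ (Λ.sub_mem hz2 hm.self_of_nhds) hz1)

/-- two functions which differ locally by an element of a discrete subgroup have the same derivative -/
theorem deriv_eq_of_mem (hΛ : DiscreteSub Λ) {h k : ℂ → (Fin g → ℂ)} {z₀ : ℂ} (hh : AnalyticAt ℂ h z₀) (hk : AnalyticAt ℂ k z₀)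
    (hm : ∀ᶠ z in 𝓝 z₀, h z - k z ∈ Λ) : deriv h z₀ = deriv k z₀ := by
  have h1 := eventually_const_of_mem hΛ (hh.sub hk).continuousAt hm
  have h2 : (fun z => h z) =ᶠ[𝓝 z₀] fun z => (h z₀ - k z₀) + k z := by
    filter_upwards [h1] with z hz
    have hz' : h z - k z = h z₀ - k z₀ := hz
    rw [← hz']
    abel
  rw [show deriv h z₀ = deriv (fun z => (h z₀ - k z₀) + k z) z₀ from h2.deriv_eq, deriv_const_add]

theorem deriv_comp_lift {v : EN N → (Fin g → ℂ)} {F : ℂ → EN N} {z₀ : ℂ} (hF : AnalyticAt ℂ F z₀) (hv : AnalyticAt ℂ v (F z₀)) :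
    deriv (fun z => v (F z)) z₀ = fderiv ℂ v (F z₀) (deriv F z₀) :=
  (hv.differentiableAt.hasFDerivAt.comp_hasDerivAt z₀ hF.differentiableAt.hasDerivAt).deriv

/-- the differential of `u` -/
noncomputable def TorusMapV.du (hu : TorusMapV X Λ u) (x w : EN N) : Fin g → ℂ := fderiv ℂ (hu.lift x) x w

/-- the differential can be computed with every local lift -/
theorem TorusMapV.du_eq (hu : TorusMapV X Λ u) (hΛ : DiscreteSub Λ) {x w : EN N} (hw : Tan X x w) {v : EN N → (Fin g → ℂ)}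
    (hv : AnalyticAt ℂ v x) (hvu : ∀ᶠ y in 𝓝 x, y ∈ X → u y - v y ∈ Λ) : hu.du x w = fderiv ℂ v x w := by
  have hx : x ∈ X := tan_mem hw
  obtain ⟨F, hF, h0, hd⟩ := hw
  subst h0 hd
  have hl := hu.lift_an hx
  have h1 := deriv_eq_of_mem (Λ := Λ) hΛ (h := fun z => hu.lift (F 0) (F z)) (k := fun z => v (F z)) (z₀ := 0)
    (AnalyticAt.comp (g := hu.lift (F 0)) (f := F) hl hF.1) (AnalyticAt.comp (g := v) (f := F) hv hF.1) (by
      have hc : Tendsto F (𝓝 0) (𝓝 (F 0)) := hF.1.continuousAt.tendsto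
      filter_upwards [hc.eventually hvu, hc.eventually (hu.lift_mem hx), hF.2] with z h2 h3 h4
      have h5 := Λ.sub_mem (h2 h4) (h3 h4)
      have h6 : hu.lift (F 0) (F z) - v (F z) = (u (F z) - v (F z)) - (u (F z) - hu.lift (F 0) (F z)) := by abel
      rw [h6]
      exact h5)
  rw [deriv_comp_lift hF.1 hl, deriv_comp_lift hF.1 hv] at h1
  exact h1

/-- the differential along a holomorphic map -/
theorem tan_fderiv {k : ℕ} {φ : (Fin k → ℂ) → EN N} {y : Fin k → ℂ} (hφ : AnalyticAt ℂ φ y) (hX : ∀ᶠ x in 𝓝 y, φ x ∈ X) (w : Fin k → ℂ) :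
    Tan X (φ y) (fderiv ℂ φ y w) := by
  have hl : AnalyticAt ℂ (fun z : ℂ => y + z • w) 0 := by fun_prop
  have h0 : y + (0 : ℂ) • w = y := by simp
  have hφ' : AnalyticAt ℂ φ (y + (0 : ℂ) • w) := by rwa [h0]
  refine ⟨fun z => φ (y + z • w), ⟨AnalyticAt.comp (g := φ) (f := fun z : ℂ => y + z • w) hφ' hl, ?_⟩, by simp, ?_⟩
  · have h1 : Tendsto (fun z : ℂ => y + z • w) (𝓝 0) (𝓝 y) := by
      have := hl.continuousAt.tendsto
      rwa [h0] at this
    exact h1.eventually hX
  · have h1 : HasFDerivAt φ (fderiv ℂ φ y) (y + (0 : ℂ) • w) := by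
      rw [h0]
      exact hφ.differentiableAt.hasFDerivAt
    have h2 : HasDerivAt (fun z : ℂ => y + z • w) w 0 := by
      have h3 : HasDerivAt (fun z : ℂ => z • w) ((1 : ℂ) • w) 0 := (hasDerivAt_id (0 : ℂ)).smul_const w
      rw [one_smul] at h3
      exact h3.const_add y
    exact (h1.comp_hasDerivAt (0 : ℂ) h2).deriv

theorem TorusMapV.du_self (hu : TorusMapV X Λ u) (hΛ : DiscreteSub Λ) (hX : IsCone X) {x : EN N} (hx : x ∈ X) : hu.du x x = 0 := by
  have hl := hu.lift_an hx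
  have h1 : AnalyticAt ℂ (fun z : ℂ => (1 + z) • x) 0 := by fun_prop
  have h00 : (fun z : ℂ => (1 + z) • x) 0 = x := by simp
  have hl' : AnalyticAt ℂ (hu.lift x) ((fun z : ℂ => (1 + z) • x) 0) := by rwa [h00]
  have hne : ∀ᶠ z : ℂ in 𝓝 0, 1 + z ≠ 0 := by
    apply ContinuousAt.eventually_ne
    · fun_prop
    · simp
  have hc : Tendsto (fun z : ℂ => (1 + z) • x) (𝓝 0) (𝓝 x) := by
    have := h1.continuousAt.tendsto
    simpa using this
  have h2 := deriv_eq_of_mem (Λ := Λ) hΛ (h := fun z : ℂ => hu.lift x ((1 + z) • x)) (k := fun _ => u x) (z₀ := 0)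
    (AnalyticAt.comp (g := hu.lift x) (f := fun z : ℂ => (1 + z) • x) hl' h1) analyticAt_const (by
      filter_upwards [hc.eventually (hu.lift_mem hx), hne] with z h3 h4
      have h5 := h3 (hX.smul_mem x hx _ h4)
      have h6 := Λ.sub_mem (hu.smul x hx (1 + z) h4) h5
      have h7 : hu.lift x ((1 + z) • x) - u x = (u ((1 + z) • x) - u x) - (u ((1 + z) • x) - hu.lift x ((1 + z) • x)) := by abel
      rw [h7]
      exact h6)
  rw [deriv_const] at h2
  have h3 : HasDerivAt (fun z : ℂ => (1 + z) • x) x 0 := by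
    have h1 : HasDerivAt (fun h : ℂ => 1 + h) 1 0 := by
      simpa using (hasDerivAt_id (0 : ℂ)).const_add (1 : ℂ)
    have h2 : HasDerivAt (fun h : ℂ => (1 + h) • x) ((1 : ℂ) • x) 0 := h1.smul_const x
    rwa [one_smul] at h2
  have h4 : HasFDerivAt (hu.lift x) (fderiv ℂ (hu.lift x) x) ((fun z : ℂ => (1 + z) • x) 0) := by
    rw [h00]
    exact hl.differentiableAt.hasFDerivAt
  have h5 := (h4.comp_hasDerivAt (0 : ℂ) h3).deriv
  unfold TorusMapV.du
  rw [← h5]
  exact h2

/-- **The components of the differential are symmetric differentials of degree one.** -/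
noncomputable def TorusMapV.symDiff (hu : TorusMapV X Λ u) (hΛ : DiscreteSub Λ) (hX : IsCone X) (j : Fin g) : SymDiff X 1 where
  toFun x w := hu.du x w j
  add_smul x v h a := by
    have h1 : hu.du x (v + a • x) = hu.du x v + a • hu.du x x := by
      unfold TorusMapV.du
      rw [map_add, map_smul]
    rw [h1, hu.du_self hΛ hX (tan_mem h), smul_zero, add_zero]
  smul x v _ a := by
    have h1 : hu.du x (a • v) = a • hu.du x v := by
      unfold TorusMapV.du
      rw [map_smul]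
    rw [h1, pow_one]
    rfl
  scale x v h c hc := by
    have hx := tan_mem h
    have hl := hu.lift_an hx
    have h0 : c⁻¹ • (c • x) = x := by rw [smul_smul, inv_mul_cancel₀ hc, one_smul]
    have h1 : AnalyticAt ℂ (fun y : EN N => c⁻¹ • y) (c • x) := by fun_prop
    have hl' : AnalyticAt ℂ (hu.lift x) ((fun y : EN N => c⁻¹ • y) (c • x)) := by
      show AnalyticAt ℂ (hu.lift x) (c⁻¹ • (c • x))
      rwa [h0]
    have ht : Tendsto (fun y : EN N => c⁻¹ • y) (𝓝 (c • x)) (𝓝 x) := by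
      have := h1.continuousAt.tendsto
      rwa [h0] at this
    have h2 := hu.du_eq hΛ (tan_smul hX h hc) (v := fun y => hu.lift x (c⁻¹ • y))
      (AnalyticAt.comp (g := hu.lift x) (f := fun y : EN N => c⁻¹ • y) hl' h1) (by
        filter_upwards [ht.eventually (hu.lift_mem hx)] with y h3 hy
        have h4 := hX.smul_mem y hy c⁻¹ (inv_ne_zero hc)
        have h5 := Λ.sub_mem (h3 h4) (hu.smul y hy c⁻¹ (inv_ne_zero hc))
        have h6 := Λ.add_mem (h3 h4) (Λ.neg_mem (hu.smul y hy c⁻¹ (inv_ne_zero hc)))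
        have h7 : u y - hu.lift x (c⁻¹ • y) = (u (c⁻¹ • y) - hu.lift x (c⁻¹ • y)) + -(u (c⁻¹ • y) - u y) := by abel
        rw [h7]
        exact h6)
    rw [h2]
    have h8 : HasFDerivAt (fun y : EN N => hu.lift x (c⁻¹ • y)) ((fderiv ℂ (hu.lift x) x).comp (c⁻¹ • ContinuousLinearMap.id ℂ (EN N))) (c • x) := by
      have h9 : HasFDerivAt (hu.lift x) (fderiv ℂ (hu.lift x) x) ((fun y : EN N => c⁻¹ • y) (c • x)) := by
        show HasFDerivAt (hu.lift x) (fderiv ℂ (hu.lift x) x) (c⁻¹ • (c • x))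
        rw [h0]
        exact hl.differentiableAt.hasFDerivAt
      exact h9.comp (c • x) ((hasFDerivAt_id (c • x)).const_smul c⁻¹)
    rw [h8.fderiv]
    show (fderiv ℂ (hu.lift x) x (c⁻¹ • (c • v))) j = (fderiv ℂ (hu.lift x) x v) j
    rw [smul_smul, inv_mul_cancel₀ hc, one_smul]
  analytic k φ p w hφ hφX := by
    have hx : φ p ∈ X := hφX.self_of_nhds
    have hl := hu.lift_an hx
    have hcomp : AnalyticAt ℂ (fun y => hu.lift (φ p) (φ y)) p := AnalyticAt.comp (g := hu.lift (φ p)) (f := φ) hl hφ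
    have h1 : AnalyticAt ℂ (fun y : (Fin k → ℂ) × (Fin k → ℂ) => fderiv ℂ (fun y => hu.lift (φ p) (φ y)) y.1 y.2) (p, w) := by
      have h2 : AnalyticAt ℂ (fun y : (Fin k → ℂ) × (Fin k → ℂ) => fderiv ℂ (fun y => hu.lift (φ p) (φ y)) y.1) (p, w) :=
        AnalyticAt.comp (g := fderiv ℂ (fun y => hu.lift (φ p) (φ y))) (f := fun y : (Fin k → ℂ) × (Fin k → ℂ) => y.1) hcomp.fderiv analyticAt_fst
      exact AnalyticAt.comp (g := fun q : ((Fin k → ℂ) →L[ℂ] (Fin g → ℂ)) × (Fin k → ℂ) => q.1 q.2)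
        (f := fun y : (Fin k → ℂ) × (Fin k → ℂ) => (fderiv ℂ (fun y => hu.lift (φ p) (φ y)) y.1, y.2))
        ((ContinuousLinearMap.id ℂ ((Fin k → ℂ) →L[ℂ] (Fin g → ℂ))).analyticAt_bilinear _) (h2.prod analyticAt_snd)
    have h3 : AnalyticAt ℂ (fun y : (Fin k → ℂ) × (Fin k → ℂ) => (fderiv ℂ (fun y => hu.lift (φ p) (φ y)) y.1 y.2) j) (p, w) :=
      AnalyticAt.comp (g := fun v : Fin g → ℂ => v j) (f := fun y : (Fin k → ℂ) × (Fin k → ℂ) => fderiv ℂ (fun y => hu.lift (φ p) (φ y)) y.1 y.2)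
        ((ContinuousLinearMap.proj (R := ℂ) (φ := fun _ : Fin g => ℂ) j).analyticAt _) h1
    refine h3.congr ?_
    have hφc : Tendsto (fun y : (Fin k → ℂ) × (Fin k → ℂ) => φ y.1) (𝓝 (p, w)) (𝓝 (φ p)) :=
      hφ.continuousAt.tendsto.comp continuousAt_fst.tendsto
    have e1 : ∀ᶠ y : (Fin k → ℂ) × (Fin k → ℂ) in 𝓝 (p, w), AnalyticAt ℂ (hu.lift (φ p)) (φ y.1) := hφc.eventually hl.eventually_analyticAt
    have e2 : ∀ᶠ y : (Fin k → ℂ) × (Fin k → ℂ) in 𝓝 (p, w), ∀ᶠ x in 𝓝 (φ y.1), x ∈ X → u x - hu.lift (φ p) x ∈ Λ :=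
      hφc.eventually (hu.lift_mem hx).eventually_nhds
    have hfst : Tendsto (fun y : (Fin k → ℂ) × (Fin k → ℂ) => y.1) (𝓝 (p, w)) (𝓝 p) := continuousAt_fst.tendsto
    have e3 : ∀ᶠ y : (Fin k → ℂ) × (Fin k → ℂ) in 𝓝 (p, w), AnalyticAt ℂ φ y.1 := hfst.eventually hφ.eventually_analyticAt
    have e4 : ∀ᶠ y : (Fin k → ℂ) × (Fin k → ℂ) in 𝓝 (p, w), ∀ᶠ x in 𝓝 y.1, φ x ∈ X := hfst.eventually hφX.eventually_nhds
    filter_upwards [e1, e2, e3, e4] with y h4 h5 h6 h7
    rw [hu.du_eq hΛ (tan_fderiv h6 h7 y.2) h4 h5]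
    have h8 : HasFDerivAt (fun x => hu.lift (φ p) (φ x)) ((fderiv ℂ (hu.lift (φ p)) (φ y.1)).comp (fderiv ℂ φ y.1)) y.1 :=
      HasFDerivAt.comp (g := hu.lift (φ p)) (f := φ) y.1 h4.differentiableAt.hasFDerivAt h6.differentiableAt.hasFDerivAt
    rw [h8.fderiv]
    rfl

end Pool.Agent.AD

end

section

/-!
# G3 R Max: the maximum

`mf_cont`: from `hP.cont` and the continuity of `deriv h`.
`exists_max`: the function `φ z = (r² - |z|²)² Mf z ² / (A + Lam z)` at the `Ok` points, `φ = 0` at the other points, is upper semicontinuous on `closedBall 0 r` (`closedBall 0 r ⊆ ball 0 1`) and `≥ 0`: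
it is continuous at `Ok` points (at an `Ok` point with `deriv h = 0` we have `Np = 0` also near it); near a point with `Q (F z) = 0` we have `Lam → ∞` on `Ok` points and `Mf` is bounded; near a point with
`Q (F z) ≠ 0`, `p = 0`, `deriv h ≠ 0`: `Np → ∞`; near a point with `p = 0`, `deriv h = 0`: `Mf → 0` (and `Lam ≥ 0`).  So `φ` has a maximum on the compact disc; if it is `0` take `w = 0`
(then `Mf z = 0` at all `Ok` points of the ball), otherwise the maximum point is `Ok` and in the open ball.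
-/

set_option autoImplicit false

open Topology Filter Metric

namespace Pool.Agent.G3

open Pool.Agent.H36.BP (EN fs wd Sub)
open Pool.Agent.H14.PP (IsCone CurveAt Tan)
open Pool.Agent.H62.EF (MN pr)
open Pool.Agent.AD (Vd Chart Charts)
open Pool.Agent.TG (TMap Gd)

variable {N k : ℕ} {X : Set (EN N)} {Λ : AddSubgroup (Vd (k + 1))} {u : EN N → Vd (k + 1)} {D : Set (Vd (k + 1))} {p : EN N → EN N → ℝ} {m d : ℕ} {C : ℝ} {Q : EN N → ℂ}

theorem mf_cont (hP : PS X Λ u D p m C) {U : Set ℂ} (hU : IsOpen U) {F : ℂ → EN N} {h : ℂ → Vd (k + 1)} (hF : Cv X Λ u U F h) (ε : ℝ) :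
    ContinuousOn (Mf p m ε F h) U := by
  have h1 : ContinuousOn (fun z => ‖deriv h z‖) U := (hF.h_diff.deriv hU).continuousOn.norm
  have h2 : ContinuousOn (fun z => pf p F z ^ (1 / (m : ℝ))) U :=
    (hP.cont U F h hU hF).rpow_const fun z _ => Or.inr (by positivity)
  exact h1.sup (continuousOn_const.mul h2)

theorem lam_nonneg (hX : IsCone X) (hQ : QD X Λ u D Q d) {F : ℂ → EN N} {h : ℂ → Vd (k + 1)} {z : ℂ} (hz : F z ∈ X) (h0 : Q (F z) ≠ 0) :
    0 ≤ Lq Q d (F z) ∧ 0 ≤ Np p m F h z ∧ 0 ≤ Lam Q d p m F h z := by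
  have h1 : 0 ≤ Lq Q d (F z) := by
    unfold Lq
    have h2 : Real.log ‖Q (F z)‖ ≤ Real.log (‖F z‖ ^ d) := Real.log_le_log (norm_pos_iff.2 h0) (hQ.bound _ hz)
    rw [Real.log_pow] at h2
    linarith
  have h3 : 0 ≤ Np p m F h z := le_max_left _ _
  refine ⟨h1, h3, ?_⟩
  unfold Lam
  positivity

private theorem Max_np (z : ℂ) (F : ℂ → EN N) (h : ℂ → Vd (k + 1)) :
    Np p m F h z = Real.posLog (‖deriv h z‖ ^ m / pf p F z) := by
  unfold Np
  rw [Real.posLog_apply, ← Real.log_inv, inv_div]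

private theorem Max_cont (hX : IsCone X) (hP : PS X Λ u D p m C) (hQ : QD X Λ u D Q d) {F : ℂ → EN N} {h : ℂ → Vd (k + 1)}
    (hF : Cv X Λ u (ball 0 1) F h) {z : ℂ} (hz : z ∈ ball (0 : ℂ) 1) (h0 : Ok Q p F z) :
    (∀ᶠ w in 𝓝 z, Ok Q p F w) ∧ ContinuousAt (Lam Q d p m F h) z := by
  have hb : ball (0 : ℂ) 1 ∈ 𝓝 z := isOpen_ball.mem_nhds hz
  have hFc : ContinuousAt F z := hF.F_diff.continuousOn.continuousAt hb
  have hQc : ContinuousAt (fun w => Q (F w)) z := ContinuousAt.comp (g := Q) hQ.diff.continuous.continuousAt hFc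
  have hpc : ContinuousAt (pf p F) z := (hP.cont _ F h isOpen_ball hF).continuousAt hb
  have hdc : ContinuousAt (fun w => ‖deriv h w‖) z := (hF.h_diff.deriv isOpen_ball).continuousOn.norm.continuousAt hb
  have hF0 : F z ≠ 0 := fun h => hX.zero_notMem (h ▸ hF.mem z hz)
  refine ⟨?_, ?_⟩
  · filter_upwards [hQc.eventually_ne h0.1, hpc.eventually (lt_mem_nhds h0.2)] with w h1 h2
    exact ⟨h1, h2⟩
  · have h1 : ContinuousAt (fun w => Np p m F h w) z := by
      have h2 : (fun w => Np p m F h w) = fun w => Real.posLog (‖deriv h w‖ ^ m / pf p F w) := funext fun w => Max_np w F h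
      rw [h2]
      exact ContinuousAt.comp (g := Real.posLog) Real.continuous_posLog.continuousAt ((hdc.pow m).div hpc h0.2.ne')
    have h3 : ContinuousAt (fun w => Lq Q d (F w)) z := by
      unfold Lq
      exact (continuousAt_const.mul (hFc.norm.log (norm_ne_zero_iff.2 hF0))).sub (hQc.norm.log (norm_ne_zero_iff.2 h0.1))
    exact h3.add (continuousAt_const.mul h1)

/-- at a point which is not `Ok` the functional tends to infinity or `Mf` to `0` -/
private theorem Max_deg (hX : IsCone X) (hP : PS X Λ u D p m C) (hQ : QD X Λ u D Q d) {F : ℂ → EN N} {h : ℂ → Vd (k + 1)}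
    (hF : Cv X Λ u (ball 0 1) F h) {z : ℂ} (hz : z ∈ ball (0 : ℂ) 1) (h0 : ¬ Ok Q p F z) (h1 : ¬ (pf p F z = 0 ∧ deriv h z = 0)) (B : ℝ) :
    ∀ᶠ w in 𝓝 z, Ok Q p F w → B < Lam Q d p m F h w := by
  have hb : ball (0 : ℂ) 1 ∈ 𝓝 z := isOpen_ball.mem_nhds hz
  have hFc : ContinuousAt F z := hF.F_diff.continuousOn.continuousAt hb
  have hQc : ContinuousAt (fun w => Q (F w)) z := ContinuousAt.comp (g := Q) hQ.diff.continuous.continuousAt hFc
  have hpc : ContinuousAt (pf p F) z := (hP.cont _ F h isOpen_ball hF).continuousAt hb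
  have hdc : ContinuousAt (fun w => ‖deriv h w‖) z := (hF.h_diff.deriv isOpen_ball).continuousOn.norm.continuousAt hb
  have hF0 : F z ≠ 0 := fun h => hX.zero_notMem (h ▸ hF.mem z hz)
  have hd1 : (1 : ℝ) ≤ d := by exact_mod_cast hQ.d_pos
  by_cases hq : Q (F z) = 0
  · have h2 : ContinuousAt (fun w => Real.exp B * ‖Q (F w)‖) z := continuousAt_const.mul hQc.norm
    have h3 : ContinuousAt (fun w => ‖F w‖ ^ d) z := hFc.norm.pow d
    have h4 : Real.exp B * ‖Q (F z)‖ < ‖F z‖ ^ d := by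
      rw [hq, norm_zero, mul_zero]
      exact pow_pos (norm_pos_iff.2 hF0) d
    filter_upwards [h2.eventually_lt h3 h4, hb] with w h5 hw hok
    have h6 : Real.log (Real.exp B * ‖Q (F w)‖) < Real.log (‖F w‖ ^ d) :=
      Real.log_lt_log (mul_pos (Real.exp_pos B) (norm_pos_iff.2 hok.1)) h5
    rw [Real.log_mul (Real.exp_pos B).ne' (norm_ne_zero_iff.2 hok.1), Real.log_exp, Real.log_pow] at h6
    have h7 := (lam_nonneg (p := p) (m := m) (h := h) hX hQ (hF.mem w hw) hok.1).2.1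
    unfold Lam Lq
    have h8 : 0 ≤ (d : ℝ) * Np p m F h w := by positivity
    linarith
  · have hp0 : pf p F z = 0 := by
      by_contra hne
      exact h0 ⟨hq, lt_of_le_of_ne (hP.nonneg _ _) (Ne.symm hne)⟩
    have hd0 : deriv h z ≠ 0 := fun hd => h1 ⟨hp0, hd⟩
    have h2 : ContinuousAt (fun w => Real.exp B * pf p F w) z := continuousAt_const.mul hpc
    have h3 : ContinuousAt (fun w => ‖deriv h w‖ ^ m) z := hdc.pow m
    have h4 : Real.exp B * pf p F z < ‖deriv h z‖ ^ m := by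
      rw [hp0, mul_zero]
      exact pow_pos (norm_pos_iff.2 hd0) m
    filter_upwards [h2.eventually_lt h3 h4, hb] with w h5 hw hok
    have h6 : Real.exp B < ‖deriv h w‖ ^ m / pf p F w := by
      rw [lt_div_iff₀ hok.2]
      exact h5
    have h7 := Real.log_lt_log (Real.exp_pos B) h6
    rw [Real.log_exp] at h7
    have h8 : B < Np p m F h w := by
      rw [Max_np, Real.posLog_apply]
      exact lt_of_lt_of_le h7 (le_max_right _ _)
    have h9 := lam_nonneg (p := p) (m := m) (h := h) hX hQ (hF.mem w hw) hok.1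
    unfold Lam
    nlinarith [h9.1, h9.2.1]

theorem exists_max (hX : IsCone X) (hP : PS X Λ u D p m C) (hQ : QD X Λ u D Q d) {ε A : ℝ} (hε : 0 < ε) (hA : 0 < A) {F : ℂ → EN N} {h : ℂ → Vd (k + 1)}
    (hF : Cv X Λ u (ball 0 1) F h) (h0 : Ok Q p F 0) {r : ℝ} (hr : 0 < r) (hr1 : r < 1) :
    ∃ w ∈ ball (0 : ℂ) r, Ok Q p F w ∧ ∀ z ∈ ball (0 : ℂ) r, Ok Q p F z →
      (r ^ 2 - ‖z‖ ^ 2) ^ 2 * Mf p m ε F h z ^ 2 * (A + Lam Q d p m F h w) ≤ (r ^ 2 - ‖w‖ ^ 2) ^ 2 * Mf p m ε F h w ^ 2 * (A + Lam Q d p m F h z) := by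
  classical
  have hsub : closedBall (0 : ℂ) r ⊆ ball 0 1 := closedBall_subset_ball hr1
  have hbs : ball (0 : ℂ) r ⊆ ball 0 1 := ball_subset_closedBall.trans hsub
  set g : ℂ → ℝ := fun z => (r ^ 2 - ‖z‖ ^ 2) ^ 2 * Mf p m ε F h z ^ 2 with hg
  set φ : ℂ → ℝ := fun z => if Ok Q p F z then g z / (A + Lam Q d p m F h z) else 0 with hφ
  have hgc : ContinuousOn g (ball 0 1) :=
    ((continuousOn_const.sub (continuous_norm.pow 2).continuousOn).pow 2).mul ((mf_cont hP isOpen_ball hF ε).pow 2)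
  have hg0 : ∀ z, 0 ≤ g z := fun z => by positivity
  have hpos : ∀ z ∈ ball (0 : ℂ) 1, Ok Q p F z → 0 < A + Lam Q d p m F h z := fun z hz hok => by
    have := (lam_nonneg (p := p) (m := m) (h := h) hX hQ (hF.mem z hz) hok.1).2.2
    linarith
  have husc : UpperSemicontinuousOn φ (closedBall (0 : ℂ) r) := by
    intro z hz y hy
    have hz1 := hsub hz
    have hb : ball (0 : ℂ) 1 ∈ 𝓝 z := isOpen_ball.mem_nhds hz1
    have hgz : ContinuousAt g z := hgc.continuousAt hb
    refine Filter.Eventually.filter_mono nhdsWithin_le_nhds ?_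
    by_cases hok : Ok Q p F z
    · obtain ⟨h1, h2⟩ := Max_cont hX hP hQ hF hz1 hok
      have h3 : ContinuousAt (fun w => g w / (A + Lam Q d p m F h w)) z :=
        hgz.div (continuousAt_const.add h2) (hpos z hz1 hok).ne'
      have h4 : g z / (A + Lam Q d p m F h z) < y := by
        simpa [hφ, hok] using hy
      filter_upwards [h1, h3.eventually (gt_mem_nhds h4)] with w h5 h6
      simpa [hφ, h5] using h6
    · have hy0 : 0 < y := by simpa [hφ, hok] using hy
      by_cases hd : pf p F z = 0 ∧ deriv h z = 0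
      · have h1 : g z < y * A := by
          have h2 : Mf p m ε F h z = 0 := by
            unfold Mf
            have h3 : (0 : ℝ) ^ (1 / (m : ℝ)) = 0 := Real.zero_rpow (by
              have := hP.m_pos
              positivity)
            rw [hd.1, hd.2, h3]
            simp
          simp only [hg, h2]
          have := mul_pos hy0 hA
          simpa using this
        filter_upwards [hgz.eventually (gt_mem_nhds h1), hb] with w h5 hw
        simp only [hφ]
        split_ifs with hokw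
        · rw [div_lt_iff₀ (hpos w hw hokw)]
          have h6 := (lam_nonneg (p := p) (m := m) (h := h) hX hQ (hF.mem w hw) hokw.1).2.2
          nlinarith [mul_nonneg hy0.le h6]
        · exact hy0
      · have h1 := Max_deg hX hP hQ hF hz1 hok hd ((g z + 1) / y)
        filter_upwards [h1, hgz.eventually (gt_mem_nhds (lt_add_one (g z))), hb] with w h5 h6 hw
        simp only [hφ]
        split_ifs with hokw
        · rw [div_lt_iff₀ (hpos w hw hokw)]
          have h7 := h5 hokw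
          rw [div_lt_iff₀ hy0] at h7
          nlinarith [mul_pos hy0 hA]
        · exact hy0
  obtain ⟨w, hw, hmax⟩ := UpperSemicontinuousOn.exists_isMaxOn ⟨0, mem_closedBall_self hr.le⟩ (isCompact_closedBall (0 : ℂ) r) husc
  have hle : ∀ z ∈ closedBall (0 : ℂ) r, φ z ≤ φ w := fun z hz => hmax hz
  have hφ0 : 0 ≤ φ w := by
    simp only [hφ]
    split_ifs with hok
    · exact div_nonneg (hg0 w) (hpos w (hsub hw) hok).le
    · exact le_rfl
  rcases hφ0.eq_or_lt with he | hlt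
  · refine ⟨0, mem_ball_self hr, h0, fun z hz hok => ?_⟩
    have h1 := hle z (ball_subset_closedBall hz)
    rw [← he] at h1
    have h2 : g z / (A + Lam Q d p m F h z) ≤ 0 := by simpa [hφ, hok] using h1
    have h3 := hpos z (hbs hz) hok
    have h4 : g z ≤ 0 := by
      rw [div_le_iff₀ h3, zero_mul] at h2
      exact h2
    have h5 : g z = 0 := le_antisymm h4 (hg0 z)
    have h6 : 0 ≤ g 0 * (A + Lam Q d p m F h z) := mul_nonneg (hg0 0) h3.le
    simp only [hg] at h5 h6
    rw [h5, zero_mul]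
    exact h6
  · have hokw : Ok Q p F w := by
      by_contra hn
      simp [hφ, hn] at hlt
    have hφw : φ w = g w / (A + Lam Q d p m F h w) := by simp [hφ, hokw]
    have hpw := hpos w (hsub hw) hokw
    have hgw : 0 < g w := by
      rw [hφw] at hlt
      by_contra hn
      have : g w = 0 := le_antisymm (not_lt.1 hn) (hg0 w)
      rw [this, zero_div] at hlt
      exact lt_irrefl _ hlt
    have hwb : w ∈ ball (0 : ℂ) r := by
      rw [mem_ball_zero_iff]
      rw [mem_closedBall_zero_iff] at hw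
      refine lt_of_le_of_ne hw fun he => ?_
      simp only [hg, he] at hgw
      simp at hgw
    refine ⟨w, hwb, hokw, fun z hz hok => ?_⟩
    have h1 := hle z (ball_subset_closedBall hz)
    have hφz : φ z = g z / (A + Lam Q d p m F h z) := by simp [hφ, hok]
    rw [hφw, hφz, div_le_div_iff₀ (hpos z (hbs hz) hok) hpw] at h1
    exact h1

end Pool.Agent.G3

end
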