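import Pool.Agent.H94.G4T.M46
import Pool.Agent.H94.G4T.M51
import Pool.Agent.H94.G4T.M54
import Pool.Agent.H94.G4T.M92
import Pool.Agent.H94.G4T.M93
import Pool.Agent.H94.G4T.M95

/-! The parts of this file: H13.CV.Deg, H13.CV.CaseA, G4.C.PoB, G4.R.StepA. -/

section

/-!
# CV Deg: the degree of the divisor `x = 0`

`≤`: `sum_le`.  `≥`: let `w` be a basis as in `exists_locB`, `W` the span of the `w i` over `ℂ`: it has dimension `n = finrank L K` (the `w i` are linearly independent over `L`, so over `ℂ`: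
`LinearIndependent.restrict_scalars`), and `W ≤ ordGe E 0` for the places over `x = 0`.  `finrank_le_steps` with `d = 0`, `e E = (oz E x).toNat`: it suffices that `W ⊓ ⨅ E ∈ T, ordGe E (oz E x)` is zero.  Let
`f = ∑ γ i • w i` be in it.  Then `RegLoc x (f / x)`, and its coordinates are `γ i / x`; so `0 ≤ ord (γ i / x)` at the places over `x = 0`; there is one (`exists_place_over`), and if `γ i ≠ 0` then
`ord (γ i / x) = - ord x < 0`.  So all `γ i = 0`.
`degree_inf`: `degree_eq` for `x⁻¹` (`Gen.inv`).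
`adjoin_eq_top_of_simple_pole`: `f` is transcendental (`tr_of_oz_ne`); `degree_inf` for `x = f`, `L = ℂ(f)`, `T = {E}`: `finrank L K = 1`, so `L = ⊤`.
`adjoin_eq_top_of_double_pole`: `finrank ℂ(u) K = 2` (`degree_inf`).  The elements `c ≠ 0` of `ℂ(u)` have even order at `E` (`exists_zpow` for `x = u⁻¹`: `oz E c = k * 2`), so `v ∉ ℂ(u)`.
`ℂ(u) < ℂ(u, v) ≤ K` and `finrank ℂ(u) K = 2`, so `ℂ(u, v) = K` (`1, v` are linearly independent over `ℂ(u)`, so they are a basis of `K` over `ℂ(u)`; or multiplicativity of degrees).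
-/

set_option autoImplicit false

open Pool.Agent.H23.Fano (PrimeDivisorOver Form regularForms)

noncomputable section

namespace Pool.Agent.H13.CV

variable {K : Type} [Field K] [Algebra ℂ K] {L : IntermediateField ℂ K} {x : K}

theorem degree_eq (hK : CurveField K) (hL : Gen L x) [FiniteDimensional L K] (T : Finset (Place K)) (hT : ∀ E, E ∈ T ↔ 0 < E.ord x) :
    ∑ E ∈ T, oz E x = (Module.finrank L K : ℤ) := by
  classical
  have hx0 : x ≠ 0 := hL.ne_zero
  apply le_antisymm (sum_le hL T (fun E hE => (hT E).1 hE))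
  obtain ⟨w, hw⟩ := exists_locB hK hL
  have hinj : Function.Injective (fun r : ℂ => r • (1 : L)) := by
    intro a b hab
    have h1 : algebraMap ℂ L a = algebraMap ℂ L b := by
      simpa [Algebra.algebraMap_eq_smul_one] using hab
    exact (algebraMap ℂ L).injective h1
  have hli : LinearIndependent ℂ (w : Fin (Module.finrank L K) → K) := w.linearIndependent.restrict_scalars hinj
  have hWdim : Module.finrank ℂ (Submodule.span ℂ (Set.range w)) = Module.finrank L K := by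
    rw [finrank_span_eq_card hli, Fintype.card_fin]
  have : FiniteDimensional ℂ (Submodule.span ℂ (Set.range w)) := FiniteDimensional.span_of_finite ℂ (Set.finite_range w)
  have hW0 : ∀ E ∈ T, Submodule.span ℂ (Set.range w) ≤ ordGe E 0 := by
    intro E hE
    rw [Submodule.span_le]
    rintro _ ⟨i, rfl⟩
    exact hw.basis_regLoc i E ((hT E).1 hE)
  have hpos : ∀ E ∈ T, 0 < oz E x := by
    intro E hE
    rcases pos_iff.1 ((hT E).1 hE) with h | h
    · exact absurd h hx0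
    · exact h
  have h1 := finrank_le_steps hK (Submodule.span ℂ (Set.range w)) T (fun _ => 0) (fun E => (oz E x).toNat) hW0
  have hbot : (Submodule.span ℂ (Set.range w) ⊓ ⨅ E ∈ T, ordGe E ((0 : ℤ) + ((oz E x).toNat : ℤ)) : Submodule ℂ K) = ⊥ := by
    rw [eq_bot_iff]
    intro f hf
    obtain ⟨hf1, hf2⟩ := Submodule.mem_inf.1 hf
    obtain ⟨γ, hγ⟩ := (Submodule.mem_span_range_iff_exists_fun ℂ).1 hf1
    have hf3 : ∀ E ∈ T, ((oz E x : ℤ) : WithTop ℤ) ≤ E.ord f := by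
      intro E hE
      have h2 := (Submodule.mem_iInf _).1 hf2 E
      have h3 := (Submodule.mem_iInf _).1 h2 hE
      rw [mem_ordGe, zero_add, Int.toNat_of_nonneg (hpos E hE).le] at h3
      exact h3
    have hreg : RegLoc x (f / x) := by
      intro E hE
      by_cases hf0 : f = 0
      · rw [hf0, zero_div, E.ord.map_zero]
        exact le_top
      · have h4 := hf3 E ((hT E).2 hE)
        rw [le_ord_iff] at h4
        rcases h4 with h4 | h4
        · exact absurd h4 hf0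
        · rw [nonneg_iff]
          right
          rw [oz_div E hf0 hx0]
          omega
    let xi : L := ⟨x, hL.mem⟩
    have hcoord : w.repr (f / x) = Finsupp.equivFunOnFinite.symm (fun i => xi⁻¹ * algebraMap ℂ L (γ i)) := by
      have h5 : f / x = ∑ i, (xi⁻¹ * algebraMap ℂ L (γ i)) • w i := by
        rw [← hγ, Finset.sum_div]
        refine Finset.sum_congr rfl fun i _ => ?_
        rw [Algebra.smul_def, Algebra.smul_def]
        have h6 : algebraMap L K (xi⁻¹ * algebraMap ℂ L (γ i)) = x⁻¹ * algebraMap ℂ K (γ i) := by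
          rw [map_mul, map_inv₀]
          rfl
        rw [h6]
        field_simp
      rw [h5]
      ext i
      rw [w.repr_sum_self]
      rfl
    have hall : ∀ i, γ i = 0 := by
      intro i
      by_contra hne
      obtain ⟨E, hE⟩ := exists_place_over hK hL.tr
      have h7 := (hw (f / x)).1 hreg i E hE
      rw [hcoord] at h7
      have h8 : ((Finsupp.equivFunOnFinite.symm (fun i => xi⁻¹ * algebraMap ℂ L (γ i)) i : L) : K) = algebraMap ℂ K (γ i) / x := by
        show (((xi⁻¹ * algebraMap ℂ L (γ i) : L)) : K) = _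
        have h9 : (((xi⁻¹ * algebraMap ℂ L (γ i) : L)) : K) = x⁻¹ * algebraMap ℂ K (γ i) := rfl
        rw [h9]
        field_simp
      rw [h8] at h7
      have hc0 : algebraMap ℂ K (γ i) ≠ 0 := by
        intro h
        exact hne ((map_eq_zero _).1 h)
      have hp := hpos E ((hT E).2 hE)
      rcases nonneg_iff.1 h7 with h10 | h10
      · rw [div_eq_zero_iff] at h10
        rcases h10 with h10 | h10
        · exact hc0 h10
        · exact hx0 h10
      · rw [oz_div E hc0 hx0, oz_const] at h10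
        omega
    rw [Submodule.mem_bot, ← hγ]
    refine Finset.sum_eq_zero fun i _ => ?_
    rw [hall i, zero_smul]
  have h11 : Module.finrank L K ≤ ∑ E ∈ T, (oz E x).toNat := by
    rw [hbot, finrank_bot, zero_add, hWdim] at h1
    exact h1
  have h13 : ∑ E ∈ T, oz E x = ((∑ E ∈ T, (oz E x).toNat : ℕ) : ℤ) := by
    rw [Nat.cast_sum]
    refine Finset.sum_congr rfl fun E hE => ?_
    rw [Int.toNat_of_nonneg (hpos E hE).le]
  rw [h13]
  exact_mod_cast h11

theorem degree_inf (hK : CurveField K) (hL : Gen L x) [FiniteDimensional L K] (T : Finset (Place K)) (hT : ∀ E, E ∈ T ↔ E.ord x < 0) :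
    ∑ E ∈ T, -oz E x = (Module.finrank L K : ℤ) := by
  have h := degree_eq hK hL.inv T (fun E => by rw [hT, inv_pos_iff hL.ne_zero])
  rw [← h]
  exact Finset.sum_congr rfl fun E _ => (oz_inv E x).symm

/-- a function whose only pole is a simple pole generates the field -/
theorem adjoin_eq_top_of_simple_pole (hK : CurveField K) {f : K} {E : Place K} (hE : oz E f = -1) (h : ∀ E' : Place K, E' ≠ E → 0 ≤ E'.ord f) :
    IntermediateField.adjoin ℂ {f} = ⊤ := by
  classical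
  have htr : Transcendental ℂ f := tr_of_oz_ne (E := E) (by omega)
  have := hK.fin f htr
  have hG : Gen (IntermediateField.adjoin ℂ {f}) f := ⟨htr, rfl⟩
  have h1 := degree_inf hK hG {E} (fun E' => by
    rw [Finset.mem_singleton]
    constructor
    · rintro rfl
      rw [neg_iff]
      omega
    · intro h2
      by_contra hne
      exact absurd (h E' hne) (not_le.2 h2))
  rw [Finset.sum_singleton, hE] at h1
  rw [← IntermediateField.finrank_eq_one_iff_eq_top]
  omega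

/-- a function `u` with a double pole at `E` and no other poles, and a function `v` with odd order at `E`, generate the field -/
theorem adjoin_eq_top_of_double_pole (hK : CurveField K) {u v : K} {E : Place K} (hE : oz E u = -2) (h : ∀ E' : Place K, E' ≠ E → 0 ≤ E'.ord u) (hv : Odd (oz E v)) :
    v ∉ IntermediateField.adjoin ℂ {u} ∧ IntermediateField.adjoin ℂ {u, v} = ⊤ := by
  classical
  have htr : Transcendental ℂ u := tr_of_oz_ne (E := E) (by omega)
  have := hK.fin u htr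
  have hG : Gen (IntermediateField.adjoin ℂ {u}) u := ⟨htr, rfl⟩
  have hneg : E.ord u < 0 := by
    rw [neg_iff]
    omega
  have h1 := degree_inf hK hG {E} (fun E' => by
    rw [Finset.mem_singleton]
    constructor
    · rintro rfl
      exact hneg
    · intro h2
      by_contra hne
      exact absurd (h E' hne) (not_le.2 h2))
  rw [Finset.sum_singleton, hE] at h1
  have hv0 : v ≠ 0 := by
    rintro rfl
    rw [oz_zero] at hv
    exact absurd hv (by decide)
  have hvL : v ∉ IntermediateField.adjoin ℂ {u} := by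
    intro hmem
    obtain ⟨k, hk⟩ := exists_zpow hG.inv hmem hv0
    have h2 := hk E ((inv_pos_iff hG.ne_zero).2 hneg)
    rw [oz_inv, hE] at h2
    rw [h2] at hv
    obtain ⟨m, hm⟩ := hv
    omega
  refine ⟨hvL, ?_⟩
  have hli : LinearIndependent (IntermediateField.adjoin ℂ {u}) ![(1 : K), v] := by
    rw [LinearIndependent.pair_iff]
    intro s t hst
    have ht : t = 0 := by
      by_contra ht
      apply hvL
      have h3 : v = ((-s / t : IntermediateField.adjoin ℂ {u}) : K) := by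
        have ht' : (t : K) ≠ 0 := by
          intro h4
          exact ht (Subtype.ext h4)
        have h5 : (s : K) + (t : K) * v = 0 := by
          have h6 := hst
          rw [Algebra.smul_def, Algebra.smul_def, mul_one] at h6
          exact h6
        have h7 : ((-s / t : IntermediateField.adjoin ℂ {u}) : K) = -(s : K) / (t : K) := rfl
        rw [h7, eq_div_iff ht']
        linear_combination h5
      rw [h3]
      exact Subtype.mem _
    refine ⟨?_, ht⟩
    rw [ht, zero_smul, add_zero, Algebra.smul_def, mul_one] at hst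
    exact Subtype.ext hst
  have hspan := hli.span_eq_top_of_card_eq_finrank' (by
    rw [Fintype.card_fin]
    omega)
  rw [eq_top_iff]
  intro y _
  have hy : y ∈ Submodule.span (IntermediateField.adjoin ℂ {u}) (Set.range ![(1 : K), v]) := by
    rw [hspan]
    exact Submodule.mem_top
  rw [Matrix.range_cons, Matrix.range_cons, Matrix.range_empty, Set.union_empty, ← Set.insert_eq, Submodule.mem_span_pair] at hy
  obtain ⟨a, b, hab⟩ := hy
  have hle : IntermediateField.adjoin ℂ {u} ≤ IntermediateField.adjoin ℂ {u, v} :=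
    IntermediateField.adjoin.mono ℂ _ _ (by simp)
  have hvm : v ∈ IntermediateField.adjoin ℂ {u, v} := IntermediateField.subset_adjoin ℂ _ (by simp)
  rw [← hab, Algebra.smul_def, Algebra.smul_def, mul_one]
  exact add_mem (hle a.2) (mul_mem (hle b.2) hvm)

end Pool.Agent.H13.CV

end
end

section

/-!
# CV CaseA: functions with a simple pole

`top_of_dv_one`: `f` has a pole (`const_of_no_pole`), so `oz E f = - 1` and there are no other poles: `adjoin_eq_top_of_simple_pole`.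
`exists_not_const`: the constants form a subspace of dimension `1`, it does not contain `W`.
-/

set_option autoImplicit false

open Pool.Agent.H23.Fano (PrimeDivisorOver Form regularForms)

noncomputable section

namespace Pool.Agent.H13.CV

variable {K : Type} [Field K] [Algebra ℂ K]

/-- a non-constant function with at most a simple pole at `E` generates the field -/
theorem top_of_dv_one (hK : CurveField K) {E : Place K} {f : K} (hf : f ∈ LD (dv E 1)) (hc : ∀ c : ℂ, f ≠ algebraMap ℂ K c) :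
    IntermediateField.adjoin ℂ {f} = ⊤ := by
  have hf' : ∀ E' : Place K, ((-(dv E 1 E') : ℤ) : WithTop ℤ) ≤ E'.ord f := by
    intro E'
    have h1 := (Submodule.mem_iInf _).mp hf E'
    exact h1
  have hoth : ∀ E' : Place K, E' ≠ E → 0 ≤ E'.ord f := by
    intro E' hE'
    have h1 := hf' E'
    unfold dv at h1
    rw [if_neg hE', neg_zero] at h1
    exact h1
  have hE1 : ((-1 : ℤ) : WithTop ℤ) ≤ E.ord f := by
    have h1 := hf' E
    unfold dv at h1
    rw [if_pos rfl] at h1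
    exact h1
  have hneg : E.ord f < 0 := by
    by_contra h
    rw [not_lt] at h
    obtain ⟨c, hc'⟩ := const_of_no_pole hK (f := f) (fun E' => by
      by_cases hE' : E' = E
      · rw [hE']
        exact h
      · exact hoth E' hE')
    exact hc c hc'
  refine adjoin_eq_top_of_simple_pole hK (E := E) ?_ hoth
  unfold oz
  have hne : E.ord f ≠ ⊤ := by
    intro h
    rw [h] at hneg
    exact absurd hneg (not_lt.mpr le_top)
  obtain ⟨a, ha⟩ := WithTop.ne_top_iff_exists.mp hne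
  rw [← ha] at hneg hE1 ⊢
  have h1 : a < 0 := by exact_mod_cast hneg
  have h2 : -1 ≤ a := by exact_mod_cast hE1
  have h3 : a = -1 := by omega
  rw [h3]
  rfl

theorem exists_not_const {W : Submodule ℂ K} [FiniteDimensional ℂ W] (h : 2 ≤ Module.finrank ℂ W) : ∃ f ∈ W, ∀ c : ℂ, f ≠ algebraMap ℂ K c := by
  by_contra hcon
  push Not at hcon
  have hle : W ≤ Submodule.span ℂ {(1 : K)} := by
    intro f hf
    obtain ⟨c, hc⟩ := hcon f hf
    rw [Submodule.mem_span_singleton]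
    exact ⟨c, by rw [hc, Algebra.smul_def, mul_one]⟩
  have h1 := Submodule.finrank_mono hle
  have h2 : Module.finrank ℂ (Submodule.span ℂ {(1 : K)}) ≤ 1 := by
    have := finrank_span_le_card (R := ℂ) ({(1 : K)} : Set K)
    simpa using this
  omega

end Pool.Agent.H13.CV

end
end

section

/-!
# G4 C PoB: the zeros of the polynomials `R i` along the curves

`TDat.lg`: the geometry of the lines of direction `a` (`G4/A/Defs`, for `exists_lc`, i.e. `LC.circ`: small circles over `Gd D δ'`).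
`alg_lb`: `R i` homogeneous of degree `e` without common zero outside `D`.  Let `F ∈ Gc y`, `z₀ : ℂ`; `LC.circ` with `η = 1/8` gives `δ'` (independent of `y`, `z₀`) and `z₁`, `‖z₁ - z₀‖ < 1/8`, `y + z₁ a ∈ Gd D δ'`.  Normalised lift `G` of the curve on
`ball z₀ 2` (`S.nl`, in `Hc X Λ u a y`): `‖G‖ ≤ 1`, `c ≤ ‖G z₁‖`, `G z ∈ X`.  By compactness of `X ∩ sphere 0 1 ∩ {x | u x ∈ Gd D δ' + Λ}` (a sequence / `TG/Gd`: `compact_unit`; `u x - y' ∈ Λ`, `y'` in a compact set `closedBall 0 R ∩ Gd D δ'`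
modulo `Λ`) some `R i` satisfies `c₁ ‖x‖ ^ e ≤ ‖R i x‖` for the `x ∈ X` over `Gd D δ'`; `‖R i‖ ≤ B` on `closedBall 0 1`.  So `ord_lb` (file `PoA`, here `ord_lb'` as a hypothesis free lemma: import `PoA` when it is there) for
`f = R i ∘ G`: `c' ‖z - z₀‖ ^ M ≤ ‖R i (G z)‖`, and `F z = μ(z) • G z`, `‖R i (F z)‖ = ‖μ z‖ ^ e ‖R i (G z)‖ ≥ (‖F z‖ / ‖G z‖) ^ e … ≥ ‖F z‖ ^ e * …`, with `‖F z‖` bounded below near `z₀` (`‖G z‖ ≤ 1`).
-/

set_option autoImplicit false

open Topology Filter Metric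

namespace Pool.Agent.G4.C

open Pool.Agent.H36.BP (EN fs wd)
open Pool.Agent.H14.PP (IsCone)
open Pool.Agent.H62.EF (MN pr)
open Pool.Agent.AD (Vd Chart Charts)
open Pool.Agent.TG (TMap Lat Str ms tl Gd)
open Pool.Agent.G3.A (Tb Hc NL)
open Pool.Agent.G3.C

variable {N k : ℕ} {X : Set (EN N)} {Λ : AddSubgroup (Vd (k + 1))} {u : EN N → Vd (k + 1)} {ν a b : Vd (k + 1)} {E : Submodule ℝ (Vd (k + 1))}
  {D Bad : Set (Vd (k + 1))} {SS : Set (Vd (k + 1) → MN N)}

theorem TDat.lg (S : TDat X Λ u a ν b E D Bad SS) (ha : ‖a‖ = 1) : Pool.Agent.G4.A.LG Λ D Bad a where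
  norm := ha
  lat := S.lat
  D_closed := S.D_closed
  D_inv := S.D_inv
  bad_sub := S.bad_sub
  bad_inv := S.bad_inv
  iso := fun y => S.iso y 0
  few := S.few

/-- small circles at every scale -/
theorem TDat.circ (S : TDat X Λ u a ν b E D Bad SS) (ha : ‖a‖ = 1) {η : ℝ} (hη : 0 < η) :
    ∃ δ : ℝ, 0 < δ ∧ ∀ y : Vd (k + 1), ∃ r : ℝ, 0 < r ∧ r < η ∧ ∀ z : ℂ, ‖z‖ = r → y + z • a ∈ Gd D δ := by
  obtain ⟨δ₀, h0, h⟩ := Pool.Agent.G4.A.exists_lc (S.lg ha) (ρ := 1 / 8) (by norm_num) le_rfl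
  exact (h δ₀ h0 le_rfl).circ η hη

/-- compactness: over the points of distance at least `δ` from `D` one of the `R i` is bounded below on the unit sphere -/
private theorem PoB_cpt (hX : IsCone X) (hu : TMap X Λ u) (hΛ : Lat Λ) (hD : ∀ y ∈ D, ∀ l ∈ Λ, y + l ∈ D) {δ : ℝ} (hδ : 0 < δ) {r : ℕ} {R : Fin r → EN N → ℂ}
    (hR : ∀ i, Differentiable ℂ (R i)) (hz : ∀ y ∉ D, ∀ x ∈ X, u x - y ∈ Λ → ∃ i, R i x ≠ 0) :
    ∃ c : ℝ, 0 < c ∧ ∀ x ∈ X, ‖x‖ = 1 → ∀ y ∈ Gd D δ, u x - y ∈ Λ → ∃ i, c ≤ ‖R i x‖ := by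
  obtain ⟨Rb, hRb, hcov⟩ := hΛ.cpt
  by_contra hcon
  push Not at hcon
  have h1 : ∀ n : ℕ, ∃ p : EN N × Vd (k + 1), p ∈ (X ∩ sphere (0 : EN N) 1) ×ˢ (closedBall (0 : Vd (k + 1)) Rb) ∧ p.2 ∈ Gd D δ ∧ u p.1 - p.2 ∈ Λ ∧
      ∀ i, ‖R i p.1‖ < 1 / ((n : ℝ) + 1) := by
    intro n
    obtain ⟨x, hx, hx1, y, hy, hxy, hi⟩ := hcon (1 / ((n : ℝ) + 1)) (by positivity)
    obtain ⟨l, hl, hlR⟩ := hcov y
    refine ⟨(x, y - l), ⟨⟨hx, mem_sphere_zero_iff_norm.2 hx1⟩, by rwa [mem_closedBall, dist_zero_right]⟩, ?_, ?_, hi⟩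
    · intro b hb
      have h2 := hy _ (hD b hb l hl)
      have e : y - (b + l) = y - l - b := by abel
      rwa [e] at h2
    · have e : u x - (y - l) = u x - y + l := by abel
      show u x - (y - l) ∈ Λ
      rw [e]
      exact Λ.add_mem hxy hl
  choose p hp1 hp2 hp3 hp4 using h1
  have hK : IsCompact ((X ∩ sphere (0 : EN N) 1) ×ˢ (closedBall (0 : Vd (k + 1)) Rb)) := (Pool.Agent.TG.compact_unit hX).prod (isCompact_closedBall 0 Rb)
  obtain ⟨q, hq, σ, hσ, hlim⟩ := hK.tendsto_subseq hp1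
  have hl1 : Tendsto (fun n => (p (σ n)).1) atTop (𝓝 q.1) := (continuous_fst.tendsto q).comp hlim
  have hl2 : Tendsto (fun n => (p (σ n)).2) atTop (𝓝 q.2) := (continuous_snd.tendsto q).comp hlim
  have hq1 : q.1 ∈ X := hq.1.1
  have h2 : u q.1 - q.2 ∈ Λ := Pool.Agent.TG.lim_mem hΛ hu hq1 hl1 hl2 (Eventually.of_forall fun n => ⟨(hp1 (σ n)).1.1, hp3 (σ n)⟩)
  have h3 : q.2 ∉ D := by
    intro h
    have h4 : δ ≤ ‖q.2 - q.2‖ := ge_of_tendsto (hl2.sub_const q.2).norm (Eventually.of_forall fun n => hp2 (σ n) _ h)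
    rw [sub_self, norm_zero] at h4
    linarith
  obtain ⟨i, hi⟩ := hz q.2 h3 q.1 hq1 h2
  apply hi
  have h4 : Tendsto (fun n => ‖R i (p (σ n)).1‖) atTop (𝓝 ‖R i q.1‖) := (((hR i).continuous.tendsto q.1).comp hl1).norm
  have h5 : Tendsto (fun n => 1 / (((σ n : ℕ) : ℝ) + 1)) atTop (𝓝 0) := tendsto_one_div_add_atTop_nhds_zero_nat.comp hσ.tendsto_atTop
  have h6 := le_of_tendsto_of_tendsto' h4 h5 fun n => (hp4 (σ n) i).le
  exact norm_le_zero_iff.1 h6

private theorem PoB_bd {r : ℕ} {R : Fin r → EN N → ℂ} (hR : ∀ i, Differentiable ℂ (R i)) : ∃ B : ℝ, 0 < B ∧ ∀ i, ∀ x : EN N, ‖x‖ ≤ 1 → ‖R i x‖ ≤ B := by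
  have h : ∀ i, ∃ B : ℝ, ∀ x ∈ closedBall (0 : EN N) 1, ‖R i x‖ ≤ B := fun i => (isCompact_closedBall 0 1).exists_bound_of_continuousOn (hR i).continuous.continuousOn
  choose B hB using h
  refine ⟨1 + ∑ i, |B i|, by positivity, fun i x hx => ?_⟩
  have h1 := hB i x (by rwa [mem_closedBall, dist_zero_right])
  have h2 : |B i| ≤ ∑ i, |B i| := Finset.single_le_sum (f := fun i => |B i|) (fun j _ => abs_nonneg _) (Finset.mem_univ i)
  linarith [le_abs_self (B i)]

theorem alg_lb (S : TDat X Λ u a ν b E D Bad SS) (ha : ‖a‖ = 1) {r e : ℕ} {R : Fin r → EN N → ℂ} (hR : ∀ i, Differentiable ℂ (R i)) (hh : ∀ i (c : ℂ) x, R i (c • x) = c ^ e * R i x)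
    (hz : ∀ y ∉ D, ∀ x ∈ X, u x - y ∈ Λ → ∃ i, R i x ≠ 0) :
    ∃ M : ℕ, ∀ (y : Vd (k + 1)), ∀ F ∈ Gc X Λ u a y, ∀ z₀ : ℂ, ∃ (i : Fin r) (c : ℝ), 0 < c ∧ ∀ᶠ z in 𝓝[≠] z₀, c * ‖z - z₀‖ ^ M ≤ ‖R i (F z)‖ := by
  obtain ⟨δ, hδ, hcirc⟩ := S.circ ha (η := 1 / 8) (by norm_num)
  obtain ⟨c₀, hc₀, hnl⟩ := S.nl δ hδ
  obtain ⟨c₁, hc₁, hcp⟩ := PoB_cpt S.cone S.tor S.lat S.D_inv hδ hR hz
  obtain ⟨B, hB, hBd⟩ := PoB_bd hR
  have hcc : 0 < c₁ * c₀ ^ e := by positivity
  obtain ⟨M, hM⟩ : ∃ M : ℕ, B < c₁ * c₀ ^ e * 16 ^ (M + 1) := by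
    obtain ⟨n, hn⟩ := pow_unbounded_of_one_lt (B / (c₁ * c₀ ^ e)) (show (1 : ℝ) < 16 by norm_num)
    refine ⟨n, ?_⟩
    rw [div_lt_iff₀ hcc] at hn
    have h1 : (16 : ℝ) ^ n ≤ 16 ^ (n + 1) := pow_le_pow_right₀ (by norm_num) (Nat.le_succ n)
    calc B < 16 ^ n * (c₁ * c₀ ^ e) := hn
      _ ≤ 16 ^ (n + 1) * (c₁ * c₀ ^ e) := mul_le_mul_of_nonneg_right h1 hcc.le
      _ = _ := mul_comm _ _
  refine ⟨M, fun y F hF z₀ => ?_⟩
  obtain ⟨ρ, hρ, hρ8, hρc⟩ := hcirc (y + z₀ • a)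
  obtain ⟨z₁, hz₁⟩ : ∃ z₁ : ℂ, z₁ = z₀ + (ρ : ℂ) := ⟨_, rfl⟩
  have hz1n : ‖z₁ - z₀‖ = ρ := by
    rw [hz₁, add_sub_cancel_left, Complex.norm_real, Real.norm_of_nonneg hρ.le]
  have hz1g : y + z₁ • a ∈ Gd D δ := by
    have h1 := hρc (ρ : ℂ) (by rw [Complex.norm_real, Real.norm_of_nonneg hρ.le])
    have e1 : y + z₀ • a + (ρ : ℂ) • a = y + z₁ • a := by rw [hz₁, add_smul, add_assoc]
    rwa [e1] at h1
  obtain ⟨G, hGd, hG, hGc⟩ := hnl y (fun z => pr (F z)) ⟨F, hF, rfl⟩ z₀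
  have hz1b : z₁ ∈ ball z₀ 2 := by
    rw [mem_ball, dist_eq_norm, hz1n]
    linarith
  have hG1 : c₀ ≤ ‖G z₁‖ := hGc z₁ (by
    rw [mem_closedBall, dist_eq_norm, hz1n]
    linarith) hz1g
  obtain ⟨hF1, hF2, hF3⟩ := hF
  -- the factor
  have hfac : ∀ z ∈ ball z₀ 2, ∃ μ : ℂ, μ ≠ 0 ∧ F z = μ • G z := by
    intro z hz
    obtain ⟨h1, h2, -⟩ := hG z hz
    obtain ⟨c, hc, h3⟩ := (Pool.Agent.H62.EF.pr_eq_iff (Pool.Agent.TG.ne_zero S.cone h1) (Pool.Agent.TG.ne_zero S.cone (hF2 z))).1 h2.symm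
    refine ⟨c⁻¹, inv_ne_zero hc, ?_⟩
    rw [h3, smul_smul, inv_mul_cancel₀ hc, one_smul]
  have hX1 : G z₁ ∈ X := (hG z₁ hz1b).1
  have hu1 : u (G z₁) - (y + z₁ • a) ∈ Λ := by
    obtain ⟨μ, hμ, h3⟩ := hfac z₁ hz1b
    have h4 : G z₁ = μ⁻¹ • F z₁ := by rw [h3, smul_smul, inv_mul_cancel₀ hμ, one_smul]
    rw [h4]
    exact Pool.Agent.TG.smul_mem_lat S.tor (hF2 z₁) (hF3 z₁) (inv_ne_zero hμ)
  obtain ⟨c', hc', hc'X, hc'1⟩ := Pool.Agent.TG.exists_unit S.cone hX1
  rw [mem_sphere_zero_iff_norm] at hc'1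
  obtain ⟨i, hi⟩ := hcp _ hc'X hc'1 _ hz1g (Pool.Agent.TG.smul_mem_lat S.tor hX1 hu1 hc')
  have hlow : c₁ * c₀ ^ e ≤ ‖R i (G z₁)‖ := by
    rw [hh, norm_mul, norm_pow] at hi
    rw [norm_smul] at hc'1
    have h5 : ‖G z₁‖ ^ e * (‖c'‖ ^ e * ‖R i (G z₁)‖) = ‖R i (G z₁)‖ := by
      rw [← mul_assoc, ← mul_pow, mul_comm ‖G z₁‖, hc'1, one_pow, one_mul]
    rw [← h5, mul_comm c₁]
    exact mul_le_mul (pow_le_pow_left₀ hc₀.le hG1 _) hi hc₁.le (by positivity)
  obtain ⟨c₂, hc₂, hev⟩ := ord_lb (f := fun z => R i (G z)) (z₀ := z₀) (z₁ := z₁) (B := B) (c := c₁ * c₀ ^ e) (M := M)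
    ((hR i).comp_differentiableOn hGd) (fun z hz => hBd i _ (hG z hz).2.2) (by
      rw [hz1n]
      exact hρ8.le) hcc hlow hM
  have hF0 : 0 < ‖F z₀‖ := norm_pos_iff.2 (Pool.Agent.TG.ne_zero S.cone (hF2 z₀))
  refine ⟨i, (‖F z₀‖ / 2) ^ e * c₂, by positivity, ?_⟩
  have h6 : ∀ᶠ z in 𝓝[≠] z₀, ‖F z₀‖ / 2 < ‖F z‖ := nhdsWithin_le_nhds (hF1.continuous.norm.continuousAt.eventually_const_lt (half_lt_self hF0))
  filter_upwards [hev, h6, mem_nhdsWithin_of_mem_nhds (ball_mem_nhds z₀ two_pos)] with z h7 h8 h9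
  obtain ⟨μ, hμ, h10⟩ := hfac z h9
  have h11 : ‖F z₀‖ / 2 ≤ ‖μ‖ := by
    have h12 := (hG z h9).2.2
    have h13 : ‖F z‖ ≤ ‖μ‖ := by
      rw [h10, norm_smul]
      exact mul_le_of_le_one_right (norm_nonneg _) h12
    linarith
  calc (‖F z₀‖ / 2) ^ e * c₂ * ‖z - z₀‖ ^ M = (‖F z₀‖ / 2) ^ e * (c₂ * ‖z - z₀‖ ^ M) := by ring
    _ ≤ ‖μ‖ ^ e * ‖R i (G z)‖ := mul_le_mul (pow_le_pow_left₀ (by positivity) h11 _) h7 (by positivity) (by positivity)
    _ = ‖R i (F z)‖ := by rw [h10, hh, norm_mul, norm_pow]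

end Pool.Agent.G4.C

end

section

/-!
# G4 R StepA: order zero, and the sequences of the proof by contradiction
-/

set_option autoImplicit false

open Topology Filter Metric

namespace Pool.Agent.G4.R

open Pool.Agent.H36.BP (EN fs wd)
open Pool.Agent.H14.PP (IsCone CurveAt Tan)
open Pool.Agent.H62.EF (MN pr)
open Pool.Agent.AD (Vd Chart Charts IsGerm)
open Pool.Agent.TG
open Pool.Agent.G3
open Pool.Agent.G3.R
open Pool.Agent.G3.C (Gc nv nd nv_pr)
open Pool.Agent.G3.A (Ba Hc Dec Sepa Tht Frm NL Lm CRL Tb ToE CE Sht)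

variable {N k : ℕ} {X : Set (EN N)} {Λ : AddSubgroup (Vd (k + 1))} {u : EN N → Vd (k + 1)} {D B Bad : Set (Vd (k + 1))} {a b w : Vd (k + 1)} {E : Submodule ℝ (Vd (k + 1))}
  {SS : Set (Vd (k + 1) → MN N)} {Γ : AddSubgroup (Vd (k + 1))} {J rW : ℕ} {W : Fin rW → Vd (k + 1) →L[ℂ] ℂ} {α : Fin J → VForm X Λ u} {c₀ C₀ ρ δ : ℝ}

theorem norm_smul_w {s r : ℝ} (hr : |s| ≤ r) (w : Vd (k + 1)) : ‖(s : ℂ) • w‖ ≤ r * ‖w‖ := by
  rw [norm_smul, Complex.norm_real]
  exact mul_le_mul_of_nonneg_right hr (norm_nonneg _)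

/-- a near maximum -/
theorem near_max {A : Set ℝ} (hA : BddAbove A) : ∃ M : ℝ, 1 ≤ M ∧ (∀ x ∈ A, x ≤ M) ∧ (1 < M → ∃ x ∈ A, M / 2 ≤ x) := by
  refine ⟨max 1 (sSup A), le_max_left _ _, fun x hx => (le_csSup hA hx).trans (le_max_right _ _), fun h => ?_⟩
  have h1 : max 1 (sSup A) = sSup A := by
    rcases max_choice 1 (sSup A) with h2 | h2
    · rw [h2] at h
      exact absurd h (lt_irrefl _)
    · exact h2
  have h3 : A.Nonempty := by
    by_contra hne
    rw [Set.not_nonempty_iff_eq_empty] at hne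
    rw [h1, hne, Real.sSup_empty] at h
    linarith
  rw [h1] at h ⊢
  obtain ⟨x, hx, hlt⟩ := exists_lt_of_lt_csSup h3 (show sSup A / 2 < sSup A by linarith)
  exact ⟨x, hx, hlt.le⟩

/-- the size of the divided difference of order `m` at `y` in the chart `nv v` -/
noncomputable def sz (w : Vd (k + 1)) (m : ℕ) (σ : ℕ → ℝ) (φ : Vd (k + 1) → MN N) (y : Vd (k + 1)) (v : EN N) : ℝ := ‖dd m σ fun s : ℝ => nv v (φ (y + (s : ℂ) • w))‖

end Pool.Agent.G4.R

end
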