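import Pool.Agent.H94.G4T.M100
import Pool.Agent.H94.G4T.M96

/-! The parts of this file: H13.CV.EllA, G3.C.PVd. -/

section

/-!
# CV EllA: generators with poles of order two and three

`ell_gens`: if some `f ∈ LD (dv E 1)` is not a constant then `ℂ(f) = K` (`top_of_dv_one`).  So assume that all `f ∈ LD (dv E 1)` are constants.  `W` for `k = 2` contains a non-constant `u` (`exists_not_const`),
`oz E u ≥ -2`, and `oz E u ≠ -1, 0, …` (otherwise `u ∈ LD (dv E 1)`), so `oz E u = -2`.  `LD (dv E 2)` contains no `3`-dimensional subspace: for `W ≤ LD (dv E 2)` finite-dimensional,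
`finrank W ≤ finrank (W ⊓ ordGe E (-1)) + 1` (`finrank_le_step`), and `W ⊓ ordGe E (-1) ≤ LD (dv E 1)` consists of constants, so it has dimension `≤ 1`.  So `W` for `k = 3` contains `v ∉ LD (dv E 2)`: `oz E v = -3`.
-/

set_option autoImplicit false

open Pool.Agent.H23.Fano (PrimeDivisorOver Form regularForms)

noncomputable section

namespace Pool.Agent.H13.CV

variable {K : Type} [Field K] [Algebra ℂ K]

private theorem ella_mem_iff {E : Place K} {k : ℤ} {f : K} :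
    f ∈ LD (dv E k) ↔ ((-k : ℤ) : WithTop ℤ) ≤ E.ord f ∧ ∀ E' : Place K, E' ≠ E → 0 ≤ E'.ord f := by
  rw [mem_LD]
  constructor
  · intro h
    refine ⟨?_, fun E' hE' => ?_⟩
    · have := h E
      simpa [dv] using this
    · have := h E'
      simpa [dv, hE'] using this
  · rintro ⟨h1, h2⟩ E'
    by_cases hE' : E' = E
    · subst hE'
      simpa [dv] using h1
    · simpa [dv, hE'] using h2 E' hE'

private theorem ella_oz_eq {E : Place K} {k : ℤ} {f : K} (hf0 : f ≠ 0) (hf : f ∈ LD (dv E (k + 1)))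
    (hf' : f ∉ LD (dv E k)) : oz E f = -(k + 1) := by
  rw [ella_mem_iff] at hf hf'
  have h1 : -(k + 1) ≤ oz E f := (le_ord_iff.1 hf.1).resolve_left hf0
  have h2 : ¬ (-k ≤ oz E f) := fun h => hf' ⟨le_ord_iff.2 (Or.inr h), hf.2⟩
  omega

theorem ell_gens (hK : CurveField K) {E : Place K}
    (hW : ∀ k : ℕ, 1 ≤ k → ∃ W : Submodule ℂ K, FiniteDimensional ℂ W ∧ W ≤ LD (dv E k) ∧ k ≤ Module.finrank ℂ W) :
    (∃ t : K, IntermediateField.adjoin ℂ {t} = ⊤) ∨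
    ((∀ f ∈ LD (dv E 1), ∃ c : ℂ, f = algebraMap ℂ K c) ∧ ∃ u v : K, oz E u = -2 ∧ oz E v = -3 ∧ (∀ E', E' ≠ E → 0 ≤ E'.ord u) ∧ (∀ E', E' ≠ E → 0 ≤ E'.ord v)) := by
  by_cases h1 : ∀ f ∈ LD (dv E 1), ∃ c : ℂ, f = algebraMap ℂ K c
  · right
    refine ⟨h1, ?_⟩
    obtain ⟨W2, hfin2, hle2, hdim2⟩ := hW 2 (by norm_num)
    obtain ⟨W3, hfin3, hle3, hdim3⟩ := hW 3 (by norm_num)
    obtain ⟨u, huW, huc⟩ := exists_not_const (W := W2) hdim2
    have hu := hle2 huW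
    have hu0 : u ≠ 0 := by
      have := huc 0
      simpa using this
    have hu' : u ∉ LD (dv E 1) := fun h => by
      obtain ⟨c, hc⟩ := h1 u h
      exact huc c hc
    have hnot : ¬ W3 ≤ LD (dv E 2) := by
      intro hle
      have hs := finrank_le_step hK W3 E (-2) (fun f hf => by
        have := (ella_mem_iff.1 (hle hf)).1
        exact this)
      have hI : Module.finrank ℂ (W3 ⊓ ordGe E (-2 + 1) : Submodule ℂ K) ≤ 1 := by
        by_contra hcon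
        push Not at hcon
        have : FiniteDimensional ℂ (W3 ⊓ ordGe E (-2 + 1) : Submodule ℂ K) :=
          Submodule.finiteDimensional_of_le inf_le_left
        obtain ⟨f, hf, hfc⟩ := exists_not_const (W := W3 ⊓ ordGe E (-2 + 1)) hcon
        rw [Submodule.mem_inf] at hf
        have hf1 : f ∈ LD (dv E 1) := by
          rw [ella_mem_iff]
          exact ⟨hf.2, (ella_mem_iff.1 (hle hf.1)).2⟩
        obtain ⟨c, hc⟩ := h1 f hf1
        exact hfc c hc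
      omega
    obtain ⟨v, hvW, hv'⟩ : ∃ v ∈ W3, v ∉ LD (dv E 2) := by
      by_contra hcon
      push Not at hcon
      exact hnot hcon
    have hv := hle3 hvW
    have hv0 : v ≠ 0 := by
      rintro rfl
      exact hv' (Submodule.zero_mem _)
    refine ⟨u, v, ?_, ?_, (ella_mem_iff.1 hu).2, (ella_mem_iff.1 hv).2⟩
    · exact ella_oz_eq (k := 1) hu0 (by exact_mod_cast hu) hu'
    · exact ella_oz_eq (k := 2) hv0 (by exact_mod_cast hv) hv'
  · left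
    push Not at h1
    obtain ⟨f, hf, hfc⟩ := h1
    exact ⟨f, top_of_dv_one hK hf hfc⟩

end Pool.Agent.H13.CV

end
end

section

/-!
# G3 C PVd: the norm of the value of the jet form is continuous

In a box `‖pval‖ * ‖x‖ = ‖QF (Jt m w s z)‖ * ‖χ.σ (cz …)‖` (`pval_eq`, `Box.move`; `χ.σ = α • x`), a continuous function of `(s, z)` (`QF_analytic`, `JetFam.cont`).
-/

set_option autoImplicit false

open Topology Filter Metric

namespace Pool.Agent.G3.C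

open Pool.Agent.H36.BP (EN fs wd)
open Pool.Agent.H14.PP (IsCone)
open Pool.Agent.H62.EF (MN pr)
open Pool.Agent.AD (Vd Chart Charts)
open Pool.Agent.TG (TMap Lat Str ms tl)

variable {N k : ℕ} {X : Set (EN N)} {Λ : AddSubgroup (Vd (k + 1))} {u : EN N → Vd (k + 1)} {ν a b c : Vd (k + 1)} {m : ℕ} {ρ : ℝ}

/-- in a box the norm of the value is the norm of the local expression -/
private theorem pvd_val (hX : IsCone X) {Φ : ℝ → ℂ → MN N} {χ : Chart (k + 2) X} {w : ℕ → ℝ → ℂ → ℂ} {s₀ : ℝ} {z₀ : ℂ} {r : ℝ}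
    (B : Box X Λ u a ν b Φ χ c ρ w s₀ z₀ r) (P : JForm X Λ u ν m) {s : ℝ} {z : ℂ} (hs : s ∈ Set.Ioo (s₀ - r) (s₀ + r)) (hz : z ∈ ball z₀ r)
    {x : EN N} (hx : x ≠ 0) (hΦ : Φ s z = pr x) :
    ‖pval P a b Φ s z x‖ * ‖x‖ = ‖QF P b a χ c ρ (Jt m w s z)‖ * ‖χ.σ (cz b ν a c ρ (w 0 s z) s z)‖ := by
  have hne : χ.σ (cz b ν a c ρ (w 0 s z) s z) ≠ 0 := by
    intro h
    have h1 := (χ.σ_mem _ (B.mem s hs z hz)).1
    rw [h] at h1
    exact hX.zero_notMem h1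
  have h := B.eq s hs z hz
  rw [hΦ] at h
  obtain ⟨α, hα0, hα⟩ := (Pool.Agent.H62.EF.pr_eq_iff hne hx).1 h.symm
  obtain ⟨r', B'⟩ := B.move hs hz
  rw [pval_eq hX B' P hα hα0, norm_mul, mul_assoc, ← norm_smul, ← hα]

theorem pval_normCont (hX : IsCone X) {Φ : ℝ → ℂ → MN N} {s₀ : ℝ} {z₀ : ℂ} (hS : Smo X Λ u a ν b Φ s₀ z₀) (P : JForm X Λ u ν m) {x₀ : EN N} (hx₀ : x₀ ≠ 0)
    (hΦ : Φ s₀ z₀ = pr x₀) {ε : ℝ} (hε : 0 < ε) :
    ∀ᶠ q in 𝓝 ((s₀, z₀) : ℝ × ℂ), ∀ x : EN N, x ≠ 0 → Φ q.1 q.2 = pr x →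
      |‖pval P a b Φ q.1 q.2 x‖ * ‖x‖ - ‖pval P a b Φ s₀ z₀ x₀‖ * ‖x₀‖| < ε := by
  obtain ⟨χ, c, ρ, w, r, B⟩ := hS
  have hs₀ : s₀ ∈ Set.Ioo (s₀ - r) (s₀ + r) := ⟨by linarith [B.pos], by linarith [B.pos]⟩
  have hz₀ : z₀ ∈ ball z₀ r := mem_ball_self B.pos
  have hnh : Set.Ioo (s₀ - r) (s₀ + r) ×ˢ ball z₀ r ∈ 𝓝 ((s₀, z₀) : ℝ × ℂ) := (isOpen_Ioo.prod isOpen_ball).mem_nhds ⟨hs₀, hz₀⟩
  have hw : ∀ j, ContinuousAt (fun q : ℝ × ℂ => w j q.1 q.2) (s₀, z₀) := fun j => (B.jet.cont j).continuousAt hnh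
  have hre : ContinuousAt (fun q : ℝ × ℂ => (q.1 : ℂ)) (s₀, z₀) := by fun_prop
  have hJ : ContinuousAt (fun q : ℝ × ℂ => Jt m w q.1 q.2) (s₀, z₀) :=
    hre.prodMk (continuousAt_snd.prodMk (continuousAt_pi.2 fun j => hw j))
  have hQ : ContinuousAt (fun q : ℝ × ℂ => QF P b a χ c ρ (Jt m w q.1 q.2)) (s₀, z₀) := by
    have h0a : AnalyticAt ℂ (QF P b a χ c ρ) (Jt m w s₀ z₀) := QF_analytic P B.str _ (B.mem s₀ hs₀ z₀ hz₀)
    have h1 : ContinuousAt (QF P b a χ c ρ) (Jt m w s₀ z₀) := h0a.continuousAt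
    exact ContinuousAt.comp (g := QF P b a χ c ρ) (f := fun q : ℝ × ℂ => Jt m w q.1 q.2) h1 hJ
  have hcz : ContinuousAt (fun q : ℝ × ℂ => cz b ν a c ρ (w 0 q.1 q.2) q.1 q.2) (s₀, z₀) := by
    have h1 : ContinuousAt (fun p : ℂ × ℂ × ℂ => cz b ν a c ρ p.1 p.2.1 p.2.2) (w 0 s₀ z₀, (s₀ : ℂ), z₀) :=
      (cz_analytic analyticAt_fst (analyticAt_fst.fun_comp analyticAt_snd) (analyticAt_snd.fun_comp analyticAt_snd)).continuousAt
    exact ContinuousAt.comp (g := fun p : ℂ × ℂ × ℂ => cz b ν a c ρ p.1 p.2.1 p.2.2) (f := fun q : ℝ × ℂ => (w 0 q.1 q.2, (q.1 : ℂ), q.2)) h1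
      ((hw 0).prodMk (hre.prodMk continuousAt_snd))
  have hσ : ContinuousAt (fun q : ℝ × ℂ => χ.σ (cz b ν a c ρ (w 0 q.1 q.2) q.1 q.2)) (s₀, z₀) := by
    have h1 : ContinuousAt χ.σ (cz b ν a c ρ (w 0 s₀ z₀) s₀ z₀) := (χ.σ_an _ (B.mem s₀ hs₀ z₀ hz₀)).continuousAt
    exact ContinuousAt.comp (g := χ.σ) (f := fun q : ℝ × ℂ => cz b ν a c ρ (w 0 q.1 q.2) q.1 q.2) h1 hcz
  have hG : ContinuousAt (fun q : ℝ × ℂ => ‖QF P b a χ c ρ (Jt m w q.1 q.2)‖ * ‖χ.σ (cz b ν a c ρ (w 0 q.1 q.2) q.1 q.2)‖) (s₀, z₀) :=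
    hQ.norm.mul hσ.norm
  filter_upwards [hnh, Metric.tendsto_nhds.1 hG ε hε] with q hq hqε x hx hΦx
  rw [pvd_val hX B P hq.1 hq.2 hx hΦx, pvd_val hX B P hs₀ hz₀ hx₀ hΦ, ← Real.dist_eq]
  exact hqε

end Pool.Agent.G3.C

end
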