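import Pool.Agent.H94.G4T.M129
import Pool.Agent.H94.G4T.M79
import Pool.Agent.H94.G4T.M95

/-! The parts of this file: G4.C.GCs, G4.C.GCa. -/

section

/-!
# G4 C GCs: a family which is uniformly Lipschitz in `z` is smooth

`smo_of_lip`: if `Φ s` is `n`-Lipschitz on `closedBall z₀ r` for all `s` near `s₁`, the family is continuous at `(s₁, z₁)`, `z₁ ∈ ball z₀ r`.  `str` gives a straight chart `χ` at
`Φ s₁ z₁`; `w s z = χ.q (nv v (Φ s z)) 0` (`nv` of EDefs, `v = χ.σ` of the point) is continuous near `(s₁, z₁)`, holomorphic in `z`, and `χ.q (nv v (Φ s z)) = cz b ν a c ρ' (w s z) s z`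
(`lift`, `Str.lift`, `TMap.smul`, `Lat.disc`, continuity).  Off `Dt` it is locally the first coordinate of an analytic function of a `JetFam` (`smo`, `JetFam.comp`); `jet_fill` with a
small circle off `Dt` (`dt_iso`, `dt_closed`).
-/

set_option autoImplicit false

open Topology Filter Metric

namespace Pool.Agent.G4.C

open Pool.Agent.H36.BP (EN fs wd)
open Pool.Agent.H14.PP (IsCone)
open Pool.Agent.H62.EF (MN pr)
open Pool.Agent.AD (Vd Chart Charts)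
open Pool.Agent.TG (TMap Lat Str ms tl)
open Pool.Agent.G3.C

variable {N k : ℕ} {X : Set (EN N)} {Λ : AddSubgroup (Vd (k + 1))} {u : EN N → Vd (k + 1)} {ν a b c : Vd (k + 1)} {m : ℕ} {ρ : ℝ}
  {Dt Bd : Set (ℂ × ℂ)} {Φ : ℝ → ℂ → MN N}

private theorem jet_mono {w : ℕ → ℝ → ℂ → ℂ} {I I' : Set ℝ} {D D' : Set ℂ} (hw : JetFam w I D) (hI : I' ⊆ I) (hD : D' ⊆ D) : JetFam w I' D' :=
  ⟨fun j s hs z hz => hw.der j s (hI hs) z (hD hz), fun j => (hw.cont j).mono (Set.prod_mono hI hD), fun j s hs => (hw.hol j s (hI hs)).mono hD⟩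

/-- a family which is uniformly Lipschitz in `z` is continuous -/
private theorem lip_cont (D : SDat X Λ u a ν b Dt Bd Φ) {z₀ : ℂ} {r n : ℝ} {V : Set ℝ} (hV : IsOpen V)
    (hl : ∀ s ∈ V, ∀ z ∈ closedBall z₀ r, ∀ z' ∈ closedBall z₀ r, dist (Φ s z) (Φ s z') ≤ n * ‖z - z'‖) {s₁ : ℝ} (hs₁ : s₁ ∈ V) {z₁ : ℂ} (hz₁ : z₁ ∈ ball z₀ r) :
    ContinuousAt (fun q : ℝ × ℂ => Φ q.1 q.2) (s₁, z₁) := by
  rw [Metric.continuousAt_iff]
  intro ε hε
  obtain ⟨n', hn', hnn⟩ : ∃ n' : ℝ, 0 < n' ∧ n ≤ n' := ⟨max n 1, lt_of_lt_of_le one_pos (le_max_right _ _), le_max_left _ _⟩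
  have hd : 0 < ε / (8 * n') := by positivity
  have hev : ∀ᶠ z' in 𝓝[≠] z₁, ((s₁ : ℂ), z') ∉ Dt ∧ z' ∈ ball z₀ r ∧ z' ∈ ball z₁ (ε / (8 * n')) := by
    refine (D.dt_iso s₁ z₁).and (Filter.Eventually.filter_mono nhdsWithin_le_nhds ?_)
    exact (isOpen_ball.eventually_mem hz₁).and (isOpen_ball.eventually_mem (mem_ball_self hd))
  obtain ⟨z', h1, h2, h3⟩ := hev.exists
  have hc := smo_cont D.cone (D.smo s₁ z' h1)
  have hc' : ContinuousAt (fun s : ℝ => Φ s z') s₁ :=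
    ContinuousAt.comp_of_eq (g := fun q : ℝ × ℂ => Φ q.1 q.2) (f := fun s : ℝ => ((s, z') : ℝ × ℂ)) hc (by fun_prop) rfl
  obtain ⟨δ₁, hδ₁, h4⟩ := Metric.continuousAt_iff.1 hc' (ε / 4) (by positivity)
  obtain ⟨δ₂, hδ₂, h5⟩ := Metric.isOpen_iff.1 hV s₁ hs₁
  obtain ⟨δ₃, hδ₃, h6⟩ := Metric.isOpen_iff.1 isOpen_ball z₁ hz₁
  refine ⟨min (min δ₁ δ₂) (min δ₃ (ε / (8 * n'))), lt_min (lt_min hδ₁ hδ₂) (lt_min hδ₃ hd), fun {q} hq => ?_⟩
  rw [Prod.dist_eq, max_lt_iff] at hq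
  obtain ⟨hq1, hq2⟩ := hq
  have a1 : dist q.1 s₁ < δ₁ := hq1.trans_le ((min_le_left _ _).trans (min_le_left _ _))
  have a2 : dist q.1 s₁ < δ₂ := hq1.trans_le ((min_le_left _ _).trans (min_le_right _ _))
  have a3 : dist q.2 z₁ < δ₃ := hq2.trans_le ((min_le_right _ _).trans (min_le_left _ _))
  have a4 : dist q.2 z₁ < ε / (8 * n') := hq2.trans_le ((min_le_right _ _).trans (min_le_right _ _))
  have b1 : q.1 ∈ V := h5 a2
  have b2 : q.2 ∈ closedBall z₀ r := ball_subset_closedBall (h6 a3)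
  have b3 : z' ∈ closedBall z₀ r := ball_subset_closedBall h2
  have b4 : z₁ ∈ closedBall z₀ r := ball_subset_closedBall hz₁
  have c1 := hl q.1 b1 q.2 b2 z' b3
  have c2 := hl s₁ hs₁ z' b3 z₁ b4
  have c3 := h4 a1
  rw [mem_ball, dist_eq_norm] at h3
  have d1 : ‖q.2 - z'‖ ≤ ε / (8 * n') + ε / (8 * n') := by
    calc ‖q.2 - z'‖ = ‖(q.2 - z₁) - (z' - z₁)‖ := by congr 1; ring
      _ ≤ ‖q.2 - z₁‖ + ‖z' - z₁‖ := norm_sub_le _ _
      _ ≤ _ := by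
        rw [dist_eq_norm] at a4
        linarith
  have e1 : n * ‖q.2 - z'‖ ≤ n' * (ε / (8 * n') + ε / (8 * n')) := mul_le_mul hnn d1 (norm_nonneg _) hn'.le
  have e2 : n * ‖z' - z₁‖ ≤ n' * (ε / (8 * n')) := mul_le_mul hnn h3.le (norm_nonneg _) hn'.le
  have e3 : n' * (ε / (8 * n')) = ε / 8 := by field_simp
  rw [mul_add, e3] at e1
  rw [e3] at e2
  have t1 := dist_triangle4 (Φ q.1 q.2) (Φ q.1 z') (Φ s₁ z') (Φ s₁ z₁)
  change dist (Φ q.1 q.2) (Φ s₁ z₁) < ε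
  linarith

/-- the first coordinate in the straight chart near a point where the family is continuous -/
private theorem loc_eq (hX : IsCone X) (hT : TMap X Λ u) (hL : Lat Λ) {Φ : ℝ → ℂ → MN N}
    (hlift : ∀ s : ℝ, ∃ F ∈ Gc X Λ u a (b + (s : ℂ) • ν), ∀ z, Φ s z = pr (F z)) {s₁ : ℝ} {z₁ : ℂ}
    (hc : ContinuousAt (fun q : ℝ × ℂ => Φ q.1 q.2) (s₁, z₁)) {χ : Chart (k + 2) X} {ρ' : ℝ} {x : ℂ} (hS : Str Λ u χ c ρ')
    (hx : cz b ν a c ρ' x s₁ z₁ ∈ ball (0 : Vd (k + 2)) 2) (hΦ : Φ s₁ z₁ = pr (χ.σ (cz b ν a c ρ' x s₁ z₁))) :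
    ∃ (v : EN N) (η : ℝ), 0 < η ∧ ∀ s ∈ Set.Ioo (s₁ - η) (s₁ + η), ∀ z ∈ ball z₁ η, nd v (Φ s z) ≠ 0 ∧ nv v (Φ s z) ∈ χ.U ∧
      ContinuousAt (fun z => nv v (Φ s z)) z ∧
      cz b ν a c ρ' (χ.q (nv v (Φ s z)) 0) s z ∈ ball (0 : Vd (k + 2)) 2 ∧ Φ s z = pr (χ.σ (cz b ν a c ρ' (χ.q (nv v (Φ s z)) 0) s z)) := by
  obtain ⟨p₁, hp₁⟩ : ∃ p₁, p₁ = cz b ν a c ρ' x s₁ z₁ := ⟨_, rfl⟩
  rw [← hp₁] at hx hΦ
  obtain ⟨v, hv⟩ : ∃ v, v = χ.σ p₁ := ⟨_, rfl⟩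
  rw [← hv] at hΦ
  have hvX : v ∈ X := hv ▸ (χ.σ_mem _ hx).1
  have hvU : v ∈ χ.U := hv ▸ (χ.σ_mem _ hx).2.1
  have hv0 : v ≠ 0 := fun h => hX.zero_notMem (h ▸ hvX)
  have hvv : (inner ℂ v v : ℂ) ≠ 0 := inner_self_ne_zero.mpr hv0
  have hnd : nd v (Φ s₁ z₁) ≠ 0 := by
    rw [hΦ]
    exact (nd_pr_ne hv0).2 hvv
  have hnv : nv v (Φ s₁ z₁) = (inner ℂ v v : ℂ)⁻¹ • v := by rw [hΦ, nv_pr hvv]
  have hU1 : nv v (Φ s₁ z₁) ∈ χ.U := by
    rw [hnv]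
    exact χ.smul_U v hvU _ (inv_ne_zero hvv)
  have hq1 : χ.q (nv v (Φ s₁ z₁)) = p₁ := by
    rw [hnv, χ.q_smul v hvU _ (inv_ne_zero hvv), hv]
    exact (χ.σ_mem _ hx).2.2
  have hcn : ContinuousAt (fun q : ℝ × ℂ => nv v (Φ q.1 q.2)) (s₁, z₁) :=
    ContinuousAt.comp_of_eq (g := nv v) (f := fun q : ℝ × ℂ => Φ q.1 q.2) (nv_continuousAt hnd) hc rfl
  have hcq : ContinuousAt (fun q : ℝ × ℂ => χ.q (nv v (Φ q.1 q.2))) (s₁, z₁) :=
    ContinuousAt.comp_of_eq (g := χ.q) (f := fun q : ℝ × ℂ => nv v (Φ q.1 q.2)) (χ.q_an _ hU1).continuousAt hcn rfl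
  have hcd : ContinuousAt (fun q : ℝ × ℂ => nd v (Φ q.1 q.2)) (s₁, z₁) :=
    ContinuousAt.comp_of_eq (g := nd v) (f := fun q : ℝ × ℂ => Φ q.1 q.2) (nd_cont v).continuousAt hc rfl
  obtain ⟨δ, hδ, hdisc⟩ := hL.disc
  have hms : Continuous (ms (k := k) c ρ') := by
    unfold ms tl
    fun_prop
  have hcm : ContinuousAt (fun q : ℝ × ℂ => ‖ms c ρ' (χ.q (nv v (Φ q.1 q.2))) - (b + (q.1 : ℂ) • ν + q.2 • a)‖) (s₁, z₁) := by
    refine ContinuousAt.norm (ContinuousAt.sub ?_ ?_)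
    · exact ContinuousAt.comp_of_eq (g := ms c ρ') (f := fun q : ℝ × ℂ => χ.q (nv v (Φ q.1 q.2))) hms.continuousAt hcq rfl
    · have h1 : Continuous fun q : ℝ × ℂ => b + (q.1 : ℂ) • ν + q.2 • a :=
        (continuous_const.add ((Complex.continuous_ofReal.comp continuous_fst).smul continuous_const)).add (continuous_snd.smul continuous_const)
      exact h1.continuousAt
  have hm0 : ‖ms c ρ' (χ.q (nv v (Φ s₁ z₁))) - (b + (s₁ : ℂ) • ν + z₁ • a)‖ < δ := by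
    rw [hq1, hp₁, ms_cz hS.pos, sub_self, norm_zero]
    exact hδ
  have e1 : ∀ᶠ q in 𝓝 ((s₁, z₁) : ℝ × ℂ), nd v (Φ q.1 q.2) ≠ 0 := hcd.eventually_ne hnd
  have e2 : ∀ᶠ q in 𝓝 ((s₁, z₁) : ℝ × ℂ), nv v (Φ q.1 q.2) ∈ χ.U := hcn.eventually_mem (χ.isOpen_U.mem_nhds hU1)
  have e3 : ∀ᶠ q in 𝓝 ((s₁, z₁) : ℝ × ℂ), χ.q (nv v (Φ q.1 q.2)) ∈ ball (0 : Vd (k + 2)) 2 :=
    hcq.eventually_mem (isOpen_ball.mem_nhds (by rw [hq1]; exact hx))
  have e4 : ∀ᶠ q in 𝓝 ((s₁, z₁) : ℝ × ℂ), ‖ms c ρ' (χ.q (nv v (Φ q.1 q.2))) - (b + (q.1 : ℂ) • ν + q.2 • a)‖ < δ :=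
    hcm.eventually_lt continuousAt_const hm0
  obtain ⟨η, hη, he⟩ := Metric.eventually_nhds_iff.1 (e1.and (e2.and (e3.and e4)))
  refine ⟨v, η, hη, fun s hs z hz => ?_⟩
  have hd : dist ((s, z) : ℝ × ℂ) (s₁, z₁) < η := by
    rw [Prod.dist_eq]
    refine max_lt ?_ hz
    rw [Real.dist_eq, abs_lt]
    exact ⟨by linarith [hs.1], by linarith [hs.2]⟩
  obtain ⟨h1, h2, h3, h4⟩ := he hd
  obtain ⟨F, ⟨hF1, hF2, hF3⟩, hF4⟩ := hlift s
  have hF0 : F z ≠ 0 := fun h => hX.zero_notMem (h ▸ hF2 z)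
  dsimp only at h1 h2 h3 h4
  have h5 : (inner ℂ v (F z) : ℂ) ≠ 0 := by
    rw [← nd_pr_ne hF0, ← hF4 z]
    exact h1
  have h6 : nv v (Φ s z) = (inner ℂ v (F z) : ℂ)⁻¹ • F z := by rw [hF4 z, nv_pr h5]
  have h7 : nv v (Φ s z) ∈ X := by
    rw [h6]
    exact hX.smul_mem _ (hF2 z) _ (inv_ne_zero h5)
  have h8 : pr (nv v (Φ s z)) = Φ s z := by
    rw [hF4 z]
    exact pr_nv h5
  obtain ⟨hin, c', hc', h9⟩ := χ.surj _ h7 h2
  have h10 : Φ s z = pr (χ.σ (χ.q (nv v (Φ s z)))) := by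
    rw [← h8]
    conv_lhs => rw [h9]
    rw [h8]
    exact Pool.Agent.H62.EF.pr_smul _ hc'
  -- the base coordinates
  have h11 : ms c ρ' (χ.q (nv v (Φ s z))) - (b + (s : ℂ) • ν + z • a) ∈ Λ := by
    have g1 := hS.lift _ h3
    have g2 := hT.smul _ (χ.σ_mem _ h3).1 c' hc'
    rw [← h9] at g2
    have g3 := hT.smul _ (hF2 z) _ (inv_ne_zero h5)
    rw [← h6] at g3
    have g4 := hF3 z
    have g5 : ms c ρ' (χ.q (nv v (Φ s z))) - (b + (s : ℂ) • ν + z • a) =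
        -(u (χ.σ (χ.q (nv v (Φ s z)))) - ms c ρ' (χ.q (nv v (Φ s z)))) - (u (nv v (Φ s z)) - u (χ.σ (χ.q (nv v (Φ s z))))) +
          (u (nv v (Φ s z)) - u (F z)) + (u (F z) - (b + (s : ℂ) • ν + z • a)) := by
      abel
    rw [g5]
    exact Λ.add_mem (Λ.add_mem (Λ.sub_mem (Λ.neg_mem g1) g2) g3) g4
  have h12 : ms c ρ' (χ.q (nv v (Φ s z))) = b + (s : ℂ) • ν + z • a := sub_eq_zero.1 (hdisc _ h11 h4)
  have h13 : χ.q (nv v (Φ s z)) = cz b ν a c ρ' (χ.q (nv v (Φ s z)) 0) s z := by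
    have hρ : (ρ' : ℂ) ≠ 0 := by exact_mod_cast hS.pos.ne'
    funext i
    refine Fin.cases rfl (fun j => ?_) i
    have g1 := congrFun h12 j
    simp only [ms, tl, Pi.add_apply, Pi.smul_apply, smul_eq_mul] at g1
    change _ = (ρ' : ℂ)⁻¹ * (b j + (s : ℂ) * ν j + z * a j - c j)
    rw [← g1]
    field_simp
    ring
  refine ⟨h1, h2, ?_, ?_, ?_⟩
  · have g0 : ContinuousAt (fun z => Φ s z) z := by
      have g1 : (fun z => Φ s z) = fun z => pr (F z) := funext hF4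
      rw [g1]
      exact ContinuousAt.comp_of_eq (g := pr) (f := F) (Pool.Agent.H62.EF.continuousAt_pr hF0) hF1.continuous.continuousAt rfl
    exact ContinuousAt.comp_of_eq (g := nv v) (f := fun z => Φ s z) (nv_continuousAt h1) g0 rfl
  · rw [← h13]
    exact h3
  · rw [← h13]
    exact h10

theorem smo_of_lip (D : SDat X Λ u a ν b Dt Bd Φ) {z₀ : ℂ} {r n : ℝ} {V : Set ℝ} (hV : IsOpen V)
    (hl : ∀ s ∈ V, ∀ z ∈ closedBall z₀ r, ∀ z' ∈ closedBall z₀ r, dist (Φ s z) (Φ s z') ≤ n * ‖z - z'‖) {s₁ : ℝ} (hs₁ : s₁ ∈ V) {z₁ : ℂ} (hz₁ : z₁ ∈ ball z₀ r)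
    (hb : ((s₁ : ℂ), z₁) ∉ Bd) : Smo X Λ u a ν b Φ s₁ z₁ := by
  have hcont : ContinuousAt (fun q : ℝ × ℂ => Φ q.1 q.2) (s₁, z₁) := lip_cont D hV hl hs₁ hz₁
  obtain ⟨χ, c, ρ', x, hS, hx, hp⟩ := D.str s₁ z₁ hb
  obtain ⟨v, η, hη, hloc⟩ := loc_eq D.cone D.tor D.lat D.lift hcont hS hx hp
  -- local smoothness off `Dt`
  have hsm : ∀ s ∈ Set.Ioo (s₁ - η) (s₁ + η), ∀ z ∈ ball z₁ η, ((s : ℂ), z) ∉ Dt → ∃ (δ : ℝ) (w : ℕ → ℝ → ℂ → ℂ), 0 < δ ∧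
      JetFam w (Set.Ioo (s - δ) (s + δ)) (ball z δ) ∧ ∀ s' ∈ Set.Ioo (s - δ) (s + δ), ∀ z' ∈ ball z δ, w 0 s' z' = χ.q (nv v (Φ s' z')) 0 := by
    intro s hs z hz hD
    obtain ⟨χ', c', ρ'', w', r', B⟩ := D.smo s z hD
    obtain ⟨ε₁, hε₁, h1⟩ := Metric.isOpen_iff.1 (isOpen_Ioo (a := s₁ - η) (b := s₁ + η)) s hs
    obtain ⟨ε₂, hε₂, h2⟩ := Metric.isOpen_iff.1 isOpen_ball z hz
    obtain ⟨δ, hδ⟩ : ∃ δ, δ = min r' (min ε₁ ε₂) := ⟨_, rfl⟩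
    have hδ0 : 0 < δ := hδ ▸ lt_min B.pos (lt_min hε₁ hε₂)
    have hδ1 : δ ≤ r' := hδ ▸ min_le_left _ _
    have hδ2 : δ ≤ ε₁ := hδ ▸ (min_le_right _ _).trans (min_le_left _ _)
    have hδ3 : δ ≤ ε₂ := hδ ▸ (min_le_right _ _).trans (min_le_right _ _)
    have hI1 : Set.Ioo (s - δ) (s + δ) ⊆ Set.Ioo (s - r') (s + r') := fun t ht => ⟨by linarith [ht.1], by linarith [ht.2]⟩
    have hI2 : Set.Ioo (s - δ) (s + δ) ⊆ Set.Ioo (s₁ - η) (s₁ + η) := by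
      intro t ht
      refine h1 ?_
      rw [mem_ball, Real.dist_eq, abs_lt]
      exact ⟨by linarith [ht.1], by linarith [ht.2]⟩
    have hB1 : ball z δ ⊆ ball z r' := ball_subset_ball hδ1
    have hB2 : ball z δ ⊆ ball z₁ η := (ball_subset_ball hδ3).trans h2
    have hjet : JetFam w' (Set.Ioo (s - δ) (s + δ)) (ball z δ) := jet_mono B.jet hI1 hB1
    have hval : ∀ s' ∈ Set.Ioo (s - δ) (s + δ), ∀ z' ∈ ball z δ, χ'.σ (cz b ν a c' ρ'' (w' 0 s' z') s' z') ∈ χ.U ∧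
        χ.q (nv v (Φ s' z')) = χ.q (χ'.σ (cz b ν a c' ρ'' (w' 0 s' z') s' z')) := by
      intro s' hs' z' hz'
      obtain ⟨g1, g2, -, -, -⟩ := hloc s' (hI2 hs') z' (hB2 hz')
      have g3 := B.mem s' (hI1 hs') z' (hB1 hz')
      have g4 := B.eq s' (hI1 hs') z' (hB1 hz')
      obtain ⟨y, hy⟩ : ∃ y, y = χ'.σ (cz b ν a c' ρ'' (w' 0 s' z') s' z') := ⟨_, rfl⟩
      rw [← hy] at g4 ⊢
      have hyX : y ∈ X := hy ▸ (χ'.σ_mem _ g3).1
      have hy0 : y ≠ 0 := fun h => D.cone.zero_notMem (h ▸ hyX)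
      have g5 : (inner ℂ v y : ℂ) ≠ 0 := by
        rw [← nd_pr_ne hy0, ← g4]
        exact g1
      have g6 : nv v (Φ s' z') = (inner ℂ v y : ℂ)⁻¹ • y := by rw [g4, nv_pr g5]
      have g7 : y = (inner ℂ v y : ℂ) • nv v (Φ s' z') := by
        rw [g6, smul_smul, mul_inv_cancel₀ g5, one_smul]
      have g8 : y ∈ χ.U := by
        rw [g7]
        exact χ.smul_U _ g2 _ g5
      refine ⟨g8, ?_⟩
      rw [g6]
      exact χ.q_smul y g8 _ (inv_ne_zero g5)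
    -- the analytic function
    obtain ⟨Y, hY⟩ : ∃ Y : ℂ × ℂ × (Unit → ℂ) → Vd (k + 2), ∀ q, Y q = cz b ν a c' ρ'' (q.2.2 ()) q.1 q.2.1 := ⟨_, fun _ => rfl⟩
    have hYa : ∀ q, AnalyticAt ℂ Y q := by
      intro q
      have g0 : Y = fun q => cz b ν a c' ρ'' (q.2.2 ()) q.1 q.2.1 := funext hY
      rw [g0]
      refine cz_analytic ?_ analyticAt_fst ?_
      · have g1 : AnalyticAt ℂ (fun q : ℂ × ℂ × (Unit → ℂ) => q.2.2) q := AnalyticAt.fun_comp (g := Prod.snd) analyticAt_snd analyticAt_snd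
        exact analyticAt_pi_iff.1 g1 ()
      · exact AnalyticAt.fun_comp (g := Prod.fst) analyticAt_fst analyticAt_snd
    have hQ : AnalyticOnNhd ℂ (fun q : ℂ × ℂ × (Unit → ℂ) => χ.q (χ'.σ (Y q)) 0) {q | Y q ∈ ball (0 : Vd (k + 2)) 2 ∧ χ'.σ (Y q) ∈ χ.U} := by
      rintro q ⟨hq1, hq2⟩
      have g1 : AnalyticAt ℂ (fun q => χ'.σ (Y q)) q := AnalyticAt.fun_comp (g := χ'.σ) (χ'.σ_an _ hq1) (hYa q)
      have g2 : AnalyticAt ℂ (fun q => χ.q (χ'.σ (Y q))) q := AnalyticAt.fun_comp (g := χ.q) (f := fun q => χ'.σ (Y q)) (χ.q_an _ hq2) g1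
      exact analyticAt_pi_iff.1 g2 0
    obtain ⟨w, hw1, hw2⟩ := JetFam.comp (ι := Unit) (f := fun _ => w') isOpen_Ioo isOpen_ball (fun _ => hjet) hQ (fun s' hs' z' hz' => by
      simp only [Set.mem_ofPred_eq, hY]
      exact ⟨B.mem s' (hI1 hs') z' (hB1 hz'), (hval s' hs' z' hz').1⟩)
    refine ⟨δ, w, hδ0, hw1, fun s' hs' z' hz' => ?_⟩
    rw [hw2 s' hs' z' hz', (hval s' hs' z' hz').2, hY]
  -- the circle
  obtain ⟨r₂, hr₂, hcirc⟩ := Metric.eventually_nhds_iff.1 (eventually_nhdsWithin_iff.1 (D.dt_iso s₁ z₁))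
  obtain ⟨r₁, hr₁⟩ : ∃ r₁, r₁ = min r₂ η / 2 := ⟨_, rfl⟩
  have hm : 0 < min r₂ η := lt_min hr₂ hη
  have hr0 : 0 < r₁ := by rw [hr₁]; linarith
  have hr2 : r₁ < r₂ := by
    have := min_le_left r₂ η
    rw [hr₁]; linarith
  have hrη : r₁ < η := by
    have := min_le_right r₂ η
    rw [hr₁]; linarith
  have hev : ∀ᶠ s : ℝ in 𝓝 s₁, ∀ z ∈ sphere z₁ r₁, ((s : ℂ), z) ∉ Dt := by
    refine (isCompact_sphere z₁ r₁).eventually_forall_of_forall_eventually fun z hz => ?_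
    have g1 : ((s₁ : ℂ), z) ∉ Dt := by
      rw [mem_sphere] at hz
      refine hcirc (by rw [hz]; exact hr2) ?_
      rintro rfl
      rw [dist_self] at hz
      exact hr0.ne hz
    have g2 : Continuous fun q : ℝ × ℂ => ((q.1 : ℂ), q.2) := (Complex.continuous_ofReal.comp continuous_fst).prodMk continuous_snd
    exact (g2.continuousAt (x := ((s₁, z) : ℝ × ℂ))).eventually_mem (D.dt_closed.isOpen_compl.mem_nhds g1)
  obtain ⟨δ, hδ, hδs⟩ := Metric.eventually_nhds_iff.1 hev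
  obtain ⟨R, hR⟩ : ∃ R, R = min (min δ η) r₁ := ⟨_, rfl⟩
  have hR0 : 0 < R := hR ▸ lt_min (lt_min hδ hη) hr0
  have hRδ : R ≤ δ := hR ▸ (min_le_left _ _).trans (min_le_left _ _)
  have hRη : R ≤ η := hR ▸ (min_le_left _ _).trans (min_le_right _ _)
  have hRr : R ≤ r₁ := hR ▸ min_le_right _ _
  have hIs : Set.Ioo (s₁ - R) (s₁ + R) ⊆ Set.Ioo (s₁ - η) (s₁ + η) := fun t ht => ⟨by linarith [ht.1], by linarith [ht.2]⟩
  have hBs : closedBall z₁ r₁ ⊆ ball z₁ η := closedBall_subset_ball hrη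
  have hhol : ∀ s ∈ Set.Ioo (s₁ - R) (s₁ + R), DifferentiableOn ℂ (fun z => χ.q (nv v (Φ s z)) 0) (ball z₁ η) := by
    intro s hs
    obtain ⟨F, ⟨hF1, hF2, hF3⟩, hF4⟩ := D.lift s
    have key : ∀ z ∈ ball z₁ η, F z ∈ χ.U ∧ χ.q (nv v (Φ s z)) = χ.q (F z) := by
      intro z hz
      obtain ⟨g1, g2, -, -, -⟩ := hloc s (hIs hs) z hz
      have hF0 : F z ≠ 0 := fun h => D.cone.zero_notMem (h ▸ hF2 z)
      have g5 : (inner ℂ v (F z) : ℂ) ≠ 0 := by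
        rw [← nd_pr_ne hF0, ← hF4 z]
        exact g1
      have g6 : nv v (Φ s z) = (inner ℂ v (F z) : ℂ)⁻¹ • F z := by rw [hF4 z, nv_pr g5]
      have g7 : F z = (inner ℂ v (F z) : ℂ) • nv v (Φ s z) := by
        rw [g6, smul_smul, mul_inv_cancel₀ g5, one_smul]
      have g8 : F z ∈ χ.U := by
        rw [g7]
        exact χ.smul_U _ g2 _ g5
      refine ⟨g8, ?_⟩
      rw [g6]
      exact χ.q_smul _ g8 _ (inv_ne_zero g5)
    have h1 : DifferentiableOn ℂ (fun z => χ.q (F z) 0) (ball z₁ η) := by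
      intro z hz
      have g1 : DifferentiableAt ℂ (fun z => χ.q (F z)) z :=
        DifferentiableAt.comp (g := χ.q) (f := F) z (χ.q_an _ (key z hz).1).differentiableAt (hF1 z)
      exact (differentiableAt_pi.1 g1 0).differentiableWithinAt
    exact h1.congr fun z hz => by rw [(key z hz).2]
  obtain ⟨w, hw1, hw2⟩ := jet_fill (w := fun s z => χ.q (nv v (Φ s z)) 0) (I := Set.Ioo (s₁ - R) (s₁ + R)) isOpen_Ioo (z₁ := z₁) hr0
    (fun s hs => ⟨(hhol s hs).mono (ball_subset_closedBall.trans hBs), (hhol s hs).continuousOn.mono hBs⟩)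
    (fun s hs z hz => hsm s (hIs hs) z (hBs (sphere_subset_closedBall hz)) (hδs (by
      rw [Real.dist_eq, abs_lt]
      exact ⟨by linarith [hs.1], by linarith [hs.2]⟩) z hz))
  refine ⟨χ, c, ρ', w, R, hR0, hS, jet_mono hw1 subset_rfl (ball_subset_ball hRr), fun s hs z hz => ?_, fun s hs z hz => ?_⟩
  · rw [hw2 s hs z (ball_subset_ball hRr hz)]
    exact (hloc s (hIs hs) z (ball_subset_ball hRη hz)).2.2.2.1
  · rw [hw2 s hs z (ball_subset_ball hRr hz)]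
    exact (hloc s (hIs hs) z (ball_subset_ball hRη hz)).2.2.2.2

end Pool.Agent.G4.C

end

section

/-!
# G4 C GCa: at a point which is not bad the family is smooth for an open dense set of parameters

`window`: `dt_iso` at `(s₀, z₀)` gives `r`, the closed sets `Dt`, `Bd` and compactness give `δ`.
`baire`: `K n = {s ∈ J | Φ s is n-Lipschitz on closedBall z₀ r}`, `J = Ioo (s₀ - δ) (s₀ + δ)`.  `K n ∪ Jᶜ` is closed: for `z`, `z'` off `Dt` on the leaf `s` the family is continuous at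
`(s, z)`, `(s, z')` (`smo`), these `z` are dense (`dt_iso`) and `Φ s` is continuous.  Every `Φ s = pr ∘ F` is Lipschitz on the compact convex set `closedBall z₀ r`.
`dense_iUnion_interior_of_closed`.
`good_dense`: `baire` in every small interval, `smo_of_lip` in the open ball; the points of the sphere are off `Dt` (`smo`).
-/

set_option autoImplicit false

open Topology Filter Metric

namespace Pool.Agent.G4.C

open Pool.Agent.H36.BP (EN fs wd)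
open Pool.Agent.H14.PP (IsCone)
open Pool.Agent.H62.EF (MN pr)
open Pool.Agent.AD (Vd Chart Charts)
open Pool.Agent.TG (TMap Lat Str ms tl)
open Pool.Agent.G3.C

variable {N k : ℕ} {X : Set (EN N)} {Λ : AddSubgroup (Vd (k + 1))} {u : EN N → Vd (k + 1)} {ν a b c : Vd (k + 1)} {m : ℕ} {ρ : ℝ}
  {Dt Bd : Set (ℂ × ℂ)} {Φ : ℝ → ℂ → MN N}

/-- the curves are Lipschitz on discs -/
private theorem lip_of_curve (hX : IsCone X) {y : Vd (k + 1)} {F : ℂ → EN N} (hF : F ∈ Gc X Λ u a y) (z₀ : ℂ) (r : ℝ) :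
    ∃ n : ℕ, ∀ z ∈ closedBall z₀ r, ∀ z' ∈ closedBall z₀ r, dist (pr (F z)) (pr (F z')) ≤ n * ‖z - z'‖ := by
  have h0 : ∀ z, F z ≠ 0 := fun z h => hX.zero_notMem (h ▸ hF.2.1 z)
  have hFd : Differentiable ℂ F := hF.1
  have hFc : Continuous F := hFd.continuous
  have hd : Continuous (deriv F) := (hFd.contDiff (n := 1)).continuous_deriv le_rfl
  obtain ⟨g, hg⟩ : ∃ g : ℂ → ℝ, g = fun z => fs (F z) (deriv F z) := ⟨_, rfl⟩
  have hfs : Continuous g := by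
    have hp : Continuous fun z => ((F z, deriv F z) : EN N × EN N) := hFc.prodMk hd
    have h1 : Continuous ((fun p : EN N × EN N => wd p.1 p.2) ∘ fun z => ((F z, deriv F z) : EN N × EN N)) :=
      (Pool.Agent.H36.BP.wd_cont (N := N)).comp hp
    have h2 : Continuous fun z => ‖F z‖ ^ 2 := hFc.norm.pow 2
    have h3 : Continuous fun z => wd (F z) (deriv F z) / ‖F z‖ ^ 2 := h1.div h2 fun z => pow_ne_zero 2 (norm_ne_zero_iff.2 (h0 z))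
    rw [hg]
    exact h3
  obtain ⟨L, hL⟩ := (isCompact_closedBall z₀ (r + 1)).exists_bound_of_continuousOn hfs.continuousOn
  obtain ⟨n, hn⟩ := exists_nat_ge (2 * L)
  have hsub : closedBall z₀ r ⊆ ball z₀ (r + 1) := closedBall_subset_ball (by linarith)
  have hb : ∀ w ∈ ball z₀ (r + 1), fs (F w) (deriv F w) ≤ L := by
    intro w hw
    have h4 := hL w (ball_subset_closedBall hw)
    rw [hg] at h4
    exact (le_abs_self _).trans h4
  refine ⟨n, fun z hz z' hz' => ?_⟩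
  have h5 := Pool.Agent.H62.EF.pr_lipschitz isOpen_ball (convex_ball z₀ (r + 1)) hFd.differentiableOn (fun z _ => h0 z) hb z (hsub hz) z' (hsub hz')
  exact h5.trans (mul_le_mul_of_nonneg_right hn (norm_nonneg _))

theorem baire (D : SDat X Λ u a ν b Dt Bd Φ) (z₀ : ℂ) (r : ℝ) {V : Set ℝ} (hV : IsOpen V) (hVn : V.Nonempty) :
    ∃ (n : ℝ) (V' : Set ℝ), IsOpen V' ∧ V'.Nonempty ∧ V' ⊆ V ∧ ∀ s ∈ V', ∀ z ∈ closedBall z₀ r, ∀ z' ∈ closedBall z₀ r, dist (Φ s z) (Φ s z') ≤ n * ‖z - z'‖ := by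
  obtain ⟨K, hK⟩ : ∃ K : ℕ → Set ℝ, K = fun n : ℕ => {s : ℝ | ∀ z ∈ closedBall z₀ r, ∀ z' ∈ closedBall z₀ r, dist (Φ s z) (Φ s z') ≤ n * ‖z - z'‖} := ⟨_, rfl⟩
  have hcl : ∀ n, IsClosed (K n) := by
    intro n
    refine isClosed_of_closure_subset fun s hs => ?_
    have hfr : ∃ᶠ s' in 𝓝 s, s' ∈ K n := mem_closure_iff_frequently.1 hs
    -- the points off `Dt`
    have hoff : ∀ z ∈ closedBall z₀ r, ((s : ℂ), z) ∉ Dt → ∀ z' ∈ closedBall z₀ r, ((s : ℂ), z') ∉ Dt → dist (Φ s z) (Φ s z') ≤ n * ‖z - z'‖ := by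
      intro z hz hzD z' hz' hzD'
      have hct : ∀ w : ℂ, ((s : ℂ), w) ∉ Dt → Tendsto (fun s' : ℝ => Φ s' w) (𝓝 s) (𝓝 (Φ s w)) := by
        intro w hw
        have h1 := smo_cont D.cone (D.smo s w hw)
        have h2 : ContinuousAt (fun s' : ℝ => ((s', w) : ℝ × ℂ)) s := (continuous_id.prodMk continuous_const).continuousAt
        exact (ContinuousAt.comp (g := fun q : ℝ × ℂ => Φ q.1 q.2) (f := fun s' : ℝ => ((s', w) : ℝ × ℂ)) h1 h2)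
      refine le_of_tendsto_of_frequently ((hct z hzD).dist (hct z' hzD')) (hfr.mono fun s' hs' => ?_)
      rw [hK] at hs'
      exact hs' z hz z' hz'
    rw [hK]
    intro z hz z' hz'
    by_cases hzz : z = z'
    · rw [hzz, dist_self, sub_self, norm_zero, mul_zero]
    obtain ⟨F, hF, hΦF⟩ := D.lift s
    have hcont : Continuous (Φ s) := by
      have h0 : ∀ z, F z ≠ 0 := fun z h => D.cone.zero_notMem (h ▸ hF.2.1 z)
      have h1 : Φ s = fun z => pr (F z) := funext hΦF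
      rw [h1, continuous_iff_continuousAt]
      exact fun z => ContinuousAt.comp (g := pr) (f := F) (Pool.Agent.H62.EF.continuousAt_pr (h0 z)) hF.1.continuous.continuousAt
    -- the points of the segment
    have hmv : ∀ w w' : ℂ, w ≠ w' → w ∈ closedBall z₀ r → w' ∈ closedBall z₀ r →
        Tendsto (fun t : ℝ => w + (t : ℂ) * (w' - w)) (𝓝[>] 0) (𝓝 w) ∧
          ∀ᶠ t : ℝ in 𝓝[>] 0, w + (t : ℂ) * (w' - w) ∈ closedBall z₀ r ∧ ((s : ℂ), w + (t : ℂ) * (w' - w)) ∉ Dt := by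
      intro w w' hww hw hw'
      have h1 : Continuous fun t : ℝ => w + (t : ℂ) * (w' - w) := by fun_prop
      have h2 : Tendsto (fun t : ℝ => w + (t : ℂ) * (w' - w)) (𝓝 0) (𝓝 w) := by
        have := h1.tendsto 0
        simpa using this
      have h3 : Tendsto (fun t : ℝ => w + (t : ℂ) * (w' - w)) (𝓝[>] 0) (𝓝 w) := h2.mono_left nhdsWithin_le_nhds
      have h4 : Tendsto (fun t : ℝ => w + (t : ℂ) * (w' - w)) (𝓝[>] 0) (𝓝[≠] w) := by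
        refine tendsto_nhdsWithin_iff.2 ⟨h3, ?_⟩
        filter_upwards [self_mem_nhdsWithin] with t ht h5
        have ht0 : (t : ℂ) ≠ 0 := by exact_mod_cast (ne_of_gt (show (0 : ℝ) < t from ht))
        have h6 : (t : ℂ) * (w' - w) = 0 := by
          rw [Set.mem_singleton_iff] at h5
          linear_combination h5
        rcases mul_eq_zero.1 h6 with h7 | h7
        · exact ht0 h7
        · exact hww (sub_eq_zero.1 h7).symm
      refine ⟨h3, ?_⟩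
      filter_upwards [h4.eventually (D.dt_iso s w), Ioo_mem_nhdsGT (show (0 : ℝ) < 1 by norm_num)] with t ht ht1
      refine ⟨?_, ht⟩
      have h8 := (convex_closedBall z₀ r) hw hw' (show 0 ≤ 1 - t by linarith [ht1.2]) ht1.1.le (by ring)
      have h9 : w + (t : ℂ) * (w' - w) = (1 - t) • w + t • w' := by
        simp only [Complex.real_smul]
        push_cast
        ring
      rw [h9]
      exact h8
    obtain ⟨ha1, ha2⟩ := hmv z z' hzz hz hz'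
    obtain ⟨hb1, hb2⟩ := hmv z' z (Ne.symm hzz) hz' hz
    have hl1 : Tendsto (fun t : ℝ => dist (Φ s (z + (t : ℂ) * (z' - z))) (Φ s (z' + (t : ℂ) * (z - z')))) (𝓝[>] 0) (𝓝 (dist (Φ s z) (Φ s z'))) :=
      ((hcont.tendsto z).comp ha1).dist ((hcont.tendsto z').comp hb1)
    have hl2 : Tendsto (fun t : ℝ => (n : ℝ) * ‖(z + (t : ℂ) * (z' - z)) - (z' + (t : ℂ) * (z - z'))‖) (𝓝[>] 0) (𝓝 ((n : ℝ) * ‖z - z'‖)) :=
      ((ha1.sub hb1).norm).const_mul _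
    refine le_of_tendsto_of_tendsto hl1 hl2 ?_
    filter_upwards [ha2, hb2] with t h1 h2
    exact hoff _ h1.1 h1.2 _ h2.1 h2.2
  have hun : ⋃ n, K n = Set.univ := by
    refine Set.eq_univ_of_forall fun s => ?_
    obtain ⟨F, hF, hΦF⟩ := D.lift s
    obtain ⟨n, hn⟩ := lip_of_curve D.cone hF z₀ r
    rw [Set.mem_iUnion]
    refine ⟨n, ?_⟩
    rw [hK]
    intro z hz z' hz'
    rw [hΦF, hΦF]
    exact hn z hz z' hz'
  obtain ⟨s, hsV, hs⟩ := (dense_iUnion_interior_of_closed hcl hun).inter_open_nonempty V hV hVn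
  obtain ⟨n, hn⟩ := Set.mem_iUnion.1 hs
  refine ⟨n, V ∩ interior (K n), hV.inter isOpen_interior, ⟨s, hsV, hn⟩, Set.inter_subset_left, fun s' hs' => ?_⟩
  have h1 := interior_subset hs'.2
  rw [hK] at h1
  exact h1

/-- the good parameters are dense -/
theorem good_dense (D : SDat X Λ u a ν b Dt Bd Φ) {s₀ : ℝ} {z₀ : ℂ} {r δ : ℝ} (h1 : ∀ s : ℝ, |s - s₀| ≤ δ → ∀ z ∈ sphere z₀ r, ((s : ℂ), z) ∉ Dt)
    (h2 : ∀ s : ℝ, |s - s₀| ≤ δ → ∀ z ∈ closedBall z₀ r, ((s : ℂ), z) ∉ Bd) :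
    ∀ s : ℝ, |s - s₀| < δ → ∀ ε : ℝ, 0 < ε → ∃ s' : ℝ, |s' - s| < ε ∧ |s' - s₀| < δ ∧ ∀ z ∈ closedBall z₀ r, Smo X Λ u a ν b Φ s' z := by
  intro s hs ε hε
  have hV : IsOpen (Set.Ioo (s - ε) (s + ε) ∩ Set.Ioo (s₀ - δ) (s₀ + δ)) := isOpen_Ioo.inter isOpen_Ioo
  have hsV : s ∈ Set.Ioo (s - ε) (s + ε) ∩ Set.Ioo (s₀ - δ) (s₀ + δ) := by
    obtain ⟨h3, h4⟩ := abs_lt.1 hs
    exact ⟨⟨by linarith, by linarith⟩, ⟨by linarith, by linarith⟩⟩
  obtain ⟨n, V', hV', ⟨s', hs'⟩, hsub, hl⟩ := baire D z₀ r hV ⟨s, hsV⟩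
  have h5 := hsub hs'
  have h6 : |s' - s₀| < δ := abs_lt.2 ⟨by linarith [h5.2.1], by linarith [h5.2.2]⟩
  refine ⟨s', abs_lt.2 ⟨by linarith [h5.1.1], by linarith [h5.1.2]⟩, h6, fun z hz => ?_⟩
  rcases (mem_closedBall.1 hz).lt_or_eq with h7 | h7
  · exact smo_of_lip D hV' hl hs' (mem_ball.2 h7) (h2 s' h6.le z hz)
  · exact D.smo s' z (h1 s' h6.le z (mem_sphere.2 h7))

end Pool.Agent.G4.C

end
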