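import Pool.Agent.H94.G4T.G3.Defs
import Pool.Agent.H94.G4T.H36.BP.WdA_1
import Pool.Agent.H94.G4T.M04
import Pool.Agent.H94.G4T.M23
import Pool.Agent.H94.G4T.M60

/-! The parts of this file: H62.EL.TbA, G3.R.DT, G3.R.RDefs, G3.X.FrmA. -/

section

/-!
# EL TbA: covering a bad fibre by charts

Let `F_b = {x ∈ X : u x - b ∈ Λ}`, `D = pr '' F_b`, a compact set: `pr '' X` is compact (`isCompact_pr`), and `D` is closed in it: if `x_n ∈ F_b`, `pr x_n → pr x`,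
`x ∈ X`, rescale (`near_of_pr`): `c_n • x_n → x`, in `F_b` (`TorusMap.smul`); a local lift `v` of `u` at `x` (`TorusMap.loc`) has `v (c_n x_n) ∈ b + Λ` and
converges to `v x`; `b + Λ` is closed (`Λ` is discrete), so `u x - b ∈ Λ`.
If `D` is empty: `T` with `m = 0`, `𝒲 = ∅`, and `s` small such that no point of `X` is over `ball b s` (same argument).
(1) `η > 0` with `2η` smaller than the norms of the nonzero elements of `Λ`.  For every `x ∈ F_b` take `χ_x, ρ, i, j` from `exists_nc_chart` (size `η`), and `R_x > 0` such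
that every `w ∈ X` with `dist (pr w) (pr x) < R_x` is in `χ_x.U` (`near_of_pr`, `smul_U`).
(2) finitely many balls `dist (·) (pr x_k) < R_k / 2` cover `D`.  `T`: the charts `χ_{x_k}`, `W k = {w : w ≠ 0, w ∈ χ_k.U, dist (pr w) (pr x_k) < R_k / 2}`, open cones
(`continuousAt_pr`, `pr_smul`).  `R = min R_k > 0`.
(3) witnesses: for every `y ∈ F_b` choose by `exists_nc_chart` with size `min η (R/8)` a chart `χ'_y` (all its points are within `R/8` of `pr y`), and `R'_y ≤ R`, `R'_y > 0`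
such that every `w ∈ X` with `dist (pr w) (pr y) < R'_y` is in `χ'_y.U`.  `p ↦ pr (χ'_y.σ p)` is continuous: choose `0 < r_y ≤ 2` with
`dist (pr (χ'_y.σ p)) (pr y) < R'_y / 4` for `p ∈ ball 0 r_y` (`χ'_y.q y = 0`, so `pr (χ'_y.σ 0) = pr y`).  `𝒲` = the set of all these `(χ'_y, ρ', i', j', r_y)`, `y ∈ F_b`
(one choice for each `y`).
(4) `sub`: if `χ'_y.σ p ∈ W k` for one `p ∈ ball 0 r_y`: `dist (pr y) (pr x_k) < R_k/2 + R/8`, so all points of `χ'_y` are within `R_k/2 + R/4 < R_k` of `pr x_k`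
and in `X`, so in `χ_k.U`.
(5) `nest`: a common point: `dist (pr y) (pr y') < R'_y/4 + R'_{y'}/4`.  If `R'_y ≤ R'_{y'}`: the points of `χ'_y` with `p ∈ ball 0 r_y` are within `R'_y/4` of `pr y`, so within
`3 R'_{y'}/4` of `pr y'`: in `χ'_{y'}.U`.  Otherwise symmetric.
(6) `s`: there is `0 < s ≤ η` such that for `z ∈ ball b s`, `x ∈ X`, `u x - z ∈ Λ`, the point `pr x` is in the open set `O = ⋃_k {dist (·) (pr x_k) < R_k/2} ∩ ⋃_y pr(part of χ'_y)`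
in the following sense: there is `k` with `x ∈ W k`, and `y` with `x ∈ χ'_y.U`, `χ'_y.q x ∈ ball 0 r_y`.  Otherwise there are `x_n ∈ X`, `z_n → b`, `u x_n - z_n ∈ Λ` violating it;
along an ultrafilter `pr x_n → pr x`, `x ∈ X`, rescaled `x_n → x` (both conditions are invariant under scaling), `u x - b ∈ Λ` as above (`v x_n - z_n ∈ Λ`, closed), so
`x ∈ F_b`; `dist (pr x) (pr x_k) < R_k / 2` for some `k`, so eventually `x_n ∈ W k` (`x ∈ χ_k.U` open); and with `y = x`: `x ∈ χ'_x.U`, `χ'_x.q x = 0`, so eventually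
`x_n ∈ χ'_x.U` and `χ'_x.q x_n ∈ ball 0 r_x`: contradiction.
-/

set_option autoImplicit false

open Topology Filter Metric

namespace Pool.Agent.H62.EL

open Pool.Agent.H36.BP (EN wd IsGermChart)
open Pool.Agent.H14.PP (IsCone Chart Tan CurveAt)
open Pool.Agent.H62.EF (Lat MN pr TorusMap Sec Charts)

variable {N : ℕ} {X : Set (EN N)} {Λ : AddSubgroup ℂ} {u : EN N → ℂ}

private theorem isClosed_lat (hΛ : Lat Λ) : IsClosed (Λ : Set ℂ) := by
  obtain ⟨δ, hδ, h⟩ := hΛ.discrete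
  refine Metric.isClosed_of_pairwise_le_dist hδ ?_
  intro x hx y hy hxy
  by_contra hlt
  push Not at hlt
  rw [dist_eq_norm] at hlt
  exact hxy (sub_eq_zero.mp (h _ (Λ.sub_mem hx hy) hlt))

private theorem lim_mem (hΛ : Lat Λ) (hu : TorusMap X Λ u) {l : Filter ℕ} [l.NeBot] {y : ℕ → EN N} {z : ℕ → ℂ} {x : EN N} {b : ℂ}
    (hx : x ∈ X) (hy : Tendsto y l (𝓝 x)) (hz : Tendsto z l (𝓝 b)) (h : ∀ᶠ i in l, y i ∈ X ∧ u (y i) - z i ∈ Λ) : u x - b ∈ Λ := by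
  obtain ⟨v, hv, hv'⟩ := hu.loc x hx
  have h1 : Tendsto (fun i => v (y i) - z i) l (𝓝 (v x - b)) := (hv.continuousAt.tendsto.comp hy).sub hz
  have h2 : ∀ᶠ i in l, v (y i) - z i ∈ (Λ : Set ℂ) := by
    filter_upwards [h, hy.eventually hv'] with i hi hi'
    have h3 : v (y i) - z i = u (y i) - z i - (u (y i) - v (y i)) := by ring
    rw [h3]
    exact Λ.sub_mem hi.2 (hi' hi.1)
  have h4 : v x - b ∈ Λ := (isClosed_lat hΛ).mem_of_tendsto h1 h2
  have h5 := hv'.self_of_nhds hx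
  have h6 : u x - b = (u x - v x) + (v x - b) := by ring
  rw [h6]
  exact Λ.add_mem h5 h4

private theorem compact_unit (hX : IsCone X) : IsCompact (X ∩ sphere (0 : EN N) 1) := by
  have h1 : X ∩ sphere (0 : EN N) 1 = (insert 0 X) ∩ sphere (0 : EN N) 1 := by
    ext x
    constructor
    · rintro ⟨hx, hs⟩
      exact ⟨Set.mem_insert_of_mem _ hx, hs⟩
    · rintro ⟨hx, hs⟩
      refine ⟨?_, hs⟩
      rcases hx with rfl | hx
      · simp at hs
      · exact hx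
  rw [h1]
  exact (isCompact_sphere (0 : EN N) 1).inter_left hX.closed

private theorem ne_zero (hX : IsCone X) {x : EN N} (hx : x ∈ X) : x ≠ 0 := fun h => hX.zero_notMem (h ▸ hx)

private theorem exists_unit (hX : IsCone X) {x : EN N} (hx : x ∈ X) : ∃ c : ℂ, c ≠ 0 ∧ c • x ∈ X ∩ sphere (0 : EN N) 1 := by
  have hn : ‖x‖ ≠ 0 := norm_ne_zero_iff.mpr (ne_zero hX hx)
  have hc : (((‖x‖⁻¹ : ℝ)) : ℂ) ≠ 0 := by
    exact_mod_cast inv_ne_zero hn
  refine ⟨(((‖x‖⁻¹ : ℝ)) : ℂ), hc, hX.smul_mem x hx _ hc, ?_⟩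
  rw [mem_sphere_zero_iff_norm, norm_smul, Complex.norm_real, norm_inv, norm_norm]
  exact inv_mul_cancel₀ hn

private theorem smul_mem_lat (hu : TorusMap X Λ u) {x : EN N} (hx : x ∈ X) {z : ℂ} (h : u x - z ∈ Λ) {c : ℂ} (hc : c ≠ 0) :
    u (c • x) - z ∈ Λ := by
  have h3 : u (c • x) - z = u (c • x) - u x + (u x - z) := by ring
  rw [h3]
  exact Λ.add_mem (hu.smul x hx c hc) h

/-- a property which holds near the fibre over `b` holds over a ball -/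
private theorem exists_rad (hX : IsCone X) (hΛ : Lat Λ) (hu : TorusMap X Λ u) {b : ℂ} (P : EN N → Prop)
    (hP : ∀ x ∈ X, P x → ∀ c : ℂ, c ≠ 0 → P (c • x))
    (h : ∀ x ∈ X, u x - b ∈ Λ → ∀ᶠ y in 𝓝 x, y ∈ X → P y) : ∃ s : ℝ, 0 < s ∧ ∀ z ∈ ball b s, ∀ x ∈ X, u x - z ∈ Λ → P x := by
  by_contra hcon
  push Not at hcon
  have h1 : ∀ n : ℕ, ∃ (y : EN N) (z : ℂ), y ∈ X ∩ sphere (0 : EN N) 1 ∧ z ∈ ball b (1 / ((n : ℝ) + 1)) ∧ u y - z ∈ Λ ∧ ¬ P y := by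
    intro n
    obtain ⟨z, hz, x, hx, hxz, hPx⟩ := hcon (1 / ((n : ℝ) + 1)) (by positivity)
    obtain ⟨c, hc, hcx⟩ := exists_unit hX hx
    refine ⟨c • x, z, hcx, hz, smul_mem_lat hu hx hxz hc, ?_⟩
    intro hP'
    have := hP _ hcx.1 hP' c⁻¹ (inv_ne_zero hc)
    rw [smul_smul, inv_mul_cancel₀ hc, one_smul] at this
    exact hPx this
  choose y z hy hz hyz hPy using h1
  obtain ⟨x, hx, φ, hφ, hlim⟩ := (compact_unit hX).tendsto_subseq hy
  have hzl : Tendsto z atTop (𝓝 b) := by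
    rw [tendsto_iff_dist_tendsto_zero]
    exact squeeze_zero (fun _ => dist_nonneg) (fun n => (mem_ball.mp (hz n)).le) tendsto_one_div_add_atTop_nhds_zero_nat
  have hxb : u x - b ∈ Λ := lim_mem hΛ hu hx.1 hlim (hzl.comp hφ.tendsto_atTop) (Eventually.of_forall fun n => ⟨(hy _).1, hyz _⟩)
  obtain ⟨n, hn⟩ := (hlim.eventually (h x hx.1 hxb)).exists
  exact hPy _ (hn (hy _).1)

private theorem compact_fib (hX : IsCone X) (hΛ : Lat Λ) (hu : TorusMap X Λ u) (b : ℂ) :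
    IsCompact {x : EN N | x ∈ X ∩ sphere (0 : EN N) 1 ∧ u x - b ∈ Λ} := by
  refine IsSeqCompact.isCompact ?_
  intro y hy
  obtain ⟨x, hx, φ, hφ, hlim⟩ := (compact_unit hX).tendsto_subseq (fun n => (hy n).1)
  exact ⟨x, ⟨hx, lim_mem hΛ hu hx.1 hlim tendsto_const_nhds (Eventually.of_forall fun n => ⟨(hy _).1.1, (hy _).2⟩)⟩, φ, hφ, hlim⟩

private theorem exists_R (hX : IsCone X) (χ : Chart X) {x : EN N} (hx : x ∈ X) (hxU : x ∈ χ.U) :
    ∃ R : ℝ, 0 < R ∧ ∀ w ∈ X, dist (pr w) (pr x) < R → w ∈ χ.U := by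
  obtain ⟨R, hR, h⟩ := Pool.Agent.H62.EF.near_of_pr (ne_zero hX hx) (χ.isOpen_U.mem_nhds hxU)
  refine ⟨R, hR, fun w hw hd => ?_⟩
  obtain ⟨c, hc, hcw⟩ := h w (ne_zero hX hw) hd
  have := χ.smul_U _ hcw c⁻¹ (inv_ne_zero hc)
  rwa [smul_smul, inv_mul_cancel₀ hc, one_smul] at this

private theorem exists_r (hX : IsCone X) (χ : Chart X) {x : EN N} (hx : x ∈ X) (hxU : x ∈ χ.U) (hq : χ.q x = 0) {ε : ℝ} (hε : 0 < ε) :
    ∃ r : ℝ, 0 < r ∧ r ≤ 2 ∧ ∀ p ∈ ball (0 : ℂ × ℂ) r, dist (pr (χ.σ p)) (pr x) < ε := by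
  have h0 : (0 : ℂ × ℂ) ∈ ball (0 : ℂ × ℂ) 2 := mem_ball_self two_pos
  obtain ⟨c, hc, hxc⟩ := (χ.surj x hx hxU).2
  rw [hq] at hxc
  have h1 : pr x = pr (χ.σ 0) := by
    conv_lhs => rw [hxc]
    exact Pool.Agent.H62.EF.pr_smul _ hc
  have hc1 : ContinuousAt (fun p => pr (χ.σ p)) 0 :=
    (Pool.Agent.H62.EF.continuousAt_pr (ne_zero hX (χ.σ_mem 0 h0).1)).comp (χ.σ_an 0 h0).continuousAt
  have h2 : ∀ᶠ p in 𝓝 (0 : ℂ × ℂ), dist (pr (χ.σ p)) (pr x) < ε := by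
    rw [h1]
    exact Metric.tendsto_nhds.mp hc1.tendsto ε hε
  obtain ⟨r, hr, h⟩ := Metric.eventually_nhds_iff_ball.mp h2
  exact ⟨min r 2, lt_min hr two_pos, min_le_right _ _, fun p hp => h p (ball_subset_ball (min_le_left _ _) hp)⟩

theorem exists_tube_geo {Γ : AddSubgroup ℂ} {B : Set ℂ} {δ : ℝ} (E : EData X Λ u Γ B δ) {b : ℂ} (hb : b ∈ B) :
    ∃ (T : TubeData X) (s η : ℝ) (𝒲 : Set (Wit X)), TubeG Λ u b s η T ∧ WitG Λ u b s η T 𝒲 := by
  have hX := E.cone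
  have hu := E.tor
  have hΛ := E.lat
  obtain ⟨d, hd, hdΛ⟩ := hΛ.discrete
  set η : ℝ := d / 2 with hη
  have hη0 : 0 < η := by rw [hη]; positivity
  -- the covering charts
  have h1 : ∀ x : {x : EN N // x ∈ X ∧ u x - b ∈ Λ}, ∃ (χ : Chart X) (ρ : ℝ) (i j : ℕ) (R : ℝ), x.1 ∈ χ.U ∧ Mon Λ u χ b ρ i j ∧
      (∀ p ∈ ball (0 : ℂ × ℂ) 2, ‖mo b ρ i j p - b‖ < η) ∧ 0 < R ∧ ∀ w ∈ X, dist (pr w) (pr x.1) < R → w ∈ χ.U := by
    rintro ⟨x, hx, hxb⟩
    obtain ⟨χ, ρ, i, j, hxU, -, hm, hs⟩ := exists_nc_chart hX hu (E.nc b hb x hx hxb) hη0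
    obtain ⟨R, hR, hRU⟩ := exists_R hX χ hx hxU
    exact ⟨χ, ρ, i, j, R, hxU, hm, fun p hp => (hs p hp).2, hR, hRU⟩
  choose χ ρ i j R hxU hmon hrange hR hRU using h1
  -- the open cones
  set O : {x : EN N // x ∈ X ∧ u x - b ∈ Λ} → Set (EN N) := fun x => {w | w ≠ 0 ∧ w ∈ (χ x).U ∧ dist (pr w) (pr x.1) < R x / 2} with hO
  have hOopen : ∀ x, IsOpen (O x) := by
    intro x
    rw [isOpen_iff_mem_nhds]
    rintro w ⟨hw0, hwU, hwd⟩
    have e1 : ∀ᶠ y in 𝓝 w, y ≠ 0 := isOpen_ne.mem_nhds hw0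
    have e2 : ∀ᶠ y in 𝓝 w, y ∈ (χ x).U := (χ x).isOpen_U.mem_nhds hwU
    have e3 : ∀ᶠ y in 𝓝 w, dist (pr y) (pr x.1) < R x / 2 :=
      ((Pool.Agent.H62.EF.continuousAt_pr hw0).dist continuousAt_const).eventually (gt_mem_nhds hwd)
    filter_upwards [e1, e2, e3] with y h1 h2 h3
    exact ⟨h1, h2, h3⟩
  have hOsmul : ∀ x, ∀ w ∈ O x, ∀ c : ℂ, c ≠ 0 → c • w ∈ O x := by
    rintro x w ⟨hw0, hwU, hwd⟩ c hc
    refine ⟨smul_ne_zero hc hw0, (χ x).smul_U w hwU c hc, ?_⟩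
    rw [Pool.Agent.H62.EF.pr_smul w hc]
    exact hwd
  obtain ⟨t, ht⟩ := (compact_fib hX hΛ hu b).elim_finite_subcover O hOopen (by
    rintro x ⟨⟨hx, -⟩, hxb⟩
    refine Set.mem_iUnion.mpr ⟨⟨x, hx, hxb⟩, ne_zero hX hx, hxU _, ?_⟩
    rw [dist_self]
    exact half_pos (hR _))
  have hcov : ∀ x ∈ X, u x - b ∈ Λ → ∃ y ∈ t, x ∈ O y := by
    intro x hx hxb
    obtain ⟨c, hc, hcx⟩ := exists_unit hX hx
    obtain ⟨y, hyt, hy⟩ := Set.mem_iUnion₂.mp (ht ⟨hcx, smul_mem_lat hu hx hxb hc⟩)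
    refine ⟨y, hyt, ?_⟩
    have := hOsmul y _ hy c⁻¹ (inv_ne_zero hc)
    rwa [smul_smul, inv_mul_cancel₀ hc, one_smul] at this
  obtain ⟨R₀, hR₀, hR₀t⟩ : ∃ R₀ : ℝ, 0 < R₀ ∧ ∀ x ∈ t, R₀ ≤ R x := by
    have e1 : ∀ᶠ r in 𝓝[>] (0 : ℝ), ∀ x ∈ t, r ≤ R x :=
      (Finset.eventually_all t).mpr fun x _ => mem_nhdsWithin_of_mem_nhds (ge_mem_nhds (hR x))
    obtain ⟨r, hr, hr'⟩ := (e1.and self_mem_nhdsWithin).exists
    exact ⟨r, hr', hr⟩
  -- the witnesses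
  have h2 : ∀ x : {x : EN N // x ∈ X ∧ u x - b ∈ Λ}, ∃ (χ' : Chart X) (ρ' : ℝ) (i' j' : ℕ) (R' r' : ℝ), x.1 ∈ χ'.U ∧ χ'.q x.1 = 0 ∧
      Mon Λ u χ' b ρ' i' j' ∧ (∀ p ∈ ball (0 : ℂ × ℂ) 2, dist (pr (χ'.σ p)) (pr x.1) < R₀ / 8) ∧
      (∀ p ∈ ball (0 : ℂ × ℂ) 2, ‖mo b ρ' i' j' p - b‖ < η) ∧ 0 < R' ∧ (∀ w ∈ X, dist (pr w) (pr x.1) < R' → w ∈ χ'.U) ∧
      0 < r' ∧ r' ≤ 2 ∧ ∀ p ∈ ball (0 : ℂ × ℂ) r', dist (pr (χ'.σ p)) (pr x.1) < R' / 4 := by
    rintro ⟨x, hx, hxb⟩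
    obtain ⟨χ', ρ', i', j', hxU', hq, hm, hs⟩ := exists_nc_chart hX hu (E.nc b hb x hx hxb) (lt_min hη0 (by positivity : 0 < R₀ / 8))
    obtain ⟨R', hR', hRU'⟩ := exists_R hX χ' hx hxU'
    obtain ⟨r', hr', hr2, hrr⟩ := exists_r hX χ' hx hxU' hq (by positivity : 0 < R' / 4)
    exact ⟨χ', ρ', i', j', R', r', hxU', hq, hm, fun p hp => lt_of_lt_of_le (hs p hp).1 (min_le_right _ _),
      fun p hp => lt_of_lt_of_le (hs p hp).2 (min_le_left _ _), hR', hRU', hr', hr2, hrr⟩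
  choose χ' ρ' i' j' R' r' hxU' hq' hmon' hsm' hrange' hR' hRU' hr' hr2' hrr' using h2
  -- the radius
  obtain ⟨s₀, hs₀, hs₀P⟩ := exists_rad hX hΛ hu (b := b)
    (fun y => (∃ x ∈ t, y ∈ O x) ∧ ∃ x, y ∈ (χ' x).U ∧ (χ' x).q y ∈ ball (0 : ℂ × ℂ) (r' x))
    (by
      rintro y - ⟨⟨x, hx, hyx⟩, x', hy1, hy2⟩ c hc
      refine ⟨⟨x, hx, hOsmul x y hyx c hc⟩, x', (χ' x').smul_U y hy1 c hc, ?_⟩
      rw [(χ' x').q_smul y hy1 c hc]
      exact hy2)
    (by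
      intro x hx hxb
      obtain ⟨x₁, hx₁, hxO⟩ := hcov x hx hxb
      have e1 : ∀ᶠ y in 𝓝 x, y ∈ O x₁ := (hOopen x₁).mem_nhds hxO
      have e2 : ∀ᶠ y in 𝓝 x, y ∈ (χ' ⟨x, hx, hxb⟩).U := (χ' ⟨x, hx, hxb⟩).isOpen_U.mem_nhds (hxU' ⟨x, hx, hxb⟩)
      have e3 : ∀ᶠ y in 𝓝 x, (χ' ⟨x, hx, hxb⟩).q y ∈ ball (0 : ℂ × ℂ) (r' ⟨x, hx, hxb⟩) := by
        refine ((χ' ⟨x, hx, hxb⟩).q_an x (hxU' ⟨x, hx, hxb⟩)).continuousAt.eventually (isOpen_ball.mem_nhds ?_)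
        rw [hq' ⟨x, hx, hxb⟩]
        exact mem_ball_self (hr' _)
      filter_upwards [e1, e2, e3] with y h1 h2 h3 _
      exact ⟨⟨x₁, hx₁, h1⟩, ⟨x, hx, hxb⟩, h2, h3⟩)
  refine ⟨⟨t.card, fun k => χ (t.equivFin.symm k).1, fun k => ρ (t.equivFin.symm k).1, fun k => i (t.equivFin.symm k).1,
    fun k => j (t.equivFin.symm k).1, fun k => O (t.equivFin.symm k).1⟩, min s₀ η, η,
    Set.range fun x => ⟨χ' x, ρ' x, i' x, j' x, r' x⟩, ?_, ?_⟩
  · refine ⟨lt_min hs₀ hη0, min_le_right _ _, ?_, fun k => hmon _, fun k => hrange _, fun k => hOopen _, ?_, fun k => hOsmul _, ?_⟩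
    · intro l hl hn
      exact hdΛ l hl (by rw [hη] at hn; linarith)
    · rintro k w ⟨-, hw, -⟩
      exact hw
    · intro z hz x hx hxz
      obtain ⟨⟨y, hy, hxy⟩, -⟩ := hs₀P z (ball_subset_ball (min_le_left _ _) hz) x hx hxz
      refine ⟨t.equivFin ⟨y, hy⟩, ?_⟩
      simp only [Equiv.symm_apply_apply]
      exact hxy
  · refine ⟨?_, ?_, ?_, ?_, ?_, ?_⟩
    · rintro w ⟨x, rfl⟩
      exact ⟨hr' x, hr2' x⟩
    · rintro w ⟨x, rfl⟩
      exact hmon' x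
    · rintro w ⟨x, rfl⟩
      exact hrange' x
    · rintro w ⟨x, rfl⟩ k ⟨p, hp, -, -, hpd⟩ p' hp'
      have hk := hR₀t _ (t.equivFin.symm k).2
      have a1 := hsm' x p (ball_subset_ball (hr2' x) hp)
      have a2 := hsm' x p' hp'
      refine hRU _ _ ((χ' x).σ_mem p' hp').1 ?_
      have a3 := dist_triangle (pr ((χ' x).σ p')) (pr x.1) (pr (t.equivFin.symm k).1.1)
      have a4 := dist_triangle (pr x.1) (pr ((χ' x).σ p)) (pr (t.equivFin.symm k).1.1)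
      rw [dist_comm (pr x.1) (pr ((χ' x).σ p))] at a4
      have a5 : dist (pr ((χ' x).σ p)) (pr (t.equivFin.symm k).1.1) < R (t.equivFin.symm k).1 / 2 := hpd
      have a6 : 0 < R (t.equivFin.symm k).1 := hR _
      linarith
    · rintro w ⟨x, rfl⟩ w' ⟨x', rfl⟩ ⟨p, hp, p', hp', hpp⟩
      have a1 : dist (pr ((χ' x).σ p)) (pr x.1) < R' x / 4 := hrr' x p hp
      have a2 : dist (pr ((χ' x').σ p')) (pr x'.1) < R' x' / 4 := hrr' x' p' hp'
      have hpp' : pr ((χ' x).σ p) = pr ((χ' x').σ p') := hpp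
      rw [hpp'] at a1
      have a3 := dist_triangle (pr x.1) (pr ((χ' x').σ p')) (pr x'.1)
      rw [dist_comm (pr x.1) (pr ((χ' x').σ p'))] at a3
      have b1 := hR' x
      have b2 := hR' x'
      rcases le_total (R' x) (R' x') with hle | hle
      · left
        intro q hq
        refine hRU' x' _ ((χ' x).σ_mem q (ball_subset_ball (hr2' x) hq)).1 ?_
        have a4 := hrr' x q hq
        have a5 := dist_triangle (pr ((χ' x).σ q)) (pr x.1) (pr x'.1)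
        linarith
      · right
        intro q hq
        refine hRU' x _ ((χ' x').σ_mem q (ball_subset_ball (hr2' x') hq)).1 ?_
        have a4 := hrr' x' q hq
        have a5 := dist_triangle (pr ((χ' x').σ q)) (pr x'.1) (pr x.1)
        rw [dist_comm (pr x'.1) (pr x.1)] at a5
        linarith
    · intro z hz x hx hxz
      obtain ⟨-, y, hy1, hy2⟩ := hs₀P z (ball_subset_ball (min_le_left _ _) hz) x hx hxz
      exact ⟨_, ⟨y, rfl⟩, hy1, hy2⟩

end Pool.Agent.H62.EL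

end

section

/-!
# G3 R DT: the derivative is bounded by the characteristic function

Plan.  Let `v` be the component of `F' 0` orthogonal to `F 0` (`v = F' 0 - (⟨F 0, F' 0⟩ / ‖F 0‖²) F 0`), `fs (F 0) (F' 0) = ‖v‖ / ‖F 0‖` (`wd`).  If `v = 0` trivial.  `g z = ⟨v, F z⟩ / ‖v‖` is holomorphic,
`g 0 = 0`, `g' 0 = ‖v‖`, `|g z| ≤ ‖F z‖`; `g z / z` (`dslope g 0`) is holomorphic with the value `‖v‖` at `0`, so `log ‖v‖ ≤ avg log |g z / z| ≤ avg log ‖F‖ - log r` (`log_norm_le_avg` of `G3/C/LemmaU` with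
the continuous majorant `log ‖F‖ - log r`).
-/

set_option autoImplicit false

open Topology Filter Metric

namespace Pool.Agent.G3

open Pool.Agent.H36.BP (EN fs wd Sub)
open Pool.Agent.H14.PP (IsCone CurveAt Tan)
open Pool.Agent.H62.EF (MN pr)
open Pool.Agent.AD (Vd Chart Charts)
open Pool.Agent.TG (TMap Gd)

theorem fs_le_TT {N : ℕ} {F : ℂ → EN N} {R r : ℝ} (hr : 0 < r) (hR : r < R) (hF : DifferentiableOn ℂ F (ball 0 R)) (h0 : ∀ z ∈ ball (0 : ℂ) R, F z ≠ 0) :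
    fs (F 0) (deriv F 0) ≤ Real.exp (TT F 0 r) / r := by
  have hR0 : 0 < R := hr.trans hR
  have h00 : (0 : ℂ) ∈ ball (0 : ℂ) R := mem_ball_self hR0
  have hx : F 0 ≠ 0 := h0 0 h00
  have hnx : 0 < ‖F 0‖ := norm_pos_iff.mpr hx
  set b : ℂ := inner ℂ (F 0) (deriv F 0) / ((‖F 0‖ : ℝ) : ℂ) ^ 2 with hb
  set v : EN N := deriv F 0 - b • F 0 with hv
  have hxx : (inner ℂ (F 0) (F 0) : ℂ) = ((‖F 0‖ : ℝ) : ℂ) ^ 2 := inner_self_eq_norm_sq_to_K (F 0)
  have hnxC : ((‖F 0‖ : ℝ) : ℂ) ^ 2 ≠ 0 := pow_ne_zero 2 (Complex.ofReal_ne_zero.mpr hnx.ne')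
  have hxv : (inner ℂ (F 0) v : ℂ) = 0 := by
    rw [hv, inner_sub_right, inner_smul_right, hxx, hb, div_mul_cancel₀ _ hnxC, sub_self]
  have hvx : (inner ℂ v (F 0) : ℂ) = 0 := by
    rw [← inner_conj_symm, hxv, map_zero]
  have hwd : wd (F 0) (deriv F 0) = ‖F 0‖ * ‖v‖ := by
    have h1 := Pool.Agent.H36.BP.wd_inv (F 0) v 1 b
    have h2 : (1 : ℂ) • v + b • F 0 = deriv F 0 := by rw [hv]; simp
    rw [h2, one_smul, norm_one, one_pow, one_mul] at h1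
    rw [h1]
    have h3 := Pool.Agent.H36.BP.wd_sq (F 0) v
    rw [hxv, norm_zero] at h3
    have h4 : wd (F 0) v ^ 2 = (‖F 0‖ * ‖v‖) ^ 2 := by rw [h3]; ring
    exact (pow_left_inj₀ (Pool.Agent.H36.BP.wd_nonneg _ _) (by positivity) two_ne_zero).mp h4
  have hfs : fs (F 0) (deriv F 0) = ‖v‖ / ‖F 0‖ := by
    rw [fs, hwd]
    field_simp
  rw [hfs]
  by_cases hv0 : v = 0
  · rw [hv0, norm_zero, zero_div]
    positivity
  have hnv : 0 < ‖v‖ := norm_pos_iff.mpr hv0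
  set g : ℂ → ℂ := fun z => inner ℂ (((‖v‖⁻¹ : ℝ) : ℂ) • v) (F z) with hg
  have hunit : ‖((‖v‖⁻¹ : ℝ) : ℂ) • v‖ = 1 := by
    rw [norm_smul, Complex.norm_real, Real.norm_eq_abs, abs_of_pos (inv_pos.mpr hnv), inv_mul_cancel₀ hnv.ne']
  have hgd : DifferentiableOn ℂ g (ball 0 R) := by
    have := (innerSL ℂ (((‖v‖⁻¹ : ℝ) : ℂ) • v)).differentiable.comp_differentiableOn hF
    exact this
  have hg0 : g 0 = 0 := by
    simp only [hg, inner_smul_left, hvx, mul_zero]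
  have hg1 : deriv g 0 = (‖v‖ : ℂ) := by
    have hF0 : HasDerivAt F (deriv F 0) 0 := (hF.differentiableAt (isOpen_ball.mem_nhds h00)).hasDerivAt
    have h1 : HasDerivAt g (innerSL ℂ (((‖v‖⁻¹ : ℝ) : ℂ) • v) (deriv F 0)) 0 :=
      (innerSL ℂ (((‖v‖⁻¹ : ℝ) : ℂ) • v)).hasFDerivAt.comp_hasDerivAt 0 hF0
    rw [h1.deriv, innerSL_apply_apply]
    have h2 : deriv F 0 = v + b • F 0 := by rw [hv]; simp
    rw [h2, inner_add_right, inner_smul_right, inner_smul_left, inner_smul_left, hvx, mul_zero, mul_zero, add_zero,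
      inner_self_eq_norm_sq_to_K, Complex.conj_ofReal]
    have hvC : ((‖v‖ : ℝ) : ℂ) ≠ 0 := Complex.ofReal_ne_zero.mpr hnv.ne'
    push_cast
    field_simp
    rfl
  have hgb : ∀ z, ‖g z‖ ≤ ‖F z‖ := by
    intro z
    have := norm_inner_le_norm (𝕜 := ℂ) (((‖v‖⁻¹ : ℝ) : ℂ) • v) (F z)
    rwa [hunit, one_mul] at this
  have hball : closedBall (0 : ℂ) r ⊆ ball 0 R := closedBall_subset_ball hR
  have hPd : DifferentiableOn ℂ (dslope g 0) (ball 0 R) :=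
    (Complex.differentiableOn_dslope (isOpen_ball.mem_nhds h00)).mpr hgd
  have hPa : AnalyticOnNhd ℂ (dslope g 0) (closedBall 0 r) := (hPd.analyticOnNhd isOpen_ball).mono hball
  have hP0 : dslope g 0 0 = (‖v‖ : ℂ) := by rw [dslope_same, hg1]
  have hPne : dslope g 0 0 ≠ 0 := by
    rw [hP0]
    exact Complex.ofReal_ne_zero.mpr hnv.ne'
  have hsph : sphere (0 : ℂ) r ⊆ ball 0 R := sphere_subset_closedBall.trans hball
  have hcF : ContinuousOn (fun z => Real.log ‖F z‖) (sphere 0 r) := by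
    apply ContinuousOn.log ((hF.continuousOn.mono hsph).norm)
    intro z hz
    exact (norm_pos_iff.mpr (h0 z (hsph hz))).ne'
  have hcG : ContinuousOn (fun z => Real.log ‖F z‖ - Real.log r) (sphere 0 r) := hcF.sub continuousOn_const
  have hle : ∀ z ∈ sphere (0 : ℂ) r, ‖dslope g 0 z‖ ≤ Real.exp (Real.log ‖F z‖ - Real.log r) := by
    intro z hz
    have hzr : ‖z‖ = r := by simpa using hz
    have hz0 : z ≠ 0 := by
      intro h
      rw [h, norm_zero] at hzr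
      exact hr.ne hzr
    rw [dslope_of_ne _ hz0, slope_def_field, hg0, sub_zero, sub_zero, norm_div, hzr, Real.exp_sub, Real.exp_log hr,
      Real.exp_log (norm_pos_iff.mpr (h0 z (hsph hz)))]
    exact div_le_div_of_nonneg_right (hgb z) hr.le
  have hkey := Pool.Agent.G3.C.log_norm_le_avg hr hPa hPne hcG hle
  have har : |r| = r := abs_of_pos hr
  have hci : CircleIntegrable (fun z => Real.log ‖F z‖) 0 r := by
    apply ContinuousOn.circleIntegrable hr.le hcF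
  have hav : Real.circleAverage (fun z => Real.log ‖F z‖ - Real.log r) 0 r =
      Real.circleAverage (fun z => Real.log ‖F z‖) 0 r - Real.log r := by
    rw [Real.circleAverage_fun_sub hci (circleIntegrable_const _ _ _), Real.circleAverage_const]
  rw [hav, hP0, Complex.norm_real, Real.norm_eq_abs, abs_of_pos hnv] at hkey
  have hTT : Real.log (‖v‖ / ‖F 0‖) ≤ TT F 0 r - Real.log r := by
    rw [Real.log_div hnv.ne' hnx.ne', TT]
    linarith
  calc ‖v‖ / ‖F 0‖ = Real.exp (Real.log (‖v‖ / ‖F 0‖)) := (Real.exp_log (by positivity)).symm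
    _ ≤ Real.exp (TT F 0 r - Real.log r) := Real.exp_le_exp.mpr hTT
    _ = Real.exp (TT F 0 r) / r := by rw [Real.exp_sub, Real.exp_log hr]

end Pool.Agent.G3

end

section

/-!
# G3 R Defs: Theorem ROOT and normalised curves

`RootLog`: the statement of Theorem ROOT.  `Nrm`: a curve on the disc of radius `R` with `Mf 0 = 1` for which the function `(1 - |z|²/R²)² Mf² / (A + Lam)` is maximal at the centre.
`RT`: the curve is in the situation of all theorems of this block.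
-/

set_option autoImplicit false

open Topology Filter Metric

namespace Pool.Agent.G3

open Pool.Agent.H36.BP (EN fs wd Sub)
open Pool.Agent.H14.PP (IsCone CurveAt Tan)
open Pool.Agent.H62.EF (MN pr)
open Pool.Agent.AD (Vd Chart Charts)
open Pool.Agent.TG (TMap Gd)

variable {N k : ℕ}

/-- Theorem ROOT: `|h'|²` and `p ^ (2/m)` are bounded by the functional -/
def RootLog (X : Set (EN N)) (Λ : AddSubgroup (Vd (k + 1))) (u : EN N → Vd (k + 1)) (Q : EN N → ℂ) (d : ℕ) (p : EN N → EN N → ℝ) (m : ℕ) (C : ℝ) : Prop :=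
  ∀ (w : ℂ) (r : ℝ) (F : ℂ → EN N) (h : ℂ → Vd (k + 1)), 0 < r → Cv X Λ u (ball w r) F h → Ok Q p F w →
    r ^ 2 * ‖deriv h w‖ ^ 2 ≤ C * (1 + Lam Q d p m F h w) ∧ r ^ 2 * (pf p F w) ^ (2 / (m : ℝ)) ≤ C * (1 + Lam Q d p m F h w)

/-- a normalised curve -/
structure Nrm (X : Set (EN N)) (Λ : AddSubgroup (Vd (k + 1))) (u : EN N → Vd (k + 1)) (Q : EN N → ℂ) (d : ℕ) (p : EN N → EN N → ℝ) (m : ℕ) (ε A R : ℝ) (F : ℂ → EN N)
    (h : ℂ → Vd (k + 1)) : Prop where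
  R_pos : 0 < R
  A_pos : 0 < A
  cv : Cv X Λ u (ball 0 R) F h
  ok : Ok Q p F 0
  one : Mf p m ε F h 0 = 1
  le : ∀ z ∈ ball (0 : ℂ) R, Ok Q p F z → Mf p m ε F h z ^ 2 * (1 - ‖z‖ ^ 2 / R ^ 2) ^ 2 * (A + Lam Q d p m F h 0) ≤ A + Lam Q d p m F h z

end Pool.Agent.G3

end

section

/-!
# G3 X FrmA: frames along the slab

Port of `TG/Y/Frm.lean`: `p + z • e` becomes `ar κ g z`, `a • e` becomes `a • deriv (ar κ g) (wa x)`, `fr κ c z` becomes `fr κ (cg g) z`, `dt κ e c` becomes `dta κ g`.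
`La.tan`: `υ z = ar κ g (W (γ z))`.
`La.frame_coord`: case `wa x₀ ≠ 0`: as there (`L.off`, `L.kp.sub`, straight chart).  Case `wa x₀ = 0`: the normal crossing chart `χ, r, a, b` from `L.nc x₀` (no centering: `χ.q x₀` is an arbitrary point of `ball 0 2`), `lam x j = r⁻¹ • Pi.single j.succ.succ 1`; for `x ∈ Ya` in `χ.U`: `κ (nm a b (r • χ.q x)) - κ (cg g (wa x)) ∈ Λ`,
both arguments are in `ball 0 R`, so `nm a b (r • χ.q x) = cg g (wa x)` (`Kp.inj`); `Frm_nm_fderiv` etc. are private in `Frm.lean`: copy them.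
-/

set_option autoImplicit false

open Topology Filter Metric

namespace Pool.Agent.GX

open Pool.Agent.H36.BP (EN fs wd)
open Pool.Agent.H14.PP (IsCone CurveAt Tan)
open Pool.Agent.H62.EF (MN pr)
open Pool.Agent.AD (Vd Chart Charts IsGerm)
open Pool.Agent.TG (TMap Lat tl nm IsStr IsNC IsCoord Geo VForm ms Str IsPrim Cap IRel II TransAt Gd Cst DV tc)

variable {N k : ℕ}

variable {X : Set (EN N)} {Λ : AddSubgroup (Vd (k + 1))} {u : EN N → Vd (k + 1)} {D B : Set (Vd (k + 1))}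
  {κ ψ : Vd (k + 1) → Vd (k + 1)} {R : ℝ} {g : ℂ → Fin k → ℂ} {Γ₀ : AddSubgroup ℂ} {s : ℝ}

/-- tail of a vector -/
theorem FrmA_tl_cons (a : ℂ) (v : Vd (k + 1)) : tl (Fin.cons a v : Vd (k + 2)) = v := rfl

theorem FrmA_ms_fderiv (y : Vd (k + 1)) (ρ : ℝ) (q w : Vd (k + 2)) : HasFDerivAt (ms y ρ) (fderiv ℂ (ms y ρ) q) q ∧ AnalyticAt ℂ (ms y ρ) q ∧
    fderiv ℂ (ms y ρ) q w = (ρ : ℂ) • tl w := by
  have h1 : AnalyticAt ℂ (ms y ρ) q := by
    rw [show ms y ρ = fun p : Vd (k + 2) => fun i : Fin (k + 1) => y i + (ρ : ℂ) * p i.succ from rfl, analyticAt_pi_iff]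
    intro i
    have h2 : AnalyticAt ℂ (fun p : Vd (k + 2) => p i.succ) q :=
      (ContinuousLinearMap.proj (R := ℂ) (φ := fun _ : Fin (k + 2) => ℂ) i.succ).analyticAt _
    exact analyticAt_const.add (analyticAt_const.mul h2)
  refine ⟨h1.differentiableAt.hasFDerivAt, h1, ?_⟩
  have h2 : HasDerivAt (fun t : ℂ => ms y ρ (q + t • w)) (fderiv ℂ (ms y ρ) q w) 0 := by
    have h3 : HasDerivAt (fun t : ℂ => q + t • w) w 0 := by
      have h4 : HasDerivAt (fun z : ℂ => z • w) ((1 : ℂ) • w) 0 := (hasDerivAt_id (0 : ℂ)).smul_const w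
      rw [one_smul] at h4
      exact h4.const_add q
    have h5 : HasFDerivAt (ms y ρ) (fderiv ℂ (ms y ρ) q) (q + (0 : ℂ) • w) := by
      rw [zero_smul, add_zero]; exact h1.differentiableAt.hasFDerivAt
    exact h5.comp_hasDerivAt (0 : ℂ) h3
  have h3 : HasDerivAt (fun t : ℂ => ms y ρ (q + t • w)) ((ρ : ℂ) • tl w) 0 := by
    have h4 : (fun t : ℂ => ms y ρ (q + t • w)) = fun t : ℂ => ms y ρ q + t • ((ρ : ℂ) • tl w) := by
      funext t i
      simp only [ms, tl, Pi.add_apply, Pi.smul_apply, smul_eq_mul]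
      ring
    rw [h4]
    have h5 : HasDerivAt (fun t : ℂ => t • ((ρ : ℂ) • tl w)) ((1 : ℂ) • ((ρ : ℂ) • tl w)) 0 := (hasDerivAt_id (0 : ℂ)).smul_const _
    rw [one_smul] at h5
    exact h5.const_add _
  exact h2.unique h3

private theorem FrmA_nm (a b : ℕ) (q : Vd (k + 2)) (t : ℂ) (j : Fin k) :
    nm a b (q + t • (Pi.single j.succ.succ 1 : Vd (k + 2))) = nm a b q + t • (Pi.single j.succ 1 : Vd (k + 1)) := by
  funext i
  refine Fin.cases ?_ (fun i => ?_) i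
  · have h0 : (Pi.single j.succ.succ 1 : Vd (k + 2)) 0 = 0 := Pi.single_eq_of_ne (Fin.succ_ne_zero _).symm _
    have h1 : (Pi.single j.succ.succ 1 : Vd (k + 2)) 1 = 0 := by
      apply Pi.single_eq_of_ne
      intro h
      have h' := congrArg Fin.val h
      simp at h'
    have h2 : (Pi.single j.succ 1 : Vd (k + 1)) 0 = 0 := Pi.single_eq_of_ne (Fin.succ_ne_zero _).symm _
    simp only [nm, Fin.cons_zero, Pi.add_apply, Pi.smul_apply, h0, h1, h2, smul_zero, add_zero]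
  · simp only [nm, Fin.cons_succ, Pi.add_apply, Pi.smul_apply, smul_eq_mul]
    congr 2
    by_cases h : i = j
    · subst h; simp
    · rw [Pi.single_eq_of_ne, Pi.single_eq_of_ne]
      · exact fun h' => h (Fin.succ_injective _ h')
      · exact fun h' => h (Fin.succ_injective _ (Fin.succ_injective _ h'))

private theorem FrmA_nm_an (a b : ℕ) (q : Vd (k + 2)) : AnalyticAt ℂ (nm a b : Vd (k + 2) → Vd (k + 1)) q := by
  have h : ∀ i : Fin (k + 2), AnalyticAt ℂ (fun p : Vd (k + 2) => p i) q := fun i =>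
    (ContinuousLinearMap.proj (R := ℂ) (φ := fun _ : Fin (k + 2) => ℂ) i).analyticAt _
  rw [show (nm a b : Vd (k + 2) → Vd (k + 1)) = fun p i => nm a b p i from rfl, analyticAt_pi_iff]
  intro i
  refine Fin.cases ?_ (fun i => ?_) i
  · exact ((h 0).pow a).mul ((h 1).pow b)
  · exact h i.succ.succ

/-- the coordinates of `κ (nm a b (r • q))` -/
theorem FrmA_nm_fderiv {κ : Vd (k + 1) → Vd (k + 1)} {a b : ℕ} {r : ℂ} (hr : r ≠ 0) {q : Vd (k + 2)} (hκ : AnalyticAt ℂ κ (nm a b (r • q))) (j : Fin k) :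
    AnalyticAt ℂ (fun q => κ (nm a b (r • q))) q ∧
    fderiv ℂ (fun q => κ (nm a b (r • q))) q (r⁻¹ • Pi.single j.succ.succ 1) = fderiv ℂ κ (nm a b (r • q)) (Pi.single j.succ 1) := by
  have h0 : AnalyticAt ℂ (fun q : Vd (k + 2) => r • q) q := analyticAt_const.fun_smul analyticAt_id
  have h1 : AnalyticAt ℂ (fun q : Vd (k + 2) => nm a b (r • q)) q := AnalyticAt.comp (g := nm a b) (f := fun q : Vd (k + 2) => r • q) (FrmA_nm_an a b _) h0
  have h2 : AnalyticAt ℂ (fun q => κ (nm a b (r • q))) q := AnalyticAt.comp (g := κ) (f := fun q : Vd (k + 2) => nm a b (r • q)) hκ h1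
  refine ⟨h2, ?_⟩
  set w : Vd (k + 2) := r⁻¹ • Pi.single j.succ.succ 1 with hw
  have h3 : HasDerivAt (fun t : ℂ => κ (nm a b (r • (q + t • w)))) (fderiv ℂ (fun q => κ (nm a b (r • q))) q w) 0 := by
    have h3 : HasDerivAt (fun t : ℂ => q + t • w) w 0 := by
      have h4 : HasDerivAt (fun z : ℂ => z • w) ((1 : ℂ) • w) 0 := (hasDerivAt_id (0 : ℂ)).smul_const w
      rw [one_smul] at h4
      exact h4.const_add q
    have h5 : HasFDerivAt (fun q => κ (nm a b (r • q))) (fderiv ℂ (fun q => κ (nm a b (r • q))) q) (q + (0 : ℂ) • w) := by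
      rw [zero_smul, add_zero]; exact h2.differentiableAt.hasFDerivAt
    exact h5.comp_hasDerivAt (0 : ℂ) h3
  have h4 : HasDerivAt (fun t : ℂ => κ (nm a b (r • (q + t • w)))) (fderiv ℂ κ (nm a b (r • q)) (Pi.single j.succ 1)) 0 := by
    have e1 : (fun t : ℂ => κ (nm a b (r • (q + t • w)))) = fun t : ℂ => κ (nm a b (r • q) + t • (Pi.single j.succ 1 : Vd (k + 1))) := by
      funext t
      rw [← FrmA_nm, hw, smul_add, smul_comm r t, smul_smul r r⁻¹, mul_inv_cancel₀ hr, one_smul]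
    rw [e1]
    have h6 : HasDerivAt (fun t : ℂ => nm a b (r • q) + t • (Pi.single j.succ 1 : Vd (k + 1))) (Pi.single j.succ 1) 0 := by
      have h4 : HasDerivAt (fun z : ℂ => z • (Pi.single j.succ 1 : Vd (k + 1))) ((1 : ℂ) • (Pi.single j.succ 1 : Vd (k + 1))) 0 := (hasDerivAt_id (0 : ℂ)).smul_const _
      rw [one_smul] at h4
      exact h4.const_add _
    have h7 : HasFDerivAt κ (fderiv ℂ κ (nm a b (r • q))) (nm a b (r • q) + (0 : ℂ) • (Pi.single j.succ 1 : Vd (k + 1))) := by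
      rw [zero_smul, add_zero]; exact hκ.differentiableAt.hasFDerivAt
    exact h7.comp_hasDerivAt (0 : ℂ) h6
  exact h3.unique h4

theorem FrmA_nm_mem {a b : ℕ} {r R : ℝ} (hr : 0 < r) (hlt : 2 * r < R) (hrng : (2 * r) ^ (a + b) < R) {q : Vd (k + 2)}
    (hq : q ∈ ball (0 : Vd (k + 2)) 2) : (nm a b ((r : ℂ) • q) : Vd (k + 1)) ∈ ball (0 : Vd (k + 1)) R := by
  have hR : 0 < R := lt_trans (by positivity) hlt
  have hq' : ‖q‖ < 2 := mem_ball_zero_iff.1 hq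
  have hc : ∀ i, ‖((r : ℂ) • q) i‖ < 2 * r := by
    intro i
    rw [Pi.smul_apply, norm_smul, Complex.norm_real, Real.norm_of_nonneg hr.le, mul_comm]
    exact mul_lt_mul_of_pos_right (lt_of_le_of_lt (norm_le_pi_norm q i) hq') hr
  rw [mem_ball_zero_iff, pi_norm_lt_iff hR]
  intro i
  refine Fin.cases ?_ (fun i => ?_) i
  · show ‖((r : ℂ) • q) 0 ^ a * ((r : ℂ) • q) 1 ^ b‖ < R
    refine lt_of_le_of_lt ?_ hrng
    rw [norm_mul, norm_pow, norm_pow, pow_add]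
    exact mul_le_mul (pow_le_pow_left₀ (norm_nonneg _) (hc 0).le a) (pow_le_pow_left₀ (norm_nonneg _) (hc 1).le b) (by positivity) (by positivity)
  · show ‖((r : ℂ) • q) i.succ.succ‖ < R
    exact (hc _).trans hlt

end Pool.Agent.GX

end
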