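import Pool.Agent.H94.G4T.G4.C.PT
import Pool.Agent.H94.G4T.M101
import Pool.Agent.H94.G4T.M130
import Pool.Agent.H94.G4T.M131

/-! The parts of this file: G4.C.GCb, G4.C.PVc, G3.X.Main. -/

section

/-!
# G4 C GCb: a bound for the jet form on the boundary of a box without bad points holds in the box

For a good `s'` the function `z ↦ pval P a b Φ s' z (F z) • F z` is holomorphic near `closedBall z₀ r` (`pval_hol`), so bounded by `C` (`Complex.norm_le_of_forall_mem_frontier_norm_le`).  For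
arbitrary `s`, `|s - s₀| < δ`, and `z` off `Dt`: `pval_normCont` at `(s, z)` and good `s' → s` (`good_dense`).
-/

set_option autoImplicit false

open Topology Filter Metric

namespace Pool.Agent.G4.C

open Pool.Agent.H36.BP (EN fs wd)
open Pool.Agent.H14.PP (IsCone)
open Pool.Agent.H62.EF (MN pr)
open Pool.Agent.AD (Vd Chart Charts)
open Pool.Agent.TG (TMap Lat Str ms tl)
open Pool.Agent.G3.C

variable {N k : ℕ} {X : Set (EN N)} {Λ : AddSubgroup (Vd (k + 1))} {u : EN N → Vd (k + 1)} {ν a b c : Vd (k + 1)} {m : ℕ} {ρ : ℝ}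
  {Dt Bd : Set (ℂ × ℂ)} {Φ : ℝ → ℂ → MN N}

/-- the bound in the disc, for a good parameter -/
private theorem gcb_disc (D : SDat X Λ u a ν b Dt Bd Φ) (P : JForm X Λ u ν m) {s : ℝ} {z₀ : ℂ} {r C : ℝ}
    (hr : 0 < r) (hS : ∀ z ∈ closedBall z₀ r, Smo X Λ u a ν b Φ s z)
    (hC : ∀ z ∈ sphere z₀ r, ∀ x : EN N, x ≠ 0 → Φ s z = pr x → ‖pval P a b Φ s z x‖ * ‖x‖ ≤ C) :
    ∀ z ∈ closedBall z₀ r, ∃ x : EN N, x ≠ 0 ∧ Φ s z = pr x ∧ ‖pval P a b Φ s z x‖ * ‖x‖ ≤ C := by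
  obtain ⟨F, ⟨hFd, hFX, -⟩, hF⟩ := D.lift s
  have hF0 : ∀ z, F z ≠ 0 := fun z h0 => D.cone.zero_notMem (h0 ▸ hFX z)
  have hg : ∀ z ∈ closedBall z₀ r, DifferentiableAt ℂ (fun z => pval P a b Φ s z (F z) • F z) z := by
    intro z hz
    exact (pval_hol D.cone hFd hF0 hF (hS z hz) P).differentiableAt.smul (hFd z)
  have hd : DiffContOnCl ℂ (fun z => pval P a b Φ s z (F z) • F z) (ball z₀ r) := by
    refine DifferentiableOn.diffContOnCl fun z hz => ?_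
    rw [closure_ball z₀ hr.ne'] at hz
    exact (hg z hz).differentiableWithinAt
  intro z hz
  refine ⟨F z, hF0 z, hF z, ?_⟩
  have h1 := Complex.norm_le_of_forall_mem_frontier_norm_le isBounded_ball hd (C := C) (fun y hy => ?_) (z := z) (by rwa [closure_ball z₀ hr.ne'])
  · rwa [norm_smul] at h1
  · rw [frontier_ball z₀ hr.ne'] at hy
    rw [norm_smul]
    exact hC y hy (F y) (hF0 y) (hF y)

/-- the bound on the boundary of a box without bad points holds in the box -/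
theorem pval_box (D : SDat X Λ u a ν b Dt Bd Φ) (P : JForm X Λ u ν m) {s₀ : ℝ} {z₀ : ℂ} {r δ C : ℝ} (hr : 0 < r)
    (hsph : ∀ s : ℝ, |s - s₀| ≤ δ → ∀ z ∈ sphere z₀ r, ((s : ℂ), z) ∉ Dt) (hbd : ∀ s : ℝ, |s - s₀| ≤ δ → ∀ z ∈ closedBall z₀ r, ((s : ℂ), z) ∉ Bd)
    (hC : ∀ s : ℝ, |s - s₀| ≤ δ → ∀ z ∈ sphere z₀ r, ∀ x : EN N, x ≠ 0 → Φ s z = pr x → ‖pval P a b Φ s z x‖ * ‖x‖ ≤ C) :
    ∀ s : ℝ, |s - s₀| < δ → ∀ z ∈ ball z₀ r, ((s : ℂ), z) ∉ Dt → ∀ x : EN N, x ≠ 0 → Φ s z = pr x → ‖pval P a b Φ s z x‖ * ‖x‖ ≤ C := by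
  have hden := good_dense D hsph hbd
  intro s hs z hz hqD x hx hΦx
  have hS := D.smo s z hqD
  refine le_of_forall_pos_le_add fun ε hε => ?_
  have hev := pval_normCont D.cone hS P hx hΦx hε
  have hev2 : ∀ᶠ s' in 𝓝 s, ∀ x' : EN N, x' ≠ 0 → Φ s' z = pr x' → |‖pval P a b Φ s' z x'‖ * ‖x'‖ - ‖pval P a b Φ s z x‖ * ‖x‖| < ε := by
    have hc : Tendsto (fun s' : ℝ => ((s', z) : ℝ × ℂ)) (𝓝 s) (𝓝 (s, z)) := by
      have : Continuous fun s' : ℝ => ((s', z) : ℝ × ℂ) := by fun_prop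
      exact this.tendsto s
    exact hc.eventually hev
  obtain ⟨η, hη, hball⟩ := Metric.eventually_nhds_iff_ball.1 hev2
  obtain ⟨s', hs'1, hs'2, hs'3⟩ := hden s hs η hη
  obtain ⟨x', hx'0, hx', hx'C⟩ := gcb_disc D P hr hs'3 (fun z hz => hC s' hs'2.le z hz) z (ball_subset_closedBall hz)
  have h1 := abs_lt.1 (hball s' (by simpa [Real.dist_eq] using hs'1) x' hx'0 hx')
  linarith [h1.1]

end Pool.Agent.G4.C

end

section

/-!
# G4 C PVc: the bound for the jet form on the sheets, off the bad points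

`pT_loc0`: near a point off `D` by continuity (`BoxT.pT_norm`).  `pT_loc`: near a point of `D` which is not bad by `pval_box`.  `pT_bound`: compactness of `T` modulo `Λ ∩ E`.
-/

set_option autoImplicit false

open Topology Filter Metric

namespace Pool.Agent.G4.C

open Pool.Agent.H36.BP (EN fs wd)
open Pool.Agent.H14.PP (IsCone)
open Pool.Agent.H62.EF (MN pr)
open Pool.Agent.AD (Vd Chart Charts)
open Pool.Agent.TG (TMap Lat Str ms tl Gd gd_mono gd_notMem gd_closed gd_near)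
open Pool.Agent.G3.A (Tb)
open Pool.Agent.G3.C

variable {N k : ℕ} {X : Set (EN N)} {Λ : AddSubgroup (Vd (k + 1))} {u : EN N → Vd (k + 1)} {ν a b c : Vd (k + 1)} {m : ℕ} {ρ : ℝ} {E : Submodule ℝ (Vd (k + 1))}
  {D Bad T : Set (Vd (k + 1))} {SS : Set (Vd (k + 1) → MN N)} {φ : Vd (k + 1) → MN N} {χ : Chart (k + 2) X} {w : ℕ → Vd (k + 1) → ℂ} {y₀ : Vd (k + 1)} {r : ℝ}

/-- the bound `C` for the jet form at the point `y` -/
def BdAt (P : JForm X Λ u ν m) (a : Vd (k + 1)) (φ : Vd (k + 1) → MN N) (C : ℝ) (y : Vd (k + 1)) : Prop := ∀ x : EN N, x ≠ 0 → φ y = pr x → ‖pT P a φ y x‖ * ‖x‖ ≤ C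

theorem BdAt.mono {P : JForm X Λ u ν m} {C C' : ℝ} {y : Vd (k + 1)} (h : BdAt P a φ C y) (hC : C ≤ C') : BdAt P a φ C' y := fun x hx hφ => (h x hx hφ).trans hC

theorem TDat.add_mem (S : TDat X Λ u a ν b E D Bad SS) {y v : Vd (k + 1)} (hy : y ∈ Tb b E) (hv : v ∈ E) : y + v ∈ Tb b E := by
  show y + v - b ∈ E
  have e : y + v - b = (y - b) + v := by abel
  rw [e]
  exact E.add_mem hy hv

theorem tb_closed (b : Vd (k + 1)) (E : Submodule ℝ (Vd (k + 1))) : IsClosed (Tb b E) := by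
  have h1 : IsClosed (E : Set (Vd (k + 1))) := E.closed_of_finiteDimensional
  exact h1.preimage (continuous_id.sub continuous_const)

private theorem pT_loc0 (S : TDat X Λ u a ν b E D Bad SS) (P : JForm X Λ u ν m) (hφ : φ ∈ SS) (hy₀ : y₀ ∈ Tb b E) (hD : y₀ ∉ D) :
    ∃ C : ℝ, ∀ᶠ y in 𝓝[Tb b E] y₀, BdAt P a φ C y := by
  obtain ⟨χ, c, ρ, w, r, B⟩ := S.smo φ hφ y₀ hy₀ hD
  have hT : Tb b E ∩ ball y₀ r ∈ 𝓝[Tb b E] y₀ := inter_mem self_mem_nhdsWithin (mem_nhdsWithin_of_mem_nhds (ball_mem_nhds y₀ B.pos))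
  have hy₀' : y₀ ∈ Tb b E ∩ ball y₀ r := ⟨hy₀, mem_ball_self B.pos⟩
  have hw : ∀ j, ContinuousWithinAt (w j) (Tb b E) y₀ := fun j => by
    have h1 := (B.cont j) y₀ hy₀'
    rwa [ContinuousWithinAt, nhdsWithin_inter_of_mem' (mem_nhdsWithin_of_mem_nhds (ball_mem_nhds y₀ B.pos))] at h1
  have hq : cy c ρ (w 0 y₀) y₀ ∈ ball (0 : Vd (k + 2)) 2 := B.mem y₀ hy₀'
  have hv : ContinuousWithinAt (fun y => ((y, fun j : Fin (m + 1) => w j y) : Vd (k + 1) × (Fin (m + 1) → ℂ))) (Tb b E) y₀ :=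
    continuousWithinAt_id.prodMk (continuousWithinAt_pi.2 fun j => hw j)
  have hQ : ContinuousWithinAt (fun y => QY P χ c ρ (y, fun j : Fin (m + 1) => w j y)) (Tb b E) y₀ := by
    have h0a : AnalyticAt ℂ (QY P χ c ρ) (y₀, fun j : Fin (m + 1) => w j y₀) := QY_analytic P B.str hq
    have h1 : ContinuousAt (QY P χ c ρ) (y₀, fun j : Fin (m + 1) => w j y₀) := h0a.continuousAt
    exact ContinuousAt.comp_continuousWithinAt (g := QY P χ c ρ) (f := fun y => ((y, fun j : Fin (m + 1) => w j y) : Vd (k + 1) × (Fin (m + 1) → ℂ))) h1 hv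
  have hcy : ContinuousAt (fun p : ℂ × Vd (k + 1) => cy c ρ p.1 p.2) (w 0 y₀, y₀) := (cy_analytic analyticAt_fst analyticAt_snd).continuousAt
  have hcy' : ContinuousWithinAt (fun y => cy c ρ (w 0 y) y) (Tb b E) y₀ :=
    ContinuousAt.comp_continuousWithinAt (g := fun p : ℂ × Vd (k + 1) => cy c ρ p.1 p.2) (f := fun y => ((w 0 y, y) : ℂ × Vd (k + 1))) hcy ((hw 0).prodMk continuousWithinAt_id)
  have hσ : ContinuousWithinAt (fun y => χ.σ (cy c ρ (w 0 y) y)) (Tb b E) y₀ :=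
    ContinuousAt.comp_continuousWithinAt (g := χ.σ) (f := fun y => cy c ρ (w 0 y) y) (χ.σ_an _ hq).continuousAt hcy'
  have hG : ContinuousWithinAt (fun y => ‖QY P χ c ρ (y, fun j : Fin (m + 1) => w j y)‖ * ‖χ.σ (cy c ρ (w 0 y) y)‖) (Tb b E) y₀ := hQ.norm.mul hσ.norm
  obtain ⟨C, hC⟩ := exists_gt (‖QY P χ c ρ (y₀, fun j : Fin (m + 1) => w j y₀)‖ * ‖χ.σ (cy c ρ (w 0 y₀) y₀)‖)
  refine ⟨C, ?_⟩
  filter_upwards [hT, hG.eventually_lt_const hC] with y hy hyC x hx hφx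
  rw [B.pT_norm S.cone P (fun s z => S.tb hy.1 s z) hy.2 hx hφx]
  exact hyC.le

theorem pT_loc (S : TDat X Λ u a ν b E D Bad SS) (P : JForm X Λ u ν m) (hφ : φ ∈ SS) (hy₀ : y₀ ∈ Tb b E) (hB : y₀ ∉ Bad) :
    ∃ C : ℝ, ∀ᶠ y in 𝓝[Tb b E] y₀, y ∉ D → BdAt P a φ C y := by
  -- the radius
  have hc : Continuous fun p : Vd (k + 1) × ℂ => p.1 + p.2 • a := by fun_prop
  obtain ⟨r, hr, hrD, hrB⟩ : ∃ r : ℝ, 0 < r ∧ (∀ z ∈ sphere (0 : ℂ) r, y₀ + z • a ∉ D) ∧ ∀ z ∈ closedBall (0 : ℂ) r, y₀ + z • a ∉ Bad := by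
    obtain ⟨ε₁, hε₁, h1⟩ := Metric.eventually_nhds_iff_ball.1 (eventually_nhdsWithin_iff.1 (S.iso y₀ 0))
    have h2 : ∀ᶠ z in 𝓝 (0 : ℂ), y₀ + z • a ∉ Bad := by
      have hc0 : Continuous fun z : ℂ => y₀ + z • a := by fun_prop
      have h3 : (fun z : ℂ => y₀ + z • a) 0 ∈ Badᶜ := by
        show y₀ + (0 : ℂ) • a ∉ Bad
        rwa [zero_smul, add_zero]
      exact hc0.continuousAt.eventually (S.bad_closed.isOpen_compl.mem_nhds h3)
    obtain ⟨ε₂, hε₂, h2⟩ := Metric.eventually_nhds_iff_ball.1 h2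
    have hm : 0 < min ε₁ ε₂ := lt_min hε₁ hε₂
    refine ⟨min ε₁ ε₂ / 2, by positivity, fun z hz => ?_, fun z hz => ?_⟩
    · rw [mem_sphere] at hz
      refine h1 z (mem_ball.2 (by rw [hz]; linarith [min_le_left ε₁ ε₂])) ?_
      rintro rfl
      rw [dist_self] at hz
      linarith
    · rw [mem_closedBall] at hz
      exact h2 z (mem_ball.2 (by linarith [min_le_right ε₁ ε₂]))
  -- the bound on the sphere
  obtain ⟨C, hC⟩ : ∃ C : ℝ, ∀ᶠ y in 𝓝[Tb b E] y₀, ∀ z ∈ sphere (0 : ℂ) r, y + z • a ∉ D ∧ BdAt P a φ C (y + z • a) := by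
    refine (isCompact_sphere (0 : ℂ) r).induction_on (p := fun Z : Set ℂ => ∃ C : ℝ, ∀ᶠ y in 𝓝[Tb b E] y₀, ∀ z ∈ Z, y + z • a ∉ D ∧ BdAt P a φ C (y + z • a)) ?_ ?_ ?_ ?_
    · exact ⟨0, Eventually.of_forall fun y z hz => absurd hz (Set.notMem_empty z)⟩
    · rintro Z Z' hZ ⟨C, hC⟩
      exact ⟨C, hC.mono fun y hy z hz => hy z (hZ hz)⟩
    · rintro Z Z' ⟨C, hC⟩ ⟨C', hC'⟩
      refine ⟨max C C', ?_⟩
      filter_upwards [hC, hC'] with y h1 h2 z hz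
      rcases hz with hz | hz
      · exact ⟨(h1 z hz).1, (h1 z hz).2.mono (le_max_left _ _)⟩
      · exact ⟨(h2 z hz).1, (h2 z hz).2.mono (le_max_right _ _)⟩
    · intro z hz
      obtain ⟨C, hC⟩ := pT_loc0 S P hφ (S.add_mem hy₀ (S.a_mem z)) (hrD z hz)
      have hD' : ∀ᶠ y in 𝓝[Tb b E] (y₀ + z • a), y ∉ D := mem_nhdsWithin_of_mem_nhds (S.D_closed.isOpen_compl.mem_nhds (hrD z hz))
      have ht : Tendsto (fun p : Vd (k + 1) × ℂ => p.1 + p.2 • a) (𝓝[Tb b E] y₀ ×ˢ 𝓝 z) (𝓝[Tb b E] (y₀ + z • a)) := by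
        refine tendsto_nhdsWithin_iff.2 ⟨?_, ?_⟩
        · have h1 := hc.tendsto (y₀, z)
          rw [nhds_prod_eq] at h1
          exact h1.mono_left (Filter.prod_mono nhdsWithin_le_nhds le_rfl)
        · have h2 : ∀ᶠ p : Vd (k + 1) × ℂ in 𝓝[Tb b E] y₀ ×ˢ 𝓝 z, p.1 ∈ Tb b E := tendsto_fst.eventually self_mem_nhdsWithin
          exact h2.mono fun p hp => S.add_mem hp (S.a_mem p.2)
      obtain ⟨p1, hp1, p2, hp2, hp⟩ := Filter.eventually_prod_iff.1 (ht.eventually (hD'.and hC))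
      refine ⟨{z' | p2 z'}, mem_nhdsWithin_of_mem_nhds hp2, C, ?_⟩
      filter_upwards [hp1] with y hy z' hz'
      exact hp hy hz'
  have hB' : ∀ᶠ y in 𝓝 y₀, ∀ z ∈ closedBall (0 : ℂ) r, y + z • a ∉ Bad := by
    refine (isCompact_closedBall (0 : ℂ) r).eventually_forall_of_forall_eventually fun z hz => ?_
    have h1 : (fun p : Vd (k + 1) × ℂ => p.1 + p.2 • a) (y₀, z) ∈ Badᶜ := hrB z hz
    exact hc.continuousAt.eventually (S.bad_closed.isOpen_compl.mem_nhds h1)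
  obtain ⟨η, hη, hηP⟩ := Metric.mem_nhdsWithin_iff.1 (hC.and (mem_nhdsWithin_of_mem_nhds hB'))
  have hηP : ∀ y ∈ Tb b E, ‖y - y₀‖ < η → (∀ z ∈ sphere (0 : ℂ) r, y + z • a ∉ D ∧ BdAt P a φ C (y + z • a)) ∧ ∀ z ∈ closedBall (0 : ℂ) r, y + z • a ∉ Bad :=
    fun y hy hd => hηP ⟨by rw [mem_ball, dist_eq_norm]; exact hd, hy⟩
  refine ⟨C, ?_⟩
  have hn : 0 < ‖ν‖ + 1 := by positivity
  filter_upwards [self_mem_nhdsWithin, mem_nhdsWithin_of_mem_nhds (ball_mem_nhds y₀ (half_pos hη))] with y hyT hy hyD x hx hφx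
  rw [mem_ball, dist_eq_norm] at hy
  have hsl : ∀ s : ℝ, |s| ≤ η / (2 * (‖ν‖ + 1)) → ‖y + (s : ℂ) • ν - y₀‖ < η := by
    intro s hs
    have h1 : ‖(s : ℂ) • ν‖ ≤ η / 2 := by
      rw [norm_smul, Complex.norm_real, Real.norm_eq_abs]
      calc |s| * ‖ν‖ ≤ η / (2 * (‖ν‖ + 1)) * (‖ν‖ + 1) := by gcongr; linarith
        _ = η / 2 := by field_simp
    have h2 : y + (s : ℂ) • ν - y₀ = (y - y₀) + (s : ℂ) • ν := by abel
    rw [h2]
    exact (norm_add_le _ _).trans_lt (by linarith)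
  have hslT : ∀ s : ℝ, y + (s : ℂ) • ν ∈ Tb b E := fun s => by
    have h1 := S.tb hyT s 0
    rwa [zero_smul, add_zero] at h1
  have h0 : |(0 : ℝ) - 0| < η / (2 * (‖ν‖ + 1)) := by
    rw [sub_zero, abs_zero]
    positivity
  have e0 : y + ((0 : ℝ) : ℂ) • ν + (0 : ℂ) • a = y := by simp
  refine pval_box (S.sdat hφ hyT) P (s₀ := 0) (z₀ := 0) hr (δ := η / (2 * (‖ν‖ + 1))) (C := C) ?_ ?_ ?_ 0 h0 0 (mem_ball_self hr) ?_ x hx ?_
  · intro s hs z hz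
    rw [sub_zero] at hs
    exact ((hηP _ (hslT s) (hsl s hs)).1 z hz).1
  · intro s hs z hz
    rw [sub_zero] at hs
    exact (hηP _ (hslT s) (hsl s hs)).2 z hz
  · intro s hs z hz x' hx' hφx'
    rw [sub_zero] at hs
    obtain ⟨h1, h2⟩ := (hηP _ (hslT s) (hsl s hs)).1 z hz
    rw [pval_pT S.cone P ((S.sdat hφ hyT).smo s z h1) (S.smoS hφ (S.tb hyT s z) h1) hx' hφx']
    exact h2 x' hx' hφx'
  · show ¬ (y + ((0 : ℝ) : ℂ) • ν + (0 : ℂ) • a ∈ D)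
    rwa [e0]
  · show φ (y + ((0 : ℝ) : ℂ) • ν + (0 : ℂ) • a) = pr x
    rwa [e0]

theorem gdB_add (S : TDat X Λ u a ν b E D Bad SS) {η : ℝ} {y l : Vd (k + 1)} (hl : l ∈ Λ) (h : y ∈ Gd Bad η) : y + l ∈ Gd Bad η := by
  intro β hβ
  have h1 := h _ (S.bad_inv β hβ (-l) (Λ.neg_mem hl))
  have h2 : y - (β + -l) = y + l - β := by abel
  rwa [h2] at h1

theorem pT_bound (S : TDat X Λ u a ν b E D Bad SS) (P : JForm X Λ u ν m) {η : ℝ} (hη : 0 < η) :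
    ∃ C : ℝ, ∀ φ ∈ SS, ∀ y ∈ Tb b E, y ∈ Gd Bad η → y ∉ D → BdAt P a φ C y := by
  obtain ⟨R, hR, hRl⟩ := S.cpt
  obtain ⟨K, hKd⟩ : ∃ K : Set (Vd (k + 1)), K = (Tb b E ∩ Gd Bad η) ∩ closedBall b R := ⟨_, rfl⟩
  have hK : IsCompact K := by
    rw [hKd]
    exact (isCompact_closedBall b R).inter_left ((tb_closed b E).inter (gd_closed Bad η))
  have h1 : ∀ φ ∈ SS, ∃ C : ℝ, ∀ y ∈ K, y ∉ D → BdAt P a φ C y := by
    intro φ hφ
    refine hK.induction_on (p := fun Z => ∃ C : ℝ, ∀ y ∈ Z, y ∉ D → BdAt P a φ C y) ⟨0, fun y hy => absurd hy (Set.notMem_empty y)⟩ ?_ ?_ ?_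
    · rintro Z Z' hZ ⟨C, h⟩
      exact ⟨C, fun y hy => h y (hZ hy)⟩
    · rintro Z Z' ⟨C, h⟩ ⟨C', h'⟩
      refine ⟨max C C', fun y hy hyD => ?_⟩
      rcases hy with hy | hy
      · exact (h y hy hyD).mono (le_max_left _ _)
      · exact (h' y hy hyD).mono (le_max_right _ _)
    · intro y hy
      rw [hKd] at hy
      obtain ⟨C, hC⟩ := pT_loc S P hφ hy.1.1 (gd_notMem hη hy.1.2)
      refine ⟨{y | y ∉ D → BdAt P a φ C y}, ?_, C, fun y hy => hy⟩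
      refine nhdsWithin_mono y ?_ hC
      rw [hKd]
      exact fun y hy => hy.1.1
  choose! C hC using h1
  obtain ⟨M, hM⟩ : ∃ M : ℝ, ∀ φ ∈ SS, C φ ≤ M := by
    obtain ⟨M, hM⟩ := (S.fin.image C).bddAbove
    exact ⟨M, fun φ hφ => hM ⟨φ, hφ, rfl⟩⟩
  refine ⟨M, fun φ hφ y hy hyB hyD => ?_⟩
  obtain ⟨l, hl, hlE, hlR⟩ := hRl (y - b) hy
  obtain ⟨φ', hφ', hφ'e⟩ := S.tr φ hφ l hl hlE
  have hyl : y - l ∈ Tb b E := by
    have h2 := S.add_mem hy (E.neg_mem hlE)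
    rwa [← sub_eq_add_neg] at h2
  have hylD : y - l ∉ D := fun h2 => hyD (by
    have h3 := S.D_inv _ h2 l hl
    rwa [sub_add_cancel] at h3)
  have hylK : y - l ∈ K := by
    rw [hKd]
    refine ⟨⟨hyl, ?_⟩, ?_⟩
    · have h2 := gdB_add S (Λ.neg_mem hl) hyB
      rwa [← sub_eq_add_neg] at h2
    · rw [mem_closedBall, dist_eq_norm]
      have h3 : y - l - b = y - b - l := by abel
      rw [h3]
      exact hlR
  have h2 : BdAt P a φ' M (y - l) := (hC φ' hφ' _ hylK hylD).mono (hM φ' hφ')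
  intro x hx hφx
  have e : y - l + l = y := sub_add_cancel y l
  have h3 : φ' (y - l) = pr x := by rw [hφ'e _ hyl, e, hφx]
  have h4 := h2 x hx h3
  have h5 := pT_add S.cone P (y := y - l) (l := l) hl (φ := φ) (φ' := φ') (fun s z => hφ'e _ (S.tb hyl s z)) (by rw [e]; exact S.smoS hφ hy hyD) hx (by rw [e]; exact hφx)
  rw [e] at h5
  rwa [h5] at h4

end Pool.Agent.G4.C

end

section

/-!
# G3 X Main: uniform crossing for arcs near a line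

Constants.  `κ, ξ₀` from `exists_line_coord`, `a = deriv ξ₀ 0`, `ψ, R, r₀` from `exists_kp` (`κ 0 = p`).  `S₁` from `exists_inv` for a small `S' ≤ S`: for `‖z‖ < S'`: `κ (cons (ξ₀ z) 0) = p + z • e`, `z • e ∈ ball 0 (r₀ / 4)`, `‖ξ₀ z‖ < R`; `S'` so small that `‖a‖ S₁ / 4 ≤ R`.
`s = ‖a‖ S₁ / 8` (the graphs are defined on `ball 0 (2 s)`).  `Φ, ρ` from `exists_fam`.  `C` a Lipschitz constant of `ψ` on `ball p (r₀ / 2)` (after shrinking `r₀`).  `s₀ = min (ρ / (4 ‖a‖)) (S₁ / 8)`, `ρ₀` with `ρ₀ ≤ r₀ / 4`, `C ρ₀ < ρ`, `C ρ₀ ≤ ‖a‖ S₁ / 100`, `C ρ₀ ≤ ‖a‖ s₀ / 50`.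
For `γ`: `c z = ψ (γ z)` on `ball 0 S₁`, `‖c z - cons (ξ₀ z) 0‖ ≤ C ρ₀` (`ψ (p + z • e) = cons (ξ₀ z) 0`), `ξ z = c z 0`, `θ` from `exists_inv`, `g w j = c (θ w) j.succ`: `‖g w‖ ≤ C ρ₀ < ρ`, `ar κ g w = γ (θ w)`.
`z₁ = θ 0`.  `F∘θ`, `H∘θ` on `ball 0 t`, `t = 13/10 ‖a‖ s₀ ≤ ρ`, `r₁ = 35/100 ‖a‖ s₀`, `r₂ = 8/10 ‖a‖ s₀`: `‖θ w‖ ≤ (‖w‖ + ‖ξ 0‖) / (9/10 ‖a‖)`, `‖θ w‖ ≥ (‖w‖ - ‖ξ 0‖) / (11/10 ‖a‖)`, `‖ξ 0‖ ≤ ‖a‖ s₀ / 50`.  `J'` from `cross_graph`.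
`J z = J' (ξ z)` for `‖z‖ < 6/10 s₀` and `II ..` otherwise; on `45/100 s₀ < ‖z‖ < 6/10 s₀` both agree.  `II_arc`: the integral is analytic on the annulus `s₀ / 4 < ‖z‖ < s₀` (connected), so `J` agrees with it there (identity theorem).
-/

set_option autoImplicit false

open Topology Filter Metric

namespace Pool.Agent.GX

open Pool.Agent.H36.BP (EN fs wd)
open Pool.Agent.H14.PP (IsCone CurveAt Tan)
open Pool.Agent.H62.EF (MN pr)
open Pool.Agent.AD (Vd Chart Charts IsGerm)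
open Pool.Agent.TG (TMap Lat tl nm IsStr IsNC IsCoord Geo VForm ms Str IsPrim Cap IRel II TransAt Gd Cst DV fr tc)

variable {N k : ℕ}

variable {X : Set (EN N)} {Λ : AddSubgroup (Vd (k + 1))} {u : EN N → Vd (k + 1)} {D B : Set (Vd (k + 1))}
  {κ ψ : Vd (k + 1) → Vd (k + 1)} {R : ℝ} {g : ℂ → Fin k → ℂ} {Γ₀ : AddSubgroup ℂ} {s : ℝ}

/-- annuli are connected -/
private theorem main_ann {r₁ r₂ : ℝ} (h : 0 ≤ r₁) : IsPreconnected {z : ℂ | r₁ < ‖z‖ ∧ ‖z‖ < r₂} := by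
  have he : {z : ℂ | r₁ < ‖z‖ ∧ ‖z‖ < r₂} = (fun p : ℝ × ℝ => circleMap 0 p.1 p.2) '' (Set.Ioo r₁ r₂ ×ˢ Set.univ) := by
    ext z
    simp only [Set.mem_ofPred_eq, Set.mem_image, Set.mem_prod, Set.mem_Ioo, Set.mem_univ, and_true, Prod.exists]
    constructor
    · rintro ⟨h1, h2⟩
      refine ⟨‖z‖, Complex.arg z, ⟨h1, h2⟩, ?_⟩
      rw [circleMap, Complex.norm_mul_exp_arg_mul_I, zero_add]
    · rintro ⟨r, θ, ⟨h1, h2⟩, rfl⟩
      have hd : ‖circleMap 0 r θ‖ = r := by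
        rw [norm_circleMap_zero, abs_of_pos (lt_of_le_of_lt h h1)]
      rw [hd]
      exact ⟨h1, h2⟩
  rw [he]
  refine (isPreconnected_Ioo.prod isPreconnected_univ).image _ ?_
  have hc : Continuous fun p : ℝ × ℝ => circleMap 0 p.1 p.2 := by
    unfold circleMap
    fun_prop
  exact hc.continuousOn

/-- glueing a function on a disc and a function on an annulus -/
theorem main_glue {J₁ I : ℂ → ℂ} {a b c d : ℝ} (ha : 0 < a) (hab : a < b) (hbc : b < c) (hcd : c < d) (h1 : DifferentiableOn ℂ J₁ (ball 0 c))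
    (h2 : ∀ z : ℂ, a < ‖z‖ → ‖z‖ < d → AnalyticAt ℂ I z) (h3 : ∀ z : ℂ, b < ‖z‖ → ‖z‖ < c → J₁ z = I z) :
    ∃ J : ℂ → ℂ, DifferentiableOn ℂ J (ball 0 d) ∧ ∀ z : ℂ, a < ‖z‖ → ‖z‖ < d → J z = I z := by
  classical
  have hop : IsOpen {z : ℂ | a < ‖z‖ ∧ ‖z‖ < c} := (isOpen_lt continuous_const continuous_norm).inter (isOpen_lt continuous_norm continuous_const)
  have han1 : AnalyticOnNhd ℂ J₁ {z : ℂ | a < ‖z‖ ∧ ‖z‖ < c} := fun z hz =>
    (h1.analyticOnNhd isOpen_ball) z (mem_ball_zero_iff.2 hz.2)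
  have han2 : AnalyticOnNhd ℂ I {z : ℂ | a < ‖z‖ ∧ ‖z‖ < c} := fun z hz => h2 z hz.1 (hz.2.trans hcd)
  -- a point of the small annulus
  set z₀ : ℂ := (((b + c) / 2 : ℝ) : ℂ) with hz₀
  have hz₀n : ‖z₀‖ = (b + c) / 2 := by
    rw [hz₀, Complex.norm_real, Real.norm_of_nonneg (by linarith only [ha, hab, hbc])]
  have hev : J₁ =ᶠ[𝓝 z₀] I := by
    have h4 : IsOpen {z : ℂ | b < ‖z‖ ∧ ‖z‖ < c} := (isOpen_lt continuous_const continuous_norm).inter (isOpen_lt continuous_norm continuous_const)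
    have h5 : z₀ ∈ {z : ℂ | b < ‖z‖ ∧ ‖z‖ < c} := by
      constructor
      · rw [hz₀n]
        linarith only [hbc]
      · rw [hz₀n]
        linarith only [hbc]
    filter_upwards [h4.mem_nhds h5] with z hz
    exact h3 z hz.1 hz.2
  have heq : Set.EqOn J₁ I {z : ℂ | a < ‖z‖ ∧ ‖z‖ < c} :=
    han1.eqOn_of_preconnected_of_eventuallyEq han2 (main_ann ha.le) (z₀ := z₀) ⟨by rw [hz₀n]; linarith only [hab, hbc], by rw [hz₀n]; linarith⟩ hev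
  refine ⟨fun z => if ‖z‖ < c then J₁ z else I z, fun z hz => ?_, fun z hz1 hz2 => ?_⟩
  · rw [mem_ball_zero_iff] at hz
    by_cases hzc : ‖z‖ < c
    · have h4 : (fun z => if ‖z‖ < c then J₁ z else I z) =ᶠ[𝓝 z] J₁ := by
        filter_upwards [(isOpen_lt continuous_norm continuous_const).mem_nhds hzc] with w hw
        have hw' : ‖w‖ < c := hw
        simp only [if_pos hw']
      exact ((h1.differentiableAt (isOpen_ball.mem_nhds (mem_ball_zero_iff.2 hzc))).congr_of_eventuallyEq h4).differentiableWithinAt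
    · have hza : a < ‖z‖ := lt_of_lt_of_le (hab.trans hbc) (not_lt.1 hzc)
      have h4 : (fun z => if ‖z‖ < c then J₁ z else I z) =ᶠ[𝓝 z] I := by
        filter_upwards [(isOpen_lt continuous_const continuous_norm).mem_nhds hza] with w hw
        have hw' : a < ‖w‖ := hw
        by_cases hwc : ‖w‖ < c
        · simp only [if_pos hwc]
          exact heq ⟨hw', hwc⟩
        · simp only [if_neg hwc]
      exact ((h2 z hza hz).differentiableAt.congr_of_eventuallyEq h4).differentiableWithinAt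
  · by_cases hzc : ‖z‖ < c
    · simp only [if_pos hzc]
      exact heq ⟨hz1, hzc⟩
    · simp only [if_neg hzc]

/-- `ψ` is Lipschitz near `p` -/
theorem main_lip {p : Vd (k + 1)} {r₀ : ℝ} (hr₀ : 0 < r₀) (h : AnalyticAt ℂ ψ p) :
    ∃ r₁ C : ℝ, 0 < r₁ ∧ r₁ ≤ r₀ ∧ 0 < C ∧ ∀ y ∈ ball p r₁, ∀ y' ∈ ball p r₁, ‖ψ y - ψ y'‖ ≤ C * ‖y - y'‖ := by
  obtain ⟨K, U, hU, hK⟩ := h.hasStrictFDerivAt.exists_lipschitzOnWith
  obtain ⟨r, hr, hrU⟩ := Metric.mem_nhds_iff.1 hU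
  refine ⟨min r r₀, (K : ℝ) + 1, lt_min hr hr₀, min_le_right _ _, by positivity, fun y hy y' hy' => ?_⟩
  have h1 := hK.dist_le_mul y (hrU (ball_subset_ball (min_le_left _ _) hy)) y' (hrU (ball_subset_ball (min_le_left _ _) hy'))
  rw [dist_eq_norm, dist_eq_norm] at h1
  nlinarith only [h1, norm_nonneg (y - y')]

end Pool.Agent.GX

end
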