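import Pool.Agent.H94.G4T.H36.BP.WdA_1
import Pool.Agent.H94.G4T.M25
import Pool.Agent.H94.G4T.M68

/-! The parts of this file: G4.Z.LocA, G4.Z.LocB. -/

section

/-!
# G4 Z LocA: the order of `Q` along a section

For `y ∉ D` the section `Φ` passes through a point at which `u` is a submersion.  `OG j y`: for every curve `γ` in `X` over `y` with `pr (γ 0) = Φ y` one has `Q (γ t) = O(t^j)`.
This definition does not use charts; in a straight chart `χ` with `Φ y = pr (χ.σ q)`, `ms c ρ q = y`, it means `Q (χ.σ (q + t e₀)) = O(t^j)` (`og_iff`).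

`ordQ`: there are `μ ≥ 1` and a set `Z` with the following properties: (i) at every `y₀ ∉ D`: in a straight chart near `Φ y₀` the function `Q ∘ χ.σ` is `(p₀ - φ (tl p))^μ * b p` near the point, `φ` the first
coordinate of the section, `b` analytic, and for `y` near `y₀`: `y ∈ Z ↔ b (point of the section over y) = 0`; (ii) `Z` is `Λ`-invariant up to a finite index; (iii) every line meets `D ∪ Z` in a countable set.

Proof.  `local_data`: near `y₀ ∉ D` the section is `cons (φ y) (ρ⁻¹ (y - y₀))` in a straight chart, and `K p = Q (χ.σ (cons (φ (ms y₀ ρ p) + p 0) (tl p)))` is analytic on a ball; `OG j (y₀ + ρ v)` means `K (cons t v) = O(t^j)`.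
`ord_finite`: if `OG j y` held for all `j`, `y ∉ D` then `K = 0` and `Q = 0` near a point of `X`.  `μ + 1` is the smallest `j` such that `OG j y` is false for some `y ∉ D`, `Z = {y ∉ D | OG (μ + 1) y}`.
`div_pow`, `div_iff`: `K = (p 0)^μ b`, `b (cons 0 v) = 0` iff `K (cons t v) = O(t^(μ + 1))`.  `period`: the finite set `S` gives a common period `M = |S|!`.
The last part of (iii): `lines_count` of `G4/Simp`.
-/

set_option autoImplicit false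

open Topology Filter Metric

namespace Pool.Agent.G4

open Pool.Agent.H36.BP (EN fs wd Sub)
open Pool.Agent.H14.PP (IsCone CurveAt Tan)
open Pool.Agent.H62.EF (MN pr)
open Pool.Agent.AD (Vd Chart Charts)
open Pool.Agent.TG (TMap Lat Geo Gd)

open Pool.Agent.TG (VForm JJ Fb TransAt)
open Pool.Agent.G3 (Cv wt PS QD Crs)

variable {N k : ℕ}

/-- in a straight chart near the section `Φ` the form `Q` is `(p₀ - φ)^μ b`, and `Z` is the set of the zeros of `b` on the section -/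
def OrdAt (X : Set (EN N)) (Λ : AddSubgroup (Vd (k + 1))) (u : EN N → Vd (k + 1)) (Q : EN N → ℂ) (Φ : Vd (k + 1) → MN N) (μ : ℕ) (Z : Set (Vd (k + 1))) (y₀ : Vd (k + 1)) : Prop :=
  ∃ (χ : Chart (k + 2) X) (c : Vd (k + 1)) (ρ : ℝ) (q₀ : Vd (k + 2)) (φ : Vd (k + 1) → ℂ) (b : Vd (k + 2) → ℂ), Pool.Agent.TG.Str Λ u χ c ρ ∧ q₀ ∈ ball (0 : Vd (k + 2)) 2 ∧
    Pool.Agent.TG.ms c ρ q₀ = y₀ ∧ AnalyticAt ℂ φ y₀ ∧ φ y₀ = q₀ 0 ∧ AnalyticAt ℂ b q₀ ∧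
    (∀ᶠ y in 𝓝 y₀, Φ y = pr (χ.σ (Fin.cons (α := fun _ => ℂ) (φ y) ((ρ : ℂ)⁻¹ • (y - c))))) ∧
    (∀ᶠ q in 𝓝 q₀, Q (χ.σ q) = (q 0 - φ (Pool.Agent.TG.ms c ρ q)) ^ μ * b q) ∧
    ∀ᶠ y in 𝓝 y₀, (y ∈ Z ↔ b (Fin.cons (α := fun _ => ℂ) (φ y) ((ρ : ℂ)⁻¹ • (y - c))) = 0)

/-- the order of `Q` at `Φ y` along the fibre over `y` is at least `j` -/
private def OG (X : Set (EN N)) (Λ : AddSubgroup (Vd (k + 1))) (u : EN N → Vd (k + 1)) (Q : EN N → ℂ) (Φ : Vd (k + 1) → MN N) (j : ℕ) (y : Vd (k + 1)) : Prop :=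
  ∀ γ : ℂ → EN N, AnalyticAt ℂ γ 0 → (∀ᶠ t in 𝓝 (0 : ℂ), γ t ∈ X ∧ u (γ t) - y ∈ Λ) → pr (γ 0) = Φ y →
    (fun t => Q (γ t)) =O[𝓝 (0 : ℂ)] (fun t : ℂ => t ^ j)

private theorem disc_zero {Λ : AddSubgroup (Vd (k + 1))} (hΛ : Lat Λ) {T : Type*} [TopologicalSpace T] {f : T → Vd (k + 1)} {x₀ : T}
    (hf : ContinuousAt f x₀) (h0 : f x₀ = 0) (h : ∀ᶠ x in 𝓝 x₀, f x ∈ Λ) : ∀ᶠ x in 𝓝 x₀, f x = 0 := by
  obtain ⟨δ, hδ, hd⟩ := hΛ.disc
  have h1 : ∀ᶠ x in 𝓝 x₀, ‖f x‖ < δ := by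
    refine hf.norm.eventually_lt_const ?_
    simp only [h0, norm_zero]
    exact hδ
  filter_upwards [h, h1] with x hx hx'
  exact hd _ hx hx'

private theorem ms_mem {X : Set (EN N)} {Λ : AddSubgroup (Vd (k + 1))} {u : EN N → Vd (k + 1)} (hu : TMap X Λ u) {χ : Chart (k + 2) X} {c : Vd (k + 1)} {ρ : ℝ}
    (hm : Pool.Agent.TG.Str Λ u χ c ρ) {x : EN N} (hx : x ∈ X) (hU : x ∈ χ.U) {y : Vd (k + 1)} (h : u x - y ∈ Λ) :
    Pool.Agent.TG.ms c ρ (χ.q x) - y ∈ Λ := by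
  obtain ⟨hb, a, ha, e⟩ := χ.surj x hx hU
  have h1 : u x - u (χ.σ (χ.q x)) ∈ Λ := by
    have h3 := hu.smul _ (χ.σ_mem _ hb).1 a ha
    rw [← e] at h3
    exact h3
  have h2 := hm.lift _ hb
  have h3 := Λ.sub_mem (Λ.sub_mem h h1) h2
  convert h3 using 1
  abel

private theorem eq_cons {c y : Vd (k + 1)} {ρ : ℝ} (hρ : 0 < ρ) {q : Vd (k + 2)} (h : Pool.Agent.TG.ms c ρ q = y) :
    q = Fin.cons (α := fun _ => ℂ) (q 0) ((ρ : ℂ)⁻¹ • (y - c)) := by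
  have hρ' : (ρ : ℂ) ≠ 0 := by exact_mod_cast hρ.ne'
  have h1 : (ρ : ℂ)⁻¹ • (y - c) = Pool.Agent.TG.tl q := by
    rw [← h]
    unfold Pool.Agent.TG.ms
    rw [add_sub_cancel_left, smul_smul, inv_mul_cancel₀ hρ', one_smul]
  rw [h1]
  funext i
  refine Fin.cases ?_ (fun j => ?_) i
  · rfl
  · rfl

private theorem og_iff {X : Set (EN N)} {Λ : AddSubgroup (Vd (k + 1))} {u : EN N → Vd (k + 1)} {Q : EN N → ℂ} {Φ : Vd (k + 1) → MN N} {d : ℕ}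
    (hX : IsCone X) (hu : TMap X Λ u) (hΛ : Lat Λ) (hQh : ∀ (c : ℂ) (x : EN N), Q (c • x) = c ^ d * Q x)
    {χ : Chart (k + 2) X} {c : Vd (k + 1)} {ρ : ℝ} (hm : Pool.Agent.TG.Str Λ u χ c ρ) {q : Vd (k + 2)} (hq : q ∈ ball (0 : Vd (k + 2)) 2)
    {y : Vd (k + 1)} (hy : Pool.Agent.TG.ms c ρ q = y) (hΦ : pr (χ.σ q) = Φ y) (j : ℕ) :
    OG X Λ u Q Φ j y ↔ (fun t : ℂ => Q (χ.σ (q + t • (Pi.single 0 1 : Vd (k + 2))))) =O[𝓝 (0 : ℂ)] (fun t : ℂ => t ^ j) := by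
  have hline : ∀ t : ℂ, Pool.Agent.TG.ms c ρ (q + t • (Pi.single 0 1 : Vd (k + 2))) = y := by
    intro t
    rw [← hy]
    unfold Pool.Agent.TG.ms
    congr 2
    rw [Pool.Agent.TG.tl_add, Pool.Agent.TG.tl_smul]
    have : Pool.Agent.TG.tl (Pi.single 0 1 : Vd (k + 2)) = 0 := by
      funext i
      unfold Pool.Agent.TG.tl
      rw [Pi.single_apply, if_neg (Fin.succ_ne_zero i)]
      rfl
    rw [this, smul_zero, add_zero]
  have e0 : q + (0 : ℂ) • (Pi.single 0 1 : Vd (k + 2)) = q := by rw [zero_smul, add_zero]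
  have hla : AnalyticAt ℂ (fun t : ℂ => q + t • (Pi.single 0 1 : Vd (k + 2))) 0 := by fun_prop
  constructor
  · intro h
    refine h (fun t => χ.σ (q + t • (Pi.single 0 1 : Vd (k + 2)))) ?_ ?_ ?_
    · refine AnalyticAt.fun_comp (g := χ.σ) (f := fun t : ℂ => q + t • (Pi.single 0 1 : Vd (k + 2))) ?_ hla
      simp only [e0]
      exact χ.σ_an q hq
    · have h1 : ∀ᶠ t in 𝓝 (0 : ℂ), q + t • (Pi.single 0 1 : Vd (k + 2)) ∈ ball (0 : Vd (k + 2)) 2 := by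
        refine hla.continuousAt.eventually_mem ?_
        simp only [e0]
        exact isOpen_ball.mem_nhds hq
      filter_upwards [h1] with t ht
      refine ⟨(χ.σ_mem _ ht).1, ?_⟩
      have h2 := hm.lift _ ht
      rwa [hline] at h2
    · simp only [e0]
      exact hΦ
  · intro h γ hγ hγX hγ0
    have hx0 := (hγX.self_of_nhds).1
    have hσX := (χ.σ_mem q hq)
    obtain ⟨a, ha, hae⟩ := (Pool.Agent.H62.EF.pr_eq_iff (Pool.Agent.TG.ne_zero hX hx0) (Pool.Agent.TG.ne_zero hX hσX.1)).1 (hγ0.trans hΦ.symm)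
    have hU0 : γ 0 ∈ χ.U := by
      rw [hae]
      exact χ.smul_U _ hσX.2.1 _ ha
    have hq0 : χ.q (γ 0) = q := by
      rw [hae, χ.q_smul _ hσX.2.1 _ ha, hσX.2.2]
    have hqa : AnalyticAt ℂ (fun t => χ.q (γ t)) 0 := AnalyticAt.fun_comp (g := χ.q) (f := γ) (χ.q_an _ hU0) hγ
    have hU : ∀ᶠ t in 𝓝 (0 : ℂ), γ t ∈ χ.U := hγ.continuousAt.eventually_mem (χ.isOpen_U.mem_nhds hU0)
    have hms : ∀ᶠ t in 𝓝 (0 : ℂ), Pool.Agent.TG.ms c ρ (χ.q (γ t)) - y = 0 := by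
      refine disc_zero hΛ ?_ ?_ ?_
      · have h1 : ContinuousAt (Pool.Agent.TG.ms c ρ) (χ.q (γ 0)) := (Pool.Agent.TG.ms_an c ρ _).continuousAt
        exact (ContinuousAt.comp (g := Pool.Agent.TG.ms c ρ) (f := fun t => χ.q (γ t)) h1 hqa.continuousAt).sub continuousAt_const
      · rw [hq0, hy, sub_self]
      · filter_upwards [hU, hγX] with t h1 h2
        exact ms_mem hu hm h2.1 h1 h2.2
    -- the parameter
    set s : ℂ → ℂ := fun t => χ.q (γ t) 0 - q 0 with hs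
    have hsa : DifferentiableAt ℂ s 0 := by
      have h1 := differentiableAt_pi.1 hqa.differentiableAt 0
      exact h1.sub_const _
    have hs0 : s 0 = 0 := by
      simp only [hs]
      rw [hq0, sub_self]
    have hqs : ∀ᶠ t in 𝓝 (0 : ℂ), χ.q (γ t) = q + s t • (Pi.single 0 1 : Vd (k + 2)) := by
      filter_upwards [hms] with t ht
      have h1 := eq_cons hm.pos (sub_eq_zero.1 ht)
      have h2 := eq_cons hm.pos hy
      funext i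
      refine Fin.cases ?_ (fun i => ?_) i
      · simp [hs]
      · have h3 := congrFun h1 i.succ
        have h4 := congrFun h2 i.succ
        simp only [Fin.cons_succ] at h3 h4
        rw [h3]
        simp only [Pi.add_apply, Pi.smul_apply, Pi.single_apply, if_neg (Fin.succ_ne_zero i), smul_zero, add_zero]
        exact h4.symm
    have hsO : s =O[𝓝 (0 : ℂ)] (fun t : ℂ => t) := by
      have h1 := hsa.hasFDerivAt.isBigO_sub
      simpa [hs0] using h1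
    have hst : Tendsto s (𝓝 0) (𝓝 0) := by
      have h1 := hsa.continuousAt.tendsto
      rwa [hs0] at h1
    have h1 := (h.comp_tendsto hst)
    have h2 : ((fun t : ℂ => t ^ j) ∘ s) =O[𝓝 (0 : ℂ)] (fun t : ℂ => t ^ j) := by
      exact hsO.pow j
    have h3 := h1.trans h2
    -- the factor
    have hf : ∀ᶠ t in 𝓝 (0 : ℂ), ‖Q (γ t)‖ ≤ ((‖γ 0‖ + 1) / (‖χ.σ q‖ / 2)) ^ d * ‖Q (χ.σ (q + s t • (Pi.single 0 1 : Vd (k + 2))))‖ := by
      have hσ0 : 0 < ‖χ.σ q‖ := norm_pos_iff.2 (Pool.Agent.TG.ne_zero hX hσX.1)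
      have g1 : ∀ᶠ t in 𝓝 (0 : ℂ), ‖γ t‖ < ‖γ 0‖ + 1 := hγ.continuousAt.norm.eventually_lt_const (by linarith)
      have g2 : ∀ᶠ t in 𝓝 (0 : ℂ), ‖χ.σ q‖ / 2 < ‖χ.σ (χ.q (γ t))‖ := by
        have h4 : ContinuousAt χ.σ (χ.q (γ 0)) := by
          rw [hq0]
          exact (χ.σ_an q hq).continuousAt
        have h5 : ContinuousAt (fun t => χ.σ (χ.q (γ t))) 0 := ContinuousAt.comp (g := χ.σ) (f := fun t => χ.q (γ t)) h4 hqa.continuousAt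
        refine h5.norm.eventually_const_lt ?_
        simp only [hq0]
        linarith
      filter_upwards [hqs, hU, hγX, g1, g2] with t e1 e2 e3 e4 e5
      obtain ⟨hb, b, hb0, hbe⟩ := χ.surj _ e3.1 e2
      have e6 : ‖γ t‖ = ‖b‖ * ‖χ.σ (χ.q (γ t))‖ := by
        conv_lhs => rw [hbe]
        rw [norm_smul]
      have e7 : ‖b‖ ≤ (‖γ 0‖ + 1) / (‖χ.σ q‖ / 2) := by
        rw [le_div_iff₀ (by positivity)]
        calc ‖b‖ * (‖χ.σ q‖ / 2) ≤ ‖b‖ * ‖χ.σ (χ.q (γ t))‖ := mul_le_mul_of_nonneg_left e5.le (norm_nonneg _)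
          _ = ‖γ t‖ := e6.symm
          _ ≤ _ := e4.le
      have e8 : Q (γ t) = b ^ d * Q (χ.σ (χ.q (γ t))) := by
        conv_lhs => rw [hbe]
        rw [hQh]
      rw [e8, norm_mul, norm_pow, ← e1]
      exact mul_le_mul_of_nonneg_right (pow_le_pow_left₀ (norm_nonneg _) e7 d) (norm_nonneg _)
    have h4 : (fun t => Q (γ t)) =O[𝓝 (0 : ℂ)] ((fun t : ℂ => Q (χ.σ (q + t • (Pi.single 0 1 : Vd (k + 2))))) ∘ s) :=
      Asymptotics.IsBigO.of_bound _ hf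
    exact h4.trans h3

private theorem O_zero {g : ℂ → ℂ} (hg : ContinuousAt g 0) {μ : ℕ} (h : (fun t : ℂ => t ^ μ * g t) =O[𝓝 (0 : ℂ)] (fun t : ℂ => t ^ (μ + 1))) : g 0 = 0 := by
  obtain ⟨C, hC⟩ := h.bound
  have h1 : ∀ᶠ t in 𝓝[≠] (0 : ℂ), ‖g t‖ ≤ C * ‖t‖ := by
    have h2 : ∀ᶠ t in 𝓝[≠] (0 : ℂ), t ≠ 0 := eventually_mem_nhdsWithin
    filter_upwards [hC.filter_mono nhdsWithin_le_nhds, h2] with t ht h0
    have h3 : 0 < ‖t‖ ^ μ := pow_pos (norm_pos_iff.2 h0) μ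
    rw [norm_mul, norm_pow, norm_pow, pow_succ] at ht
    refine le_of_mul_le_mul_left ?_ h3
    linarith
  have h2 : Tendsto (fun t => ‖g t‖) (𝓝[≠] (0 : ℂ)) (𝓝 ‖g 0‖) := hg.norm.tendsto.mono_left nhdsWithin_le_nhds
  have h3 : Tendsto (fun t : ℂ => C * ‖t‖) (𝓝[≠] (0 : ℂ)) (𝓝 0) := by
    have h4 : Continuous fun t : ℂ => C * ‖t‖ := by fun_prop
    have h5 := (h4.tendsto 0).mono_left (nhdsWithin_le_nhds (s := {(0 : ℂ)}ᶜ))
    simpa using h5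
  have h4 := le_of_tendsto_of_tendsto h2 h3 h1
  exact norm_le_zero_iff.1 h4

private theorem O_of {g : ℂ → ℂ} (hg : DifferentiableAt ℂ g 0) (h0 : g 0 = 0) (μ : ℕ) : (fun t : ℂ => t ^ μ * g t) =O[𝓝 (0 : ℂ)] (fun t : ℂ => t ^ (μ + 1)) := by
  have h1 : g =O[𝓝 (0 : ℂ)] (fun t : ℂ => t) := by
    have h2 := hg.hasFDerivAt.isBigO_sub
    simpa [h0] using h2
  exact (Asymptotics.isBigO_refl (fun t : ℂ => t ^ μ) (𝓝 (0 : ℂ))).mul h1

private theorem flat {g : ℂ → ℂ} (hg : AnalyticAt ℂ g 0) (h : ∀ j : ℕ, g =O[𝓝 (0 : ℂ)] (fun t : ℂ => t ^ j)) : ∀ᶠ t in 𝓝 (0 : ℂ), g t = 0 := by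
  rw [← analyticOrderAt_eq_top]
  by_contra hne
  obtain ⟨n, hn⟩ := ENat.ne_top_iff_exists.1 hne
  obtain ⟨f, hf, hf0, hfg⟩ := (hg.analyticOrderAt_eq_natCast (n := n)).1 hn.symm
  refine hf0 (O_zero (μ := n) hf.continuousAt ?_)
  refine Asymptotics.IsBigO.congr' (h (n + 1)) ?_ (EventuallyEq.refl _ _)
  filter_upwards [hfg] with t ht
  rw [ht, sub_zero, smul_eq_mul]

private theorem cons_mem {m : ℕ} {R : ℝ} {t : ℂ} {v : Vd m} (ht : ‖t‖ < R) (hv : ‖v‖ < R) : (Fin.cons (α := fun _ => ℂ) t v : Vd (m + 1)) ∈ ball (0 : Vd (m + 1)) R := by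
  have hR : 0 < R := (norm_nonneg _).trans_lt ht
  rw [mem_ball_zero_iff, pi_norm_lt_iff hR]
  intro i
  refine Fin.cases ?_ (fun j => ?_) i
  · simpa using ht
  · simpa using (norm_le_pi_norm v j).trans_lt hv

private theorem cons_line {m : ℕ} (t : ℂ) (v : Vd m) : (Fin.cons (α := fun _ => ℂ) t v : Vd (m + 1)) = (Fin.cons (α := fun _ => ℂ) 0 v : Vd (m + 1)) + t • (Pi.single 0 1 : Vd (m + 1)) := by
  funext i
  refine Fin.cases ?_ (fun j => ?_) i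
  · simp
  · simp

private theorem cons_diff {m : ℕ} (v : Vd m) (t : ℂ) : AnalyticAt ℂ (fun t : ℂ => (Fin.cons (α := fun _ => ℂ) t v : Vd (m + 1))) t := by
  have h : (fun t : ℂ => (Fin.cons (α := fun _ => ℂ) t v : Vd (m + 1))) = fun t : ℂ => (Fin.cons (α := fun _ => ℂ) 0 v : Vd (m + 1)) + t • (Pi.single 0 1 : Vd (m + 1)) := by
    funext t
    exact cons_line t v
  rw [h]
  fun_prop

private theorem cons_an {m : ℕ} {E : Type*} [NormedAddCommGroup E] [NormedSpace ℂ E] {f : E → ℂ} {g : E → Vd m} {x : E} (hf : AnalyticAt ℂ f x) (hg : AnalyticAt ℂ g x) :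
    AnalyticAt ℂ (fun x => (Fin.cons (α := fun _ => ℂ) (f x) (g x) : Vd (m + 1))) x := by
  rw [analyticAt_pi_iff]
  intro i
  refine Fin.cases ?_ (fun j => ?_) i
  · simpa using hf
  · simpa using (analyticAt_pi_iff.1 hg) j

private theorem div_pow {m : ℕ} {R : ℝ} {K : Vd (m + 1) → ℂ} (hK : ∀ p ∈ ball (0 : Vd (m + 1)) R, AnalyticAt ℂ K p) (μ : ℕ)
    (h : ∀ v : Vd m, ‖v‖ < R → (fun t : ℂ => K (Fin.cons (α := fun _ => ℂ) t v)) =O[𝓝 (0 : ℂ)] (fun t : ℂ => t ^ μ)) :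
    ∃ b : Vd (m + 1) → ℂ, (∀ p ∈ ball (0 : Vd (m + 1)) R, AnalyticAt ℂ b p) ∧ ∀ p ∈ ball (0 : Vd (m + 1)) R, K p = p 0 ^ μ * b p := by
  induction μ with
  | zero => exact ⟨K, hK, fun p _ => by rw [pow_zero, one_mul]⟩
  | succ μ ih =>
    have hle : (fun t : ℂ => t ^ (μ + 1)) =O[𝓝 (0 : ℂ)] (fun t : ℂ => t ^ μ) := by
      have h1 : (fun t : ℂ => t) =O[𝓝 (0 : ℂ)] (fun _ : ℂ => (1 : ℂ)) := continuousAt_id.isBigO_one ℂ
      have h2 := (Asymptotics.isBigO_refl (fun t : ℂ => t ^ μ) (𝓝 (0 : ℂ))).mul h1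
      simpa [pow_succ] using h2
    obtain ⟨b, hb, hKb⟩ := ih fun v hv => (h v hv).trans hle
    have h0 : ∀ p ∈ ball (0 : Vd (m + 1)) R, p 0 = 0 → b p = 0 := by
      intro p hp hp0
      have hpR : ‖p‖ < R := by simpa using hp
      have hR : 0 < R := (norm_nonneg _).trans_lt hpR
      set v : Vd m := fun i => p i.succ with hv
      have hvR : ‖v‖ < R := by
        rw [pi_norm_lt_iff hR]
        intro i
        exact (norm_le_pi_norm p i.succ).trans_lt hpR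
      have hpv : p = Fin.cons (α := fun _ => ℂ) 0 v := by
        funext i
        refine Fin.cases ?_ (fun j => ?_) i
        · simpa using hp0
        · rfl
      have hcont : ContinuousAt (fun t : ℂ => b (Fin.cons (α := fun _ => ℂ) t v)) 0 := by
        refine ContinuousAt.comp (g := b) (f := fun t : ℂ => (Fin.cons (α := fun _ => ℂ) t v : Vd (m + 1))) ?_ (cons_diff v 0).continuousAt
        rw [← hpv]
        exact (hb p hp).continuousAt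
      have h1 := O_zero (μ := μ) hcont ?_
      · rw [hpv]
        exact h1
      · refine Asymptotics.IsBigO.congr' (h v hvR) ?_ (EventuallyEq.refl _ _)
        have h2 : ∀ᶠ t in 𝓝 (0 : ℂ), ‖t‖ < R := by
          have h3 := ball_mem_nhds (0 : ℂ) hR
          filter_upwards [h3] with t ht
          simpa using ht
        filter_upwards [h2] with t ht
        have h3 := hKb _ (cons_mem ht hvR)
        simpa using h3
    obtain ⟨H, hH, hbH⟩ := Pool.Agent.TG.exists_div_zero hb h0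
    refine ⟨H, hH, fun p hp => ?_⟩
    rw [hKb p hp, hbH p hp]
    ring

private theorem div_iff {m : ℕ} {R : ℝ} {K b : Vd (m + 1) → ℂ} {μ : ℕ} (hb : ∀ p ∈ ball (0 : Vd (m + 1)) R, AnalyticAt ℂ b p)
    (hKb : ∀ p ∈ ball (0 : Vd (m + 1)) R, K p = p 0 ^ μ * b p) {v : Vd m} (hv : ‖v‖ < R) :
    (fun t : ℂ => K (Fin.cons (α := fun _ => ℂ) t v)) =O[𝓝 (0 : ℂ)] (fun t : ℂ => t ^ (μ + 1)) ↔ b (Fin.cons (α := fun _ => ℂ) 0 v) = 0 := by
  have hR : 0 < R := (norm_nonneg _).trans_lt hv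
  have h0 : (Fin.cons (α := fun _ => ℂ) 0 v : Vd (m + 1)) ∈ ball (0 : Vd (m + 1)) R := cons_mem (by simpa using hR) hv
  have han : AnalyticAt ℂ (fun t : ℂ => b (Fin.cons (α := fun _ => ℂ) t v)) 0 :=
    AnalyticAt.fun_comp (g := b) (f := fun t : ℂ => (Fin.cons (α := fun _ => ℂ) t v : Vd (m + 1))) (hb _ h0) (cons_diff v 0)
  have h2 : ∀ᶠ t in 𝓝 (0 : ℂ), K (Fin.cons (α := fun _ => ℂ) t v) = t ^ μ * b (Fin.cons (α := fun _ => ℂ) t v) := by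
    have h3 := ball_mem_nhds (0 : ℂ) hR
    filter_upwards [h3] with t ht
    have h4 := hKb _ (cons_mem (by simpa using ht) hv)
    simpa using h4
  constructor
  · intro h
    exact O_zero (μ := μ) han.continuousAt (Asymptotics.IsBigO.congr' h h2 (EventuallyEq.refl _ _))
  · intro h
    exact Asymptotics.IsBigO.congr' (O_of han.differentiableAt h μ) (h2.mono fun t ht => ht.symm) (EventuallyEq.refl _ _)

private theorem an_of_diff {Q : EN N → ℂ} (hQ : Differentiable ℂ Q) (x : EN N) : AnalyticAt ℂ Q x := by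
  set e : EN N ≃L[ℂ] (Fin (N + 1) → ℂ) := EuclideanSpace.equiv (Fin (N + 1)) ℂ with he
  have hf : Differentiable ℂ fun y : Fin (N + 1) → ℂ => Q (e.symm y) := hQ.comp e.symm.differentiable
  have h1 : AnalyticAt ℂ (fun y : Fin (N + 1) → ℂ => Q (e.symm y)) (e x) := by
    have h2 : ∀ᶠ y in 𝓝 (e x), ‖Q (e.symm y)‖ < ‖Q (e.symm (e x))‖ + 1 := (hf.continuous.norm.continuousAt).eventually_lt_const (by linarith)
    obtain ⟨r, hr, hb⟩ := Metric.eventually_nhds_iff_ball.1 h2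
    refine Pool.Agent.TN.osgood_pi hr (M := ‖Q (e.symm (e x))‖ + 1) (fun y hy => (hb y hy).le) fun y _ l => ?_
    have h3 : Differentiable ℂ fun t : ℂ => y + t • (Pi.single l 1 : Fin (N + 1) → ℂ) := by fun_prop
    exact (hf.comp h3) 0
  have h2 : AnalyticAt ℂ (fun x : EN N => Q (e.symm (e x))) x := AnalyticAt.fun_comp (g := fun y : Fin (N + 1) → ℂ => Q (e.symm y)) (f := fun x : EN N => e x) h1 (e.toContinuousLinearMap.analyticAt x)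
  simpa using h2

private theorem ms_cons (c : Vd (k + 1)) {ρ : ℝ} (t : ℂ) (v : Vd (k + 1)) :
    Pool.Agent.TG.ms c ρ (Fin.cons (α := fun _ => ℂ) t v) = c + (ρ : ℂ) • v := rfl

private theorem local_data {X : Set (EN N)} {Λ : AddSubgroup (Vd (k + 1))} {u : EN N → Vd (k + 1)} {D B : Set (Vd (k + 1))} {Q : EN N → ℂ} {d : ℕ} {S : Set (Vd (k + 1) → MN N)}
    (G : Geo X Λ u D B) (hS : Csf X Λ u D S) (hQ : QD X Λ u D Q d) {Φ : Vd (k + 1) → MN N} (hΦ : Φ ∈ S) {y₀ : Vd (k + 1)} (hy₀ : y₀ ∉ D) :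
    ∃ (χ : Chart (k + 2) X) (ρ : ℝ) (q₀ : Vd (k + 2)) (φ : Vd (k + 1) → ℂ) (R : ℝ), 0 < R ∧ Pool.Agent.TG.Str Λ u χ y₀ ρ ∧ q₀ ∈ ball (0 : Vd (k + 2)) 2 ∧
      Pool.Agent.TG.ms y₀ ρ q₀ = y₀ ∧ AnalyticAt ℂ φ y₀ ∧ φ y₀ = q₀ 0 ∧
      (∀ᶠ y in 𝓝 y₀, Φ y = pr (χ.σ (Fin.cons (α := fun _ => ℂ) (φ y) ((ρ : ℂ)⁻¹ • (y - y₀))))) ∧
      (∀ p ∈ ball (0 : Vd (k + 2)) R, AnalyticAt ℂ (fun p : Vd (k + 2) => Q (χ.σ (Fin.cons (α := fun _ => ℂ) (φ (Pool.Agent.TG.ms y₀ ρ p) + p 0) (Pool.Agent.TG.tl p)))) p) ∧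
      (∀ v : Vd (k + 1), ‖v‖ < R → y₀ + (ρ : ℂ) • v ∉ D ∧ ∀ j : ℕ, (OG X Λ u Q Φ j (y₀ + (ρ : ℂ) • v) ↔
        (fun t : ℂ => Q (χ.σ (Fin.cons (α := fun _ => ℂ) (φ (y₀ + (ρ : ℂ) • v) + t) v))) =O[𝓝 (0 : ℂ)] (fun t : ℂ => t ^ j))) := by
  obtain ⟨φ', hφ', hev⟩ := hS.hol Φ hΦ y₀ hy₀
  have hx₀ := hev.self_of_nhds
  obtain ⟨hx₀X, hx₀Φ, hx₀u⟩ := hx₀
  obtain ⟨χ, ρ, r, hr, hcap⟩ := Pool.Agent.TG.exists_cap_at G hy₀ (m₀ := pr (φ' y₀)) ⟨φ' y₀, hx₀X, rfl, hx₀u⟩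
  obtain ⟨hU, hq, hms⟩ := hcap.cap y₀ (mem_closedBall_self hr.le) (φ' y₀) hx₀X hx₀u (by rw [dist_self]; exact hr.le)
  have hρ := hcap.str.pos
  have hρ' : (ρ : ℂ) ≠ 0 := by exact_mod_cast hρ.ne'
  have hq2 : χ.q (φ' y₀) ∈ ball (0 : Vd (k + 2)) 2 := closedBall_subset_ball (by norm_num) hq
  have hqa : AnalyticAt ℂ (fun y => χ.q (φ' y)) y₀ := AnalyticAt.fun_comp (g := χ.q) (f := φ') (χ.q_an _ hU) hφ'
  have hUe : ∀ᶠ y in 𝓝 y₀, φ' y ∈ χ.U := hφ'.continuousAt.eventually_mem (χ.isOpen_U.mem_nhds hU)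
  have hmse : ∀ᶠ y in 𝓝 y₀, Pool.Agent.TG.ms y₀ ρ (χ.q (φ' y)) - y = 0 := by
    refine disc_zero G.lat ?_ ?_ ?_
    · have h1 : ContinuousAt (Pool.Agent.TG.ms y₀ ρ) (χ.q (φ' y₀)) := (Pool.Agent.TG.ms_an y₀ ρ _).continuousAt
      exact (ContinuousAt.comp (g := Pool.Agent.TG.ms y₀ ρ) (f := fun y => χ.q (φ' y)) h1 hqa.continuousAt).sub continuousAt_id
    · rw [hms, sub_self]
    · filter_upwards [hUe, hev] with y h1 h2
      exact ms_mem G.tor hcap.str h2.1 h1 h2.2.2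
  set φ : Vd (k + 1) → ℂ := fun y => χ.q (φ' y) 0 with hφ
  have hφa : AnalyticAt ℂ φ y₀ := (analyticAt_pi_iff.1 hqa) 0
  have hcons : ∀ᶠ y in 𝓝 y₀, χ.q (φ' y) = Fin.cons (α := fun _ => ℂ) (φ y) ((ρ : ℂ)⁻¹ • (y - y₀)) := by
    filter_upwards [hmse] with y hy
    exact eq_cons hρ (sub_eq_zero.1 hy)
  have hqe : ∀ᶠ y in 𝓝 y₀, χ.q (φ' y) ∈ ball (0 : Vd (k + 2)) 2 := hqa.continuousAt.eventually_mem (isOpen_ball.mem_nhds hq2)
  have hpr : ∀ᶠ y in 𝓝 y₀, Φ y = pr (χ.σ (χ.q (φ' y))) := by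
    filter_upwards [hev, hUe] with y h1 h2
    rw [Pool.Agent.TG.pr_sigma_q χ h1.1 h2, h1.2.1]
  have hDe : ∀ᶠ y in 𝓝 y₀, y ∉ D := G.D_closed.isOpen_compl.mem_nhds hy₀
  -- the point `0`
  have hms0 : Pool.Agent.TG.ms y₀ ρ (0 : Vd (k + 2)) = y₀ := by
    unfold Pool.Agent.TG.ms
    have : Pool.Agent.TG.tl (0 : Vd (k + 2)) = 0 := rfl
    rw [this, smul_zero, add_zero]
  have hcons0 : (Fin.cons (α := fun _ => ℂ) (φ (Pool.Agent.TG.ms y₀ ρ (0 : Vd (k + 2))) + (0 : Vd (k + 2)) 0) (Pool.Agent.TG.tl (0 : Vd (k + 2))) : Vd (k + 2)) = χ.q (φ' y₀) := by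
    have h1 := hcons.self_of_nhds
    rw [h1, hms0, sub_self, smul_zero]
    have : Pool.Agent.TG.tl (0 : Vd (k + 2)) = 0 := rfl
    rw [this]
    simp
  have hKa : AnalyticAt ℂ (fun p : Vd (k + 2) => Q (χ.σ (Fin.cons (α := fun _ => ℂ) (φ (Pool.Agent.TG.ms y₀ ρ p) + p 0) (Pool.Agent.TG.tl p)))) 0 := by
    have h1 : AnalyticAt ℂ (fun p : Vd (k + 2) => φ (Pool.Agent.TG.ms y₀ ρ p)) 0 := by
      refine AnalyticAt.fun_comp (g := φ) (f := Pool.Agent.TG.ms y₀ ρ) ?_ (Pool.Agent.TG.ms_an y₀ ρ 0)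
      rw [hms0]
      exact hφa
    have h2 : AnalyticAt ℂ (fun p : Vd (k + 2) => p 0) 0 := (ContinuousLinearMap.proj (R := ℂ) (φ := fun _ : Fin (k + 2) => ℂ) 0).analyticAt 0
    have h3 : AnalyticAt ℂ (fun p : Vd (k + 2) => Pool.Agent.TG.tl p) 0 := Pool.Agent.TG.tlL.analyticAt 0
    have h4 := cons_an (h1.add h2) h3
    have h5 : AnalyticAt ℂ χ.σ ((fun p : Vd (k + 2) => (Fin.cons (α := fun _ => ℂ) (φ (Pool.Agent.TG.ms y₀ ρ p) + p 0) (Pool.Agent.TG.tl p) : Vd (k + 2))) 0) := by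
      simp only [hcons0]
      exact χ.σ_an _ hq2
    have h6 := AnalyticAt.fun_comp (g := χ.σ) (f := fun p : Vd (k + 2) => (Fin.cons (α := fun _ => ℂ) (φ (Pool.Agent.TG.ms y₀ ρ p) + p 0) (Pool.Agent.TG.tl p) : Vd (k + 2))) h5 h4
    exact AnalyticAt.fun_comp (g := Q) (an_of_diff hQ.diff _) h6
  obtain ⟨R₁, hR₁, hball₁⟩ := Metric.eventually_nhds_iff_ball.1 hKa.eventually_analyticAt
  obtain ⟨R₂, hR₂, hball₂⟩ := Metric.eventually_nhds_iff_ball.1 ((hcons.and hqe).and (hpr.and hDe))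
  have hR : 0 < min R₁ (R₂ / ρ) := lt_min hR₁ (div_pos hR₂ hρ)
  refine ⟨χ, ρ, χ.q (φ' y₀), φ, min R₁ (R₂ / ρ), hR, hcap.str, hq2, hms, hφa, rfl, ?_, ?_, ?_⟩
  · filter_upwards [hpr, hcons] with y h1 h2
    rw [h1, h2]
  · intro p hp
    exact hball₁ p (ball_subset_ball (min_le_left _ _) hp)
  · intro v hv
    have hvy : y₀ + (ρ : ℂ) • v ∈ ball y₀ R₂ := by
      rw [mem_ball, dist_eq_norm, add_sub_cancel_left, norm_smul, Complex.norm_real, Real.norm_of_nonneg hρ.le]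
      have h1 := hv.trans_le (min_le_right _ _)
      rw [lt_div_iff₀ hρ] at h1
      linarith
    obtain ⟨⟨h1, h2⟩, h3, h4⟩ := hball₂ _ hvy
    refine ⟨h4, fun j => ?_⟩
    have hv' : (ρ : ℂ)⁻¹ • (y₀ + (ρ : ℂ) • v - y₀) = v := by
      rw [add_sub_cancel_left, smul_smul, inv_mul_cancel₀ hρ', one_smul]
    rw [hv'] at h1
    rw [h1] at h2
    rw [og_iff G.cone G.tor G.lat hQ.hom hcap.str h2 (ms_cons y₀ (φ (y₀ + (ρ : ℂ) • v)) v) (by rw [← h1]; exact h3.symm) j]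
    have hfun : (fun t : ℂ => Q (χ.σ (Fin.cons (α := fun _ => ℂ) (φ (y₀ + (ρ : ℂ) • v)) v + t • (Pi.single 0 1 : Vd (k + 2))))) =
        (fun t : ℂ => Q (χ.σ (Fin.cons (α := fun _ => ℂ) (φ (y₀ + (ρ : ℂ) • v) + t) v))) := by
      funext t
      congr 2
      funext i
      refine Fin.cases ?_ (fun j => ?_) i
      · simp
      · simp
    rw [hfun]

/-- the orders are finite -/
private theorem ord_finite {X : Set (EN N)} {Λ : AddSubgroup (Vd (k + 1))} {u : EN N → Vd (k + 1)} {D B : Set (Vd (k + 1))} {Q : EN N → ℂ} {d : ℕ} {S : Set (Vd (k + 1) → MN N)}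
    (G : Geo X Λ u D B) (hS : Csf X Λ u D S) (hQ : QD X Λ u D Q d) (hQ0 : ∀ x ∈ X, ∃ᶠ x' in 𝓝 x, x' ∈ X ∧ Q x' ≠ 0) {Φ : Vd (k + 1) → MN N} (hΦ : Φ ∈ S) :
    ∃ j : ℕ, ∃ y ∉ D, ¬ OG X Λ u Q Φ j y := by
  by_contra hcon
  push Not at hcon
  obtain ⟨y₀, hy₀⟩ : ∃ y₀, y₀ ∉ D := by
    have h1 := Pool.Agent.TG.compl_dense G.D_thin
    obtain ⟨y, hy⟩ := h1.nonempty
    exact ⟨y, hy⟩
  obtain ⟨χ, ρ, q₀, φ, R, hR, hstr, hq₀, hms, hφa, hφ0, -, hKa, hv⟩ := local_data G hS hQ hΦ hy₀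
  set K : Vd (k + 2) → ℂ := fun p => Q (χ.σ (Fin.cons (α := fun _ => ℂ) (φ (Pool.Agent.TG.ms y₀ ρ p) + p 0) (Pool.Agent.TG.tl p))) with hK
  have hKcons : ∀ (t : ℂ) (v : Vd (k + 1)), K (Fin.cons (α := fun _ => ℂ) t v) = Q (χ.σ (Fin.cons (α := fun _ => ℂ) (φ (y₀ + (ρ : ℂ) • v) + t) v)) := fun t v => rfl
  have hK0 : ∀ p ∈ ball (0 : Vd (k + 2)) R, K p = 0 := by
    intro p hp
    have hpR : ‖p‖ < R := by simpa using hp
    set v : Vd (k + 1) := Pool.Agent.TG.tl p with hvd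
    have hvR : ‖v‖ < R := by
      rw [pi_norm_lt_iff hR]
      intro i
      exact (norm_le_pi_norm p i.succ).trans_lt hpR
    have hpv : p = Fin.cons (α := fun _ => ℂ) (p 0) v := by
      funext i
      refine Fin.cases ?_ (fun j => ?_) i
      · rfl
      · rfl
    obtain ⟨hvD, hvO⟩ := hv v hvR
    have hg : AnalyticOnNhd ℂ (fun t : ℂ => K (Fin.cons (α := fun _ => ℂ) t v)) (ball (0 : ℂ) R) := by
      intro t ht
      refine AnalyticAt.fun_comp (g := K) (f := fun t : ℂ => (Fin.cons (α := fun _ => ℂ) t v : Vd (k + 2))) (hKa _ (cons_mem (by simpa using ht) hvR)) (cons_diff v t)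
    have hflat : ∀ᶠ t in 𝓝 (0 : ℂ), K (Fin.cons (α := fun _ => ℂ) t v) = 0 := by
      refine flat (hg 0 (mem_ball_self hR)) fun j => ?_
      exact (hvO j).1 (hcon j _ hvD)
    have h1 := AnalyticOnNhd.eqOn_zero_of_preconnected_of_eventuallyEq_zero hg (convex_ball (0 : ℂ) R).isPreconnected (mem_ball_self hR) hflat
    have h2 := h1 (show p 0 ∈ ball (0 : ℂ) R by
      rw [mem_ball_zero_iff]
      exact (norm_le_pi_norm p 0).trans_lt hpR)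
    simp only at h2
    rw [hpv]
    exact h2
  -- `Q ∘ χ.σ = 0` near `q₀`
  have hcont : ContinuousAt (fun q : Vd (k + 2) => (Fin.cons (α := fun _ => ℂ) (q 0 - φ (Pool.Agent.TG.ms y₀ ρ q)) (Pool.Agent.TG.tl q) : Vd (k + 2))) q₀ := by
    have h1 : AnalyticAt ℂ (fun p : Vd (k + 2) => φ (Pool.Agent.TG.ms y₀ ρ p)) q₀ := by
      refine AnalyticAt.fun_comp (g := φ) (f := Pool.Agent.TG.ms y₀ ρ) ?_ (Pool.Agent.TG.ms_an y₀ ρ q₀)
      rw [hms]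
      exact hφa
    have h2 : AnalyticAt ℂ (fun p : Vd (k + 2) => p 0) q₀ := (ContinuousLinearMap.proj (R := ℂ) (φ := fun _ : Fin (k + 2) => ℂ) 0).analyticAt q₀
    have h3 : AnalyticAt ℂ (fun p : Vd (k + 2) => Pool.Agent.TG.tl p) q₀ := Pool.Agent.TG.tlL.analyticAt q₀
    exact (cons_an (h2.sub h1) h3).continuousAt
  have htl : Pool.Agent.TG.tl q₀ = 0 := by
    have h1 : (ρ : ℂ) • Pool.Agent.TG.tl q₀ = 0 := by
      have h2 := hms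
      unfold Pool.Agent.TG.ms at h2
      exact left_eq_add.1 h2.symm
    have hρ' : (ρ : ℂ) ≠ 0 := by exact_mod_cast hstr.pos.ne'
    exact (smul_eq_zero.1 h1).resolve_left hρ'
  have h00 : (Fin.cons (α := fun _ => ℂ) (q₀ 0 - φ (Pool.Agent.TG.ms y₀ ρ q₀)) (Pool.Agent.TG.tl q₀) : Vd (k + 2)) = 0 := by
    rw [hms, hφ0, sub_self, htl]
    funext i
    refine Fin.cases ?_ (fun j => ?_) i
    · rfl
    · rfl
  have hnear : ∀ᶠ q in 𝓝 q₀, Q (χ.σ q) = 0 := by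
    have h1 := hcont.eventually_mem (by
      simp only [h00]
      exact ball_mem_nhds (0 : Vd (k + 2)) hR)
    filter_upwards [h1] with q hq
    have h2 := hK0 _ hq
    have h3 : (Fin.cons (α := fun _ => ℂ) (φ (Pool.Agent.TG.ms y₀ ρ (Fin.cons (α := fun _ => ℂ) (q 0 - φ (Pool.Agent.TG.ms y₀ ρ q)) (Pool.Agent.TG.tl q))) +
        (Fin.cons (α := fun _ => ℂ) (q 0 - φ (Pool.Agent.TG.ms y₀ ρ q)) (Pool.Agent.TG.tl q) : Vd (k + 2)) 0)
        (Pool.Agent.TG.tl (Fin.cons (α := fun _ => ℂ) (q 0 - φ (Pool.Agent.TG.ms y₀ ρ q)) (Pool.Agent.TG.tl q))) : Vd (k + 2)) = q := by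
      funext i
      refine Fin.cases ?_ (fun j => ?_) i
      · show φ (Pool.Agent.TG.ms y₀ ρ q) + (q 0 - φ (Pool.Agent.TG.ms y₀ ρ q)) = q 0
        ring
      · rfl
    simp only [hK] at h2
    rw [h3] at h2
    exact h2
  obtain ⟨hσX, hσU, hσq⟩ := χ.σ_mem q₀ hq₀
  have hfr := hQ0 _ hσX
  refine hfr ?_
  have h1 : ∀ᶠ x in 𝓝 (χ.σ q₀), x ∈ χ.U := χ.isOpen_U.mem_nhds hσU
  have h2 : ∀ᶠ x in 𝓝 (χ.σ q₀), Q (χ.σ (χ.q x)) = 0 := by
    have h3 : Tendsto χ.q (𝓝 (χ.σ q₀)) (𝓝 q₀) := by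
      have h4 := (χ.q_an _ hσU).continuousAt.tendsto
      rwa [hσq] at h4
    exact h3.eventually hnear
  filter_upwards [h1, h2] with x hx1 hx2
  rintro ⟨hxX, hxQ⟩
  obtain ⟨-, b, -, hbe⟩ := χ.surj x hxX hx1
  apply hxQ
  rw [hbe, hQ.hom, hx2, mul_zero]

/-- the factorization -/
private theorem ordAt_of {X : Set (EN N)} {Λ : AddSubgroup (Vd (k + 1))} {u : EN N → Vd (k + 1)} {D B : Set (Vd (k + 1))} {Q : EN N → ℂ} {d : ℕ} {S : Set (Vd (k + 1) → MN N)}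
    (G : Geo X Λ u D B) (hS : Csf X Λ u D S) (hQ : QD X Λ u D Q d) {Φ : Vd (k + 1) → MN N} (hΦ : Φ ∈ S) {μ : ℕ} (hμ : ∀ y ∉ D, OG X Λ u Q Φ μ y)
    {y₀ : Vd (k + 1)} (hy₀ : y₀ ∉ D) : OrdAt X Λ u Q Φ μ {y | y ∉ D ∧ OG X Λ u Q Φ (μ + 1) y} y₀ := by
  obtain ⟨χ, ρ, q₀, φ, R, hR, hstr, hq₀, hms, hφa, hφ0, hpr, hKa, hv⟩ := local_data G hS hQ hΦ hy₀
  set K : Vd (k + 2) → ℂ := fun p => Q (χ.σ (Fin.cons (α := fun _ => ℂ) (φ (Pool.Agent.TG.ms y₀ ρ p) + p 0) (Pool.Agent.TG.tl p))) with hK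
  have hKcons : ∀ (t : ℂ) (v : Vd (k + 1)), K (Fin.cons (α := fun _ => ℂ) t v) = Q (χ.σ (Fin.cons (α := fun _ => ℂ) (φ (y₀ + (ρ : ℂ) • v) + t) v)) := fun t v => rfl
  obtain ⟨b, hb, hKb⟩ := div_pow hKa μ (fun v hvR => ((hv v hvR).2 μ).1 (hμ _ (hv v hvR).1))
  have hρ' : (ρ : ℂ) ≠ 0 := by exact_mod_cast hstr.pos.ne'
  have hsh : AnalyticAt ℂ (fun q : Vd (k + 2) => (Fin.cons (α := fun _ => ℂ) (q 0 - φ (Pool.Agent.TG.ms y₀ ρ q)) (Pool.Agent.TG.tl q) : Vd (k + 2))) q₀ := by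
    have h1 : AnalyticAt ℂ (fun p : Vd (k + 2) => φ (Pool.Agent.TG.ms y₀ ρ p)) q₀ := by
      refine AnalyticAt.fun_comp (g := φ) (f := Pool.Agent.TG.ms y₀ ρ) ?_ (Pool.Agent.TG.ms_an y₀ ρ q₀)
      rw [hms]
      exact hφa
    have h2 : AnalyticAt ℂ (fun p : Vd (k + 2) => p 0) q₀ := (ContinuousLinearMap.proj (R := ℂ) (φ := fun _ : Fin (k + 2) => ℂ) 0).analyticAt q₀
    have h3 : AnalyticAt ℂ (fun p : Vd (k + 2) => Pool.Agent.TG.tl p) q₀ := Pool.Agent.TG.tlL.analyticAt q₀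
    exact cons_an (h2.sub h1) h3
  have htl : Pool.Agent.TG.tl q₀ = 0 := by
    have h1 : (ρ : ℂ) • Pool.Agent.TG.tl q₀ = 0 := by
      have h2 := hms
      unfold Pool.Agent.TG.ms at h2
      exact left_eq_add.1 h2.symm
    exact (smul_eq_zero.1 h1).resolve_left hρ'
  have h00 : (Fin.cons (α := fun _ => ℂ) (q₀ 0 - φ (Pool.Agent.TG.ms y₀ ρ q₀)) (Pool.Agent.TG.tl q₀) : Vd (k + 2)) = 0 := by
    rw [hms, hφ0, sub_self, htl]
    funext i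
    refine Fin.cases ?_ (fun j => ?_) i
    · rfl
    · rfl
  refine ⟨χ, y₀, ρ, q₀, φ, fun q => b (Fin.cons (α := fun _ => ℂ) (q 0 - φ (Pool.Agent.TG.ms y₀ ρ q)) (Pool.Agent.TG.tl q)), hstr, hq₀, hms, hφa, hφ0, ?_, hpr, ?_, ?_⟩
  · refine AnalyticAt.fun_comp (g := b) (f := fun q : Vd (k + 2) => (Fin.cons (α := fun _ => ℂ) (q 0 - φ (Pool.Agent.TG.ms y₀ ρ q)) (Pool.Agent.TG.tl q) : Vd (k + 2))) ?_ hsh
    simp only [h00]
    exact hb 0 (mem_ball_self hR)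
  · have h1 := hsh.continuousAt.eventually_mem (by
      simp only [h00]
      exact ball_mem_nhds (0 : Vd (k + 2)) hR)
    filter_upwards [h1] with q hq
    have h2 := hKb _ hq
    have h3 : (Fin.cons (α := fun _ => ℂ) (φ (Pool.Agent.TG.ms y₀ ρ (Fin.cons (α := fun _ => ℂ) (q 0 - φ (Pool.Agent.TG.ms y₀ ρ q)) (Pool.Agent.TG.tl q))) +
        (Fin.cons (α := fun _ => ℂ) (q 0 - φ (Pool.Agent.TG.ms y₀ ρ q)) (Pool.Agent.TG.tl q) : Vd (k + 2)) 0)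
        (Pool.Agent.TG.tl (Fin.cons (α := fun _ => ℂ) (q 0 - φ (Pool.Agent.TG.ms y₀ ρ q)) (Pool.Agent.TG.tl q))) : Vd (k + 2)) = q := by
      funext i
      refine Fin.cases ?_ (fun j => ?_) i
      · show φ (Pool.Agent.TG.ms y₀ ρ q) + (q 0 - φ (Pool.Agent.TG.ms y₀ ρ q)) = q 0
        ring
      · rfl
    simp only [hK] at h2
    rw [h3] at h2
    rw [h2]
    rfl
  · have h1 : ∀ᶠ y in 𝓝 y₀, ‖(ρ : ℂ)⁻¹ • (y - y₀)‖ < R := by
      have h2 : Continuous fun y : Vd (k + 1) => ‖(ρ : ℂ)⁻¹ • (y - y₀)‖ := by fun_prop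
      refine h2.continuousAt.eventually_lt_const ?_
      simpa using hR
    filter_upwards [h1] with y hy
    obtain ⟨hvD, hvO⟩ := hv _ hy
    have e1 : y₀ + (ρ : ℂ) • ((ρ : ℂ)⁻¹ • (y - y₀)) = y := by
      rw [smul_smul, mul_inv_cancel₀ hρ', one_smul, add_sub_cancel]
    have h3 := div_iff hb hKb hy
    have h4 := hvO (μ + 1)
    have e2 : (fun t : ℂ => K (Fin.cons (α := fun _ => ℂ) t ((ρ : ℂ)⁻¹ • (y - y₀)))) =
        fun t : ℂ => Q (χ.σ (Fin.cons (α := fun _ => ℂ) (φ (y₀ + (ρ : ℂ) • ((ρ : ℂ)⁻¹ • (y - y₀))) + t) ((ρ : ℂ)⁻¹ • (y - y₀)))) := rfl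
    rw [e2] at h3
    have h5 := h4.trans h3
    rw [e1] at h5 hvD
    have e3 : (Fin.cons (α := fun _ => ℂ) ((Fin.cons (α := fun _ => ℂ) (φ y) ((ρ : ℂ)⁻¹ • (y - y₀)) : Vd (k + 2)) 0 -
        φ (Pool.Agent.TG.ms y₀ ρ (Fin.cons (α := fun _ => ℂ) (φ y) ((ρ : ℂ)⁻¹ • (y - y₀))))) (Pool.Agent.TG.tl (Fin.cons (α := fun _ => ℂ) (φ y) ((ρ : ℂ)⁻¹ • (y - y₀)))) : Vd (k + 2)) =
        Fin.cons (α := fun _ => ℂ) 0 ((ρ : ℂ)⁻¹ • (y - y₀)) := by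
      rw [ms_cons, e1]
      funext i
      refine Fin.cases ?_ (fun j => ?_) i
      · show φ y - φ y = 0
        ring
      · rfl
    rw [e3]
    constructor
    · intro h
      exact h5.1 h.2
    · intro h
      exact ⟨hvD, h5.2 h⟩

private theorem beta_of {X : Set (EN N)} {Λ : AddSubgroup (Vd (k + 1))} {u : EN N → Vd (k + 1)} {Q : EN N → ℂ} {Φ : Vd (k + 1) → MN N} {μ : ℕ} {Z : Set (Vd (k + 1))}
    {y₀ : Vd (k + 1)} (h : OrdAt X Λ u Q Φ μ Z y₀) : ∃ β : Vd (k + 1) → ℂ, AnalyticAt ℂ β y₀ ∧ ∀ᶠ y in 𝓝 y₀, (y ∈ Z ↔ β y = 0) := by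
  obtain ⟨χ, c, ρ, q₀, φ, b, hstr, hq₀, hms, hφ, hφ0, hb, -, -, hZ⟩ := h
  refine ⟨fun y => b (Fin.cons (α := fun _ => ℂ) (φ y) ((ρ : ℂ)⁻¹ • (y - c))), ?_, hZ⟩
  refine AnalyticAt.fun_comp (g := b) (f := fun y : Vd (k + 1) => (Fin.cons (α := fun _ => ℂ) (φ y) ((ρ : ℂ)⁻¹ • (y - c)) : Vd (k + 2))) ?_
    (cons_an hφ (by fun_prop))
  have h1 := eq_cons hstr.pos hms
  simp only [hφ0]
  rw [← h1]
  exact hb

private theorem period {X : Set (EN N)} {Λ : AddSubgroup (Vd (k + 1))} {u : EN N → Vd (k + 1)} {D B : Set (Vd (k + 1))} {S : Set (Vd (k + 1) → MN N)}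
    (G : Geo X Λ u D B) (hS : Csf X Λ u D S) {Φ : Vd (k + 1) → MN N} (hΦ : Φ ∈ S) : ∃ M : ℕ, 1 ≤ M ∧ ∀ l ∈ Λ, ∀ y ∉ D, Φ (y + M • l) = Φ y := by
  classical
  set T := hS.fin.toFinset with hT
  refine ⟨T.card.factorial, Nat.factorial_pos _, fun l hl => ?_⟩
  have h1 : ∀ m : ℕ, ∃ f ∈ S, ∀ y ∉ D, f y = Φ (y + m • l) := fun m => hS.tr Φ hΦ (m • l) (Λ.nsmul_mem hl m)
  choose f hf hfe using h1
  obtain ⟨i, hi, j, hj, hij, hfij⟩ := Finset.exists_ne_map_eq_of_card_lt_of_maps_to (s := Finset.range (T.card + 1)) (t := T) (f := f)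
    (by rw [Finset.card_range]; omega) (fun m _ => by rw [hT]; simpa using hf m)
  -- a period `m ≤ card`
  obtain ⟨m, hm1, hm2, hm⟩ : ∃ m : ℕ, 1 ≤ m ∧ m ≤ T.card ∧ ∀ y ∉ D, Φ (y + m • l) = Φ y := by
    have key : ∀ i j : ℕ, i < j → j ≤ T.card → f i = f j → ∃ m : ℕ, 1 ≤ m ∧ m ≤ T.card ∧ ∀ y ∉ D, Φ (y + m • l) = Φ y := by
      intro i j hij hj hfij
      refine ⟨j - i, by omega, by omega, fun y hy => ?_⟩
      have hy' : y - i • l ∉ D := by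
        intro h
        have h2 := G.D_inv _ h (i • l) (Λ.nsmul_mem hl i)
        rw [sub_add_cancel] at h2
        exact hy h2
      have h2 := hfe i _ hy'
      have h3 := hfe j _ hy'
      rw [hfij, h3] at h2
      rw [sub_add_cancel] at h2
      rw [← h2]
      congr 1
      have e : j = i + (j - i) := by omega
      conv_rhs => rw [e, add_smul]
      abel
    rw [Finset.mem_range] at hi hj
    rcases lt_or_gt_of_ne hij with h | h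
    · exact key i j h (by omega) hfij
    · exact key j i h (by omega) hfij.symm
  obtain ⟨n, hn⟩ := Nat.dvd_factorial hm1 hm2
  have h2 : ∀ t : ℕ, ∀ y ∉ D, Φ (y + (m * t) • l) = Φ y := by
    intro t
    induction t with
    | zero =>
      intro y _
      rw [mul_zero, zero_smul, add_zero]
    | succ t ih =>
      intro y hy
      have hy' : y + (m * t) • l ∉ D := by
        intro h
        exact hy ((G.D_sub (Λ.nsmul_mem hl _)).1 h)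
      rw [mul_add, mul_one, add_smul, ← add_assoc, hm _ hy', ih y hy]
  rw [hn]
  exact h2 n

theorem ordQ {X : Set (EN N)} {Λ : AddSubgroup (Vd (k + 1))} {u : EN N → Vd (k + 1)} {D B : Set (Vd (k + 1))} {Q : EN N → ℂ} {d : ℕ} {S : Set (Vd (k + 1) → MN N)}
    (G : Geo X Λ u D B) (hs : Simp Λ) (hL : LDi D) (hS : Csf X Λ u D S) (hQ : QD X Λ u D Q d) (hQ0 : ∀ x ∈ X, ∃ᶠ x' in 𝓝 x, x' ∈ X ∧ Q x' ≠ 0)
    {Φ : Vd (k + 1) → MN N} (hΦ : Φ ∈ S) (h0 : ∀ y ∉ D, ∀ x ∈ X, pr x = Φ y → Q x = 0) :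
    ∃ (μ : ℕ) (Z : Set (Vd (k + 1))), 1 ≤ μ ∧ (∀ y ∉ D, OrdAt X Λ u Q Φ μ Z y) ∧ (∃ M : ℕ, 1 ≤ M ∧ ∀ y ∈ Z, ∀ l ∈ Λ, y + M • l ∈ Z) ∧
      ∀ a : Vd (k + 1), a ≠ 0 → ∀ b : Vd (k + 1), Set.Countable {z : ℂ | z • a + b ∈ D ∪ Z} := by
  classical
  have hfin := ord_finite G hS hQ hQ0 hΦ
  set j₀ := Nat.find hfin with hj₀
  obtain ⟨ys, hys, hysO⟩ := Nat.find_spec hfin
  have hmin : ∀ j < j₀, ∀ y ∉ D, OG X Λ u Q Φ j y := by
    intro j hj y hy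
    by_contra hcon
    exact Nat.find_min hfin hj ⟨y, hy, hcon⟩
  have hOG1 : ∀ j : ℕ, j ≤ 1 → ∀ y ∉ D, OG X Λ u Q Φ j y := by
    intro j hj y hy γ hγ hγX hγ0
    have hx := hγX.self_of_nhds
    have hq0 : Q (γ 0) = 0 := h0 y hy _ hx.1 hγ0
    have hd : DifferentiableAt ℂ (fun t => Q (γ t)) 0 := (hQ.diff _).comp (0 : ℂ) hγ.differentiableAt
    have h1 := O_of hd hq0 0
    have h2 : (fun t => Q (γ t)) =O[𝓝 (0 : ℂ)] (fun t : ℂ => t) := by simpa using h1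
    interval_cases j
    · have h3 : (fun t : ℂ => t) =O[𝓝 (0 : ℂ)] (fun _ : ℂ => (1 : ℂ)) := continuousAt_id.isBigO_one ℂ
      simpa using h2.trans h3
    · simpa using h2
  have hj2 : 2 ≤ j₀ := by
    by_contra hlt
    push Not at hlt
    exact hysO (hOG1 j₀ (by omega) ys hys)
  obtain ⟨μ, hμ⟩ : ∃ μ, j₀ = μ + 1 := ⟨j₀ - 1, by omega⟩
  have hμ1 : 1 ≤ μ := by omega
  have hμO : ∀ y ∉ D, OG X Λ u Q Φ μ y := hmin μ (by omega)
  obtain ⟨M, hM, hMΦ⟩ := period G hS hΦ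
  have hord : ∀ y ∉ D, OrdAt X Λ u Q Φ μ {y | y ∉ D ∧ OG X Λ u Q Φ (μ + 1) y} y := fun y hy => ordAt_of G hS hQ hΦ hμO hy
  have hper : ∀ y ∈ {y | y ∉ D ∧ OG X Λ u Q Φ (μ + 1) y}, ∀ l ∈ Λ, y + M • l ∈ {y | y ∉ D ∧ OG X Λ u Q Φ (μ + 1) y} := by
    rintro y ⟨hyD, hyO⟩ l hl
    have hMl : M • l ∈ Λ := Λ.nsmul_mem hl M
    refine ⟨fun h => hyD ((G.D_sub hMl).1 h), ?_⟩
    intro γ hγ hγX hγ0
    refine hyO γ hγ ?_ (hγ0.trans (hMΦ l hl y hyD))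
    filter_upwards [hγX] with t ht
    refine ⟨ht.1, ?_⟩
    have h1 := Λ.add_mem ht.2 hMl
    convert h1 using 1
    abel
  refine ⟨μ, _, hμ1, hord, ⟨M, hM, hper⟩, fun a ha b => ?_⟩
  refine lines_count G.lat hs hL G.D_closed (fun y hy l hl => (G.D_sub hl).2 hy) (fun y hy => hy.1) (fun y hy => ?_) hM hper hys
    (fun h => hysO (by rw [← hj₀, hμ]; exact h.2)) ha b
  obtain ⟨β, hβ, hβe⟩ := beta_of (hord y hy)
  refine ⟨1, fun z _ => β z, analyticAt_pi_iff.2 fun _ => hβ, ?_⟩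
  filter_upwards [hβe] with z hz
  rw [hz]
  exact ⟨fun h => funext fun _ => h, fun h => congrFun h 0⟩

end Pool.Agent.G4

end

section

/-!
# G4 Z LocB: comparison of `|Q|` with the distance from the section

Plan.  `D ∪ Z` is closed: `D` is closed and near `y ∉ D` the set `Z` is the zero set of a continuous function (`OrdAt`).  The bounds: by compactness modulo the finite index subgroup `M Λ` (both `Z` and, after increasing
`M`, `Φ` off `D` are invariant: `Csf.fin`, `Csf.tr` give a common period `M`), it suffices to prove them near each `y₀` with distance `≥ δ` from `D ∪ Z`: for `y` near `y₀`, `x` over `y` with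
`pr x` near `Φ y₀`: `x = c • χ.σ q`, `q` near `q₀`, `ms c ρ q = y + λ`, and by `Lat.disc` (close points) `ms c ρ q = y` after choosing the lift; `|Q x| / |x|^d = |Q (χ.σ q)| / |χ.σ q|^d` is comparable to
`|q 0 - φ y|^μ` because `b ≠ 0` near `q₀`, and `dist (pr x) (Φ y)` is comparable to `|q 0 - φ y|` (`pr ∘ χ.σ` is an immersion, injective: `TG/Nr`, `TG/Cp`, `AD/ChartFs`).
-/

set_option autoImplicit false

open Topology Filter Metric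

namespace Pool.Agent.G4

open Pool.Agent.H36.BP (EN fs wd Sub)
open Pool.Agent.H14.PP (IsCone CurveAt Tan)
open Pool.Agent.H62.EF (MN pr)
open Pool.Agent.AD (Vd Chart Charts)
open Pool.Agent.TG (TMap Lat Geo Gd)

open Pool.Agent.TG (VForm JJ Fb TransAt)
open Pool.Agent.G3 (Cv wt PS QD Crs)

variable {N k : ℕ}

/-! ### copies of private lemmas of `LocA` and `A/JB` -/

private theorem lb_ms_mem {X : Set (EN N)} {Λ : AddSubgroup (Vd (k + 1))} {u : EN N → Vd (k + 1)} (hu : TMap X Λ u) {χ : Chart (k + 2) X} {c : Vd (k + 1)} {ρ : ℝ}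
    (hm : Pool.Agent.TG.Str Λ u χ c ρ) {x : EN N} (hx : x ∈ X) (hU : x ∈ χ.U) {y : Vd (k + 1)} (h : u x - y ∈ Λ) :
    Pool.Agent.TG.ms c ρ (χ.q x) - y ∈ Λ := by
  obtain ⟨hb, a, ha, e⟩ := χ.surj x hx hU
  have h1 : u x - u (χ.σ (χ.q x)) ∈ Λ := by
    have h3 := hu.smul _ (χ.σ_mem _ hb).1 a ha
    rw [← e] at h3
    exact h3
  have h2 := hm.lift _ hb
  have h3 := Λ.sub_mem (Λ.sub_mem h h1) h2
  convert h3 using 1
  abel

private theorem lb_eq_cons {c y : Vd (k + 1)} {ρ : ℝ} (hρ : 0 < ρ) {q : Vd (k + 2)} (h : Pool.Agent.TG.ms c ρ q = y) :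
    q = Fin.cons (α := fun _ => ℂ) (q 0) ((ρ : ℂ)⁻¹ • (y - c)) := by
  have hρ' : (ρ : ℂ) ≠ 0 := by exact_mod_cast hρ.ne'
  have h1 : (ρ : ℂ)⁻¹ • (y - c) = Pool.Agent.TG.tl q := by
    rw [← h]
    unfold Pool.Agent.TG.ms
    rw [add_sub_cancel_left, smul_smul, inv_mul_cancel₀ hρ', one_smul]
  rw [h1]
  funext i
  refine Fin.cases ?_ (fun j => ?_) i
  · rfl
  · rfl

private theorem lb_cons_an {m : ℕ} {E : Type*} [NormedAddCommGroup E] [NormedSpace ℂ E] {f : E → ℂ} {g : E → Vd m} {x : E} (hf : AnalyticAt ℂ f x) (hg : AnalyticAt ℂ g x) :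
    AnalyticAt ℂ (fun x => (Fin.cons (α := fun _ => ℂ) (f x) (g x) : Vd (m + 1))) x := by
  rw [analyticAt_pi_iff]
  intro i
  refine Fin.cases ?_ (fun j => ?_) i
  · simpa using hf
  · simpa using (analyticAt_pi_iff.1 hg) j

private theorem lb_period {X : Set (EN N)} {Λ : AddSubgroup (Vd (k + 1))} {u : EN N → Vd (k + 1)} {D B : Set (Vd (k + 1))} {S : Set (Vd (k + 1) → MN N)}
    (G : Geo X Λ u D B) (hS : Csf X Λ u D S) {Φ : Vd (k + 1) → MN N} (hΦ : Φ ∈ S) : ∃ M : ℕ, 1 ≤ M ∧ ∀ l ∈ Λ, ∀ y ∉ D, Φ (y + M • l) = Φ y := by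
  classical
  set T := hS.fin.toFinset with hT
  refine ⟨T.card.factorial, Nat.factorial_pos _, fun l hl => ?_⟩
  have h1 : ∀ m : ℕ, ∃ f ∈ S, ∀ y ∉ D, f y = Φ (y + m • l) := fun m => hS.tr Φ hΦ (m • l) (Λ.nsmul_mem hl m)
  choose f hf hfe using h1
  obtain ⟨i, hi, j, hj, hij, hfij⟩ := Finset.exists_ne_map_eq_of_card_lt_of_maps_to (s := Finset.range (T.card + 1)) (t := T) (f := f)
    (by rw [Finset.card_range]; omega) (fun m _ => by rw [hT]; simpa using hf m)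
  -- a period `m ≤ card`
  obtain ⟨m, hm1, hm2, hm⟩ : ∃ m : ℕ, 1 ≤ m ∧ m ≤ T.card ∧ ∀ y ∉ D, Φ (y + m • l) = Φ y := by
    have key : ∀ i j : ℕ, i < j → j ≤ T.card → f i = f j → ∃ m : ℕ, 1 ≤ m ∧ m ≤ T.card ∧ ∀ y ∉ D, Φ (y + m • l) = Φ y := by
      intro i j hij hj hfij
      refine ⟨j - i, by omega, by omega, fun y hy => ?_⟩
      have hy' : y - i • l ∉ D := by
        intro h
        have h2 := G.D_inv _ h (i • l) (Λ.nsmul_mem hl i)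
        rw [sub_add_cancel] at h2
        exact hy h2
      have h2 := hfe i _ hy'
      have h3 := hfe j _ hy'
      rw [hfij, h3] at h2
      rw [sub_add_cancel] at h2
      rw [← h2]
      congr 1
      have e : j = i + (j - i) := by omega
      conv_rhs => rw [e, add_smul]
      abel
    rw [Finset.mem_range] at hi hj
    rcases lt_or_gt_of_ne hij with h | h
    · exact key i j h (by omega) hfij
    · exact key j i h (by omega) hfij.symm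
  obtain ⟨n, hn⟩ := Nat.dvd_factorial hm1 hm2
  have h2 : ∀ t : ℕ, ∀ y ∉ D, Φ (y + (m * t) • l) = Φ y := by
    intro t
    induction t with
    | zero =>
      intro y _
      rw [mul_zero, zero_smul, add_zero]
    | succ t ih =>
      intro y hy
      have hy' : y + (m * t) • l ∉ D := by
        intro h
        exact hy ((G.D_sub (Λ.nsmul_mem hl _)).1 h)
      rw [mul_add, mul_one, add_smul, ← add_assoc, hm _ hy', ih y hy]
  rw [hn]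
  exact h2 n

/-- the product of a matrix and the vector `x₀` -/
private noncomputable def lb_mul (x₀ : EN N) : MN N →ₗ[ℂ] EN N where
  toFun y := WithLp.toLp 2 fun i => ∑ j, y (i, j) * x₀ j
  map_add' y z := by
    ext i
    simp [add_mul, Finset.sum_add_distrib]
  map_smul' c y := by
    ext i
    simp [Finset.mul_sum, mul_assoc]

private theorem lb_mul_pr (x₀ x : EN N) :
    lb_mul x₀ (pr x) = (inner ℂ x x₀ / ((‖x‖ ^ 2 : ℝ) : ℂ)) • x := by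
  ext i
  simp only [lb_mul, pr, LinearMap.coe_mk, AddHom.coe_mk, PiLp.smul_apply, smul_eq_mul]
  rw [PiLp.inner_apply, Finset.sum_div, Finset.sum_mul]
  refine Finset.sum_congr rfl fun j _ => ?_
  simp only [RCLike.inner_apply]
  ring

private theorem lb_mul_self {x₀ : EN N} (hx₀ : x₀ ≠ 0) : lb_mul x₀ (pr x₀) = x₀ := by
  rw [lb_mul_pr]
  have h1 : inner ℂ x₀ x₀ = ((‖x₀‖ ^ 2 : ℝ) : ℂ) := by
    rw [inner_self_eq_norm_sq_to_K]
    push_cast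
    rfl
  rw [h1, div_self, one_smul]
  have : ‖x₀‖ ≠ 0 := norm_ne_zero_iff.2 hx₀
  exact_mod_cast pow_ne_zero 2 this

/-- the coordinates are locally Lipschitz functions of the point of the projective space -/
private theorem lb_lower {d : ℕ} {X : Set (EN N)} (hX : IsCone X) (χ : Chart d X) {a : Vd d} (haB : a ∈ ball (0 : Vd d) 2) :
    ∃ K : ℝ, 0 < K ∧ ∀ᶠ p : Vd d × Vd d in 𝓝 (a, a), p.1 ∈ ball (0 : Vd d) 2 → p.2 ∈ ball (0 : Vd d) 2 →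
      ‖p.1 - p.2‖ ≤ K * dist (pr (χ.σ p.1)) (pr (χ.σ p.2)) := by
  have hx₀ : χ.σ a ≠ 0 := Pool.Agent.TG.ne_zero hX (χ.σ_mem a haB).1
  set x₀ := χ.σ a with hx₀def
  let L : MN N →L[ℂ] EN N := LinearMap.toContinuousLinearMap (lb_mul x₀)
  have hL : ∀ y, L y = lb_mul x₀ y := fun y => rfl
  have hLx : L (pr x₀) = x₀ := by rw [hL, lb_mul_self hx₀]
  have hQan : AnalyticAt ℂ (fun y => χ.q (L y)) (pr x₀) := by
    have h1 : AnalyticAt ℂ χ.q (L (pr x₀)) := by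
      rw [hLx]
      exact χ.q_an _ (χ.σ_mem a haB).2.1
    exact h1.comp (L.analyticAt _)
  obtain ⟨K, s, hs, hK⟩ := hQan.hasStrictFDerivAt.exists_lipschitzOnWith
  have hcpr : ContinuousAt (fun p => pr (χ.σ p)) a :=
    ContinuousAt.comp (g := pr) (Pool.Agent.H62.EF.continuousAt_pr hx₀) (χ.σ_an a haB).continuousAt
  have h1 : ∀ᶠ p in 𝓝 a, pr (χ.σ p) ∈ s := hcpr hs
  have h2 : ∀ᶠ p in 𝓝 a, L (pr (χ.σ p)) ≠ 0 := by
    have hc : ContinuousAt (fun p => L (pr (χ.σ p))) a :=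
      ContinuousAt.comp (g := L) L.continuous.continuousAt hcpr
    apply hc.eventually_ne
    rw [← hx₀def, hLx]
    exact hx₀
  have h3 : ∀ p, p ∈ ball (0 : Vd d) 2 → L (pr (χ.σ p)) ≠ 0 → χ.q (L (pr (χ.σ p))) = p := by
    intro p hp hne
    rw [hL, lb_mul_pr] at hne ⊢
    have hc : inner ℂ (χ.σ p) x₀ / ((‖χ.σ p‖ ^ 2 : ℝ) : ℂ) ≠ 0 := by
      intro h0
      rw [h0, zero_smul] at hne
      exact hne rfl
    rw [χ.q_smul _ (χ.σ_mem p hp).2.1 _ hc]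
    exact (χ.σ_mem p hp).2.2
  refine ⟨(K : ℝ) + 1, by positivity, ?_⟩
  have h12 := h1.and h2
  rw [nhds_prod_eq]
  filter_upwards [h12.prod_mk h12] with p hp hp1 hp2
  have h4 := hK.dist_le_mul _ hp.1.1 _ hp.2.1
  simp only [h3 p.1 hp1 hp.1.2, h3 p.2 hp2 hp.2.2] at h4
  rw [dist_eq_norm p.1 p.2] at h4
  refine h4.trans (mul_le_mul_of_nonneg_right (by linarith) dist_nonneg)

/-- the distance in the projective space is bounded by the distance in the cone -/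
private theorem lb_dist_pr_le {x y : EN N} (hx : x ≠ 0) (hy : y ≠ 0) : dist (pr x) (pr y) ≤ 2 / ‖y‖ * ‖x - y‖ := by
  have hxn : 0 < ‖x‖ := norm_pos_iff.2 hx
  have hyn : 0 < ‖y‖ := norm_pos_iff.2 hy
  have h1 : wd x y = wd x (y - x) := by
    have h2 := Pool.Agent.H36.BP.wd_inv x (y - x) 1 1
    simp only [one_smul, norm_one, one_pow, one_mul, sub_add_cancel] at h2
    exact h2
  have h3 := Pool.Agent.H36.BP.wd_le x (y - x)
  rw [Pool.Agent.H62.EF.dist_pr hx hy, h1]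
  have h4 : Real.sqrt 2 ≤ 2 := by
    rw [Real.sqrt_le_left (by norm_num)]
    norm_num
  have h5 : wd x (y - x) / (‖x‖ * ‖y‖) ≤ ‖y - x‖ / ‖y‖ := by
    rw [div_le_div_iff₀ (by positivity) hyn]
    nlinarith [h3]
  calc Real.sqrt 2 * (wd x (y - x) / (‖x‖ * ‖y‖)) ≤ 2 * (‖y - x‖ / ‖y‖) :=
        mul_le_mul h4 h5 (div_nonneg (Pool.Agent.H36.BP.wd_nonneg _ _) (by positivity)) (by norm_num)
    _ = 2 / ‖y‖ * ‖x - y‖ := by rw [norm_sub_rev x y]; ring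

/-- `pr ∘ χ.σ` is locally Lipschitz -/
private theorem lb_upper {d : ℕ} {X : Set (EN N)} (hX : IsCone X) (χ : Chart d X) {a : Vd d} (haB : a ∈ ball (0 : Vd d) 2) :
    ∃ L : ℝ, 0 < L ∧ ∀ᶠ p : Vd d × Vd d in 𝓝 (a, a), dist (pr (χ.σ p.1)) (pr (χ.σ p.2)) ≤ L * ‖p.1 - p.2‖ := by
  have hx₀ : χ.σ a ≠ 0 := Pool.Agent.TG.ne_zero hX (χ.σ_mem a haB).1
  have hn : 0 < ‖χ.σ a‖ := norm_pos_iff.2 hx₀
  obtain ⟨K, s, hs, hK⟩ := (χ.σ_an a haB).hasStrictFDerivAt.exists_lipschitzOnWith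
  have h1 : ∀ᶠ p in 𝓝 a, p ∈ s ∧ ‖χ.σ a‖ / 2 < ‖χ.σ p‖ := by
    have h2 : ∀ᶠ p in 𝓝 a, ‖χ.σ a‖ / 2 < ‖χ.σ p‖ :=
      (χ.σ_an a haB).continuousAt.norm.eventually_const_lt (by linarith)
    exact (show ∀ᶠ p in 𝓝 a, p ∈ s from hs).and h2
  refine ⟨2 / (‖χ.σ a‖ / 2) * ((K : ℝ) + 1), by positivity, ?_⟩
  rw [nhds_prod_eq]
  filter_upwards [h1.prod_mk h1] with p hp
  have hp1 : χ.σ p.1 ≠ 0 := norm_pos_iff.1 (lt_trans (by positivity) hp.1.2)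
  have hp2 : χ.σ p.2 ≠ 0 := norm_pos_iff.1 (lt_trans (by positivity) hp.2.2)
  have h4 := hK.dist_le_mul _ hp.1.1 _ hp.2.1
  rw [dist_eq_norm, dist_eq_norm] at h4
  refine (lb_dist_pr_le hp1 hp2).trans ?_
  rw [mul_assoc]
  refine mul_le_mul ?_ (h4.trans (mul_le_mul_of_nonneg_right (by linarith) (norm_nonneg _))) (norm_nonneg _) (by positivity)
  exact div_le_div_of_nonneg_left (by norm_num) (by positivity) hp.2.2.le

/-- points near the point of a chart -/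
private theorem lb_near {d : ℕ} {X : Set (EN N)} (hX : IsCone X) (χ : Chart d X) {a : Vd d} (haB : a ∈ ball (0 : Vd d) 2) {s : ℝ} (hs : 0 < s) :
    ∃ e : ℝ, 0 < e ∧ ∀ x ∈ X, dist (pr x) (pr (χ.σ a)) < e → x ∈ χ.U ∧ ‖χ.q x - a‖ < s := by
  have hσ := χ.σ_mem a haB
  have hx0 : χ.σ a ≠ 0 := Pool.Agent.TG.ne_zero hX hσ.1
  have hV : {x | x ∈ χ.U ∧ ‖χ.q x - a‖ < s} ∈ 𝓝 (χ.σ a) := by
    have h1 : ∀ᶠ x in 𝓝 (χ.σ a), x ∈ χ.U := χ.isOpen_U.mem_nhds hσ.2.1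
    have h2 : ∀ᶠ x in 𝓝 (χ.σ a), ‖χ.q x - a‖ < s := by
      have hc : ContinuousAt (fun x => ‖χ.q x - a‖) (χ.σ a) := ((χ.q_an _ hσ.2.1).continuousAt.sub continuousAt_const).norm
      have h3 : (fun x => ‖χ.q x - a‖) (χ.σ a) < s := by simpa [hσ.2.2] using hs
      exact hc.tendsto.eventually_lt_const h3
    exact h1.and h2
  obtain ⟨e, he, h⟩ := Pool.Agent.H62.EF.near_of_pr hx0 hV
  refine ⟨e, he, fun x hx hxd => ?_⟩
  obtain ⟨c, hc, hcU, hcq⟩ := h x (Pool.Agent.TG.ne_zero hX hx) hxd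
  have e : x = c⁻¹ • (c • x) := by rw [smul_smul, inv_mul_cancel₀ hc, one_smul]
  have hxU : x ∈ χ.U := by rw [e]; exact χ.smul_U _ hcU _ (inv_ne_zero hc)
  refine ⟨hxU, ?_⟩
  rw [← χ.q_smul x hxU c hc]
  exact hcq

/-- near a point outside `D ∪ Z` -/
private theorem lb_local {X : Set (EN N)} {Λ : AddSubgroup (Vd (k + 1))} {u : EN N → Vd (k + 1)} {Q : EN N → ℂ} {d : ℕ}
    (hX : IsCone X) (hu : TMap X Λ u) (hΛ : Lat Λ) (hQh : ∀ (c : ℂ) (x : EN N), Q (c • x) = c ^ d * Q x)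
    {Φ : Vd (k + 1) → MN N} {μ : ℕ} {Z : Set (Vd (k + 1))} {y₀ : Vd (k + 1)} (hO : OrdAt X Λ u Q Φ μ Z y₀) (hyZ : y₀ ∉ Z) :
    ∃ r C : ℝ, 0 < r ∧ 0 < C ∧ ∀ y, ‖y - y₀‖ < r → ∀ x ∈ X, u x - y ∈ Λ → dist (pr x) (Φ y) ≤ r →
      ‖Q x‖ ≤ C * ‖x‖ ^ d * dist (pr x) (Φ y) ^ μ ∧ ‖x‖ ^ d * dist (pr x) (Φ y) ^ μ ≤ C * ‖Q x‖ := by
  obtain ⟨χ, c, ρ, q₀, φ, b, hstr, hq₀, hms, hφ, hφ0, hb, hE1, hE2, hE3⟩ := hO
  set T : Vd (k + 1) → Vd (k + 2) := fun y => Fin.cons (α := fun _ => ℂ) (φ y) ((ρ : ℂ)⁻¹ • (y - c)) with hT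
  have hTan : AnalyticAt ℂ T y₀ := lb_cons_an hφ (by fun_prop)
  have hT0 : T y₀ = q₀ := by
    have h1 := lb_eq_cons hstr.pos hms
    simp only [hT, hφ0]
    exact h1.symm
  have hb0 : b q₀ ≠ 0 := by
    intro h0
    refine hyZ ((hE3.self_of_nhds).2 ?_)
    have h1 : b (T y₀) = 0 := by rw [hT0]; exact h0
    exact h1
  have hbn : 0 < ‖b q₀‖ := norm_pos_iff.2 hb0
  have hσ0 : χ.σ q₀ ≠ 0 := Pool.Agent.TG.ne_zero hX (χ.σ_mem q₀ hq₀).1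
  have hσn : 0 < ‖χ.σ q₀‖ := norm_pos_iff.2 hσ0
  obtain ⟨K, hK, hKe⟩ := lb_lower hX χ hq₀
  obtain ⟨L, hL, hLe⟩ := lb_upper hX χ hq₀
  obtain ⟨dd, hdd, hdisc⟩ := hΛ.disc
  -- the radius `s`
  have e1 : ∀ᶠ q in 𝓝 q₀, (Q (χ.σ q) = (q 0 - φ (Pool.Agent.TG.ms c ρ q)) ^ μ * b q) ∧ (‖b q₀‖ / 2 < ‖b q‖ ∧ ‖b q‖ < 2 * ‖b q₀‖) ∧
      (‖χ.σ q₀‖ / 2 < ‖χ.σ q‖ ∧ ‖χ.σ q‖ < 2 * ‖χ.σ q₀‖) ∧ (‖Pool.Agent.TG.ms c ρ q - y₀‖ < dd / 2) ∧ q ∈ ball (0 : Vd (k + 2)) 2 := by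
    have g1 : ∀ᶠ q in 𝓝 q₀, ‖b q₀‖ / 2 < ‖b q‖ := hb.continuousAt.norm.eventually_const_lt (by linarith)
    have g2 : ∀ᶠ q in 𝓝 q₀, ‖b q‖ < 2 * ‖b q₀‖ := hb.continuousAt.norm.eventually_lt_const (by linarith)
    have g3 : ∀ᶠ q in 𝓝 q₀, ‖χ.σ q₀‖ / 2 < ‖χ.σ q‖ := (χ.σ_an q₀ hq₀).continuousAt.norm.eventually_const_lt (by linarith)
    have g4 : ∀ᶠ q in 𝓝 q₀, ‖χ.σ q‖ < 2 * ‖χ.σ q₀‖ := (χ.σ_an q₀ hq₀).continuousAt.norm.eventually_lt_const (by linarith)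
    have g5 : ∀ᶠ q in 𝓝 q₀, ‖Pool.Agent.TG.ms c ρ q - y₀‖ < dd / 2 := by
      have h1 : ContinuousAt (fun q => ‖Pool.Agent.TG.ms c ρ q - y₀‖) q₀ :=
        ((Pool.Agent.TG.ms_an c ρ q₀).continuousAt.sub continuousAt_const).norm
      refine h1.eventually_lt_const ?_
      show ‖Pool.Agent.TG.ms c ρ q₀ - y₀‖ < dd / 2
      rw [hms, sub_self, norm_zero]
      exact half_pos hdd
    have g6 : ∀ᶠ q in 𝓝 q₀, q ∈ ball (0 : Vd (k + 2)) 2 := isOpen_ball.mem_nhds hq₀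
    filter_upwards [hE2, g1, g2, g3, g4, g5, g6] with q h0 h1 h2 h3 h4 h5 h6
    exact ⟨h0, ⟨h1, h2⟩, ⟨h3, h4⟩, h5, h6⟩
  obtain ⟨s₁, hs₁, hball₁⟩ := Metric.eventually_nhds_iff_ball.1 e1
  obtain ⟨s₂, hs₂, hball₂⟩ := Metric.eventually_nhds_iff_ball.1 (hKe.and hLe)
  set s := min s₁ s₂ with hsd
  have hs : 0 < s := lt_min hs₁ hs₂
  obtain ⟨e, he, hnear⟩ := lb_near hX χ hq₀ hs
  -- the radius in `y`
  have e2 : ∀ᶠ y in 𝓝 y₀, Φ y = pr (χ.σ (T y)) ∧ ‖T y - q₀‖ < s ∧ dist (pr (χ.σ (T y))) (pr (χ.σ q₀)) < e / 2 ∧ ‖y - y₀‖ < dd / 2 := by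
    have g1 : ∀ᶠ y in 𝓝 y₀, ‖T y - q₀‖ < s := by
      have h1 : ContinuousAt (fun y => ‖T y - q₀‖) y₀ := (hTan.continuousAt.sub continuousAt_const).norm
      refine h1.eventually_lt_const ?_
      show ‖T y₀ - q₀‖ < s
      rw [hT0, sub_self, norm_zero]
      exact hs
    have g2 : ∀ᶠ y in 𝓝 y₀, dist (pr (χ.σ (T y))) (pr (χ.σ q₀)) < e / 2 := by
      have h1 : ContinuousAt (fun q => pr (χ.σ q)) q₀ :=
        ContinuousAt.comp (g := pr) (Pool.Agent.H62.EF.continuousAt_pr hσ0) (χ.σ_an q₀ hq₀).continuousAt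
      have h2 : ContinuousAt (fun q => pr (χ.σ q)) (T y₀) := by
        rw [hT0]
        exact h1
      have h3 : ContinuousAt (fun y => pr (χ.σ (T y))) y₀ :=
        ContinuousAt.comp (g := fun q => pr (χ.σ q)) (f := T) h2 hTan.continuousAt
      have h4 := h3.tendsto
      simp only [hT0] at h4
      exact h4.eventually (ball_mem_nhds _ (half_pos he))
    have g3 : ∀ᶠ y in 𝓝 y₀, ‖y - y₀‖ < dd / 2 := by
      filter_upwards [ball_mem_nhds y₀ (half_pos hdd)] with y hy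
      rwa [mem_ball, dist_eq_norm] at hy
    filter_upwards [hE1, g1, g2, g3] with y h0 h1 h2 h3
    exact ⟨h0, h1, h2, h3⟩
  obtain ⟨r₁, hr₁, hball₃⟩ := Metric.eventually_nhds_iff_ball.1 e2
  refine ⟨min r₁ (e / 4), max (K ^ μ * (2 * ‖b q₀‖) / (‖χ.σ q₀‖ / 2) ^ d) ((2 * ‖χ.σ q₀‖) ^ d * L ^ μ / (‖b q₀‖ / 2)), lt_min hr₁ (by linarith),
    lt_max_of_lt_left (by positivity), fun y hy x hx hux hxd => ?_⟩
  obtain ⟨hΦy, hTs, hTd, hyd⟩ := hball₃ y (by rw [mem_ball, dist_eq_norm]; exact hy.trans_le (min_le_left _ _))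
  have hxd' : dist (pr x) (Φ y) ≤ e / 4 := hxd.trans (min_le_right _ _)
  obtain ⟨hxU, hxq⟩ := hnear x hx (by
    have h1 := dist_triangle (pr x) (Φ y) (pr (χ.σ q₀))
    rw [hΦy] at h1 hxd'
    linarith)
  set q := χ.q x with hq
  have hqs : q ∈ ball q₀ s := by rw [mem_ball, dist_eq_norm]; exact hxq
  have hTs' : T y ∈ ball q₀ s := by rw [mem_ball, dist_eq_norm]; exact hTs
  obtain ⟨hQq, ⟨hb1, hb2⟩, ⟨hσ1, hσ2⟩, hmsd, hqB⟩ := hball₁ q (ball_subset_ball (min_le_left _ _) hqs)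
  obtain ⟨-, -, -, -, hTB⟩ := hball₁ (T y) (ball_subset_ball (min_le_left _ _) hTs')
  have hpair : ((q, T y) : Vd (k + 2) × Vd (k + 2)) ∈ ball (q₀, q₀) s₂ := by
    rw [mem_ball, Prod.dist_eq, max_lt_iff]
    exact ⟨(mem_ball.1 hqs).trans_le (min_le_right _ _), (mem_ball.1 hTs').trans_le (min_le_right _ _)⟩
  obtain ⟨hlow, hupp⟩ := hball₂ _ hpair
  have hlow' := hlow hqB hTB
  simp only at hlow' hupp
  -- `ms c ρ q = y`
  have hmsq : Pool.Agent.TG.ms c ρ q = y := by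
    refine sub_eq_zero.1 (hdisc _ (lb_ms_mem hu hstr hx hxU hux) ?_)
    have h1 : Pool.Agent.TG.ms c ρ (χ.q x) - y = (Pool.Agent.TG.ms c ρ q - y₀) - (y - y₀) := by
      rw [← hq]
      abel
    rw [h1]
    have h2 := norm_sub_le (Pool.Agent.TG.ms c ρ q - y₀) (y - y₀)
    linarith
  have hqc := lb_eq_cons hstr.pos hmsq
  have hdiff : q - T y = (q 0 - φ y) • (Pi.single 0 1 : Vd (k + 2)) := by
    conv_lhs => rw [hqc]
    simp only [hT]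
    funext i
    refine Fin.cases ?_ (fun i => ?_) i
    · simp
    · simp
  have hnd : ‖q - T y‖ = ‖q 0 - φ y‖ := by
    rw [hdiff, norm_smul, Pi.norm_single, norm_one, mul_one]
  rw [hnd] at hlow' hupp
  rw [hmsq] at hQq
  have hprx : pr (χ.σ q) = pr x := Pool.Agent.TG.pr_sigma_q χ hx hxU
  rw [hprx, ← hΦy] at hlow' hupp
  obtain ⟨-, a, ha, hxa⟩ := χ.surj x hx hxU
  rw [← hq] at hxa
  have hQx : ‖Q x‖ = ‖a‖ ^ d * (‖q 0 - φ y‖ ^ μ * ‖b q‖) := by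
    conv_lhs => rw [hxa]
    rw [hQh, norm_mul, norm_pow, hQq, norm_mul, norm_pow]
  have hxn : ‖x‖ ^ d = ‖a‖ ^ d * ‖χ.σ q‖ ^ d := by
    conv_lhs => rw [hxa]
    rw [norm_smul, mul_pow]
  set t := dist (pr x) (Φ y) with ht
  have ht0 : 0 ≤ t := dist_nonneg
  set w := ‖q 0 - φ y‖ with hw
  have hw0 : 0 ≤ w := norm_nonneg _
  set A := ‖a‖ ^ d with hA
  have hA0 : 0 ≤ A := by positivity
  have hwK : w ^ μ ≤ K ^ μ * t ^ μ := by
    rw [← mul_pow]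
    exact pow_le_pow_left₀ hw0 hlow' μ
  have htL : t ^ μ ≤ L ^ μ * w ^ μ := by
    rw [← mul_pow]
    exact pow_le_pow_left₀ ht0 hupp μ
  have hσd1 : (‖χ.σ q₀‖ / 2) ^ d ≤ ‖χ.σ q‖ ^ d := pow_le_pow_left₀ (by positivity) hσ1.le d
  have hσd2 : ‖χ.σ q‖ ^ d ≤ (2 * ‖χ.σ q₀‖) ^ d := pow_le_pow_left₀ (norm_nonneg _) hσ2.le d
  have hσp : 0 < (‖χ.σ q₀‖ / 2) ^ d := by positivity
  have htμ : 0 ≤ t ^ μ := by positivity
  have hwμ : 0 ≤ w ^ μ := by positivity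
  rw [hQx, hxn]
  constructor
  · calc A * (w ^ μ * ‖b q‖) ≤ A * ((K ^ μ * t ^ μ) * (2 * ‖b q₀‖)) := by
          refine mul_le_mul_of_nonneg_left ?_ hA0
          exact mul_le_mul hwK hb2.le (norm_nonneg _) (by positivity)
      _ = (K ^ μ * (2 * ‖b q₀‖) / (‖χ.σ q₀‖ / 2) ^ d) * (A * (‖χ.σ q₀‖ / 2) ^ d) * t ^ μ := by
          field_simp
      _ ≤ (K ^ μ * (2 * ‖b q₀‖) / (‖χ.σ q₀‖ / 2) ^ d) * (A * ‖χ.σ q‖ ^ d) * t ^ μ := by
          refine mul_le_mul_of_nonneg_right ?_ htμ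
          refine mul_le_mul_of_nonneg_left ?_ (by positivity)
          exact mul_le_mul_of_nonneg_left hσd1 hA0
      _ ≤ _ := by
          refine mul_le_mul_of_nonneg_right ?_ htμ
          refine mul_le_mul_of_nonneg_right (le_max_left _ _) (by positivity)
  · calc A * ‖χ.σ q‖ ^ d * t ^ μ ≤ A * (2 * ‖χ.σ q₀‖) ^ d * (L ^ μ * w ^ μ) := by
          refine mul_le_mul ?_ htL htμ (by positivity)
          exact mul_le_mul_of_nonneg_left hσd2 hA0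
      _ = ((2 * ‖χ.σ q₀‖) ^ d * L ^ μ / (‖b q₀‖ / 2)) * (A * (w ^ μ * (‖b q₀‖ / 2))) := by
          field_simp
      _ ≤ ((2 * ‖χ.σ q₀‖) ^ d * L ^ μ / (‖b q₀‖ / 2)) * (A * (w ^ μ * ‖b q‖)) := by
          refine mul_le_mul_of_nonneg_left ?_ (by positivity)
          refine mul_le_mul_of_nonneg_left ?_ hA0
          exact mul_le_mul_of_nonneg_left hb1.le hwμ
      _ ≤ _ := mul_le_mul_of_nonneg_right (le_max_right _ _) (by positivity)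

theorem ordQ_bounds {X : Set (EN N)} {Λ : AddSubgroup (Vd (k + 1))} {u : EN N → Vd (k + 1)} {D B : Set (Vd (k + 1))} {Q : EN N → ℂ} {d : ℕ} {S : Set (Vd (k + 1) → MN N)}
    (G : Geo X Λ u D B) (hS : Csf X Λ u D S) (hQ : QD X Λ u D Q d) {Φ : Vd (k + 1) → MN N} (hΦ : Φ ∈ S) {μ M : ℕ} (hμ : 1 ≤ μ) (hM : 1 ≤ M) {Z : Set (Vd (k + 1))}
    (hZ : ∀ y ∉ D, OrdAt X Λ u Q Φ μ Z y) (hp : ∀ y ∈ Z, ∀ l ∈ Λ, y + M • l ∈ Z) :
    IsClosed (D ∪ Z) ∧ ∀ δ : ℝ, 0 < δ → ∃ ε₀ C : ℝ, 0 < ε₀ ∧ 0 < C ∧ ∀ y, (∀ w ∈ D ∪ Z, δ ≤ ‖y - w‖) → ∀ x ∈ X, u x - y ∈ Λ → dist (pr x) (Φ y) ≤ ε₀ →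
      ‖Q x‖ ≤ C * ‖x‖ ^ d * dist (pr x) (Φ y) ^ μ ∧ ‖x‖ ^ d * dist (pr x) (Φ y) ^ μ ≤ C * ‖Q x‖ := by
  have _ := hμ
  have hcl : IsClosed (D ∪ Z) := by
    rw [← isOpen_compl_iff, isOpen_iff_mem_nhds]
    intro y hy
    have hyD : y ∉ D := fun h => hy (Or.inl h)
    have hyZ : y ∉ Z := fun h => hy (Or.inr h)
    obtain ⟨χ, c, ρ, q₀, φ, b, hstr, hq₀, hms, hφ, hφ0, hb, -, -, hE⟩ := hZ y hyD
    have hβ : ContinuousAt (fun y => b (Fin.cons (α := fun _ => ℂ) (φ y) ((ρ : ℂ)⁻¹ • (y - c)))) y := by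
      refine (AnalyticAt.fun_comp (g := b) (f := fun y : Vd (k + 1) => (Fin.cons (α := fun _ => ℂ) (φ y) ((ρ : ℂ)⁻¹ • (y - c)) : Vd (k + 2))) ?_
        (lb_cons_an hφ (by fun_prop))).continuousAt
      have h1 := lb_eq_cons hstr.pos hms
      simp only [hφ0]
      rw [← h1]
      exact hb
    have hne : b (Fin.cons (α := fun _ => ℂ) (φ y) ((ρ : ℂ)⁻¹ • (y - c))) ≠ 0 := fun h => hyZ ((hE.self_of_nhds).2 h)
    filter_upwards [G.D_closed.isOpen_compl.mem_nhds hyD, hE, hβ.eventually_ne hne] with z h1 h2 h3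
    rintro (h4 | h4)
    · exact h1 h4
    · exact h3 (h2.1 h4)
  refine ⟨hcl, fun δ hδ => ?_⟩
  obtain ⟨M', hM', hMΦ⟩ := lb_period G hS hΦ
  obtain ⟨R, hR, hcpt⟩ := G.lat.cpt
  set m := M * M' with hm
  have hm1 : 1 ≤ m := Nat.mul_pos hM hM'
  have hmr : (0 : ℝ) < m := by exact_mod_cast hm1
  -- the compact set
  set E : Set (Vd (k + 1)) := {y | ∀ w ∈ D ∪ Z, δ ≤ ‖y - w‖} with hEd
  have hEc : IsClosed E := by
    have h1 : E = ⋂ w ∈ D ∪ Z, {y | δ ≤ ‖y - w‖} := by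
      ext y
      simp only [hEd, Set.mem_ofPred_eq, Set.mem_iInter]
    rw [h1]
    refine isClosed_biInter fun w _ => ?_
    exact isClosed_le continuous_const (by fun_prop)
  have hK : IsCompact (closedBall (0 : Vd (k + 1)) (m * R) ∩ E) := (isCompact_closedBall _ _).inter_right hEc
  have hmain : ∃ r C : ℝ, 0 < r ∧ 0 < C ∧ ∀ y ∈ closedBall (0 : Vd (k + 1)) (m * R) ∩ E, ∀ x ∈ X, u x - y ∈ Λ → dist (pr x) (Φ y) ≤ r →
      ‖Q x‖ ≤ C * ‖x‖ ^ d * dist (pr x) (Φ y) ^ μ ∧ ‖x‖ ^ d * dist (pr x) (Φ y) ^ μ ≤ C * ‖Q x‖ := by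
    refine hK.induction_on (p := fun s : Set (Vd (k + 1)) => ∃ r C : ℝ, 0 < r ∧ 0 < C ∧ ∀ y ∈ s, ∀ x ∈ X, u x - y ∈ Λ → dist (pr x) (Φ y) ≤ r →
      ‖Q x‖ ≤ C * ‖x‖ ^ d * dist (pr x) (Φ y) ^ μ ∧ ‖x‖ ^ d * dist (pr x) (Φ y) ^ μ ≤ C * ‖Q x‖) ?_ ?_ ?_ ?_
    · exact ⟨1, 1, one_pos, one_pos, fun y hy => absurd hy (Set.notMem_empty y)⟩
    · rintro s t hst ⟨r, C, hr, hC, h⟩
      exact ⟨r, C, hr, hC, fun y hy => h y (hst hy)⟩
    · rintro s t ⟨r, C, hr, hC, h⟩ ⟨r', C', hr', hC', h'⟩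
      refine ⟨min r r', max C C', lt_min hr hr', lt_max_of_lt_left hC, ?_⟩
      have hup : ∀ (C₁ : ℝ), C₁ ≤ max C C' → ∀ (y : Vd (k + 1)) (x : EN N),
          (‖Q x‖ ≤ C₁ * ‖x‖ ^ d * dist (pr x) (Φ y) ^ μ ∧ ‖x‖ ^ d * dist (pr x) (Φ y) ^ μ ≤ C₁ * ‖Q x‖) →
          (‖Q x‖ ≤ max C C' * ‖x‖ ^ d * dist (pr x) (Φ y) ^ μ ∧ ‖x‖ ^ d * dist (pr x) (Φ y) ^ μ ≤ max C C' * ‖Q x‖) := by
        intro C₁ hC₁ y x hh
        refine ⟨hh.1.trans ?_, hh.2.trans (mul_le_mul_of_nonneg_right hC₁ (norm_nonneg _))⟩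
        refine mul_le_mul_of_nonneg_right ?_ (pow_nonneg dist_nonneg _)
        exact mul_le_mul_of_nonneg_right hC₁ (by positivity)
      rintro y (hy | hy) x hx hux hxd
      · exact hup C (le_max_left _ _) y x (h y hy x hx hux (hxd.trans (min_le_left _ _)))
      · exact hup C' (le_max_right _ _) y x (h' y hy x hx hux (hxd.trans (min_le_right _ _)))
    · intro y₀ hy₀
      have hyD : y₀ ∉ D := by
        intro h
        have h1 := hy₀.2 y₀ (Or.inl h)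
        rw [sub_self, norm_zero] at h1
        linarith
      have hyZ : y₀ ∉ Z := by
        intro h
        have h1 := hy₀.2 y₀ (Or.inr h)
        rw [sub_self, norm_zero] at h1
        linarith
      obtain ⟨r, C, hr, hC, h⟩ := lb_local G.cone G.tor G.lat hQ.hom (hZ y₀ hyD) hyZ
      refine ⟨ball y₀ r, mem_nhdsWithin_of_mem_nhds (ball_mem_nhds _ hr), r, C, hr, hC, fun y hy => h y ?_⟩
      rwa [mem_ball, dist_eq_norm] at hy
  obtain ⟨r, C, hr, hC, h⟩ := hmain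
  refine ⟨r, C, hr, hC, fun y hy x hx hux hxd => ?_⟩
  obtain ⟨l, hl, hly⟩ := hcpt ((m : ℂ)⁻¹ • y)
  have hmc : (m : ℂ) ≠ 0 := by
    have : m ≠ 0 := by omega
    exact_mod_cast this
  set y' := y - m • l with hy'
  have hml : m • l ∈ Λ := Λ.nsmul_mem hl m
  have hyy : y' + m • l = y := by rw [hy', sub_add_cancel]
  have hZm : ∀ w ∈ D ∪ Z, w + m • l ∈ D ∪ Z := by
    rintro w (hw | hw)
    · exact Or.inl (G.D_inv w hw _ hml)
    · right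
      have h1 : m • l = M • (M' • l) := by rw [hm, mul_smul]
      rw [h1]
      exact hp w hw _ (Λ.nsmul_mem hl M')
  have hyE : y' ∈ E := by
    intro w hw
    have h1 := hy _ (hZm w hw)
    have h2 : y' - w = y - (w + m • l) := by rw [hy']; abel
    rw [h2]
    exact h1
  have hyB : y' ∈ closedBall (0 : Vd (k + 1)) (m * R) := by
    rw [mem_closedBall_zero_iff]
    have h1 : y' = (m : ℂ) • ((m : ℂ)⁻¹ • y - l) := by
      rw [smul_sub, smul_smul, mul_inv_cancel₀ hmc, one_smul, hy', Nat.cast_smul_eq_nsmul]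
    rw [h1, norm_smul, Complex.norm_natCast]
    exact mul_le_mul_of_nonneg_left hly hmr.le
  have hyD : y' ∉ D := by
    intro h0
    have h1 := hyE y' (Or.inl h0)
    rw [sub_self, norm_zero] at h1
    linarith
  have hΦy : Φ y = Φ y' := by
    have h1 : m • l = M' • (M • l) := by rw [hm, mul_comm, mul_smul]
    rw [← hyy, h1]
    exact hMΦ _ (Λ.nsmul_mem hl M) _ hyD
  rw [hΦy] at hxd ⊢
  refine h y' ⟨hyB, hyE⟩ x hx ?_ hxd
  have h1 : u x - y' = (u x - y) + m • l := by rw [hy']; abel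
  rw [h1]
  exact Λ.add_mem hux hml

end Pool.Agent.G4

end
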