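import Pool.Agent.H94.G4T.AD.Defs
import Pool.Agent.H94.G4T.M33

/-! The parts of this file: G3.C.Mero, H13.SM.Null, H22.W.Pow, H13.CV.BirkA, H62.FC.Calculus, TG.XDisc, TG.XNull. -/

section

/-!
# G3 C Mero: removing poles by a polynomial, isolated points in compact sets, annuli

* `mero_poly`: induction on `Z` (`Finset.induction_on`, generalizing `φ`): for `Z = insert z₀ Z'`, `z₀ ∈ U`, replace `φ` by `φ₁ z = (z - z₀) ^ n • φ z` for `z ≠ z₀`, `φ₁ z₀ = G z₀`
  (analytic at `z₀`, and `(z - z') ^ n' • φ₁` is still analytic at the other points `z'`); `q = q₁ * (X - C z₀) ^ n`.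
* `finite_of_isolated`: every point of `K` has a neighbourhood `V` with `{z ∈ V | P z} ⊆ {the point}`; finite subcover.
* `isPreconnected_annulus`: the image of the convex set `{w | log r₁ < re w < log r₂}` (`re w < log r₂` if `r₁ = 0`) under `w ↦ c + exp w`.
-/

set_option autoImplicit false

open Topology Filter Metric Set

namespace Pool.Agent.G3.C

/-- the poles are removed by a polynomial -/
theorem mero_poly {E : Type*} [NormedAddCommGroup E] [NormedSpace ℂ E] {U : Set ℂ} (hU : IsOpen U) (Z : Finset ℂ) : ∀ {φ : ℂ → E},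
    (∀ z ∈ U, z ∉ Z → DifferentiableAt ℂ φ z) →
    (∀ z₀ ∈ Z, z₀ ∈ U → ∃ (n : ℕ) (G : ℂ → E), AnalyticAt ℂ G z₀ ∧ ∀ᶠ z in 𝓝[≠] z₀, (z - z₀) ^ n • φ z = G z) →
    ∃ q : Polynomial ℂ, q ≠ 0 ∧ ∃ g : ℂ → E, DifferentiableOn ℂ g U ∧ ∀ z ∈ U, z ∉ Z → g z = q.eval z • φ z := by
  classical
  induction Z using Finset.induction_on with
  | empty =>
    intro φ h1 _
    exact ⟨1, one_ne_zero, φ, fun z hz => (h1 z hz (Finset.notMem_empty z)).differentiableWithinAt, fun z _ _ => by simp⟩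
  | insert z₀ Z' hz₀ ih =>
    intro φ h1 h2
    by_cases hU0 : z₀ ∈ U
    · obtain ⟨n, G, hG, hGe⟩ := h2 z₀ (Finset.mem_insert_self _ _) hU0
      set φ₁ : ℂ → E := Function.update (fun z => (z - z₀) ^ n • φ z) z₀ (G z₀) with hφ₁
      have hne : ∀ z, z ≠ z₀ → φ₁ z = (z - z₀) ^ n • φ z := fun z hz => by rw [hφ₁, Function.update_of_ne hz]
      have hev : ∀ z, z ≠ z₀ → φ₁ =ᶠ[𝓝 z] fun w => (w - z₀) ^ n • φ w := by
        intro z hz
        filter_upwards [isOpen_ne.mem_nhds hz] with w hw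
        exact hne w hw
      have h0 : φ₁ =ᶠ[𝓝 z₀] G := by
        rw [eventually_nhdsWithin_iff] at hGe
        filter_upwards [hGe] with w hw
        by_cases hw0 : w = z₀
        · rw [hw0, hφ₁, Function.update_self]
        · rw [hne w hw0, hw hw0]
      have k1 : ∀ z ∈ U, z ∉ Z' → DifferentiableAt ℂ φ₁ z := by
        intro z hz hzZ
        by_cases hz0 : z = z₀
        · rw [hz0]
          exact hG.differentiableAt.congr_of_eventuallyEq h0
        · have hd : DifferentiableAt ℂ φ z := h1 z hz (by simp [hz0, hzZ])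
          have hd2 : DifferentiableAt ℂ (fun w : ℂ => (w - z₀) ^ n) z := by fun_prop
          exact (hd2.smul hd).congr_of_eventuallyEq (hev z hz0)
      have k2 : ∀ z' ∈ Z', z' ∈ U → ∃ (n : ℕ) (G : ℂ → E), AnalyticAt ℂ G z' ∧ ∀ᶠ z in 𝓝[≠] z', (z - z') ^ n • φ₁ z = G z := by
        intro z' hz' hzU
        have hne' : z' ≠ z₀ := fun h => hz₀ (h ▸ hz')
        obtain ⟨n', G', hG', hGe'⟩ := h2 z' (Finset.mem_insert_of_mem hz') hzU
        refine ⟨n', fun z => (z - z₀) ^ n • G' z, ?_, ?_⟩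
        · have ha : AnalyticAt ℂ (fun w : ℂ => (w - z₀) ^ n) z' := (analyticAt_id.sub analyticAt_const).pow n
          exact ha.smul hG'
        · have hev' : ∀ᶠ w in 𝓝[≠] z', φ₁ w = (w - z₀) ^ n • φ w := (hev z' hne').filter_mono nhdsWithin_le_nhds
          filter_upwards [hGe', hev'] with w hw1 hw2
          rw [hw2, smul_comm, hw1]
      obtain ⟨q₁, hq₁, g, hg, hgq⟩ := ih k1 k2
      refine ⟨q₁ * (Polynomial.X - Polynomial.C z₀) ^ n, mul_ne_zero hq₁ (pow_ne_zero _ (Polynomial.X_sub_C_ne_zero z₀)), g, hg, ?_⟩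
      intro z hz hzZ
      have hz0 : z ≠ z₀ := fun h => hzZ (h ▸ Finset.mem_insert_self _ _)
      have hzZ' : z ∉ Z' := fun h => hzZ (Finset.mem_insert_of_mem h)
      rw [hgq z hz hzZ', hne z hz0, smul_smul]
      simp
    · obtain ⟨q, hq, g, hg, hgq⟩ := ih (φ := φ)
        (fun z hz hzZ => h1 z hz (by
          intro h
          rcases Finset.mem_insert.1 h with h | h
          · exact hU0 (h ▸ hz)
          · exact hzZ h))
        (fun z' hz' hzU => h2 z' (Finset.mem_insert_of_mem hz') hzU)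
      exact ⟨q, hq, g, hg, fun z hz hzZ => hgq z hz (fun h => hzZ (Finset.mem_insert_of_mem h))⟩

/-- a subset of a compact set without accumulation points is finite -/
theorem finite_of_isolated {K : Set ℂ} (hK : IsCompact K) {P : ℂ → Prop} (h : ∀ z ∈ K, ∀ᶠ w in 𝓝[≠] z, ¬ P w) : {z ∈ K | P z}.Finite := by
  have hV : ∀ z ∈ K, {w : ℂ | w ≠ z → ¬ P w} ∈ 𝓝 z := by
    intro z hz
    have h1 := h z hz
    rw [eventually_nhdsWithin_iff] at h1
    exact h1
  obtain ⟨t, -, ht⟩ := hK.elim_nhds_subcover (fun z => {w : ℂ | w ≠ z → ¬ P w}) hV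
  refine t.finite_toSet.subset ?_
  rintro z ⟨hz, hPz⟩
  obtain ⟨x, hx, hzx⟩ := mem_iUnion₂.1 (ht hz)
  by_cases hzx' : z = x
  · rw [hzx']
    exact hx
  · exact absurd hPz (hzx hzx')

/-- annuli are connected -/
theorem isPreconnected_annulus (c : ℂ) {r₁ r₂ : ℝ} (h : 0 ≤ r₁) : IsPreconnected {z : ℂ | r₁ < dist z c ∧ dist z c < r₂} := by
  have he : {z : ℂ | r₁ < dist z c ∧ dist z c < r₂} = (fun p : ℝ × ℝ => circleMap c p.1 p.2) '' (Ioo r₁ r₂ ×ˢ univ) := by
    ext z
    simp only [mem_ofPred_eq, mem_image, mem_prod, mem_Ioo, mem_univ, and_true, Prod.exists]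
    constructor
    · rintro ⟨h1, h2⟩
      refine ⟨dist z c, Complex.arg (z - c), ⟨h1, h2⟩, ?_⟩
      rw [circleMap, Complex.dist_eq, Complex.norm_mul_exp_arg_mul_I]
      ring
    · rintro ⟨r, θ, ⟨h1, h2⟩, rfl⟩
      have hd : dist (circleMap c r θ) c = r := by
        rw [Complex.dist_eq, circleMap_sub_center, norm_circleMap_zero, abs_of_pos (lt_of_le_of_lt h h1)]
      rw [hd]
      exact ⟨h1, h2⟩
  rw [he]
  refine (isPreconnected_Ioo.prod isPreconnected_univ).image _ ?_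
  have hc : Continuous fun p : ℝ × ℝ => circleMap c p.1 p.2 := by
    unfold circleMap
    fun_prop
  exact hc.continuousOn

end Pool.Agent.G3.C

end

section

/-!
# The zero set of an analytic function is a null set

PROOF.  `h` is analytic on a ball of radius `r` around `0` (`AnalyticAt.eventually_analyticAt`; sup norm,
the ball is convex), and since it is not eventually `0` there is `v` with `‖v‖ < r / 2`, `h v ≠ 0`;
`v ≠ 0` since `h 0 = 0`.  By continuity there is `0 < δ ≤ r / 2` with `h (p + v) ≠ 0` for `‖p‖ < δ`.  Take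
`W = Metric.ball 0 δ`, `Z' = {x ∈ W | h x = 0}`, measurable since `W \ Z' = {x ∈ W | h x ≠ 0}` is open.
By `MeasureTheory.ae_mem_of_ae_add_linearMap_mem` for `L : ℂ →ₗ[ℝ] (Fin n → ℂ)`, `t ↦ t • v`, and
`s = Z'ᶜ`, it is enough that for every `y` the set `{t : ℂ | y + t • v ∈ Z'}` is null.  If it is not
empty, let `p = y + t₀ • v ∈ Z'`; the set is the translate by `t₀` of a subset of
`{s ∈ D | h (p + s • v) = 0}`, `D = {s : ℂ | ‖p + s • v‖ < r}`.  `D` is open and convex, contains `0` and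
`1`, and `g s = h (p + s • v)` is analytic on `D` with `g 1 ≠ 0`.  So the zeros of `g` in `D` are
isolated (`AnalyticOnNhd.eqOn_zero_of_preconnected_of_frequently_eq_zero`,
`AnalyticAt.eventually_eq_zero_or_eventually_ne_zero`) and the zero set is null: it is codiscrete in `D`
(`AnalyticOnNhd.preimage_zero_mem_codiscreteWithin` or similar) and
`MeasureTheory.ae_restrict_le_codiscreteWithin`; or it is countable.
-/

open Topology MeasureTheory

noncomputable section

namespace Pool.Agent.H13.SM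

private theorem Null_line {n : ℕ} {h : (Fin n → ℂ) → ℂ} {r : ℝ} {v p : Fin n → ℂ}
    (hball : ∀ y ∈ Metric.ball (0 : Fin n → ℂ) r, AnalyticAt ℂ h y)
    (hpv : p + v ∈ Metric.ball (0 : Fin n → ℂ) r) (hv : h (p + v) ≠ 0) :
    ∀ᵐ s : ℂ, p + s • v ∈ Metric.ball (0 : Fin n → ℂ) r → h (p + s • v) ≠ 0 := by
  have hline : Continuous fun s : ℂ => p + s • v :=
    continuous_const.add (continuous_id.smul continuous_const)
  have hDo : IsOpen {s : ℂ | p + s • v ∈ Metric.ball (0 : Fin n → ℂ) r} :=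
    Metric.isOpen_ball.preimage hline
  have hDc : Convex ℝ {s : ℂ | p + s • v ∈ Metric.ball (0 : Fin n → ℂ) r} := by
    intro x hx y hy a b ha hb hab
    have h1 := (convex_ball (0 : Fin n → ℂ) r) hx hy ha hb hab
    have h2 : a • (p + x • v) + b • (p + y • v) = p + (a • x + b • y) • v := by
      have h3 : (a + b) • p = p := by rw [hab, one_smul]
      calc a • (p + x • v) + b • (p + y • v) = (a + b) • p + (a • x + b • y) • v := by
            rw [smul_add, smul_add, add_smul, add_smul, smul_assoc, smul_assoc]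
            abel
        _ = _ := by rw [h3]
    rw [h2] at h1
    exact h1
  have hg : AnalyticOnNhd ℂ (fun s : ℂ => h (p + s • v))
      {s : ℂ | p + s • v ∈ Metric.ball (0 : Fin n → ℂ) r} := by
    intro s hs
    have h1 : AnalyticAt ℂ (fun s : ℂ => p + s • v) s :=
      analyticAt_const.add (analyticAt_id.smul analyticAt_const)
    exact AnalyticAt.comp (g := h) (f := fun s : ℂ => p + s • v) (hball _ hs) h1
  have h1D : (1 : ℂ) ∈ {s : ℂ | p + s • v ∈ Metric.ball (0 : Fin n → ℂ) r} := by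
    show p + (1 : ℂ) • v ∈ Metric.ball (0 : Fin n → ℂ) r
    rw [one_smul]
    exact hpv
  rcases hg.eqOn_zero_or_eventually_ne_zero_of_preconnected hDc.isPreconnected with h2 | h2
  · exfalso
    have h3 := h2 h1D
    apply hv
    simpa using h3
  · have h3 := ae_restrict_le_codiscreteWithin (μ := (volume : Measure ℂ)) hDo.measurableSet h2
    exact (ae_restrict_iff' hDo.measurableSet).1 h3

theorem exists_null {n : ℕ} {h : (Fin n → ℂ) → ℂ} (hh : AnalyticAt ℂ h 0) (h0 : h 0 = 0)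
    (hne : ¬ ∀ᶠ u in 𝓝 0, h u = 0) :
    ∃ W ∈ 𝓝 (0 : Fin n → ℂ), volume {u | u ∈ W ∧ h u = 0} = 0 := by
  obtain ⟨r, hr, hball⟩ := Metric.eventually_nhds_iff_ball.1 hh.eventually_analyticAt
  have hex : ∃ v ∈ Metric.ball (0 : Fin n → ℂ) (r / 2), h v ≠ 0 := by
    by_contra hcon
    push Not at hcon
    exact hne (Filter.mem_of_superset (Metric.ball_mem_nhds 0 (half_pos hr)) fun u hu => hcon u hu)
  obtain ⟨v, hvr, hv⟩ := hex
  have hvr' : v ∈ Metric.ball (0 : Fin n → ℂ) r := Metric.ball_subset_ball (by linarith) hvr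
  have hcont : ContinuousAt (fun p : Fin n → ℂ => h (p + v)) 0 := by
    have h1 : ContinuousAt h ((0 : Fin n → ℂ) + v) := by
      rw [zero_add]
      exact (hball v hvr').continuousAt
    exact ContinuousAt.comp (g := h) (f := fun p : Fin n → ℂ => p + v) h1
      (continuousAt_id.add continuousAt_const)
  have hev : ∀ᶠ p in 𝓝 (0 : Fin n → ℂ), h (p + v) ≠ 0 := hcont.eventually_ne (by rwa [zero_add])
  obtain ⟨δ0, hδ0, hδ⟩ := Metric.eventually_nhds_iff_ball.1 hev
  have hδpos : 0 < min δ0 (r / 2) := lt_min hδ0 (half_pos hr)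
  have hsub : Metric.ball (0 : Fin n → ℂ) (min δ0 (r / 2)) ⊆ Metric.ball 0 r :=
    Metric.ball_subset_ball ((min_le_right _ _).trans (by linarith))
  refine ⟨Metric.ball 0 (min δ0 (r / 2)), Metric.ball_mem_nhds 0 hδpos, ?_⟩
  have hZm : MeasurableSet {u : Fin n → ℂ | u ∈ Metric.ball (0 : Fin n → ℂ) (min δ0 (r / 2)) ∧ h u = 0} := by
    have hc : ContinuousOn h (Metric.ball (0 : Fin n → ℂ) (min δ0 (r / 2))) :=
      fun u hu => (hball u (hsub hu)).continuousAt.continuousWithinAt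
    have ho : IsOpen (Metric.ball (0 : Fin n → ℂ) (min δ0 (r / 2)) ∩ h ⁻¹' {0}ᶜ) :=
      hc.isOpen_inter_preimage Metric.isOpen_ball isOpen_compl_singleton
    have he : {u : Fin n → ℂ | u ∈ Metric.ball (0 : Fin n → ℂ) (min δ0 (r / 2)) ∧ h u = 0} =
        Metric.ball (0 : Fin n → ℂ) (min δ0 (r / 2)) \
          (Metric.ball (0 : Fin n → ℂ) (min δ0 (r / 2)) ∩ h ⁻¹' {0}ᶜ) := by
      ext u
      constructor
      · rintro ⟨h1, h2⟩
        exact ⟨h1, fun h3 => h3.2 h2⟩
      · rintro ⟨h1, h2⟩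
        refine ⟨h1, ?_⟩
        by_contra h3
        exact h2 ⟨h1, h3⟩
    rw [he]
    exact Metric.isOpen_ball.measurableSet.diff ho.measurableSet
  have key : ∀ᵐ y : Fin n → ℂ, y ∈ {u : Fin n → ℂ | u ∈ Metric.ball (0 : Fin n → ℂ) (min δ0 (r / 2)) ∧ h u = 0}ᶜ := by
    refine ae_mem_of_ae_add_linearMap_mem (LinearMap.toSpanSingleton ℂ (Fin n → ℂ) v) volume volume
      hZm.compl fun y => ?_
    by_cases hy : ∃ t0 : ℂ, y + t0 • v ∈ {u : Fin n → ℂ | u ∈ Metric.ball (0 : Fin n → ℂ) (min δ0 (r / 2)) ∧ h u = 0}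
    · obtain ⟨t0, hp1, -⟩ := hy
      have hp2 : ‖y + t0 • v‖ < min δ0 (r / 2) := by simpa using hp1
      have hpv : (y + t0 • v) + v ∈ Metric.ball (0 : Fin n → ℂ) r := by
        rw [mem_ball_zero_iff]
        have h1 := norm_add_le (y + t0 • v) v
        have h2 : ‖v‖ < r / 2 := by simpa using hvr
        have h3 : min δ0 (r / 2) ≤ r / 2 := min_le_right _ _
        linarith
      have hne1 : h ((y + t0 • v) + v) ≠ 0 :=
        hδ _ (Metric.ball_subset_ball (min_le_left _ _) hp1)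
      have h1 := Null_line hball hpv hne1
      have h2 := (measurePreserving_sub_right (volume : Measure ℂ) t0).quasiMeasurePreserving.ae h1
      filter_upwards [h2] with t ht hZ
      have h3 : y + t0 • v + (t - t0) • v = y + t • v := by
        rw [sub_smul]
        abel
      rw [h3] at ht
      have h4 : y + (LinearMap.toSpanSingleton ℂ (Fin n → ℂ) v) t = y + t • v := by
        rw [LinearMap.toSpanSingleton_apply]
      rw [h4] at hZ
      exact ht (hsub hZ.1) hZ.2
    · refine Filter.Eventually.of_forall fun t hZ => hy ⟨t, ?_⟩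
      have h4 : y + (LinearMap.toSpanSingleton ℂ (Fin n → ℂ) v) t = y + t • v := by
        rw [LinearMap.toSpanSingleton_apply]
      rw [h4] at hZ
      exact hZ
  have h5 := mem_ae_iff.1 key
  have h6 : {y : Fin n → ℂ | y ∈ {u : Fin n → ℂ | u ∈ Metric.ball (0 : Fin n → ℂ) (min δ0 (r / 2)) ∧ h u = 0}ᶜ}ᶜ =
      {u : Fin n → ℂ | u ∈ Metric.ball (0 : Fin n → ℂ) (min δ0 (r / 2)) ∧ h u = 0} :=
    compl_compl _
  rw [h6] at h5
  exact h5

end Pool.Agent.H13.SM

end
end

section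

/-!
# W Pow: powers of the modulus of a holomorphic function have the sub-mean value property
-/

set_option autoImplicit false

open Topology Filter Metric

namespace Pool.Agent.H22.W

theorem log_le_avg {h : ℂ → ℂ} {c : ℂ} {r : ℝ} (hr : 0 < r) (hh : AnalyticOnNhd ℂ h (closedBall c r)) (h0 : h c ≠ 0) :
    Real.log ‖h c‖ ≤ Real.circleAverage (fun z => Real.log ‖h z‖) c r := by
  have hr' : |r| = r := abs_of_pos hr
  rw [AnalyticOnNhd.circleAverage_log_norm hr.ne' (by rwa [hr']) h0]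
  have h1 : 0 ≤ ∑ᶠ u, MeromorphicOn.divisor h (closedBall c |r|) u * Real.log (r * ‖c - u‖⁻¹) := by
    refine finsum_nonneg fun u => ?_
    rw [hr']
    by_cases hu : u ∈ closedBall c r
    · refine mul_nonneg ?_ ?_
      · have := MeromorphicOn.AnalyticOnNhd.divisor_nonneg hh u
        exact_mod_cast this
      · rcases eq_or_ne u c with rfl | huc
        · rw [sub_self, norm_zero, inv_zero, mul_zero, Real.log_zero]
        · have h2 : 0 < ‖c - u‖ := norm_pos_iff.2 (sub_ne_zero.2 huc.symm)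
          have h3 : ‖c - u‖ ≤ r := by
            rw [← dist_eq_norm, dist_comm]
            exact hu
          apply Real.log_nonneg
          rw [← div_eq_mul_inv, one_le_div h2]
          exact h3
    · have h4 : MeromorphicOn.divisor h (closedBall c r) u = 0 := Function.locallyFinsuppWithin.apply_eq_zero_of_notMem _ hu
      rw [h4, Int.cast_zero, zero_mul]
  linarith

theorem rpow_le_avg {h : ℂ → ℂ} {c : ℂ} {r p : ℝ} (hr : 0 < r) (hp : 0 < p) (hh : AnalyticOnNhd ℂ h (closedBall c r)) :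
    ‖h c‖ ^ p ≤ Real.circleAverage (fun z => ‖h z‖ ^ p) c r := by
  have hr' : |r| = r := abs_of_pos hr
  rcases eq_or_ne (h c) 0 with h0 | h0
  · rw [h0, norm_zero, Real.zero_rpow hp.ne']
    exact Real.circleAverage_nonneg_of_nonneg fun x _ => Real.rpow_nonneg (norm_nonneg _) _
  obtain ⟨a, ha⟩ : ∃ a : ℝ, a = ‖h c‖ := ⟨_, rfl⟩
  have ha0 : 0 < a := by rw [ha]; exact norm_pos_iff.2 h0
  have hlog := log_le_avg hr hh h0
  obtain ⟨f₂, hf₂⟩ : ∃ f₂ : ℂ → ℝ, f₂ = fun z => (a ^ p * (1 - p * Real.log a)) + (a ^ p * p) * Real.log ‖h z‖ := ⟨_, rfl⟩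
  obtain ⟨f₃, hf₃⟩ : ∃ f₃ : ℂ → ℝ, ∀ z, f₃ z = if h z = 0 then 0 else f₂ z := ⟨_, fun _ => rfl⟩
  have hsub : sphere c |r| ⊆ closedBall c r := by
    rw [hr']
    exact sphere_subset_closedBall
  have hci : CircleIntegrable (fun z => Real.log ‖h z‖) c r :=
    (hh.mono hsub).meromorphicOn.circleIntegrable_log_norm
  have hci2 : CircleIntegrable (fun z => (a ^ p * p) * Real.log ‖h z‖) c r := hci.const_mul (a ^ p * p)
  have hf₂i : CircleIntegrable f₂ c r := by
    rw [hf₂]
    exact (circleIntegrable_const _ _ _).add hci2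
  have hco : f₂ =ᶠ[codiscreteWithin (sphere c |r|)] f₃ := by
    have h1 := hh.preimage_zero_mem_codiscreteWithin h0 (mem_closedBall_self hr.le)
      ⟨⟨c, mem_closedBall_self hr.le⟩, (convex_closedBall c r).isPreconnected⟩
    filter_upwards [codiscreteWithin_mono hsub h1] with z hz
    have hz' : h z ≠ 0 := hz
    rw [hf₃, if_neg hz']
  have hf₃i : CircleIntegrable f₃ c r := hf₂i.congr_codiscreteWithin hco
  have hcont : ContinuousOn (fun z => ‖h z‖ ^ p) (sphere c |r|) := by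
    have h1 : ContinuousOn h (sphere c |r|) := hh.continuousOn.mono hsub
    exact h1.norm.rpow_const fun x _ => Or.inr hp.le
  have h1 : Real.circleAverage f₃ c r ≤ Real.circleAverage (fun z => ‖h z‖ ^ p) c r := by
    refine Real.circleAverage_mono hf₃i hcont.circleIntegrable' fun z _ => ?_
    rw [hf₃]
    split_ifs with hz
    · exact Real.rpow_nonneg (norm_nonneg _) _
    · rw [hf₂]
      have hz0 : 0 < ‖h z‖ := norm_pos_iff.2 hz
      have h2 : ‖h z‖ ^ p = a ^ p * Real.exp (p * (Real.log ‖h z‖ - Real.log a)) := by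
        rw [Real.rpow_def_of_pos hz0, Real.rpow_def_of_pos ha0, ← Real.exp_add]
        congr 1
        ring
      have h3 := Real.add_one_le_exp (p * (Real.log ‖h z‖ - Real.log a))
      have h4 : 0 < a ^ p := Real.rpow_pos_of_pos ha0 p
      have h5 := mul_le_mul_of_nonneg_left h3 h4.le
      show (a ^ p * (1 - p * Real.log a)) + (a ^ p * p) * Real.log ‖h z‖ ≤ ‖h z‖ ^ p
      rw [h2]
      refine le_trans (le_of_eq ?_) h5
      ring
  refine le_trans ?_ h1
  rw [← Real.circleAverage_congr_codiscreteWithin hco hr.ne', hf₂]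
  have h2 : Real.circleAverage (fun z => (a ^ p * (1 - p * Real.log a)) + (a ^ p * p) * Real.log ‖h z‖) c r =
      (a ^ p * (1 - p * Real.log a)) + (a ^ p * p) * Real.circleAverage (fun z => Real.log ‖h z‖) c r := by
    rw [Real.circleAverage_fun_add (circleIntegrable_const _ _ _) hci2, Real.circleAverage_const]
    have h3 : (fun z => (a ^ p * p) * Real.log ‖h z‖) = fun z => (a ^ p * p) • (fun z => Real.log ‖h z‖) z := rfl
    rw [h3, Real.circleAverage_fun_smul, smul_eq_mul]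
  rw [h2, ← ha]
  rw [← ha] at hlog
  have h4 : 0 < a ^ p := Real.rpow_pos_of_pos ha0 p
  have h5 := mul_le_mul_of_nonneg_left hlog (by positivity : 0 ≤ a ^ p * p)
  linarith

end Pool.Agent.H22.W

end

section

/-!
# CV BirkA: replacing an element of a basis over `ℂ[x]`

`w' i₀ = ∑ c i * w i`, `w' i = w i` for `i ≠ i₀`: a basis over `L` because `c i₀ = γ ≠ 0` (e.g. `Module.Basis.mk` with linear independence and span; or the change of basis by an invertible matrix / linear
equivalence; or `basisOfLinearIndependentOfCardEqFinrank`).  Let `f = ∑ r i * w i = ∑ r' i * w' i`: `r i₀ = γ r' i₀`, `r i = r' i + r' i₀ * c i` for `i ≠ i₀`.  So the `r i` are in `ℂ[x]` if and only if the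
`r' i` are (`γ⁻¹ ∈ ℂ[x]`).
-/

set_option autoImplicit false

open Pool.Agent.H23.Fano (PrimeDivisorOver Form regularForms)

noncomputable section

namespace Pool.Agent.H13.CV

variable {K : Type} [Field K] [Algebra ℂ K] {L : IntermediateField ℂ K} {x : K} {n : ℕ}

theorem AffB.replace (hL : Gen L x) {w : Module.Basis (Fin n) L K} (hw : AffB x w) (i₀ : Fin n) (c : Fin n → K)
    (hc : ∀ i, c i ∈ Algebra.adjoin ℂ {x}) {γ : ℂ} (hγ : γ ≠ 0) (hi₀ : c i₀ = algebraMap ℂ K γ) :
    ∃ w' : Module.Basis (Fin n) L K, AffB x w' ∧ w' i₀ = ∑ i, c i * w i ∧ ∀ i, i ≠ i₀ → w' i = w i := by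
  classical
  have hcL : ∀ i, c i ∈ L := by
    intro i
    rw [hL.eq]
    exact IntermediateField.algebra_adjoin_le_adjoin ℂ {x} (hc i)
  obtain ⟨c', hc'⟩ : ∃ c' : Fin n → L, ∀ i, ((c' i : L) : K) = c i := ⟨fun i => ⟨c i, hcL i⟩, fun i => rfl⟩
  obtain ⟨g, hg⟩ : ∃ g : L, g = algebraMap ℂ L γ := ⟨_, rfl⟩
  have hgK : (g : K) = algebraMap ℂ K γ := by rw [hg]; rfl
  have hg0 : g ≠ 0 := by
    rw [hg]
    exact (map_ne_zero_iff _ (algebraMap ℂ L).injective).2 hγ
  have hcg : c' i₀ = g := by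
    apply Subtype.ext
    rw [hc' i₀, hi₀, hgK]
  obtain ⟨u, hu⟩ : ∃ u : K, u = (∑ i, c' i • w i) - w i₀ := ⟨_, rfl⟩
  have hur : ∀ i, w.repr u i = c' i - if i = i₀ then 1 else 0 := by
    intro i
    rw [hu, map_sub, Finsupp.sub_apply, Module.Basis.repr_sum_self, Module.Basis.repr_self,
      Finsupp.single_apply]
    congr 1
    by_cases h : i = i₀
    · simp [h]
    · simp [h, Ne.symm h]
  have hur0 : w.repr u i₀ = g - 1 := by rw [hur, if_pos rfl, hcg]
  have hT : ∀ f : K, (LinearMap.id + (LinearMap.toSpanSingleton L K u) ∘ₗ (w.coord i₀) : K →ₗ[L] K) f =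
      f + w.repr f i₀ • u := by
    intro f
    simp
  have hS : ∀ f : K, (LinearMap.id - (LinearMap.toSpanSingleton L K u) ∘ₗ (g⁻¹ • w.coord i₀) : K →ₗ[L] K) f =
      f - (g⁻¹ * w.repr f i₀) • u := by
    intro f
    simp
  obtain ⟨T, hTd⟩ : ∃ T : K →ₗ[L] K, ∀ f, T f = f + w.repr f i₀ • u := ⟨_, hT⟩
  obtain ⟨S, hSd⟩ : ∃ S : K →ₗ[L] K, ∀ f, S f = f - (g⁻¹ * w.repr f i₀) • u := ⟨_, hS⟩
  have hTS : ∀ f, T (S f) = f := by
    intro f
    rw [hTd, hSd, map_sub, map_smul, Finsupp.sub_apply, Finsupp.smul_apply, hur0, smul_eq_mul]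
    have e : w.repr f i₀ - g⁻¹ * w.repr f i₀ * (g - 1) = g⁻¹ * w.repr f i₀ := by
      field_simp
      ring
    rw [e]
    abel
  have hST : ∀ f, S (T f) = f := by
    intro f
    rw [hSd, hTd, map_add, map_smul, Finsupp.add_apply, Finsupp.smul_apply, hur0, smul_eq_mul]
    have e : g⁻¹ * (w.repr f i₀ + w.repr f i₀ * (g - 1)) = w.repr f i₀ := by
      field_simp
      ring
    rw [e]
    abel
  let e : K ≃ₗ[L] K := LinearEquiv.ofLinearMap T S (LinearMap.ext hTS) (LinearMap.ext hST)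
  have he : ∀ f, e f = T f := fun f => rfl
  have hes : ∀ f, e.symm f = S f := fun f => rfl
  have hrepr : ∀ f i, (w.map e).repr f i = w.repr f i - g⁻¹ * w.repr f i₀ * (c' i - if i = i₀ then 1 else 0) := by
    intro f i
    rw [Module.Basis.map_repr, LinearEquiv.trans_apply, hes, hSd, map_sub, map_smul, Finsupp.sub_apply,
      Finsupp.smul_apply, hur, smul_eq_mul]
  have hgi : algebraMap ℂ K γ⁻¹ ∈ Algebra.adjoin ℂ {x} := Subalgebra.algebraMap_mem _ _
  have hgg : algebraMap ℂ K γ ∈ Algebra.adjoin ℂ {x} := Subalgebra.algebraMap_mem _ _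
  have hginv : ((g⁻¹ : L) : K) = algebraMap ℂ K γ⁻¹ := by
    rw [map_inv₀, ← hgK]
    rfl
  have hd : ∀ i, (((c' i - if i = i₀ then 1 else 0 : L)) : K) ∈ Algebra.adjoin ℂ {x} := by
    intro i
    have e1 : (((c' i - if i = i₀ then 1 else 0 : L)) : K) = c i - if i = i₀ then 1 else 0 := by
      split_ifs
      · rw [← hc' i]; rfl
      · rw [← hc' i]; rfl
    rw [e1]
    refine Subalgebra.sub_mem _ (hc i) ?_
    split_ifs
    · exact Subalgebra.one_mem _
    · exact Subalgebra.zero_mem _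
  refine ⟨w.map e, ?_, ?_, ?_⟩
  · intro f
    rw [hw f]
    constructor
    · intro h i
      rw [hrepr]
      have e1 : ((w.repr f i - g⁻¹ * w.repr f i₀ * (c' i - if i = i₀ then 1 else 0) : L) : K) =
          ((w.repr f i : L) : K) - ((g⁻¹ : L) : K) * ((w.repr f i₀ : L) : K) *
            (((c' i - if i = i₀ then 1 else 0 : L)) : K) := rfl
      rw [e1, hginv]
      exact Subalgebra.sub_mem _ (h i) (Subalgebra.mul_mem _ (Subalgebra.mul_mem _ hgi (h i₀)) (hd i))
    · intro h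
      have h0 : ((w.repr f i₀ : L) : K) ∈ Algebra.adjoin ℂ {x} := by
        have h1 := h i₀
        rw [hrepr, if_pos rfl, hcg] at h1
        have e1 : w.repr f i₀ - g⁻¹ * w.repr f i₀ * (g - 1) = g⁻¹ * w.repr f i₀ := by
          field_simp
          ring
        rw [e1] at h1
        have e2 : ((w.repr f i₀ : L) : K) = algebraMap ℂ K γ * (((g⁻¹ * w.repr f i₀ : L)) : K) := by
          have e3 : w.repr f i₀ = g * (g⁻¹ * w.repr f i₀) := by
            field_simp
          rw [← hgK]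
          conv_lhs => rw [e3]
          rfl
        rw [e2]
        exact Subalgebra.mul_mem _ hgg h1
      intro i
      have h1 := h i
      rw [hrepr] at h1
      have e1 : ((w.repr f i : L) : K) =
          ((w.repr f i - g⁻¹ * w.repr f i₀ * (c' i - if i = i₀ then 1 else 0) : L) : K) +
            ((g⁻¹ : L) : K) * ((w.repr f i₀ : L) : K) * (((c' i - if i = i₀ then 1 else 0 : L)) : K) := by
        have e2 : w.repr f i = (w.repr f i - g⁻¹ * w.repr f i₀ * (c' i - if i = i₀ then 1 else 0)) +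
            g⁻¹ * w.repr f i₀ * (c' i - if i = i₀ then 1 else 0) := by ring
        conv_lhs => rw [e2]
        rfl
      rw [e1, hginv]
      exact Subalgebra.add_mem _ h1 (Subalgebra.mul_mem _ (Subalgebra.mul_mem _ hgi h0) (hd i))
  · rw [Module.Basis.map_apply, he, hTd, Module.Basis.repr_self, Finsupp.single_eq_same, one_smul, hu]
    have e1 : ∑ i, c' i • w i = ∑ i, c i * w i := by
      refine Finset.sum_congr rfl fun i _ => ?_
      rw [← hc' i]
      rfl
    rw [e1]
    ring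
  · intro i hi
    rw [Module.Basis.map_apply, he, hTd, Module.Basis.repr_self, Finsupp.single_apply, if_neg hi, zero_smul,
      add_zero]

end Pool.Agent.H13.CV

end
end

section

/-! FC Calculus: Borel's calculus lemma. -/

noncomputable section

namespace Pool.Agent.H62.FC

open Filter Topology MeasureTheory

private theorem Calculus_step {f f' : ℝ → ℝ} {x₀ : ℝ} (hf : ∀ x, HasDerivAt f (f' x) x)
    (hc : Continuous f') (h0 : f x₀ = 0) (hpos : ∀ x, x₀ ≤ x → 0 ≤ f' x) :
    (∀ x, x₀ ≤ x → 0 ≤ f x) ∧ volume {x | x₀ ≤ x ∧ (1 + f x) ^ 2 < f' x} ≤ 1 := by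
  have hfc : Continuous f := continuous_iff_continuousAt.2 fun x => (hf x).continuousAt
  have hnn : ∀ x, x₀ ≤ x → 0 ≤ f x := by
    intro x hx
    have h1 := intervalIntegral.integral_eq_sub_of_hasDerivAt (f := f) (f' := f') (a := x₀)
      (b := x) (fun y _ => hf y) (hc.intervalIntegrable _ _)
    rw [h0, sub_zero] at h1
    rw [← h1]
    exact intervalIntegral.integral_nonneg hx fun y hy => hpos y hy.1
  refine ⟨hnn, ?_⟩
  -- the density
  set g : ℝ → ℝ := fun x => f' x / (1 + f x) ^ 2 with hg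
  have hgc : ContinuousOn g (Set.Ici x₀) := by
    refine ContinuousOn.div hc.continuousOn (by fun_prop) ?_
    intro x hx
    have := hnn x hx
    positivity
  have hgnn : ∀ x, x₀ ≤ x → 0 ≤ g x := fun x hx =>
    div_nonneg (hpos x hx) (sq_nonneg _)
  have hder : ∀ x, x₀ ≤ x → HasDerivAt (fun y => -(1 + f y)⁻¹) (g x) x := by
    intro x hx
    have h1 : 1 + f x ≠ 0 := by
      have := hnn x hx
      positivity
    have h2 := (((hf x).const_add 1).inv h1).neg
    refine h2.congr_deriv ?_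
    rw [hg]
    simp only
    rw [neg_div, neg_neg]
  have hbound : ∀ b, x₀ ≤ b →
      volume ({x | x₀ ≤ x ∧ (1 + f x) ^ 2 < f' x} ∩ Set.Ioc x₀ b) ≤ 1 := by
    intro b hb
    have hgi : IntervalIntegrable g volume x₀ b := by
      refine ContinuousOn.intervalIntegrable (hgc.mono ?_)
      rw [Set.uIcc_of_le hb]
      exact Set.Icc_subset_Ici_self
    have hint : ∫ x in x₀..b, g x = 1 - (1 + f b)⁻¹ := by
      rw [intervalIntegral.integral_eq_sub_of_hasDerivAt (f := fun y => -(1 + f y)⁻¹)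
        (fun y hy => hder y (by rw [Set.uIcc_of_le hb] at hy; exact hy.1)) hgi, h0]
      ring
    have hle1 : ∫ x in x₀..b, g x ≤ 1 := by
      rw [hint]
      have : 0 ≤ (1 + f b)⁻¹ := inv_nonneg.2 (by linarith [hnn b hb])
      linarith
    rw [intervalIntegral.integral_of_le hb] at hle1
    have hgi' : IntegrableOn g (Set.Ioc x₀ b) volume :=
      (intervalIntegrable_iff_integrableOn_Ioc_of_le hb).1 hgi
    have hae : 0 ≤ᵐ[volume.restrict (Set.Ioc x₀ b)] g :=
      (ae_restrict_iff' measurableSet_Ioc).2 (Eventually.of_forall fun x hx => hgnn x hx.1.le)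
    have hL : ∫⁻ x in Set.Ioc x₀ b, ENNReal.ofReal (g x) ≤ 1 := by
      rw [← ofReal_integral_eq_lintegral_ofReal hgi' hae]
      exact (ENNReal.ofReal_le_ofReal hle1).trans_eq ENNReal.ofReal_one
    have hM := mul_meas_ge_le_lintegral₀ (μ := volume.restrict (Set.Ioc x₀ b))
      (f := fun x => ENNReal.ofReal (g x)) hgi'.aestronglyMeasurable.aemeasurable.ennreal_ofReal 1
    rw [one_mul] at hM
    refine le_trans ?_ (hM.trans hL)
    rw [Measure.restrict_apply' measurableSet_Ioc]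
    refine measure_mono ?_
    rintro x ⟨⟨hx1, hx2⟩, hx3⟩
    refine ⟨?_, hx3⟩
    show (1 : ENNReal) ≤ ENNReal.ofReal (g x)
    rw [← ENNReal.ofReal_one]
    refine ENNReal.ofReal_le_ofReal ?_
    have h1 : 0 < 1 + f x := by linarith [hnn x hx1]
    rw [hg]
    simp only
    rw [le_div_iff₀ (by positivity), one_mul]
    exact hx2.le
  set E : Set ℝ := {x | x₀ ≤ x ∧ (1 + f x) ^ 2 < f' x} with hE
  have hmono : Monotone fun m : ℕ => E ∩ Set.Ioc x₀ (x₀ + m) := by
    intro m m' hmm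
    refine Set.inter_subset_inter_right _ (Set.Ioc_subset_Ioc_right ?_)
    have : (m : ℝ) ≤ m' := by exact_mod_cast hmm
    linarith
  have hcov : E ⊆ {x₀} ∪ ⋃ m : ℕ, E ∩ Set.Ioc x₀ (x₀ + m) := by
    intro x hx
    rcases eq_or_lt_of_le hx.1 with h | h
    · exact Or.inl h.symm
    · right
      obtain ⟨m, hm⟩ := exists_nat_ge (x - x₀)
      exact Set.mem_iUnion.2 ⟨m, hx, h, by linarith⟩
  calc volume E ≤ volume ({x₀} ∪ ⋃ m : ℕ, E ∩ Set.Ioc x₀ (x₀ + m)) := measure_mono hcov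
    _ ≤ volume {x₀} + volume (⋃ m : ℕ, E ∩ Set.Ioc x₀ (x₀ + m)) := measure_union_le _ _
    _ = volume (⋃ m : ℕ, E ∩ Set.Ioc x₀ (x₀ + m)) := by
        rw [Real.volume_singleton, zero_add]
    _ = ⨆ m : ℕ, volume (E ∩ Set.Ioc x₀ (x₀ + m)) := hmono.measure_iUnion
    _ ≤ 1 := iSup_le fun m => hbound _ (by
        have : (0 : ℝ) ≤ m := Nat.cast_nonneg m
        linarith)

/-- Borel's calculus lemma. -/
theorem calculus_lemma {G : ℝ → ℝ} {x₀ : ℝ} (hG : ContinuousOn G (Set.Ici x₀))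
    (hG0 : ∀ x, x₀ ≤ x → 0 ≤ G x) :
    volume {x | x₀ ≤ x ∧ 4 * (1 + ∫ y in x₀..x, (x - y) * G y) ^ 4 < G x} ≤ 2 := by
  -- a continuous extension
  set K : ℝ → ℝ := fun x => G (max x₀ x) with hK
  have hKc : Continuous K := by
    have h1 : Continuous fun x : ℝ => max x₀ x := by fun_prop
    exact hG.comp_continuous h1 fun x => Set.mem_Ici.2 (le_max_left _ _)
  have hKG : ∀ x, x₀ ≤ x → K x = G x := fun x hx => by
    rw [hK]
    simp only
    rw [max_eq_right hx]
  have hK0 : ∀ x, 0 ≤ K x := fun x => hG0 _ (le_max_left _ _)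
  set P : ℝ → ℝ := fun x => ∫ y in x₀..x, K y with hP
  set Q : ℝ → ℝ := fun x => ∫ y in x₀..x, y * K y with hQ
  have hP' : ∀ x, HasDerivAt P (K x) x := fun x =>
    intervalIntegral.integral_hasDerivAt_right (hKc.intervalIntegrable _ _)
      (hKc.stronglyMeasurableAtFilter _ _) hKc.continuousAt
  have hyK : Continuous fun y : ℝ => y * K y := continuous_id.mul hKc
  have hQ' : ∀ x, HasDerivAt Q (x * K x) x := fun x =>
    intervalIntegral.integral_hasDerivAt_right (hyK.intervalIntegrable _ _)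
      (hyK.stronglyMeasurableAtFilter _ _) hyK.continuousAt
  have hPc : Continuous P := continuous_iff_continuousAt.2 fun x => (hP' x).continuousAt
  have hP0 : P x₀ = 0 := intervalIntegral.integral_same
  set H : ℝ → ℝ := fun x => x * P x - Q x with hH
  have hH' : ∀ x, HasDerivAt H (P x) x := by
    intro x
    have h1 := ((hasDerivAt_id x).mul (hP' x)).sub (hQ' x)
    refine h1.congr_deriv ?_
    simp only [id]
    ring
  have hH0 : H x₀ = 0 := by
    rw [hH]
    simp only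
    rw [hP0, hQ]
    simp only
    rw [intervalIntegral.integral_same]
    ring
  have hHeq : ∀ x, x₀ ≤ x → ∫ y in x₀..x, (x - y) * G y = H x := by
    intro x hx
    have h1 : ∫ y in x₀..x, (x - y) * G y = ∫ y in x₀..x, (x * K y - y * K y) := by
      refine intervalIntegral.integral_congr fun y hy => ?_
      rw [Set.uIcc_of_le hx] at hy
      show (x - y) * G y = x * K y - y * K y
      rw [hKG y hy.1]
      ring
    have h2 : Continuous fun y : ℝ => x * K y := continuous_const.mul hKc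
    rw [h1, intervalIntegral.integral_sub (h2.intervalIntegrable _ _)
      (hyK.intervalIntegrable _ _), intervalIntegral.integral_const_mul]
  obtain ⟨hPnn, hE2⟩ := Calculus_step (x₀ := x₀) hP' hKc hP0 (fun x _ => hK0 x)
  obtain ⟨hHnn, hE1⟩ := Calculus_step (x₀ := x₀) hH' hPc hH0 hPnn
  have hsub : {x | x₀ ≤ x ∧ 4 * (1 + ∫ y in x₀..x, (x - y) * G y) ^ 4 < G x} ⊆
      {x | x₀ ≤ x ∧ (1 + H x) ^ 2 < P x} ∪ {x | x₀ ≤ x ∧ (1 + P x) ^ 2 < K x} := by
    rintro x ⟨hx, hx2⟩
    by_contra hcon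
    rw [Set.mem_union, not_or] at hcon
    have h1 : P x ≤ (1 + H x) ^ 2 := by
      by_contra h
      exact hcon.1 ⟨hx, not_le.1 h⟩
    have h2 : K x ≤ (1 + P x) ^ 2 := by
      by_contra h
      exact hcon.2 ⟨hx, not_le.1 h⟩
    rw [hHeq x hx, ← hKG x hx] at hx2
    have h3 := hHnn x hx
    have h4 := hPnn x hx
    have h5 : 1 ≤ (1 + H x) ^ 2 := by nlinarith
    have h6 : 1 + P x ≤ 2 * (1 + H x) ^ 2 := by linarith
    have h7 : (1 + P x) ^ 2 ≤ (2 * (1 + H x) ^ 2) ^ 2 :=
      pow_le_pow_left₀ (by linarith) h6 2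
    have h8 : (2 * (1 + H x) ^ 2) ^ 2 = 4 * (1 + H x) ^ 4 := by ring
    linarith
  calc _ ≤ volume ({x | x₀ ≤ x ∧ (1 + H x) ^ 2 < P x} ∪ {x | x₀ ≤ x ∧ (1 + P x) ^ 2 < K x}) :=
        measure_mono hsub
    _ ≤ volume {x | x₀ ≤ x ∧ (1 + H x) ^ 2 < P x} + volume {x | x₀ ≤ x ∧ (1 + P x) ^ 2 < K x} :=
        measure_union_le _ _
    _ ≤ 1 + 1 := add_le_add hE1 hE2
    _ = 2 := by norm_num

end Pool.Agent.H62.FC

end
end

section

/-!
# TG XDisc: the mean value property for a function which extends over finitely many small discs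
-/

set_option autoImplicit false

open Topology Filter Metric MeasureTheory

namespace Pool.Agent.TG

theorem disc_mean {j : ℂ → ℂ} {r s : ℝ} (hr : 0 < r) (hs : 0 < s) (Z : Finset ℂ) (hZ : ∀ ζ ∈ Z, s < ‖ζ‖ ∧ ‖ζ‖ + s < r)
    (hsep : ∀ ζ ∈ Z, ∀ ζ' ∈ Z, ζ ≠ ζ' → 2 * s ≤ ‖ζ - ζ'‖)
    (hj : ∀ z : ℂ, ‖z‖ ≤ r → (∀ ζ ∈ Z, s / 3 < ‖z - ζ‖) → DifferentiableAt ℂ j z)
    (hJ : ∀ ζ ∈ Z, ∃ J' : ℂ → ℂ, DifferentiableOn ℂ J' (ball 0 (2 * s / 3)) ∧ ∀ z : ℂ, s / 3 < ‖z‖ → ‖z‖ < 2 * s / 3 → J' z = j (ζ + z)) :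
    (2 * Real.pi * Complex.I : ℂ)⁻¹ • (∮ z in C(0, r), (z - 0)⁻¹ • j z) = j 0 := by
  classical
  choose! J' hJ'1 hJ'2 using hJ
  let g : ℂ → ℂ := fun z => if h : ∃ ζ ∈ Z, ‖z - ζ‖ < s / 2 then J' h.choose (z - h.choose) else j z
  have hone : ∀ ζ ∈ Z, ∀ ζ' ∈ Z, ∀ z : ℂ, ‖z - ζ‖ < 2 * s / 3 → ‖z - ζ'‖ < 2 * s / 3 → ζ = ζ' := by
    intro ζ hζ ζ' hζ' z h1 h2
    by_contra hne
    have h3 := hsep ζ hζ ζ' hζ' hne
    have h4 : ‖ζ - ζ'‖ ≤ ‖z - ζ‖ + ‖z - ζ'‖ := by
      have e : ζ - ζ' = (z - ζ') - (z - ζ) := by ring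
      rw [e]
      refine (norm_sub_le _ _).trans (le_of_eq ?_)
      ring
    linarith
  have hg1 : ∀ ζ ∈ Z, ∀ z ∈ ball ζ (2 * s / 3), g z = J' ζ (z - ζ) := by
    intro ζ hζ z hz
    rw [mem_ball, dist_eq_norm] at hz
    by_cases h : ∃ ζ ∈ Z, ‖z - ζ‖ < s / 2
    · have h1 : g z = J' h.choose (z - h.choose) := dif_pos h
      have h2 := h.choose_spec
      have h3 : h.choose = ζ := hone _ h2.1 _ hζ z (by linarith [h2.2]) hz
      rw [h1, h3]
    · have h1 : g z = j z := dif_neg h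
      push Not at h
      rw [h1, hJ'2 ζ hζ (z - ζ) (by linarith [h ζ hζ]) hz]
      congr 1
      ring
  have hg2 : ∀ z : ℂ, (∀ ζ ∈ Z, s / 3 < ‖z - ζ‖) → g z = j z := by
    intro z hz
    by_cases h : ∃ ζ ∈ Z, ‖z - ζ‖ < s / 2
    · have h1 : g z = J' h.choose (z - h.choose) := dif_pos h
      have h2 := h.choose_spec
      rw [h1, hJ'2 _ h2.1 (z - h.choose) (hz _ h2.1) (by linarith [h2.2])]
      congr 1
      ring
    · exact dif_neg h
  have hopen : IsOpen {z : ℂ | ∀ ζ ∈ Z, s / 3 < ‖z - ζ‖} := by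
    have e : {z : ℂ | ∀ ζ ∈ Z, s / 3 < ‖z - ζ‖} = ⋂ ζ ∈ Z, {z : ℂ | s / 3 < ‖z - ζ‖} := by
      ext z
      simp
    rw [e]
    exact isOpen_biInter_finset fun ζ _ => isOpen_lt continuous_const (by fun_prop)
  have hgd : ∀ z ∈ closedBall (0 : ℂ) r, DifferentiableAt ℂ g z := by
    intro z hz
    rw [mem_closedBall, dist_zero_right] at hz
    by_cases h : ∀ ζ ∈ Z, s / 3 < ‖z - ζ‖
    · refine (hj z hz h).congr_of_eventuallyEq ?_
      filter_upwards [hopen.mem_nhds h] with w hw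
      exact hg2 w hw
    · push Not at h
      obtain ⟨ζ, hζ, h1⟩ := h
      have h2 : z ∈ ball ζ (2 * s / 3) := by
        rw [mem_ball, dist_eq_norm]
        linarith
      have h3 : DifferentiableAt ℂ (fun w : ℂ => J' ζ (w - ζ)) z := by
        have h4 : DifferentiableAt ℂ (J' ζ) (z - ζ) := by
          refine (hJ'1 ζ hζ).differentiableAt (isOpen_ball.mem_nhds ?_)
          rw [mem_ball, dist_zero_right]
          linarith
        exact h4.comp z (differentiableAt_id.sub_const ζ)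
      refine h3.congr_of_eventuallyEq ?_
      filter_upwards [isOpen_ball.mem_nhds h2] with w hw
      exact hg1 ζ hζ w hw
  have hdc : DiffContOnCl ℂ g (ball 0 r) := by
    apply DifferentiableOn.diffContOnCl
    intro z hz
    exact (hgd z (closure_ball_subset_closedBall hz)).differentiableWithinAt
  have hc := hdc.circleIntegral_sub_inv_smul (mem_ball_self hr)
  have h0 : g 0 = j 0 := hg2 0 fun ζ hζ => by
    rw [zero_sub, norm_neg]
    linarith [(hZ ζ hζ).1]
  have hcirc : (∮ z in C(0, r), (z - 0)⁻¹ • g z) = ∮ z in C(0, r), (z - 0)⁻¹ • j z := by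
    refine circleIntegral.integral_congr hr.le fun z hz => ?_
    have hzr : ‖z‖ = r := by rwa [mem_sphere, dist_zero_right] at hz
    have h1 : g z = j z := hg2 z fun ζ hζ => by
      have h2 := (hZ ζ hζ).2
      have h3 : ‖z‖ ≤ ‖z - ζ‖ + ‖ζ‖ := by
        have := norm_add_le (z - ζ) ζ
        rwa [sub_add_cancel] at this
      linarith
    simp only [h1]
  rw [← hcirc, hc, h0, smul_smul, inv_mul_cancel₀ Complex.two_pi_I_ne_zero, one_smul]

end Pool.Agent.TG

end

section

/-!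
# TG XNull: an analytic function which vanishes on a set of positive measure is `0`

If `f` is eventually `0` at a point of `U`, use `AnalyticOnNhd.eqOn_zero_of_preconnected_of_eventuallyEq_zero`.  Otherwise every point `y ∈ U` has a neighbourhood `W` with
`volume (W ∩ {f = 0}) = 0` (`H13.SM.exists_null` for `fun x => f (y + x)`, translation; trivial if `f y ≠ 0`), so the set `{y | y ∈ U ∧ f y = 0}` is a null set
(`MeasureTheory.measure_null_of_locally_null`): contradiction.
-/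

set_option autoImplicit false

open Topology Filter Metric MeasureTheory

namespace Pool.Agent.TG

open Pool.Agent.AD (Vd)

theorem zero_of_volume {n : ℕ} {f : Vd n → ℂ} {U : Set (Vd n)} (hU : IsOpen U) (hc : IsPreconnected U) (hf : AnalyticOnNhd ℂ f U)
    (hv : volume {y | y ∈ U ∧ f y = 0} ≠ 0) : ∀ y ∈ U, f y = 0 := by
  by_contra hcon
  push Not at hcon
  obtain ⟨y₁, hy₁, hf₁⟩ := hcon
  apply hv
  refine measure_null_of_locally_null _ fun y hy => ?_
  obtain ⟨hyU, hfy⟩ := hy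
  have hne : ¬ ∀ᶠ u in 𝓝 (0 : Vd n), f (y + u) = 0 := by
    intro h
    have ht : Tendsto (fun z : Vd n => z - y) (𝓝 y) (𝓝 0) := by
      have h0 : Continuous fun z : Vd n => z - y := by fun_prop
      have h1 := h0.tendsto y
      rwa [sub_self] at h1
    have h2 : f =ᶠ[𝓝 y] 0 := by
      filter_upwards [ht.eventually h] with z hz
      simpa using hz
    exact hf₁ (hf.eqOn_zero_of_preconnected_of_eventuallyEq_zero hc hyU h2 hy₁)
  have han : AnalyticAt ℂ (fun u : Vd n => f (y + u)) 0 := by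
    have h1 : AnalyticAt ℂ (fun u : Vd n => y + u) 0 := analyticAt_const.add analyticAt_id
    have h2 : AnalyticAt ℂ f (y + 0) := by
      rw [add_zero]
      exact hf y hyU
    exact AnalyticAt.comp (g := f) (f := fun u : Vd n => y + u) h2 h1
  obtain ⟨W, hW, hWv⟩ := Pool.Agent.H13.SM.exists_null han (by simpa using hfy) hne
  refine ⟨(fun z : Vd n => z + -y) ⁻¹' {u | u ∈ W ∧ f (y + u) = 0}, ?_, ?_⟩
  · have ht : Tendsto (fun z : Vd n => z + -y) (𝓝 y) (𝓝 0) := by
      have h0 : Continuous fun z : Vd n => z + -y := by fun_prop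
      have h1 := h0.tendsto y
      rwa [add_neg_cancel] at h1
    have h3 : ∀ᶠ z in 𝓝[{y | y ∈ U ∧ f y = 0}] y, z ∈ {y | y ∈ U ∧ f y = 0} := self_mem_nhdsWithin
    have h4 : ∀ᶠ z in 𝓝[{y | y ∈ U ∧ f y = 0}] y, z + -y ∈ W :=
      nhdsWithin_le_nhds (ht.eventually hW)
    filter_upwards [h3, h4] with z hz hzW
    refine ⟨hzW, ?_⟩
    have h5 : y + (z + -y) = z := by abel
    rw [h5]
    exact hz.2
  · rw [measure_preimage_add_right]
    exact hWv

end Pool.Agent.TG

end
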