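import Pool.Agent.H94.G4T.M22
import Pool.Agent.H94.G4T.M23
import Pool.Agent.H94.G4T.M31
import Pool.Agent.H94.G4T.M32
import Pool.Agent.H94.G4T.M34
import Pool.Agent.H94.G4T.M35
import Pool.Agent.H94.G4T.M36

/-! The parts of this file: H13.SM.Open, H13.SM.Dense, H13.SM.Aff, H17BP.MapIdeal, H17EF.Four, H62.FC.PunctMero. -/

section

/-!
# The projection is open

PROOF of `exists_small_root`.  All roots with `ε ≤ ‖t‖` would give `ε ^ d ≤ ∏ ‖t‖ = ‖p.coeff 0‖`
(`Polynomial.coeff_zero_eq_prod_roots_of_monic_of_splits` or similar, `d = p.natDegree`).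

PROOF of `exists_separating`.  For every point `w'` of the finite set `F` with `w' ≠ w` choose `i` with
`w' i ≠ w i` and let `u w' = C (w i - w' i)⁻¹ * (X i - C (w' i))`: it is `1` at `w` and `0` at `w'`.
`Z = 1 - ∏_{w' ∈ F, w' ≠ w} u w'`.

PROOF of `open_at`.  Let `y₀ j = eval w (B j)`.  Let `Z` be separating for the fibre over `y₀`
(`finite_fiber`) and let `μ` be as in `exists_lift` for `Z`.  `U` contains an open `U₀ ∋ w`.  Let `C` be
as in `bdd_near`.  The set `L = {w' ∈ pts a | w' ∉ U₀, ∀ i, ‖w' i‖ ≤ C}` is compact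
(`isClosed_pts`, bounded), and the continuous function
`w' ↦ ∑ j, ‖eval w' (B j) - y₀ j‖ + ‖eval w' Z‖` is positive on it (a zero would be a point of the
fibre with `Z = 0`, so it would be `w ∈ U₀`), so it is `≥ δ > 0` on `L` (if `L` is empty take `δ = 1`).
`(μ.map (eval y₀)).eval 0 = 0` by `root_at` (`eval w Z = 0`), so the coefficient
`eval y (μ.coeff 0)` tends to `0` as `y → y₀` and `1 ≤ μ.natDegree` (`μ` is monic and a specialisation
has a root).  So for `y` near `y₀`: `∑ j, ‖y j - y₀ j‖ < δ / 2`, the bound of `bdd_near` holds and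
`‖eval y (μ.coeff 0)‖ < (δ / 2) ^ μ.natDegree`.  By `exists_small_root` there is a root `T` of
`μ.map (eval y)` (monic of the same degree) with `‖T‖ < δ / 2`, and by `exists_lift` a point
`w' ∈ pts a` with `eval w' (B j) = y j`, `eval w' Z = T`.  It is not in `L`, so it is in `U₀`.
-/

open MvPolynomial Topology

noncomputable section

namespace Pool.Agent.H13.SM

variable {ι K : Type} [Field K] [Algebra ℂ K]

private theorem pow_le_prod_norm {ε : ℝ} (hε : 0 < ε) (s : Multiset ℂ) :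
    (∀ t ∈ s, ε ≤ ‖t‖) → ε ^ s.card ≤ ‖s.prod‖ := by
  induction s using Multiset.induction_on with
  | empty => intro _; simp
  | cons a s ih =>
    intro h
    rw [Multiset.card_cons, Multiset.prod_cons, norm_mul, pow_succ']
    exact mul_le_mul (h a (Multiset.mem_cons_self a s))
      (ih fun t ht => h t (Multiset.mem_cons_of_mem ht)) (by positivity) (norm_nonneg _)

theorem exists_small_root {p : Polynomial ℂ} (hp : p.Monic) (hd : 1 ≤ p.natDegree) {ε : ℝ}
    (hε : 0 < ε) (h : ‖p.coeff 0‖ < ε ^ p.natDegree) : ∃ t : ℂ, p.eval t = 0 ∧ ‖t‖ < ε := by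
  have _ := hd
  by_contra hcon
  push Not at hcon
  have hs : p.Splits := IsAlgClosed.splits p
  have h1 : p.coeff 0 = (-1) ^ p.natDegree * p.roots.prod :=
    hs.coeff_zero_eq_prod_roots_of_monic hp
  have h2 : ε ^ p.roots.card ≤ ‖p.roots.prod‖ :=
    pow_le_prod_norm hε _ fun t ht => hcon t (Polynomial.isRoot_of_mem_roots ht)
  rw [← hs.natDegree_eq_card_roots] at h2
  rw [h1, norm_mul, norm_pow, norm_neg, norm_one, one_pow, one_mul] at h
  exact absurd h2 (not_le.2 h)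

theorem exists_separating {F : Set (ι → ℂ)} (hF : F.Finite) (w : ι → ℂ) :
    ∃ Z : MvPolynomial ι ℂ, eval w Z = 0 ∧ ∀ w' ∈ F, w' ≠ w → eval w' Z ≠ 0 := by
  classical
  have h1 : ∀ w' : ι → ℂ, w' ≠ w → ∃ Y : MvPolynomial ι ℂ, eval w Y = 1 ∧ eval w' Y = 0 := by
    intro w' hne
    obtain ⟨i, hi⟩ := Function.ne_iff.1 hne
    refine ⟨C (w i - w' i)⁻¹ * (X i - C (w' i)), ?_, ?_⟩
    · have h3 : w i - w' i ≠ 0 := sub_ne_zero.2 (Ne.symm hi)
      simp [h3]
    · simp
  choose! u hu1 hu0 using h1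
  refine ⟨1 - ∏ w' ∈ hF.toFinset.filter (fun w' => w' ≠ w), u w', ?_, ?_⟩
  · rw [map_sub, map_one, map_prod, Finset.prod_eq_one, sub_self]
    intro w' hw'
    exact hu1 w' (Finset.mem_filter.1 hw').2
  · intro w' hw' hne
    rw [map_sub, map_one, map_prod,
      Finset.prod_eq_zero (Finset.mem_filter.2 ⟨hF.mem_toFinset.2 hw', hne⟩) (hu0 w' hne), sub_zero]
    exact one_ne_zero

/-- The finite projection `w ↦ (B j)(w)` is open. -/
theorem open_at [Finite ι] {a : ι → K} {n : ℕ} {b : Fin n → K} (hb : AlgebraicIndependent ℂ b)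
    {B : Fin n → MvPolynomial ι ℂ} (hB : ∀ j, aeval a (B j) = b j)
    (hint : ∀ i, IsIntegral (Algebra.adjoin ℂ (Set.range b)) (a i)) {w : ι → ℂ} (hw : w ∈ pts a)
    {U : Set (ι → ℂ)} (hU : U ∈ 𝓝 w) :
    (fun w' j => eval w' (B j)) '' (pts a ∩ U) ∈ 𝓝 (fun j => eval w (B j)) := by
  have hF := finite_fiber hB hint (fun j => eval w (B j))
  obtain ⟨Z, hZw, hZ⟩ := exists_separating hF w
  obtain ⟨μ, hμm, hμr, hμl⟩ := exists_lift hb hB hint Z
  obtain ⟨U₀, hU₀U, hU₀o, hwU₀⟩ := mem_nhds_iff.1 hU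
  obtain ⟨C, hC⟩ := bdd_near hB hint (fun j => eval w (B j))
  have hroot := root_at hB hμr hw
  rw [hZw] at hroot
  have hdeg : 1 ≤ μ.natDegree := by
    by_contra hlt
    have h0 : μ = 1 := by
      rw [Nat.not_le, Nat.lt_one_iff] at hlt
      exact Polynomial.eq_one_of_monic_natDegree_zero hμm hlt
    rw [h0, Polynomial.map_one, Polynomial.eval_one] at hroot
    exact one_ne_zero hroot
  -- the compact set of the points outside `U₀`
  have hLc : IsCompact ({w' : ι → ℂ | w' ∈ pts a ∧ w' ∉ U₀ ∧ ∀ i, ‖w' i‖ ≤ C}) := by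
    have hK : IsCompact (Set.pi Set.univ fun _ : ι => Metric.closedBall (0 : ℂ) C) :=
      isCompact_univ_pi fun _ => isCompact_closedBall _ _
    refine hK.of_isClosed_subset ?_ ?_
    · have e1 : {w' : ι → ℂ | w' ∈ pts a ∧ w' ∉ U₀ ∧ ∀ i, ‖w' i‖ ≤ C} =
          pts a ∩ (U₀ᶜ ∩ ⋂ i, {w' : ι → ℂ | ‖w' i‖ ≤ C}) := by
        ext w'
        simp only [Set.mem_ofPred_eq, Set.mem_inter_iff, Set.mem_compl_iff, Set.mem_iInter]
      rw [e1]
      refine (isClosed_pts a).inter (hU₀o.isClosed_compl.inter (isClosed_iInter fun i => ?_))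
      exact isClosed_le ((continuous_apply i).norm) continuous_const
    · intro w' hw' i _
      rw [mem_closedBall_zero_iff]
      exact hw'.2.2 i
  have hgc : Continuous fun w' : ι → ℂ =>
      (∑ j, ‖eval w' (B j) - eval w (B j)‖) + ‖eval w' Z‖ :=
    (continuous_finsetSum _ fun j _ =>
      ((MvPolynomial.continuous_eval (B j)).sub continuous_const).norm).add
      (MvPolynomial.continuous_eval Z).norm
  have hδ : ∃ δ : ℝ, 0 < δ ∧ ∀ w' ∈ {w' : ι → ℂ | w' ∈ pts a ∧ w' ∉ U₀ ∧ ∀ i, ‖w' i‖ ≤ C},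
      δ ≤ (∑ j, ‖eval w' (B j) - eval w (B j)‖) + ‖eval w' Z‖ := by
    rcases Set.eq_empty_or_nonempty
      {w' : ι → ℂ | w' ∈ pts a ∧ w' ∉ U₀ ∧ ∀ i, ‖w' i‖ ≤ C} with he | hne
    · refine ⟨1, one_pos, fun w' hw' => ?_⟩
      rw [he] at hw'
      exact absurd hw' (Set.notMem_empty _)
    · obtain ⟨w₁, hw₁, hmin⟩ := hLc.exists_isMinOn hne hgc.continuousOn
      refine ⟨_, ?_, fun w' hw' => hmin hw'⟩
      by_contra hle
      have hs0 : 0 ≤ ∑ j, ‖eval w₁ (B j) - eval w (B j)‖ :=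
        Finset.sum_nonneg fun _ _ => norm_nonneg _
      have hz0 : 0 ≤ ‖eval w₁ Z‖ := norm_nonneg _
      have hs : ∑ j, ‖eval w₁ (B j) - eval w (B j)‖ = 0 := by linarith [not_lt.1 hle]
      have hz : ‖eval w₁ Z‖ = 0 := by linarith [not_lt.1 hle]
      rw [Finset.sum_eq_zero_iff_of_nonneg fun _ _ => norm_nonneg _] at hs
      have hfib : ∀ j, eval w₁ (B j) = eval w (B j) := fun j =>
        sub_eq_zero.1 (norm_eq_zero.1 (hs j (Finset.mem_univ j)))
      have hww : w₁ = w := by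
        by_contra hne1
        exact hZ w₁ ⟨hw₁.1, hfib⟩ hne1 (norm_eq_zero.1 hz)
      exact hw₁.2.1 (hww ▸ hwU₀)
  obtain ⟨δ, hδ0, hδL⟩ := hδ
  have hev2 : ∀ᶠ y : Fin n → ℂ in 𝓝 (fun j => eval w (B j)),
      ∑ j, ‖y j - eval w (B j)‖ < δ / 2 := by
    have hc : Continuous fun y : Fin n → ℂ => ∑ j, ‖y j - eval w (B j)‖ :=
      continuous_finsetSum _ fun j _ => ((continuous_apply j).sub continuous_const).norm
    have h0 : ∑ j, ‖(fun j => eval w (B j)) j - eval w (B j)‖ < δ / 2 := by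
      have : ∑ j, ‖(fun j => eval w (B j)) j - eval w (B j)‖ = 0 :=
        Finset.sum_eq_zero fun j _ => by rw [sub_self, norm_zero]
      rw [this]
      linarith
    exact hc.continuousAt.eventually (gt_mem_nhds h0)
  have hev3 : ∀ᶠ y : Fin n → ℂ in 𝓝 (fun j => eval w (B j)),
      ‖eval y (μ.coeff 0)‖ < (δ / 2) ^ μ.natDegree := by
    have hc : Continuous fun y : Fin n → ℂ => ‖eval y (μ.coeff 0)‖ :=
      (MvPolynomial.continuous_eval (μ.coeff 0)).norm
    have h0 : ‖eval (fun j => eval w (B j)) (μ.coeff 0)‖ < (δ / 2) ^ μ.natDegree := by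
      have h1 : eval (fun j => eval w (B j)) (μ.coeff 0) = 0 := by
        rw [← Polynomial.coeff_map, Polynomial.coeff_zero_eq_eval_zero]
        exact hroot
      rw [h1, norm_zero]
      positivity
    exact hc.continuousAt.eventually (gt_mem_nhds h0)
  filter_upwards [hC, hev2, hev3] with y hy1 hy2 hy3
  have hnd : (μ.map (eval y)).natDegree = μ.natDegree := hμm.natDegree_map _
  obtain ⟨T, hT0, hTs⟩ := exists_small_root (hμm.map (eval y)) (by rw [hnd]; exact hdeg)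
    (half_pos hδ0) (by rw [hnd, Polynomial.coeff_map]; exact hy3)
  obtain ⟨w', hw'a, hw'B, hw'Z⟩ := hμl y T hT0
  have hin : w' ∈ U₀ := by
    by_contra hout
    have h1 := hδL w' ⟨hw'a, hout, hy1 w' hw'a hw'B⟩
    have h2 : ∑ j, ‖eval w' (B j) - eval w (B j)‖ = ∑ j, ‖y j - eval w (B j)‖ :=
      Finset.sum_congr rfl fun j _ => by rw [hw'B j]
    rw [h2, hw'Z] at h1
    linarith
  exact ⟨w', ⟨hw'a, hU₀U hin⟩, _root_.funext fun j => hw'B j⟩

end Pool.Agent.H13.SM

end
end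

section

/-!
# A function which is not zero does not vanish near a point

PROOF of `not_eventually_zero`.  Take `b, B` as in `exists_noether`.  Let `ζ = aeval a Q ≠ 0`, integral
over `R' = Algebra.adjoin ℂ (Set.range b) ≃ MvPolynomial (Fin n) ℂ`, hence algebraic, so there is
`q : Polynomial R'` with `q.coeff 0 ≠ 0` and `aeval ζ q = 0`
(`IsAlgebraic.exists_nonzero_coeff_and_aeval_eq_zero`); transport it to
`q : Polynomial (MvPolynomial (Fin n) ℂ)` with `q.coeff 0 ≠ 0` and `(q.map (aeval b)).eval ζ = 0`.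
(Or take `μ` of `exists_monic`, `μ = X ^ k * q` with `q.coeff 0 ≠ 0`; `ζ ^ k * q(ζ) = 0`.)
If `Q = 0` on the points of the variety in the neighbourhood `U` of `w` then by `root_at`
`eval y (q.coeff 0) = 0` for all `y` in the image of `pts a ∩ U`, a neighbourhood of `y₀` by `open_at`.
A polynomial which vanishes in a neighbourhood of a point is zero (identity theorem
`AnalyticOnNhd.eq_of_eventuallyEq` and `MvPolynomial.funext`), contradiction.
-/

open MvPolynomial Topology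

noncomputable section

namespace Pool.Agent.H13.SM

variable {ι K : Type} [Field K] [Algebra ℂ K]

theorem eq_zero_of_eventually {n : ℕ} {p : MvPolynomial (Fin n) ℂ} {y₀ : Fin n → ℂ}
    (h : ∀ᶠ y in 𝓝 y₀, eval y p = 0) : p = 0 := by
  have h1 : (fun y : Fin n → ℂ => eval y p) = fun y => eval y (0 : MvPolynomial (Fin n) ℂ) := by
    refine AnalyticOnNhd.eq_of_eventuallyEq (AnalyticOnNhd.eval_mvPolynomial p)
      (AnalyticOnNhd.eval_mvPolynomial 0) (z₀ := y₀) ?_
    filter_upwards [h] with y hy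
    rw [hy, map_zero]
  exact MvPolynomial.funext fun x => congrFun h1 x

theorem not_eventually_zero [Finite ι] {a : ι → K}
    (ha : IntermediateField.adjoin ℂ (Set.range a) = ⊤) {n : ℕ} {z : Fin n → K}
    (hz : IsTranscendenceBasis ℂ z) {w : ι → ℂ} (hw : w ∈ pts a) {Q : MvPolynomial ι ℂ}
    (hQ : aeval a Q ≠ 0) : ¬ ∀ᶠ y in 𝓝 w, y ∈ pts a → eval y Q = 0 := by
  intro h
  obtain ⟨b, B, hb, hB, hint⟩ := exists_noether ha hz
  obtain ⟨p, hp, hp0⟩ := exists_monic hint Q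
  have hpne : p ≠ 0 := hp.ne_zero
  obtain ⟨q, hq⟩ : (Polynomial.X : Polynomial (MvPolynomial (Fin n) ℂ)) ^ p.natTrailingDegree ∣ p := by
    rw [Polynomial.X_pow_dvd_iff]
    intro d hd
    exact Polynomial.coeff_eq_zero_of_lt_natTrailingDegree hd
  have hq0 : q.coeff 0 ≠ 0 := by
    have h1 : p.coeff p.natTrailingDegree ≠ 0 :=
      Polynomial.coeff_natTrailingDegree_ne_zero.mpr hpne
    intro h2
    apply h1
    have h3 : p.coeff (0 + p.natTrailingDegree) =
        (Polynomial.X ^ p.natTrailingDegree * q).coeff (0 + p.natTrailingDegree) := by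
      rw [← hq]
    rw [Polynomial.coeff_X_pow_mul, h2, zero_add] at h3
    exact h3
  have hqroot : (q.map (aeval b : MvPolynomial (Fin n) ℂ →ₐ[ℂ] K).toRingHom).eval (aeval a Q) = 0 := by
    rw [hq, Polynomial.map_mul, Polynomial.map_pow, Polynomial.map_X, Polynomial.eval_mul,
      Polynomial.eval_pow, Polynomial.eval_X] at hp0
    exact (mul_eq_zero.mp hp0).resolve_left (pow_ne_zero _ hQ)
  apply hq0
  apply eq_zero_of_eventually (y₀ := fun j => eval w (B j))
  have hU : {y : ι → ℂ | y ∈ pts a → eval y Q = 0} ∈ 𝓝 w := h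
  filter_upwards [open_at hb hB hint hw hU] with y hy
  obtain ⟨w', ⟨hw', hU'⟩, rfl⟩ := hy
  have h1 := root_at hB hqroot hw'
  rw [hU' hw', ← Polynomial.coeff_zero_eq_eval_zero, Polynomial.coeff_map] at h1
  exact h1

end Pool.Agent.H13.SM

end
end

section

/-!
# A chart at a smooth point of an affine variety

PROOF.  Let `I, σ` be as in `exists_implicit` (the `f j` vanish at `w` since `w ∈ pts a`).  Only
`∀ᶠ u in 𝓝 0, σ u ∈ pts a` is left, and the last clause.

The ideal `{Q | aeval a Q = 0}` is generated by finitely many `g 1, ..., g r` (noetherian).  Suppose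
that `h u = eval (σ u) (g k)` is not eventually `0` near `0` for some `k`; `h` is analytic at `0` and
`h 0 = eval w (g k) = 0`.  Let `W` be as in `exists_null`; shrink it to an open neighbourhood of `0` on
which `σ` is analytic.  The points `y ∈ pts a` near `w`, say `y ∈ U`, are `σ (u y)` with
`u y k = y (I k) - w (I k)`, `u y ∈ W`, and `h (u y) = eval y (g k) = 0`.  So with `b, B` of
`exists_noether` the image of `pts a ∩ U` under `y ↦ (eval y (B j))_j` is contained in the image of the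
null set `{u ∈ W | h u = 0}` under the map `u ↦ (eval (σ u) (B j))_j`, which is differentiable on `W`:
it is null (`MeasureTheory.addHaar_image_eq_zero_of_differentiableOn_of_addHaar_eq_zero`, over `ℝ`).  But
it is a neighbourhood of a point by `open_at`, so it has positive measure (`IsOpen.measure_pos`).
So all `g k` vanish on `σ u` for `u` near `0`, hence all `Q` with `aeval a Q = 0` do (`Q = ∑ c_k g k`,
`Submodule.span_induction` or `Ideal.mem_span_range_iff_exists_fun`).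

Last clause: if `eval (σ u) Q = 0` for `u` near `0` then, as `u y → 0` for `y → w`, `eval y Q = 0` for
`y ∈ pts a` near `w`, against `not_eventually_zero`.
-/

open MvPolynomial Topology

noncomputable section

namespace Pool.Agent.H13.SM

variable {ι K : Type} [Field K] [Algebra ℂ K]

/-- A polynomial which vanishes at the generic point vanishes along the chart. -/
private theorem Aff_key [Fintype ι] {a : ι → K}
    (ha : IntermediateField.adjoin ℂ (Set.range a) = ⊤)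
    {n : ℕ} {z : Fin n → K} (hz : IsTranscendenceBasis ℂ z)
    {w : ι → ℂ} (hw : w ∈ pts a) {I : Fin n → ι} {σ : (Fin n → ℂ) → ι → ℂ}
    (hσ : AnalyticAt ℂ σ 0) (hσ0 : σ 0 = w)
    (hpt : ∀ᶠ y in 𝓝 w, y ∈ pts a → y = σ (fun k => y (I k) - w (I k)))
    (Q : MvPolynomial ι ℂ) (hQ : aeval a Q = 0) : ∀ᶠ u in 𝓝 0, eval (σ u) Q = 0 := by
  classical
  by_contra hne
  obtain ⟨b, B, hb, hB, hint⟩ := exists_noether ha hz
  have hcont : ∀ R : MvPolynomial ι ℂ, AnalyticAt ℂ (fun y : ι → ℂ => eval y R) (σ 0) := by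
    intro R
    exact AnalyticOnNhd.eval_mvPolynomial R (σ 0) (Set.mem_univ _)
  have hh : AnalyticAt ℂ (fun u => eval (σ u) Q) 0 :=
    AnalyticAt.fun_comp (f := σ) (g := fun y : ι → ℂ => eval y Q) (hcont Q) hσ
  have h0 : eval (σ 0) Q = 0 := by
    rw [hσ0]
    exact hw Q hQ
  obtain ⟨W, hW, hnull⟩ := exists_null hh h0 hne
  -- an open neighbourhood on which `σ` is analytic
  have hWσ : ∀ᶠ u in 𝓝 (0 : Fin n → ℂ), u ∈ W ∧ AnalyticAt ℂ σ u :=
    (Filter.eventually_of_mem hW fun u hu => hu).and hσ.eventually_analyticAt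
  obtain ⟨W', hW'sub, hW'open, hW'0⟩ := mem_nhds_iff.1 hWσ
  have hκ : Filter.Tendsto (fun (y : ι → ℂ) (k : Fin n) => y (I k) - w (I k)) (𝓝 w) (𝓝 0) := by
    have hc : Continuous fun (y : ι → ℂ) (k : Fin n) => y (I k) - w (I k) := by fun_prop
    have := hc.tendsto w
    have h00 : (fun k : Fin n => w (I k) - w (I k)) = 0 := by
      ext k
      simp
    rwa [h00] at this
  have hU : {y : ι → ℂ | (y ∈ pts a → y = σ (fun k => y (I k) - w (I k))) ∧
      (fun k => y (I k) - w (I k)) ∈ W'} ∈ 𝓝 w :=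
    hpt.and (hκ (hW'open.mem_nhds hW'0))
  have himg := open_at hb hB hint hw hU
  set N : Set (Fin n → ℂ) := {u | u ∈ W' ∧ eval (σ u) Q = 0} with hN
  have hNnull : MeasureTheory.volume N = 0 := by
    refine MeasureTheory.measure_mono_null ?_ hnull
    rintro u ⟨hu, hu'⟩
    exact ⟨(hW'sub hu).1, hu'⟩
  have hdiff : DifferentiableOn ℝ (fun (u : Fin n → ℂ) (j : Fin n) => eval (σ u) (B j)) N := by
    intro u hu
    have hσu : AnalyticAt ℂ σ u := (hW'sub hu.1).2
    have hF : AnalyticAt ℂ (fun (u : Fin n → ℂ) (j : Fin n) => eval (σ u) (B j)) u := by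
      refine analyticAt_pi_iff.2 fun j => ?_
      exact AnalyticAt.fun_comp (f := σ) (g := fun y : ι → ℂ => eval y (B j))
        (AnalyticOnNhd.eval_mvPolynomial (B j) (σ u) (Set.mem_univ _)) hσu
    exact (hF.differentiableAt.restrictScalars ℝ).differentiableWithinAt
  have h1 := MeasureTheory.addHaar_image_eq_zero_of_differentiableOn_of_addHaar_eq_zero
    MeasureTheory.volume hdiff hNnull
  have h2 : (fun (w' : ι → ℂ) (j : Fin n) => eval w' (B j)) '' (pts a ∩
      {y : ι → ℂ | (y ∈ pts a → y = σ (fun k => y (I k) - w (I k))) ∧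
      (fun k => y (I k) - w (I k)) ∈ W'}) ⊆
      (fun (u : Fin n → ℂ) (j : Fin n) => eval (σ u) (B j)) '' N := by
    rintro _ ⟨y, ⟨hya, hy1, hy2⟩, rfl⟩
    have hy := hy1 hya
    refine ⟨fun k => y (I k) - w (I k), ⟨hy2, ?_⟩, ?_⟩
    · rw [← hy]
      exact hya Q hQ
    · simp only
      rw [← hy]
  have h3 : MeasureTheory.volume ((fun (w' : ι → ℂ) (j : Fin n) => eval w' (B j)) '' (pts a ∩
      {y : ι → ℂ | (y ∈ pts a → y = σ (fun k => y (I k) - w (I k))) ∧
      (fun k => y (I k) - w (I k)) ∈ W'})) = 0 :=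
    MeasureTheory.measure_mono_null h2 h1
  exact (MeasureTheory.Measure.measure_pos_of_mem_nhds MeasureTheory.volume himg).ne' h3

theorem exists_chart [Fintype ι] {a : ι → K} (ha : IntermediateField.adjoin ℂ (Set.range a) = ⊤)
    {n : ℕ} {z : Fin n → K} (hz : IsTranscendenceBasis ℂ z) {c : ℕ}
    (hcn : c + n = Fintype.card ι) {f : Fin c → MvPolynomial ι ℂ} (hf : ∀ j, aeval a (f j) = 0)
    {w : ι → ℂ} (hw : w ∈ pts a)
    (hli : LinearIndependent ℂ fun (j : Fin c) (i : ι) => eval w (pderiv i (f j))) :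
    ∃ (I : Fin n → ι) (σ : (Fin n → ℂ) → ι → ℂ), AnalyticAt ℂ σ 0 ∧ σ 0 = w ∧
      (∀ᶠ u in 𝓝 0, σ u ∈ pts a ∧ ∀ k, σ u (I k) = w (I k) + u k) ∧
      (∀ᶠ y in 𝓝 w, y ∈ pts a → y = σ (fun k => y (I k) - w (I k))) ∧
      ∀ Q : MvPolynomial ι ℂ, aeval a Q ≠ 0 → ¬ ∀ᶠ u in 𝓝 0, eval (σ u) Q = 0 := by
  obtain ⟨I, σ, hσ, hσ0, hev, hnear⟩ := exists_implicit hcn (fun j => hw (f j) (hf j)) hli
  have hpt : ∀ᶠ y in 𝓝 w, y ∈ pts a → y = σ (fun k => y (I k) - w (I k)) := by
    filter_upwards [hnear] with y hy hya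
    exact hy fun j => hya (f j) (hf j)
  have key := Aff_key ha hz hw hσ hσ0 hpt
  have hall : ∀ᶠ u in 𝓝 (0 : Fin n → ℂ), σ u ∈ pts a := by
    obtain ⟨S, hS⟩ := IsNoetherian.noetherian
      (RingHom.ker ((aeval a : MvPolynomial ι ℂ →ₐ[ℂ] K) : MvPolynomial ι ℂ →+* K))
    have h1 : ∀ᶠ u in 𝓝 (0 : Fin n → ℂ), ∀ g ∈ S, eval (σ u) g = 0 := by
      rw [Filter.eventually_all_finset]
      intro g hg
      refine key g ?_
      have : g ∈ RingHom.ker ((aeval a : MvPolynomial ι ℂ →ₐ[ℂ] K) : MvPolynomial ι ℂ →+* K) := by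
        rw [← hS]
        exact Submodule.subset_span hg
      simpa [RingHom.mem_ker] using this
    filter_upwards [h1] with u hu Q hQ
    have hle : RingHom.ker ((aeval a : MvPolynomial ι ℂ →ₐ[ℂ] K) : MvPolynomial ι ℂ →+* K) ≤
        RingHom.ker (eval (σ u)) := by
      rw [← hS]
      refine Ideal.span_le.2 fun g hg => ?_
      exact hu g hg
    exact hle (by simpa [RingHom.mem_ker] using hQ)
  refine ⟨I, σ, hσ, hσ0, ?_, hpt, ?_⟩
  · filter_upwards [hall, hev] with u hu1 hu2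
    exact ⟨hu1, hu2.2⟩
  · intro Q hQ hz0
    refine not_eventually_zero ha hz hw hQ ?_
    have hκ : Filter.Tendsto (fun (y : ι → ℂ) (k : Fin n) => y (I k) - w (I k)) (𝓝 w) (𝓝 0) := by
      have hc : Continuous fun (y : ι → ℂ) (k : Fin n) => y (I k) - w (I k) := by fun_prop
      have := hc.tendsto w
      have h00 : (fun k : Fin n => w (I k) - w (I k)) = 0 := by
        ext k
        simp
      rwa [h00] at this
    filter_upwards [hpt, hκ.eventually hz0] with y hy1 hy2 hya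
    have hy := hy1 hya
    rw [hy]
    exact hy2

end Pool.Agent.H13.SM

end
end

section

/-!
# The ideal of a holomorphic map

`mapIdeal f U`: the polynomials which vanish on the cone over `f U`.

* `mem_mapIdeal_form`: `eval_smul_form`; `VanishesAt Q x` is `eval x.rep Q = 0`; take `c = 1` for one direction.
* `mapIdeal_homog`: for fixed `z ∈ U`: `eval (c • x) Q = ∑ k, c ^ k * eval x (homogeneousComponent k Q)` is a polynomial in `c`
  which vanishes for all `c`, so all coefficients vanish (e.g. `Polynomial.funext`, or the lemma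
  `Pool.Agent.H62.FC.eval_homogeneousComponent_eq_zero` in `Pool/Agent/H62/FC/CurveIdeal.lean`).
* `mapIdeal_isPrime`: `1` is not in it (`U ≠ ∅`).  Let `A * B ∈ I`, `A ∉ I`, `B ∉ I`.  There are homogeneous components `A_k`,
  `B_l` not in `I` (`sum_homogeneousComponent`, ideal), i.e. `VanishesAt A_k (f z)` fails for some `z ∈ U`.  For a form `R` the set
  of the `z₀ ∈ U` with `VanishesAt R (f z)` for all `z` near `z₀` is open, and so is the set of the `z₀ ∈ U` with
  `¬ VanishesAt R (f z)` for all `z ≠ z₀` near `z₀`; they cover `U` (local lift `φ` of `f`, `z ↦ eval (φ z) R` is analytic at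
  `z₀`, `AnalyticAt.eventually_eq_zero_or_eventually_ne_zero`, `vanishesAt_mk`); `U` is preconnected, so one of them is `U`;
  if `R ∉ I` it is the second one.  So near a point `z₀ ∈ U`, for `z ≠ z₀`, both `A_k` and `B_l` do not vanish at `f z`.  For
  such a `z ∈ U` the polynomials `c ↦ eval (c • x) A`, `c ↦ eval (c • x) B` (`x = (f z).rep`) are not zero (their coefficients at
  `c ^ k`, `c ^ l` are `eval x A_k ≠ 0`, `eval x B_l ≠ 0`), their product is zero for all `c`: contradiction.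
-/

open Topology Filter MvPolynomial

noncomputable section

namespace Pool.Agent.H17BP

open Pool.Agent.H17 (PN VanishesAt ZariskiClosedIn HolomorphicInto puncturedDisc)
open Pool.Agent.H62.FC (Homog)

variable {N : ℕ} {f : ℂ → PN N} {U : Set ℂ}

/-- The ideal of the polynomials which vanish on the cone over `f U`. -/
def mapIdeal (f : ℂ → PN N) (U : Set ℂ) : Ideal (MvPolynomial (Fin (N + 1)) ℂ) where
  carrier := {Q | ∀ z ∈ U, ∀ c : ℂ, eval (c • (f z).rep) Q = 0}
  add_mem' := by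
    intro A B hA hB z hz c
    rw [map_add, hA z hz c, hB z hz c, add_zero]
  zero_mem' := by
    intro z _ c
    rw [map_zero]
  smul_mem' := by
    intro A B hB z hz c
    rw [smul_eq_mul, map_mul, hB z hz c, mul_zero]

/-- The polynomial `c ↦ Q (c x)`. -/
private def MapIdeal_poly (x : Fin (N + 1) → ℂ) (Q : MvPolynomial (Fin (N + 1)) ℂ) : Polynomial ℂ :=
  ∑ k ∈ Finset.range (Q.totalDegree + 1), Polynomial.C (eval x (homogeneousComponent k Q)) * Polynomial.X ^ k

private lemma MapIdeal_poly_eval (x : Fin (N + 1) → ℂ) (Q : MvPolynomial (Fin (N + 1)) ℂ) (c : ℂ) :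
    (MapIdeal_poly x Q).eval c = eval (c • x) Q := by
  conv_rhs => rw [← MvPolynomial.sum_homogeneousComponent Q]
  rw [MapIdeal_poly, Polynomial.eval_finsetSum, map_sum]
  refine Finset.sum_congr rfl fun k _ => ?_
  rw [eval_smul_form (homogeneousComponent_isHomogeneous k Q)]
  rw [Polynomial.eval_mul, Polynomial.eval_C, Polynomial.eval_pow, Polynomial.eval_X, mul_comm]

private lemma MapIdeal_poly_coeff (x : Fin (N + 1) → ℂ) (Q : MvPolynomial (Fin (N + 1)) ℂ) (n : ℕ) :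
    (MapIdeal_poly x Q).coeff n = eval x (homogeneousComponent n Q) := by
  rw [MapIdeal_poly, Polynomial.finsetSum_coeff]
  simp only [Polynomial.coeff_C_mul, Polynomial.coeff_X_pow]
  by_cases hn : n ∈ Finset.range (Q.totalDegree + 1)
  · rw [Finset.sum_eq_single n]
    · simp
    · intro b _ hb
      rw [if_neg hb.symm, mul_zero]
    · intro h
      exact absurd hn h
  · rw [Finset.sum_eq_zero, homogeneousComponent_eq_zero, map_zero]
    · rw [Finset.mem_range] at hn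
      omega
    · intro k hk
      rw [if_neg, mul_zero]
      rintro rfl
      exact hn hk

private lemma MapIdeal_comp {x : Fin (N + 1) → ℂ} {Q : MvPolynomial (Fin (N + 1)) ℂ}
    (h : ∀ c : ℂ, eval (c • x) Q = 0) (n : ℕ) : eval x (homogeneousComponent n Q) = 0 := by
  have h1 : MapIdeal_poly x Q = 0 := by
    apply Polynomial.funext
    intro c
    rw [MapIdeal_poly_eval, h c, Polynomial.eval_zero]
  rw [← MapIdeal_poly_coeff, h1, Polynomial.coeff_zero]

theorem mem_mapIdeal_form {d : ℕ} {Q : MvPolynomial (Fin (N + 1)) ℂ} (hQ : Q.IsHomogeneous d) :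
    Q ∈ mapIdeal f U ↔ ∀ z ∈ U, VanishesAt Q (f z) := by
  constructor
  · intro h z hz
    have h1 := h z hz 1
    rw [one_smul] at h1
    exact h1
  · intro h z hz c
    have h1 : eval (f z).rep Q = 0 := h z hz
    rw [eval_smul_form hQ, h1, mul_zero]

theorem mapIdeal_homog : Homog (mapIdeal f U) := by
  intro Q hQ n z hz c
  rw [eval_smul_form (homogeneousComponent_isHomogeneous n Q), MapIdeal_comp (hQ z hz) n, mul_zero]

private lemma MapIdeal_analytic {φ : ℂ → Fin (N + 1) → ℂ} {z₀ : ℂ} (hφ : AnalyticAt ℂ φ z₀)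
    (R : MvPolynomial (Fin (N + 1)) ℂ) : AnalyticAt ℂ (fun z => eval (φ z) R) z₀ := by
  have hi : ∀ i, AnalyticAt ℂ (fun z => φ z i) z₀ := fun i =>
    (ContinuousLinearMap.proj (R := ℂ) (φ := fun _ : Fin (N + 1) => ℂ) i).analyticAt _ |>.comp hφ
  induction R using MvPolynomial.induction_on with
  | C a =>
    simp only [eval_C]
    exact analyticAt_const
  | add p q hp hq =>
    simp only [map_add]
    exact hp.add hq
  | mul_X p i hp =>
    simp only [map_mul, eval_X]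
    exact hp.mul (hi i)

private lemma MapIdeal_notMem (hUc : IsPreconnected U) (hf : HolomorphicInto f U)
    {d : ℕ} {R : MvPolynomial (Fin (N + 1)) ℂ} (hR : R.IsHomogeneous d) (hRI : R ∉ mapIdeal f U) {z₀ : ℂ}
    (hz₀ : z₀ ∈ U) : ∀ᶠ z in 𝓝[≠] z₀, ¬ VanishesAt R (f z) := by
  have hu : IsOpen {x : ℂ | ∀ᶠ z in 𝓝 x, VanishesAt R (f z)} := isOpen_setOfPred_eventually_nhds
  have hv : IsOpen {x : ℂ | ∀ᶠ z in 𝓝[≠] x, ¬ VanishesAt R (f z)} := isOpen_setOfPred_eventually_nhdsWithin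
  have hcov : U ⊆ {x : ℂ | ∀ᶠ z in 𝓝 x, VanishesAt R (f z)} ∪
      {x : ℂ | ∀ᶠ z in 𝓝[≠] x, ¬ VanishesAt R (f z)} := by
    intro z₁ hz₁
    obtain ⟨φ, hφ, he⟩ := hf z₁ hz₁
    rcases (MapIdeal_analytic hφ R).eventually_eq_zero_or_eventually_ne_zero with h | h
    · left
      change ∀ᶠ z in 𝓝 z₁, VanishesAt R (f z)
      filter_upwards [h, he] with z h1 h2
      obtain ⟨h3, h4⟩ := h2
      rw [h4, vanishesAt_mk hR]
      exact h1
    · right
      change ∀ᶠ z in 𝓝[≠] z₁, ¬ VanishesAt R (f z)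
      filter_upwards [h, he.filter_mono nhdsWithin_le_nhds] with z h1 h2
      obtain ⟨h3, h4⟩ := h2
      rw [h4, vanishesAt_mk hR]
      exact h1
  by_contra hcon
  have h1 : z₀ ∈ {x : ℂ | ∀ᶠ z in 𝓝 x, VanishesAt R (f z)} := (hcov hz₀).resolve_right hcon
  apply hRI
  rw [mem_mapIdeal_form hR]
  intro z hz
  rcases hcov hz with h2 | h2
  · have h3 : ∀ᶠ w in 𝓝 z, VanishesAt R (f w) := h2
    exact h3.self_of_nhds
  · exfalso
    obtain ⟨w, -, hw1, hw2⟩ := hUc _ _ hu hv hcov ⟨z₀, hz₀, h1⟩ ⟨z, hz, h2⟩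
    have h3 : ∀ᶠ z in 𝓝 w, VanishesAt R (f z) := hw1
    have h4 : ∀ᶠ z in 𝓝[≠] w, ¬ VanishesAt R (f z) := hw2
    obtain ⟨t, ht1, ht2⟩ := ((h3.filter_mono nhdsWithin_le_nhds).and h4).exists
    exact ht2 ht1

theorem mapIdeal_isPrime (hUo : IsOpen U) (hUc : IsPreconnected U) (hne : U.Nonempty) (hf : HolomorphicInto f U) :
    (mapIdeal f U).IsPrime := by
  obtain ⟨z₀, hz₀⟩ := hne
  have hcomp : ∀ A : MvPolynomial (Fin (N + 1)) ℂ, A ∉ mapIdeal f U →
      ∃ k, homogeneousComponent k A ∉ mapIdeal f U := by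
    intro A hA
    by_contra hcon
    push Not at hcon
    apply hA
    rw [← MvPolynomial.sum_homogeneousComponent A]
    exact Ideal.sum_mem _ fun i _ => hcon i
  refine ⟨?_, ?_⟩
  · intro htop
    have h1 : (1 : MvPolynomial (Fin (N + 1)) ℂ) ∈ mapIdeal f U := by
      rw [htop]
      trivial
    have h2 := h1 z₀ hz₀ 1
    rw [map_one] at h2
    exact one_ne_zero h2
  · intro A B hAB
    by_contra hcon
    push Not at hcon
    obtain ⟨k, hk⟩ := hcomp A hcon.1
    obtain ⟨l, hl⟩ := hcomp B hcon.2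
    have h1 := MapIdeal_notMem hUc hf (homogeneousComponent_isHomogeneous k A) hk hz₀
    have h2 := MapIdeal_notMem hUc hf (homogeneousComponent_isHomogeneous l B) hl hz₀
    have h3' : ∀ᶠ z in 𝓝 z₀, z ∈ U := hUo.mem_nhds hz₀
    have h3 : ∀ᶠ z in 𝓝[≠] z₀, z ∈ U := h3'.filter_mono nhdsWithin_le_nhds
    obtain ⟨z, ⟨h4, h5⟩, h6⟩ := ((h1.and h2).and h3).exists
    have h7 : MapIdeal_poly (f z).rep A * MapIdeal_poly (f z).rep B = 0 := by
      apply Polynomial.funext
      intro c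
      rw [Polynomial.eval_mul, MapIdeal_poly_eval, MapIdeal_poly_eval, ← map_mul, Polynomial.eval_zero]
      exact hAB z h6 c
    rcases mul_eq_zero.1 h7 with h8 | h8
    · apply h4
      change eval (f z).rep (homogeneousComponent k A) = 0
      rw [← MapIdeal_poly_coeff, h8, Polynomial.coeff_zero]
    · apply h5
      change eval (f z).rep (homogeneousComponent l B) = 0
      rw [← MapIdeal_poly_coeff, h8, Polynomial.coeff_zero]

theorem exists_X_notMem (hne : U.Nonempty) : ∃ i, (X i : MvPolynomial (Fin (N + 1)) ℂ) ∉ mapIdeal f U := by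
  obtain ⟨z, hz⟩ := hne
  by_contra hcon
  push Not at hcon
  apply (f z).rep_nonzero
  funext i
  have h1 := hcon i z hz 1
  rw [one_smul, eval_X] at h1
  exact h1

theorem mem_variety_mapIdeal {z : ℂ} (hz : z ∈ U) : f z ∈ variety (mapIdeal f U) := by
  refine ⟨fun Q hQ n hn => (mem_mapIdeal_form hn).1 hQ z hz, fun m => m.elim0⟩

theorem le_mapIdeal {P : Ideal (MvPolynomial (Fin (N + 1)) ℂ)} (hP : Homog P) (h : ∀ z ∈ U, f z ∈ variety P) :
    P ≤ mapIdeal f U := by
  intro Q hQ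
  rw [← MvPolynomial.sum_homogeneousComponent Q]
  refine Ideal.sum_mem _ fun i _ => ?_
  rw [mem_mapIdeal_form (homogeneousComponent_isHomogeneous i Q)]
  exact fun z hz => (h z hz).1 _ (hP Q hQ i) i (homogeneousComponent_isHomogeneous i Q)

end Pool.Agent.H17BP

end
end

section

/-!
# EF Four: the four properties of the Green–Griffiths–Lang conjecture
-/

set_option autoImplicit false

open MvPolynomial

noncomputable section

namespace Pool.Agent.H17EF

open Pool.Agent.H17 (PN VanishesAt ZariskiClosedIn HolomorphicInto puncturedDisc)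
open Pool.Agent.H17LG.Variety (FunField IsLogGeneralType)

variable {N : ℕ}

theorem locVar_one (P : Ideal (MvPolynomial (Fin (N + 1)) ℂ)) :
    Pool.Agent.H62.SA.locVar P (fun _ : Fin 1 => (1 : MvPolynomial (Fin (N + 1)) ℂ)) = projVar P := by
  ext x
  constructor
  · exact fun h => h.1
  · intro h
    refine ⟨h, 0, ?_⟩
    unfold VanishesAt
    simp

theorem onBd_one (P : Ideal (MvPolynomial (Fin (N + 1)) ℂ)) [P.IsPrime] (k : ℕ) :
    (Pool.Agent.H62.SA.OnBd P (fun _ : Fin 1 => (1 : MvPolynomial (Fin (N + 1)) ℂ)) (k := k)) = fun _ => False := by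
  funext E
  apply propext
  constructor
  · rintro ⟨j, -, -, h⟩
    have := h 0
    rw [map_one] at this
    rw [E.ord.map_one] at this
    exact absurd this (lt_irrefl _)
  · exact False.elim

section

variable {P : Ideal (MvPolynomial (Fin (N + 1)) ℂ)} [P.IsPrime] {z : Fin 2 → FunField P}

end

end Pool.Agent.H17EF

end
end

section

/-!
# Functions meromorphic at the puncture: closure properties
-/

open Filter Topology MeasureTheory
open Pool.Agent.H92.GGL (ordZ)

noncomputable section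

namespace Pool.Agent.H62.FC

theorem PunctMero.mul {f g : ℂ → ℂ} (hf : PunctMero f) (hg : PunctMero g) :
    PunctMero (fun z => f z * g z) := by
  obtain ⟨v, hv, hfv⟩ := hf
  obtain ⟨w, hw, hgw⟩ := hg
  refine ⟨fun z => v z * w z, hv.mul hw, ?_⟩
  filter_upwards [hfv, hgw] with z h1 h2
  filter_upwards [h1, h2] with ζ h3 h4
  rw [h3, h4]

theorem PunctMero.inv {f : ℂ → ℂ} (hf : PunctMero f) : PunctMero (fun z => (f z)⁻¹) := by
  obtain ⟨v, hv, hfv⟩ := hf
  refine ⟨fun z => (v z)⁻¹, hv.inv, ?_⟩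
  filter_upwards [hfv] with z h1
  filter_upwards [h1] with ζ h3
  rw [h3]

/-- a bound for a root -/
private lemma norm_le_of_pow_le {w : ℂ} {C : ℝ} {M : ℕ} (hM : 0 < M) (hC : 1 ≤ C)
    (h : ‖w ^ M‖ ≤ C) : ‖w‖ ≤ C := by
  rw [norm_pow] at h
  by_contra hlt
  have hlt := not_le.1 hlt
  have h1 : (1 : ℝ) ≤ ‖w‖ := by linarith
  have h2 : ‖w‖ ≤ ‖w‖ ^ M := le_self_pow₀ h1 hM.ne'
  linarith

theorem PunctMero.root {R₀ : ℝ} (hR₀ : 0 < R₀) {f : ℂ → ℂ} (hf : MeroPunct R₀ f) {M : ℕ}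
    (hM : 0 < M) (h : PunctMero (fun z => f z ^ M)) : PunctMero f := by
  obtain ⟨v, hv, hfv⟩ := h
  -- the punctured disc
  have hU0 : ∀ᶠ z in 𝓝[≠] (0 : ℂ), 0 < ‖z‖ ∧ ‖z‖ < R₀ := by
    have h1 : ∀ᶠ z in 𝓝 (0 : ℂ), ‖z‖ < R₀ := by
      filter_upwards [Metric.ball_mem_nhds (0 : ℂ) hR₀] with z hz
      simpa using hz
    filter_upwards [h1.filter_mono nhdsWithin_le_nhds, self_mem_nhdsWithin] with z h2 h3
    exact ⟨norm_pos_iff.mpr h3, h2⟩
  -- `v` is not identically zero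
  have hvtop : meromorphicOrderAt v 0 ≠ ⊤ := by
    intro htop
    have h0 : ∀ᶠ z in 𝓝[≠] (0 : ℂ), v z = 0 := meromorphicOrderAt_eq_top_iff.1 htop
    have h0' : ∀ᶠ z in 𝓝[≠] (0 : ℂ), ∀ᶠ ζ in 𝓝[≠] z, v ζ = 0 := by
      have h2 := eventually_eventually_nhdsWithin.2 h0
      filter_upwards [h2, self_mem_nhdsWithin] with z hz hz0
      have h4 : ∀ᶠ ζ in 𝓝 z, v ζ = 0 := by
        have h5 : 𝓝[{(0 : ℂ)}ᶜ] z = 𝓝 z :=
          IsOpen.nhdsWithin_eq isOpen_compl_singleton hz0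
        rwa [h5] at hz
      exact h4.filter_mono nhdsWithin_le_nhds
    obtain ⟨z, hz1, hz2, hz3⟩ := ((hU0.and (hfv.and h0'))).exists
    refine hf.ord z hz1.1 hz1.2 ?_
    rw [meromorphicOrderAt_eq_top_iff]
    filter_upwards [hz2, hz3] with ζ h1 h2
    rw [h2] at h1
    exact (pow_eq_zero_iff hM.ne').1 h1
  have hvan : ∀ᶠ z in 𝓝[≠] (0 : ℂ), AnalyticAt ℂ v z := hv.eventually_analyticAt
  have hvne : ∀ᶠ z in 𝓝[≠] (0 : ℂ), v z ≠ 0 :=
    (meromorphicOrderAt_ne_top_iff_eventually_ne_zero hv).1 hvtop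
  obtain ⟨k, hk, -, hvk⟩ := (meromorphicOrderAt_ne_top_iff hv).1 hvtop
  set n : ℤ := (meromorphicOrderAt v 0).untop₀ with hn
  have hkb : ∀ᶠ z in 𝓝 (0 : ℂ), ‖k z‖ ≤ ‖k 0‖ + 1 := by
    have h1 := hk.continuousAt.norm.tendsto
    filter_upwards [h1.eventually_lt_const (lt_add_one ‖k 0‖)] with z hz using hz.le
  have h1b : ∀ᶠ z in 𝓝 (0 : ℂ), ‖z‖ < 1 := by
    filter_upwards [Metric.ball_mem_nhds (0 : ℂ) one_pos] with z hz
    simpa using hz
  -- everything in one punctured disc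
  have hall : ∀ᶠ z in 𝓝[≠] (0 : ℂ), (0 < ‖z‖ ∧ ‖z‖ < R₀) ∧
      ((fun z => f z ^ M) =ᶠ[𝓝[≠] z] v) ∧ AnalyticAt ℂ v z ∧ v z ≠ 0 ∧
        v z = z ^ n * k z ∧ ‖k z‖ ≤ ‖k 0‖ + 1 ∧ ‖z‖ < 1 := by
    filter_upwards [hU0, hfv, hvan, hvne, hvk, hkb.filter_mono nhdsWithin_le_nhds,
      h1b.filter_mono nhdsWithin_le_nhds] with z a1 a2 a3 a4 a5 a6 a7
    refine ⟨a1, a2, a3, a4, ?_, a6, a7⟩
    rw [a5, sub_zero, smul_eq_mul]
  obtain ⟨ε, hε, hε'⟩ := Metric.mem_nhdsWithin_iff.1 hall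
  have hD : ∀ z : ℂ, 0 < ‖z‖ → ‖z‖ < ε → (0 < ‖z‖ ∧ ‖z‖ < R₀) ∧
      ((fun z => f z ^ M) =ᶠ[𝓝[≠] z] v) ∧ AnalyticAt ℂ v z ∧ v z ≠ 0 ∧
        v z = z ^ n * k z ∧ ‖k z‖ ≤ ‖k 0‖ + 1 ∧ ‖z‖ < 1 := by
    intro z hz1 hz2
    exact hε' ⟨by simpa using hz2, norm_pos_iff.1 hz1⟩
  -- the normal form
  set U : Set ℂ := {z | 0 < ‖z‖ ∧ ‖z‖ < R₀} with hU
  have hfU : MeromorphicOn f U := fun z hz => hf.mero z hz.1 hz.2
  set g : ℂ → ℂ := toMeromorphicNFOn f U with hg
  have hgf : ∀ z : ℂ, 0 < ‖z‖ → ‖z‖ < ε → g =ᶠ[𝓝[≠] z] f := fun z h1 h2 =>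
    hfU.toMeromorphicNFOn_eq_self_on_nhdsNE (hD z h1 h2).1
  have hgan : ∀ z : ℂ, 0 < ‖z‖ → ‖z‖ < ε → AnalyticAt ℂ g z := by
    intro z h1 h2
    obtain ⟨b1, b2, b3, b4, -, -, -⟩ := hD z h1 h2
    have hm := hf.mero z b1.1 b1.2
    have e1 : meromorphicOrderAt (fun z => f z ^ M) z = M * meromorphicOrderAt f z :=
      meromorphicOrderAt_pow hm
    have e2 : meromorphicOrderAt (fun z => f z ^ M) z = 0 := by
      rw [meromorphicOrderAt_congr b2]
      exact b3.meromorphicNFAt.meromorphicOrderAt_eq_zero_iff.2 b4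
    have e3 : meromorphicOrderAt f z = 0 := by
      rw [e2] at e1
      rcases mul_eq_zero.1 e1.symm with h3 | h3
      · exact absurd (by exact_mod_cast h3) hM.ne'
      · exact h3
    have hnf : MeromorphicNFAt g z := meromorphicNFOn_toMeromorphicNFOn f U b1
    refine hnf.meromorphicOrderAt_nonneg_iff_analyticAt.1 ?_
    rw [meromorphicOrderAt_congr (hgf z h1 h2), e3]
  have hgM : ∀ z : ℂ, 0 < ‖z‖ → ‖z‖ < ε → g z ^ M = v z := by
    intro z h1 h2
    obtain ⟨-, b2, b3, -, -, -, -⟩ := hD z h1 h2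
    have c1 : (fun ζ => g ζ ^ M) =ᶠ[𝓝[≠] z] v := by
      filter_upwards [hgf z h1 h2, b2] with ζ h3 h4
      rw [h3]; exact h4
    have c2 : ContinuousAt (fun ζ => g ζ ^ M) z := ((hgan z h1 h2).pow M).continuousAt
    exact tendsto_nhds_unique_of_eventuallyEq (c2.tendsto.mono_left nhdsWithin_le_nhds)
      (b3.continuousAt.tendsto.mono_left nhdsWithin_le_nhds) c1
  -- multiply by a power of `z`
  set m : ℕ := n.natAbs with hm
  obtain ⟨w, hw, hwg⟩ := Pool.Agent.H92.GGL.meromorphicAt_of_bounded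
    (u := fun z => z ^ m * g z) (ε := ε) (M := ‖k 0‖ + 1) hε
    (fun z h1 h2 => (analyticAt_id.pow m).mul (hgan z h1 h2)) (by
      intro z h1 h2
      obtain ⟨-, -, -, -, b5, b6, b7⟩ := hD z h1 h2
      refine norm_le_of_pow_le hM (by linarith [norm_nonneg (k 0)]) ?_
      have hz : z ≠ 0 := norm_pos_iff.1 h1
      have e1 : (z ^ m * g z) ^ M = z ^ ((m * M : ℕ) + n : ℤ) * k z := by
        rw [mul_pow, hgM z h1 h2, b5, zpow_add₀ hz, zpow_natCast, pow_mul]
        ring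
      have e2 : (0 : ℤ) ≤ ((m * M : ℕ) : ℤ) + n := by
        have h3 : m ≤ m * M := Nat.le_mul_of_pos_right m hM
        omega
      obtain ⟨q, hq⟩ := Int.eq_ofNat_of_zero_le e2
      rw [e1, hq, zpow_natCast, norm_mul, norm_pow]
      have h4 : ‖z‖ ^ q ≤ 1 := pow_le_one₀ (norm_nonneg z) b7.le
      calc ‖z‖ ^ q * ‖k z‖ ≤ 1 * (‖k 0‖ + 1) :=
            mul_le_mul h4 b6 (norm_nonneg _) zero_le_one
        _ = ‖k 0‖ + 1 := one_mul _)
  refine ⟨fun z => (z ^ m)⁻¹ * w z, (((analyticAt_id.pow m).meromorphicAt).inv).mul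
    hw.meromorphicAt, ?_⟩
  have hεe : ∀ᶠ z in 𝓝[≠] (0 : ℂ), 0 < ‖z‖ ∧ ‖z‖ < ε := by
    filter_upwards [(Metric.ball_mem_nhds (0 : ℂ) hε : _) |> mem_nhdsWithin_of_mem_nhds,
      self_mem_nhdsWithin] with z h1 h2
    exact ⟨norm_pos_iff.mpr h2, by simpa using h1⟩
  filter_upwards [hεe] with z hz
  have hz0 : z ≠ 0 := norm_pos_iff.1 hz.1
  have h5 : ∀ᶠ ζ in 𝓝[≠] z, ζ ≠ 0 :=
    (isOpen_compl_singleton.mem_nhds hz0 : ({(0 : ℂ)}ᶜ : Set ℂ) ∈ 𝓝 z) |>
      mem_nhdsWithin_of_mem_nhds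
  filter_upwards [hgf z hz.1 hz.2, h5] with ζ h6 h7
  rw [hwg ζ h7, ← h6, ← mul_assoc, inv_mul_cancel₀ (pow_ne_zero m h7), one_mul]

end Pool.Agent.H62.FC

end
end
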