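import Pool.Agent.H94.G4T.M34
import Pool.Agent.H94.G4T.M44
import Pool.Agent.H94.G4T.M45

/-! The parts of this file: H13.CV.Appr, H13.CV.FinPl, H13.CV.Loc, H13.CV.BirkB, H13.CV.BirkC. -/

section

/-!
# CV Appr: weak approximation

(1) `E ≠ E'` implies that there is `f` with `0 ≤ ord_E f` and `ord_{E'} f < 0`: otherwise `0 ≤ ord_E f → 0 ≤ ord_{E'} f` for all `f`.  Then `ord_E f = 0` implies `ord_{E'} f = 0` (apply it to `f` and `f⁻¹`).
Let `oz E t = 1`, `k = oz E' t ≥ 0`.  For `f ≠ 0`, `f * t ^ (- oz E f)` has order `0` at `E`, so `oz E' f = oz E f * k`.  With `f` a uniformizer of `E'`: `1 = oz E f * k`, so `k = 1` (`k ≥ 0`), so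
`oz E' = oz E` and `E = E'` (`Place.ext'`).
(2) `E ≠ E'` implies that there is `s ≠ 0` with `oz E s < 0`, `0 < oz E' s`: `f` as in (1) and `g` as in (1) for `(E', E)`: `s = g / f`:
`ord_E g < 0`, `0 ≤ ord_E f`, `0 ≤ ord_{E'} g`, `ord_{E'} f < 0`.
(3) `exists_sep`: for a finite set `T` of places not containing `E` there is `s ≠ 0` with `oz E s < 0`, `0 < oz E' s` for all `E' ∈ T`.  Induction on `T`: `T = ∅`: inverse of a uniformizer.  Let `a` be good
for `T`, and `b` for `E'' ∉ T`, as in (2).  If `0 ≤ oz E'' a`, then `a ^ r * b` is good for large `r` (at `E`: both negative; at `E' ∈ T`: `r * oz E' a + oz E' b > 0` for large `r`; at `E''`: `≥ oz E'' b > 0`).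
If `oz E'' a < 0`: `b * a ^ r / (1 + a ^ r)`: at `E` and at `E''`, `a ^ r / (1 + a ^ r)` has order `0`; at `E' ∈ T`: `1 + a ^ r` has order `0`, so the order is `oz E' b + r * oz E' a > 0` for large `r`.
(`1 + a ^ r ≠ 0` as at `E` it has negative order.)
(4) for all `n` there is `e` with `n ≤ ord_E (e - 1)` and `n ≤ ord_{E'} e` for all `E' ∈ T`: with `s` as in (3): `e = s ^ r / (1 + s ^ r)`, `e - 1 = - 1 / (1 + s ^ r)`, `r ≥ n`.
(5) `approx`: `f = ∑ E ∈ T, g E * e_E` with `e_E` as in (4) for `E` and `T.erase E`, with `n' = n + max` of the `- oz E' (g E)`: at `E'`: `f - g E' = g E' (e_{E'} - 1) + ∑ E ≠ E', g E * e_E`.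
-/

set_option autoImplicit false

open Pool.Agent.H23.Fano (PrimeDivisorOver Form regularForms)

noncomputable section

namespace Pool.Agent.H13.CV

variable {K : Type} [Field K] [Algebra ℂ K]

private theorem appr_sep1 {E E' : Place K} (h : E ≠ E') : ∃ f : K, f ≠ 0 ∧ 0 ≤ oz E f ∧ oz E' f < 0 := by
  by_contra hcon
  push Not at hcon
  apply h
  obtain ⟨t, ht0, ht⟩ := exists_uni E
  obtain ⟨u, hu0, hu⟩ := exists_uni E'
  have hk : 0 ≤ oz E' t := hcon t ht0 (by omega)
  have key : ∀ f : K, f ≠ 0 → oz E' f = oz E f * oz E' t := by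
    intro f hf
    have h1 : t ^ (-oz E f) ≠ 0 := zpow_ne_zero _ ht0
    have h2 : oz E (f * t ^ (-oz E f)) = 0 := by
      rw [oz_mul E hf h1, oz_zpow, ht]; ring
    have h3 : f * t ^ (-oz E f) ≠ 0 := mul_ne_zero hf h1
    have h4 := hcon _ h3 (by omega)
    have h5 := hcon (f * t ^ (-oz E f))⁻¹ (inv_ne_zero h3) (by rw [oz_inv]; omega)
    rw [oz_inv] at h5
    have h6 : oz E' (f * t ^ (-oz E f)) = 0 := by omega
    rw [oz_mul E' hf h1, oz_zpow] at h6
    linarith
  have h7 := key u hu0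
  rw [hu] at h7
  have h8 : oz E' t = 1 := by
    have h9 : oz E' t ∣ 1 := ⟨oz E u, by rw [mul_comm]; exact h7⟩
    exact Int.eq_one_of_dvd_one hk h9
  refine Place.ext' fun f => ?_
  by_cases hf : f = 0
  · subst hf
    rw [E.ord.map_zero, E'.ord.map_zero]
  · rw [← coe_oz E hf, ← coe_oz E' hf, key f hf, h8, mul_one]

private theorem appr_sep2 {E E' : Place K} (h : E ≠ E') : ∃ s : K, s ≠ 0 ∧ oz E s < 0 ∧ 0 < oz E' s := by
  obtain ⟨f, hf0, hf1, hf2⟩ := appr_sep1 h
  obtain ⟨g, hg0, hg1, hg2⟩ := appr_sep1 h.symm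
  refine ⟨g / f, div_ne_zero hg0 hf0, ?_, ?_⟩
  · rw [oz_div E hg0 hf0]; omega
  · rw [oz_div E' hg0 hf0]; omega

private theorem appr_one_add_neg {E : Place K} {a : K} {r : ℕ} (hr : 1 ≤ r) (h : oz E a < 0) :
    1 + a ^ r ≠ 0 ∧ oz E (1 + a ^ r) = r * oz E a := by
  have ha : a ≠ 0 := by
    rintro rfl
    rw [oz_zero] at h
    exact lt_irrefl _ h
  have h1 : oz E (a ^ r) < oz E (1 : K) := by
    rw [oz_pow, oz_one]
    have : (1 : ℤ) ≤ r := by exact_mod_cast hr
    nlinarith
  have h2 := oz_add_of_lt E (pow_ne_zero r ha) one_ne_zero h1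
  rw [add_comm, oz_pow] at h2
  exact h2

private theorem appr_one_add_pos {E : Place K} {a : K} {r : ℕ} (hr : 1 ≤ r) (h : 0 < oz E a) :
    1 + a ^ r ≠ 0 ∧ oz E (1 + a ^ r) = 0 := by
  have ha : a ≠ 0 := by
    rintro rfl
    rw [oz_zero] at h
    exact lt_irrefl _ h
  have h1 : oz E (1 : K) < oz E (a ^ r) := by
    rw [oz_pow, oz_one]
    have : (1 : ℤ) ≤ r := by exact_mod_cast hr
    nlinarith
  have h2 := oz_add_of_lt E one_ne_zero (pow_ne_zero r ha) h1
  rw [oz_one] at h2
  exact h2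

private theorem appr_large (T : Finset (Place K)) (b : K) : ∃ r : ℕ, 1 ≤ r ∧ ∀ E ∈ T, -oz E b < r := by
  refine ⟨1 + ∑ E ∈ T, (oz E b).natAbs, by omega, fun E hE => ?_⟩
  have h1 : (oz E b).natAbs ≤ ∑ E ∈ T, (oz E b).natAbs :=
    Finset.single_le_sum (f := fun E : Place K => (oz E b).natAbs) (fun _ _ => Nat.zero_le _) hE
  have h2 : ((oz E b).natAbs : ℤ) ≤ ((∑ E ∈ T, (oz E b).natAbs : ℕ) : ℤ) := by exact_mod_cast h1
  have h3 : ((1 + ∑ E ∈ T, (oz E b).natAbs : ℕ) : ℤ) = 1 + ((∑ E ∈ T, (oz E b).natAbs : ℕ) : ℤ) := by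
    rw [Nat.cast_add, Nat.cast_one]
  rw [h3]
  omega

theorem exists_sep {E : Place K} (T : Finset (Place K)) (hT : E ∉ T) : ∃ s : K, s ≠ 0 ∧ oz E s < 0 ∧ ∀ E' ∈ T, 0 < oz E' s := by
  classical
  induction T using Finset.induction_on with
  | empty =>
    obtain ⟨t, ht0, ht⟩ := exists_uni E
    refine ⟨t⁻¹, inv_ne_zero ht0, by rw [oz_inv]; omega, fun E' hE' => absurd hE' (Finset.notMem_empty _)⟩
  | insert E'' T hE'' ih =>
    rw [Finset.mem_insert, not_or] at hT
    obtain ⟨a, ha0, ha1, ha2⟩ := ih hT.2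
    obtain ⟨b, hb0, hb1, hb2⟩ := appr_sep2 hT.1
    obtain ⟨r, hr1, hr⟩ := appr_large T b
    have hr1' : (1 : ℤ) ≤ r := by exact_mod_cast hr1
    rcases le_or_gt 0 (oz E'' a) with h | h
    · refine ⟨a ^ r * b, mul_ne_zero (pow_ne_zero _ ha0) hb0, ?_, ?_⟩
      · rw [oz_mul E (pow_ne_zero _ ha0) hb0, oz_pow]
        nlinarith
      · intro E' hE'
        rw [oz_mul E' (pow_ne_zero _ ha0) hb0, oz_pow]
        rcases Finset.mem_insert.1 hE' with rfl | hE'
        · nlinarith
        · have h1 := ha2 E' hE'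
          have h2 := hr E' hE'
          nlinarith
    · have h0 : (1 + a ^ r) ≠ 0 := (appr_one_add_neg hr1 ha1).1
      have h3 : b * a ^ r ≠ 0 := mul_ne_zero hb0 (pow_ne_zero _ ha0)
      refine ⟨b * a ^ r / (1 + a ^ r), div_ne_zero h3 h0, ?_, ?_⟩
      · rw [oz_div E h3 h0, oz_mul E hb0 (pow_ne_zero _ ha0), oz_pow, (appr_one_add_neg hr1 ha1).2]
        linarith
      · intro E' hE'
        rw [oz_div E' h3 h0, oz_mul E' hb0 (pow_ne_zero _ ha0), oz_pow]
        rcases Finset.mem_insert.1 hE' with rfl | hE'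
        · rw [(appr_one_add_neg hr1 h).2]
          linarith
        · have h1 := ha2 E' hE'
          have h2 := hr E' hE'
          rw [(appr_one_add_pos hr1 h1).2]
          nlinarith

private theorem appr_idem {E : Place K} (T : Finset (Place K)) (hT : E ∉ T) (n : ℕ) :
    ∃ e : K, ((n : ℤ) : WithTop ℤ) ≤ E.ord (e - 1) ∧ ∀ E' ∈ T, ((n : ℤ) : WithTop ℤ) ≤ E'.ord e := by
  obtain ⟨s, hs0, hs1, hs2⟩ := exists_sep T hT
  have hr : 1 ≤ n + 1 := by omega
  have h0 := appr_one_add_neg hr hs1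
  have hc : (((n + 1 : ℕ)) : ℤ) = n + 1 := by push_cast; ring
  refine ⟨s ^ (n + 1) / (1 + s ^ (n + 1)), ?_, ?_⟩
  · have h1 : s ^ (n + 1) / (1 + s ^ (n + 1)) - 1 = -(1 + s ^ (n + 1))⁻¹ := by
      have := h0.1
      field_simp
      ring
    rw [h1, le_ord_iff]
    right
    rw [oz_neg, oz_inv, h0.2, hc]
    nlinarith
  · intro E' hE'
    have h2 := hs2 E' hE'
    rw [le_ord_iff]
    right
    rw [oz_div E' (pow_ne_zero _ hs0) h0.1, oz_pow, (appr_one_add_pos hr h2).2, hc]
    nlinarith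

/-- weak approximation -/
theorem approx (T : Finset (Place K)) (g : Place K → K) (n : ℤ) : ∃ f : K, ∀ E ∈ T, (n : WithTop ℤ) ≤ E.ord (f - g E) := by
  classical
  let N : ℕ := n.natAbs + ∑ E ∈ T, ∑ E' ∈ T, (oz E' (g E)).natAbs
  have hN : ∀ E ∈ T, ∀ E' ∈ T, n - oz E' (g E) ≤ (N : ℤ) := by
    intro E hE E' hE'
    have h1 : (oz E' (g E)).natAbs ≤ ∑ E' ∈ T, (oz E' (g E)).natAbs :=
      Finset.single_le_sum (f := fun E' : Place K => (oz E' (g E)).natAbs) (fun _ _ => Nat.zero_le _) hE'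
    have h2 : ∑ E' ∈ T, (oz E' (g E)).natAbs ≤ ∑ E ∈ T, ∑ E' ∈ T, (oz E' (g E)).natAbs :=
      Finset.single_le_sum (f := fun E : Place K => ∑ E' ∈ T, (oz E' (g E)).natAbs) (fun _ _ => Nat.zero_le _) hE
    have h3 : n.natAbs + (oz E' (g E)).natAbs ≤ N := Nat.add_le_add_left (h1.trans h2) _
    omega
  have hex : ∀ E : Place K, ∃ e : K, ((N : ℤ) : WithTop ℤ) ≤ E.ord (e - 1) ∧
      ∀ E' ∈ T.erase E, ((N : ℤ) : WithTop ℤ) ≤ E'.ord e := fun E =>
    appr_idem (T.erase E) (Finset.notMem_erase E T) N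
  choose e he1 he2 using hex
  have hmul : ∀ E ∈ T, ∀ E' ∈ T, ∀ x : K, ((N : ℤ) : WithTop ℤ) ≤ E'.ord x →
      (n : WithTop ℤ) ≤ E'.ord (g E * x) := by
    intro E hE E' hE' x hx
    rw [le_ord_iff] at hx ⊢
    by_cases hg : g E = 0
    · left; rw [hg, zero_mul]
    · rcases hx with hx | hx
      · left; rw [hx, mul_zero]
      · by_cases hx0 : x = 0
        · left; rw [hx0, mul_zero]
        · right
          rw [oz_mul E' hg hx0]
          have := hN E hE E' hE'
          omega
  refine ⟨∑ E ∈ T, g E * e E, fun E' hE' => ?_⟩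
  have h1 : (∑ E ∈ T, g E * e E) - g E' = g E' * (e E' - 1) + ∑ E ∈ T.erase E', g E * e E := by
    rw [← Finset.add_sum_erase T (fun E => g E * e E) hE']
    ring
  rw [h1]
  refine le_trans (le_min (hmul E' hE' E' hE' _ (he1 E')) ?_) (E'.ord.map_add _ _)
  refine E'.ord.map_le_sum fun E hE => ?_
  exact hmul E (Finset.mem_of_mem_erase hE) E' hE' _
    (he2 E E' (Finset.mem_erase.2 ⟨(Finset.ne_of_mem_erase hE).symm, hE'⟩))

/-- functions with given orders at finitely many places -/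
theorem exists_orders (T : Finset (Place K)) (d : Place K → ℤ) (hT : T.Nonempty) : ∃ f : K, f ≠ 0 ∧ ∀ E ∈ T, oz E f = d E := by
  classical
  choose t ht0 ht using fun E : Place K => exists_uni E
  obtain ⟨f, hf⟩ := approx T (fun E => t E ^ d E) (1 + ∑ E ∈ T, ((d E).natAbs : ℤ))
  have key : ∀ E ∈ T, f ≠ 0 ∧ oz E f = d E := by
    intro E hE
    have h1 : ((d E).natAbs : ℤ) ≤ ∑ E ∈ T, ((d E).natAbs : ℤ) :=
      Finset.single_le_sum (f := fun E : Place K => ((d E).natAbs : ℤ)) (fun _ _ => by positivity) hE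
    have h2 := hf E hE
    rw [le_ord_iff] at h2
    have h3 : t E ^ d E ≠ 0 := zpow_ne_zero _ (ht0 E)
    have h4 : oz E (t E ^ d E) = d E := by rw [oz_zpow, ht, mul_one]
    rcases h2 with h2 | h2
    · have h5 : f = t E ^ d E := sub_eq_zero.1 h2
      rw [h5]
      exact ⟨h3, h4⟩
    · by_cases h6 : f - t E ^ d E = 0
      · have h5 : f = t E ^ d E := sub_eq_zero.1 h6
        rw [h5]
        exact ⟨h3, h4⟩
      · have h7 : oz E (t E ^ d E) < oz E (f - t E ^ d E) := by
          rw [h4]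
          omega
        have h8 := oz_add_of_lt E h3 h6 h7
        rw [add_sub_cancel, h4] at h8
        exact h8
  obtain ⟨E0, hE0⟩ := hT
  exact ⟨f, (key E0 hE0).1, fun E hE => (key E hE).2⟩

end Pool.Agent.H13.CV

end
end

section

/-!
# CV FinPl: finitely many places over `x = 0`

`sum_le`: let `e E = oz E x > 0` for `E ∈ T`.  By `exists_orders` (applied to `T`, with `d E = j` and `d E' = e E'` for `E' ≠ E`) there are functions `f E j`, `E ∈ T`, `j < e E`, with `oz E (f E j) = j`,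
`oz E' (f E j) = e E'` for `E' ∈ T`, `E' ≠ E`.  They are linearly independent over `L`: let `∑ c E j • f E j = 0`, not all `c E j = 0`.  For the `c E j ≠ 0` let `k E j` be as in `exists_zpow`, and let `k₀`
be the minimum of them; multiply by `x ^ (- k₀)`: so we may assume that `k₀ = 0`, all `k E j ≥ 0`.  Let `(E, j)` have `c E j ≠ 0`, `k E j = 0`, and `j` minimal for this `E`.  Look at the orders at `E`:
the term `(E, j)` has order `j < e E`; the terms `(E, i)` with `i ≠ j`, `c E i ≠ 0` have order `k E i * e E + i > j` (`i > j` or `k E i ≥ 1`); the terms `(E', i)`, `E' ≠ E`, have order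
`≥ e E > j`.  So the sum of the other terms has order `> j` (or is `0`) and the total sum has order `j`: contradiction.
The number of these functions is `∑ E ∈ T, e E`, so it is `≤ finrank L K` (`LinearIndependent.fintype_card_le_finrank`, index type a sigma type `Σ E : T, Fin (oz E x).toNat`, or a finset of pairs).

`finite_over`: otherwise there is a set `T` with more than `finrank L K` elements, and all `oz E x ≥ 1`.  `finite_poles`: if `f` has a pole then it is transcendental (`tr_of_pole`), apply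
`finite_over` to `f⁻¹` and `L = ℂ(f⁻¹)`.  `finite_supp`: the zeros of `f` are the poles of `f⁻¹`.
-/

set_option autoImplicit false

open Pool.Agent.H23.Fano (PrimeDivisorOver Form regularForms)

noncomputable section

namespace Pool.Agent.H13.CV

variable {K : Type} [Field K] [Algebra ℂ K] {L : IntermediateField ℂ K} {x : K}

/-- the order of a product with an element of `ℂ(x)` -/
private theorem finPl_ord (E : Place K) {a b : K} (ha : a ≠ 0) (hb : b ≠ 0) {m n : ℤ}
    (h1 : oz E a = m) (h2 : oz E b = n) : E.ord (a * b) = ((m + n : ℤ) : WithTop ℤ) := by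
  rw [← coe_oz E (mul_ne_zero ha hb), oz_mul E ha hb, h1, h2]

theorem sum_le (hL : Gen L x) [FiniteDimensional L K] (T : Finset (Place K)) (hT : ∀ E ∈ T, 0 < E.ord x) :
    ∑ E ∈ T, oz E x ≤ (Module.finrank L K : ℤ) := by
  classical
  have hx := hL.ne_zero
  have he : ∀ E ∈ T, 0 < oz E x := fun E hE => (pos_iff.1 (hT E hE)).resolve_left hx
  -- the functions
  have hf : ∀ i : (Σ E : {E // E ∈ T}, Fin (oz E.1 x).toNat), ∃ f : K, f ≠ 0 ∧
      oz i.1.1 f = ((i.2 : ℕ) : ℤ) ∧ ∀ E' ∈ T, E' ≠ i.1.1 → oz E' f = oz E' x := by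
    intro i
    obtain ⟨f, hf0, hf1⟩ := exists_orders T
      (fun E' => if E' = i.1.1 then ((i.2 : ℕ) : ℤ) else oz E' x) ⟨i.1.1, i.1.2⟩
    refine ⟨f, hf0, ?_, fun E' hE' hne => ?_⟩
    · rw [hf1 _ i.1.2, if_pos rfl]
    · rw [hf1 _ hE', if_neg hne]
  choose f hf0 hf1 hf2 using hf
  have hli : LinearIndependent L f := by
    rw [Fintype.linearIndependent_iff]
    intro c hc
    by_contra hcon
    push Not at hcon
    obtain ⟨i₁, hi₁⟩ := hcon
    -- the exponents
    have hk : ∀ i, ∃ k : ℤ, c i ≠ 0 → ∀ E : Place K, 0 < E.ord x →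
        oz E (c i : K) = k * oz E x := by
      intro i
      by_cases h : c i = 0
      · exact ⟨0, fun h1 => absurd h h1⟩
      · obtain ⟨k, hk⟩ := exists_zpow hL (c i).2 (fun h1 => h (Subtype.ext h1))
        exact ⟨k, fun _ => hk⟩
    choose k hk using hk
    set S : Finset (Σ E : {E // E ∈ T}, Fin (oz E.1 x).toNat) :=
      Finset.univ.filter fun i => c i ≠ 0 with hS
    have hS1 : S.Nonempty := ⟨i₁, by rw [hS, Finset.mem_filter]; exact ⟨Finset.mem_univ _, hi₁⟩⟩
    obtain ⟨i₂, hi₂, hmin₂⟩ := Finset.exists_min_image S k hS1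
    obtain ⟨i₀, hi₀, hmin₀⟩ := Finset.exists_min_image (S.filter fun i => k i = k i₂)
      (fun i => (i.2 : ℕ)) ⟨i₂, by rw [Finset.mem_filter]; exact ⟨hi₂, rfl⟩⟩
    rw [Finset.mem_filter] at hi₀
    obtain ⟨hi₀S, hk₀⟩ := hi₀
    have hc0 : c i₀ ≠ 0 := by
      rw [hS, Finset.mem_filter] at hi₀S
      exact hi₀S.2
    have hcK : ∀ i, c i ≠ 0 → (c i : K) ≠ 0 := fun i h h1 => h (Subtype.ext h1)
    have hE0 : 0 < i₀.1.1.ord x := hT _ i₀.1.2
    have hord0 : i₀.1.1.ord ((c i₀ : K) * f i₀) =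
        ((k i₀ * oz i₀.1.1 x + ((i₀.2 : ℕ) : ℤ) : ℤ) : WithTop ℤ) :=
      finPl_ord _ (hcK _ hc0) (hf0 _) (hk _ hc0 _ hE0) (hf1 _)
    have hj0 : ((i₀.2 : ℕ) : ℤ) < oz i₀.1.1 x := by
      have h1 := i₀.2.2
      omega
    have hothers : ∀ i ∈ Finset.univ.erase i₀,
        i₀.1.1.ord ((c i₀ : K) * f i₀) < i₀.1.1.ord ((c i : K) * f i) := by
      intro i hi
      rw [Finset.mem_erase] at hi
      by_cases hci : c i = 0
      · rw [hci, hord0]
        simp only [ZeroMemClass.coe_zero, zero_mul, AddValuation.map_zero]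
        exact WithTop.coe_lt_top _
      · have hiS : i ∈ S := by
          rw [hS, Finset.mem_filter]
          exact ⟨Finset.mem_univ _, hci⟩
        have hki : k i₀ ≤ k i := by
          rw [hk₀]
          exact hmin₂ i hiS
        have hepos := he _ i₀.1.2
        by_cases hEi : i.1 = i₀.1
        · obtain ⟨Ei, ji⟩ := i
          simp only at hEi
          subst hEi
          have h1 := finPl_ord i₀.1.1 (hcK _ hci) (hf0 _) (hk _ hci _ hE0)
            (hf1 (⟨i₀.1, ji⟩ : Σ E : {E // E ∈ T}, Fin (oz E.1 x).toNat))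
          rw [hord0, h1, WithTop.coe_lt_coe]
          simp only
          rcases lt_or_eq_of_le hki with h2 | h2
          · have h3 : (k i₀ + 1) * oz i₀.1.1 x ≤ k ⟨i₀.1, ji⟩ * oz i₀.1.1 x :=
              mul_le_mul_of_nonneg_right (by omega) hepos.le
            have h4 : (k i₀ + 1) * oz i₀.1.1 x = k i₀ * oz i₀.1.1 x + oz i₀.1.1 x := by ring
            have h5 : (0 : ℤ) ≤ ((ji : ℕ) : ℤ) := Int.natCast_nonneg _
            linarith
          · have h3 := hmin₀ ⟨i₀.1, ji⟩ (by
              rw [Finset.mem_filter]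
              exact ⟨hiS, by rw [← h2, hk₀]⟩)
            simp only at h3
            have h4 : (i₀.2 : ℕ) ≠ (ji : ℕ) := by
              intro h5
              apply hi.1
              have h6 : ji = i₀.2 := Fin.ext h5.symm
              rw [h6]
            have h5 : (i₀.2 : ℕ) < (ji : ℕ) := lt_of_le_of_ne h3 h4
            have h6 : ((i₀.2 : ℕ) : ℤ) < ((ji : ℕ) : ℤ) := by exact_mod_cast h5
            rw [← h2]
            linarith
        · have hne : i₀.1.1 ≠ i.1.1 := fun h => hEi (Subtype.ext h.symm)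
          have h1 := finPl_ord i₀.1.1 (hcK _ hci) (hf0 i) (hk _ hci _ hE0)
            (hf2 i _ i₀.1.2 hne)
          rw [hord0, h1, WithTop.coe_lt_coe]
          have h3 : k i₀ * oz i₀.1.1 x ≤ k i * oz i₀.1.1 x :=
            mul_le_mul_of_nonneg_right hki hepos.le
          linarith
    have hg : i₀.1.1.ord ((c i₀ : K) * f i₀) ≠ ⊤ := by
      rw [hord0]
      exact WithTop.coe_ne_top
    have hlt := AddValuation.map_lt_sum (v := i₀.1.1.ord) hg hothers
    have hsum : (c i₀ : K) * f i₀ + ∑ i ∈ Finset.univ.erase i₀, (c i : K) * f i = 0 := by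
      rw [Finset.add_sum_erase _ (fun i => (c i : K) * f i) (Finset.mem_univ i₀)]
      exact hc
    have hneg : ∑ i ∈ Finset.univ.erase i₀, (c i : K) * f i = -((c i₀ : K) * f i₀) :=
      eq_neg_of_add_eq_zero_right hsum
    rw [hneg, AddValuation.map_neg] at hlt
    exact lt_irrefl _ hlt
  have hcard := hli.fintype_card_le_finrank
  rw [Fintype.card_sigma] at hcard
  simp only [Fintype.card_fin] at hcard
  have h1 : ∑ E ∈ T, oz E x = ((∑ E : {E // E ∈ T}, (oz E.1 x).toNat : ℕ) : ℤ) := by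
    rw [Nat.cast_sum, ← Finset.sum_coe_sort T (fun E => oz E x)]
    refine Finset.sum_congr rfl fun E _ => ?_
    rw [Int.toNat_of_nonneg (he E.1 E.2).le]
  rw [h1]
  exact_mod_cast hcard

theorem finite_over (hL : Gen L x) [FiniteDimensional L K] : {E : Place K | 0 < E.ord x}.Finite := by
  by_contra hinf
  obtain ⟨T, hT, hcard⟩ := (Set.not_finite.1 hinf).exists_subset_card_eq (Module.finrank L K + 1)
  have h1 := sum_le hL T (fun E hE => hT hE)
  have hx := hL.ne_zero
  have h2 : ∀ E ∈ T, (1 : ℤ) ≤ oz E x := fun E hE => (pos_iff.1 (hT hE)).resolve_left hx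
  have h3 := Finset.sum_le_sum h2
  rw [Finset.sum_const, nsmul_eq_mul, mul_one, hcard] at h3
  push_cast at h3
  linarith

theorem finite_poles (hK : CurveField K) (f : K) : {E : Place K | E.ord f < 0}.Finite := by
  by_cases hne : ∃ E : Place K, E.ord f < 0
  · obtain ⟨E, hE⟩ := hne
    have htr := tr_of_pole hE
    have hL : Gen (IntermediateField.adjoin ℂ {f}) f := ⟨htr, rfl⟩
    have hfd : FiniteDimensional (IntermediateField.adjoin ℂ {f}) K := hK.fin f htr
    have h1 := finite_over hL.inv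
    refine h1.subset fun E' hE' => ?_
    exact (inv_pos_iff hL.ne_zero).2 hE'
  · push Not at hne
    have h1 : {E : Place K | E.ord f < 0} = ∅ :=
      Set.eq_empty_of_forall_notMem fun E hE => absurd hE (not_lt.2 (hne E))
    rw [h1]
    exact Set.finite_empty

end Pool.Agent.H13.CV

end
end

section

/-!
# CV Loc: bases over the local ring

`AffB.sub_const`: `0 ≤ ord (x - a) ↔ 0 ≤ ord x` and `Algebra.adjoin ℂ {x - a} = Algebra.adjoin ℂ {x}`.
`AffB.locB`: (⇐) `w i` is `RegAff x` (its coordinates are `0` and `1`), so `RegLoc x`; `f = ∑ (w.repr f i) * w i`.  (⇒) Let `RegLoc x f`.  The places with `0 ≤ ord x`, `ord f < 0` are finitely many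
(`finite_poles`), say `E₁, …, E_k`; the value `a_j` of `x` at `E_j` (`exists_value`) is not `0` (otherwise `0 < ord x` and `f` is regular).  Let `q = ∏ (X - a_j) ^ m` with `m ≥ - oz E_j f` for all
`j`; `q.eval 0 ≠ 0`, and `q (x) * f` is `RegAff x` (at `E_j` the factor `(x - a_j) ^ m` has order `≥ m`, the other factors are regular).  So its coordinates `q (x) * (w.repr f i)` are
in `ℂ[x]`, and `w.repr f i = p_i (x) / q (x)` is `RegLoc x` (`regLoc_div`).
-/

set_option autoImplicit false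

open Pool.Agent.H23.Fano (PrimeDivisorOver Form regularForms)

noncomputable section

namespace Pool.Agent.H13.CV

variable {K : Type} [Field K] [Algebra ℂ K] {L : IntermediateField ℂ K} {x : K} {n : ℕ}

theorem loc_repr (w : Module.Basis (Fin n) L K) (i j : Fin n) : (w.repr (w i) j : L) = 0 ∨ (w.repr (w i) j : L) = 1 := by
  classical
  rw [w.repr_self, Finsupp.single_apply]
  split_ifs
  · exact Or.inr rfl
  · exact Or.inl rfl

theorem AffB.basis_regAff {w : Module.Basis (Fin n) L K} (hw : AffB x w) (i : Fin n) : RegAff x (w i) := by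
  refine (hw (w i)).2 fun j => ?_
  rcases loc_repr w i j with h | h
  · rw [h]
    exact zero_mem _
  · rw [h]
    exact one_mem _

theorem AffB.sub_const (hL : Gen L x) {w : Module.Basis (Fin n) L K} (hw : AffB x w) (a : ℂ) : AffB (x - algebraMap ℂ K a) w := by
  have h1 : Algebra.adjoin ℂ {x - algebraMap ℂ K a} = Algebra.adjoin ℂ {x} := by
    apply le_antisymm
    · rw [Algebra.adjoin_le_iff, Set.singleton_subset_iff]
      exact sub_mem (Algebra.self_mem_adjoin_singleton ℂ x) (Subalgebra.algebraMap_mem _ a)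
    · rw [Algebra.adjoin_le_iff, Set.singleton_subset_iff]
      have h2 : x - algebraMap ℂ K a + algebraMap ℂ K a ∈ Algebra.adjoin ℂ {x - algebraMap ℂ K a} :=
        add_mem (Algebra.self_mem_adjoin_singleton ℂ _) (Subalgebra.algebraMap_mem _ a)
      rw [sub_add_cancel] at h2
      exact h2
  have h3 : ∀ E : Place K, 0 ≤ E.ord (x - algebraMap ℂ K a) ↔ 0 ≤ E.ord x := by
    intro E
    constructor
    · intro h
      have h4 := nonneg_add h (const_nonneg E a)
      rw [sub_add_cancel] at h4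
      exact h4
    · exact fun h => nonneg_sub h (const_nonneg E a)
  intro f
  rw [h1, ← hw f]
  unfold RegAff
  simp only [h3]

theorem AffB.locB (hK : CurveField K) (hL : Gen L x) {w : Module.Basis (Fin n) L K} (hw : AffB x w) : LocB x w := by
  classical
  intro f
  constructor
  · intro hf i
    have hfin := finite_poles hK f
    set T : Finset (Place K) := hfin.toFinset.filter (fun E => 0 ≤ E.ord x) with hT
    have hTm : ∀ E : Place K, E ∈ T ↔ E.ord f < 0 ∧ 0 ≤ E.ord x := by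
      intro E
      rw [hT, Finset.mem_filter, Set.Finite.mem_toFinset, Set.mem_ofPred_eq]
    have hne : ∀ E ∈ T, res E x ≠ 0 := by
      intro E hE h0
      obtain ⟨h1, h2⟩ := (hTm E).1 hE
      have h3 := res_spec hK h2
      rw [h0, map_zero, sub_zero] at h3
      exact absurd (hf E h3) (not_le.mpr h1)
    set m : ℕ := ∑ E ∈ T, (-oz E f).toNat with hm
    have hmE : ∀ E ∈ T, 0 ≤ (m : ℤ) + oz E f := by
      intro E hE
      have h1 : (-oz E f).toNat ≤ m := Finset.single_le_sum (f := fun E => (-oz E f).toNat) (fun _ _ => Nat.zero_le _) hE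
      have h2 : -oz E f ≤ ((-oz E f).toNat : ℤ) := Int.self_le_toNat _
      have h3 : ((-oz E f).toNat : ℤ) ≤ m := by exact_mod_cast h1
      linarith
    set q : Polynomial ℂ := ∏ E ∈ T, (Polynomial.X - Polynomial.C (res E x)) ^ m with hq
    have hq0 : q.eval 0 ≠ 0 := by
      rw [hq, Polynomial.eval_prod]
      refine Finset.prod_ne_zero_iff.2 fun E hE => ?_
      rw [Polynomial.eval_pow, Polynomial.eval_sub, Polynomial.eval_X, Polynomial.eval_C, zero_sub]
      exact pow_ne_zero _ (neg_ne_zero.2 (hne E hE))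
    have hqne : q ≠ 0 := by
      intro h
      rw [h, Polynomial.eval_zero] at hq0
      exact hq0 rfl
    have hqx : Polynomial.aeval x q ≠ 0 := by
      intro h
      exact hL.tr ⟨q, hqne, h⟩
    have hreg : RegAff x (Polynomial.aeval x q * f) := by
      intro E hE
      by_cases hfE : 0 ≤ E.ord f
      · exact nonneg_mul (nonneg_aeval hE q) hfE
      · rw [not_le] at hfE
        have hET : E ∈ T := (hTm E).2 ⟨hfE, hE⟩
        have h1 : q = (Polynomial.X - Polynomial.C (res E x)) ^ m *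
            ∏ E' ∈ T.erase E, (Polynomial.X - Polynomial.C (res E' x)) ^ m := by
          rw [hq]
          exact (Finset.mul_prod_erase T (fun E' => (Polynomial.X - Polynomial.C (res E' x)) ^ m) hET).symm
        have h2 : Polynomial.aeval x q * f =
            Polynomial.aeval x (∏ E' ∈ T.erase E, (Polynomial.X - Polynomial.C (res E' x)) ^ m) *
              ((x - algebraMap ℂ K (res E x)) ^ m * f) := by
          rw [h1, map_mul, map_pow, map_sub, Polynomial.aeval_X, Polynomial.aeval_C]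
          ring
        rw [h2]
        refine nonneg_mul (nonneg_aeval hE _) ?_
        have hf0 : f ≠ 0 := by
          rintro rfl
          rw [E.ord.map_zero] at hfE
          exact absurd hfE not_top_lt
        have hx0 : x - algebraMap ℂ K (res E x) ≠ 0 := by
          intro h
          refine hL.tr ⟨Polynomial.X - Polynomial.C (res E x), Polynomial.X_sub_C_ne_zero _, ?_⟩
          rw [map_sub, Polynomial.aeval_X, Polynomial.aeval_C]
          exact h
        have h3 : 1 ≤ oz E (x - algebraMap ℂ K (res E x)) := by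
          rcases pos_iff.1 (res_spec hK hE) with h4 | h4
          · exact absurd h4 hx0
          · omega
        refine nonneg_iff.2 (Or.inr ?_)
        rw [oz_mul E (pow_ne_zero _ hx0) hf0, oz_pow]
        have h5 := hmE E hET
        nlinarith
    have hmem := (hw _).1 hreg i
    have hqL : Polynomial.aeval x q ∈ L := poly_le_L hL (mem_poly_iff.2 ⟨q, rfl⟩)
    have h6 : Polynomial.aeval x q * f = (⟨Polynomial.aeval x q, hqL⟩ : L) • f := rfl
    rw [h6, map_smul, Finsupp.smul_apply, smul_eq_mul] at hmem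
    obtain ⟨p, hp⟩ := mem_poly_iff.1 hmem
    have h7 : (((⟨Polynomial.aeval x q, hqL⟩ : L) * w.repr f i : L) : K) = Polynomial.aeval x q * ((w.repr f i : L) : K) := rfl
    rw [h7] at hp
    have h8 : ((w.repr f i : L) : K) = Polynomial.aeval x p / Polynomial.aeval x q := by
      rw [eq_div_iff hqx, mul_comm]
      exact hp
    rw [h8]
    exact regLoc_div hq0
  · intro h E hE
    have h1 : f = ∑ i, ((w.repr f i : L) : K) * w i := by
      conv_lhs => rw [← w.sum_repr f]
      exact Finset.sum_congr rfl fun i _ => rfl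
    rw [h1]
    exact nonneg_sum fun i _ => nonneg_mul (h i E hE) (hw.basis_regAff i E hE.le)

theorem exists_locB (hK : CurveField K) (hL : Gen L x) [FiniteDimensional L K] :
    ∃ w : Module.Basis (Fin (Module.finrank L K)) L K, LocB x w := by
  obtain ⟨w, hw⟩ := exists_affB hL
  exact ⟨w, hw.locB hK hL⟩

theorem LocB.basis_regLoc {w : Module.Basis (Fin n) L K} (hw : LocB x w) (i : Fin n) : RegLoc x (w i) := by
  refine (hw (w i)).2 fun j E _ => ?_
  rcases loc_repr w i j with h | h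
  · rw [h]
    have h1 := E.ord.map_zero
    show 0 ≤ E.ord ((0 : L) : K)
    rw [ZeroMemClass.coe_zero, h1]
    exact le_top
  · rw [h]
    show 0 ≤ E.ord ((1 : L) : K)
    rw [OneMemClass.coe_one, E.ord.map_one]

end Pool.Agent.H13.CV

end
end

section

/-!
# CV BirkB: a basis with minimal pole orders at infinity

`exists_bound`: the places with `ord x < 0` are finitely many (`finite_over` for `x⁻¹`, `Gen.inv`); `a ≥ - oz E f` for all of them.
`exists_min`: for every basis `w` with `AffB x w` (one exists: `exists_affB`) let `a i` be the least `a : ℕ` with `RegLoc x⁻¹ ((x⁻¹) ^ a * w i)` (`Nat.find`, `exists_bound`); choose `w` with `∑ a i`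
minimal (`Nat.find` or well-foundedness).  Claim: if `∑ i, γ i • ((x⁻¹) ^ a i * w i) = x⁻¹ * g` with `RegLoc x⁻¹ g`, `γ i : ℂ`, then all `γ i = 0`.  Suppose not; let `i₀` with `γ i₀ ≠ 0` and `a i₀`
maximal among the `a i` with `γ i ≠ 0`.  Let `c i = γ i • x ^ (a i₀ - a i)` if `γ i ≠ 0`, and `0` otherwise; `c i₀ = γ i₀`.  Multiplying by `x ^ a i₀`: `w₀' = ∑ c i * w i = x ^ (a i₀) * x⁻¹ * g`.
`AffB.replace` gives a basis `w'` with `w' i₀ = w₀'`.  If `1 ≤ a i₀` then `(x⁻¹) ^ (a i₀ - 1) * w₀' = g` is `RegLoc x⁻¹`, so the sum for `w'` is smaller: contradiction.  If `a i₀ = 0`, then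
`w₀' = x⁻¹ * g` is regular over `x = ∞`, with positive order there, and it is `RegAff x` (`AffB.basis_regAff` for `w'`); so it has no poles, and it has a zero at a place over `x = ∞` (`exists_place_inf`), so
`w₀' = 0` (`zero_of_no_pole`): contradiction, as it is an element of a basis.
-/

set_option autoImplicit false

open Pool.Agent.H23.Fano (PrimeDivisorOver Form regularForms)

noncomputable section

namespace Pool.Agent.H13.CV

variable {K : Type} [Field K] [Algebra ℂ K] {L : IntermediateField ℂ K} {x : K} {n : ℕ}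

theorem exists_bound (hL : Gen L x) [FiniteDimensional L K] (f : K) : ∃ a : ℕ, RegLoc x⁻¹ ((x⁻¹) ^ a * f) := by
  classical
  have hx := hL.ne_zero
  have hfin := finite_over (Gen.inv hL)
  rcases eq_or_ne f 0 with rfl | hf
  · refine ⟨0, fun E _ => ?_⟩
    rw [mul_zero, E.ord.map_zero]
    exact le_top
  refine ⟨∑ E ∈ hfin.toFinset, (-oz E f).toNat, fun E hE => ?_⟩
  rw [nonneg_iff]
  right
  rw [oz_mul E (pow_ne_zero _ (inv_ne_zero hx)) hf, oz_pow]
  have h1 : 0 < oz E x⁻¹ := by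
    rcases pos_iff.mp hE with h | h
    · exact absurd h (inv_ne_zero hx)
    · exact h
  have h2 : (-oz E f).toNat ≤ ∑ E ∈ hfin.toFinset, (-oz E f).toNat :=
    Finset.single_le_sum (f := fun E => (-oz E f).toNat) (fun _ _ => Nat.zero_le _) (hfin.mem_toFinset.mpr hE)
  have h3 : -oz E f ≤ ((∑ E ∈ hfin.toFinset, (-oz E f).toNat : ℕ) : ℤ) :=
    (Int.self_le_toNat _).trans (by exact_mod_cast h2)
  have h4 : (0 : ℤ) ≤ ((∑ E ∈ hfin.toFinset, (-oz E f).toNat : ℕ) : ℤ) := Int.natCast_nonneg _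
  generalize ((∑ E ∈ hfin.toFinset, (-oz E f).toNat : ℕ) : ℤ) = s at h3 h4 ⊢
  nlinarith

theorem exists_min (hK : CurveField K) (hL : Gen L x) [FiniteDimensional L K] :
    ∃ (w : Module.Basis (Fin (Module.finrank L K)) L K) (a : Fin (Module.finrank L K) → ℕ), AffB x w ∧ (∀ i, RegLoc x⁻¹ ((x⁻¹) ^ a i * w i)) ∧
      ∀ (γ : Fin (Module.finrank L K) → ℂ) (g : K), RegLoc x⁻¹ g → ∑ i, γ i • ((x⁻¹) ^ a i * w i) = x⁻¹ * g → ∀ i, γ i = 0 := by
  classical
  have hx := hL.ne_zero
  have hP : ∃ s : ℕ, ∃ (w : Module.Basis (Fin (Module.finrank L K)) L K) (a : Fin (Module.finrank L K) → ℕ),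
      AffB x w ∧ (∀ i, RegLoc x⁻¹ ((x⁻¹) ^ a i * w i)) ∧ ∑ i, a i = s := by
    obtain ⟨w, hw⟩ := exists_affB hL
    choose a ha using fun i => exists_bound hL (w i)
    exact ⟨_, w, a, hw, ha, rfl⟩
  obtain ⟨w, a, hw, ha, hs⟩ := Nat.find_spec hP
  have hmin : ∀ (w' : Module.Basis (Fin (Module.finrank L K)) L K) (a' : Fin (Module.finrank L K) → ℕ), AffB x w' →
      (∀ i, RegLoc x⁻¹ ((x⁻¹) ^ a' i * w' i)) → ∑ i, a i ≤ ∑ i, a' i := by
    intro w' a' h1 h2
    rw [hs]
    exact Nat.find_min' hP ⟨w', a', h1, h2, rfl⟩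
  refine ⟨w, a, hw, ha, fun γ g hg hsum => ?_⟩
  by_contra hcon
  push Not at hcon
  obtain ⟨i₁, hi₁⟩ := hcon
  obtain ⟨i₀, hi₀, hmax⟩ := Finset.exists_max_image (Finset.univ.filter fun i => γ i ≠ 0) a
    ⟨i₁, Finset.mem_filter.mpr ⟨Finset.mem_univ _, hi₁⟩⟩
  have hγ : γ i₀ ≠ 0 := (Finset.mem_filter.mp hi₀).2
  have hmax' : ∀ i, γ i ≠ 0 → a i ≤ a i₀ := fun i hi => hmax i (Finset.mem_filter.mpr ⟨Finset.mem_univ _, hi⟩)
  have hxm : x ∈ Algebra.adjoin ℂ {x} := Algebra.subset_adjoin rfl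
  obtain ⟨w', hw', hw0, hwi⟩ := AffB.replace hL hw i₀ (fun i => γ i • x ^ (a i₀ - a i))
    (fun i => Subalgebra.smul_mem _ (Subalgebra.pow_mem _ hxm _) _) hγ
    (by simp [Algebra.smul_def])
  have hkey : w' i₀ = x ^ (a i₀) * (x⁻¹ * g) := by
    rw [hw0, ← hsum, Finset.mul_sum]
    refine Finset.sum_congr rfl fun i _ => ?_
    rcases eq_or_ne (γ i) 0 with h | h
    · simp [h]
    · have h1 : x ^ (a i₀ - a i) = x ^ a i₀ * (x⁻¹) ^ a i := by
        rw [inv_pow, pow_sub₀ x hx (hmax' i h)]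
      rw [h1]
      simp only [Algebra.smul_def]
      ring
  rcases Nat.eq_zero_or_pos (a i₀) with h0 | h0
  · -- no poles and a zero
    rw [h0, pow_zero, one_mul] at hkey
    have h1 : ∀ E : Place K, 0 ≤ E.ord (w' i₀) := by
      intro E
      rcases le_or_gt 0 (E.ord x) with h | h
      · exact hw'.basis_regAff i₀ E h
      · rw [hkey]
        have h2 : 0 < E.ord x⁻¹ := (inv_pos_iff hx).mpr h
        exact (pos_mul h2 (hg E h2)).le
    obtain ⟨E, hE⟩ := exists_place_inf hK hL.tr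
    have h2 : 0 < E.ord x⁻¹ := (inv_pos_iff hx).mpr hE
    have h3 : w' i₀ = 0 := zero_of_no_pole hK h1 ⟨E, by rw [hkey]; exact pos_mul h2 (hg E h2)⟩
    exact w'.ne_zero i₀ h3
  · have h1 := hmin w' (Function.update a i₀ (a i₀ - 1)) hw' (fun i => by
      rcases eq_or_ne i i₀ with rfl | hi
      · rw [Function.update_self, hkey]
        have h2 : (x⁻¹) ^ (a i - 1) * (x ^ a i * (x⁻¹ * g)) = g := by
          obtain ⟨k, hk⟩ : ∃ k, a i = k + 1 := ⟨a i - 1, by omega⟩
          rw [hk, Nat.add_sub_cancel, pow_succ]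
          have h3 : (x⁻¹) ^ k * x ^ k = 1 := by rw [inv_pow]; exact inv_mul_cancel₀ (pow_ne_zero _ hx)
          calc (x⁻¹) ^ k * (x ^ k * x * (x⁻¹ * g)) = ((x⁻¹) ^ k * x ^ k) * (x * x⁻¹) * g := by ring
            _ = g := by rw [h3, mul_inv_cancel₀ hx, one_mul, one_mul]
        rw [h2]
        exact hg
      · rw [Function.update_of_ne hi, hwi i hi]
        exact ha i)
    have h2 : ∑ i, Function.update a i₀ (a i₀ - 1) i < ∑ i, a i := by
      refine Finset.sum_lt_sum (fun i _ => ?_) ⟨i₀, Finset.mem_univ _, ?_⟩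
      · rcases eq_or_ne i i₀ with rfl | hi
        · rw [Function.update_self]
          omega
        · rw [Function.update_of_ne hi]
      · rw [Function.update_self]
        omega
    omega

end Pool.Agent.H13.CV

end
end

section

/-!
# CV BirkC: Birkhoff bases

`exists_birk`: `w, a` as in `exists_min`; claim: `Birk x w a`.  Let `y = x⁻¹` (`Gen L y`, there is a place over `y = 0`).  (⇐ of `inf`) `f = ∑ (x ^ a i * r i) * (y ^ a i * w i)`, `r i = w.repr f i`.
(⇒ of `inf`) Let `RegLoc y f`, `s i = x ^ a i * r i ∈ L`, `f = ∑ s i * (y ^ a i * w i)`.  By `exists_zpow` (for `y`): for the `s i ≠ 0`: `oz E (s i) = k i * oz E y` for all `E` over `y = 0`.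
Suppose that not all `s i` are `RegLoc y`; so some `k i < 0`; let `k₀ < 0` be the least of the `k i` (`s i ≠ 0`).  `s' i = y ^ (-k₀) * s i` is `RegLoc y` for all `i`, in `L`, and for an `i₁` with
`k i₁ = k₀` it has order `0` at the places over `y = 0`.  `∑ s' i * (y ^ a i * w i) = y ^ (-k₀) * f = y * (y ^ (-k₀ - 1) * f)`.  By `exists_residue`: `s' i = γ i + y * s'' i`, with `RegLoc y (s'' i)`; so
`∑ γ i • (y ^ a i * w i) = y * g` with `g = y ^ (-k₀ - 1) * f - ∑ s'' i * (y ^ a i * w i)`, `RegLoc y g`.  So all `γ i = 0` by `exists_min`; but `s' i₁ = y * s'' i₁` has positive order at a place over `y = 0`: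
contradiction.

`Birk.exists_zero`: `1 = ∑ r i * w i` is `RegAff x` and `RegLoc x⁻¹`, so `r i ∈ ℂ[x]` and `RegLoc x⁻¹ (x ^ a i * r i)`; by `poly_inf`, `r i = 0` if `1 ≤ a i`; as `1 ≠ 0` there is `i₀` with `a i₀ = 0`.
If `a i = 0` then `w i` is `RegAff x` and (its coordinates are `0` and `1`) `RegLoc x⁻¹`; so it has no poles and is a constant.  Two different elements of the basis are not both constants (linearly
independent over `L ∋` constants).
`Birk.pole`: `(x⁻¹) ^ a i * w i` is `RegLoc x⁻¹`: its `i`-th coordinate times `x ^ a i` is `1`.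
-/

set_option autoImplicit false

open Pool.Agent.H23.Fano (PrimeDivisorOver Form regularForms)

noncomputable section

namespace Pool.Agent.H13.CV

variable {K : Type} [Field K] [Algebra ℂ K] {L : IntermediateField ℂ K} {x : K} {n : ℕ}

private theorem BC_sum (w : Module.Basis (Fin n) L K) (f : K) : f = ∑ i, ((w.repr f i : L) : K) * w i := by
  conv_lhs => rw [← w.sum_repr f]
  rfl

private theorem BC_zero (y : K) : RegLoc y (0 : K) := fun E _ => by
  rw [E.ord.map_zero]
  exact le_top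

private theorem BC_one (y : K) : RegLoc y (1 : K) := fun E _ => by
  rw [E.ord.map_one]

private theorem BC_mul {y f g : K} (hf : RegLoc y f) (hg : RegLoc y g) : RegLoc y (f * g) :=
  fun E hE => nonneg_mul (hf E hE) (hg E hE)

private theorem BC_pow (y : K) (k : ℕ) : RegLoc y (y ^ k) := fun _ hE => nonneg_pow hE.le k

private theorem BC_step (hL : Gen L x) (hex : ∃ E : Place K, 0 < E.ord x⁻¹) {b : Fin n → K}
    (hb : ∀ i, RegLoc x⁻¹ (b i))
    (hmin : ∀ (γ : Fin n → ℂ) (g : K), RegLoc x⁻¹ g → ∑ i, γ i • b i = x⁻¹ * g → ∀ i, γ i = 0) (m : ℕ) :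
    ∀ s : Fin n → K, (∀ i, s i ∈ L) → (∀ i, RegLoc x⁻¹ ((x⁻¹) ^ m * s i)) → RegLoc x⁻¹ (∑ i, s i * b i) →
      ∀ i, RegLoc x⁻¹ (s i) := by
  have hx : x⁻¹ ≠ 0 := inv_ne_zero hL.ne_zero
  have hxL : x⁻¹ ∈ L := L.inv_mem hL.mem
  induction m with
  | zero =>
    intro s _ h _ i
    simpa using h i
  | succ m ih =>
    intro s hsL hs hF
    refine ih s hsL (fun i => ?_) hF
    have hres := fun i => exists_residue hL.inv hex (L.mul_mem (pow_mem hxL (m + 1)) (hsL i)) (hs i)
    choose γ s' hs'L hs' heq using hres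
    have h1 : ∑ i, γ i • b i = x⁻¹ * ((x⁻¹) ^ m * (∑ i, s i * b i) - ∑ i, s' i * b i) := by
      have h2 : ∑ i, γ i • b i = ∑ i, ((x⁻¹) ^ (m + 1) * s i - x⁻¹ * s' i) * b i := by
        refine Finset.sum_congr rfl fun i _ => ?_
        rw [heq i, Algebra.smul_def]
        ring
      rw [h2, mul_sub, Finset.mul_sum, Finset.mul_sum, Finset.mul_sum, ← Finset.sum_sub_distrib]
      refine Finset.sum_congr rfl fun i _ => ?_
      ring
    have h3 := hmin γ _ (fun E hE => nonneg_sub (nonneg_mul (nonneg_pow hE.le m) (hF E hE))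
      (nonneg_sum fun i _ => nonneg_mul (hs' i E hE) (hb i E hE))) h1 i
    have h4 : (x⁻¹) ^ m * s i = s' i := by
      have h5 := heq i
      rw [h3, map_zero, zero_add] at h5
      refine mul_left_cancel₀ hx ?_
      rw [← h5]
      ring
    rw [h4]
    exact hs' i

theorem exists_birk (hK : CurveField K) (hL : Gen L x) [FiniteDimensional L K] :
    ∃ (w : Module.Basis (Fin (Module.finrank L K)) L K) (a : Fin (Module.finrank L K) → ℕ), Birk x w a := by
  obtain ⟨w, a, hA, hreg, hmin⟩ := exists_min hK hL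
  refine ⟨w, a, hA, fun f => ?_⟩
  have hx0 : x ≠ 0 := hL.ne_zero
  have hsum : f = ∑ i, (x ^ a i * ((w.repr f i : L) : K)) * ((x⁻¹) ^ a i * w i) := by
    conv_lhs => rw [BC_sum w f]
    refine Finset.sum_congr rfl fun i _ => ?_
    have h1 : x ^ a i * (x⁻¹) ^ a i = 1 := by rw [← mul_pow, mul_inv_cancel₀ hx0, one_pow]
    calc ((w.repr f i : L) : K) * w i = (x ^ a i * (x⁻¹) ^ a i) * (((w.repr f i : L) : K) * w i) := by
          rw [h1, one_mul]
      _ = _ := by ring
  constructor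
  · intro hf
    have hL' : ∀ i, x ^ a i * ((w.repr f i : L) : K) ∈ L := fun i =>
      L.mul_mem (pow_mem hL.mem _) (w.repr f i).2
    have hb := fun i => exists_bound hL (x ^ a i * ((w.repr f i : L) : K))
    choose m hm using hb
    refine BC_step hL (exists_place_over hK hL.inv.tr) hreg hmin (Finset.univ.sup m) _ hL' (fun i => ?_) ?_
    · have h1 : m i ≤ Finset.univ.sup m := Finset.le_sup (Finset.mem_univ i)
      have h2 := BC_mul (BC_pow x⁻¹ (Finset.univ.sup m - m i)) (hm i)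
      rwa [← mul_assoc, ← pow_add, Nat.sub_add_cancel h1] at h2
    · rw [← hsum]
      exact hf
  · intro h E hE
    rw [hsum]
    exact nonneg_sum fun i _ => nonneg_mul (h i E hE) (hreg i E hE)

private theorem BC_pole (hL : Gen L x) {w : Module.Basis (Fin n) L K} {a : Fin n → ℕ} (hw : Birk x w a)
    (i : Fin n) : RegLoc x⁻¹ ((x⁻¹) ^ a i * w i) := by
  have hx0 : x ≠ 0 := hL.ne_zero
  have hxL : x⁻¹ ∈ L := L.inv_mem hL.mem
  refine (hw.inf _).2 fun j => ?_
  have h1 : (x⁻¹) ^ a i * w i = (⟨x⁻¹, hxL⟩ ^ a i : L) • w i := rfl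
  rw [h1, map_smul, w.repr_self, Finsupp.smul_apply, Finsupp.single_apply]
  by_cases hij : i = j
  · subst hij
    rw [if_pos rfl, smul_eq_mul, mul_one]
    have h2 : x ^ a i * (((⟨x⁻¹, hxL⟩ ^ a i : L)) : K) = 1 := by
      show x ^ a i * (x⁻¹) ^ a i = 1
      rw [← mul_pow, mul_inv_cancel₀ hx0, one_pow]
    rw [h2]
    exact BC_one _
  · rw [if_neg hij, smul_zero]
    have h2 : x ^ a j * ((0 : L) : K) = 0 := by
      rw [ZeroMemClass.coe_zero, mul_zero]
    rw [h2]
    exact BC_zero _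

theorem Birk.exists_zero (hK : CurveField K) (hL : Gen L x) {w : Module.Basis (Fin n) L K} {a : Fin n → ℕ} (hw : Birk x w a) :
    ∃ i₀, a i₀ = 0 ∧ ∀ i, i ≠ i₀ → 1 ≤ a i := by
  have hinf := exists_place_inf hK hL.tr
  have h1 : ∃ i₀, a i₀ = 0 := by
    by_contra hcon
    push Not at hcon
    have haff := (hw.aff 1).1 fun E _ => by rw [E.ord.map_one]
    have hloc := (hw.inf 1).1 (BC_one _)
    have h2 : (1 : K) = 0 := by
      rw [BC_sum w 1]
      refine Finset.sum_eq_zero fun i _ => ?_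
      rw [(poly_inf hL hinf (haff i) (hloc i)).1 (Nat.one_le_iff_ne_zero.2 (hcon i)), zero_mul]
    exact one_ne_zero h2
  obtain ⟨i₀, hi₀⟩ := h1
  have hconst : ∀ j, a j = 0 → ∃ c : ℂ, w j = algebraMap ℂ K c := by
    intro j hj
    refine const_of_no_pole hK fun E => ?_
    rcases lt_or_ge (E.ord x) 0 with h | h
    · have h2 := BC_pole hL hw j E ((inv_pos_iff hL.ne_zero).2 h)
      rwa [hj, pow_zero, one_mul] at h2
    · exact hw.aff.basis_regAff j E h
  refine ⟨i₀, hi₀, fun i hi => ?_⟩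
  rw [Nat.one_le_iff_ne_zero]
  intro hai
  obtain ⟨c₀, hc₀⟩ := hconst i₀ hi₀
  obtain ⟨c, hc⟩ := hconst i hai
  have h3 : (algebraMap ℂ L c₀) • w i = (algebraMap ℂ L c) • w i₀ := by
    rw [hc, hc₀]
    show algebraMap ℂ K c₀ * algebraMap ℂ K c = algebraMap ℂ K c * algebraMap ℂ K c₀
    ring
  have h4 := congrArg (fun v => w.repr v i) h3
  simp only [map_smul, w.repr_self, Finsupp.smul_apply, Finsupp.single_apply, if_neg hi.symm,
    if_true, smul_eq_mul, mul_one, mul_zero] at h4
  have h5 : c₀ = 0 := by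
    by_contra hne
    exact hne ((algebraMap ℂ L).injective (by rw [h4, map_zero]))
  rw [h5, map_zero] at hc₀
  exact w.ne_zero i₀ hc₀

theorem Birk.pole (hL : Gen L x) {w : Module.Basis (Fin n) L K} {a : Fin n → ℕ} (hw : Birk x w a) (i : Fin n) : RegLoc x⁻¹ ((x⁻¹) ^ a i * w i) :=
  BC_pole hL hw i

end Pool.Agent.H13.CV

end
end
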