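import Pool.Agent.H94.G4T.M07
import Pool.Agent.H94.G4T.M10
import Pool.Agent.H94.G4T.M16
import Pool.Agent.H94.G4T.M41
import Pool.Agent.H94.G4T.M46
import Pool.Agent.H94.G4T.M47

/-! The parts of this file: H13.CV.RatB, G3.A.FrmA. -/

section

/-!
# CV RatB: rational function fields

Let `K = ℂ(t)`; `t` is transcendental (`hK.exists_tr`: if `t` were algebraic then all elements of `K` would be algebraic).
(1) `mob`: `IntermediateField.adjoin ℂ {t'} = ⊤` for `t' = t - c`, `t⁻¹`, `c t` (`c ≠ 0`): `t` is in `adjoin ℂ {t'}`.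
(2) `oz_eq`: if `adjoin ℂ {s} = ⊤` then there is at most one place with `0 < ord s`, and `oz E s = 1` there (`sum_le` with `L = ⊤ = ℂ(s)`, `finrank ⊤ K = 1`, or with `T = {E}` and `T = {E, E'}`).  The same
for `ord s < 0` and `oz E s = -1` (`s⁻¹`).
(3) Given places `E₁ ≠ E₂` there is `s` with `adjoin ℂ {s} = ⊤`, `0 < ord_{E₁} s`, `ord_{E₂} s < 0`: replacing `t` by `t⁻¹` if necessary we may assume that `t` has a value `c₂` at `E₂` (`exists_value`), replacing it by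
`(t - c₂)⁻¹` we may assume that `ord_{E₂} t < 0`; by (2) `t` has no pole at `E₁`, so it has a value `c₁`: `s = t - c₁`.
(4) If all places in `B` are among two places `E₁, E₂`: if `E₁ ≠ E₂` take `t' = s` as in (3); if `E₁ = E₂` choose `t' = t - c` or `t` with `oz E₁ t' ≠ 0`.  If `B` is empty: `t' = t`.
(5) Otherwise there are three different places `E₁, E₂, E₃` in `B`.  `s` as in (3); at `E₃` it has no pole and no zero (2), so it has a value `c ≠ 0`; replace `s` by `s / c`, so that the value at `E₃` is `1`.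
`lgt_of_forms` with `m = 1`, `ω = dx s`, `f₀ = s⁻¹`, `f₁ = (s - 1)⁻¹`; `f₁ / f₀ = s / (s - 1)` is not a constant.  Check at a place `E` with `pole_mk` (`p = 1` in `B`, `p = 0` otherwise):
* `0 < ord s`: `E = E₁`, `oz E s = 1`, `oz E f₀ = -1`, `oz E f₁ = 0`: `-1 + (1 - 1) + 1 ≥ 0`.
* `ord s < 0`: `E = E₂`, `oz E s = -1`, `oz E f₀ = oz E f₁ = 1`: `1 + (-1 - 1) + 1 ≥ 0`.
* otherwise `s` has a value `c ≠ 0` at `E`; `dx s = dx (s - c)` (`dx_sub_const`) and `oz E (s - c) = 1` by (2).  If `c = 1` then `E = E₃` by (2) for `s - 1`: `oz E f₁ = -1`, `oz E f₀ = 0`: `-1 + 0 + 1 ≥ 0`.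
If `c ≠ 1`: `oz E f₀ = oz E f₁ = 0`.
-/

set_option autoImplicit false

open Pool.Agent.H23.Fano (PrimeDivisorOver Form regularForms)
open Pool.Agent.H17LG.Variety (PoleAtMost IsLogGeneralType)

noncomputable section

namespace Pool.Agent.H13.CV

variable {K : Type} [Field K] [Algebra ℂ K]

private lemma tr_of_top (hK : CurveField K) {t : K} (ht : IntermediateField.adjoin ℂ {t} = ⊤) : Transcendental ℂ t := by
  by_contra hal
  obtain ⟨c, hc⟩ : ∃ c : ℂ, t = algebraMap ℂ K c := by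
    by_contra h
    push Not at h
    exact hal (transcendental_of_not_const h)
  obtain ⟨x, hx⟩ := hK.exists_tr
  have h1 : IntermediateField.adjoin ℂ {t} = (⊥ : IntermediateField ℂ K) := by
    rw [IntermediateField.adjoin_simple_eq_bot_iff, IntermediateField.mem_bot]
    exact ⟨c, hc.symm⟩
  have h2 : x ∈ (⊥ : IntermediateField ℂ K) := by
    rw [← h1, ht]
    exact IntermediateField.mem_top
  rw [IntermediateField.mem_bot] at h2
  obtain ⟨d, hd⟩ := h2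
  exact hx (hd ▸ isAlgebraic_algebraMap d)

private lemma gen_top (hK : CurveField K) {t : K} (ht : IntermediateField.adjoin ℂ {t} = ⊤) : Gen (⊤ : IntermediateField ℂ K) t :=
  ⟨tr_of_top hK ht, ht.symm⟩

private lemma fin_top : FiniteDimensional (⊤ : IntermediateField ℂ K) K :=
  Module.finite_of_finrank_pos (by rw [IntermediateField.finrank_top]; norm_num)

private lemma one_le_oz {s : K} (hs : Gen (⊤ : IntermediateField ℂ K) s) {E : Place K} (hE : 0 < E.ord s) : 1 ≤ oz E s :=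
  (pos_iff.1 hE).resolve_left hs.ne_zero

private lemma oz_zero_eq {s : K} (hs : Gen (⊤ : IntermediateField ℂ K) s) {E : Place K} (hE : 0 < E.ord s) : oz E s = 1 := by
  have := fin_top (K := K)
  have h1 := sum_le hs {E} (by
    intro E' hE'
    rw [Finset.mem_singleton] at hE'
    rwa [hE'])
  rw [Finset.sum_singleton, IntermediateField.finrank_top] at h1
  have h2 := one_le_oz hs hE
  push_cast at h1
  omega

private lemma zero_uniq {s : K} (hs : Gen (⊤ : IntermediateField ℂ K) s) {E E' : Place K} (hE : 0 < E.ord s) (hE' : 0 < E'.ord s) : E = E' := by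
  classical
  by_contra hne
  have := fin_top (K := K)
  have h1 := sum_le hs {E, E'} (by
    intro E'' hE''
    rw [Finset.mem_insert, Finset.mem_singleton] at hE''
    rcases hE'' with h | h
    · rwa [h]
    · rwa [h])
  rw [Finset.sum_pair hne, IntermediateField.finrank_top] at h1
  have h2 := one_le_oz hs hE
  have h3 := one_le_oz hs hE'
  push_cast at h1
  omega

private lemma oz_pole_eq {s : K} (hs : Gen (⊤ : IntermediateField ℂ K) s) {E : Place K} (hE : E.ord s < 0) : oz E s = -1 := by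
  have h1 := oz_zero_eq hs.inv ((inv_pos_iff hs.ne_zero).2 hE)
  rw [oz_inv] at h1
  omega

private lemma pole_uniq {s : K} (hs : Gen (⊤ : IntermediateField ℂ K) s) {E E' : Place K} (hE : E.ord s < 0) (hE' : E'.ord s < 0) : E = E' :=
  zero_uniq hs.inv ((inv_pos_iff hs.ne_zero).2 hE) ((inv_pos_iff hs.ne_zero).2 hE')

private lemma pole_sub {s : K} {E : Place K} (hE : E.ord s < 0) (c : ℂ) : E.ord (s - algebraMap ℂ K c) < 0 := by
  by_contra h
  push Not at h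
  have h1 := nonneg_add h (const_nonneg E c)
  rw [sub_add_cancel] at h1
  exact absurd hE (not_lt.2 h1)

private lemma oz_sub {s : K} (hs : Gen (⊤ : IntermediateField ℂ K) s) {E : Place K} {a b : ℂ} (h : 0 < E.ord (s - algebraMap ℂ K a)) (hab : a ≠ b) :
    oz E (s - algebraMap ℂ K b) = 0 := by
  have h1 : oz E (s - algebraMap ℂ K a) = 1 := oz_zero_eq (hs.sub_const a) h
  have h2 : (algebraMap ℂ K (a - b)) ≠ 0 := by
    rw [Ne, map_eq_zero, sub_eq_zero]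
    exact hab
  have h3 := (oz_add_of_lt E h2 (hs.sub_const a).ne_zero (by rw [oz_const, h1]; norm_num)).2
  rw [oz_const] at h3
  rw [← h3]
  congr 1
  rw [map_sub]
  ring

private lemma exists_two (hK : CurveField K) {t : K} (ht : Gen (⊤ : IntermediateField ℂ K) t) {E₁ E₂ : Place K} (hne : E₁ ≠ E₂) :
    ∃ s : K, Gen (⊤ : IntermediateField ℂ K) s ∧ 0 < E₁.ord s ∧ E₂.ord s < 0 := by
  obtain ⟨t', ht', hp⟩ : ∃ t' : K, Gen (⊤ : IntermediateField ℂ K) t' ∧ E₂.ord t' < 0 := by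
    by_cases h : E₂.ord t < 0
    · exact ⟨t, ht, h⟩
    · push Not at h
      obtain ⟨c, hc⟩ := exists_value hK h
      refine ⟨(t - algebraMap ℂ K c)⁻¹, (ht.sub_const c).inv, ?_⟩
      rw [neg_iff, oz_inv, oz_zero_eq (ht.sub_const c) hc]
      norm_num
  have h1 : 0 ≤ E₁.ord t' := by
    by_contra h
    push Not at h
    exact hne (pole_uniq ht' h hp)
  obtain ⟨c, hc⟩ := exists_value hK h1
  exact ⟨t' - algebraMap ℂ K c, ht'.sub_const c, hc, pole_sub hp c⟩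

private lemma lgt_three (hK : CurveField K) {B : Place K → Prop} {s : K} (hs : Gen (⊤ : IntermediateField ℂ K) s) {E₁ E₂ E₃ : Place K}
    (hB₁ : B E₁) (hB₂ : B E₂) (hB₃ : B E₃) (h13 : E₁ ≠ E₃) (h23 : E₂ ≠ E₃) (h1 : 0 < E₁.ord s) (h2 : E₂.ord s < 0) : IsLogGeneralType B := by
  have h3 : 0 ≤ E₃.ord s := by
    by_contra h
    push Not at h
    exact h23 (pole_uniq hs h2 h)
  obtain ⟨c, hc⟩ := exists_value hK h3
  have hc0 : c ≠ 0 := by
    rintro rfl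
    rw [map_zero, sub_zero] at hc
    exact h13 (zero_uniq hs h1 hc)
  have h1' : 0 < E₁.ord (s - algebraMap ℂ K 0) := by rwa [map_zero, sub_zero]
  have hs0 : s ≠ 0 := hs.ne_zero
  have hsc : s - algebraMap ℂ K c ≠ 0 := (hs.sub_const c).ne_zero
  -- the orders of the two forms
  have key : ∀ E : Place K, (¬ B E → PoleAtMost 0 E 1 s⁻¹ (dx s) ∧ PoleAtMost 0 E 1 (s - algebraMap ℂ K c)⁻¹ (dx s)) ∧
      (B E → PoleAtMost 1 E 1 s⁻¹ (dx s) ∧ PoleAtMost 1 E 1 (s - algebraMap ℂ K c)⁻¹ (dx s)) := by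
    intro E
    by_cases hpos : 0 < E.ord s
    · obtain rfl := zero_uniq hs h1 hpos
      have e1 := oz_zero_eq hs h1
      have e2 := oz_sub hs h1' hc0.symm
      refine ⟨fun h => absurd hB₁ h, fun _ => ⟨pole_mk _ hs0 (Or.inr ?_), pole_mk _ hs0 (Or.inr ?_)⟩⟩
      · rw [oz_inv, e1]; norm_num
      · rw [oz_inv, e2, e1]; norm_num
    by_cases hneg : E.ord s < 0
    · obtain rfl := pole_uniq hs h2 hneg
      have e1 := oz_pole_eq hs h2
      have e2 := oz_pole_eq (hs.sub_const c) (pole_sub h2 c)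
      refine ⟨fun h => absurd hB₂ h, fun _ => ⟨pole_mk _ hs0 (Or.inr ?_), pole_mk _ hs0 (Or.inr ?_)⟩⟩
      · rw [oz_inv, e1]; norm_num
      · rw [oz_inv, e2, e1]; norm_num
    push Not at hneg
    obtain ⟨c', hc'⟩ := exists_value hK hneg
    have hc'0 : c' ≠ 0 := by
      rintro rfl
      rw [map_zero, sub_zero] at hc'
      exact hpos hc'
    have e0 : oz E s = 0 := by
      have := oz_sub hs hc' hc'0
      rwa [map_zero, sub_zero] at this
    have e1 : oz E (s - algebraMap ℂ K c') = 1 := oz_zero_eq (hs.sub_const c') hc'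
    have hsc' : s - algebraMap ℂ K c' ≠ 0 := (hs.sub_const c').ne_zero
    rw [← dx_sub_const s c']
    by_cases hcc : c' = c
    · subst hcc
      obtain rfl := zero_uniq (hs.sub_const c') hc hc'
      refine ⟨fun h => absurd hB₃ h, fun _ => ⟨pole_mk _ hsc' (Or.inr ?_), pole_mk _ hsc' (Or.inr ?_)⟩⟩
      · rw [oz_inv, e0, e1]; norm_num
      · rw [oz_inv, e1]; norm_num
    · have e2 : oz E (s - algebraMap ℂ K c) = 0 := oz_sub hs hc' hcc
      refine ⟨fun _ => ⟨pole_mk _ hsc' (Or.inr ?_), pole_mk _ hsc' (Or.inr ?_)⟩, fun _ => ⟨pole_mk _ hsc' (Or.inr ?_), pole_mk _ hsc' (Or.inr ?_)⟩⟩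
      · rw [oz_inv, e0, e1]; norm_num
      · rw [oz_inv, e2, e1]; norm_num
      · rw [oz_inv, e0, e1]; norm_num
      · rw [oz_inv, e2, e1]; norm_num
  refine lgt_of_forms hK (dx_ne_zero hs.tr) le_rfl (inv_ne_zero hs0) (f₁ := (s - algebraMap ℂ K c)⁻¹) ?_
    (fun E => ⟨fun h => ((key E).1 h).1, fun h => ((key E).2 h).1⟩) (fun E => ⟨fun h => ((key E).1 h).2, fun h => ((key E).2 h).2⟩)
  apply tr_of_oz_ne (E := E₁)
  rw [oz_div E₁ (inv_ne_zero hsc) (inv_ne_zero hs0), oz_inv, oz_inv, oz_sub hs h1' hc0.symm, oz_zero_eq hs h1]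
  norm_num

theorem rat_cases (hK : CurveField K) {t : K} (ht : IntermediateField.adjoin ℂ {t} = ⊤) (B : Place K → Prop) :
    IsLogGeneralType B ∨ ∃ t' : K, IntermediateField.adjoin ℂ {t'} = ⊤ ∧ ∀ E, B E → oz E t' ≠ 0 := by
  have hg := gen_top hK ht
  by_cases h3 : ∃ E₁ E₂ E₃ : Place K, B E₁ ∧ B E₂ ∧ B E₃ ∧ E₁ ≠ E₂ ∧ E₁ ≠ E₃ ∧ E₂ ≠ E₃
  · left
    obtain ⟨E₁, E₂, E₃, hB₁, hB₂, hB₃, h12, h13, h23⟩ := h3
    obtain ⟨s, hs, h1, h2⟩ := exists_two hK hg h12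
    exact lgt_three hK hs hB₁ hB₂ hB₃ h13 h23 h1 h2
  right
  by_cases h2 : ∃ E₁ E₂ : Place K, B E₁ ∧ B E₂ ∧ E₁ ≠ E₂
  · obtain ⟨E₁, E₂, hB₁, hB₂, h12⟩ := h2
    obtain ⟨s, hs, h1, h2⟩ := exists_two hK hg h12
    refine ⟨s, hs.eq.symm, fun E hE => ?_⟩
    by_cases hE1 : E = E₁
    · rw [hE1, oz_zero_eq hs h1]
      norm_num
    by_cases hE2 : E = E₂
    · rw [hE2, oz_pole_eq hs h2]
      norm_num
    exact absurd ⟨E₁, E₂, E, hB₁, hB₂, hE, h12, fun h => hE1 h.symm, fun h => hE2 h.symm⟩ h3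
  by_cases h1 : ∃ E₁ : Place K, B E₁
  · obtain ⟨E₁, hB₁⟩ := h1
    have hall : ∀ E, B E → E = E₁ := fun E hE => by
      by_contra hne
      exact h2 ⟨E, E₁, hE, hB₁, hne⟩
    by_cases hneg : E₁.ord t < 0
    · refine ⟨t, ht, fun E hE => ?_⟩
      rw [hall E hE, oz_pole_eq hg hneg]
      norm_num
    · push Not at hneg
      obtain ⟨c, hc⟩ := exists_value hK hneg
      refine ⟨t - algebraMap ℂ K c, (hg.sub_const c).eq.symm, fun E hE => ?_⟩
      rw [hall E hE, oz_zero_eq (hg.sub_const c) hc]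
      norm_num
  · exact ⟨t, ht, fun E hE => absurd ⟨E, hE⟩ h1⟩

end Pool.Agent.H13.CV

end
end

section

/-!
# G3 A FrmA: the forms decay

`‖α.toFun y x v‖ exp (wt W y)` is `Γ`-periodic in `y` (`Tht`), bounded for `‖y‖ ≤ R` (compactness of the set of the `(y, x)`, `‖x‖ = 1`, and `VForm.analytic` in charts: the value on tangent vectors
`v i`, `‖v i‖ ≤ ‖x‖`, is `det` times the value on the coordinate vectors), so bounded; `wt W y ≥ c₀ ‖y‖ ^ 2` (`pos`, compactness of the unit sphere).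
-/

set_option autoImplicit false

open Topology Filter Metric

namespace Pool.Agent.G3.A

open Pool.Agent.H36.BP (EN fs wd)
open Pool.Agent.H14.PP (IsCone CurveAt Tan)
open Pool.Agent.H62.EF (MN pr)
open Pool.Agent.AD (Vd Chart Charts IsGerm)
open Pool.Agent.TG
open Pool.Agent.G3.C (Gc)

variable {N k : ℕ} {X : Set (EN N)} {Λ : AddSubgroup (Vd (k + 1))} {u : EN N → Vd (k + 1)} {D B Bad : Set (Vd (k + 1))} {a : Vd (k + 1)}

/-- a determinant with entries of norm at most `C` -/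
private theorem FrmA_det {n : ℕ} (M : Matrix (Fin n) (Fin n) ℂ) {C : ℝ} (hM : ∀ i j, ‖M i j‖ ≤ C) : ‖M.det‖ ≤ (n.factorial : ℝ) * C ^ n := by
  rw [Matrix.det_apply']
  calc ‖∑ σ : Equiv.Perm (Fin n), ((Equiv.Perm.sign σ : ℤ) : ℂ) * ∏ i, M (σ i) i‖
      ≤ ∑ σ : Equiv.Perm (Fin n), ‖((Equiv.Perm.sign σ : ℤ) : ℂ) * ∏ i, M (σ i) i‖ := norm_sum_le _ _
    _ ≤ ∑ _σ : Equiv.Perm (Fin n), C ^ n := by
        refine Finset.sum_le_sum fun σ _ => ?_
        rw [norm_mul, norm_prod]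
        have h1 : ‖((Equiv.Perm.sign σ : ℤ) : ℂ)‖ = 1 := by
          rcases Int.units_eq_one_or (Equiv.Perm.sign σ) with h | h <;> simp [h]
        rw [h1, one_mul]
        calc ∏ i, ‖M (σ i) i‖ ≤ ∏ _i : Fin n, C := Finset.prod_le_prod (fun i _ => norm_nonneg _) fun i _ => hM _ _
          _ = C ^ n := by simp
    _ = (n.factorial : ℝ) * C ^ n := by
        rw [Finset.sum_const, Finset.card_univ, Fintype.card_perm, Fintype.card_fin, nsmul_eq_mul]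

/-- the local bound -/
private theorem FrmA_loc (hX : IsCone X) (hch : Charts (k + 2) X) (hu : TMap X Λ u) (hΛ : Lat Λ) (α : VForm X Λ u) (y₀ : Vd (k + 1)) {x₀ : EN N} (hx₀ : x₀ ∈ X) :
    ∃ C : ℝ, ∀ᶠ p in 𝓝 ((y₀, x₀) : Vd (k + 1) × EN N), p.2 ∈ X → u p.2 - p.1 ∈ Λ → ∀ v : Fin (k + 2) → EN N, (∀ i, Tan X p.2 (v i)) → (∀ i, ‖v i‖ ≤ 1) →
      ‖α.toFun p.1 p.2 v‖ ≤ C := by
  have hfst : Tendsto (fun p : Vd (k + 1) × EN N => p.1) (𝓝 (y₀, x₀)) (𝓝 y₀) := continuousAt_fst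
  have hsnd : Tendsto (fun p : Vd (k + 1) × EN N => p.2) (𝓝 (y₀, x₀)) (𝓝 x₀) := continuousAt_snd
  by_cases h : u x₀ - y₀ ∈ Λ
  · obtain ⟨χ, hU, hq0⟩ := hch x₀ hx₀
    obtain ⟨υ, hυ, hυe, hl⟩ := exists_lift_chart hX hu χ hx₀ hU h
    have hb : χ.q x₀ ∈ ball (0 : Vd (k + 2)) 2 := (χ.surj x₀ hx₀ hU).1
    obtain ⟨δ, hδ, hdisc⟩ := hΛ.disc
    set C₁ : ℝ := ‖tc α χ υ (χ.q x₀)‖ + 1 with hC₁
    set C₂ : ℝ := ‖fderiv ℂ χ.q x₀‖ + 1 with hC₂
    have hqc : Tendsto χ.q (𝓝 x₀) (𝓝 (χ.q x₀)) := (χ.q_an x₀ hU).continuousAt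
    have h1 : ∀ᶠ q in 𝓝 (χ.q x₀), ‖tc α χ υ q‖ < C₁ :=
      (tc_an α χ hb hυ hl).continuousAt.norm.eventually_lt_const (by show ‖tc α χ υ (χ.q x₀)‖ < C₁; linarith)
    have h2 : ∀ᶠ x in 𝓝 x₀, ‖fderiv ℂ χ.q x‖ < C₂ :=
      (χ.q_an x₀ hU).fderiv.continuousAt.norm.eventually_lt_const (by show ‖fderiv ℂ χ.q x₀‖ < C₂; linarith)
    have h3 : ∀ᶠ p in 𝓝 ((y₀, x₀) : Vd (k + 1) × EN N), ‖p.1 - υ (χ.q p.2)‖ < δ := by
      have h4 : Tendsto (fun p : Vd (k + 1) × EN N => ‖p.1 - υ (χ.q p.2)‖) (𝓝 (y₀, x₀)) (𝓝 ‖y₀ - υ (χ.q x₀)‖) :=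
        (hfst.sub (hυ.continuousAt.tendsto.comp (hqc.comp hsnd))).norm
      refine h4.eventually_lt_const ?_
      rw [hυe, sub_self, norm_zero]
      exact hδ
    refine ⟨((k + 2).factorial : ℝ) * C₂ ^ (k + 2) * C₁, ?_⟩
    filter_upwards [hsnd.eventually (hqc.eventually h1), hsnd.eventually h2, h3, hsnd.eventually (χ.isOpen_U.mem_nhds hU), hsnd.eventually (hqc.eventually hl)]
      with p hp1 hp2 hp3 hp4 hp5 hpX hpu v hv hv1
    obtain ⟨hqb, c, hc, hcx⟩ := χ.surj p.2 hpX hp4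
    have hσX : χ.σ (χ.q p.2) ∈ X := (χ.σ_mem _ hqb).1
    have h6 : u p.2 - υ (χ.q p.2) ∈ Λ := by
      have h7 : u (c • χ.σ (χ.q p.2)) - u (χ.σ (χ.q p.2)) ∈ Λ := hu.smul _ hσX c hc
      rw [← hcx] at h7
      have h8 := Λ.add_mem h7 hp5
      have e : u p.2 - u (χ.σ (χ.q p.2)) + (u (χ.σ (χ.q p.2)) - υ (χ.q p.2)) = u p.2 - υ (χ.q p.2) := by abel
      rwa [e] at h8
    have h7 : υ (χ.q p.2) = p.1 := by
      have h8 := Λ.sub_mem h6 hpu
      have e : u p.2 - υ (χ.q p.2) - (u p.2 - p.1) = p.1 - υ (χ.q p.2) := by abel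
      rw [e] at h8
      exact (sub_eq_zero.1 (hdisc _ h8 hp3)).symm
    rw [toFun_eq hX hu α χ hpX hp4 hpu h7 v hv, norm_mul]
    have h8 : ‖(Matrix.of fun i j => fderiv ℂ χ.q p.2 (v i) j).det‖ ≤ ((k + 2).factorial : ℝ) * C₂ ^ (k + 2) := by
      refine FrmA_det _ fun i j => ?_
      show ‖fderiv ℂ χ.q p.2 (v i) j‖ ≤ C₂
      have h9 : ‖fderiv ℂ χ.q p.2 (v i) j‖ ≤ ‖fderiv ℂ χ.q p.2 (v i)‖ := norm_le_pi_norm _ j
      have h10 := (fderiv ℂ χ.q p.2).le_opNorm (v i)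
      have h11 : ‖fderiv ℂ χ.q p.2‖ * ‖v i‖ ≤ C₂ * 1 := mul_le_mul hp2.le (hv1 i) (norm_nonneg _) (by positivity)
      linarith
    exact mul_le_mul h8 hp1.le (norm_nonneg _) (by positivity)
  · refine ⟨0, ?_⟩
    obtain ⟨w, hw, hwl⟩ := hu.loc x₀ hx₀
    have h1 : w x₀ - y₀ ∉ Λ := by
      intro h2
      apply h
      have h3 := Λ.add_mem (hwl.self_of_nhds hx₀) h2
      have e : u x₀ - w x₀ + (w x₀ - y₀) = u x₀ - y₀ := by abel
      rwa [e] at h3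
    have h2 : Tendsto (fun p : Vd (k + 1) × EN N => w p.2 - p.1) (𝓝 (y₀, x₀)) (𝓝 (w x₀ - y₀)) :=
      (hw.continuousAt.tendsto.comp hsnd).sub hfst
    have h3 : ∀ᶠ p in 𝓝 ((y₀, x₀) : Vd (k + 1) × EN N), w p.2 - p.1 ∈ ((Λ : Set (Vd (k + 1))))ᶜ :=
      h2.eventually (hΛ.closed.isOpen_compl.mem_nhds h1)
    filter_upwards [h3, hsnd.eventually hwl] with p hp1 hp2 hpX hpu
    exfalso
    apply hp1
    have h4 := Λ.sub_mem hpu (hp2 hpX)
    have e : u p.2 - p.1 - (u p.2 - w p.2) = w p.2 - p.1 := by abel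
    rw [e] at h4
    exact h4

/-- the bound over a ball -/
private theorem FrmA_ball (hX : IsCone X) (hch : Charts (k + 2) X) (hu : TMap X Λ u) (hΛ : Lat Λ) (α : VForm X Λ u) (R : ℝ) :
    ∃ C : ℝ, 0 ≤ C ∧ ∀ y : Vd (k + 1), ‖y‖ ≤ R → ∀ x ∈ X, u x - y ∈ Λ → ∀ v : Fin (k + 2) → EN N, (∀ i, Tan X x (v i)) → (∀ i, ‖v i‖ ≤ ‖x‖) →
      ‖α.toFun y x v‖ ≤ C := by
  have hK : IsCompact (closedBall (0 : Vd (k + 1)) R ×ˢ (X ∩ sphere (0 : EN N) 1)) := (isCompact_closedBall _ _).prod (compact_unit hX)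
  have h1 : ∃ C : ℝ, ∀ p ∈ closedBall (0 : Vd (k + 1)) R ×ˢ (X ∩ sphere (0 : EN N) 1), p.2 ∈ X → u p.2 - p.1 ∈ Λ → ∀ v : Fin (k + 2) → EN N,
      (∀ i, Tan X p.2 (v i)) → (∀ i, ‖v i‖ ≤ 1) → ‖α.toFun p.1 p.2 v‖ ≤ C := by
    refine hK.induction_on (p := fun S : Set (Vd (k + 1) × EN N) => ∃ C : ℝ, ∀ p ∈ S, p.2 ∈ X → u p.2 - p.1 ∈ Λ → ∀ v : Fin (k + 2) → EN N,
      (∀ i, Tan X p.2 (v i)) → (∀ i, ‖v i‖ ≤ 1) → ‖α.toFun p.1 p.2 v‖ ≤ C) ?_ ?_ ?_ ?_
    · exact ⟨0, fun p hp => absurd hp (Set.notMem_empty p)⟩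
    · rintro S T hST ⟨C, hC⟩
      exact ⟨C, fun p hp => hC p (hST hp)⟩
    · rintro S T ⟨C, hC⟩ ⟨C', hC'⟩
      refine ⟨max C C', fun p hp h1 h2 v h3 h4 => ?_⟩
      rcases hp with hp | hp
      · exact (hC p hp h1 h2 v h3 h4).trans (le_max_left _ _)
      · exact (hC' p hp h1 h2 v h3 h4).trans (le_max_right _ _)
    · rintro ⟨y, x⟩ ⟨hy, hx, hx'⟩
      obtain ⟨C, hC⟩ := FrmA_loc hX hch hu hΛ α y hx
      exact ⟨_, mem_nhdsWithin_of_mem_nhds hC, C, fun p hp => hp⟩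
  obtain ⟨C, hC⟩ := h1
  refine ⟨max C 0, le_max_right _ _, fun y hy x hx hxy v hv hvn => ?_⟩
  have hn : 0 < ‖x‖ := norm_pos_iff.2 (ne_zero hX hx)
  have hc : (((‖x‖⁻¹ : ℝ)) : ℂ) ≠ 0 := by
    exact_mod_cast inv_ne_zero hn.ne'
  set c : ℂ := (((‖x‖⁻¹ : ℝ)) : ℂ) with hcd
  have hcn : ‖c‖ = ‖x‖⁻¹ := by rw [hcd, Complex.norm_real, norm_inv, norm_norm]
  have hcx : c • x ∈ X := hX.smul_mem x hx c hc
  have hcs : c • x ∈ sphere (0 : EN N) 1 := by
    rw [mem_sphere_zero_iff_norm, norm_smul, hcn]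
    exact inv_mul_cancel₀ hn.ne'
  have ht : ∀ i, Tan X (c • x) (c • v i) := by
    intro i
    obtain ⟨F, hF, hF0, hFd⟩ := hv i
    refine ⟨fun z => c • F z, ⟨AnalyticAt.fun_smul analyticAt_const hF.1, ?_⟩, ?_, ?_⟩
    · filter_upwards [hF.2] with z hz
      exact hX.smul_mem _ hz c hc
    · show c • F 0 = c • x
      rw [hF0]
    · have h1 : HasDerivAt (fun z => c • F z) (c • deriv F 0) 0 := hF.1.differentiableAt.hasDerivAt.const_smul c
      rw [h1.deriv, hFd]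
  have h2 := hC (y, c • x) ⟨by rwa [mem_closedBall_zero_iff], hcx, hcs⟩ hcx (smul_mem_lat hu hx hxy hc) (fun i => c • v i) ht (fun i => by
    rw [norm_smul, hcn]
    calc ‖x‖⁻¹ * ‖v i‖ ≤ ‖x‖⁻¹ * ‖x‖ := mul_le_mul_of_nonneg_left (hvn i) (by positivity)
      _ = 1 := inv_mul_cancel₀ hn.ne')
  rw [α.scale y x hx hxy v hv c hc] at h2
  exact h2.trans (le_max_left _ _)

/-- the weight is bounded on balls -/
private theorem FrmA_wt_le {r : ℕ} (W : Fin r → Vd (k + 1) →L[ℂ] ℂ) (R : ℝ) : ∃ M : ℝ, ∀ y : Vd (k + 1), ‖y‖ ≤ R → wt W y ≤ M := by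
  refine ⟨∑ i, (‖W i‖ * R) ^ 2, fun y hy => ?_⟩
  unfold wt
  refine Finset.sum_le_sum fun i _ => ?_
  refine pow_le_pow_left₀ (norm_nonneg _) ?_ 2
  exact ((W i).le_opNorm y).trans (mul_le_mul_of_nonneg_left hy (norm_nonneg _))

/-- the weight is positive definite -/
private theorem FrmA_wt_ge {r : ℕ} {W : Fin r → Vd (k + 1) →L[ℂ] ℂ} (hW : ∀ y, (∀ i, W i y = 0) → y = 0) :
    ∃ c : ℝ, 0 < c ∧ ∀ y : Vd (k + 1), c * ‖y‖ ^ 2 ≤ wt W y := by
  have hcont : Continuous (wt W) := by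
    unfold wt
    exact continuous_finsetSum _ fun i _ => ((W i).continuous.norm.pow 2)
  have hpos : ∀ y ∈ sphere (0 : Vd (k + 1)) 1, 0 < wt W y := by
    intro y hy
    rw [mem_sphere_zero_iff_norm] at hy
    have h0 : 0 ≤ wt W y := Finset.sum_nonneg fun i _ => by positivity
    rcases h0.eq_or_lt with h1 | h1
    · exfalso
      have h2 : ∀ i, W i y = 0 := by
        intro i
        have h3 := (Finset.sum_eq_zero_iff_of_nonneg (s := Finset.univ) (f := fun i => ‖W i y‖ ^ 2) fun i _ => by positivity).1 h1.symm i (Finset.mem_univ i)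
        exact norm_eq_zero.1 (pow_eq_zero_iff (two_ne_zero)|>.1 h3)
      rw [hW y h2, norm_zero] at hy
      exact zero_ne_one hy
    · exact h1
  have hne : (sphere (0 : Vd (k + 1)) 1).Nonempty := by
    refine ⟨fun _ => 1, ?_⟩
    rw [mem_sphere_zero_iff_norm]
    simp [pi_norm_const]
  obtain ⟨y₁, hy₁, hmin⟩ := (isCompact_sphere (0 : Vd (k + 1)) 1).exists_isMinOn hne hcont.continuousOn
  refine ⟨wt W y₁, hpos y₁ hy₁, fun y => ?_⟩
  by_cases hy : y = 0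
  · subst hy
    simp [wt]
  · have hn : 0 < ‖y‖ := norm_pos_iff.2 hy
    set c : ℂ := (((‖y‖⁻¹ : ℝ)) : ℂ) with hcd
    have hcn : ‖c‖ = ‖y‖⁻¹ := by rw [hcd, Complex.norm_real, norm_inv, norm_norm]
    have h1 : c • y ∈ sphere (0 : Vd (k + 1)) 1 := by
      rw [mem_sphere_zero_iff_norm, norm_smul, hcn]
      exact inv_mul_cancel₀ hn.ne'
    have h2 : wt W y₁ ≤ wt W (c • y) := hmin h1
    have h3 : wt W (c • y) = (‖y‖⁻¹) ^ 2 * wt W y := by
      unfold wt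
      rw [Finset.mul_sum]
      refine Finset.sum_congr rfl fun i _ => ?_
      rw [map_smul, norm_smul, hcn, mul_pow]
    rw [h3] at h2
    have h4 := mul_le_mul_of_nonneg_right h2 (by positivity : 0 ≤ ‖y‖ ^ 2)
    have h5 : (‖y‖⁻¹) ^ 2 * wt W y * ‖y‖ ^ 2 = wt W y := by
      field_simp
    rwa [h5] at h4

theorem Frm.dec (G : Geo X Λ u D B) {Γ : AddSubgroup (Vd (k + 1))} {J r : ℕ} {W : Fin r → Vd (k + 1) →L[ℂ] ℂ} {α : Fin J → VForm X Λ u} (h : Frm X Λ u D Γ W α) :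
    ∃ c₀ C₀ : ℝ, 0 < c₀ ∧ 0 < C₀ ∧ ∀ j, Dec (α j) c₀ C₀ := by
  obtain ⟨c₀, hc₀, hwt⟩ := FrmA_wt_ge h.pos
  obtain ⟨R, hR, hcpt⟩ := h.lat.cpt
  obtain ⟨M, hM⟩ := FrmA_wt_le W R
  have hb := fun j => FrmA_ball G.cone G.charts G.tor G.lat (α j) R
  choose C hC0 hC using hb
  refine ⟨c₀, 1 + ∑ j, C j * Real.exp M, hc₀, ?_, ?_⟩
  · have : 0 ≤ ∑ j, C j * Real.exp M := Finset.sum_nonneg fun j _ => mul_nonneg (hC0 j) (Real.exp_nonneg _)
    linarith
  · intro j y x hx hxy v hv hvn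
    obtain ⟨l, hl, hyl⟩ := hcpt y
    obtain ⟨L, c, hLc, hθ⟩ := h.per j l hl
    have hxy' : u x - (y - l) ∈ Λ := by
      have h1 := Λ.add_mem hxy (h.le hl)
      have e : u x - y + l = u x - (y - l) := by abel
      rwa [e] at h1
    have h1 := hθ (y - l) x hx hxy' v hv
    rw [sub_add_cancel] at h1
    have h2 := hLc (y - l)
    rw [sub_add_cancel] at h2
    rw [h1, norm_mul, h2]
    have h3 := hC j (y - l) hyl x hx hxy' v hv hvn
    have h4 : Real.exp (wt W (y - l) - wt W y) ≤ Real.exp M * Real.exp (-(c₀ * ‖y‖ ^ 2)) := by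
      rw [← Real.exp_add]
      refine Real.exp_le_exp.2 ?_
      have h5 := hM (y - l) hyl
      have h6 := hwt y
      linarith
    have h5 : C j * Real.exp M ≤ 1 + ∑ j, C j * Real.exp M := by
      have h6 := Finset.single_le_sum (f := fun j => C j * Real.exp M) (fun j _ => mul_nonneg (hC0 j) (Real.exp_nonneg _)) (Finset.mem_univ j)
      linarith
    calc Real.exp (wt W (y - l) - wt W y) * ‖(α j).toFun (y - l) x v‖ ≤ (Real.exp M * Real.exp (-(c₀ * ‖y‖ ^ 2))) * C j :=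
          mul_le_mul h4 h3 (norm_nonneg _) (by positivity)
      _ = (C j * Real.exp M) * Real.exp (-(c₀ * ‖y‖ ^ 2)) := by ring
      _ ≤ _ := mul_le_mul_of_nonneg_right h5 (Real.exp_nonneg _)

end Pool.Agent.G3.A

end
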