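import Pool.Agent.H94.G4T.M24
import Pool.Agent.H94.G4T.M29
import Pool.Agent.H94.G4T.M35
import Pool.Agent.H94.G4T.M49
import Pool.Agent.H94.G4T.M51

/-! The parts of this file: H13.CV.EllR, H17BP.ConstV, H62.FC.CurveIdeal, H62.FC.Trdeg, H17BP.TrdegLt, G4.H.Dir. -/

section

/-!
# CV EllR: the relation between the generators

`ell_rel`: elimination: `v² / u³` has order `0`, value `c ≠ 0` at `E` (`exists_value`, `res_eq_zero_iff`): `v² - c u³` has order `≥ -5` (or is `0`); `uv` has order `-5`: subtract `a u v` with `a` the value of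
`(v² - c u³) / (u v)`: the order is `≥ -4`; subtract `d u²`, `b v`, `e u` in the same way: the rest has order `≥ -1` at `E`, no other poles, so it is a constant.
-/

set_option autoImplicit false

open Pool.Agent.H23.Fano (PrimeDivisorOver Form regularForms)

noncomputable section

namespace Pool.Agent.H13.CV

variable {K : Type} [Field K] [Algebra ℂ K]

private theorem step (hK : CurveField K) {E : Place K} {n : ℤ} {r g : K} (hr : (n : WithTop ℤ) ≤ E.ord r)
    (hg0 : g ≠ 0) (hg : oz E g = n) : ∃ a : ℂ, ((n + 1 : ℤ) : WithTop ℤ) ≤ E.ord (r - algebraMap ℂ K a * g) := by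
  have hq : 0 ≤ E.ord (r / g) := by
    rw [nonneg_iff]
    rcases le_ord_iff.1 hr with h | h
    · left
      rw [h, zero_div]
    · by_cases hr0 : r = 0
      · left
        rw [hr0, zero_div]
      · right
        rw [oz_div E hr0 hg0, hg]
        linarith
  obtain ⟨a, ha⟩ := exists_value hK hq
  refine ⟨a, ?_⟩
  have e : r - algebraMap ℂ K a * g = (r / g - algebraMap ℂ K a) * g := by
    rw [sub_mul, div_mul_cancel₀ _ hg0]
  rw [e, le_ord_iff]
  by_cases h0 : r / g - algebraMap ℂ K a = 0
  · left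
    rw [h0, zero_mul]
  · right
    rcases pos_iff.1 ha with h | h
    · exact absurd h h0
    · rw [oz_mul E h0 hg0, hg]
      linarith

theorem ell_rel (hK : CurveField K) {E : Place K} (h1 : ∀ f ∈ LD (dv E 1), ∃ c : ℂ, f = algebraMap ℂ K c) {u v : K} (hu : oz E u = -2) (hv : oz E v = -3)
    (hu' : ∀ E', E' ≠ E → 0 ≤ E'.ord u) (hv' : ∀ E', E' ≠ E → 0 ≤ E'.ord v) :
    ∃ c a d b e f : ℂ, c ≠ 0 ∧ v ^ 2 = algebraMap ℂ K c * u ^ 3 + algebraMap ℂ K a * (u * v) + algebraMap ℂ K d * u ^ 2 + algebraMap ℂ K b * v +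
      algebraMap ℂ K e * u + algebraMap ℂ K f := by
  have hu0 : u ≠ 0 := by
    rintro rfl
    rw [oz_zero] at hu
    norm_num at hu
  have hv0 : v ≠ 0 := by
    rintro rfl
    rw [oz_zero] at hv
    norm_num at hv
  have ozv2 : oz E (v ^ 2) = -6 := by
    rw [oz_pow, hv]
    norm_num
  have ozu3 : oz E (u ^ 3) = -6 := by
    rw [oz_pow, hu]
    norm_num
  have ozu2 : oz E (u ^ 2) = -4 := by
    rw [oz_pow, hu]
    norm_num
  have ozuv : oz E (u * v) = -5 := by
    rw [oz_mul E hu0 hv0, hu, hv]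
    norm_num
  obtain ⟨c, hc⟩ := step hK (E := E) (n := -6) (r := v ^ 2) (g := u ^ 3)
    (le_ord_iff.2 (Or.inr (le_of_eq ozv2.symm))) (pow_ne_zero 3 hu0) ozu3
  have hc0 : c ≠ 0 := by
    rintro rfl
    rw [map_zero, zero_mul, sub_zero] at hc
    rcases le_ord_iff.1 hc with h | h
    · exact pow_ne_zero 2 hv0 h
    · rw [ozv2] at h
      norm_num at h
  obtain ⟨a, ha⟩ := step hK (E := E) (n := -5) (r := v ^ 2 - algebraMap ℂ K c * u ^ 3) (g := u * v)
    (by simpa using hc) (mul_ne_zero hu0 hv0) ozuv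
  obtain ⟨d, hd⟩ := step hK (E := E) (n := -4) (r := v ^ 2 - algebraMap ℂ K c * u ^ 3 - algebraMap ℂ K a * (u * v)) (g := u ^ 2)
    (by simpa using ha) (pow_ne_zero 2 hu0) ozu2
  obtain ⟨b, hb⟩ := step hK (E := E) (n := -3)
    (r := v ^ 2 - algebraMap ℂ K c * u ^ 3 - algebraMap ℂ K a * (u * v) - algebraMap ℂ K d * u ^ 2) (g := v)
    (by simpa using hd) hv0 hv
  obtain ⟨e, he⟩ := step hK (E := E) (n := -2)
    (r := v ^ 2 - algebraMap ℂ K c * u ^ 3 - algebraMap ℂ K a * (u * v) - algebraMap ℂ K d * u ^ 2 - algebraMap ℂ K b * v) (g := u)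
    (by simpa using hb) hu0 hu
  obtain ⟨f, hf⟩ := h1 (v ^ 2 - algebraMap ℂ K c * u ^ 3 - algebraMap ℂ K a * (u * v) - algebraMap ℂ K d * u ^ 2 -
    algebraMap ℂ K b * v - algebraMap ℂ K e * u) (by
      rw [mem_LD]
      intro E'
      by_cases hE : E' = E
      · subst hE
        have : dv E' 1 E' = 1 := by simp [dv]
        rw [this]
        simpa using he
      · have : dv E 1 E' = 0 := by simp [dv, hE]
        rw [this]
        have hu1 := hu' E' hE
        have hv1 := hv' E' hE
        have := nonneg_sub (nonneg_sub (nonneg_sub (nonneg_sub (nonneg_sub (nonneg_pow hv1 2)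
          (nonneg_mul (const_nonneg E' c) (nonneg_pow hu1 3)))
          (nonneg_mul (const_nonneg E' a) (nonneg_mul hu1 hv1)))
          (nonneg_mul (const_nonneg E' d) (nonneg_pow hu1 2)))
          (nonneg_mul (const_nonneg E' b) hv1))
          (nonneg_mul (const_nonneg E' e) hu1)
        simpa using this)
  exact ⟨c, a, d, b, e, f, hc0, by linear_combination hf⟩

end Pool.Agent.H13.CV

end
end

section

/-!
# A variety of dimension `0` is a point

`FunField Q` is algebraic over `ℂ` (`IsTranscendenceBasis` with the empty family: e.g.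
`IsTranscendenceBasis.isAlgebraic`, the subalgebra adjoined by the empty range is `⊥`), so every element of it is in the
range of `algebraMap` (`IsAlgClosed.algebraMap_bijective_of_isIntegral` or `IsAlgClosed.algebraMap_surjective_of_isAlgebraic`).
Let `X j ∉ Q`, so `coordFun Q j ≠ 0` (`Pool.Agent.H92.GT.Proj.aeval_coordFun_eq_zero_iff Q (X j)`).
`Pool.Agent.H92.GT.Proj.proj_point Q hj` gives `y` in `functionField Q` with `y j = 1` and `aeval y G = 0 ↔ G ∈ Q` for forms
`G`.  `y i = algebraMap c_i`; the form `X i - C c_i * X j` has `aeval y = y i - c_i y j = 0`, so it is in `Q`, and every point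
`x` of the variety satisfies `x i = c_i * x j`, so `x.rep = x.rep j • c`, `x.rep j ≠ 0`: `x` is the point given by `c`.
-/

open Topology Filter MvPolynomial

noncomputable section

namespace Pool.Agent.H17BP

open Pool.Agent.H17LG.Variety (FunField)
open Pool.Agent.H62.FC (Homog)

variable {N : ℕ} {Q : Ideal (MvPolynomial (Fin (N + 1)) ℂ)}

theorem eq_of_trdeg_zero [Q.IsPrime] (hQ : Homog Q) (hX : ∃ i, (X i : MvPolynomial (Fin (N + 1)) ℂ) ∉ Q)
    (hz : ∃ z : Fin 0 → FunField Q, IsTranscendenceBasis ℂ z) :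
    ∀ x ∈ variety Q, ∀ y ∈ variety Q, x = y := by
  have _ := hQ
  obtain ⟨j, hj⟩ := hX
  obtain ⟨z, hz⟩ := hz
  have hcj : Pool.Agent.H17GT.coordFun Q j ≠ 0 := by
    intro h
    apply hj
    rw [← Pool.Agent.H92.GT.Proj.aeval_coordFun_eq_zero_iff Q (X j), aeval_X]
    exact h
  obtain ⟨y, hy1, -, hker⟩ := Pool.Agent.H92.GT.Proj.proj_point Q hcj
  have halg : Algebra.IsAlgebraic ℂ (FunField Q) := hz.isEmpty_iff_isAlgebraic.1 inferInstance
  have halg' : Algebra.IsAlgebraic ℂ (Pool.Agent.H17GT.functionField Q) := halg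
  have hsurj : Function.Surjective (algebraMap ℂ (Pool.Agent.H17GT.functionField Q)) :=
    (IsAlgClosed.algebraMap_bijective_of_isIntegral (k := ℂ)
      (K := Pool.Agent.H17GT.functionField Q)).2
  choose c hc using fun i => hsurj (y i)
  have hform : ∀ i, (X i - C (c i) * X j : MvPolynomial (Fin (N + 1)) ℂ).IsHomogeneous 1 := by
    intro i
    refine (isHomogeneous_X ℂ i).sub ?_
    have h := (isHomogeneous_C (Fin (N + 1)) (c i)).mul (isHomogeneous_X ℂ j)
    simpa using h
  have hmem : ∀ i, (X i - C (c i) * X j : MvPolynomial (Fin (N + 1)) ℂ) ∈ Q := by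
    intro i
    rw [← hker 1 _ (hform i), map_sub, map_mul, aeval_X, aeval_X, hy1, mul_one, aeval_C, hc i,
      sub_self]
  have hrep : ∀ x ∈ variety Q, x.rep j ≠ 0 ∧ x.rep = x.rep j • c := by
    intro x hx
    have h1 : x.rep = x.rep j • c := by
      funext i
      have h2 : eval x.rep (X i - C (c i) * X j) = 0 := hx.1 _ (hmem i) 1 (hform i)
      rw [map_sub, map_mul, eval_X, eval_X, eval_C, sub_eq_zero] at h2
      rw [Pi.smul_apply, smul_eq_mul, h2]
      ring
    refine ⟨fun h2 => x.rep_nonzero ?_, h1⟩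
    rw [h1, h2, zero_smul]
  intro x hx x' hx'
  obtain ⟨h1, h2⟩ := hrep x hx
  obtain ⟨h3, h4⟩ := hrep x' hx'
  rw [← x.mk_rep, ← x'.mk_rep, Projectivization.mk_eq_mk_iff']
  refine ⟨x.rep j / x'.rep j, ?_⟩
  rw [h4, h2, smul_smul]
  congr 1
  simp only [Pi.smul_apply, smul_eq_mul]
  have h5 : c j ≠ 0 := by
    intro h6
    apply h1
    have := congrFun h2 j
    rw [Pi.smul_apply, smul_eq_mul, h6, mul_zero] at this
    exact this
  have h6 : c j = 1 := by
    have h7 : algebraMap ℂ (Pool.Agent.H17GT.functionField Q) (c j) = algebraMap ℂ _ 1 := by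
      rw [hc j, hy1, map_one]
    exact (algebraMap ℂ (Pool.Agent.H17GT.functionField Q)).injective h7
  rw [h6, mul_one, mul_one]
  exact div_mul_cancel₀ _ h3

end Pool.Agent.H17BP

end
end

section

/-!
# Fermat covers: subvarieties which are not of log general type

The closures of the monomial curves are rational curves stable under a one-parameter group, so they
are not of log general type.
-/

open MvPolynomial Topology Filter
open Pool.Agent.H17GT (coordFun functionField)
open Pool.Agent.H17LG.Variety (FunField)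

noncomputable section

namespace Pool.Agent.H62.FC

variable {N : ℕ} {κ : Type} {A : κ → MvPolynomial (Fin (N + 1)) ℂ} {e : κ → ℕ}
  {O : Finset (Fin (N + 1))} {P : Ideal (MvPolynomial (Fin (N + 1)) ℂ)}

variable {a : Fin (N + 1) → ℂ} {n : Fin (N + 1) → ℤ}

open scoped IntermediateField.algebraAdjoinAdjoin in
lemma exists_fin_basis_aux {K : Type} [Field K] [Algebra ℂ K] {m : ℕ} {x : Fin m → K}
    (hgen : IntermediateField.adjoin ℂ (Set.range x) = ⊤) :
    ∃ (w : ℕ) (z : Fin w → K), IsTranscendenceBasis ℂ z := by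
  have halg : Algebra.IsAlgebraic (IntermediateField.adjoin ℂ (Set.range x)) K := by
    rw [hgen]
    exact ⟨fun f => isAlgebraic_algebraMap (⟨f, IntermediateField.mem_top⟩ :
      (⊤ : IntermediateField ℂ K))⟩
  have h1 : Algebra.IsAlgebraic (Algebra.adjoin ℂ (Set.range x)) K :=
    (IsFractionRing.comap_isAlgebraic_iff (A := Algebra.adjoin ℂ (Set.range x))
      (K := IntermediateField.adjoin ℂ (Set.range x)) (C := K)).mpr halg
  obtain ⟨u, hu, hub⟩ := exists_isTranscendenceBasis_subset (R := ℂ) (Set.range x)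
  have h3 : Finite u := (Set.finite_range x).subset hu
  let eqv : Fin (Nat.card u) ≃ u := (Finite.equivFin u).symm
  refine ⟨Nat.card u, (Subtype.val : u → K) ∘ eqv, ?_⟩
  rw [isTranscendenceBasis_equiv]
  exact hub

/-- The function field of a projective variety has a finite transcendence basis. -/
lemma exists_fin_basis [P.IsPrime] (hne : ∃ i, X i ∉ P) :
    ∃ (w : ℕ) (z : Fin w → FunField P), IsTranscendenceBasis ℂ z := by
  obtain ⟨j, hj⟩ := hne
  have hj' : coordFun P j ≠ 0 := by
    intro h0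
    apply hj
    rw [← Pool.Agent.H92.GT.Proj.aeval_coordFun_eq_zero_iff P (X j), aeval_X]
    exact h0
  obtain ⟨x, -, hgen, -⟩ := Pool.Agent.H92.GT.Proj.proj_point P hj'
  exact exists_fin_basis_aux hgen

end Pool.Agent.H62.FC

end
end

section

/-!
# Fermat covers: the dimension is monotone

For homogeneous prime ideals `P ≤ Q` the transcendence degree of the function field of `Q` is at
most the transcendence degree of the function field of `P`: coordinates whose ratios are
algebraically independent on the variety of `Q` have the same property on the variety of `P`.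
-/

noncomputable section

namespace Pool.Agent.H62.FC

open MvPolynomial
open Pool.Agent.H17GT (coordFun)
open Pool.Agent.H17LG.Variety (FunField)

variable {N : ℕ} {P : Ideal (MvPolynomial (Fin (N + 1)) ℂ)}

/-- Coordinates which are algebraically independent on the smaller variety are so on the larger
one. -/
private lemma Trdeg_indep {K L : Type} [Field K] [Algebra ℂ K] [Field L] [Algebra ℂ L] {k : ℕ}
    {j : Fin (N + 1)} {x : Fin (N + 1) → K} {y : Fin (N + 1) → L} (hx : x j = 1) (hy : y j = 1)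
    (h : ∀ (n : ℕ) (G : MvPolynomial (Fin (N + 1)) ℂ), G.IsHomogeneous n → aeval x G = 0 →
      aeval y G = 0) {J : Fin k → Fin (N + 1)} (hJ : AlgebraicIndependent ℂ fun i => y (J i)) :
    AlgebraicIndependent ℂ fun i => x (J i) := by
  rw [algebraicIndependent_iff] at hJ ⊢
  intro p hp
  apply hJ
  set Af : Fin (k + 1) → MvPolynomial (Fin (N + 1)) ℂ := Fin.cons (X j) fun i => X (J i) with hAf
  have hAfhom : ∀ i, IsWeightedHomogeneous (1 : Fin (N + 1) → ℕ) (Af i) 1 := by
    intro i
    refine Fin.cases ?_ (fun i => ?_) i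
    · exact isHomogeneous_X ℂ j
    · exact isHomogeneous_X ℂ (J i)
  have key : ∀ {K : Type} [Field K] [Algebra ℂ K] {x : Fin (N + 1) → K}, x j = 1 →
      aeval x (Pool.Agent.H92.GT.hmg p Af) = aeval (fun i => x (J i)) p := by
    intro K _ _ x hx
    rw [Pool.Agent.H92.GT.map_hmg]
    have h0 : aeval x (Af 0) = 1 := by
      change aeval x (X j) = 1
      rw [aeval_X, hx]
    rw [Pool.Agent.H92.GT.hmg_eq p (by rw [h0]; exact one_ne_zero), h0, one_pow, one_mul]
    congr 2
    funext i
    change aeval x (X (J i)) / 1 = x (J i)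
    rw [aeval_X, div_one]
  rw [← key hy]
  exact h _ _ (Pool.Agent.H92.GT.hmg_isWeightedHomogeneous p hAfhom) (by rw [key hx, hp])

theorem trdeg_mono [P.IsPrime] {Q : Ideal (MvPolynomial (Fin (N + 1)) ℂ)} [Q.IsPrime]
    (hP : Homog P) (hQ : Homog Q) (hPQ : P ≤ Q) {r w : ℕ} (hr : ∃ z : Fin r → FunField P,
      IsTranscendenceBasis ℂ z) (hw : ∃ z : Fin w → FunField Q, IsTranscendenceBasis ℂ z) :
    w ≤ r := by
  rcases w with - | w
  · exact Nat.zero_le _
  obtain ⟨z, hz⟩ := hw
  obtain ⟨z', hz'⟩ := hr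
  obtain ⟨j, hj⟩ := Pool.Agent.H92.GT.Proj.exists_coordFun_ne_zero Q (k := w) z hz
  have hj' : coordFun P j ≠ 0 := by
    intro h0
    apply hj
    have h1 := (Pool.Agent.H92.GT.Proj.aeval_coordFun_eq_zero_iff P (X j)).1
      (by rw [aeval_X]; exact h0)
    have h2 := (Pool.Agent.H92.GT.Proj.aeval_coordFun_eq_zero_iff Q (X j)).2 (hPQ h1)
    rwa [aeval_X] at h2
  obtain ⟨y, hy1, hygen, hyker⟩ := Pool.Agent.H92.GT.Proj.proj_point Q hj
  obtain ⟨x, hx1, -, hxker⟩ := Pool.Agent.H92.GT.Proj.proj_point P hj'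
  have halg : Algebra.IsAlgebraic (IntermediateField.adjoin ℂ (Set.range y))
      (H17GT.functionField Q) := by
    rw [hygen]
    exact ⟨fun f => isAlgebraic_algebraMap (⟨f, IntermediateField.mem_top⟩ :
      (⊤ : IntermediateField ℂ (H17GT.functionField Q)))⟩
  obtain ⟨J, hJ⟩ := Pool.Agent.H92.GT.exists_index halg (z := z) hz
  have hind : AlgebraicIndependent ℂ fun i => x (J i) :=
    Trdeg_indep hx1 hy1 (fun n G hG h => (hyker n G hG).2 (hPQ ((hxker n G hG).1 h))) hJ.1
  have h1 := hind.cardinalMk_le_trdeg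
  have h2 := IsTranscendenceBasis.cardinalMk_eq_trdeg (R := ℂ) (A := H17GT.functionField P)
    (x := z') hz'
  rw [← h2, Cardinal.mk_fin, Cardinal.mk_fin, Nat.cast_le] at h1
  exact h1

end Pool.Agent.H62.FC

end
end

section

/-!
# The dimension of a proper closed subvariety is smaller

Start as in the proof of `trdeg_mono` (`Pool/Agent/H62/FC/Trdeg.lean`): `j` with `coordFun Q j ≠ 0` (from `hX`:
`aeval_coordFun_eq_zero_iff Q (X j)`), so `coordFun P j ≠ 0`; `proj_point` gives `y` in `K_Q = functionField Q` and `x` in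
`K_P = functionField P` with `y j = 1`, `x j = 1`, and `aeval y G = 0 ↔ G ∈ Q`, `aeval x G = 0 ↔ G ∈ P` for forms `G`;
`exists_index` (needs `halg`) gives `J : Fin w → Fin (N + 1)` such that `y ∘ J` is a transcendence basis of `K_Q`, and
`x ∘ J` is algebraically independent (`Trdeg_indep` is private there: copy it).

(a) For ALL polynomials `H` (not only forms): `aeval x H = 0 → aeval y H = 0`: let `d` be the total degree of `H`; the form
`H' = ∑ k ≤ d, X j ^ (d - k) * homogeneousComponent k H` has degree `d` and `aeval x H' = aeval x H` as `x j = 1`, the same for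
`y` (`sum_homogeneousComponent`).  So `H' ∈ P ≤ Q` and `aeval y H = 0`.

(b) By `trdeg_mono`, `w ≤ r`.  Suppose `w = r`.  There is `F ∈ Q`, `F ∉ P`, and by `Homog Q` one may take `F` a form (some
homogeneous component of `F` is not in `P`, all are in `Q`).  `f = aeval x F ≠ 0` and `aeval y F = 0`.  `f` is algebraic
over `A = Algebra.adjoin ℂ (range (x ∘ J))`, because `x ∘ J` is algebraically independent with `w = r = trdeg` elements
(otherwise `f` together with `x ∘ J` would be algebraically independent with `r + 1` elements: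
`AlgebraicIndependent.cardinalMk_le_trdeg`; or: a finite algebraically independent family with `trdeg` elements is a
transcendence basis).  As `f ≠ 0` and `A` is a domain: there is a polynomial `q` over `A` with `q.coeff 0 ≠ 0` and
`aeval f q = 0` (`exists_nonzero_coeff_and_aeval_eq_zero`).  Every coefficient of `q` is `aeval (x ∘ J) (c i)` with
`c i : MvPolynomial (Fin w) ℂ`, `c 0 ≠ 0`.  Let `H = ∑ i, rename J (c i) * F ^ i`: `aeval x H = 0`, so by (a)
`aeval y H = 0`; but `aeval y F = 0`, so `aeval y H = aeval (y ∘ J) (c 0) ≠ 0` (independence of `y ∘ J`): contradiction.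
-/

open MvPolynomial
open Pool.Agent.H17GT (coordFun)
open Pool.Agent.H17LG.Variety (FunField)
open Pool.Agent.H62.FC (Homog trdeg_mono)

noncomputable section

namespace Pool.Agent.H17BP

variable {N : ℕ} {P Q : Ideal (MvPolynomial (Fin (N + 1)) ℂ)}

/-- Coordinates which are algebraically independent on the smaller variety are so on the larger
one. -/
private lemma TrdegLt_indep {K L : Type} [Field K] [Algebra ℂ K] [Field L] [Algebra ℂ L] {k : ℕ}
    {x : Fin (N + 1) → K} {y : Fin (N + 1) → L}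
    (h : ∀ G : MvPolynomial (Fin (N + 1)) ℂ, aeval x G = 0 → aeval y G = 0)
    {J : Fin k → Fin (N + 1)} (hJ : AlgebraicIndependent ℂ fun i => y (J i)) :
    AlgebraicIndependent ℂ fun i => x (J i) := by
  rw [algebraicIndependent_iff] at hJ ⊢
  intro p hp
  apply hJ
  have h1 : aeval y (rename J p) = 0 := by
    apply h
    rw [aeval_rename]
    exact hp
  rw [aeval_rename] at h1
  exact h1

private lemma TrdegLt_hom {K L : Type} [Field K] [Algebra ℂ K] [Field L] [Algebra ℂ L]
    {j : Fin (N + 1)} {x : Fin (N + 1) → K} {y : Fin (N + 1) → L} (hx : x j = 1) (hy : y j = 1)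
    (h : ∀ (n : ℕ) (G : MvPolynomial (Fin (N + 1)) ℂ), G.IsHomogeneous n → aeval x G = 0 →
      aeval y G = 0) (H : MvPolynomial (Fin (N + 1)) ℂ) (hH : aeval x H = 0) : aeval y H = 0 := by
  have key : ∀ {K : Type} [Field K] [Algebra ℂ K] {x : Fin (N + 1) → K}, x j = 1 →
      aeval x (∑ k ∈ Finset.range (H.totalDegree + 1),
        X j ^ (H.totalDegree - k) * homogeneousComponent k H) = aeval x H := by
    intro K _ _ x hx
    conv_rhs => rw [← MvPolynomial.sum_homogeneousComponent H]
    rw [map_sum, map_sum]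
    refine Finset.sum_congr rfl fun k _ => ?_
    rw [map_mul, map_pow, aeval_X, hx, one_pow, one_mul]
  rw [← key hy]
  refine h H.totalDegree _ ?_ (by rw [key hx, hH])
  apply MvPolynomial.IsHomogeneous.sum
  intro d hd
  have h1 : d ≤ H.totalDegree := Nat.lt_succ_iff.1 (Finset.mem_range.1 hd)
  have h2 := (MvPolynomial.isHomogeneous_X_pow (R := ℂ) j (H.totalDegree - d)).mul
    (MvPolynomial.homogeneousComponent_isHomogeneous d H)
  rwa [Nat.sub_add_cancel h1] at h2

private lemma TrdegLt_core {K L : Type} [Field K] [Algebra ℂ K] [Field L] [Algebra ℂ L] {w : ℕ}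
    {x : Fin (N + 1) → K} {y : Fin (N + 1) → L} {J : Fin w → Fin (N + 1)}
    (hxJ : IsTranscendenceBasis ℂ fun i => x (J i)) (hyJ : AlgebraicIndependent ℂ fun i => y (J i))
    (hxy : ∀ H : MvPolynomial (Fin (N + 1)) ℂ, aeval x H = 0 → aeval y H = 0)
    {F : MvPolynomial (Fin (N + 1)) ℂ} (hF : aeval x F ≠ 0) (hF' : aeval y F = 0) : False := by
  have halg := hxJ.isAlgebraic
  obtain ⟨q, hq0, hq⟩ := (halg.isAlgebraic (aeval x F)).exists_nonzero_coeff_and_aeval_eq_zero
    (mem_nonZeroDivisors_of_ne_zero hF)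
  have hc : ∀ u : Algebra.adjoin ℂ (Set.range fun i => x (J i)),
      ∃ c : MvPolynomial (Fin w) ℂ, aeval (fun i => x (J i)) c = (u : K) := by
    have h1 : ∀ u ∈ Algebra.adjoin ℂ (Set.range fun i => x (J i)),
        ∃ c : MvPolynomial (Fin w) ℂ, aeval (fun i => x (J i)) c = u := by
      intro u hu
      rw [Algebra.adjoin_range_eq_range_aeval] at hu
      exact hu
    exact fun u => h1 _ u.2
  choose c hc using hc
  have h1 : aeval x (∑ i ∈ Finset.range (q.natDegree + 1), rename J (c (q.coeff i)) * F ^ i) = 0 := by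
    rw [map_sum, ← hq, Polynomial.aeval_eq_sum_range]
    refine Finset.sum_congr rfl fun i _ => ?_
    rw [map_mul, map_pow, aeval_rename, Algebra.smul_def]
    congr 1
    exact hc _
  have h2 := hxy _ h1
  rw [map_sum, Finset.sum_range_succ', Finset.sum_eq_zero, zero_add, map_mul, map_pow, pow_zero,
    mul_one, aeval_rename] at h2
  · rw [algebraicIndependent_iff] at hyJ
    have h3 : c (q.coeff 0) = 0 := hyJ _ h2
    have h4 := hc (q.coeff 0)
    rw [h3, map_zero] at h4
    exact hq0 (Subtype.ext h4.symm)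
  · intro i _
    rw [map_mul, map_pow, hF', zero_pow (Nat.succ_ne_zero i), mul_zero]

theorem trdeg_lt [P.IsPrime] [Q.IsPrime] (hP : Homog P) (hQ : Homog Q) (hPQ : P ≤ Q) (hne : ¬ Q ≤ P)
    (hX : ∃ i, (X i : MvPolynomial (Fin (N + 1)) ℂ) ∉ Q) {r w : ℕ}
    (hr : ∃ z : Fin r → FunField P, IsTranscendenceBasis ℂ z)
    (hw : ∃ z : Fin w → FunField Q, IsTranscendenceBasis ℂ z) : w < r := by
  refine lt_of_le_of_ne (trdeg_mono hP hQ hPQ hr hw) ?_
  rintro rfl
  obtain ⟨z, hz⟩ := hw
  obtain ⟨z', hz'⟩ := hr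
  obtain ⟨j, hj0⟩ := hX
  have hj : coordFun Q j ≠ 0 := by
    intro h0
    exact hj0 ((Pool.Agent.H92.GT.Proj.aeval_coordFun_eq_zero_iff Q (X j)).1
      (by rw [aeval_X]; exact h0))
  have hj' : coordFun P j ≠ 0 := by
    intro h0
    apply hj
    have h1 := (Pool.Agent.H92.GT.Proj.aeval_coordFun_eq_zero_iff P (X j)).1
      (by rw [aeval_X]; exact h0)
    have h2 := (Pool.Agent.H92.GT.Proj.aeval_coordFun_eq_zero_iff Q (X j)).2 (hPQ h1)
    rwa [aeval_X] at h2
  obtain ⟨y, hy1, hygen, hyker⟩ := Pool.Agent.H92.GT.Proj.proj_point Q hj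
  obtain ⟨x, hx1, -, hxker⟩ := Pool.Agent.H92.GT.Proj.proj_point P hj'
  have halg : Algebra.IsAlgebraic (IntermediateField.adjoin ℂ (Set.range y))
      (H17GT.functionField Q) := by
    rw [hygen]
    exact ⟨fun f => isAlgebraic_algebraMap (⟨f, IntermediateField.mem_top⟩ :
      (⊤ : IntermediateField ℂ (H17GT.functionField Q)))⟩
  obtain ⟨J, hJ⟩ := Pool.Agent.H92.GT.exists_index halg (z := z) hz
  have hxy : ∀ H : MvPolynomial (Fin (N + 1)) ℂ, aeval x H = 0 → aeval y H = 0 :=
    TrdegLt_hom hx1 hy1 fun n G hG h => (hyker n G hG).2 (hPQ ((hxker n G hG).1 h))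
  have hind : AlgebraicIndependent ℂ fun i => x (J i) := TrdegLt_indep hxy hJ.1
  have h2 := IsTranscendenceBasis.cardinalMk_eq_trdeg (R := ℂ) (A := H17GT.functionField P)
    (x := z') hz'
  have hbasis : IsTranscendenceBasis ℂ fun i => x (J i) :=
    hind.isTranscendenceBasis_of_trdeg_le_of_finite h2.ge
  obtain ⟨F₀, hF₀Q, hF₀P⟩ := Set.not_subset.1 hne
  obtain ⟨n, hn⟩ : ∃ n, homogeneousComponent n F₀ ∉ P := by
    by_contra hcon
    push Not at hcon
    apply hF₀P
    change F₀ ∈ P
    rw [← MvPolynomial.sum_homogeneousComponent F₀]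
    exact Ideal.sum_mem _ fun i _ => hcon i
  have hFQ := hQ F₀ hF₀Q n
  exact TrdegLt_core hbasis hJ.1 hxy
    (fun h => hn ((hxker n _ (homogeneousComponent_isHomogeneous n F₀)).1 h))
    ((hyker n _ (homogeneousComponent_isHomogeneous n F₀)).2 hFQ)

end Pool.Agent.H17BP

end
end

section

/-!
# G4 H Dir: the derivatives in the direction `a`

`dir_iter_per`: if the derivatives of `f` of the orders `< j` vanish at `y` and at `y + lv b c`, then those of order `j` transform with the factor (the functions `z ↦ f (y + z a)` and `z ↦ f (y + lv b c + z a)` have zeros of order `≥ j` at `0`).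
`dir_zero`: the order of the zero of `z ↦ f (y + z a)`.
-/

set_option autoImplicit false

open Topology Filter Metric

namespace Pool.Agent.G4.H

open Pool.Agent.AD (Vd)
open Pool.Agent.G3 (wt)

variable {k r : ℕ} {a : Vd (k + 1)} {f g : Vd (k + 1) → ℂ}

private lemma dir_an1 (hf : ∀ y, AnalyticAt ℂ f y) : ∀ y, AnalyticAt ℂ (dir a f) y := by
  intro y
  have h1 : AnalyticAt ℂ (fderiv ℂ f) y := (hf y).fderiv
  exact ((ContinuousLinearMap.apply ℂ ℂ a).analyticAt (fderiv ℂ f y)).comp h1

theorem dir_an (hf : ∀ y, AnalyticAt ℂ f y) (j : ℕ) : ∀ y, AnalyticAt ℂ ((dir a)^[j] f) y := by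
  induction j with
  | zero => simpa using hf
  | succ j ih =>
    rw [Function.iterate_succ_apply']
    exact dir_an1 ih

theorem dir_lin (hf : ∀ y, AnalyticAt ℂ f y) (hg : ∀ y, AnalyticAt ℂ g y) (c : ℂ) (j : ℕ) :
    (dir a)^[j] (fun y => f y + c * g y) = fun y => (dir a)^[j] f y + c * (dir a)^[j] g y := by
  induction j with
  | zero => simp
  | succ j ih =>
    rw [Function.iterate_succ_apply', ih, Function.iterate_succ_apply', Function.iterate_succ_apply']
    funext y
    have h1 : DifferentiableAt ℂ ((dir a)^[j] f) y := (dir_an hf j y).differentiableAt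
    have h2 : DifferentiableAt ℂ ((dir a)^[j] g) y := (dir_an hg j y).differentiableAt
    have h3 := (h1.hasFDerivAt.add (h2.hasFDerivAt.const_mul c)).fderiv
    have h4 : fderiv ℂ (fun y => (dir a)^[j] f y + c * (dir a)^[j] g y) y = fderiv ℂ ((dir a)^[j] f) y + c • fderiv ℂ ((dir a)^[j] g) y := h3
    simp only [dir, h4]
    rfl

private lemma hasDeriv_line {F : Vd (k + 1) → ℂ} (hF : ∀ y, AnalyticAt ℂ F y) (y : Vd (k + 1)) (z : ℂ) : HasDerivAt (fun w : ℂ => F (y + w • a)) (dir a F (y + z • a)) z := by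
  have h1 : HasFDerivAt F (fderiv ℂ F (y + z • a)) (y + z • a) := (hF _).differentiableAt.hasFDerivAt
  have h2 : HasDerivAt (fun w : ℂ => y + w • a) a z := by
    have h3 : HasDerivAt (fun w : ℂ => w • a) ((1 : ℂ) • a) z := (hasDerivAt_id z).smul_const a
    rw [one_smul] at h3
    exact h3.const_add y
  exact h1.comp_hasDerivAt z h2

private lemma diff_line {F : Vd (k + 1) → ℂ} (hF : ∀ y, AnalyticAt ℂ F y) (y : Vd (k + 1)) : Differentiable ℂ (fun w : ℂ => F (y + w • a)) :=
  fun z => (hasDeriv_line hF y z).differentiableAt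

theorem dir_line (hf : ∀ y, AnalyticAt ℂ f y) (j : ℕ) (y : Vd (k + 1)) (z : ℂ) : iteratedDeriv j (fun w : ℂ => f (y + w • a)) z = (dir a)^[j] f (y + z • a) := by
  induction j generalizing z with
  | zero => simp
  | succ j ih =>
    rw [iteratedDeriv_succ, Function.iterate_succ_apply']
    have h1 : iteratedDeriv j (fun w : ℂ => f (y + w • a)) = fun w : ℂ => (dir a)^[j] f (y + w • a) := funext ih
    rw [h1]
    exact (hasDeriv_line (dir_an hf j) y z).deriv

private lemma iter_pow (z₀ : ℂ) (l : ℕ) : ∀ G : ℂ → ℂ, Differentiable ℂ G → iteratedDeriv l (fun z => (z - z₀) ^ l * G z) z₀ = (l.factorial : ℂ) * G z₀ := by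
  induction l with
  | zero => intro G _; simp
  | succ l ih =>
    intro G hG
    rw [iteratedDeriv_succ']
    have h1 : deriv (fun z => (z - z₀) ^ (l + 1) * G z) = fun z => (z - z₀) ^ l * (((l : ℂ) + 1) * G z + (z - z₀) * deriv G z) := by
      funext z
      have h2 : HasDerivAt (fun z : ℂ => (z - z₀) ^ (l + 1)) (((l + 1 : ℕ) : ℂ) * (z - z₀) ^ l * 1) z := by
        exact ((hasDerivAt_id z).sub_const z₀).pow (l + 1)
      have h3 := (h2.mul (hG z).hasDerivAt).deriv
      have h4 : deriv (fun z => (z - z₀) ^ (l + 1) * G z) z = ((l + 1 : ℕ) : ℂ) * (z - z₀) ^ l * 1 * G z + (z - z₀) ^ (l + 1) * deriv G z := h3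
      rw [h4]
      push_cast
      ring
    rw [h1, ih (fun z => ((l : ℂ) + 1) * G z + (z - z₀) * deriv G z)]
    · simp [Nat.factorial_succ]
      ring
    · have h5 : Differentiable ℂ (deriv G) := by
        intro z
        exact ((hG.analyticAt z).deriv).differentiableAt
      exact (hG.const_mul _).add (((differentiable_id).sub_const z₀).mul h5)

private lemma div_one {G : ℂ → ℂ} (hG : Differentiable ℂ G) {z₀ : ℂ} (h0 : G z₀ = 0) : ∃ g : ℂ → ℂ, Differentiable ℂ g ∧ ∀ z, G z = (z - z₀) * g z := by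
  refine ⟨dslope G z₀, ?_, fun z => ?_⟩
  · have h1 : DifferentiableOn ℂ (dslope G z₀) Set.univ := (Complex.differentiableOn_dslope Filter.univ_mem).2 hG.differentiableOn
    exact differentiableOn_univ.1 h1
  · have h2 := sub_smul_dslope G z₀ z
    rw [smul_eq_mul, h0, sub_zero] at h2
    exact h2.symm

private lemma div_pow {φ : ℂ → ℂ} (hφ : Differentiable ℂ φ) {z₀ : ℂ} (l : ℕ) (h : ∀ j < l, iteratedDeriv j φ z₀ = 0) : ∃ g : ℂ → ℂ, Differentiable ℂ g ∧ ∀ z, φ z = (z - z₀) ^ l * g z := by
  induction l with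
  | zero => exact ⟨φ, hφ, fun z => by simp⟩
  | succ l ih =>
    obtain ⟨g, hg, h1⟩ := ih fun j hj => h j (by omega)
    have h2 : φ = fun z => (z - z₀) ^ l * g z := funext h1
    have h3 := h l (by omega)
    rw [h2, iter_pow z₀ l g hg] at h3
    have h4 : g z₀ = 0 := by
      rcases mul_eq_zero.1 h3 with h5 | h5
      · exact absurd h5 (by exact_mod_cast Nat.factorial_ne_zero l)
      · exact h5
    obtain ⟨g', hg', h6⟩ := div_one hg h4
    refine ⟨g', hg', fun z => ?_⟩
    rw [h1 z, h6 z]
    ring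

/-- if the derivatives of order `< l` vanish at `y + z₀ a` then `z ↦ f (y + z a)` is divisible by `(z - z₀) ^ l` -/
theorem dir_zero (hf : ∀ y, AnalyticAt ℂ f y) {l : ℕ} {y : Vd (k + 1)} {z₀ : ℂ} (h : ∀ j < l, (dir a)^[j] f (y + z₀ • a) = 0) :
    ∃ g : ℂ → ℂ, Differentiable ℂ g ∧ ∀ z, f (y + z • a) = (z - z₀) ^ l * g z :=
  div_pow (diff_line hf y) l fun j hj => by rw [dir_line hf j y z₀]; exact h j hj

theorem dir_iter_per {h : Vd (k + 1) → ℂ} (hh : ∀ y, AnalyticAt ℂ h y) (hf : ∀ y, AnalyticAt ℂ f y) {v : Vd (k + 1)} (hper : ∀ y, h y * f (y + v) = f y) {j : ℕ} {y : Vd (k + 1)}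
    (h0 : ∀ i < j, (dir a)^[i] f (y + v) = 0) : h y * (dir a)^[j] f (y + v) = (dir a)^[j] f y := by
  obtain ⟨G, hG, h1⟩ := dir_zero (a := a) hf (l := j) (y := y + v) (z₀ := 0) (by simpa using h0)
  have h2 : (fun w : ℂ => f (y + v + w • a)) = fun w : ℂ => (w - 0) ^ j * G w := funext h1
  have h3 : (fun w : ℂ => f (y + w • a)) = fun w : ℂ => (w - 0) ^ j * (h (y + w • a) * G w) := by
    funext w
    rw [← hper (y + w • a)]
    have : y + w • a + v = y + v + w • a := by abel
    rw [this, h1 w]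
    ring
  have h4 := dir_line (a := a) hf j (y + v) 0
  have h5 := dir_line (a := a) hf j y 0
  rw [h2, iter_pow 0 j G hG] at h4
  rw [h3, iter_pow 0 j (fun w : ℂ => h (y + w • a) * G w) ((diff_line hh y).mul hG)] at h5
  simp only [zero_smul, add_zero] at h4 h5
  rw [← h4, ← h5]
  ring

end Pool.Agent.G4.H

end
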