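import Pool.Agent.H94.G4T.M25
import Pool.Agent.H94.G4T.M37
import Pool.Agent.H94.G4T.M43
import Pool.Agent.H94.G4T.M48
import Pool.Agent.H94.G4T.M52

/-! The parts of this file: H13.CV.StrA, G3.Z.JAn, G4.Z.JW. -/

section

/-!
# CV StrA: forms which vanish on an entire curve in a curve

`form_of_curve`: let `Q` define a curve, `f : ℂ → openVar Q H` a non-constant entire curve, `R` a form which vanishes at all `f z`.  Then `R ∈ Q`: let `J = mapIdeal f univ` (`Pool/Agent/H17BP/MapIdeal.lean`):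
homogeneous, prime (`mapIdeal_isPrime`), `Q ≤ J` (`le_mapIdeal`), `R ∈ J`, `exists_X_notMem`.  If `R ∉ Q` then `trdeg_lt` (`Pool/Agent/H17BP/TrdegLt.lean`; `exists_fin_basis`) shows that `FunField J` has
transcendence degree `0`, so `variety J` is one point (`eq_of_trdeg_zero`), and `f` is constant (`mem_variety_mapIdeal`): contradiction.  (See the end of the proof of `picard_of_form` in `Pool/Agent/H17BP/Same.lean`.)
-/

set_option autoImplicit false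

open Topology Filter MvPolynomial
open Pool.Agent.H17 (PN VanishesAt ZariskiClosedIn HolomorphicInto puncturedDisc)
open Pool.Agent.H17LG.Variety (FunField IsLogGeneralType)
open Pool.Agent.H62.FC (Homog)
open Pool.Agent.H17R (openVar)

noncomputable section

namespace Pool.Agent.H13.CV

variable {N : ℕ}

theorem form_of_curve0 (Q : Ideal (MvPolynomial (Fin (N + 1)) ℂ)) [Q.IsPrime] (hQ : Homog Q)
    (hz : ∃ z : Fin 1 → FunField Q, IsTranscendenceBasis ℂ z) {f : ℂ → PN N} (hf : HolomorphicInto f Set.univ)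
    (hfQ : ∀ z, ∀ R ∈ Q, ∀ n, R.IsHomogeneous n → VanishesAt R (f z)) (hne : ∃ z w, f z ≠ f w) {d : ℕ} {R : MvPolynomial (Fin (N + 1)) ℂ} (hR : R.IsHomogeneous d)
    (hfR : ∀ z, VanishesAt R (f z)) : R ∈ Q := by
  by_contra hRQ
  set J := Pool.Agent.H17BP.mapIdeal f Set.univ with hJ
  have hJp : J.IsPrime := Pool.Agent.H17BP.mapIdeal_isPrime isOpen_univ isPreconnected_univ Set.univ_nonempty hf
  have hJX : ∃ i, (X i : MvPolynomial (Fin (N + 1)) ℂ) ∉ J := Pool.Agent.H17BP.exists_X_notMem Set.univ_nonempty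
  have hJh : Homog J := Pool.Agent.H17BP.mapIdeal_homog
  have hQJ : Q ≤ J := Pool.Agent.H17BP.le_mapIdeal hQ fun z _ => ⟨hfQ z, fun m => m.elim0⟩
  have hRJ : R ∈ J := (Pool.Agent.H17BP.mem_mapIdeal_form hR).2 fun z _ => hfR z
  obtain ⟨w, hw⟩ := Pool.Agent.H62.FC.exists_fin_basis (P := J) hJX
  have hlt : w < 1 := Pool.Agent.H17BP.trdeg_lt hQ hJh hQJ (fun h => hRQ (h hRJ)) hJX hz hw
  have hw0 : w = 0 := by omega
  subst hw0
  obtain ⟨a, b, hab⟩ := hne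
  exact hab (Pool.Agent.H17BP.eq_of_trdeg_zero hJh hJX hw _ (Pool.Agent.H17BP.mem_variety_mapIdeal (Set.mem_univ a)) _
    (Pool.Agent.H17BP.mem_variety_mapIdeal (Set.mem_univ b)))

end Pool.Agent.H13.CV

end
end

section

/-!
# G3 Z JAn: the integral along short paths is holomorphic on arcs

Let `F`, `G` be curves in `X` over the arc `γ` near `z₀`, `γ z₀ ∈ Gd D δ` off `D` and the distance of `pr (F z)`, `pr (G z)` at most `ε₀` near `z₀`, where `Cst X Λ u D δ' ε ε₀` (`TG/Defs`, `TG/Cp`).  Then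
`z ↦ JJ α (γ z) (pr (F z)) (pr (G z))` is analytic at `z₀`.  See `II_analytic` (`TG/Jan`, for sections over open subsets of `ℂ^(k+1)`) and `jj_eq_II` (`TG/JJ`): same proof with the curves
`q (F z)`, `q (G z)` in a straight chart with `Cap` around `pr (F z₀)`: `II = (A (q (G z)) - A (q (F z))) / ρ^(k+1)` (`IRel.eq_cap`, `II_eq` in `TG/Un`), `A` a primitive (`exists_prim`), analytic.
-/

set_option autoImplicit false

open Topology Filter Metric

namespace Pool.Agent.G3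

open Pool.Agent.H36.BP (EN fs wd Sub)
open Pool.Agent.H14.PP (IsCone CurveAt Tan)
open Pool.Agent.H62.EF (MN pr)
open Pool.Agent.AD (Vd Chart Charts)
open Pool.Agent.TG (TMap Lat Geo Gd)

open Pool.Agent.TG (VForm JJ Fb TransAt)

variable {N k : ℕ} {X : Set (EN N)} {Λ : AddSubgroup (Vd (k + 1))} {u : EN N → Vd (k + 1)} {D B : Set (Vd (k + 1))} {p : EN N → EN N → ℝ} {m d : ℕ} {C : ℝ}
  {Q : EN N → ℂ} {S : Set (Vd (k + 1) → MN N)}

theorem jj_an (G₀ : Geo X Λ u D B) {δ ε ε₀ : ℝ} (hc : Pool.Agent.TG.Cst X Λ u D δ ε ε₀) (α : VForm X Λ u) {F G : ℂ → EN N} {γ : ℂ → Vd (k + 1)} {z₀ : ℂ} {r : ℝ} (hr : 0 < r)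
    (hF : Cv X Λ u (ball z₀ r) F γ) (hG : Cv X Λ u (ball z₀ r) G γ) (hγ : ∀ z ∈ ball z₀ r, γ z ∈ Gd D δ) (hd : ∀ z ∈ ball z₀ r, dist (pr (F z)) (pr (G z)) ≤ ε₀) :
    DifferentiableOn ℂ (fun z => JJ α (γ z) (pr (F z)) (pr (G z))) (ball z₀ r) := by
  intro z₁ hz₁
  have hX := G₀.cone
  have hε := hc.ε_pos
  have hfF : ∀ z ∈ ball z₀ r, pr (F z) ∈ Fb X Λ u (γ z) := fun z hz => Pool.Agent.TG.mem_fb (hF.mem z hz) (hF.lift z hz)
  have hfG : ∀ z ∈ ball z₀ r, pr (G z) ∈ Fb X Λ u (γ z) := fun z hz => Pool.Agent.TG.mem_fb (hG.mem z hz) (hG.lift z hz)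
  have hrel : ∀ z ∈ ball z₀ r, ∃ v, Pool.Agent.TG.IRel α ε (γ z) (pr (F z)) (pr (G z)) v := fun z hz =>
    hc.rel (γ z) (hγ z hz) (pr (F z)) (hfF z hz) (pr (G z)) (hfG z hz) (hd z hz) α
  obtain ⟨χ, c, ρ, hcap⟩ := hc.cap (γ z₁) (hγ z₁ hz₁) (pr (F z₁)) (hfF z₁ hz₁)
  obtain ⟨A, hA⟩ := Pool.Agent.TG.exists_prim α χ hcap.str
  have hUz : ball z₀ r ∈ 𝓝 z₁ := isOpen_ball.mem_nhds hz₁
  have hFa : AnalyticAt ℂ F z₁ := hF.F_diff.analyticAt hUz
  have hGa : AnalyticAt ℂ G z₁ := hG.F_diff.analyticAt hUz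
  have hγa : AnalyticAt ℂ γ z₁ := hF.h_diff.analyticAt hUz
  have hsub : closedBall (0 : Vd (k + 2)) 1 ⊆ ball (0 : Vd (k + 2)) 2 := closedBall_subset_ball (by norm_num)
  have hy₁ : γ z₁ ∈ closedBall (γ z₁) (3 * ε) := mem_closedBall_self (by linarith)
  obtain ⟨v₁, hv₁⟩ := hrel z₁ hz₁
  obtain ⟨-, -, hFG⟩ := hv₁.mem
  obtain ⟨hφU, hφq, -⟩ := hcap.cap (γ z₁) hy₁ (F z₁) (hF.mem z₁ hz₁) (hF.lift z₁ hz₁) (by rw [dist_self]; linarith)
  obtain ⟨hψU, hψq, -⟩ := hcap.cap (γ z₁) hy₁ (G z₁) (hG.mem z₁ hz₁) (hG.lift z₁ hz₁) (hFG.trans (by linarith))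
  have a1 : AnalyticAt ℂ (fun z => A (χ.q (F z))) z₁ :=
    AnalyticAt.comp (f := fun z => χ.q (F z)) (g := A) (hA.an _ (hsub hφq)) (AnalyticAt.comp (f := F) (g := χ.q) (χ.q_an _ hφU) hFa)
  have a2 : AnalyticAt ℂ (fun z => A (χ.q (G z))) z₁ :=
    AnalyticAt.comp (f := fun z => χ.q (G z)) (g := A) (hA.an _ (hsub hψq)) (AnalyticAt.comp (f := G) (g := χ.q) (χ.q_an _ hψU) hGa)
  have hρ : (ρ : ℂ) ^ (k + 1) ≠ 0 := by
    have h1 := hcap.str.pos
    exact pow_ne_zero _ (by exact_mod_cast h1.ne')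
  have a3 : AnalyticAt ℂ (fun z => (A (χ.q (G z)) - A (χ.q (F z))) / (ρ : ℂ) ^ (k + 1)) z₁ := (a2.sub a1).div analyticAt_const hρ
  have e3 : ∀ᶠ z in 𝓝 z₁, γ z ∈ closedBall (γ z₁) (3 * ε) := hγa.continuousAt.eventually (closedBall_mem_nhds _ (by linarith))
  have e4 : ∀ᶠ z in 𝓝 z₁, dist (pr (F z)) (pr (F z₁)) < ε := by
    have h1 : ContinuousAt (fun z => pr (F z)) z₁ := ContinuousAt.comp (f := F) (g := pr)
      (Pool.Agent.H62.EF.continuousAt_pr (Pool.Agent.TG.ne_zero hX (hF.mem z₁ hz₁))) hFa.continuousAt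
    exact h1.eventually (ball_mem_nhds _ hε)
  have a4 : AnalyticAt ℂ (fun z => JJ α (γ z) (pr (F z)) (pr (G z))) z₁ := by
    refine a3.congr ?_
    filter_upwards [hUz, e3, e4] with z h1 h3 h4
    rw [Pool.Agent.TG.jj_eq_II hX G₀.tor G₀.lat hc (hγ z h1) (hfF z h1) (hfG z h1) (hd z h1)]
    exact (Pool.Agent.TG.II_eq hX G₀.tor G₀.lat (hrel z h1) hcap hA h3 (by linarith) (hF.mem z h1) (hG.mem z h1) rfl rfl).symm
  exact a4.differentiableAt.differentiableWithinAt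

end Pool.Agent.G3

end

section

/-!
# G4 Z JW: the weighted bounds for the integrals

`II_tht`: `II (α j) ε (y + l) m m' = exp (L y + c) II (α j) ε y m m'` for `l ∈ Γ` (a factor which depends only on `y` is constant in the fibres).
With the compactness of `ℂ^(k+1) / Γ` the bounds of `A.jb`, `A.jn` for `‖y‖ ≤ R` give `jbw_of_frm`: upper and lower bounds with the same weight `wt W`.
-/

set_option autoImplicit false

open Topology Filter Metric

namespace Pool.Agent.G4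

open Pool.Agent.H36.BP (EN fs wd Sub)
open Pool.Agent.H14.PP (IsCone CurveAt Tan)
open Pool.Agent.H62.EF (MN pr)
open Pool.Agent.AD (Vd Chart Charts)
open Pool.Agent.TG
open Pool.Agent.G3 (Cv wt PS QD Crs)

variable {N k : ℕ}

theorem wt_nonneg {r : ℕ} (W : Fin r → Vd (k + 1) →L[ℂ] ℂ) (y : Vd (k + 1)) : 0 ≤ wt W y := Finset.sum_nonneg fun i _ => by positivity

theorem wt_cont {r : ℕ} (W : Fin r → Vd (k + 1) →L[ℂ] ℂ) : Continuous (wt W) := by
  unfold wt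
  exact continuous_finsetSum _ fun i _ => ((W i).continuous.norm.pow 2)

/-- the weight is bounded on balls -/
theorem wt_le {r : ℕ} (W : Fin r → Vd (k + 1) →L[ℂ] ℂ) (R : ℝ) : ∃ M : ℝ, 0 ≤ M ∧ ∀ y : Vd (k + 1), ‖y‖ ≤ R → wt W y ≤ M := by
  refine ⟨∑ i, (‖W i‖ * R) ^ 2, Finset.sum_nonneg fun i _ => by positivity, fun y hy => ?_⟩
  unfold wt
  refine Finset.sum_le_sum fun i _ => ?_
  refine pow_le_pow_left₀ (norm_nonneg _) ?_ 2
  exact ((W i).le_opNorm y).trans (mul_le_mul_of_nonneg_left hy (norm_nonneg _))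

/-- the weight is positive definite -/
theorem wt_ge {r : ℕ} {W : Fin r → Vd (k + 1) →L[ℂ] ℂ} (hW : ∀ y, (∀ i, W i y = 0) → y = 0) :
    ∃ c : ℝ, 0 < c ∧ ∀ y : Vd (k + 1), c * ‖y‖ ^ 2 ≤ wt W y := by
  have hpos : ∀ y ∈ sphere (0 : Vd (k + 1)) 1, 0 < wt W y := by
    intro y hy
    rw [mem_sphere_zero_iff_norm] at hy
    rcases (wt_nonneg W y).eq_or_lt with h1 | h1
    · exfalso
      have h2 : ∀ i, W i y = 0 := by
        intro i
        have h3 := (Finset.sum_eq_zero_iff_of_nonneg (s := Finset.univ) (f := fun i => ‖W i y‖ ^ 2) fun i _ => by positivity).1 h1.symm i (Finset.mem_univ i)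
        exact norm_eq_zero.1 (pow_eq_zero_iff (two_ne_zero)|>.1 h3)
      rw [hW y h2, norm_zero] at hy
      exact zero_ne_one hy
    · exact h1
  have hne : (sphere (0 : Vd (k + 1)) 1).Nonempty := by
    refine ⟨fun _ => 1, ?_⟩
    rw [mem_sphere_zero_iff_norm]
    simp [pi_norm_const]
  obtain ⟨y₁, hy₁, hmin⟩ := (isCompact_sphere (0 : Vd (k + 1)) 1).exists_isMinOn hne (wt_cont W).continuousOn
  refine ⟨wt W y₁, hpos y₁ hy₁, fun y => ?_⟩
  by_cases hy : y = 0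
  · subst hy
    simp [wt]
  · have hn : 0 < ‖y‖ := norm_pos_iff.2 hy
    set c : ℂ := (((‖y‖⁻¹ : ℝ)) : ℂ) with hcd
    have hcn : ‖c‖ = ‖y‖⁻¹ := by rw [hcd, Complex.norm_real, norm_inv, norm_norm]
    have h1 : c • y ∈ sphere (0 : Vd (k + 1)) 1 := by
      rw [mem_sphere_zero_iff_norm, norm_smul, hcn]
      exact inv_mul_cancel₀ hn.ne'
    have h2 : wt W y₁ ≤ wt W (c • y) := hmin h1
    have h3 : wt W (c • y) = (‖y‖⁻¹) ^ 2 * wt W y := by
      unfold wt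
      rw [Finset.mul_sum]
      refine Finset.sum_congr rfl fun i _ => ?_
      rw [map_smul, norm_smul, hcn, mul_pow]
    rw [h3] at h2
    have h4 := mul_le_mul_of_nonneg_right h2 (by positivity : 0 ≤ ‖y‖ ^ 2)
    have h5 : (‖y‖⁻¹) ^ 2 * wt W y * ‖y‖ ^ 2 = wt W y := by
      field_simp
    rwa [h5] at h4

variable {X : Set (EN N)} {Λ : AddSubgroup (Vd (k + 1))} {u : EN N → Vd (k + 1)} {D B : Set (Vd (k + 1))}

/-- a factor which is a function of `y` -/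
theorem irel_mul {α β : VForm X Λ u} {e : Vd (k + 1) → ℂ} (he : ∀ y, AnalyticAt ℂ e y)
    (h : ∀ y, ∀ x ∈ X, u x - y ∈ Λ → ∀ v : Fin (k + 2) → EN N, (∀ i, Tan X x (v i)) → β.toFun y x v = e y * α.toFun y x v)
    {ε : ℝ} {y : Vd (k + 1)} {m m' : MN N} {v : ℂ} (hv : IRel α ε y m m' v) : IRel β ε y m m' (e y * v) := by
  obtain ⟨χ, c, ρ, A, p, p', hst, hA, hp, hp', hpz, hpz', hpy, hpy', hseg, hv⟩ := hv
  have hms : ∀ q, AnalyticAt ℂ (ms (k := k) c ρ) q := fun q => ms_an c ρ q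
  refine ⟨χ, c, ρ, fun q => e (ms c ρ q) * A q, p, p', hst, ⟨fun q hq => ((he _).comp (hms q)).mul (hA.an q hq), fun q hq => ?_, fun q hq h0 => ?_⟩, hp, hp', hpz, hpz', hpy,
    hpy', hseg, ?_⟩
  · have hd1 : HasFDerivAt (fun q => e (ms c ρ q)) (fderiv ℂ (fun q => e (ms c ρ q)) q) q := ((he _).comp (hms q)).differentiableAt.hasFDerivAt
    have hd2 : HasFDerivAt A (fderiv ℂ A q) q := (hA.an q hq).differentiableAt.hasFDerivAt
    have h0 : fderiv ℂ (fun q => e (ms c ρ q)) q (Pi.single 0 1) = 0 := by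
      have h1 : HasDerivAt (fun t : ℂ => q + t • (Pi.single 0 1 : Vd (k + 2))) (Pi.single 0 1) 0 := by
        have := ((hasDerivAt_id (0 : ℂ)).smul_const (Pi.single 0 1 : Vd (k + 2))).const_add q
        rwa [one_smul] at this
      have hd1' : HasFDerivAt (fun q => e (ms c ρ q)) (fderiv ℂ (fun q => e (ms c ρ q)) q) (q + (0 : ℂ) • (Pi.single 0 1 : Vd (k + 2))) := by
        rw [zero_smul, add_zero]
        exact hd1
      have h2 := hd1'.comp_hasDerivAt (0 : ℂ) h1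
      have h3 : ((fun q => e (ms c ρ q)) ∘ fun t : ℂ => q + t • (Pi.single 0 1 : Vd (k + 2))) = fun _ => e (ms c ρ q) := by
        funext t
        show e (ms c ρ (q + t • (Pi.single 0 1 : Vd (k + 2)))) = _
        congr 1
        unfold ms
        congr 2
        funext i
        show (q + t • (Pi.single 0 1 : Vd (k + 2))) i.succ = q i.succ
        simp
      rw [h3] at h2
      exact h2.unique (hasDerivAt_const _ _)
    have hd3 : fderiv ℂ (fun q => e (ms c ρ q) * A q) q = e (ms c ρ q) • fderiv ℂ A q + A q • fderiv ℂ (fun q => e (ms c ρ q)) q := (hd1.mul hd2).fderiv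
    rw [hd3]
    simp only [ContinuousLinearMap.add_apply, ContinuousLinearMap.smul_apply, smul_eq_mul]
    rw [h0, mul_zero, add_zero, hA.der q hq]
    show _ = β.toFun (ms c ρ q) (χ.σ q) _
    rw [h _ _ (χ.σ_mem q hq).1 (hst.lift q hq) _ fun i => tan_sigma χ hq _]
    rfl
  · show e (ms c ρ q) * A q = 0
    rw [hA.zero q hq h0, mul_zero]
  · show e y * v = (e (ms c ρ p') * A p' - e (ms c ρ p) * A p) / (ρ : ℂ) ^ (k + 1)
    rw [hpz, hpz', hv]
    ring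

/-- the theta factors of the integrals -/
theorem II_tht (G : Geo X Λ u D B) {Γ : AddSubgroup (Vd (k + 1))} {r : ℕ} {W : Fin r → Vd (k + 1) →L[ℂ] ℂ} {α : VForm X Λ u} (hle : Γ ≤ Λ) (h : Pool.Agent.G3.A.Tht Γ W α)
    {δ ε ε₀ : ℝ} (hc : Cst X Λ u D δ ε ε₀) {l : Vd (k + 1)} (hl : l ∈ Γ) {y : Vd (k + 1)} (hy : y ∈ Gd D δ) {m m' : MN N} (hm : m ∈ Fb X Λ u y) (hm' : m' ∈ Fb X Λ u y)
    (hd : dist m m' ≤ ε₀) : ‖II α ε (y + l) m m'‖ = Real.exp (wt W y - wt W (y + l)) * ‖II α ε y m m'‖ := by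
  obtain ⟨L, c, h1, h2⟩ := h l hl
  obtain ⟨v, hv⟩ := hc.rel y hy m hm m' hm' hd α
  obtain ⟨χ, c', ρ, hcap⟩ := hc.cap y hy m hm
  have hε := hc.ε_pos
  have he : ∀ y : Vd (k + 1), AnalyticAt ℂ (fun y => Complex.exp (L y + c)) y := fun y => ((L.analyticAt y).add analyticAt_const).cexp
  have h3 := irel_mul (β := α.shift (hle hl)) he (fun y x hx hy v hv => h2 y x hx hy v hv) hv
  rw [← II_shift (hle hl), II_of_rel G.cone G.tor G.lat le_rfl hv hcap (by linarith), II_of_rel G.cone G.tor G.lat le_rfl h3 hcap (by linarith), norm_mul, h1]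

/-- the weighted bounds -/
theorem jbw_of_frm (G : Geo X Λ u D B) {Γ : AddSubgroup (Vd (k + 1))} {J r : ℕ} {W : Fin r → Vd (k + 1) →L[ℂ] ℂ} {α : Fin J → VForm X Λ u}
    (h : Pool.Agent.G3.A.Frm X Λ u D Γ W α) : JBw X Λ u D α W := by
  obtain ⟨c₀, C₀, hc₀, hC₀, hdec⟩ := h.dec G
  obtain ⟨R, -, hR⟩ := h.lat.cpt
  obtain ⟨M, hM0, hM⟩ := wt_le W R
  -- translation
  have key : ∀ {δ ε ε₀ : ℝ}, Cst X Λ u D δ ε ε₀ → ∀ y ∈ Gd D δ, ∃ l ∈ Γ, y - l ∈ Gd D δ ∧ ‖y - l‖ ≤ R ∧ Fb X Λ u (y - l) = Fb X Λ u y ∧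
      ∀ j, ∀ m ∈ Fb X Λ u y, ∀ m' ∈ Fb X Λ u y, dist m m' ≤ ε₀ →
        ‖JJ (α j) y m m'‖ = Real.exp (wt W (y - l) - wt W y) * ‖II (α j) ε (y - l) m m'‖ := by
    intro δ ε ε₀ hc y hy
    obtain ⟨l, hl, hyl⟩ := hR y
    have h1 : y - l ∈ Gd D δ := by
      rw [sub_eq_add_neg]
      exact (G.gd_add δ (Λ.neg_mem (h.le hl))).2 hy
    have h2 : Fb X Λ u (y - l) = Fb X Λ u y := by
      rw [sub_eq_add_neg, fb_add (Λ.neg_mem (h.le hl))]
    refine ⟨l, hl, h1, hyl, h2, fun j m hm m' hm' hd => ?_⟩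
    have h3 := II_tht G h.le (h.per j) hc hl h1 (by rw [h2]; exact hm) (by rw [h2]; exact hm') hd
    rw [sub_add_cancel] at h3
    rw [jj_eq_II G.cone G.tor G.lat hc hy hm hm' hd, h3]
  refine ⟨h.pos, fun δ hδ => ?_, fun δ hδ => ?_⟩
  · obtain ⟨ε, ε₀, -, -, hc⟩ := exists_cst G hδ one_pos
    choose C hC0 hC using fun j => Pool.Agent.G3.A.jb G (hdec j) hC₀ hc
    have hs : 0 ≤ ∑ j, C j := Finset.sum_nonneg fun j _ => (hC0 j).le
    refine ⟨ε₀, Real.exp M * (1 + ∑ j, C j), hc.ε₀_pos, by positivity, fun j y hy n hn n' hn' hd => ?_⟩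
    obtain ⟨l, hl, h1, h2, h3, h4⟩ := key hc y hy
    rw [h4 j n hn n' hn' hd]
    have h5 : ‖II (α j) ε (y - l) n n'‖ ≤ (1 + ∑ j, C j) * dist n n' := by
      have h6 := hC j (y - l) h1 n (by rw [h3]; exact hn) n' (by rw [h3]; exact hn') hd
      have h7 : C j ≤ 1 + ∑ j, C j := by
        have h8 := Finset.single_le_sum (f := fun j => C j) (fun j _ => (hC0 j).le) (Finset.mem_univ j)
        linarith
      have h8 : Real.exp (-(c₀ * ‖y - l‖ ^ 2)) ≤ 1 := Real.exp_le_one_iff.2 (by nlinarith [sq_nonneg ‖y - l‖])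
      calc ‖II (α j) ε (y - l) n n'‖ ≤ C j * Real.exp (-(c₀ * ‖y - l‖ ^ 2)) * dist n n' := h6
        _ ≤ (1 + ∑ j, C j) * 1 * dist n n' := by
          refine mul_le_mul_of_nonneg_right ?_ dist_nonneg
          exact mul_le_mul h7 h8 (Real.exp_nonneg _) (by linarith)
        _ = _ := by ring
    have h6 : Real.exp (wt W (y - l) - wt W y) ≤ Real.exp M * Real.exp (-wt W y) := by
      rw [← Real.exp_add]
      exact Real.exp_le_exp.2 (by linarith [hM (y - l) h2])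
    calc Real.exp (wt W (y - l) - wt W y) * ‖II (α j) ε (y - l) n n'‖ ≤ (Real.exp M * Real.exp (-wt W y)) * ((1 + ∑ j, C j) * dist n n') :=
          mul_le_mul h6 h5 (norm_nonneg _) (by positivity)
      _ = _ := by ring
  · obtain ⟨ε, ε₀, -, -, hc⟩ := exists_cst G hδ one_pos
    obtain ⟨ε₁, c, hε₁, hle, hc0, hb⟩ := Pool.Agent.G3.A.jn G h.sep hc R
    refine ⟨ε₁, c, hε₁, hc0, fun y hy n hn n' hn' hd => ?_⟩
    obtain ⟨l, hl, h1, h2, h3, h4⟩ := key hc y hy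
    obtain ⟨j, hj⟩ := hb (y - l) h1 h2 n (by rw [h3]; exact hn) n' (by rw [h3]; exact hn') hd
    refine ⟨j, ?_⟩
    rw [h4 j n hn n' hn' (hd.trans hle)]
    have h6 : Real.exp (-wt W y) ≤ Real.exp (wt W (y - l) - wt W y) := Real.exp_le_exp.2 (by linarith [wt_nonneg W (y - l)])
    calc c * Real.exp (-wt W y) * dist n n' = Real.exp (-wt W y) * (c * dist n n') := by ring
      _ ≤ _ := mul_le_mul h6 hj (by positivity) (Real.exp_nonneg _)

/-- the weighted bounds imply the bounds of `G3` -/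
theorem JBw.jbd {J r : ℕ} {W : Fin r → Vd (k + 1) →L[ℂ] ℂ} {α : Fin J → VForm X Λ u} (h : JBw X Λ u D α W) : ∃ c₀ : ℝ, Pool.Agent.G3.JBd X Λ u D α c₀ := by
  obtain ⟨c₀, hc₀, hwt⟩ := wt_ge h.pos
  refine ⟨c₀, hc₀, fun δ hδ => ?_, fun δ R hδ => ?_⟩
  · obtain ⟨ε₀, C, h1, h2, h3⟩ := h.ub δ hδ
    refine ⟨ε₀, C, h1, h2, fun j y hy n hn n' hn' hd => (h3 j y hy n hn n' hn' hd).trans ?_⟩
    refine mul_le_mul_of_nonneg_right (mul_le_mul_of_nonneg_left (Real.exp_le_exp.2 ?_) h2.le) dist_nonneg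
    linarith [hwt y]
  · obtain ⟨ε₀, c, h1, h2, h3⟩ := h.lb δ hδ
    obtain ⟨M, hM0, hM⟩ := wt_le W R
    refine ⟨ε₀, c * Real.exp (-M), h1, by positivity, fun y hy hyR n hn n' hn' hd => ?_⟩
    obtain ⟨j, hj⟩ := h3 y hy n hn n' hn' hd
    refine ⟨j, le_trans ?_ hj⟩
    exact mul_le_mul_of_nonneg_right (mul_le_mul_of_nonneg_left (Real.exp_le_exp.2 (by linarith [hM y hyR])) h2.le) dist_nonneg

end Pool.Agent.G4

end
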