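import Pool.Agent.H94.G4T.M103
import Pool.Agent.H94.G4T.M105
import Pool.Agent.H94.G4T.M112
import Pool.Agent.H94.G4T.M125
import Pool.Agent.H94.G4T.M126
import Pool.Agent.H94.G4T.M53
import Pool.Agent.H94.G4T.M84

/-! The parts of this file: G4.Z.Core, G4.Z.LctC. -/

section

/-!
# G4 Z Core: the inequality between two circles

`gv n w`: the vector of the functions `gg (α j) ^ μ E n exp (Lam (0))`.  `core`: if `gv n → Q` at `w'` and uniformly on the circle of radius `r ≤ 1` around `w'`, the point `w' a + b` is in `Gd D δ₂` and the circle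
is mapped into `Gd D δ₁`, then `‖Q w'‖ ‖f w'‖ ≤ C₃ sup ‖Q w‖ ‖f w‖` over the circle, for holomorphic `f`; `C₃` depends only on `δ₁`, `δ₂`.

Proof.  `JBw.ub` at `w'`, `mda` for the distance of the curve and of the section (`sec_arc`), `JBw.lb` on the circle; the weights: `wt W (w a + b) = wt W (w' a + b) + Re (ell) + const ‖w - w'‖ ^ 2` (`wt_line`).
-/

set_option autoImplicit false

open Topology Filter Metric

namespace Pool.Agent.G4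

open Pool.Agent.H36.BP (EN fs wd Sub)
open Pool.Agent.H14.PP (IsCone CurveAt Tan)
open Pool.Agent.H62.EF (MN pr)
open Pool.Agent.AD (Vd Chart Charts)
open Pool.Agent.TG (TMap Lat Geo Gd)

open Pool.Agent.TG (VForm JJ II Cst Fb TransAt)
open Pool.Agent.G3 (Cv wt PS QD Crs Lim Arr gg Lq Lam Np pf Ok)

variable {N k : ℕ} {X : Set (EN N)} {Λ : AddSubgroup (Vd (k + 1))} {u : EN N → Vd (k + 1)} {D B : Set (Vd (k + 1))} {p : EN N → EN N → ℝ} {m d : ℕ} {C : ℝ}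
  {Q : EN N → ℂ} {S : Set (Vd (k + 1) → MN N)} {J r : ℕ} {α : Fin J → VForm X Λ u} {W : Fin r → Vd (k + 1) →L[ℂ] ℂ} {𝒰 : Ultrafilter ℕ} {F : ℕ → ℂ → EN N} {h : ℕ → ℂ → Vd (k + 1)}
  {E : ℕ → ℂ → ℂ} {a b : Vd (k + 1)} {Φ : Vd (k + 1) → MN N}

/-- the linear part of the weight -/
noncomputable def ell (W : Fin r → Vd (k + 1) →L[ℂ] ℂ) (a b : Vd (k + 1)) (z w : ℂ) : ℂ := ∑ i, 2 * ((starRingEnd ℂ) (W i (z • a + b)) * (W i a * (w - z)))

theorem ell_diff (W : Fin r → Vd (k + 1) →L[ℂ] ℂ) (a b : Vd (k + 1)) (z : ℂ) : Differentiable ℂ (ell W a b z) := by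
  unfold ell
  fun_prop

theorem ell_self (W : Fin r → Vd (k + 1) →L[ℂ] ℂ) (a b : Vd (k + 1)) (z : ℂ) : ell W a b z z = 0 := by
  unfold ell
  simp

/-- the weight on a line -/
theorem wt_line (W : Fin r → Vd (k + 1) →L[ℂ] ℂ) (a b : Vd (k + 1)) (z w : ℂ) :
    wt W (w • a + b) = wt W (z • a + b) + (ell W a b z w).re + (∑ i, ‖W i a‖ ^ 2) * ‖w - z‖ ^ 2 := by
  unfold wt ell
  rw [Complex.re_sum, Finset.sum_mul, ← Finset.sum_add_distrib, ← Finset.sum_add_distrib]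
  refine Finset.sum_congr rfl fun i _ => ?_
  have h1 : W i (w • a + b) = W i (z • a + b) + W i a * (w - z) := by
    rw [map_add, map_add, map_smul, map_smul, smul_eq_mul, smul_eq_mul]
    ring
  have h2 : ‖W i a‖ ^ 2 * ‖w - z‖ ^ 2 = ‖W i a * (w - z)‖ ^ 2 := by rw [norm_mul, mul_pow]
  rw [h1, h2]
  generalize W i (z • a + b) = x
  generalize W i a * (w - z) = y
  rw [Complex.sq_norm, Complex.sq_norm, Complex.sq_norm, Complex.normSq_apply, Complex.normSq_apply, Complex.normSq_apply]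
  simp only [Complex.add_re, Complex.add_im, Complex.mul_re, Complex.conj_re, Complex.conj_im, Complex.re_ofNat, Complex.im_ofNat, Complex.mul_im]
  ring

/-- the weight is uniformly continuous on balls -/
theorem wt_unif (W : Fin r → Vd (k + 1) →L[ℂ] ℂ) (R : ℝ) {ε : ℝ} (hε : 0 < ε) :
    ∃ η : ℝ, 0 < η ∧ ∀ y y' : Vd (k + 1), ‖y‖ ≤ R → ‖y'‖ ≤ R → ‖y - y'‖ < η → |wt W y - wt W y'| < ε := by
  have h1 := (isCompact_closedBall (0 : Vd (k + 1)) R).uniformContinuousOn_of_continuous (wt_cont W).continuousOn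
  rw [Metric.uniformContinuousOn_iff] at h1
  obtain ⟨η, hη, h2⟩ := h1 ε hε
  refine ⟨η, hη, fun y y' hy hy' hd => ?_⟩
  have h3 := h2 y (mem_closedBall_zero_iff.2 hy) y' (mem_closedBall_zero_iff.2 hy') (by rwa [dist_eq_norm])
  rwa [Real.dist_eq] at h3

/-- the vector of the functions -/
noncomputable def gv (α : Fin J → VForm X Λ u) (Φ : Vd (k + 1) → MN N) (F : ℕ → ℂ → EN N) (h : ℕ → ℂ → Vd (k + 1)) (E : ℕ → ℂ → ℂ) (Q : EN N → ℂ) (d : ℕ) (p : EN N → EN N → ℝ) (m μ n : ℕ)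
    (w : ℂ) : Fin J → ℂ := fun j => gg (α j) Φ (F n) (h n) w ^ μ * E n w * ((Real.exp (Lam Q d p m (F n) (h n) 0) : ℝ) : ℂ)

theorem gv_norm (μ n : ℕ) (w : ℂ) (j : Fin J) :
    ‖gv α Φ F h E Q d p m μ n w j‖ = ‖gg (α j) Φ (F n) (h n) w‖ ^ μ * ‖E n w‖ * Real.exp (Lam Q d p m (F n) (h n) 0) := by
  unfold gv
  rw [norm_mul, norm_mul, norm_pow, Complex.norm_real, Real.norm_of_nonneg (Real.exp_pos _).le]

private theorem core_near {δ t : ℝ} {y y' : Vd (k + 1)} (hy : y ∈ Gd D (δ + t)) (h : ‖y' - y‖ ≤ t) : y' ∈ Gd D δ := by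
  intro b hb
  have h1 := hy b hb
  have h2 : ‖y - b‖ ≤ ‖y' - b‖ + ‖y' - y‖ := by
    calc ‖y - b‖ = ‖(y' - b) - (y' - y)‖ := by congr 1; abel
      _ ≤ _ := norm_sub_le _ _
  linarith only [h, h1, h2]

theorem core (H : Sit X Λ u D B p m C Q d S α W) (hΦ : Φ ∈ S) (A : Arr X Λ u D Q d p m 𝒰 F h E a b Φ) (μ : ℕ) {δ₁ δ₂ : ℝ} (hδ₁ : 0 < δ₁) (hδ₂ : 0 < δ₂) :
    ∃ C₃ : ℝ, 0 < C₃ ∧ ∀ (P : ℂ → Fin J → ℂ) (w' : ℂ) (r : ℝ), 0 < r → r ≤ 1 → w' • a + b ∈ Gd D δ₂ → (∀ w, dist w w' = r → w • a + b ∈ Gd D δ₁) →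
      (∀ ε : ℝ, 0 < ε → ∀ᶠ n in (𝒰 : Filter ℕ), ‖gv α Φ F h E Q d p m μ n w' - P w'‖ < ε ∧ ∀ w, dist w w' = r → ‖gv α Φ F h E Q d p m μ n w - P w‖ < ε) →
      ∀ f : ℂ → ℂ, DifferentiableOn ℂ f (closedBall w' r) → ∀ T : ℝ, (∀ w, dist w w' = r → ‖P w‖ * ‖f w‖ ≤ T) → ‖P w'‖ * ‖f w'‖ ≤ C₃ * T := by
  have ha : 0 < ‖a‖ := norm_pos_iff.2 A.lim.a_ne
  obtain ⟨ε₁, C₁, hε₁, hC₁, hub⟩ := H.jbw.ub (δ₂ / 2) (half_pos hδ₂)
  obtain ⟨ε₂, c₂, hε₂, hc₂, hlb⟩ := H.jbw.lb (δ₁ / 2) (half_pos hδ₁)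
  obtain ⟨C₀, hC₀, hmd⟩ := mda H.geo.cone H.ps (half_pos hδ₂) A.lim.a_ne μ
  set κ₀ : ℝ := ∑ i, ‖W i a‖ ^ 2 with hκ₀
  have hκ₀0 : 0 ≤ κ₀ := Finset.sum_nonneg fun i _ => by positivity
  refine ⟨C₁ ^ μ * C₀ * (c₂⁻¹) ^ μ * Real.exp (μ * κ₀ + 2), by positivity, fun P w' r hr hr1 hw' hcirc hlim f hf T hT => ?_⟩
  -- a bound for `f`
  have hKc : IsCompact (closedBall w' r) := isCompact_closedBall w' r
  obtain ⟨B', hB'⟩ := hKc.exists_bound_of_continuousOn hf.continuousOn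
  have hw'm : w' ∈ closedBall w' r := mem_closedBall_self hr.le
  have hB'0 : 0 ≤ B' := (norm_nonneg _).trans (hB' w' hw'm)
  -- it suffices to prove the inequality with `ε`
  suffices key : ∀ ε : ℝ, 0 < ε → ‖P w'‖ * ‖f w'‖ ≤ C₁ ^ μ * C₀ * (c₂⁻¹) ^ μ * Real.exp (μ * κ₀ + 2) * (T + ε * B') + ε * B' by
    have h1 : Tendsto (fun ε : ℝ => C₁ ^ μ * C₀ * (c₂⁻¹) ^ μ * Real.exp (μ * κ₀ + 2) * (T + ε * B') + ε * B') (𝓝[>] 0)
        (𝓝 (C₁ ^ μ * C₀ * (c₂⁻¹) ^ μ * Real.exp (μ * κ₀ + 2) * (T + 0 * B') + 0 * B')) := by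
      refine Tendsto.mono_left ?_ nhdsWithin_le_nhds
      exact Continuous.tendsto (by fun_prop) 0
    rw [zero_mul, add_zero, add_zero] at h1
    refine ge_of_tendsto h1 ?_
    filter_upwards [self_mem_nhdsWithin] with ε hε
    exact key ε hε
  intro ε hε
  have hKD : ∀ z ∈ insert w' (sphere w' r), z • a + b ∉ D := by
    rintro z (rfl | hz)
    · exact Pool.Agent.TG.gd_notMem hδ₂ hw'
    · exact Pool.Agent.TG.gd_notMem hδ₁ (hcirc z (mem_sphere.1 hz))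
  have hKK : IsCompact (insert w' (sphere w' r)) := (isCompact_sphere w' r).insert w'
  set R : ℝ := ‖w'‖ + 9 with hR
  have hRpos : 0 < R := by positivity
  have hRsub : ∀ z : ℂ, dist z w' ≤ 8 → z ∈ ball (0 : ℂ) (‖w'‖ + 17 / 2) := by
    intro z hz
    rw [mem_ball_zero_iff]
    rw [dist_eq_norm] at hz
    calc ‖z‖ = ‖(z - w') + w'‖ := by rw [sub_add_cancel]
      _ ≤ ‖z - w'‖ + ‖w'‖ := norm_add_le _ _
      _ < ‖w'‖ + 17 / 2 := by linarith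
  have hR2 : ball (0 : ℂ) (‖w'‖ + 17 / 2) ⊆ ball (0 : ℂ) R := ball_subset_ball (by linarith)
  -- the weights
  set R' : ℝ := R * ‖a‖ + ‖b‖ + 1 with hR'
  obtain ⟨η, hη, hηw⟩ := wt_unif W R' (ε := 1 / ((μ : ℝ) + 1)) (by positivity)
  set t : ℝ := min (min (δ₁ / 2) (δ₂ / 2)) (min η 1) with ht
  have htpos : 0 < t := lt_min (lt_min (by positivity) (by positivity)) (lt_min hη one_pos)
  have ht1 : t ≤ δ₁ / 2 := (min_le_left _ _).trans (min_le_left _ _)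
  have ht2 : t ≤ δ₂ / 2 := (min_le_left _ _).trans (min_le_right _ _)
  have ht3 : t ≤ η := (min_le_right _ _).trans (min_le_left _ _)
  have ht4 : t ≤ 1 := (min_le_right _ _).trans (min_le_right _ _)
  obtain ⟨n, hcv, hhlim, hdh, hex, hok, hsec, hlimw, hlimc⟩ := ((A.lim.cv R).and ((A.lim.hlim R t htpos).and ((A.dh R (‖a‖ / 2) (half_pos ha)).and ((A.ex R).and (A.ok.and
    ((lct_sec H.geo.cone H.geo.D_closed H.csf hΦ A.lim hKK hKD (lt_min hε₁ hε₂)).and (hlim ε hε))))))).exists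
  -- the section over the arc
  have hisol := lct_isol H.qd hRpos hcv hok.1
  obtain ⟨G, hG, hGe⟩ := sec_arc H.geo.cone H.geo.tor H.geo.lat H.geo.D_closed H.csf hΦ (γ := h n) (r := ‖w'‖ + 17 / 2) (R := R) (by linarith only) hcv.h_diff hisol
  have hb7 : ball w' 7 ⊆ ball (0 : ℂ) (‖w'‖ + 17 / 2) := fun z hz => hRsub z (by rw [mem_ball] at hz; linarith only [hz])
  -- the arc is near the line
  have hnorm : ∀ z ∈ ball (0 : ℂ) (‖w'‖ + 17 / 2), ‖z • a + b‖ ≤ R' ∧ ‖h n z‖ ≤ R' := by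
    intro z hz
    have hzR := hR2 hz
    have h1 : ‖z • a + b‖ ≤ R * ‖a‖ + ‖b‖ := by
      refine (norm_add_le _ _).trans ?_
      rw [norm_smul]
      have h2 : ‖z‖ ≤ R := (mem_ball_zero_iff.1 hzR).le
      linarith only [h2, ha, mul_le_mul_of_nonneg_right h2 ha.le]
    have h2 := hhlim z (ball_subset_closedBall hzR)
    have h3 : ‖h n z‖ ≤ ‖h n z - (z • a + b)‖ + ‖z • a + b‖ := norm_le_norm_sub_add _ _
    constructor <;> linarith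
  have hwt : ∀ z ∈ ball (0 : ℂ) (‖w'‖ + 17 / 2), (μ : ℝ) * |wt W (h n z) - wt W (z • a + b)| ≤ 1 := by
    intro z hz
    have h2 := hhlim z (ball_subset_closedBall (hR2 hz))
    have h3 := hηw _ _ (hnorm z hz).2 (hnorm z hz).1 (h2.trans_le ht3)
    have h4 : (μ : ℝ) * |wt W (h n z) - wt W (z • a + b)| ≤ μ * (1 / ((μ : ℝ) + 1)) := mul_le_mul_of_nonneg_left h3.le (Nat.cast_nonneg μ)
    refine h4.trans ?_
    rw [mul_one_div, div_le_one (by positivity)]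
    linarith only
  have hwb : w' ∈ ball (0 : ℂ) (‖w'‖ + 17 / 2) := hRsub w' (by rw [dist_self]; norm_num)
  have hcb : ∀ w, dist w w' = r → w ∈ ball (0 : ℂ) (‖w'‖ + 17 / 2) := fun w hw => hRsub w (by rw [hw]; linarith)
  have hGd₂ : h n w' ∈ Gd D (δ₂ / 2) := by
    refine core_near (t := δ₂ / 2) (by rw [add_halves]; exact hw') ?_
    exact (hhlim w' (ball_subset_closedBall (hR2 hwb))).le.trans ht2
  have hGd₁ : ∀ w, dist w w' = r → h n w ∈ Gd D (δ₁ / 2) := by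
    intro w hw
    refine core_near (t := δ₁ / 2) (by rw [add_halves]; exact hcirc w hw) ?_
    exact (hhlim w (ball_subset_closedBall (hR2 (hcb w hw)))).le.trans ht1
  set L : ℝ := Lam Q d p m (F n) (h n) 0 with hL
  set w₀ : ℝ := wt W (w' • a + b) with hw₀
  -- the point `w'`
  obtain ⟨hD', hf1, hf2, hdist⟩ := hsec w' (Set.mem_insert _ _)
  set t' : ℝ := dist (Φ (h n w')) (pr (F n w')) with ht'
  have ht'0 : 0 ≤ t' := dist_nonneg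
  have hEp : 0 ≤ ‖E n w'‖ := norm_nonneg _
  have hup : ‖gv α Φ F h E Q d p m μ n w'‖ ≤ C₁ ^ μ * Real.exp (-(μ * w₀) + 1) * t' ^ μ * ‖E n w'‖ * Real.exp L := by
    rw [pi_norm_le_iff_of_nonneg (by positivity)]
    intro j
    rw [gv_norm]
    refine mul_le_mul_of_nonneg_right (mul_le_mul_of_nonneg_right ?_ hEp) (Real.exp_pos _).le
    have h1 := hub j (h n w') hGd₂ _ hf1 _ hf2 (hdist.trans_le (min_le_left _ _)).le
    have h2 : ‖gg (α j) Φ (F n) (h n) w'‖ ^ μ ≤ (C₁ * Real.exp (-wt W (h n w')) * t') ^ μ := pow_le_pow_left₀ (norm_nonneg _) h1 μ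
    refine h2.trans ?_
    rw [mul_pow, mul_pow]
    refine mul_le_mul_of_nonneg_right (mul_le_mul_of_nonneg_left ?_ (by positivity)) (by positivity)
    rw [← Real.exp_nat_mul]
    refine Real.exp_le_exp.2 ?_
    have h3 := hwt w' hwb
    have h4 : (μ : ℝ) * (wt W (w' • a + b) - wt W (h n w')) ≤ μ * |wt W (h n w') - wt W (w' • a + b)| := by
      refine mul_le_mul_of_nonneg_left ?_ (Nat.cast_nonneg μ)
      rw [abs_sub_comm]
      exact le_abs_self _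
    rw [← hw₀] at h4
    linarith only [h3, h4]
  -- the circle
  set Et : ℂ → ℂ := fun w => E n w * f w * Complex.exp (-((μ : ℂ) * ell W a b w' w)) with hEt
  have hsubE : closedBall w' r ⊆ ball (0 : ℂ) R := fun z hz => hR2 (hRsub z (by rw [mem_closedBall] at hz; linarith only [hr1, hz]))
  have hEtd : DifferentiableOn ℂ Et (closedBall w' r) := by
    refine ((hex.1.mono hsubE).mul hf).mul ?_
    exact (((ell_diff W a b w').const_mul (μ : ℂ)).neg.cexp).differentiableOn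
  have hEtn : ∀ w, ‖Et w‖ = ‖E n w‖ * ‖f w‖ * Real.exp (-(μ * (ell W a b w' w).re)) := by
    intro w
    rw [hEt]
    simp only
    rw [norm_mul, norm_mul, Complex.norm_exp]
    congr 2
    rw [Complex.neg_re, Complex.mul_re, Complex.natCast_re, Complex.natCast_im, zero_mul, sub_zero]
  set S' : ℝ := (c₂⁻¹) ^ μ * Real.exp (μ * w₀ + μ * κ₀ + 1) * Real.exp (-L) * (T + ε * B') with hS'
  have hcircle : ∀ w, dist w w' = r → dist (pr (F n w)) (pr (G w)) ^ μ * ‖Et w‖ ≤ S' := by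
    intro w hw
    have hwm : w ∈ insert w' (sphere w' r) := Set.mem_insert_of_mem _ (mem_sphere.2 hw)
    obtain ⟨hDw, hg1, hg2, hdw⟩ := hsec w hwm
    rw [hGe w (hcb w hw) hDw, dist_comm]
    obtain ⟨j, hj⟩ := hlb (h n w) (hGd₁ w hw) _ hg1 _ hg2 (hdw.trans_le (min_le_right _ _)).le
    set s : ℝ := dist (Φ (h n w)) (pr (F n w)) with hs
    have hs0 : 0 ≤ s := dist_nonneg
    have h1 : (c₂ * Real.exp (-wt W (h n w)) * s) ^ μ ≤ ‖gg (α j) Φ (F n) (h n) w‖ ^ μ := pow_le_pow_left₀ (by positivity) hj μ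
    have h2 : ‖gg (α j) Φ (F n) (h n) w‖ ^ μ * ‖E n w‖ * Real.exp L ≤ ‖gv α Φ F h E Q d p m μ n w‖ := by
      rw [← gv_norm]
      exact norm_le_pi_norm _ j
    have h3 : ‖gv α Φ F h E Q d p m μ n w‖ * ‖f w‖ ≤ T + ε * B' := by
      have h4 : ‖gv α Φ F h E Q d p m μ n w‖ ≤ ‖P w‖ + ε := by
        have h5 := norm_le_norm_sub_add (gv α Φ F h E Q d p m μ n w) (P w)
        linarith only [h5, hlimc, hw, hlimc w hw]
      have h5 : ‖f w‖ ≤ B' := hB' w (mem_closedBall.2 hw.le)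
      calc ‖gv α Φ F h E Q d p m μ n w‖ * ‖f w‖ ≤ (‖P w‖ + ε) * ‖f w‖ := mul_le_mul_of_nonneg_right h4 (norm_nonneg _)
        _ = ‖P w‖ * ‖f w‖ + ε * ‖f w‖ := by ring
        _ ≤ T + ε * B' := add_le_add (hT w hw) (mul_le_mul_of_nonneg_left h5 hε.le)
    rw [hEtn]
    -- the weights
    have h4 : (μ : ℝ) * wt W (h n w) - μ * (ell W a b w' w).re ≤ μ * w₀ + μ * κ₀ + 1 := by
      have h5 := hwt w (hcb w hw)
      have h6 : (μ : ℝ) * (wt W (h n w) - wt W (w • a + b)) ≤ μ * |wt W (h n w) - wt W (w • a + b)| :=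
        mul_le_mul_of_nonneg_left (le_abs_self _) (Nat.cast_nonneg μ)
      have h7 := wt_line W a b w' w
      rw [← hκ₀, ← dist_eq_norm, hw, ← hw₀] at h7
      have h8 : κ₀ * r ^ 2 ≤ κ₀ := by
        have h9 : r ^ 2 ≤ 1 := by nlinarith only [hr1, hr]
        nlinarith only [hκ₀0, h9]
      have h9 : (μ : ℝ) * (κ₀ * r ^ 2) ≤ μ * κ₀ := mul_le_mul_of_nonneg_left h8 (Nat.cast_nonneg μ)
      rw [h7] at h6 h5
      linarith only [h5, h6, h9]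
    have h5 : s ^ μ = (c₂⁻¹) ^ μ * Real.exp (μ * wt W (h n w)) * (c₂ * Real.exp (-wt W (h n w)) * s) ^ μ := by
      rw [mul_pow, mul_pow, ← Real.exp_nat_mul, inv_pow]
      have e1 : Real.exp ((μ : ℝ) * wt W (h n w)) * Real.exp ((μ : ℝ) * -wt W (h n w)) = 1 := by
        rw [← Real.exp_add, mul_neg, add_neg_cancel, Real.exp_zero]
      have e2 : (c₂ ^ μ)⁻¹ * c₂ ^ μ = 1 := inv_mul_cancel₀ (pow_ne_zero _ hc₂.ne')
      calc s ^ μ = ((c₂ ^ μ)⁻¹ * c₂ ^ μ) * (Real.exp ((μ : ℝ) * wt W (h n w)) * Real.exp ((μ : ℝ) * -wt W (h n w))) * s ^ μ := by rw [e1, e2]; ring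
        _ = _ := by ring
    have h6 : Real.exp L * Real.exp (-L) = 1 := by rw [← Real.exp_add, add_neg_cancel, Real.exp_zero]
    calc s ^ μ * (‖E n w‖ * ‖f w‖ * Real.exp (-(μ * (ell W a b w' w).re)))
        = (c₂⁻¹) ^ μ * (Real.exp (μ * wt W (h n w)) * Real.exp (-(μ * (ell W a b w' w).re))) * ((c₂ * Real.exp (-wt W (h n w)) * s) ^ μ * ‖E n w‖ * ‖f w‖) := by
          conv_lhs => rw [h5]
          ring
      _ ≤ (c₂⁻¹) ^ μ * Real.exp (μ * w₀ + μ * κ₀ + 1) * (‖gg (α j) Φ (F n) (h n) w‖ ^ μ * ‖E n w‖ * ‖f w‖) := by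
          refine mul_le_mul (mul_le_mul_of_nonneg_left ?_ (by positivity)) ?_ (by positivity) (by positivity)
          · rw [← Real.exp_add]
            exact Real.exp_le_exp.2 (by linarith only [h4])
          · exact mul_le_mul_of_nonneg_right (mul_le_mul_of_nonneg_right h1 (norm_nonneg _)) (norm_nonneg _)
      _ = (c₂⁻¹) ^ μ * Real.exp (μ * w₀ + μ * κ₀ + 1) * Real.exp (-L) * ((‖gg (α j) Φ (F n) (h n) w‖ ^ μ * ‖E n w‖ * Real.exp L) * ‖f w‖) := by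
          calc _ = (c₂⁻¹) ^ μ * Real.exp (μ * w₀ + μ * κ₀ + 1) * (‖gg (α j) Φ (F n) (h n) w‖ ^ μ * ‖E n w‖ * ‖f w‖) * (Real.exp L * Real.exp (-L)) := by rw [h6, mul_one]
            _ = _ := by ring
      _ ≤ (c₂⁻¹) ^ μ * Real.exp (μ * w₀ + μ * κ₀ + 1) * Real.exp (-L) * (T + ε * B') := by
          refine mul_le_mul_of_nonneg_left ?_ (by positivity)
          exact (mul_le_mul_of_nonneg_right h2 (norm_nonneg _)).trans h3
  have hcv7 : Cv X Λ u (ball w' 7) (F n) (h n) := hcv.mono (hb7.trans hR2)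
  have hG7 : Cv X Λ u (ball w' 7) G (h n) := hG.mono hb7
  have hmain := hmd (F n) G (h n) w' hcv7 hG7 (fun w hw => hdh w (hR2 (hb7 hw))) hGd₂ r hr hr1 Et hEtd S' hcircle
  rw [hGe w' hwb hD', dist_comm, ← ht', hEtn, ell_self, Complex.zero_re, mul_zero, neg_zero, Real.exp_zero, mul_one] at hmain
  have h1 : ‖P w'‖ ≤ ‖gv α Φ F h E Q d p m μ n w'‖ + ε := by
    have h5 := norm_le_norm_sub_add (P w') (gv α Φ F h E Q d p m μ n w')
    rw [norm_sub_rev] at h5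
    linarith only [hlimw, h5]
  have h2 : ‖f w'‖ ≤ B' := hB' w' hw'm
  calc ‖P w'‖ * ‖f w'‖ ≤ (‖gv α Φ F h E Q d p m μ n w'‖ + ε) * ‖f w'‖ := mul_le_mul_of_nonneg_right h1 (norm_nonneg _)
    _ = ‖gv α Φ F h E Q d p m μ n w'‖ * ‖f w'‖ + ε * ‖f w'‖ := by ring
    _ ≤ (C₁ ^ μ * Real.exp (-(μ * w₀) + 1) * t' ^ μ * ‖E n w'‖ * Real.exp L) * ‖f w'‖ + ε * B' :=
        add_le_add (mul_le_mul_of_nonneg_right hup (norm_nonneg _)) (mul_le_mul_of_nonneg_left h2 hε.le)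
    _ = C₁ ^ μ * Real.exp (-(μ * w₀) + 1) * Real.exp L * (t' ^ μ * (‖E n w'‖ * ‖f w'‖)) + ε * B' := by ring
    _ ≤ C₁ ^ μ * Real.exp (-(μ * w₀) + 1) * Real.exp L * (C₀ * S') + ε * B' := by
        refine add_le_add (mul_le_mul_of_nonneg_left hmain (by positivity)) le_rfl
    _ = C₁ ^ μ * C₀ * (c₂⁻¹) ^ μ * Real.exp (μ * κ₀ + 2) * (T + ε * B') + ε * B' := by
        have e1 : Real.exp (-(μ * w₀) + 1) * Real.exp L * (Real.exp (μ * w₀ + μ * κ₀ + 1) * Real.exp (-L)) = Real.exp (μ * κ₀ + 2) := by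
          rw [← Real.exp_add, ← Real.exp_add, ← Real.exp_add]
          congr 1
          ring
        rw [hS', ← e1]
        ring

end Pool.Agent.G4

end

section

/-!
# G4 Z LctC: upper and lower bounds for the integrals

`μ ≥ 1` and `Z` are the order of `Q` along `Φ` and the exceptional set (`Z/LocA`, `Z/LocB`).

`gg_up`: on a compact `K` of points of the line with distance `≥ δ` from `D ∪ Z`.  For `𝒰`-many `n` the points `h n z`, `z ∈ K`, have distance `≥ δ/2` from `D ∪ Z` and `dist (Φ (h n z)) (pr (F n z))` is less than the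
`ε₀` of `ordQ_bounds` (with `x = F n z`, `y = h n z`) and of `JBd.ub` (`lct_sec`).  If `Q (F n z) = 0` then the distance is `0` by `ordQ_bounds`, so `gg = 0` by `JBd.ub`.  Otherwise `Ok` holds:
`p ≥ c fs ^ m ≥ c (‖h'‖ / C) ^ m > 0` (`PS.ge_fs`, `PS.du`, `Cv.tan`, `‖h'‖ ≥ ‖a‖ / 2`), and `Np ≤ log (C ^ m / c)` or `0`; by the inequality `star` (`ε = 1`):
`‖Q (F n z)‖ / ‖F n z‖ ^ d = exp (- Lq) ≤ exp (1 + d Np - Lam (0)) / ‖E n z‖`, and `‖gg‖ ^ μ ≤ C exp (- μ c₀ ‖h n z‖ ^ 2) dist ^ μ ≤ C' exp (- μ c₀ ‖h n z‖ ^ 2) ‖Q‖ / ‖F‖ ^ d`;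
`‖h n z‖ ^ 2 ≥ ‖a‖ ^ 2 ‖z‖ ^ 2 / 2 - C''`.  The constant `C` depends only on `δ` (and `c` not even on `δ`).

`gg_lo`: choose `z₀ ∈ U` with `z₀ ≠ 0` and `z₀ • a + b ∉ D ∪ Z` (countable), a small closed ball `K` around it in `U` which does not meet the closed set `{z | z • a + b ∈ D ∪ Z}`; `exists_good` and `mean_bd` with `r = ‖z₀‖`,
`O` the open ball; so for `𝒰`-many `n` there is `z ∈ K` with `Ok` and `Lam (z) ≤ Lam (0) + log ‖E n z‖ + K'`, so (`Lq ≤ Lam`) `‖Q (F n z)‖ / ‖F n z‖ ^ d ≥ exp (- Lam (0) - K') / ‖E n z‖`; with `ordQ_bounds` and `JBd.lb`: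
`c ≤ ‖gg (α j)‖ ^ μ ‖E n z‖ exp (Lam (0))` for some `j`.
-/

set_option autoImplicit false

open Topology Filter Metric

namespace Pool.Agent.G4

open Pool.Agent.H36.BP (EN fs wd Sub)
open Pool.Agent.H14.PP (IsCone CurveAt Tan)
open Pool.Agent.H62.EF (MN pr)
open Pool.Agent.AD (Vd Chart Charts)
open Pool.Agent.TG (TMap Lat Geo Gd)

open Pool.Agent.TG (VForm JJ II Cst Fb TransAt)
open Pool.Agent.G3 (Cv wt PS QD Crs Lim Arr gg Lq Lam Np pf Ok mean_bd exists_good)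

variable {N k : ℕ} {X : Set (EN N)} {Λ : AddSubgroup (Vd (k + 1))} {u : EN N → Vd (k + 1)} {D B : Set (Vd (k + 1))} {p : EN N → EN N → ℝ} {m d : ℕ} {C : ℝ}
  {Q : EN N → ℂ} {S : Set (Vd (k + 1) → MN N)} {J r : ℕ} {α : Fin J → VForm X Λ u} {W : Fin r → Vd (k + 1) →L[ℂ] ℂ} {𝒰 : Ultrafilter ℕ} {F : ℕ → ℂ → EN N} {h : ℕ → ℂ → Vd (k + 1)} {E : ℕ → ℂ → ℂ}
  {a b : Vd (k + 1)} {Φ : Vd (k + 1) → MN N}

/-- the distance of the arc from a set -/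
private theorem LctC_dist {V : Set (Vd (k + 1))} {δ : ℝ} {y q : Vd (k + 1)} (hq : ∀ w ∈ V, δ ≤ ‖q - w‖) (hy : ‖y - q‖ ≤ δ / 2) : ∀ w ∈ V, δ / 2 ≤ ‖y - w‖ := by
  intro w hw
  have h1 := hq w hw
  have h2 : ‖q - w‖ ≤ ‖q - y‖ + ‖y - w‖ := norm_sub_le_norm_sub_add_norm_sub q y w
  rw [norm_sub_rev q y] at h2
  linarith only [hy, h1, h2]

private theorem LctC_exp_lq {d : ℕ} {x : EN N} (hx : x ≠ 0) {Q : EN N → ℂ} (hQ : Q x ≠ 0) : Real.exp (Lq Q d x) = ‖x‖ ^ d / ‖Q x‖ := by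
  unfold Lq
  rw [Real.exp_sub, Real.exp_log (norm_pos_iff.2 hQ), ← Real.log_pow, Real.exp_log (pow_pos (norm_pos_iff.2 hx) d)]

theorem gg_up (H : Sit X Λ u D B p m C Q d S α W) (hΦ : Φ ∈ S) (A : Arr X Λ u D Q d p m 𝒰 F h E a b Φ) {μ M : ℕ} (hμ : 1 ≤ μ) (hM : 1 ≤ M) {Z : Set (Vd (k + 1))}
    (hZ : ∀ y ∉ D, OrdAt X Λ u Q Φ μ Z y) (hp : ∀ y ∈ Z, ∀ l ∈ Λ, y + M • l ∈ Z) :
    ∃ c : ℝ, 0 < c ∧ ∀ δ : ℝ, 0 < δ → ∃ C' : ℝ, ∀ K : Set ℂ, IsCompact K → (∀ z ∈ K, ∀ w ∈ D ∪ Z, δ ≤ ‖z • a + b - w‖) →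
      ∀ᶠ n in (𝒰 : Filter ℕ), ∀ z ∈ K, ∀ j, ‖gg (α j) Φ (F n) (h n) z‖ ^ μ * ‖E n z‖ * Real.exp (Lam Q d p m (F n) (h n) 0) ≤ C' * Real.exp (-c * ‖z‖ ^ 2) := by
  have ha : 0 < ‖a‖ := norm_pos_iff.2 A.lim.a_ne
  obtain ⟨c₀, hjbd⟩ := H.jbw.jbd
  have hc₀ : 0 < c₀ := hjbd.pos
  have hμ0 : μ ≠ 0 := by omega
  have hμp : (0 : ℝ) < μ := by exact_mod_cast hμ
  obtain ⟨-, hord⟩ := ordQ_bounds H.geo H.csf H.qd hΦ hμ hM hZ hp
  refine ⟨μ * c₀ * ‖a‖ ^ 2 / 2, by positivity, fun δ hδ => ?_⟩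
  obtain ⟨ε₁, C₁, hε₁, hC₁, hord'⟩ := hord (δ / 2) (half_pos hδ)
  obtain ⟨ε₂, C₂, hε₂, hC₂, hub⟩ := hjbd.ub (δ / 2) (half_pos hδ)
  obtain ⟨c₃, hc₃, hge⟩ := H.ps.ge_fs (δ / 2) (half_pos hδ)
  have hC0 : 0 < C := one_pos.trans_le H.ps.C_ge
  set N₁ : ℝ := max 0 (-Real.log (c₃ / C ^ m)) with hN₁
  refine ⟨C₂ ^ μ * Real.exp (1 + d * N₁) * C₁ * Real.exp (μ * c₀ * (‖b‖ + 1) ^ 2), fun K hK hKδ => ?_⟩
  have hKD : ∀ z ∈ K, z • a + b ∉ D := by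
    intro z hz hzD
    have h1 := hKδ z hz _ (Or.inl hzD)
    rw [sub_self, norm_zero] at h1
    linarith only [hδ, h1]
  obtain ⟨r, hr⟩ := hK.isBounded.subset_closedBall (0 : ℂ)
  have hr1 : 0 < |r| + 1 := by positivity
  filter_upwards [A.lim.hlim r (min (δ / 2) 1) (lt_min (half_pos hδ) one_pos), lct_sec H.geo.cone H.geo.D_closed H.csf hΦ A.lim hK hKD (lt_min hε₁ hε₂),
    A.dh (|r| + 1) (‖a‖ / 2) (half_pos ha), A.lim.cv (|r| + 1), A.star (|r| + 1) 1 one_pos, A.ex (|r| + 1)] with n hlim hsec hdh hcv hstar hex z hz j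
  have hzr : z ∈ closedBall (0 : ℂ) r := hr hz
  have hzb : z ∈ ball (0 : ℂ) (|r| + 1) := by
    rw [mem_closedBall, dist_zero_right] at hzr
    rw [mem_ball, dist_zero_right]
    have := le_abs_self r
    linarith only [hzr, this]
  have hyq := hlim z hzr
  have hy1 : ‖h n z - (z • a + b)‖ ≤ δ / 2 := (hyq.trans_le (min_le_left _ _)).le
  have hy2 : ‖h n z - (z • a + b)‖ ≤ 1 := (hyq.trans_le (min_le_right _ _)).le
  have hyD : ∀ w ∈ D ∪ Z, δ / 2 ≤ ‖h n z - w‖ := LctC_dist (hKδ z hz) hy1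
  have hGd : h n z ∈ Gd D (δ / 2) := fun w hw => hyD w (Or.inl hw)
  obtain ⟨-, hf1, hf2, hdist⟩ := hsec z hz
  have hxX := hcv.mem z hzb
  have hxl := hcv.lift z hzb
  have hx0 : F n z ≠ 0 := Pool.Agent.TG.ne_zero H.geo.cone hxX
  have hxn : 0 < ‖F n z‖ := norm_pos_iff.2 hx0
  have hd1 : dist (pr (F n z)) (Φ (h n z)) ≤ ε₁ := by
    rw [dist_comm]
    exact (hdist.trans_le (min_le_left _ _)).le
  obtain ⟨-, ho2⟩ := hord' (h n z) hyD (F n z) hxX hxl hd1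
  have hj := hub j (h n z) hGd _ hf1 _ hf2 (hdist.trans_le (min_le_right _ _)).le
  rw [dist_comm] at ho2
  set t : ℝ := dist (Φ (h n z)) (pr (F n z)) with ht
  have ht0 : 0 ≤ t := dist_nonneg
  have hgg : ‖gg (α j) Φ (F n) (h n) z‖ ^ μ ≤ C₂ ^ μ * Real.exp (-c₀ * ‖h n z‖ ^ 2) ^ μ * t ^ μ := by
    rw [← mul_pow, ← mul_pow]
    exact pow_le_pow_left₀ (norm_nonneg _) hj μ
  have hEL : 0 ≤ ‖E n z‖ * Real.exp (Lam Q d p m (F n) (h n) 0) := mul_nonneg (norm_nonneg _) (Real.exp_nonneg _)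
  rw [mul_assoc]
  by_cases hQ0 : Q (F n z) = 0
  · rw [hQ0, norm_zero, mul_zero] at ho2
    have h1 : t ^ μ ≤ 0 := by
      by_contra hcon
      push Not at hcon
      have := mul_pos (pow_pos hxn d) hcon
      linarith only [ho2, this]
    have h2 : ‖gg (α j) Φ (F n) (h n) z‖ ^ μ ≤ 0 := by
      refine hgg.trans ?_
      exact mul_nonpos_of_nonneg_of_nonpos (by positivity) h1
    have h3 : ‖gg (α j) Φ (F n) (h n) z‖ ^ μ * (‖E n z‖ * Real.exp (Lam Q d p m (F n) (h n) 0)) ≤ 0 := mul_nonpos_of_nonpos_of_nonneg h2 hEL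
    refine h3.trans ?_
    positivity
  · have hQn : 0 < ‖Q (F n z)‖ := norm_pos_iff.2 hQ0
    -- the derivative
    have hdz := hdh z hzb
    have hdlo : ‖a‖ / 2 ≤ ‖deriv (h n) z‖ := by
      have h1 : ‖a‖ ≤ ‖a - deriv (h n) z‖ + ‖deriv (h n) z‖ := norm_le_norm_sub_add a _
      rw [norm_sub_rev] at h1
      linarith only [hdz, h1]
    have hdpos : 0 < ‖deriv (h n) z‖ := (half_pos ha).trans_le hdlo
    have hdu := H.ps.du _ (F n) (h n) isOpen_ball hcv z hzb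
    have hfs : ‖deriv (h n) z‖ / C ≤ fs (F n z) (deriv (F n) z) := by
      rw [div_le_iff₀ hC0, mul_comm]
      exact hdu
    have hpge := hge (h n z) hGd (F n z) hxX hxl (deriv (F n) z) (hcv.tan isOpen_ball hzb)
    have hp1 : c₃ * (‖deriv (h n) z‖ / C) ^ m ≤ pf p (F n) z := (mul_le_mul_of_nonneg_left (pow_le_pow_left₀ (by positivity) hfs m) hc₃.le).trans hpge
    have hppos : 0 < pf p (F n) z := lt_of_lt_of_le (by positivity) hp1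
    have hN : Np p m (F n) (h n) z ≤ N₁ := by
      unfold Np
      refine max_le_max le_rfl ?_
      rw [neg_le_neg_iff]
      refine Real.log_le_log (by positivity) ?_
      rw [le_div_iff₀ (by positivity)]
      refine le_trans (le_of_eq ?_) hp1
      rw [div_pow]
      ring
    have hst := hstar z hzb ⟨hQ0, hppos⟩
    have hEn : 0 < ‖E n z‖ := norm_pos_iff.2 (hex.2.1 z hzb)
    have hL : Lam Q d p m (F n) (h n) 0 + Real.log ‖E n z‖ ≤ (1 + d * N₁) + Lq Q d (F n z) := by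
      have h1 : Lam Q d p m (F n) (h n) z = Lq Q d (F n z) + d * Np p m (F n) (h n) z := rfl
      have h2 : (d : ℝ) * Np p m (F n) (h n) z ≤ d * N₁ := mul_le_mul_of_nonneg_left hN (Nat.cast_nonneg d)
      linarith only [hst, h1, h2]
    have hE : ‖E n z‖ * Real.exp (Lam Q d p m (F n) (h n) 0) ≤ Real.exp (1 + d * N₁) * (‖F n z‖ ^ d / ‖Q (F n z)‖) := by
      have h1 := Real.exp_le_exp.2 hL
      rw [Real.exp_add, Real.exp_add, Real.exp_log hEn, LctC_exp_lq hx0 hQ0, mul_comm] at h1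
      exact h1
    have hpr : t ^ μ * (‖F n z‖ ^ d / ‖Q (F n z)‖) ≤ C₁ := by
      rw [mul_div_assoc', div_le_iff₀ hQn, mul_comm]
      exact ho2
    -- the weight
    have hsq : ‖a‖ ^ 2 * ‖z‖ ^ 2 / 2 - (‖b‖ + 1) ^ 2 ≤ ‖h n z‖ ^ 2 := by
      have h1 : ‖z‖ * ‖a‖ ≤ ‖h n z‖ + (‖b‖ + 1) := by
        have e : z • a = (z • a + b - h n z) + (h n z - b) := by abel
        rw [← norm_smul, e]
        have h2 := norm_add_le (z • a + b - h n z) (h n z - b)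
        have h3 := norm_sub_le (h n z) b
        rw [norm_sub_rev (z • a + b)] at h2
        linarith only [hy2, h2, h3]
      have h2 : (‖z‖ * ‖a‖) ^ 2 ≤ (‖h n z‖ + (‖b‖ + 1)) ^ 2 := pow_le_pow_left₀ (by positivity) h1 2
      nlinarith only [h2, sq_nonneg (‖h n z‖ - (‖b‖ + 1))]
    have hexp : Real.exp (-c₀ * ‖h n z‖ ^ 2) ^ μ ≤ Real.exp (μ * c₀ * (‖b‖ + 1) ^ 2) * Real.exp (-(μ * c₀ * ‖a‖ ^ 2 / 2) * ‖z‖ ^ 2) := by
      rw [← Real.exp_nat_mul, ← Real.exp_add]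
      apply Real.exp_le_exp.2
      have h1 : (μ : ℝ) * c₀ * (‖a‖ ^ 2 * ‖z‖ ^ 2 / 2 - (‖b‖ + 1) ^ 2) ≤ μ * c₀ * ‖h n z‖ ^ 2 := mul_le_mul_of_nonneg_left hsq (by positivity)
      linarith only [h1]
    calc ‖gg (α j) Φ (F n) (h n) z‖ ^ μ * (‖E n z‖ * Real.exp (Lam Q d p m (F n) (h n) 0))
        ≤ (C₂ ^ μ * Real.exp (-c₀ * ‖h n z‖ ^ 2) ^ μ * t ^ μ) * (Real.exp (1 + d * N₁) * (‖F n z‖ ^ d / ‖Q (F n z)‖)) :=
          mul_le_mul hgg hE hEL (by positivity)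
      _ = C₂ ^ μ * Real.exp (1 + d * N₁) * (t ^ μ * (‖F n z‖ ^ d / ‖Q (F n z)‖)) * Real.exp (-c₀ * ‖h n z‖ ^ 2) ^ μ := by ring
      _ ≤ C₂ ^ μ * Real.exp (1 + d * N₁) * C₁ * (Real.exp (μ * c₀ * (‖b‖ + 1) ^ 2) * Real.exp (-(μ * c₀ * ‖a‖ ^ 2 / 2) * ‖z‖ ^ 2)) := by
          refine mul_le_mul (mul_le_mul_of_nonneg_left hpr (by positivity)) hexp (by positivity) (by positivity)
      _ = C₂ ^ μ * Real.exp (1 + d * N₁) * C₁ * Real.exp (μ * c₀ * (‖b‖ + 1) ^ 2) * Real.exp (-(μ * c₀ * ‖a‖ ^ 2 / 2) * ‖z‖ ^ 2) := by ring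

theorem gg_lo (H : Sit X Λ u D B p m C Q d S α W) (hΦ : Φ ∈ S) (A : Arr X Λ u D Q d p m 𝒰 F h E a b Φ) {μ M : ℕ} (hμ : 1 ≤ μ) (hM : 1 ≤ M) {Z : Set (Vd (k + 1))}
    (hZ : ∀ y ∉ D, OrdAt X Λ u Q Φ μ Z y) (hp : ∀ y ∈ Z, ∀ l ∈ Λ, y + M • l ∈ Z) (hZc : Set.Countable {z : ℂ | z • a + b ∈ D ∪ Z}) {U : Set ℂ} (hU : IsOpen U) (hUn : U.Nonempty) :
    ∃ (K : Set ℂ) (c : ℝ), IsCompact K ∧ K ⊆ U ∧ (∀ z ∈ K, z • a + b ∉ D) ∧ 0 < c ∧
      ∀ᶠ n in (𝒰 : Filter ℕ), ∃ z ∈ K, ∃ j, c ≤ ‖gg (α j) Φ (F n) (h n) z‖ ^ μ * ‖E n z‖ * Real.exp (Lam Q d p m (F n) (h n) 0) := by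
  have ha : 0 < ‖a‖ := norm_pos_iff.2 A.lim.a_ne
  have hμ0 : μ ≠ 0 := by omega
  obtain ⟨hcl, hord⟩ := ordQ_bounds H.geo H.csf H.qd hΦ hμ hM hZ hp
  obtain ⟨c₀, hjbd⟩ := H.jbw.jbd
  -- the point `z₀`
  have hdense : Dense ({z : ℂ | z • a + b ∈ D ∪ Z} ∪ {0})ᶜ := (hZc.union (Set.countable_singleton 0)).dense_compl ℝ
  obtain ⟨z₀, hz₀U, hz₀⟩ := hdense.inter_open_nonempty U hU hUn
  have hz₀D : z₀ • a + b ∉ D ∪ Z := fun h => hz₀ (Or.inl h)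
  have hz₀0 : z₀ ≠ 0 := fun h => hz₀ (Or.inr h)
  obtain ⟨δ₀, hδ₀, hball⟩ := Metric.isOpen_iff.1 hcl.isOpen_compl _ hz₀D
  obtain ⟨ρ₁, hρ₁, hU₁⟩ := Metric.isOpen_iff.1 hU _ hz₀U
  set ρ : ℝ := min (ρ₁ / 2) (δ₀ / 2 / ‖a‖) with hρd
  have hρ : 0 < ρ := lt_min (half_pos hρ₁) (by positivity)
  have hKU : closedBall z₀ ρ ⊆ U := by
    refine Set.Subset.trans ?_ hU₁
    refine closedBall_subset_ball ?_
    exact (min_le_left _ _).trans_lt (half_lt_self hρ₁)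
  set δ : ℝ := δ₀ / 2 with hδd
  have hδ : 0 < δ := half_pos hδ₀
  have hKδ : ∀ z ∈ closedBall z₀ ρ, ∀ w ∈ D ∪ Z, δ ≤ ‖z • a + b - w‖ := by
    intro z hz w hw
    have h1 : δ₀ ≤ ‖w - (z₀ • a + b)‖ := by
      by_contra hcon
      push Not at hcon
      exact hball (by rwa [mem_ball, dist_eq_norm]) hw
    have h2 : ‖z • a + b - (z₀ • a + b)‖ ≤ δ₀ / 2 := by
      have e : z • a + b - (z₀ • a + b) = (z - z₀) • a := by
        rw [sub_smul]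
        abel
      rw [e, norm_smul]
      have h3 : ‖z - z₀‖ ≤ δ₀ / 2 / ‖a‖ := by
        rw [mem_closedBall, dist_eq_norm] at hz
        exact hz.trans (min_le_right _ _)
      calc ‖z - z₀‖ * ‖a‖ ≤ δ₀ / 2 / ‖a‖ * ‖a‖ := mul_le_mul_of_nonneg_right h3 ha.le
        _ = δ₀ / 2 := by field_simp
    have h3 : ‖w - (z₀ • a + b)‖ ≤ ‖w - (z • a + b)‖ + ‖z • a + b - (z₀ • a + b)‖ := norm_sub_le_norm_sub_add_norm_sub _ _ _
    rw [norm_sub_rev w (z • a + b)] at h3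
    linarith only [hδd, h1, h2, h3]
  have hKD : ∀ z ∈ closedBall z₀ ρ, z • a + b ∉ D := by
    intro z hz hzD
    have h1 := hKδ z hz _ (Or.inl hzD)
    rw [sub_self, norm_zero] at h1
    linarith only [hδ, h1]
  -- the constants
  set r : ℝ := ‖z₀‖ with hrd
  have hr : 0 < r := norm_pos_iff.2 hz₀0
  set R : ℝ := r + ρ + 1 with hRd
  have hrR : r < R := by linarith only [hρ]
  obtain ⟨K₁, hmean⟩ := mean_bd (X := X) (Λ := Λ) (u := u) (D := D) (p := p) (m := m) (d := d) (C := C) (Q := Q) H.geo.cone H.ps H.qd (c₀ := ‖a‖ / 2) (H := 3 * ‖a‖ / 2)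
    (half_pos ha) hr hrR
  obtain ⟨K', hgood⟩ := exists_good (K := K₁) H.geo.cone H.ps H.qd hr hrR (O := ball z₀ ρ) isOpen_ball ⟨z₀, mem_ball_self hρ, rfl⟩
  obtain ⟨ε₁, C₁, hε₁, hC₁, hord'⟩ := hord (δ / 2) (half_pos hδ)
  obtain ⟨ε₂, c₂, hε₂, hc₂, hlb⟩ := hjbd.lb (δ / 2) (r * ‖a‖ + ‖b‖ + 1) (half_pos hδ)
  refine ⟨closedBall z₀ ρ, c₂ ^ μ / (C₁ * Real.exp K'), isCompact_closedBall _ _, hKU, hKD, by positivity, ?_⟩
  filter_upwards [A.lim.hlim R (min (δ / 2) 1) (lt_min (half_pos hδ) one_pos),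
    lct_sec H.geo.cone H.geo.D_closed H.csf hΦ A.lim (isCompact_closedBall z₀ ρ) hKD (lt_min hε₁ hε₂), A.dh R (‖a‖ / 2) (half_pos ha), A.lim.cv R, A.star R 1 one_pos, A.ex R, A.ok]
    with n hlim hsec hdh hcv hstar hex hok
  have hdb : ∀ z ∈ ball (0 : ℂ) R, ‖a‖ / 2 ≤ ‖deriv (h n) z‖ ∧ ‖deriv (h n) z‖ ≤ 3 * ‖a‖ / 2 := by
    intro z hz
    have hdz := hdh z hz
    constructor
    · have h1 : ‖a‖ ≤ ‖a - deriv (h n) z‖ + ‖deriv (h n) z‖ := norm_le_norm_sub_add a _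
      rw [norm_sub_rev] at h1
      linarith only [hdz, h1]
    · have h1 : ‖deriv (h n) z‖ ≤ ‖deriv (h n) z - a‖ + ‖a‖ := norm_le_norm_sub_add _ a
      linarith only [hdz, h1]
  obtain ⟨hci, hca⟩ := hmean (F n) (h n) hcv hdb hok
  obtain ⟨z, hzO, hzr, hzok, hzL⟩ := hgood (F n) (h n) (E n) hcv hok hex.1 hex.2.1 hex.2.2 hci hca fun z hz hzok =>
    hstar z (by rw [mem_ball_zero_iff, hz]; exact hrR) hzok
  have hzK : z ∈ closedBall z₀ ρ := ball_subset_closedBall hzO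
  have hzb : z ∈ ball (0 : ℂ) R := by rw [mem_ball_zero_iff, hzr]; exact hrR
  have hyq := hlim z (ball_subset_closedBall hzb)
  have hy1 : ‖h n z - (z • a + b)‖ ≤ δ / 2 := (hyq.trans_le (min_le_left _ _)).le
  have hy2 : ‖h n z - (z • a + b)‖ ≤ 1 := (hyq.trans_le (min_le_right _ _)).le
  have hyD : ∀ w ∈ D ∪ Z, δ / 2 ≤ ‖h n z - w‖ := LctC_dist (hKδ z hzK) hy1
  have hGd : h n z ∈ Gd D (δ / 2) := fun w hw => hyD w (Or.inl hw)
  obtain ⟨-, hf1, hf2, hdist⟩ := hsec z hzK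
  have hxX := hcv.mem z hzb
  have hxl := hcv.lift z hzb
  have hx0 : F n z ≠ 0 := Pool.Agent.TG.ne_zero H.geo.cone hxX
  have hxn : 0 < ‖F n z‖ := norm_pos_iff.2 hx0
  have hd1 : dist (pr (F n z)) (Φ (h n z)) ≤ ε₁ := by
    rw [dist_comm]
    exact (hdist.trans_le (min_le_left _ _)).le
  obtain ⟨ho1, -⟩ := hord' (h n z) hyD (F n z) hxX hxl hd1
  have hyR : ‖h n z‖ ≤ r * ‖a‖ + ‖b‖ + 1 := by
    have h1 : ‖h n z‖ ≤ ‖h n z - (z • a + b)‖ + ‖z • a + b‖ := norm_le_norm_sub_add _ _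
    have h2 : ‖z • a + b‖ ≤ ‖z‖ * ‖a‖ + ‖b‖ := by
      rw [← norm_smul]
      exact norm_add_le _ _
    rw [hzr] at h2
    linarith only [hy2, h1, h2]
  obtain ⟨j, hj⟩ := hlb (h n z) hGd hyR _ hf1 _ hf2 (hdist.trans_le (min_le_right _ _)).le
  rw [dist_comm] at ho1
  set t : ℝ := dist (Φ (h n z)) (pr (F n z)) with ht
  have ht0 : 0 ≤ t := dist_nonneg
  refine ⟨z, hzK, j, ?_⟩
  have hEn : 0 < ‖E n z‖ := norm_pos_iff.2 (hex.2.1 z hzb)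
  have hQn : 0 < ‖Q (F n z)‖ := norm_pos_iff.2 hzok.1
  have hLq : Lq Q d (F n z) ≤ Lam Q d p m (F n) (h n) 0 + Real.log ‖E n z‖ + K' := by
    have h1 : Lam Q d p m (F n) (h n) z = Lq Q d (F n z) + d * Np p m (F n) (h n) z := rfl
    have h2 : (0 : ℝ) ≤ d * Np p m (F n) (h n) z := mul_nonneg (Nat.cast_nonneg d) (le_max_left _ _)
    linarith only [hzL, h1, h2]
  have hE : ‖F n z‖ ^ d / ‖Q (F n z)‖ ≤ ‖E n z‖ * Real.exp (Lam Q d p m (F n) (h n) 0) * Real.exp K' := by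
    have h1 := Real.exp_le_exp.2 hLq
    rw [Real.exp_add, Real.exp_add, Real.exp_log hEn, LctC_exp_lq hx0 hzok.1, mul_comm (Real.exp _) ‖E n z‖] at h1
    exact h1
  have hgg : c₂ ^ μ * t ^ μ ≤ ‖gg (α j) Φ (F n) (h n) z‖ ^ μ := by
    rw [← mul_pow]
    exact pow_le_pow_left₀ (by positivity) hj μ
  have h1 : 1 ≤ C₁ * t ^ μ * (‖F n z‖ ^ d / ‖Q (F n z)‖) := by
    rw [mul_div_assoc', le_div_iff₀ hQn, one_mul]
    refine ho1.trans (le_of_eq ?_)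
    ring
  have h2 : 1 ≤ C₁ * t ^ μ * (‖E n z‖ * Real.exp (Lam Q d p m (F n) (h n) 0) * Real.exp K') :=
    h1.trans (mul_le_mul_of_nonneg_left hE (by positivity))
  rw [div_le_iff₀ (by positivity)]
  calc c₂ ^ μ = c₂ ^ μ * 1 := (mul_one _).symm
    _ ≤ c₂ ^ μ * (C₁ * t ^ μ * (‖E n z‖ * Real.exp (Lam Q d p m (F n) (h n) 0) * Real.exp K')) := mul_le_mul_of_nonneg_left h2 (by positivity)
    _ = (c₂ ^ μ * t ^ μ) * (‖E n z‖ * Real.exp (Lam Q d p m (F n) (h n) 0) * (C₁ * Real.exp K')) := by ring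
    _ ≤ ‖gg (α j) Φ (F n) (h n) z‖ ^ μ * (‖E n z‖ * Real.exp (Lam Q d p m (F n) (h n) 0) * (C₁ * Real.exp K')) := mul_le_mul_of_nonneg_right hgg (by positivity)
    _ = ‖gg (α j) Φ (F n) (h n) z‖ ^ μ * ‖E n z‖ * Real.exp (Lam Q d p m (F n) (h n) 0) * (C₁ * Real.exp K') := by ring

end Pool.Agent.G4

end
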