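import Pool.Agent.H94.G4T.M103
import Pool.Agent.H94.G4T.M113
import Pool.Agent.H94.G4T.M87

/-! The parts of this file: TG.Trl, TG.GuF, G4.F.Ln. -/

section

/-!
# TG Trl: translation in the torus: the finiteness theorem for a form which vanishes on the fibre over an arbitrary point off `D`
-/

set_option autoImplicit false

open Topology Filter Metric

namespace Pool.Agent.TG

open Pool.Agent.H36.BP (EN fs wd)
open Pool.Agent.H14.PP (IsCone CurveAt Tan)
open Pool.Agent.H62.EF (MN pr)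
open Pool.Agent.AD (Vd Chart Charts IsGerm)

variable {N k : ℕ} {X : Set (EN N)} {Λ : AddSubgroup (Vd (k + 1))} {u : EN N → Vd (k + 1)} {D B : Set (Vd (k + 1))}

/-- the translated map -/
def uTr (u : EN N → Vd (k + 1)) (a : Vd (k + 1)) (x : EN N) : Vd (k + 1) := u x - a

/-- the translated set -/
def dTr (D : Set (Vd (k + 1))) (a : Vd (k + 1)) : Set (Vd (k + 1)) := {y | y + a ∈ D}

theorem uTr_sub (u : EN N → Vd (k + 1)) (a : Vd (k + 1)) (x : EN N) (y : Vd (k + 1)) : uTr u a x - y = u x - (y + a) := by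
  unfold uTr
  abel

theorem mem_uTr {a : Vd (k + 1)} {x : EN N} {y : Vd (k + 1)} : uTr u a x - y ∈ Λ ↔ u x - (y + a) ∈ Λ := by rw [uTr_sub]

theorem trAn (a y : Vd (k + 1)) : AnalyticAt ℂ (fun z : Vd (k + 1) => z + a) y := analyticAt_id.add analyticAt_const

theorem TMap.trl (h : TMap X Λ u) (a : Vd (k + 1)) : TMap X Λ (uTr u a) where
  smul := fun x hx c hc => by
    have h1 := h.smul x hx c hc
    have h2 : uTr u a (c • x) - uTr u a x = u (c • x) - u x := by
      unfold uTr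
      abel
    rwa [h2]
  loc := fun x hx => by
    obtain ⟨v, hv, h1⟩ := h.loc x hx
    refine ⟨fun y => v y - a, hv.sub analyticAt_const, ?_⟩
    filter_upwards [h1] with y hy hyX
    have h2 : uTr u a y - (v y - a) = u y - v y := by
      unfold uTr
      abel
    rw [h2]
    exact hy hyX

theorem Geo.trl (G : Geo X Λ u D B) (a : Vd (k + 1)) : Geo X Λ (uTr u a) (dTr D a) (dTr B a) where
  cone := G.cone
  charts := G.charts
  tor := G.tor.trl a
  lat := G.lat
  D_closed := G.D_closed.preimage (continuous_id.add continuous_const)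
  D_inv := fun y hy l hl => by
    have h1 := G.D_inv _ hy l hl
    have h2 : y + l + a = y + a + l := by abel
    show y + l + a ∈ D
    rw [h2]
    exact h1
  D_thin := fun y => by
    obtain ⟨h, h1, h2, h3⟩ := G.D_thin (y + a)
    have hc : Tendsto (fun z : Vd (k + 1) => z + a) (𝓝 y) (𝓝 (y + a)) := (trAn a y).continuousAt.tendsto
    refine ⟨fun z => h (z + a), AnalyticAt.fun_comp (g := h) (f := fun z : Vd (k + 1) => z + a) h1 (trAn a y), hc.eventually h2, fun h4 => h3 ?_⟩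
    have hc' : Tendsto (fun z : Vd (k + 1) => z - a) (𝓝 (y + a)) (𝓝 y) := by
      have h5 : Continuous fun z : Vd (k + 1) => z - a := continuous_id.sub continuous_const
      have h6 := h5.tendsto (y + a)
      rwa [add_sub_cancel_right] at h6
    filter_upwards [hc'.eventually h4] with z hz
    rwa [sub_add_cancel] at hz
  B_lines := fun e he => by
    have h1 := G.B_lines e he
    have h2 := (MeasureTheory.measurePreserving_add_right (MeasureTheory.volume : MeasureTheory.Measure (Vd (k + 1))) a).quasiMeasurePreserving.tendsto_ae.eventually h1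
    filter_upwards [h2] with y hy z
    have h3 : y + z • e + a = y + a + z • e := by abel
    show ¬ (y + z • e + a ∈ B)
    rw [h3]
    exact hy z
  sub := fun y hy x hx hxy => by
    obtain ⟨σ, τ, h1, h2, h3⟩ := G.sub (y + a) hy x hx (mem_uTr.1 hxy)
    refine ⟨σ, τ, h1, h2, ?_⟩
    filter_upwards [h3] with p hp
    rw [mem_uTr]
    have h4 : y + tl p + a = y + a + tl p := by abel
    rwa [h4]
  fib := fun y hy F hF hFX hFu hL => G.fib (y + a) hy F hF hFX (fun z => mem_uTr.1 (hFu z)) hL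
  nc := fun y hy hyB => by
    obtain ⟨κ, hκ, h1⟩ := G.nc (y + a) hy hyB
    refine ⟨fun q => κ q - a, ⟨hκ.an.sub analyticAt_const, ?_, ?_, ?_⟩, fun x hx hxy => ?_⟩
    · show κ 0 - a = y
      rw [hκ.zero, add_sub_cancel_right]
    · rw [fderiv_sub_const]
      exact hκ.inj
    · filter_upwards [hκ.mem_iff] with q hq
      rw [← hq]
      show κ q - a + a ∈ D ↔ κ q ∈ D
      rw [sub_add_cancel]
    · obtain ⟨σ, τ, m, n, h2, h3, h4, h5⟩ := h1 x hx (mem_uTr.1 hxy)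
      refine ⟨σ, τ, m, n, h2, h3, h4, ?_⟩
      filter_upwards [h5] with p hp
      rw [mem_uTr, sub_add_cancel]
      exact hp

/-- the translated form -/
def VForm.trl (α : VForm X Λ u) (a : Vd (k + 1)) : VForm X Λ (uTr u a) where
  toFun := fun y x v => α.toFun (y + a) x v
  add_smul := fun y x hx hy v hv b => α.add_smul (y + a) x hx (mem_uTr.1 hy) v hv b
  det := fun y x hx hy v hv A => α.det (y + a) x hx (mem_uTr.1 hy) v hv A
  scale := fun y x hx hy v hv c hc => α.scale (y + a) x hx (mem_uTr.1 hy) v hv c hc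
  analytic := fun φ υ p hφ hυ h => α.analytic φ (fun q => υ q + a) p hφ (hυ.add analyticAt_const) (by
    filter_upwards [h] with q hq
    exact ⟨hq.1, mem_uTr.1 hq.2⟩)

theorem Per.trl {α : VForm X Λ u} {Γ : AddSubgroup (Vd (k + 1))} (h : Per α Γ) (a : Vd (k + 1)) : Per (α.trl a) Γ := by
  intro y l hl x hx hxy v hv
  have h1 := h (y + a) l hl x hx (mem_uTr.1 hxy) v hv
  show α.toFun (y + l + a) x v = α.toFun (y + a) x v
  have h2 : y + l + a = y + a + l := by abel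
  rw [h2]
  exact h1

theorem Thin.trl {α : VForm X Λ u} (h : Thin α) (a : Vd (k + 1)) : Thin (α.trl a) := by
  intro χ υ p hp hυ hl
  exact h χ (fun q => υ q + a) p hp (hυ.add analyticAt_const) (by
    filter_upwards [hl] with q hq
    exact mem_uTr.1 hq)

/-- the form vanishes on the fibre over `a` -/
def VanAt (α : VForm X Λ u) (a : Vd (k + 1)) : Prop := ∀ x ∈ X, u x - a ∈ Λ → ∀ v : Fin (k + 2) → EN N, (∀ i, Tan X x (v i)) → α.toFun a x v = 0

theorem VanAt.trl {α : VForm X Λ u} {a : Vd (k + 1)} (h : VanAt α a) : VanZero (α.trl a) := by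
  intro x hx hxu v hv
  show α.toFun (0 + a) x v = 0
  rw [zero_add]
  exact h x hx hxu v hv

/-- the translated section -/
theorem sec_trl {f : Vd (k + 1) → MN N} (hf : f ∈ Sec X Λ u D) (a : Vd (k + 1)) : (fun y => f (y + a)) ∈ Sec X Λ (uTr u a) (dTr D a) := by
  refine ⟨fun y hy => ?_, fun y e he => ?_⟩
  · obtain ⟨φ, hφ, h⟩ := hf.1 (y + a) hy
    refine ⟨fun z => φ (z + a), AnalyticAt.fun_comp (g := φ) (f := fun z : Vd (k + 1) => z + a) hφ (trAn a y), ?_⟩
    filter_upwards [(trAn a y).continuousAt.eventually h] with z hz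
    exact ⟨hz.1, hz.2.1, mem_uTr.2 hz.2.2⟩
  · have h0 : ∀ z : ℂ, y + z • e + a = y + a + z • e := fun z => by abel
    obtain ⟨g, ⟨Φ, hΦ, hg⟩, hgf⟩ := hf.2 (y + a) e (by
      filter_upwards [he] with z hz
      rw [← h0]
      exact hz)
    refine ⟨g, ⟨Φ, hΦ, ?_⟩, ?_⟩
    · filter_upwards [hg] with z hz
      refine ⟨hz.1, hz.2.1, mem_uTr.2 ?_⟩
      rw [h0]
      exact hz.2.2
    · filter_upwards [hgf] with z hz
      rw [hz, ← h0]

theorem finSec_trl {a : Vd (k + 1)} (h : FinSec X Λ (uTr u a) (dTr D a)) : FinSec X Λ u D := by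
  obtain ⟨T, hT, h1⟩ := h
  refine ⟨(fun g : Vd (k + 1) → MN N => fun y => g (y - a)) '' T, hT.image _, fun f hf => ?_⟩
  obtain ⟨g, hg, h2⟩ := h1 _ (sec_trl hf a)
  refine ⟨_, ⟨g, hg, rfl⟩, fun y hy => ?_⟩
  have h3 := h2 (y - a) (by
    show ¬ (y - a + a ∈ D)
    rwa [sub_add_cancel])
  rwa [sub_add_cancel] at h3

/-- **Finiteness of the sections**, for a form which vanishes on the fibre over a point `a` off `D`. -/
theorem finSec_at (G : Geo X Λ u D B) {a : Vd (k + 1)} (ha : a ∉ D) {Γ : AddSubgroup (Vd (k + 1))} (hΓ : Lat Γ) (hle : Γ ≤ Λ)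
    {α : VForm X Λ u} (hper : Per α Γ) (hvan : VanAt α a) (hthin : Thin α) : FinSec X Λ u D := by
  refine finSec_trl (a := a) (finSec (G.trl a) ?_ hΓ hle (hper.trl a) hvan.trl (hthin.trl a))
  show ¬ (0 + a ∈ D)
  rwa [zero_add]

end Pool.Agent.TG

end

section

/-!
# TG GuF: the form on the covering, from the projective space to the cone
-/

set_option autoImplicit false

open Topology Filter Metric MvPolynomial

noncomputable section

namespace Pool.Agent.TGF

open Pool.Agent.H17 (PN)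
open Pool.Agent.H62.FC (Homog)
open Pool.Agent.H36.BP (EN)
open Pool.Agent.H14.PP (IsCone Tan)
open Pool.Agent.H17EF (projVar coneE LE mem_coneE mk_mem_projVar)
open Pool.Agent.H17G (IsTangent isTangent_iff)
open Pool.Agent.AD (uV uV_eq sub_mem_iff Vd Chart isCone_coneE torusMapV IsHolomorphicTorusMap)
open Pool.Agent.TG (VForm Per Thin VanAt TMap Lat tc)

variable {N k : ℕ} {P : Ideal (MvPolynomial (Fin (N + 1)) ℂ)} {Λ Γ : AddSubgroup (Cn (k + 1))} {u : PN N → Cn (k + 1) ⧸ Λ}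

theorem over_iff (hP : Homog P) {y : Cn (k + 1)} {x : EN N} : Over (projVar P) Λ u y ((LE N).symm x) ↔ x ∈ coneE P ∧ uV Λ u x - y ∈ Λ := by
  constructor
  · rintro ⟨h, h1, h2⟩
    exact ⟨(mem_coneE hP).2 ⟨h, h1⟩, by rw [sub_mem_iff, uV_eq Λ u h]; exact h2⟩
  · rintro ⟨h1, h2⟩
    obtain ⟨h, h3⟩ := (mem_coneE hP).1 h1
    exact ⟨h, h3, by rw [← uV_eq Λ u h]; exact sub_mem_iff.1 h2⟩

/-- the form on the covering of the cone -/
def vform (hP : Homog P) {Ω : Cn (k + 1) → Cn (N + 1) → (Fin (k + 2) → Cn (N + 1)) → ℂ} (hΩ : IsTopForm (projVar P) Λ Γ u Ω) :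
    VForm (coneE P) Λ (uV Λ u) where
  toFun y x v := Ω y ((LE N).symm x) fun i => (LE N).symm (v i)
  add_smul := by
    intro y x hx hy v hv a
    have h1 := hΩ.horizontal y _ ((over_iff hP).2 ⟨hx, hy⟩) (fun i => (LE N).symm (v i)) (fun i => (isTangent_iff hP hx).2 (hv i)) a
    rw [← h1]
    congr 1
  det := by
    intro y x hx hy v hv A
    have h1 := hΩ.alternating y _ ((over_iff hP).2 ⟨hx, hy⟩) (fun i => (LE N).symm (v i)) (fun i => (isTangent_iff hP hx).2 (hv i)) A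
    rw [← h1]
    congr 1
    funext i
    rw [map_sum]
    exact Finset.sum_congr rfl fun j _ => map_smul _ _ _
  scale := by
    intro y x hx hy v hv c hc
    have h1 := hΩ.homogeneous y _ ((over_iff hP).2 ⟨hx, hy⟩) (fun i => (LE N).symm (v i)) (fun i => (isTangent_iff hP hx).2 (hv i)) c hc
    rw [← h1, map_smul]
    congr 1
  analytic := by
    intro φ υ p hφ hυ hφX
    have h1 : AnalyticAt ℂ (fun y => (LE N).symm (φ y)) p := (((LE N).symm : EN N →L[ℂ] (Fin (N + 1) → ℂ)).analyticAt _).comp hφ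
    have h2 := hΩ.holomorphic _ υ p h1 hυ (by
      filter_upwards [hφX] with y hy
      exact (over_iff hP).2 hy)
    refine h2.congr ?_
    filter_upwards [hφ.eventually_analyticAt] with y hy
    have h3 : HasFDerivAt (fun y => (LE N).symm (φ y)) (((LE N).symm : EN N →L[ℂ] (Fin (N + 1) → ℂ)).comp (fderiv ℂ φ y)) y :=
      ((LE N).symm : EN N →L[ℂ] (Fin (N + 1) → ℂ)).hasFDerivAt.comp y hy.differentiableAt.hasFDerivAt
    rw [h3.fderiv]
    rfl

theorem vform_per (hP : Homog P) {Ω : Cn (k + 1) → Cn (N + 1) → (Fin (k + 2) → Cn (N + 1)) → ℂ} (hΩ : IsTopForm (projVar P) Λ Γ u Ω) :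
    Per (vform hP hΩ) Γ := by
  intro y l hl x hx hy v hv
  exact hΩ.periodic y l hl _ ((over_iff hP).2 ⟨hx, hy⟩) _ (fun i => (isTangent_iff hP hx).2 (hv i))

theorem vform_van (hP : Homog P) {Ω : Cn (k + 1) → Cn (N + 1) → (Fin (k + 2) → Cn (N + 1)) → ℂ} (hΩ : IsTopForm (projVar P) Λ Γ u Ω)
    {y : Cn (k + 1)} (hv : VanishesOver (projVar P) Λ u Ω y) : VanAt (vform hP hΩ) y := by
  intro x hx hy v hv'
  exact hv _ ((over_iff hP).2 ⟨hx, hy⟩) _ (fun i => (isTangent_iff hP hx).2 (hv' i))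

theorem vform_thin (hP : Homog P) (hT : TMap (coneE P) Λ (uV Λ u)) {Ω : Cn (k + 1) → Cn (N + 1) → (Fin (k + 2) → Cn (N + 1)) → ℂ}
    (hΩ : IsTopForm (projVar P) Λ Γ u Ω) (hΛ : Lat Λ) (hnz : IsNowhereZero (projVar P) Λ u Ω) : Thin (vform hP hΩ) := by
  intro χ υ p hp hυ hlift htc
  have hX : IsCone (coneE P) := isCone_coneE hP
  obtain ⟨δ, hδ, hdisc⟩ := hΛ.disc
  obtain ⟨hpX, hpU, hpq⟩ := χ.σ_mem p hp
  have hover : Over (projVar P) Λ u (υ p) ((LE N).symm (χ.σ p)) := (over_iff hP).2 ⟨hpX, hlift.self_of_nhds⟩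
  refine (hnz _ _ hover) ?_
  -- the point of the cone
  have hLEt : Tendsto (fun q : Cn (k + 1) × Cn (N + 1) => (LE N) q.2) (𝓝 (υ p, (LE N).symm (χ.σ p))) (𝓝 (χ.σ p)) := by
    have h1 : Continuous (fun q : Cn (k + 1) × Cn (N + 1) => (LE N) q.2) := (LE N).continuous.comp continuous_snd
    have h2 := h1.tendsto (υ p, (LE N).symm (χ.σ p))
    simp only [ContinuousLinearEquiv.apply_symm_apply] at h2
    exact h2
  have hqt : Tendsto (fun q : Cn (k + 1) × Cn (N + 1) => χ.q ((LE N) q.2)) (𝓝 (υ p, (LE N).symm (χ.σ p))) (𝓝 p) := by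
    have h1 := (χ.q_an _ hpU).continuousAt.tendsto.comp hLEt
    rwa [hpq] at h1
  have hev1 : ∀ᶠ q in 𝓝 (υ p, (LE N).symm (χ.σ p)), (LE N) q.2 ∈ χ.U := hLEt.eventually (χ.isOpen_U.mem_nhds hpU)
  have hev2 : ∀ᶠ y in 𝓝 p, ‖υ y - υ p‖ < δ / 2 := by
    have h1 : Tendsto (fun y => ‖υ y - υ p‖) (𝓝 p) (𝓝 ‖υ p - υ p‖) := (hυ.continuousAt.tendsto.sub_const _).norm
    rw [sub_self, norm_zero] at h1
    exact h1.eventually_lt_const (by positivity)
  have hev3 : ∀ᶠ q : Cn (k + 1) × Cn (N + 1) in 𝓝 (υ p, (LE N).symm (χ.σ p)), ‖q.1 - υ p‖ < δ / 2 := by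
    have h0 : Tendsto (fun q : Cn (k + 1) × Cn (N + 1) => q.1) (𝓝 (υ p, (LE N).symm (χ.σ p))) (𝓝 (υ p)) := continuousAt_fst
    have h1 : Tendsto (fun q : Cn (k + 1) × Cn (N + 1) => ‖q.1 - υ p‖) (𝓝 (υ p, (LE N).symm (χ.σ p))) (𝓝 ‖υ p - υ p‖) := (h0.sub_const _).norm
    rw [sub_self, norm_zero] at h1
    exact h1.eventually_lt_const (by positivity)
  filter_upwards [hev1, hev3, hqt.eventually hev2, hqt.eventually hlift, hqt.eventually htc] with q hq1 hq3 hq2 hq4 hq5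
  rintro ⟨hov, v, hv, hne⟩
  apply hne
  set x : EN N := (LE N) q.2 with hx
  have hxs : (LE N).symm x = q.2 := ContinuousLinearEquiv.symm_apply_apply _ _
  set V : Fin (k + 2) → EN N := fun i => (LE N) (v i) with hVdef
  have hVs : (fun i => (LE N).symm (V i)) = v := funext fun i => ContinuousLinearEquiv.symm_apply_apply _ _
  rw [← hxs] at hov hv ⊢
  rw [← hVs] at hv ⊢
  obtain ⟨hxX, hxz⟩ := (over_iff hP).1 hov
  have hV : ∀ i, Tan (coneE P) x (V i) := fun i => (isTangent_iff hP hxX).1 (hv i)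
  obtain ⟨hb, c, hc, hxc⟩ := χ.surj x hxX hq1
  obtain ⟨hyX, hyU, hyq⟩ := χ.σ_mem _ hb
  -- the value of the base point
  have hz : υ (χ.q x) = q.1 := by
    have h1 : uV Λ u x - uV Λ u (χ.σ (χ.q x)) ∈ Λ := by
      have h2 := hT.smul _ hyX c hc
      rwa [← hxc] at h2
    have h2 : q.1 - υ (χ.q x) ∈ Λ := by
      have h3 := Λ.add_mem (Λ.sub_mem h1 hxz) hq4
      have h4 : uV Λ u x - uV Λ u (χ.σ (χ.q x)) - (uV Λ u x - q.1) + (uV Λ u (χ.σ (χ.q x)) - υ (χ.q x)) = q.1 - υ (χ.q x) := by abel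
      rwa [h4] at h3
    have h3 : ‖q.1 - υ (χ.q x)‖ < δ := by
      calc ‖q.1 - υ (χ.q x)‖ = ‖(q.1 - υ p) - (υ (χ.q x) - υ p)‖ := by rw [sub_sub_sub_cancel_right]
        _ ≤ ‖q.1 - υ p‖ + ‖υ (χ.q x) - υ p‖ := norm_sub_le _ _
        _ < δ / 2 + δ / 2 := add_lt_add hq3 hq2
        _ = δ := by ring
    exact (sub_eq_zero.1 (hdisc _ h2 h3)).symm
  have h1 := Pool.Agent.TG.toFun_eq hX hT (vform hP hΩ) χ hxX hq1 hxz hz V hV
  have h2 : tc (vform hP hΩ) χ υ (χ.q x) = 0 := hq5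
  rw [h2, mul_zero] at h1
  exact h1

/-- the form on the cone -/
theorem exists_vform (hP : Homog P) (hT : TMap (coneE P) Λ (uV Λ u)) (hΛ : Lat Λ) {D : Set (Cn (k + 1))}
    (hform : HasForm (projVar P) Λ Γ u D) : ∃ α : VForm (coneE P) Λ (uV Λ u), Per α Γ ∧ Thin α ∧ ∃ a ∉ D, VanAt α a := by
  obtain ⟨Ω, hΩ, hnz, y, hy, hv⟩ := hform
  exact ⟨vform hP hΩ, vform_per hP hΩ, vform_thin hP hT hΩ hΛ hnz, y, hy, vform_van hP hΩ hv⟩

end Pool.Agent.TGF

end
end

section

/-!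
# G4 F Ln: the entire curves over lines, in the projective space

As `G3/F/Ln`.  `S' =` the set of the maps `y ↦` the point of the projective space with the projection matrix `Φ y` (by choice; `H19T`: `prP`, `prP_injective`), `Φ ∈ S`.  `Csf.hol`, `Csf.cls`; entire lifts of `f` (`H17.exists_global_lift`).
-/

set_option autoImplicit false

open Topology Filter Metric MvPolynomial

namespace Pool.Agent.G4

open Pool.Agent.H17 (PN VanishesAt HolomorphicInto puncturedDisc)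
open Pool.Agent.H62.FC (Homog)
open Pool.Agent.H17LG.Variety (FunField IsLogGeneralType)
open Pool.Agent.H17EF (projVar coneE LE mem_coneE mk_mem_projVar)
open Pool.Agent.H36.BP (EN fs wd Sub Curve)
open Pool.Agent.H14.PP (IsCone CurveAt Tan)
open Pool.Agent.H62.EF (MN pr)
open Pool.Agent.AD (Vd Chart Charts uV IsHolomorphicTorusMap)
open Pool.Agent.TG (TMap Lat Geo Gd VForm Fb)
open Pool.Agent.TGF (Cn Over IsDiscriminant)
open Pool.Agent.G3 (Cv)

variable {N k : ℕ} {P : Ideal (MvPolynomial (Fin (N + 1)) ℂ)} {Λ : AddSubgroup (Cn (k + 1))} {u : PN N → Cn (k + 1) ⧸ Λ} {D B : Set (Cn (k + 1))}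

open Classical in
/-- the map to the projective space -/
private noncomputable def toPN (Φ : Vd (k + 1) → MN N) (y : Cn (k + 1)) : PN N :=
  if h : ∃ x : PN N, Pool.Agent.H17EF.prP x = Φ y then h.choose
  else Projectivization.mk ℂ (Pi.single (0 : Fin (N + 1)) (1 : ℂ)) (by
    intro h0
    have h1 := congrFun h0 0
    rw [Pi.single_eq_same, Pi.zero_apply] at h1
    exact one_ne_zero h1)

private theorem toPN_eq {Φ : Vd (k + 1) → MN N} {y : Cn (k + 1)} {x : PN N} (h : Pool.Agent.H17EF.prP x = Φ y) : toPN Φ y = x := by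
  have h1 : ∃ x : PN N, Pool.Agent.H17EF.prP x = Φ y := ⟨x, h⟩
  unfold toPN
  rw [dif_pos h1]
  exact Pool.Agent.H17EF.prP_injective (h1.choose_spec.trans h.symm)

theorem lines_pn (hP : Homog P) {S : Set (Vd (k + 1) → MN N)} (hS : Csf (coneE P) Λ (uV Λ u) D S) :
    ∃ S : Set (Cn (k + 1) → PN N), S.Finite ∧ (∀ Φ ∈ S, ∀ y ∉ D, ∃ φ : Cn (k + 1) → Cn (N + 1), AnalyticAt ℂ φ y ∧
      ∀ᶠ z in 𝓝 y, Over (projVar P) Λ u z (φ z) ∧ ∃ h : φ z ≠ 0, Φ z = Projectivization.mk ℂ (φ z) h) ∧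
    ∀ f : ℂ → PN N, HolomorphicInto f Set.univ → (∀ z, f z ∈ projVar P) → ∀ a b : Cn (k + 1), a ≠ 0 →
      (∀ z, u (f z) = ((z • a + b : Cn (k + 1)) : Cn (k + 1) ⧸ Λ)) → ∃ Φ ∈ S, ∀ z : ℂ, z • a + b ∉ D → f z = Φ (z • a + b) := by
  refine ⟨toPN '' S, hS.fin.image _, ?_, ?_⟩
  · rintro _ ⟨Φ, hΦ, rfl⟩ y hy
    obtain ⟨φ, hφ, hφe⟩ := hS.hol Φ hΦ y hy
    refine ⟨fun z => (LE N).symm (φ z), AnalyticAt.comp (g := fun x : EN N => (LE N).symm x) (f := φ)
      (((LE N).symm : EN N →L[ℂ] (Fin (N + 1) → ℂ)).analyticAt _) hφ, ?_⟩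
    filter_upwards [hφe] with z hz
    obtain ⟨h1, h2, h3⟩ := hz
    refine ⟨(Pool.Agent.TGF.over_iff hP).2 ⟨h1, h3⟩, h1.1, ?_⟩
    exact toPN_eq ((Pool.Agent.H17EF.mk_symm h1.1).trans h2.symm)
  · intro f hf hfX a b ha hu
    obtain ⟨F, hF, hFf⟩ := Pool.Agent.H17EF.exists_lift hf
    have hFX : ∀ z, F z ∈ coneE P := by
      intro z
      obtain ⟨h, he⟩ := hFf z
      rw [mem_coneE hP]
      exact ⟨h, he ▸ hfX z⟩
    have hcv : Cv (coneE P) Λ (uV Λ u) Set.univ F (fun z => z • a + b) := by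
      refine ⟨hF.differentiableOn, by fun_prop, fun z _ => hFX z, fun z _ => ?_⟩
      obtain ⟨h, he⟩ := hFf z
      rw [Pool.Agent.AD.sub_mem_iff, Pool.Agent.AD.uV_eq Λ u h, ← he]
      exact hu z
    obtain ⟨Φ, hΦ, hΦe⟩ := hS.cls a ha b F hcv
    refine ⟨toPN Φ, ⟨Φ, hΦ, rfl⟩, fun z hz => ?_⟩
    obtain ⟨h, he⟩ := hFf z
    have h1 := hΦe z hz
    refine (toPN_eq ?_).symm
    rw [he, Pool.Agent.H17EF.mk_symm h, h1]

end Pool.Agent.G4

end
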