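import Pool.Agent.H94.G4T.M14
import Pool.Agent.H94.G4T.M51
import Pool.Agent.H94.G4T.M55
import Pool.Agent.H94.G4T.M56
import Pool.Agent.H94.G4T.M78
import Pool.Agent.H94.G4T.M95

/-! The parts of this file: AD.W.Def, AD.T.Sym, H19T.FCur, TG.SaA, G3.C.LL_1. -/

section

/-!
# AD W Def: pseudo-lengths in charts of dimension `d`

The structure `H22.W.PseudoLength` does not depend on the dimension; here the facts which use charts are proved for `AD.Chart`.
-/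

set_option autoImplicit false

open Topology Filter Metric

namespace Pool.Agent.AD

open Pool.Agent.H36.BP (EN fs wd)
open Pool.Agent.H14.PP (IsCone Tan CurveAt IsOpenPart)
open Pool.Agent.H22.W (PseudoLength isOpenPart_self tan_smul tan_mem tan_curve tan_entire fs_scale)

variable {N d : ℕ} {X : Set (EN N)}

/-- the tangent vectors in a chart -/
theorem tan_chart (hX : IsCone X) (χ : Chart d X) {x v : EN N} (h : Tan X x v) (hU : x ∈ χ.U) :
    χ.q x ∈ ball (0 : Vd d) 2 ∧ ∃ c a : ℂ, c ≠ 0 ∧ x = c • χ.σ (χ.q x) ∧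
      v = c • fderiv ℂ χ.σ (χ.q x) (fderiv ℂ χ.q x v) + a • x := by
  obtain ⟨F, hF, h0, h1⟩ := h
  subst h0
  obtain ⟨hq, hq', c, hc, hc0, hev⟩ := χ.curve hX hF hU
  obtain ⟨hball, heq⟩ := hev.self_of_nhds
  refine ⟨hball, c 0, deriv c 0 / c 0, hc0, heq, ?_⟩
  have hs : AnalyticAt ℂ χ.σ (χ.q (F 0)) := χ.σ_an _ hball
  have h2 : HasDerivAt (fun z => χ.σ (χ.q (F z))) (fderiv ℂ χ.σ (χ.q (F 0)) (deriv (fun z => χ.q (F z)) 0)) 0 :=
    hs.differentiableAt.hasFDerivAt.comp_hasDerivAt (0 : ℂ) hq.differentiableAt.hasDerivAt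
  have h3 : HasDerivAt (fun z => c z • χ.σ (χ.q (F z))) (c 0 • fderiv ℂ χ.σ (χ.q (F 0)) (deriv (fun z => χ.q (F z)) 0) +
      deriv c 0 • χ.σ (χ.q (F 0))) 0 := hc.differentiableAt.hasDerivAt.smul h2
  have h4 : deriv F 0 = c 0 • fderiv ℂ χ.σ (χ.q (F 0)) (deriv (fun z => χ.q (F z)) 0) +
      deriv c 0 • χ.σ (χ.q (F 0)) := by
    have h5 : F =ᶠ[𝓝 0] fun z => c z • χ.σ (χ.q (F z)) := hev.mono fun z hz => hz.2
    rw [h5.deriv_eq]
    exact h3.deriv
  rw [h1] at h4 hq'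
  rw [← hq']
  have h6 : (deriv c 0 / c 0) • F 0 = deriv c 0 • χ.σ (χ.q (F 0)) := by
    conv_lhs => rw [heq]
    rw [smul_smul, div_mul_cancel₀ _ hc0]
  rw [h6]
  exact h4

/-- the pseudo-length in a chart -/
noncomputable def coef (n : PseudoLength X) (χ : Chart d X) (y : (Vd d) × (Vd d)) : ℝ :=
  n.toFun (χ.σ y.1) (fderiv ℂ χ.σ y.1 y.2)

theorem eq_coef (hX : IsCone X) (n : PseudoLength X) (χ : Chart d X) {x v : EN N} (h : Tan X x v)
    (hU : x ∈ χ.U) : n.toFun x v = coef n χ (χ.q x, fderiv ℂ χ.q x v) := by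
  obtain ⟨hb, c, a, hc, h1, h2⟩ := tan_chart hX χ h hU
  have ht : Tan X (χ.σ (χ.q x)) (fderiv ℂ χ.σ (χ.q x) (fderiv ℂ χ.q x v)) :=
    χ.tan (isOpenPart_self hX) hb (χ.σ_mem _ hb).1 _
  have h3 := n.inv hX ht hc (a * c)
  unfold coef
  rw [← h3]
  have h4 : c • fderiv ℂ χ.σ (χ.q x) (fderiv ℂ χ.q x v) + (a * c) • χ.σ (χ.q x) = v := by
    conv_rhs => rw [h2]
    congr 1
    conv_rhs => rw [h1]
    rw [smul_smul]
  rw [h4, ← h1]

theorem tan_sigma (hX : IsCone X) (χ : Chart d X) {p : Vd d} (hp : p ∈ ball (0 : Vd d) 2) (w : Vd d) :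
    Tan X (χ.σ p) (fderiv ℂ χ.σ p w) := χ.tan (isOpenPart_self hX) hp (χ.σ_mem p hp).1 _

theorem coef_cont (hX : IsCone X) (n : PseudoLength X) (χ : Chart d X) {p : Vd d} (hp : p ∈ ball (0 : Vd d) 2)
    (w : Vd d) : ContinuousAt (coef n χ) (p, w) := by
  have hs : AnalyticAt ℂ χ.σ p := χ.σ_an p hp
  have h1 : Tendsto (fun y : (Vd d) × (Vd d) => χ.σ y.1) (𝓝 (p, w)) (𝓝 (χ.σ p)) :=
    hs.continuousAt.tendsto.comp continuousAt_fst.tendsto
  have h2 : Tendsto (fun y : (Vd d) × (Vd d) => fderiv ℂ χ.σ y.1) (𝓝 (p, w)) (𝓝 (fderiv ℂ χ.σ p)) :=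
    hs.fderiv.continuousAt.tendsto.comp continuousAt_fst.tendsto
  have hcb : Continuous fun p : ((Vd d) →L[ℂ] EN N) × (Vd d) => p.1 p.2 := isBoundedBilinearMap_apply.continuous
  have h3 : Tendsto (fun y : (Vd d) × (Vd d) => fderiv ℂ χ.σ y.1 y.2) (𝓝 (p, w)) (𝓝 (fderiv ℂ χ.σ p w)) :=
    (hcb.tendsto (fderiv ℂ χ.σ p, w)).comp (h2.prodMk_nhds continuousAt_snd.tendsto)
  refine n.tendsto ?_ (tan_sigma hX χ hp w) h1 h3
  have h4 : ∀ᶠ y in 𝓝 (p, w), y.1 ∈ ball (0 : Vd d) 2 := continuousAt_fst.eventually (isOpen_ball.mem_nhds hp)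
  filter_upwards [h4] with y hy
  exact tan_sigma hX χ hy _

theorem coef_smul (hX : IsCone X) (n : PseudoLength X) (χ : Chart d X) {p : Vd d} (hp : p ∈ ball (0 : Vd d) 2)
    (w : Vd d) (a : ℂ) : coef n χ (p, a • w) = ‖a‖ * coef n χ (p, w) := by
  unfold coef
  simp only [map_smul]
  exact n.smul _ _ (tan_sigma hX χ hp w) _

/-- the bound in the middle of a chart -/
theorem coef_bound (hX : IsCone X) (n : PseudoLength X) (χ : Chart d X) :
    ∃ C : ℝ, 0 ≤ C ∧ ∀ p ∈ closedBall (0 : Vd d) 1, ∀ w, coef n χ (p, w) ≤ C * ‖w‖ := by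
  have hcomp : IsCompact (closedBall (0 : Vd d) 1 ×ˢ sphere (0 : Vd d) 1) :=
    (isCompact_closedBall _ _).prod (isCompact_sphere _ _)
  obtain ⟨C, hC⟩ := hcomp.exists_bound_of_continuousOn (f := coef n χ) (by
    rintro ⟨p, w⟩ ⟨hp, -⟩
    exact (coef_cont hX n χ (closedBall_subset_ball (by norm_num) hp) w).continuousWithinAt)
  refine ⟨max C 0, le_max_right _ _, fun p hp w => ?_⟩
  have hp2 : p ∈ ball (0 : Vd d) 2 := closedBall_subset_ball (by norm_num) hp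
  rcases eq_or_ne w 0 with rfl | hw
  · have h1 := coef_smul hX n χ hp2 0 0
    rw [zero_smul, norm_zero, zero_mul] at h1
    rw [h1, norm_zero, mul_zero]
  · have hw0 : ‖w‖ ≠ 0 := norm_ne_zero_iff.2 hw
    have h1 : w = ((‖w‖ : ℝ) : ℂ) • (((‖w‖ : ℝ) : ℂ)⁻¹ • w) := by
      rw [smul_smul, mul_inv_cancel₀ (by exact_mod_cast hw0), one_smul]
    have h2 : ‖(((‖w‖ : ℝ) : ℂ)⁻¹ • w)‖ = 1 := by
      rw [norm_smul, norm_inv, Complex.norm_real, norm_norm, inv_mul_cancel₀ hw0]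
    rw [h1, coef_smul hX n χ hp2, Complex.norm_real, norm_norm, ← h1, mul_comm]
    refine mul_le_mul_of_nonneg_right ?_ (norm_nonneg _)
    exact ((le_abs_self _).trans (hC (p, _) ⟨hp, by rw [mem_sphere_zero_iff_norm]; exact h2⟩)).trans (le_max_left _ _)

/-- A pseudo-length is bounded by the Fubini-Study length. -/
theorem length_bound (hX : IsCone X) (hch : Charts d X) (n : PseudoLength X) :
    ∃ C : ℝ, 0 < C ∧ ∀ x v, Tan X x v → n.toFun x v ≤ C * fs x v := by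
  classical
  obtain ⟨S, hS⟩ : ∃ S : Set (EN N), S = sphere (0 : EN N) 1 ∩ insert 0 X := ⟨_, rfl⟩
  have hcomp : IsCompact S := by rw [hS]; exact (isCompact_sphere _ _).inter_right hX.closed
  have hSX : ∀ x ∈ S, x ∈ X := by
    intro x hx
    rw [hS] at hx
    rcases hx.2 with h | h
    · exfalso
      have := hx.1
      rw [mem_sphere_zero_iff_norm, h, norm_zero] at this
      exact zero_ne_one this
    · exact h
  have hloc : ∀ x ∈ S, ∃ C : ℝ, 0 ≤ C ∧ ∀ᶠ y in 𝓝 x, ∀ v, Tan X y v → n.toFun y v ≤ C * fs y v := by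
    intro x hx
    have hxX := hSX x hx
    obtain ⟨χ, hχU, hχ0⟩ := hch x hxX
    obtain ⟨C₁, hC₁, h1⟩ := coef_bound hX n χ
    obtain ⟨C₂, hC₂, h2, -⟩ := χ.exists_fs_bound hX
    refine ⟨C₁ * C₂, by positivity, ?_⟩
    have h3 : ∀ᶠ y in 𝓝 x, y ∈ χ.U := χ.isOpen_U.mem_nhds hχU
    have h4 : ∀ᶠ y in 𝓝 x, χ.q y ∈ closedBall (0 : Vd d) 1 := by
      have := (χ.q_an x hχU).continuousAt
      refine this.eventually ?_
      rw [hχ0]
      exact closedBall_mem_nhds _ one_pos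
    filter_upwards [h3, h4] with y hy1 hy2 v hv
    rw [eq_coef hX n χ hv hy1]
    refine (h1 _ hy2 _).trans ?_
    rw [mul_assoc]
    refine mul_le_mul_of_nonneg_left ?_ hC₁
    exact h2 y (tan_mem hv) hy1 (by simpa using hy2) v
  choose! C hC0 hC using hloc
  obtain ⟨t, htS, ht⟩ := hcomp.elim_nhds_subcover (fun x => {y | ∀ v, Tan X y v → n.toFun y v ≤ C x * fs y v})
    fun x hx => hC x hx
  have hfs0 : ∀ x v : EN N, 0 ≤ fs x v := fun x v => by
    unfold fs wd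
    positivity
  refine ⟨∑ x ∈ t, C x + 1, ?_, fun x v hv => ?_⟩
  · have : 0 ≤ ∑ x ∈ t, C x := Finset.sum_nonneg fun x hx => hC0 x (htS x hx)
    linarith
  · have hxX := tan_mem hv
    have hx0 : x ≠ 0 := hX.ne_zero hxX
    have hn : ‖x‖ ≠ 0 := norm_ne_zero_iff.2 hx0
    obtain ⟨c, hc⟩ : ∃ c : ℂ, c = (((‖x‖ : ℝ) : ℂ))⁻¹ := ⟨_, rfl⟩
    have hc0 : c ≠ 0 := by rw [hc]; exact inv_ne_zero (by exact_mod_cast hn)
    have h1 : n.toFun (c • x) (c • v) = n.toFun x v := n.scale x v hv c hc0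
    have h2 : c • x ∈ S := by
      rw [hS]
      refine ⟨?_, Or.inr (hX.smul_mem x hxX c hc0)⟩
      rw [mem_sphere_zero_iff_norm, norm_smul, hc, norm_inv, Complex.norm_real, norm_norm, inv_mul_cancel₀ hn]
    obtain ⟨y, hy, hy2⟩ := Set.mem_iUnion₂.1 (ht h2)
    have h3 : n.toFun (c • x) (c • v) ≤ C y * fs (c • x) (c • v) := hy2 _ (tan_smul hX hv hc0)
    rw [h1, fs_scale x v hc0] at h3
    refine h3.trans (mul_le_mul_of_nonneg_right ?_ (hfs0 _ _))
    have h5 : C y ≤ ∑ x ∈ t, C x := Finset.single_le_sum (f := C) (fun x hx => hC0 x (htS x hx)) hy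
    linarith

end Pool.Agent.AD

end

section

/-!
# AD T Sym: the pseudo-length of a family of symmetric differentials, in any dimension

`n (x, v) ^ 2 = ∑ j, ‖θ_j (x, v)‖ ^ (2 / m_j)`.  Port of `H22/W/Sym.lean`.
-/

set_option autoImplicit false

open Topology Filter Metric

namespace Pool.Agent.AD

open Pool.Agent.H36.BP (EN fs wd)
open Pool.Agent.H14.PP (IsCone Tan CurveAt IsOpenPart)
open Pool.Agent.H22.W (PseudoLength isOpenPart_self tan_smul tan_mem tan_curve tan_entire rpow_le_avg)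

variable {N : ℕ}

variable {X : Set (EN N)} {d m : ℕ}

/-- the value of a symmetric differential on the derivative of a curve is holomorphic -/
theorem SymDiff.curve_an (θ : SymDiff X m) {F : ℂ → EN N} {z₀ : ℂ} (hF : CurveAt X F z₀) :
    AnalyticAt ℂ (fun z => θ.toFun (F z) (deriv F z)) z₀ := by
  have hev : AnalyticAt ℂ (fun t : Fin 1 → ℂ => t 0) (fun _ => z₀) :=
    (ContinuousLinearMap.proj (R := ℂ) (φ := fun _ : Fin 1 => ℂ) 0).analyticAt _
  have hφ : AnalyticAt ℂ (fun t : Fin 1 → ℂ => F (t 0)) (fun _ => z₀) :=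
    AnalyticAt.comp (g := F) (f := fun t : Fin 1 → ℂ => t 0) hF.1 hev
  have h1 := θ.analytic 1 (fun t => F (t 0)) (fun _ => z₀) (fun _ => 1) hφ (by
    have h2 : Tendsto (fun t : Fin 1 → ℂ => t 0) (𝓝 (fun _ => z₀)) (𝓝 z₀) := hev.continuousAt.tendsto
    exact h2.eventually hF.2)
  have h3 : AnalyticAt ℂ (fun z : ℂ => ((fun _ => z : Fin 1 → ℂ), (fun _ => 1 : Fin 1 → ℂ))) z₀ := by
    refine AnalyticAt.prod ?_ analyticAt_const
    exact AnalyticAt.pi fun _ => analyticAt_id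
  have h4 := AnalyticAt.comp (g := fun y : (Fin 1 → ℂ) × (Fin 1 → ℂ) => θ.toFun (F (y.1 0)) (fderiv ℂ (fun t : Fin 1 → ℂ => F (t 0)) y.1 y.2))
    (f := fun z : ℂ => ((fun _ => z : Fin 1 → ℂ), (fun _ => 1 : Fin 1 → ℂ))) h1 h3
  refine h4.congr ?_
  filter_upwards [hF.1.eventually_analyticAt] with z hz
  show θ.toFun (F z) (fderiv ℂ (fun t : Fin 1 → ℂ => F (t 0)) (fun _ => z) (fun _ => 1)) = θ.toFun (F z) (deriv F z)
  congr 1
  have h5 : HasFDerivAt (fun t : Fin 1 → ℂ => F (t 0)) ((fderiv ℂ F z).comp (ContinuousLinearMap.proj (R := ℂ) (φ := fun _ : Fin 1 => ℂ) 0))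
      (fun _ => z) :=
    HasFDerivAt.comp (g := F) (f := fun t : Fin 1 → ℂ => t 0) (fun _ => z) hz.differentiableAt.hasFDerivAt
      (ContinuousLinearMap.proj (R := ℂ) (φ := fun _ : Fin 1 => ℂ) 0).hasFDerivAt
  rw [h5.fderiv]
  simp

/-- the expression of the differential in a chart -/
noncomputable def tC (θ : SymDiff X m) (χ : Chart d X) (y : Vd d × Vd d) : ℂ := θ.toFun (χ.σ y.1) (fderiv ℂ χ.σ y.1 y.2)

theorem tC_an (θ : SymDiff X m) (χ : Chart d X) {p : Vd d} (hp : p ∈ ball (0 : Vd d) 2) (w : Vd d) :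
    AnalyticAt ℂ (tC θ χ) (p, w) := by
  refine θ.analytic d χ.σ p w (χ.σ_an p hp) ?_
  filter_upwards [isOpen_ball.mem_nhds hp] with y hy
  exact (χ.σ_mem y hy).1

theorem SymDiff.eq_tC (hX : IsCone X) (θ : SymDiff X m) (χ : Chart d X) {x v : EN N} (h : Tan X x v) (hU : x ∈ χ.U) :
    θ.toFun x v = tC θ χ (χ.q x, fderiv ℂ χ.q x v) := by
  obtain ⟨hb, c, a, hc, h1, h2⟩ := tan_chart hX χ h hU
  have ht := tan_sigma hX χ hb (fderiv ℂ χ.q x v)
  have ht' : Tan X x (c • fderiv ℂ χ.σ (χ.q x) (fderiv ℂ χ.q x v)) := by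
    have := tan_smul hX ht hc
    rwa [← h1] at this
  have h3 : θ.toFun x v = θ.toFun x (c • fderiv ℂ χ.σ (χ.q x) (fderiv ℂ χ.q x v)) := by
    conv_lhs => rw [h2]
    exact θ.add_smul _ _ ht' a
  have h4 := θ.scale _ _ ht c hc
  rw [← h1] at h4
  rw [h3, h4]
  rfl

theorem SymDiff.continuousOn (hX : IsCone X) (hch : Charts d X) (θ : SymDiff X m) :
    ContinuousOn (fun p : EN N × EN N => θ.toFun p.1 p.2) {p | Tan X p.1 p.2} := by
  rintro ⟨x₀, v₀⟩ h₀
  have h₀' : Tan X x₀ v₀ := h₀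
  obtain ⟨χ, hU, hq0⟩ := hch x₀ (tan_mem h₀')
  have hq := χ.q_an x₀ hU
  have hp : χ.q x₀ ∈ ball (0 : Vd d) 2 := by
    rw [hq0]
    exact mem_ball_self two_pos
  have h1 : Tendsto (fun y : EN N × EN N => χ.q y.1) (𝓝 (x₀, v₀)) (𝓝 (χ.q x₀)) :=
    hq.continuousAt.tendsto.comp continuousAt_fst.tendsto
  have h2 : Tendsto (fun y : EN N × EN N => fderiv ℂ χ.q y.1) (𝓝 (x₀, v₀)) (𝓝 (fderiv ℂ χ.q x₀)) :=
    hq.fderiv.continuousAt.tendsto.comp continuousAt_fst.tendsto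
  have hcb : Continuous fun p : (EN N →L[ℂ] (Vd d)) × EN N => p.1 p.2 := isBoundedBilinearMap_apply.continuous
  have h3 : Tendsto (fun y : EN N × EN N => fderiv ℂ χ.q y.1 y.2) (𝓝 (x₀, v₀)) (𝓝 (fderiv ℂ χ.q x₀ v₀)) :=
    (hcb.tendsto (fderiv ℂ χ.q x₀, v₀)).comp (h2.prodMk_nhds continuousAt_snd.tendsto)
  have h4 : Tendsto (fun y : EN N × EN N => tC θ χ (χ.q y.1, fderiv ℂ χ.q y.1 y.2)) (𝓝 (x₀, v₀))
      (𝓝 (tC θ χ (χ.q x₀, fderiv ℂ χ.q x₀ v₀))) :=
    (tC_an θ χ hp (fderiv ℂ χ.q x₀ v₀)).continuousAt.tendsto.comp (h1.prodMk_nhds h3)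
  have h5 : θ.toFun x₀ v₀ = tC θ χ (χ.q x₀, fderiv ℂ χ.q x₀ v₀) := SymDiff.eq_tC hX θ χ h₀' hU
  show Tendsto (fun p : EN N × EN N => θ.toFun p.1 p.2) (𝓝[{p | Tan X p.1 p.2}] (x₀, v₀)) (𝓝 (θ.toFun x₀ v₀))
  rw [h5]
  refine (h4.mono_left nhdsWithin_le_nhds).congr' ?_
  have h6 : ∀ᶠ y : EN N × EN N in 𝓝 (x₀, v₀), y.1 ∈ χ.U := continuousAt_fst.eventually (χ.isOpen_U.mem_nhds hU)
  filter_upwards [nhdsWithin_le_nhds h6, self_mem_nhdsWithin] with y hy1 hy2
  exact (SymDiff.eq_tC hX θ χ hy2 hy1).symm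

theorem pow_two_div {m : ℕ} (hm : 1 ≤ m) {t : ℝ} (ht : 0 ≤ t) : (t ^ m) ^ ((2 : ℝ) / m) = t ^ 2 := by
  have hm0 : (m : ℝ) ≠ 0 := by exact_mod_cast (by omega : m ≠ 0)
  rw [← Real.rpow_natCast, ← Real.rpow_mul ht, mul_div_cancel₀ _ hm0, ← Real.rpow_natCast]
  norm_num

/-- **The pseudo-length of a family of symmetric differentials.** -/
noncomputable def symLength (hX : IsCone X) (hch : Charts d X) {k : ℕ} {m : Fin k → ℕ} (hm : ∀ j, 1 ≤ m j)
    (θ : ∀ j, SymDiff X (m j)) : PseudoLength X where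
  toFun x v := Real.sqrt (∑ j, ‖(θ j).toFun x v‖ ^ ((2 : ℝ) / m j))
  nonneg _ _ _ := Real.sqrt_nonneg _
  add_smul x v h a := by
    have h1 : ∀ j, (θ j).toFun x (v + a • x) = (θ j).toFun x v := fun j => (θ j).add_smul x v h a
    simp only [h1]
  smul x v h a := by
    have h1 : ∀ j, ‖(θ j).toFun x (a • v)‖ ^ ((2 : ℝ) / m j) = ‖a‖ ^ 2 * ‖(θ j).toFun x v‖ ^ ((2 : ℝ) / m j) := fun j => by
      rw [(θ j).smul x v h a, norm_mul, norm_pow, Real.mul_rpow (by positivity) (norm_nonneg _),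
        pow_two_div (hm j) (norm_nonneg _)]
    simp only [h1]
    rw [← Finset.mul_sum, Real.sqrt_mul (by positivity), Real.sqrt_sq (norm_nonneg _)]
  scale x v h c hc := by
    have h1 : ∀ j, (θ j).toFun (c • x) (c • v) = (θ j).toFun x v := fun j => (θ j).scale x v h c hc
    simp only [h1]
  continuous := by
    refine Real.continuous_sqrt.comp_continuousOn (continuousOn_finsetSum _ fun j _ => ?_)
    refine (SymDiff.continuousOn hX hch (θ j)).norm.rpow_const fun x _ => Or.inr ?_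
    positivity
  curved U F hU hF hFX c r hr hc := by
    have h0 : ∀ z, 0 ≤ ∑ j, ‖(θ j).toFun (F z) (deriv F z)‖ ^ ((2 : ℝ) / m j) := fun z =>
      Finset.sum_nonneg fun j _ => Real.rpow_nonneg (norm_nonneg _) _
    simp only [Real.sq_sqrt (h0 _)]
    have han : ∀ j, AnalyticOnNhd ℂ (fun z => (θ j).toFun (F z) (deriv F z)) (closedBall c r) := by
      intro j z hz
      have hz' : U ∈ 𝓝 z := hU.mem_nhds (hc hz)
      refine (θ j).curve_an ⟨hF.analyticAt hz', ?_⟩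
      filter_upwards [hz'] with w hw using hFX w hw
    have hsum : Real.circleAverage (fun z => ∑ j, ‖(θ j).toFun (F z) (deriv F z)‖ ^ ((2 : ℝ) / m j)) c r =
        ∑ j, Real.circleAverage (fun z => ‖(θ j).toFun (F z) (deriv F z)‖ ^ ((2 : ℝ) / m j)) c r := by
      refine Real.circleAverage_fun_sum fun j _ => ?_
      have h2 : sphere c |r| ⊆ closedBall c r := by
        rw [abs_of_pos hr]
        exact sphere_subset_closedBall
      refine ContinuousOn.circleIntegrable' ?_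
      exact ((han j).continuousOn.mono h2).norm.rpow_const fun x _ => Or.inr (by positivity)
    rw [hsum]
    refine Finset.sum_le_sum fun j _ => rpow_le_avg hr ?_ (han j)
    have h3 : (0 : ℝ) < m j := by exact_mod_cast (by have := hm j; omega : 0 < m j)
    positivity

end Pool.Agent.AD

end

section

/-!
# H19T FCur: entire curves in the hypersurface `D`
-/

set_option autoImplicit false

open Topology Filter Metric

noncomputable section

namespace Pool.Agent.H19T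

open Pool.Agent.H36.BP (EN fs wd)
open Pool.Agent.H14.PP (IsCone CurveAt Tan)
open Pool.Agent.H22.W (tan_entire)
open Pool.Agent.AD (Vd Charts TorusMapV DiscreteSub deriv_comp_lift eventually_const_of_mem)

variable {N n : ℕ} {X : Set (EN N)} {Λ : AddSubgroup (Vd n)} {u : EN N → Vd n}

/-- a primitive of an entire function -/
theorem exists_primitive {E : Type*} [NormedAddCommGroup E] [NormedSpace ℂ E] [CompleteSpace E] {ψ : ℂ → E} (hψ : Differentiable ℂ ψ) :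
    ∃ g : ℂ → E, ∀ z, HasDerivAt g (ψ z) z := by
  refine ⟨fun w => Complex.wedgeIntegral 0 w ψ, fun z => ?_⟩
  exact Complex.IsConservativeOn.hasDerivAt_wedgeIntegral (c := 0) (r := ‖z‖ + 1) hψ.continuous.continuousOn
    (by rw [mem_ball_zero_iff]; linarith) (hψ.differentiableOn.isConservativeOn)

/-- the composition of an entire curve and the map to the torus lifts to `ℂ^n` -/
theorem exists_lift_torus (hX : IsCone X) (hu : TorusMapV X Λ u) (hΛ : DiscreteSub Λ) {F : ℂ → EN N} (hF : Differentiable ℂ F) (hFX : ∀ z, F z ∈ X) :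
    ∃ φ : ℂ → Vd n, Differentiable ℂ φ ∧ ∀ z, u (F z) - φ z ∈ Λ := by
  obtain ⟨ψ, hψ⟩ : ∃ ψ : ℂ → Vd n, ψ = fun z => hu.du (F z) (deriv F z) := ⟨_, rfl⟩
  have hψd : Differentiable ℂ ψ := by
    rw [differentiable_pi]
    intro j z
    have h1 := ((hu.symDiff hΛ hX j).curve_an (F := F) (z₀ := z) ⟨hF.analyticAt z, Eventually.of_forall hFX⟩).differentiableAt
    rw [hψ]
    exact h1
  obtain ⟨g, hg⟩ := exists_primitive hψd
  obtain ⟨φ, hφ⟩ : ∃ φ : ℂ → Vd n, φ = fun z => u (F 0) + (g z - g 0) := ⟨_, rfl⟩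
  have hφd : ∀ z, HasDerivAt φ (ψ z) z := by
    intro z
    rw [hφ]
    exact ((hg z).sub_const (g 0)).const_add (u (F 0))
  refine ⟨φ, fun z => (hφd z).differentiableAt, ?_⟩
  have hlc : IsLocallyConstant fun z => (QuotientAddGroup.mk (u (F z) - φ z) : Vd n ⧸ Λ) := by
    rw [IsLocallyConstant.iff_eventually_eq]
    intro z₀
    have hx := hFX z₀
    have hl := hu.lift_an hx
    have hc : Tendsto F (𝓝 z₀) (𝓝 (F z₀)) := hF.continuous.tendsto z₀
    obtain ⟨h, hh⟩ : ∃ h : ℂ → Vd n, h = fun z => hu.lift (F z₀) (F z) - φ z := ⟨_, rfl⟩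
    have hder : ∀ᶠ z in 𝓝 z₀, deriv h z = 0 ∧ DifferentiableAt ℂ h z := by
      filter_upwards [hc.eventually hl.eventually_analyticAt, hc.eventually (hu.lift_mem hx).eventually_nhds] with z h1 h2
      have h3 : AnalyticAt ℂ (fun z => hu.lift (F z₀) (F z)) z :=
        AnalyticAt.comp (g := hu.lift (F z₀)) (f := F) h1 (hF.analyticAt z)
      have h5 : HasDerivAt h (deriv (fun z => hu.lift (F z₀) (F z)) z - ψ z) z := by
        rw [hh]
        exact h3.differentiableAt.hasDerivAt.sub (hφd z)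
      refine ⟨?_, h5.differentiableAt⟩
      rw [h5.deriv, deriv_comp_lift (hF.analyticAt z) h1, ← hu.du_eq hΛ (tan_entire hF hFX z) h1 h2, hψ, sub_self]
    obtain ⟨r, hr, hball⟩ := Metric.eventually_nhds_iff_ball.1 hder
    have hconst : ∀ z ∈ ball z₀ r, h z = h z₀ := by
      intro z hz
      exact (convex_ball z₀ r).is_const_of_fderivWithin_eq_zero (𝕜 := ℂ) (fun y hy => (hball y hy).2.differentiableWithinAt)
        (fun y hy => by
          rw [fderivWithin_of_isOpen isOpen_ball hy]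
          ext1
          exact (hball y hy).1) hz (mem_ball_self hr)
    filter_upwards [hc.eventually (hu.lift_mem hx), isOpen_ball.mem_nhds (mem_ball_self hr)] with z h1 h2
    have h3 := h1 (hFX z)
    have h4 := (hu.lift_mem hx).self_of_nhds hx
    have h5 := hconst z h2
    rw [hh] at h5
    simp only at h5
    rw [QuotientAddGroup.eq]
    have h6 := Λ.sub_mem h4 h3
    have h7 : -(u (F z) - φ z) + (u (F z₀) - φ z₀) = (u (F z₀) - hu.lift (F z₀) (F z₀)) - (u (F z) - hu.lift (F z₀) (F z)) +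
        ((hu.lift (F z₀) (F z₀) - φ z₀) - (hu.lift (F z₀) (F z) - φ z)) := by abel
    rw [h7, h5, sub_self, add_zero]
    exact h6
  intro z
  have h1 := hlc.apply_eq_of_preconnectedSpace 0 z
  rw [QuotientAddGroup.eq] at h1
  have h2 : u (F 0) - φ 0 = 0 := by
    rw [hφ]
    simp
  rwa [h2, neg_zero, zero_add] at h1

end Pool.Agent.H19T

end
end

section

/-!
# TG SaA: entire curves of order two in varieties over complex tori are mapped to affine curves

`F : ℂ → EN N` is an entire function, zeros allowed, with `F z ∈ X` if `F z ≠ 0` and `log |F z| ≤ C (1 + |z|²)`.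
-/

set_option autoImplicit false

open Topology Filter Metric

noncomputable section

namespace Pool.Agent.TG

open Pool.Agent.H36.BP (EN fs wd)
open Pool.Agent.H14.PP (IsCone CurveAt Tan)
open Pool.Agent.H22.W (PseudoLength tan_entire)
open Pool.Agent.AD (Vd Charts TorusMapV DiscreteSub deriv_comp_lift eventually_const_of_mem deriv_eq_of_mem symLength length_bound)

variable {N n : ℕ} {X : Set (EN N)} {Λ : AddSubgroup (Vd n)} {u : EN N → Vd n}

theorem en_coord_ne {w : EN N} (hw : w ≠ 0) : ∃ j, w j ≠ 0 := by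
  by_contra h
  push Not at h
  apply hw
  ext j
  exact h j

theorem en_coord_an {f : ℂ → EN N} {z : ℂ} (hf : AnalyticAt ℂ f z) (i : Fin (N + 1)) : AnalyticAt ℂ (fun w => f w i) z :=
  ((EuclideanSpace.proj (𝕜 := ℂ) i : EN N →L[ℂ] ℂ).analyticAt _).comp hf

theorem ofLp_ne {v : EN N} (hv : v ≠ 0) : v.ofLp ≠ 0 := by
  intro h
  apply hv
  ext j
  exact congrFun h j

/-- an entire function is not zero near any point, outside the point -/
theorem eventually_ne_of_entire {E : Type*} [NormedAddCommGroup E] [NormedSpace ℂ E] [CompleteSpace E] {F : ℂ → E} (hF : Differentiable ℂ F)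
    (h0 : ∃ z, F z ≠ 0) (z₀ : ℂ) : ¬ ∀ᶠ z in 𝓝 z₀, F z = 0 := by
  intro h
  obtain ⟨z₁, hz₁⟩ := h0
  have h1 : AnalyticOnNhd ℂ F Set.univ := fun z _ => hF.analyticAt z
  exact hz₁ (h1.eqOn_zero_of_preconnected_of_eventuallyEq_zero isPreconnected_univ (Set.mem_univ z₀) h (Set.mem_univ z₁))

/-- **An entire function with zeros is a multiple of one without zeros.** -/
theorem exists_zeroFree {F : ℂ → EN N} (hF : Differentiable ℂ F) (h0 : ∃ z, F z ≠ 0) :
    ∃ G : ℂ → EN N, Differentiable ℂ G ∧ (∀ z, G z ≠ 0) ∧ ∀ z, ∃ c : ℂ, F z = c • G z := by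
  classical
  have hloc : ∀ z₀ : ℂ, ∃ (m : ℕ) (Φ : ℂ → EN N), AnalyticAt ℂ Φ z₀ ∧ Φ z₀ ≠ 0 ∧ ∀ᶠ z in 𝓝 z₀, F z = (z - z₀) ^ m • Φ z := fun z₀ =>
    ((hF.analyticAt z₀).exists_eventuallyEq_pow_smul_nonzero_iff).2 (eventually_ne_of_entire hF h0 z₀)
  choose m Φ hΦa hΦ0 hΦe using hloc
  have hself : ∀ z, F z ≠ 0 → F z = Φ z z := by
    intro z hz
    have h1 := (hΦe z).self_of_nhds
    rw [sub_self] at h1
    rcases Nat.eq_zero_or_pos (m z) with h2 | h2
    · rwa [h2, pow_zero, one_smul] at h1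
    · rw [zero_pow h2.ne', zero_smul] at h1
      exact absurd h1 hz
  have hrel : ∀ z₀, ∀ᶠ z in 𝓝 z₀, Φ z₀ z ≠ 0 ∧ ∃ c : ℂ, c ≠ 0 ∧ Φ z z = c • Φ z₀ z := by
    intro z₀
    filter_upwards [hΦe z₀, (hΦa z₀).continuousAt.eventually_ne (hΦ0 z₀)] with z h1 h2
    refine ⟨h2, ?_⟩
    rcases eq_or_ne z z₀ with h3 | h3
    · subst h3
      exact ⟨1, one_ne_zero, (one_smul _ _).symm⟩
    · have h4 : (z - z₀) ^ m z₀ ≠ 0 := pow_ne_zero _ (sub_ne_zero.2 h3)
      have h5 : F z ≠ 0 := by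
        rw [h1]
        exact smul_ne_zero h4 h2
      exact ⟨_, h4, by rw [← hself z h5, h1]⟩
  obtain ⟨f, hf⟩ : ∃ f : ℂ → Pool.Agent.H17.PN N, f = fun z => Projectivization.mk ℂ (Φ z z).ofLp (ofLp_ne (hΦ0 z)) := ⟨_, rfl⟩
  have hfhol : Pool.Agent.H17.HolomorphicInto f Set.univ := by
    intro z₀ _
    refine ⟨fun w => (Φ z₀ w).ofLp, ?_, ?_⟩
    · rw [analyticAt_pi_iff]
      intro j
      exact en_coord_an (hΦa z₀) j
    · filter_upwards [hrel z₀] with z hz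
      obtain ⟨h1, c, hc, h2⟩ := hz
      refine ⟨ofLp_ne h1, ?_⟩
      rw [hf, Projectivization.mk_eq_mk_iff']
      exact ⟨c, by rw [h2]; rfl⟩
  obtain ⟨x, hx⟩ := Pool.Agent.H17.exists_global_lift hfhol
  refine ⟨fun z => WithLp.toLp 2 (fun j => (x j : ℂ → ℂ) z), ?_, ?_, ?_⟩
  · have h1 : Differentiable ℂ (fun z => (fun j => (x j : ℂ → ℂ) z)) := differentiable_pi.2 fun j => (x j).diff
    exact (PiLp.continuousLinearEquiv 2 ℂ (fun _ : Fin (N + 1) => ℂ)).symm.differentiable.comp h1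
  · intro z h
    obtain ⟨h1, -⟩ := hx z
    apply h1
    funext j
    exact congrArg (fun v : EN N => v j) h
  · intro z
    by_cases hz : F z = 0
    · exact ⟨0, by rw [hz, zero_smul]⟩
    · obtain ⟨h1, h2⟩ := hx z
      rw [hf] at h2
      obtain ⟨c, hc, h3⟩ := Pool.Agent.H17.mk_eq_mk_cross h2
      refine ⟨c, ?_⟩
      rw [hself z hz]
      ext j
      exact h3 j

/-- the Fubini-Study length of the derivative of a multiple -/
theorem fs_smul_fun {f g : ℂ → EN N} {z : ℂ} (hf : AnalyticAt ℂ f z) (hg : AnalyticAt ℂ g z) (hf0 : f z ≠ 0) (hg0 : g z ≠ 0)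
    (h : ∀ᶠ w in 𝓝 z, ∃ c : ℂ, f w = c • g w) : fs (f z) (deriv f z) = fs (g z) (deriv g z) := by
  obtain ⟨l, hl⟩ := en_coord_ne hg0
  have hgl := en_coord_an hg l
  have hfl := en_coord_an hf l
  obtain ⟨k, hk⟩ : ∃ k : ℂ → ℂ, k = fun w => f w l / g w l := ⟨_, rfl⟩
  have ha : AnalyticAt ℂ k z := by
    rw [hk]
    exact hfl.div hgl hl
  have he : ∀ᶠ w in 𝓝 z, f w = k w • g w := by
    filter_upwards [h, hgl.continuousAt.eventually_ne hl] with w h1 h2
    obtain ⟨c, h3⟩ := h1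
    have h4 : f w l = c * g w l := by rw [h3]; rfl
    have h2' : g w l ≠ 0 := h2
    rw [hk]
    simp only
    rw [h4, mul_div_assoc, div_self h2', mul_one]
    exact h3
  have hz : f z = k z • g z := he.self_of_nhds
  have h0 : k z ≠ 0 := by
    intro h1
    apply hf0
    rw [hz, h1, zero_smul]
  have hd : deriv f z = k z • deriv g z + deriv k z • g z := by
    have h1 : f =ᶠ[𝓝 z] fun w => k w • g w := he
    rw [h1.deriv_eq]
    exact (ha.differentiableAt.hasDerivAt.smul hg.differentiableAt.hasDerivAt).deriv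
  rw [hd, hz]
  exact Pool.Agent.H36.BP.fs_inv hg0 _ h0 _

/-- the differential of the map to the torus is bounded -/
theorem du_bound {d : ℕ} (hX : IsCone X) (hch : Charts d X) (hu : TorusMapV X Λ u) (hΛ : DiscreteSub Λ) :
    ∃ C : ℝ, 0 < C ∧ ∀ x v, Tan X x v → ∀ j, ‖hu.du x v j‖ ≤ C * fs x v := by
  obtain ⟨ν, hν⟩ : ∃ ν : PseudoLength X, ν = symLength hX hch (m := fun _ : Fin n => 1) (fun _ => le_rfl) (fun j => hu.symDiff hΛ hX j) := ⟨_, rfl⟩
  obtain ⟨C, hC, hb⟩ := length_bound hX hch ν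
  refine ⟨C, hC, fun x v hxv j => le_trans ?_ (hb x v hxv)⟩
  rw [hν]
  show _ ≤ Real.sqrt (∑ i, ‖hu.du x v i‖ ^ ((2 : ℝ) / (1 : ℕ)))
  refine Real.le_sqrt_of_sq_le ?_
  have h3 : ∀ i, ‖hu.du x v i‖ ^ ((2 : ℝ) / (1 : ℕ)) = ‖hu.du x v i‖ ^ 2 := by
    intro i
    rw [Nat.cast_one, div_one, Real.rpow_two]
  simp only [h3]
  exact Finset.single_le_sum (f := fun i => ‖hu.du x v i‖ ^ 2) (fun i _ => sq_nonneg _) (Finset.mem_univ j)

/-- the derivative of a lift -/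
theorem deriv_lift (hu : TorusMapV X Λ u) (hΛ : DiscreteSub Λ) {G : ℂ → EN N} (hG : Differentiable ℂ G) (hGX : ∀ z, G z ∈ X)
    {φ : ℂ → Vd n} (hφ : Differentiable ℂ φ) (h : ∀ z, u (G z) - φ z ∈ Λ) (z₀ : ℂ) : deriv φ z₀ = hu.du (G z₀) (deriv G z₀) := by
  have hl := hu.lift_an (hGX z₀)
  have hc : Tendsto G (𝓝 z₀) (𝓝 (G z₀)) := hG.continuous.tendsto z₀
  have h1 := deriv_eq_of_mem (Λ := Λ) hΛ (h := fun z => hu.lift (G z₀) (G z)) (k := φ) (z₀ := z₀)
    (AnalyticAt.comp (g := hu.lift (G z₀)) (f := G) hl (hG.analyticAt z₀)) (hφ.analyticAt z₀) (by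
      filter_upwards [hc.eventually (hu.lift_mem (hGX z₀))] with z h3
      have h4 := Λ.sub_mem (h z) (h3 (hGX z))
      have h5 : hu.lift (G z₀) (G z) - φ z = (u (G z) - φ z) - (u (G z) - hu.lift (G z₀) (G z)) := by abel
      rw [h5]
      exact h4)
  rw [← h1, deriv_comp_lift (hG.analyticAt z₀) hl]
  rfl

theorem mem_of_dense (hX : IsCone X) {F G : ℂ → EN N} (hF : Differentiable ℂ F) (h0 : ∃ z, F z ≠ 0) (hFX : ∀ z, F z ≠ 0 → F z ∈ X)
    (hG : Differentiable ℂ G) (hG0 : ∀ z, G z ≠ 0) (hFG : ∀ z, ∃ c : ℂ, F z = c • G z) (z : ℂ) : G z ∈ X := by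
  have h1 : ∃ᶠ w in 𝓝 z, F w ≠ 0 := by
    rw [Filter.frequently_iff_forall_eventually_exists_and]
    intro p hp
    by_contra hcon
    push Not at hcon
    apply eventually_ne_of_entire hF h0 z
    filter_upwards [hp] with w hw
    by_contra h2
    exact hcon w h2 hw
  have h2 : ∃ᶠ w in 𝓝 z, G w ∈ insert 0 X := by
    refine h1.mono fun w hw => ?_
    obtain ⟨c, hc⟩ := hFG w
    have hc0 : c ≠ 0 := by
      rintro rfl
      rw [zero_smul] at hc
      exact hw hc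
    have h3 := hX.smul_mem _ (hFX w hw) c⁻¹ (inv_ne_zero hc0)
    rw [hc, smul_smul, inv_mul_cancel₀ hc0, one_smul] at h3
    exact Or.inr h3
  rcases hX.closed.mem_of_frequently_of_tendsto h2 hG.continuous.continuousAt with h3 | h3
  · exact absurd h3 (hG0 z)
  · exact h3

/-- **Entire curves of order two are mapped to affine curves.** -/
theorem exists_curve_affine {d : ℕ} (hX : IsCone X) (hch : Charts d X) (hu : TorusMapV X Λ u) (hΛ : DiscreteSub Λ) {F : ℂ → EN N}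
    (hF : Differentiable ℂ F) (hFX : ∀ z, F z ≠ 0 → F z ∈ X) (h0 : F 0 ≠ 0) {C : ℝ} (hC : ∀ z, ‖F z‖ ≤ Real.exp (C * (1 + ‖z‖ ^ 2))) :
    ∃ (G : ℂ → EN N) (a : Vd n), Differentiable ℂ G ∧ (∀ z, G z ∈ X) ∧ (∀ z, ∃ c : ℂ, F z = c • G z) ∧ ∀ z, u (G z) - (u (F 0) + z • a) ∈ Λ := by
  obtain ⟨G, hG, hG0, hFG⟩ := exists_zeroFree hF ⟨0, h0⟩
  have hGX := mem_of_dense hX hF ⟨0, h0⟩ hFX hG hG0 hFG
  obtain ⟨φ, hφ, hφu⟩ := Pool.Agent.H19T.exists_lift_torus hX hu hΛ hG hGX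
  obtain ⟨K, hK, hb⟩ := du_bound hX hch hu hΛ
  have haff : ∀ j, ∃ a b : ℂ, ∀ z, φ z j = a * z + b := by
    intro j
    have hφj : Differentiable ℂ fun z => φ z j := differentiable_pi.1 hφ j
    refine Pool.Agent.H17EF.affine_of_bound (N := N) hφj (c := K⁻¹) (C₀ := |C| + |Real.log ‖F 0‖|) (inv_pos.2 hK) fun r hr => ?_
    have hcF : Differentiable ℂ fun z => ((Real.exp (-(|C| * (1 + r ^ 2))) : ℝ) : ℂ) • F z := by
      intro z
      exact (hF z).const_smul (((Real.exp (-(|C| * (1 + r ^ 2))) : ℝ) : ℂ))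
    refine ⟨fun z => ((Real.exp (-(|C| * (1 + r ^ 2))) : ℝ) : ℂ) • F z, hcF.differentiableOn, fun z hz => ?_, ?_, fun z hz hz0 => ?_⟩
    · rw [norm_smul, Complex.norm_real, Real.norm_of_nonneg (Real.exp_pos _).le]
      have h1 : ‖F z‖ ≤ Real.exp (|C| * (1 + r ^ 2)) := by
        refine (hC z).trans (Real.exp_le_exp.2 ?_)
        have h2 : ‖z‖ ^ 2 ≤ r ^ 2 := pow_le_pow_left₀ (norm_nonneg _) (mem_ball_zero_iff.1 hz).le 2
        calc C * (1 + ‖z‖ ^ 2) ≤ |C| * (1 + ‖z‖ ^ 2) := mul_le_mul_of_nonneg_right (le_abs_self C) (by positivity)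
          _ ≤ |C| * (1 + r ^ 2) := mul_le_mul_of_nonneg_left (by linarith) (abs_nonneg _)
      calc Real.exp (-(|C| * (1 + r ^ 2))) * ‖F z‖ ≤ Real.exp (-(|C| * (1 + r ^ 2))) * Real.exp (|C| * (1 + r ^ 2)) :=
            mul_le_mul_of_nonneg_left h1 (Real.exp_pos _).le
        _ = 1 := by rw [← Real.exp_add, neg_add_cancel, Real.exp_zero]
    · show _ ≤ ‖((Real.exp (-(|C| * (1 + r ^ 2))) : ℝ) : ℂ) • F 0‖
      rw [norm_smul, Complex.norm_real, Real.norm_of_nonneg (Real.exp_pos _).le]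
      conv_rhs => rw [← Real.exp_log (norm_pos_iff.2 h0), ← Real.exp_add]
      apply Real.exp_le_exp.2
      have h1 := neg_abs_le (Real.log ‖F 0‖)
      have h2 : |Real.log ‖F 0‖| * 1 ≤ |Real.log ‖F 0‖| * (1 + r ^ 2) := mul_le_mul_of_nonneg_left (by nlinarith [sq_nonneg r]) (abs_nonneg _)
      nlinarith
    · have hc0 : ((Real.exp (-(|C| * (1 + r ^ 2))) : ℝ) : ℂ) ≠ 0 := by exact_mod_cast (Real.exp_pos _).ne'
      have hFz : F z ≠ 0 := fun h => hz0 (by simp only [h, smul_zero])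
      have h1 : fs (((Real.exp (-(|C| * (1 + r ^ 2))) : ℝ) : ℂ) • F z) (deriv (fun z => ((Real.exp (-(|C| * (1 + r ^ 2))) : ℝ) : ℂ) • F z) z) =
          fs (G z) (deriv G z) := by
        refine fs_smul_fun (f := fun z => ((Real.exp (-(|C| * (1 + r ^ 2))) : ℝ) : ℂ) • F z) (hcF.analyticAt z) (hG.analyticAt z)
          (smul_ne_zero hc0 hFz) (hG0 z) (Eventually.of_forall fun w => ?_)
        obtain ⟨c, hc⟩ := hFG w
        exact ⟨((Real.exp (-(|C| * (1 + r ^ 2))) : ℝ) : ℂ) * c, by rw [hc, smul_smul]⟩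
      rw [h1, inv_mul_le_iff₀ hK]
      have h2 := hb _ _ (tan_entire hG hGX z) j
      rw [← deriv_lift hu hΛ hG hGX hφ hφu z] at h2
      have h3 : deriv (fun z => φ z j) z = deriv φ z j := by
        have h4 := (hasDerivAt_pi.1 (hφ z).hasDerivAt) j
        exact h4.deriv
      rw [h3]
      exact h2
  choose a b hab using haff
  refine ⟨G, a, hG, hGX, hFG, fun z => ?_⟩
  have h1 : φ z = z • a + φ 0 := by
    funext j
    rw [Pi.add_apply, Pi.smul_apply, smul_eq_mul, hab, hab]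
    ring
  obtain ⟨c, hc⟩ := hFG 0
  have hc0 : c ≠ 0 := by
    rintro rfl
    rw [zero_smul] at hc
    exact h0 hc
  have h2 := hu.smul _ (hGX 0) c hc0
  rw [← hc] at h2
  have h3 := Λ.sub_mem (Λ.sub_mem (hφu z) h2) (hφu 0)
  rw [h1] at h3
  have h4 : u (G z) - (u (F 0) + z • a) = u (G z) - (z • a + φ 0) - (u (F 0) - u (G 0)) - (u (G 0) - φ 0) := by abel
  rw [h4]
  exact h3

end Pool.Agent.TG

end
end

section

/-!
# G3 C LL: maps to the projective space with local holomorphic lifts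

`LL W z₀`: near `z₀` the map `W : ℂ → MN N` is `pr ∘ G` with `G` holomorphic, `G z₀ ≠ 0`.

* `pr_iff_minors`: `pr x = pr y` iff all minors vanish (`pr_eq_iff`).
* `LL.ident`: the set of the `z ∈ A` near which `W = W'` is open, and closed in `A`: at a limit point `z₀ ∈ A` with the local lifts `G`, `G'` the minors `G i * G' j - G j * G' i` are
  analytic and vanish on open sets near `z₀`, so (`AnalyticAt.eventually_eq_zero_or_eventually_ne_zero`) they vanish near `z₀`.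
* `LL.nonvan`: the same for the set of the `z ∈ A` near which `nd v (W z) = 0`: this is `⟨v, G z⟩ = 0` (`nd_pr_ne`).
* `LL.lift`: `Pool.Agent.H17.exists_global_lift` as in `Pool.Agent.TG.exists_zeroFree`.
* `LL.of_zeros`: where `g` vanishes, `g z = (z - z₀) ^ n • G z` (`AnalyticAt.exists_eventuallyEq_pow_smul_nonzero_iff`).
-/

set_option autoImplicit false

open Topology Filter Metric Set

namespace Pool.Agent.G3.C

open Pool.Agent.H36.BP (EN)
open Pool.Agent.H62.EF (MN pr pr_smul pr_eq_iff continuousAt_pr)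

variable {N : ℕ}

theorem pr_iff_minors {x y : EN N} (hx : x ≠ 0) (hy : y ≠ 0) : pr x = pr y ↔ ∀ i j, x i * y j - x j * y i = 0 := by
  rw [pr_eq_iff hx hy]
  constructor
  · rintro ⟨c, -, rfl⟩ i j
    simp only [PiLp.smul_apply, smul_eq_mul]
    ring
  · intro h
    obtain ⟨j, hj⟩ := Pool.Agent.TG.en_coord_ne hy
    have h1 : x = (x j / y j) • y := by
      ext i
      simp only [PiLp.smul_apply, smul_eq_mul]
      have h2 := h i j
      rw [div_mul_eq_mul_div, eq_div_iff hj]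
      linear_combination h2
    refine ⟨x j / y j, ?_, h1⟩
    intro h0
    rw [h0, zero_smul] at h1
    exact hx h1

/-- the identity theorem -/
theorem LL.ident {W W' : ℂ → MN N} {A : Set ℂ} (hA : IsOpen A) (hc : IsPreconnected A) (hW : ∀ z ∈ A, LL W z) (hW' : ∀ z ∈ A, LL W' z) {z₁ : ℂ} (hz₁ : z₁ ∈ A)
    (h : ∀ᶠ z in 𝓝 z₁, W z = W' z) : ∀ z ∈ A, W z = W' z := by
  have hsub : A ⊆ {z | ∀ᶠ w in 𝓝 z, W w = W' w} := by
    refine hc.subset_of_closure_inter_subset isOpen_setOfPred_eventually_nhds ⟨z₁, hz₁, h⟩ ?_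
    rintro z₀ ⟨hz₀, hz₀A⟩
    obtain ⟨G, hG, hG0, hGe⟩ := hW z₀ hz₀A
    obtain ⟨G', hG', hG0', hGe'⟩ := hW' z₀ hz₀A
    have hp : ∀ᶠ z in 𝓝 z₀, (G z ≠ 0 ∧ W z = pr (G z)) ∧ G' z ≠ 0 ∧ W' z = pr (G' z) :=
      ((hG.continuousAt.eventually_ne hG0).and hGe).and ((hG'.continuousAt.eventually_ne hG0').and hGe')
    have hm : ∀ i j, ∀ᶠ z in 𝓝 z₀, G z i * G' z j - G z j * G' z i = 0 := by
      intro i j
      refine LL_zero ?_ hp hz₀ ?_
      · exact ((Pool.Agent.TG.en_coord_an hG i).mul (Pool.Agent.TG.en_coord_an hG' j)).sub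
          ((Pool.Agent.TG.en_coord_an hG j).mul (Pool.Agent.TG.en_coord_an hG' i))
      · rintro z ⟨⟨h1, h2⟩, h3, h4⟩ h5
        rw [h2, h4] at h5
        exact (pr_iff_minors h1 h3).1 h5 i j
    have hm' : ∀ᶠ z in 𝓝 z₀, ∀ i j, G z i * G' z j - G z j * G' z i = 0 :=
      eventually_all.2 fun i => eventually_all.2 fun j => hm i j
    show ∀ᶠ w in 𝓝 z₀, W w = W' w
    filter_upwards [hp, hm'] with z hz1 hz2
    obtain ⟨⟨h1, h2⟩, h3, h4⟩ := hz1
    rw [h2, h4]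
    exact (pr_iff_minors h1 h3).2 hz2
  intro z hz
  exact (hsub hz).self_of_nhds

/-- global lifts -/
theorem LL.lift {W : ℂ → MN N} (hW : ∀ z, LL W z) : ∃ F : ℂ → EN N, Differentiable ℂ F ∧ (∀ z, F z ≠ 0) ∧ ∀ z, W z = pr (F z) := by
  classical
  choose Φ hΦa hΦ0 hΦe using hW
  obtain ⟨f, hf⟩ : ∃ f : ℂ → Pool.Agent.H17.PN N,
      f = fun z => Projectivization.mk ℂ (Φ z z).ofLp (Pool.Agent.TG.ofLp_ne (hΦ0 z)) := ⟨_, rfl⟩
  have hfhol : Pool.Agent.H17.HolomorphicInto f Set.univ := by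
    intro z₀ _
    refine ⟨fun w => (Φ z₀ w).ofLp, ?_, ?_⟩
    · rw [analyticAt_pi_iff]
      intro j
      exact Pool.Agent.TG.en_coord_an (hΦa z₀) j
    · filter_upwards [hΦe z₀, (hΦa z₀).continuousAt.eventually_ne (hΦ0 z₀)] with z h1 h2
      have h3 : pr (Φ z z) = pr (Φ z₀ z) := by
        rw [← h1]
        exact ((hΦe z).self_of_nhds).symm
      obtain ⟨c, -, h4⟩ := (pr_eq_iff (hΦ0 z) h2).1 h3
      refine ⟨Pool.Agent.TG.ofLp_ne h2, ?_⟩
      rw [hf, Projectivization.mk_eq_mk_iff']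
      exact ⟨c, by rw [h4]; rfl⟩
  obtain ⟨x, hx⟩ := Pool.Agent.H17.exists_global_lift hfhol
  have hF0 : ∀ z, (WithLp.toLp 2 (fun j => (x j : ℂ → ℂ) z) : EN N) ≠ 0 := by
    intro z h
    obtain ⟨h1, -⟩ := hx z
    apply h1
    funext j
    exact congrArg (fun v : EN N => v j) h
  refine ⟨fun z => WithLp.toLp 2 (fun j => (x j : ℂ → ℂ) z), ?_, hF0, ?_⟩
  · have h1 : Differentiable ℂ (fun z => (fun j => (x j : ℂ → ℂ) z)) := differentiable_pi.2 fun j => (x j).diff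
    exact (PiLp.continuousLinearEquiv 2 ℂ (fun _ : Fin (N + 1) => ℂ)).symm.differentiable.comp h1
  · intro z
    obtain ⟨h1, h2⟩ := hx z
    rw [hf] at h2
    obtain ⟨c, hc, h3⟩ := Pool.Agent.H17.mk_eq_mk_cross h2
    rw [(hΦe z).self_of_nhds, pr_eq_iff (hΦ0 z) (hF0 z)]
    refine ⟨c, hc, ?_⟩
    ext j
    exact h3 j

end Pool.Agent.G3.C

end
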