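import Pool.Agent.H94.G4T.M119
import Pool.Agent.H94.G4T.M24
import Pool.Agent.H94.G4T.M31

/-! The parts of this file: H56.G3.Pc1, H56.G3.Pc2, H56.G3.Pc3. -/

section

/-!
# G3 Pc1: a Harnack type inequality for curves
-/

set_option autoImplicit false

open Topology Filter Metric MeasureTheory

namespace Pool.Agent.H56.G3

open Pool.Agent.H36.BP (EN fs wd Sub)
open Pool.Agent.H14.PP (IsCone CurveAt Tan)
open Pool.Agent.AD (Vd)
open Pool.Agent.TG (TMap Gd)
open Pool.Agent.G3 (Cv PS QD Ok Lam Lq Np pf TT)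

variable {N k : ℕ} {X : Set (EN N)} {Λ : AddSubgroup (Vd (k + 1))} {u : EN N → Vd (k + 1)} {D : Set (Vd (k + 1))} {Q : EN N → ℂ} {d : ℕ}
  {p : EN N → EN N → ℝ} {m : ℕ} {C C₁ : ℝ}

private theorem alg {C₁ d m y L P : ℝ} (hC : 0 ≤ C₁) (hd : 1 ≤ d) (hL : 0 ≤ L) (hP : 0 ≤ P)
    (h : (1 / 2 : ℝ) ^ 2 * y ^ 2 ≤ C₁ * (1 + (L + d * (m * y + P)))) :
    y ^ 2 ≤ (8 * C₁ * d + 16 * C₁ ^ 2 * d ^ 2 * m ^ 2) * (1 + L + P) := by
  have h1 : 0 ≤ (y - 4 * C₁ * d * m) ^ 2 := sq_nonneg _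
  have h2 : y ^ 2 ≤ 4 * C₁ * (1 + L + d * P) + 4 * C₁ * d * m * y := by nlinarith only [h]
  have h3 : y ^ 2 ≤ 8 * C₁ * (1 + L + d * P) + 16 * C₁ ^ 2 * d ^ 2 * m ^ 2 := by nlinarith
  have h4 : 1 + L + d * P ≤ d * (1 + L + P) := by nlinarith only [hd, hL]
  have h5 : 8 * C₁ * (1 + L + d * P) ≤ 8 * C₁ * (d * (1 + L + P)) := mul_le_mul_of_nonneg_left h4 (by positivity)
  have h6 : 16 * C₁ ^ 2 * d ^ 2 * m ^ 2 * 1 ≤ 16 * C₁ ^ 2 * d ^ 2 * m ^ 2 * (1 + L + P) := mul_le_mul_of_nonneg_left (by linarith only [hL, hP]) (by positivity)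
  nlinarith

private theorem alg2 {d m y K₁ L P : ℝ} (hd : 1 ≤ d) (hm : 1 ≤ m) (hL : 0 ≤ L) (hP : 0 ≤ P) (h : y ≤ 1 + K₁ * (1 + L + P)) :
    1 + (L + d * (m * y + P)) ≤ d * (1 + m + m * K₁) * (1 + L + P) := by
  obtain ⟨S, hS⟩ : ∃ S : ℝ, S = 1 + L + P := ⟨_, rfl⟩
  have h0 : 1 ≤ S := by linarith only [hL, hP, hS]
  rw [← hS] at h ⊢
  have h1 : 1 + L + d * P ≤ d * S := by
    rw [hS]
    nlinarith only [hd, hL]
  have h2 : y ≤ S + K₁ * S := by linarith
  have h3 : m * y ≤ m * (S + K₁ * S) := mul_le_mul_of_nonneg_left h2 (by linarith)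
  have h4 : d * (m * y) ≤ d * (m * (S + K₁ * S)) := mul_le_mul_of_nonneg_left h3 (by linarith)
  have h5 : d * (1 + m + m * K₁) * S = d * S + d * (m * (S + K₁ * S)) := by ring
  have h6 : 1 + (L + d * (m * y + P)) = (1 + L + d * P) + d * (m * y) := by ring
  rw [h5, h6]
  linarith only [h1, h4]

theorem hl_unit (hX : IsCone X) (hps : PS X Λ u D p m C) (hqd : QD X Λ u D Q d) (hC₁ : 0 ≤ C₁) (hroot : RootLog X Λ u Q d p m C₁) :
    ∃ C' : ℝ, 0 < C' ∧ ∀ (F : ℂ → EN N) (h : ℂ → Vd (k + 1)), Cv X Λ u (ball 0 1) F h → Ok Q p F 0 → ∀ ρ : ℝ, 0 < ρ → ρ ≤ 1 / 2 →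
      Real.circleAverage (fun z => ‖deriv h z‖ ^ 2) 0 ρ ≤ C' * (1 + Lq Q d (F 0) + max (-Real.log (pf p F 0)) 0) ∧
      Real.circleAverage (fun z => max (Lq Q d (F z)) 0) 0 ρ ≤ C' * (1 + Lq Q d (F 0) + max (-Real.log (pf p F 0)) 0) ∧
      Real.circleAverage (fun z => max (-Real.log (pf p F z)) 0) 0 ρ ≤ C' * (1 + Lq Q d (F 0) + max (-Real.log (pf p F 0)) 0) := by
  have hm1 : (1 : ℝ) ≤ m := by exact_mod_cast hps.m_pos
  have hd1 : (1 : ℝ) ≤ d := by exact_mod_cast hqd.d_pos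
  have hC1 := hps.C_ge
  obtain ⟨K₁, hK₁⟩ : ∃ K₁ : ℝ, K₁ = 8 * C₁ * d + 16 * C₁ ^ 2 * d ^ 2 * m ^ 2 := ⟨_, rfl⟩
  have hK₁0 : 0 ≤ K₁ := by rw [hK₁]; positivity
  obtain ⟨K₂, hK₂⟩ : ∃ K₂ : ℝ, K₂ = 4 * C₁ * d * (1 + m + m * K₁) := ⟨_, rfl⟩
  have hK₂0 : 0 ≤ K₂ := by rw [hK₂]; positivity
  obtain ⟨K, hK⟩ : ∃ K : ℝ, K = K₁ + K₂ + d + C := ⟨_, rfl⟩
  have hK0 : 0 < K := by rw [hK]; linarith only [hd1, hC1, hK₁0, hK₂0]
  obtain ⟨C', hC'0, hC'⟩ := harnack (m : ℝ) 1 K (by linarith) one_pos hK0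
  refine ⟨C', hC'0, ?_⟩
  intro F h hc hok ρ hρ hρ2
  have hU : IsOpen (ball (0 : ℂ) 1) := isOpen_ball
  have hsubc : ∀ r : ℝ, 0 < r → r ≤ 1 / 2 → closedBall (0 : ℂ) r ⊆ ball 0 1 := fun r _ hr => closedBall_subset_ball (by linarith only [hρ, hρ2, hr])
  have hisol := ok_isol hX hps hqd hU hc (convex_ball _ _).isPreconnected ⟨0, mem_ball_self one_pos, hok⟩
  have hae : ∀ r : ℝ, 0 < r → r ≤ 1 / 2 → ∀ᵐ θ : ℝ, Ok Q p F (circleMap 0 r θ) := fun r hr hr2 =>
    ae_circle hisol hr (sphere_subset_closedBall.trans (hsubc r hr hr2))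
  have h0mem : F 0 ∈ X := hc.mem 0 (mem_ball_self one_pos)
  have hL0 : max (Lq Q d (F 0)) 0 = Lq Q d (F 0) := max_eq_left (Lq_nonneg hX hqd h0mem hok.1)
  have hcmem : ∀ r : ℝ, 0 < r → r ≤ 1 / 2 → ∀ θ : ℝ, circleMap 0 r θ ∈ ball (0 : ℂ) 1 := fun r hr hr2 θ =>
    hsubc r hr hr2 (sphere_subset_closedBall (circleMap_mem_sphere 0 hr.le θ))
  have hLae : ∀ r : ℝ, 0 < r → r ≤ 1 / 2 → ∀ᵐ θ : ℝ, Lq Q d (F (circleMap 0 r θ)) = max (Lq Q d (F (circleMap 0 r θ))) 0 := by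
    intro r hr hr2
    filter_upwards [hae r hr hr2] with θ hθ
    exact (max_eq_left (Lq_nonneg hX hqd (hc.mem _ (hcmem r hr hr2 θ)) hθ.1)).symm
  have key := hC' (Vd (k + 1)) h (fun z => max (Lq Q d (F z)) 0) (fun z => Real.log (pf p F z)) (fun r => TT F 0 r) hc.h_diff
    (fun z => le_max_right _ _) ?_ ?_ ?_ ?_ ?_ ?_ ρ hρ hρ2
  · simp only [hL0] at key
    exact key
  · intro r hr hr2
    exact ci_congr_ae (Lq_jensen hX hqd hU hc hr (hsubc r hr hr2) hok.1).1 (hLae r hr hr2)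
  · intro r hr hr2
    exact (hps.jensen _ F h hU hc 0 r hr (hsubc r hr hr2) hok.2).1
  · intro r hr hr2
    exact TT_nonneg hX hc hr (hsubc r hr hr2)
  · intro r hr hr2
    filter_upwards [hae r hr hr2] with θ hθ
    have hz := hcmem r hr hr2 θ
    have hn : ‖circleMap 0 r θ‖ = r := by rw [norm_circleMap_zero, abs_of_pos hr]
    obtain ⟨z, hz'⟩ : ∃ z : ℂ, z = circleMap 0 r θ := ⟨_, rfl⟩
    rw [← hz'] at hθ hz hn ⊢
    have hb : ball z (1 / 2) ⊆ ball (0 : ℂ) 1 := by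
      intro w hw
      rw [mem_ball_iff_norm] at hw
      rw [mem_ball_zero_iff]
      calc ‖w‖ = ‖(w - z) + z‖ := by rw [sub_add_cancel]
        _ ≤ ‖w - z‖ + ‖z‖ := norm_add_le _ _
        _ < 1 := by linarith only [hr2, hn, hw]
    obtain ⟨r1, r2⟩ := hroot z (1 / 2) F h (by norm_num) (hc.mono hb) hθ
    have hLn := Lq_nonneg hX hqd (hc.mem z hz) hθ.1
    have hNp := Np_le (h := h) (m := m) hθ.2
    have hPn : 0 ≤ max (-Real.log (pf p F z)) 0 := le_max_right _ _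
    obtain ⟨L, hL⟩ : ∃ L : ℝ, L = Lq Q d (F z) := ⟨_, rfl⟩
    obtain ⟨P, hP⟩ : ∃ P : ℝ, P = max (-Real.log (pf p F z)) 0 := ⟨_, rfl⟩
    obtain ⟨y, hy⟩ : ∃ y : ℝ, y = ‖deriv h z‖ := ⟨_, rfl⟩
    have hy0 : 0 ≤ y := by rw [hy]; exact norm_nonneg _
    have hLam : Lam Q d p m F h z ≤ L + d * (m * y + P) := by
      unfold Lam
      rw [← hL]
      rw [← hy, ← hP] at hNp
      have : (d : ℝ) * Np p m F h z ≤ d * (m * y + P) := mul_le_mul_of_nonneg_left hNp (by linarith only [hd1, hρ, hρ2])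
      linarith only [this]
    rw [← hL] at hLn
    rw [← hP] at hPn
    have hr1 : (1 / 2 : ℝ) ^ 2 * y ^ 2 ≤ C₁ * (1 + (L + d * (m * y + P))) := by
      rw [← hy] at r1
      exact r1.trans (mul_le_mul_of_nonneg_left (by linarith only [hLam]) hC₁)
    have hr2' : (1 / 2 : ℝ) ^ 2 * pf p F z ^ (2 / (m : ℝ)) ≤ C₁ * (1 + (L + d * (m * y + P))) :=
      r2.trans (mul_le_mul_of_nonneg_left (by linarith only [hLam]) hC₁)
    have hyK : y ^ 2 ≤ K₁ * (1 + L + P) := by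
      rw [hK₁]
      exact alg hC₁ hd1 hLn hPn hr1
    have hS : 1 ≤ 1 + L + P := by linarith only [hLn, hPn]
    have hmax : max (Lq Q d (F z)) 0 = L := by
      rw [hL]
      exact max_eq_left (by rw [← hL]; exact hLn)
    have hpK : pf p F z ^ (2 / (m : ℝ)) ≤ K₂ * (1 + L + P) := by
      have hy1 : y ≤ 1 + y ^ 2 := by nlinarith only [hρ, hρ2, sq_nonneg (y - 1)]
      have h3 : pf p F z ^ (2 / (m : ℝ)) ≤ 4 * (C₁ * (1 + (L + d * (m * y + P)))) := by linarith only [hr2']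
      have h4 : 1 + (L + d * (m * y + P)) ≤ d * (1 + m + m * K₁) * (1 + L + P) := alg2 hd1 hm1 hLn hPn (by linarith only [hyK, hy1])
      calc pf p F z ^ (2 / (m : ℝ)) ≤ 4 * (C₁ * (1 + (L + d * (m * y + P)))) := h3
        _ ≤ 4 * (C₁ * (d * (1 + m + m * K₁) * (1 + L + P))) := by
          apply mul_le_mul_of_nonneg_left _ (by norm_num)
          exact mul_le_mul_of_nonneg_left h4 hC₁
        _ = K₂ * (1 + L + P) := by rw [hK₂]; ring
    refine ⟨?_, ?_⟩
    · simp only [← hy, hmax, ← hP]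
      refine hyK.trans (mul_le_mul_of_nonneg_right ?_ (by linarith only [hρ, hρ2, hLn, hPn]))
      rw [hK]
      linarith only [hd1, hC1, hK₂0, hρ, hρ2]
    · simp only [hmax, ← hP]
      have h9 : Real.exp (2 * Real.log (pf p F z) / m) = pf p F z ^ (2 / (m : ℝ)) := by
        rw [Real.rpow_def_of_pos hθ.2]
        congr 1
        ring
      rw [h9]
      refine hpK.trans (mul_le_mul_of_nonneg_right ?_ (by linarith only [hρ, hρ2, hLn, hPn]))
      rw [hK]
      linarith only [hd1, hC1, hK₁0, hρ, hρ2]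
  · intro r hr hr2
    have h1 := (Lq_jensen hX hqd hU hc hr (hsubc r hr hr2) hok.1).2
    have h2 := avg_congr_ae (f := fun z => Lq Q d (F z)) (g := fun z => max (Lq Q d (F z)) 0) (hLae r hr hr2)
    have h3 := TT_nonneg hX hc hr (hsubc r hr hr2)
    simp only [hL0]
    rw [← h2]
    refine h1.trans ?_
    have h4 : (d : ℝ) * TT F 0 r ≤ K * TT F 0 r := mul_le_mul_of_nonneg_right (by rw [hK]; linarith only [hC1, hK₁0, hK₂0, hρ, hρ2]) h3
    linarith
  · intro r hr hr2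
    have h1 := (hps.jensen _ F h hU hc 0 r hr (hsubc r hr hr2) hok.2).2
    have h2 : 0 ≤ Real.circleAverage (fun z => ‖h z - h 0‖ ^ 2) 0 r := Real.circleAverage_nonneg_of_nonneg fun z _ => by positivity
    have h3 : C * Real.circleAverage (fun z => ‖h z - h 0‖ ^ 2) 0 r ≤ K * Real.circleAverage (fun z => ‖h z - h 0‖ ^ 2) 0 r :=
      mul_le_mul_of_nonneg_right (by rw [hK]; linarith only [hd1, hK₁0, hK₂0, hρ, hρ2]) h2
    linarith

end Pool.Agent.H56.G3

end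

section

/-!
# G3 Pc2: the Harnack type inequality on discs of arbitrary radius; good points near a given point
-/

set_option autoImplicit false

open Topology Filter Metric MeasureTheory Real

namespace Pool.Agent.H56.G3

open Pool.Agent.H36.BP (EN fs wd Sub)
open Pool.Agent.H14.PP (IsCone CurveAt Tan)
open Pool.Agent.AD (Vd)
open Pool.Agent.TG (TMap Gd)
open Pool.Agent.G3 (Cv PS QD Ok Lam Lq Np pf TT)

variable {N k : ℕ} {X : Set (EN N)} {Λ : AddSubgroup (Vd (k + 1))} {u : EN N → Vd (k + 1)} {D : Set (Vd (k + 1))} {Q : EN N → ℂ} {d : ℕ}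
  {p : EN N → EN N → ℝ} {m : ℕ} {C C₁ : ℝ}

theorem hl_disc (hX : IsCone X) (hps : PS X Λ u D p m C) (hqd : QD X Λ u D Q d) (hC₁ : 0 ≤ C₁) (hroot : RootLog X Λ u Q d p m C₁) :
    ∃ C' : ℝ, 0 < C' ∧ ∀ (w : ℂ) (r : ℝ) (F : ℂ → EN N) (h : ℂ → Vd (k + 1)), 0 < r → Cv X Λ u (ball w r) F h → Ok Q p F w → ∀ ρ : ℝ, 0 < ρ → ρ ≤ r / 2 →
      r ^ 2 * Real.circleAverage (fun z => ‖deriv h z‖ ^ 2) w ρ ≤ C' * (1 + Lq Q d (F w) + max (-Real.log (r ^ m * pf p F w)) 0) ∧
      Real.circleAverage (fun z => max (Lq Q d (F z)) 0) w ρ ≤ C' * (1 + Lq Q d (F w) + max (-Real.log (r ^ m * pf p F w)) 0) ∧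
      Real.circleAverage (fun z => max (-Real.log (r ^ m * pf p F z)) 0) w ρ ≤ C' * (1 + Lq Q d (F w) + max (-Real.log (r ^ m * pf p F w)) 0) := by
  obtain ⟨C', hC'0, hC'⟩ := hl_unit hX hps hqd hC₁ hroot
  refine ⟨C', hC'0, ?_⟩
  intro w r F h hr hc hok ρ hρ hρ2
  have hm : ∀ z ∈ ball (0 : ℂ) 1, w + r * z ∈ ball w r := by
    intro z hz
    rw [mem_ball_zero_iff] at hz
    rw [mem_ball_iff_norm, add_sub_cancel_left, norm_mul, Complex.norm_real, Real.norm_eq_abs, abs_of_pos hr]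
    nlinarith
  have hφ : ∀ z : ℂ, HasDerivAt (fun z : ℂ => w + r * z) (r : ℂ) z := by
    intro z
    have h1 := ((hasDerivAt_id z).const_mul (r : ℂ)).const_add w
    rwa [mul_one] at h1
  have hc1 : Cv X Λ u (ball 0 1) (fun z => F (w + r * z)) fun z => h (w + r * z) :=
    hc.comp (fun z _ => (hφ z).differentiableAt.differentiableWithinAt) hm
  have hpf : ∀ z ∈ ball (0 : ℂ) 1, pf p (fun z => F (w + r * z)) z = r ^ m * pf p F (w + r * z) := by
    intro z hz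
    rw [pf_comp isOpen_ball hc hps (hφ z).differentiableAt (hm z hz), (hφ z).deriv, Complex.norm_real, Real.norm_eq_abs, abs_of_pos hr]
  have hdh : ∀ z ∈ ball (0 : ℂ) 1, ‖deriv (fun z => h (w + r * z)) z‖ ^ 2 = r ^ 2 * ‖deriv h (w + r * z)‖ ^ 2 := by
    intro z hz
    rw [deriv_cv_comp isOpen_ball hc (hφ z).differentiableAt (hm z hz), (hφ z).deriv, norm_smul, Complex.norm_real, Real.norm_eq_abs, abs_of_pos hr]
    ring
  have h0 : w + r * (0 : ℂ) = w := by simp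
  have h0b : (0 : ℂ) ∈ ball (0 : ℂ) 1 := mem_ball_self one_pos
  have hok1 : Ok Q p (fun z => F (w + r * z)) 0 := by
    refine ⟨by simp only [h0]; exact hok.1, ?_⟩
    rw [hpf 0 h0b, h0]
    exact mul_pos (pow_pos hr _) hok.2
  have hρ1 : 0 < ρ / r := div_pos hρ hr
  have hρ3 : ρ / r ≤ 1 / 2 := by
    rw [div_le_iff₀ hr]
    linarith
  have hsb : sphere (0 : ℂ) |ρ / r| ⊆ ball 0 1 := by
    intro z hz
    rw [abs_of_pos hρ1, mem_sphere_iff_norm, sub_zero] at hz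
    rw [mem_ball_zero_iff]
    linarith
  obtain ⟨a1, a2, a3⟩ := hC' _ _ hc1 hok1 (ρ / r) hρ1 hρ3
  have hrr : r * (ρ / r) = ρ := mul_div_cancel₀ ρ hr.ne'
  rw [hpf 0 h0b, h0] at a1 a2 a3
  refine ⟨?_, ?_, ?_⟩
  · refine le_trans (le_of_eq ?_) a1
    have e1 : Real.circleAverage (fun z => ‖deriv (fun z => h (w + r * z)) z‖ ^ 2) 0 (ρ / r) =
        Real.circleAverage (fun z => r ^ 2 * ‖deriv h (w + r * z)‖ ^ 2) 0 (ρ / r) :=
      Real.circleAverage_congr_sphere fun z hz => hdh z (hsb hz)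
    have e2 : Real.circleAverage (fun z => r ^ 2 * ‖deriv h (w + r * z)‖ ^ 2) 0 (ρ / r) = Real.circleAverage (fun z => r ^ 2 * ‖deriv h z‖ ^ 2) w ρ := by
      have e3 := avg_scale (fun z => r ^ 2 * ‖deriv h z‖ ^ 2) w r (ρ / r)
      rw [hrr] at e3
      exact e3
    rw [e1, e2]
    exact (Real.circleAverage_fun_smul (a := r ^ 2) (f := fun z => ‖deriv h z‖ ^ 2)).symm
  · refine le_trans (le_of_eq ?_) a2
    have e3 := avg_scale (fun z => max (Lq Q d (F z)) 0) w r (ρ / r)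
    rw [hrr] at e3
    exact e3.symm
  · refine le_trans (le_of_eq ?_) a3
    have e1 : Real.circleAverage (fun z => max (-Real.log (pf p (fun z => F (w + r * z)) z)) 0) 0 (ρ / r) =
        Real.circleAverage (fun z => max (-Real.log (r ^ m * pf p F (w + r * z))) 0) 0 (ρ / r) :=
      Real.circleAverage_congr_sphere fun z hz => by simp only [hpf z (hsb hz)]
    have e3 := avg_scale (fun z => max (-Real.log (r ^ m * pf p F z)) 0) w r (ρ / r)
    rw [hrr] at e3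
    rw [e1]
    exact e3.symm

/-- a point of an arc where a function is not much greater than its mean -/
theorem arc_point {f : ℂ → ℝ} {P : ℂ → Prop} {c : ℂ} {r : ℝ} (hf : CircleIntegrable f c r) (h0 : ∀ z, 0 ≤ f z) (hP : ∀ᵐ θ : ℝ, P (circleMap c r θ)) (θ₀ : ℝ) :
    ∃ θ : ℝ, |θ - θ₀| ≤ 1 / 8 ∧ P (circleMap c r θ) ∧ f (circleMap c r θ) ≤ 8 * π * Real.circleAverage f c r := by
  obtain ⟨g, hg⟩ : ∃ g : ℝ → ℝ, g = fun θ => f (circleMap c r θ) := ⟨_, rfl⟩
  have hgp : Function.Periodic g (2 * π) := by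
    intro x
    rw [hg]
    simp [periodic_circleMap c r x]
  have hgi : ∀ a b : ℝ, IntervalIntegrable g volume a b := by
    intro a b
    have h1 : IntervalIntegrable g volume 0 (2 * π) := by
      rw [hg]
      exact hf
    exact hgp.intervalIntegrable₀ (by positivity) h1 a b
  have hπ : (1 / 4 : ℝ) ≤ 2 * π := by
    have := Real.pi_gt_three
    linarith
  -- the mean over the arc
  obtain ⟨μ, hμ⟩ : ∃ μ : Measure ℝ, μ = volume.restrict (Set.Ioc (θ₀ - 1 / 8) (θ₀ + 1 / 8)) := ⟨_, rfl⟩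
  have hfin : IsFiniteMeasure μ := by
    rw [hμ]
    infer_instance
  have hvol : volume (Set.Ioc (θ₀ - 1 / 8) (θ₀ + 1 / 8)) = ENNReal.ofReal (1 / 4) := by
    rw [Real.volume_Ioc]
    congr 1
    ring
  have hμ0 : μ ≠ 0 := by
    intro h
    have h1 : μ Set.univ = ENNReal.ofReal (1 / 4) := by rw [hμ, Measure.restrict_apply_univ, hvol]
    rw [h, Measure.coe_zero, Pi.zero_apply] at h1
    have h2 : (0 : ENNReal) < ENNReal.ofReal (1 / 4) := ENNReal.ofReal_pos.2 (by norm_num)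
    exact h2.ne h1
  have hint : Integrable g μ := by
    rw [hμ]
    exact (intervalIntegrable_iff_integrableOn_Ioc_of_le (by linarith)).1 (hgi _ _)
  obtain ⟨Nn, hNn⟩ : ∃ Nn : Set ℝ, Nn = {θ | ¬ P (circleMap c r θ)} ∪ (Set.Ioc (θ₀ - 1 / 8) (θ₀ + 1 / 8))ᶜ := ⟨_, rfl⟩
  have hN0 : μ Nn = 0 := by
    rw [hNn]
    refine measure_union_null ?_ ?_
    · rw [hμ]
      exact Measure.absolutelyContinuous_of_le Measure.restrict_le_self (ae_iff.1 hP)
    · rw [hμ, Measure.restrict_apply measurableSet_Ioc.compl, Set.compl_inter_self, measure_empty]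
  obtain ⟨θ, hθN, hθ⟩ := exists_notMem_null_le_average hμ0 hint hN0
  have hθ1 : P (circleMap c r θ) ∧ θ ∈ Set.Ioc (θ₀ - 1 / 8) (θ₀ + 1 / 8) := by
    rw [hNn] at hθN
    simp only [Set.mem_union, Set.mem_ofPred_eq, Set.mem_compl_iff, not_or, not_not] at hθN
    exact hθN
  refine ⟨θ, ?_, hθ1.1, ?_⟩
  · rw [abs_le]
    constructor
    · linarith [hθ1.2.1]
    · linarith [hθ1.2.2]
  · have h1 : (⨍ a, g a ∂μ) = 4 * ∫ a in (θ₀ - 1 / 8)..(θ₀ + 1 / 8), g a := by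
      rw [average_eq, hμ, Measure.real, Measure.restrict_apply_univ, hvol, ENNReal.toReal_ofReal (by norm_num), smul_eq_mul,
        intervalIntegral.integral_of_le (by linarith)]
      norm_num
    have h2 : ∫ a in (θ₀ - 1 / 8)..(θ₀ + 1 / 8), g a ≤ ∫ a in (θ₀ - 1 / 8)..(θ₀ - 1 / 8 + 2 * π), g a := by
      refine intervalIntegral.integral_mono_interval le_rfl (by linarith) (by linarith) ?_ (hgi _ _)
      exact Eventually.of_forall fun x => by rw [hg]; exact h0 _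
    have h3 : ∫ a in (θ₀ - 1 / 8)..(θ₀ - 1 / 8 + 2 * π), g a = 2 * π * Real.circleAverage f c r := by
      rw [hgp.intervalIntegral_add_eq (θ₀ - 1 / 8) 0, zero_add, hg, Real.circleAverage_def, smul_eq_mul]
      field_simp
    have h4 : g θ = f (circleMap c r θ) := by rw [hg]
    rw [h1, h4] at hθ
    rw [h3] at h2
    linarith

/-- a good point near a given point -/
theorem ball_point {f : ℝ → ℂ → ℝ} {P : ℂ → Prop} {w w' : ℂ} {t : ℝ} (ht : 0 < t) (hw : ‖w' - w‖ ≤ t / 8) (hf : ∀ ρ, 0 < ρ → ρ ≤ t / 8 → CircleIntegrable (f t) w ρ)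
    (h0 : ∀ z, 0 ≤ f t z) (hP : ∀ ρ, 0 < ρ → ρ ≤ t / 8 → ∀ᵐ θ : ℝ, P (circleMap w ρ θ)) :
    ∃ ρ, 0 < ρ ∧ ρ ≤ t / 8 ∧ ∃ z ∈ ball w' (t / 32), ‖z - w‖ = ρ ∧ P z ∧ f t z ≤ 8 * π * Real.circleAverage (f t) w ρ := by
  obtain ⟨ρ, hρ⟩ : ∃ ρ : ℝ, ρ = max ‖w' - w‖ (t / 64) := ⟨_, rfl⟩
  have hρ0 : 0 < ρ := by
    rw [hρ]
    exact lt_max_of_lt_right (by positivity)
  have hρ8 : ρ ≤ t / 8 := by
    rw [hρ]
    exact max_le hw (by linarith)
  obtain ⟨θ, hθ, hPθ, hfθ⟩ := arc_point (hf ρ hρ0 hρ8) h0 (hP ρ hρ0 hρ8) (Complex.arg (w' - w))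
  have hzw : circleMap w ρ θ - w = ρ * Complex.exp (θ * Complex.I) := by simp [circleMap]
  refine ⟨ρ, hρ0, hρ8, circleMap w ρ θ, ?_, ?_, hPθ, hfθ⟩
  · rw [mem_ball_iff_norm]
    have h1 : circleMap w ρ θ - w' = ρ * (Complex.exp (θ * Complex.I) - Complex.exp (Complex.arg (w' - w) * Complex.I)) +
        ((ρ - ‖w' - w‖ : ℝ) : ℂ) * Complex.exp (Complex.arg (w' - w) * Complex.I) := by
      have h2 := Complex.norm_mul_exp_arg_mul_I (w' - w)
      have h3 : circleMap w ρ θ - w' = (circleMap w ρ θ - w) - (w' - w) := by ring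
      rw [h3, hzw]
      nth_rewrite 1 [← h2]
      push_cast
      ring
    have h4 : ‖Complex.exp (θ * Complex.I) - Complex.exp (Complex.arg (w' - w) * Complex.I)‖ ≤ 1 / 8 := by
      have h5 : Complex.exp (θ * Complex.I) - Complex.exp (Complex.arg (w' - w) * Complex.I) =
          Complex.exp (Complex.arg (w' - w) * Complex.I) * (Complex.exp (Complex.I * ((θ - Complex.arg (w' - w) : ℝ) : ℂ)) - 1) := by
        rw [mul_sub, ← Complex.exp_add, mul_one]
        congr 2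
        push_cast
        ring
      rw [h5, norm_mul, Complex.norm_exp_ofReal_mul_I, one_mul]
      exact (Real.norm_exp_I_mul_ofReal_sub_one_le).trans (by rw [Real.norm_eq_abs]; exact hθ)
    have h6 : ‖circleMap w ρ θ - w'‖ ≤ ρ * (1 / 8) + |ρ - ‖w' - w‖| := by
      rw [h1]
      refine (norm_add_le _ _).trans ?_
      rw [norm_mul, norm_mul, Complex.norm_exp_ofReal_mul_I, mul_one, Complex.norm_real, Complex.norm_real, Real.norm_eq_abs, Real.norm_eq_abs, abs_of_pos hρ0]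
      gcongr
    refine h6.trans_lt ?_
    rcases le_total (t / 64) ‖w' - w‖ with h7 | h7
    · rw [max_eq_left h7] at hρ
      rw [← hρ, sub_self, abs_zero]
      linarith
    · rw [max_eq_right h7] at hρ
      have h8 := norm_nonneg (w' - w)
      rw [abs_of_nonneg (by linarith)]
      linarith
  · rw [hzw, norm_mul, Complex.norm_exp_ofReal_mul_I, mul_one, Complex.norm_real, Real.norm_eq_abs, abs_of_pos hρ0]

end Pool.Agent.H56.G3

end

section

/-!
# G3 Pc3: polynomial growth of the derivative of the lift on the half plane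
-/

set_option autoImplicit false

open Topology Filter Metric MeasureTheory Real

namespace Pool.Agent.H56.G3

open Pool.Agent.H36.BP (EN fs wd Sub)
open Pool.Agent.H14.PP (IsCone CurveAt Tan)
open Pool.Agent.AD (Vd)
open Pool.Agent.TG (TMap Gd)
open Pool.Agent.G3 (Cv PS QD Ok Lam Lq Np pf TT)

theorem ci_max {f : ℂ → ℝ} {c : ℂ} {r : ℝ} (hf : CircleIntegrable f c r) : CircleIntegrable (fun z => max (f z) 0) c r := by
  unfold CircleIntegrable at hf ⊢
  rw [intervalIntegrable_iff] at hf ⊢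
  exact hf.pos_part

/-- a bound of the value of a holomorphic function by its mean on a circle -/
theorem pois_norm {V : Type*} [NormedAddCommGroup V] [NormedSpace ℂ V] [CompleteSpace V] {f : ℂ → V} {c w : ℂ} {R : ℝ} (hR : 0 < R)
    (hf : DiffContOnCl ℂ f (ball c R)) (hw : ‖w - c‖ ≤ R / 2) : ‖f w‖ ≤ 3 * Real.circleAverage (fun z => ‖f z‖) c R := by
  have hwb : w ∈ ball c R := by
    rw [mem_ball_iff_norm]
    linarith
  have hRabs : |R| = R := abs_of_pos hR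
  have h1 := hf.circleAverage_re_herglotzRieszKernel_smul' (c := c) (R := R) hwb
  have hfc : ContinuousOn f (sphere c R) := hf.continuousOn.mono (by rw [closure_ball c hR.ne']; exact sphere_subset_closedBall)
  have hpk := pk_cont hwb
  have h2 : ‖f w‖ ≤ Real.circleAverage (fun z => ‖pk c w z • f z‖) c R := by
    rw [← h1]
    unfold Real.circleAverage
    rw [norm_smul, Real.norm_of_nonneg (by positivity), smul_eq_mul]
    refine mul_le_mul_of_nonneg_left ?_ (by positivity)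
    exact intervalIntegral.norm_integral_le_integral_norm (by positivity)
  refine h2.trans ?_
  have h3 : Real.circleAverage (fun z => ‖pk c w z • f z‖) c R ≤ Real.circleAverage (fun z => (3 : ℝ) • ‖f z‖) c R := by
    refine Real.circleAverage_mono ?_ ?_ ?_
    · refine ContinuousOn.circleIntegrable' ?_
      rw [hRabs]
      exact (hpk.smul hfc).norm
    · refine ContinuousOn.circleIntegrable' ?_
      rw [hRabs]
      exact hfc.norm.const_smul (3 : ℝ)
    · intro z hz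
      rw [hRabs] at hz
      have h4 := re_herglotzRieszKernel_le hz hwb
      have h5 : pk c w z ≤ 3 := by
        refine le_trans h4 ?_
        rw [div_le_iff₀ (by linarith)]
        linarith
      rw [norm_smul, Real.norm_of_nonneg (pk_pos hwb hz).le, smul_eq_mul]
      exact mul_le_mul_of_nonneg_right h5 (norm_nonneg _)
  refine h3.trans_eq ?_
  exact Real.circleAverage_fun_smul (a := (3 : ℝ)) (f := fun z => ‖f z‖)

variable {N k : ℕ} {X : Set (EN N)} {Λ : AddSubgroup (Vd (k + 1))} {u : EN N → Vd (k + 1)} {D : Set (Vd (k + 1))} {Q : EN N → ℂ} {d : ℕ}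
  {p : EN N → EN N → ℝ} {m : ℕ} {C C₁ : ℝ}

theorem isOpen_half (T : ℝ) : IsOpen {w : ℂ | w.re < T} := isOpen_lt Complex.continuous_re continuous_const

theorem convex_half (T : ℝ) : Convex ℝ {w : ℂ | w.re < T} := by
  have := (convex_Iio T).linear_preimage Complex.reLm
  exact this

theorem ball_sub_half {w : ℂ} {t : ℝ} (ht : t ≤ -w.re) : ball w t ⊆ {w : ℂ | w.re < 0} := by
  intro z hz
  have h1 : |(z - w).re| ≤ ‖z - w‖ := Complex.abs_re_le_norm _
  rw [mem_ball_iff_norm] at hz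
  rw [Complex.sub_re] at h1
  have h2 := (abs_le.1 h1).2
  show z.re < 0
  linarith

theorem per_int' {α : Type*} {F : ℂ → α} (hper : ∀ w, F (w + 2 * π * Complex.I) = F w) (k : ℤ) (w : ℂ) : F (w + k * (2 * π * Complex.I)) = F w := by
  have hn : ∀ (n : ℕ) (w : ℂ), F (w + n * (2 * π * Complex.I)) = F w := by
    intro n
    induction n with
    | zero => intro w; simp
    | succ n ih =>
      intro w
      have h1 : w + ((n + 1 : ℕ) : ℂ) * (2 * π * Complex.I) = (w + n * (2 * π * Complex.I)) + 2 * π * Complex.I := by push_cast; ring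
      rw [h1, hper, ih]
  rcases Int.eq_nat_or_neg k with ⟨n, hk | hk⟩
  · rw [hk]
    push_cast
    exact hn n w
  · have h1 := hn n (w + k * (2 * π * Complex.I))
    rw [hk] at h1 ⊢
    have h2 : w + ((-(n : ℤ) : ℤ) : ℂ) * (2 * π * Complex.I) + (n : ℂ) * (2 * π * Complex.I) = w := by push_cast; ring
    rw [h2] at h1
    exact h1.symm

theorem per_deriv {V : Type*} [NormedAddCommGroup V] [NormedSpace ℂ V] {F : ℂ → V} (hper : ∀ w, F (w + 2 * π * Complex.I) = F w) (w : ℂ) :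
    deriv F (w + 2 * π * Complex.I) = deriv F w := by
  have h1 : (fun z => F (z + 2 * π * Complex.I)) = F := funext hper
  have h2 := deriv_comp_add_const F (2 * π * Complex.I) w
  rw [h1] at h2
  exact h2.symm

theorem growth (hX : IsCone X) (hps : PS X Λ u D p m C) (hqd : QD X Λ u D Q d) (hC₁ : 0 ≤ C₁) (hroot : RootLog X Λ u Q d p m C₁)
    {F : ℂ → EN N} {h : ℂ → Vd (k + 1)} (hc : Cv X Λ u {w | w.re < 0} F h) (hper : ∀ w, F (w + 2 * π * Complex.I) = F w)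
    (hok : ∃ w ∈ {w : ℂ | w.re < 0}, Ok Q p F w) :
    ∃ (T K : ℝ) (q : ℕ), T < 0 ∧ 0 ≤ K ∧ ∀ w : ℂ, w.re < T → ‖deriv h w‖ ≤ K * (1 + |w.re|) ^ q := by
  obtain ⟨C', hC'0, hC'⟩ := hl_disc hX hps hqd hC₁ hroot
  have hU := isOpen_half 0
  have hisol := ok_isol hX hps hqd hU hc (convex_half 0).isPreconnected hok
  obtain ⟨E, hE⟩ : ∃ E : ℂ → ℝ, E = fun w => 1 + Lq Q d (F w) + max (-Real.log (pf p F w)) 0 := ⟨_, rfl⟩
  obtain ⟨G, hG⟩ : ∃ G : ℂ → Prop, G = fun w => w.re < 0 ∧ Ok Q p F w := ⟨_, rfl⟩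
  obtain ⟨A, hA⟩ : ∃ A : ℝ, A = 1 + 16 * π * C' + m := ⟨_, rfl⟩
  have hA1 : 1 ≤ A := by
    rw [hA]
    have h1 : 0 ≤ 16 * π * C' := by positivity
    have h2 : (0 : ℝ) ≤ m := Nat.cast_nonneg m
    linarith
  have hGE : ∀ w, G w → 1 ≤ E w := by
    intro w hw
    rw [hG] at hw
    rw [hE]
    have h1 := Lq_nonneg hX hqd (hc.mem w hw.1) hw.2.1
    have h2 := le_max_right (-Real.log (pf p F w)) 0
    simp only
    linarith
  have hperG : ∀ (w : ℂ) (k : ℤ), G w → G (w + k * (2 * π * Complex.I)) ∧ E (w + k * (2 * π * Complex.I)) = E w := by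
    intro w k hw
    have e1 : F (w + k * (2 * π * Complex.I)) = F w := per_int' hper k w
    have e2 : deriv F (w + k * (2 * π * Complex.I)) = deriv F w := per_int' (per_deriv hper) k w
    have e3 : pf p F (w + k * (2 * π * Complex.I)) = pf p F w := by
      unfold pf
      rw [e1, e2]
    rw [hG] at hw ⊢
    rw [hE]
    refine ⟨⟨?_, ?_, ?_⟩, ?_⟩
    · have : (w + k * (2 * π * Complex.I)).re = w.re := by simp
      rw [this]
      exact hw.1
    · rw [e1]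
      exact hw.2.1
    · rw [e3]
      exact hw.2.2
    · simp only
      rw [e1, e3]
  have hstep : ∀ w, G w → 1 ≤ -w.re → ∀ w' : ℂ, ‖w' - w‖ ≤ -w.re / 8 →
      ∃ w₁ ∈ ball w' (-w.re / 32), G w₁ ∧ E w₁ ≤ A * (E w + Real.log (-w.re)) := by
    intro w hGw ht w' hw'
    have hGw' := hGw
    rw [hG] at hGw'
    obtain ⟨hre, hokw⟩ := hGw'
    obtain ⟨t, htd⟩ : ∃ t : ℝ, t = -w.re := ⟨_, rfl⟩
    rw [← htd] at ht hw' ⊢
    have ht0 : 0 < t := by linarith
    have hsub : ball w t ⊆ {w : ℂ | w.re < 0} := ball_sub_half htd.le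
    have hcw : Cv X Λ u (ball w t) F h := hc.mono hsub
    have hcb : ∀ ρ : ℝ, 0 < ρ → ρ ≤ t / 8 → closedBall w ρ ⊆ ball w t := fun ρ _ hρ => closedBall_subset_ball (by linarith)
    have hae : ∀ ρ : ℝ, 0 < ρ → ρ ≤ t / 8 → ∀ᵐ θ : ℝ, Ok Q p F (circleMap w ρ θ) := fun ρ hρ hρ8 =>
      ae_circle hisol hρ (sphere_subset_closedBall.trans ((hcb ρ hρ hρ8).trans hsub))
    have i1 : ∀ ρ : ℝ, 0 < ρ → ρ ≤ t / 8 → CircleIntegrable (fun z => max (Lq Q d (F z)) 0) w ρ := fun ρ hρ hρ8 =>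
      ci_max (Lq_jensen hX hqd isOpen_ball hcw hρ (hcb ρ hρ hρ8) hokw.1).1
    have i2 : ∀ ρ : ℝ, 0 < ρ → ρ ≤ t / 8 → CircleIntegrable (fun z => max (-Real.log (t ^ m * pf p F z)) 0) w ρ := by
      intro ρ hρ hρ8
      refine ci_max ?_
      have h1 := (hps.jensen _ F h isOpen_ball hcw w ρ hρ (hcb ρ hρ hρ8) hokw.2).1
      have h2 : CircleIntegrable (fun z => -(Real.log (t ^ m) + Real.log (pf p F z))) w ρ := ((circleIntegrable_const _ _ _).add h1).neg
      refine ci_congr_ae h2 ?_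
      filter_upwards [hae ρ hρ hρ8] with θ hθ
      rw [Real.log_mul (by positivity) hθ.2.ne']
    obtain ⟨ρ, hρ, hρ8, z, hz, hzρ, hokz, hfz⟩ := ball_point
      (f := fun _ z => max (Lq Q d (F z)) 0 + max (-Real.log (t ^ m * pf p F z)) 0) (P := Ok Q p F) ht0 hw'
      (fun ρ hρ hρ8 => (i1 ρ hρ hρ8).add (i2 ρ hρ hρ8)) (fun z => add_nonneg (le_max_right _ _) (le_max_right _ _)) hae
    have hzre : z.re < 0 := by
      apply hsub
      rw [mem_ball_iff_norm, hzρ]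
      linarith
    refine ⟨z, hz, ?_, ?_⟩
    · rw [hG]
      exact ⟨hzre, hokz⟩
    · obtain ⟨-, a2, a3⟩ := hC' w t F h ht0 hcw hokw ρ hρ (by linarith)
      have hsum := Real.circleAverage_fun_add (i1 ρ hρ hρ8) (i2 ρ hρ hρ8)
      have hlogt : 0 ≤ Real.log t := Real.log_nonneg ht
      have hm0 : (0 : ℝ) ≤ m := Nat.cast_nonneg m
      have hlm : 0 ≤ m * Real.log t := by positivity
      have e1 : ∀ z, Ok Q p F z → -Real.log (t ^ m * pf p F z) = -Real.log (pf p F z) - m * Real.log t := by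
        intro z hz
        rw [Real.log_mul (by positivity) hz.2.ne', Real.log_pow]
        ring
      have e2 : max (-Real.log (t ^ m * pf p F w)) 0 ≤ max (-Real.log (pf p F w)) 0 := by
        rw [e1 w hokw]
        exact max_le_max (by linarith) le_rfl
      have e3 : max (-Real.log (pf p F z)) 0 ≤ max (-Real.log (t ^ m * pf p F z)) 0 + m * Real.log t := by
        rw [e1 z hokz]
        refine max_le ?_ ?_
        · have := le_max_left (-Real.log (pf p F z) - m * Real.log t) 0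
          linarith
        · have := le_max_right (-Real.log (pf p F z) - m * Real.log t) 0
          linarith
      have e4 : C' * (1 + Lq Q d (F w) + max (-Real.log (t ^ m * pf p F w)) 0) ≤ C' * E w := by
        apply mul_le_mul_of_nonneg_left _ hC'0.le
        rw [hE]
        simp only
        linarith
      rw [hsum] at hfz
      have hEw := hGE w hGw
      have e5 : max (Lq Q d (F z)) 0 + max (-Real.log (t ^ m * pf p F z)) 0 ≤ 8 * π * (2 * (C' * E w)) := by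
        refine hfz.trans (mul_le_mul_of_nonneg_left ?_ (by positivity))
        linarith
      have e6 := le_max_left (Lq Q d (F z)) 0
      have e7 : E z ≤ 1 + 16 * π * C' * E w + m * Real.log t := by
        rw [hE] at e5 ⊢
        simp only at e5 ⊢
        linarith
      have e8 : 0 ≤ 16 * π * C' := by positivity
      rw [hA]
      nlinarith [mul_nonneg e8 hlogt, mul_nonneg hm0 (by linarith : (0 : ℝ) ≤ E w)]
  -- a starting point
  obtain ⟨w₀, hw₀G, hw₀⟩ : ∃ w₀, G w₀ ∧ 116 ≤ -w₀.re := by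
    have h1 : ((-200 : ℝ) : ℂ) ∈ {w : ℂ | w.re < 0} := by
      show ((-200 : ℝ) : ℂ).re < 0
      rw [Complex.ofReal_re]
      norm_num
    have h2 := hisol _ h1
    have h3 : ∀ᶠ w in 𝓝[≠] ((-200 : ℝ) : ℂ), w ∈ ball ((-200 : ℝ) : ℂ) 1 := mem_nhdsWithin_of_mem_nhds (ball_mem_nhds _ one_pos)
    obtain ⟨w₀, h4, h5⟩ := (h2.and h3).exists
    rw [mem_ball_iff_norm] at h5
    have h6 : |(w₀ - ((-200 : ℝ) : ℂ)).re| ≤ ‖w₀ - ((-200 : ℝ) : ℂ)‖ := Complex.abs_re_le_norm _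
    rw [Complex.sub_re, Complex.ofReal_re] at h6
    have h7 := (abs_le.1 h6).2
    refine ⟨w₀, ?_, by linarith⟩
    rw [hG]
    exact ⟨by linarith, h4⟩
  obtain ⟨q, K, hK0, hK⟩ := chain (t₀ := 1) hA1 hGE hperG hstep hw₀G (by linarith) hw₀
  refine ⟨w₀.re, 3 * (1 + C' * K), q, by linarith, by positivity, ?_⟩
  intro w hw
  obtain ⟨w₁, hG₁, hd, ht₁, -, hE₁⟩ := hK w (by linarith)
  rw [hG] at hG₁
  obtain ⟨t₁, ht₁d⟩ : ∃ t₁ : ℝ, t₁ = -w₁.re := ⟨_, rfl⟩
  rw [← ht₁d] at hd ht₁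
  have ht₁0 : 0 < t₁ := by linarith
  have hc₁ : Cv X Λ u (ball w₁ t₁) F h := hc.mono (ball_sub_half ht₁d.le)
  obtain ⟨a1, -, -⟩ := hC' w₁ t₁ F h ht₁0 hc₁ hG₁.2 (t₁ / 4) (by positivity) (by linarith)
  have hlogt : 0 ≤ Real.log t₁ := Real.log_nonneg ht₁
  have hm0 : (0 : ℝ) ≤ m := Nat.cast_nonneg m
  have hlm : 0 ≤ m * Real.log t₁ := by positivity
  have e2 : max (-Real.log (t₁ ^ m * pf p F w₁)) 0 ≤ max (-Real.log (pf p F w₁)) 0 := by
    rw [Real.log_mul (by positivity) hG₁.2.2.ne', Real.log_pow]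
    exact max_le_max (by linarith) le_rfl
  obtain ⟨av, hav⟩ : ∃ av : ℝ, av = Real.circleAverage (fun z => ‖deriv h z‖ ^ 2) w₁ (t₁ / 4) := ⟨_, rfl⟩
  have hav0 : 0 ≤ av := by
    rw [hav]
    exact Real.circleAverage_nonneg_of_nonneg fun z _ => by positivity
  have e3 : av ≤ C' * (K * (-w.re) ^ q) := by
    rw [← hav] at a1
    have h1 : av ≤ t₁ ^ 2 * av := le_mul_of_one_le_left hav0 (one_le_pow₀ ht₁)
    refine h1.trans (a1.trans (mul_le_mul_of_nonneg_left ?_ hC'0.le))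
    refine le_trans ?_ hE₁
    rw [hE]
    simp only
    linarith
  have hdiff : DifferentiableOn ℂ (deriv h) (ball w₁ t₁) := hc₁.h_diff.deriv isOpen_ball
  have hcl : closedBall w₁ (t₁ / 4) ⊆ ball w₁ t₁ := closedBall_subset_ball (by linarith)
  have hdc : DiffContOnCl ℂ (deriv h) (ball w₁ (t₁ / 4)) := by
    refine (hdiff.mono ?_).diffContOnCl
    rw [closure_ball w₁ (by positivity)]
    exact hcl
  have e4 := pois_norm (by positivity : (0 : ℝ) < t₁ / 4) hdc (w := w) (by linarith)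
  have hcont : ContinuousOn (deriv h) (sphere w₁ |t₁ / 4|) := by
    rw [abs_of_pos (by positivity : (0 : ℝ) < t₁ / 4)]
    exact hdiff.continuousOn.mono (sphere_subset_closedBall.trans hcl)
  have j1 : CircleIntegrable (fun z => ‖deriv h z‖) w₁ (t₁ / 4) := ContinuousOn.circleIntegrable' hcont.norm
  have j2 : CircleIntegrable (fun z => ‖deriv h z‖ ^ 2) w₁ (t₁ / 4) := ContinuousOn.circleIntegrable' (hcont.norm.pow 2)
  have e5 : Real.circleAverage (fun z => ‖deriv h z‖) w₁ (t₁ / 4) ≤ 1 + av := by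
    have h1 : Real.circleAverage (fun z => ‖deriv h z‖) w₁ (t₁ / 4) ≤ Real.circleAverage (fun z => (1 : ℝ) + ‖deriv h z‖ ^ 2) w₁ (t₁ / 4) := by
      refine Real.circleAverage_mono j1 ((circleIntegrable_const _ _ _).add j2) ?_
      intro z _
      nlinarith [sq_nonneg (‖deriv h z‖ - 1)]
    have h2 := Real.circleAverage_fun_add (circleIntegrable_const (1 : ℝ) w₁ (t₁ / 4)) j2
    rw [Real.circleAverage_const, ← hav] at h2
    linarith
  have habs : |w.re| = -w.re := abs_of_neg (by linarith)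
  have h1 : (1 : ℝ) ≤ (1 + |w.re|) ^ q := one_le_pow₀ (by have := abs_nonneg w.re; linarith)
  have h2 : (-w.re) ^ q ≤ (1 + |w.re|) ^ q := by
    rw [habs]
    exact pow_le_pow_left₀ (by linarith) (by linarith) q
  have h3 : C' * (K * (-w.re) ^ q) ≤ C' * K * (1 + |w.re|) ^ q := by
    rw [← mul_assoc]
    exact mul_le_mul_of_nonneg_left h2 (by positivity)
  linarith

end Pool.Agent.H56.G3

end
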