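import Pool.Agent.H94.G4T.G3.P.Ahl
import Pool.Agent.H94.G4T.M116
import Pool.Agent.H94.G4T.M117
import Pool.Agent.H94.G4T.M118
import Pool.Agent.H94.G4T.M120
import Pool.Agent.H94.G4T.M36
import Pool.Agent.H94.G4T.M47
import Pool.Agent.H94.G4T.M63
import Pool.Agent.H94.G4T.M73
import Pool.Agent.H94.G4T.M79
import Pool.Agent.H94.G4T.M80

/-! The parts of this file: AD.F.Rem, H56.G3.Pc4, H56.G3.Pc5, H56.G3.Pc6, H56.G3.Pc7, G3.F.Pic. -/

section

/-!
# AD F Rem: removable singularities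

`removable` (P4).  Let `c₀ = κ`.  For `0 < r < s₁` `annulus_approx` gives `g` holomorphic on `ℂ \ {0}` and `b` with `|Re g + b log ‖z‖ - c₀ log ‖F‖| ≤ 1` on `‖z‖ = r` and `‖z‖ = r'` (`s₂ < r' < r₁`); `ω = Re g + b log ‖z‖`.
(i) `‖F‖^c₀ e^(-ω) ≤ e` on the annulus (`sub_le`; `Sub.norm_rpow`: exponent `c₀ fs²/2 ≥ 0`; `e^(-ω) = ‖e^(-g)‖ ‖z‖^(-b)`, locally the norm of a holomorphic function).
(ii) `R ‖F‖^(-c₀) e^ω ≤ e` on the annulus (`R` has the exponent `κ fs²`, `‖F‖^(-c₀)` has `-c₀ fs²/2`: sum `≥ 0`).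
On the circles `‖z‖ = s₁`, `s₂` `R` is bounded below, so `ω` is bounded there by a constant `A` which does not depend on `r`; the mean of `Re g` over `‖z‖ = s` does not depend on `s`
(`Complex.circleIntegral_sub_center_inv_smul_eq_of_differentiable_on_annulus_off_countable`), so `|b| log (s₂/s₁) ≤ 2 A`: `|b| ≤ B`.  Take `m ≥ B/c₀` and `θ z = z^m exp (-g z/c₀)`:
`‖θ F‖ ≤ e^(1/c₀) ‖z‖^(m + b/c₀) ≤ e^(1/c₀)` on `r ≤ ‖z‖ ≤ r'`, and at `z₁ = s₁`: `‖θ F‖ ≥ (R(z₁)/e)^(1/c₀) s₁^(m + B/c₀)`.  `H36.BP.puncture_limit`.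

`removable_of_small` (P1).  By the hypothesis `diam {pr (F z) | ‖z‖ = s} → 0` for `s → 0`.  `pr '' sphere` is compact: choose `s_k → 0` with `pr (F z) → pr p` uniformly on `‖z‖ = s_k`, `‖p‖ = 1`.  `h = F/⟨p, F⟩` is holomorphic where
`pd (F z) p < 1`.  Suppose that for arbitrarily small `s` the circle `‖z‖ = s` is not mapped into `pd (·, p) < 1/4`.  For large `k` let `s' < s_k` be the largest such radius.  On the closed annulus `s' ≤ ‖z‖ ≤ s_k`
`pd ≤ 1/4 + small`, so the means of `h` over `‖z‖ = s'` and `‖z‖ = s_k` are equal.  But `h` is almost constant on both circles, near `p` on the second and at distance `≥ c` from `p` on the first: contradiction.  So `h` is bounded near `0`,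
Riemann: `Q` = the extension of `h` (`⟨p, h⟩ = 1`, so `Q 0 ≠ 0`).
-/

set_option autoImplicit false

open Topology Filter Metric

namespace Pool.Agent.AD.F

open Pool.Agent.H36.BP (EN fs wd Sub Curve)
open Pool.Agent.H14.PP (IsCone Tan CurveAt)
open Pool.Agent.H22.W (PseudoLength)
open Pool.Agent.H62.EF (pr Lat)

variable {N : ℕ} {X : Set (EN N)}

/-- `exp (t (Re g + b log|z|))` is locally the absolute value of a holomorphic function -/
private theorem rem_sub_exp {g : ℂ → ℂ} (hg : DifferentiableOn ℂ g {0}ᶜ) (b t : ℝ) {z₀ : ℂ} (hz₀ : z₀ ≠ 0) :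
    Sub (fun z => Real.exp (t * ((g z).re + b * Real.log ‖z‖))) z₀ 0 := by
  have hga : AnalyticAt ℂ g z₀ := hg.analyticAt (isOpen_compl_singleton.mem_nhds hz₀)
  set k : ℂ → ℂ := fun z => Complex.exp ((t : ℂ) * (g z + (b : ℂ) * (Complex.log (z / z₀) + (Real.log ‖z₀‖ : ℂ)))) with hk
  have hlog : AnalyticAt ℂ (fun z : ℂ => Complex.log (z / z₀)) z₀ := by
    have h1 : AnalyticAt ℂ (fun z : ℂ => z / z₀) z₀ := by fun_prop
    refine AnalyticAt.clog h1 ?_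
    simp [div_self hz₀]
  have hka : AnalyticAt ℂ k z₀ := by
    refine AnalyticAt.cexp ?_
    exact analyticAt_const.mul (hga.add (analyticAt_const.mul (hlog.add analyticAt_const)))
  have hk0 : k z₀ ≠ 0 := Complex.exp_ne_zero _
  refine (Sub.of_holo hka hk0).congr ?_
  filter_upwards [isOpen_compl_singleton.mem_nhds hz₀] with z hz
  have hz' : z ≠ 0 := hz
  rw [hk]
  simp only
  rw [Complex.norm_exp]
  congr 1
  have h1 : (Complex.log (z / z₀)).re = Real.log ‖z‖ - Real.log ‖z₀‖ := by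
    rw [Complex.log_re, norm_div, Real.log_div (norm_ne_zero_iff.mpr hz') (norm_ne_zero_iff.mpr hz₀)]
  rw [Complex.re_ofReal_mul, Complex.add_re, Complex.re_ofReal_mul, Complex.add_re, h1, Complex.ofReal_re]
  ring

/-- the averages over two circles are equal -/
private theorem rem_avg {E : Type*} [NormedAddCommGroup E] [NormedSpace ℂ E] [CompleteSpace E] {f : ℂ → E} {r R : ℝ}
    (h0 : 0 < r) (hle : r ≤ R) (hd : ∀ z : ℂ, r ≤ ‖z‖ → ‖z‖ ≤ R → DifferentiableAt ℂ f z) :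
    Real.circleAverage f 0 R = Real.circleAverage f 0 r := by
  rw [Real.circleAverage_eq_circleIntegral h0.ne', Real.circleAverage_eq_circleIntegral (h0.trans_le hle).ne']
  congr 1
  refine Complex.circleIntegral_sub_center_inv_smul_eq_of_differentiable_on_annulus_off_countable h0 hle
    (s := ∅) Set.countable_empty ?_ ?_
  · intro z hz
    have h1 : ‖z‖ ≤ R := by simpa using hz.1
    have h2 : r ≤ ‖z‖ := by simpa using hz.2
    exact (hd z h2 h1).continuousAt.continuousWithinAt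
  · intro z hz
    have h1 : ‖z‖ < R := by simpa using hz.1.1
    have h2 : r < ‖z‖ := by simpa using hz.1.2
    exact hd z h2.le h1.le

/-- the average is near a point if the values are -/
private theorem rem_avg_le {E : Type*} [NormedAddCommGroup E] [NormedSpace ℝ E] [CompleteSpace E] {f : ℂ → E} {c : E} {R A : ℝ}
    (hR : 0 < R) (hf : ContinuousOn f (sphere 0 R)) (h : ∀ z : ℂ, ‖z‖ = R → ‖f z - c‖ ≤ A) :
    ‖Real.circleAverage f 0 R - c‖ ≤ A := by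
  have hci : CircleIntegrable f 0 R := hf.circleIntegrable hR.le
  have hcc : CircleIntegrable (fun _ : ℂ => c) 0 R := circleIntegrable_const c 0 R
  have h1 : Real.circleAverage (fun z => f z - c) 0 R = Real.circleAverage f 0 R - c := by
    rw [Real.circleAverage_fun_sub hci hcc, Real.circleAverage_const]
  rw [← h1, Real.circleAverage_def, norm_smul, norm_inv, Real.norm_of_nonneg (by positivity)]
  have h2 : ‖∫ θ in (0 : ℝ)..2 * Real.pi, (f (circleMap 0 R θ) - c)‖ ≤ A * |2 * Real.pi - 0| := by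
    refine intervalIntegral.norm_integral_le_of_norm_le_const fun θ _ => h _ ?_
    rw [norm_circleMap_zero, abs_of_pos hR]
  rw [sub_zero, abs_of_pos (by positivity)] at h2
  rw [inv_mul_le_iff₀ (by positivity)]
  linarith

/-- comparison on an annulus -/
private theorem rem_bounds {F : ℂ → EN N} {R : ℂ → ℝ} {κ r r' r₁ : ℝ} (hκ : 0 < κ) (hr0 : 0 < r) (hrr : r < r') (hr' : r' < r₁) (hr1 : r₁ ≤ 1)
    (hF : DifferentiableOn ℂ F (ball 0 1 \ {0})) (hF0 : ∀ z ∈ ball (0 : ℂ) 1 \ {0}, F z ≠ 0) (hR : ContinuousOn R (ball 0 r₁ \ {0}))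
    (h0 : ∀ z ∈ ball (0 : ℂ) r₁ \ {0}, 0 ≤ R z) (h1 : ∀ z ∈ ball (0 : ℂ) r₁ \ {0}, R z ≤ 1)
    (hs : ∀ z ∈ ball (0 : ℂ) r₁ \ {0}, 0 < R z → Sub R z (κ * fs (F z) (deriv F z) ^ 2)) :
    ∃ (g : ℂ → ℂ) (b : ℝ), DifferentiableOn ℂ g {0}ᶜ ∧ ∀ z : ℂ, r ≤ ‖z‖ → ‖z‖ ≤ r' →
      κ * Real.log ‖F z‖ ≤ 1 + ((g z).re + b * Real.log ‖z‖) ∧
      R z * Real.exp ((g z).re + b * Real.log ‖z‖ - κ * Real.log ‖F z‖) ≤ Real.exp 1 := by
  have hopen : IsOpen (ball (0 : ℂ) 1 \ {0}) := isOpen_ball.sdiff isClosed_singleton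
  obtain ⟨S, hS⟩ : ∃ S : Set ℂ, S = {z | r ≤ ‖z‖ ∧ ‖z‖ ≤ r'} := ⟨_, rfl⟩
  obtain ⟨U, hU⟩ : ∃ U : Set ℂ, U = {z | r < ‖z‖ ∧ ‖z‖ < r'} := ⟨_, rfl⟩
  have hSc : IsCompact S := by
    rw [hS]
    refine (isCompact_closedBall (0 : ℂ) r').of_isClosed_subset ?_ ?_
    · exact (isClosed_le continuous_const continuous_norm).inter (isClosed_le continuous_norm continuous_const)
    · intro z hz
      simpa using hz.2
  have hUo : IsOpen U := by
    rw [hU]
    exact (isOpen_lt continuous_const continuous_norm).inter (isOpen_lt continuous_norm continuous_const)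
  have hUS : U ⊆ S := by
    rw [hU, hS]
    exact fun z hz => ⟨hz.1.le, hz.2.le⟩
  have hSsub1 : S ⊆ ball (0 : ℂ) r₁ \ {0} := by
    rw [hS]
    intro z hz
    refine ⟨?_, ?_⟩
    · rw [mem_ball_zero_iff]
      exact lt_of_le_of_lt hz.2 hr'
    · rintro rfl
      have := hz.1
      rw [norm_zero] at this
      linarith
  have hsub1 : ball (0 : ℂ) r₁ \ {0} ⊆ ball (0 : ℂ) 1 \ {0} := fun z hz => ⟨ball_subset_ball hr1 hz.1, hz.2⟩
  have hSsub : S ⊆ ball (0 : ℂ) 1 \ {0} := hSsub1.trans hsub1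
  have hSsph : S \ U ⊆ sphere (0 : ℂ) r ∪ sphere (0 : ℂ) r' := by
    rw [hS, hU]
    intro z hz
    have h1 := hz.1
    have h2 : ¬ (r < ‖z‖ ∧ ‖z‖ < r') := hz.2
    rcases h1.1.lt_or_eq with h | h
    · right
      rw [mem_sphere_zero_iff_norm]
      by_contra hne
      exact h2 ⟨h, lt_of_le_of_ne h1.2 hne⟩
    · left
      rw [mem_sphere_zero_iff_norm, h]
  have hsphS : sphere (0 : ℂ) r ∪ sphere (0 : ℂ) r' ⊆ S := by
    rw [hS]
    rintro z (hz | hz)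
    · rw [mem_sphere_zero_iff_norm] at hz
      exact ⟨hz.ge, by rw [hz]; exact hrr.le⟩
    · rw [mem_sphere_zero_iff_norm] at hz
      exact ⟨by rw [hz]; exact hrr.le, hz.le⟩
  have hFn : ∀ z ∈ ball (0 : ℂ) 1 \ {0}, 0 < ‖F z‖ := fun z hz => norm_pos_iff.mpr (hF0 z hz)
  have hFc : ContinuousOn F S := hF.continuousOn.mono hSsub
  have hFa : ∀ z ∈ ball (0 : ℂ) 1 \ {0}, AnalyticAt ℂ F z := fun z hz => hF.analyticAt (hopen.mem_nhds hz)
  obtain ⟨g, b, hg, hgb⟩ := Pool.Agent.H36.BP.annulus_approx hr0 hrr (fun z => κ * Real.log ‖F z‖)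
    (by
      refine ContinuousOn.mul continuousOn_const (ContinuousOn.log (hFc.mono hsphS).norm ?_)
      intro z hz
      exact (hFn z (hSsub (hsphS hz))).ne') (ε := 1) one_pos
  obtain ⟨w, hw⟩ : ∃ w : ℂ → ℝ, w = fun z => (g z).re + b * Real.log ‖z‖ := ⟨_, rfl⟩
  have hwz : ∀ z, w z = (g z).re + b * Real.log ‖z‖ := fun z => by rw [hw]
  have hwc : ContinuousOn w S := by
    have h1 : ContinuousOn g S := hg.continuousOn.mono fun z hz => (hSsub hz).2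
    rw [hw]
    refine (Complex.continuous_re.comp_continuousOn h1).add (continuousOn_const.mul
      (ContinuousOn.log continuous_norm.continuousOn ?_))
    intro z hz
    exact norm_ne_zero_iff.mpr (hSsub hz).2
  have hlogF : ∀ (a : ℝ), ∀ z ∈ ball (0 : ℂ) 1 \ {0}, ‖F z‖ ^ a = Real.exp (a * Real.log ‖F z‖) := by
    intro a z hz
    rw [Real.rpow_def_of_pos (hFn z hz), mul_comm]
  have hrc : ∀ a : ℝ, ContinuousOn (fun z => ‖F z‖ ^ a) S := by
    intro a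
    refine ContinuousOn.rpow_const hFc.norm ?_
    intro z hz
    exact Or.inl (hFn z (hSsub hz)).ne'
  refine ⟨g, b, hg, ?_⟩
  -- (i)
  have hA : ∀ z ∈ S, ‖F z‖ ^ κ * Real.exp (-1 * ((g z).re + b * Real.log ‖z‖)) ≤ Real.exp 1 := by
    refine sub_le hSc hUo hUS ?_ ?_ (Real.exp_nonneg _) ?_
    · refine (hrc κ).mul (Real.continuous_exp.comp_continuousOn ?_)
      have h2 : ContinuousOn (fun z => -1 * w z) S := continuousOn_const.mul hwc
      refine h2.congr fun z hz => ?_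
      show _ = -1 * w z
      rw [hwz]
    · intro z hz _
      have hz' := hSsub (hUS hz)
      have h2 := Sub.norm_rpow (hFa z hz') (hF0 z hz') κ
      have h3 := rem_sub_exp hg b (-1) (z₀ := z) hz'.2
      refine (h2.mul h3).anti ?_
      rw [add_zero]
      positivity
    · intro z hz
      rw [hlogF κ z (hSsub hz.1), ← Real.exp_add, Real.exp_le_exp]
      have := (abs_le.mp (hgb z (hSsph hz))).1
      linarith
  -- (ii)
  have hB : ∀ z ∈ S, R z * ‖F z‖ ^ (-κ) * Real.exp (1 * ((g z).re + b * Real.log ‖z‖)) ≤ Real.exp 1 := by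
    refine sub_le hSc hUo hUS ?_ ?_ (Real.exp_nonneg _) ?_
    · refine ((hR.mono hSsub1).mul (hrc (-κ))).mul (Real.continuous_exp.comp_continuousOn ?_)
      have h2 : ContinuousOn (fun z => 1 * w z) S := continuousOn_const.mul hwc
      refine h2.congr fun z hz => ?_
      show _ = 1 * w z
      rw [hwz]
    · intro z hz hpos
      have hz' := hSsub (hUS hz)
      have hRp : 0 < R z := by
        rcases (h0 z (hSsub1 (hUS hz))).lt_or_eq with h | h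
        · exact h
        · rw [← h, zero_mul, zero_mul] at hpos
          exact absurd hpos (lt_irrefl _)
      have h2 := Sub.norm_rpow (hFa z hz') (hF0 z hz') (-κ)
      have h3 := rem_sub_exp hg b 1 (z₀ := z) hz'.2
      have h4 := hs z (hSsub1 (hUS hz)) hRp
      refine ((h4.mul h2).mul h3).anti ?_
      have : 0 ≤ κ * fs (F z) (deriv F z) ^ 2 := by positivity
      linarith
    · intro z hz
      have h2 := (abs_le.mp (hgb z (hSsph hz))).2
      have h3 : R z ≤ 1 := h1 z (hSsub1 hz.1)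
      rw [hlogF (-κ) z (hSsub hz.1), mul_assoc, ← Real.exp_add]
      calc R z * Real.exp (-κ * Real.log ‖F z‖ + 1 * ((g z).re + b * Real.log ‖z‖))
          ≤ 1 * Real.exp (-κ * Real.log ‖F z‖ + 1 * ((g z).re + b * Real.log ‖z‖)) :=
            mul_le_mul_of_nonneg_right h3 (Real.exp_nonneg _)
        _ ≤ Real.exp 1 := by
            rw [one_mul, Real.exp_le_exp]
            linarith
  intro z hz1 hz2
  have hzS : z ∈ S := by
    rw [hS]
    exact ⟨hz1, hz2⟩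
  have hz' := hSsub hzS
  constructor
  · have h2 := hA z hzS
    rw [hlogF κ z hz', ← Real.exp_add, Real.exp_le_exp] at h2
    linarith
  · have h2 := hB z hzS
    rw [hlogF (-κ) z hz', mul_assoc, ← Real.exp_add] at h2
    have h3 : (g z).re + b * Real.log ‖z‖ - κ * Real.log ‖F z‖ =
        -κ * Real.log ‖F z‖ + 1 * ((g z).re + b * Real.log ‖z‖) := by ring
    rw [h3]
    exact h2

/-- **(P4)** -/
theorem removable {F : ℂ → EN N} {R : ℂ → ℝ} {κ r₁ s₁ s₂ : ℝ} (hκ : 0 < κ) (hs₁ : 0 < s₁) (hs₂ : s₁ < s₂) (hr₁ : s₂ < r₁) (hr : r₁ ≤ 1)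
    (hF : DifferentiableOn ℂ F (ball 0 1 \ {0})) (hF0 : ∀ z ∈ ball (0 : ℂ) 1 \ {0}, F z ≠ 0) (hR : ContinuousOn R (ball 0 r₁ \ {0}))
    (h0 : ∀ z ∈ ball (0 : ℂ) r₁ \ {0}, 0 ≤ R z) (h1 : ∀ z ∈ ball (0 : ℂ) r₁ \ {0}, R z ≤ 1)
    (hs : ∀ z ∈ ball (0 : ℂ) r₁ \ {0}, 0 < R z → Sub R z (κ * fs (F z) (deriv F z) ^ 2))
    (hpos : ∀ z : ℂ, ‖z‖ = s₁ ∨ ‖z‖ = s₂ → 0 < R z) :
    ∃ Q : ℂ → EN N, AnalyticAt ℂ Q 0 ∧ Q 0 ≠ 0 ∧ ∀ᶠ z in 𝓝[≠] (0 : ℂ), ∃ k : ℂ, k ≠ 0 ∧ Q z = k • F z := by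
  obtain ⟨r', hr'1, hr'2⟩ : ∃ r' : ℝ, s₂ < r' ∧ r' < r₁ := exists_between hr₁
  have hs20 : 0 < s₂ := hs₁.trans hs₂
  have hr'0 : 0 < r' := hs20.trans hr'1
  have hr'3 : r' < 1 := hr'2.trans_le hr
  have hFn : ∀ z : ℂ, 0 < ‖z‖ → ‖z‖ < 1 → 0 < ‖F z‖ := by
    intro z hz hz'
    refine norm_pos_iff.2 (hF0 z ⟨?_, ?_⟩)
    · rw [mem_ball_zero_iff]
      exact hz'
    · exact norm_pos_iff.1 hz
  -- the constant on the two circles
  obtain ⟨K, hK⟩ : ∃ K : Set ℂ, K = sphere (0 : ℂ) s₁ ∪ sphere (0 : ℂ) s₂ := ⟨_, rfl⟩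
  have hKc : IsCompact K := by
    rw [hK]
    exact (isCompact_sphere _ _).union (isCompact_sphere _ _)
  have hKm : ∀ z : ℂ, z ∈ K ↔ ‖z‖ = s₁ ∨ ‖z‖ = s₂ := by
    intro z
    rw [hK]
    simp
  have hKs : K ⊆ ball (0 : ℂ) r₁ \ {0} := by
    intro z hz
    rcases (hKm z).1 hz with h | h
    · refine ⟨?_, ?_⟩
      · rw [mem_ball_zero_iff, h]
        linarith
      · exact norm_pos_iff.1 (by rw [h]; exact hs₁)
    · refine ⟨?_, ?_⟩
      · rw [mem_ball_zero_iff, h]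
        exact hr₁
      · exact norm_pos_iff.1 (by rw [h]; exact hs20)
  have hKs' : K ⊆ ball (0 : ℂ) 1 \ {0} := fun z hz => ⟨ball_subset_ball hr (hKs hz).1, (hKs hz).2⟩
  obtain ⟨A, hA⟩ : ∃ A : ℝ, ∀ z ∈ K, |κ * Real.log ‖F z‖| + 1 + |Real.log (R z)| ≤ A := by
    have hc : ContinuousOn (fun z => |κ * Real.log ‖F z‖| + 1 + |Real.log (R z)|) K := by
      refine ContinuousOn.add (ContinuousOn.add (ContinuousOn.abs (ContinuousOn.mul continuousOn_const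
        (ContinuousOn.log (hF.continuousOn.mono hKs').norm ?_))) continuousOn_const)
        (ContinuousOn.abs (ContinuousOn.log (hR.mono hKs) ?_))
      · intro z hz
        exact (norm_pos_iff.2 (hF0 z (hKs' hz))).ne'
      · intro z hz
        exact (hpos z ((hKm z).1 hz)).ne'
    obtain ⟨A, hA⟩ := (hKc.image_of_continuousOn hc).bddAbove
    exact ⟨A, fun z hz => hA ⟨z, hz, rfl⟩⟩
  have hlog : 0 < Real.log s₂ - Real.log s₁ := sub_pos.2 (Real.log_lt_log hs₁ hs₂)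
  obtain ⟨B, hB⟩ : ∃ B : ℝ, B = 2 * A / (Real.log s₂ - Real.log s₁) := ⟨_, rfl⟩
  obtain ⟨m, hm⟩ := exists_nat_ge (B / κ)
  have hls₁ : Real.log s₁ < 0 := Real.log_neg hs₁ (by linarith)
  have hz₁ : ‖(s₁ : ℂ)‖ = s₁ := by rw [Complex.norm_real, Real.norm_of_nonneg hs₁.le]
  -- the bound of `b`
  have hkey : ∀ r : ℝ, 0 < r → r < s₁ → ∃ (g : ℂ → ℂ) (b : ℝ), DifferentiableOn ℂ g {0}ᶜ ∧ |b| ≤ B ∧ ∀ z : ℂ, r ≤ ‖z‖ → ‖z‖ ≤ r' →
      κ * Real.log ‖F z‖ ≤ 1 + ((g z).re + b * Real.log ‖z‖) ∧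
      R z * Real.exp ((g z).re + b * Real.log ‖z‖ - κ * Real.log ‖F z‖) ≤ Real.exp 1 := by
    intro r hr0 hrs
    obtain ⟨g, b, hg, hgb⟩ := rem_bounds hκ hr0 (hrs.trans (hs₂.trans hr'1)) hr'2 hr hF hF0 hR h0 h1 hs
    refine ⟨g, b, hg, ?_, hgb⟩
    have hω : ∀ z ∈ K, |(g z).re + b * Real.log ‖z‖| ≤ A := by
      intro z hz
      have hzn : r ≤ ‖z‖ ∧ ‖z‖ ≤ r' := by
        rcases (hKm z).1 hz with h | h
        · rw [h]
          exact ⟨hrs.le, by linarith⟩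
        · rw [h]
          exact ⟨by linarith, hr'1.le⟩
      obtain ⟨h2, h3⟩ := hgb z hzn.1 hzn.2
      have h4 := hA z hz
      have hRp := hpos z ((hKm z).1 hz)
      have h5 : Real.log (R z) + ((g z).re + b * Real.log ‖z‖ - κ * Real.log ‖F z‖) ≤ 1 := by
        rw [← Real.exp_le_exp, Real.exp_add, Real.exp_log hRp]
        exact h3
      have h6 := neg_abs_le (κ * Real.log ‖F z‖)
      have h7 := le_abs_self (κ * Real.log ‖F z‖)
      have h8 := neg_abs_le (Real.log (R z))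
      have h9 := abs_nonneg (Real.log (R z))
      rw [abs_le]
      constructor <;> linarith
    have hgd : ∀ z : ℂ, z ≠ 0 → DifferentiableAt ℂ g z := fun z hz => (hg z hz).differentiableAt (isOpen_compl_singleton.mem_nhds hz)
    have hav := rem_avg (f := g) hs₁ hs₂.le (fun z hz _ => hgd z (norm_pos_iff.1 (hs₁.trans_le hz)))
    have hre : ∀ s : ℝ, 0 < s → Real.circleAverage (fun z => (g z).re) 0 s = (Real.circleAverage g 0 s).re := by
      intro s hs0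
      have hgc : ContinuousOn g (sphere 0 s) := by
        intro z hz
        refine (hgd z ?_).continuousAt.continuousWithinAt
        rw [mem_sphere_zero_iff_norm] at hz
        exact norm_pos_iff.1 (by rw [hz]; exact hs0)
      exact Complex.reCLM.circleAverage_comp_comm (hgc.circleIntegrable hs0.le)
    have hmean : ∀ s : ℝ, 0 < s → (∀ z : ℂ, ‖z‖ = s → z ∈ K) → |(Real.circleAverage g 0 s).re + b * Real.log s| ≤ A := by
      intro s hs0 hsK
      have hgc : ContinuousOn (fun z => (g z).re) (sphere 0 s) := by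
        intro z hz
        refine (Complex.continuous_re.continuousAt.comp (hgd z ?_).continuousAt).continuousWithinAt
        rw [mem_sphere_zero_iff_norm] at hz
        exact norm_pos_iff.1 (by rw [hz]; exact hs0)
      have h2 := rem_avg_le (c := -(b * Real.log s)) (A := A) hs0 hgc (fun z hz => by
        have h3 := hω z (hsK z hz)
        rw [hz] at h3
        rw [sub_neg_eq_add, Real.norm_eq_abs]
        exact h3)
      rw [hre s hs0, sub_neg_eq_add, Real.norm_eq_abs] at h2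
      exact h2
    have h2 := hmean s₁ hs₁ (fun z hz => (hKm z).2 (Or.inl hz))
    have h3 := hmean s₂ hs20 (fun z hz => (hKm z).2 (Or.inr hz))
    rw [hav] at h3
    rw [hB, le_div_iff₀ hlog]
    have h4 : |b| * (Real.log s₂ - Real.log s₁) = |b * Real.log s₂ - b * Real.log s₁| := by
      rw [← mul_sub, abs_mul, abs_of_pos hlog]
    rw [h4]
    rw [abs_le] at h2 h3 ⊢
    constructor <;> linarith
  -- the norm of the lift
  have hnorm : ∀ (g : ℂ → ℂ) (z : ℂ), 0 < ‖z‖ → 0 < ‖F z‖ → ‖(z ^ m * Complex.exp (-(g z / κ))) • F z‖ =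
      Real.exp ((m : ℝ) * Real.log ‖z‖ - (g z).re / κ + Real.log ‖F z‖) := by
    intro g z hz hFz
    rw [norm_smul, norm_mul, norm_pow, Complex.norm_exp, Real.exp_add, Real.exp_sub, Real.exp_log hFz]
    have h1 : (-(g z / (κ : ℂ))).re = -((g z).re / κ) := by
      rw [Complex.neg_re, Complex.div_ofReal_re]
    rw [h1, Real.exp_neg]
    have h2 : Real.exp ((m : ℝ) * Real.log ‖z‖) = ‖z‖ ^ m := by
      rw [mul_comm, Real.exp_mul, Real.exp_log hz, Real.rpow_natCast]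
    rw [h2]
    field_simp
  refine Pool.Agent.H36.BP.puncture_limit hF hF0 (r₁ := r') (z₁ := (s₁ : ℂ)) (A := Real.exp (1 / κ))
    (c := Real.exp (((m : ℝ) + B / κ) * Real.log s₁ + (Real.log (R s₁) - 1) / κ)) (Real.exp_pos _) (by rw [hz₁]; exact hs₁)
    (by rw [hz₁]; linarith) hr'3 ?_
  intro r hr0 hrs
  rw [hz₁] at hrs
  obtain ⟨g, b, hg, hbB, hgb⟩ := hkey r hr0 hrs
  refine ⟨fun z => z ^ m * Complex.exp (-(g z / κ)), ?_, ?_, ?_⟩
  · intro z hz
    have h2 : DifferentiableAt ℂ g z := (hg z hz).differentiableAt (isOpen_compl_singleton.mem_nhds hz)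
    exact ((differentiableAt_id.pow m).mul ((h2.div_const _).neg.cexp)).differentiableWithinAt
  · intro z hz hz'
    have hz0 : 0 < ‖z‖ := hr0.trans_le hz
    have hFz := hFn z hz0 (hz'.trans_lt hr'3)
    show ‖(z ^ m * Complex.exp (-(g z / κ))) • F z‖ ≤ _
    rw [hnorm g z hz0 hFz]
    refine Real.exp_le_exp.2 ?_
    have h2 := (hgb z hz hz').1
    have h3 : Real.log ‖z‖ ≤ 0 := Real.log_nonpos hz0.le (hz'.trans hr'3.le)
    have h4 : Real.log ‖F z‖ ≤ (1 + ((g z).re + b * Real.log ‖z‖)) / κ := by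
      rw [le_div_iff₀ hκ, mul_comm]
      exact h2
    have h5 : (1 + ((g z).re + b * Real.log ‖z‖)) / κ = 1 / κ + (g z).re / κ + b / κ * Real.log ‖z‖ := by
      field_simp
      ring
    have h6 : 0 ≤ (m : ℝ) + b / κ := by
      have h7 : -B ≤ b := (abs_le.1 hbB).1
      have h8 : -B / κ ≤ b / κ := div_le_div_of_nonneg_right h7 hκ.le
      have h9 : -B / κ = -(B / κ) := neg_div _ _
      linarith
    have h7 := mul_nonpos_of_nonneg_of_nonpos h6 h3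
    rw [h5] at h4
    linarith
  · have hFz := hFn (s₁ : ℂ) (by rw [hz₁]; exact hs₁) (by rw [hz₁]; linarith)
    show _ ≤ ‖((s₁ : ℂ) ^ m * Complex.exp (-(g s₁ / κ))) • F s₁‖
    rw [hnorm g (s₁ : ℂ) (by rw [hz₁]; exact hs₁) hFz]
    refine Real.exp_le_exp.2 ?_
    rw [hz₁]
    have hRp : 0 < R (s₁ : ℂ) := hpos _ (Or.inl hz₁)
    have h2 := (hgb (s₁ : ℂ) (by rw [hz₁]; exact hrs.le) (by rw [hz₁]; linarith)).2
    rw [hz₁] at h2
    have h3 : Real.log (R (s₁ : ℂ)) + ((g (s₁ : ℂ)).re + b * Real.log s₁ - κ * Real.log ‖F (s₁ : ℂ)‖) ≤ 1 := by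
      rw [← Real.exp_le_exp, Real.exp_add, Real.exp_log hRp]
      exact h2
    have h4 : ((g (s₁ : ℂ)).re + b * Real.log s₁ + Real.log (R (s₁ : ℂ)) - 1) / κ ≤ Real.log ‖F (s₁ : ℂ)‖ := by
      rw [div_le_iff₀ hκ]
      linarith
    have h5 : ((g (s₁ : ℂ)).re + b * Real.log s₁ + Real.log (R (s₁ : ℂ)) - 1) / κ =
        (g (s₁ : ℂ)).re / κ + b / κ * Real.log s₁ + (Real.log (R (s₁ : ℂ)) - 1) / κ := by
      field_simp
      ring
    have h6 : B / κ * Real.log s₁ ≤ b / κ * Real.log s₁ := by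
      refine mul_le_mul_of_nonpos_right ?_ hls₁.le
      exact div_le_div_of_nonneg_right (abs_le.1 hbB).2 hκ.le
    rw [h5] at h4
    linarith

/-- the circles have small diameter -/
private theorem rem_circle {F : ℂ → EN N} (hF : DifferentiableOn ℂ F (ball 0 1 \ {0})) (hF0 : ∀ z ∈ ball (0 : ℂ) 1 \ {0}, F z ≠ 0)
    (h : ∀ δ : ℝ, 0 < δ → ∃ s : ℝ, 0 < s ∧ ∀ z : ℂ, 0 < ‖z‖ → ‖z‖ < s → ‖z‖ * fs (F z) (deriv F z) ≤ δ) {η : ℝ} (hη : 0 < η) :
    ∃ s : ℝ, 0 < s ∧ s ≤ 1 ∧ ∀ z w : ℂ, 0 < ‖z‖ → ‖z‖ < s → ‖z‖ = ‖w‖ → pd (F z) (F w) ≤ η := by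
  obtain ⟨s, hs, hs'⟩ := h (η / 16) (by positivity)
  refine ⟨min s 1, lt_min hs one_pos, min_le_right _ _, ?_⟩
  intro z w hz0 hzs hzw
  obtain ⟨t, ht⟩ : ∃ t : ℝ, t = min s 1 := ⟨_, rfl⟩
  rw [← ht] at hzs
  have ht0 : 0 < t := hz0.trans hzs
  have hts : t ≤ s := ht ▸ min_le_left _ _
  have ht1 : t ≤ 1 := ht ▸ min_le_right _ _
  obtain ⟨U, hU⟩ : ∃ U : Set ℂ, U = {ζ : ℂ | ζ.re < Real.log t} := ⟨_, rfl⟩
  have hUo : IsOpen U := by
    rw [hU]
    exact isOpen_lt Complex.continuous_re continuous_const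
  have hUc : Convex ℝ U := by
    rw [hU]
    exact convex_halfSpace_re_lt _
  have hexp : ∀ ζ ∈ U, 0 < ‖Complex.exp ζ‖ ∧ ‖Complex.exp ζ‖ < t := by
    intro ζ hζ
    rw [Complex.norm_exp]
    refine ⟨Real.exp_pos _, ?_⟩
    rw [hU] at hζ
    have h2 : ζ.re < Real.log t := hζ
    calc Real.exp ζ.re < Real.exp (Real.log t) := Real.exp_lt_exp.2 h2
      _ = t := Real.exp_log ht0
  have hopen : IsOpen (ball (0 : ℂ) 1 \ {0}) := isOpen_ball.sdiff isClosed_singleton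
  have hmem : ∀ ζ ∈ U, Complex.exp ζ ∈ ball (0 : ℂ) 1 \ {0} := by
    intro ζ hζ
    refine ⟨?_, Complex.exp_ne_zero _⟩
    rw [mem_ball_zero_iff]
    exact (hexp ζ hζ).2.trans_le ht1
  have hG : DifferentiableOn ℂ (fun ζ => F (Complex.exp ζ)) U :=
    hF.comp Complex.differentiable_exp.differentiableOn hmem
  have hGfs : ∀ ζ ∈ U, fs (F (Complex.exp ζ)) (deriv (fun ζ => F (Complex.exp ζ)) ζ) ≤ η / 16 := by
    intro ζ hζ
    rw [fs_comp hopen hF Complex.differentiableAt_exp (hmem ζ hζ), Complex.deriv_exp]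
    exact hs' _ (hexp ζ hζ).1 ((hexp ζ hζ).2.trans_le hts)
  have hL := Pool.Agent.H62.EF.pr_lipschitz hUo hUc hG (fun ζ hζ => hF0 _ (hmem ζ hζ)) hGfs
  have hz : z ≠ 0 := norm_pos_iff.1 hz0
  have hw : w ≠ 0 := norm_pos_iff.1 (hzw ▸ hz0)
  have hzU : Complex.log z ∈ U := by
    rw [hU]
    show (Complex.log z).re < Real.log t
    rw [Complex.log_re]
    exact Real.log_lt_log hz0 hzs
  have hwU : Complex.log w ∈ U := by
    rw [hU]
    show (Complex.log w).re < Real.log t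
    rw [Complex.log_re, ← hzw]
    exact Real.log_lt_log hz0 hzs
  have h2 := hL _ hzU _ hwU
  simp only [Complex.exp_log hz, Complex.exp_log hw] at h2
  have h3 : ‖Complex.log z - Complex.log w‖ ≤ 8 := by
    have h4 : Complex.log z - Complex.log w = ((Complex.arg z - Complex.arg w : ℝ) : ℂ) * Complex.I := by
      apply Complex.ext
      · rw [Complex.sub_re, Complex.log_re, Complex.log_re, hzw]
        simp
      · rw [Complex.sub_im, Complex.log_im, Complex.log_im]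
        simp
    rw [h4, norm_mul, Complex.norm_I, mul_one, Complex.norm_real, Real.norm_eq_abs, abs_le]
    have h5 := Complex.neg_pi_lt_arg z
    have h6 := Complex.arg_le_pi z
    have h7 := Complex.neg_pi_lt_arg w
    have h8 := Complex.arg_le_pi w
    have h9 := Real.pi_le_four
    constructor <;> linarith
  show dist (pr (F z)) (pr (F w)) ≤ η
  calc dist (pr (F z)) (pr (F w)) ≤ 2 * (η / 16) * ‖Complex.log z - Complex.log w‖ := h2
    _ ≤ 2 * (η / 16) * 8 := mul_le_mul_of_nonneg_left h3 (by positivity)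
    _ = η := by ring

/-- two vectors with the same scalar product with `p` -/
private theorem rem_wd {p x y : EN N} (hp : ‖p‖ = 1) (hx : (inner ℂ p x : ℂ) = 1) (hy : (inner ℂ p y : ℂ) = 1) : ‖x - y‖ ≤ wd x y := by
  have hxy : (inner ℂ p (y - x) : ℂ) = 0 := by
    rw [inner_sub_right, hx, hy, sub_self]
  obtain ⟨u, hu⟩ : ∃ u : EN N, u = y - x := ⟨_, rfl⟩
  rw [← hu] at hxy
  have h1 : wd x y = wd x u := by
    have h2 := Pool.Agent.H36.BP.wd_inv x u 1 1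
    have h3 : (1 : ℂ) • u + (1 : ℂ) • x = y := by
      rw [one_smul, one_smul, hu, sub_add_cancel]
    rw [h3, one_smul, norm_one, one_pow, one_mul] at h2
    exact h2
  obtain ⟨x', hx'⟩ : ∃ x' : EN N, x' = x - p := ⟨_, rfl⟩
  have hpp : (inner ℂ p p : ℂ) = 1 := by
    rw [inner_self_eq_norm_sq_to_K, hp]
    simp
  have hpx' : (inner ℂ p x' : ℂ) = 0 := by
    rw [hx', inner_sub_right, hx, hpp, sub_self]
  have hx2 : x = p + x' := by rw [hx']; abel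
  have h4 : ‖x‖ ^ 2 = 1 + ‖x'‖ ^ 2 := by
    rw [hx2, norm_add_sq (𝕜 := ℂ), hpx', hp]
    simp
  have h5 : (inner ℂ x u : ℂ) = inner ℂ x' u := by
    rw [hx2, inner_add_left, hxy, zero_add]
  have h6 : ‖(inner ℂ x' u : ℂ)‖ ≤ ‖x'‖ * ‖u‖ := norm_inner_le_norm _ _
  have h7 : ‖u‖ ^ 2 ≤ wd x u ^ 2 := by
    rw [Pool.Agent.H62.EF.wd_sq, h4, h5]
    have h8 : ‖(inner ℂ x' u : ℂ)‖ ^ 2 ≤ (‖x'‖ * ‖u‖) ^ 2 := pow_le_pow_left₀ (norm_nonneg _) h6 2
    linarith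
  have h8 : ‖x - y‖ = ‖u‖ := by rw [hu, norm_sub_rev]
  rw [h8, h1]
  exact abs_le_of_sq_le_sq' h7 (Real.sqrt_nonneg _) |>.2

/-- the normalised curve -/
private theorem rem_norm {p x : EN N} (hp : ‖p‖ = 1) (hx : x ≠ 0) {d : ℝ} (hd0 : 0 ≤ d) (hd : d ≤ 1 / 2) (h : pd x p ≤ d) :
    (inner ℂ p x : ℂ) ≠ 0 ∧ ‖(inner ℂ p x : ℂ)⁻¹ • x‖ ≤ 5 / 4 ∧ 1 ≤ ‖(inner ℂ p x : ℂ)⁻¹ • x‖ ∧
      (inner ℂ p ((inner ℂ p x : ℂ)⁻¹ • x) : ℂ) = 1 := by
  have hp0 : p ≠ 0 := by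
    intro h0
    rw [h0, norm_zero] at hp
    exact zero_ne_one hp
  have hxn : 0 < ‖x‖ := norm_pos_iff.2 hx
  have hi := Pool.Agent.H62.EF.norm_inner_sq hp0 hx
  have hpd : dist (pr p) (pr x) ≤ d := by
    rw [dist_comm]
    exact h
  rw [hp] at hi
  have hpd2 : dist (pr p) (pr x) ^ 2 ≤ 1 / 4 := by
    have h2 : dist (pr p) (pr x) ≤ 1 / 2 := hpd.trans hd
    have h3 : 0 ≤ dist (pr p) (pr x) := dist_nonneg
    linarith [pow_le_pow_left₀ h3 h2 2]
  have h4 : 7 / 8 * ‖x‖ ^ 2 ≤ ‖(inner ℂ p x : ℂ)‖ ^ 2 := by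
    rw [hi]
    linarith [mul_le_mul_of_nonneg_right hpd2 (sq_nonneg ‖x‖)]
  have h5 : 0 < ‖(inner ℂ p x : ℂ)‖ := by
    rcases (norm_nonneg (inner ℂ p x : ℂ)).lt_or_eq with h6 | h6
    · exact h6
    · rw [← h6] at h4
      have : 0 < ‖x‖ ^ 2 := by positivity
      linarith
  have hne : (inner ℂ p x : ℂ) ≠ 0 := norm_pos_iff.1 h5
  refine ⟨hne, ?_, ?_, ?_⟩
  · rw [norm_smul, norm_inv, inv_mul_le_iff₀ h5]
    have h6 : ‖x‖ ^ 2 ≤ (‖(inner ℂ p x : ℂ)‖ * (5 / 4)) ^ 2 := by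
      rw [mul_pow]
      linarith [sq_nonneg ‖x‖]
    exact abs_le_of_sq_le_sq' h6 (by positivity) |>.2
  · rw [norm_smul, norm_inv, le_inv_mul_iff₀ h5, mul_one]
    have h6 : ‖(inner ℂ p x : ℂ)‖ ≤ ‖p‖ * ‖x‖ := norm_inner_le_norm _ _
    rw [hp, one_mul] at h6
    exact h6
  · rw [inner_smul_right, inv_mul_cancel₀ hne]

/-- **(P1)** -/
theorem removable_of_small {F : ℂ → EN N} (hF : DifferentiableOn ℂ F (ball 0 1 \ {0})) (hF0 : ∀ z ∈ ball (0 : ℂ) 1 \ {0}, F z ≠ 0)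
    (h : ∀ δ : ℝ, 0 < δ → ∃ s : ℝ, 0 < s ∧ ∀ z : ℂ, 0 < ‖z‖ → ‖z‖ < s → ‖z‖ * fs (F z) (deriv F z) ≤ δ) :
    ∃ Q : ℂ → EN N, AnalyticAt ℂ Q 0 ∧ Q 0 ≠ 0 ∧ ∀ᶠ z in 𝓝[≠] (0 : ℂ), ∃ k : ℂ, k ≠ 0 ∧ Q z = k • F z := by
  have hopen : IsOpen (ball (0 : ℂ) 1 \ {0}) := isOpen_ball.sdiff isClosed_singleton
  have hmem : ∀ z : ℂ, 0 < ‖z‖ → ‖z‖ < 1 → z ∈ ball (0 : ℂ) 1 \ {0} := by
    intro z hz hz'
    refine ⟨?_, norm_pos_iff.1 hz⟩
    rw [mem_ball_zero_iff]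
    exact hz'
  -- a limit point
  obtain ⟨p, hp, hlim⟩ : ∃ p : EN N, ‖p‖ = 1 ∧ ∀ η : ℝ, 0 < η → ∀ s : ℝ, 0 < s → ∃ z : ℂ, 0 < ‖z‖ ∧ ‖z‖ < s ∧ ‖z‖ < 1 ∧ pd (F z) p ≤ η := by
    have hk : ∀ k : ℕ, 0 < ‖(((1 : ℝ) / ((k : ℝ) + 2) : ℝ) : ℂ)‖ ∧ ‖(((1 : ℝ) / ((k : ℝ) + 2) : ℝ) : ℂ)‖ = 1 / ((k : ℝ) + 2) ∧
        ‖(((1 : ℝ) / ((k : ℝ) + 2) : ℝ) : ℂ)‖ < 1 := by
      intro k
      have h2 : ‖(((1 : ℝ) / ((k : ℝ) + 2) : ℝ) : ℂ)‖ = 1 / ((k : ℝ) + 2) := by
        rw [Complex.norm_real, Real.norm_of_nonneg (by positivity)]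
      have hk0 : (0 : ℝ) ≤ k := Nat.cast_nonneg k
      refine ⟨by rw [h2]; positivity, h2, ?_⟩
      rw [h2, div_lt_one (by positivity)]
      linarith
    obtain ⟨x, hx⟩ : ∃ x : ℕ → EN N, x = fun k : ℕ => ((‖F (((1 : ℝ) / ((k : ℝ) + 2) : ℝ) : ℂ)‖⁻¹ : ℝ) : ℂ) • F (((1 : ℝ) / ((k : ℝ) + 2) : ℝ) : ℂ) :=
      ⟨_, rfl⟩
    have hxn : ∀ k, x k ∈ sphere (0 : EN N) 1 := by
      intro k
      have h2 : 0 < ‖F (((1 : ℝ) / ((k : ℝ) + 2) : ℝ) : ℂ)‖ := norm_pos_iff.2 (hF0 _ (hmem _ (hk k).1 (hk k).2.2))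
      rw [mem_sphere_zero_iff_norm, hx]
      show ‖((‖F (((1 : ℝ) / ((k : ℝ) + 2) : ℝ) : ℂ)‖⁻¹ : ℝ) : ℂ) • F (((1 : ℝ) / ((k : ℝ) + 2) : ℝ) : ℂ)‖ = 1
      rw [norm_smul, Complex.norm_real, norm_inv, norm_norm, inv_mul_cancel₀ h2.ne']
    obtain ⟨p, hp, φ, hφ, hφl⟩ := (isCompact_sphere (0 : EN N) 1).tendsto_subseq hxn
    have hp1 : ‖p‖ = 1 := by rwa [mem_sphere_zero_iff_norm] at hp
    refine ⟨p, hp1, fun η hη s hs => ?_⟩
    have hp0 : p ≠ 0 := norm_pos_iff.1 (by rw [hp1]; exact one_pos)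
    have h2 : Tendsto (fun k => pr (x (φ k))) atTop (𝓝 (pr p)) :=
      (Pool.Agent.H62.EF.continuousAt_pr hp0).tendsto.comp hφl
    have h3 : ∀ᶠ k in atTop, dist (pr (x (φ k))) (pr p) < η := (tendsto_iff_dist_tendsto_zero.1 h2).eventually_lt_const hη
    have h4 : Tendsto (fun k : ℕ => (1 : ℝ) / ((φ k : ℝ) + 2)) atTop (𝓝 0) := by
      have h5 : Tendsto (fun n : ℕ => (1 : ℝ) / ((n : ℝ) + 2)) atTop (𝓝 0) :=
        Tendsto.div_atTop tendsto_const_nhds (tendsto_natCast_atTop_atTop.atTop_add tendsto_const_nhds)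
      exact h5.comp hφ.tendsto_atTop
    obtain ⟨k, hk1, hk2⟩ := (h3.and (h4.eventually_lt_const hs)).exists
    refine ⟨_, (hk (φ k)).1, by rw [(hk (φ k)).2.1]; exact hk2, (hk (φ k)).2.2, ?_⟩
    have h6 : 0 < ‖F (((1 : ℝ) / ((φ k : ℝ) + 2) : ℝ) : ℂ)‖ := norm_pos_iff.2 (hF0 _ (hmem _ (hk (φ k)).1 (hk (φ k)).2.2))
    have h7 : pr (x (φ k)) = pr (F (((1 : ℝ) / ((φ k : ℝ) + 2) : ℝ) : ℂ)) := by
      rw [hx]
      refine Pool.Agent.H62.EF.pr_smul _ ?_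
      rw [Ne, Complex.ofReal_eq_zero]
      exact (inv_pos.2 h6).ne'
    rw [h7] at hk1
    exact hk1.le
  have hp0 : p ≠ 0 := norm_pos_iff.1 (by rw [hp]; exact one_pos)
  obtain ⟨H, hH⟩ : ∃ H : ℂ → EN N, ∀ z, H z = (inner ℂ p (F z) : ℂ)⁻¹ • F z := ⟨_, fun _ => rfl⟩
  have hHd : ∀ z : ℂ, 0 < ‖z‖ → ‖z‖ < 1 → (inner ℂ p (F z) : ℂ) ≠ 0 → DifferentiableAt ℂ H z := by
    intro z hz hz' hne
    have h2 : DifferentiableAt ℂ F z := hF.differentiableAt (hopen.mem_nhds (hmem z hz hz'))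
    have h3 : DifferentiableAt ℂ (fun z => (inner ℂ p (F z) : ℂ)) z := (innerSL ℂ p).differentiableAt.comp z h2
    have h4 : H = fun z => (inner ℂ p (F z) : ℂ)⁻¹ • F z := funext hH
    rw [h4]
    exact (h3.inv hne).smul h2
  -- distances
  have hwd : ∀ z w : ℂ, 0 < ‖z‖ → ‖z‖ < 1 → 0 < ‖w‖ → ‖w‖ < 1 → pd (F z) p ≤ 1 / 2 → pd (F w) p ≤ 1 / 2 →
      ‖H z - H w‖ ≤ 3 * pd (F z) (F w) := by
    intro z w hz0 hz1 hw0 hw1 hzp hwp
    have hFz := hF0 _ (hmem z hz0 hz1)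
    have hFw := hF0 _ (hmem w hw0 hw1)
    obtain ⟨a1, a2, a3, a4⟩ := rem_norm hp hFz (by norm_num) le_rfl hzp
    obtain ⟨b1, b2, b3, b4⟩ := rem_norm hp hFw (by norm_num) le_rfl hwp
    rw [← hH] at a2 a3 a4 b2 b3 b4
    have c1 := rem_wd hp a4 b4
    have hHz : H z ≠ 0 := norm_pos_iff.1 (by linarith)
    have hHw : H w ≠ 0 := norm_pos_iff.1 (by linarith)
    have c2 := Pool.Agent.H62.EF.dist_pr hHz hHw
    have c3 : pr (H z) = pr (F z) := by
      rw [hH]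
      exact Pool.Agent.H62.EF.pr_smul _ (inv_ne_zero a1)
    have c4 : pr (H w) = pr (F w) := by
      rw [hH]
      exact Pool.Agent.H62.EF.pr_smul _ (inv_ne_zero b1)
    rw [c3, c4] at c2
    have c5 : 0 < ‖H z‖ * ‖H w‖ := mul_pos (by linarith) (by linarith)
    have c6 : wd (H z) (H w) / (‖H z‖ * ‖H w‖) ≤ pd (F z) (F w) := by
      show _ ≤ dist (pr (F z)) (pr (F w))
      rw [c2]
      have c7 : 0 ≤ wd (H z) (H w) / (‖H z‖ * ‖H w‖) := div_nonneg (Real.sqrt_nonneg _) c5.le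
      have c8 : (1 : ℝ) ≤ Real.sqrt 2 := Real.one_le_sqrt.2 (by norm_num)
      linarith [mul_le_mul_of_nonneg_right c8 c7]
    rw [div_le_iff₀ c5] at c6
    have c9 : ‖H z‖ * ‖H w‖ ≤ 3 := by linarith [mul_le_mul a2 b2 (norm_nonneg _) (by norm_num : (0 : ℝ) ≤ 5 / 4)]
    have c10 : 0 ≤ pd (F z) (F w) := dist_nonneg
    linarith [mul_le_mul_of_nonneg_left c9 c10]
  have hwp : ∀ z : ℂ, 0 < ‖z‖ → ‖z‖ < 1 → pd (F z) p ≤ 1 / 2 → ‖H z - p‖ ≤ 3 * pd (F z) p ∧ pd (F z) p ≤ 2 * ‖H z - p‖ := by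
    intro z hz0 hz1 hzp
    have hFz := hF0 _ (hmem z hz0 hz1)
    obtain ⟨a1, a2, a3, a4⟩ := rem_norm hp hFz (by norm_num) le_rfl hzp
    rw [← hH] at a2 a3 a4
    have hpp : (inner ℂ p p : ℂ) = 1 := by
      rw [inner_self_eq_norm_sq_to_K, hp]
      simp
    have c1 := rem_wd hp a4 hpp
    have hHz : H z ≠ 0 := norm_pos_iff.1 (by linarith)
    have c2 := Pool.Agent.H62.EF.dist_pr hHz hp0
    have c3 : pr (H z) = pr (F z) := by
      rw [hH]
      exact Pool.Agent.H62.EF.pr_smul _ (inv_ne_zero a1)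
    rw [c3, hp, mul_one] at c2
    have c5 : 0 < ‖H z‖ := by linarith
    have c8 : (1 : ℝ) ≤ Real.sqrt 2 := Real.one_le_sqrt.2 (by norm_num)
    have c9 : Real.sqrt 2 ≤ 2 := Real.sqrt_le_iff.2 ⟨by norm_num, by norm_num⟩
    have c7 : 0 ≤ wd (H z) p / ‖H z‖ := div_nonneg (Real.sqrt_nonneg _) c5.le
    constructor
    · have c6 : wd (H z) p / ‖H z‖ ≤ pd (F z) p := by
        show _ ≤ dist (pr (F z)) (pr p)
        rw [c2]
        linarith [mul_le_mul_of_nonneg_right c8 c7]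
      rw [div_le_iff₀ c5] at c6
      have c10 : 0 ≤ pd (F z) p := dist_nonneg
      linarith [mul_le_mul_of_nonneg_left a2 c10]
    · have d1 : wd (H z) p ≤ ‖H z - p‖ := by
        have d2 : wd (H z) p = wd p (H z - p) := by
          have d3 := Pool.Agent.H36.BP.wd_inv p (H z - p) 1 1
          have d4 : (1 : ℂ) • (H z - p) + (1 : ℂ) • p = H z := by
            rw [one_smul, one_smul, sub_add_cancel]
          rw [d4, one_smul, norm_one, one_pow, one_mul] at d3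
          rw [← d3]
          have e1 : wd (H z) p ^ 2 = wd p (H z) ^ 2 := by
            rw [Pool.Agent.H62.EF.wd_sq, Pool.Agent.H62.EF.wd_sq, norm_inner_symm, mul_comm]
          exact (pow_left_inj₀ (Real.sqrt_nonneg _) (Real.sqrt_nonneg _) two_ne_zero).1 e1
        rw [d2]
        have d5 : wd p (H z - p) ^ 2 ≤ ‖H z - p‖ ^ 2 := by
          rw [Pool.Agent.H62.EF.wd_sq, hp]
          have : 0 ≤ ‖(inner ℂ p (H z - p) : ℂ)‖ ^ 2 := by positivity
          linarith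
        exact abs_le_of_sq_le_sq' d5 (norm_nonneg _) |>.2
      show dist (pr (F z)) (pr p) ≤ _
      rw [c2]
      have d6 : wd (H z) p / ‖H z‖ ≤ ‖H z - p‖ := by
        rw [div_le_iff₀ c5]
        linarith [mul_le_mul_of_nonneg_left a3 (norm_nonneg (H z - p))]
      linarith [mul_le_mul_of_nonneg_right c9 c7]
  obtain ⟨s₀, hs₀, hs₀1, hdiam⟩ := rem_circle hF hF0 h (η := 1 / 100) (by norm_num)
  -- one circle
  obtain ⟨z₂, hz₂0, hz₂s, hz₂1, hz₂p⟩ := hlim (1 / 100) (by norm_num) s₀ hs₀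
  have hcirc : ∀ z : ℂ, ‖z‖ = ‖z₂‖ → pd (F z) p ≤ 1 / 50 := by
    intro z hz
    have h2 := hdiam z z₂ (by rw [hz]; exact hz₂0) (by rw [hz]; exact hz₂s) hz
    calc pd (F z) p ≤ pd (F z) (F z₂) + pd (F z₂) p := dist_triangle _ _ _
      _ ≤ 1 / 50 := by linarith
  have hpdc : ContinuousOn (fun z => pd (F z) p) (ball (0 : ℂ) 1 \ {0}) := by
    intro z hz
    refine ContinuousAt.continuousWithinAt ?_
    have h2 : ContinuousAt F z := (hF.differentiableAt (hopen.mem_nhds hz)).continuousAt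
    have h3 : ContinuousAt (fun z => pr (F z)) z := (Pool.Agent.H62.EF.continuousAt_pr (hF0 z hz)).comp h2
    exact h3.dist continuousAt_const
  have hall : ∀ z : ℂ, 0 < ‖z‖ → ‖z‖ ≤ ‖z₂‖ → pd (F z) p ≤ 1 / 4 := by
    intro z₀ hz₀ hz₀2
    by_contra hcon
    push Not at hcon
    obtain ⟨T, hT⟩ : ∃ T : Set ℂ, T = {z | ‖z₀‖ ≤ ‖z‖ ∧ ‖z‖ ≤ ‖z₂‖} := ⟨_, rfl⟩
    have hTc : IsCompact T := by
      rw [hT]
      refine (isCompact_closedBall (0 : ℂ) ‖z₂‖).of_isClosed_subset ?_ ?_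
      · exact (isClosed_le continuous_const continuous_norm).inter (isClosed_le continuous_norm continuous_const)
      · intro z hz
        simpa using hz.2
    have hTs : T ⊆ ball (0 : ℂ) 1 \ {0} := by
      rw [hT]
      exact fun z hz => hmem z (hz₀.trans_le hz.1) (hz.2.trans_lt hz₂1)
    have hT'c : IsCompact (T ∩ (fun z => pd (F z) p) ⁻¹' Set.Ici (1 / 4)) :=
      hTc.of_isClosed_subset ((hpdc.mono hTs).preimage_isClosed_of_isClosed hTc.isClosed isClosed_Ici) Set.inter_subset_left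
    have hz₀T : z₀ ∈ T ∩ (fun z => pd (F z) p) ⁻¹' Set.Ici (1 / 4) := by
      refine ⟨?_, hcon.le⟩
      rw [hT]
      exact ⟨le_rfl, hz₀2⟩
    obtain ⟨z₁, hz₁, hmax⟩ := hT'c.exists_isMaxOn ⟨z₀, hz₀T⟩ continuous_norm.continuousOn
    have hz₁T := hz₁.1
    rw [hT] at hz₁T
    have hz₁0 : 0 < ‖z₁‖ := hz₀.trans_le hz₁T.1
    have hz₁p : 1 / 4 ≤ pd (F z₁) p := hz₁.2
    have hz₁2 : ‖z₁‖ < ‖z₂‖ := by
      refine lt_of_le_of_ne hz₁T.2 fun he => ?_
      have := hcirc z₁ he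
      linarith
    have hout : ∀ z : ℂ, ‖z₁‖ < ‖z‖ → ‖z‖ ≤ ‖z₂‖ → pd (F z) p ≤ 1 / 4 := by
      intro z h1 h2
      by_contra h3
      push Not at h3
      have h4 : z ∈ T ∩ (fun z => pd (F z) p) ⁻¹' Set.Ici (1 / 4) := by
        refine ⟨?_, h3.le⟩
        rw [hT]
        exact ⟨hz₁T.1.trans h1.le, h2⟩
      have h5 : ‖z‖ ≤ ‖z₁‖ := hmax h4
      linarith
    have hann : ∀ z : ℂ, ‖z₁‖ ≤ ‖z‖ → ‖z‖ ≤ ‖z₂‖ → pd (F z) p ≤ 1 / 4 := by
      intro z h1 h2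
      rcases h1.lt_or_eq with h3 | h3
      · exact hout z h3 h2
      · have h4 : ContinuousAt (fun z => pd (F z) p) z :=
          (hpdc z (hmem z (h3 ▸ hz₁0) (h2.trans_lt hz₂1))).continuousAt (hopen.mem_nhds (hmem z (h3 ▸ hz₁0) (h2.trans_lt hz₂1)))
        have h5 : Tendsto (fun t : ℝ => (t : ℂ) * z) (𝓝[>] 1) (𝓝 z) := by
          apply tendsto_nhdsWithin_of_tendsto_nhds
          have hc : Continuous (fun t : ℝ => (t : ℂ) * z) := by fun_prop
          have := hc.tendsto 1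
          simpa using this
        have h6 : Tendsto (fun t : ℝ => t * ‖z‖) (𝓝[>] 1) (𝓝 ‖z‖) := by
          apply tendsto_nhdsWithin_of_tendsto_nhds
          have hc : Continuous (fun t : ℝ => t * ‖z‖) := by fun_prop
          have := hc.tendsto 1
          simpa using this
        have h7 : ‖z‖ < ‖z₂‖ := h3 ▸ hz₁2
        refine le_of_tendsto (h4.tendsto.comp h5) ?_
        filter_upwards [h6.eventually_lt_const h7, self_mem_nhdsWithin] with t ht1 ht2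
        have ht3 : (1 : ℝ) < t := ht2
        have ht4 : ‖(t : ℂ) * z‖ = t * ‖z‖ := by
          rw [norm_mul, Complex.norm_real, Real.norm_of_nonneg (by linarith)]
        refine hout _ ?_ ?_
        · rw [ht4, h3]
          have : 0 < ‖z‖ := h3 ▸ hz₁0
          linarith [mul_lt_mul_of_pos_right ht3 this]
        · rw [ht4]
          exact ht1.le
    have hHd' : ∀ z : ℂ, ‖z₁‖ ≤ ‖z‖ → ‖z‖ ≤ ‖z₂‖ → DifferentiableAt ℂ H z := by
      intro z h1 h2
      have h3 := hann z h1 h2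
      have h4 : 0 < ‖z‖ := hz₁0.trans_le h1
      have h5 : ‖z‖ < 1 := h2.trans_lt hz₂1
      exact hHd z h4 h5 (rem_norm hp (hF0 _ (hmem z h4 h5)) (by norm_num) le_rfl (h3.trans (by norm_num))).1
    have hav := rem_avg (f := H) hz₁0 hz₁2.le hHd'
    have hA2 : ‖Real.circleAverage H 0 ‖z₂‖ - p‖ ≤ 3 / 50 := by
      refine rem_avg_le hz₂0 ?_ ?_
      · intro z hz
        rw [mem_sphere_zero_iff_norm] at hz
        exact (hHd' z (by rw [hz]; exact hz₁2.le) hz.le).continuousAt.continuousWithinAt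
      · intro z hz
        have h1 := hcirc z hz
        have h2 := (hwp z (by rw [hz]; exact hz₂0) (by rw [hz]; exact hz₂1) (h1.trans (by norm_num))).1
        linarith
    have hA1 : ‖Real.circleAverage H 0 ‖z₁‖ - H z₁‖ ≤ 3 / 100 := by
      refine rem_avg_le hz₁0 ?_ ?_
      · intro z hz
        rw [mem_sphere_zero_iff_norm] at hz
        exact (hHd' z hz.ge (by rw [hz]; exact hz₁2.le)).continuousAt.continuousWithinAt
      · intro z hz
        have h1 := hann z hz.ge (by rw [hz]; exact hz₁2.le)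
        have h2 := hann z₁ le_rfl hz₁2.le
        have h3 := hwd z z₁ (by rw [hz]; exact hz₁0) (by rw [hz]; linarith) hz₁0 (by linarith) (h1.trans (by norm_num)) (h2.trans (by norm_num))
        have h4 := hdiam z z₁ (by rw [hz]; exact hz₁0) (by rw [hz]; linarith) hz
        linarith
    rw [hav] at hA2
    have h1 : ‖H z₁ - p‖ ≤ 3 / 50 + 3 / 100 := by
      have h2 : H z₁ - p = (Real.circleAverage H 0 ‖z₁‖ - p) - (Real.circleAverage H 0 ‖z₁‖ - H z₁) := by abel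
      rw [h2]
      exact (norm_sub_le _ _).trans (add_le_add hA2 hA1)
    have h2 := (hwp z₁ hz₁0 (by linarith) ((hann z₁ le_rfl hz₁2.le).trans (by norm_num))).2
    linarith
  -- the extension
  have hin : ∀ z ∈ ball (0 : ℂ) ‖z₂‖ \ {0}, 0 < ‖z‖ ∧ ‖z‖ ≤ ‖z₂‖ ∧ ‖z‖ < 1 := by
    intro z hz
    have h1 : ‖z‖ < ‖z₂‖ := by
      have := hz.1
      rwa [mem_ball_zero_iff] at this
    exact ⟨norm_pos_iff.2 hz.2, h1.le, h1.trans hz₂1⟩
  have hne : ∀ z ∈ ball (0 : ℂ) ‖z₂‖ \ {0}, (inner ℂ p (F z) : ℂ) ≠ 0 ∧ ‖H z‖ ≤ 5 / 4 ∧ (inner ℂ p (H z) : ℂ) = 1 := by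
    intro z hz
    obtain ⟨h1, h2, h3⟩ := hin z hz
    obtain ⟨a1, a2, a3, a4⟩ := rem_norm hp (hF0 _ (hmem z h1 h3)) (by norm_num) le_rfl ((hall z h1 h2).trans (by norm_num))
    rw [← hH] at a2 a4
    exact ⟨a1, a2, a4⟩
  have hball : ball (0 : ℂ) ‖z₂‖ ∈ 𝓝 (0 : ℂ) := ball_mem_nhds _ hz₂0
  have hext := Complex.differentiableOn_update_limUnder_of_bddAbove (f := H) hball
    (fun z hz => (hHd z (hin z hz).1 (hin z hz).2.2 (hne z hz).1).differentiableWithinAt)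
    (by
      refine ⟨5 / 4, ?_⟩
      rintro _ ⟨z, hz, rfl⟩
      exact (hne z hz).2.1)
  obtain ⟨Q, hQ⟩ : ∃ Q : ℂ → EN N, Q = Function.update H 0 (limUnder (𝓝[≠] (0 : ℂ)) H) := ⟨_, rfl⟩
  rw [← hQ] at hext
  have hQz : ∀ z : ℂ, z ≠ 0 → Q z = H z := by
    intro z hz
    rw [hQ]
    exact Function.update_of_ne hz _ _
  have hQa : AnalyticAt ℂ Q 0 := hext.analyticAt hball
  have hev : ∀ᶠ z in 𝓝[≠] (0 : ℂ), z ∈ ball (0 : ℂ) ‖z₂‖ \ {0} := by
    have h1 : ball (0 : ℂ) ‖z₂‖ \ {0} = ball (0 : ℂ) ‖z₂‖ ∩ {0}ᶜ := rfl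
    rw [h1]
    exact inter_mem (mem_nhdsWithin_of_mem_nhds hball) self_mem_nhdsWithin
  refine ⟨Q, hQa, ?_, ?_⟩
  · have h1 : Tendsto (fun z => (inner ℂ p (Q z) : ℂ)) (𝓝[≠] (0 : ℂ)) (𝓝 (inner ℂ p (Q 0))) := by
      have h2 : ContinuousAt (fun z => (inner ℂ p (Q z) : ℂ)) 0 := continuousAt_const.inner hQa.continuousAt
      exact h2.tendsto.mono_left nhdsWithin_le_nhds
    have h3 : Tendsto (fun z => (inner ℂ p (Q z) : ℂ)) (𝓝[≠] (0 : ℂ)) (𝓝 1) := by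
      refine tendsto_const_nhds.congr' ?_
      filter_upwards [hev] with z hz
      rw [hQz z hz.2, (hne z hz).2.2]
    have h4 := tendsto_nhds_unique h1 h3
    intro h5
    rw [h5, inner_zero_right] at h4
    exact zero_ne_one h4
  · filter_upwards [hev] with z hz
    refine ⟨(inner ℂ p (F z) : ℂ)⁻¹, inv_ne_zero (hne z hz).1, ?_⟩
    rw [hQz z hz.2, hH]

end Pool.Agent.AD.F

end

section

/-!
# G3 Pc4: the derivative of the lift tends to `0` (supporting functions and the limit theorem)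
-/

set_option autoImplicit false

open Topology Filter Metric MeasureTheory Real

namespace Pool.Agent.H56.G3

open Pool.Agent.H36.BP (EN fs wd Sub)
open Pool.Agent.H14.PP (IsCone CurveAt Tan)
open Pool.Agent.AD (Vd)
open Pool.Agent.TG (TMap Gd)
open Pool.Agent.G3 (Cv PS QD Ok Lam Lq Np pf TT)

variable {N k : ℕ} {X : Set (EN N)} {Λ : AddSubgroup (Vd (k + 1))} {u : EN N → Vd (k + 1)} {D : Set (Vd (k + 1))} {Q : EN N → ℂ} {d : ℕ}
  {p : EN N → EN N → ℝ} {m : ℕ} {C C₁ : ℝ}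

theorem pf_add (F : ℂ → EN N) (a z : ℂ) : pf p (fun x => F (a + x)) z = pf p F (a + z) := by
  unfold pf
  rw [deriv_comp_const_add]

theorem Lam_add (F : ℂ → EN N) (h : ℂ → Vd (k + 1)) (a z : ℂ) : Lam Q d p m (fun x => F (a + x)) (fun x => h (a + x)) z = Lam Q d p m F h (a + z) := by
  unfold Lam Np
  rw [pf_add, deriv_comp_const_add]

theorem Ok_add (F : ℂ → EN N) (a z : ℂ) : Ok Q p (fun x => F (a + x)) z ↔ Ok Q p F (a + z) := by
  unfold Ok
  rw [pf_add]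

/-- good points far to the left -/
theorem exists_ok {F : ℂ → EN N} (hisol : ∀ z ∈ {w : ℂ | w.re < 0}, ∀ᶠ w in 𝓝[≠] z, Ok Q p F w) (M : ℝ) : ∃ w : ℂ, M ≤ -w.re ∧ w.re < 0 ∧ Ok Q p F w := by
  have h1 : ((-(|M| + 2) : ℝ) : ℂ) ∈ {w : ℂ | w.re < 0} := by
    show ((-(|M| + 2) : ℝ) : ℂ).re < 0
    rw [Complex.ofReal_re]
    have := abs_nonneg M
    linarith
  have h2 := hisol _ h1
  have h3 : ∀ᶠ w in 𝓝[≠] ((-(|M| + 2) : ℝ) : ℂ), w ∈ ball ((-(|M| + 2) : ℝ) : ℂ) 1 := mem_nhdsWithin_of_mem_nhds (ball_mem_nhds _ one_pos)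
  obtain ⟨w₀, h4, h5⟩ := (h2.and h3).exists
  rw [mem_ball_iff_norm] at h5
  have h6 : |(w₀ - ((-(|M| + 2) : ℝ) : ℂ)).re| ≤ ‖w₀ - ((-(|M| + 2) : ℝ) : ℂ)‖ := Complex.abs_re_le_norm _
  rw [Complex.sub_re, Complex.ofReal_re] at h6
  have h7 := (abs_le.1 h6).2
  have h8 := le_abs_self M
  have h9 := abs_nonneg M
  exact ⟨w₀, by linarith, by linarith, h4⟩

theorem limit_zero (hX : IsCone X) (hps : PS X Λ u D p m C) (hqd : QD X Λ u D Q d) (hC₁ : 0 ≤ C₁) (hroot : RootLog X Λ u Q d p m C₁)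
    (hlct : LCT X Λ u Q d p m) {F : ℂ → EN N} {h : ℂ → Vd (k + 1)} (hc : Cv X Λ u {w | w.re < 0} F h) (hok : ∃ w ∈ {w : ℂ | w.re < 0}, Ok Q p F w)
    {T : ℝ} {G : ℂ → Vd (k + 1)} (hG : ContinuousAt G 0) (hhG : ∀ w : ℂ, w.re < T → deriv h w = G (Complex.exp w)) : G 0 = 0 := by
  by_contra ha
  have hU := isOpen_half 0
  have hisol := ok_isol hX hps hqd hU hc (convex_half 0).isPreconnected hok
  have ha0 : 0 < ‖G 0‖ := norm_pos_iff.2 ha
  -- the derivative is close to `G 0`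
  have hnear : ∀ ε : ℝ, 0 < ε → ∃ M : ℝ, ∀ w : ℂ, M < -w.re → ‖deriv h w - G 0‖ ≤ ε := by
    intro ε hε
    obtain ⟨δ, hδ, hδ'⟩ := Metric.continuousAt_iff.1 hG ε hε
    refine ⟨max (-T) (-Real.log δ), fun w hw => ?_⟩
    have h1 : -T < -w.re := (le_max_left _ _).trans_lt hw
    have h2 : -Real.log δ < -w.re := (le_max_right _ _).trans_lt hw
    rw [hhG w (by linarith)]
    have h3 : dist (Complex.exp w) 0 < δ := by
      rw [dist_zero_right, Complex.norm_exp, ← Real.lt_log_iff_exp_lt hδ]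
      linarith
    rw [← dist_eq_norm]
    exact (hδ' h3).le
  obtain ⟨M₀, hM₀⟩ := hnear (‖G 0‖ / 2) (by positivity)
  obtain ⟨M₁, hM₁⟩ : ∃ M₁ : ℝ, M₁ = max M₀ 1 := ⟨_, rfl⟩
  have hM₁1 : 1 ≤ M₁ := by rw [hM₁]; exact le_max_right _ _
  have hlow : ∀ w : ℂ, M₁ < -w.re → ‖G 0‖ / 2 ≤ ‖deriv h w‖ := by
    intro w hw
    have h1 := hM₀ w ((by rw [hM₁]; exact le_max_left _ _ : M₀ ≤ M₁).trans_lt hw)
    have h2 : ‖G 0‖ ≤ ‖deriv h w‖ + ‖deriv h w - G 0‖ := by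
      calc ‖G 0‖ = ‖deriv h w - (deriv h w - G 0)‖ := by rw [sub_sub_cancel]
        _ ≤ ‖deriv h w‖ + ‖deriv h w - G 0‖ := norm_sub_le _ _
    linarith
  -- the lower bound of the functional
  obtain ⟨S, hS⟩ : ∃ S : Set ℂ, S = {w | M₁ < -w.re ∧ Ok Q p F w} := ⟨_, rfl⟩
  have hS' : ∀ w, w ∈ S ↔ M₁ < -w.re ∧ Ok Q p F w := fun w => by rw [hS]; rfl
  have hSX : ∀ w ∈ S, 0 ≤ Lam Q d p m F h w := fun w hw => by
    have h1 := (hS' w).1 hw
    exact one_le_E hX hqd (hc.mem w (by show w.re < 0; linarith)) h1.2.1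
  obtain ⟨c, hc0⟩ : ∃ c : ℝ, 0 < c ∧ ∀ w ∈ S, c * (-w.re) ^ 2 ≤ 1 + Lam Q d p m F h w := by
    refine ⟨‖G 0‖ ^ 2 / 4 / (C₁ + 1), by positivity, fun w hw => ?_⟩
    have h1 := (hS' w).1 hw
    have ht0 : 0 < -w.re := by linarith
    have h2 := (hroot w (-w.re) F h ht0 (hc.mono (ball_sub_half le_rfl)) h1.2).1
    have h3 : (‖G 0‖ / 2) ^ 2 ≤ ‖deriv h w‖ ^ 2 := pow_le_pow_left₀ (by positivity) (hlow w h1.1) 2
    have h4 := hSX w hw
    rw [div_mul_eq_mul_div, div_le_iff₀ (by linarith)]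
    have h5 : ‖G 0‖ ^ 2 / 4 * (-w.re) ^ 2 ≤ (-w.re) ^ 2 * ‖deriv h w‖ ^ 2 := by
      have h6 := mul_le_mul_of_nonneg_left h3 (sq_nonneg (-w.re))
      calc ‖G 0‖ ^ 2 / 4 * (-w.re) ^ 2 = (-w.re) ^ 2 * (‖G 0‖ / 2) ^ 2 := by ring
        _ ≤ _ := h6
    nlinarith
  obtain ⟨hc0, hclow⟩ := hc0
  have hSne : ∀ M : ℝ, ∃ w ∈ S, M ≤ -w.re := by
    intro M
    obtain ⟨w, h1, -, h3⟩ := exists_ok hisol (max M (M₁ + 1))
    refine ⟨w, (hS' w).2 ⟨?_, h3⟩, (le_max_left _ _).trans h1⟩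
    have := (le_max_right M (M₁ + 1)).trans h1
    linarith
  -- points of support
  have hsup : ∀ n : ℕ, ∃ w ∈ S, ∀ z ∈ S, Lam Q d p m F h w - n * -w.re ≤ Lam Q d p m F h z - n * -z.re + 1 / ((n : ℝ) + 1) := by
    intro n
    obtain ⟨I, hI⟩ : ∃ I : Set ℝ, I = (fun w => Lam Q d p m F h w - n * -w.re) '' S := ⟨_, rfl⟩
    have hIne : I.Nonempty := by
      obtain ⟨w, hw, -⟩ := hSne 0
      rw [hI]
      exact ⟨_, w, hw, rfl⟩
    have hIb : BddBelow I := by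
      refine ⟨-1 - n ^ 2 / (4 * c), ?_⟩
      rw [hI]
      rintro _ ⟨w, hw, rfl⟩
      have h1 := hclow w hw
      simp only
      have h2 : (n : ℝ) * -w.re ≤ c * (-w.re) ^ 2 + n ^ 2 / (4 * c) := by
        have h3 : 0 ≤ c * (-w.re - n / (2 * c)) ^ 2 := by positivity
        have h4 : c * (-w.re - n / (2 * c)) ^ 2 = c * (-w.re) ^ 2 - n * -w.re + n ^ 2 / (4 * c) := by
          field_simp
          ring
        linarith
      linarith
    obtain ⟨x, hx, hx2⟩ := Real.lt_sInf_add_pos hIne (by positivity : (0 : ℝ) < 1 / ((n : ℝ) + 1))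
    rw [hI] at hx
    obtain ⟨w, hw, rfl⟩ := hx
    refine ⟨w, hw, fun z hz => ?_⟩
    have h1 : sInf I ≤ Lam Q d p m F h z - n * -z.re := csInf_le hIb (by rw [hI]; exact ⟨z, hz, rfl⟩)
    simp only at hx2
    linarith
  choose w hwS hw using hsup
  have hn1 : ∀ n : ℕ, 1 / ((n : ℝ) + 1) ≤ 1 := by
    intro n
    rw [div_le_one (by positivity)]
    have : (0 : ℝ) ≤ n := Nat.cast_nonneg n
    linarith
  have htend : Tendsto (fun n => -(w n).re) atTop atTop := by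
    rw [Filter.tendsto_atTop]
    intro M
    obtain ⟨z, hz, hzM⟩ := hSne (M + 1)
    obtain ⟨n₀, hn₀⟩ := exists_nat_ge (Lam Q d p m F h z + 1)
    filter_upwards [eventually_ge_atTop (n₀ + 1)] with n hn
    have h1 := hw n z hz
    have h2 := hSX _ (hwS n)
    have h3 := hn1 n
    have hnr : (n₀ : ℝ) + 1 ≤ n := by exact_mod_cast hn
    by_contra hcon
    push Not at hcon
    have h4 : (n : ℝ) * 1 ≤ n * (-z.re - -(w n).re) := mul_le_mul_of_nonneg_left (by linarith) (Nat.cast_nonneg n)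
    have h5 : (n : ℝ) * (-z.re - -(w n).re) = n * -z.re - n * -(w n).re := by ring
    linarith
  -- the limit theorem
  refine hlct (G 0) (fun n x => F (w n + x)) (fun n x => h (w n + x)) (fun n x => Complex.exp (-(n : ℂ) * x)) ha ?_ ?_ ?_ ?_ ?_
  · intro r
    filter_upwards [htend.eventually_ge_atTop r] with n hn
    refine hc.comp (φ := fun x => w n + x) (by fun_prop) ?_
    intro z hz
    apply ball_sub_half hn
    rw [mem_ball_zero_iff] at hz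
    rw [mem_ball_iff_norm, add_sub_cancel_left]
    exact hz
  · intro n
    rw [Ok_add, add_zero]
    exact ((hS' _).1 (hwS n)).2
  · intro r ε hε
    obtain ⟨M, hM⟩ := hnear ε hε
    filter_upwards [htend.eventually_gt_atTop (M + r)] with n hn z hz
    rw [deriv_comp_const_add]
    apply hM
    rw [mem_ball_zero_iff] at hz
    have h1 := (abs_le.1 ((Complex.abs_re_le_norm z).trans hz.le)).2
    rw [Complex.add_re]
    linarith
  · intro r
    filter_upwards with n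
    refine ⟨by fun_prop, fun z _ => Complex.exp_ne_zero _, by simp⟩
  · intro r ε hε
    have h1 : ∀ᶠ n : ℕ in atTop, 1 / ((n : ℝ) + 1) < ε := (tendsto_one_div_add_atTop_nhds_zero_nat (𝕜 := ℝ)).eventually (gt_mem_nhds hε)
    filter_upwards [htend.eventually_gt_atTop (M₁ + r), h1] with n hn hn2 z hz hokz
    rw [Ok_add] at hokz
    rw [Lam_add, Lam_add, add_zero]
    rw [mem_ball_zero_iff] at hz
    have h2 := (abs_le.1 ((Complex.abs_re_le_norm z).trans hz.le)).2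
    have h3 := hw n (w n + z) ((hS' _).2 ⟨by rw [Complex.add_re]; linarith, hokz⟩)
    rw [Complex.norm_exp, Real.log_exp]
    have h4 : (-(n : ℂ) * z).re = -(n * z.re) := by simp
    rw [h4]
    rw [Complex.add_re] at h3
    have h5 : (n : ℝ) * -((w n).re + z.re) = n * -(w n).re - n * z.re := by ring
    linarith

end Pool.Agent.H56.G3

end

section

/-!
# G3 Pc5: the extension if the derivative of the lift tends to `0`
-/

set_option autoImplicit false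

open Topology Filter Metric MeasureTheory Real

namespace Pool.Agent.H56.G3

open Pool.Agent.H36.BP (EN fs wd Sub Curve)
open Pool.Agent.H14.PP (IsCone CurveAt Tan)
open Pool.Agent.AD (Vd)
open Pool.Agent.TG (TMap Gd)
open Pool.Agent.G3 (Cv PS QD Ok Lam Lq Np pf TT)

variable {N k : ℕ} {X : Set (EN N)} {Λ : AddSubgroup (Vd (k + 1))} {u : EN N → Vd (k + 1)} {D : Set (Vd (k + 1))} {Q : EN N → ℂ} {d : ℕ}
  {p : EN N → EN N → ℝ} {m : ℕ} {C C₁ : ℝ}

/-- local lifts on the punctured disc -/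
theorem local_cv {F₀ : ℂ → EN N} (hF₀ : Curve X (ball 0 1 \ {0}) F₀) {h : ℂ → Vd (k + 1)} (hc : Cv X Λ u {w | w.re < 0} (fun w => F₀ (Complex.exp w)) h)
    {z₁ : ℂ} (hz₁ : z₁ ∈ ball (0 : ℂ) 1 \ {0}) :
    ∃ (U : Set ℂ) (h₁ : ℂ → Vd (k + 1)), IsOpen U ∧ z₁ ∈ U ∧ U ⊆ ball 0 1 \ {0} ∧ Cv X Λ u U F₀ h₁ ∧
      ∀ z ∈ U, ∃ w : ℂ, w.re = Real.log ‖z‖ ∧ Complex.exp w = z ∧ deriv h₁ z = (1 / z) • deriv h w := by
  have hz₁0 : z₁ ≠ 0 := hz₁.2
  obtain ⟨φ, hφ⟩ : ∃ φ : ℂ → ℂ, φ = fun z => Complex.log z₁ + Complex.log (z / z₁) := ⟨_, rfl⟩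
  obtain ⟨U, hU⟩ : ∃ U : Set ℂ, U = ball 0 1 ∩ (fun z : ℂ => z / z₁) ⁻¹' Complex.slitPlane := ⟨_, rfl⟩
  have hUo : IsOpen U := by
    rw [hU]
    exact isOpen_ball.inter (Complex.isOpen_slitPlane.preimage (by fun_prop))
  have hsl : ∀ z ∈ U, z / z₁ ∈ Complex.slitPlane := fun z hz => by
    rw [hU] at hz
    exact hz.2
  have hU0 : ∀ z ∈ U, z ≠ 0 := by
    rintro z hz rfl
    have h1 := hsl 0 hz
    rw [zero_div] at h1
    exact Complex.zero_notMem_slitPlane h1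
  have hU1 : ∀ z ∈ U, ‖z‖ < 1 := by
    intro z hz
    rw [hU] at hz
    simpa using hz.1
  have hexp : ∀ z ∈ U, Complex.exp (φ z) = z := by
    intro z hz
    rw [hφ]
    simp only
    rw [Complex.exp_add, Complex.exp_log hz₁0, Complex.exp_log (div_ne_zero (hU0 z hz) hz₁0)]
    field_simp
  have hre : ∀ z ∈ U, (φ z).re = Real.log ‖z‖ := by
    intro z hz
    have h1 : ‖Complex.exp (φ z)‖ = ‖z‖ := by rw [hexp z hz]
    rw [Complex.norm_exp] at h1
    rw [← h1, Real.log_exp]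
  have hneg : ∀ z ∈ U, (φ z).re < 0 := by
    intro z hz
    rw [hre z hz]
    exact Real.log_neg (norm_pos_iff.2 (hU0 z hz)) (hU1 z hz)
  have hder : ∀ z ∈ U, HasDerivAt φ (1 / z) z := by
    intro z hz
    rw [hφ]
    have h1 : HasDerivAt (fun z : ℂ => z / z₁) (1 / z₁) z := (hasDerivAt_id z).div_const z₁
    have h2 := (h1.clog (hsl z hz)).const_add (Complex.log z₁)
    have h3 : 1 / z₁ / (z / z₁) = 1 / z := by
      have := hU0 z hz
      field_simp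
    rwa [h3] at h2
  have hsub : U ⊆ ball 0 1 \ {0} := fun z hz => ⟨by simpa using hU1 z hz, hU0 z hz⟩
  refine ⟨U, fun z => h (φ z), hUo, ?_, hsub, ?_, ?_⟩
  · rw [hU]
    refine ⟨hz₁.1, ?_⟩
    simp only [Set.mem_preimage]
    rw [div_self hz₁0]
    exact Complex.one_mem_slitPlane
  · refine ⟨hF₀.1.mono hsub, ?_, fun z hz => hF₀.2 z (hsub hz), ?_⟩
    · refine hc.h_diff.comp (fun z hz => (hder z hz).differentiableAt.differentiableWithinAt) hneg
    · intro z hz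
      have h1 := hc.lift (φ z) (hneg z hz)
      rw [hexp z hz] at h1
      exact h1
  · intro z hz
    refine ⟨φ z, hre z hz, hexp z hz, ?_⟩
    have h1 : DifferentiableAt ℂ h (φ z) := hc.h_diff.differentiableAt ((isOpen_half 0).mem_nhds (hneg z hz))
    exact (h1.hasDerivAt.scomp z (hder z hz)).deriv

/-- circles without degenerate points -/
theorem good_circle {P : ℂ → Prop} (h : ∀ z ∈ {w : ℂ | w.re < 0}, ∀ᶠ w in 𝓝[≠] z, P w) {a b : ℝ} (hab : a < b) (hb : b ≤ 0) :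
    ∃ x : ℝ, a < x ∧ x < b ∧ ∀ w : ℂ, w.re = x → P w := by
  have h1 := (countable_bad h).image Complex.re
  have h2 := h1.dense_compl ℝ
  obtain ⟨x, hx1, hx2⟩ := h2.exists_between hab
  refine ⟨x, hx2.1, hx2.2, fun w hw => ?_⟩
  by_contra hcon
  apply hx1
  refine ⟨w, ⟨?_, hcon⟩, hw⟩
  show w.re < 0
  rw [hw]
  linarith [hx2.2]

theorem ext_of_zero (hX : IsCone X) (hps : PS X Λ u D p m C) (hqd : QD X Λ u D Q d) {C₂ : ℝ} (hC₂ : 0 < C₂) (hahl : Ahl X Λ u p m C₂)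
    {F₀ : ℂ → EN N} (hF₀ : Curve X (ball 0 1 \ {0}) F₀) {h : ℂ → Vd (k + 1)} (hc : Cv X Λ u {w | w.re < 0} (fun w => F₀ (Complex.exp w)) h)
    (hok : ∃ w ∈ {w : ℂ | w.re < 0}, Ok Q p (fun w => F₀ (Complex.exp w)) w)
    {T : ℝ} {G : ℂ → Vd (k + 1)} (hG : DifferentiableAt ℂ G 0) (hhG : ∀ w : ℂ, w.re < T → deriv h w = G (Complex.exp w)) (hG0 : G 0 = 0) :
    ∃ A : ℂ → EN N, AnalyticAt ℂ A 0 ∧ A 0 ≠ 0 ∧ ∀ᶠ z in 𝓝[≠] (0 : ℂ), ∃ k : ℂ, k ≠ 0 ∧ A z = k • F₀ z := by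
  have hUo := isOpen_half 0
  have hisol := ok_isol hX hps hqd hUo hc (convex_half 0).isPreconnected hok
  have hC := hps.C_ge
  -- the bound of the derivative of the lift
  obtain ⟨H, hH0, s, hs0, hHs⟩ : ∃ H : ℝ, 0 ≤ H ∧ ∃ s : ℝ, 0 < s ∧ ∀ z : ℂ, ‖z‖ < s → ‖G z‖ ≤ H * ‖z‖ := by
    have h1 := hG.isBigO_sub
    obtain ⟨c, hc0, hc1⟩ := h1.exists_nonneg
    rw [Asymptotics.isBigOWith_iff] at hc1
    obtain ⟨s, hs, hs1⟩ := Metric.eventually_nhds_iff.1 hc1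
    refine ⟨c, hc0, s, hs, fun z hz => ?_⟩
    have h2 := hs1 (y := z) (by rwa [dist_zero_right])
    rwa [hG0, sub_zero, sub_zero] at h2
  obtain ⟨T₁, hT₁⟩ : ∃ T₁ : ℝ, T₁ = min (min T (Real.log s)) 0 := ⟨_, rfl⟩
  have hT₁T : T₁ ≤ T := by rw [hT₁]; exact (min_le_left _ _).trans (min_le_left _ _)
  have hT₁s : T₁ ≤ Real.log s := by rw [hT₁]; exact (min_le_left _ _).trans (min_le_right _ _)
  have hT₁0 : T₁ ≤ 0 := by rw [hT₁]; exact min_le_right _ _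
  have hder : ∀ w : ℂ, w.re < T₁ → ‖deriv h w‖ ≤ H * ‖Complex.exp w‖ := by
    intro w hw
    rw [hhG w (by linarith)]
    apply hHs
    rw [Complex.norm_exp, ← Real.lt_log_iff_exp_lt hs0]
    linarith
  -- the bound of `p`
  obtain ⟨B, hB⟩ : ∃ B : ℝ, B = (C₂ * (1 / 1 + H)) ^ m := ⟨_, rfl⟩
  have hB0 : 0 < B := by
    rw [hB]
    exact pow_pos (mul_pos hC₂ (by positivity)) m
  have hpB : ∀ w : ℂ, w.re < T₁ - 1 → pf p (fun w => F₀ (Complex.exp w)) w ≤ B := by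
    intro w hw
    rw [hB]
    have hre : ∀ z ∈ ball w 1, z.re < T₁ := by
      intro z hz
      rw [mem_ball_iff_norm] at hz
      have h6 : |(z - w).re| ≤ ‖z - w‖ := Complex.abs_re_le_norm _
      rw [Complex.sub_re] at h6
      have h7 := (abs_le.1 h6).2
      linarith
    refine hahl _ h w 1 H one_pos hH0 (hc.mono fun z hz => ?_) ?_
    · show z.re < 0
      linarith [hre z hz]
    · intro z hz
      refine (hder z (hre z hz)).trans ?_
      have h1 : ‖Complex.exp z‖ ≤ 1 := by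
        rw [Complex.norm_exp, Real.exp_le_one_iff]
        linarith [hre z hz]
      calc H * ‖Complex.exp z‖ ≤ H * 1 := mul_le_mul_of_nonneg_left h1 hH0
        _ = H := mul_one H
  -- `p` on the punctured disc
  have hpf : ∀ z ∈ ball (0 : ℂ) 1 \ {0}, pf p (fun w => F₀ (Complex.exp w)) (Complex.log z) = ‖z‖ ^ m * pf p F₀ z := by
    intro z hz
    have hz0 : z ≠ 0 := hz.2
    obtain ⟨U, h₁, hU1, hU2, hU3, hU4, -⟩ := local_cv hF₀ hc hz
    have h2 := pf_comp hU1 hU4 hps (φ := Complex.exp) (z := Complex.log z) Complex.differentiableAt_exp (by rw [Complex.exp_log hz0]; exact hU2)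
    rw [h2, Complex.deriv_exp, Complex.exp_log hz0]
  obtain ⟨r₁, hr₁⟩ : ∃ r₁ : ℝ, r₁ = Real.exp (T₁ - 1) := ⟨_, rfl⟩
  have hr₁0 : 0 < r₁ := by rw [hr₁]; exact Real.exp_pos _
  have hr₁1 : r₁ ≤ 1 := by
    rw [hr₁, Real.exp_le_one_iff]
    linarith
  have hmem : ∀ z ∈ ball (0 : ℂ) r₁ \ {0}, z ∈ ball (0 : ℂ) 1 \ {0} := fun z hz => ⟨ball_subset_ball hr₁1 hz.1, hz.2⟩
  have hlogre : ∀ z ∈ ball (0 : ℂ) r₁ \ {0}, Real.log ‖z‖ < T₁ - 1 := by
    intro z hz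
    have hz0 : 0 < ‖z‖ := norm_pos_iff.2 hz.2
    rw [Real.log_lt_iff_lt_exp hz0, ← hr₁]
    simpa using hz.1
  obtain ⟨a, ha⟩ : ∃ a : ℝ, a = C * H ^ 2 := ⟨_, rfl⟩
  have ha0 : 0 ≤ a := by rw [ha]; positivity
  obtain ⟨c₀, hc₀⟩ : ∃ c₀ : ℝ, c₀ = (B * Real.exp a)⁻¹ := ⟨_, rfl⟩
  have hc₀0 : 0 < c₀ := by rw [hc₀]; positivity
  obtain ⟨R, hR⟩ : ∃ R : ℂ → ℝ, R = fun z => c₀ * (‖z ^ m‖ * pf p F₀ z * Real.exp (a * ‖z‖ ^ 2)) := ⟨_, rfl⟩
  have hpn : ∀ z, 0 ≤ pf p F₀ z := fun z => hps.nonneg _ _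
  have hRc : ContinuousOn R (ball 0 r₁ \ {0}) := by
    intro z hz
    obtain ⟨U, h₁, hU1, hU2, hU3, hU4, -⟩ := local_cv hF₀ hc (hmem z hz)
    have h1 := ((hps.cont U F₀ h₁ hU1 hU4).continuousAt (hU1.mem_nhds hU2))
    rw [hR]
    refine ContinuousAt.continuousWithinAt ?_
    refine continuousAt_const.mul ((ContinuousAt.mul ?_ h1).mul ?_)
    · fun_prop
    · fun_prop
  have hR0 : ∀ z ∈ ball (0 : ℂ) r₁ \ {0}, 0 ≤ R z := by
    intro z _
    rw [hR]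
    have := hpn z
    positivity
  have hR1 : ∀ z ∈ ball (0 : ℂ) r₁ \ {0}, R z ≤ 1 := by
    intro z hz
    have h1 := hpf z (hmem z hz)
    have h2 := hpB (Complex.log z) (by rw [Complex.log_re]; exact hlogre z hz)
    rw [h1] at h2
    have h3 : Real.exp (a * ‖z‖ ^ 2) ≤ Real.exp a := by
      apply Real.exp_le_exp.2
      have h4 : ‖z‖ ≤ 1 := by
        have := hz.1
        rw [mem_ball_zero_iff] at this
        linarith
      have h5 : ‖z‖ ^ 2 ≤ 1 := pow_le_one₀ (norm_nonneg z) h4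
      nlinarith
    rw [hR, hc₀]
    simp only
    rw [norm_pow, inv_mul_le_one₀ (by positivity)]
    exact mul_le_mul h2 h3 (Real.exp_pos _).le hB0.le
  have hRs : ∀ z ∈ ball (0 : ℂ) r₁ \ {0}, 0 < R z → Sub R z (1 / 2 * fs (F₀ z) (deriv F₀ z) ^ 2) := by
    intro z hz hpos
    have hz0 : z ≠ 0 := hz.2
    have hp0 : 0 < pf p F₀ z := by
      rcases (hpn z).eq_or_lt with h1 | h1
      · rw [hR] at hpos
        simp only at hpos
        rw [← h1, mul_zero, zero_mul, mul_zero] at hpos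
        exact absurd hpos (lt_irrefl _)
      · exact h1
    obtain ⟨U, h₁, hU1, hU2, hU3, hU4, hU5⟩ := local_cv hF₀ hc (hmem z hz)
    obtain ⟨w, hw1, hw2, hw3⟩ := hU5 z hU2
    have h2 := hps.sub U F₀ h₁ hU1 hU4 z hU2 hp0
    have hzn : 0 < ‖z‖ := norm_pos_iff.2 hz0
    have h3 : ‖deriv h₁ z‖ ≤ H := by
      rw [hw3, norm_smul, norm_div, norm_one]
      have h4 := hder w (by rw [hw1]; linarith [hlogre z hz])
      rw [hw2] at h4
      calc 1 / ‖z‖ * ‖deriv h w‖ ≤ 1 / ‖z‖ * (H * ‖z‖) := mul_le_mul_of_nonneg_left h4 (by positivity)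
        _ = H := by field_simp
    have h5 : Sub (fun z : ℂ => ‖z ^ m‖) z 0 := Sub.of_holo (h := fun z => z ^ m) (by fun_prop) (pow_ne_zero m hz0)
    have h6 : Sub (fun z : ℂ => Real.exp (a * ‖z‖ ^ 2)) z (a * ‖deriv (fun z : ℂ => z) z‖ ^ 2) := Sub.exp_sq (t := fun z => z) analyticAt_id a
    have h7 := ((h5.mul h2).mul h6).const_mul hc₀0
    rw [hR]
    refine h7.anti ?_
    have h8 : deriv (fun z : ℂ => z) z = 1 := deriv_id z
    rw [h8, norm_one]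
    have h9 : C * ‖deriv h₁ z‖ ^ 2 ≤ a := by
      rw [ha]
      exact mul_le_mul_of_nonneg_left (pow_le_pow_left₀ (norm_nonneg _) h3 2) (by linarith)
    linarith
  -- the circles
  obtain ⟨x₂, hx₂a, hx₂b, hx₂⟩ := good_circle hisol (a := T₁ - 2) (b := T₁ - 1) (by linarith) (by linarith)
  obtain ⟨x₁, hx₁a, hx₁b, hx₁⟩ := good_circle hisol (a := T₁ - 3) (b := T₁ - 2) (by linarith) (by linarith)
  have hposx : ∀ x : ℝ, x < T₁ - 1 → (∀ w : ℂ, w.re = x → Ok Q p (fun w => F₀ (Complex.exp w)) w) → ∀ z : ℂ, ‖z‖ = Real.exp x → 0 < R z := by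
    intro x hx hxo z hz
    have hz0 : z ≠ 0 := by
      rw [← norm_pos_iff, hz]
      exact Real.exp_pos _
    have hzm : z ∈ ball (0 : ℂ) 1 \ {0} := by
      refine ⟨?_, hz0⟩
      rw [mem_ball_zero_iff, hz, Real.exp_lt_one_iff]
      linarith
    have h1 := (hxo (Complex.log z) (by rw [Complex.log_re, hz, Real.log_exp])).2
    rw [hpf z hzm] at h1
    rw [hR]
    simp only
    rw [norm_pow]
    positivity
  refine Pool.Agent.AD.F.removable (κ := 1 / 2) (s₁ := Real.exp x₁) (s₂ := Real.exp x₂) (r₁ := r₁) (by norm_num) (Real.exp_pos _)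
    (Real.exp_lt_exp.2 (by linarith)) ?_ hr₁1 hF₀.1 (fun z hz h0 => hX.zero_notMem (h0 ▸ hF₀.2 z hz)) hRc hR0 hR1 hRs ?_
  · rw [hr₁]
    exact Real.exp_lt_exp.2 (by linarith)
  · rintro z (hz | hz)
    · exact hposx x₁ (by linarith) hx₁ z hz
    · exact hposx x₂ (by linarith) hx₂ z hz

end Pool.Agent.H56.G3

end

section

/-!
# G3 Pc6: lifts of maps of the half plane to the torus
-/

set_option autoImplicit false

open Topology Filter Metric

namespace Pool.Agent.H56.G3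

open Pool.Agent.H36.BP (EN fs wd)
open Pool.Agent.H14.PP (IsCone CurveAt Tan)
open Pool.Agent.H22.W (tan_curve)
open Pool.Agent.AD (Vd Charts TorusMapV DiscreteSub deriv_comp_lift eventually_const_of_mem)

/-- primitives on the half plane -/
theorem half_primitive {E : Type*} [NormedAddCommGroup E] [NormedSpace ℂ E] [CompleteSpace E] {ψ : ℂ → E} (hψ : DifferentiableOn ℂ ψ {w | w.re < 0}) :
    ∃ g : ℂ → E, ∀ z ∈ {w : ℂ | w.re < 0}, HasDerivAt g (ψ z) z := by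
  -- the map `ζ ↦ (ζ + 1) / (ζ - 1)` of the disc onto the half plane is an involution
  obtain ⟨c, hc⟩ : ∃ c : ℂ → ℂ, c = fun ζ => (ζ + 1) / (ζ - 1) := ⟨_, rfl⟩
  have hcd : ∀ ζ : ℂ, ζ ≠ 1 → HasDerivAt c (-2 / (ζ - 1) ^ 2) ζ := by
    intro ζ hζ
    have h1 : ζ - 1 ≠ 0 := sub_ne_zero.2 hζ
    have h2 := ((hasDerivAt_id ζ).add_const (1 : ℂ)).div ((hasDerivAt_id ζ).sub_const (1 : ℂ)) h1
    rw [hc]
    convert! h2 using 1
    simp only [id]
    congr 1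
    ring
  have hcc : ∀ z : ℂ, z ≠ 1 → c (c z) = z := by
    intro z hz
    have h1 : z - 1 ≠ 0 := sub_ne_zero.2 hz
    have h2 : (z + 1) / (z - 1) - 1 = 2 / (z - 1) := by
      field_simp
      ring
    rw [hc]
    simp only
    rw [h2]
    field_simp
    ring
  have hne : ∀ z ∈ {w : ℂ | w.re < 0}, z ≠ 1 := by
    rintro z hz rfl
    have : (1 : ℂ).re < 0 := hz
    rw [Complex.one_re] at this
    linarith
  have hcne : ∀ z : ℂ, z ≠ 1 → c z ≠ 1 := by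
    intro z hz h
    have h1 : z - 1 ≠ 0 := sub_ne_zero.2 hz
    rw [hc] at h
    simp only at h
    rw [div_eq_one_iff_eq h1] at h
    have h2 : (2 : ℂ) = 0 := by linear_combination h
    exact two_ne_zero h2
  have hball : ∀ z ∈ {w : ℂ | w.re < 0}, c z ∈ ball (0 : ℂ) 1 := by
    intro z hz
    have hz' : z.re < 0 := hz
    have h1 : z - 1 ≠ 0 := sub_ne_zero.2 (hne z hz)
    rw [mem_ball_zero_iff, hc]
    simp only
    rw [norm_div, div_lt_one (norm_pos_iff.2 h1)]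
    have h2 : ‖z + 1‖ ^ 2 < ‖z - 1‖ ^ 2 := by
      rw [← Complex.normSq_eq_norm_sq, ← Complex.normSq_eq_norm_sq, Complex.normSq_apply, Complex.normSq_apply]
      simp only [Complex.add_re, Complex.one_re, Complex.add_im, Complex.one_im, Complex.sub_re, Complex.sub_im]
      nlinarith
    exact lt_of_pow_lt_pow_left₀ 2 (norm_nonneg _) h2
  have hhalf : ∀ ζ ∈ ball (0 : ℂ) 1, ζ ≠ 1 ∧ (c ζ).re < 0 := by
    intro ζ hζ
    rw [mem_ball_zero_iff] at hζ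
    have hζ1 : ζ ≠ 1 := by
      rintro rfl
      rw [norm_one] at hζ
      exact lt_irrefl _ hζ
    have h1 : ζ - 1 ≠ 0 := sub_ne_zero.2 hζ1
    refine ⟨hζ1, ?_⟩
    rw [hc]
    simp only
    rw [Complex.div_re]
    have h3 : 0 < Complex.normSq (ζ - 1) := Complex.normSq_pos.2 h1
    have h4 : ‖ζ‖ ^ 2 < 1 := by
      have := norm_nonneg ζ
      nlinarith
    rw [← Complex.normSq_eq_norm_sq, Complex.normSq_apply] at h4
    simp only [Complex.add_re, Complex.one_re, Complex.add_im, Complex.one_im, Complex.sub_re, Complex.sub_im, add_zero, sub_zero]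
    rw [← add_div]
    apply div_neg_of_neg_of_pos _ h3
    nlinarith
  have hψc : DifferentiableOn ℂ (fun ζ => (-2 / (ζ - 1) ^ 2) • ψ (c ζ)) (ball 0 1) := by
    intro ζ hζ
    obtain ⟨h1, h2⟩ := hhalf ζ hζ
    have h3 : ζ - 1 ≠ 0 := sub_ne_zero.2 h1
    have h4 : DifferentiableAt ℂ ψ (c ζ) := hψ.differentiableAt ((isOpen_half 0).mem_nhds h2)
    have h5 : DifferentiableAt ℂ (fun ζ => ψ (c ζ)) ζ := h4.comp ζ (hcd ζ h1).differentiableAt
    have h6 : DifferentiableAt ℂ (fun ζ : ℂ => -2 / (ζ - 1) ^ 2) ζ := by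
      refine DifferentiableAt.div (by fun_prop) (by fun_prop) (pow_ne_zero 2 h3)
    exact (h6.smul h5).differentiableWithinAt
  obtain ⟨g, hg⟩ := hψc.isExactOn_ball
  refine ⟨fun z => g (c z), fun z hz => ?_⟩
  have h1 := hne z hz
  have h2 := hg (c z) (hball z hz)
  simp only [hcc z h1] at h2
  have h3 := h2.scomp z (hcd z h1)
  convert! h3 using 1
  rw [smul_smul]
  have h4 : z - 1 ≠ 0 := sub_ne_zero.2 h1
  have h5 : c z - 1 = 2 / (z - 1) := by
    rw [hc]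
    field_simp
    ring
  have h6 : -2 / (z - 1) ^ 2 * (-2 / (c z - 1) ^ 2) = 1 := by
    rw [h5]
    field_simp
  rw [h6, one_smul]

variable {N n : ℕ} {X : Set (EN N)} {Λ : AddSubgroup (Vd n)} {u : EN N → Vd n}

/-- the composition of a curve and the map to the torus lifts to `ℂ^n` -/
theorem lift_conn (hX : IsCone X) (hu : TorusMapV X Λ u) (hΛ : DiscreteSub Λ) {U : Set ℂ} (hU : IsOpen U) (hpre : IsPreconnected U)
    (hprim : ∀ ψ : ℂ → Vd n, DifferentiableOn ℂ ψ U → ∃ g : ℂ → Vd n, ∀ z ∈ U, HasDerivAt g (ψ z) z)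
    {F : ℂ → EN N} (hF : DifferentiableOn ℂ F U) (hFX : ∀ z ∈ U, F z ∈ X) {ζ₀ : ℂ} (hζ₀ : ζ₀ ∈ U) :
    ∃ φ : ℂ → Vd n, DifferentiableOn ℂ φ U ∧ ∀ z ∈ U, u (F z) - φ z ∈ Λ := by
  have hcv : ∀ z ∈ U, CurveAt X F z := by
    intro z hz
    refine ⟨hF.analyticAt (hU.mem_nhds hz), ?_⟩
    filter_upwards [hU.mem_nhds hz] with w hw
    exact hFX w hw
  obtain ⟨ψ, hψ⟩ : ∃ ψ : ℂ → Vd n, ψ = fun z => hu.du (F z) (deriv F z) := ⟨_, rfl⟩
  have hψd : DifferentiableOn ℂ ψ U := by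
    rw [differentiableOn_pi]
    intro j z hz
    have h1 := ((hu.symDiff hΛ hX j).curve_an (F := F) (z₀ := z) (hcv z hz)).differentiableAt
    rw [hψ]
    exact h1.differentiableWithinAt
  obtain ⟨g, hg⟩ := hprim ψ hψd
  obtain ⟨φ, hφ⟩ : ∃ φ : ℂ → Vd n, φ = fun z => u (F ζ₀) + (g z - g ζ₀) := ⟨_, rfl⟩
  have hφd : ∀ z ∈ U, HasDerivAt φ (ψ z) z := by
    intro z hz
    rw [hφ]
    exact ((hg z hz).sub_const (g ζ₀)).const_add (u (F ζ₀))
  refine ⟨φ, fun z hz => (hφd z hz).differentiableAt.differentiableWithinAt, ?_⟩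
  obtain ⟨c, hc⟩ : ∃ c : ℂ → Vd n ⧸ Λ, c = fun z => (QuotientAddGroup.mk (u (F z) - φ z) : Vd n ⧸ Λ) := ⟨_, rfl⟩
  have hlc : ∀ z₀ ∈ U, ∀ᶠ z in 𝓝 z₀, c z = c z₀ := by
    intro z₀ hz₀
    have hx := hFX z₀ hz₀
    have hl := hu.lift_an hx
    have hcont : Tendsto F (𝓝 z₀) (𝓝 (F z₀)) := (hcv z₀ hz₀).1.continuousAt.tendsto
    obtain ⟨h, hh⟩ : ∃ h : ℂ → Vd n, h = fun z => hu.lift (F z₀) (F z) - φ z := ⟨_, rfl⟩
    have hder : ∀ᶠ z in 𝓝 z₀, deriv h z = 0 ∧ DifferentiableAt ℂ h z := by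
      filter_upwards [hcont.eventually hl.eventually_analyticAt, hcont.eventually (hu.lift_mem hx).eventually_nhds, hU.mem_nhds hz₀] with z h1 h2 hzU
      have h3 : AnalyticAt ℂ (fun z => hu.lift (F z₀) (F z)) z :=
        AnalyticAt.comp (g := hu.lift (F z₀)) (f := F) h1 (hcv z hzU).1
      have h5 : HasDerivAt h (deriv (fun z => hu.lift (F z₀) (F z)) z - ψ z) z := by
        rw [hh]
        exact h3.differentiableAt.hasDerivAt.sub (hφd z hzU)
      refine ⟨?_, h5.differentiableAt⟩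
      rw [h5.deriv, deriv_comp_lift (hcv z hzU).1 h1, ← hu.du_eq hΛ (tan_curve (hcv z hzU)) h1 h2, hψ, sub_self]
    obtain ⟨r, hr, hball⟩ := Metric.eventually_nhds_iff_ball.1 hder
    have hconst : ∀ z ∈ ball z₀ r, h z = h z₀ := by
      intro z hz
      exact (convex_ball z₀ r).is_const_of_fderivWithin_eq_zero (𝕜 := ℂ) (fun y hy => (hball y hy).2.differentiableWithinAt)
        (fun y hy => by
          rw [fderivWithin_of_isOpen isOpen_ball hy]
          ext1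
          exact (hball y hy).1) hz (mem_ball_self hr)
    filter_upwards [hcont.eventually (hu.lift_mem hx), isOpen_ball.mem_nhds (mem_ball_self hr), hU.mem_nhds hz₀] with z h1 h2 hzU
    have h3 := h1 (hFX z hzU)
    have h4 := (hu.lift_mem hx).self_of_nhds hx
    have h5 := hconst z h2
    rw [hh] at h5
    simp only at h5
    rw [hc]
    simp only
    rw [QuotientAddGroup.eq]
    have h6 := Λ.sub_mem h4 h3
    have h7 : -(u (F z) - φ z) + (u (F z₀) - φ z₀) = (u (F z₀) - hu.lift (F z₀) (F z₀)) - (u (F z) - hu.lift (F z₀) (F z)) +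
        ((hu.lift (F z₀) (F z₀) - φ z₀) - (hu.lift (F z₀) (F z) - φ z)) := by abel
    rw [h7, h5, sub_self, add_zero]
    exact h6
  obtain ⟨A, hA⟩ : ∃ A : Set ℂ, A = {z | z ∈ U ∧ c z = c ζ₀} := ⟨_, rfl⟩
  have hAo : IsOpen A := by
    rw [hA, isOpen_iff_mem_nhds]
    rintro z ⟨hz, hz2⟩
    filter_upwards [hlc z hz, hU.mem_nhds hz] with w hw hwU
    exact ⟨hwU, hw.trans hz2⟩
  have hAcl : closure A ∩ U ⊆ A := by
    rintro z ⟨hz1, hz2⟩
    have h1 : ∃ᶠ w in 𝓝 z, w ∈ A := mem_closure_iff_frequently.1 hz1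
    obtain ⟨w, hw1, hw2⟩ := (h1.and_eventually (hlc z hz2)).exists
    rw [hA] at hw1 ⊢
    exact ⟨hz2, hw2.symm.trans hw1.2⟩
  have hsub : U ⊆ A := hpre.subset_of_closure_inter_subset hAo ⟨ζ₀, hζ₀, by rw [hA]; exact ⟨hζ₀, rfl⟩⟩ hAcl
  intro z hz
  have h1 := hsub hz
  rw [hA, hc] at h1
  have h3 := h1.2
  simp only at h3
  rw [eq_comm, QuotientAddGroup.eq] at h3
  have h2 : u (F ζ₀) - φ ζ₀ = 0 := by
    rw [hφ]
    simp
  rwa [h2, neg_zero, zero_add] at h3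

end Pool.Agent.H56.G3

end

section

/-!
# G3 Pc7: extension over the puncture
-/

set_option autoImplicit false

open Topology Filter Metric

namespace Pool.Agent.H56.G3

open Pool.Agent.H36.BP (EN fs wd Sub Curve)
open Pool.Agent.H14.PP (IsCone CurveAt Tan)
open Pool.Agent.AD (Vd TorusMapV DiscreteSub deriv_eq_of_mem)
open Pool.Agent.TG (TMap Lat Gd)
open Pool.Agent.G3 (Cv PS QD Ok Lam Lq Np pf TT)

variable {N k : ℕ} {X : Set (EN N)} {Λ : AddSubgroup (Vd (k + 1))} {u : EN N → Vd (k + 1)} {D : Set (Vd (k + 1))} {Q : EN N → ℂ} {d : ℕ}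
  {p : EN N → EN N → ℝ} {m : ℕ} {C C₁ : ℝ}

/-- the limit theorem for sequences -/
theorem lct_seq (h : Pool.Agent.G3.LCT X Λ u Q d p m) : LCT X Λ u Q d p m := by
  intro a F hh E ha h1 h2 h3 h4 h5
  have hle : ((Filter.hyperfilter ℕ : Ultrafilter ℕ) : Filter ℕ) ≤ atTop := by
    rw [← Nat.cofinite_eq_atTop]
    exact Filter.hyperfilter_le_cofinite
  refine h (Filter.hyperfilter ℕ) a F hh E ha (fun r => (h1 r).filter_mono hle) (Eventually.of_forall h2) (fun r ε hε => (h3 r ε hε).filter_mono hle)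
    (fun r => (h4 r).filter_mono hle) (fun r ε hε => ?_)
  filter_upwards [(h5 r ε hε).filter_mono hle] with n hn z hz hok
  have := hn z hz hok
  linarith

theorem exp_mem' {w : ℂ} (h : w.re < 0) : Complex.exp w ∈ ball (0 : ℂ) 1 \ {0} := by
  refine ⟨?_, Complex.exp_ne_zero w⟩
  rw [mem_ball_zero_iff, Complex.norm_exp, Real.exp_lt_one_iff]
  exact h

/-- a curve without good points is constant in the projective space -/
theorem ext_const (hX : IsCone X) (hD : IsClosed D) (hps : PS X Λ u D p m C) (hqd : QD X Λ u D Q d) {F₀ : ℂ → EN N}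
    (hF₀ : Curve X (ball 0 1 \ {0}) F₀) {h : ℂ → Vd (k + 1)} (hc : Cv X Λ u {w | w.re < 0} (fun w => F₀ (Complex.exp w)) h)
    (h0 : ∃ z ∈ ball (0 : ℂ) 1 \ {0}, Q (F₀ z) ≠ 0) (hok : ¬ ∃ w ∈ {w : ℂ | w.re < 0}, Ok Q p (fun w => F₀ (Complex.exp w)) w) :
    ∃ A : ℂ → EN N, AnalyticAt ℂ A 0 ∧ A 0 ≠ 0 ∧ ∀ᶠ z in 𝓝[≠] (0 : ℂ), ∃ k : ℂ, k ≠ 0 ∧ A z = k • F₀ z := by
  have hUo : IsOpen (ball (0 : ℂ) 1 \ {0}) := isOpen_ball.sdiff isClosed_singleton
  have hne : ∀ z ∈ ball (0 : ℂ) 1 \ {0}, F₀ z ≠ 0 := fun z hz h0 => hX.zero_notMem (h0 ▸ hF₀.2 z hz)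
  -- good points of the punctured disc
  have hfs0 : ∀ z ∈ ball (0 : ℂ) 1 \ {0}, Q (F₀ z) ≠ 0 → fs (F₀ z) (deriv F₀ z) = 0 := by
    intro z hz hQ
    have hz0 : z ≠ 0 := hz.2
    have hzn : 0 < ‖z‖ := norm_pos_iff.2 hz0
    have hre : (Complex.log z).re < 0 := by
      rw [Complex.log_re]
      exact Real.log_neg hzn (by simpa using hz.1)
    obtain ⟨U, h₁, hU1, hU2, hU3, hU4, -⟩ := local_cv hF₀ hc hz
    have hy : h₁ z ∉ D := fun hyD => hQ (hqd.zero _ (hF₀.2 z hz) _ hyD (hU4.lift z hU2))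
    obtain ⟨δ, hδ, hδ'⟩ : ∃ δ : ℝ, 0 < δ ∧ h₁ z ∈ Gd D δ := by
      have h1 : Dᶜ ∈ 𝓝 (h₁ z) := hD.isOpen_compl.mem_nhds hy
      obtain ⟨δ, hδ, hδ'⟩ := Metric.mem_nhds_iff.1 h1
      refine ⟨δ, hδ, fun b hb => ?_⟩
      by_contra hcon
      push Not at hcon
      have h2 : b ∈ ball (h₁ z) δ := by
        rw [mem_ball_iff_norm, norm_sub_rev]
        exact hcon
      exact hδ' h2 hb
    obtain ⟨c, hc0, hc1⟩ := hps.ge_fs δ hδ
    have h3 := hc1 (h₁ z) hδ' (F₀ z) (hF₀.2 z hz) (hU4.lift z hU2) (deriv F₀ z) (hU4.tan hU1 hU2)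
    have h4 : p (F₀ z) (deriv F₀ z) ≤ 0 := by
      by_contra hcon
      push Not at hcon
      apply hok
      refine ⟨Complex.log z, hre, ?_, ?_⟩
      · simp only [Complex.exp_log hz0]
        exact hQ
      · have h5 := pf_comp hU1 hU4 hps (φ := Complex.exp) (z := Complex.log z) Complex.differentiableAt_exp (by rw [Complex.exp_log hz0]; exact hU2)
        rw [h5, Complex.deriv_exp, Complex.exp_log hz0]
        exact mul_pos (pow_pos hzn m) hcon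
    have h6 : 0 ≤ fs (F₀ z) (deriv F₀ z) := by
      unfold fs wd
      positivity
    by_contra h7
    have h8 : 0 < fs (F₀ z) (deriv F₀ z) ^ m := pow_pos (lt_of_le_of_ne h6 (Ne.symm h7)) m
    nlinarith
  -- all points
  have hfs : ∀ z ∈ ball (0 : ℂ) 1 \ {0}, fs (F₀ z) (deriv F₀ z) = 0 := by
    intro z hz
    have hq : DifferentiableOn ℂ (fun z => Q (F₀ z)) (ball 0 1 \ {0}) := hqd.diff.comp_differentiableOn hF₀.1
    have ha : AnalyticOnNhd ℂ (fun z => Q (F₀ z)) (ball 0 1 \ {0}) := hq.analyticOnNhd hUo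
    obtain ⟨z₁, hz₁, hQ₁⟩ := h0
    have h1 : ∀ᶠ w in 𝓝[≠] z, Q (F₀ w) ≠ 0 := by
      rcases (ha z hz).eventually_eq_zero_or_eventually_ne_zero with h2 | h2
      · exact absurd (ha.eqOn_zero_of_preconnected_of_eventuallyEq_zero Pool.Agent.H36.BP.preconnected_puncturedDisc hz h2 hz₁) hQ₁
      · exact h2
    have h3 : ∀ᶠ w in 𝓝[≠] z, fs (F₀ w) (deriv F₀ w) = 0 := by
      filter_upwards [h1, mem_nhdsWithin_of_mem_nhds (hUo.mem_nhds hz)] with w hw hw2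
      exact hfs0 w hw2 hw
    have hcF : ContinuousAt F₀ z := hF₀.1.continuousOn.continuousAt (hUo.mem_nhds hz)
    have hcF' : ContinuousAt (deriv F₀) z := (hF₀.1.deriv hUo).continuousOn.continuousAt (hUo.mem_nhds hz)
    have h4 : ContinuousAt (fun w => fs (F₀ w) (deriv F₀ w)) z := by
      unfold fs wd
      refine ContinuousAt.div ?_ (hcF.norm.pow 2) (pow_ne_zero 2 (norm_ne_zero_iff.2 (hne z hz)))
      exact Real.continuous_sqrt.continuousAt.comp (((hcF.norm.pow 2).mul (hcF'.norm.pow 2)).sub ((hcF.inner hcF').norm.pow 2))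
    have h5 : Tendsto (fun w => fs (F₀ w) (deriv F₀ w)) (𝓝[≠] z) (𝓝 0) :=
      tendsto_const_nhds.congr' (h3.mono fun w hw => hw.symm)
    exact tendsto_nhds_unique (h4.tendsto.mono_left nhdsWithin_le_nhds) h5
  refine Pool.Agent.AD.F.removable_of_small hF₀.1 hne fun δ hδ => ⟨1, one_pos, fun z hz1 hz2 => ?_⟩
  rw [hfs z ⟨by simpa using hz2, norm_pos_iff.1 hz1⟩, mul_zero]
  exact hδ.le

/-- **Extension over the puncture.** -/
theorem picard (hX : IsCone X) (hT : TMap X Λ u) (hL : Lat Λ) (hD : IsClosed D) (hps : PS X Λ u D p m C) (hqd : QD X Λ u D Q d)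
    (hroot : RootLog X Λ u Q d p m C₁) (hlct : Pool.Agent.G3.LCT X Λ u Q d p m) {F₀ : ℂ → EN N}
    (hF₀ : Curve X (ball 0 1 \ {0}) F₀) (h0 : ∃ z ∈ ball (0 : ℂ) 1 \ {0}, Q (F₀ z) ≠ 0) :
    ∃ A : ℂ → EN N, AnalyticAt ℂ A 0 ∧ A 0 ≠ 0 ∧ ∀ᶠ z in 𝓝[≠] (0 : ℂ), ∃ k : ℂ, k ≠ 0 ∧ A z = k • F₀ z := by
  -- the constant may be assumed nonnegative
  obtain ⟨C₁', hC₁', hroot'⟩ : ∃ C₁' : ℝ, 0 ≤ C₁' ∧ RootLog X Λ u Q d p m C₁' := by
    refine ⟨max C₁ 0, le_max_right _ _, ?_⟩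
    intro w r F h hr hF hok
    obtain ⟨h1, h2⟩ := hroot w r F h hr hF hok
    have h3 := one_le_E (p := p) (m := m) (h := h) hX hqd (hF.mem w (mem_ball_self hr)) hok.1
    have h4 : C₁ * (1 + Lam Q d p m F h w) ≤ max C₁ 0 * (1 + Lam Q d p m F h w) := mul_le_mul_of_nonneg_right (le_max_left _ _) (by linarith)
    exact ⟨h1.trans h4, h2.trans h4⟩
  obtain ⟨C₂, hC₂, hahl⟩ := Pool.Agent.G3.ahl hps
  have hLd : DiscreteSub Λ := hL.disc
  have hUo := isOpen_half 0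
  have hdF : DifferentiableOn ℂ (fun w => F₀ (Complex.exp w)) {w | w.re < 0} :=
    hF₀.1.comp Complex.differentiable_exp.differentiableOn fun w hw => exp_mem' hw
  have hmF : ∀ z ∈ {w : ℂ | w.re < 0}, F₀ (Complex.exp z) ∈ X := fun z hz => hF₀.2 _ (exp_mem' hz)
  have hm1 : (-1 : ℂ) ∈ {w : ℂ | w.re < 0} := by
    show (-1 : ℂ).re < 0
    rw [Complex.neg_re, Complex.one_re]
    norm_num
  obtain ⟨h, hh, hhu⟩ := lift_conn hX ⟨hT.smul, hT.loc⟩ hLd hUo (convex_half 0).isPreconnected (fun ψ hψ => half_primitive hψ) hdF hmF hm1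
  have hc : Cv X Λ u {w | w.re < 0} (fun w => F₀ (Complex.exp w)) h := ⟨hdF, hh, hmF, hhu⟩
  by_cases hok : ∃ w ∈ {w : ℂ | w.re < 0}, Ok Q p (fun w => F₀ (Complex.exp w)) w
  swap
  · exact ext_const hX hD hps hqd hF₀ hc h0 hok
  have hper : ∀ w : ℂ, F₀ (Complex.exp (w + 2 * Real.pi * Complex.I)) = F₀ (Complex.exp w) := fun w => by
    rw [Complex.exp_periodic w]
  obtain ⟨T, K, q, hT0, -, hK⟩ := growth hX hps hqd hC₁' hroot' hc hper hok
  -- the derivative of the lift is periodic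
  have hdper : ∀ w : ℂ, w.re < T → deriv h (w + 2 * Real.pi * Complex.I) = deriv h w := by
    intro w hw
    have hre : ∀ w : ℂ, (w + 2 * Real.pi * Complex.I).re = w.re := by
      intro w
      simp
    have hw0 : w.re < 0 := by linarith
    have hw1 : (w + 2 * Real.pi * Complex.I).re < 0 := by rw [hre]; exact hw0
    have han : AnalyticAt ℂ h w := hh.analyticAt (hUo.mem_nhds hw0)
    have han2 : AnalyticAt ℂ h (w + 2 * Real.pi * Complex.I) := hh.analyticAt (hUo.mem_nhds hw1)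
    have han3 : AnalyticAt ℂ (fun z => h (z + 2 * Real.pi * Complex.I)) w :=
      AnalyticAt.comp (g := h) (f := fun z : ℂ => z + 2 * Real.pi * Complex.I) han2 (by fun_prop)
    have h1 := deriv_eq_of_mem hLd han3 han (by
      filter_upwards [hUo.mem_nhds hw0] with z hz
      have hz0 : z.re < 0 := hz
      have e1 := hhu z hz
      have e2 := hhu (z + 2 * Real.pi * Complex.I) (by show (z + 2 * Real.pi * Complex.I).re < 0; rw [hre]; exact hz0)
      simp only [hper z] at e2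
      have e3 := Λ.sub_mem e1 e2
      have e4 : u (F₀ (Complex.exp z)) - h z - (u (F₀ (Complex.exp z)) - h (z + 2 * Real.pi * Complex.I)) = h (z + 2 * Real.pi * Complex.I) - h z := by abel
      rwa [e4] at e3)
    rw [deriv_comp_add_const] at h1
    exact h1
  have hdd : DifferentiableOn ℂ (deriv h) {w | w.re < T} :=
    (hh.deriv hUo).mono fun w (hw : w.re < T) => by
      show w.re < 0
      linarith
  obtain ⟨G, hG, hhG⟩ := per_ext hdd hdper hK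
  have hGd : DifferentiableAt ℂ G 0 := hG.differentiableAt (ball_mem_nhds _ (Real.exp_pos T))
  have hG0 := limit_zero hX hps hqd hC₁' hroot' (lct_seq hlct) hc hok hGd.continuousAt hhG
  exact ext_of_zero hX hps hqd hC₂ hahl hF₀ hc hok hGd hhG hG0

end Pool.Agent.H56.G3

end

section

/-!
# G3 F Pic: extension over the puncture, in the cone

The proof is in `H56/G3/Pc0` to `Pc7` (growth of the lift on the half plane, `LCT` at the points of support, removable singularities).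
-/

set_option autoImplicit false

open Topology Filter Metric MvPolynomial

namespace Pool.Agent.G3

open Pool.Agent.H17 (PN VanishesAt HolomorphicInto puncturedDisc)
open Pool.Agent.H36.BP (EN fs wd Sub Curve)
open Pool.Agent.H14.PP (IsCone CurveAt Tan)
open Pool.Agent.H62.EF (MN pr)
open Pool.Agent.AD (Vd Chart Charts IsHolomorphicTorusMap)
open Pool.Agent.TG (TMap Lat Geo Gd VForm Fb)

variable {N k : ℕ} {X : Set (EN N)} {Λ : AddSubgroup (Vd (k + 1))} {u : EN N → Vd (k + 1)} {D B : Set (Vd (k + 1))} {p : EN N → EN N → ℝ} {m d : ℕ} {C C₁ : ℝ}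
  {Q : EN N → ℂ}

theorem picard_cone (G : Geo X Λ u D B) (hP : PS X Λ u D p m C) (hQ : QD X Λ u D Q d) (hR : RootLog X Λ u Q d p m C₁) (hL : LCT X Λ u Q d p m)
    {F : ℂ → EN N} (hF : Curve X (ball 0 1 \ {0}) F) (h0 : ∃ z ∈ ball (0 : ℂ) 1 \ {0}, Q (F z) ≠ 0) :
    ∃ g : ℂ → EN N, AnalyticAt ℂ g 0 ∧ g 0 ≠ 0 ∧ ∀ᶠ z in 𝓝[≠] (0 : ℂ), ∃ k : ℂ, k ≠ 0 ∧ g z = k • F z := by
  exact Pool.Agent.H56.G3.picard G.cone G.tor G.lat G.D_closed hP hQ hR hL hF h0

end Pool.Agent.G3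

end
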