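import Pool.Agent.H94.G4T.M102
import Pool.Agent.H94.G4T.M122
import Pool.Agent.H94.G4T.M123
import Pool.Agent.H94.G4T.M87

/-! The parts of this file: H23.GU.Up_1, H23.GU.Down. -/

section

/-!
# GU Up: the properties `GGLC` go up along dominant rational maps of projective varieties of the same dimension

`gglc_up`: let `P` and `P'` be homogeneous prime ideals, whose varieties `X` and `X'` have the same dimension, and let the function field of `X` be
embedded in the function field of `X'` (this is a dominant rational map from `X'` to `X`).  If `X` has the properties `GGLC` (with an exceptional set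
`Ξ`), then so has `X'`.
-/

set_option autoImplicit false

open Topology Filter MvPolynomial

noncomputable section

namespace Pool.Agent.H23.GU

open Pool.Agent.H17 (PN VanishesAt HolomorphicInto puncturedDisc vanishesAt_mk_iff ZariskiClosedIn)
open Pool.Agent.H17GT (coordFun)
open Pool.Agent.H17LG.Variety (FunField IsLogGeneralType ratio)
open Pool.Agent.H62.FC (Homog)
open Pool.Agent.H17R (coordFun_ne_zero_iff gen_eq_zero_iff ratio_self adjoin_ratio)
open Pool.Agent.H17EF (projVar)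
open Pool.Agent.H7.Bir (vals rmap vanishesAt_rmap pn_identity punctured_open exists_quot aeval_comp aeval_div rmap_mk vals_smul eval_comp exists_comp)
open Pool.Agent.H7.Qup (const_of_root root_bound exists_eq_aux isLGT_of_algebraic vals_rep_ne)
open Pool.Agent.H22.TB (GGLC eq_of_basis)

variable {N M : ℕ}

/-- **The composition with the rational map.** -/
theorem exists_lift {P : Ideal (MvPolynomial (Fin (N + 1)) ℂ)} {P' : Ideal (MvPolynomial (Fin (M + 1)) ℂ)} {D : ℕ}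
    {γ : Fin (N + 1) → MvPolynomial (Fin (M + 1)) ℂ} (hγ : ∀ i, (γ i).IsHomogeneous D)
    (hmaps : ∀ n R, R.IsHomogeneous n → (aeval γ R ∈ P' ↔ R ∈ P)) {f : ℂ → PN M} {U : Set ℂ} (hUo : IsOpen U) (hUc : IsPreconnected U)
    (hf : HolomorphicInto f U) (hfX : ∀ z ∈ U, f z ∈ projVar P') {z₀ : ℂ} (hz₀ : z₀ ∈ U) {i₀ : Fin (N + 1)} (h : ¬ VanishesAt (γ i₀) (f z₀)) :
    ∃ g : ℂ → PN N, HolomorphicInto g U ∧ (∀ z ∈ U, g z ∈ projVar P) ∧ g z₀ = rmap γ (f z₀) ∧
      ∀ (m D₁ : ℕ) (α : Fin (m + 1) → MvPolynomial (Fin (N + 1)) ℂ) (i j : Fin (M + 1)), (∀ l, (α l).IsHomogeneous D₁) →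
        ∑ l : Fin (m + 1), aeval γ (α l) * X i ^ (l : ℕ) * X j ^ (m - (l : ℕ)) ∈ P' → ∀ z ∈ U, Rel α i j (g z) (f z) := by
  obtain ⟨g, hg, hg1, hg2⟩ := exists_comp hγ hUo hUc hf hz₀ h
  -- the values near a point
  have hnear : ∀ z ∈ U, ∀ (φ : ℂ → Fin (M + 1) → ℂ) (ψ : ℂ → Fin (N + 1) → ℂ), AnalyticAt ℂ φ z → AnalyticAt ℂ ψ z →
      (∀ᶠ w in 𝓝 z, ∃ h : φ w ≠ 0, f w = Projectivization.mk ℂ (φ w) h) → (∀ᶠ w in 𝓝 z, ∃ h : ψ w ≠ 0, g w = Projectivization.mk ℂ (ψ w) h) →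
      ∀ᶠ w in 𝓝[≠] z, f w ∈ projVar P' ∧ φ w ≠ 0 ∧ (∃ h : φ w ≠ 0, f w = Projectivization.mk ℂ (φ w) h) ∧ vals γ (f w).rep ≠ 0 ∧ g w = rmap γ (f w) ∧
        ∃ c : ℂ, ψ w = c • vals γ (φ w) := by
    intro z hz φ ψ hφ hψ he he'
    filter_upwards [hg2 z hz, he.filter_mono nhdsWithin_le_nhds, he'.filter_mono nhdsWithin_le_nhds,
      mem_nhdsWithin_of_mem_nhds (hUo.mem_nhds hz)] with w h1 h2 h3 h4
    obtain ⟨h5, h6⟩ := h1
    obtain ⟨h7, h8⟩ := h2
    obtain ⟨h9, h10⟩ := h3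
    have h11 : vals γ (φ w) ≠ 0 := by
      rw [h8] at h5
      exact (vals_rep_ne hγ h7).1 h5
    refine ⟨hfX w h4, h7, ⟨h7, h8⟩, h5, h6, ?_⟩
    have h12 : Projectivization.mk ℂ (ψ w) h9 = Projectivization.mk ℂ (vals γ (φ w)) h11 := by
      rw [← h10, h6, h8, rmap_mk hγ h7 h11]
    rw [Projectivization.mk_eq_mk_iff'] at h12
    obtain ⟨c, hc⟩ := h12
    exact ⟨c, hc.symm⟩
  refine ⟨g, hg, ?_, hg1 z₀ hz₀ fun h0 => h (congrFun h0 i₀), ?_⟩
  · intro z hz R hR n hRn
    obtain ⟨φ, hφ, he⟩ := hf z hz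
    obtain ⟨ψ, hψ, he'⟩ := hg z hz
    obtain ⟨h1, h2⟩ := he'.self_of_nhds
    rw [h2, vanishesAt_mk_iff hRn]
    have hcont : ContinuousAt (fun w => eval (ψ w) R) z := by
      have h1 : AnalyticAt ℂ (fun w => MvPolynomial.aeval (ψ w) R) z := AnalyticAt.aeval_mvPolynomial (fun i => analyticAt_pi_iff.mp hψ i) R
      exact h1.continuousAt
    have h0 : ∀ᶠ w in 𝓝[≠] z, eval (ψ w) R = 0 := by
      filter_upwards [hnear z hz φ ψ hφ hψ he he', he'.filter_mono nhdsWithin_le_nhds] with w h3 h4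
      obtain ⟨h5, h6, h7, h8, h9, h10⟩ := h3
      obtain ⟨h11, h12⟩ := h4
      have h13 : VanishesAt R (g w) := by
        rw [h9, vanishesAt_rmap h8 hRn]
        exact h5 _ ((hmaps n R hRn).2 hR) _ (hRn.aeval γ hγ)
      rwa [h12, vanishesAt_mk_iff hRn] at h13
    exact tendsto_nhds_unique (hcont.tendsto.mono_left nhdsWithin_le_nhds) (tendsto_const_nhds.congr' (h0.mono fun w hw => hw.symm))
  · intro m D₁ α i j hα hmem z hz
    obtain ⟨φ, hφ, he⟩ := hf z hz
    obtain ⟨ψ, hψ, he'⟩ := hg z hz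
    obtain ⟨h1, h2⟩ := he'.self_of_nhds
    obtain ⟨h3, h4⟩ := he.self_of_nhds
    rw [h2, h4]
    refine Rel_of hα h1 h3 ?_
    have hGhom : (∑ l : Fin (m + 1), aeval γ (α l) * X i ^ (l : ℕ) * X j ^ (m - (l : ℕ)) : MvPolynomial (Fin (M + 1)) ℂ).IsHomogeneous
        (D * D₁ + m) := by
      refine IsHomogeneous.sum _ _ _ fun l _ => ?_
      have h1 := ((((hα l).aeval γ hγ).mul ((isHomogeneous_X ℂ i).pow (l : ℕ))).mul ((isHomogeneous_X ℂ j).pow (m - l)))
      have h2 : D * D₁ + 1 * (l : ℕ) + 1 * (m - l) = D * D₁ + m := by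
        have h3 : (l : ℕ) ≤ m := Nat.lt_succ_iff.1 l.2
        omega
      rw [h2] at h1
      exact h1
    have h0 : ∀ᶠ w in 𝓝[≠] z, rel α i j (ψ w) (φ w) = 0 := by
      filter_upwards [hnear z hz φ ψ hφ hψ he he'] with w h5
      obtain ⟨h6, h7, ⟨h8, h9⟩, h10, h11, c, hc⟩ := h5
      have h12 : rel α i j (c • vals γ (φ w)) ((1 : ℂ) • φ w) = 0 := by
        rw [rel_smul hα, rel_vals]
        have h13 : VanishesAt _ (f w) := h6 _ hmem _ hGhom
        rw [h9, vanishesAt_mk_iff hGhom] at h13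
        rw [h13, mul_zero]
      rwa [one_smul, ← hc] at h12
    exact tendsto_nhds_unique ((rel_continuousAt α i j hψ hφ).tendsto.mono_left nhdsWithin_le_nhds)
      (tendsto_const_nhds.congr' (h0.mono fun w hw => hw.symm))

/-- **Dominant rational maps.** -/
theorem gglc_up {P : Ideal (MvPolynomial (Fin (N + 1)) ℂ)} [P.IsPrime] {P' : Ideal (MvPolynomial (Fin (M + 1)) ℂ)} [hPp' : P'.IsPrime]
    (hP' : Homog P') {k : ℕ} {z : Fin (k + 1) → FunField P} (hz : IsTranscendenceBasis ℂ z) {z' : Fin (k + 1) → FunField P'}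
    (hz' : IsTranscendenceBasis ℂ z') (e : FunField P →ₐ[ℂ] FunField P') {Ξ : Set (PN N)} (hΞ : GGLC P Ξ) : ∃ Ξ' : Set (PN M), GGLC P' Ξ' := by
  obtain ⟨i₀, hi₀⟩ := Pool.Agent.H92.GT.Proj.exists_coordFun_ne_zero P z hz
  obtain ⟨j, hj⟩ := Pool.Agent.H92.GT.Proj.exists_coordFun_ne_zero P' z' hz'
  obtain ⟨D, γ, hγ, hmaps, hγ₀⟩ := exists_rat e hi₀ hj
  have hjP : X j ∉ P' := coordFun_ne_zero_iff.1 hj
  -- a form which vanishes on the exceptional set
  obtain ⟨S, hS, hΞS⟩ := hΞ.closed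
  obtain ⟨x₁, hx₁, R, hRS, hRx₁⟩ : ∃ x ∈ projVar P, ∃ R ∈ S, ¬ VanishesAt R x := by
    by_contra hcon
    push Not at hcon
    apply hΞ.proper
    rw [hΞS]
    ext y
    exact ⟨fun hy => hy.1, fun hy => ⟨hy, fun R hR => hcon y hy R hR⟩⟩
  obtain ⟨nR, hnR⟩ := hS R hRS
  have hRP : R ∉ P := fun h1 => hRx₁ (hx₁ R h1 nR hnR)
  have hRv : ∀ x ∈ Ξ, VanishesAt R x := by
    intro x hx
    rw [hΞS] at hx
    exact hx.2 R hRS
  -- the equations of the coordinates
  choose m D₁ α hα hαP hrel using exists_eq_aux hz hz' hγ hmaps (coordFun_ne_zero_iff.1 hi₀) hjP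
  set B : MvPolynomial (Fin (N + 1)) ℂ := R * ∏ i, α i (Fin.last (m i)) with hB
  have hBhom : B.IsHomogeneous (nR + ∑ i, D₁ i) := hnR.mul (IsHomogeneous.prod _ _ _ fun i _ => hα i _)
  have hBP : B ∉ P := by
    intro h1
    rcases Ideal.IsPrime.mem_or_mem inferInstance h1 with h2 | h2
    · exact hRP h2
    · obtain ⟨i, -, h3⟩ := (Ideal.IsPrime.prod_mem_iff (p := P)).1 h2
      exact hαP i h3
  set T : MvPolynomial (Fin (M + 1)) ℂ := aeval γ B * γ i₀ * X j with hT
  have hThom : T.IsHomogeneous (D * (nR + ∑ i, D₁ i) + D + 1) := ((hBhom.aeval γ hγ).mul (hγ i₀)).mul (isHomogeneous_X ℂ j)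
  have hTP : T ∉ P' := by
    intro h1
    rcases Ideal.IsPrime.mem_or_mem inferInstance h1 with h2 | h2
    · rcases Ideal.IsPrime.mem_or_mem inferInstance h2 with h3 | h3
      · exact hBP ((hmaps _ B hBhom).1 h3)
      · exact hγ₀ h3
    · exact hjP h2
  -- points outside of the exceptional set
  have key : ∀ y : PN M, ¬ VanishesAt T y → y.rep j ≠ 0 ∧ ¬ VanishesAt (γ i₀) y ∧ ¬ VanishesAt R (rmap γ y) ∧
      ∀ i, ¬ VanishesAt (α i (Fin.last (m i))) (rmap γ y) := by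
    intro y hTy
    unfold VanishesAt at hTy
    rw [hT, map_mul, map_mul, mul_eq_zero, mul_eq_zero, not_or, not_or, eval_X] at hTy
    obtain ⟨⟨h1, h2⟩, h3⟩ := hTy
    have h4 : vals γ y.rep ≠ 0 := fun h0 => h2 (congrFun h0 i₀)
    have h5 : ¬ VanishesAt B (rmap γ y) := by
      rw [vanishesAt_rmap h4 hBhom]
      exact h1
    unfold VanishesAt at h5
    rw [hB, map_mul, mul_eq_zero, not_or, map_prod, Finset.prod_eq_zero_iff] at h5
    push Not at h5
    exact ⟨h3, h2, h5.1, fun i => h5.2 i (Finset.mem_univ i)⟩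
  -- the exceptional set
  refine ⟨{x | x ∈ projVar P' ∧ VanishesAt T x}, ?_⟩
  have hclosed : ZariskiClosedIn (projVar P') {x | x ∈ projVar P' ∧ VanishesAt T x} := by
    refine ⟨{T}, fun R hR => ?_, ?_⟩
    · rw [Set.mem_singleton_iff.1 hR]
      exact ⟨_, hThom⟩
    · ext x
      constructor
      · rintro ⟨h1, h2⟩
        refine ⟨h1, fun R hR => ?_⟩
        rw [Set.mem_singleton_iff.1 hR]
        exact h2
      · rintro ⟨h1, h2⟩
        exact ⟨h1, h2 T rfl⟩
  have hgt : IsLogGeneralType (K := FunField P') (k := k + 1) fun _ => False := by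
    let _ : Algebra (FunField P) (FunField P') := e.toRingHom.toAlgebra
    have _ : IsScalarTower ℂ (FunField P) (FunField P') := IsScalarTower.of_algebraMap_eq fun c => (e.commutes c).symm
    have _ : Algebra.IsAlgebraic (FunField P) (FunField P') := by
      have h1 := trdeg_add_eq ℂ (FunField P) (A := FunField P')
      rw [← hz.cardinalMk_eq_trdeg, ← hz'.cardinalMk_eq_trdeg] at h1
      rw [← trdeg_eq_zero_iff]
      have h2 : Cardinal.mk (Fin (k + 1)) < Cardinal.aleph0 := Cardinal.mk_lt_aleph0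
      have h3 : Cardinal.mk (Fin (k + 1)) + Algebra.trdeg (FunField P) (FunField P') = Cardinal.mk (Fin (k + 1)) + 0 := by rw [h1, add_zero]
      exact Cardinal.eq_of_add_eq_add_left h3 h2
    exact isLGT_of_algebraic ⟨z, hz⟩ (fun _ _ _ _ h => h) (hΞ.generalType (k + 1) (by omega) ⟨z, hz⟩)
  have hbrody : ∀ f : ℂ → PN M, HolomorphicInto f Set.univ → (∀ z, f z ∈ projVar P') → (∃ z w, f z ≠ f w) →
      ∀ z, f z ∈ {x | x ∈ projVar P' ∧ VanishesAt T x} := by
    intro f hf hfX hfn z₀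
    refine ⟨hfX z₀, ?_⟩
    by_contra hTz
    obtain ⟨h1, h2, h3, h4⟩ := key _ hTz
    obtain ⟨g, hg, hgX, hg0, hgr⟩ := exists_lift hγ hmaps isOpen_univ isPreconnected_univ hf (fun z _ => hfX z) (Set.mem_univ z₀) h2
    have hconst : ∀ z w, g z = g w := by
      by_contra hcon
      push Not at hcon
      apply h3
      rw [← hg0]
      exact hRv _ (hΞ.brody _ hg (fun z => hgX z (Set.mem_univ z)) hcon z₀)
    obtain ⟨φ, hφ, he⟩ := hf z₀ (Set.mem_univ z₀)
    have hφj : φ z₀ j ≠ 0 := by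
      obtain ⟨h7, h8⟩ := he.self_of_nhds
      obtain ⟨a, ha⟩ := Projectivization.exists_smul_eq_mk_rep ℂ (φ z₀) h7
      have h9 : (f z₀).rep = (a : ℂ) • φ z₀ := by rw [h8]; exact ha.symm
      rw [h9] at h1
      exact right_ne_zero_of_mul h1
    have hnear : ∀ᶠ z in 𝓝 z₀, f z = (fun _ => f z₀) z := by
      refine const_near (j := j) (m := m) (α := α) (g := g) (x := (g z₀).rep) (fun i => Eventually.of_forall fun z => hgr (m i) (D₁ i) (α i) i j (hα i) (hrel i) z (Set.mem_univ z))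
        hφ he hφj (g z₀).rep_nonzero (fun i => ?_) (Eventually.of_forall fun z => ?_)
      · have h5 := h4 i
        rw [← hg0] at h5
        exact h5
      · rw [(g z₀).mk_rep]
        exact hconst z z₀
    have hc : HolomorphicInto (fun _ : ℂ => f z₀) Set.univ := by
      intro z _
      exact ⟨fun _ => (f z₀).rep, analyticAt_const, Eventually.of_forall fun _ => ⟨(f z₀).rep_nonzero, (f z₀).mk_rep.symm⟩⟩
    have h5 := pn_identity isPreconnected_univ hf hc (Set.mem_univ z₀) hnear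
    obtain ⟨z, w, hzw⟩ := hfn
    exact hzw ((h5 z (Set.mem_univ z)).trans (h5 w (Set.mem_univ w)).symm)
  refine ⟨hclosed, ?_, ?_, ?_, hbrody, ?_⟩
  · -- proper
    intro heq
    obtain ⟨y, hy, hyT⟩ := Pool.Agent.H17EF.exists_point hP' ⟨j, hjP⟩ hTP hThom
    rw [← heq] at hy
    exact hyT hy.2
  · intro w _ hw
    obtain ⟨z'', hz''⟩ := hw
    obtain rfl := eq_of_basis hz' hz''
    exact hgt
  · rintro f hf hfX ⟨z₀, hz₀, hfz₀⟩
    have hTz : ¬ VanishesAt T (f z₀) := fun h1 => hfz₀ ⟨hfX z₀ hz₀, h1⟩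
    obtain ⟨h1, h2, h3, h4⟩ := key _ hTz
    obtain ⟨g, hg, hgX, hg0, hgr⟩ := exists_lift hγ hmaps punctured_open Pool.Agent.H36.BP.preconnected_puncturedDisc hf hfX hz₀ h2
    obtain ⟨ĝ, hĝ, hgg⟩ := hΞ.picard _ hg hgX ⟨z₀, hz₀, fun h5 => h3 (by
      rw [← hg0]
      exact hRv _ h5)⟩
    obtain ⟨ψ, hψ, hψg⟩ := hĝ 0 (Metric.mem_ball_self one_pos)
    refine extend_of_alg (j := j) (m := m) (α := α) (g := g) (fun i z hz => hgr (m i) (D₁ i) (α i) i j (hα i) (hrel i) z hz) hf hψ ?_ fun i hi => ?_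
    · filter_upwards [hψg, Metric.ball_mem_nhds (0 : ℂ) one_pos] with z h5 h6 h7
      obtain ⟨h8, h9⟩ := h5
      exact ⟨h8, by rw [← h9, hgg z ⟨h6, h7⟩]⟩
    · apply h4 i
      have h5 := Pool.Agent.H36.BP.vanish_identity (convex_ball (0 : ℂ) 1).isPreconnected hĝ (S := {α i (Fin.last (m i))}) (by
        intro Q hQ
        rw [Set.mem_singleton_iff] at hQ
        subst hQ
        exact ⟨_, hα i _⟩) (Metric.mem_ball_self one_pos) (by
        filter_upwards [hi, hψg] with z h5 h6 Q hQ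
        rw [Set.mem_singleton_iff] at hQ
        subst hQ
        obtain ⟨h7, h8⟩ := h6
        rw [h8, vanishesAt_mk_iff (hα i _)]
        exact h5) z₀ hz₀.1 _ rfl
      rw [hgg z₀ hz₀, hg0] at h5
      exact h5
  · intro Q _ hQ hPQ hsub hzw
    exact Pool.Agent.AD.P.strongly_one hclosed hbrody Q hQ hPQ hsub hzw

end Pool.Agent.H23.GU

end
end

section

/-!
# GU Down: the properties `GGLC` descend along finite étale coverings of projective varieties; varieties which virtually dominate `X`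

`gglc_down`: let `X' → X` be a finite étale covering of projective varieties, `X` of general type.  If `X'` has the properties `GGLC` (with an exceptional set),
then so has `X`.
`gglc_virtual`: let `Y` be a projective variety of general type with a finite étale covering `Y' → Y` such that `Y'` has the dimension of `X` and a dominant rational map
to `X`.  If `X` has the properties `GGLC` then so has `Y`.
-/

set_option autoImplicit false

open Topology Filter MvPolynomial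

noncomputable section

namespace Pool.Agent.H23.GU

open Pool.Agent.H17 (PN VanishesAt HolomorphicInto puncturedDisc vanishesAt_mk_iff ZariskiClosedIn)
open Pool.Agent.H17LG.Variety (FunField IsLogGeneralType)
open Pool.Agent.H62.FC (Homog)
open Pool.Agent.H62.SA (locVar)
open Pool.Agent.H62.Qe (IsReg IsEtaleOver lift_entire lift_punctured extend_of_lift exists_cover dominant)
open Pool.Agent.H17EF (projVar)
open Pool.Agent.H7.Bir (vals rmap)
open Pool.Agent.H22.TB (GGLC eq_of_basis)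

variable {N M L : ℕ}

/-- no boundary -/
def one (N : ℕ) : Fin 1 → MvPolynomial (Fin (N + 1)) ℂ := fun _ => 1

theorem mem_locVar_one {P : Ideal (MvPolynomial (Fin (N + 1)) ℂ)} {x : PN N} : x ∈ locVar P (one N) ↔ x ∈ projVar P := by
  constructor
  · intro h
    exact h.1
  · intro h
    refine ⟨h, 0, fun h1 => ?_⟩
    unfold VanishesAt one at h1
    rw [map_one] at h1
    exact one_ne_zero h1

variable {P : Ideal (MvPolynomial (Fin (N + 1)) ℂ)} {P' : Ideal (MvPolynomial (Fin (M + 1)) ℂ)} {p : PN M → PN N}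

theorem IsEtaleCovering.reg (h : IsEtaleCovering P P' p) : IsReg P P' p := by
  refine ⟨h.maps, h.surj, fun y hy => ?_⟩
  obtain ⟨D, γ, h1, ⟨i, h2⟩, h3⟩ := h.regular y hy
  refine ⟨D, γ, h1, fun h0 => h2 (congrFun h0 i), fun y' hy' hne => ?_⟩
  rw [h3 y' hy' hne]
  unfold Pool.Agent.H7.Bir.rmap
  rw [dif_pos hne]
  rfl

theorem IsEtaleCovering.over (h : IsEtaleCovering P P' p) : IsEtaleOver P P' (one N) (one M) p := by
  refine ⟨h.reg, fun y hy => ?_, fun y hy hyU => ?_, fun y hy hyU => ?_⟩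
  · rw [mem_locVar_one, mem_locVar_one]
    exact ⟨fun _ => hy, fun _ => h.maps y hy⟩
  · rw [mem_locVar_one] at hyU
    exact h.locInj y hy hyU
  · rw [mem_locVar_one] at hyU
    exact h.locSec y hy hyU

/-- The image of a hypersurface lies in a hypersurface. -/
theorem exists_image_form [P.IsPrime] [P'.IsPrime] (hP : Homog P) (hP' : Homog P') (hX : ∃ i, (X i : MvPolynomial (Fin (N + 1)) ℂ) ∉ P) {k : ℕ}
    (hz : ∃ z : Fin (k + 1) → FunField P, IsTranscendenceBasis ℂ z)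
    (hz' : ∃ z' : Fin (k + 1) → FunField P', IsTranscendenceBasis ℂ z') (hp : IsReg P P' p) {n' : ℕ}
    {R' : MvPolynomial (Fin (M + 1)) ℂ} (hR' : R'.IsHomogeneous n') (hRP' : R' ∉ P') :
    ∃ (T : MvPolynomial (Fin (N + 1)) ℂ) (n : ℕ), T.IsHomogeneous n ∧ T ∉ P ∧ ∀ y ∈ projVar P', VanishesAt R' y → VanishesAt T (p y) := by
  classical
  obtain ⟨n, D, γ, hγ, hγne, hrep, hcov⟩ := exists_cover hP' hp
  choose R m hR hRP hRev using fun k => Pool.Agent.H19OL.exists_norm_form hz hz' (hγ k)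
    (dominant hP hP' hX hp (hγ k) (hrep k) (hγne k)) hR' hRP'
  refine ⟨∏ k, R k, ∑ k, m k, MvPolynomial.IsHomogeneous.prod _ _ _ fun k _ => hR k, ?_, ?_⟩
  · intro h
    obtain ⟨k, -, hk⟩ := ((inferInstance : P.IsPrime).prod_mem_iff).1 h
    exact hRP k hk
  · intro y hy hyR
    obtain ⟨k, hk⟩ := hcov y hy
    have h1 : VanishesAt (R k) (p y) := by
      rw [hrep k y hy hk]
      unfold Pool.Agent.H7.Bir.rmap
      rw [dif_pos hk, vanishesAt_mk_iff (hR k)]
      refine hRev k y.rep y.rep_nonzero (fun Q hQ => ?_) hyR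
      rw [← MvPolynomial.sum_homogeneousComponent Q, map_sum]
      exact Finset.sum_eq_zero fun i _ => hy _ (hP' Q hQ i) i (homogeneousComponent_isHomogeneous i Q)
    unfold VanishesAt at h1 ⊢
    rw [map_prod]
    exact Finset.prod_eq_zero (Finset.mem_univ k) h1

/-- **Finite étale coverings.** -/
theorem gglc_down [P.IsPrime] [P'.IsPrime] (hP : Homog P) (hP' : Homog P') {k : ℕ} (hz : ∃ z : Fin (k + 1) → FunField P, IsTranscendenceBasis ℂ z)
    (hz' : ∃ z' : Fin (k + 1) → FunField P', IsTranscendenceBasis ℂ z') (hp : IsEtaleCovering P P' p)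
    (hgt : IsLogGeneralType (K := FunField P) (k := k + 1) fun _ => False) {Ξ' : Set (PN M)} (h : GGLC P' Ξ') : ∃ Ξ : Set (PN N), GGLC P Ξ := by
  have hpo := hp.over
  -- a form which vanishes on the exceptional set
  obtain ⟨S, hS, hΞS⟩ := h.closed
  obtain ⟨y₀, hy₀, R', hR'S, hR'y₀⟩ : ∃ y ∈ projVar P', ∃ R ∈ S, ¬ VanishesAt R y := by
    by_contra hcon
    push Not at hcon
    apply h.proper
    rw [hΞS]
    ext y
    exact ⟨fun hy => hy.1, fun hy => ⟨hy, fun R hR => hcon y hy R hR⟩⟩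
  obtain ⟨n', hn'⟩ := hS R' hR'S
  have hR'P : R' ∉ P' := fun h1 => hR'y₀ (hy₀ R' h1 n' hn')
  have hR'v : ∀ y ∈ Ξ', VanishesAt R' y := by
    intro y hy
    rw [hΞS] at hy
    exact hy.2 R' hR'S
  have hcoord := Pool.Agent.H17EF.exists_coord (hp.maps y₀ hy₀)
  obtain ⟨T, n, hT, hTP, hTv⟩ := exists_image_form hP hP' hcoord hz hz' hp.reg hn' hR'P
  -- the exceptional set
  refine ⟨{x | x ∈ projVar P ∧ VanishesAt T x}, ?_⟩
  have hclosed : ZariskiClosedIn (projVar P) {x | x ∈ projVar P ∧ VanishesAt T x} := by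
    refine ⟨{T}, fun R hR => ?_, ?_⟩
    · rw [Set.mem_singleton_iff.1 hR]
      exact ⟨n, hT⟩
    · ext x
      constructor
      · rintro ⟨h1, h2⟩
        refine ⟨h1, fun R hR => ?_⟩
        rw [Set.mem_singleton_iff.1 hR]
        exact h2
      · rintro ⟨h1, h2⟩
        exact ⟨h1, h2 T rfl⟩
  have hbrody : ∀ f : ℂ → PN N, HolomorphicInto f Set.univ → (∀ z, f z ∈ projVar P) → (∃ z w, f z ≠ f w) →
      ∀ z, f z ∈ {x | x ∈ projVar P ∧ VanishesAt T x} := by
    intro f hf hfX hfn z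
    obtain ⟨g, hg, hgU, hgf⟩ := lift_entire hP' hpo hf fun z => mem_locVar_one.2 (hfX z)
    have hgn : ∃ z w, g z ≠ g w := by
      obtain ⟨a, b, hab⟩ := hfn
      refine ⟨a, b, fun h1 => hab ?_⟩
      rw [← hgf a, ← hgf b, h1]
    refine ⟨hfX z, ?_⟩
    rw [← hgf z]
    exact hTv _ (mem_locVar_one.1 (hgU z)) (hR'v _ (h.brody g hg (fun z => mem_locVar_one.1 (hgU z)) hgn z))
  refine ⟨hclosed, ?_, ?_, ?_, hbrody, ?_⟩
  · intro heq
    obtain ⟨y, hy, hyT⟩ := Pool.Agent.H17EF.exists_point hP hcoord hTP hT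
    rw [← heq] at hy
    exact hyT hy.2
  · rintro w _ ⟨z'', hz''⟩
    obtain ⟨z, hz⟩ := hz
    obtain rfl := eq_of_basis hz hz''
    exact hgt
  · intro f hf hfX hfΞ
    obtain ⟨k, g, hk, hg, hgU, hgf⟩ := lift_punctured hP' hpo hf fun z hz => mem_locVar_one.2 (hfX z hz)
    have hgΞ : ∃ z ∈ puncturedDisc, g z ∉ Ξ' := by
      by_contra hcon
      push Not at hcon
      obtain ⟨w, hw, hwΞ⟩ := hfΞ
      apply hwΞ
      refine ⟨hfX w hw, ?_⟩
      obtain ⟨z, hz⟩ := IsAlgClosed.exists_pow_nat_eq w (by omega : 0 < k)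
      have hzD : z ∈ puncturedDisc := by
        refine ⟨?_, ?_⟩
        · rw [mem_ball_zero_iff]
          by_contra h1
          push Not at h1
          have h2 : 1 ≤ ‖z‖ ^ k := one_le_pow₀ h1
          rw [← norm_pow, hz] at h2
          have h3 : ‖w‖ < 1 := by
            rw [← mem_ball_zero_iff]
            exact hw.1
          linarith
        · rintro rfl
          apply hw.2
          rw [Set.mem_singleton_iff, ← hz, zero_pow (by omega)]
      rw [← hz, ← hgf z hzD]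
      exact hTv _ (mem_locVar_one.1 (hgU z hzD)) (hR'v _ (hcon z hzD))
    obtain ⟨ĝ, hĝ, hgg⟩ := h.picard g hg (fun z hz => mem_locVar_one.1 (hgU z hz)) hgΞ
    exact extend_of_lift hp.reg hf hk (fun z hz => mem_locVar_one.1 (hgU z hz)) hgf hĝ hgg
  · intro Q _ hQ hPQ hsub hzw
    exact Pool.Agent.AD.P.strongly_one hclosed hbrody Q hQ hPQ hsub hzw

/-- **Varieties which virtually dominate `X`.** -/
theorem gglc_virtual {P : Ideal (MvPolynomial (Fin (N + 1)) ℂ)} [P.IsPrime] {k : ℕ} (hz : ∃ z : Fin (k + 1) → FunField P, IsTranscendenceBasis ℂ z)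
    {Ξ : Set (PN N)} (hΞ : GGLC P Ξ)
    {P' : Ideal (MvPolynomial (Fin (M + 1)) ℂ)} [P'.IsPrime] (hP' : Homog P') (hz' : ∃ z : Fin (k + 1) → FunField P', IsTranscendenceBasis ℂ z)
    (e : FunField P →ₐ[ℂ] FunField P') {Q : Ideal (MvPolynomial (Fin (L + 1)) ℂ)} [Q.IsPrime] (hQ : Homog Q)
    (hw : ∃ z : Fin (k + 1) → FunField Q, IsTranscendenceBasis ℂ z) (hgt : IsLogGeneralType (K := FunField Q) (k := k + 1) fun _ => False)
    {p : PN M → PN L} (hp : IsEtaleCovering Q P' p) : ∃ Ξ' : Set (PN L), GGLC Q Ξ' := by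
  obtain ⟨z, hz⟩ := hz
  obtain ⟨z', hz'⟩ := hz'
  obtain ⟨Ξ₁, h₁⟩ := gglc_up hP' hz hz' e hΞ
  exact gglc_down hQ hP' hw ⟨z', hz'⟩ hp hgt h₁

end Pool.Agent.H23.GU

end
end
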