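import Pool.Agent.H94.G4T.G3.A.Shts_2
import Pool.Agent.H94.G4T.G3.R.Nv_1
import Pool.Agent.H94.G4T.M54
import Pool.Agent.H94.G4T.M91

/-! The parts of this file: G4.A.Shts, G4.R.ShtF, G4.R.Md. -/

section

/-!
# G4 A Shts: the sheets over `b + E`

`chain_ext`: abstract lemma (no topology): `E` a real normed space, `H : E → Set β`, `η > 0` and maps `τ v w : β → β` (for `‖v - w‖ ≤ η`: `H v → H w`, `τ v v = id`, `τ v w ∘ τ u v = τ u w` if all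
three distances are `≤ η`): for every `f ∈ H 0` there is a section `φ`, `φ 0 = f`, `φ w = τ v w (φ v)` for `‖v - w‖ ≤ η / 3`.  Proof: subdivide the segment `[0, v]` into `n` equal steps (`‖v‖ / n ≤ η / 3`); the
result does not depend on `n` (compare `n` and `n m`), and it is compatible for near `v`, `w` (compare step by step).
`exists_sht`: `H v = Hc (b + v)`, `τ` from `near_exists`; `φ (b + v) = F_v 0` for `v ∈ E`; `F_{v + z a} = F_v (z + ·)`: both are continuous in `z` and near (uniqueness).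
-/

set_option autoImplicit false

open Topology Filter Metric

namespace Pool.Agent.G4.A

open Pool.Agent.H36.BP (EN fs wd)
open Pool.Agent.H14.PP (IsCone CurveAt Tan)
open Pool.Agent.H62.EF (MN pr)
open Pool.Agent.AD (Vd Chart Charts IsGerm)
open Pool.Agent.TG
open Pool.Agent.G3
open Pool.Agent.G3.A
open Pool.Agent.G3.C (Gc)

section chain

variable {V β : Type*} [NormedAddCommGroup V] [NormedSpace ℝ V]

/-- the values along the subdivided segment from `0` to `v` -/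
private noncomputable def chP (τ : V → V → β → β) (f : β) (n : ℕ) (v : V) : ℕ → β
  | 0 => f
  | i + 1 => τ (((i : ℝ) / n) • v) ((((i + 1 : ℕ) : ℝ) / n) • v) (chP τ f n v i)

private theorem ch_step {n : ℕ} (hn : 0 < n) (v : V) (i : ℕ) : ‖((i : ℝ) / n) • v - (((i + 1 : ℕ) : ℝ) / n) • v‖ = ‖v‖ / n := by
  have hn0 : (0 : ℝ) < n := by exact_mod_cast hn
  rw [← sub_smul, norm_smul]
  have h : (i : ℝ) / n - ((i + 1 : ℕ) : ℝ) / n = -(1 / n) := by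
    push_cast
    field_simp
    ring
  rw [h, norm_neg, Real.norm_of_nonneg (by positivity)]
  ring

variable {H : V → Set β} {η : ℝ} {τ : V → V → β → β}

private theorem ch_mem (h1 : ∀ v w, ‖v - w‖ ≤ η → ∀ f ∈ H v, τ v w f ∈ H w) {f : β} (hf : f ∈ H 0) {n : ℕ} (hn : 0 < n) {v : V} (hv : ‖v‖ / n ≤ η) (i : ℕ) :
    chP τ f n v i ∈ H (((i : ℝ) / n) • v) := by
  induction i with
  | zero => simpa [chP] using hf
  | succ i ih =>
    refine h1 _ _ ?_ _ ih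
    rw [ch_step hn]
    exact hv

/-- compatibility of two segments -/
private theorem ch_comp (hη : 0 < η) (h1 : ∀ v w, ‖v - w‖ ≤ η → ∀ f ∈ H v, τ v w f ∈ H w) (h2 : ∀ v, ∀ f ∈ H v, τ v v f = f)
    (h3 : ∀ u v w, ‖u - v‖ ≤ η → ‖v - w‖ ≤ η → ‖u - w‖ ≤ η → ∀ f ∈ H u, τ v w (τ u v f) = τ u w f) {f : β} (hf : f ∈ H 0)
    {n : ℕ} (hn : 0 < n) {v w : V} (hv : ‖v‖ / n ≤ η / 3) (hw : ‖w‖ / n ≤ η / 3) (hvw : ‖v - w‖ ≤ η / 3) {i : ℕ} (hi : i ≤ n) :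
    chP τ f n w i = τ (((i : ℝ) / n) • v) (((i : ℝ) / n) • w) (chP τ f n v i) := by
  have hn0 : (0 : ℝ) < n := by exact_mod_cast hn
  have hd : ∀ j : ℕ, j ≤ n → ‖((j : ℝ) / n) • v - ((j : ℝ) / n) • w‖ ≤ η / 3 := by
    intro j hj
    rw [← smul_sub, norm_smul, Real.norm_of_nonneg (by positivity)]
    have h4 : (j : ℝ) / n ≤ 1 := by
      rw [div_le_one hn0]
      exact_mod_cast hj
    have h5 := mul_le_mul h4 hvw (norm_nonneg _) zero_le_one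
    linarith only [h5]
  induction i with
  | zero =>
    have h4 := h2 0 f hf
    simpa [chP] using h4.symm
  | succ i ih =>
    have hi' : i ≤ n := by omega
    have hm := ch_mem h1 hf hn (v := v) (by linarith only [hη, hv]) i
    have s1 := ch_step hn v i
    have s2 := ch_step hn w i
    have d1 := hd i hi'
    have d2 := hd (i + 1) hi
    have d3 : ‖((i : ℝ) / n) • v - (((i + 1 : ℕ) : ℝ) / n) • w‖ ≤ η := by
      have h4 : ((i : ℝ) / n) • v - (((i + 1 : ℕ) : ℝ) / n) • w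
          = (((i : ℝ) / n) • v - ((i : ℝ) / n) • w) + (((i : ℝ) / n) • w - (((i + 1 : ℕ) : ℝ) / n) • w) := by abel
      rw [h4]
      refine (norm_add_le _ _).trans ?_
      rw [s2]
      linarith only [hη, hw, d1]
    rw [chP, ih hi', chP]
    rw [h3 _ _ _ (by linarith only [hη, d1]) (by rw [s2]; linarith only [hη, hw]) d3 _ hm, h3 _ _ _ (by rw [s1]; linarith only [hη, hv]) (by linarith only [hη, d2]) d3 _ hm]

/-- refinement of the subdivision -/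
private theorem ch_ref (h1 : ∀ v w, ‖v - w‖ ≤ η → ∀ f ∈ H v, τ v w f ∈ H w) (h2 : ∀ v, ∀ f ∈ H v, τ v v f = f)
    (h3 : ∀ u v w, ‖u - v‖ ≤ η → ‖v - w‖ ≤ η → ‖u - w‖ ≤ η → ∀ f ∈ H u, τ v w (τ u v f) = τ u w f) {f : β} (hf : f ∈ H 0)
    {n m : ℕ} (hn : 0 < n) (hm : 0 < m) {v : V} (hv : ‖v‖ / n ≤ η) (i : ℕ) : chP τ f (n * m) v (i * m) = chP τ f n v i := by
  have hn0 : (0 : ℝ) < n := by exact_mod_cast hn
  have hm0 : (0 : ℝ) < m := by exact_mod_cast hm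
  have hnm : 0 < n * m := Nat.mul_pos hn hm
  have hv' : ‖v‖ / ((n * m : ℕ) : ℝ) ≤ η := by
    have h4 : ‖v‖ / ((n * m : ℕ) : ℝ) ≤ ‖v‖ / n := by
      refine div_le_div_of_nonneg_left (norm_nonneg _) hn0 ?_
      push_cast
      have h5 : (1 : ℝ) ≤ m := by exact_mod_cast hm
      nlinarith only [h5]
    exact h4.trans hv
  have hpt : ∀ j : ℕ, (((j * m : ℕ) : ℝ) / ((n * m : ℕ) : ℝ)) = (j : ℝ) / n := by
    intro j
    push_cast
    field_simp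
  have key : ∀ i j : ℕ, j ≤ m → chP τ f (n * m) v (i * m + j)
      = τ (((i : ℝ) / n) • v) ((((i * m + j : ℕ) : ℝ) / ((n * m : ℕ) : ℝ)) • v) (chP τ f (n * m) v (i * m)) := by
    intro i j
    have hmem := ch_mem h1 hf hnm hv' (i * m)
    rw [hpt] at hmem
    have hdist : ∀ j : ℕ, j ≤ m → ‖((i : ℝ) / n) • v - (((i * m + j : ℕ) : ℝ) / ((n * m : ℕ) : ℝ)) • v‖ ≤ η := by
      intro j hj
      rw [← sub_smul, norm_smul]
      have h4 : (i : ℝ) / n - ((i * m + j : ℕ) : ℝ) / ((n * m : ℕ) : ℝ) = -((j : ℝ) / (n * m)) := by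
        push_cast
        field_simp
        ring
      rw [h4, norm_neg, Real.norm_of_nonneg (by positivity)]
      have h5 : (j : ℝ) / (n * m) ≤ 1 / n := by
        rw [div_le_div_iff₀ (by positivity) hn0]
        have h6 : (j : ℝ) ≤ m := by exact_mod_cast hj
        nlinarith only [h6]
      calc (j : ℝ) / (n * m) * ‖v‖ ≤ 1 / n * ‖v‖ := mul_le_mul_of_nonneg_right h5 (norm_nonneg _)
        _ = ‖v‖ / n := by ring
        _ ≤ η := hv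
    induction j with
    | zero =>
      intro _
      have h4 := h2 _ _ hmem
      rw [add_zero, hpt]
      exact h4.symm
    | succ j ih =>
      intro hj
      have ih' := ih (by omega)
      have e1 : i * m + (j + 1) = (i * m + j) + 1 := by ring
      rw [e1, chP, ih']
      refine h3 _ _ _ (hdist j (by omega)) ?_ ?_ _ hmem
      · rw [ch_step hnm]
        exact hv'
      · have h4 := hdist (j + 1) hj
        rwa [e1] at h4
  induction i with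
  | zero => simp [chP]
  | succ i ih =>
    have h4 := key i m le_rfl
    have e1 : (i + 1) * m = i * m + m := by ring
    rw [e1, h4, ih, ← e1, hpt (i + 1), chP]

end chain

theorem chain_ext {V β : Type*} [NormedAddCommGroup V] [NormedSpace ℝ V] {H : V → Set β} {η : ℝ} (hη : 0 < η) {τ : V → V → β → β}
    (h1 : ∀ v w, ‖v - w‖ ≤ η → ∀ f ∈ H v, τ v w f ∈ H w) (h2 : ∀ v, ∀ f ∈ H v, τ v v f = f)
    (h3 : ∀ u v w, ‖u - v‖ ≤ η → ‖v - w‖ ≤ η → ‖u - w‖ ≤ η → ∀ f ∈ H u, τ v w (τ u v f) = τ u w f) {f : β} (hf : f ∈ H 0) :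
    ∃ φ : V → β, φ 0 = f ∧ (∀ v, φ v ∈ H v) ∧ ∀ v w, ‖v - w‖ ≤ η / 3 → φ w = τ v w (φ v) := by
  have hN : ∀ v : V, ∃ n : ℕ, 0 < n ∧ ‖v‖ / n ≤ η / 3 := by
    intro v
    obtain ⟨n, hn⟩ := exists_nat_gt (‖v‖ / (η / 3))
    have hn0 : (0 : ℝ) < n := lt_of_le_of_lt (by positivity) hn
    refine ⟨n, by exact_mod_cast hn0, ?_⟩
    rw [div_lt_iff₀ (by positivity)] at hn
    rw [div_le_iff₀ hn0]
    linarith only [hn]
  choose n hn hnv using hN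
  have hQ : ∀ v : V, ∀ m : ℕ, 0 < m → ‖v‖ / m ≤ η / 3 → chP τ f m v m = chP τ f (n v) v (n v) := by
    intro v m hm hmv
    have e1 := ch_ref h1 h2 h3 hf hm (hn v) (v := v) (by linarith only [hη, hmv]) m
    have e2 := ch_ref h1 h2 h3 hf (hn v) hm (v := v) (by linarith only [hη, hnv, hnv v]) (n v)
    rw [← e1, ← e2, mul_comm m (n v)]
  refine ⟨fun v => chP τ f (n v) v (n v), ?_, fun v => ?_, fun v w hvw => ?_⟩
  · have h4 : ∀ i, chP τ f (n 0) (0 : V) i = f := by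
      intro i
      induction i with
      | zero => rfl
      | succ i ih =>
        rw [chP, ih, smul_zero, smul_zero]
        exact h2 0 f hf
    exact h4 _
  · have h4 := ch_mem h1 hf (hn v) (v := v) (by linarith only [hη, hnv, hnv v]) (n v)
    have h5 : ((n v : ℝ) / n v) • v = v := by
      rw [div_self (by exact_mod_cast (hn v).ne'), one_smul]
    rwa [h5] at h4
  · have hnn : 0 < n v * n w := Nat.mul_pos (hn v) (hn w)
    have hv0 : (0 : ℝ) < n v := by exact_mod_cast hn v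
    have hw0 : (0 : ℝ) < n w := by exact_mod_cast hn w
    have hv1 : (1 : ℝ) ≤ n v := by exact_mod_cast hn v
    have hw1 : (1 : ℝ) ≤ n w := by exact_mod_cast hn w
    have hv : ‖v‖ / ((n v * n w : ℕ) : ℝ) ≤ η / 3 := by
      refine le_trans (div_le_div_of_nonneg_left (norm_nonneg _) hv0 ?_) (hnv v)
      push_cast
      nlinarith only [hw1]
    have hw : ‖w‖ / ((n v * n w : ℕ) : ℝ) ≤ η / 3 := by
      refine le_trans (div_le_div_of_nonneg_left (norm_nonneg _) hw0 ?_) (hnv w)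
      push_cast
      nlinarith only [hv1]
    have h4 := ch_comp hη h1 h2 h3 hf hnn hv hw hvw (i := n v * n w) le_rfl
    have h5 : (((n v * n w : ℕ) : ℝ) / ((n v * n w : ℕ) : ℝ)) = 1 := div_self (by exact_mod_cast hnn.ne')
    rw [h5, one_smul, one_smul, hQ w _ hnn hw, hQ v _ hnn hv] at h4
    exact h4

variable {N k : ℕ} {X : Set (EN N)} {Λ : AddSubgroup (Vd (k + 1))} {u : EN N → Vd (k + 1)} {D B Bad : Set (Vd (k + 1))} {a : Vd (k + 1)}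

variable {Γ : AddSubgroup (Vd (k + 1))} {J rW : ℕ} {W : Fin rW → Vd (k + 1) →L[ℂ] ℂ} {α : Fin J → VForm X Λ u} {c₀ C₀ ρ δ : ℝ} {E : Submodule ℝ (Vd (k + 1))} {b : Vd (k + 1)}

theorem mem_tb (v : E) : b + (v : Vd (k + 1)) ∈ Tb b E := by
  show b + (v : Vd (k + 1)) - b ∈ E
  rw [add_sub_cancel_left]
  exact v.2

theorem tb_add {y v : Vd (k + 1)} (hy : y ∈ Tb b E) (hv : v ∈ E) : y + v ∈ Tb b E := by
  show y + v - b ∈ E
  have h : y + v - b = (y - b) + v := by abel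
  rw [h]
  exact E.add_mem hy hv

/-- the shift along the line -/
theorem sh_shift (hX : IsCone X) (ha : ‖a‖ = 1) (hE : ∀ z : ℂ, z • a ∈ E) {R θ η : ℝ} {τ : E → E → (ℂ → MN N) → ℂ → MN N} (hθ : 0 < θ)
    (hη : 0 < η)
    (t3 : ∀ v w : E, ‖v - w‖ ≤ η → ∀ f ∈ Hc X Λ u a (b + v), ∀ f' ∈ Hc X Λ u a (b + w),
        (∀ z ∈ closedBall (0 : ℂ) R, b + v + z • a ∈ Gd D (3 / 4 * δ) → dist (f' z) (f z) ≤ 2 * θ) → f' = τ v w f)
    {ψ : E → ℂ → MN N} (p1 : ∀ v : E, ψ v ∈ Hc X Λ u a (b + v)) (p2 : ∀ v w : E, ‖v - w‖ ≤ η / 3 → ψ w = τ v w (ψ v)) (v : E) (z : ℂ) :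
    ψ (v + ⟨z • a, hE z⟩) = fun w => ψ v (z + w) := by
  have hcont : Continuous (ψ v) := hc_cont hX (p1 v)
  have huc : UniformContinuousOn (ψ v) (closedBall (0 : ℂ) (R + ‖z‖)) :=
    (isCompact_closedBall _ _).uniformContinuousOn_of_continuous hcont.continuousOn
  obtain ⟨ε, hε, hu⟩ := Metric.uniformContinuousOn_iff.1 huc θ hθ
  obtain ⟨n, hn⟩ := exists_nat_gt (max (‖z‖ / ε) (‖z‖ / (η / 3)))
  have hn1 : ‖z‖ / ε < n := (le_max_left _ _).trans_lt hn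
  have hn2 : ‖z‖ / (η / 3) < n := (le_max_right _ _).trans_lt hn
  have hn0 : (0 : ℝ) < n := lt_of_le_of_lt (by positivity) hn1
  have hn0' : (n : ℂ) ≠ 0 := by
    have : (n : ℝ) ≠ 0 := hn0.ne'
    exact_mod_cast this
  rw [div_lt_iff₀ hε] at hn1
  rw [div_lt_iff₀ (by positivity)] at hn2
  have hstep1 : ‖z‖ / n < ε := by
    rw [div_lt_iff₀ hn0]
    linarith only [hn1]
  have hstep2 : ‖z‖ / n ≤ η / 3 := by
    rw [div_le_iff₀ hn0]
    linarith only [hn2]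
  -- the points of the subdivision
  have hz : ∀ i : ℕ, ‖((i : ℂ) / n * z) - (((i + 1 : ℕ) : ℂ) / n * z)‖ = ‖z‖ / n := by
    intro i
    have e : ((i : ℂ) / n * z) - (((i + 1 : ℕ) : ℂ) / n * z) = -(z / n) := by
      push_cast
      field_simp
      ring
    rw [e, norm_neg, norm_div, Complex.norm_natCast]
  have hzi : ∀ i : ℕ, i ≤ n → ‖(i : ℂ) / n * z‖ ≤ ‖z‖ := by
    intro i hi
    rw [norm_mul, norm_div, Complex.norm_natCast, Complex.norm_natCast]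
    have h4 : (i : ℝ) / n ≤ 1 := by
      rw [div_le_one hn0]
      exact_mod_cast hi
    exact mul_le_of_le_one_left (norm_nonneg _) h4
  have hG : ∀ z' : ℂ, (fun w => ψ v (z' + w)) ∈ Hc X Λ u a (b + ((v + ⟨z' • a, hE z'⟩ : E) : Vd (k + 1))) := by
    intro z'
    have h4 := hc_add (p1 v) z'
    rwa [add_assoc] at h4
  have key : ∀ i : ℕ, i ≤ n → ψ (v + ⟨((i : ℂ) / n * z) • a, hE _⟩) = fun w => ψ v ((i : ℂ) / n * z + w) := by
    intro i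
    induction i with
    | zero =>
      intro _
      have e : (⟨(((0 : ℕ) : ℂ) / n * z) • a, hE _⟩ : E) = 0 := by
        ext1
        simp
      rw [e, add_zero]
      funext w
      congr 1
      simp
    | succ i ih =>
      intro hi
      have ih' := ih (by omega)
      have hd : ‖(v + ⟨((i : ℂ) / n * z) • a, hE _⟩ : E) - (v + ⟨(((i + 1 : ℕ) : ℂ) / n * z) • a, hE _⟩)‖ = ‖z‖ / n := by
        rw [add_sub_add_left_eq_sub, Submodule.coe_norm, Submodule.coe_sub]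
        show ‖((i : ℂ) / n * z) • a - (((i + 1 : ℕ) : ℂ) / n * z) • a‖ = ‖z‖ / n
        rw [← sub_smul, norm_smul, ha, mul_one]
        exact hz i
      rw [p2 _ _ (by rw [hd]; exact hstep2), ih']
      symm
      refine t3 _ _ (by rw [hd]; linarith only [hη, hstep2]) _ (hG _) _ (hG _) fun w hw _ => ?_
      have hw' : ‖w‖ ≤ R := by
        rwa [mem_closedBall_zero_iff] at hw
      have h5 : dist (ψ v (((i + 1 : ℕ) : ℂ) / n * z + w)) (ψ v ((i : ℂ) / n * z + w)) < θ := by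
        refine hu _ ?_ _ ?_ ?_
        · rw [mem_closedBall_zero_iff]
          refine (norm_add_le _ _).trans ?_
          have := hzi (i + 1) hi
          linarith only [hw', this]
        · rw [mem_closedBall_zero_iff]
          refine (norm_add_le _ _).trans ?_
          have := hzi i (by omega)
          linarith only [hw', this]
        · rw [dist_comm, dist_eq_norm, add_sub_add_right_eq_sub, hz i]
          exact hstep1
      linarith only [hθ, h5]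
  have h6 := key n le_rfl
  have e : (n : ℂ) / n * z = z := by
    rw [div_self hn0', one_mul]
  rw [e] at h6
  exact h6

theorem sht_lm (S : DA X Λ u D B Bad a Γ W α c₀ C₀ ρ δ) (hE : CE X Λ u a b E) {φ : Vd (k + 1) → MN N} (hφ : Sht X Λ u D a (Tb b E) φ) {ι : Type*} {𝒰 : Ultrafilter ι} {y : ι → Vd (k + 1)}
    {y₀ : Vd (k + 1)} (hy : Tendsto y 𝒰 (𝓝 y₀)) (hyT : ∀ᶠ n in (𝒰 : Filter ι), y n ∈ Tb b E) (hy₀ : y₀ ∈ Tb b E) :
    Lm D a 𝒰 y₀ (fun n z => φ (y n + z • a)) fun z => φ (y₀ + z • a) := by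
  intro z hz w hw
  have h1 := hφ.cont (y₀ + z • a) (tb_add hy₀ (hE.mem z)) hz
  exact h1.tendsto.comp (tendsto_nhdsWithin_iff.2 ⟨hy.add (hw.smul_const a), hyT.mono fun n hn => tb_add hn (hE.mem (w n))⟩)

theorem sht_add {φ : Vd (k + 1) → MN N} (hφ : Sht X Λ u D a (Tb b E) φ) (hL : LG Λ D Bad a) {l : Vd (k + 1)} (hl : l ∈ Λ) (hlE : l ∈ E) :
    Sht X Λ u D a (Tb b E) fun y => φ (y + l) := by
  refine ⟨fun y hy => ?_, fun y hy hyD => ?_⟩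
  · have h1 := hφ.line (y + l) (tb_add hy hlE)
    rw [hc_per hl] at h1
    have h2 : (fun z : ℂ => φ (y + z • a + l)) = fun z => φ (y + l + z • a) := by
      funext z
      rw [add_right_comm]
    rw [h2]
    exact h1
  · have h1 : y + l ∉ D := by
      intro h2
      have h3 := hL.D_inv _ h2 (-l) (Λ.neg_mem hl)
      rw [add_neg_cancel_right] at h3
      exact hyD h3
    have h2 := hφ.cont (y + l) (tb_add hy hlE) h1
    have h3 : Tendsto (fun x : Vd (k + 1) => x + l) (𝓝 y) (𝓝 (y + l)) := (continuous_id.add continuous_const).tendsto y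
    exact h2.tendsto.comp (tendsto_nhdsWithin_iff.2 ⟨h3.mono_left nhdsWithin_le_nhds, eventually_mem_nhdsWithin.mono fun x hx => tb_add hx hlE⟩)

end Pool.Agent.G4.A

end

section

/-!
# G4 R ShtF: basic facts on a finite set of sheets

`exists_shs`: from `sht_finite`, `sht_add`.  `Shs.unif`: uniform continuity on `T ∩ Gd D δ`, `T = Tb b E` (closed: finite dimension; compactness of the bounded part, finitely many sheets, `cpt`, `tr`).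
`Shs.lm`: the curves `φ (y n + z a)` converge.  `Shs.red`: translation of a point of `T` to a bounded point.
-/

set_option autoImplicit false

open Topology Filter Metric

namespace Pool.Agent.G4.R

open Pool.Agent.H36.BP (EN fs wd)
open Pool.Agent.H14.PP (IsCone CurveAt Tan)
open Pool.Agent.H62.EF (MN pr)
open Pool.Agent.AD (Vd Chart Charts IsGerm)
open Pool.Agent.TG
open Pool.Agent.G3
open Pool.Agent.G3.R
open Pool.Agent.G3.C (Gc nv nd nv_pr)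
open Pool.Agent.G3.A (Ba Hc Dec Sepa Tht Frm NL Lm CRL Tb ToE CE Sht)
open Pool.Agent.G4.A

variable {N k : ℕ} {X : Set (EN N)} {Λ : AddSubgroup (Vd (k + 1))} {u : EN N → Vd (k + 1)} {D B Bad : Set (Vd (k + 1))} {a b w : Vd (k + 1)} {E : Submodule ℝ (Vd (k + 1))}
  {SS : Set (Vd (k + 1) → MN N)} {Γ : AddSubgroup (Vd (k + 1))} {J rW : ℕ} {W : Fin rW → Vd (k + 1) →L[ℂ] ℂ} {α : Fin J → VForm X Λ u} {c₀ C₀ ρ δ : ℝ}

theorem tb_closed (b : Vd (k + 1)) (E : Submodule ℝ (Vd (k + 1))) : IsClosed (Tb b E) := by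
  have h : Tb b E = (fun y : Vd (k + 1) => y - b) ⁻¹' (E : Set (Vd (k + 1))) := rfl
  rw [h]
  exact (Submodule.closed_of_finiteDimensional E).preimage (continuous_id.sub continuous_const)

theorem tb_add {y e : Vd (k + 1)} (hy : y ∈ Tb b E) (he : e ∈ E) : y + e ∈ Tb b E := by
  show y + e - b ∈ E
  have h : y + e - b = (y - b) + e := by abel
  rw [h]
  exact E.add_mem hy he

theorem smul_mem_E (hw : w ∈ E) (s : ℝ) : (s : ℂ) • w ∈ E := by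
  have h : (s : ℂ) • w = s • w := by
    ext i
    simp
  rw [h]
  exact E.smul_mem s hw

private theorem sf_sub {y e : Vd (k + 1)} (hy : y ∈ Tb b E) (he : e ∈ E) : y - e ∈ Tb b E := by
  rw [sub_eq_add_neg]
  exact tb_add hy (E.neg_mem he)

private theorem sf_gd (hL : LG Λ D Bad a) {δ' : ℝ} {y l : Vd (k + 1)} (hl : l ∈ Λ) : y + l ∈ Gd D δ' ↔ y ∈ Gd D δ' := by
  constructor
  · intro h b hb
    have h1 := h _ (hL.D_inv b hb l hl)
    rwa [add_sub_add_right_eq_sub] at h1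
  · intro h b hb
    have h1 := h _ (hL.D_inv b hb (-l) (Λ.neg_mem hl))
    have h2 : y - (b + -l) = y + l - b := by abel
    rwa [h2] at h1

private theorem sf_unif {φ : Vd (k + 1) → MN N} (hφ : Sht X Λ u D a (Tb b E) φ) {δ' η : ℝ} (hδ : 0 < δ') (hη : 0 < η) (R : ℝ) :
    ∃ r : ℝ, 0 < r ∧ ∀ y ∈ Tb b E, y ∈ Gd D δ' → ‖y - b‖ ≤ R → ∀ y' ∈ Tb b E, ‖y' - y‖ ≤ r → dist (φ y') (φ y) ≤ η := by
  have hT := tb_closed b E
  set K : Set (Tb b E) := {y | (y : Vd (k + 1)) ∈ Gd D δ' ∧ ‖(y : Vd (k + 1)) - b‖ ≤ R} with hK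
  have hKc : IsCompact K := by
    have h1 : IsCompact (Gd D δ' ∩ closedBall b R) := (isCompact_closedBall b R).inter_left (gd_closed D δ')
    have h2 : K = Subtype.val ⁻¹' (Gd D δ' ∩ closedBall b R) := by
      ext y
      simp [hK, mem_closedBall, dist_eq_norm]
    rw [h2]
    exact hT.isClosedEmbedding_subtypeVal.isCompact_preimage h1
  have hc : ∀ y ∈ K, ContinuousAt (fun y : Tb b E => φ y) y := by
    intro y hy
    have h1 := hφ.cont y y.2 (gd_notMem hδ hy.1)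
    exact continuousWithinAt_iff_continuousAt_domRestrict φ y.2 |>.1 h1
  have h3 := hKc.uniformContinuousAt_of_continuousAt (fun y : Tb b E => φ y) hc (Metric.dist_mem_uniformity hη)
  obtain ⟨r, hr, h4⟩ := Metric.mem_uniformity_dist.1 h3
  refine ⟨r / 2, half_pos hr, fun y hy hyD hyR y' hy' hd => ?_⟩
  have h5 : dist (⟨y, hy⟩ : Tb b E) ⟨y', hy'⟩ < r := by
    rw [Subtype.dist_eq, dist_comm, dist_eq_norm]
    linarith
  have h6 := h4 h5 (show (⟨y, hy⟩ : Tb b E) ∈ K from ⟨hyD, hyR⟩)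
  have h7 : dist (φ y) (φ y') < η := h6
  rw [dist_comm]
  exact h7.le

theorem _root_.Pool.Agent.G3.R.Shs.unif4 (h : Shs X Λ u D a b E SS) (hL : LG Λ D Bad a) {δ' η : ℝ} (hδ : 0 < δ') (hη : 0 < η) :
    ∃ r : ℝ, 0 < r ∧ ∀ φ ∈ SS, ∀ y ∈ Tb b E, y ∈ Gd D δ' → ∀ y' ∈ Tb b E, ‖y' - y‖ ≤ r → dist (φ y') (φ y) ≤ η := by
  obtain ⟨R, -, hcpt⟩ := h.cpt
  have h1 : ∀ φ ∈ SS, ∀ᶠ r in 𝓝[>] (0 : ℝ), ∀ y ∈ Tb b E, y ∈ Gd D δ' → ‖y - b‖ ≤ R → ∀ y' ∈ Tb b E, ‖y' - y‖ ≤ r → dist (φ y') (φ y) ≤ η := by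
    intro φ hφ
    obtain ⟨r, hr, h2⟩ := sf_unif (h.sht φ hφ) hδ hη R
    filter_upwards [Ioc_mem_nhdsGT hr] with s hs y hy hyD hyR y' hy' hd
    exact h2 y hy hyD hyR y' hy' (hd.trans hs.2)
  obtain ⟨r, h2, hr⟩ := (((Filter.eventually_all_finite h.fin).2 h1).and self_mem_nhdsWithin).exists
  refine ⟨r, hr, fun φ hφ y hy hyD y' hy' hd => ?_⟩
  obtain ⟨l, hl, hlE, hlR⟩ := hcpt (y - b) hy
  obtain ⟨φ', hφ', h3⟩ := h.tr φ hφ l hl hlE
  have e1 : φ' (y - l) = φ y := by rw [h3 _ (sf_sub hy hlE), sub_add_cancel]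
  have e2 : φ' (y' - l) = φ y' := by rw [h3 _ (sf_sub hy' hlE), sub_add_cancel]
  rw [← e1, ← e2]
  refine h2 φ' hφ' _ (sf_sub hy hlE) ?_ ?_ _ (sf_sub hy' hlE) ?_
  · rw [sub_eq_add_neg, sf_gd hL (Λ.neg_mem hl)]
    exact hyD
  · rw [sub_right_comm]
    exact hlR
  · rw [sub_sub_sub_cancel_right]
    exact hd

/-- `φ y` is a point of the fibre over `y` -/
theorem _root_.Pool.Agent.G3.R.Shs.fb4 (h : Shs X Λ u D a b E SS) {φ : Vd (k + 1) → MN N} (hφ : φ ∈ SS) {y : Vd (k + 1)} (hy : y ∈ Tb b E) : φ y ∈ Fb X Λ u y := by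
  have h1 := hc_mem ((h.sht φ hφ).line y hy) 0
  simpa using h1

theorem _root_.Pool.Agent.G3.R.Shs.lm4 (h : Shs X Λ u D a b E SS) {φ : Vd (k + 1) → MN N} (hφ : φ ∈ SS) {ι : Type*} {l : Filter ι} {y : ι → Vd (k + 1)} {y₀ : Vd (k + 1)} (hyT : ∀ n, y n ∈ Tb b E)
    (hy₀ : y₀ ∈ Tb b E) (hy : Tendsto y l (𝓝 y₀)) : Lm D a l y₀ (fun n z => φ (y n + z • a)) fun z => φ (y₀ + z • a) := by
  intro z hz w hw
  have h1 := (h.sht φ hφ).cont (y₀ + z • a) (tb_add hy₀ (h.mem z)) hz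
  exact h1.tendsto.comp (tendsto_nhdsWithin_iff.2 ⟨hy.add (hw.smul_const a), Eventually.of_forall fun n => tb_add (hyT n) (h.mem (w n))⟩)

/-- translation to a bounded point -/
theorem _root_.Pool.Agent.G3.R.Shs.red4 (h : Shs X Λ u D a b E SS) : ∃ R : ℝ, 0 < R ∧ ∀ φ ∈ SS, ∀ y ∈ Tb b E, ∃ l ∈ Λ, l ∈ E ∧ ∃ φ' ∈ SS, ∃ y' ∈ Tb b E, ‖y'‖ ≤ R ∧ y = y' + l ∧
    ∀ e ∈ E, φ' (y' + e) = φ (y + e) := by
  obtain ⟨R, hR, hcpt⟩ := h.cpt
  refine ⟨R + ‖b‖, by positivity, fun φ hφ y hy => ?_⟩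
  obtain ⟨l, hl, hlE, hlR⟩ := hcpt (y - b) hy
  obtain ⟨φ', hφ', h3⟩ := h.tr φ hφ l hl hlE
  refine ⟨l, hl, hlE, φ', hφ', y - l, sf_sub hy hlE, ?_, (sub_add_cancel y l).symm, fun e he => ?_⟩
  · have h4 : y - l = (y - b - l) + b := by abel
    rw [h4]
    exact (norm_add_le _ _).trans (by linarith)
  · rw [h3 _ (tb_add (sf_sub hy hlE) he)]
    congr 1
    abel

/-- `Gd` and `Co` are invariant -/
theorem gd_add' (hL : LG Λ D Bad a) {δ' : ℝ} {y l : Vd (k + 1)} (hl : l ∈ Λ) : y + l ∈ Gd D δ' ↔ y ∈ Gd D δ' := by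
  exact sf_gd hL hl

theorem co_add (hL : LG Λ D Bad a) {δ' ρ' : ℝ} {y l : Vd (k + 1)} (hl : l ∈ Λ) : y + l ∈ Co D Bad δ' ρ' ↔ y ∈ Co D Bad δ' ρ' := sf_gd hL hl

end Pool.Agent.G4.R

end

section

/-!
# G4 R Md: from the core to all good points

Let the divided differences of the orders `≤ m` be bounded (`DDb`).  If those of order `m + 1`, for nodes `σ` of size `≤ r`, are at most `Nb` (`Nb ≥ 1`) over the core, then they are at most `K Nb` over `Gd D δ'`.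
PROOF.  `Md_loc`: the statement for the points `y` near a point `y₀` of `T ∩ Gd D δ'`; then compactness and translations (`Shs.red`).
`G₀` an honest lift of `φ (y₀ + z a)`, `v₀ = G₀ 0 / ‖G₀ 0‖`.  `LC.thick` at `y₀`: `r` with `y' + z a ∈ Co D Bad δ ρ` for `‖y' - y₀‖ ≤ δ`, `|‖z‖ - r| ≤ δ`.  The zeros of `z ↦ ⟨v₀, G₀ z⟩` are isolated, so there is `r'`,
`r < r' < r + δ`, with `⟨v₀, G₀ z⟩ ≠ 0` for `‖z‖ = r'` (`Md_circle`).  `NL`: lifts `F i` on `ball 0 2` of `z ↦ φ (y + σ i w + z a)`, `i ≤ m + 1`, `‖F‖ ≤ 1`, `‖F‖ ≥ c` over `Gd D δ''`.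
`V z = ∑ i, dw (m + 1) σ i • (∏ j ≠ i, ⟨v₀, F j z⟩) • F i z` is holomorphic on `ball 0 2`, and `V z = (∏ j, ⟨v₀, F j z⟩) • dd (m + 1) σ (s ↦ nv v₀ (φ (y + s w + z a)))` where all factors are `≠ 0` (`Md_alg`).
On the circle `‖z‖ = r'` (`|⟨v₀, F i z⟩| ≥ κ ‖F i z‖`, `Md_inner`): `‖V z‖ ≤ K₁ (Nb + 1)` by `dd_nv` (from a unit vector `v'` with `pr v' = φ (y + z a)`, `Md_chg`); maximum principle; at `0` the
factors are `≥ c / 2`: the divided difference at `y` in the chart `nv v₀` is `≤ K₂ (Nb + 1)`, and `dd_nv` gives the chart `nv v`.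
-/

set_option autoImplicit false

open Topology Filter Metric

namespace Pool.Agent.G4.R

open Pool.Agent.H36.BP (EN fs wd)
open Pool.Agent.H14.PP (IsCone CurveAt Tan)
open Pool.Agent.H62.EF (MN pr pr_smul)
open Pool.Agent.AD (Vd Chart Charts IsGerm)
open Pool.Agent.TG
open Pool.Agent.G3
open Pool.Agent.G3.R
open Pool.Agent.G3.C (Gc nv nd nv_pr)
open Pool.Agent.G3.A (Ba Hc Dec Sepa Tht Frm NL Lm CRL Tb ToE CE Sht)
open Pool.Agent.G4.A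

variable {N k : ℕ} {X : Set (EN N)} {Λ : AddSubgroup (Vd (k + 1))} {u : EN N → Vd (k + 1)} {D B Bad : Set (Vd (k + 1))} {a b w : Vd (k + 1)} {E : Submodule ℝ (Vd (k + 1))}
  {SS : Set (Vd (k + 1) → MN N)} {Γ : AddSubgroup (Vd (k + 1))} {J rW : ℕ} {W : Fin rW → Vd (k + 1) →L[ℂ] ℂ} {α : Fin J → VForm X Λ u} {c₀ C₀ ρ δ : ℝ}

/-- a circle without zeros -/
private theorem Md_circle {g : ℂ → ℂ} (hg : Differentiable ℂ g) (h0 : g 0 ≠ 0) {r₁ r₂ : ℝ} (h12 : r₁ < r₂) :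
    ∃ r : ℝ, r₁ < r ∧ r < r₂ ∧ ∀ z : ℂ, ‖z‖ = r → g z ≠ 0 := by
  have hZ : {z : ℂ | g z = 0}.Countable := by
    have hd : DiscreteTopology {z : ℂ | g z = 0} := by
      rw [discreteTopology_subtype_iff]
      intro z hz
      rw [Filter.inf_principal_eq_bot]
      rcases (hg.analyticAt z).eventually_eq_zero_or_eventually_ne_zero with h | h
      · exfalso
        have h2 : AnalyticOnNhd ℂ g Set.univ := fun w _ => hg.analyticAt w
        have h3 := h2.eqOn_zero_of_preconnected_of_eventuallyEq_zero isPreconnected_univ (Set.mem_univ z) h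
        exact h0 (h3 (Set.mem_univ 0))
      · filter_upwards [h] with w hw hw2
        exact hw hw2
    rw [← Set.countable_coe_iff]
    exact countable_of_Lindelof_of_discrete
  have h1 : ((fun z : ℂ => ‖z‖) '' {z : ℂ | g z = 0}).Countable := hZ.image _
  have h2 : ¬ (Set.Ioo r₁ r₂).Countable := by
    intro h
    have := Cardinal.mk_Ioo_real h12
    have h4 := Cardinal.le_aleph0_iff_set_countable.2 h
    rw [this] at h4
    exact absurd h4 (not_le.2 Cardinal.aleph0_lt_continuum)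
  have h3 : ∃ r ∈ Set.Ioo r₁ r₂, r ∉ (fun z : ℂ => ‖z‖) '' {z : ℂ | g z = 0} := by
    by_contra hcon
    push Not at hcon
    exact h2 (h1.mono fun r hr => hcon r hr)
  obtain ⟨r, hr, hr2⟩ := h3
  exact ⟨r, hr.1, hr.2, fun z hz hgz => hr2 ⟨z, hgz, hz⟩⟩

/-- common denominators -/
private theorem Md_alg {m : ℕ} {σ : ℕ → ℝ} {g : ℝ → EN N} {F : ℕ → EN N} {c : ℕ → ℂ} (hc : ∀ i ≤ m, c i ≠ 0) (hg : ∀ i ≤ m, g (σ i) = (c i)⁻¹ • F i) :
    ∑ i ∈ Finset.range (m + 1), ((dw m σ i : ℝ) : ℂ) • (∏ j ∈ (Finset.range (m + 1)).erase i, c j) • F i = (∏ j ∈ Finset.range (m + 1), c j) • dd m σ g := by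
  unfold dd
  rw [Finset.smul_sum]
  refine Finset.sum_congr rfl fun i hi => ?_
  have hi' : i ≤ m := Nat.lt_succ_iff.1 (Finset.mem_range.1 hi)
  rw [hg i hi', ← Finset.mul_prod_erase _ _ hi, smul_smul, smul_smul, smul_smul]
  congr 1
  have := hc i hi'
  field_simp

/-- the inner product with a vector of a near line -/
private theorem Md_inner {κ : ℝ} (hκ : 0 < κ) : ∃ ε : ℝ, 0 < ε ∧ ∀ v₀ : EN N, ‖v₀‖ = 1 → ∀ g : EN N, g ≠ 0 → κ * ‖g‖ ≤ ‖(inner ℂ v₀ g : ℂ)‖ →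
    ∀ x : EN N, x ≠ 0 → dist (pr x) (pr g) ≤ ε → κ / 2 * ‖x‖ ≤ ‖(inner ℂ v₀ x : ℂ)‖ := by
  obtain ⟨ε, hε, h⟩ := exists_unit_near (N := N) (η := κ / 2) (by positivity)
  refine ⟨ε, hε, fun v₀ hv₀ g hg hgκ x hx hd => ?_⟩
  have hgn : 0 < ‖g‖ := norm_pos_iff.2 hg
  set v : EN N := ((‖g‖⁻¹ : ℝ) : ℂ) • g with hv
  have hcne : ((‖g‖⁻¹ : ℝ) : ℂ) ≠ 0 := by exact_mod_cast inv_ne_zero hgn.ne'
  have hv1 : ‖v‖ = 1 := by rw [hv, norm_smul, Complex.norm_real, norm_inv, norm_norm, inv_mul_cancel₀ hgn.ne']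
  have hpv : pr v = pr g := pr_smul g hcne
  obtain ⟨c, hc, hc1, hc2⟩ := h v hv1 x hx (by rw [hpv]; exact hd)
  have h1 : κ ≤ ‖(inner ℂ v₀ v : ℂ)‖ := by
    rw [hv, inner_smul_right, norm_mul, Complex.norm_real, norm_inv, norm_norm, inv_mul_eq_div, le_div_iff₀ hgn]
    exact hgκ
  have h2 : ‖(inner ℂ v₀ v - inner ℂ v₀ (c • x) : ℂ)‖ ≤ κ / 2 := by
    rw [← inner_sub_right]
    refine (norm_inner_le_norm _ _).trans ?_
    rw [hv₀, one_mul, norm_sub_rev]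
    exact hc2.le
  have h3 : κ / 2 ≤ ‖(inner ℂ v₀ (c • x) : ℂ)‖ := by
    have h4 := norm_le_norm_add_norm_sub' (inner ℂ v₀ v : ℂ) (inner ℂ v₀ (c • x))
    linarith only [h1, h2, h4]
  rw [inner_smul_right, norm_mul] at h3
  rw [norm_smul] at hc1
  have h5 : κ / 2 * ‖x‖ ≤ ‖c‖ * ‖(inner ℂ v₀ x : ℂ)‖ * ‖x‖ := mul_le_mul_of_nonneg_right h3 (norm_nonneg x)
  calc κ / 2 * ‖x‖ ≤ ‖c‖ * ‖(inner ℂ v₀ x : ℂ)‖ * ‖x‖ := h5
    _ = (‖c‖ * ‖x‖) * ‖(inner ℂ v₀ x : ℂ)‖ := by ring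
    _ = ‖(inner ℂ v₀ x : ℂ)‖ := by rw [hc1, one_mul]

/-- the bound for the divided differences of the orders `≤ m`, with the same constants -/
private theorem Md_low {m : ℕ} (hm : ∀ j ≤ m, DDb D (Tb b E) SS w j) {δ' : ℝ} (hδ' : 0 < δ') : ∃ r C : ℝ, 0 < r ∧ 0 ≤ C ∧ ∀ j ≤ m, ∀ φ ∈ SS, ∀ y ∈ Tb b E, y ∈ Gd D δ' →
    ∀ v : EN N, ‖v‖ = 1 → pr v = φ y → ∀ σ : ℕ → ℝ, Nod j σ r → ‖dd j σ fun s : ℝ => nv v (φ (y + (s : ℂ) • w))‖ ≤ C := by
  induction m with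
  | zero =>
    obtain ⟨r, C, hr, hC, h⟩ := hm 0 le_rfl δ' hδ'
    refine ⟨r, C, hr, hC, fun j hj => ?_⟩
    obtain rfl : j = 0 := Nat.le_zero.1 hj
    exact h
  | succ m ih =>
    obtain ⟨r₁, C₁, hr₁, hC₁, h₁⟩ := ih fun j hj => hm j (hj.trans (Nat.le_succ m))
    obtain ⟨r₂, C₂, hr₂, hC₂, h₂⟩ := hm (m + 1) le_rfl δ' hδ'
    refine ⟨min r₁ r₂, max C₁ C₂, lt_min hr₁ hr₂, hC₁.trans (le_max_left _ _), fun j hj φ hφ y hy hyD v hv hpv σ hσ => ?_⟩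
    rcases Nat.le_succ_iff.1 hj with hj | hj
    · exact (h₁ j hj φ hφ y hy hyD v hv hpv σ (hσ.mono le_rfl (min_le_left _ _))).trans (le_max_left _ _)
    · subst hj
      exact (h₂ φ hφ y hy hyD v hv hpv σ (hσ.mono le_rfl (min_le_right _ _))).trans (le_max_right _ _)

/-- the change of the chart at the point `y` -/
private theorem Md_chg (S : DA X Λ u D B Bad a Γ W α c₀ C₀ ρ δ) (hS : Shs X Λ u D a b E SS) (hw : w ∈ E) {m : ℕ} (hm : ∀ j ≤ m, DDb D (Tb b E) SS w j) {δ' κ : ℝ} (hδ' : 0 < δ')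
    (hκ : 0 < κ) : ∃ r K : ℝ, 0 < r ∧ 0 < K ∧ ∀ φ ∈ SS, ∀ y ∈ Tb b E, y ∈ Gd D δ' → ∀ v' : EN N, ‖v'‖ = 1 → pr v' = φ y → ∀ v : EN N, ‖v‖ = 1 → κ ≤ ‖(inner ℂ v v' : ℂ)‖ →
      ∀ σ : ℕ → ℝ, Nod (m + 1) σ r → (∀ j ≤ m, ‖dd j σ fun s : ℝ => nv v (φ (y + (s : ℂ) • w))‖ ≤ K) ∧
        ‖dd (m + 1) σ fun s : ℝ => nv v (φ (y + (s : ℂ) • w))‖ ≤ K * (‖dd (m + 1) σ fun s : ℝ => nv v' (φ (y + (s : ℂ) • w))‖ + 1) := by
  obtain ⟨r₁, C₁, hr₁, hC₁, h₁⟩ := Md_low hm hδ'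
  obtain ⟨r₂, K, ε, hr₂, hK, hε, h₂⟩ := dd_nv (N := N) m hκ hC₁
  obtain ⟨r₃, hr₃, h₃⟩ := hS.unif4 S.lg hδ' hε
  have hw1 : 0 < ‖w‖ + 1 := by positivity
  refine ⟨min r₁ (min r₂ (r₃ / (‖w‖ + 1))), K, lt_min hr₁ (lt_min hr₂ (by positivity)), hK, fun φ hφ y hy hyD v' hv' hpv' v hv hvv σ hσ => ?_⟩
  have hσ1 : Nod (m + 1) σ r₁ := hσ.mono le_rfl (min_le_left _ _)
  have hσ2 : Nod (m + 1) σ r₂ := hσ.mono le_rfl ((min_le_right _ _).trans (min_le_left _ _))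
  have hσ3 : Nod (m + 1) σ (r₃ / (‖w‖ + 1)) := hσ.mono le_rfl ((min_le_right _ _).trans (min_le_right _ _))
  refine h₂ v v' hv hv' hvv σ (fun s : ℝ => φ (y + (s : ℂ) • w)) hσ2 (fun i hi => ?_) fun j hj => h₁ j hj φ hφ y hy hyD v' hv' hpv' σ (hσ1.mono (hj.trans (Nat.le_succ m)) le_rfl)
  have hyi : y + ((σ i : ℝ) : ℂ) • w ∈ Tb b E := tb_add hy (smul_mem_E hw _)
  obtain ⟨x, hxX, hpx, -⟩ := hS.fb4 hφ hyi
  refine ⟨x, fun h0 => S.geo.cone.zero_notMem (h0 ▸ hxX), hpx.symm, ?_⟩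
  rw [hpx, hpv']
  refine h₃ φ hφ y hy hyD _ hyi ?_
  have e : y + ((σ i : ℝ) : ℂ) • w - y = ((σ i : ℝ) : ℂ) • w := by abel
  rw [e, norm_smul, Complex.norm_real, Real.norm_eq_abs]
  have h4 := hσ3.le i hi
  rw [le_div_iff₀ hw1] at h4
  have := abs_nonneg (σ i)
  nlinarith only [h4, this, norm_nonneg w]

/-- the statement for the points near `y₀` -/
private theorem Md_loc (S : DA X Λ u D B Bad a Γ W α c₀ C₀ ρ δ) (hS : Shs X Λ u D a b E SS) (hw : w ∈ E) {m : ℕ} (hm : ∀ j ≤ m, DDb D (Tb b E) SS w j) {δ' : ℝ} (hδ' : 0 < δ')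
    {φ : Vd (k + 1) → MN N} (hφ : φ ∈ SS) {y₀ : Vd (k + 1)} (hy₀ : y₀ ∈ Tb b E) (hy₀D : y₀ ∈ Gd D δ') :
    ∃ ε r K : ℝ, 0 < ε ∧ 0 < r ∧ 0 < K ∧ ∀ (σ : ℕ → ℝ) (Nb : ℝ), Nod (m + 1) σ r → 1 ≤ Nb →
      (∀ φ ∈ SS, ∀ y ∈ Tb b E, y ∈ Co D Bad δ ρ → ∀ v : EN N, ‖v‖ = 1 → pr v = φ y → ‖dd (m + 1) σ fun s : ℝ => nv v (φ (y + (s : ℂ) • w))‖ ≤ Nb) →
      ∀ y ∈ Tb b E, ‖y - y₀‖ ≤ ε → ∀ v : EN N, ‖v‖ = 1 → pr v = φ y → ‖dd (m + 1) σ fun s : ℝ => nv v (φ (y + (s : ℂ) • w))‖ ≤ K * Nb := by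
  obtain ⟨rc, hrc0, hrc2, hthick⟩ := S.lc.thick y₀
  obtain ⟨G₀, ⟨hG₀d, hG₀X, -⟩, hG₀e⟩ := (hS.sht φ hφ).line y₀ hy₀
  have hG₀0 : ∀ z, G₀ z ≠ 0 := fun z h0 => S.geo.cone.zero_notMem (h0 ▸ hG₀X z)
  have hG₀n : 0 < ‖G₀ 0‖ := norm_pos_iff.2 (hG₀0 0)
  have hφG : ∀ z : ℂ, φ (y₀ + z • a) = pr (G₀ z) := fun z => congrFun hG₀e z
  set v₀ : EN N := ((‖G₀ 0‖⁻¹ : ℝ) : ℂ) • G₀ 0 with hv₀
  have hcne : ((‖G₀ 0‖⁻¹ : ℝ) : ℂ) ≠ 0 := by exact_mod_cast inv_ne_zero hG₀n.ne'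
  have hv₀1 : ‖v₀‖ = 1 := by rw [hv₀, norm_smul, Complex.norm_real, norm_inv, norm_norm, inv_mul_cancel₀ hG₀n.ne']
  have hv₀ne : v₀ ≠ 0 := norm_pos_iff.1 (by rw [hv₀1]; exact one_pos)
  have hpv₀ : pr v₀ = φ y₀ := by
    rw [hv₀, pr_smul _ hcne, ← hφG 0, zero_smul, add_zero]
  -- the circle
  have hgd : Differentiable ℂ fun z : ℂ => (inner ℂ v₀ (G₀ z) : ℂ) := (innerSL ℂ v₀).differentiable.comp hG₀d
  have hg0 : (inner ℂ v₀ (G₀ 0) : ℂ) ≠ 0 := by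
    rw [hv₀, inner_smul_left, inner_self_eq_norm_sq_to_K]
    refine mul_ne_zero ?_ ?_
    · rw [Complex.conj_ofReal]
      exact hcne
    · exact pow_ne_zero 2 (RCLike.ofReal_ne_zero.2 hG₀n.ne')
  obtain ⟨r', hr'1, hr'2, hr'0⟩ := Md_circle hgd hg0 (lt_add_of_pos_right rc S.lc.δ_pos)
  have hr'pos : 0 < r' := hrc0.trans hr'1
  have hδpos := S.lc.δ_pos
  have hr'le : r' < 1 := by
    have h1 := S.lc.ρ_le
    have h2 := S.lc.δ_le
    linarith only [hrc2, hr'1, hr'2, h1, h2]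
  have habs : ∀ z : ℂ, ‖z‖ = r' → |‖z‖ - rc| ≤ δ := by
    intro z hz
    rw [hz, abs_of_pos (by linarith)]
    linarith
  obtain ⟨κ₀, hκ₀, hκ₀2⟩ : ∃ κ₀ : ℝ, 0 < κ₀ ∧ ∀ z ∈ sphere (0 : ℂ) r', κ₀ ≤ ‖(inner ℂ v₀ (G₀ z) : ℂ)‖ / ‖G₀ z‖ := by
    refine (isCompact_sphere (0 : ℂ) r').exists_forall_le' ?_ ?_
    · exact (hgd.continuous.norm.div₀ hG₀d.continuous.norm fun z => (norm_pos_iff.2 (hG₀0 z)).ne').continuousOn
    · intro z hz
      rw [mem_sphere_zero_iff_norm] at hz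
      exact div_pos (norm_pos_iff.2 (hr'0 z hz)) (norm_pos_iff.2 (hG₀0 z))
  -- the constants
  obtain ⟨ε₁, hε₁, hin⟩ := Md_inner (N := N) hκ₀
  obtain ⟨ε₂, hε₂, hin2⟩ := Md_inner (N := N) (κ := 1) one_pos
  obtain ⟨r₁, K₁, hr₁, hK₁, hchg⟩ := Md_chg S hS hw hm (δ' := 2 * δ) (κ := κ₀ / 2) (by positivity) (by positivity)
  obtain ⟨r₂, K₂, hr₂, hK₂, hchg2⟩ := Md_chg S hS hw hm (δ' := δ' / 2) (κ := 1 / 2) (by positivity) (by norm_num)
  obtain ⟨r₃, K₃, ε₃, hr₃, hK₃, hε₃, hnv⟩ := dd_nv (N := N) m (κ := 1 / 2) (C := K₂) (by norm_num) hK₂.le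
  obtain ⟨r₄, hr₄, hun⟩ := hS.unif4 S.lg (δ' := 2 * δ) (η := ε₁) (by positivity) hε₁
  obtain ⟨r₅, hr₅, hun0⟩ := hS.unif4 S.lg hδ' (η := min ε₂ ε₃) (lt_min hε₂ hε₃)
  obtain ⟨c, hc, hnl⟩ := S.nl (δ' / 2) (by positivity)
  obtain ⟨ε, hε, hεδ, hεδ', hε4, hε5⟩ : ∃ ε : ℝ, 0 < ε ∧ ε ≤ δ ∧ 2 * ε ≤ δ' / 2 ∧ 2 * ε ≤ r₄ ∧ 2 * ε ≤ r₅ := by
    refine ⟨min δ (min (δ' / 4) (min (r₄ / 2) (r₅ / 2))), by positivity, min_le_left _ _, ?_, ?_, ?_⟩
    · have := (min_le_right δ (min (δ' / 4) (min (r₄ / 2) (r₅ / 2)))).trans (min_le_left _ _)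
      linarith
    · have := (min_le_right δ (min (δ' / 4) (min (r₄ / 2) (r₅ / 2)))).trans ((min_le_right _ _).trans (min_le_left _ _))
      linarith
    · have := (min_le_right δ (min (δ' / 4) (min (r₄ / 2) (r₅ / 2)))).trans ((min_le_right _ _).trans (min_le_right _ _))
      linarith
  have hw1 : 0 < ‖w‖ + 1 := by positivity
  refine ⟨ε, min (min r₁ r₂) (min r₃ (ε / (‖w‖ + 1))), K₃ * ((2 / c) ^ (m + 2) * (K₁ * 2) + 1), hε, by positivity, by positivity, fun σ Nb hσ hNb hcore y hy hyy v hv hpv => ?_⟩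
  have hσ1 : Nod (m + 1) σ r₁ := hσ.mono le_rfl ((min_le_left _ _).trans (min_le_left _ _))
  have hσ2 : Nod (m + 1) σ r₂ := hσ.mono le_rfl ((min_le_left _ _).trans (min_le_right _ _))
  have hσ3 : Nod (m + 1) σ r₃ := hσ.mono le_rfl ((min_le_right _ _).trans (min_le_left _ _))
  have hσ4 : Nod (m + 1) σ (ε / (‖w‖ + 1)) := hσ.mono le_rfl ((min_le_right _ _).trans (min_le_right _ _))
  have hσw : ∀ i ≤ m + 1, ‖((σ i : ℝ) : ℂ) • w‖ ≤ ε := by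
    intro i hi
    rw [norm_smul, Complex.norm_real, Real.norm_eq_abs]
    have h4 := hσ4.le i hi
    rw [le_div_iff₀ hw1] at h4
    have := abs_nonneg (σ i)
    nlinarith only [h4, this, norm_nonneg w]
  have hyi : ∀ i : ℕ, y + ((σ i : ℝ) : ℂ) • w ∈ Tb b E := fun i => tb_add hy (smul_mem_E hw _)
  have hyiz : ∀ (i : ℕ) (z : ℂ), y + ((σ i : ℝ) : ℂ) • w + z • a ∈ Tb b E := fun i z => tb_add (hyi i) (hS.mem z)
  have hnear : ∀ i ≤ m + 1, ‖y + ((σ i : ℝ) : ℂ) • w - y₀‖ ≤ 2 * ε := by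
    intro i hi
    have e : y + ((σ i : ℝ) : ℂ) • w - y₀ = (y - y₀) + ((σ i : ℝ) : ℂ) • w := by abel
    rw [e]
    refine (norm_add_le _ _).trans ?_
    linarith only [hyy, hσw, hi, hσw i hi]
  choose F hFd hF1 hFc using fun i : ℕ => hnl (y + ((σ i : ℝ) : ℂ) • w) (fun z : ℂ => φ (y + ((σ i : ℝ) : ℂ) • w + z • a)) ((hS.sht φ hφ).line _ (hyi i)) 0
  have hF0 : ∀ (i : ℕ) (z : ℂ), z ∈ ball (0 : ℂ) 2 → F i z ≠ 0 := fun i z hz h0 => S.geo.cone.zero_notMem (h0 ▸ (hF1 i z hz).1)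
  set V : ℂ → EN N := fun z => ∑ i ∈ Finset.range (m + 1 + 1), ((dw (m + 1) σ i : ℝ) : ℂ) • (∏ j ∈ (Finset.range (m + 1 + 1)).erase i, (inner ℂ v₀ (F j z) : ℂ)) • F i z with hV
  have hVeq : ∀ z ∈ ball (0 : ℂ) 2, (∀ i ≤ m + 1, (inner ℂ v₀ (F i z) : ℂ) ≠ 0) →
      V z = (∏ j ∈ Finset.range (m + 1 + 1), (inner ℂ v₀ (F j z) : ℂ)) • dd (m + 1) σ fun s : ℝ => nv v₀ (φ (y + z • a + (s : ℂ) • w)) := by
    intro z hz hne
    refine Md_alg hne fun i hi => ?_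
    have e : y + z • a + ((σ i : ℝ) : ℂ) • w = y + ((σ i : ℝ) : ℂ) • w + z • a := by abel
    have h1 : φ (y + z • a + ((σ i : ℝ) : ℂ) • w) = pr (F i z) := by
      rw [e]
      exact (hF1 i z hz).2.1
    simp only [h1]
    exact nv_pr (hne i hi)
  have hVd : DifferentiableOn ℂ V (ball 0 2) := by
    have hin : ∀ j, DifferentiableOn ℂ (fun z => (inner ℂ v₀ (F j z) : ℂ)) (ball 0 2) := fun j => (innerSL ℂ v₀).differentiable.comp_differentiableOn (hFd j)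
    refine DifferentiableOn.fun_sum fun i _ => ?_
    exact ((DifferentiableOn.fun_finsetProd fun j _ => hin j).fun_smul (hFd i)).fun_const_smul _
  have hprod : ∀ z ∈ ball (0 : ℂ) 2, ‖∏ j ∈ Finset.range (m + 1 + 1), (inner ℂ v₀ (F j z) : ℂ)‖ ≤ 1 := by
    intro z hz
    rw [norm_prod]
    refine Finset.prod_le_one (fun _ _ => norm_nonneg _) fun j _ => ?_
    refine (norm_inner_le_norm _ _).trans ?_
    rw [hv₀1, one_mul]
    exact (hF1 j z hz).2.2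
  -- the circle
  have hcirc : ∀ z : ℂ, ‖z‖ = r' → ‖V z‖ ≤ K₁ * (Nb + 1) := by
    intro z hz
    have hz2 : z ∈ ball (0 : ℂ) 2 := by
      rw [mem_ball_zero_iff]
      linarith only [hrc0, hr'1, hr'le, hz]
    have hy₀z : y₀ + z • a ∈ Co D Bad δ ρ := hthick y₀ (by rw [sub_self, norm_zero]; exact hδpos.le) z (habs z hz)
    have hyz : y + z • a ∈ Co D Bad δ ρ := hthick y (hyy.trans hεδ) z (habs z hz)
    have hyzT : y + z • a ∈ Tb b E := tb_add hy (hS.mem z)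
    have hy₀zT : y₀ + z • a ∈ Tb b E := tb_add hy₀ (hS.mem z)
    have hκz : κ₀ * ‖G₀ z‖ ≤ ‖(inner ℂ v₀ (G₀ z) : ℂ)‖ := by
      have := hκ₀2 z (by rw [mem_sphere_zero_iff_norm]; exact hz)
      rwa [le_div_iff₀ (norm_pos_iff.2 (hG₀0 z))] at this
    have hne : ∀ i ≤ m + 1, (inner ℂ v₀ (F i z) : ℂ) ≠ 0 := by
      intro i hi
      have h1 : dist (pr (F i z)) (pr (G₀ z)) ≤ ε₁ := by
        rw [← hφG z, ← (hF1 i z hz2).2.1]
        refine hun φ hφ _ hy₀zT hy₀z _ (hyiz i z) ?_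
        have e : y + ((σ i : ℝ) : ℂ) • w + z • a - (y₀ + z • a) = y + ((σ i : ℝ) : ℂ) • w - y₀ := by abel
        rw [e]
        exact (hnear i hi).trans hε4
      have h2 := hin v₀ hv₀1 (G₀ z) (hG₀0 z) hκz (F i z) (hF0 i z hz2) h1
      have h3 : 0 < κ₀ / 2 * ‖F i z‖ := mul_pos (by positivity) (norm_pos_iff.2 (hF0 i z hz2))
      exact norm_pos_iff.1 (h3.trans_le h2)
    obtain ⟨v', hv'1, hpv'⟩ : ∃ v' : EN N, ‖v'‖ = 1 ∧ pr v' = φ (y + z • a) := by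
      obtain ⟨x, hxX, hpx, -⟩ := hS.fb4 hφ hyzT
      have hx0 : x ≠ 0 := fun h0 => S.geo.cone.zero_notMem (h0 ▸ hxX)
      have hxn : 0 < ‖x‖ := norm_pos_iff.2 hx0
      refine ⟨((‖x‖⁻¹ : ℝ) : ℂ) • x, ?_, ?_⟩
      · rw [norm_smul, Complex.norm_real, norm_inv, norm_norm, inv_mul_cancel₀ hxn.ne']
      · rw [pr_smul _ (by exact_mod_cast inv_ne_zero hxn.ne'), hpx]
    have hv'0 : v' ≠ 0 := norm_pos_iff.1 (by rw [hv'1]; exact one_pos)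
    have hvv : κ₀ / 2 ≤ ‖(inner ℂ v₀ v' : ℂ)‖ := by
      have h1 : dist (pr v') (pr (G₀ z)) ≤ ε₁ := by
        rw [← hφG z, hpv']
        refine hun φ hφ _ hy₀zT hy₀z _ hyzT ?_
        have e : y + z • a - (y₀ + z • a) = y - y₀ := by abel
        rw [e]
        linarith
      have h2 := hin v₀ hv₀1 (G₀ z) (hG₀0 z) hκz v' hv'0 h1
      rwa [hv'1, mul_one] at h2
    have h1 := (hchg φ hφ (y + z • a) hyzT hyz v' hv'1 hpv' v₀ hv₀1 hvv σ hσ1).2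
    have h2 := hcore φ hφ (y + z • a) hyzT hyz v' hv'1 hpv'
    rw [hVeq z hz2 hne, norm_smul]
    refine (mul_le_of_le_one_left (norm_nonneg _) (hprod z hz2)).trans (h1.trans ?_)
    exact mul_le_mul_of_nonneg_left (by linarith only [h2]) hK₁.le
  -- the maximum principle
  have hV0 : ‖V 0‖ ≤ K₁ * (Nb + 1) := by
    refine Complex.norm_le_of_forall_mem_frontier_norm_le (U := ball (0 : ℂ) r') isBounded_ball ?_ ?_ (subset_closure (mem_ball_self hr'pos))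
    · refine DifferentiableOn.diffContOnCl (hVd.mono ?_)
      rw [closure_ball _ hr'pos.ne']
      exact closedBall_subset_ball (by linarith only [hrc0, hr'1, hr'le])
    · intro z hz
      rw [frontier_ball _ hr'pos.ne', mem_sphere_zero_iff_norm] at hz
      exact hcirc z hz
  -- at the centre
  have h02 : (0 : ℂ) ∈ ball (0 : ℂ) 2 := mem_ball_self two_pos
  have hself : 1 * ‖v₀‖ ≤ ‖(inner ℂ v₀ v₀ : ℂ)‖ := by
    rw [inner_self_eq_norm_sq_to_K, hv₀1]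
    simp
  have hd0 : ∀ y' ∈ Tb b E, ‖y' - y₀‖ ≤ 2 * ε → dist (φ y') (pr v₀) ≤ min ε₂ ε₃ := by
    intro y' hy' hyy'
    rw [hpv₀]
    exact hun0 φ hφ y₀ hy₀ hy₀D y' hy' (hyy'.trans hε5)
  have hlow : ∀ i ≤ m + 1, c / 2 ≤ ‖(inner ℂ v₀ (F i 0) : ℂ)‖ := by
    intro i hi
    have hF00 : φ (y + ((σ i : ℝ) : ℂ) • w) = pr (F i 0) := by
      have := (hF1 i 0 h02).2.1
      simp only [zero_smul, add_zero] at this
      exact this
    have h1 : dist (pr (F i 0)) (pr v₀) ≤ ε₂ := by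
      rw [← hF00]
      exact (hd0 _ (hyi i) (hnear i hi)).trans (min_le_left _ _)
    have h2 := hin2 v₀ hv₀1 v₀ hv₀ne hself (F i 0) (hF0 i 0 h02) h1
    have h3 : c ≤ ‖F i 0‖ := by
      refine hFc i 0 (mem_closedBall_self zero_le_one) ?_
      rw [zero_smul, add_zero]
      exact gd_mono (by linarith only [hεδ']) (gd_near hy₀D (hnear i hi))
    linarith only [h2, h3]
  have hdd0 : ‖dd (m + 1) σ fun s : ℝ => nv v₀ (φ (y + (s : ℂ) • w))‖ ≤ (2 / c) ^ (m + 2) * (K₁ * (Nb + 1)) := by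
    have h1 := hVeq 0 h02 fun i hi => norm_pos_iff.1 ((half_pos hc).trans_le (hlow i hi))
    simp only [zero_smul, add_zero] at h1
    have h2 : (c / 2) ^ (m + 2) ≤ ‖∏ j ∈ Finset.range (m + 1 + 1), (inner ℂ v₀ (F j 0) : ℂ)‖ := by
      rw [norm_prod]
      calc (c / 2) ^ (m + 2) = ∏ _j ∈ Finset.range (m + 1 + 1), c / 2 := by rw [Finset.prod_const, Finset.card_range]
        _ ≤ _ := Finset.prod_le_prod (fun _ _ => (half_pos hc).le) fun j hj => hlow j (Nat.lt_succ_iff.1 (Finset.mem_range.1 hj))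
    have h3 : (c / 2) ^ (m + 2) * ‖dd (m + 1) σ fun s : ℝ => nv v₀ (φ (y + (s : ℂ) • w))‖ ≤ K₁ * (Nb + 1) := by
      refine le_trans ?_ hV0
      rw [h1, norm_smul]
      exact mul_le_mul_of_nonneg_right h2 (norm_nonneg _)
    have h4 : (2 / c) ^ (m + 2) * (c / 2) ^ (m + 2) = 1 := by
      rw [← mul_pow]
      have : 2 / c * (c / 2) = 1 := by field_simp
      rw [this, one_pow]
    calc ‖dd (m + 1) σ fun s : ℝ => nv v₀ (φ (y + (s : ℂ) • w))‖ = (2 / c) ^ (m + 2) * ((c / 2) ^ (m + 2) * ‖dd (m + 1) σ fun s : ℝ => nv v₀ (φ (y + (s : ℂ) • w))‖) := by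
          rw [← mul_assoc, h4, one_mul]
      _ ≤ _ := mul_le_mul_of_nonneg_left h3 (by positivity)
  -- the chart `nv v`
  have hvne : v ≠ 0 := norm_pos_iff.1 (by rw [hv]; exact one_pos)
  have hvv₀ : 1 / 2 ≤ ‖(inner ℂ v₀ v : ℂ)‖ := by
    have h1 : dist (pr v) (pr v₀) ≤ ε₂ := by
      rw [hpv]
      exact (hd0 y hy (by linarith only [hε, hyy])).trans (min_le_left _ _)
    have h2 := hin2 v₀ hv₀1 v₀ hv₀ne hself v hvne h1
    rwa [hv, mul_one] at h2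
  have hyD2 : y ∈ Gd D (δ' / 2) := gd_mono (by linarith only [hε, hεδ']) (gd_near hy₀D hyy)
  have h1 := (hchg2 φ hφ y hy hyD2 v hv hpv v₀ hv₀1 hvv₀ σ hσ2).1
  have h2 := (hnv v v₀ hv hv₀1 (by rw [norm_inner_symm]; exact hvv₀) σ (fun s : ℝ => φ (y + (s : ℂ) • w)) hσ3 (fun i hi => ?_) h1).2
  · refine h2.trans ?_
    have h3 : (2 / c) ^ (m + 2) * (K₁ * (Nb + 1)) ≤ (2 / c) ^ (m + 2) * (K₁ * 2) * Nb := by
      have h5 : K₁ * (Nb + 1) ≤ K₁ * 2 * Nb := by nlinarith only [hrc0, hr'1, hr'le, hK₁, hNb]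
      calc (2 / c) ^ (m + 2) * (K₁ * (Nb + 1)) ≤ (2 / c) ^ (m + 2) * (K₁ * 2 * Nb) := mul_le_mul_of_nonneg_left h5 (by positivity)
        _ = _ := by ring
    calc K₃ * (‖dd (m + 1) σ fun s : ℝ => nv v₀ (φ (y + (s : ℂ) • w))‖ + 1) ≤ K₃ * ((2 / c) ^ (m + 2) * (K₁ * 2) * Nb + Nb) :=
          mul_le_mul_of_nonneg_left (by linarith only [hNb, hdd0, h3]) hK₃.le
      _ = _ := by ring
  · obtain ⟨x, hxX, hpx, -⟩ := hS.fb4 hφ (hyi i)
    refine ⟨x, fun h0 => S.geo.cone.zero_notMem (h0 ▸ hxX), hpx.symm, ?_⟩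
    rw [hpx]
    exact (hd0 _ (hyi i) (hnear i hi)).trans (min_le_right _ _)

theorem core_to_gd (S : DA X Λ u D B Bad a Γ W α c₀ C₀ ρ δ) (hS : Shs X Λ u D a b E SS) (hw : w ∈ E) {m : ℕ} (hm : ∀ j ≤ m, DDb D (Tb b E) SS w j) {δ' : ℝ} (hδ' : 0 < δ') :
    ∃ r K : ℝ, 0 < r ∧ 0 < K ∧ ∀ (σ : ℕ → ℝ) (Nb : ℝ), Nod (m + 1) σ r → 1 ≤ Nb →
      (∀ φ ∈ SS, ∀ y ∈ Tb b E, y ∈ Co D Bad δ ρ → ∀ v : EN N, ‖v‖ = 1 → pr v = φ y → ‖dd (m + 1) σ fun s : ℝ => nv v (φ (y + (s : ℂ) • w))‖ ≤ Nb) →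
      ∀ φ ∈ SS, ∀ y ∈ Tb b E, y ∈ Gd D δ' → ∀ v : EN N, ‖v‖ = 1 → pr v = φ y → ‖dd (m + 1) σ fun s : ℝ => nv v (φ (y + (s : ℂ) • w))‖ ≤ K * Nb := by
  obtain ⟨R, hR, hred⟩ := hS.red4
  set K₀ : Set (Vd (k + 1)) := Tb b E ∩ Gd D δ' ∩ closedBall 0 R with hK₀
  have hK₀c : IsCompact K₀ := (isCompact_closedBall (0 : Vd (k + 1)) R).inter_left ((tb_closed b E).inter (gd_closed D δ'))
  have key : ∀ φ ∈ SS, ∃ r K : ℝ, 0 < r ∧ 0 < K ∧ ∀ (σ : ℕ → ℝ) (Nb : ℝ), Nod (m + 1) σ r → 1 ≤ Nb →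
      (∀ φ ∈ SS, ∀ y ∈ Tb b E, y ∈ Co D Bad δ ρ → ∀ v : EN N, ‖v‖ = 1 → pr v = φ y → ‖dd (m + 1) σ fun s : ℝ => nv v (φ (y + (s : ℂ) • w))‖ ≤ Nb) →
      ∀ y ∈ K₀, ∀ v : EN N, ‖v‖ = 1 → pr v = φ y → ‖dd (m + 1) σ fun s : ℝ => nv v (φ (y + (s : ℂ) • w))‖ ≤ K * Nb := by
    intro φ hφ
    refine hK₀c.induction_on (p := fun U => ∃ r K : ℝ, 0 < r ∧ 0 < K ∧ ∀ (σ : ℕ → ℝ) (Nb : ℝ), Nod (m + 1) σ r → 1 ≤ Nb →
      (∀ φ ∈ SS, ∀ y ∈ Tb b E, y ∈ Co D Bad δ ρ → ∀ v : EN N, ‖v‖ = 1 → pr v = φ y → ‖dd (m + 1) σ fun s : ℝ => nv v (φ (y + (s : ℂ) • w))‖ ≤ Nb) →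
      ∀ y ∈ U, ∀ v : EN N, ‖v‖ = 1 → pr v = φ y → ‖dd (m + 1) σ fun s : ℝ => nv v (φ (y + (s : ℂ) • w))‖ ≤ K * Nb) ?_ ?_ ?_ ?_
    · exact ⟨1, 1, one_pos, one_pos, fun σ Nb _ _ _ y hy => absurd hy (Set.notMem_empty y)⟩
    · rintro s t hst ⟨r, K, hr, hK, h⟩
      exact ⟨r, K, hr, hK, fun σ Nb h1 h2 h3 y hy => h σ Nb h1 h2 h3 y (hst hy)⟩
    · rintro s t ⟨r₁, K₁, hr₁, hK₁, h₁⟩ ⟨r₂, K₂, hr₂, hK₂, h₂⟩
      refine ⟨min r₁ r₂, max K₁ K₂, lt_min hr₁ hr₂, lt_max_of_lt_left hK₁, fun σ Nb hσ hNb hcore y hy v hv hpv => ?_⟩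
      rcases hy with hy | hy
      · exact (h₁ σ Nb (hσ.mono le_rfl (min_le_left _ _)) hNb hcore y hy v hv hpv).trans (mul_le_mul_of_nonneg_right (le_max_left _ _) (by linarith))
      · exact (h₂ σ Nb (hσ.mono le_rfl (min_le_right _ _)) hNb hcore y hy v hv hpv).trans (mul_le_mul_of_nonneg_right (le_max_right _ _) (by linarith))
    · intro y₀ hy₀
      obtain ⟨ε, r, K, hε, hr, hK, h⟩ := Md_loc S hS hw hm hδ' hφ hy₀.1.1 hy₀.1.2
      refine ⟨K₀ ∩ closedBall y₀ ε, inter_mem self_mem_nhdsWithin (mem_nhdsWithin_of_mem_nhds (closedBall_mem_nhds y₀ hε)), r, K, hr, hK, fun σ Nb h1 h2 h3 y hy v hv hpv => ?_⟩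
      exact h σ Nb h1 h2 h3 y hy.1.1.1 (by rw [← dist_eq_norm]; exact hy.2) v hv hpv
  have key2 : ∀ T : Set (Vd (k + 1) → MN N), T.Finite → T ⊆ SS → ∃ r K : ℝ, 0 < r ∧ 0 < K ∧ ∀ (σ : ℕ → ℝ) (Nb : ℝ), Nod (m + 1) σ r → 1 ≤ Nb →
      (∀ φ ∈ SS, ∀ y ∈ Tb b E, y ∈ Co D Bad δ ρ → ∀ v : EN N, ‖v‖ = 1 → pr v = φ y → ‖dd (m + 1) σ fun s : ℝ => nv v (φ (y + (s : ℂ) • w))‖ ≤ Nb) →
      ∀ φ ∈ T, ∀ y ∈ K₀, ∀ v : EN N, ‖v‖ = 1 → pr v = φ y → ‖dd (m + 1) σ fun s : ℝ => nv v (φ (y + (s : ℂ) • w))‖ ≤ K * Nb := by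
    intro T hT
    induction T, hT using Set.Finite.induction_on with
    | empty => exact fun _ => ⟨1, 1, one_pos, one_pos, fun σ Nb _ _ _ φ hφ => absurd hφ (Set.notMem_empty φ)⟩
    | @insert φ₀ T _ _ ih =>
      intro hT
      obtain ⟨r₁, K₁, hr₁, hK₁, h₁⟩ := ih ((Set.subset_insert _ _).trans hT)
      obtain ⟨r₂, K₂, hr₂, hK₂, h₂⟩ := key φ₀ (hT (Set.mem_insert _ _))
      refine ⟨min r₁ r₂, max K₁ K₂, lt_min hr₁ hr₂, lt_max_of_lt_left hK₁, fun σ Nb hσ hNb hcore φ hφ y hy v hv hpv => ?_⟩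
      rcases hφ with hφ | hφ
      · subst hφ
        exact (h₂ σ Nb (hσ.mono le_rfl (min_le_right _ _)) hNb hcore y hy v hv hpv).trans (mul_le_mul_of_nonneg_right (le_max_right _ _) (by linarith))
      · exact (h₁ σ Nb (hσ.mono le_rfl (min_le_left _ _)) hNb hcore φ hφ y hy v hv hpv).trans (mul_le_mul_of_nonneg_right (le_max_left _ _) (by linarith))
  obtain ⟨r, K, hr, hK, h⟩ := key2 SS hS.fin le_rfl
  refine ⟨r, K, hr, hK, fun σ Nb hσ hNb hcore φ hφ y hy hyD v hv hpv => ?_⟩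
  obtain ⟨l, hl, -, φ', hφ', y', hy'T, hy'R, hyl, hφφ⟩ := hred φ hφ y hy
  have e : (fun s : ℝ => nv v (φ (y + (s : ℂ) • w))) = fun s : ℝ => nv v (φ' (y' + (s : ℂ) • w)) := by
    funext s
    rw [hφφ _ (smul_mem_E hw s)]
  have e0 : φ y = φ' y' := by
    have := hφφ 0 E.zero_mem
    rw [add_zero, add_zero] at this
    exact this.symm
  rw [e]
  refine h σ Nb hσ hNb hcore φ' hφ' y' ⟨⟨hy'T, ?_⟩, mem_closedBall_zero_iff.2 hy'R⟩ v hv (by rw [hpv, e0])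
  rw [hyl] at hyD
  exact (gd_add' S.lg hl).1 hyD

end Pool.Agent.G4.R

end
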