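import Pool.Agent.H94.G4T.G3.R.StepA_1
import Pool.Agent.H94.G4T.M110
import Pool.Agent.H94.G4T.M133
import Pool.Agent.H94.G4T.M96

/-! The parts of this file: G4.R.StepA_1, G3.X.SlN, G3.X.FamT. -/

section

/-!
# G4 R StepA: order zero, and the sequences of the proof by contradiction
-/

set_option autoImplicit false

open Topology Filter Metric

namespace Pool.Agent.G4.R

open Pool.Agent.H36.BP (EN fs wd)
open Pool.Agent.H14.PP (IsCone CurveAt Tan)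
open Pool.Agent.H62.EF (MN pr)
open Pool.Agent.AD (Vd Chart Charts IsGerm)
open Pool.Agent.TG
open Pool.Agent.G3
open Pool.Agent.G3.R
open Pool.Agent.G3.C (Gc nv nd nv_pr)
open Pool.Agent.G3.A (Ba Hc Dec Sepa Tht Frm NL Lm CRL Tb ToE CE Sht)
open Pool.Agent.G4.A

variable {N k : ℕ} {X : Set (EN N)} {Λ : AddSubgroup (Vd (k + 1))} {u : EN N → Vd (k + 1)} {D B Bad : Set (Vd (k + 1))} {a b w : Vd (k + 1)} {E : Submodule ℝ (Vd (k + 1))}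
  {SS : Set (Vd (k + 1) → MN N)} {Γ : AddSubgroup (Vd (k + 1))} {J rW : ℕ} {W : Fin rW → Vd (k + 1) →L[ℂ] ℂ} {α : Fin J → VForm X Λ u} {c₀ C₀ ρ δ : ℝ}

/-- the values in the affine chart are bounded -/
theorem nv_le_two (hS : Shs X Λ u D a b E SS) (hL : LG Λ D Bad a) (hw : w ∈ E) {δ' : ℝ} (hδ' : 0 < δ') : ∃ r : ℝ, 0 < r ∧ ∀ φ ∈ SS, ∀ y ∈ Tb b E, y ∈ Gd D δ' → ∀ v : EN N, ‖v‖ = 1 →
    pr v = φ y → ∀ s : ℝ, |s| ≤ r → ‖nv v (φ (y + (s : ℂ) • w))‖ ≤ 2 := by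
  obtain ⟨ε, hε, h1⟩ := nv_near (N := N) one_pos
  obtain ⟨r, hr, h2⟩ := hS.unif4 hL hδ' hε
  have hw1 : 0 < ‖w‖ + 1 := by positivity
  refine ⟨r / (‖w‖ + 1), by positivity, fun φ hφ y hy hyG v hv hvφ s hs => ?_⟩
  have h3 : ‖y + (s : ℂ) • w - y‖ ≤ r := by
    rw [add_sub_cancel_left]
    refine (norm_smul_w hs w).trans ?_
    rw [div_mul_eq_mul_div, div_le_iff₀ hw1]
    nlinarith [norm_nonneg w]
  have h4 := h2 φ hφ y hy hyG (y + (s : ℂ) • w) (tb_add hy (smul_mem_E hw s)) h3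
  rw [← hvφ] at h4
  have h5 := h1 v hv _ h4
  have h6 := norm_sub_norm_le (nv v (φ (y + (s : ℂ) • w))) v
  rw [hv] at h6
  linarith

theorem ddb_zero' (S : DA X Λ u D B Bad a Γ W α c₀ C₀ ρ δ) (hS : Shs X Λ u D a b E SS) (hw : w ∈ E) : DDb D (Tb b E) SS w 0 := by
  intro δ' hδ'
  obtain ⟨r, hr, h1⟩ := nv_le_two hS S.lg hw hδ'
  refine ⟨r, 2, hr, by norm_num, fun φ hφ y hy hyG v hv hvφ σ hσ => ?_⟩
  rw [dd_zero]
  exact h1 φ hφ y hy hyG v hv hvφ (σ 0) (hσ.le 0 le_rfl)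

/-- the sequences of the proof by contradiction -/
theorem step_seq (S : DA X Λ u D B Bad a Γ W α c₀ C₀ ρ δ) (hS : Shs X Λ u D a b E SS) (hw : w ∈ E) {m : ℕ} (hm : ∀ j ≤ m, DDb D (Tb b E) SS w j) (hno : ¬ DDb D (Tb b E) SS w (m + 1)) :
    ∃ R : ℝ, ∀ n : ℕ, ∃ (σ : ℕ → ℝ) (Nb : ℝ) (φ : Vd (k + 1) → MN N) (y : Vd (k + 1)) (v : EN N), Nod (m + 1) σ (1 / ((n : ℝ) + 1)) ∧ (n : ℝ) ≤ Nb ∧ 1 ≤ Nb ∧
      (∀ ψ ∈ SS, ∀ y' ∈ Tb b E, y' ∈ Co D Bad δ ρ → ∀ v' : EN N, ‖v'‖ = 1 → pr v' = ψ y' → sz w (m + 1) σ ψ y' v' ≤ Nb) ∧ φ ∈ SS ∧ y ∈ Tb b E ∧ y ∈ Co D Bad δ ρ ∧ ‖y‖ ≤ R ∧ ‖v‖ = 1 ∧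
      pr v = φ y ∧ Nb / 2 ≤ sz w (m + 1) σ φ y v := by
  unfold DDb at hno
  push Not at hno
  obtain ⟨δ', hδ', hno⟩ := hno
  obtain ⟨r₁, K, hr₁, hK, hcg⟩ := core_to_gd S hS hw hm hδ'
  obtain ⟨r₂, hr₂, h2⟩ := nv_le_two hS S.lg hw (show 0 < 2 * δ by linarith [S.lc.δ_pos])
  obtain ⟨R, hR, hred⟩ := hS.red4
  refine ⟨R, fun n => ?_⟩
  set rn : ℝ := min (1 / ((n : ℝ) + 1)) (min r₁ r₂) with hrn
  have hrn0 : 0 < rn := lt_min (by positivity) (lt_min hr₁ hr₂)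
  obtain ⟨φ', hφ', y', hy', hyG', v', hv', hvφ', σ, hσ, hbig⟩ := hno rn (K * ((n : ℝ) + 2)) hrn0 (by positivity)
  have hσ1 : Nod (m + 1) σ (1 / ((n : ℝ) + 1)) := hσ.mono le_rfl (min_le_left _ _)
  have hσ2 : Nod (m + 1) σ r₁ := hσ.mono le_rfl ((min_le_right _ _).trans (min_le_left _ _))
  have hσ3 : Nod (m + 1) σ r₂ := hσ.mono le_rfl ((min_le_right _ _).trans (min_le_right _ _))
  -- the supremum over the core
  set A : Set ℝ := {x | ∃ ψ ∈ SS, ∃ y ∈ Tb b E, y ∈ Co D Bad δ ρ ∧ ∃ v : EN N, ‖v‖ = 1 ∧ pr v = ψ y ∧ x = sz w (m + 1) σ ψ y v} with hA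
  have hbdd : BddAbove A := by
    refine ⟨∑ i ∈ Finset.range (m + 1 + 1), |dw (m + 1) σ i| * 2, ?_⟩
    rintro x ⟨ψ, hψ, y, hy, hyC, v, hv, hvψ, rfl⟩
    unfold sz dd
    refine (norm_sum_le _ _).trans (Finset.sum_le_sum fun i hi => ?_)
    rw [norm_smul, Complex.norm_real, Real.norm_eq_abs]
    refine mul_le_mul_of_nonneg_left (h2 ψ hψ y hy hyC v hv hvψ (σ i) (hσ3.le i ?_)) (abs_nonneg _)
    have := Finset.mem_range.1 hi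
    omega
  obtain ⟨Nb, hNb1, hNbA, hNbx⟩ := near_max hbdd
  have hcore : ∀ ψ ∈ SS, ∀ y' ∈ Tb b E, y' ∈ Co D Bad δ ρ → ∀ v' : EN N, ‖v'‖ = 1 → pr v' = ψ y' → sz w (m + 1) σ ψ y' v' ≤ Nb :=
    fun ψ hψ y hy hyC v hv hvψ => hNbA _ ⟨ψ, hψ, y, hy, hyC, v, hv, hvψ, rfl⟩
  have h3 := hcg σ Nb hσ2 hNb1 hcore φ' hφ' y' hy' hyG' v' hv' hvφ'
  have h4 : (n : ℝ) + 2 < Nb := by
    have h5 : K * ((n : ℝ) + 2) < K * Nb := hbig.trans_le h3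
    exact lt_of_mul_lt_mul_left h5 hK.le
  have hn0 : (0 : ℝ) ≤ n := Nat.cast_nonneg n
  obtain ⟨x, ⟨φ, hφ, y, hy, hyC, v, hv, hvφ, rfl⟩, hx⟩ := hNbx (by linarith)
  obtain ⟨l, hl, hlE, φt, hφt, yt, hyt, hytR, rfl, hφe⟩ := hred φ hφ y hy
  refine ⟨σ, Nb, φt, yt, v, hσ1, by linarith, hNb1, hcore, hφt, hyt, (co_add S.lg hl).1 hyC, hytR, hv, ?_, ?_⟩
  · rw [hvφ]
    have h5 := hφe 0 E.zero_mem
    rw [add_zero, add_zero] at h5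
    exact h5.symm
  · have h6 : sz w (m + 1) σ φt yt v = sz w (m + 1) σ φ (yt + l) v := by
      unfold sz
      congr 1
      exact dd_congr fun i _ => by rw [hφe _ (smul_mem_E hw (σ i))]
    rw [h6]
    exact hx

end Pool.Agent.G4.R

end

section

/-!
# G3 X SlN: slices of normal crossing charts

`χ'.σ w = χ.σ (emb g r a b w)`, `χ'.U = χ.U`, `χ'.q x = (χ.q x 0, χ.q x 1)`.
For `w ∈ ball 0 2` put `ξ = r ^ (a + b) * (w.1 ^ a * w.2 ^ b)`: `‖ξ‖ < (2 r) ^ (a + b) ≤ s` (strict because `0 < a + b`: if `a > 0` then `‖w.1‖ ^ a < 2 ^ a`, ...), `‖g ξ‖ < 2 r`, so `emb w ∈ ball 0 2`, and `nm a b (r • emb w) = cg g ξ`: `u (χ'.σ w) - ar κ g ξ ∈ Λ` (`NCh.lift`), so `χ'.σ w ∈ Ya` and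
`wa (χ'.σ w) = ξ` (`wa_eq`).
`surj`: let `x ∈ Ya ∩ χ.U`, `q = χ.q x ∈ ball 0 2`, `x = c • χ.σ q`: `u x - κ (nm a b (r • q)) ∈ Λ` (`TMap.smul`, `NCh.lift`) and `u x - κ (cg g (wa x)) ∈ Λ`; `nm a b (r • q) ∈ ball 0 R` (`NCh.rng`, `NCh.lt`), `Kp.inj`: `nm a b (r • q) = cg g (wa x)`, so `wa x = r ^ (a + b) * (q 0 ^ a * q 1 ^ b)` and
`r * q j.succ.succ = g (wa x) j`, i.e. `q = emb (q 0, q 1)`.  `σ_an`: `g` is differentiable on the open ball, `ξ` is a polynomial.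
-/

set_option autoImplicit false

open Topology Filter Metric

namespace Pool.Agent.GX

open Pool.Agent.H36.BP (EN fs wd)
open Pool.Agent.H14.PP (IsCone CurveAt Tan)
open Pool.Agent.H62.EF (MN pr)
open Pool.Agent.AD (Vd Chart Charts IsGerm)
open Pool.Agent.TG (TMap Lat tl nm IsStr IsNC IsCoord Geo VForm ms Str IsPrim Cap IRel II TransAt Gd Cst DV fr tc)

variable {N k : ℕ}

variable {X : Set (EN N)} {Λ : AddSubgroup (Vd (k + 1))} {u : EN N → Vd (k + 1)} {D B : Set (Vd (k + 1))}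
  {κ ψ : Vd (k + 1) → Vd (k + 1)} {R : ℝ} {g : ℂ → Fin k → ℂ} {Γ₀ : AddSubgroup ℂ} {s : ℝ}

private theorem sln_lt {x y : ℝ} {a b : ℕ} (hab : 0 < a + b) (hx0 : 0 ≤ x) (hx : x < 2) (hy0 : 0 ≤ y) (hy : y < 2) : x ^ a * y ^ b < 2 ^ (a + b) := by
  rw [pow_add]
  rcases Nat.eq_zero_or_pos a with ha | ha
  · rw [ha, pow_zero, pow_zero, one_mul, one_mul]
    exact pow_lt_pow_left₀ hy hy0 (by omega)
  · have h1 : x ^ a < 2 ^ a := pow_lt_pow_left₀ hx hx0 (by omega)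
    have h2 : y ^ b ≤ 2 ^ b := pow_le_pow_left₀ hy0 hy.le b
    have h3 : (0 : ℝ) < 2 ^ b := by positivity
    calc x ^ a * y ^ b ≤ x ^ a * 2 ^ b := mul_le_mul_of_nonneg_left h2 (pow_nonneg hx0 a)
      _ < 2 ^ a * 2 ^ b := mul_lt_mul_of_pos_right h1 h3

private theorem sln_xi {r : ℝ} {a b : ℕ} (hr0 : 0 < r) (hab : 0 < a + b) {x y : ℂ} (hx : ‖x‖ < 2) (hy : ‖y‖ < 2) :
    ‖(r : ℂ) ^ (a + b) * (x ^ a * y ^ b)‖ < (2 * r) ^ (a + b) := by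
  rw [norm_mul, norm_pow, norm_mul, norm_pow, norm_pow, Complex.norm_real, Real.norm_eq_abs, abs_of_pos hr0, mul_pow, mul_comm (2 ^ (a + b))]
  exact mul_lt_mul_of_pos_left (sln_lt hab (norm_nonneg _) hx (norm_nonneg _) hy) (by positivity)

private theorem sln_fst {w : ℂ × ℂ} {t : ℝ} (hw : w ∈ ball (0 : ℂ × ℂ) t) : ‖w.1‖ < t ∧ ‖w.2‖ < t := by
  rw [mem_ball_zero_iff, Prod.norm_def, max_lt_iff] at hw
  exact hw

private theorem sln_nm {r : ℝ} {a b : ℕ} (hr0 : 0 < r) (w : ℂ × ℂ) :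
    nm a b ((r : ℂ) • emb g r a b w) = cg g ((r : ℂ) ^ (a + b) * (w.1 ^ a * w.2 ^ b)) := by
  have hr : (r : ℂ) ≠ 0 := by exact_mod_cast hr0.ne'
  unfold nm cg
  congr 1
  · show ((r : ℂ) * w.1) ^ a * ((r : ℂ) * w.2) ^ b = _
    rw [mul_pow, mul_pow, pow_add]
    ring
  · funext i
    show (r : ℂ) * ((r : ℂ)⁻¹ * g ((r : ℂ) ^ (a + b) * (w.1 ^ a * w.2 ^ b)) i) = _
    rw [← mul_assoc, mul_inv_cancel₀ hr, one_mul]

theorem emb_mem (L : La X Λ u D κ ψ R g Γ₀ s) {r : ℝ} {a b : ℕ} (hr0 : 0 < r) (hab : 0 < a + b) (hr : (2 * r) ^ (a + b) ≤ s) {t : ℝ} (ht : t ≤ 2)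
    (hg : ∀ z ∈ ball (0 : ℂ) (2 * s), ‖g z‖ < r * t) {w : ℂ × ℂ} (hw : w ∈ ball (0 : ℂ × ℂ) t) : emb g r a b w ∈ ball (0 : Vd (k + 2)) t := by
  obtain ⟨h1, h2⟩ := sln_fst hw
  have ht0 : 0 < t := lt_of_le_of_lt (norm_nonneg _) h1
  have hs := L.pos
  have hξ : (r : ℂ) ^ (a + b) * (w.1 ^ a * w.2 ^ b) ∈ ball (0 : ℂ) (2 * s) := by
    rw [mem_ball_zero_iff]
    have h3 := sln_xi hr0 hab (h1.trans_le ht) (h2.trans_le ht)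
    linarith
  have h4 := hg _ hξ
  have h5 : ‖(r : ℂ)⁻¹ • g ((r : ℂ) ^ (a + b) * (w.1 ^ a * w.2 ^ b))‖ < t := by
    rw [norm_smul, norm_inv, Complex.norm_real, Real.norm_eq_abs, abs_of_pos hr0, inv_mul_lt_iff₀ hr0]
    exact h4
  rw [mem_ball_zero_iff, pi_norm_lt_iff ht0]
  intro i
  refine Fin.cases ?_ (fun j => ?_) i
  · exact h1
  · refine Fin.cases ?_ (fun l => ?_) j
    · exact h2
    · exact (norm_le_pi_norm ((r : ℂ)⁻¹ • g ((r : ℂ) ^ (a + b) * (w.1 ^ a * w.2 ^ b))) l).trans_lt h5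

private theorem sln_emb_an (L : La X Λ u D κ ψ R g Γ₀ s) {r : ℝ} {a b : ℕ} {w : ℂ × ℂ}
    (hξ : (r : ℂ) ^ (a + b) * (w.1 ^ a * w.2 ^ b) ∈ ball (0 : ℂ) (2 * s)) : AnalyticAt ℂ (emb g r a b) w := by
  have h1 : AnalyticAt ℂ (fun w : ℂ × ℂ => w.1) w := analyticAt_fst
  have h2 : AnalyticAt ℂ (fun w : ℂ × ℂ => w.2) w := analyticAt_snd
  have h3 : AnalyticAt ℂ (fun w : ℂ × ℂ => (r : ℂ) ^ (a + b) * (w.1 ^ a * w.2 ^ b)) w := analyticAt_const.mul ((h1.pow a).mul (h2.pow b))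
  have h4 : AnalyticAt ℂ g ((r : ℂ) ^ (a + b) * (w.1 ^ a * w.2 ^ b)) := L.g_an.analyticAt (isOpen_ball.mem_nhds hξ)
  have h5 : AnalyticAt ℂ (fun w : ℂ × ℂ => (r : ℂ)⁻¹ • g ((r : ℂ) ^ (a + b) * (w.1 ^ a * w.2 ^ b))) w :=
    analyticAt_const.fun_smul (AnalyticAt.fun_comp (g := g) (f := fun w : ℂ × ℂ => (r : ℂ) ^ (a + b) * (w.1 ^ a * w.2 ^ b)) h4 h3)
  refine analyticAt_pi_iff.2 fun i => ?_
  refine Fin.cases ?_ (fun j => ?_) i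
  · exact h1
  · refine Fin.cases ?_ (fun l => ?_) j
    · exact h2
    · exact analyticAt_pi_iff.1 h5 l

private theorem sln_eq (L : La X Λ u D κ ψ R g Γ₀ s) {χ : Chart (k + 2) X} {r : ℝ} {a b : ℕ} (h : NCh Λ u κ R χ r a b) {x : EN N} (hx : x ∈ Ya X Λ u κ g s)
    (hU : x ∈ χ.U) : emb g r a b (χ.q x 0, χ.q x 1) = χ.q x := by
  obtain ⟨hQ, c, hc, hxc⟩ := χ.surj x hx.1 hU
  obtain ⟨Q, hQdef⟩ : ∃ Q, Q = χ.q x := ⟨_, rfl⟩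
  rw [← hQdef] at hQ hxc ⊢
  have hr0 := h.pos
  have hrC : (r : ℂ) ≠ 0 := by exact_mod_cast hr0.ne'
  have hQn : ∀ i, ‖Q i‖ < 2 := by
    intro i
    rw [mem_ball_zero_iff] at hQ
    exact (norm_le_pi_norm Q i).trans_lt hQ
  obtain ⟨hz, hzx⟩ := wa_spec hx
  obtain ⟨z, hzdef⟩ : ∃ z, z = wa Λ u κ g s x := ⟨_, rfl⟩
  rw [← hzdef] at hz hzx
  have h1 : u x - κ (nm a b ((r : ℂ) • Q)) ∈ Λ := by
    have h2 := h.lift Q hQ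
    have h3 := Pool.Agent.TG.smul_mem_lat L.kp.tor (χ.σ_mem Q hQ).1 h2 hc
    rwa [← hxc] at h3
  have h2 : κ (nm a b ((r : ℂ) • Q)) - κ (cg g z) ∈ Λ := by
    have e : κ (nm a b ((r : ℂ) • Q)) - κ (cg g z) = (u x - κ (cg g z)) - (u x - κ (nm a b ((r : ℂ) • Q))) := by abel
    rw [e]
    exact Λ.sub_mem hzx h1
  have h3 : nm a b ((r : ℂ) • Q) ∈ ball (0 : Vd (k + 1)) R := by
    rw [mem_ball_zero_iff, pi_norm_lt_iff L.kp.pos]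
    intro i
    refine Fin.cases ?_ (fun j => ?_) i
    · show ‖((r : ℂ) * Q 0) ^ a * ((r : ℂ) * Q 1) ^ b‖ < R
      have e : ((r : ℂ) * Q 0) ^ a * ((r : ℂ) * Q 1) ^ b = (r : ℂ) ^ (a + b) * (Q 0 ^ a * Q 1 ^ b) := by
        rw [mul_pow, mul_pow, pow_add]
        ring
      rw [e]
      exact (sln_xi hr0 h.ab (hQn 0) (hQn 1)).trans h.rng
    · show ‖(r : ℂ) * Q j.succ.succ‖ < R
      rw [norm_mul, Complex.norm_real, Real.norm_eq_abs, abs_of_pos hr0]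
      have h4 := mul_lt_mul_of_pos_left (hQn j.succ.succ) hr0
      have h5 := h.lt
      linarith
  have h4 := L.kp.inj _ h3 _ (L.cg_mem (L.mem2 hz)) h2
  have h5 : (r : ℂ) ^ (a + b) * (Q 0 ^ a * Q 1 ^ b) = z := by
    have e := congrFun h4 0
    change ((r : ℂ) * Q 0) ^ a * ((r : ℂ) * Q 1) ^ b = z at e
    rw [← e, mul_pow, mul_pow, pow_add]
    ring
  have h6 : ∀ j : Fin k, (r : ℂ) * Q j.succ.succ = g z j := fun j => congrFun h4 j.succ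
  funext i
  refine Fin.cases ?_ (fun j => ?_) i
  · rfl
  · refine Fin.cases ?_ (fun l => ?_) j
    · rfl
    · show (r : ℂ)⁻¹ * g ((r : ℂ) ^ (a + b) * (Q 0 ^ a * Q 1 ^ b)) l = Q l.succ.succ
      rw [h5, ← h6 l, ← mul_assoc, inv_mul_cancel₀ hrC, one_mul]

theorem La.slice_nc (L : La X Λ u D κ ψ R g Γ₀ s) {χ : Chart (k + 2) X} {r : ℝ} {a b : ℕ} (h : NCh Λ u κ R χ r a b) (hr : (2 * r) ^ (a + b) ≤ s)
    (hg : ∀ z ∈ ball (0 : ℂ) (2 * s), ‖g z‖ < 2 * r) :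
    ∃ χ' : Pool.Agent.H14.PP.Chart (Ya X Λ u κ g s), Pool.Agent.H62.EL.Mon Γ₀ (wa Λ u κ g s) χ' 0 (r ^ (a + b)) a b ∧ χ'.U = χ.U ∧
      (∀ x : EN N, χ'.q x = (χ.q x 0, χ.q x 1)) ∧
      ∀ w ∈ ball (0 : ℂ × ℂ) 2, ‖(r : ℂ) ^ (a + b) * (w.1 ^ a * w.2 ^ b)‖ < s ∧ emb g r a b w ∈ ball (0 : Vd (k + 2)) 2 ∧ χ'.σ w = χ.σ (emb g r a b w) := by
  have hr0 := h.pos
  have hs := L.pos
  have hξ : ∀ w ∈ ball (0 : ℂ × ℂ) 2, ‖(r : ℂ) ^ (a + b) * (w.1 ^ a * w.2 ^ b)‖ < s := by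
    intro w hw
    obtain ⟨h1, h2⟩ := sln_fst hw
    exact (sln_xi hr0 h.ab h1 h2).trans_le hr
  have hem : ∀ w ∈ ball (0 : ℂ × ℂ) 2, emb g r a b w ∈ ball (0 : Vd (k + 2)) 2 := by
    intro w hw
    exact emb_mem L hr0 h.ab hr le_rfl (fun z hz => by rw [mul_comm]; exact hg z hz) hw
  have hlift : ∀ w ∈ ball (0 : ℂ × ℂ) 2, u (χ.σ (emb g r a b w)) - ar κ g ((r : ℂ) ^ (a + b) * (w.1 ^ a * w.2 ^ b)) ∈ Λ := by
    intro w hw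
    have h1 := h.lift _ (hem w hw)
    rwa [sln_nm hr0] at h1
  have hYa : ∀ w ∈ ball (0 : ℂ × ℂ) 2, χ.σ (emb g r a b w) ∈ Ya X Λ u κ g s :=
    fun w hw => ⟨(χ.σ_mem _ (hem w hw)).1, _, (hξ w hw).le, hlift w hw⟩
  refine ⟨{ σ := fun w => χ.σ (emb g r a b w)
            U := χ.U
            q := fun x => (χ.q x 0, χ.q x 1)
            isOpen_U := χ.isOpen_U
            smul_U := χ.smul_U
            σ_an := fun w hw => ?_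
            q_an := fun x hx => ?_
            q_smul := fun x hx c hc => ?_
            σ_mem := fun w hw => ⟨hYa w hw, (χ.σ_mem _ (hem w hw)).2.1, ?_⟩
            surj := fun x hx hU => ⟨?_, ?_⟩ }, ⟨by positivity, h.ab, fun w hw => ?_⟩, rfl, fun x => rfl, fun w hw => ⟨hξ w hw, hem w hw, rfl⟩⟩
  · have h1 : (r : ℂ) ^ (a + b) * (w.1 ^ a * w.2 ^ b) ∈ ball (0 : ℂ) (2 * s) := by
      rw [mem_ball_zero_iff]
      have := hξ w hw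
      linarith
    exact AnalyticAt.fun_comp (g := χ.σ) (f := emb g r a b) (χ.σ_an _ (hem w hw)) (sln_emb_an L h1)
  · have h1 := χ.q_an x hx
    exact (analyticAt_pi_iff.1 h1 0).prod (analyticAt_pi_iff.1 h1 1)
  · rw [χ.q_smul x hx c hc]
  · rw [(χ.σ_mem _ (hem w hw)).2.2]
    rfl
  · obtain ⟨hQ, -⟩ := χ.surj x hx.1 hU
    rw [mem_ball_zero_iff] at hQ ⊢
    rw [Prod.norm_def, max_lt_iff]
    exact ⟨(norm_le_pi_norm (χ.q x) 0).trans_lt hQ, (norm_le_pi_norm (χ.q x) 1).trans_lt hQ⟩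
  · obtain ⟨-, c, hc, hxc⟩ := χ.surj x hx.1 hU
    refine ⟨c, hc, ?_⟩
    rw [sln_eq L h hx hU]
    exact hxc
  · show wa Λ u κ g s (χ.σ (emb g r a b w)) - Pool.Agent.H62.EL.mo 0 (r ^ (a + b)) a b w ∈ Γ₀
    rw [L.wa_eq (hξ w hw).le (hlift w hw)]
    have e : (r : ℂ) ^ (a + b) * (w.1 ^ a * w.2 ^ b) - Pool.Agent.H62.EL.mo 0 (r ^ (a + b)) a b w = 0 := by
      unfold Pool.Agent.H62.EL.mo
      push_cast
      ring
    rw [e]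
    exact Γ₀.zero_mem

end Pool.Agent.GX

end

section

/-!
# G3 X FamT: the tube of an arc

`la_of_fam`: all fields are given; `nc`: `FamG.cover` at `q = cg g 0 ∈ ball 0 ρ`, `W_sub`, `nch`.
`La.tube_geo`: `T = ⟨Φ.m, slices of Φ.C i, r i ^ (a i + b i), a i, b i, Φ.W⟩` (`La.slice_nc`, `choose`), `𝒲 = range` of the slices of `Φ.C' j` with the radii `t j`.  `TubeG`: `inj`: `L.big` (`2 s ≤ 8 s`); `range`: `‖mo 0 (r ^ (a + b)) a b w - 0‖ < s` (fourth part of `slice_nc`);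
`cover`: `wa x - z ∈ Γ₀`, `La.nb`: `wa x = z`, `FamG.cover` at `cg g z ∈ ball 0 ρ`.  `WitG`: `sub`: `emb w ∈ ball 0 (t j)` (`emb_mem`), `FamG.sub`; `nest`: the same with `FamG.nest`; `cover`: `FamG.cover'`, `χ'.q x = (χ.q x 0, χ.q x 1) ∈ ball 0 (t j)`.
-/

set_option autoImplicit false

open Topology Filter Metric

namespace Pool.Agent.GX

open Pool.Agent.H36.BP (EN fs wd)
open Pool.Agent.H14.PP (IsCone CurveAt Tan)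
open Pool.Agent.H62.EF (MN pr)
open Pool.Agent.AD (Vd Chart Charts IsGerm)
open Pool.Agent.TG (TMap Lat tl nm IsStr IsNC IsCoord Geo VForm ms Str IsPrim Cap IRel II TransAt Gd Cst DV fr tc)

variable {N k : ℕ}

variable {X : Set (EN N)} {Λ : AddSubgroup (Vd (k + 1))} {u : EN N → Vd (k + 1)} {D B : Set (Vd (k + 1))}
  {κ ψ : Vd (k + 1) → Vd (k + 1)} {R : ℝ} {g : ℂ → Fin k → ℂ} {Γ₀ : AddSubgroup ℂ} {s : ℝ}

variable {ρ : ℝ} {Φ : Fam X k}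

private theorem famT_cg {z : ℂ} {ρ : ℝ} (hρ : 0 < ρ) (hz : ‖z‖ < ρ) (hg : ‖g z‖ < ρ) : cg g z ∈ ball (0 : Vd (k + 1)) ρ := by
  rw [mem_ball_zero_iff, pi_norm_lt_iff hρ]
  intro i
  refine Fin.cases ?_ (fun j => ?_) i
  · exact hz
  · exact lt_of_le_of_lt (norm_le_pi_norm (g z) j) hg

theorem la_of_fam (K : Kp X Λ u D κ ψ R) (H : FamG Λ u κ R s ρ Φ) (hs : 2 * s ≤ R) (h₀ : Pool.Agent.H62.EF.Lat Γ₀) (hb : ∀ l ∈ Γ₀, ‖l‖ ≤ 8 * s → l = 0)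
    (hg : DifferentiableOn ℂ g (ball (0 : ℂ) (2 * s))) (hρ : ∀ z ∈ ball (0 : ℂ) (2 * s), ‖g z‖ < ρ) : La X Λ u D κ ψ R g Γ₀ s := by
  have hs0 : 0 < s := lt_of_lt_of_le H.pos H.le
  have h0 : (0 : ℂ) ∈ ball (0 : ℂ) (2 * s) := mem_ball_self (by linarith)
  refine ⟨K, h₀, hs0, hs, hb, hg, fun z hz => lt_of_lt_of_le (hρ z hz) H.leR, fun x hx hux => ?_⟩
  have hq : cg g 0 ∈ ball (0 : Vd (k + 1)) ρ := famT_cg H.pos (by rw [norm_zero]; exact H.pos) (hρ 0 h0)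
  obtain ⟨i, hi⟩ := H.cover (cg g 0) hq x hx hux
  exact ⟨Φ.C i, Φ.r i, Φ.a i, Φ.b i, H.W_sub i hi, H.nch i⟩

theorem La.tube_geo (L : La X Λ u D κ ψ R g Γ₀ s) (H : FamG Λ u κ R s ρ Φ) (hρ : ∀ z ∈ ball (0 : ℂ) (2 * s), ‖g z‖ < ρ) :
    ∃ (T : Pool.Agent.H62.EL.TubeData (Ya X Λ u κ g s)) (𝒲 : Set (Pool.Agent.H62.EL.Wit (Ya X Λ u κ g s))),
      Pool.Agent.H62.EL.TubeG Γ₀ (wa Λ u κ g s) 0 ρ s T ∧ Pool.Agent.H62.EL.WitG Γ₀ (wa Λ u κ g s) 0 ρ s T 𝒲 := by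
  have hgi : ∀ i, ∀ z ∈ ball (0 : ℂ) (2 * s), ‖g z‖ < 2 * Φ.r i := by
    intro i z hz
    have h1 := hρ z hz
    have h2 := H.lt i
    have h3 := (H.nch i).pos
    linarith
  have hgj : ∀ j, ∀ z ∈ ball (0 : ℂ) (2 * s), ‖g z‖ < Φ.r' j * Φ.t j := fun j z hz => lt_of_lt_of_le (hρ z hz) (H.lt' j)
  have hgj2 : ∀ j, ∀ z ∈ ball (0 : ℂ) (2 * s), ‖g z‖ < 2 * Φ.r' j := by
    intro j z hz
    refine lt_of_lt_of_le (hgj j z hz) ?_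
    rw [mul_comm]
    exact mul_le_mul_of_nonneg_right (H.t_pos j).2 (H.nch' j).pos.le
  choose χ hmon hU hq hσ using fun i => L.slice_nc (H.nch i) (H.rng i) (hgi i)
  choose χ' hmon' hU' hq' hσ' using fun j => L.slice_nc (H.nch' j) (H.rng' j) (hgj2 j)
  have hemb : ∀ j, ∀ w ∈ ball (0 : ℂ × ℂ) (Φ.t j), emb g (Φ.r' j) (Φ.a' j) (Φ.b' j) w ∈ ball (0 : Vd (k + 2)) (Φ.t j) := fun j w hw =>
    emb_mem L (H.nch' j).pos (H.nch' j).ab (H.rng' j) (H.t_pos j).2 (hgj j) hw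
  have hsub2 : ∀ j, ball (0 : ℂ × ℂ) (Φ.t j) ⊆ ball (0 : ℂ × ℂ) 2 := fun j => ball_subset_ball (H.t_pos j).2
  have hcv : ∀ z ∈ ball (0 : ℂ) ρ, ∀ x ∈ Ya X Λ u κ g s, wa Λ u κ g s x - z ∈ Γ₀ → cg g z ∈ ball (0 : Vd (k + 1)) ρ ∧ x ∈ X ∧ u x - κ (cg g z) ∈ Λ := by
    intro z hz x hx hxz
    have hzρ : ‖z‖ < ρ := by simpa using hz
    have hzs : ‖z‖ ≤ s := hzρ.le.trans H.le
    obtain ⟨h1, h2⟩ := wa_spec hx
    have h3 : wa Λ u κ g s x = z := L.nb h1 hzs hxz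
    rw [h3] at h2
    exact ⟨famT_cg H.pos hzρ (hρ z (L.mem2 hzs)), hx.1, h2⟩
  have hran : ∀ (r : ℝ) (a b : ℕ) (p : ℂ × ℂ), ‖(r : ℂ) ^ (a + b) * (p.1 ^ a * p.2 ^ b)‖ < s → ‖Pool.Agent.H62.EL.mo 0 (r ^ (a + b)) a b p - 0‖ < s := by
    intro r a b p h
    unfold Pool.Agent.H62.EL.mo
    rw [zero_add, sub_zero]
    push_cast
    exact h
  refine ⟨⟨Φ.m, χ, fun i => Φ.r i ^ (Φ.a i + Φ.b i), Φ.a, Φ.b, Φ.W⟩, Set.range fun j => ⟨χ' j, Φ.r' j ^ (Φ.a' j + Φ.b' j), Φ.a' j, Φ.b' j, Φ.t j⟩,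
    ⟨H.pos, H.le, fun l hl h => L.big l hl (by linarith [L.pos]), hmon, fun i p hp => hran _ _ _ p (hσ i p hp).1, H.W_open, fun i => ?_, H.W_smul,
      fun z hz x hx hxz => ?_⟩, ?_⟩
  · show Φ.W i ⊆ (χ i).U
    rw [hU i]
    exact H.W_sub i
  · obtain ⟨h1, h2, h3⟩ := hcv z hz x hx hxz
    exact H.cover _ h1 x h2 h3
  · refine ⟨?_, ?_, ?_, ?_, ?_, ?_⟩
    · rintro w ⟨j, rfl⟩
      exact H.t_pos j
    · rintro w ⟨j, rfl⟩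
      exact hmon' j
    · rintro w ⟨j, rfl⟩ p hp
      exact hran _ _ _ p (hσ' j p hp).1
    · rintro w ⟨j, rfl⟩ i ⟨p, hp, hpW⟩ p₁ hp₁
      have hpW' : (χ' j).σ p ∈ Φ.W i := hpW
      have hp' : p ∈ ball (0 : ℂ × ℂ) (Φ.t j) := hp
      rw [(hσ' j p (hsub2 j hp')).2.2] at hpW'
      show (χ' j).σ p₁ ∈ (χ i).U
      rw [hU i, (hσ' j p₁ hp₁).2.2]
      exact H.sub j i ⟨_, hemb j p hp', hpW'⟩ _ (hσ' j p₁ hp₁).2.1
    · rintro w ⟨j, rfl⟩ w' ⟨j', rfl⟩ ⟨p, hp, p', hp', hpp⟩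
      have hp1 : p ∈ ball (0 : ℂ × ℂ) (Φ.t j) := hp
      have hp2 : p' ∈ ball (0 : ℂ × ℂ) (Φ.t j') := hp'
      have hpp' : pr ((χ' j).σ p) = pr ((χ' j').σ p') := hpp
      rw [(hσ' j p (hsub2 j hp1)).2.2, (hσ' j' p' (hsub2 j' hp2)).2.2] at hpp'
      rcases H.nest j j' ⟨_, hemb j p hp1, _, hemb j' p' hp2, hpp'⟩ with h | h
      · left
        intro q hq1
        have hq2 : q ∈ ball (0 : ℂ × ℂ) (Φ.t j) := hq1
        show (χ' j).σ q ∈ (χ' j').U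
        rw [hU' j', (hσ' j q (hsub2 j hq2)).2.2]
        exact h _ (hemb j q hq2)
      · right
        intro q hq1
        have hq2 : q ∈ ball (0 : ℂ × ℂ) (Φ.t j') := hq1
        show (χ' j').σ q ∈ (χ' j).U
        rw [hU' j, (hσ' j' q (hsub2 j' hq2)).2.2]
        exact h _ (hemb j' q hq2)
    · intro z hz x hx hxz
      obtain ⟨h1, h2, h3⟩ := hcv z hz x hx hxz
      obtain ⟨j, hj1, hj2⟩ := H.cover' _ h1 x h2 h3
      refine ⟨_, ⟨j, rfl⟩, ?_, ?_⟩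
      · show x ∈ (χ' j).U
        rw [hU' j]
        exact hj1
      · show (χ' j).q x ∈ ball (0 : ℂ × ℂ) (Φ.t j)
        rw [hq' j x, mem_ball_zero_iff, Prod.norm_def]
        rw [mem_ball_zero_iff] at hj2
        exact max_lt (lt_of_le_of_lt (norm_le_pi_norm _ 0) hj2) (lt_of_le_of_lt (norm_le_pi_norm _ 1) hj2)

end Pool.Agent.GX

end
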