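import Pool.Agent.H94.G4T.M110
import Pool.Agent.H94.G4T.M111
import Pool.Agent.H94.G4T.M133

/-! The parts of this file: G4.R.StepL, G3.X.BrA, G3.X.Fam. -/

section

/-!
# G4 R StepL: the limit of the sequences of the proof by contradiction
-/

set_option autoImplicit false

open Topology Filter Metric

namespace Pool.Agent.G4.R

open Pool.Agent.H36.BP (EN fs wd)
open Pool.Agent.H14.PP (IsCone CurveAt Tan)
open Pool.Agent.H62.EF (MN pr)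
open Pool.Agent.AD (Vd Chart Charts IsGerm)
open Pool.Agent.TG
open Pool.Agent.G3
open Pool.Agent.G3.R
open Pool.Agent.G3.C (Gc nv nd nv_pr)
open Pool.Agent.G3.A (Ba Hc Dec Sepa Tht Frm NL Lm CRL Tb ToE CE Sht)
open Pool.Agent.G4.A

variable {N k : ℕ} {X : Set (EN N)} {Λ : AddSubgroup (Vd (k + 1))} {u : EN N → Vd (k + 1)} {D B Bad : Set (Vd (k + 1))} {a b w : Vd (k + 1)} {E : Submodule ℝ (Vd (k + 1))}
  {SS : Set (Vd (k + 1) → MN N)} {Γ : AddSubgroup (Vd (k + 1))} {J rW : ℕ} {W : Fin rW → Vd (k + 1) →L[ℂ] ℂ} {α : Fin J → VForm X Λ u} {c₀ C₀ ρ δ : ℝ}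

theorem co_closed (D Bad : Set (Vd (k + 1))) (δ ρ : ℝ) : IsClosed (Co D Bad δ ρ) := gd_closed D _

theorem step_lim (S : DA X Λ u D B Bad a Γ W α c₀ C₀ ρ δ) (hS : Shs X Λ u D a b E SS) (𝒰 : Ultrafilter ℕ) {R : ℝ} {φ : ℕ → Vd (k + 1) → MN N} {y : ℕ → Vd (k + 1)} {v : ℕ → EN N}
    (hφ : ∀ n, φ n ∈ SS) (hyT : ∀ n, y n ∈ Tb b E) (hyC : ∀ n, y n ∈ Co D Bad δ ρ) (hyR : ∀ n, ‖y n‖ ≤ R) (hv : ∀ n, ‖v n‖ = 1) (hvφ : ∀ n, pr (v n) = φ n (y n)) :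
    ∃ (φ₀ : Vd (k + 1) → MN N) (y₀ : Vd (k + 1)) (v₀ : EN N), φ₀ ∈ SS ∧ (∀ᶠ n in (𝒰 : Filter ℕ), φ n = φ₀) ∧ Tendsto y 𝒰 (𝓝 y₀) ∧ y₀ ∈ Tb b E ∧ y₀ ∈ Co D Bad δ ρ ∧
      Tendsto v 𝒰 (𝓝 v₀) ∧ ‖v₀‖ = 1 ∧ pr v₀ = φ₀ y₀ := by
  obtain ⟨φ₀, hφ₀, hev⟩ : ∃ φ₀ ∈ SS, ∀ᶠ n in (𝒰 : Filter ℕ), φ n = φ₀ := by
    have h1 : (⋃ ψ ∈ SS, {n | φ n = ψ}) ∈ 𝒰 := by
      have h2 : (⋃ ψ ∈ SS, {n | φ n = ψ}) = Set.univ := by
        ext n
        simp [hφ n]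
      rw [h2]
      exact Filter.univ_mem
    obtain ⟨ψ, hψ, h2⟩ := (Ultrafilter.finite_biUnion_mem_iff hS.fin).1 h1
    exact ⟨ψ, hψ, h2⟩
  obtain ⟨y₀, -, hy₀⟩ := (isCompact_closedBall (0 : Vd (k + 1)) R).ultrafilter_le_nhds (𝒰.map y) (by
    rw [Ultrafilter.coe_map, le_principal_iff, mem_map]
    refine univ_mem' fun n => ?_
    simpa using hyR n)
  obtain ⟨v₀, hv₀, hv₀'⟩ := (isCompact_sphere (0 : EN N) 1).ultrafilter_le_nhds (𝒰.map v) (by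
    rw [Ultrafilter.coe_map, le_principal_iff, mem_map]
    refine univ_mem' fun n => ?_
    simpa using hv n)
  have hyt : Tendsto y 𝒰 (𝓝 y₀) := hy₀
  have hvt : Tendsto v 𝒰 (𝓝 v₀) := hv₀'
  have hv₀1 : ‖v₀‖ = 1 := by simpa using hv₀
  have hv₀0 : v₀ ≠ 0 := by
    rintro rfl
    rw [norm_zero] at hv₀1
    exact zero_ne_one hv₀1
  have hy₀T : y₀ ∈ Tb b E := (tb_closed b E).mem_of_tendsto hyt (Eventually.of_forall hyT)
  have hy₀C : y₀ ∈ Co D Bad δ ρ := (co_closed D Bad δ ρ).mem_of_tendsto hyt (Eventually.of_forall hyC)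
  refine ⟨φ₀, y₀, v₀, hφ₀, hev, hyt, hy₀T, hy₀C, hvt, hv₀1, ?_⟩
  have hy₀D : y₀ ∉ D := gd_notMem (by linarith [S.lc.δ_pos]) hy₀C
  have h1 : Tendsto (fun n => pr (v n)) 𝒰 (𝓝 (pr v₀)) := (Pool.Agent.H62.EF.continuousAt_pr hv₀0).tendsto.comp hvt
  have h2 : Tendsto (fun n => φ₀ (y n)) 𝒰 (𝓝 (φ₀ y₀)) :=
    ((hS.sht φ₀ hφ₀).cont y₀ hy₀T hy₀D).tendsto.comp (tendsto_nhdsWithin_iff.2 ⟨hyt, Eventually.of_forall hyT⟩)
  refine tendsto_nhds_unique h1 (h2.congr' ?_)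
  filter_upwards [hev] with n hn
  rw [hvφ n, hn]

end Pool.Agent.G4.R

end

section

/-!
# G3 X BrA: the coefficient of the restricted form

Port of `Ln.slice_tc` (`TG/Y/Br.lean`; `Br_det` is private there: copy).  `fderiv (sla ..) y (1, 0) = cons 0 ((r / ρ) • deriv (ar κ g) (z₀ + r y.1))`, `fderiv (sla ..) y (0, 1) = Pi.single 0 1`.
-/

set_option autoImplicit false

open Topology Filter Metric

namespace Pool.Agent.GX

open Pool.Agent.H36.BP (EN fs wd)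
open Pool.Agent.H14.PP (IsCone CurveAt Tan)
open Pool.Agent.H62.EF (MN pr)
open Pool.Agent.AD (Vd Chart Charts IsGerm)
open Pool.Agent.TG (TMap Lat tl nm IsStr IsNC IsCoord Geo VForm ms Str IsPrim Cap IRel II TransAt Gd Cst DV fr tc)

variable {N k : ℕ}

variable {X : Set (EN N)} {Λ : AddSubgroup (Vd (k + 1))} {u : EN N → Vd (k + 1)} {D B : Set (Vd (k + 1))}
  {κ ψ : Vd (k + 1) → Vd (k + 1)} {R : ℝ} {g : ℂ → Fin k → ℂ} {Γ₀ : AddSubgroup ℂ} {s : ℝ}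

/-- the linear part of `sla` -/
noncomputable def BrA_slL (e : Vd (k + 1)) (ρ r : ℝ) : ℂ × ℂ →L[ℂ] Vd (k + 2) :=
  ContinuousLinearMap.pi (Fin.cons (α := fun _ => ℂ × ℂ →L[ℂ] ℂ) (ContinuousLinearMap.snd ℂ ℂ ℂ)
    fun i : Fin (k + 1) => ((ρ : ℂ)⁻¹ * (r * e i)) • ContinuousLinearMap.fst ℂ ℂ ℂ)

theorem BrA_slL_apply (e : Vd (k + 1)) (ρ r : ℝ) (w : ℂ × ℂ) :
    BrA_slL e ρ r w = Fin.cons (α := fun _ => ℂ) w.2 ((ρ : ℂ)⁻¹ • ((r * w.1) • e)) := by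
  funext i
  refine Fin.cases rfl (fun j => ?_) i
  show ((ρ : ℂ)⁻¹ * (r * e j)) * w.1 = (ρ : ℂ)⁻¹ * ((r * w.1) * e j)
  ring

theorem BrA_sla_deriv (c' : Vd (k + 1)) (ρ : ℝ) (z₀ : ℂ) (r : ℝ) (y : ℂ × ℂ) (ha : AnalyticAt ℂ (ar κ g) (z₀ + r * y.1)) :
    HasFDerivAt (sla κ g c' ρ z₀ r) (BrA_slL (deriv (ar κ g) (z₀ + r * y.1)) ρ r) y := by
  have hd : HasDerivAt (ar κ g) (deriv (ar κ g) (z₀ + r * y.1)) (z₀ + r * y.1) := ha.differentiableAt.hasDerivAt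
  have h1 : HasFDerivAt (fun y : ℂ × ℂ => z₀ + (r : ℂ) * y.1) ((r : ℂ) • ContinuousLinearMap.fst ℂ ℂ ℂ) y :=
    ((ContinuousLinearMap.fst ℂ ℂ ℂ).hasFDerivAt.const_mul (r : ℂ)).const_add z₀
  rw [hasFDerivAt_pi']
  intro i
  refine Fin.cases ?_ (fun j => ?_) i
  · exact (ContinuousLinearMap.snd ℂ ℂ ℂ).hasFDerivAt
  · have h2 : HasDerivAt (fun z => ar κ g z j) (deriv (ar κ g) (z₀ + r * y.1) j) (z₀ + r * y.1) := (hasDerivAt_pi.1 hd) j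
    have h3 := ((h2.comp_hasFDerivAt y h1).sub_const (c' j)).const_mul ((ρ : ℂ)⁻¹)
    refine h3.congr_fderiv ?_
    ext
    · show (ρ : ℂ)⁻¹ * (deriv (ar κ g) (z₀ + r * y.1) j * ((r : ℂ) * 1)) = ((ρ : ℂ)⁻¹ * (r * deriv (ar κ g) (z₀ + r * y.1) j)) * 1
      ring
    · show (ρ : ℂ)⁻¹ * (deriv (ar κ g) (z₀ + r * y.1) j * ((r : ℂ) * 0)) = ((ρ : ℂ)⁻¹ * (r * deriv (ar κ g) (z₀ + r * y.1) j)) * 0
      ring

/-- the first column is zero except in the row `1` -/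
theorem BrA_det {a b : ℂ} {v : Vd (k + 1)} {w : Fin k → Vd (k + 1)} :
    (Matrix.of fun i j => (Fin.cons (Fin.cons (α := fun _ => ℂ) 0 ((a * b) • v)) (Fin.cons (Pi.single 0 1)
      fun l => Fin.cons (α := fun _ => ℂ) 0 (b • w l)) : Fin (k + 2) → Vd (k + 2)) i j).det =
      -(a * b ^ (k + 1)) * (Matrix.of fun i j => (Fin.cons v w : Fin (k + 1) → Vd (k + 1)) i j).det := by
  rw [Matrix.det_succ_column_zero]
  rw [Fin.sum_univ_succ, Fin.sum_univ_succ]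
  have h0 : ∀ x : Fin k, (Matrix.of fun i j => (Fin.cons (Fin.cons (α := fun _ => ℂ) 0 ((a * b) • v)) (Fin.cons (Pi.single 0 1)
      fun l => Fin.cons (α := fun _ => ℂ) 0 (b • w l)) : Fin (k + 2) → Vd (k + 2)) i j) x.succ.succ 0 = 0 := fun x => rfl
  have h1 : (Matrix.of fun i j => (Fin.cons (Fin.cons (α := fun _ => ℂ) 0 ((a * b) • v)) (Fin.cons (Pi.single 0 1)
      fun l => Fin.cons (α := fun _ => ℂ) 0 (b • w l)) : Fin (k + 2) → Vd (k + 2)) i j) 0 0 = 0 := rfl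
  have h2 : (Matrix.of fun i j => (Fin.cons (Fin.cons (α := fun _ => ℂ) 0 ((a * b) • v)) (Fin.cons (Pi.single 0 1)
      fun l => Fin.cons (α := fun _ => ℂ) 0 (b • w l)) : Fin (k + 2) → Vd (k + 2)) i j) (Fin.succ 0) 0 = 1 := by
    show (Pi.single 0 1 : Vd (k + 2)) 0 = 1
    exact Pi.single_eq_same _ _
  rw [h1, h2, Finset.sum_eq_zero (fun x _ => by rw [h0 x]; ring)]
  have h3 : (Matrix.of fun i j => (Fin.cons (Fin.cons (α := fun _ => ℂ) 0 ((a * b) • v)) (Fin.cons (Pi.single 0 1)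
      fun l => Fin.cons (α := fun _ => ℂ) 0 (b • w l)) : Fin (k + 2) → Vd (k + 2)) i j).submatrix (Fin.succ 0).succAbove Fin.succ =
      Matrix.of fun i j => (Fin.cons (a * b) fun _ => b : Fin (k + 1) → ℂ) i * (Matrix.of fun i j => (Fin.cons v w : Fin (k + 1) → Vd (k + 1)) i j) i j := by
    funext i j
    refine Fin.cases ?_ (fun l => ?_) i
    · rfl
    · rfl
  rw [h3, Matrix.det_mul_column, Fin.prod_univ_succ]
  simp only [Fin.cons_zero, Fin.cons_succ, Finset.prod_const, Finset.card_univ, Fintype.card_fin]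
  simp only [Fin.val_zero, Fin.succ_zero_eq_one, Fin.val_one]
  ring

end Pool.Agent.GX

end

section

/-!
# G3 X Fam: the finite families of charts

`exists_nch`: `IsNC` gives a germ `σ, τ, a, b` at `x`; `exists_small_chart` with a small `η'`: `χ.σ q = c • σ (r • q)`, `‖r • q‖ < η'` for `q ∈ ball 0 2` (so `2 r ≤ η'`: take `q` of norm near `2`; if `k + 2` coordinates, `q = Pi.single 0 t`), `u (χ.σ q) - κ (nm a b (r • q)) ∈ Λ` (`TMap.smul`).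
`exists_fam`: the proof of `Pool.Agent.TGY.exists_tube_geo` (`TG/Y/TbA.lean`) with `ℂ × ℂ` replaced by `Vd (k + 2)`, the fibre over `b` by the fibre over `κ 0`; `exists_rad` in the form: `∃ ρ > 0, ∀ q ∈ ball 0 ρ, ∀ x ∈ X, u x - κ q ∈ Λ → P x` (`κ` is continuous at `0`; `TG.lim_mem`, `TG.compact_unit`, `TG.exists_unit`,
`TG.smul_mem_lat` of `TG/Gd.lean`).  New: the witness charts are also FINITELY many: `χ'_x` (for all `x` of the fibre) with radii `t_x` as there; the open cones `{y ∈ χ'_x.U, χ'_x.q y ∈ ball 0 t_x}` cover the compact set (unit vectors of the fibre), choose a finite subcover.  In the end `ρ` is so small that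
`ρ ≤ s`, `ρ ≤ R`, `ρ ≤ r i` and `ρ ≤ r' j * t j` for the finitely many `i, j`.
-/

set_option autoImplicit false

open Topology Filter Metric

namespace Pool.Agent.GX

open Pool.Agent.H36.BP (EN fs wd)
open Pool.Agent.H14.PP (IsCone CurveAt Tan)
open Pool.Agent.H62.EF (MN pr)
open Pool.Agent.AD (Vd Chart Charts IsGerm)
open Pool.Agent.TG (TMap Lat tl nm IsStr IsNC IsCoord Geo VForm ms Str IsPrim Cap IRel II TransAt Gd Cst DV fr tc)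

variable {N k : ℕ}

variable {X : Set (EN N)} {Λ : AddSubgroup (Vd (k + 1))} {u : EN N → Vd (k + 1)} {D B : Set (Vd (k + 1))}
  {κ ψ : Vd (k + 1) → Vd (k + 1)} {R : ℝ} {g : ℂ → Fin k → ℂ} {Γ₀ : AddSubgroup ℂ} {s : ℝ}

/-- small constants -/
private theorem Fam_const {R s : ℝ} {r : ℝ} (hr : 0 < r) {a b : ℕ} (hab : 0 < a + b) (hle : 2 * r ≤ min (R / 2) (min s 1)) :
    2 * r < R ∧ (2 * r) ^ (a + b) < R ∧ (2 * r) ^ (a + b) ≤ s := by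
  have h1 : 2 * r ≤ R / 2 := hle.trans (min_le_left _ _)
  have h2 : 2 * r ≤ s := hle.trans ((min_le_right _ _).trans (min_le_left _ _))
  have h3 : 2 * r ≤ 1 := hle.trans ((min_le_right _ _).trans (min_le_right _ _))
  have h4 : (2 * r) ^ (a + b) ≤ 2 * r := pow_le_of_le_one (by positivity) h3 hab.ne'
  exact ⟨by linarith, by linarith, by linarith⟩

private theorem Fam_nch {R s : ℝ} {χ : Chart (k + 2) X} {r : ℝ} {a b : ℕ} (h : Pool.Agent.G3.X.NCC Λ u κ χ r a b)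
    (hle : 2 * r ≤ min (R / 2) (min s 1)) : NCh Λ u κ R χ r a b ∧ (2 * r) ^ (a + b) ≤ s := by
  obtain ⟨h1, h2, h3⟩ := Fam_const h.pos h.ab hle
  exact ⟨⟨h.pos, h.ab, h1, h2, h.lift⟩, h3⟩

theorem exists_fam (K : Kp X Λ u D κ ψ R) (hnc : ∀ x ∈ X, u x - κ 0 ∈ Λ → IsNC X Λ u κ x) (hs : 0 < s) :
    ∃ (Φ : Fam X k) (ρ : ℝ), FamG Λ u κ R s ρ Φ := by
  have hR := K.pos
  obtain ⟨T, s₃, hT⟩ := Pool.Agent.G3.X.exists_tb3 K.cone K.tor K.lat hnc (by positivity : 0 < min (R / 2) (min s 1))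
  have hc := fun i => Fam_nch (hT.ncc i) (hT.le i)
  have hw := fun j => Fam_nch (hT.wncc j) (hT.wle j)
  -- the radius
  have e1 : ∀ᶠ ρ in 𝓝[>] (0 : ℝ), ∀ i, ρ ≤ (T.c i).r :=
    Filter.eventually_all.2 fun i => mem_nhdsWithin_of_mem_nhds (ge_mem_nhds (hT.ncc i).pos)
  have e2 : ∀ᶠ ρ in 𝓝[>] (0 : ℝ), ∀ j, ρ ≤ (T.w j).r * (T.w j).R :=
    Filter.eventually_all.2 fun j => mem_nhdsWithin_of_mem_nhds (ge_mem_nhds (mul_pos (hT.wncc j).pos (hT.wR j).1))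
  have e3 : ∀ᶠ ρ in 𝓝[>] (0 : ℝ), ρ ≤ s ∧ ρ ≤ R :=
    Filter.Eventually.and (mem_nhdsWithin_of_mem_nhds (ge_mem_nhds hs)) (mem_nhdsWithin_of_mem_nhds (ge_mem_nhds hR))
  have e4 : ∀ᶠ ρ in 𝓝[>] (0 : ℝ), ∀ q ∈ ball (0 : Vd (k + 1)) ρ, κ q ∈ ball (κ 0) s₃ := by
    have h1 : ContinuousAt κ 0 := (K.κ_an 0 (mem_ball_self hR)).continuousAt
    obtain ⟨δ, hδ, h2⟩ := Metric.eventually_nhds_iff_ball.1 (h1.eventually (ball_mem_nhds (κ 0) hT.pos))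
    filter_upwards [mem_nhdsWithin_of_mem_nhds (ge_mem_nhds hδ)] with ρ hρ q hq
    exact h2 q (ball_subset_ball hρ hq)
  obtain ⟨ρ, ⟨⟨⟨h1, h2⟩, h3⟩, h4⟩, hρ⟩ := ((((e1.and e2).and e3).and e4).and self_mem_nhdsWithin).exists
  refine ⟨⟨T.m, fun i => (T.c i).χ, fun i => (T.c i).r, fun i => (T.c i).a, fun i => (T.c i).b, T.W, T.n, fun j => (T.w j).χ, fun j => (T.w j).r,
    fun j => (T.w j).a, fun j => (T.w j).b, fun j => (T.w j).R⟩, ρ, ?_⟩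
  exact ⟨hρ, h3.1, h3.2, fun i => (hc i).1, fun i => (hc i).2, h1, hT.W_open, hT.W_sub, hT.W_smul, fun q hq x hx hxq => hT.cover _ (h4 q hq) x hx hxq,
    fun j => (hw j).1, fun j => (hw j).2, hT.wR, h2, hT.wsub, hT.wnest, fun q hq x hx hxq => hT.wcover _ (h4 q hq) x hx hxq⟩

end Pool.Agent.GX

end
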