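import Pool.Agent.H94.G4T.M131
import Pool.Agent.H94.G4T.M134
import Pool.Agent.H94.G4T.M136

/-! The parts of this file: G3.X.RfA_1, G3.X.BrA_1. -/

section

/-!
# G3 X RfA: the form restricted to the slab

Port of `TG/Y/Rf.lean` (`Rf_det`, `Rf_tan`, `Rf_det_an`, `Rf_lift` are private there: copy / port) with `FrmA`: the fields of `La.form` and `La.form_eq` by `La.frame_indep`, `La.tan`.  The data field `toFun` of `La.form` is frozen.
-/

set_option autoImplicit false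

open Topology Filter Metric

namespace Pool.Agent.GX

open Pool.Agent.H36.BP (EN fs wd)
open Pool.Agent.H14.PP (IsCone CurveAt Tan)
open Pool.Agent.H62.EF (MN pr)
open Pool.Agent.AD (Vd Chart Charts IsGerm)
open Pool.Agent.TG (TMap Lat tl nm IsStr IsNC IsCoord Geo VForm ms Str IsPrim Cap IRel II TransAt Gd Cst DV fr tc exists_lift_chart smul_mem_lat exists_tan toFun_eq tc_an)

variable {N k : ℕ}

variable {X : Set (EN N)} {Λ : AddSubgroup (Vd (k + 1))} {u : EN N → Vd (k + 1)} {D B : Set (Vd (k + 1))}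
  {κ ψ : Vd (k + 1) → Vd (k + 1)} {R : ℝ} {g : ℂ → Fin k → ℂ} {Γ₀ : AddSubgroup ℂ} {s : ℝ}

theorem La.lfa_spec (L : La X Λ u D κ ψ R g Γ₀ s) {x : EN N} (hx : x ∈ Ya X Λ u κ g s) (j : Fin k) :
    DV X Λ u x (lfa X Λ u κ g s x j) (fr κ (cg g) (wa Λ u κ g s x) j) := by
  have h := L.exists_frame hx
  unfold lfa
  rw [dif_pos h]
  exact h.choose_spec j

/-- tangent vectors of the slab with a frame -/
private theorem RfA_tan (L : La X Λ u D κ ψ R g Γ₀ s) {x v w : EN N} (hx : x ∈ Ya X Λ u κ g s) (hv : Tan (Ya X Λ u κ g s) x v)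
    (hw : Tan (Ya X Λ u κ g s) x w) (i : Fin (k + 2)) : Tan X x ((Fin.cons v (Fin.cons w (lfa X Λ u κ g s x)) : Fin (k + 2) → EN N) i) := by
  obtain ⟨a, ha⟩ := L.tan hx hv
  obtain ⟨b, hb⟩ := L.tan hx hw
  refine Fin.cases ?_ (fun i => ?_) i
  · exact ha.tan
  · refine Fin.cases ?_ (fun i => ?_) i
    · exact hb.tan
    · exact (L.lfa_spec hx i).tan

/-- the restricted form -/
noncomputable def La.form (L : La X Λ u D κ ψ R g Γ₀ s) (α : VForm X Λ u) :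
    Pool.Agent.H62.EL.TForm (Ya X Λ u κ g s) Γ₀ (wa Λ u κ g s) where
  toFun := fun _ x v w => α.toFun (ar κ g (wa Λ u κ g s x)) x (Fin.cons v (Fin.cons w (lfa X Λ u κ g s x)))
  add_smul := by
    intro z x hx _ v w hv hw a b
    have h1 := α.add_smul _ x hx.1 (wa_spec hx).2 _ (RfA_tan L hx hv hw) (Fin.cons a (Fin.cons b 0))
    rw [← h1]
    congr 1
    funext i
    refine Fin.cases ?_ (fun i => ?_) i
    · rfl
    · refine Fin.cases ?_ (fun i => ?_) i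
      · rfl
      · simp
  det := by
    intro z x hx _ v w hv hw a b c' d
    have h1 := α.det _ x hx.1 (wa_spec hx).2 _ (RfA_tan L hx hv hw)
      (Matrix.of fun i j => (Fin.cons (Fin.cons a (Fin.cons b 0) : Fin (k + 2) → ℂ)
      (Fin.cons (Fin.cons c' (Fin.cons d 0) : Fin (k + 2) → ℂ) fun i : Fin k => (Pi.single i.succ.succ 1 : Fin (k + 2) → ℂ)) :
        Fin (k + 2) → Fin (k + 2) → ℂ) i j)
    rw [RfA_det] at h1
    rw [← h1]
    congr 1
    funext i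
    rw [Fin.sum_univ_succ, Fin.sum_univ_succ]
    refine Fin.cases ?_ (fun i => ?_) i
    · simp [Matrix.of_apply]
    · refine Fin.cases ?_ (fun i => ?_) i
      · simp [Matrix.of_apply]
      · simp only [Matrix.of_apply, Fin.cons_succ, Fin.cons_zero]
        rw [Pi.single_eq_of_ne (Fin.succ_ne_zero _).symm, Pi.single_eq_of_ne (fun h => by have h' := congrArg Fin.val h; simp at h'),
          zero_smul, zero_smul, zero_add, zero_add, Finset.sum_eq_single i]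
        · simp
        · intro j _ hj
          rw [Pi.single_eq_of_ne (fun h => hj (Fin.succ_injective _ (Fin.succ_injective _ h))), zero_smul]
        · intro h
          exact absurd (Finset.mem_univ i) h
  scale := by
    intro z x hx _ v w hv hw a ha
    obtain ⟨b₁, hb₁⟩ := L.tan hx hv
    obtain ⟨b₂, hb₂⟩ := L.tan hx hw
    have hax : a • x ∈ Ya X Λ u κ g s := L.isCone.smul_mem x hx a ha
    have hb₁' := hb₁.smul_pt L.kp.cone L.kp.tor ha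
    have hb₂' := hb₂.smul_pt L.kp.cone L.kp.tor ha
    rw [← L.wa_smul hx ha] at hb₁' hb₂'
    have h1 := L.frame_indep α hax hb₁' hb₂' (L.lfa_spec hax)
      (ℓ' := fun j => a • lfa X Λ u κ g s x j) (fun j => by
        rw [L.wa_smul hx ha]
        exact (L.lfa_spec hx j).smul_pt L.kp.cone L.kp.tor ha)
    rw [h1, L.wa_smul hx ha]
    have h2 := α.scale _ x hx.1 (wa_spec hx).2 _ (RfA_tan L hx hv hw) a ha
    rw [← h2]
    congr 1
    funext i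
    refine Fin.cases ?_ (fun i => ?_) i
    · rfl
    · refine Fin.cases ?_ (fun i => ?_) i
      · rfl
      · rfl
  analytic := by
    intro φ υ₀ q₀ hφ _ hev
    have hx₀ : φ q₀ ∈ Ya X Λ u κ g s := hev.self_of_nhds.1
    obtain ⟨χ, lam, hU, hlam, hfr⟩ := L.frame_coord hx₀
    obtain ⟨υ, hυ, hυe, hυl⟩ := exists_lift_chart L.kp.cone L.kp.tor χ hx₀.1 hU (wa_spec hx₀).2
    have hb₀ : χ.q (φ q₀) ∈ ball (0 : Vd (k + 2)) 2 := (χ.surj _ hx₀.1 hU).1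
    have hqφ : AnalyticAt ℂ (fun y => χ.q (φ y)) q₀ := AnalyticAt.fun_comp (χ.q_an _ hU) hφ
    have htc : AnalyticAt ℂ (fun y => tc α χ υ (χ.q (φ y))) q₀ := AnalyticAt.fun_comp (tc_an α χ hb₀ hυ hυl) hqφ
    have hrow : ∀ (v : ℂ × ℂ) (i : Fin (k + 2)), AnalyticAt ℂ (fun y => fderiv ℂ (fun y => χ.q (φ y)) y v i) q₀ := by
      intro v i
      have h2 : AnalyticAt ℂ (fun A : ℂ × ℂ →L[ℂ] Vd (k + 2) => A v) (fderiv ℂ (fun y => χ.q (φ y)) q₀) :=
        (ContinuousLinearMap.apply ℂ (Vd (k + 2)) v).analyticAt _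
      have h3 : AnalyticAt ℂ (fun y => fderiv ℂ (fun y => χ.q (φ y)) y v) q₀ :=
        AnalyticAt.comp (g := fun A : ℂ × ℂ →L[ℂ] Vd (k + 2) => A v) (f := fun y => fderiv ℂ (fun y => χ.q (φ y)) y) h2 hqφ.fderiv
      exact (analyticAt_pi_iff.1 h3) i
    have hlamφ : AnalyticAt ℂ (fun y => lam (φ y)) q₀ := AnalyticAt.fun_comp hlam hφ
    have hdet : AnalyticAt ℂ (fun y => (Matrix.of fun i j => (Fin.cons (fderiv ℂ (fun y => χ.q (φ y)) y (1, 0))
        (Fin.cons (fderiv ℂ (fun y => χ.q (φ y)) y (0, 1)) (lam (φ y))) : Fin (k + 2) → Vd (k + 2)) i j).det) q₀ := by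
      refine RfA_det_an fun i j => ?_
      refine Fin.cases ?_ (fun i => ?_) i
      · exact hrow _ j
      · refine Fin.cases ?_ (fun i => ?_) i
        · exact hrow _ j
        · exact (analyticAt_pi_iff.1 ((analyticAt_pi_iff.1 hlamφ) i)) j
    refine (hdet.mul htc).congr ?_
    have hφt : Tendsto φ (𝓝 q₀) (𝓝 (φ q₀)) := hφ.continuousAt
    filter_upwards [hev.eventually_nhds, hφ.eventually_analyticAt, hφt.eventually hfr, hφt.eventually (RfA_lift L χ hx₀ hU hυ hυe hυl),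
      hφt.eventually (χ.isOpen_U.mem_nhds hU)] with y h1 h2 h3 h4 h5
    have hy : φ y ∈ Ya X Λ u κ g s := h1.self_of_nhds.1
    -- tangent vectors
    have htan : ∀ v : ℂ × ℂ, Tan (Ya X Λ u κ g s) (φ y) (fderiv ℂ φ y v) := by
      intro v
      have hl : AnalyticAt ℂ (fun z : ℂ => y + z • v) 0 := by fun_prop
      have h0 : y + (0 : ℂ) • v = y := by simp
      have hσ : AnalyticAt ℂ φ (y + (0 : ℂ) • v) := by rw [h0]; exact h2
      refine ⟨fun z => φ (y + z • v), ⟨AnalyticAt.comp (g := φ) (f := fun z : ℂ => y + z • v) hσ hl, ?_⟩, by simp, ?_⟩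
      · have ht : Tendsto (fun z : ℂ => y + z • v) (𝓝 0) (𝓝 y) := by
          have h6 := hl.continuousAt.tendsto
          rwa [h0] at h6
        exact (ht.eventually h1).mono fun z hz => hz.1
      · have k1 : HasFDerivAt φ (fderiv ℂ φ y) (y + (0 : ℂ) • v) := by
          rw [h0]; exact h2.differentiableAt.hasFDerivAt
        have k2 : HasDerivAt (fun z : ℂ => y + z • v) v 0 := by
          have k3 : HasDerivAt (fun z : ℂ => z • v) ((1 : ℂ) • v) 0 := (hasDerivAt_id (0 : ℂ)).smul_const v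
          rw [one_smul] at k3
          exact k3.const_add y
        exact (k1.comp_hasDerivAt (0 : ℂ) k2).deriv
    have hchain : ∀ v : ℂ × ℂ, fderiv ℂ χ.q (φ y) (fderiv ℂ φ y v) = fderiv ℂ (fun y => χ.q (φ y)) y v := by
      intro v
      have k3 : HasFDerivAt (fun y => χ.q (φ y)) ((fderiv ℂ χ.q (φ y)).comp (fderiv ℂ φ y)) y :=
        (χ.q_an _ h5).differentiableAt.hasFDerivAt.comp y h2.differentiableAt.hasFDerivAt
      rw [k3.fderiv]
      rfl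
    have hℓ : ∀ j, ∃ w : EN N, Tan X (φ y) w ∧ fderiv ℂ χ.q (φ y) w = lam (φ y) j := fun j => exists_tan L.kp.cone χ hy.1 h5 _
    choose ℓ hℓ1 hℓ2 using hℓ
    have hℓ3 : ∀ j, DV X Λ u (φ y) (ℓ j) (fr κ (cg g) (wa Λ u κ g s (φ y)) j) := fun j => h3 hy j _ (hℓ1 j) (hℓ2 j)
    obtain ⟨a, ha⟩ := L.tan hy (htan (1, 0))
    obtain ⟨b, hb⟩ := L.tan hy (htan (0, 1))
    show _ = α.toFun (ar κ g (wa Λ u κ g s (φ y))) (φ y) (Fin.cons (fderiv ℂ φ y (1, 0)) (Fin.cons (fderiv ℂ φ y (0, 1)) (lfa X Λ u κ g s (φ y))))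
    rw [L.frame_indep α hy ha hb (L.lfa_spec hy) hℓ3, toFun_eq L.kp.cone L.kp.tor α χ hy.1 h5 (wa_spec hy).2 (h4 hy) _ (by
      intro i
      refine Fin.cases ?_ (fun i => ?_) i
      · exact ha.tan
      · refine Fin.cases ?_ (fun i => ?_) i
        · exact hb.tan
        · exact hℓ1 i)]
    refine congrArg (fun z : ℂ => z * tc α χ υ (χ.q (φ y))) (congrArg Matrix.det ?_)
    ext i j
    refine Fin.cases ?_ (fun i => ?_) i
    · exact (congrFun (hchain (1, 0)) j).symm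
    · refine Fin.cases ?_ (fun i => ?_) i
      · exact (congrFun (hchain (0, 1)) j).symm
      · exact (congrFun (hℓ2 i) j).symm

theorem La.form_eq (L : La X Λ u D κ ψ R g Γ₀ s) (α : VForm X Λ u) (z : ℂ) {x v w : EN N} (hx : x ∈ Ya X Λ u κ g s)
    (hv : Tan (Ya X Λ u κ g s) x v) (hw : Tan (Ya X Λ u κ g s) x w) {ℓ : Fin k → EN N}
    (hℓ : ∀ j, DV X Λ u x (ℓ j) (fr κ (cg g) (wa Λ u κ g s x) j)) :
    (L.form α).toFun z x v w = α.toFun (ar κ g (wa Λ u κ g s x)) x (Fin.cons v (Fin.cons w ℓ)) := by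
  obtain ⟨a, ha⟩ := L.tan hx hv
  obtain ⟨b, hb⟩ := L.tan hx hw
  exact L.frame_indep α hx ha hb (L.lfa_spec hx) hℓ

end Pool.Agent.GX

end

section

/-!
# G3 X BrA: the coefficient of the restricted form

Port of `Ln.slice_tc` (`TG/Y/Br.lean`; `Br_det` is private there: copy).  `fderiv (sla ..) y (1, 0) = cons 0 ((r / ρ) • deriv (ar κ g) (z₀ + r y.1))`, `fderiv (sla ..) y (0, 1) = Pi.single 0 1`.
-/

set_option autoImplicit false

open Topology Filter Metric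

namespace Pool.Agent.GX

open Pool.Agent.H36.BP (EN fs wd)
open Pool.Agent.H14.PP (IsCone CurveAt Tan)
open Pool.Agent.H62.EF (MN pr)
open Pool.Agent.AD (Vd Chart Charts IsGerm)
open Pool.Agent.TG (TMap Lat tl nm IsStr IsNC IsCoord Geo VForm ms Str IsPrim Cap IRel II TransAt Gd Cst DV fr tc)

variable {N k : ℕ}

variable {X : Set (EN N)} {Λ : AddSubgroup (Vd (k + 1))} {u : EN N → Vd (k + 1)} {D B : Set (Vd (k + 1))}
  {κ ψ : Vd (k + 1) → Vd (k + 1)} {R : ℝ} {g : ℂ → Fin k → ℂ} {Γ₀ : AddSubgroup ℂ} {s : ℝ}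

theorem La.slice_tc (L : La X Λ u D κ ψ R g Γ₀ s) (α : VForm X Λ u) (χ : Chart (k + 2) X) {c' : Vd (k + 1)} {ρ : ℝ} (hs : Str Λ u χ c' ρ)
    {z₀ : ℂ} {r : ℝ} (hr : 0 < r) {χ' : Pool.Agent.H14.PP.Chart (Ya X Λ u κ g s)}
    (hσ : ∀ y ∈ ball (0 : ℂ × ℂ) 2, ‖z₀ + r * y.1‖ < s ∧ sla κ g c' ρ z₀ r y ∈ ball (0 : Vd (k + 2)) 2 ∧ χ'.σ y = χ.σ (sla κ g c' ρ z₀ r y))
    (υ : ℂ × ℂ → ℂ) {y : ℂ × ℂ} (hy : y ∈ ball (0 : ℂ × ℂ) 2) :
    Pool.Agent.H62.EL.tc (L.form α) χ' υ y =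
      -((r : ℂ) / (ρ : ℂ) ^ (k + 1)) * dta κ g (z₀ + r * y.1) * tc α χ (ms c' ρ) (sla κ g c' ρ z₀ r y) := by
  obtain ⟨hz, hq, hσy⟩ := hσ y hy
  have hρ := hs.pos
  have hρ0 : (ρ : ℂ) ≠ 0 := by exact_mod_cast hρ.ne'
  have hmY := (χ'.σ_mem y hy).1
  have hmχ := χ.σ_mem _ hq
  have hlift := hs.lift _ hq
  rw [sla_ms hρ] at hlift
  have har : AnalyticAt ℂ (ar κ g) (z₀ + r * y.1) := L.ar_an (L.mem2 hz.le)
  set e : Vd (k + 1) := deriv (ar κ g) (z₀ + r * y.1) with he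
  have hwl : wa Λ u κ g s (χ'.σ y) = z₀ + r * y.1 := by
    rw [hσy]
    exact L.wa_eq hz.le hlift
  have hder : fderiv ℂ χ'.σ y = (fderiv ℂ χ.σ (sla κ g c' ρ z₀ r y)).comp (BrA_slL e ρ r) := by
    have h1 : HasFDerivAt (fun y => χ.σ (sla κ g c' ρ z₀ r y)) ((fderiv ℂ χ.σ (sla κ g c' ρ z₀ r y)).comp (BrA_slL e ρ r)) y :=
      (χ.σ_an _ hq).differentiableAt.hasFDerivAt.comp y (BrA_sla_deriv c' ρ z₀ r y har)
    refine (h1.congr_of_eventuallyEq ?_).fderiv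
    filter_upwards [isOpen_ball.mem_nhds hy] with y' hy'
    exact (hσ y' hy').2.2
  have hpart : Pool.Agent.H14.PP.IsOpenPart (Ya X Λ u κ g s) (Ya X Λ u κ g s) :=
    ⟨subset_rfl, (L.isCone).smul_mem, fun x hx => Eventually.of_forall fun _ h => h⟩
  have htan : ∀ w : ℂ × ℂ, Tan (Ya X Λ u κ g s) (χ'.σ y) (fderiv ℂ χ'.σ y w) := fun w => χ'.tan hpart hy hmY w
  -- the frame
  have hframe : ∀ j, DV X Λ u (χ'.σ y) (fderiv ℂ χ.σ (sla κ g c' ρ z₀ r y) (Fin.cons (α := fun _ => ℂ) 0 ((ρ : ℂ)⁻¹ • fr κ (cg g) (z₀ + r * y.1) j)))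
      (fr κ (cg g) (wa Λ u κ g s (χ'.σ y)) j) := by
    intro j
    rw [hwl, hσy]
    refine (Pool.Agent.TG.dv_iff L.kp.cone L.kp.tor L.kp.lat χ hmχ.1 hmχ.2.1 (υ := ms c' ρ) ?_ ?_).2 ⟨Pool.Agent.TG.tan_sigma χ hq _, ?_⟩
    · exact analyticAt_const.add (((ρ : ℂ) • Pool.Agent.TG.tlL (k := k)).analyticAt _)
    · rw [hmχ.2.2]
      filter_upwards [isOpen_ball.mem_nhds hq] with q' hq'
      exact hs.lift q' hq'
    · rw [χ.fderiv_sigma hq]
      have h1 : HasFDerivAt (ms (k := k) c' ρ) ((ρ : ℂ) • Pool.Agent.TG.tlL (k := k)) (χ.q (χ.σ (sla κ g c' ρ z₀ r y))) :=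
        (((ρ : ℂ) • Pool.Agent.TG.tlL (k := k)).hasFDerivAt).const_add c'
      rw [h1.fderiv]
      show (ρ : ℂ) • ((ρ : ℂ)⁻¹ • fr κ (cg g) (z₀ + r * y.1) j) = fr κ (cg g) (z₀ + r * y.1) j
      rw [smul_smul, mul_inv_cancel₀ hρ0, one_smul]
  unfold Pool.Agent.H62.EL.tc
  rw [L.form_eq α (υ y) hmY (htan _) (htan _) hframe, hwl]
  have hT : ∀ i : Fin (k + 2), Tan X (χ'.σ y) ((Fin.cons (fderiv ℂ χ'.σ y (1, 0)) (Fin.cons (fderiv ℂ χ'.σ y (0, 1))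
      fun j => fderiv ℂ χ.σ (sla κ g c' ρ z₀ r y) (Fin.cons (α := fun _ => ℂ) 0 ((ρ : ℂ)⁻¹ • fr κ (cg g) (z₀ + r * y.1) j))) : Fin (k + 2) → EN N) i) := by
    intro i
    rw [hσy]
    refine Fin.cases ?_ (fun i' => Fin.cases ?_ (fun j => ?_) i') i
    · show Tan X _ (fderiv ℂ χ'.σ y (1, 0))
      rw [hder]
      exact Pool.Agent.TG.tan_sigma χ hq _
    · show Tan X _ (fderiv ℂ χ'.σ y (0, 1))
      rw [hder]
      exact Pool.Agent.TG.tan_sigma χ hq _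
    · exact Pool.Agent.TG.tan_sigma χ hq _
  have hms : ms c' ρ (χ.q (χ'.σ y)) = ar κ g (z₀ + r * y.1) := by
    rw [hσy, hmχ.2.2]
    exact sla_ms hρ z₀ r y
  have hxU : χ'.σ y ∈ χ.U := by
    rw [hσy]
    exact hmχ.2.1
  have hlift' : u (χ'.σ y) - ar κ g (z₀ + r * y.1) ∈ Λ := by
    rw [hσy]
    exact hlift
  rw [Pool.Agent.TG.toFun_eq L.kp.cone L.kp.tor α χ hmY.1 hxU hlift' hms _ hT]
  have hqσ : χ.q (χ'.σ y) = sla κ g c' ρ z₀ r y := by
    rw [hσy]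
    exact hmχ.2.2
  have hM : (Matrix.of fun i j => fderiv ℂ χ.q (χ'.σ y) ((Fin.cons (fderiv ℂ χ'.σ y (1, 0)) (Fin.cons (fderiv ℂ χ'.σ y (0, 1))
      fun j => fderiv ℂ χ.σ (sla κ g c' ρ z₀ r y) (Fin.cons (α := fun _ => ℂ) 0 ((ρ : ℂ)⁻¹ • fr κ (cg g) (z₀ + r * y.1) j))) : Fin (k + 2) → EN N) i) j) =
      Matrix.of fun i j => (Fin.cons (Fin.cons (α := fun _ => ℂ) 0 (((r : ℂ) * (ρ : ℂ)⁻¹) • e)) (Fin.cons (Pi.single 0 1)
      fun l => Fin.cons (α := fun _ => ℂ) 0 ((ρ : ℂ)⁻¹ • fr κ (cg g) (z₀ + r * y.1) l)) : Fin (k + 2) → Vd (k + 2)) i j := by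
    have h1 : ∀ w : Vd (k + 2), fderiv ℂ χ.q (χ'.σ y) (fderiv ℂ χ.σ (sla κ g c' ρ z₀ r y) w) = w := by
      intro w
      rw [hσy]
      exact χ.fderiv_sigma hq w
    funext i
    refine Fin.cases ?_ (fun i' => Fin.cases ?_ (fun j => ?_) i') i
    · show fderiv ℂ χ.q (χ'.σ y) (fderiv ℂ χ'.σ y (1, 0)) = Fin.cons (α := fun _ => ℂ) 0 (((r : ℂ) * (ρ : ℂ)⁻¹) • e)
      rw [hder, ContinuousLinearMap.comp_apply, h1, BrA_slL_apply]
      congr 1
      rw [smul_smul]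
      congr 1
      ring
    · show fderiv ℂ χ.q (χ'.σ y) (fderiv ℂ χ'.σ y (0, 1)) = Pi.single 0 1
      rw [hder, ContinuousLinearMap.comp_apply, h1, BrA_slL_apply]
      funext m
      refine Fin.cases ?_ (fun m' => ?_) m
      · show (1 : ℂ) = (Pi.single 0 1 : Vd (k + 2)) 0
        rw [Pi.single_eq_same]
      · show (ρ : ℂ)⁻¹ * ((r * 0) * e m') = (Pi.single 0 1 : Vd (k + 2)) m'.succ
        rw [Pi.single_eq_of_ne (Fin.succ_ne_zero m')]
        ring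
    · show fderiv ℂ χ.q (χ'.σ y) (fderiv ℂ χ.σ (sla κ g c' ρ z₀ r y) (Fin.cons (α := fun _ => ℂ) 0 ((ρ : ℂ)⁻¹ • fr κ (cg g) (z₀ + r * y.1) j))) =
        Fin.cons (α := fun _ => ℂ) 0 ((ρ : ℂ)⁻¹ • fr κ (cg g) (z₀ + r * y.1) j)
      exact h1 _
  rw [hM, BrA_det, hqσ]
  unfold dta
  rw [inv_pow, ← he]
  ring

end Pool.Agent.GX

end
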