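import Pool.Agent.H94.G4T.M128
import Pool.Agent.H94.G4T.M132
import Pool.Agent.H94.G4T.M135
import Pool.Agent.H94.G4T.M137
import Pool.Agent.H94.G4T.M62
import Pool.Agent.H94.G4T.M77
import Pool.Agent.H94.G4T.M85
import Pool.Agent.H94.G4T.M88

/-! The parts of this file: G3.X.BrI_1, G3.X.CrG, G3.X.Main_1, G3.X.Crs. -/

section

/-!
# G3 X BrI: short paths and caps in the slab

`irel_bridge`: port of `Ln.irel_bridge` (`TG/Y/Br.lean`).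
`capz_bridge`: `q₀ = χ.q x₀` (`Cap.cap` at `y = ar κ g z₀`: `χ.q x₀ ∈ closedBall 0 1`, `ms c' ρ q₀ = ar κ g z₀`), `χ', r', τ` from `slice_chart`, `c'' = z₀`, `ρ'' = r'`.  For `z` near `z₀`: `‖ar κ g z - ar κ g z₀‖ ≤ r`, `‖z - z₀‖ < τ`, `‖z - z₀‖ ≤ r'`, `‖z‖ ≤ s`; `x ∈ Ya` with `wa x - z ∈ Γ₀`: `wa x = z` (`La.nb`), so
`u x - ar κ g z ∈ Λ`, `Cap.cap`: `x ∈ χ.U`, `χ.q x ∈ closedBall 0 1`, `ms c' ρ (χ.q x) = ar κ g z`; last part of `slice_chart`: `χ'.q x = ((z - z₀) / r', χ.q x 0)`.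
-/

set_option autoImplicit false

open Topology Filter Metric

namespace Pool.Agent.GX

open Pool.Agent.H36.BP (EN fs wd)
open Pool.Agent.H14.PP (IsCone CurveAt Tan)
open Pool.Agent.H62.EF (MN pr)
open Pool.Agent.AD (Vd Chart Charts IsGerm)
open Pool.Agent.TG (TMap Lat tl nm IsStr IsNC IsCoord Geo VForm ms Str IsPrim Cap IRel II TransAt Gd Cst DV fr tc)

variable {N k : ℕ}

variable {X : Set (EN N)} {Λ : AddSubgroup (Vd (k + 1))} {u : EN N → Vd (k + 1)} {D B : Set (Vd (k + 1))}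
  {κ ψ : Vd (k + 1) → Vd (k + 1)} {R : ℝ} {g : ℂ → Fin k → ℂ} {Γ₀ : AddSubgroup ℂ} {s : ℝ}

theorem La.irel_bridge (L : La X Λ u D κ ψ R g Γ₀ s) {α : VForm X Λ u} {ε : ℝ} {z : ℂ} (hz : ‖z‖ < s) {m m' : MN N} {v : ℂ}
    (h : IRel α ε (ar κ g z) m m' v) : Pool.Agent.H62.EL.IRel (L.form α) ε z m m' (-dta κ g z * v) := by
  obtain ⟨χ, c', ρ, A, q, q', hs, hA, hq, hq', hms, hms', hm, hm', hpath, hv⟩ := h
  have hρ := hs.pos
  have hρ0 : (ρ : ℂ) ≠ 0 := by exact_mod_cast hρ.ne'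
  obtain ⟨χ', r, τ, hmon, -, hσ, -⟩ := L.slice_chart χ hs hq le_rfl hz hms
  have hr := hmon.pos
  have hr0 : (r : ℂ) ≠ 0 := by exact_mod_cast hr.ne'
  have hsl : ∀ (q : Vd (k + 2)), ms c' ρ q = ar κ g z → sla κ g c' ρ z r (0, q 0) = q := by
    intro q h
    refine sla_eq hρ z r (y := (0, q 0)) rfl ?_
    rw [mul_zero, add_zero]
    exact h
  have hy : ∀ (q : Vd (k + 2)), q ∈ ball (0 : Vd (k + 2)) 2 → ((0 : ℂ), q 0) ∈ ball (0 : ℂ × ℂ) 2 := by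
    intro q hq
    rw [BrI_ball_iff]
    refine ⟨?_, ((BrI_ball_iff' q).1 hq).1⟩
    show ‖(0 : ℂ)‖ < 2
    rw [norm_zero]
    norm_num
  have hb : ∀ y ∈ ball (0 : ℂ × ℂ) 2, AnalyticAt ℂ (fun y : ℂ × ℂ => dta κ g (z + r * y.1)) y := by
    intro y hy
    have h1 : AnalyticAt ℂ (fun y : ℂ × ℂ => z + (r : ℂ) * y.1) y :=
      analyticAt_const.add (analyticAt_const.mul ((ContinuousLinearMap.fst ℂ ℂ ℂ).analyticAt y))
    exact AnalyticAt.fun_comp (g := dta κ g) (f := fun y : ℂ × ℂ => z + (r : ℂ) * y.1) (L.dta_an (L.mem2 (hσ y hy).1.le)) h1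
  have hAs : ∀ y ∈ ball (0 : ℂ × ℂ) 2, AnalyticAt ℂ (fun y => A (sla κ g c' ρ z r y)) y :=
    fun y hy => (hA.an _ (hσ y hy).2.1).fun_comp (L.sla_an c' ρ z r (L.mem2 (hσ y hy).1.le))
  refine ⟨χ', z, r, fun y => -((r : ℂ) / (ρ : ℂ) ^ (k + 1)) * dta κ g (z + r * y.1) * A (sla κ g c' ρ z r y), (0, q 0), (0, q' 0), hmon,
    ⟨?_, ?_, ?_⟩, hy q hq, hy q' hq', ?_, ?_, ?_, ?_, ?_, ?_⟩
  · intro y hy
    exact (analyticAt_const.mul (hb y hy)).mul (hAs y hy)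
  · intro y hy
    rw [L.slice_tc α χ hs hr hσ _ hy]
    have h2 : HasDerivAt (fun t : ℂ => A (sla κ g c' ρ z r (y + t • ((0 : ℂ), (1 : ℂ))))) (tc α χ (ms c' ρ) (sla κ g c' ρ z r y)) 0 := by
      have h3 : HasDerivAt (fun t : ℂ => sla κ g c' ρ z r y + t • (Pi.single 0 1 : Vd (k + 2))) (Pi.single 0 1 : Vd (k + 2)) 0 := by
        have h4 := ((hasDerivAt_id (0 : ℂ)).smul_const (Pi.single 0 1 : Vd (k + 2))).const_add (sla κ g c' ρ z r y)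
        rwa [one_smul] at h4
      have h5 : HasFDerivAt A (fderiv ℂ A (sla κ g c' ρ z r y)) (sla κ g c' ρ z r y + (0 : ℂ) • (Pi.single 0 1 : Vd (k + 2))) := by
        rw [zero_smul, add_zero]
        exact (hA.an _ (hσ y hy).2.1).differentiableAt.hasFDerivAt
      have h6 := h5.comp_hasDerivAt (0 : ℂ) h3
      rw [hA.der _ (hσ y hy).2.1] at h6
      refine h6.congr_of_eventuallyEq (Eventually.of_forall fun t => ?_)
      show A (sla κ g c' ρ z r (y + t • ((0 : ℂ), (1 : ℂ)))) = A (sla κ g c' ρ z r y + t • (Pi.single 0 1 : Vd (k + 2)))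
      rw [BrI_sla_add]
    have h8 : HasDerivAt (fun t : ℂ => (fun y : ℂ × ℂ => -((r : ℂ) / (ρ : ℂ) ^ (k + 1)) * dta κ g (z + r * y.1) * A (sla κ g c' ρ z r y))
        (y + t • ((0 : ℂ), (1 : ℂ)))) (-((r : ℂ) / (ρ : ℂ) ^ (k + 1)) * dta κ g (z + r * y.1) * tc α χ (ms c' ρ) (sla κ g c' ρ z r y)) 0 := by
      have h9 := h2.const_mul (-((r : ℂ) / (ρ : ℂ) ^ (k + 1)) * dta κ g (z + r * y.1))
      refine h9.congr_of_eventuallyEq (Eventually.of_forall fun t => ?_)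
      show -((r : ℂ) / (ρ : ℂ) ^ (k + 1)) * dta κ g (z + r * (y.1 + t * 0)) * A (sla κ g c' ρ z r (y + t • ((0 : ℂ), (1 : ℂ)))) =
        -((r : ℂ) / (ρ : ℂ) ^ (k + 1)) * dta κ g (z + r * y.1) * A (sla κ g c' ρ z r (y + t • ((0 : ℂ), (1 : ℂ))))
      rw [mul_zero, add_zero]
    have h10 : HasDerivAt (fun t : ℂ => (fun y : ℂ × ℂ => -((r : ℂ) / (ρ : ℂ) ^ (k + 1)) * dta κ g (z + r * y.1) * A (sla κ g c' ρ z r y))
        (y + t • ((0 : ℂ), (1 : ℂ)))) (fderiv ℂ (fun y : ℂ × ℂ => -((r : ℂ) / (ρ : ℂ) ^ (k + 1)) * dta κ g (z + r * y.1) *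
          A (sla κ g c' ρ z r y)) y ((0 : ℂ), (1 : ℂ))) 0 := by
      have h3 : HasDerivAt (fun t : ℂ => y + t • ((0 : ℂ), (1 : ℂ))) ((0 : ℂ), (1 : ℂ)) 0 := by
        have h4 := ((hasDerivAt_id (0 : ℂ)).smul_const ((0 : ℂ), (1 : ℂ))).const_add y
        rwa [one_smul] at h4
      have h11 := ((analyticAt_const.mul (hb y hy)).mul (hAs y hy) : AnalyticAt ℂ (fun y : ℂ × ℂ =>
        -((r : ℂ) / (ρ : ℂ) ^ (k + 1)) * dta κ g (z + r * y.1) * A (sla κ g c' ρ z r y)) y).differentiableAt.hasFDerivAt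
      have h5 : HasFDerivAt (fun y : ℂ × ℂ => -((r : ℂ) / (ρ : ℂ) ^ (k + 1)) * dta κ g (z + r * y.1) * A (sla κ g c' ρ z r y))
          (fderiv ℂ (fun y : ℂ × ℂ => -((r : ℂ) / (ρ : ℂ) ^ (k + 1)) * dta κ g (z + r * y.1) * A (sla κ g c' ρ z r y)) y)
          (y + (0 : ℂ) • ((0 : ℂ), (1 : ℂ))) := by
        rw [zero_smul, add_zero]
        exact h11
      exact h5.comp_hasDerivAt (0 : ℂ) h3
    exact h10.unique h8
  · intro t ht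
    have h1 : ((t : ℂ), (0 : ℂ)) ∈ ball (0 : ℂ × ℂ) 2 := by
      rw [BrI_ball_iff]
      refine ⟨ht, ?_⟩
      show ‖(0 : ℂ)‖ < 2
      rw [norm_zero]
      norm_num
    show -((r : ℂ) / (ρ : ℂ) ^ (k + 1)) * dta κ g (z + r * t) * A (sla κ g c' ρ z r (t, 0)) = 0
    rw [hA.zero _ (hσ _ h1).2.1 rfl, mul_zero]
  · show z + r * (0 : ℂ) = z
    rw [mul_zero, add_zero]
  · show z + r * (0 : ℂ) = z
    rw [mul_zero, add_zero]
  · rw [(hσ _ (hy q hq)).2.2, hsl q hms]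
    exact hm
  · rw [(hσ _ (hy q' hq')).2.2, hsl q' hms']
    exact hm'
  · intro θ hθ
    have h1 : ms c' ρ (q + (θ : ℂ) • (q' - q)) = ar κ g z := by
      have h2 : ms c' ρ (q + (θ : ℂ) • (q' - q)) = ms c' ρ q + (θ : ℂ) • (ms c' ρ q' - ms c' ρ q) := by
        unfold ms
        rw [Pool.Agent.TG.tl_add, Pool.Agent.TG.tl_smul, Pool.Agent.TG.tl_sub, smul_add, smul_comm (ρ : ℂ) (θ : ℂ),
          add_sub_add_left_eq_sub, ← smul_sub]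
        abel
      rw [h2, hms, hms', sub_self, smul_zero, add_zero]
    have hb2 : q + (θ : ℂ) • (q' - q) ∈ ball (0 : Vd (k + 2)) 2 := by
      have h3 := (convex_ball (0 : Vd (k + 2)) 2).add_smul_sub_mem hq hq' hθ
      have h4 : (θ : ℂ) • (q' - q) = θ • (q' - q) := by
        funext i
        show (θ : ℂ) * (q' - q) i = θ • (q' - q) i
        rw [Complex.real_smul]
      rw [h4]
      exact h3
    have h5 : ((0 : ℂ), q 0) + (θ : ℂ) • (((0 : ℂ), q' 0) - ((0 : ℂ), q 0)) = ((0 : ℂ), (q + (θ : ℂ) • (q' - q)) 0) := by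
      refine Prod.ext ?_ ?_
      · show (0 : ℂ) + (θ : ℂ) * (0 - 0) = 0
        ring
      · rfl
    rw [h5, (hσ _ (hy _ hb2)).2.2, hsl _ h1]
    exact hpath θ hθ
  · show -dta κ g z * v = (-((r : ℂ) / (ρ : ℂ) ^ (k + 1)) * dta κ g (z + r * 0) * A (sla κ g c' ρ z r (0, q' 0)) -
      -((r : ℂ) / (ρ : ℂ) ^ (k + 1)) * dta κ g (z + r * 0) * A (sla κ g c' ρ z r (0, q 0))) / r
    rw [hsl q hms, hsl q' hms', mul_zero, add_zero, hv]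
    have hρk : (ρ : ℂ) ^ (k + 1) ≠ 0 := pow_ne_zero _ hρ0
    field_simp
    ring

end Pool.Agent.GX

end

section

/-!
# G3 X CrG: crossing for graphs

`Γ₀` from `TG.exists_lat₀ (8 * s)`, `L` from `la_of_fam`, `T` from `La.tube_geo` and `GXE.tube_of_geo`.  `F, H` are `TGY.SecOn` for `Ya` on `ball 0 t` (`wa (F z) = z` by `wa_eq`).  As in the proof of `TG.crossing` (`TG/Cross.lean`): `GXE.crossing_free` for `L.form α`, `hcap` from `capz_bridge` (`s₁ = ρ`), `hrel` from `irel_bridge`;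
`EL.II (L.form α) ε z .. = - dta κ g z * II α ε (ar κ g z) ..` by `eq_capz`, `II_eqz`, `EL.exists_prim`; `J z = - J' z / dta κ g z` (`dta_ne`, `dta_an`).
-/

set_option autoImplicit false

open Topology Filter Metric

namespace Pool.Agent.GX

open Pool.Agent.H36.BP (EN fs wd)
open Pool.Agent.H14.PP (IsCone CurveAt Tan)
open Pool.Agent.H62.EF (MN pr)
open Pool.Agent.AD (Vd Chart Charts IsGerm)
open Pool.Agent.TG (TMap Lat tl nm IsStr IsNC IsCoord Geo VForm ms Str IsPrim Cap IRel II TransAt Gd Cst DV fr tc)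

variable {N k : ℕ}

variable {X : Set (EN N)} {Λ : AddSubgroup (Vd (k + 1))} {u : EN N → Vd (k + 1)} {D B : Set (Vd (k + 1))}
  {κ ψ : Vd (k + 1) → Vd (k + 1)} {R : ℝ} {g : ℂ → Fin k → ℂ} {Γ₀ : AddSubgroup ℂ} {s : ℝ}

variable {ρ : ℝ} {Φ : Fam X k}

theorem cross_graph (K : Kp X Λ u D κ ψ R) (H : FamG Λ u κ R s ρ Φ) (hs : 2 * s ≤ R) (hg : DifferentiableOn ℂ g (ball (0 : ℂ) (2 * s)))
    (hρ : ∀ z ∈ ball (0 : ℂ) (2 * s), ‖g z‖ < ρ) {r₁ r₂ t ε r : ℝ} (hr₁ : 0 < r₁) (hr₁₂ : r₁ < r₂) (hr₂ : r₂ < t) (ht : t ≤ ρ) (hε : ε < r)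
    (α : VForm X Λ u) {F F' : ℂ → EN N} (hF : DifferentiableOn ℂ F (ball 0 t)) (hF' : DifferentiableOn ℂ F' (ball 0 t))
    (hFX : ∀ z ∈ ball (0 : ℂ) t, F z ∈ X ∧ u (F z) - ar κ g z ∈ Λ) (hFX' : ∀ z ∈ ball (0 : ℂ) t, F' z ∈ X ∧ u (F' z) - ar κ g z ∈ Λ)
    (hcap : ∀ z : ℂ, r₁ < ‖z‖ → ‖z‖ < r₂ → ∃ (χ : Chart (k + 2) X) (c' : Vd (k + 1)) (ρ' : ℝ), Cap Λ u χ c' ρ' (ar κ g z) (pr (F z)) r)
    (hrel : ∀ z : ℂ, r₁ < ‖z‖ → ‖z‖ < r₂ → ∃ v, IRel α ε (ar κ g z) (pr (F z)) (pr (F' z)) v) :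
    ∃ J : ℂ → ℂ, DifferentiableOn ℂ J (ball 0 r₂) ∧
      ∀ z : ℂ, r₁ < ‖z‖ → ‖z‖ < r₂ → J z = II α ε (ar κ g z) (pr (F z)) (pr (F' z)) := by
  obtain ⟨Γ₀, h₀, hb⟩ := Pool.Agent.TG.exists_lat₀ (8 * s)
  have L : La X Λ u D κ ψ R g Γ₀ s := la_of_fam K H hs h₀ hb hg hρ
  obtain ⟨T, 𝒲, hT, hW⟩ := L.tube_geo H hρ
  have hTube := Pool.Agent.GXE.tube_of_geo L.isCone L.torusMap hT hW
  have hts : t ≤ s := ht.trans H.le
  have hr₂ρ : r₂ < ρ := hr₂.trans_le ht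
  have hr₂s : r₂ < s := hr₂.trans_le hts
  have hsec : ∀ {G : ℂ → EN N}, DifferentiableOn ℂ G (ball 0 t) → (∀ z ∈ ball (0 : ℂ) t, G z ∈ X ∧ u (G z) - ar κ g z ∈ Λ) →
      Pool.Agent.TGY.SecOn (Ya X Λ u κ g s) Γ₀ (wa Λ u κ g s) 0 t G := by
    intro G h1 h2
    refine ⟨h1, fun z hz => ?_, fun z hz => ?_⟩
    · exact ⟨(h2 z hz).1, z, (mem_ball_zero_iff.1 hz).le.trans hts, (h2 z hz).2⟩
    · rw [L.wa_eq ((mem_ball_zero_iff.1 hz).le.trans hts) (h2 z hz).2, sub_self]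
      exact Γ₀.zero_mem
  have hS := hsec hF hFX
  have hS' := hsec hF' hFX'
  have hbt : ∀ z : ℂ, ‖z‖ < r₂ → z ∈ ball (0 : ℂ) t := fun z hz => mem_ball_zero_iff.2 (hz.trans hr₂)
  have hr0 : 0 < r := by
    have h1 : ‖(((r₁ + r₂) / 2 : ℝ) : ℂ)‖ = (r₁ + r₂) / 2 := by
      rw [Complex.norm_real, Real.norm_eq_abs, abs_of_pos (by linarith)]
    obtain ⟨v, hv⟩ := hrel (((r₁ + r₂) / 2 : ℝ) : ℂ) (by rw [h1]; linarith) (by rw [h1]; linarith)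
    obtain ⟨χ, c', ρ', A, q, q', -, -, -, -, -, -, -, -, hpath, -⟩ := hv
    exact lt_of_le_of_lt (dist_nonneg.trans (hpath 0 (by simp))) hε
  have hcapz : ∀ z₀ : ℂ, r₁ < ‖z₀‖ → ‖z₀‖ < r₂ → ∃ (χ : Pool.Agent.H14.PP.Chart (Ya X Λ u κ g s)) (c : ℂ) (ρ' : ℝ),
      (∀ᶠ z in 𝓝 z₀, Pool.Agent.GXE.Capz Γ₀ (wa Λ u κ g s) χ c ρ' z (pr (F z₀)) r) ∧
        ∀ p ∈ ball (0 : ℂ × ℂ) 2, ‖c + ρ' * p.1‖ < ρ := by
    intro z₀ h1 h2
    obtain ⟨χ, c', ρ', hc⟩ := hcap z₀ h1 h2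
    exact L.capz_bridge hc hr0 H.le (h2.trans hr₂ρ) (hFX z₀ (hbt z₀ h2)).1 (hFX z₀ (hbt z₀ h2)).2 (by rw [dist_self]; exact hr0.le)
  have hrelY : ∀ z₀ : ℂ, r₁ < ‖z₀‖ → ‖z₀‖ < r₂ → Pool.Agent.H62.EL.IRel (L.form α) ε z₀ (pr (F z₀)) (pr (F' z₀))
      (-dta κ g z₀ * II α ε (ar κ g z₀) (pr (F z₀)) (pr (F' z₀))) := by
    intro z₀ h1 h2
    refine L.irel_bridge (h2.trans hr₂s) ?_
    have h4 := hrel z₀ h1 h2
    have h5 : II α ε (ar κ g z₀) (pr (F z₀)) (pr (F' z₀)) = h4.choose := by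
      unfold II
      rw [dif_pos h4]
    rw [h5]
    exact h4.choose_spec
  obtain ⟨J', hJ'1, hJ'2⟩ := Pool.Agent.GXE.crossing_free (b := 0) L.isCone L.torusMap L.lat₀ hTube (α := L.form α) hr₁ hr₁₂ hr₂ ht hε hS hS'
    (fun z₀ h1 h2 => by
      rw [sub_zero] at h1 h2
      obtain ⟨χ, c, ρ', hc, hrg⟩ := hcapz z₀ h1 h2
      exact ⟨χ, c, ρ', hc, fun p hp => mem_ball_zero_iff.2 (hrg p hp)⟩)
    (fun z₀ h1 h2 => by
      rw [sub_zero] at h1 h2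
      exact ⟨_, hrelY z₀ h1 h2⟩)
  refine ⟨fun z => -(J' z / dta κ g z), ?_, fun z h1 h2 => ?_⟩
  · intro z hz
    have hzs : z ∈ ball (0 : ℂ) (2 * s) := L.mem2 ((mem_ball_zero_iff.1 hz).le.trans hr₂s.le)
    exact ((hJ'1 z hz).div (L.dta_an hzs).differentiableAt.differentiableWithinAt (L.dta_ne hzs)).neg
  · have hzs : z ∈ ball (0 : ℂ) (2 * s) := L.mem2 (h2.le.trans hr₂s.le)
    have h3 := hJ'2 z (by rwa [sub_zero]) (by rwa [sub_zero])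
    obtain ⟨χ, c, ρ', hc, -⟩ := hcapz z h1 h2
    have hc0 := hc.self_of_nhds
    obtain ⟨A, hA⟩ := Pool.Agent.H62.EL.exists_prim (L.form α) χ hc0.mon
    have hv := hrelY z h1 h2
    have hFz := hS.2.1 z (hbt z h2)
    have hFz' := hS'.2.1 z (hbt z h2)
    have hd0 : dist (pr (F z)) (pr (F z)) + ε ≤ r := by
      rw [dist_self]
      linarith
    have e1 := Pool.Agent.GXE.eq_capz L.isCone L.torusMap L.lat₀ hv hc0 hA hd0 hFz hFz' rfl rfl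
    have e2 := Pool.Agent.GXE.II_eqz L.isCone L.torusMap L.lat₀ ⟨_, hv⟩ hc0 hA hd0 hFz hFz' rfl rfl
    have hdt := L.dta_ne hzs
    show -(J' z / dta κ g z) = _
    rw [h3, e2, ← e1]
    field_simp

end Pool.Agent.GX

end

section

/-!
# G3 X Main: uniform crossing for arcs near a line

Constants.  `κ, ξ₀` from `exists_line_coord`, `a = deriv ξ₀ 0`, `ψ, R, r₀` from `exists_kp` (`κ 0 = p`).  `S₁` from `exists_inv` for a small `S' ≤ S`: for `‖z‖ < S'`: `κ (cons (ξ₀ z) 0) = p + z • e`, `z • e ∈ ball 0 (r₀ / 4)`, `‖ξ₀ z‖ < R`; `S'` so small that `‖a‖ S₁ / 4 ≤ R`.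
`s = ‖a‖ S₁ / 8` (the graphs are defined on `ball 0 (2 s)`).  `Φ, ρ` from `exists_fam`.  `C` a Lipschitz constant of `ψ` on `ball p (r₀ / 2)` (after shrinking `r₀`).  `s₀ = min (ρ / (4 ‖a‖)) (S₁ / 8)`, `ρ₀` with `ρ₀ ≤ r₀ / 4`, `C ρ₀ < ρ`, `C ρ₀ ≤ ‖a‖ S₁ / 100`, `C ρ₀ ≤ ‖a‖ s₀ / 50`.
For `γ`: `c z = ψ (γ z)` on `ball 0 S₁`, `‖c z - cons (ξ₀ z) 0‖ ≤ C ρ₀` (`ψ (p + z • e) = cons (ξ₀ z) 0`), `ξ z = c z 0`, `θ` from `exists_inv`, `g w j = c (θ w) j.succ`: `‖g w‖ ≤ C ρ₀ < ρ`, `ar κ g w = γ (θ w)`.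
`z₁ = θ 0`.  `F∘θ`, `H∘θ` on `ball 0 t`, `t = 13/10 ‖a‖ s₀ ≤ ρ`, `r₁ = 35/100 ‖a‖ s₀`, `r₂ = 8/10 ‖a‖ s₀`: `‖θ w‖ ≤ (‖w‖ + ‖ξ 0‖) / (9/10 ‖a‖)`, `‖θ w‖ ≥ (‖w‖ - ‖ξ 0‖) / (11/10 ‖a‖)`, `‖ξ 0‖ ≤ ‖a‖ s₀ / 50`.  `J'` from `cross_graph`.
`J z = J' (ξ z)` for `‖z‖ < 6/10 s₀` and `II ..` otherwise; on `45/100 s₀ < ‖z‖ < 6/10 s₀` both agree.  `II_arc`: the integral is analytic on the annulus `s₀ / 4 < ‖z‖ < s₀` (connected), so `J` agrees with it there (identity theorem).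
-/

set_option autoImplicit false

open Topology Filter Metric

namespace Pool.Agent.GX

open Pool.Agent.H36.BP (EN fs wd)
open Pool.Agent.H14.PP (IsCone CurveAt Tan)
open Pool.Agent.H62.EF (MN pr)
open Pool.Agent.AD (Vd Chart Charts IsGerm)
open Pool.Agent.TG (TMap Lat tl nm IsStr IsNC IsCoord Geo VForm ms Str IsPrim Cap IRel II TransAt Gd Cst DV fr tc)

variable {N k : ℕ}

variable {X : Set (EN N)} {Λ : AddSubgroup (Vd (k + 1))} {u : EN N → Vd (k + 1)} {D B : Set (Vd (k + 1))}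
  {κ ψ : Vd (k + 1) → Vd (k + 1)} {R : ℝ} {g : ℂ → Fin k → ℂ} {Γ₀ : AddSubgroup ℂ} {s : ℝ}

theorem cr (G : Geo X Λ u D B) {p e : Vd (k + 1)} (hp : p ∈ D) (hpB : p ∉ B) (ht : TransAt D p e) {S : ℝ} (hS : 0 < S) :
    ∃ s₀ ρ₀ : ℝ, 0 < s₀ ∧ 2 * s₀ ≤ S ∧ 0 < ρ₀ ∧ ∀ γ : ℂ → Vd (k + 1), DifferentiableOn ℂ γ (ball 0 S) →
      (∀ z ∈ ball (0 : ℂ) S, ‖γ z - (p + z • e)‖ ≤ ρ₀) →
      (∃ z₁ : ℂ, ‖z₁‖ < s₀ / 4 ∧ γ z₁ ∈ D ∧ ∀ z ∈ ball (0 : ℂ) (2 * s₀), γ z ∈ D → z = z₁) ∧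
      ∀ (α : VForm X Λ u) (ε r : ℝ), ε < r → ∀ F H : ℂ → EN N, DifferentiableOn ℂ F (ball 0 (2 * s₀)) → DifferentiableOn ℂ H (ball 0 (2 * s₀)) →
        (∀ z ∈ ball (0 : ℂ) (2 * s₀), F z ∈ X ∧ u (F z) - γ z ∈ Λ) → (∀ z ∈ ball (0 : ℂ) (2 * s₀), H z ∈ X ∧ u (H z) - γ z ∈ Λ) →
        (∀ z : ℂ, s₀ / 4 < ‖z‖ → ‖z‖ < s₀ → ∃ (χ : Chart (k + 2) X) (c : Vd (k + 1)) (ρ : ℝ), Cap Λ u χ c ρ (γ z) (pr (F z)) r) →
        (∀ z : ℂ, s₀ / 4 < ‖z‖ → ‖z‖ < s₀ → ∃ v, IRel α ε (γ z) (pr (F z)) (pr (H z)) v) →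
        ∃ J : ℂ → ℂ, DifferentiableOn ℂ J (ball 0 s₀) ∧
          ∀ z : ℂ, s₀ / 4 < ‖z‖ → ‖z‖ < s₀ → J z = II α ε (γ z) (pr (F z)) (pr (H z)) := by
  obtain ⟨κ, ξ₀, hκ, hnc, hξan, hξ0, hξd, hline⟩ := exists_line_coord G hp hpB ht
  obtain ⟨ψ, R, r₀, K, hr₀, hψ⟩ := exists_kp G hκ
  set a : ℂ := deriv ξ₀ 0 with hadef
  have ha : 0 < ‖a‖ := norm_pos_iff.2 hξd
  have hR : 0 < R := K.pos
  obtain ⟨r₁, C, hr₁, hr₁₀, hC, hlip⟩ := main_lip (ψ := ψ) hr₀ (hψ p (mem_ball_self hr₀)).1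
  -- the size `S'`
  have hev : ∀ᶠ z in 𝓝 (0 : ℂ), κ (Fin.cons (α := fun _ => ℂ) (ξ₀ z) 0) = p + z • e ∧ ‖z • e‖ < r₁ / 2 ∧ ‖ξ₀ z‖ < R := by
    refine hline.and (Filter.Eventually.and ?_ ?_)
    · have h1 : Continuous fun z : ℂ => ‖z • e‖ := by fun_prop
      have h2 : (fun z : ℂ => ‖z • e‖) 0 < r₁ / 2 := by
        simp only [zero_smul, norm_zero]
        positivity
      exact h1.continuousAt.eventually (isOpen_Iio.mem_nhds h2)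
    · have h1 : ContinuousAt (fun z => ‖ξ₀ z‖) 0 := hξan.continuousAt.norm
      have h2 : (fun z => ‖ξ₀ z‖) 0 < R := by
        simp only [hξ0, norm_zero]
        exact hR
      exact h1.eventually (isOpen_Iio.mem_nhds h2)
  obtain ⟨S', hS', hS'p⟩ := Metric.eventually_nhds_iff_ball.1 hev
  obtain ⟨S₁, hS₁, hS₁le, hξdiff, hinv⟩ := exists_inv hξd hξan hξ0 rfl (S := min S (min S' (4 * R / ‖a‖))) (lt_min hS (lt_min hS' (by positivity)))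
  have hS₁S : S₁ ≤ S := hS₁le.trans (min_le_left _ _)
  have hS₁S' : S₁ ≤ S' := hS₁le.trans ((min_le_right _ _).trans (min_le_left _ _))
  have hS₁R : ‖a‖ * S₁ / 4 ≤ R := by
    have h1 : S₁ ≤ 4 * R / ‖a‖ := hS₁le.trans ((min_le_right _ _).trans (min_le_right _ _))
    rw [le_div_iff₀ ha] at h1
    linarith only [h1]
  set s : ℝ := ‖a‖ * S₁ / 8 with hs
  have hspos : 0 < s := by positivity
  have h2s : 2 * s = ‖a‖ * S₁ / 4 := by rw [hs]; ring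
  have h2sR : 2 * s ≤ R := by rw [h2s]; exact hS₁R
  obtain ⟨Φ, ρ, hΦ⟩ := exists_fam K (fun x hx hxu => hnc x hx (by rwa [hκ.zero] at hxu)) hspos
  have hρ := hΦ.pos
  set s₀ : ℝ := min (ρ / (4 * ‖a‖)) (S₁ / 8) with hs₀
  have hs₀pos : 0 < s₀ := lt_min (by positivity) (by positivity)
  have hs₀S : s₀ ≤ S₁ / 8 := min_le_right _ _
  have hs₀ρ : 4 * ‖a‖ * s₀ ≤ ρ := by
    have h1 : s₀ ≤ ρ / (4 * ‖a‖) := min_le_left _ _
    rw [le_div_iff₀ (by positivity)] at h1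
    linarith only [h1]
  set ρ₀ : ℝ := min (r₁ / 2) (min (ρ / (2 * C)) (min (‖a‖ * S₁ / (100 * C)) (‖a‖ * s₀ / (50 * C)))) with hρ₀
  have hρ₀pos : 0 < ρ₀ := lt_min (by positivity) (lt_min (by positivity) (lt_min (by positivity) (by positivity)))
  have hρ₀1 : ρ₀ ≤ r₁ / 2 := min_le_left _ _
  have hρ₀2 : C * ρ₀ < ρ := by
    have h1 : ρ₀ ≤ ρ / (2 * C) := (min_le_right _ _).trans (min_le_left _ _)
    rw [le_div_iff₀ (by positivity)] at h1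
    linarith only [hρ, h1]
  have hρ₀3 : C * ρ₀ ≤ ‖a‖ * S₁ / 100 := by
    have h1 : ρ₀ ≤ ‖a‖ * S₁ / (100 * C) := (min_le_right _ _).trans ((min_le_right _ _).trans (min_le_left _ _))
    rw [le_div_iff₀ (by positivity)] at h1
    linarith only [h1]
  have hρ₀4 : C * ρ₀ ≤ ‖a‖ * s₀ / 50 := by
    have h1 : ρ₀ ≤ ‖a‖ * s₀ / (50 * C) := (min_le_right _ _).trans ((min_le_right _ _).trans (min_le_right _ _))
    rw [le_div_iff₀ (by positivity)] at h1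
    linarith only [h1]
  clear_value ρ₀ s₀ s a
  refine ⟨s₀, ρ₀, hs₀pos, by linarith only [hS₁S, hs₀pos, hs₀S], hρ₀pos, fun γ hγ hγρ => ?_⟩
  have hsub₁ : ball (0 : ℂ) S₁ ⊆ ball 0 S := ball_subset_ball hS₁S
  have hγball : ∀ z ∈ ball (0 : ℂ) S₁, γ z ∈ ball p r₁ := fun z hz => by
    have h1 := hγρ z (hsub₁ hz)
    have h2 := (hS'p z (ball_subset_ball hS₁S' hz)).2.1
    rw [mem_ball, dist_eq_norm]
    have h3 : γ z - p = (γ z - (p + z • e)) + z • e := by abel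
    rw [h3]
    have h4 := norm_add_le (γ z - (p + z • e)) (z • e)
    linarith only [hρ₀1, h1, h2, h4]
  have hlineball : ∀ z ∈ ball (0 : ℂ) S₁, p + z • e ∈ ball p r₁ := fun z hz => by
    have h2 := (hS'p z (ball_subset_ball hS₁S' hz)).2.1
    rw [mem_ball, dist_eq_norm, add_sub_cancel_left]
    linarith only [hρ₀pos, hρ₀1, h2]
  set c : ℂ → Vd (k + 1) := fun z => ψ (γ z) with hc
  have hcd : DifferentiableOn ℂ c (ball 0 S₁) := fun z hz =>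
    ((hψ _ (ball_subset_ball hr₁₀ (hγball z hz))).1.differentiableAt.comp z (hγ.differentiableAt (isOpen_ball.mem_nhds (hsub₁ hz)))).differentiableWithinAt
  have hκc : ∀ z ∈ ball (0 : ℂ) S₁, κ (c z) = γ z := fun z hz => (hψ _ (ball_subset_ball hr₁₀ (hγball z hz))).2.2
  have hcR : ∀ z ∈ ball (0 : ℂ) S₁, c z ∈ ball (0 : Vd (k + 1)) R := fun z hz => (hψ _ (ball_subset_ball hr₁₀ (hγball z hz))).2.1
  have hcl : ∀ z ∈ ball (0 : ℂ) S₁, ‖c z - Fin.cons (α := fun _ => ℂ) (ξ₀ z) 0‖ ≤ C * ρ₀ := fun z hz => by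
    have h1 := hS'p z (ball_subset_ball hS₁S' hz)
    have h2 : (Fin.cons (α := fun _ => ℂ) (ξ₀ z) 0 : Vd (k + 1)) ∈ ball (0 : Vd (k + 1)) R := by
      rw [mem_ball_zero_iff, pi_norm_lt_iff hR]
      intro j
      refine Fin.cases ?_ (fun j => ?_) j
      · simpa using h1.2.2
      · simpa using hR
    have h3 : (Fin.cons (α := fun _ => ℂ) (ξ₀ z) 0 : Vd (k + 1)) = ψ (p + z • e) := by
      rw [← h1.1, K.ψ_κ _ h2]
    rw [h3]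
    refine (hlip _ (hγball z hz) _ (hlineball z hz)).trans ?_
    exact mul_le_mul_of_nonneg_left (hγρ z (hsub₁ hz)) hC.le
  set ξ : ℂ → ℂ := fun z => c z 0 with hξ
  have hξD : DifferentiableOn ℂ ξ (ball 0 S₁) := fun z hz => differentiableWithinAt_pi.1 (hcd z hz) 0
  have hξξ₀ : ∀ z ∈ ball (0 : ℂ) S₁, ‖ξ z - ξ₀ z‖ ≤ C * ρ₀ := fun z hz => by
    have h1 := (norm_le_pi_norm (c z - Fin.cons (α := fun _ => ℂ) (ξ₀ z) 0) 0).trans (hcl z hz)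
    simpa using h1
  have hcsucc : ∀ z ∈ ball (0 : ℂ) S₁, ∀ j : Fin k, ‖c z j.succ‖ ≤ C * ρ₀ := fun z hz j => by
    have h1 := (norm_le_pi_norm (c z - Fin.cons (α := fun _ => ℂ) (ξ₀ z) 0) j.succ).trans (hcl z hz)
    simpa using h1
  obtain ⟨hexp, θ, hθd, hθ, hθξ⟩ := hinv (C * ρ₀) ξ hρ₀3 hξD hξξ₀
  rw [← h2s] at hθd hθ hθξ
  have hhalf : ball (0 : ℂ) (S₁ / 2) ⊆ ball 0 S₁ := ball_subset_ball (by linarith only [hs₀pos, hs₀S])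
  have hξ00 : ‖ξ 0‖ ≤ ‖a‖ * s₀ / 50 := by
    have h1 := hξξ₀ 0 (mem_ball_self hS₁)
    rw [hξ0, sub_zero] at h1
    exact h1.trans hρ₀4
  have h0half : (0 : ℂ) ∈ ball (0 : ℂ) (S₁ / 2) := mem_ball_self (by linarith only [hs₀pos, hs₀S])
  -- the size of `ξ z`
  have hup : ∀ z ∈ ball (0 : ℂ) (S₁ / 2), ‖ξ z‖ ≤ 11 / 10 * ‖a‖ * ‖z‖ + ‖a‖ * s₀ / 50 := fun z hz => by
    have h1 := (hexp z hz 0 h0half).2
    rw [sub_zero] at h1
    have h2 : ξ z = (ξ z - ξ 0) + ξ 0 := by ring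
    have h3 : ‖ξ z‖ ≤ ‖ξ z - ξ 0‖ + ‖ξ 0‖ := by
      conv_lhs => rw [h2]
      exact norm_add_le _ _
    linarith only [hξ00, h1, h3]
  have hdn : ∀ z ∈ ball (0 : ℂ) (S₁ / 2), 9 / 10 * ‖a‖ * ‖z‖ ≤ ‖ξ z‖ + ‖a‖ * s₀ / 50 := fun z hz => by
    have h1 := (hexp z hz 0 h0half).1
    rw [sub_zero] at h1
    have h3 := norm_sub_le (ξ z) (ξ 0)
    linarith only [hξ00, h1, h3]
  have hmulle : ∀ {x y : ℝ}, ‖a‖ * x ≤ ‖a‖ * y → x ≤ y := fun h => le_of_mul_le_mul_left h ha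
  have hmullt : ∀ {x y : ℝ}, ‖a‖ * x < ‖a‖ * y → x < y := fun h => lt_of_mul_lt_mul_left h ha.le
  have hmemD : ∀ z ∈ ball (0 : ℂ) S₁, (γ z ∈ D ↔ ξ z = 0) := fun z hz => by
    have h1 := K.mem_iff _ (hcR z hz)
    rwa [hκc z hz] at h1
  refine ⟨?_, ?_⟩
  · -- the hit
    obtain ⟨hθ0, hξθ0⟩ := hθ 0 (mem_ball_self (by linarith only [hspos]))
    refine ⟨θ 0, ?_, (hmemD _ (hhalf hθ0)).2 hξθ0, fun z hz hzD => ?_⟩
    · have h1 := hdn _ hθ0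
      rw [hξθ0, norm_zero, zero_add] at h1
      refine hmullt ?_
      nlinarith only [h1, ha, hs₀pos, mul_pos ha hs₀pos]
    · have hz2 : z ∈ ball (0 : ℂ) (S₁ / 2) := ball_subset_ball (by linarith only [hs₀pos, hs₀S]) hz
      have h1 : ξ z = 0 := (hmemD z (hhalf hz2)).1 hzD
      have h2 := hθξ z hz2 (by rw [h1]; exact mem_ball_self (by linarith only [hspos]))
      rw [← h2, h1]
  · intro α ε r hεr F H hF hH hFX hHX hcap hrel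
    set g : ℂ → Fin k → ℂ := fun w j => c (θ w) j.succ with hg
    have hθc : ∀ w ∈ ball (0 : ℂ) (2 * s), θ w ∈ ball (0 : ℂ) S₁ := fun w hw => hhalf (hθ w hw).1
    have hgd : DifferentiableOn ℂ g (ball 0 (2 * s)) := by
      intro w hw
      have h1 : DifferentiableAt ℂ c (θ w) := hcd.differentiableAt (isOpen_ball.mem_nhds (hθc w hw))
      have h2 : DifferentiableAt ℂ (fun w => c (θ w)) w := h1.comp w (hθd.differentiableAt (isOpen_ball.mem_nhds hw))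
      refine (differentiableAt_pi.2 fun j => ?_).differentiableWithinAt
      exact differentiableAt_pi.1 h2 j.succ
    have hgρ : ∀ w ∈ ball (0 : ℂ) (2 * s), ‖g w‖ < ρ := fun w hw => by
      rw [pi_norm_lt_iff hρ]
      intro j
      exact (hcsucc _ (hθc w hw) j).trans_lt hρ₀2
    have har : ∀ w ∈ ball (0 : ℂ) (2 * s), ar κ g w = γ (θ w) := fun w hw => by
      have h1 : cg g w = c (θ w) := by
        funext j
        refine Fin.cases ?_ (fun j => ?_) j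
        · simp only [cg, Fin.cons_zero]
          exact (hθ w hw).2.symm
        · simp only [cg, Fin.cons_succ, hg]
      rw [ar, h1, hκc _ (hθc w hw)]
    have ht : 13 / 10 * ‖a‖ * s₀ ≤ ρ := by nlinarith only [hρ, hs₀ρ, mul_pos ha hs₀pos]
    have ht2s : 13 / 10 * ‖a‖ * s₀ ≤ 2 * s := by
      rw [h2s]
      nlinarith only [hs, hspos, hs₀S, ha, mul_le_mul_of_nonneg_left hs₀S ha.le]
    have hθt : ∀ w ∈ ball (0 : ℂ) (13 / 10 * ‖a‖ * s₀), θ w ∈ ball (0 : ℂ) (2 * s₀) := fun w hw => by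
      have hw' := ball_subset_ball ht2s hw
      have h1 := hdn _ (hθ w hw').1
      rw [(hθ w hw').2] at h1
      rw [mem_ball_zero_iff] at hw ⊢
      refine hmullt ?_
      nlinarith only [hw, h1, ha, hs₀pos, mul_pos ha hs₀pos]
    have hθann : ∀ w : ℂ, 35 / 100 * ‖a‖ * s₀ < ‖w‖ → ‖w‖ < 8 / 10 * ‖a‖ * s₀ → w ∈ ball (0 : ℂ) (2 * s) ∧ s₀ / 4 < ‖θ w‖ ∧ ‖θ w‖ < s₀ := fun w hw1 hw2 => by
      have hw' : w ∈ ball (0 : ℂ) (2 * s) := mem_ball_zero_iff.2 (by nlinarith only [hspos, ht2s, hw2, mul_pos ha hs₀pos])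
      have h1 := hdn _ (hθ w hw').1
      have h2 := hup _ (hθ w hw').1
      rw [(hθ w hw').2] at h1 h2
      refine ⟨hw', hmullt ?_, hmullt ?_⟩
      · nlinarith only [hw1, hw2, h2, mul_pos ha hs₀pos]
      · nlinarith only [hw1, hw2, h1, mul_pos ha hs₀pos]
    have hcompd : ∀ {f : ℂ → EN N}, DifferentiableOn ℂ f (ball 0 (2 * s₀)) → DifferentiableOn ℂ (fun w => f (θ w)) (ball 0 (13 / 10 * ‖a‖ * s₀)) := by
      intro f hf w hw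
      have h1 : DifferentiableAt ℂ f (θ w) := hf.differentiableAt (isOpen_ball.mem_nhds (hθt w hw))
      exact (h1.comp w (hθd.differentiableAt (isOpen_ball.mem_nhds (ball_subset_ball ht2s hw)))).differentiableWithinAt
    have has : 0 < ‖a‖ * s₀ := mul_pos ha hs₀pos
    have hq1 : 0 < 35 / 100 * ‖a‖ * s₀ := by positivity
    have hq2 : 35 / 100 * ‖a‖ * s₀ < 8 / 10 * ‖a‖ * s₀ := by linarith only [has]
    have hq3 : 8 / 10 * ‖a‖ * s₀ < 13 / 10 * ‖a‖ * s₀ := by linarith only [has]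
    obtain ⟨J', hJ'd, hJ'⟩ := cross_graph K hΦ h2sR hgd hgρ (r₁ := 35 / 100 * ‖a‖ * s₀) (r₂ := 8 / 10 * ‖a‖ * s₀) (t := 13 / 10 * ‖a‖ * s₀)
      hq1 hq2 hq3 ht hεr α (hcompd hF) (hcompd hH)
      (fun w hw => by
        rw [har w (ball_subset_ball ht2s hw)]
        exact hFX _ (hθt w hw))
      (fun w hw => by
        rw [har w (ball_subset_ball ht2s hw)]
        exact hHX _ (hθt w hw))
      (fun w hw1 hw2 => by
        obtain ⟨h1, h2, h3⟩ := hθann w hw1 hw2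
        rw [har w h1]
        exact hcap _ h2 h3)
      (fun w hw1 hw2 => by
        obtain ⟨h1, h2, h3⟩ := hθann w hw1 hw2
        rw [har w h1]
        exact hrel _ h2 h3)
    refine main_glue (J₁ := fun z => J' (ξ z)) (a := s₀ / 4) (b := 45 / 100 * s₀) (c := 6 / 10 * s₀) (d := s₀) (by positivity) (by linarith only [hs₀pos]) (by linarith only [hs₀pos])
      (by linarith only [hs₀pos]) (fun z hz => ?_) (fun z hz1 hz2 => ?_) fun z hz1 hz2 => ?_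
    · rw [mem_ball_zero_iff] at hz
      have hz2 : z ∈ ball (0 : ℂ) (S₁ / 2) := mem_ball_zero_iff.2 (by linarith only [hs₀pos, hs₀S, hz])
      have h1 := hup z hz2
      have h2 : ξ z ∈ ball (0 : ℂ) (8 / 10 * ‖a‖ * s₀) := by
        rw [mem_ball_zero_iff]
        have h3 : ‖a‖ * ‖z‖ < ‖a‖ * (6 / 10 * s₀) := mul_lt_mul_of_pos_left hz ha
        nlinarith only [has, h1, h3, mul_pos ha hs₀pos]
      exact ((hJ'd.differentiableAt (isOpen_ball.mem_nhds h2)).comp z (hξD.differentiableAt (isOpen_ball.mem_nhds (hhalf hz2)))).differentiableWithinAt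
    · have hz3 : z ∈ ball (0 : ℂ) (2 * s₀) := mem_ball_zero_iff.2 (by linarith only [hz1, hz2])
      have hzS : z ∈ ball (0 : ℂ) S := mem_ball_zero_iff.2 (by linarith only [hS₁S, hs₀S, hz1, hz2])
      obtain ⟨χ, c', ρ', hcap'⟩ := hcap z hz1 hz2
      have hann : ∀ᶠ w in 𝓝 z, s₀ / 4 < ‖w‖ ∧ ‖w‖ < s₀ :=
        (((isOpen_lt continuous_const continuous_norm).inter (isOpen_lt continuous_norm continuous_const)).mem_nhds ⟨hz1, hz2⟩ :)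
      have hb : ∀ᶠ w in 𝓝 z, w ∈ ball (0 : ℂ) (2 * s₀) := isOpen_ball.mem_nhds hz3
      refine II_arc G.cone G.tor G.lat (hγ.differentiableAt (isOpen_ball.mem_nhds hzS)).continuousAt (hF.analyticAt (isOpen_ball.mem_nhds hz3))
        (hH.analyticAt (isOpen_ball.mem_nhds hz3)) ?_ ?_ hcap' hεr ?_
      · filter_upwards [hb] with w hw
        exact hFX w hw
      · filter_upwards [hb] with w hw
        exact hHX w hw
      · filter_upwards [hann] with w hw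
        exact hrel w hw.1 hw.2
    · have hz2' : z ∈ ball (0 : ℂ) (S₁ / 2) := mem_ball_zero_iff.2 (by linarith only [hs₀S, hz1, hz2])
      have h1 := hup z hz2'
      have h2 := hdn z hz2'
      have h3 : ‖a‖ * ‖z‖ < ‖a‖ * (6 / 10 * s₀) := mul_lt_mul_of_pos_left hz2 ha
      have h4 : ‖a‖ * (45 / 100 * s₀) < ‖a‖ * ‖z‖ := mul_lt_mul_of_pos_left hz1 ha
      have h5 : 35 / 100 * ‖a‖ * s₀ < ‖ξ z‖ := by nlinarith only [h2, h3, h4, mul_pos ha hs₀pos]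
      have h6 : ‖ξ z‖ < 8 / 10 * ‖a‖ * s₀ := by nlinarith only [h1, h3, h4, mul_pos ha hs₀pos]
      obtain ⟨h7, -, -⟩ := hθann _ h5 h6
      have h8 := hθξ z hz2' h7
      have h9 := hJ' _ h5 h6
      rw [har _ h7, h8] at h9
      exact h9

theorem cr_cst (G : Geo X Λ u D B) {p e : Vd (k + 1)} (hp : p ∈ D) (hpB : p ∉ B) (ht : TransAt D p e) {S : ℝ} (hS : 0 < S) :
    ∃ s₀ ρ₀ : ℝ, 0 < s₀ ∧ 2 * s₀ ≤ S ∧ 0 < ρ₀ ∧ ∀ γ : ℂ → Vd (k + 1), DifferentiableOn ℂ γ (ball 0 S) →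
      (∀ z ∈ ball (0 : ℂ) S, ‖γ z - (p + z • e)‖ ≤ ρ₀) →
      (∃ z₁ : ℂ, ‖z₁‖ < s₀ / 4 ∧ γ z₁ ∈ D ∧ ∀ z ∈ ball (0 : ℂ) (2 * s₀), γ z ∈ D → z = z₁) ∧
      ∀ δ ε ε₀ : ℝ, Cst X Λ u D δ ε ε₀ → (∀ z : ℂ, s₀ / 4 < ‖z‖ → ‖z‖ < s₀ → γ z ∈ Gd D δ) → ∀ (α : VForm X Λ u) (F H : ℂ → EN N),
        DifferentiableOn ℂ F (ball 0 (2 * s₀)) → DifferentiableOn ℂ H (ball 0 (2 * s₀)) →
        (∀ z ∈ ball (0 : ℂ) (2 * s₀), F z ∈ X ∧ u (F z) - γ z ∈ Λ) → (∀ z ∈ ball (0 : ℂ) (2 * s₀), H z ∈ X ∧ u (H z) - γ z ∈ Λ) →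
        (∀ z : ℂ, s₀ / 4 < ‖z‖ → ‖z‖ < s₀ → dist (pr (F z)) (pr (H z)) ≤ ε₀) →
        ∃ J : ℂ → ℂ, DifferentiableOn ℂ J (ball 0 s₀) ∧
          ∀ z : ℂ, s₀ / 4 < ‖z‖ → ‖z‖ < s₀ → J z = II α ε (γ z) (pr (F z)) (pr (H z)) := by
  obtain ⟨s₀, ρ₀, h1, h2, h3, h4⟩ := cr G hp hpB ht hS
  refine ⟨s₀, ρ₀, h1, h2, h3, fun γ hγ hγρ => ⟨(h4 γ hγ hγρ).1, fun δ ε ε₀ hC hGd α F H hF hH hFX hHX hd => ?_⟩⟩
  refine (h4 γ hγ hγρ).2 α ε (3 * ε) (by linarith only [hC, hC.ε_pos]) F H hF hH hFX hHX (fun z hz1 hz2 => ?_) fun z hz1 hz2 => ?_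
  · have hz : z ∈ ball (0 : ℂ) (2 * s₀) := mem_ball_zero_iff.2 (by linarith only [hz1, hz2])
    exact hC.cap _ (hGd z hz1 hz2) _ ⟨F z, (hFX z hz).1, rfl, (hFX z hz).2⟩
  · have hz : z ∈ ball (0 : ℂ) (2 * s₀) := mem_ball_zero_iff.2 (by linarith)
    exact hC.rel _ (hGd z hz1 hz2) _ ⟨F z, (hFX z hz).1, rfl, (hFX z hz).2⟩ _ ⟨H z, (hHX z hz).1, rfl, (hHX z hz).2⟩ (hd z hz1 hz2) α

end Pool.Agent.GX

end

section

/-!
# G3 X Crs: the crossing statement `Crs` of the block Z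
-/

set_option autoImplicit false

open Topology Filter Metric

namespace Pool.Agent.GX

open Pool.Agent.H36.BP (EN)
open Pool.Agent.H62.EF (pr)
open Pool.Agent.AD (Vd)
open Pool.Agent.TG (Geo VForm II TransAt Gd Cst)

variable {N k : ℕ}

theorem crs {X : Set (EN N)} {Λ : AddSubgroup (Vd (k + 1))} {u : EN N → Vd (k + 1)} {D B : Set (Vd (k + 1))} (G : Geo X Λ u D B) :
    Pool.Agent.G3.Crs X Λ u D B := by
  intro q e hq hqB ht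
  refine ⟨1, one_pos, fun η hη => ?_⟩
  have hS : 0 < min 1 η / 2 := half_pos (lt_min one_pos hη)
  have hS1 : min 1 η / 2 ≤ 1 / 2 := by linarith [min_le_left 1 η]
  have hSη : min 1 η / 2 ≤ η / 2 := by linarith [min_le_right 1 η]
  obtain ⟨s₀, ρ₀, hs₀, h2s₀, hρ₀, h⟩ := cr_cst G hq hqB ht hS
  have hsub : ball (0 : ℂ) (min 1 η / 2) ⊆ ball 0 1 := ball_subset_ball (by linarith)
  refine ⟨s₀, ρ₀, hs₀, by linarith, by linarith, hρ₀, fun γ hγ hγρ z hz hzD => ?_, fun δ ε ε₀ hC => ⟨ε₀, hC.ε₀_pos, le_rfl, ?_⟩⟩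
  · obtain ⟨⟨z₁, hz₁, -, huni⟩, -⟩ := h γ (hγ.mono hsub) fun z hz => hγρ z (hsub hz)
    rw [huni z hz hzD]
    exact hz₁
  · intro γ hγ hγρ hGd α F H hF hH hd
    obtain ⟨-, h2⟩ := h γ (hγ.mono hsub) fun z hz => hγρ z (hsub hz)
    exact h2 δ ε ε₀ hC (fun z h3 h4 => hGd z h3.le h4.le) α F H hF.F_diff hH.F_diff (fun z hz => ⟨hF.mem z hz, hF.lift z hz⟩)
      (fun z hz => ⟨hH.mem z hz, hH.lift z hz⟩) fun z h3 h4 => hd z h3.le h4.le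

end Pool.Agent.GX

end
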