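import Pool.Agent.H94.G4T.M105
import Pool.Agent.H94.G4T.M118
import Pool.Agent.H94.G4T.M36
import Pool.Agent.H94.G4T.M56
import Pool.Agent.H94.G4T.M67
import Pool.Agent.H94.G4T.M69
import Pool.Agent.H94.G4T.M75
import Pool.Agent.H94.G4T.M85

/-! The parts of this file: H36.BP.ExtB, H36.BP.ExtD, H36.BP.Main, G3.F.Br. -/

section

/-!
# BP ExtB: comparison on annuli

`g, b` from `annulus_approx` for `φ = c₀ log|F|`, `ε = 1`.  `w = Re g + b log|z|`.
(a) for `δ > 0` the function `|F|^(c₀) exp(-w) exp(δ|z|²)` has `Sub` exponent `≥ δ > 0` (`norm_rpow`; `exp(-Re g)|z|^(-b)` is locally the absolute value of a holomorphic function) and is continuous; on both circles it is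
`≤ e exp(δ)`; let `δ → 0`.
(b) `u = mt G F |F|^(-c₀) (log 1/|z|)^(-C') |z| exp(w)`, `C' = 4 C L² + 1`: exponent `≥ -C L²/(|z|² log²) + C'/(4|z|² log²) > 0` where `u > 0`.  On the circles `u ≤ e mt G F (log 1/|z|)^(-C') |z| ≤ e L (log 1/|z|)^(-C'-1)
≤ e L (log 1/r₁)^(-C'-1)`.  (`u` is upper semicontinuous on the closed annulus: `mt_usc` times a continuous nonnegative function.)
-/

set_option autoImplicit false

namespace Pool.Agent.H36.BP

open Filter Topology Metric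

variable {N : ℕ}

variable {K B : Set (EN N)} {G : EN N → EN N → ℝ} {ρ : EN N → ℝ} {M : ℕ} {c₀ C : ℝ}

/-- product of a nonnegative upper semicontinuous function and a nonnegative continuous function -/
private theorem extB_usc_mul {α : Type*} [TopologicalSpace α] {S : Set α} {u k : α → ℝ} (hu : UpperSemicontinuousOn u S)
    (hk : ContinuousOn k S) (hu0 : ∀ x ∈ S, 0 ≤ u x) (hk0 : ∀ x ∈ S, 0 ≤ k x) :
    UpperSemicontinuousOn (fun x => u x * k x) S := by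
  intro x hx y hy
  have ht : Tendsto (fun ε : ℝ => (u x + ε) * (k x + ε)) (𝓝[>] 0) (𝓝 ((u x + 0) * (k x + 0))) := by
    apply tendsto_nhdsWithin_of_tendsto_nhds
    have hc : Continuous (fun ε : ℝ => (u x + ε) * (k x + ε)) := by fun_prop
    exact hc.tendsto 0
  have hy' : (u x + 0) * (k x + 0) < y := by simpa using hy
  obtain ⟨ε, hε1, hε2⟩ := ((ht.eventually_lt_const hy').and self_mem_nhdsWithin).exists
  have hε : (0 : ℝ) < ε := hε2
  have h1 : ∀ᶠ x' in 𝓝[S] x, u x' < u x + ε := hu x hx _ (by linarith)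
  have h2 : ∀ᶠ x' in 𝓝[S] x, k x' < k x + ε := (hk x hx).eventually_lt_const (by linarith)
  filter_upwards [h1, h2, self_mem_nhdsWithin] with x' h1' h2' hx'
  refine lt_of_le_of_lt ?_ hε1
  exact mul_le_mul h1'.le h2'.le (hk0 x' hx') (by linarith [hu0 x hx])

/-- `exp (t (Re g + b log|z|))` is locally the absolute value of a holomorphic function -/
private theorem extB_sub_exp {g : ℂ → ℂ} (hg : DifferentiableOn ℂ g {0}ᶜ) (b t : ℝ) {z₀ : ℂ} (hz₀ : z₀ ≠ 0) :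
    Sub (fun z => Real.exp (t * ((g z).re + b * Real.log ‖z‖))) z₀ 0 := by
  have hga : AnalyticAt ℂ g z₀ := hg.analyticAt (isOpen_compl_singleton.mem_nhds hz₀)
  set k : ℂ → ℂ := fun z => Complex.exp ((t : ℂ) * (g z + (b : ℂ) * (Complex.log (z / z₀) + (Real.log ‖z₀‖ : ℂ)))) with hk
  have hlog : AnalyticAt ℂ (fun z : ℂ => Complex.log (z / z₀)) z₀ := by
    have h1 : AnalyticAt ℂ (fun z : ℂ => z / z₀) z₀ := by fun_prop
    refine AnalyticAt.clog h1 ?_
    simp [div_self hz₀]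
  have hka : AnalyticAt ℂ k z₀ := by
    refine AnalyticAt.cexp ?_
    exact analyticAt_const.mul (hga.add (analyticAt_const.mul (hlog.add analyticAt_const)))
  have hk0 : k z₀ ≠ 0 := Complex.exp_ne_zero _
  refine (Sub.of_holo hka hk0).congr ?_
  filter_upwards [isOpen_compl_singleton.mem_nhds hz₀] with z hz
  have hz' : z ≠ 0 := hz
  rw [hk]
  simp only
  rw [Complex.norm_exp]
  congr 1
  have h1 : (Complex.log (z / z₀)).re = Real.log ‖z‖ - Real.log ‖z₀‖ := by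
    rw [Complex.log_re, norm_div, Real.log_div (norm_ne_zero_iff.mpr hz') (norm_ne_zero_iff.mpr hz₀)]
  rw [Complex.re_ofReal_mul, Complex.add_re, Complex.re_ofReal_mul, Complex.add_re, h1, Complex.ofReal_re]
  ring

theorem annulus_bounds (hM : MetricData K B G ρ M c₀ C) {L : ℝ} (hL : 0 < L) {F : ℂ → EN N} (hF : Curve K (ball 0 1 \ {0}) F)
    (hgr : ∀ z : ℂ, z ≠ 0 → ‖z‖ < 1 → mt G F z * (‖z‖ * Real.log (1 / ‖z‖)) ≤ L) {r r₁ : ℝ} (hr : 0 < r) (hr1 : r < r₁) (hr2 : r₁ < 1) :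
    ∃ (g : ℂ → ℂ) (b : ℝ), DifferentiableOn ℂ g {0}ᶜ ∧
      ∀ z : ℂ, r ≤ ‖z‖ → ‖z‖ ≤ r₁ → ‖F z‖ ^ c₀ ≤ Real.exp 1 * Real.exp ((g z).re + b * Real.log ‖z‖) ∧
        mt G F z * Real.log (1 / ‖z‖) ^ (-(4 * C * L ^ 2 + 1)) * ‖z‖ * Real.exp ((g z).re + b * Real.log ‖z‖) ≤
          Real.exp 1 * L * Real.log (1 / r₁) ^ (-(4 * C * L ^ 2 + 2)) * ‖F z‖ ^ c₀ := by
  have hopen : IsOpen (ball (0 : ℂ) 1 \ {0}) := isOpen_ball.sdiff isClosed_singleton
  set S : Set ℂ := {z | r ≤ ‖z‖ ∧ ‖z‖ ≤ r₁} with hS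
  set U : Set ℂ := {z | r < ‖z‖ ∧ ‖z‖ < r₁} with hU
  have hr10 : 0 < r₁ := hr.trans hr1
  have hSc : IsCompact S := by
    refine (isCompact_closedBall (0 : ℂ) r₁).of_isClosed_subset ?_ ?_
    · exact (isClosed_le continuous_const continuous_norm).inter (isClosed_le continuous_norm continuous_const)
    · intro z hz
      simpa using hz.2
  have hUo : IsOpen U := (isOpen_lt continuous_const continuous_norm).inter (isOpen_lt continuous_norm continuous_const)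
  have hUS : U ⊆ S := fun z hz => ⟨hz.1.le, hz.2.le⟩
  have hSsub : S ⊆ ball (0 : ℂ) 1 \ {0} := by
    intro z hz
    refine ⟨?_, ?_⟩
    · rw [mem_ball_zero_iff]; exact lt_of_le_of_lt hz.2 hr2
    · rintro rfl
      have := hz.1
      rw [norm_zero] at this
      linarith
  have hSsph : S \ U ⊆ sphere (0 : ℂ) r ∪ sphere (0 : ℂ) r₁ := by
    intro z hz
    have h1 := hz.1
    have h2 : ¬ (r < ‖z‖ ∧ ‖z‖ < r₁) := hz.2
    rcases h1.1.lt_or_eq with h | h
    · right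
      rw [mem_sphere_zero_iff_norm]
      by_contra hne
      exact h2 ⟨h, lt_of_le_of_ne h1.2 hne⟩
    · left
      rw [mem_sphere_zero_iff_norm, h]
  have hsphS : sphere (0 : ℂ) r ∪ sphere (0 : ℂ) r₁ ⊆ S := by
    rintro z (hz | hz)
    · rw [mem_sphere_zero_iff_norm] at hz
      exact ⟨hz.ge, by rw [hz]; exact hr1.le⟩
    · rw [mem_sphere_zero_iff_norm] at hz
      exact ⟨by rw [hz]; exact hr1.le, hz.le⟩
  have hFK : ∀ z ∈ ball (0 : ℂ) 1 \ {0}, F z ∈ K := hF.2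
  have hF0 : ∀ z ∈ ball (0 : ℂ) 1 \ {0}, F z ≠ 0 := fun z hz => hM.ne _ (hFK z hz)
  have hFn : ∀ z ∈ ball (0 : ℂ) 1 \ {0}, 0 < ‖F z‖ := fun z hz => norm_pos_iff.mpr (hF0 z hz)
  have hFc : ContinuousOn F S := hF.1.continuousOn.mono hSsub
  have hFa : ∀ z ∈ ball (0 : ℂ) 1 \ {0}, AnalyticAt ℂ F z := fun z hz => hF.1.analyticAt (hopen.mem_nhds hz)
  obtain ⟨g, b, hg, hgb⟩ := annulus_approx hr hr1 (fun z => c₀ * Real.log ‖F z‖)
    (by
      refine ContinuousOn.mul continuousOn_const (ContinuousOn.log (hFc.mono hsphS).norm ?_)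
      intro z hz
      exact (hFn z (hSsub (hsphS hz))).ne') (ε := 1) one_pos
  set w : ℂ → ℝ := fun z => (g z).re + b * Real.log ‖z‖ with hw
  have hwc : ContinuousOn w S := by
    have h1 : ContinuousOn g S := hg.continuousOn.mono fun z hz => (hSsub hz).2
    refine (Complex.continuous_re.comp_continuousOn h1).add (continuousOn_const.mul
      (ContinuousOn.log continuous_norm.continuousOn ?_))
    intro z hz
    exact norm_ne_zero_iff.mpr (hSsub hz).2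
  have hlogF : ∀ z ∈ ball (0 : ℂ) 1 \ {0}, ‖F z‖ ^ c₀ = Real.exp (c₀ * Real.log ‖F z‖) := by
    intro z hz
    rw [Real.rpow_def_of_pos (hFn z hz), mul_comm]
  have hlogF' : ∀ z ∈ ball (0 : ℂ) 1 \ {0}, ‖F z‖ ^ (-c₀) = Real.exp (-(c₀ * Real.log ‖F z‖)) := by
    intro z hz
    rw [Real.rpow_def_of_pos (hFn z hz)]
    congr 1
    ring
  have hsph1 : ∀ z ∈ S \ U, ‖F z‖ ^ c₀ * Real.exp (-(w z)) ≤ Real.exp 1 := by
    intro z hz
    rw [hlogF z (hSsub hz.1), ← Real.exp_add, Real.exp_le_exp]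
    have := (abs_le.mp (hgb z (hSsph hz))).1
    have hwz : w z = (g z).re + b * Real.log ‖z‖ := rfl
    rw [hwz]
    linarith
  have hsph2 : ∀ z ∈ S \ U, ‖F z‖ ^ (-c₀) * Real.exp (w z) ≤ Real.exp 1 := by
    intro z hz
    rw [hlogF' z (hSsub hz.1), ← Real.exp_add, Real.exp_le_exp]
    have := (abs_le.mp (hgb z (hSsph hz))).2
    have hwz : w z = (g z).re + b * Real.log ‖z‖ := rfl
    rw [hwz]
    linarith
  -- part (a)
  have hA : ∀ δ : ℝ, 0 < δ → ∀ z ∈ S, ‖F z‖ ^ c₀ * Real.exp (-(w z)) * Real.exp (δ * ‖z‖ ^ 2) ≤ Real.exp 1 * Real.exp δ := by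
    intro δ hδ
    refine max_principle hSc hUo hUS ?_ ?_ (by positivity) ?_
    · refine ContinuousOn.upperSemicontinuousOn ?_
      refine ContinuousOn.mul (ContinuousOn.mul ?_ ?_) (by fun_prop)
      · refine ContinuousOn.rpow_const hFc.norm ?_
        intro z hz
        exact Or.inl (hFn z (hSsub hz)).ne'
      · exact Real.continuous_exp.comp_continuousOn hwc.neg
    · intro z hz _
      have hz' := hSsub (hUS hz)
      refine ⟨c₀ * fs (F z) (deriv F z) ^ 2 / 2 + 0 + δ, ?_, ?_⟩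
      · have := hM.c₀_pos
        positivity
      · have h1 := Sub.norm_rpow (hFa z hz') (hF0 z hz') c₀
        have h2 := extB_sub_exp hg b (-1) (z₀ := z) hz'.2
        have h3 := Sub.exp_sq (t := fun z : ℂ => z) (z₀ := z) analyticAt_id δ
        have h4 : (δ * ‖deriv (fun z : ℂ => z) z‖ ^ 2) = δ := by
          rw [deriv_id'']
          simp
        rw [h4] at h3
        refine ((h1.mul h2).mul h3).congr (Eventually.of_forall fun y => ?_)
        simp only [hw]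
        rw [neg_one_mul]
    · intro z hz
      refine mul_le_mul (hsph1 z hz) ?_ (by positivity) (by positivity)
      rw [Real.exp_le_exp]
      have h1 : ‖z‖ ≤ 1 := (hz.1.2.trans_lt hr2).le
      have h2 : ‖z‖ ^ 2 ≤ 1 := by nlinarith [norm_nonneg z]
      nlinarith
  have hA' : ∀ z ∈ S, ‖F z‖ ^ c₀ * Real.exp (-(w z)) ≤ Real.exp 1 := by
    intro z hz
    have ht : Tendsto (fun δ : ℝ => Real.exp 1 * Real.exp δ) (𝓝[>] 0) (𝓝 (Real.exp 1 * Real.exp 0)) := by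
      apply tendsto_nhdsWithin_of_tendsto_nhds
      have hc : Continuous (fun δ : ℝ => Real.exp 1 * Real.exp δ) := by fun_prop
      exact hc.tendsto 0
    rw [Real.exp_zero, mul_one] at ht
    refine ge_of_tendsto ht ?_
    filter_upwards [self_mem_nhdsWithin] with δ hδ
    have hδ' : (0 : ℝ) < δ := hδ
    refine le_trans ?_ (hA δ hδ' z hz)
    refine le_mul_of_one_le_right (by positivity) ?_
    exact Real.one_le_exp (by positivity)
  -- part (b)
  have hC := hM.C_nonneg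
  set C' : ℝ := 4 * C * L ^ 2 + 1 with hC'
  have hC'0 : 0 < C' := by rw [hC']; positivity
  have hlog1 : 0 < Real.log (1 / r₁) := Real.log_pos (by rw [lt_div_iff₀ hr10]; linarith)
  have hlogz : ∀ z ∈ S, Real.log (1 / r₁) ≤ Real.log (1 / ‖z‖) := by
    intro z hz
    have hz0 : 0 < ‖z‖ := hr.trans_le hz.1
    exact Real.log_le_log (by positivity) (one_div_le_one_div_of_le hz0 hz.2)
  have hB : ∀ z ∈ S, mt G F z * (‖F z‖ ^ (-c₀) * Real.log (1 / ‖z‖) ^ (-C') * ‖z‖ * Real.exp (w z)) ≤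
      Real.exp 1 * L * Real.log (1 / r₁) ^ (-(C' + 1)) := by
    refine max_principle hSc hUo hUS ?_ ?_ (by positivity) ?_
    · refine extB_usc_mul ((mt_usc hM hopen hF).mono hSsub) ?_ ?_ ?_
      · refine ContinuousOn.mul (ContinuousOn.mul (ContinuousOn.mul ?_ ?_) (by fun_prop)) ?_
        · refine ContinuousOn.rpow_const hFc.norm ?_
          intro z hz
          exact Or.inl (hFn z (hSsub hz)).ne'
        · refine ContinuousOn.rpow_const ?_ ?_
          · refine ContinuousOn.log ?_ ?_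
            · refine ContinuousOn.div continuousOn_const continuous_norm.continuousOn ?_
              intro z hz
              exact norm_ne_zero_iff.mpr (hSsub hz).2
            · intro z hz
              have hz0 : 0 < ‖z‖ := hr.trans_le hz.1
              positivity
          · intro z hz
            exact Or.inl (hlog1.trans_le (hlogz z hz)).ne'
        · exact Real.continuous_exp.comp_continuousOn hwc
      · intro z hz
        exact mt_nonneg hM (hFK z (hSsub hz))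
      · intro z hz
        have h1 := hlog1.trans_le (hlogz z hz)
        have h2 := hFn z (hSsub hz)
        positivity
    · intro z hz hpos
      have hzS := hUS hz
      have hz' := hSsub hzS
      have hz0 : 0 < ‖z‖ := hr.trans_le hzS.1
      have hz1 : ‖z‖ < 1 := hzS.2.trans_lt hr2
      have hl := hlog1.trans_le (hlogz z hzS)
      have hmt0 : 0 ≤ mt G F z := mt_nonneg hM (hFK z hz')
      have hmtpos : 0 < mt G F z := by
        rcases hmt0.lt_or_eq with h | h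
        · exact h
        · rw [← h, zero_mul] at hpos
          exact absurd hpos (lt_irrefl _)
      have h1 := hM.sub F z (hFa z hz') (by
        filter_upwards [hopen.mem_nhds hz'] with y hy
        exact hFK y hy) hmtpos
      have h2 := Sub.log_rpow (z₀ := z) hz'.2 hz1 hC'0.le
      have h3 := Sub.of_holo (h := fun z : ℂ => z) (z₀ := z) analyticAt_id hz'.2
      have h4 := extB_sub_exp hg b 1 (z₀ := z) hz'.2
      refine ⟨_, ?_, (((h1.mul h2).mul h3).mul h4).congr (Eventually.of_forall fun y => ?_)⟩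
      · rw [add_zero, add_zero]
        have hmtL : mt G F z ≤ L / (‖z‖ * Real.log (1 / ‖z‖)) := by
          rw [le_div_iff₀ (by positivity)]
          exact hgr z hz'.2 hz1
        have hsq : mt G F z ^ 2 ≤ L ^ 2 / (‖z‖ ^ 2 * Real.log (1 / ‖z‖) ^ 2) := by
          calc mt G F z ^ 2 ≤ (L / (‖z‖ * Real.log (1 / ‖z‖))) ^ 2 := pow_le_pow_left₀ hmt0 hmtL 2
            _ = L ^ 2 / (‖z‖ ^ 2 * Real.log (1 / ‖z‖) ^ 2) := by rw [div_pow, mul_pow]
        have h5 : C * mt G F z ^ 2 ≤ C * (L ^ 2 / (‖z‖ ^ 2 * Real.log (1 / ‖z‖) ^ 2)) :=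
          mul_le_mul_of_nonneg_left hsq hC
        have h6 : C' / (4 * ‖z‖ ^ 2 * Real.log (1 / ‖z‖) ^ 2) =
            C * (L ^ 2 / (‖z‖ ^ 2 * Real.log (1 / ‖z‖) ^ 2)) + 1 / (4 * ‖z‖ ^ 2 * Real.log (1 / ‖z‖) ^ 2) := by
          rw [hC']
          field_simp
        rw [h6]
        have h7 : 0 < 1 / (4 * ‖z‖ ^ 2 * Real.log (1 / ‖z‖) ^ 2) := by positivity
        linarith
      · simp only [hw]
        rw [one_mul]
        ring
    · intro z hz
      have hzS := hz.1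
      have hz' := hSsub hzS
      have hz0 : 0 < ‖z‖ := hr.trans_le hzS.1
      have hz1 : ‖z‖ < 1 := hzS.2.trans_lt hr2
      have hl := hlog1.trans_le (hlogz z hzS)
      have hmt0 : 0 ≤ mt G F z := mt_nonneg hM (hFK z hz')
      have h1 : Real.log (1 / ‖z‖) ^ (-C') = Real.log (1 / ‖z‖) * Real.log (1 / ‖z‖) ^ (-(C' + 1)) := by
        have : (-C') = 1 + (-(C' + 1)) := by ring
        rw [this, Real.rpow_add hl, Real.rpow_one]
      have h2 : Real.log (1 / ‖z‖) ^ (-(C' + 1)) ≤ Real.log (1 / r₁) ^ (-(C' + 1)) :=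
        Real.rpow_le_rpow_of_nonpos hlog1 (hlogz z hzS) (by linarith)
      have h3 := hgr z hz'.2 hz1
      have h4 := hsph2 z hz
      have h5 : 0 ≤ Real.log (1 / ‖z‖) ^ (-(C' + 1)) := Real.rpow_nonneg hl.le _
      have h6 : 0 ≤ ‖F z‖ ^ (-c₀) * Real.exp (w z) := by
        have := hFn z hz'
        positivity
      calc mt G F z * (‖F z‖ ^ (-c₀) * Real.log (1 / ‖z‖) ^ (-C') * ‖z‖ * Real.exp (w z))
          = (mt G F z * (‖z‖ * Real.log (1 / ‖z‖))) * (‖F z‖ ^ (-c₀) * Real.exp (w z)) *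
            Real.log (1 / ‖z‖) ^ (-(C' + 1)) := by rw [h1]; ring
        _ ≤ L * Real.exp 1 * Real.log (1 / r₁) ^ (-(C' + 1)) := by
          refine mul_le_mul (mul_le_mul h3 h4 h6 hL.le) h2 h5 (by positivity)
        _ = Real.exp 1 * L * Real.log (1 / r₁) ^ (-(C' + 1)) := by ring
  refine ⟨g, b, hg, fun z hz1 hz2 => ?_⟩
  have hzS : z ∈ S := ⟨hz1, hz2⟩
  have hz' := hSsub hzS
  constructor
  · have h1 := hA' z hzS
    have h2 : ‖F z‖ ^ c₀ = ‖F z‖ ^ c₀ * Real.exp (-(w z)) * Real.exp (w z) := by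
      rw [mul_assoc, ← Real.exp_add]
      simp
    rw [h2]
    exact mul_le_mul_of_nonneg_right h1 (Real.exp_nonneg _)
  · have h1 := hB z hzS
    have h2 : ‖F z‖ ^ (-c₀) * ‖F z‖ ^ c₀ = 1 := by
      rw [← Real.rpow_add (hFn z hz')]
      simp
    have h3 : (4 * C * L ^ 2 + 2) = C' + 1 := by rw [hC']; ring
    rw [h3]
    have h4 : 0 ≤ ‖F z‖ ^ c₀ := Real.rpow_nonneg (norm_nonneg _) _
    calc mt G F z * Real.log (1 / ‖z‖) ^ (-C') * ‖z‖ * Real.exp ((g z).re + b * Real.log ‖z‖)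
        = mt G F z * Real.log (1 / ‖z‖) ^ (-C') * ‖z‖ * Real.exp (w z) * (‖F z‖ ^ (-c₀) * ‖F z‖ ^ c₀) := by
          rw [h2, mul_one]
      _ = mt G F z * (‖F z‖ ^ (-c₀) * Real.log (1 / ‖z‖) ^ (-C') * ‖z‖ * Real.exp (w z)) * ‖F z‖ ^ c₀ := by ring
      _ ≤ Real.exp 1 * L * Real.log (1 / r₁) ^ (-(C' + 1)) * ‖F z‖ ^ c₀ := mul_le_mul_of_nonneg_right h1 h4

end Pool.Agent.H36.BP

end

section

/-!
# BP ExtD: bounded lifts

`g, b` from `annulus_bounds` for `r < r₁`, `j = -⌊b/c₀⌋` (an integer), `θ z = z^j exp(-g z/c₀)`, `t = b/c₀ + j ∈ [0,1)`.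
* upper bound: `|F z| ≤ e^(1/c₀) exp((Re g + b log|z|)/c₀)`, so `|θ z F z| ≤ e^(1/c₀) |z|^t ≤ e^(1/c₀)`.
* lower bound at `z₁` (`m₁ = mt G F z₁ > 0`): `|F z₁|^(c₀) exp(-(Re g + b log|z₁|)) ≥ q`, `q = m₁ (log 1/|z₁|)^(-C') |z₁|/(e L (log 1/r₁)^(-C'-1)) > 0`, so `|θ z₁ F z₁| = |z₁|^t |F z₁| exp(-(..)/c₀) ≥ |z₁| q^(1/c₀) = c`.
-/

set_option autoImplicit false

namespace Pool.Agent.H36.BP

open Filter Topology Metric

variable {N : ℕ}

variable {K B : Set (EN N)} {G : EN N → EN N → ℝ} {ρ : EN N → ℝ} {M : ℕ} {c₀ C : ℝ}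

theorem bounded_lifts (hM : MetricData K B G ρ M c₀ C) {L : ℝ} (hL : 0 < L) {F : ℂ → EN N} (hF : Curve K (ball 0 1 \ {0}) F)
    (hgr : ∀ z : ℂ, z ≠ 0 → ‖z‖ < 1 → mt G F z * (‖z‖ * Real.log (1 / ‖z‖)) ≤ L) {r₁ : ℝ} {z₁ : ℂ} (hz1 : 0 < ‖z₁‖) (hz2 : ‖z₁‖ < r₁)
    (hr1 : r₁ < 1) (hpos : 0 < mt G F z₁) :
    ∃ c : ℝ, 0 < c ∧ ∀ r : ℝ, 0 < r → r < ‖z₁‖ → ∃ θ : ℂ → ℂ, DifferentiableOn ℂ θ {0}ᶜ ∧
      (∀ z : ℂ, r ≤ ‖z‖ → ‖z‖ ≤ r₁ → ‖θ z • F z‖ ≤ Real.exp (1 / c₀)) ∧ c ≤ ‖θ z₁ • F z₁‖ := by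
  have hc := hM.c₀_pos
  have hr0 : 0 < r₁ := hz1.trans hz2
  have hlog1 : 0 < Real.log (1 / ‖z₁‖) := Real.log_pos (by
    rw [lt_div_iff₀ hz1, one_mul]
    exact hz2.trans hr1)
  have hlogr : 0 < Real.log (1 / r₁) := Real.log_pos (by
    rw [lt_div_iff₀ hr0, one_mul]
    exact hr1)
  set P : ℝ := mt G F z₁ * Real.log (1 / ‖z₁‖) ^ (-(4 * C * L ^ 2 + 1)) * ‖z₁‖ with hP
  set Q : ℝ := Real.exp 1 * L * Real.log (1 / r₁) ^ (-(4 * C * L ^ 2 + 2)) with hQ
  have hP0 : 0 < P := mul_pos (mul_pos hpos (Real.rpow_pos_of_pos hlog1 _)) hz1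
  have hQ0 : 0 < Q := mul_pos (mul_pos (Real.exp_pos 1) hL) (Real.rpow_pos_of_pos hlogr _)
  refine ⟨Real.exp (Real.log ‖z₁‖ + Real.log (P / Q) / c₀), Real.exp_pos _, ?_⟩
  intro r hr hrz
  obtain ⟨g, b, hg, hgb⟩ := annulus_bounds hM hL hF hgr hr (hrz.trans hz2) hr1
  have ht0 : 0 ≤ b / c₀ + ((-⌊b / c₀⌋ : ℤ) : ℝ) := by
    have h := Int.floor_le (b / c₀)
    push_cast
    linarith
  have ht1 : b / c₀ + ((-⌊b / c₀⌋ : ℤ) : ℝ) ≤ 1 := by
    have h := Int.lt_floor_add_one (b / c₀)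
    push_cast
    linarith
  set j : ℤ := -⌊b / c₀⌋ with hj
  -- the norm of the lift
  have hnorm : ∀ z : ℂ, 0 < ‖z‖ → 0 < ‖F z‖ → ‖(z ^ j * Complex.exp (-(g z / c₀))) • F z‖ =
      Real.exp ((j : ℝ) * Real.log ‖z‖ - (g z).re / c₀ + Real.log ‖F z‖) := by
    intro z hz hFz
    rw [norm_smul, norm_mul, norm_zpow, Complex.norm_exp, Real.exp_add, Real.exp_sub,
      Real.exp_log hFz]
    have h1 : (-(g z / (c₀ : ℂ))).re = -((g z).re / c₀) := by
      rw [Complex.neg_re, Complex.div_ofReal_re]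
    rw [h1, Real.exp_neg]
    have h2 : Real.exp ((j : ℝ) * Real.log ‖z‖) = ‖z‖ ^ j := by
      rw [mul_comm, Real.exp_mul, Real.exp_log hz, Real.rpow_intCast]
    rw [h2]
    field_simp
  have hFK : ∀ z : ℂ, 0 < ‖z‖ → ‖z‖ < 1 → 0 < ‖F z‖ := by
    intro z hz hz'
    refine norm_pos_iff.2 (hM.ne _ (hF.2 z ⟨?_, ?_⟩))
    · rw [mem_ball_zero_iff]
      exact hz'
    · exact norm_pos_iff.1 hz
  have hpow : ∀ z : ℂ, 0 < ‖F z‖ → ‖F z‖ ^ c₀ = Real.exp (Real.log ‖F z‖ * c₀) := fun z hz =>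
    Real.rpow_def_of_pos hz c₀
  refine ⟨fun z => z ^ j * Complex.exp (-(g z / c₀)), ?_, ?_, ?_⟩
  · intro z hz
    have hz' : z ≠ 0 := hz
    have h1 : DifferentiableAt ℂ g z := (hg z hz).differentiableAt (isOpen_compl_singleton.mem_nhds hz)
    exact ((differentiableAt_zpow.2 (Or.inl hz')).mul
      ((h1.div_const _).neg.cexp)).differentiableWithinAt
  · intro z hz hz'
    have hz0 : 0 < ‖z‖ := hr.trans_le hz
    have hFz := hFK z hz0 (hz'.trans_lt hr1)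
    show ‖(z ^ j * Complex.exp (-(g z / c₀))) • F z‖ ≤ _
    rw [hnorm z hz0 hFz]
    refine Real.exp_le_exp.2 ?_
    have h1 := (hgb z hz hz').1
    rw [hpow z hFz, ← Real.exp_add, Real.exp_le_exp, ← le_div_iff₀ hc] at h1
    have h2 : Real.log ‖z‖ ≤ 0 := Real.log_nonpos hz0.le (hz'.trans hr1.le)
    have h3 : (1 + ((g z).re + b * Real.log ‖z‖)) / c₀ =
        1 / c₀ + (g z).re / c₀ + b / c₀ * Real.log ‖z‖ := by
      field_simp
      ring
    have h4 := mul_nonpos_of_nonneg_of_nonpos ht0 h2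
    rw [h3] at h1
    linarith
  · have hFz := hFK z₁ hz1 (hz2.trans hr1)
    show _ ≤ ‖(z₁ ^ j * Complex.exp (-(g z₁ / c₀))) • F z₁‖
    rw [hnorm z₁ hz1 hFz]
    refine Real.exp_le_exp.2 ?_
    have h1 := (hgb z₁ hrz.le hz2.le).2
    rw [← hP, ← hQ, hpow z₁ hFz] at h1
    have h2 : Real.log (P / Q) + ((g z₁).re + b * Real.log ‖z₁‖) ≤ Real.log ‖F z₁‖ * c₀ := by
      have h3 : P / Q * Real.exp ((g z₁).re + b * Real.log ‖z₁‖) ≤
          Real.exp (Real.log ‖F z₁‖ * c₀) := by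
        rw [div_mul_eq_mul_div, div_le_iff₀ hQ0, mul_comm (Real.exp _) Q]
        exact h1
      have h4 : P / Q = Real.exp (Real.log (P / Q)) := (Real.exp_log (div_pos hP0 hQ0)).symm
      rw [h4, ← Real.exp_add, Real.exp_le_exp] at h3
      exact h3
    rw [← div_le_iff₀ hc] at h2
    have h3 : (Real.log (P / Q) + ((g z₁).re + b * Real.log ‖z₁‖)) / c₀ =
        Real.log (P / Q) / c₀ + (g z₁).re / c₀ + b / c₀ * Real.log ‖z₁‖ := by
      field_simp
      ring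
    have h4 : Real.log ‖z₁‖ ≤ 0 := Real.log_nonpos hz1.le (hz2.trans hr1).le
    have h5 : Real.log ‖z₁‖ ≤ (b / c₀ + (j : ℝ)) * Real.log ‖z₁‖ := by
      nlinarith
    rw [h3] at h2
    linarith

end Pool.Agent.H36.BP

end

section

/-!
# BP Main: the main theorems of the function theory half

`picard`: let `F` be a lift on `0 < |z| < 1/2` (`lift_punct`), `F₁ z = F(z/2)`.  If `wd F F' = 0` near a point then `f` is constant near a point, so it is constant on the punctured disc and extends.  `F` lies in `B` near no point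
(`vanish_identity`).  `exists_pos` gives `z₁` with positive metric; `brody_bound`, `growth`, `bounded_lifts`, `puncture_limit` give `Q` near `0`; glue.
-/

set_option autoImplicit false

namespace Pool.Agent.H36.BP

open Filter Topology Metric

variable {N : ℕ}

open Pool.Agent.H17 (PN HolomorphicInto puncturedDisc VanishesAt vanishesAt_mk_iff)

variable {K B : Set (EN N)} {G : EN N → EN N → ℝ} {ρ : EN N → ℝ} {M : ℕ} {c₀ C : ℝ}

theorem brodyMod_of {X Z : Set (PN N)}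
    (hB : ∀ f : ℂ → PN N, HolomorphicInto f Set.univ → (∀ z, f z ∈ X) → (∃ z w, f z ≠ f w) → ∀ z, f z ∈ Z) :
    BrodyMod (coneOf X) (coneOf Z) := by
  intro F hF hK hne z
  set f : ℂ → PN N := fun z => Projectivization.mk ℂ _ (hK z).choose with hf
  have h1 : HolomorphicInto f Set.univ := by
    intro z₀ _
    refine ⟨fun w => (F w).ofLp, analyticAt_ofLp (hF.analyticAt z₀), ?_⟩
    exact Filter.Eventually.of_forall fun w => ⟨(hK w).choose, rfl⟩
  have h2 : ∀ z, f z ∈ X := fun z => (hK z).choose_spec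
  refine ⟨(hK z).choose, hB f h1 h2 ?_ z⟩
  obtain ⟨a, b, hab⟩ := hne
  refine ⟨a, b, fun h => ?_⟩
  rw [hf] at h
  simp only at h
  rw [Projectivization.mk_eq_mk_iff'] at h
  obtain ⟨c, hc⟩ := h
  apply hab c
  ext i
  exact (congrFun hc i).symm

/-- if the wedge of a curve with its derivative vanishes near a point then the curve is projectively constant near this point -/
theorem const_of_wedge {F : ℂ → EN N} {z : ℂ} (hF : AnalyticAt ℂ F z) (h0 : F z ≠ 0) (hw : ∀ᶠ w in 𝓝 z, wd (F w) (deriv F w) = 0) :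
    ∀ᶠ w in 𝓝 z, ∃ c : ℂ, c ≠ 0 ∧ F w = c • F z := by
  obtain ⟨j, hj⟩ : ∃ j, (F z) j ≠ 0 := by
    by_contra hcon
    push Not at hcon
    exact h0 (by ext i; exact hcon i)
  have hcoord : ∀ i, AnalyticAt ℂ (fun w => F w i) z := fun i => analyticAt_pi_iff.mp (analyticAt_ofLp hF) i
  have hne : ∀ᶠ w in 𝓝 z, F w j ≠ 0 := (hcoord j).continuousAt.eventually_ne hj
  obtain ⟨r, hr, hr1⟩ := Metric.eventually_nhds_iff_ball.mp ((hF.eventually_analyticAt.and hne).and hw)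
  have hder : ∀ w ∈ ball z r, ∀ i, HasDerivAt (fun w => F w i) (deriv F w i) w := by
    intro w hw' i
    have h1 : HasDerivAt F (deriv F w) w := (hr1 w hw').1.1.differentiableAt.hasDerivAt
    have h2 := ((EuclideanSpace.equiv (Fin (N + 1)) ℂ) : EN N →L[ℂ] (Fin (N + 1) → ℂ)).hasFDerivAt.comp_hasDerivAt w h1
    exact (hasDerivAt_pi.mp h2) i
  have hconst : ∀ i, ∀ w ∈ ball z r, F w i / F w j = F z i / F z j := by
    intro i w hw'
    have hd : ∀ y ∈ ball z r, HasDerivAt (fun w => F w i / F w j) 0 y := by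
      intro y hy
      have h3 := (hder y hy i).div (hder y hy j) (hr1 y hy).1.2
      have hFy : F y ≠ 0 := by
        intro h
        apply (hr1 y hy).1.2
        rw [h]; rfl
      obtain ⟨a, ha⟩ := (wd_eq_zero hFy).mp (hr1 y hy).2
      have h4 : (deriv F y i * F y j - F y i * deriv F y j) / F y j ^ 2 = 0 := by
        rw [ha]
        simp only [PiLp.smul_apply, smul_eq_mul]
        ring
      rwa [h4] at h3
    have hdo : DifferentiableOn ℂ (fun w => F w i / F w j) (ball z r) := fun y hy => (hd y hy).differentiableAt.differentiableWithinAt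
    exact (convex_ball z r).is_const_of_fderivWithin_eq_zero (𝕜 := ℂ) hdo (by
      intro y hy
      rw [fderivWithin_of_isOpen isOpen_ball hy]
      have := (hd y hy).hasFDerivAt.fderiv
      rw [this]
      ext
      simp) hw' (mem_ball_self hr)
  filter_upwards [ball_mem_nhds z hr] with w hw'
  refine ⟨F w j / F z j, div_ne_zero (hr1 w hw').1.2 hj, ?_⟩
  ext i
  have h5 := hconst i w hw'
  have h6 := (hr1 w hw').1.2
  simp only [PiLp.smul_apply, smul_eq_mul]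
  field_simp at h5 ⊢
  linear_combination h5

/-- extension across the puncture, in terms of cones -/
theorem picard_cone_of_bound (hM : MetricData K B G ρ M c₀ C) (hbound : ∃ L : ℝ, 0 < L ∧ ∀ F, Curve K (ball 0 1) F → mt G F 0 ≤ L) (hBs : ∀ x ∈ B, ∀ c : ℂ, c ≠ 0 → c • x ∈ B)
    (hρ : ∀ x ∈ K, x ∈ B → ρ x = 0) (f : ℂ → PN N) (hf : HolomorphicInto f puncturedDisc)
    (hfK : ∀ z ∈ puncturedDisc, (WithLp.toLp 2 (f z).rep : EN N) ∈ K) (hfB : ∃ z ∈ puncturedDisc, (WithLp.toLp 2 (f z).rep : EN N) ∉ B) :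
    ∃ g : ℂ → PN N, HolomorphicInto g (ball 0 1) ∧ ∀ z ∈ puncturedDisc, g z = f z := by
  classical
  -- lifts and representatives
  have hrep : ∀ (z : ℂ) (x : EN N) (h : x.ofLp ≠ 0), f z = Projectivization.mk ℂ _ h →
      ∃ a : ℂ, a ≠ 0 ∧ (WithLp.toLp 2 (f z).rep : EN N) = a • x := by
    intro z x h h1
    obtain ⟨a, ha, h2⟩ := Pool.Agent.H17.exists_smul_rep x.ofLp h
    refine ⟨a, ha, ?_⟩
    rw [h1, h2]
    rfl
  have hliftK : ∀ z ∈ puncturedDisc, ∀ (x : EN N) (h : x.ofLp ≠ 0), f z = Projectivization.mk ℂ _ h → x ∈ K := by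
    intro z hz x h h1
    obtain ⟨a, ha, h2⟩ := hrep z x h h1
    have h3 := hM.smul _ (hfK z hz) a⁻¹ (inv_ne_zero ha)
    rwa [h2, smul_smul, inv_mul_cancel₀ ha, one_smul] at h3
  have hliftB : ∀ (z : ℂ) (x : EN N) (h : x.ofLp ≠ 0), f z = Projectivization.mk ℂ _ h →
      ((WithLp.toLp 2 (f z).rep : EN N) ∈ B ↔ x ∈ B) := by
    intro z x h h1
    obtain ⟨a, ha, h2⟩ := hrep z x h h1
    constructor
    · intro h3
      rw [h2] at h3
      have h4 := hBs _ h3 a⁻¹ (inv_ne_zero ha)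
      rwa [smul_smul, inv_mul_cancel₀ ha, one_smul] at h4
    · intro h3
      rw [h2]
      exact hBs _ h3 a ha
  -- `f` lies in `B` near no point
  have hnB' : ∀ z ∈ puncturedDisc, ¬ ∀ᶠ w in 𝓝 z, (WithLp.toLp 2 (f w).rep : EN N) ∈ B := by
    intro z hz hzB
    set A : Set ℂ := {z | ∀ᶠ w in 𝓝 z, (WithLp.toLp 2 (f w).rep : EN N) ∈ B} with hA
    have hAo : IsOpen A := by
      rw [isOpen_iff_mem_nhds]
      intro z hz
      exact hz.eventually_nhds
    have hcl : closure A ∩ puncturedDisc ⊆ A := by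
      rintro y ⟨hy1, hy2⟩
      by_cases hyA : y ∈ A
      · exact hyA
      obtain ⟨φ, hφ, he⟩ := hf y hy2
      have hFa : AnalyticAt ℂ (fun w => (WithLp.toLp 2 (φ w) : EN N)) y := analyticAt_toLp hφ
      have hFK : ∀ᶠ w in 𝓝 y, (WithLp.toLp 2 (φ w) : EN N) ∈ K := by
        filter_upwards [he, isOpen_puncturedDisc.mem_nhds hy2] with w hw hw2
        obtain ⟨h1, h2⟩ := hw
        exact hliftK w hw2 _ h1 h2
      have hfreq : ∃ᶠ w in 𝓝[≠] y, ρ (WithLp.toLp 2 (φ w) : EN N) = 0 := by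
        have h1 : ∃ᶠ w in 𝓝 y, w ∈ A := mem_closure_iff_frequently.mp hy1
        have h2 : ∃ᶠ w in 𝓝 y, w ∈ A ∧ w ≠ y := by
          refine h1.mono fun w hw => ⟨hw, ?_⟩
          rintro rfl
          exact hyA hw
        have h3 : ∃ᶠ w in 𝓝[≠] y, w ∈ A := by
          rw [frequently_nhdsWithin_iff]
          exact h2.mono fun w hw => ⟨hw.1, hw.2⟩
        refine (h3.and_eventually ((hFK.and he).filter_mono nhdsWithin_le_nhds)).mono ?_
        rintro w ⟨hw1, hw2, h4, h5⟩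
        have h6 : (WithLp.toLp 2 (f w).rep : EN N) ∈ B := by
          have h7 : ∀ᶠ v in 𝓝 w, (WithLp.toLp 2 (f v).rep : EN N) ∈ B := hw1
          exact h7.self_of_nhds
        exact hρ _ hw2 ((hliftB w (WithLp.toLp 2 (φ w)) h4 h5).mp h6)
      have h8 := hM.ρ_zero _ y hFa hFK hfreq
      show ∀ᶠ w in 𝓝 y, (WithLp.toLp 2 (f w).rep : EN N) ∈ B
      filter_upwards [h8, he] with w hw hw2
      obtain ⟨h4, h5⟩ := hw2
      exact (hliftB w (WithLp.toLp 2 (φ w)) h4 h5).mpr hw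
    have hsub : puncturedDisc ⊆ A := preconnected_puncturedDisc.subset_of_closure_inter_subset hAo ⟨z, hz, hzB⟩ hcl
    obtain ⟨z', hz'1, hz'2⟩ := hfB
    have h9 : ∀ᶠ w in 𝓝 z', (WithLp.toLp 2 (f w).rep : EN N) ∈ B := hsub hz'1
    exact hz'2 h9.self_of_nhds
  obtain ⟨F, hFd, hFf⟩ := lift_punct hf (r := 1 / 2) (by norm_num) (by norm_num)
  have hhalf : ∀ z ∈ ball (0 : ℂ) 1 \ {0}, z / 2 ∈ ball (0 : ℂ) (1 / 2) \ {0} := by
    rintro z ⟨hz1, hz2⟩
    rw [mem_ball_zero_iff] at hz1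
    refine ⟨?_, ?_⟩
    · rw [mem_ball_zero_iff, norm_div]
      simp only [Complex.norm_ofNat]
      linarith
    · simpa using hz2
  have hsubp : ball (0 : ℂ) (1 / 2) \ {0} ⊆ puncturedDisc := by
    rintro z ⟨hz1, hz2⟩
    exact ⟨ball_subset_ball (by norm_num) hz1, hz2⟩
  have hopen : IsOpen (ball (0 : ℂ) (1 / 2) \ {0}) := isOpen_ball.sdiff isClosed_singleton
  have hopen1 : IsOpen (ball (0 : ℂ) 1 \ {0}) := isOpen_ball.sdiff isClosed_singleton
  set F₁ : ℂ → EN N := fun z => F (z / 2) with hF₁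
  have hF1c : Curve K (ball 0 1 \ {0}) F₁ := by
    refine ⟨?_, ?_⟩
    · intro z hz
      have h1 : DifferentiableAt ℂ F (z / 2) := hFd.differentiableAt (hopen.mem_nhds (hhalf z hz))
      exact (h1.comp z (differentiableAt_id.div_const 2)).differentiableWithinAt
    · intro z hz
      obtain ⟨h1, h2⟩ := hFf _ (hhalf z hz)
      exact hliftK _ (hsubp (hhalf z hz)) _ h1 h2
  -- the constant case
  by_cases hconst : ∃ c₁ : PN N, ∀ z ∈ puncturedDisc, f z = c₁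
  · obtain ⟨c₁, hc₁⟩ := hconst
    refine ⟨fun _ => c₁, ?_, fun z hz => (hc₁ z hz).symm⟩
    intro z _
    exact ⟨fun _ => c₁.rep, analyticAt_const, Filter.Eventually.of_forall fun w => ⟨c₁.rep_nonzero, (Projectivization.mk_rep c₁).symm⟩⟩
  have han1 : ∀ z ∈ ball (0 : ℂ) 1 \ {0}, AnalyticAt ℂ F₁ z := fun z hz => hF1c.1.analyticAt (hopen1.mem_nhds hz)
  have hc : ∀ z ∈ ball (0 : ℂ) 1 \ {0}, ¬ ∀ᶠ w in 𝓝 z, wd (F₁ w) (deriv F₁ w) = 0 := by
    intro z hz hw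
    apply hconst
    have h0 : F₁ z ≠ 0 := hM.ne _ (hF1c.2 z hz)
    have h1 := const_of_wedge (han1 z hz) h0 hw
    refine ⟨f (z / 2), const_identity preconnected_puncturedDisc hf (hsubp (hhalf z hz)) ?_⟩
    have h2 : Tendsto (fun w : ℂ => 2 * w) (𝓝 (z / 2)) (𝓝 z) := by
      have : Tendsto (fun w : ℂ => 2 * w) (𝓝 (z / 2)) (𝓝 (2 * (z / 2))) := (continuous_const.mul continuous_id).tendsto _
      rwa [mul_div_cancel₀ z (two_ne_zero)] at this
    filter_upwards [h2.eventually h1, hopen.mem_nhds (hhalf z hz)] with w hw1 hw2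
    obtain ⟨c, hc0, hcw⟩ := hw1
    have e1 : F₁ (2 * w) = F w := by
      rw [hF₁]
      simp only
      rw [mul_div_cancel_left₀ w (two_ne_zero)]
    rw [e1] at hcw
    obtain ⟨h3, h4⟩ := hFf w hw2
    obtain ⟨h5, h6⟩ := hFf _ (hhalf z hz)
    rw [h4, h6, Projectivization.mk_eq_mk_iff']
    refine ⟨c, ?_⟩
    rw [hcw]
    rfl
  have hnB : ∀ z ∈ ball (0 : ℂ) 1 \ {0}, ¬ ∀ᶠ w in 𝓝 z, F₁ w ∈ B := by
    intro z hz hw
    apply hnB' _ (hsubp (hhalf z hz))
    have h2 : Tendsto (fun w : ℂ => 2 * w) (𝓝 (z / 2)) (𝓝 z) := by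
      have : Tendsto (fun w : ℂ => 2 * w) (𝓝 (z / 2)) (𝓝 (2 * (z / 2))) := (continuous_const.mul continuous_id).tendsto _
      rwa [mul_div_cancel₀ z (two_ne_zero)] at this
    filter_upwards [h2.eventually hw, hopen.mem_nhds (hhalf z hz)] with w hw1 hw2
    have e1 : F₁ (2 * w) = F w := by
      rw [hF₁]
      simp only
      rw [mul_div_cancel_left₀ w (two_ne_zero)]
    rw [e1] at hw1
    obtain ⟨h5, h6⟩ := hFf w hw2
    exact (hliftB w (F w) h5 h6).mpr hw1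
  -- a point with positive metric
  have hz0 : (1 / 2 : ℂ) ∈ ball (0 : ℂ) 1 \ {0} := by
    refine ⟨?_, by simp⟩
    rw [mem_ball_zero_iff]
    norm_num
  have hpos := exists_pos hM (han1 _ hz0) (Filter.mem_of_superset (hopen1.mem_nhds hz0) fun z hz => hF1c.2 z hz)
    (hnB _ hz0) (hc _ hz0)
  obtain ⟨z₁, hz₁pos, hz₁⟩ := (hpos.and (hopen1.mem_nhds hz0 |> Filter.Eventually.filter_mono nhdsWithin_le_nhds)).exists
  have hz₁1 : ‖z₁‖ < 1 := by simpa using hz₁.1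
  have hz₁0 : 0 < ‖z₁‖ := norm_pos_iff.mpr hz₁.2
  obtain ⟨L, hL, hLb⟩ := hbound
  have hgr : ∀ z : ℂ, z ≠ 0 → ‖z‖ < 1 → mt G F₁ z * (‖z‖ * Real.log (1 / ‖z‖)) ≤ L := fun z hz hz1 => growth hM hLb hF1c hz hz1
  obtain ⟨c, hcpos, hlift⟩ := bounded_lifts hM hL hF1c hgr (r₁ := (‖z₁‖ + 1) / 2) hz₁0 (by linarith) (by linarith) hz₁pos
  obtain ⟨Q, hQa, hQ0, hQ⟩ := puncture_limit hF1c.1 (fun z hz => hM.ne _ (hF1c.2 z hz)) hcpos hz₁0 (r₁ := (‖z₁‖ + 1) / 2)
    (by linarith) (by linarith) hlift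
  -- gluing
  set q₀ : PN N := Projectivization.mk ℂ (Q 0).ofLp (ofLp_ne_zero hQ0) with hq₀
  refine ⟨fun z => if z = 0 then q₀ else f z, ?_, ?_⟩
  · intro z hz
    by_cases hz0 : z = 0
    · subst hz0
      refine ⟨fun w => (Q (2 * w)).ofLp, ?_, ?_⟩
      · apply analyticAt_ofLp
        have h1 : AnalyticAt ℂ Q ((fun w : ℂ => 2 * w) 0) := by simpa using hQa
        exact h1.comp (analyticAt_const.mul analyticAt_id)
      · have h2 : Tendsto (fun w : ℂ => 2 * w) (𝓝 0) (𝓝 0) := by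
          have : Tendsto (fun w : ℂ => 2 * w) (𝓝 0) (𝓝 (2 * 0)) := (continuous_const.mul continuous_id).tendsto _
          rwa [mul_zero] at this
        have h3 : ∀ᶠ w in 𝓝 (0 : ℂ), w ≠ 0 → ∃ k : ℂ, k ≠ 0 ∧ Q (2 * w) = k • F₁ (2 * w) := by
          filter_upwards [h2.eventually (eventually_nhdsWithin_iff.mp hQ)] with w hw hw0
          exact hw (by simpa using hw0)
        have h4 : ∀ᶠ w in 𝓝 (0 : ℂ), Q (2 * w) ≠ 0 := by
          have h5 : ∀ᶠ y in 𝓝 (0 : ℂ), Q y ≠ 0 := hQa.continuousAt.eventually_ne hQ0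
          exact h2.eventually h5
        filter_upwards [h3, h4, ball_mem_nhds (0 : ℂ) (show (0 : ℝ) < 1 / 2 by norm_num)] with w hw1 hw2 hw3
        refine ⟨ofLp_ne_zero hw2, ?_⟩
        by_cases hw0 : w = 0
        · subst hw0
          simp only [if_true, hq₀, mul_zero]
        · rw [if_neg hw0]
          obtain ⟨k, hk0, hk⟩ := hw1 hw0
          have e1 : F₁ (2 * w) = F w := by
            rw [hF₁]
            simp only
            rw [mul_div_cancel_left₀ w (two_ne_zero)]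
          rw [e1] at hk
          obtain ⟨h5, h6⟩ := hFf w ⟨hw3, hw0⟩
          rw [h6, Projectivization.mk_eq_mk_iff']
          refine ⟨k⁻¹, ?_⟩
          rw [hk]
          show k⁻¹ • (k • (F w).ofLp) = _
          rw [smul_smul, inv_mul_cancel₀ hk0, one_smul]
    · obtain ⟨φ, hφ, he⟩ := hf z ⟨hz, hz0⟩
      refine ⟨φ, hφ, ?_⟩
      filter_upwards [he, isOpen_ne.mem_nhds hz0] with w hw1 hw2
      rw [if_neg hw2]
      exact hw1
  · intro z hz
    have hz0 : z ≠ 0 := hz.2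
    simp only
    rw [if_neg hz0]

theorem picard_cone (hM : MetricData K B G ρ M c₀ C) (hB : BrodyMod K B) (hBs : ∀ x ∈ B, ∀ c : ℂ, c ≠ 0 → c • x ∈ B)
    (hρ : ∀ x ∈ K, x ∈ B → ρ x = 0) (f : ℂ → PN N) (hf : HolomorphicInto f puncturedDisc)
    (hfK : ∀ z ∈ puncturedDisc, (WithLp.toLp 2 (f z).rep : EN N) ∈ K) (hfB : ∃ z ∈ puncturedDisc, (WithLp.toLp 2 (f z).rep : EN N) ∉ B) :
    ∃ g : ℂ → PN N, HolomorphicInto g (ball 0 1) ∧ ∀ z ∈ puncturedDisc, g z = f z :=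
  picard_cone_of_bound hM (brody_bound hM hB) hBs hρ f hf hfK hfB

/-- extension across the puncture -/
theorem picard {X Z : Set (PN N)} (hM : MetricData (coneOf X) (coneOf Z) G ρ M c₀ C)
    (hB : ∀ f : ℂ → PN N, HolomorphicInto f Set.univ → (∀ z, f z ∈ X) → (∃ z w, f z ≠ f w) → ∀ z, f z ∈ Z)
    (hρ : ∀ x ∈ coneOf X, x ∈ coneOf Z → ρ x = 0)
    (f : ℂ → PN N) (hf : HolomorphicInto f puncturedDisc) (hfX : ∀ z ∈ puncturedDisc, f z ∈ X)
    (hfZ : ∃ z ∈ puncturedDisc, f z ∉ Z) :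
    ∃ g : ℂ → PN N, HolomorphicInto g (ball 0 1) ∧ ∀ z ∈ puncturedDisc, g z = f z := by
  have hmem : ∀ (Y : Set (PN N)) (p : PN N), (WithLp.toLp 2 p.rep : EN N) ∈ coneOf Y ↔ p ∈ Y := by
    intro Y p
    constructor
    · rintro ⟨h, h1⟩
      have h2 : Projectivization.mk ℂ (WithLp.toLp 2 p.rep : EN N).ofLp h = p := Projectivization.mk_rep p
      rwa [h2] at h1
    · intro h
      refine ⟨p.rep_nonzero, ?_⟩
      have h2 : Projectivization.mk ℂ (WithLp.toLp 2 p.rep : EN N).ofLp p.rep_nonzero = p := Projectivization.mk_rep p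
      rw [h2]
      exact h
  refine picard_cone hM (brodyMod_of hB) (fun x hx c hc => coneOf_smul hx hc) hρ f hf (fun z hz => (hmem X _).mpr (hfX z hz)) ?_
  obtain ⟨z, hz1, hz2⟩ := hfZ
  exact ⟨z, hz1, fun h => hz2 ((hmem Z _).mp h)⟩

end Pool.Agent.H36.BP

end

section

/-!
# G3 F Br: Brody and Kobayashi hyperbolicity in the cone

`brody_cone`: let `Q (F z₀) ≠ 0`.  If `0 < pf p F z` at some point with `Q (F z) ≠ 0`, i.e. `Ok`, then `RootLog` for all `r` (`exists_cv` on `ball z r`; `Lam` depends on the lift `h` only through its derivative, which does not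
depend on `r`: the lifts differ by constants; or use that `pf` and `Q` do not depend on `h` and bound `Lam`) gives `pf p F z = 0`, a contradiction.  So `pf p F z = 0` on the dense open set `Q (F z) ≠ 0`; there `h z ∉ D` (`QD.zero`),
so `fs (F z) (F' z) = 0` by `PS.ge_fs` (`D` closed), and `F` is constant as a map to the projective space near such a point, so everywhere.
(For the dependence on `r`: choose one lift `h` on all of `ℂ`: `exists_cv` on balls with the same centre, the lifts agree up to a constant in `Λ`; `deriv h` is well defined.  `Lam Q d p m F h z` uses only `deriv h z`.)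

`kob_cone`: near `x` we have `‖Q v‖ ≥ δ' ‖v‖ ^ d` and `u v` is (modulo `Λ`) in `Gd D δ` (`QD.zero`: `u x ∉ D`, `TMap.loc`, `D` closed and `Λ`-invariant).  If `pf p F 0 = 0` then `fs = 0` by `PS.ge_fs`.  Otherwise `RootLog` with `w = 0`, `r = 1`;
`Lam = Lq + d Np`, `Lq ≤ log (1 / δ')`, `Np ≤ C` (`PS.ge_fs`, `PS.du`), so `pf ≤ C`, `fs ≤ C`.
-/

set_option autoImplicit false

open Topology Filter Metric MvPolynomial

namespace Pool.Agent.G3

open Pool.Agent.H17 (PN VanishesAt HolomorphicInto puncturedDisc)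
open Pool.Agent.H36.BP (EN fs wd Sub Curve)
open Pool.Agent.H14.PP (IsCone CurveAt Tan)
open Pool.Agent.H62.EF (MN pr)
open Pool.Agent.AD (Vd Chart Charts)
open Pool.Agent.TG (TMap Lat Geo Gd VForm Fb)

variable {N k : ℕ} {X : Set (EN N)} {Λ : AddSubgroup (Vd (k + 1))} {u : EN N → Vd (k + 1)} {D : Set (Vd (k + 1))} {p : EN N → EN N → ℝ} {m d : ℕ} {C C₁ : ℝ}
  {Q : EN N → ℂ}

private theorem br_gd (hDc : IsClosed D) {y₀ : Vd (k + 1)} (hy : y₀ ∉ D) : ∃ δ : ℝ, 0 < δ ∧ ∀ y ∈ ball y₀ δ, y ∈ Gd D δ := by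
  obtain ⟨ε, hε, hb⟩ := Metric.isOpen_iff.1 hDc.isOpen_compl y₀ hy
  refine ⟨ε / 2, half_pos hε, fun y hy b hb' => ?_⟩
  by_contra hcon
  push Not at hcon
  have h1 : b ∈ ball y₀ ε := by
    rw [mem_ball, dist_eq_norm]
    rw [mem_ball, dist_eq_norm] at hy
    calc ‖b - y₀‖ = ‖(y - y₀) - (y - b)‖ := by congr 1; abel
      _ ≤ ‖y - y₀‖ + ‖y - b‖ := norm_sub_le _ _
      _ < ε / 2 + ε / 2 := add_lt_add hy hcon
      _ = ε := add_halves ε
  exact hb h1 hb'

private theorem br_np {δ c : ℝ} (hP : PS X Λ u D p m C) (hc : 0 < c)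
    (hcf : ∀ y ∈ Gd D δ, ∀ x ∈ X, u x - y ∈ Λ → ∀ v, Tan X x v → c * fs x v ^ m ≤ p x v) {U : Set ℂ} (hU : IsOpen U) {F : ℂ → EN N} {h : ℂ → Vd (k + 1)}
    (hF : Cv X Λ u U F h) {z : ℂ} (hz : z ∈ U) {y : Vd (k + 1)} (hy : y ∈ Gd D δ) (huy : u (F z) - y ∈ Λ) (hpos : 0 < pf p F z) :
    Np p m F h z ≤ max 0 (Real.log (C ^ m / c)) := by
  unfold Np
  have hm := hP.m_pos
  by_cases h0 : ‖deriv h z‖ = 0
  · rw [h0, zero_pow (by omega), div_zero, Real.log_zero, neg_zero, max_self]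
    exact le_max_left _ _
  · refine max_le_max le_rfl ?_
    have hh : 0 < ‖deriv h z‖ := lt_of_le_of_ne (norm_nonneg _) (Ne.symm h0)
    have hC : 0 ≤ C := zero_le_one.trans hP.C_ge
    have h1 : c * fs (F z) (deriv F z) ^ m ≤ pf p F z := hcf y hy (F z) (hF.mem z hz) huy _ (hF.tan hU hz)
    have h2 : ‖deriv h z‖ ≤ C * fs (F z) (deriv F z) := hP.du U F h hU hF z hz
    have h3 : ‖deriv h z‖ ^ m ≤ C ^ m * fs (F z) (deriv F z) ^ m := by
      rw [← mul_pow]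
      exact pow_le_pow_left₀ hh.le h2 m
    rw [← Real.log_inv, inv_div]
    refine Real.log_le_log (by positivity) ?_
    rw [div_le_div_iff₀ hpos hc]
    calc ‖deriv h z‖ ^ m * c ≤ C ^ m * fs (F z) (deriv F z) ^ m * c := mul_le_mul_of_nonneg_right h3 hc.le
      _ = C ^ m * (c * fs (F z) (deriv F z) ^ m) := by ring
      _ ≤ C ^ m * pf p F z := mul_le_mul_of_nonneg_left h1 (by positivity)

private theorem br_lq (hQ : QD X Λ u D Q d) (hX : IsCone X) {x : EN N} (hx : x ∈ X) (hx0 : Q x ≠ 0) : 0 ≤ Lq Q d x := by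
  unfold Lq
  have h1 : 0 < ‖Q x‖ := norm_pos_iff.2 hx0
  have h2 := Real.log_le_log h1 (hQ.bound x hx)
  rw [Real.log_pow] at h2
  linarith

/-- the bound for `p` on discs of radius `r` -/
private theorem br_bd {δ c : ℝ} (hX : IsCone X) (hu : TMap X Λ u) (hΛ : Lat Λ) (hP : PS X Λ u D p m C) (hQ : QD X Λ u D Q d)
    (hR : RootLog X Λ u Q d p m C₁) (hc : 0 < c)
    (hcf : ∀ y ∈ Gd D δ, ∀ x ∈ X, u x - y ∈ Λ → ∀ v, Tan X x v → c * fs x v ^ m ≤ p x v) {F : ℂ → EN N} {z : ℂ} {r : ℝ} (hr : 0 < r)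
    (hF : DifferentiableOn ℂ F (ball z r)) (hFX : ∀ w ∈ ball z r, F w ∈ X) {y : Vd (k + 1)} (hy : y ∈ Gd D δ) (huy : u (F z) - y ∈ Λ)
    (hok : Ok Q p F z) :
    r ^ 2 * (pf p F z) ^ (2 / (m : ℝ)) ≤ |C₁| * (1 + (Lq Q d (F z) + d * max 0 (Real.log (C ^ m / c)))) := by
  obtain ⟨h, hh⟩ := exists_cv hX hu hΛ hF hFX
  have hz : z ∈ ball z r := mem_ball_self hr
  have h1 := (hR z r F h hr hh hok).2
  have h2 := br_np hP hc hcf isOpen_ball hh hz hy huy hok.2
  have h3 := br_lq hQ hX (hFX z hz) hok.1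
  have h4 : 0 ≤ Np p m F h z := le_max_left _ _
  have h5 : 0 ≤ 1 + Lam Q d p m F h z := by
    unfold Lam
    positivity
  refine h1.trans ?_
  calc C₁ * (1 + Lam Q d p m F h z) ≤ |C₁| * (1 + Lam Q d p m F h z) := mul_le_mul_of_nonneg_right (le_abs_self _) h5
    _ ≤ _ := by
      refine mul_le_mul_of_nonneg_left ?_ (abs_nonneg _)
      unfold Lam
      gcongr

/-- a point with zero length -/
private theorem br_fs {δ c : ℝ} (hP : PS X Λ u D p m C) (hc : 0 < c)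
    (hcf : ∀ y ∈ Gd D δ, ∀ x ∈ X, u x - y ∈ Λ → ∀ v, Tan X x v → c * fs x v ^ m ≤ p x v) {x v : EN N} (hx : x ∈ X) (hv : Tan X x v) {y : Vd (k + 1)}
    (hy : y ∈ Gd D δ) (huy : u x - y ∈ Λ) (h0 : p x v ≤ 0) : fs x v = 0 := by
  have h1 := (hcf y hy x hx huy v hv).trans h0
  have h2 := Pool.Agent.H36.BP.fs_nonneg x v
  by_contra hne
  have h3 : 0 < fs x v := lt_of_le_of_ne h2 (Ne.symm hne)
  have h4 : 0 < c * fs x v ^ m := by positivity
  linarith

theorem brody_cone (hX : IsCone X) (hu : TMap X Λ u) (hΛ : Lat Λ) (hDc : IsClosed D) (hP : PS X Λ u D p m C) (hQ : QD X Λ u D Q d) (hR : RootLog X Λ u Q d p m C₁)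
    {F : ℂ → EN N} (hF : Differentiable ℂ F) (hFX : ∀ z, F z ∈ X) (h0 : ∃ z, Q (F z) ≠ 0) (z w : ℂ) : ∃ c : ℂ, F z = c • F w := by
  have hF0 : ∀ z, F z ≠ 0 := fun z e => hX.zero_notMem (e ▸ hFX z)
  obtain ⟨z₁, hz₁⟩ := h0
  -- the length is zero where `Q` is not
  have hzero : ∀ z, Q (F z) ≠ 0 → wd (F z) (deriv F z) = 0 := by
    intro z hz
    have hyD : u (F z) ∉ D := fun hyD => hz (hQ.zero (F z) (hFX z) _ hyD (by rw [sub_self]; exact Λ.zero_mem))
    obtain ⟨δ, hδ, hG⟩ := br_gd hDc hyD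
    have hy : u (F z) ∈ Gd D δ := hG _ (mem_ball_self hδ)
    have huy : u (F z) - u (F z) ∈ Λ := by rw [sub_self]; exact Λ.zero_mem
    obtain ⟨c, hc, hcf⟩ := hP.ge_fs δ hδ
    have htan : Tan X (F z) (deriv F z) := by
      obtain ⟨h, hh⟩ := exists_cv (c := z) (r := 1) hX hu hΛ hF.differentiableOn (fun w _ => hFX w)
      exact hh.tan isOpen_ball (mem_ball_self one_pos)
    have hp0 : pf p F z ≤ 0 := by
      by_contra hcon
      push Not at hcon
      have hok : Ok Q p F z := ⟨hz, hcon⟩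
      have ha : 0 < (pf p F z) ^ (2 / (m : ℝ)) := Real.rpow_pos_of_pos hcon _
      obtain ⟨K, hK⟩ : ∃ K : ℝ, K = |C₁| * (1 + (Lq Q d (F z) + d * max 0 (Real.log (C ^ m / c)))) := ⟨_, rfl⟩
      have hb : ∀ r : ℝ, 0 < r → r ^ 2 * (pf p F z) ^ (2 / (m : ℝ)) ≤ K := by
        intro r hr
        rw [hK]
        exact br_bd hX hu hΛ hP hQ hR hc hcf hr hF.differentiableOn (fun w _ => hFX w) hy huy hok
      have hK0 : 0 ≤ K := le_trans (by positivity) (hb 1 one_pos)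
      have h1 := hb ((K + 1) / (pf p F z) ^ (2 / (m : ℝ)) + 1) (by positivity)
      have h2 : (K + 1) / (pf p F z) ^ (2 / (m : ℝ)) ≤ ((K + 1) / (pf p F z) ^ (2 / (m : ℝ)) + 1) ^ 2 := by
        have h3 : 0 ≤ (K + 1) / (pf p F z) ^ (2 / (m : ℝ)) := by positivity
        nlinarith
      have h3 := mul_le_mul_of_nonneg_right h2 ha.le
      rw [div_mul_cancel₀ _ ha.ne'] at h3
      linarith
    have hfs := br_fs hP hc hcf (hFX z) htan hy huy hp0
    unfold fs at hfs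
    have h2 : ‖F z‖ ^ 2 ≠ 0 := pow_ne_zero 2 (norm_ne_zero_iff.2 (hF0 z))
    exact (div_eq_zero_iff.1 hfs).resolve_right h2
  have hcont : Continuous fun z => Q (F z) := hQ.diff.continuous.comp hF.continuous
  have hev : ∀ᶠ w in 𝓝 z₁, wd (F w) (deriv F w) = 0 := by
    filter_upwards [hcont.continuousAt.eventually_ne hz₁] with w hw
    exact hzero w hw
  have hc := Pool.Agent.H36.BP.const_of_wedge (hF.analyticAt z₁) (hF0 z₁) hev
  have hall := Pool.Agent.AD.F.Sp.curve_uniq hF (differentiable_const (F z₁)) hF0 (fun _ => hF0 z₁) (z₀ := z₁) (by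
    filter_upwards [hc] with w hw
    exact (Pool.Agent.H62.EF.pr_eq_iff (hF0 w) (hF0 z₁)).2 hw)
  have h2 : pr (F z) = pr (F w) := (hall z).trans (hall w).symm
  obtain ⟨c, -, h3⟩ := (Pool.Agent.H62.EF.pr_eq_iff (hF0 z) (hF0 w)).1 h2
  exact ⟨c, h3⟩

theorem kob_cone (hX : IsCone X) (hu : TMap X Λ u) (hΛ : Lat Λ) (hDc : IsClosed D) (hDi : ∀ y ∈ D, ∀ l ∈ Λ, y + l ∈ D) (hP : PS X Λ u D p m C) (hQ : QD X Λ u D Q d)
    (hR : RootLog X Λ u Q d p m C₁) {x : EN N} (hx : x ∈ X) (hx0 : Q x ≠ 0) :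
    ∃ K : ℝ, ∀ᶠ v in 𝓝 x, ∀ F : ℂ → EN N, DifferentiableOn ℂ F (ball 0 1) → (∀ z ∈ ball (0 : ℂ) 1, F z ∈ X) → F 0 = v → fs (F 0) (deriv F 0) ≤ K := by
  have hxne : x ≠ 0 := fun e => hX.zero_notMem (e ▸ hx)
  have hxn : 0 < ‖x‖ := norm_pos_iff.2 hxne
  obtain ⟨g, hg, hgu⟩ := hu.loc x hx
  have hgx : u x - g x ∈ Λ := hgu.self_of_nhds hx
  have hyD : g x ∉ D := fun hyD => hx0 (hQ.zero x hx _ hyD hgx)
  obtain ⟨δ, hδ, hG⟩ := br_gd hDc hyD
  obtain ⟨c, hc, hcf⟩ := hP.ge_fs δ hδ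
  have hm := hP.m_pos
  have hm' : (0 : ℝ) < m := by exact_mod_cast hm
  have hQn : 0 < ‖Q x‖ := norm_pos_iff.2 hx0
  obtain ⟨K₁, hK₁⟩ : ∃ K₁ : ℝ, K₁ = d * Real.log (‖x‖ + 1) - Real.log (‖Q x‖ / 2) := ⟨_, rfl⟩
  obtain ⟨M, hM⟩ : ∃ M : ℝ, M = |C₁| * (1 + (K₁ + d * max 0 (Real.log (C ^ m / c)))) := ⟨_, rfl⟩
  refine ⟨Real.sqrt (M / c ^ (2 / (m : ℝ))), ?_⟩
  have e1 : ∀ᶠ v in 𝓝 x, g v ∈ ball (g x) δ := hg.continuousAt.eventually_mem (isOpen_ball.mem_nhds (mem_ball_self hδ))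
  have e2 : ∀ᶠ v in 𝓝 x, ‖Q x‖ / 2 < ‖Q v‖ :=
    hQ.diff.continuous.norm.continuousAt.eventually_const_lt (by linarith)
  have e3 : ∀ᶠ v in 𝓝 x, ‖v‖ < ‖x‖ + 1 := continuous_norm.continuousAt.eventually_lt_const (by linarith)
  filter_upwards [hgu, e1, e2, e3] with v f1 f2 f3 f4 F hF hFX hFv
  have h0 : (0 : ℂ) ∈ ball (0 : ℂ) 1 := mem_ball_self one_pos
  have hvX : v ∈ X := hFv ▸ hFX 0 h0
  have hvn : 0 < ‖v‖ := norm_pos_iff.2 fun e => hX.zero_notMem (e ▸ hvX)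
  have hy : g v ∈ Gd D δ := hG _ f2
  have huy : u (F 0) - g v ∈ Λ := by rw [hFv]; exact f1 hvX
  have htan : Tan X (F 0) (deriv F 0) := by
    obtain ⟨h, hh⟩ := exists_cv (c := 0) (r := 1) hX hu hΛ hF hFX
    exact hh.tan isOpen_ball h0
  have hQv : Q (F 0) ≠ 0 := by
    rw [hFv]
    intro e
    rw [e, norm_zero] at f3
    linarith
  have hfs := Pool.Agent.H36.BP.fs_nonneg (F 0) (deriv F 0)
  rcases le_or_gt (pf p F 0) 0 with hp0 | hp0
  · rw [br_fs hP hc hcf (hFX 0 h0) htan hy huy hp0]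
    exact Real.sqrt_nonneg _
  · have h1 := br_bd hX hu hΛ hP hQ hR hc hcf one_pos hF hFX hy huy ⟨hQv, hp0⟩
    rw [one_pow, one_mul] at h1
    have h2 : Lq Q d (F 0) ≤ K₁ := by
      rw [hFv, hK₁]
      unfold Lq
      have h3 : Real.log ‖v‖ ≤ Real.log (‖x‖ + 1) := Real.log_le_log hvn f4.le
      have h4 : Real.log (‖Q x‖ / 2) ≤ Real.log ‖Q v‖ := Real.log_le_log (half_pos hQn) f3.le
      have h5 : (d : ℝ) * Real.log ‖v‖ ≤ d * Real.log (‖x‖ + 1) := mul_le_mul_of_nonneg_left h3 (Nat.cast_nonneg d)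
      linarith
    have h3 : (pf p F 0) ^ (2 / (m : ℝ)) ≤ M := by
      refine h1.trans ?_
      rw [hM]
      refine mul_le_mul_of_nonneg_left ?_ (abs_nonneg _)
      linarith
    have h4 : c * fs (F 0) (deriv F 0) ^ m ≤ pf p F 0 := hcf _ hy _ (hFX 0 h0) huy _ htan
    have h5 : (c * fs (F 0) (deriv F 0) ^ m) ^ (2 / (m : ℝ)) ≤ (pf p F 0) ^ (2 / (m : ℝ)) :=
      Real.rpow_le_rpow (by positivity) h4 (by positivity)
    have h6 : (c * fs (F 0) (deriv F 0) ^ m) ^ (2 / (m : ℝ)) = c ^ (2 / (m : ℝ)) * fs (F 0) (deriv F 0) ^ 2 := by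
      rw [Real.mul_rpow hc.le (by positivity), ← Real.rpow_natCast (fs (F 0) (deriv F 0)) m, ← Real.rpow_mul hfs,
        mul_div_cancel₀ _ hm'.ne']
      norm_num
    have hcp : 0 < c ^ (2 / (m : ℝ)) := Real.rpow_pos_of_pos hc _
    refine Real.le_sqrt_of_sq_le ?_
    rw [le_div_iff₀ hcp]
    calc fs (F 0) (deriv F 0) ^ 2 * c ^ (2 / (m : ℝ)) = (c * fs (F 0) (deriv F 0) ^ m) ^ (2 / (m : ℝ)) := by rw [h6]; ring
      _ ≤ M := h5.trans h3

end Pool.Agent.G3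

end
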