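import Pool.Agent.H94.G4T.M09
import Pool.Agent.H94.G4T.M49
import Pool.Agent.H94.G4T.M65
import Pool.Agent.H94.G4T.M67

/-! The parts of this file: H22.AlgD.CountN, TG.HyC, G3.F.Hyp. -/

section

/-!
# AlgD CountN: forms of degree `d` on a variety of dimension `n` satisfy `K d^q` linear conditions, `q < n`
-/

set_option autoImplicit false

open MvPolynomial

noncomputable section

namespace Pool.Agent.H22.AlgD

open Pool.Agent.H17GT (coordFun)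
open Pool.Agent.H17LG.Variety (FunField)

variable {N : ℕ} {P : Ideal (MvPolynomial (Fin (N + 1)) ℂ)}

/-- `n` coordinates which are algebraically independent on the variety of dimension `n` -/
theorem exists_coords [P.IsPrime] {n : ℕ} {z : Fin n → FunField P} (hz : IsTranscendenceBasis ℂ z)
    (hX : ∃ i, (X i : MvPolynomial (Fin (N + 1)) ℂ) ∉ P) :
    ∃ (j : Fin (N + 1)) (J : Fin n → Fin (N + 1)), ∀ (d : ℕ) (p : MvPolynomial (Fin n) ℂ), p ≠ 0 → p.totalDegree ≤ d →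
      (∑ k ∈ Finset.range (d + 1), X j ^ (d - k) * rename J (homogeneousComponent k p)) ∉ P := by
  obtain ⟨j, hj0⟩ := hX
  have hj : coordFun P j ≠ 0 := by
    intro h0
    exact hj0 ((Pool.Agent.H92.GT.Proj.aeval_coordFun_eq_zero_iff P (X j)).1
      (by rw [aeval_X]; exact h0))
  obtain ⟨x, hx1, hxgen, hxker⟩ := Pool.Agent.H92.GT.Proj.proj_point P hj
  have halg : Algebra.IsAlgebraic (IntermediateField.adjoin ℂ (Set.range x))
      (H17GT.functionField P) := by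
    rw [hxgen]
    exact ⟨fun f => isAlgebraic_algebraMap (⟨f, IntermediateField.mem_top⟩ :
      (⊤ : IntermediateField ℂ (H17GT.functionField P)))⟩
  obtain ⟨J, hJ⟩ := Pool.Agent.H92.GT.exists_index halg (z := z) hz
  refine ⟨j, J, fun d p hp hd hmem => hp ?_⟩
  have hhom : (∑ k ∈ Finset.range (d + 1), X j ^ (d - k) * rename J (homogeneousComponent k p) :
      MvPolynomial (Fin (N + 1)) ℂ).IsHomogeneous d := by
    apply MvPolynomial.IsHomogeneous.sum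
    intro k hk
    have h1 : k ≤ d := Nat.lt_succ_iff.1 (Finset.mem_range.1 hk)
    have h2 := (MvPolynomial.isHomogeneous_X_pow (R := ℂ) j (d - k)).mul
      ((MvPolynomial.homogeneousComponent_isHomogeneous k p).rename_isHomogeneous (f := J))
    rwa [Nat.sub_add_cancel h1] at h2
  have h1 := (hxker d _ hhom).2 hmem
  have h2 : aeval (fun i => x (J i)) p = 0 := by
    have h3 : p = ∑ k ∈ Finset.range (d + 1), homogeneousComponent k p := by
      conv_lhs => rw [← MvPolynomial.sum_homogeneousComponent p]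
      refine Finset.sum_subset (Finset.range_mono (by omega)) fun k _ hk => ?_
      apply MvPolynomial.homogeneousComponent_eq_zero
      simp only [Finset.mem_range, not_lt] at hk
      omega
    rw [h3, map_sum]
    rw [map_sum] at h1
    rw [← h1]
    refine Finset.sum_congr rfl fun k _ => ?_
    rw [map_mul, map_pow, aeval_X, hx1, one_pow, one_mul, aeval_rename]
    rfl
  have h4 := hJ.1
  rw [algebraicIndependent_iff] at h4
  exact h4 p h2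

/-- **Dimension count.** -/
theorem exists_form_of_conditions [P.IsPrime] {n q : ℕ} (hq : q < n) {z : Fin n → FunField P} (hz : IsTranscendenceBasis ℂ z)
    (hX : ∃ i, (X i : MvPolynomial (Fin (N + 1)) ℂ) ∉ P) (K : ℕ) :
    ∃ d : ℕ, 1 ≤ d ∧ ∀ (V : Type) [AddCommGroup V] [Module ℂ V] [FiniteDimensional ℂ V], Module.finrank ℂ V ≤ K * d ^ q →
      ∀ L : MvPolynomial (Fin (N + 1)) ℂ →ₗ[ℂ] V,
      ∃ Q : MvPolynomial (Fin (N + 1)) ℂ, Q.IsHomogeneous d ∧ Q ∉ P ∧ L Q = 0 := by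
  obtain ⟨j, J, hJ⟩ := exists_coords hz hX
  -- the space of polynomials with exponents at most `e` in all variables
  obtain ⟨e, he⟩ : ∃ e : ℕ, e = K * n ^ q + 1 := ⟨_, rfl⟩
  obtain ⟨d, hd⟩ : ∃ d : ℕ, d = n * e := ⟨_, rfl⟩
  have hn : 1 ≤ n := by omega
  have he1 : 1 ≤ e := by omega
  refine ⟨d, by rw [hd]; exact Nat.mul_pos hn he1, fun V _ _ _ hV L => ?_⟩
  -- the map from coefficients to forms
  let mon : (Fin n → Fin (e + 1)) → MvPolynomial (Fin n) ℂ := fun a => monomial (Finsupp.equivFunOnFinite.symm fun i => (a i : ℕ)) 1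
  let Φ : ((Fin n → Fin (e + 1)) → ℂ) →ₗ[ℂ] MvPolynomial (Fin n) ℂ :=
    Fintype.linearCombination ℂ mon
  let Ψ : MvPolynomial (Fin n) ℂ →ₗ[ℂ] MvPolynomial (Fin (N + 1)) ℂ :=
    ∑ k ∈ Finset.range (d + 1), (LinearMap.mulLeft ℂ (X j ^ (d - k))) ∘ₗ (rename J).toLinearMap ∘ₗ homogeneousComponent k
  have hΨ : ∀ p, Ψ p = ∑ k ∈ Finset.range (d + 1), X j ^ (d - k) * rename J (homogeneousComponent k p) := by
    intro p
    simp only [Ψ, LinearMap.sum_apply, LinearMap.comp_apply, LinearMap.mulLeft_apply, AlgHom.toLinearMap_apply]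
  have hcard : Module.finrank ℂ V < Module.finrank ℂ ((Fin n → Fin (e + 1)) → ℂ) := by
    refine lt_of_le_of_lt hV ?_
    rw [Module.finrank_fintype_fun_eq_card, Fintype.card_fun, Fintype.card_fin, Fintype.card_fin]
    calc K * d ^ q = (K * n ^ q) * e ^ q := by rw [hd, mul_pow]; ring
      _ < (e + 1) * (e + 1) ^ q := by
          have h1 : e ^ q ≤ (e + 1) ^ q := Nat.pow_le_pow_left (by omega) q
          have h2 : 0 < (e + 1) ^ q := by positivity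
          calc (K * n ^ q) * e ^ q ≤ (K * n ^ q) * (e + 1) ^ q := Nat.mul_le_mul_left _ h1
            _ < (e + 1) * (e + 1) ^ q := Nat.mul_lt_mul_of_pos_right (by omega) h2
      _ = (e + 1) ^ (q + 1) := by rw [pow_succ, mul_comm]
      _ ≤ (e + 1) ^ n := Nat.pow_le_pow_right (by omega) hq
  obtain ⟨c, hc, hc0⟩ : ∃ c, (L ∘ₗ Ψ ∘ₗ Φ) c = 0 ∧ c ≠ 0 := by
    have h1 := LinearMap.ker_ne_bot_of_finrank_lt (f := L ∘ₗ Ψ ∘ₗ Φ) hcard
    obtain ⟨c, hc, hc0⟩ := Submodule.exists_mem_ne_zero_of_ne_bot h1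
    exact ⟨c, hc, hc0⟩
  have hΦ : Φ c ≠ 0 := by
    intro h0
    apply hc0
    have hinj : LinearIndependent ℂ mon := by
      have h2 : LinearIndependent ℂ (fun s : Fin n →₀ ℕ => monomial s (1 : ℂ)) := by
        have := (basisMonomials (Fin n) ℂ).linearIndependent
        rwa [coe_basisMonomials] at this
      refine h2.comp (fun a : Fin n → Fin (e + 1) => Finsupp.equivFunOnFinite.symm fun i => (a i : ℕ)) ?_
      intro a b hab
      funext i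
      have h3 := DFunLike.congr_fun hab i
      simp only [Finsupp.equivFunOnFinite_symm_apply_apply] at h3
      exact Fin.ext h3
    have h5 := Fintype.linearIndependent_iff.1 hinj c (by simpa [Φ, Fintype.linearCombination_apply] using h0)
    exact _root_.funext h5
  have hdeg : (Φ c).totalDegree ≤ d := by
    simp only [Φ, Fintype.linearCombination_apply]
    refine (totalDegree_finsetSum _ _).trans (Finset.sup_le fun a _ => ?_)
    refine (totalDegree_smul_le _ _).trans ?_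
    refine (totalDegree_monomial_le _ _).trans ?_
    rw [Finsupp.sum_fintype _ _ (fun _ => rfl)]
    simp only [Finsupp.equivFunOnFinite_symm_apply_apply]
    calc ∑ i, ((a i : ℕ)) ≤ ∑ _i : Fin n, e := Finset.sum_le_sum fun i _ => by have := (a i).2; omega
      _ = d := by rw [Finset.sum_const, Finset.card_univ, Fintype.card_fin, smul_eq_mul, hd]
  refine ⟨Ψ (Φ c), ?_, ?_, hc⟩
  · rw [hΨ]
    apply MvPolynomial.IsHomogeneous.sum
    intro k hk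
    have h1 : k ≤ d := Nat.lt_succ_iff.1 (Finset.mem_range.1 hk)
    have h2 := (MvPolynomial.isHomogeneous_X_pow (R := ℂ) j (d - k)).mul
      ((MvPolynomial.homogeneousComponent_isHomogeneous k (Φ c)).rename_isHomogeneous (f := J))
    rwa [Nat.sub_add_cancel h1] at h2
  · rw [hΨ]
    exact hJ d _ hΦ hdeg

end Pool.Agent.H22.AlgD

end
end

section

/-!
# TG HyC: the images of finitely many entire maps which are periodic as maps to the projective space lie in a hypersurface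
-/

set_option autoImplicit false

open Topology Filter Metric MvPolynomial
open Pool.Agent.H17LG.Variety (FunField)
open Pool.Agent.H22.AlgD (eval_smul_form analyticAt_eval monSpace taylor finrank_monSpace_le exists_form_of_conditions norm_le_of_iteratedFDeriv eq_zero_of_taylor)

namespace Pool.Agent.TG

variable {N n : ℕ}

theorem norm_eval_le {d : ℕ} {Q : MvPolynomial (Fin (N + 1)) ℂ} (hQ : Q.IsHomogeneous d) :
    ∃ C : ℝ, 0 ≤ C ∧ ∀ x : Fin (N + 1) → ℂ, ‖eval x Q‖ ≤ C * ‖x‖ ^ d := by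
  refine ⟨∑ m ∈ Q.support, ‖coeff m Q‖, Finset.sum_nonneg fun _ _ => norm_nonneg _, fun x => ?_⟩
  rw [MvPolynomial.eval_eq', Finset.sum_mul]
  refine (norm_sum_le _ _).trans (Finset.sum_le_sum fun m hm => ?_)
  rw [norm_mul, norm_prod]
  refine mul_le_mul_of_nonneg_left ?_ (norm_nonneg _)
  have hdeg : ∑ i, m i = d := by
    have := hQ (MvPolynomial.mem_support_iff.1 hm)
    rw [Finsupp.weight_apply] at this
    simpa [Finsupp.sum_fintype] using this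
  rw [← hdeg, ← Finset.prod_pow_eq_pow_sum]
  refine Finset.prod_le_prod (fun _ _ => norm_nonneg _) fun i _ => ?_
  rw [norm_pow]
  exact pow_le_pow_left₀ (norm_nonneg _) (norm_le_pi_norm x i) _

theorem analyticAt_of_entire {F : (Fin n → ℂ) → Fin (N + 1) → ℂ} (hF : Differentiable ℂ F) (w : Fin n → ℂ) : AnalyticAt ℂ F w := by
  obtain ⟨M, hM⟩ := (isCompact_closedBall w 1).bddAbove_image hF.continuous.norm.continuousOn
  refine Pool.Agent.TN.osgood_pi (r := 1) (M := M) one_pos (fun y hy => hM ⟨y, ball_subset_closedBall hy, rfl⟩) fun y _ l => ?_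
  have h1 : Differentiable ℂ fun t : ℂ => y + t • (Pi.single l 1 : Fin n → ℂ) := by fun_prop
  exact (hF _).comp 0 (h1 0)

/-- comparison on compact sets -/
theorem exists_cmp_unif {F : (Fin n → ℂ) → Fin (N + 1) → ℂ} (hF : Differentiable ℂ F) (hne : ∃ y, F y ≠ 0) {K : Set (Fin n → ℂ)} (hK : IsCompact K)
    (hext : ∀ y ∈ K, ∃ v, VAt F y v) :
    ∃ c : ℝ, 0 < c ∧ ∀ y ∈ K, ∀ v, VAt F y v → ∀ (d : ℕ) (Q : MvPolynomial (Fin (N + 1)) ℂ), Q.IsHomogeneous d →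
      ∃ y' : Fin n → ℂ, ‖y' - y‖ ≤ 1 ∧ c ^ d * ‖eval v Q‖ ≤ ‖v‖ ^ d * ‖eval (F y') Q‖ := by
  refine hK.induction_on (p := fun K => ∃ c : ℝ, 0 < c ∧ ∀ y ∈ K, ∀ v, VAt F y v → ∀ (d : ℕ) (Q : MvPolynomial (Fin (N + 1)) ℂ), Q.IsHomogeneous d →
      ∃ y' : Fin n → ℂ, ‖y' - y‖ ≤ 1 ∧ c ^ d * ‖eval v Q‖ ≤ ‖v‖ ^ d * ‖eval (F y') Q‖) ?_ ?_ ?_ ?_
  · exact ⟨1, one_pos, fun y hy => absurd hy (Set.notMem_empty y)⟩
  · rintro s t hst ⟨c, hc, h⟩
    exact ⟨c, hc, fun y hy => h y (hst hy)⟩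
  · rintro s t ⟨c, hc, h⟩ ⟨c', hc', h'⟩
    refine ⟨min c c', lt_min hc hc', fun y hy v hv d Q hQ => ?_⟩
    rcases hy with hy | hy
    · obtain ⟨y', h1, h2⟩ := h y hy v hv d Q hQ
      exact ⟨y', h1, (mul_le_mul_of_nonneg_right (pow_le_pow_left₀ (lt_min hc hc').le (min_le_left _ _) d) (norm_nonneg _)).trans h2⟩
    · obtain ⟨y', h1, h2⟩ := h' y hy v hv d Q hQ
      exact ⟨y', h1, (mul_le_mul_of_nonneg_right (pow_le_pow_left₀ (lt_min hc hc').le (min_le_right _ _) d) (norm_nonneg _)).trans h2⟩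
  · intro y₀ hy₀
    obtain ⟨v₀, hv₀⟩ := hext y₀ hy₀
    obtain ⟨c, hc, h⟩ := exists_cmp hF hne hv₀
    exact ⟨_, mem_nhdsWithin_of_mem_nhds h, c, hc, fun y hy => hy⟩

/-- **The images of finitely many entire maps `[F j] : ℂ^n → ℙ^N`, which are `Γ`-periodic and extend to holomorphic maps outside a closed thin
`Γ`-invariant set `D`, lie in a hypersurface which does not contain the `n+1`-dimensional variety of `P`.** -/
theorem exists_form_of_entire {J : ℕ} {P : Ideal (MvPolynomial (Fin (N + 1)) ℂ)} [P.IsPrime] {z : Fin (n + 1) → FunField P}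
    (hz : IsTranscendenceBasis ℂ z) (hX : ∃ i, (X i : MvPolynomial (Fin (N + 1)) ℂ) ∉ P)
    {Γ : AddSubgroup (Fin n → ℂ)} (hΓ : ∃ R : ℝ, ∀ y : Fin n → ℂ, ∃ l ∈ Γ, ‖y - l‖ ≤ R)
    {D : Set (Fin n → ℂ)} (hD : IsClosed D) (hinv : ∀ y ∈ D, ∀ l ∈ Γ, y + l ∈ D)
    (thin : ∀ y₀ : Fin n → ℂ, ∃ h : (Fin n → ℂ) → ℂ, AnalyticAt ℂ h y₀ ∧ (∀ᶠ z in 𝓝 y₀, z ∈ D → h z = 0) ∧ ¬ ∀ᶠ z in 𝓝 y₀, h z = 0)
    {F : Fin J → (Fin n → ℂ) → Fin (N + 1) → ℂ} (hF : ∀ j, Differentiable ℂ (F j)) (hne : ∀ j, ∃ y, F j y ≠ 0)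
    (hper : ∀ j, ∀ l ∈ Γ, ∀ y i k, F j (y + l) i * F j y k = F j (y + l) k * F j y i)
    (hext : ∀ j, ∀ y₀ ∉ D, ∃ φ : (Fin n → ℂ) → Fin (N + 1) → ℂ, AnalyticAt ℂ φ y₀ ∧ φ y₀ ≠ 0 ∧
      ∀ᶠ y in 𝓝 y₀, ∀ i k, F j y i * φ y k = F j y k * φ y i) :
    ∃ (d : ℕ) (Q : MvPolynomial (Fin (N + 1)) ℂ), 1 ≤ d ∧ Q.IsHomogeneous d ∧ Q ∉ P ∧ ∀ j y, eval (F j y) Q = 0 := by
  obtain ⟨R, hR⟩ := hΓ
  obtain ⟨R₁, hR₁⟩ : ∃ R₁ : ℝ, R₁ = 2 * (|R| + 2) := ⟨_, rfl⟩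
  have hR₁0 : 0 < R₁ := by
    have := abs_nonneg R
    linarith
  obtain ⟨δ, hδ, hcirc⟩ := exists_circle_unif hD thin (isCompact_closedBall (0 : Fin n → ℂ) R₁)
  obtain ⟨G, hG⟩ : ∃ G : Set (Fin n → ℂ), G = {y | ∀ b ∈ D, δ ≤ ‖y - b‖} := ⟨_, rfl⟩
  have hGc : IsClosed G := by
    have h1 : G = ⋂ b ∈ D, {y | δ ≤ ‖y - b‖} := by
      rw [hG]
      ext y
      simp
    rw [h1]
    exact isClosed_biInter fun b _ => isClosed_le continuous_const (by fun_prop)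
  have hGD : ∀ y ∈ G, y ∉ D := by
    intro y hy hyD
    rw [hG] at hy
    have := hy y hyD
    rw [sub_self, norm_zero] at this
    linarith
  have hext' : ∀ j, ∀ y ∈ G, ∃ v, VAt (F j) y v := by
    intro j y hy
    obtain ⟨φ, h1, h2, h3⟩ := hext j y (hGD y hy)
    exact ⟨φ y, φ, h1, rfl, h2, h3⟩
  obtain ⟨c, hc, hcmp⟩ : ∃ c : ℝ, 0 < c ∧ ∀ j, ∀ y ∈ closedBall (0 : Fin n → ℂ) |R| ∩ G, ∀ v, VAt (F j) y v →
      ∀ (d : ℕ) (Q : MvPolynomial (Fin (N + 1)) ℂ), Q.IsHomogeneous d →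
      ∃ y' : Fin n → ℂ, ‖y' - y‖ ≤ 1 ∧ c ^ d * ‖eval v Q‖ ≤ ‖v‖ ^ d * ‖eval (F j y') Q‖ := by
    have h1 := fun j => exists_cmp_unif (hF j) (hne j) ((isCompact_closedBall (0 : Fin n → ℂ) |R|).inter_right hGc)
      fun y hy => hext' j y hy.2
    choose c hc h2 using h1
    rcases Nat.eq_zero_or_pos J with rfl | hJ
    · exact ⟨1, one_pos, fun j => j.elim0⟩
    have : Nonempty (Fin J) := ⟨⟨0, hJ⟩⟩
    obtain ⟨i, hi⟩ := Finite.exists_min c
    refine ⟨c i, hc i, fun j y hy v hv d Q hQ => ?_⟩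
    obtain ⟨y', h3, h4⟩ := h2 j y hy v hv d Q hQ
    exact ⟨y', h3, (mul_le_mul_of_nonneg_right (pow_le_pow_left₀ (hc i).le (hi j) d) (norm_nonneg _)).trans h4⟩
  obtain ⟨C₁, hC₁, hbd⟩ : ∃ C₁ : ℝ, 0 < C₁ ∧ ∀ j, ∀ y ∈ closedBall (0 : Fin n → ℂ) (R₁ + 1), ‖F j y‖ ≤ C₁ := by
    have h1 : ∀ j, ∃ b : ℝ, ∀ y ∈ closedBall (0 : Fin n → ℂ) (R₁ + 1), ‖F j y‖ ≤ b := by
      intro j
      obtain ⟨b, hb⟩ := (isCompact_closedBall (0 : Fin n → ℂ) (R₁ + 1)).bddAbove_image (hF j).continuous.norm.continuousOn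
      exact ⟨b, fun y hy => hb ⟨y, hy, rfl⟩⟩
    choose b hb using h1
    refine ⟨1 + ∑ j, |b j|, by positivity, fun j y hy => (hb j y hy).trans ?_⟩
    have h2 : |b j| ≤ ∑ j, |b j| := Finset.single_le_sum (f := fun j => |b j|) (fun _ _ => abs_nonneg _) (Finset.mem_univ j)
    linarith [le_abs_self (b j)]
  obtain ⟨κ, hκ⟩ : ∃ κ : ℕ, C₁ * (1 / 2) ^ κ ≤ c / 2 := by
    obtain ⟨κ, hκ⟩ := exists_pow_lt_of_lt_one (show (0 : ℝ) < c / (2 * C₁) by positivity) (show (1 / 2 : ℝ) < 1 by norm_num)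
    refine ⟨κ, ?_⟩
    have h1 := mul_le_mul_of_nonneg_left hκ.le hC₁.le
    have h2 : C₁ * (c / (2 * C₁)) = c / 2 := by field_simp
    rwa [h2] at h1
  obtain ⟨d, hd, hcount⟩ := exists_form_of_conditions (Nat.lt_succ_self n) hz hX (J * κ ^ n)
  have hF00 : ∀ j, AnalyticAt ℂ (F j) 0 := fun j => analyticAt_of_entire (hF j) 0
  obtain ⟨Q, hQ, hQP, hQL⟩ := hcount ((i : Fin J) → monSpace n (κ * d))
    (by
      rw [Module.finrank_pi_fintype]
      calc ∑ _i : Fin J, Module.finrank ℂ (monSpace n (κ * d)) ≤ ∑ _i : Fin J, (κ * d) ^ n :=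
            Finset.sum_le_sum fun _ _ => finrank_monSpace_le _ _
        _ = J * κ ^ n * d ^ n := by
            rw [Finset.sum_const, Finset.card_univ, Fintype.card_fin, smul_eq_mul, mul_pow, mul_assoc])
    (LinearMap.pi fun i => taylor (hF00 i) (κ * d))
  have hQT : ∀ i, taylor (hF00 i) (κ * d) Q = 0 := fun i => congrFun hQL i
  refine ⟨d, Q, hd, hQ, hQP, ?_⟩
  have hQan : ∀ j y, AnalyticAt ℂ (fun w => eval (F j w) Q) y := fun j y => analyticAt_eval (analyticAt_of_entire (hF j) y) Q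
  -- the bound on `G` gives a bound on the ball
  have hstepA : ∀ S : ℝ, 0 ≤ S → (∀ j, ∀ y ∈ G, ∀ v, VAt (F j) y v → ‖eval v Q‖ ≤ S * ‖v‖ ^ d) →
      ∀ j, ∀ y ∈ closedBall (0 : Fin n → ℂ) R₁, ‖eval (F j y) Q‖ ≤ S * C₁ ^ d := by
    intro S hS hbdS j y hy
    obtain ⟨e, r, hr, hre, hc'⟩ := hcirc y hy
    have hgd : DiffContOnCl ℂ (fun t : ℂ => eval (F j (y + t • e)) Q) (ball 0 r) := by
      refine Differentiable.diffContOnCl fun t => ?_
      have h1 : Differentiable ℂ fun t : ℂ => y + t • e := by fun_prop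
      exact DifferentiableAt.comp (g := fun w => eval (F j w) Q) (f := fun t : ℂ => y + t • e) t (hQan j (y + t • e)).differentiableAt (h1 t)
    obtain ⟨t, ht, hmax⟩ := Complex.exists_mem_frontier_isMaxOn_norm isBounded_ball (nonempty_ball.2 hr) hgd
    rw [frontier_ball _ hr.ne', mem_sphere_zero_iff_norm] at ht
    have h7 : ‖eval (F j (y + (0 : ℂ) • e)) Q‖ ≤ ‖eval (F j (y + t • e)) Q‖ := hmax (subset_closure (mem_ball_self hr))
    rw [zero_smul, add_zero] at h7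
    have hyG : y + t • e ∈ G := by
      rw [hG]
      exact fun b hb => hc' t ht b hb
    obtain ⟨v, hv⟩ := hext' j _ hyG
    have h8 := hbdS j _ hyG v hv
    obtain ⟨φ, hφ, hφv, hv0, h9⟩ := hv
    obtain ⟨g, hg⟩ := (h9.self_of_nhds).smul (by rw [hφv]; exact hv0)
    rw [hφv] at hg
    have h10 : ‖F j (y + t • e)‖ ≤ C₁ := by
      refine hbd j _ ?_
      rw [mem_closedBall_zero_iff] at hy ⊢
      calc ‖y + t • e‖ ≤ ‖y‖ + ‖t • e‖ := norm_add_le _ _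
        _ ≤ R₁ + 1 := by
          rw [norm_smul, ht]
          linarith
    refine h7.trans ?_
    calc ‖eval (F j (y + t • e)) Q‖ = ‖g‖ ^ d * ‖eval v Q‖ := by rw [hg, eval_smul_form hQ, norm_mul, norm_pow]
      _ ≤ ‖g‖ ^ d * (S * ‖v‖ ^ d) := mul_le_mul_of_nonneg_left h8 (by positivity)
      _ = S * ‖F j (y + t • e)‖ ^ d := by
        rw [hg, norm_smul]
        ring
      _ ≤ S * C₁ ^ d := mul_le_mul_of_nonneg_left (pow_le_pow_left₀ (norm_nonneg _) h10 d) hS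
  -- the bound can be halved
  have hstepB : ∀ S : ℝ, 0 ≤ S → (∀ j, ∀ y ∈ G, ∀ v, VAt (F j) y v → ‖eval v Q‖ ≤ S * ‖v‖ ^ d) →
      ∀ j, ∀ y ∈ G, ∀ v, VAt (F j) y v → ‖eval v Q‖ ≤ S / 2 * ‖v‖ ^ d := by
    intro S hS hbdS j y hy v hv
    obtain ⟨l, hl, hyl⟩ := hR y
    have hl' : -l ∈ Γ := Γ.neg_mem hl
    have hv' : VAt (F j) (y - l) v := by
      rw [sub_eq_add_neg]
      exact hv.shift (hF j) (hne j) fun w => hper j (-l) hl' w
    have hylG : y - l ∈ G := by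
      rw [hG] at hy ⊢
      intro b hb
      rw [sub_sub, add_comm]
      exact hy _ (hinv b hb l hl)
    obtain ⟨y', hy', h1⟩ := hcmp j (y - l) ⟨mem_closedBall_zero_iff.2 (hyl.trans (le_abs_self R)), hylG⟩ v hv' d Q hQ
    have hy'n : ‖y'‖ ≤ |R| + 1 := by
      calc ‖y'‖ = ‖(y' - (y - l)) + (y - l)‖ := by rw [sub_add_cancel]
        _ ≤ ‖y' - (y - l)‖ + ‖y - l‖ := norm_add_le _ _
        _ ≤ |R| + 1 := by linarith [hyl.trans (le_abs_self R)]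
    have hy'b : y' ∈ ball (0 : Fin n → ℂ) R₁ := by
      rw [mem_ball_zero_iff]
      linarith [abs_nonneg R]
    have h2 : ‖eval (F j y') Q‖ ≤ S * C₁ ^ d * (‖y'‖ / R₁) ^ (κ * d) :=
      norm_le_of_iteratedFDeriv (E := Fin n → ℂ) (m := κ * d) (G := fun w => eval (F j w) Q) hR₁0 (fun w _ => hQan j w)
        (fun w hw => hstepA S hS hbdS j w (ball_subset_closedBall hw)) (fun k hk w => eq_zero_of_taylor (hF00 j) (hQT j) hk w) hy'b
    have h3 : (‖y'‖ / R₁) ^ (κ * d) ≤ (1 / 2) ^ (κ * d) := by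
      refine pow_le_pow_left₀ (by positivity) ?_ _
      rw [div_le_iff₀ hR₁0]
      linarith
    have h4 : ‖eval (F j y') Q‖ ≤ S * (C₁ * (1 / 2) ^ κ) ^ d := by
      calc ‖eval (F j y') Q‖ ≤ S * C₁ ^ d * (‖y'‖ / R₁) ^ (κ * d) := h2
        _ ≤ S * C₁ ^ d * (1 / 2) ^ (κ * d) := mul_le_mul_of_nonneg_left h3 (by positivity)
        _ = S * (C₁ * (1 / 2) ^ κ) ^ d := by
          rw [pow_mul]
          ring
    have h5 : (C₁ * (1 / 2) ^ κ) ^ d ≤ c ^ d * (1 / 2) := by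
      calc (C₁ * (1 / 2) ^ κ) ^ d ≤ (c / 2) ^ d := pow_le_pow_left₀ (by positivity) hκ d
        _ = c ^ d * (1 / 2) ^ d := by
          rw [← mul_pow]
          ring
        _ ≤ c ^ d * (1 / 2) ^ 1 := mul_le_mul_of_nonneg_left (pow_le_pow_of_le_one (by norm_num) (by norm_num) hd) (by positivity)
        _ = c ^ d * (1 / 2) := by rw [pow_one]
    have h6 : c ^ d * ‖eval v Q‖ ≤ c ^ d * (S / 2 * ‖v‖ ^ d) := by
      calc c ^ d * ‖eval v Q‖ ≤ ‖v‖ ^ d * ‖eval (F j y') Q‖ := h1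
        _ ≤ ‖v‖ ^ d * (S * (c ^ d * (1 / 2))) :=
          mul_le_mul_of_nonneg_left (h4.trans (mul_le_mul_of_nonneg_left h5 hS)) (by positivity)
        _ = c ^ d * (S / 2 * ‖v‖ ^ d) := by ring
    exact le_of_mul_le_mul_left h6 (by positivity)
  -- so the form vanishes
  obtain ⟨C, hC, hCb⟩ := norm_eval_le hQ
  have hk : ∀ k : ℕ, ∀ j, ∀ y ∈ G, ∀ v, VAt (F j) y v → ‖eval v Q‖ ≤ C / 2 ^ k * ‖v‖ ^ d := by
    intro k
    induction k with
    | zero =>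
      intro j y _ v _
      rw [pow_zero, div_one]
      exact hCb v
    | succ k ih =>
      have h1 := hstepB (C / 2 ^ k) (by positivity) ih
      intro j y hy v hv
      have h2 := h1 j y hy v hv
      rwa [div_div, ← pow_succ] at h2
  have h0 : ∀ j, ∀ y ∈ G, ∀ v, VAt (F j) y v → ‖eval v Q‖ ≤ 0 * ‖v‖ ^ d := by
    intro j y hy v hv
    have ht : Tendsto (fun k : ℕ => C / 2 ^ k * ‖v‖ ^ d) atTop (𝓝 (0 * ‖v‖ ^ d)) := by
      refine Tendsto.mul_const _ ?_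
      have h1 : Tendsto (fun k : ℕ => C * (1 / 2 : ℝ) ^ k) atTop (𝓝 (C * 0)) :=
        (tendsto_pow_atTop_nhds_zero_of_lt_one (by norm_num) (by norm_num)).const_mul C
      rw [mul_zero] at h1
      refine h1.congr fun k => ?_
      rw [one_div, inv_pow, div_eq_mul_inv]
    exact ge_of_tendsto' ht fun k => hk k j y hy v hv
  intro j
  have h1 : ∀ y ∈ closedBall (0 : Fin n → ℂ) R₁, eval (F j y) Q = 0 := by
    intro y hy
    have h2 := hstepA 0 le_rfl h0 j y hy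
    rw [zero_mul] at h2
    exact norm_le_zero_iff.1 h2
  have h2 : (fun y => eval (F j y) Q) =ᶠ[𝓝 0] fun _ => (0 : ℂ) := by
    filter_upwards [closedBall_mem_nhds (0 : Fin n → ℂ) hR₁0] with y hy using h1 y hy
  have h3 : AnalyticOnNhd ℂ (fun y => eval (F j y) Q) Set.univ := fun y _ => hQan j y
  have h4 := h3.eq_of_eventuallyEq (g := fun _ => (0 : ℂ)) (fun y _ => analyticAt_const) h2
  exact fun y => congrFun h4 y

end Pool.Agent.TG

end

section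

/-!
# G3 F Hyp: the images of finitely many periodic meromorphic maps lie in a hypersurface

`TG.exists_form_of_entire` (`TG/HyC`) is the same statement for maps with entire lifts `F j`.  Here there are only local lifts.  Plan: same proof with finitely many centres.  Let `R` be the constant of `hΓ`.
For every `j` and `y₀` in the ball of radius `R + 3` choose `r` and a lift `φ`, analytic on `closedBall y₀ (4 r)`; finitely many balls `ball (c i) (r i)` cover, lifts `φ j i`.  `exists_form_of_conditions` gives for large `d` a form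
`Q ∉ P` of degree `d` such that all `Q ∘ φ j i` vanish of order `κ d` at `c i` (the number of conditions is `≤ const κ ^ n d ^ n`).  As in `exists_form_of_entire`: a bound `‖eval v Q‖ ≤ S ‖v‖ ^ d` for all points `v` over
`Φ j y`, `y ∈ Gd D δ` (`δ` from `exists_circle_unif`), gives by the maximum principle on circles in `Gd D δ` a bound `S C₁ ^ d` for `Q ∘ φ j i` on `ball (c i) (2 r i)`, by the Schwarz lemma `S C₁ ^ d 2 ^ (- κ d)` on
`ball (c i) (r i)`, and by comparison (`exists_cmp`: the lifts `φ j i` are multiples of lifts without zeros near the points of `Gd D δ`, on circles around the point the factor is bounded below) the bound with `S / 2` instead of `S`.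
So `S = 0`: `Q = 0` at all points over `Φ j y`, `y ∈ Gd D δ`, and by the identity theorem for all `y ∉ D` (or: the whole argument for all small `δ`).
-/

set_option autoImplicit false

open Topology Filter Metric MvPolynomial

namespace Pool.Agent.G3

open Pool.Agent.H17 (PN VanishesAt HolomorphicInto puncturedDisc)
open Pool.Agent.H62.FC (Homog)
open Pool.Agent.H17LG.Variety (FunField IsLogGeneralType)
open Pool.Agent.H17EF (projVar coneE LE mem_coneE mk_mem_projVar)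
open Pool.Agent.H36.BP (EN wd)
open Pool.Agent.H14.PP (IsCone CurveAt Tan)
open Pool.Agent.H62.EF (MN pr)
open Pool.Agent.AD (Vd Chart Charts)

/-- small circles of size at most `ε` -/
private theorem circle_small {n : ℕ} {D : Set (Vd n)} (hD : IsClosed D)
    (thin : ∀ y₀ : Vd n, ∃ h : Vd n → ℂ, AnalyticAt ℂ h y₀ ∧ (∀ᶠ z in 𝓝 y₀, z ∈ D → h z = 0) ∧ ¬ ∀ᶠ z in 𝓝 y₀, h z = 0)
    {K : Set (Vd n)} (hK : IsCompact K) {ε : ℝ} (hε : 0 < ε) :
    ∃ δ : ℝ, 0 < δ ∧ ∀ y ∈ K, ∃ (e : Vd n) (r : ℝ), 0 < r ∧ r * ‖e‖ ≤ ε ∧ ∀ t : ℂ, ‖t‖ = r → ∀ b ∈ D, δ ≤ ‖y + t • e - b‖ := by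
  have hεC : (ε : ℂ) ≠ 0 := by exact_mod_cast hε.ne'
  have hnε : ‖(ε : ℂ)‖ = ε := by rw [Complex.norm_real, Real.norm_of_nonneg hε.le]
  have hsc : ∀ y : Vd n, AnalyticAt ℂ (fun y : Vd n => (ε : ℂ) • y) y := fun y => by fun_prop
  have hct : ∀ y : Vd n, Tendsto (fun y : Vd n => (ε : ℂ) • y) (𝓝 y) (𝓝 ((ε : ℂ) • y)) := fun y => (hsc y).continuousAt.tendsto
  obtain ⟨δ, hδ, h⟩ := Pool.Agent.TG.exists_circle_unif (D := (fun y : Vd n => (ε : ℂ) • y) ⁻¹' D) (hD.preimage (by fun_prop)) (fun y₀ => by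
    obtain ⟨h, h1, h2, h3⟩ := thin ((ε : ℂ) • y₀)
    refine ⟨fun y => h ((ε : ℂ) • y), AnalyticAt.fun_comp (g := h) (f := fun y : Vd n => (ε : ℂ) • y) h1 (hsc y₀), (hct y₀).eventually h2, fun h4 => h3 ?_⟩
    have ht : Tendsto (fun y : Vd n => (ε : ℂ)⁻¹ • y) (𝓝 ((ε : ℂ) • y₀)) (𝓝 y₀) := by
      have h5 : Continuous fun y : Vd n => (ε : ℂ)⁻¹ • y := by fun_prop
      have h6 := h5.tendsto ((ε : ℂ) • y₀)
      rwa [smul_smul, inv_mul_cancel₀ hεC, one_smul] at h6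
    filter_upwards [ht.eventually h4] with y hy
    rwa [smul_smul, mul_inv_cancel₀ hεC, one_smul] at hy) (hK.image (f := fun y : Vd n => (ε : ℂ)⁻¹ • y) (by fun_prop))
  refine ⟨ε * δ, by positivity, fun y hy => ?_⟩
  obtain ⟨e, r, hr, hre, h1⟩ := h _ ⟨y, hy, rfl⟩
  refine ⟨(ε : ℂ) • e, r, hr, ?_, fun t ht b hb => ?_⟩
  · rw [norm_smul, hnε]
    nlinarith
  · have h2 := h1 t ht ((ε : ℂ)⁻¹ • b) (by
      show (ε : ℂ) • ((ε : ℂ)⁻¹ • b) ∈ D
      rwa [smul_smul, mul_inv_cancel₀ hεC, one_smul])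
    have h3 : y + t • ((ε : ℂ) • e) - b = (ε : ℂ) • ((ε : ℂ)⁻¹ • y + t • e - (ε : ℂ)⁻¹ • b) := by
      have h4 : ∀ w : Vd n, (ε : ℂ) • ((ε : ℂ)⁻¹ • w) = w := fun w => by rw [smul_smul, mul_inv_cancel₀ hεC, one_smul]
      rw [smul_sub, smul_add, h4, h4, smul_comm t]
    rw [h3, norm_smul, hnε]
    exact mul_le_mul_of_nonneg_left h2 hε.le

/-- the comparison of the value of a form at a point with the values along a lift -/
private theorem cmp {N n : ℕ} {φ ψ : Vd n → EN N} {f : Vd n → MN N} {y₀ : Vd n} (hφ : AnalyticAt ℂ φ y₀) (hne : ¬ ∀ᶠ z in 𝓝 y₀, φ z = 0)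
    (hψ : AnalyticAt ℂ ψ y₀) (hψ0 : ψ y₀ ≠ 0) (h1 : ∀ᶠ z in 𝓝 y₀, φ z ≠ 0 → f z = pr (φ z)) (h2 : ∀ᶠ z in 𝓝 y₀, f z = pr (ψ z)) {ε : ℝ} (hε : 0 < ε) :
    ∃ c : ℝ, 0 < c ∧ ∀ᶠ y in 𝓝 y₀, ∀ x : EN N, x ≠ 0 → pr x = f y → ∀ (d : ℕ) (q : EN N → ℂ), (∀ (a : ℂ) (x : EN N), q (a • x) = a ^ d * q x) →
      Differentiable ℂ q → ∃ y' : Vd n, ‖y' - y‖ ≤ ε ∧ c ^ d * ‖q x‖ ≤ ‖x‖ ^ d * ‖q (φ y')‖ := by
  have hn0 : 0 < ‖ψ y₀‖ := norm_pos_iff.2 hψ0
  have h3 : ∀ᶠ z in 𝓝 y₀, (AnalyticAt ℂ ψ z ∧ AnalyticAt ℂ φ z) ∧ (φ z ≠ 0 → f z = pr (φ z)) ∧ f z = pr (ψ z) ∧ ‖ψ y₀‖ / 2 < ‖ψ z‖ ∧ ‖ψ z‖ < 2 * ‖ψ y₀‖ :=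
    (hψ.eventually_analyticAt.and hφ.eventually_analyticAt).and (h1.and (h2.and ((hψ.continuousAt.norm.eventually (lt_mem_nhds (by linarith))).and
      (hψ.continuousAt.norm.eventually (gt_mem_nhds (by linarith))))))
  obtain ⟨ρ, hρ, h4⟩ := Metric.eventually_nhds_iff_ball.1 h3
  -- a direction
  obtain ⟨e, he⟩ : ∃ e : Vd n, ∀ᶠ t in 𝓝[≠] (0 : ℂ), φ (y₀ + t • e) ≠ 0 := by
    have h5 : ∃ i : Fin (N + 1), ¬ ∀ᶠ z in 𝓝 y₀, φ z i = 0 := by
      by_contra hcon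
      push Not at hcon
      apply hne
      filter_upwards [eventually_all.2 hcon] with z hz
      ext i
      exact hz i
    obtain ⟨i, hi⟩ := h5
    have h6 : AnalyticAt ℂ (fun z => φ z i) y₀ := by
      have h7 := ((EuclideanSpace.proj i : EN N →L[ℂ] ℂ).analyticAt (φ y₀)).comp hφ
      exact h7
    obtain ⟨e, he⟩ := Pool.Agent.TG.exists_dir h6 hi
    refine ⟨e, ?_⟩
    filter_upwards [he] with t ht h0
    apply ht
    rw [h0]
    rfl
  rw [eventually_nhdsWithin_iff, Metric.eventually_nhds_iff] at he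
  obtain ⟨η, hη, h5⟩ := he
  obtain ⟨r, hr⟩ : ∃ r : ℝ, r = min (η / 2) (min ε (ρ / 2) / (‖e‖ + 1)) := ⟨_, rfl⟩
  have he1 : 0 < ‖e‖ + 1 := by positivity
  have hm : 0 < min ε (ρ / 2) := lt_min hε (by linarith)
  have hr0 : 0 < r := by
    rw [hr]
    exact lt_min (by linarith) (div_pos hm he1)
  have hrη : r < η := lt_of_le_of_lt (hr ▸ min_le_left _ _) (by linarith)
  have hre : r * ‖e‖ ≤ min ε (ρ / 2) := by
    have h6 : r ≤ min ε (ρ / 2) / (‖e‖ + 1) := hr ▸ min_le_right _ _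
    rw [le_div_iff₀ he1] at h6
    nlinarith [norm_nonneg e]
  have hre1 : r * ‖e‖ ≤ ε := hre.trans (min_le_left _ _)
  have hreρ : r * ‖e‖ ≤ ρ / 2 := hre.trans (min_le_right _ _)
  have h6 : ∀ t ∈ sphere (0 : ℂ) r, φ (y₀ + t • e) ≠ 0 := by
    intro t ht
    rw [mem_sphere_zero_iff_norm] at ht
    refine h5 ?_ ?_
    · rw [dist_zero_right, ht]
      exact hrη
    · intro h0
      rw [Set.mem_singleton_iff] at h0
      rw [h0, norm_zero] at ht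
      linarith
  have hin : ∀ t ∈ closedBall (0 : ℂ) r, ∀ y : Vd n, dist y y₀ < ρ / 2 → y + t • e ∈ ball y₀ ρ := by
    intro t ht y hy
    rw [mem_closedBall_zero_iff] at ht
    rw [mem_ball]
    calc dist (y + t • e) y₀ ≤ dist (y + t • e) y + dist y y₀ := dist_triangle _ _ _
      _ < ρ / 2 + ρ / 2 := by
        refine add_lt_add_of_le_of_lt ?_ hy
        rw [dist_eq_norm, add_sub_cancel_left, norm_smul]
        exact (mul_le_mul_of_nonneg_right ht (norm_nonneg e)).trans hreρ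
      _ = ρ := by ring
  have hy₀ρ : dist y₀ y₀ < ρ / 2 := by
    rw [dist_self]
    linarith
  have hcs : ContinuousOn (fun t : ℂ => ‖φ (y₀ + t • e)‖) (sphere 0 r) := by
    intro t ht
    have h7 : ContinuousAt φ (y₀ + t • e) := (h4 _ (hin t (sphere_subset_closedBall ht) y₀ hy₀ρ)).1.2.continuousAt
    have h8 : ContinuousAt (fun t : ℂ => y₀ + t • e) t := by fun_prop
    exact (ContinuousAt.comp (g := φ) (f := fun t : ℂ => y₀ + t • e) h7 h8).norm.continuousWithinAt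
  obtain ⟨t₀, ht₀, hmin⟩ := (isCompact_sphere (0 : ℂ) r).exists_isMinOn (NormedSpace.sphere_nonempty.2 hr0.le) hcs
  obtain ⟨c₂, hc₂⟩ : ∃ c₂ : ℝ, c₂ = ‖φ (y₀ + t₀ • e)‖ := ⟨_, rfl⟩
  have hc₂0 : 0 < c₂ := by
    rw [hc₂]
    exact norm_pos_iff.2 (h6 t₀ ht₀)
  have h7 : ∀ᶠ y in 𝓝 y₀, ∀ t ∈ sphere (0 : ℂ) r, c₂ / 2 < ‖φ (y + t • e)‖ := by
    refine (isCompact_sphere (0 : ℂ) r).eventually_forall_of_forall_eventually fun t ht => ?_
    have h8 : c₂ / 2 < ‖φ (y₀ + t • e)‖ := by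
      have h9 : c₂ ≤ ‖φ (y₀ + t • e)‖ := by
        rw [hc₂]
        exact hmin ht
      linarith
    have h9 : ContinuousAt φ (y₀ + t • e) := (h4 _ (hin t (sphere_subset_closedBall ht) y₀ hy₀ρ)).1.2.continuousAt
    have h10 : ContinuousAt (fun z : Vd n × ℂ => z.1 + z.2 • e) (y₀, t) := by fun_prop
    have h11 : ContinuousAt (fun z : Vd n × ℂ => ‖φ (z.1 + z.2 • e)‖) (y₀, t) :=
      (ContinuousAt.comp (g := φ) (f := fun z : Vd n × ℂ => z.1 + z.2 • e) h9 h10).norm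
    exact h11.eventually (lt_mem_nhds h8)
  have hb : ∀ᶠ y in 𝓝 y₀, dist y y₀ < ρ / 2 := Metric.eventually_nhds_iff.2 ⟨ρ / 2, by linarith, fun {y} hy => hy⟩
  refine ⟨c₂ / 2 * (‖ψ y₀‖ / 2) / (2 * ‖ψ y₀‖), by positivity, ?_⟩
  filter_upwards [h7, hb] with y hy1 hy2 x hx0 hxy d q hqh hqd
  -- the maximum of the form on the circle
  have hGan : ∀ t ∈ closedBall (0 : ℂ) r, DifferentiableAt ℂ (fun t : ℂ => q (ψ (y + t • e))) t := by
    intro t ht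
    have h8 : DifferentiableAt ℂ ψ (y + t • e) := (h4 _ (hin t ht y hy2)).1.1.differentiableAt
    have h9 : DifferentiableAt ℂ (fun t : ℂ => y + t • e) t := by fun_prop
    exact (hqd _).comp t (DifferentiableAt.comp (g := ψ) (f := fun t : ℂ => y + t • e) t h8 h9)
  have hGd : DiffContOnCl ℂ (fun t : ℂ => q (ψ (y + t • e))) (ball 0 r) := by
    constructor
    · exact fun t ht => (hGan t (ball_subset_closedBall ht)).differentiableWithinAt
    · rw [closure_ball _ hr0.ne']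
      exact fun t ht => (hGan t ht).continuousAt.continuousWithinAt
  obtain ⟨t, ht, hmax⟩ := Complex.exists_mem_frontier_isMaxOn_norm isBounded_ball (nonempty_ball.2 hr0) hGd
  rw [frontier_ball _ hr0.ne'] at ht
  have h8 : ‖q (ψ (y + (0 : ℂ) • e))‖ ≤ ‖q (ψ (y + t • e))‖ := hmax (subset_closure (mem_ball_self hr0))
  rw [zero_smul, add_zero] at h8
  have htc : t ∈ closedBall (0 : ℂ) r := sphere_subset_closedBall ht
  obtain ⟨-, ha1, ha2, hb2, hb3⟩ := h4 _ (hin t htc y hy2)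
  have hd0 := hin 0 (mem_closedBall_self hr0.le) y hy2
  rw [zero_smul, add_zero] at hd0
  obtain ⟨-, -, hp0, hb20, hb30⟩ := h4 _ hd0
  have hψy : ψ y ≠ 0 := fun h => by
    rw [h, norm_zero] at hb20
    linarith
  have hψt : ψ (y + t • e) ≠ 0 := fun h => by
    rw [h, norm_zero] at hb2
    linarith
  have hφt : φ (y + t • e) ≠ 0 := fun h => by
    have h9 := hy1 t ht
    rw [h, norm_zero] at h9
    linarith
  obtain ⟨g, -, hg⟩ := (Pool.Agent.H62.EF.pr_eq_iff hφt hψt).1 ((ha1 hφt).symm.trans ha2)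
  obtain ⟨a, -, ha⟩ := (Pool.Agent.H62.EF.pr_eq_iff hx0 hψy).1 (hxy.trans hp0)
  refine ⟨y + t • e, ?_, ?_⟩
  · rw [add_sub_cancel_left, norm_smul]
    rw [mem_sphere_zero_iff_norm] at ht
    rw [ht]
    exact hre1
  · have hg1 : c₂ / 2 / (2 * ‖ψ y₀‖) ≤ ‖g‖ := by
      rw [div_le_iff₀ (by positivity)]
      have h9 := hy1 t ht
      rw [hg, norm_smul] at h9
      have h10 : ‖g‖ * ‖ψ (y + t • e)‖ ≤ ‖g‖ * (2 * ‖ψ y₀‖) := mul_le_mul_of_nonneg_left hb3.le (norm_nonneg g)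
      linarith
    have h10 : c₂ / 2 * (‖ψ y₀‖ / 2) / (2 * ‖ψ y₀‖) ≤ ‖g‖ * ‖ψ y‖ := by
      calc c₂ / 2 * (‖ψ y₀‖ / 2) / (2 * ‖ψ y₀‖) = c₂ / 2 / (2 * ‖ψ y₀‖) * (‖ψ y₀‖ / 2) := by ring
        _ ≤ ‖g‖ * ‖ψ y‖ := mul_le_mul hg1 hb20.le (by positivity) (norm_nonneg g)
    have h11 : (c₂ / 2 * (‖ψ y₀‖ / 2) / (2 * ‖ψ y₀‖)) ^ d ≤ (‖g‖ * ‖ψ y‖) ^ d := pow_le_pow_left₀ (by positivity) h10 d
    rw [hg, ha, hqh, hqh, norm_mul, norm_mul, norm_pow, norm_pow, norm_smul]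
    calc (c₂ / 2 * (‖ψ y₀‖ / 2) / (2 * ‖ψ y₀‖)) ^ d * (‖a‖ ^ d * ‖q (ψ y)‖)
        ≤ (‖g‖ * ‖ψ y‖) ^ d * (‖a‖ ^ d * ‖q (ψ (y + t • e))‖) :=
          mul_le_mul h11 (mul_le_mul_of_nonneg_left h8 (by positivity)) (by positivity) (by positivity)
      _ = (‖a‖ * ‖ψ y‖) ^ d * (‖g‖ ^ d * ‖q (ψ (y + t • e))‖) := by ring

/-- uniformly on compact sets -/
private theorem cmp_unif {N n : ℕ} {φ : Vd n → EN N} {f : Vd n → MN N} {K : Set (Vd n)} (hK : IsCompact K)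
    (h : ∀ y₀ ∈ K, AnalyticAt ℂ φ y₀ ∧ (¬ ∀ᶠ z in 𝓝 y₀, φ z = 0) ∧ (∀ᶠ z in 𝓝 y₀, φ z ≠ 0 → f z = pr (φ z)) ∧
      ∃ ψ : Vd n → EN N, AnalyticAt ℂ ψ y₀ ∧ ψ y₀ ≠ 0 ∧ ∀ᶠ z in 𝓝 y₀, f z = pr (ψ z)) {ε : ℝ} (hε : 0 < ε) :
    ∃ c : ℝ, 0 < c ∧ ∀ y ∈ K, ∀ x : EN N, x ≠ 0 → pr x = f y → ∀ (d : ℕ) (q : EN N → ℂ), (∀ (a : ℂ) (x : EN N), q (a • x) = a ^ d * q x) →
      Differentiable ℂ q → ∃ y' : Vd n, ‖y' - y‖ ≤ ε ∧ c ^ d * ‖q x‖ ≤ ‖x‖ ^ d * ‖q (φ y')‖ := by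
  refine hK.induction_on (p := fun K => ∃ c : ℝ, 0 < c ∧ ∀ y ∈ K, ∀ x : EN N, x ≠ 0 → pr x = f y → ∀ (d : ℕ) (q : EN N → ℂ),
      (∀ (a : ℂ) (x : EN N), q (a • x) = a ^ d * q x) → Differentiable ℂ q → ∃ y' : Vd n, ‖y' - y‖ ≤ ε ∧ c ^ d * ‖q x‖ ≤ ‖x‖ ^ d * ‖q (φ y')‖) ?_ ?_ ?_ ?_
  · exact ⟨1, one_pos, fun y hy => absurd hy (Set.notMem_empty y)⟩
  · rintro s t hst ⟨c, hc, h⟩
    exact ⟨c, hc, fun y hy => h y (hst hy)⟩
  · rintro s t ⟨c, hc, h⟩ ⟨c', hc', h'⟩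
    refine ⟨min c c', lt_min hc hc', fun y hy x hx hxy d q hq hqd => ?_⟩
    rcases hy with hy | hy
    · obtain ⟨y', h1, h2⟩ := h y hy x hx hxy d q hq hqd
      exact ⟨y', h1, (mul_le_mul_of_nonneg_right (pow_le_pow_left₀ (lt_min hc hc').le (min_le_left _ _) d) (norm_nonneg _)).trans h2⟩
    · obtain ⟨y', h1, h2⟩ := h' y hy x hx hxy d q hq hqd
      exact ⟨y', h1, (mul_le_mul_of_nonneg_right (pow_le_pow_left₀ (lt_min hc hc').le (min_le_right _ _) d) (norm_nonneg _)).trans h2⟩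
  · intro y₀ hy₀
    obtain ⟨h1, h2, h3, ψ, h4, h5, h6⟩ := h y₀ hy₀
    obtain ⟨c, hc, h7⟩ := cmp h1 h2 h4 h5 h3 h6 hε
    exact ⟨_, mem_nhdsWithin_of_mem_nhds h7, c, hc, fun y hy => hy⟩

/-- lifts near a point, for all maps on the same ball -/
private theorem lifts_at {N n J : ℕ} {D : Set (Vd n)} {Φ : Fin J → Vd n → MN N}
    (hmer : ∀ j, ∀ y₀ : Vd n, ∃ φ : Vd n → EN N, AnalyticAt ℂ φ y₀ ∧ (¬ ∀ᶠ z in 𝓝 y₀, φ z = 0) ∧ ∀ᶠ z in 𝓝 y₀, z ∉ D → φ z ≠ 0 → Φ j z = pr (φ z)) (y₀ : Vd n) :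
    ∃ (ρ : ℝ) (φ : Fin J → Vd n → EN N), 0 < ρ ∧ ∀ j, ∀ y ∈ ball y₀ (6 * ρ), AnalyticAt ℂ (φ j) y ∧ (¬ ∀ᶠ z in 𝓝 y, φ j z = 0) ∧
      (y ∉ D → φ j y ≠ 0 → Φ j y = pr (φ j y)) := by
  choose φ h1 h2 h3 using fun j => hmer j y₀
  have h4 : ∀ᶠ z in 𝓝 y₀, ∀ j, AnalyticAt ℂ (φ j) z ∧ (z ∉ D → φ j z ≠ 0 → Φ j z = pr (φ j z)) :=
    eventually_all.2 fun j => (h1 j).eventually_analyticAt.and (h3 j)
  obtain ⟨r, hr, h5⟩ := Metric.eventually_nhds_iff_ball.1 h4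
  refine ⟨r / 6, φ, by positivity, fun j y hy => ?_⟩
  have e : 6 * (r / 6) = r := by ring
  rw [e] at hy
  refine ⟨(h5 y hy j).1, fun h6 => h2 j ?_, (h5 y hy j).2⟩
  have h7 := AnalyticOnNhd.eqOn_zero_of_preconnected_of_eventuallyEq_zero (f := φ j) (U := ball y₀ r) (fun z hz => (h5 z hz j).1)
    (convex_ball y₀ r).isPreconnected hy h6
  filter_upwards [ball_mem_nhds y₀ hr] with z hz
  exact h7 hz

private theorem exists_pos_le {ι : Type*} (t : Finset ι) {J : ℕ} {g : ι → Fin J → ℝ} (hg : ∀ c j, 0 < g c j) : ∃ ε : ℝ, 0 < ε ∧ ∀ c ∈ t, ∀ j, ε ≤ g c j := by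
  have h1 : ∀ᶠ ε in 𝓝[>] (0 : ℝ), ∀ c ∈ t, ∀ j, ε ≤ g c j := by
    rw [Filter.eventually_all_finset]
    intro c _
    rw [Filter.eventually_all]
    intro j
    have h2 : ∀ᶠ ε in 𝓝 (0 : ℝ), ε < g c j := gt_mem_nhds (hg c j)
    filter_upwards [h2.filter_mono nhdsWithin_le_nhds] with ε hε
    exact hε.le
  have h2 : ∀ᶠ ε in 𝓝[>] (0 : ℝ), 0 < ε := eventually_mem_nhdsWithin
  obtain ⟨ε, h3, h4⟩ := (h2.and h1).exists
  exact ⟨ε, h3, h4⟩

theorem exists_form_of_sections {N n J : ℕ} {P : Ideal (MvPolynomial (Fin (N + 1)) ℂ)} [P.IsPrime] {z : Fin (n + 1) → FunField P}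
    (hz : IsTranscendenceBasis ℂ z) (hX : ∃ i, (MvPolynomial.X i : MvPolynomial (Fin (N + 1)) ℂ) ∉ P)
    {Γ : AddSubgroup (Vd n)} (hΓ : ∃ R : ℝ, ∀ y : Vd n, ∃ l ∈ Γ, ‖y - l‖ ≤ R) {D : Set (Vd n)} (hD : IsClosed D) (hinv : ∀ y ∈ D, ∀ l ∈ Γ, y + l ∈ D)
    (thin : ∀ y₀ : Vd n, ∃ h : Vd n → ℂ, AnalyticAt ℂ h y₀ ∧ (∀ᶠ z in 𝓝 y₀, z ∈ D → h z = 0) ∧ ¬ ∀ᶠ z in 𝓝 y₀, h z = 0)
    {Φ : Fin J → Vd n → MN N} (hper : ∀ j, ∀ l ∈ Γ, ∀ y ∉ D, Φ j (y + l) = Φ j y)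
    (hmer : ∀ j, ∀ y₀ : Vd n, ∃ φ : Vd n → EN N, AnalyticAt ℂ φ y₀ ∧ (¬ ∀ᶠ z in 𝓝 y₀, φ z = 0) ∧ ∀ᶠ z in 𝓝 y₀, z ∉ D → φ z ≠ 0 → Φ j z = pr (φ z))
    (hhol : ∀ j, ∀ y₀ ∉ D, ∃ φ : Vd n → EN N, AnalyticAt ℂ φ y₀ ∧ φ y₀ ≠ 0 ∧ ∀ᶠ z in 𝓝 y₀, Φ j z = pr (φ z)) :
    ∃ (d : ℕ) (Q : MvPolynomial (Fin (N + 1)) ℂ), 1 ≤ d ∧ Q.IsHomogeneous d ∧ Q ∉ P ∧ ∀ j, ∀ y ∉ D, ∀ x : EN N, x ≠ 0 → pr x = Φ j y → eval ((LE N).symm x) Q = 0 := by
  obtain ⟨R, hR⟩ := hΓ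
  choose ρ φ hρ hφ using fun y₀ => lifts_at hmer y₀
  obtain ⟨t, htK, ht⟩ := (isCompact_closedBall (0 : Vd n) |R|).elim_nhds_subcover (fun c => ball c (ρ c)) (fun c _ => ball_mem_nhds c (hρ c))
  obtain ⟨ε, hε, hεt'⟩ := exists_pos_le (J := 1) t (g := fun c _ => ρ c) (fun c _ => hρ c)
  have hεt : ∀ c ∈ t, ε ≤ ρ c := fun c hc => hεt' c hc 0
  obtain ⟨δ, hδ, hcirc⟩ := circle_small hD thin (K := ⋃ c ∈ t, closedBall c (4 * ρ c)) (t.isCompact_biUnion fun c _ => isCompact_closedBall c _) hε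
  obtain ⟨G, hG⟩ : ∃ G : Set (Vd n), G = {y | ∀ b ∈ D, δ ≤ ‖y - b‖} := ⟨_, rfl⟩
  have hGc : IsClosed G := by
    have h1 : G = ⋂ b ∈ D, {y | δ ≤ ‖y - b‖} := by
      rw [hG]
      ext y
      simp
    rw [h1]
    exact isClosed_biInter fun b _ => isClosed_le continuous_const (by fun_prop)
  have hGD : ∀ y ∈ G, y ∉ D := by
    intro y hy hyD
    rw [hG] at hy
    have := hy y hyD
    rw [sub_self, norm_zero] at this
    linarith
  -- translation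
  have htr : ∀ y : Vd n, y ∉ D → ∃ (l : Vd n) (c : Vd n), l ∈ Γ ∧ c ∈ t ∧ y - l ∈ ball c (ρ c) ∧ y - l ∉ D ∧ (y ∈ G → y - l ∈ G) ∧ ∀ j, Φ j (y - l) = Φ j y := by
    intro y hy
    obtain ⟨l, hl, hyl⟩ := hR y
    have h1 : y - l ∈ closedBall (0 : Vd n) |R| := mem_closedBall_zero_iff.2 (hyl.trans (le_abs_self R))
    have h2 := ht h1
    simp only [Set.mem_iUnion, exists_prop] at h2
    obtain ⟨c, hc, hcb⟩ := h2
    have h3 : y - l ∉ D := by
      intro h4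
      have h5 := hinv _ h4 l hl
      rw [sub_add_cancel] at h5
      exact hy h5
    refine ⟨l, c, hl, hc, hcb, h3, fun hyG => ?_, fun j => ?_⟩
    · rw [hG] at hyG ⊢
      intro b hb
      have h6 := hyG _ (hinv b hb l hl)
      have h7 : y - l - b = y - (b + l) := by abel
      rw [h7]
      exact h6
    · have h6 := hper j l hl _ h3
      rw [sub_add_cancel] at h6
      exact h6.symm
  -- the hypotheses of the comparison
  have hcmpH : ∀ (c : Vd n) (j : Fin J), ∀ y₀ ∈ ball c (6 * ρ c), y₀ ∉ D → AnalyticAt ℂ (φ c j) y₀ ∧ (¬ ∀ᶠ z in 𝓝 y₀, φ c j z = 0) ∧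
      (∀ᶠ z in 𝓝 y₀, φ c j z ≠ 0 → Φ j z = pr (φ c j z)) ∧ ∃ ψ : Vd n → EN N, AnalyticAt ℂ ψ y₀ ∧ ψ y₀ ≠ 0 ∧ ∀ᶠ z in 𝓝 y₀, Φ j z = pr (ψ z) := by
    intro c j y₀ hy₀ hy₀D
    refine ⟨(hφ c j y₀ hy₀).1, (hφ c j y₀ hy₀).2.1, ?_, hhol j y₀ hy₀D⟩
    filter_upwards [isOpen_ball.mem_nhds hy₀, hD.isOpen_compl.mem_nhds hy₀D] with z hz hzD
    exact (hφ c j z hz).2.2 hzD
  have hsub1 : ∀ c : Vd n, closedBall c (ρ c) ⊆ ball c (6 * ρ c) := fun c => closedBall_subset_ball (by linarith [hρ c])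
  choose c₁ hc₁ hcmp₁ using fun (c : Vd n) (j : Fin J) => cmp_unif (φ := φ c j) (f := Φ j) ((isCompact_closedBall c (ρ c)).inter_right hGc)
    (fun y₀ hy₀ => hcmpH c j y₀ (hsub1 c hy₀.1) (hGD y₀ hy₀.2)) hε
  obtain ⟨c₀, hc₀, hc₀le⟩ := exists_pos_le t hc₁
  -- the bound of the lifts
  obtain ⟨C₁, hC₁, hbd⟩ : ∃ C₁ : ℝ, 0 < C₁ ∧ ∀ c ∈ t, ∀ j, ∀ y ∈ closedBall c (5 * ρ c), ‖φ c j y‖ ≤ C₁ := by
    have h1 : ∀ (c : Vd n) (j : Fin J), ∃ b : ℝ, ∀ y ∈ closedBall c (5 * ρ c), ‖φ c j y‖ ≤ b := by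
      intro c j
      have h2 : ContinuousOn (fun y => ‖φ c j y‖) (closedBall c (5 * ρ c)) := fun y hy =>
        (hφ c j y (closedBall_subset_ball (by linarith [hρ c]) hy)).1.continuousAt.norm.continuousWithinAt
      obtain ⟨b, hb⟩ := (isCompact_closedBall c (5 * ρ c)).bddAbove_image h2
      exact ⟨b, fun y hy => hb ⟨y, hy, rfl⟩⟩
    choose b hb using h1
    refine ⟨1 + ∑ c ∈ t, ∑ j, |b c j|, by positivity, fun c hc j y hy => (hb c j y hy).trans ?_⟩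
    have h2 : |b c j| ≤ ∑ j, |b c j| := Finset.single_le_sum (f := fun j => |b c j|) (fun _ _ => abs_nonneg _) (Finset.mem_univ j)
    have h3 : ∑ j, |b c j| ≤ ∑ c ∈ t, ∑ j, |b c j| :=
      Finset.single_le_sum (f := fun c => ∑ j, |b c j|) (fun _ _ => Finset.sum_nonneg fun _ _ => abs_nonneg _) hc
    linarith [le_abs_self (b c j)]
  obtain ⟨κ, hκ⟩ : ∃ κ : ℕ, C₁ * (1 / 2) ^ κ ≤ c₀ / 2 := by
    obtain ⟨κ, hκ⟩ := exists_pow_lt_of_lt_one (show (0 : ℝ) < c₀ / (2 * C₁) by positivity) (show (1 / 2 : ℝ) < 1 by norm_num)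
    refine ⟨κ, ?_⟩
    have h1 := mul_le_mul_of_nonneg_left hκ.le hC₁.le
    have h2 : C₁ * (c₀ / (2 * C₁)) = c₀ / 2 := by field_simp
    rwa [h2] at h1
  obtain ⟨d, hd, hcount⟩ := Pool.Agent.H22.AlgD.exists_form_of_conditions (Nat.lt_succ_self n) hz hX (t.card * J * κ ^ n)
  have hshift : ∀ (c w : Vd n) (j : Fin J), w ∈ ball (0 : Vd n) (6 * ρ c) → AnalyticAt ℂ (fun w => (LE N).symm (φ c j (c + w))) w := by
    intro c w j hw
    have h1 : c + w ∈ ball c (6 * ρ c) := by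
      rw [mem_ball, dist_eq_norm, add_sub_cancel_left]
      simpa using hw
    have h2 : AnalyticAt ℂ (fun w : Vd n => c + w) w := analyticAt_const.add analyticAt_id
    have h3 := AnalyticAt.fun_comp (g := φ c j) (f := fun w : Vd n => c + w) (hφ c j _ h1).1 h2
    exact AnalyticAt.fun_comp (g := (LE N).symm) (((LE N).symm : EN N →L[ℂ] (Fin (N + 1) → ℂ)).analyticAt _) h3
  have hF00 : ∀ i : t × Fin J, AnalyticAt ℂ (fun w => (LE N).symm (φ i.1 i.2 (i.1 + w))) 0 := fun i =>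
    hshift i.1 0 i.2 (mem_ball_self (by linarith [hρ i.1]))
  obtain ⟨Q, hQ, hQP, hQL⟩ := hcount ((i : t × Fin J) → Pool.Agent.H22.AlgD.monSpace n (κ * d))
    (by
      rw [Module.finrank_pi_fintype]
      calc ∑ _i : t × Fin J, Module.finrank ℂ (Pool.Agent.H22.AlgD.monSpace n (κ * d)) ≤ ∑ _i : t × Fin J, (κ * d) ^ n :=
            Finset.sum_le_sum fun _ _ => Pool.Agent.H22.AlgD.finrank_monSpace_le _ _
        _ = t.card * J * κ ^ n * d ^ n := by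
            rw [Finset.sum_const, Finset.card_univ, Fintype.card_prod, Fintype.card_coe, Fintype.card_fin, smul_eq_mul, mul_pow, mul_assoc, mul_assoc, mul_assoc])
    (LinearMap.pi fun i => Pool.Agent.H22.AlgD.taylor (hF00 i) (κ * d))
  have hQT : ∀ i, Pool.Agent.H22.AlgD.taylor (hF00 i) (κ * d) Q = 0 := fun i => congrFun hQL i
  -- the function `q`
  obtain ⟨q, hqdef⟩ : ∃ q : EN N → ℂ, q = fun x => eval ((LE N).symm x) Q := ⟨_, rfl⟩
  have hqh : ∀ (a : ℂ) (x : EN N), q (a • x) = a ^ d * q x := by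
    intro a x
    rw [hqdef]
    simp only
    rw [map_smul, Pool.Agent.H22.AlgD.eval_smul_form hQ]
  have hqd : Differentiable ℂ q := by
    intro x
    rw [hqdef]
    exact (Pool.Agent.H22.AlgD.analyticAt_eval (F := fun x : EN N => (LE N).symm x) (((LE N).symm : EN N →L[ℂ] (Fin (N + 1) → ℂ)).analyticAt x) Q).differentiableAt
  have hq0 : q 0 = 0 := by
    have h1 := hqh 0 0
    rw [zero_smul, zero_pow (by omega), zero_mul] at h1
    exact h1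
  obtain ⟨C, hC, hCb⟩ : ∃ C : ℝ, 0 ≤ C ∧ ∀ x : EN N, ‖q x‖ ≤ C * ‖x‖ ^ d := by
    obtain ⟨C, hC, hCb⟩ := Pool.Agent.TG.norm_eval_le hQ
    refine ⟨C * ‖((LE N).symm : EN N →L[ℂ] (Fin (N + 1) → ℂ))‖ ^ d, by positivity, fun x => ?_⟩
    rw [hqdef]
    refine (hCb _).trans ?_
    rw [mul_assoc, ← mul_pow]
    refine mul_le_mul_of_nonneg_left (pow_le_pow_left₀ (norm_nonneg _) ?_ d) hC
    exact ((LE N).symm : EN N →L[ℂ] (Fin (N + 1) → ℂ)).le_opNorm x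
  refine ⟨d, Q, hd, hQ, hQP, ?_⟩
  -- the bound on `G` gives a bound on the balls
  have hstepA : ∀ S : ℝ, 0 ≤ S → (∀ j, ∀ y ∈ G, ∀ x : EN N, x ≠ 0 → pr x = Φ j y → ‖q x‖ ≤ S * ‖x‖ ^ d) →
      ∀ c ∈ t, ∀ j, ∀ y ∈ closedBall c (4 * ρ c), ‖q (φ c j y)‖ ≤ S * C₁ ^ d := by
    intro S hS hbdS c hc j y hy
    obtain ⟨e, r, hr, hre, hc'⟩ := hcirc y (by
      simp only [Set.mem_iUnion, exists_prop]
      exact ⟨c, hc, hy⟩)
    have hin : ∀ s : ℂ, ‖s‖ ≤ r → y + s • e ∈ closedBall c (5 * ρ c) := by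
      intro s hs
      rw [mem_closedBall] at hy ⊢
      calc dist (y + s • e) c ≤ dist (y + s • e) y + dist y c := dist_triangle _ _ _
        _ ≤ ρ c + 4 * ρ c := by
          refine add_le_add ?_ hy
          rw [dist_eq_norm, add_sub_cancel_left, norm_smul]
          exact ((mul_le_mul_of_nonneg_right hs (norm_nonneg e)).trans hre).trans (hεt c hc)
        _ = 5 * ρ c := by ring
    have h56 : closedBall c (5 * ρ c) ⊆ ball c (6 * ρ c) := closedBall_subset_ball (by linarith [hρ c])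
    have hgan : ∀ s ∈ closedBall (0 : ℂ) r, DifferentiableAt ℂ (fun s : ℂ => q (φ c j (y + s • e))) s := by
      intro s hs
      rw [mem_closedBall_zero_iff] at hs
      have h8 : DifferentiableAt ℂ (φ c j) (y + s • e) := (hφ c j _ (h56 (hin s hs))).1.differentiableAt
      have h9 : DifferentiableAt ℂ (fun s : ℂ => y + s • e) s := by fun_prop
      exact (hqd _).comp s (DifferentiableAt.comp (g := φ c j) (f := fun s : ℂ => y + s • e) s h8 h9)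
    have hgd : DiffContOnCl ℂ (fun s : ℂ => q (φ c j (y + s • e))) (ball 0 r) := by
      constructor
      · exact fun s hs => (hgan s (ball_subset_closedBall hs)).differentiableWithinAt
      · rw [closure_ball _ hr.ne']
        exact fun s hs => (hgan s hs).continuousAt.continuousWithinAt
    obtain ⟨s, hs, hmax⟩ := Complex.exists_mem_frontier_isMaxOn_norm isBounded_ball (nonempty_ball.2 hr) hgd
    rw [frontier_ball _ hr.ne', mem_sphere_zero_iff_norm] at hs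
    have h7 : ‖q (φ c j (y + (0 : ℂ) • e))‖ ≤ ‖q (φ c j (y + s • e))‖ := hmax (subset_closure (mem_ball_self hr))
    rw [zero_smul, add_zero] at h7
    have hyG : y + s • e ∈ G := by
      rw [hG]
      exact fun b hb => hc' s hs b hb
    refine h7.trans ?_
    by_cases h0 : φ c j (y + s • e) = 0
    · rw [h0, hq0, norm_zero]
      positivity
    · have h8 := (hφ c j _ (h56 (hin s hs.le))).2.2 (hGD _ hyG) h0
      refine (hbdS j _ hyG _ h0 h8.symm).trans ?_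
      exact mul_le_mul_of_nonneg_left (pow_le_pow_left₀ (norm_nonneg _) (hbd c hc j _ (hin s hs.le)) d) hS
  -- the bound can be halved
  have hstepB : ∀ S : ℝ, 0 ≤ S → (∀ j, ∀ y ∈ G, ∀ x : EN N, x ≠ 0 → pr x = Φ j y → ‖q x‖ ≤ S * ‖x‖ ^ d) →
      ∀ j, ∀ y ∈ G, ∀ x : EN N, x ≠ 0 → pr x = Φ j y → ‖q x‖ ≤ S / 2 * ‖x‖ ^ d := by
    intro S hS hbdS j y hy x hx hxy
    obtain ⟨l, c, hl, hc, hcb, hylD, hylG, hΦl⟩ := htr y (hGD y hy)
    obtain ⟨y', hy', h1'⟩ := hcmp₁ c j (y - l) ⟨ball_subset_closedBall hcb, hylG hy⟩ x hx (by rw [hΦl j]; exact hxy) d q hqh hqd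
    have h1 : c₀ ^ d * ‖q x‖ ≤ ‖x‖ ^ d * ‖q (φ c j y')‖ :=
      (mul_le_mul_of_nonneg_right (pow_le_pow_left₀ hc₀.le (hc₀le c hc j) d) (norm_nonneg _)).trans h1'
    have hy'c : ‖y' - c‖ ≤ 2 * ρ c := by
      rw [mem_ball, dist_eq_norm] at hcb
      calc ‖y' - c‖ = ‖(y' - (y - l)) + (y - l - c)‖ := by congr 1; abel
        _ ≤ ‖y' - (y - l)‖ + ‖y - l - c‖ := norm_add_le _ _
        _ ≤ ρ c + ρ c := add_le_add (hy'.trans (hεt c hc)) hcb.le
        _ = 2 * ρ c := by ring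
    have hρc := hρ c
    have hy'b : y' - c ∈ ball (0 : Vd n) (4 * ρ c) := by
      rw [mem_ball_zero_iff]
      linarith
    have hcy' : c + (y' - c) = y' := by abel
    have h2 : ‖q (φ c j y')‖ ≤ S * C₁ ^ d * (‖y' - c‖ / (4 * ρ c)) ^ (κ * d) := by
      have h3 := Pool.Agent.H22.AlgD.norm_le_of_iteratedFDeriv (E := Vd n) (m := κ * d) (G := fun w => eval ((LE N).symm (φ c j (c + w))) Q)
        (R := 4 * ρ c) (M := S * C₁ ^ d) (by positivity)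
        (fun w hw => Pool.Agent.H22.AlgD.analyticAt_eval (hshift c w j (ball_subset_ball (by linarith) hw)) Q)
        (fun w hw => by
          have h4 := hstepA S hS hbdS c hc j (c + w) (by
            rw [mem_closedBall, dist_eq_norm, add_sub_cancel_left]
            rw [mem_ball_zero_iff] at hw
            exact hw.le)
          rw [hqdef] at h4
          exact h4)
        (fun k hk w => Pool.Agent.H22.AlgD.eq_zero_of_taylor (hF00 (⟨c, hc⟩, j)) (hQT (⟨c, hc⟩, j)) hk w) hy'b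
      simp only [hcy'] at h3
      rw [hqdef]
      exact h3
    have h3 : (‖y' - c‖ / (4 * ρ c)) ^ (κ * d) ≤ (1 / 2) ^ (κ * d) := by
      refine pow_le_pow_left₀ (by positivity) ?_ _
      rw [div_le_iff₀ (by positivity)]
      linarith
    have h4 : ‖q (φ c j y')‖ ≤ S * (C₁ * (1 / 2) ^ κ) ^ d := by
      calc ‖q (φ c j y')‖ ≤ S * C₁ ^ d * (‖y' - c‖ / (4 * ρ c)) ^ (κ * d) := h2
        _ ≤ S * C₁ ^ d * (1 / 2) ^ (κ * d) := mul_le_mul_of_nonneg_left h3 (by positivity)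
        _ = S * (C₁ * (1 / 2) ^ κ) ^ d := by
          rw [pow_mul]
          ring
    have h5 : (C₁ * (1 / 2) ^ κ) ^ d ≤ c₀ ^ d * (1 / 2) := by
      calc (C₁ * (1 / 2) ^ κ) ^ d ≤ (c₀ / 2) ^ d := pow_le_pow_left₀ (by positivity) hκ d
        _ = c₀ ^ d * (1 / 2) ^ d := by
          rw [← mul_pow]
          ring
        _ ≤ c₀ ^ d * (1 / 2) ^ 1 := mul_le_mul_of_nonneg_left (pow_le_pow_of_le_one (by norm_num) (by norm_num) hd) (by positivity)
        _ = c₀ ^ d * (1 / 2) := by rw [pow_one]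
    have h6 : c₀ ^ d * ‖q x‖ ≤ c₀ ^ d * (S / 2 * ‖x‖ ^ d) := by
      calc c₀ ^ d * ‖q x‖ ≤ ‖x‖ ^ d * ‖q (φ c j y')‖ := h1
        _ ≤ ‖x‖ ^ d * (S * (c₀ ^ d * (1 / 2))) :=
          mul_le_mul_of_nonneg_left (h4.trans (mul_le_mul_of_nonneg_left h5 hS)) (by positivity)
        _ = c₀ ^ d * (S / 2 * ‖x‖ ^ d) := by ring
    exact le_of_mul_le_mul_left h6 (by positivity)
  -- so the form vanishes
  have hk : ∀ k : ℕ, ∀ j, ∀ y ∈ G, ∀ x : EN N, x ≠ 0 → pr x = Φ j y → ‖q x‖ ≤ C / 2 ^ k * ‖x‖ ^ d := by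
    intro k
    induction k with
    | zero =>
      intro j y _ x _ _
      rw [pow_zero, div_one]
      exact hCb x
    | succ k ih =>
      have h1 := hstepB (C / 2 ^ k) (by positivity) ih
      intro j y hy x hx hxy
      have h2 := h1 j y hy x hx hxy
      rwa [div_div, ← pow_succ] at h2
  have h0 : ∀ j, ∀ y ∈ G, ∀ x : EN N, x ≠ 0 → pr x = Φ j y → ‖q x‖ ≤ 0 * ‖x‖ ^ d := by
    intro j y hy x hx hxy
    have ht : Tendsto (fun k : ℕ => C / 2 ^ k * ‖x‖ ^ d) atTop (𝓝 (0 * ‖x‖ ^ d)) := by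
      refine Tendsto.mul_const _ ?_
      have h1 : Tendsto (fun k : ℕ => C * (1 / 2 : ℝ) ^ k) atTop (𝓝 (C * 0)) :=
        (tendsto_pow_atTop_nhds_zero_of_lt_one (by norm_num) (by norm_num)).const_mul C
      rw [mul_zero] at h1
      refine h1.congr fun k => ?_
      rw [one_div, inv_pow, div_eq_mul_inv]
    exact ge_of_tendsto' ht fun k => hk k j y hy x hx hxy
  intro j y hy x hx hxy
  obtain ⟨l, c, hl, hc, hcb, hylD, hylG, hΦl⟩ := htr y hy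
  obtain ⟨g1, g2, g3, ψ, g4, g5, g6⟩ := hcmpH c j (y - l) (hsub1 c (ball_subset_closedBall hcb)) hylD
  obtain ⟨c', hc', h7⟩ := cmp g1 g2 g4 g5 g3 g6 hε
  obtain ⟨y', hy', h8⟩ := h7.self_of_nhds x hx (by rw [hΦl j]; exact hxy) d q hqh hqd
  have hy'c : y' ∈ closedBall c (4 * ρ c) := by
    rw [mem_closedBall, dist_eq_norm]
    rw [mem_ball, dist_eq_norm] at hcb
    have hρc := hρ c
    calc ‖y' - c‖ = ‖(y' - (y - l)) + (y - l - c)‖ := by congr 1; abel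
      _ ≤ ‖y' - (y - l)‖ + ‖y - l - c‖ := norm_add_le _ _
      _ ≤ ρ c + ρ c := add_le_add (hy'.trans (hεt c hc)) hcb.le
      _ ≤ 4 * ρ c := by linarith
  have h9 := hstepA 0 le_rfl h0 c hc j y' hy'c
  rw [zero_mul] at h9
  have h10 : ‖q (φ c j y')‖ = 0 := le_antisymm h9 (norm_nonneg _)
  rw [h10, mul_zero] at h8
  have h11 : ‖q x‖ ≤ 0 := by
    by_contra hcon
    push Not at hcon
    have := mul_pos (pow_pos hc' d) hcon
    linarith
  have h12 := norm_le_zero_iff.1 h11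
  rw [hqdef] at h12
  exact h12

end Pool.Agent.G3

end
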