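import Pool.Agent.H94.G4T.M103
import Pool.Agent.H94.G4T.M140
import Pool.Agent.H94.G4T.M75
import Pool.Agent.H94.G4T.M87

/-! The parts of this file: TG.GuG, TG.GuL, G4.F.QEx. -/

section

/-!
# TG GuG: germ-level charts from local parametrisations, the fields `sub` and `nc` of `Geo`

`exists_germ`: let `σ` be a local parametrisation of the smooth variety `X` at a point, `S = LE ∘ σ`, `x = S 0`.  Let `σ₀, τ₀` be the chart of the cone at `x` with the ratios of the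
coordinates as parameters (`exists_ratioGerm`), `φ = τ₀ ∘ S`.  For `p` near `0`: `S p = c(p) σ₀ (φ p)`, so `φ' (0) v = 0` implies `S' (0) v ∈ ℂ x`, `v = 0`.  Let `ψ` be the local inverse
of `φ`; `τ = ψ ∘ τ₀`.
-/

set_option autoImplicit false

open Topology Filter MvPolynomial
open Pool.Agent.H17 (PN VanishesAt)
open Pool.Agent.H62.FC (Homog)
open Pool.Agent.H17LG.Variety (FunField)
open Pool.Agent.H17EF (projVar coneE LE mem_coneE)
open Pool.Agent.H36.BP (EN)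
open Pool.Agent.H13.SM (conTan)
open Pool.Agent.AD (uV uV_eq sub_mem_iff IsGerm exists_ratioGerm)

noncomputable section

namespace Pool.Agent.TGF

variable {N k : ℕ} {P : Ideal (MvPolynomial (Fin (N + 1)) ℂ)}

/-- The inversion of the coordinates. -/
theorem exists_germ [P.IsPrime] (hP : Homog P) (hdim : ∃ z : Fin (k + 2) → FunField P, IsTranscendenceBasis ℂ z)
    (hsmooth : Pool.Agent.AD.NC.IsSmooth P (k + 2)) {x₀ : PN N} {σ : Cn (k + 2) → Cn (N + 1)} (h : IsParam (projVar P) x₀ σ) :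
    ∃ τ : EN N → Cn (k + 2), IsGerm (coneE P) (fun p => LE N (σ p)) τ := by
  obtain ⟨z, hz⟩ := hdim
  obtain ⟨hσ0, -⟩ := h.point
  set S : Cn (k + 2) → EN N := fun p => LE N (σ p) with hS
  have hSan : AnalyticAt ℂ S 0 := (((LE N) : (Fin (N + 1) → ℂ) →L[ℂ] EN N).analyticAt _).fun_comp h.holomorphic
  have hsym : ∀ p, (LE N).symm (S p) = σ p := fun p => (LE N).symm_apply_apply (σ p)
  have hSmem : ∀ᶠ p in 𝓝 (0 : Cn (k + 2)), S p ∈ coneE P := by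
    filter_upwards [h.mem] with p hp
    rw [mem_coneE hP, hsym p]
    exact hp
  have hS0 : S 0 ∈ coneE P := hSmem.self_of_nhds
  obtain ⟨l, hl⟩ : ∃ l, (LE N).symm (S 0) l ≠ 0 := by
    rw [hsym]
    exact Function.ne_iff.1 hσ0
  obtain ⟨I, σ₀, hg, hg0⟩ := exists_ratioGerm hP hz hsmooth hS0 hl
  set τ₀ : EN N → Cn (k + 2) := fun y j => (LE N).symm y (I j) / (LE N).symm y l - (LE N).symm (S 0) (I j) / (LE N).symm (S 0) l with hτ₀
  have hτ₀an : AnalyticAt ℂ τ₀ (S 0) := by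
    have h1 := hg.τ_an
    rwa [hg0] at h1
  have hτ₀0 : τ₀ (S 0) = 0 := by
    funext j
    show (LE N).symm (S 0) (I j) / (LE N).symm (S 0) l - (LE N).symm (S 0) (I j) / (LE N).symm (S 0) l = 0
    exact sub_self _
  have hright : ∀ᶠ y in 𝓝 (S 0), y ∈ coneE P → ∃ c : ℂ, c ≠ 0 ∧ y = c • σ₀ (τ₀ y) := by
    have h1 := hg.right
    rwa [hg0] at h1
  set φ : Cn (k + 2) → Cn (k + 2) := fun p => τ₀ (S p) with hφ
  have hφan : AnalyticAt ℂ φ 0 := AnalyticAt.fun_comp (g := τ₀) (f := S) hτ₀an hSan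
  have hφ0 : φ 0 = 0 := hτ₀0
  -- the linear form
  let ℓ : EN N →L[ℂ] ℂ := (ContinuousLinearMap.proj (R := ℂ) (φ := fun _ : Fin (N + 1) => ℂ) l).comp ((LE N).symm : EN N →L[ℂ] (Fin (N + 1) → ℂ))
  have hℓ : ℓ (S 0) ≠ 0 := hl
  have hinj : ∀ v, fderiv ℂ φ 0 v = 0 → v = 0 := by
    intro v hv
    have hline : HasDerivAt (fun t : ℂ => t • v) v 0 := by
      have h1 := (hasDerivAt_id (0 : ℂ)).smul_const v
      rwa [one_smul] at h1
    have hS' : HasDerivAt (fun t : ℂ => S (t • v)) (fderiv ℂ S 0 v) 0 := by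
      have h1 : HasFDerivAt S (fderiv ℂ S 0) ((0 : ℂ) • v) := by
        rw [zero_smul]
        exact hSan.differentiableAt.hasFDerivAt
      exact h1.comp_hasDerivAt (0 : ℂ) hline
    have hφ' : HasDerivAt (fun t : ℂ => φ (t • v)) 0 0 := by
      have h1 : HasFDerivAt φ (fderiv ℂ φ 0) ((0 : ℂ) • v) := by
        rw [zero_smul]
        exact hφan.differentiableAt.hasFDerivAt
      have h2 := h1.comp_hasDerivAt (0 : ℂ) hline
      rwa [hv] at h2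
    have hσ' : HasDerivAt (fun t : ℂ => σ₀ (φ (t • v))) 0 0 := by
      have h1 : HasFDerivAt σ₀ (fderiv ℂ σ₀ 0) (φ ((0 : ℂ) • v)) := by
        rw [zero_smul, hφ0]
        exact hg.σ_an.differentiableAt.hasFDerivAt
      have h2 := h1.comp_hasDerivAt (0 : ℂ) hφ'
      rwa [map_zero] at h2
    have hval : σ₀ (φ ((0 : ℂ) • v)) = S 0 := by rw [zero_smul, hφ0, hg0]
    have hne : ℓ (σ₀ (φ ((0 : ℂ) • v))) ≠ 0 := by
      rw [hval]
      exact hℓ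
    have hc1 : HasDerivAt (fun t : ℂ => ℓ (S (t • v))) (ℓ (fderiv ℂ S 0 v)) 0 := ℓ.hasFDerivAt.comp_hasDerivAt (0 : ℂ) hS'
    have hc2 : HasDerivAt (fun t : ℂ => ℓ (σ₀ (φ (t • v)))) (ℓ 0) 0 := ℓ.hasFDerivAt.comp_hasDerivAt (0 : ℂ) hσ'
    obtain ⟨c', hc'⟩ : ∃ c' : ℂ, HasDerivAt (fun t : ℂ => ℓ (S (t • v)) / ℓ (σ₀ (φ (t • v)))) c' 0 := ⟨_, hc1.div hc2 hne⟩
    have hprod : HasDerivAt (fun t : ℂ => (ℓ (S (t • v)) / ℓ (σ₀ (φ (t • v)))) • σ₀ (φ (t • v)))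
        ((ℓ (S ((0 : ℂ) • v)) / ℓ (σ₀ (φ ((0 : ℂ) • v)))) • (0 : EN N) + c' • σ₀ (φ ((0 : ℂ) • v))) 0 := hc'.smul hσ'
    have hev : ∀ᶠ t : ℂ in 𝓝 0, S (t • v) = (ℓ (S (t • v)) / ℓ (σ₀ (φ (t • v)))) • σ₀ (φ (t • v)) := by
      have ht : Tendsto (fun t : ℂ => t • v) (𝓝 0) (𝓝 (0 : Cn (k + 2))) := by
        have h1 := hline.continuousAt.tendsto
        rwa [zero_smul] at h1
      have hSt : Tendsto (fun t : ℂ => S (t • v)) (𝓝 0) (𝓝 (S 0)) := hSan.continuousAt.tendsto.comp ht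
      have hne' : ∀ᶠ t : ℂ in 𝓝 0, ℓ (σ₀ (φ (t • v))) ≠ 0 := hc2.continuousAt.eventually_ne hne
      filter_upwards [ht.eventually hSmem, hSt.eventually hright, hne'] with t h1 h2 h3
      obtain ⟨c, hc0, hc⟩ := h2 h1
      have h4 : ℓ (S (t • v)) / ℓ (σ₀ (φ (t • v))) = c := by
        rw [div_eq_iff h3]
        conv_lhs => rw [hc]
        rw [map_smul, smul_eq_mul]
      rw [h4]
      exact hc
    have hS'' : HasDerivAt (fun t : ℂ => (ℓ (S (t • v)) / ℓ (σ₀ (φ (t • v)))) • σ₀ (φ (t • v))) (fderiv ℂ S 0 v) 0 :=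
      hS'.congr_of_eventuallyEq (hev.mono fun t ht => ht.symm)
    have ha : fderiv ℂ S 0 v = c' • S 0 := by
      have h1 := hS''.unique hprod
      rw [smul_zero, zero_add, hval] at h1
      exact h1
    have hSσ : fderiv ℂ S 0 v = LE N (fderiv ℂ σ 0 v) := by
      have h1 : HasFDerivAt S (((LE N) : (Fin (N + 1) → ℂ) →L[ℂ] EN N).comp (fderiv ℂ σ 0)) 0 :=
        ((LE N) : (Fin (N + 1) → ℂ) →L[ℂ] EN N).hasFDerivAt.comp 0 h.holomorphic.differentiableAt.hasFDerivAt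
      rw [h1.fderiv]
      rfl
    refine h.immersion v c' ?_
    have h2 : LE N (fderiv ℂ σ 0 v) = LE N (c' • σ 0) := by
      rw [← hSσ, ha, map_smul]
    exact (LE N).injective h2
  obtain ⟨ψ, hψan, hψl, hψr, hψ0⟩ := Pool.Agent.H62.BU.local_inverse hφan hinj
  rw [hφ0] at hψan hψr hψ0
  refine ⟨fun y => ψ (τ₀ y), hSan, hSmem, ?_, hψl, ?_, ?_⟩
  · show AnalyticAt ℂ (fun y => ψ (τ₀ y)) (S 0)
    refine AnalyticAt.fun_comp (g := ψ) (f := τ₀) ?_ hτ₀an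
    rw [hτ₀0]
    exact hψan
  · show ∀ᶠ y in 𝓝 (S 0), y ∈ coneE P → ∃ c : ℂ, c ≠ 0 ∧ y = c • S (ψ (τ₀ y))
    have ht1 : Tendsto τ₀ (𝓝 (S 0)) (𝓝 0) := by
      have h1 := hτ₀an.continuousAt.tendsto
      rwa [hτ₀0] at h1
    have ht2 : Tendsto (fun y => ψ (τ₀ y)) (𝓝 (S 0)) (𝓝 0) := by
      have h1 := hψan.continuousAt.tendsto.comp ht1
      rwa [hψ0] at h1
    have ht3 : Tendsto (fun y => S (ψ (τ₀ y))) (𝓝 (S 0)) (𝓝 (S 0)) := hSan.continuousAt.tendsto.comp ht2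
    filter_upwards [hright, ht1.eventually hψr, ht2.eventually hSmem, ht3.eventually hright] with y h1 h2 h3 h4 hy
    obtain ⟨c₁, hc₁, hy₁⟩ := h1 hy
    obtain ⟨c₂, hc₂, hy₂⟩ := h4 h3
    have h5 : τ₀ (S (ψ (τ₀ y))) = τ₀ y := h2
    rw [h5] at hy₂
    refine ⟨c₁ / c₂, div_ne_zero hc₁ hc₂, ?_⟩
    rw [hy₂, smul_smul, div_mul_cancel₀ _ hc₂]
    exact hy₁
  · have h1 : ∀ᶠ w : EN N × ℂ in 𝓝 (S 0, (1 : ℂ)), τ₀ (w.2 • w.1) = τ₀ w.1 := by
      have h2 := hg.inv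
      rw [hg0] at h2
      exact h2
    exact h1.mono fun w hw => congrArg ψ hw

/-- rescaling of the homogeneous coordinates -/
theorem IsParam.const_smul {X : Set (PN N)} {x : PN N} {σ : Cn (k + 2) → Cn (N + 1)} (h : IsParam X x σ) {c : ℂ} (hc : c ≠ 0) :
    IsParam X x (fun p => c • σ p) := by
  have hmk : ∀ {w : Cn (N + 1)} (hw : w ≠ 0), Projectivization.mk ℂ (c • w) (smul_ne_zero hc hw) = Projectivization.mk ℂ w hw := by
    intro w hw
    rw [Projectivization.mk_eq_mk_iff']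
    exact ⟨c, rfl⟩
  have hd : ∀ v, fderiv ℂ (fun p => c • σ p) 0 v = c • fderiv ℂ σ 0 v := by
    intro v
    have h1 : HasFDerivAt (fun p => c • σ p) (c • fderiv ℂ σ 0) 0 := h.holomorphic.differentiableAt.hasFDerivAt.const_smul c
    rw [h1.fderiv]
    rfl
  refine ⟨?_, ?_, ?_, ?_⟩
  · exact (analyticAt_const (v := c)).fun_smul h.holomorphic
  · obtain ⟨h0, h1⟩ := h.point
    exact ⟨smul_ne_zero hc h0, by rw [hmk h0]; exact h1⟩
  · filter_upwards [h.mem] with p hp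
    obtain ⟨h0, h1⟩ := hp
    exact ⟨smul_ne_zero hc h0, by rw [hmk h0]; exact h1⟩
  · intro v a hv
    rw [hd] at hv
    refine h.immersion v a ?_
    have h1 : c • fderiv ℂ σ 0 v = c • (a • σ 0) := by
      rw [hv, smul_comm]
    exact smul_right_injective _ hc h1

theorem over_const_smul {X : Set (PN N)} {Λ : AddSubgroup (Cn (k + 1))} {u : PN N → Cn (k + 1) ⧸ Λ} {y : Cn (k + 1)} {x : Cn (N + 1)}
    (h : Over X Λ u y x) {c : ℂ} (hc : c ≠ 0) : Over X Λ u y (c • x) := by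
  obtain ⟨h0, h1, h2⟩ := h
  have hmk : Projectivization.mk ℂ (c • x) (smul_ne_zero hc h0) = Projectivization.mk ℂ x h0 := by
    rw [Projectivization.mk_eq_mk_iff']
    exact ⟨c, rfl⟩
  exact ⟨smul_ne_zero hc h0, by rw [hmk]; exact h1, by rw [hmk]; exact h2⟩

/-- a point of the cone with `uV` over `y` -/
theorem gug_over {X : Set (PN N)} {Λ : AddSubgroup (Cn (k + 1))} {u : PN N → Cn (k + 1) ⧸ Λ} {y : Cn (k + 1)} {w : Cn (N + 1)}
    (h : Over X Λ u y w) : uV Λ u (LE N w) - y ∈ Λ := by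
  obtain ⟨h0, h1, h2⟩ := h
  have h3 : (LE N).symm (LE N w) ≠ 0 := by
    rw [ContinuousLinearEquiv.symm_apply_apply]
    exact h0
  rw [sub_mem_iff, uV_eq Λ u h3, ← h2]
  congr 1

/-- a parametrisation at the point `[x]`, `x` in the cone, can be rescaled such that its value at `0` is `x` -/
theorem exists_scale {x : EN N} (hx : (LE N).symm x ≠ 0) {σ : Cn (k + 2) → Cn (N + 1)}
    (h : ∃ h : σ 0 ≠ 0, Projectivization.mk ℂ (σ 0) h = Projectivization.mk ℂ ((LE N).symm x) hx) :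
    ∃ c : ℂ, c ≠ 0 ∧ LE N (c • σ 0) = x := by
  obtain ⟨h0, h1⟩ := h
  rw [Projectivization.mk_eq_mk_iff'] at h1
  obtain ⟨a, ha⟩ := h1
  have ha0 : a ≠ 0 := by
    rintro rfl
    rw [zero_smul] at ha
    exact h0 ha.symm
  refine ⟨a⁻¹, inv_ne_zero ha0, ?_⟩
  rw [← ha, smul_smul, inv_mul_cancel₀ ha0, one_smul, ContinuousLinearEquiv.apply_symm_apply]

/-- the field `sub` of `Geo` -/
theorem geo_sub [P.IsPrime] (hP : Homog P) (hdim : ∃ z : Fin (k + 2) → FunField P, IsTranscendenceBasis ℂ z)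
    (hsmooth : Pool.Agent.AD.NC.IsSmooth P (k + 2)) {Λ : AddSubgroup (Cn (k + 1))} {u : PN N → Cn (k + 1) ⧸ Λ} {D B : Set (Cn (k + 1))}
    (hD : IsDiscriminant (projVar P) Λ u D B) :
    ∀ y ∉ D, ∀ x ∈ coneE P, uV Λ u x - y ∈ Λ → Pool.Agent.TG.IsStr (coneE P) Λ (uV Λ u) x y := by
  intro y hy x hx hxy
  obtain ⟨h0, h1⟩ := (mem_coneE hP).1 hx
  rw [sub_mem_iff, uV_eq Λ u h0] at hxy
  obtain ⟨σ, hσ, hov⟩ := hD.submersion y hy _ h1 hxy
  obtain ⟨c, hc, hcx⟩ := exists_scale h0 hσ.point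
  obtain ⟨τ, hτ⟩ := exists_germ hP hdim hsmooth (hσ.const_smul hc)
  refine ⟨_, τ, hτ, hcx, ?_⟩
  filter_upwards [hov] with p hp
  exact gug_over (over_const_smul hp hc)

/-- the field `nc` of `Geo` -/
theorem geo_nc [P.IsPrime] (hP : Homog P) (hdim : ∃ z : Fin (k + 2) → FunField P, IsTranscendenceBasis ℂ z)
    (hsmooth : Pool.Agent.AD.NC.IsSmooth P (k + 2)) {Λ : AddSubgroup (Cn (k + 1))} {u : PN N → Cn (k + 1) ⧸ Λ} {D B : Set (Cn (k + 1))}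
    (hD : IsDiscriminant (projVar P) Λ u D B) :
    ∀ y ∈ D, y ∉ B → ∃ κ : Cn (k + 1) → Cn (k + 1), Pool.Agent.TG.IsCoord D κ y ∧
      ∀ x ∈ coneE P, uV Λ u x - y ∈ Λ → Pool.Agent.TG.IsNC (coneE P) Λ (uV Λ u) κ x := by
  intro y hy hyB
  obtain ⟨κ, hκ, hnc⟩ := hD.crossing y hy hyB
  refine ⟨κ, ⟨hκ.holomorphic, hκ.point, ?_, hκ.mem_iff⟩, ?_⟩
  · rw [injective_iff_map_eq_zero]
    exact hκ.immersion
  · intro x hx hxy
    obtain ⟨h0, h1⟩ := (mem_coneE hP).1 hx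
    rw [sub_mem_iff, uV_eq Λ u h0] at hxy
    obtain ⟨σ, a, b, hσ, hab, hov⟩ := hnc _ h1 hxy
    obtain ⟨c, hc, hcx⟩ := exists_scale h0 hσ.point
    obtain ⟨τ, hτ⟩ := exists_germ hP hdim hsmooth (hσ.const_smul hc)
    refine ⟨_, τ, a, b, hτ, hcx, hab, ?_⟩
    filter_upwards [hov] with p hp
    exact gug_over (over_const_smul hp hc)

end Pool.Agent.TGF

end
end

section

/-!
# TG GuL: glue: charts, the torus map, lattices, the entire curves in the fibres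
-/

set_option autoImplicit false

open Topology Filter MvPolynomial
open Pool.Agent.H17 (PN VanishesAt)
open Pool.Agent.H62.FC (Homog)
open Pool.Agent.H17LG.Variety (FunField)
open Pool.Agent.H17EF (projVar coneE)
open Pool.Agent.H36.BP (EN fs)
open Pool.Agent.H14.V (brodyCurves isLift_mk IsLift)
open Pool.Agent.AD (Vd uV uV_eq sub_mem_iff torusMapV discreteSub_of isCone_coneE charts_coneE IsHolomorphicTorusMap Charts)
open Pool.Agent.TG (TMap Lat)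

noncomputable section

namespace Pool.Agent.TGF

variable {N k : ℕ} {P : Ideal (MvPolynomial (Fin (N + 1)) ℂ)} {Λ Γ : AddSubgroup (Cn (k + 1))} {u : PN N → Cn (k + 1) ⧸ Λ} {D B : Set (Cn (k + 1))}

theorem gu_charts [P.IsPrime] (hP : Homog P) (hdim : ∃ z : Fin (k + 2) → FunField P, IsTranscendenceBasis ℂ z)
    (hsm : Pool.Agent.AD.NC.IsSmooth P (k + 2)) : Charts (k + 2) (coneE P) := by
  obtain ⟨z, hz⟩ := hdim
  exact charts_coneE hP hz hsm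

theorem gu_tor (hP : Homog P) (hu : IsHolomorphicTorusMap (projVar P) Λ u) : TMap (coneE P) Λ (uV Λ u) := by
  have h := torusMapV hP hu
  exact ⟨h.smul, h.loc⟩

/-- a spanning subgroup is cocompact -/
theorem gu_cocompact {n : ℕ} {Λ : AddSubgroup (Fin n → ℂ)} (h : Submodule.span ℝ (Λ : Set (Fin n → ℂ)) = ⊤) :
    ∃ C : ℝ, 0 < C ∧ ∀ b : Fin n → ℂ, ∃ l ∈ Λ, ‖b - l‖ ≤ C := by
  classical
  obtain ⟨T, hTs, hT⟩ : ∃ T : Finset (Fin n → ℂ), (T : Set (Fin n → ℂ)) ⊆ (Λ : Set (Fin n → ℂ)) ∧ Submodule.span ℝ (T : Set (Fin n → ℂ)) = ⊤ := by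
    have h1 : (Submodule.span ℝ (Λ : Set (Fin n → ℂ))).FG := by
      rw [h]
      exact Module.Finite.fg_top
    obtain ⟨T, hTs, hT⟩ := (Submodule.fg_span_iff_fg_span_finset_subset _).1 h1
    exact ⟨T, hTs, by rw [← hT, h]⟩
  refine ⟨(∑ t ∈ T, ‖t‖) + 1, by positivity, fun b => ?_⟩
  have hb : b ∈ Submodule.span ℝ (T : Set (Fin n → ℂ)) := by rw [hT]; trivial
  obtain ⟨c, -, hc⟩ := Submodule.mem_span_finset.1 hb
  refine ⟨∑ t ∈ T, ⌊c t⌋ • t, Λ.sum_mem fun t ht => Λ.zsmul_mem (hTs ht) _, ?_⟩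
  refine le_trans ?_ (le_add_of_nonneg_right zero_le_one)
  rw [← hc, ← Finset.sum_sub_distrib]
  refine (norm_sum_le _ _).trans (Finset.sum_le_sum fun t _ => ?_)
  have h2 : c t • t - ⌊c t⌋ • t = (Int.fract (c t)) • t := by
    rw [Int.fract, sub_smul]
    congr 1
    exact (Int.cast_smul_eq_zsmul ℝ _ _).symm
  rw [h2, norm_smul, Real.norm_of_nonneg (Int.fract_nonneg _)]
  exact mul_le_of_le_one_left (norm_nonneg _) (Int.fract_lt_one _).le

theorem gu_lat (Λ : AddSubgroup (Cn (k + 1))) [DiscreteTopology Λ] (hspan : Submodule.span ℝ (Λ : Set (Cn (k + 1))) = ⊤) : Lat Λ :=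
  ⟨discreteSub_of Λ, gu_cocompact hspan⟩

theorem gu_lat_sub (hΛ : Lat Λ) (hle : Γ ≤ Λ) (hspan : Submodule.span ℝ (Γ : Set (Cn (k + 1))) = ⊤) : Lat Γ := by
  obtain ⟨δ, hδ, h⟩ := hΛ.disc
  exact ⟨⟨δ, hδ, fun l hl hn => h l (hle hl) hn⟩, gu_cocompact hspan⟩

/-- the fibres off `D` contain no entire curve with bounded derivative -/
theorem gu_fib (hP : Homog P) (hD : IsDiscriminant (projVar P) Λ u D B) : ∀ y ∉ D, ∀ F : ℂ → EN N, Differentiable ℂ F → (∀ z, F z ∈ coneE P) →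
    (∀ z, uV Λ u (F z) - y ∈ Λ) → (∃ L : ℝ, ∀ z, fs (F z) (deriv F z) ≤ L) → ∀ z w, ∃ c : ℂ, F z = c • F w := by
  intro y hy F hF hFX hFy hL z w
  obtain ⟨L, hL⟩ := hL
  obtain ⟨M, hM⟩ : ∃ M : ℝ, M = max L 1 := ⟨_, rfl⟩
  have hM0 : 0 < M := by
    rw [hM]
    exact lt_of_lt_of_le one_pos (le_max_right _ _)
  have hMc : (M : ℂ) ≠ 0 := by exact_mod_cast hM0.ne'
  obtain ⟨a, ha⟩ : ∃ a : ℂ, a = ((M⁻¹ : ℝ) : ℂ) := ⟨_, rfl⟩
  have hanorm : ‖a‖ = M⁻¹ := by rw [ha, Complex.norm_real, Real.norm_of_nonneg (inv_nonneg.2 hM0.le)]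
  have haM : ∀ t : ℂ, a * (M * t) = t := by
    intro t
    rw [ha, Complex.ofReal_inv, inv_mul_cancel_left₀ hMc]
  have hG : Differentiable ℂ fun t => F (a * t) := hF.comp (differentiable_id.const_mul a)
  have hGd : ∀ t, deriv (fun t => F (a * t)) t = a • deriv F (a * t) := by
    intro t
    have h3 : HasDerivAt (fun w : ℂ => a * w) a t := by
      simpa using (hasDerivAt_id t).const_mul a
    exact ((hF (a * t)).hasDerivAt.scomp t h3).deriv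
  have h0 : ∀ t, (F (a * t)).ofLp ≠ 0 := fun t => (hFX _).1
  have hl := isLift_mk hG h0
  have h1 := hD.hyperbolic y hy _ ⟨fun t => (hl.mem_iff hP t).2 (hFX _), _, hl, fun t => by
    rw [hGd, Pool.Agent.H36.BP.fs_smul_right, hanorm]
    calc M⁻¹ * fs (F (a * t)) (deriv F (a * t)) ≤ M⁻¹ * M :=
          mul_le_mul_of_nonneg_left ((hL _).trans (by rw [hM]; exact le_max_left _ _)) (inv_nonneg.2 hM0.le)
      _ = 1 := inv_mul_cancel₀ hM0.ne'⟩ (fun t => by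
    have h2 := hFy (a * t)
    rw [sub_mem_iff, uV_eq Λ u (hFX _).1] at h2
    exact h2) (M * z) (M * w)
  rw [Projectivization.mk_eq_mk_iff'] at h1
  obtain ⟨b, hb⟩ := h1
  rw [haM, haM] at hb
  exact ⟨b, WithLp.ofLp_injective 2 hb.symm⟩

theorem gu_D_inv (hD : IsDiscriminant (projVar P) Λ u D B) : ∀ y ∈ D, ∀ l ∈ Λ, y + l ∈ D := hD.invariant

end Pool.Agent.TGF

end
end

section

/-!
# G4 F QEx: the form `Q`, any dimension

As `G3/F/QEx`.  `Csf.fin`, `Csf.tr`: the finite group of the permutations of `S` (modulo equality off `D`) gives `M ≥ 1` with `Φ (y + M l) = Φ y` for `y ∉ D`, `l ∈ Λ`, `Φ ∈ S` (as `period` in `Z/LocA`).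
`exists_form_of_sections` with `Γ = M Λ` gives `Q₁`; `Q = Q₁ R` (degree `≥ 1`), `Q ∉ P` (prime).  `c > 0` small: `‖eval x Q‖ ≤ C ‖x‖ ^ e` (`TG.norm_eval_le`; the norm of `EN N` dominates the sup norm).
The function is nowhere locally `0` on the cone because `Q ∉ P` (in a chart: `exists_coneChart`).
-/

set_option autoImplicit false

open Topology Filter Metric MvPolynomial

namespace Pool.Agent.G4

open Pool.Agent.H17 (PN VanishesAt HolomorphicInto puncturedDisc)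
open Pool.Agent.H62.FC (Homog)
open Pool.Agent.H17LG.Variety (FunField IsLogGeneralType)
open Pool.Agent.H17EF (projVar coneE LE mem_coneE mk_mem_projVar)
open Pool.Agent.H36.BP (EN fs wd Sub Curve)
open Pool.Agent.H14.PP (IsCone CurveAt Tan)
open Pool.Agent.H62.EF (MN pr)
open Pool.Agent.AD (Vd Chart Charts uV IsHolomorphicTorusMap)
open Pool.Agent.TG (TMap Lat Geo Gd VForm Fb)
open Pool.Agent.TGF (Cn Over IsDiscriminant)
open Pool.Agent.G3 (QD exists_form_of_sections)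

/-- a common period of the finitely many sections -/
private theorem period_all {N k : ℕ} {X : Set (EN N)} {Λ : AddSubgroup (Vd (k + 1))} {u : EN N → Vd (k + 1)} {D B : Set (Vd (k + 1))}
    {S : Set (Vd (k + 1) → MN N)} (G : Geo X Λ u D B) (hS : Csf X Λ u D S) :
    ∃ M : ℕ, 1 ≤ M ∧ ∀ Φ ∈ S, ∀ l ∈ Λ, ∀ y ∉ D, Φ (y + M • l) = Φ y := by
  classical
  set T := hS.fin.toFinset with hT
  refine ⟨T.card.factorial, Nat.factorial_pos _, fun Φ hΦ l hl => ?_⟩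
  have h1 : ∀ m : ℕ, ∃ f ∈ S, ∀ y ∉ D, f y = Φ (y + m • l) := fun m => hS.tr Φ hΦ (m • l) (Λ.nsmul_mem hl m)
  choose f hf hfe using h1
  obtain ⟨i, hi, j, hj, hij, hfij⟩ := Finset.exists_ne_map_eq_of_card_lt_of_maps_to (s := Finset.range (T.card + 1)) (t := T) (f := f)
    (by rw [Finset.card_range]; omega) (fun m _ => by rw [hT]; simpa using hf m)
  obtain ⟨m, hm1, hm2, hm⟩ : ∃ m : ℕ, 1 ≤ m ∧ m ≤ T.card ∧ ∀ y ∉ D, Φ (y + m • l) = Φ y := by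
    have key : ∀ i j : ℕ, i < j → j ≤ T.card → f i = f j → ∃ m : ℕ, 1 ≤ m ∧ m ≤ T.card ∧ ∀ y ∉ D, Φ (y + m • l) = Φ y := by
      intro i j hij hj hfij
      refine ⟨j - i, by omega, by omega, fun y hy => ?_⟩
      have hy' : y - i • l ∉ D := by
        intro h
        have h2 := G.D_inv _ h (i • l) (Λ.nsmul_mem hl i)
        rw [sub_add_cancel] at h2
        exact hy h2
      have h2 := hfe i _ hy'
      have h3 := hfe j _ hy'
      rw [hfij, h3] at h2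
      rw [sub_add_cancel] at h2
      rw [← h2]
      congr 1
      have e : j = i + (j - i) := by omega
      conv_rhs => rw [e, add_smul]
      abel
    rw [Finset.mem_range] at hi hj
    rcases lt_or_gt_of_ne hij with h | h
    · exact key i j h (by omega) hfij
    · exact key j i h (by omega) hfij.symm
  obtain ⟨n, hn⟩ := Nat.dvd_factorial hm1 hm2
  have h2 : ∀ t : ℕ, ∀ y ∉ D, Φ (y + (m * t) • l) = Φ y := by
    intro t
    induction t with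
    | zero =>
      intro y _
      rw [mul_zero, zero_smul, add_zero]
    | succ t ih =>
      intro y hy
      have hy' : y + (m * t) • l ∉ D := by
        intro h
        exact hy ((G.D_sub (Λ.nsmul_mem hl _)).1 h)
      rw [mul_add, mul_one, add_smul, ← add_assoc, hm _ hy', ih y hy]
  rw [hn]
  exact h2 n

private theorem vanishes_mk {N : ℕ} {Q : MvPolynomial (Fin (N + 1)) ℂ} {e : ℕ} (hQ : Q.IsHomogeneous e) {x : Fin (N + 1) → ℂ} (hx : x ≠ 0)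
    (h : VanishesAt Q (Projectivization.mk ℂ x hx)) : eval x Q = 0 := by
  obtain ⟨a, ha, hrep⟩ := Pool.Agent.H36.BP.rep_mk hx
  unfold VanishesAt at h
  rw [hrep, Pool.Agent.H22.AlgD.eval_smul_form hQ] at h
  exact (mul_eq_zero.1 h).resolve_left (pow_ne_zero _ ha)

theorem exists_Q {N k : ℕ} {P : Ideal (MvPolynomial (Fin (N + 1)) ℂ)} [P.IsPrime] (hP : Homog P) (hdim : ∃ z : Fin (k + 2) → FunField P, IsTranscendenceBasis ℂ z)
    (hsmooth : Pool.Agent.AD.NC.IsSmooth P (k + 2)) {Λ : AddSubgroup (Cn (k + 1))} {u : PN N → Cn (k + 1) ⧸ Λ} {D B : Set (Cn (k + 1))}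
    (G : Geo (coneE P) Λ (uV Λ u) D B) {S : Set (Vd (k + 1) → MN N)} (hS : Csf (coneE P) Λ (uV Λ u) D S)
    (hR : ∃ (e : ℕ) (R : MvPolynomial (Fin (N + 1)) ℂ), R.IsHomogeneous e ∧ R ∉ P ∧
      ∀ x ∈ projVar P, (∃ y ∈ D, u x = (y : Cn (k + 1) ⧸ Λ)) → VanishesAt R x) :
    ∃ (e : ℕ) (Q : MvPolynomial (Fin (N + 1)) ℂ) (c : ℝ), Q.IsHomogeneous e ∧ Q ∉ P ∧ 0 < c ∧
      QD (coneE P) Λ (uV Λ u) D (fun x => (c : ℂ) * eval ((LE N).symm x) Q) e ∧
      (∀ x ∈ coneE P, ∃ᶠ x' in 𝓝 x, x' ∈ coneE P ∧ (c : ℂ) * eval ((LE N).symm x') Q ≠ 0) ∧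
      (∀ Φ ∈ S, ∀ y ∉ D, ∀ x ∈ coneE P, pr x = Φ y → (c : ℂ) * eval ((LE N).symm x) Q = 0) ∧
      ∀ x ∈ projVar P, (∃ y ∈ D, u x = (y : Cn (k + 1) ⧸ Λ)) → VanishesAt Q x := by
  classical
  obtain ⟨z, hz⟩ := hdim
  obtain ⟨e, R, hRe, hRP, hRv⟩ := hR
  obtain ⟨j₀, hj₀⟩ := Pool.Agent.H92.GT.Proj.exists_coordFun_ne_zero P z hz
  have hXP : ∃ i, (MvPolynomial.X i : MvPolynomial (Fin (N + 1)) ℂ) ∉ P := ⟨j₀, Pool.Agent.H17R.coordFun_ne_zero_iff.1 hj₀⟩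
  obtain ⟨M, hM, hMp⟩ := period_all G hS
  obtain ⟨J, Φ, -, hΦ⟩ := hS.fin.fin_param
  have hΦS : ∀ j, Φ j ∈ S := fun j => by rw [← hΦ]; exact ⟨j, rfl⟩
  have hM0 : (0 : ℝ) < M := by exact_mod_cast hM
  obtain ⟨Γ, hΓ⟩ : ∃ Γ : AddSubgroup (Vd (k + 1)), Γ = Λ.map (nsmulAddMonoidHom (α := Vd (k + 1)) M) := ⟨_, rfl⟩
  have hΓmem : ∀ g : Vd (k + 1), g ∈ Γ → ∃ l ∈ Λ, g = M • l := by
    intro g hg
    rw [hΓ] at hg
    obtain ⟨l, hl, rfl⟩ := hg
    exact ⟨l, hl, rfl⟩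
  have hcpt : ∃ r : ℝ, ∀ y : Vd (k + 1), ∃ l ∈ Γ, ‖y - l‖ ≤ r := by
    obtain ⟨r, hr, h⟩ := G.lat.cpt
    refine ⟨M * r, fun y => ?_⟩
    obtain ⟨l, hl, hl'⟩ := h ((M : ℝ)⁻¹ • y)
    refine ⟨M • l, by rw [hΓ]; exact ⟨l, hl, rfl⟩, ?_⟩
    have e1 : y - M • l = (M : ℝ) • ((M : ℝ)⁻¹ • y - l) := by
      rw [smul_sub, smul_inv_smul₀ hM0.ne']
      congr 1
      exact (Nat.cast_smul_eq_nsmul ℝ M l).symm
    rw [e1, norm_smul, Real.norm_of_nonneg hM0.le]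
    exact mul_le_mul_of_nonneg_left hl' hM0.le
  have hinv : ∀ y ∈ D, ∀ l ∈ Γ, y + l ∈ D := by
    intro y hy l hl
    obtain ⟨l', hl', rfl⟩ := hΓmem l hl
    exact G.D_inv y hy _ (Λ.nsmul_mem hl' M)
  have hper : ∀ j, ∀ l ∈ Γ, ∀ y ∉ D, Φ j (y + l) = Φ j y := by
    intro j l hl y hy
    obtain ⟨l', hl', rfl⟩ := hΓmem l hl
    exact hMp _ (hΦS j) l' hl' y hy
  have hmer : ∀ j, ∀ y₀ : Vd (k + 1), ∃ φ : Vd (k + 1) → EN N, AnalyticAt ℂ φ y₀ ∧ (¬ ∀ᶠ z in 𝓝 y₀, φ z = 0) ∧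
      ∀ᶠ z in 𝓝 y₀, z ∉ D → φ z ≠ 0 → Φ j z = pr (φ z) := by
    intro j y₀
    obtain ⟨φ, hφ, hφ0, hφp⟩ := hS.mer _ (hΦS j) y₀
    exact ⟨φ, hφ, fun hcon => hφ0 (hcon.mono fun z hz => not_not.2 hz), hφp⟩
  have hX0 : ∀ x ∈ coneE P, x ≠ 0 := by
    intro x hx h
    exact hx.1 (by rw [h, map_zero])
  have hhol : ∀ j, ∀ y₀ ∉ D, ∃ φ : Vd (k + 1) → EN N, AnalyticAt ℂ φ y₀ ∧ φ y₀ ≠ 0 ∧ ∀ᶠ z in 𝓝 y₀, Φ j z = pr (φ z) := by
    intro j y₀ hy₀
    obtain ⟨φ, hφ, h⟩ := hS.hol _ (hΦS j) y₀ hy₀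
    exact ⟨φ, hφ, hX0 _ h.self_of_nhds.1, h.mono fun z hz => hz.2.1⟩
  obtain ⟨d, Q₁, hd, hQ₁, hQ₁P, hQ₁v⟩ := exists_form_of_sections (n := k + 1) (z := z) hz hXP hcpt G.D_closed hinv G.D_thin hper hmer hhol
  have hQ : (Q₁ * R).IsHomogeneous (d + e) := hQ₁.mul hRe
  have hQP : Q₁ * R ∉ P := by
    intro h
    rcases Ideal.IsPrime.mem_or_mem inferInstance h with h1 | h1
    · exact hQ₁P h1
    · exact hRP h1
  have hRv' : ∀ x ∈ projVar P, (∃ y ∈ D, u x = (y : Cn (k + 1) ⧸ Λ)) → VanishesAt (Q₁ * R) x := by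
    intro x hx hy
    have h := hRv x hx hy
    unfold VanishesAt at *
    rw [map_mul, h, mul_zero]
  obtain ⟨C, hC, hCb⟩ := Pool.Agent.TG.norm_eval_le hQ
  have hc0 : (0 : ℝ) < (C + 1)⁻¹ := inv_pos.2 (by linarith)
  refine ⟨d + e, Q₁ * R, (C + 1)⁻¹, hQ, hQP, hc0, ?_, ?_, ?_, hRv'⟩
  · refine ⟨by omega, ?_, ?_, ?_, ?_⟩
    · have h1 : Differentiable ℂ fun x : EN N => eval ((LE N).symm x) (Q₁ * R) := by
        intro x
        have h2 : AnalyticAt ℂ (fun y : EN N => eval ((LE N).symm y) (Q₁ * R)) x :=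
          Pool.Agent.H22.AlgD.analyticAt_eval (((LE N).symm : EN N →L[ℂ] (Fin (N + 1) → ℂ)).analyticAt x) (Q₁ * R)
        exact h2.differentiableAt
      exact h1.const_mul _
    · intro c x
      show _ * eval ((LE N).symm (c • x)) (Q₁ * R) = _
      rw [map_smul, Pool.Agent.H22.AlgD.eval_smul_form hQ]
      ring
    · intro x hx
      rw [norm_mul, Complex.norm_real, Real.norm_of_nonneg hc0.le]
      have h1 := hCb ((LE N).symm x)
      have h2 : ‖(LE N).symm x‖ ≤ ‖x‖ := Pool.Agent.H22.WL.norm_ofLp_le x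
      have h3 : ‖eval ((LE N).symm x) (Q₁ * R)‖ ≤ (C + 1) * ‖x‖ ^ (d + e) := by
        refine h1.trans (mul_le_mul (by linarith) (pow_le_pow_left₀ (norm_nonneg _) h2 _) (by positivity) (by linarith))
      calc (C + 1)⁻¹ * ‖eval ((LE N).symm x) (Q₁ * R)‖ ≤ (C + 1)⁻¹ * ((C + 1) * ‖x‖ ^ (d + e)) := mul_le_mul_of_nonneg_left h3 hc0.le
        _ = ‖x‖ ^ (d + e) := by
          rw [← mul_assoc, inv_mul_cancel₀ (by linarith), one_mul]
    · intro x hx y hy hxy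
      obtain ⟨h1, h2⟩ := (mem_coneE hP).1 hx
      have h3 : u (Projectivization.mk ℂ ((LE N).symm x) h1) = (y : Cn (k + 1) ⧸ Λ) := by
        rw [← Pool.Agent.AD.uV_eq Λ u h1]
        exact Pool.Agent.AD.sub_mem_iff.1 hxy
      show _ * eval ((LE N).symm x) (Q₁ * R) = 0
      rw [vanishes_mk hQ h1 (hRv' _ h2 ⟨y, hy, h3⟩), mul_zero]
  · intro x hx
    obtain ⟨l, hl⟩ : ∃ l, (LE N).symm x l ≠ 0 := by
      by_contra h
      push Not at h
      exact hx.1 (funext h)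
    obtain ⟨I, σ, h1, h2, h3, -, h5⟩ := Pool.Agent.H13.SM.exists_coneChart hP (n := k + 2) hz hsmooth hx.2 hl
    have h6 := h5 _ _ hQ hQP
    have ht : Tendsto (fun w => (LE N) (σ w)) (𝓝 0) (𝓝 x) := by
      have h7 : Tendsto (fun w => (LE N) (σ w)) (𝓝 0) (𝓝 ((LE N) (σ 0))) := (LE N).continuous.continuousAt.tendsto.comp h1.continuousAt.tendsto
      rwa [h2, ContinuousLinearEquiv.apply_symm_apply] at h7
    refine ht.frequently ?_
    refine (Filter.not_eventually.1 h6 |>.and_eventually h3).mono ?_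
    rintro w ⟨hw1, hw2, hw3, -⟩
    have e1 : (LE N).symm ((LE N) (σ w)) = σ w := (LE N).symm_apply_apply _
    refine ⟨⟨?_, ?_⟩, ?_⟩
    · rw [e1]
      intro h
      apply hl
      rw [← hw3, h]
      rfl
    · intro Q hQ
      rw [e1]
      exact hw2 Q hQ
    · rw [e1]
      exact mul_ne_zero (by exact_mod_cast hc0.ne') hw1
  · intro Ψ hΨ y hy x hx hxy
    obtain ⟨j, rfl⟩ : ∃ j, Φ j = Ψ := by
      rw [← hΦ] at hΨ
      exact hΨ
    rw [map_mul, hQ₁v j y hy x (hX0 x hx) hxy, zero_mul, mul_zero]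

end Pool.Agent.G4

end
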