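import Pool.Agent.H94.G4T.M118
import Pool.Agent.H94.G4T.M20
import Pool.Agent.H94.G4T.M24
import Pool.Agent.H94.G4T.M51

/-! The parts of this file: G3.R.Mob, G3.R.ExN, G4.H.Ser, G4.H.Dim. -/

section

/-!
# G3 R Mob: automorphisms of the disc and the behaviour of the functional under compositions

`exists_mob`: `ψ z = r² (z + a) / (r² + ā z)`.
`pf_comp`: `deriv (F ∘ φ) z = deriv φ z • deriv F (φ z)` and `hP.hom` (`Cv.tan`).  The other statements follow (`(‖φ'‖ ^ m * p) ^ (1/m) = ‖φ'‖ * p ^ (1/m)`).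
-/

set_option autoImplicit false

open Topology Filter Metric

namespace Pool.Agent.G3

open Pool.Agent.H36.BP (EN fs wd Sub)
open Pool.Agent.H14.PP (IsCone CurveAt Tan)
open Pool.Agent.H62.EF (MN pr)
open Pool.Agent.AD (Vd Chart Charts)
open Pool.Agent.TG (TMap Gd)

variable {N k : ℕ} {X : Set (EN N)} {Λ : AddSubgroup (Vd (k + 1))} {u : EN N → Vd (k + 1)} {D : Set (Vd (k + 1))} {p : EN N → EN N → ℝ} {m d : ℕ} {C : ℝ} {Q : EN N → ℂ}

theorem exists_mob {r : ℝ} (hr : 0 < r) {a : ℂ} (ha : ‖a‖ < r) : ∃ ψ : ℂ → ℂ, DifferentiableOn ℂ ψ (ball 0 r) ∧ Set.MapsTo ψ (ball 0 r) (ball 0 r) ∧ ψ 0 = a ∧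
    ∀ z ∈ ball (0 : ℂ) r, deriv ψ z ≠ 0 ∧ ‖deriv ψ z‖ * (r ^ 2 - ‖z‖ ^ 2) = r ^ 2 - ‖ψ z‖ ^ 2 := by
  set q : ℂ → ℂ := fun z => (r : ℂ) ^ 2 + (starRingEnd ℂ) a * z with hq
  have hrc : (r : ℂ) ≠ 0 := by exact_mod_cast hr.ne'
  -- the denominator is not zero
  have hlt : ∀ z ∈ ball (0 : ℂ) r, ‖(starRingEnd ℂ) a * z‖ < r ^ 2 := fun z hz => by
    rw [mem_ball_zero_iff] at hz
    rw [norm_mul, RCLike.norm_conj]
    have h1 : ‖a‖ * ‖z‖ ≤ r * ‖z‖ := mul_le_mul_of_nonneg_right ha.le (norm_nonneg z)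
    nlinarith [norm_nonneg z, norm_nonneg a]
  have hne : ∀ z ∈ ball (0 : ℂ) r, q z ≠ 0 := fun z hz h0 => by
    have h1 := hlt z hz
    have h2 : (starRingEnd ℂ) a * z = -(r : ℂ) ^ 2 := by
      simp only [hq] at h0
      linear_combination h0
    rw [h2, norm_neg, norm_pow, Complex.norm_real, Real.norm_eq_abs, sq_abs] at h1
    exact lt_irrefl _ h1
  have ha2 : 0 < r ^ 2 - ‖a‖ ^ 2 := by nlinarith [norm_nonneg a]
  -- the identity of norms
  have hid : ∀ z : ℂ, ‖q z‖ ^ 2 - r ^ 2 * ‖z + a‖ ^ 2 = (r ^ 2 - ‖z‖ ^ 2) * (r ^ 2 - ‖a‖ ^ 2) := fun z => by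
    simp only [hq, ← Complex.normSq_eq_norm_sq, Complex.normSq_apply]
    have e1 : ((r : ℂ) ^ 2).re = r ^ 2 := by
      rw [← Complex.ofReal_pow, Complex.ofReal_re]
    have e2 : ((r : ℂ) ^ 2).im = 0 := by
      rw [← Complex.ofReal_pow, Complex.ofReal_im]
    simp only [Complex.add_re, Complex.add_im, Complex.mul_re, Complex.mul_im, Complex.conj_re, Complex.conj_im, e1, e2]
    ring
  have hder : ∀ z ∈ ball (0 : ℂ) r, HasDerivAt (fun z => (r : ℂ) ^ 2 * (z + a) / q z) ((r : ℂ) ^ 2 * ((r : ℂ) ^ 2 - (starRingEnd ℂ) a * a) / q z ^ 2) z := fun z hz => by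
    have h1 : HasDerivAt (fun z : ℂ => (r : ℂ) ^ 2 * (z + a)) ((r : ℂ) ^ 2 * 1) z := ((hasDerivAt_id z).add_const a).const_mul _
    have h2 : HasDerivAt q ((starRingEnd ℂ) a * 1) z := ((hasDerivAt_id z).const_mul _).const_add _
    refine (h1.div h2 (hne z hz)).congr_deriv ?_
    congr 1
    simp only [hq]
    ring
  have hr2 : ‖(r : ℂ) ^ 2‖ = r ^ 2 := by
    rw [norm_pow, Complex.norm_real, Real.norm_eq_abs, sq_abs]
  have hval : ∀ z : ℂ, ‖(r : ℂ) ^ 2 * (z + a) / q z‖ = r ^ 2 * ‖z + a‖ / ‖q z‖ := fun z => by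
    rw [norm_div, norm_mul, hr2]
  have hdv : ∀ z : ℂ, ‖(r : ℂ) ^ 2 * ((r : ℂ) ^ 2 - (starRingEnd ℂ) a * a) / q z ^ 2‖ = r ^ 2 * (r ^ 2 - ‖a‖ ^ 2) / ‖q z‖ ^ 2 := fun z => by
    rw [norm_div, norm_mul, hr2, norm_pow]
    congr 2
    have h1 : (r : ℂ) ^ 2 - (starRingEnd ℂ) a * a = ((r ^ 2 - ‖a‖ ^ 2 : ℝ) : ℂ) := by
      rw [mul_comm, Complex.mul_conj, Complex.normSq_eq_norm_sq]
      push_cast
      ring
    rw [h1, Complex.norm_real, Real.norm_eq_abs, abs_of_pos ha2]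
  refine ⟨fun z => (r : ℂ) ^ 2 * (z + a) / q z, fun z hz => (hder z hz).differentiableAt.differentiableWithinAt, fun z hz => ?_, ?_, fun z hz => ⟨?_, ?_⟩⟩
  · have hq0 : 0 < ‖q z‖ := norm_pos_iff.2 (hne z hz)
    have hz' := hz
    rw [mem_ball_zero_iff] at hz' ⊢
    rw [hval, div_lt_iff₀ hq0]
    have h1 := hid z
    have h2 : 0 < (r ^ 2 - ‖z‖ ^ 2) * (r ^ 2 - ‖a‖ ^ 2) := mul_pos (by nlinarith [norm_nonneg z]) ha2
    have h3 : (r * ‖z + a‖) ^ 2 < ‖q z‖ ^ 2 := by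
      rw [mul_pow]
      linarith
    have h4 : r * ‖z + a‖ < ‖q z‖ := lt_of_pow_lt_pow_left₀ 2 hq0.le h3
    calc r ^ 2 * ‖z + a‖ = r * (r * ‖z + a‖) := by ring
      _ < r * ‖q z‖ := mul_lt_mul_of_pos_left h4 hr
  · simp only [hq]
    rw [mul_zero, add_zero, zero_add, mul_comm, mul_div_assoc, div_self (pow_ne_zero 2 hrc), mul_one]
  · rw [(hder z hz).deriv, ← norm_pos_iff, hdv]
    have hq0 : 0 < ‖q z‖ := norm_pos_iff.2 (hne z hz)
    positivity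
  · rw [(hder z hz).deriv, hdv]
    have hq0 : 0 < ‖q z‖ := norm_pos_iff.2 (hne z hz)
    show r ^ 2 * (r ^ 2 - ‖a‖ ^ 2) / ‖q z‖ ^ 2 * (r ^ 2 - ‖z‖ ^ 2) = r ^ 2 - ‖(r : ℂ) ^ 2 * (z + a) / q z‖ ^ 2
    rw [hval, div_pow, div_mul_eq_mul_div, div_eq_iff (by positivity), sub_mul, div_mul_cancel₀ _ (by positivity)]
    linear_combination (-r ^ 2) * hid z

private theorem deriv_comp_aux {U V : Set ℂ} (hU : IsOpen U) (hV : IsOpen V) {E : Type} [NormedAddCommGroup E] [NormedSpace ℂ E] {F : ℂ → E} (hF : DifferentiableOn ℂ F U)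
    {φ : ℂ → ℂ} (hφ : DifferentiableOn ℂ φ V) (hm : Set.MapsTo φ V U) {z : ℂ} (hz : z ∈ V) :
    deriv (fun w => F (φ w)) z = deriv φ z • deriv F (φ z) := by
  have h1 : DifferentiableAt ℂ F (φ z) := (hF _ (hm hz)).differentiableAt (hU.mem_nhds (hm hz))
  have h2 : DifferentiableAt ℂ φ z := (hφ _ hz).differentiableAt (hV.mem_nhds hz)
  exact (h1.hasDerivAt.scomp z h2.hasDerivAt).deriv

theorem deriv_h_comp {U V : Set ℂ} (hU : IsOpen U) (hV : IsOpen V) {F : ℂ → EN N} {h : ℂ → Vd (k + 1)} (hF : Cv X Λ u U F h) {φ : ℂ → ℂ}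
    (hφ : DifferentiableOn ℂ φ V) (hm : Set.MapsTo φ V U) {z : ℂ} (hz : z ∈ V) : ‖deriv (fun w => h (φ w)) z‖ = ‖deriv φ z‖ * ‖deriv h (φ z)‖ := by
  rw [deriv_comp_aux hU hV hF.h_diff hφ hm hz, norm_smul]

theorem pf_comp (hP : PS X Λ u D p m C) {U V : Set ℂ} (hU : IsOpen U) (hV : IsOpen V) {F : ℂ → EN N} {h : ℂ → Vd (k + 1)} (hF : Cv X Λ u U F h) {φ : ℂ → ℂ}
    (hφ : DifferentiableOn ℂ φ V) (hm : Set.MapsTo φ V U) {z : ℂ} (hz : z ∈ V) : pf p (fun w => F (φ w)) z = ‖deriv φ z‖ ^ m * pf p F (φ z) := by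
  unfold pf
  rw [deriv_comp_aux hU hV hF.F_diff hφ hm hz]
  exact hP.hom _ (hF.mem _ (hm hz)) _ (hF.tan hU (hm hz)) _

theorem ok_comp (hP : PS X Λ u D p m C) {U V : Set ℂ} (hU : IsOpen U) (hV : IsOpen V) {F : ℂ → EN N} {h : ℂ → Vd (k + 1)} (hF : Cv X Λ u U F h) {φ : ℂ → ℂ}
    (hφ : DifferentiableOn ℂ φ V) (hm : Set.MapsTo φ V U) {z : ℂ} (hz : z ∈ V) (hd : deriv φ z ≠ 0) : Ok Q p (fun w => F (φ w)) z ↔ Ok Q p F (φ z) := by
  unfold Ok
  rw [pf_comp hP hU hV hF hφ hm hz]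
  have h1 : 0 < ‖deriv φ z‖ ^ m := pow_pos (norm_pos_iff.2 hd) m
  exact and_congr_right fun _ => mul_pos_iff_of_pos_left h1

theorem lam_comp (hP : PS X Λ u D p m C) {U V : Set ℂ} (hU : IsOpen U) (hV : IsOpen V) {F : ℂ → EN N} {h : ℂ → Vd (k + 1)} (hF : Cv X Λ u U F h) {φ : ℂ → ℂ}
    (hφ : DifferentiableOn ℂ φ V) (hm : Set.MapsTo φ V U) {z : ℂ} (hz : z ∈ V) (hd : deriv φ z ≠ 0) :
    Lam Q d p m (fun w => F (φ w)) (fun w => h (φ w)) z = Lam Q d p m F h (φ z) := by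
  have h1 : ‖deriv φ z‖ ^ m ≠ 0 := (pow_pos (norm_pos_iff.2 hd) m).ne'
  unfold Lam Np
  rw [pf_comp hP hU hV hF hφ hm hz, deriv_h_comp hU hV hF hφ hm hz, mul_pow, mul_div_mul_left _ _ h1]

theorem mf_comp (hP : PS X Λ u D p m C) {U V : Set ℂ} (hU : IsOpen U) (hV : IsOpen V) {F : ℂ → EN N} {h : ℂ → Vd (k + 1)} (hF : Cv X Λ u U F h) {φ : ℂ → ℂ}
    (hφ : DifferentiableOn ℂ φ V) (hm : Set.MapsTo φ V U) {z : ℂ} (hz : z ∈ V) {ε : ℝ} (hε : 0 < ε) :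
    Mf p m ε (fun w => F (φ w)) (fun w => h (φ w)) z = ‖deriv φ z‖ * Mf p m ε F h (φ z) := by
  have hm0 : m ≠ 0 := by
    have := hP.m_pos
    omega
  have h0 : 0 ≤ pf p F (φ z) := hP.nonneg _ _
  unfold Mf
  rw [pf_comp hP hU hV hF hφ hm hz, deriv_h_comp hU hV hF hφ hm hz, Real.mul_rpow (by positivity) h0, one_div,
    Real.pow_rpow_inv_natCast (norm_nonneg _) hm0, mul_max_of_nonneg _ _ (norm_nonneg _)]
  congr 1
  ring

end Pool.Agent.G3

end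

section

/-!
# G3 R ExN: existence of normalised curves

Plan.  `exists_max` with `r = 1/2` gives `w`; since `0 < Mf 0` also `0 < Mf w` (take `z = 0`).  `exists_mob` (`r = 1/2`, `a = w`) gives `ψ`; `F₁ = F ∘ ψ`, `h₁ = h ∘ ψ` on `ball 0 (1/2)`,
`(r² - |z|²) Mf₁ z = (r² - |ψ z|²) Mf (ψ z)`, so the function of `exists_max` is maximal at `0` for `F₁`.  `t = Mf₁ 0 > 0`, `F' z = F₁ (z / t)`, `R = t / 2`.
Last inequality: `R² / (A + Lam' 0) = r² Mf₁ 0 ² / (A + Lam w) = (r² - |w|²)² Mf w ² / (r² (A + Lam w)) ≥ r² Mf 0 ² / (A + Lam 0)`.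
-/

set_option autoImplicit false

open Topology Filter Metric

namespace Pool.Agent.G3

open Pool.Agent.H36.BP (EN fs wd Sub)
open Pool.Agent.H14.PP (IsCone CurveAt Tan)
open Pool.Agent.H62.EF (MN pr)
open Pool.Agent.AD (Vd Chart Charts)
open Pool.Agent.TG (TMap Gd)

variable {N k : ℕ} {X : Set (EN N)} {Λ : AddSubgroup (Vd (k + 1))} {u : EN N → Vd (k + 1)} {D : Set (Vd (k + 1))} {p : EN N → EN N → ℝ} {m d : ℕ} {C : ℝ} {Q : EN N → ℂ}

theorem exists_nrm (hX : IsCone X) (hP : PS X Λ u D p m C) (hQ : QD X Λ u D Q d) {ε A : ℝ} (hε : 0 < ε) (hA : 0 < A) {F : ℂ → EN N} {h : ℂ → Vd (k + 1)}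
    (hF : Cv X Λ u (ball 0 1) F h) (h0 : Ok Q p F 0) (hM : 0 < Mf p m ε F h 0) :
    ∃ (R : ℝ) (F' : ℂ → EN N) (h' : ℂ → Vd (k + 1)), Nrm X Λ u Q d p m ε A R F' h' ∧
      Mf p m ε F h 0 ^ 2 * (A + Lam Q d p m F' h' 0) ≤ 4 * R ^ 2 * (A + Lam Q d p m F h 0) := by
  have hr : (0 : ℝ) < 1 / 2 := by norm_num
  obtain ⟨w, hw, hokw, hmax⟩ := exists_max hX hP hQ (ε := ε) (A := A) hε hA hF h0 (r := 1 / 2) hr (by norm_num)
  have hw' : ‖w‖ < 1 / 2 := by simpa using hw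
  obtain ⟨ψ, hψd, hψm, hψ0, hψ⟩ := exists_mob hr hw'
  have hsub : ball (0 : ℂ) (1 / 2) ⊆ ball 0 1 := ball_subset_ball (by norm_num)
  have h00 : (0 : ℂ) ∈ ball (0 : ℂ) (1 / 2) := mem_ball_self hr
  have h0m := hmax 0 h00 h0
  have hL0 := (lam_nonneg (p := p) (m := m) (h := h) hX hQ (hF.mem 0 (hsub h00)) h0.1).2.2
  have hLw := (lam_nonneg (p := p) (m := m) (h := h) hX hQ (hF.mem w (hsub hw)) hokw.1).2.2
  have hMw0 : 0 ≤ Mf p m ε F h w := le_max_of_le_left (norm_nonneg _)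
  have hMw : 0 < Mf p m ε F h w := by
    refine lt_of_le_of_ne hMw0 fun he => ?_
    rw [← he] at h0m
    have h1 : 0 < ((1 / 2 : ℝ) ^ 2 - ‖(0 : ℂ)‖ ^ 2) ^ 2 * Mf p m ε F h 0 ^ 2 * (A + Lam Q d p m F h w) := by
      rw [norm_zero]
      have h2 : 0 < A + Lam Q d p m F h w := by linarith
      have h3 : 0 < Mf p m ε F h 0 ^ 2 := by positivity
      have h4 : (0 : ℝ) < ((1 / 2 : ℝ) ^ 2 - 0 ^ 2) ^ 2 := by norm_num
      positivity
    have h5 : ((1 / 2 : ℝ) ^ 2 - ‖w‖ ^ 2) ^ 2 * (0 : ℝ) ^ 2 * (A + Lam Q d p m F h 0) = 0 := by ring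
    linarith
  obtain ⟨hd0, hd1⟩ := hψ 0 h00
  have hS : 0 < (1 / 2 : ℝ) ^ 2 - ‖w‖ ^ 2 := by nlinarith [norm_nonneg w]
  rw [hψ0, norm_zero] at hd1
  set S : ℝ := (1 / 2 : ℝ) ^ 2 - ‖w‖ ^ 2 with hSdef
  set M : ℝ := Mf p m ε F h w with hM'
  have hd2 : ‖deriv ψ 0‖ = 4 * S := by
    have h1 : ‖deriv ψ 0‖ * ((1 / 2 : ℝ) ^ 2 - 0 ^ 2) = ‖deriv ψ 0‖ / 4 := by ring
    rw [h1] at hd1
    linarith
  set t : ℝ := 4 * S * M with ht
  have ht0 : 0 < t := by positivity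
  have htc : (t : ℂ) ≠ 0 := by exact_mod_cast ht0.ne'
  have hR : 0 < t / 2 := by positivity
  -- the scaling
  have hsc : Set.MapsTo (fun z : ℂ => z / t) (ball 0 (t / 2)) (ball 0 (1 / 2)) := by
    intro z hz
    rw [mem_ball_zero_iff] at hz ⊢
    rw [norm_div, Complex.norm_real, Real.norm_of_nonneg ht0.le, div_lt_iff₀ ht0]
    linarith
  have hφd : DifferentiableOn ℂ (fun z : ℂ => ψ (z / t)) (ball 0 (t / 2)) :=
    hψd.comp (differentiableOn_id.div_const _) hsc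
  have hφm' : Set.MapsTo (fun z : ℂ => ψ (z / t)) (ball 0 (t / 2)) (ball 0 (1 / 2)) := fun z hz => hψm (hsc hz)
  have hφm : Set.MapsTo (fun z : ℂ => ψ (z / t)) (ball 0 (t / 2)) (ball 0 1) := fun z hz => hsub (hφm' hz)
  have hφ' : ∀ z ∈ ball (0 : ℂ) (t / 2), deriv (fun z : ℂ => ψ (z / t)) z = deriv ψ (z / t) / t := by
    intro z hz
    have h1 : HasDerivAt ψ (deriv ψ (z / t)) (z / t) :=
      (hψd.differentiableAt (isOpen_ball.mem_nhds (hsc hz))).hasDerivAt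
    have h2 : HasDerivAt (fun z : ℂ => z / t) (1 / (t : ℂ)) z := (hasDerivAt_id z).div_const _
    have h3 := h1.comp z h2
    have h4 := h3.deriv
    have h5 : (ψ ∘ fun z : ℂ => z / t) = fun z : ℂ => ψ (z / t) := rfl
    rw [h5] at h4
    rw [h4]
    ring
  have hφn : ∀ z ∈ ball (0 : ℂ) (t / 2), deriv (fun z : ℂ => ψ (z / t)) z ≠ 0 := by
    intro z hz
    rw [hφ' z hz]
    exact div_ne_zero (hψ _ (hsc hz)).1 htc
  have hnorm : ∀ z ∈ ball (0 : ℂ) (t / 2), ‖deriv (fun z : ℂ => ψ (z / t)) z‖ * (1 - ‖z‖ ^ 2 / (t / 2) ^ 2) * t = 4 * ((1 / 2 : ℝ) ^ 2 - ‖ψ (z / t)‖ ^ 2) := by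
    intro z hz
    rw [hφ' z hz, ← (hψ _ (hsc hz)).2, norm_div, norm_div, Complex.norm_real, Real.norm_of_nonneg ht0.le]
    field_simp
    ring
  have hb0 : (0 : ℂ) ∈ ball (0 : ℂ) (t / 2) := mem_ball_self hR
  have hz0 : ψ ((0 : ℂ) / t) = w := by rw [zero_div, hψ0]
  have hmfc : ∀ z ∈ ball (0 : ℂ) (t / 2), Mf p m ε (fun w => F (ψ (w / t))) (fun w => h (ψ (w / t))) z =
      ‖deriv (fun z : ℂ => ψ (z / t)) z‖ * Mf p m ε F h (ψ (z / t)) := fun z hz =>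
    mf_comp hP isOpen_ball isOpen_ball hF hφd hφm hz hε
  have hlamc : ∀ z ∈ ball (0 : ℂ) (t / 2), Lam Q d p m (fun w => F (ψ (w / t))) (fun w => h (ψ (w / t))) z =
      Lam Q d p m F h (ψ (z / t)) := fun z hz =>
    lam_comp hP isOpen_ball isOpen_ball hF hφd hφm hz (hφn z hz)
  have hokc : ∀ z ∈ ball (0 : ℂ) (t / 2), (Ok Q p (fun w => F (ψ (w / t))) z ↔ Ok Q p F (ψ (z / t))) := fun z hz =>
    ok_comp hP isOpen_ball isOpen_ball hF hφd hφm hz (hφn z hz)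
  refine ⟨t / 2, fun z => F (ψ (z / t)), fun z => h (ψ (z / t)), ⟨hR, hA, hF.comp hφd hφm, ?_, ?_, ?_⟩, ?_⟩
  · rw [hokc 0 hb0, hz0]
    exact hokw
  · rw [hmfc 0 hb0, hz0, hφ' 0 hb0, norm_div, zero_div, hd2, Complex.norm_real, Real.norm_of_nonneg ht0.le, ← hM', div_mul_eq_mul_div, ← ht, div_self ht0.ne']
  · intro z hz hok
    rw [hokc z hz] at hok
    have h1 := hmax _ (hφm' hz) hok
    have h2 := hnorm z hz
    rw [hmfc z hz, hlamc z hz, hlamc 0 hb0, hz0]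
    have h3 : t ^ 2 * ((‖deriv (fun z : ℂ => ψ (z / t)) z‖ * Mf p m ε F h (ψ (z / t))) ^ 2 * (1 - ‖z‖ ^ 2 / (t / 2) ^ 2) ^ 2 * (A + Lam Q d p m F h w)) =
        16 * (((1 / 2 : ℝ) ^ 2 - ‖ψ (z / t)‖ ^ 2) ^ 2 * Mf p m ε F h (ψ (z / t)) ^ 2 * (A + Lam Q d p m F h w)) := by
      have h4 : t ^ 2 * ((‖deriv (fun z : ℂ => ψ (z / t)) z‖ * Mf p m ε F h (ψ (z / t))) ^ 2 * (1 - ‖z‖ ^ 2 / (t / 2) ^ 2) ^ 2 * (A + Lam Q d p m F h w)) =
        (‖deriv (fun z : ℂ => ψ (z / t)) z‖ * (1 - ‖z‖ ^ 2 / (t / 2) ^ 2) * t) ^ 2 * Mf p m ε F h (ψ (z / t)) ^ 2 * (A + Lam Q d p m F h w) := by ring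
      rw [h4, h2]
      ring
    have h5 : 16 * (S ^ 2 * M ^ 2 * (A + Lam Q d p m F h (ψ (z / t)))) = t ^ 2 * (A + Lam Q d p m F h (ψ (z / t))) := by
      rw [ht]
      ring
    have h6 : 0 < t ^ 2 := by positivity
    refine le_of_mul_le_mul_left ?_ h6
    rw [h3, ← h5]
    exact mul_le_mul_of_nonneg_left h1 (by norm_num)
  · rw [hlamc 0 hb0, hz0]
    rw [norm_zero] at h0m
    have h7 : 4 * (t / 2) ^ 2 * (A + Lam Q d p m F h 0) = 16 * (S ^ 2 * M ^ 2 * (A + Lam Q d p m F h 0)) := by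
      rw [ht]
      ring
    rw [h7]
    have h8 : Mf p m ε F h 0 ^ 2 * (A + Lam Q d p m F h w) = 16 * (((1 / 2 : ℝ) ^ 2 - 0 ^ 2) ^ 2 * Mf p m ε F h 0 ^ 2 * (A + Lam Q d p m F h w)) := by
      ring
    rw [h8]
    exact mul_le_mul_of_nonneg_left h0m (by norm_num)

end Pool.Agent.G3

end

section

/-!
# G4 H Ser: the theta series

`pk_norm`: `‖pk W M p y‖ * exp (- M wt y) = exp (- M wt (y - p))`.  `term_norm`: so the terms of the series satisfy `‖e (lv b c) y ^ M * pk W M p (y + lv b c)‖ * exp (- M wt y) = exp (- M wt (y + lv b c - p))`.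
`gsum`: `∑ c, exp (- M wt (y + lv b c - p))` converges, locally uniformly in `y` (`wt_low`, `lv_low`: `wt (y + lv b c - p) ≥ c₀ (κ ∑ |c i| - R)²₊ ≥ κ' ∑ |c i| - R'`).
`th_thm`: `th b W e M p` is analytic (locally uniform limit of analytic functions: differentiable by `hasFDerivAt_tsum` with Cauchy bounds, or restrict to finite sums and use a Weierstrass theorem of the library) and quasi-periodic: from `ThF.coc`
`e (lv b c') y ^ M * e (lv b c) (y + lv b c') ^ M = e (lv b (c + c')) y ^ M`, reindex the sum.  `th_norm`: the bound by the sum of the norms; `th_diag`: the term with `y + lv b c = p` has size `1`.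
-/

set_option autoImplicit false

open Topology Filter Metric

namespace Pool.Agent.G4.H

open Pool.Agent.AD (Vd)
open Pool.Agent.TG (Lat)
open Pool.Agent.G3 (wt)

variable {k r : ℕ} {Γ : AddSubgroup (Vd (k + 1))} {W : Fin r → Vd (k + 1) →L[ℂ] ℂ} {e : Vd (k + 1) → Vd (k + 1) → ℂ} {b : RB k} {M : ℕ}

theorem pk_norm (W : Fin r → Vd (k + 1) →L[ℂ] ℂ) (M : ℕ) (p y : Vd (k + 1)) : ‖pk W M p y‖ * Real.exp (-(M * wt W y)) = Real.exp (-(M * wt W (y - p))) := by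
  unfold pk wt
  rw [Complex.norm_exp, ← Real.exp_add]
  congr 1
  have e1 : ((M : ℂ) * ∑ i, (2 * (starRingEnd ℂ) (W i p) * W i y - (starRingEnd ℂ) (W i p) * W i p)).re =
      (M : ℝ) * ∑ i, (2 * (starRingEnd ℂ) (W i p) * W i y - (starRingEnd ℂ) (W i p) * W i p).re := by
    rw [← Complex.re_sum, ← Complex.re_ofReal_mul, Complex.ofReal_natCast]
  rw [e1, ← mul_neg, ← mul_neg, ← mul_add, ← Finset.sum_neg_distrib, ← Finset.sum_neg_distrib, ← Finset.sum_add_distrib]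
  congr 1
  refine Finset.sum_congr rfl fun i _ => ?_
  rw [map_sub, ← Complex.normSq_eq_norm_sq, ← Complex.normSq_eq_norm_sq]
  simp only [Complex.normSq_apply, Complex.sub_re, Complex.sub_im, Complex.mul_re, Complex.mul_im, Complex.conj_re, Complex.conj_im, Complex.re_ofNat, Complex.im_ofNat]
  ring

theorem term_norm (T : ThF Γ W e) (hb : ∀ i, b i ∈ Γ) (M : ℕ) (p y : Vd (k + 1)) (c : Fin (2 * (k + 1)) → ℤ) :
    ‖e (lv b c) y ^ M * pk W M p (y + lv b c)‖ * Real.exp (-(M * wt W y)) = Real.exp (-(M * wt W (y + lv b c - p))) := by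
  rw [norm_mul, norm_pow, T.nrm _ (lv_mem hb c) y, ← pk_norm W M p (y + lv b c), ← Real.exp_nat_mul]
  have e1 : Real.exp ((M : ℝ) * (wt W y - wt W (y + lv b c))) = Real.exp (-(M * wt W (y + lv b c))) * Real.exp (M * wt W y) := by
    rw [← Real.exp_add]
    congr 1
    ring
  have e2 : Real.exp ((M : ℝ) * wt W y) * Real.exp (-(M * wt W y)) = 1 := by
    rw [← Real.exp_add, add_neg_cancel, Real.exp_zero]
  rw [e1]
  calc Real.exp (-(M * wt W (y + lv b c))) * Real.exp (M * wt W y) * ‖pk W M p (y + lv b c)‖ * Real.exp (-(M * wt W y))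
      = ‖pk W M p (y + lv b c)‖ * Real.exp (-(M * wt W (y + lv b c))) * (Real.exp ((M : ℝ) * wt W y) * Real.exp (-(M * wt W y))) := by ring
    _ = _ := by rw [e2, mul_one]

private theorem ser_prod (g : ℤ → ℝ) (hg0 : ∀ k, 0 ≤ g k) (hs : Summable g) (n : ℕ) :
    Summable fun k : Fin n → ℤ => ∏ j, g (k j) := by
  induction n with
  | zero => exact Summable.of_finite
  | succ n ih =>
    rw [← (Fin.consEquiv fun _ : Fin (n + 1) => ℤ).summable_iff]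
    have h1 := hs.mul_of_nonneg ih hg0 (fun k => Finset.prod_nonneg fun j _ => hg0 _)
    refine h1.congr fun k => ?_
    simp [Fin.prod_univ_succ, Fin.consEquiv]

private theorem ser_int {a : ℝ} (ha : 0 < a) : Summable fun k : ℤ => Real.exp (-(a * |(k : ℝ)|)) := by
  have h0 : Summable fun n : ℕ => Real.exp (-a) ^ n := by
    refine summable_geometric_of_lt_one (Real.exp_pos _).le ?_
    rw [Real.exp_lt_one_iff]
    linarith
  have h1 : ∀ n : ℕ, Real.exp (-(a * (n : ℝ))) = Real.exp (-a) ^ n := fun n => by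
    rw [← Real.exp_nat_mul]
    congr 1
    ring
  refine Summable.of_nat_of_neg ?_ ?_
  · simp only [Int.cast_natCast, Nat.abs_cast, h1]
    exact h0
  · simp only [Int.cast_neg, Int.cast_natCast, abs_neg, Nat.abs_cast, h1]
    exact h0

private theorem ser_sum {a : ℝ} (ha : 0 < a) (n : ℕ) : Summable fun c : Fin n → ℤ => Real.exp (-(a * ∑ i, |(c i : ℝ)|)) := by
  have e : (fun c : Fin n → ℤ => Real.exp (-(a * ∑ i, |(c i : ℝ)|))) = fun c : Fin n → ℤ => ∏ i, Real.exp (-(a * |(c i : ℝ)|)) := by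
    funext c
    rw [← Real.exp_sum, Finset.mul_sum, ← Finset.sum_neg_distrib]
  rw [e]
  exact ser_prod (fun k => Real.exp (-(a * |(k : ℝ)|))) (fun k => (Real.exp_pos _).le) (ser_int ha) n

/-- the weights of the translates grow -/
private theorem ser_wt (hW : ∀ y, (∀ i, W i y = 0) → y = 0) (b : RB k) (R : ℝ) :
    ∃ α β : ℝ, 0 < α ∧ ∀ y : Vd (k + 1), ‖y‖ ≤ R → ∀ c, α * ∑ i, |(c i : ℝ)| - β ≤ wt W (y + lv b c) := by
  obtain ⟨c₀, hc₀, h0⟩ := wt_low hW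
  obtain ⟨κ, hκ, h1⟩ := lv_low b
  refine ⟨2 * c₀ * κ, c₀ * (2 * R + 1), by positivity, fun y hy c => ?_⟩
  have h2 := h0 (y + lv b c)
  have h3 := h1 c
  have h4 : ‖lv b c‖ ≤ ‖y + lv b c‖ + ‖y‖ := by
    calc ‖lv b c‖ = ‖(y + lv b c) - y‖ := by rw [add_sub_cancel_left]
      _ ≤ _ := norm_sub_le _ _
  have h5 : 2 * ‖y + lv b c‖ - 1 ≤ ‖y + lv b c‖ ^ 2 := by nlinarith [sq_nonneg (‖y + lv b c‖ - 1)]
  have h6 : 2 * (κ * ∑ i, |(c i : ℝ)| - R) - 1 ≤ ‖y + lv b c‖ ^ 2 := by linarith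
  calc 2 * c₀ * κ * ∑ i, |(c i : ℝ)| - c₀ * (2 * R + 1) = c₀ * (2 * (κ * ∑ i, |(c i : ℝ)| - R) - 1) := by ring
    _ ≤ c₀ * ‖y + lv b c‖ ^ 2 := mul_le_mul_of_nonneg_left h6 hc₀.le
    _ ≤ _ := h2

/-- for large `s` the terms with `c ≠ 0` are small -/
theorem gsum_small (hW : ∀ y, (∀ i, W i y = 0) → y = 0) (b : RB k) : ∃ K : ℕ, 1 ≤ K ∧ ∀ s : ℝ, K ≤ s →
    ∀ S : Finset (Fin (2 * (k + 1)) → ℤ), (0 : Fin (2 * (k + 1)) → ℤ) ∉ S → ∑ c ∈ S, Real.exp (-(s * wt W (lv b c))) ≤ 1 / 4 := by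
  obtain ⟨c₀, hc₀, h0⟩ := wt_low hW
  obtain ⟨κ, hκ, h1⟩ := lv_low b
  set a : ℝ := c₀ * κ ^ 2 with ha
  have ha0 : 0 < a := by positivity
  have hsm := ser_sum ha0 (2 * (k + 1))
  set C : ℝ := ∑' c : Fin (2 * (k + 1)) → ℤ, Real.exp (-(a * ∑ i, |(c i : ℝ)|)) with hC
  have hC0 : 0 ≤ C := tsum_nonneg fun c => (Real.exp_pos _).le
  refine ⟨⌈4 * C / a⌉₊ + 1, by omega, fun s hs S hS => ?_⟩
  have hs1 : 4 * C / a + 1 ≤ s := by
    refine le_trans ?_ hs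
    push_cast
    linarith [Nat.le_ceil (4 * C / a)]
  have hs2 : 4 * C ≤ (s - 1) * a := by
    rw [← div_le_iff₀ ha0]
    linarith
  have hs3 : 1 ≤ s := by
    have : 0 ≤ 4 * C / a := by positivity
    linarith
  have hterm : ∀ c ∈ S, Real.exp (-(s * wt W (lv b c))) ≤ Real.exp (-((s - 1) * a)) * Real.exp (-(a * ∑ i, |(c i : ℝ)|)) := by
    intro c hc
    rw [← Real.exp_add]
    refine Real.exp_le_exp.2 ?_
    have hne : c ≠ 0 := fun h => hS (h ▸ hc)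
    have hS1 : 1 ≤ ∑ i, |(c i : ℝ)| := by
      obtain ⟨i, hi⟩ := Function.ne_iff.1 hne
      have h2 : (1 : ℝ) ≤ |(c i : ℝ)| := by
        have h3 : (1 : ℤ) ≤ |c i| := Int.one_le_abs hi
        have h4 : ((1 : ℤ) : ℝ) ≤ ((|c i| : ℤ) : ℝ) := Int.cast_le.2 h3
        rw [Int.cast_abs, Int.cast_one] at h4
        exact h4
      exact h2.trans (Finset.single_le_sum (f := fun i => |(c i : ℝ)|) (fun j _ => abs_nonneg _) (Finset.mem_univ i))
    set t : ℝ := ∑ i, |(c i : ℝ)| with ht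
    have h2 : a * t ^ 2 ≤ wt W (lv b c) := by
      have h3 : (κ * t) ^ 2 ≤ ‖lv b c‖ ^ 2 := pow_le_pow_left₀ (by positivity) (h1 c) 2
      calc a * t ^ 2 = c₀ * (κ * t) ^ 2 := by rw [ha]; ring
        _ ≤ c₀ * ‖lv b c‖ ^ 2 := mul_le_mul_of_nonneg_left h3 hc₀.le
        _ ≤ _ := h0 _
    have h3 : a * t ≤ a * t ^ 2 := by
      refine mul_le_mul_of_nonneg_left ?_ ha0.le
      nlinarith
    have h4 : s * (a * t) ≤ s * wt W (lv b c) := mul_le_mul_of_nonneg_left (h3.trans h2) (by linarith)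
    have h5 : (s - 1) * a ≤ (s - 1) * a * t := by
      refine le_mul_of_one_le_right ?_ hS1
      exact mul_nonneg (by linarith) ha0.le
    nlinarith
  calc ∑ c ∈ S, Real.exp (-(s * wt W (lv b c))) ≤ ∑ c ∈ S, Real.exp (-((s - 1) * a)) * Real.exp (-(a * ∑ i, |(c i : ℝ)|)) := Finset.sum_le_sum hterm
    _ = Real.exp (-((s - 1) * a)) * ∑ c ∈ S, Real.exp (-(a * ∑ i, |(c i : ℝ)|)) := by rw [Finset.mul_sum]
    _ ≤ Real.exp (-((s - 1) * a)) * C := by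
        refine mul_le_mul_of_nonneg_left ?_ (Real.exp_pos _).le
        exact hsm.sum_le_tsum S fun c _ => (Real.exp_pos _).le
    _ ≤ 1 / 4 := by
        rw [Real.exp_neg, inv_mul_le_iff₀ (Real.exp_pos _)]
        have h6 := Real.add_one_le_exp ((s - 1) * a)
        linarith

private theorem ser_pk_diff (W : Fin r → Vd (k + 1) →L[ℂ] ℂ) (M : ℕ) (p : Vd (k + 1)) : Differentiable ℂ (pk W M p) := by
  unfold pk
  refine Complex.differentiable_exp.comp ?_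
  refine (Differentiable.const_mul ?_ _)
  refine Differentiable.fun_sum fun i _ => ?_
  exact ((W i).differentiable.const_mul _).sub_const _

/-- the terms are holomorphic -/
private theorem ser_term (T : ThF Γ W e) (hb : ∀ i, b i ∈ Γ) (M : ℕ) (p : Vd (k + 1)) (c : Fin (2 * (k + 1)) → ℤ) :
    Differentiable ℂ fun y => e (lv b c) y ^ M * pk W M p (y + lv b c) := by
  have h1 : Differentiable ℂ (e (lv b c)) := fun y => (T.an _ (lv_mem hb c) y).differentiableAt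
  have h2 : Differentiable ℂ fun y : Vd (k + 1) => pk W M p (y + lv b c) :=
    (ser_pk_diff W M p).comp (differentiable_id.add_const _)
  exact (h1.pow M).mul h2

/-- bounds of the terms, uniform on a ball -/
private theorem ser_bound (T : ThF Γ W e) (hb : ∀ i, b i ∈ Γ) (hM : 1 ≤ M) (p w : Vd (k + 1)) :
    ∃ v : (Fin (2 * (k + 1)) → ℤ) → ℝ, Summable v ∧ ∀ c, ∀ y ∈ ball w 1, ‖e (lv b c) y ^ M * pk W M p (y + lv b c)‖ ≤ v c := by
  obtain ⟨α, β, hα, h⟩ := ser_wt T.pos b (‖w - p‖ + 1)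
  have hM0 : (0 : ℝ) < M := by exact_mod_cast hM
  set B : ℝ := ∑ i, (‖W i‖ * (‖w‖ + 1)) ^ 2 with hB
  have hBw : ∀ y ∈ ball w 1, wt W y ≤ B := by
    intro y hy
    rw [mem_ball, dist_eq_norm] at hy
    refine Finset.sum_le_sum fun i _ => ?_
    refine pow_le_pow_left₀ (norm_nonneg _) (((W i).le_opNorm y).trans ?_) 2
    refine mul_le_mul_of_nonneg_left ?_ (norm_nonneg _)
    calc ‖y‖ = ‖(y - w) + w‖ := by rw [sub_add_cancel]
      _ ≤ ‖y - w‖ + ‖w‖ := norm_add_le _ _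
      _ ≤ ‖w‖ + 1 := by linarith
  refine ⟨fun c => Real.exp (M * B + M * β) * Real.exp (-(M * α * ∑ i, |(c i : ℝ)|)),
    (ser_sum (mul_pos hM0 hα) (2 * (k + 1))).mul_left _, fun c y hy => ?_⟩
  have h1 := term_norm T hb M p y c
  have h2 : ‖e (lv b c) y ^ M * pk W M p (y + lv b c)‖ = Real.exp (-(M * wt W (y + lv b c - p))) * Real.exp (M * wt W y) := by
    rw [← h1, mul_assoc, ← Real.exp_add, neg_add_cancel, Real.exp_zero, mul_one]
  rw [h2, ← Real.exp_add]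
  show _ ≤ Real.exp (M * B + M * β) * Real.exp (-(M * α * ∑ i, |(c i : ℝ)|))
  rw [← Real.exp_add]
  refine Real.exp_le_exp.2 ?_
  have h3 : ‖y - p‖ ≤ ‖w - p‖ + 1 := by
    rw [mem_ball, dist_eq_norm] at hy
    calc ‖y - p‖ = ‖(y - w) + (w - p)‖ := by rw [sub_add_sub_cancel]
      _ ≤ ‖y - w‖ + ‖w - p‖ := norm_add_le _ _
      _ ≤ ‖w - p‖ + 1 := by linarith
  have h4 := mul_le_mul_of_nonneg_left (h (y - p) h3 c) hM0.le
  have h5 := mul_le_mul_of_nonneg_left (hBw y hy) hM0.le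
  have h6 : y - p + lv b c = y + lv b c - p := by abel
  rw [h6] at h4
  linarith

theorem th_thm (T : ThF Γ W e) (hb : ∀ i, b i ∈ Γ) (hM : 1 ≤ M) (p : Vd (k + 1)) : ThM b e M (th b W e M p) := by
  refine ⟨fun w => ?_, fun c y => ?_⟩
  · obtain ⟨v, hv, hvb⟩ := ser_bound T hb hM p w
    refine Pool.Agent.TN.osgood_pi (r := 1) (M := ∑' c, v c) one_pos (fun y hy => ?_) fun y hy l => ?_
    · exact tsum_of_norm_bounded hv.hasSum fun c => hvb c y hy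
    · obtain ⟨s, hs, hsb⟩ := Metric.isOpen_iff.1 (isOpen_ball (x := w) (ε := 1)) y hy
      have hmaps : Set.MapsTo (fun t : ℂ => y + t • (Pi.single l 1 : Vd (k + 1))) (ball 0 s) (ball w 1) := by
        intro t ht
        apply hsb
        rw [mem_ball, dist_eq_norm, add_sub_cancel_left, norm_smul]
        rw [mem_ball, dist_zero_right] at ht
        have h1 : ‖(Pi.single l 1 : Vd (k + 1))‖ ≤ 1 := by
          refine (pi_norm_le_iff_of_nonneg zero_le_one).2 fun j => ?_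
          by_cases hj : j = l
          · subst hj
            simp
          · simp [Pi.single_eq_of_ne hj]
        calc ‖t‖ * ‖(Pi.single l 1 : Vd (k + 1))‖ ≤ ‖t‖ * 1 := by gcongr
          _ < s := by rw [mul_one]; exact ht
      have h2 : DifferentiableOn ℂ (fun t : ℂ => ∑' c : Fin (2 * (k + 1)) → ℤ,
          (e (lv b c) (y + t • (Pi.single l 1 : Vd (k + 1))) ^ M * pk W M p ((y + t • (Pi.single l 1 : Vd (k + 1))) + lv b c))) (ball 0 s) := by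
        refine Complex.differentiableOn_tsum_of_summable_norm hv (fun c => ?_) isOpen_ball fun c t ht => hvb c _ (hmaps ht)
        have h4 : Differentiable ℂ (fun t : ℂ => y + t • (Pi.single l 1 : Vd (k + 1))) := by fun_prop
        exact ((ser_term T hb M p c).comp h4).differentiableOn
      exact h2.differentiableAt (isOpen_ball.mem_nhds (mem_ball_self hs))
  · unfold th
    rw [← tsum_mul_left, ← (Equiv.addRight c).tsum_eq fun c'' : Fin (2 * (k + 1)) → ℤ => e (lv b c'') y ^ M * pk W M p (y + lv b c'')]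
    refine tsum_congr fun c' => ?_
    rw [Equiv.coe_addRight, lv_add, T.coc _ (lv_mem hb c') _ (lv_mem hb c) y, mul_pow, add_comm (lv b c') (lv b c), ← add_assoc]
    ring

theorem th_summable (T : ThF Γ W e) (hb : ∀ i, b i ∈ Γ) (hM : 1 ≤ M) (p y : Vd (k + 1)) :
    Summable fun c : Fin (2 * (k + 1)) → ℤ => ‖e (lv b c) y ^ M * pk W M p (y + lv b c)‖ := by
  obtain ⟨v, hv, hvb⟩ := ser_bound T hb hM p y
  exact Summable.of_nonneg_of_le (fun c => norm_nonneg _) (fun c => hvb c y (mem_ball_self one_pos)) hv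

end Pool.Agent.G4.H

end

section

/-!
# G4 H Dim: the dimension of the space of the theta functions of weight `M wt W` is at least `m ^ (2 (k + 1))`, `M = K m²`

`b`, `K` from `exists_rb`, `gsum_small`.  `p j = (1 / m) lv b j`, `j : Fin (2 (k + 1)) → Fin m`, `M = K * m ^ 2`.  For `x : (Fin (2 (k + 1)) → Fin m) → ℂ`, `f = ∑ j, x j • th b W e M (p j)`; take `j₀` with `‖x j‖ ≤ ‖x j₀‖` for all `j`; at `y = p j₀`:
the term `(j₀, c = 0)` of `∑ j, x j ∑' c, …` has normalised size `‖x j₀‖`; the other terms `(j, c)` have total size `≤ ‖x j₀‖ ∑ exp (- M wt (p j₀ + lv b c - p j))`, `p j₀ + lv b c - p j = (1 / m) lv b (j₀ - j + m c)`, `(j, c) ↦ j₀ - j + m c`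
injective and `≠ 0`, `M wt ((1 / m) v) = K wt v`: by `gsum_small` `≤ ‖x j₀‖ / 4`.  So `f (p j₀) ≠ 0` if `x ≠ 0`.  With fewer than `m ^ (2 (k + 1))` linear conditions there is `x ≠ 0` which satisfies all of them.
-/

set_option autoImplicit false

open Topology Filter Metric

namespace Pool.Agent.G4.H

open Pool.Agent.AD (Vd)
open Pool.Agent.TG (Lat)
open Pool.Agent.G3 (wt)

variable {k r : ℕ} {Γ : AddSubgroup (Vd (k + 1))} {W : Fin r → Vd (k + 1) →L[ℂ] ℂ} {e : Vd (k + 1) → Vd (k + 1) → ℂ}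

private theorem lv_comb (b : RB k) {m : ℕ} (hm : 1 ≤ m) (i j c : Fin (2 * (k + 1)) → ℤ) :
    (1 / (m : ℝ)) • lv b j + lv b c - (1 / (m : ℝ)) • lv b i = (1 / (m : ℝ)) • lv b (fun a => j a - i a + m * c a) := by
  have hm' : (m : ℝ) ≠ 0 := by exact_mod_cast (by omega : m ≠ 0)
  simp only [lv, Finset.smul_sum, ← Finset.sum_add_distrib, ← Finset.sum_sub_distrib, smul_smul, ← add_smul, ← sub_smul]
  refine Finset.sum_congr rfl fun a _ => ?_
  congr 1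
  push_cast
  field_simp
  ring

private theorem wt_div (W : Fin r → Vd (k + 1) →L[ℂ] ℂ) {m : ℕ} (hm : 1 ≤ m) (K : ℕ) (v : Vd (k + 1)) :
    ((K * m ^ 2 : ℕ) : ℝ) * wt W ((1 / (m : ℝ)) • v) = K * wt W v := by
  have hm' : (m : ℝ) ≠ 0 := by exact_mod_cast (by omega : m ≠ 0)
  have : wt W ((1 / (m : ℝ)) • v) = (1 / (m : ℝ)) ^ 2 * wt W v := by
    simp only [wt, Finset.mul_sum]
    refine Finset.sum_congr rfl fun i _ => ?_
    rw [ContinuousLinearMap.map_smul_of_tower, norm_smul, mul_pow, Real.norm_eq_abs, sq_abs]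
  rw [this]
  push_cast
  field_simp

private theorem idx_inj {ι : Type} {m : ℕ} (j i i' : ι → Fin m) (c c' : ι → ℤ)
    (h : (fun a => ((j a : ℕ) : ℤ) - ((i a : ℕ) : ℤ) + m * c a) = fun a => ((j a : ℕ) : ℤ) - ((i' a : ℕ) : ℤ) + m * c' a) : i = i' ∧ c = c' := by
  have h1 : ∀ a, ((i a : ℕ) : ℤ) - ((i' a : ℕ) : ℤ) = m * (c a - c' a) := fun a => by
    have := congrFun h a
    linarith
  have h2 : ∀ a, c a = c' a := by
    intro a
    have hi := (i a).2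
    have hi' := (i' a).2
    have e := h1 a
    by_contra hne
    rcases lt_or_gt_of_ne hne with hlt | hgt
    · have : (m : ℤ) * (c a - c' a) ≤ m * (-1) := mul_le_mul_of_nonneg_left (by omega) (by omega)
      omega
    · have : (m : ℤ) * 1 ≤ m * (c a - c' a) := mul_le_mul_of_nonneg_left (by omega) (by omega)
      omega
  refine ⟨?_, funext h2⟩
  funext a
  have e := h1 a
  rw [h2 a, sub_self, mul_zero] at e
  exact Fin.ext (by omega)

private theorem lv_zero (b : RB k) : lv b 0 = 0 := by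
  simp [lv]

private theorem main_bd (T : ThF Γ W e) {b : RB k} (hb : ∀ i, b i ∈ Γ) {K m : ℕ} (hm : 1 ≤ m)
    (hK : ∀ s : ℝ, K ≤ s → ∀ S : Finset (Fin (2 * (k + 1)) → ℤ), (0 : Fin (2 * (k + 1)) → ℤ) ∉ S → ∑ c ∈ S, Real.exp (-(s * wt W (lv b c))) ≤ 1 / 4)
    (x : (Fin (2 * (k + 1)) → Fin m) → ℂ) (j₀ : Fin (2 * (k + 1)) → Fin m) (hj : ∀ i, ‖x i‖ ≤ ‖x j₀‖) (S : Finset (Fin (2 * (k + 1)) → ℤ)) (hS : {0} ⊆ S)
    (p : (Fin (2 * (k + 1)) → Fin m) → Vd (k + 1)) (hp : ∀ i, p i = (1 / (m : ℝ)) • lv b (fun a => ((i a : ℕ) : ℤ))) :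
    ‖x j₀‖ * (3 / 4) ≤ ‖∑ c ∈ S, ∑ i, x i * (e (lv b c) (p j₀) ^ (K * m ^ 2) * pk W (K * m ^ 2) (p i) (p j₀ + lv b c))‖ * Real.exp (-(((K * m ^ 2 : ℕ) : ℝ) * wt W (p j₀))) := by
  classical
  set M : ℕ := K * m ^ 2 with hM
  set E : ℝ := Real.exp (-((M : ℝ) * wt W (p j₀))) with hE
  have hE0 : 0 < E := Real.exp_pos _
  set t : (Fin (2 * (k + 1)) → Fin m) × (Fin (2 * (k + 1)) → ℤ) → ℂ := fun q => x q.1 * (e (lv b q.2) (p j₀) ^ M * pk W M (p q.1) (p j₀ + lv b q.2)) with ht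
  have hsum : ∑ c ∈ S, ∑ i, x i * (e (lv b c) (p j₀) ^ M * pk W M (p i) (p j₀ + lv b c)) = ∑ q ∈ (Finset.univ : Finset (Fin (2 * (k + 1)) → Fin m)) ×ˢ S, t q := by
    rw [Finset.sum_product_right]
  have hmem : (j₀, (0 : Fin (2 * (k + 1)) → ℤ)) ∈ (Finset.univ : Finset (Fin (2 * (k + 1)) → Fin m)) ×ˢ S := by
    simp only [Finset.mem_product, Finset.mem_univ, true_and]
    exact hS (by simp)
  have htn : ∀ q, ‖t q‖ * E = ‖x q.1‖ * Real.exp (-(K * wt W (lv b (fun a => ((j₀ a : ℕ) : ℤ) - ((q.1 a : ℕ) : ℤ) + m * q.2 a)))) := by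
    intro q
    rw [ht]
    simp only
    rw [norm_mul, mul_assoc, hE, term_norm T hb M (p q.1) (p j₀) q.2, hp j₀, hp q.1, lv_comb b hm, hM, wt_div W hm]
  have h0 : ‖t (j₀, 0)‖ * E = ‖x j₀‖ := by
    rw [htn]
    have : (fun a => ((j₀ a : ℕ) : ℤ) - ((j₀ a : ℕ) : ℤ) + m * (0 : Fin (2 * (k + 1)) → ℤ) a) = 0 := by
      funext a; simp
    simp only [this, lv_zero]
    simp [wt]
  have hrest : ‖∑ q ∈ ((Finset.univ : Finset (Fin (2 * (k + 1)) → Fin m)) ×ˢ S).erase (j₀, 0), t q‖ * E ≤ ‖x j₀‖ * (1 / 4) := by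
    calc ‖∑ q ∈ ((Finset.univ : Finset (Fin (2 * (k + 1)) → Fin m)) ×ˢ S).erase (j₀, 0), t q‖ * E
        ≤ (∑ q ∈ ((Finset.univ : Finset (Fin (2 * (k + 1)) → Fin m)) ×ˢ S).erase (j₀, 0), ‖t q‖) * E := mul_le_mul_of_nonneg_right (norm_sum_le _ _) hE0.le
      _ = ∑ q ∈ ((Finset.univ : Finset (Fin (2 * (k + 1)) → Fin m)) ×ˢ S).erase (j₀, 0), ‖x q.1‖ * Real.exp (-(K * wt W (lv b (fun a => ((j₀ a : ℕ) : ℤ) - ((q.1 a : ℕ) : ℤ) + m * q.2 a)))) := by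
          rw [Finset.sum_mul]
          exact Finset.sum_congr rfl fun q _ => htn q
      _ ≤ ∑ q ∈ ((Finset.univ : Finset (Fin (2 * (k + 1)) → Fin m)) ×ˢ S).erase (j₀, 0), ‖x j₀‖ * Real.exp (-(K * wt W (lv b (fun a => ((j₀ a : ℕ) : ℤ) - ((q.1 a : ℕ) : ℤ) + m * q.2 a)))) :=
          Finset.sum_le_sum fun q _ => mul_le_mul_of_nonneg_right (hj q.1) (Real.exp_pos _).le
      _ = ‖x j₀‖ * ∑ v ∈ (((Finset.univ : Finset (Fin (2 * (k + 1)) → Fin m)) ×ˢ S).erase (j₀, 0)).image (fun q a => ((j₀ a : ℕ) : ℤ) - ((q.1 a : ℕ) : ℤ) + m * q.2 a), Real.exp (-(K * wt W (lv b v))) := by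
          rw [← Finset.mul_sum, Finset.sum_image]
          intro q _ q' _ hqq
          obtain ⟨h1, h2⟩ := idx_inj j₀ q.1 q'.1 q.2 q'.2 hqq
          exact Prod.ext h1 h2
      _ ≤ ‖x j₀‖ * (1 / 4) := by
          refine mul_le_mul_of_nonneg_left (hK K le_rfl _ ?_) (norm_nonneg _)
          intro hmem0
          obtain ⟨q, hq, hq0⟩ := Finset.mem_image.1 hmem0
          have hq1 := (Finset.mem_erase.1 hq).1
          apply hq1
          have : (fun a => ((j₀ a : ℕ) : ℤ) - ((q.1 a : ℕ) : ℤ) + m * q.2 a) = fun a => ((j₀ a : ℕ) : ℤ) - ((j₀ a : ℕ) : ℤ) + m * (0 : Fin (2 * (k + 1)) → ℤ) a := by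
            rw [hq0]; funext a; simp
          obtain ⟨h1, h2⟩ := idx_inj j₀ q.1 j₀ q.2 0 this
          exact Prod.ext h1 h2
  rw [hsum, ← Finset.add_sum_erase _ _ hmem]
  have htri : ‖t (j₀, 0)‖ - ‖∑ q ∈ ((Finset.univ : Finset (Fin (2 * (k + 1)) → Fin m)) ×ˢ S).erase (j₀, 0), t q‖ ≤ ‖t (j₀, 0) + ∑ q ∈ ((Finset.univ : Finset (Fin (2 * (k + 1)) → Fin m)) ×ˢ S).erase (j₀, 0), t q‖ := by
    have := norm_sub_le (t (j₀, 0) + ∑ q ∈ ((Finset.univ : Finset (Fin (2 * (k + 1)) → Fin m)) ×ˢ S).erase (j₀, 0), t q) (∑ q ∈ ((Finset.univ : Finset (Fin (2 * (k + 1)) → Fin m)) ×ˢ S).erase (j₀, 0), t q)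
    rw [add_sub_cancel_right] at this
    linarith
  have := mul_le_mul_of_nonneg_right htri hE0.le
  rw [sub_mul] at this
  linarith

private theorem lin_sum (Φ : (Vd (k + 1) → ℂ) → ℂ)
    (hΦ : ∀ (f g : Vd (k + 1) → ℂ) (c : ℂ), (∀ y, AnalyticAt ℂ f y) → (∀ y, AnalyticAt ℂ g y) → Φ (fun y => f y + c * g y) = Φ f + c * Φ g)
    {ι : Type} (s : Finset ι) (x : ι → ℂ) (g : ι → Vd (k + 1) → ℂ) (hg : ∀ i, ∀ y, AnalyticAt ℂ (g i) y) :
    Φ (fun y => ∑ i ∈ s, x i * g i y) = ∑ i ∈ s, x i * Φ (g i) := by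
  classical
  induction s using Finset.induction_on with
  | empty =>
    have := hΦ (fun _ => 0) (fun _ => 0) (-1) (fun y => analyticAt_const) (fun y => analyticAt_const)
    simp only [mul_zero, add_zero] at this
    simp only [Finset.sum_empty]
    linear_combination this
  | insert a s ha ih =>
    have hs : ∀ y, AnalyticAt ℂ (fun y => ∑ i ∈ s, x i * g i y) y := fun y =>
      Finset.analyticAt_fun_sum s fun i _ => analyticAt_const.mul (hg i y)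
    have := hΦ (fun y => ∑ i ∈ s, x i * g i y) (g a) (x a) hs (hg a)
    rw [ih] at this
    have hfun : (fun y => ∑ i ∈ insert a s, x i * g i y) = fun y => ∑ i ∈ s, x i * g i y + x a * g a y := by
      funext y
      rw [Finset.sum_insert ha]
      ring
    rw [hfun, this, Finset.sum_insert ha]
    ring

theorem theta_ex (T : ThF Γ W e) {b : RB k} (hb : ∀ i, b i ∈ Γ) : ∃ K : ℕ, 1 ≤ K ∧ ∀ m : ℕ, 1 ≤ m → ∀ (J : Type) [Fintype J] (Φ : J → (Vd (k + 1) → ℂ) → ℂ),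
    (∀ j (f g : Vd (k + 1) → ℂ) (c : ℂ), (∀ y, AnalyticAt ℂ f y) → (∀ y, AnalyticAt ℂ g y) → Φ j (fun y => f y + c * g y) = Φ j f + c * Φ j g) →
    Fintype.card J < m ^ (2 * (k + 1)) → ∃ f : Vd (k + 1) → ℂ, ThM b e (K * m ^ 2) f ∧ (∃ y, f y ≠ 0) ∧ ∀ j, Φ j f = 0 := by
  classical
  obtain ⟨K, hK1, hK⟩ := gsum_small T.pos b
  refine ⟨K, hK1, fun m hm J _ Φ hΦ hcard => ?_⟩
  have hM1 : 1 ≤ K * m ^ 2 := Nat.one_le_iff_ne_zero.2 (by positivity)
  set p : (Fin (2 * (k + 1)) → Fin m) → Vd (k + 1) := fun i => (1 / (m : ℝ)) • lv b (fun a => ((i a : ℕ) : ℤ)) with hp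
  set θ : (Fin (2 * (k + 1)) → Fin m) → Vd (k + 1) → ℂ := fun i => th b W e (K * m ^ 2) (p i) with hθ
  have hθm : ∀ i, ThM b e (K * m ^ 2) (θ i) := fun i => th_thm T hb hM1 (p i)
  let L : ((Fin (2 * (k + 1)) → Fin m) → ℂ) →ₗ[ℂ] (J → ℂ) :=
    { toFun := fun x j => ∑ i, x i * Φ j (θ i)
      map_add' := fun x x' => by
        funext j; simp only [Pi.add_apply, add_mul, Finset.sum_add_distrib]
      map_smul' := fun c x => by
        funext j; simp only [Pi.smul_apply, smul_eq_mul, RingHom.id_apply, Finset.mul_sum, mul_assoc] }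
  have hker : LinearMap.ker L ≠ ⊥ := by
    apply LinearMap.ker_ne_bot_of_finrank_lt
    simpa [Module.finrank_fintype_fun_eq_card, Fintype.card_fun] using hcard
  obtain ⟨x, hxL, hx0⟩ := (Submodule.ne_bot_iff _).1 hker
  have hLx : ∀ j, ∑ i, x i * Φ j (θ i) = 0 := fun j => congrFun (LinearMap.mem_ker.1 hxL) j
  refine ⟨fun y => ∑ i, x i * θ i y, ⟨?_, ?_⟩, ?_, ?_⟩
  · exact fun y => Finset.analyticAt_fun_sum _ fun i _ => analyticAt_const.mul ((hθm i).an y)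
  · intro c y
    rw [Finset.mul_sum]
    refine Finset.sum_congr rfl fun i _ => ?_
    rw [← (hθm i).per c y]
    ring
  · obtain ⟨i₁, hi₁⟩ := Function.ne_iff.1 hx0
    have : Nonempty (Fin (2 * (k + 1)) → Fin m) := ⟨i₁⟩
    obtain ⟨j₀, hj₀⟩ := Finite.exists_max (fun i => ‖x i‖)
    have hxj : 0 < ‖x j₀‖ := lt_of_lt_of_le (norm_pos_iff.2 hi₁) (hj₀ i₁)
    refine ⟨p j₀, ?_⟩
    have hs : HasSum (fun c => ∑ i, x i * (e (lv b c) (p j₀) ^ (K * m ^ 2) * pk W (K * m ^ 2) (p i) (p j₀ + lv b c))) (∑ i, x i * θ i (p j₀)) := by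
      apply hasSum_sum
      intro i _
      exact ((th_summable T hb hM1 (p i) (p j₀)).of_norm.hasSum).mul_left (x i)
    have ht : Tendsto (fun S : Finset (Fin (2 * (k + 1)) → ℤ) => ‖∑ c ∈ S, ∑ i, x i * (e (lv b c) (p j₀) ^ (K * m ^ 2) * pk W (K * m ^ 2) (p i) (p j₀ + lv b c))‖ * Real.exp (-(((K * m ^ 2 : ℕ) : ℝ) * wt W (p j₀)))) atTop
        (𝓝 (‖∑ i, x i * θ i (p j₀)‖ * Real.exp (-(((K * m ^ 2 : ℕ) : ℝ) * wt W (p j₀))))) := (Tendsto.norm hs).mul_const _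
    have hge := ge_of_tendsto ht ((eventually_ge_atTop {0}).mono fun S hS => main_bd T hb hm hK x j₀ hj₀ S hS p (fun i => rfl))
    intro h0
    replace h0 : ∑ i, x i * θ i (p j₀) = 0 := h0
    rw [h0, norm_zero, zero_mul] at hge
    linarith
  · intro j
    rw [lin_sum (Φ j) (hΦ j) Finset.univ x θ fun i y => (hθm i).an y]
    exact hLx j

end Pool.Agent.G4.H

end
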