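import Pool.Agent.H94.G4T.M125
import Pool.Agent.H94.G4T.M142

/-! The parts of this file: G3.R.Seq, G3.R.Root. -/

section

/-!
# G3 R Seq: sequences of normalised curves

Notation: `B n = A n + Lam (0)`.
`seq_near`: `nrm_mean` on the circle of radius `ρ n` with `ρ n ^ 2 = min (κ (B n) / 2, (R n) ^ 2 / 4)` (tends to `∞`; `1 ≤ κ (B n) / 2` for large `n`) and `cauchy_sub` for `g = deriv (h n)` (average of `‖h'‖` at most `(1 + 4) / 2`).

`seq_false`: let `𝒰` be the hyperfilter (`Filter.hyperfilter ℕ`), `a` the limit of `deriv (h n) 0` along `𝒰` (`‖·‖ = 1`, compact sphere), `i` the index with `‖deriv (h n) 0 i‖ = 1` for `𝒰`-many `n` (finitely many indices; the norm is the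
sup norm).  `x n z = deriv (h n) z i / deriv (h n) 0 i`, `E n z = exp (2 (B n) Log (x n z))`.  For every `r` and large `n`: `‖x n z - 1‖ ≤ 1/2` on `ball 0 r`, so `Log (x n)` is holomorphic, `log ‖E n z‖ = 2 (B n) log ‖x n z‖`,
and at `Ok` points (`Nrm.le`, `‖h'‖ ≤ Mf`, `‖h'‖ ≤ 2`): `Lam z - Lam 0 ≥ B n (‖h' z‖² (1 - |z|²/R²)² - 1) ≥ B n (‖x n z‖² - 1) - 8 r² (B n) / (R n)² ≥ 2 (B n) log ‖x n z‖ - ε`.  `LCT` (`Z/CDefs`) gives the contradiction.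
-/

set_option autoImplicit false

open Topology Filter Metric

namespace Pool.Agent.G3

open Pool.Agent.H36.BP (EN fs wd Sub)
open Pool.Agent.H14.PP (IsCone CurveAt Tan)
open Pool.Agent.H62.EF (MN pr)
open Pool.Agent.AD (Vd Chart Charts)
open Pool.Agent.TG (TMap Lat Geo Gd)

variable {N k : ℕ} {X : Set (EN N)} {Λ : AddSubgroup (Vd (k + 1))} {u : EN N → Vd (k + 1)} {D : Set (Vd (k + 1))} {p : EN N → EN N → ℝ} {m d : ℕ} {C : ℝ} {Q : EN N → ℂ}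

theorem seq_near (hX : IsCone X) (hP : PS X Λ u D p m C) (hQ : QD X Λ u D Q d) {ε : ℝ} (hε : 0 < ε) (hε1 : ε ≤ 1) {A R : ℕ → ℝ} {F : ℕ → ℂ → EN N}
    {h : ℕ → ℂ → Vd (k + 1)} (hN : ∀ n, Nrm X Λ u Q d p m ε (A n) (R n) (F n) (h n)) (hB : Tendsto (fun n => A n + Lam Q d p m (F n) (h n) 0) atTop atTop)
    (hR : Tendsto (fun n => R n ^ 2 / (A n + Lam Q d p m (F n) (h n) 0)) atTop atTop) (r ε' : ℝ) (hε' : 0 < ε') :
    ∀ᶠ n in atTop, r ≤ R n ∧ ∀ z ∈ ball (0 : ℂ) r, ‖deriv (h n) z - deriv (h n) 0‖ ≤ ε' := by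
  obtain ⟨κ, hκ, hmean⟩ := nrm_mean hX hP hQ hε hε1
  set ρ : ℝ := 2 * |r| + 5 * |r| / ε' + 1 with hρ
  have hr0 : 0 ≤ |r| := abs_nonneg r
  have hρ0 : 0 < ρ := by positivity
  have hρr : |r| ≤ ρ / 2 := by
    have : 0 ≤ 5 * |r| / ε' := by positivity
    linarith
  have hρε : 5 * |r| / ρ ≤ ε' := by
    rw [div_le_iff₀ hρ0]
    have h1 : ε' * (5 * |r| / ε') = 5 * |r| := by field_simp
    have h2 : 0 ≤ ε' * (2 * |r| + 1) := by positivity
    calc 5 * |r| = ε' * (5 * |r| / ε') := h1.symm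
      _ ≤ ε' * ρ := by
        rw [hρ]
        nlinarith
  filter_upwards [hB.eventually_ge_atTop ((1 + ρ ^ 2) / κ), hB.eventually_ge_atTop (4 * ρ ^ 2), hR.eventually_ge_atTop 1, hB.eventually_gt_atTop 0]
    with n h1 h2 h3 h4
  set B : ℝ := A n + Lam Q d p m (F n) (h n) 0 with hBdef
  have h5 : B ≤ R n ^ 2 := by
    rwa [le_div_iff₀ h4, one_mul] at h3
  have hRρ : 4 * ρ ^ 2 ≤ R n ^ 2 := h2.trans h5
  have hRpos := (hN n).R_pos
  have hR2 : 2 * ρ ≤ R n := by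
    have h6 : (2 * ρ) ^ 2 ≤ R n ^ 2 := by
      calc (2 * ρ) ^ 2 = 4 * ρ ^ 2 := by ring
        _ ≤ _ := hRρ
    exact (pow_le_pow_iff_left₀ (by positivity) hRpos.le (by norm_num)).1 h6
  have hκB : 1 + ρ ^ 2 ≤ κ * B := by
    rw [div_le_iff₀ hκ] at h1
    linarith
  have h6 := (hmean (A n) (R n) (F n) (h n) (hN n) ρ hρ0 hRρ hκB).2.2
  refine ⟨by linarith [le_abs_self r], fun z hz => ?_⟩
  have hz' : ‖z‖ < r := by simpa using hz
  have hzr : ‖z‖ ≤ |r| := hz'.le.trans (le_abs_self r)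
  have hρR : ρ < R n := by linarith
  have hd : DifferentiableOn ℂ (deriv (h n)) (ball 0 (R n)) := (hN n).cv.h_diff.deriv isOpen_ball
  have h7 := cauchy_sub (g := deriv (h n)) hρ0 hρR hd (hzr.trans hρr)
  have hcs : ContinuousOn (deriv (h n)) (sphere 0 ρ) := hd.continuousOn.mono (by
    intro w hw
    rw [mem_sphere_zero_iff_norm] at hw
    rw [mem_ball_zero_iff, hw]
    exact hρR)
  have hc1 : CircleIntegrable (fun w => ‖deriv (h n) w‖) 0 ρ := (hcs.norm).circleIntegrable hρ0.le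
  have hc2 : CircleIntegrable (fun w => ‖deriv (h n) w‖ ^ 2) 0 ρ := ((hcs.norm).pow 2).circleIntegrable hρ0.le
  have hc3 : CircleIntegrable (fun w => (1 / 2 : ℝ) * ‖deriv (h n) w‖ ^ 2) 0 ρ := (continuousOn_const.mul ((hcs.norm).pow 2)).circleIntegrable hρ0.le
  have hc4 : CircleIntegrable (fun w : ℂ => (1 / 2 : ℝ)) 0 ρ := (continuousOn_const).circleIntegrable hρ0.le
  have hc5 : CircleIntegrable (fun w => (1 / 2 : ℝ) + (1 / 2 : ℝ) * ‖deriv (h n) w‖ ^ 2) 0 ρ := (continuousOn_const.add (continuousOn_const.mul ((hcs.norm).pow 2))).circleIntegrable hρ0.le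
  have h8 : Real.circleAverage (fun w => ‖deriv (h n) w‖) 0 ρ ≤ 5 / 2 := by
    calc Real.circleAverage (fun w => ‖deriv (h n) w‖) 0 ρ
        ≤ Real.circleAverage (fun w => (1 / 2 : ℝ) + (1 / 2 : ℝ) * ‖deriv (h n) w‖ ^ 2) 0 ρ := by
          refine Real.circleAverage_mono hc1 hc5 fun w _ => ?_
          nlinarith [sq_nonneg (‖deriv (h n) w‖ - 1)]
      _ = 1 / 2 + 1 / 2 * Real.circleAverage (fun w => ‖deriv (h n) w‖ ^ 2) 0 ρ := by
          have e1 := Real.circleAverage_fun_add hc4 hc3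
          have e2 : Real.circleAverage (fun w => (1 / 2 : ℝ) * ‖deriv (h n) w‖ ^ 2) 0 ρ = (1 / 2 : ℝ) * Real.circleAverage (fun w => ‖deriv (h n) w‖ ^ 2) 0 ρ :=
            Real.circleAverage_smul (a := (1 / 2 : ℝ)) (f := fun w => ‖deriv (h n) w‖ ^ 2)
          have e3 : Real.circleAverage (fun _ : ℂ => (1 / 2 : ℝ)) 0 ρ = 1 / 2 := Real.circleAverage_const _ _ _
          rw [e1, e2, e3]
      _ ≤ 5 / 2 := by linarith
  calc ‖deriv (h n) z - deriv (h n) 0‖ ≤ 2 * ‖z‖ / ρ * Real.circleAverage (fun w => ‖deriv (h n) w‖) 0 ρ := h7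
    _ ≤ 2 * ‖z‖ / ρ * (5 / 2) := mul_le_mul_of_nonneg_left h8 (by positivity)
    _ ≤ 2 * |r| / ρ * (5 / 2) := by gcongr
    _ = 5 * |r| / ρ := by ring
    _ ≤ ε' := hρε

private theorem seq_idx (𝒰 : Ultrafilter ℕ) {v : ℕ → Vd (k + 1)} (h1 : ∀ᶠ n in (𝒰 : Filter ℕ), ‖v n‖ = 1) :
    ∃ i, ∀ᶠ n in (𝒰 : Filter ℕ), ‖v n i‖ = 1 := by
  by_contra hcon
  push Not at hcon
  have h2 : ∀ i, ∀ᶠ n in (𝒰 : Filter ℕ), ¬ ‖v n i‖ = 1 := by
    intro i
    have h3 := hcon i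
    simpa using h3
  have h4 : ∀ᶠ n in (𝒰 : Filter ℕ), ∀ i, ¬ ‖v n i‖ = 1 := Filter.eventually_all.2 h2
  obtain ⟨n, hn, hn'⟩ := (h1.and h4).exists
  have h5 : ‖v n‖ < 1 := by
    refine (pi_norm_lt_iff one_pos).2 fun i => ?_
    have h6 : ‖v n i‖ ≤ 1 := hn ▸ norm_le_pi_norm (v n) i
    exact lt_of_le_of_ne h6 (hn' i)
  linarith

private theorem seq_alg {B L t x M ε : ℝ} (hB : 0 < B) (ht0 : 0 ≤ t) (ht1 : t < 1) (hx : 0 < x) (hx2 : x ≤ 3 / 2) (hxM : x ≤ M)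
    (h : M ^ 2 * (1 - t) ^ 2 * B ≤ B + L) (hε : 8 * (t * B) ≤ ε) : 2 * B * Real.log x - ε ≤ L := by
  have h1 : Real.log (x ^ 2) ≤ x ^ 2 - 1 := Real.log_le_sub_one_of_pos (by positivity)
  rw [Real.log_pow] at h1
  push_cast at h1
  have h2 : x ^ 2 * (1 - t) ^ 2 ≤ M ^ 2 * (1 - t) ^ 2 := by gcongr
  have h3 : x ^ 2 * (1 - t) ^ 2 * B ≤ B + L := (mul_le_mul_of_nonneg_right h2 hB.le).trans h
  have h4 : x ^ 2 ≤ 9 / 4 := by nlinarith
  have h5 : x ^ 2 - 8 * t ≤ x ^ 2 * (1 - t) ^ 2 := by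
    have : 0 ≤ x ^ 2 * t ^ 2 := by positivity
    nlinarith [mul_le_mul_of_nonneg_right h4 ht0]
  have h6 := mul_le_mul_of_nonneg_right h5 hB.le
  have h7 := mul_le_mul_of_nonneg_left h1 hB.le
  nlinarith

theorem seq_false (hX : IsCone X) (hP : PS X Λ u D p m C) (hQ : QD X Λ u D Q d) (hL : LCT X Λ u Q d p m) {ε : ℝ} (hε : 0 < ε) (hε1 : ε ≤ 1) {A R : ℕ → ℝ}
    {F : ℕ → ℂ → EN N} {h : ℕ → ℂ → Vd (k + 1)} (hN : ∀ n, Nrm X Λ u Q d p m ε (A n) (R n) (F n) (h n))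
    (hB : Tendsto (fun n => A n + Lam Q d p m (F n) (h n) 0) atTop atTop) (hR : Tendsto (fun n => R n ^ 2 / (A n + Lam Q d p m (F n) (h n) 0)) atTop atTop)
    (h1 : ∀ᶠ n in atTop, ‖deriv (h n) 0‖ = 1) : False := by
  set 𝒰 : Ultrafilter ℕ := hyperfilter ℕ with h𝒰
  have hle : (𝒰 : Filter ℕ) ≤ atTop := Nat.hyperfilter_le_atTop
  have hnear := fun (r ε' : ℝ) (hε' : 0 < ε') => (seq_near hX hP hQ hε hε1 hN hB hR r ε' hε').filter_mono hle
  have h1' : ∀ᶠ n in (𝒰 : Filter ℕ), ‖deriv (h n) 0‖ = 1 := h1.filter_mono hle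
  obtain ⟨a, ha, hlim⟩ : ∃ a ∈ sphere (0 : Vd (k + 1)) 1, Tendsto (fun n => deriv (h n) 0) (𝒰 : Filter ℕ) (𝓝 a) := by
    have h2 := (isCompact_sphere (0 : Vd (k + 1)) 1).ultrafilter_le_nhds (𝒰.map fun n => deriv (h n) 0) (by
      rw [le_principal_iff]
      show ∀ᶠ n in (𝒰 : Filter ℕ), deriv (h n) 0 ∈ sphere (0 : Vd (k + 1)) 1
      filter_upwards [h1'] with n hn
      rw [mem_sphere_zero_iff_norm]
      exact hn)
    exact h2
  have ha1 : ‖a‖ = 1 := by simpa using ha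
  obtain ⟨i, hi⟩ := seq_idx 𝒰 h1'
  have ha0 : a ≠ 0 := by
    intro h2
    rw [h2, norm_zero] at ha1
    exact zero_ne_one ha1
  set B : ℕ → ℝ := fun n => A n + Lam Q d p m (F n) (h n) 0 with hBdef
  have hx : ∀ r : ℝ, ∀ᶠ n in (𝒰 : Filter ℕ), r ≤ R n ∧ ‖deriv (h n) 0 i‖ = 1 ∧ ∀ z ∈ ball (0 : ℂ) r, ‖deriv (h n) z i / deriv (h n) 0 i - 1‖ ≤ 1 / 2 := by
    intro r
    filter_upwards [hnear r (1 / 2) (by norm_num), hi] with n hn hni
    refine ⟨hn.1, hni, fun z hz => ?_⟩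
    have h2 : deriv (h n) 0 i ≠ 0 := by
      rw [← norm_ne_zero_iff, hni]
      exact one_ne_zero
    have h3 : deriv (h n) z i / deriv (h n) 0 i - 1 = (deriv (h n) z - deriv (h n) 0) i / deriv (h n) 0 i := by
      rw [Pi.sub_apply]
      field_simp
    rw [h3, norm_div, hni, div_one]
    exact (norm_le_pi_norm _ i).trans (hn.2 z hz)
  have hslit : ∀ w : ℂ, ‖w - 1‖ ≤ 1 / 2 → w ∈ Complex.slitPlane := by
    intro w hw
    left
    have h2 := (Complex.abs_re_le_norm (w - 1)).trans hw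
    rw [Complex.sub_re, Complex.one_re, abs_le] at h2
    linarith [h2.1]
  refine hL 𝒰 a F h (fun n z => Complex.exp (2 * (B n : ℂ) * Complex.log (deriv (h n) z i / deriv (h n) 0 i))) ha0 ?_ ?_ ?_ ?_ ?_
  · intro r
    filter_upwards [hx r] with n hn
    exact (hN n).cv.mono (ball_subset_ball hn.1)
  · exact Filter.Eventually.of_forall fun n => (hN n).ok
  · intro r ε' hε'
    filter_upwards [hnear r (ε' / 2) (by positivity), Metric.tendsto_nhds.1 hlim (ε' / 2) (by positivity)] with n hn hn' z hz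
    rw [dist_eq_norm] at hn'
    have h2 : deriv (h n) z - a = (deriv (h n) z - deriv (h n) 0) + (deriv (h n) 0 - a) := by abel
    rw [h2]
    exact (norm_add_le _ _).trans (by linarith [hn.2 z hz])
  · intro r
    filter_upwards [hx r] with n hn
    have hd : DifferentiableOn ℂ (fun z => deriv (h n) z i / deriv (h n) 0 i) (ball 0 r) := by
      have h2 : DifferentiableOn ℂ (deriv (h n)) (ball 0 r) := ((hN n).cv.mono (ball_subset_ball hn.1)).h_diff.deriv isOpen_ball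
      exact (differentiableOn_pi.1 h2 i).div_const _
    refine ⟨?_, fun z _ => Complex.exp_ne_zero _, ?_⟩
    · exact ((hd.clog fun z hz => hslit _ (hn.2.2 z hz)).const_mul _).cexp
    · have h2 : deriv (h n) 0 i ≠ 0 := by
        rw [← norm_ne_zero_iff, hn.2.1]
        exact one_ne_zero
      simp [div_self h2]
  · intro r ε' hε'
    have hlarge : ∀ᶠ n in (𝒰 : Filter ℕ), 8 * r ^ 2 / ε' ≤ R n ^ 2 / B n := (hR.eventually_ge_atTop _).filter_mono hle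
    have hBpos : ∀ᶠ n in (𝒰 : Filter ℕ), 0 < B n := (hB.eventually_gt_atTop 0).filter_mono hle
    filter_upwards [hx r, hlarge, hBpos] with n hn hn2 hn3 z hz hok
    have hRpos := (hN n).R_pos
    have hzr : ‖z‖ < r := by simpa using hz
    have hzR : ‖z‖ < R n := hzr.trans_le hn.1
    set x : ℝ := ‖deriv (h n) z i / deriv (h n) 0 i‖ with hxdef
    have hx1 : ‖deriv (h n) z i / deriv (h n) 0 i - 1‖ ≤ 1 / 2 := hn.2.2 z hz
    have hxl : 1 / 2 ≤ x := by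
      have h2 := norm_sub_norm_le (1 : ℂ) (1 - deriv (h n) z i / deriv (h n) 0 i)
      rw [norm_one, norm_sub_rev (1 : ℂ), sub_sub_cancel] at h2
      linarith
    have hxu : x ≤ 3 / 2 := by
      have h2 := norm_add_le (1 : ℂ) (deriv (h n) z i / deriv (h n) 0 i - 1)
      rw [norm_one, add_sub_cancel] at h2
      linarith
    have hxM : x ≤ Mf p m ε (F n) (h n) z := by
      have h2 : x = ‖deriv (h n) z i‖ := by
        rw [hxdef, norm_div, hn.2.1, div_one]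
      rw [h2]
      exact (norm_le_pi_norm _ i).trans (le_max_left _ _)
    have hlog : Real.log ‖Complex.exp (2 * (B n : ℂ) * Complex.log (deriv (h n) z i / deriv (h n) 0 i))‖ = 2 * B n * Real.log x := by
      rw [Complex.norm_exp, Real.log_exp]
      have h2 : (2 * (B n : ℂ) * Complex.log (deriv (h n) z i / deriv (h n) 0 i)) = ((2 * B n : ℝ) : ℂ) * Complex.log (deriv (h n) z i / deriv (h n) 0 i) := by
        push_cast
        ring
      rw [h2, Complex.re_ofReal_mul, Complex.log_re]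
    rw [hlog]
    have h5 := (hN n).le z (by simpa using hzR) hok
    have ht1 : ‖z‖ ^ 2 / R n ^ 2 < 1 := by
      rw [div_lt_one (by positivity)]
      exact pow_lt_pow_left₀ hzR (norm_nonneg z) (by norm_num)
    have h6 : 8 * (‖z‖ ^ 2 / R n ^ 2 * B n) ≤ ε' := by
      rw [div_le_div_iff₀ hε' hn3] at hn2
      have h7 : ‖z‖ ^ 2 ≤ r ^ 2 := pow_le_pow_left₀ (norm_nonneg z) hzr.le 2
      have h8 : 8 * (‖z‖ ^ 2 / R n ^ 2 * B n) = 8 * ‖z‖ ^ 2 * B n / R n ^ 2 := by ring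
      rw [h8, div_le_iff₀ (by positivity)]
      calc 8 * ‖z‖ ^ 2 * B n ≤ 8 * r ^ 2 * B n := by gcongr
        _ ≤ R n ^ 2 * ε' := hn2
        _ = ε' * R n ^ 2 := by ring
    have h9 := seq_alg (L := Lam Q d p m (F n) (h n) z - Lam Q d p m (F n) (h n) 0) hn3 (by positivity) ht1 (by linarith) hxu hxM (by
      have : B n + (Lam Q d p m (F n) (h n) z - Lam Q d p m (F n) (h n) 0) = A n + Lam Q d p m (F n) (h n) z := by
        rw [hBdef]
        ring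
      rw [this]
      exact h5) h6
    linarith

end Pool.Agent.G3

end

section

/-!
# G3 R Root: Theorem ROOT

Plan.  `ε` from `nrm_one`.  Claim: there is `C₁` with `r² Mf (w)² ≤ C₁ (1 + Lam w)` for all curves; then `‖h'‖ ≤ Mf`, `p ^ (1/m) ≤ Mf / ε` give `RootLog C` with `C = C₁ / ε²` (`(p ^ (1/m)) ^ 2 = p ^ (2/m)`).
Otherwise for every `n` there is a curve with `r² Mf (w)² > n² (1 + Lam w)` (`n ≥ 1`); composing with `z ↦ w + r z` we have `w = 0`, `r = 1` (`lam_comp`, `mf_comp`, `ok_comp`).  `exists_nrm` with `A = n + 1` gives normalised curves with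
`4 R² / (A + Lam' 0) ≥ Mf 0 ² / (n + 1 + Lam 0) ≥ Mf 0 ² / ((n + 1) (1 + Lam 0)) → ∞`; `A + Lam' 0 ≥ n + 1 → ∞` (`lam_nonneg`); `nrm_one`, `seq_false`.

`LCT.seq`: the form of `LCT` with sequences of radii (use the hyperfilter).
-/

set_option autoImplicit false

open Topology Filter Metric

namespace Pool.Agent.G3

open Pool.Agent.H36.BP (EN fs wd Sub)
open Pool.Agent.H14.PP (IsCone CurveAt Tan)
open Pool.Agent.H62.EF (MN pr)
open Pool.Agent.AD (Vd Chart Charts)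
open Pool.Agent.TG (TMap Lat Geo Gd)

variable {N k : ℕ} {X : Set (EN N)} {Λ : AddSubgroup (Vd (k + 1))} {u : EN N → Vd (k + 1)} {D : Set (Vd (k + 1))} {p : EN N → EN N → ℝ} {m d : ℕ} {C : ℝ} {Q : EN N → ℂ}

/-- one step: a curve which violates the bound gives a normalised curve -/
private theorem root_step (hX : IsCone X) (hP : PS X Λ u D p m C) (hQ : QD X Λ u D Q d) {ε : ℝ} (hε : 0 < ε) (n : ℕ)
    (hn : ∃ (w : ℂ) (r : ℝ) (F : ℂ → EN N) (h : ℂ → Vd (k + 1)), 0 < r ∧ Cv X Λ u (ball w r) F h ∧ Ok Q p F w ∧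
      ((n : ℝ) + 1) ^ 2 * (1 + Lam Q d p m F h w) < r ^ 2 * Mf p m ε F h w ^ 2) :
    ∃ (R : ℝ) (F' : ℂ → EN N) (h' : ℂ → Vd (k + 1)), Nrm X Λ u Q d p m ε ((n : ℝ) + 1) R F' h' ∧
      0 ≤ Lam Q d p m F' h' 0 ∧ ((n : ℝ) + 1) / 4 ≤ R ^ 2 / ((n : ℝ) + 1 + Lam Q d p m F' h' 0) := by
  obtain ⟨w, r, F, h, hr, hF, hok, hlt⟩ := hn
  set φ : ℂ → ℂ := fun z => w + (r : ℂ) * z with hφ
  have hφd : DifferentiableOn ℂ φ (ball 0 1) := by
    rw [hφ]
    fun_prop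
  have hφ0 : φ 0 = w := by simp [hφ]
  have hderiv : deriv φ 0 = (r : ℂ) := by
    have h1 : HasDerivAt φ ((r : ℂ) * 1) 0 := ((hasDerivAt_id (0 : ℂ)).const_mul (r : ℂ)).const_add w
    rw [mul_one] at h1
    exact h1.deriv
  have hm : Set.MapsTo φ (ball 0 1) (ball w r) := by
    intro z hz
    rw [mem_ball_zero_iff] at hz
    rw [mem_ball, dist_eq_norm, hφ]
    show ‖w + (r : ℂ) * z - w‖ < r
    rw [add_sub_cancel_left, norm_mul, Complex.norm_real, Real.norm_eq_abs, abs_of_pos hr]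
    calc r * ‖z‖ < r * 1 := by gcongr
      _ = r := mul_one r
  have h0m : (0 : ℂ) ∈ ball (0 : ℂ) 1 := mem_ball_self one_pos
  have hF1 := hF.comp hφd hm
  have hd0 : deriv φ 0 ≠ 0 := by
    rw [hderiv]
    exact_mod_cast hr.ne'
  have hok1 : Ok Q p (fun z => F (φ z)) 0 := by
    rw [ok_comp (Q := Q) hP isOpen_ball isOpen_ball hF hφd hm h0m hd0, hφ0]
    exact hok
  have hlam1 : Lam Q d p m (fun z => F (φ z)) (fun z => h (φ z)) 0 = Lam Q d p m F h w := by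
    rw [lam_comp (Q := Q) (d := d) hP isOpen_ball isOpen_ball hF hφd hm h0m hd0, hφ0]
  have hmf1 : Mf p m ε (fun z => F (φ z)) (fun z => h (φ z)) 0 = r * Mf p m ε F h w := by
    rw [mf_comp hP isOpen_ball isOpen_ball hF hφd hm h0m hε, hφ0, hderiv, Complex.norm_real, Real.norm_eq_abs, abs_of_pos hr]
  set L := Lam Q d p m F h w with hL
  set M := Mf p m ε F h w with hM
  have hL0 : 0 ≤ L := (lam_nonneg (d := d) (p := p) (m := m) (h := h) hX hQ (hF.mem w (mem_ball_self hr)) hok.1).2.2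
  have hM0 : 0 ≤ M := (norm_nonneg _).trans (le_max_left _ _)
  have hn0 : (0 : ℝ) ≤ n := Nat.cast_nonneg n
  have hMpos : 0 < M := by
    rcases hM0.lt_or_eq with h1 | h1
    · exact h1
    · rw [← h1] at hlt
      have h2 : (0 : ℝ) ≤ ((n : ℝ) + 1) ^ 2 * (1 + L) := by positivity
      nlinarith
  have hMf0 : 0 < Mf p m ε (fun z => F (φ z)) (fun z => h (φ z)) 0 := by
    rw [hmf1]
    positivity
  obtain ⟨R, F', h', hN, hle⟩ := exists_nrm hX hP hQ hε (show (0 : ℝ) < (n : ℝ) + 1 by positivity) hF1 hok1 hMf0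
  have hL' : 0 ≤ Lam Q d p m F' h' 0 := (lam_nonneg (d := d) (p := p) (m := m) (h := h') hX hQ (hN.cv.mem 0 (mem_ball_self hN.R_pos)) hN.ok.1).2.2
  refine ⟨R, F', h', hN, hL', ?_⟩
  rw [hlam1, hmf1] at hle
  set L' := Lam Q d p m F' h' 0 with hLd
  have hB : 0 < (n : ℝ) + 1 + L' := by positivity
  rw [div_le_div_iff₀ (by norm_num) hB]
  have h3 : (n : ℝ) + 1 + L ≤ ((n : ℝ) + 1) * (1 + L) := by nlinarith
  have h4 : ((n : ℝ) + 1) ^ 2 * (1 + L) * ((n : ℝ) + 1 + L') ≤ 4 * R ^ 2 * (((n : ℝ) + 1) * (1 + L)) := by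
    calc ((n : ℝ) + 1) ^ 2 * (1 + L) * ((n : ℝ) + 1 + L') ≤ (r ^ 2 * M ^ 2) * ((n : ℝ) + 1 + L') := by gcongr
      _ = (r * M) ^ 2 * ((n : ℝ) + 1 + L') := by ring
      _ ≤ 4 * R ^ 2 * ((n : ℝ) + 1 + L) := hle
      _ ≤ 4 * R ^ 2 * (((n : ℝ) + 1) * (1 + L)) := by gcongr
  have h5 : 0 < ((n : ℝ) + 1) * (1 + L) := by positivity
  have h6 : ((n : ℝ) + 1) * ((n : ℝ) + 1 + L') * (((n : ℝ) + 1) * (1 + L)) ≤ R ^ 2 * 4 * (((n : ℝ) + 1) * (1 + L)) := by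
    calc ((n : ℝ) + 1) * ((n : ℝ) + 1 + L') * (((n : ℝ) + 1) * (1 + L)) = ((n : ℝ) + 1) ^ 2 * (1 + L) * ((n : ℝ) + 1 + L') := by ring
      _ ≤ 4 * R ^ 2 * (((n : ℝ) + 1) * (1 + L)) := h4
      _ = R ^ 2 * 4 * (((n : ℝ) + 1) * (1 + L)) := by ring
  exact le_of_mul_le_mul_right h6 h5

private theorem root_claim (hX : IsCone X) (hP : PS X Λ u D p m C) (hQ : QD X Λ u D Q d) (hL : LCT X Λ u Q d p m) {ε B₀ R₀ : ℝ} (hε : 0 < ε) (hε1 : ε ≤ 1)
    (hone : ∀ (A R : ℝ) (F : ℂ → EN N) (h : ℂ → Vd (k + 1)), Nrm X Λ u Q d p m ε A R F h → R₀ ≤ R → B₀ ≤ A + Lam Q d p m F h 0 → ‖deriv h 0‖ = 1) :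
    ∃ C₁ : ℝ, 0 < C₁ ∧ ∀ (w : ℂ) (r : ℝ) (F : ℂ → EN N) (h : ℂ → Vd (k + 1)), 0 < r → Cv X Λ u (ball w r) F h → Ok Q p F w →
      r ^ 2 * Mf p m ε F h w ^ 2 ≤ C₁ * (1 + Lam Q d p m F h w) := by
  by_contra hcon
  push Not at hcon
  have hstep : ∀ n : ℕ, ∃ (R : ℝ) (F' : ℂ → EN N) (h' : ℂ → Vd (k + 1)), Nrm X Λ u Q d p m ε ((n : ℝ) + 1) R F' h' ∧
      0 ≤ Lam Q d p m F' h' 0 ∧ ((n : ℝ) + 1) / 4 ≤ R ^ 2 / ((n : ℝ) + 1 + Lam Q d p m F' h' 0) := by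
    intro n
    refine root_step hX hP hQ hε n ?_
    obtain ⟨w, r, F, h, h1, h2, h3, h4⟩ := hcon (((n : ℝ) + 1) ^ 2) (by positivity)
    exact ⟨w, r, F, h, h1, h2, h3, h4⟩
  choose R F h hN hL0 hR using hstep
  have hn1 : Tendsto (fun n : ℕ => ((n : ℝ) + 1)) atTop atTop := tendsto_atTop_add_const_right _ _ tendsto_natCast_atTop_atTop
  have hB : Tendsto (fun n : ℕ => ((n : ℝ) + 1) + Lam Q d p m (F n) (h n) 0) atTop atTop :=
    tendsto_atTop_mono (fun n => le_add_of_nonneg_right (hL0 n)) hn1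
  have hR4 : Tendsto (fun n : ℕ => R n ^ 2 / (((n : ℝ) + 1) + Lam Q d p m (F n) (h n) 0)) atTop atTop :=
    tendsto_atTop_mono hR (hn1.atTop_div_const (by norm_num))
  refine seq_false hX hP hQ hL hε hε1 hN hB hR4 ?_
  have h5 : ∀ᶠ n in atTop, R₀ ≤ R n := by
    filter_upwards [hR4.eventually_ge_atTop (max R₀ 1), hB.eventually_ge_atTop (max R₀ 1)] with n h1 h2
    have h3 : (1 : ℝ) ≤ max R₀ 1 := le_max_right _ _
    have h4 : R₀ ≤ max R₀ 1 := le_max_left _ _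
    have hpos : 0 < ((n : ℝ) + 1) + Lam Q d p m (F n) (h n) 0 := by linarith
    rw [le_div_iff₀ hpos] at h1
    have h6 : max R₀ 1 * max R₀ 1 ≤ R n ^ 2 := (mul_le_mul_of_nonneg_left h2 (by linarith)).trans h1
    have h7 := (hN n).R_pos
    nlinarith
  filter_upwards [h5, hB.eventually_ge_atTop B₀] with n h1 h2
  exact hone _ _ _ _ (hN n) h1 h2

theorem root (hX : IsCone X) (hP : PS X Λ u D p m C) (hQ : QD X Λ u D Q d) (hL : LCT X Λ u Q d p m) : ∃ C₁ : ℝ, 0 < C₁ ∧ RootLog X Λ u Q d p m C₁ := by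
  obtain ⟨ε, B₀, R₀, hε, hε1, hone⟩ := nrm_one hX hP hQ
  obtain ⟨C₁, hC₁, hcl⟩ := root_claim hX hP hQ hL hε hε1 hone
  refine ⟨C₁ / ε ^ 2, by positivity, ?_⟩
  intro w r F h hr hF hok
  have h1 := hcl w r F h hr hF hok
  have hL0 : 0 ≤ Lam Q d p m F h w := (lam_nonneg (d := d) (p := p) (m := m) (h := h) hX hQ (hF.mem w (mem_ball_self hr)) hok.1).2.2
  have h2 : ‖deriv h w‖ ≤ Mf p m ε F h w := le_max_left _ _
  have h3 : ε * pf p F w ^ (1 / (m : ℝ)) ≤ Mf p m ε F h w := le_max_right _ _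
  have h4 : C₁ ≤ C₁ / ε ^ 2 := by
    rw [le_div_iff₀ (by positivity)]
    have : ε ^ 2 ≤ 1 := pow_le_one₀ hε.le hε1
    nlinarith
  refine ⟨?_, ?_⟩
  · calc r ^ 2 * ‖deriv h w‖ ^ 2 ≤ r ^ 2 * Mf p m ε F h w ^ 2 := by gcongr
      _ ≤ C₁ * (1 + Lam Q d p m F h w) := h1
      _ ≤ C₁ / ε ^ 2 * (1 + Lam Q d p m F h w) := by gcongr
  · have hp0 : 0 ≤ pf p F w := hok.2.le
    have h5 : pf p F w ^ (2 / (m : ℝ)) = (pf p F w ^ (1 / (m : ℝ))) ^ 2 := by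
      rw [← Real.rpow_natCast, ← Real.rpow_mul hp0]
      congr 1
      push_cast
      ring
    have h6 : 0 ≤ pf p F w ^ (1 / (m : ℝ)) := Real.rpow_nonneg hp0 _
    rw [h5, div_mul_eq_mul_div, le_div_iff₀ (by positivity)]
    calc r ^ 2 * (pf p F w ^ (1 / (m : ℝ))) ^ 2 * ε ^ 2 = r ^ 2 * (ε * pf p F w ^ (1 / (m : ℝ))) ^ 2 := by ring
      _ ≤ r ^ 2 * Mf p m ε F h w ^ 2 := by gcongr
      _ ≤ C₁ * (1 + Lam Q d p m F h w) := h1

end Pool.Agent.G3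

end
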