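import Pool.Agent.H94.G4T.G3.C.QFa
import Pool.Agent.H94.G4T.M15
import Pool.Agent.H94.G4T.M21
import Pool.Agent.H94.G4T.M64

/-! The parts of this file: G3.C.GCs, G4.A.P1. -/

section

/-!
# G3 C GCs: a family which is uniformly Lipschitz in `z` is smooth

`smo_of_lip`: if `Φ s` is `n`-Lipschitz on `closedBall z₀ r` for all `s` near `s₁`, the family is continuous at `(s₁, z₁)`, `z₁ ∈ ball z₀ r`.  `str` gives a straight chart `χ` at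
`Φ s₁ z₁`; `w s z = χ.q (nv v (Φ s z)) 0` (`nv` of EDefs, `v = χ.σ` of the point) is continuous near `(s₁, z₁)`, holomorphic in `z`, and `χ.q (nv v (Φ s z)) = cz b ν a c ρ' (w s z) s z`
(`lift`, `Str.lift`, `TMap.smul`, `Lat.disc`, continuity).  Off `Dt` it is locally the first coordinate of an analytic function of a `JetFam` (`smo`, `JetFam.comp`); `jet_fill` with a
small circle off `Dt` (`dt_iso`, `dt_closed`).
-/

set_option autoImplicit false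

open Topology Filter Metric

namespace Pool.Agent.G3.C

open Pool.Agent.H36.BP (EN fs wd)
open Pool.Agent.H14.PP (IsCone)
open Pool.Agent.H62.EF (MN pr)
open Pool.Agent.AD (Vd Chart Charts)
open Pool.Agent.TG (TMap Lat Str ms tl)

variable {N k : ℕ} {X : Set (EN N)} {Λ : AddSubgroup (Vd (k + 1))} {u : EN N → Vd (k + 1)} {ν a b c : Vd (k + 1)} {m : ℕ} {ρ : ℝ}
  {LT : AddSubgroup (ℝ × ℂ)} {Dt Bd : Set (ℂ × ℂ)} {FF : Set (ℝ → ℂ → MN N)}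

private theorem tz_cont (b ν a c : Vd (k + 1)) (ρ : ℝ) : Continuous fun p : ℂ × ℂ => tz b ν a c ρ p.1 p.2 := by
  unfold tz
  fun_prop

private theorem cz_cont (b ν a c : Vd (k + 1)) (ρ : ℝ) : Continuous fun p : ℂ × ℂ × ℂ => cz b ν a c ρ p.1 p.2.1 p.2.2 := by
  unfold cz
  refine continuous_pi fun i => ?_
  refine Fin.cases ?_ (fun i => ?_) i
  · simp only [Fin.cons_zero]
    exact continuous_fst
  · simp only [Fin.cons_succ]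
    exact (continuous_apply i).comp ((tz_cont b ν a c ρ).comp continuous_snd)

theorem smo_cont (hX : IsCone X) {Φ : ℝ → ℂ → MN N} {s : ℝ} {z : ℂ} (h : Smo X Λ u a ν b Φ s z) : ContinuousAt (fun q : ℝ × ℂ => Φ q.1 q.2) (s, z) := by
  obtain ⟨χ, c, ρ, w, r, B⟩ := h
  have hr := B.pos
  have hI : Set.Ioo (s - r) (s + r) ∈ 𝓝 s := isOpen_Ioo.mem_nhds ⟨by linarith, by linarith⟩
  have hD : ball z r ∈ 𝓝 z := ball_mem_nhds z hr
  have hN : Set.Ioo (s - r) (s + r) ×ˢ ball z r ∈ 𝓝 ((s, z) : ℝ × ℂ) := prod_mem_nhds hI hD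
  have hev : (fun q : ℝ × ℂ => pr (χ.σ (cz b ν a c ρ (w 0 q.1 q.2) q.1 q.2))) =ᶠ[𝓝 ((s, z) : ℝ × ℂ)] fun q : ℝ × ℂ => Φ q.1 q.2 := by
    filter_upwards [hN] with q hq
    exact (B.eq q.1 hq.1 q.2 hq.2).symm
  refine ContinuousAt.congr ?_ hev
  have hw : ContinuousAt (fun q : ℝ × ℂ => w 0 q.1 q.2) (s, z) := (B.jet.cont 0).continuousAt hN
  have h1 : ContinuousAt (fun q : ℝ × ℂ => ((w 0 q.1 q.2, (q.1 : ℂ), q.2) : ℂ × ℂ × ℂ)) (s, z) :=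
    hw.prodMk (((Complex.continuous_ofReal.comp continuous_fst).continuousAt).prodMk continuous_snd.continuousAt)
  have h2 : ContinuousAt (fun q : ℝ × ℂ => cz b ν a c ρ (w 0 q.1 q.2) q.1 q.2) (s, z) :=
    ContinuousAt.comp (g := fun p : ℂ × ℂ × ℂ => cz b ν a c ρ p.1 p.2.1 p.2.2) (f := fun q : ℝ × ℂ => ((w 0 q.1 q.2, (q.1 : ℂ), q.2) : ℂ × ℂ × ℂ))
      (cz_cont b ν a c ρ).continuousAt h1
  have hm : cz b ν a c ρ (w 0 s z) s z ∈ ball (0 : Vd (k + 2)) 2 := B.mem s ⟨by linarith, by linarith⟩ z (mem_ball_self hr)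
  have h3 : ContinuousAt χ.σ (cz b ν a c ρ (w 0 s z) s z) := (χ.σ_an _ hm).continuousAt
  have h4 : χ.σ (cz b ν a c ρ (w 0 s z) s z) ≠ 0 := fun h0 => hX.zero_notMem (h0 ▸ (χ.σ_mem _ hm).1)
  have h5 : ContinuousAt (fun q : ℝ × ℂ => χ.σ (cz b ν a c ρ (w 0 q.1 q.2) q.1 q.2)) (s, z) :=
    ContinuousAt.comp (g := χ.σ) (f := fun q : ℝ × ℂ => cz b ν a c ρ (w 0 q.1 q.2) q.1 q.2) h3 h2
  exact ContinuousAt.comp (g := pr) (f := fun q : ℝ × ℂ => χ.σ (cz b ν a c ρ (w 0 q.1 q.2) q.1 q.2)) (Pool.Agent.H62.EF.continuousAt_pr h4) h5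

private theorem jet_mono {w : ℕ → ℝ → ℂ → ℂ} {I I' : Set ℝ} {D D' : Set ℂ} (hw : JetFam w I D) (hI : I' ⊆ I) (hD : D' ⊆ D) : JetFam w I' D' :=
  ⟨fun j s hs z hz => hw.der j s (hI hs) z (hD hz), fun j => (hw.cont j).mono (Set.prod_mono hI hD), fun j s hs => (hw.hol j s (hI hs)).mono hD⟩

/-- a family which is uniformly Lipschitz in `z` is continuous -/
private theorem lip_cont (D : TDat X Λ u a ν b LT Dt Bd ρ FF) {Φ : ℝ → ℂ → MN N} (hΦ : Φ ∈ FF) {z₀ : ℂ} {r n : ℝ} {V : Set ℝ} (hV : IsOpen V)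
    (hl : ∀ s ∈ V, ∀ z ∈ closedBall z₀ r, ∀ z' ∈ closedBall z₀ r, dist (Φ s z) (Φ s z') ≤ n * ‖z - z'‖) {s₁ : ℝ} (hs₁ : s₁ ∈ V) {z₁ : ℂ} (hz₁ : z₁ ∈ ball z₀ r) :
    ContinuousAt (fun q : ℝ × ℂ => Φ q.1 q.2) (s₁, z₁) := by
  rw [Metric.continuousAt_iff]
  intro ε hε
  obtain ⟨n', hn', hnn⟩ : ∃ n' : ℝ, 0 < n' ∧ n ≤ n' := ⟨max n 1, lt_of_lt_of_le one_pos (le_max_right _ _), le_max_left _ _⟩
  have hd : 0 < ε / (8 * n') := by positivity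
  have hev : ∀ᶠ z' in 𝓝[≠] z₁, ((s₁ : ℂ), z') ∉ Dt ∧ z' ∈ ball z₀ r ∧ z' ∈ ball z₁ (ε / (8 * n')) := by
    refine (D.dt_iso s₁ z₁).and (Filter.Eventually.filter_mono nhdsWithin_le_nhds ?_)
    exact (isOpen_ball.eventually_mem hz₁).and (isOpen_ball.eventually_mem (mem_ball_self hd))
  obtain ⟨z', h1, h2, h3⟩ := hev.exists
  have hc := smo_cont D.cone (D.smo Φ hΦ s₁ z' h1)
  have hc' : ContinuousAt (fun s : ℝ => Φ s z') s₁ :=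
    ContinuousAt.comp_of_eq (g := fun q : ℝ × ℂ => Φ q.1 q.2) (f := fun s : ℝ => ((s, z') : ℝ × ℂ)) hc (by fun_prop) rfl
  obtain ⟨δ₁, hδ₁, h4⟩ := Metric.continuousAt_iff.1 hc' (ε / 4) (by positivity)
  obtain ⟨δ₂, hδ₂, h5⟩ := Metric.isOpen_iff.1 hV s₁ hs₁
  obtain ⟨δ₃, hδ₃, h6⟩ := Metric.isOpen_iff.1 isOpen_ball z₁ hz₁
  refine ⟨min (min δ₁ δ₂) (min δ₃ (ε / (8 * n'))), lt_min (lt_min hδ₁ hδ₂) (lt_min hδ₃ hd), fun {q} hq => ?_⟩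
  rw [Prod.dist_eq, max_lt_iff] at hq
  obtain ⟨hq1, hq2⟩ := hq
  have a1 : dist q.1 s₁ < δ₁ := hq1.trans_le ((min_le_left _ _).trans (min_le_left _ _))
  have a2 : dist q.1 s₁ < δ₂ := hq1.trans_le ((min_le_left _ _).trans (min_le_right _ _))
  have a3 : dist q.2 z₁ < δ₃ := hq2.trans_le ((min_le_right _ _).trans (min_le_left _ _))
  have a4 : dist q.2 z₁ < ε / (8 * n') := hq2.trans_le ((min_le_right _ _).trans (min_le_right _ _))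
  have b1 : q.1 ∈ V := h5 a2
  have b2 : q.2 ∈ closedBall z₀ r := ball_subset_closedBall (h6 a3)
  have b3 : z' ∈ closedBall z₀ r := ball_subset_closedBall h2
  have b4 : z₁ ∈ closedBall z₀ r := ball_subset_closedBall hz₁
  have c1 := hl q.1 b1 q.2 b2 z' b3
  have c2 := hl s₁ hs₁ z' b3 z₁ b4
  have c3 := h4 a1
  rw [mem_ball, dist_eq_norm] at h3
  have d1 : ‖q.2 - z'‖ ≤ ε / (8 * n') + ε / (8 * n') := by
    calc ‖q.2 - z'‖ = ‖(q.2 - z₁) - (z' - z₁)‖ := by congr 1; ring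
      _ ≤ ‖q.2 - z₁‖ + ‖z' - z₁‖ := norm_sub_le _ _
      _ ≤ _ := by
        rw [dist_eq_norm] at a4
        linarith
  have e1 : n * ‖q.2 - z'‖ ≤ n' * (ε / (8 * n') + ε / (8 * n')) := mul_le_mul hnn d1 (norm_nonneg _) hn'.le
  have e2 : n * ‖z' - z₁‖ ≤ n' * (ε / (8 * n')) := mul_le_mul hnn h3.le (norm_nonneg _) hn'.le
  have e3 : n' * (ε / (8 * n')) = ε / 8 := by field_simp
  rw [mul_add, e3] at e1
  rw [e3] at e2
  have t1 := dist_triangle4 (Φ q.1 q.2) (Φ q.1 z') (Φ s₁ z') (Φ s₁ z₁)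
  change dist (Φ q.1 q.2) (Φ s₁ z₁) < ε
  linarith

/-- the first coordinate in the straight chart near a point where the family is continuous -/
private theorem loc_eq (hX : IsCone X) (hT : TMap X Λ u) (hL : Lat Λ) {Φ : ℝ → ℂ → MN N}
    (hlift : ∀ s : ℝ, ∃ F ∈ Gc X Λ u a (b + (s : ℂ) • ν), ∀ z, Φ s z = pr (F z)) {s₁ : ℝ} {z₁ : ℂ}
    (hc : ContinuousAt (fun q : ℝ × ℂ => Φ q.1 q.2) (s₁, z₁)) {χ : Chart (k + 2) X} {ρ' : ℝ} {x : ℂ} (hS : Str Λ u χ c ρ')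
    (hx : cz b ν a c ρ' x s₁ z₁ ∈ ball (0 : Vd (k + 2)) 2) (hΦ : Φ s₁ z₁ = pr (χ.σ (cz b ν a c ρ' x s₁ z₁))) :
    ∃ (v : EN N) (η : ℝ), 0 < η ∧ ∀ s ∈ Set.Ioo (s₁ - η) (s₁ + η), ∀ z ∈ ball z₁ η, nd v (Φ s z) ≠ 0 ∧ nv v (Φ s z) ∈ χ.U ∧
      ContinuousAt (fun z => nv v (Φ s z)) z ∧
      cz b ν a c ρ' (χ.q (nv v (Φ s z)) 0) s z ∈ ball (0 : Vd (k + 2)) 2 ∧ Φ s z = pr (χ.σ (cz b ν a c ρ' (χ.q (nv v (Φ s z)) 0) s z)) := by
  obtain ⟨p₁, hp₁⟩ : ∃ p₁, p₁ = cz b ν a c ρ' x s₁ z₁ := ⟨_, rfl⟩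
  rw [← hp₁] at hx hΦ
  obtain ⟨v, hv⟩ : ∃ v, v = χ.σ p₁ := ⟨_, rfl⟩
  rw [← hv] at hΦ
  have hvX : v ∈ X := hv ▸ (χ.σ_mem _ hx).1
  have hvU : v ∈ χ.U := hv ▸ (χ.σ_mem _ hx).2.1
  have hv0 : v ≠ 0 := fun h => hX.zero_notMem (h ▸ hvX)
  have hvv : (inner ℂ v v : ℂ) ≠ 0 := inner_self_ne_zero.mpr hv0
  have hnd : nd v (Φ s₁ z₁) ≠ 0 := by
    rw [hΦ]
    exact (nd_pr_ne hv0).2 hvv
  have hnv : nv v (Φ s₁ z₁) = (inner ℂ v v : ℂ)⁻¹ • v := by rw [hΦ, nv_pr hvv]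
  have hU1 : nv v (Φ s₁ z₁) ∈ χ.U := by
    rw [hnv]
    exact χ.smul_U v hvU _ (inv_ne_zero hvv)
  have hq1 : χ.q (nv v (Φ s₁ z₁)) = p₁ := by
    rw [hnv, χ.q_smul v hvU _ (inv_ne_zero hvv), hv]
    exact (χ.σ_mem _ hx).2.2
  have hcn : ContinuousAt (fun q : ℝ × ℂ => nv v (Φ q.1 q.2)) (s₁, z₁) :=
    ContinuousAt.comp_of_eq (g := nv v) (f := fun q : ℝ × ℂ => Φ q.1 q.2) (nv_continuousAt hnd) hc rfl
  have hcq : ContinuousAt (fun q : ℝ × ℂ => χ.q (nv v (Φ q.1 q.2))) (s₁, z₁) :=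
    ContinuousAt.comp_of_eq (g := χ.q) (f := fun q : ℝ × ℂ => nv v (Φ q.1 q.2)) (χ.q_an _ hU1).continuousAt hcn rfl
  have hcd : ContinuousAt (fun q : ℝ × ℂ => nd v (Φ q.1 q.2)) (s₁, z₁) :=
    ContinuousAt.comp_of_eq (g := nd v) (f := fun q : ℝ × ℂ => Φ q.1 q.2) (nd_cont v).continuousAt hc rfl
  obtain ⟨δ, hδ, hdisc⟩ := hL.disc
  have hms : Continuous (ms (k := k) c ρ') := by
    unfold ms tl
    fun_prop
  have hcm : ContinuousAt (fun q : ℝ × ℂ => ‖ms c ρ' (χ.q (nv v (Φ q.1 q.2))) - (b + (q.1 : ℂ) • ν + q.2 • a)‖) (s₁, z₁) := by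
    refine ContinuousAt.norm (ContinuousAt.sub ?_ ?_)
    · exact ContinuousAt.comp_of_eq (g := ms c ρ') (f := fun q : ℝ × ℂ => χ.q (nv v (Φ q.1 q.2))) hms.continuousAt hcq rfl
    · have h1 : Continuous fun q : ℝ × ℂ => b + (q.1 : ℂ) • ν + q.2 • a :=
        (continuous_const.add ((Complex.continuous_ofReal.comp continuous_fst).smul continuous_const)).add (continuous_snd.smul continuous_const)
      exact h1.continuousAt
  have hm0 : ‖ms c ρ' (χ.q (nv v (Φ s₁ z₁))) - (b + (s₁ : ℂ) • ν + z₁ • a)‖ < δ := by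
    rw [hq1, hp₁, ms_cz hS.pos, sub_self, norm_zero]
    exact hδ
  have e1 : ∀ᶠ q in 𝓝 ((s₁, z₁) : ℝ × ℂ), nd v (Φ q.1 q.2) ≠ 0 := hcd.eventually_ne hnd
  have e2 : ∀ᶠ q in 𝓝 ((s₁, z₁) : ℝ × ℂ), nv v (Φ q.1 q.2) ∈ χ.U := hcn.eventually_mem (χ.isOpen_U.mem_nhds hU1)
  have e3 : ∀ᶠ q in 𝓝 ((s₁, z₁) : ℝ × ℂ), χ.q (nv v (Φ q.1 q.2)) ∈ ball (0 : Vd (k + 2)) 2 :=
    hcq.eventually_mem (isOpen_ball.mem_nhds (by rw [hq1]; exact hx))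
  have e4 : ∀ᶠ q in 𝓝 ((s₁, z₁) : ℝ × ℂ), ‖ms c ρ' (χ.q (nv v (Φ q.1 q.2))) - (b + (q.1 : ℂ) • ν + q.2 • a)‖ < δ :=
    hcm.eventually_lt continuousAt_const hm0
  obtain ⟨η, hη, he⟩ := Metric.eventually_nhds_iff.1 (e1.and (e2.and (e3.and e4)))
  refine ⟨v, η, hη, fun s hs z hz => ?_⟩
  have hd : dist ((s, z) : ℝ × ℂ) (s₁, z₁) < η := by
    rw [Prod.dist_eq]
    refine max_lt ?_ hz
    rw [Real.dist_eq, abs_lt]
    exact ⟨by linarith [hs.1], by linarith [hs.2]⟩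
  obtain ⟨h1, h2, h3, h4⟩ := he hd
  obtain ⟨F, ⟨hF1, hF2, hF3⟩, hF4⟩ := hlift s
  have hF0 : F z ≠ 0 := fun h => hX.zero_notMem (h ▸ hF2 z)
  dsimp only at h1 h2 h3 h4
  have h5 : (inner ℂ v (F z) : ℂ) ≠ 0 := by
    rw [← nd_pr_ne hF0, ← hF4 z]
    exact h1
  have h6 : nv v (Φ s z) = (inner ℂ v (F z) : ℂ)⁻¹ • F z := by rw [hF4 z, nv_pr h5]
  have h7 : nv v (Φ s z) ∈ X := by
    rw [h6]
    exact hX.smul_mem _ (hF2 z) _ (inv_ne_zero h5)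
  have h8 : pr (nv v (Φ s z)) = Φ s z := by
    rw [hF4 z]
    exact pr_nv h5
  obtain ⟨hin, c', hc', h9⟩ := χ.surj _ h7 h2
  have h10 : Φ s z = pr (χ.σ (χ.q (nv v (Φ s z)))) := by
    rw [← h8]
    conv_lhs => rw [h9]
    rw [h8]
    exact Pool.Agent.H62.EF.pr_smul _ hc'
  -- the base coordinates
  have h11 : ms c ρ' (χ.q (nv v (Φ s z))) - (b + (s : ℂ) • ν + z • a) ∈ Λ := by
    have g1 := hS.lift _ h3
    have g2 := hT.smul _ (χ.σ_mem _ h3).1 c' hc'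
    rw [← h9] at g2
    have g3 := hT.smul _ (hF2 z) _ (inv_ne_zero h5)
    rw [← h6] at g3
    have g4 := hF3 z
    have g5 : ms c ρ' (χ.q (nv v (Φ s z))) - (b + (s : ℂ) • ν + z • a) =
        -(u (χ.σ (χ.q (nv v (Φ s z)))) - ms c ρ' (χ.q (nv v (Φ s z)))) - (u (nv v (Φ s z)) - u (χ.σ (χ.q (nv v (Φ s z))))) +
          (u (nv v (Φ s z)) - u (F z)) + (u (F z) - (b + (s : ℂ) • ν + z • a)) := by
      abel
    rw [g5]
    exact Λ.add_mem (Λ.add_mem (Λ.sub_mem (Λ.neg_mem g1) g2) g3) g4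
  have h12 : ms c ρ' (χ.q (nv v (Φ s z))) = b + (s : ℂ) • ν + z • a := sub_eq_zero.1 (hdisc _ h11 h4)
  have h13 : χ.q (nv v (Φ s z)) = cz b ν a c ρ' (χ.q (nv v (Φ s z)) 0) s z := by
    have hρ : (ρ' : ℂ) ≠ 0 := by exact_mod_cast hS.pos.ne'
    funext i
    refine Fin.cases rfl (fun j => ?_) i
    have g1 := congrFun h12 j
    simp only [ms, tl, Pi.add_apply, Pi.smul_apply, smul_eq_mul] at g1
    change _ = (ρ' : ℂ)⁻¹ * (b j + (s : ℂ) * ν j + z * a j - c j)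
    rw [← g1]
    field_simp
    ring
  refine ⟨h1, h2, ?_, ?_, ?_⟩
  · have g0 : ContinuousAt (fun z => Φ s z) z := by
      have g1 : (fun z => Φ s z) = fun z => pr (F z) := funext hF4
      rw [g1]
      exact ContinuousAt.comp_of_eq (g := pr) (f := F) (Pool.Agent.H62.EF.continuousAt_pr hF0) hF1.continuous.continuousAt rfl
    exact ContinuousAt.comp_of_eq (g := nv v) (f := fun z => Φ s z) (nv_continuousAt h1) g0 rfl
  · rw [← h13]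
    exact h3
  · rw [← h13]
    exact h10

theorem smo_of_lip (D : TDat X Λ u a ν b LT Dt Bd ρ FF) {Φ : ℝ → ℂ → MN N} (hΦ : Φ ∈ FF) {z₀ : ℂ} {r n : ℝ} {V : Set ℝ} (hV : IsOpen V)
    (hl : ∀ s ∈ V, ∀ z ∈ closedBall z₀ r, ∀ z' ∈ closedBall z₀ r, dist (Φ s z) (Φ s z') ≤ n * ‖z - z'‖) {s₁ : ℝ} (hs₁ : s₁ ∈ V) {z₁ : ℂ} (hz₁ : z₁ ∈ ball z₀ r)
    (hb : ((s₁ : ℂ), z₁) ∉ Bd) : Smo X Λ u a ν b Φ s₁ z₁ := by
  have hcont : ContinuousAt (fun q : ℝ × ℂ => Φ q.1 q.2) (s₁, z₁) := lip_cont D hΦ hV hl hs₁ hz₁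
  obtain ⟨χ, c, ρ', x, hS, hx, hp⟩ := D.str Φ hΦ s₁ z₁ hb
  obtain ⟨v, η, hη, hloc⟩ := loc_eq D.cone D.tor D.lat (D.lift Φ hΦ) hcont hS hx hp
  -- local smoothness off `Dt`
  have hsm : ∀ s ∈ Set.Ioo (s₁ - η) (s₁ + η), ∀ z ∈ ball z₁ η, ((s : ℂ), z) ∉ Dt → ∃ (δ : ℝ) (w : ℕ → ℝ → ℂ → ℂ), 0 < δ ∧
      JetFam w (Set.Ioo (s - δ) (s + δ)) (ball z δ) ∧ ∀ s' ∈ Set.Ioo (s - δ) (s + δ), ∀ z' ∈ ball z δ, w 0 s' z' = χ.q (nv v (Φ s' z')) 0 := by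
    intro s hs z hz hD
    obtain ⟨χ', c', ρ'', w', r', B⟩ := D.smo Φ hΦ s z hD
    obtain ⟨ε₁, hε₁, h1⟩ := Metric.isOpen_iff.1 (isOpen_Ioo (a := s₁ - η) (b := s₁ + η)) s hs
    obtain ⟨ε₂, hε₂, h2⟩ := Metric.isOpen_iff.1 isOpen_ball z hz
    obtain ⟨δ, hδ⟩ : ∃ δ, δ = min r' (min ε₁ ε₂) := ⟨_, rfl⟩
    have hδ0 : 0 < δ := hδ ▸ lt_min B.pos (lt_min hε₁ hε₂)
    have hδ1 : δ ≤ r' := hδ ▸ min_le_left _ _
    have hδ2 : δ ≤ ε₁ := hδ ▸ (min_le_right _ _).trans (min_le_left _ _)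
    have hδ3 : δ ≤ ε₂ := hδ ▸ (min_le_right _ _).trans (min_le_right _ _)
    have hI1 : Set.Ioo (s - δ) (s + δ) ⊆ Set.Ioo (s - r') (s + r') := fun t ht => ⟨by linarith [ht.1], by linarith [ht.2]⟩
    have hI2 : Set.Ioo (s - δ) (s + δ) ⊆ Set.Ioo (s₁ - η) (s₁ + η) := by
      intro t ht
      refine h1 ?_
      rw [mem_ball, Real.dist_eq, abs_lt]
      exact ⟨by linarith [ht.1], by linarith [ht.2]⟩
    have hB1 : ball z δ ⊆ ball z r' := ball_subset_ball hδ1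
    have hB2 : ball z δ ⊆ ball z₁ η := (ball_subset_ball hδ3).trans h2
    have hjet : JetFam w' (Set.Ioo (s - δ) (s + δ)) (ball z δ) := jet_mono B.jet hI1 hB1
    have hval : ∀ s' ∈ Set.Ioo (s - δ) (s + δ), ∀ z' ∈ ball z δ, χ'.σ (cz b ν a c' ρ'' (w' 0 s' z') s' z') ∈ χ.U ∧
        χ.q (nv v (Φ s' z')) = χ.q (χ'.σ (cz b ν a c' ρ'' (w' 0 s' z') s' z')) := by
      intro s' hs' z' hz'
      obtain ⟨g1, g2, -, -, -⟩ := hloc s' (hI2 hs') z' (hB2 hz')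
      have g3 := B.mem s' (hI1 hs') z' (hB1 hz')
      have g4 := B.eq s' (hI1 hs') z' (hB1 hz')
      obtain ⟨y, hy⟩ : ∃ y, y = χ'.σ (cz b ν a c' ρ'' (w' 0 s' z') s' z') := ⟨_, rfl⟩
      rw [← hy] at g4 ⊢
      have hyX : y ∈ X := hy ▸ (χ'.σ_mem _ g3).1
      have hy0 : y ≠ 0 := fun h => D.cone.zero_notMem (h ▸ hyX)
      have g5 : (inner ℂ v y : ℂ) ≠ 0 := by
        rw [← nd_pr_ne hy0, ← g4]
        exact g1
      have g6 : nv v (Φ s' z') = (inner ℂ v y : ℂ)⁻¹ • y := by rw [g4, nv_pr g5]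
      have g7 : y = (inner ℂ v y : ℂ) • nv v (Φ s' z') := by
        rw [g6, smul_smul, mul_inv_cancel₀ g5, one_smul]
      have g8 : y ∈ χ.U := by
        rw [g7]
        exact χ.smul_U _ g2 _ g5
      refine ⟨g8, ?_⟩
      rw [g6]
      exact χ.q_smul y g8 _ (inv_ne_zero g5)
    -- the analytic function
    obtain ⟨Y, hY⟩ : ∃ Y : ℂ × ℂ × (Unit → ℂ) → Vd (k + 2), ∀ q, Y q = cz b ν a c' ρ'' (q.2.2 ()) q.1 q.2.1 := ⟨_, fun _ => rfl⟩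
    have hYa : ∀ q, AnalyticAt ℂ Y q := by
      intro q
      have g0 : Y = fun q => cz b ν a c' ρ'' (q.2.2 ()) q.1 q.2.1 := funext hY
      rw [g0]
      refine cz_analytic ?_ analyticAt_fst ?_
      · have g1 : AnalyticAt ℂ (fun q : ℂ × ℂ × (Unit → ℂ) => q.2.2) q := AnalyticAt.fun_comp (g := Prod.snd) analyticAt_snd analyticAt_snd
        exact analyticAt_pi_iff.1 g1 ()
      · exact AnalyticAt.fun_comp (g := Prod.fst) analyticAt_fst analyticAt_snd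
    have hQ : AnalyticOnNhd ℂ (fun q : ℂ × ℂ × (Unit → ℂ) => χ.q (χ'.σ (Y q)) 0) {q | Y q ∈ ball (0 : Vd (k + 2)) 2 ∧ χ'.σ (Y q) ∈ χ.U} := by
      rintro q ⟨hq1, hq2⟩
      have g1 : AnalyticAt ℂ (fun q => χ'.σ (Y q)) q := AnalyticAt.fun_comp (g := χ'.σ) (χ'.σ_an _ hq1) (hYa q)
      have g2 : AnalyticAt ℂ (fun q => χ.q (χ'.σ (Y q))) q := AnalyticAt.fun_comp (g := χ.q) (f := fun q => χ'.σ (Y q)) (χ.q_an _ hq2) g1
      exact analyticAt_pi_iff.1 g2 0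
    obtain ⟨w, hw1, hw2⟩ := JetFam.comp (ι := Unit) (f := fun _ => w') isOpen_Ioo isOpen_ball (fun _ => hjet) hQ (fun s' hs' z' hz' => by
      simp only [Set.mem_ofPred_eq, hY]
      exact ⟨B.mem s' (hI1 hs') z' (hB1 hz'), (hval s' hs' z' hz').1⟩)
    refine ⟨δ, w, hδ0, hw1, fun s' hs' z' hz' => ?_⟩
    rw [hw2 s' hs' z' hz', (hval s' hs' z' hz').2, hY]
  -- the circle
  obtain ⟨r₂, hr₂, hcirc⟩ := Metric.eventually_nhds_iff.1 (eventually_nhdsWithin_iff.1 (D.dt_iso s₁ z₁))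
  obtain ⟨r₁, hr₁⟩ : ∃ r₁, r₁ = min r₂ η / 2 := ⟨_, rfl⟩
  have hm : 0 < min r₂ η := lt_min hr₂ hη
  have hr0 : 0 < r₁ := by rw [hr₁]; linarith
  have hr2 : r₁ < r₂ := by
    have := min_le_left r₂ η
    rw [hr₁]; linarith
  have hrη : r₁ < η := by
    have := min_le_right r₂ η
    rw [hr₁]; linarith
  have hev : ∀ᶠ s : ℝ in 𝓝 s₁, ∀ z ∈ sphere z₁ r₁, ((s : ℂ), z) ∉ Dt := by
    refine (isCompact_sphere z₁ r₁).eventually_forall_of_forall_eventually fun z hz => ?_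
    have g1 : ((s₁ : ℂ), z) ∉ Dt := by
      rw [mem_sphere] at hz
      refine hcirc (by rw [hz]; exact hr2) ?_
      rintro rfl
      rw [dist_self] at hz
      exact hr0.ne hz
    have g2 : Continuous fun q : ℝ × ℂ => ((q.1 : ℂ), q.2) := (Complex.continuous_ofReal.comp continuous_fst).prodMk continuous_snd
    exact (g2.continuousAt (x := ((s₁, z) : ℝ × ℂ))).eventually_mem (D.dt_closed.isOpen_compl.mem_nhds g1)
  obtain ⟨δ, hδ, hδs⟩ := Metric.eventually_nhds_iff.1 hev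
  obtain ⟨R, hR⟩ : ∃ R, R = min (min δ η) r₁ := ⟨_, rfl⟩
  have hR0 : 0 < R := hR ▸ lt_min (lt_min hδ hη) hr0
  have hRδ : R ≤ δ := hR ▸ (min_le_left _ _).trans (min_le_left _ _)
  have hRη : R ≤ η := hR ▸ (min_le_left _ _).trans (min_le_right _ _)
  have hRr : R ≤ r₁ := hR ▸ min_le_right _ _
  have hIs : Set.Ioo (s₁ - R) (s₁ + R) ⊆ Set.Ioo (s₁ - η) (s₁ + η) := fun t ht => ⟨by linarith [ht.1], by linarith [ht.2]⟩
  have hBs : closedBall z₁ r₁ ⊆ ball z₁ η := closedBall_subset_ball hrη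
  have hhol : ∀ s ∈ Set.Ioo (s₁ - R) (s₁ + R), DifferentiableOn ℂ (fun z => χ.q (nv v (Φ s z)) 0) (ball z₁ η) := by
    intro s hs
    obtain ⟨F, ⟨hF1, hF2, hF3⟩, hF4⟩ := D.lift Φ hΦ s
    have key : ∀ z ∈ ball z₁ η, F z ∈ χ.U ∧ χ.q (nv v (Φ s z)) = χ.q (F z) := by
      intro z hz
      obtain ⟨g1, g2, -, -, -⟩ := hloc s (hIs hs) z hz
      have hF0 : F z ≠ 0 := fun h => D.cone.zero_notMem (h ▸ hF2 z)
      have g5 : (inner ℂ v (F z) : ℂ) ≠ 0 := by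
        rw [← nd_pr_ne hF0, ← hF4 z]
        exact g1
      have g6 : nv v (Φ s z) = (inner ℂ v (F z) : ℂ)⁻¹ • F z := by rw [hF4 z, nv_pr g5]
      have g7 : F z = (inner ℂ v (F z) : ℂ) • nv v (Φ s z) := by
        rw [g6, smul_smul, mul_inv_cancel₀ g5, one_smul]
      have g8 : F z ∈ χ.U := by
        rw [g7]
        exact χ.smul_U _ g2 _ g5
      refine ⟨g8, ?_⟩
      rw [g6]
      exact χ.q_smul _ g8 _ (inv_ne_zero g5)
    have h1 : DifferentiableOn ℂ (fun z => χ.q (F z) 0) (ball z₁ η) := by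
      intro z hz
      have g1 : DifferentiableAt ℂ (fun z => χ.q (F z)) z :=
        DifferentiableAt.comp (g := χ.q) (f := F) z (χ.q_an _ (key z hz).1).differentiableAt (hF1 z)
      exact (differentiableAt_pi.1 g1 0).differentiableWithinAt
    exact h1.congr fun z hz => by rw [(key z hz).2]
  obtain ⟨w, hw1, hw2⟩ := jet_fill (w := fun s z => χ.q (nv v (Φ s z)) 0) (I := Set.Ioo (s₁ - R) (s₁ + R)) isOpen_Ioo (z₁ := z₁) hr0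
    (fun s hs => ⟨(hhol s hs).mono (ball_subset_closedBall.trans hBs), (hhol s hs).continuousOn.mono hBs⟩)
    (fun s hs z hz => hsm s (hIs hs) z (hBs (sphere_subset_closedBall hz)) (hδs (by
      rw [Real.dist_eq, abs_lt]
      exact ⟨by linarith [hs.1], by linarith [hs.2]⟩) z hz))
  refine ⟨χ, c, ρ', w, R, hR0, hS, jet_mono hw1 subset_rfl (ball_subset_ball hRr), fun s hs z hz => ?_, fun s hs z hz => ?_⟩
  · rw [hw2 s hs z (ball_subset_ball hRr hz)]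
    exact (hloc s (hIs hs) z (ball_subset_ball hRη hz)).2.2.2.1
  · rw [hw2 s hs z (ball_subset_ball hRr hz)]
    exact (hloc s (hIs hs) z (ball_subset_ball hRη hz)).2.2.2.2

end Pool.Agent.G3.C

end

section

/-!
# G4 A P1: limits of curves over lines

Lifts `F n` of `f n` on `ball z₀ 2`, `‖F n‖ ≤ 1` (`NL`).  Ultrafilter limits `F` (`A/Ul.ul_diff`), holomorphic, `‖F z‖ ≥ c` at the points `z` with `‖z - z₀‖ < 1`, `y₀ + z a ∈ interior` of `Gd D δ`,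
so `F` is not identically `0` (`LG.iso`), `F z ∈ X` and `u (F z) - (y₀ + z a) ∈ Λ` where `F z ≠ 0` (`TG.lim_mem`).  Divide by the power of `z - z₁` at a zero: a curve with values `≠ 0`, in `X`
(`X ∪ {0}` closed), over the right line (closedness of `X`, `TG.lim_mem` again or `G3/C/XU.xu_local`).  So there is `g` with local lifts everywhere (`g z` is determined off `D` as the limit of
`f n (w n)`, and at the other points by the local lifts, which agree up to scalars); an entire lift: as in `TG/Lf` (`disc_lift`) or from `G3/P/Ext`, `G3/P/Ent` (glue of local lifts on `ℂ`).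
-/

set_option autoImplicit false

open Topology Filter Metric

namespace Pool.Agent.G4.A

open Pool.Agent.H36.BP (EN fs wd)
open Pool.Agent.H14.PP (IsCone CurveAt Tan)
open Pool.Agent.H62.EF (MN pr pr_smul continuousAt_pr)
open Pool.Agent.AD (Vd Chart Charts IsGerm)
open Pool.Agent.TG
open Pool.Agent.G3
open Pool.Agent.G3.A
open Pool.Agent.G3.C (Gc)

variable {N k : ℕ} {X : Set (EN N)} {Λ : AddSubgroup (Vd (k + 1))} {u : EN N → Vd (k + 1)} {D B Bad : Set (Vd (k + 1))} {a : Vd (k + 1)}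

/-- the limit of the normalised lifts -/
private theorem p1_a (G : Geo X Λ u D B) (hN : NL X Λ u D a) {ι : Type*} {𝒰 : Ultrafilter ι} {y : ι → Vd (k + 1)} {y₀ : Vd (k + 1)}
    (hy : Tendsto y 𝒰 (𝓝 y₀)) {f : ι → ℂ → MN N} (hf : ∀ᶠ n in (𝒰 : Filter ι), f n ∈ Hc X Λ u a (y n)) (z₀ z₁ : ℂ) (hz₁ : z₁ ∈ closedBall z₀ 1)
    (hD : y₀ + z₁ • a ∉ D) :
    ∃ K : ℂ → EN N, DifferentiableOn ℂ K (ball z₀ 2) ∧ K z₁ ≠ 0 ∧ ∀ z ∈ ball z₀ 2, K z ≠ 0 → K z ∈ X ∧ u (K z) - (y₀ + z • a) ∈ Λ ∧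
      ∀ w : ι → ℂ, Tendsto w 𝒰 (𝓝 z) → Tendsto (fun n => f n (w n)) 𝒰 (𝓝 (pr (K z))) := by
  classical
  have hX := G.cone
  obtain ⟨δ, hδ, hgd⟩ := G.exists_gd hD
  obtain ⟨c, hc, hNc⟩ := hN (δ / 2) (by positivity)
  have hex : ∀ n, ∃ F : ℂ → EN N, f n ∈ Hc X Λ u a (y n) → DifferentiableOn ℂ F (ball z₀ 2) ∧
      (∀ z ∈ ball z₀ 2, F z ∈ X ∧ f n z = pr (F z) ∧ ‖F z‖ ≤ 1) ∧ ∀ z ∈ closedBall z₀ 1, y n + z • a ∈ Gd D (δ / 2) → c ≤ ‖F z‖ := by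
    intro n
    by_cases h : f n ∈ Hc X Λ u a (y n)
    · obtain ⟨F, hF⟩ := hNc _ _ h z₀
      exact ⟨F, fun _ => hF⟩
    · exact ⟨0, fun h' => absurd h' h⟩
  choose F hF using hex
  obtain ⟨K, hKd, -, hK⟩ := ul_diff (𝒰 := 𝒰) (g := F) (z₀ := z₀) (r := 2) (C := 1) (by
    filter_upwards [hf] with n hn
    exact ⟨(hF n hn).1, fun z hz => ((hF n hn).2.1 z hz).2.2⟩)
  have hz₁b : z₁ ∈ ball z₀ 2 := closedBall_subset_ball (by norm_num) hz₁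
  refine ⟨K, hKd, ?_, ?_⟩
  · have h1 := (hK z₁ hz₁b (fun _ => z₁) tendsto_const_nhds).norm
    have h2 : c ≤ ‖K z₁‖ := by
      refine ge_of_tendsto h1 ?_
      have h3 : ∀ᶠ n in (𝒰 : Filter ι), y n ∈ closedBall y₀ (δ / 2) := hy.eventually (closedBall_mem_nhds y₀ (by positivity))
      filter_upwards [hf, h3] with n hn hn'
      refine (hF n hn).2.2 z₁ hz₁ ?_
      have h4 : ‖y n + z₁ • a - (y₀ + z₁ • a)‖ ≤ δ / 2 := by
        rw [add_sub_add_right_eq_sub, ← dist_eq_norm]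
        exact hn'
      have h5 := gd_near hgd h4
      have h6 : δ - δ / 2 = δ / 2 := by ring
      rwa [h6] at h5
    exact norm_pos_iff.1 (lt_of_lt_of_le hc h2)
  · intro z hz hKz
    have hin : ∀ w : ι → ℂ, Tendsto w 𝒰 (𝓝 z) → ∀ᶠ n in (𝒰 : Filter ι), w n ∈ ball z₀ 2 := fun w hw =>
      hw.eventually (isOpen_ball.mem_nhds hz)
    have h0 := hK z hz (fun _ => z) tendsto_const_nhds
    have hXu : ∀ᶠ n in (𝒰 : Filter ι), F n z ∈ X ∧ u (F n z) - (y n + z • a) ∈ Λ := by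
      filter_upwards [hf] with n hn
      have h1 := (hF n hn).2.1 z hz
      exact ⟨h1.1, fb_lift hX G.tor (hc_mem hn z) h1.1 h1.2.1.symm⟩
    have hKX : K z ∈ X := by
      have h1 : K z ∈ insert (0 : EN N) X := by
        refine hX.closed.mem_of_tendsto h0 ?_
        filter_upwards [hXu] with n hn
        exact Set.mem_insert_of_mem _ hn.1
      exact h1.resolve_left hKz
    refine ⟨hKX, lim_mem G.lat G.tor hKX h0 (hy.add tendsto_const_nhds) hXu, fun w hw => ?_⟩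
    have h1 : Tendsto (fun n => pr (F n (w n))) 𝒰 (𝓝 (pr (K z))) := (continuousAt_pr hKz).tendsto.comp (hK z hz w hw)
    refine h1.congr' ?_
    filter_upwards [hf, hin w hw] with n hn hn'
    exact (((hF n hn).2.1 _ hn').2.1).symm

/-- the local lifts of the limit -/
private theorem p1_b (G : Geo X Λ u D B) (hL : LG Λ D Bad a) (hN : NL X Λ u D a) {ι : Type*} {𝒰 : Ultrafilter ι} {y : ι → Vd (k + 1)} {y₀ : Vd (k + 1)}
    (hy : Tendsto y 𝒰 (𝓝 y₀)) {f : ι → ℂ → MN N} (hf : ∀ᶠ n in (𝒰 : Filter ι), f n ∈ Hc X Λ u a (y n)) (z₀ : ℂ) :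
    ∃ Φ : ℂ → EN N, AnalyticAt ℂ Φ z₀ ∧ Φ z₀ ∈ X ∧ u (Φ z₀) - (y₀ + z₀ • a) ∈ Λ ∧ ∀ᶠ v in 𝓝[≠] z₀, Tendsto (fun n => f n v) 𝒰 (𝓝 (pr (Φ v))) := by
  have hX := G.cone
  obtain ⟨z₁, hz₁, hD⟩ : ∃ z₁ ∈ closedBall z₀ 1, y₀ + z₁ • a ∉ D := by
    have h1 := hL.iso (y₀ + z₀ • a)
    have h2 : ∀ᶠ z : ℂ in 𝓝[≠] (0 : ℂ), z ∈ closedBall (0 : ℂ) 1 := nhdsWithin_le_nhds (closedBall_mem_nhds 0 one_pos)
    obtain ⟨z, h3, h4⟩ := (h1.and h2).exists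
    refine ⟨z₀ + z, ?_, ?_⟩
    · rw [mem_closedBall, dist_eq_norm, add_sub_cancel_left]
      rwa [mem_closedBall_zero_iff] at h4
    · rwa [add_smul, ← add_assoc]
  obtain ⟨K, hKd, hK1, hK⟩ := p1_a G hN hy hf z₀ z₁ hz₁ hD
  have hb : z₀ ∈ ball z₀ (2 : ℝ) := mem_ball_self two_pos
  have hKa : AnalyticOnNhd ℂ K (ball z₀ 2) := hKd.analyticOnNhd isOpen_ball
  have hne : ¬ ∀ᶠ z in 𝓝 z₀, K z = 0 := fun h =>
    hK1 (hKa.eqOn_zero_of_preconnected_of_eventuallyEq_zero (convex_ball z₀ 2).isPreconnected hb h (closedBall_subset_ball (by norm_num) hz₁))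
  obtain ⟨m, Φ, hΦ, hΦ0, hKΦ⟩ := (hKa z₀ hb).exists_eventuallyEq_pow_smul_nonzero_iff.2 hne
  have hev : ∀ᶠ v in 𝓝[≠] z₀, Φ v ≠ 0 ∧ K v ≠ 0 ∧ v ∈ ball z₀ 2 ∧ pr (Φ v) = pr (K v) := by
    have h1 : ∀ᶠ v in 𝓝[≠] z₀, Φ v ≠ 0 := (hΦ.continuousAt.eventually_ne hΦ0).filter_mono nhdsWithin_le_nhds
    have h2 : ∀ᶠ v in 𝓝[≠] z₀, v ∈ ball z₀ (2 : ℝ) := nhdsWithin_le_nhds (isOpen_ball.mem_nhds hb)
    filter_upwards [h1, h2, hKΦ.filter_mono nhdsWithin_le_nhds, self_mem_nhdsWithin] with v h3 h4 h5 h6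
    have h7 : (v - z₀) ^ m ≠ 0 := pow_ne_zero _ (sub_ne_zero.2 h6)
    refine ⟨h3, ?_, h4, ?_⟩
    · rw [h5]
      exact smul_ne_zero h7 h3
    · rw [h5, pr_smul _ h7]
  have hev2 : ∀ᶠ v in 𝓝[≠] z₀, (Φ v ∈ X ∧ u (Φ v) - (y₀ + v • a) ∈ Λ) ∧ Tendsto (fun n => f n v) 𝒰 (𝓝 (pr (Φ v))) := by
    filter_upwards [hev] with v hv
    obtain ⟨h1, h2, h3, h4⟩ := hv
    obtain ⟨h5, h6, h7⟩ := hK v h3 h2
    refine ⟨mem_of_pr hX G.tor h5 h6 h1 h4, ?_⟩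
    rw [h4]
    exact h7 (fun _ => v) tendsto_const_nhds
  have hcl := close_lift (υ := fun v : ℂ => y₀ + v • a) hX G.tor G.lat hΦ.continuousAt hΦ0 (by fun_prop)
    ((hev2.mono fun v hv => hv.1).frequently.filter_mono nhdsWithin_le_nhds)
  exact ⟨Φ, hΦ, hcl.1, hcl.2, hev2.mono fun v hv => hv.2⟩

private theorem p1_eq {Φ Ψ : ℂ → EN N} {w : ℂ} (hΦ : AnalyticAt ℂ Φ w) (hΨ : AnalyticAt ℂ Ψ w) (hΦ0 : Φ w ≠ 0) (hΨ0 : Ψ w ≠ 0)
    (h : ∀ᶠ v in 𝓝[≠] w, pr (Φ v) = pr (Ψ v)) : pr (Φ w) = pr (Ψ w) := by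
  have t1 : Tendsto (fun v => pr (Φ v)) (𝓝[≠] w) (𝓝 (pr (Φ w))) :=
    ((continuousAt_pr hΦ0).tendsto.comp hΦ.continuousAt.tendsto).mono_left nhdsWithin_le_nhds
  have t2 : Tendsto (fun v => pr (Ψ v)) (𝓝[≠] w) (𝓝 (pr (Ψ w))) :=
    ((continuousAt_pr hΨ0).tendsto.comp hΨ.continuousAt.tendsto).mono_left nhdsWithin_le_nhds
  exact tendsto_nhds_unique (t1.congr' h) t2

theorem hc_closed (G : Geo X Λ u D B) (hL : LG Λ D Bad a) (hN : NL X Λ u D a) {ι : Type*} {𝒰 : Ultrafilter ι} {y : ι → Vd (k + 1)} {y₀ : Vd (k + 1)}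
    (hy : Tendsto y 𝒰 (𝓝 y₀)) {f : ι → ℂ → MN N} (hf : ∀ᶠ n in (𝒰 : Filter ι), f n ∈ Hc X Λ u a (y n)) : ∃ g ∈ Hc X Λ u a y₀, Lm D a 𝒰 y₀ f g := by
  have hX := G.cone
  choose Φ hΦ hΦX hΦu hΦl using fun z₀ => p1_b G hL hN hy hf z₀
  have hΦ0 : ∀ z, Φ z z ≠ 0 := fun z => ne_zero hX (hΦX z)
  obtain ⟨g, hg⟩ : ∃ g : ℂ → MN N, ∀ z, g z = pr (Φ z z) := ⟨_, fun _ => rfl⟩
  have hloc : ∀ z, LLift g z := by
    intro z₀
    refine ⟨Φ z₀, hΦ z₀, ?_⟩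
    have h1 : ∀ᶠ w in 𝓝[≠] z₀, g w = pr (Φ z₀ w) := by
      have h2 := eventually_nhdsNE_eventually_nhds_iff.2 (hΦl z₀)
      have h3 : ∀ᶠ w in 𝓝[≠] z₀, AnalyticAt ℂ (Φ z₀) w ∧ Φ z₀ w ≠ 0 :=
        ((hΦ z₀).eventually_analyticAt.and ((hΦ z₀).continuousAt.eventually_ne (hΦ0 z₀))).filter_mono nhdsWithin_le_nhds
      filter_upwards [h2, h3] with w hw hw'
      rw [hg]
      refine p1_eq (hΦ w) hw'.1 (hΦ0 w) hw'.2 ?_
      filter_upwards [hΦl w, hw.filter_mono nhdsWithin_le_nhds] with v h4 h5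
      exact tendsto_nhds_unique h4 h5
    have h2 : ∀ᶠ w in 𝓝 z₀, w ≠ z₀ → g w = pr (Φ z₀ w) := eventually_nhdsWithin_iff.1 h1
    filter_upwards [h2, (hΦ z₀).continuousAt.eventually_ne (hΦ0 z₀)] with w h3 h4
    refine ⟨h4, ?_⟩
    rcases eq_or_ne w z₀ with rfl | h5
    · exact hg w
    · exact h3 h5
  obtain ⟨F, hF, hFg⟩ := entire_lift hloc
  have hFX : ∀ z, F z ∈ X ∧ u (F z) - (y₀ + z • a) ∈ Λ := fun z =>
    mem_of_pr hX G.tor (hΦX z) (hΦu z) (hFg z).1 ((hFg z).2.symm.trans (hg z))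
  refine ⟨g, ⟨F, ⟨hF, fun z => (hFX z).1, fun z => (hFX z).2⟩, funext fun z => (hFg z).2⟩, ?_⟩
  intro z hzD w hw
  obtain ⟨K, hKd, hK1, hK⟩ := p1_a G hN hy hf z z (mem_closedBall_self zero_le_one) hzD
  have hb : z ∈ ball z (2 : ℝ) := mem_ball_self two_pos
  have hKa : AnalyticAt ℂ K z := hKd.analyticAt (isOpen_ball.mem_nhds hb)
  have h1 : pr (K z) = g z := by
    rw [hg]
    refine p1_eq hKa (hΦ z) hK1 (hΦ0 z) ?_
    have h2 : ∀ᶠ v in 𝓝[≠] z, v ∈ ball z (2 : ℝ) ∧ K v ≠ 0 :=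
      (Filter.Eventually.and (isOpen_ball.mem_nhds hb) (hKa.continuousAt.eventually_ne hK1)).filter_mono nhdsWithin_le_nhds
    filter_upwards [h2, hΦl z] with v h3 h4
    exact tendsto_nhds_unique ((hK v h3.1 h3.2).2.2 (fun _ => v) tendsto_const_nhds) h4
  rw [← h1]
  exact (hK z hb hK1).2.2 w hw

end Pool.Agent.G4.A

end
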