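import Pool.Agent.H94.G4T.M105
import Pool.Agent.H94.G4T.M112
import Pool.Agent.H94.G4T.M129
import Pool.Agent.H94.G4T.M32
import Pool.Agent.H94.G4T.M62
import Pool.Agent.H94.G4T.M82
import Pool.Agent.H94.G4T.M89

/-! The parts of this file: TG.GuD, TG.FDefs_1, G4.A.Gr, G4.E.PlH, TG.CLp. -/

section

/-!
# TG GuD: the discriminant is closed and thin, almost no line meets a small set

`IsAnalyticSubset.isClosed`, `IsAnalyticSubset.thin`: an analytic subset of `ℂ^n` is closed, and near every point it is contained in the zero set of a holomorphic function which is not locally `0`, unless it is all of `ℂ^n`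
(the set of the interior points is open and closed).  `IsSmall.lines`: the projection of `B` along `e` has Hausdorff dimension `≤ 2 n - 4 < 2 (n - 1)`, so it is a null set, and so is its preimage.
-/

set_option autoImplicit false

open Topology Filter Metric MeasureTheory

namespace Pool.Agent.TGF

theorem IsAnalyticSubset.isClosed {n : ℕ} {Z : Set (Cn n)} (hZ : IsAnalyticSubset Z) : IsClosed Z := by
  rw [← isOpen_compl_iff, isOpen_iff_mem_nhds]
  intro y hy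
  obtain ⟨m, h, hh, hev⟩ := hZ y
  have h0 : h y ≠ 0 := fun h0 => hy (hev.self_of_nhds.2 h0)
  filter_upwards [hev, hh.continuousAt.eventually_ne h0] with z h1 h2 h3
  exact h2 (h1.1 h3)

theorem IsAnalyticSubset.interior_empty {n : ℕ} {Z : Set (Cn n)} (hZ : IsAnalyticSubset Z) (hne : Z ≠ Set.univ) : interior Z = ∅ := by
  have hcl : IsClosed (interior Z) := by
    rw [← isOpen_compl_iff, isOpen_iff_mem_nhds]
    intro y hy
    by_contra hcon
    apply hy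
    obtain ⟨m, h, hh, hev⟩ := hZ y
    obtain ⟨r, hr, hball⟩ := Metric.eventually_nhds_iff_ball.1 (hev.and hh.eventually_analyticAt)
    -- there is a point of the interior in the ball
    have h1 : ∃ w ∈ ball y r, w ∈ interior Z := by
      by_contra h2
      push Not at h2
      exact hcon (mem_of_superset (ball_mem_nhds y hr) fun w hw => h2 w hw)
    obtain ⟨w, hw, hwZ⟩ := h1
    have h2 : Set.EqOn h 0 (ball y r) := by
      have h3 : AnalyticOnNhd ℂ h (ball y r) := fun z hz => (hball z hz).2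
      refine h3.eqOn_of_preconnected_of_eventuallyEq (analyticOnNhd_const (v := (0 : Cn m))) (convex_ball y r).isPreconnected hw ?_
      filter_upwards [isOpen_interior.mem_nhds hwZ, isOpen_ball.mem_nhds hw] with z h4 h5
      exact ((hball z h5).1).1 (interior_subset h4)
    rw [mem_interior_iff_mem_nhds]
    filter_upwards [ball_mem_nhds y hr] with z hz
    exact ((hball z hz).1).2 (h2 hz)
  rcases isClopen_iff.1 ⟨hcl, isOpen_interior⟩ with h | h
  · exact h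
  · exact absurd (Set.univ_subset_iff.1 (h ▸ interior_subset)) hne

theorem IsAnalyticSubset.thin {n : ℕ} {Z : Set (Cn n)} (hZ : IsAnalyticSubset Z) (hne : Z ≠ Set.univ) (y : Cn n) :
    ∃ h : Cn n → ℂ, AnalyticAt ℂ h y ∧ (∀ᶠ z in 𝓝 y, z ∈ Z → h z = 0) ∧ ¬ ∀ᶠ z in 𝓝 y, h z = 0 := by
  obtain ⟨m, h, hh, hev⟩ := hZ y
  by_contra hcon
  push Not at hcon
  have h1 : ∀ i : Fin m, ∀ᶠ z in 𝓝 y, h z i = 0 := by
    intro i
    refine hcon (fun z => h z i) ((analyticAt_pi_iff.1 hh) i) ?_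
    filter_upwards [hev] with z hz hzZ
    exact congrFun (hz.1 hzZ) i
  have h2 : ∀ᶠ z in 𝓝 y, z ∈ Z := by
    filter_upwards [hev, eventually_all.2 h1] with z hz hz2
    exact hz.2 (funext hz2)
  have h3 : y ∈ interior Z := mem_interior_iff_mem_nhds.2 h2
  rw [hZ.interior_empty hne] at h3
  exact h3

/-- the projection along `e` -/
private noncomputable def pj {k : ℕ} (e : Cn (k + 1)) (i : Fin (k + 1)) : Cn (k + 1) →ₗ[ℂ] Cn k :=
  LinearMap.pi fun j => LinearMap.proj (i.succAbove j) - (e (i.succAbove j) / e i) • LinearMap.proj i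

private theorem pj_apply {k : ℕ} (e : Cn (k + 1)) (i : Fin (k + 1)) (y : Cn (k + 1)) (j : Fin k) :
    pj e i y j = y (i.succAbove j) - e (i.succAbove j) / e i * y i := rfl

private theorem pj_add {k : ℕ} {e : Cn (k + 1)} {i : Fin (k + 1)} (he : e i ≠ 0) (y : Cn (k + 1)) (z : ℂ) : pj e i (y + z • e) = pj e i y := by
  funext j
  rw [pj_apply, pj_apply]
  simp only [Pi.add_apply, Pi.smul_apply, smul_eq_mul]
  field_simp
  ring

private theorem pj_surj {k : ℕ} (e : Cn (k + 1)) (i : Fin (k + 1)) : Function.Surjective (pj e i) := by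
  intro f
  refine ⟨i.insertNth 0 f, ?_⟩
  funext j
  rw [pj_apply, Fin.insertNth_apply_succAbove, Fin.insertNth_apply_same, mul_zero, sub_zero]

theorem IsSmall.lines {k : ℕ} {B : Set (Cn (k + 1))} (hB : IsSmall B) {e : Cn (k + 1)} (he : e ≠ 0) : ∀ᵐ y : Cn (k + 1), ∀ z : ℂ, y + z • e ∉ B := by
  rcases hB with rfl | hB
  · exact Eventually.of_forall fun y z => Set.notMem_empty _
  obtain ⟨i, hi⟩ : ∃ i, e i ≠ 0 := Function.ne_iff.1 he
  have hfr : Module.finrank ℝ (Cn k) = 2 * k := by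
    rw [Module.finrank_pi_fintype]
    simp [Complex.finrank_real_complex, mul_comm]
  have hd : dimH (pj e i '' B) < ((2 * k : ℕ) : NNReal) := by
    have h1 : dimH (pj e i '' B) ≤ dimH B := (pj e i).toContinuousLinearMap.lipschitz.dimH_image_le B
    refine h1.trans_lt ?_
    have hne : dimH B ≠ ⊤ :=
      ((le_self_add.trans hB).trans_lt (ENNReal.mul_lt_top (by simp) (ENNReal.natCast_lt_top _))).ne
    have h2 : dimH B + 2 ≤ ((2 * k : ℕ) : NNReal) := by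
      have h3 : dimH B + 2 + 2 ≤ (((2 * k : ℕ) : NNReal) : ENNReal) + 2 := by
        refine le_trans (le_of_eq ?_) (hB.trans (le_of_eq ?_))
        · rw [add_assoc]; norm_num
        · push_cast; ring
      exact (ENNReal.add_le_add_iff_right (by simp)).1 h3
    exact (ENNReal.lt_add_right hne (by simp)).trans_le h2
  have hnull : (volume : Measure (Cn k)) (pj e i '' B) = 0 := by
    have h1 : (volume : Measure (Cn k)) ≪ Measure.hausdorffMeasure (Module.finrank ℝ (Cn k)) := Measure.absolutelyContinuous_isAddHaarMeasure _ _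
    rw [hfr] at h1
    exact measure_zero_of_dimH_lt (d := ((2 * k : ℕ) : NNReal)) (by exact_mod_cast h1) hd
  obtain ⟨T, hT, hTm, hT0⟩ := exists_measurable_superset_of_null hnull
  have h2 := (ae_comp_linearMap_mem_iff (pj e i) (volume : Measure (Cn (k + 1))) (volume : Measure (Cn k)) (pj_surj e i) hTm.compl).2
    (by rw [← compl_mem_ae_iff] at hT0; exact hT0)
  filter_upwards [h2] with y hy z hz
  apply hy
  rw [← pj_add hi y z]
  exact hT ⟨_, hz, rfl⟩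

end Pool.Agent.TGF

end

section

/-!
# TG FDefs: projective manifolds over complex tori, with arbitrary singular fibres, and maps from semi-abelian varieties

`X` is a smooth projective variety of dimension `n + 1`, `n = k + 1`, `u` a holomorphic map from `X` to a complex torus `ℂ^n / Λ`.  `D ⊆ ℂ^n` is a `Λ`-invariant analytic
subset outside which `u` is a submersion, and whose fibres outside `D` contain no entire curves with bounded derivative; outside the small set `B` the set `D` is smooth and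
the map `u` is `(x^a y^b, s)` in suitable local coordinates.
-/

set_option autoImplicit false

open Topology Filter MvPolynomial
open Pool.Agent.H17 (PN VanishesAt)
open Pool.Agent.H62.FC (Homog)
open Pool.Agent.H17LG.Variety (FunField)
open Pool.Agent.H17EF (projVar)
open Pool.Agent.H17G (IsTangent)
open Pool.Agent.H14.V (brodyCurves)
open Pool.Agent.TG (SabMap imageOf SabCases SimpleTorus merSections SameProjMap sabSpecialSet)

noncomputable section

namespace Pool.Agent.TGF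

variable {N k g : ℕ}

/-- The conclusion, for the variety `X` of dimension `k + 2` given by `P`: the meromorphic maps from `ℂ^(k+1)` to `X` over the torus are finitely many, periodic, and
algebraic, and the maps from semi-abelian varieties to `X` come from these maps, from fibres over `D`, or from proper subtori. -/
structure TorusFibration (P : Ideal (MvPolynomial (Fin (N + 1)) ℂ)) [P.IsPrime] (Λ : AddSubgroup (Cn (k + 1))) (u : PN N → Cn (k + 1) ⧸ Λ)
    (D : Set (Cn (k + 1))) (Q : MvPolynomial (Fin (N + 1)) ℂ) : Prop where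
  /-- there are finitely many meromorphic maps `ℂ^(k+1) → X` over the torus -/
  finite : ∃ s : Set (Cn (k + 1) → Cn (N + 1)), s.Finite ∧ s ⊆ merSections (projVar P) Λ u ∧
    ∀ Φ ∈ merSections (projVar P) Λ u, ∃ Ψ ∈ s, SameProjMap Φ Ψ
  /-- they are invariant under `M Λ` -/
  periodic : ∃ M : ℕ, 1 ≤ M ∧ ∀ Φ ∈ merSections (projVar P) Λ u, ∀ l ∈ Λ, SameProjMap Φ fun y => Φ (y + M • l)
  /-- the form `Q` is not `0` on `X` -/
  form : (∃ e, Q.IsHomogeneous e) ∧ Q ∉ P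
  /-- it is `0` on the fibres over `D` -/
  singular : ∀ x ∈ projVar P, (∃ y ∈ D, u x = (y : Cn (k + 1) ⧸ Λ)) → VanishesAt Q x
  /-- it is `0` on the images of the meromorphic maps over the torus -/
  sections : ∀ Φ ∈ merSections (projVar P) Λ u, ∀ y, eval (Φ y) Q = 0
  /-- the maps from semi-abelian varieties -/
  maps : ∀ S : SabMap N, imageOf S.F ⊆ projVar P → SabCases (projVar P) Λ u D S
  /-- if the torus is simple, the special set is contained in the hypersurface `Q = 0` -/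
  special : SimpleTorus Λ → ∀ x ∈ sabSpecialSet (projVar P), VanishesAt Q x
  /-- if the torus is simple, the special set of every variety `Y` of the same dimension with a dominant rational map to `X` is a proper subset of `Y`, and so is the
  special set of every closed subvariety of `Y` which is not contained in a certain proper closed subset `{T = 0}` of `Y` -/
  models : SimpleTorus Λ → ∀ (M : ℕ) (P' : Ideal (MvPolynomial (Fin (M + 1)) ℂ)) [P'.IsPrime], Homog P' →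
    (∃ z : Fin (k + 2) → FunField P', IsTranscendenceBasis ℂ z) → Nonempty (FunField P →ₐ[ℂ] FunField P') →
    sabSpecialSet (projVar P') ≠ projVar P' ∧ ∃ T : MvPolynomial (Fin (M + 1)) ℂ, (∃ e, T.IsHomogeneous e) ∧ T ∉ P' ∧
      ∀ (R : Ideal (MvPolynomial (Fin (M + 1)) ℂ)) [R.IsPrime], Homog R → P' ≤ R → T ∉ R → sabSpecialSet (projVar R) ≠ projVar R

end Pool.Agent.TGF

end
end

section

/-!
# G4 A Gr: the field `gr` of `TDat`: the growth of the curves on discs of radius `R₀`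

Any `R₀ > 0`; rescale (`z ↦ R₀ z`) to the radius `1`.  Otherwise there are `y n` (in a bounded set, by `hc_per`), entire lifts `F n` and (recentre, `hc_add`) `t n = circleAverage (log ‖F n‖) 0 1 - log ‖F n 0‖ → 0` (it is `≥ 0`).  `G n = exp (-φ n) • F n`
on `ball 0 1` with `Re φ n` = the Poisson integral of `log ‖F n‖` (`H56/G3/Poi`: `herglotz`, `poisson_jensen`): `‖G n‖ ≤ 1`, `‖G n 0‖ = exp (- t n) → 1`.  Limit `G` (`ul_diff`): `‖G‖ ≤ 1`, `‖G 0‖ = 1`, so `G` is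
constant (maximum principle, strictly convex norm).  The limit curve `g` (`hc_closed`) is `pr G` off `D`, constant near `0`, but `u` of it is `y₀ + z a` modulo the discrete `Λ`, `a ≠ 0`: contradiction
(`Fb` over different points are disjoint modulo `Λ`: `hc_mem`, `fb_lift`).
-/

set_option autoImplicit false

open Topology Filter Metric

namespace Pool.Agent.G4.A

open Pool.Agent.H36.BP (EN fs wd)
open Pool.Agent.H14.PP (IsCone CurveAt Tan)
open Pool.Agent.H62.EF (MN pr pr_smul continuousAt_pr)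
open Pool.Agent.AD (Vd Chart Charts IsGerm)
open Pool.Agent.TG
open Pool.Agent.G3
open Pool.Agent.G3.A
open Pool.Agent.G3.C (Gc)

variable {N k : ℕ} {X : Set (EN N)} {Λ : AddSubgroup (Vd (k + 1))} {u : EN N → Vd (k + 1)} {D B Bad : Set (Vd (k + 1))} {a : Vd (k + 1)}

/-- a multiple of the curve with norm almost `1` -/
private theorem gr_a {F : ℂ → EN N} (hF : Differentiable ℂ F) (h0 : ∀ z, F z ≠ 0) {ε : ℝ} (hε : 0 < ε)
    (h : Real.circleAverage (fun w => Real.log ‖F w‖) 0 1 < Real.log ‖F 0‖ + ε) :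
    ∃ K : ℂ → EN N, Differentiable ℂ K ∧ (∀ z, ∃ c : ℂ, c ≠ 0 ∧ K z = c • F z) ∧ (∀ z ∈ ball (0 : ℂ) 1, ‖K z‖ ≤ Real.exp ε) ∧
      Real.exp (-(2 * ε)) ≤ ‖K 0‖ := by
  have hcont : ContinuousOn (fun z => Real.log ‖F z‖) (sphere (0 : ℂ) 1) :=
    ContinuousOn.log hF.continuous.continuousOn.norm fun z _ => norm_ne_zero_iff.2 (h0 z)
  obtain ⟨ψ, hψ, hψu⟩ := Pool.Agent.H56.G3.approx_re one_pos hcont hε
  refine ⟨fun z => Complex.exp (-ψ z) • F z, ?_, fun z => ⟨_, Complex.exp_ne_zero _, rfl⟩, ?_, ?_⟩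
  · have h1 : Differentiable ℂ fun z => Complex.exp (-ψ z) := by fun_prop
    exact h1.smul hF
  · intro w hw
    have hd : DiffContOnCl ℂ (fun z => Complex.exp (-ψ z) • F z) (ball 0 1) := by
      have h1 : Differentiable ℂ fun z => Complex.exp (-ψ z) := by fun_prop
      exact (h1.smul hF).diffContOnCl
    refine Complex.norm_le_of_forall_mem_frontier_norm_le isBounded_ball hd ?_ (subset_closure hw)
    intro z hz
    rw [frontier_ball _ one_ne_zero] at hz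
    have h1 := abs_le.1 (hψu z hz)
    have h2 : 0 < ‖F z‖ := norm_pos_iff.2 (h0 z)
    rw [norm_smul, Complex.norm_exp, Complex.neg_re]
    calc Real.exp (-(ψ z).re) * ‖F z‖ = Real.exp (-(ψ z).re) * Real.exp (Real.log ‖F z‖) := by rw [Real.exp_log h2]
      _ = Real.exp (-(ψ z).re + Real.log ‖F z‖) := by rw [← Real.exp_add]
      _ ≤ Real.exp ε := Real.exp_le_exp.2 (by linarith [h1.1])
  · have h1 : (ψ 0).re ≤ Real.circleAverage (fun w => Real.log ‖F w‖) 0 1 + ε := by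
      have h2 : Real.circleAverage ψ 0 1 = ψ 0 := by
        have h3 : DiffContOnCl ℂ ψ (ball 0 |1|) := hψ.diffContOnCl
        exact h3.circleAverage
      have h4 : CircleIntegrable ψ 0 1 := hψ.continuous.continuousOn.circleIntegrable'
      have h5 := Complex.reCLM.circleAverage_comp_comm h4
      rw [h2] at h5
      simp only [Complex.reCLM_apply] at h5
      rw [← h5]
      have h6 : CircleIntegrable (fun w => Real.log ‖F w‖) 0 1 := by
        refine ContinuousOn.circleIntegrable' ?_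
        rwa [abs_one]
      have h7 : Real.circleAverage (fun w => Real.log ‖F w‖ + ε) 0 1 = Real.circleAverage (fun w => Real.log ‖F w‖) 0 1 + ε := by
        rw [Real.circleAverage_fun_add h6 (circleIntegrable_const _ _ _), Real.circleAverage_const]
      rw [← h7]
      refine Real.circleAverage_mono ?_ ?_ ?_
      · exact (Complex.continuous_re.comp hψ.continuous).continuousOn.circleIntegrable'
      · exact h6.add (circleIntegrable_const _ _ _)
      · intro z hz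
        rw [abs_one] at hz
        have h8 := abs_le.1 (hψu z hz)
        show (ψ z).re ≤ _
        linarith [h8.2]
    have h2 : 0 < ‖F 0‖ := norm_pos_iff.2 (h0 0)
    rw [norm_smul, Complex.norm_exp, Complex.neg_re]
    calc Real.exp (-(2 * ε)) ≤ Real.exp (-(ψ 0).re + Real.log ‖F 0‖) := Real.exp_le_exp.2 (by linarith)
      _ = Real.exp (-(ψ 0).re) * ‖F 0‖ := by rw [Real.exp_add, Real.exp_log h2]

theorem gr (G : Geo X Λ u D B) (hL : LG Λ D Bad a) (hN : NL X Λ u D a) {R₀ : ℝ} (hR₀ : 0 < R₀) : ∃ c : ℝ, 0 < c ∧ ∀ y : Vd (k + 1), ∀ F ∈ Gc X Λ u a y, ∀ z : ℂ,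
    Real.log ‖F z‖ + c ≤ Real.circleAverage (fun w => Real.log ‖F w‖) z R₀ := by
  classical
  have hX := G.cone
  by_contra hcon
  push Not at hcon
  obtain ⟨R, -, hR⟩ := G.lat.cpt
  -- the sequence
  have hex : ∀ n : ℕ, ∃ (y : Vd (k + 1)) (F : ℂ → EN N), ‖y‖ ≤ R ∧ F ∈ Gc X Λ u a y ∧
      Real.circleAverage (fun w => Real.log ‖F (R₀ * w)‖) 0 1 < Real.log ‖F (R₀ * 0)‖ + 1 / ((n : ℝ) + 1) := by
    intro n
    obtain ⟨y, F, hF, z, hz⟩ := hcon (1 / ((n : ℝ) + 1)) (by positivity)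
    obtain ⟨l, hl, hlR⟩ := hR (y + z • a)
    refine ⟨y + z • a - l, fun w => F (z + w), hlR, ⟨hF.1.comp (differentiable_id.const_add z), fun w => hF.2.1 _, fun w => ?_⟩, ?_⟩
    · have h1 := Λ.add_mem (hF.2.2 (z + w)) hl
      have e : u (F (z + w)) - (y + (z + w) • a) + l = u (F (z + w)) - (y + z • a - l + w • a) := by
        rw [add_smul]
        abel
      rwa [e] at h1
    · have h2 : Real.circleAverage (fun w : ℂ => Real.log ‖F (z + R₀ * w)‖) 0 1 = Real.circleAverage (fun w => Real.log ‖F w‖) z R₀ := by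
        rw [Real.circleAverage_def, Real.circleAverage_def]
        simp only [circleMap, zero_add, Complex.ofReal_one, one_mul]
      rw [h2]
      show _ < Real.log ‖F (z + R₀ * 0)‖ + _
      rw [mul_zero, add_zero]
      exact hz
  choose y F hyR hF hFc using hex
  have hK : ∀ n, ∃ K : ℂ → EN N, Differentiable ℂ K ∧ (∀ z, ∃ c : ℂ, c ≠ 0 ∧ K z = c • F n (R₀ * z)) ∧ (∀ z ∈ ball (0 : ℂ) 1, ‖K z‖ ≤ Real.exp (1 / ((n : ℝ) + 1))) ∧
      Real.exp (-(2 * (1 / ((n : ℝ) + 1)))) ≤ ‖K 0‖ := fun n => gr_a (F := fun z => F n (R₀ * z)) ((hF n).1.comp (differentiable_id.const_mul (R₀ : ℂ))) (fun z => ne_zero hX ((hF n).2.1 _)) (by positivity) (hFc n)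
  choose K hKd hKF hKle hK0 using hK
  obtain ⟨𝒰, h𝒰⟩ : ∃ 𝒰 : Ultrafilter ℕ, (𝒰 : Filter ℕ) ≤ atTop := ⟨Ultrafilter.of atTop, Ultrafilter.of_le atTop⟩
  have hinv : Tendsto (fun n : ℕ => 1 / ((n : ℝ) + 1)) 𝒰 (𝓝 0) := tendsto_one_div_add_atTop_nhds_zero_nat.mono_left h𝒰
  have hexp1 : Tendsto (fun n : ℕ => Real.exp (1 / ((n : ℝ) + 1))) 𝒰 (𝓝 1) := by
    have h1 := (Real.continuous_exp.tendsto 0).comp hinv
    rwa [Real.exp_zero] at h1
  have hexp2 : Tendsto (fun n : ℕ => Real.exp (-(2 * (1 / ((n : ℝ) + 1))))) 𝒰 (𝓝 1) := by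
    have h1 := (Real.continuous_exp.tendsto (-(2 * 0))).comp ((hinv.const_mul 2).neg)
    rwa [mul_zero, neg_zero, Real.exp_zero] at h1
  -- the limits
  obtain ⟨y₀, hy₀⟩ : ∃ y₀, Tendsto y 𝒰 (𝓝 y₀) := by
    have hle : ((𝒰.map y : Ultrafilter (Vd (k + 1))) : Filter (Vd (k + 1))) ≤ 𝓟 (closedBall 0 R) := by
      rw [le_principal_iff, Ultrafilter.mem_coe, Ultrafilter.mem_map]
      exact Filter.Eventually.of_forall fun n => mem_closedBall_zero_iff.2 (hyR n)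
    obtain ⟨y₀, -, h⟩ := (isCompact_closedBall (0 : Vd (k + 1)) R).ultrafilter_le_nhds (𝒰.map y) hle
    exact ⟨y₀, h⟩
  obtain ⟨g, hg, hlm⟩ := hc_closed (𝒰 := 𝒰) G hL hN hy₀ (f := fun n z => pr (F n z)) (Filter.Eventually.of_forall fun n => ⟨F n, hF n, rfl⟩)
  obtain ⟨L, hLd, -, hLl⟩ := ul_diff (𝒰 := 𝒰) (g := K) (z₀ := 0) (r := 1) (C := Real.exp 1) (Filter.Eventually.of_forall fun n =>
    ⟨(hKd n).differentiableOn, fun z hz => (hKle n z hz).trans (Real.exp_le_exp.2 (by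
      rw [div_le_one (by positivity)]
      linarith [(Nat.cast_nonneg n : (0 : ℝ) ≤ n)]))⟩)
  have hL1 : ∀ z ∈ ball (0 : ℂ) 1, ‖L z‖ ≤ 1 := by
    intro z hz
    exact le_of_tendsto_of_tendsto (hLl z hz (fun _ => z) tendsto_const_nhds).norm hexp1 (Filter.Eventually.of_forall fun n => hKle n z hz)
  have h00 : (0 : ℂ) ∈ ball (0 : ℂ) 1 := mem_ball_self one_pos
  have hL0 : 1 ≤ ‖L 0‖ :=
    le_of_tendsto_of_tendsto hexp2 (hLl 0 h00 (fun _ => 0) tendsto_const_nhds).norm (Filter.Eventually.of_forall fun n => hK0 n)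
  have hconst : ∀ z ∈ ball (0 : ℂ) 1, L z = L 0 := by
    have hm : IsMaxOn (norm ∘ L) (ball (0 : ℂ) 1) 0 := fun z hz => (hL1 z hz).trans hL0
    exact Complex.eqOn_of_isPreconnected_of_isMaxOn_norm (convex_ball 0 1).isPreconnected isOpen_ball hLd h00 hm
  have hL00 : L 0 ≠ 0 := by
    intro h
    rw [h, norm_zero] at hL0
    linarith
  -- the limit curve is constant
  have hgc' : ∀ z ∈ ball (0 : ℂ) 1, y₀ + (R₀ * z) • a ∉ D → g (R₀ * z) = pr (L 0) := by
    intro z hz hzD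
    have h1 : Tendsto (fun n => pr (F n (R₀ * z))) 𝒰 (𝓝 (g (R₀ * z))) := hlm _ hzD (fun _ => R₀ * z) tendsto_const_nhds
    have h2 : Tendsto (fun n => pr (K n z)) 𝒰 (𝓝 (pr (L 0))) := by
      have h3 := hLl z hz (fun _ => z) tendsto_const_nhds
      rw [hconst z hz] at h3
      exact (continuousAt_pr hL00).tendsto.comp h3
    refine tendsto_nhds_unique h1 (h2.congr fun n => ?_)
    obtain ⟨c, hc, hcK⟩ := hKF n z
    rw [hcK, pr_smul _ hc]
  have hR₀' : (R₀ : ℂ) ≠ 0 := by exact_mod_cast hR₀.ne'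
  have hgc : ∀ z ∈ ball (0 : ℂ) R₀, y₀ + z • a ∉ D → g z = pr (L 0) := by
    intro z hz hzD
    have e : (R₀ : ℂ) * (z / R₀) = z := by field_simp
    have h1 := hgc' (z / R₀) (by
      rw [mem_ball_zero_iff] at hz ⊢
      rw [norm_div, Complex.norm_real, Real.norm_of_nonneg hR₀.le, div_lt_one hR₀]
      exact hz) (by rw [e]; exact hzD)
    rwa [e] at h1
  have h00 : (0 : ℂ) ∈ ball (0 : ℂ) R₀ := mem_ball_self hR₀
  obtain ⟨δ, hδ, hd⟩ := G.lat.disc
  have hnear : ∀ᶠ z : ℂ in 𝓝[≠] (0 : ℂ), y₀ + z • a ∉ D ∧ z ∈ ball (0 : ℂ) R₀ ∧ ‖z‖ < δ / 2 := by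
    have h1 : ∀ᶠ z : ℂ in 𝓝[≠] (0 : ℂ), z ∈ ball (0 : ℂ) R₀ := nhdsWithin_le_nhds (isOpen_ball.mem_nhds h00)
    have h2 : ∀ᶠ z : ℂ in 𝓝[≠] (0 : ℂ), z ∈ ball (0 : ℂ) (δ / 2) := nhdsWithin_le_nhds (ball_mem_nhds 0 (by positivity))
    filter_upwards [hL.iso y₀, h1, h2] with z a1 a2 a3
    exact ⟨a1, a2, mem_ball_zero_iff.1 a3⟩
  obtain ⟨z, hz, hz0⟩ := (hnear.and self_mem_nhdsWithin).exists
  have hnear2 : ∀ᶠ w : ℂ in 𝓝[≠] (0 : ℂ), w ≠ z := by
    refine nhdsWithin_le_nhds ?_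
    exact isOpen_ne.mem_nhds (Ne.symm hz0)
  obtain ⟨w, hw, hwz⟩ := (hnear.and hnear2).exists
  have h1 := hc_mem hg z
  have h2 := hc_mem hg w
  rw [hgc z hz.2.1 hz.1] at h1
  rw [hgc w hw.2.1 hw.1] at h2
  obtain ⟨x, hx, hxm, hxu⟩ := h1
  have h3 := fb_lift hX G.tor h2 hx hxm
  have h4 := Λ.sub_mem h3 hxu
  have e : u x - (y₀ + w • a) - (u x - (y₀ + z • a)) = (z - w) • a := by
    rw [sub_smul]
    abel
  rw [e] at h4
  have h5 : ‖(z - w) • a‖ < δ := by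
    rw [norm_smul, hL.norm, mul_one]
    exact (norm_sub_le _ _).trans_lt (by linarith [hz.2.2, hw.2.2])
  have h6 := hd _ h4 h5
  have h7 : a ≠ 0 := by
    intro h
    have h8 := hL.norm
    rw [h, norm_zero] at h8
    exact zero_ne_one h8
  rcases smul_eq_zero.1 h6 with h8 | h8
  · exact hwz (sub_eq_zero.1 h8).symm
  · exact h7 h8

end Pool.Agent.G4.A

end

section

/-!
# G4 E PlH: the family over a plane is holomorphic off `D`

`pln_hol`: continuity at `(ζ₀, z₀)` off `D'`: if `p n → (ζ₀, z₀)`, the curves `Ψ (p n).1` over `b + (p n).1 ν + ℂ a` have (along an ultrafilter) a limit curve `f ∈ Hc (b + ζ₀ ν)` (`hc_closed`), and `f z = pr (G (ζ₀, z)) = Ψ ζ₀ z` at the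
points `z` off `D'` with `G (ζ₀, z) ≠ 0`; so `f = Ψ ζ₀` (`hc_eq`), and `Ψ (p n).1 (p n).2 → Ψ ζ₀ z₀`.
Holomorphic: `v` with `nd v (Ψ ζ₀ z₀) ≠ 0`; near `(ζ₀, z₀)` the vector `nv v (Ψ p)` is continuous, and equal to `(inner v (G p))⁻¹ • G p` where `inner v (G p) ≠ 0` (`G p ≠ 0`): `riemann_ext` (`TG/Rm`) with the function `inner v (G p)`, which is
not identically `0` near the point; by continuity the extension is `nv v (Ψ p)` (the set `inner v (G p) ≠ 0` is dense near the point).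
-/

set_option autoImplicit false

open Topology Filter Metric

namespace Pool.Agent.G4.E

open Pool.Agent.H36.BP (EN fs wd)
open Pool.Agent.H14.PP (IsCone CurveAt Tan)
open Pool.Agent.H62.EF (MN pr)
open Pool.Agent.AD (Vd Chart Charts IsGerm)
open Pool.Agent.TG
open Pool.Agent.G3.A (Ba Hc Frm Lm)
open Pool.Agent.G3.C (nv nd nv_pr nd_cont nd_pr_ne nv_continuousAt pr_nv)
open Pool.Agent.G4.A (DA)

variable {N k : ℕ} {X : Set (EN N)} {Λ : AddSubgroup (Vd (k + 1))} {u : EN N → Vd (k + 1)} {D B Bad : Set (Vd (k + 1))} {a ν b : Vd (k + 1)}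
  {Γ : AddSubgroup (Vd (k + 1))} {J r : ℕ} {W : Fin r → Vd (k + 1) →L[ℂ] ℂ} {α : Fin J → VForm X Λ u} {c₀ C₀ ρ δ : ℝ}

/-- on the line `ζ = ζ₀` the lift does not vanish near the point, and off `D` -/
private theorem PlH_line (S : DA X Λ u D B Bad a Γ W α c₀ C₀ ρ δ) {ζ₀ z₀ : ℂ} (hD : b + ζ₀ • ν + z₀ • a ∉ D) {G : ℂ × ℂ → EN N} (hG : AnalyticAt ℂ G (ζ₀, z₀))
    (hG0 : ¬ ∀ᶠ w in 𝓝 z₀, G (ζ₀, w) = 0) : ∀ᶠ z in 𝓝[≠] z₀, G (ζ₀, z) ≠ 0 ∧ b + ζ₀ • ν + z • a ∉ D := by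
  have h1 : AnalyticAt ℂ (fun z : ℂ => G (ζ₀, z)) z₀ := by
    have h2 : AnalyticAt ℂ (fun z : ℂ => ((ζ₀, z) : ℂ × ℂ)) z₀ := analyticAt_const.prod analyticAt_id
    exact AnalyticAt.comp (g := G) (f := fun z : ℂ => ((ζ₀, z) : ℂ × ℂ)) hG h2
  have h2 : ∀ᶠ z in 𝓝[≠] z₀, G (ζ₀, z) ≠ 0 := by
    rcases h1.eventually_eq_zero_or_eventually_ne_zero with h | h
    · exact absurd h hG0
    · exact h
  have h3 : ∀ᶠ z in 𝓝 z₀, b + ζ₀ • ν + z • a ∉ D := by
    have h4 : IsOpen {z : ℂ | b + ζ₀ • ν + z • a ∉ D} := (S.lc.D_closed.preimage (by fun_prop : Continuous fun z : ℂ => b + ζ₀ • ν + z • a)).isOpen_compl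
    exact h4.mem_nhds hD
  exact h2.and (h3.filter_mono nhdsWithin_le_nhds)

/-- continuity -/
theorem pln_cont (S : DA X Λ u D B Bad a Γ W α c₀ C₀ ρ δ) {Ψ : ℂ → ℂ → MN N} (h : Pln X Λ u a ν b Ψ) {p₀ : ℂ × ℂ} (hD : b + p₀.1 • ν + p₀.2 • a ∉ D) :
    ContinuousAt (fun p : ℂ × ℂ => Ψ p.1 p.2) p₀ := by
  obtain ⟨ζ₀, z₀⟩ := p₀
  obtain ⟨G, hG, hG0, hGe⟩ := h.lift ζ₀ z₀
  unfold ContinuousAt
  rw [Filter.tendsto_iff_ultrafilter]
  intro 𝒰 h𝒰
  have t1 : Tendsto (fun p : ℂ × ℂ => p.1) 𝒰 (𝓝 ζ₀) := (continuous_fst.tendsto ((ζ₀, z₀) : ℂ × ℂ)).mono_left h𝒰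
  have t2 : Tendsto (fun p : ℂ × ℂ => p.2) 𝒰 (𝓝 z₀) := (continuous_snd.tendsto ((ζ₀, z₀) : ℂ × ℂ)).mono_left h𝒰
  have hy : Tendsto (fun p : ℂ × ℂ => b + p.1 • ν) 𝒰 (𝓝 (b + ζ₀ • ν)) := tendsto_const_nhds.add (t1.smul_const ν)
  obtain ⟨g, hg, hlm⟩ := Pool.Agent.G4.A.hc_closed S.geo S.lg S.nl (𝒰 := 𝒰) hy (f := fun p : ℂ × ℂ => Ψ p.1) (Eventually.of_forall fun p => h.line p.1)
  -- the limit curve is `Ψ ζ₀`
  have hgΨ : g = Ψ ζ₀ := by
    refine Pool.Agent.G4.A.hc_eq S.geo.cone hg (h.line ζ₀) (z₀ := z₀) ?_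
    refine Filter.Eventually.frequently ?_
    have h1 : ∀ᶠ z in 𝓝[≠] z₀, ∀ᶠ p in 𝓝 ((ζ₀, z) : ℂ × ℂ), (G p ≠ 0 → Ψ p.1 p.2 = pr (G p)) ∧ AnalyticAt ℂ G p := by
      have h2 : ∀ᶠ q in 𝓝 ((ζ₀, z₀) : ℂ × ℂ), ∀ᶠ p in 𝓝 q, (G p ≠ 0 → Ψ p.1 p.2 = pr (G p)) ∧ AnalyticAt ℂ G p := (hGe.and hG.eventually_analyticAt).eventually_nhds
      have h3 : Tendsto (fun z : ℂ => ((ζ₀, z) : ℂ × ℂ)) (𝓝 z₀) (𝓝 (ζ₀, z₀)) := (by fun_prop : Continuous fun z : ℂ => ((ζ₀, z) : ℂ × ℂ)).tendsto z₀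
      exact (h3.eventually h2).filter_mono nhdsWithin_le_nhds
    filter_upwards [PlH_line S hD hG hG0, h1] with z hz hz1
    have t3 : Tendsto (fun p : ℂ × ℂ => ((p.1, z) : ℂ × ℂ)) 𝒰 (𝓝 (ζ₀, z)) := t1.prodMk_nhds tendsto_const_nhds
    have hza := hz1.self_of_nhds
    have e1 : Tendsto (fun p : ℂ × ℂ => G (p.1, z)) 𝒰 (𝓝 (G (ζ₀, z))) := hza.2.continuousAt.tendsto.comp t3
    have e2 : Tendsto (fun p : ℂ × ℂ => pr (G (p.1, z))) 𝒰 (𝓝 (pr (G (ζ₀, z)))) := (Pool.Agent.H62.EF.continuousAt_pr hz.1).tendsto.comp e1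
    have e3 : Tendsto (fun p : ℂ × ℂ => Ψ p.1 z) 𝒰 (𝓝 (pr (G (ζ₀, z)))) := by
      refine e2.congr' ?_
      filter_upwards [t3.eventually hz1, e1.eventually_ne hz.1] with p hp hp2
      exact (hp.1 hp2).symm
    have e4 : Tendsto (fun p : ℂ × ℂ => Ψ p.1 z) 𝒰 (𝓝 (g z)) := hlm z hz.2 (fun _ => z) tendsto_const_nhds
    rw [tendsto_nhds_unique e4 e3]
    exact (hza.1 hz.1).symm
  have h1 : Tendsto (fun p : ℂ × ℂ => Ψ p.1 p.2) 𝒰 (𝓝 (g z₀)) := hlm z₀ hD (fun p => p.2) t2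
  rw [hgΨ] at h1
  exact h1

theorem pln_hol (S : DA X Λ u D B Bad a Γ W α c₀ C₀ ρ δ) {Ψ : ℂ → ℂ → MN N} (h : Pln X Λ u a ν b Ψ) :
    HolY X Λ u {p : ℂ × ℂ | b + p.1 • ν + p.2 • a ∈ D} (fun p => b + p.1 • ν + p.2 • a) (fun p => Ψ p.1 p.2) := by
  intro p₀ hp₀
  have hX := S.geo.cone
  have hD : b + p₀.1 • ν + p₀.2 • a ∉ D := hp₀
  have hDo : IsOpen {p : ℂ × ℂ | b + p.1 • ν + p.2 • a ∉ D} := (S.lc.D_closed.preimage (by fun_prop : Continuous fun p : ℂ × ℂ => b + p.1 • ν + p.2 • a)).isOpen_compl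
  have hmem : ∀ p : ℂ × ℂ, Ψ p.1 p.2 ∈ Fb X Λ u (b + p.1 • ν + p.2 • a) := fun p => Pool.Agent.G4.A.hc_mem (h.line p.1) p.2
  obtain ⟨x₀, hx₀X, hx₀m, -⟩ := hmem p₀
  have hx₀ : x₀ ≠ 0 := ne_zero hX hx₀X
  have hself : (inner ℂ x₀ x₀ : ℂ) ≠ 0 := inner_self_ne_zero.2 hx₀
  have hnd₀ : nd x₀ (Ψ p₀.1 p₀.2) ≠ 0 := by
    rw [← hx₀m]
    exact (nd_pr_ne hx₀).2 hself
  have hc₀ := pln_cont S h hD
  -- near the point
  have hD1 : ∀ᶠ p in 𝓝 p₀, b + p.1 • ν + p.2 • a ∉ D := hDo.mem_nhds hD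
  have hU : ∀ᶠ p in 𝓝 p₀, b + p.1 • ν + p.2 • a ∉ D ∧ nd x₀ (Ψ p.1 p.2) ≠ 0 := hD1.and (((nd_cont x₀).continuousAt.comp hc₀).eventually_ne hnd₀)
  have hcont : ∀ᶠ p in 𝓝 p₀, ContinuousAt (fun p : ℂ × ℂ => nv x₀ (Ψ p.1 p.2)) p := by
    filter_upwards [hU] with p hp
    exact ContinuousAt.comp (g := nv x₀) (f := fun p : ℂ × ℂ => Ψ p.1 p.2) (nv_continuousAt hp.2) (pln_cont S h hp.1)
  obtain ⟨G, hG, hG0, hGe⟩ := h.lift p₀.1 p₀.2
  have hG' : AnalyticAt ℂ G p₀ := hG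
  have hGe' : ∀ᶠ p in 𝓝 p₀, G p ≠ 0 → Ψ p.1 p.2 = pr (G p) := hGe
  set hh : ℂ × ℂ → ℂ := fun p => (inner ℂ x₀ (G p) : ℂ) with hhd
  have hha : ∀ p, AnalyticAt ℂ G p → AnalyticAt ℂ hh p := fun p hp => ((innerSL ℂ x₀).analyticAt _).comp hp
  have hhne : ¬ ∀ᶠ p in 𝓝 p₀, hh p = 0 := by
    intro hcon
    have h1 := PlH_line S hD hG hG0
    have h2 : ∀ᶠ z in 𝓝[≠] p₀.2, hh (p₀.1, z) = 0 ∧ nd x₀ (Ψ p₀.1 z) ≠ 0 ∧ (G (p₀.1, z) ≠ 0 → Ψ p₀.1 z = pr (G (p₀.1, z))) := by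
      have h3 : Tendsto (fun z : ℂ => ((p₀.1, z) : ℂ × ℂ)) (𝓝 p₀.2) (𝓝 p₀) := (by fun_prop : Continuous fun z : ℂ => ((p₀.1, z) : ℂ × ℂ)).tendsto p₀.2
      refine Filter.Eventually.filter_mono nhdsWithin_le_nhds ?_
      filter_upwards [h3.eventually hcon, h3.eventually hU, h3.eventually hGe'] with z e1 e2 e3
      exact ⟨e1, e2.2, e3⟩
    obtain ⟨z, ⟨e1, -⟩, e2, e3, e4⟩ := (h1.and h2).exists
    rw [e4 e1] at e3
    exact (nd_pr_ne e1).1 e3 e2
  -- where `hh` is not `0`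
  have hval : ∀ᶠ p in 𝓝 p₀, hh p ≠ 0 → nv x₀ (Ψ p.1 p.2) = (hh p)⁻¹ • G p := by
    filter_upwards [hGe'] with p hp hne
    have h1 : G p ≠ 0 := by
      intro h0
      apply hne
      rw [hhd]
      show (inner ℂ x₀ (G p) : ℂ) = 0
      rw [h0, inner_zero_right]
    rw [hp h1]
    exact nv_pr hne
  have hf : ∀ᶠ p in 𝓝 p₀, hh p ≠ 0 → AnalyticAt ℂ (fun p : ℂ × ℂ => nv x₀ (Ψ p.1 p.2)) p := by
    filter_upwards [hval.eventually_nhds, hG'.eventually_analyticAt] with p h1 h2 hne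
    have h3 : AnalyticAt ℂ (fun p => (hh p)⁻¹ • G p) p := ((hha p h2).inv hne).smul h2
    refine h3.congr ?_
    filter_upwards [h1, (hha p h2).continuousAt.eventually_ne hne] with q h4 h5
    exact (h4 h5).symm
  have hM : ∀ᶠ p in 𝓝 p₀, hh p ≠ 0 → ‖nv x₀ (Ψ p.1 p.2)‖ ≤ ‖nv x₀ (Ψ p₀.1 p₀.2)‖ + 1 := by
    have h1 : ∀ᶠ p in 𝓝 p₀, ‖nv x₀ (Ψ p.1 p.2)‖ < ‖nv x₀ (Ψ p₀.1 p₀.2)‖ + 1 := hcont.self_of_nhds.norm.eventually (gt_mem_nhds (by linarith))
    filter_upwards [h1] with p hp _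
    exact hp.le
  obtain ⟨φ, hφ, hφe⟩ := riemann_ext (hha p₀ hG') hhne hf hM
  -- the extension is the vector itself
  have hdense : ∀ᶠ p in 𝓝 p₀, ∃ᶠ q in 𝓝 p, hh q ≠ 0 := by
    obtain ⟨ε, hε, hb⟩ := Metric.eventually_nhds_iff_ball.1 hG'.eventually_analyticAt
    filter_upwards [ball_mem_nhds p₀ hε] with p hp hcon
    have hcon' : ∀ᶠ q in 𝓝 p, hh q = 0 := by
      filter_upwards [hcon] with q hq
      by_contra h0
      exact hq h0
    have h1 : AnalyticOnNhd ℂ hh (ball p₀ ε) := fun q hq => hha q (hb q hq)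
    have h2 := h1.eqOn_zero_of_preconnected_of_eventuallyEq_zero (convex_ball p₀ ε).isPreconnected hp hcon'
    exact hhne (Filter.eventually_of_mem (ball_mem_nhds p₀ hε) fun q hq => h2 hq)
  have heq : ∀ᶠ p in 𝓝 p₀, φ p = nv x₀ (Ψ p.1 p.2) := by
    filter_upwards [hdense, hcont, hφ.eventually_analyticAt, hφe.eventually_nhds] with p h1 h2 h3 h4
    by_contra hne
    have h5 : ∀ᶠ q in 𝓝 p, φ q ≠ nv x₀ (Ψ q.1 q.2) := by
      have h6 : ContinuousAt (fun q : ℂ × ℂ => φ q - nv x₀ (Ψ q.1 q.2)) p := h3.continuousAt.sub h2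
      filter_upwards [h6.eventually_ne (sub_ne_zero.2 hne)] with q hq
      exact sub_ne_zero.1 hq
    obtain ⟨q, h6, h7, h8⟩ := (h1.and_eventually (h4.and h5)).exists
    exact h8 (h7 h6)
  refine ⟨φ, hφ, ?_⟩
  filter_upwards [heq, hU] with p h1 h2
  obtain ⟨x, hxX, hxm, hxu⟩ := hmem p
  have hx : x ≠ 0 := ne_zero hX hxX
  have hin : (inner ℂ x₀ x : ℂ) ≠ 0 := by
    have h3 := h2.2
    rw [← hxm] at h3
    exact (nd_pr_ne hx).1 h3
  have h3 : pr (φ p) = pr x := by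
    rw [h1, ← hxm]
    exact pr_nv hin
  have h4 : φ p ≠ 0 := by
    rw [h1, ← hxm, nv_pr hin]
    exact smul_ne_zero (inv_ne_zero hin) hx
  obtain ⟨h5, h6⟩ := mem_of_pr hX S.geo.tor hxX hxu h4 h3
  exact ⟨h5, by rw [h3, hxm], h6⟩

end Pool.Agent.G4.E

end

section

/-!
# TG CLp: the curves over the lines near a point off `D` are uniformly Lipschitz
-/

set_option autoImplicit false

open Topology Filter Metric

namespace Pool.Agent.TG

open Pool.Agent.H36.BP (EN)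
open Pool.Agent.H62.EF (MN pr)
open Pool.Agent.AD (Vd)

variable {N k : ℕ} {X : Set (EN N)} {Λ : AddSubgroup (Vd (k + 1))} {u : EN N → Vd (k + 1)} {D B : Set (Vd (k + 1))}

theorem Geo.clip (G : Geo X Λ u D B) : ∀ y ∉ D, CLip X Λ u y := by
  intro y₀ hy₀
  obtain ⟨δ, hδ, hyG⟩ := G.exists_gd hy₀
  obtain ⟨L, hL, h⟩ := curve_bound_disc G (δ := δ / 16) (by positivity)
  refine ⟨δ / 2, L, by positivity, hL.le, fun y hy e he g hg z hz w hw => ?_⟩
  rw [mem_ball, dist_eq_norm] at hy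
  obtain ⟨F, hF, hFX, hFg⟩ := disc_lift_mem G.cone G.tor hg (r := 3 * δ / 8) (by linarith)
  have hsub : ball (0 : ℂ) (δ / 2 / 2) ⊆ ball (0 : ℂ) (3 * δ / 8) := ball_subset_ball (by linarith)
  rw [hFg z (hsub hz), hFg w (hsub hw)]
  refine h y e he (3 * δ / 8) (δ / 2 / 2) (by linarith) (fun v hv => ?_) F hF hFX z hz w hw
  have h1 : ‖y + v • e - y₀‖ ≤ δ / 2 + δ / 4 := by
    have h2 : y + v • e - y₀ = (y - y₀) + v • e := by abel
    rw [mem_ball_zero_iff] at hv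
    rw [h2]
    refine (norm_add_le _ _).trans (add_le_add hy.le ?_)
    rw [norm_smul]
    calc ‖v‖ * ‖e‖ ≤ ‖v‖ * 1 := mul_le_mul_of_nonneg_left he (norm_nonneg _)
      _ ≤ δ / 4 := by linarith
  exact gd_mono (by linarith) (gd_near hyG h1)

end Pool.Agent.TG

end
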