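import Mathlib

/-! The parts of this file: H36.BP.Defs, H14.PP.Defs. -/

section

/-!
# Project BP (MP_64ff02_ag): definitions for the function theory half

`Sub u z₀ c`: `u z₀ > 0` and `log u` has Laplacian at least `4 c` at `z₀` in the sense of lower supports: for every `c' < c` there is a
holomorphic `h` near `z₀` with `|h z₀| = u z₀` and `|h z| exp(c' |z - z₀|²) ≤ u z` near `z₀`.

The ambient space is `E = EN N = ℂ^(N+1)` with the Euclidean norm.  `wd x v = |x ∧ v|`, `fs x v = |x ∧ v|/|x|²` is the Fubini-Study length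
of the vector `v` at `[x]`.  A subset of projective space is described by its cone `K` (without `0`).  `mt G F z = G (F z) (F' z)`.
-/

set_option autoImplicit false

namespace Pool.Agent.H36.BP

open Filter Topology

/-- `ℂ^(N+1)` with the Euclidean norm -/
abbrev EN (N : ℕ) : Type := EuclideanSpace ℂ (Fin (N + 1))

variable {N : ℕ}

/-- `|x ∧ v|` -/
noncomputable def wd (x v : EN N) : ℝ := Real.sqrt (‖x‖ ^ 2 * ‖v‖ ^ 2 - ‖inner ℂ x v‖ ^ 2)

end Pool.Agent.H36.BP

end

section

/-!
# Project BP, metric half: definitions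

`X` is the cone (without `0`) over a compact surface in `ℙ^N`, `K ⊆ X` the cone over the complement
of a curve (`K = X` in the compact case), `T` the cone over the total curve: it contains `X \ K`,
and `K ∩ T` is the exceptional set.
-/

open Topology Filter Metric

namespace Pool.Agent.H14.PP

open Pool.Agent.H36.BP (EN wd)

variable {N : ℕ}

/-- `X` is the cone (without the vertex) over a closed subset of projective space. -/
structure IsCone (X : Set (EN N)) : Prop where
  zero_notMem : (0 : EN N) ∉ X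
  smul_mem : ∀ x ∈ X, ∀ c : ℂ, c ≠ 0 → c • x ∈ X
  closed : IsClosed (insert 0 X)

/-- `F` is a holomorphic curve in `X` near `z₀`. -/
def CurveAt (X : Set (EN N)) (F : ℂ → EN N) (z₀ : ℂ) : Prop :=
  AnalyticAt ℂ F z₀ ∧ ∀ᶠ z in 𝓝 z₀, F z ∈ X

/-- `v` is a tangent vector of `X` at `x`: the derivative of a holomorphic curve in `X`. -/
def Tan (X : Set (EN N)) (x v : EN N) : Prop :=
  ∃ F : ℂ → EN N, CurveAt X F 0 ∧ F 0 = x ∧ deriv F 0 = v

/-- A chart of the surface whose cone is `X`: `σ` is a lift of the inverse of the chart, defined on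
the bidisc of radius `2`, `U` is an open cone, and `q` the chart, a pair of holomorphic functions on
`U` which are invariant under scaling. -/
structure Chart (X : Set (EN N)) where
  /-- the parametrization -/
  σ : ℂ × ℂ → EN N
  /-- the domain -/
  U : Set (EN N)
  /-- the coordinates -/
  q : EN N → ℂ × ℂ
  isOpen_U : IsOpen U
  smul_U : ∀ x ∈ U, ∀ c : ℂ, c ≠ 0 → c • x ∈ U
  σ_an : ∀ p ∈ ball (0 : ℂ × ℂ) 2, AnalyticAt ℂ σ p
  q_an : ∀ x ∈ U, AnalyticAt ℂ q x
  q_smul : ∀ x ∈ U, ∀ c : ℂ, c ≠ 0 → q (c • x) = q x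
  σ_mem : ∀ p ∈ ball (0 : ℂ × ℂ) 2, σ p ∈ X ∧ σ p ∈ U ∧ q (σ p) = p
  surj : ∀ x ∈ X, x ∈ U → q x ∈ ball (0 : ℂ × ℂ) 2 ∧ ∃ c : ℂ, c ≠ 0 ∧ x = c • σ (q x)

section metric

variable {W : Type*} [NormedAddCommGroup W] [InnerProductSpace ℂ W]

/-- The size of the equations of `T`. -/
noncomputable def rho (Q : EN N → W) (D : ℕ) (x : EN N) : ℝ := ‖Q x‖ / ‖x‖ ^ D

end metric

end Pool.Agent.H14.PP

end
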