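import Pool.Agent.H94.G4T.G3.C.QFa
import Pool.Agent.H94.G4T.M99

/-! The parts of this file: G3.C.PVa, G3.C.PVb. -/

section

/-!
# G3 C PVa: the value of the jet form on a smooth family does not depend on the chart
-/

set_option autoImplicit false

open Topology Filter Metric

namespace Pool.Agent.G3.C

open Pool.Agent.H36.BP (EN fs wd)
open Pool.Agent.H14.PP (IsCone)
open Pool.Agent.H62.EF (MN pr)
open Pool.Agent.AD (Vd Chart Charts)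
open Pool.Agent.TG (TMap Lat Str ms tl)

variable {N k : ℕ} {X : Set (EN N)} {Λ : AddSubgroup (Vd (k + 1))} {u : EN N → Vd (k + 1)} {ν a b b' c c' : Vd (k + 1)} {m : ℕ} {ρ ρ' : ℝ}

/-- the real curve of the family in the chart -/
noncomputable def psi (b ν a : Vd (k + 1)) (χ : Chart (k + 2) X) (c : Vd (k + 1)) (ρ : ℝ) (w : ℕ → ℝ → ℂ → ℂ) (s₀ : ℝ) (z₀ : ℂ) (t : ℝ) : EN N :=
  χ.σ (cz b ν a c ρ (w 0 (s₀ + t) z₀) ((s₀ + t : ℝ) : ℂ) z₀)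

/-- the curve with the polynomial jet is close to the real curve -/
theorem crv_close {Φ : ℝ → ℂ → MN N} {χ : Chart (k + 2) X} {w : ℕ → ℝ → ℂ → ℂ} {s₀ : ℝ} {z₀ : ℂ} {r : ℝ} (B : Box X Λ u a ν b Φ χ c ρ w s₀ z₀ r) (m : ℕ) :
    ∃ C δ M : ℝ, 0 < δ ∧ 0 ≤ C ∧ 0 ≤ M ∧ ∀ t ∈ Set.Ioo (0 : ℝ) δ, ‖crv b ν a χ c ρ (Jt m w s₀ z₀) (t : ℂ) - psi b ν a χ c ρ w s₀ z₀ t‖ ≤ C * t ^ (m + 1) ∧
      ‖crv b ν a χ c ρ (Jt m w s₀ z₀) (t : ℂ)‖ ≤ M ∧ ‖psi b ν a χ c ρ w s₀ z₀ t‖ ≤ M := by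
  have hs₀ : s₀ ∈ Set.Ioo (s₀ - r) (s₀ + r) := ⟨by linarith [B.pos], by linarith [B.pos]⟩
  have hz₀ : z₀ ∈ ball z₀ r := mem_ball_self B.pos
  set x₀ := w 0 s₀ z₀ with hx₀
  set G : ℂ × ℂ → EN N := fun p => χ.σ (cz b ν a c ρ p.1 (s₀ + p.2) z₀) with hG
  have hmem : cz b ν a c ρ x₀ s₀ z₀ ∈ ball (0 : Vd (k + 2)) 2 := B.mem s₀ hs₀ z₀ hz₀
  have hGa : AnalyticAt ℂ G (x₀, 0) := by
    have h1 : AnalyticAt ℂ (fun p : ℂ × ℂ => cz b ν a c ρ p.1 (s₀ + p.2) z₀) (x₀, 0) :=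
      cz_analytic analyticAt_fst (analyticAt_const.add analyticAt_snd) analyticAt_const
    refine AnalyticAt.comp_of_eq (χ.σ_an _ hmem) h1 ?_
    simp
  obtain ⟨K, U, hU, hK⟩ := hGa.hasStrictFDerivAt.exists_lipschitzOnWith
  -- the two points
  have hpolc : Tendsto (fun t : ℝ => ((pol (Jt m w s₀ z₀).2.2 (t : ℂ), (t : ℂ)) : ℂ × ℂ)) (𝓝 0) (𝓝 (x₀, 0)) := by
    have h1 : Continuous fun t : ℝ => ((pol (Jt m w s₀ z₀).2.2 (t : ℂ), (t : ℂ)) : ℂ × ℂ) := by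
      unfold pol
      fun_prop
    have h2 := h1.tendsto 0
    simpa [pol_zero, Jt, hx₀] using h2
  have hwc : Tendsto (fun t : ℝ => ((w 0 (s₀ + t) z₀, (t : ℂ)) : ℂ × ℂ)) (𝓝 0) (𝓝 (x₀, 0)) := by
    have h1 : ContinuousAt (fun t : ℝ => w 0 t z₀) (s₀ + 0) := by
      rw [add_zero]
      exact (B.jet.der 0 s₀ hs₀ z₀ hz₀).continuousAt
    have h2 : ContinuousAt (fun t : ℝ => w 0 (s₀ + t) z₀) 0 := ContinuousAt.comp (f := fun t : ℝ => s₀ + t) (g := fun t : ℝ => w 0 t z₀) h1 (by fun_prop)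
    have h3 : Tendsto (fun t : ℝ => w 0 (s₀ + t) z₀) (𝓝 0) (𝓝 x₀) := by
      have := h2.tendsto
      simpa [hx₀] using this
    have h4 : Tendsto (fun t : ℝ => (t : ℂ)) (𝓝 0) (𝓝 0) := by
      have := Complex.continuous_ofReal.tendsto 0
      simpa using this
    exact h3.prodMk_nhds h4
  have hbd : ∀ᶠ p in 𝓝 ((x₀, 0) : ℂ × ℂ), ‖G p‖ ≤ ‖G (x₀, 0)‖ + 1 := by
    filter_upwards [hGa.continuousAt.norm.eventually_le_const (show ‖G (x₀, 0)‖ < ‖G (x₀, 0)‖ + 1 by linarith)] with p hp using hp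
  obtain ⟨C, δ, hδ, hT⟩ := taylor_bound (f := fun j t => w j t z₀) B.pos (fun j t ht => B.jet.der j t ht z₀ hz₀) m
  have hev : ∀ᶠ t : ℝ in 𝓝 0, ((pol (Jt m w s₀ z₀).2.2 (t : ℂ), (t : ℂ)) : ℂ × ℂ) ∈ U ∧ ((w 0 (s₀ + t) z₀, (t : ℂ)) : ℂ × ℂ) ∈ U ∧
      ‖G (pol (Jt m w s₀ z₀).2.2 (t : ℂ), (t : ℂ))‖ ≤ ‖G (x₀, 0)‖ + 1 ∧ ‖G (w 0 (s₀ + t) z₀, (t : ℂ))‖ ≤ ‖G (x₀, 0)‖ + 1 :=
    (hpolc.eventually hU).and ((hwc.eventually hU).and ((hpolc.eventually hbd).and (hwc.eventually hbd)))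
  obtain ⟨δ', hδ', hδ'b⟩ := Metric.eventually_nhds_iff_ball.mp hev
  refine ⟨K * |C|, min δ δ', ‖G (x₀, 0)‖ + 1, lt_min hδ hδ', by positivity, by positivity, ?_⟩
  intro t ht
  have ht0 : 0 < t := ht.1
  have htb : t ∈ ball (0 : ℝ) δ' := by
    rw [mem_ball, Real.dist_eq, sub_zero, abs_of_pos ht0]
    exact lt_of_lt_of_le ht.2 (min_le_right _ _)
  obtain ⟨h1, h2, h3, h4⟩ := hδ'b t htb
  have e1 : crv b ν a χ c ρ (Jt m w s₀ z₀) (t : ℂ) = G (pol (Jt m w s₀ z₀).2.2 (t : ℂ), (t : ℂ)) := rfl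
  have e2 : psi b ν a χ c ρ w s₀ z₀ t = G (w 0 (s₀ + t) z₀, (t : ℂ)) := by
    simp only [psi, hG]
    push_cast
    rfl
  refine ⟨?_, by rw [e1]; exact h3, by rw [e2]; exact h4⟩
  rw [e1, e2, ← dist_eq_norm]
  refine (hK.dist_le_mul _ h1 _ h2).trans ?_
  rw [mul_assoc]
  apply mul_le_mul_of_nonneg_left _ K.coe_nonneg
  have h5 := hT t ⟨ht0, lt_of_lt_of_le ht.2 (min_le_left _ _)⟩
  rw [Prod.dist_eq, dist_self, max_eq_left dist_nonneg, dist_eq_norm, norm_sub_rev]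
  refine h5.trans ?_
  exact mul_le_mul_of_nonneg_right (le_abs_self C) (by positivity)

theorem QF_unique (hX : IsCone X) {Φ Φ' : ℝ → ℂ → MN N} {χ χ' : Chart (k + 2) X} {w w' : ℕ → ℝ → ℂ → ℂ} {s₀ s₀' : ℝ} {z₀ z₀' : ℂ} {r r' : ℝ}
    (B : Box X Λ u a ν b Φ χ c ρ w s₀ z₀ r) (B' : Box X Λ u a ν b' Φ' χ' c' ρ' w' s₀' z₀' r') (h : ∀ᶠ t : ℝ in 𝓝 0, Φ (s₀ + t) z₀ = Φ' (s₀' + t) z₀')
    (P : JForm X Λ u ν m) {x : EN N} {α α' : ℂ} (hα : χ.σ (cz b ν a c ρ (w 0 s₀ z₀) s₀ z₀) = α • x) (hα' : χ'.σ (cz b' ν a c' ρ' (w' 0 s₀' z₀') s₀' z₀') = α' • x)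
    (hα0 : α ≠ 0) (hα'0 : α' ≠ 0) : QF P b a χ c ρ (Jt m w s₀ z₀) * α = QF P b' a χ' c' ρ' (Jt m w' s₀' z₀') * α' := by
  have hs₀ : s₀ ∈ Set.Ioo (s₀ - r) (s₀ + r) := ⟨by linarith [B.pos], by linarith [B.pos]⟩
  have hz₀ : z₀ ∈ ball z₀ r := mem_ball_self B.pos
  have hs₀' : s₀' ∈ Set.Ioo (s₀' - r') (s₀' + r') := ⟨by linarith [B'.pos], by linarith [B'.pos]⟩
  have hz₀' : z₀' ∈ ball z₀' r' := mem_ball_self B'.pos
  have hq : Jt m w s₀ z₀ ∈ OD b ν a c ρ m := B.mem s₀ hs₀ z₀ hz₀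
  have hq' : Jt m w' s₀' z₀' ∈ OD b' ν a c' ρ' m := B'.mem s₀' hs₀' z₀' hz₀'
  have hd := crv_dir B.str hq
  have hd' := crv_dir B'.str hq'
  set φ := crv b ν a χ c ρ (Jt m w s₀ z₀) with hφ
  set φ' := crv b' ν a χ' c' ρ' (Jt m w' s₀' z₀') with hφ'
  have hφ0 : φ 0 = α • x := by
    rw [hφ, crv, pol_zero, add_zero]
    exact hα
  have hφ'0 : φ' 0 = α' • x := by
    rw [hφ', crv, pol_zero, add_zero]
    exact hα'
  have hx : x ≠ 0 := by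
    rintro rfl
    rw [smul_zero] at hα
    exact hX.zero_notMem (hα ▸ (χ.σ_mem _ (B.mem s₀ hs₀ z₀ hz₀)).1)
  set ℓ : EN N →L[ℂ] ℂ := innerSL ℂ x with hℓ
  have hℓx : ℓ x ≠ 0 := by
    rw [hℓ, innerSL_apply_apply]
    exact inner_self_ne_zero.mpr hx
  have hℓφ0 : ℓ (φ 0) ≠ 0 := by
    rw [hφ0, map_smul, smul_eq_mul]
    exact mul_ne_zero hα0 hℓx
  set cc : ℂ → ℂ := fun t => ℓ (φ' t) / ℓ (φ t) with hcc
  have hcca : AnalyticAt ℂ cc 0 := by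
    have h1 : AnalyticAt ℂ (fun t => ℓ (φ' t)) 0 := (ℓ.analyticAt _).comp hd'.1
    have h2 : AnalyticAt ℂ (fun t => ℓ (φ t)) 0 := (ℓ.analyticAt _).comp hd.1
    exact h1.div h2 hℓφ0
  have hcc0 : cc 0 = α' / α := by
    simp only [hcc]
    rw [hφ0, hφ'0, map_smul, map_smul, smul_eq_mul, smul_eq_mul, mul_div_mul_right _ _ hℓx]
  have hcc0ne : cc 0 ≠ 0 := by
    rw [hcc0]
    exact div_ne_zero hα'0 hα0
  -- the jets agree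
  have hjet : jt m φ' = jt m fun t => cc t • φ t := by
    obtain ⟨C₁, δ₁, M₁, hδ₁, hC₁, hM₁, h₁⟩ := crv_close B m
    obtain ⟨C₂, δ₂, M₂, hδ₂, hC₂, hM₂, h₂⟩ := crv_close B' m
    have hev1 : ∀ᶠ t : ℝ in 𝓝 0, ‖ℓ (φ 0)‖ / 2 ≤ ‖ℓ (φ (t : ℂ))‖ := by
      have h2 : ContinuousAt (fun t => ℓ (φ t)) 0 := ContinuousAt.comp ℓ.continuous.continuousAt hd.1.continuousAt
      have h3 : Tendsto (fun t : ℝ => ℓ (φ (t : ℂ))) (𝓝 0) (𝓝 (ℓ (φ 0))) := by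
        have h4 : Tendsto (fun t : ℝ => (t : ℂ)) (𝓝 0) (𝓝 0) := by
          have := Complex.continuous_ofReal.tendsto 0
          simpa using this
        exact h2.tendsto.comp h4
      have h5 : ‖ℓ (φ 0)‖ / 2 < ‖ℓ (φ 0)‖ := by
        have := norm_pos_iff.mpr hℓφ0
        linarith
      filter_upwards [h3.norm.eventually_const_lt h5] with t ht using ht.le
    have hev2 : ∀ᶠ t : ℝ in 𝓝 0, s₀ + t ∈ Set.Ioo (s₀ - r) (s₀ + r) ∧ s₀' + t ∈ Set.Ioo (s₀' - r') (s₀' + r') := by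
      have e1 : Tendsto (fun t : ℝ => s₀ + t) (𝓝 0) (𝓝 s₀) := by
        have : Continuous fun t : ℝ => s₀ + t := by fun_prop
        simpa using this.tendsto 0
      have e2 : Tendsto (fun t : ℝ => s₀' + t) (𝓝 0) (𝓝 s₀') := by
        have : Continuous fun t : ℝ => s₀' + t := by fun_prop
        simpa using this.tendsto 0
      exact (e1.eventually (isOpen_Ioo.mem_nhds hs₀)).and (e2.eventually (isOpen_Ioo.mem_nhds hs₀'))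
    obtain ⟨δ₃, hδ₃, h₃⟩ := Metric.eventually_nhds_iff_ball.mp (h.and (hev1.and hev2))
    set δ := min (min δ₁ δ₂) δ₃ with hδ
    have hδ0 : 0 < δ := by positivity
    set L := ‖ℓ‖ with hL
    set C := (L * C₁ * M₂ + L * M₁ * C₂ + L * C₂ * M₁ + L * M₂ * C₁) / (‖ℓ (φ 0)‖ / 2) with hC
    apply jt_eq_of_bound hd'.1 (hcca.smul hd.1) (C := C) hδ0
    intro t ht
    have ht0 : 0 < t := ht.1
    obtain ⟨a1, a2, a3⟩ := h₁ t ⟨ht0, lt_of_lt_of_le ht.2 ((min_le_left _ _).trans (min_le_left _ _))⟩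
    obtain ⟨b1, b2, b3⟩ := h₂ t ⟨ht0, lt_of_lt_of_le ht.2 ((min_le_left _ _).trans (min_le_right _ _))⟩
    have htb : t ∈ ball (0 : ℝ) δ₃ := by
      rw [mem_ball, Real.dist_eq, sub_zero, abs_of_pos ht0]
      exact lt_of_lt_of_le ht.2 (min_le_right _ _)
    obtain ⟨g1, g2, g3, g4⟩ := h₃ t htb
    rw [← hφ] at a1 a2
    rw [← hφ'] at b1 b2
    set ψ := psi b ν a χ c ρ w s₀ z₀ t with hψ
    set ψ' := psi b' ν a χ' c' ρ' w' s₀' z₀' t with hψ'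
    have hψm : ψ ∈ X := (χ.σ_mem _ (B.mem _ g3 z₀ hz₀)).1
    have hψ'm : ψ' ∈ X := (χ'.σ_mem _ (B'.mem _ g4 z₀' hz₀')).1
    have hψ0 : ψ ≠ 0 := fun h0 => hX.zero_notMem (h0 ▸ hψm)
    have hψ'0 : ψ' ≠ 0 := fun h0 => hX.zero_notMem (h0 ▸ hψ'm)
    have hpr : pr ψ' = pr ψ := by
      have e1 := B.eq _ g3 z₀ hz₀
      have e2 := B'.eq _ g4 z₀' hz₀'
      rw [hψ, hψ', psi, psi, ← e1, ← e2, g1]
    obtain ⟨β, _, hβ⟩ := (Pool.Agent.H62.EF.pr_eq_iff hψ'0 hψ0).1 hpr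
    have hcross : ℓ ψ • ψ' = ℓ ψ' • ψ := by
      rw [hβ, map_smul, smul_smul, smul_eq_mul, mul_comm]
    have hℓφt : ℓ (φ (t : ℂ)) ≠ 0 := by
      intro h0
      rw [h0, norm_zero] at g2
      have := norm_pos_iff.mpr hℓφ0
      linarith
    have hdiff : φ' (t : ℂ) - cc (t : ℂ) • φ (t : ℂ) = (ℓ (φ (t : ℂ)))⁻¹ •
        (ℓ (φ (t : ℂ) - ψ) • φ' (t : ℂ) + ℓ ψ • (φ' (t : ℂ) - ψ') - ℓ (φ' (t : ℂ) - ψ') • φ (t : ℂ) - ℓ ψ' • (φ (t : ℂ) - ψ)) := by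
      have e : ℓ (φ (t : ℂ) - ψ) • φ' (t : ℂ) + ℓ ψ • (φ' (t : ℂ) - ψ') - ℓ (φ' (t : ℂ) - ψ') • φ (t : ℂ) - ℓ ψ' • (φ (t : ℂ) - ψ) =
          ℓ (φ (t : ℂ)) • φ' (t : ℂ) - ℓ (φ' (t : ℂ)) • φ (t : ℂ) - (ℓ ψ • ψ' - ℓ ψ' • ψ) := by
        rw [map_sub, map_sub, sub_smul, sub_smul, smul_sub, smul_sub]
        abel
      rw [e, hcross, sub_self, sub_zero, smul_sub, smul_smul, inv_mul_cancel₀ hℓφt, one_smul, smul_smul]
      congr 2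
      simp only [hcc]
      rw [div_eq_mul_inv, mul_comm]
    show ‖φ' (t : ℂ) - cc (t : ℂ) • φ (t : ℂ)‖ ≤ C * t ^ (m + 1)
    rw [hdiff, norm_smul, norm_inv]
    have hn1 : ‖ℓ (φ (t : ℂ) - ψ) • φ' (t : ℂ) + ℓ ψ • (φ' (t : ℂ) - ψ') - ℓ (φ' (t : ℂ) - ψ') • φ (t : ℂ) - ℓ ψ' • (φ (t : ℂ) - ψ)‖ ≤
        (L * C₁ * M₂ + L * M₁ * C₂ + L * C₂ * M₁ + L * M₂ * C₁) * t ^ (m + 1) := by
      have hL0 : 0 ≤ L := norm_nonneg _
      have htm : 0 ≤ t ^ (m + 1) := by positivity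
      have n1 : ‖ℓ (φ (t : ℂ) - ψ) • φ' (t : ℂ)‖ ≤ L * C₁ * M₂ * t ^ (m + 1) := by
        rw [norm_smul]
        calc ‖ℓ (φ (t : ℂ) - ψ)‖ * ‖φ' (t : ℂ)‖ ≤ (L * (C₁ * t ^ (m + 1))) * M₂ :=
              mul_le_mul ((ℓ.le_opNorm _).trans (mul_le_mul_of_nonneg_left a1 hL0)) b2 (norm_nonneg _) (by positivity)
          _ = _ := by ring
      have n2 : ‖ℓ ψ • (φ' (t : ℂ) - ψ')‖ ≤ L * M₁ * C₂ * t ^ (m + 1) := by
        rw [norm_smul]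
        calc ‖ℓ ψ‖ * ‖φ' (t : ℂ) - ψ'‖ ≤ (L * M₁) * (C₂ * t ^ (m + 1)) :=
              mul_le_mul ((ℓ.le_opNorm _).trans (mul_le_mul_of_nonneg_left a3 hL0)) b1 (norm_nonneg _) (by positivity)
          _ = _ := by ring
      have n3 : ‖ℓ (φ' (t : ℂ) - ψ') • φ (t : ℂ)‖ ≤ L * C₂ * M₁ * t ^ (m + 1) := by
        rw [norm_smul]
        calc ‖ℓ (φ' (t : ℂ) - ψ')‖ * ‖φ (t : ℂ)‖ ≤ (L * (C₂ * t ^ (m + 1))) * M₁ :=
              mul_le_mul ((ℓ.le_opNorm _).trans (mul_le_mul_of_nonneg_left b1 hL0)) a2 (norm_nonneg _) (by positivity)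
          _ = _ := by ring
      have n4 : ‖ℓ ψ' • (φ (t : ℂ) - ψ)‖ ≤ L * M₂ * C₁ * t ^ (m + 1) := by
        rw [norm_smul]
        calc ‖ℓ ψ'‖ * ‖φ (t : ℂ) - ψ‖ ≤ (L * M₂) * (C₁ * t ^ (m + 1)) :=
              mul_le_mul ((ℓ.le_opNorm _).trans (mul_le_mul_of_nonneg_left b3 hL0)) a1 (norm_nonneg _) (by positivity)
          _ = _ := by ring
      refine (norm_sub_le _ _).trans ?_
      refine (add_le_add_left (norm_sub_le _ _) _).trans ?_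
      refine (add_le_add_left (add_le_add_left (norm_add_le _ _) _) _).trans ?_
      linarith
    have hpos : 0 < ‖ℓ (φ 0)‖ / 2 := by
      have := norm_pos_iff.mpr hℓφ0
      positivity
    have hinv : ‖ℓ (φ (t : ℂ))‖⁻¹ ≤ (‖ℓ (φ 0)‖ / 2)⁻¹ := inv_anti₀ hpos g2
    calc ‖ℓ (φ (t : ℂ))‖⁻¹ * ‖ℓ (φ (t : ℂ) - ψ) • φ' (t : ℂ) + ℓ ψ • (φ' (t : ℂ) - ψ') - ℓ (φ' (t : ℂ) - ψ') • φ (t : ℂ) - ℓ ψ' • (φ (t : ℂ) - ψ)‖
        ≤ (‖ℓ (φ 0)‖ / 2)⁻¹ * ((L * C₁ * M₂ + L * M₁ * C₂ + L * C₂ * M₁ + L * M₂ * C₁) * t ^ (m + 1)) :=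
          mul_le_mul hinv hn1 (norm_nonneg _) (by positivity)
      _ = C * t ^ (m + 1) := by
          rw [hC]
          field_simp
  have hQ' : QF P b' a χ' c' ρ' (Jt m w' s₀' z₀') = (cc 0)⁻¹ * QF P b a χ c ρ (Jt m w s₀ z₀) := by
    rw [QF, QF, ← hφ, ← hφ', hjet]
    exact P.scale φ hd cc hcca hcc0ne
  rw [hQ', hcc0, inv_div]
  field_simp

end Pool.Agent.G3.C

end

section

/-!
# G3 C PVb: the value of the jet form on a smooth family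

`pval P a b Φ s z x`, for a representative `x` of the point `Φ s z`: in every straight chart it is `QF * α`, where `χ.σ = α • x` (`pval_eq`, from `QF_unique` with `Φ' = Φ`).
-/

set_option autoImplicit false

open Topology Filter Metric

namespace Pool.Agent.G3.C

open Pool.Agent.H36.BP (EN fs wd)
open Pool.Agent.H14.PP (IsCone)
open Pool.Agent.H62.EF (MN pr)
open Pool.Agent.AD (Vd Chart Charts)
open Pool.Agent.TG (TMap Lat Str ms tl)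

variable {N k : ℕ} {X : Set (EN N)} {Λ : AddSubgroup (Vd (k + 1))} {u : EN N → Vd (k + 1)} {ν a b c : Vd (k + 1)} {m : ℕ} {ρ : ℝ}

open Classical in
/-- the value of the jet form on the family, for the representative `x` of `Φ s z` -/
noncomputable def pval (P : JForm X Λ u ν m) (a b : Vd (k + 1)) (Φ : ℝ → ℂ → MN N) (s : ℝ) (z : ℂ) (x : EN N) : ℂ :=
  if h : ∃ (t : ℂ) (χ : Chart (k + 2) X) (c : Vd (k + 1)) (ρ : ℝ) (w : ℕ → ℝ → ℂ → ℂ) (r : ℝ) (α : ℂ), Box X Λ u a ν b Φ χ c ρ w s z r ∧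
      χ.σ (cz b ν a c ρ (w 0 s z) s z) = α • x ∧ α ≠ 0 ∧ t = QF P b a χ c ρ (Jt m w s z) * α then h.choose else 0

private theorem pvb_ne (hX : IsCone X) {Φ : ℝ → ℂ → MN N} {χ : Chart (k + 2) X} {w : ℕ → ℝ → ℂ → ℂ} {s₀ : ℝ} {z₀ : ℂ} {r : ℝ}
    (B : Box X Λ u a ν b Φ χ c ρ w s₀ z₀ r) {s : ℝ} {z : ℂ} (hs : s ∈ Set.Ioo (s₀ - r) (s₀ + r)) (hz : z ∈ ball z₀ r) :
    χ.σ (cz b ν a c ρ (w 0 s z) s z) ≠ 0 := by
  intro h
  have h1 := (χ.σ_mem _ (B.mem s hs z hz)).1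
  rw [h] at h1
  exact hX.zero_notMem h1

private theorem pvb_self {s₀ r : ℝ} (hr : 0 < r) : s₀ ∈ Set.Ioo (s₀ - r) (s₀ + r) := ⟨by linarith, by linarith⟩

private theorem pvb_exists (hX : IsCone X) {Φ : ℝ → ℂ → MN N} {χ : Chart (k + 2) X} {w : ℕ → ℝ → ℂ → ℂ} {s₀ : ℝ} {z₀ : ℂ} {r : ℝ}
    (B : Box X Λ u a ν b Φ χ c ρ w s₀ z₀ r) {s : ℝ} {z : ℂ} (hs : s ∈ Set.Ioo (s₀ - r) (s₀ + r)) (hz : z ∈ ball z₀ r)
    {x : EN N} (hx : x ≠ 0) (hΦ : Φ s z = pr x) : ∃ α : ℂ, α ≠ 0 ∧ χ.σ (cz b ν a c ρ (w 0 s z) s z) = α • x := by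
  have h := B.eq s hs z hz
  rw [hΦ] at h
  exact (Pool.Agent.H62.EF.pr_eq_iff (pvb_ne hX B hs hz) hx).1 h.symm

theorem Box.move {Φ : ℝ → ℂ → MN N} {χ : Chart (k + 2) X} {w : ℕ → ℝ → ℂ → ℂ} {s₀ : ℝ} {z₀ : ℂ} {r : ℝ} (B : Box X Λ u a ν b Φ χ c ρ w s₀ z₀ r)
    {s : ℝ} {z : ℂ} (hs : s ∈ Set.Ioo (s₀ - r) (s₀ + r)) (hz : z ∈ ball z₀ r) : ∃ r' : ℝ, Box X Λ u a ν b Φ χ c ρ w s z r' := by
  have hr := B.pos
  rw [Set.mem_Ioo] at hs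
  rw [mem_ball] at hz
  obtain ⟨r', hr'def⟩ : ∃ r' : ℝ, r' = min (min (s - (s₀ - r)) ((s₀ + r) - s)) (r - dist z z₀) := ⟨_, rfl⟩
  have h1 : r' ≤ s - (s₀ - r) := by rw [hr'def]; exact (min_le_left _ _).trans (min_le_left _ _)
  have h2 : r' ≤ (s₀ + r) - s := by rw [hr'def]; exact (min_le_left _ _).trans (min_le_right _ _)
  have h3 : r' ≤ r - dist z z₀ := by rw [hr'def]; exact min_le_right _ _
  have h0 : 0 < r' := by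
    rw [hr'def]
    exact lt_min (lt_min (by linarith [hs.1]) (by linarith [hs.2])) (by linarith)
  have hI : Set.Ioo (s - r') (s + r') ⊆ Set.Ioo (s₀ - r) (s₀ + r) := Set.Ioo_subset_Ioo (by linarith) (by linarith)
  have hD : ball z r' ⊆ ball z₀ r := ball_subset_ball' (by linarith)
  exact ⟨r', h0, B.str, ⟨fun j s hs z hz => B.jet.der j s (hI hs) z (hD hz), fun j => (B.jet.cont j).mono (Set.prod_mono hI hD),
    fun j s hs => (B.jet.hol j s (hI hs)).mono hD⟩, fun s hs z hz => B.mem s (hI hs) z (hD hz), fun s hs z hz => B.eq s (hI hs) z (hD hz)⟩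

theorem pval_eq (hX : IsCone X) {Φ : ℝ → ℂ → MN N} {χ : Chart (k + 2) X} {w : ℕ → ℝ → ℂ → ℂ} {s : ℝ} {z : ℂ} {r : ℝ} (B : Box X Λ u a ν b Φ χ c ρ w s z r)
    (P : JForm X Λ u ν m) {x : EN N} {α : ℂ} (hα : χ.σ (cz b ν a c ρ (w 0 s z) s z) = α • x) (hα0 : α ≠ 0) :
    pval P a b Φ s z x = QF P b a χ c ρ (Jt m w s z) * α := by
  have h : ∃ (t : ℂ) (χ : Chart (k + 2) X) (c : Vd (k + 1)) (ρ : ℝ) (w : ℕ → ℝ → ℂ → ℂ) (r : ℝ) (α : ℂ), Box X Λ u a ν b Φ χ c ρ w s z r ∧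
      χ.σ (cz b ν a c ρ (w 0 s z) s z) = α • x ∧ α ≠ 0 ∧ t = QF P b a χ c ρ (Jt m w s z) * α :=
    ⟨_, χ, c, ρ, w, r, α, B, hα, hα0, rfl⟩
  unfold pval
  rw [dif_pos h]
  obtain ⟨χ', c', ρ', w', r', α', B', hα', hα'0, ht⟩ := h.choose_spec
  rw [ht]
  exact QF_unique hX B' B (Eventually.of_forall fun t => rfl) P hα' hα hα'0 hα0

theorem pval_smul (hX : IsCone X) {Φ : ℝ → ℂ → MN N} {s : ℝ} {z : ℂ} (hS : Smo X Λ u a ν b Φ s z) (P : JForm X Λ u ν m) {x : EN N} (hx : x ≠ 0)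
    (hΦ : Φ s z = pr x) {d : ℂ} (hd : d ≠ 0) : pval P a b Φ s z (d • x) = d⁻¹ * pval P a b Φ s z x := by
  obtain ⟨χ, c, ρ, w, r, B⟩ := hS
  obtain ⟨α, hα0, hα⟩ := pvb_exists hX B (pvb_self B.pos) (mem_ball_self B.pos) hx hΦ
  have hα' : χ.σ (cz b ν a c ρ (w 0 s z) s z) = (α * d⁻¹) • (d • x) := by
    rw [smul_smul, mul_assoc, inv_mul_cancel₀ hd, mul_one]
    exact hα
  rw [pval_eq hX B P hα hα0, pval_eq hX B P hα' (mul_ne_zero hα0 (inv_ne_zero hd))]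
  ring

/-- on a leaf the value is a holomorphic function -/
theorem pval_hol (hX : IsCone X) {Φ : ℝ → ℂ → MN N} {s : ℝ} {F : ℂ → EN N} (hF : Differentiable ℂ F) (hF0 : ∀ z, F z ≠ 0) (hΦ : ∀ z, Φ s z = pr (F z))
    {z₀ : ℂ} (hS : Smo X Λ u a ν b Φ s z₀) (P : JForm X Λ u ν m) : AnalyticAt ℂ (fun z => pval P a b Φ s z (F z)) z₀ := by
  obtain ⟨χ, c, ρ, w, r, B⟩ := hS
  have hs : s ∈ Set.Ioo (s - r) (s + r) := pvb_self B.pos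
  have hz₀ : z₀ ∈ ball z₀ r := mem_ball_self B.pos
  obtain ⟨i, hi⟩ : ∃ i, F z₀ i ≠ 0 := by
    by_contra hcon
    push Not at hcon
    exact hF0 z₀ (PiLp.ext hcon)
  have hw : ∀ j, AnalyticAt ℂ (w j s) z₀ := fun j => (B.jet.hol j s hs).analyticAt (isOpen_ball.mem_nhds hz₀)
  have hJ : AnalyticAt ℂ (fun z => Jt m w s z) z₀ := analyticAt_const.prod (analyticAt_id.prod (AnalyticAt.pi fun j => hw j))
  have hQ : AnalyticAt ℂ (QF P b a χ c ρ) (Jt m w s z₀) := QF_analytic P B.str _ (B.mem s hs z₀ hz₀)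
  have hcz : AnalyticAt ℂ (fun z => cz b ν a c ρ (w 0 s z) s z) z₀ := cz_analytic (hw 0) analyticAt_const analyticAt_id
  have hσ : AnalyticAt ℂ (fun z => χ.σ (cz b ν a c ρ (w 0 s z) s z)) z₀ :=
    AnalyticAt.fun_comp (g := χ.σ) (f := fun z => cz b ν a c ρ (w 0 s z) s z) (χ.σ_an _ (B.mem s hs z₀ hz₀)) hcz
  have hcoord : ∀ x : EN N, AnalyticAt ℂ (fun y : EN N => y i) x := fun x => (EuclideanSpace.proj (𝕜 := ℂ) i : EN N →L[ℂ] ℂ).analyticAt x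
  have h1 : AnalyticAt ℂ (fun z => χ.σ (cz b ν a c ρ (w 0 s z) s z) i) z₀ := (hcoord _).fun_comp hσ
  have h2 : AnalyticAt ℂ (fun z => F z i) z₀ := (hcoord _).fun_comp (hF.analyticAt z₀)
  have h3 : AnalyticAt ℂ (fun z => QF P b a χ c ρ (Jt m w s z) * (χ.σ (cz b ν a c ρ (w 0 s z) s z) i / F z i)) z₀ :=
    (hQ.fun_comp hJ).mul (h1.div h2 hi)
  refine h3.congr ?_
  filter_upwards [isOpen_ball.mem_nhds hz₀, h2.continuousAt.eventually_ne hi] with z hz hzi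
  obtain ⟨r', B'⟩ := B.move hs hz
  obtain ⟨α, hα0, hα⟩ := pvb_exists hX B hs hz (hF0 z) (hΦ z)
  rw [pval_eq hX B' P hα hα0, hα, PiLp.smul_apply, smul_eq_mul, mul_div_assoc, div_self hzi, mul_one]

end Pool.Agent.G3.C

end
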