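import Pool.Agent.H94.G4T.M16
import Pool.Agent.H94.G4T.M31
import Pool.Agent.H94.G4T.M33
import Pool.Agent.H94.G4T.M36
import Pool.Agent.H94.G4T.M49
import Pool.Agent.H94.G4T.M74
import Pool.Agent.H94.G4T.M88

/-! The parts of this file: H13.CV.MerP, H13.CV.HomM, G4.C.ChebU, G4.C.SpreadU. -/

section

/-!
# CV MerP: the place under a point of `ℂ`, homomorphisms into the field of meromorphic functions

`exists_placeM`: `v g = ordM z₀ (φ g)` is a valuation of `K` (`φ` is injective), trivial on the constants.  It is not trivial: let `x` be transcendental (`hK.exists_tr`), or its inverse, with `0 ≤ v x`; `c` with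
`0 < ordM z₀ (φ x - c)` (`exists_valueM`), so `0 < v (x - c)`, finite as `x ≠ c`.  So the values of `v` on `K ∖ {0}` form a non-zero subgroup of `ℤ`, equal to `e ℤ` with `e ≥ 1`
(`Int.subgroup_cyclic`, or the least positive value).  `E.ord g = v g / e` (an integer or `⊤`), `AddValuation.of`.  `residue_trdeg`: `Fin 0`: polynomials in no variables are constants.
-/

set_option autoImplicit false

open Topology Filter
open Pool.Agent.H17 Pool.Agent.H17.EntFun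

noncomputable section

namespace Pool.Agent.H13.CV

variable {K : Type} [Field K] [Algebra ℂ K]

private theorem merp_nsmul_top {e : ℕ} (he : 1 ≤ e) : e • (⊤ : WithTop ℤ) = ⊤ := by
  obtain ⟨k, rfl⟩ : ∃ k, e = k + 1 := ⟨e - 1, by omega⟩
  rw [succ_nsmul, add_top]

private theorem merp_mono {e : ℕ} (he : 1 ≤ e) {x y : WithTop ℤ} (h : x ≤ y) :
    WithTop.map (fun a : ℤ => a / (e : ℤ)) x ≤ WithTop.map (fun a : ℤ => a / (e : ℤ)) y := by
  have he' : (0 : ℤ) < e := by exact_mod_cast he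
  induction y with
  | top => exact le_top
  | coe b =>
    induction x with
    | top => exact absurd h (not_le.2 (WithTop.coe_lt_top b))
    | coe a =>
      rw [WithTop.map_coe, WithTop.map_coe, WithTop.coe_le_coe]
      exact Int.ediv_le_ediv he' (WithTop.coe_le_coe.1 h)

private theorem merp_add {e : ℕ} {x y : WithTop ℤ} (hx : x = ⊤ ∨ ∃ k : ℤ, x = ((e * k : ℤ) : WithTop ℤ)) :
    WithTop.map (fun a : ℤ => a / (e : ℤ)) (x + y) =
      WithTop.map (fun a : ℤ => a / (e : ℤ)) x + WithTop.map (fun a : ℤ => a / (e : ℤ)) y := by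
  rcases hx with rfl | ⟨k, rfl⟩
  · rw [top_add, WithTop.map_top, top_add]
  · induction y with
    | top => rw [add_top, WithTop.map_top, add_top]
    | coe b =>
      rw [← WithTop.coe_add, WithTop.map_coe, WithTop.map_coe, WithTop.map_coe, ← WithTop.coe_add,
        WithTop.coe_inj]
      exact Int.add_ediv_of_dvd_left (Dvd.intro k rfl)

theorem exists_placeM (hK : CurveField K) (φ : K →ₐ[ℂ] Mer) (z₀ : ℂ) : ∃ (E : Place K) (e : ℕ), 1 ≤ e ∧ ∀ g : K, ordM z₀ (φ g) = e • E.ord g := by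
  have hinj : Function.Injective φ := φ.toRingHom.injective
  have htop : ∀ g : K, ordM z₀ (φ g) = ⊤ ↔ g = 0 := by
    intro g
    rw [ordM_eq_top, map_eq_zero_iff φ hinj]
  have hcst : ∀ c : ℂ, c ≠ 0 → ordM z₀ (φ (algebraMap ℂ K c)) = 0 := by
    intro c hc
    rw [AlgHom.commutes]
    exact ordM_const z₀ hc
  have hfin : ∀ g : K, g ≠ 0 → ∃ n : ℤ, ordM z₀ (φ g) = (n : WithTop ℤ) := by
    intro g hg
    have h : ordM z₀ (φ g) ≠ ⊤ := fun h => hg ((htop g).1 h)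
    exact ⟨_, (WithTop.coe_untop _ h).symm⟩
  -- the group of the values
  let H : AddSubgroup ℤ :=
    { carrier := {n | ∃ g : K, g ≠ 0 ∧ ordM z₀ (φ g) = (n : WithTop ℤ)}
      add_mem' := by
        rintro a b ⟨g, hg, h1⟩ ⟨g', hg', h2⟩
        refine ⟨g * g', mul_ne_zero hg hg', ?_⟩
        rw [map_mul, AddValuation.map_mul, h1, h2, WithTop.coe_add]
      zero_mem' := ⟨1, one_ne_zero, by rw [map_one, AddValuation.map_one]; rfl⟩
      neg_mem' := by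
        rintro a ⟨g, hg, h1⟩
        refine ⟨g⁻¹, inv_ne_zero hg, ?_⟩
        obtain ⟨n, hn⟩ := hfin g⁻¹ (inv_ne_zero hg)
        have h2 : ordM z₀ (φ g) + ordM z₀ (φ g⁻¹) = 0 := by
          rw [← AddValuation.map_mul, ← map_mul, mul_inv_cancel₀ hg, map_one, AddValuation.map_one]
        rw [h1, hn, ← WithTop.coe_add] at h2
        have h3 : a + n = 0 := WithTop.coe_eq_zero.1 h2
        rw [hn, WithTop.coe_inj]
        omega }
  have hmem : ∀ (n : ℤ), n ∈ H ↔ ∃ g : K, g ≠ 0 ∧ ordM z₀ (φ g) = (n : WithTop ℤ) := fun n => Iff.rfl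
  -- a non-zero value
  have hne : ∃ n ∈ H, n ≠ 0 := by
    obtain ⟨x, hx⟩ := hK.exists_tr
    have hx0 : x ≠ 0 := by
      rintro rfl
      exact hx isAlgebraic_zero
    obtain ⟨n, hn⟩ := hfin x hx0
    by_cases h0 : n = 0
    · have h1 : 0 ≤ ordM z₀ (φ x) := by rw [hn, h0]; exact le_refl _
      obtain ⟨c, hc⟩ := exists_valueM z₀ h1
      have h2 : φ x - algebraMap ℂ Mer c = φ (x - algebraMap ℂ K c) := by
        rw [map_sub, AlgHom.commutes]
      have h3 : x - algebraMap ℂ K c ≠ 0 := by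
        intro h
        rw [sub_eq_zero] at h
        rw [h] at hx
        exact hx (isAlgebraic_algebraMap c)
      obtain ⟨m, hm⟩ := hfin _ h3
      refine ⟨m, ⟨_, h3, hm⟩, ?_⟩
      rintro rfl
      rw [h2, hm] at hc
      exact lt_irrefl _ hc
    · exact ⟨n, ⟨x, hx0, hn⟩, h0⟩
  obtain ⟨a, ha⟩ := Int.subgroup_cyclic H
  have hdvd : ∀ n ∈ H, a ∣ n := by
    intro n hn
    rw [ha, ← AddSubgroup.zmultiples_eq_closure, Int.mem_zmultiples_iff] at hn
    exact hn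
  have haH : a ∈ H := by
    rw [ha]
    exact AddSubgroup.subset_closure rfl
  have ha0 : a ≠ 0 := by
    rintro rfl
    obtain ⟨n, hn, hn0⟩ := hne
    exact hn0 (zero_dvd_iff.1 (hdvd n hn))
  obtain ⟨e, he⟩ : ∃ e : ℕ, e = a.natAbs := ⟨_, rfl⟩
  have he1 : 1 ≤ e := by
    rw [he]
    exact Int.natAbs_pos.2 ha0
  have heH : (e : ℤ) ∈ H := by
    rcases Int.natAbs_eq a with h | h
    · rw [he, ← h]
      exact haH
    · have h2 : (e : ℤ) = -a := by
        rw [he]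
        omega
      rw [h2]
      exact H.neg_mem haH
  have hval : ∀ g : K, ordM z₀ (φ g) = ⊤ ∨ ∃ k : ℤ, ordM z₀ (φ g) = ((e * k : ℤ) : WithTop ℤ) := by
    intro g
    by_cases hg : g = 0
    · exact Or.inl ((htop g).2 hg)
    · obtain ⟨n, hn⟩ := hfin g hg
      have h1 : (e : ℤ) ∣ n := by
        rw [he, Int.natAbs_dvd]
        exact hdvd n ⟨g, hg, hn⟩
      obtain ⟨k, hk⟩ := h1
      exact Or.inr ⟨k, by rw [hn, hk]⟩
  have he0 : (e : ℤ) ≠ 0 := by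
    have : 0 < e := he1
    omega
  -- the normalised valuation
  let v : AddValuation K (WithTop ℤ) := AddValuation.of
    (fun g => WithTop.map (fun a : ℤ => a / (e : ℤ)) (ordM z₀ (φ g)))
    (by
      change WithTop.map (fun a : ℤ => a / (e : ℤ)) (ordM z₀ (φ 0)) = ⊤
      rw [(htop 0).2 rfl, WithTop.map_top])
    (by
      change WithTop.map (fun a : ℤ => a / (e : ℤ)) (ordM z₀ (φ 1)) = 0
      rw [map_one, AddValuation.map_one]
      change (((0 : ℤ) / (e : ℤ) : ℤ) : WithTop ℤ) = 0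
      rw [Int.zero_ediv]
      rfl)
    (by
      intro f g
      have h := (ordM z₀).map_add (φ f) (φ g)
      rw [← map_add] at h
      rcases le_total (ordM z₀ (φ f)) (ordM z₀ (φ g)) with h1 | h1
      · rw [min_eq_left h1] at h
        exact (min_le_left _ _).trans (merp_mono he1 h)
      · rw [min_eq_right h1] at h
        exact (min_le_right _ _).trans (merp_mono he1 h))
    (by
      intro f g
      rw [map_mul, AddValuation.map_mul]
      exact merp_add (hval f))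
  have hv : ∀ g, v g = WithTop.map (fun a : ℤ => a / (e : ℤ)) (ordM z₀ (φ g)) := fun g => rfl
  have hvc : ∀ c : ℂ, c ≠ 0 → v (algebraMap ℂ K c) = 0 := by
    intro c hc
    rw [hv, hcst c hc]
    change (((0 : ℤ) / (e : ℤ) : ℤ) : WithTop ℤ) = 0
    rw [Int.zero_ediv]
    rfl
  refine ⟨{ ord := v
            ord_const := ?_
            exists_uniformizer := ?_
            residue_trdeg := ?_ }, e, he1, ?_⟩
  · intro c
    by_cases hc : c = 0
    · rw [hc, map_zero, AddValuation.map_zero]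
      exact le_top
    · rw [hvc c hc]
  · obtain ⟨t, ht, h1⟩ := (hmem e).1 heH
    refine ⟨t, ?_⟩
    rw [hv, h1]
    change ((((e : ℤ) / (e : ℤ) : ℤ)) : WithTop ℤ) = 1
    rw [Int.ediv_self he0]
    rfl
  · have : IsEmpty (Fin (1 - 1)) := inferInstanceAs (IsEmpty (Fin 0))
    refine ⟨fun i => isEmptyElim i, fun i => isEmptyElim i, ?_⟩
    intro p hp
    rw [MvPolynomial.eq_C_of_isEmpty p, MvPolynomial.aeval_C]
    apply hvc
    intro h
    apply hp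
    rw [MvPolynomial.eq_C_of_isEmpty p, h, map_zero]
  · intro g
    change ordM z₀ (φ g) = e • v g
    rw [hv]
    rcases hval g with h | ⟨k, h⟩
    · rw [h, WithTop.map_top, merp_nsmul_top he1]
    · rw [h, WithTop.map_coe, ← WithTop.coe_nsmul, WithTop.coe_inj, Int.mul_ediv_cancel_left _ he0,
        nsmul_eq_mul]

end Pool.Agent.H13.CV

end
end

section

/-!
# CV HomM: the entire curve given by a homomorphism of the function field into the meromorphic functions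

`homMap0`: let `X j ∉ Q`, so `coordFun Q j ≠ 0` (`Pool.Agent.H92.GT.Proj.aeval_coordFun_eq_zero_iff Q (X j)`).  `y i = φ (ratio Q i j) ∈ Mer`, `y j = 1`.  There are `a i, b ∈ EntFun`, `b ≠ 0`, with `y i = a i / b`
(`IsLocalization.exist_integer_multiples_of_finset`), `a j = b`.
`exists_map` (HomA) gives `f` and, for every `z₀`, `k` and `c i` with `a i = coord z₀ ^ k * c i`, `f z₀ = [c i (z₀)]`.
Forms in `Q`: for a form `R ∈ Q`: `aeval (ratio Q · j) R = 0` in `FunField Q`, so `aeval y R = 0`, `aeval (toM ∘ a) R = 0` (homogeneous), so `aeval c R = 0` in `EntFun` (`coord ≠ 0`, domain), evaluate at `z₀`.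
The index `l`: with `c l (z₀) ≠ 0`; then `a l ≠ 0`, `y l ≠ 0`, so `coordFun Q l ≠ 0`, and `φ (ratio Q i l) = y i / y l = c i / c l` has order `≥ 0` at `z₀`.  If the form `R` vanishes at `f z₀`, then
`φ (aeval (ratio Q · l) R) = aeval (c / c l) R = (aeval c R) / c l ^ d` has positive order at `z₀`.
Non-constant: if `f` is constant then the `a i` are proportional to constants (near a point where `k = 0`, then everywhere), so the `y i` are constants, so `φ` of all `ratio Q i l = ratio Q i j / ratio Q l j` are constants,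
and these generate `FunField Q` over `ℂ`; so `φ` maps `K` into `ℂ`: impossible as `φ` is injective and `K` contains a transcendental element (`hK.exists_tr`).
Facts on `coordFun`, `ratio`, `aeval`: `Pool/Agent/H92/GT/Proj*.lean`, `Pool/Agent/H17BP/TrdegLt.lean`, `Pool/Agent/H62/FC/`.
-/

set_option autoImplicit false

open Topology Filter MvPolynomial
open Pool.Agent.H17 (PN VanishesAt ZariskiClosedIn HolomorphicInto puncturedDisc)
open Pool.Agent.H17GT (coordFun)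
open Pool.Agent.H17LG.Variety (FunField IsLogGeneralType ratio)
open Pool.Agent.H62.SA (locVar OnBd)

noncomputable section

namespace Pool.Agent.H13.CV

variable {N : ℕ}

open Pool.Agent.H17 in
open Pool.Agent.H17.EntFun in
private lemma HomM_vanishes_mk {G : MvPolynomial (Fin (N + 1)) ℂ} {n : ℕ} (hG : G.IsHomogeneous n) {v : Fin (N + 1) → ℂ} (hv : v ≠ 0) :
    VanishesAt G (Projectivization.mk ℂ v hv) ↔ eval v G = 0 := by
  obtain ⟨u, hu⟩ := Projectivization.exists_smul_eq_mk_rep ℂ v hv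
  have h1 : eval (Projectivization.mk ℂ v hv).rep G = (u : ℂ) ^ n * eval v G := by
    rw [← hu]
    have h2 := Pool.Agent.H92.GT.Proj.aeval_scale (K := ℂ) hG (u : ℂ) v
    have h3 : ∀ w : Fin (N + 1) → ℂ, eval w G = aeval w G := fun w => rfl
    rw [h3, h3]
    exact h2
  unfold Pool.Agent.H17.VanishesAt
  rw [h1, mul_eq_zero]
  constructor
  · rintro (h | h)
    · exact absurd h (pow_ne_zero _ u.ne_zero)
    · exact h
  · exact fun h => Or.inr h

private def HomM_val (P : Ideal (MvPolynomial (Fin (N + 1)) ℂ)) [P.IsPrime] :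
    FunField P →ₐ[ℂ] FractionRing (MvPolynomial (Fin (N + 1)) ℂ ⧸ P) :=
  (Pool.Agent.H17GT.functionField P).val

open Pool.Agent.H17GT (functionField)

private lemma HomM_val_ratio (P : Ideal (MvPolynomial (Fin (N + 1)) ℂ)) [P.IsPrime] (i j : Fin (N + 1)) :
    HomM_val P (ratio P i j) = coordFun P i / coordFun P j := rfl

private lemma HomM_val_injective (P : Ideal (MvPolynomial (Fin (N + 1)) ℂ)) [P.IsPrime] : Function.Injective (HomM_val P) :=
  (HomM_val P).injective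

private lemma HomM_generate (P : Ideal (MvPolynomial (Fin (N + 1)) ℂ)) [P.IsPrime] :
    IntermediateField.adjoin ℂ {y : FunField P | ∃ i j, y = ratio P i j} = ⊤ := by
  have h : IntermediateField.adjoin ℂ {y : functionField P | ∃ i j, y = ratio P i j} = ⊤ := by
    rw [← IntermediateField.lift_inj, IntermediateField.lift_adjoin, IntermediateField.lift_top]
    conv_rhs => rw [functionField]
    congr 1
    ext y
    constructor
    · rintro ⟨y', ⟨i, j, rfl⟩, rfl⟩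
      exact ⟨i, j, rfl⟩
    · rintro ⟨i, j, rfl⟩
      exact ⟨ratio P i j, ⟨i, j, rfl⟩, rfl⟩
  exact h

private lemma HomM_ratio_div (P : Ideal (MvPolynomial (Fin (N + 1)) ℂ)) [P.IsPrime] {j : Fin (N + 1)} (hj : coordFun P j ≠ 0) (i l : Fin (N + 1)) :
    ratio P i l = ratio P i j / ratio P l j := by
  apply HomM_val_injective
  rw [map_div₀, HomM_val_ratio, HomM_val_ratio, HomM_val_ratio, div_div_div_cancel_right₀ hj]

private lemma HomM_aeval_ratio (P : Ideal (MvPolynomial (Fin (N + 1)) ℂ)) [P.IsPrime] {G : MvPolynomial (Fin (N + 1)) ℂ} {n : ℕ} (hG : G.IsHomogeneous n)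
    (hGP : G ∈ P) (j : Fin (N + 1)) : aeval (fun i => ratio P i j) G = 0 := by
  apply HomM_val_injective
  have h3 : HomM_val P (aeval (fun i => ratio P i j) G) = aeval (fun i => HomM_val P (ratio P i j)) G := by
    rw [← MvPolynomial.comp_aeval]
    rfl
  have h4 : (fun i => HomM_val P (ratio P i j)) = fun i => (coordFun P j)⁻¹ * coordFun P i := by
    funext i
    rw [HomM_val_ratio, div_eq_inv_mul]
  rw [h3, h4, Pool.Agent.H92.GT.Proj.aeval_scale hG, (Pool.Agent.H92.GT.Proj.aeval_coordFun_eq_zero_iff P G).2 hGP, mul_zero, map_zero]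

private lemma HomM_toM_aeval (c : Fin (N + 1) → Pool.Agent.H17.EntFun) (G : MvPolynomial (Fin (N + 1)) ℂ) : aeval (fun i => toM (c i)) G = toM (aeval c G) := by
  have h := MvPolynomial.aeval_algebraMap_apply (R := ℂ) (A := Pool.Agent.H17.EntFun) Mer c G
  exact h

private lemma HomM_ev_aeval (z : ℂ) (c : Fin (N + 1) → Pool.Agent.H17.EntFun) (G : MvPolynomial (Fin (N + 1)) ℂ) :
    ((aeval c G : Pool.Agent.H17.EntFun) : ℂ → ℂ) z = eval (fun i => (c i : ℂ → ℂ) z) G := by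
  have h1 : Pool.Agent.H17.EntFun.ev z (aeval c G) = eval₂ ((Pool.Agent.H17.EntFun.ev z).comp (algebraMap ℂ _)) (fun i => Pool.Agent.H17.EntFun.ev z (c i)) G := by
    rw [aeval_def]
    exact (MvPolynomial.hom_eval₂ G _ _ _)
  exact h1

theorem homMap0 (Q : Ideal (MvPolynomial (Fin (N + 1)) ℂ)) [Q.IsPrime] (hX : ∃ i, (X i : MvPolynomial (Fin (N + 1)) ℂ) ∉ Q)
    (hK : CurveField (FunField Q)) (φ : FunField Q →ₐ[ℂ] Mer) :
    ∃ f : ℂ → PN N, HolomorphicInto f Set.univ ∧ (∀ z, ∀ R ∈ Q, ∀ n, R.IsHomogeneous n → VanishesAt R (f z)) ∧ (∃ z w, f z ≠ f w) ∧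
      ∀ z₀ : ℂ, ∃ l, coordFun Q l ≠ 0 ∧ (∀ i, 0 ≤ ordM z₀ (φ (ratio Q i l))) ∧
        ∀ (R : MvPolynomial (Fin (N + 1)) ℂ) (d : ℕ), R.IsHomogeneous d → VanishesAt R (f z₀) → 0 < ordM z₀ (φ (aeval (fun i => ratio Q i l) R)) := by
  classical
  obtain ⟨j, hjX⟩ := hX
  have hj : coordFun Q j ≠ 0 := by
    intro h0
    apply hjX
    rw [← Pool.Agent.H92.GT.Proj.aeval_coordFun_eq_zero_iff, aeval_X]
    exact h0
  have hrj : ratio Q j j = 1 := by
    apply HomM_val_injective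
    rw [HomM_val_ratio, map_one, div_self hj]
  -- the common denominator
  obtain ⟨b', hb'⟩ := IsLocalization.exist_integer_multiples_of_finite (nonZeroDivisors Pool.Agent.H17.EntFun) (fun i : Fin (N + 1) => φ (ratio Q i j))
  have hb'0 : (b' : Pool.Agent.H17.EntFun) ≠ 0 := nonZeroDivisors.ne_zero b'.2
  have hinj : Function.Injective (algebraMap Pool.Agent.H17.EntFun Mer) := IsFractionRing.injective _ _
  have htb : toM (b' : Pool.Agent.H17.EntFun) ≠ 0 := fun h => hb'0 (hinj (h.trans (map_zero _).symm))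
  choose a ha using hb'
  have ha' : ∀ i, toM (a i) = toM (b' : Pool.Agent.H17.EntFun) * φ (ratio Q i j) := by
    intro i
    have h1 := ha i
    rw [Algebra.smul_def] at h1
    exact h1
  have haj : a j ≠ 0 := by
    intro h0
    have h1 := ha' j
    rw [h0, hrj, map_one, mul_one] at h1
    exact htb (h1.symm.trans (map_zero _))
  obtain ⟨f, hf, hfz⟩ := exists_map a ⟨j, haj⟩
  -- the coordinates
  have key : ∀ (z₀ : ℂ) (k : ℕ) (c : Fin (N + 1) → Pool.Agent.H17.EntFun), (∀ i, a i = Pool.Agent.H17.EntFun.coord z₀ ^ k * c i) →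
      ∃ s : Mer, s ≠ 0 ∧ ∀ i, φ (ratio Q i j) = s * toM (c i) := by
    intro z₀ k c hc
    refine ⟨toM (Pool.Agent.H17.EntFun.coord z₀ ^ k) / toM (b' : Pool.Agent.H17.EntFun), ?_, ?_⟩
    · refine div_ne_zero ?_ htb
      intro h0
      exact pow_ne_zero k (Pool.Agent.H17.EntFun.coord_ne_zero z₀) (hinj (h0.trans (map_zero _).symm))
    · intro i
      have h1 := ha' i
      rw [hc i] at h1
      have h2 : toM (Pool.Agent.H17.EntFun.coord z₀ ^ k * c i) = toM (Pool.Agent.H17.EntFun.coord z₀ ^ k) * toM (c i) := map_mul _ _ _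
      rw [h2] at h1
      rw [div_mul_eq_mul_div, h1, mul_div_cancel_left₀ _ htb]
  refine ⟨f, hf, ?_, ?_, ?_⟩
  · -- the map is into the closed subvariety
    intro z₀ G hGQ n hG
    obtain ⟨k, c, h, hc, hfc⟩ := hfz z₀
    obtain ⟨s, hs, hsc⟩ := key z₀ k c hc
    rw [hfc, HomM_vanishes_mk hG]
    have h1 := congrArg φ (HomM_aeval_ratio Q hG hGQ j)
    rw [map_zero] at h1
    have h2 : φ (aeval (fun i => ratio Q i j) G) = aeval (fun i => φ (ratio Q i j)) G := by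
      rw [← MvPolynomial.comp_aeval]
      rfl
    have h3 : (fun i => φ (ratio Q i j)) = fun i => s * toM (c i) := funext hsc
    rw [h2, h3, Pool.Agent.H92.GT.Proj.aeval_scale hG, HomM_toM_aeval] at h1
    have h4 : toM (aeval c G) = 0 := (mul_eq_zero.1 h1).resolve_left (pow_ne_zero _ hs)
    have h5 : aeval c G = 0 := hinj (h4.trans (map_zero _).symm)
    rw [← HomM_ev_aeval, h5]
    rfl
  · -- the map is not constant
    by_contra hcon
    push Not at hcon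
    obtain ⟨k, c, h, hc, hfc⟩ := hfz 0
    obtain ⟨l, hl⟩ := Function.ne_iff.1 h
    set v : Fin (N + 1) → ℂ := fun i => (c i : ℂ → ℂ) 0 with hv
    have hl' : v l ≠ 0 := hl
    have hprop : ∀ i, a i * algebraMap ℂ Pool.Agent.H17.EntFun (v l) = a l * algebraMap ℂ Pool.Agent.H17.EntFun (v i) := by
      intro i
      ext z
      obtain ⟨k', c', h', hc', hfc'⟩ := hfz z
      have h1 : Projectivization.mk ℂ (fun i => (c' i : ℂ → ℂ) z) h' = Projectivization.mk ℂ v h := by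
        rw [← hfc', ← hfc]
        exact hcon z 0
      rw [Projectivization.mk_eq_mk_iff'] at h1
      obtain ⟨u, hu⟩ := h1
      have h2 : ∀ i, (c' i : ℂ → ℂ) z = u * v i := fun i => (congrFun hu i).symm
      have h3 : ∀ i, (a i : ℂ → ℂ) z = (z - z) ^ k' * (u * v i) := by
        intro i
        rw [hc' i, ← h2 i]
        rfl
      change (a i : ℂ → ℂ) z * v l = (a l : ℂ → ℂ) z * v i
      rw [h3 i, h3 l]
      ring
    have hprop' : ∀ i, φ (ratio Q i j) * algebraMap ℂ Mer (v l) = φ (ratio Q l j) * algebraMap ℂ Mer (v i) := by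
      intro i
      have h1 := congrArg (algebraMap Pool.Agent.H17.EntFun Mer) (hprop i)
      rw [map_mul, map_mul] at h1
      have h2 := ha' i
      have h3 := ha' l
      have h4 : toM (b' : Pool.Agent.H17.EntFun) * (φ (ratio Q i j) * algebraMap ℂ Mer (v l)) =
          toM (b' : Pool.Agent.H17.EntFun) * (φ (ratio Q l j) * algebraMap ℂ Mer (v i)) := by
        rw [← mul_assoc, ← mul_assoc, ← h2, ← h3, algebraMap_eq, algebraMap_eq]
        exact h1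
      exact mul_left_cancel₀ htb h4
    have hpropK : ∀ i, ratio Q i j * algebraMap ℂ (FunField Q) (v l) = ratio Q l j * algebraMap ℂ (FunField Q) (v i) := by
      intro i
      have hφ : Function.Injective φ := φ.toRingHom.injective
      apply hφ
      have h1 := hprop' i
      rw [map_mul, map_mul, AlgHom.commutes, AlgHom.commutes]
      exact h1
    have hvl : algebraMap ℂ (FunField Q) (v l) ≠ 0 := by
      intro h0
      exact hl' ((algebraMap ℂ (FunField Q)).injective (h0.trans (map_zero _).symm))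
    have hrl : ratio Q l j ≠ 0 := by
      intro h0
      have h1 := hpropK j
      rw [h0, zero_mul, hrj, one_mul] at h1
      exact hvl h1
    have hrc : ∀ i, ratio Q i j / ratio Q l j = algebraMap ℂ (FunField Q) (v i / v l) := by
      intro i
      rw [map_div₀, div_eq_div_iff hrl hvl, mul_comm (algebraMap ℂ (FunField Q) (v i))]
      exact hpropK i
    have hbot : IntermediateField.adjoin ℂ {y : FunField Q | ∃ i j, y = ratio Q i j} = ⊥ := by
      rw [IntermediateField.adjoin_eq_bot_iff]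
      rintro y ⟨i, i', rfl⟩
      have h1 : ratio Q i i' = (ratio Q i j / ratio Q l j) / (ratio Q i' j / ratio Q l j) := by
        rw [div_div_div_cancel_right₀ hrl, ← HomM_ratio_div Q hj]
      rw [h1, hrc, hrc, ← map_div₀]
      exact IntermediateField.algebraMap_mem _ _
    obtain ⟨x, hx⟩ := hK.exists_tr
    apply hx
    have hx1 : x ∈ (⊥ : IntermediateField ℂ (FunField Q)) := by
      rw [← hbot, HomM_generate]
      exact IntermediateField.mem_top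
    obtain ⟨t, ht⟩ := IntermediateField.mem_bot.1 hx1
    rw [← ht]
    exact isAlgebraic_algebraMap t
  · -- the forms which vanish at a point
    intro z₀
    obtain ⟨k, c, h, hc, hfc⟩ := hfz z₀
    obtain ⟨s, hs, hsc⟩ := key z₀ k c hc
    obtain ⟨l, hl⟩ := Function.ne_iff.1 h
    have hl' : (c l : ℂ → ℂ) z₀ ≠ 0 := hl
    have hcl : toM (c l) ≠ 0 := by
      intro h0
      have h1 : c l = 0 := hinj (h0.trans (map_zero _).symm)
      rw [h1] at hl'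
      exact hl' rfl
    have hrl : ratio Q l j ≠ 0 := by
      intro h0
      have h1 := hsc l
      rw [h0, map_zero] at h1
      exact mul_ne_zero hs hcl h1.symm
    have hcfl : coordFun Q l ≠ 0 := by
      intro h0
      apply hrl
      apply HomM_val_injective
      rw [HomM_val_ratio, h0, zero_div, map_zero]
    have hordl : ordM z₀ (toM (c l)) = 0 := by
      apply le_antisymm
      · rw [← not_lt, ordM_toM_pos]
        exact hl'
      · exact ordM_toM_nonneg _ _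
    have hrat : ∀ i, φ (ratio Q i l) * toM (c l) = toM (c i) := by
      intro i
      rw [HomM_ratio_div Q hj i l, map_div₀, hsc i, hsc l, mul_div_mul_left _ _ hs, div_mul_cancel₀ _ hcl]
    refine ⟨l, hcfl, fun i => ?_, fun R d hd hR => ?_⟩
    · have h1 := congrArg (ordM z₀) (hrat i)
      rw [AddValuation.map_mul, hordl, add_zero] at h1
      rw [h1]
      exact ordM_toM_nonneg _ _
    · rw [hfc, HomM_vanishes_mk hd] at hR
      have h2 : φ (aeval (fun i => ratio Q i l) R) = aeval (fun i => φ (ratio Q i l)) R := by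
        rw [← MvPolynomial.comp_aeval]
        rfl
      have h3 : toM (c l) ^ d * φ (aeval (fun i => ratio Q i l) R) = toM (aeval c R) := by
        rw [h2, ← Pool.Agent.H92.GT.Proj.aeval_scale hd, ← HomM_toM_aeval]
        congr 2
        funext i
        rw [mul_comm]
        exact hrat i
      have h4 := congrArg (ordM z₀) h3
      rw [AddValuation.map_mul, AddValuation.map_pow, hordl, smul_zero, zero_add] at h4
      rw [h4, ordM_toM_pos, HomM_ev_aeval]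
      exact hR

theorem nonneg_of_smul {e : ℕ} (he : 1 ≤ e) {a b : WithTop ℤ} (h : a = e • b) (ha : 0 ≤ a) : 0 ≤ b := by
  by_contra hcon
  push Not at hcon
  have hb : b ≠ ⊤ := ne_top_of_lt hcon
  obtain ⟨n, rfl⟩ := WithTop.ne_top_iff_exists.mp hb
  have h1 : n < 0 := by exact_mod_cast hcon
  rw [h, ← WithTop.coe_nsmul] at ha
  have h2 : (0 : ℤ) ≤ e • n := by exact_mod_cast ha
  rw [nsmul_eq_mul] at h2
  have h3 : (1 : ℤ) ≤ e := by exact_mod_cast he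
  nlinarith

theorem pos_of_smul {e : ℕ} {a b : WithTop ℤ} (h : a = e • b) (ha : 0 < a) : 0 < b := by
  by_contra hcon
  push Not at hcon
  have h1 : e • b ≤ e • (0 : WithTop ℤ) := nsmul_le_nsmul_right hcon e
  rw [smul_zero, ← h] at h1
  exact absurd ha (not_lt.mpr h1)

theorem homMapL (Q : Ideal (MvPolynomial (Fin (N + 1)) ℂ)) [Q.IsPrime] (hX : ∃ i, (X i : MvPolynomial (Fin (N + 1)) ℂ) ∉ Q) (hK : CurveField (FunField Q))
    {s : ℕ} {G : Fin s → MvPolynomial (Fin (N + 1)) ℂ} (hG : ∀ m, ∃ d, (G m).IsHomogeneous d) (φ : FunField Q →ₐ[ℂ] Mer)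
    (hB : ∀ (z₀ : ℂ) (E : Place (FunField Q)) (e : ℕ), 1 ≤ e → (∀ g, ordM z₀ (φ g) = e • E.ord g) → ¬ OnBd Q G E) :
    ∃ f : ℂ → PN N, HolomorphicInto f Set.univ ∧ (∀ z, f z ∈ locVar Q G) ∧ ∃ z w, f z ≠ f w := by
  obtain ⟨f, hf, hfQ, hne, hz⟩ := homMap0 Q hX hK φ
  refine ⟨f, hf, fun z₀ => ⟨hfQ z₀, ?_⟩, hne⟩
  by_contra hcon
  push Not at hcon
  obtain ⟨E, e, he, hE⟩ := exists_placeM hK φ z₀
  obtain ⟨l, hl, hreg, hR⟩ := hz z₀
  refine hB z₀ E e he hE ⟨l, hl, fun i => nonneg_of_smul he (hE _) (hreg i), fun m => ?_⟩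
  obtain ⟨d, hd⟩ := hG m
  exact pos_of_smul (hE _) (hR _ d hd (hcon m))

end Pool.Agent.H13.CV

end
end

section

/-!
# G4 C ChebU: extension in a real parameter, uniform version

`coef_of_ext`: if `f` extends to complex `s` then the Fourier coefficients `cf n` of `θ ↦ f (s₀ + δ cos θ) z` are at most `C 2^(-n)`.  `ext_of_coef`: conversely, if this holds for `z` in a small disc then `f` extends
over a large disc, with a radius in `s` which depends only on the radii.  `cf_param`: the coefficients are continuous in a parameter.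
-/

set_option autoImplicit false

open Topology Filter Metric Set MeasureTheory

namespace Pool.Agent.G4.C

open Pool.Agent.G3.C (cf)

private theorem cs_mem {s₀ δ : ℝ} (hδ : 0 ≤ δ) (θ : ℝ) : s₀ + δ * Real.cos θ ∈ Icc (s₀ - δ) (s₀ + δ) := by
  have h1 := Real.neg_one_le_cos θ
  have h2 := Real.cos_le_one θ
  constructor <;> nlinarith only [hδ, h1, h2]

private theorem cf_neg (f : ℝ → ℂ → ℂ) (s₀ δ : ℝ) (n : ℤ) (z : ℂ) : cf f s₀ δ (-n) z = cf f s₀ δ n z := by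
  unfold cf
  congr 1
  have h := intervalIntegral.integral_comp_sub_left (a := 0) (b := 2 * Real.pi)
    (fun θ : ℝ => Complex.exp (-((n : ℂ) * θ * Complex.I)) * f (s₀ + δ * Real.cos θ) z) (2 * Real.pi)
  rw [sub_self, sub_zero] at h
  rw [← h]
  refine intervalIntegral.integral_congr fun θ _ => ?_
  rw [Real.cos_two_pi_sub]
  congr 1
  rw [show -((n : ℂ) * ((2 * Real.pi - θ : ℝ) : ℂ) * Complex.I) = -((((-n : ℤ)) : ℂ) * θ * Complex.I) + ((-n : ℤ) : ℂ) * (2 * Real.pi * Complex.I) by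
    push_cast; ring, Complex.exp_add, Complex.exp_int_mul_two_pi_mul_I, mul_one]

private theorem cf_cont {f : ℝ → ℂ → ℂ} {s₀ δ : ℝ} (hδ : 0 ≤ δ) {U : Set ℂ}
    (hc : ContinuousOn (fun p : ℝ × ℂ => f p.1 p.2) (Icc (s₀ - δ) (s₀ + δ) ×ˢ U)) {z : ℂ} (hz : z ∈ U) :
    Continuous fun θ : ℝ => f (s₀ + δ * Real.cos θ) z := by
  have h1 : Continuous fun θ : ℝ => ((s₀ + δ * Real.cos θ, z) : ℝ × ℂ) := by fun_prop
  exact hc.comp_continuous h1 fun θ => ⟨cs_mem hδ θ, hz⟩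

private theorem cf_le {f : ℝ → ℂ → ℂ} {s₀ δ : ℝ} (hδ : 0 ≤ δ) {z : ℂ} {M : ℝ} (hM : ∀ s ∈ Icc (s₀ - δ) (s₀ + δ), ‖f s z‖ ≤ M) (n : ℤ) :
    ‖cf f s₀ δ n z‖ ≤ M := by
  unfold cf
  have hpi := Real.pi_pos
  rw [norm_smul, Real.norm_of_nonneg (by positivity)]
  have h1 : ‖∫ θ in (0 : ℝ)..2 * Real.pi, Complex.exp (-(n * θ * Complex.I)) * f (s₀ + δ * Real.cos θ) z‖ ≤ M * |2 * Real.pi - 0| := by
    refine intervalIntegral.norm_integral_le_of_norm_le_const fun θ _ => ?_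
    rw [norm_mul]
    have h2 : ‖Complex.exp (-((n : ℂ) * θ * Complex.I))‖ = 1 := by
      rw [show -((n : ℂ) * θ * Complex.I) = ((-(n * θ) : ℝ) : ℂ) * Complex.I by push_cast; ring, Complex.norm_exp_ofReal_mul_I]
    rw [h2, one_mul]
    exact hM _ (cs_mem hδ θ)
  rw [sub_zero, abs_of_pos (by positivity)] at h1
  calc 1 / (2 * Real.pi) * ‖∫ θ in (0 : ℝ)..2 * Real.pi, Complex.exp (-(n * θ * Complex.I)) * f (s₀ + δ * Real.cos θ) z‖
      ≤ 1 / (2 * Real.pi) * (M * (2 * Real.pi)) := by gcongr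
    _ = M := by field_simp

private theorem cf_hol {f : ℝ → ℂ → ℂ} {s₀ δ : ℝ} (hδ : 0 ≤ δ) {U : Set ℂ} (hU : IsOpen U)
    (hc : ContinuousOn (fun p : ℝ × ℂ => f p.1 p.2) (Icc (s₀ - δ) (s₀ + δ) ×ˢ U))
    (hh : ∀ s ∈ Icc (s₀ - δ) (s₀ + δ), DifferentiableOn ℂ (f s) U) (n : ℤ) : DifferentiableOn ℂ (cf f s₀ δ n) U := by
  have hpi := Real.pi_pos
  suffices hm : DifferentiableOn ℂ (fun z => ∫ θ in (0 : ℝ)..2 * Real.pi, Complex.exp (-(n * θ * Complex.I)) * f (s₀ + δ * Real.cos θ) z) U from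
    hm.const_smul (1 / (2 * Real.pi) : ℝ)
  have e : (fun z => ∫ θ in (0 : ℝ)..2 * Real.pi, Complex.exp (-(n * θ * Complex.I)) * f (s₀ + δ * Real.cos θ) z) =
      fun z => ∫ θ in Ioc (0 : ℝ) (2 * Real.pi), Complex.exp (-(n * θ * Complex.I)) * f (s₀ + δ * Real.cos θ) z := by
    funext z
    rw [intervalIntegral.integral_of_le (by positivity)]
  rw [e]
  have hcz : ∀ z ∈ U, Continuous fun θ : ℝ => Complex.exp (-((n : ℂ) * θ * Complex.I)) * f (s₀ + δ * Real.cos θ) z := fun z hz =>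
    Continuous.mul (by fun_prop) (cf_cont hδ hc hz)
  refine Pool.Agent.H97.SE.par_hol hU measurableSet_Ioc (F := fun z θ => Complex.exp (-((n : ℂ) * θ * Complex.I)) * f (s₀ + δ * Real.cos θ) z)
    (fun θ _ => (hh _ (cs_mem hδ θ)).const_mul _) (fun z hz => (hcz z hz).aestronglyMeasurable) fun z₀ hz₀ => ?_
  obtain ⟨r, hr, hrU⟩ := Metric.nhds_basis_closedBall.mem_iff.1 (hU.mem_nhds hz₀)
  have hK : IsCompact (Icc (s₀ - δ) (s₀ + δ) ×ˢ closedBall z₀ r) := isCompact_Icc.prod (isCompact_closedBall z₀ r)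
  obtain ⟨C, hC⟩ := hK.exists_bound_of_continuousOn (hc.mono (prod_mono le_rfl hrU))
  refine ⟨r, hr, fun _ => C, integrableOn_const measure_Ioc_lt_top.ne , fun z _ hz θ _ => ?_⟩
  rw [norm_mul]
  have h2 : ‖Complex.exp (-((n : ℂ) * θ * Complex.I))‖ = 1 := by
    rw [show -((n : ℂ) * θ * Complex.I) = ((-(n * θ) : ℝ) : ℂ) * Complex.I by push_cast; ring, Complex.norm_exp_ofReal_mul_I]
  rw [h2, one_mul]
  exact hC (s₀ + δ * Real.cos θ, z) ⟨cs_mem hδ θ, by rw [mem_closedBall, dist_eq_norm]; exact hz.le⟩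

/-- the bound of the coefficients where `f` extends -/
private theorem cf_geo {f : ℝ → ℂ → ℂ} {s₀ δ : ℝ} (hδ : 0 < δ) {z : ℂ} {g : ℂ → ℂ} {C : ℝ}
    (hg : DifferentiableOn ℂ g (ball (s₀ : ℂ) (2 * δ))) (hgC : ∀ ζ ∈ closedBall (s₀ : ℂ) (3 / 2 * δ), ‖g ζ‖ ≤ C)
    (hgf : ∀ s ∈ Icc (s₀ - δ) (s₀ + δ), g s = f s z) (n : ℕ) : ‖cf f s₀ δ n z‖ ≤ C * (1 / 2) ^ n := by
  have hpi := Real.pi_pos
  -- the Joukowski map
  obtain ⟨J, hJ⟩ : ∃ J : ℂ → ℂ, ∀ w, J w = s₀ + δ * ((w + w⁻¹) / 2) := ⟨_, fun w => rfl⟩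
  have hJn : ∀ w : ℂ, 1 ≤ ‖w‖ → ‖w‖ ≤ 2 → J w ∈ closedBall (s₀ : ℂ) (3 / 2 * δ) := by
    intro w h1 h2
    rw [mem_closedBall, dist_eq_norm, hJ, add_sub_cancel_left, norm_mul, Complex.norm_real, Real.norm_of_nonneg hδ.le, norm_div]
    have h3 : ‖w + w⁻¹‖ ≤ 2 + 1 := by
      refine (norm_add_le _ _).trans (add_le_add h2 ?_)
      rw [norm_inv]
      exact inv_le_one_of_one_le₀ h1
    have h4 : ‖(2 : ℂ)‖ = 2 := by simp
    rw [h4]
    nlinarith only [hδ, h3]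
  have hsub : closedBall (s₀ : ℂ) (3 / 2 * δ) ⊆ ball (s₀ : ℂ) (2 * δ) := closedBall_subset_ball (by linarith only [hδ])
  have hJd : ∀ w : ℂ, w ≠ 0 → DifferentiableAt ℂ J w := by
    intro w hw
    have : J = fun w => (s₀ : ℂ) + δ * ((w + w⁻¹) / 2) := funext hJ
    rw [this]
    fun_prop (disch := exact hw)
  obtain ⟨H, hH⟩ : ∃ H : ℂ → ℂ, ∀ w, H w = (w ^ (n + 1))⁻¹ * g (J w) := ⟨_, fun w => rfl⟩
  have hHd : ∀ w : ℂ, 1 ≤ ‖w‖ → ‖w‖ ≤ 2 → DifferentiableAt ℂ H w := by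
    intro w h1 h2
    have hw : w ≠ 0 := by
      intro h
      rw [h, norm_zero] at h1
      linarith
    have e : H = fun w => (w ^ (n + 1))⁻¹ * g (J w) := funext hH
    rw [e]
    have h3 : DifferentiableAt ℂ g (J w) := hg.differentiableAt (isOpen_ball.mem_nhds (hsub (hJn w h1 h2)))
    exact ((differentiableAt_id.pow _).inv (pow_ne_zero _ hw)).mul (h3.comp w (hJd w hw))
  have hann : (∮ w in C(0, 2), H w) = ∮ w in C(0, 1), H w := by
    refine Complex.circleIntegral_eq_of_differentiable_on_annulus_off_countable one_pos one_le_two countable_empty ?_ ?_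
    · intro w hw
      have h2 : ‖w‖ ≤ 2 := by simpa using hw.1
      have h1 : 1 ≤ ‖w‖ := by simpa using hw.2
      exact (hHd w h1 h2).continuousAt.continuousWithinAt
    · rintro w ⟨⟨h2, h1⟩, -⟩
      have h2' : ‖w‖ ≤ 2 := by
        have : ‖w‖ < 2 := by simpa using h2
        exact this.le
      have h1' : 1 ≤ ‖w‖ := by
        have : 1 < ‖w‖ := by simpa using h1
        exact this.le
      exact hHd w h1' h2'
  have h1 : (∮ w in C(0, 1), H w) = Complex.I * ∫ θ in (0 : ℝ)..2 * Real.pi, Complex.exp (-(((n : ℤ) : ℂ) * θ * Complex.I)) * f (s₀ + δ * Real.cos θ) z := by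
    rw [circleIntegral, ← intervalIntegral.integral_const_mul]
    refine intervalIntegral.integral_congr fun θ _ => ?_
    simp only [deriv_circleMap, smul_eq_mul]
    have e1 : circleMap 0 1 θ = Complex.exp (θ * Complex.I) := by simp [circleMap]
    rw [e1, hH]
    have e2 : J (Complex.exp (θ * Complex.I)) = ((s₀ + δ * Real.cos θ : ℝ) : ℂ) := by
      rw [hJ, ← Complex.exp_neg]
      push_cast
      rw [Complex.cos]
      ring_nf
    rw [e2, hgf _ (cs_mem hδ.le θ), ← Complex.exp_nat_mul, ← Complex.exp_neg]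
    have e3 : Complex.exp (θ * Complex.I) * Complex.exp (-(((n + 1 : ℕ) : ℂ) * (θ * Complex.I))) = Complex.exp (-(((n : ℤ) : ℂ) * θ * Complex.I)) := by
      rw [← Complex.exp_add]
      congr 1
      push_cast
      ring
    calc Complex.exp (θ * Complex.I) * Complex.I * (Complex.exp (-(((n + 1 : ℕ) : ℂ) * (θ * Complex.I))) * f (s₀ + δ * Real.cos θ) z)
        = Complex.I * ((Complex.exp (θ * Complex.I) * Complex.exp (-(((n + 1 : ℕ) : ℂ) * (θ * Complex.I)))) * f (s₀ + δ * Real.cos θ) z) := by ring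
      _ = _ := by rw [e3]
  have h2 : ‖∮ w in C(0, 2), H w‖ ≤ 2 * Real.pi * 2 * (((2 : ℝ) ^ (n + 1))⁻¹ * C) := by
    refine circleIntegral.norm_integral_le_of_norm_le_const (by norm_num) fun w hw => ?_
    have hw2 : ‖w‖ = 2 := by simpa using hw
    rw [hH, norm_mul, norm_inv, norm_pow, hw2]
    gcongr
    exact hgC _ (hJn w (by rw [hw2]; norm_num) hw2.le)
  rw [hann, h1, norm_mul, Complex.norm_I, one_mul] at h2
  unfold cf
  rw [norm_smul, Real.norm_of_nonneg (by positivity)]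
  calc 1 / (2 * Real.pi) * ‖∫ θ in (0 : ℝ)..2 * Real.pi, Complex.exp (-(((n : ℤ) : ℂ) * θ * Complex.I)) * f (s₀ + δ * Real.cos θ) z‖
      ≤ 1 / (2 * Real.pi) * (2 * Real.pi * 2 * (((2 : ℝ) ^ (n + 1))⁻¹ * C)) := by gcongr
    _ = C * (1 / 2) ^ n := by
      rw [pow_succ, one_div, one_div, inv_pow]
      field_simp

/-- Fourier inversion -/
private theorem cf_sum {f : ℝ → ℂ → ℂ} {s₀ δ : ℝ} {z : ℂ} (hc : Continuous fun θ : ℝ => f (s₀ + δ * Real.cos θ) z)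
    (hs : Summable fun n : ℕ => cf f s₀ δ n z) (θ : ℝ) :
    HasSum (fun n : ℕ => 2 * cf f s₀ δ n z * Complex.cos (n * θ)) (f (s₀ + δ * Real.cos θ) z + cf f s₀ δ 0 z) := by
  have : Fact (0 < 2 * Real.pi) := ⟨Real.two_pi_pos⟩
  have hper : Function.Periodic (fun θ : ℝ => f (s₀ + δ * Real.cos θ) z) (2 * Real.pi) := fun θ => by
    simp only [Real.cos_add_two_pi]
  obtain ⟨h, hh⟩ : ∃ h : C(AddCircle (2 * Real.pi), ℂ), ∀ θ : ℝ, h θ = f (s₀ + δ * Real.cos θ) z := by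
    refine ⟨⟨hper.lift, ?_⟩, fun θ => hper.lift_coe θ⟩
    exact continuous_coinduced_dom.2 hc
  have hcoef : ∀ n : ℤ, fourierCoeff h n = cf f s₀ δ n z := by
    intro n
    rw [fourierCoeff_eq_intervalIntegral _ n 0, zero_add]
    unfold cf
    congr 1
    refine intervalIntegral.integral_congr fun θ _ => ?_
    rw [fourier_coe_apply, hh, smul_eq_mul]
    congr 2
    have hpi : (Real.pi : ℂ) ≠ 0 := by exact_mod_cast Real.pi_ne_zero
    push_cast
    field_simp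
  have hsum : Summable (fourierCoeff h) := by
    have e : fourierCoeff h = fun n : ℤ => cf f s₀ δ n z := funext hcoef
    rw [e]
    refine Summable.of_nat_of_neg hs ?_
    simp only [cf_neg]
    exact hs
  have h1 := (has_pointwise_sum_fourier_series_of_summable hsum (θ : AddCircle (2 * Real.pi))).nat_add_neg
  rw [hh] at h1
  simp only [hcoef, smul_eq_mul] at h1
  have h2 : (fourier (0 : ℤ)) ((θ : ℝ) : AddCircle (2 * Real.pi)) = 1 := by simp
  rw [h2, mul_one] at h1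
  have e : (fun n : ℕ => 2 * cf f s₀ δ n z * Complex.cos (n * θ)) = fun n : ℕ => cf f s₀ δ n z * (fourier (n : ℤ)) ((θ : ℝ) : AddCircle (2 * Real.pi)) +
      cf f s₀ δ (-(n : ℤ)) z * (fourier (-(n : ℤ))) ((θ : ℝ) : AddCircle (2 * Real.pi)) := by
    funext n
    rw [cf_neg, fourier_coe_apply, fourier_coe_apply, Complex.cos]
    have hpi : (Real.pi : ℂ) ≠ 0 := by exact_mod_cast Real.pi_ne_zero
    have e1 : (2 * Real.pi * Complex.I * ((n : ℤ) : ℂ) * θ / ((2 * Real.pi : ℝ) : ℂ) : ℂ) = n * θ * Complex.I := by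
      push_cast
      field_simp
    have e2 : (2 * Real.pi * Complex.I * ((-(n : ℤ) : ℤ) : ℂ) * θ / ((2 * Real.pi : ℝ) : ℂ) : ℂ) = -(n * θ) * Complex.I := by
      push_cast
      field_simp
    rw [e1, e2]
    ring
  rw [e]
  exact h1

/-- the growth of the Chebyshev polynomials near `0` -/
private theorem cb_le {ρ : ℝ} (hρ : 1 ≤ ρ) {x : ℂ} (hx : 2 * ‖x‖ ≤ ρ - ρ⁻¹) (n : ℕ) : ‖(Polynomial.Chebyshev.T ℂ n).eval x‖ ≤ ρ ^ n := by
  have hρ0 : 0 < ρ := by linarith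
  have hinv : 0 < ρ⁻¹ := inv_pos.2 hρ0
  induction n using Nat.twoStepInduction with
  | zero => simp
  | one =>
    simp only [Nat.cast_one, Polynomial.Chebyshev.T_one, Polynomial.eval_X, pow_one]
    linarith only [hρ, hx, hinv]
  | more n h1 h2 =>
    have e : Polynomial.Chebyshev.T ℂ ((n + 2 : ℕ) : ℤ) = 2 * Polynomial.X * Polynomial.Chebyshev.T ℂ ((n + 1 : ℕ) : ℤ) - Polynomial.Chebyshev.T ℂ (n : ℤ) := by
      have := Polynomial.Chebyshev.T_add_two ℂ (n : ℤ)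
      push_cast
      exact this
    rw [e]
    simp only [Polynomial.eval_sub, Polynomial.eval_mul, Polynomial.eval_X, Polynomial.eval_ofNat]
    refine (norm_sub_le _ _).trans ?_
    rw [norm_mul, norm_mul]
    have h3 : ‖(2 : ℂ)‖ = 2 := by simp
    rw [h3]
    have h4 : 2 * ‖x‖ * ‖(Polynomial.Chebyshev.T ℂ ((n + 1 : ℕ) : ℤ)).eval x‖ ≤ (ρ - ρ⁻¹) * ρ ^ (n + 1) := by
      gcongr
      linarith [norm_nonneg x]
    have h5 : (ρ - ρ⁻¹) * ρ ^ (n + 1) + ρ ^ n = ρ ^ (n + 2) := by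
      have : ρ⁻¹ * ρ ^ (n + 1) = ρ ^ n := by rw [pow_succ']; field_simp
      rw [sub_mul, this]
      ring
    linarith only [h1, h4, h5]

/-- the coefficients are small on the large ball -/
private theorem cf_small {R r₁ R' : ℝ} (hr₁ : 0 < r₁) (h₁ : r₁ < R') (hR' : R' < R) :
    ∃ q : ℝ, 0 < q ∧ q < 1 ∧ ∀ {f : ℝ → ℂ → ℂ} {s₀ δ : ℝ} (_ : 0 < δ) {z₁ : ℂ} (_ : ContinuousOn (fun p : ℝ × ℂ => f p.1 p.2) (Icc (s₀ - δ) (s₀ + δ) ×ˢ ball z₁ R))
      (_ : ∀ s ∈ Icc (s₀ - δ) (s₀ + δ), DifferentiableOn ℂ (f s) (ball z₁ R)) {C M : ℝ} (_ : ∀ s ∈ Icc (s₀ - δ) (s₀ + δ), ∀ z ∈ ball z₁ R, ‖f s z‖ ≤ M)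
      (_ : ∀ z ∈ closedBall z₁ r₁, ∀ n : ℕ, ‖cf f s₀ δ n z‖ ≤ C * (1 / 2) ^ n), ∀ z ∈ ball z₁ R', ∀ n : ℕ, ‖cf f s₀ δ n z‖ ≤ max 1 (max C M) * q ^ n := by
  obtain ⟨R₃, hR₃⟩ : ∃ R₃, R₃ = (R' + R) / 2 := ⟨_, rfl⟩
  have h3 : R' < R₃ := by rw [hR₃]; linarith
  have h4 : R₃ < R := by rw [hR₃]; linarith
  have hR'0 : 0 < R' := hr₁.trans h₁
  have hlog : 0 < Real.log (R₃ / r₁) := Real.log_pos (by rw [one_lt_div hr₁]; linarith)
  obtain ⟨α, hα⟩ : ∃ α, α = Real.log (R₃ / R') / Real.log (R₃ / r₁) := ⟨_, rfl⟩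
  obtain ⟨β, hβ⟩ : ∃ β, β = Real.log (R' / r₁) / Real.log (R₃ / r₁) := ⟨_, rfl⟩
  have hα0 : 0 < α := by
    rw [hα]
    exact div_pos (Real.log_pos (by rw [one_lt_div hR'0]; exact h3)) hlog
  have hαβ : α + β = 1 := by
    have hR₃0 : 0 < R₃ := by linarith
    rw [hα, hβ, ← add_div, ← Real.log_mul (by positivity) (by positivity), div_mul_div_cancel₀ hR'0.ne', div_self hlog.ne']
  refine ⟨(1 / 2) ^ α, by positivity, Real.rpow_lt_one (by norm_num) (by norm_num) hα0, fun {f s₀ δ} hδ {z₁} hc hh {C M} hM hC z hz n => ?_⟩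
  obtain ⟨K, hKd⟩ : ∃ K, K = max 1 (max C M) := ⟨_, rfl⟩
  have hK1 : 1 ≤ K := by rw [hKd]; exact le_max_left _ _
  have hKC : C ≤ K := by rw [hKd]; exact (le_max_left _ _).trans (le_max_right _ _)
  have hKM : M ≤ K := by rw [hKd]; exact (le_max_right _ _).trans (le_max_right _ _)
  have hK0 : 0 < K := by linarith only [hK1]
  rw [← hKd]
  have hd := cf_hol hδ.le isOpen_ball hc hh n
  have hsph : ∀ w ∈ sphere z₁ R', ‖cf f s₀ δ n w‖ ≤ K * ((1 / 2) ^ α) ^ n := by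
    intro w hw
    have h5 := Pool.Agent.H95.GC.three_circles (cf f s₀ δ n) z₁ r₁ R' R₃ R (K * (1 / 2) ^ n) K hr₁ h₁ h3 h4 hd (by positivity) hK0
      (fun w hw => (hC w (by rw [mem_closedBall, hw]) n).trans (by gcongr))
      (fun w hw => (cf_le hδ.le (fun s hs => hM s hs w (by rw [mem_ball, hw]; exact h4)) n).trans hKM) w hw
    refine h5.trans (le_of_eq ?_)
    rw [← hα, ← hβ, Real.mul_rpow hK0.le (by positivity), mul_assoc, mul_comm (((1 / 2 : ℝ) ^ n) ^ α), ← mul_assoc, ← Real.rpow_add hK0, hαβ,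
      Real.rpow_one, ← Real.rpow_natCast, ← Real.rpow_natCast, ← Real.rpow_mul (by norm_num), ← Real.rpow_mul (by norm_num), mul_comm α]
  refine Complex.norm_le_of_forall_mem_frontier_norm_le (isBounded_ball (x := z₁) (r := R')) ?_ ?_ (subset_closure hz)
  · refine DifferentiableOn.diffContOnCl ?_
    rw [closure_ball _ hR'0.ne']
    exact hd.mono (closedBall_subset_ball hR')
  · intro w hw
    rw [frontier_ball _ hR'0.ne'] at hw
    exact hsph w hw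

/-- extension from bounds for the coefficients: the radius depends only on the radii -/
theorem ext_of_coef {δ r₁ R' R : ℝ} (hδ : 0 < δ) (hr₁ : 0 < r₁) (h₁ : r₁ < R') (hR' : R' < R) : ∃ ε : ℝ, 0 < ε ∧ ∀ C M : ℝ, ∃ K : ℝ, ∀ (f : ℝ → ℂ → ℂ) (s₀ : ℝ) (z₁ : ℂ),
    ContinuousOn (fun p : ℝ × ℂ => f p.1 p.2) (Icc (s₀ - δ) (s₀ + δ) ×ˢ ball z₁ R) → (∀ s ∈ Icc (s₀ - δ) (s₀ + δ), DifferentiableOn ℂ (f s) (ball z₁ R)) →
    (∀ s ∈ Icc (s₀ - δ) (s₀ + δ), ∀ z ∈ ball z₁ R, ‖f s z‖ ≤ M) → (∀ z ∈ closedBall z₁ r₁, ∀ n : ℕ, ‖cf f s₀ δ n z‖ ≤ C * (1 / 2) ^ n) →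
    ∃ G : ℂ × ℂ → ℂ, DifferentiableOn ℂ G (ball (s₀ : ℂ) ε ×ˢ ball z₁ R') ∧ (∀ p ∈ ball (s₀ : ℂ) ε ×ˢ ball z₁ R', ‖G p‖ ≤ K) ∧
      ∀ s : ℝ, (s : ℂ) ∈ ball (s₀ : ℂ) ε → ∀ z ∈ ball z₁ R', G (s, z) = f s z := by
  obtain ⟨q, hq0, hq1, hsm'⟩ := cf_small hr₁ h₁ hR'
  -- the radius of convergence
  obtain ⟨ρ, hρ⟩ : ∃ ρ : ℝ, ρ = (1 + q⁻¹) / 2 := ⟨_, rfl⟩
  have hqi : 1 < q⁻¹ := (one_lt_inv₀ hq0).2 hq1
  have hρ1 : 1 < ρ := by rw [hρ]; linarith only [hqi]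
  have hρ0 : 0 < ρ := by linarith
  have hqρ : q * ρ < 1 := by
    rw [hρ]
    have : q * q⁻¹ = 1 := mul_inv_cancel₀ hq0.ne'
    nlinarith only [hq1, this]
  have hρi : ρ⁻¹ < 1 := inv_lt_one_of_one_lt₀ hρ1
  obtain ⟨η, hη⟩ : ∃ η : ℝ, η = min 1 ((ρ - ρ⁻¹) / 2) := ⟨_, rfl⟩
  have hη0 : 0 < η := by rw [hη]; exact lt_min one_pos (by linarith only [hρ1, hρi])
  have hη1 : η ≤ 1 := by rw [hη]; exact min_le_left _ _
  have hη2 : η ≤ (ρ - ρ⁻¹) / 2 := by rw [hη]; exact min_le_right _ _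
  refine ⟨δ * η, by positivity, fun C M => ?_⟩
  obtain ⟨K, hKd⟩ : ∃ K, K = max 1 (max C M) := ⟨_, rfl⟩
  have hK : 0 < K := by rw [hKd]; exact lt_of_lt_of_le one_pos (le_max_left _ _)
  have hsumm : Summable fun n : ℕ => 2 * K * (q * ρ) ^ n := (summable_geometric_of_lt_one (by positivity) hqρ).mul_left _
  refine ⟨(∑' n : ℕ, 2 * K * (q * ρ) ^ n) + K, fun f s₀ z₁ hc hh hM hC => ?_⟩
  have hsm : ∀ z ∈ ball z₁ R', ∀ n : ℕ, ‖cf f s₀ δ n z‖ ≤ K * q ^ n := by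
    rw [hKd]
    exact hsm' hδ hc hh hM hC
  obtain ⟨G, hG⟩ : ∃ G : ℂ × ℂ → ℂ, ∀ ζ z, G (ζ, z) =
      (∑' n : ℕ, 2 * cf f s₀ δ n z * (Polynomial.Chebyshev.T ℂ n).eval ((ζ - s₀) / δ)) - cf f s₀ δ 0 z :=
    ⟨fun p => (∑' n : ℕ, 2 * cf f s₀ δ n p.2 * (Polynomial.Chebyshev.T ℂ n).eval ((p.1 - s₀) / δ)) - cf f s₀ δ 0 p.2, fun _ _ => rfl⟩
  have hx : ∀ ζ ∈ ball (s₀ : ℂ) (δ * η), 2 * ‖(ζ - s₀) / δ‖ ≤ ρ - ρ⁻¹ := by
    intro ζ hζ
    rw [mem_ball, dist_eq_norm] at hζ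
    rw [norm_div, Complex.norm_real, Real.norm_of_nonneg hδ.le]
    have : ‖ζ - s₀‖ / δ ≤ η := by rw [div_le_iff₀ hδ]; linarith
    linarith only [hη2, this]
  have hterm : ∀ ζ ∈ ball (s₀ : ℂ) (δ * η), ∀ z ∈ ball z₁ R', ∀ n : ℕ,
      ‖2 * cf f s₀ δ n z * (Polynomial.Chebyshev.T ℂ n).eval ((ζ - s₀) / δ)‖ ≤ 2 * K * (q * ρ) ^ n := by
    intro ζ hζ z hz n
    rw [norm_mul, norm_mul]
    have h3 : ‖(2 : ℂ)‖ = 2 := by simp
    rw [h3, mul_pow, show 2 * K * (q ^ n * ρ ^ n) = 2 * (K * q ^ n) * ρ ^ n by ring]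
    have h5 := hsm z hz n
    have h6 := cb_le hρ1.le (hx ζ hζ) n
    gcongr
  have hball : ball z₁ R' ⊆ ball z₁ R := ball_subset_ball hR'.le
  have hd1 : ∀ z ∈ ball z₁ R', DifferentiableOn ℂ (fun ζ => G (ζ, z)) (ball (s₀ : ℂ) (δ * η)) := by
    intro z hz
    simp only [hG]
    refine DifferentiableOn.sub ?_ (differentiableOn_const _)
    refine Complex.differentiableOn_tsum_of_summable_norm hsumm (fun n => ?_) isOpen_ball fun n ζ hζ => hterm ζ hζ z hz n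
    refine DifferentiableOn.const_mul ?_ _
    have h5 : Differentiable ℂ fun ζ : ℂ => (ζ - (s₀ : ℂ)) / (δ : ℂ) := by fun_prop
    have h6 : Differentiable ℂ fun w : ℂ => (Polynomial.Chebyshev.T ℂ (n : ℤ)).eval w := Polynomial.differentiable _
    exact (h6.comp h5).differentiableOn
  have hd2 : ∀ ζ ∈ ball (s₀ : ℂ) (δ * η), DifferentiableOn ℂ (fun z => G (ζ, z)) (ball z₁ R') := by
    intro ζ hζ
    simp only [hG]
    have h0 : ∀ n : ℤ, DifferentiableOn ℂ (cf f s₀ δ n) (ball z₁ R') := fun n => (cf_hol hδ.le isOpen_ball hc hh n).mono hball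
    refine DifferentiableOn.sub ?_ (h0 0)
    refine Complex.differentiableOn_tsum_of_summable_norm hsumm (fun n => ?_) isOpen_ball fun n z hz => hterm ζ hζ z hz n
    exact ((h0 n).const_mul _).mul_const _
  have hGb : ∀ ζ ∈ ball (s₀ : ℂ) (δ * η), ∀ z ∈ ball z₁ R', ‖G (ζ, z)‖ ≤ (∑' n : ℕ, 2 * K * (q * ρ) ^ n) + K := by
    intro ζ hζ z hz
    rw [hG]
    refine (norm_sub_le _ _).trans (add_le_add ?_ ?_)
    · exact tsum_of_norm_bounded hsumm.hasSum (hterm ζ hζ z hz)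
    · have := hsm z hz 0
      simpa using this
  refine ⟨G, ?_, fun p hp => hGb p.1 hp.1 p.2 hp.2, ?_⟩
  · rintro ⟨ζ, z⟩ ⟨hζ, hz⟩
    obtain ⟨r, hr, hrs⟩ : ∃ r > 0, ball ζ r ⊆ ball (s₀ : ℂ) (δ * η) ∧ ball z r ⊆ ball z₁ R' := by
      obtain ⟨r, hr, h1⟩ := Metric.isOpen_iff.1 isOpen_ball ζ hζ
      obtain ⟨r', hr', h2⟩ := Metric.isOpen_iff.1 isOpen_ball z hz
      exact ⟨min r r', lt_min hr hr', (ball_subset_ball (min_le_left _ _)).trans h1, (ball_subset_ball (min_le_right _ _)).trans h2⟩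
    exact (Pool.Agent.TH.osgood hr (fun a ha b hb => hGb a (hrs.1 ha) b (hrs.2 hb)) (fun b hb => (hd1 b (hrs.2 hb)).mono hrs.1)
      (fun a ha => (hd2 a (hrs.1 ha)).mono hrs.2)).differentiableAt.differentiableWithinAt
  · intro s hs z hz
    rw [mem_ball, dist_eq_norm, ← Complex.ofReal_sub, Complex.norm_real, Real.norm_eq_abs] at hs
    have hs1 : |(s - s₀) / δ| ≤ 1 := by
      rw [abs_div, abs_of_pos hδ, div_le_one hδ]
      nlinarith only [hs, hδ, hη1]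
    obtain ⟨θ, hθ⟩ : ∃ θ : ℝ, Real.cos θ = (s - s₀) / δ := ⟨Real.arccos ((s - s₀) / δ), Real.cos_arccos (abs_le.1 hs1).1 (abs_le.1 hs1).2⟩
    have hsθ : s₀ + δ * Real.cos θ = s := by rw [hθ]; field_simp; ring
    have hsum : Summable fun n : ℕ => cf f s₀ δ n z :=
      Summable.of_norm_bounded ((summable_geometric_of_lt_one hq0.le hq1).mul_left K) (hsm z hz)
    have h7 := cf_sum (cf_cont hδ.le hc (hball hz)) hsum θ
    rw [hsθ] at h7
    rw [hG]
    have h8 : (fun n : ℕ => 2 * cf f s₀ δ n z * (Polynomial.Chebyshev.T ℂ n).eval (((s : ℂ) - s₀) / δ)) =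
        fun n : ℕ => 2 * cf f s₀ δ n z * Complex.cos (n * θ) := by
      funext n
      have h9 : ((s : ℂ) - s₀) / δ = Complex.cos θ := by
        rw [← Complex.ofReal_cos, hθ]
        push_cast
        ring
      rw [h9, Polynomial.Chebyshev.T_complex_cos]
      push_cast
      ring
    rw [h8, h7.tsum_eq]
    ring

/-- the coefficients of a function which extends -/
theorem coef_of_ext {f : ℝ → ℂ → ℂ} {s₀ δ : ℝ} (hδ : 0 < δ) {z₁ : ℂ} {r₁ C : ℝ} {g : ℂ × ℂ → ℂ} (hg : DifferentiableOn ℂ g (ball (s₀ : ℂ) (2 * δ) ×ˢ ball z₁ (2 * r₁)))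
    (hr₁ : 0 < r₁) (hgC : ∀ p ∈ ball (s₀ : ℂ) (2 * δ) ×ˢ ball z₁ (2 * r₁), ‖g p‖ ≤ C) (hgf : ∀ s ∈ Icc (s₀ - δ) (s₀ + δ), ∀ z ∈ ball z₁ (2 * r₁), g (s, z) = f s z) :
    ∀ z ∈ closedBall z₁ r₁, ∀ n : ℕ, ‖cf f s₀ δ n z‖ ≤ C * (1 / 2) ^ n := by
  intro z hz n
  have hz' : z ∈ ball z₁ (2 * r₁) := closedBall_subset_ball (by linarith) hz
  refine cf_geo hδ (g := fun ζ => g (ζ, z)) ?_ (fun ζ hζ => hgC (ζ, z) ⟨closedBall_subset_ball (by linarith only [hδ]) hζ, hz'⟩) (fun s hs => hgf s hs z hz') n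
  intro ζ hζ
  have h1 : DifferentiableAt ℂ g (ζ, z) := hg.differentiableAt ((isOpen_ball.prod isOpen_ball).mem_nhds ⟨hζ, hz'⟩)
  exact (h1.comp ζ (differentiableAt_id.prodMk (differentiableAt_const z))).differentiableWithinAt

/-- the coefficients are continuous in a parameter -/
theorem cf_param {Y : Type*} [TopologicalSpace Y] {f : Y → ℝ → ℂ → ℂ} {s₀ δ : ℝ} (hδ : 0 ≤ δ) {z : ℂ} {A : Set Y}
    (hc : ContinuousOn (fun p : Y × ℝ => f p.1 p.2 z) (A ×ˢ Icc (s₀ - δ) (s₀ + δ))) (n : ℤ) : ContinuousOn (fun y => cf (f y) s₀ δ n z) A := by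
  rw [continuousOn_iff_continuous_restrict]
  have h1 : Continuous fun p : A × ℝ => ((p.1.1, s₀ + δ * Real.cos p.2) : Y × ℝ) := by fun_prop
  have h2 : Continuous fun p : A × ℝ => f p.1.1 (s₀ + δ * Real.cos p.2) z := hc.comp_continuous h1 fun p => ⟨p.1.2, cs_mem hδ p.2⟩
  have h3 : Continuous (Function.uncurry fun (y : A) (θ : ℝ) => Complex.exp (-((n : ℂ) * θ * Complex.I)) * f y.1 (s₀ + δ * Real.cos θ) z) := by
    refine Continuous.mul ?_ h2
    fun_prop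
  have h4 := intervalIntegral.continuous_parametric_intervalIntegral_of_continuous' (μ := MeasureTheory.volume) h3 0 (2 * Real.pi)
  exact h4.const_smul (1 / (2 * Real.pi) : ℝ)

/-- extension in a real parameter from a small ball to a large one, with a radius which depends only on the radii -/
theorem cheb_u {δ ε R R' : ℝ} (hδ : 0 < δ) (hε : 0 < ε) (hR : 0 < R) (hR' : R' < R) : ∃ ε' : ℝ, 0 < ε' ∧ ∀ C M : ℝ, ∃ K : ℝ, ∀ (f : ℝ → ℂ → ℂ) (g : ℂ × ℂ → ℂ) (s₀ : ℝ) (z₁ : ℂ),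
    ContinuousOn (fun p : ℝ × ℂ => f p.1 p.2) (Icc (s₀ - δ) (s₀ + δ) ×ˢ ball z₁ R) → (∀ s ∈ Icc (s₀ - δ) (s₀ + δ), DifferentiableOn ℂ (f s) (ball z₁ R)) →
    (∀ s ∈ Icc (s₀ - δ) (s₀ + δ), ∀ z ∈ ball z₁ R, ‖f s z‖ ≤ M) → DifferentiableOn ℂ g (ball ((s₀ : ℂ), z₁) ε) → (∀ p ∈ ball ((s₀ : ℂ), z₁) ε, ‖g p‖ ≤ C) →
    (∀ (s : ℝ) (z : ℂ), ((s : ℂ), z) ∈ ball ((s₀ : ℂ), z₁) ε → g (s, z) = f s z) →
    ∃ G : ℂ × ℂ → ℂ, DifferentiableOn ℂ G (ball (s₀ : ℂ) ε' ×ˢ ball z₁ R') ∧ (∀ p ∈ ball (s₀ : ℂ) ε' ×ˢ ball z₁ R', ‖G p‖ ≤ K) ∧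
      ∀ s : ℝ, (s : ℂ) ∈ ball (s₀ : ℂ) ε' → ∀ z ∈ ball z₁ R', G (s, z) = f s z := by
  obtain ⟨d, hd⟩ : ∃ d, d = min δ (ε / 2) := ⟨_, rfl⟩
  obtain ⟨r, hr⟩ : ∃ r, r = min (ε / 2) (R / 4) := ⟨_, rfl⟩
  have hd0 : 0 < d := by rw [hd]; exact lt_min hδ (by linarith)
  have hdδ : d ≤ δ := by rw [hd]; exact min_le_left _ _
  have hdε : 2 * d ≤ ε := by rw [hd]; linarith only [min_le_right δ (ε / 2)]
  have hr0 : 0 < r := by rw [hr]; exact lt_min (by linarith) (by linarith)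
  have hrε : 2 * r ≤ ε := by rw [hr]; linarith only [min_le_left (ε / 2) (R / 4)]
  have hrR : 4 * r ≤ R := by rw [hr]; linarith only [min_le_right (ε / 2) (R / 4)]
  obtain ⟨ε', hε', h⟩ := ext_of_coef (δ := d) (r₁ := r) (R' := max R' (R / 2)) (R := R) hd0 hr0 (lt_of_lt_of_le (by linarith) (le_max_right _ _)) (max_lt hR' (by linarith only [hr0, hrR]))
  refine ⟨ε', hε', fun C M => ?_⟩
  obtain ⟨K, hK⟩ := h C M
  refine ⟨K, fun f g s₀ z₁ hc hh hM hg hgC hgf => ?_⟩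
  have hI : Icc (s₀ - d) (s₀ + d) ⊆ Icc (s₀ - δ) (s₀ + δ) := Icc_subset_Icc (by linarith) (by linarith)
  have hsub : ball (s₀ : ℂ) (2 * d) ×ˢ ball z₁ (2 * r) ⊆ ball ((s₀ : ℂ), z₁) ε := by
    rw [← ball_prod_same]
    exact prod_mono (ball_subset_ball hdε) (ball_subset_ball hrε)
  obtain ⟨G, hG1, hG2, hG3⟩ := hK f s₀ z₁ (hc.mono (prod_mono hI le_rfl)) (fun s hs => hh s (hI hs)) (fun s hs => hM s (hI hs))
    (coef_of_ext hd0 (hg.mono hsub) hr0 (fun p hp => hgC p (hsub hp)) (fun s hs z hz => hgf s z (hsub ⟨by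
      rw [mem_ball, dist_eq_norm, ← Complex.ofReal_sub, Complex.norm_real, Real.norm_eq_abs]
      have : |s - s₀| ≤ d := abs_le.2 ⟨by linarith [hs.1], by linarith [hs.2]⟩
      linarith, hz⟩)))
  have hb : ball z₁ R' ⊆ ball z₁ (max R' (R / 2)) := ball_subset_ball (le_max_left _ _)
  exact ⟨G, hG1.mono (prod_mono le_rfl hb), fun p hp => hG2 p ⟨hp.1, hb hp.2⟩, fun s hs z hz => hG3 s hs z (hb hz)⟩

end Pool.Agent.G4.C

end

section

/-!
# G4 C SpreadU: the extension to complex parameters spreads over connected sets of `z`, uniformly for the members of a set of families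
-/

set_option autoImplicit false

open Topology Filter Metric Set

namespace Pool.Agent.G4.C

open Pool.Agent.H36.BP (EN wd)
open Pool.Agent.H62.EF (MN pr pr_smul pr_eq_iff continuousAt_pr)
open Pool.Agent.AD (Vd)
open Pool.Agent.G3.C (EAt nv nd nv_pr nd_pr_ne nd_cont nv_continuousAt pr_nv)

variable {N : ℕ} {ι : Type*}

/-- the family extends to the ball of radius `ε` in `ℂ × ℂ` with centre `(s₀, z₀)`, with a normalised lift bounded by `M` -/
def EAtB (v : EN N) (Φ : ℝ → ℂ → MN N) (s₀ : ℝ) (z₀ : ℂ) (ε M : ℝ) : Prop :=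
  ∃ F : ℂ × ℂ → EN N, DifferentiableOn ℂ F (ball ((s₀ : ℂ), z₀) ε) ∧ (∀ p ∈ ball ((s₀ : ℂ), z₀) ε, inner ℂ v (F p) = (1 : ℂ) ∧ ‖F p‖ ≤ M) ∧
    ∀ (s : ℝ) (z : ℂ), ((s : ℂ), z) ∈ ball ((s₀ : ℂ), z₀) ε → Φ s z = pr (F (s, z))

theorem EAtB.eat {v : EN N} {Φ : ℝ → ℂ → MN N} {s₀ : ℝ} {z₀ : ℂ} {ε M : ℝ} (h : EAtB v Φ s₀ z₀ ε M) : EAt Φ s₀ z₀ ε := by
  obtain ⟨F, h1, h2, h3⟩ := h
  exact ⟨F, h1, fun p hp h0 => by
    have h4 := (h2 p hp).1
    rw [h0, inner_zero_right] at h4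
    exact zero_ne_one h4, h3⟩

theorem EAtB.shrink {v : EN N} {Φ : ℝ → ℂ → MN N} {s₀ s₁ : ℝ} {z₀ z₁ : ℂ} {ε ε' M : ℝ} (h : EAtB v Φ s₀ z₀ ε M)
    (hb : ball ((s₁ : ℂ), z₁) ε' ⊆ ball ((s₀ : ℂ), z₀) ε) : EAtB v Φ s₁ z₁ ε' M := by
  obtain ⟨F, h1, h2, h3⟩ := h
  exact ⟨F, h1.mono hb, fun p hp => h2 p (hb hp), fun s z hz => h3 s z (hb hz)⟩

/-- uniform extension at `(s₀, z)` -/
def UE (l : Filter ι) (Φ : ι → ℝ → ℂ → MN N) (s₀ : ℝ) (z : ℂ) : Prop := ∃ (v : EN N) (ε M : ℝ), 0 < ε ∧ ∀ᶠ i in l, EAtB v (Φ i) s₀ z ε M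

/-- families of curves, uniformly continuous at the points `(s₀, z)`, `z ∈ Ω` -/
structure UFam (l : Filter ι) (Φ : ι → ℝ → ℂ → MN N) (s₀ : ℝ) (Ω : Set ℂ) : Prop where
  lift : ∀ i, ∀ s : ℝ, ∃ F : ℂ → EN N, Differentiable ℂ F ∧ (∀ z, F z ≠ 0) ∧ ∀ z, Φ i s z = pr (F z)
  cont : ∀ z ∈ Ω, ∃ (v : EN N) (r c : ℝ), 0 < r ∧ 0 < c ∧ ∀ᶠ i in l, ∀ s ∈ Icc (s₀ - r) (s₀ + r), ∀ w ∈ ball z r,
    ContinuousAt (fun q : ℝ × ℂ => Φ i q.1 q.2) (s, w) ∧ c ≤ ‖nd v (Φ i s w)‖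

private theorem nd_norm (v x : EN N) : ‖nd v (pr x)‖ * ‖x‖ ^ 2 = ‖(inner ℂ v x : ℂ)‖ ^ 2 := by
  have e : nd v (pr x) * ((‖x‖ ^ 2 : ℝ) : ℂ) = inner ℂ x v * inner ℂ v x := by
    rcases eq_or_ne x 0 with rfl | hx
    · simp
    have h1 : ((‖x‖ ^ 2 : ℝ) : ℂ) ≠ 0 := by
      have : ‖x‖ ≠ 0 := norm_ne_zero_iff.mpr hx
      exact_mod_cast pow_ne_zero 2 this
    have hin : ∀ x y : EN N, (inner ℂ x y : ℂ) = ∑ j, (starRingEnd ℂ) (x j) * y j := by
      intro x y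
      rw [PiLp.inner_apply]
      refine Finset.sum_congr rfl fun j _ => ?_
      rw [RCLike.inner_apply]
      ring
    have h2 : nd v (pr x) = inner ℂ x v * inner ℂ v x / ((‖x‖ ^ 2 : ℝ) : ℂ) := by
      unfold nd
      rw [hin x v, hin v x, Finset.sum_mul_sum, Finset.sum_comm, Finset.sum_div]
      refine Finset.sum_congr rfl fun i _ => ?_
      rw [Finset.sum_div]
      refine Finset.sum_congr rfl fun j _ => ?_
      simp only [pr]
      ring
    rw [h2, div_mul_cancel₀ _ h1]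
  have h3 := congrArg norm e
  rw [norm_mul, norm_mul, Complex.norm_real, Real.norm_of_nonneg (by positivity)] at h3
  rw [h3, ← norm_inner_symm, sq]

/-- the normalised vector is bounded -/
private theorem nv_bd {v x : EN N} {c : ℝ} (hc : 0 < c) (h : c ≤ ‖nd v (pr x)‖) (hx : x ≠ 0) : inner ℂ v x ≠ (0 : ℂ) ∧ ‖nv v (pr x)‖ ≤ (Real.sqrt c)⁻¹ ∧
    Real.sqrt c * ‖x‖ ≤ ‖(inner ℂ v x : ℂ)‖ := by
  have h0 : inner ℂ v x ≠ (0 : ℂ) := (nd_pr_ne hx).1 fun h1 => by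
    rw [h1, norm_zero] at h
    linarith
  have h1 := nd_norm v x
  have hsc : 0 < Real.sqrt c := Real.sqrt_pos.2 hc
  have h2 : Real.sqrt c * ‖x‖ ≤ ‖(inner ℂ v x : ℂ)‖ := by
    refine le_of_sq_le_sq ?_ (norm_nonneg _)
    rw [mul_pow, Real.sq_sqrt hc.le, ← h1]
    exact mul_le_mul_of_nonneg_right h (by positivity)
  refine ⟨h0, ?_, h2⟩
  rw [nv_pr h0, norm_smul, norm_inv, ← div_eq_inv_mul, div_le_iff₀ (norm_pos_iff.2 h0), ← div_eq_inv_mul, le_div_iff₀ hsc, mul_comm]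
  exact h2

private theorem norm_le_sum (x : EN N) : ‖x‖ ≤ ∑ j, ‖x j‖ := by
  rw [EuclideanSpace.norm_eq, Real.sqrt_le_iff]
  exact ⟨Finset.sum_nonneg fun _ _ => norm_nonneg _, Finset.sum_sq_le_sq_sum_of_nonneg fun _ _ => norm_nonneg _⟩

/-- bounded holomorphic maps are Lipschitz at the centre of a ball -/
private theorem schwarz {F : ℂ × ℂ → EN N} {p₀ : ℂ × ℂ} {ε M : ℝ} (hε : 0 < ε) (hF : DifferentiableOn ℂ F (ball p₀ ε)) (hM : ∀ p ∈ ball p₀ ε, ‖F p‖ ≤ M) {p : ℂ × ℂ}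
    (hp : p ∈ ball p₀ (ε / 2)) : ‖F p - F p₀‖ ≤ 4 * (M + 1) / ε * dist p p₀ := by
  have hM0 : 0 ≤ M := (norm_nonneg _).trans (hM p₀ (mem_ball_self hε))
  rcases eq_or_ne p p₀ with rfl | hne
  · simp
  have hd : 0 < ‖p - p₀‖ := norm_pos_iff.2 (sub_ne_zero.2 hne)
  have hpe : ‖p - p₀‖ < ε / 2 := by rwa [mem_ball, dist_eq_norm] at hp
  obtain ⟨g, hg⟩ : ∃ g : ℂ → EN N, g = fun t => F (p₀ + t • (p - p₀)) := ⟨_, rfl⟩
  have hm : ∀ t ∈ ball (0 : ℂ) (ε / ‖p - p₀‖), p₀ + t • (p - p₀) ∈ ball p₀ ε := by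
    intro t ht
    rw [mem_ball, dist_zero_right, lt_div_iff₀ hd] at ht
    rw [mem_ball, dist_eq_norm, add_sub_cancel_left, norm_smul]
    exact ht
  have hgd : DifferentiableOn ℂ g (ball 0 (ε / ‖p - p₀‖)) := by
    rw [hg]
    refine hF.comp ?_ hm
    have : Differentiable ℂ fun t : ℂ => p₀ + t • (p - p₀) := by fun_prop
    exact this.differentiableOn
  have hmap : MapsTo g (ball 0 (ε / ‖p - p₀‖)) (closedBall (g 0) (2 * (M + 1))) := by
    intro t ht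
    rw [mem_closedBall, dist_eq_norm, hg]
    have h1 := hM _ (hm t ht)
    have h2 := hM _ (hm 0 (mem_ball_self (by positivity)))
    exact (norm_sub_le _ _).trans (by linarith)
  have h1 : (1 : ℂ) ∈ ball (0 : ℂ) (ε / ‖p - p₀‖) := by
    rw [mem_ball, dist_zero_right, norm_one, lt_div_iff₀ hd]
    linarith
  have h2 := Complex.dist_le_div_mul_dist_of_mapsTo_ball hgd hmap h1
  rw [hg] at h2
  simp only [one_smul, add_sub_cancel, zero_smul, add_zero, dist_zero_right, norm_one, mul_one] at h2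
  rw [dist_eq_norm] at h2
  refine h2.trans ?_
  rw [dist_eq_norm, div_div_eq_mul_div, div_mul_eq_mul_div]
  gcongr
  linarith

/-- the step: from a point to a ball -/
private theorem step {l : Filter ι} {Φ : ι → ℝ → ℂ → MN N} (hl : ∀ i, ∀ s : ℝ, ∃ F : ℂ → EN N, Differentiable ℂ F ∧ (∀ z, F z ≠ 0) ∧ ∀ z, Φ i s z = pr (F z))
    {s₀ δ : ℝ} (hδ : 0 < δ) {z₁ : ℂ} {R : ℝ} (v : EN N) {c : ℝ} (hc0 : 0 < c)
    (hc : ∀ᶠ i in l, ∀ s ∈ Icc (s₀ - δ) (s₀ + δ), ∀ z ∈ ball z₁ R, ContinuousAt (fun q : ℝ × ℂ => Φ i q.1 q.2) (s, z) ∧ c ≤ ‖nd v (Φ i s z)‖)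
    (hE : UE l Φ s₀ z₁) {z : ℂ} (hz : z ∈ ball z₁ R) : UE l Φ s₀ z := by
  have hR : 0 < R := dist_nonneg.trans_lt (mem_ball.1 hz)
  obtain ⟨R', hR'z, hR'⟩ : ∃ R', dist z z₁ < R' ∧ R' < R := exists_between (mem_ball.1 hz)
  obtain ⟨v', ε, M, hε, hE⟩ := hE
  have hsc : 0 < Real.sqrt c := Real.sqrt_pos.2 hc0
  -- the radius on which the linear form `v` is not small
  obtain ⟨κ, hκd⟩ : ∃ κ, κ = Real.sqrt c * (‖v'‖ + 1)⁻¹ / 2 := ⟨_, rfl⟩
  have hκ : 0 < κ := by rw [hκd]; positivity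
  obtain ⟨L, hL⟩ : ∃ L, L = ‖v‖ * (4 * (|M| + 1) / ε) := ⟨_, rfl⟩
  have hL0 : 0 ≤ L := by rw [hL]; positivity
  obtain ⟨ε₂, hε₂⟩ : ∃ ε₂, ε₂ = min (ε / 2) (κ / (L + 1)) := ⟨_, rfl⟩
  have hε₂0 : 0 < ε₂ := by rw [hε₂]; exact lt_min (by linarith only [hε]) (by positivity)
  have hε₂a : ε₂ ≤ ε / 2 := by rw [hε₂]; exact min_le_left _ _
  have hε₂b : ε₂ ≤ κ / (L + 1) := by rw [hε₂]; exact min_le_right _ _
  obtain ⟨ε', hε', hch⟩ := cheb_u (δ := δ) (ε := ε₂) (R := R) (R' := R') hδ hε₂0 hR hR'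
  obtain ⟨K, hK⟩ := hch (κ⁻¹ * |M|) (Real.sqrt c)⁻¹
  obtain ⟨e₁, he₁⟩ : ∃ e₁, e₁ = min ε' (min δ (R' - dist z z₁)) := ⟨_, rfl⟩
  have he₁0 : 0 < e₁ := by rw [he₁]; exact lt_min hε' (lt_min hδ (by linarith only [hR'z]))
  have he₁a : e₁ ≤ ε' := by rw [he₁]; exact min_le_left _ _
  have he₁b : e₁ ≤ δ := by rw [he₁]; exact (min_le_right _ _).trans (min_le_left _ _)
  have he₁c : e₁ ≤ R' - dist z z₁ := by rw [he₁]; exact (min_le_right _ _).trans (min_le_right _ _)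
  refine ⟨v, e₁, ∑ _j : Fin (N + 1), K, he₁0, ?_⟩
  filter_upwards [hc, hE] with i hc hE
  -- the coordinates
  have hcont : ∀ j, ContinuousOn (fun p : ℝ × ℂ => nv v (Φ i p.1 p.2) j) (Icc (s₀ - δ) (s₀ + δ) ×ˢ ball z₁ R) := by
    rintro j ⟨s, w⟩ ⟨hs, hw⟩
    obtain ⟨h1, h2⟩ := hc s hs w hw
    have h2' : nd v (Φ i s w) ≠ 0 := fun h => by
      rw [h, norm_zero] at h2
      linarith only [hc0, h2]
    have h3 : ContinuousAt (fun q : ℝ × ℂ => nv v (Φ i q.1 q.2)) (s, w) := ContinuousAt.comp (g := nv v) (f := fun q : ℝ × ℂ => Φ i q.1 q.2) (nv_continuousAt h2') h1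
    exact ((PiLp.continuous_apply 2 _ j).continuousAt.comp h3).continuousWithinAt
  have hval : ∀ s ∈ Icc (s₀ - δ) (s₀ + δ), ∃ F : ℂ → EN N, Differentiable ℂ F ∧ (∀ z, F z ≠ 0) ∧ (∀ z, Φ i s z = pr (F z)) ∧ ∀ w ∈ ball z₁ R,
      inner ℂ v (F w) ≠ (0 : ℂ) ∧ nv v (Φ i s w) = (inner ℂ v (F w) : ℂ)⁻¹ • F w ∧ ‖nv v (Φ i s w)‖ ≤ (Real.sqrt c)⁻¹ := by
    intro s hs
    obtain ⟨F, hF, hF0, hFΦ⟩ := hl i s
    refine ⟨F, hF, hF0, hFΦ, fun w hw => ?_⟩
    have h1 := (hc s hs w hw).2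
    rw [hFΦ] at h1 ⊢
    obtain ⟨h2, h3, -⟩ := nv_bd hc0 h1 (hF0 w)
    exact ⟨h2, nv_pr h2, h3⟩
  have hhol : ∀ j, ∀ s ∈ Icc (s₀ - δ) (s₀ + δ), DifferentiableOn ℂ (fun w => nv v (Φ i s w) j) (ball z₁ R) := by
    intro j s hs
    obtain ⟨F, hF, hF0, hFΦ, hv⟩ := hval s hs
    have e : EqOn (fun w => nv v (Φ i s w) j) (fun w => (inner ℂ v (F w) : ℂ)⁻¹ * F w j) (ball z₁ R) := by
      intro w hw
      simp only
      rw [(hv w hw).2.1]
      simp [PiLp.smul_apply, smul_eq_mul]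
    refine DifferentiableOn.congr ?_ e
    have hd1 : Differentiable ℂ fun w => (inner ℂ v (F w) : ℂ) := (innerSL ℂ v).differentiable.comp hF
    have hd2 : Differentiable ℂ fun w => F w j := (EuclideanSpace.proj (𝕜 := ℂ) j : EN N →L[ℂ] ℂ).differentiable.comp hF
    exact (hd1.differentiableOn.inv fun w hw => (hv w hw).1).mul hd2.differentiableOn
  have hbd : ∀ j, ∀ s ∈ Icc (s₀ - δ) (s₀ + δ), ∀ w ∈ ball z₁ R, ‖nv v (Φ i s w) j‖ ≤ (Real.sqrt c)⁻¹ := by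
    intro j s hs w hw
    obtain ⟨F, hF, hF0, hFΦ, hv⟩ := hval s hs
    exact (PiLp.norm_apply_le _ j).trans (hv w hw).2.2
  -- the extension near `z₁`
  obtain ⟨F, hF, hFv, hFΦ⟩ := hE
  have hmem : ((s₀ : ℂ), z₁) ∈ ball ((s₀ : ℂ), z₁) ε := mem_ball_self hε
  have hF0 : ∀ p ∈ ball ((s₀ : ℂ), z₁) ε, F p ≠ 0 := fun p hp h0 => by
    have h4 := (hFv p hp).1
    rw [h0, inner_zero_right] at h4
    exact zero_ne_one h4
  have hs₀I : s₀ ∈ Icc (s₀ - δ) (s₀ + δ) := ⟨by linarith only [hδ], by linarith only [hδ]⟩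
  have hlow : 2 * κ ≤ ‖(inner ℂ v (F ((s₀ : ℂ), z₁)) : ℂ)‖ := by
    have h1 := (hc s₀ hs₀I z₁ (mem_ball_self hR)).2
    rw [hFΦ s₀ z₁ hmem] at h1
    have h2 := (nv_bd hc0 h1 (hF0 _ hmem)).2.2
    have h3 : 1 ≤ ‖v'‖ * ‖F ((s₀ : ℂ), z₁)‖ := by
      have h4 := norm_inner_le_norm (𝕜 := ℂ) v' (F ((s₀ : ℂ), z₁))
      rwa [(hFv _ hmem).1, norm_one] at h4
    have h5 : (‖v'‖ + 1)⁻¹ ≤ ‖F ((s₀ : ℂ), z₁)‖ := by
      rw [inv_le_iff_one_le_mul₀ (by positivity)]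
      nlinarith only [h3, norm_nonneg (F ((s₀ : ℂ), z₁))]
    calc 2 * κ = Real.sqrt c * (‖v'‖ + 1)⁻¹ := by rw [hκd]; ring
      _ ≤ Real.sqrt c * ‖F ((s₀ : ℂ), z₁)‖ := by gcongr
      _ ≤ _ := h2
  have hlow2 : ∀ p ∈ ball ((s₀ : ℂ), z₁) ε₂, κ ≤ ‖(inner ℂ v (F p) : ℂ)‖ := by
    intro p hp
    have hp2 : p ∈ ball ((s₀ : ℂ), z₁) (ε / 2) := ball_subset_ball hε₂a hp
    have h1 := schwarz hε hF (M := |M|) (fun p hp => (hFv p hp).2.trans (le_abs_self M)) hp2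
    have h2 : ‖(inner ℂ v (F p) : ℂ) - inner ℂ v (F ((s₀ : ℂ), z₁))‖ ≤ L * dist p ((s₀ : ℂ), z₁) := by
      rw [← inner_sub_right, hL, mul_assoc]
      exact (norm_inner_le_norm _ _).trans (mul_le_mul_of_nonneg_left h1 (norm_nonneg _))
    have h3 : L * dist p ((s₀ : ℂ), z₁) ≤ κ := by
      have h4 : dist p ((s₀ : ℂ), z₁) ≤ κ / (L + 1) := (mem_ball.1 hp).le.trans hε₂b
      calc L * dist p ((s₀ : ℂ), z₁) ≤ (L + 1) * (κ / (L + 1)) := by gcongr; linarith only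
        _ = κ := by field_simp
    have h5 := norm_sub_norm_le (inner ℂ v (F ((s₀ : ℂ), z₁)) : ℂ) (inner ℂ v (F p))
    rw [norm_sub_rev] at h5
    linarith only [hlow, h2, h3, h5]
  have hne2 : ∀ p ∈ ball ((s₀ : ℂ), z₁) ε₂, (inner ℂ v (F p) : ℂ) ≠ 0 := fun p hp h0 => by
    have := hlow2 p hp
    rw [h0, norm_zero] at this
    linarith only [hκ, this]
  have hb1 : ball ((s₀ : ℂ), z₁) ε₂ ⊆ ball ((s₀ : ℂ), z₁) ε := ball_subset_ball (by linarith only [hε₂0, hε₂a])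
  have hg : ∀ j, DifferentiableOn ℂ (fun p => (inner ℂ v (F p) : ℂ)⁻¹ * F p j) (ball ((s₀ : ℂ), z₁) ε₂) := by
    intro j
    have hF' := hF.mono hb1
    have hd1 : DifferentiableOn ℂ (fun w => (inner ℂ v (F w) : ℂ)) (ball ((s₀ : ℂ), z₁) ε₂) := (innerSL ℂ v).differentiable.comp_differentiableOn hF'
    have hd2 : DifferentiableOn ℂ (fun w => F w j) (ball ((s₀ : ℂ), z₁) ε₂) :=
      (EuclideanSpace.proj (𝕜 := ℂ) j : EN N →L[ℂ] ℂ).differentiable.comp_differentiableOn hF'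
    exact (hd1.inv hne2).mul hd2
  have hgb : ∀ j, ∀ p ∈ ball ((s₀ : ℂ), z₁) ε₂, ‖(inner ℂ v (F p) : ℂ)⁻¹ * F p j‖ ≤ κ⁻¹ * |M| := by
    intro j p hp
    rw [norm_mul, norm_inv]
    have h1 : ‖F p j‖ ≤ |M| := (PiLp.norm_apply_le _ j).trans ((hFv p (hb1 hp)).2.trans (le_abs_self M))
    have h2 : ‖(inner ℂ v (F p) : ℂ)‖⁻¹ ≤ κ⁻¹ := inv_anti₀ hκ (hlow2 p hp)
    gcongr
  have hgf : ∀ j, ∀ (s : ℝ) (w : ℂ), ((s : ℂ), w) ∈ ball ((s₀ : ℂ), z₁) ε₂ → (inner ℂ v (F ((s : ℂ), w)) : ℂ)⁻¹ * F ((s : ℂ), w) j = nv v (Φ i s w) j := by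
    intro j s w hw
    rw [hFΦ s w (hb1 hw), nv_pr (hne2 _ hw)]
    simp [PiLp.smul_apply, smul_eq_mul]
  have key : ∀ j, ∃ G : ℂ × ℂ → ℂ, DifferentiableOn ℂ G (ball (s₀ : ℂ) ε' ×ˢ ball z₁ R') ∧ (∀ p ∈ ball (s₀ : ℂ) ε' ×ˢ ball z₁ R', ‖G p‖ ≤ K) ∧
      ∀ s : ℝ, (s : ℂ) ∈ ball (s₀ : ℂ) ε' → ∀ w ∈ ball z₁ R', G (s, w) = nv v (Φ i s w) j := fun j =>
    hK (fun s w => nv v (Φ i s w) j) _ s₀ z₁ (hcont j) (hhol j) (hbd j) (hg j) (hgb j) (hgf j)
  choose G hG1 hGb hG2 using key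
  have hsub : ∀ p ∈ ball ((s₀ : ℂ), z) e₁, p.1 ∈ ball (s₀ : ℂ) e₁ ∧ p.2 ∈ ball z e₁ := by
    intro p hp
    rw [← ball_prod_same] at hp
    exact hp
  have hzR : ball z e₁ ⊆ ball z₁ R' := ball_subset_ball' (by linarith only [he₁c])
  obtain ⟨H, hH⟩ : ∃ H : ℂ × ℂ → EN N, ∀ p j, H p j = G j p := ⟨fun p => WithLp.toLp 2 fun j => G j p, fun p j => rfl⟩
  have hHd : DifferentiableOn ℂ H (ball ((s₀ : ℂ), z) e₁) := by
    rw [differentiableOn_piLp]
    intro j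
    simp only [hH]
    refine (hG1 j).mono fun p hp => ?_
    obtain ⟨h1, h2⟩ := hsub p hp
    exact ⟨ball_subset_ball he₁a h1, hzR h2⟩
  have hHr : ∀ (s : ℝ) (w : ℂ), ((s : ℂ), w) ∈ ball ((s₀ : ℂ), z) e₁ → H (s, w) = nv v (Φ i s w) := by
    intro s w hp
    obtain ⟨h1, h2⟩ := hsub _ hp
    ext j
    rw [hH]
    exact hG2 j s (ball_subset_ball he₁a h1) w (hzR h2)
  have hreal : ∀ (s : ℝ) (w : ℂ), ((s : ℂ), w) ∈ ball ((s₀ : ℂ), z) e₁ → Φ i s w = pr (H (s, w)) ∧ inner ℂ v (H (s, w)) = (1 : ℂ) := by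
    intro s w hp
    obtain ⟨h1, h2⟩ := hsub _ hp
    have hs : s ∈ Icc (s₀ - δ) (s₀ + δ) := by
      simp only at h1
      rw [mem_ball, dist_eq_norm, ← Complex.ofReal_sub, Complex.norm_real, Real.norm_eq_abs] at h1
      have := abs_lt.1 (h1.trans_le he₁b)
      exact ⟨by linarith only [this, this.1], by linarith only [this, this.2]⟩
    obtain ⟨F, hF, hF0, hFΦ, hv⟩ := hval s hs
    obtain ⟨h4, h5, -⟩ := hv w (ball_subset_ball hR'.le (hzR h2))
    rw [hHr s w hp]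
    refine ⟨?_, ?_⟩
    · rw [hFΦ, pr_nv h4]
    · rw [h5, inner_smul_right, inv_mul_cancel₀ h4]
  refine ⟨H, hHd, fun p hp => ⟨?_, ?_⟩, fun s w hp => (hreal s w hp).1⟩
  · -- the identity theorem
    obtain ⟨h1, h2⟩ := hsub p hp
    have hd : DifferentiableOn ℂ (fun ζ => (inner ℂ v (H (ζ, p.2)) : ℂ)) (ball (s₀ : ℂ) e₁) := by
      refine (innerSL ℂ v).differentiable.comp_differentiableOn ?_
      intro ζ hζ
      have h3 : DifferentiableAt ℂ H (ζ, p.2) := hHd.differentiableAt (isOpen_ball.mem_nhds (by rw [← ball_prod_same]; exact ⟨hζ, h2⟩))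
      exact (h3.comp ζ (differentiableAt_id.prodMk (differentiableAt_const p.2))).differentiableWithinAt
    have hfr : ∃ᶠ ζ in 𝓝[≠] (s₀ : ℂ), (inner ℂ v (H (ζ, p.2)) : ℂ) = 1 := by
      have h4 : ∀ᶠ t : ℝ in 𝓝[≠] s₀, (inner ℂ v (H ((t : ℂ), p.2)) : ℂ) = 1 := by
        filter_upwards [mem_nhdsWithin_of_mem_nhds (ball_mem_nhds s₀ he₁0)] with t ht
        refine (hreal t p.2 ?_).2
        rw [← ball_prod_same]
        refine ⟨?_, h2⟩
        rw [mem_ball, dist_eq_norm, ← Complex.ofReal_sub, Complex.norm_real, ← dist_eq_norm]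
        exact ht
      have h5 : Tendsto (fun t : ℝ => (t : ℂ)) (𝓝[≠] s₀) (𝓝[≠] (s₀ : ℂ)) := by
        refine tendsto_nhdsWithin_iff.2 ⟨(Complex.continuous_ofReal.tendsto s₀).mono_left nhdsWithin_le_nhds, ?_⟩
        filter_upwards [self_mem_nhdsWithin] with t ht h6
        exact ht (Complex.ofReal_injective h6)
      exact h5.frequently h4.frequently
    have h6 := (hd.analyticOnNhd isOpen_ball).eqOn_of_preconnected_of_frequently_eq analyticOnNhd_const (convex_ball _ _).isPreconnected (mem_ball_self he₁0) hfr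
    exact h6 h1
  · obtain ⟨h1, h2⟩ := hsub p hp
    refine (norm_le_sum (H p)).trans (Finset.sum_le_sum fun j _ => ?_)
    rw [hH]
    exact hGb j p ⟨ball_subset_ball he₁a h1, hzR h2⟩

/-- the extension to complex parameters spreads, uniformly -/
theorem spread_u {l : Filter ι} {Φ : ι → ℝ → ℂ → MN N} {s₀ : ℝ} {Ω : Set ℂ} (hΦ : UFam l Φ s₀ Ω) (hΩc : IsPreconnected Ω) {z₁ : ℂ} (hz₁ : z₁ ∈ Ω)
    (hE : UE l Φ s₀ z₁) : ∀ z ∈ Ω, UE l Φ s₀ z := by
  obtain ⟨A, hA⟩ : ∃ A : Set ℂ, ∀ z, z ∈ A ↔ UE l Φ s₀ z := ⟨{z | UE l Φ s₀ z}, fun _ => Iff.rfl⟩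
  have hAo : IsOpen A := by
    rw [Metric.isOpen_iff]
    intro z hz
    obtain ⟨v, e, M, he, h⟩ := (hA z).1 hz
    refine ⟨e, he, fun w hw => (hA w).2 ⟨v, e - dist w z, M, by linarith [mem_ball.1 hw], h.mono fun i hi => hi.shrink (ball_subset_ball' ?_)⟩⟩
    have : dist ((s₀ : ℂ), w) ((s₀ : ℂ), z) = dist w z := by
      rw [Prod.dist_eq, dist_self, max_eq_right dist_nonneg]
    rw [this]
    linarith
  have hcl : closure A ∩ Ω ⊆ A := by
    rintro z ⟨hz, hzΩ⟩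
    obtain ⟨v, r, c, hr, hc, hcz⟩ := hΦ.cont z hzΩ
    obtain ⟨w, hwA, hwz⟩ := Metric.mem_closure_iff.1 hz (r / 2) (by linarith)
    refine (hA z).2 (step hΦ.lift (δ := r / 2) (by linarith) (z₁ := w) (R := r / 2) v hc ?_ ((hA w).1 hwA) (mem_ball.2 hwz))
    filter_upwards [hcz] with i hi s hs x hx
    refine hi s ⟨by linarith only [hr, hs, hs.1], by linarith [hs.2]⟩ x ?_
    rw [mem_ball]
    have := dist_triangle x w z
    have h5 := mem_ball.1 hx
    have h6 : dist w z < r / 2 := by rw [dist_comm]; exact hwz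
    linarith
  intro z hz
  have h := hΩc.subset_of_closure_inter_subset hAo ⟨z₁, hz₁, (hA z₁).2 hE⟩ hcl
  exact (hA z).1 (h hz)

end Pool.Agent.G4.C

end
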