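import Pool.Agent.H94.G4T.M96
import Pool.Agent.H94.G4T.M97

/-! The parts of this file: H13.CV.Dims, H13.CV.PoleF, H13.CV.Cases. -/

section

/-!
# CV Dims: dimensions of spaces of functions with given poles

`exists_W`: the functions `x ^ j * w i`, `0 ≤ j ≤ m - a i` (`j < m + 1 - a i`), are linearly independent over `ℂ` (the `w i` are a basis over `L`, and the powers of `x` are linearly independent over `ℂ`), their
number is `∑ i, (m + 1 - a i)` (truncated subtraction).  They are `RegAff x`, and at the places with `ord x < 0` their order is `≥ (j + a i) * oz E x ≥ m * oz E x` (`Birk.pole`); `polar x E = - oz E x` there and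
`0` elsewhere.  `W` is their span.

`exists_dv`: let `E` be a place with `ord x < 0`, `k ≤ m * (- oz E x)`.  Let `W ≤ LD (m * polar x)` as in `exists_W`, `T` the finite set of the places with `ord x < 0`, `∑ E' ∈ T, - oz E' x = n`
(`degree_inf`, `n = finrank L K`).  Apply `finrank_le_steps` with `d E' = - m * polar x E' = m * oz E' x`, `e E' = m * (- oz E' x)` for `E' ≠ E` and `e E = m * (- oz E x) - k`:
`W' = W ⊓ ⨅ E' ∈ T, ordGe E' (d E' + e E')` is contained in `LD (dv E k)` and `finrank W ≤ finrank W' + (m * n - k)`.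
-/

set_option autoImplicit false

open Pool.Agent.H23.Fano (PrimeDivisorOver Form regularForms)

noncomputable section

namespace Pool.Agent.H13.CV

variable {K : Type} [Field K] [Algebra ℂ K] {L : IntermediateField ℂ K} {x : K} {n : ℕ}

/-- the powers of a transcendental element are linearly independent -/
private theorem Dims_pow (hL : Gen L x) : LinearIndependent ℂ (fun j : ℕ => (⟨x, hL.mem⟩ : L) ^ j) := by
  have h1 : Transcendental ℂ (⟨x, hL.mem⟩ : L) := by
    intro h
    apply hL.tr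
    have h2 := (isAlgebraic_algebraMap_iff (R := ℂ) (S := L) (A := K) (a := (⟨x, hL.mem⟩ : L))
      (algebraMap L K).injective).2 h
    exact h2
  have h2 := transcendental_iff_injective.1 h1
  have h3 : LinearIndependent ℂ (fun j : ℕ => (Polynomial.monomial j (1 : ℂ))) := by
    have := (Polynomial.basisMonomials ℂ).linearIndependent
    rwa [Polynomial.coe_basisMonomials] at this
  have h4 := h3.map' (Polynomial.aeval (⟨x, hL.mem⟩ : L)).toLinearMap (LinearMap.ker_eq_bot.2 h2)
  have h5 : (⇑(Polynomial.aeval (⟨x, hL.mem⟩ : L)).toLinearMap ∘ fun j : ℕ => (Polynomial.monomial j (1 : ℂ))) =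
      fun j : ℕ => (⟨x, hL.mem⟩ : L) ^ j := by
    funext j
    simp [Polynomial.aeval_monomial]
  rwa [h5] at h4

private theorem Dims_polar_of_neg {E : Place K} (hE : E.ord x < 0) : polar x E = -oz E x := by
  have h1 := neg_iff.1 hE
  unfold polar
  omega

private theorem Dims_polar_of_nonneg {E : Place K} (hx : x ≠ 0) (hE : 0 ≤ E.ord x) : polar x E = 0 := by
  have h1 := (nonneg_iff.1 hE).resolve_left hx
  unfold polar
  omega

theorem Birk.exists_W (hK : CurveField K) (hL : Gen L x) {w : Module.Basis (Fin n) L K} {a : Fin n → ℕ} (hw : Birk x w a) (m : ℕ) :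
    ∃ W : Submodule ℂ K, FiniteDimensional ℂ W ∧ W ≤ LD (fun E => m * polar x E) ∧ Module.finrank ℂ W = ∑ i, (m + 1 - a i) := by
  have hx : x ≠ 0 := hL.ne_zero
  have h1 : LinearIndependent ℂ (fun p : ℕ × Fin n => ((⟨x, hL.mem⟩ : L) ^ p.1) • w p.2) :=
    linearIndependent_smul (Dims_pow hL) w.linearIndependent
  have h2 : LinearIndependent ℂ (fun p : (i : Fin n) × Fin (m + 1 - a i) => x ^ (p.2 : ℕ) * w p.1) := by
    have h3 := h1.comp (fun p : (i : Fin n) × Fin (m + 1 - a i) => ((p.2 : ℕ), p.1)) (by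
      rintro ⟨i, j⟩ ⟨i', j'⟩ h
      simp only [Prod.mk.injEq] at h
      obtain ⟨h4, h5⟩ := h
      subst h5
      have h6 : j = j' := Fin.ext h4
      rw [h6])
    refine h3
  refine ⟨Submodule.span ℂ (Set.range fun p : (i : Fin n) × Fin (m + 1 - a i) => x ^ (p.2 : ℕ) * w p.1),
    FiniteDimensional.span_of_finite ℂ (Set.finite_range _), ?_, ?_⟩
  · rw [Submodule.span_le]
    rintro _ ⟨⟨i, j⟩, rfl⟩
    show x ^ (j : ℕ) * w i ∈ LD _
    rw [mem_LD]
    intro E
    have hwi : w i ≠ 0 := w.ne_zero i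
    have hxj : x ^ (j : ℕ) ≠ 0 := pow_ne_zero _ hx
    rw [le_ord_iff]
    right
    rw [oz_mul E hxj hwi, oz_pow]
    have hj : (j : ℕ) < m + 1 - a i := j.2
    rcases lt_or_ge (E.ord x) 0 with hE | hE
    · show -((m : ℤ) * polar x E) ≤ _
      rw [Dims_polar_of_neg hE]
      have hxE : oz E x < 0 := neg_iff.1 hE
      have h3 := Birk.pole hL hw i E ((inv_pos_iff hx).2 hE)
      have h4 := (nonneg_iff.1 h3).resolve_left (mul_ne_zero (pow_ne_zero _ (inv_ne_zero hx)) hwi)
      rw [oz_mul E (pow_ne_zero _ (inv_ne_zero hx)) hwi, oz_pow, oz_inv] at h4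
      have h5 : ((j : ℕ) : ℤ) + a i ≤ m := by omega
      nlinarith
    · show -((m : ℤ) * polar x E) ≤ _
      rw [Dims_polar_of_nonneg hx hE]
      have hxE : 0 ≤ oz E x := (nonneg_iff.1 hE).resolve_left hx
      have h3 := AffB.basis_regAff hw.aff i E hE
      have h4 := (nonneg_iff.1 h3).resolve_left hwi
      have h5 : (0 : ℤ) ≤ ((j : ℕ) : ℤ) * oz E x := mul_nonneg (Int.natCast_nonneg _) hxE
      linarith
  · rw [finrank_span_eq_card h2, Fintype.card_sigma]
    simp only [Fintype.card_fin]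

theorem Birk.exists_dv (hK : CurveField K) (hL : Gen L x) {w : Module.Basis (Fin n) L K} {a : Fin n → ℕ} (hw : Birk x w a) (m k : ℕ)
    {E : Place K} (hE : E.ord x < 0) (hk : (k : ℤ) ≤ m * (-oz E x)) :
    ∃ W : Submodule ℂ K, FiniteDimensional ℂ W ∧ W ≤ LD (dv E k) ∧ (∑ i, (m + 1 - a i)) + k ≤ Module.finrank ℂ W + m * n := by
  classical
  have hx : x ≠ 0 := hL.ne_zero
  obtain ⟨W, hW1, hW2, hW3⟩ := hw.exists_W hK hL m
  have := hW1
  have : FiniteDimensional L K := Module.Finite.of_basis w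
  have hn : Module.finrank L K = n := by
    rw [Module.finrank_eq_card_basis w, Fintype.card_fin]
  have hfin := finite_over hL.inv
  set T : Finset (Place K) := hfin.toFinset with hTdef
  have hT : ∀ E', E' ∈ T ↔ E'.ord x < 0 := by
    intro E'
    rw [hTdef, Set.Finite.mem_toFinset]
    exact inv_pos_iff hx
  have hdeg := degree_inf hK hL T hT
  rw [hn] at hdeg
  have hET : E ∈ T := (hT E).2 hE
  set d : Place K → ℤ := fun E' => -(m * polar x E') with hd
  set e : Place K → ℕ := fun E' => if E' = E then (m * (-oz E x) - k).toNat else (m * (-oz E' x)).toNat with he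
  have hstep := finrank_le_steps hK W T d e (fun E' _ => hW2.trans (iInf_le _ E'))
  have he1 : ((e E : ℕ) : ℤ) = m * (-oz E x) - k := by
    simp only [he, if_true]
    rw [Int.toNat_of_nonneg (by linarith)]
  have he2 : ∀ E' ∈ T, E' ≠ E → ((e E' : ℕ) : ℤ) = m * (-oz E' x) := by
    intro E' hE' hne
    simp only [he, if_neg hne]
    have h1 := neg_iff.1 ((hT E').1 hE')
    rw [Int.toNat_of_nonneg (mul_nonneg (Int.natCast_nonneg _) (by linarith))]
  have hsum : ((∑ E' ∈ T, e E' : ℕ) : ℤ) = m * n - k := by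
    push_cast
    rw [← Finset.add_sum_erase T _ hET, he1, Finset.sum_congr rfl (fun E' hE' =>
      he2 E' (Finset.mem_of_mem_erase hE') (Finset.ne_of_mem_erase hE')), ← hdeg,
      ← Finset.add_sum_erase T _ hET, mul_add, Finset.mul_sum]
    ring
  refine ⟨W ⊓ ⨅ E' ∈ T, ordGe E' (d E' + e E'), Submodule.finiteDimensional_of_le inf_le_left, ?_, ?_⟩
  · intro f hf
    obtain ⟨hf1, hf2⟩ := Submodule.mem_inf.1 hf
    rw [mem_LD]
    intro E'
    by_cases hE' : E' ∈ T
    · have h1 : f ∈ ordGe E' (d E' + e E') := by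
        have h2 := (Submodule.mem_iInf _).1 hf2 E'
        exact (Submodule.mem_iInf _).1 h2 hE'
      rw [mem_ordGe] at h1
      have h2 : d E' + e E' = -dv E k E' := by
        have h3 : d E' = -(m * (-oz E' x)) := by
          simp only [hd]
          rw [Dims_polar_of_neg ((hT E').1 hE')]
        by_cases hne : E' = E
        · subst hne
          rw [h3, he1]
          unfold dv
          rw [if_pos rfl]
          ring
        · rw [h3, he2 E' hE' hne]
          unfold dv
          rw [if_neg hne]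
          ring
      rw [h2] at h1
      exact h1
    · have hne : E' ≠ E := fun h => hE' (h ▸ hET)
      have h1 : 0 ≤ E'.ord x := by
        by_contra hcon
        exact hE' ((hT E').2 (not_le.1 hcon))
      have h2 := mem_LD.1 (hW2 hf1) E'
      have h3 : -((m : ℤ) * polar x E') = -dv E k E' := by
        rw [Dims_polar_of_nonneg hx h1]
        unfold dv
        rw [if_neg hne]
        ring
      have h4 : ((-((m : ℤ) * polar x E') : ℤ) : WithTop ℤ) ≤ E'.ord f := h2
      rw [h3] at h4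
      exact h4
  · have h1 : (Module.finrank ℂ W : ℤ) ≤ (Module.finrank ℂ (W ⊓ ⨅ E' ∈ T, ordGe E' (d E' + e E') : Submodule ℂ K) : ℤ) +
        ((∑ E' ∈ T, e E' : ℕ) : ℤ) := by exact_mod_cast hstep
    rw [hsum, hW3] at h1
    have h2 : (((∑ i, (m + 1 - a i)) + k : ℕ) : ℤ) ≤
        ((Module.finrank ℂ (W ⊓ ⨅ E' ∈ T, ordGe E' (d E' + e E') : Submodule ℂ K) + m * n : ℕ) : ℤ) := by
      push_cast at h1 ⊢
      linarith
    exact_mod_cast h2

end Pool.Agent.H13.CV

end
end

section

/-!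
# CV PoleF: functions with a single pole

`exists_pole_only`: let `oz E t = 1`, `x = t⁻¹` (transcendental: `tr_of_oz_ne`), `L = ℂ(x)`, `n = finrank L K`, `w, a` a Birkhoff basis (`exists_birk`).  `Birk.exists_dv` with `k = m ≥ 2 + ∑ i, a i`, `oz E x = - 1`:
`∑ i, (m + 1 - a i) ≥ n * (m + 1) - ∑ a i`, so `finrank W ≥ n + m - ∑ a i ≥ 2`; so `W` contains a non-constant function (`exists_not_const`), it is transcendental
(`transcendental_of_not_const`).
`lgt_of_boundary`: the functions `h ^ k`, `f * h ^ k` (`pole_mul_pow`), `lgt_of_forms` with `m = k`: at `E₀` (`B E₀`): `f` has order `≥ - k`; at the other places `0 ≤ ord f`.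
-/

set_option autoImplicit false

open Pool.Agent.H23.Fano (PrimeDivisorOver Form regularForms)
open Pool.Agent.H17LG.Variety (PoleAtMost IsLogGeneralType)

noncomputable section

namespace Pool.Agent.H13.CV

variable {K : Type} [Field K] [Algebra ℂ K]

theorem exists_pole_only (hK : CurveField K) (E : Place K) : ∃ (f : K) (k : ℕ), 1 ≤ k ∧ Transcendental ℂ f ∧ f ∈ LD (dv E k) := by
  obtain ⟨t, -, ht⟩ := exists_uni E
  have hoz : oz E t⁻¹ = -1 := by rw [oz_inv, ht]
  have htr : Transcendental ℂ t⁻¹ := tr_of_oz_ne (E := E) (by rw [hoz]; norm_num)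
  have hL : Gen (IntermediateField.adjoin ℂ {t⁻¹}) t⁻¹ := ⟨htr, rfl⟩
  have := hK.fin _ htr
  obtain ⟨w, a, hw⟩ := exists_birk hK hL
  have hE : E.ord t⁻¹ < 0 := by
    rw [neg_iff, hoz]
    norm_num
  obtain ⟨n, hn⟩ : ∃ n, n = Module.finrank (IntermediateField.adjoin ℂ {t⁻¹}) K := ⟨_, rfl⟩
  obtain ⟨A, hA⟩ : ∃ A, A = ∑ i, a i := ⟨_, rfl⟩
  obtain ⟨W, hWf, hW, hWd⟩ := hw.exists_dv hK hL (A + 2) (A + 2) hE (by rw [hoz]; simp)
  have h1 : n * (A + 2 + 1) ≤ (∑ i, (A + 2 + 1 - a i)) + A := by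
    rw [hA, ← Finset.sum_add_distrib, ← hA]
    calc n * (A + 2 + 1) = ∑ _i : Fin (Module.finrank (IntermediateField.adjoin ℂ {t⁻¹}) K), (A + 2 + 1) := by
          simp [hn]
      _ ≤ _ := Finset.sum_le_sum fun i _ => by omega
  have hn1 : 1 ≤ n := by
    rw [hn]
    exact Module.finrank_pos
  have h2 : 2 ≤ Module.finrank ℂ W := by
    obtain ⟨S, hS⟩ : ∃ S, S = ∑ i, (A + 2 + 1 - a i) := ⟨_, rfl⟩
    rw [← hS] at hWd h1
    rw [← hn] at hWd
    have h3 : n * (A + 2 + 1) = (A + 2) * n + n := by ring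
    rw [h3] at h1
    generalize (A + 2) * n = z at h1 hWd
    omega
  have := hWf
  obtain ⟨f, hf, hc⟩ := exists_not_const h2
  exact ⟨f, A + 2, by omega, transcendental_of_not_const hc, hW hf⟩

theorem lgt_of_boundary (hK : CurveField K) {B : Place K → Prop} {ω : Form K 1} (hω : ω ≠ 0) {h : K} (h0 : h ≠ 0) (hh : ∀ E, PoleAtMost 0 E 1 h ω)
    {E₀ : Place K} (hE₀ : B E₀) : IsLogGeneralType B := by
  obtain ⟨f, k, hk, htr, hf⟩ := exists_pole_only hK E₀
  rw [mem_LD] at hf
  have hone : ∀ (E : Place K) (p : ℕ), PoleAtMost p E k (h ^ k) ω := by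
    intro E p
    have h1 := pole_mul_pow (f := (1 : K)) (m := k) (p := p) (hh E) (by
      rw [E.ord.map_one, zero_add]
      exact_mod_cast Nat.zero_le p)
    rwa [one_mul] at h1
  have hle : ∀ E : Place K, 0 ≤ E.ord f + ((k : ℕ) : WithTop ℤ) := by
    intro E
    have h1 := hf E
    have h2 : dv E₀ k E ≤ (k : ℤ) := by
      unfold dv
      split_ifs
      · exact le_rfl
      · positivity
    have h3 : ((-(k : ℤ) : ℤ) : WithTop ℤ) ≤ E.ord f := le_trans (by exact_mod_cast neg_le_neg h2) h1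
    have h4 : (0 : WithTop ℤ) = ((-(k : ℤ) : ℤ) : WithTop ℤ) + ((k : ℕ) : WithTop ℤ) := by
      have : ((k : ℕ) : WithTop ℤ) = ((k : ℤ) : WithTop ℤ) := by norm_cast
      rw [this, ← WithTop.coe_add, neg_add_cancel]
      rfl
    rw [h4]
    exact add_le_add h3 le_rfl
  refine lgt_of_forms hK hω hk (pow_ne_zero k h0) (f₁ := f * h ^ k) ?_ (fun E => ⟨fun _ => hone E 0, fun _ => hone E k⟩)
    (fun E => ⟨fun hE => ?_, fun _ => pole_mul_pow (hh E) (hle E)⟩)
  · rwa [mul_div_assoc, div_self (pow_ne_zero k h0), mul_one]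
  · refine pole_mul_pow (hh E) ?_
    have h1 := hf E
    have h2 : dv E₀ k E = 0 := by
      unfold dv
      rw [if_neg]
      rintro rfl
      exact hE hE₀
    rw [h2, neg_zero] at h1
    simpa using h1

end Pool.Agent.H13.CV

end
end

section

/-!
# CV Cases: the three cases (genus at least two, one, zero)

Let `x` be transcendental (`hK.exists_tr`), `L = ℂ(x)`, `n = finrank L K`, `w, a` a Birkhoff basis (`exists_birk`), `v` the dual basis (`exists_dual`), `i₀` as in `Birk.exists_zero`: `a i₀ = 0`, `1 ≤ a i` for `i ≠ i₀`.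
(1) If there are two different pairs `(i, j)`, `(i', j')` with `j + 2 ≤ a i`, `j' + 2 ≤ a i'`: `h₁ = x ^ j * v i`, `h₂ = x ^ j' * v i'` are linearly independent over `ℂ` (`v` is a basis over `L`, the powers of `x`
are linearly independent over `ℂ`), so `h₂ / h₁` is not a constant: first alternative, by `regular_form`, `ω = dx x ≠ 0` (`dx_ne_zero`).
(2) If there is exactly one such pair `(i₁, j)`: then `a i₁ = 2` (`j = 0`; if `a i₁ ≥ 3` there are two pairs), and `a i = 1` for `i ≠ i₀, i₁`.  `h = v i₁`.  Let `E` be a place with `ord x < 0`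
(`exists_place_inf`).  For `k ≥ 1` use `Birk.exists_dv` with `m = k`: `k ≤ k * (- oz E x)`; `∑ i, (k + 1 - a i) = (k + 1) + (k - 1) + (n - 2) * k = n * k`, so `n * k + k ≤ finrank W + k * n`.
(3) If there is none: `a i = 1` for `i ≠ i₀`.  `E` as before, `Birk.exists_dv` with `m = k = 1`: `∑ i, (2 - a i) = 2 + (n - 1) = n + 1`, so `finrank W ≥ 2`, `W ≤ LD (dv E 1)`.  So there is a non-constant `f ∈ LD (dv E 1)`
(`exists_not_const`): `top_of_dv_one`.
-/

set_option autoImplicit false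

open Pool.Agent.H23.Fano (PrimeDivisorOver Form regularForms)
open Pool.Agent.H17LG.Variety (PoleAtMost IsLogGeneralType)

noncomputable section

namespace Pool.Agent.H13.CV

variable {K : Type} [Field K] [Algebra ℂ K]

private theorem Cases_not_const {L : IntermediateField ℂ K} {x : K} {n : ℕ} (hL : Gen L x) (v : Module.Basis (Fin n) L K)
    {i i' : Fin n} {j j' : ℕ} (hne : i ≠ i' ∨ j ≠ j') (c : ℂ) : x ^ j' * v i' / (x ^ j * v i) ≠ algebraMap ℂ K c := by
  intro hc
  have hx0 : x ≠ 0 := hL.ne_zero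
  have h1 : x ^ j * v i ≠ 0 := mul_ne_zero (pow_ne_zero _ hx0) (v.ne_zero i)
  rw [div_eq_iff h1] at hc
  obtain ⟨xL, hxL⟩ : ∃ xL : L, (xL : K) = x := ⟨⟨x, hL.mem⟩, rfl⟩
  have hxL0 : xL ≠ 0 := by
    intro h
    apply hx0
    rw [← hxL, h]
    rfl
  by_cases hii : i = i'
  · subst hii
    have hjj : j ≠ j' := by
      rcases hne with h | h
      · exact absurd rfl h
      · exact h
    rw [← mul_assoc] at hc
    have h2 : x ^ j' = algebraMap ℂ K c * x ^ j := mul_right_cancel₀ (v.ne_zero i) hc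
    apply hL.tr
    refine ⟨Polynomial.X ^ j' - Polynomial.C c * Polynomial.X ^ j, ?_, ?_⟩
    · intro h0
      have h3 := congrArg (fun p : Polynomial ℂ => p.coeff j') h0
      simp only [Polynomial.coeff_sub, Polynomial.coeff_X_pow_self, Polynomial.coeff_C_mul, Polynomial.coeff_X_pow,
        Polynomial.coeff_zero, if_neg (Ne.symm hjj), mul_zero, sub_zero] at h3
      exact one_ne_zero h3
    · rw [map_sub, map_mul, map_pow, map_pow, Polynomial.aeval_X, Polynomial.aeval_C, h2, sub_self]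
  · have h2 : x ^ j' * v i' = xL ^ j' • v i' := by
      rw [Algebra.smul_def]
      show x ^ j' * v i' = ((xL ^ j' : L) : K) * v i'
      push_cast
      rw [hxL]
    have h3 : algebraMap ℂ K c * (x ^ j * v i) = (algebraMap ℂ L c * xL ^ j) • v i := by
      rw [Algebra.smul_def]
      show algebraMap ℂ K c * (x ^ j * v i) = ((algebraMap ℂ L c * xL ^ j : L) : K) * v i
      push_cast
      rw [hxL, ← mul_assoc]
    rw [h2, h3] at hc
    have h4 := congrArg (fun f : K => v.repr f i') hc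
    simp only [map_smul, Finsupp.smul_apply, Module.Basis.repr_self, Finsupp.single_eq_same, Finsupp.single_eq_of_ne (Ne.symm hii),
      smul_eq_mul, mul_one, mul_zero] at h4
    exact pow_ne_zero _ hxL0 h4

private theorem Cases_sum {n : ℕ} (a : Fin n → ℕ) (k : ℕ) (i₀ i₁ : Fin n) (h0 : a i₀ = 0) (h1 : a i₁ = 2) (hk : 1 ≤ k)
    (h : ∀ i, i ≠ i₀ → i ≠ i₁ → a i = 1) : ∑ i, (k + 1 - a i) = n * k := by
  have hne : i₀ ≠ i₁ := by
    intro h2
    rw [h2, h1] at h0
    omega
  have h2 : ∑ i, ((k + 1 - a i) + (if i = i₁ then 1 else 0)) = ∑ i : Fin n, (k + (if i = i₀ then 1 else 0)) := by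
    refine Finset.sum_congr rfl fun i _ => ?_
    by_cases hi0 : i = i₀
    · rw [if_neg (by rw [hi0]; exact hne), if_pos hi0, hi0, h0]
      omega
    · by_cases hi1 : i = i₁
      · rw [if_pos hi1, if_neg hi0, hi1, h1]
        omega
      · rw [if_neg hi1, if_neg hi0, h i hi0 hi1]
        omega
  rw [Finset.sum_add_distrib, Finset.sum_add_distrib, Finset.sum_ite_eq' Finset.univ i₁, Finset.sum_ite_eq' Finset.univ i₀,
    if_pos (Finset.mem_univ _), if_pos (Finset.mem_univ _), Finset.sum_const, Finset.card_univ, Fintype.card_fin, smul_eq_mul] at h2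
  omega

private theorem Cases_sum_one {n : ℕ} (a : Fin n → ℕ) (i₀ : Fin n) (h0 : a i₀ = 0)
    (h : ∀ i, i ≠ i₀ → a i = 1) : ∑ i, (1 + 1 - a i) = n + 1 := by
  have h2 : ∑ i, (1 + 1 - a i) = ∑ i : Fin n, (1 + (if i = i₀ then 1 else 0)) := by
    refine Finset.sum_congr rfl fun i _ => ?_
    by_cases hi0 : i = i₀
    · rw [if_pos hi0, hi0, h0]
    · rw [if_neg hi0, h i hi0]
  rw [h2, Finset.sum_add_distrib, Finset.sum_ite_eq' Finset.univ i₀,
    if_pos (Finset.mem_univ _), Finset.sum_const, Finset.card_univ, Fintype.card_fin, smul_eq_mul, mul_one]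

theorem genus_cases (hK : CurveField K) :
    (∃ (ω : Form K 1) (h₁ h₂ : K), ω ≠ 0 ∧ h₁ ≠ 0 ∧ Transcendental ℂ (h₂ / h₁) ∧ ∀ E, PoleAtMost 0 E 1 h₁ ω ∧ PoleAtMost 0 E 1 h₂ ω) ∨
    ((∃ (ω : Form K 1) (h : K), ω ≠ 0 ∧ h ≠ 0 ∧ ∀ E, PoleAtMost 0 E 1 h ω) ∧
      ∃ E : Place K, ∀ k : ℕ, 1 ≤ k → ∃ W : Submodule ℂ K, FiniteDimensional ℂ W ∧ W ≤ LD (dv E k) ∧ k ≤ Module.finrank ℂ W) ∨
    ∃ t : K, IntermediateField.adjoin ℂ {t} = ⊤ := by
  obtain ⟨x, hx⟩ := hK.exists_tr
  obtain ⟨L, hLdef⟩ : ∃ L : IntermediateField ℂ K, L = IntermediateField.adjoin ℂ {x} := ⟨_, rfl⟩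
  have hL : Gen L x := ⟨hx, hLdef⟩
  have : FiniteDimensional L K := by
    rw [hLdef]
    exact hK.fin x hx
  obtain ⟨n, w, a, hw⟩ : ∃ (n : ℕ) (w : Module.Basis (Fin n) L K) (a : Fin n → ℕ), Birk x w a := by
    obtain ⟨w, a, hw⟩ := exists_birk hK hL
    exact ⟨_, w, a, hw⟩
  obtain ⟨i₀, hi₀, hi₁⟩ := hw.exists_zero hK hL
  obtain ⟨v, hv⟩ := exists_dual w
  obtain ⟨E, hE⟩ := exists_place_inf hK hx
  have hoz : 1 ≤ -oz E x := by
    have := neg_iff.mp hE
    omega
  by_cases hP : ∃ (i : Fin n) (j : ℕ) (i' : Fin n) (j' : ℕ), j + 2 ≤ a i ∧ j' + 2 ≤ a i' ∧ (i ≠ i' ∨ j ≠ j')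
  · left
    obtain ⟨i, j, i', j', h1, h2, hne⟩ := hP
    refine ⟨dx x, x ^ j * v i, x ^ j' * v i', dx_ne_zero hx, mul_ne_zero (pow_ne_zero _ hL.ne_zero) (v.ne_zero i), ?_, ?_⟩
    · exact transcendental_of_not_const fun c => Cases_not_const hL v hne c
    · exact fun E' => ⟨regular_form hK hL hw hv h1 E', regular_form hK hL hw hv h2 E'⟩
  · right
    have hU : ∀ (i : Fin n) (j : ℕ) (i' : Fin n) (j' : ℕ), j + 2 ≤ a i → j' + 2 ≤ a i' → i = i' ∧ j = j' := by
      intro i j i' j' h1 h2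
      by_contra hcon
      apply hP
      refine ⟨i, j, i', j', h1, h2, ?_⟩
      by_cases hii : i = i'
      · right
        intro hjj
        exact hcon ⟨hii, hjj⟩
      · left
        exact hii
    by_cases hQ : ∃ i : Fin n, 2 ≤ a i
    · left
      obtain ⟨i₁, h1⟩ := hQ
      have ha1 : a i₁ = 2 := by
        by_contra h2
        have h3 := (hU i₁ 0 i₁ 1 (by omega) (by omega)).2
        omega
      have hoth : ∀ i, i ≠ i₀ → i ≠ i₁ → a i = 1 := by
        intro i h2 h3
        have h4 := hi₁ i h2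
        by_contra h5
        exact h3 (hU i 0 i₁ 0 (by omega) (by omega)).1
      refine ⟨⟨dx x, v i₁, dx_ne_zero hx, v.ne_zero i₁, fun E' => ?_⟩, E, fun k hk => ?_⟩
      · have h2 := regular_form hK hL hw hv (j := 0) (i := i₁) (by omega) E'
        rwa [pow_zero, one_mul] at h2
      · obtain ⟨W, hW1, hW2, hW3⟩ := hw.exists_dv hK hL k k hE (by
          have : (0 : ℤ) ≤ k := Int.natCast_nonneg k
          nlinarith)
        refine ⟨W, hW1, hW2, ?_⟩
        rw [Cases_sum a k i₀ i₁ hi₀ ha1 hk hoth, mul_comm n k] at hW3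
        omega
    · right
      push Not at hQ
      have hoth : ∀ i, i ≠ i₀ → a i = 1 := by
        intro i h2
        have h4 := hi₁ i h2
        have h5 := hQ i
        omega
      obtain ⟨W, hW1, hW2, hW3⟩ := hw.exists_dv hK hL 1 1 hE (by
        push_cast
        omega)
      rw [Cases_sum_one a i₀ hi₀ hoth] at hW3
      have := hW1
      obtain ⟨f, hf, hfc⟩ := exists_not_const (W := W) (by omega)
      have h2 : f ∈ LD (dv E 1) := by
        have h3 := hW2 hf
        rwa [Nat.cast_one] at h3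
      exact ⟨f, top_of_dv_one hK h2 hfc⟩

end Pool.Agent.H13.CV

end
end
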