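import Pool.Agent.H94.G4T.M25
import Pool.Agent.H94.G4T.M51
import Pool.Agent.H94.G4T.M56
import Pool.Agent.H94.G4T.M65
import Pool.Agent.H94.G4T.M69
import Pool.Agent.H94.G4T.M79
import Pool.Agent.H94.G4T.M80

/-! The parts of this file: AD.T.Proj, H17G.ChG, G3.P.Lip, G3.A.Tor, G4.H.Lb, G3.P.Cls, G4.Z.LctA. -/

section

/-!
# AD T Proj: pseudo-lengths from holomorphic maps to tori and from symmetric differentials, on projective manifolds
-/

set_option autoImplicit false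

open Topology Filter Metric MvPolynomial

noncomputable section

namespace Pool.Agent.AD

open Pool.Agent.H36.BP (EN fs wd)
open Pool.Agent.H14.PP (IsCone Tan CurveAt)
open Pool.Agent.H17 (PN HolomorphicInto)
open Pool.Agent.H62.FC (Homog)
open Pool.Agent.H17EF (projVar coneE LE mk_mem_projVar mem_coneE)

variable {N g : ℕ} {P : Ideal (MvPolynomial (Fin (N + 1)) ℂ)}

open Classical in
/-- the map to the torus as a function on the cone -/
def uV (Λ : AddSubgroup (Fin g → ℂ)) (u : PN N → (Fin g → ℂ) ⧸ Λ) (y : EN N) : Fin g → ℂ :=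
  if h : (LE N).symm y ≠ 0 then Quotient.out (u (Projectivization.mk ℂ ((LE N).symm y) h)) else 0

theorem uV_eq (Λ : AddSubgroup (Fin g → ℂ)) (u : PN N → (Fin g → ℂ) ⧸ Λ) {y : EN N} (h : (LE N).symm y ≠ 0) :
    ((uV Λ u y : Fin g → ℂ) : (Fin g → ℂ) ⧸ Λ) = u (Projectivization.mk ℂ ((LE N).symm y) h) := by
  unfold uV
  rw [dif_pos h]
  exact Quotient.out_eq _

theorem sub_mem_iff {Λ : AddSubgroup (Fin g → ℂ)} {a b : Fin g → ℂ} :
    a - b ∈ Λ ↔ ((a : Fin g → ℂ) : (Fin g → ℂ) ⧸ Λ) = (b : (Fin g → ℂ) ⧸ Λ) := by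
  rw [QuotientAddGroup.eq, ← neg_mem_iff]
  constructor
  · intro h
    convert h using 1
    abel
  · intro h
    convert h using 1
    abel

theorem torusMapV (hP : Homog P) {Λ : AddSubgroup (Fin g → ℂ)} {u : PN N → (Fin g → ℂ) ⧸ Λ}
    (hu : IsHolomorphicTorusMap (projVar P) Λ u) : TorusMapV (coneE P) Λ (uV Λ u) := by
  constructor
  · intro x hx c hc
    have h1 : (LE N).symm x ≠ 0 := hx.1
    have h2 : (LE N).symm (c • x) ≠ 0 := by
      rw [map_smul]
      exact smul_ne_zero hc h1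
    rw [sub_mem_iff, uV_eq Λ u h1, uV_eq Λ u h2]
    congr 1
    rw [Projectivization.mk_eq_mk_iff']
    exact ⟨c, (map_smul _ _ _).symm⟩
  · intro x hx
    obtain ⟨h1, h2⟩ := (mem_coneE hP).1 hx
    obtain ⟨v, hv, hv'⟩ := hu _ h1 h2
    refine ⟨fun y => v ((LE N).symm y), ?_, ?_⟩
    · exact AnalyticAt.comp (g := v) (f := fun y : EN N => (LE N).symm y) hv (((LE N).symm : EN N →L[ℂ] (Fin (N + 1) → ℂ)).analyticAt x)
    · have h3 : Tendsto (fun y : EN N => (LE N).symm y) (𝓝 x) (𝓝 ((LE N).symm x)) := (LE N).symm.continuous.tendsto x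
      filter_upwards [h3.eventually hv'] with y hy hyX
      obtain ⟨h4, h5⟩ := (mem_coneE hP).1 hyX
      rw [sub_mem_iff, uV_eq Λ u h4]
      exact hy h4 h5

theorem discreteSub_of (Λ : AddSubgroup (Fin g → ℂ)) [DiscreteTopology Λ] : DiscreteSub Λ := by
  have h1 : ({0} : Set Λ) ∈ 𝓝 (0 : Λ) := by
    rw [nhds_discrete]
    exact Set.mem_singleton 0
  obtain ⟨δ, hδ, h⟩ := Metric.mem_nhds_iff.1 h1
  refine ⟨δ, hδ, fun l hl hn => ?_⟩
  have h2 : (⟨l, hl⟩ : Λ) ∈ ball (0 : Λ) δ := by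
    rw [mem_ball, Subtype.dist_eq]
    simpa [dist_eq_norm] using hn
  have h3 := h h2
  rw [Set.mem_singleton_iff] at h3
  exact congrArg Subtype.val h3

end Pool.Agent.AD

end
end

section

/-!
# G ChG: the local coordinates and the forms, from the projective space to the cone

* `isNC_of`: let `x ∈ coneE P`, and `σ, τ, c, i, j` as in `IsNCPoint` for the point of `x`.  `σ 0 = b • (LE N).symm x` with `b ≠ 0`; put `σ' p = (LE N) (b⁻¹ • σ p)`, so `σ' 0 = x`, `σ' p ∈ coneE P`, `uE Λ u (σ' p) - (c + s^i t^j) ∈ Λ` for `p = (s, t)` near `0`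
  (compare the proof of `H17EF.fibHyp` in `H17EF/Bridge.lean`, where the same is done for nodes; there also `τ' y = τ (b • (LE N).symm y)` with
  `∀ᶠ y in 𝓝 x, y ∈ coneE P → ∃ a ≠ 0, y = a • σ' (τ' y)`).  Only the property `IsGermChart.inv` is missing, so `τ'` is changed: let `χ` be a chart (`Pool.Agent.H14.PP.Chart`) with `x ∈ χ.U`, `χ.q x = 0` (`H17EF.charts hS`),
  and `h p = χ.q (σ' p)`, analytic at `0`, `h 0 = 0`; `k p = τ' (s p)`, `s p = a₀ • χ.σ p` with `a₀ • χ.σ 0 = x` (`χ.surj`: `x = a₀ • χ.σ (χ.q x) = a₀ • χ.σ 0`), `k 0 = τ' x = 0`.  For `p` near `0`: `s p ∈ coneE P` is near `x`, so `s p = a • σ' (k p)`, so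
  `p = χ.q (χ.σ p) = χ.q (s p) = χ.q (σ' (k p)) = h (k p)` (`χ.q_smul`; `σ' (k p) ∈ χ.U`).  So `h ∘ k = id` near `0`, the derivatives `h'(0)`, `k'(0)` (in dimension 2) are inverse to each other, `h` is a local homeomorphism with analytic inverse, and the inverse is
  `k` near `0` (`HasStrictFDerivAt` inverse function theorem, or: `k` is injective near `0` and open, so `k ∘ h = id` near `0`).  Put `τ'' y = k (χ.q y)`: it is analytic at `x`, `τ'' (σ' p) = k (h p) = p`; for `y ∈ coneE P` near `x`, `y = a • χ.σ (χ.q y)` and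
  `χ.q y = h (k (χ.q y)) = χ.q (σ' (τ'' y))`, so `σ' (τ'' y) = a' • χ.σ (χ.q y)`, so `y` is a multiple of `σ' (τ'' y)`; `inv`: `χ.q (c • y) = χ.q y` for `y ∈ χ.U`, `c ≠ 0`.

* `tform`: transport by `LE N`: `toFun z x v w = Ω z ((LE N).symm x) ((LE N).symm v) ((LE N).symm w)`; `Over (projVar P) Λ u z ((LE N).symm x) ↔ x ∈ coneE P ∧ uE Λ u x - z ∈ Λ` (`mem_coneE`, `uE_eq`, `sub_mem_iff`); tangent vectors: compare
  `H36.BP.tan_transport` and `formT` (`H36/BP/Nodal.lean`).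
-/

set_option autoImplicit false

open Topology Filter Metric MvPolynomial

noncomputable section

namespace Pool.Agent.H17G

open Pool.Agent.H17 (PN VanishesAt HolomorphicInto)
open Pool.Agent.H62.FC (Homog)
open Pool.Agent.H62.EF (Charts)
open Pool.Agent.H17BP (Surface)
open Pool.Agent.H13.SM (cone)
open Pool.Agent.H36.BP (EN IsGermChart)
open Pool.Agent.H14.PP (IsCone Chart Tan)
open Pool.Agent.H17EF (projVar coneE uE LE mem_coneE sub_mem_iff uE_eq mk_mem_projVar)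

variable {N : ℕ} {P : Ideal (MvPolynomial (Fin (N + 1)) ℂ)} {Λ Γ : AddSubgroup ℂ} {u : PN N → ℂ ⧸ Λ}

theorem over_iff (hP : Homog P) {z : ℂ} {x : EN N} : Over (projVar P) Λ u z ((LE N).symm x) ↔ x ∈ coneE P ∧ uE Λ u x - z ∈ Λ := by
  constructor
  · rintro ⟨h, h1, h2⟩
    exact ⟨(mem_coneE hP).2 ⟨h, h1⟩, by rw [sub_mem_iff, uE_eq Λ u h]; exact h2⟩
  · rintro ⟨h1, h2⟩
    obtain ⟨h, h3⟩ := (mem_coneE hP).1 h1
    exact ⟨h, h3, by rw [← uE_eq Λ u h]; exact sub_mem_iff.1 h2⟩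

theorem isTangent_iff (hP : Homog P) {x v : EN N} (hx : x ∈ coneE P) :
    IsTangent (projVar P) ((LE N).symm x) ((LE N).symm v) ↔ Tan (coneE P) x v := by
  constructor
  · rintro ⟨γ, hγ, h0, h1, h2⟩
    refine ⟨fun z => (LE N) (γ z), ⟨((LE N : (Fin (N + 1) → ℂ) →L[ℂ] EN N).analyticAt _).comp hγ, ?_⟩, ?_, ?_⟩
    · filter_upwards [h2] with z hz
      obtain ⟨h3, h4⟩ := hz
      rw [mem_coneE hP]
      have h5 : (LE N).symm ((LE N) (γ z)) = γ z := ContinuousLinearEquiv.symm_apply_apply _ _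
      rw [h5]
      exact ⟨h3, h4⟩
    · show (LE N) (γ 0) = x
      rw [h0, ContinuousLinearEquiv.apply_symm_apply]
    · have h3 : HasDerivAt (fun z => (LE N) (γ z)) ((LE N) (deriv γ 0)) 0 :=
        (LE N : (Fin (N + 1) → ℂ) →L[ℂ] EN N).hasFDerivAt.comp_hasDerivAt 0 hγ.differentiableAt.hasDerivAt
      rw [h3.deriv, h1, ContinuousLinearEquiv.apply_symm_apply]
  · rintro ⟨F, ⟨hF, hFX⟩, h0, h1⟩
    refine ⟨fun z => (LE N).symm (F z), (((LE N).symm : EN N →L[ℂ] (Fin (N + 1) → ℂ)).analyticAt _).comp hF, by simp only [h0], ?_, ?_⟩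
    · have h3 : HasDerivAt (fun z => (LE N).symm (F z)) ((LE N).symm (deriv F 0)) 0 :=
        ((LE N).symm : EN N →L[ℂ] (Fin (N + 1) → ℂ)).hasFDerivAt.comp_hasDerivAt 0 hF.differentiableAt.hasDerivAt
      rw [h3.deriv, h1]
    · filter_upwards [hFX] with z hz
      exact (mem_coneE hP).1 hz

end Pool.Agent.H17G

end
end

section

/-!
# G3 P Lip: the curves are locally Lipschitz outside `D`

Immediate from `ahl` and `hP.ge_fs δ` (with `Cv.tan`).
-/

set_option autoImplicit false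

open Topology Filter Metric

namespace Pool.Agent.G3

open Pool.Agent.H36.BP (EN fs wd Sub)
open Pool.Agent.H14.PP (IsCone CurveAt Tan)
open Pool.Agent.H62.EF (MN pr)
open Pool.Agent.AD (Vd)
open Pool.Agent.TG (TMap Gd)

variable {N k : ℕ} {X : Set (EN N)} {Λ : AddSubgroup (Vd (k + 1))} {u : EN N → Vd (k + 1)} {D : Set (Vd (k + 1))} {p : EN N → EN N → ℝ} {m : ℕ} {C : ℝ}

theorem lipD (hP : PS X Λ u D p m C) {δ : ℝ} (hδ : 0 < δ) : ∃ L : ℝ, 0 < L ∧ ∀ (F : ℂ → EN N) (h : ℂ → Vd (k + 1)) (z : ℂ) (r H : ℝ), 0 < r → 0 ≤ H →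
    Cv X Λ u (ball z r) F h → (∀ w ∈ ball z r, ‖deriv h w‖ ≤ H) → h z ∈ Gd D δ → fs (F z) (deriv F z) ≤ L * (1 / r + H) := by
  obtain ⟨C₁, hC₁, hA⟩ := ahl hP
  obtain ⟨c, hc, hG⟩ := hP.ge_fs δ hδ
  set K : ℝ := max 1 (1 / c) with hK
  have hK1 : 1 ≤ K := le_max_left _ _
  have hKc : 1 / c ≤ K := le_max_right _ _
  have hm : m ≠ 0 := by
    have := hP.m_pos
    omega
  refine ⟨K * C₁, by positivity, ?_⟩
  intro F h z r H hr hH hF hd hz
  have hzb : z ∈ ball z r := mem_ball_self hr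
  have h1 : pf p F z ≤ (C₁ * (1 / r + H)) ^ m := hA F h z r H hr hH hF hd
  have h2 : c * fs (F z) (deriv F z) ^ m ≤ pf p F z := hG (h z) hz (F z) (hF.mem z hzb) (hF.lift z hzb) _ (hF.tan isOpen_ball hzb)
  have hB : 0 ≤ C₁ * (1 / r + H) := by positivity
  have hf : 0 ≤ fs (F z) (deriv F z) := Pool.Agent.H36.BP.fs_nonneg _ _
  have h3 : fs (F z) (deriv F z) ^ m ≤ (K * C₁ * (1 / r + H)) ^ m := by
    have h4 : fs (F z) (deriv F z) ^ m ≤ 1 / c * (C₁ * (1 / r + H)) ^ m := by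
      rw [one_div, inv_mul_eq_div, le_div_iff₀ hc]
      linarith [mul_comm c (fs (F z) (deriv F z) ^ m)]
    have h5 : K ≤ K ^ m := le_self_pow₀ hK1 hm
    calc fs (F z) (deriv F z) ^ m ≤ 1 / c * (C₁ * (1 / r + H)) ^ m := h4
      _ ≤ K ^ m * (C₁ * (1 / r + H)) ^ m := mul_le_mul_of_nonneg_right (hKc.trans h5) (by positivity)
      _ = (K * C₁ * (1 / r + H)) ^ m := by rw [← mul_pow]; ring_nf
  exact le_of_pow_le_pow_left₀ hm (by positivity) h3

end Pool.Agent.G3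

end

section

/-!
# G3 A Tor: the real closure of `ℂ a`

`exists_toE`: `R` = topological closure of the subgroup `ℂ a + Λ` of `Vd (k + 1)` (a closed subgroup of a real vector space), `E` = the set of the `v` with `ℝ v ⊆ R` (a real subspace; `R ∩ ball 0 ε ⊆ E` for
some `ε > 0`: standard, otherwise take short vectors of `R` not in `E`, modulo `E`, and a limit direction).  `mem`: clear.  `dns`: `v ∈ E` is a limit of `z a + l`, the differences are short vectors of `R`, so in `E`: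
`l ∈ E`.  `cpt`: `E / (Λ ∩ E)` is compact: choose `l ∈ Λ` with `‖v - l‖ ≤ R₀`; if there is no bound, a subsequence of `v n - l n` converges, so `l n - l m ∈ E` for large `m, n`.
`toE_cases` (`k = 1`): `E ⊇ ℂ a`; real dimension `2` is impossible (`Λ ∩ ℂ a` has rank `≤ 1` by `LG.rank`, not cocompact in `ℂ a`); dimension `3`: `E = ℝ ν + ℂ a`; dimension `4`: all.
-/

set_option autoImplicit false

open Topology Filter Metric

namespace Pool.Agent.G3.A

open Pool.Agent.H36.BP (EN fs wd)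
open Pool.Agent.H14.PP (IsCone CurveAt Tan)
open Pool.Agent.H62.EF (MN pr)
open Pool.Agent.AD (Vd Chart Charts IsGerm)
open Pool.Agent.TG
open Pool.Agent.G3.C (Gc)

variable {N k : ℕ} {X : Set (EN N)} {Λ : AddSubgroup (Vd (k + 1))} {u : EN N → Vd (k + 1)} {D B Bad : Set (Vd (k + 1))} {a : Vd (k + 1)}

/-- the largest real subspace of a closed subgroup contains its short vectors -/
theorem closed_short {V : Type*} [NormedAddCommGroup V] [NormedSpace ℝ V] [FiniteDimensional ℝ V] (R : AddSubgroup V) (hR : IsClosed (R : Set V)) :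
    ∃ E : Submodule ℝ V, (∀ v, v ∈ E ↔ ∀ t : ℝ, t • v ∈ R) ∧ ∃ ε : ℝ, 0 < ε ∧ ∀ v ∈ R, ‖v‖ < ε → v ∈ E := by
  let E : Submodule ℝ V :=
    { carrier := {v | ∀ t : ℝ, t • v ∈ R}
      add_mem' := fun {x y} hx hy t => by rw [smul_add]; exact R.add_mem (hx t) (hy t)
      zero_mem' := fun t => by rw [smul_zero]; exact R.zero_mem
      smul_mem' := fun c x hx t => by rw [smul_smul]; exact hx (t * c) }
  have hE : ∀ v, v ∈ E ↔ ∀ t : ℝ, t • v ∈ R := fun v => Iff.rfl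
  have hER : ∀ v ∈ E, v ∈ R := fun v hv => by have := (hE v).1 hv 1; rwa [one_smul] at this
  refine ⟨E, hE, ?_⟩
  by_contra hcon
  push Not at hcon
  obtain ⟨W, hW⟩ := Submodule.exists_isCompl E
  let p : V →L[ℝ] V := LinearMap.toContinuousLinearMap (W.projection E hW.symm)
  have hpW : ∀ v, p v ∈ W := fun v => Submodule.projection_apply_mem hW.symm v
  have hpE : ∀ v, v - p v ∈ E := fun v => Submodule.sub_projection_mem hW.symm v
  have hp0 : ∀ v, p v = 0 → v ∈ E := fun v hv => by have := hpE v; rwa [hv, sub_zero] at this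
  choose r hr using fun n : ℕ => hcon (1 / ((n : ℝ) + 1)) (by positivity)
  have hr0 : Tendsto r atTop (𝓝 0) := by
    refine squeeze_zero_norm (fun n => (hr n).2.1.le) tendsto_one_div_add_atTop_nhds_zero_nat
  have hw0 : Tendsto (fun n => p (r n)) atTop (𝓝 0) := by
    have := (p.continuous.tendsto 0).comp hr0
    rwa [map_zero] at this
  have hwne : ∀ n, p (r n) ≠ 0 := fun n h => (hr n).2.2 (hp0 _ h)
  have hwR : ∀ n, p (r n) ∈ R := fun n => by
    have h1 := R.sub_mem (hr n).1 (hER _ (hpE (r n)))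
    rwa [sub_sub_cancel] at h1
  have hsph : ∀ n, (‖p (r n)‖⁻¹) • p (r n) ∈ sphere (0 : V) 1 := fun n => by
    rw [mem_sphere_zero_iff_norm, norm_smul, norm_inv, norm_norm, inv_mul_cancel₀ (norm_ne_zero_iff.2 (hwne n))]
  obtain ⟨w, hw, φ, hφ, hlim⟩ := (isCompact_sphere (0 : V) 1).tendsto_subseq hsph
  have hwW : w ∈ W := by
    refine (W.closed_of_finiteDimensional).mem_of_tendsto hlim (Eventually.of_forall fun n => ?_)
    exact W.smul_mem _ (hpW _)
  have hwE : w ∈ E := by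
    rw [hE]
    intro t
    -- `⌊t / ‖p r‖⌋ • p r → t • w`
    have h1 : Tendsto (fun n => (⌊t / ‖p (r (φ n))‖⌋ : ℤ) • p (r (φ n))) atTop (𝓝 (t • w)) := by
      have h2 : Tendsto (fun n => t • ((‖p (r (φ n))‖⁻¹) • p (r (φ n)))) atTop (𝓝 (t • w)) := hlim.const_smul t
      have h3 : Tendsto (fun n => Int.fract (t / ‖p (r (φ n))‖) • p (r (φ n))) atTop (𝓝 0) := by
        have h4 : Tendsto (fun n => p (r (φ n))) atTop (𝓝 0) := hw0.comp hφ.tendsto_atTop
        refine squeeze_zero_norm (fun n => ?_) (tendsto_zero_iff_norm_tendsto_zero.1 h4)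
        rw [norm_smul]
        have h5 : ‖Int.fract (t / ‖p (r (φ n))‖)‖ ≤ 1 := by
          rw [Real.norm_eq_abs, abs_of_nonneg (Int.fract_nonneg _)]
          exact (Int.fract_lt_one _).le
        exact mul_le_of_le_one_left (norm_nonneg _) h5
      have h6 := h2.sub h3
      rw [sub_zero] at h6
      refine h6.congr fun n => ?_
      rw [smul_smul, ← sub_smul, ← Int.cast_smul_eq_zsmul ℝ, ← div_eq_mul_inv, Int.self_sub_fract]
    refine hR.mem_of_tendsto h1 (Eventually.of_forall fun n => R.zsmul_mem (hwR _) _)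
  have hw1 : w = 0 := by
    have := Submodule.disjoint_def.1 hW.disjoint w hwE hwW
    exact this
  rw [mem_sphere_zero_iff_norm, hw1, norm_zero] at hw
  exact zero_ne_one hw

theorem exists_toE (hΛ : Lat Λ) (a : Vd (k + 1)) : ∃ E : Submodule ℝ (Vd (k + 1)), ToE Λ a E := by
  let L : AddSubgroup (Vd (k + 1)) :=
    { carrier := {v | ∃ l ∈ Λ, ∃ z : ℂ, v = l + z • a}
      add_mem' := by
        rintro _ _ ⟨l, hl, z, rfl⟩ ⟨l', hl', z', rfl⟩
        exact ⟨l + l', Λ.add_mem hl hl', z + z', by rw [add_smul]; abel⟩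
      zero_mem' := ⟨0, Λ.zero_mem, 0, by rw [zero_smul, add_zero]⟩
      neg_mem' := by
        rintro _ ⟨l, hl, z, rfl⟩
        exact ⟨-l, Λ.neg_mem hl, -z, by rw [neg_smul]; abel⟩ }
  have hL : ∀ v, v ∈ L ↔ ∃ l ∈ Λ, ∃ z : ℂ, v = l + z • a := fun v => Iff.rfl
  obtain ⟨E, hE, ε₀, hε₀, hsh⟩ := closed_short L.topologicalClosure L.isClosed_topologicalClosure
  have hLR : ∀ v ∈ L, v ∈ L.topologicalClosure := fun v hv => L.le_topologicalClosure hv
  have hER : ∀ v ∈ E, v ∈ L.topologicalClosure := fun v hv => by have := (hE v).1 hv 1; rwa [one_smul] at this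
  have hΛR : ∀ l ∈ Λ, l ∈ L.topologicalClosure := fun l hl => hLR l ⟨l, hl, 0, by rw [zero_smul, add_zero]⟩
  have hmem : ∀ z : ℂ, z • a ∈ E := fun z => by
    rw [hE]
    intro t
    exact hLR _ ⟨0, Λ.zero_mem, (t : ℂ) * z, by rw [zero_add, mul_smul]; rfl⟩
  refine ⟨E, hmem, ?_, ?_⟩
  · -- compactness
    obtain ⟨R₀, hR₀, hR⟩ := hΛ.cpt
    by_contra hcon
    push Not at hcon
    choose v hv using fun n : ℕ => hcon ((n : ℝ) + 1) (by positivity)
    choose l hl using fun n : ℕ => hR (v n)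
    have hb : ∀ n, v n - l n ∈ closedBall (0 : Vd (k + 1)) R₀ := fun n => by
      rw [mem_closedBall_zero_iff]; exact (hl n).2
    obtain ⟨w, hw, φ, hφ, hlim⟩ := (isCompact_closedBall (0 : Vd (k + 1)) R₀).tendsto_subseq hb
    have hev : ∀ᶠ n in atTop, ‖(v (φ n) - l (φ n)) - w‖ < ε₀ / 2 := by
      have := (Metric.tendsto_nhds.1 hlim) (ε₀ / 2) (by positivity)
      filter_upwards [this] with n hn
      rwa [dist_eq_norm] at hn
    obtain ⟨m, hm⟩ := eventually_atTop.1 hev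
    have hlE : ∀ n, m ≤ n → l (φ n) - l (φ m) ∈ E := by
      intro n hn
      have h1 : ‖(v (φ n) - l (φ n)) - (v (φ m) - l (φ m))‖ < ε₀ := by
        have h2 := hm n hn
        have h3 := hm m le_rfl
        calc ‖(v (φ n) - l (φ n)) - (v (φ m) - l (φ m))‖
            = ‖((v (φ n) - l (φ n)) - w) - ((v (φ m) - l (φ m)) - w)‖ := by rw [sub_sub_sub_cancel_right]
          _ ≤ ‖(v (φ n) - l (φ n)) - w‖ + ‖(v (φ m) - l (φ m)) - w‖ := norm_sub_le _ _
          _ < ε₀ := by linarith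
      have h4 : (v (φ n) - l (φ n)) - (v (φ m) - l (φ m)) ∈ E := by
        refine hsh _ ?_ h1
        exact AddSubgroup.sub_mem _ (AddSubgroup.sub_mem _ (hER _ (hv _).1) (hΛR _ (hl _).1))
          (AddSubgroup.sub_mem _ (hER _ (hv _).1) (hΛR _ (hl _).1))
      have h5 := E.sub_mem (E.sub_mem (hv (φ n)).1 (hv (φ m)).1) h4
      have h6 : v (φ n) - v (φ m) - (v (φ n) - l (φ n) - (v (φ m) - l (φ m))) = l (φ n) - l (φ m) := by abel
      rwa [h6] at h5
    obtain ⟨n, hn⟩ := exists_nat_ge (R₀ + ‖l (φ m)‖)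
    have h7 := (hv (φ (max n m))).2 (l (φ (max n m)) - l (φ m)) (Λ.sub_mem (hl _).1 (hl _).1) (hlE _ (le_max_right _ _))
    have h8 : ‖v (φ (max n m)) - (l (φ (max n m)) - l (φ m))‖ ≤ R₀ + ‖l (φ m)‖ := by
      calc ‖v (φ (max n m)) - (l (φ (max n m)) - l (φ m))‖ = ‖(v (φ (max n m)) - l (φ (max n m))) + l (φ m)‖ := by congr 1; abel
        _ ≤ ‖v (φ (max n m)) - l (φ (max n m))‖ + ‖l (φ m)‖ := norm_add_le _ _
        _ ≤ R₀ + ‖l (φ m)‖ := by linarith [(hl (φ (max n m))).2]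
    have h9 : (n : ℝ) ≤ (φ (max n m) : ℝ) := by
      exact_mod_cast (le_max_left n m).trans (hφ.id_le _)
    linarith
  · intro v hv ε hε
    have hvR := hER v hv
    have hcl : v ∈ closure (L : Set (Vd (k + 1))) := hvR
    obtain ⟨x, hx, hd⟩ := Metric.mem_closure_iff.1 hcl (min ε ε₀) (lt_min hε hε₀)
    obtain ⟨l, hl, z, rfl⟩ := (hL x).1 hx
    rw [dist_eq_norm] at hd
    have h1 : v - (l + z • a) ∈ E := hsh _ (AddSubgroup.sub_mem _ hvR (hLR _ hx)) (hd.trans_le (min_le_right _ _))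
    have h2 := E.sub_mem (E.sub_mem hv h1) (hmem z)
    have h3 : v - (v - (l + z • a)) - z • a = l := by abel
    rw [h3] at h2
    exact ⟨l, hl, h2, z, hd.le.trans (min_le_left _ _)⟩

/-- in dimension `2` the real closure has dimension `3` or `4` -/
theorem toE_cases {Λ : AddSubgroup (Vd (1 + 1))} {D Bad : Set (Vd (1 + 1))} {a : Vd (1 + 1)} (h : LG Λ D Bad a) {E : Submodule ℝ (Vd (1 + 1))} (hE : ToE Λ a E) :
    (∃ ν : Vd (1 + 1), (∀ v : Vd (1 + 1), ∃ s z : ℂ, v = s • ν + z • a) ∧ (∀ v, v ∈ E ↔ ∃ (s : ℝ) (z : ℂ), v = (s : ℂ) • ν + z • a)) ∨ E = ⊤ := by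
  have ha : a ≠ 0 := fun h0 => by have := h.norm; rw [h0, norm_zero] at this; exact zero_ne_one this
  obtain ⟨ω, hω, hrk⟩ := h.rank
  -- a vector of `E` outside `ℂ a`
  have hex : ∃ ν ∈ E, ∀ z : ℂ, ν ≠ z • a := by
    by_contra hcon
    push Not at hcon
    obtain ⟨R, hR, hcpt⟩ := hE.cpt
    obtain ⟨l, hl, hlE, hd⟩ := hcpt ((((R + 1 : ℝ) : ℂ) * Complex.I * ω) • a) (hE.mem _)
    obtain ⟨z, rfl⟩ := hcon l hlE
    have h1 := hrk z hl
    rw [← sub_smul, norm_smul, h.norm, mul_one] at hd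
    have h2 : ‖(starRingEnd ℂ) ω * (((R + 1 : ℝ) : ℂ) * Complex.I * ω - z)‖ ≤ R := by
      rw [norm_mul, RCLike.norm_conj, hω, one_mul]; exact hd
    have h3 : (starRingEnd ℂ) ω * (((R + 1 : ℝ) : ℂ) * Complex.I * ω - z) = ((R + 1 : ℝ) : ℂ) * Complex.I - (starRingEnd ℂ) ω * z := by
      have h4 : (starRingEnd ℂ) ω * ω = 1 := by
        rw [mul_comm, Complex.mul_conj, Complex.normSq_eq_norm_sq, hω]; simp
      calc (starRingEnd ℂ) ω * (((R + 1 : ℝ) : ℂ) * Complex.I * ω - z)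
          = ((R + 1 : ℝ) : ℂ) * Complex.I * ((starRingEnd ℂ) ω * ω) - (starRingEnd ℂ) ω * z := by ring
        _ = _ := by rw [h4, mul_one]
    rw [h3] at h2
    have h5 := (Complex.abs_im_le_norm _).trans h2
    rw [Complex.sub_im, h1, sub_zero] at h5
    have h6 : (((R + 1 : ℝ) : ℂ) * Complex.I).im = R + 1 := by simp
    rw [h6, abs_of_pos (by linarith)] at h5
    linarith
  obtain ⟨ν, hνE, hν⟩ := hex
  have hdet : ν 0 * a 1 - ν 1 * a 0 ≠ 0 := by
    intro hd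
    have hd' : ν 0 * a 1 = ν 1 * a 0 := sub_eq_zero.1 hd
    rcases eq_or_ne (a 0) 0 with h0 | h0
    · have h1 : a 1 ≠ 0 := fun h1 => ha (by funext i; fin_cases i <;> simpa using by assumption)
      refine hν (ν 1 / a 1) ?_
      funext i
      fin_cases i
      · have : ν 0 = 0 := by
          rw [h0, mul_zero] at hd'
          exact (mul_eq_zero.1 hd').resolve_right h1
        simp [this, h0]
      · simp [h1]
    · refine hν (ν 0 / a 0) ?_
      funext i
      fin_cases i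
      · simp [h0]
      · have : ν 1 = ν 0 / a 0 * a 1 := by field_simp; exact hd'.symm
        simpa using this
  have hbas : ∀ v : Vd (1 + 1), ∃ s z : ℂ, v = s • ν + z • a := by
    intro v
    refine ⟨(v 0 * a 1 - v 1 * a 0) / (ν 0 * a 1 - ν 1 * a 0), (ν 0 * v 1 - ν 1 * v 0) / (ν 0 * a 1 - ν 1 * a 0), ?_⟩
    funext i
    fin_cases i
    · show v 0 = _ * ν 0 + _ * a 0
      rw [div_mul_eq_mul_div, div_mul_eq_mul_div, ← add_div, eq_div_iff hdet]
      ring
    · show v 1 = _ * ν 1 + _ * a 1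
      rw [div_mul_eq_mul_div, div_mul_eq_mul_div, ← add_div, eq_div_iff hdet]
      ring
  by_cases hall : ∀ v, v ∈ E → ∃ (s : ℝ) (z : ℂ), v = (s : ℂ) • ν + z • a
  · left
    refine ⟨ν, hbas, fun v => ⟨hall v, ?_⟩⟩
    rintro ⟨s, z, rfl⟩
    refine E.add_mem ?_ (hE.mem z)
    exact E.smul_mem s hνE
  · right
    push Not at hall
    obtain ⟨v, hvE, hv⟩ := hall
    obtain ⟨s, z, rfl⟩ := hbas v
    have hs : s.im ≠ 0 := by
      intro h0
      refine hv s.re z ?_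
      have : s = (s.re : ℂ) := by apply Complex.ext <;> simp [h0]
      rw [← this]
    have h1 : s • ν ∈ E := by
      have := E.sub_mem hvE (hE.mem z)
      rwa [add_sub_cancel_right] at this
    have h2 : (Complex.I) • ν ∈ E := by
      have h3 := E.smul_mem (s.im⁻¹) (E.sub_mem h1 (E.smul_mem s.re hνE))
      have h4 : s.im⁻¹ • (s • ν - s.re • ν) = (Complex.I) • ν := by
        have h5 : s = (s.re : ℂ) + (s.im : ℂ) * Complex.I := (Complex.re_add_im s).symm
        have h6 : (s.im : ℂ) ≠ 0 := by exact_mod_cast hs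
        funext i
        simp only [Pi.smul_apply, Pi.sub_apply, smul_eq_mul, Complex.real_smul, Complex.ofReal_inv]
        rw [inv_mul_eq_iff_eq_mul₀ h6]
        linear_combination (ν i) * h5
      rwa [h4] at h3
    rw [eq_top_iff]
    intro x _
    obtain ⟨s', z', rfl⟩ := hbas x
    refine E.add_mem ?_ (hE.mem z')
    have h5 := E.add_mem (E.smul_mem s'.re hνE) (E.smul_mem s'.im h2)
    have h6 : s'.re • ν + s'.im • (Complex.I • ν) = s' • ν := by
      have h7 : s' = (s'.re : ℂ) + (s'.im : ℂ) * Complex.I := (Complex.re_add_im s').symm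
      funext i
      simp only [Pi.smul_apply, Pi.add_apply, smul_eq_mul, Complex.real_smul]
      linear_combination (-ν i) * h7
    rwa [h6] at h5

end Pool.Agent.G3.A

end

section

/-!
# G4 H Lb: lower and upper bounds of a theta function on the lines

`f ≠ 0` a theta function of weight `M wt W`: `{f = 0}` is analytic, invariant under `m Λ` (`lv_mul`, `ThM.per`, the factors are not `0`), so it contains no line (`G4.no_line` with `D = ∅`).  The functions `‖f y‖ exp (- M wt y)` and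
`y ↦ max over ‖z‖ ≤ 1 of ‖f (y + z a)‖ exp (- M wt (y + z a))` are continuous (or: lower semicontinuous) and invariant under the `lv b c`, so bounded above, resp. below by a positive constant (`lv_red`).
-/

set_option autoImplicit false

open Topology Filter Metric

namespace Pool.Agent.G4.H

open Pool.Agent.AD (Vd)
open Pool.Agent.TG (Lat)
open Pool.Agent.G3 (wt)

variable {k r : ℕ} {Λ Γ : AddSubgroup (Vd (k + 1))} {W : Fin r → Vd (k + 1) →L[ℂ] ℂ} {e : Vd (k + 1) → Vd (k + 1) → ℂ} {b : RB k} {M : ℕ} {f : Vd (k + 1) → ℂ}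

theorem thm_norm (T : ThF Γ W e) (hb : ∀ i, b i ∈ Γ) (hf : ThM b e M f) (c : Fin (2 * (k + 1)) → ℤ) (y : Vd (k + 1)) :
    ‖f (y + lv b c)‖ * Real.exp (-(M * wt W (y + lv b c))) = ‖f y‖ * Real.exp (-(M * wt W y)) := by
  have h1 := hf.per c y
  have h2 := T.nrm (lv b c) (lv_mem hb c) y
  rw [← h1, norm_mul, norm_pow, h2, ← Real.exp_nat_mul]
  have h3 : Real.exp (-(M * wt W (y + lv b c))) =
      Real.exp (M * (wt W y - wt W (y + lv b c))) * Real.exp (-(M * wt W y)) := by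
    rw [← Real.exp_add]
    congr 1
    ring
  rw [h3]
  ring

/-- the weight is continuous -/
private theorem wt_cont (W : Fin r → Vd (k + 1) →L[ℂ] ℂ) : Continuous fun y : Vd (k + 1) => wt W y := by
  unfold wt
  exact continuous_finsetSum _ fun i _ => ((W i).continuous.norm).pow 2

/-- the invariant function is continuous -/
private theorem g_cont (hf : ThM b e M f) : Continuous fun y : Vd (k + 1) => ‖f y‖ * Real.exp (-(M * wt W y)) := by
  have h1 : Continuous f := continuous_iff_continuousAt.2 fun y => (hf.an y).continuousAt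
  exact h1.norm.mul (Real.continuous_exp.comp (continuous_const.mul (wt_cont W)).neg)

theorem thm_up (T : ThF Γ W e) (hb : ∀ i, b i ∈ Γ) (hf : ThM b e M f) : ∃ B : ℝ, 0 < B ∧ ∀ y, ‖f y‖ ≤ B * Real.exp (M * wt W y) := by
  obtain ⟨R, hR, hred⟩ := lv_red b
  obtain ⟨B, hB⟩ := (isCompact_closedBall (0 : Vd (k + 1)) R).exists_bound_of_continuousOn
    (g_cont (W := W) hf).continuousOn
  refine ⟨max B 1, lt_max_of_lt_right one_pos, fun y => ?_⟩
  obtain ⟨c, hc⟩ := hred y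
  have h1 := thm_norm T hb hf c (y - lv b c)
  rw [sub_add_cancel] at h1
  have h2 := hB (y - lv b c) (by rwa [mem_closedBall_zero_iff])
  rw [Real.norm_of_nonneg (by positivity), ← h1] at h2
  have h3 : ‖f y‖ = ‖f y‖ * Real.exp (-(M * wt W y)) * Real.exp (M * wt W y) := by
    rw [mul_assoc, ← Real.exp_add, neg_add_cancel, Real.exp_zero, mul_one]
  rw [h3]
  exact mul_le_mul_of_nonneg_right (h2.trans (le_max_left _ _)) (Real.exp_pos _).le

/-- the theta function does not vanish on a disc of a line -/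
private theorem ex_ne (T : ThF Γ W e) (hb : ∀ i, b i ∈ Γ) (hΛ : Lat Λ) (hs : Simp Λ) (hle : Γ ≤ Λ) (hf : ThM b e M f) (h0 : ∃ y, f y ≠ 0) {a : Vd (k + 1)}
    (ha : a ≠ 0) (y : Vd (k + 1)) : ∃ z : ℂ, ‖z‖ ≤ 1 ∧ f (y + z • a) ≠ 0 := by
  by_contra hcon
  push Not at hcon
  have han : AnalyticOnNhd ℂ (fun z : ℂ => f (y + z • a)) Set.univ := by
    intro z _
    have h1 : AnalyticAt ℂ (fun z : ℂ => y + z • a) z := by fun_prop
    exact AnalyticAt.fun_comp (g := f) (f := fun z : ℂ => y + z • a) (hf.an _) h1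
  have hz : ∀ z : ℂ, f (y + z • a) = 0 := by
    have h1 : ∀ᶠ z in 𝓝 (0 : ℂ), f (y + z • a) = 0 := by
      filter_upwards [ball_mem_nhds (0 : ℂ) one_pos] with z hz
      exact hcon z (mem_ball_zero_iff.1 hz).le
    have h2 := han.eqOn_zero_of_preconnected_of_eventuallyEq_zero isPreconnected_univ (Set.mem_univ (0 : ℂ)) h1
    exact fun z => h2 (Set.mem_univ z)
  obtain ⟨m, hm, hmul⟩ := lv_mul hΛ (b := b) fun i => hle (hb i)
  obtain ⟨y₀, hy₀⟩ := h0
  refine hy₀ ?_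
  have h3 := no_line (D := ∅) (Z := {y | f y = 0}) hΛ hs isClosed_empty (fun y hy => absurd hy (Set.notMem_empty y))
    (fun a _ b z => Eventually.of_forall fun w => Set.notMem_empty _) ?_ hm ?_ ha (a := a) (b := y) ?_ y₀ (Set.notMem_empty y₀)
  · exact h3
  · intro x _
    refine ⟨1, fun z _ => f z, ?_, Eventually.of_forall fun z => ?_⟩
    · exact AnalyticAt.pi fun _ => hf.an x
    · constructor
      · intro h
        funext i
        exact h
      · intro h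
        exact congrFun h 0
  · intro x hx l hl
    obtain ⟨c, hc⟩ := hmul l hl
    have h4 := thm_norm T hb hf c x
    have hx' : f x = 0 := hx
    rw [hx', norm_zero, zero_mul] at h4
    show f (x + m • l) = 0
    rw [hc]
    exact norm_eq_zero.1 ((mul_eq_zero.1 h4).resolve_right (Real.exp_pos _).ne')
  · intro z
    right
    show f (z • a + y) = 0
    rw [add_comm]
    exact hz z

theorem thm_low (T : ThF Γ W e) (hb : ∀ i, b i ∈ Γ) (hΛ : Lat Λ) (hs : Simp Λ) (hle : Γ ≤ Λ) (hf : ThM b e M f) (h0 : ∃ y, f y ≠ 0) {a : Vd (k + 1)} (ha : a ≠ 0) :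
    ∃ m₀ : ℝ, 0 < m₀ ∧ ∀ y, ∃ z₁ : ℂ, ‖z₁‖ ≤ 1 ∧ m₀ * Real.exp (M * wt W (y + z₁ • a)) ≤ ‖f (y + z₁ • a)‖ := by
  obtain ⟨R, hR, hred⟩ := lv_red b
  have hcpt := isCompact_closedBall (0 : Vd (k + 1)) R
  have hg := g_cont (W := W) hf
  have h1 : ∃ m₀ : ℝ, 0 < m₀ ∧ ∀ y ∈ closedBall (0 : Vd (k + 1)) R, ∃ z₁ : ℂ, ‖z₁‖ ≤ 1 ∧
      m₀ ≤ ‖f (y + z₁ • a)‖ * Real.exp (-(M * wt W (y + z₁ • a))) := by
    refine hcpt.induction_on (p := fun s => ∃ m₀ : ℝ, 0 < m₀ ∧ ∀ y ∈ s, ∃ z₁ : ℂ, ‖z₁‖ ≤ 1 ∧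
      m₀ ≤ ‖f (y + z₁ • a)‖ * Real.exp (-(M * wt W (y + z₁ • a)))) ?_ ?_ ?_ ?_
    · exact ⟨1, one_pos, fun y hy => absurd hy (Set.notMem_empty y)⟩
    · rintro s t hst ⟨m₀, hm, h⟩
      exact ⟨m₀, hm, fun y hy => h y (hst hy)⟩
    · rintro s t ⟨m₀, hm, h⟩ ⟨m₁, hm', h'⟩
      refine ⟨min m₀ m₁, lt_min hm hm', ?_⟩
      rintro y (hy | hy)
      · obtain ⟨z, hz, h2⟩ := h y hy
        exact ⟨z, hz, (min_le_left _ _).trans h2⟩
      · obtain ⟨z, hz, h2⟩ := h' y hy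
        exact ⟨z, hz, (min_le_right _ _).trans h2⟩
    · intro y _
      obtain ⟨z, hz, h2⟩ := ex_ne T hb hΛ hs hle hf h0 ha y
      have h3 : 0 < ‖f (y + z • a)‖ * Real.exp (-(M * wt W (y + z • a))) :=
        mul_pos (norm_pos_iff.2 h2) (Real.exp_pos _)
      have h4 : Continuous fun y : Vd (k + 1) => ‖f (y + z • a)‖ * Real.exp (-(M * wt W (y + z • a))) :=
        hg.comp (continuous_id.add continuous_const)
      have h5 := h4.continuousAt.eventually_const_lt (half_lt_self h3)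
      refine ⟨{y' | ‖f (y + z • a)‖ * Real.exp (-(M * wt W (y + z • a))) / 2 <
        ‖f (y' + z • a)‖ * Real.exp (-(M * wt W (y' + z • a)))}, mem_nhdsWithin_of_mem_nhds h5, _, half_pos h3, ?_⟩
      intro y' hy'
      exact ⟨z, hz, le_of_lt hy'⟩
  obtain ⟨m₀, hm, h⟩ := h1
  refine ⟨m₀, hm, fun y => ?_⟩
  obtain ⟨c, hc⟩ := hred y
  obtain ⟨z, hz, h2⟩ := h (y - lv b c) (by rwa [mem_closedBall_zero_iff])
  refine ⟨z, hz, ?_⟩
  have h3 := thm_norm T hb hf c (y - lv b c + z • a)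
  have h4 : y - lv b c + z • a + lv b c = y + z • a := by abel
  rw [h4] at h3
  rw [← h3] at h2
  have h5 := mul_le_mul_of_nonneg_right h2 (Real.exp_pos (M * wt W (y + z • a))).le
  rwa [mul_assoc (‖f (y + z • a)‖), ← Real.exp_add, neg_add_cancel, Real.exp_zero, mul_one] at h5

/-- the weight on a line -/
theorem wt_line (W : Fin r → Vd (k + 1) →L[ℂ] ℂ) (y a : Vd (k + 1)) (z₁ : ℂ) :
    ∃ c : ℂ, ∀ z : ℂ, wt W (y + z • a) = wt W (y + z₁ • a) + 2 * (c * (z - z₁)).re + wt W a * ‖z - z₁‖ ^ 2 := by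
  refine ⟨∑ i, (starRingEnd ℂ) (W i (y + z₁ • a)) * W i a, fun z => ?_⟩
  unfold wt
  have h1 : ∀ A B t : ℂ, ‖A + t * B‖ ^ 2 = ‖A‖ ^ 2 + 2 * ((starRingEnd ℂ) A * B * t).re + ‖B‖ ^ 2 * ‖t‖ ^ 2 := by
    intro A B t
    rw [← Complex.normSq_eq_norm_sq, ← Complex.normSq_eq_norm_sq, ← Complex.normSq_eq_norm_sq, ← Complex.normSq_eq_norm_sq]
    simp only [Complex.normSq_apply, Complex.add_re, Complex.add_im, Complex.mul_re, Complex.mul_im, Complex.conj_re, Complex.conj_im]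
    ring
  have h2 : ∀ i, ‖W i (y + z • a)‖ ^ 2 = ‖W i (y + z₁ • a)‖ ^ 2 + 2 * ((starRingEnd ℂ) (W i (y + z₁ • a)) * W i a * (z - z₁)).re +
      ‖W i a‖ ^ 2 * ‖z - z₁‖ ^ 2 := by
    intro i
    rw [← h1]
    congr 2
    have h3 : y + z • a = (y + z₁ • a) + (z - z₁) • a := by
      rw [sub_smul]
      abel
    rw [h3, map_add, map_smul, smul_eq_mul]
  have h3 : ((∑ i, (starRingEnd ℂ) (W i (y + z₁ • a)) * W i a) * (z - z₁)).re = ∑ i, ((starRingEnd ℂ) (W i (y + z₁ • a)) * W i a * (z - z₁)).re := by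
    rw [Finset.sum_mul, Complex.re_sum]
  rw [Finset.sum_congr rfl fun i _ => h2 i, Finset.sum_add_distrib, Finset.sum_add_distrib, ← Finset.sum_mul, ← Finset.mul_sum, h3]

end Pool.Agent.G4.H

end

section

/-!
# G3 P Cls: limits of curves over arcs

`closed_arcs`: curves `F n` over `h n`, eventually defined on every disc, `h n → H` locally uniformly, `H` not constant and `H⁻¹(D)` discrete.  Then the limit of `pr (F n)` off `H⁻¹(D)` is a
curve over `H`, with uniform convergence on compact sets off `H⁻¹(D)`.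
Plan.  `S = {z | H z ∈ D}` is closed and discrete.  `‖deriv (h n)‖` is bounded on compact sets (Cauchy estimate, `h n` is close to `H`) and `deriv (h n) → deriv H`.
For `z ∉ S`: `H z` has distance `≥ 2 δ` from `D`; `lipD` and `AD.F.pd_lip` (`AD/F/Cpt`: `fs ≤ L` gives Lipschitz continuity of `pr ∘ F n`) give the equicontinuity; `ult` on `U = Sᶜ` gives `f`.
Base point: `c ∉ S` with `deriv H c ≠ 0` (such points exist: `deriv H ≠ 0` on an open nonempty set, `S` discrete); `tbd` gives `TT (F n) c r ≤ K(r)` for every `r`;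
`ext_disc` gives lifts on all discs `ball c r'`, so (extending `f` over `S` by `pr (G z)`; two lifts on different discs are proportional off `S`, so by continuity everywhere) local lifts
everywhere, `entire_lift` gives `G`.  `G z ∈ X` and `u (G z) - H z ∈ Λ`: first off `S` (`lim_mem`), then on `S` by `lim_mem` again.
-/

set_option autoImplicit false

open Topology Filter Metric

namespace Pool.Agent.G3

open Pool.Agent.H36.BP (EN fs wd Sub)
open Pool.Agent.H14.PP (IsCone CurveAt Tan)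
open Pool.Agent.H62.EF (MN pr)
open Pool.Agent.AD (Vd)
open Pool.Agent.TG (TMap Lat Geo Gd)

variable {N k : ℕ} {X : Set (EN N)} {Λ : AddSubgroup (Vd (k + 1))} {u : EN N → Vd (k + 1)} {D : Set (Vd (k + 1))} {p : EN N → EN N → ℝ} {m : ℕ} {C : ℝ}

/-- a point outside of the closed set `D` has positive distance from `D` -/
private theorem exists_gd' (hD : IsClosed D) {y : Vd (k + 1)} (hy : y ∉ D) : ∃ δ : ℝ, 0 < δ ∧ y ∈ Gd D δ := by
  have h1 : Dᶜ ∈ 𝓝 y := hD.isOpen_compl.mem_nhds hy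
  obtain ⟨δ, hδ, h⟩ := Metric.mem_nhds_iff.mp h1
  refine ⟨δ, hδ, fun b hb => ?_⟩
  by_contra hlt
  push Not at hlt
  have hb' : b ∈ ball y δ := by
    rw [mem_ball, dist_comm, dist_eq_norm]
    exact hlt
  exact h hb' hb

/-- Cauchy's estimate for the derivatives -/
private theorem deriv_close {g H : ℂ → Vd (k + 1)} {r ε : ℝ} {V : Set ℂ} (hV : IsOpen V) (hr : closedBall (0 : ℂ) (r + 1) ⊆ V) (hg : DifferentiableOn ℂ g V)
    (hH : Differentiable ℂ H) (hε : ∀ z ∈ closedBall (0 : ℂ) (r + 1), ‖g z - H z‖ < ε) {z : ℂ} (hz : z ∈ closedBall (0 : ℂ) r) :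
    ‖deriv g z - deriv H z‖ ≤ ε := by
  have hsub : closedBall z 1 ⊆ closedBall (0 : ℂ) (r + 1) := by
    refine closedBall_subset_closedBall' ?_
    have := mem_closedBall.mp hz
    linarith
  have hgd : DifferentiableOn ℂ g (closedBall z 1) := hg.mono (hsub.trans hr)
  have hd : DiffContOnCl ℂ (fun w => g w - H w) (ball z 1) := by
    have h1 : DifferentiableOn ℂ (fun w => g w - H w) (closedBall z 1) := hgd.sub hH.differentiableOn
    have h2 : DifferentiableOn ℂ (fun w => g w - H w) (closure (ball z 1)) := h1.mono closure_ball_subset_closedBall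
    exact h2.diffContOnCl
  have h1 := Complex.norm_deriv_le_of_forall_mem_sphere_norm_le (c := z) one_pos hd (C := ε) fun w hw =>
    (hε w (hsub (sphere_subset_closedBall hw))).le
  have hgz : DifferentiableAt ℂ g z := hg.differentiableAt (hV.mem_nhds (hr (hsub (mem_closedBall_self zero_le_one))))
  rw [deriv_fun_sub hgz (hH z), div_one] at h1
  exact h1

theorem closed_arcs (hX : IsCone X) (hu : TMap X Λ u) (hΛ : Lat Λ) (hD : IsClosed D) (hP : PS X Λ u D p m C) (𝒰 : Ultrafilter ℕ)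
    {F : ℕ → ℂ → EN N} {h : ℕ → ℂ → Vd (k + 1)} {H : ℂ → Vd (k + 1)}
    (hF : ∀ r : ℝ, ∀ᶠ n in (𝒰 : Filter ℕ), Cv X Λ u (ball 0 r) (F n) (h n)) (hH : Differentiable ℂ H)
    (hh : ∀ r ε : ℝ, 0 < ε → ∀ᶠ n in (𝒰 : Filter ℕ), ∀ z ∈ closedBall (0 : ℂ) r, ‖h n z - H z‖ < ε)
    (hS : ∀ z, ∀ᶠ w in 𝓝[≠] z, H w ∉ D) (hnc : ∃ z, deriv H z ≠ 0) :
    ∃ G : ℂ → EN N, Cv X Λ u Set.univ G H ∧
      ∀ K : Set ℂ, IsCompact K → (∀ z ∈ K, H z ∉ D) → ∀ ε : ℝ, 0 < ε → ∀ᶠ n in (𝒰 : Filter ℕ), ∀ z ∈ K, dist (pr (F n z)) (pr (G z)) < ε := by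
  classical
  have hHc : Continuous H := hH.continuous
  obtain ⟨S, hSdef⟩ : ∃ S : Set ℂ, S = {z | H z ∈ D} := ⟨_, rfl⟩
  have hmemS : ∀ z, z ∈ S ↔ H z ∈ D := fun z => by rw [hSdef]; rfl
  have hScl : IsClosed S := by rw [hSdef]; exact hD.preimage hHc
  have hSdisc : ∀ z, ∀ᶠ w in 𝓝[≠] z, w ∉ S := fun z => (hS z).mono fun w hw => fun h => hw ((hmemS w).mp h)
  -- curves on large discs
  have hcurve : ∀ r : ℝ, ∀ᶠ n in (𝒰 : Filter ℕ), Cv X Λ u (ball 0 (r + 1)) (F n) (h n) ∧ closedBall (0 : ℂ) r ⊆ ball 0 (r + 1) := by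
    intro r
    filter_upwards [hF (r + 1)] with n h1
    exact ⟨h1, closedBall_subset_ball (by linarith)⟩
  -- derivatives
  have hderiv : ∀ r ε : ℝ, 0 < ε → ∀ᶠ n in (𝒰 : Filter ℕ), ∀ z ∈ closedBall (0 : ℂ) r, ‖deriv (h n) z - deriv H z‖ ≤ ε := by
    intro r ε hε
    filter_upwards [hcurve (r + 1), hh (r + 1) ε hε] with n h1 h2 z hz
    exact deriv_close isOpen_ball h1.2 h1.1.h_diff hH h2 hz
  have hbound : ∀ r : ℝ, ∃ M : ℝ, 0 ≤ M ∧ ∀ᶠ n in (𝒰 : Filter ℕ), ∀ z ∈ closedBall (0 : ℂ) r, ‖deriv (h n) z‖ ≤ M := by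
    intro r
    have hdc : Continuous (deriv H) := (hH.contDiff (n := 1)).continuous_deriv le_rfl
    obtain ⟨B, hB⟩ := (isCompact_closedBall (0 : ℂ) r).exists_bound_of_continuousOn hdc.continuousOn
    refine ⟨|B| + 1, by positivity, ?_⟩
    filter_upwards [hderiv r 1 one_pos] with n hn z hz
    have h1 := hn z hz
    have h2 := hB z hz
    have h3 : ‖deriv (h n) z‖ ≤ ‖deriv (h n) z - deriv H z‖ + ‖deriv H z‖ := by
      have := norm_add_le (deriv (h n) z - deriv H z) (deriv H z)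
      rwa [sub_add_cancel] at this
    have h4 := le_abs_self B
    linarith
  -- points off `S`
  have hoff : ∀ z, z ∉ S → ∃ δ s : ℝ, 0 < δ ∧ 0 < s ∧ ∀ᶠ n in (𝒰 : Filter ℕ), ∀ w ∈ ball z s, h n w ∈ Gd D δ := by
    intro z hz
    obtain ⟨δ, hδ, hδm⟩ := exists_gd' hD (fun hzD => hz ((hmemS z).mpr hzD))
    obtain ⟨s, hs, hsb⟩ := Metric.continuousAt_iff.mp (hHc.continuousAt (x := z)) (δ / 4) (by positivity)
    refine ⟨δ / 2, s, by positivity, hs, ?_⟩
    filter_upwards [hh (‖z‖ + s) (δ / 4) (by positivity)] with n hn w hw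
    have hw1 : dist w z < s := mem_ball.mp hw
    have hw0 : w ∈ closedBall (0 : ℂ) (‖z‖ + s) := by
      rw [mem_closedBall, dist_zero_right]
      have := norm_le_norm_add_norm_sub' w z
      rw [← dist_eq_norm] at this
      linarith
    have h1 := hn w hw0
    have h2 : ‖H w - H z‖ < δ / 4 := by
      rw [← dist_eq_norm]
      exact hsb hw1
    have h3 : ‖h n w - H z‖ ≤ δ / 2 := by
      have h4 := norm_sub_le_norm_sub_add_norm_sub (h n w) (H w) (H z)
      linarith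
    have h5 := Pool.Agent.TG.gd_near hδm h3
    have h6 : δ - δ / 2 = δ / 2 := by ring
    rwa [h6] at h5
  -- equicontinuity
  have heq : ∀ z, z ∉ S → ∃ L s : ℝ, 0 < L ∧ 0 < s ∧ ∀ᶠ n in (𝒰 : Filter ℕ), DifferentiableOn ℂ (F n) (ball z s) ∧ (∀ w ∈ ball z s, F n w ≠ 0) ∧
      ∀ w ∈ ball z s, dist (pr (F n w)) (pr (F n z)) ≤ L * ‖w - z‖ := by
    intro z hz
    obtain ⟨δ, s, hδ, hs, hev⟩ := hoff z hz
    obtain ⟨L, hL, hLip⟩ := lipD hP hδ
    obtain ⟨M, hM, hMb⟩ := hbound (‖z‖ + s + 1)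
    refine ⟨2 * (L * (1 / 1 + M)), s, by positivity, hs, ?_⟩
    filter_upwards [hev, hMb, hcurve (‖z‖ + s + 1)] with n h1 h2 h3
    have hsub : ∀ w ∈ ball z s, ball w 1 ⊆ closedBall (0 : ℂ) (‖z‖ + s + 1) := by
      intro w hw v hv
      rw [mem_closedBall, dist_zero_right]
      have hw1 : dist w z < s := mem_ball.mp hw
      have hv1 : dist v w < 1 := mem_ball.mp hv
      have h4 : ‖v‖ ≤ dist v w + dist w z + ‖z‖ := by
        have h5 := dist_triangle4 v w z 0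
        rwa [dist_zero_right, dist_zero_right] at h5
      linarith
    have hballs : ball z s ⊆ ball (0 : ℂ) (‖z‖ + s + 1 + 1) := fun w hw => h3.2 (hsub w hw (mem_ball_self one_pos))
    have hne : ∀ w ∈ ball z s, F n w ≠ 0 := fun w hw => Pool.Agent.TG.ne_zero hX (h3.1.mem w (hballs hw))
    refine ⟨h3.1.F_diff.mono hballs, hne, fun w hw => ?_⟩
    refine Pool.Agent.H62.EF.pr_lipschitz isOpen_ball (convex_ball z s) (h3.1.F_diff.mono hballs) hne (L := L * (1 / 1 + M)) (fun v hv => ?_) w hw z (mem_ball_self hs)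
    exact hLip (F n) (h n) v 1 M one_pos hM (h3.1.mono ((hsub v hv).trans h3.2)) (fun y hy => h2 y (hsub v hv hy)) (h1 v hv)
  -- the limit off `S`
  obtain ⟨f, hfl, hfc⟩ := ult 𝒰 hScl.isOpen_compl F (fun z hz => by
      obtain ⟨L, s, -, hs, hev⟩ := heq z hz
      exact ⟨s, hs, hev.mono fun n hn => ⟨hn.1, hn.2.1⟩⟩) (fun z hz ε hε => by
      obtain ⟨L, s, hL, hs, hev⟩ := heq z hz
      refine ⟨min s (ε / L), lt_min hs (by positivity), hev.mono fun n hn w hw => ?_⟩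
      have hw1 : dist w z < min s (ε / L) := mem_ball.mp hw
      refine (hn.2.2 w (mem_ball.mpr (lt_of_lt_of_le hw1 (min_le_left _ _)))).trans ?_
      have hw2 : ‖w - z‖ ≤ ε / L := by
        rw [← dist_eq_norm]
        exact (lt_of_lt_of_le hw1 (min_le_right _ _)).le
      calc L * ‖w - z‖ ≤ L * (ε / L) := mul_le_mul_of_nonneg_left hw2 hL.le
        _ = ε := by field_simp)
  -- the base point
  obtain ⟨z₁, hz₁⟩ := hnc
  have hdc : Continuous (deriv H) := (hH.contDiff (n := 1)).continuous_deriv le_rfl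
  obtain ⟨c, hcS, hcd⟩ : ∃ c, c ∉ S ∧ deriv H c ≠ 0 := by
    have h1 : ∀ᶠ w in 𝓝[≠] z₁, deriv H w ≠ 0 := (hdc.continuousAt.eventually_ne hz₁).filter_mono nhdsWithin_le_nhds
    obtain ⟨c, hc1, hc2⟩ := ((hSdisc z₁).and h1).exists
    exact ⟨c, hc1, hc2⟩
  -- lifts on discs
  have hdisc : ∀ r : ℝ, 0 < r → ∃ G : ℂ → EN N, DifferentiableOn ℂ G (ball c r) ∧ (∀ z ∈ ball c r, G z ≠ 0) ∧ ∀ z ∈ ball c r, z ∉ S → f z = pr (G z) := by
    intro r hr
    obtain ⟨δ, s, hδ, hs, hev⟩ := hoff c hcS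
    obtain ⟨M, hM, hMb⟩ := hbound (‖c‖ + (r + 2))
    have hη : 0 < ‖deriv H c‖ / 2 := by
      have := norm_pos_iff.mpr hcd
      positivity
    obtain ⟨K, hK⟩ := tbd hP (δ := δ) (η := ‖deriv H c‖ / 2) (H := M) (r := r + 1) (R := r + 2) hδ hη hM (by linarith) (by linarith)
    have hsub : ball c (r + 2) ⊆ closedBall (0 : ℂ) (‖c‖ + (r + 2)) := by
      intro w hw
      rw [mem_closedBall, dist_zero_right]
      have hw1 : dist w c < r + 2 := mem_ball.mp hw
      have := norm_le_norm_add_norm_sub' w c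
      rw [← dist_eq_norm] at this
      linarith
    refine ext_disc 𝒰 (F := F) (f := f) (S := S) (c := c) (r' := r) (r := r + 1) (R := r + 2) (K := K) hr (by linarith) (by linarith) hSdisc hScl hcS ?_ ?_ ?_ ?_
    · filter_upwards [hcurve (‖c‖ + (r + 2))] with n h1
      exact ⟨h1.1.F_diff.mono (hsub.trans h1.2), fun z hz => Pool.Agent.TG.ne_zero hX (h1.1.mem z (h1.2 (hsub hz)))⟩
    · filter_upwards [hcurve (‖c‖ + (r + 2)), hMb, hev, hderiv ‖c‖ (‖deriv H c‖ / 2) hη] with n h1 h2 h3 h4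
      refine hK (F n) (h n) c (h1.1.mono (hsub.trans h1.2)) (fun w hw => h2 w (hsub hw)) (h3 c (mem_ball_self hs)) ?_
      have h5 := h4 c (by rw [mem_closedBall, dist_zero_right])
      have h6 : ‖deriv H c‖ ≤ ‖deriv (h n) c‖ + ‖deriv (h n) c - deriv H c‖ := by
        have := norm_sub_le (deriv (h n) c) (deriv (h n) c - deriv H c)
        rwa [sub_sub_cancel] at this
      linarith
    · intro L hL hLc ε hε
      exact hfc L (fun z hz => (hL hz).2) hLc ε hε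
    · intro z _ hz
      exact hfl z hz
  -- extension over `S`
  have hGex : ∀ z : ℂ, ∃ G : ℂ → EN N, DifferentiableOn ℂ G (ball c (dist z c + 1)) ∧ (∀ w ∈ ball c (dist z c + 1), G w ≠ 0) ∧
      ∀ w ∈ ball c (dist z c + 1), w ∉ S → f w = pr (G w) := fun z => hdisc _ (by positivity)
  choose Gd' hG1 hG2 hG3 using hGex
  have hzb : ∀ z : ℂ, z ∈ ball c (dist z c + 1) := fun z => mem_ball.mpr (by linarith)
  obtain ⟨g, hg⟩ : ∃ g : ℂ → MN N, g = fun z => if z ∈ S then pr (Gd' z z) else f z := ⟨_, rfl⟩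
  have hgS : ∀ z, z ∈ S → g z = pr (Gd' z z) := fun z hz => by rw [hg]; simp only [if_pos hz]
  have hgn : ∀ z, z ∉ S → g z = f z := fun z hz => by rw [hg]; simp only [if_neg hz]
  have hgl : ∀ z, LLift g z := by
    intro z
    by_cases hz : z ∈ S
    · refine ⟨Gd' z, (hG1 z).analyticAt (isOpen_ball.mem_nhds (hzb z)), ?_⟩
      filter_upwards [isOpen_ball.mem_nhds (hzb z), eventually_nhdsWithin_iff.mp (hSdisc z)] with w hw1 hw2
      refine ⟨hG2 z w hw1, ?_⟩
      by_cases hwz : w = z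
      · rw [hwz]
        exact hgS z hz
      · have hwS : w ∉ S := hw2 hwz
        rw [hgn w hwS]
        exact hG3 z w hw1 hwS
    · obtain ⟨Φ, hΦ, hΦe⟩ := hfl z hz
      refine ⟨Φ, hΦ, ?_⟩
      filter_upwards [hΦe, hScl.isOpen_compl.mem_nhds hz] with w hw1 hw2
      refine ⟨hw1.1, ?_⟩
      rw [hgn w hw2]
      exact hw1.2
  obtain ⟨G, hGd, hGe⟩ := entire_lift hgl
  have hlimf : ∀ z, z ∉ S → Tendsto (fun n => pr (F n z)) (𝒰 : Filter ℕ) (𝓝 (f z)) := by
    intro z hz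
    rw [Metric.tendsto_nhds]
    intro ε hε
    exact (hfc {z} (Set.singleton_subset_iff.mpr hz) isCompact_singleton ε hε).mono fun n hn => hn z (Set.mem_singleton z)
  have hlimh : ∀ z, Tendsto (fun n => h n z) (𝒰 : Filter ℕ) (𝓝 (H z)) := by
    intro z
    rw [Metric.tendsto_nhds]
    intro ε hε
    refine (hh ‖z‖ ε hε).mono fun n hn => ?_
    rw [dist_eq_norm]
    exact hn z (by rw [mem_closedBall, dist_zero_right])
  have hoffmem : ∀ z, z ∉ S → G z ∈ X ∧ u (G z) - H z ∈ Λ := by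
    intro z hz
    refine lim_mem hX hu hΛ (l := (𝒰 : Filter ℕ)) (x := fun n => F n z) (y := fun n => h n z) ?_ (hGe z).1 ?_ (hlimh z)
    · filter_upwards [hcurve ‖z‖] with n hn
      have hzb : z ∈ ball (0 : ℂ) (‖z‖ + 1) := hn.2 (by rw [mem_closedBall, dist_zero_right])
      exact ⟨hn.1.mem z hzb, hn.1.lift z hzb⟩
    · rw [← (hGe z).2, hgn z hz]
      exact hlimf z hz
  have hmem : ∀ z, G z ∈ X ∧ u (G z) - H z ∈ Λ := by
    intro z
    by_cases hz : z ∈ S
    · refine lim_mem hX hu hΛ (l := 𝓝[≠] z) (x := fun w => G w) (y := fun w => H w) ?_ (hGe z).1 ?_ ?_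
      · exact (hSdisc z).mono fun w hw => hoffmem w hw
      · have h1 : ContinuousAt (fun w => pr (G w)) z := (Pool.Agent.H62.EF.continuousAt_pr (hGe z).1).comp hGd.continuous.continuousAt
        exact h1.tendsto.mono_left nhdsWithin_le_nhds
      · exact (hHc.tendsto z).mono_left nhdsWithin_le_nhds
    · exact hoffmem z hz
  refine ⟨G, ⟨hGd.differentiableOn, hH.differentiableOn, fun z _ => (hmem z).1, fun z _ => (hmem z).2⟩, fun K hK hKD ε hε => ?_⟩
  have hKS : K ⊆ Sᶜ := fun z hz hzS => hKD z hz ((hmemS z).mp hzS)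
  filter_upwards [hfc K hKS hK ε hε] with n hn z hz
  have h1 := hn z hz
  rwa [← hgn z (hKS hz), (hGe z).2] at h1

end Pool.Agent.G3

end

section

/-!
# G4 Z LctA: the limit of the curves of Theorem LCT

`lct_lim`: choose `l n ∈ Λ` with `‖h n 0 + l n‖ ≤ R` (`Lat.cpt`), `b` the limit of `h n 0 + l n` along `𝒰`; `h n z + l n → z • a + b` locally uniformly (mean value inequality on balls, from `hd`).
`closed_arcs` with `H z = z • a + b` (`LDi` gives `hS`), `Cv.add`; `Csf.cls` gives `Φ ∈ S` with `pr (G z) = Φ (z • a + b)` off `D`.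
`lct_isol`: if `h n w ∈ D` then `Q (F n w) = 0` (`QD.zero`, `Cv.lift`); `Q ∘ F n` is holomorphic on the disc and not `0` at `0`.
`lct_sec`: `Φ` is continuous at the points off `D` (`Csf.hol`), uniformly on compact sets of the line; so `dist (Φ (h n z)) (Φ (z • a + b)) → 0` uniformly on `K`, and with `Lim.flim` the claim.
-/

set_option autoImplicit false

open Topology Filter Metric

namespace Pool.Agent.G4

open Pool.Agent.H36.BP (EN fs wd Sub)
open Pool.Agent.H14.PP (IsCone CurveAt Tan)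
open Pool.Agent.H62.EF (MN pr)
open Pool.Agent.AD (Vd Chart Charts)
open Pool.Agent.TG (TMap Lat Geo Gd)

open Pool.Agent.TG (VForm JJ II Cst Fb TransAt)
open Pool.Agent.G3 (Cv wt PS QD Crs Lim Arr gg closed_arcs)

variable {N k : ℕ} {X : Set (EN N)} {Λ : AddSubgroup (Vd (k + 1))} {u : EN N → Vd (k + 1)} {D B : Set (Vd (k + 1))} {p : EN N → EN N → ℝ} {m d : ℕ} {C : ℝ}
  {Q : EN N → ℂ} {S : Set (Vd (k + 1) → MN N)} {𝒰 : Ultrafilter ℕ} {F : ℕ → ℂ → EN N} {h : ℕ → ℂ → Vd (k + 1)} {E : ℕ → ℂ → ℂ} {a b : Vd (k + 1)} {Φ : Vd (k + 1) → MN N}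

/-- the mean value inequality -/
private theorem LctA_hlim {r : ℝ} (hr : 0 < r) {g : ℂ → Vd (k + 1)} {l a b : Vd (k + 1)} {ε δ : ℝ}
    (hg : DifferentiableOn ℂ g (ball 0 r)) (hd : ∀ z ∈ ball (0 : ℂ) r, ‖deriv g z - a‖ ≤ δ)
    (h0 : ‖g 0 + l - b‖ < ε) {z : ℂ} (hz : z ∈ ball (0 : ℂ) r) : ‖g z + l - (z • a + b)‖ < ε + δ * r := by
  have hdiff : ∀ x ∈ ball (0 : ℂ) r, DifferentiableAt ℂ (fun w => g w - w • a) x := fun x hx =>
    (hg.differentiableAt (isOpen_ball.mem_nhds hx)).sub ((differentiableAt_id).smul_const a)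
  have hder : ∀ x ∈ ball (0 : ℂ) r, ‖deriv (fun w => g w - w • a) x‖ ≤ δ := by
    intro x hx
    have h1 : deriv (fun w => g w - w • a) x = deriv g x - a := by
      have h2 : HasDerivAt (fun w : ℂ => w • a) ((1 : ℂ) • a) x := (hasDerivAt_id x).smul_const a
      have h3 := (hg.differentiableAt (isOpen_ball.mem_nhds hx)).hasDerivAt.sub h2
      rw [one_smul] at h3
      exact h3.deriv
    rw [h1]
    exact hd x hx
  have h0m : (0 : ℂ) ∈ ball (0 : ℂ) r := mem_ball_self hr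
  have h1 := (convex_ball (0 : ℂ) r).norm_image_sub_le_of_norm_deriv_le hdiff hder h0m hz
  have hδ : 0 ≤ δ := (norm_nonneg _).trans (hd 0 h0m)
  have hzr : ‖z‖ < r := by rwa [mem_ball_zero_iff] at hz
  have h2 : δ * ‖z - 0‖ ≤ δ * r := by
    rw [sub_zero]
    exact mul_le_mul_of_nonneg_left hzr.le hδ
  have h3 : g z + l - (z • a + b) = ((g z - z • a) - (g 0 - (0 : ℂ) • a)) + (g 0 + l - b) := by
    rw [zero_smul]
    abel
  rw [h3]
  have h4 := norm_add_le ((g z - z • a) - (g 0 - (0 : ℂ) • a)) (g 0 + l - b)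
  linarith

theorem lct_lim (hX : IsCone X) (hu : TMap X Λ u) (hΛ : Lat Λ) (hDc : IsClosed D) (hL : LDi D) (hP : PS X Λ u D p m C) (hS : Csf X Λ u D S) (ha : a ≠ 0)
    (hF : ∀ r : ℝ, ∀ᶠ n in (𝒰 : Filter ℕ), Cv X Λ u (ball 0 r) (F n) (h n))
    (hd : ∀ r ε : ℝ, 0 < ε → ∀ᶠ n in (𝒰 : Filter ℕ), ∀ z ∈ ball (0 : ℂ) r, ‖deriv (h n) z - a‖ ≤ ε) :
    ∃ (l : ℕ → Vd (k + 1)) (b : Vd (k + 1)) (Φ : Vd (k + 1) → MN N), (∀ n, l n ∈ Λ) ∧ Φ ∈ S ∧ Lim X Λ u D 𝒰 F (fun n z => h n z + l n) a b Φ := by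
  obtain ⟨R, hR, hcpt⟩ := hΛ.cpt
  choose l' hl' hl'R using fun n => hcpt (h n 0)
  -- the limit of the base points
  obtain ⟨b, -, hb⟩ := (isCompact_closedBall (0 : Vd (k + 1)) R).ultrafilter_le_nhds (𝒰.map fun n => h n 0 + -l' n) (by
    rw [le_principal_iff, Ultrafilter.mem_coe, Ultrafilter.mem_map]
    refine Filter.univ_mem' fun n => ?_
    simp only [Set.mem_preimage, mem_closedBall, dist_zero_right]
    rw [← sub_eq_add_neg]
    exact hl'R n)
  have hb' : Tendsto (fun n => h n 0 + -l' n) (𝒰 : Filter ℕ) (𝓝 b) := hb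
  have hlim : ∀ r ε : ℝ, 0 < ε → ∀ᶠ n in (𝒰 : Filter ℕ), ∀ z ∈ closedBall (0 : ℂ) r, ‖h n z + -l' n - (z • a + b)‖ < ε := by
    intro r ε hε
    have hr : 0 < |r| + 1 := by positivity
    have h1 : ∀ᶠ n in (𝒰 : Filter ℕ), ‖h n 0 + -l' n - b‖ < ε / 2 := by
      have h2 := Metric.tendsto_nhds.mp hb' (ε / 2) (by positivity)
      filter_upwards [h2] with n hn
      rwa [dist_eq_norm] at hn
    filter_upwards [h1, hF (|r| + 1), hd (|r| + 1) (ε / 2 / (|r| + 1)) (by positivity)] with n h2 h3 h4 z hz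
    have hz' : z ∈ ball (0 : ℂ) (|r| + 1) := by
      rw [mem_closedBall, dist_zero_right] at hz
      rw [mem_ball, dist_zero_right]
      have := le_abs_self r
      linarith
    have h5 := LctA_hlim hr h3.h_diff h4 h2 hz'
    have h6 : ε / 2 / (|r| + 1) * (|r| + 1) = ε / 2 := by field_simp
    rw [h6] at h5
    linarith
  have hF' : ∀ r : ℝ, ∀ᶠ n in (𝒰 : Filter ℕ), Cv X Λ u (ball 0 r) (F n) (fun z => h n z + -l' n) := by
    intro r
    filter_upwards [hF r] with n hn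
    exact hn.add (Λ.neg_mem (hl' n))
  have hder : ∀ z : ℂ, HasDerivAt (fun w : ℂ => w • a + b) a z := by
    intro z
    have h2 : HasDerivAt (fun w : ℂ => w • a) ((1 : ℂ) • a) z := (hasDerivAt_id z).smul_const a
    rw [one_smul] at h2
    exact h2.add_const b
  obtain ⟨G, hG, hGc⟩ := closed_arcs hX hu hΛ hDc hP 𝒰 (F := F) (h := fun n z => h n z + -l' n) (H := fun z => z • a + b) hF'
    (fun z => (hder z).differentiableAt) hlim (fun z => hL a ha b z) ⟨0, by rw [(hder 0).deriv]; exact ha⟩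
  obtain ⟨Φ, hΦ, hΦG⟩ := hS.cls a ha b G hG
  refine ⟨fun n => -l' n, b, Φ, fun n => Λ.neg_mem (hl' n), hΦ, ⟨hF', ha, hlim, fun K hK hKD ε hε => ?_⟩⟩
  filter_upwards [hGc K hK hKD ε hε] with n hn z hz
  rw [← hΦG z (hKD z hz)]
  exact hn z hz

theorem lct_isol (hQ : QD X Λ u D Q d) {F : ℂ → EN N} {h : ℂ → Vd (k + 1)} {r : ℝ} (hr : 0 < r) (hF : Cv X Λ u (ball 0 r) F h) (h0 : Q (F 0) ≠ 0) :
    ∀ z ∈ ball (0 : ℂ) r, ∀ᶠ w in 𝓝[≠] z, h w ∉ D := by
  intro z hz
  by_contra hcon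
  have hfr : ∃ᶠ w in 𝓝[≠] z, h w ∈ D := fun hev => hcon (hev.mono fun w hw => hw)
  have hmem : ∀ᶠ w in 𝓝[≠] z, w ∈ ball (0 : ℂ) r := mem_nhdsWithin_of_mem_nhds (isOpen_ball.mem_nhds hz)
  have hfr2 : ∃ᶠ w in 𝓝[≠] z, Q (F w) = 0 := (hfr.and_eventually hmem).mono fun w hw =>
    hQ.zero (F w) (hF.mem w hw.2) (h w) hw.1 (hF.lift w hw.2)
  have hdiff : DifferentiableOn ℂ (fun w => Q (F w)) (ball 0 r) := hQ.diff.comp_differentiableOn hF.F_diff
  have han : AnalyticOnNhd ℂ (fun w => Q (F w)) (ball 0 r) := hdiff.analyticOnNhd isOpen_ball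
  have hz0 := han.eqOn_zero_of_preconnected_of_frequently_eq_zero (convex_ball (0 : ℂ) r).isPreconnected hz hfr2
  exact h0 (hz0 (mem_ball_self hr))

/-- the section is continuous off `D`, with values in the fibre -/
private theorem LctA_cont (hX : IsCone X) (hS : Csf X Λ u D S) (hΦ : Φ ∈ S) {y : Vd (k + 1)} (hy : y ∉ D) :
    ContinuousAt Φ y ∧ ∀ᶠ z in 𝓝 y, Φ z ∈ Fb X Λ u z := by
  obtain ⟨φ, hφ, hev⟩ := hS.hol Φ hΦ y hy
  have hy0 := hev.self_of_nhds
  have h1 : ContinuousAt (fun z => pr (φ z)) y :=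
    ContinuousAt.comp (g := fun x : EN N => pr x) (Pool.Agent.H62.EF.continuousAt_pr (Pool.Agent.TG.ne_zero hX hy0.1)) hφ.continuousAt
  refine ⟨h1.congr (hev.mono fun z hz => hz.2.1.symm), hev.mono fun z hz => ⟨φ z, hz.1, hz.2.1.symm, hz.2.2⟩⟩

theorem lct_sec (hX : IsCone X) (hDc : IsClosed D) (hS : Csf X Λ u D S) (hΦ : Φ ∈ S) (hl : Lim X Λ u D 𝒰 F h a b Φ) {K : Set ℂ} (hK : IsCompact K) (hKD : ∀ z ∈ K, z • a + b ∉ D) {ε : ℝ} (hε : 0 < ε) :
    ∀ᶠ n in (𝒰 : Filter ℕ), ∀ z ∈ K, h n z ∉ D ∧ Φ (h n z) ∈ Fb X Λ u (h n z) ∧ pr (F n z) ∈ Fb X Λ u (h n z) ∧ dist (Φ (h n z)) (pr (F n z)) < ε := by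
  have hHc : Continuous (fun z : ℂ => z • a + b) := (continuous_id.smul continuous_const).add continuous_const
  -- local statement
  have hloc : ∀ z ∈ K, ∃ t ∈ 𝓝 z, ∃ δ : ℝ, 0 < δ ∧ ∀ w ∈ t, ∀ y : Vd (k + 1), ‖y - (w • a + b)‖ < δ →
      y ∉ D ∧ Φ y ∈ Fb X Λ u y ∧ dist (Φ y) (Φ (w • a + b)) < ε / 2 := by
    intro z hz
    obtain ⟨hc, hev⟩ := LctA_cont hX hS hΦ (hKD z hz)
    have hD : ∀ᶠ y in 𝓝 (z • a + b), y ∉ D := hDc.isOpen_compl.mem_nhds (hKD z hz)
    have hc2 : ∀ᶠ y in 𝓝 (z • a + b), dist (Φ y) (Φ (z • a + b)) < ε / 4 := Metric.tendsto_nhds.mp hc (ε / 4) (by positivity)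
    obtain ⟨δ, hδ, hball⟩ := Metric.eventually_nhds_iff.mp ((hev.and hD).and hc2)
    refine ⟨(fun w : ℂ => w • a + b) ⁻¹' ball (z • a + b) (δ / 2), hHc.continuousAt.preimage_mem_nhds (ball_mem_nhds _ (by positivity)), δ / 2,
      by positivity, fun w hw y hy => ?_⟩
    have hw1 : dist (w • a + b) (z • a + b) < δ / 2 := hw
    have hy1 : dist y (z • a + b) < δ := by
      have h1 := dist_triangle y (w • a + b) (z • a + b)
      rw [dist_eq_norm y (w • a + b)] at h1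
      linarith
    have h2 := hball hy1
    have h3 := hball (hw1.trans (by linarith))
    refine ⟨h2.1.2, h2.1.1, ?_⟩
    have h4 := dist_triangle_right (Φ y) (Φ (w • a + b)) (Φ (z • a + b))
    have h5 := h2.2
    have h6 := h3.2
    linarith
  choose! t ht δ hδ hδt using hloc
  obtain ⟨I, hIK, hIc⟩ := hK.elim_nhds_subcover t fun z hz => ht z hz
  have hbd : ∃ r : ℝ, ∀ z ∈ K, z ∈ closedBall (0 : ℂ) r := by
    obtain ⟨r, hr⟩ := hK.isBounded.subset_closedBall (0 : ℂ)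
    exact ⟨r, fun z hz => hr hz⟩
  obtain ⟨r, hr⟩ := hbd
  -- a common radius
  obtain ⟨η, hη, hηI⟩ : ∃ η : ℝ, 0 < η ∧ ∀ i ∈ I, η ≤ δ i := by
    rcases I.eq_empty_or_nonempty with h0 | h0
    · exact ⟨1, one_pos, fun i hi => by rw [h0] at hi; exact absurd hi (Finset.notMem_empty i)⟩
    · obtain ⟨i₀, hi₀, hmin⟩ := I.exists_min_image δ h0
      exact ⟨δ i₀, hδ i₀ (hIK i₀ hi₀), hmin⟩
  filter_upwards [hl.hlim r η hη, hl.flim K hK hKD (ε / 2) (by positivity), hl.cv (|r| + 1)] with n h1 h2 h3 z hz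
  obtain ⟨i, hi, hzi⟩ := Set.mem_iUnion₂.mp (hIc hz)
  have h4 := hδt i (hIK i hi) z hzi (h n z) ((h1 z (hr z hz)).trans_le (hηI i hi))
  have hzb : z ∈ ball (0 : ℂ) (|r| + 1) := by
    have h5 := hr z hz
    rw [mem_closedBall, dist_zero_right] at h5
    rw [mem_ball, dist_zero_right]
    have := le_abs_self r
    linarith
  refine ⟨h4.1, h4.2.1, ⟨F n z, h3.mem z hzb, rfl, h3.lift z hzb⟩, ?_⟩
  have h5 := h2 z hz
  have h6 := dist_triangle (Φ (h n z)) (Φ (z • a + b)) (pr (F n z))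
  rw [dist_comm (Φ (z • a + b))] at h6
  have h7 := h4.2.2
  linarith

end Pool.Agent.G4

end
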