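import Pool.Agent.H94.G4T.M106
import Pool.Agent.H94.G4T.M20
import Pool.Agent.H94.G4T.M22
import Pool.Agent.H94.G4T.M42
import Pool.Agent.H94.G4T.M55
import Pool.Agent.H94.G4T.M59

/-! The parts of this file: H62.EL.Kz_1, TG.Y.Kq, TG.Y.Kz_1, TG.Y.Cr, TG.Y.NcY. -/

section

/-!
# EL Kz: the integral `II` has a primitive on the annulus

Let `𝒜 = {z : r₁ < ‖z - b‖ < r₂}`; `H_F`, `H_G` from `exists_H` (with `s' = r₂ < s`) for `F` and `G`.  For every `z₀ ∈ 𝒜` choose by `hcap` a chart `χ₀` (with `c₀, ρ₀`), an index `k`, and by `exists_prim` a primitive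
`A₀` of the form in `χ₀`, and by `exists_prim_snd` a primitive `Q` of `bc (T.χ k) (A k) χ₀ (0, 1)` in the second variable (`χ₀.σ p ∈ T.W k ⊆ (T.χ k).U`, `bc_an`).  Let
`Φ x = Q (χ₀.q x) - lam k x` and `K_{z₀} z = Φ (G z) - Φ (F z) - H_G z + H_F z`.  Define `K z := K_z z`.
(1) For `z` near `z₀` (`z ∈ 𝒜`, `‖z - z₀‖ ≤ 3ε`, `dist (pr (F z)) (pr (F z₀)) ≤ ε`): `K z = K_{z₀} z`.  Let `Φ₀` (chart `χ₀`, index `k₀`) belong to `z₀` and `Φ₁` (`χ₁`, `k₁`) to `z`.  Let `χ', c', ρ', p, p'` be from `IRel α ε z (pr (F z))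
(pr (G z)) v`; for `θ ∈ [0, 1]` let `γ θ = χ'.σ (p + θ (p' - p))` (a complex curve for complex `θ` near `[0, 1]`).  Its points are over `z` and within `ε` of `pr (F z)`, so within `2ε` of `pr (F z₀)`: by `Cap` of radius
`3ε` they are in `χ₀.U` and `χ₁.U`, with `c₀ + ρ₀ (χ₀.q (γ θ)).1 = z`, and similarly for `χ₁`.  The first coordinates of `χ₀.q ∘ γ` and `χ₁.q ∘ γ` have derivative `0` at `θ` [for complex `θ'` near `θ`, `u (γ θ') - z ∈ Λ`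
because `mo c' ρ' 1 0` is constant along the line, so `c₀ + ρ₀ (χ₀.q (γ θ')).1 - z ∈ Λ`, continuous and `0` at `θ`].  `γ θ ∈ T.W k₀ ∩ T.W k₁` (multiples of `χ₀.σ _`, `χ₁.σ _`).  By `q_fibre` and `Split` the derivative of
`θ ↦ Φ₀ (γ θ) - Φ₁ (γ θ) = Q₀ - Q₁ - (lam k₀ - lam k₁)` is `bt k₀ - bt k₁ - (bt k₀ - bt k₁) = 0`.  So `Φ₀ (γ 1) - Φ₀ (γ 0) = Φ₁ (γ 1) - Φ₁ (γ 0)`; `γ 0`, `γ 1` are multiples of `F z`, `G z` (`pr_eq_iff`) and `Φ` is invariant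
under scaling (`Split`, `q_smul`).
(2) `K_{z₀}` has at `z₀` the derivative `II α ε z₀ (pr (F z₀)) (pr (G z₀))`: `K_{z₀} = (Q (χ₀.q (G z)) - Q (χ₀.q (F z))) - (H_G z + lam k (G z)) + (H_F z + lam k (F z))`; by `q_curve` and `exists_H` the derivative is
`bt(G) + (A₀ (q G) - b₁) / ρ₀ - bt(F) - (A₀ (q F) - b₁) / ρ₀ - bt(G) + bt(F) = (A₀ (χ₀.q (G z₀)) - A₀ (χ₀.q (F z₀))) / ρ₀`, which is `II` by `II_eq`.  (`G z₀ ∈ χ₀.U`: `dist (pr (G z₀)) (pr (F z₀)) ≤ ε` by `IRel` with `θ = 1`.)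
-/

set_option autoImplicit false

open Topology Filter Metric

namespace Pool.Agent.H62.EL

open Pool.Agent.H36.BP (EN fs wd IsGermChart)
open Pool.Agent.H14.PP (IsCone Chart Tan CurveAt jac)
open Pool.Agent.H62.EF (Lat MN pr TorusMap Sec Charts)

variable {N : ℕ} {X : Set (EN N)} {Λ : AddSubgroup ℂ} {u : EN N → ℂ}

theorem exists_K (hX : IsCone X) (hu : TorusMap X Λ u) (hΛ : Lat Λ) {b : ℂ} {s η : ℝ} {T : TubeData X} (hT : TubeG Λ u b s η T)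
    {α : TForm X Λ u} {A : Fin T.m → ℂ × ℂ → ℂ} (hA : ∀ k, IsPrim α (T.χ k) (mo b (T.ρ k) (T.i k) (T.j k)) (A k))
    {lam : Fin T.m → EN N → ℂ} (hs : Split Λ u b s T A lam) {F G : ℂ → EN N} (hF : F ∈ Sec X Λ u) (hG : G ∈ Sec X Λ u)
    {r₁ r₂ ε : ℝ} (hr₂ : r₂ < s) (hε : 0 < ε)
    (hcap : ∀ z₀, r₁ < ‖z₀ - b‖ → ‖z₀ - b‖ < r₂ → ∃ (χ : Chart X) (c : ℂ) (ρ : ℝ) (k : Fin T.m),
      Cap Λ u χ c ρ z₀ (pr (F z₀)) (3 * ε) ∧ ∀ p ∈ ball (0 : ℂ × ℂ) 2, χ.σ p ∈ T.W k)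
    (hrel : ∀ z₀, r₁ < ‖z₀ - b‖ → ‖z₀ - b‖ < r₂ → ∃ v, IRel α ε z₀ (pr (F z₀)) (pr (G z₀)) v) :
    ∃ K : ℂ → ℂ, ∀ z, r₁ < ‖z - b‖ → ‖z - b‖ < r₂ → HasDerivAt K (II α ε z (pr (F z)) (pr (G z))) z := by
  classical
  obtain ⟨HF, hHF⟩ := exists_H hT (fun k => (hA k).an) hs hF hr₂
  obtain ⟨HG, hHG⟩ := exists_H hT (fun k => (hA k).an) hs hG hr₂
  have hex : ∀ z, (r₁ < ‖z - b‖ ∧ ‖z - b‖ < r₂) → ∃ (χ : Chart X) (c : ℂ) (ρ : ℝ) (k : Fin T.m) (A₀ Q : ℂ × ℂ → ℂ),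
      Cap Λ u χ c ρ z (pr (F z)) (3 * ε) ∧ (∀ p ∈ ball (0 : ℂ × ℂ) 2, χ.σ p ∈ T.W k) ∧ IsPrim α χ (mo c ρ 1 0) A₀ ∧
      (∀ p ∈ ball (0 : ℂ × ℂ) 2, AnalyticAt ℂ Q p ∧ fderiv ℂ Q p (0, 1) = bc (T.χ k) (A k) χ (0, 1) p) ∧
      ∀ s : ℂ, ‖s‖ < 2 → Q (s, 0) = 0 := by
    rintro z ⟨hz1, hz2⟩
    obtain ⟨χ, c, ρ, k, hcap, hW⟩ := hcap z hz1 hz2
    obtain ⟨A₀, hA₀⟩ := exists_prim α χ hcap.mon
    obtain ⟨Q, hQ, hQ0⟩ := exists_prim_snd (R := 2) (a := bc (T.χ k) (A k) χ (0, 1))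
      (fun p hp => bc_an (T.χ k) χ (hA k).an hp (hT.W_sub k (hW p hp)) (0, 1))
    exact ⟨χ, c, ρ, k, A₀, Q, hcap, hW, hA₀, hQ, hQ0⟩
  choose χ c ρ k A₀ Q hC hW hA₀ hQ hQ0 using hex
  set KL : ∀ z₀, (r₁ < ‖z₀ - b‖ ∧ ‖z₀ - b‖ < r₂) → ℂ → ℂ := fun z₀ h₀ z =>
    ((Q z₀ h₀ ((χ z₀ h₀).q (G z)) - lam (k z₀ h₀) (G z)) - (Q z₀ h₀ ((χ z₀ h₀).q (F z)) - lam (k z₀ h₀) (F z))) - HG z + HF z with hKL
  refine ⟨fun z => if h : r₁ < ‖z - b‖ ∧ ‖z - b‖ < r₂ then KL z h z else 0, fun z₀ h1 h2 => ?_⟩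
  have h₀ : r₁ < ‖z₀ - b‖ ∧ ‖z₀ - b‖ < r₂ := ⟨h1, h2⟩
  have hX0 : ∀ x ∈ X, x ≠ 0 := fun x hx h => hX.zero_notMem (h ▸ hx)
  -- the function agrees with the local one
  have hev : (fun z => if h : r₁ < ‖z - b‖ ∧ ‖z - b‖ < r₂ then KL z h z else 0) =ᶠ[𝓝 z₀] KL z₀ h₀ := by
    have e1 : ∀ᶠ z in 𝓝 z₀, r₁ < ‖z - b‖ ∧ ‖z - b‖ < r₂ := by
      have hc : ContinuousAt (fun z : ℂ => ‖z - b‖) z₀ := (continuous_id.sub continuous_const).norm.continuousAt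
      exact (hc.eventually_const_lt h1).and (hc.eventually_lt_const h2)
    have e2 : ∀ᶠ z in 𝓝 z₀, z ∈ closedBall z₀ (3 * ε) := closedBall_mem_nhds _ (by positivity)
    have e3 : ∀ᶠ z in 𝓝 z₀, dist (pr (F z)) (pr (F z₀)) < ε := by
      have hc : ContinuousAt (fun z => pr (F z)) z₀ :=
        (Pool.Agent.H62.EF.continuousAt_pr (hX0 _ (hF.2.1 z₀))).comp (f := F) (hF.1 z₀).continuousAt
      exact hc.eventually (ball_mem_nhds _ hε)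
    filter_upwards [e1, e2, e3] with z g1 g2 g3
    rw [dif_pos g1]
    obtain ⟨v, hv⟩ := hrel z g1.1 g1.2
    have hcons := kz_cons hX hu hΛ hT hs (hF.2.1 z) (hG.2.1 z) (z := z) (by
      rw [mem_ball, dist_eq_norm]
      exact g1.2.trans hr₂) hv (hC z g1) (hW z g1) (hQ z g1) (mem_closedBall_self (by positivity)) (by rw [dist_self]; linarith)
      (hC z₀ h₀) (hW z₀ h₀) (hQ z₀ h₀) g2 (by linarith)
    simp only [hKL]
    rw [hcons]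
  refine HasDerivAt.congr_of_eventuallyEq ?_ hev
  -- the derivative of the local function
  obtain ⟨v, hv⟩ := hrel z₀ h1 h2
  have hself : z₀ ∈ closedBall z₀ (3 * ε) := mem_closedBall_self (by positivity)
  obtain ⟨hFU, hFq, hFz⟩ := (hC z₀ h₀).cap z₀ hself (F z₀) (hF.2.1 z₀) (hF.2.2 z₀) (by rw [dist_self]; positivity)
  have hdG : dist (pr (G z₀)) (pr (F z₀)) ≤ 3 * ε := by
    obtain ⟨χ', c', ρ', A', p, p', hm', -, hp, hp', hpz, hpz', hpx, hpx', hdist, -⟩ := hv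
    have h3 := hdist 1 (by simp)
    have h4 : p + ((1 : ℝ) : ℂ) • (p' - p) = p' := by simp
    rw [h4, hpx'] at h3
    linarith
  obtain ⟨hGU, hGq, hGz⟩ := (hC z₀ h₀).cap z₀ hself (G z₀) (hG.2.1 z₀) (hG.2.2 z₀) hdG
  have hη : ‖z₀ - b‖ < η := (h2.trans hr₂).trans_le hT.le
  have hsub : ∀ p ∈ ball (0 : ℂ × ℂ) 2, (χ z₀ h₀).σ p ∈ (T.χ (k z₀ h₀)).U := fun p hp => hT.W_sub _ (hW z₀ h₀ p hp)
  have dF := q_curve hX hu hΛ hT.inj (hT.mon (k z₀ h₀)) (hT.range (k z₀ h₀)) (hC z₀ h₀).mon (hA (k z₀ h₀)) (hA₀ z₀ h₀) hsub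
    (hQ z₀ h₀) (hQ0 z₀ h₀) hF hFU hFz hη
  have dG := q_curve hX hu hΛ hT.inj (hT.mon (k z₀ h₀)) (hT.range (k z₀ h₀)) (hC z₀ h₀).mon (hA (k z₀ h₀)) (hA₀ z₀ h₀) hsub
    (hQ z₀ h₀) (hQ0 z₀ h₀) hG hGU hGz hη
  have hWk : ∀ x ∈ X, x ∈ (χ z₀ h₀).U → x ∈ T.W (k z₀ h₀) := by
    intro x hx hxU
    obtain ⟨hq, a, ha, hxa⟩ := (χ z₀ h₀).surj x hx hxU
    rw [hxa]
    exact hT.W_smul _ _ (hW z₀ h₀ _ hq) a ha
  have hb₂ : z₀ ∈ ball b r₂ := by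
    rw [mem_ball, dist_eq_norm]
    exact h2
  have eF := hHF z₀ hb₂ (k z₀ h₀) (hWk _ (hF.2.1 z₀) hFU)
  have eG := hHG z₀ hb₂ (k z₀ h₀) (hWk _ (hG.2.1 z₀) hGU)
  have hII := II_eq hX hu hΛ ⟨v, hv⟩ (hC z₀ h₀) (hA₀ z₀ h₀) hself (by rw [dist_self]; linarith) (hF.2.1 z₀) (hG.2.1 z₀) rfl rfl
  rw [hII]
  have htot := ((dG.sub dF).sub eG).add eF
  refine (htot.congr_deriv ?_).congr_of_eventuallyEq (Eventually.of_forall fun z => ?_)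
  · ring
  · simp only [hKL, Pi.add_apply, Pi.sub_apply]
    ring

end Pool.Agent.H62.EL

end

section

/-!
# TG Y Kq: `EL/Kq` for local sections
-/

set_option autoImplicit false

open Topology Filter Metric

namespace Pool.Agent.TGY

open Pool.Agent.H36.BP (EN fs wd IsGermChart)
open Pool.Agent.H14.PP (IsCone Chart Tan CurveAt jac)
open Pool.Agent.H62.EF (Lat MN pr TorusMap Charts)
open Pool.Agent.H62.EL

variable {N : ℕ} {X : Set (EN N)} {Λ : AddSubgroup ℂ} {u : EN N → ℂ}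
variable {α : TForm X Λ u} {χ χ₀ : Chart X} {b c₀ : ℂ} {ρ ρ₀ η : ℝ} {i j : ℕ} {A A₀ Q : ℂ × ℂ → ℂ}

private theorem Kq_pair (L : (ℂ × ℂ) →L[ℂ] ℂ) (w : ℂ × ℂ) : L w = w.1 * L (1, 0) + w.2 * L (0, 1) := by
  rw [← smul_eq_mul, ← smul_eq_mul, ← map_smul, ← map_smul, ← map_add]
  congr 1
  ext
  · simp
  · simp

private theorem Kq_mo (c : ℂ) (ρ : ℝ) (p : ℂ × ℂ) : mo c ρ 1 0 p = c + ρ * p.1 := by
  simp [mo]

theorem q_curve_loc (hX : IsCone X) (hu : TorusMap X Λ u) (hΛ : Lat Λ) (hinj : ∀ l ∈ Λ, ‖l‖ < 2 * η → l = 0) (hm : Mon Λ u χ b ρ i j)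
    (hr : ∀ p ∈ ball (0 : ℂ × ℂ) 2, ‖mo b ρ i j p - b‖ < η) (hm₀ : Mon Λ u χ₀ c₀ ρ₀ 1 0) (hA : IsPrim α χ (mo b ρ i j) A)
    (hA₀ : IsPrim α χ₀ (mo c₀ ρ₀ 1 0) A₀) (hsub : ∀ p ∈ ball (0 : ℂ × ℂ) 2, χ₀.σ p ∈ χ.U)
    (hQ : ∀ p ∈ ball (0 : ℂ × ℂ) 2, AnalyticAt ℂ Q p ∧ fderiv ℂ Q p (0, 1) = bc χ A χ₀ (0, 1) p)
    (hQ0 : ∀ s : ℂ, ‖s‖ < 2 → Q (s, 0) = 0) {F : ℂ → EN N} {z : ℂ} (hF : CurveAt X F z) (hFu : ∀ᶠ w in 𝓝 z, u (F w) - w ∈ Λ) (hU : F z ∈ χ₀.U)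
    (hz : c₀ + ρ₀ * (χ₀.q (F z)).1 = z) (hzb : ‖z - b‖ < η) :
    HasDerivAt (fun w => Q (χ₀.q (F w)))
      (bt χ A F z + (A₀ (χ₀.q (F z)) - bc χ A χ₀ (1, 0) ((z - c₀) / ρ₀, 0)) / ρ₀) z := by
  have hcur : CurveAt X F z := hF
  have hFan : AnalyticAt ℂ F z := hF.1
  have hFX : F z ∈ X := hF.2.self_of_nhds
  have hfan : AnalyticAt ℂ (fun w => χ₀.q (F w)) z := (χ₀.q_an _ hU).comp hFan
  obtain ⟨hfb, -⟩ := χ₀.surj _ hFX hU
  have hUχ : F z ∈ χ.U := by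
    obtain ⟨hb, c, hc, hx⟩ := χ₀.surj _ hFX hU
    rw [hx]
    exact χ.smul_U _ (hsub _ hb) c hc
  have hρ : (ρ₀ : ℂ) ≠ 0 := by exact_mod_cast hm₀.pos.ne'
  obtain ⟨δΛ, hδΛ, hdisc⟩ := hΛ.discrete
  have hev : ∀ᶠ w in 𝓝 z, c₀ + ρ₀ * (χ₀.q (F w)).1 = w := by
    have hcont : ContinuousAt (fun w => c₀ + ρ₀ * (χ₀.q (F w)).1 - w) z := by
      have h1 : ContinuousAt (fun w => (χ₀.q (F w)).1) z := continuousAt_fst.comp hfan.continuousAt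
      exact ((continuousAt_const.add (continuousAt_const.mul h1)).sub continuousAt_id)
    have h2 : ∀ᶠ w in 𝓝 z, ‖c₀ + ρ₀ * (χ₀.q (F w)).1 - w‖ < δΛ := by
      have h3 := hcont.norm.tendsto
      refine h3.eventually_lt_const ?_
      rw [hz, sub_self, norm_zero]
      exact hδΛ
    have h4 : ∀ᶠ w in 𝓝 z, F w ∈ χ₀.U := hFan.continuousAt.eventually (χ₀.isOpen_U.mem_nhds hU)
    filter_upwards [h2, h4, hF.2, hFu] with w hw hwU hwX hwu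
    obtain ⟨hb, c, hc, hx⟩ := χ₀.surj _ hwX hwU
    have h5 := hm₀.lift _ hb
    have h6 := hu.smul _ (χ₀.σ_mem _ hb).1 c hc
    rw [← hx] at h6
    have h7 := hwu
    rw [Kq_mo] at h5
    have h8 : c₀ + ρ₀ * (χ₀.q (F w)).1 - w ∈ Λ := by
      have := Λ.sub_mem (Λ.sub_mem h7 h6) h5
      convert this using 1
      ring
    exact sub_eq_zero.1 (hdisc _ h8 hw)
  have hd := hfan.differentiableAt.hasDerivAt
  have hd1 : (deriv (fun w => χ₀.q (F w)) z).1 = 1 / ρ₀ := by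
    have h1 : HasDerivAt (fun w => (χ₀.q (F w)).1) (deriv (fun w => χ₀.q (F w)) z).1 z :=
      HasFDerivAt.comp_hasDerivAt (f := fun w => χ₀.q (F w)) z
        (ContinuousLinearMap.fst ℂ ℂ ℂ).hasFDerivAt hd
    have h2 : (fun w => (χ₀.q (F w)).1) =ᶠ[𝓝 z] fun w => (w - c₀) / ρ₀ := by
      filter_upwards [hev] with w hw
      rw [eq_div_iff hρ]
      linear_combination hw
    have h3 : HasDerivAt (fun w : ℂ => (w - c₀) / ρ₀) (1 / ρ₀) z := ((hasDerivAt_id z).sub_const c₀).div_const _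
    exact h1.unique (h3.congr_of_eventuallyEq h2)
  have hpb : ‖mo c₀ ρ₀ 1 0 (χ₀.q (F z)) - b‖ < η := by rw [Kq_mo, hz]; exact hzb
  have h1 := q_fderiv hX hu hinj hm hr hm₀ hA hA₀ hsub hQ hQ0 hfb hpb
  have h2 := (hQ _ hfb).2
  have h3 : HasDerivAt (fun w => Q (χ₀.q (F w))) (fderiv ℂ Q (χ₀.q (F z)) (deriv (fun w => χ₀.q (F w)) z)) z :=
    HasFDerivAt.comp_hasDerivAt (f := fun w => χ₀.q (F w)) z (hQ _ hfb).1.differentiableAt.hasFDerivAt hd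
  have hz1 : (χ₀.q (F z)).1 = (z - c₀) / ρ₀ := by
    rw [eq_div_iff hρ]
    linear_combination hz
  rw [Kq_pair, h1, h2, hd1] at h3
  rw [bt_eq χ χ₀ A hcur hU hUχ, hd1, ← hz1]
  convert h3 using 1
  field_simp
  ring

end Pool.Agent.TGY

end

section

/-!
# TG Y Kz: `EL/Kz` for sections over a disc
-/

set_option autoImplicit false

open Topology Filter Metric

namespace Pool.Agent.TGY

open Pool.Agent.H36.BP (EN fs wd IsGermChart)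
open Pool.Agent.H14.PP (IsCone Chart Tan CurveAt jac)
open Pool.Agent.H62.EF (Lat MN pr TorusMap Charts)
open Pool.Agent.H62.EL

variable {N : ℕ} {X : Set (EN N)} {Λ : AddSubgroup ℂ} {u : EN N → ℂ}

theorem exists_K (hX : IsCone X) (hu : TorusMap X Λ u) (hΛ : Lat Λ) {b : ℂ} {s η : ℝ} {T : TubeData X} (hT : TubeG Λ u b s η T)
    {α : TForm X Λ u} {A : Fin T.m → ℂ × ℂ → ℂ} (hA : ∀ k, IsPrim α (T.χ k) (mo b (T.ρ k) (T.i k) (T.j k)) (A k))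
    {lam : Fin T.m → EN N → ℂ} (hs : Split Λ u b s T A lam) {F G : ℂ → EN N} {t : ℝ} (hts : t ≤ s) (hF : SecOn X Λ u b t F) (hG : SecOn X Λ u b t G)
    {r₁ r₂ ε : ℝ} (hr₂ : r₂ < t) (hε : 0 < ε)
    (hcap : ∀ z₀, r₁ < ‖z₀ - b‖ → ‖z₀ - b‖ < r₂ → ∃ (χ : Chart X) (c : ℂ) (ρ : ℝ) (k : Fin T.m),
      Cap Λ u χ c ρ z₀ (pr (F z₀)) (3 * ε) ∧ ∀ p ∈ ball (0 : ℂ × ℂ) 2, χ.σ p ∈ T.W k)
    (hrel : ∀ z₀, r₁ < ‖z₀ - b‖ → ‖z₀ - b‖ < r₂ → ∃ v, IRel α ε z₀ (pr (F z₀)) (pr (G z₀)) v) :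
    ∃ K : ℂ → ℂ, ∀ z, r₁ < ‖z - b‖ → ‖z - b‖ < r₂ → HasDerivAt K (II α ε z (pr (F z)) (pr (G z))) z := by
  classical
  obtain ⟨HF, hHF⟩ := exists_H hT (fun k => (hA k).an) hs hF hts hr₂
  obtain ⟨HG, hHG⟩ := exists_H hT (fun k => (hA k).an) hs hG hts hr₂
  have hex : ∀ z, (r₁ < ‖z - b‖ ∧ ‖z - b‖ < r₂) → ∃ (χ : Chart X) (c : ℂ) (ρ : ℝ) (k : Fin T.m) (A₀ Q : ℂ × ℂ → ℂ),
      Cap Λ u χ c ρ z (pr (F z)) (3 * ε) ∧ (∀ p ∈ ball (0 : ℂ × ℂ) 2, χ.σ p ∈ T.W k) ∧ IsPrim α χ (mo c ρ 1 0) A₀ ∧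
      (∀ p ∈ ball (0 : ℂ × ℂ) 2, AnalyticAt ℂ Q p ∧ fderiv ℂ Q p (0, 1) = bc (T.χ k) (A k) χ (0, 1) p) ∧
      ∀ s : ℂ, ‖s‖ < 2 → Q (s, 0) = 0 := by
    rintro z ⟨hz1, hz2⟩
    obtain ⟨χ, c, ρ, k, hcap, hW⟩ := hcap z hz1 hz2
    obtain ⟨A₀, hA₀⟩ := exists_prim α χ hcap.mon
    obtain ⟨Q, hQ, hQ0⟩ := exists_prim_snd (R := 2) (a := bc (T.χ k) (A k) χ (0, 1))
      (fun p hp => bc_an (T.χ k) χ (hA k).an hp (hT.W_sub k (hW p hp)) (0, 1))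
    exact ⟨χ, c, ρ, k, A₀, Q, hcap, hW, hA₀, hQ, hQ0⟩
  choose χ c ρ k A₀ Q hC hW hA₀ hQ hQ0 using hex
  set KL : ∀ z₀, (r₁ < ‖z₀ - b‖ ∧ ‖z₀ - b‖ < r₂) → ℂ → ℂ := fun z₀ h₀ z =>
    ((Q z₀ h₀ ((χ z₀ h₀).q (G z)) - lam (k z₀ h₀) (G z)) - (Q z₀ h₀ ((χ z₀ h₀).q (F z)) - lam (k z₀ h₀) (F z))) - HG z + HF z with hKL
  refine ⟨fun z => if h : r₁ < ‖z - b‖ ∧ ‖z - b‖ < r₂ then KL z h z else 0, fun z₀ h1 h2 => ?_⟩
  have h₀ : r₁ < ‖z₀ - b‖ ∧ ‖z₀ - b‖ < r₂ := ⟨h1, h2⟩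
  have hX0 : ∀ x ∈ X, x ≠ 0 := fun x hx h => hX.zero_notMem (h ▸ hx)
  have hbt : ∀ z : ℂ, ‖z - b‖ < r₂ → z ∈ ball b t := fun z hz => by
    rw [mem_ball, dist_eq_norm]
    exact hz.trans hr₂
  have hcF : ∀ z : ℂ, z ∈ ball b t → CurveAt X F z ∧ ∀ᶠ w in 𝓝 z, u (F w) - w ∈ Λ := fun z hz =>
    ⟨⟨hF.1.analyticAt (isOpen_ball.mem_nhds hz), by
      filter_upwards [isOpen_ball.mem_nhds hz] with w hw
      exact hF.2.1 w hw⟩, by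
      filter_upwards [isOpen_ball.mem_nhds hz] with w hw
      exact hF.2.2 w hw⟩
  have hcG : ∀ z : ℂ, z ∈ ball b t → CurveAt X G z ∧ ∀ᶠ w in 𝓝 z, u (G w) - w ∈ Λ := fun z hz =>
    ⟨⟨hG.1.analyticAt (isOpen_ball.mem_nhds hz), by
      filter_upwards [isOpen_ball.mem_nhds hz] with w hw
      exact hG.2.1 w hw⟩, by
      filter_upwards [isOpen_ball.mem_nhds hz] with w hw
      exact hG.2.2 w hw⟩
  have hbz₀ : z₀ ∈ ball b t := hbt z₀ h2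
  -- the function agrees with the local one
  have hev : (fun z => if h : r₁ < ‖z - b‖ ∧ ‖z - b‖ < r₂ then KL z h z else 0) =ᶠ[𝓝 z₀] KL z₀ h₀ := by
    have e1 : ∀ᶠ z in 𝓝 z₀, r₁ < ‖z - b‖ ∧ ‖z - b‖ < r₂ := by
      have hc : ContinuousAt (fun z : ℂ => ‖z - b‖) z₀ := (continuous_id.sub continuous_const).norm.continuousAt
      exact (hc.eventually_const_lt h1).and (hc.eventually_lt_const h2)
    have e2 : ∀ᶠ z in 𝓝 z₀, z ∈ closedBall z₀ (3 * ε) := closedBall_mem_nhds _ (by positivity)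
    have e3 : ∀ᶠ z in 𝓝 z₀, dist (pr (F z)) (pr (F z₀)) < ε := by
      have hc : ContinuousAt (fun z => pr (F z)) z₀ :=
        (Pool.Agent.H62.EF.continuousAt_pr (hX0 _ (hF.2.1 z₀ hbz₀))).comp (f := F) (hcF z₀ hbz₀).1.1.continuousAt
      exact hc.eventually (ball_mem_nhds _ hε)
    filter_upwards [e1, e2, e3] with z g1 g2 g3
    rw [dif_pos g1]
    obtain ⟨v, hv⟩ := hrel z g1.1 g1.2
    have hcons := kz_cons hX hu hΛ hT hs (hF.2.1 z (hbt z g1.2)) (hG.2.1 z (hbt z g1.2)) (z := z) (by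
      rw [mem_ball, dist_eq_norm]
      exact (g1.2.trans hr₂).trans_le hts) hv (hC z g1) (hW z g1) (hQ z g1) (mem_closedBall_self (by positivity)) (by rw [dist_self]; linarith)
      (hC z₀ h₀) (hW z₀ h₀) (hQ z₀ h₀) g2 (by linarith)
    simp only [hKL]
    rw [hcons]
  refine HasDerivAt.congr_of_eventuallyEq ?_ hev
  -- the derivative of the local function
  obtain ⟨v, hv⟩ := hrel z₀ h1 h2
  have hself : z₀ ∈ closedBall z₀ (3 * ε) := mem_closedBall_self (by positivity)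
  obtain ⟨hFU, hFq, hFz⟩ := (hC z₀ h₀).cap z₀ hself (F z₀) (hF.2.1 z₀ hbz₀) (hF.2.2 z₀ hbz₀) (by rw [dist_self]; positivity)
  have hdG : dist (pr (G z₀)) (pr (F z₀)) ≤ 3 * ε := by
    obtain ⟨χ', c', ρ', A', p, p', hm', -, hp, hp', hpz, hpz', hpx, hpx', hdist, -⟩ := hv
    have h3 := hdist 1 (by simp)
    have h4 : p + ((1 : ℝ) : ℂ) • (p' - p) = p' := by simp
    rw [h4, hpx'] at h3
    linarith
  obtain ⟨hGU, hGq, hGz⟩ := (hC z₀ h₀).cap z₀ hself (G z₀) (hG.2.1 z₀ hbz₀) (hG.2.2 z₀ hbz₀) hdG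
  have hη : ‖z₀ - b‖ < η := ((h2.trans hr₂).trans_le hts).trans_le hT.le
  have hsub : ∀ p ∈ ball (0 : ℂ × ℂ) 2, (χ z₀ h₀).σ p ∈ (T.χ (k z₀ h₀)).U := fun p hp => hT.W_sub _ (hW z₀ h₀ p hp)
  have dF := q_curve_loc hX hu hΛ hT.inj (hT.mon (k z₀ h₀)) (hT.range (k z₀ h₀)) (hC z₀ h₀).mon (hA (k z₀ h₀)) (hA₀ z₀ h₀) hsub
    (hQ z₀ h₀) (hQ0 z₀ h₀) (hcF z₀ hbz₀).1 (hcF z₀ hbz₀).2 hFU hFz hη
  have dG := q_curve_loc hX hu hΛ hT.inj (hT.mon (k z₀ h₀)) (hT.range (k z₀ h₀)) (hC z₀ h₀).mon (hA (k z₀ h₀)) (hA₀ z₀ h₀) hsub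
    (hQ z₀ h₀) (hQ0 z₀ h₀) (hcG z₀ hbz₀).1 (hcG z₀ hbz₀).2 hGU hGz hη
  have hWk : ∀ x ∈ X, x ∈ (χ z₀ h₀).U → x ∈ T.W (k z₀ h₀) := by
    intro x hx hxU
    obtain ⟨hq, a, ha, hxa⟩ := (χ z₀ h₀).surj x hx hxU
    rw [hxa]
    exact hT.W_smul _ _ (hW z₀ h₀ _ hq) a ha
  have hb₂ : z₀ ∈ ball b r₂ := by
    rw [mem_ball, dist_eq_norm]
    exact h2
  have eF := hHF z₀ hb₂ (k z₀ h₀) (hWk _ (hF.2.1 z₀ hbz₀) hFU)
  have eG := hHG z₀ hb₂ (k z₀ h₀) (hWk _ (hG.2.1 z₀ hbz₀) hGU)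
  have hII := II_eq hX hu hΛ ⟨v, hv⟩ (hC z₀ h₀) (hA₀ z₀ h₀) hself (by rw [dist_self]; linarith) (hF.2.1 z₀ hbz₀) (hG.2.1 z₀ hbz₀) rfl rfl
  rw [hII]
  have htot := ((dG.sub dF).sub eG).add eF
  refine (htot.congr_deriv ?_).congr_of_eventuallyEq (Eventually.of_forall fun z => ?_)
  · ring
  · simp only [hKL, Pi.add_apply, Pi.sub_apply]
    ring

end Pool.Agent.TGY

end

section

/-!
# TG Y Cr: crossing a bad fibre, for sections over a disc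
-/

set_option autoImplicit false

open Topology Filter Metric

namespace Pool.Agent.TGY

open Pool.Agent.H36.BP (EN fs wd IsGermChart)
open Pool.Agent.H14.PP (IsCone Chart Tan CurveAt jac)
open Pool.Agent.H62.EF (Lat MN pr TorusMap Charts)
open Pool.Agent.H62.EL

variable {N : ℕ} {X : Set (EN N)} {Λ : AddSubgroup ℂ} {u : EN N → ℂ}

theorem crossing_on (hX : IsCone X) (hu : TorusMap X Λ u) (hΛ : Lat Λ) {b : ℂ} {s η : ℝ} {T : TubeData X} (hT : Tube Λ u b s η T)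
    {α : TForm X Λ u} {r₁ r₂ ε t : ℝ} (hr₁ : 0 < r₁) (hr : r₁ < r₂) (hr₂ : r₂ < t) (hts : t ≤ s) (hε : 0 < ε)
    {F G : ℂ → EN N} (hF : SecOn X Λ u b t F) (hG : SecOn X Λ u b t G)
    (hcap : ∀ z₀, r₁ < ‖z₀ - b‖ → ‖z₀ - b‖ < r₂ → ∃ (χ : Chart X) (c : ℂ) (ρ : ℝ) (k : Fin T.m),
      Cap Λ u χ c ρ z₀ (pr (F z₀)) (3 * ε) ∧ ∀ p ∈ ball (0 : ℂ × ℂ) 2, χ.σ p ∈ T.W k)
    (hrel : ∀ z₀, r₁ < ‖z₀ - b‖ → ‖z₀ - b‖ < r₂ → ∃ v, IRel α ε z₀ (pr (F z₀)) (pr (G z₀)) v) :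
    ∃ J : ℂ → ℂ, DifferentiableOn ℂ J (ball b r₂) ∧ ∀ z, r₁ < ‖z - b‖ → ‖z - b‖ < r₂ → J z = II α ε z (pr (F z)) (pr (G z)) := by
  have hopen : IsOpen {z : ℂ | r₁ < ‖z - b‖ ∧ ‖z - b‖ < r₂} := by
    have h1 : IsOpen {z : ℂ | r₁ < ‖z - b‖} := isOpen_lt continuous_const (by fun_prop)
    have h2 : IsOpen {z : ℂ | ‖z - b‖ < r₂} := isOpen_lt (by fun_prop) continuous_const
    exact h1.inter h2
  have hbt : ∀ z : ℂ, ‖z - b‖ < r₂ → z ∈ ball b t := fun z hz => by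
    rw [mem_ball, dist_eq_norm]
    exact hz.trans hr₂
  refine ext_annulus hr₁ hr (J := fun z => II α ε z (pr (F z)) (pr (G z))) ?_ ?_
  · intro z₀ hz₀
    obtain ⟨χ, c, ρ, k, hc, _⟩ := hcap z₀ hz₀.1 hz₀.2
    have hb := isOpen_ball.mem_nhds (hbt z₀ hz₀.2)
    have h := II_analytic_on hX hu hΛ (α := α) (ε := ε) (r := 3 * ε) (hF.1.analyticAt hb) (hG.1.analyticAt hb)
      (Filter.mem_of_superset hb fun z hz => ⟨hF.2.1 z hz, hF.2.2 z hz⟩) (Filter.mem_of_superset hb fun z hz => ⟨hG.2.1 z hz, hG.2.2 z hz⟩)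
      hc (by linarith) (Filter.mem_of_superset (hopen.mem_nhds hz₀) fun z hz => hrel z hz.1 hz.2)
    exact h.differentiableAt.differentiableWithinAt
  · intro n r hr₁r hrr₂
    choose A hA using fun k : Fin T.m => exists_prim (α.mulPow b n) (T.χ k) (hT.geo.mon k)
    obtain ⟨lam, hlam⟩ := hT.split (α.mulPow b n) A hA
    obtain ⟨K, hK⟩ := exists_K hX hu hΛ hT.geo hA hlam hts hF hG (r₁ := r₁) hr₂ hε hcap
      (fun z h₁ h₂ => by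
        obtain ⟨v, hv⟩ := hrel z h₁ h₂
        exact ⟨_, hv.mulPow b n⟩)
    refine circleIntegral.integral_eq_zero_of_hasDerivWithinAt (f := K) (by linarith) fun z hz => ?_
    have hz' : ‖z - b‖ = r := by rwa [mem_sphere, dist_eq_norm] at hz
    have h₁ : r₁ < ‖z - b‖ := by rw [hz']; exact hr₁r
    have h₂ : ‖z - b‖ < r₂ := by rw [hz']; exact hrr₂
    obtain ⟨χ, c, ρ, k, hc, _⟩ := hcap z h₁ h₂
    have h := II_mulPow hX hu hΛ (hrel z h₁ h₂) hc (mem_closedBall_self (by linarith))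
      (by rw [dist_self]; linarith) b n
    have h3 := hK z h₁ h₂
    rw [h] at h3
    exact h3.hasDerivWithinAt

end Pool.Agent.TGY

end

section

/-!
# TG Y NcY: the slab is smooth and has normal crossings over `p`

Let `x₀ ∈ Y`, `wl x₀ ∈ Γ₀`; then `‖wl x₀‖ ≤ s` and `L.big` give `wl x₀ = 0`, `u x₀ - p ∈ Λ`.  Let `σ, τ, a, b` be from `L.nc x₀`: `u (σ q) - κ (nm a b q) ∈ Λ` for `q` near `0`.

The line in the coordinates `κ`: `t z = (c z) 0` has `t 0 = 0`, `t' 0 ≠ 0` (`L.c_ne`), so there is `θ` analytic at `0`, `θ 0 = 0`, `t (θ ξ) = ξ`, `θ (t z) = z` (`local_inverse` in `ℂ`, or `HasStrictDerivAt` inverse), `θ ξ = ξ * θ₁ ξ`, `θ₁` analytic at `0`, `θ₁ 0 ≠ 0`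
(`dslope`).  `g ξ = (fun j => (c (θ ξ)) j.succ)`, `g 0 = 0`; so `c (θ ξ) = cons ξ (g ξ)`.

Claim: for `q` near `0`: `σ q ∈ Y` iff `q_{j+2} = g (q 0 ^ a * q 1 ^ b) j` for all `j : Fin k`, and then `wl (σ q) = θ (q 0 ^ a * q 1 ^ b)`.  `→`: let `z = wl (σ q)`; `κ (nm a b q) - (p + z • e) ∈ Λ`; `κ (nm a b q)` is near `p` (`q` near `0`, `a + b > 0`), so this element of
`Λ` has norm `≤ small + s ‖e‖ ≤ 4 s ‖e‖` and is `0`: `κ (nm a b q) = p + z • e = κ (c z)`, so `z • e` is small, `z` is small, and as `κ` is injective near `0` (`fderiv κ 0` is injective: from `dt_ne 0` and `κ_c`; `local_inverse` for `κ` at `0`), `nm a b q = c z`, i.e. `q 0 ^ a * q 1 ^ b = t z`,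
`z = θ (q 0 ^ a * q 1 ^ b)`, `q_{j+2} = (c z) j.succ`.  `←`: `nm a b q = c (θ ξ)` with `ξ = q 0 ^ a * q 1 ^ b`, so `κ (nm a b q) = p + (θ ξ) • e`, `‖θ ξ‖ ≤ s`.

New coordinates: if `a > 0`: `x = q 0 * β (q 0 ^ a * q 1 ^ b)`, `y = q 1` with `β` analytic at `0`, `β ^ a = θ₁`, `β 0 ≠ 0` (an `a`-th root of a nonvanishing germ, e.g. `β = exp (log (θ₁ / θ₁ 0) / a) * const`); if `a = 0`, `b > 0`: `x = q 0`, `y = q 1 * β (q 0 ^ a * q 1 ^ b)`, `β ^ b = θ₁`.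
So `x ^ a * y ^ b = ξ θ₁ ξ = θ ξ = wl`.  The map `m : (q 0, q 1) ↦ (x, y)` has an injective derivative at `0` (case `a > 0`: `m = (q 0 * β(ξ), q 1)`; if `ξ = q 0 ^ a q 1 ^ b` its derivative at `0` is triangular with diagonal entries `β 0, 1`; note the case `a = 1`, `b = 0`:
`x = q 0 β (q 0)`), so it has a local inverse `ψ` (`local_inverse` in `ℂ × ℂ`).
`σ' (x, y) = σ (cons (ψ 1) (cons (ψ 2) (g (ψ 1 ^ a * ψ 2 ^ b))))`, `τ' w = m (τ w 0, τ w 1)`: `IsGermChart Y σ' τ'` (`σ' 0 = σ 0 = x₀`; `right`: for `w ∈ Y` near `x₀`: `w = c' • σ (τ w)`, so `σ (τ w) ∈ Y` and by the claim `τ w` is determined by `(τ w 0, τ w 1)`), and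
`wl (σ' (x, y)) - (0 + x ^ a * y ^ b) = 0 ∈ Γ₀`.
-/

set_option autoImplicit false

open Topology Filter Metric

namespace Pool.Agent.TG

open Pool.Agent.H36.BP (EN fs wd)
open Pool.Agent.H14.PP (IsCone CurveAt Tan)
open Pool.Agent.H62.EF (MN pr)
open Pool.Agent.AD (Vd Chart Charts IsGerm)

variable {N k : ℕ}

variable {X : Set (EN N)} {Λ : AddSubgroup (Vd (k + 1))} {u : EN N → Vd (k + 1)} {D B : Set (Vd (k + 1))}
  {κ : Vd (k + 1) → Vd (k + 1)} {p e : Vd (k + 1)} {c : ℂ → Vd (k + 1)} {Γ₀ : AddSubgroup ℂ} {s : ℝ}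

theorem Ln.isNC (L : Ln X Λ u D κ p e c Γ₀ s) : ∀ x ∈ Yl X Λ u p e s, wl Λ u p e s x - 0 ∈ Γ₀ →
    Pool.Agent.H62.EL.IsNC (Yl X Λ u p e s) Γ₀ (wl Λ u p e s) x 0 := by
  intro x₀ hx₀ hΓ
  have hwl := Ln.wl_spec hx₀
  have hw0 : wl Λ u p e s x₀ = 0 := by
    rw [sub_zero] at hΓ
    exact L.big _ hΓ (hwl.1.trans (by linarith [L.pos]))
  have hx₀p : u x₀ - p ∈ Λ := by
    have := hwl.2
    rwa [hw0, zero_smul, add_zero] at this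
  obtain ⟨σ, τ, a, b, hg, hσ0, hab, hnm⟩ := L.nc x₀ hx₀.1 hx₀p
  obtain ⟨θ, θ₁, hθ, hθ0, hθt, htθ, hθ₁, hθ₁0, hθm⟩ := L.exists_theta
  obtain ⟨β₁, β₂, hβ₁, hβ₂, hβ₁0, hβ₂0, hβ⟩ := exists_germ_roots hθ₁ hθ₁0 hab
  have hκi : ∀ v, fderiv ℂ κ 0 v = 0 → v = 0 := by
    have := L.κ_inj (z := 0) (by rw [norm_zero]; exact L.pos)
    rwa [L.c_zero] at this
  obtain ⟨κ', hκ', hκ'κ, -, hκ'0⟩ := Pool.Agent.H62.BU.local_inverse L.κ_an0 hκi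
  rw [L.κ_zero] at hκ' hκ'0
  have hepos : 0 < ‖e‖ := norm_pos_iff.2 L.e_ne
  have hspos := L.pos
  -- the function `ξ`
  set ξ : ℂ × ℂ → ℂ := fun w => w.1 ^ a * w.2 ^ b with hξ
  have hξan : AnalyticAt ℂ ξ 0 := by
    rw [hξ]
    exact (analyticAt_fst.pow a).mul (analyticAt_snd.pow b)
  have hpow0 : (0 : ℂ) ^ a * (0 : ℂ) ^ b = 0 := by rw [← pow_add, zero_pow hab.ne']
  have hξ0 : ξ 0 = 0 := hpow0
  -- the graph
  have hcθ : AnalyticAt ℂ (fun t => c (θ t)) 0 := by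
    have h1 : AnalyticAt ℂ c (θ 0) := by
      rw [hθ0]
      exact L.c_an0
    exact h1.fun_comp hθ
  set g : ℂ → Fin k → ℂ := fun t j => c (θ t) j.succ with hgd
  have hgan : ∀ j, AnalyticAt ℂ (fun w => g (ξ w) j) 0 := by
    intro j
    have h1 : AnalyticAt ℂ (fun t => c (θ t) j.succ) (ξ 0) := by
      rw [hξ0]
      exact ((ContinuousLinearMap.proj (R := ℂ) (φ := fun _ : Fin (k + 1) => ℂ) j.succ).analyticAt _).fun_comp hcθ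
    exact h1.fun_comp hξan
  set emb : ℂ × ℂ → Vd (k + 2) := fun w => Fin.cons (α := fun _ => ℂ) w.1 (Fin.cons (α := fun _ => ℂ) w.2 (g (ξ w))) with hembd
  have hemb : AnalyticAt ℂ emb 0 := by
    rw [hembd]
    refine analyticAt_pi_iff.2 fun i => ?_
    refine Fin.cases ?_ (fun i => ?_) i
    · exact analyticAt_fst
    · refine Fin.cases ?_ (fun j => ?_) i
      · exact analyticAt_snd
      · exact hgan j
  have hemb0 : emb 0 = 0 := by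
    funext i
    refine Fin.cases rfl (fun i => ?_) i
    refine Fin.cases rfl (fun j => ?_) i
    show c (θ (ξ 0)) j.succ = 0
    rw [hξ0, hθ0, L.c_zero]
    rfl
  have hnm0 : nm a b (0 : Vd (k + 2)) = 0 := by
    funext i
    refine Fin.cases ?_ (fun i => rfl) i
    exact hpow0
  have hnmc : ContinuousAt (nm (k := k) a b) 0 := by
    refine continuousAt_pi.2 fun i => ?_
    refine Fin.cases ?_ (fun i => ?_) i
    · show ContinuousAt (fun q : Vd (k + 2) => q 0 ^ a * q 1 ^ b) 0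
      fun_prop
    · exact (continuous_apply (i.succ.succ : Fin (k + 2))).continuousAt
  have hnme : ∀ w : ℂ × ℂ, c (θ (ξ w)) 0 = ξ w → nm a b (emb w) = c (θ (ξ w)) := by
    intro w hw
    funext i
    refine Fin.cases ?_ (fun i => rfl) i
    rw [hw]
    rfl
  -- Claim A
  have hA : ∀ᶠ w in 𝓝 (0 : ℂ × ℂ), σ (emb w) ∈ Yl X Λ u p e s ∧ wl Λ u p e s (σ (emb w)) = θ (ξ w) := by
    have t1 : Tendsto emb (𝓝 0) (𝓝 0) := by
      have := hemb.continuousAt.tendsto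
      rwa [hemb0] at this
    have t2 : Tendsto ξ (𝓝 0) (𝓝 0) := by
      have := hξan.continuousAt.tendsto
      rwa [hξ0] at this
    have t3 : Tendsto (fun w => θ (ξ w)) (𝓝 0) (𝓝 0) := by
      have h1 := hθ.continuousAt.tendsto
      rw [hθ0] at h1
      exact h1.comp t2
    filter_upwards [t1.eventually hg.σ_mem, t1.eventually hnm, t2.eventually htθ, t3.eventually (closedBall_mem_nhds (0 : ℂ) L.pos)] with w h1 h2 h3 h4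
    have h5 : ‖θ (ξ w)‖ ≤ s := mem_closedBall_zero_iff.1 h4
    rw [hnme w h3, L.κ_c _ h4] at h2
    exact ⟨⟨h1, θ (ξ w), h5, h2⟩, L.wl_eq h5 h2⟩
  -- Claim B
  have hB : ∀ᶠ q in 𝓝 (0 : Vd (k + 2)), σ q ∈ Yl X Λ u p e s → q = emb (q 0, q 1) := by
    have h1 : ∀ᶠ z in 𝓝 (0 : ℂ), κ' (p + z • e) = c z ∧ θ (c z 0) = z := by
      have t1 : Tendsto c (𝓝 0) (𝓝 0) := by
        have := L.c_an0.continuousAt.tendsto
        rwa [L.c_zero] at this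
      filter_upwards [t1.eventually hκ'κ, closedBall_mem_nhds (0 : ℂ) L.pos, hθt] with z h2 h3 h4
      rw [L.κ_c z h3] at h2
      exact ⟨h2, h4⟩
    obtain ⟨η, hη, h2⟩ := Metric.eventually_nhds_iff.1 h1
    have t2 : Tendsto (nm (k := k) a b) (𝓝 0) (𝓝 0) := by
      have := hnmc.tendsto
      rwa [hnm0] at this
    have t3 : Tendsto (fun q => κ (nm a b q)) (𝓝 (0 : Vd (k + 2))) (𝓝 p) := by
      have h3 := L.κ_an0.continuousAt.tendsto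
      rw [L.κ_zero] at h3
      exact h3.comp t2
    have hpos : 0 < min (s * ‖e‖) (η * ‖e‖) := lt_min (by positivity) (by positivity)
    filter_upwards [hnm, t3.eventually (ball_mem_nhds p hpos), t2.eventually hκ'κ] with q h3 h4 h5 hqY
    rw [dist_eq_norm] at h4
    have h6 := Ln.wl_spec hqY
    set z := wl Λ u p e s (σ q) with hz
    have h7 : κ (nm a b q) - (p + z • e) = 0 := by
      refine L.small _ ?_ ?_
      · have h8 : κ (nm a b q) - (p + z • e) = (u (σ q) - (p + z • e)) - (u (σ q) - κ (nm a b q)) := by abel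
        rw [h8]
        exact Λ.sub_mem h6.2 h3
      · have h8 : κ (nm a b q) - (p + z • e) = (κ (nm a b q) - p) - z • e := by abel
        rw [h8]
        refine (norm_sub_le _ _).trans ?_
        rw [norm_smul]
        have h9 := h4.trans_le (min_le_left _ _)
        have h10 := mul_le_mul_of_nonneg_right h6.1 (norm_nonneg e)
        have h11 := mul_nonneg L.pos.le (norm_nonneg e)
        linarith
    have h8 : κ (nm a b q) = p + z • e := sub_eq_zero.1 h7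
    have h9 : ‖z‖ < η := by
      have h10 := h4.trans_le (min_le_right _ _)
      rw [h8, add_sub_cancel_left, norm_smul] at h10
      exact lt_of_mul_lt_mul_right h10 (norm_nonneg e)
    obtain ⟨h10, h11⟩ := h2 (y := z) (by rwa [dist_zero_right])
    have h12 : nm a b q = c z := by
      rw [← h5, h8, h10]
    have h13 : ξ (q 0, q 1) = c z 0 := by
      rw [← h12]
      rfl
    funext i
    refine Fin.cases rfl (fun i => ?_) i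
    refine Fin.cases rfl (fun j => ?_) i
    show q j.succ.succ = c (θ (ξ (q 0, q 1))) j.succ
    rw [h13, h11, ← h12]
    rfl
  -- the new coordinates
  set m : ℂ × ℂ → ℂ × ℂ := fun w => (w.1 * β₁ (ξ w), w.2 * β₂ (ξ w)) with hm
  have hβ₁ξ : AnalyticAt ℂ (fun w => β₁ (ξ w)) 0 := by
    have h1 : AnalyticAt ℂ β₁ (ξ 0) := by rwa [hξ0]
    exact h1.fun_comp hξan
  have hβ₂ξ : AnalyticAt ℂ (fun w => β₂ (ξ w)) 0 := by
    have h1 : AnalyticAt ℂ β₂ (ξ 0) := by rwa [hξ0]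
    exact h1.fun_comp hξan
  have hman : AnalyticAt ℂ m 0 := (analyticAt_fst.mul hβ₁ξ).prod (analyticAt_snd.mul hβ₂ξ)
  have hm0 : m 0 = 0 := by
    show ((0 : ℂ) * _, (0 : ℂ) * _) = 0
    rw [zero_mul, zero_mul]
    rfl
  have hmd : ∀ v, fderiv ℂ m 0 v = (v.1 * β₁ 0, v.2 * β₂ 0) := by
    intro v
    have h1 : HasFDerivAt (fun w : ℂ × ℂ => w.1 * β₁ (ξ w)) ((0 : ℂ × ℂ).1 • fderiv ℂ (fun w => β₁ (ξ w)) 0 + β₁ (ξ 0) • ContinuousLinearMap.fst ℂ ℂ ℂ) 0 :=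
      hasFDerivAt_fst.mul hβ₁ξ.differentiableAt.hasFDerivAt
    have h2 : HasFDerivAt (fun w : ℂ × ℂ => w.2 * β₂ (ξ w)) ((0 : ℂ × ℂ).2 • fderiv ℂ (fun w => β₂ (ξ w)) 0 + β₂ (ξ 0) • ContinuousLinearMap.snd ℂ ℂ ℂ) 0 :=
      hasFDerivAt_snd.mul hβ₂ξ.differentiableAt.hasFDerivAt
    have h3 := h1.prodMk h2
    have h4 : fderiv ℂ m 0 = _ := h3.fderiv
    rw [h4]
    simp only [ContinuousLinearMap.prod_apply, _root_.add_apply, _root_.smul_apply, ContinuousLinearMap.coe_fst', ContinuousLinearMap.coe_snd', smul_eq_mul,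
      Prod.fst_zero, Prod.snd_zero, zero_mul, zero_add, hξ0]
    rw [mul_comm (β₁ 0), mul_comm (β₂ 0)]
  obtain ⟨ψ, hψ, hψm, hmψ, hψ0⟩ := Pool.Agent.H62.BU.local_inverse hman (fun v hv => by
    rw [hmd] at hv
    have h1 : v.1 * β₁ 0 = 0 := congrArg Prod.fst hv
    have h2 : v.2 * β₂ 0 = 0 := congrArg Prod.snd hv
    exact Prod.ext ((mul_eq_zero.1 h1).resolve_right hβ₁0) ((mul_eq_zero.1 h2).resolve_right hβ₂0))
  rw [hm0] at hψ hmψ hψ0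
  have tψ : Tendsto ψ (𝓝 0) (𝓝 0) := by
    have := hψ.continuousAt.tendsto
    rwa [hψ0] at this
  have tembψ : Tendsto (fun r => emb (ψ r)) (𝓝 0) (𝓝 0) := by
    have h1 := hemb.continuousAt.tendsto
    rw [hemb0] at h1
    exact h1.comp tψ
  have hembψ : AnalyticAt ℂ (fun r => emb (ψ r)) 0 := by
    have h1 : AnalyticAt ℂ emb (ψ 0) := by rwa [hψ0]
    exact h1.fun_comp hψ
  have hτ0 : τ (σ 0) = 0 := hg.left.self_of_nhds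
  have hσ'0 : σ (emb (ψ 0)) = σ 0 := by rw [hψ0, hemb0]
  have hpair : AnalyticAt ℂ (fun y => (τ y 0, τ y 1)) (σ 0) :=
    (((ContinuousLinearMap.proj (R := ℂ) (φ := fun _ : Fin (k + 2) => ℂ) 0).analyticAt _).fun_comp hg.τ_an).prod
      (((ContinuousLinearMap.proj (R := ℂ) (φ := fun _ : Fin (k + 2) => ℂ) 1).analyticAt _).fun_comp hg.τ_an)
  have hpair0 : ((τ (σ 0) 0, τ (σ 0) 1) : ℂ × ℂ) = 0 := by rw [hτ0]; rfl
  have tpair : Tendsto (fun y => ((τ y 0, τ y 1) : ℂ × ℂ)) (𝓝 (σ 0)) (𝓝 0) := by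
    have := hpair.continuousAt.tendsto
    rwa [hpair0] at this
  refine ⟨fun r => σ (emb (ψ r)), fun y => m (τ y 0, τ y 1), a, b, ?_, ?_, hab, ?_⟩
  · refine ⟨?_, ?_, ?_, ?_, ?_, ?_⟩
    · have h1 : AnalyticAt ℂ σ (emb (ψ 0)) := by rw [hψ0, hemb0]; exact hg.σ_an
      exact AnalyticAt.fun_comp (g := σ) (f := fun r => emb (ψ r)) h1 hembψ
    · filter_upwards [tψ.eventually hA] with r hr
      exact hr.1
    · show AnalyticAt ℂ (fun y => m (τ y 0, τ y 1)) (σ (emb (ψ 0)))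
      rw [hσ'0]
      have h1 : AnalyticAt ℂ m (τ (σ 0) 0, τ (σ 0) 1) := by rw [hpair0]; exact hman
      exact AnalyticAt.fun_comp (g := m) (f := fun y => ((τ y 0, τ y 1) : ℂ × ℂ)) h1 hpair
    · filter_upwards [tembψ.eventually hg.left, hmψ] with r h1 h2
      show m (τ (σ (emb (ψ r))) 0, τ (σ (emb (ψ r))) 1) = r
      rw [h1]
      exact h2
    · show ∀ᶠ y in 𝓝 (σ (emb (ψ 0))), _
      rw [hσ'0]
      have tτ : Tendsto τ (𝓝 (σ 0)) (𝓝 0) := by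
        have := hg.τ_an.continuousAt.tendsto
        rwa [hτ0] at this
      filter_upwards [hg.right, tτ.eventually hB, tpair.eventually hψm] with y h1 h2 h3 hyY
      obtain ⟨c', hc', hyc⟩ := h1 hyY.1
      have h4 : σ (τ y) ∈ Yl X Λ u p e s := by
        have h5 := L.isCone.smul_mem y hyY c'⁻¹ (inv_ne_zero hc')
        have h6 : c'⁻¹ • y = σ (τ y) := by
          conv_lhs => rw [hyc]
          rw [smul_smul, inv_mul_cancel₀ hc', one_smul]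
        rwa [h6] at h5
      refine ⟨c', hc', ?_⟩
      show y = c' • σ (emb (ψ (m (τ y 0, τ y 1))))
      rw [h3, ← h2 h4]
      exact hyc
    · show ∀ᶠ z in 𝓝 (σ (emb (ψ 0)), (1 : ℂ)), _
      rw [hσ'0]
      filter_upwards [hg.inv] with z hz
      show m (τ (z.2 • z.1) 0, τ (z.2 • z.1) 1) = m (τ z.1 0, τ z.1 1)
      rw [hz]
  · show σ (emb (ψ 0)) = x₀
    rw [hσ'0, hσ0]
  · have tξψ : Tendsto (fun r => ξ (ψ r)) (𝓝 0) (𝓝 0) := by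
      have h1 := hξan.continuousAt.tendsto
      rw [hξ0] at h1
      exact h1.comp tψ
    filter_upwards [tψ.eventually hA, hmψ, tξψ.eventually hβ] with r h1 h2 h3
    have h4 : r.1 ^ a * r.2 ^ b = θ (ξ (ψ r)) := by
      have h5 : r.1 = (ψ r).1 * β₁ (ξ (ψ r)) := (congrArg Prod.fst h2).symm
      have h6 : r.2 = (ψ r).2 * β₂ (ξ (ψ r)) := (congrArg Prod.snd h2).symm
      rw [h5, h6, hθm, ← h3, mul_pow, mul_pow]
      show _ = (ψ r).1 ^ a * (ψ r).2 ^ b * _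
      ring
    rw [h1.2, h4, zero_add, sub_self]
    exact Γ₀.zero_mem

end Pool.Agent.TG

end
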