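import Pool.Agent.H94.G4T.M15
import Pool.Agent.H94.G4T.M19
import Pool.Agent.H94.G4T.M39
import Pool.Agent.H94.G4T.M58

/-! The parts of this file: G3.R.PrmU_2, G3.R.PrmU_4. -/

section

/-!
# G3 R PrmU: local primitives with uniform constants

As `PrmA`, with a uniform radius and `‖Ψ x‖ ≤ C exp (-c |y₀|²)`, for `y₀ ∈ Gd D δ`.  `UC`: a straight chart with constants `R`, `K` for the point `v` over `y₀`; `uc_base`: the straight chart at `(w, v₀)` works for all near points;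
`uc_unif`: uniform constants by compactness (bounded `y₀`, ultrafilter) and translation.  Bound: `‖A p‖ ≤ sup ‖tc α χ (ms c ρ)‖` (mean value inequality from `IsPrim.der`, `IsPrim.zero`) and
`‖tc α χ (ms c ρ) p‖ ≤ C₀ K ^ (k + 2) exp (-c₀ ‖ms c ρ p‖²)` by `Dec` and `VForm.det`, `‖ms c ρ p‖ ≥ ‖y₀‖ - K`.
-/

set_option autoImplicit false

open Topology Filter Metric

namespace Pool.Agent.G3.R

open Pool.Agent.H36.BP (EN fs wd)
open Pool.Agent.H14.PP (IsCone CurveAt Tan)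
open Pool.Agent.H62.EF (MN pr)
open Pool.Agent.AD (Vd Chart Charts IsGerm)
open Pool.Agent.TG

variable {N k : ℕ} {X : Set (EN N)} {Λ : AddSubgroup (Vd (k + 1))} {u : EN N → Vd (k + 1)} {D B Bad : Set (Vd (k + 1))} {a : Vd (k + 1)}

/-- the straight chart at a point of a smooth fibre works for the near points -/
theorem uc_base (G : Geo X Λ u D B) {w : Vd (k + 1)} (hw : w ∉ D) {v₀ : EN N} (hv₀ : v₀ ∈ X) (hu : u v₀ - w ∈ Λ) :
    ∃ (χ : Chart (k + 2) X) (ρ R₀ K : ℝ), v₀ ∈ χ.U ∧ χ.q v₀ = 0 ∧ 0 < R₀ ∧ ∀ y₀ : Vd (k + 1), ‖y₀ - w‖ < R₀ → ∀ v : EN N, ‖v - v₀‖ < R₀ →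
      UC Λ u χ w ρ y₀ v R₀ K := by
  obtain ⟨d, hd, hdis⟩ := G.lat.disc
  obtain ⟨χ, ρ, hU, hq, hm, hr⟩ := exists_str_chart G.cone G.tor (G.sub w hw v₀ hv₀ hu) (η := d / 2) (by positivity)
  obtain ⟨r, hr0, hcap⟩ := cap_of_small G.cone G.tor hv₀ hu hm hU hq
    (fun l hl hl' => hdis l hl (by linarith)) (fun p hp => (hr p hp).2)
  -- continuity of the chart at `0`
  have hσ0 : pr (χ.σ 0) = pr v₀ := by
    rw [← prmu_pr_q hv₀ hU, hq]
  have h0 : (0 : Vd (k + 2)) ∈ ball (0 : Vd (k + 2)) 2 := mem_ball_self two_pos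
  have hcont : ContinuousAt (fun p => pr (χ.σ p)) (0 : Vd (k + 2)) := by
    have h1 : ContinuousAt pr (χ.σ 0) := Pool.Agent.H62.EF.continuousAt_pr (ne_zero G.cone (χ.σ_mem 0 h0).1)
    exact ContinuousAt.comp (f := χ.σ) h1 (χ.σ_an 0 h0).continuousAt
  obtain ⟨s₀, hs₀, hs⟩ := Metric.continuousAt_iff.1 hcont (r / 16) (by positivity)
  rw [hσ0] at hs
  set s : ℝ := min s₀ 1 with hsdef
  have hs1 : 0 < s := lt_min hs₀ one_pos
  have hss : s ≤ s₀ := min_le_left _ _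
  have hs2 : s ≤ 1 := min_le_right _ _
  have hO : {x : EN N | x ∈ χ.U ∧ ‖χ.q x‖ < s ∧ dist (pr x) (pr v₀) < r / 16} ∈ 𝓝 v₀ := by
    have h1 : ∀ᶠ x in 𝓝 v₀, x ∈ χ.U := χ.isOpen_U.mem_nhds hU
    have h2 : ∀ᶠ x in 𝓝 v₀, ‖χ.q x‖ < s := by
      have hc : ContinuousAt (fun x => ‖χ.q x‖) v₀ := (χ.q_an v₀ hU).continuousAt.norm
      have h3 : (fun x => ‖χ.q x‖) v₀ < s := by simpa [hq] using hs1
      exact hc.tendsto.eventually_lt_const h3
    have h3 : ∀ᶠ x in 𝓝 v₀, dist (pr x) (pr v₀) < r / 16 :=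
      (Pool.Agent.H62.EF.continuousAt_pr (ne_zero G.cone hv₀)).eventually (ball_mem_nhds _ (by positivity))
    exact h1.and (h2.and h3)
  obtain ⟨R₁, hR₁, hball⟩ := Metric.mem_nhds_iff.1 hO
  set R₀ : ℝ := min (R₁ / 2) (r / 4) with hR₀def
  have hR₀ : 0 < R₀ := lt_min (by positivity) (by positivity)
  have hR₀1 : R₀ ≤ R₁ / 2 := min_le_left _ _
  have hR₀2 : R₀ ≤ r / 4 := min_le_right _ _
  -- the bounds on the closed ball
  have hsub : closedBall (0 : Vd (k + 2)) 1 ⊆ ball 0 2 := closedBall_subset_ball one_lt_two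
  have hbd : ∀ i : Fin (k + 2), ∃ C : ℝ, ∀ p ∈ closedBall (0 : Vd (k + 2)) 1, ‖fderiv ℂ χ.σ p (Pi.single i 1)‖ / ‖χ.σ p‖ ≤ C := by
    intro i
    have hc1 : ContinuousOn (fun p => ‖fderiv ℂ χ.σ p (Pi.single i 1)‖ / ‖χ.σ p‖) (closedBall (0 : Vd (k + 2)) 1) := by
      refine ContinuousOn.div ?_ ?_ ?_
      · exact fun p hp => (((χ.σ_an p (hsub hp)).fderiv.continuousAt.clm_apply continuousAt_const).norm).continuousWithinAt
      · exact fun p hp => ((χ.σ_an p (hsub hp)).continuousAt.norm).continuousWithinAt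
      · exact fun p hp => norm_ne_zero_iff.2 (χ.sigma_ne_zero G.cone (hsub hp))
    obtain ⟨C, hC⟩ := (isCompact_closedBall (0 : Vd (k + 2)) 1).exists_bound_of_continuousOn hc1
    exact ⟨C, fun p hp => (le_abs_self _).trans (hC p hp)⟩
  choose C hC using hbd
  have hCs : ∀ i, C i ≤ ∑ j, |C j| := fun i => (le_abs_self _).trans (Finset.single_le_sum (f := fun j => |C j|) (fun j _ => abs_nonneg _) (Finset.mem_univ i))
  set K : ℝ := max (max (∑ j, |C j|) ρ⁻¹) (d / 2 + R₀) with hKdef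
  have hK1 : ∑ j, |C j| ≤ K := (le_max_left _ _).trans (le_max_left _ _)
  have hK2 : ρ⁻¹ ≤ K := (le_max_right _ _).trans (le_max_left _ _)
  have hK3 : d / 2 + R₀ ≤ K := le_max_right _ _
  refine ⟨χ, ρ, R₀, K, hU, hq, hR₀, fun y₀ hy₀ v hv => ?_⟩
  have hx2 : ∀ x ∈ ball v R₀, x ∈ χ.U ∧ ‖χ.q x‖ < s ∧ dist (pr x) (pr v₀) < r / 16 := by
    intro x hx
    refine hball ?_
    rw [mem_ball] at hx ⊢
    have h1 := dist_triangle x v v₀
    rw [dist_eq_norm v v₀] at h1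
    linarith
  have hy2 : ∀ y ∈ ball y₀ R₀, dist y w < r / 2 := by
    intro y hy
    rw [mem_ball] at hy
    have h1 := dist_triangle y y₀ w
    rw [dist_eq_norm y₀ w] at h1
    linarith
  refine ⟨hm, fun x hx => ?_, fun y hy x hX hx hxy => ?_, fun y hy x hX hx => ?_, fun p hp i => ?_, ?_, fun p hp => ?_⟩
  · obtain ⟨h1, h2, -⟩ := hx2 x hx
    exact ⟨h1, by rw [mem_closedBall_zero_iff]; linarith⟩
  · obtain ⟨-, -, h3⟩ := hx2 x hx
    exact (hcap.cap y (by rw [mem_closedBall]; linarith [hy2 y hy]) x hX hxy (by linarith)).2.2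
  · obtain ⟨h1, h2, h3⟩ := hx2 x hx
    refine ⟨r / 8, by positivity, ⟨hm, fun y' hy' x' hx' hxy' hd' => ?_⟩, fun x' hX' hx' θ hθ => ?_⟩
    · refine hcap.cap y' ?_ x' hx' hxy' ?_
      · rw [mem_closedBall] at hy' ⊢
        have := dist_triangle y' y w
        linarith [hy2 y hy]
      · have := dist_triangle (pr x') (pr x) (pr v₀)
        linarith
    · obtain ⟨-, h2', -⟩ := hx2 x' hx'
      have hmem : χ.q x + (θ : ℂ) • (χ.q x' - χ.q x) ∈ ball (0 : Vd (k + 2)) s := by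
        have e : χ.q x + (θ : ℂ) • (χ.q x' - χ.q x) = (1 - θ) • χ.q x + θ • χ.q x' := by
          have e1 : ∀ v : Vd (k + 2), (θ : ℂ) • v = θ • v := fun v => by
            ext i
            simp
          rw [e1, smul_sub, sub_smul, one_smul]
          abel
        rw [e]
        exact (convex_ball (0 : Vd (k + 2)) s) (by rw [mem_ball, dist_zero_right]; exact h2)
          (by rw [mem_ball, dist_zero_right]; exact h2') (by linarith [hθ.2]) hθ.1 (by ring)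
      have h6 := hs (lt_of_lt_of_le (mem_ball.1 hmem) hss)
      have h7 := dist_triangle (pr (χ.σ (χ.q x + (θ : ℂ) • (χ.q x' - χ.q x)))) (pr v₀) (pr x)
      rw [dist_comm (pr v₀)] at h7
      linarith
  · have h1 := hC i p hp
    have h2 : 0 < ‖χ.σ p‖ := norm_pos_iff.2 (χ.sigma_ne_zero G.cone (hsub hp))
    rw [div_le_iff₀ h2] at h1
    exact h1.trans (mul_le_mul_of_nonneg_right ((hCs i).trans hK1) h2.le)
  · calc (1 : ℝ) = ρ⁻¹ * ρ := (inv_mul_cancel₀ hm.pos.ne').symm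
      _ ≤ K * ρ := mul_le_mul_of_nonneg_right hK2 hm.pos.le
  · have h1 := (hr p (hsub hp)).2
    have e : ms w ρ p - y₀ = (ms w ρ p - w) - (y₀ - w) := by abel
    rw [e]
    have h2 := norm_sub_le (ms w ρ p - w) (y₀ - w)
    linarith

end Pool.Agent.G3.R

end

section

/-!
# G3 R PrmU: local primitives with uniform constants

As `PrmA`, with a uniform radius and `‖Ψ x‖ ≤ C exp (-c |y₀|²)`, for `y₀ ∈ Gd D δ`.  `UC`: a straight chart with constants `R`, `K` for the point `v` over `y₀`; `uc_base`: the straight chart at `(w, v₀)` works for all near points;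
`uc_unif`: uniform constants by compactness (bounded `y₀`, ultrafilter) and translation.  Bound: `‖A p‖ ≤ sup ‖tc α χ (ms c ρ)‖` (mean value inequality from `IsPrim.der`, `IsPrim.zero`) and
`‖tc α χ (ms c ρ) p‖ ≤ C₀ K ^ (k + 2) exp (-c₀ ‖ms c ρ p‖²)` by `Dec` and `VForm.det`, `‖ms c ρ p‖ ≥ ‖y₀‖ - K`.
-/

set_option autoImplicit false

open Topology Filter Metric

namespace Pool.Agent.G3.R

open Pool.Agent.H36.BP (EN fs wd)
open Pool.Agent.H14.PP (IsCone CurveAt Tan)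
open Pool.Agent.H62.EF (MN pr)
open Pool.Agent.AD (Vd Chart Charts IsGerm)
open Pool.Agent.TG
open Pool.Agent.G3.C (Gc nv nd nv_pr)
open Pool.Agent.G3.A

variable {N k : ℕ} {X : Set (EN N)} {Λ : AddSubgroup (Vd (k + 1))} {u : EN N → Vd (k + 1)} {D B Bad : Set (Vd (k + 1))} {a : Vd (k + 1)}

/-- the primitive in a chart -/
theorem UC.prm (G : Geo X Λ u D B) {χ : Chart (k + 2) X} {c : Vd (k + 1)} {ρ : ℝ} {y₀ : Vd (k + 1)} {v : EN N} {R K : ℝ} (h : UC Λ u χ c ρ y₀ v R K)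
    (hR : 0 < R) (hv : v ∈ X) (hv1 : ‖v‖ = 1) (huv : u v - y₀ ∈ Λ) {α : VForm X Λ u} {A : Vd (k + 2) → ℂ} (hA : IsPrim α χ (ms c ρ) A) :
    Prm α y₀ v R fun x => A (χ.q x) / (ρ : ℂ) ^ (k + 1) where
  pos := hR
  unit := hv1
  mem := hv
  lift := huv
  diff := fun x hx => by
    obtain ⟨h1, h2⟩ := h.mem x hx
    have h3 : AnalyticAt ℂ A (χ.q x) := hA.an _ (closedBall_subset_ball one_lt_two h2)
    have h4 : DifferentiableAt ℂ (fun x => A (χ.q x)) x := h3.differentiableAt.comp x (χ.q_an x h1).differentiableAt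
    simp only [div_eq_mul_inv]
    exact (h4.mul_const _).differentiableWithinAt
  jj := fun y hy x hX hx hxy x' hX' hx' hxy' => by
    obtain ⟨h1, h2⟩ := h.mem x hx
    obtain ⟨h1', h2'⟩ := h.mem x' hx'
    obtain ⟨ε, hε, hcap, hpath⟩ := h.path y hy x hX hx
    refine jj_eq G.cone G.tor G.lat ⟨ε, hε, ⟨χ, c, ρ, hcap⟩, χ, c, ρ, A, χ.q x, χ.q x', h.str, hA, closedBall_subset_ball one_lt_two h2,
      closedBall_subset_ball one_lt_two h2', h.cap y hy x hX hx hxy, h.cap y hy x' hX' hx' hxy', prmu_pr_q hX h1, prmu_pr_q hX' h1', hpath x' hX' hx', ?_⟩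
    show A (χ.q x') / _ - A (χ.q x) / _ = _
    rw [sub_div]

end Pool.Agent.G3.R

end
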