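import Mathlib

/-! The parts of this file: H56.G3.Chain, H56.G3.Rad, H56.G3.HL, H7.Gtu.Res. -/

section

/-!
# G3 Chain: a Harnack chain in the half plane gives polynomial growth
-/

set_option autoImplicit false

open Set Metric Real

namespace Pool.Agent.H56.G3

/-- the imaginary part can be moved by a multiple of `2 π` -/
private lemma shift_im (x y : ℝ) : ∃ k : ℤ, |x - (y + k * (2 * π))| ≤ π := by
  have hπ : (0 : ℝ) < 2 * π := by positivity
  refine ⟨round ((x - y) / (2 * π)), ?_⟩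
  have h1 := abs_sub_round ((x - y) / (2 * π))
  have h2 : x - (y + round ((x - y) / (2 * π)) * (2 * π)) = ((x - y) / (2 * π) - round ((x - y) / (2 * π))) * (2 * π) := by
    field_simp
    ring
  rw [h2, abs_mul, abs_of_pos hπ]
  nlinarith

private lemma norm_le_abs (w : ℂ) : ‖w‖ ≤ |w.re| + |w.im| := Complex.norm_le_abs_re_add_abs_im w

/-- **Harnack chain.** -/
theorem chain {G : ℂ → Prop} {E : ℂ → ℝ} {C t₀ : ℝ} (hC : 1 ≤ C) (hE : ∀ w, G w → 1 ≤ E w)
    (hper : ∀ (w : ℂ) (k : ℤ), G w → G (w + k * (2 * π * Complex.I)) ∧ E (w + k * (2 * π * Complex.I)) = E w)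
    (hstep : ∀ w, G w → t₀ ≤ -w.re → ∀ w' : ℂ, ‖w' - w‖ ≤ -w.re / 8 →
      ∃ w₁ ∈ ball w' (-w.re / 32), G w₁ ∧ E w₁ ≤ C * (E w + Real.log (-w.re)))
    {w₀ : ℂ} (hG₀ : G w₀) (ht₀ : 2 * t₀ ≤ -w₀.re) (h116 : 116 ≤ -w₀.re) :
    ∃ (p : ℕ) (K : ℝ), 0 < K ∧ ∀ w : ℂ, -w₀.re ≤ -w.re → ∃ w₁, G w₁ ∧ ‖w - w₁‖ ≤ -w₁.re / 8 ∧ t₀ ≤ -w₁.re ∧ -w₁.re ≤ 2 * -w.re ∧
      E w₁ ≤ K * (-w.re) ^ p := by
  obtain ⟨s₀, hs₀⟩ : ∃ s₀ : ℝ, s₀ = -w₀.re := ⟨_, rfl⟩
  rw [← hs₀] at ht₀ h116 ⊢
  have hs₀0 : 0 < s₀ := by linarith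
  obtain ⟨s, hs⟩ : ∃ s : ℕ → ℝ, s = fun j => s₀ * (17 / 16) ^ j := ⟨_, rfl⟩
  have hse : ∀ j, s j = s₀ * (17 / 16) ^ j := fun j => by rw [hs]
  have hss : ∀ j, s (j + 1) = 17 / 16 * s j := fun j => by rw [hse, hse, pow_succ]; ring
  have hsge : ∀ j, s₀ ≤ s j := by
    intro j
    rw [hse]
    exact le_mul_of_one_le_right hs₀0.le (one_le_pow₀ (by norm_num))
  -- the constants
  obtain ⟨D, hD⟩ : ∃ D : ℝ, D = 2 * C + 2 := ⟨_, rfl⟩
  have hD0 : 0 < D := by linarith
  obtain ⟨K, hK⟩ : ∃ K : ℝ, K = E w₀ + (Real.log (2 * s₀) + 1) := ⟨_, rfl⟩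
  have hlog0 : 0 ≤ Real.log (2 * s₀) := Real.log_nonneg (by linarith)
  have hK0 : 0 < K := by
    have := hE w₀ hG₀
    linarith
  -- the chain
  have key : ∀ j : ℕ, ∃ w, G w ∧ |-w.re - s j| ≤ s j / 32 ∧ E w ≤ K * D ^ j := by
    intro j
    induction j with
    | zero =>
      refine ⟨w₀, hG₀, ?_, ?_⟩
      · rw [hse, ← hs₀]
        simp only [pow_zero, mul_one, sub_self, abs_zero]
        positivity
      · rw [pow_zero, mul_one, hK]
        linarith
    | succ j ih =>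
      obtain ⟨w, hGw, hw1, hw2⟩ := ih
      have hsj : s₀ ≤ s j := hsge j
      have hsj0 : 0 < s j := by linarith
      obtain ⟨h1, h2⟩ := abs_le.1 hw1
      obtain ⟨t, ht⟩ : ∃ t : ℝ, t = -w.re := ⟨_, rfl⟩
      rw [← ht] at h1 h2
      obtain ⟨w', hw'⟩ : ∃ w' : ℂ, w' = ((-s (j + 1) : ℝ) : ℂ) + (w.im : ℂ) * Complex.I := ⟨_, rfl⟩
      have hw're : w'.re = -s (j + 1) := by rw [hw']; simp
      have hw'im : w'.im = w.im := by rw [hw']; simp
      have hdist : ‖w' - w‖ ≤ -w.re / 8 := by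
        refine (norm_le_abs _).trans ?_
        rw [Complex.sub_re, Complex.sub_im, hw're, hw'im, sub_self, abs_zero, add_zero, ← ht, hss]
        have h3 : w.re = -t := by rw [ht, neg_neg]
        rw [h3, abs_le]
        constructor <;> linarith
      obtain ⟨w₁, hw₁, hG₁, hE₁⟩ := hstep w hGw (by rw [← ht]; linarith) w' hdist
      refine ⟨w₁, hG₁, ?_, ?_⟩
      · rw [mem_ball_iff_norm, ← ht] at hw₁
        have h3 := Complex.abs_re_le_norm (w₁ - w')
        rw [Complex.sub_re, hw're] at h3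
        have h4 : |-w₁.re - s (j + 1)| = |w₁.re - -s (j + 1)| := by
          rw [← abs_neg]
          congr 1
          ring
        rw [h4]
        refine (h3.trans hw₁.le).trans ?_
        rw [hss]
        linarith
      · have h5 : Real.log t ≤ (Real.log (2 * s₀) + 1) * 2 ^ j := by
          have h6 : t ≤ (2 * s₀) * (17 / 16) ^ j := by
            have : t ≤ 2 * s j := by linarith
            rw [hse] at this
            linarith
          have ht0 : 0 < t := by linarith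
          have h7 := Real.log_le_log ht0 h6
          rw [Real.log_mul (by linarith) (by positivity), Real.log_pow] at h7
          have h8 : Real.log (17 / 16) ≤ 1 := by
            have := Real.log_le_sub_one_of_pos (show (0 : ℝ) < 17 / 16 by norm_num)
            linarith
          have h9 : (j : ℝ) ≤ 2 ^ j := by
            have := Nat.lt_two_pow_self (n := j)
            exact_mod_cast this.le
          have h10 : (1 : ℝ) ≤ 2 ^ j := one_le_pow₀ (by norm_num)
          have h11 : (j : ℝ) * Real.log (17 / 16) ≤ j * 1 := mul_le_mul_of_nonneg_left h8 (Nat.cast_nonneg j)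
          nlinarith
        have h12 : (2 : ℝ) ^ j ≤ D ^ j := pow_le_pow_left₀ (by norm_num) (by linarith) j
        have h13 : Real.log (2 * s₀) + 1 ≤ K := by
          have := hE w₀ hG₀
          linarith
        have h14 : Real.log t ≤ K * D ^ j := h5.trans (mul_le_mul h13 h12 (by positivity) hK0.le)
        have h15 : C * (E w + Real.log t) ≤ C * (K * D ^ j + K * D ^ j) := mul_le_mul_of_nonneg_left (add_le_add hw2 h14) (by linarith)
        have h16 : 0 ≤ K * D ^ j := by positivity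
        rw [← ht] at hE₁
        rw [pow_succ]
        have h17 : K * (D ^ j * D) = C * (K * D ^ j + K * D ^ j) + 2 * (K * D ^ j) := by
          rw [hD]
          ring
        rw [h17]
        linarith
  -- the exponent
  obtain ⟨p, hp⟩ : ∃ p : ℕ, D < (17 / 16 : ℝ) ^ p := pow_unbounded_of_one_lt D (by norm_num)
  refine ⟨p, K, hK0, ?_⟩
  intro w hw
  obtain ⟨t, ht⟩ : ∃ t : ℝ, t = -w.re := ⟨_, rfl⟩
  rw [← ht] at hw ⊢
  -- the index
  obtain ⟨j, hj1, hj2⟩ : ∃ j : ℕ, s j ≤ t ∧ t < s (j + 1) := by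
    have h1 : (1 : ℝ) ≤ t / s₀ := by rw [le_div_iff₀ hs₀0]; linarith
    obtain ⟨j, hj1, hj2⟩ := exists_nat_pow_near h1 (show (1 : ℝ) < 17 / 16 by norm_num)
    refine ⟨j, ?_, ?_⟩
    · rw [hse, mul_comm, ← le_div_iff₀ hs₀0]
      exact hj1
    · rw [hse, mul_comm, ← div_lt_iff₀ hs₀0]
      exact hj2
  obtain ⟨w₁, hG₁, hw₁, hE₁⟩ := key j
  have hsj : s₀ ≤ s j := hsge j
  obtain ⟨k, hk⟩ := shift_im w.im w₁.im
  obtain ⟨h1, h2⟩ := abs_le.1 hw₁
  have hre : (w₁ + k * (2 * π * Complex.I)).re = w₁.re := by simp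
  have him : (w₁ + k * (2 * π * Complex.I)).im = w₁.im + k * (2 * π) := by simp
  obtain ⟨hG₂, hE₂⟩ := hper w₁ k hG₁
  refine ⟨w₁ + k * (2 * π * Complex.I), hG₂, ?_, ?_, ?_, ?_⟩
  · refine (norm_le_abs _).trans ?_
    rw [Complex.sub_re, Complex.sub_im, hre, him]
    have h3 : w.re = -t := by rw [ht, neg_neg]
    have h4 : |w.re - w₁.re| ≤ 3 / 32 * s j := by
      rw [h3, abs_le]
      rw [hss] at hj2
      constructor <;> linarith
    have h5 := pi_lt_d2
    linarith
  · rw [hre]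
    linarith
  · rw [hre]
    linarith
  · rw [hE₂]
    refine hE₁.trans (mul_le_mul_of_nonneg_left ?_ hK0.le)
    have h3 : D ^ j ≤ ((17 / 16 : ℝ) ^ j) ^ p := by
      rw [← pow_mul, mul_comm, pow_mul]
      exact pow_le_pow_left₀ hD0.le hp.le j
    refine h3.trans (pow_le_pow_left₀ (by positivity) ?_ p)
    have h4 : s j = s₀ * (17 / 16) ^ j := hse j
    have h5 : (0 : ℝ) < (17 / 16) ^ j := by positivity
    nlinarith

end Pool.Agent.H56.G3

end

section

/-!
# G3 Rad: the mean of `‖h - h 0‖ ^ 2` over a circle and the means of `‖h'‖ ^ 2`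
-/

set_option autoImplicit false

open Set MeasureTheory Metric Real

namespace Pool.Agent.H56.G3

/-- Cauchy-Schwarz -/
theorem sq_integral_le {f : ℝ → ℝ} {r : ℝ} (hr : 0 ≤ r) (hf : ContinuousOn f (Icc 0 r)) :
    (∫ x in (0 : ℝ)..r, f x) ^ 2 ≤ r * ∫ x in (0 : ℝ)..r, f x ^ 2 := by
  rcases hr.eq_or_lt with rfl | hr0
  · simp
  obtain ⟨m, hm⟩ : ∃ m : ℝ, m = (∫ x in (0 : ℝ)..r, f x) / r := ⟨_, rfl⟩
  have hu : uIcc 0 r = Icc 0 r := uIcc_of_le hr
  have hfi : IntervalIntegrable f volume 0 r := ContinuousOn.intervalIntegrable (by rwa [hu])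
  have hf2 : IntervalIntegrable (fun x => f x ^ 2) volume 0 r := ContinuousOn.intervalIntegrable (by rw [hu]; exact hf.pow 2)
  have h1 : 0 ≤ ∫ x in (0 : ℝ)..r, (f x - m) ^ 2 := intervalIntegral.integral_nonneg hr fun x _ => sq_nonneg _
  have h2 : (fun x => (f x - m) ^ 2) = fun x => f x ^ 2 - 2 * m * f x + m ^ 2 := by
    funext x
    ring
  rw [h2, intervalIntegral.integral_add (hf2.sub (hfi.const_mul _)) intervalIntegrable_const,
    intervalIntegral.integral_sub hf2 (hfi.const_mul _), intervalIntegral.integral_const_mul, intervalIntegral.integral_const,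
    smul_eq_mul, sub_zero] at h1
  have h3 : ∫ x in (0 : ℝ)..r, f x = m * r := by
    rw [hm]
    field_simp
  rw [h3] at h1 ⊢
  have h4 : m ^ 2 * r ≤ ∫ x in (0 : ℝ)..r, f x ^ 2 := by nlinarith
  nlinarith

variable {E : Type*} [NormedAddCommGroup E] [NormedSpace ℂ E] [CompleteSpace E]

private lemma norm_cm (ρ θ : ℝ) : ‖circleMap 0 ρ θ‖ = |ρ| := by simp [circleMap]

private lemma cm_mem {R r ρ θ : ℝ} (hrR : r < R) (hρ : ρ ∈ Icc 0 r) : circleMap 0 ρ θ ∈ ball (0 : ℂ) R := by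
  rw [mem_ball_zero_iff, norm_cm, abs_of_nonneg hρ.1]
  exact hρ.2.trans_lt hrR

private lemma rad_point {h : ℂ → E} {R : ℝ} (hh : DifferentiableOn ℂ h (ball 0 R)) {r : ℝ} (hr : 0 ≤ r) (hrR : r < R) (θ : ℝ) :
    ‖h (circleMap 0 r θ) - h 0‖ ^ 2 ≤ r * ∫ ρ in (0 : ℝ)..r, ‖deriv h (circleMap 0 ρ θ)‖ ^ 2 := by
  have hdc : ContinuousOn (deriv h) (ball 0 R) := (hh.deriv isOpen_ball).continuousOn
  have hcm : Continuous fun ρ : ℝ => circleMap 0 ρ θ := by
    unfold circleMap
    fun_prop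
  have hc1 : ContinuousOn (fun ρ : ℝ => deriv h (circleMap 0 ρ θ)) (Icc 0 r) :=
    hdc.comp hcm.continuousOn fun ρ hρ => cm_mem hrR hρ
  have hder : ∀ ρ ∈ uIcc 0 r, HasDerivAt (fun ρ : ℝ => h (circleMap 0 ρ θ)) (Complex.exp (θ * Complex.I) • deriv h (circleMap 0 ρ θ)) ρ := by
    intro ρ hρ
    rw [uIcc_of_le hr] at hρ
    have h1 : HasDerivAt h (deriv h (circleMap 0 ρ θ)) (circleMap 0 ρ θ) :=
      (hh.differentiableAt (isOpen_ball.mem_nhds (cm_mem hrR hρ))).hasDerivAt
    have h2 : HasDerivAt (fun ρ : ℝ => circleMap 0 ρ θ) (Complex.exp (θ * Complex.I)) ρ := by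
      have h3 : HasDerivAt (fun ρ : ℝ => (ρ : ℂ) * Complex.exp (θ * Complex.I)) (1 * Complex.exp (θ * Complex.I)) ρ :=
        (Complex.ofRealCLM.hasDerivAt (x := ρ)).mul_const _
      rw [one_mul] at h3
      refine h3.congr_of_eventuallyEq (Filter.Eventually.of_forall fun x => ?_)
      simp [circleMap]
    exact h1.scomp ρ h2
  have hint : IntervalIntegrable (fun ρ : ℝ => Complex.exp (θ * Complex.I) • deriv h (circleMap 0 ρ θ)) volume 0 r := by
    apply ContinuousOn.intervalIntegrable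
    rw [uIcc_of_le hr]
    exact hc1.const_smul _
  have h1 := intervalIntegral.integral_eq_sub_of_hasDerivAt hder hint
  have h0 : circleMap 0 0 θ = 0 := by simp
  rw [h0] at h1
  rw [← h1]
  have h2 : ‖∫ ρ in (0 : ℝ)..r, Complex.exp (θ * Complex.I) • deriv h (circleMap 0 ρ θ)‖ ≤
      ∫ ρ in (0 : ℝ)..r, ‖deriv h (circleMap 0 ρ θ)‖ := by
    refine (intervalIntegral.norm_integral_le_integral_norm hr).trans (le_of_eq ?_)
    refine intervalIntegral.integral_congr fun ρ _ => ?_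
    rw [norm_smul, Complex.norm_exp_ofReal_mul_I, one_mul]
  exact (pow_le_pow_left₀ (norm_nonneg _) h2 2).trans (sq_integral_le hr hc1.norm)

/-- The mean of `‖h - h 0‖ ^ 2` over the circle of radius `r` is at most `r` times the integral over `[0, r]` of the means of `‖h'‖ ^ 2`. -/
theorem mean_sq_le {h : ℂ → E} {R : ℝ} (hh : DifferentiableOn ℂ h (ball 0 R)) {r : ℝ} (hr : 0 ≤ r) (hrR : r < R) :
    circleAverage (fun z => ‖h z - h 0‖ ^ 2) 0 r ≤ r * ∫ ρ in (0 : ℝ)..r, circleAverage (fun z => ‖deriv h z‖ ^ 2) 0 ρ := by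
  have hdc : ContinuousOn (deriv h) (ball 0 R) := (hh.deriv isOpen_ball).continuousOn
  have hcm : Continuous fun p : ℝ × ℝ => circleMap 0 p.1 p.2 := by
    unfold circleMap
    fun_prop
  have hF : ContinuousOn (Function.uncurry fun ρ θ : ℝ => ‖deriv h (circleMap 0 ρ θ)‖ ^ 2) (Icc 0 r ×ˢ Icc 0 (2 * π)) := by
    refine (ContinuousOn.norm ?_).pow 2
    exact hdc.comp hcm.continuousOn fun p hp => cm_mem hrR hp.1
  have hpi : (0 : ℝ) ≤ 2 * π := by positivity
  have hFi : IntegrableOn (Function.uncurry fun ρ θ : ℝ => ‖deriv h (circleMap 0 ρ θ)‖ ^ 2) (uIoc 0 r ×ˢ uIoc 0 (2 * π)) := by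
    refine (hF.integrableOn_compact (isCompact_Icc.prod isCompact_Icc)).mono_set ?_
    rw [uIoc_of_le hr, uIoc_of_le hpi]
    exact prod_mono Ioc_subset_Icc_self Ioc_subset_Icc_self
  have hswap := intervalIntegral_intervalIntegral_swap hFi
  have hR : r * ∫ ρ in (0 : ℝ)..r, circleAverage (fun z => ‖deriv h z‖ ^ 2) 0 ρ =
      (2 * π)⁻¹ * ∫ θ in (0 : ℝ)..2 * π, r * ∫ ρ in (0 : ℝ)..r, ‖deriv h (circleMap 0 ρ θ)‖ ^ 2 := by
    rw [intervalIntegral.integral_const_mul, ← hswap]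
    simp only [circleAverage_def, smul_eq_mul, intervalIntegral.integral_const_mul]
    ring
  rw [hR, circleAverage_def, smul_eq_mul]
  refine mul_le_mul_of_nonneg_left ?_ (by positivity)
  have hsph : ContinuousOn (fun θ : ℝ => ‖h (circleMap 0 r θ) - h 0‖ ^ 2) (uIcc 0 (2 * π)) := by
    refine ((ContinuousOn.sub ?_ continuousOn_const).norm).pow 2
    refine hh.continuousOn.comp (by fun_prop) fun θ _ => cm_mem hrR ⟨hr, le_rfl⟩
  refine intervalIntegral.integral_mono_on hpi hsph.intervalIntegrable ?_ fun θ _ => rad_point hh hr hrR θ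
  -- the right side is integrable
  have h1 : IntegrableOn (Function.uncurry fun θ ρ : ℝ => ‖deriv h (circleMap 0 ρ θ)‖ ^ 2) (Ioc 0 (2 * π) ×ˢ Ioc 0 r) := by
    have h2 := hFi
    rw [uIoc_of_le hr, uIoc_of_le hpi] at h2
    have h3 := h2.swap
    exact h3
  rw [intervalIntegrable_iff_integrableOn_Ioc_of_le hpi]
  have h4 : IntegrableOn (fun θ : ℝ => ∫ ρ in Ioc 0 r, ‖deriv h (circleMap 0 ρ θ)‖ ^ 2) (Ioc 0 (2 * π)) := by
    have h5 : Integrable (Function.uncurry fun θ ρ : ℝ => ‖deriv h (circleMap 0 ρ θ)‖ ^ 2)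
        ((volume.restrict (Ioc 0 (2 * π))).prod (volume.restrict (Ioc 0 r))) := by
      rw [Measure.prod_restrict, ← Measure.volume_eq_prod]
      exact h1
    exact h5.integral_prod_left
  refine (h4.const_mul r).congr (Filter.Eventually.of_forall fun θ => ?_)
  simp only
  rw [intervalIntegral.integral_of_le hr]

end Pool.Agent.H56.G3

end

section

/-!
# G3 HL: a Harnack inequality from a root-log estimate and two Jensen inequalities (linear Gronwall)
-/

set_option autoImplicit false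

open Set MeasureTheory Metric Real

namespace Pool.Agent.H56.G3

/-- Gronwall -/
private lemma gron {a : ℝ → ℝ} {E K r₀ : ℝ} (ha : ContinuousOn a (Icc 0 r₀)) (hK : 0 ≤ K) (hE : 0 ≤ E)
    (h : ∀ r ∈ Icc 0 r₀, a r ≤ K * (E + ∫ ρ in (0 : ℝ)..r, a ρ)) {r : ℝ} (hr : r ∈ Icc 0 r₀) :
    E + ∫ ρ in (0 : ℝ)..r, a ρ ≤ E * Real.exp (K * r) := by
  have hr₀ : 0 ≤ r₀ := hr.1.trans hr.2
  have hAc : ContinuousOn (fun r => ∫ ρ in (0 : ℝ)..r, a ρ) (Icc 0 r₀) := by
    have h1 := intervalIntegral.continuousOn_primitive_interval (a := 0) (b := r₀) (f := a) (μ := volume)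
      (by rw [uIcc_of_le hr₀]; exact ha.integrableOn_compact isCompact_Icc)
    rwa [uIcc_of_le hr₀] at h1
  have hAd : ∀ x ∈ Ioo 0 r₀, HasDerivAt (fun r => ∫ ρ in (0 : ℝ)..r, a ρ) (a x) x := by
    intro x hx
    refine intervalIntegral.integral_hasDerivAt_right ?_ ?_ ?_
    · apply ContinuousOn.intervalIntegrable
      rw [uIcc_of_le hx.1.le]
      exact ha.mono (Icc_subset_Icc le_rfl hx.2.le)
    · exact ContinuousOn.stronglyMeasurableAtFilter_nhdsWithin (ha.mono Ioo_subset_Icc_self) measurableSet_Ioo x |>.filter_mono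
        (by rw [isOpen_Ioo.nhdsWithin_eq hx])
    · exact ha.continuousAt (Icc_mem_nhds hx.1 hx.2)
  obtain ⟨g, hg⟩ : ∃ g : ℝ → ℝ, g = fun r => (E + ∫ ρ in (0 : ℝ)..r, a ρ) * Real.exp (-(K * r)) := ⟨_, rfl⟩
  have hgd : ∀ x ∈ Ioo 0 r₀, HasDerivAt g (a x * Real.exp (-(K * x)) + (E + ∫ ρ in (0 : ℝ)..x, a ρ) * (Real.exp (-(K * x)) * -K)) x := by
    intro x hx
    rw [hg]
    have h1 : HasDerivAt (fun r => Real.exp (-(K * r))) (Real.exp (-(K * x)) * -K) x := by
      have h2 : HasDerivAt (fun r => -(K * r)) (-K) x := by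
        have h3 : HasDerivAt (fun r : ℝ => -K * r) (-K) x := by simpa using (hasDerivAt_id x).const_mul (-K)
        refine h3.congr_of_eventuallyEq (Filter.Eventually.of_forall fun y => ?_)
        simp only
        ring
      exact h2.exp
    exact ((hAd x hx).const_add E).mul h1
  have hanti : AntitoneOn g (Icc 0 r₀) := by
    refine antitoneOn_of_deriv_nonpos (convex_Icc 0 r₀) ?_ ?_ ?_
    · rw [hg]
      exact (continuousOn_const.add hAc).mul (by fun_prop)
    · rw [interior_Icc]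
      exact fun x hx => (hgd x hx).differentiableAt.differentiableWithinAt
    · rw [interior_Icc]
      intro x hx
      rw [(hgd x hx).deriv]
      have h1 := h x ⟨hx.1.le, hx.2.le⟩
      have h2 := Real.exp_pos (-(K * x))
      nlinarith only [h1, h2]
  have h1 := hanti ⟨le_rfl, hr₀⟩ hr hr.1
  rw [hg] at h1
  simp only [intervalIntegral.integral_same, mul_zero, neg_zero, Real.exp_zero, mul_one, add_zero] at h1
  have h2 := Real.exp_pos (K * r)
  have h3 : Real.exp (-(K * r)) * Real.exp (K * r) = 1 := by rw [← Real.exp_add, neg_add_cancel, Real.exp_zero]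
  calc E + ∫ ρ in (0 : ℝ)..r, a ρ = ((E + ∫ ρ in (0 : ℝ)..r, a ρ) * Real.exp (-(K * r))) * Real.exp (K * r) := by rw [mul_assoc, h3, mul_one]
    _ ≤ E * Real.exp (K * r) := mul_le_mul_of_nonneg_right h1 h2.le

/-- the positive part of `P` -/
private lemma pos_le {P v C m ε : ℝ} (hm : 0 < m) (hC : 0 < C) (hε : 0 < ε) (hv : 1 ≤ v) (h : Real.exp (2 * P / m) ≤ C * v) :
    max P 0 ≤ m / 2 * (ε * (C * v)) + m / 2 * |Real.log ε| := by
  have h0 : 0 < C * v := by positivity
  refine max_le ?_ (by positivity)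
  have h1 : 2 * P / m ≤ Real.log (C * v) := by rwa [Real.le_log_iff_exp_le h0]
  have h2 : Real.log (ε * (C * v)) ≤ ε * (C * v) - 1 := Real.log_le_sub_one_of_pos (by positivity)
  rw [Real.log_mul hε.ne' h0.ne'] at h2
  have h3 := neg_abs_le (Real.log ε)
  have h4 : 2 * P / m ≤ ε * (C * v) + |Real.log ε| := by linarith only [h1, h2, h3]
  rw [div_le_iff₀ hm] at h4
  linarith only [h4]

private lemma ca_mono_ae {f g : ℂ → ℝ} {r : ℝ} (hf : CircleIntegrable f 0 r) (hg : CircleIntegrable g 0 r)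
    (h : ∀ᵐ θ : ℝ, f (circleMap 0 r θ) ≤ g (circleMap 0 r θ)) : circleAverage f 0 r ≤ circleAverage g 0 r := by
  rw [circleAverage_def, circleAverage_def, smul_eq_mul, smul_eq_mul]
  refine mul_le_mul_of_nonneg_left ?_ (by positivity)
  exact intervalIntegral.integral_mono_ae (by positivity) hf hg h

/-- **Harnack inequality.**  `L ≥ 0` and `P` are functions on the unit disc, `T ≥ 0` and `h` is holomorphic.  If `‖h'‖ ^ 2` and `exp (2 P / m)` are
at most `C (1 + L + P⁻)` on the disc of radius `1/2`, and if `L`, `P` satisfy the Jensen inequalities with the characteristic `T`, then the means of `‖h'‖ ^ 2`, `L`, `P⁻` over the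
circles of radius at most `1/2` are bounded by a constant times `1 + L 0 + P⁻ 0`. -/
theorem harnack (m c C : ℝ) (hm : 0 < m) (hc : 0 < c) (hC : 0 < C) : ∃ C' : ℝ, 0 < C' ∧
    ∀ (W : Type) [NormedAddCommGroup W] [NormedSpace ℂ W] [CompleteSpace W] (h : ℂ → W) (L P : ℂ → ℝ) (T : ℝ → ℝ),
      DifferentiableOn ℂ h (ball 0 1) → (∀ z, 0 ≤ L z) → (∀ r, 0 < r → r ≤ 1 / 2 → CircleIntegrable L 0 r) →
      (∀ r, 0 < r → r ≤ 1 / 2 → CircleIntegrable P 0 r) → (∀ r, 0 < r → r ≤ 1 / 2 → 0 ≤ T r) →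
      (∀ r, 0 < r → r ≤ 1 / 2 → ∀ᵐ θ : ℝ, ‖deriv h (circleMap 0 r θ)‖ ^ 2 ≤ C * (1 + L (circleMap 0 r θ) + max (-P (circleMap 0 r θ)) 0) ∧
        Real.exp (2 * P (circleMap 0 r θ) / m) ≤ C * (1 + L (circleMap 0 r θ) + max (-P (circleMap 0 r θ)) 0)) →
      (∀ r, 0 < r → r ≤ 1 / 2 → circleAverage L 0 r ≤ L 0 + C * T r) →
      (∀ r, 0 < r → r ≤ 1 / 2 → P 0 + c * T r - C * circleAverage (fun z => ‖h z - h 0‖ ^ 2) 0 r ≤ circleAverage P 0 r) →
      ∀ r, 0 < r → r ≤ 1 / 2 → circleAverage (fun z => ‖deriv h z‖ ^ 2) 0 r ≤ C' * (1 + L 0 + max (-P 0) 0) ∧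
        circleAverage L 0 r ≤ C' * (1 + L 0 + max (-P 0) 0) ∧ circleAverage (fun z => max (-P z) 0) 0 r ≤ C' * (1 + L 0 + max (-P 0) 0) := by
  -- constants
  obtain ⟨D, hD⟩ : ∃ D : ℝ, D = 1 + C / c := ⟨_, rfl⟩
  have hD1 : 1 ≤ D := by
    rw [hD]
    have : 0 < C / c := by positivity
    linarith only [this]
  have hD0 : 0 < D := by linarith only [hD1]
  obtain ⟨ε, hε⟩ : ∃ ε : ℝ, ε = 1 / (m * C * D) := ⟨_, rfl⟩
  have hε0 : 0 < ε := by rw [hε]; positivity
  obtain ⟨K₀, hK₀⟩ : ∃ K₀ : ℝ, K₀ = m / 2 * |Real.log ε| := ⟨_, rfl⟩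
  have hK₀0 : 0 ≤ K₀ := by rw [hK₀]; positivity
  obtain ⟨K₁, hK₁⟩ : ∃ K₁ : ℝ, K₁ = 2 * (1 + D * (K₀ + 1 + C)) := ⟨_, rfl⟩
  have hK₁0 : 0 < K₁ := by rw [hK₁]; positivity
  obtain ⟨K₂, hK₂⟩ : ∃ K₂ : ℝ, K₂ = C * K₁ := ⟨_, rfl⟩
  have hK₂0 : 0 < K₂ := by rw [hK₂]; positivity
  refine ⟨(K₁ + K₂) * Real.exp K₂, by positivity, ?_⟩
  intro W _ _ _ h L P T hh hL0 hLi hPi hT0 hroot hJL hJP
  obtain ⟨E, hE⟩ : ∃ E : ℝ, E = 1 + L 0 + max (-P 0) 0 := ⟨_, rfl⟩
  have hP0 : 0 ≤ max (-P 0) 0 := le_max_right _ _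
  have hE1 : 1 ≤ E := by
    rw [hE]
    have := hL0 0
    linarith only [hP0, this]
  rw [← hE]
  obtain ⟨a, ha⟩ : ∃ a : ℝ → ℝ, a = circleAverage (fun z => ‖deriv h z‖ ^ 2) 0 := ⟨_, rfl⟩
  have hdc : ContinuousOn (deriv h) (ball 0 1) := (hh.deriv isOpen_ball).continuousOn
  have hac : ContinuousOn a (Icc 0 (1 / 2)) := by
    rw [ha]
    refine ContinuousOn.circleAverage ((hdc.norm.pow 2).mono ?_) fun t ht => ht.1
    intro z hz
    simp only [mem_ofPred_eq, sub_zero, mem_Icc] at hz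
    rw [mem_ball_zero_iff]
    linarith only [hz, hz.2]
  have ha0 : ∀ r, 0 ≤ a r := by
    intro r
    rw [ha]
    exact circleAverage_nonneg_of_nonneg fun z _ => sq_nonneg _
  -- the main estimate
  have hmain : ∀ r, 0 < r → r ≤ 1 / 2 → circleAverage L 0 r ≤ K₁ * (E + ∫ ρ in (0 : ℝ)..r, a ρ) ∧
      circleAverage (fun z => max (-P z) 0) 0 r ≤ K₁ * (E + ∫ ρ in (0 : ℝ)..r, a ρ) ∧ a r ≤ K₂ * (E + ∫ ρ in (0 : ℝ)..r, a ρ) := by
    intro r hr hr1
    have hLr := hLi r hr hr1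
    have hPr := hPi r hr hr1
    have hPn : CircleIntegrable (fun z => max (-P z) 0) 0 r := by
      have h1 : CircleIntegrable (fun z => -P z) 0 r := hPr.neg
      have h2 : IntervalIntegrable (fun θ => -P (circleMap 0 r θ)) volume 0 (2 * π) := h1
      have h3 : IntegrableOn (fun θ => -P (circleMap 0 r θ)) (Ioc 0 (2 * π)) := by
        rwa [intervalIntegrable_iff_integrableOn_Ioc_of_le (by positivity)] at h2
      show IntervalIntegrable (fun θ => max (-P (circleMap 0 r θ)) 0) volume 0 (2 * π)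
      rw [intervalIntegrable_iff_integrableOn_Ioc_of_le (by positivity)]
      exact Integrable.pos_part h3
    have hPp : CircleIntegrable (fun z => max (P z) 0) 0 r := by
      have h2 : IntervalIntegrable (fun θ => P (circleMap 0 r θ)) volume 0 (2 * π) := hPr
      have h3 : IntegrableOn (fun θ => P (circleMap 0 r θ)) (Ioc 0 (2 * π)) := by
        rwa [intervalIntegrable_iff_integrableOn_Ioc_of_le (by positivity)] at h2
      show IntervalIntegrable (fun θ => max (P (circleMap 0 r θ)) 0) volume 0 (2 * π)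
      rw [intervalIntegrable_iff_integrableOn_Ioc_of_le (by positivity)]
      exact Integrable.pos_part h3
    have h1i : CircleIntegrable (fun _ : ℂ => (1 : ℝ)) 0 r := circleIntegrable_const _ _ _
    obtain ⟨ℓ, hℓ⟩ : ∃ ℓ : ℝ, ℓ = circleAverage L 0 r := ⟨_, rfl⟩
    obtain ⟨q, hq⟩ : ∃ q : ℝ, q = circleAverage (fun z => max (-P z) 0) 0 r := ⟨_, rfl⟩
    obtain ⟨p, hp⟩ : ∃ p : ℝ, p = circleAverage (fun z => max (P z) 0) 0 r := ⟨_, rfl⟩
    have hℓ0 : 0 ≤ ℓ := by rw [hℓ]; exact circleAverage_nonneg_of_nonneg fun z _ => hL0 z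
    have hq0 : 0 ≤ q := by rw [hq]; exact circleAverage_nonneg_of_nonneg fun z _ => le_max_right _ _
    have hpq : circleAverage P 0 r = p - q := by
      rw [hp, hq, ← circleAverage_fun_sub hPp hPn]
      congr 1
      funext z
      rcases le_total (P z) 0 with h3 | h3
      · rw [max_eq_right h3, max_eq_left (by linarith only [h3])]
        ring
      · rw [max_eq_left h3, max_eq_right (by linarith only [h3])]
        ring
    have hvi : CircleIntegrable (fun z => 1 + L z + max (-P z) 0) 0 r := (h1i.add hLr).add hPn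
    have hv : circleAverage (fun z => 1 + L z + max (-P z) 0) 0 r = 1 + ℓ + q := by
      rw [circleAverage_fun_add (f₁ := fun z => 1 + L z) (h1i.add hLr) hPn, circleAverage_fun_add h1i hLr, circleAverage_const, hℓ, hq]
    -- the three comparisons
    have hsm : ContinuousOn (fun z => ‖deriv h z‖ ^ 2) (sphere 0 r) := by
      refine (hdc.norm.pow 2).mono fun z hz => ?_
      rw [mem_sphere_zero_iff_norm] at hz
      rw [mem_ball_zero_iff]
      linarith only [hr, hr1, hz]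
    have hai : CircleIntegrable (fun z => ‖deriv h z‖ ^ 2) 0 r := hsm.circleIntegrable hr.le
    have hcv : ∀ b : ℝ, CircleIntegrable (fun z => b * (1 + L z + max (-P z) 0)) 0 r := fun b => by
      have := hvi.const_mul b
      exact this
    have hca : ∀ b : ℝ, circleAverage (fun z => b * (1 + L z + max (-P z) 0)) 0 r = b * (1 + ℓ + q) := fun b => by
      rw [← hv]
      exact circleAverage_fun_smul (a := b) (f := fun z => 1 + L z + max (-P z) 0)
    have har : a r ≤ C * (1 + ℓ + q) := by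
      rw [ha, ← hca C]
      refine ca_mono_ae hai (hcv C) ?_
      filter_upwards [hroot r hr hr1] with θ hθ using hθ.1
    have hpr : p ≤ 1 / (2 * D) * (1 + ℓ + q) + K₀ := by
      have h2 : circleAverage (fun z => 1 / (2 * D) * (1 + L z + max (-P z) 0) + K₀) 0 r = 1 / (2 * D) * (1 + ℓ + q) + K₀ := by
        rw [circleAverage_fun_add (f₁ := fun z => 1 / (2 * D) * (1 + L z + max (-P z) 0)) (hcv _) (circleIntegrable_const _ _ _), hca, circleAverage_const]
      rw [hp, ← h2]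
      refine ca_mono_ae hPp ((hcv _).add (circleIntegrable_const _ _ _)) ?_
      filter_upwards [hroot r hr hr1] with θ hθ
      have h3 : 1 ≤ 1 + L (circleMap 0 r θ) + max (-P (circleMap 0 r θ)) 0 := by
        have h4 := hL0 (circleMap 0 r θ)
        have h5 : 0 ≤ max (-P (circleMap 0 r θ)) 0 := le_max_right _ _
        linarith only [h4, h5]
      have h4 := pos_le hm hC hε0 h3 hθ.2
      rw [← hK₀] at h4
      refine h4.trans (le_of_eq ?_)
      rw [hε]
      field_simp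
    -- the Jensen inequalities
    have hH : circleAverage (fun z => ‖h z - h 0‖ ^ 2) 0 r ≤ ∫ ρ in (0 : ℝ)..r, a ρ := by
      have h2 := mean_sq_le hh hr.le (by linarith only [hr, hr1] : r < 1)
      rw [← ha] at h2
      have h3 : 0 ≤ ∫ ρ in (0 : ℝ)..r, a ρ := intervalIntegral.integral_nonneg hr.le fun ρ _ => ha0 ρ
      nlinarith only [h2, h3, hr1]
    have hj1 := hJL r hr hr1
    have hj2 := hJP r hr hr1
    have hT := hT0 r hr hr1
    obtain ⟨I, hI⟩ : ∃ I : ℝ, I = ∫ ρ in (0 : ℝ)..r, a ρ := ⟨_, rfl⟩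
    have hI0 : 0 ≤ I := by rw [hI]; exact intervalIntegral.integral_nonneg hr.le fun ρ _ => ha0 ρ
    rw [← hI] at hH ⊢
    rw [← hℓ] at hj1 ⊢
    rw [← hq]
    rw [hpq] at hj2
    have hnP : -P 0 ≤ max (-P 0) 0 := le_max_left _ _
    have hCH : C * circleAverage (fun z => ‖h z - h 0‖ ^ 2) 0 r ≤ C * I := mul_le_mul_of_nonneg_left hH hC.le
    have h5 : c * T r + q ≤ p + max (-P 0) 0 + C * I := by linarith only [hj2, hnP, hCH]
    have h6 : ℓ + q ≤ L 0 + D * (p + max (-P 0) 0 + C * I) := by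
      have h7 : C * T r ≤ C / c * (p + max (-P 0) 0 + C * I - q) := by
        have h8 : T r ≤ (p + max (-P 0) 0 + C * I - q) / c := by
          rw [le_div_iff₀ hc]
          linarith only [hj2, hnP, hCH]
        have h9 := mul_le_mul_of_nonneg_left h8 hC.le
        calc C * T r ≤ _ := h9
          _ = _ := by ring
      have h10 : q ≤ p + max (-P 0) 0 + C * I := by
        have : 0 ≤ c * T r := by positivity
        linarith only [hj2, hnP, hCH, this]
      have h11 : 0 ≤ C / c * q := by positivity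
      rw [hD]
      linarith only [hj1, h7, h10, h11]
    have h7 : D * p ≤ 1 / 2 * (1 + ℓ + q) + D * K₀ := by
      have h8 := mul_le_mul_of_nonneg_left hpr hD0.le
      have h9 : D * (1 / (2 * D) * (1 + ℓ + q) + K₀) = 1 / 2 * (1 + ℓ + q) + D * K₀ := by
        field_simp
      linarith only [h8, h9]
    have hyE : 1 + ℓ + q ≤ K₁ * (E + I) := by
      have h8 : 1 / 2 * (1 + ℓ + q) ≤ 1 + L 0 + D * (K₀ + max (-P 0) 0 + C * I) := by linarith only [h6, h7]
      have h9 : L 0 ≤ E := by rw [hE]; linarith only [hP0, hr, hr1]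
      have h10 : max (-P 0) 0 ≤ E := by rw [hE]; linarith only [hr, hr1, hL0, hL0 0]
      have h11 : K₀ + max (-P 0) 0 + C * I ≤ (K₀ + 1 + C) * (E + I) := by
        have e1 : K₀ ≤ K₀ * (E + I) := le_mul_of_one_le_right hK₀0 (by linarith only [hE1, hI0])
        have e2 : C * I ≤ C * (E + I) := mul_le_mul_of_nonneg_left (by linarith only [hE1, hr, hr1]) hC.le
        linarith only [hI0, h10, e1, e2]
      have h12 := mul_le_mul_of_nonneg_left h11 hD0.le
      have h13 : 1 + L 0 ≤ E + I := by rw [hE]; linarith only [hP0, hI0]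
      rw [hK₁]
      linarith only [hE, hP0, hI0, h6, h7, h12]
    refine ⟨by linarith only [hr, hr1, hq0, hyE], by linarith only [hr, hr1, hℓ0, hyE], ?_⟩
    rw [hK₂, mul_assoc]
    exact har.trans (mul_le_mul_of_nonneg_left hyE hC.le)
  -- Gronwall
  have ha00 : a 0 ≤ K₂ * (E + ∫ ρ in (0 : ℝ)..0, a ρ) := by
    have h1 : Filter.Tendsto a (nhdsWithin 0 (Ioi 0)) (nhds (a 0)) := by
      refine (hac 0 ⟨le_rfl, by norm_num⟩).mono_left (nhdsWithin_le_of_mem ?_)
      exact Filter.mem_of_superset (Ioo_mem_nhdsGT (show (0 : ℝ) < 1 / 2 by norm_num)) fun x hx => ⟨hx.1.le, hx.2.le⟩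
    have h2 : Filter.Tendsto (fun r => K₂ * (E + ∫ ρ in (0 : ℝ)..r, a ρ)) (nhdsWithin 0 (Ioi 0)) (nhds (K₂ * (E + ∫ ρ in (0 : ℝ)..0, a ρ))) := by
      have h3 := intervalIntegral.continuousOn_primitive_interval (a := 0) (b := 1 / 2) (f := a) (μ := volume)
        (by rw [uIcc_of_le (by norm_num : (0 : ℝ) ≤ 1 / 2)]; exact hac.integrableOn_compact isCompact_Icc)
      rw [uIcc_of_le (by norm_num : (0 : ℝ) ≤ 1 / 2)] at h3
      have h4 : Filter.Tendsto (fun r => ∫ ρ in (0 : ℝ)..r, a ρ) (nhdsWithin 0 (Ioi 0)) (nhds (∫ ρ in (0 : ℝ)..0, a ρ)) := by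
        refine (h3 0 ⟨le_rfl, by norm_num⟩).mono_left (nhdsWithin_le_of_mem ?_)
        exact Filter.mem_of_superset (Ioo_mem_nhdsGT (show (0 : ℝ) < 1 / 2 by norm_num)) fun x hx => ⟨hx.1.le, hx.2.le⟩
      exact (h4.const_add E).const_mul K₂
    refine le_of_tendsto_of_tendsto h1 h2 ?_
    filter_upwards [Ioo_mem_nhdsGT (show (0 : ℝ) < 1 / 2 by norm_num)] with x hx
    exact (hmain x hx.1 hx.2.le).2.2
  have hgr : ∀ r, 0 < r → r ≤ 1 / 2 → E + ∫ ρ in (0 : ℝ)..r, a ρ ≤ E * Real.exp K₂ := by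
    intro r hr hr1
    have h1 := gron hac hK₂0.le (by linarith only [hE1, hr, hr1] : 0 ≤ E) (fun s hs => by
      rcases hs.1.eq_or_lt with h2 | h2
      · rw [← h2]
        exact ha00
      · exact (hmain s h2 hs.2).2.2) (⟨hr.le, hr1⟩ : r ∈ Icc 0 (1 / 2))
    refine h1.trans (mul_le_mul_of_nonneg_left (Real.exp_le_exp.2 ?_) (by linarith only [hE1, hr, hr1]))
    nlinarith only [hK₂0, hr1]
  intro r hr hr1
  obtain ⟨h1, h2, h3⟩ := hmain r hr hr1
  have h4 := hgr r hr hr1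
  have hex : 0 < Real.exp K₂ := Real.exp_pos _
  have h5 : K₁ * (E + ∫ ρ in (0 : ℝ)..r, a ρ) ≤ (K₁ + K₂) * Real.exp K₂ * E := by
    have h6 := mul_le_mul_of_nonneg_left h4 hK₁0.le
    have h7 : 0 ≤ K₂ * (E * Real.exp K₂) := by positivity
    nlinarith only [h6, h7]
  have h6 : K₂ * (E + ∫ ρ in (0 : ℝ)..r, a ρ) ≤ (K₁ + K₂) * Real.exp K₂ * E := by
    have h6 := mul_le_mul_of_nonneg_left h4 hK₂0.le
    have h7 : 0 ≤ K₁ * (E * Real.exp K₂) := by positivity
    nlinarith only [h6, h7]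
  have har : circleAverage (fun z => ‖deriv h z‖ ^ 2) 0 r = a r := by rw [ha]
  rw [har]
  exact ⟨h3.trans h6, h1.trans h5, h2.trans h5⟩

end Pool.Agent.H56.G3

end

section

/-!
# Gtu Res: residue fields of discrete valuations and algebraic extensions

Let `L` be an algebraic extension of `K`, and let `v` be a valuation of `L` which is nonnegative on `ℂ`.  If there are `n` elements of the valuation
ring of `L` with algebraically independent residue classes, then there are `n` such elements in `K`.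
-/

set_option autoImplicit false

open Polynomial

noncomputable section

namespace Pool.Agent.H7.Gtu

variable {K L : Type} [Field K] [Algebra ℂ K] [Field L] [Algebra ℂ L]

/-- Transcendence degrees of algebraic extensions. -/
theorem exists_indep {κ κ' : Type} [CommRing κ] [IsDomain κ] [CommRing κ'] [IsDomain κ'] [Algebra ℂ κ] [Algebra ℂ κ'] (f : κ →ₐ[ℂ] κ')
    (hf : Function.Injective f) (halg : ∀ y, ∃ q : κ[X], q ≠ 0 ∧ q.eval₂ (f : κ →+* κ') y = 0) {n : ℕ} {s : Fin n → κ'}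
    (hs : AlgebraicIndependent ℂ s) : ∃ t : Fin n → κ, AlgebraicIndependent ℂ t := by
  let _ : Algebra κ κ' := f.toRingHom.toAlgebra
  have _ : IsScalarTower ℂ κ κ' := IsScalarTower.of_algebraMap_eq fun c => (f.commutes c).symm
  have _ : FaithfulSMul κ κ' := (faithfulSMul_iff_algebraMap_injective _ _).2 hf
  have _ : Algebra.IsAlgebraic κ κ' := by
    refine ⟨fun y => ?_⟩
    obtain ⟨q, hq0, hq⟩ := halg y
    exact ⟨q, hq0, hq⟩
  have _ : FaithfulSMul ℂ κ := (faithfulSMul_iff_algebraMap_injective _ _).2 (algebraMap ℂ _).injective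
  obtain ⟨ι, x, hx⟩ := exists_isTranscendenceBasis' ℂ κ
  have hx' : IsTranscendenceBasis ℂ (algebraMap κ κ' ∘ x) := hx.algebraMap_comp
  have h1 := hs.lift_cardinalMk_le_trdeg
  have h2 := hx'.lift_cardinalMk_eq_trdeg
  rw [← h2] at h1
  obtain ⟨φ⟩ := Cardinal.lift_mk_le'.1 h1
  exact ⟨x ∘ φ, hx.1.comp φ φ.injective⟩

/-- The valuation ring. -/
def vring (v : AddValuation L (WithTop ℤ)) (hv : ∀ c : ℂ, 0 ≤ v (algebraMap ℂ L c)) : Subalgebra ℂ L where
  carrier := {x | 0 ≤ v x}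
  mul_mem' := by
    intro a b ha hb
    change 0 ≤ v (a * b)
    rw [v.map_mul]
    exact add_nonneg ha hb
  add_mem' := by
    intro a b ha hb
    exact (le_min ha hb).trans (v.map_add a b)
  algebraMap_mem' := hv

/-- The maximal ideal. -/
def vmax (v : AddValuation L (WithTop ℤ)) (hv : ∀ c : ℂ, 0 ≤ v (algebraMap ℂ L c)) : Ideal (vring v hv) where
  carrier := {x | 0 < v (x : L)}
  add_mem' := by
    intro a b ha hb
    exact (lt_min ha hb).trans_le (v.map_add a b)
  zero_mem' := by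
    change 0 < v (0 : L)
    rw [v.map_zero]
    exact WithTop.coe_lt_top 0
  smul_mem' := by
    intro c x hx
    change 0 < v ((c : L) * x)
    rw [v.map_mul]
    exact lt_of_lt_of_le hx (le_add_of_nonneg_left c.2)

instance vmax_isPrime (v : AddValuation L (WithTop ℤ)) (hv : ∀ c : ℂ, 0 ≤ v (algebraMap ℂ L c)) : (vmax v hv).IsPrime where
  ne_top' := by
    rw [Ideal.ne_top_iff_one]
    intro h
    have h1 : 0 < v (1 : L) := h
    rw [v.map_one] at h1
    exact lt_irrefl _ h1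
  mem_or_mem' := by
    intro x y hxy
    have h1 : 0 < v ((x : L) * y) := hxy
    rw [v.map_mul] at h1
    by_contra hcon
    push Not at hcon
    have h2 : v (x : L) = 0 := le_antisymm (not_lt.1 hcon.1) x.2
    have h3 : v (y : L) = 0 := le_antisymm (not_lt.1 hcon.2) y.2
    rw [h2, h3, add_zero] at h1
    exact lt_irrefl _ h1

/-- The residue field. -/
abbrev vres (v : AddValuation L (WithTop ℤ)) (hv : ∀ c : ℂ, 0 ≤ v (algebraMap ℂ L c)) : Type := vring v hv ⧸ vmax v hv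

section Ext

variable [Algebra K L] [IsScalarTower ℂ K L]

/-- The restriction of the valuation. -/
def vcom (K : Type) [Field K] [Algebra K L] (v : AddValuation L (WithTop ℤ)) : AddValuation K (WithTop ℤ) := v.comap (algebraMap K L)

omit [Algebra ℂ K] [Algebra ℂ L] [IsScalarTower ℂ K L] in
theorem vcom_apply (v : AddValuation L (WithTop ℤ)) (x : K) : vcom K v x = v (algebraMap K L x) := rfl

theorem vcom_const {v : AddValuation L (WithTop ℤ)} (hv : ∀ c : ℂ, 0 ≤ v (algebraMap ℂ L c)) (c : ℂ) :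
    0 ≤ vcom K v (algebraMap ℂ K c) := by
  rw [vcom_apply, ← IsScalarTower.algebraMap_apply]
  exact hv c

/-- The map of the valuation rings. -/
def vmap (v : AddValuation L (WithTop ℤ)) (hv : ∀ c : ℂ, 0 ≤ v (algebraMap ℂ L c)) :
    vring (vcom K v) (vcom_const hv) →ₐ[ℂ] vring v hv where
  toFun x := ⟨algebraMap K L x, x.2⟩
  map_one' := Subtype.ext (map_one (algebraMap K L))
  map_mul' _ _ := Subtype.ext (map_mul (algebraMap K L) _ _)
  map_zero' := Subtype.ext (map_zero (algebraMap K L))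
  map_add' _ _ := Subtype.ext (map_add (algebraMap K L) _ _)
  commutes' c := Subtype.ext (IsScalarTower.algebraMap_apply ℂ K L c).symm

/-- The map of the residue fields. -/
def rmap (v : AddValuation L (WithTop ℤ)) (hv : ∀ c : ℂ, 0 ≤ v (algebraMap ℂ L c)) :
    vres (vcom K v) (vcom_const hv) →ₐ[ℂ] vres v hv :=
  Ideal.quotientMapₐ (vmax v hv) (vmap v hv) fun _ hx => hx

theorem rmap_mk (v : AddValuation L (WithTop ℤ)) (hv : ∀ c : ℂ, 0 ≤ v (algebraMap ℂ L c)) (x : vring (vcom K v) (vcom_const hv)) :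
    rmap (K := K) v hv (Ideal.Quotient.mk _ x) = Ideal.Quotient.mk _ (vmap v hv x) := rfl

theorem rmap_injective (v : AddValuation L (WithTop ℤ)) (hv : ∀ c : ℂ, 0 ≤ v (algebraMap ℂ L c)) :
    Function.Injective (rmap (K := K) v hv) := by
  rw [injective_iff_map_eq_zero]
  intro x hx
  obtain ⟨x, rfl⟩ := Ideal.Quotient.mk_surjective x
  rw [rmap_mk, Ideal.Quotient.eq_zero_iff_mem] at hx
  rw [Ideal.Quotient.eq_zero_iff_mem]
  exact hx

/-- The extension of the residue fields is algebraic. -/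
theorem rmap_algebraic [Algebra.IsAlgebraic K L] (v : AddValuation L (WithTop ℤ)) (hv : ∀ c : ℂ, 0 ≤ v (algebraMap ℂ L c)) (y : vres v hv) :
    ∃ q : (vres (vcom K v) (vcom_const hv))[X], q ≠ 0 ∧ q.eval₂ (rmap (K := K) v hv : vres (vcom K v) (vcom_const hv) →+* vres v hv) y = 0 := by
  obtain ⟨x, rfl⟩ := Ideal.Quotient.mk_surjective y
  obtain ⟨p, hp0, hp⟩ := Algebra.IsAlgebraic.isAlgebraic (R := K) (x : L)
  obtain ⟨i, hi, hmin⟩ := Finset.exists_min_image p.support (fun i => vcom K v (p.coeff i)) (Polynomial.support_nonempty.2 hp0)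
  have hc0 : p.coeff i ≠ 0 := Polynomial.mem_support_iff.1 hi
  have hq : C (p.coeff i)⁻¹ * p ∈ Polynomial.lifts (algebraMap (vring (vcom K v) (vcom_const hv)) K) := by
    rw [Polynomial.lifts_iff_coeff_lifts]
    intro n
    rw [Polynomial.coeff_C_mul]
    have h1 : 0 ≤ vcom K v ((p.coeff i)⁻¹ * p.coeff n) := by
      by_cases hn : p.coeff n = 0
      · rw [hn, mul_zero, AddValuation.map_zero]
        exact le_top
      · have h2 := hmin n (Polynomial.mem_support_iff.2 hn)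
        have h3 : vcom K v (p.coeff i) + vcom K v ((p.coeff i)⁻¹ * p.coeff n) = vcom K v (p.coeff n) := by
          rw [← AddValuation.map_mul, mul_inv_cancel_left₀ hc0]
        rw [← h3] at h2
        have h4 : vcom K v (p.coeff i) ≠ ⊤ := (AddValuation.ne_top_iff _).2 hc0
        have h5 : vcom K v (p.coeff i) + 0 ≤ vcom K v (p.coeff i) + vcom K v ((p.coeff i)⁻¹ * p.coeff n) := by rwa [add_zero]
        exact (WithTop.add_le_add_iff_left h4).1 h5
    exact ⟨⟨_, h1⟩, rfl⟩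
  obtain ⟨Q, hQ⟩ := (Polynomial.mem_lifts _).1 hq
  refine ⟨Q.map (Ideal.Quotient.mk _), ?_, ?_⟩
  · intro h0
    have h1 : (Q.map (Ideal.Quotient.mk (vmax (vcom K v) (vcom_const hv)))).coeff i = 0 := by rw [h0, Polynomial.coeff_zero]
    have h2 : (Q.coeff i : K) = 1 := by
      have h3 : (Q.map (algebraMap (vring (vcom K v) (vcom_const hv)) K)).coeff i = (C (p.coeff i)⁻¹ * p).coeff i := by rw [hQ]
      rw [Polynomial.coeff_map, Polynomial.coeff_C_mul, inv_mul_cancel₀ hc0] at h3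
      exact h3
    have h4 : Q.coeff i = 1 := Subtype.ext h2
    rw [Polynomial.coeff_map, h4, map_one] at h1
    exact one_ne_zero h1
  · rw [Polynomial.eval₂_map]
    have h1 : (rmap (K := K) v hv : vres (vcom K v) (vcom_const hv) →+* vres v hv).comp (Ideal.Quotient.mk _) =
        (Ideal.Quotient.mk (vmax v hv)).comp (vmap (K := K) v hv : _ →+* vring v hv) := rfl
    rw [h1, ← Polynomial.hom_eval₂]
    have h2 : Q.eval₂ (vmap (K := K) v hv : vring (vcom K v) (vcom_const hv) →+* vring v hv) x = 0 := by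
      apply Subtype.ext
      have h3 : ((Q.eval₂ (vmap (K := K) v hv : vring (vcom K v) (vcom_const hv) →+* vring v hv) x : vring v hv) : L) =
          Q.eval₂ ((algebraMap K L).comp (algebraMap (vring (vcom K v) (vcom_const hv)) K)) (x : L) :=
        Polynomial.hom_eval₂ Q (vmap (K := K) v hv : vring (vcom K v) (vcom_const hv) →+* vring v hv) (algebraMap (vring v hv) L) x
      rw [h3, ← Polynomial.eval₂_map, hQ, Polynomial.eval₂_mul]
      have h4 : p.eval₂ (algebraMap K L) (x : L) = 0 := hp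
      rw [h4, mul_zero]
      rfl
    rw [h2, map_zero]

/-- **Residual independence goes down.** -/
theorem exists_residue [Algebra.IsAlgebraic K L] (v : AddValuation L (WithTop ℤ)) (hv : ∀ c : ℂ, 0 ≤ v (algebraMap ℂ L c)) {n : ℕ}
    (h : ∃ s : Fin n → L, (∀ i, 0 ≤ v (s i)) ∧ ∀ p : MvPolynomial (Fin n) ℂ, p ≠ 0 → v (MvPolynomial.aeval s p) = 0) :
    ∃ s : Fin n → K, (∀ i, 0 ≤ v (algebraMap K L (s i))) ∧
      ∀ p : MvPolynomial (Fin n) ℂ, p ≠ 0 → v (algebraMap K L (MvPolynomial.aeval s p)) = 0 := by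
  obtain ⟨s, hs, hp⟩ := h
  -- the residue classes of the given elements
  have hs' : AlgebraicIndependent ℂ (fun i => (Ideal.Quotient.mk (vmax v hv) (⟨s i, hs i⟩ : vring v hv))) := by
    rw [algebraicIndependent_iff]
    intro p hp0
    by_contra hne
    have h1 : MvPolynomial.aeval (fun i => (Ideal.Quotient.mk (vmax v hv) (⟨s i, hs i⟩ : vring v hv))) p =
        Ideal.Quotient.mk (vmax v hv) (MvPolynomial.aeval (fun i => (⟨s i, hs i⟩ : vring v hv)) p) := by
      have h2 := MvPolynomial.comp_aeval (fun i => (⟨s i, hs i⟩ : vring v hv)) (Ideal.Quotient.mkₐ ℂ (vmax v hv))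
      exact (DFunLike.congr_fun h2 p).symm
    rw [h1, Ideal.Quotient.eq_zero_iff_mem] at hp0
    have h3 : ((MvPolynomial.aeval (fun i => (⟨s i, hs i⟩ : vring v hv)) p : vring v hv) : L) = MvPolynomial.aeval s p := by
      have h2 := MvPolynomial.comp_aeval (fun i => (⟨s i, hs i⟩ : vring v hv)) (vring v hv).val
      exact DFunLike.congr_fun h2 p
    have h4 : 0 < v ((MvPolynomial.aeval (fun i => (⟨s i, hs i⟩ : vring v hv)) p : vring v hv) : L) := hp0
    rw [h3, hp p hne] at h4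
    exact lt_irrefl _ h4
  obtain ⟨x, h3⟩ := exists_indep (rmap (K := K) v hv) (rmap_injective v hv) (rmap_algebraic (K := K) v hv) hs'
  choose y hy using fun i => Ideal.Quotient.mk_surjective (x i)
  refine ⟨fun i => (y i : K), fun i => (y i).2, fun p hp0 => ?_⟩
  have h4 : Ideal.Quotient.mk (vmax (vcom K v) (vcom_const hv)) (MvPolynomial.aeval y p) ≠ 0 := by
    have h5 := MvPolynomial.comp_aeval y (Ideal.Quotient.mkₐ ℂ (vmax (vcom K v) (vcom_const hv)))
    have h6 : Ideal.Quotient.mk (vmax (vcom K v) (vcom_const hv)) (MvPolynomial.aeval y p) =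
        MvPolynomial.aeval (fun i => Ideal.Quotient.mkₐ ℂ (vmax (vcom K v) (vcom_const hv)) (y i)) p := DFunLike.congr_fun h5 p
    have h7 : (fun i => Ideal.Quotient.mkₐ ℂ (vmax (vcom K v) (vcom_const hv)) (y i)) = x := funext hy
    rw [h6, h7]
    intro h8
    exact hp0 ((algebraicIndependent_iff.1 h3) p h8)
  have h5 : ((MvPolynomial.aeval y p : vring (vcom K v) (vcom_const hv)) : K) = MvPolynomial.aeval (fun i => (y i : K)) p := by
    have h2 := MvPolynomial.comp_aeval y (vring (vcom K v) (vcom_const hv)).val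
    exact DFunLike.congr_fun h2 p
  rw [← h5]
  refine le_antisymm (not_lt.1 fun h6 => h4 ?_) (MvPolynomial.aeval y p : vring (vcom K v) (vcom_const hv)).2
  rw [Ideal.Quotient.eq_zero_iff_mem]
  exact h6

end Ext

end Pool.Agent.H7.Gtu

end
end
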