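import Pool.Agent.H94.G4T.M103
import Pool.Agent.H94.G4T.M142
import Pool.Agent.H94.G4T.M52
import Pool.Agent.H94.G4T.M62
import Pool.Agent.H94.G4T.M88

/-! The parts of this file: G4.H.Van, G4.H.Main. -/

section

/-!
# G4 H Van: theta functions which vanish to a high order along `Z` in the direction `a`

`Z` closed, invariant under `Γ`, `CovD d Z`, `k = d + 1`.  Let `b` be a real basis in `Γ`, `K` as in `theta_ex`, `R` as in `lv_red`.  The compact set `Z ∩ closedBall 0 R` is covered by finitely many `β i (ball 0 (1/2))`, `i < s`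
(`CovD`, compactness); `w₀` = maximum of `wt W (β i t)`, `t ∈ closedBall 0 (3/4)`.  `C` from `schwarz d`; `C'` natural with `exp (K w₀) * (3/4) ^ C' ≤ 1 / (2 (C + 1))`, so for `M = K m²`, `T = C' m²`: `exp (M w₀) * C * (3/4) ^ T < 1`.
Conditions for `f`: `Φ i' ((dir a)^[j] f ∘ β i) = 0`, `j < l`, `i < s`, `i' : Fin d → Fin T`: `l * s * (C' m²) ^ d` conditions, fewer than `m ^ (2 (k + 1)) = m ^ (2 d + 4)` if `l * s * C' ^ d < m ^ 4`.
Claim: then `(dir a)^[j] f = 0` on `Z` for `j < l`, by strong induction on `j`: by `dir_iter_per` and `ThF.nrm` the function `‖(dir a)^[j] f y‖ * exp (- M wt y)` on `Z` is invariant under the `lv b c`, so its supremum over `Z` is attained at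
`y₁ ∈ Z ∩ closedBall 0 R`, `y₁ = β i t₁`; let `S` be the maximum; `‖(dir a)^[j] f (β i t)‖ ≤ S exp (M w₀)` for `t ∈ ball 0 (3/4)`, so `S ≤ ‖(dir a)^[j] f (β i t₁)‖ ≤ S exp (M w₀) C (3/4) ^ T`, `S = 0`.
-/

set_option autoImplicit false

open Topology Filter Metric

namespace Pool.Agent.G4.H

open Pool.Agent.AD (Vd)
open Pool.Agent.TG (Lat)
open Pool.Agent.G3 (wt)

variable {k r : ℕ} {Γ : AddSubgroup (Vd (k + 1))} {W : Fin r → Vd (k + 1) →L[ℂ] ℂ} {e : Vd (k + 1) → Vd (k + 1) → ℂ}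

private theorem wt_cont (W : Fin r → Vd (k + 1) →L[ℂ] ℂ) : Continuous (wt W) := by
  unfold wt
  exact continuous_finsetSum _ fun i _ => ((W i).continuous.norm).pow 2

private theorem wt_nn (W : Fin r → Vd (k + 1) →L[ℂ] ℂ) (y : Vd (k + 1)) : 0 ≤ wt W y := by
  unfold wt
  exact Finset.sum_nonneg fun i _ => by positivity

private theorem lv_neg (b : RB k) (c : Fin (2 * (k + 1)) → ℤ) : lv b (-c) = -lv b c := by
  unfold lv
  rw [← Finset.sum_neg_distrib]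
  refine Finset.sum_congr rfl fun i _ => ?_
  rw [Pi.neg_apply, Int.cast_neg, neg_smul]

/-- finitely many charts -/
private theorem charts {Z : Set (Vd (k + 1))} (hZc : IsClosed Z) {d : ℕ} (hZ : CovD d Z) (R : ℝ) :
    ∃ (I : Type) (_ : Fintype I) (β : I → Vd d → Vd (k + 1)), (∀ i, AnalyticOnNhd ℂ (β i) (ball 0 1)) ∧ (∀ i, ∀ t ∈ ball (0 : Vd d) 1, β i t ∈ Z) ∧
      ∀ y ∈ Z, ‖y‖ ≤ R → ∃ i, ∃ t ∈ ball (0 : Vd d) (1 / 2), y = β i t := by
  classical
  have hK : IsCompact (Z ∩ closedBall 0 R) := (isCompact_closedBall 0 R).inter_left hZc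
  choose s β h1 h2 h3 using hZ
  obtain ⟨t, ht⟩ := hK.elim_nhds_subcover' (fun y hy => {y' | y' ∈ Z → ∃ i, ∃ t ∈ ball (0 : Vd d) (1 / 2), y' = β y hy.1 i t}) (fun y hy => h3 y hy.1)
  refine ⟨Σ x : t, Fin (s x.1.1 x.1.2.1), inferInstance, fun p => β p.1.1.1 p.1.1.2.1 p.2, fun p => h1 _ _ _, fun p => h2 _ _ _, ?_⟩
  intro y hy hyR
  have h := ht ⟨hy, mem_closedBall_zero_iff.2 hyR⟩
  obtain ⟨x, hx, hxy⟩ := Set.mem_iUnion₂.1 h
  obtain ⟨i, u, hu, e⟩ := hxy hy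
  exact ⟨⟨⟨x, hx⟩, i⟩, u, hu, e⟩

private theorem wt_bd (W : Fin r → Vd (k + 1) →L[ℂ] ℂ) {d : ℕ} {I : Type} [Fintype I] {β : I → Vd d → Vd (k + 1)} (h : ∀ i, AnalyticOnNhd ℂ (β i) (ball 0 1)) :
    ∃ w : ℝ, 0 ≤ w ∧ ∀ i, ∀ t ∈ ball (0 : Vd d) (3 / 4), wt W (β i t) ≤ w := by
  have h1 : ∀ i, ∃ C : ℝ, ∀ t ∈ closedBall (0 : Vd d) (3 / 4), ‖wt W (β i t)‖ ≤ C := fun i =>
    (isCompact_closedBall (0 : Vd d) (3 / 4)).exists_bound_of_continuousOn
      ((wt_cont W).comp_continuousOn ((h i).continuousOn.mono (closedBall_subset_ball (by norm_num))))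
  choose C hC using h1
  refine ⟨∑ i, |C i|, Finset.sum_nonneg fun i _ => abs_nonneg _, fun i t ht => ?_⟩
  calc wt W (β i t) ≤ ‖wt W (β i t)‖ := Real.le_norm_self _
    _ ≤ C i := hC i t (ball_subset_closedBall ht)
    _ ≤ |C i| := le_abs_self _
    _ ≤ ∑ i, |C i| := Finset.single_le_sum (f := fun i => |C i|) (fun i _ => abs_nonneg _) (Finset.mem_univ i)

theorem van (T : ThF Γ W e) {b : RB k} (hb : ∀ i, b i ∈ Γ) {Z : Set (Vd (k + 1))} (hZc : IsClosed Z) (hZi : ∀ y ∈ Z, ∀ l ∈ Γ, y + l ∈ Z) {d : ℕ} (hd : d + 1 = k) (hZ : CovD d Z) (a : Vd (k + 1)) :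
    ∃ K A : ℕ, 1 ≤ K ∧ 1 ≤ A ∧ ∀ m l : ℕ, 1 ≤ m → l * A < m ^ 4 → ∃ f : Vd (k + 1) → ℂ, ThM b e (K * m ^ 2) f ∧ (∃ y, f y ≠ 0) ∧ ∀ j < l, ∀ y ∈ Z, (dir a)^[j] f y = 0 := by
  classical
  obtain ⟨K, hK1, hK⟩ := theta_ex T hb
  obtain ⟨R, hR0, hR⟩ := lv_red b
  obtain ⟨I, _, β, hβ1, hβ2, hβ3⟩ := charts hZc hZ R
  obtain ⟨w, hw0, hw⟩ := wt_bd W hβ1
  obtain ⟨C, hC0, hC⟩ := schwarz d
  obtain ⟨C', hC'⟩ : ∃ n : ℕ, Real.exp (K * w) * (3 / 4 : ℝ) ^ n ≤ 1 / (2 * (C + 1)) := by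
    obtain ⟨n, hn⟩ := exists_pow_lt_of_lt_one (show 0 < 1 / (2 * (C + 1)) / Real.exp (K * w) by positivity) (show (3 / 4 : ℝ) < 1 by norm_num)
    refine ⟨n, ?_⟩
    rw [lt_div_iff₀ (Real.exp_pos _)] at hn
    linarith
  refine ⟨K, max 1 (Fintype.card I * C' ^ d), hK1, le_max_left _ _, fun m l hm hl => ?_⟩
  obtain ⟨Φ, hΦ1, hΦ2⟩ := hC (C' * m ^ 2)
  obtain ⟨f, hf, hf0, hfJ⟩ := hK m hm (Fin l × I × (Fin d → Fin (C' * m ^ 2))) (fun p f => Φ p.2.2 (fun t => (dir a)^[p.1] f (β p.2.1 t)))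
    (by
      intro p f g c hf hg
      rw [dir_lin hf hg c p.1]
      exact hΦ1 p.2.2 _ _ c (fun t ht => (dir_an hf p.1 _).comp (hβ1 p.2.1 t ht)) (fun t ht => (dir_an hg p.1 _).comp (hβ1 p.2.1 t ht)))
    (by
      have e1 : Fintype.card (Fin l × I × (Fin d → Fin (C' * m ^ 2))) = l * (Fintype.card I * C' ^ d) * (m ^ 2) ^ d := by
        simp only [Fintype.card_prod, Fintype.card_fin, Fintype.card_pi, Finset.prod_const, Finset.card_univ, mul_pow]
        ring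
      have e2 : m ^ (2 * (k + 1)) = m ^ 4 * (m ^ 2) ^ d := by
        subst hd
        ring
      rw [e1, e2]
      exact Nat.mul_lt_mul_of_pos_right (lt_of_le_of_lt (Nat.mul_le_mul_left l (le_max_right _ _)) hl) (by positivity))
  refine ⟨f, hf, hf0, ?_⟩
  set M : ℕ := K * m ^ 2 with hMdef
  -- the weight
  have hq : Real.exp (M * w) * (C * (3 / 4 : ℝ) ^ (C' * m ^ 2)) ≤ 1 / 2 := by
    have h1 : Real.exp (M * w) * (3 / 4 : ℝ) ^ (C' * m ^ 2) = (Real.exp (K * w) * (3 / 4 : ℝ) ^ C') ^ (m ^ 2) := by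
      rw [mul_pow, ← Real.exp_nat_mul, ← pow_mul, hMdef]
      congr 2
      push_cast
      ring
    have h2 : (Real.exp (K * w) * (3 / 4 : ℝ) ^ C') ^ (m ^ 2) ≤ 1 / (2 * (C + 1)) := by
      have h3 : Real.exp (K * w) * (3 / 4 : ℝ) ^ C' ≤ 1 := hC'.trans (by
        rw [div_le_one (by positivity)]
        linarith)
      calc (Real.exp (K * w) * (3 / 4 : ℝ) ^ C') ^ (m ^ 2) ≤ Real.exp (K * w) * (3 / 4 : ℝ) ^ C' :=
            pow_le_of_le_one (by positivity) h3 (by positivity)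
        _ ≤ _ := hC'
    calc Real.exp (M * w) * (C * (3 / 4 : ℝ) ^ (C' * m ^ 2)) = C * (Real.exp (M * w) * (3 / 4 : ℝ) ^ (C' * m ^ 2)) := by ring
      _ ≤ C * (1 / (2 * (C + 1))) := by
          rw [h1]
          exact mul_le_mul_of_nonneg_left h2 hC0.le
      _ ≤ 1 / 2 := by
          rw [mul_one_div, div_le_div_iff₀ (by positivity) (by positivity)]
          linarith
  intro j
  induction j using Nat.strong_induction_on with
  | _ j ih =>
    intro hj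
    have hD : ∀ y, AnalyticAt ℂ ((dir a)^[j] f) y := dir_an hf.an j
    -- the norm is invariant
    have hinv : ∀ y ∈ Z, ∀ c : Fin (2 * (k + 1)) → ℤ, y + lv b c ∈ Z ∧
        ‖(dir a)^[j] f (y + lv b c)‖ * Real.exp (-(M * wt W (y + lv b c))) = ‖(dir a)^[j] f y‖ * Real.exp (-(M * wt W y)) := by
      intro y hy c
      have hc := lv_mem hb c
      have hyc : y + lv b c ∈ Z := hZi y hy _ hc
      refine ⟨hyc, ?_⟩
      have h1 := dir_iter_per (a := a) (h := fun y => e (lv b c) y ^ M) (fun y => (T.an _ hc y).pow M) hf.an (v := lv b c) (hf.per c) (j := j) (y := y)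
        (fun i hi => ih i hi (hi.trans hj) _ hyc)
      rw [← h1, norm_mul, norm_pow, T.nrm _ hc y, ← Real.exp_nat_mul]
      rw [mul_comm (Real.exp _) ‖_‖, mul_assoc, ← Real.exp_add]
      congr 2
      ring
    -- the maximum
    by_cases hne : (Z ∩ closedBall (0 : Vd (k + 1)) R).Nonempty
    swap
    · intro y hy
      exfalso
      obtain ⟨c, hc⟩ := hR y
      refine hne ⟨y + lv b (-c), (hinv y hy (-c)).1, ?_⟩
      rw [mem_closedBall_zero_iff, lv_neg, ← sub_eq_add_neg]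
      exact hc
    have hcont : Continuous (fun y => ‖(dir a)^[j] f y‖ * Real.exp (-(M * wt W y))) := by
      have h1 : Continuous ((dir a)^[j] f) := continuous_iff_continuousAt.2 fun y => (hD y).continuousAt
      have h2 := wt_cont W
      fun_prop
    obtain ⟨y₁, hy₁, hmax⟩ := ((isCompact_closedBall (0 : Vd (k + 1)) R).inter_left hZc).exists_isMaxOn hne hcont.continuousOn
    set S : ℝ := ‖(dir a)^[j] f y₁‖ * Real.exp (-(M * wt W y₁)) with hS
    have hSall : ∀ y ∈ Z, ‖(dir a)^[j] f y‖ * Real.exp (-(M * wt W y)) ≤ S := by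
      intro y hy
      obtain ⟨c, hc⟩ := hR y
      obtain ⟨h1, h2⟩ := hinv y hy (-c)
      rw [← h2]
      refine hmax ⟨h1, ?_⟩
      rw [mem_closedBall_zero_iff, lv_neg, ← sub_eq_add_neg]
      exact hc
    have hS0 : 0 ≤ S := by positivity
    obtain ⟨i, t₁, ht₁, hyt⟩ := hβ3 y₁ hy₁.1 (mem_closedBall_zero_iff.1 hy₁.2)
    have h1 := hΦ2 (fun t => (dir a)^[j] f (β i t)) (S * Real.exp (M * w)) (fun t ht => (hD _).comp (hβ1 i t ht))
      (by
        intro t ht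
        have h2 := hSall (β i t) (hβ2 i t (ball_subset_ball (by norm_num) ht))
        have h3 : ‖(dir a)^[j] f (β i t)‖ = ‖(dir a)^[j] f (β i t)‖ * Real.exp (-(M * wt W (β i t))) * Real.exp (M * wt W (β i t)) := by
          rw [mul_assoc, ← Real.exp_add, neg_add_cancel, Real.exp_zero, mul_one]
        rw [h3]
        refine mul_le_mul h2 ?_ (Real.exp_pos _).le hS0
        exact Real.exp_le_exp.2 (mul_le_mul_of_nonneg_left (hw i t ht) (Nat.cast_nonneg _)))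
      (fun i' => hfJ ⟨⟨j, hj⟩, i, i'⟩) t₁ ht₁
    simp only [← hyt] at h1
    have h2 : S ≤ S * (1 / 2) := by
      calc S ≤ ‖(dir a)^[j] f y₁‖ * 1 := by
            rw [hS]
            refine mul_le_mul_of_nonneg_left ?_ (norm_nonneg _)
            rw [Real.exp_le_one_iff]
            have := mul_nonneg (Nat.cast_nonneg (α := ℝ) M) (wt_nn W y₁)
            linarith
        _ ≤ S * Real.exp (M * w) * (C * (3 / 4) ^ (C' * m ^ 2)) := by
            rw [mul_one]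
            exact h1
        _ = S * (Real.exp (M * w) * (C * (3 / 4) ^ (C' * m ^ 2))) := by ring
        _ ≤ S * (1 / 2) := mul_le_mul_of_nonneg_left hq hS0
    have h3 : S = 0 := by linarith
    intro y hy
    have h4 := hSall y hy
    rw [h3] at h4
    have h5 : ‖(dir a)^[j] f y‖ ≤ 0 := by
      by_contra hcon
      push Not at hcon
      have := mul_pos hcon (Real.exp_pos (-(M * wt W y)))
      linarith
    exact norm_le_zero_iff.1 h5

end Pool.Agent.G4.H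

end

section

/-!
# G4 H Main: few bad hits
-/

set_option autoImplicit false

open Topology Filter Metric

namespace Pool.Agent.G4.H

open Pool.Agent.H36.BP (EN)
open Pool.Agent.AD (Vd)
open Pool.Agent.TG (Lat VForm)
open Pool.Agent.G3 (wt)
open Pool.Agent.G3.A (Frm Ba)

variable {N k : ℕ} {X : Set (EN N)} {Λ Γ : AddSubgroup (Vd (k + 1))} {u : EN N → Vd (k + 1)} {D : Set (Vd (k + 1))} {J r : ℕ}
  {W : Fin r → Vd (k + 1) →L[ℂ] ℂ} {α : Fin J → VForm X Λ u}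

theorem few_thf {e : Vd (k + 1) → Vd (k + 1) → ℂ} (T : ThF Γ W e) (hΛ : Lat Λ) (hs : Simp Λ) (hle : Γ ≤ Λ) {Z : Set (Vd (k + 1))} (hZc : IsClosed Z) (hZi : ∀ y ∈ Z, ∀ l ∈ Λ, y + l ∈ Z) (hZ : Cov Z)
    {a : Vd (k + 1)} (ha : a ≠ 0) : Few Z a := by
  obtain ⟨b, hb⟩ := exists_rb T.lat
  rcases hZ with hZ0 | ⟨d, hd, hZd⟩
  · intro ε hε
    refine ⟨0, fun y R _ S hS => ?_⟩
    have h0 : S = ∅ := by
      rw [Finset.eq_empty_iff_forall_notMem]
      intro z hz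
      have h1 := (hS z hz).2
      rw [hZ0] at h1
      exact h1
    rw [h0, Finset.card_empty, Nat.cast_zero, add_zero]
    positivity
  obtain ⟨K, A, hK, hA, hvan⟩ := van T hb hZc (fun y hy l hl => hZi y hy l (hle hl)) hd hZd a
  obtain ⟨q, hq⟩ : ∃ q, q = wt W a := ⟨_, rfl⟩
  have hq0 : 0 ≤ q := by
    rw [hq]
    unfold wt
    positivity
  intro ε hε
  -- the parameters
  obtain ⟨p, hp⟩ := exists_nat_gt (max 2 (64 * K * q / ε))
  have hp2 : (2 : ℝ) < p := (le_max_left _ _).trans_lt hp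
  have hpε : 64 * K * q / ε < p := (le_max_right _ _).trans_lt hp
  have hp2' : 2 < p := by exact_mod_cast hp2
  obtain ⟨m, hm⟩ : ∃ m : ℕ, m = A * p := ⟨_, rfl⟩
  have hm1 : 1 ≤ m := by
    rw [hm]
    exact Nat.one_le_iff_ne_zero.2 (Nat.mul_ne_zero (by omega) (by omega))
  have hAp : 2 ≤ A ^ 3 * p ^ 4 := by
    have h1 : 1 ≤ A ^ 3 := Nat.one_le_pow _ _ hA
    have h2 : p ≤ p ^ 4 := Nat.le_self_pow (by norm_num) p
    calc 2 ≤ p ^ 4 := by omega
      _ = 1 * p ^ 4 := (one_mul _).symm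
      _ ≤ A ^ 3 * p ^ 4 := Nat.mul_le_mul_right _ h1
  obtain ⟨l, hl⟩ : ∃ l : ℕ, l = A ^ 3 * p ^ 4 - 1 := ⟨_, rfl⟩
  have hl1 : l + 1 = A ^ 3 * p ^ 4 := by omega
  have hlA : l * A < m ^ 4 := by
    have h1 : (l + 1) * A = m ^ 4 := by
      rw [hl1, hm]
      ring
    have h2 : (l + 1) * A = l * A + A := by ring
    omega
  obtain ⟨f, hf, hf0, hfz⟩ := hvan m l hm1 hlA
  obtain ⟨M, hM⟩ : ∃ M : ℕ, M = K * m ^ 2 := ⟨_, rfl⟩
  rw [← hM] at hf
  obtain ⟨B, hB0, hB⟩ := thm_up T hb hf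
  obtain ⟨m₀, hm₀, hlow⟩ := thm_low T hb hΛ hs hle hf hf0 ha
  have hl0 : (0 : ℝ) < l := by
    have : 0 < l := by omega
    exact_mod_cast this
  have hl2 : (A : ℝ) ^ 3 * p ^ 4 ≤ 2 * l := by
    have h1 : A ^ 3 * p ^ 4 ≤ 2 * l := by omega
    exact_mod_cast h1
  refine ⟨ε + |Real.log (B / m₀)|, fun y R hR S hS => ?_⟩
  obtain ⟨z₁, hz₁, hz₁f⟩ := hlow y
  obtain ⟨c, hc⟩ := wt_line W y a z₁
  have han : ∀ y, AnalyticAt ℂ f y := hf.an
  have hφ : Differentiable ℂ fun z : ℂ => f (y + z • a) := by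
    intro z
    have h1 : DifferentiableAt ℂ (fun z : ℂ => y + z • a) z := by fun_prop
    exact (han _).differentiableAt.comp z h1
  have hmem : ∀ z ∈ S, y + z • a ∈ Z := fun z hz => (hS z hz).2
  have hj := jen (φ := fun z : ℂ => f (y + z • a)) hφ (B := B) (M := M) (w₀ := wt W (y + z₁ • a)) (q := q) (m₀ := m₀) (R := R + 1) (c := c) (z₁ := z₁) (by linarith) hm₀
    (fun z => by
      have h1 := hB (y + z • a)
      rw [hc z, ← hq] at h1
      exact h1) hz₁f (S := S) (l := l) (fun e he => by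
      have h1 := norm_sub_le e z₁
      have h2 := (hS e he).1
      linarith) (fun e he => dir_zero han fun j hj => hfz j hj _ (hmem e he))
  have hpos : (0 : ℝ) < p := by linarith
  have hA1 : (1 : ℝ) ≤ A := by exact_mod_cast hA
  have hKq : 64 * K * q ≤ ε * p := by
    rw [div_lt_iff₀ hε] at hpε
    linarith
  have hlin : 16 * (M : ℝ) * q * (R + 1) ^ 2 ≤ l * (ε * R ^ 2 + ε) := by
    have e1 : (M : ℝ) = K * (A ^ 2 * p ^ 2) := by
      rw [hM, hm]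
      push_cast
      ring
    have h1 : (R + 1) ^ 2 ≤ 2 * R ^ 2 + 2 := by nlinarith [sq_nonneg (R - 1)]
    have h2 : 0 ≤ (A : ℝ) ^ 2 * p ^ 2 := by positivity
    have h3 : 0 ≤ (K : ℝ) * q := by positivity
    have hp1 : (1 : ℝ) ≤ p := by linarith
    calc 16 * (M : ℝ) * q * (R + 1) ^ 2 ≤ 16 * (M : ℝ) * q * (2 * R ^ 2 + 2) := by
          refine mul_le_mul_of_nonneg_left h1 ?_
          positivity
      _ = (64 * K * q) * (A ^ 2 * p ^ 2) * ((R ^ 2 + 1) / 2) := by rw [e1]; ring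
      _ ≤ (ε * p) * (A ^ 2 * p ^ 2) * ((R ^ 2 + 1) / 2) := by gcongr
      _ = (A ^ 2 * p ^ 3) * (ε * R ^ 2 + ε) / 2 := by ring
      _ ≤ (A ^ 3 * p ^ 4) * (ε * R ^ 2 + ε) / 2 := by
          have h4 : (A : ℝ) ^ 2 ≤ A ^ 3 := pow_le_pow_right₀ hA1 (by norm_num)
          have h5 : (p : ℝ) ^ 3 ≤ p ^ 4 := pow_le_pow_right₀ hp1 (by norm_num)
          gcongr
      _ ≤ (2 * l) * (ε * R ^ 2 + ε) / 2 := by gcongr
      _ = l * (ε * R ^ 2 + ε) := by ring
  have hlog : Real.log (B / m₀) ≤ l * |Real.log (B / m₀)| := by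
    have h1 : (1 : ℝ) ≤ l := by
      have : 1 ≤ l := by omega
      exact_mod_cast this
    calc Real.log (B / m₀) ≤ |Real.log (B / m₀)| := le_abs_self _
      _ = 1 * |Real.log (B / m₀)| := (one_mul _).symm
      _ ≤ l * |Real.log (B / m₀)| := mul_le_mul_of_nonneg_right h1 (abs_nonneg _)
  have hfin : (l : ℝ) * S.card ≤ l * (ε * R ^ 2 + (ε + |Real.log (B / m₀)|)) := by
    calc (l : ℝ) * S.card ≤ 16 * M * q * (R + 1) ^ 2 + Real.log (B / m₀) := hj
      _ ≤ l * (ε * R ^ 2 + ε) + l * |Real.log (B / m₀)| := add_le_add hlin hlog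
      _ = _ := by ring
  exact le_of_mul_le_mul_left hfin hl0

theorem few_of_cov (hΛ : Lat Λ) (hs : Simp Λ) (hF : Frm X Λ u D Γ W α) (hx : ∃ y ∉ D, ∃ x ∈ X, u x - y ∈ Λ) {Z : Set (Vd (k + 1))} (hZc : IsClosed Z) (hZi : ∀ y ∈ Z, ∀ l ∈ Λ, y + l ∈ Z) (hZ : Cov Z)
    {a : Vd (k + 1)} (ha : a ≠ 0) : Few Z a := by
  obtain ⟨e, T⟩ := thf_of_frm hF hx
  exact few_thf T hΛ hs hF.le hZc hZi hZ ha

end Pool.Agent.G4.H

end
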