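import Pool.Agent.H94.G4T.M103
import Pool.Agent.H94.G4T.M75
import Pool.Agent.H94.G4T.M85

/-! The parts of this file: G3.A.TanF, G4.F.BLn, G4.F.FewA. -/

section

/-!
# G3 A TanF: the tangency points are finite modulo `Λ`

`line_iso`: otherwise `h (q₀ + z a)` (of `hD` at `q₀`) vanishes at points `z n → 0`, so near `0`; the set of the `z` such that `q₀ + z' a ∈ D` for all `z'` near `z` is open, closed (`hD` at the limit point) and
not empty: the line is in `D`.  `D` is closed and `Λ`-invariant, so it contains `q₀ + E`, `E` from `exists_toE` (`ToE.dns`).  `E` has real dimension `≥ 3` (proof of `toE_cases`; only `Lat`, `a ≠ 0` and `Simp` are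
needed, the dimension `2` would give `ℂ a ∩ Λ` of rank `2`): `E ⊇ ℝ ν + ℂ a` with `ν`, `a` a basis; the functions `h` of `hD` at `q₀` vanish on `q₀ + s ν + z a`, `s` real, so near `q₀` (identity theorem in `s`),
so `D` is a neighbourhood of `q₀`; this holds for all points of `q₀ + E`; then `D` is open and closed: repeat at the boundary points of the interior of `D` (the interior of `D` is closed by `hD`): `D = univ`.
`tan_fin`: otherwise infinitely many classes of `Ba D B a`; representatives in a compact set, a limit `q₀ ∈ D`, contradiction to `tan_local` at `q₀` (near `q₀` all points of `D` other than `q₀` are not in `B`: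
`B` is finite modulo the discrete `Λ`).
-/

set_option autoImplicit false

open Topology Filter Metric

namespace Pool.Agent.G3.A

open Pool.Agent.H36.BP (EN fs wd)
open Pool.Agent.H14.PP (IsCone CurveAt Tan)
open Pool.Agent.H62.EF (MN pr)
open Pool.Agent.AD (Vd Chart Charts IsGerm)
open Pool.Agent.TG
open Pool.Agent.G3.C (Gc HP)

variable {N k : ℕ} {X : Set (EN N)} {Λ : AddSubgroup (Vd (k + 1))} {u : EN N → Vd (k + 1)} {D B Bad : Set (Vd (k + 1))} {a : Vd (k + 1)}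

/-- a line with an accumulation point of `D` is contained in `D` -/
private theorem line_in {D : Set (Vd (1 + 1))} (hD : ∀ y, ∃ (m : ℕ) (h : Vd (1 + 1) → Fin m → ℂ), AnalyticAt ℂ h y ∧ ∀ᶠ z in 𝓝 y, (z ∈ D ↔ h z = 0))
    {y b : Vd (1 + 1)} (hf : ∃ᶠ z in 𝓝[≠] (0 : ℂ), y + z • b ∈ D) : ∀ z : ℂ, y + z • b ∈ D := by
  -- the local alternative
  have hloc : ∀ z : ℂ, (∃ᶠ w in 𝓝[≠] z, y + w • b ∈ D) → ∀ᶠ w in 𝓝 z, y + w • b ∈ D := by
    intro z hz
    obtain ⟨m, h, han, hiff⟩ := hD (y + z • b)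
    have hline : AnalyticAt ℂ (fun w : ℂ => y + w • b) z := analyticAt_const.add (analyticAt_id.smul analyticAt_const)
    have hg : AnalyticAt ℂ (fun w : ℂ => h (y + w • b)) z := AnalyticAt.fun_comp (f := fun w : ℂ => y + w • b) (g := h) han hline
    have hc : Tendsto (fun w : ℂ => y + w • b) (𝓝 z) (𝓝 (y + z • b)) := hline.continuousAt
    have hiff' : ∀ᶠ w in 𝓝 z, (y + w • b ∈ D ↔ h (y + w • b) = 0) := hc.eventually hiff
    rcases hg.eventually_eq_zero_or_eventually_ne_zero with h0 | h0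
    · filter_upwards [h0, hiff'] with w hw hw'
      exact hw'.2 hw
    · exfalso
      obtain ⟨w, hw1, hw2, hw3⟩ := (hz.and_eventually (h0.and (hiff'.filter_mono nhdsWithin_le_nhds))).exists
      exact hw2 (hw3.1 hw1)
  let S : Set ℂ := {z | ∀ᶠ w in 𝓝 z, y + w • b ∈ D}
  have hSo : IsOpen S := by
    rw [isOpen_iff_mem_nhds]
    intro z hz
    exact eventually_eventually_nhds.2 hz
  have hSc : IsClosed S := by
    rw [← closure_subset_iff_isClosed]
    intro z hz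
    by_cases hzS : z ∈ S
    · exact hzS
    · refine hloc z ?_
      have h1 : ∃ᶠ w in 𝓝 z, w ∈ S := mem_closure_iff_frequently.1 hz
      have h2 : ∃ᶠ w in 𝓝[≠] z, w ∈ S := by
        rw [frequently_nhdsWithin_iff]
        refine h1.mono fun w hw => ⟨hw, ?_⟩
        rintro rfl
        exact hzS hw
      exact h2.mono fun w hw => (show ∀ᶠ w' in 𝓝 w, y + w' • b ∈ D from hw).self_of_nhds
  have hS : S = Set.univ := IsClopen.eq_univ ⟨hSc, hSo⟩ ⟨0, hloc 0 hf⟩
  intro z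
  have hz : z ∈ S := hS ▸ Set.mem_univ z
  exact (show ∀ᶠ w in 𝓝 z, y + w • b ∈ D from hz).self_of_nhds

/-- real points accumulate -/
private theorem freq_real {P : ℂ → Prop} (h : ∀ t : ℝ, P t) : ∃ᶠ z in 𝓝[≠] (0 : ℂ), P z := by
  rw [frequently_iff]
  intro U hU
  rw [Metric.mem_nhdsWithin_iff] at hU
  obtain ⟨ε, hε, hsub⟩ := hU
  refine ⟨((ε / 2 : ℝ) : ℂ), hsub ⟨?_, ?_⟩, h _⟩
  · rw [mem_ball_zero_iff, Complex.norm_real, Real.norm_eq_abs, abs_of_pos (by positivity)]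
    linarith
  · show ((ε / 2 : ℝ) : ℂ) ≠ 0
    exact_mod_cast (by positivity : (ε / 2 : ℝ) ≠ 0)

/-- the points of a line in the lattice are on a real line -/
private theorem rank_of_simp {Λ : AddSubgroup (Vd (1 + 1))} (hs : Pool.Agent.G3.Simp Λ) {a : Vd (1 + 1)} (ha : a ≠ 0) :
    ∃ ω : ℂ, ‖ω‖ = 1 ∧ ∀ z : ℂ, z • a ∈ Λ → ((starRingEnd ℂ) ω * z).im = 0 := by
  by_cases h : ∃ z₁ : ℂ, z₁ ≠ 0 ∧ z₁ • a ∈ Λ
  · obtain ⟨z₁, h0, h1⟩ := h
    have hn : ‖z₁‖ ≠ 0 := norm_ne_zero_iff.2 h0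
    refine ⟨z₁ / (‖z₁‖ : ℂ), ?_, fun z hz => ?_⟩
    · rw [norm_div, Complex.norm_real, norm_norm, div_self hn]
    · have hli := hs a ha z₁ z h1 hz
      rw [LinearIndependent.pair_iff] at hli
      push Not at hli
      obtain ⟨s, t, hst, hne⟩ := hli
      have ht : t ≠ 0 := by
        intro ht
        rw [ht, zero_smul, add_zero, Complex.real_smul, mul_eq_zero] at hst
        rcases hst with hst | hst
        · exact hne (by exact_mod_cast hst) ht
        · exact h0 hst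
      have hz' : z = ((-s / t : ℝ) : ℂ) * z₁ := by
        rw [Complex.real_smul, Complex.real_smul] at hst
        have htc : (t : ℂ) ≠ 0 := by exact_mod_cast ht
        push_cast
        field_simp
        linear_combination hst
      rw [hz', map_div₀, Complex.conj_ofReal]
      have h2 : (starRingEnd ℂ) z₁ / (‖z₁‖ : ℂ) * (((-s / t : ℝ) : ℂ) * z₁) = ((‖z₁‖ * (-s / t) : ℝ) : ℂ) := by
        have h3 : (starRingEnd ℂ) z₁ * z₁ = (‖z₁‖ : ℂ) ^ 2 := by
          rw [mul_comm, Complex.mul_conj, Complex.normSq_eq_norm_sq]; push_cast; ring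
        have h4 : (‖z₁‖ : ℂ) ≠ 0 := by exact_mod_cast hn
        rw [Complex.ofReal_mul]
        generalize (((-s / t : ℝ) : ℂ)) = r
        field_simp
        linear_combination r * h3
      rw [h2, Complex.ofReal_im]
  · push Not at h
    refine ⟨1, norm_one, fun z hz => ?_⟩
    by_cases h0 : z = 0
    · simp [h0]
    · exact absurd hz (h z h0)

/-- `D` is translation invariant: coordinates at `p` and at `p + l` -/
private theorem transAt_add {Λ : AddSubgroup (Vd (1 + 1))} {D : Set (Vd (1 + 1))} (hinv : ∀ y ∈ D, ∀ l ∈ Λ, y + l ∈ D) {p l a : Vd (1 + 1)} (hl : l ∈ Λ)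
    (h : TransAt D p a) : TransAt D (p + l) a := by
  refine ⟨h.1, fun κ hκ q hq => ?_⟩
  have hiff : ∀ z : Vd (1 + 1), z - l ∈ D ↔ z ∈ D := fun z => by
    constructor
    · intro hz
      have := hinv _ hz l hl
      rwa [sub_add_cancel] at this
    · intro hz
      have := hinv _ hz (-l) (Λ.neg_mem hl)
      rwa [← sub_eq_add_neg] at this
  have hco : IsCoord D (fun z => κ z - l) p := by
    refine ⟨hκ.an.sub analyticAt_const, ?_, ?_, ?_⟩
    · show κ 0 - l = p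
      rw [hκ.zero, add_sub_cancel_right]
    · rw [fderiv_sub_const]
      exact hκ.inj
    · filter_upwards [hκ.mem_iff] with z hz
      rw [hiff]
      exact hz
  have h1 := h.2 _ hco q hq
  rwa [fderiv_sub_const] at h1

/-- a set which is finite modulo `Λ` has no accumulation points -/
private theorem iso_of_fin {Λ : AddSubgroup (Vd (1 + 1))} {B : Set (Vd (1 + 1))} (hΛ : Lat Λ) (hB : ∃ S : Set (Vd (1 + 1)), S.Finite ∧ ∀ b ∈ B, ∃ s ∈ S, b - s ∈ Λ)
    (q₀ : Vd (1 + 1)) : ∀ᶠ q in 𝓝[≠] q₀, q ∉ B := by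
  obtain ⟨δ, hδ, hdis⟩ := hΛ.disc
  obtain ⟨S, hS, hBS⟩ := hB
  have h1 : ∀ s ∈ S, ∀ᶠ q in 𝓝[≠] q₀, q - s ∉ Λ := by
    intro s _
    by_contra hcon
    rw [not_eventually] at hcon
    push Not at hcon
    have hb : ∀ r : ℝ, 0 < r → ∃ q : Vd (1 + 1), q ≠ q₀ ∧ ‖q - q₀‖ < r ∧ q - s ∈ Λ := by
      intro r hr
      have h2 : ∀ᶠ q in 𝓝[≠] q₀, q ≠ q₀ ∧ ‖q - q₀‖ < r := by
        refine (eventually_mem_nhdsWithin).and (nhdsWithin_le_nhds ?_)
        filter_upwards [Metric.ball_mem_nhds q₀ hr] with q hq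
        rwa [mem_ball, dist_eq_norm] at hq
      obtain ⟨q, hq1, hq2⟩ := (hcon.and_eventually h2).exists
      exact ⟨q, hq2.1, hq2.2, hq1⟩
    obtain ⟨q₁, h11, h12, h13⟩ := hb (δ / 2) (by positivity)
    have hpos : 0 < ‖q₁ - q₀‖ := norm_pos_iff.2 (sub_ne_zero.2 h11)
    obtain ⟨q₂, h21, h22, h23⟩ := hb ‖q₁ - q₀‖ hpos
    have h3 : q₁ - q₂ = 0 := by
      refine hdis _ ?_ ?_
      · have := Λ.sub_mem h13 h23
        rwa [sub_sub_sub_cancel_right] at this
      · calc ‖q₁ - q₂‖ = ‖(q₁ - q₀) - (q₂ - q₀)‖ := by rw [sub_sub_sub_cancel_right]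
          _ ≤ ‖q₁ - q₀‖ + ‖q₂ - q₀‖ := norm_sub_le _ _
          _ < δ := by linarith
    rw [sub_eq_zero.1 h3] at h22
    exact lt_irrefl _ h22
  have h2 : ∀ᶠ q in 𝓝[≠] q₀, ∀ s ∈ S, q - s ∉ Λ := (eventually_all_finite hS).2 h1
  filter_upwards [h2] with q hq hqB
  obtain ⟨s, hs, hsl⟩ := hBS q hqB
  exact hq s hs hsl

theorem line_iso {Λ : AddSubgroup (Vd (1 + 1))} {D : Set (Vd (1 + 1))} (hΛ : Lat Λ) (hs : Pool.Agent.G3.Simp Λ) (hDc : IsClosed D) (hinv : ∀ y ∈ D, ∀ l ∈ Λ, y + l ∈ D)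
    (hD : ∀ y, ∃ (m : ℕ) (h : Vd (1 + 1) → Fin m → ℂ), AnalyticAt ℂ h y ∧ ∀ᶠ z in 𝓝 y, (z ∈ D ↔ h z = 0)) (hne : D ≠ Set.univ) {a : Vd (1 + 1)} (ha : a ≠ 0) (y : Vd (1 + 1)) :
    ∀ᶠ z in 𝓝[≠] (0 : ℂ), y + z • a ∉ D := by
  by_contra hcon
  rw [not_eventually] at hcon
  push Not at hcon
  refine hne ?_
  have hn : ‖a‖ ≠ 0 := norm_ne_zero_iff.2 ha
  have hl0 : ∀ z : ℂ, y + z • a ∈ D := line_in hD hcon
  -- the normalised direction
  let c : ℂ := ((‖a‖⁻¹ : ℝ) : ℂ)
  have hc0 : c ≠ 0 := by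
    show ((‖a‖⁻¹ : ℝ) : ℂ) ≠ 0
    exact_mod_cast inv_ne_zero hn
  have hca : c • a ≠ 0 := smul_ne_zero hc0 ha
  have hLG : LG Λ ∅ ∅ (c • a) :=
    { norm := by
        rw [norm_smul, Complex.norm_real, norm_inv, norm_norm, inv_mul_cancel₀ hn]
      lat := hΛ
      D_closed := isClosed_empty
      D_inv := fun y hy => absurd hy (Set.notMem_empty y)
      bad_sub := Set.Subset.rfl
      bad_inv := fun y hy => absurd hy (Set.notMem_empty y)
      bad_fin := ⟨∅, Set.finite_empty, fun y hy => absurd hy (Set.notMem_empty y)⟩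
      iso := fun y => Eventually.of_forall fun z => Set.notMem_empty _
      rank := rank_of_simp hs hca }
  obtain ⟨E, hE⟩ := exists_toE hΛ (c • a)
  have hyE : ∀ v ∈ E, y + v ∈ D := by
    intro v hv
    have hcl : y + v ∈ closure D := by
      rw [Metric.mem_closure_iff]
      intro ε hε
      obtain ⟨l, hl, _, z, hz⟩ := hE.dns v hv (ε / 2) (by positivity)
      refine ⟨y + (z * c) • a + l, hinv _ (hl0 _) l hl, ?_⟩
      rw [dist_eq_norm]
      have h1 : y + v - (y + (z * c) • a + l) = v - (l + z • (c • a)) := by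
        rw [smul_smul]; abel
      rw [h1]
      linarith
    rwa [hDc.closure_eq] at hcl
  rcases toE_cases hLG hE with ⟨ν, hbas, hmem⟩ | htop
  · rw [Set.eq_univ_iff_forall]
    intro x
    obtain ⟨s, z, hsz⟩ := hbas (x - y)
    have h1 := line_in (y := y + z • (c • a)) (b := ν) hD (freq_real fun t => by
      have h2 := hyE ((t : ℂ) • ν + z • (c • a)) ((hmem _).2 ⟨t, z, rfl⟩)
      have h3 : y + z • (c • a) + (t : ℂ) • ν = y + ((t : ℂ) • ν + z • (c • a)) := by abel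
      rw [h3]
      exact h2) s
    have h4 : y + z • (c • a) + s • ν = x := by
      rw [add_assoc, add_comm (z • (c • a)), ← hsz, add_sub_cancel]
    rwa [h4] at h1
  · rw [Set.eq_univ_iff_forall]
    intro x
    have h1 := hyE (x - y) (by rw [htop]; exact Submodule.mem_top)
    rwa [add_sub_cancel] at h1

theorem tan_fin {Λ : AddSubgroup (Vd (1 + 1))} {D B : Set (Vd (1 + 1))} (hΛ : Lat Λ) (hs : Pool.Agent.G3.Simp Λ) (hDc : IsClosed D) (hinv : ∀ y ∈ D, ∀ l ∈ Λ, y + l ∈ D)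
    (hD : ∀ y, ∃ (m : ℕ) (h : Vd (1 + 1) → Fin m → ℂ), AnalyticAt ℂ h y ∧ ∀ᶠ z in 𝓝 y, (z ∈ D ↔ h z = 0)) (hne : D ≠ Set.univ)
    (hB : ∃ S : Set (Vd (1 + 1)), S.Finite ∧ ∀ b ∈ B, ∃ s ∈ S, b - s ∈ Λ) (hco : ∀ y ∈ D, y ∉ B → ∃ κ : Vd (1 + 1) → Vd (1 + 1), IsCoord D κ y) {a : Vd (1 + 1)} (ha : a ≠ 0) :
    ∃ S : Set (Vd (1 + 1)), S.Finite ∧ ∀ β ∈ Ba D B a, ∃ s ∈ S, β - s ∈ Λ := by
  obtain ⟨R, hR, hcpt⟩ := hΛ.cpt
  have hBiso := iso_of_fin hΛ hB
  -- the tangency points have no accumulation points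
  let T : Set (Vd (1 + 1)) := {q | q ∈ D ∧ ¬ TransAt D q a}
  have hT : ∀ q₀ : Vd (1 + 1), ∀ᶠ q in 𝓝[≠] q₀, q ∉ T := by
    intro q₀
    by_cases hq₀ : q₀ ∈ D
    · have h1 : ∀ᶠ q in 𝓝[≠] q₀, q ∈ D → TransAt D q a := by
        refine tan_local ha (hD q₀) ?_ (line_iso hΛ hs hDc hinv hD hne ha q₀)
        filter_upwards [hBiso q₀] with q hq hqD
        exact hco q hqD hq
      filter_upwards [h1] with q hq hqT
      exact hqT.2 (hq hqT.1)
    · have h1 : ∀ᶠ q in 𝓝 q₀, q ∉ D := hDc.isOpen_compl.mem_nhds hq₀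
      filter_upwards [nhdsWithin_le_nhds h1] with q hq hqT
      exact hq hqT.1
  have hfin : (T ∩ closedBall 0 R).Finite := by
    by_contra hinf
    obtain ⟨x, _, hx⟩ := Set.Infinite.exists_accPt_of_subset_isCompact hinf (isCompact_closedBall (0 : Vd (1 + 1)) R) Set.inter_subset_right
    rw [accPt_iff_frequently_nhdsNE] at hx
    obtain ⟨q, hq1, hq2⟩ := (hx.and_eventually (hT x)).exists
    exact hq2 hq1.1
  obtain ⟨S, hS, hBS⟩ := hB
  refine ⟨S ∪ (T ∩ closedBall 0 R), hS.union hfin, fun β hβ => ?_⟩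
  rcases hβ with ⟨hβD, hβB | hβT⟩
  · obtain ⟨s, hs1, hs2⟩ := hBS β hβB
    exact ⟨s, Or.inl hs1, hs2⟩
  · obtain ⟨l, hl, hd⟩ := hcpt β
    refine ⟨β - l, Or.inr ⟨⟨?_, fun htr => hβT ?_⟩, ?_⟩, ?_⟩
    · have := hinv β hβD (-l) (Λ.neg_mem hl)
      rwa [← sub_eq_add_neg] at this
    · have := transAt_add hinv hl htr
      rwa [sub_add_cancel] at this
    · rw [mem_closedBall_zero_iff]
      exact hd
    · rw [sub_sub_cancel]
      exact hl

end Pool.Agent.G3.A

end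

section

/-!
# G4 F BLn: almost all lines do not meet `B`

`B` is closed and `Λ`-invariant and the lines of direction `e` have few hits with `B`.  Let `A` be the set of the `y` such that `y + z e ∈ B` for some `|z| ≤ 1`: closed and `Λ`-invariant.  For every `y` the
area of `{w : |w| ≤ R, y + w e ∈ A}` is at most `π` times the number of hits with `|z| ≤ R + 1`, `o (R²)`.  If `A` had positive measure, the measure of `A` in every ball of a suitable radius `r` would be at least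
`v > 0`, and integration over the `y` in the ball of radius `r` gives `π R² v ≤ C o (R²)`.
-/

set_option autoImplicit false

open Topology Filter Metric MeasureTheory

namespace Pool.Agent.G4

open Pool.Agent.AD (Vd)
open Pool.Agent.TG (Lat)

variable {k : ℕ}

private theorem hits_fin {B : Set (Vd (k + 1))} {e y : Vd (k + 1)} {R M : ℝ}
    (h : ∀ S : Finset ℂ, (∀ z ∈ S, ‖z‖ ≤ R ∧ y + z • e ∈ B) → (S.card : ℝ) ≤ M) :
    {z : ℂ | ‖z‖ ≤ R ∧ y + z • e ∈ B}.Finite := by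
  by_contra hinf
  obtain ⟨n, hn⟩ := exists_nat_gt M
  obtain ⟨S, hS, hc⟩ := Set.Infinite.exists_subset_card_eq (s := {z : ℂ | ‖z‖ ≤ R ∧ y + z • e ∈ B}) hinf n
  have h1 := h S fun z hz => hS hz
  rw [hc] at h1
  linarith

/-- the points at distance at most `1` of `B` in the direction `e` -/
private def AA (B : Set (Vd (k + 1))) (e : Vd (k + 1)) : Set (Vd (k + 1)) := {y | ∃ z : ℂ, ‖z‖ ≤ 1 ∧ y + z • e ∈ B}

private theorem AA_closed {B : Set (Vd (k + 1))} (hB : IsClosed B) (e : Vd (k + 1)) : IsClosed (AA B e) := by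
  have h2 : AA B e = Prod.snd '' ({p : closedBall (0 : ℂ) 1 × Vd (k + 1) | p.2 + (p.1 : ℂ) • e ∈ B}) := by
    ext y
    constructor
    · rintro ⟨z, hz, hy⟩
      exact ⟨(⟨z, by simpa using hz⟩, y), hy, rfl⟩
    · rintro ⟨⟨z, y'⟩, hy, rfl⟩
      exact ⟨z, mem_closedBall_zero_iff.1 z.2, hy⟩
  rw [h2]
  refine isClosedMap_snd_of_compactSpace _ (hB.preimage ?_)
  exact continuous_snd.add ((continuous_subtype_val.comp continuous_fst).smul continuous_const)

private theorem AA_null {Λ : AddSubgroup (Vd (k + 1))} (hL : Lat Λ) {B : Set (Vd (k + 1))} (hB : IsClosed B) (hinv : ∀ y ∈ B, ∀ l ∈ Λ, y + l ∈ B) {e : Vd (k + 1)}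
    (hF : Few B e) : volume (AA B e) = 0 := by
  by_contra hne
  obtain ⟨A, hA⟩ : ∃ A, A = AA B e := ⟨_, rfl⟩
  rw [← hA] at hne
  have hAc : IsClosed A := hA ▸ AA_closed hB e
  have hAinv : ∀ y ∈ A, ∀ l ∈ Λ, y + l ∈ A := by
    intro y hy l hl
    rw [hA] at hy ⊢
    obtain ⟨z, hz, h1⟩ := hy
    exact ⟨z, hz, by have := hinv _ h1 l hl; rwa [add_right_comm] at this⟩
  -- a ball in which `A` has positive measure
  obtain ⟨r₀, hr₀, hv⟩ : ∃ r₀ : ℝ, 0 < r₀ ∧ volume (A ∩ closedBall 0 r₀) ≠ 0 := by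
    by_contra hcon
    push Not at hcon
    refine hne (measure_mono_null (t := ⋃ n : ℕ, A ∩ closedBall 0 ((n : ℝ) + 1)) ?_ (measure_iUnion_null fun n => hcon _ (by positivity)))
    intro y hy
    obtain ⟨n, hn⟩ := exists_nat_ge ‖y‖
    exact Set.mem_iUnion.2 ⟨n, hy, by simpa using by linarith⟩
  obtain ⟨Rl, hRl, hcpt⟩ := hL.cpt
  obtain ⟨r, hr⟩ : ∃ r, r = r₀ + Rl := ⟨_, rfl⟩
  obtain ⟨v, hvd⟩ : ∃ v, v = volume (A ∩ closedBall (0 : Vd (k + 1)) r₀) := ⟨_, rfl⟩
  rw [← hvd] at hv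
  have hlow : ∀ c : Vd (k + 1), v ≤ volume (A ∩ closedBall c r) := by
    intro c
    obtain ⟨l, hl, hcl⟩ := hcpt c
    rw [hvd, ← measure_preimage_add_right volume (-l) (A ∩ closedBall 0 r₀)]
    refine measure_mono fun y hy => ?_
    obtain ⟨h1, h2⟩ := hy
    refine ⟨?_, ?_⟩
    · have := hAinv _ h1 l hl
      simpa using this
    · rw [mem_closedBall, dist_eq_norm] at h2 ⊢
      have h3 : y - c = (y + -l - 0) - (c - l) := by abel
      rw [h3, hr]
      exact (norm_sub_le _ _).trans (add_le_add h2 hcl)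
  have hvt : v < ⊤ := by
    rw [hvd]
    exact (measure_mono Set.inter_subset_right).trans_lt (isCompact_closedBall _ _).measure_lt_top
  have hvolC : ∀ (z : ℂ) (R : ℝ), 0 ≤ R → volume (closedBall z R) = ENNReal.ofReal (Real.pi * R ^ 2) := by
    intro z R hR
    rw [Complex.volume_closedBall, mul_comm Real.pi, ENNReal.ofReal_mul (by positivity), ENNReal.ofReal_pow hR]
    congr 1
    rw [← NNReal.coe_real_pi, ENNReal.ofReal_coe_nnreal]
  -- the upper bound
  obtain ⟨K, hK⟩ : ∃ K, K = volume (closedBall (0 : Vd (k + 1)) r) := ⟨_, rfl⟩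
  have hKt : K < ⊤ := by
    rw [hK]
    exact (isCompact_closedBall _ _).measure_lt_top
  have hup : ∀ (y : Vd (k + 1)) (R M : ℝ), 0 ≤ M → (∀ S : Finset ℂ, (∀ z ∈ S, ‖z‖ ≤ R + 1 ∧ y + z • e ∈ B) → (S.card : ℝ) ≤ M) →
      volume {w : ℂ | ‖w‖ ≤ R ∧ y + w • e ∈ A} ≤ ENNReal.ofReal (Real.pi * M) := by
    intro y R M hM hS
    have hfin := hits_fin hS
    have hsub : {w : ℂ | ‖w‖ ≤ R ∧ y + w • e ∈ A} ⊆ ⋃ z ∈ hfin.toFinset, closedBall z 1 := by
      rintro w ⟨hw, hwA⟩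
      rw [hA] at hwA
      obtain ⟨z, hz, hzB⟩ := hwA
      rw [add_assoc, ← add_smul] at hzB
      refine Set.mem_biUnion (x := w + z) ?_ ?_
      · rw [Finset.mem_coe, Set.Finite.mem_toFinset]
        exact ⟨(norm_add_le _ _).trans (add_le_add hw hz), hzB⟩
      · rw [mem_closedBall, dist_eq_norm, sub_add_cancel_left, norm_neg]
        exact hz
    refine (measure_mono hsub).trans ((measure_biUnion_finset_le _ _).trans ?_)
    have h1 : ∀ z : ℂ, volume (closedBall z 1) = ENNReal.ofReal Real.pi := by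
      intro z
      rw [hvolC z 1 zero_le_one, one_pow, mul_one]
    rw [Finset.sum_congr rfl fun z _ => h1 z, Finset.sum_const, nsmul_eq_mul]
    rw [ENNReal.ofReal_mul Real.pi_nonneg, mul_comm]
    refine mul_le_mul_right ?_ _
    have h2 := hS hfin.toFinset fun z hz => by
      rw [Set.Finite.mem_toFinset] at hz
      exact hz
    rw [← ENNReal.ofReal_natCast]
    exact ENNReal.ofReal_le_ofReal h2
  -- Fubini
  have hmain : ∀ R M : ℝ, 0 ≤ R → 0 ≤ M → (∀ (y : Vd (k + 1)) (S : Finset ℂ), (∀ z ∈ S, ‖z‖ ≤ R + 1 ∧ y + z • e ∈ B) → (S.card : ℝ) ≤ M) →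
      v.toReal * R ^ 2 ≤ K.toReal * M := by
    intro R M hR hM hS
    obtain ⟨f, hf⟩ : ∃ f : Vd (k + 1) → ℂ → ENNReal, f = fun y w => Set.indicator {p : Vd (k + 1) × ℂ | p.1 + p.2 • e ∈ A} 1 (y, w) := ⟨_, rfl⟩
    have hcl : IsClosed {p : Vd (k + 1) × ℂ | p.1 + p.2 • e ∈ A} :=
      hAc.preimage (continuous_fst.add (continuous_snd.smul continuous_const))
    have hfm : Measurable (Function.uncurry f) := by
      rw [hf]
      exact measurable_one.indicator hcl.measurableSet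
    have hswap := lintegral_lintegral_swap (μ := volume.restrict (closedBall (0 : Vd (k + 1)) r)) (ν := volume.restrict (closedBall (0 : ℂ) R)) (f := f) hfm.aemeasurable
    have hL1 : ∫⁻ y in closedBall (0 : Vd (k + 1)) r, ∫⁻ w in closedBall (0 : ℂ) R, f y w ≤ ENNReal.ofReal (Real.pi * M) * K := by
      rw [hK, ← setLIntegral_const]
      refine lintegral_mono fun y => ?_
      have h1 : ∀ w, f y w = Set.indicator {w : ℂ | y + w • e ∈ A} 1 w := fun w => by
        rw [hf]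
        rfl
      simp only [h1]
      have hcl2 : IsClosed {w : ℂ | y + w • e ∈ A} := hAc.preimage (continuous_const.add (continuous_id.smul continuous_const))
      rw [lintegral_indicator_one hcl2.measurableSet, Measure.restrict_apply hcl2.measurableSet]
      refine le_trans (measure_mono ?_) (hup y R M hM (hS y))
      rintro w ⟨hw, hw2⟩
      exact ⟨by simpa using hw2, hw⟩
    have hL2 : v * volume (closedBall (0 : ℂ) R) ≤ ∫⁻ w in closedBall (0 : ℂ) R, ∫⁻ y in closedBall (0 : Vd (k + 1)) r, f y w := by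
      rw [← setLIntegral_const]
      refine lintegral_mono fun w => ?_
      have h1 : ∀ y, f y w = Set.indicator {y : Vd (k + 1) | y + w • e ∈ A} 1 y := fun y => by
        rw [hf]
        rfl
      simp only [h1]
      have hcl2 : IsClosed {y : Vd (k + 1) | y + w • e ∈ A} := hAc.preimage (continuous_id.add continuous_const)
      rw [lintegral_indicator_one hcl2.measurableSet, Measure.restrict_apply hcl2.measurableSet]
      refine (hlow (w • e)).trans ?_
      rw [← measure_preimage_add_right volume (w • e) (A ∩ closedBall (w • e) r)]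
      refine measure_mono ?_
      rintro y ⟨hy, hy2⟩
      refine ⟨hy, ?_⟩
      rw [mem_closedBall, dist_eq_norm, add_sub_cancel_right] at hy2
      simpa using hy2
    have h3 := hL2.trans (hswap.symm.le.trans hL1)
    rw [hvolC 0 R hR] at h3
    have h4 := ENNReal.toReal_mono (ENNReal.mul_ne_top ENNReal.ofReal_ne_top hKt.ne) h3
    rw [ENNReal.toReal_mul, ENNReal.toReal_mul, ENNReal.toReal_ofReal (by positivity), ENNReal.toReal_ofReal (by positivity)] at h4
    have hpi := Real.pi_pos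
    have h5 : Real.pi * (v.toReal * R ^ 2) ≤ Real.pi * (K.toReal * M) := by linarith
    exact le_of_mul_le_mul_left h5 hpi
  -- the contradiction
  obtain ⟨t, ht⟩ : ∃ t, t = v.toReal := ⟨_, rfl⟩
  obtain ⟨κ, hκ⟩ : ∃ κ, κ = K.toReal := ⟨_, rfl⟩
  rw [← ht, ← hκ] at hmain
  have ht0 : 0 < t := by
    rw [ht]
    exact ENNReal.toReal_pos hv hvt.ne
  have hκ0 : 0 ≤ κ := by
    rw [hκ]
    exact ENNReal.toReal_nonneg
  obtain ⟨C, hC⟩ := hF (t / (8 * (κ + 1))) (by positivity)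
  obtain ⟨R, hR⟩ : ∃ R : ℝ, 1 ≤ R ∧ 2 * (κ * |C|) < t * R := by
    refine ⟨max 1 ((2 * (κ * |C|) + 1) / t), le_max_left _ _, ?_⟩
    have h1 : (2 * (κ * |C|) + 1) / t ≤ max 1 ((2 * (κ * |C|) + 1) / t) := le_max_right _ _
    rw [div_le_iff₀ ht0] at h1
    linarith
  obtain ⟨hR1, hR2⟩ := hR
  have h1 := hmain R (t / (8 * (κ + 1)) * (R + 1) ^ 2 + |C|) (by linarith) (by positivity) fun y S hS => (hC y (R + 1) (by linarith) S hS).trans (by linarith [le_abs_self C])
  have h2 : κ * (t / (8 * (κ + 1)) * (R + 1) ^ 2) ≤ t * R ^ 2 / 2 := by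
    have h3 : (R + 1) ^ 2 ≤ 4 * R ^ 2 := by nlinarith
    have h4 : κ / (κ + 1) ≤ 1 := by
      rw [div_le_one (by positivity)]
      linarith
    have h5 : κ * (t / (8 * (κ + 1)) * (R + 1) ^ 2) = (κ / (κ + 1)) * (t / 8 * (R + 1) ^ 2) := by
      field_simp
    rw [h5]
    have h6 : 0 ≤ t / 8 * (R + 1) ^ 2 := by positivity
    nlinarith [mul_le_mul_of_nonneg_right h4 h6, mul_le_mul_of_nonneg_left h3 (show 0 ≤ t / 8 by positivity)]
  have h3 : t * R ^ 2 ≤ t * R ^ 2 / 2 + κ * |C| := by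
    have : κ * (t / (8 * (κ + 1)) * (R + 1) ^ 2 + |C|) = κ * (t / (8 * (κ + 1)) * (R + 1) ^ 2) + κ * |C| := by ring
    linarith
  have h4 : t * R ≤ t * R ^ 2 := by nlinarith [mul_pos ht0 (by linarith : (0 : ℝ) < R)]
  linarith

/-- almost all lines of direction `e` do not meet `B` -/
theorem ae_lines {Λ : AddSubgroup (Vd (k + 1))} (hL : Lat Λ) {B : Set (Vd (k + 1))} (hB : IsClosed B) (hinv : ∀ y ∈ B, ∀ l ∈ Λ, y + l ∈ B) {e : Vd (k + 1)}
    (hF : Few B e) : ∀ᵐ y : Vd (k + 1), ∀ z : ℂ, y + z • e ∉ B := by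
  have h0 := AA_null hL hB hinv hF
  obtain ⟨Q, hQc, hQd⟩ := TopologicalSpace.exists_countable_dense ℂ
  have h1 : ∀ᵐ y : Vd (k + 1), ∀ q ∈ Q, y + q • e ∉ AA B e := by
    rw [ae_ball_iff hQc]
    intro q _
    have h2 : volume ((fun y => y + q • e) ⁻¹' AA B e) = 0 := by
      rw [measure_preimage_add_right]
      exact h0
    filter_upwards [compl_mem_ae_iff.2 h2] with y hy using hy
  filter_upwards [h1] with y hy z hz
  obtain ⟨q, hq, hqz⟩ := Metric.dense_iff.1 hQd z 1 one_pos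
  rw [mem_ball, dist_comm, dist_eq_norm] at hq
  refine hy q hqz ⟨z - q, hq.le, ?_⟩
  rw [add_assoc, ← add_smul, add_sub_cancel]
  exact hz

end Pool.Agent.G4

end

section

/-!
# G4 F FewA: two-dimensional tori, finitely many points modulo `Λ`

`simp_one`: for `k = 1` the property `Simp` gives `G3.Simp` (no elliptic curves).
`few_of_fin`: a set which is finite modulo `Λ` has few hits with the lines: the `z` with `y + z a ∈ s + Λ` lie on a real line (`rank_one`), with distances at least `η`: at most `2 R / η + 2` of them in the disc of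
radius `R`.
`few_one`: so the bad points `Ba D B a` (finite modulo `Λ` by `tan_fin`).
`bl_closed`: `B + Λ` is closed.
-/

set_option autoImplicit false

open Topology Filter Metric

namespace Pool.Agent.G4

open Pool.Agent.AD (Vd)
open Pool.Agent.TG (Lat IsCoord)
open Pool.Agent.G3.A (Ba)

theorem simp_one {Λ : AddSubgroup (Vd (1 + 1))} (h : Simp Λ) : Pool.Agent.G3.Simp Λ := by
  intro a ha z₁ z₂ h1 h2 hli
  obtain ⟨W, hW⟩ : ∃ W : Submodule ℂ (Vd (1 + 1)), W = Submodule.span ℂ {a} := ⟨_, rfl⟩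
  have haW : a ∈ W := by
    rw [hW]
    exact Submodule.mem_span_singleton_self a
  have hbot : W ≠ ⊥ := by
    intro h0
    rw [h0, Submodule.mem_bot] at haW
    exact ha haW
  have htop : W ≠ ⊤ := by
    intro h0
    have h3 : Module.finrank ℂ W ≤ 1 := by
      rw [hW]
      exact finrank_span_singleton ha |>.le
    rw [h0, finrank_top] at h3
    simp [Vd] at h3
  refine h W hbot htop (le_antisymm ?_ fun v hv => ?_)
  · rw [Submodule.span_le]
    rintro v ⟨-, hv⟩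
    exact hv
  · have hv' : v ∈ W := hv
    rw [hW, Submodule.mem_span_singleton] at hv'
    obtain ⟨w, rfl⟩ := hv'
    have hsp : ⊤ ≤ Submodule.span ℝ (Set.range ![z₁, z₂]) := by
      rw [hli.span_eq_top_of_card_eq_finrank' (by simp [Complex.finrank_real_complex])]
    have hw : w ∈ Submodule.span ℝ (Set.range ![z₁, z₂]) := hsp Submodule.mem_top
    rw [Matrix.range_cons, Matrix.range_cons, Matrix.range_empty, Set.union_empty, Set.singleton_union, Submodule.mem_span_pair] at hw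
    obtain ⟨s, t, rfl⟩ := hw
    rw [add_smul, smul_assoc, smul_assoc]
    refine Submodule.add_mem _ (Submodule.smul_mem _ s (Submodule.subset_span ⟨h1, W.smul_mem z₁ haW⟩)) (Submodule.smul_mem _ t (Submodule.subset_span ⟨h2, W.smul_mem z₂ haW⟩))

private theorem rank_one {Λ : AddSubgroup (Vd (1 + 1))} (hs : Pool.Agent.G3.Simp Λ) {a : Vd (1 + 1)} (ha : a ≠ 0) :
    ∃ ω : ℂ, ‖ω‖ = 1 ∧ ∀ z : ℂ, z • a ∈ Λ → ((starRingEnd ℂ) ω * z).im = 0 := by
  by_cases h : ∃ z₁ : ℂ, z₁ ≠ 0 ∧ z₁ • a ∈ Λ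
  · obtain ⟨z₁, h0, h1⟩ := h
    have hn : ‖z₁‖ ≠ 0 := norm_ne_zero_iff.2 h0
    refine ⟨z₁ / (‖z₁‖ : ℂ), ?_, fun z hz => ?_⟩
    · rw [norm_div, Complex.norm_real, norm_norm, div_self hn]
    · have hli := hs a ha z₁ z h1 hz
      rw [LinearIndependent.pair_iff] at hli
      push Not at hli
      obtain ⟨s, t, hst, hne⟩ := hli
      have ht : t ≠ 0 := by
        intro ht
        rw [ht, zero_smul, add_zero, Complex.real_smul, mul_eq_zero] at hst
        rcases hst with hst | hst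
        · exact hne (by exact_mod_cast hst) ht
        · exact h0 hst
      have hz' : z = ((-s / t : ℝ) : ℂ) * z₁ := by
        rw [Complex.real_smul, Complex.real_smul] at hst
        have htc : (t : ℂ) ≠ 0 := by exact_mod_cast ht
        push_cast
        field_simp
        linear_combination hst
      rw [hz', map_div₀, Complex.conj_ofReal]
      have h2 : (starRingEnd ℂ) z₁ / (‖z₁‖ : ℂ) * (((-s / t : ℝ) : ℂ) * z₁) = ((‖z₁‖ * (-s / t) : ℝ) : ℂ) := by
        have h3 : (starRingEnd ℂ) z₁ * z₁ = (‖z₁‖ : ℂ) ^ 2 := by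
          rw [mul_comm, Complex.mul_conj, Complex.normSq_eq_norm_sq]; push_cast; ring
        have h4 : (‖z₁‖ : ℂ) ≠ 0 := by exact_mod_cast hn
        rw [Complex.ofReal_mul]
        generalize (((-s / t : ℝ) : ℂ)) = r
        field_simp
        linear_combination r * h3
      rw [h2, Complex.ofReal_im]
  · push Not at h
    refine ⟨1, norm_one, fun z hz => ?_⟩
    by_cases h0 : z = 0
    · simp [h0]
    · exact absurd hz (h z h0)

/-- separated points on a real line -/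
private theorem card_line {ω : ℂ} (hω : ‖ω‖ = 1) {η R : ℝ} (hη : 0 < η) (hR : 0 ≤ R) (S : Finset ℂ) (hS : ∀ z ∈ S, ‖z‖ ≤ R)
    (him : ∀ z ∈ S, ∀ z' ∈ S, ((starRingEnd ℂ) ω * (z - z')).im = 0) (hsep : ∀ z ∈ S, ∀ z' ∈ S, ‖z - z'‖ < η → z = z') : (S.card : ℝ) ≤ 2 * R / η + 2 := by
  obtain ⟨g, hg⟩ : ∃ g : ℂ → ℤ, g = fun z => ⌊((starRingEnd ℂ) ω * z).re / η⌋ := ⟨_, rfl⟩
  have hcω : ‖(starRingEnd ℂ) ω‖ = 1 := by rw [RCLike.norm_conj, hω]
  have hmaps : ∀ z ∈ S, g z ∈ Finset.Icc ⌊-R / η⌋ ⌊R / η⌋ := by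
    intro z hz
    have h1 : |((starRingEnd ℂ) ω * z).re| ≤ R := by
      refine (Complex.abs_re_le_norm _).trans ?_
      rw [norm_mul, hcω, one_mul]
      exact hS z hz
    rw [Finset.mem_Icc, hg]
    rw [abs_le] at h1
    exact ⟨Int.floor_le_floor (div_le_div_of_nonneg_right h1.1 hη.le), Int.floor_le_floor (div_le_div_of_nonneg_right h1.2 hη.le)⟩
  have hinj : Set.InjOn g (S : Set ℂ) := by
    intro z hz z' hz' he
    refine hsep z hz z' hz' ?_
    rw [hg] at he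
    have h1 := Int.abs_sub_lt_one_of_floor_eq_floor he
    rw [← sub_div, abs_div, abs_of_pos hη, div_lt_one hη, ← Complex.sub_re, ← mul_sub] at h1
    have h2 : ‖z - z'‖ = ‖(starRingEnd ℂ) ω * (z - z')‖ := by rw [norm_mul, hcω, one_mul]
    have h3 : (starRingEnd ℂ) ω * (z - z') = ((((starRingEnd ℂ) ω * (z - z')).re : ℝ) : ℂ) := by
      apply Complex.ext
      · simp
      · rw [him z hz z' hz', Complex.ofReal_im]
    rw [h2, h3, Complex.norm_real]
    exact h1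
  have h1 := Finset.card_le_card_of_injOn g hmaps hinj
  rw [Int.card_Icc] at h1
  have h2 : (S.card : ℝ) ≤ ((⌊R / η⌋ + 1 - ⌊-R / η⌋).toNat : ℝ) := by exact_mod_cast h1
  have h3 : (0 : ℤ) ≤ ⌊R / η⌋ + 1 - ⌊-R / η⌋ := by
    have : ⌊-R / η⌋ ≤ ⌊R / η⌋ := Int.floor_le_floor (div_le_div_of_nonneg_right (by linarith) hη.le)
    omega
  have h4 : (((⌊R / η⌋ + 1 - ⌊-R / η⌋).toNat : ℕ) : ℝ) = ((⌊R / η⌋ + 1 - ⌊-R / η⌋ : ℤ) : ℝ) := by
    exact_mod_cast congrArg (fun n : ℤ => (n : ℝ)) (Int.toNat_of_nonneg h3)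
  rw [h4] at h2
  push_cast at h2
  have h5 := Int.floor_le (R / η)
  have h6 := (Int.lt_floor_add_one (-R / η)).le
  have h7 : 2 * R / η = R / η - -R / η := by ring
  rw [h7]
  linarith

/-- a set which is finite modulo `Λ` has few hits -/
theorem few_of_fin {Λ : AddSubgroup (Vd (1 + 1))} (hΛ : Lat Λ) (hs : Pool.Agent.G3.Simp Λ) {Bad : Set (Vd (1 + 1))}
    (hB : ∃ S : Set (Vd (1 + 1)), S.Finite ∧ ∀ b ∈ Bad, ∃ s ∈ S, b - s ∈ Λ) {a : Vd (1 + 1)} (ha : a ≠ 0) : Few Bad a := by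
  classical
  obtain ⟨T, hT, hBT⟩ := hB
  obtain ⟨δ, hδ, hdis⟩ := hΛ.disc
  obtain ⟨ω, hω, hωa⟩ := rank_one hs ha
  have han : 0 < ‖a‖ := norm_pos_iff.2 ha
  obtain ⟨η, hη, hηd⟩ : ∃ η : ℝ, 0 < η ∧ η = δ / ‖a‖ := ⟨δ / ‖a‖, by positivity, rfl⟩
  obtain ⟨n, hn⟩ : ∃ n : ℝ, n = hT.toFinset.card := ⟨_, rfl⟩
  have hn0 : 0 ≤ n := by
    rw [hn]
    positivity
  intro ε hε
  refine ⟨2 * n + (n / η) ^ 2 / ε, fun y R hR S hS => ?_⟩
  have h1 : ∀ s ∈ hT.toFinset, ((S.filter fun z => y + z • a - s ∈ Λ).card : ℝ) ≤ 2 * R / η + 2 := by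
    intro s _
    refine card_line hω hη hR _ (fun z hz => (hS z (Finset.mem_filter.1 hz).1).1) (fun z hz z' hz' => ?_) (fun z hz z' hz' hlt => ?_)
    · have h2 := Λ.sub_mem (Finset.mem_filter.1 hz).2 (Finset.mem_filter.1 hz').2
      have h3 : y + z • a - s - (y + z' • a - s) = (z - z') • a := by
        rw [sub_smul]
        abel
      rw [h3] at h2
      exact hωa _ h2
    · have h2 := Λ.sub_mem (Finset.mem_filter.1 hz).2 (Finset.mem_filter.1 hz').2
      have h3 : y + z • a - s - (y + z' • a - s) = (z - z') • a := by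
        rw [sub_smul]
        abel
      rw [h3] at h2
      have h4 := hdis _ h2 (by
        rw [norm_smul]
        rw [hηd, lt_div_iff₀ han] at hlt
        exact hlt)
      rcases smul_eq_zero.1 h4 with h5 | h5
      · exact sub_eq_zero.1 h5
      · exact absurd h5 ha
  have h2 : S ⊆ hT.toFinset.biUnion fun s => S.filter fun z => y + z • a - s ∈ Λ := by
    intro z hz
    obtain ⟨s, hs, hsl⟩ := hBT _ (hS z hz).2
    rw [Finset.mem_biUnion]
    exact ⟨s, hT.mem_toFinset.2 hs, Finset.mem_filter.2 ⟨hz, hsl⟩⟩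
  have h3 : (S.card : ℝ) ≤ n * (2 * R / η + 2) := by
    have h4 : (S.card : ℝ) ≤ ∑ s ∈ hT.toFinset, ((S.filter fun z => y + z • a - s ∈ Λ).card : ℝ) := by
      exact_mod_cast (Finset.card_le_card h2).trans Finset.card_biUnion_le
    refine h4.trans ((Finset.sum_le_sum h1).trans ?_)
    rw [Finset.sum_const, nsmul_eq_mul, hn]
  have h4 : n * (2 * R / η) ≤ ε * R ^ 2 + (n / η) ^ 2 / ε := by
    have h5 : 0 ≤ (ε * R - n / η) ^ 2 / ε := by positivity
    have h6 : (ε * R - n / η) ^ 2 / ε = ε * R ^ 2 - n * (2 * R / η) + (n / η) ^ 2 / ε := by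
      field_simp
      ring
    linarith
  linarith [mul_add n (2 * R / η) 2]

/-- `B + Λ` is closed -/
theorem bl_closed {k : ℕ} {Λ : AddSubgroup (Vd (k + 1))} [DiscreteTopology Λ] {B : Set (Vd (k + 1))}
    (hB : ∃ S : Set (Vd (k + 1)), S.Finite ∧ ∀ b ∈ B, ∃ s ∈ S, b - s ∈ Λ) : IsClosed (Pool.Agent.G3.E.BL B Λ) := by
  obtain ⟨S, hS, hBS⟩ := hB
  have hc : IsClosed (Λ : Set (Vd (k + 1))) := AddSubgroup.isClosed_of_discrete
  have h1 : Pool.Agent.G3.E.BL B Λ = ⋃ s ∈ {s | s ∈ S ∧ ∃ b ∈ B, b - s ∈ Λ}, (fun y => y - s) ⁻¹' (Λ : Set (Vd (k + 1))) := by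
    ext y
    constructor
    · rintro ⟨b, hb, hy⟩
      obtain ⟨s, hs, hbs⟩ := hBS b hb
      refine Set.mem_biUnion (x := s) ⟨hs, b, hb, hbs⟩ ?_
      show y - s ∈ Λ
      have h2 := Λ.add_mem hy hbs
      rwa [sub_add_sub_cancel] at h2
    · intro hy
      obtain ⟨s, ⟨hs, b, hb, hbs⟩, hy⟩ := Set.mem_iUnion₂.1 hy
      refine ⟨b, hb, ?_⟩
      have h2 := Λ.sub_mem (show y - s ∈ Λ from hy) hbs
      rwa [sub_sub_sub_cancel_right] at h2
  rw [h1]
  exact (hS.subset fun s hs => hs.1).isClosed_biUnion fun s _ => hc.preimage (continuous_id.sub continuous_const)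

theorem few_one {Λ : AddSubgroup (Vd (1 + 1))} {D B : Set (Vd (1 + 1))} (hΛ : Lat Λ) (hs : Simp Λ) (hDc : IsClosed D) (hinv : ∀ y ∈ D, ∀ l ∈ Λ, y + l ∈ D)
    (hD : ∀ y, ∃ (m : ℕ) (h : Vd (1 + 1) → Fin m → ℂ), AnalyticAt ℂ h y ∧ ∀ᶠ z in 𝓝 y, (z ∈ D ↔ h z = 0)) (hne : D ≠ Set.univ)
    (hB : ∃ S : Set (Vd (1 + 1)), S.Finite ∧ ∀ b ∈ B, ∃ s ∈ S, b - s ∈ Λ) (hco : ∀ y ∈ D, y ∉ B → ∃ κ : Vd (1 + 1) → Vd (1 + 1), IsCoord D κ y) {a : Vd (1 + 1)} (ha : a ≠ 0) :
    Few (Ba D B a) a :=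
  few_of_fin hΛ (simp_one hs) (Pool.Agent.G3.A.tan_fin hΛ (simp_one hs) hDc hinv hD hne hB hco ha) ha

end Pool.Agent.G4

end
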