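import Pool.Agent.H94.G4T.M53
import Pool.Agent.H94.G4T.M54
import Pool.Agent.H94.G4T.M66
import Pool.Agent.H94.G4T.M67
import Pool.Agent.H94.G4T.M69
import Pool.Agent.H94.G4T.M70

/-! The parts of this file: G3.A.NLp, G3.PS.Main, G4.A.DAx. -/

section

/-!
# G3 A NLp: normalised lifts

`f ∈ Hc`, entire lift `F`, `Cv` over `h z = y + z a`, `‖deriv h‖ = 1`.  `P/Tbd.tbd` (`R = 6`, `r = 5` and `r = 5/2`, `H = η = 1`) at the points over `Gd D δ`, then `H56/G3/Lift.norm_lift`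
(`R = 7`, `Gd := {z | y + z a ∈ Gd D δ}`); `exp (-φ z) • F z ∈ X` (cone) and `pr` does not change.
-/

set_option autoImplicit false

open Topology Filter Metric

namespace Pool.Agent.G3.A

open Pool.Agent.H36.BP (EN fs wd)
open Pool.Agent.H14.PP (IsCone CurveAt Tan)
open Pool.Agent.H62.EF (MN pr)
open Pool.Agent.AD (Vd Chart Charts IsGerm)
open Pool.Agent.TG
open Pool.Agent.G3.C (Gc)

variable {N k : ℕ} {X : Set (EN N)} {Λ : AddSubgroup (Vd (k + 1))} {u : EN N → Vd (k + 1)} {D B Bad : Set (Vd (k + 1))} {a : Vd (k + 1)}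

theorem exists_nl {p : EN N → EN N → ℝ} {m : ℕ} {C : ℝ} (hX : IsCone X) (hP : Pool.Agent.G3.PS X Λ u D p m C) (ha : ‖a‖ = 1) : NL X Λ u D a := by
  intro δ hδ
  obtain ⟨K₁, hK₁⟩ := Pool.Agent.G3.tbd hP (δ := δ) (η := 1) (H := 1) (r := 5) (R := 6) hδ one_pos zero_le_one (by norm_num) (by norm_num)
  obtain ⟨K₂, hK₂⟩ := Pool.Agent.G3.tbd hP (δ := δ) (η := 1) (H := 1) (r := 5 / 2) (R := 6) hδ one_pos zero_le_one (by norm_num) (by norm_num)
  refine ⟨Real.exp (-10 * max K₁ K₂), Real.exp_pos _, ?_⟩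
  rintro y f ⟨F, ⟨hFd, hFX, hFl⟩, rfl⟩ z₀
  have hder : ∀ w : ℂ, deriv (fun z : ℂ => y + z • a) w = a := fun w => by
    have h1 : HasDerivAt (fun z : ℂ => y + z • a) ((1 : ℂ) • a) w := ((hasDerivAt_id w).smul_const a).const_add y
    rw [h1.deriv, one_smul]
  have hcv : ∀ z : ℂ, Pool.Agent.G3.Cv X Λ u (ball z 6) F fun w => y + w • a := fun z =>
    ⟨hFd.differentiableOn, ((differentiable_id.smul_const a).const_add y).differentiableOn, fun w _ => hFX w, fun w _ => hFl w⟩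
  have hF0 : ∀ z, F z ≠ 0 := fun z => ne_zero hX (hFX z)
  have hG : ∀ z ∈ {z : ℂ | y + z • a ∈ Gd D δ}, ‖z - z₀‖ ≤ 1 →
      Real.circleAverage (fun w => Real.log ‖F w‖) z 5 ≤ Real.log ‖F z‖ + max K₁ K₂ ∧
      Real.circleAverage (fun w => Real.log ‖F w‖) z (5 / 2) ≤ Real.log ‖F z‖ + max K₁ K₂ := by
    intro z hz _
    have h1 := hK₁ F (fun w => y + w • a) z (hcv z) (fun w _ => by rw [hder, ha]) hz (by rw [hder, ha])
    have h2 := hK₂ F (fun w => y + w • a) z (hcv z) (fun w _ => by rw [hder, ha]) hz (by rw [hder, ha])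
    unfold Pool.Agent.G3.TT at h1 h2
    have h3 := le_max_left K₁ K₂
    have h4 := le_max_right K₁ K₂
    constructor
    · linarith
    · linarith
  obtain ⟨φ, hφ, hle, hge⟩ := Pool.Agent.H56.G3.norm_lift (R := 7) le_rfl (hFd.differentiableOn (s := ball z₀ 7)) (fun z _ => hF0 z) hG
  refine ⟨fun z => Complex.exp (-φ z) • F z, (hφ.neg.cexp).smul hFd.differentiableOn, fun z hz => ⟨?_, ?_, hle z hz⟩, fun z hz hzG => ?_⟩
  · exact hX.smul_mem _ (hFX z) _ (Complex.exp_ne_zero _)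
  · exact (Pool.Agent.H62.EF.pr_smul _ (Complex.exp_ne_zero _)).symm
  · exact hge z hzG (by rwa [mem_closedBall, dist_eq_norm] at hz)

end Pool.Agent.G3.A

end

section

/-!
# G3 PS Main: `pP` has the properties `PS`

Take `C = 1 +` the constants of `pP_le_fs`, `du_bound` and `∑ ‖W i‖^2`; monotonicity in `C` of each field (`Sub.anti`, the circle average of a nonnegative function is nonnegative).
-/

set_option autoImplicit false

open Topology Filter Metric

namespace Pool.Agent.G3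

open Pool.Agent.H36.BP (EN fs wd Sub)
open Pool.Agent.H14.PP (IsCone CurveAt Tan)
open Pool.Agent.H62.EF (MN pr)
open Pool.Agent.AD (Vd Chart Charts)
open Pool.Agent.TG (TMap Lat Geo Gd)

variable {N k : ℕ} {X : Set (EN N)} {Λ : AddSubgroup (Vd (k + 1))} {u : EN N → Vd (k + 1)} {D : Set (Vd (k + 1))} {m J r : ℕ}
  {P : Fin J → SForm X Λ u m} {W : Fin r → Vd (k + 1) →L[ℂ] ℂ}

private theorem PSMain_avg_nonneg {g : ℂ → ℝ} (hg : ∀ w, 0 ≤ g w) (z : ℂ) (s : ℝ) : 0 ≤ Real.circleAverage g z s := by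
  unfold Real.circleAverage
  rw [smul_eq_mul]
  refine mul_nonneg (inv_nonneg.2 (by positivity)) ?_
  exact intervalIntegral.integral_nonneg (by positivity) fun θ _ => hg _

theorem ps_of_pdata (hX : IsCone X) (hch : Charts (k + 2) X) (hu : TMap X Λ u) (hΛ : Lat Λ) (hDc : IsClosed D) (hP : PData X Λ u D P W) :
    ∃ C : ℝ, PS X Λ u D (pP P W) m C := by
  obtain ⟨C₁, hC₁, h1⟩ := pP_le_fs hX hch hu hΛ hP
  obtain ⟨C₂, hC₂, h2⟩ := du_bound (u := u) hX hu hΛ
  have hfs : ∀ x v : EN N, 0 ≤ fs x v := fun x v => Pool.Agent.H36.BP.fs_nonneg x v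
  have hC₃ : 0 ≤ ∑ i, ‖W i‖ ^ 2 := Finset.sum_nonneg fun i _ => by positivity
  set C₃ : ℝ := ∑ i, ‖W i‖ ^ 2 with hC₃d
  refine ⟨1 + C₁ + C₂ + C₃, ?_⟩
  exact
    { m_pos := hP.m_pos
      C_ge := by linarith
      nonneg := pP_nonneg
      hom := fun x hx v hv a => pP_hom hx hv a
      le_fs := fun x hx v hv => by
        refine (h1 x hx v hv).trans ?_
        exact mul_le_mul_of_nonneg_right (by linarith) (pow_nonneg (hfs x v) m)
      ge_fs := fun δ hδ => pP_ge_fs hX hch hu hΛ hDc hP hδ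
      du := fun U F h hU hF z hz => by
        refine (h2 U F h hU hF z hz).trans ?_
        exact mul_le_mul_of_nonneg_right (by linarith) (hfs _ _)
      cont := fun U F h hU hF => pP_cont hX hP hU hF
      sub := fun U F h hU hF z hz h0 => by
        refine (pP_sub hX hP hU hF hz h0).anti ?_
        have : C₃ * ‖deriv h z‖ ^ 2 ≤ (1 + C₁ + C₂ + C₃) * ‖deriv h z‖ ^ 2 :=
          mul_le_mul_of_nonneg_right (by linarith) (by positivity)
        linarith
      jensen := fun U F h hU hF z s hs hz h0 => by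
        obtain ⟨ha, hb⟩ := pP_jensen hX hP hU hF hs hz h0
        refine ⟨ha, hb.trans ?_⟩
        have h3 : 0 ≤ Real.circleAverage (fun w => ‖h w - h z‖ ^ 2) z s := PSMain_avg_nonneg (fun w => by positivity) z s
        have : C₃ * Real.circleAverage (fun w => ‖h w - h z‖ ^ 2) z s ≤
            (1 + C₁ + C₂ + C₃) * Real.circleAverage (fun w => ‖h w - h z‖ ^ 2) z s :=
          mul_le_mul_of_nonneg_right (by linarith) h3
        linarith
      isol := fun U F h hU hF hUc h0 => pP_isol hX hP hU hF hUc h0 }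

end Pool.Agent.G3

end

section

/-!
# G4 A DAx: the data of block (A) from the hypotheses

`exists_lg4`: the geometry of the lines from `LDi D` (no line in `D`) and `Few (Ba D B a) a`.  `exists_da`: `LC`, `NL`, `DecW`; `CRL` at `p ∈ D`, `p ∉ Ba D B a` from `Crs` (`Z/Sit`) with the arc `γ z = p' + z • a`.
-/

set_option autoImplicit false

open Topology Filter Metric

namespace Pool.Agent.G4.A

open Pool.Agent.H36.BP (EN fs wd)
open Pool.Agent.H14.PP (IsCone CurveAt Tan)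
open Pool.Agent.H62.EF (MN pr)
open Pool.Agent.AD (Vd Chart Charts IsGerm)
open Pool.Agent.TG
open Pool.Agent.G3
open Pool.Agent.G3.A
open Pool.Agent.G3.C (Gc HP)

variable {N k : ℕ} {X : Set (EN N)} {Λ : AddSubgroup (Vd (k + 1))} {u : EN N → Vd (k + 1)} {D B Bad : Set (Vd (k + 1))} {a : Vd (k + 1)}

private theorem dax_trans {Γ : AddSubgroup (Vd (k + 1))} (hinv : ∀ y ∈ D, ∀ l ∈ Γ, y + l ∈ D) {β l a : Vd (k + 1)} (hl : l ∈ Γ) (h : TransAt D (β + l) a) :
    TransAt D β a := by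
  refine ⟨h.1, fun κ hκ q hq => ?_⟩
  have hfd : fderiv ℂ (fun q => κ q + l) 0 = fderiv ℂ κ 0 := by rw [fderiv_add_const]
  have hκ' : IsCoord D (fun q => κ q + l) (β + l) := by
    refine ⟨hκ.an.add analyticAt_const, by rw [hκ.zero], by rw [hfd]; exact hκ.inj, ?_⟩
    filter_upwards [hκ.mem_iff] with q hq
    rw [← hq]
    constructor
    · intro h1
      have h2 := hinv _ h1 _ (Γ.neg_mem hl)
      rwa [add_neg_cancel_right] at h2
    · intro h1
      exact hinv _ h1 l hl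
  have h1 := h.2 _ hκ' q hq
  rwa [hfd] at h1

theorem exists_lg4 (G : Geo X Λ u D B) (hB : ∀ β ∈ B, ∀ l ∈ Λ, β + l ∈ B) (hL : Pool.Agent.G4.LDi D) (ha : ‖a‖ = 1) (hfew : Pool.Agent.G4.Few (Ba D B a) a) :
    LG Λ D (Ba D B a) a := by
  have ha0 : a ≠ 0 := by
    intro h
    rw [h, norm_zero] at ha
    exact zero_ne_one ha
  refine ⟨ha, G.lat, G.D_closed, G.D_inv, fun q hq => hq.1, ?_, fun y => ?_, hfew⟩
  · intro β hβ l hl
    refine ⟨G.D_inv β hβ.1 l hl, ?_⟩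
    rcases hβ.2 with h | h
    · exact Or.inl (hB β h l hl)
    · exact Or.inr fun h' => h (dax_trans G.D_inv hl h')
  · refine (hL a ha0 y 0).mono fun w hw => ?_
    rwa [add_comm y (w • a)]

/-- crossing for lines, from the crossing for arcs -/
private theorem DAx_cr (hcr : Pool.Agent.G3.Crs X Λ u D B) {p : Vd (k + 1)} (hp : p ∈ D) (hpB : p ∉ B) (ht : TransAt D p a) : CRL X Λ u D a p := by
  obtain ⟨s₁, hs₁, h⟩ := hcr p a hp hpB ht
  intro η hη
  obtain ⟨s₀, ρ₀, h1, h2, h3, h4, -, h5⟩ := h η hη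
  refine ⟨s₀, ρ₀, h1, h2.le, h4, fun δ ε ε₀ hc => ?_⟩
  obtain ⟨ε₁, h6, h7, h8⟩ := h5 δ ε ε₀ hc
  refine ⟨ε₁, h6, h7, fun p' hp' hG α F H hFd hF hHd hH hdist => ?_⟩
  have hd : Differentiable ℂ fun z : ℂ => p' + z • a := (differentiable_id.smul_const a).const_add p'
  refine h8 (fun z => p' + z • a) hd.differentiableOn (fun z _ => ?_) hG α F H ⟨hFd, hd.differentiableOn, fun z hz => (hF z hz).1, fun z hz => (hF z hz).2⟩
    ⟨hHd, hd.differentiableOn, fun z hz => (hH z hz).1, fun z hz => (hH z hz).2⟩ hdist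
  rw [mem_ball_iff_norm] at hp'
  have e : p' + z • a - (p + z • a) = p' - p := by abel
  rw [e]
  exact hp'.le

theorem exists_da {p : EN N → EN N → ℝ} {m J r : ℕ} {C : ℝ} {α : Fin J → VForm X Λ u} {Γ : AddSubgroup (Vd (k + 1))} {W : Fin r → Vd (k + 1) →L[ℂ] ℂ} (G : Geo X Λ u D B)
    (hB : ∀ β ∈ B, ∀ l ∈ Λ, β + l ∈ B) (hL : Pool.Agent.G4.LDi D) (hP : Pool.Agent.G3.PS X Λ u D p m C) (hcr : Pool.Agent.G3.Crs X Λ u D B) (hF : Frm X Λ u D Γ W α) (ha : ‖a‖ = 1)
    (hfew : Pool.Agent.G4.Few (Ba D B a) a) : ∃ c₀ C₀ ρ δ : ℝ, DA X Λ u D B (Ba D B a) a Γ W α c₀ C₀ ρ δ := by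
  have hlg : LG Λ D (Ba D B a) a := exists_lg4 G hB hL ha hfew
  obtain ⟨c₀, hc₀, hwt⟩ := Pool.Agent.G4.wt_ge hF.pos
  obtain ⟨C₀, hC₀, hdec⟩ := decW G hF
  obtain ⟨δ₀, hδ₀, hlc'⟩ := exists_lc hlg (ρ := 1 / 8) (by norm_num) le_rfl
  have hgood : ∀ q ∈ D, q ∉ Ba D B a → q ∉ B ∧ TransAt D q a := by
    intro q hq hqb
    refine ⟨fun h => hqb ⟨hq, Or.inl h⟩, ?_⟩
    by_contra h
    exact hqb ⟨hq, Or.inr h⟩
  exact ⟨c₀, C₀, 1 / 8, δ₀,
    { geo := G
      lg := hlg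
      lc := hlc' δ₀ hδ₀ le_rfl
      nl := exists_nl G.cone hP ha
      c_pos := hc₀
      C_pos := hC₀
      wtc := hwt
      dec := hdec
      frm := hF
      cr := fun q hq hqb => DAx_cr hcr hq (hgood q hq hqb).1 (hgood q hq hqb).2
      good := hgood }⟩

end Pool.Agent.G4.A

end
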