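import Pool.Agent.H94.G4T.M114
import Pool.Agent.H94.G4T.M139
import Pool.Agent.H94.G4T.M141
import Pool.Agent.H94.G4T.M144
import Pool.Agent.H94.G4T.M145
import Pool.Agent.H94.G4T.M146
import Pool.Agent.H94.G4T.M71

/-! The parts of this file: G4.H.Sml, G4.F.Main, G3.F.ConE, G3.F.ConP, G4.F.ConD. -/

section

/-!
# G4 H Sml: few bad points, if the set of the bad points is covered by polydiscs of codimension `2`

`ba_closed'`, `ba_inv`: the set of the bad points is closed and invariant.  `few_ba`: it has few hits with the lines.  `exists_over`: a point of the cone over a point `y ∉ D`.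
-/

set_option autoImplicit false

open Topology Filter Metric MvPolynomial

namespace Pool.Agent.G4.H

open Pool.Agent.H17 (PN VanishesAt)
open Pool.Agent.H62.FC (Homog)
open Pool.Agent.H17LG.Variety (FunField)
open Pool.Agent.H17EF (projVar coneE LE mem_coneE mk_mem_projVar)
open Pool.Agent.H36.BP (EN)
open Pool.Agent.AD (Vd uV)
open Pool.Agent.TG (Lat VForm TransAt IsCoord)
open Pool.Agent.TGF (Cn)
open Pool.Agent.G3.A (Frm Ba)

variable {N k : ℕ} {X : Set (EN N)} {Λ Γ : AddSubgroup (Vd (k + 1))} {u : EN N → Vd (k + 1)} {D B : Set (Vd (k + 1))} {J r : ℕ}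
  {W : Fin r → Vd (k + 1) →L[ℂ] ℂ} {α : Fin J → VForm X Λ u} {a : Vd (k + 1)}

theorem ba_closed' (hD : IsClosed D) (hB : IsClosed B) (hco : ∀ y ∈ D, y ∉ B → ∃ κ : Vd (k + 1) → Vd (k + 1), IsCoord D κ y) : IsClosed (Ba D B a) := by
  rw [← isOpen_compl_iff, isOpen_iff_mem_nhds]
  intro q hq
  by_cases hqD : q ∈ D
  · have hq1 : ¬ (q ∈ B ∨ ¬ TransAt D q a) := fun h => hq ⟨hqD, h⟩
    push Not at hq1
    obtain ⟨κ, hκ⟩ := hco q hqD hq1.1
    have h1 : ∀ᶠ y in 𝓝 q, y ∉ B := hB.isOpen_compl.mem_nhds hq1.1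
    filter_upwards [h1, Pool.Agent.G4.A.trans_open hκ hq1.2] with y h2 h3 h4
    rcases h4.2 with h5 | h5
    · exact h2 h5
    · exact h5 (h3 h4.1)
  · have h1 : ∀ᶠ y in 𝓝 q, y ∉ D := hD.isOpen_compl.mem_nhds hqD
    filter_upwards [h1] with y h2 h3
    exact h2 h3.1

theorem ba_inv (hDi : ∀ y ∈ D, ∀ l ∈ Λ, y + l ∈ D) (hBi : ∀ y ∈ B, ∀ l ∈ Λ, y + l ∈ B) : ∀ y ∈ Ba D B a, ∀ l ∈ Λ, y + l ∈ Ba D B a := by
  intro β hβ l hl
  refine ⟨hDi β hβ.1 l hl, ?_⟩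
  rcases hβ.2 with h | h
  · exact Or.inl (hBi β h l hl)
  · refine Or.inr fun h' => h ⟨h'.1, fun κ hκ q hq => ?_⟩
    have hfd : fderiv ℂ (fun q => κ q + l) 0 = fderiv ℂ κ 0 := by rw [fderiv_add_const]
    have hκ' : IsCoord D (fun q => κ q + l) (β + l) := by
      refine ⟨hκ.an.add analyticAt_const, by rw [hκ.zero], by rw [hfd]; exact hκ.inj, ?_⟩
      filter_upwards [hκ.mem_iff] with q hq
      rw [← hq]
      constructor
      · intro h1
        have h2 := hDi _ h1 _ (Λ.neg_mem hl)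
        rwa [add_neg_cancel_right] at h2
      · intro h1
        exact hDi _ h1 l hl
    have h1 := h'.2 _ hκ' q hq
    rwa [hfd] at h1

theorem few_ba (hΛ : Lat Λ) (hs : Simp Λ) (hF : Frm X Λ u D Γ W α) (hx : ∃ y ∉ D, ∃ x ∈ X, u x - y ∈ Λ) (hDc : IsClosed D) (hDi : ∀ y ∈ D, ∀ l ∈ Λ, y + l ∈ D)
    (hBc : IsClosed B) (hBi : ∀ y ∈ B, ∀ l ∈ Λ, y + l ∈ B) (hco : ∀ y ∈ D, y ∉ B → ∃ κ : Vd (k + 1) → Vd (k + 1), IsCoord D κ y) (hZ : Cov (Ba D B a)) (ha : a ≠ 0) :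
    Few (Ba D B a) a :=
  few_of_cov hΛ hs hF hx (ba_closed' hDc hBc hco) (ba_inv hDi hBi) hZ ha

/-- a point of the cone over a point outside `D` -/
theorem exists_over {P : Ideal (MvPolynomial (Fin (N + 1)) ℂ)} [P.IsPrime] (hP : Homog P) (hdim : ∃ z : Fin (k + 2) → FunField P, IsTranscendenceBasis ℂ z)
    {Λ : AddSubgroup (Cn (k + 1))} {u : PN N → Cn (k + 1) ⧸ Λ} {D : Set (Cn (k + 1))}
    (hR : ∃ (e : ℕ) (R : MvPolynomial (Fin (N + 1)) ℂ), R.IsHomogeneous e ∧ R ∉ P ∧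
      ∀ x ∈ projVar P, (∃ y ∈ D, u x = (y : Cn (k + 1) ⧸ Λ)) → VanishesAt R x) :
    ∃ y ∉ D, ∃ x ∈ coneE P, uV Λ u x - y ∈ Λ := by
  obtain ⟨z, hz⟩ := hdim
  obtain ⟨e, R, hRe, hRP, hRv⟩ := hR
  obtain ⟨j₀, hj₀⟩ := Pool.Agent.H92.GT.Proj.exists_coordFun_ne_zero P z hz
  have hXP : ∃ i, (MvPolynomial.X i : MvPolynomial (Fin (N + 1)) ℂ) ∉ P := ⟨j₀, Pool.Agent.H17R.coordFun_ne_zero_iff.1 hj₀⟩
  obtain ⟨x, hx, hxR⟩ := Pool.Agent.H17EF.exists_point hP hXP hRP hRe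
  obtain ⟨y, hy⟩ := QuotientAddGroup.mk_surjective (u x)
  have h1 : (LE N).symm (LE N x.rep) = x.rep := (LE N).symm_apply_apply x.rep
  have h0 : (LE N).symm (LE N x.rep) ≠ 0 := by
    rw [h1]
    exact x.rep_nonzero
  refine ⟨y, fun hyD => hxR (hRv x hx ⟨y, hyD, hy.symm⟩), LE N x.rep, ?_, ?_⟩
  · refine (mem_coneE hP).2 ?_
    rw [h1]
    exact ⟨x.rep_nonzero, by rw [x.mk_rep]; exact hx⟩
  · rw [Pool.Agent.AD.sub_mem_iff, Pool.Agent.AD.uV_eq Λ u h0]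
    have h3 : ∀ (w : Fin (N + 1) → ℂ) (hw : w ≠ 0), w = x.rep → Projectivization.mk ℂ w hw = x := by
      rintro _ hw rfl
      exact x.mk_rep
    rw [h3 _ h0 h1]
    exact hy.symm

end Pool.Agent.G4.H

end

section

/-!
# G4 F Main: the final theorem

`X` is a smooth projective variety of dimension `k + 2`, `u` a holomorphic map to a simple complex torus `ℂ^(k+1) / Λ`.  The set `B` is replaced by `B ∩ D` (for `k = 1`, `B` finite modulo `Λ`: by `(B + Λ) ∩ D`),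
closed and invariant, with few bad points (`exists_B`; by theta functions, `H/Sml`).
-/

set_option autoImplicit false

open Topology Filter Metric MvPolynomial

namespace Pool.Agent.G4

open Pool.Agent.H17 (PN VanishesAt HolomorphicInto puncturedDisc)
open Pool.Agent.H62.FC (Homog)
open Pool.Agent.H17LG.Variety (FunField IsLogGeneralType)
open Pool.Agent.H17EF (projVar coneE LE mem_coneE mk_mem_projVar)
open Pool.Agent.H36.BP (EN fs wd Sub Curve)
open Pool.Agent.H14.PP (IsCone CurveAt Tan)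
open Pool.Agent.H62.EF (MN pr)
open Pool.Agent.AD (Vd Chart Charts uV IsHolomorphicTorusMap)
open Pool.Agent.TG (TMap Lat Geo Gd VForm Fb TransAt)
open Pool.Agent.TGF (Cn Over IsAnalyticSubset)
open Pool.Agent.G3.A (Ba Frm)
open Pool.Agent.G3.E (BL sub_bl bl_inv bl_fin)
open Pool.Agent.G3F (HasTopForms HasSymmetricForms TorusHyperbolic)
open Pool.Agent.G4F (IsSimple IsBadPoint IsSmall IsSingularLocus HasJetForms)

variable {N k : ℕ}

theorem Few.mono {B B' : Set (Vd (k + 1))} {a : Vd (k + 1)} (h : Few B' a) (hle : B ⊆ B') : Few B a := by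
  intro ε hε
  obtain ⟨C, hC⟩ := h ε hε
  exact ⟨C, fun y R hR S hS => hC y R hR S fun z hz => ⟨(hS z hz).1, hle (hS z hz).2⟩⟩

theorem ba_sub {D B : Set (Vd (k + 1))} {a q : Vd (k + 1)} (ha : a ≠ 0) (h : q ∈ Ba D B a) : IsBadPoint D B a q := by
  refine ⟨h.1, h.2.imp id fun h1 => ?_⟩
  have h2 : ¬ ∀ κ : Vd (k + 1) → Vd (k + 1), Pool.Agent.TG.IsCoord D κ q → ∀ v : Vd (k + 1), v 0 = 0 → fderiv ℂ κ 0 v ≠ a := fun h3 => h1 ⟨ha, h3⟩
  push Not at h2
  obtain ⟨κ, hκ, v, hv, hva⟩ := h2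
  exact ⟨κ, ⟨hκ.an, hκ.zero, fun v hv => hκ.inj (by rw [hv, map_zero]), hκ.mem_iff⟩, v, hv, hva⟩

theorem ba_inter {D B : Set (Vd (k + 1))} {a : Vd (k + 1)} : Ba D (B ∩ D) a ⊆ Ba D B a := by
  rintro q ⟨h1, h2⟩
  exact ⟨h1, h2.imp (fun h => h.1) id⟩

theorem cov_ba {D B : Set (Vd (k + 1))} {a : Vd (k + 1)} (ha : a ≠ 0) (h : Pool.Agent.G4F.IsCovered {q | IsBadPoint D B a q}) : H.Cov (Ba D B a) := by
  have e : Ba D B a = {q | IsBadPoint D B a q} := by
    ext q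
    refine ⟨fun h => ba_sub ha h, fun h => ⟨h.1, h.2.imp id ?_⟩⟩
    rintro ⟨κ, hκ, v, hv, hva⟩ h1
    exact h1.2 κ ⟨hκ.holomorphic, hκ.point, (injective_iff_map_eq_zero _).2 hκ.immersion, hκ.mem_iff⟩ v hv hva
  rw [e]
  exact h

/-- the set `B` can be taken closed and invariant, in `D`, with few bad points -/
theorem exists_B (Λ : AddSubgroup (Cn (k + 1))) [DiscreteTopology Λ] (hΛ : Lat Λ) (hs : Simp Λ) {D B : Set (Cn (k + 1))} (hD : IsAnalyticSubset D) (hDu : D ≠ Set.univ)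
    (hDi : ∀ y ∈ D, ∀ l ∈ Λ, y + l ∈ D) (hco : ∀ y ∈ D, y ∉ B → ∃ κ : Vd (k + 1) → Vd (k + 1), Pool.Agent.TG.IsCoord D κ y)
    {X : Set (EN N)} {v : EN N → Vd (k + 1)} {Γ : AddSubgroup (Vd (k + 1))} {J r : ℕ} {W : Fin r → Vd (k + 1) →L[ℂ] ℂ} {α : Fin J → VForm X Λ v} (hF : Frm X Λ v D Γ W α)
    (hx : ∃ y ∉ D, ∃ x ∈ X, v x - y ∈ Λ) (hB : IsSmall Λ D B) :
    ∃ B' : Set (Cn (k + 1)), IsClosed B' ∧ (∀ b ∈ B', ∀ l ∈ Λ, b + l ∈ B') ∧ B' ⊆ D ∧ (∀ y ∈ D, y ∉ B' → y ∉ B) ∧ ∀ a : Vd (k + 1), a ≠ 0 → Few (Ba D B' a) a := by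
  obtain ⟨B₁, h1, h2, h3, h4⟩ : ∃ B' : Set (Cn (k + 1)), IsClosed B' ∧ (∀ b ∈ B', ∀ l ∈ Λ, b + l ∈ B') ∧ B ⊆ B' ∧ ∀ a : Vd (k + 1), a ≠ 0 → Few (Ba D B' a) a := by
    rcases hB with ⟨rfl, hB⟩ | ⟨h1, h2, h3⟩
    · refine ⟨BL B Λ, bl_closed hB, bl_inv, sub_bl, fun a ha => few_one hΛ hs hD.isClosed hDi hD hDu (bl_fin hB) (fun y hy hyB => hco y hy fun h => hyB (sub_bl h)) ha⟩
    · exact ⟨B, h1, h2, subset_rfl, fun a ha => H.few_ba hΛ hs hF hx hD.isClosed hDi h1 h2 hco (cov_ba ha (h3 a ha)) ha⟩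
  exact ⟨B₁ ∩ D, h1.inter hD.isClosed, fun b hb l hl => ⟨h2 b hb.1 l hl, hDi b hb.2 l hl⟩, Set.inter_subset_right, fun y hy hyB h => hyB ⟨h3 h, hy⟩,
    fun a ha => (h4 a ha).mono ba_inter⟩

end Pool.Agent.G4

end

section

/-!
# G3 F ConE: the forms on the cone

As `TGF.vform` (`TG/GuF`; only the periodicity is different); `over_iff`, `isTangent_iff`, `gu_lat_sub`.
-/

set_option autoImplicit false

open Topology Filter Metric MvPolynomial

namespace Pool.Agent.G3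

open Pool.Agent.H17 (PN VanishesAt HolomorphicInto puncturedDisc)
open Pool.Agent.H62.FC (Homog)
open Pool.Agent.H17LG.Variety (FunField IsLogGeneralType)
open Pool.Agent.H17EF (projVar coneE LE mem_coneE mk_mem_projVar)
open Pool.Agent.H36.BP (EN fs wd Sub Curve)
open Pool.Agent.H14.PP (IsCone CurveAt Tan)
open Pool.Agent.H62.EF (MN pr)
open Pool.Agent.AD (Vd Chart Charts uV IsHolomorphicTorusMap)
open Pool.Agent.TG (TMap Lat Geo Gd VForm Fb)
open Pool.Agent.TGF (Cn Over IsDiscriminant)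
open Pool.Agent.G3F

variable {N k : ℕ} {P : Ideal (MvPolynomial (Fin (N + 1)) ℂ)} {Λ : AddSubgroup (Cn (k + 1))} {u : PN N → Cn (k + 1) ⧸ Λ} {D B : Set (Cn (k + 1))}

/-- the form on the covering of the cone -/
private noncomputable def tform (hP : Homog P) {Γ : AddSubgroup (Cn (k + 1))} {r : ℕ} {W : Fin r → Cn (k + 1) →L[ℂ] ℂ}
    {Ω : Cn (k + 1) → Cn (N + 1) → (Fin (k + 2) → Cn (N + 1)) → ℂ} (hΩ : IsTwistedTopForm (projVar P) Λ Γ u W Ω) :
    VForm (coneE P) Λ (uV Λ u) where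
  toFun y x v := Ω y ((LE N).symm x) fun i => (LE N).symm (v i)
  add_smul := by
    intro y x hx hy v hv a
    have h1 := hΩ.horizontal y _ ((Pool.Agent.TGF.over_iff hP).2 ⟨hx, hy⟩) (fun i => (LE N).symm (v i))
      (fun i => (Pool.Agent.H17G.isTangent_iff hP hx).2 (hv i)) a
    rw [← h1]
    congr 1
  det := by
    intro y x hx hy v hv A
    have h1 := hΩ.alternating y _ ((Pool.Agent.TGF.over_iff hP).2 ⟨hx, hy⟩) (fun i => (LE N).symm (v i))
      (fun i => (Pool.Agent.H17G.isTangent_iff hP hx).2 (hv i)) A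
    rw [← h1]
    congr 1
    funext i
    rw [map_sum]
    exact Finset.sum_congr rfl fun j _ => map_smul _ _ _
  scale := by
    intro y x hx hy v hv c hc
    have h1 := hΩ.homogeneous y _ ((Pool.Agent.TGF.over_iff hP).2 ⟨hx, hy⟩) (fun i => (LE N).symm (v i))
      (fun i => (Pool.Agent.H17G.isTangent_iff hP hx).2 (hv i)) c hc
    rw [← h1, map_smul]
    congr 1
  analytic := by
    intro φ υ p hφ hυ hφX
    have h1 : AnalyticAt ℂ (fun y => (LE N).symm (φ y)) p := (((LE N).symm : EN N →L[ℂ] (Fin (N + 1) → ℂ)).analyticAt _).comp hφ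
    have h2 := hΩ.holomorphic _ υ p h1 hυ (by
      filter_upwards [hφX] with y hy
      exact (Pool.Agent.TGF.over_iff hP).2 hy)
    refine h2.congr ?_
    filter_upwards [hφ.eventually_analyticAt] with y hy
    have h3 : HasFDerivAt (fun y => (LE N).symm (φ y)) (((LE N).symm : EN N →L[ℂ] (Fin (N + 1) → ℂ)).comp (fderiv ℂ φ y)) y :=
      ((LE N).symm : EN N →L[ℂ] (Fin (N + 1) → ℂ)).hasFDerivAt.comp y hy.differentiableAt.hasFDerivAt
    rw [h3.fderiv]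
    rfl

theorem frm_of (hP : Homog P) (hΛ : Lat Λ) (h : HasTopForms (projVar P) Λ u D) :
    ∃ (Γ : AddSubgroup (Vd (k + 1))) (r J : ℕ) (W : Fin r → Vd (k + 1) →L[ℂ] ℂ) (α : Fin J → VForm (coneE P) Λ (uV Λ u)), A.Frm (coneE P) Λ (uV Λ u) D Γ W α := by
  obtain ⟨Γ, r, J, W, Ω, hle, hspan, hpos, hΩ, hsep⟩ := h
  refine ⟨Γ, r, J, W, fun j => tform hP (hΩ j), ⟨Pool.Agent.TGF.gu_lat_sub hΛ hle hspan, hle, hpos, ?_, ?_⟩⟩
  · intro j l hl
    obtain ⟨L, c, h1, h2⟩ := (hΩ j).quasiPeriodic l hl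
    refine ⟨L, c, h1, fun y x hx hy v hv => ?_⟩
    exact h2 y _ ((Pool.Agent.TGF.over_iff hP).2 ⟨hx, hy⟩) _ (fun i => (Pool.Agent.H17G.isTangent_iff hP hx).2 (hv i))
  · intro y hy x hx hxy
    obtain ⟨j, v, hv, hne⟩ := hsep y hy _ ((Pool.Agent.TGF.over_iff hP).2 ⟨hx, hxy⟩)
    refine ⟨j, fun i => (LE N) (v i), fun i => (Pool.Agent.H17G.isTangent_iff hP hx).1 ?_, ?_⟩
    · rw [ContinuousLinearEquiv.symm_apply_apply]
      exact hv i
    · have h1 : (fun i => (LE N).symm ((LE N) (v i))) = v := funext fun i => ContinuousLinearEquiv.symm_apply_apply _ _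
      change Ω j y ((LE N).symm x) (fun i => (LE N).symm ((LE N) (v i))) ≠ 0
      rw [h1]
      exact hne

end Pool.Agent.G3

end

section

/-!
# G3 F ConP: the symmetric differentials on the cone

As `TGF.vform` (`TG/GuF`); `over_iff`, `isTangent_iff`.
-/

set_option autoImplicit false

open Topology Filter Metric MvPolynomial

namespace Pool.Agent.G3

open Pool.Agent.H17 (PN VanishesAt HolomorphicInto puncturedDisc)
open Pool.Agent.H62.FC (Homog)
open Pool.Agent.H17LG.Variety (FunField IsLogGeneralType)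
open Pool.Agent.H17EF (projVar coneE LE mem_coneE mk_mem_projVar)
open Pool.Agent.H36.BP (EN fs wd Sub Curve)
open Pool.Agent.H14.PP (IsCone CurveAt Tan)
open Pool.Agent.H62.EF (MN pr)
open Pool.Agent.AD (Vd Chart Charts uV IsHolomorphicTorusMap)
open Pool.Agent.TG (TMap Lat Geo Gd VForm Fb)
open Pool.Agent.TGF (Cn Over IsDiscriminant)
open Pool.Agent.G3F

variable {N k : ℕ} {P : Ideal (MvPolynomial (Fin (N + 1)) ℂ)} {Λ : AddSubgroup (Cn (k + 1))} {u : PN N → Cn (k + 1) ⧸ Λ} {D B : Set (Cn (k + 1))}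

/-- the symmetric differential on the cone -/
private noncomputable def ConP_sform (hP : Homog P) {m r : ℕ} {W : Fin r → Cn (k + 1) →L[ℂ] ℂ} {S : Cn (k + 1) → Cn (N + 1) → Cn (N + 1) → ℂ}
    (hS : IsTwistedSymmetricForm (projVar P) Λ u m W S) : SForm (coneE P) Λ (uV Λ u) m where
  toFun y x v := S y ((LE N).symm x) ((LE N).symm v)
  add_smul := by
    intro y x hx hy v hv a
    have h1 := hS.horizontal y _ ((Pool.Agent.TGF.over_iff hP).2 ⟨hx, hy⟩) ((LE N).symm v) ((Pool.Agent.H17G.isTangent_iff hP hx).2 hv) a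
    rw [← h1, map_add, map_smul]
  hom := by
    intro y x hx hy v hv a
    have h1 := hS.degree y _ ((Pool.Agent.TGF.over_iff hP).2 ⟨hx, hy⟩) ((LE N).symm v) ((Pool.Agent.H17G.isTangent_iff hP hx).2 hv) a
    rw [← h1, map_smul]
  scale := by
    intro y x hx hy v hv c hc
    have h1 := hS.homogeneous y _ ((Pool.Agent.TGF.over_iff hP).2 ⟨hx, hy⟩) ((LE N).symm v) ((Pool.Agent.H17G.isTangent_iff hP hx).2 hv) c hc
    rw [← h1, map_smul, map_smul]
  analytic := by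
    intro r φ υ p w hφ hυ hφX
    have h1 : AnalyticAt ℂ (fun y => (LE N).symm (φ y)) p := (((LE N).symm : EN N →L[ℂ] (Fin (N + 1) → ℂ)).analyticAt _).comp hφ
    have h2 := hS.holomorphic r _ υ p w h1 hυ (by
      filter_upwards [hφX] with y hy
      exact (Pool.Agent.TGF.over_iff hP).2 hy)
    refine h2.congr ?_
    have h4 : ∀ᶠ q : Vd r × Vd r in 𝓝 (p, w), AnalyticAt ℂ φ q.1 := continuousAt_fst.eventually hφ.eventually_analyticAt
    filter_upwards [h4] with y hy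
    have h3 : HasFDerivAt (fun y => (LE N).symm (φ y)) (((LE N).symm : EN N →L[ℂ] (Fin (N + 1) → ℂ)).comp (fderiv ℂ φ y.1)) y.1 :=
      ((LE N).symm : EN N →L[ℂ] (Fin (N + 1) → ℂ)).hasFDerivAt.comp y.1 hy.differentiableAt.hasFDerivAt
    rw [h3.fderiv]
    rfl

theorem pdata_of (hP : Homog P) (h : HasSymmetricForms (projVar P) Λ u D) :
    ∃ (m J r : ℕ) (S : Fin J → SForm (coneE P) Λ (uV Λ u) m) (W : Fin r → Vd (k + 1) →L[ℂ] ℂ), PData (coneE P) Λ (uV Λ u) D S W := by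
  obtain ⟨m, r, J, W, S, hm, hS, hz⟩ := h
  refine ⟨m, J, r, fun j => ConP_sform hP (hS j), W, hm, ?_, ?_⟩
  · intro j y l hl x hx hy v hv
    exact (hS j).quasiPeriodic y l hl _ ((Pool.Agent.TGF.over_iff hP).2 ⟨hx, hy⟩) _ ((Pool.Agent.H17G.isTangent_iff hP hx).2 hv)
  · intro y hy x hx hxy v hv h0
    obtain ⟨c, hc⟩ := hz y hy _ ((Pool.Agent.TGF.over_iff hP).2 ⟨hx, hxy⟩) ((LE N).symm v) ((Pool.Agent.H17G.isTangent_iff hP hx).2 hv) h0
    refine ⟨c, ?_⟩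
    rw [← map_smul] at hc
    exact (LE N).symm.injective hc

end Pool.Agent.G3

end

section

/-!
# G4 F ConD: the geometry of the cone, any dimension

As `G3/F/ConD` and `TGF.geo_of`, with the line condition on `B` from the few hits (`ae_lines`).
`con_fib`: an entire curve `F` in the cone over a point `y ∉ D` is a curve `Cv X Λ u univ F (fun _ => y)`; `ps_of_pdata` and `ahl` with `H = 0` and `r → ∞` give `pf p F = 0`, `PS.ge_fs` gives
`fs (F z) (F' z) = 0`.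
-/

set_option autoImplicit false

open Topology Filter Metric MvPolynomial

namespace Pool.Agent.G4

open Pool.Agent.H17 (PN VanishesAt HolomorphicInto puncturedDisc)
open Pool.Agent.H62.FC (Homog)
open Pool.Agent.H17LG.Variety (FunField IsLogGeneralType)
open Pool.Agent.H17EF (projVar coneE LE mem_coneE mk_mem_projVar)
open Pool.Agent.H36.BP (EN fs wd Sub Curve)
open Pool.Agent.H14.PP (IsCone CurveAt Tan)
open Pool.Agent.H62.EF (MN pr)
open Pool.Agent.AD (Vd Chart Charts uV uV_eq sub_mem_iff IsHolomorphicTorusMap)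
open Pool.Agent.TG (TMap Lat Geo Gd VForm Fb)
open Pool.Agent.TGF (Cn Over IsAnalyticSubset Submersion IsCoord NormalCrossing)
open Pool.Agent.G3 (Cv pf PS pP pdata_of ps_of_pdata ahl)
open Pool.Agent.G3F (HasSymmetricForms)

variable {N k : ℕ}

private theorem ConD_gd {D : Set (Cn (k + 1))} (hD : IsClosed D) {y : Cn (k + 1)} (hy : y ∉ D) : ∃ δ : ℝ, 0 < δ ∧ y ∈ Gd D δ := by
  obtain ⟨δ, hδ, hball⟩ := Metric.isOpen_iff.1 hD.isOpen_compl y hy
  refine ⟨δ, hδ, fun b hb => ?_⟩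
  by_contra hlt
  push Not at hlt
  have h1 : b ∈ ball y δ := by
    rw [mem_ball, dist_comm, dist_eq_norm]
    exact hlt
  exact hball h1 hb

private theorem ConD_zero {a C : ℝ} {m : ℕ} (hm : 1 ≤ m) (h : ∀ r : ℝ, 0 < r → a ≤ (C * (1 / r + 0)) ^ m) : a ≤ 0 := by
  have h1 : Tendsto (fun r : ℝ => (C * (1 / r + 0)) ^ m) atTop (𝓝 ((C * (0 + 0)) ^ m)) := by
    have h0 : Tendsto (fun r : ℝ => 1 / r) atTop (𝓝 0) := by
      simpa only [one_div] using (tendsto_inv_atTop_zero (𝕜 := ℝ))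
    exact ((h0.add tendsto_const_nhds).const_mul C).pow m
  have h2 : ((C * (0 + 0) : ℝ)) ^ m = 0 := by
    rw [add_zero, mul_zero]
    exact zero_pow (by omega)
  rw [h2] at h1
  refine ge_of_tendsto h1 ?_
  filter_upwards [eventually_gt_atTop 0] with r hr
  exact h r hr

/-- the fibres off `D` contain no entire curves -/
theorem con_fib {P : Ideal (MvPolynomial (Fin (N + 1)) ℂ)} [P.IsPrime] (hP : Homog P) (hdim : ∃ z : Fin (k + 2) → FunField P, IsTranscendenceBasis ℂ z)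
    (hsmooth : Pool.Agent.AD.NC.IsSmooth P (k + 2)) {Λ : AddSubgroup (Cn (k + 1))} [DiscreteTopology Λ] (hspan : Submodule.span ℝ (Λ : Set (Cn (k + 1))) = ⊤)
    {u : PN N → Cn (k + 1) ⧸ Λ} (hu : IsHolomorphicTorusMap (projVar P) Λ u) {D : Set (Cn (k + 1))} (hDc : IsClosed D)
    (hS : HasSymmetricForms (projVar P) Λ u D) : ∀ y ∉ D, ∀ F : ℂ → EN N, Differentiable ℂ F → (∀ z, F z ∈ coneE P) → (∀ z, uV Λ u (F z) - y ∈ Λ) →
    ∀ z w, ∃ c : ℂ, F z = c • F w := by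
  intro y hy F hF hFX hFy
  have hcv : Cv (coneE P) Λ (uV Λ u) Set.univ F fun _ => y :=
    ⟨hF.differentiableOn, differentiableOn_const _, fun z _ => hFX z, fun z _ => hFy z⟩
  obtain ⟨m, J, r, S, W, hPD⟩ := pdata_of (D := D) hP hS
  obtain ⟨C, hps⟩ := ps_of_pdata (Pool.Agent.AD.isCone_coneE hP) (Pool.Agent.TGF.gu_charts hP hdim hsmooth) (Pool.Agent.TGF.gu_tor hP hu)
    (Pool.Agent.TGF.gu_lat Λ hspan) hDc hPD
  obtain ⟨C₁, hC₁, hahl⟩ := ahl hps
  obtain ⟨δ, hδ, hyδ⟩ := ConD_gd hDc hy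
  obtain ⟨c, hc, hge⟩ := hps.ge_fs δ hδ
  have h0 : ∀ z, fs (F z) (deriv F z) = 0 := by
    intro z
    have h1 : pf (pP S W) F z ≤ 0 := by
      refine ConD_zero (C := C₁) hps.m_pos fun r hr => ?_
      refine hahl F (fun _ => y) z r 0 hr le_rfl (hcv.mono (Set.subset_univ _)) fun w _ => ?_
      rw [deriv_const, norm_zero]
    have h2 := hge y hyδ (F z) (hFX z) (hFy z) (deriv F z) (hcv.tan isOpen_univ (Set.mem_univ z))
    have h3 : c * fs (F z) (deriv F z) ^ m ≤ 0 := h2.trans h1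
    have h4 : fs (F z) (deriv F z) ^ m ≤ 0 := by
      by_contra h5
      push Not at h5
      have := mul_pos hc h5
      linarith
    have h5 : 0 ≤ fs (F z) (deriv F z) := Pool.Agent.H36.BP.fs_nonneg _ _
    have h6 : fs (F z) (deriv F z) ^ m = 0 := le_antisymm h4 (pow_nonneg h5 m)
    have hm := hps.m_pos
    exact (pow_eq_zero_iff (by omega)).1 h6
  have hne : ∀ z, (F z).ofLp ≠ 0 := fun z => (hFX z).1
  have hne' : ∀ z, F z ≠ 0 := fun z h => hne z (by rw [h]; rfl)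
  have hwd : ∀ z, wd (F z) (deriv F z) = 0 := by
    intro z
    have h1 := h0 z
    unfold fs at h1
    rcases div_eq_zero_iff.1 h1 with h2 | h2
    · exact h2
    · exact absurd (pow_eq_zero_iff (by norm_num)|>.1 h2) (norm_ne_zero_iff.2 (hne' z))
  obtain ⟨f, hf⟩ : ∃ f : ℂ → PN N, f = fun z => Projectivization.mk ℂ (F z).ofLp (hne z) := ⟨_, rfl⟩
  have hloc : IsLocallyConstant f := by
    refine (IsLocallyConstant.iff_eventually_eq f).2 fun x => ?_
    have h1 := Pool.Agent.H36.BP.const_of_wedge (hF.analyticAt x) (hne' x) (Eventually.of_forall hwd)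
    filter_upwards [h1] with y hy
    obtain ⟨c, hc, hy⟩ := hy
    rw [hf]
    show Projectivization.mk ℂ (F y).ofLp (hne y) = Projectivization.mk ℂ (F x).ofLp (hne x)
    rw [Projectivization.mk_eq_mk_iff']
    refine ⟨c, ?_⟩
    rw [hy]
    rfl
  intro z w
  have h1 := hloc.apply_eq_of_preconnectedSpace z w
  rw [hf] at h1
  replace h1 : Projectivization.mk ℂ (F z).ofLp (hne z) = Projectivization.mk ℂ (F w).ofLp (hne w) := h1
  rw [Projectivization.mk_eq_mk_iff'] at h1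
  obtain ⟨b, hb⟩ := h1
  exact ⟨b, WithLp.ofLp_injective 2 hb.symm⟩

/-- the geometry of the cone -/
theorem geo_of' {P : Ideal (MvPolynomial (Fin (N + 1)) ℂ)} [P.IsPrime] (hP : Homog P) (hdim : ∃ z : Fin (k + 2) → FunField P, IsTranscendenceBasis ℂ z)
    (hsmooth : Pool.Agent.AD.NC.IsSmooth P (k + 2)) {Λ : AddSubgroup (Cn (k + 1))} [DiscreteTopology Λ] (hspan : Submodule.span ℝ (Λ : Set (Cn (k + 1))) = ⊤)
    {u : PN N → Cn (k + 1) ⧸ Λ} (hu : IsHolomorphicTorusMap (projVar P) Λ u) {D B : Set (Cn (k + 1))} (hD : IsAnalyticSubset D) (hDp : D ≠ Set.univ)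
    (hDi : ∀ y ∈ D, ∀ l ∈ Λ, y + l ∈ D) (hB : ∀ e : Cn (k + 1), e ≠ 0 → ∀ᵐ y : Cn (k + 1), ∀ z : ℂ, y + z • e ∉ B)
    (hsub : ∀ y ∉ D, ∀ x ∈ projVar P, u x = (y : Cn (k + 1) ⧸ Λ) → Submersion (projVar P) Λ u y x)
    (hcr : ∀ y ∈ D, y ∉ B → ∃ κ : Cn (k + 1) → Cn (k + 1), IsCoord D κ y ∧ ∀ x ∈ projVar P, u x = (y : Cn (k + 1) ⧸ Λ) → NormalCrossing (projVar P) Λ u κ x)
    (hS : HasSymmetricForms (projVar P) Λ u D) : Geo (coneE P) Λ (uV Λ u) D B where
  cone := Pool.Agent.AD.isCone_coneE hP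
  charts := Pool.Agent.TGF.gu_charts hP hdim hsmooth
  tor := Pool.Agent.TGF.gu_tor hP hu
  lat := Pool.Agent.TGF.gu_lat Λ hspan
  D_closed := hD.isClosed
  D_inv := hDi
  D_thin := hD.thin hDp
  B_lines := hB
  sub := by
    intro y hy x hx hxy
    obtain ⟨h0, h1⟩ := (mem_coneE hP).1 hx
    rw [sub_mem_iff, uV_eq Λ u h0] at hxy
    obtain ⟨σ, hσ, hov⟩ := hsub y hy _ h1 hxy
    obtain ⟨c, hc, hcx⟩ := Pool.Agent.TGF.exists_scale h0 hσ.point
    obtain ⟨τ, hτ⟩ := Pool.Agent.TGF.exists_germ hP hdim hsmooth (hσ.const_smul hc)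
    refine ⟨_, τ, hτ, hcx, ?_⟩
    filter_upwards [hov] with p hp
    exact Pool.Agent.TGF.gug_over (Pool.Agent.TGF.over_const_smul hp hc)
  fib := fun y hy F hF hFX hFy _ => con_fib hP hdim hsmooth hspan hu hD.isClosed hS y hy F hF hFX hFy
  nc := by
    intro y hy hyB
    obtain ⟨κ, hκ, hnc⟩ := hcr y hy hyB
    refine ⟨κ, ⟨hκ.holomorphic, hκ.point, ?_, hκ.mem_iff⟩, ?_⟩
    · rw [injective_iff_map_eq_zero]
      exact hκ.immersion
    · intro x hx hxy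
      obtain ⟨h0, h1⟩ := (mem_coneE hP).1 hx
      rw [sub_mem_iff, uV_eq Λ u h0] at hxy
      obtain ⟨σ, a, b, hσ, hab, hov⟩ := hnc _ h1 hxy
      obtain ⟨c, hc, hcx⟩ := Pool.Agent.TGF.exists_scale h0 hσ.point
      obtain ⟨τ, hτ⟩ := Pool.Agent.TGF.exists_germ hP hdim hsmooth (hσ.const_smul hc)
      refine ⟨_, τ, a, b, hτ, hcx, hab, ?_⟩
      filter_upwards [hov] with p hp
      exact Pool.Agent.TGF.gug_over (Pool.Agent.TGF.over_const_smul hp hc)

end Pool.Agent.G4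

end
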