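import Pool.Agent.H94.G4T.M103
import Pool.Agent.H94.G4T.M105
import Pool.Agent.H94.G4T.M117
import Pool.Agent.H94.G4T.M140
import Pool.Agent.H94.G4T.M148
import Pool.Agent.H94.G4T.M77
import Pool.Agent.H94.G4T.M81
import Pool.Agent.H94.G4T.M84
import Pool.Agent.H94.G4T.M86
import Pool.Agent.H94.G4T.M89

/-! The parts of this file: TG.SaB, TG.SaC, TG.SaP, TG.SaP_1, TG.SaS, TG.MerConc, G3.R.ShtF_1. -/

section

/-!
# TG SaB: meromorphic maps of order two from `ℂ^g` to varieties over complex tori are mapped to affine maps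

`F : ℂ^g → EN N` is an entire function, zeros allowed, with `F z ∈ X` if `F z ≠ 0` and `log |F z| ≤ C (1 + |z|²)`.
-/

set_option autoImplicit false

open Topology Filter Metric

noncomputable section

namespace Pool.Agent.TG

open Pool.Agent.H36.BP (EN fs wd)
open Pool.Agent.H14.PP (IsCone CurveAt Tan)
open Pool.Agent.AD (Vd Charts TorusMapV DiscreteSub)

variable {N n g d : ℕ} {X : Set (EN N)} {Λ : AddSubgroup (Vd n)} {u : EN N → Vd n}

/-- differentiable functions of several variables are analytic -/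
theorem analyticAt_vd {E : Type*} [NormedAddCommGroup E] [NormedSpace ℂ E] [CompleteSpace E] {f : Vd g → E} (hf : Differentiable ℂ f) (w : Vd g) :
    AnalyticAt ℂ f w := by
  have h1 : ∀ᶠ y in 𝓝 w, ‖f y‖ < ‖f w‖ + 1 := hf.continuous.norm.continuousAt.eventually_lt continuousAt_const (lt_add_one _)
  obtain ⟨r, hr, hb⟩ := Metric.eventually_nhds_iff_ball.1 h1
  refine Pool.Agent.TN.osgood_pi hr (M := ‖f w‖ + 1) (fun y hy => (hb y hy).le) fun y _ l => ?_
  have h2 : Differentiable ℂ fun t : ℂ => y + t • (Pi.single l 1 : Vd g) := by fun_prop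
  exact (hf.comp h2) 0

/-- a holomorphic curve in `ℂ^n` with values in a discrete group near `0` is constant near `0` -/
theorem deriv_zero_of_mem (hΛ : DiscreteSub Λ) {h : ℂ → Vd n} (hh : AnalyticAt ℂ h 0) (hm : ∀ᶠ z in 𝓝 (0 : ℂ), h z ∈ Λ) : ∀ᶠ z in 𝓝 (0 : ℂ), h z = h 0 :=
  Pool.Agent.AD.eventually_const_of_mem hΛ hh.continuousAt hm

theorem eq_of_smul_mem (hΛ : DiscreteSub Λ) {a b : Vd n} (hm : ∀ᶠ z : ℂ in 𝓝 (0 : ℂ), z • a - z • b ∈ Λ) : a = b := by
  have h1 := deriv_zero_of_mem hΛ (h := fun z : ℂ => z • a - z • b) (by fun_prop) hm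
  have h2 : ∀ᶠ z : ℂ in 𝓝[≠] (0 : ℂ), z • a - z • b = (0 : ℂ) • a - (0 : ℂ) • b := h1.filter_mono nhdsWithin_le_nhds
  obtain ⟨z, hz, hz0⟩ := (h2.and self_mem_nhdsWithin).exists
  rw [zero_smul, zero_smul, sub_zero, ← smul_sub, smul_eq_zero] at hz
  exact sub_eq_zero.1 (hz.resolve_left hz0)

/-- the restriction of `F` to a line has order two -/
theorem line_growth {F : Vd g → EN N} {C : ℝ} (hC : ∀ z, ‖F z‖ ≤ Real.exp (C * (1 + ‖z‖ ^ 2))) (y v : Vd g) :
    ∀ s : ℂ, ‖F (y + s • v)‖ ≤ Real.exp (|C| * (1 + 2 * ‖y‖ ^ 2 + 2 * ‖v‖ ^ 2) * (1 + ‖s‖ ^ 2)) := by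
  intro s
  refine (hC _).trans (Real.exp_le_exp.2 ?_)
  have h1 : ‖y + s • v‖ ≤ ‖y‖ + ‖s‖ * ‖v‖ := (norm_add_le _ _).trans (by rw [norm_smul])
  have h2 : ‖y + s • v‖ ^ 2 ≤ 2 * ‖y‖ ^ 2 + 2 * (‖s‖ ^ 2 * ‖v‖ ^ 2) := by
    have h3 : ‖y + s • v‖ ^ 2 ≤ (‖y‖ + ‖s‖ * ‖v‖) ^ 2 := pow_le_pow_left₀ (norm_nonneg _) h1 2
    nlinarith [sq_nonneg (‖y‖ - ‖s‖ * ‖v‖)]
  have h4 : 1 + ‖y + s • v‖ ^ 2 ≤ (1 + 2 * ‖y‖ ^ 2 + 2 * ‖v‖ ^ 2) * (1 + ‖s‖ ^ 2) := by
    nlinarith [sq_nonneg ‖s‖, sq_nonneg ‖y‖, sq_nonneg ‖v‖, mul_nonneg (sq_nonneg ‖s‖) (sq_nonneg ‖y‖), mul_nonneg (sq_nonneg ‖s‖) (sq_nonneg ‖v‖)]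
  calc C * (1 + ‖y + s • v‖ ^ 2) ≤ |C| * (1 + ‖y + s • v‖ ^ 2) := mul_le_mul_of_nonneg_right (le_abs_self C) (by positivity)
    _ ≤ |C| * ((1 + 2 * ‖y‖ ^ 2 + 2 * ‖v‖ ^ 2) * (1 + ‖s‖ ^ 2)) := mul_le_mul_of_nonneg_left h4 (abs_nonneg _)
    _ = _ := by ring

theorem line_diff {F : Vd g → EN N} (hF : Differentiable ℂ F) (y v : Vd g) : Differentiable ℂ fun s : ℂ => F (y + s • v) := by
  have h1 : Differentiable ℂ fun s : ℂ => y + s • v := by fun_prop
  exact hF.comp h1

/-- **Meromorphic maps of order two are mapped to affine maps.** -/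
theorem exists_linear (hX : IsCone X) (hch : Charts d X) (hu : TorusMapV X Λ u) (hΛ : DiscreteSub Λ) {F : Vd g → EN N}
    (hF : Differentiable ℂ F) (hFX : ∀ z, F z ≠ 0 → F z ∈ X) {C : ℝ} (hC : ∀ z, ‖F z‖ ≤ Real.exp (C * (1 + ‖z‖ ^ 2))) {y : Vd g} (hy : F y ≠ 0) :
    ∃ B : Vd g →L[ℂ] Vd n, (∀ z, F z ≠ 0 → u (F z) - (u (F y) + B (z - y)) ∈ Λ) ∧
      ∀ w, F w ≠ 0 → ∀ v, ∃ G : ℂ → EN N, Differentiable ℂ G ∧ (∀ s, G s ∈ X) ∧ (∀ s : ℂ, ∃ c : ℂ, F (w + s • v) = c • G s) ∧
        ∀ s : ℂ, u (G s) - (u (F w) + s • B v) ∈ Λ := by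
  have hyX := hFX y hy
  obtain ⟨v₀, hv₀, hv₀u⟩ := hu.loc _ hyX
  have hFan : ∀ z, AnalyticAt ℂ F z := analyticAt_vd hF
  have hFc := hF.continuous
  obtain ⟨ψ, hψ⟩ : ∃ ψ : Vd g → Vd n, ψ = fun z => v₀ (F z) := ⟨_, rfl⟩
  have hψan : AnalyticAt ℂ ψ y := by
    rw [hψ]
    exact AnalyticAt.comp (g := v₀) (f := F) hv₀ (hFan y)
  have hψu : ∀ᶠ z in 𝓝 y, u (F z) - ψ z ∈ Λ := by
    filter_upwards [hFc.continuousAt.eventually hv₀u, hFc.continuousAt.eventually_ne hy] with z h1 h2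
    rw [hψ]
    exact h1 (hFX z h2)
  -- a line through a point
  have hline : ∀ w, F w ≠ 0 → ∀ v, ∃ (G : ℂ → EN N) (a : Vd n), Differentiable ℂ G ∧ (∀ s, G s ∈ X) ∧ (∀ s : ℂ, ∃ c : ℂ, F (w + s • v) = c • G s) ∧
      ∀ s : ℂ, u (G s) - (u (F w) + s • a) ∈ Λ := by
    intro w hw v
    obtain ⟨G, a, h1, h2, h3, h4⟩ := exists_curve_affine hX hch hu hΛ (F := fun s : ℂ => F (w + s • v)) (line_diff hF w v)
      (fun s hs => hFX _ hs) (by simpa using hw) (line_growth hC w v)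
    refine ⟨G, a, h1, h2, h3, fun s => ?_⟩
    have h5 := h4 s
    simp only [zero_smul, add_zero] at h5
    exact h5
  -- the value of `u` at a point of the line
  have hval : ∀ w (v : Vd g) (G : ℂ → EN N) (s : ℂ), (∀ s, G s ∈ X) → F (w + s • v) ≠ 0 → (∃ c : ℂ, F (w + s • v) = c • G s) →
      u (F (w + s • v)) - u (G s) ∈ Λ := by
    rintro w v G s hGX hne ⟨c, hc⟩
    have hc0 : c ≠ 0 := by
      rintro rfl
      rw [zero_smul] at hc
      exact hne hc
    rw [hc]
    exact hu.smul _ (hGX s) c hc0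
  have hB : ∀ z, F z ≠ 0 → u (F z) - (u (F y) + fderiv ℂ ψ y (z - y)) ∈ Λ := by
    intro z hz
    obtain ⟨G, a, hG, hGX, hFG, hGu⟩ := hline y hy (z - y)
    have hcl : ContinuousAt (fun s : ℂ => y + s • (z - y)) 0 := by fun_prop
    have hcl' : Tendsto (fun s : ℂ => y + s • (z - y)) (𝓝 0) (𝓝 y) := by
      have := hcl.tendsto
      simpa using this
    have ha : fderiv ℂ ψ y (z - y) = a := by
      have h1 := Pool.Agent.AD.deriv_eq_of_mem (Λ := Λ) hΛ (h := fun s : ℂ => ψ (y + s • (z - y))) (k := fun s : ℂ => u (F y) + s • a) (z₀ := 0)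
        (by
          have h2 : AnalyticAt ℂ (fun s : ℂ => y + s • (z - y)) 0 := by fun_prop
          refine AnalyticAt.comp (g := ψ) (f := fun s : ℂ => y + s • (z - y)) ?_ h2
          show AnalyticAt ℂ ψ (y + (0 : ℂ) • (z - y))
          rwa [zero_smul, add_zero])
        (by fun_prop) (by
          filter_upwards [hcl'.eventually hψu, hcl'.eventually (hFc.continuousAt.eventually_ne hy)] with s h3 h4
          have h5 := Λ.add_mem (Λ.sub_mem (hval y (z - y) G s hGX h4 (hFG s)) h3) (hGu s)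
          have h6 : ψ (y + s • (z - y)) - (u (F y) + s • a) = u (F (y + s • (z - y))) - u (G s) - (u (F (y + s • (z - y))) - ψ (y + s • (z - y))) +
              (u (G s) - (u (F y) + s • a)) := by abel
          rw [h6]
          exact h5)
      have h2 : HasDerivAt (fun s : ℂ => ψ (y + s • (z - y))) (fderiv ℂ ψ y (z - y)) 0 := by
        have h3 : HasFDerivAt ψ (fderiv ℂ ψ y) (y + (0 : ℂ) • (z - y)) := by
          rw [zero_smul, add_zero]
          exact hψan.differentiableAt.hasFDerivAt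
        have h4 : HasDerivAt (fun s : ℂ => y + s • (z - y)) (z - y) 0 := by
          have h5 : HasDerivAt (fun s : ℂ => s • (z - y)) ((1 : ℂ) • (z - y)) 0 := (hasDerivAt_id (0 : ℂ)).smul_const (z - y)
          rw [one_smul] at h5
          exact h5.const_add y
        exact h3.comp_hasDerivAt (0 : ℂ) h4
      have h3 : HasDerivAt (fun s : ℂ => u (F y) + s • a) a 0 := by
        have h5 : HasDerivAt (fun s : ℂ => s • a) ((1 : ℂ) • a) 0 := (hasDerivAt_id (0 : ℂ)).smul_const a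
        rw [one_smul] at h5
        exact h5.const_add (u (F y))
      rw [h2.deriv, h3.deriv] at h1
      exact h1
    have h1 := hGu 1
    have hz1 : y + (1 : ℂ) • (z - y) = z := by rw [one_smul, add_sub_cancel]
    have h2 := hval y (z - y) G 1 hGX (by rwa [hz1]) (hFG 1)
    rw [hz1] at h2
    rw [one_smul] at h1
    rw [ha]
    have h3 := Λ.add_mem h2 h1
    have h4 : u (F z) - u (G 1) + (u (G 1) - (u (F y) + a)) = u (F z) - (u (F y) + a) := by abel
    rwa [h4] at h3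
  refine ⟨fderiv ℂ ψ y, hB, fun w hw v => ?_⟩
  obtain ⟨G, a, hG, hGX, hFG, hGu⟩ := hline w hw v
  have hcl : ContinuousAt (fun s : ℂ => w + s • v) 0 := by fun_prop
  have hcl' : Tendsto (fun s : ℂ => w + s • v) (𝓝 0) (𝓝 w) := by
    have := hcl.tendsto
    simpa using this
  have ha : fderiv ℂ ψ y v = a := by
    refine eq_of_smul_mem hΛ ?_
    filter_upwards [hcl'.eventually (hFc.continuousAt.eventually_ne hw)] with s h1
    have h2 := hB _ h1
    have h3 := hB w hw
    have h4 := hval w v G s hGX h1 (hFG s)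
    have h5 := Λ.add_mem (Λ.sub_mem (Λ.sub_mem h4 h2) (Λ.neg_mem h3)) (hGu s)
    have h6 : fderiv ℂ ψ y (w + s • v - y) = fderiv ℂ ψ y (w - y) + s • fderiv ℂ ψ y v := by
      have h7 : w + s • v - y = (w - y) + s • v := by abel
      rw [h7, map_add, map_smul]
    rw [h6] at h5
    have h7 : u (F (w + s • v)) - u (G s) - (u (F (w + s • v)) - (u (F y) + (fderiv ℂ ψ y (w - y) + s • fderiv ℂ ψ y v))) -
        -(u (F w) - (u (F y) + fderiv ℂ ψ y (w - y))) + (u (G s) - (u (F w) + s • a)) = s • fderiv ℂ ψ y v - s • a := by abel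
    rwa [h7] at h5
  refine ⟨G, hG, hGX, hFG, fun s => ?_⟩
  rw [ha]
  exact hGu s

/-- **The linear part is zero in the directions of exponential growth.** -/
theorem map_zero_of_growth (hX : IsCone X) (hch : Charts d X) (hu : TorusMapV X Λ u) (hΛ : DiscreteSub Λ) {F : Vd g → EN N}
    (hF : Differentiable ℂ F) (hFX : ∀ z, F z ≠ 0 → F z ∈ X) {y : Vd g} (hy : F y ≠ 0) {B : Vd g →L[ℂ] Vd n}
    (hB : ∀ z, F z ≠ 0 → u (F z) - (u (F y) + B (z - y)) ∈ Λ) {t : Vd g} {C : ℝ}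
    (hC : ∀ s : ℂ, ‖F (y + s • t)‖ ≤ Real.exp (C * (1 + ‖s • t‖))) : B t = 0 := by
  have hFc := hF.continuous
  have hd : Differentiable ℂ fun s : ℂ => F (y + (s ^ 2) • t) := by
    have h1 : Differentiable ℂ fun s : ℂ => y + (s ^ 2) • t := by fun_prop
    exact hF.comp h1
  obtain ⟨G, a, hG, hGX, hFG, hGu⟩ := exists_curve_affine hX hch hu hΛ (F := fun s : ℂ => F (y + (s ^ 2) • t)) hd
    (fun s hs => hFX _ hs) (by simpa using hy) (C := |C| * (1 + ‖t‖)) (fun s => by
      refine (hC _).trans (Real.exp_le_exp.2 ?_)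
      rw [norm_smul, norm_pow]
      calc C * (1 + ‖s‖ ^ 2 * ‖t‖) ≤ |C| * (1 + ‖s‖ ^ 2 * ‖t‖) := mul_le_mul_of_nonneg_right (le_abs_self C) (by positivity)
        _ ≤ |C| * ((1 + ‖t‖) * (1 + ‖s‖ ^ 2)) := mul_le_mul_of_nonneg_left (by nlinarith [sq_nonneg ‖s‖, norm_nonneg t]) (abs_nonneg _)
        _ = _ := by ring)
  simp only [ne_eq, OfNat.ofNat_ne_zero, not_false_eq_true, zero_pow, zero_smul, add_zero] at hGu
  have hcl : ContinuousAt (fun s : ℂ => y + (s ^ 2) • t) 0 := by fun_prop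
  have hcl' : Tendsto (fun s : ℂ => y + (s ^ 2) • t) (𝓝 0) (𝓝 y) := by
    have := hcl.tendsto
    simpa using this
  have h1 : ∀ᶠ s : ℂ in 𝓝 (0 : ℂ), (s ^ 2) • B t - s • a ∈ Λ := by
    filter_upwards [hcl'.eventually (hFc.continuousAt.eventually_ne hy)] with s h1
    have h2 := hB _ h1
    obtain ⟨c, hc⟩ := hFG s
    have hc0 : c ≠ 0 := by
      rintro rfl
      rw [zero_smul] at hc
      exact h1 hc
    have h3 := hu.smul _ (hGX s) c hc0
    rw [← hc] at h3
    have h4 := Λ.add_mem (Λ.sub_mem h3 h2) (hGu s)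
    rw [add_sub_cancel_left, map_smul] at h4
    have h5 : u (F (y + s ^ 2 • t)) - u (G s) - (u (F (y + s ^ 2 • t)) - (u (F y) + s ^ 2 • B t)) + (u (G s) - (u (F y) + s • a)) =
        s ^ 2 • B t - s • a := by abel
    rwa [h5] at h4
  have h2 := deriv_zero_of_mem hΛ (h := fun s : ℂ => (s ^ 2) • B t - s • a) (by fun_prop) h1
  simp only [ne_eq, OfNat.ofNat_ne_zero, not_false_eq_true, zero_pow, zero_smul, sub_zero] at h2
  have h3 : ∀ᶠ s : ℂ in 𝓝[≠] (0 : ℂ), s • B t = a := by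
    filter_upwards [h2.filter_mono nhdsWithin_le_nhds, self_mem_nhdsWithin] with s h3 h4
    have h5 : s • (s • B t - a) = 0 := by rw [smul_sub, smul_smul, ← sq, h3]
    exact sub_eq_zero.1 ((smul_eq_zero.1 h5).resolve_left h4)
  have h4 : Tendsto (fun s : ℂ => s • B t) (𝓝[≠] 0) (𝓝 ((0 : ℂ) • B t)) :=
    ((continuous_id.smul continuous_const).tendsto (0 : ℂ)).mono_left nhdsWithin_le_nhds
  rw [zero_smul] at h4
  have h5 : a = 0 := tendsto_nhds_unique (tendsto_const_nhds.congr' (h3.mono fun s hs => hs.symm)) h4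
  obtain ⟨s, hs, hs0⟩ := (h3.and self_mem_nhdsWithin).exists
  rw [h5, smul_eq_zero] at hs
  exact hs.resolve_left hs0

/-- two nonzero entire functions on `ℂ^g` are both not zero at some point -/
theorem exists_both_ne {E E' : Type*} [NormedAddCommGroup E] [NormedSpace ℂ E] [CompleteSpace E] [NormedAddCommGroup E'] [NormedSpace ℂ E'] [CompleteSpace E']
    {F : Vd g → E} (hF : Differentiable ℂ F) {F' : Vd g → E'} (hF' : Continuous F') (hy : ∃ y, F y ≠ 0) (hy' : ∃ y, F' y ≠ 0) : ∃ z, F z ≠ 0 ∧ F' z ≠ 0 := by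
  by_contra hcon
  push Not at hcon
  obtain ⟨y, hy⟩ := hy
  obtain ⟨y', hy'⟩ := hy'
  apply hy
  have h1 : AnalyticOnNhd ℂ F Set.univ := fun z _ => analyticAt_vd hF z
  refine h1.eqOn_zero_of_preconnected_of_eventuallyEq_zero isPreconnected_univ (Set.mem_univ y') ?_ (Set.mem_univ y)
  filter_upwards [hF'.continuousAt.eventually_ne hy'] with z hz
  by_contra h2
  exact hz (hcon z h2)

/-- **The linear part maps periods to periods.** -/
theorem map_period (hu : TorusMapV X Λ u) {F : Vd g → EN N}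
    (hF : Differentiable ℂ F) (hFX : ∀ z, F z ≠ 0 → F z ∈ X) {y : Vd g} (hy : F y ≠ 0) {B : Vd g →L[ℂ] Vd n}
    (hB : ∀ z, F z ≠ 0 → u (F z) - (u (F y) + B (z - y)) ∈ Λ) {l : Vd g}
    (hl : ∀ z i j, F (z + l) i * F z j = F (z + l) j * F z i) : B l ∈ Λ := by
  obtain ⟨z, h1, h2⟩ := exists_both_ne (F := F) (F' := fun z => F (z + l)) hF (hF.continuous.comp (continuous_id.add continuous_const)) ⟨y, hy⟩
    ⟨y - l, by simpa using hy⟩
  obtain ⟨j, hj⟩ := en_coord_ne h1
  have h3 : F (z + l) = (F (z + l) j / F z j) • F z := by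
    ext i
    show F (z + l) i = F (z + l) j / F z j * F z i
    have h4 := hl z i j
    field_simp
    linear_combination h4
  have h4 : F (z + l) j / F z j ≠ 0 := by
    intro h
    rw [h, zero_smul] at h3
    exact h2 h3
  have h5 := hu.smul _ (hFX z h1) _ h4
  rw [← h3] at h5
  have h6 := Λ.add_mem (Λ.sub_mem h5 (hB _ h2)) (hB z h1)
  have h7 : B (z + l - y) = B (z - y) + B l := by
    rw [← map_add]
    congr 1
    abel
  rw [h7] at h6
  have h8 : u (F (z + l)) - u (F z) - (u (F (z + l)) - (u (F y) + (B (z - y) + B l))) + (u (F z) - (u (F y) + B (z - y))) = B l := by abel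
  rwa [h8] at h6

end Pool.Agent.TG

end
end

section

/-!
# TG SaC: maps from semi-abelian varieties to varieties over complex tori, the four cases

`F : ℂ^g → EN N` is an entire function, zeros allowed, with `F z ∈ X` if `F z ≠ 0`, `log |F z| ≤ C (1 + |z|²)`, `log |F (z + t)| ≤ C_z (1 + |t|)` for `t ∈ T`,
and the periods `L`; `T` and `L` span `ℂ^g` over the real numbers.
-/

set_option autoImplicit false

open Topology Filter Metric

noncomputable section

namespace Pool.Agent.TG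

open Pool.Agent.H36.BP (EN fs wd)
open Pool.Agent.H14.PP (IsCone CurveAt Tan)
open Pool.Agent.AD (Vd Charts TorusMapV DiscreteSub zeroLength)

variable {N n g d : ℕ} {X : Set (EN N)} {Λ : AddSubgroup (Vd n)} {u : EN N → Vd n}

/-- the fibre over `y` -/
def SaFb (X : Set (EN N)) (Λ : AddSubgroup (Vd n)) (u : EN N → Vd n) (y : Vd n) : Set (EN N) := {x | x ∈ X ∧ u x - y ∈ Λ}

theorem isCone_saFb (hX : IsCone X) (hu : TorusMapV X Λ u) (hΛ : DiscreteSub Λ) (y : Vd n) : IsCone (SaFb X Λ u y) := by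
  refine ⟨fun h => hX.zero_notMem h.1, fun x hx c hc => ⟨hX.smul_mem x hx.1 c hc, ?_⟩, ?_⟩
  · have h1 := Λ.add_mem (hu.smul x hx.1 c hc) hx.2
    rwa [sub_add_sub_cancel] at h1
  · rw [← isOpen_compl_iff, isOpen_iff_mem_nhds]
    intro x hx
    have hx0 : x ≠ 0 := fun h => hx (h ▸ Set.mem_insert _ _)
    have hxF : x ∉ SaFb X Λ u y := fun h => hx (Or.inr h)
    have hne : ∀ᶠ w in 𝓝 x, w ≠ 0 := continuousAt_id.eventually_ne hx0
    by_cases hxX : x ∈ X
    · obtain ⟨v, hv, hvu⟩ := hu.loc x hxX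
      obtain ⟨δ, hδ, hd⟩ := hΛ
      have hvx : v x - y ∉ Λ := by
        intro h
        apply hxF
        refine ⟨hxX, ?_⟩
        have h1 := Λ.add_mem (hvu.self_of_nhds hxX) h
        rwa [sub_add_sub_cancel] at h1
      by_cases hfar : ∀ᶠ w in 𝓝 x, v w - y ∉ Λ
      · filter_upwards [hne, hfar, hvu] with w h1 h2 h3 h4
        rcases h4 with h4 | h4
        · exact h1 h4
        · apply h2
          have h5 := Λ.sub_mem h4.2 (h3 h4.1)
          rwa [sub_sub_sub_cancel_left] at h5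
      · have hball : ∀ᶠ w in 𝓝 x, ‖v w - v x‖ < δ / 2 := by
          have h1 := hv.continuousAt.eventually (ball_mem_nhds (v x) (half_pos hδ))
          filter_upwards [h1] with w hw
          rw [← dist_eq_norm]
          exact hw
        obtain ⟨w₀, hw₀, hw₀'⟩ : ∃ w₀, v w₀ - y ∈ Λ ∧ ‖v w₀ - v x‖ < δ / 2 := by
          by_contra hcon
          push Not at hcon
          apply hfar
          filter_upwards [hball] with w hw hw2
          exact absurd hw (not_lt.2 (hcon w hw2))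
        have hxw : v x ≠ v w₀ := by
          intro h
          rw [h] at hvx
          exact hvx hw₀
        filter_upwards [hne, hball, hvu, hv.continuousAt.eventually_ne hxw] with w h1 h2 h3 h4 h5
        rcases h5 with h5 | h5
        · exact h1 h5
        · apply h4
          have h6 := Λ.sub_mem h5.2 (h3 h5.1)
          rw [sub_sub_sub_cancel_left] at h6
          have h7 := Λ.sub_mem h6 hw₀
          rw [sub_sub_sub_cancel_right] at h7
          have h8 : ‖v w - v w₀‖ < δ := by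
            calc ‖v w - v w₀‖ = ‖(v w - v x) - (v w₀ - v x)‖ := by congr 1; abel
              _ ≤ ‖v w - v x‖ + ‖v w₀ - v x‖ := norm_sub_le _ _
              _ < δ := by linarith
          exact sub_eq_zero.1 (hd _ h7 h8)
    · have h1 : (insert 0 X)ᶜ ∈ 𝓝 x := hX.closed.isOpen_compl.mem_nhds (by
        rintro (h | h)
        · exact hx0 h
        · exact hxX h)
      filter_upwards [h1] with w hw hw2
      rcases hw2 with hw2 | hw2
      · exact hw (Or.inl hw2)
      · exact hw (Or.inr hw2.1)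

/-- **Brody's lemma in a fibre**: if the entire curves with bounded derivative in the fibre are constant then all entire curves in the fibre are constant. -/
theorem fibre_const (hX : IsCone X) (hu : TorusMapV X Λ u) (hΛ : DiscreteSub Λ) {y : Vd n}
    (h : ∀ F : ℂ → EN N, Differentiable ℂ F → (∀ z, F z ∈ X) → (∀ z, u (F z) - y ∈ Λ) → (∃ L : ℝ, ∀ z, fs (F z) (deriv F z) ≤ L) →
      ∀ z w, ∃ c : ℂ, F z = c • F w)
    {F : ℂ → EN N} (hF : Differentiable ℂ F) (hFX : ∀ z, F z ∈ X) (hFu : ∀ z, u (F z) - y ∈ Λ) (z w : ℂ) : ∃ c : ℂ, F z = c • F w := by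
  have hc := isCone_saFb hX hu hΛ y
  obtain ⟨L, -, hL⟩ := Pool.Agent.H22.W.exists_lipschitz hc (zeroLength (SaFb X Λ u y)) (fun G hG hGX hG1 _ =>
    h G hG (fun z => (hGX z).1) (fun z => (hGX z).2) ⟨1, hG1⟩)
  exact h F hF hFX hFu ⟨L, hL F hF (fun z => ⟨hFX z, hFu z⟩) fun z => zero_le_one⟩ z w

/-- `F` is an entire representative of a meromorphic map from `ℂ^g / L` to `X`, of the type of the rational maps from semi-abelian varieties -/
structure Rep (X : Set (EN N)) (F : Vd g → EN N) (T : Submodule ℂ (Vd g)) (L : AddSubgroup (Vd g)) : Prop where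
  diff : Differentiable ℂ F
  ne : ∃ z, F z ≠ 0
  mem : ∀ z, F z ≠ 0 → F z ∈ X
  growth : ∃ C : ℝ, ∀ z, ‖F z‖ ≤ Real.exp (C * (1 + ‖z‖ ^ 2))
  torus : ∀ z, ∃ C : ℝ, ∀ t ∈ T, ‖F (z + t)‖ ≤ Real.exp (C * (1 + ‖t‖))
  periodic : ∀ l ∈ L, ∀ z i j, F (z + l) i * F z j = F (z + l) j * F z i
  span : T.restrictScalars ℝ ⊔ Submodule.span ℝ (L : Set (Vd g)) = ⊤

/-- two entire functions which are proportional on a nonempty open set are proportional -/
theorem prop_of_open {F G : Vd g → EN N} (hF : Differentiable ℂ F) (hG : Differentiable ℂ G) {z₀ : Vd g}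
    (h : ∀ᶠ z in 𝓝 z₀, ∀ i j, F z i * G z j = F z j * G z i) (z : Vd g) (i j : Fin (N + 1)) : F z i * G z j = F z j * G z i := by
  have hco : ∀ {H : Vd g → EN N}, Differentiable ℂ H → ∀ k, Differentiable ℂ fun z => H z k := fun {H} hH k =>
    (EuclideanSpace.proj (𝕜 := ℂ) k : EN N →L[ℂ] ℂ).differentiable.comp hH
  have hd : Differentiable ℂ fun z => F z i * G z j - F z j * G z i := ((hco hF i).mul (hco hG j)).sub ((hco hF j).mul (hco hG i))
  have h1 : AnalyticOnNhd ℂ (fun z => F z i * G z j - F z j * G z i) Set.univ := fun z _ => analyticAt_vd hd z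
  have h2 := h1.eqOn_zero_of_preconnected_of_eventuallyEq_zero isPreconnected_univ (Set.mem_univ z₀) (by
    filter_upwards [h] with z hz
    show F z i * G z j - F z j * G z i = 0
    rw [hz, sub_self]) (Set.mem_univ z)
  exact sub_eq_zero.1 h2

theorem prop_of_smul {x y : EN N} {c : ℂ} (h : x = c • y) (i j : Fin (N + 1)) : x i * y j = x j * y i := by
  rw [h]
  show c * y i * y j = c * y j * y i
  ring

theorem prop_trans {x y z : EN N} (hy : y ≠ 0) (h1 : ∀ i j, x i * y j = x j * y i) (h2 : ∀ i j, y i * z j = y j * z i) (i j : Fin (N + 1)) :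
    x i * z j = x j * z i := by
  obtain ⟨k, hk⟩ := en_coord_ne hy
  apply mul_left_cancel₀ (mul_ne_zero hk hk)
  have e1 : x i * y k = x k * y i := h1 i k
  have e2 : x j * y k = x k * y j := h1 j k
  have e3 : y k * z j = y j * z k := h2 k j
  have e4 : y k * z i = y i * z k := h2 k i
  calc y k * y k * (x i * z j) = (x i * y k) * (y k * z j) := by ring
    _ = (x k * y i) * (y j * z k) := by rw [e1, e3]
    _ = (x k * y j) * (y i * z k) := by ring
    _ = (x j * y k) * (y k * z i) := by rw [← e2, ← e4]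
    _ = y k * y k * (x j * z i) := by ring

/-- the points on a line in a fibre over a good value are proportional -/
theorem prop_line (hu : TorusMapV X Λ u) {D : Set (Vd n)}
    (hfib : ∀ y, y ∉ D → ∀ G : ℂ → EN N, Differentiable ℂ G → (∀ z, G z ∈ X) → (∀ z, u (G z) - y ∈ Λ) → ∀ z w, ∃ c : ℂ, G z = c • G w)
    {F : Vd g → EN N} {B : Vd g →L[ℂ] Vd n} {w v : Vd g} {y : Vd n} (hy : y ∉ D) (hwy : u (F w) - y ∈ Λ) (hv : B v = 0)
    (hw : F w ≠ 0)
    (hl : ∃ G : ℂ → EN N, Differentiable ℂ G ∧ (∀ s, G s ∈ X) ∧ (∀ s : ℂ, ∃ c : ℂ, F (w + s • v) = c • G s) ∧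
        ∀ s : ℂ, u (G s) - (u (F w) + s • B v) ∈ Λ) (i j : Fin (N + 1)) : F (w + v) i * F w j = F (w + v) j * F w i := by
  obtain ⟨G, hG, hGX, hFG, hGu⟩ := hl
  have h1 := hfib y hy G hG hGX (fun s => by
    have h2 := Λ.add_mem (hGu s) hwy
    rw [hv, smul_zero, add_zero, sub_add_sub_cancel] at h2
    exact h2)
  obtain ⟨c₁, hc₁⟩ := hFG 1
  obtain ⟨c₀, hc₀⟩ := hFG 0
  rw [one_smul] at hc₁
  rw [zero_smul, add_zero] at hc₀
  obtain ⟨c, hc⟩ := h1 1 0
  have hc₀' : c₀ ≠ 0 := by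
    rintro rfl
    rw [zero_smul] at hc₀
    exact hw hc₀
  refine prop_of_smul (c := c₁ * c * c₀⁻¹) ?_ i j
  rw [hc₁, hc, hc₀, smul_smul, smul_smul, mul_assoc (c₁ * c), inv_mul_cancel₀ hc₀', mul_one]

/-- **The four cases.** -/
theorem rep_cases (hX : IsCone X) (hch : Charts d X) (hu : TorusMapV X Λ u) (hΛ : DiscreteSub Λ) {D : Set (Vd n)} (hD : IsClosed D) (hDi : interior D = ∅)
    (hfib : ∀ y, y ∉ D → ∀ G : ℂ → EN N, Differentiable ℂ G → (∀ z, G z ∈ X) → (∀ z, u (G z) - y ∈ Λ) → ∀ z w, ∃ c : ℂ, G z = c • G w)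
    {F : Vd g → EN N} {T : Submodule ℂ (Vd g)} {L : AddSubgroup (Vd g)} (hF : Rep X F T L) :
    (∃ b ∈ D, ∀ z, F z ≠ 0 → u (F z) - b ∈ Λ) ∨ (∀ z w i j, F z i * F w j = F z j * F w i) ∨
      ∃ (B : Vd g →L[ℂ] Vd n) (c : Vd n), (∀ z, F z ≠ 0 → u (F z) - (B z + c) ∈ Λ) ∧
        ((∃ z, B z ≠ 0) ∧ (∃ y, ∀ z, B z ≠ y) ∧ (∀ z, B z ∈ Submodule.span ℝ {l : Vd n | l ∈ Λ ∧ ∃ z, B z = l}) ∨
        Function.Surjective B ∧ ∃ G : Vd n → EN N, Differentiable ℂ G ∧ (∃ y, G y ≠ 0) ∧ (∀ y, G y ≠ 0 → G y ∈ X ∧ u (G y) - y ∈ Λ) ∧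
          ∀ z i j, F z i * G (B z + c) j = F z j * G (B z + c) i) := by
  obtain ⟨y, hy⟩ := hF.ne
  obtain ⟨C, hC⟩ := hF.growth
  obtain ⟨B, hB, hBl⟩ := exists_linear hX hch hu hΛ hF.diff hF.mem hC hy
  have hBT : ∀ t ∈ T, B t = 0 := by
    intro t ht
    obtain ⟨C', hC'⟩ := hF.torus y
    exact map_zero_of_growth hX hch hu hΛ hF.diff hF.mem hy hB (C := C') fun s => hC' _ (T.smul_mem s ht)
  have hBL : ∀ l ∈ L, B l ∈ Λ := fun l hl => map_period hu hF.diff hF.mem hy hB (hF.periodic l hl)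
  have hspan : ∀ z, B z ∈ Submodule.span ℝ {l : Vd n | l ∈ Λ ∧ ∃ z, B z = l} := by
    intro z
    have hz : z ∈ T.restrictScalars ℝ ⊔ Submodule.span ℝ (L : Set (Vd g)) := by
      rw [hF.span]
      exact Submodule.mem_top
    obtain ⟨t, ht, l, hl, rfl⟩ := Submodule.mem_sup.1 hz
    rw [map_add, hBT t ht, zero_add]
    have h1 : (B.restrictScalars ℝ : Vd g →ₗ[ℝ] Vd n) l ∈ Submodule.map (B.restrictScalars ℝ : Vd g →ₗ[ℝ] Vd n) (Submodule.span ℝ (L : Set (Vd g))) :=
      Submodule.mem_map_of_mem hl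
    rw [Submodule.map_span] at h1
    refine Submodule.span_mono ?_ h1
    rintro _ ⟨l', hl', rfl⟩
    exact ⟨hBL l' hl', l', rfl⟩
  obtain ⟨c, hc⟩ : ∃ c : Vd n, c = u (F y) - B y := ⟨_, rfl⟩
  have hBc : ∀ z, F z ≠ 0 → u (F z) - (B z + c) ∈ Λ := by
    intro z hz
    have h1 := hB z hz
    rw [map_sub] at h1
    have h2 : u (F z) - (B z + c) = u (F z) - (u (F y) + (B z - B y)) := by rw [hc]; abel
    rwa [h2]
  by_cases h0 : ∀ z, B z = 0
  · -- in one fibre
    have hconst : ∀ z, F z ≠ 0 → u (F z) - u (F y) ∈ Λ := by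
      intro z hz
      have h1 := hB z hz
      rwa [h0, add_zero] at h1
    by_cases hyD : u (F y) ∈ D
    · exact Or.inl ⟨_, hyD, hconst⟩
    · refine Or.inr (Or.inl fun z w => ?_)
      have hz : ∀ z i j, F z i * F y j = F z j * F y i := by
        intro z i j
        have h1 := prop_line (g := g) hu hfib (B := B) (w := y) (v := z - y) hyD (by rw [sub_self]; exact Λ.zero_mem) (h0 _) hy (hBl y hy (z - y)) i j
        rwa [add_sub_cancel] at h1
      exact prop_trans hy (hz z) fun i j => by linear_combination -hz w i j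
  · right; right
    push Not at h0
    refine ⟨B, c, hBc, ?_⟩
    by_cases hs : Function.Surjective B
    · right
      refine ⟨hs, ?_⟩
      obtain ⟨s, hs'⟩ : ∃ s : Vd n →L[ℂ] Vd g, ∀ y, B (s y) = y := by
        obtain ⟨s, hs'⟩ := (B : Vd g →ₗ[ℂ] Vd n).exists_rightInverse_of_surjective (LinearMap.range_eq_top.2 hs)
        exact ⟨LinearMap.toContinuousLinearMap s, fun y => LinearMap.congr_fun hs' y⟩
      obtain ⟨G, hG⟩ : ∃ G : Vd n → EN N, G = fun v => F (y + s (v - u (F y))) := ⟨_, rfl⟩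
      have hGd : Differentiable ℂ G := by
        rw [hG]
        have h1 : Differentiable ℂ fun v : Vd n => y + s (v - u (F y)) := by fun_prop
        exact hF.diff.comp h1
      have hGy : G (u (F y)) = F y := by
        rw [hG]
        simp
      have hGmem : ∀ v, G v ≠ 0 → G v ∈ X ∧ u (G v) - v ∈ Λ := by
        intro v hv
        have hv' : F (y + s (v - u (F y))) ≠ 0 := by rwa [hG] at hv
        have hGv : G v = F (y + s (v - u (F y))) := by rw [hG]
        rw [hGv]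
        refine ⟨hF.mem _ hv', ?_⟩
        have h1 := hB _ hv'
        rwa [add_sub_cancel_left, hs', add_sub_cancel] at h1
      refine ⟨G, hGd, ⟨_, by rw [hGy]; exact hy⟩, hGmem, ?_⟩
      -- a good point
      have hGB : Differentiable ℂ fun z : Vd g => G (B z + c) := by
        have h1 : Differentiable ℂ fun z : Vd g => B z + c := by fun_prop
        exact hGd.comp h1
      have hBy : B y + c = u (F y) := by rw [hc]; abel
      obtain ⟨z₁, hz₁, hz₁'⟩ := exists_both_ne (F := F) (F' := fun z : Vd g => G (B z + c)) hF.diff hGB.continuous ⟨y, hy⟩ ⟨y, by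
        show G (B y + c) ≠ 0
        rw [hBy, hGy]
        exact hy⟩
      obtain ⟨O, hO⟩ : ∃ O : Set (Vd g), O = {z | F z ≠ 0 ∧ G (B z + c) ≠ 0} := ⟨_, rfl⟩
      have hOo : IsOpen O := by
        rw [hO]
        exact (isOpen_ne_fun hF.diff.continuous continuous_const).inter (isOpen_ne_fun hGB.continuous continuous_const)
      have hBo : IsOpenMap B := B.isOpenMap hs
      have hBO : IsOpen ((fun v => v + c) '' (B '' O)) := (isOpenMap_add_right c) _ (hBo O hOo)
      obtain ⟨v, hv, hvD⟩ : ∃ v ∈ (fun v => v + c) '' (B '' O), v ∉ D := by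
        by_contra hcon
        push Not at hcon
        have h1 : (fun v => v + c) '' (B '' O) ⊆ interior D := interior_maximal hcon hBO
        rw [hDi] at h1
        exact h1 ⟨_, ⟨z₁, by rw [hO]; exact ⟨hz₁, hz₁'⟩, rfl⟩, rfl⟩
      obtain ⟨_, ⟨z₂, hz₂, rfl⟩, rfl⟩ := hv
      have hcont : Continuous fun z : Vd g => B z + c := by fun_prop
      refine prop_of_open hF.diff hGB (z₀ := z₂) ?_
      filter_upwards [hOo.mem_nhds hz₂, (hD.isOpen_compl.preimage hcont).mem_nhds hvD] with z h1 h2 i j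
      rw [hO] at h1
      obtain ⟨h3, h4⟩ := h1
      have hGz : G (B z + c) = F (y + s (B (z - y))) := by
        rw [hG]
        simp only
        congr 3
        rw [hc, map_sub]
        abel
      obtain ⟨w, hw⟩ : ∃ w, w = y + s (B (z - y)) := ⟨_, rfl⟩
      rw [hGz, ← hw]
      have hw0 : F w ≠ 0 := by
        rw [hw, ← hGz]
        exact h4
      have hBw : B w = B z := by
        rw [hw, map_add, hs', map_sub]
        abel
      have h5 := prop_line (g := g) hu hfib (B := B) (w := w) (v := z - w) (y := B z + c) h2 (by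
        have := hBc w hw0
        rwa [hBw] at this) (by rw [map_sub, hBw, sub_self]) hw0 (hBl w hw0 (z - w)) i j
      rwa [add_sub_cancel] at h5
    · left
      refine ⟨h0, ?_, hspan⟩
      unfold Function.Surjective at hs
      push Not at hs
      exact hs

end Pool.Agent.TG

end
end

section

/-!
# TG SaP: the four cases for maps to projective varieties
-/

set_option autoImplicit false

open Topology Filter Metric MvPolynomial

noncomputable section

namespace Pool.Agent.TG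

open Pool.Agent.H36.BP (EN fs wd)
open Pool.Agent.H14.PP (IsCone CurveAt Tan)
open Pool.Agent.AD (Vd Charts TorusMapV DiscreteSub IsHolomorphicTorusMap)
open Pool.Agent.H17 (PN VanishesAt vanishesAt_mk_iff)
open Pool.Agent.H62.FC (Homog)
open Pool.Agent.H17EF (projVar coneE LE mk_mem_projVar mem_coneE)

variable {N n : ℕ} {P : Ideal (MvPolynomial (Fin (N + 1)) ℂ)}

theorem LE_ne {x : Fin (N + 1) → ℂ} : LE N x ≠ 0 ↔ x ≠ 0 := by
  refine not_congr ⟨fun h => (LE N).injective (h.trans (map_zero _).symm), fun h => by rw [h, map_zero]⟩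

theorem LE_bound : ∃ K : ℝ, 0 ≤ K ∧ ∀ x, ‖LE N x‖ ≤ Real.exp K * ‖x‖ := by
  refine ⟨‖((LE N : (Fin (N + 1) → ℂ) →L[ℂ] EN N))‖, norm_nonneg _, fun x => ?_⟩
  refine ((LE N : (Fin (N + 1) → ℂ) →L[ℂ] EN N).le_opNorm x).trans ?_
  exact mul_le_mul_of_nonneg_right ((le_add_of_nonneg_right zero_le_one).trans (Real.add_one_le_exp _)) (norm_nonneg x)

theorem mk_eq_of_prop {x y : Fin (N + 1) → ℂ} (hx : x ≠ 0) (hy : y ≠ 0) (h : ∀ i j, x i * y j = x j * y i) :
    Projectivization.mk ℂ x hx = Projectivization.mk ℂ y hy := by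
  obtain ⟨j, hj⟩ := Function.ne_iff.1 hy
  rw [Projectivization.mk_eq_mk_iff']
  refine ⟨x j / y j, ?_⟩
  funext i
  have hj' : y j ≠ 0 := hj
  show x j / y j * y i = x i
  have h1 := h i j
  field_simp
  linear_combination -h1

variable {k : ℕ} {Λ : AddSubgroup (Fin (k + 1) → ℂ)} {u : PN N → (Fin (k + 1) → ℂ) ⧸ Λ} {D B : Set (Vd (k + 1))}

theorem TMap.toV {X : Set (EN N)} {Λ : AddSubgroup (Vd (k + 1))} {u : EN N → Vd (k + 1)} (h : TMap X Λ u) : TorusMapV X Λ u := ⟨h.smul, h.loc⟩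

theorem Geo.interior_D {X : Set (EN N)} {Λ : AddSubgroup (Vd (k + 1))} {u : EN N → Vd (k + 1)} (h : Geo X Λ u D B) : interior D = ∅ := by
  rw [Set.eq_empty_iff_forall_notMem]
  intro y hy
  obtain ⟨φ, -, h1, h2⟩ := h.D_thin y
  apply h2
  filter_upwards [h1, isOpen_interior.mem_nhds hy] with z h3 h4
  exact h3 (interior_subset h4)

theorem Geo.fibre {X : Set (EN N)} {Λ : AddSubgroup (Vd (k + 1))} {u : EN N → Vd (k + 1)} (h : Geo X Λ u D B) (y : Vd (k + 1)) (hy : y ∉ D) (G : ℂ → EN N)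
    (hG : Differentiable ℂ G) (hGX : ∀ z, G z ∈ X) (hGu : ∀ z, u (G z) - y ∈ Λ) (z w : ℂ) : ∃ c : ℂ, G z = c • G w :=
  fibre_const h.cone h.tor.toV h.lat.disc (fun F hF hFX hFu hL => h.fib y hy F hF hFX hFu hL) hG hGX hGu z w

end Pool.Agent.TG

end
end

section

/-!
# TG SaP: the four cases for maps to projective varieties
-/

set_option autoImplicit false

open Topology Filter Metric MvPolynomial

noncomputable section

namespace Pool.Agent.TG

open Pool.Agent.H36.BP (EN fs wd)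
open Pool.Agent.H14.PP (IsCone CurveAt Tan)
open Pool.Agent.AD (Vd Charts TorusMapV DiscreteSub uV uV_eq sub_mem_iff torusMapV discreteSub_of IsHolomorphicTorusMap)
open Pool.Agent.H17 (PN VanishesAt vanishesAt_mk_iff)
open Pool.Agent.H62.FC (Homog)
open Pool.Agent.H17EF (projVar coneE LE mk_mem_projVar mem_coneE)

variable {N n : ℕ} {P : Ideal (MvPolynomial (Fin (N + 1)) ℂ)}

/-- a map of semi-abelian type as a map into the cone -/
theorem SabMap.rep (hP : Homog P) (S : SabMap N) (hS : imageOf S.F ⊆ projVar P) : Rep (coneE P) (fun z => LE N (S.F z)) S.T S.L := by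
  obtain ⟨K, hK0, hK⟩ := LE_bound (N := N)
  have hbd : ∀ {x : Fin (N + 1) → ℂ} {C t : ℝ}, 0 ≤ t → ‖x‖ ≤ Real.exp (C * (1 + t)) → ‖LE N x‖ ≤ Real.exp ((|C| + K) * (1 + t)) := by
    intro x C t ht hx
    refine (hK x).trans ?_
    calc Real.exp K * ‖x‖ ≤ Real.exp K * Real.exp (C * (1 + t)) := mul_le_mul_of_nonneg_left hx (Real.exp_pos _).le
      _ = Real.exp (K + C * (1 + t)) := by rw [Real.exp_add]
      _ ≤ Real.exp ((|C| + K) * (1 + t)) := by
          apply Real.exp_le_exp.2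
          have h1 : C * (1 + t) ≤ |C| * (1 + t) := mul_le_mul_of_nonneg_right (le_abs_self C) (by linarith)
          nlinarith
  refine ⟨(LE N).differentiable.comp S.differentiable, ?_, ?_, ?_, ?_, ?_, S.span⟩
  · obtain ⟨z, hz⟩ := S.ne_zero
    exact ⟨z, LE_ne.2 hz⟩
  · intro z hz
    have hz' : S.F z ≠ 0 := LE_ne.1 hz
    have h1 := hS ⟨z, hz', rfl⟩
    rw [mk_mem_projVar hP hz'] at h1
    show (LE N).symm (LE N (S.F z)) ∈ Pool.Agent.H13.SM.cone P
    rwa [ContinuousLinearEquiv.symm_apply_apply]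
  · obtain ⟨C, hC⟩ := S.growth
    exact ⟨|C| + K, fun z => hbd (sq_nonneg _) (hC z)⟩
  · intro z
    obtain ⟨C, hC⟩ := S.torus z
    exact ⟨|C| + K, fun t ht => hbd (norm_nonneg _) (hC t ht)⟩
  · intro l hl z i j
    exact S.periodic l hl z i j

variable {k : ℕ} {Λ : AddSubgroup (Fin (k + 1) → ℂ)} {u : PN N → (Fin (k + 1) → ℂ) ⧸ Λ} {D B : Set (Vd (k + 1))}

/-- **The four cases.** -/
theorem Geo.sabCases (hP : Homog P) (h : Geo (coneE P) Λ (uV Λ u) D B) (S : SabMap N) (hS : imageOf S.F ⊆ projVar P) :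
    SabCases (projVar P) Λ u D S := by
  have hR := S.rep hP hS
  have hval : ∀ z, ∀ hz : S.F z ≠ 0, ((uV Λ u (LE N (S.F z)) : Fin (k + 1) → ℂ) : (Fin (k + 1) → ℂ) ⧸ Λ) = u (Projectivization.mk ℂ (S.F z) hz) := by
    intro z hz
    have h1 : (LE N).symm (LE N (S.F z)) ≠ 0 := by rwa [ContinuousLinearEquiv.symm_apply_apply]
    rw [uV_eq Λ u h1]
    congr 1
  rcases rep_cases h.cone h.charts h.tor.toV h.lat.disc h.D_closed h.interior_D h.fibre hR with h1 | h1 | ⟨b, c, hbc, h1⟩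
  · left
    obtain ⟨b, hb, h2⟩ := h1
    refine ⟨b, hb, ?_⟩
    rintro _ ⟨z, hz, rfl⟩
    have h3 := h2 z (LE_ne.2 hz)
    rw [sub_mem_iff, hval z hz] at h3
    exact h3
  · right; left
    rintro _ ⟨z, hz, rfl⟩ _ ⟨w, hw, rfl⟩
    exact mk_eq_of_prop hz hw (h1 z w)
  · right; right
    refine ⟨(b : Vd S.g →ₗ[ℂ] Vd (k + 1)), c, fun z hz => ?_, ?_⟩
    · have h3 := hbc z (LE_ne.2 hz)
      rw [sub_mem_iff, hval z hz] at h3
      exact h3
    · rcases h1 with ⟨⟨z, hz⟩, ⟨y, hy⟩, h2⟩ | ⟨hs, G, hG, ⟨y, hy⟩, hGm, h2⟩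
      · left
        refine ⟨?_, ?_, ?_⟩
        · rintro _ ⟨w, rfl⟩
          exact h2 w
        · intro h3
          apply hz
          have h4 : b z ∈ LinearMap.range (b : Vd S.g →ₗ[ℂ] Vd (k + 1)) := ⟨z, rfl⟩
          rw [h3] at h4
          exact (Submodule.mem_bot ℂ).1 h4
        · intro h3
          have h4 : y ∈ LinearMap.range (b : Vd S.g →ₗ[ℂ] Vd (k + 1)) := by
            rw [h3]
            exact Submodule.mem_top
          obtain ⟨w, hw⟩ := h4
          exact hy w hw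
      · right
        refine ⟨hs, fun y => (LE N).symm (G y), ⟨(LE N).symm.differentiable.comp hG, ⟨y, ?_⟩, fun v hv => ?_⟩, fun z i j => h2 z i j⟩
        · intro h3
          apply hy
          have h4 := congrArg (LE N) h3
          rwa [ContinuousLinearEquiv.apply_symm_apply, map_zero] at h4
        · have hv' : G v ≠ 0 := by
            intro h3
            apply hv
            show (LE N).symm (G v) = 0
            rw [h3, map_zero]
          obtain ⟨h3, h4⟩ := hGm v hv'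
          refine ⟨?_, ?_⟩
          · rw [mk_mem_projVar hP hv]
            exact h3
          · rw [sub_mem_iff, uV_eq Λ u hv] at h4
            exact h4

end Pool.Agent.TG

end
end

section

/-!
# TG SaS: the special set of a variety over a simple torus, and of the varieties with a dominant rational map to it
-/

set_option autoImplicit false

open Topology Filter Metric MvPolynomial

noncomputable section

namespace Pool.Agent.TG

open Pool.Agent.H36.BP (EN)
open Pool.Agent.AD (Vd)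
open Pool.Agent.H17 (PN VanishesAt vanishesAt_mk_iff)
open Pool.Agent.H62.FC (Homog)
open Pool.Agent.H17LG.Variety (FunField)
open Pool.Agent.H17R (coordFun_ne_zero_iff)
open Pool.Agent.H17EF (projVar coneE LE mk_mem_projVar mem_coneE exists_point)
open Pool.Agent.H7.Bir (vals eval_comp)
open Pool.Agent.H7.Qup (const_of_root exists_eq_aux)
open Pool.Agent.H23.GU (rel rel_smul rel_vals exists_rat eval_smul)

variable {N M g : ℕ}

/-- a form along an entire map -/
theorem eval_differentiable {F : (Fin g → ℂ) → Fin (N + 1) → ℂ} (hF : Differentiable ℂ F) (Q : MvPolynomial (Fin (N + 1)) ℂ) :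
    Differentiable ℂ fun z => eval (F z) Q := by
  intro z
  have h1 : AnalyticAt ℂ (fun w => MvPolynomial.aeval (F w) Q) z :=
    AnalyticAt.aeval_mvPolynomial (fun i => analyticAt_vd (differentiable_pi.1 hF i) z) Q
  exact h1.differentiableAt

/-- an entire function which is `0` where another one is not `0` is `0` -/
theorem eq_zero_of_off {E' : Type*} [NormedAddCommGroup E'] {f : (Fin g → ℂ) → ℂ} (hf : Differentiable ℂ f) {F' : (Fin g → ℂ) → E'}
    (hF' : Continuous F') (hne : ∃ y, F' y ≠ 0) (h : ∀ z, F' z ≠ 0 → f z = 0) (z : Fin g → ℂ) : f z = 0 := by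
  obtain ⟨y, hy⟩ := hne
  have h1 : AnalyticOnNhd ℂ f Set.univ := fun z _ => analyticAt_vd hf z
  refine h1.eqOn_zero_of_preconnected_of_eventuallyEq_zero isPreconnected_univ (Set.mem_univ y) ?_ (Set.mem_univ z)
  filter_upwards [hF'.continuousAt.eventually_ne hy] with w hw
  exact h w hw

theorem eq_smul_of_prop {x y : Fin (N + 1) → ℂ} (hy : y ≠ 0) (h : ∀ i j, x i * y j = x j * y i) : ∃ c : ℂ, x = c • y := by
  obtain ⟨j, hj⟩ := Function.ne_iff.1 hy
  have hj' : y j ≠ 0 := hj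
  refine ⟨x j / y j, ?_⟩
  funext i
  show x i = x j / y j * y i
  have h1 := h i j
  field_simp
  linear_combination h1

/-- forms of the same degree at proportional points -/
theorem eval_prop {D : ℕ} {p q : MvPolynomial (Fin (N + 1)) ℂ} (hp : p.IsHomogeneous D) (hq : q.IsHomogeneous D) {x y : Fin (N + 1) → ℂ}
    (h : ∀ i j, x i * y j = x j * y i) : eval x p * eval y q = eval x q * eval y p := by
  by_cases hy : y = 0
  · by_cases hx : x = 0
    · rw [hx, hy, mul_comm]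
    · obtain ⟨c, hc⟩ := eq_smul_of_prop hx (x := y) fun i j => by linear_combination -h i j
      rw [hc, eval_smul hp, eval_smul hq]
      ring
  · obtain ⟨c, hc⟩ := eq_smul_of_prop hy h
    rw [hc, eval_smul hp, eval_smul hq]
    ring

/-- the growth of a form -/
theorem norm_eval_form {D : ℕ} {p : MvPolynomial (Fin (N + 1)) ℂ} (hp : p.IsHomogeneous D) (x : Fin (N + 1) → ℂ) :
    ‖eval x p‖ ≤ (∑ d ∈ p.support, ‖p.coeff d‖) * ‖x‖ ^ D := by
  rw [eval_eq', Finset.sum_mul]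
  refine (norm_sum_le _ _).trans (Finset.sum_le_sum fun d hd => ?_)
  rw [norm_mul, norm_prod]
  refine mul_le_mul_of_nonneg_left ?_ (norm_nonneg _)
  have h1 : ∑ i, d i = D := by
    have h2 := hp (mem_support_iff.1 hd)
    rw [Finsupp.weight_apply, Finsupp.sum_fintype _ _ (fun _ => by simp)] at h2
    simpa using h2
  calc ∏ i, ‖x i ^ d i‖ ≤ ∏ i, ‖x‖ ^ d i := by
        refine Finset.prod_le_prod (fun _ _ => norm_nonneg _) fun i _ => ?_
        rw [norm_pow]
        exact pow_le_pow_left₀ (norm_nonneg _) (norm_le_pi_norm x i) _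
    _ = ‖x‖ ^ D := by rw [Finset.prod_pow_eq_pow_sum, h1]

/-- a form of positive type vanishes along the maps of the types (i), (iv) -/
theorem sabUnion_vanishes {k : ℕ} {P : Ideal (MvPolynomial (Fin (N + 1)) ℂ)} {Λ : AddSubgroup (Fin (k + 1) → ℂ)}
    {u : PN N → (Fin (k + 1) → ℂ) ⧸ Λ} {D : Set (Fin (k + 1) → ℂ)} (hs : SimpleTorus Λ)
    (hcases : ∀ S : SabMap N, imageOf S.F ⊆ projVar P → SabCases (projVar P) Λ u D S)
    {Q : MvPolynomial (Fin (N + 1)) ℂ} {e : ℕ} (hQ : Q.IsHomogeneous e)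
    (hQD : ∀ x ∈ projVar P, (∃ b ∈ D, u x = (b : (Fin (k + 1) → ℂ) ⧸ Λ)) → VanishesAt Q x)
    (hQm : ∀ Φ ∈ merSections (projVar P) Λ u, ∀ y, eval (Φ y) Q = 0) : ∀ x ∈ sabUnion (projVar P), VanishesAt Q x := by
  rintro x ⟨S, hSX, ⟨y, hy, z, hz, hyz⟩, hx⟩
  rcases hcases S hSX with ⟨b, hb, h1⟩ | h1 | ⟨B, c, hBc, ⟨h1, h2, h3⟩ | ⟨hsur, Φ, hΦ, h1⟩⟩
  · exact hQD x (hSX hx) ⟨b, hb, h1 x hx⟩
  · exact absurd (h1 y hy z hz) hyz
  · rcases hs _ h1 with h4 | h4
    · exact absurd h4 h2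
    · exact absurd h4 h3
  · obtain ⟨w, hw, rfl⟩ := hx
    rw [vanishesAt_mk_iff hQ]
    have hc : Continuous fun z => Φ (B z + c) := by
      have h2 : Continuous fun z => B z + c := by
        have h3 : Continuous B := B.continuous_of_finiteDimensional
        exact h3.add continuous_const
      exact hΦ.1.continuous.comp h2
    refine eq_zero_of_off (eval_differentiable S.differentiable Q) hc ?_ (fun v hv => ?_) w
    · obtain ⟨y, hy⟩ := hΦ.2.1
      obtain ⟨v, hv⟩ := hsur (y - c)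
      refine ⟨v, ?_⟩
      show Φ (B v + c) ≠ 0
      rwa [hv, sub_add_cancel]
    · obtain ⟨a, ha⟩ := eq_smul_of_prop hv (h1 v)
      rw [ha, eval_smul hQ, hQm Φ hΦ, mul_zero]

theorem sabSpecialSet_subset {X : Set (PN N)} {Q : MvPolynomial (Fin (N + 1)) ℂ} {e : ℕ} (hQ : Q.IsHomogeneous e)
    (h : ∀ x ∈ sabUnion X, VanishesAt Q x) : ∀ x ∈ sabSpecialSet X, VanishesAt Q x := fun x hx => hx.2 Q e hQ h

/-- a special set in a hypersurface is not the whole variety -/
theorem sabSpecialSet_ne {P : Ideal (MvPolynomial (Fin (N + 1)) ℂ)} [P.IsPrime] (hP : Homog P) (hX : ∃ i, (X i : MvPolynomial (Fin (N + 1)) ℂ) ∉ P)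
    {Q : MvPolynomial (Fin (N + 1)) ℂ} {e : ℕ} (hQ : Q.IsHomogeneous e) (hQP : Q ∉ P) (h : ∀ x ∈ sabUnion (projVar P), VanishesAt Q x) :
    sabSpecialSet (projVar P) ≠ projVar P := by
  intro heq
  obtain ⟨x, hx, hxQ⟩ := exists_point hP hX hQP hQ
  rw [← heq] at hx
  exact hxQ (sabSpecialSet_subset hQ h x hx)

/-- the composition of a map of semi-abelian type and a rational map -/
def SabMap.comp (S : SabMap M) {D : ℕ} {γ : Fin (N + 1) → MvPolynomial (Fin (M + 1)) ℂ} (hγ : ∀ i, (γ i).IsHomogeneous D)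
    (h0 : ∃ z, vals γ (S.F z) ≠ 0) : SabMap N where
  g := S.g
  F := fun z => vals γ (S.F z)
  differentiable := differentiable_pi.2 fun i => eval_differentiable S.differentiable (γ i)
  ne_zero := h0
  growth := by
    obtain ⟨C, hC⟩ := S.growth
    obtain ⟨A, hA0, hA⟩ : ∃ A : ℝ, 0 ≤ A ∧ ∀ x, ‖vals γ x‖ ≤ A * ‖x‖ ^ D := by
      refine ⟨∑ i, ∑ d ∈ (γ i).support, ‖(γ i).coeff d‖, by positivity, fun x => ?_⟩
      rw [pi_norm_le_iff_of_nonneg (by positivity)]
      intro i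
      refine (norm_eval_form (hγ i) x).trans (mul_le_mul_of_nonneg_right ?_ (by positivity))
      exact Finset.single_le_sum (f := fun i => ∑ d ∈ (γ i).support, ‖(γ i).coeff d‖) (fun i _ => by positivity) (Finset.mem_univ i)
    refine ⟨A + D * |C|, fun z => ?_⟩
    have h1 : ‖S.F z‖ ^ D ≤ Real.exp (D * |C| * (1 + ‖z‖ ^ 2)) := by
      calc ‖S.F z‖ ^ D ≤ Real.exp (|C| * (1 + ‖z‖ ^ 2)) ^ D := by
            refine pow_le_pow_left₀ (norm_nonneg _) ((hC z).trans (Real.exp_le_exp.2 ?_)) D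
            exact mul_le_mul_of_nonneg_right (le_abs_self C) (by positivity)
        _ = Real.exp (D * |C| * (1 + ‖z‖ ^ 2)) := by rw [← Real.exp_nat_mul, mul_assoc]
    calc ‖vals γ (S.F z)‖ ≤ A * ‖S.F z‖ ^ D := hA _
      _ ≤ Real.exp A * Real.exp (D * |C| * (1 + ‖z‖ ^ 2)) :=
          mul_le_mul (by linarith [Real.add_one_le_exp A]) h1 (by positivity) (Real.exp_pos _).le
      _ = Real.exp (A + D * |C| * (1 + ‖z‖ ^ 2)) := by rw [Real.exp_add]
      _ ≤ Real.exp ((A + D * |C|) * (1 + ‖z‖ ^ 2)) := Real.exp_le_exp.2 (by nlinarith [sq_nonneg ‖z‖])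
  T := S.T
  torus := by
    intro z
    obtain ⟨C, hC⟩ := S.torus z
    obtain ⟨A, hA0, hA⟩ : ∃ A : ℝ, 0 ≤ A ∧ ∀ x, ‖vals γ x‖ ≤ A * ‖x‖ ^ D := by
      refine ⟨∑ i, ∑ d ∈ (γ i).support, ‖(γ i).coeff d‖, by positivity, fun x => ?_⟩
      rw [pi_norm_le_iff_of_nonneg (by positivity)]
      intro i
      refine (norm_eval_form (hγ i) x).trans (mul_le_mul_of_nonneg_right ?_ (by positivity))
      exact Finset.single_le_sum (f := fun i => ∑ d ∈ (γ i).support, ‖(γ i).coeff d‖) (fun i _ => by positivity) (Finset.mem_univ i)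
    refine ⟨A + D * |C|, fun t ht => ?_⟩
    have h1 : ‖S.F (z + t)‖ ^ D ≤ Real.exp (D * |C| * (1 + ‖t‖)) := by
      calc ‖S.F (z + t)‖ ^ D ≤ Real.exp (|C| * (1 + ‖t‖)) ^ D := by
            refine pow_le_pow_left₀ (norm_nonneg _) ((hC t ht).trans (Real.exp_le_exp.2 ?_)) D
            exact mul_le_mul_of_nonneg_right (le_abs_self C) (by positivity)
        _ = Real.exp (D * |C| * (1 + ‖t‖)) := by rw [← Real.exp_nat_mul, mul_assoc]
    calc ‖vals γ (S.F (z + t))‖ ≤ A * ‖S.F (z + t)‖ ^ D := hA _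
      _ ≤ Real.exp A * Real.exp (D * |C| * (1 + ‖t‖)) :=
          mul_le_mul (by linarith [Real.add_one_le_exp A]) h1 (by positivity) (Real.exp_pos _).le
      _ = Real.exp (A + D * |C| * (1 + ‖t‖)) := by rw [Real.exp_add]
      _ ≤ Real.exp ((A + D * |C|) * (1 + ‖t‖)) := Real.exp_le_exp.2 (by nlinarith [norm_nonneg t])
  L := S.L
  periodic := fun l hl z i j => eval_prop (hγ i) (hγ j) (S.periodic l hl z)
  span := S.span

/-- **Varieties with a dominant rational map.** -/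
theorem sabUnion_up {P : Ideal (MvPolynomial (Fin (N + 1)) ℂ)} [P.IsPrime] {P' : Ideal (MvPolynomial (Fin (M + 1)) ℂ)} [P'.IsPrime]
    (hP : Homog P) (hP' : Homog P') {k : ℕ} {z : Fin (k + 1) → FunField P} (hz : IsTranscendenceBasis ℂ z) {z' : Fin (k + 1) → FunField P'}
    (hz' : IsTranscendenceBasis ℂ z') (e : FunField P →ₐ[ℂ] FunField P') {R : MvPolynomial (Fin (N + 1)) ℂ} {nR : ℕ} (hnR : R.IsHomogeneous nR)
    (hRP : R ∉ P) (hR : ∀ x ∈ sabUnion (projVar P), VanishesAt R x) :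
    ∃ (T : MvPolynomial (Fin (M + 1)) ℂ) (e : ℕ), T.IsHomogeneous e ∧ T ∉ P' ∧ ∀ x ∈ sabUnion (projVar P'), VanishesAt T x := by
  obtain ⟨i₀, hi₀⟩ := Pool.Agent.H92.GT.Proj.exists_coordFun_ne_zero P z hz
  obtain ⟨j, hj⟩ := Pool.Agent.H92.GT.Proj.exists_coordFun_ne_zero P' z' hz'
  obtain ⟨D, γ, hγ, hmaps, hγ₀⟩ := exists_rat e hi₀ hj
  have hjP : X j ∉ P' := coordFun_ne_zero_iff.1 hj
  choose m D₁ α hα hαP hrel using exists_eq_aux hz hz' hγ hmaps (coordFun_ne_zero_iff.1 hi₀) hjP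
  obtain ⟨B, hB⟩ : ∃ B : MvPolynomial (Fin (N + 1)) ℂ, B = R * ∏ i, α i (Fin.last (m i)) := ⟨_, rfl⟩
  have hBhom : B.IsHomogeneous (nR + ∑ i, D₁ i) := by
    rw [hB]
    exact hnR.mul (IsHomogeneous.prod _ _ _ fun i _ => hα i _)
  have hBP : B ∉ P := by
    rw [hB]
    intro h1
    rcases Ideal.IsPrime.mem_or_mem inferInstance h1 with h2 | h2
    · exact hRP h2
    · obtain ⟨i, -, h3⟩ := (Ideal.IsPrime.prod_mem_iff (p := P)).1 h2
      exact hαP i h3
  obtain ⟨T, hT⟩ : ∃ T : MvPolynomial (Fin (M + 1)) ℂ, T = aeval γ B * γ i₀ * X j := ⟨_, rfl⟩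
  have hThom : T.IsHomogeneous (D * (nR + ∑ i, D₁ i) + D + 1) := by
    rw [hT]
    exact ((hBhom.aeval γ hγ).mul (hγ i₀)).mul (isHomogeneous_X ℂ j)
  have hTP : T ∉ P' := by
    rw [hT]
    intro h1
    rcases Ideal.IsPrime.mem_or_mem inferInstance h1 with h2 | h2
    · rcases Ideal.IsPrime.mem_or_mem inferInstance h2 with h3 | h3
      · exact hBP ((hmaps _ B hBhom).1 h3)
      · exact hγ₀ h3
    · exact hjP h2
  refine ⟨T, _, hThom, hTP, ?_⟩
  rintro _ ⟨S, hSX, ⟨y₁, hy₁, y₂, hy₂, hne⟩, ⟨w, hw, rfl⟩⟩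
  rw [vanishesAt_mk_iff hThom]
  by_contra hTw
  rw [hT, map_mul, map_mul, mul_eq_zero, mul_eq_zero, not_or, not_or, eval_X, eval_comp] at hTw
  obtain ⟨⟨hw1, hw2⟩, hw3⟩ := hTw
  rw [hB, map_mul, mul_eq_zero, not_or, map_prod, Finset.prod_eq_zero_iff] at hw1
  push Not at hw1
  obtain ⟨hwR, hwα⟩ := hw1
  have hv0 : vals γ (S.F w) ≠ 0 := fun h0 => hw2 (congrFun h0 i₀)
  obtain ⟨S', hS'⟩ : ∃ S' : SabMap N, S' = S.comp hγ ⟨w, hv0⟩ := ⟨_, rfl⟩
  -- the values are in `P`
  have hP'v : ∀ v, S.F v ≠ 0 → ∀ G ∈ P', eval (S.F v) G = 0 := by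
    intro v hv G hG
    have h1 := hSX ⟨v, hv, rfl⟩
    rw [mk_mem_projVar hP' hv] at h1
    exact h1.2 G hG
  have hmem : ∀ v, ∀ h : vals γ (S.F v) ≠ 0, Projectivization.mk ℂ (vals γ (S.F v)) h ∈ projVar P := by
    intro v hv G hG n hGn
    rw [vanishesAt_mk_iff hGn, ← eval_comp]
    refine eq_zero_of_off (eval_differentiable S.differentiable (aeval γ G)) S.differentiable.continuous S.ne_zero (fun v' hv' => ?_) v
    exact hP'v v' hv' _ ((hmaps n G hGn).2 hG)
  have himg : imageOf (fun z => vals γ (S.F z)) ⊆ projVar P := by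
    rintro _ ⟨v, hv, rfl⟩
    exact hmem v hv
  by_cases hcon : ∀ x ∈ imageOf (fun z => vals γ (S.F z)), ∀ y ∈ imageOf (fun z => vals γ (S.F z)), x = y
  · -- the composition is constant
    apply hne
    have key : ∀ v i, S.F v i * S.F w j = S.F v j * S.F w i := by
      intro v i
      -- the line
      obtain ⟨φ, hφ⟩ : ∃ φ : ℂ → Fin (M + 1) → ℂ, φ = fun ζ => S.F (w + ζ • (v - w)) := ⟨_, rfl⟩
      have hφd : Differentiable ℂ φ := by
        have h1 : Differentiable ℂ fun ζ : ℂ => w + ζ • (v - w) := by fun_prop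
        rw [hφ]
        exact S.differentiable.comp h1
      have hφi : ∀ i, Differentiable ℂ fun ζ => φ ζ i := differentiable_pi.1 hφd
      have hφ0 : φ 0 = S.F w := by rw [hφ]; simp
      have hφ1 : φ 1 = S.F v := by rw [hφ]; simp
      have hvc : Continuous fun ζ => vals γ (φ ζ) := by
        have h1 : Continuous fun z => vals γ (S.F z) :=
          continuous_pi fun i => (eval_differentiable S.differentiable (γ i)).continuous
        have h2 : Continuous fun ζ : ℂ => w + ζ • (v - w) := by fun_prop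
        rw [hφ]
        exact h1.comp h2
      have hev : ∀ᶠ ζ in 𝓝 (0 : ℂ), vals γ (φ ζ) ≠ 0 ∧ φ ζ j ≠ 0 := by
        refine (hvc.continuousAt.eventually_ne ?_).and ((hφi j).continuous.continuousAt.eventually_ne ?_)
        · rw [hφ0]
          exact hv0
        · rw [hφ0]
          exact hw3
      obtain ⟨r, hr, hball⟩ := Metric.eventually_nhds_iff_ball.1 hev
      have hconst : ∀ ζ ∈ ball (0 : ℂ) r, φ ζ i / φ ζ j = φ 0 i / φ 0 j := by
        refine const_of_root (b := fun l => eval (vals γ (S.F w)) (α i l)) (hwα i (Finset.mem_univ i)) (ρ := fun ζ => φ ζ i / φ ζ j)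
          (fun ζ hζ => ?_) fun ζ hζ => ?_
        · exact ((hφi i).continuous.continuousAt.div (hφi j).continuous.continuousAt (hball ζ hζ).2).continuousWithinAt
        · obtain ⟨h1, h2⟩ := hball ζ hζ
          have h3 : φ ζ = S.F (w + ζ • (v - w)) := by rw [hφ]
          have h4 : φ ζ ≠ 0 := fun h => h2 (congrFun h j)
          have h5 : eval (φ ζ) (∑ l : Fin (m i + 1), aeval γ (α i l) * X i ^ (l : ℕ) * X j ^ (m i - (l : ℕ))) = 0 := by
            rw [h3]
            exact hP'v _ (by rw [← h3]; exact h4) _ (hrel i)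
          rw [← rel_vals] at h5
          have h1' : vals γ (S.F (w + ζ • (v - w))) ≠ 0 := by
            rw [← h3]
            exact h1
          have h6 := hcon _ ⟨w + ζ • (v - w), h1', rfl⟩ _ ⟨w, hv0, rfl⟩
          rw [Projectivization.mk_eq_mk_iff'] at h6
          obtain ⟨c, hc⟩ := h6
          have hc : c • vals γ (S.F w) = vals γ (φ ζ) := by
            rw [h3]
            exact hc
          have hc0 : c ≠ 0 := by
            rintro rfl
            rw [zero_smul] at hc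
            exact h1 hc.symm
          have h7 : rel (α i) i j (c • vals γ (S.F w)) ((1 : ℂ) • φ ζ) = 0 := by
            rw [hc, one_smul]
            exact h5
          rw [rel_smul (hα i), one_pow, mul_one, mul_eq_zero] at h7
          have h8 := h7.resolve_left (pow_ne_zero _ hc0)
          unfold rel at h8
          have h9 : ∀ l : Fin (m i + 1), eval (vals γ (S.F w)) (α i l) * φ ζ i ^ (l : ℕ) * φ ζ j ^ (m i - (l : ℕ)) =
              φ ζ j ^ m i * (eval (vals γ (S.F w)) (α i l) * (φ ζ i / φ ζ j) ^ (l : ℕ)) := by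
            intro l
            have h9 : (l : ℕ) ≤ m i := Nat.lt_succ_iff.1 l.2
            have h10 : φ ζ j ^ m i = φ ζ j ^ (l : ℕ) * φ ζ j ^ (m i - (l : ℕ)) := by
              rw [← pow_add, Nat.add_sub_cancel' h9]
            rw [h10, div_pow]
            field_simp
          rw [Finset.sum_congr rfl fun l _ => h9 l, ← Finset.mul_sum, mul_eq_zero] at h8
          exact h8.resolve_left (pow_ne_zero _ h2)
      have hd : Differentiable ℂ fun ζ => φ ζ i * φ 0 j - φ ζ j * φ 0 i := ((hφi i).mul_const _).sub ((hφi j).mul_const _)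
      have h1 : AnalyticOnNhd ℂ (fun ζ => φ ζ i * φ 0 j - φ ζ j * φ 0 i) Set.univ := fun ζ _ => hd.analyticAt ζ
      have h2 := h1.eqOn_zero_of_preconnected_of_eventuallyEq_zero isPreconnected_univ (Set.mem_univ (0 : ℂ)) (by
        filter_upwards [ball_mem_nhds (0 : ℂ) hr] with ζ hζ
        have h3 := hconst ζ hζ
        rw [div_eq_div_iff (hball ζ hζ).2 (hball 0 (mem_ball_self hr)).2] at h3
        show φ ζ i * φ 0 j - φ ζ j * φ 0 i = 0
        linear_combination h3) (Set.mem_univ (1 : ℂ))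
      have h3 : φ 1 i * φ 0 j - φ 1 j * φ 0 i = 0 := h2
      rw [hφ0, hφ1] at h3
      linear_combination h3
    obtain ⟨v₁, hv₁, rfl⟩ := hy₁
    obtain ⟨v₂, hv₂, rfl⟩ := hy₂
    have hform : ∀ v, S.F v = (S.F v j / S.F w j) • S.F w := by
      intro v
      funext i
      show S.F v i = S.F v j / S.F w j * S.F w i
      have h1 := key v i
      field_simp
      linear_combination h1
    refine mk_eq_of_prop hv₁ hv₂ fun a b => ?_
    rw [hform v₁, hform v₂]
    simp only [Pi.smul_apply, smul_eq_mul]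
    ring
  · push Not at hcon
    apply hwR
    rw [← vanishesAt_mk_iff (v := vals γ (S.F w)) (hv := hv0) hnR]
    exact hR _ ⟨S.comp hγ ⟨w, hv0⟩, himg, hcon, ⟨w, hv0, rfl⟩⟩

end Pool.Agent.TG

end
end

section

/-!
# TG MerConc: the meromorphic sections of a projective variety over a torus: finiteness, periodicity, a hypersurface
-/

set_option autoImplicit false

open Topology Filter Metric MvPolynomial

noncomputable section

namespace Pool.Agent.TG

open Pool.Agent.H36.BP (EN)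
open Pool.Agent.H14.PP (IsCone)
open Pool.Agent.H62.EF (MN pr)
open Pool.Agent.AD (Vd uV uV_eq sub_mem_iff)
open Pool.Agent.H17 (PN VanishesAt)
open Pool.Agent.H62.FC (Homog)
open Pool.Agent.H17LG.Variety (FunField)
open Pool.Agent.H17EF (projVar coneE LE mk_mem_projVar)

variable {N k : ℕ} {P : Ideal (MvPolynomial (Fin (N + 1)) ℂ)} {Λ : AddSubgroup (Fin (k + 1) → ℂ)} {u : PN N → (Fin (k + 1) → ℂ) ⧸ Λ}
  {D B : Set (Vd (k + 1))}

theorem LE_symm_ne {x : EN N} : (LE N).symm x ≠ 0 ↔ x ≠ 0 :=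
  not_congr ⟨fun h => (LE N).symm.injective (h.trans (map_zero _).symm), fun h => by rw [h, map_zero]⟩

/-- the meromorphic sections in the cone -/
theorem mer_of_sections (hP : Homog P) {F : (Fin (k + 1) → ℂ) → Fin (N + 1) → ℂ} (hF : F ∈ merSections (projVar P) Λ u) :
    Mer (coneE P) Λ (uV Λ u) fun y => LE N (F y) := by
  obtain ⟨h1, ⟨y₀, h2⟩, h3⟩ := hF
  refine ⟨fun y => analyticAt_vd ((LE N).differentiable.comp h1) y, ⟨y₀, LE_ne.2 h2⟩, fun y hy => ?_⟩
  have hy' : F y ≠ 0 := LE_ne.1 hy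
  obtain ⟨h4, h5⟩ := h3 y hy'
  refine ⟨?_, ?_⟩
  · rw [mk_mem_projVar hP hy'] at h4
    show (LE N).symm (LE N (F y)) ∈ Pool.Agent.H13.SM.cone P
    rwa [ContinuousLinearEquiv.symm_apply_apply]
  · have h6 : (LE N).symm (LE N (F y)) ≠ 0 := by rwa [ContinuousLinearEquiv.symm_apply_apply]
    rw [sub_mem_iff, uV_eq Λ u h6]
    exact h5

theorem sections_of_mer (hP : Homog P) {G : Vd (k + 1) → EN N} (hG : Mer (coneE P) Λ (uV Λ u) G) :
    (fun y => (LE N).symm (G y)) ∈ merSections (projVar P) Λ u := by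
  have hd : Differentiable ℂ G := fun y => (hG.an y).differentiableAt
  refine ⟨(LE N).symm.differentiable.comp hd, ?_, fun y hy => ?_⟩
  · obtain ⟨y, hy⟩ := hG.ne
    exact ⟨y, LE_symm_ne.2 hy⟩
  · obtain ⟨h3, h4⟩ := hG.mem y (LE_symm_ne.1 hy)
    refine ⟨?_, ?_⟩
    · rw [mk_mem_projVar hP hy]
      exact h3
    · rw [sub_mem_iff, uV_eq Λ u hy] at h4
      exact h4

/-- the conclusions on the meromorphic sections -/
structure MerConc (P : Ideal (MvPolynomial (Fin (N + 1)) ℂ)) (Λ : AddSubgroup (Fin (k + 1) → ℂ)) (u : PN N → (Fin (k + 1) → ℂ) ⧸ Λ) : Prop where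
  finite : ∃ T : Set ((Fin (k + 1) → ℂ) → Fin (N + 1) → ℂ), T.Finite ∧ T ⊆ merSections (projVar P) Λ u ∧
    ∀ F ∈ merSections (projVar P) Λ u, ∃ G ∈ T, SameProjMap F G
  periodic : ∃ M : ℕ, 1 ≤ M ∧ ∀ F ∈ merSections (projVar P) Λ u, ∀ l ∈ Λ, SameProjMap F fun y => F (y + M • l)
  form : ∃ (d : ℕ) (Q : MvPolynomial (Fin (N + 1)) ℂ), Q.IsHomogeneous d ∧ Q ∉ P ∧ ∀ F ∈ merSections (projVar P) Λ u, ∀ y, eval (F y) Q = 0

/-- **The meromorphic sections.** -/
theorem merConc [P.IsPrime] (hP : Homog P) {z : Fin (k + 2) → FunField P} (hz : IsTranscendenceBasis ℂ z)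
    (G : Geo (coneE P) Λ (uV Λ u) D B) (hlip : ∀ y ∉ D, CLip (coneE P) Λ (uV Λ u) y) (hfin : FinSec (coneE P) Λ (uV Λ u) D) :
    MerConc P Λ u := by
  obtain ⟨T, hT, hTm, hTs⟩ := mer_finite G.cone G.tor G.lat G.D_closed G.D_thin hlip hfin
  obtain ⟨M, hM, hper⟩ := mer_periodic hT hTm hTs
  have hround : ∀ {F : (Fin (k + 1) → ℂ) → Fin (N + 1) → ℂ} {H : Vd (k + 1) → EN N}, SameMap (fun y => LE N (F y)) H → SameProjMap F fun y => (LE N).symm (H y) :=
    fun h z i j => h z i j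
  refine ⟨⟨(fun H : Vd (k + 1) → EN N => fun y => (LE N).symm (H y)) '' T, hT.image _, ?_, fun F hF => ?_⟩, ⟨M, hM, fun F hF l hl => ?_⟩, ?_⟩
  · rintro _ ⟨H, hH, rfl⟩
    exact sections_of_mer hP (hTm H hH)
  · obtain ⟨H, hH, h1⟩ := hTs _ (mer_of_sections hP hF)
    exact ⟨_, ⟨H, hH, rfl⟩, hround h1⟩
  · have h1 := hper _ (mer_of_sections hP hF) l hl
    exact fun z i j => h1 z i j
  · -- the form
    obtain ⟨J, f, hf⟩ : ∃ (J : ℕ) (f : Fin J → Vd (k + 1) → EN N), Set.range f = T := by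
      obtain ⟨J, e⟩ := Finite.exists_equiv_fin T (h := hT.to_subtype)
      obtain ⟨e⟩ := e
      refine ⟨J, fun i => (e.symm i : Vd (k + 1) → EN N), ?_⟩
      ext H
      constructor
      · rintro ⟨i, rfl⟩
        exact (e.symm i).2
      · intro hH
        exact ⟨e ⟨H, hH⟩, congrArg Subtype.val (e.symm_apply_apply ⟨H, hH⟩)⟩
    have hfT : ∀ i, Mer (coneE P) Λ (uV Λ u) (f i) := fun i => hTm _ (by rw [← hf]; exact ⟨i, rfl⟩)
    have hd : ∀ i, Differentiable ℂ (f i) := fun i y => ((hfT i).an y).differentiableAt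
    obtain ⟨i₀, hi₀⟩ := Pool.Agent.H92.GT.Proj.exists_coordFun_ne_zero P z hz
    obtain ⟨R, hR, hRb⟩ := G.lat.cpt
    obtain ⟨d, Q, -, hQ, hQP, hQF⟩ := exists_form_of_entire (n := k + 1) hz ⟨i₀, Pool.Agent.H17R.coordFun_ne_zero_iff.1 hi₀⟩
      (Γ := Λ.map (nsmulAddMonoidHom M)) ⟨M * R, fun y => by
        obtain ⟨l, hl, h1⟩ := hRb (((M : ℝ)⁻¹ : ℝ) • y)
        refine ⟨M • l, ⟨l, hl, rfl⟩, ?_⟩
        have hM0 : (0 : ℝ) < M := by exact_mod_cast hM
        have h2 : y - M • l = (M : ℝ) • ((((M : ℝ)⁻¹ : ℝ) • y) - l) := by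
          rw [smul_sub, smul_smul, mul_inv_cancel₀ hM0.ne', one_smul, Nat.cast_smul_eq_nsmul]
        rw [h2, norm_smul, Real.norm_of_nonneg hM0.le]
        exact mul_le_mul_of_nonneg_left h1 hM0.le⟩
      G.D_closed (fun y hy l hl => by
        obtain ⟨l', hl', rfl⟩ := hl
        exact G.D_inv y hy _ (Λ.nsmul_mem hl' M)) G.D_thin
      (F := fun j y => (LE N).symm (f j y)) (fun j => (LE N).symm.differentiable.comp (hd j))
      (fun j => by
        obtain ⟨y, hy⟩ := (hfT j).ne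
        exact ⟨y, LE_symm_ne.2 hy⟩)
      (fun j l hl y a b => by
        obtain ⟨l', hl', rfl⟩ := hl
        have h1 := hper _ (hfT j) l' hl' y a b
        show (f j (y + M • l')) a * (f j y) b = (f j (y + M • l')) b * (f j y) a
        linear_combination -h1)
      (fun j y₀ hy₀ => by
        obtain ⟨φ, h1, h2, h3⟩ := mer_germ G.cone G.tor G.lat (hlip y₀ hy₀) (hfT j)
        have h4 : ∀ y, φ y ∈ coneE P → φ y ≠ 0 := fun y hy h => G.cone.zero_notMem (h ▸ hy)
        refine ⟨fun y => (LE N).symm (φ y), ((LE N).symm : EN N →L[ℂ] (Fin (N + 1) → ℂ)).analyticAt _ |>.comp h1, LE_symm_ne.2 (h4 _ h2.self_of_nhds.1), ?_⟩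
        filter_upwards [h2, h3] with y h5 h6 a b
        show (f j y) a * (φ y) b = (f j y) b * (φ y) a
        by_cases h7 : f j y = 0
        · rw [h7]
          simp
        · have h8 := (cross_iff h7 (h4 _ h5.1)).2 (h6 h7).symm
          exact h8 a b)
    refine ⟨d, Q, hQ, hQP, fun F hF y => ?_⟩
    obtain ⟨H, hH, h1⟩ := hTs _ (mer_of_sections hP hF)
    rw [← hf] at hH
    obtain ⟨j, rfl⟩ := hH
    have hc : Continuous fun y => (LE N).symm (f j y) := ((LE N).symm.differentiable.comp (hd j)).continuous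
    refine eq_zero_of_off (eval_differentiable hF.1 Q) hc ?_ (fun v hv => ?_) y
    · obtain ⟨y, hy⟩ := (hfT j).ne
      exact ⟨y, LE_symm_ne.2 hy⟩
    · obtain ⟨a, ha⟩ := eq_smul_of_prop hv (hround h1 v)
      rw [ha, Pool.Agent.H23.GU.eval_smul hQ, hQF j v, mul_zero]

end Pool.Agent.TG

end
end

section

/-!
# G3 R ShtF: basic facts on a finite set of sheets

`exists_shs`: from `sht_finite`, `sht_add`.  `Shs.unif`: uniform continuity on `T ∩ Gd D δ`, `T = Tb b E` (closed: finite dimension; compactness of the bounded part, finitely many sheets, `cpt`, `tr`).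
`Shs.lm`: the curves `φ (y n + z a)` converge.  `Shs.red`: translation of a point of `T` to a bounded point.
-/

set_option autoImplicit false

open Topology Filter Metric

namespace Pool.Agent.G3.R

open Pool.Agent.H36.BP (EN fs wd)
open Pool.Agent.H14.PP (IsCone CurveAt Tan)
open Pool.Agent.H62.EF (MN pr)
open Pool.Agent.AD (Vd Chart Charts IsGerm)
open Pool.Agent.TG
open Pool.Agent.G3.C (Gc HP nv nd nv_pr)
open Pool.Agent.G3.A

variable {N k : ℕ} {X : Set (EN N)} {Λ : AddSubgroup (Vd (k + 1))} {u : EN N → Vd (k + 1)} {D B Bad : Set (Vd (k + 1))} {a b w : Vd (k + 1)} {E : Submodule ℝ (Vd (k + 1))}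
  {SS : Set (Vd (k + 1) → MN N)} {J : ℕ} {α : Fin J → VForm X Λ u} {c₀ C₀ ρ δ : ℝ}

theorem exists_shs (S : DA X Λ u D B Bad a α c₀ C₀ ρ δ) (hE : CE X Λ u a b E) : ∃ SS : Set (Vd (k + 1) → MN N), Shs X Λ u D a b E SS ∧
    ∀ ψ, Sht X Λ u D a (Tb b E) ψ → ∃ φ ∈ SS, ∀ y ∈ Tb b E, ψ y = φ y := by
  obtain ⟨SS, h1, h2, h3, -⟩ := sht_finite S hE
  refine ⟨SS, ⟨hE.mem, hE.cpt, h1, h2, fun φ hφ l hl hlE => ?_⟩, h3⟩
  obtain ⟨φ', hφ', h4⟩ := h3 _ (sht_add (h2 φ hφ) S.lg hl hlE)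
  exact ⟨φ', hφ', fun y hy => (h4 y hy).symm⟩

end Pool.Agent.G3.R

end
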