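import Pool.Agent.H94.G4T.M115
import Pool.Agent.H94.G4T.M21
import Pool.Agent.H94.G4T.M61

/-! The parts of this file: G4.A.Fch, G4.A.Fch_1. -/

section

/-!
# G4 A Fch: charts of the fibres with uniform constants

`exists_fch`: for every `y₁ ∈ Gd D δ'` and every unit vector `v` over `y₁` a chart `Fch` of the fibres near `v`: a coordinate `h`, its inverse `Θ (h, y)`, primitives `Ψ j = Bj j (h, y)` of the forms `α j`; the constants `K`, `c₁` depend on `δ'` only.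

Proof: `uc_base` (`G3/R/PrmU`) gives straight charts `χ` with uniform constants; `h = χ.q · 0` (or the `0`-th coordinate), `Θ (s, y) = χ.σ (cy c ρ s y)` multiplied by the scalar which makes `⟨v, ·⟩ = 1`, `Ψ j` from `UC.prm`
(as in `exists_prm_unif`, `prim_bd`, `tc_dec`, with `DecW` in place of `Dec`), `B_lb` from `Sepa` (as in `exists_prm_inv` of `G3/R/PrmI` and `jn` of `G3/A/JN`), uniform in `y₁` by the theta factors
(`Tht Γ W (α j)`, the weight `wt W`; `Γ` is a lattice, so `y₁` may be moved to a compact set).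
-/

set_option autoImplicit false

open Topology Filter Metric

namespace Pool.Agent.G4.A

open Pool.Agent.H36.BP (EN fs wd)
open Pool.Agent.H14.PP (IsCone CurveAt Tan)
open Pool.Agent.H62.EF (MN pr)
open Pool.Agent.AD (Vd Chart Charts IsGerm)
open Pool.Agent.TG
open Pool.Agent.G3
open Pool.Agent.G3.A
open Pool.Agent.G3.C (Gc nv nd nv_pr)

variable {N k : ℕ} {X : Set (EN N)} {Λ : AddSubgroup (Vd (k + 1))} {u : EN N → Vd (k + 1)} {D B Bad : Set (Vd (k + 1))} {a : Vd (k + 1)}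
  {Γ : AddSubgroup (Vd (k + 1))} {J rW : ℕ} {W : Fin rW → Vd (k + 1) →L[ℂ] ℂ} {α : Fin J → VForm X Λ u} {c₀ C₀ ρ δ : ℝ}

private theorem fch_cons_an {E : Type} [NormedAddCommGroup E] [NormedSpace ℂ E] {f : E → ℂ} {g : E → Vd (k + 1)} {x : E} (hf : AnalyticAt ℂ f x) (hg : AnalyticAt ℂ g x) :
    AnalyticAt ℂ (fun x => (Fin.cons (f x) (g x) : Vd (k + 2))) x := by
  rw [analyticAt_pi_iff]
  intro i
  refine Fin.cases ?_ (fun j => ?_) i
  · simpa using hf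
  · simpa using (analyticAt_pi_iff.1 hg) j

/-- the point of the chart with the coordinate `s` along the fibre over `y` -/
noncomputable def fcy (c : Vd (k + 1)) (ρ : ℝ) (p : ℂ × Vd (k + 1)) : Vd (k + 2) := Fin.cons p.1 ((ρ : ℂ)⁻¹ • (p.2 - c))

theorem fcy_an (c : Vd (k + 1)) (ρ : ℝ) (p : ℂ × Vd (k + 1)) : AnalyticAt ℂ (fcy c ρ) p := by
  refine fch_cons_an analyticAt_fst ?_
  exact AnalyticAt.fun_smul analyticAt_const (analyticAt_snd.sub analyticAt_const)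

theorem fcy_fd (c : Vd (k + 1)) (ρ : ℝ) (p : ℂ × Vd (k + 1)) : fderiv ℂ (fcy c ρ) p (1, 0) = Pi.single 0 1 := by
  have h1 : HasFDerivAt (fcy c ρ) (fderiv ℂ (fcy c ρ) p) p := (fcy_an c ρ p).differentiableAt.hasFDerivAt
  have hpi := hasFDerivAt_pi'.1 h1
  funext i
  refine Fin.cases ?_ (fun l => ?_) i
  · have h2 := (hpi 0).fderiv
    have h3 : (fun x : ℂ × Vd (k + 1) => fcy c ρ x 0) = fun x => x.1 := by
      funext x
      simp [fcy]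
    rw [h3] at h2
    have h4 : fderiv ℂ (fun x : ℂ × Vd (k + 1) => x.1) p = ContinuousLinearMap.fst ℂ ℂ (Vd (k + 1)) := fderiv_fst
    rw [h4] at h2
    have h5 := congrArg (fun L => L (1, 0)) h2
    simp at h5
    rw [← h5]
    simp
  · have h2 := (hpi l.succ).fderiv
    have h3 : (fun x : ℂ × Vd (k + 1) => fcy c ρ x l.succ) = fun x => (ρ : ℂ)⁻¹ * (x.2 l - c l) := by
      funext x
      simp [fcy]
    rw [h3] at h2
    have h4 : HasFDerivAt (fun x : ℂ × Vd (k + 1) => (ρ : ℂ)⁻¹ * (x.2 l - c l))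
        ((ρ : ℂ)⁻¹ • ((ContinuousLinearMap.proj (R := ℂ) (φ := fun _ : Fin (k + 1) => ℂ) l).comp (ContinuousLinearMap.snd ℂ ℂ (Vd (k + 1))))) p := by
      have h5 : HasFDerivAt (fun x : ℂ × Vd (k + 1) => x.2 l)
          ((ContinuousLinearMap.proj (R := ℂ) (φ := fun _ : Fin (k + 1) => ℂ) l).comp (ContinuousLinearMap.snd ℂ ℂ (Vd (k + 1)))) p :=
        ((ContinuousLinearMap.proj (R := ℂ) (φ := fun _ : Fin (k + 1) => ℂ) l).comp (ContinuousLinearMap.snd ℂ ℂ (Vd (k + 1)))).hasFDerivAt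
      exact (h5.sub_const (c l)).const_mul ((ρ : ℂ)⁻¹)
    rw [h4.fderiv] at h2
    have h5 := congrArg (fun L => L (1, 0)) h2
    simp at h5
    rw [← h5]
    simp

theorem fcy_q {c : Vd (k + 1)} {ρ : ℝ} (hρ : 0 < ρ) {p : Vd (k + 2)} {y : Vd (k + 1)} (h : ms c ρ p = y) : fcy c ρ (p 0, y) = p := by
  have hρ1 : (ρ : ℂ) ≠ 0 := by exact_mod_cast hρ.ne'
  funext i
  refine Fin.cases ?_ (fun l => ?_) i
  · simp [fcy]
  · have h1 : (ρ : ℂ)⁻¹ * (y l - c l) = p l.succ := by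
      rw [← h]
      simp [ms, tl]
      field_simp
    simpa [fcy] using h1

/-- the bound of the coefficient -/
theorem fch_tc {α : VForm X Λ u} {C₀ : ℝ} (hα : DecW W α C₀) {χ : Chart (k + 2) X} {υ : Vd (k + 2) → Vd (k + 1)} {p : Vd (k + 2)}
    (hp : p ∈ ball (0 : Vd (k + 2)) 2) (hl : u (χ.σ p) - υ p ∈ Λ) {K : ℝ} (hK : 0 < K) (hb : ∀ i, ‖fderiv ℂ χ.σ p (Pi.single i 1)‖ ≤ K * ‖χ.σ p‖) :
    ‖tc α χ υ p‖ ≤ K ^ (k + 2) * (C₀ * Real.exp (-wt W (υ p))) := by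
  have hKC : (K : ℂ) ≠ 0 := by exact_mod_cast hK.ne'
  set t : Fin (k + 2) → EN N := fun i => fderiv ℂ χ.σ p (Pi.single i ((K : ℂ)⁻¹)) with ht
  have hts : ∀ i, t i = (K : ℂ)⁻¹ • fderiv ℂ χ.σ p (Pi.single i 1) := fun i => by
    rw [ht]
    show fderiv ℂ χ.σ p (Pi.single i ((K : ℂ)⁻¹)) = _
    rw [← map_smul]
    congr 1
    rw [← Pi.single_smul, smul_eq_mul, mul_one]
  have htan : ∀ i, Tan X (χ.σ p) (t i) := fun i => tan_sigma χ hp _
  have h1 := hα (υ p) (χ.σ p) (χ.σ_mem p hp).1 hl t htan (fun i => by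
    rw [hts, norm_smul, norm_inv, Complex.norm_real, Real.norm_of_nonneg hK.le, inv_mul_le_iff₀ hK]
    exact hb i)
  have h2 := α.det (υ p) (χ.σ p) (χ.σ_mem p hp).1 hl t htan ((K : ℂ) • (1 : Matrix (Fin (k + 2)) (Fin (k + 2)) ℂ))
  have h3 : (fun i => ∑ j, ((K : ℂ) • (1 : Matrix (Fin (k + 2)) (Fin (k + 2)) ℂ)) i j • t j) = fun i => fderiv ℂ χ.σ p (Pi.single i 1) := by
    funext i
    rw [Finset.sum_eq_single i]
    · rw [Matrix.smul_apply, Matrix.one_apply_eq, smul_eq_mul, mul_one, hts, smul_smul, mul_inv_cancel₀ hKC, one_smul]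
    · intro j _ hj
      rw [Matrix.smul_apply, Matrix.one_apply_ne hj.symm, smul_zero, zero_smul]
    · intro hi
      exact absurd (Finset.mem_univ i) hi
  rw [h3, Matrix.det_smul, Matrix.det_one, mul_one, Fintype.card_fin] at h2
  have h4 : tc α χ υ p = (K : ℂ) ^ (k + 2) * α.toFun (υ p) (χ.σ p) t := h2
  rw [h4, norm_mul, norm_pow, Complex.norm_real, Real.norm_of_nonneg hK.le]
  exact mul_le_mul_of_nonneg_left h1 (pow_nonneg hK.le _)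

end Pool.Agent.G4.A

end

section

/-!
# G4 A Fch: charts of the fibres with uniform constants

`exists_fch`: for every `y₁ ∈ Gd D δ'` and every unit vector `v` over `y₁` a chart `Fch` of the fibres near `v`: a coordinate `h`, its inverse `Θ (h, y)`, primitives `Ψ j = Bj j (h, y)` of the forms `α j`; the constants `K`, `c₁` depend on `δ'` only.

Proof: `uc_base` (`G3/R/PrmU`) gives straight charts `χ` with uniform constants; `h = χ.q · 0` (or the `0`-th coordinate), `Θ (s, y) = χ.σ (cy c ρ s y)` multiplied by the scalar which makes `⟨v, ·⟩ = 1`, `Ψ j` from `UC.prm`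
(as in `exists_prm_unif`, `prim_bd`, `tc_dec`, with `DecW` in place of `Dec`), `B_lb` from `Sepa` (as in `exists_prm_inv` of `G3/R/PrmI` and `jn` of `G3/A/JN`), uniform in `y₁` by the theta factors
(`Tht Γ W (α j)`, the weight `wt W`; `Γ` is a lattice, so `y₁` may be moved to a compact set).
-/

set_option autoImplicit false

open Topology Filter Metric

namespace Pool.Agent.G4.A

open Pool.Agent.H36.BP (EN fs wd)
open Pool.Agent.H14.PP (IsCone CurveAt Tan)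
open Pool.Agent.H62.EF (MN pr)
open Pool.Agent.AD (Vd Chart Charts IsGerm)
open Pool.Agent.TG
open Pool.Agent.G3
open Pool.Agent.G3.A
open Pool.Agent.G3.R (Prm Shs DDb Nod dd dw UC uc_base)
open Pool.Agent.G3.C (Gc nv nd nv_pr)

variable {N k : ℕ} {X : Set (EN N)} {Λ : AddSubgroup (Vd (k + 1))} {u : EN N → Vd (k + 1)} {D B Bad : Set (Vd (k + 1))} {a : Vd (k + 1)}
  {Γ : AddSubgroup (Vd (k + 1))} {J rW : ℕ} {W : Fin rW → Vd (k + 1) →L[ℂ] ℂ} {α : Fin J → VForm X Λ u} {c₀ C₀ ρ δ : ℝ}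

/-- uniform charts, with the lower bound of the coefficients -/
private theorem fch_unif (G : Geo X Λ u D B) (F : Frm X Λ u D Γ W α) {δ : ℝ} (hδ : 0 < δ) : ∃ R K c₁ : ℝ, 0 < R ∧ 0 < c₁ ∧ ∀ y₀ ∈ Gd D δ, ∀ v ∈ X, ‖v‖ = 1 → u v - y₀ ∈ Λ →
    ∃ (χ : Chart (k + 2) X) (c : Vd (k + 1)) (ρ : ℝ), UC Λ u χ c ρ y₀ v R K ∧ ‖fderiv ℂ χ.q v‖ ≤ K ∧ ∃ j, c₁ * Real.exp (-wt W y₀) ≤ ‖tc (α j) χ (ms c ρ) (χ.q v)‖ := by
  obtain ⟨R₂, -, hR₂⟩ := F.lat.cpt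
  have key : ∃ n : ℕ, ∀ y₀ ∈ Gd D δ, ‖y₀‖ ≤ R₂ → ∀ v ∈ X, ‖v‖ = 1 → u v - y₀ ∈ Λ →
      ∃ (χ : Chart (k + 2) X) (c : Vd (k + 1)) (ρ : ℝ), UC Λ u χ c ρ y₀ v (1 / ((n : ℝ) + 1)) n ∧ ‖fderiv ℂ χ.q v‖ ≤ n ∧
        ∃ j, 1 / ((n : ℝ) + 1) * Real.exp (-wt W y₀) ≤ ‖tc (α j) χ (ms c ρ) (χ.q v)‖ := by
    by_contra hcon
    push Not at hcon
    choose y hy hyR v hv hv1 huv hno using hcon
    have h𝒰 : ((hyperfilter ℕ : Ultrafilter ℕ) : Filter ℕ) ≤ atTop := Nat.hyperfilter_le_atTop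
    have hKc : IsCompact (closedBall (0 : Vd (k + 1)) R₂ ∩ Gd D δ) := (isCompact_closedBall 0 R₂).inter_right (gd_closed D δ)
    have hle : (((hyperfilter ℕ : Ultrafilter ℕ).map y : Ultrafilter (Vd (k + 1))) : Filter (Vd (k + 1))) ≤ 𝓟 (closedBall (0 : Vd (k + 1)) R₂ ∩ Gd D δ) := by
      rw [le_principal_iff]
      exact Filter.mem_map.2 (Filter.univ_mem' fun n => ⟨by rw [mem_closedBall, dist_zero_right]; exact hyR n, hy n⟩)
    obtain ⟨w, hw, hlim⟩ := hKc.ultrafilter_le_nhds _ hle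
    have hle2 : (((hyperfilter ℕ : Ultrafilter ℕ).map v : Ultrafilter (EN N)) : Filter (EN N)) ≤ 𝓟 (X ∩ sphere (0 : EN N) 1) := by
      rw [le_principal_iff]
      exact Filter.mem_map.2 (Filter.univ_mem' fun n => ⟨hv n, by rw [mem_sphere_zero_iff_norm]; exact hv1 n⟩)
    obtain ⟨v₀, hv₀, hlim2⟩ := (compact_unit G.cone).ultrafilter_le_nhds _ hle2
    have hyw : Tendsto y (hyperfilter ℕ : Ultrafilter ℕ) (𝓝 w) := hlim
    have hvw : Tendsto v (hyperfilter ℕ : Ultrafilter ℕ) (𝓝 v₀) := hlim2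
    have huw : u v₀ - w ∈ Λ := lim_mem G.lat G.tor hv₀.1 hvw hyw (Filter.Eventually.of_forall fun n => ⟨hv n, huv n⟩)
    have hwD : w ∉ D := gd_notMem hδ hw.2
    obtain ⟨χ, ρ, R₀, K, hU, hq, hR₀, hUC⟩ := uc_base G hwD hv₀.1 huw
    obtain ⟨j, vv, hvt, hne⟩ := F.sep w hwD v₀ hv₀.1 huw
    have hUC0 := hUC w (by simpa using hR₀) v₀ (by simpa using hR₀)
    have h0 : (0 : Vd (k + 2)) ∈ ball (0 : Vd (k + 2)) 2 := mem_ball_self two_pos
    have hms0 : ms w ρ (0 : Vd (k + 2)) = w := by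
      unfold ms
      have : tl (0 : Vd (k + 2)) = 0 := rfl
      rw [this, smul_zero, add_zero]
    have htc : tc (α j) χ (ms w ρ) 0 ≠ 0 := by
      intro h
      apply hne
      rw [toFun_eq G.cone G.tor (α j) χ hv₀.1 hU huw (υ := ms w ρ) (by rw [hq, hms0]) vv hvt, hq, h, mul_zero]
    have htcan : AnalyticAt ℂ (tc (α j) χ (ms w ρ)) 0 := tc_an (α j) χ h0 (ms_an w ρ 0) (by
      filter_upwards [isOpen_ball.mem_nhds h0] with q hq
      exact hUC0.str.lift q hq)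
    have hqc : Tendsto (fun n => χ.q (v n)) (hyperfilter ℕ : Ultrafilter ℕ) (𝓝 0) := by
      have h1 : Tendsto χ.q (𝓝 v₀) (𝓝 (χ.q v₀)) := (χ.q_an v₀ hU).continuousAt
      rw [hq] at h1
      exact h1.comp hvw
    have htl : Tendsto (fun n => ‖tc (α j) χ (ms w ρ) (χ.q (v n))‖) (hyperfilter ℕ : Ultrafilter ℕ) (𝓝 ‖tc (α j) χ (ms w ρ) 0‖) :=
      (htcan.continuousAt.norm.tendsto).comp hqc
    have hfd : Tendsto (fun n => ‖fderiv ℂ χ.q (v n)‖) (hyperfilter ℕ : Ultrafilter ℕ) (𝓝 ‖fderiv ℂ χ.q v₀‖) :=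
      ((χ.q_an v₀ hU).fderiv.continuousAt.norm.tendsto).comp hvw
    have hpos : 0 < ‖tc (α j) χ (ms w ρ) 0‖ := norm_pos_iff.2 htc
    have h1 : ∀ᶠ n in ((hyperfilter ℕ : Ultrafilter ℕ) : Filter ℕ), y n ∈ ball w R₀ := hyw.eventually (ball_mem_nhds w hR₀)
    have h2 : ∀ᶠ n in ((hyperfilter ℕ : Ultrafilter ℕ) : Filter ℕ), v n ∈ ball v₀ R₀ := hvw.eventually (ball_mem_nhds v₀ hR₀)
    have hone : Tendsto (fun n : ℕ => 1 / ((n : ℝ) + 1)) ((hyperfilter ℕ : Ultrafilter ℕ) : Filter ℕ) (𝓝 0) :=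
      (tendsto_one_div_add_atTop_nhds_zero_nat (𝕜 := ℝ)).mono_left h𝒰
    have h3 : ∀ᶠ n : ℕ in ((hyperfilter ℕ : Ultrafilter ℕ) : Filter ℕ), 1 / ((n : ℝ) + 1) ≤ R₀ := hone.eventually_le_const hR₀
    have h4 : ∀ᶠ n : ℕ in ((hyperfilter ℕ : Ultrafilter ℕ) : Filter ℕ), max K (‖fderiv ℂ χ.q v₀‖ + 1) ≤ (n : ℝ) :=
      h𝒰 (tendsto_natCast_atTop_atTop.eventually_ge_atTop _)
    have h5 : ∀ᶠ n : ℕ in ((hyperfilter ℕ : Ultrafilter ℕ) : Filter ℕ), 1 / ((n : ℝ) + 1) ≤ ‖tc (α j) χ (ms w ρ) 0‖ / 2 :=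
      hone.eventually_le_const (half_pos hpos)
    have h6 : ∀ᶠ n : ℕ in ((hyperfilter ℕ : Ultrafilter ℕ) : Filter ℕ), ‖tc (α j) χ (ms w ρ) 0‖ / 2 < ‖tc (α j) χ (ms w ρ) (χ.q (v n))‖ :=
      htl.eventually_const_lt (half_lt_self hpos)
    have h7 : ∀ᶠ n : ℕ in ((hyperfilter ℕ : Ultrafilter ℕ) : Filter ℕ), ‖fderiv ℂ χ.q (v n)‖ < ‖fderiv ℂ χ.q v₀‖ + 1 :=
      hfd.eventually_lt_const (lt_add_one _)
    obtain ⟨n, hn1, hn2, hn3, hn4, hn5, hn6, hn7⟩ := (h1.and (h2.and (h3.and (h4.and (h5.and (h6.and h7)))))).exists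
    have hUCn := (hUC (y n) (by rwa [mem_ball, dist_eq_norm] at hn1) (v n) (by rwa [mem_ball, dist_eq_norm] at hn2)).mono hn3 ((le_max_left _ _).trans hn4)
    have h8 := hno n χ w ρ hUCn (hn7.le.trans ((le_max_right _ _).trans hn4)) j
    have h9 : Real.exp (-wt W (y n)) ≤ 1 := by
      rw [Real.exp_le_one_iff, neg_nonpos]
      exact Finset.sum_nonneg fun i _ => by positivity
    have h10 : 1 / ((n : ℝ) + 1) * Real.exp (-wt W (y n)) ≤ 1 / ((n : ℝ) + 1) := mul_le_of_le_one_right (by positivity) h9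
    linarith
  obtain ⟨n, hn⟩ := key
  refine ⟨1 / ((n : ℝ) + 1), n, 1 / ((n : ℝ) + 1), by positivity, by positivity, fun y₀ hy₀ v hv hv1 huv => ?_⟩
  obtain ⟨l, hlΓ, hyl⟩ := hR₂ y₀
  have hl : l ∈ Λ := F.le hlΓ
  have h1 : y₀ - l ∈ Gd D δ := by
    rw [sub_eq_add_neg]
    exact (G.gd_add δ (Λ.neg_mem hl)).2 hy₀
  have h2 : u v - (y₀ - l) ∈ Λ := by
    have e : u v - (y₀ - l) = u v - y₀ + l := by abel
    rw [e]
    exact Λ.add_mem huv hl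
  obtain ⟨χ, c, ρ, h, hqd, j, hj⟩ := hn (y₀ - l) h1 hyl v hv hv1 h2
  have hR : (0 : ℝ) < 1 / ((n : ℝ) + 1) := by positivity
  have h3 := h.add hl
  rw [sub_add_cancel] at h3
  refine ⟨χ, c + l, ρ, h3, hqd, j, ?_⟩
  have hvb : v ∈ ball v (1 / ((n : ℝ) + 1)) := mem_ball_self hR
  have hcap : ms c ρ (χ.q v) = y₀ - l := h.cap (y₀ - l) (mem_ball_self hR) v hv hvb h2
  have hqb : χ.q v ∈ ball (0 : Vd (k + 2)) 2 := closedBall_subset_ball one_lt_two (h.mem v hvb).2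
  obtain ⟨L, c', hno, hth⟩ := F.per j l hlΓ
  have e1 : tc (α j) χ (ms (c + l) ρ) (χ.q v) = Complex.exp (L (y₀ - l) + c') * tc (α j) χ (ms c ρ) (χ.q v) := by
    have e2 : ms (c + l) ρ (χ.q v) = (y₀ - l) + l := by
      rw [← hcap]
      unfold ms
      abel
    have e3 := hth (y₀ - l) (χ.σ (χ.q v)) (χ.σ_mem _ hqb).1 (by rw [← hcap]; exact h.str.lift _ hqb) (fun i => fderiv ℂ χ.σ (χ.q v) (Pi.single i 1)) (fun i => tan_sigma χ hqb _)
    unfold tc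
    rw [e2, e3, hcap]
  rw [e1, norm_mul, hno, sub_add_cancel]
  have e4 : Real.exp (wt W (y₀ - l) - wt W y₀) * (1 / ((n : ℝ) + 1) * Real.exp (-wt W (y₀ - l))) = 1 / ((n : ℝ) + 1) * Real.exp (-wt W y₀) := by
    have e5 : Real.exp (-wt W y₀) = Real.exp (wt W (y₀ - l) - wt W y₀) * Real.exp (-wt W (y₀ - l)) := by
      rw [← Real.exp_add]
      congr 1
      ring
    rw [e5]
    ring
  rw [← e4]
  exact mul_le_mul_of_nonneg_left hj (Real.exp_pos _).le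

/-- (F) -/
theorem exists_fch (G : Geo X Λ u D B) (F : Frm X Λ u D Γ W α) (hd : ∀ j, DecW W (α j) C₀) (hC : 0 < C₀) {δ' : ℝ} (hδ : 0 < δ') : ∃ K c₁ : ℝ, 0 < K ∧ 0 < c₁ ∧
    ∀ y₁ ∈ Gd D δ', ∀ v ∈ X, ‖v‖ = 1 → u v - y₁ ∈ Λ → ∃ (R : ℝ) (h : EN N → ℂ) (Θ : ℂ × Vd (k + 1) → EN N) (Ψ : Fin J → EN N → ℂ) (Bj : Fin J → ℂ × Vd (k + 1) → ℂ),
      Fch W α y₁ v K c₁ R h Θ Ψ Bj := by
  obtain ⟨R, K₀, c₁, hR, hc₁, hun⟩ := fch_unif G F hδ
  set K : ℝ := max K₀ 1 with hKdef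
  have hK : 0 < K := lt_max_of_lt_right one_pos
  have hKk : 0 < K ^ (k + 1) := pow_pos hK _
  refine ⟨max (2 * K) (K ^ (k + 1) * (K ^ (k + 2) * C₀)), c₁ / K ^ (k + 1), lt_max_of_lt_left (by positivity), by positivity, fun y₁ hy₁ v hv hv1 huv => ?_⟩
  obtain ⟨χ, c, ρ, h', hqd, j₀, hj₀⟩ := hun y₁ hy₁ v hv hv1 huv
  have h := h'.mono le_rfl (le_max_left K₀ 1)
  rw [← hKdef] at h
  have hqd' : ‖fderiv ℂ χ.q v‖ ≤ K := hqd.trans (le_max_left K₀ 1)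
  choose A hA using fun j => exists_prim (α j) χ h.str
  have hρ := h.str.pos
  have hρ1 : (ρ : ℂ) ≠ 0 := by exact_mod_cast hρ.ne'
  have hvb : v ∈ ball v R := mem_ball_self hR
  obtain ⟨hU, hq1⟩ := h.mem v hvb
  have hqb : χ.q v ∈ ball (0 : Vd (k + 2)) 2 := closedBall_subset_ball one_lt_two hq1
  have hcapv : ms c ρ (χ.q v) = y₁ := h.cap y₁ (mem_ball_self hR) v hv hvb huv
  have hcy : fcy c ρ (χ.q v 0, y₁) = χ.q v := fcy_q hρ hcapv
  obtain ⟨c', hc', hcv⟩ := (χ.surj v hv hU).2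
  have hin : ∀ x : EN N, inner ℂ v x = innerSL ℂ v x := fun x => rfl
  have hvv : (inner ℂ v v : ℂ) = 1 := by
    rw [inner_self_eq_norm_sq_to_K, hv1]
    simp
  have hcs : c' * inner ℂ v (χ.σ (χ.q v)) = 1 := by
    rw [← inner_smul_right, ← hcv, hvv]
  have hi0 : (inner ℂ v (χ.σ (χ.q v)) : ℂ) ≠ 0 := right_ne_zero_of_mul_eq_one hcs
  have hinv : (inner ℂ v (χ.σ (χ.q v)) : ℂ)⁻¹ = c' := by
    field_simp
    linear_combination -hcs
  -- derivatives of functions of `fcy`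
  have hder : ∀ {E : Type} [NormedAddCommGroup E] [NormedSpace ℂ E] (g : Vd (k + 2) → E), AnalyticAt ℂ g (χ.q v) → AnalyticAt ℂ (fun p => g (fcy c ρ p)) (χ.q v 0, y₁) ∧
      fderiv ℂ (fun p => g (fcy c ρ p)) (χ.q v 0, y₁) (1, 0) = fderiv ℂ g (χ.q v) (Pi.single 0 1) := by
    intro E _ _ g hg
    have hg' : AnalyticAt ℂ g (fcy c ρ (χ.q v 0, y₁)) := by rwa [hcy]
    refine ⟨AnalyticAt.fun_comp (g := g) (f := fcy c ρ) hg' (fcy_an c ρ _), ?_⟩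
    have h1 : HasFDerivAt (fun p => g (fcy c ρ p)) ((fderiv ℂ g (fcy c ρ (χ.q v 0, y₁))).comp (fderiv ℂ (fcy c ρ) (χ.q v 0, y₁))) (χ.q v 0, y₁) :=
      HasFDerivAt.comp (g := g) (f := fcy c ρ) (χ.q v 0, y₁) hg'.differentiableAt.hasFDerivAt (fcy_an c ρ _).differentiableAt.hasFDerivAt
    rw [h1.fderiv, ContinuousLinearMap.comp_apply, fcy_fd, hcy]
  have hρk : 0 < ρ ^ (k + 1) := pow_pos hρ _
  have hnρ : ‖((ρ : ℂ) ^ (k + 1))‖ = ρ ^ (k + 1) := by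
    rw [norm_pow, Complex.norm_real, Real.norm_of_nonneg hρ.le]
  have hρinv : (ρ ^ (k + 1))⁻¹ ≤ K ^ (k + 1) := by
    rw [← inv_pow]
    refine pow_le_pow_left₀ (inv_nonneg.2 hρ.le) ?_ _
    rw [inv_le_iff_one_le_mul₀ hρ]
    exact h.rho
  have hρK : ρ ≤ K := by
    have e1 : (Pi.single 1 1 : Vd (k + 2)) ∈ closedBall (0 : Vd (k + 2)) 1 := by
      rw [mem_closedBall_zero_iff, Pi.norm_single]
      simp
    have e2 : (-(Pi.single 1 1) : Vd (k + 2)) ∈ closedBall (0 : Vd (k + 2)) 1 := by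
      rw [mem_closedBall_zero_iff, norm_neg, Pi.norm_single]
      simp
    have e3 := h.near _ e1
    have e4 := h.near _ e2
    have e5 : ‖ms c ρ (Pi.single 1 1 : Vd (k + 2)) - ms c ρ (-(Pi.single 1 1) : Vd (k + 2))‖ ≤ 2 * K := by
      have e6 : ms c ρ (Pi.single 1 1 : Vd (k + 2)) - ms c ρ (-(Pi.single 1 1) : Vd (k + 2)) =
          (ms c ρ (Pi.single 1 1 : Vd (k + 2)) - y₁) - (ms c ρ (-(Pi.single 1 1) : Vd (k + 2)) - y₁) := by abel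
      rw [e6]
      have := norm_sub_le (ms c ρ (Pi.single 1 1 : Vd (k + 2)) - y₁) (ms c ρ (-(Pi.single 1 1) : Vd (k + 2)) - y₁)
      linarith
    have e7 : (ms c ρ (Pi.single 1 1 : Vd (k + 2)) - ms c ρ (-(Pi.single 1 1) : Vd (k + 2))) 0 = 2 * (ρ : ℂ) := by
      simp [ms, tl]
      ring
    have e8 := norm_le_pi_norm (ms c ρ (Pi.single 1 1 : Vd (k + 2)) - ms c ρ (-(Pi.single 1 1) : Vd (k + 2))) 0
    rw [e7, norm_mul, Complex.norm_real, Real.norm_of_nonneg hρ.le] at e8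
    have e9 : ‖(2 : ℂ)‖ = 2 := by norm_num
    rw [e9] at e8
    linarith
  refine ⟨R, fun x => χ.q x 0, fun p => (inner ℂ v (χ.σ (fcy c ρ p)) : ℂ)⁻¹ • χ.σ (fcy c ρ p), fun j x => A j (χ.q x) / (ρ : ℂ) ^ (k + 1),
    fun j p => A j (fcy c ρ p) / (ρ : ℂ) ^ (k + 1), ?_⟩
  have hBan : ∀ j, AnalyticAt ℂ (fun p => A j p / (ρ : ℂ) ^ (k + 1)) (χ.q v) := fun j => by
    simp only [div_eq_mul_inv]
    exact ((hA j).an _ hqb).mul analyticAt_const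
  have hBfd : ∀ j, fderiv ℂ (fun p => A j p / (ρ : ℂ) ^ (k + 1)) (χ.q v) (Pi.single 0 1) = tc (α j) χ (ms c ρ) (χ.q v) / (ρ : ℂ) ^ (k + 1) := fun j => by
    have h6 : HasFDerivAt (fun p => A j p / (ρ : ℂ) ^ (k + 1)) (((ρ : ℂ) ^ (k + 1))⁻¹ • fderiv ℂ (A j) (χ.q v)) (χ.q v) := by
      have h7 := (((hA j).an _ hqb).differentiableAt.hasFDerivAt).const_mul (((ρ : ℂ) ^ (k + 1))⁻¹)
      refine h7.congr_of_eventuallyEq (Eventually.of_forall fun p => ?_)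
      simp only [div_eq_inv_mul]
    rw [h6.fderiv]
    show ((ρ : ℂ) ^ (k + 1))⁻¹ • fderiv ℂ (A j) (χ.q v) (Pi.single 0 1) = _
    rw [(hA j).der _ hqb, smul_eq_mul, div_eq_inv_mul]
  have hsan : AnalyticAt ℂ χ.σ (χ.q v) := χ.σ_an _ hqb
  refine ⟨?_, ?_, ?_, ?_, hR, fun j => h.prm G hR hv hv1 huv (hA j), fun j => (hder _ (hBan j)).1, fun j => ?_, ⟨j₀, ?_⟩, fun y hy x hx hxb hux => ⟨fun hix => ?_, fun j => ?_⟩⟩
  · exact (analyticAt_pi_iff.1 (χ.q_an v hU)) 0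
  · refine ContinuousLinearMap.opNorm_le_bound _ (by positivity) fun x => ?_
    have e1 : HasFDerivAt (fun x => χ.q x 0) ((ContinuousLinearMap.proj (R := ℂ) (φ := fun _ : Fin (k + 2) => ℂ) 0).comp (fderiv ℂ χ.q v)) v :=
      hasFDerivAt_pi'.1 (χ.q_an v hU).differentiableAt.hasFDerivAt 0
    rw [e1.fderiv, ContinuousLinearMap.comp_apply]
    have e2 : ‖(ContinuousLinearMap.proj (R := ℂ) (φ := fun _ : Fin (k + 2) => ℂ) 0) (fderiv ℂ χ.q v x)‖ ≤ ‖fderiv ℂ χ.q v x‖ := norm_le_pi_norm (fderiv ℂ χ.q v x) 0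
    refine e2.trans (((fderiv ℂ χ.q v).le_opNorm x).trans (mul_le_mul_of_nonneg_right (hqd'.trans ?_) (norm_nonneg _)))
    exact (by linarith : K ≤ 2 * K).trans (le_max_left _ _)
  · have e1 : AnalyticAt ℂ (fun p => (inner ℂ v (χ.σ p) : ℂ)) (χ.q v) := by
      simp only [hin]
      exact ((innerSL ℂ v).analyticAt _).fun_comp hsan
    exact (hder (fun p => (inner ℂ v (χ.σ p) : ℂ)⁻¹ • χ.σ p) ((e1.inv hi0).smul hsan)).1
  · have e1 : AnalyticAt ℂ (fun p => (inner ℂ v (χ.σ p) : ℂ)) (χ.q v) := by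
      simp only [hin]
      exact ((innerSL ℂ v).analyticAt _).fun_comp hsan
    rw [(hder (fun p => (inner ℂ v (χ.σ p) : ℂ)⁻¹ • χ.σ p) ((e1.inv hi0).smul hsan)).2]
    have e2 : HasFDerivAt χ.σ (fderiv ℂ χ.σ (χ.q v)) (χ.q v) := hsan.differentiableAt.hasFDerivAt
    have e3 : HasFDerivAt (fun p => (inner ℂ v (χ.σ p) : ℂ)) ((innerSL ℂ v).comp (fderiv ℂ χ.σ (χ.q v))) (χ.q v) :=
      (innerSL ℂ v).hasFDerivAt.comp (χ.q v) e2
    have e4 : HasFDerivAt (fun p => (inner ℂ v (χ.σ p) : ℂ)⁻¹) (-((inner ℂ v (χ.σ (χ.q v)) : ℂ) ^ 2)⁻¹ • ((innerSL ℂ v).comp (fderiv ℂ χ.σ (χ.q v)))) (χ.q v) :=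
      (hasDerivAt_inv hi0).comp_hasFDerivAt (χ.q v) e3
    have e5 : HasFDerivAt (fun p => (inner ℂ v (χ.σ p) : ℂ)⁻¹ • χ.σ p) _ (χ.q v) := e4.smul e2
    set d : EN N := fderiv ℂ χ.σ (χ.q v) (Pi.single 0 1) with hd0
    have e6 : fderiv ℂ (fun p => (inner ℂ v (χ.σ p) : ℂ)⁻¹ • χ.σ p) (χ.q v) (Pi.single 0 1) = c' • d - (c' * inner ℂ v d) • v := by
      rw [e5.fderiv]
      simp only [ContinuousLinearMap.add_apply, ContinuousLinearMap.smul_apply, ContinuousLinearMap.smulRight_apply, ContinuousLinearMap.comp_apply]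
      rw [← hd0, hinv]
      have e7 : -((inner ℂ v (χ.σ (χ.q v)) : ℂ) ^ 2)⁻¹ = -(c' * c') := by
        rw [← inv_pow, hinv, sq]
      rw [e7]
      have e8 : ((-(c' * c')) • (innerSL ℂ v d)) • χ.σ (χ.q v) = -((c' * inner ℂ v d) • v) := by
        conv_rhs => rw [hcv]
        rw [smul_smul, ← neg_smul]
        congr 1
        show -(c' * c') * inner ℂ v d = _
        rw [← hcv]
        ring
      rw [e8]
      abel
    rw [e6]
    have e9 : ‖c'‖ * ‖d‖ ≤ K := by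
      have e10 := h.bd _ hq1 0
      have e11 : ‖c'‖ * ‖χ.σ (χ.q v)‖ = 1 := by
        rw [← norm_smul, ← hcv, hv1]
      calc ‖c'‖ * ‖d‖ ≤ ‖c'‖ * (K * ‖χ.σ (χ.q v)‖) := mul_le_mul_of_nonneg_left e10 (norm_nonneg _)
        _ = K * (‖c'‖ * ‖χ.σ (χ.q v)‖) := by ring
        _ = K := by rw [e11, mul_one]
    have e12 : ‖(c' * inner ℂ v d) • v‖ ≤ ‖c'‖ * ‖d‖ := by
      rw [norm_smul, norm_mul, hv1, mul_one]
      refine mul_le_mul_of_nonneg_left ?_ (norm_nonneg _)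
      have := norm_inner_le_norm (𝕜 := ℂ) v d
      rwa [hv1, one_mul] at this
    have e13 := norm_sub_le (c' • d) ((c' * inner ℂ v d) • v)
    rw [norm_smul] at e13
    exact (by linarith : ‖c' • d - (c' * inner ℂ v d) • v‖ ≤ 2 * K).trans (le_max_left _ _)
  · rw [(hder _ (hBan j)).2, hBfd, norm_div, hnρ]
    have e1 := fch_tc (hd j) hqb (h.str.lift _ hqb) hK (h.bd _ hq1)
    rw [hcapv] at e1
    calc ‖tc (α j) χ (ms c ρ) (χ.q v)‖ / ρ ^ (k + 1) = (ρ ^ (k + 1))⁻¹ * ‖tc (α j) χ (ms c ρ) (χ.q v)‖ := by rw [div_eq_mul_inv, mul_comm]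
      _ ≤ K ^ (k + 1) * (K ^ (k + 2) * (C₀ * Real.exp (-wt W y₁))) := mul_le_mul hρinv e1 (norm_nonneg _) hKk.le
      _ = K ^ (k + 1) * (K ^ (k + 2) * C₀) * Real.exp (-wt W y₁) := by ring
      _ ≤ _ := mul_le_mul_of_nonneg_right (le_max_right _ _) (Real.exp_pos _).le
  · rw [(hder _ (hBan j₀)).2, hBfd, norm_div, hnρ]
    have e1 : ρ ^ (k + 1) ≤ K ^ (k + 1) := pow_le_pow_left₀ hρ.le hρK _
    calc c₁ / K ^ (k + 1) * Real.exp (-wt W y₁) = (c₁ * Real.exp (-wt W y₁)) / K ^ (k + 1) := by ring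
      _ ≤ ‖tc (α j₀) χ (ms c ρ) (χ.q v)‖ / ρ ^ (k + 1) := div_le_div₀ (norm_nonneg _) hj₀ hρk e1
  · have e0 := h.cap y hy x hx hxb hux
    have e1 : fcy c ρ (χ.q x 0, y) = χ.q x := fcy_q hρ e0
    obtain ⟨c'', hc'', hx'⟩ := (χ.surj x hx (h.mem x hxb).1).2
    simp only [e1]
    have h2 : c'' * inner ℂ v (χ.σ (χ.q x)) = 1 := by
      rw [← inner_smul_right, ← hx', hix]
    have h3 : (inner ℂ v (χ.σ (χ.q x)) : ℂ)⁻¹ = c'' := by
      have h4 : (inner ℂ v (χ.σ (χ.q x)) : ℂ) ≠ 0 := right_ne_zero_of_mul_eq_one h2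
      field_simp
      linear_combination -h2
    rw [h3, ← hx']
  · have e0 := h.cap y hy x hx hxb hux
    have e1 : fcy c ρ (χ.q x 0, y) = χ.q x := fcy_q hρ e0
    simp only [e1]

end Pool.Agent.G4.A

end
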