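import Pool.Agent.H94.G4T.G4.A.CmK
import Pool.Agent.H94.G4T.G4.A.MdA
import Pool.Agent.H94.G4T.M129
import Pool.Agent.H94.G4T.M150
import Pool.Agent.H94.G4T.M151
import Pool.Agent.H94.G4T.M25
import Pool.Agent.H94.G4T.M32
import Pool.Agent.H94.G4T.M92

/-! The parts of this file: G4.A.CmL_1, G4.A.CmZ_1, G4.A.CmF, G4.A.HP. -/

section

/-!
# G4 A CmL: the limit of the combinations and the integrals of the forms

`fch_lim`: if the derivatives of the primitives along `cX` converge to `K j x` (`cmb_K`), then `cX c f v n (w n)` converges to a vector `Z`, and over `Gd D δ'` the norm of `Z` and the numbers `‖K j x‖ exp (wt W)` bound each other.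
-/

set_option autoImplicit false

open Topology Filter Metric

namespace Pool.Agent.G4.A

open Pool.Agent.H36.BP (EN fs wd)
open Pool.Agent.H14.PP (IsCone CurveAt Tan)
open Pool.Agent.H62.EF (MN pr)
open Pool.Agent.AD (Vd Chart Charts IsGerm)
open Pool.Agent.TG
open Pool.Agent.G3
open Pool.Agent.G3.A
open Pool.Agent.G3.R (Prm jj_prm nv_near inner_near)
open Pool.Agent.G3.C (Gc nv nd nv_pr)

variable {N k : ℕ} {X : Set (EN N)} {Λ : AddSubgroup (Vd (k + 1))} {u : EN N → Vd (k + 1)} {D B Bad : Set (Vd (k + 1))} {a : Vd (k + 1)}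
  {Γ : AddSubgroup (Vd (k + 1))} {J rW : ℕ} {W : Fin rW → Vd (k + 1) →L[ℂ] ℂ} {α : Fin J → VForm X Λ u} {c₀ C₀ ρ δ : ℝ}

variable {ι : Type*} {𝒰 : Ultrafilter ι} {M : ℕ} {y : Fin M → ι → Vd (k + 1)} {y₀ : Vd (k + 1)} {f : Fin M → ι → ℂ → MN N} {g : ℂ → MN N} {c : ι → Fin M → ℂ → ℂ}

theorem fch_lim (S : DA X Λ u D B Bad a Γ W α c₀ C₀ ρ δ) (hC : Cmb X Λ u D a 𝒰 y y₀ f g c) {K : Fin J → ℂ → ℂ}
    (hK : ∀ j, ∀ x : ℂ, y₀ + x • a ∉ D → ∀ (v : EN N) (R : ℝ) (Ψ : EN N → ℂ), Prm (α j) (y₀ + x • a) v R Ψ → pr v = g x → ∀ w : ι → ℂ, Tendsto w 𝒰 (𝓝 x) →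
        Tendsto (fun n => fderiv ℂ Ψ v (cX c f v n (w n))) 𝒰 (𝓝 (K j x))) {δ' : ℝ} (hδ' : 0 < δ') :
    ∃ A : ℝ, 0 < A ∧ ∀ x : ℂ, y₀ + x • a ∈ Gd D δ' → ∀ v : EN N, ‖v‖ = 1 → pr v = g x → ∃ Z : EN N,
      (∀ w : ι → ℂ, Tendsto w 𝒰 (𝓝 x) → Tendsto (fun n => cX c f v n (w n)) 𝒰 (𝓝 Z)) ∧
      (∀ j, ‖K j x‖ * Real.exp (wt W (y₀ + x • a)) ≤ A * ‖Z‖) ∧ ∃ j, ‖Z‖ ≤ A * (‖K j x‖ * Real.exp (wt W (y₀ + x • a))) := by
  obtain ⟨K₀, c₁, hK₀, hc₁, hF⟩ := exists_fch S.geo S.frm S.dec S.C_pos hδ'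
  refine ⟨K₀ * K₀ + K₀ / c₁, by positivity, fun x hx v hv hvg => ?_⟩
  have hxD : y₀ + x • a ∉ D := gd_notMem hδ' hx
  obtain ⟨hvX, hvu⟩ := hc_unit S.geo.cone S.geo.tor hC.g_mem hv hvg
  obtain ⟨R, h, Θ, Ψ, Bj, F⟩ := hF _ hx v hvX hv hvu
  set e : ℝ := Real.exp (wt W (y₀ + x • a)) with he
  have he0 : 0 < e := Real.exp_pos _
  have hee : Real.exp (-wt W (y₀ + x • a)) * e = 1 := by rw [he, ← Real.exp_add, neg_add_cancel, Real.exp_zero]
  set dB : Fin J → ℂ := fun j => fderiv ℂ (Bj j) (h v, y₀ + x • a) (1, 0) with hdB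
  set dΘ : EN N := fderiv ℂ Θ (h v, y₀ + x • a) (1, 0) with hdΘ
  -- the points
  obtain ⟨t₀, ht₀, hpt⟩ := hC.pts S.geo.cone S.geo.tor S.geo.D_closed hxD hv hvg F.R_pos
  -- the values of the coordinate
  have hBK : ∀ j, ∀ w : ι → ℂ, Tendsto w 𝒰 (𝓝 x) → Tendsto (fun n => fderiv ℂ h v (cX c f v n (w n)) * dB j) 𝒰 (𝓝 (K j x)) := by
    intro j w hw
    have h1 : ∀ ε : ℝ, 0 < ε → ∃ t : ℝ, 0 < t ∧ ∀ᶠ n in (𝒰 : Filter ι), ∀ x' ∈ ball x t,
        ‖(∑ i, c n i x' * Ψ j (nv v (f i n x'))) - fderiv ℂ h v (cX c f v n x') * dB j‖ ≤ ε := by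
      intro ε hε
      obtain ⟨t, ht, h2⟩ := hC.lin x hxD v hv hvg _ (fd_an F.h_an (F.B_an j)) ε hε
      refine ⟨min t t₀, lt_min ht ht₀, ?_⟩
      filter_upwards [h2, hpt] with n a1 a2 x' hx'
      have a3 := a1 x' (ball_subset_ball (min_le_left _ _) hx')
      rw [fd_comp F.h_an (F.B_an j), smul_eq_mul] at a3
      have a4 : ∀ i, Bj j (h (nv v (f i n x')), y i n + x' • a) = Ψ j (nv v (f i n x')) := by
        intro i
        obtain ⟨b1, b2, b3, b4, b5, -⟩ := a2 x' (ball_subset_ball (min_le_right _ _) hx') i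
        exact (F.eq _ b5 _ b1 b2 b3).2 j
      simp only [a4] at a3
      exact a3
    have h2 := two_lim h1 (fun ε hε => hC.lin₁ hxD hv hvg (prm_an (F.prm j)) hε) hw
    have h3 := hK j x hxD v R (Ψ j) (F.prm j) hvg w hw
    have h4 := h2.add h3
    rw [zero_add] at h4
    refine h4.congr fun n => ?_
    ring
  obtain ⟨j₀, hj₀⟩ := F.B_lb
  have hd0 : 0 < ‖dB j₀‖ := lt_of_lt_of_le (by positivity) hj₀
  have hd0' : dB j₀ ≠ 0 := norm_pos_iff.1 hd0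
  set H : ℂ := K j₀ x / dB j₀ with hH
  have hHn : ∀ w : ι → ℂ, Tendsto w 𝒰 (𝓝 x) → Tendsto (fun n => fderiv ℂ h v (cX c f v n (w n))) 𝒰 (𝓝 H) := by
    intro w hw
    have h1 := (hBK j₀ w hw).div_const (dB j₀)
    refine h1.congr fun n => ?_
    rw [mul_div_assoc, div_self hd0', mul_one]
  have hlim : ∀ w : ι → ℂ, Tendsto w 𝒰 (𝓝 x) → Tendsto (fun n => cX c f v n (w n)) 𝒰 (𝓝 (H • dΘ)) := by
    intro w hw
    have h1 : ∀ ε : ℝ, 0 < ε → ∃ t : ℝ, 0 < t ∧ ∀ᶠ n in (𝒰 : Filter ι), ∀ x' ∈ ball x t,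
        ‖cX c f v n x' - fderiv ℂ h v (cX c f v n x') • dΘ‖ ≤ ε := by
      intro ε hε
      obtain ⟨t, ht, h2⟩ := hC.linv hxD hv hvg (fd_an F.h_an F.Θ_an) hε
      refine ⟨min t t₀, lt_min ht ht₀, ?_⟩
      filter_upwards [h2, hpt] with n a1 a2 x' hx'
      have a3 := a1 x' (ball_subset_ball (min_le_left _ _) hx')
      rw [fd_comp F.h_an F.Θ_an] at a3
      have a4 : ∀ i, Θ (h (nv v (f i n x')), y i n + x' • a) = nv v (f i n x') := by
        intro i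
        obtain ⟨b1, b2, b3, b4, b5, -⟩ := a2 x' (ball_subset_ball (min_le_right _ _) hx') i
        exact (F.eq _ b5 _ b1 b2 b3).1 b4
      simp only [a4] at a3
      exact a3
    have h2 := two_lim (s := fun n x' => cX c f v n x') (P := fun n x' => cX c f v n x') (Q := fun n x' => fderiv ℂ h v (cX c f v n x') • dΘ)
      (fun ε hε => ⟨1, one_pos, Eventually.of_forall fun n x' _ => by rw [sub_self, norm_zero]; exact hε.le⟩) h1 hw
    have h3 := h2.add ((hHn w hw).smul_const dΘ)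
    rw [zero_add] at h3
    refine h3.congr fun n => ?_
    abel
  refine ⟨H • dΘ, hlim, ?_, ?_⟩
  · -- the upper bound of `K j`
    intro j
    have h1 : K j x = H * dB j := tendsto_nhds_unique (hBK j _ tendsto_const_nhds) ((hHn _ tendsto_const_nhds).mul_const (dB j))
    have h2 : H = fderiv ℂ h v (H • dΘ) := tendsto_nhds_unique (hHn _ tendsto_const_nhds) (((fderiv ℂ h v).continuous.tendsto _).comp (hlim _ tendsto_const_nhds))
    have h3 : ‖H‖ ≤ K₀ * ‖H • dΘ‖ := by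
      calc ‖H‖ = ‖fderiv ℂ h v (H • dΘ)‖ := by rw [← h2]
        _ ≤ ‖fderiv ℂ h v‖ * ‖H • dΘ‖ := (fderiv ℂ h v).le_opNorm _
        _ ≤ K₀ * ‖H • dΘ‖ := mul_le_mul_of_nonneg_right F.h_bd (norm_nonneg _)
    have h4 : ‖dB j‖ * e ≤ K₀ := by
      have := mul_le_mul_of_nonneg_right (F.B_ub j) he0.le
      rw [mul_assoc, hee, mul_one] at this
      exact this
    rw [h1, norm_mul]
    have h5 : 0 ≤ K₀ / c₁ * ‖H • dΘ‖ := by positivity
    calc ‖H‖ * ‖dB j‖ * e = ‖H‖ * (‖dB j‖ * e) := by ring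
      _ ≤ (K₀ * ‖H • dΘ‖) * K₀ := mul_le_mul h3 h4 (by positivity) (by positivity)
      _ ≤ (K₀ * K₀ + K₀ / c₁) * ‖H • dΘ‖ := by nlinarith only [h5]
  · refine ⟨j₀, ?_⟩
    rw [norm_smul]
    have h1 : ‖dΘ‖ ≤ K₀ := F.Θ_bd
    have h2 : ‖H‖ * c₁ ≤ ‖K j₀ x‖ * e := by
      rw [hH, norm_div]
      have h3 : c₁ ≤ ‖dB j₀‖ * e := by
        have := mul_le_mul_of_nonneg_right hj₀ he0.le
        rw [mul_assoc, hee, mul_one] at this
        exact this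
      calc ‖K j₀ x‖ / ‖dB j₀‖ * c₁ ≤ ‖K j₀ x‖ / ‖dB j₀‖ * (‖dB j₀‖ * e) := by gcongr
        _ = ‖K j₀ x‖ * e := by field_simp
    have h3 : ‖H‖ ≤ ‖K j₀ x‖ * e / c₁ := by rwa [le_div_iff₀ hc₁]
    calc ‖H‖ * ‖dΘ‖ ≤ (‖K j₀ x‖ * e / c₁) * K₀ := mul_le_mul h3 h1 (norm_nonneg _) (by positivity)
      _ = K₀ / c₁ * (‖K j₀ x‖ * e) := by ring
      _ ≤ (K₀ * K₀ + K₀ / c₁) * (‖K j₀ x‖ * e) := by
        have : 0 ≤ K₀ * K₀ * (‖K j₀ x‖ * e) := by positivity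
        nlinarith only [this]

end Pool.Agent.G4.A

end

section

/-!
# G4 A CmZ: the combinations tend to zero

`kap W K y₀ a κ x = max_j ‖K j x‖ exp (wt W (y₀ + x a) - κ ‖x‖²)` for the limits `K j` of the integrals (`cmb_K`).  The exponent is a quadratic polynomial with the positive leading form
`(wt W a - κ) ‖h‖²`, so `kap` satisfies a strict maximum principle on small circles without exact bad hits (`kmax`).  With `fch_lim` and `MdX` the hypotheses of `ustar` hold, so `kap = 0`, and `cX` tends to `0` (`cmb_zero`).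
-/

set_option autoImplicit false

open Topology Filter Metric

namespace Pool.Agent.G4.A

open Pool.Agent.H36.BP (EN fs wd)
open Pool.Agent.H14.PP (IsCone CurveAt Tan)
open Pool.Agent.H62.EF (MN pr)
open Pool.Agent.AD (Vd Chart Charts IsGerm)
open Pool.Agent.TG
open Pool.Agent.G3
open Pool.Agent.G3.A
open Pool.Agent.G3.R (Prm)
open Pool.Agent.G3.C (Gc nv nd nv_pr)

variable {N k : ℕ} {X : Set (EN N)} {Λ : AddSubgroup (Vd (k + 1))} {u : EN N → Vd (k + 1)} {D B Bad : Set (Vd (k + 1))} {a : Vd (k + 1)}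
  {Γ : AddSubgroup (Vd (k + 1))} {J rW : ℕ} {W : Fin rW → Vd (k + 1) →L[ℂ] ℂ} {α : Fin J → VForm X Λ u} {c₀ C₀ ρ δ : ℝ}

variable {ι : Type} {𝒰 : Ultrafilter ι} {M : ℕ} {y : Fin M → ι → Vd (k + 1)} {y₀ : Vd (k + 1)} {f : Fin M → ι → ℂ → MN N} {g : ℂ → MN N} {c : ι → Fin M → ℂ → ℂ}

/-- the limits of the integrals vanish -/
private theorem cmb_K0 (S : DA X Λ u D B Bad a Γ W α c₀ C₀ ρ δ) (hC : Cmb X Λ u D a 𝒰 y y₀ f g c) {K : Fin J → ℂ → ℂ} (hKd : ∀ j, ∀ z : ℂ, y₀ + z • a ∉ Bad → DifferentiableAt ℂ (K j) z)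
    (hK : ∀ j, ∀ x : ℂ, y₀ + x • a ∉ D → ∀ (v : EN N) (R : ℝ) (Ψ : EN N → ℂ), Prm (α j) (y₀ + x • a) v R Ψ → pr v = g x → ∀ w : ι → ℂ, Tendsto w 𝒰 (𝓝 x) →
        Tendsto (fun n => fderiv ℂ Ψ v (cX c f v n (w n))) 𝒰 (𝓝 (K j x))) {κ : ℝ} (hκ : 0 ≤ κ) (hκ₀ : κ < c₀)
    (hb : ∀ δ' : ℝ, 0 < δ' → ∃ C : ℝ, ∀ x : ℂ, y₀ + x • a ∈ Gd D δ' → ∀ v : EN N, ‖v‖ = 1 → pr v = g x → ∀ᶠ n in (𝒰 : Filter ι), ‖cX c f v n x‖ ≤ C * Real.exp (κ * ‖x‖ ^ 2))
    (hm : MdX D a 𝒰 y₀ f g c δ) {x : ℂ} (hx : y₀ + x • a ∉ Bad) : kap W K y₀ a κ x = 0 := by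
  have hδ := S.lc.δ_pos
  have hδρ := S.lc.δ_le
  have hρ8 := S.lc.ρ_le
  have hδ64 : δ ≤ 1 / 64 := by linarith only [hδρ, hρ8]
  have hX := S.geo.cone
  have hgm := hC.g_mem
  have ha : ‖a‖ = 1 := S.lc.norm
  have hsm : ∀ z : ℂ, ‖z • a‖ = ‖z‖ := fun z => by rw [norm_smul, ha, mul_one]
  have hc₁ : 0 < wt W a - κ := by
    have := S.wtc a
    rw [ha, one_pow, mul_one] at this
    linarith only [hκ₀, this]
  set E : Set ℂ := {z : ℂ | y₀ + z • a ∈ Bad} with hE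
  have hEc : IsClosed E := hits_closed S.lg.iso S.lc.bad_sub y₀
  obtain ⟨C₂, hC₂⟩ := few_ncard S.lc y₀ one_pos
  obtain ⟨M₀, hM₀⟩ : ∃ M₀ : ℕ, M₀ = ⌈1 * (2 : ℝ) ^ 2 + C₂⌉₊ := ⟨_, rfl⟩
  -- the radius
  obtain ⟨d₀, hd₀, hd₁⟩ : ∃ d₀ : ℝ, 0 < d₀ ∧ ∀ e ∈ E, d₀ ≤ dist x e := by
    obtain ⟨d₀, h1, h2⟩ := Metric.isOpen_iff.1 hEc.isOpen_compl x hx
    refine ⟨d₀, h1, fun e he => ?_⟩
    by_contra h3
    push Not at h3
    exact h2 (mem_ball'.2 h3) he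
  obtain ⟨r₀, hr₀, hr₁, hr₂⟩ : ∃ r₀ : ℝ, 0 < r₀ ∧ r₀ ≤ d₀ ∧ r₀ ≤ δ ^ (M₀ + 1) := ⟨min d₀ (δ ^ (M₀ + 1)), lt_min hd₀ (by positivity), min_le_left _ _, min_le_right _ _⟩
  have hr₃ : r₀ / (2 * δ) * (1 / δ) ^ M₀ ≤ 1 / 2 := by
    have h1 : r₀ / (2 * δ) * (1 / δ) ^ M₀ ≤ δ ^ (M₀ + 1) / (2 * δ) * (1 / δ) ^ M₀ := by gcongr
    refine h1.trans (le_of_eq ?_)
    rw [pow_succ, one_div, inv_pow]
    have := hδ.ne'
    have := pow_ne_zero M₀ hδ.ne'
    field_simp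
  have hr₄ : r₀ ≤ 1 / 64 := (hr₂.trans (pow_le_of_le_one hδ.le (by linarith only [hδ, hδρ, hρ8]) (Nat.succ_ne_zero _))).trans hδ64
  -- the circles
  obtain ⟨δ₁, hδ₁, hcirc⟩ := S.lc.circ (r₀ / 4) (by positivity)
  have hcirc' : ∀ z : ℂ, ∃ r : ℝ, 0 < r ∧ r < r₀ / 4 ∧ ∀ w : ℂ, dist w z = r → y₀ + w • a ∈ Gd D δ₁ := by
    intro z
    obtain ⟨r, h1, h2, h3⟩ := hcirc (y₀ + z • a)
    refine ⟨r, h1, h2, fun w hw => ?_⟩
    have h4 := h3 (w - z) (by rw [← dist_eq_norm, hw])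
    have e : y₀ + z • a + (w - z) • a = y₀ + w • a := by rw [sub_smul]; abel
    rwa [e] at h4
  obtain ⟨A, hA, hAl⟩ := fch_lim S hC hK hδ₁
  obtain ⟨A', hA', hAl'⟩ := fch_lim S hC hK (δ' := 2 * δ) (by positivity)
  obtain ⟨Cb, hCb⟩ := hb δ₁ hδ₁
  obtain ⟨Cm, hCm, hmd⟩ := hm δ₁ hδ₁
  -- the bound over `Gd D δ₁`
  have hkb : ∀ w : ℂ, y₀ + w • a ∈ Gd D δ₁ → kap W K y₀ a κ w ≤ A * max Cb 0 := by
    intro w hw
    obtain ⟨v, hv, hvg⟩ := hc_exu hX hgm w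
    obtain ⟨Z, hZ, h1, -⟩ := hAl w hw v hv hvg
    have h2 : ‖Z‖ ≤ max Cb 0 * Real.exp (κ * ‖w‖ ^ 2) := by
      refine le_of_tendsto (hZ (fun _ => w) tendsto_const_nhds).norm ?_
      filter_upwards [hCb w hw v hv hvg] with n hn
      refine hn.trans ?_
      gcongr
      exact le_max_left _ _
    have h3 : ‖(fun j => K j w : Fin J → ℂ)‖ ≤ A * ‖Z‖ * (Real.exp (wt W (y₀ + w • a)))⁻¹ := by
      rw [pi_norm_le_iff_of_nonneg (by positivity)]
      intro j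
      rw [← div_eq_mul_inv, le_div_iff₀ (Real.exp_pos _)]
      exact h1 j
    have e : Real.exp (wt W (y₀ + w • a) - κ * ‖w‖ ^ 2) = Real.exp (wt W (y₀ + w • a)) * (Real.exp (κ * ‖w‖ ^ 2))⁻¹ := by
      rw [← Real.exp_neg, ← Real.exp_add]
      congr 1
    rw [kap, e]
    calc ‖(fun j => K j w : Fin J → ℂ)‖ * (Real.exp (wt W (y₀ + w • a)) * (Real.exp (κ * ‖w‖ ^ 2))⁻¹)
        ≤ (A * (max Cb 0 * Real.exp (κ * ‖w‖ ^ 2)) * (Real.exp (wt W (y₀ + w • a)))⁻¹) * (Real.exp (wt W (y₀ + w • a)) * (Real.exp (κ * ‖w‖ ^ 2))⁻¹) := by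
          refine mul_le_mul_of_nonneg_right (h3.trans ?_) (by positivity)
          gcongr
      _ = A * max Cb 0 := by
          have := (Real.exp_pos (wt W (y₀ + w • a))).ne'
          have := (Real.exp_pos (κ * ‖w‖ ^ 2)).ne'
          field_simp
  -- the bound by the values in the core
  have hkm : ∀ z w : ℂ, dist w z < r₀ / 4 → y₀ + w • a ∈ Gd D δ₁ → ∀ G : ℂ → ℂ, DifferentiableOn ℂ G (ball z 1) → ∀ T : ℝ, 0 ≤ T →
      (∀ x, dist x z ≤ 1 / 2 → (∀ e ∈ E, 2 * δ ≤ dist x e) → kap W K y₀ a κ x * ‖G x‖ ≤ T) → kap W K y₀ a κ w * ‖G w‖ ≤ A * Cm * A' * Real.exp κ * T := by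
    intro z w hwz hw G hG T hT0 hT
    have hwz' := hwz
    rw [dist_eq_norm] at hwz'
    -- the factor
    obtain ⟨G₁, hG₁⟩ : ∃ G₁ : ℂ → ℂ, G₁ = fun x => G x * Complex.exp (-((κ * ‖w‖ ^ 2 : ℝ) : ℂ) - (2 * κ : ℝ) * ((starRingEnd ℂ) w * (x - w))) := ⟨_, rfl⟩
    have hG₁d : DifferentiableOn ℂ G₁ (ball w (1 / 2)) := by
      rw [hG₁]
      refine DifferentiableOn.mul (hG.mono ?_) (Differentiable.differentiableOn (by fun_prop))
      intro x hx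
      rw [mem_ball] at hx ⊢
      have := dist_triangle x w z
      linarith only [hδ, hδρ, hρ8, hr₄, hwz, hx, this]
    have hG₁n : ∀ x, ‖G₁ x‖ = ‖G x‖ * Real.exp (-(κ * ‖x‖ ^ 2) + κ * ‖x - w‖ ^ 2) := by
      intro x
      rw [hG₁]
      simp only
      rw [norm_mul, Complex.norm_exp]
      congr 2
      have h1 : ‖x‖ ^ 2 = ‖w‖ ^ 2 + (2 * (starRingEnd ℂ) w * (x - w)).re + ‖x - w‖ ^ 2 := by
        have := nsq_add w (x - w)
        rwa [add_sub_cancel] at this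
      rw [h1, Complex.sub_re, Complex.neg_re, Complex.ofReal_re, Complex.re_ofReal_mul, mul_assoc (2 : ℂ)]
      have h2 : (2 * ((starRingEnd ℂ) w * (x - w))).re = 2 * ((starRingEnd ℂ) w * (x - w)).re := by
        rw [Complex.mul_re]
        simp
      rw [h2]
      ring
    obtain ⟨v, hv, hvg⟩ := hc_exu hX hgm w
    obtain ⟨Z, hZ, h1, -⟩ := hAl w hw v hv hvg
    -- the bound for every `η`
    have hη : ∀ η : ℝ, 0 < η → ‖Z‖ * ‖G₁ w‖ ≤ Cm * (A' * Real.exp κ * T + η) := by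
      intro η hη
      have h2 := hmd w hw G₁ hG₁d (A' * Real.exp κ * T + η) (by positivity) (fun z' hz' hz'G v' hv' hvg' w' hw' => ?_) v hv hvg
      · exact le_of_tendsto (((hZ (fun _ => w) tendsto_const_nhds).norm).mul_const _) h2
      · obtain ⟨Z', hZ', -, j, hj⟩ := hAl' z' hz'G v' hv' hvg'
        have h3 : ‖Z'‖ * ‖G₁ z'‖ ≤ A' * Real.exp κ * T := by
          have h4 : kap W K y₀ a κ z' * ‖G z'‖ ≤ T := by
            refine hT z' ?_ ?_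
            · have := dist_triangle z' w z
              rw [← dist_eq_norm] at hz'
              linarith only [hδ, hδρ, hρ8, hr₄, hwz, hz', this]
            · intro e he
              have h5 := hz'G (y₀ + e • a) (S.lc.bad_sub he)
              have e1 : y₀ + z' • a - (y₀ + e • a) = (z' - e) • a := by rw [sub_smul]; abel
              rw [e1, hsm] at h5
              rwa [dist_eq_norm]
          have h5 : ‖z' - w‖ ^ 2 ≤ 1 := by
            have : ‖z' - w‖ ≤ 1 := by linarith only [hδ, hδρ, hρ8, hz']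
            exact pow_le_one₀ (norm_nonneg _) this
          have h6 : Real.exp (-(κ * ‖z'‖ ^ 2) + κ * ‖z' - w‖ ^ 2) ≤ Real.exp (-(κ * ‖z'‖ ^ 2)) * Real.exp κ := by
            rw [← Real.exp_add]
            refine Real.exp_le_exp.2 ?_
            nlinarith only [hκ, h5]
          have h7 : ‖K j z'‖ ≤ ‖(fun j => K j z' : Fin J → ℂ)‖ := norm_le_pi_norm (fun j => K j z' : Fin J → ℂ) j
          rw [hG₁n]
          calc ‖Z'‖ * (‖G z'‖ * Real.exp (-(κ * ‖z'‖ ^ 2) + κ * ‖z' - w‖ ^ 2))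
              ≤ (A' * (‖(fun j => K j z' : Fin J → ℂ)‖ * Real.exp (wt W (y₀ + z' • a)))) * (‖G z'‖ * (Real.exp (-(κ * ‖z'‖ ^ 2)) * Real.exp κ)) := by
                refine mul_le_mul (hj.trans ?_) (mul_le_mul_of_nonneg_left h6 (norm_nonneg _)) (by positivity) (by positivity)
                gcongr
            _ = A' * Real.exp κ * (kap W K y₀ a κ z' * ‖G z'‖) := by
                rw [kap, sub_eq_add_neg, Real.exp_add]
                ring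
            _ ≤ A' * Real.exp κ * T := mul_le_mul_of_nonneg_left h4 (by positivity)
        have h8 := ((hZ' w' hw').norm).mul_const ‖G₁ z'‖
        filter_upwards [h8.eventually_lt_const (show ‖Z'‖ * ‖G₁ z'‖ < A' * Real.exp κ * T + η by linarith only [hη, h3])] with n hn
        exact hn.le
    have h2 : ‖Z‖ * ‖G₁ w‖ ≤ Cm * (A' * Real.exp κ * T) := by
      refine le_of_forall_pos_le_add fun η hη0 => ?_
      have h3 := hη (η / Cm) (by positivity)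
      have e : Cm * (A' * Real.exp κ * T + η / Cm) = Cm * (A' * Real.exp κ * T) + η := by
        field_simp
      rwa [e] at h3
    have h3 : ‖(fun j => K j w : Fin J → ℂ)‖ * Real.exp (wt W (y₀ + w • a)) ≤ A * ‖Z‖ := by
      rw [← le_div_iff₀ (Real.exp_pos _), pi_norm_le_iff_of_nonneg (by positivity)]
      intro j
      rw [le_div_iff₀ (Real.exp_pos _)]
      exact h1 j
    have h4 : ‖G₁ w‖ = ‖G w‖ * Real.exp (-(κ * ‖w‖ ^ 2)) := by
      rw [hG₁n, sub_self, norm_zero]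
      congr 2
      ring
    calc kap W K y₀ a κ w * ‖G w‖ = (‖(fun j => K j w : Fin J → ℂ)‖ * Real.exp (wt W (y₀ + w • a))) * (‖G w‖ * Real.exp (-(κ * ‖w‖ ^ 2))) := by
          rw [kap, sub_eq_add_neg, Real.exp_add]
          ring
      _ ≤ A * ‖Z‖ * ‖G₁ w‖ := by
          rw [h4]
          exact mul_le_mul_of_nonneg_right h3 (by positivity)
      _ = A * (‖Z‖ * ‖G₁ w‖) := by ring
      _ ≤ A * (Cm * (A' * Real.exp κ * T)) := mul_le_mul_of_nonneg_left h2 hA.le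
      _ = A * Cm * A' * Real.exp κ * T := by ring
  -- the disc of a small circle contains no exact bad hit
  have hdisc : ∀ z : ℂ, (∀ e ∈ E, r₀ / 2 ≤ dist z e) → ∀ r : ℝ, r ≤ r₀ / 4 → ∀ j, ∀ x ∈ closedBall z r, DifferentiableAt ℂ (K j) x := by
    intro z hz r hr j x hx
    refine hKd j x fun hxB => ?_
    have h1 := hz x hxB
    rw [mem_closedBall, dist_comm] at hx
    linarith only [hr₀, hr, hx, h1]
  have hlt : ∀ r : ℝ, Real.exp (-((wt W a - κ) * r ^ 2)) ≤ 1 := by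
    intro r
    rw [Real.exp_le_one_iff]
    have : 0 ≤ (wt W a - κ) * r ^ 2 := by positivity
    linarith only [this]
  refine Pool.Agent.G4.U.ustar (E := E) hEc ?_ (M := M₀) ?_ ?_ hδ (by linarith only [hδ, hδρ, hρ8]) (ρ := 1 / 2) (by norm_num) le_rfl hr₀ hr₃ (q := Real.exp (-((wt W a - κ) * (r₀ / 4) ^ 2)))
    ?_ (κ := kap W K y₀ a κ) (C₁ := max (A * max Cb 0) (A * Cm * A' * Real.exp κ)) (kap_nonneg K y₀ a κ) ?_ ?_ ?_ x (fun e he => hr₁.trans (hd₁ e he))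
  · intro z R
    rcases le_or_gt 0 R with hR | hR
    · exact (hC₂ z R hR).1
    · rw [closedBall_eq_empty.2 hR, Set.inter_empty]
      exact Set.finite_empty
  · intro z
    have h1 := (hC₂ z 2 (by norm_num)).2
    rw [hM₀]
    have h2 := h1.trans (Nat.le_ceil _)
    exact_mod_cast h2
  · intro ε hε
    obtain ⟨C, hC⟩ := few_ncard S.lc y₀ hε
    exact ⟨C, fun z R hR => (hC z R (by linarith only [hδ, hδρ, hρ8, hR])).2⟩
  · rw [Real.exp_lt_one_iff]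
    have : 0 < (wt W a - κ) * (r₀ / 4) ^ 2 := by positivity
    linarith only [this]
  · intro z hz
    obtain ⟨r, hr, hr', hc⟩ := hcirc' z
    have h1 := kmax (W := W) (K := K) (y₀ := y₀) (a := a) (κ := κ) (z := z) (r' := r + 1) hr (by linarith only [hr₄, hr, hr']) (hdisc z hz r hr'.le) (g := fun _ => 1) (differentiableOn_const _)
      (S := A * max Cb 0) (fun w hw => by
        rw [norm_one, mul_one]
        exact hkb w (hc w hw))
    rw [norm_one, mul_one] at h1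
    refine h1.trans (le_trans ?_ (le_max_left _ _))
    have : 0 ≤ A * max Cb 0 := by positivity
    exact mul_le_of_le_one_left this (hlt r)
  · intro z hz G hG _ T hT
    refine kmax (r' := r₀ / 2) (by positivity) (by linarith only [hr₀]) (hdisc z (fun e he => by linarith only [hr₀, hz, he, hz e he]) _ le_rfl) hG hT
  · intro z hz _ G hG _ T hT
    -- `T` is not negative
    have hT0 : 0 ≤ T := by
      obtain ⟨r, hr, hr', hc⟩ := S.lc.circC (y₀ + z • a)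
      have h1 := hc (r : ℂ) (by rw [Complex.norm_real, Real.norm_eq_abs, abs_of_pos hr])
      have e : y₀ + z • a + (r : ℂ) • a = y₀ + (z + r) • a := by rw [add_smul]; abel
      rw [e] at h1
      refine (mul_nonneg (kap_nonneg K y₀ a κ _) (norm_nonneg _)).trans (hT (z + r) ?_ ?_)
      · rw [dist_eq_norm, add_sub_cancel_left, Complex.norm_real, Real.norm_eq_abs, abs_of_pos hr]
        linarith only [hδ, hδρ, hρ8, hr']
      · intro e he
        have h5 := h1 (y₀ + e • a) (S.lc.bad_sub he)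
        have e1 : y₀ + (z + r) • a - (y₀ + e • a) = (z + r - e) • a := by rw [sub_smul]; abel
        rw [e1, hsm] at h5
        rw [dist_eq_norm]
        linarith only [hδ, h5]
    obtain ⟨r, hr, hr', hc⟩ := hcirc' z
    have h1 := kmax (W := W) (K := K) (y₀ := y₀) (a := a) (κ := κ) (z := z) (r' := 1) hr (by linarith only [hr₄, hr, hr']) (hdisc z hz r hr'.le) hG
      (S := A * Cm * A' * Real.exp κ * T) (fun w hw => hkm z w (by rw [hw]; exact hr') (hc w hw) G hG T hT0 hT)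
    refine h1.trans ?_
    have h2 : 0 ≤ A * Cm * A' * Real.exp κ * T := by positivity
    refine (mul_le_of_le_one_left h2 (hlt r)).trans ?_
    exact mul_le_mul_of_nonneg_right (le_max_right _ _) hT0

theorem cmb_zero (S : DA X Λ u D B Bad a Γ W α c₀ C₀ ρ δ) (hC : Cmb X Λ u D a 𝒰 y y₀ f g c) {κ : ℝ} (hκ : 0 ≤ κ) (hκ₀ : κ < c₀)
    (hb : ∀ δ' : ℝ, 0 < δ' → ∃ C : ℝ, ∀ x : ℂ, y₀ + x • a ∈ Gd D δ' → ∀ v : EN N, ‖v‖ = 1 → pr v = g x → ∀ᶠ n in (𝒰 : Filter ι), ‖cX c f v n x‖ ≤ C * Real.exp (κ * ‖x‖ ^ 2))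
    (hm : MdX D a 𝒰 y₀ f g c δ) {x : ℂ} (hx : y₀ + x • a ∉ D) {v : EN N} (hv : ‖v‖ = 1) (hvg : pr v = g x) {w : ι → ℂ} (hw : Tendsto w 𝒰 (𝓝 x)) :
    Tendsto (fun n => cX c f v n (w n)) 𝒰 (𝓝 0) := by
  choose K hKd hK using fun j => cmb_K S.geo S.lg S.cr S.good hC (α j)
  have hxB : y₀ + x • a ∉ Bad := fun h => hx (S.lc.bad_sub h)
  have h0 := cmb_K0 S hC hKd hK hκ hκ₀ hb hm hxB
  have hK0 : ∀ j, K j x = 0 := by
    intro j
    have h1 : ‖(fun j => K j x : Fin J → ℂ)‖ = 0 := by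
      rw [kap] at h0
      rcases mul_eq_zero.1 h0 with h | h
      · exact h
      · exact absurd h (Real.exp_pos _).ne'
    have h2 := norm_le_pi_norm (fun j => K j x : Fin J → ℂ) j
    rw [h1] at h2
    exact norm_le_zero_iff.1 h2
  obtain ⟨δ', hδ', hxG⟩ : ∃ δ' : ℝ, 0 < δ' ∧ y₀ + x • a ∈ Gd D δ' := by
    obtain ⟨r, hr, hrD⟩ := Metric.isOpen_iff.1 S.lg.D_closed.isOpen_compl _ hx
    refine ⟨r, hr, fun d hd => ?_⟩
    by_contra h
    push Not at h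
    exact hrD (show d ∈ ball (y₀ + x • a) r by rw [mem_ball, dist_comm, dist_eq_norm]; exact h) hd
  obtain ⟨A, hA, hAl⟩ := fch_lim S hC hK hδ'
  obtain ⟨Z, hZ, -, j, hj⟩ := hAl x hxG v hv hvg
  rw [hK0 j, norm_zero, zero_mul, mul_zero] at hj
  have hZ0 : Z = 0 := norm_le_zero_iff.1 hj
  have h1 := hZ w hw
  rwa [hZ0] at h1

end Pool.Agent.G4.A

end

section

/-!
# G4 A CmF: the combinations tend to zero, final form

`cmb_null`: `cmb_zero` with `md_all`: combinations (`Cmb`) with the bounds `C exp (κ ‖x‖²)`, `κ < c₀`, over `Gd D δ'` for every `δ'`, tend to `0` off `D`.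
-/

set_option autoImplicit false

open Topology Filter Metric

namespace Pool.Agent.G4.A

open Pool.Agent.H36.BP (EN fs wd)
open Pool.Agent.H14.PP (IsCone CurveAt Tan)
open Pool.Agent.H62.EF (MN pr)
open Pool.Agent.AD (Vd Chart Charts IsGerm)
open Pool.Agent.TG
open Pool.Agent.G3
open Pool.Agent.G3.A
open Pool.Agent.G3.R (Prm)
open Pool.Agent.G3.C (Gc nv nd nv_pr)

variable {N k : ℕ} {X : Set (EN N)} {Λ : AddSubgroup (Vd (k + 1))} {u : EN N → Vd (k + 1)} {D B Bad : Set (Vd (k + 1))} {a : Vd (k + 1)}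
  {Γ : AddSubgroup (Vd (k + 1))} {J rW : ℕ} {W : Fin rW → Vd (k + 1) →L[ℂ] ℂ} {α : Fin J → VForm X Λ u} {c₀ C₀ ρ δ : ℝ}

theorem cmb_null (S : DA X Λ u D B Bad a Γ W α c₀ C₀ ρ δ) {ι : Type} {𝒰 : Ultrafilter ι} {M : ℕ} {y : Fin M → ι → Vd (k + 1)} {y₀ : Vd (k + 1)}
    {f : Fin M → ι → ℂ → MN N} {g : ℂ → MN N} {c : ι → Fin M → ℂ → ℂ} (hC : Cmb X Λ u D a 𝒰 y y₀ f g c) {κ : ℝ} (hκ : 0 ≤ κ) (hκ₀ : κ < c₀)
    (hb : ∀ δ' : ℝ, 0 < δ' → ∃ C : ℝ, ∀ x : ℂ, y₀ + x • a ∈ Gd D δ' → ∀ v : EN N, ‖v‖ = 1 → pr v = g x → ∀ᶠ n in (𝒰 : Filter ι), ‖cX c f v n x‖ ≤ C * Real.exp (κ * ‖x‖ ^ 2))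
    {x : ℂ} (hx : y₀ + x • a ∉ D) {v : EN N} (hv : ‖v‖ = 1) (hvg : pr v = g x) {w : ι → ℂ} (hw : Tendsto w 𝒰 (𝓝 x)) :
    Tendsto (fun n => cX c f v n (w n)) 𝒰 (𝓝 0) := cmb_zero S hC hκ hκ₀ hb (md_all S hC) hx hv hvg hw

end Pool.Agent.G4.A

end

section

/-!
# G4 A HP: two curves which are close in a half plane are equal

`κ = c₀ / 8`.  `hp_claim` by contradiction: `ε n → 0`, `z n` near maximum over the core with `‖z n - c n‖ < R n - (n + 1)` and `dist ≠ 0`; recentre: `f n (z n + ·)`, `g n (z n + ·)` over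
`y n + z n a`, moved by `Λ` (`hc_per`) into a bounded set, limits `y₀`, curves `f₀ = g₀` (`hc_closed`; dist ≤ `ε n` in the core of larger and larger discs: use the circles `LC.thick` and `hc_eq`).
Put `d n = dist (f n 0) (g n 0)`, `e n z = exp (- 2 κ conj (z n - c n) z)`: `dist (f n z) (g n z) ‖e n z‖ ≤ 2 d n exp (κ ‖z‖²)` in the core, and by `md` (circles `LC.thick`, `r ≤ 2 ρ ≤ 1 / 2`)
`≤ C d n exp (κ (‖z‖ + 1 / 2)²)` over `Gd D δ'`.  (Z) (`cmb_null`) for the coefficients `± e n / d n` (`cmb_pair`, `pair_bound`): the combination tends to `0` at `0`, but it is at least `1 / 2` (`nv_lower`).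
`hp_rigid`: discs in the half plane which touch its boundary, `R → ∞`: `dist (f z) (g z) ≤ 2 ε₀ exp (2 κ R₂ R - κ (R² - (R - t)²))` at core points of depth `t > R₂`; `f = g` on a circle, `hc_eq`.
-/

set_option autoImplicit false

open Topology Filter Metric

namespace Pool.Agent.G4.A

open Pool.Agent.H36.BP (EN fs wd)
open Pool.Agent.H14.PP (IsCone CurveAt Tan)
open Pool.Agent.H62.EF (MN pr)
open Pool.Agent.AD (Vd Chart Charts IsGerm)
open Pool.Agent.TG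
open Pool.Agent.G3 (wt)
open Pool.Agent.G3.A (Ba Hc Dec Sepa Tht Frm NL Lm CRL Tb ToE CE Sht md)
open Pool.Agent.G3.C (Gc HP nv nd nv_pr)

variable {N k : ℕ} {X : Set (EN N)} {Λ : AddSubgroup (Vd (k + 1))} {u : EN N → Vd (k + 1)} {D B Bad : Set (Vd (k + 1))} {a : Vd (k + 1)}
  {Γ : AddSubgroup (Vd (k + 1))} {J rW : ℕ} {W : Fin rW → Vd (k + 1) →L[ℂ] ℂ} {α : Fin J → VForm X Λ u} {c₀ C₀ ρ δ : ℝ}

private theorem hp_co_aux (hL : LG Λ D Bad a) {y l : Vd (k + 1)} (hl : l ∈ Λ) (h : y ∈ Co D Bad δ ρ) : y + l ∈ Co D Bad δ ρ := by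
  intro b hb
  have h1 := h (b + -l) (hL.D_inv b hb (-l) (Λ.neg_mem hl))
  have e : y - (b + -l) = y + l - b := by abel
  rwa [e] at h1

private theorem hp_co (hL : LG Λ D Bad a) {y l : Vd (k + 1)} (hl : l ∈ Λ) : y + l ∈ Co D Bad δ ρ ↔ y ∈ Co D Bad δ ρ := by
  refine ⟨fun h => ?_, hp_co_aux hL hl⟩
  have h1 := hp_co_aux hL (Λ.neg_mem hl) h
  rwa [add_neg_cancel_right] at h1

private theorem hp_im {ν : ℂ} (hν : ‖ν‖ = 1) (z w : ℂ) : ((starRingEnd ℂ) ν * z).im - ‖z - w‖ ≤ ((starRingEnd ℂ) ν * w).im := by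
  have h1 : ((starRingEnd ℂ) ν * z).im - ((starRingEnd ℂ) ν * w).im = ((starRingEnd ℂ) ν * (z - w)).im := by
    rw [mul_sub, Complex.sub_im]
  have h2 := Complex.abs_im_le_norm ((starRingEnd ℂ) ν * (z - w))
  rw [norm_mul, RCLike.norm_conj, hν, one_mul] at h2
  have h3 := le_abs_self ((starRingEnd ℂ) ν * (z - w)).im
  linarith only [h1, h2, h3]

private theorem hp_nsq (z c : ℂ) : ‖z - c‖ ^ 2 = ‖z‖ ^ 2 - 2 * ((starRingEnd ℂ) c * z).re + ‖c‖ ^ 2 := by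
  rw [Complex.sq_norm, Complex.sq_norm, Complex.sq_norm, Complex.normSq_sub, mul_comm z]
  ring

/-- the core of the claim: the contradiction after recentering -/
private theorem hp_core (S : DA X Λ u D B Bad a Γ W α c₀ C₀ ρ δ) {y : ℕ → Vd (k + 1)} {f g : ℕ → ℂ → MN N} {c : ℕ → ℂ} {R ε : ℕ → ℝ} {Q : ℝ}
    (hy : ∀ n, ‖y n‖ ≤ Q) (hf : ∀ n, f n ∈ Hc X Λ u a (y n)) (hg : ∀ n, g n ∈ Hc X Λ u a (y n)) (hε : Tendsto ε atTop (𝓝 0))
    (hc : ∀ n : ℕ, ‖c n‖ < R n - (n + 1)) (h1 : ∀ n, ∀ z ∈ ball (c n) (R n), y n + z • a ∈ Co D Bad δ ρ → dist (f n z) (g n z) ≤ ε n)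
    (h2 : ∀ n, y n ∈ Co D Bad δ ρ) (h3 : ∀ n, ∀ z ∈ ball (c n) (R n), y n + z • a ∈ Co D Bad δ ρ →
      dist (f n z) (g n z) * Real.exp (c₀ / 8 * (R n ^ 2 - ‖z - c n‖ ^ 2)) ≤ 2 * (dist (f n 0) (g n 0) * Real.exp (c₀ / 8 * (R n ^ 2 - ‖c n‖ ^ 2))))
    (h4 : ∀ n, f n 0 ≠ g n 0) : False := by
  obtain ⟨𝒰, h𝒰⟩ : ∃ 𝒰 : Ultrafilter ℕ, (𝒰 : Filter ℕ) ≤ atTop := ⟨hyperfilter ℕ, Nat.hyperfilter_le_atTop⟩
  have hX := S.geo.cone
  have hδ := S.lc.δ_pos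
  have hρ := S.lc.ρ_pos
  have hρ8 := S.lc.ρ_le
  have hδρ := S.lc.δ_le
  have ha := S.lc.norm
  have hc₀ := S.c_pos
  have hε' : Tendsto ε (𝒰 : Filter ℕ) (𝓝 0) := hε.mono_left h𝒰
  obtain ⟨y₀, -, hy₀⟩ := (isCompact_closedBall (0 : Vd (k + 1)) Q).ultrafilter_le_nhds (𝒰.map y) (by
    rw [Ultrafilter.coe_map, le_principal_iff, mem_map]
    refine univ_mem' fun n => ?_
    simpa using hy n)
  have hyt : Tendsto y (𝒰 : Filter ℕ) (𝓝 y₀) := hy₀
  have hyn : ∀ t : ℝ, 0 < t → ∀ᶠ n in (𝒰 : Filter ℕ), ‖y n - y₀‖ ≤ t := by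
    intro t ht
    filter_upwards [hyt.eventually (ball_mem_nhds y₀ ht)] with n hn
    rw [← dist_eq_norm]
    exact (mem_ball.1 hn).le
  -- the discs exhaust the plane
  have hball : ∀ M : ℝ, ∀ᶠ n in (𝒰 : Filter ℕ), ∀ z : ℂ, ‖z‖ ≤ M → z ∈ ball (c n) (R n) := by
    intro M
    filter_upwards [h𝒰 ((tendsto_natCast_atTop_atTop (R := ℝ)).eventually_ge_atTop M)] with n hn z hz
    rw [mem_ball, dist_eq_norm]
    have h5 := norm_sub_le z (c n)
    have h6 := hc n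
    linarith
  obtain ⟨f₀, hf₀, hff⟩ := hc_closed S.geo S.lg S.nl hyt (Eventually.of_forall hf)
  obtain ⟨g₀, hg₀, hgg⟩ := hc_closed S.geo S.lg S.nl hyt (Eventually.of_forall hg)
  -- the limits are equal
  have hfg : f₀ = g₀ := by
    obtain ⟨r, hr0, hr, hth⟩ := S.lc.thick y₀
    have key : ∀ z : ℂ, |‖z‖ - r| ≤ δ → f₀ z = g₀ z := by
      intro z hz
      have hz1 : ‖z‖ ≤ 1 := by
        rw [abs_le] at hz
        linarith [hz.2]
      have hC₀ : y₀ + z • a ∈ Co D Bad δ ρ := hth y₀ (by rw [sub_self, norm_zero]; exact hδ.le) z hz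
      have hD₀ : y₀ + z • a ∉ D := gd_notMem (by linarith) hC₀
      have t1 := hff z hD₀ (fun _ => z) tendsto_const_nhds
      have t2 := hgg z hD₀ (fun _ => z) tendsto_const_nhds
      have t3 : Tendsto (fun n => dist (f n z) (g n z)) (𝒰 : Filter ℕ) (𝓝 (dist (f₀ z) (g₀ z))) := t1.dist t2
      have hle : dist (f₀ z) (g₀ z) ≤ 0 := by
        refine le_of_tendsto_of_tendsto t3 hε' ?_
        filter_upwards [hball 1, hyn δ hδ] with n a1 a2
        exact h1 n z (a1 z hz1) (hth (y n) a2 z hz)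
      exact dist_le_zero.1 hle
    refine hc_eq hX hf₀ hg₀ (z₀ := (r : ℂ)) ?_
    have hev : ∀ᶠ z in 𝓝 (r : ℂ), f₀ z = g₀ z := by
      have h5 : ContinuousAt (fun z : ℂ => |‖z‖ - r|) (r : ℂ) := by fun_prop
      have h6 : |‖(r : ℂ)‖ - r| < δ := by
        rw [Complex.norm_real, Real.norm_eq_abs, abs_of_pos hr0, sub_self, abs_zero]
        exact hδ
      filter_upwards [h5.eventually_lt_const h6] with z hz
      exact key z hz.le
    exact (hev.filter_mono nhdsWithin_le_nhds).frequently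
  rw [← hfg] at hgg
  obtain ⟨d, hd⟩ : ∃ d : ℕ → ℝ, d = fun n => dist (f n 0) (g n 0) := ⟨_, rfl⟩
  have hd0 : ∀ n, 0 < d n := fun n => by
    rw [hd]
    exact dist_pos.2 (h4 n)
  obtain ⟨e, he⟩ : ∃ e : ℕ → ℂ → ℂ, e = fun n z => Complex.exp (((c₀ / 4 : ℝ) : ℂ) * ((starRingEnd ℂ) (c n) * z)) := ⟨_, rfl⟩
  have hed : ∀ n, Differentiable ℂ (e n) := by
    intro n
    rw [he]
    fun_prop
  have hen : ∀ n z, ‖e n z‖ = Real.exp (c₀ / 4 * ((starRingEnd ℂ) (c n) * z).re) := by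
    intro n z
    rw [he]
    simp only
    rw [Complex.norm_exp, Complex.re_ofReal_mul]
  have he0 : ∀ n, e n 0 = 1 := by
    intro n
    rw [he]
    simp
  have hw : ∀ n, ∀ z ∈ ball (c n) (R n), y n + z • a ∈ Co D Bad δ ρ → dist (f n z) (g n z) * ‖e n z‖ ≤ 2 * d n * Real.exp (c₀ / 8 * ‖z‖ ^ 2) := by
    intro n z hz hzC
    have h5 := h3 n z hz hzC
    rw [hp_nsq z (c n)] at h5
    have h6 : Real.exp (c₀ / 8 * (R n ^ 2 - (‖z‖ ^ 2 - 2 * ((starRingEnd ℂ) (c n) * z).re + ‖c n‖ ^ 2))) =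
        Real.exp (c₀ / 4 * ((starRingEnd ℂ) (c n) * z).re) * Real.exp (c₀ / 8 * (R n ^ 2 - ‖c n‖ ^ 2)) * (Real.exp (c₀ / 8 * ‖z‖ ^ 2))⁻¹ := by
      rw [← Real.exp_neg, ← Real.exp_add, ← Real.exp_add]
      congr 1
      ring
    rw [h6, ← hen n z] at h5
    have hp1 : 0 < Real.exp (c₀ / 8 * (R n ^ 2 - ‖c n‖ ^ 2)) := Real.exp_pos _
    have hp2 : 0 < Real.exp (c₀ / 8 * ‖z‖ ^ 2) := Real.exp_pos _
    have h7 : dist (f n z) (g n z) * ‖e n z‖ * (Real.exp (c₀ / 8 * ‖z‖ ^ 2))⁻¹ ≤ 2 * d n := by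
      refine le_of_mul_le_mul_right ?_ hp1
      calc dist (f n z) (g n z) * ‖e n z‖ * (Real.exp (c₀ / 8 * ‖z‖ ^ 2))⁻¹ * Real.exp (c₀ / 8 * (R n ^ 2 - ‖c n‖ ^ 2))
          = dist (f n z) (g n z) * (‖e n z‖ * Real.exp (c₀ / 8 * (R n ^ 2 - ‖c n‖ ^ 2)) * (Real.exp (c₀ / 8 * ‖z‖ ^ 2))⁻¹) := by ring
        _ ≤ _ := h5
        _ = 2 * d n * Real.exp (c₀ / 8 * (R n ^ 2 - ‖c n‖ ^ 2)) := by rw [hd]; ring
    rw [← div_eq_mul_inv, div_le_iff₀ hp2] at h7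
    exact h7
  -- the coefficients
  obtain ⟨q, hq⟩ : ∃ q : ℕ → ℂ → ℂ, q = fun n z => e n z / (d n : ℂ) := ⟨_, rfl⟩
  have hqn : ∀ n z, ‖q n z‖ = ‖e n z‖ / d n := by
    intro n z
    rw [hq]
    simp only
    rw [norm_div, Complex.norm_real, Real.norm_eq_abs, abs_of_pos (hd0 n)]
  have hqd : ∀ n, Differentiable ℂ (q n) := by
    intro n
    rw [hq]
    exact (hed n).div_const _
  -- bounds at all points over `Gd D δ'`
  have hb : PBd D a 𝒰 y f g q (c₀ / 8) := by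
    intro δ' hδ'
    obtain ⟨Cm, hCm, hmd⟩ := md (Λ := Λ) (u := u) hX S.nl hδ'
    refine ⟨Cm * 2, by positivity, fun M => ?_⟩
    filter_upwards [hball (M + 1 / 2)] with n hn x hx hxG
    obtain ⟨r, hr0, hr, hth⟩ := S.lc.thick (y n + x • a)
    have hr1 : r ≤ 1 / 2 := by linarith
    have hcirc : ∀ z : ℂ, ‖z - x‖ = r → z ∈ ball (c n) (R n) ∧ y n + z • a ∈ Co D Bad δ ρ ∧ ‖z‖ ≤ ‖x‖ + 1 / 2 := by
      intro z hz
      have h5 : ‖z‖ ≤ ‖x‖ + 1 / 2 := by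
        have := norm_le_norm_add_norm_sub x z
        rw [norm_sub_rev, hz] at this
        linarith
      refine ⟨hn z (by linarith), ?_, h5⟩
      have h7 := hth (y n + x • a) (by rw [sub_self, norm_zero]; exact hδ.le) (z - x) (by rw [hz, sub_self, abs_zero]; exact hδ.le)
      have e1 : y n + x • a + (z - x) • a = y n + z • a := by
        rw [sub_smul]
        abel
      rwa [e1] at h7
    have hxm : x ∈ closedBall x r := mem_closedBall_self hr0.le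
    have h5 := hmd (y n) (y n) (f n) (hf n) (g n) (hg n) x r hr0 (by linarith) (e n) (hed n).differentiableOn (2 * d n * Real.exp (c₀ / 8 * (‖x‖ + 1 / 2) ^ 2)) (fun z hz => by
      obtain ⟨b1, b2, b3⟩ := hcirc z hz
      refine (hw n z b1 b2).trans ?_
      have h5 : 0 ≤ 2 * d n := by linarith [hd0 n]
      have h6 : ‖z‖ ^ 2 ≤ (‖x‖ + 1 / 2) ^ 2 := by
        have := norm_nonneg z
        gcongr
      refine mul_le_mul_of_nonneg_left (Real.exp_le_exp.2 ?_) h5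
      exact mul_le_mul_of_nonneg_left h6 (by positivity)) x hxm hxG hxG
    rw [hqn, ← mul_div_assoc, div_le_iff₀ (hd0 n)]
    refine h5.trans (le_of_eq ?_)
    ring
  have hc8 : 0 ≤ c₀ / 8 := by positivity
  have hCmb := cmb_pair S.geo ha hyt (Eventually.of_forall hf) (Eventually.of_forall hg) hf₀ hff hgg (Eventually.of_forall hqd) hc8 hb
  have hbd := pair_bound ha hX hyt hf₀ hff hgg hc8 hb
  -- `y₀` is in the core
  have hy₀G : y₀ ∈ Gd D (2 * δ) := (gd_closed D (2 * δ)).mem_of_tendsto hyt (Eventually.of_forall h2)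
  have h0D : y₀ + (0 : ℂ) • a ∉ D := by
    rw [zero_smul, add_zero]
    exact gd_notMem (by linarith) hy₀G
  -- a unit vector over `f₀ 0`
  obtain ⟨v, hv, hv'⟩ : ∃ v : EN N, ‖v‖ = 1 ∧ pr v = f₀ 0 := by
    obtain ⟨x, hx, hxm, -⟩ := hc_mem hf₀ 0
    obtain ⟨c, hc, -, hcs⟩ := exists_unit hX hx
    exact ⟨c • x, mem_sphere_zero_iff_norm.1 hcs, by rw [Pool.Agent.H62.EF.pr_smul x hc, hxm]⟩
  have hlim := cmb_null S hCmb (κ := 2 * (c₀ / 8)) (by positivity) (by linarith) hbd h0D hv hv' (w := fun _ => 0) tendsto_const_nhds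
  have hlim' := hlim.norm
  rw [norm_zero] at hlim'
  obtain ⟨η, hη, hlow⟩ := nv_lower N
  have t1 := (hff 0 h0D (fun _ => 0) tendsto_const_nhds).eventually (closedBall_mem_nhds _ hη)
  have t2 := (hgg 0 h0D (fun _ => 0) tendsto_const_nhds).eventually (closedBall_mem_nhds _ hη)
  obtain ⟨n, a1, a2, a3⟩ := ((hlim'.eventually_lt_const (show (0 : ℝ) < 1 / 2 by norm_num)).and (t1.and t2)).exists
  have hne : ∀ F : ℂ → MN N, F ∈ Hc X Λ u a (y n) → ∃ x : EN N, x ≠ 0 ∧ pr x = F 0 := by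
    intro F hF
    obtain ⟨x, hx, hxm, -⟩ := hc_mem hF 0
    exact ⟨x, ne_zero hX hx, hxm⟩
  obtain ⟨x, hx, hxm⟩ := hne _ (hf n)
  obtain ⟨x', hx', hxm'⟩ := hne _ (hg n)
  have h5 := hlow v hv x x' hx hx' (by rw [hxm, hv']; exact a2) (by rw [hxm', hv']; exact a3)
  rw [hxm, hxm'] at h5
  have hdn : dist (f n 0) (g n 0) = d n := by rw [hd]
  rw [cX_pair, norm_smul, hqn, he0, norm_one] at a1
  rw [hdn] at h5
  have h6 : 1 / d n * ‖nv v (f n 0) - nv v (g n 0)‖ * d n = ‖nv v (f n 0) - nv v (g n 0)‖ := by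
    have := (hd0 n).ne'
    field_simp
  have h7 := mul_lt_mul_of_pos_right a1 (hd0 n)
  rw [h6] at h7
  linarith

theorem hp_claim (S : DA X Λ u D B Bad a Γ W α c₀ C₀ ρ δ) : ∃ R₂ ε₀ : ℝ, 0 < R₂ ∧ 0 < ε₀ ∧ ∀ y : Vd (k + 1), ∀ f ∈ Hc X Λ u a y, ∀ g ∈ Hc X Λ u a y, ∀ (c : ℂ) (R : ℝ),
    (∀ z ∈ ball c R, y + z • a ∈ Co D Bad δ ρ → dist (f z) (g z) ≤ ε₀) → ∀ z₁ : ℂ, ‖z₁ - c‖ < R - R₂ → y + z₁ • a ∈ Co D Bad δ ρ →
    (∀ z ∈ ball c R, y + z • a ∈ Co D Bad δ ρ → dist (f z) (g z) * Real.exp (c₀ / 8 * (R ^ 2 - ‖z - c‖ ^ 2)) ≤ 2 * (dist (f z₁) (g z₁) * Real.exp (c₀ / 8 * (R ^ 2 - ‖z₁ - c‖ ^ 2)))) →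
    f z₁ = g z₁ := by
  by_contra hcon
  push Not at hcon
  have hcon' : ∀ n : ℕ, ∃ y : Vd (k + 1), ∃ f ∈ Hc X Λ u a y, ∃ g ∈ Hc X Λ u a y, ∃ (c : ℂ) (R : ℝ),
      (∀ z ∈ ball c R, y + z • a ∈ Co D Bad δ ρ → dist (f z) (g z) ≤ 1 / ((n : ℝ) + 1)) ∧ ∃ z₁ : ℂ, ‖z₁ - c‖ < R - (n + 1) ∧ y + z₁ • a ∈ Co D Bad δ ρ ∧
      (∀ z ∈ ball c R, y + z • a ∈ Co D Bad δ ρ → dist (f z) (g z) * Real.exp (c₀ / 8 * (R ^ 2 - ‖z - c‖ ^ 2)) ≤
        2 * (dist (f z₁) (g z₁) * Real.exp (c₀ / 8 * (R ^ 2 - ‖z₁ - c‖ ^ 2)))) ∧ f z₁ ≠ g z₁ := by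
    intro n
    obtain ⟨y, f, hf, g, hg, c, R, h1, z₁, h2, h3, h4, h5⟩ := hcon ((n : ℝ) + 1) (1 / ((n : ℝ) + 1)) (by positivity) (by positivity)
    exact ⟨y, f, hf, g, hg, c, R, h1, z₁, h2, h3, h4, h5⟩
  choose y f hf g hg c R h1 z₁ h2 h3 h4 h5 using hcon'
  obtain ⟨Q, hQ, hcpt⟩ := S.lg.lat.cpt
  choose l hl hyl using fun n => hcpt (y n + z₁ n • a)
  have hco : ∀ (n : ℕ) (z : ℂ), y n + z₁ n • a - l n + z • a ∈ Co D Bad δ ρ → y n + (z₁ n + z) • a ∈ Co D Bad δ ρ := by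
    intro n z hz
    have h6 := (hp_co S.lg (hl n)).2 hz
    have e : y n + z₁ n • a - l n + z • a + l n = y n + (z₁ n + z) • a := by
      rw [add_smul]
      abel
    rwa [e] at h6
  have hHc : ∀ (n : ℕ) (F : ℂ → MN N), F ∈ Hc X Λ u a (y n) → (fun z => F (z₁ n + z)) ∈ Hc X Λ u a (y n + z₁ n • a - l n) := by
    intro n F hF
    have h6 := hc_add hF (z₁ n)
    have h7 := hc_per (X := X) (u := u) (a := a) (y := y n + z₁ n • a) (Λ.neg_mem (hl n))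
    rw [← sub_eq_add_neg] at h7
    rw [h7]
    exact h6
  have hbl : ∀ (n : ℕ) (z : ℂ), z ∈ ball (c n - z₁ n) (R n) → z₁ n + z ∈ ball (c n) (R n) := by
    intro n z hz
    rw [mem_ball, dist_eq_norm] at hz ⊢
    have e : z₁ n + z - c n = z - (c n - z₁ n) := by ring
    rwa [e]
  refine hp_core S (y := fun n => y n + z₁ n • a - l n) (f := fun n z => f n (z₁ n + z)) (g := fun n z => g n (z₁ n + z)) (c := fun n => c n - z₁ n) (R := R)
    (ε := fun n : ℕ => 1 / ((n : ℝ) + 1)) (Q := Q) hyl (fun n => hHc n _ (hf n)) (fun n => hHc n _ (hg n)) tendsto_one_div_add_atTop_nhds_zero_nat ?_ ?_ ?_ ?_ ?_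
  · intro n
    rw [norm_sub_rev]
    exact h2 n
  · intro n z hz hzC
    exact h1 n _ (hbl n z hz) (hco n z hzC)
  · intro n
    have h6 := (hp_co (δ := δ) (ρ := ρ) S.lg (Λ.neg_mem (hl n))).2 (h3 n)
    rwa [← sub_eq_add_neg] at h6
  · intro n z hz hzC
    have h6 := h4 n _ (hbl n z hz) (hco n z hzC)
    have e1 : z₁ n + z - c n = z - (c n - z₁ n) := by ring
    rw [e1] at h6
    have e2 : ‖z₁ n - c n‖ = ‖c n - z₁ n‖ := norm_sub_rev _ _
    rw [e2] at h6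
    simp only [add_zero]
    exact h6
  · intro n
    simp only [add_zero]
    exact h5 n

theorem hp_rigid (S : DA X Λ u D B Bad a Γ W α c₀ C₀ ρ δ) : ∃ ε₀ : ℝ, 0 < ε₀ ∧ ∀ y : Vd (k + 1), ∀ f ∈ Hc X Λ u a y, ∀ g ∈ Hc X Λ u a y, ∀ (ω : ℂ) (h : ℝ), ‖ω‖ = 1 →
    (∀ z ∈ HP ω h, y + z • a ∈ Co D Bad δ ρ → dist (f z) (g z) ≤ ε₀) → f = g := by
  obtain ⟨R₂, ε₀, hR₂, hε₀, hcl⟩ := hp_claim S
  have hX := S.geo.cone
  have hδ := S.lc.δ_pos
  have hρ := S.lc.ρ_pos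
  have hρ8 := S.lc.ρ_le
  have hδρ := S.lc.δ_le
  have hc₀ := S.c_pos
  refine ⟨ε₀, hε₀, fun y f hf g hg ω h hω hclose => ?_⟩
  have hωω : (starRingEnd ℂ) ω * ω = 1 := by
    rw [mul_comm, Complex.mul_conj, Complex.normSq_eq_norm_sq, hω]
    simp
  -- the bound on a disc in the half plane
  have hdisc : ∀ (c : ℂ) (R : ℝ), 0 < R → ball c R ⊆ HP ω h → ∀ z ∈ ball c R, y + z • a ∈ Co D Bad δ ρ →
      dist (f z) (g z) ≤ 2 * ε₀ * Real.exp (c₀ / 8 * (2 * R₂ * R) - c₀ / 8 * (R ^ 2 - ‖z - c‖ ^ 2)) := by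
    intro c R hR0 hsub z hz hzC
    obtain ⟨Ψ, hΨ⟩ : ∃ Ψ : ℂ → ℝ, Ψ = fun z => dist (f z) (g z) * Real.exp (c₀ / 8 * (R ^ 2 - ‖z - c‖ ^ 2)) := ⟨_, rfl⟩
    have hkey : Ψ z ≤ 2 * ε₀ * Real.exp (c₀ / 8 * (2 * R₂ * R)) := by
      by_contra hcon
      push Not at hcon
      obtain ⟨T, hT⟩ : ∃ T : Set ℝ, T = Ψ '' {z | z ∈ ball c R ∧ y + z • a ∈ Co D Bad δ ρ} := ⟨_, rfl⟩
      have hTb : BddAbove T := by
        refine ⟨ε₀ * Real.exp (c₀ / 8 * R ^ 2), ?_⟩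
        rw [hT]
        rintro _ ⟨w, ⟨hw1, hw2⟩, rfl⟩
        rw [hΨ]
        simp only
        refine mul_le_mul (hclose w (hsub hw1) hw2) (Real.exp_le_exp.2 ?_) (Real.exp_pos _).le hε₀.le
        refine mul_le_mul_of_nonneg_left ?_ (by positivity)
        linarith [sq_nonneg ‖w - c‖]
      have hzT : Ψ z ∈ T := by
        rw [hT]
        exact ⟨z, ⟨hz, hzC⟩, rfl⟩
      have hs1 : Ψ z ≤ sSup T := le_csSup hTb hzT
      have hpos : 0 < sSup T := lt_of_lt_of_le (lt_trans (by positivity) hcon) hs1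
      obtain ⟨_, hb1, hb2⟩ := exists_lt_of_lt_csSup ⟨_, hzT⟩ (half_lt_self hpos)
      rw [hT] at hb1
      obtain ⟨z₁, ⟨hz₁, hz₁C⟩, rfl⟩ := hb1
      have hmax : ∀ w ∈ ball c R, y + w • a ∈ Co D Bad δ ρ → Ψ w ≤ 2 * Ψ z₁ := by
        intro w hw hwC
        have h6 : Ψ w ≤ sSup T := le_csSup hTb (by rw [hT]; exact ⟨w, ⟨hw, hwC⟩, rfl⟩)
        linarith
      rcases lt_or_ge ‖z₁ - c‖ (R - R₂) with hlt | hge
      · have h6 := hcl y f hf g hg c R (fun w hw hwC => hclose w (hsub hw) hwC) z₁ hlt hz₁C (fun w hw hwC => by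
          have := hmax w hw hwC
          rw [hΨ] at this
          exact this)
        have h7 : Ψ z₁ = 0 := by
          rw [hΨ]
          simp only
          rw [h6, dist_self, zero_mul]
        linarith
      · have h6 : Ψ z₁ ≤ ε₀ * Real.exp (c₀ / 8 * (2 * R₂ * R)) := by
          rw [hΨ]
          simp only
          refine mul_le_mul (hclose z₁ (hsub hz₁) hz₁C) (Real.exp_le_exp.2 ?_) (Real.exp_pos _).le hε₀.le
          refine mul_le_mul_of_nonneg_left ?_ (by positivity)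
          have h7 : ‖z₁ - c‖ < R := by rwa [mem_ball, dist_eq_norm] at hz₁
          have h8 := norm_nonneg (z₁ - c)
          have h9 : (R - ‖z₁ - c‖) * (R + ‖z₁ - c‖) ≤ R₂ * (2 * R) :=
            mul_le_mul (by linarith) (by linarith) (by linarith) hR₂.le
          nlinarith
        have h7 := hmax z hz hzC
        linarith
    have h6 : Ψ z = dist (f z) (g z) * Real.exp (c₀ / 8 * (R ^ 2 - ‖z - c‖ ^ 2)) := by rw [hΨ]
    rw [h6] at hkey
    rw [Real.exp_sub, ← mul_div_assoc, le_div_iff₀ (Real.exp_pos _)]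
    exact hkey
  -- deep points
  have hdeep : ∀ z : ℂ, h + R₂ < ((starRingEnd ℂ) ω * z).im → y + z • a ∈ Co D Bad δ ρ → f z = g z := by
    intro z hz hzC
    obtain ⟨t, ht⟩ : ∃ t : ℝ, t = ((starRingEnd ℂ) ω * z).im - h := ⟨_, rfl⟩
    have ht2 : R₂ < t := by linarith
    have hb : ∀ R : ℝ, t < R → dist (f z) (g z) ≤ 2 * ε₀ * Real.exp (c₀ / 8 * (2 * R₂ - 2 * t) * R + c₀ / 8 * t ^ 2) := by
      intro R hR
      obtain ⟨c, hc⟩ : ∃ c : ℂ, c = z + ω * (Complex.I * ((R - t : ℝ) : ℂ)) := ⟨_, rfl⟩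
      have hzc : ‖z - c‖ = R - t := by
        rw [hc, sub_add_cancel_left, norm_neg, norm_mul, norm_mul, hω, Complex.norm_I, Complex.norm_real, Real.norm_eq_abs, abs_of_pos (by linarith), one_mul, one_mul]
      have hcd : ((starRingEnd ℂ) ω * c).im = h + R := by
        rw [hc, mul_add, ← mul_assoc, hωω, one_mul, Complex.add_im]
        have : (Complex.I * ((R - t : ℝ) : ℂ)).im = R - t := by
          rw [Complex.I_mul_im, Complex.ofReal_re]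
        rw [this, ht]
        ring
      have hsub : ball c R ⊆ HP ω h := by
        intro w hw
        rw [mem_ball, dist_eq_norm] at hw
        have h6 := hp_im hω c w
        rw [norm_sub_rev] at h6
        show h < ((starRingEnd ℂ) ω * w).im
        linarith
      have h6 := hdisc c R (by linarith) hsub z (by rw [mem_ball, dist_eq_norm, hzc]; linarith) hzC
      rw [hzc] at h6
      refine h6.trans (le_of_eq ?_)
      congr 2
      ring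
    have hlim : Tendsto (fun R : ℝ => 2 * ε₀ * Real.exp (c₀ / 8 * (2 * R₂ - 2 * t) * R + c₀ / 8 * t ^ 2)) atTop (𝓝 0) := by
      have h6 : Tendsto (fun R : ℝ => c₀ / 8 * (2 * R₂ - 2 * t) * R + c₀ / 8 * t ^ 2) atTop atBot := by
        refine tendsto_atBot_add_const_right _ _ ?_
        refine (tendsto_const_mul_atBot_of_neg ?_).2 tendsto_id
        have : 2 * R₂ - 2 * t < 0 := by linarith
        exact mul_neg_of_pos_of_neg (by positivity) this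
      have h7 := (Real.tendsto_exp_atBot.comp h6).const_mul (2 * ε₀)
      rw [mul_zero] at h7
      exact h7
    have hle : dist (f z) (g z) ≤ 0 := ge_of_tendsto hlim (by
      filter_upwards [eventually_gt_atTop t] with R hR
      exact hb R hR)
    exact dist_le_zero.1 hle
  -- a circle
  obtain ⟨z₂, hz₂⟩ : ∃ z₂ : ℂ, z₂ = ω * (Complex.I * ((h + R₂ + 2 : ℝ) : ℂ)) := ⟨_, rfl⟩
  have hz₂d : ((starRingEnd ℂ) ω * z₂).im = h + R₂ + 2 := by
    rw [hz₂, ← mul_assoc, hωω, one_mul, Complex.I_mul_im, Complex.ofReal_re]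
  obtain ⟨r, hr0, hr, hth⟩ := S.lc.thick (y + z₂ • a)
  have key : ∀ z : ℂ, |‖z - z₂‖ - r| ≤ δ → f z = g z := by
    intro z hz
    refine hdeep z ?_ ?_
    · have h6 := hp_im hω z₂ z
      rw [norm_sub_rev] at h6
      rw [abs_le] at hz
      linarith [hz.2]
    · have h6 := hth (y + z₂ • a) (by rw [sub_self, norm_zero]; exact hδ.le) (z - z₂) hz
      have e1 : y + z₂ • a + (z - z₂) • a = y + z • a := by
        rw [sub_smul]
        abel
      rwa [e1] at h6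
  refine hc_eq hX hf hg (z₀ := z₂ + (r : ℂ)) ?_
  have hev : ∀ᶠ z in 𝓝 (z₂ + (r : ℂ)), f z = g z := by
    have h5 : ContinuousAt (fun z : ℂ => |‖z - z₂‖ - r|) (z₂ + (r : ℂ)) := by fun_prop
    have h6 : |‖z₂ + (r : ℂ) - z₂‖ - r| < δ := by
      rw [add_sub_cancel_left, Complex.norm_real, Real.norm_eq_abs, abs_of_pos hr0, sub_self, abs_zero]
      exact hδ
    filter_upwards [h5.eventually_lt_const h6] with z hz
    exact key z hz.le
  exact (hev.filter_mono nhdsWithin_le_nhds).frequently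

end Pool.Agent.G4.A

end
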