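import Pool.Agent.H94.G4T.G4.A.LOC
import Pool.Agent.H94.G4T.M152

/-! The parts of this file: G4.A.LOC_1, G4.A.Fin. -/

section

/-!
# G4 A LOC: two curves over the same line which are close on a large disc are equal

`ε₁ ≤ ε₀` of `hp_rigid` for the constants `δ` (the closeness on `Gd D δ` passes to limits at the points over `Gd D (2 δ)`).  If it is false: `f n ≠ g n` close on discs of radius `n` (centre `0` after
recentring).  Let `R n` be the supremum of the radii `R` such that `dist ≤ ε₁` on the part of `ball 0 R` over `Gd D δ`; it is finite (`hp_rigid`).  There is `z n`, `R n ≤ ‖z n‖ ≤ R n + 1 / n`, over `Gd D δ` with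
`dist > ε₁`.  Recentre at `z n`, move by `Λ`, limits `f`, `g` over `y₀` (`hc_closed`), `y₀ ∈ Gd D δ` (closed): `dist (f 0) (g 0) ≥ ε₁`, and `dist (f z) (g z) ≤ ε₁` for `z` in a half plane
`{Re (conj ω z) < 0}`, `y₀ + z a ∈ Co` (`Gd D (2 δ)`, so `y n + z a ∈ Gd D δ` eventually).  `hp_rigid`: `f = g`.  Contradiction.
-/

set_option autoImplicit false

open Topology Filter Metric

namespace Pool.Agent.G4.A

open Pool.Agent.H36.BP (EN fs wd)
open Pool.Agent.H14.PP (IsCone CurveAt Tan)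
open Pool.Agent.H62.EF (MN pr)
open Pool.Agent.AD (Vd Chart Charts IsGerm)
open Pool.Agent.TG
open Pool.Agent.G3
open Pool.Agent.G3.A
open Pool.Agent.G3.C (Gc HP)

variable {N k : ℕ} {X : Set (EN N)} {Λ : AddSubgroup (Vd (k + 1))} {u : EN N → Vd (k + 1)} {D B Bad : Set (Vd (k + 1))} {a : Vd (k + 1)}

variable {Γ : AddSubgroup (Vd (k + 1))} {J rW : ℕ} {W : Fin rW → Vd (k + 1) →L[ℂ] ℂ} {α : Fin J → VForm X Λ u} {c₀ C₀ ρ δ : ℝ}

theorem loc_rigid (S : DA X Λ u D B Bad a Γ W α c₀ C₀ ρ δ) : ∃ R₁ ε₁ : ℝ, 0 < R₁ ∧ 0 < ε₁ ∧ ∀ y : Vd (k + 1), ∀ f ∈ Hc X Λ u a y, ∀ g ∈ Hc X Λ u a y, ∀ z₀ : ℂ,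
    (∀ z ∈ closedBall z₀ R₁, y + z • a ∈ Gd D δ → dist (f z) (g z) ≤ ε₁) → f = g := by
  obtain ⟨ε₁, hε₁, hrig⟩ := hp_rigid S
  have hδ := S.lc.δ_pos
  by_contra hcon
  push Not at hcon
  -- the maximal discs
  have hcon' : ∀ n : ℕ, ∃ y : Vd (k + 1), ∃ f ∈ Hc X Λ u a y, ∃ g ∈ Hc X Λ u a y, ∃ (z₁ c : ℂ) (R : ℝ), (n : ℝ) + 1 ≤ R ∧
      ‖z₁ - c‖ ≤ R + 1 / ((n : ℝ) + 1) ∧ (∀ z ∈ ball c R, y + z • a ∈ Gd D δ → dist (f z) (g z) ≤ ε₁) ∧ y + z₁ • a ∈ Gd D δ ∧ ε₁ < dist (f z₁) (g z₁) := by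
    intro n
    obtain ⟨y, f, hf, g, hg, z₀, h1, hfg⟩ := hcon ((n : ℝ) + 1) ε₁ (by positivity) hε₁
    obtain ⟨T, hT⟩ : ∃ T : Set ℝ, T = {R : ℝ | ∀ z ∈ closedBall z₀ R, y + z • a ∈ Gd D δ → dist (f z) (g z) ≤ ε₁} := ⟨_, rfl⟩
    have hnT : (n : ℝ) + 1 ∈ T := by
      rw [hT]
      exact h1
    have hTb : BddAbove T := by
      by_contra hb
      refine hfg (hrig y f hf g hg 1 0 norm_one fun z _ hzC => ?_)
      rw [not_bddAbove_iff] at hb
      obtain ⟨R, hRT, hR⟩ := hb (dist z z₀)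
      rw [hT] at hRT
      exact hRT z (mem_closedBall.2 hR.le) (gd_mono (by linarith) hzC)
    have hpos : 0 < 1 / ((n : ℝ) + 1) := by positivity
    have hnot : sSup T + 1 / ((n : ℝ) + 1) ∉ T := fun h => by
      have := le_csSup hTb h
      linarith
    rw [hT] at hnot
    simp only [Set.mem_ofPred_eq] at hnot
    push Not at hnot
    obtain ⟨z₁, hz₁, hz₁G, hz₁d⟩ := hnot
    rw [← hT] at hz₁
    refine ⟨y, f, hf, g, hg, z₁, z₀, sSup T, le_csSup hTb hnT, ?_, fun z hz hzG => ?_, hz₁G, hz₁d⟩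
    · rwa [mem_closedBall, dist_eq_norm] at hz₁
    · obtain ⟨R, hRT, hR⟩ := exists_lt_of_lt_csSup ⟨_, hnT⟩ (mem_ball.1 hz)
      rw [hT] at hRT
      exact hRT z (mem_closedBall.2 hR.le) hzG
  choose y f hf g hg z₁ c R hR h2 h3 h4 h5 using hcon'
  obtain ⟨Q, hQ, hcpt⟩ := S.lg.lat.cpt
  choose l hl hyl using fun n => hcpt (y n + z₁ n • a)
  have hgd : ∀ (n : ℕ) (z : ℂ), y n + z₁ n • a - l n + z • a ∈ Gd D δ → y n + (z₁ n + z) • a ∈ Gd D δ := by
    intro n z hz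
    have h6 := (S.geo.gd_add δ (hl n)).2 hz
    have e : y n + z₁ n • a - l n + z • a + l n = y n + (z₁ n + z) • a := by
      rw [add_smul]
      abel
    rwa [e] at h6
  have hHc : ∀ (n : ℕ) (F : ℂ → MN N), F ∈ Hc X Λ u a (y n) → (fun z => F (z₁ n + z)) ∈ Hc X Λ u a (y n + z₁ n • a - l n) := by
    intro n F hF
    have h6 := hc_add hF (z₁ n)
    have h7 := hc_per (X := X) (u := u) (a := a) (y := y n + z₁ n • a) (Λ.neg_mem (hl n))
    rw [← sub_eq_add_neg] at h7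
    rw [h7]
    exact h6
  refine loc_core S hε₁ hrig (y := fun n => y n + z₁ n • a - l n) (f := fun n z => f n (z₁ n + z)) (g := fun n z => g n (z₁ n + z)) (c := fun n => c n - z₁ n) (R := R)
    (e := fun n : ℕ => 1 / ((n : ℝ) + 1)) (Q := Q) hyl (fun n => hHc n _ (hf n)) (fun n => hHc n _ (hg n)) ?_ tendsto_one_div_add_atTop_nhds_zero_nat ?_ ?_ ?_ ?_
  · refine tendsto_atTop_mono (fun n => ?_) tendsto_natCast_atTop_atTop
    linarith [hR n]
  · intro n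
    rw [norm_sub_rev]
    exact h2 n
  · intro n z hz hzG
    refine h3 n _ ?_ (hgd n z hzG)
    rw [mem_ball, dist_eq_norm] at hz ⊢
    have e : z₁ n + z - c n = z - (c n - z₁ n) := by ring
    rwa [e]
  · intro n
    have h6 := (S.geo.gd_add δ (Λ.neg_mem (hl n))).2 (h4 n)
    rwa [← sub_eq_add_neg] at h6
  · intro n
    simp only [add_zero]
    exact h5 n

end Pool.Agent.G4.A

end

section

/-!
# G4 A Fin: over every line there are finitely many curves, and their number is upper semicontinuous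

`lm_sep`: if `f n ≠ g n` over `y n → y₀` converge to `h`, `h'`, then `h ≠ h'` (otherwise they are close on `closedBall 0 R₁` over `Gd D δ` for most `n`: `Lm.unif`; the set `{z ∈ closedBall 0 R₁ | y₀ + z a ∈ Gd D (δ/2)}`
is compact; `loc_rigid`).  `hc_finite`: an infinite set of curves over `y` contains an injective sequence; `hc_closed` on `ℕ × ℕ` or a Cauchy argument: two different members close to the limit.
`ncard_usc`: `m` different curves over `y n`, limits are different (`lm_sep`, `hc_closed`).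
-/

set_option autoImplicit false

open Topology Filter Metric

namespace Pool.Agent.G4.A

open Pool.Agent.H36.BP (EN fs wd)
open Pool.Agent.H14.PP (IsCone CurveAt Tan)
open Pool.Agent.H62.EF (MN pr)
open Pool.Agent.AD (Vd Chart Charts IsGerm)
open Pool.Agent.TG
open Pool.Agent.G3
open Pool.Agent.G3.A
open Pool.Agent.G3.C (Gc HP)

variable {N k : ℕ} {X : Set (EN N)} {Λ : AddSubgroup (Vd (k + 1))} {u : EN N → Vd (k + 1)} {D B Bad : Set (Vd (k + 1))} {a : Vd (k + 1)}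

variable {Γ : AddSubgroup (Vd (k + 1))} {J rW : ℕ} {W : Fin rW → Vd (k + 1) →L[ℂ] ℂ} {α : Fin J → VForm X Λ u} {c₀ C₀ ρ δ : ℝ}

theorem lm_sep (S : DA X Λ u D B Bad a Γ W α c₀ C₀ ρ δ) {ι : Type*} {𝒰 : Ultrafilter ι} {y : ι → Vd (k + 1)} {y₀ : Vd (k + 1)} (hy : Tendsto y 𝒰 (𝓝 y₀)) {f g : ι → ℂ → MN N} {h : ℂ → MN N}
    (hf : ∀ᶠ n in (𝒰 : Filter ι), f n ∈ Hc X Λ u a (y n)) (hg : ∀ᶠ n in (𝒰 : Filter ι), g n ∈ Hc X Λ u a (y n)) (hh : h ∈ Hc X Λ u a y₀)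
    (hfh : Lm D a 𝒰 y₀ f h) (hgh : Lm D a 𝒰 y₀ g h) : ∀ᶠ n in (𝒰 : Filter ι), f n = g n := by
  obtain ⟨R₁, ε₁, hR₁, hε₁, hrig⟩ := loc_rigid S
  have hδ := S.lc.δ_pos
  have hcont : Continuous h := hc_cont S.geo.cone hh
  have hlin : Continuous fun z : ℂ => y₀ + z • a := by fun_prop
  have hK : IsCompact (closedBall (0 : ℂ) R₁ ∩ (fun z : ℂ => y₀ + z • a) ⁻¹' Gd D (δ / 2)) :=
    (isCompact_closedBall 0 R₁).inter_right ((gd_closed D (δ / 2)).preimage hlin)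
  have hKD : ∀ z ∈ closedBall (0 : ℂ) R₁ ∩ (fun z : ℂ => y₀ + z • a) ⁻¹' Gd D (δ / 2), y₀ + z • a ∉ D :=
    fun z hz => gd_notMem (by linarith) hz.2
  have hyn : ∀ᶠ n in (𝒰 : Filter ι), ‖y n - y₀‖ ≤ δ / 2 := by
    filter_upwards [hy.eventually (ball_mem_nhds y₀ (half_pos hδ))] with n hn
    rw [← dist_eq_norm]
    exact (mem_ball.1 hn).le
  filter_upwards [hf, hg, hyn, hfh.unif4 hcont hK hKD (half_pos hε₁), hgh.unif4 hcont hK hKD (half_pos hε₁)] with n a1 a2 a3 a4 a5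
  refine hrig (y n) (f n) a1 (g n) a2 0 fun z hz hzG => ?_
  have h5 : ‖y₀ + z • a - (y n + z • a)‖ ≤ δ / 2 := by
    rw [add_sub_add_right_eq_sub, norm_sub_rev]
    exact a3
  have h6 := gd_near hzG h5
  have h7 : δ - δ / 2 = δ / 2 := by ring
  rw [h7] at h6
  have h8 := a4 z ⟨hz, h6⟩
  have h9 := a5 z ⟨hz, h6⟩
  have h10 := dist_triangle_right (f n z) (g n z) (h z)
  linarith

private theorem lm_const {ι : Type*} {l : Filter ι} {y₀ : Vd (k + 1)} {g : ℂ → MN N} (hg : Continuous g) : Lm D a l y₀ (fun _ => g) g :=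
  fun z _ _ hw => (hg.tendsto z).comp hw

theorem hc_finite (S : DA X Λ u D B Bad a Γ W α c₀ C₀ ρ δ) (y : Vd (k + 1)) : (Hc X Λ u a y).Finite := by
  by_contra hcon
  have hinf : (Hc X Λ u a y).Infinite := hcon
  obtain ⟨φ, hφ⟩ : ∃ φ : ℕ → Hc X Λ u a y, Function.Injective φ := ⟨hinf.natEmbedding, (hinf.natEmbedding).injective⟩
  have hfm : ∀ n, (φ n : ℂ → MN N) ∈ Hc X Λ u a y := fun n => (φ n).2
  obtain ⟨g, hg, hlm⟩ := hc_closed S.geo S.lg S.nl (𝒰 := hyperfilter ℕ) (y := fun _ : ℕ => y) tendsto_const_nhds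
    (f := fun n => (φ n : ℂ → MN N)) (Eventually.of_forall hfm)
  have h1 := lm_sep S (𝒰 := hyperfilter ℕ) (y := fun _ : ℕ => y) tendsto_const_nhds
    (f := fun n => (φ n : ℂ → MN N)) (g := fun _ => g) (Eventually.of_forall hfm) (Eventually.of_forall fun _ => hg) hg hlm
    (lm_const (hc_cont S.geo.cone hg))
  have h2 : {n : ℕ | (φ n : ℂ → MN N) = g}.Finite := by
    refine Set.Subsingleton.finite fun i hi j hj => ?_
    refine hφ (Subtype.ext ?_)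
    exact (show (φ i : ℂ → MN N) = g from hi).trans (show (φ j : ℂ → MN N) = g from hj).symm
  exact notMem_hyperfilter_of_finite h2 h1

theorem ncard_usc (S : DA X Λ u D B Bad a Γ W α c₀ C₀ ρ δ) (y₀ : Vd (k + 1)) : ∀ᶠ y in 𝓝 y₀, (Hc X Λ u a y).ncard ≤ (Hc X Λ u a y₀).ncard := by
  classical
  by_contra hcon
  rw [Filter.not_eventually] at hcon
  obtain ⟨m, hm⟩ : ∃ m, m = (Hc X Λ u a y₀).ncard := ⟨_, rfl⟩
  rw [← hm] at hcon
  have hne : (𝓝 y₀ ⊓ 𝓟 {y | ¬ (Hc X Λ u a y).ncard ≤ m}).NeBot := frequently_mem_iff_neBot.1 hcon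
  obtain ⟨𝒰, h𝒰⟩ : ∃ 𝒰 : Ultrafilter (Vd (k + 1)), (𝒰 : Filter (Vd (k + 1))) ≤ 𝓝 y₀ ⊓ 𝓟 {y | ¬ (Hc X Λ u a y).ncard ≤ m} :=
    ⟨Ultrafilter.of _, Ultrafilter.of_le _⟩
  have hy : Tendsto (fun y : Vd (k + 1) => y) (𝒰 : Filter (Vd (k + 1))) (𝓝 y₀) := h𝒰.trans inf_le_left
  have hbig : ∀ᶠ y in (𝒰 : Filter (Vd (k + 1))), ¬ (Hc X Λ u a y).ncard ≤ m := le_principal_iff.1 (h𝒰.trans inf_le_right)
  have hex : ∀ y : Vd (k + 1), ∃ F : Fin (m + 1) → ℂ → MN N, ¬ (Hc X Λ u a y).ncard ≤ m → Function.Injective F ∧ ∀ i, F i ∈ Hc X Λ u a y := by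
    intro y
    by_cases hy : (Hc X Λ u a y).ncard ≤ m
    · exact ⟨fun _ _ => pr 0, fun h => absurd hy h⟩
    · push Not at hy
      obtain ⟨T, hT, hTc⟩ := Set.exists_subset_card_eq (s := Hc X Λ u a y) (n := m + 1) hy
      have hTf : T.Finite := (hc_finite S y).subset hT
      have : Fintype T := hTf.fintype
      have hcard : Fintype.card T = m + 1 := by
        rw [← Nat.card_eq_fintype_card, Nat.card_coe_set_eq, hTc]
      obtain ⟨e⟩ : Nonempty (Fin (m + 1) ≃ T) := ⟨(Fintype.equivFinOfCardEq hcard).symm⟩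
      exact ⟨fun i => (e i : ℂ → MN N), fun _ => ⟨fun i j hij => e.injective (Subtype.ext hij), fun i => hT (e i).2⟩⟩
  choose F hF using hex
  have hFm : ∀ i, ∀ᶠ y in (𝒰 : Filter (Vd (k + 1))), F y i ∈ Hc X Λ u a y := fun i => by
    filter_upwards [hbig] with y hy
    exact (hF y hy).2 i
  choose g hg hlm using fun i => hc_closed S.geo S.lg S.nl (𝒰 := 𝒰) (y := fun y => y) hy (f := fun y => F y i) (hFm i)
  have hginj : Function.Injective g := by
    intro i j hij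
    by_contra hne
    have h1 := hlm i
    rw [hij] at h1
    have h2 := lm_sep S hy (hFm i) (hFm j) (hg j) h1 (hlm j)
    obtain ⟨y, hy1, hy2⟩ := (h2.and hbig).exists
    exact hne ((hF y hy2).1 hy1)
  have h3 : (Set.range g).ncard ≤ (Hc X Λ u a y₀).ncard :=
    Set.ncard_le_ncard (by rintro _ ⟨i, rfl⟩; exact hg i) (hc_finite S y₀)
  rw [Set.ncard_range_of_injective hginj, Nat.card_eq_fintype_card, Fintype.card_fin, ← hm] at h3
  omega

end Pool.Agent.G4.A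

end
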