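import Pool.Agent.H94.G4T.G4.R.CmD
import Pool.Agent.H94.G4T.M134
import Pool.Agent.H94.G4T.M135
import Pool.Agent.H94.G4T.M152

/-! The parts of this file: G4.R.Step, G4.R.HolL. -/

section

/-!
# G4 R Step: all divided differences of the sheets are bounded

`ddb_zero`: order `0`.  `ddb_step`: let `DDb j` hold for `j ≤ m` and fail for `m + 1`.  For every `n` there are nodes `σ n` of size `≤ 1 / (n + 1)` and `Nb n ≥ n`, a bound of the divided differences over the core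
which is nearly attained at `y n`, `φ n`, in the chart `nv (v n)` (`step_seq`); along an ultrafilter `φ n = φ₀`, `y n → y₀`, `v n → v₀` (`step_lim`).  By (Z) (`cmb_null`) for the combination of the divided differences
(`cmb_dd`, `dd_bd4`): the divided difference at `y n` in the chart `nv v₀`, divided by `Nb n`, tends to `0`; change of the chart: `Nb n / 2 ≤ K (o (Nb n) + 1)`, contradiction.
-/

set_option autoImplicit false

open Topology Filter Metric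

namespace Pool.Agent.G4.R

open Pool.Agent.H36.BP (EN fs wd)
open Pool.Agent.H14.PP (IsCone CurveAt Tan)
open Pool.Agent.H62.EF (MN pr pr_smul)
open Pool.Agent.AD (Vd Chart Charts IsGerm)
open Pool.Agent.TG
open Pool.Agent.G3
open Pool.Agent.G3.A (Ba Hc Dec Sepa Tht Frm NL Lm CRL Tb ToE CE Sht)
open Pool.Agent.G3.R (Prm Shs DDb nv_near dd dw dd_congr Nod dd_zero dd_nv inner_near)
open Pool.Agent.G3.C (Gc nv nd nv_pr)
open Pool.Agent.G4.A

variable {N k : ℕ} {X : Set (EN N)} {Λ : AddSubgroup (Vd (k + 1))} {u : EN N → Vd (k + 1)} {D B Bad : Set (Vd (k + 1))} {a b w : Vd (k + 1)} {E : Submodule ℝ (Vd (k + 1))}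
  {Γ : AddSubgroup (Vd (k + 1))} {J rW : ℕ} {W : Fin rW → Vd (k + 1) →L[ℂ] ℂ} {SS : Set (Vd (k + 1) → MN N)} {α : Fin J → VForm X Λ u} {c₀ C₀ ρ δ : ℝ}

theorem ddb_zero (S : DA X Λ u D B Bad a Γ W α c₀ C₀ ρ δ) (hS : Shs X Λ u D a b E SS) (hw : w ∈ E) : DDb D (Tb b E) SS w 0 := ddb_zero' S hS hw

theorem ddb_step (S : DA X Λ u D B Bad a Γ W α c₀ C₀ ρ δ) (hS : Shs X Λ u D a b E SS) (hw : w ∈ E) {m : ℕ} (hm : ∀ j ≤ m, DDb D (Tb b E) SS w j) : DDb D (Tb b E) SS w (m + 1) := by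
  by_contra hno
  obtain ⟨R, hseq⟩ := step_seq S hS hw hm hno
  choose σ Nb φ y v hσ hNb hNb1 hcore hφ hyT hyC hyR hv hvφ hbig using hseq
  have hδ := S.lc.δ_pos
  have hX := S.geo.cone
  have hL := S.lg
  set 𝒰 : Ultrafilter ℕ := hyperfilter ℕ with h𝒰d
  have h𝒰 : (𝒰 : Filter ℕ) ≤ atTop := by
    rw [← Nat.cofinite_eq_atTop]
    exact hyperfilter_le_cofinite
  obtain ⟨φ₀, y₀, v₀, hφ₀, hev, hyt, hy₀T, hy₀C, hvt, hv₀, hv₀φ⟩ := step_lim S hS 𝒰 hφ hyT hyC hyR hv hvφ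
  have hy₀D : y₀ ∉ D := gd_notMem (by linarith) hy₀C
  have hrn : Tendsto (fun n : ℕ => 1 / ((n : ℝ) + 1)) 𝒰 (𝓝 0) := tendsto_one_div_add_atTop_nhds_zero_nat.mono_left h𝒰
  have hnat : Tendsto (fun n : ℕ => (n : ℝ)) (𝒰 : Filter ℕ) atTop := tendsto_natCast_atTop_atTop.mono_left h𝒰
  have hNbt : Tendsto Nb (𝒰 : Filter ℕ) atTop := tendsto_atTop_mono hNb hnat
  have hgd : Dbd D (Tb b E) w 𝒰 m φ₀ σ Nb := by
    intro δ' hδ'
    obtain ⟨r, K, hr, hK, h1⟩ := core_to_gd S hS hw hm hδ'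
    refine ⟨K, hK, ?_⟩
    filter_upwards [hrn.eventually_lt_const hr] with n hn y' hy' hyD' v' hv' hvφ'
    exact h1 (σ n) (Nb n) ((hσ n).mono le_rfl hn.le) (hNb1 n) (hcore n) φ₀ hφ₀ y' hy' hyD' v' hv' hvφ'
  have hC := cmb_dd S hS hw hm hφ₀ hσ hrn hNb1 hNbt hgd hyT hyt hy₀T
  have hb := fun δ' hδ' => dd_bd4 (a := a) hX hL hS hw hm hφ₀ hσ hrn hNb1 hgd hyT hyt hy₀T δ' hδ'
  have h1 : Tendsto (fun n => cX (fun n i (_ : ℂ) => cd m σ Nb n i) (fun i n z => φ₀ (yd m y σ w i n + z • a)) v₀ n 0) 𝒰 (𝓝 0) :=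
    cmb_null S hC le_rfl S.c_pos hb (x := 0) (by rwa [zero_smul, add_zero]) hv₀ (by rw [hv₀φ, zero_smul, add_zero]) (w := fun _ => 0) tendsto_const_nhds
  -- the change of the chart
  obtain ⟨r₁, K₁, hr₁, hK₁, h₁⟩ := dd_chg hX hL hS hw hm (δ' := 2 * δ) (κ := 1 / 2) (by positivity) (by norm_num)
  obtain ⟨r₂, C₂, hr₂, hC₂, h₂⟩ := dd_loc hX hL hS hw hm hφ₀ hσ hrn hNb1 hgd (δ' := 2 * δ) (by positivity)
  obtain ⟨r₃, K₃, ε₃, hr₃, hK₃, hε₃, h₃⟩ := dd_nv (N := N) m (κ := 1 / 2) (C := C₂) (by norm_num) hC₂.le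
  obtain ⟨r₄, hr₄, h₄⟩ := hS.unif4 hL (show 0 < 2 * δ by positivity) hε₃
  have hw1 : 0 < ‖w‖ + 1 := by positivity
  have e1 : ∀ᶠ n : ℕ in (𝒰 : Filter ℕ), 1 / ((n : ℝ) + 1) < min r₃ (r₄ / (2 * (‖w‖ + 1))) := hrn.eventually_lt_const (lt_min hr₃ (by positivity))
  have e2 : ∀ᶠ n in (𝒰 : Filter ℕ), dist (y n) y₀ < min r₂ (r₄ / 2) := hyt.eventually (ball_mem_nhds y₀ (lt_min hr₂ (by positivity)))
  have e3 : ∀ᶠ n in (𝒰 : Filter ℕ), 1 / 2 ≤ ‖(inner ℂ (v n) v₀ : ℂ)‖ := by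
    have h5 : Tendsto (fun n => (inner ℂ (v n) v₀ : ℂ)) 𝒰 (𝓝 (inner ℂ v₀ v₀ : ℂ)) := hvt.inner tendsto_const_nhds
    have h6 : ‖(inner ℂ v₀ v₀ : ℂ)‖ = 1 := by
      rw [inner_self_eq_norm_sq_to_K, hv₀]
      simp
    have h7 := h5.norm
    rw [h6] at h7
    exact h7.eventually_const_le (by norm_num)
  have e4 := h1.norm.eventually_lt_const (show ‖(0 : EN N)‖ < 1 / (8 * K₃) by rw [norm_zero]; positivity)
  have e5 := hNbt.eventually_gt_atTop (8 * K₃)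
  obtain ⟨n, h2n, h1n, h2n', h3n, h4n, h5n, hn⟩ := (h₂.and (e1.and (e2.and (e3.and (e4.and (e5.and hev)))))).exists
  rw [dist_eq_norm] at h2n'
  have hlow := (h2n y₀ hy₀T hy₀C v₀ hv₀ hv₀φ (y n) (hyT n) (h2n'.le.trans (min_le_left _ _))).1
  have hNpos : 0 < Nb n := lt_of_lt_of_le one_pos (hNb1 n)
  have h6 := (h₃ (v n) v₀ (hv n) hv₀ h3n (σ n) (fun s : ℝ => φ₀ (y n + (s : ℂ) • w)) ((hσ n).mono le_rfl (h1n.le.trans (min_le_left _ _))) (fun i hi => ?_) hlow).2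
  · rw [cX_dd, norm_smul, norm_inv, Complex.norm_real, Real.norm_of_nonneg hNpos.le, inv_mul_lt_iff₀ hNpos, zero_smul, add_zero] at h4n
    have h7 := hbig n
    rw [hn] at h7
    unfold sz at h7
    have h8 := h7.trans h6
    set d : ℝ := ‖dd (m + 1) (σ n) fun s : ℝ => nv v₀ (φ₀ (y n + (s : ℂ) • w))‖ with hd
    have h9 : K₃ * d ≤ Nb n / 8 := by
      have h10 : K₃ * d ≤ K₃ * (Nb n * (1 / (8 * K₃))) := mul_le_mul_of_nonneg_left h4n.le hK₃.le
      refine h10.trans (le_of_eq ?_)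
      field_simp
    have h10 : Nb n / 2 ≤ K₃ * d + K₃ := by linarith [h8, mul_add K₃ d 1]
    linarith
  · have hyi : y n + ((σ n i : ℝ) : ℂ) • w ∈ Tb b E := tb_add (hyT n) (smul_mem_E hw _)
    obtain ⟨x, hxX, hpx, -⟩ := hS.fb4 hφ₀ hyi
    refine ⟨x, fun h0 => hX.zero_notMem (h0 ▸ hxX), hpx.symm, ?_⟩
    rw [hpx, hv₀φ]
    refine h₄ φ₀ hφ₀ y₀ hy₀T hy₀C _ hyi ?_
    have e : y n + ((σ n i : ℝ) : ℂ) • w - y₀ = (y n - y₀) + ((σ n i : ℝ) : ℂ) • w := by abel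
    rw [e]
    refine (norm_add_le _ _).trans ?_
    have h7 : ‖((σ n i : ℝ) : ℂ) • w‖ ≤ r₄ / 2 := by
      refine (norm_smul_w (((hσ n).le i hi).trans (h1n.le.trans (min_le_right _ _))) w).trans ?_
      rw [div_mul_eq_mul_div, div_le_iff₀ (by positivity)]
      nlinarith [norm_nonneg w]
    have h8 := h2n'.le.trans (min_le_right _ _)
    linarith

theorem ddb (S : DA X Λ u D B Bad a Γ W α c₀ C₀ ρ δ) (hS : Shs X Λ u D a b E SS) (hw : w ∈ E) (m : ℕ) : DDb D (Tb b E) SS w m := by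
  induction m using Nat.strong_induction_on with
  | _ m ih =>
    rcases m with _ | m
    · exact ddb_zero S hS hw
    · exact ddb_step S hS hw fun j hj => ih j (by omega)

end Pool.Agent.G4.R

end

section

/-!
# G4 R HolL: sheets over the whole space are Lipschitz on small balls off `D`

Here `E = ⊤`.  `ddb` for `m = 1` and the real directions `e`, `i e`, `e` a basis vector.
`dist_pr_le`: `dist (pr x) (pr v) ≤ 2 ‖x / ⟨v, x⟩ - v‖`.  `step_lip`: one real direction, from `ddb` for the nodes `0, s`.  `sheet_lip`: change the coordinates one after the other, real part and imaginary part.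
-/

set_option autoImplicit false

open Topology Filter Metric

namespace Pool.Agent.G4.R

open Pool.Agent.H36.BP (EN fs wd)
open Pool.Agent.H14.PP (IsCone CurveAt Tan)
open Pool.Agent.H62.EF (MN pr)
open Pool.Agent.AD (Vd Chart Charts IsGerm)
open Pool.Agent.TG
open Pool.Agent.G3
open Pool.Agent.G3.R
open Pool.Agent.G3.C (Gc HP nv nd nv_pr pr_nv nd_pr_ne)
open Pool.Agent.G3.A (Ba Hc Dec Sepa Tht Frm NL Lm CRL Tb ToE CE Sht)
open Pool.Agent.G4.A

variable {N k : ℕ} {X : Set (EN N)} {Λ : AddSubgroup (Vd (k + 1))} {u : EN N → Vd (k + 1)} {D B Bad : Set (Vd (k + 1))} {a b : Vd (k + 1)}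
  {SS : Set (Vd (k + 1) → MN N)} {Γ : AddSubgroup (Vd (k + 1))} {J rW : ℕ} {W : Fin rW → Vd (k + 1) →L[ℂ] ℂ} {α : Fin J → VForm X Λ u} {c₀ C₀ ρ δ : ℝ}

/-- `pr x` is near `pr v` if `x / ⟨v, x⟩` is near `v` -/
theorem dist_pr_le {v x : EN N} (hv : ‖v‖ = 1) (h : inner ℂ v x ≠ (0 : ℂ)) : dist (pr x) (pr v) ≤ 2 * ‖nv v (pr x) - v‖ := by
  have hv0 : v ≠ 0 := by
    rintro rfl
    rw [norm_zero] at hv
    exact zero_ne_one hv
  set x₁ : EN N := nv v (pr x) with hx₁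
  have h1 : inner ℂ v x₁ = (1 : ℂ) := by
    rw [hx₁, nv_pr h, inner_smul_right, inv_mul_cancel₀ h]
  have hx0 : x₁ ≠ 0 := by
    intro h0
    rw [h0, inner_zero_right] at h1
    exact zero_ne_one h1
  have hp : pr x₁ = pr x := pr_nv h
  have h2 := Pool.Agent.H62.EF.norm_inner_sq hv0 hx0
  rw [h1, hv, norm_one, one_pow, one_mul, hp, dist_comm] at h2
  have h3 : ‖x₁ - v‖ ^ 2 = ‖x₁‖ ^ 2 - 1 := by
    rw [norm_sub_rev, norm_sub_sq (𝕜 := ℂ), h1, hv, RCLike.re_to_complex, Complex.one_re]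
    ring
  set d : ℝ := dist (pr x) (pr v) with hd
  have hd0 : 0 ≤ d := dist_nonneg
  have he0 : 0 ≤ ‖x₁ - v‖ ^ 2 := by positivity
  have h4 : d ^ 2 ≤ (2 * ‖x₁ - v‖) ^ 2 := by
    have h5 : 1 ≤ ‖x₁‖ ^ 2 := by linarith only [h3, he0]
    have h6 : d ^ 2 * ‖x₁‖ ^ 2 = 2 * ‖x₁ - v‖ ^ 2 := by
      rw [h3]
      nlinarith only [h2]
    have h7 : d ^ 2 ≤ d ^ 2 * ‖x₁‖ ^ 2 := le_mul_of_one_le_right (by positivity) h5
    nlinarith only [h3, h2, h7]
  exact le_of_sq_le_sq h4 (by positivity)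

theorem mem_tb_top (b y : Vd (k + 1)) : y ∈ Tb b (⊤ : Submodule ℝ (Vd (k + 1))) := (Submodule.mem_top : y - b ∈ (⊤ : Submodule ℝ (Vd (k + 1))))

/-- one real direction -/
theorem step_lip (S : DA X Λ u D B Bad a Γ W α c₀ C₀ ρ δ) (hS : Shs X Λ u D a b ⊤ SS) {δ' : ℝ} (hδ' : 0 < δ') (w : Vd (k + 1)) : ∃ r C : ℝ, 0 < r ∧ 0 < C ∧
    ∀ φ ∈ SS, ∀ y ∈ Gd D δ', ∀ s : ℝ, |s| ≤ r → dist (φ (y + (s : ℂ) • w)) (φ y) ≤ C * |s| := by
  obtain ⟨r, C, hr, hC, h⟩ := ddb S hS (w := w) Submodule.mem_top 1 δ' hδ'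
  have hC1 : 0 < C + 1 := by linarith
  refine ⟨min r (1 / (2 * (C + 1))), 2 * (C + 1), lt_min hr (by positivity), by positivity, ?_⟩
  intro φ hφ y hy s hs
  rcases eq_or_ne s 0 with rfl | hs0
  · simp
  obtain ⟨x, hx, hxm, -⟩ := hS.fb4 hφ (mem_tb_top b y)
  obtain ⟨c, hc, -, hcs⟩ := Pool.Agent.TG.exists_unit S.geo.cone hx
  have hv : ‖c • x‖ = 1 := mem_sphere_zero_iff_norm.1 hcs
  have hprv : pr (c • x) = φ y := by rw [Pool.Agent.H62.EF.pr_smul x hc, hxm]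
  generalize c • x = v at hv hprv
  set σ : ℕ → ℝ := fun i => if i = 0 then 0 else s with hσd
  have hσ0 : σ 0 = 0 := by simp [hσd]
  have hσ1 : σ 1 = s := by simp [hσd]
  have hσ : Nod (0 + 1) σ r := by
    refine ⟨fun i hi j hj hij => ?_, fun i hi => ?_⟩
    · interval_cases i <;> interval_cases j <;> first | rfl | (rw [hσ0, hσ1] at hij; exact absurd hij (Ne.symm hs0)) | (rw [hσ0, hσ1] at hij; exact absurd hij hs0)
    · interval_cases i
      · rw [hσ0, abs_zero]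
        exact hr.le
      · rw [hσ1]
        exact hs.trans (min_le_left _ _)
  have h1 : ‖dd (0 + 1) σ fun s : ℝ => nv v (φ (y + (s : ℂ) • w))‖ ≤ C := h φ hφ y (mem_tb_top b y) hy v hv hprv σ hσ
  have h2 : ‖nv v (φ (y + (s : ℂ) • w)) - v‖ ≤ C * |s| := by
    rw [dd_succ hσ, dd_zero, dd_zero, norm_smul] at h1
    simp only [zero_add, hσ0, hσ1, sub_zero, Complex.ofReal_zero, zero_smul, add_zero] at h1
    rw [← hprv, nv_self hv, Complex.norm_real, norm_inv, Real.norm_eq_abs, inv_mul_le_iff₀ (abs_pos.2 hs0)] at h1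
    rwa [mul_comm] at h1
  have h3 : C * |s| ≤ 1 / 2 := by
    have h4 : |s| ≤ 1 / (2 * (C + 1)) := hs.trans (min_le_right _ _)
    rw [le_div_iff₀ (by positivity)] at h4
    nlinarith only [h4, abs_nonneg s]
  obtain ⟨x', hx', hxm', -⟩ := hS.fb4 hφ (mem_tb_top b (y + (s : ℂ) • w))
  have hx0 : x' ≠ 0 := ne_zero S.geo.cone hx'
  have h5 : inner ℂ v x' ≠ (0 : ℂ) := by
    intro h6
    have h7 : nd v (pr x') = 0 := by
      by_contra h8
      exact (nd_pr_ne hx0).1 h8 h6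
    have h9 : nv v (pr x') = 0 := by
      have h10 : nv v (pr x') = (nd v (pr x'))⁻¹ • WithLp.toLp 2 fun i => ∑ j, pr x' (i, j) * v j := rfl
      rw [h10, h7, inv_zero, zero_smul]
    rw [← hxm', h9, zero_sub, norm_neg, hv] at h2
    linarith
  have h11 := dist_pr_le hv h5
  rw [hxm', hprv] at h11
  refine h11.trans ?_
  have h12 : 0 ≤ |s| := abs_nonneg s
  nlinarith only [h2, h12]

theorem sheet_lip (S : DA X Λ u D B Bad a Γ W α c₀ C₀ ρ δ) (hS : Shs X Λ u D a b ⊤ SS) {δ' : ℝ} (hδ' : 0 < δ') : ∃ r C : ℝ, 0 < r ∧ 0 < C ∧ ∀ φ ∈ SS, ∀ y ∈ Gd D δ', ∀ y', ‖y' - y‖ ≤ r →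
    dist (φ y') (φ y) ≤ C * ‖y' - y‖ := by
  have key : ∀ s : Finset (Fin (k + 1)), ∃ r C : ℝ, 0 < r ∧ 0 < C ∧ ∀ φ ∈ SS, ∀ y ∈ Gd D δ', ∀ h : Vd (k + 1), ‖h‖ ≤ r →
      dist (φ (y + fun i => if i ∈ s then h i else 0)) (φ y) ≤ C * ‖h‖ := by
    intro s
    induction s using Finset.induction_on with
    | empty =>
      refine ⟨1, 1, one_pos, one_pos, fun φ _ y _ h _ => ?_⟩
      have e : (y + fun i => if i ∈ (∅ : Finset (Fin (k + 1))) then h i else 0) = y := by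
        funext i
        simp
      rw [e, dist_self, one_mul]
      exact norm_nonneg _
    | insert i s his ih =>
      obtain ⟨r₀, K₀, hr₀, hK₀, h₀⟩ := ih
      obtain ⟨r₁, K₁, hr₁, hK₁, h₁⟩ := step_lip S hS (half_pos hδ') (Pi.single i 1)
      obtain ⟨r₂, K₂, hr₂, hK₂, h₂⟩ := step_lip S hS (half_pos hδ') (Pi.single i Complex.I)
      refine ⟨min (min r₀ r₁) (min r₂ (δ' / 4)), K₀ + K₁ + K₂, lt_min (lt_min hr₀ hr₁) (lt_min hr₂ (by positivity)), by positivity, ?_⟩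
      intro φ hφ y hy h hh
      have hh0 : ‖h‖ ≤ r₀ := hh.trans ((min_le_left _ _).trans (min_le_left _ _))
      have hh1 : ‖h‖ ≤ r₁ := hh.trans ((min_le_left _ _).trans (min_le_right _ _))
      have hh2 : ‖h‖ ≤ r₂ := hh.trans ((min_le_right _ _).trans (min_le_left _ _))
      have hh3 : ‖h‖ ≤ δ' / 4 := hh.trans ((min_le_right _ _).trans (min_le_right _ _))
      have a0 := h₀ φ hφ y hy h hh0
      set g : Vd (k + 1) := fun j => if j ∈ s then h j else 0 with hg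
      have hgn : ‖g‖ ≤ ‖h‖ := by
        refine (pi_norm_le_iff_of_nonneg (norm_nonneg _)).2 fun j => ?_
        rw [hg]
        dsimp only
        split_ifs
        · exact norm_le_pi_norm h j
        · rw [norm_zero]
          exact norm_nonneg _
      have hre : |(h i).re| ≤ ‖h‖ := (Complex.abs_re_le_norm _).trans (norm_le_pi_norm h i)
      have him : |(h i).im| ≤ ‖h‖ := (Complex.abs_im_le_norm _).trans (norm_le_pi_norm h i)
      have hy1 : y + g ∈ Gd D (δ' / 2) := by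
        refine gd_mono (δ₂ := δ' - ‖h‖) (by linarith only [hδ', hh3]) (gd_near hy ?_)
        rw [add_sub_cancel_left]
        exact hgn
      have hy2 : y + g + ((h i).re : ℂ) • (Pi.single i 1 : Vd (k + 1)) ∈ Gd D (δ' / 2) := by
        refine gd_mono (δ₂ := δ' - (‖h‖ + ‖h‖)) (by linarith) (gd_near hy ?_)
        rw [add_assoc, add_sub_cancel_left]
        refine (norm_add_le _ _).trans (add_le_add hgn ?_)
        rw [norm_smul, Complex.norm_real, Real.norm_eq_abs]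
        refine (mul_le_of_le_one_right (abs_nonneg _) ?_).trans hre
        rw [Pi.norm_single, norm_one]
      have a1 := h₁ φ hφ _ hy1 _ (hre.trans hh1)
      have a2 := h₂ φ hφ _ hy2 _ (him.trans hh2)
      have e : (y + fun j => if j ∈ insert i s then h j else 0) =
          y + g + ((h i).re : ℂ) • (Pi.single i 1 : Vd (k + 1)) + ((h i).im : ℂ) • (Pi.single i Complex.I : Vd (k + 1)) := by
        funext j
        rcases eq_or_ne j i with rfl | hji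
        · simp only [Pi.add_apply, Finset.mem_insert_self, if_true, hg, his, if_false, Pi.smul_apply, Pi.single_eq_same, smul_eq_mul, mul_one, add_zero]
          rw [add_assoc, Complex.re_add_im]
        · simp [hg, hji]
      rw [e]
      calc dist (φ (y + g + ((h i).re : ℂ) • (Pi.single i 1 : Vd (k + 1)) + ((h i).im : ℂ) • (Pi.single i Complex.I : Vd (k + 1)))) (φ y)
          ≤ dist (φ (y + g + ((h i).re : ℂ) • (Pi.single i 1 : Vd (k + 1)) + ((h i).im : ℂ) • (Pi.single i Complex.I : Vd (k + 1)))) (φ (y + g + ((h i).re : ℂ) • (Pi.single i 1 : Vd (k + 1)))) +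
              dist (φ (y + g + ((h i).re : ℂ) • (Pi.single i 1 : Vd (k + 1)))) (φ (y + g)) + dist (φ (y + g)) (φ y) := dist_triangle4 _ _ _ _
        _ ≤ K₂ * ‖h‖ + K₁ * ‖h‖ + K₀ * ‖h‖ :=
            add_le_add (add_le_add (a2.trans (mul_le_mul_of_nonneg_left him hK₂.le)) (a1.trans (mul_le_mul_of_nonneg_left hre hK₁.le))) a0
        _ = (K₀ + K₁ + K₂) * ‖h‖ := by ring
  obtain ⟨r, C, hr, hC, h⟩ := key Finset.univ
  refine ⟨r, C, hr, hC, fun φ hφ y hy y' hy' => ?_⟩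
  have h1 := h φ hφ y hy (y' - y) hy'
  have e : (y + fun i => if i ∈ (Finset.univ : Finset (Fin (k + 1))) then (y' - y) i else 0) = y' := by
    funext i
    simp
  rwa [e] at h1

end Pool.Agent.G4.R

end
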