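import Pool.Agent.H94.G4T.G4.R.SmoT
import Pool.Agent.H94.G4T.M145
import Pool.Agent.H94.G4T.M149
import Pool.Agent.H94.G4T.M154
import Pool.Agent.H94.G4T.M157
import Pool.Agent.H94.G4T.M70

/-! The parts of this file: G4.R.ShtF_1, G4.A.TDt. -/

section

/-!
# G4 R ShtF: basic facts on a finite set of sheets

`exists_shs`: from `sht_finite`, `sht_add`.  `Shs.unif`: uniform continuity on `T ∩ Gd D δ`, `T = Tb b E` (closed: finite dimension; compactness of the bounded part, finitely many sheets, `cpt`, `tr`).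
`Shs.lm`: the curves `φ (y n + z a)` converge.  `Shs.red`: translation of a point of `T` to a bounded point.
-/

set_option autoImplicit false

open Topology Filter Metric

namespace Pool.Agent.G4.R

open Pool.Agent.H36.BP (EN fs wd)
open Pool.Agent.H14.PP (IsCone CurveAt Tan)
open Pool.Agent.H62.EF (MN pr)
open Pool.Agent.AD (Vd Chart Charts IsGerm)
open Pool.Agent.TG
open Pool.Agent.G3
open Pool.Agent.G3.R
open Pool.Agent.G3.C (Gc HP nv nd nv_pr)
open Pool.Agent.G3.A (Ba Hc Dec Sepa Tht Frm NL Lm CRL Tb ToE CE Sht)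
open Pool.Agent.G4.A

variable {N k : ℕ} {X : Set (EN N)} {Λ : AddSubgroup (Vd (k + 1))} {u : EN N → Vd (k + 1)} {D B Bad : Set (Vd (k + 1))} {a b w : Vd (k + 1)} {E : Submodule ℝ (Vd (k + 1))}
  {SS : Set (Vd (k + 1) → MN N)} {Γ : AddSubgroup (Vd (k + 1))} {J rW : ℕ} {W : Fin rW → Vd (k + 1) →L[ℂ] ℂ} {α : Fin J → VForm X Λ u} {c₀ C₀ ρ δ : ℝ}

theorem exists_shs (S : DA X Λ u D B Bad a Γ W α c₀ C₀ ρ δ) (hE : CE X Λ u a b E) : ∃ SS : Set (Vd (k + 1) → MN N), Shs X Λ u D a b E SS ∧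
    ∀ ψ, Sht X Λ u D a (Tb b E) ψ → ∃ φ ∈ SS, ∀ y ∈ Tb b E, ψ y = φ y := by
  obtain ⟨SS, h1, h2, h3, -⟩ := sht_finite S hE
  refine ⟨SS, ⟨hE.mem, hE.cpt, h1, h2, fun φ hφ l hl hlE => ?_⟩, h3⟩
  obtain ⟨φ', hφ', h4⟩ := h3 _ (sht_add (h2 φ hφ) S.lg hl hlE)
  exact ⟨φ', hφ', fun y hy => (h4 y hy).symm⟩

end Pool.Agent.G4.R

end

section

/-!
# G4 A TDt: the data of block (C), and the output for sheets over the whole space

`exists_tdat`: `TDat` for the sheets over `T = b + E`, `E` the real closure of `ℂ a` (`ToE`), `ν ∈ E`; `thin` from the local equations of `D` and `LG.iso`; `smo`: `smoT_sheet`; `str`: `reg_str`; `gr`: `gr`.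
`reg_hol`: sheets over the whole space are holomorphic off `D`.
-/

set_option autoImplicit false

open Topology Filter Metric

namespace Pool.Agent.G4.A

open Pool.Agent.H36.BP (EN fs wd)
open Pool.Agent.H14.PP (IsCone CurveAt Tan)
open Pool.Agent.H62.EF (MN pr)
open Pool.Agent.AD (Vd Chart Charts IsGerm)
open Pool.Agent.TG
open Pool.Agent.G3
open Pool.Agent.G3.A (Ba Hc Dec Sepa Tht Frm NL Lm CRL Tb ToE CE Sht reg_str)
open Pool.Agent.G3.C (Gc HP)
open Pool.Agent.G4.C (TDat cy)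

variable {N k : ℕ} {X : Set (EN N)} {Λ : AddSubgroup (Vd (k + 1))} {u : EN N → Vd (k + 1)} {D B Bad : Set (Vd (k + 1))} {a : Vd (k + 1)}
  {Γ : AddSubgroup (Vd (k + 1))} {J rW : ℕ} {W : Fin rW → Vd (k + 1) →L[ℂ] ℂ} {α : Fin J → VForm X Λ u} {c₀ C₀ ρ δ : ℝ} {E : Submodule ℝ (Vd (k + 1))} {b ν : Vd (k + 1)}

/-- one of the local equations of `D` is not identically `0` on the line -/
private theorem td_thin (hL : LG Λ D Bad a) (hD : ∀ y : Vd (k + 1), ∃ (m : ℕ) (h : Vd (k + 1) → Vd m), AnalyticAt ℂ h y ∧ ∀ᶠ z in 𝓝 y, (z ∈ D ↔ h z = 0)) (y : Vd (k + 1)) :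
    ∃ h : Vd (k + 1) → ℂ, AnalyticAt ℂ h y ∧ (∀ᶠ y' in 𝓝 y, y' ∈ D → h y' = 0) ∧ ¬ ∀ᶠ z in 𝓝 (0 : ℂ), h (y + z • a) = 0 := by
  obtain ⟨m, h, h1, h2⟩ := hD y
  by_contra hcon
  push Not at hcon
  have h3 : ∀ i : Fin m, ∀ᶠ z in 𝓝 (0 : ℂ), h (y + z • a) i = 0 := by
    intro i
    refine hcon (fun y => h y i) ?_ ?_
    · exact analyticAt_pi_iff.1 h1 i
    · filter_upwards [h2] with y' h4 h5
      rw [h4.1 h5]
      rfl
  have h4 : ∀ᶠ z in 𝓝 (0 : ℂ), ∀ i : Fin m, h (y + z • a) i = 0 := Filter.eventually_all.2 h3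
  have hc : Continuous fun z : ℂ => y + z • a := by fun_prop
  have h5 : ∀ᶠ z in 𝓝 (0 : ℂ), (y + z • a ∈ D ↔ h (y + z • a) = 0) := by
    have h6 := hc.tendsto 0
    rw [zero_smul, add_zero] at h6
    exact h6.eventually h2
  have h6 : ∀ᶠ z in 𝓝[≠] (0 : ℂ), y + z • a ∈ D := by
    refine Filter.Eventually.filter_mono nhdsWithin_le_nhds ?_
    filter_upwards [h4, h5] with z h7 h8
    exact h8.2 (funext h7)
  obtain ⟨z, h7, h8⟩ := (h6.and (hL.iso y)).exists
  exact h8 h7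

theorem exists_tdat (S : DA X Λ u D B Bad a Γ W α c₀ C₀ ρ δ) (hE : ToE Λ a E) (hν : ν ∈ E) (hBc : IsClosed Bad)
    (hD : ∀ y : Vd (k + 1), ∃ (m : ℕ) (h : Vd (k + 1) → Vd m), AnalyticAt ℂ h y ∧ ∀ᶠ z in 𝓝 y, (z ∈ D ↔ h z = 0)) (b : Vd (k + 1)) :
    ∃ SS : Set (Vd (k + 1) → MN N), TDat X Λ u a ν b E D Bad SS ∧ ∀ f ∈ Hc X Λ u a b, ∃ φ ∈ SS, ∀ z : ℂ, f z = φ (b + z • a) := by
  have hCE : CE X Λ u a b E := hE.ce4 S b
  obtain ⟨SS, hS, hall⟩ := Pool.Agent.G4.R.exists_shs S hCE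
  have hbT : b ∈ Tb b E := by
    show b - b ∈ E
    rw [sub_self]
    exact E.zero_mem
  refine ⟨SS, ?_, fun f hf => ?_⟩
  · exact
      { cone := S.geo.cone
        tor := S.geo.tor
        lat := S.geo.lat
        a_mem := hE.mem
        ν_mem := hν
        cpt := hE.cpt
        dns := hE.dns
        D_closed := S.lg.D_closed
        D_inv := S.lg.D_inv
        bad_closed := hBc
        bad_sub := S.lg.bad_sub
        bad_inv := S.lg.bad_inv
        thin := td_thin S.lg hD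
        fin := hS.fin
        tr := hS.tr
        line := fun φ hφ y hy => by
          obtain ⟨F, hF1, hF2⟩ := (hS.sht φ hφ).line y hy
          exact ⟨F, hF1, fun z => congrFun hF2 z⟩
        smo := fun φ hφ y hy hyD => Pool.Agent.G4.R.smoT_sheet S hS hν hφ hy hyD
        str := fun φ hφ y hy hyB => by
          obtain ⟨χ, c, ρ', p, h1, h2, h3, h4⟩ := reg_str S.geo ((hS.sht φ hφ).line y hy) (z := 0) fun hD' => by
            rw [zero_smul, add_zero] at hD' ⊢
            exact S.good _ hD' hyB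
          rw [zero_smul, add_zero] at h3 h4
          have h5 : cy c ρ' (p 0) y = p := by
            have h6 : (ρ' : ℂ)⁻¹ • (y - c) = tl p := by
              rw [← h3]
              unfold ms
              rw [add_sub_cancel_left, smul_smul, inv_mul_cancel₀, one_smul]
              have := h1.pos.ne'
              exact_mod_cast this
            unfold cy
            rw [h6]
            funext i
            refine Fin.cases ?_ (fun j => ?_) i
            · rfl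
            · rfl
          refine ⟨χ, c, ρ', p 0, h1, ?_, ?_⟩
          · rw [h5]
            exact h2
          · rw [h5]
            exact h4
        gr := fun R₀ hR₀ => gr S.geo S.lg S.nl hR₀
        few := S.lg.few
        nl := S.nl }
  · obtain ⟨φ, hφ, h1⟩ := exists_sht S hCE hf
    obtain ⟨ψ, hψ, h2⟩ := hall φ hφ
    refine ⟨ψ, hψ, fun z => ?_⟩
    rw [← h1 z]
    refine h2 _ ?_
    show b + z • a - b ∈ E
    rw [add_sub_cancel_left]
    exact hE.mem z

/-- sheets over the whole space are holomorphic off `D` -/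
theorem reg_hol (S : DA X Λ u D B Bad a Γ W α c₀ C₀ ρ δ) (hE : CE X Λ u a b ⊤) {φ : Vd (k + 1) → MN N} (hφ : Sht X Λ u D a (Tb b ⊤) φ) {y : Vd (k + 1)} (hy : y ∉ D) :
    ∃ ψ : Vd (k + 1) → EN N, AnalyticAt ℂ ψ y ∧ ∀ᶠ z in 𝓝 y, ψ z ∈ X ∧ φ z = pr (ψ z) ∧ u (ψ z) - z ∈ Λ := by
  obtain ⟨SS, hS, hall⟩ := Pool.Agent.G4.R.exists_shs S hE
  obtain ⟨φ', hφ', he⟩ := hall φ hφ
  have hfun : φ = φ' := funext fun z => he z (Submodule.mem_top (R := ℝ) (x := z - b))
  rw [hfun]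
  exact Pool.Agent.G4.R.sheet_hol S hS hφ' hy

end Pool.Agent.G4.A

end
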