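import Pool.Agent.H94.G4T.M117
import Pool.Agent.H94.G4T.M62
import Pool.Agent.H94.G4T.M69
import Pool.Agent.H94.G4T.M73
import Pool.Agent.H94.G4T.M75
import Pool.Agent.H94.G4T.M89

/-! The parts of this file: G4.E.MerC, G4.E.MerT, G4.C.Fill. -/

section

/-!
# G4 E MerC: a meromorphic lift, local form

`φ : ℂ^(k+1) → ℙ^N` is, on every line `y + ℂ a` with `y` near `y₀`, an entire curve `pr (F z)`; on the circle `‖w‖ = r` the normalised lift `nv v (φ (y + w a))` is analytic in `(y, w)`, and it has at most `M` poles in the disc.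
Then `φ` has near `y₀` an analytic lift which is not identically `0`.

Proof.  The moments `∮ w ^ (j + s) * nv v (φ (y + w a)) i` are analytic in `y`, and for every `y` there is `q : Fin (M + 1) → ℂ`, not `0`, with `∑ s, q s * moment = 0` for all `i`, `j` (the coefficients of the polynomial of the poles).
`minors` gives an analytic solution `Q s y`, not identically `0`; `G (y, z) = (2 π i)⁻¹ ∮ (w - z)⁻¹ (∑ s, Q s y * w ^ s) nv v (φ (y + w a))`.  By `mom_quot`: `⟨v, F z⟩ G (y, z) = (∑ s, Q s y * z ^ s) F z`.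
For a small `z₁` take `y ↦ G (y - z₁ a, z₁)`.
-/

set_option autoImplicit false

open Topology Filter Metric

namespace Pool.Agent.G4.E

open Pool.Agent.H36.BP (EN)
open Pool.Agent.H62.EF (MN pr)
open Pool.Agent.AD (Vd)
open Pool.Agent.G3.C (nv nd nv_pr pr_iff_minors)

variable {N k : ℕ}

/-- the coordinates of the Cauchy integral -/
private noncomputable def ci (v : EN N) (φ : Vd (k + 1) → MN N) (a : Vd (k + 1)) (r : ℝ) {M : ℕ} (Q : Fin (M + 1) → Vd (k + 1) → ℂ) (y : Vd (k + 1)) (z : ℂ) (i : Fin (N + 1)) : ℂ :=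
  (2 * Real.pi * Complex.I)⁻¹ * ∮ w in C(0, r), (w - z)⁻¹ * ((∑ s, Q s y * w ^ (s : ℕ)) * nv v (φ (y + w • a)) i)

private theorem sphere_ne {r : ℝ} {z w : ℂ} (hz : z ∈ ball (0 : ℂ) r) (hw : w ∈ sphere (0 : ℂ) r) : w - z ≠ 0 := by
  intro h1
  rw [sub_eq_zero.1 h1, mem_sphere] at hw
  rw [mem_ball] at hz
  linarith

private theorem en_coord (i : Fin (N + 1)) {E : Type*} [NormedAddCommGroup E] [NormedSpace ℂ E] {f : E → EN N} {x : E} (hf : AnalyticAt ℂ f x) :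
    AnalyticAt ℂ (fun y => f y i) x := ((EuclideanSpace.proj (𝕜 := ℂ) i : EN N →L[ℂ] ℂ).analyticAt _).comp hf

/-- the polynomial of the poles annihilates the moments -/
private theorem kern {F : ℂ → EN N} (hF : Differentiable ℂ F) {v : EN N} {r : ℝ} (hr : 0 < r) (hne : ∀ w ∈ sphere (0 : ℂ) r, (inner ℂ v (F w) : ℂ) ≠ 0) {M : ℕ} {q : Polynomial ℂ} (hq0 : q ≠ 0)
    (hqM : q.natDegree ≤ M) {g : ℂ → ℂ} (hg : Differentiable ℂ g) (hg0 : ∀ z ∈ closedBall (0 : ℂ) r, g z ≠ 0) (hqg : ∀ z, (inner ℂ v (F z) : ℂ) = q.eval z * g z) :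
    ∃ c : Fin (M + 1) → ℂ, c ≠ 0 ∧ ∀ (i : Fin (N + 1)) (j : ℕ), ∑ s, c s * (∮ w in C(0, r), w ^ (j + (s : ℕ)) * ((inner ℂ v (F w) : ℂ)⁻¹ * F w i)) = 0 := by
  have hFi : ∀ i, Differentiable ℂ fun w => F w i := fun i => (EuclideanSpace.proj (𝕜 := ℂ) i : EN N →L[ℂ] ℂ).differentiable.comp hF
  have hh : Differentiable ℂ fun w => (inner ℂ v (F w) : ℂ) := (innerSL ℂ v).differentiable.comp hF
  refine ⟨fun s => q.coeff s, fun h0 => hq0 ?_, fun i j => ?_⟩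
  · ext s
    rw [Polynomial.coeff_zero]
    by_cases hs : s < M + 1
    · exact congrFun h0 ⟨s, hs⟩
    · exact Polynomial.coeff_eq_zero_of_natDegree_lt (by omega)
  · have hcont : ContinuousOn (fun w => (inner ℂ v (F w) : ℂ)⁻¹ * F w i) (sphere 0 r) :=
      (ContinuousOn.inv₀ hh.continuous.continuousOn hne).mul (hFi i).continuous.continuousOn
    have h1 : ∑ s : Fin (M + 1), q.coeff s * (∮ w in C(0, r), w ^ (j + (s : ℕ)) * ((inner ℂ v (F w) : ℂ)⁻¹ * F w i)) =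
        ∮ w in C(0, r), ∑ s : Fin (M + 1), q.coeff s * (w ^ (j + (s : ℕ)) * ((inner ℂ v (F w) : ℂ)⁻¹ * F w i)) := by
      rw [circleIntegral.integral_fun_sum]
      · refine Finset.sum_congr rfl fun s _ => ?_
        rw [circleIntegral.integral_const_mul]
      · intro s _
        refine ContinuousOn.circleIntegrable hr.le ?_
        exact continuousOn_const.mul ((by fun_prop : ContinuousOn (fun z : ℂ => z ^ (j + (s : ℕ))) _).mul hcont)
    rw [h1]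
    have h2 : ∀ w ∈ sphere (0 : ℂ) r, ∑ s : Fin (M + 1), q.coeff s * (w ^ (j + (s : ℕ)) * ((inner ℂ v (F w) : ℂ)⁻¹ * F w i)) = w ^ j * (F w i / g w) := by
      intro w hw
      have h3 : ∑ s : Fin (M + 1), q.coeff s * w ^ (s : ℕ) = q.eval w := by
        rw [Polynomial.eval_eq_sum_range' (n := M + 1) (by omega), Finset.sum_range]
      have h4 : ∑ s : Fin (M + 1), q.coeff s * (w ^ (j + (s : ℕ)) * ((inner ℂ v (F w) : ℂ)⁻¹ * F w i)) =
          (∑ s : Fin (M + 1), q.coeff s * w ^ (s : ℕ)) * (w ^ j * ((inner ℂ v (F w) : ℂ)⁻¹ * F w i)) := by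
        rw [Finset.sum_mul]
        refine Finset.sum_congr rfl fun s _ => ?_
        rw [pow_add]
        ring
      have h5 := hne w hw
      rw [h4, h3, hqg w]
      rw [hqg w] at h5
      have h6 : q.eval w ≠ 0 := left_ne_zero_of_mul h5
      have h7 : g w ≠ 0 := right_ne_zero_of_mul h5
      field_simp
    rw [circleIntegral.integral_congr hr.le h2]
    refine Complex.circleIntegral_eq_zero_of_differentiable_on_off_countable hr.le Set.countable_empty ?_ ?_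
    · exact (by fun_prop : ContinuousOn (fun z : ℂ => z ^ j) _).mul ((hFi i).continuous.continuousOn.div hg.continuous.continuousOn hg0)
    · intro z hz
      exact (by fun_prop : DifferentiableAt ℂ (fun z : ℂ => z ^ j) z).mul ((hFi i z).div (hg z) (hg0 z (ball_subset_closedBall hz.1)))

theorem mer_core {φ : Vd (k + 1) → MN N} {a y₀ : Vd (k + 1)} (ha : ‖a‖ = 1) {r ε : ℝ} (hr : 0 < r) (hε : 0 < ε) {v : EN N} {M : ℕ}
    (hF : ∀ y ∈ ball y₀ ε, ∃ F : ℂ → EN N, Differentiable ℂ F ∧ (∀ z, F z ≠ 0) ∧ (∀ z : ℂ, φ (y + z • a) = pr (F z)) ∧ (∀ w ∈ sphere (0 : ℂ) r, (inner ℂ v (F w) : ℂ) ≠ 0) ∧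
      ∃ q : Polynomial ℂ, q ≠ 0 ∧ q.natDegree ≤ M ∧ ∃ g : ℂ → ℂ, Differentiable ℂ g ∧ (∀ z ∈ closedBall (0 : ℂ) r, g z ≠ 0) ∧ ∀ z, (inner ℂ v (F z) : ℂ) = q.eval z * g z)
    (hx : ∀ y ∈ ball y₀ ε, ∀ w ∈ sphere (0 : ℂ) r, AnalyticAt ℂ (fun p : Vd (k + 1) × ℂ => nv v (φ (p.1 + p.2 • a))) (y, w)) :
    ∃ G : Vd (k + 1) → EN N, AnalyticAt ℂ G y₀ ∧ (∃ᶠ z in 𝓝 y₀, G z ≠ 0) ∧ ∀ᶠ z in 𝓝 y₀, G z ≠ 0 → φ z = pr (G z) := by
  classical
  choose! F hFd hF0 hFφ hFne q hq0 hqM g hgd hg0 hqg using hF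
  have hnv : ∀ y ∈ ball y₀ ε, ∀ w ∈ sphere (0 : ℂ) r, nv v (φ (y + w • a)) = (inner ℂ v (F y w) : ℂ)⁻¹ • F y w := by
    intro y hy w hw
    rw [hFφ y hy w]
    exact nv_pr (hFne y hy w hw)
  -- the moments
  obtain ⟨Q, hQa, hQ0, s₁, y₁, hy₁, hQne⟩ := minors (U := ball y₀ ε) ⟨y₀, mem_ball_self hε⟩ (ι := Fin (N + 1) × ℕ) (M := M)
    (h := fun i s y => ∮ w in C(0, r), w ^ (i.2 + (s : ℕ)) * nv v (φ (y + w • a)) i.1)
    (fun i s y hy => by
      refine Pool.Agent.H22.HF.analyticAt_circleIntegral (F := fun p : Vd (k + 1) × ℂ => p.2 ^ (i.2 + (s : ℕ)) * nv v (φ (p.1 + p.2 • a)) i.1) hr fun t ht => ?_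
      have h1 : AnalyticAt ℂ (fun p : Vd (k + 1) × ℂ => p.2 ^ (i.2 + (s : ℕ))) (y, t) := analyticAt_snd.pow _
      exact h1.mul (en_coord i.1 (hx y hy t ht)))
    (fun y hy => by
      obtain ⟨c, hc0, hc⟩ := kern (hFd y hy) hr (hFne y hy) (hq0 y hy) (hqM y hy) (hgd y hy) (hg0 y hy) (hqg y hy)
      refine ⟨c, hc0, fun i => ?_⟩
      refine Eq.trans ?_ (hc i.1 i.2)
      refine Finset.sum_congr rfl fun s _ => ?_
      have h1 : (∮ w in C(0, r), w ^ (i.2 + (s : ℕ)) * nv v (φ (y + w • a)) i.1) = ∮ w in C(0, r), w ^ (i.2 + (s : ℕ)) * ((inner ℂ v (F y w) : ℂ)⁻¹ * F y w i.1) :=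
        circleIntegral.integral_congr hr.le fun w hw => by
          show w ^ (i.2 + (s : ℕ)) * nv v (φ (y + w • a)) i.1 = w ^ (i.2 + (s : ℕ)) * ((inner ℂ v (F y w) : ℂ)⁻¹ * F y w i.1)
          rw [hnv y hy w hw]
          rfl
      show c s * (∮ w in C(0, r), w ^ (i.2 + (s : ℕ)) * nv v (φ (y + w • a)) i.1) = _
      rw [h1])
  -- the identity
  have hmain : ∀ y ∈ ball y₀ ε, ∀ z ∈ ball (0 : ℂ) r, ∀ i, (inner ℂ v (F y z) : ℂ) * ci v φ a r Q y z i = (∑ s, Q s y * z ^ (s : ℕ)) * F y z i := by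
    intro y hy z hz i
    have hFi : Differentiable ℂ fun w => F y w i := (EuclideanSpace.proj (𝕜 := ℂ) i : EN N →L[ℂ] ℂ).differentiable.comp (hFd y hy)
    have hh : Differentiable ℂ fun w => (inner ℂ v (F y w) : ℂ) := (innerSL ℂ v).differentiable.comp (hFd y hy)
    have hp : Differentiable ℂ fun w : ℂ => (∑ s, Q s y * w ^ (s : ℕ)) * F y w i := by
      refine Differentiable.mul ?_ hFi
      fun_prop
    have hcont : ContinuousOn (fun w => (inner ℂ v (F y w) : ℂ)⁻¹ * F y w i) (sphere 0 r) :=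
      (ContinuousOn.inv₀ hh.continuous.continuousOn (hFne y hy)).mul hFi.continuous.continuousOn
    have h0 : ∀ j : ℕ, (∮ w in C(0, r), w ^ j * (((∑ s, Q s y * w ^ (s : ℕ)) * F y w i) / inner ℂ v (F y w))) = 0 := by
      intro j
      refine Eq.trans ?_ (hQ0 y hy (i, j))
      have h2 : ∀ w ∈ sphere (0 : ℂ) r, w ^ j * (((∑ s, Q s y * w ^ (s : ℕ)) * F y w i) / inner ℂ v (F y w)) =
          ∑ s : Fin (M + 1), Q s y * (w ^ (j + (s : ℕ)) * nv v (φ (y + w • a)) i) := by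
        intro w hw
        rw [hnv y hy w hw]
        show _ = ∑ s : Fin (M + 1), Q s y * (w ^ (j + (s : ℕ)) * ((inner ℂ v (F y w) : ℂ)⁻¹ * F y w i))
        rw [Finset.sum_mul, Finset.sum_div, Finset.mul_sum]
        refine Finset.sum_congr rfl fun s _ => ?_
        rw [pow_add, div_eq_mul_inv]
        ring
      rw [circleIntegral.integral_congr hr.le h2, circleIntegral.integral_fun_sum]
      · refine Finset.sum_congr rfl fun s _ => ?_
        rw [circleIntegral.integral_const_mul]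
      · intro s _
        refine ContinuousOn.circleIntegrable hr.le ?_
        refine continuousOn_const.mul ((by fun_prop : ContinuousOn (fun z : ℂ => z ^ (j + (s : ℕ))) _).mul (hcont.congr fun w hw => ?_))
        show nv v (φ (y + w • a)) i = _
        rw [hnv y hy w hw]
        rfl
    have h1 := mom_quot hr hh hp (hFne y hy) h0 hz
    rw [← h1]
    congr 1
    unfold ci
    congr 1
    refine circleIntegral.integral_congr hr.le fun w hw => ?_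
    show (w - z)⁻¹ * ((∑ s, Q s y * w ^ (s : ℕ)) * nv v (φ (y + w • a)) i) = (w - z)⁻¹ * (((∑ s, Q s y * w ^ (s : ℕ)) * F y w i) / inner ℂ v (F y w))
    rw [hnv y hy w hw]
    show (w - z)⁻¹ * ((∑ s, Q s y * w ^ (s : ℕ)) * ((inner ℂ v (F y w) : ℂ)⁻¹ * F y w i)) = _
    rw [div_eq_mul_inv]
    ring
  -- continuity of the Cauchy integral in `z`
  have hcz : ∀ y ∈ ball y₀ ε, ∀ z ∈ ball (0 : ℂ) r, ∀ i, ContinuousAt (fun z => ci v φ a r Q y z i) z := by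
    intro y hy z hz i
    have hFi : Differentiable ℂ fun w => F y w i := (EuclideanSpace.proj (𝕜 := ℂ) i : EN N →L[ℂ] ℂ).differentiable.comp (hFd y hy)
    have hh : Differentiable ℂ fun w => (inner ℂ v (F y w) : ℂ) := (innerSL ℂ v).differentiable.comp (hFd y hy)
    have hcont : ContinuousOn (fun w => (∑ s, Q s y * w ^ (s : ℕ)) * nv v (φ (y + w • a)) i) (sphere 0 r) := by
      refine ContinuousOn.mul (by fun_prop) (ContinuousOn.congr ((ContinuousOn.inv₀ hh.continuous.continuousOn (hFne y hy)).mul hFi.continuous.continuousOn) fun w hw => ?_)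
      show nv v (φ (y + w • a)) i = (inner ℂ v (F y w) : ℂ)⁻¹ * F y w i
      rw [hnv y hy w hw]
      rfl
    obtain ⟨R', hR'⟩ : ∃ R' : NNReal, (R' : ℝ) = r := ⟨⟨r, hr.le⟩, rfl⟩
    have h1 := hasFPowerSeriesOn_cauchy_integral (R := R') (f := fun w => (∑ s, Q s y * w ^ (s : ℕ)) * nv v (φ (y + w • a)) i) (c := (0 : ℂ))
      (by rw [hR']; exact ContinuousOn.circleIntegrable hr.le hcont) (by rw [← NNReal.coe_pos, hR']; exact hr)
    have h2 : ContinuousOn (fun z => ci v φ a r Q y z i) (Metric.eball 0 (R' : ENNReal)) := by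
      refine h1.continuousOn.congr fun z _ => ?_
      unfold ci
      simp only [smul_eq_mul, hR']
    refine h2.continuousAt (IsOpen.mem_nhds Metric.isOpen_eball ?_)
    rw [Metric.eball_coe, hR']
    exact hz
  -- the vector
  set G : Vd (k + 1) → ℂ → EN N := fun y z => WithLp.toLp 2 fun i => ci v φ a r Q y z i with hG
  have hGi : ∀ y z i, G y z i = ci v φ a r Q y z i := fun y z i => rfl
  have hpr : ∀ y ∈ ball y₀ ε, ∀ z ∈ ball (0 : ℂ) r, G y z ≠ 0 → φ (y + z • a) = pr (G y z) := by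
    intro y hy z hz hGz
    have hh : Differentiable ℂ fun w => (inner ℂ v (F y w) : ℂ) := (innerSL ℂ v).differentiable.comp (hFd y hy)
    have hFi : ∀ i, Differentiable ℂ fun w => F y w i := fun i => (EuclideanSpace.proj (𝕜 := ℂ) i : EN N →L[ℂ] ℂ).differentiable.comp (hFd y hy)
    rw [hFφ y hy z, eq_comm, pr_iff_minors hGz (hF0 y hy z)]
    intro i j
    have hc : ContinuousAt (fun w => ci v φ a r Q y w i * F y w j - ci v φ a r Q y w j * F y w i) z :=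
      ((hcz y hy z hz i).mul (hFi j z).continuousAt).sub ((hcz y hy z hz j).mul (hFi i z).continuousAt)
    have hiso : ∀ᶠ w in 𝓝[≠] z, (inner ℂ v (F y w) : ℂ) ≠ 0 := by
      rcases (hh.analyticAt z).eventually_eq_zero_or_eventually_ne_zero with h1 | h1
      · exfalso
        have h2 : AnalyticOnNhd ℂ (fun w => (inner ℂ v (F y w) : ℂ)) Set.univ := fun w _ => hh.analyticAt w
        have h3 := h2.eqOn_zero_of_preconnected_of_eventuallyEq_zero isPreconnected_univ (Set.mem_univ z) h1 (Set.mem_univ (r : ℂ))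
        exact hFne y hy (r : ℂ) (by simp [abs_of_pos hr]) h3
      · exact h1
    have hz0 : ∀ᶠ w in 𝓝[≠] z, ci v φ a r Q y w i * F y w j - ci v φ a r Q y w j * F y w i = 0 := by
      filter_upwards [hiso, mem_nhdsWithin_of_mem_nhds (isOpen_ball.mem_nhds hz)] with w hw hwb
      have e1 := hmain y hy w hwb i
      have e2 := hmain y hy w hwb j
      have e3 : (inner ℂ v (F y w) : ℂ) * (ci v φ a r Q y w i * F y w j - ci v φ a r Q y w j * F y w i) = 0 := by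
        linear_combination F y w j * e1 - F y w i * e2
      exact (mul_eq_zero.1 e3).resolve_left hw
    have t1 : Tendsto (fun w => ci v φ a r Q y w i * F y w j - ci v φ a r Q y w j * F y w i) (𝓝[≠] z) (𝓝 (ci v φ a r Q y z i * F y z j - ci v φ a r Q y z j * F y z i)) :=
      hc.tendsto.mono_left nhdsWithin_le_nhds
    have t2 : Tendsto (fun w => ci v φ a r Q y w i * F y w j - ci v φ a r Q y w j * F y w i) (𝓝[≠] z) (𝓝 0) :=
      tendsto_const_nhds.congr' (hz0.mono fun w hw => hw.symm)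
    exact tendsto_nhds_unique t1 t2
  have hGan : ∀ y ∈ ball y₀ ε, ∀ z ∈ ball (0 : ℂ) r, AnalyticAt ℂ (fun y => G y z) y := by
    intro y hy z hz
    refine Pool.Agent.TG.an_of_coord fun i => ?_
    show AnalyticAt ℂ (fun y => ci v φ a r Q y z i) y
    unfold ci
    refine analyticAt_const.mul ?_
    refine Pool.Agent.H22.HF.analyticAt_circleIntegral (F := fun p : Vd (k + 1) × ℂ => (p.2 - z)⁻¹ * ((∑ s, Q s p.1 * p.2 ^ (s : ℕ)) * nv v (φ (p.1 + p.2 • a)) i)) hr fun t ht => ?_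
    refine ((analyticAt_snd.sub analyticAt_const).inv (sphere_ne hz ht)).mul (AnalyticAt.mul ?_ (en_coord i (hx y hy t ht)))
    refine Finset.analyticAt_fun_sum _ fun s _ => ?_
    exact ((hQa s y hy).comp_of_eq analyticAt_fst rfl).mul (analyticAt_snd.pow _)
  -- a point where it is not `0`
  obtain ⟨z₁, hz₁r, hz₁ε, hGne⟩ : ∃ z₁ : ℂ, z₁ ∈ ball (0 : ℂ) r ∧ ‖z₁‖ < ε ∧ G y₁ z₁ ≠ 0 := by
    have hp : ∀ᶠ z in 𝓝[≠] (0 : ℂ), (∑ s, Q s y₁ * z ^ (s : ℕ)) ≠ 0 := by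
      have h1 : AnalyticAt ℂ (fun z : ℂ => ∑ s, Q s y₁ * z ^ (s : ℕ)) 0 := by
        refine Finset.analyticAt_fun_sum _ fun s _ => ?_
        exact analyticAt_const.mul (analyticAt_id.pow _)
      rcases h1.eventually_eq_zero_or_eventually_ne_zero with h2 | h2
      · exfalso
        set P : Polynomial ℂ := ∑ s : Fin (M + 1), Polynomial.C (Q s y₁) * Polynomial.X ^ (s : ℕ) with hP
        have h3 : ∀ z, P.eval z = ∑ s, Q s y₁ * z ^ (s : ℕ) := by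
          intro z
          rw [hP, Polynomial.eval_finsetSum]
          refine Finset.sum_congr rfl fun s _ => ?_
          simp
        have h4 : P = 0 := by
          refine Polynomial.eq_zero_of_infinite_isRoot P ?_
          have h5 : {z : ℂ | P.IsRoot z} ∈ 𝓝 (0 : ℂ) := by
            filter_upwards [h2] with z hz
            show P.eval z = 0
            rw [h3, hz]
          exact infinite_of_mem_nhds (0 : ℂ) h5
        apply hQne
        have h5 : P.coeff (s₁ : ℕ) = Q s₁ y₁ := by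
          rw [hP, Polynomial.finsetSum_coeff]
          rw [Finset.sum_eq_single s₁]
          · simp
          · intro b _ hb
            rw [Polynomial.coeff_C_mul_X_pow, if_neg]
            intro h
            exact hb (Fin.ext h.symm)
          · intro h
            exact absurd (Finset.mem_univ _) h
        rw [← h5, h4, Polynomial.coeff_zero]
      · exact h2
    have h1 : ∀ᶠ z in 𝓝[≠] (0 : ℂ), z ∈ ball (0 : ℂ) (min r ε) := mem_nhdsWithin_of_mem_nhds (isOpen_ball.mem_nhds (mem_ball_self (lt_min hr hε)))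
    obtain ⟨z₁, h2, h3⟩ := (hp.and h1).exists
    have h4 : ‖z₁‖ < min r ε := by rwa [mem_ball_zero_iff] at h3
    refine ⟨z₁, by rw [mem_ball_zero_iff]; exact h4.trans_le (min_le_left _ _), h4.trans_le (min_le_right _ _), fun h0 => ?_⟩
    obtain ⟨i, hi⟩ := Pool.Agent.TG.en_coord_ne (hF0 y₁ hy₁ z₁)
    have h5 := hmain y₁ hy₁ z₁ (by rw [mem_ball_zero_iff]; exact h4.trans_le (min_le_left _ _)) i
    have h6 : ci v φ a r Q y₁ z₁ i = 0 := by
      rw [← hGi, h0]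
      rfl
    rw [h6, mul_zero] at h5
    exact mul_ne_zero h2 hi h5.symm
  have hna : ‖z₁ • a‖ < ε := by rwa [norm_smul, ha, mul_one]
  have hU : ∀ y ∈ ball (y₀ + z₁ • a) ε, y - z₁ • a ∈ ball y₀ ε := by
    intro y hy
    rw [mem_ball, dist_eq_norm] at hy ⊢
    rwa [show y - z₁ • a - y₀ = y - (y₀ + z₁ • a) by abel]
  have hy₀U : y₀ ∈ ball (y₀ + z₁ • a) ε := by
    rw [mem_ball, dist_eq_norm, show y₀ - (y₀ + z₁ • a) = -(z₁ • a) by abel, norm_neg]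
    exact hna
  have hGU : AnalyticOnNhd ℂ (fun y => G (y - z₁ • a) z₁) (ball (y₀ + z₁ • a) ε) := by
    intro y hy
    exact AnalyticAt.comp_of_eq (g := fun y => G y z₁) (f := fun y : Vd (k + 1) => y - z₁ • a) (hGan _ (hU y hy) z₁ hz₁r) (analyticAt_id.sub analyticAt_const) rfl
  refine ⟨fun y => G (y - z₁ • a) z₁, hGU y₀ hy₀U, ?_, ?_⟩
  · intro hcon
    have h1 : (fun y => G (y - z₁ • a) z₁) =ᶠ[𝓝 y₀] 0 := by
      filter_upwards [hcon] with y hy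
      exact not_not.1 hy
    have h2 := hGU.eqOn_zero_of_preconnected_of_eventuallyEq_zero (convex_ball _ _).isPreconnected hy₀U h1 (x := y₁ + z₁ • a) (by
      rw [mem_ball, dist_eq_norm, show y₁ + z₁ • a - (y₀ + z₁ • a) = y₁ - y₀ by abel]
      rwa [mem_ball, dist_eq_norm] at hy₁)
    apply hGne
    have h3 : G (y₁ + z₁ • a - z₁ • a) z₁ = 0 := h2
    rwa [add_sub_cancel_right] at h3
  · filter_upwards [isOpen_ball.mem_nhds hy₀U] with y hy hGy
    have h1 := hpr _ (hU y hy) z₁ hz₁r hGy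
    rwa [sub_add_cancel] at h1

end Pool.Agent.G4.E

end

section

/-!
# G4 E MerT: the global sheets are weakly meromorphic

`mer_top`: `φ` is holomorphic off `D`, and an honest curve on every line of direction `a`.  Then it has analytic lifts which are not identically `0`, at every point.

Proof.  `F₀` the entire lift on the line through `y₀`, `v` the unit vector of `F₀ 0`; a radius `r` such that there are no points of `D` and no zeros of `⟨v, F₀⟩` on the circle `‖z‖ = r`; by compactness the same for the lines near this one.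
The number of the zeros of `⟨v, F_y⟩` in the disc is bounded (`tbd`, `vcount`, with the centre `z₁ = r`).  `mer_core`.
-/

set_option autoImplicit false

open Topology Filter Metric

namespace Pool.Agent.G4.E

open Pool.Agent.H36.BP (EN fs wd)
open Pool.Agent.H14.PP (IsCone CurveAt Tan)
open Pool.Agent.H62.EF (MN pr)
open Pool.Agent.AD (Vd Chart Charts IsGerm)
open Pool.Agent.TG
open Pool.Agent.G3.A (Hc)
open Pool.Agent.G3.C (Gc nv nd nv_pr nd_cont nd_pr_ne nv_continuousAt)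
open Pool.Agent.G3.E (Hol)

variable {N k : ℕ}

/-- a circle without points of a discrete set -/
theorem exists_radius {P : ℂ → Prop} (h : ∀ z : ℂ, ∀ᶠ w in 𝓝[≠] z, ¬ P w) {R : ℝ} (hR : 0 < R) : ∃ r : ℝ, 0 < r ∧ r < R ∧ ∀ z ∈ sphere (0 : ℂ) r, ¬ P z := by
  have hfin : {z : ℂ | z ∈ closedBall (0 : ℂ) R ∧ P z}.Finite := by
    by_contra hinf
    obtain ⟨z, -, hz⟩ := Set.Infinite.exists_accPt_of_subset_isCompact hinf (isCompact_closedBall (0 : ℂ) R) fun z hz => hz.1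
    rw [accPt_iff_frequently_nhdsNE] at hz
    exact hz ((h z).mono fun w hw hw2 => hw hw2.2)
  have h1 : ((fun z : ℂ => ‖z‖) '' {z : ℂ | z ∈ closedBall (0 : ℂ) R ∧ P z}).Finite := hfin.image _
  obtain ⟨r, hr, hr2⟩ := (Set.Ioo_infinite hR).exists_notMem_finite h1
  refine ⟨r, hr.1, hr.2, fun z hz hPz => hr2 ⟨z, ⟨?_, hPz⟩, ?_⟩⟩
  · rw [mem_sphere_zero_iff_norm] at hz
    rw [mem_closedBall_zero_iff, hz]
    exact hr.2.le
  · rwa [mem_sphere_zero_iff_norm] at hz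

variable {X : Set (EN N)} {Λ : AddSubgroup (Vd (k + 1))} {u : EN N → Vd (k + 1)} {D : Set (Vd (k + 1))}

/-- continuity off `D` -/
theorem hol_cont' (hX : IsCone X) {φ : Vd (k + 1) → MN N} (hφ : Hol X Λ u D φ) {y : Vd (k + 1)} (hy : y ∉ D) : ContinuousAt φ y := by
  obtain ⟨F, hF, hFe⟩ := hφ y hy
  have h0 : F y ≠ 0 := ne_zero hX hFe.self_of_nhds.1
  have h1 : ContinuousAt (fun z => pr (F z)) y :=
    ContinuousAt.comp (g := fun x : EN N => pr x) (Pool.Agent.H62.EF.continuousAt_pr h0) hF.continuousAt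
  refine h1.congr ?_
  filter_upwards [hFe] with z hz
  exact hz.2.1.symm

theorem mer_top {p : EN N → EN N → ℝ} {m : ℕ} {K : ℝ} {a : Vd (k + 1)} (hX : IsCone X) (hP : Pool.Agent.G3.PS X Λ u D p m K) (ha : ‖a‖ = 1) (hDc : IsClosed D)
    (hiso : ∀ y : Vd (k + 1), ∀ᶠ z in 𝓝[≠] (0 : ℂ), y + z • a ∉ D) {φ : Vd (k + 1) → MN N} (hφ : Hol X Λ u D φ)
    (hl : ∀ y, (fun z : ℂ => φ (y + z • a)) ∈ Hc X Λ u a y) (y₀ : Vd (k + 1)) :
    ∃ G : Vd (k + 1) → EN N, AnalyticAt ℂ G y₀ ∧ (∃ᶠ z in 𝓝 y₀, G z ≠ 0) ∧ ∀ᶠ z in 𝓝 y₀, G z ≠ 0 → φ z = pr (G z) := by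
  choose F hFG hFφ using hl
  have hF0 : ∀ y z, F y z ≠ 0 := fun y z => ne_zero hX ((hFG y).2.1 z)
  have hFφ' : ∀ y (z : ℂ), φ (y + z • a) = pr (F y z) := fun y z => congrFun (hFφ y) z
  have hn0 : ‖F y₀ 0‖ ≠ 0 := norm_ne_zero_iff.2 (hF0 y₀ 0)
  obtain ⟨v, hv1, hv0⟩ : ∃ v : EN N, ‖v‖ ≤ 1 ∧ (inner ℂ v (F y₀ 0) : ℂ) ≠ 0 := by
    refine ⟨((‖F y₀ 0‖ : ℂ))⁻¹ • F y₀ 0, ?_, ?_⟩
    · rw [norm_smul, norm_inv, Complex.norm_real, norm_norm, inv_mul_cancel₀ hn0]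
    · rw [inner_smul_left]
      refine mul_ne_zero ?_ ?_
      · rw [map_inv₀, Complex.conj_ofReal]
        exact inv_ne_zero (by exact_mod_cast hn0)
      · exact inner_self_ne_zero.2 (hF0 y₀ 0)
  have hvd : ∀ y, Differentiable ℂ fun w => (inner ℂ v (F y w) : ℂ) := fun y => (innerSL ℂ v).differentiable.comp (hFG y).1
  -- the radius
  obtain ⟨r, hr, hr1, hrP⟩ := exists_radius (P := fun z => y₀ + z • a ∈ D ∨ (inner ℂ v (F y₀ z) : ℂ) = 0) (fun z => by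
    have h1 : ∀ᶠ w in 𝓝[≠] z, y₀ + w • a ∉ D := by
      have h2 : Tendsto (fun w : ℂ => w - z) (𝓝[≠] z) (𝓝[≠] 0) := by
        rw [tendsto_nhdsWithin_iff]
        refine ⟨?_, ?_⟩
        · have h3 : Continuous fun w : ℂ => w - z := by fun_prop
          have h4 := h3.tendsto z
          rw [sub_self] at h4
          exact h4.mono_left nhdsWithin_le_nhds
        · filter_upwards [self_mem_nhdsWithin] with w hw
          exact sub_ne_zero.2 hw
      filter_upwards [h2.eventually (hiso (y₀ + z • a))] with w hw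
      rwa [add_assoc, ← add_smul, add_sub_cancel] at hw
    have h2 : ∀ᶠ w in 𝓝[≠] z, (inner ℂ v (F y₀ w) : ℂ) ≠ 0 := by
      rcases ((hvd y₀).analyticAt z).eventually_eq_zero_or_eventually_ne_zero with h3 | h3
      · exfalso
        have h4 : AnalyticOnNhd ℂ (fun w => (inner ℂ v (F y₀ w) : ℂ)) Set.univ := fun w _ => (hvd y₀).analyticAt w
        have h5 := h4.eqOn_zero_of_preconnected_of_eventuallyEq_zero isPreconnected_univ (Set.mem_univ z) h3 (Set.mem_univ (0 : ℂ))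
        exact hv0 h5
      · exact h3
    filter_upwards [h1, h2] with w w1 w2 w3
    exact w3.elim w1 w2) (zero_lt_one)
  -- the lines near this one
  have hnd : ∀ y, ∀ w : ℂ, nd v (φ (y + w • a)) ≠ 0 ↔ (inner ℂ v (F y w) : ℂ) ≠ 0 := fun y w => by
    rw [hFφ' y w]
    exact nd_pr_ne (hF0 y w)
  have hcadd : Continuous fun q : Vd (k + 1) × ℂ => q.1 + q.2 • a := by fun_prop
  have hcirc : ∀ᶠ y in 𝓝 y₀, ∀ w ∈ sphere (0 : ℂ) r, y + w • a ∉ D ∧ nd v (φ (y + w • a)) ≠ 0 := by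
    refine (isCompact_sphere (0 : ℂ) r).eventually_forall_of_forall_eventually fun w hw => ?_
    have h1 := hrP w hw
    push Not at h1
    have h2 : ∀ᶠ q in 𝓝 ((y₀, w) : Vd (k + 1) × ℂ), q.1 + q.2 • a ∉ D :=
      (hcadd.continuousAt (x := (y₀, w))).eventually (hDc.isOpen_compl.mem_nhds (show (y₀, w).1 + (y₀, w).2 • a ∈ Dᶜ from h1.1))
    have h3 : ContinuousAt (fun q : Vd (k + 1) × ℂ => nd v (φ (q.1 + q.2 • a))) (y₀, w) := by
      refine ContinuousAt.comp (g := nd v) (nd_cont v).continuousAt ?_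
      exact ContinuousAt.comp (g := φ) (f := fun q : Vd (k + 1) × ℂ => q.1 + q.2 • a) (hol_cont' hX hφ h1.1) hcadd.continuousAt
    exact h2.and (h3.eventually_ne ((hnd y₀ w).2 h1.2))
  -- the centre
  have hrs : (r : ℂ) ∈ sphere (0 : ℂ) r := by
    rw [mem_sphere_zero_iff_norm, Complex.norm_real, Real.norm_of_nonneg hr.le]
  have h1 := hrP _ hrs
  push Not at h1
  obtain ⟨δ, hδ, hδD⟩ : ∃ δ : ℝ, 0 < δ ∧ y₀ + (r : ℂ) • a ∈ Gd D (2 * δ) := by
    obtain ⟨ε, hε, hεD⟩ := Metric.isOpen_iff.1 hDc.isOpen_compl _ h1.1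
    refine ⟨ε / 2, by positivity, fun b hb => ?_⟩
    by_contra hlt
    push Not at hlt
    have h2 : b ∈ ball (y₀ + (r : ℂ) • a) ε := by
      rw [mem_ball, dist_comm, dist_eq_norm]
      linarith
    exact hεD h2 hb
  obtain ⟨A, hA, hAe⟩ : ∃ A : ℝ, 0 < A ∧ ∀ᶠ y in 𝓝 y₀, ‖nv v (φ (y + (r : ℂ) • a))‖ < A := by
    refine ⟨‖nv v (φ (y₀ + (r : ℂ) • a))‖ + 1, by positivity, ?_⟩
    have h2 : ContinuousAt (fun y : Vd (k + 1) => nv v (φ (y + (r : ℂ) • a))) y₀ := by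
      refine ContinuousAt.comp (g := nv v) (f := fun y : Vd (k + 1) => φ (y + (r : ℂ) • a)) (nv_continuousAt ((hnd y₀ r).2 h1.2)) ?_
      refine ContinuousAt.comp (g := φ) (f := fun y : Vd (k + 1) => y + (r : ℂ) • a) (hol_cont' hX hφ h1.1) ?_
      fun_prop
    exact h2.norm.eventually_lt continuousAt_const (by linarith)
  obtain ⟨ε, hε, hall⟩ := Metric.eventually_nhds_iff_ball.1 ((hcirc.and hAe).and (Metric.ball_mem_nhds y₀ hδ))
  obtain ⟨K₁, hK₁⟩ := Pool.Agent.G3.tbd hP (δ := δ) (η := 1) (H := 1) (r := 4 * r) (R := 4 * r + 1) hδ one_pos zero_le_one (by positivity) (by linarith)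
  obtain ⟨M, hM⟩ := Pool.Agent.G3.C.vcount (N := N) (z₁ := (r : ℂ)) (zc := 0) (R := 4 * r) (r := r) (C := K₁) (c := A⁻¹) (by positivity) (by
    intro z hz
    rw [mem_closedBall_zero_iff] at hz
    rw [mem_closedBall, dist_eq_norm]
    have h2 : ‖z - (r : ℂ)‖ ≤ ‖z‖ + ‖(r : ℂ)‖ := norm_sub_le _ _
    rw [Complex.norm_real, Real.norm_of_nonneg hr.le] at h2
    linarith) (inv_pos.2 hA)
  obtain ⟨G, hG, hG1, hG2⟩ := mer_core (φ := φ) (a := a) (y₀ := y₀) ha hr hε (v := v) (M := M) (fun y hy => by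
    obtain ⟨⟨hy1, hy2⟩, hy3⟩ := hall y hy
    refine ⟨F y, (hFG y).1, hF0 y, hFφ' y, fun w hw => (hnd y w).1 (hy1 w hw).2, ?_⟩
    refine hM (F y) v (hFG y).1 (hF0 y) hv1 ?_ ?_
    · have hder : ∀ w : ℂ, deriv (fun z : ℂ => y + z • a) w = a := fun w => by
        have h1 : HasDerivAt (fun z : ℂ => y + z • a) ((1 : ℂ) • a) w := ((hasDerivAt_id w).smul_const a).const_add y
        rw [h1.deriv, one_smul]
      have hcv : Pool.Agent.G3.Cv X Λ u (ball (r : ℂ) (4 * r + 1)) (F y) fun w => y + w • a :=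
        ⟨(hFG y).1.differentiableOn, ((differentiable_id.smul_const a).const_add y).differentiableOn, fun w _ => (hFG y).2.1 w, fun w _ => (hFG y).2.2 w⟩
      have hGd : y + (r : ℂ) • a ∈ Gd D δ := by
        have h2 := gd_near (w := y + (r : ℂ) • a) (r := δ) hδD (by
          rw [add_sub_add_right_eq_sub, ← dist_eq_norm]
          exact (mem_ball.1 hy3).le)
        rwa [show 2 * δ - δ = δ by ring] at h2
      have h2 := hK₁ (F y) (fun w => y + w • a) (r : ℂ) hcv (fun w _ => by rw [hder, ha]) hGd (by rw [hder, ha])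
      unfold Pool.Agent.G3.TT at h2
      linarith
    · have h2 := (hnd y r).1 (hy1 _ hrs).2
      have h3 : ‖(inner ℂ v (F y r) : ℂ)‖ ≠ 0 := norm_ne_zero_iff.2 h2
      rw [hFφ' y r, nv_pr h2, norm_smul, norm_inv] at hy2
      have h4 : 0 < ‖(inner ℂ v (F y r) : ℂ)‖ := norm_pos_iff.2 h2
      rw [inv_mul_lt_iff₀ h4] at hy2
      rw [inv_mul_le_iff₀ hA]
      rw [mul_comm] at hy2
      exact hy2.le) (fun y hy w hw => by
    obtain ⟨⟨hy1, hy2⟩, hy3⟩ := hall y hy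
    obtain ⟨Fh, hFh, hFe⟩ := hφ _ (hy1 w hw).1
    have hX0 := hFe.self_of_nhds
    have h2 : (inner ℂ v (Fh (y + w • a)) : ℂ) ≠ 0 := by
      have h3 := (hy1 w hw).2
      rw [hX0.2.1, nd_pr_ne (ne_zero hX hX0.1)] at h3
      exact h3
    have hadd : AnalyticAt ℂ (fun q : Vd (k + 1) × ℂ => q.1 + q.2 • a) (y, w) := analyticAt_fst.add (analyticAt_snd.smul analyticAt_const)
    have hFa : AnalyticAt ℂ (fun q : Vd (k + 1) × ℂ => Fh (q.1 + q.2 • a)) (y, w) := AnalyticAt.comp_of_eq (g := Fh) hFh hadd rfl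
    have hia : AnalyticAt ℂ (fun q : Vd (k + 1) × ℂ => (inner ℂ v (Fh (q.1 + q.2 • a)) : ℂ)) (y, w) := ((innerSL ℂ v).analyticAt _).comp hFa
    refine ((hia.inv h2).smul hFa).congr ?_
    have h4 : ∀ᶠ q in 𝓝 ((y, w) : Vd (k + 1) × ℂ), φ (q.1 + q.2 • a) = pr (Fh (q.1 + q.2 • a)) :=
      (hcadd.continuousAt.eventually hFe).mono fun q hq => hq.2.1
    filter_upwards [h4, hia.continuousAt.eventually_ne h2] with q hq1 hq2
    show (inner ℂ v (Fh (q.1 + q.2 • a)) : ℂ)⁻¹ • Fh (q.1 + q.2 • a) = nv v (φ (q.1 + q.2 • a))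
    rw [hq1, nv_pr hq2])
  exact ⟨G, hG, hG1, hG2⟩

end Pool.Agent.G4.E

end

section

/-!
# G4 C Fill: a family which extends to the complex parameters `ball s₀ ε` near a circle extends to the disc, for all these parameters

Here `ε` is the same in the hypothesis and in the conclusion (in `G3/C/LM`, `lmer_of_circle`, it is not; the proof below uses the same steps with a complex centre `ζ₁` in place of `s₀`).

The lifts of `EAt Φ s₀ z ε`, `dist z z₀ = r`, define `V ζ z` for `ζ ∈ ball s₀ ε`, `|dist z z₀ - r| < ε` (`V ζ z = pr (F (ζ, z))` for any of them: they agree for real `ζ`, so for all `ζ ∈ ball s₀ ε` and `z` in the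
intersection of the two balls, as in `V_eq`), with local joint lifts without zeros, and `V s z = Φ s z` for real `s`.  Let `r₁ < r < r₂`, `A` the annulus.

Say that `ζ` is good if there is a map on `ball z₀ r₂` with local lifts (`LL`) which is `V ζ` on `A`.  Real `ζ` are good.
Local step, at `ζ₁ ∈ ball s₀ ε`: choose a vector `v` and a circle `dist z z₀ = r'` in `A` with `nd v (V ζ₁ z) ≠ 0` on it (finitely many zeros in a smaller closed annulus); then `δ > 0` with `nd v (V ζ z) ≠ 0` for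
`ζ ∈ ball ζ₁ δ`, `|dist z z₀ - r'| < δ` (compactness), `f (ζ, z) = nv v (V ζ z)` is holomorphic there.  `ζ` is good iff `f (ζ, ·)` becomes holomorphic on `ball z₀ (r' + δ)` after multiplication by a nonzero polynomial
(`mero_poly`; for the converse `LL.of_zeros`, and agreement with `V ζ` on `A` by `LL.ident` on the annulus).  If uncountably many `ζ ∈ ball ζ₁ δ` are good then all are (`hankel_fill_unc`), and near `ζ₁` there
is a joint lift (`hankel_joint`, `G` on `ball ζ₁ ε' ×ˢ ball z₀ (r' + δ)`, not identically `0` on the slices).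
The set of the `ζ₁ ∈ ball s₀ ε` such that all `ζ` near `ζ₁` are good is open, nonempty (`s₀`: the real numbers are uncountable) and closed in `ball s₀ ε` (an open set is uncountable), so it is `ball s₀ ε`.
`W ζ` = the map of the definition of good.  Joint lifts: near `(ζ₁, z)`, `z ∈ A`, that of `V`; near `(ζ₁, z)`, `dist z z₀ < r' + δ`, the `G` of the local step: where `G ≠ 0`, `W = pr G` (both have local lifts on the
disc and agree on the annulus: minors).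
-/

set_option autoImplicit false

open Topology Filter Metric

namespace Pool.Agent.G4.C

open Pool.Agent.H36.BP (EN)
open Pool.Agent.H62.EF (MN pr)
open Pool.Agent.G3.C

variable {N : ℕ}

/-- differentiable functions of two variables are analytic -/
private theorem fl_an {F : ℂ × ℂ → EN N} {O : Set (ℂ × ℂ)} (hO : IsOpen O) (hF : DifferentiableOn ℂ F O) {p : ℂ × ℂ} (hp : p ∈ O) : AnalyticAt ℂ F p := by
  obtain ⟨ζ, z⟩ := p
  obtain ⟨r, hr0, hrb⟩ := Metric.isOpen_iff.1 hO _ hp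
  have hcb : ContinuousAt F (ζ, z) := (hF.differentiableAt (hO.mem_nhds hp)).continuousAt
  obtain ⟨r', hr', hM⟩ : ∃ r' > 0, ∀ p ∈ ball (ζ, z) r', ‖F p‖ ≤ ‖F (ζ, z)‖ + 1 := by
    obtain ⟨r', hr', h⟩ := Metric.continuousAt_iff.1 hcb 1 one_pos
    refine ⟨r', hr', fun p hp => ?_⟩
    have h1 := h hp
    rw [dist_eq_norm] at h1
    have h2 := norm_le_norm_add_norm_sub' (F p) (F (ζ, z))
    linarith
  obtain ⟨e, he⟩ : ∃ e, e = min r r' := ⟨_, rfl⟩
  have he0 : 0 < e := by rw [he]; exact lt_min hr0 hr'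
  have her : e ≤ r := by rw [he]; exact min_le_left _ _
  have her' : e ≤ r' := by rw [he]; exact min_le_right _ _
  have hpr : ∀ x ∈ ball ζ e, ∀ y ∈ ball z e, (x, y) ∈ ball (ζ, z) e := fun x hx y hy => by
    rw [← ball_prod_same]
    exact ⟨hx, hy⟩
  have hdf : ∀ x ∈ ball ζ e, ∀ y ∈ ball z e, DifferentiableAt ℂ F (x, y) := fun x hx y hy =>
    hF.differentiableAt (hO.mem_nhds (hrb (ball_subset_ball her (hpr x hx y hy))))
  exact Pool.Agent.TH.osgood he0 (fun x hx y hy => hM _ (ball_subset_ball her' (hpr x hx y hy)))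
    (fun y hy x hx => ((hdf x hx y hy).comp x (differentiableAt_id.prodMk (differentiableAt_const y))).differentiableWithinAt)
    (fun x hx y hy => ((hdf x hx y hy).comp y ((differentiableAt_const x).prodMk differentiableAt_id)).differentiableWithinAt)

/-- points near a circle -/
private theorem fl_near {z z₀ : ℂ} {r δ : ℝ} (hr : 0 < r) (hz : |dist z z₀ - r| < δ) (hδ : δ ≤ r) : ∃ w, dist w z₀ = r ∧ dist z w < δ := by
  have hd : 0 < dist z z₀ := by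
    have := (abs_lt.1 hz).1
    linarith
  refine ⟨z₀ + ((r / dist z z₀ : ℝ) : ℂ) * (z - z₀), ?_, ?_⟩
  · rw [dist_eq_norm, add_sub_cancel_left, norm_mul, Complex.norm_real, Real.norm_of_nonneg (by positivity), ← dist_eq_norm, div_mul_cancel₀ _ hd.ne']
  · have e : z - (z₀ + ((r / dist z z₀ : ℝ) : ℂ) * (z - z₀)) = (((dist z z₀ - r) / dist z z₀ : ℝ) : ℂ) * (z - z₀) := by
      have hdc : ((dist z z₀ : ℝ) : ℂ) ≠ 0 := by exact_mod_cast hd.ne'
      push_cast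
      field_simp
      ring
    rw [dist_eq_norm, e, norm_mul, Complex.norm_real, norm_div, Real.norm_eq_abs, Real.norm_of_nonneg hd.le, ← dist_eq_norm z z₀, div_mul_cancel₀ _ hd.ne']
    exact hz

/-- the point of the circle -/
private theorem fl_pt {z₀ : ℂ} {r : ℝ} (hr : 0 ≤ r) : dist (z₀ + (r : ℂ)) z₀ = r := by
  rw [dist_eq_norm, add_sub_cancel_left, Complex.norm_real, Real.norm_of_nonneg hr]

/-- an uncountable set -/
private theorem fl_unc {s₀ δ : ℝ} (hδ : 0 < δ) : ¬ ((fun t : ℝ => (t : ℂ)) '' ball s₀ δ).Countable := by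
  intro h
  have h1 : (ball s₀ δ).Countable := Set.countable_of_injective_of_countable_image Complex.ofReal_injective.injOn h
  have h2 := h1.dense_compl ℝ
  obtain ⟨x, hx1, hx2⟩ := h2.inter_open_nonempty _ isOpen_ball ⟨s₀, mem_ball_self hδ⟩
  exact hx2 hx1

/-- open sets are uncountable -/
private theorem fl_unc' {O : Set ℂ} (hO : IsOpen O) (hne : O.Nonempty) : ¬ O.Countable := by
  intro h
  have h2 := h.dense_compl ℝ
  obtain ⟨x, hx1, hx2⟩ := h2.inter_open_nonempty _ hO hne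
  exact hx2 hx1

private theorem fl_congr {W W' : ℂ → MN N} {z : ℂ} (h : LL W' z) (he : ∀ᶠ w in 𝓝 z, W w = W' w) : LL W z := by
  obtain ⟨G, h1, h2, h3⟩ := h
  refine ⟨G, h1, h2, ?_⟩
  filter_upwards [h3, he] with w h4 h5
  rw [h5, h4]

private theorem fl_open (z₀ : ℂ) (a b : ℝ) : IsOpen {z : ℂ | a < dist z z₀ ∧ dist z z₀ < b} := by
  have h1 : IsOpen {z : ℂ | a < dist z z₀} := isOpen_lt continuous_const (by fun_prop)
  have h2 : IsOpen {z : ℂ | dist z z₀ < b} := isOpen_lt (by fun_prop) continuous_const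
  exact h1.inter h2

/-- the extension near the circle -/
private theorem fl_V {Φ : ℝ → ℂ → MN N} {s₀ : ℝ} {z₀ : ℂ} {r ε : ℝ} (hr : 0 < r) (hε : 0 < ε) (hE : ∀ z, dist z z₀ = r → EAt Φ s₀ z ε) :
    ∃ V : ℂ → ℂ → MN N, (∀ ζ ∈ ball (s₀ : ℂ) ε, ∀ z, |dist z z₀ - r| < min ε r → ∃ G : ℂ × ℂ → EN N, AnalyticAt ℂ G (ζ, z) ∧ G (ζ, z) ≠ 0 ∧
        ∀ᶠ p in 𝓝 (ζ, z), V p.1 p.2 = pr (G p)) ∧
      ∀ s : ℝ, (s : ℂ) ∈ ball (s₀ : ℂ) ε → ∀ z, |dist z z₀ - r| < min ε r → V s z = Φ s z := by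
  classical
  have hE' : ∀ z, dist z z₀ = r → ∃ F : ℂ × ℂ → EN N, DifferentiableOn ℂ F (ball ((s₀ : ℂ), z) ε) ∧ (∀ p ∈ ball ((s₀ : ℂ), z) ε, F p ≠ 0) ∧
      ∀ (s : ℝ) (w : ℂ), ((s : ℂ), w) ∈ ball ((s₀ : ℂ), z) ε → Φ s w = pr (F (s, w)) := hE
  choose! F hF h0 hrr using hE'
  have hw : ∀ z, |dist z z₀ - r| < min ε r → ∃ w, dist w z₀ = r ∧ dist z w < ε := by
    intro z hz
    obtain ⟨w, h1, h2⟩ := fl_near hr hz (min_le_right _ _)
    exact ⟨w, h1, h2.trans_le (min_le_left _ _)⟩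
  choose! w hw1 hw2 using hw
  have hmem : ∀ {ζ z y : ℂ}, ζ ∈ ball (s₀ : ℂ) ε → dist z y < ε → (ζ, z) ∈ ball ((s₀ : ℂ), y) ε := by
    intro ζ z y h1 h2
    rw [← ball_prod_same]
    exact ⟨h1, h2⟩
  have key : ∀ ζ ∈ ball (s₀ : ℂ) ε, ∀ z y y' : ℂ, dist y z₀ = r → dist y' z₀ = r → dist z y < ε → dist z y' < ε → pr (F y (ζ, z)) = pr (F y' (ζ, z)) := by
    intro ζ hζ z y y' hy hy' hzy hzy'
    have hd : ∀ {x : ℂ}, dist x z₀ = r → dist z x < ε → ∀ i, DifferentiableOn ℂ (fun t => F x (t, z) i) (ball (s₀ : ℂ) ε) := by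
      intro x hx hzx i t ht
      have h1 : DifferentiableAt ℂ (F x) (t, z) := (hF x hx).differentiableAt (isOpen_ball.mem_nhds (hmem ht hzx))
      have h2 : DifferentiableAt ℂ (fun t => F x (t, z)) t := h1.comp t (differentiableAt_id.prodMk (differentiableAt_const z))
      exact ((EuclideanSpace.proj (𝕜 := ℂ) i : EN N →L[ℂ] ℂ).differentiableAt.comp t h2).differentiableWithinAt
    rw [pr_iff_minors (h0 y hy _ (hmem hζ hzy)) (h0 y' hy' _ (hmem hζ hzy'))]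
    intro i j
    have han : AnalyticOnNhd ℂ (fun t => F y (t, z) i * F y' (t, z) j - F y (t, z) j * F y' (t, z) i) (ball (s₀ : ℂ) ε) :=
      (((hd hy hzy i).mul (hd hy' hzy' j)).sub ((hd hy hzy j).mul (hd hy' hzy' i))).analyticOnNhd isOpen_ball
    refine han.eqOn_zero_of_preconnected_of_frequently_eq_zero (convex_ball _ _).isPreconnected (mem_ball_self hε)
      (real_freq (P := fun t => F y (t, z) i * F y' (t, z) j - F y (t, z) j * F y' (t, z) i = 0) ?_) hζ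
    have h1 : ∀ᶠ t : ℝ in 𝓝 s₀, (t : ℂ) ∈ ball (s₀ : ℂ) ε := Complex.continuous_ofReal.continuousAt.eventually_mem (ball_mem_nhds _ hε)
    filter_upwards [h1] with t ht
    have h2 := (hrr y hy t z (hmem ht hzy)).symm.trans (hrr y' hy' t z (hmem ht hzy'))
    exact (pr_iff_minors (h0 y hy _ (hmem ht hzy)) (h0 y' hy' _ (hmem ht hzy'))).1 h2 i j
  refine ⟨fun ζ z => pr (F (w z) (ζ, z)), ?_, ?_⟩
  · intro ζ hζ z hz
    have hm := hmem hζ (hw2 z hz)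
    refine ⟨F (w z), fl_an isOpen_ball (hF (w z) (hw1 z hz)) hm, h0 _ (hw1 z hz) _ hm, ?_⟩
    have h1 : ∀ᶠ p in 𝓝 (ζ, z), p ∈ ball ((s₀ : ℂ), w z) ε := isOpen_ball.mem_nhds hm
    have h2 : ∀ᶠ p : ℂ × ℂ in 𝓝 (ζ, z), |dist p.2 z₀ - r| < min ε r := by
      have hc : ContinuousAt (fun p : ℂ × ℂ => |dist p.2 z₀ - r|) (ζ, z) := by fun_prop
      exact hc.eventually_lt continuousAt_const hz
    filter_upwards [h1, h2] with p hp1 hp2
    rw [← ball_prod_same] at hp1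
    exact key p.1 hp1.1 p.2 _ _ (hw1 _ hp2) (hw1 z hz) (hw2 _ hp2) hp1.2
  · intro s hs z hz
    exact (hrr _ (hw1 z hz) s z (hmem hs (hw2 z hz))).symm

/-- the normalised vector of a value -/
private theorem fl_nv {V : ℂ → MN N} {z : ℂ} (h : LL V z) {v : EN N} (hv : nd v (V z) ≠ 0) : nv v (V z) ≠ 0 ∧ pr (nv v (V z)) = V z := by
  obtain ⟨G, -, h2, h3⟩ := h
  have h4 := h3.self_of_nhds
  rw [h4] at hv
  have h5 := (nd_pr_ne h2).1 hv
  rw [h4]
  refine ⟨?_, pr_nv h5⟩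
  rw [nv_pr h5]
  exact smul_ne_zero (inv_ne_zero h5) h2

/-- a point of the annulus near which a polynomial has no zeros -/
private theorem fl_root {z₀ : ℂ} {a b : ℝ} (ha : 0 ≤ a) (hab : a < b) {q : Polynomial ℂ} (hq : q ≠ 0) :
    ∃ z₁, a < dist z₁ z₀ ∧ dist z₁ z₀ < b ∧ ∀ᶠ z in 𝓝 z₁, q.eval z ≠ 0 ∧ a < dist z z₀ ∧ dist z z₀ < b := by
  classical
  obtain ⟨ρ, hρ, hρ'⟩ := (Set.Ioo_infinite hab).exists_notMem_finite (q.roots.toFinset.finite_toSet.image fun z => dist z z₀)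
  have hd : dist (z₀ + (ρ : ℂ)) z₀ = ρ := fl_pt (ha.trans hρ.1.le)
  have h1 : a < dist (z₀ + (ρ : ℂ)) z₀ := by rw [hd]; exact hρ.1
  have h2 : dist (z₀ + (ρ : ℂ)) z₀ < b := by rw [hd]; exact hρ.2
  have h3 : q.eval (z₀ + (ρ : ℂ)) ≠ 0 := by
    intro h4
    apply hρ'
    refine ⟨z₀ + (ρ : ℂ), ?_, hd⟩
    rw [Finset.mem_coe, Multiset.mem_toFinset, Polynomial.mem_roots hq]
    exact h4
  refine ⟨z₀ + (ρ : ℂ), h1, h2, ?_⟩
  have h4 : ∀ᶠ z in 𝓝 (z₀ + (ρ : ℂ)), q.eval z ≠ 0 := q.continuous.continuousAt.eventually_ne h3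
  have h5 : ∀ᶠ z in 𝓝 (z₀ + (ρ : ℂ)), a < dist z z₀ ∧ dist z z₀ < b := (fl_open z₀ a b).mem_nhds ⟨h1, h2⟩
  exact h4.and h5

/-- from a multiple with zeros to the map -/
private theorem fl_of {V : ℂ → MN N} {z₀ : ℂ} {c a b d : ℝ} (hc : 0 ≤ c) (hca : c ≤ a) (hab : a < b) (hbd : b ≤ d) (hV : ∀ z, c < dist z z₀ → dist z z₀ < d → LL V z) {v : EN N}
    (hv : ∀ z, a < dist z z₀ → dist z z₀ < b → nd v (V z) ≠ 0) {g : ℂ → EN N} (hg : DifferentiableOn ℂ g (ball z₀ b)) {q : Polynomial ℂ} (hq : q ≠ 0)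
    (hgq : ∀ z, a < dist z z₀ → dist z z₀ < b → g z = q.eval z • nv v (V z)) :
    (∃ z₁, a < dist z₁ z₀ ∧ dist z₁ z₀ < b ∧ g z₁ ≠ 0) ∧
    ∃ W : ℂ → MN N, (∀ z ∈ ball z₀ d, LL W z) ∧ (∀ z, c < dist z z₀ → dist z z₀ < d → W z = V z) ∧ ∀ z ∈ ball z₀ b, g z ≠ 0 → W z = pr (g z) := by
  classical
  obtain ⟨z₁, hz₁a, hz₁b, hz₁⟩ := fl_root (z₀ := z₀) (hc.trans hca) hab hq
  have hgne : ∀ z, a < dist z z₀ → dist z z₀ < b → q.eval z ≠ 0 → g z ≠ 0 ∧ pr (g z) = V z := by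
    intro z h1 h2 h3
    obtain ⟨h4, h5⟩ := fl_nv (hV z (hca.trans_lt h1) (h2.trans_le hbd)) (hv z h1 h2)
    rw [hgq z h1 h2]
    exact ⟨smul_ne_zero h3 h4, by rw [Pool.Agent.H62.EF.pr_smul _ h3, h5]⟩
  have hg₁ := (hgne z₁ hz₁a hz₁b hz₁.self_of_nhds.1).1
  refine ⟨⟨z₁, hz₁a, hz₁b, hg₁⟩, ?_⟩
  obtain ⟨W', hW', hW'g⟩ := LL.of_zeros isOpen_ball (convex_ball z₀ b).isPreconnected hg (mem_ball.2 hz₁b) hg₁
  have hid := LL.ident (W := W') (W' := V) (fl_open z₀ c b) (isPreconnected_annulus z₀ hc) (fun z hz => hW' z (mem_ball.2 hz.2))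
    (fun z hz => hV z hz.1 (hz.2.trans_le hbd)) (z₁ := z₁) ⟨hca.trans_lt hz₁a, hz₁b⟩ (by
    filter_upwards [hz₁] with z hz
    obtain ⟨h1, h2⟩ := hgne z hz.2.1 hz.2.2 hz.1
    rw [hW'g z (mem_ball.2 hz.2.2) h1, h2])
  have hWV : ∀ z, c < dist z z₀ → (if dist z z₀ < b then W' z else V z) = V z := by
    intro z hz
    split_ifs with h1
    · exact hid z ⟨hz, h1⟩
    · rfl
  refine ⟨fun z => if dist z z₀ < b then W' z else V z, ?_, ?_, ?_⟩
  · intro z hz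
    by_cases h1 : dist z z₀ < b
    · refine fl_congr (hW' z (mem_ball.2 h1)) ?_
      filter_upwards [isOpen_ball.mem_nhds (mem_ball.2 h1)] with w hw
      exact if_pos (mem_ball.1 hw)
    · have h2 : c < dist z z₀ := (hca.trans_lt hab).trans_le (not_lt.1 h1)
      refine fl_congr (hV z h2 (mem_ball.1 hz)) ?_
      have hc1 : ContinuousAt (fun w => dist w z₀) z := by fun_prop
      filter_upwards [continuousAt_const.eventually_lt hc1 h2] with w hw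
      exact hWV w hw
  · intro z h1 _
    exact hWV z h1
  · intro z hz hne
    have h1 : (if dist z z₀ < b then W' z else V z) = W' z := if_pos (mem_ball.1 hz)
    rw [← hW'g z hz hne]
    exact h1

/-- from the map to a multiple with zeros -/
private theorem fl_to {W : ℂ → MN N} {z₀ : ℂ} {a b d : ℝ} (ha : 0 ≤ a) (hab : a < b) (hbd : b < d) (hW : ∀ z ∈ ball z₀ d, LL W z) {v : EN N}
    (hv : ∀ z, a < dist z z₀ → dist z z₀ < b → nd v (W z) ≠ 0) :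
    ∃ q : Polynomial ℂ, q ≠ 0 ∧ ∃ g : ℂ → Fin (N + 1) → ℂ, DifferentiableOn ℂ g (ball z₀ b) ∧
      ∀ z, a < dist z z₀ → dist z z₀ < b → g z = q.eval z • (fun i => nv v (W z) i) := by
  classical
  obtain ⟨ρ, hρa, hρb⟩ := exists_between hab
  have hd : dist (z₀ + (ρ : ℂ)) z₀ = ρ := fl_pt (ha.trans hρa.le)
  have hiso := LL.nonvan isOpen_ball (convex_ball z₀ d).isPreconnected hW (v := v) (z₁ := z₀ + (ρ : ℂ)) (by
    rw [mem_ball, hd]
    exact hρb.trans hbd) (hv _ (by rw [hd]; exact hρa) (by rw [hd]; exact hρb))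
  have hsub : closedBall z₀ b ⊆ ball z₀ d := closedBall_subset_ball hbd
  have hfin := finite_of_isolated (isCompact_closedBall z₀ b) (P := fun z => nd v (W z) = 0) (fun z hz => hiso z (hsub hz))
  -- local descriptions
  have hinn : ∀ {G : ℂ → EN N} {z : ℂ}, AnalyticAt ℂ G z → AnalyticAt ℂ (fun w => (inner ℂ v (G w) : ℂ)) z := fun hG =>
    ((innerSL ℂ v).analyticAt _).comp hG
  have hco : ∀ {G : ℂ → EN N} {z : ℂ}, AnalyticAt ℂ G z → ∀ i, AnalyticAt ℂ (fun w => G w i) z := fun hG i =>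
    ((EuclideanSpace.proj (𝕜 := ℂ) i : EN N →L[ℂ] ℂ).analyticAt _).comp hG
  obtain ⟨q, hq0, g, hg, hgq⟩ := mero_poly (E := Fin (N + 1) → ℂ) (U := ball z₀ b) isOpen_ball hfin.toFinset (φ := fun z i => nv v (W z) i) (by
    intro z hz hzZ
    have h1 : nd v (W z) ≠ 0 := by
      intro h2
      apply hzZ
      rw [Set.Finite.mem_toFinset]
      exact ⟨ball_subset_closedBall hz, h2⟩
    obtain ⟨G, hG, hG0, hGe⟩ := hW z (hsub (ball_subset_closedBall hz))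
    have h2 := hGe.self_of_nhds
    rw [h2] at h1
    have h3 := (nd_pr_ne hG0).1 h1
    rw [differentiableAt_pi]
    intro i
    have h4 : DifferentiableAt ℂ (fun w => (inner ℂ v (G w) : ℂ)⁻¹ * G w i) z := (((hinn hG).inv h3).mul (hco hG i)).differentiableAt
    refine h4.congr_of_eventuallyEq ?_
    filter_upwards [hGe, (hinn hG).continuousAt.eventually_ne h3] with w h5 h6
    rw [h5, nv_pr h6]
    rfl) (by
    intro z hz hzU
    obtain ⟨G, hG, hG0, hGe⟩ := hW z (hsub (ball_subset_closedBall hzU))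
    have hev0 : ∀ᶠ w in 𝓝[≠] z, (inner ℂ v (G w) : ℂ) ≠ 0 := by
      filter_upwards [hiso z (hsub (ball_subset_closedBall hzU)), hGe.filter_mono nhdsWithin_le_nhds,
        (hG.continuousAt.eventually_ne hG0).filter_mono nhdsWithin_le_nhds] with w h5 h6 h7
      rw [h6] at h5
      exact (nd_pr_ne h7).1 h5
    have hne : ¬ ∀ᶠ w in 𝓝 z, (inner ℂ v (G w) : ℂ) = 0 := by
      intro h2
      obtain ⟨w, hw1, hw2⟩ := (hev0.and (h2.filter_mono nhdsWithin_le_nhds)).exists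
      exact hw1 hw2
    obtain ⟨n, e, he, he0, hev⟩ := ((hinn hG).exists_eventuallyEq_pow_smul_nonzero_iff).2 hne
    refine ⟨n, fun w i => (e w)⁻¹ * G w i, ?_, ?_⟩
    · rw [analyticAt_pi_iff]
      intro i
      exact (he.inv he0).mul (hco hG i)
    · filter_upwards [hev.filter_mono nhdsWithin_le_nhds, self_mem_nhdsWithin, (he.continuousAt.eventually_ne he0).filter_mono nhdsWithin_le_nhds, hev0,
        hGe.filter_mono nhdsWithin_le_nhds] with w hw1 hw2 hw3 hw4 hw5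
      have h3 : (w - z) ^ n ≠ 0 := pow_ne_zero _ (sub_ne_zero.2 hw2)
      funext i
      simp only [Pi.smul_apply, smul_eq_mul]
      rw [hw5, nv_pr hw4]
      simp only [PiLp.smul_apply, smul_eq_mul]
      rw [hw1, smul_eq_mul]
      field_simp)
  refine ⟨q, hq0, g, hg, fun z hz1 hz2 => ?_⟩
  have hzZ : z ∉ hfin.toFinset := by
    rw [Set.Finite.mem_toFinset]
    exact fun h2 => hv z hz1 hz2 h2.2
  exact hgq z (mem_ball.2 hz2) hzZ

/-- the good parameters -/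
private def Gdp (V : ℂ → ℂ → MN N) (z₀ : ℂ) (c d : ℝ) (ζ : ℂ) : Prop :=
  ∃ W : ℂ → MN N, (∀ z ∈ ball z₀ d, LL W z) ∧ ∀ z, c < dist z z₀ → dist z z₀ < d → W z = V ζ z

/-- two maps with local lifts which agree on the annulus -/
private theorem fl_uniq {W W' V : ℂ → MN N} {z₀ : ℂ} {c d : ℝ} (hc : 0 ≤ c) (hcd : c < d) (hW : ∀ z ∈ ball z₀ d, LL W z) (hW' : ∀ z ∈ ball z₀ d, LL W' z)
    (h : ∀ z, c < dist z z₀ → dist z z₀ < d → W z = V z) (h' : ∀ z, c < dist z z₀ → dist z z₀ < d → W' z = V z) : ∀ z ∈ ball z₀ d, W z = W' z := by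
  obtain ⟨z₁, h1, h2, h3⟩ := fl_root (z₀ := z₀) hc hcd (q := 1) one_ne_zero
  refine LL.ident isOpen_ball (convex_ball z₀ d).isPreconnected hW hW' (mem_ball.2 h2) ?_
  filter_upwards [h3] with z hz
  rw [h z hz.2.1 hz.2.2, h' z hz.2.1 hz.2.2]

private theorem fl_nvd {G : ℂ × ℂ → EN N} {v : EN N} {p : ℂ × ℂ} (hG : AnalyticAt ℂ G p) (hv : (inner ℂ v (G p) : ℂ) ≠ 0) :
    DifferentiableAt ℂ (fun q => (inner ℂ v (G q) : ℂ)⁻¹ • G q) p := by
  have h1 : DifferentiableAt ℂ (fun q => (inner ℂ v (G q) : ℂ)) p := (innerSL ℂ v).differentiableAt.comp p hG.differentiableAt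
  exact (h1.inv hv).smul hG.differentiableAt

/-- the local step -/
private theorem fl_step {V : ℂ → ℂ → MN N} {s₀ z₀ : ℂ} {c d ε : ℝ} (hc : 0 ≤ c) (hcd : c < d)
    (hV : ∀ ζ ∈ ball s₀ ε, ∀ z, c < dist z z₀ → dist z z₀ < d → ∃ G : ℂ × ℂ → EN N, AnalyticAt ℂ G (ζ, z) ∧ G (ζ, z) ≠ 0 ∧ ∀ᶠ p in 𝓝 (ζ, z), V p.1 p.2 = pr (G p))
    {ζ₁ : ℂ} (hζ₁ : ζ₁ ∈ ball s₀ ε) :
    ∃ δ : ℝ, 0 < δ ∧ (¬ {ζ | ζ ∈ ball ζ₁ δ ∧ Gdp V z₀ c d ζ}.Countable → (∀ ζ ∈ ball ζ₁ δ, Gdp V z₀ c d ζ) ∧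
      ∀ z, dist z z₀ ≤ c → ∃ G : ℂ × ℂ → EN N, AnalyticAt ℂ G (ζ₁, z) ∧ (¬ ∀ᶠ w in 𝓝 z, G (ζ₁, w) = 0) ∧
        ∀ᶠ p in 𝓝 (ζ₁, z), G p ≠ 0 → ∀ W : ℂ → MN N, (∀ w ∈ ball z₀ d, LL W w) → (∀ w, c < dist w z₀ → dist w z₀ < d → W w = V p.1 w) → W p.2 = pr (G p)) := by
  classical
  have hVL : ∀ ζ ∈ ball s₀ ε, ∀ z, c < dist z z₀ → dist z z₀ < d → LL (V ζ) z := by
    intro ζ hζ z h1 h2
    obtain ⟨G, hG, hG0, hGe⟩ := hV ζ hζ z h1 h2
    have hcw : ContinuousAt (fun w : ℂ => (ζ, w)) z := by fun_prop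
    refine ⟨fun w => G (ζ, w), AnalyticAt.fun_comp hG (analyticAt_const.prod analyticAt_id), hG0, ?_⟩
    filter_upwards [hcw.eventually hGe] with w hw
    exact hw
  -- the vector
  obtain ⟨ρ, hρc, hρd⟩ := exists_between hcd
  have hdρ : dist (z₀ + (ρ : ℂ)) z₀ = ρ := fl_pt (hc.trans hρc.le)
  obtain ⟨G₁, hG₁, hG₁0, hG₁e⟩ := hV ζ₁ hζ₁ (z₀ + (ρ : ℂ)) (by rw [hdρ]; exact hρc) (by rw [hdρ]; exact hρd)
  obtain ⟨v, hv⟩ : ∃ v, v = G₁ (ζ₁, z₀ + (ρ : ℂ)) := ⟨_, rfl⟩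
  have hiso := LL.nonvan (fl_open z₀ c d) (isPreconnected_annulus z₀ hc) (fun z hz => hVL ζ₁ hζ₁ z hz.1 hz.2) (v := v) (z₁ := z₀ + (ρ : ℂ))
    ⟨by rw [hdρ]; exact hρc, by rw [hdρ]; exact hρd⟩ (by
    have h1 := hG₁e.self_of_nhds
    simp only at h1
    rw [h1, nd_pr_ne hG₁0, hv]
    exact inner_self_ne_zero.2 hG₁0)
  -- the circle
  obtain ⟨c', hc'1, hc'2⟩ := exists_between hρc
  obtain ⟨d', hd'1, hd'2⟩ := exists_between hρd
  have hK : IsCompact {z : ℂ | c' ≤ dist z z₀ ∧ dist z z₀ ≤ d'} := by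
    refine (isCompact_closedBall z₀ d').of_isClosed_subset ?_ fun z hz => mem_closedBall.2 hz.2
    have h1 : IsClosed {z : ℂ | c' ≤ dist z z₀} := isClosed_le continuous_const (by fun_prop)
    have h2 : IsClosed {z : ℂ | dist z z₀ ≤ d'} := isClosed_le (by fun_prop) continuous_const
    exact h1.inter h2
  have hfin := finite_of_isolated hK (P := fun z => nd v (V ζ₁ z) = 0) (fun z hz => hiso z ⟨hc'1.trans_le hz.1, hz.2.trans_lt hd'2⟩)
  obtain ⟨r', hr'1, hr'2⟩ := (Set.Ioo_infinite (hc'2.trans hd'1)).exists_notMem_finite (hfin.image fun z => dist z z₀)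
  have hcr : c < r' := hc'1.trans hr'1.1
  have hrd : r' < d := hr'1.2.trans hd'2
  have hr'0 : 0 < r' := hc.trans_lt hcr
  have hsph : ∀ z, dist z z₀ = r' → nd v (V ζ₁ z) ≠ 0 := by
    intro z hz h1
    refine hr'2 ⟨z, ⟨⟨?_, ?_⟩, h1⟩, hz⟩
    · rw [hz]; exact hr'1.1.le
    · rw [hz]; exact hr'1.2.le
  -- joint nonvanishing near the circle
  obtain ⟨O', hO'⟩ : ∃ O' : Set (ℂ × ℂ), O' = {p | ∀ᶠ q in 𝓝 p, q.1 ∈ ball s₀ ε ∧ (c < dist q.2 z₀ ∧ dist q.2 z₀ < d) ∧ nd v (V q.1 q.2) ≠ 0} := ⟨_, rfl⟩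
  have hO'o : IsOpen O' := by
    rw [hO']
    exact isOpen_setOfPred_eventually_nhds
  have hKO : ({ζ₁} : Set ℂ) ×ˢ sphere z₀ r' ⊆ O' := by
    rintro ⟨ζ, z⟩ ⟨hζ, hz⟩
    simp only [Set.mem_singleton_iff] at hζ
    subst hζ
    have hz' : dist z z₀ = r' := hz
    have hz1 : c < dist z z₀ := by rw [hz']; exact hcr
    have hz2 : dist z z₀ < d := by rw [hz']; exact hrd
    obtain ⟨G, hG, hG0, hGev⟩ := hV ζ hζ₁ z hz1 hz2
    have hnd : nd v (pr (G (ζ, z))) ≠ 0 := by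
      have h1 := hGev.self_of_nhds
      simp only at h1
      rw [← h1]
      exact hsph z hz'
    have hcc : ContinuousAt (fun p => nd v (pr (G p))) (ζ, z) :=
      ContinuousAt.comp (g := nd v) (nd_cont v).continuousAt (ContinuousAt.comp (g := pr) (Pool.Agent.H62.EF.continuousAt_pr hG0) hG.continuousAt)
    rw [hO']
    have h2 : ∀ᶠ p : ℂ × ℂ in 𝓝 (ζ, z), p.1 ∈ ball s₀ ε := by
      have hc1 : ContinuousAt (fun p : ℂ × ℂ => p.1) (ζ, z) := by fun_prop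
      exact hc1.eventually_mem (isOpen_ball.mem_nhds hζ₁)
    have h3 : ∀ᶠ p : ℂ × ℂ in 𝓝 (ζ, z), c < dist p.2 z₀ ∧ dist p.2 z₀ < d := by
      have hc1 : ContinuousAt (fun p : ℂ × ℂ => p.2) (ζ, z) := by fun_prop
      exact hc1.eventually_mem ((fl_open z₀ c d).mem_nhds ⟨hz1, hz2⟩)
    filter_upwards [h2, h3, hGev, hcc.eventually_ne hnd] with p hp1 hp2 hp3 hp4
    refine ⟨hp1, hp2, ?_⟩
    rw [hp3]
    exact hp4
  obtain ⟨δ₁, hδ₁, hthick⟩ := (isCompact_singleton.prod (isCompact_sphere z₀ r')).exists_thickening_subset_open hO'o hKO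
  obtain ⟨δ, hδ, hδδ₁, hδ1, hδ2, hδ3⟩ : ∃ δ : ℝ, 0 < δ ∧ δ ≤ δ₁ ∧ δ ≤ r' / 2 ∧ δ ≤ (d - r') / 2 ∧ δ ≤ r' - c := by
    refine ⟨min δ₁ (min (r' / 2) (min ((d - r') / 2) (r' - c))), ?_, min_le_left _ _, (min_le_right _ _).trans (min_le_left _ _),
      (min_le_right _ _).trans ((min_le_right _ _).trans (min_le_left _ _)), (min_le_right _ _).trans ((min_le_right _ _).trans (min_le_right _ _))⟩
    exact lt_min hδ₁ (lt_min (by linarith) (lt_min (by linarith) (by linarith)))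
  have hmem : ∀ ζ ∈ ball ζ₁ δ, ∀ z, |dist z z₀ - r'| < δ → (ζ, z) ∈ O' := by
    intro ζ hζ z hz
    obtain ⟨w, hw, hzw⟩ := fl_near hr'0 hz (by linarith)
    apply hthick
    rw [mem_thickening_iff]
    refine ⟨(ζ₁, w), ⟨rfl, hw⟩, ?_⟩
    rw [Prod.dist_eq]
    exact max_lt ((mem_ball.1 hζ).trans_le hδδ₁) (hzw.trans_le hδδ₁)
  obtain ⟨a, ha⟩ : ∃ a, a = r' - δ := ⟨_, rfl⟩
  obtain ⟨b, hb⟩ : ∃ b, b = r' + δ := ⟨_, rfl⟩
  have ha0 : 0 < a := by rw [ha]; linarith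
  have hca : c ≤ a := by rw [ha]; linarith
  have hab : a < b := by rw [ha, hb]; linarith
  have hbd : b < d := by rw [hb]; linarith
  have hmem' : ∀ ζ ∈ ball ζ₁ δ, ∀ z, a < dist z z₀ → dist z z₀ < b →
      ∀ᶠ q in 𝓝 (ζ, z), q.1 ∈ ball s₀ ε ∧ (c < dist q.2 z₀ ∧ dist q.2 z₀ < d) ∧ nd v (V q.1 q.2) ≠ 0 := by
    intro ζ hζ z h1 h2
    have h3 : (ζ, z) ∈ O' := by
      apply hmem ζ hζ z
      rw [ha] at h1
      rw [hb] at h2
      rw [abs_lt]
      constructor <;> linarith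
    rw [hO'] at h3
    exact h3
  obtain ⟨z₁, hz₁a, hz₁b, -⟩ := fl_root (z₀ := z₀) ha0.le hab (q := 1) one_ne_zero
  have hsub : ∀ ζ ∈ ball ζ₁ δ, ζ ∈ ball s₀ ε := fun ζ hζ => (hmem' ζ hζ z₁ hz₁a hz₁b).self_of_nhds.1
  have hndv : ∀ ζ ∈ ball ζ₁ δ, ∀ z, a < dist z z₀ → dist z z₀ < b → nd v (V ζ z) ≠ 0 := fun ζ hζ z h1 h2 => (hmem' ζ hζ z h1 h2).self_of_nhds.2.2
  -- the functions on the annulus
  obtain ⟨f, hf⟩ : ∃ f : ℂ × ℂ → Fin (N + 1) → ℂ, ∀ p i, f p i = nv v (V p.1 p.2) i := ⟨fun p i => nv v (V p.1 p.2) i, fun _ _ => rfl⟩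
  have hfd : DifferentiableOn ℂ f (ball ζ₁ δ ×ˢ {z | a < dist z z₀ ∧ dist z z₀ < b}) := by
    rintro ⟨ζ, z⟩ ⟨hζ, hz1, hz2⟩
    have h1 := hmem' ζ hζ z hz1 hz2
    obtain ⟨G, hG, hG0, hGev⟩ := hV ζ (hsub ζ hζ) z (hca.trans_lt hz1) (hz2.trans hbd)
    have h2 : DifferentiableAt ℂ (fun q => (inner ℂ v (G q) : ℂ)⁻¹ • G q) (ζ, z) := by
      refine fl_nvd hG ?_
      have h3 := hndv ζ hζ z hz1 hz2
      have h4 := hGev.self_of_nhds
      simp only at h4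
      rw [h4] at h3
      exact (nd_pr_ne hG0).1 h3
    refine DifferentiableAt.differentiableWithinAt ?_
    rw [differentiableAt_pi]
    intro i
    have h3 : DifferentiableAt ℂ (fun q => ((inner ℂ v (G q) : ℂ)⁻¹ • G q) i) (ζ, z) :=
      (EuclideanSpace.proj (𝕜 := ℂ) i : EN N →L[ℂ] ℂ).differentiableAt.comp (ζ, z) h2
    refine h3.congr_of_eventuallyEq ?_
    filter_upwards [h1, hGev, hG.continuousAt.eventually_ne hG0] with q hq1 hq2 hq3
    have h5 := hq1.2.2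
    rw [hq2] at h5
    rw [hf, hq2, nv_pr ((nd_pr_ne hq3).1 h5)]
  refine ⟨δ, hδ, fun hunc => ?_⟩
  have hq : ∀ ζ ∈ {ζ | ζ ∈ ball ζ₁ δ ∧ Gdp V z₀ c d ζ}, ∃ q : Polynomial ℂ, q ≠ 0 ∧ ∃ g : ℂ → Fin (N + 1) → ℂ, DifferentiableOn ℂ g (ball z₀ b) ∧
      ∀ z, a < dist z z₀ → dist z z₀ < b → g z = q.eval z • f (ζ, z) := by
    rintro ζ ⟨hζ, W, hW, hWV⟩
    have hWV' : ∀ z, a < dist z z₀ → dist z z₀ < b → W z = V ζ z := fun z h1 h2 => hWV z (hca.trans_lt h1) (h2.trans hbd)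
    obtain ⟨q, hq0, g, hg, hgq⟩ := fl_to ha0.le hab hbd hW (v := v) (fun z h1 h2 => by
      rw [hWV' z h1 h2]
      exact hndv ζ hζ z h1 h2)
    refine ⟨q, hq0, g, hg, fun z h1 h2 => ?_⟩
    rw [hgq z h1 h2, hWV' z h1 h2]
    congr 1
    funext i
    rw [hf]
  have hTsub : {ζ | ζ ∈ ball ζ₁ δ ∧ Gdp V z₀ c d ζ} ⊆ ball ζ₁ δ := fun ζ hζ => hζ.1
  refine ⟨?_, ?_⟩
  · intro ζ hζ
    obtain ⟨q, hq0, g, hg, hgq⟩ := hankel_fill_unc hδ ha0 hab hfd hTsub hunc hq ζ hζ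
    obtain ⟨F, hF⟩ : ∃ F : ℂ → EN N, ∀ z i, F z i = g z i := ⟨fun z => WithLp.toLp 2 (g z), fun _ _ => rfl⟩
    have hFd : DifferentiableOn ℂ F (ball z₀ b) := by
      rw [differentiableOn_piLp]
      intro i
      simp only [hF]
      exact (differentiableOn_pi.1 hg) i
    obtain ⟨-, W, hW, hWV, -⟩ := fl_of hc hca hab hbd.le (hVL ζ (hsub ζ hζ)) (hndv ζ hζ) hFd hq0 (fun z h1 h2 => by
      ext i
      rw [hF, hgq z h1 h2, Pi.smul_apply, hf]
      rfl)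
    exact ⟨W, hW, hWV⟩
  · obtain ⟨e, he, heδ, Q, G, -, hQp, hG, hGQ⟩ := hankel_joint hδ ha0 hab hfd hTsub hunc hq
    obtain ⟨F, hF⟩ : ∃ F : ℂ × ℂ → EN N, ∀ p i, F p i = G p i := ⟨fun p => WithLp.toLp 2 (G p), fun _ _ => rfl⟩
    have hFd : DifferentiableOn ℂ F (ball ζ₁ e ×ˢ ball z₀ b) := by
      rw [differentiableOn_piLp]
      intro i
      simp only [hF]
      exact (differentiableOn_pi.1 hG) i
    have hopen : IsOpen (ball ζ₁ e ×ˢ ball z₀ b) := isOpen_ball.prod isOpen_ball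
    have hFz : ∀ ζ ∈ ball ζ₁ e, DifferentiableOn ℂ (fun z => F (ζ, z)) (ball z₀ b) := by
      intro ζ hζ z hz
      have h1 : DifferentiableAt ℂ F (ζ, z) := hFd.differentiableAt (hopen.mem_nhds ⟨hζ, hz⟩)
      exact (h1.comp z ((differentiableAt_const ζ).prodMk differentiableAt_id)).differentiableWithinAt
    have hof : ∀ ζ ∈ ball ζ₁ e, (∃ z₁, a < dist z₁ z₀ ∧ dist z₁ z₀ < b ∧ F (ζ, z₁) ≠ 0) ∧
        ∃ W : ℂ → MN N, (∀ z ∈ ball z₀ d, LL W z) ∧ (∀ z, c < dist z z₀ → dist z z₀ < d → W z = V ζ z) ∧ ∀ z ∈ ball z₀ b, F (ζ, z) ≠ 0 → W z = pr (F (ζ, z)) := by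
      intro ζ hζ
      have hζδ := ball_subset_ball heδ hζ
      obtain ⟨q, hq0, hqe⟩ := hQp ζ hζ
      refine fl_of hc hca hab hbd.le (hVL ζ (hsub ζ hζδ)) (hndv ζ hζδ) (hFz ζ hζ) hq0 (fun z h1 h2 => ?_)
      ext i
      rw [hF, hGQ ζ hζ z h1 h2, Pi.smul_apply, hf, hqe]
      rfl
    intro z hz
    have hzb : z ∈ ball z₀ b := mem_ball.2 (hz.trans_lt (hca.trans_lt hab))
    refine ⟨F, fl_an hopen hFd ⟨mem_ball_self he, hzb⟩, ?_, ?_⟩
    · intro hcon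
      obtain ⟨⟨z₂, -, hz₂, hne⟩, -⟩ := hof ζ₁ (mem_ball_self he)
      have han : AnalyticOnNhd ℂ (fun z => F (ζ₁, z)) (ball z₀ b) := (hFz ζ₁ (mem_ball_self he)).analyticOnNhd isOpen_ball
      exact hne (han.eqOn_zero_of_preconnected_of_eventuallyEq_zero (convex_ball _ _).isPreconnected hzb hcon (mem_ball.2 hz₂))
    · have h1 : ∀ᶠ p in 𝓝 (ζ₁, z), p ∈ ball ζ₁ e ×ˢ ball z₀ b := hopen.mem_nhds ⟨mem_ball_self he, hzb⟩
      filter_upwards [h1] with p hp hne W hW hWV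
      obtain ⟨-, W', hW', hW'V, hW'F⟩ := hof p.1 hp.1
      rw [fl_uniq hc hcd hW hW' hWV hW'V p.2 (ball_subset_ball hbd.le hp.2)]
      exact hW'F p.2 hp.2 hne

theorem fill {Φ : ℝ → ℂ → MN N} (hl : ∀ s : ℝ, ∃ F : ℂ → EN N, Differentiable ℂ F ∧ (∀ z, F z ≠ 0) ∧ ∀ z, Φ s z = pr (F z)) {s₀ : ℝ} {z₀ : ℂ} {r ε : ℝ} (hr : 0 < r) (hε : 0 < ε)
    (hE : ∀ z, dist z z₀ = r → EAt Φ s₀ z ε) :
    ∃ (W : ℂ → ℂ → MN N) (r₂ : ℝ), r < r₂ ∧ FDq W (ball (s₀ : ℂ) ε ×ˢ ball z₀ r₂) ∧ ∀ s : ℝ, (s : ℂ) ∈ ball (s₀ : ℂ) ε → ∀ z ∈ ball z₀ r₂, W s z = Φ s z := by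
  classical
  obtain ⟨V, hV, hVr⟩ := fl_V hr hε hE
  obtain ⟨c, hc⟩ : ∃ c, c = r - min ε r := ⟨_, rfl⟩
  obtain ⟨d, hd⟩ : ∃ d, d = r + min ε r := ⟨_, rfl⟩
  have hm0 : 0 < min ε r := lt_min hε hr
  have hmr : min ε r ≤ r := min_le_right _ _
  have hc0 : 0 ≤ c := by rw [hc]; linarith
  have hcd : c < d := by rw [hc, hd]; linarith
  have hrd : r < d := by rw [hd]; linarith
  have habs : ∀ z, c < dist z z₀ → dist z z₀ < d → |dist z z₀ - r| < min ε r := by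
    intro z h1 h2
    rw [hc] at h1
    rw [hd] at h2
    rw [abs_lt]
    constructor <;> linarith
  have hV' : ∀ ζ ∈ ball (s₀ : ℂ) ε, ∀ z, c < dist z z₀ → dist z z₀ < d →
      ∃ G : ℂ × ℂ → EN N, AnalyticAt ℂ G (ζ, z) ∧ G (ζ, z) ≠ 0 ∧ ∀ᶠ p in 𝓝 (ζ, z), V p.1 p.2 = pr (G p) := fun ζ hζ z h1 h2 => hV ζ hζ z (habs z h1 h2)
  have hΦL : ∀ (s : ℝ) (z : ℂ), LL (Φ s) z := by
    intro s z
    obtain ⟨F, hF, hF0, hFΦ⟩ := hl s
    exact ⟨F, hF.analyticAt z, hF0 z, Eventually.of_forall hFΦ⟩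
  have hreal : ∀ s : ℝ, (s : ℂ) ∈ ball (s₀ : ℂ) ε → Gdp V z₀ c d s := by
    intro s hs
    exact ⟨Φ s, fun z _ => hΦL s z, fun z h1 h2 => (hVr s hs z (habs z h1 h2)).symm⟩
  have hcl : ∀ ζ₁ ∈ ball (s₀ : ℂ) ε, (∀ δ : ℝ, 0 < δ → ¬ {ζ | ζ ∈ ball ζ₁ δ ∧ Gdp V z₀ c d ζ}.Countable) → ∀ᶠ ζ in 𝓝 ζ₁, Gdp V z₀ c d ζ := by
    intro ζ₁ hζ₁ h
    obtain ⟨δ, hδ, h1⟩ := fl_step hc0 hcd hV' hζ₁
    filter_upwards [ball_mem_nhds ζ₁ hδ] with ζ hζ
    exact (h1 (h δ hδ)).1 ζ hζ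
  have hsub : ball (s₀ : ℂ) ε ⊆ {ζ | ∀ᶠ ζ' in 𝓝 ζ, Gdp V z₀ c d ζ'} := by
    refine (convex_ball (s₀ : ℂ) ε).isPreconnected.subset_of_closure_inter_subset isOpen_setOfPred_eventually_nhds ⟨(s₀ : ℂ), mem_ball_self hε, ?_⟩ ?_
    · refine hcl _ (mem_ball_self hε) fun δ hδ h => ?_
      refine fl_unc (s₀ := s₀) (δ := min δ ε) (lt_min hδ hε) (h.mono ?_)
      rintro _ ⟨t, ht, rfl⟩
      have h2 : dist (t : ℂ) (s₀ : ℂ) < min δ ε := by
        rw [dist_eq_norm, ← Complex.ofReal_sub, Complex.norm_real, ← dist_eq_norm]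
        exact ht
      exact ⟨mem_ball.2 (h2.trans_le (min_le_left _ _)), hreal t (mem_ball.2 (h2.trans_le (min_le_right _ _)))⟩
    · rintro ζ₁ ⟨hζ₁, hζ₁b⟩
      refine hcl ζ₁ hζ₁b fun δ hδ h => ?_
      obtain ⟨ζ₂, hζ₂, hζ₂'⟩ := mem_closure_iff.1 hζ₁ (ball ζ₁ δ) isOpen_ball (mem_ball_self hδ)
      have hζ₂'' : ∀ᶠ ζ' in 𝓝 ζ₂, Gdp V z₀ c d ζ' := hζ₂'
      obtain ⟨O, hO, hOo, hζO⟩ := _root_.mem_nhds_iff.1 (hζ₂''.and (isOpen_ball.mem_nhds hζ₂ : ∀ᶠ ζ' in 𝓝 ζ₂, ζ' ∈ ball ζ₁ δ))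
      exact fl_unc' hOo ⟨ζ₂, hζO⟩ (h.mono fun ζ hζ => (⟨(hO hζ).2, (hO hζ).1⟩ : ζ ∈ ball ζ₁ δ ∧ Gdp V z₀ c d ζ))
  have hgood : ∀ ζ, ∃ W : ℂ → MN N, ζ ∈ ball (s₀ : ℂ) ε → (∀ z ∈ ball z₀ d, LL W z) ∧ ∀ z, c < dist z z₀ → dist z z₀ < d → W z = V ζ z := by
    intro ζ
    by_cases h : ζ ∈ ball (s₀ : ℂ) ε
    · obtain ⟨W, h1, h2⟩ := (hsub h).self_of_nhds
      exact ⟨W, fun _ => ⟨h1, h2⟩⟩
    · exact ⟨0, fun h' => absurd h' h⟩
  choose W hW using hgood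
  refine ⟨W, d, hrd, ?_, ?_⟩
  · rintro ζ z ⟨hζ, hz⟩
    simp only at hζ hz
    refine ⟨(hW ζ hζ).1 z hz, ?_⟩
    by_cases h1 : c < dist z z₀
    · obtain ⟨G, hG, hG0, hGe⟩ := hV' ζ hζ z h1 (mem_ball.1 hz)
      refine ⟨G, hG, ?_, ?_⟩
      · intro h2
        exact hG0 h2.self_of_nhds
      · have h2 : ∀ᶠ p : ℂ × ℂ in 𝓝 (ζ, z), p.1 ∈ ball (s₀ : ℂ) ε := by
          have hc1 : ContinuousAt (fun p : ℂ × ℂ => p.1) (ζ, z) := by fun_prop
          exact hc1.eventually_mem (isOpen_ball.mem_nhds hζ)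
        have h3 : ∀ᶠ p : ℂ × ℂ in 𝓝 (ζ, z), c < dist p.2 z₀ ∧ dist p.2 z₀ < d := by
          have hc1 : ContinuousAt (fun p : ℂ × ℂ => p.2) (ζ, z) := by fun_prop
          exact hc1.eventually_mem ((fl_open z₀ c d).mem_nhds ⟨h1, mem_ball.1 hz⟩)
        filter_upwards [hGe, h2, h3] with p hp1 hp2 hp3 _
        rw [(hW p.1 hp2).2 p.2 hp3.1 hp3.2, hp1]
    · obtain ⟨δ, hδ, h2⟩ := fl_step hc0 hcd hV' hζ
      have h3 : ¬ {ζ' | ζ' ∈ ball ζ δ ∧ Gdp V z₀ c d ζ'}.Countable := by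
        intro h
        obtain ⟨O, hO, hOo, hζO⟩ := _root_.mem_nhds_iff.1 ((hsub hζ : ∀ᶠ ζ' in 𝓝 ζ, Gdp V z₀ c d ζ').and (ball_mem_nhds ζ hδ : ∀ᶠ ζ' in 𝓝 ζ, ζ' ∈ ball ζ δ))
        exact fl_unc' hOo ⟨ζ, hζO⟩ (h.mono fun ζ' hζ' => (⟨(hO hζ').2, (hO hζ').1⟩ : ζ' ∈ ball ζ δ ∧ Gdp V z₀ c d ζ'))
      obtain ⟨G, hG, hG0, hGe⟩ := (h2 h3).2 z (not_lt.1 h1)
      refine ⟨G, hG, hG0, ?_⟩
      have h4 : ∀ᶠ p : ℂ × ℂ in 𝓝 (ζ, z), p.1 ∈ ball (s₀ : ℂ) ε := by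
        have hc1 : ContinuousAt (fun p : ℂ × ℂ => p.1) (ζ, z) := by fun_prop
        exact hc1.eventually_mem (isOpen_ball.mem_nhds hζ)
      filter_upwards [hGe, h4] with p hp1 hp2 hne
      exact hp1 hne (W p.1) (hW p.1 hp2).1 (hW p.1 hp2).2
  · intro s hs z hz
    exact fl_uniq hc0 hcd (hW s hs).1 (fun z _ => hΦL s z) (hW s hs).2 (fun z h1 h2 => (hVr s hs z (habs z h1 h2)).symm) z hz

end Pool.Agent.G4.C

end
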