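import Pool.Agent.H94.G4T.M117
import Pool.Agent.H94.G4T.M89
import Pool.Agent.H94.G4T.M90

/-! The parts of this file: G4.C.FDi, G4.C.Glue, G4.C.Bai. -/

section

/-!
# G4 C FDi: two holomorphic families of curves which agree for real parameters agree

For a point `ζ₂ ∈ U` choose `z₂ ∈ B` such that the local joint lifts `G`, `G'` at `(ζ₂, z₂)` of `W`, `W'` are not `0` at `(ζ₂, z₂)` (the joint lifts at any point `(ζ₂, z)` do not vanish identically on the slice,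
so their zeros on the slice are isolated; take a point `z₂` near `z` which is no zero of either, and note that a joint lift at `(ζ₂, z)` is one at the points near it).  Near `(ζ₂, z₂)` we have `W = W'` iff the minors
`G i * G' j - G j * G' i` vanish (`pr_iff_minors`).  Let `A` be the set of the `ζ ∈ U` such that `W ζ' = W' ζ'` on `B` for all `ζ'` near `ζ`; it is open.  `s₁ ∈ A`: the minors vanish at `(s, z)` for real `s` near `s₁`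
and all `z` near `z₂`, they are analytic in `ζ`, so they vanish near `(s₁, z₂)` (identity theorem for each `z`); then `W ζ = W' ζ` near `z₂`, so on `B` (`LL.ident`).  `A` is closed in `U`: if `ζ₂ ∈ U` is a limit of
points of `A`, the minors vanish on a nonempty open subset of a small ball around `(ζ₂, z₂)`, so on the ball, and again `LL.ident`.
-/

set_option autoImplicit false

open Topology Filter Metric

namespace Pool.Agent.G4.C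

open Pool.Agent.H36.BP (EN)
open Pool.Agent.H62.EF (MN pr)
open Pool.Agent.G3.C

variable {N : ℕ}

/-- a ball on which both families have lifts without zeros -/
private structure FDi_Box (W W' : ℂ → ℂ → MN N) (U B : Set ℂ) (ζ₂ z₂ : ℂ) (r : ℝ) (G G' : ℂ × ℂ → EN N) : Prop where
  pos : 0 < r
  sub : ball ζ₂ r ⊆ U
  sub' : ball z₂ r ⊆ B
  an : ∀ ζ ∈ ball ζ₂ r, ∀ z ∈ ball z₂ r, AnalyticAt ℂ G (ζ, z)
  an' : ∀ ζ ∈ ball ζ₂ r, ∀ z ∈ ball z₂ r, AnalyticAt ℂ G' (ζ, z)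
  ne : ∀ ζ ∈ ball ζ₂ r, ∀ z ∈ ball z₂ r, G (ζ, z) ≠ 0
  ne' : ∀ ζ ∈ ball ζ₂ r, ∀ z ∈ ball z₂ r, G' (ζ, z) ≠ 0
  eq : ∀ ζ ∈ ball ζ₂ r, ∀ z ∈ ball z₂ r, W ζ z = pr (G (ζ, z))
  eq' : ∀ ζ ∈ ball ζ₂ r, ∀ z ∈ ball z₂ r, W' ζ z = pr (G' (ζ, z))

private theorem FDi_ne {G : ℂ × ℂ → EN N} {ζ z : ℂ} (hG : AnalyticAt ℂ G (ζ, z)) (h : ¬ ∀ᶠ w in 𝓝 z, G (ζ, w) = 0) :
    ∀ᶠ w in 𝓝[≠] z, G (ζ, w) ≠ 0 := by
  have hs : AnalyticAt ℂ (fun w : ℂ => ((ζ, w) : ℂ × ℂ)) z := analyticAt_const.prod analyticAt_id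
  have h1 : AnalyticAt ℂ (fun w : ℂ => G (ζ, w)) z := AnalyticAt.fun_comp (g := G) (f := fun w : ℂ => ((ζ, w) : ℂ × ℂ)) hG hs
  rcases h1.eventually_eq_zero_or_eventually_ne_zero with h2 | h2
  · exact absurd h2 h
  · exact h2

private theorem FDi_box {W W' : ℂ → ℂ → MN N} {U B : Set ℂ} (hU : IsOpen U) (hB : IsOpen B) (hW : FDq W (U ×ˢ B)) (hW' : FDq W' (U ×ˢ B))
    {ζ₂ z : ℂ} (hζ : ζ₂ ∈ U) (hz : z ∈ B) : ∃ (z₂ : ℂ) (r : ℝ) (G G' : ℂ × ℂ → EN N), FDi_Box W W' U B ζ₂ z₂ r G G' := by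
  obtain ⟨-, G, hG, hG0, hGe⟩ := hW ζ₂ z ⟨hζ, hz⟩
  obtain ⟨-, G', hG', hG0', hGe'⟩ := hW' ζ₂ z ⟨hζ, hz⟩
  have hP : ∀ᶠ p in 𝓝 (ζ₂, z), (AnalyticAt ℂ G p ∧ (G p ≠ 0 → W p.1 p.2 = pr (G p))) ∧
      (AnalyticAt ℂ G' p ∧ (G' p ≠ 0 → W' p.1 p.2 = pr (G' p))) :=
    (hG.eventually_analyticAt.and hGe).and (hG'.eventually_analyticAt.and hGe')
  have hc : ContinuousAt (fun w : ℂ => ((ζ₂, w) : ℂ × ℂ)) z := by fun_prop
  have hP' : ∀ᶠ w in 𝓝 z, ∀ᶠ p in 𝓝 ((ζ₂, w) : ℂ × ℂ), (AnalyticAt ℂ G p ∧ (G p ≠ 0 → W p.1 p.2 = pr (G p))) ∧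
      (AnalyticAt ℂ G' p ∧ (G' p ≠ 0 → W' p.1 p.2 = pr (G' p))) := hc.eventually hP.eventually_nhds
  obtain ⟨z₂, ⟨h1, h2⟩, h3, h4⟩ := (((FDi_ne hG hG0).and (FDi_ne hG' hG0')).and
    ((hP'.filter_mono nhdsWithin_le_nhds).and (mem_nhdsWithin_of_mem_nhds (hB.mem_nhds hz)))).exists
  have h5 := h3.self_of_nhds
  have h6 : ∀ᶠ p in 𝓝 ((ζ₂, z₂) : ℂ × ℂ), ((AnalyticAt ℂ G p ∧ (G p ≠ 0 → W p.1 p.2 = pr (G p))) ∧
      (AnalyticAt ℂ G' p ∧ (G' p ≠ 0 → W' p.1 p.2 = pr (G' p)))) ∧ (G p ≠ 0 ∧ G' p ≠ 0) ∧ p ∈ U ×ˢ B :=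
    h3.and (((h5.1.1.continuousAt.eventually_ne h1).and (h5.2.1.continuousAt.eventually_ne h2)).and ((hU.prod hB).mem_nhds ⟨hζ, h4⟩))
  obtain ⟨r, hr, hb⟩ := Metric.eventually_nhds_iff_ball.1 h6
  have hm : ∀ ζ ∈ ball ζ₂ r, ∀ w ∈ ball z₂ r, ((ζ, w) : ℂ × ℂ) ∈ ball ((ζ₂, z₂) : ℂ × ℂ) r := fun ζ hζ w hw => by
    rw [← ball_prod_same]
    exact ⟨hζ, hw⟩
  have hζ₂ : ζ₂ ∈ ball ζ₂ r := mem_ball_self hr
  have hz₂ : z₂ ∈ ball z₂ r := mem_ball_self hr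
  exact ⟨z₂, r, G, G', hr, fun ζ h => (hb _ (hm ζ h z₂ hz₂)).2.2.1, fun w h => (hb _ (hm ζ₂ hζ₂ w h)).2.2.2,
    fun ζ h w hw => (hb _ (hm ζ h w hw)).1.1.1, fun ζ h w hw => (hb _ (hm ζ h w hw)).1.2.1,
    fun ζ h w hw => (hb _ (hm ζ h w hw)).2.1.1, fun ζ h w hw => (hb _ (hm ζ h w hw)).2.1.2,
    fun ζ h w hw => (hb _ (hm ζ h w hw)).1.1.2 (hb _ (hm ζ h w hw)).2.1.1,
    fun ζ h w hw => (hb _ (hm ζ h w hw)).1.2.2 (hb _ (hm ζ h w hw)).2.1.2⟩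

private theorem FDi_coord {G : ℂ × ℂ → EN N} {ζ z : ℂ} (hG : AnalyticAt ℂ G (ζ, z)) (i : Fin (N + 1)) : AnalyticAt ℂ (fun w : ℂ => G (w, z) i) ζ := by
  have hs : AnalyticAt ℂ (fun w : ℂ => ((w, z) : ℂ × ℂ)) ζ := analyticAt_id.prod analyticAt_const
  exact Pool.Agent.TG.en_coord_an (AnalyticAt.fun_comp (g := G) (f := fun w : ℂ => ((w, z) : ℂ × ℂ)) hG hs) i

/-- if the families agree for many parameters in the ball, they agree for all parameters in the ball -/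
private theorem FDi_step {W W' : ℂ → ℂ → MN N} {U B : Set ℂ} (hB : IsOpen B) (hBc : IsPreconnected B) (hW : FDq W (U ×ˢ B)) (hW' : FDq W' (U ×ˢ B))
    {ζ₂ z₂ : ℂ} {r : ℝ} {G G' : ℂ × ℂ → EN N} (h : FDi_Box W W' U B ζ₂ z₂ r G G') {ζ₃ : ℂ} (hζ₃ : ζ₃ ∈ ball ζ₂ r)
    (hfr : ∃ᶠ ζ in 𝓝[≠] ζ₃, ∀ z ∈ B, W ζ z = W' ζ z) : ∀ ζ ∈ ball ζ₂ r, ∀ z ∈ B, W ζ z = W' ζ z := by
  have hm : ∀ z ∈ ball z₂ r, ∀ ζ ∈ ball ζ₂ r, ∀ i j, G (ζ, z) i * G' (ζ, z) j - G (ζ, z) j * G' (ζ, z) i = 0 := by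
    intro z hz ζ hζ i j
    have han : AnalyticOnNhd ℂ (fun w : ℂ => G (w, z) i * G' (w, z) j - G (w, z) j * G' (w, z) i) (ball ζ₂ r) := fun w hw =>
      ((FDi_coord (h.an w hw z hz) i).mul (FDi_coord (h.an' w hw z hz) j)).sub ((FDi_coord (h.an w hw z hz) j).mul (FDi_coord (h.an' w hw z hz) i))
    refine han.eqOn_zero_of_preconnected_of_frequently_eq_zero (convex_ball _ _).isPreconnected hζ₃ ?_ hζ
    refine (hfr.and_eventually (mem_nhdsWithin_of_mem_nhds (isOpen_ball.mem_nhds hζ₃))).mono ?_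
    rintro w ⟨h1, h2⟩
    have h3 := h1 z (h.sub' hz)
    rw [h.eq w h2 z hz, h.eq' w h2 z hz] at h3
    exact (pr_iff_minors (h.ne w h2 z hz) (h.ne' w h2 z hz)).1 h3 i j
  intro ζ hζ
  have hz₂ : z₂ ∈ ball z₂ r := mem_ball_self h.pos
  refine LL.ident hB hBc (fun z hz => (hW ζ z ⟨h.sub hζ, hz⟩).1) (fun z hz => (hW' ζ z ⟨h.sub hζ, hz⟩).1) (h.sub' hz₂) ?_
  filter_upwards [isOpen_ball.mem_nhds hz₂] with z hz
  rw [h.eq ζ hζ z hz, h.eq' ζ hζ z hz]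
  exact (pr_iff_minors (h.ne ζ hζ z hz) (h.ne' ζ hζ z hz)).2 (hm z hz ζ hζ)

theorem FDq.ident {W W' : ℂ → ℂ → MN N} {U B : Set ℂ} (hU : IsOpen U) (hUc : IsPreconnected U) (hB : IsOpen B) (hBc : IsPreconnected B) (hW : FDq W (U ×ˢ B))
    (hW' : FDq W' (U ×ˢ B)) {s₁ : ℝ} (hs₁ : (s₁ : ℂ) ∈ U) (h : ∀ᶠ s : ℝ in 𝓝 s₁, ∀ z ∈ B, W s z = W' s z) : ∀ ζ ∈ U, ∀ z ∈ B, W ζ z = W' ζ z := by
  rcases B.eq_empty_or_nonempty with rfl | ⟨z₀, hz₀⟩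
  · exact fun ζ _ z hz => absurd hz (Set.notMem_empty z)
  obtain ⟨A, hA⟩ : ∃ A : Set ℂ, ∀ ζ, ζ ∈ A ↔ ∀ᶠ ξ in 𝓝 ζ, ∀ z ∈ B, W ξ z = W' ξ z := ⟨{ζ | ∀ᶠ ξ in 𝓝 ζ, ∀ z ∈ B, W ξ z = W' ξ z}, fun _ => Iff.rfl⟩
  have hAo : IsOpen A := by
    rw [isOpen_iff_mem_nhds]
    intro ζ hζ
    filter_upwards [((hA ζ).1 hζ).eventually_nhds] with w hw
    exact (hA w).2 hw
  have hkey : ∀ {ζ₂ z₂ ζ₃ : ℂ} {r : ℝ} {G G' : ℂ × ℂ → EN N}, FDi_Box W W' U B ζ₂ z₂ r G G' → ζ₃ ∈ ball ζ₂ r →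
      (∃ᶠ ζ in 𝓝[≠] ζ₃, ∀ z ∈ B, W ζ z = W' ζ z) → ζ₂ ∈ A := by
    intro ζ₂ z₂ ζ₃ r G G' hb hζ₃ hfr
    refine (hA ζ₂).2 ?_
    filter_upwards [isOpen_ball.mem_nhds (mem_ball_self hb.pos)] with ζ hζ
    exact FDi_step hB hBc hW hW' hb hζ₃ hfr ζ hζ
  have h1 : (s₁ : ℂ) ∈ A := by
    obtain ⟨z₂, r, G, G', hb⟩ := FDi_box hU hB hW hW' hs₁ hz₀
    exact hkey hb (mem_ball_self hb.pos) (real_freq h)
  have hcl : closure A ∩ U ⊆ A := by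
    rintro ζ ⟨hζ, hζU⟩
    obtain ⟨z₂, r, G, G', hb⟩ := FDi_box hU hB hW hW' hζU hz₀
    obtain ⟨ζ₃, h2, h3⟩ := mem_closure_iff.1 hζ (ball ζ r) isOpen_ball (mem_ball_self hb.pos)
    exact hkey hb h2 (((hA ζ₃).1 h3).filter_mono nhdsWithin_le_nhds).frequently
  have h2 := hUc.subset_of_closure_inter_subset hAo ⟨s₁, hs₁, h1⟩ hcl
  exact fun ζ hζ => ((hA ζ).1 (h2 hζ)).self_of_nhds

end Pool.Agent.G4.C

end

section

/-!
# G4 C Glue: the local families give entire curves for the complex parameters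

`Ψ ζ z = W ζ z` for the family `W` of `hF` at `s₀ = Re ζ`, `z₀ = z`.  Two of the families, `W` (centre `(s₀, z₀)`) and `W'` (centre `(s₁, z₁)`), agree on `(ball s₀ ε ∩ ball s₁ ε) ×ˢ (ball z₀ r ∩ ball z₁ r')`:
`FDq.ident` (`ball s₀ ε ∩ ball s₁ ε` is convex, and if it is nonempty it contains a real number: the real part of any of its points).  So near `(ζ, z)`, `|Im ζ| < ε`, `Ψ` is the family of the centre `(Re ζ, z)`: this
gives the last clause, and `Ψ ζ` has local lifts (`LL`).  `Ψ s = Φ s` for real `s`.  The entire lift of `Ψ ζ`: `LL.lift`; it lies in `X` over the line by `xu_LL` (`G3/C/Glue`) with `B = univ`, if near one `z` the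
points `Ψ ζ w` are `pr x`, `x ∈ X`, `u x - (b + ζ • ν + w • a) ∈ Λ`.  For this take `z` such that the joint lift `G` at `(s, z)` is not `0` at `(s, z)` … : the set of the `ζ` (with `|Im ζ| < ε`) such that `Ψ ζ` is a
curve in `X` over the line contains the reals; at a point `(ζ₂, z₂)` where the joint lift `G` is not `0` use `xu_local` (`G3/C/XU`) for the curves `ζ ↦ G (ζ, z)` for fixed `z` near `z₂` (as in `ext_mem`): if for
`ζ` frequently near `ζ₂` the points are in `X` over `b + ζ ν + z a`, then for all `ζ` near `ζ₂`.  Open and closed in the strip.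
-/

set_option autoImplicit false

open Topology Filter Metric

namespace Pool.Agent.G4.C

open Pool.Agent.H36.BP (EN)
open Pool.Agent.H14.PP (IsCone)
open Pool.Agent.H62.EF (MN pr)
open Pool.Agent.AD (Vd Chart Charts)
open Pool.Agent.TG (TMap Lat mem_of_pr)
open Pool.Agent.G3.C

variable {N k : ℕ} {X : Set (EN N)} {Λ : AddSubgroup (Vd (k + 1))} {u : EN N → Vd (k + 1)}

private theorem gl4_re_self (ζ : ℂ) : dist ζ (ζ.re : ℂ) = |ζ.im| := by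
  rw [dist_eq_norm]
  have : ζ - (ζ.re : ℂ) = (ζ.im : ℂ) * Complex.I := by
    apply Complex.ext <;> simp
  rw [this, norm_mul, Complex.norm_I, mul_one, Complex.norm_real, Real.norm_eq_abs]

private theorem gl4_re_le (ζ : ℂ) (s : ℝ) : dist (ζ.re : ℂ) (s : ℂ) ≤ dist ζ s := by
  rw [dist_eq_norm, ← Complex.ofReal_sub, Complex.norm_real, Real.norm_eq_abs, dist_eq_norm]
  have := Complex.abs_re_le_norm (ζ - s)
  simpa using this

/-- a box in which the joint lift is analytic, without zeros and a lift -/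
private theorem gl4_box {Ψ : ℂ → ℂ → MN N} {ξ z : ℂ} {G : ℂ × ℂ → EN N} (hG : AnalyticAt ℂ G (ξ, z)) (hG0 : ¬ ∀ᶠ w in 𝓝 z, G (ξ, w) = 0)
    (hGe : ∀ᶠ p in 𝓝 (ξ, z), G p ≠ 0 → Ψ p.1 p.2 = pr (G p)) :
    ∃ (z₂ : ℂ) (δ : ℝ), 0 < δ ∧ ∀ x ∈ ball ξ δ, ∀ y ∈ ball z₂ δ, AnalyticAt ℂ G (x, y) ∧ G (x, y) ≠ 0 ∧ Ψ x y = pr (G (x, y)) := by
  have h1 : ∀ᶠ p in 𝓝 (ξ, z), AnalyticAt ℂ G p ∧ ∀ᶠ q in 𝓝 p, (G q ≠ 0 → Ψ q.1 q.2 = pr (G q)) := hG.eventually_analyticAt.and hGe.eventually_nhds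
  have hc : Tendsto (fun w : ℂ => (ξ, w)) (𝓝 z) (𝓝 (ξ, z)) := (continuous_const.prodMk continuous_id).tendsto z
  obtain ⟨z₂, hz₂0, hz₂1, hz₂2⟩ := ((not_eventually.1 hG0).and_eventually (hc.eventually h1)).exists
  have h2 : ∀ᶠ p in 𝓝 (ξ, z₂), AnalyticAt ℂ G p ∧ G p ≠ 0 ∧ Ψ p.1 p.2 = pr (G p) := by
    filter_upwards [hz₂1.eventually_analyticAt, hz₂1.continuousAt.eventually_ne hz₂0, hz₂2] with p hp1 hp2 hp3
    exact ⟨hp1, hp2, hp3 hp2⟩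
  obtain ⟨δ, hδ, hball⟩ := Metric.eventually_nhds_iff_ball.1 h2
  refine ⟨z₂, δ, hδ, fun x hx y hy => hball (x, y) ?_⟩
  rw [← ball_prod_same]
  exact ⟨hx, hy⟩

theorem glue {d : ℕ} (hX : IsCone X) (hch : Charts d X) (ht : TMap X Λ u) (hl : Lat Λ) {a ν b : Vd (k + 1)} {Φ : ℝ → ℂ → MN N}
    (hΦ : ∀ s : ℝ, ∃ F ∈ Gc X Λ u a (b + (s : ℂ) • ν), ∀ z, Φ s z = pr (F z)) {ε : ℝ} (hε : 0 < ε)
    (hF : ∀ (s₀ : ℝ) (z₀ : ℂ), ∃ (W : ℂ → ℂ → MN N) (r : ℝ), 0 < r ∧ FDq W (ball (s₀ : ℂ) ε ×ˢ ball z₀ r) ∧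
      ∀ s : ℝ, (s : ℂ) ∈ ball (s₀ : ℂ) ε → ∀ z ∈ ball z₀ r, W s z = Φ s z) :
    ∃ Ψ : ℂ → ℂ → MN N, (∀ (s : ℝ) z, Ψ s z = Φ s z) ∧ (∀ ζ : ℂ, |ζ.im| < ε → ∃ F ∈ Gc X Λ u a (b + ζ • ν), ∀ z, Ψ ζ z = pr (F z)) ∧
      ∀ ζ z : ℂ, |ζ.im| < ε → ∃ G : ℂ × ℂ → EN N, AnalyticAt ℂ G (ζ, z) ∧ (¬ ∀ᶠ w in 𝓝 z, G (ζ, w) = 0) ∧
        ∀ᶠ p in 𝓝 (ζ, z), G p ≠ 0 → Ψ p.1 p.2 = pr (G p) := by
  classical
  choose W r hr hFD hre using hF
  obtain ⟨Ψ, hΨ⟩ : ∃ Ψ : ℂ → ℂ → MN N, ∀ ζ z, Ψ ζ z = W ζ.re z ζ z := ⟨fun ζ z => W ζ.re z ζ z, fun _ _ => rfl⟩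
  have hcen : ∀ ζ : ℂ, |ζ.im| < ε → ζ ∈ ball (ζ.re : ℂ) ε := fun ζ hζ => by
    rw [mem_ball, gl4_re_self]
    exact hζ
  have him : ∀ (s : ℝ) (ξ : ℂ), ξ ∈ ball (s : ℂ) ε → |ξ.im| < ε := by
    intro s ξ hξ
    rw [mem_ball, dist_eq_norm] at hξ
    have h1 := Complex.abs_im_le_norm (ξ - s)
    have h2 : (ξ - (s : ℂ)).im = ξ.im := by simp
    rw [h2] at h1
    exact h1.trans_lt hξ
  -- consistency
  have hcons : ∀ (ζ : ℂ) (s : ℝ) (z₀ z : ℂ), |ζ.im| < ε → ζ ∈ ball (s : ℂ) ε → z ∈ ball z₀ (r s z₀) → Ψ ζ z = W s z₀ ζ z := by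
    intro ζ s z₀ z hζ hs hz
    rw [hΨ]
    have hUo : IsOpen (ball (ζ.re : ℂ) ε ∩ ball (s : ℂ) ε) := isOpen_ball.inter isOpen_ball
    have hreU : (ζ.re : ℂ) ∈ ball (ζ.re : ℂ) ε ∩ ball (s : ℂ) ε := ⟨mem_ball_self hε, (gl4_re_le ζ s).trans_lt hs⟩
    refine FDq.ident (U := ball (ζ.re : ℂ) ε ∩ ball (s : ℂ) ε) (B := ball z (r ζ.re z) ∩ ball z₀ (r s z₀)) hUo
      ((convex_ball _ _).inter (convex_ball _ _)).isPreconnected (isOpen_ball.inter isOpen_ball) ((convex_ball _ _).inter (convex_ball _ _)).isPreconnected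
      ((hFD ζ.re z).mono (Set.prod_mono Set.inter_subset_left Set.inter_subset_left))
      ((hFD s z₀).mono (Set.prod_mono Set.inter_subset_right Set.inter_subset_right)) (s₁ := ζ.re) hreU ?_ ζ ⟨hcen ζ hζ, hs⟩ z ⟨mem_ball_self (hr _ _), hz⟩
    filter_upwards [Complex.continuous_ofReal.continuousAt.eventually_mem (hUo.mem_nhds hreU)] with t ht x hx
    rw [hre ζ.re z t ht.1 x hx.1, hre s z₀ t ht.2 x hx.2]
  -- the values for real parameters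
  have hreal : ∀ (s : ℝ) z, Ψ s z = Φ s z := by
    intro s z
    have h1 : |((s : ℂ)).im| < ε := by rw [Complex.ofReal_im, abs_zero]; exact hε
    rw [hcons s s z z h1 (mem_ball_self hε) (mem_ball_self (hr _ _))]
    exact hre s z s (mem_ball_self hε) z (mem_ball_self (hr _ _))
  -- joint lifts
  have hjoint : ∀ ζ z : ℂ, |ζ.im| < ε → ∃ G : ℂ × ℂ → EN N, AnalyticAt ℂ G (ζ, z) ∧ (¬ ∀ᶠ w in 𝓝 z, G (ζ, w) = 0) ∧
      ∀ᶠ p in 𝓝 (ζ, z), G p ≠ 0 → Ψ p.1 p.2 = pr (G p) := by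
    intro ζ z hζ
    obtain ⟨-, G, hG, hG0, hGe⟩ := hFD ζ.re z ζ z ⟨hcen ζ hζ, mem_ball_self (hr _ _)⟩
    refine ⟨G, hG, hG0, ?_⟩
    have h1 : ∀ᶠ p : ℂ × ℂ in 𝓝 (ζ, z), p.1 ∈ ball (ζ.re : ℂ) ε ∧ p.2 ∈ ball z (r ζ.re z) := by
      have hopen : IsOpen (ball (ζ.re : ℂ) ε ×ˢ ball z (r ζ.re z)) := isOpen_ball.prod isOpen_ball
      exact hopen.mem_nhds (⟨hcen ζ hζ, mem_ball_self (hr _ _)⟩ : (ζ, z) ∈ ball (ζ.re : ℂ) ε ×ˢ ball z (r ζ.re z))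
    filter_upwards [hGe, h1] with p hp1 hp2 hp3
    rw [hcons p.1 ζ.re z p.2 (him _ _ hp2.1) hp2.1 hp2.2]
    exact hp1 hp3
  -- local lifts on the slices
  have hLL : ∀ ζ : ℂ, |ζ.im| < ε → ∀ z, LL (Ψ ζ) z := by
    intro ζ hζ z
    obtain ⟨⟨G, hG, hG0, hGe⟩, -⟩ := hFD ζ.re z ζ z ⟨hcen ζ hζ, mem_ball_self (hr _ _)⟩
    refine ⟨G, hG, hG0, ?_⟩
    filter_upwards [hGe, ball_mem_nhds z (hr ζ.re z)] with w hw1 hw2
    rw [hcons ζ ζ.re z w hζ (hcen ζ hζ) hw2, hw1]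
  -- curves in `X`
  obtain ⟨P, hP⟩ : ∃ P : ℂ → Prop, ∀ ξ, P ξ ↔ ∀ w, ∃ x ∈ X, Ψ ξ w = pr x ∧ u x - (b + ξ • ν + w • a) ∈ Λ :=
    ⟨fun ξ => ∀ w, ∃ x ∈ X, Ψ ξ w = pr x ∧ u x - (b + ξ • ν + w • a) ∈ Λ, fun _ => Iff.rfl⟩
  have hloc : ∀ ξ₀ : ℂ, |ξ₀.im| < ε → (∃ᶠ ξ in 𝓝[≠] ξ₀, P ξ) → ∀ᶠ ξ in 𝓝 ξ₀, P ξ := by
    intro ξ₀ hξ₀ hfr
    obtain ⟨G, hG, hG0, hGe⟩ := hjoint ξ₀ 0 hξ₀
    obtain ⟨z₂, δ, hδ, hbox⟩ := gl4_box hG hG0 hGe
    have hnear : ∀ᶠ ξ : ℂ in 𝓝 ξ₀, |ξ.im| < ε := by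
      have hc : ContinuousAt (fun ξ : ℂ => |ξ.im|) ξ₀ := by fun_prop
      exact hc.eventually_lt continuousAt_const hξ₀
    have hin : ∀ w ∈ ball z₂ δ, ∀ ξ ∈ ball ξ₀ δ, G (ξ, w) ∈ X ∧ u (G (ξ, w)) - (b + ξ • ν + w • a) ∈ Λ := by
      intro w hw
      refine xu_global hX hch ht hl (γ := fun ξ => G (ξ, w)) (υ := fun ξ => b + ξ • ν + w • a) isOpen_ball (convex_ball _ _).isPreconnected ?_
        (fun ξ hξ => (hbox ξ hξ w hw).2.1) ?_ (mem_ball_self hδ) ?_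
      · intro ξ hξ
        have h1 : DifferentiableAt ℂ G (ξ, w) := (hbox ξ hξ w hw).1.differentiableAt
        exact (h1.comp ξ (differentiableAt_id.prodMk (differentiableAt_const w))).differentiableWithinAt
      · exact (((differentiable_const _).add (differentiable_id.smul_const ν)).add (differentiable_const _)).differentiableOn
      · refine (hfr.and_eventually (mem_nhdsWithin_of_mem_nhds (ball_mem_nhds ξ₀ hδ))).mono fun ξ hξ => ?_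
        obtain ⟨hPξ, hξ1⟩ := hξ
        obtain ⟨x, hx, hx1, hx2⟩ := (hP ξ).1 hPξ w
        obtain ⟨-, h2, h3⟩ := hbox ξ hξ1 w hw
        exact mem_of_pr hX ht hx hx2 h2 (by rw [← h3, hx1])
    filter_upwards [hnear, ball_mem_nhds ξ₀ hδ] with ξ hξ1 hξ2
    obtain ⟨F, hF, hF0, hFΨ⟩ := LL.lift (hLL ξ hξ1)
    have hall := xu_global hX hch ht hl (γ := F) (υ := fun y => b + ξ • ν + y • a) isOpen_univ isPreconnected_univ hF.differentiableOn (fun z _ => hF0 z)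
      ((differentiable_const _).add (differentiable_id.smul_const a)).differentiableOn (Set.mem_univ z₂) (by
        have h1 : ∀ᶠ y in 𝓝 z₂, F y ∈ X ∧ u (F y) - (b + ξ • ν + y • a) ∈ Λ := by
          filter_upwards [ball_mem_nhds z₂ hδ] with y hy
          obtain ⟨h4, h5⟩ := hin y hy ξ hξ2
          obtain ⟨-, h2, h3⟩ := hbox ξ hξ2 y hy
          exact mem_of_pr hX ht h4 h5 (hF0 y) (by rw [← hFΨ, h3])
        exact (h1.filter_mono nhdsWithin_le_nhds).frequently)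
    refine (hP ξ).2 fun w => ⟨F w, (hall w (Set.mem_univ w)).1, hFΨ w, (hall w (Set.mem_univ w)).2⟩
  have hPall : ∀ ζ : ℂ, |ζ.im| < ε → P ζ := by
    intro ζ hζ
    obtain ⟨A, hA⟩ : ∃ A : Set ℂ, ∀ ξ, ξ ∈ A ↔ ∀ᶠ w in 𝓝 ξ, P w := ⟨{ξ | ∀ᶠ w in 𝓝 ξ, P w}, fun _ => Iff.rfl⟩
    have hAo : IsOpen A := by
      rw [isOpen_iff_mem_nhds]
      intro ξ hξ
      filter_upwards [((hA ξ).1 hξ).eventually_nhds] with w hw
      exact (hA w).2 hw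
    have hcl : closure A ∩ ball (ζ.re : ℂ) ε ⊆ A := by
      rintro ξ ⟨hξ, hξB⟩
      refine (hA ξ).2 (hloc ξ (him _ _ hξB) ?_)
      have h1 : ∃ᶠ w in 𝓝 ξ, w ∈ A := mem_closure_iff_frequently.1 hξ
      rw [Filter.frequently_iff] at h1 ⊢
      intro U hU
      rw [mem_nhdsWithin] at hU
      obtain ⟨V, hVo, hξV, hVU⟩ := hU
      obtain ⟨w, hwV, hwA⟩ := h1 (hVo.mem_nhds hξV)
      have h2 : ∀ᶠ x in 𝓝 w, x ∈ V ∧ P x := Filter.Eventually.and (hVo.mem_nhds hwV) ((hA w).1 hwA)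
      have h3 : ∃ᶠ x in 𝓝 w, x ≠ ξ := by
        have hd : Dense ({ξ}ᶜ : Set ℂ) := dense_compl_singleton ξ
        exact mem_closure_iff_frequently.1 (hd w)
      obtain ⟨x, hx1, hx2⟩ := (h3.and_eventually h2).exists
      exact ⟨x, hVU ⟨hx2.1, hx1⟩, hx2.2⟩
    have hre0 : (ζ.re : ℂ) ∈ ball (ζ.re : ℂ) ε := mem_ball_self hε
    have hstart : (ζ.re : ℂ) ∈ A := by
      refine (hA _).2 (hloc _ (him _ _ hre0) (real_freq (Eventually.of_forall fun t => (hP _).2 fun w => ?_)))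
      obtain ⟨F, hF, hFΦ⟩ := hΦ t
      exact ⟨F w, hF.2.1 w, by rw [hreal, hFΦ], hF.2.2 w⟩
    have h := (convex_ball (ζ.re : ℂ) ε).isPreconnected.subset_of_closure_inter_subset hAo ⟨_, hre0, hstart⟩ hcl
    exact ((hA ζ).1 (h (hcen ζ hζ))).self_of_nhds
  refine ⟨Ψ, hreal, ?_, hjoint⟩
  intro ζ hζ
  obtain ⟨F, hF, hF0, hFΨ⟩ := LL.lift (hLL ζ hζ)
  have h1 : ∀ z, F z ∈ X ∧ u (F z) - (b + ζ • ν + z • a) ∈ Λ := by
    intro z
    obtain ⟨x, hx, hx1, hx2⟩ := (hP ζ).1 (hPall ζ hζ) z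
    exact mem_of_pr hX ht hx hx2 (hF0 z) (by rw [← hFΨ, hx1])
  exact ⟨F, ⟨hF, fun z => (h1 z).1, fun z => (h1 z).2⟩, hFΨ⟩

end Pool.Agent.G4.C

end

section

/-!
# G4 C Bai: for every sheet there is a point of `T` near which the sheet extends to complex parameters, uniformly

`ue_open`: near a point of `T` off `D`, off `Nν`.  By `near_EAt` every slice `y ∈ T` near `y₀` extends at points `(s₁, z₁)` arbitrarily near `(0, 0)`, so at all points of a small ball, which contains points of a countable dense subset of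
`ℝ × ℂ`.  Fix `v` with `‖nd v (φ y)‖ ≥ c` on `T ∩ ball y₀ r₀` (there `φ` is continuous), `f y j s z = nv v (φ (y + s ν + z a)) j`, `A p` = the set of the `y ∈ T`, `‖y - y₀‖ ≤ r₀ / 2`, with `‖cf (f y j) 0 (1 / (p + 1)) n z‖ ≤ p * (1 / 2) ^ n` for all `j`,
`z ∈ closedBall 0 (1 / (p + 1))` and `n`: closed (`cf_param`).  The closed sets `{y ∈ T | y + s₁ ν + z₁ a ∈ A p}`, `(s₁, z₁)` in the countable dense set, `p : ℕ`, and `{y ∈ T | r ≤ ‖y - y₀‖}` cover `T` (`coef_of_ext`), a complete metric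
space: by `dense_iUnion_interior_of_closed` there is `y ∈ ball y₀ r` in the interior (relative to `T`) of one of them, and `ext_of_coef` gives `EAtB` with uniform constants near `y₁ = y + s₁ ν + z₁ a`.
-/

set_option autoImplicit false

open Topology Filter Metric

namespace Pool.Agent.G4.C

open Pool.Agent.H36.BP (EN fs wd)
open Pool.Agent.H14.PP (IsCone)
open Pool.Agent.H62.EF (MN pr)
open Pool.Agent.AD (Vd Chart Charts)
open Pool.Agent.TG (TMap Lat Str ms tl Gd)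
open Pool.Agent.G3.A (Tb Hc NL)
open Pool.Agent.G3.C

variable {N k : ℕ} {X : Set (EN N)} {Λ : AddSubgroup (Vd (k + 1))} {u : EN N → Vd (k + 1)} {ν a b : Vd (k + 1)} {m : ℕ} {E : Submodule ℝ (Vd (k + 1))}
  {D Bad Nν : Set (Vd (k + 1))} {SS : Set (Vd (k + 1) → MN N)} {φ : Vd (k + 1) → MN N}

private theorem nd_norm (v x : EN N) : ‖nd v (pr x)‖ * ‖x‖ ^ 2 = ‖(inner ℂ v x : ℂ)‖ ^ 2 := by
  have e : nd v (pr x) * ((‖x‖ ^ 2 : ℝ) : ℂ) = inner ℂ x v * inner ℂ v x := by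
    rcases eq_or_ne x 0 with rfl | hx
    · simp
    have h1 : ((‖x‖ ^ 2 : ℝ) : ℂ) ≠ 0 := by
      have : ‖x‖ ≠ 0 := norm_ne_zero_iff.mpr hx
      exact_mod_cast pow_ne_zero 2 this
    have hin : ∀ x y : EN N, (inner ℂ x y : ℂ) = ∑ j, (starRingEnd ℂ) (x j) * y j := by
      intro x y
      rw [PiLp.inner_apply]
      refine Finset.sum_congr rfl fun j _ => ?_
      rw [RCLike.inner_apply]
      ring
    have h2 : nd v (pr x) = inner ℂ x v * inner ℂ v x / ((‖x‖ ^ 2 : ℝ) : ℂ) := by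
      unfold nd
      rw [hin x v, hin v x, Finset.sum_mul_sum, Finset.sum_comm, Finset.sum_div]
      refine Finset.sum_congr rfl fun i _ => ?_
      rw [Finset.sum_div]
      refine Finset.sum_congr rfl fun j _ => ?_
      simp only [pr]
      ring
    rw [h2, div_mul_cancel₀ _ h1]
  have h3 := congrArg norm e
  rw [norm_mul, norm_mul, Complex.norm_real, Real.norm_of_nonneg (by positivity)] at h3
  rw [h3, ← norm_inner_symm, sq]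

/-- the normalised vector is bounded -/
private theorem nv_bd {v x : EN N} {c : ℝ} (hc : 0 < c) (h : c ≤ ‖nd v (pr x)‖) (hx : x ≠ 0) : inner ℂ v x ≠ (0 : ℂ) ∧ ‖nv v (pr x)‖ ≤ (Real.sqrt c)⁻¹ := by
  have h0 : inner ℂ v x ≠ (0 : ℂ) := (nd_pr_ne hx).1 fun h1 => by
    rw [h1, norm_zero] at h
    linarith
  have h1 := nd_norm v x
  have hsc : 0 < Real.sqrt c := Real.sqrt_pos.2 hc
  have h2 : Real.sqrt c * ‖x‖ ≤ ‖(inner ℂ v x : ℂ)‖ := by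
    refine le_of_sq_le_sq ?_ (norm_nonneg _)
    rw [mul_pow, Real.sq_sqrt hc.le, ← h1]
    exact mul_le_mul_of_nonneg_right h (by positivity)
  refine ⟨h0, ?_⟩
  rw [nv_pr h0, norm_smul, norm_inv, ← div_eq_inv_mul, div_le_iff₀ (norm_pos_iff.2 h0), ← div_eq_inv_mul, le_div_iff₀ hsc, mul_comm]
  exact h2

private theorem norm_le_sum (x : EN N) : ‖x‖ ≤ ∑ j, ‖x j‖ := by
  rw [EuclideanSpace.norm_eq, Real.sqrt_le_iff]
  exact ⟨Finset.sum_nonneg fun _ _ => norm_nonneg _, Finset.sum_sq_le_sq_sum_of_nonneg fun _ _ => norm_nonneg _⟩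

/-- the coordinates of a family which extends, normalised -/
private theorem nrm {Φ : ℝ → ℂ → MN N} {s₀ : ℝ} {z₀ : ℂ} {ε : ℝ} (hε : 0 < ε) (hE : EAt Φ s₀ z₀ ε) {v : EN N} (hv : nd v (Φ s₀ z₀) ≠ 0) :
    ∃ ε' C : ℝ, 0 < ε' ∧ ∀ j, ∃ g : ℂ × ℂ → ℂ, DifferentiableOn ℂ g (ball ((s₀ : ℂ), z₀) ε') ∧ (∀ p ∈ ball ((s₀ : ℂ), z₀) ε', ‖g p‖ ≤ C) ∧
      ∀ (s : ℝ) (z : ℂ), ((s : ℂ), z) ∈ ball ((s₀ : ℂ), z₀) ε' → g (s, z) = nv v (Φ s z) j := by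
  obtain ⟨F, hF, hF0, hFΦ⟩ := hE
  have hm := mem_ball_self (x := ((s₀ : ℂ), z₀)) hε
  have h0 : inner ℂ v (F ((s₀ : ℂ), z₀)) ≠ (0 : ℂ) := (nd_pr_ne (hF0 _ hm)).1 (by rw [← hFΦ s₀ z₀ hm]; exact hv)
  have hFc : ContinuousAt F ((s₀ : ℂ), z₀) := (hF.differentiableAt (isOpen_ball.mem_nhds hm)).continuousAt
  have hin : ContinuousAt (fun p => ‖(inner ℂ v (F p) : ℂ)‖) ((s₀ : ℂ), z₀) := ((innerSL ℂ v).continuous.continuousAt.comp hFc).norm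
  have hlt : ‖(inner ℂ v (F ((s₀ : ℂ), z₀)) : ℂ)‖ / 2 < ‖(inner ℂ v (F ((s₀ : ℂ), z₀)) : ℂ)‖ := by
    have := norm_pos_iff.2 h0
    linarith
  have hev := (hin.eventually (lt_mem_nhds hlt)).and ((hFc.norm.eventually (gt_mem_nhds (lt_add_one ‖F ((s₀ : ℂ), z₀)‖))).and (ball_mem_nhds ((s₀ : ℂ), z₀) hε))
  obtain ⟨ε', hε', hb⟩ := Metric.eventually_nhds_iff_ball.mp hev
  have hκ : 0 < ‖(inner ℂ v (F ((s₀ : ℂ), z₀)) : ℂ)‖ / 2 := by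
    have := norm_pos_iff.2 h0
    linarith
  have hne : ∀ p ∈ ball ((s₀ : ℂ), z₀) ε', (inner ℂ v (F p) : ℂ) ≠ 0 := fun p hp h => by
    have := (hb p hp).1
    rw [h, norm_zero] at this
    linarith only [hlt, this]
  have hsub : ball ((s₀ : ℂ), z₀) ε' ⊆ ball ((s₀ : ℂ), z₀) ε := fun p hp => (hb p hp).2.2
  refine ⟨ε', (‖(inner ℂ v (F ((s₀ : ℂ), z₀)) : ℂ)‖ / 2)⁻¹ * (‖F ((s₀ : ℂ), z₀)‖ + 1), hε', fun j => ⟨fun p => (inner ℂ v (F p) : ℂ)⁻¹ * F p j, ?_, ?_, ?_⟩⟩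
  · have hF' := hF.mono hsub
    have hd1 : DifferentiableOn ℂ (fun w => (inner ℂ v (F w) : ℂ)) (ball ((s₀ : ℂ), z₀) ε') := (innerSL ℂ v).differentiable.comp_differentiableOn hF'
    have hd2 : DifferentiableOn ℂ (fun w => F w j) (ball ((s₀ : ℂ), z₀) ε') :=
      (EuclideanSpace.proj (𝕜 := ℂ) j : EN N →L[ℂ] ℂ).differentiable.comp_differentiableOn hF'
    exact (hd1.inv hne).mul hd2
  · intro p hp
    rw [norm_mul, norm_inv]
    have h1 : ‖F p j‖ ≤ ‖F ((s₀ : ℂ), z₀)‖ + 1 := (PiLp.norm_apply_le _ j).trans (hb p hp).2.1.le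
    have h2 : ‖(inner ℂ v (F p) : ℂ)‖⁻¹ ≤ (‖(inner ℂ v (F ((s₀ : ℂ), z₀)) : ℂ)‖ / 2)⁻¹ := inv_anti₀ hκ (hb p hp).1.le
    gcongr
  · intro s z hp
    rw [hFΦ s z (hsub hp), nv_pr (hne _ hp)]
    simp [PiLp.smul_apply, smul_eq_mul]

/-- a family whose normalised coordinates extend -/
private theorem asm {Φ : ℝ → ℂ → MN N} {s₀ δ : ℝ} {z : ℂ} {R K c e₁ : ℝ} (v : EN N) (hl : ∀ s : ℝ, ∃ F : ℂ → EN N, Differentiable ℂ F ∧ (∀ z, F z ≠ 0) ∧ ∀ z, Φ s z = pr (F z))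
    (hc0 : 0 < c) (hc : ∀ s ∈ Set.Icc (s₀ - δ) (s₀ + δ), ∀ w ∈ ball z R, c ≤ ‖nd v (Φ s w)‖) (he₁0 : 0 < e₁) (he₁b : e₁ ≤ δ) (he₁R : e₁ ≤ R)
    (key : ∀ j, ∃ G : ℂ × ℂ → ℂ, DifferentiableOn ℂ G (ball (s₀ : ℂ) e₁ ×ˢ ball z e₁) ∧ (∀ p ∈ ball (s₀ : ℂ) e₁ ×ˢ ball z e₁, ‖G p‖ ≤ K) ∧
      ∀ s : ℝ, (s : ℂ) ∈ ball (s₀ : ℂ) e₁ → ∀ w ∈ ball z e₁, G (s, w) = nv v (Φ s w) j) : EAtB v Φ s₀ z e₁ (∑ _j : Fin (N + 1), K) := by
  choose G hG1 hGb hG2 using key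
  have hsub : ∀ p ∈ ball ((s₀ : ℂ), z) e₁, p.1 ∈ ball (s₀ : ℂ) e₁ ∧ p.2 ∈ ball z e₁ := by
    intro p hp
    rw [← ball_prod_same] at hp
    exact hp
  obtain ⟨H, hH⟩ : ∃ H : ℂ × ℂ → EN N, ∀ p j, H p j = G j p := ⟨fun p => WithLp.toLp 2 fun j => G j p, fun p j => rfl⟩
  have hHd : DifferentiableOn ℂ H (ball ((s₀ : ℂ), z) e₁) := by
    rw [differentiableOn_piLp]
    intro j
    simp only [hH]
    exact (hG1 j).mono fun p hp => hsub p hp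
  have hHr : ∀ (s : ℝ) (w : ℂ), ((s : ℂ), w) ∈ ball ((s₀ : ℂ), z) e₁ → H (s, w) = nv v (Φ s w) := by
    intro s w hp
    obtain ⟨h1, h2⟩ := hsub _ hp
    ext j
    rw [hH]
    exact hG2 j s h1 w h2
  have hreal : ∀ (s : ℝ) (w : ℂ), ((s : ℂ), w) ∈ ball ((s₀ : ℂ), z) e₁ → Φ s w = pr (H (s, w)) ∧ inner ℂ v (H (s, w)) = (1 : ℂ) := by
    intro s w hp
    obtain ⟨h1, h2⟩ := hsub _ hp
    have hs : s ∈ Set.Icc (s₀ - δ) (s₀ + δ) := by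
      simp only at h1
      rw [mem_ball, dist_eq_norm, ← Complex.ofReal_sub, Complex.norm_real, Real.norm_eq_abs] at h1
      have := abs_lt.1 (h1.trans_le he₁b)
      exact ⟨by linarith [this.1], by linarith [this.2]⟩
    obtain ⟨F, hF, hF0, hFΦ⟩ := hl s
    have h3 := hc s hs w (ball_subset_ball he₁R h2)
    rw [hFΦ] at h3
    obtain ⟨h4, -⟩ := nv_bd hc0 h3 (hF0 w)
    rw [hHr s w hp, hFΦ]
    refine ⟨(pr_nv h4).symm, ?_⟩
    rw [nv_pr h4, inner_smul_right, inv_mul_cancel₀ h4]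
  refine ⟨H, hHd, fun p hp => ⟨?_, ?_⟩, fun s w hp => (hreal s w hp).1⟩
  · -- the identity theorem
    obtain ⟨h1, h2⟩ := hsub p hp
    have hd : DifferentiableOn ℂ (fun ζ => (inner ℂ v (H (ζ, p.2)) : ℂ)) (ball (s₀ : ℂ) e₁) := by
      refine (innerSL ℂ v).differentiable.comp_differentiableOn ?_
      intro ζ hζ
      have h3 : DifferentiableAt ℂ H (ζ, p.2) := hHd.differentiableAt (isOpen_ball.mem_nhds (by rw [← ball_prod_same]; exact ⟨hζ, h2⟩))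
      exact (h3.comp ζ (differentiableAt_id.prodMk (differentiableAt_const p.2))).differentiableWithinAt
    have hfr : ∃ᶠ ζ in 𝓝[≠] (s₀ : ℂ), (inner ℂ v (H (ζ, p.2)) : ℂ) = 1 := by
      have h4 : ∀ᶠ t : ℝ in 𝓝[≠] s₀, (inner ℂ v (H ((t : ℂ), p.2)) : ℂ) = 1 := by
        filter_upwards [mem_nhdsWithin_of_mem_nhds (ball_mem_nhds s₀ he₁0)] with t ht
        refine (hreal t p.2 ?_).2
        rw [← ball_prod_same]
        refine ⟨?_, h2⟩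
        rw [mem_ball, dist_eq_norm, ← Complex.ofReal_sub, Complex.norm_real, ← dist_eq_norm]
        exact ht
      have h5 : Tendsto (fun t : ℝ => (t : ℂ)) (𝓝[≠] s₀) (𝓝[≠] (s₀ : ℂ)) := by
        refine tendsto_nhdsWithin_iff.2 ⟨(Complex.continuous_ofReal.tendsto s₀).mono_left nhdsWithin_le_nhds, ?_⟩
        filter_upwards [self_mem_nhdsWithin] with t ht h6
        exact ht (Complex.ofReal_injective h6)
      exact h5.frequently h4.frequently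
    have h6 := (hd.analyticOnNhd isOpen_ball).eqOn_of_preconnected_of_frequently_eq analyticOnNhd_const (convex_ball _ _).isPreconnected (mem_ball_self he₁0) hfr
    exact h6 h1
  · obtain ⟨h1, h2⟩ := hsub p hp
    refine (norm_le_sum (H p)).trans (Finset.sum_le_sum fun j _ => ?_)
    rw [hH]
    exact hGb j p ⟨h1, h2⟩

private theorem tbc_closed (b : Vd (k + 1)) (E : Submodule ℝ (Vd (k + 1))) : IsClosed (Tb b E) := by
  have h : Continuous fun y : Vd (k + 1) => y - b := by fun_prop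
  exact (Submodule.closed_of_finiteDimensional E).preimage h

/-- the local data: a vector `v` and a radius -/
private theorem loc (S : TDat X Λ u a ν b E D Bad SS) (hφ : φ ∈ SS) {y₀ : Vd (k + 1)} (hy₀ : y₀ ∈ Tb b E) (hD : y₀ ∉ D) :
    ∃ (v : EN N) (c R : ℝ), 0 < c ∧ 0 < R ∧ ∀ y ∈ Tb b E, y ∈ ball y₀ R → y ∉ D ∧ c ≤ ‖nd v (φ y)‖ ∧ ContinuousWithinAt φ (Tb b E) y := by
  obtain ⟨χ, c, ρ, w, R, B⟩ := S.smo φ hφ y₀ hy₀ hD
  have hcy : ContinuousOn (fun y => cy c ρ (w 0 y) y) (Tb b E ∩ ball y₀ R) := by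
    refine continuousOn_pi.2 fun i => ?_
    refine Fin.cases ?_ (fun j => ?_) i
    · simpa [cy] using B.cont 0
    · have h1 : Continuous fun y : Vd (k + 1) => (ρ : ℂ)⁻¹ * (y j - c j) := by fun_prop
      simpa [cy] using h1.continuousOn
  have hφc : ∀ y ∈ Tb b E ∩ ball y₀ R, ContinuousWithinAt φ (Tb b E) y := by
    intro y hy
    have h1 : ContinuousWithinAt (fun y => pr (χ.σ (cy c ρ (w 0 y) y))) (Tb b E ∩ ball y₀ R) y := by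
      have h2 : ContinuousAt χ.σ (cy c ρ (w 0 y) y) := (χ.σ_an _ (B.mem y hy)).continuousAt
      have h3 : ContinuousAt (pr (N := N)) (χ.σ (cy c ρ (w 0 y) y)) :=
        Pool.Agent.H62.EF.continuousAt_pr (fun h0 => S.cone.zero_notMem (h0 ▸ (χ.σ_mem _ (B.mem y hy)).1))
      exact h3.comp_continuousWithinAt (f := fun y => χ.σ (cy c ρ (w 0 y) y)) (h2.comp_continuousWithinAt (f := fun y => cy c ρ (w 0 y) y) (hcy y hy))
    have h2 : ContinuousWithinAt φ (Tb b E ∩ ball y₀ R) y := h1.congr (fun y' hy' => B.eq y' hy') (B.eq y hy)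
    exact (continuousWithinAt_inter (isOpen_ball.mem_nhds hy.2)).1 h2
  obtain ⟨v, hv⟩ : ∃ v, v = χ.σ (cy c ρ (w 0 y₀) y₀) := ⟨_, rfl⟩
  have hy₀' : y₀ ∈ Tb b E ∩ ball y₀ R := ⟨hy₀, mem_ball_self B.pos⟩
  have hv0 : v ≠ 0 := by
    rw [hv]
    exact fun h0 => S.cone.zero_notMem (h0 ▸ (χ.σ_mem _ (B.mem y₀ hy₀')).1)
  have hnd : nd v (φ y₀) ≠ 0 := by
    rw [B.eq y₀ hy₀', ← hv, nd_pr_ne hv0]
    exact inner_self_ne_zero.2 hv0
  have hpos := norm_pos_iff.2 hnd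
  have h1 : ContinuousWithinAt (fun y => ‖nd v (φ y)‖) (Tb b E) y₀ := ((nd_cont v).continuousAt.comp_continuousWithinAt (hφc y₀ hy₀')).norm
  have h2 : ∀ᶠ y in 𝓝[Tb b E] y₀, ‖nd v (φ y₀)‖ / 2 < ‖nd v (φ y)‖ := h1.eventually (lt_mem_nhds (by linarith only [hpos]))
  have h3 : ∀ᶠ y in 𝓝 y₀, y ∉ D := S.D_closed.isOpen_compl.mem_nhds hD
  rw [eventually_nhdsWithin_iff] at h2
  obtain ⟨R', hR', hb⟩ := Metric.eventually_nhds_iff_ball.mp ((h2.and h3).and (ball_mem_nhds y₀ B.pos))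
  exact ⟨v, ‖nd v (φ y₀)‖ / 2, R', by linarith only [hpos], hR', fun y hy hyR => ⟨(hb y hyR).1.2, ((hb y hyR).1.1 hy).le, hφc y ⟨hy, (hb y hyR).2⟩⟩⟩

/-- translation of the parameters -/
private theorem shift {y : Vd (k + 1)} {s₂ : ℝ} {z₂ : ℂ} {ε : ℝ} (h : EAt (sl φ a ν y) s₂ z₂ ε) : EAt (sl φ a ν (y + (s₂ : ℂ) • ν + z₂ • a)) 0 0 ε := by
  obtain ⟨F, hF, hF0, hFΦ⟩ := h
  have hm : ∀ p ∈ ball (((0 : ℝ) : ℂ), (0 : ℂ)) ε, ((s₂ : ℂ) + p.1, z₂ + p.2) ∈ ball ((s₂ : ℂ), z₂) ε := by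
    intro p hp
    rw [← ball_prod_same] at hp ⊢
    obtain ⟨h1, h2⟩ := hp
    rw [mem_ball, dist_eq_norm] at h1 h2
    refine ⟨?_, ?_⟩
    · rw [mem_ball, dist_eq_norm, add_sub_cancel_left]
      simpa using h1
    · rw [mem_ball, dist_eq_norm, add_sub_cancel_left]
      simpa using h2
  refine ⟨fun p => F ((s₂ : ℂ) + p.1, z₂ + p.2), ?_, fun p hp => hF0 _ (hm p hp), fun s z hp => ?_⟩
  · have : Differentiable ℂ fun p : ℂ × ℂ => ((s₂ : ℂ) + p.1, z₂ + p.2) := by fun_prop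
    exact hF.comp this.differentiableOn hm
  · rw [← sl_add y s₂ s z₂ z]
    have h1 := hm _ hp
    have h2 := hFΦ (s₂ + s) (z₂ + z) (by push_cast; exact h1)
    rw [h2]
    push_cast
    rfl

/-- every point of `T` near `y₀` is near points at which the slice extends -/
theorem ue_open (S : TDat X Λ u a ν b E D Bad SS) (hφ : φ ∈ SS) {y₀ : Vd (k + 1)} (hy₀ : y₀ ∈ Tb b E) (hD : y₀ ∉ D) {r : ℝ} (hr : 0 < r)
    (h : ∀ y ∈ Tb b E, ‖y - y₀‖ < r → ∀ δ : ℝ, 0 < δ → ∃ (s₁ : ℝ) (z₁ : ℂ) (ε : ℝ), |s₁| < δ ∧ ‖z₁‖ < δ ∧ 0 < ε ∧ EAt (sl φ a ν y) s₁ z₁ ε) :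
    ∃ y₁ ∈ Tb b E, y₁ ∉ D ∧ UE (𝓝[Tb b E] y₁) (fun y => sl φ a ν y) 0 0 := by
  obtain ⟨v, c, R, hc, hR, hloc⟩ := loc S hφ hy₀ hD
  have hTc : IsClosed (Tb b E) := tbc_closed b E
  obtain ⟨κ, hκ⟩ : ∃ κ, κ = 1 + ‖ν‖ + ‖a‖ := ⟨_, rfl⟩
  have hκ0 : 0 < κ := by rw [hκ]; positivity
  obtain ⟨r₂, hr₂⟩ : ∃ r₂, r₂ = R / 4 := ⟨_, rfl⟩
  have hr₂0 : 0 < r₂ := by rw [hr₂]; linarith only [hR]
  obtain ⟨r₃, hr₃⟩ : ∃ r₃, r₃ = r₂ / κ := ⟨_, rfl⟩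
  have hr₃0 : 0 < r₃ := by rw [hr₃]; positivity
  have hmv : ∀ (s : ℝ) (z : ℂ), |s| < r₃ → ‖z‖ < r₃ → ‖(s : ℂ) • ν + z • a‖ < r₂ := by
    intro s z hs hz
    have h1 : ‖(s : ℂ) • ν + z • a‖ ≤ r₃ * ‖ν‖ + r₃ * ‖a‖ := by
      refine (norm_add_le _ _).trans (add_le_add ?_ ?_)
      · rw [norm_smul, Complex.norm_real, Real.norm_eq_abs]
        exact mul_le_mul_of_nonneg_right hs.le (norm_nonneg _)
      · rw [norm_smul]
        exact mul_le_mul_of_nonneg_right hz.le (norm_nonneg _)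
    have h2 : r₂ = r₃ * κ := by rw [hr₃]; field_simp
    rw [h2, hκ]
    nlinarith only [hr₃0, h1]
  have hball : ∀ y : Vd (k + 1), ‖y - y₀‖ ≤ 2 * r₂ → ∀ (s : ℝ) (z : ℂ), |s| < r₃ → ‖z‖ < r₃ → y + (s : ℂ) • ν + z • a ∈ ball y₀ R := by
    intro y hy s z hs hz
    rw [mem_ball, dist_eq_norm, show y + (s : ℂ) • ν + z • a - y₀ = (y - y₀) + ((s : ℂ) • ν + z • a) by abel]
    have h1 := norm_add_le (y - y₀) ((s : ℂ) • ν + z • a)
    have h2 := hmv s z hs hz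
    linarith only [hr₂, hr₂0, hy, h1, h2]
  obtain ⟨K, hK⟩ : ∃ K : Set (Vd (k + 1)), K = Tb b E ∩ {y | ‖y - y₀‖ ≤ 2 * r₂} := ⟨_, rfl⟩
  have hKc : IsClosed K := by
    rw [hK]
    exact hTc.inter (isClosed_le (by fun_prop) continuous_const)
  have hKT : ∀ y ∈ K, y ∈ Tb b E := fun y hy => by rw [hK] at hy; exact hy.1
  have hKr : ∀ y ∈ K, ‖y - y₀‖ ≤ 2 * r₂ := fun y hy => by rw [hK] at hy; exact hy.2
  -- the bound below
  have hlow : ∀ y ∈ K, ∀ (s : ℝ) (z : ℂ), |s| < r₃ → ‖z‖ < r₃ → c ≤ ‖nd v (sl φ a ν y s z)‖ := fun y hy s z hs hz =>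
    (hloc _ (S.tb (hKT y hy) s z) (hball y (hKr y hy) s z hs hz)).2.1
  have hlift : ∀ y ∈ K, ∀ s : ℝ, ∃ F : ℂ → EN N, Differentiable ℂ F ∧ (∀ z, F z ≠ 0) ∧ ∀ z, sl φ a ν y s z = pr (F z) := by
    intro y hy s
    have h1 := S.tb (hKT y hy) s 0
    rw [zero_smul, add_zero] at h1
    obtain ⟨F, hF, hF2⟩ := S.line φ hφ _ h1
    exact ⟨F, hF.1, fun z h0 => S.cone.zero_notMem (h0 ▸ hF.2.1 z), hF2⟩
  -- continuity
  have hfc : ∀ j : Fin (N + 1), ∀ q ∈ K ×ˢ {q : ℝ × ℂ | |q.1| < r₃ ∧ ‖q.2‖ < r₃}, ContinuousWithinAt (fun q : Vd (k + 1) × ℝ × ℂ => nv v (sl φ a ν q.1 q.2.1 q.2.2) j)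
      (K ×ˢ {q : ℝ × ℂ | |q.1| < r₃ ∧ ‖q.2‖ < r₃}) q := by
    rintro j ⟨y, s, z⟩ ⟨hy, hs, hz⟩
    have hy : y ∈ K := hy
    have hs : |s| < r₃ := hs
    have hz : ‖z‖ < r₃ := hz
    have h2' : nd v (sl φ a ν y s z) ≠ 0 := fun h => by
      have h2 := hlow y hy s z hs hz
      rw [h, norm_zero] at h2
      linarith only [hc, h2]
    have h1 : Continuous fun q : Vd (k + 1) × ℝ × ℂ => q.1 + (q.2.1 : ℂ) • ν + q.2.2 • a := by fun_prop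
    have h3 : ContinuousWithinAt (fun q : Vd (k + 1) × ℝ × ℂ => sl φ a ν q.1 q.2.1 q.2.2) (K ×ˢ {q : ℝ × ℂ | |q.1| < r₃ ∧ ‖q.2‖ < r₃}) (y, s, z) := by
      refine ContinuousWithinAt.comp (g := φ) (f := fun q : Vd (k + 1) × ℝ × ℂ => q.1 + (q.2.1 : ℂ) • ν + q.2.2 • a) (t := Tb b E) ?_ h1.continuousWithinAt ?_
      · exact (hloc _ (S.tb (hKT y hy) s z) (hball y (hKr y hy) s z hs hz)).2.2
      · rintro ⟨y', s', z'⟩ ⟨hy', -⟩
        exact S.tb (hKT y' hy') s' z'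
    have h4 : ContinuousAt (nv v) (sl φ a ν y s z) := nv_continuousAt h2'
    have h5 : ContinuousAt (fun x : MN N => nv v x j) (sl φ a ν y s z) := (PiLp.continuous_apply 2 _ j).continuousAt.comp h4
    exact ContinuousAt.comp_continuousWithinAt (g := fun x : MN N => nv v x j) (f := fun q : Vd (k + 1) × ℝ × ℂ => sl φ a ν q.1 q.2.1 q.2.2) h5 h3
  obtain ⟨d, hd⟩ : ∃ d : ℕ → ℝ, ∀ p, d p = r₃ / (2 * (p + 1)) := ⟨fun p => r₃ / (2 * (p + 1)), fun _ => rfl⟩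
  have hd0 : ∀ p, 0 < d p := fun p => by rw [hd]; positivity
  have hd2 : ∀ p, 2 * d p ≤ r₃ := fun p => by
    rw [hd, mul_div_assoc', div_le_iff₀ (by positivity)]
    have : (0 : ℝ) ≤ p := Nat.cast_nonneg p
    nlinarith only [hr₃0]
  obtain ⟨A, hA⟩ : ∃ A : ℕ → Set (Vd (k + 1)), ∀ p y, y ∈ A p ↔ y ∈ K ∧ ∀ j : Fin (N + 1), ∀ z ∈ closedBall (0 : ℂ) (d p), ∀ n : ℕ,
      ‖cf (fun s z => nv v (sl φ a ν y s z) j) 0 (d p) n z‖ ≤ p * (1 / 2) ^ n := ⟨fun p => {y | _}, fun p y => Iff.rfl⟩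
  have hAc : ∀ p, IsClosed (A p) := by
    intro p
    have e : A p = K ∩ ⋂ (j : Fin (N + 1)) (z : closedBall (0 : ℂ) (d p)) (n : ℕ), (K ∩ (fun y => ‖cf (fun s z => nv v (sl φ a ν y s z) j) 0 (d p) n z.1‖) ⁻¹' Set.Iic (p * (1 / 2) ^ n)) := by
      ext y
      rw [hA]
      simp only [Set.mem_inter_iff, Set.mem_iInter, Set.mem_preimage, Set.mem_Iic, Subtype.forall]
      constructor
      · rintro ⟨h1, h2⟩
        exact ⟨h1, fun j z hz n => ⟨h1, h2 j z hz n⟩⟩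
      · rintro ⟨h1, h2⟩
        exact ⟨h1, fun j z hz n => (h2 j z hz n).2⟩
    rw [e]
    refine hKc.inter (isClosed_iInter fun j => isClosed_iInter fun z => isClosed_iInter fun n => ?_)
    refine ContinuousOn.preimage_isClosed_of_isClosed ?_ hKc isClosed_Iic
    refine (cf_param (f := fun y s z => nv v (sl φ a ν y s z) j) (hd0 p).le ?_ n).norm
    rintro ⟨y, s⟩ ⟨hy, hs⟩
    have hs' : |s| < r₃ := by
      have h1 : |s| ≤ d p := abs_le.2 ⟨by have := hs.1; simp only at this; linarith, by have := hs.2; simp only at this; linarith⟩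
      have := hd2 p
      have := hd0 p
      linarith
    have hz' : ‖z.1‖ < r₃ := by
      have h1 : ‖z.1‖ ≤ d p := mem_closedBall_zero_iff.1 z.2
      have := hd2 p
      have := hd0 p
      linarith
    have h1 := hfc j (y, s, z.1) ⟨hy, hs', hz'⟩
    have h2 : Continuous fun q : Vd (k + 1) × ℝ => ((q.1, q.2, z.1) : Vd (k + 1) × ℝ × ℂ) := by fun_prop
    refine ContinuousWithinAt.comp (g := fun q : Vd (k + 1) × ℝ × ℂ => nv v (sl φ a ν q.1 q.2.1 q.2.2) j) (f := fun q : Vd (k + 1) × ℝ => ((q.1, q.2, z.1) : Vd (k + 1) × ℝ × ℂ)) h1 h2.continuousWithinAt ?_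
    rintro ⟨y', s'⟩ ⟨hy', hs''⟩
    refine ⟨hy', ?_, hz'⟩
    have h1 : |s'| ≤ d p := abs_le.2 ⟨by have := hs''.1; simp only at this; linarith, by have := hs''.2; simp only at this; linarith⟩
    have := hd2 p
    have := hd0 p
    show |s'| < r₃
    linarith
  -- the cover
  obtain ⟨q, hq⟩ : ∃ q : ℕ → ℝ × ℂ, DenseRange q := ⟨TopologicalSpace.denseSeq _, TopologicalSpace.denseRange_denseSeq _⟩
  obtain ⟨r₄, hr₄⟩ : ∃ r₄, r₄ = min r r₂ := ⟨_, rfl⟩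
  have hr₄0 : 0 < r₄ := by rw [hr₄]; exact lt_min hr hr₂0
  have hr₄r : r₄ ≤ r := by rw [hr₄]; exact min_le_left _ _
  have hr₄r₂ : r₄ ≤ r₂ := by rw [hr₄]; exact min_le_right _ _
  obtain ⟨W, hW1, hW2⟩ : ∃ W : Option (ℕ × ℕ) → Set (Tb b E), W none = {y | r₄ ≤ ‖y.1 - y₀‖} ∧
      ∀ i p, W (some (i, p)) = {y | y.1 + ((q i).1 : ℂ) • ν + (q i).2 • a ∈ A p} :=
    ⟨fun o => Option.elim o {y | r₄ ≤ ‖y.1 - y₀‖} fun ip => {y | y.1 + ((q ip.1).1 : ℂ) • ν + (q ip.1).2 • a ∈ A ip.2}, rfl, fun _ _ => rfl⟩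
  have hWc : ∀ o, IsClosed (W o) := by
    rintro (_ | ⟨i, p⟩)
    · rw [hW1]
      exact isClosed_le continuous_const (by fun_prop)
    · rw [hW2]
      have h1 : Continuous fun y : Tb b E => y.1 + ((q i).1 : ℂ) • ν + (q i).2 • a := by fun_prop
      exact (hAc p).preimage h1
  have hWU : ⋃ o, W o = Set.univ := by
    rw [Set.eq_univ_iff_forall]
    rintro ⟨y, hy⟩
    rw [Set.mem_iUnion]
    rcases le_or_gt r₄ ‖y - y₀‖ with h1 | h1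
    · exact ⟨none, by rw [hW1]; exact h1⟩
    obtain ⟨s₁, z₁, ε, hs₁, hz₁, hε, hE⟩ := h y hy (h1.trans_le hr₄r) (r₃ / 2) (by linarith only [hr₃0])
    obtain ⟨i, hi⟩ := hq.exists_dist_lt (s₁, z₁) (lt_min hε (half_pos hr₃0))
    obtain ⟨s₂, z₂, hq2⟩ : ∃ s₂ z₂, q i = (s₂, z₂) := ⟨_, _, rfl⟩
    rw [hq2, Prod.dist_eq] at hi
    simp only at hi
    have hi1 : dist s₁ s₂ < min ε (r₃ / 2) := (le_max_left _ _).trans_lt hi
    have hi2 : dist z₁ z₂ < min ε (r₃ / 2) := (le_max_right _ _).trans_lt hi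
    have hds : dist ((s₂ : ℂ), z₂) ((s₁ : ℂ), z₁) < ε := by
      rw [Prod.dist_eq]
      refine max_lt ?_ ?_
      · simp only
        rw [dist_comm, dist_eq_norm, ← Complex.ofReal_sub, Complex.norm_real, ← dist_eq_norm]
        exact hi1.trans_le (min_le_left _ _)
      · simp only
        rw [dist_comm]
        exact hi2.trans_le (min_le_left _ _)
    have hs₂ : |s₂| < r₃ := by
      have h2 := hi1.trans_le (min_le_right _ _)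
      rw [dist_comm, Real.dist_eq] at h2
      have h3 := abs_add_le (s₂ - s₁) s₁
      rw [sub_add_cancel] at h3
      linarith only [hs₁, h2, h3]
    have hz₂ : ‖z₂‖ < r₃ := by
      have h2 := hi2.trans_le (min_le_right _ _)
      rw [dist_comm, dist_eq_norm] at h2
      have h3 := norm_add_le (z₂ - z₁) z₁
      rw [sub_add_cancel] at h3
      linarith only [hz₁, h2, h3]
    have hE2 := shift (hE.move (s₁ := s₂) (z₁ := z₂))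
    obtain ⟨y₂, hy₂⟩ : ∃ y₂, y₂ = y + (s₂ : ℂ) • ν + z₂ • a := ⟨_, rfl⟩
    rw [← hy₂] at hE2
    have hy₂K : y₂ ∈ K := by
      rw [hK, hy₂]
      refine ⟨S.tb hy s₂ z₂, ?_⟩
      show ‖y + (s₂ : ℂ) • ν + z₂ • a - y₀‖ ≤ 2 * r₂
      rw [show y + (s₂ : ℂ) • ν + z₂ • a - y₀ = (y - y₀) + ((s₂ : ℂ) • ν + z₂ • a) by abel]
      have h2 := norm_add_le (y - y₀) ((s₂ : ℂ) • ν + z₂ • a)
      have h3 := hmv s₂ z₂ hs₂ hz₂
      linarith only [hr₄r₂, h1, h2, h3]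
    have hnd : nd v (sl φ a ν y₂ 0 0) ≠ 0 := fun h0 => by
      have h2 := hlow y₂ hy₂K 0 0 (by simpa using hr₃0) (by simpa using hr₃0)
      rw [h0, norm_zero] at h2
      linarith only [hc, h2]
    obtain ⟨ε', C, hε', hg⟩ := nrm (by linarith only [hds]) hE2 hnd
    obtain ⟨p, hp⟩ := exists_nat_ge (max C (r₃ / ε'))
    have hpC : C ≤ p := (le_max_left _ _).trans hp
    have hpd : 2 * d p ≤ ε' := by
      have h2 : r₃ / ε' ≤ p := (le_max_right _ _).trans hp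
      rw [div_le_iff₀ hε'] at h2
      rw [hd, mul_div_assoc', div_le_iff₀ (by positivity)]
      nlinarith only [hε', h2]
    have hsub : ball (((0 : ℝ)) : ℂ) (2 * d p) ×ˢ ball (0 : ℂ) (2 * d p) ⊆ ball ((((0 : ℝ)) : ℂ), (0 : ℂ)) ε' := by
      rw [← ball_prod_same]
      exact Set.prod_mono (ball_subset_ball hpd) (ball_subset_ball hpd)
    refine ⟨some (i, p), ?_⟩
    rw [hW2, hq2]
    show y + (s₂ : ℂ) • ν + z₂ • a ∈ A p
    rw [← hy₂, hA]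
    refine ⟨hy₂K, fun j z hz n => ?_⟩
    obtain ⟨g, hg1, hg2, hg3⟩ := hg j
    have h5 := coef_of_ext (f := fun s z => nv v (sl φ a ν y₂ s z) j) (s₀ := 0) (z₁ := 0) (hd0 p) (hg1.mono hsub) (hd0 p) (fun x hx => hg2 x (hsub hx)) (fun s hs z hz => hg3 s z (hsub ⟨by
      rw [mem_ball, dist_eq_norm, ← Complex.ofReal_sub, Complex.norm_real, Real.norm_eq_abs]
      have h6 : |s - 0| ≤ d p := abs_le.2 ⟨by linarith only [hs, hs.1], by linarith only [hs, hs.2]⟩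
      have := hd0 p
      linarith only [h6, this], hz⟩)) z hz n
    refine h5.trans ?_
    gcongr
  have : CompleteSpace (Tb b E) := hTc.completeSpace_coe
  have hdense := dense_iUnion_interior_of_closed hWc hWU
  obtain ⟨⟨y, hy⟩, hyb, hyU⟩ := hdense.inter_open_nonempty {x : Tb b E | ‖x.1 - y₀‖ < r₄} (isOpen_lt (by fun_prop) continuous_const) ⟨⟨y₀, hy₀⟩, by simpa using hr₄0⟩
  have hyb : ‖y - y₀‖ < r₄ := hyb
  rw [Set.mem_iUnion] at hyU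
  obtain ⟨o, ho⟩ := hyU
  rcases o with _ | ⟨i, p⟩
  · have h1 := interior_subset ho
    rw [hW1] at h1
    have h2 : r₄ ≤ ‖y - y₀‖ := h1
    linarith only [hyb, h2]
  rw [hW2, mem_interior_iff_mem_nhds, mem_nhds_subtype_iff_nhdsWithin] at ho
  obtain ⟨x₀, hx₀⟩ : ∃ x₀, x₀ = ((q i).1 : ℂ) • ν + (q i).2 • a := ⟨_, rfl⟩
  have hev : ∀ᶠ y' in 𝓝[Tb b E] y, y' + x₀ ∈ A p := by
    filter_upwards [ho] with y' hy'
    obtain ⟨x, hx, rfl⟩ := hy'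
    rw [hx₀, ← add_assoc]
    exact hx
  have hT1 : y + x₀ ∈ Tb b E := by
    rw [hx₀, ← add_assoc]
    exact S.tb hy _ _
  have hT2 : ∀ y' ∈ Tb b E, y' - x₀ ∈ Tb b E := by
    intro y' hy'
    have h1 := S.tb hy' (-(q i).1) (-(q i).2)
    rw [hx₀]
    convert h1 using 1
    push_cast
    rw [neg_smul, neg_smul]
    abel
  have hev2 : ∀ᶠ y' in 𝓝[Tb b E] (y + x₀), y' ∈ A p := by
    have h1 : Tendsto (fun y' : Vd (k + 1) => y' - x₀) (𝓝[Tb b E] (y + x₀)) (𝓝[Tb b E] y) := by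
      refine tendsto_nhdsWithin_iff.2 ⟨?_, ?_⟩
      · have h2 : Continuous fun y' : Vd (k + 1) => y' - x₀ := by fun_prop
        have h3 := h2.tendsto (y + x₀)
        rw [add_sub_cancel_right] at h3
        exact h3.mono_left nhdsWithin_le_nhds
      · filter_upwards [self_mem_nhdsWithin] with y' hy'
        exact hT2 y' hy'
    filter_upwards [h1.eventually hev] with y' hy'
    rwa [sub_add_cancel] at hy'
  have hy₁A : y + x₀ ∈ A p := hev2.self_of_nhdsWithin hT1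
  have hy₁K : y + x₀ ∈ K := ((hA _ _).1 hy₁A).1
  refine ⟨y + x₀, hT1, ?_, ?_⟩
  · have h1 := hball (y + x₀) (hKr _ hy₁K) 0 0 (by simpa using hr₃0) (by simpa using hr₃0)
    simp only [Complex.ofReal_zero, zero_smul, add_zero] at h1
    exact (hloc _ hT1 h1).1
  -- the extension
  obtain ⟨ε, hε, hext⟩ := ext_of_coef (δ := d p) (r₁ := d p) (R' := 3 / 2 * d p) (R := 2 * d p) (hd0 p) (hd0 p) (by have := hd0 p; linarith only [this]) (by have := hd0 p; linarith only [this])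
  obtain ⟨K₀, hK₀⟩ := hext p (Real.sqrt c)⁻¹
  obtain ⟨e₁, he₁⟩ : ∃ e₁, e₁ = min ε (d p) := ⟨_, rfl⟩
  have he₁0 : 0 < e₁ := by rw [he₁]; exact lt_min hε (hd0 p)
  have he₁a : e₁ ≤ ε := by rw [he₁]; exact min_le_left _ _
  have he₁b : e₁ ≤ d p := by rw [he₁]; exact min_le_right _ _
  refine ⟨v, e₁, ∑ _j : Fin (N + 1), K₀, he₁0, ?_⟩
  filter_upwards [hev2] with y' hy'
  obtain ⟨hy'K, hy'A⟩ := (hA _ _).1 hy'
  have hss : ∀ s ∈ Set.Icc ((0 : ℝ) - d p) (0 + d p), |s| < r₃ := by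
    intro s hs
    have h1 : |s| ≤ d p := abs_le.2 ⟨by linarith [hs.1], by linarith only [hs, hs.2]⟩
    have := hd2 p
    have := hd0 p
    linarith
  have hzz : ∀ z ∈ ball (0 : ℂ) (2 * d p), ‖z‖ < r₃ := by
    intro z hz
    rw [mem_ball, dist_zero_right] at hz
    exact hz.trans_le (hd2 p)
  have hvl : ∀ s ∈ Set.Icc ((0 : ℝ) - d p) (0 + d p), ∃ F : ℂ → EN N, Differentiable ℂ F ∧ (∀ z, sl φ a ν y' s z = pr (F z)) ∧ ∀ w ∈ ball (0 : ℂ) (2 * d p),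
      inner ℂ v (F w) ≠ (0 : ℂ) ∧ nv v (sl φ a ν y' s w) = (inner ℂ v (F w) : ℂ)⁻¹ • F w ∧ ‖nv v (sl φ a ν y' s w)‖ ≤ (Real.sqrt c)⁻¹ := by
    intro s hs
    obtain ⟨F, hF, hF0, hFΦ⟩ := hlift y' hy'K s
    refine ⟨F, hF, hFΦ, fun w hw => ?_⟩
    have h1 := hlow y' hy'K s w (hss s hs) (hzz w hw)
    rw [hFΦ] at h1 ⊢
    obtain ⟨h2, h3⟩ := nv_bd hc h1 (hF0 w)
    exact ⟨h2, nv_pr h2, h3⟩
  refine asm (δ := d p) (R := 2 * d p) (K := K₀) v (hlift y' hy'K) hc (fun s hs w hw => hlow y' hy'K s w (hss s hs) (hzz w hw)) he₁0 he₁b (by have := hd0 p; linarith only [he₁0, he₁b]) fun j => ?_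
  obtain ⟨G, hG1, hG2, hG3⟩ := hK₀ (fun s z => nv v (sl φ a ν y' s z) j) 0 0 (by
      rintro ⟨s, z⟩ ⟨hs, hz⟩
      have h1 := hfc j (y', s, z) ⟨hy'K, hss s hs, hzz z hz⟩
      have h2 : Continuous fun q : ℝ × ℂ => ((y', q.1, q.2) : Vd (k + 1) × ℝ × ℂ) := by fun_prop
      refine ContinuousWithinAt.comp (g := fun q : Vd (k + 1) × ℝ × ℂ => nv v (sl φ a ν q.1 q.2.1 q.2.2) j) (f := fun q : ℝ × ℂ => ((y', q.1, q.2) : Vd (k + 1) × ℝ × ℂ)) h1 h2.continuousWithinAt ?_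
      rintro ⟨s', z'⟩ ⟨hs', hz'⟩
      exact ⟨hy'K, hss s' hs', hzz z' hz'⟩)
    (by
      intro s hs
      obtain ⟨F, hF, hFΦ, hv⟩ := hvl s hs
      have e : Set.EqOn (fun w => nv v (sl φ a ν y' s w) j) (fun w => (inner ℂ v (F w) : ℂ)⁻¹ * F w j) (ball 0 (2 * d p)) := by
        intro w hw
        simp only
        rw [(hv w hw).2.1]
        simp [PiLp.smul_apply, smul_eq_mul]
      refine DifferentiableOn.congr ?_ e
      have hd1 : Differentiable ℂ fun w => (inner ℂ v (F w) : ℂ) := (innerSL ℂ v).differentiable.comp hF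
      have hd2 : Differentiable ℂ fun w => F w j := (EuclideanSpace.proj (𝕜 := ℂ) j : EN N →L[ℂ] ℂ).differentiable.comp hF
      exact (hd1.differentiableOn.inv fun w hw => (hv w hw).1).mul hd2.differentiableOn)
    (by
      intro s hs w hw
      obtain ⟨F, hF, hFΦ, hv⟩ := hvl s hs
      exact (PiLp.norm_apply_le _ j).trans (hv w hw).2.2)
    (fun z hz n => hy'A j z hz n)
  have hb : ball (0 : ℂ) e₁ ⊆ ball 0 (3 / 2 * d p) := ball_subset_ball (by have := hd0 p; linarith)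
  exact ⟨G, hG1.mono (Set.prod_mono (ball_subset_ball he₁a) hb), fun x hx => hG2 x ⟨ball_subset_ball he₁a hx.1, hb hx.2⟩,
    fun s hs w hw => hG3 s (ball_subset_ball he₁a hs) w (hb hw)⟩

end Pool.Agent.G4.C

end
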