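import Pool.Agent.H94.G4T.G4.C.PZ
import Pool.Agent.H94.G4T.M159
import Pool.Agent.H94.G4T.M160

/-! The parts of this file: G4.C.LeafT, G4.C.UniT, G4.C.MainC. -/

section

/-!
# G4 C LeafT: every line of direction `a` meets the set where the sheets extend

`sl_stab`: there is `n ≥ 1` with `φ (y + n l) = φ y` for all `φ ∈ SS`, `l ∈ Λ ∩ E`, `y ∈ T`.
-/

set_option autoImplicit false

open Topology Filter Metric

namespace Pool.Agent.G4.C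

open Pool.Agent.H36.BP (EN fs wd)
open Pool.Agent.H14.PP (IsCone)
open Pool.Agent.H62.EF (MN pr)
open Pool.Agent.AD (Vd Chart Charts)
open Pool.Agent.TG (TMap Lat Str ms tl Gd)
open Pool.Agent.G3.A (Tb Hc NL)
open Pool.Agent.G3.C

variable {N k : ℕ} {X : Set (EN N)} {Λ : AddSubgroup (Vd (k + 1))} {u : EN N → Vd (k + 1)} {ν a b : Vd (k + 1)} {m : ℕ} {E : Submodule ℝ (Vd (k + 1))}
  {D Bad Nν : Set (Vd (k + 1))} {SS : Set (Vd (k + 1) → MN N)} {φ : Vd (k + 1) → MN N}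

theorem ue_exists (S : TDat X Λ u a ν b E D Bad SS) (ha : ‖a‖ = 1) {P : JForm X Λ u ν m} (hA : AlgP D P) (hP : ThP P a Nν) (hφ : φ ∈ SS) :
    ∃ y₁ ∈ Tb b E, y₁ ∉ D ∧ UE (𝓝[Tb b E] y₁) (fun y => sl φ a ν y) 0 0 := by
  have hb : b ∈ Tb b E := by
    show b - b ∈ E
    rw [sub_self]
    exact E.zero_mem
  have hc : Continuous fun z : ℂ => b + z • a := by fun_prop
  obtain ⟨z₀, hz₀⟩ := hP.line b
  have h1 : ∀ᶠ z in 𝓝 z₀, b + z • a ∉ Nν := hc.continuousAt.eventually (hP.closed.isOpen_compl.mem_nhds hz₀)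
  obtain ⟨z, hzN, hzD⟩ := ((h1.filter_mono nhdsWithin_le_nhds).and (S.iso b z₀)).exists
  obtain ⟨y₀, hy₀⟩ : ∃ y₀, y₀ = b + z • a := ⟨_, rfl⟩
  rw [← hy₀] at hzN hzD
  have hy₀T : y₀ ∈ Tb b E := by
    rw [hy₀]
    exact S.add_mem hb (S.a_mem z)
  obtain ⟨r, hr, hball⟩ := Metric.isOpen_iff.1 (hP.closed.isOpen_compl.inter S.D_closed.isOpen_compl) y₀ ⟨hzN, hzD⟩
  refine ue_open S hφ hy₀T hzD hr fun y hy hyr δ hδ => ?_
  obtain ⟨hyN, hyD⟩ := hball (show y ∈ ball y₀ r by rwa [mem_ball, dist_eq_norm])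
  have e0 : y + ((0 : ℝ) : ℂ) • ν + (0 : ℂ) • a = y := by simp
  obtain ⟨s₁, z₁, ε, h2, h3, h4, h5⟩ := near_EAt (S.sdat hφ hy) hP (pzs S ha hA hφ hy) (s₀ := 0) (z₀ := 0)
    (show ¬ (y + ((0 : ℝ) : ℂ) • ν + (0 : ℂ) • a ∈ D) by rwa [e0]) (by rwa [e0]) hδ
  exact ⟨s₁, z₁, ε, by rwa [sub_zero] at h2, by rwa [sub_zero] at h3, h4, h5⟩

theorem sl_stab (S : TDat X Λ u a ν b E D Bad SS) : ∃ n : ℕ, 0 < n ∧ ∀ φ ∈ SS, ∀ l ∈ Λ, l ∈ E → ∀ y ∈ Tb b E, φ (y + n • l) = φ y := by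
  refine ⟨S.fin.toFinset.card.factorial, Nat.factorial_pos _, fun φ hφ l hl hlE => ?_⟩
  have hmul : ∀ j : ℕ, j • l ∈ Λ ∧ j • l ∈ E := fun j => ⟨Λ.nsmul_mem hl j, E.nsmul_mem hlE j⟩
  have hψ : ∀ j : ℕ, ∃ ψ ∈ SS, ∀ y ∈ Tb b E, ψ y = φ (y + j • l) := fun j => S.tr φ hφ _ (hmul j).1 (hmul j).2
  choose ψ hψS hψe using hψ
  obtain ⟨i, hi, j, hj, hne, hij⟩ := Finset.exists_ne_map_eq_of_card_lt_of_maps_to (s := Finset.range (S.fin.toFinset.card + 1)) (t := S.fin.toFinset) (f := ψ)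
    (by rw [Finset.card_range]; exact Nat.lt_succ_self _) (fun j _ => by rw [Finset.mem_coe, Set.Finite.mem_toFinset]; exact hψS j)
  obtain ⟨p, hp0, hpn, hp⟩ : ∃ p : ℕ, 0 < p ∧ p ≤ S.fin.toFinset.card ∧ ∀ y ∈ Tb b E, φ (y + p • l) = φ y := by
    have key : ∀ i j : ℕ, i < j → ψ i = ψ j → ∀ y ∈ Tb b E, φ (y + (j - i) • l) = φ y := by
      intro i j hlt he y hy
      have hy' : y - i • l ∈ Tb b E := by
        have h2 := S.add_mem hy (E.neg_mem (hmul i).2)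
        rwa [← sub_eq_add_neg] at h2
      have h3 := hψe i _ hy'
      have h4 := hψe j _ hy'
      rw [he, h4, sub_add_cancel] at h3
      rw [← h3]
      congr 1
      have h5 : j • l = (j - i) • l + i • l := by rw [← add_smul, Nat.sub_add_cancel hlt.le]
      rw [h5]
      abel
    rw [Finset.mem_range] at hi hj
    rcases lt_or_gt_of_ne hne with h | h
    · exact ⟨j - i, by omega, by omega, key i j h hij⟩
    · exact ⟨i - j, by omega, by omega, key j i h hij.symm⟩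
  obtain ⟨q, hq⟩ : p ∣ S.fin.toFinset.card.factorial := Nat.dvd_factorial hp0 hpn
  have hrep : ∀ q : ℕ, ∀ y ∈ Tb b E, φ (y + (p * q) • l) = φ y := by
    intro q
    induction q with
    | zero => intro y _; rw [mul_zero, zero_smul, add_zero]
    | succ q ih =>
      intro y hy
      have h1 : y + (p * (q + 1)) • l = (y + (p * q) • l) + p • l := by
        rw [mul_add, mul_one, add_smul]
        abel
      rw [h1, hp _ (S.add_mem hy (hmul _).2), ih y hy]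
  intro y hy
  rw [hq]
  exact hrep q y hy

theorem EAtB.shift {v : EN N} {Φ Φ' : ℝ → ℂ → MN N} {s₀ : ℝ} {z₀ : ℂ} {ε M : ℝ} (h : EAtB v Φ' 0 0 ε M) (he : ∀ s z, Φ' s z = Φ (s₀ + s) (z₀ + z)) : EAtB v Φ s₀ z₀ ε M := by
  obtain ⟨F, hF, hF0, hFs⟩ := h
  have hm : ∀ p : ℂ × ℂ, p ∈ ball ((s₀ : ℂ), z₀) ε → (p.1 - s₀, p.2 - z₀) ∈ ball (((0 : ℝ) : ℂ), (0 : ℂ)) ε := by
    intro p hp
    rw [mem_ball, Prod.dist_eq] at hp ⊢
    rw [Complex.ofReal_zero]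
    simpa [dist_eq_norm] using hp
  refine ⟨fun p => F (p.1 - s₀, p.2 - z₀), ?_, fun p hp => hF0 _ (hm p hp), fun s z hp => ?_⟩
  · refine hF.comp ?_ hm
    have : Differentiable ℂ fun p : ℂ × ℂ => (p.1 - (s₀ : ℂ), p.2 - z₀) := by fun_prop
    exact this.differentiableOn
  · have h1 := hFs (s - s₀) (z - z₀) (by
      have := hm _ hp
      push_cast
      exact this)
    rw [he, add_sub_cancel, add_sub_cancel] at h1
    rw [h1]
    push_cast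
    rfl

theorem ue_line (S : TDat X Λ u a ν b E D Bad SS) (ha : ‖a‖ = 1) {P : JForm X Λ u ν m} (hA : AlgP D P) (hP : ThP P a Nν) (hφ : φ ∈ SS) {y : Vd (k + 1)} (hy : y ∈ Tb b E) :
    ∃ z : ℂ, y + z • a ∉ D ∧ UE (𝓝[Tb b E] y) (fun y' => sl φ a ν y') 0 z := by
  obtain ⟨y₁, hy₁, hy₁D, v, ε, M, hε, hev⟩ := ue_exists S ha hA hP hφ
  obtain ⟨n, hn, hstab⟩ := sl_stab S
  obtain ⟨δ, hδ, hball⟩ := Metric.mem_nhdsWithin_iff.1 (hev.and (mem_nhdsWithin_of_mem_nhds (S.D_closed.isOpen_compl.mem_nhds hy₁D)))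
  have hn' : (0 : ℝ) < n := by exact_mod_cast hn
  have hnC : (n : ℂ) ≠ 0 := by exact_mod_cast hn.ne'
  have hvE : ((n : ℝ)⁻¹) • (y₁ - y) ∈ E := by
    refine E.smul_mem _ ?_
    have e : y₁ - y = (y₁ - b) - (y - b) := by abel
    rw [e]
    exact E.sub_mem hy₁ hy
  obtain ⟨l, hl, hlE, z, hz⟩ := S.dns _ hvE (δ / (2 * n)) (by positivity)
  have hnl : (n • l) ∈ Λ ∧ n • l ∈ E := ⟨Λ.nsmul_mem hl n, E.nsmul_mem hlE n⟩
  obtain ⟨z', hz'⟩ : ∃ z' : ℂ, z' = n * z := ⟨_, rfl⟩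
  have hd : ‖y + z' • a + n • l - y₁‖ < δ := by
    have e : y + z' • a + n • l - y₁ = -((n : ℝ) • (((n : ℝ)⁻¹) • (y₁ - y) - (l + z • a))) := by
      rw [smul_sub, smul_smul, mul_inv_cancel₀ hn'.ne', one_smul, smul_add, hz', mul_smul]
      have e1 : (n : ℝ) • l = n • l := by rw [Nat.cast_smul_eq_nsmul]
      have e2 : (n : ℝ) • z • a = (n : ℂ) • z • a := by
        rw [← Complex.coe_smul]
        push_cast
        rfl
      rw [e1, e2]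
      abel
    rw [e, norm_neg, norm_smul, Real.norm_of_nonneg hn'.le]
    calc (n : ℝ) * ‖((n : ℝ)⁻¹) • (y₁ - y) - (l + z • a)‖ ≤ n * (δ / (2 * n)) := by gcongr
      _ = δ / 2 := by field_simp
      _ < δ := by linarith
  have hmem : ∀ y' ∈ Tb b E, y' + z' • a + n • l ∈ Tb b E := fun y' hy' => S.add_mem (S.add_mem hy' (S.a_mem z')) hnl.2
  have hc : Continuous fun y' : Vd (k + 1) => y' + z' • a + n • l := by fun_prop
  refine ⟨z', fun hD => ?_, v, ε, M, hε, ?_⟩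
  · have h1 := hball ⟨show y + z' • a + n • l ∈ ball y₁ δ by rwa [mem_ball, dist_eq_norm], hmem y hy⟩
    exact h1.2 (S.D_inv _ hD _ hnl.1)
  · have h2 : ∀ᶠ y' in 𝓝 y, y' + z' • a + n • l ∈ ball y₁ δ :=
      hc.continuousAt.eventually (isOpen_ball.mem_nhds (by rwa [mem_ball, dist_eq_norm]))
    filter_upwards [self_mem_nhdsWithin, h2.filter_mono nhdsWithin_le_nhds] with y' hy' hyb
    have h3 : EAtB v (sl φ a ν (y' + z' • a + n • l)) 0 0 ε M := (hball ⟨hyb, hmem y' hy'⟩).1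
    refine h3.shift fun s w => ?_
    rw [zero_add]
    show φ (y' + z' • a + n • l + (s : ℂ) • ν + w • a) = φ (y' + (s : ℂ) • ν + (z' + w) • a)
    have e : y' + z' • a + n • l + (s : ℂ) • ν + w • a = (y' + (s : ℂ) • ν + (z' + w) • a) + n • l := by
      rw [add_smul]
      abel
    rw [e]
    exact hstab φ hφ l hl hlE _ (S.tb hy' s (z' + w))

end Pool.Agent.G4.C

end

section

/-!
# G4 C UniT: the sheets extend to complex parameters, uniformly over `T ∩ Gd D δ`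

`sm_cont`: near a point of `T` off `D` the sheet is continuous on `T`.  `ue_all`: `spread_u` along the line.  `eat_unif`: compactness of `T ∩ Gd D δ` modulo `Λ ∩ E`.
-/

set_option autoImplicit false

open Topology Filter Metric

namespace Pool.Agent.G4.C

open Pool.Agent.H36.BP (EN fs wd)
open Pool.Agent.H14.PP (IsCone)
open Pool.Agent.H62.EF (MN pr continuousAt_pr)
open Pool.Agent.AD (Vd Chart Charts)
open Pool.Agent.TG (TMap Lat Str ms tl Gd gd_notMem gd_closed)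
open Pool.Agent.G3.A (Tb Hc NL)
open Pool.Agent.G3.C

variable {N k : ℕ} {X : Set (EN N)} {Λ : AddSubgroup (Vd (k + 1))} {u : EN N → Vd (k + 1)} {ν a b : Vd (k + 1)} {m : ℕ} {E : Submodule ℝ (Vd (k + 1))}
  {D Bad Nν : Set (Vd (k + 1))} {SS : Set (Vd (k + 1) → MN N)} {φ : Vd (k + 1) → MN N}

/-- the sheets are continuous on `T` off `D` -/
theorem sm_cont (S : TDat X Λ u a ν b E D Bad SS) (hφ : φ ∈ SS) {y₀ : Vd (k + 1)} (hy₀ : y₀ ∈ Tb b E) (hD : y₀ ∉ D) : ContinuousWithinAt φ (Tb b E) y₀ := by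
  obtain ⟨χ, c, ρ, w, r, B⟩ := S.smo φ hφ y₀ hy₀ hD
  have hT : Tb b E ∩ ball y₀ r ∈ 𝓝[Tb b E] y₀ := inter_mem self_mem_nhdsWithin (mem_nhdsWithin_of_mem_nhds (ball_mem_nhds y₀ B.pos))
  have hy₀' : y₀ ∈ Tb b E ∩ ball y₀ r := ⟨hy₀, mem_ball_self B.pos⟩
  have hw : ContinuousWithinAt (w 0) (Tb b E) y₀ := by
    have h1 := (B.cont 0) y₀ hy₀'
    rwa [ContinuousWithinAt, nhdsWithin_inter_of_mem' (mem_nhdsWithin_of_mem_nhds (ball_mem_nhds y₀ B.pos))] at h1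
  have hq : cy c ρ (w 0 y₀) y₀ ∈ ball (0 : Vd (k + 2)) 2 := B.mem y₀ hy₀'
  have hcy : ContinuousAt (fun p : ℂ × Vd (k + 1) => cy c ρ p.1 p.2) (w 0 y₀, y₀) := (cy_analytic analyticAt_fst analyticAt_snd).continuousAt
  have hcy' : ContinuousWithinAt (fun y => cy c ρ (w 0 y) y) (Tb b E) y₀ :=
    ContinuousAt.comp_continuousWithinAt (g := fun p : ℂ × Vd (k + 1) => cy c ρ p.1 p.2) (f := fun y => ((w 0 y, y) : ℂ × Vd (k + 1))) hcy (hw.prodMk continuousWithinAt_id)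
  have hσ : ContinuousWithinAt (fun y => χ.σ (cy c ρ (w 0 y) y)) (Tb b E) y₀ :=
    ContinuousAt.comp_continuousWithinAt (g := χ.σ) (f := fun y => cy c ρ (w 0 y) y) (χ.σ_an _ hq).continuousAt hcy'
  have hne : χ.σ (cy c ρ (w 0 y₀) y₀) ≠ 0 := fun h => S.cone.zero_notMem (h ▸ (χ.σ_mem _ hq).1)
  have hpr : ContinuousWithinAt (fun y => pr (χ.σ (cy c ρ (w 0 y) y))) (Tb b E) y₀ :=
    ContinuousAt.comp_continuousWithinAt (g := pr) (f := fun y => χ.σ (cy c ρ (w 0 y) y)) (continuousAt_pr hne) hσ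
  refine hpr.congr_of_eventuallyEq ?_ (B.eq y₀ hy₀')
  filter_upwards [hT] with y hy using B.eq y hy

theorem ue_all (S : TDat X Λ u a ν b E D Bad SS) (ha : ‖a‖ = 1) {P : JForm X Λ u ν m} (hA : AlgP D P) (hP : ThP P a Nν) (hφ : φ ∈ SS) {y : Vd (k + 1)} (hy : y ∈ Tb b E) (hD : y ∉ D) :
    UE (𝓝[Tb b E] y) (fun y' => sl φ a ν y') 0 0 := by
  obtain ⟨z₁, hz₁, hE⟩ := ue_line S ha hA hP hφ hy
  -- the families, indexed by the points of `T`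
  have hfil : ∀ p : Vd (k + 1) → Prop, (∀ᶠ i : Tb b E in 𝓝 (⟨y, hy⟩ : Tb b E), p i) ↔ ∀ᶠ y' in 𝓝[Tb b E] y, p y' :=
    fun p => eventually_nhds_subtype_iff (Tb b E) ⟨y, hy⟩ p
  have hUE : ∀ z, UE (𝓝 (⟨y, hy⟩ : Tb b E)) (fun i : Tb b E => sl φ a ν i) 0 z ↔ UE (𝓝[Tb b E] y) (fun y' => sl φ a ν y') 0 z := by
    intro z
    constructor
    · rintro ⟨v, ε, M, hε, h⟩
      exact ⟨v, ε, M, hε, (hfil fun y' => EAtB v (sl φ a ν y') 0 z ε M).1 h⟩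
    · rintro ⟨v, ε, M, hε, h⟩
      exact ⟨v, ε, M, hε, (hfil fun y' => EAtB v (sl φ a ν y') 0 z ε M).2 h⟩
  have hfam : UFam (𝓝 (⟨y, hy⟩ : Tb b E)) (fun i : Tb b E => sl φ a ν i) 0 {z | y + z • a ∉ D} := by
    refine ⟨fun i s => ?_, fun z hz => ?_⟩
    · obtain ⟨F, hF, hFs⟩ := (S.sdat hφ i.2).lift s
      exact ⟨F, hF.1, fun z h0 => S.cone.zero_notMem (h0 ▸ hF.2.1 z), hFs⟩
    · obtain ⟨y₀, hy₀⟩ : ∃ y₀, y₀ = y + z • a := ⟨_, rfl⟩
      have hy₀T : y₀ ∈ Tb b E := by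
        rw [hy₀]
        exact S.add_mem hy (S.a_mem z)
      have hy₀D : y₀ ∉ D := by
        rw [hy₀]
        exact hz
      obtain ⟨F, hF, hFs⟩ := S.line φ hφ y hy
      have hF0 : F z ≠ 0 := fun h0 => S.cone.zero_notMem (h0 ▸ hF.2.1 z)
      obtain ⟨v, hv⟩ : ∃ v, v = F z := ⟨_, rfl⟩
      have hvF : (inner ℂ v (F z) : ℂ) ≠ 0 := by
        rw [hv]
        exact inner_self_ne_zero.2 hF0
      have hφy₀ : φ y₀ = pr (F z) := by rw [hy₀, hFs]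
      have hnd : nd v (φ y₀) ≠ 0 := by
        rw [hφy₀]
        exact (nd_pr_ne hF0).2 hvF
      obtain ⟨c, hc⟩ : ∃ c, c = ‖nd v (φ y₀)‖ / 2 := ⟨_, rfl⟩
      have hc0 : 0 < c := by
        rw [hc]
        exact half_pos (norm_pos_iff.2 hnd)
      have hcont : ContinuousWithinAt (fun y' => ‖nd v (φ y')‖) (Tb b E) y₀ :=
        ((nd_cont v).continuousAt.comp_continuousWithinAt (sm_cont S hφ hy₀T hy₀D)).norm
      have hlow : ∀ᶠ y' in 𝓝[Tb b E] y₀, c < ‖nd v (φ y')‖ := by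
        refine hcont.eventually_const_lt ?_
        rw [hc]
        have := norm_pos_iff.2 hnd
        linarith
      have hD' : ∀ᶠ y' in 𝓝[Tb b E] y₀, y' ∉ D := mem_nhdsWithin_of_mem_nhds (S.D_closed.isOpen_compl.mem_nhds hy₀D)
      obtain ⟨r₃, hr₃, hball⟩ := Metric.mem_nhdsWithin_iff.1 (hlow.and hD')
      have hg : Continuous fun q : Vd (k + 1) × ℝ × ℂ => q.1 + (q.2.1 : ℂ) • ν + q.2.2 • a := by fun_prop
      obtain ⟨δ, hδ, hin⟩ := Metric.isOpen_iff.1 (isOpen_ball.preimage hg) (y, 0, z) (show y + ((0 : ℝ) : ℂ) • ν + z • a ∈ ball y₀ r₃ by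
        rw [Complex.ofReal_zero, zero_smul, add_zero, ← hy₀]
        exact mem_ball_self hr₃)
      have hin' : ∀ i ∈ ball y δ, ∀ s : ℝ, |s| < δ → ∀ w ∈ ball z δ, i + (s : ℂ) • ν + w • a ∈ ball y₀ r₃ := by
        intro i hi s hs w hw
        refine hin (a := (i, s, w)) ?_
        rw [mem_ball, Prod.dist_eq, Prod.dist_eq]
        refine max_lt hi (max_lt ?_ hw)
        rwa [Real.dist_eq, sub_zero]
      refine ⟨v, δ / 2, c, by linarith, hc0, ?_⟩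
      have h5 : ∀ᶠ i : Tb b E in 𝓝 (⟨y, hy⟩ : Tb b E), (i : Vd (k + 1)) ∈ ball y δ := (hfil fun y' => y' ∈ ball y δ).2 (mem_nhdsWithin_of_mem_nhds (ball_mem_nhds y hδ))
      filter_upwards [h5] with i hi s hs w hw
      have hs' : |s| < δ := by
        rw [abs_lt]
        constructor <;> linarith [hs.1, hs.2]
      have hw' : w ∈ ball z δ := ball_subset_ball (by linarith) hw
      have hb := hin' i hi s hs' w hw'
      have hT := S.tb i.2 s w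
      obtain ⟨h6, h7⟩ := hball ⟨hb, hT⟩
      refine ⟨?_, h6.le⟩
      have h8 : Tendsto φ (𝓝[Tb b E] ((i : Vd (k + 1)) + (s : ℂ) • ν + w • a)) (𝓝 (φ ((i : Vd (k + 1)) + (s : ℂ) • ν + w • a))) := sm_cont S hφ hT h7
      have h9 : Tendsto (fun q : ℝ × ℂ => (i : Vd (k + 1)) + (q.1 : ℂ) • ν + q.2 • a) (𝓝 (s, w)) (𝓝[Tb b E] ((i : Vd (k + 1)) + (s : ℂ) • ν + w • a)) := by
        refine tendsto_nhdsWithin_iff.2 ⟨(slc_cont a ν (i : Vd (k + 1))).tendsto (s, w), Eventually.of_forall fun q => S.tb i.2 q.1 q.2⟩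
      exact h8.comp h9
  have hcon : IsPreconnected {z : ℂ | y + z • a ∉ D} := by
    obtain ⟨δ₀, h0, h⟩ := Pool.Agent.G4.A.exists_lc (S.lg ha) (ρ := 1 / 8) (by norm_num) le_rfl
    have h1 : {z : ℂ | y + z • a ∈ D}.Countable := (h δ₀ h0 le_rfl).countable y
    have h2 : IsConnected {z : ℂ | y + z • a ∈ D}ᶜ := Set.Countable.isConnected_compl_of_one_lt_rank (by simp) h1
    exact h2.isPreconnected
  refine (hUE 0).1 (spread_u hfam hcon hz₁ ((hUE z₁).2 hE) 0 ?_)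
  show y + (0 : ℂ) • a ∉ D
  rwa [zero_smul, add_zero]

theorem eat_unif (S : TDat X Λ u a ν b E D Bad SS) (ha : ‖a‖ = 1) {P : JForm X Λ u ν m} (hA : AlgP D P) (hP : ThP P a Nν) {δ : ℝ} (hδ : 0 < δ) :
    ∃ ε : ℝ, 0 < ε ∧ ∀ φ ∈ SS, ∀ y ∈ Tb b E, y ∈ Gd D δ → EAt (sl φ a ν y) 0 0 ε := by
  obtain ⟨R, hR, hRl⟩ := S.cpt
  obtain ⟨K, hKd⟩ : ∃ K : Set (Vd (k + 1)), K = (Tb b E ∩ Gd D δ) ∩ closedBall b R := ⟨_, rfl⟩
  have hK : IsCompact K := by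
    rw [hKd]
    exact (isCompact_closedBall b R).inter_left ((tb_closed b E).inter (gd_closed D δ))
  have h1 : ∀ φ ∈ SS, ∃ ε : ℝ, 0 < ε ∧ ∀ y ∈ K, EAt (sl φ a ν y) 0 0 ε := by
    intro φ hφ
    refine hK.induction_on (p := fun Z => ∃ ε : ℝ, 0 < ε ∧ ∀ y ∈ Z, EAt (sl φ a ν y) 0 0 ε) ⟨1, one_pos, fun y hy => absurd hy (Set.notMem_empty y)⟩ ?_ ?_ ?_
    · rintro Z Z' hZ ⟨C, hC, h⟩
      exact ⟨C, hC, fun y hy => h y (hZ hy)⟩
    · rintro Z Z' ⟨C, hC, h⟩ ⟨C', hC', h'⟩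
      refine ⟨min C C', lt_min hC hC', fun y hy => ?_⟩
      rcases hy with hy | hy
      · exact (h y hy).mono (min_le_left _ _)
      · exact (h' y hy).mono (min_le_right _ _)
    · intro y hy
      rw [hKd] at hy
      obtain ⟨v, ε, M, hε, hev⟩ := ue_all S ha hA hP hφ hy.1.1 (gd_notMem hδ hy.1.2)
      refine ⟨{y' | EAtB v (sl φ a ν y') 0 0 ε M}, ?_, ε, hε, fun y' hy' => EAtB.eat hy'⟩
      refine nhdsWithin_mono y ?_ hev
      rw [hKd]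
      exact fun y hy => hy.1.1
  choose! ε hε0 hε using h1
  obtain ⟨e, he, hle⟩ : ∃ e : ℝ, 0 < e ∧ ∀ φ ∈ SS, e ≤ ε φ := by
    rcases SS.eq_empty_or_nonempty with h0 | h0
    · exact ⟨1, one_pos, fun φ hφ => by rw [h0] at hφ; exact absurd hφ (Set.notMem_empty φ)⟩
    · obtain ⟨φ₀, hφ₀, hmin⟩ := Set.exists_min_image SS ε S.fin h0
      exact ⟨ε φ₀, hε0 φ₀ hφ₀, hmin⟩
  refine ⟨e, he, fun φ hφ y hy hyG => ?_⟩
  obtain ⟨l, hl, hlE, hlR⟩ := hRl (y - b) hy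
  obtain ⟨φ', hφ', hφ'e⟩ := S.tr φ hφ l hl hlE
  have hyl : y - l ∈ Tb b E := by
    have h2 := S.add_mem hy (E.neg_mem hlE)
    rwa [← sub_eq_add_neg] at h2
  have hK' : y - l ∈ K := by
    rw [hKd]
    refine ⟨⟨hyl, ?_⟩, ?_⟩
    · intro β hβ
      have h1 := hyG _ (S.D_inv β hβ l hl)
      have h2 : y - (β + l) = y - l - β := by abel
      rwa [h2] at h1
    · rw [mem_closedBall, dist_eq_norm]
      have e1 : y - l - b = y - b - l := by abel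
      rwa [e1]
  have h3 := (hε φ' hφ' _ hK').mono (hle φ' hφ')
  have e2 : sl φ a ν y = sl φ' a ν (y - l) := by
    funext s z
    show φ (y + (s : ℂ) • ν + z • a) = φ' (y - l + (s : ℂ) • ν + z • a)
    rw [hφ'e _ (S.tb hyl s z)]
    congr 1
    abel
  rwa [e2]

end Pool.Agent.G4.C

end

section

/-!
# G4 C Main: block (C)
-/

set_option autoImplicit false

open Topology Filter Metric

namespace Pool.Agent.G4.C

open Pool.Agent.H36.BP (EN fs wd)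
open Pool.Agent.H14.PP (IsCone)
open Pool.Agent.H62.EF (MN pr)
open Pool.Agent.AD (Vd Chart Charts)
open Pool.Agent.TG (TMap Lat Str ms tl Gd)
open Pool.Agent.G3.A (Tb Hc NL)
open Pool.Agent.G3.C

variable {N k : ℕ} {X : Set (EN N)} {Λ : AddSubgroup (Vd (k + 1))} {u : EN N → Vd (k + 1)} {ν a b : Vd (k + 1)} {m : ℕ} {E : Submodule ℝ (Vd (k + 1))}
  {D Bad Nν : Set (Vd (k + 1))} {SS : Set (Vd (k + 1) → MN N)} {φ : Vd (k + 1) → MN N}

private theorem mc_eat (y : Vd (k + 1)) {s₀ : ℝ} {z₀ : ℂ} {ε : ℝ} (h : EAt (sl φ a ν (y + (s₀ : ℂ) • ν + z₀ • a)) 0 0 ε) : EAt (sl φ a ν y) s₀ z₀ ε := by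
  obtain ⟨F, hF, hF0, hFs⟩ := h
  have hm : ∀ p : ℂ × ℂ, p ∈ ball ((s₀ : ℂ), z₀) ε → (p.1 - s₀, p.2 - z₀) ∈ ball (((0 : ℝ) : ℂ), (0 : ℂ)) ε := by
    intro p hp
    rw [mem_ball, Prod.dist_eq] at hp ⊢
    rw [Complex.ofReal_zero]
    simpa [dist_eq_norm] using hp
  refine ⟨fun p => F (p.1 - s₀, p.2 - z₀), ?_, fun p hp => hF0 _ (hm p hp), fun s z hp => ?_⟩
  · refine hF.comp ?_ hm
    have : Differentiable ℂ fun p : ℂ × ℂ => (p.1 - (s₀ : ℂ), p.2 - z₀) := by fun_prop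
    exact this.differentiableOn
  · have h1 := hFs (s - s₀) (z - z₀) (by
      have := hm _ hp
      push_cast
      exact this)
    have h2 := sl_add (φ := φ) (ν := ν) (a := a) y s₀ (s - s₀) z₀ (z - z₀)
    rw [add_sub_cancel, add_sub_cancel] at h2
    rw [h2, h1]
    push_cast
    rfl

theorem bc {d : ℕ} (S : TDat X Λ u a ν b E D Bad SS) (ha : ‖a‖ = 1) (hch : Charts d X) {P : JForm X Λ u ν m} (hA : AlgP D P) (hP : ThP P a Nν)
    (hex : ∀ f ∈ Hc X Λ u a b, ∃ φ ∈ SS, ∀ z : ℂ, f z = φ (b + z • a)) : Pool.Agent.G3.E.BC X Λ u a ν b := by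
  obtain ⟨δ, hδ, hcirc⟩ := S.circ ha (η := 1) one_pos
  obtain ⟨ε, hε, hE⟩ := eat_unif S ha hA hP hδ
  have hb : b ∈ Tb b E := by
    show b - b ∈ E
    rw [sub_self]
    exact E.zero_mem
  refine ⟨ε, hε, fun f hf => ?_⟩
  obtain ⟨φ, hφ, hφf⟩ := hex f hf
  have SD := S.sdat hφ hb
  have hΦ : ∀ s : ℝ, ∃ F ∈ Gc X Λ u a (b + (s : ℂ) • ν), ∀ z, sl φ a ν b s z = pr (F z) := SD.lift
  have hl : ∀ s : ℝ, ∃ F : ℂ → EN N, Differentiable ℂ F ∧ (∀ z, F z ≠ 0) ∧ ∀ z, sl φ a ν b s z = pr (F z) := fun s => by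
    obtain ⟨F, hF, hFs⟩ := hΦ s
    exact ⟨F, hF.1, fun z h0 => S.cone.zero_notMem (h0 ▸ hF.2.1 z), hFs⟩
  obtain ⟨Ψ, h1, h2, h3⟩ := glue S.cone hch S.tor S.lat hΦ hε (fun s₀ z₀ => by
    obtain ⟨r, hr, -, hcr⟩ := hcirc (b + (s₀ : ℂ) • ν + z₀ • a)
    obtain ⟨W, r₂, hr₂, hW, hWr⟩ := fill hl (s₀ := s₀) (z₀ := z₀) hr hε (fun z hz => by
      refine mc_eat b (hE φ hφ _ (S.tb hb s₀ z) ?_)
      have h4 := hcr (z - z₀) (by rw [← dist_eq_norm]; exact hz)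
      have e : b + (s₀ : ℂ) • ν + z₀ • a + (z - z₀) • a = b + (s₀ : ℂ) • ν + z • a := by
        rw [sub_smul]
        abel
      rwa [e] at h4)
    exact ⟨W, r₂, hr.trans hr₂, hW, hWr⟩)
  refine ⟨Ψ, fun z => ?_, fun ζ hζ => ?_, h3⟩
  · have h4 := h1 0 z
    rw [Complex.ofReal_zero] at h4
    rw [h4, hφf]
    show φ (b + ((0 : ℝ) : ℂ) • ν + z • a) = φ (b + z • a)
    congr 1
    simp
  · obtain ⟨F, hF, hFz⟩ := h2 ζ hζ
    exact ⟨F, hF, funext hFz⟩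

end Pool.Agent.G4.C

end
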