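import Pool.Agent.H94.G4T.M117
import Pool.Agent.H94.G4T.M66
import Pool.Agent.H94.G4T.M89

/-! The parts of this file: G4.E.ArcG, G4.E.Dn. -/

section

/-!
# G4 E ArcG: arcs and lines, abstract form

`line_ext`: `Φ` on `Y` is holomorphic off `D'` over `h` and has meromorphic lifts everywhere; `t ↦ y + t e` a line of `Y`, not in `D'` outside a discrete set, with `h (y + t e) = b + t a'`: the values on the line are one curve of
`Hc X Λ u a' b`.

Local lifts (`arc_loc`, as in `G4/Z/Arc`, with `Y` in place of `ℂ^(k+1)`): `φ` the lift of `MerY` at `y₀ = γ z₀`, `v` a vector with `φ (y₀ + v) ≠ 0`, `c m` the derivative of order `m` of `φ` in the direction `v`, `m` minimal such that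
`c m ∘ γ` is not `0` near `z₀`; then `Φ (γ z) = pr (c m (γ z))` near `z₀`.  Then `LL.lift`, `xu_global` as in `G3/E/Line`.
-/

set_option autoImplicit false

open Topology Filter Metric

namespace Pool.Agent.G4.E

open Pool.Agent.H36.BP (EN fs wd)
open Pool.Agent.H14.PP (IsCone CurveAt Tan)
open Pool.Agent.H62.EF (MN pr)
open Pool.Agent.AD (Vd Chart Charts IsGerm)
open Pool.Agent.TG
open Pool.Agent.G3.A (Ba Hc Frm)

section Gen

variable {N : ℕ} {Y : Type} [NormedAddCommGroup Y] [NormedSpace ℂ Y]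

/-- the derivative in the direction `v` -/
private noncomputable def dv (v : Y) (φ : Y → EN N) : Y → EN N := fun y => fderiv ℂ φ y v

private theorem dv_an {v : Y} {φ : Y → EN N} {y : Y} (h : AnalyticAt ℂ φ y) : AnalyticAt ℂ (dv v φ) y :=
  ((ContinuousLinearMap.apply ℂ (EN N) v).analyticAt (fderiv ℂ φ y)).comp_of_eq h.fderiv rfl

private theorem dv_it (v : Y) (n : ℕ) {φ : Y → EN N} {y : Y} (h : AnalyticAt ℂ φ y) : AnalyticAt ℂ ((dv v)^[n] φ) y := by
  induction n generalizing φ with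
  | zero => exact h
  | succ n ih =>
    rw [Function.iterate_succ_apply]
    exact ih (dv_an h)

private theorem line_an (y v : Y) (t : ℂ) : AnalyticAt ℂ (fun w : ℂ => y + w • v) t :=
  analyticAt_const.add (analyticAt_id.smul analyticAt_const)

private theorem line_ev {P : Y → Prop} {y : Y} (v : Y) (h : ∀ᶠ z in 𝓝 y, P z) : ∀ᶠ t in 𝓝 (0 : ℂ), P (y + t • v) := by
  have h1 : Tendsto (fun t : ℂ => y + t • v) (𝓝 0) (𝓝 y) := by
    have h2 := (line_an y v 0).continuousAt.tendsto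
    rwa [zero_smul, add_zero] at h2
  exact h1.eventually h

private theorem dv_coef (v : Y) (n : ℕ) : ∀ {φ : Y → EN N} {g : ℂ → EN N} {y : Y}, AnalyticAt ℂ φ y → AnalyticAt ℂ g 0 →
    (∀ᶠ t in 𝓝 (0 : ℂ), φ (y + t • v) = t ^ n • g t) → (dv v)^[n] φ y = (n.factorial : ℂ) • g 0 := by
  induction n with
  | zero =>
    intro φ g y hφ hg h
    have h1 := h.self_of_nhds
    rw [zero_smul, add_zero, pow_zero, one_smul] at h1
    rw [Function.iterate_zero_apply, h1, Nat.factorial_zero, Nat.cast_one, one_smul]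
  | succ n ih =>
    intro φ g y hφ hg h
    rw [Function.iterate_succ_apply]
    have h1 : (fun t : ℂ => φ (y + t • v)) =ᶠ[𝓝 0] fun t => t ^ (n + 1) • g t := h
    have h2 := h1.deriv
    have key : ∀ᶠ t in 𝓝 (0 : ℂ), dv v φ (y + t • v) = t ^ n • (((n : ℂ) + 1) • g t + t • deriv g t) := by
      filter_upwards [h2, line_ev v hφ.eventually_analyticAt, hg.eventually_analyticAt] with t t1 t2 t3
      have e1 : HasDerivAt (fun t : ℂ => y + t • v) v t := by
        have := (((hasDerivAt_id t).smul_const v).const_add y)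
        rwa [one_smul] at this
      have e2 : deriv (fun t : ℂ => φ (y + t • v)) t = dv v φ (y + t • v) :=
        (t2.differentiableAt.hasFDerivAt.comp_hasDerivAt t e1).deriv
      have e3 : HasDerivAt (fun t : ℂ => t ^ (n + 1) • g t) (t ^ (n + 1) • deriv g t + (((n : ℂ) + 1) * t ^ n) • g t) t := by
        have := (hasDerivAt_pow (n + 1) t).smul t3.differentiableAt.hasDerivAt
        rwa [Nat.add_sub_cancel, Nat.cast_add, Nat.cast_one] at this
      rw [← e2, t1, e3.deriv, smul_add, smul_smul, smul_smul, pow_succ, add_comm, mul_comm ((n : ℂ) + 1)]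
    have hg1 : AnalyticAt ℂ (fun t => ((n : ℂ) + 1) • g t + t • deriv g t) 0 :=
      AnalyticAt.add (f := fun t => ((n : ℂ) + 1) • g t) (g := fun t => t • deriv g t) (AnalyticAt.smul (f := fun _ : ℂ => ((n : ℂ) + 1)) analyticAt_const hg)
        (AnalyticAt.smul (f := fun t : ℂ => t) analyticAt_id hg.deriv)
    have h3 := ih (g := fun t => ((n : ℂ) + 1) • g t + t • deriv g t) (dv_an hφ) hg1 key
    rw [h3]
    simp only [zero_smul, add_zero]
    rw [smul_smul, Nat.factorial_succ]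
    push_cast
    rw [mul_comm]

private theorem dv_lt {v : Y} {n j : ℕ} (hj : j < n) {φ : Y → EN N} {g : ℂ → EN N} {y : Y} (hφ : AnalyticAt ℂ φ y) (hg : AnalyticAt ℂ g 0)
    (h : ∀ᶠ t in 𝓝 (0 : ℂ), φ (y + t • v) = t ^ n • g t) : (dv v)^[j] φ y = 0 := by
  have h1 := dv_coef v j (g := fun t => t ^ (n - j) • g t) hφ ((analyticAt_id.pow _).smul hg) (by
    filter_upwards [h] with t ht
    rw [ht, smul_smul, ← pow_add]
    congr 2
    omega)
  rw [h1, zero_pow (by omega), zero_smul, smul_zero]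

/-- the leading coefficient -/
private theorem dv_lead {v : Y} {m : ℕ} {φ : Y → EN N} {y : Y} (hφ : AnalyticAt ℂ φ y) (h0 : ∀ j < m, (dv v)^[j] φ y = 0)
    (h1 : (dv v)^[m] φ y ≠ 0) :
    (∀ᶠ t in 𝓝[≠] (0 : ℂ), φ (y + t • v) ≠ 0) ∧ Tendsto (fun t : ℂ => pr (φ (y + t • v))) (𝓝[≠] 0) (𝓝 (pr ((dv v)^[m] φ y))) := by
  have hf : AnalyticAt ℂ (fun t : ℂ => φ (y + t • v)) 0 := hφ.comp_of_eq (line_an y v 0) (by simp)
  have hne : ¬ ∀ᶠ t in 𝓝 (0 : ℂ), φ (y + t • v) = 0 := by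
    intro h
    refine h1 ?_
    have := dv_coef v m (g := fun _ => 0) hφ analyticAt_const (by
      filter_upwards [h] with t ht
      rw [ht, smul_zero])
    rw [this, smul_zero]
  obtain ⟨n, g, hg, hg0, hge⟩ := hf.exists_eventuallyEq_pow_smul_nonzero_iff.2 hne
  simp only [sub_zero] at hge
  have hn := dv_coef v n hφ hg hge
  have hnf : (n.factorial : ℂ) ≠ 0 := by exact_mod_cast n.factorial_ne_zero
  have hmn : m = n := by
    rcases lt_trichotomy m n with h | h | h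
    · exact absurd (dv_lt h hφ hg hge) h1
    · exact h
    · exfalso
      have := h0 n h
      rw [hn, smul_eq_zero] at this
      exact this.elim hnf hg0
  subst hmn
  have hgc : ∀ᶠ t in 𝓝 (0 : ℂ), g t ≠ 0 := hg.continuousAt.eventually_ne hg0
  have hpw : ∀ᶠ t in 𝓝[≠] (0 : ℂ), t ^ m ≠ 0 := by
    filter_upwards [self_mem_nhdsWithin] with t ht
    exact pow_ne_zero _ ht
  constructor
  · filter_upwards [hge.filter_mono nhdsWithin_le_nhds, hgc.filter_mono nhdsWithin_le_nhds, hpw] with t t1 t2 t3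
    rw [t1]
    exact smul_ne_zero t3 t2
  · rw [hn, Pool.Agent.H62.EF.pr_smul _ hnf]
    have hc : Tendsto (fun t => pr (g t)) (𝓝[≠] (0 : ℂ)) (𝓝 (pr (g 0))) :=
      (ContinuousAt.comp (g := fun x : EN N => pr x) (Pool.Agent.H62.EF.continuousAt_pr hg0) hg.continuousAt).tendsto.mono_left nhdsWithin_le_nhds
    refine hc.congr' ?_
    filter_upwards [hge.filter_mono nhdsWithin_le_nhds, hpw] with t t1 t3
    rw [t1, Pool.Agent.H62.EF.pr_smul _ t3]

/-- local lift over an arc -/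
private theorem arc_loc {D : Set Y} (hDc : IsClosed D) {Φ : Y → MN N} (hcon : ∀ y ∉ D, ContinuousAt Φ y) (hm : MerY D Φ) {γ : ℂ → Y} {z₀ : ℂ}
    (hγ : AnalyticAt ℂ γ z₀) (hγD : ∀ᶠ w in 𝓝[≠] z₀, γ w ∉ D) :
    ∃ H : ℂ → EN N, AnalyticAt ℂ H z₀ ∧ ∀ᶠ w in 𝓝[≠] z₀, H w ≠ 0 ∧ Φ (γ w) = pr (H w) := by
  obtain ⟨φ, hφa, hφf, hφe⟩ := hm (γ z₀)
  set y₀ := γ z₀ with hy₀
  obtain ⟨s, hs, hball⟩ := Metric.eventually_nhds_iff_ball.1 (hφa.eventually_analyticAt.and hφe.eventually_nhds)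
  obtain ⟨y₁, hy₁, hy₁b⟩ := (hφf.and_eventually (isOpen_ball.mem_nhds (mem_ball_self hs))).exists
  set v := y₁ - y₀ with hv
  have hvs : ‖v‖ < s := by rw [hv, ← mem_ball_iff_norm]; exact hy₁b
  have hy1v : y₀ + (1 : ℂ) • v = y₁ := by rw [hv, one_smul]; abel
  -- some derivative at `y₀` is not `0`
  have hex : ∃ m : ℕ, (dv v)^[m] φ y₀ ≠ 0 := by
    by_cases hv0 : v = 0
    · refine ⟨0, ?_⟩
      rw [Function.iterate_zero_apply]
      rw [hv0, smul_zero, add_zero] at hy1v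
      rwa [hy1v]
    have hv1 : 0 < ‖v‖ := norm_pos_iff.2 hv0
    have hin : ∀ t ∈ ball (0 : ℂ) (s / ‖v‖), y₀ + t • v ∈ ball y₀ s := by
      intro t ht
      rw [mem_ball_zero_iff, lt_div_iff₀ hv1] at ht
      rw [mem_ball_iff_norm, add_sub_cancel_left, norm_smul]
      exact ht
    have hfa : AnalyticOnNhd ℂ (fun t : ℂ => φ (y₀ + t • v)) (ball 0 (s / ‖v‖)) := fun t ht => (hball _ (hin t ht)).1.comp_of_eq (line_an y₀ v t) rfl
    have h1b : (1 : ℂ) ∈ ball (0 : ℂ) (s / ‖v‖) := by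
      rw [mem_ball_zero_iff, norm_one, lt_div_iff₀ hv1, one_mul]
      exact hvs
    have h0b : (0 : ℂ) ∈ ball (0 : ℂ) (s / ‖v‖) := mem_ball_self (by positivity)
    have hne : ¬ ∀ᶠ t in 𝓝 (0 : ℂ), φ (y₀ + t • v) = 0 := by
      intro h
      have := hfa.eqOn_zero_of_preconnected_of_eventuallyEq_zero (convex_ball 0 _).isPreconnected h0b h h1b
      simp only [hy1v] at this
      exact hy₁ this
    obtain ⟨n, g, hg, hg0, hge⟩ := (hfa 0 h0b).exists_eventuallyEq_pow_smul_nonzero_iff.2 hne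
    simp only [sub_zero] at hge
    refine ⟨n, ?_⟩
    rw [dv_coef v n hφa hg hge]
    exact smul_ne_zero (by exact_mod_cast n.factorial_ne_zero) hg0
  have hca : ∀ m : ℕ, AnalyticAt ℂ (fun z => (dv v)^[m] φ (γ z)) z₀ := fun m => (dv_it v m hφa).comp_of_eq hγ rfl
  have hex2 : ∃ m : ℕ, ¬ ∀ᶠ z in 𝓝 z₀, (dv v)^[m] φ (γ z) = 0 := by
    obtain ⟨m, hm⟩ := hex
    exact ⟨m, fun h => hm h.self_of_nhds⟩
  classical
  set m := Nat.find hex2 with hmdef
  have hm1 : ¬ ∀ᶠ z in 𝓝 z₀, (dv v)^[m] φ (γ z) = 0 := Nat.find_spec hex2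
  have hm2 : ∀ j < m, ∀ᶠ z in 𝓝 z₀, (dv v)^[j] φ (γ z) = 0 := fun j hj => not_not.1 (Nat.find_min hex2 hj)
  have hm3 : ∀ᶠ z in 𝓝[≠] z₀, (dv v)^[m] φ (γ z) ≠ 0 := (hca m).eventually_eq_zero_or_eventually_ne_zero.resolve_left hm1
  have hm4 : ∀ᶠ z in 𝓝 z₀, ∀ j < m, (dv v)^[j] φ (γ z) = 0 := by
    have := (Finset.range m).eventually_all (l := 𝓝 z₀) (p := fun j z => (dv v)^[j] φ (γ z) = 0)
    have h2 := this.2 fun j hj => hm2 j (Finset.mem_range.1 hj)
    filter_upwards [h2] with z hz j hj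
    exact hz j (Finset.mem_range.2 hj)
  refine ⟨fun z => (dv v)^[m] φ (γ z), hca m, ?_⟩
  have hgb : ∀ᶠ z in 𝓝 z₀, γ z ∈ ball y₀ s := hγ.continuousAt.eventually (isOpen_ball.mem_nhds (mem_ball_self hs))
  filter_upwards [hm3, hm4.filter_mono nhdsWithin_le_nhds, hgb.filter_mono nhdsWithin_le_nhds, hγD] with z z1 z2 z3 z4
  refine ⟨z1, ?_⟩
  obtain ⟨l1, l2⟩ := dv_lead (hball _ z3).1 z2 z1
  have hD : ∀ᶠ t in 𝓝[≠] (0 : ℂ), γ z + t • v ∉ D := (line_ev v (hDc.isOpen_compl.mem_nhds z4)).filter_mono nhdsWithin_le_nhds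
  have hE : ∀ᶠ t in 𝓝[≠] (0 : ℂ), γ z + t • v ∉ D → φ (γ z + t • v) ≠ 0 → Φ (γ z + t • v) = pr (φ (γ z + t • v)) :=
    (line_ev v (hball _ z3).2).filter_mono nhdsWithin_le_nhds
  have hc : Tendsto (fun t : ℂ => Φ (γ z + t • v)) (𝓝[≠] 0) (𝓝 (Φ (γ z))) := by
    have h1 : Tendsto (fun t : ℂ => γ z + t • v) (𝓝 0) (𝓝 (γ z)) := by
      have h2 := (line_an (γ z) v 0).continuousAt.tendsto
      rwa [zero_smul, add_zero] at h2
    exact ((hcon _ z4).tendsto.comp h1).mono_left nhdsWithin_le_nhds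
  refine tendsto_nhds_unique (hc.congr' ?_) l2
  filter_upwards [hD, hE, l1] with t t1 t2 t3
  exact t2 t1 t3

end Gen

variable {N k : ℕ} {X : Set (EN N)} {Λ : AddSubgroup (Vd (k + 1))} {u : EN N → Vd (k + 1)}

theorem line_ext {Y : Type} [NormedAddCommGroup Y] [NormedSpace ℂ Y] [FiniteDimensional ℂ Y] {d : ℕ} (hX : IsCone X) (hch : Charts d X) (ht : TMap X Λ u) (hl : Lat Λ) {D' : Set Y}
    (hD' : IsClosed D') {h : Y → Vd (k + 1)} (hh : ∀ y, AnalyticAt ℂ h y) {Φ : Y → MN N} (hΦ : HolY X Λ u D' h Φ) (hm : MerY D' Φ) {y e : Y}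
    (hiso : ∀ t : ℂ, ∀ᶠ w in 𝓝[≠] t, y + w • e ∉ D') {b a' : Vd (k + 1)} (hb : ∀ t : ℂ, h (y + t • e) = b + t • a') :
    ∃ f ∈ Hc X Λ u a' b, ∀ t : ℂ, y + t • e ∉ D' → f t = Φ (y + t • e) := by
  classical
  have hcont : Continuous (fun z : ℂ => y + z • e) := by fun_prop
  have hconΦ : ∀ y ∉ D', ContinuousAt Φ y := by
    intro y hy
    obtain ⟨φ, hφ, hφe⟩ := hΦ y hy
    have h0 : φ y ≠ 0 := ne_zero hX hφe.self_of_nhds.1
    have h1 : ContinuousAt (fun z => pr (φ z)) y :=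
      ContinuousAt.comp (g := fun x : EN N => pr x) (Pool.Agent.H62.EF.continuousAt_pr h0) hφ.continuousAt
    refine h1.congr ?_
    filter_upwards [hφe] with z hz
    exact hz.2.1.symm
  -- the local lifts without zeros
  have hloc : ∀ z₀ : ℂ, ∃ G : ℂ → EN N, AnalyticAt ℂ G z₀ ∧ G z₀ ≠ 0 ∧ ∀ᶠ z in 𝓝[≠] z₀, y + z • e ∉ D' ∧ G z ≠ 0 ∧ Φ (y + z • e) = pr (G z) := by
    intro z₀
    have hlin : AnalyticAt ℂ (fun z : ℂ => y + z • e) z₀ := analyticAt_const.add (analyticAt_id.smul analyticAt_const)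
    obtain ⟨H, hHa, hHe⟩ := arc_loc hD' hconΦ hm hlin (hiso z₀)
    have hne : ¬ ∀ᶠ z in 𝓝 z₀, H z = 0 := by
      intro h
      obtain ⟨w, hw1, hw2⟩ := ((h.filter_mono nhdsWithin_le_nhds).and hHe).exists
      exact hw2.1 hw1
    obtain ⟨m, G, hGa, hG0, hGe⟩ := (hHa.exists_eventuallyEq_pow_smul_nonzero_iff).2 hne
    refine ⟨G, hGa, hG0, ?_⟩
    have h2 : ∀ᶠ z in 𝓝[≠] z₀, G z ≠ 0 := (hGa.continuousAt.eventually_ne hG0).filter_mono nhdsWithin_le_nhds
    have h4 : ∀ᶠ z in 𝓝[≠] z₀, z ≠ z₀ := self_mem_nhdsWithin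
    filter_upwards [hiso z₀, h2, hHe, h4, hGe.filter_mono nhdsWithin_le_nhds] with z a1 a2 a3 a4 a5
    refine ⟨a1, a2, ?_⟩
    rw [a3.2, a5]
    exact Pool.Agent.H62.EF.pr_smul _ (pow_ne_zero _ (sub_ne_zero.2 a4))
  choose G hGa hG0 hGe using hloc
  -- the values off `D'`
  have hoff : ∀ z : ℂ, y + z • e ∉ D' → pr (G z z) = Φ (y + z • e) := by
    intro z hz
    have t1 : Tendsto (fun w : ℂ => Φ (y + w • e)) (𝓝[≠] z) (𝓝 (Φ (y + z • e))) :=
      (ContinuousAt.comp (g := Φ) (f := fun w : ℂ => y + w • e) (hconΦ _ hz) hcont.continuousAt).tendsto.mono_left nhdsWithin_le_nhds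
    have hc' : ContinuousAt (fun w : ℂ => pr (G z w)) z :=
      ContinuousAt.comp (g := pr) (f := G z) (Pool.Agent.H62.EF.continuousAt_pr (hG0 z)) (hGa z).continuousAt
    have t2 : Tendsto (fun w : ℂ => Φ (y + w • e)) (𝓝[≠] z) (𝓝 (pr (G z z))) :=
      (hc'.tendsto.mono_left nhdsWithin_le_nhds).congr' ((hGe z).mono fun _ h => h.2.2.symm)
    exact tendsto_nhds_unique t2 t1
  -- local lifts
  have hLL : ∀ z₀ : ℂ, Pool.Agent.G3.C.LL (fun z => pr (G z z)) z₀ := by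
    intro z₀
    refine ⟨G z₀, hGa z₀, hG0 z₀, ?_⟩
    have h1 := eventually_nhdsWithin_iff.1 (hGe z₀)
    filter_upwards [h1] with z hz
    rcases eq_or_ne z z₀ with h | h
    · rw [h]
    · obtain ⟨a1, -, a3⟩ := hz h
      show pr (G z z) = pr (G z₀ z)
      rw [hoff z a1, a3]
  obtain ⟨F, hF, hF0, hFW⟩ := Pool.Agent.G3.C.LL.lift hLL
  have hfr : ∀ᶠ w in 𝓝[≠] (0 : ℂ), F w ∈ X ∧ u (F w) - (b + w • a') ∈ Λ := by
    filter_upwards [hiso 0] with w hw
    obtain ⟨H, -, hHe⟩ := hΦ _ hw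
    obtain ⟨h1, h2, h3⟩ := hHe.self_of_nhds
    rw [hb] at h3
    exact mem_of_pr hX ht h1 h3 (hF0 w) (by rw [← hFW w, hoff w hw, h2])
  have hall := Pool.Agent.G3.C.xu_global hX hch ht hl (γ := F) (υ := fun w => b + w • a') isOpen_univ isPreconnected_univ hF.differentiableOn (fun z _ => hF0 z)
    ((differentiable_const _).add (differentiable_id.smul_const a')).differentiableOn (Set.mem_univ 0) hfr.frequently
  exact ⟨fun z => pr (G z z), ⟨F, ⟨hF, fun z => (hall z (Set.mem_univ z)).1, fun z => (hall z (Set.mem_univ z)).2⟩, funext hFW⟩, fun z hz => hoff z hz⟩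

end Pool.Agent.G4.E

end

section

/-!
# G4 E Dn: comparison with the finite set of the global sections

`Cl X Λ u D SS a`: every curve over a line of direction `a` is the restriction of a member of `SS`, off `D`.
`cl_of_gd`: `SS` are the global sheets of the direction `a₀`, `SS'` those of the direction `a`, all are weakly meromorphic: `Cl SS a`.  (On every line of direction `a₀` a sheet `φ` of the direction `a` is a curve (`line_ext`), so equal to a
member of `SS` there; `fin_ident`.)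
-/

set_option autoImplicit false

open Topology Filter Metric

namespace Pool.Agent.G4.E

open Pool.Agent.H36.BP (EN fs wd)
open Pool.Agent.H14.PP (IsCone CurveAt Tan)
open Pool.Agent.H62.EF (MN pr)
open Pool.Agent.AD (Vd Chart Charts IsGerm)
open Pool.Agent.TG
open Pool.Agent.G3.A (Hc)
open Pool.Agent.G3.E (Hol GD)

variable {N k : ℕ} {X : Set (EN N)} {Λ : AddSubgroup (Vd (k + 1))} {u : EN N → Vd (k + 1)} {D : Set (Vd (k + 1))}

/-- every curve over a line of direction `a` is the restriction of a member of `SS` -/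
def Cl (X : Set (EN N)) (Λ : AddSubgroup (Vd (k + 1))) (u : EN N → Vd (k + 1)) (D : Set (Vd (k + 1))) (SS : Set (Vd (k + 1) → MN N)) (a : Vd (k + 1)) : Prop :=
  ∀ b, ∀ f ∈ Hc X Λ u a b, ∃ Φ ∈ SS, ∀ z : ℂ, b + z • a ∉ D → f z = Φ (b + z • a)

/-- the isolated points of `D` on the lines -/
theorem iso_shift {a : Vd (k + 1)} (hiso : ∀ y : Vd (k + 1), ∀ᶠ z in 𝓝[≠] (0 : ℂ), y + z • a ∉ D) (y : Vd (k + 1)) (z : ℂ) : ∀ᶠ w in 𝓝[≠] z, y + w • a ∉ D := by
  have h2 : Tendsto (fun w : ℂ => w - z) (𝓝[≠] z) (𝓝[≠] 0) := by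
    rw [tendsto_nhdsWithin_iff]
    refine ⟨?_, ?_⟩
    · have h3 : Continuous fun w : ℂ => w - z := by fun_prop
      have h4 := h3.tendsto z
      rw [sub_self] at h4
      exact h4.mono_left nhdsWithin_le_nhds
    · filter_upwards [self_mem_nhdsWithin] with w hw
      exact sub_ne_zero.2 hw
  filter_upwards [h2.eventually (hiso (y + z • a))] with w hw
  rwa [add_assoc, ← add_smul, add_sub_cancel] at hw

theorem cl_of_gd {d : ℕ} (hX : IsCone X) (hch : Charts d X) (ht : TMap X Λ u) (hl : Lat Λ) (hD : IsClosed D)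
    (hiso : ∀ a : Vd (k + 1), a ≠ 0 → ∀ y : Vd (k + 1), ∀ᶠ z in 𝓝[≠] (0 : ℂ), y + z • a ∉ D) (hne : (Dᶜ : Set (Vd (k + 1))).Nonempty) {a₀ a : Vd (k + 1)} (ha₀ : a₀ ≠ 0)
    {SS SS' : Set (Vd (k + 1) → MN N)} (hS : GD X Λ u D a₀ SS) (hS' : GD X Λ u D a SS')
    (hm' : ∀ φ ∈ SS', ∀ y₀, ∃ G : Vd (k + 1) → EN N, AnalyticAt ℂ G y₀ ∧ (∃ᶠ z in 𝓝 y₀, G z ≠ 0) ∧ ∀ᶠ z in 𝓝 y₀, G z ≠ 0 → φ z = pr (G z)) : Cl X Λ u D SS a := by
  intro b f hf
  obtain ⟨φ, hφ, hφf⟩ := hS'.ex b f hf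
  have hH : ∀ ψ : Vd (k + 1) → MN N, Hol X Λ u D ψ → HolY X Λ u D (fun y => y) ψ := fun ψ h => h
  have hM : MerY D φ := fun y => by
    obtain ⟨G, h1, h2, h3⟩ := hm' φ hφ y
    exact ⟨G, h1, h2, h3.mono fun z hz _ => hz⟩
  obtain ⟨Φ, hΦ, he⟩ := fin_ident (X := X) (Λ := Λ) (u := u) (h := fun y => y) hX hD (compl_conn' hD fun y e he t => iso_shift (hiso e he) y t) hne (hH φ (hS'.hol φ hφ)) hS.fin
    (fun Ψ hΨ => hH Ψ (hS.hol Ψ hΨ)) (fun y hy => by
      obtain ⟨g, hg, hge⟩ := line_ext hX hch ht hl hD (h := fun y => y) (fun y => analyticAt_id) (hH φ (hS'.hol φ hφ)) hM (y := y) (e := a₀) (fun t => iso_shift (hiso a₀ ha₀) y t)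
        (b := y) (a' := a₀) (fun t => rfl)
      obtain ⟨Φ, hΦ, hΦg⟩ := hS.ex y g hg
      refine ⟨Φ, hΦ, ?_⟩
      have h1 := hge 0 (by simpa using hy)
      have h2 := hΦg 0
      rw [zero_smul, add_zero] at h1 h2
      rw [← h1, ← h2])
  exact ⟨Φ, hΦ, fun z hz => by rw [← hφf z, he _ hz]⟩

end Pool.Agent.G4.E

end
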