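import Pool.Agent.H94.G4T.M114
import Pool.Agent.H94.G4T.M141
import Pool.Agent.H94.G4T.M145
import Pool.Agent.H94.G4T.M149
import Pool.Agent.H94.G4T.M154

/-! The parts of this file: TG.FAsm, G4.E.GDx, TG.FMain. -/

section

/-!
# TG FAsm: the conclusions from the geometric data and the finiteness of the sections
-/

set_option autoImplicit false

open Topology Filter MvPolynomial
open Pool.Agent.H17 (PN VanishesAt)
open Pool.Agent.H62.FC (Homog)
open Pool.Agent.H17LG.Variety (FunField)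
open Pool.Agent.H17EF (projVar coneE)
open Pool.Agent.AD (uV)
open Pool.Agent.TG (Geo FinSec merConc sabUnion sabSpecialSet sabUnion_vanishes sabSpecialSet_subset sabSpecialSet_ne sabUnion_up SabMap imageOf SabCases SimpleTorus merSections SameProjMap)

noncomputable section

namespace Pool.Agent.TGF

variable {N k : ℕ}

theorem sabUnion_mono {X Y : Set (PN N)} (h : X ⊆ Y) : sabUnion X ⊆ sabUnion Y := by
  rintro x ⟨S, h1, h2, h3⟩
  exact ⟨S, h1.trans h, h2, h3⟩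

theorem projVar_anti {P R : Ideal (MvPolynomial (Fin (N + 1)) ℂ)} (h : P ≤ R) : projVar R ⊆ projVar P := by
  intro x hx G hG n hn
  exact hx G (h hG) n hn

/-- the product vanishes -/
theorem vanishesAt_mul_left {A B : MvPolynomial (Fin (N + 1)) ℂ} {x : PN N} (h : VanishesAt A x) : VanishesAt (A * B) x := by
  unfold VanishesAt at *
  rw [map_mul, h, zero_mul]

theorem fAsm {P : Ideal (MvPolynomial (Fin (N + 1)) ℂ)} [P.IsPrime] (hP : Homog P) (hdim : ∃ z : Fin (k + 2) → FunField P, IsTranscendenceBasis ℂ z)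
    {Λ : AddSubgroup (Cn (k + 1))} {u : PN N → Cn (k + 1) ⧸ Λ} {D B : Set (Cn (k + 1))}
    (G : Geo (coneE P) Λ (uV Λ u) D B) (hfin : FinSec (coneE P) Λ (uV Λ u) D)
    (hR : ∃ (e : ℕ) (R : MvPolynomial (Fin (N + 1)) ℂ), R.IsHomogeneous e ∧ R ∉ P ∧
      ∀ x ∈ projVar P, (∃ y ∈ D, u x = (y : Cn (k + 1) ⧸ Λ)) → VanishesAt R x) :
    ∃ Q : MvPolynomial (Fin (N + 1)) ℂ, TorusFibration P Λ u D Q := by
  obtain ⟨z, hz⟩ := hdim
  obtain ⟨e, R, hRe, hRP, hRv⟩ := hR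
  have mc := merConc hP hz G G.clip hfin
  obtain ⟨d, Q₀, hQ₀, hQ₀P, hQ₀v⟩ := mc.form
  have hmaps : ∀ S : SabMap N, imageOf S.F ⊆ projVar P → SabCases (projVar P) Λ u D S := fun S hS => G.sabCases hP S hS
  have hQ : (R * Q₀).IsHomogeneous (e + d) := hRe.mul hQ₀
  have hQP : R * Q₀ ∉ P := by
    intro h
    rcases Ideal.IsPrime.mem_or_mem inferInstance h with h1 | h1
    · exact hRP h1
    · exact hQ₀P h1
  have hQD : ∀ x ∈ projVar P, (∃ y ∈ D, u x = (y : Cn (k + 1) ⧸ Λ)) → VanishesAt (R * Q₀) x := fun x hx hy => vanishesAt_mul_left (hRv x hx hy)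
  have hQm : ∀ Φ ∈ merSections (projVar P) Λ u, ∀ y, eval (Φ y) (R * Q₀) = 0 := fun Φ hΦ y => by
    rw [map_mul, hQ₀v Φ hΦ y, mul_zero]
  have hvan : SimpleTorus Λ → ∀ x ∈ sabUnion (projVar P), VanishesAt (R * Q₀) x := fun hs => sabUnion_vanishes hs hmaps hQ hQD hQm
  refine ⟨R * Q₀, ⟨mc.finite, mc.periodic, ⟨⟨_, hQ⟩, hQP⟩, hQD, hQm, hmaps, fun hs => sabSpecialSet_subset hQ (hvan hs), ?_⟩⟩
  rintro hs M P' hprime hP' ⟨z', hz'⟩ ⟨f⟩
  obtain ⟨T, eT, hT, hTP, hTv⟩ := sabUnion_up hP hP' hz hz' f hQ hQP (hvan hs)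
  obtain ⟨j, hj⟩ := Pool.Agent.H92.GT.Proj.exists_coordFun_ne_zero P' z' hz'
  have hjP : (X j : MvPolynomial (Fin (M + 1)) ℂ) ∉ P' := Pool.Agent.H17R.coordFun_ne_zero_iff.1 hj
  refine ⟨sabSpecialSet_ne hP' ⟨j, hjP⟩ hT hTP hTv, T * X j, ⟨_, hT.mul (isHomogeneous_X ℂ j)⟩, ?_, ?_⟩
  · intro h
    rcases Ideal.IsPrime.mem_or_mem inferInstance h with h1 | h1
    · exact hTP h1
    · exact hjP h1
  · intro Rr hRprime hRh hPR hTR
    have hTR1 : T ∉ Rr := fun h => hTR (Ideal.mul_mem_right _ _ h)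
    have hTR2 : (X j : MvPolynomial (Fin (M + 1)) ℂ) ∉ Rr := fun h => hTR (Ideal.mul_mem_left _ _ h)
    exact sabSpecialSet_ne hRh ⟨j, hTR2⟩ hT hTR1 fun x hx => hTv x (sabUnion_mono (projVar_anti hPR) hx)

end Pool.Agent.TGF

end
end

section

/-!
# G4 E GDx: the global sheets from the sheets over `⊤`

`Tb b ⊤ = univ`; `sht_finite` at `b = 0`; `ex`: `exists_sht` at `b = y`.
-/

set_option autoImplicit false

open Topology Filter Metric

namespace Pool.Agent.G4.E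

open Pool.Agent.H36.BP (EN fs wd)
open Pool.Agent.H14.PP (IsCone CurveAt Tan)
open Pool.Agent.H62.EF (MN pr)
open Pool.Agent.AD (Vd Chart Charts IsGerm)
open Pool.Agent.TG
open Pool.Agent.G3.A (Ba Hc Dec Sepa Tht Frm NL Lm CRL Tb ToE CE Sht)
open Pool.Agent.G3.E (Hol GD BC)
open Pool.Agent.G4.A

variable {N k : ℕ} {X : Set (EN N)} {Λ : AddSubgroup (Vd (k + 1))} {u : EN N → Vd (k + 1)} {D B Bad : Set (Vd (k + 1))} {a : Vd (k + 1)}
  {Γ : AddSubgroup (Vd (k + 1))} {J rW : ℕ} {W : Fin rW → Vd (k + 1) →L[ℂ] ℂ} {α : Fin J → VForm X Λ u} {c₀ C₀ ρ δ : ℝ}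

theorem gd_of_sht (S : DA X Λ u D B Bad a Γ W α c₀ C₀ ρ δ) (hCE : ∀ b, CE X Λ u a b ⊤) (hh : ∀ φ : Vd (k + 1) → MN N, Sht X Λ u D a (Tb 0 ⊤) φ → Hol X Λ u D φ) :
    ∃ SS : Set (Vd (k + 1) → MN N), GD X Λ u D a SS := by
  have hT : ∀ b y : Vd (k + 1), y ∈ Tb b (⊤ : Submodule ℝ (Vd (k + 1))) := fun b y => (Submodule.mem_top : y - b ∈ (⊤ : Submodule ℝ (Vd (k + 1))))
  obtain ⟨SS, hfin, hsht, hall, -⟩ := sht_finite S (hCE 0)
  refine ⟨SS, hfin, fun φ hφ => hh φ (hsht φ hφ), fun φ hφ y => (hsht φ hφ).line y (hT 0 y), fun y f hf => ?_,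
    fun φ hφ l hl => ?_⟩
  · obtain ⟨ψ, hψ, hψf⟩ := exists_sht S (hCE y) hf
    have h1 : Sht X Λ u D a (Tb 0 ⊤) ψ := by
      have e : Tb (0 : Vd (k + 1)) (⊤ : Submodule ℝ (Vd (k + 1))) = Tb y ⊤ := by
        ext z
        exact ⟨fun _ => hT y z, fun _ => hT 0 z⟩
      rw [e]
      exact hψ
    obtain ⟨φ, hφ, he⟩ := hall ψ h1
    exact ⟨φ, hφ, fun z => by rw [← he _ (hT 0 _), hψf z]⟩
  · obtain ⟨φ', hφ', he⟩ := hall _ (sht_add (hsht φ hφ) S.lg hl Submodule.mem_top)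
    have e : (fun y => φ (y + l)) = φ' := funext fun y => he y (hT 0 y)
    rw [e]
    exact hφ'

end Pool.Agent.G4.E

end

section

/-!
# TG FMain: the main theorem
-/

set_option autoImplicit false

open Topology Filter MvPolynomial
open Pool.Agent.H17 (PN VanishesAt)
open Pool.Agent.H62.FC (Homog)
open Pool.Agent.H17LG.Variety (FunField)
open Pool.Agent.H17EF (projVar coneE)
open Pool.Agent.AD (IsHolomorphicTorusMap uV isCone_coneE)
open Pool.Agent.TG (Geo finSec_at)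

noncomputable section

namespace Pool.Agent.TGF

variable {N k : ℕ}

theorem geo_of (P : Ideal (MvPolynomial (Fin (N + 1)) ℂ)) [P.IsPrime] (hP : Homog P)
    (hdim : ∃ z : Fin (k + 2) → FunField P, IsTranscendenceBasis ℂ z) (hsmooth : Pool.Agent.AD.NC.IsSmooth P (k + 2))
    (Λ : AddSubgroup (Cn (k + 1))) [DiscreteTopology Λ] (hspan : Submodule.span ℝ (Λ : Set (Cn (k + 1))) = ⊤)
    (u : PN N → Cn (k + 1) ⧸ Λ) (hu : IsHolomorphicTorusMap (projVar P) Λ u)
    (D B : Set (Cn (k + 1))) (hD : IsDiscriminant (projVar P) Λ u D B) : Geo (coneE P) Λ (uV Λ u) D B where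
  cone := isCone_coneE hP
  charts := gu_charts hP hdim hsmooth
  tor := gu_tor hP hu
  lat := gu_lat Λ hspan
  D_closed := hD.analytic.isClosed
  D_inv := gu_D_inv hD
  D_thin := hD.analytic.thin hD.proper
  B_lines := fun _ he => hD.small.lines he
  sub := geo_sub hP hdim hsmooth hD
  fib := gu_fib hP hD
  nc := geo_nc hP hdim hsmooth hD

/-- **Main theorem.** `X` is a smooth projective variety of dimension `k + 2`, `u` a holomorphic map to the torus `ℂ^(k+1) / Λ`, `D` contains the critical values and the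
map is of normal crossing type over `D \ B`, `B` of codimension at least two; the fibres over `D` lie in the hypersurface `R = 0` (which does not contain `X`); on a finite
covering `X'` induced from the torus there is a holomorphic `(k + 2)`-form which vanishes on a fibre outside `D`, but on no open set. -/
theorem main (P : Ideal (MvPolynomial (Fin (N + 1)) ℂ)) [P.IsPrime] (hP : Homog P)
    (hdim : ∃ z : Fin (k + 2) → FunField P, IsTranscendenceBasis ℂ z) (hsmooth : Pool.Agent.AD.NC.IsSmooth P (k + 2))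
    (Λ : AddSubgroup (Cn (k + 1))) [DiscreteTopology Λ] (hspan : Submodule.span ℝ (Λ : Set (Cn (k + 1))) = ⊤)
    (u : PN N → Cn (k + 1) ⧸ Λ) (hu : IsHolomorphicTorusMap (projVar P) Λ u)
    (D B : Set (Cn (k + 1))) (hD : IsDiscriminant (projVar P) Λ u D B)
    (hR : ∃ (e : ℕ) (R : MvPolynomial (Fin (N + 1)) ℂ), R.IsHomogeneous e ∧ R ∉ P ∧
      ∀ x ∈ projVar P, (∃ y ∈ D, u x = (y : Cn (k + 1) ⧸ Λ)) → VanishesAt R x)
    (Γ : AddSubgroup (Cn (k + 1))) (hle : Γ ≤ Λ) (hΓ : Submodule.span ℝ (Γ : Set (Cn (k + 1))) = ⊤) (hform : HasForm (projVar P) Λ Γ u D) :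
    ∃ Q : MvPolynomial (Fin (N + 1)) ℂ, TorusFibration P Λ u D Q := by
  have G := geo_of P hP hdim hsmooth Λ hspan u hu D B hD
  obtain ⟨α, hper, hthin, a, ha, hvan⟩ := exists_vform hP G.tor G.lat hform
  exact fAsm hP hdim G (finSec_at G ha (gu_lat_sub G.lat hle hΓ) hle hper hvan hthin) hR

end Pool.Agent.TGF

end
end
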